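import Pool.Agent.Work.MP_f0515e_an.P3.TDefs
import Pool.Agent.Work.MP_f0515e_an.D3.LDefs
import Pool.Agent.Work.MP_f0515e_an.D3.KBase
import Pool.Agent.Work.MP_f0515e_an.D3.KA4

-- merged part: Pool.Agent.Work.MP_f0515e_an.P3.SDefs
section
/-! Approximation on the two skeleton: statement. -/

open Set Metric Filter Topology Function BEv MeasureTheory
open scoped NNReal ENNReal

noncomputable section
namespace BEp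

def sqr (w : ℝ) : Set (Rn 2) := {ξ | ∀ i, 0 < ξ i ∧ ξ i < w}

def trg (w : ℝ) : Set (Rn 2) := {ξ | 0 < ξ 0 ∧ 0 < ξ 1 ∧ ξ 0 + ξ 1 < w}

/-- The chart domain is a square or a right triangle of side `w`. -/
def Ch.Shp (h : Ch) (w : ℝ) : Prop := 0 < w ∧ (h.U = sqr w ∨ h.U = trg w)

/-- `γ` is an upper gradient of `f` in the chart along the segments on which `v` is integrable. -/
structure FIn (p : ℝ) (f : Rn 3 → Rn 3) (v : Rn 3 → ℝ≥0∞) (h : Ch) (γ : Rn 2 → ℝ≥0∞) : Prop where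
  mγ : Measurable γ
  ug : ∀ ξ ∈ closure h.U, ∀ ξ' ∈ closure h.U, ∫⁻ s in Icc (0 : ℝ) 1, v (h.φ (seg ξ ξ' s)) ≠ ⊤ →
    ∀ s s', 0 ≤ s → s ≤ s' → s' ≤ 1 → ‖f (h.φ (seg ξ ξ' s')) - f (h.φ (seg ξ ξ' s))‖ₑ ≤
      ‖ξ' - ξ‖ₑ * ∫⁻ x in Icc s s', γ (seg ξ ξ' x)
  fin : ∫⁻ ξ in h.U, (v (h.φ ξ) + γ ξ ^ p) ≠ ⊤
  bd : ∫⁻ ξ in frontier h.U, (v (h.φ ξ) + γ ξ ^ p) ∂μH[1] ≠ ⊤

/-- The rigid box of a plate or a solid. -/
def Pc.box (P : Pc) (r : ℕ) : Box 1 := ⟨P.c, P.I, r, P.A, P.y⟩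

/-- The closeness tolerance. -/
def Pc.tol (P : Pc) (σ s : ℝ) : ℝ := σ ^ 2 * s / (10 ^ 13 * (1 + ‖(P.A : Rn 3 →L[ℝ] Rn 3)‖))

/-- Point of a chord. -/
def Pc.pt (P : Pc) (j : Fin 3) (t : ℝ) : Rn 3 := P.c + t • (Pi.single j 1 : Rn 3)

/-- Energy on an edge. -/
def edE (p : ℝ) (G : Rn 3 → Rn 3) (e : Rn 3 × Rn 3) : ℝ≥0∞ :=
  ∫⁻ t in Icc (0 : ℝ) 1, ‖deriv (fun t => G (seg e.1 e.2 t)) t‖ₑ ^ p

/-- Data on the skeleton. -/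
structure SD (ι : Type) where
  v : Rn 3 → ℝ≥0∞
  D : Rn 3 → Rn 3 →L[ℝ] Rn 3
  ch : Set (Rn 3) → Ch
  w : Set (Rn 3) → ℝ
  γ : Set (Rn 3) → Rn 2 → ℝ≥0∞
  ω : Set (Rn 3) → ℝ≥0∞
  Ed : Finset (Rn 3 × Rn 3)
  γe : Rn 3 × Rn 3 → ℝ → ℝ≥0∞
  ωe : Rn 3 × Rn 3 → ℝ≥0∞
  θ : Rn 3 → ℝ
  wt : Rn 3 → ℝ≥0∞
  P : ι → Pc
  s : ℝ
  r : ι → ℕ
  σ : ι → ℝ

namespace SD
variable {ι : Type} (d : SD ι)

/-- Faces in a plate or a solid. -/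
def Rig (F : Set (Rn 3)) : Prop := ∃ b, 2 ≤ (d.P b).I.card ∧ F ⊆ (d.P b).Q (d.P b).ρx

/-- Faces which are not subdivided. -/
def Frz (F : Set (Rn 3)) : Prop :=
  ∃ b, 2 ≤ (d.P b).I.card ∧ F ⊆ (d.P b).Q ((d.P b).ρx + 32 * d.s)

open Classical in
/-- The bound for the energy of a face. -/
def X (p : ℝ) (f : Rn 3 → Rn 3) (F : Set (Rn 3)) : ℝ≥0∞ :=
  if d.Frz F then ENNReal.ofReal (d.w F) *
    ∫⁻ ξ in frontier (d.ch F).U, (d.wt (f ((d.ch F).φ ξ)) * d.γ F ξ) ^ p ∂μH[1]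
  else ∫⁻ ξ in (d.ch F).U, (d.wt (f ((d.ch F).φ ξ)) * d.γ F ξ) ^ p

end SD

section
variable {ι : Type} {Ω : Set (Rn 3)}

/-- Hypotheses on a plate or a solid. -/
structure BoxIn (K : Kx Ω) (f : Rn 3 → Rn 3) (P : Pc) (s : ℝ) (r : ℕ) (σ a : ℝ) : Prop where
  rho : P.ρx = s * (r + 8)
  r8 : 8 ∣ r ∧ 16 ≤ r
  ls : ∃ k : ℕ, P.l = k * (16 * s)
  big : 10 ^ 15 * (1 + ‖(P.A : Rn 3 →L[ℝ] Rn 3)‖) * s ≤ a
  σ0 : 0 < σ ∧ σ ≤ 1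
  low : ∀ z, σ * ‖z‖ ≤ ‖P.A z‖
  QS : P.Q (P.ρx + 32 * s) ⊆ Ω
  grid : ∀ x ∈ P.Q (P.ρx + 32 * s), K.cell x = (P.box r).cc s x
  frz : ∀ F ∈ K.cel 2, (closure F ∩ P.Q (P.ρx + 22 * s)).Nonempty → F ⊆ P.Q (P.ρx + 32 * s)
  close : ∀ x ∈ K.sk 2 ∩ P.Q (P.ρx + 32 * s), ‖f x - P.aff x‖ ≤ P.tol σ s
  rvar : ∀ a b, K.Edge a b → a ∈ P.Q (P.ρx + 16 * s) → b ∈ P.Q (P.ρx + 16 * s) →
    vr (fun x => f x - P.aff x) a b ≤ ENNReal.ofReal (P.tol σ s)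
  nohit : ∀ x ∈ P.Q (P.ρx + 4 * s), ∀ y ∈ Ω, (y ∈ K.sk 2 ∨ y ∈ (P.box r).Sk s) →
    y ∉ P.Q (P.ρx + 8 * s) → σ * s / 50 < ‖f y - P.aff x‖

/-- Hypotheses on a chord. -/
structure ChdIn (K : Kx Ω) (p : ℝ) (f : Rn 3 → Rn 3) (D : Rn 3 → Rn 3 →L[ℝ] Rn 3) (P : Pc)
    (j : Fin 3) (a : ℝ) : Prop where
  QS : P.Q P.ρ ⊆ Ω
  cel : ∀ x ∈ P.Q P.ρ, K.cell x ⊆ P.Q P.ρ
  close : ∀ x ∈ P.Q P.ρ, ‖f x - P.aff x‖ ≤ a / 2
  ac : ACs f D (P.pt j (-P.ρ)) (P.pt j P.ρ)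
  fin : ∫⁻ t in Icc (-P.ρ) P.ρ, ‖D (P.pt j t)‖ₑ ^ p ≠ ⊤

/-- Hypotheses of the theorem on the two skeleton. -/
structure SIn (p C1 g : ℝ) (Cf : (Rn 3 ≃L[ℝ] Rn 3) → ℝ) (K : Kx Ω) (f : Rn 3 → Rn 3) (d : SD ι) :
    Prop where
  opn : IsOpen Ω
  cont : ContinuousOn f Ω
  inj : InjOn f Ω
  mv : Measurable d.v
  mD : Measurable d.D
  face : ∀ F ∈ K.cel 2, (d.ch F).Of F ∧ (d.ch F).Shp (d.w F) ∧ FIn p f d.v (d.ch F) (d.γ F) ∧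
    d.ω F ≠ ⊤
  edge : ∀ e ∈ d.Ed, K.Edge e.1 e.2 ∧
    (∀ b, Disjoint (openSegment ℝ e.1 e.2) ((d.P b).Q (d.P b).ρx)) ∧ Measurable (d.γe e) ∧ d.ωe e ≠ ⊤ ∧ ∀ s s', 0 ≤ s → s ≤ s' → s' ≤ 1 →
      ‖f (seg e.1 e.2 s') - f (seg e.1 e.2 s)‖ₑ ≤ ∫⁻ x in Icc s s', d.γe e x
  scl : Scl (f '' Ω) d.θ 100
  mw : Measurable d.wt
  w0 : ∀ y, ENNReal.ofReal C1 ≤ d.wt y
  w1 : ∀ b y, (d.P b).Nr (Cf (d.P b).A * (d.P b).l) y → ENNReal.ofReal (Cf (d.P b).A) ≤ d.wt y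
  pc : PcIn (f '' Ω) d.θ Cf d.P
  s0 : 0 < d.s
  box : ∀ b, 2 ≤ (d.P b).I.card →
    BoxIn K f (d.P b) d.s (d.r b) (d.σ b) (g * (d.P b).l / Cf (d.P b).A)
  chd : ∀ b j, (d.P b).I = {j} → ChdIn K p f d.D (d.P b) j (g * (d.P b).l / Cf (d.P b).A)
  disj : ∀ b b', b ≠ b' →
    Disjoint ((d.P b).Q ((d.P b).ρx + 32 * d.s)) ((d.P b').Q ((d.P b').ρx + 32 * d.s))

/-- Conclusion of the theorem on the two skeleton. -/
structure SOut (p C1 g : ℝ) (Cg : (Rn 3 ≃L[ℝ] Rn 3) → ℝ) (K : Kx Ω) (f : Rn 3 → Rn 3) (d : SD ι)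
    (e : ℝ≥0∞) (G : Rn 3 → Rn 3) : Prop where
  ltp : LTP Ω G
  inj : InjOn G Ω
  mv : ∀ x ∈ K.sk 2, ‖G x - f x‖ ≤ 8 * d.θ (f x)
  en : (∑' F : {F // F ∈ K.cel 2 ∧ ¬ d.Rig F}, d.ω F * (d.ch F).E p G) +
      ∑ e ∈ d.Ed, d.ωe e * edE p G e ≤
    (∑' F : {F // F ∈ K.cel 2 ∧ ¬ d.Rig F}, d.ω F * d.X p f F) +
      (∑ e ∈ d.Ed, d.ωe e * ∫⁻ t in Icc (0 : ℝ) 1, (d.wt (f (seg e.1 e.2 t)) * d.γe e t) ^ p) + e
  rig : ∀ b, 2 ≤ (d.P b).I.card → EqOn G (d.P b).aff ((d.P b).Q ((d.P b).ρ - (d.P b).l)) ∧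
    ∀ x ∈ (d.P b).Q (d.P b).ρx, ∀ x' ∈ (d.P b).Q (d.P b).ρx,
      ‖G x - G x'‖ ≤ Cg (d.P b).A * ‖x - x'‖
  chd : ∀ b j, (d.P b).I = {j} →
    ∫⁻ t in Icc (-(d.P b).ρ) (d.P b).ρ,
        ‖deriv (fun t => G ((d.P b).pt j t)) t - (d.P b).A (Pi.single j 1)‖ₑ ^ p ≤
      ENNReal.ofReal (C1 * g * (d.P b).ρ * ‖(d.P b).A (Pi.single j 1)‖ ^ p +
          Cg (d.P b).A * (d.P b).l) +
        ENNReal.ofReal (Cg (d.P b).A) * (∫⁻ t in Icc (-(d.P b).ρ) (d.P b).ρ,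
          ‖d.D ((d.P b).pt j t) (Pi.single j 1) - (d.P b).A (Pi.single j 1)‖ₑ ^ p) + e

end

/-- The theorem on the two skeleton. -/
def Surf2 (p : ℝ) : Prop :=
  ∃ (C1 : ℝ) (Cf : (Rn 3 ≃L[ℝ] Rn 3) → ℝ) (Cg : ℝ → (Rn 3 ≃L[ℝ] Rn 3) → ℝ), 1 ≤ C1 ∧
    (∀ A, C1 ≤ Cf A) ∧ (∀ g A, 1 ≤ Cg g A) ∧ ∀ g : ℝ, 0 < g → g ≤ 1 / 8 →
      ∀ (Ω : Set (Rn 3)) (K : Kx Ω) (f : Rn 3 → Rn 3) (ι : Type) [Finite ι] (d : SD ι) (e : ℝ≥0∞),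
        e ≠ 0 → SIn p C1 g Cf K f d → ∃ G, SOut p C1 g (Cg g) K f d e G

end BEp
end
end

-- merged part: Pool.Agent.Work.MP_f0515e_an.P3.DDefs
section
/-! Domain side for `2 < p < 3`: definitions. -/

open Set Metric Filter Topology Function BEv MeasureTheory
open scoped NNReal ENNReal

noncomputable section
namespace BEp

abbrev I3 : Type := Fin 3 → ℤ

abbrev idE : Rn 3 ≃L[ℝ] Rn 3 := ContinuousLinearEquiv.refl ℝ (Rn 3)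

/-- Keep the coordinates in `I`. -/
def prL (I : Finset (Fin 3)) : Rn 3 →L[ℝ] Rn 3 :=
  ContinuousLinearMap.pi fun i => if i ∈ I then ContinuousLinearMap.proj i else 0

/-- Divide the coordinates off `I` by `b`. -/
def dgL (I : Finset (Fin 3)) (b : ℝ) : Rn 3 →L[ℝ] Rn 3 :=
  ContinuousLinearMap.pi fun i =>
    if i ∈ I then ContinuousLinearMap.proj i else b⁻¹ • ContinuousLinearMap.proj i

/-- `σ` is the image of the unit cube under a map which is `a` bi-Lipschitz at scale `lam`. -/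
def Cbe (σ : Set (Rn 3)) (a lam : ℝ) : Prop :=
  ∃ Φ : Rn 3 → Rn 3, LH Φ ∧ Φ '' closedBall 0 1 = closure σ ∧ Φ '' ball 0 1 = σ ∧
    ∀ x ∈ closedBall (0 : Rn 3) 1, ∀ y ∈ closedBall (0 : Rn 3) 1,
      ‖Φ x - Φ y‖ ≤ a * lam * ‖x - y‖ ∧ lam * ‖x - y‖ ≤ a * ‖Φ x - Φ y‖

/-- The chart is `a` bi-Lipschitz in the coordinates `N`. -/
def Ch.Bi (h : Ch) (N : Rn 3 ≃L[ℝ] Rn 3) (a : ℝ) : Prop :=
  ∀ ξ, ‖N.symm (h.M ξ)‖ ≤ a * ‖ξ‖ ∧ ‖ξ‖ ≤ a * ‖N.symm (h.M ξ)‖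

/-- Faces of a cell. -/
def Kx.fc {Ω : Set (Rn 3)} (K : Kx Ω) (σ : Set (Rn 3)) : Set (Set (Rn 3)) :=
  {F | F ∈ K.cel 2 ∧ F ⊆ closure σ}

/-- Cell of the lattice `o + h N ℤ³`. -/
def lc (N : Rn 3 ≃L[ℝ] Rn 3) (o : Rn 3) (h : ℝ) (x : Rn 3) : Set (Rn 3) :=
  {y | ∀ i, kbS ((h⁻¹ • N.symm (x - o)) i) ((h⁻¹ • N.symm (y - o)) i)}

/-- Integer matrices with entries at most `b`. -/
def IntM (N : Rn 3 ≃L[ℝ] Rn 3) (b : ℝ) : Prop :=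
  ∀ i j, ∃ k : ℤ, N (Pi.single j 1) i = k ∧ |(k : ℝ)| ≤ b

/-- All cells have shape at most `a` at scale one. -/
structure Shape (K : Kx univ) (ch : Set (Rn 3) → Ch) (w : Set (Rn 3) → ℝ) (a : ℝ) : Prop where
  top : ∀ σ ∈ K.cel 3, Cbe σ a 1
  face : ∀ F ∈ K.cel 2, (ch F).Of F ∧ (ch F).Shp (w F) ∧ (ch F).Bi idE a

/-- `a` bounds the shape of a common refinement of the unit lattice and any lattice `N ℤ³`. -/
def ShK (b a : ℝ) : Prop :=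
  3 * b ≤ a ∧ ∀ N, IntM N b → ∃ (K : Kx univ) (ch : Set (Rn 3) → Ch) (w : Set (Rn 3) → ℝ),
    (∀ x, K.cell x ⊆ kbC 0 x ∩ lc N 0 1 x) ∧ Shape K ch w a

/-- Absolute continuity on the segments on which `v` is integrable. -/
def USeg (S : Set (Rn 3)) (f : Rn 3 → Rn 3) (D : Rn 3 → Rn 3 →L[ℝ] Rn 3) (v : Rn 3 → ℝ≥0∞) :
    Prop :=
  ∀ a b, segment ℝ a b ⊆ S → ∫⁻ s in Icc (0 : ℝ) 1, v (seg a b s) ≠ ⊤ → ACs f D a b

/-- `g` is an upper gradient on the segments on which `v` is integrable. -/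
def GSeg (S : Set (Rn 3)) (f : Rn 3 → Rn 3) (g v : Rn 3 → ℝ≥0∞) : Prop :=
  ∀ a b, segment ℝ a b ⊆ S → ∫⁻ s in Icc (0 : ℝ) 1, v (seg a b s) ≠ ⊤ →
    ∀ s s', 0 ≤ s → s ≤ s' → s' ≤ 1 →
      ‖f (seg a b s') - f (seg a b s)‖ₑ ≤ ‖b - a‖ₑ * ∫⁻ x in Icc s s', g (seg a b x)

section Stretch

/-- Staircase with steps of width `θ` at the half integers. -/
def stair (θ t : ℝ) : ℝ := 1 / 2 + oext (fun d => min (d / θ) (1 / 2)) (t - 1 / 2)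

def str (I : Finset (Fin 3)) (θ : ℝ) (ξ : Rn 3) : Rn 3 :=
  fun i => if i ∈ I then ξ i else stair θ (ξ i)

/-- Open unit cube. -/
def cu (z : I3) : Set (Rn 3) := {ξ | ∀ i, (z i : ℝ) < ξ i ∧ ξ i < z i + 1}

/-- Replace the coordinates in `J` by those of `z`. -/
def pjz (J : Finset (Fin 3)) (z : I3) (ξ : Rn 3) : Rn 3 := fun i => if i ∈ J then z i else ξ i

/-- Corners in the directions off `I`. -/
def cnr (I : Finset (Fin 3)) (z : I3) : Finset I3 :=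
  Fintype.piFinset fun i => if i ∈ I then {z i} else {z i, z i + 1}

end Stretch

/-- Data attached to a matrix. -/
structure Ty where
  A : Rn 3 →L[ℝ] Rn 3
  I : Finset (Fin 3)
  N : Rn 3 ≃L[ℝ] Rn 3
  Ah : Rn 3 ≃L[ℝ] Rn 3
  L : Rn 3 →L[ℝ] Rn 3
  σ : ℝ
  nl : ℕ
  a : ℕ
  r : ℕ
  lam : ℝ
  cf : ℝ
  cg : ℝ

namespace Ty
variable (T : Ty)

/-- Width of the frame of a tile, in units of the fine mesh. -/
def κ : ℝ := 2 ^ T.a - (T.r + 8)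

/-- Width of the zone of large weight, in units of the fine mesh. -/
def ζ : ℝ := 4 * T.cf * 2 ^ T.nl / T.σ

structure Ok (g b : ℝ) : Prop where
  g0 : 0 < g ∧ g ≤ 1 / 8
  gb : 1 ≤ g * b
  ne : T.I.Nonempty
  int : IntM T.N b
  NI : ∀ i ∈ T.I, T.N (Pi.single i 1) = Pi.single i 1
  NK : ∀ j, j ∉ T.I → ∀ i, i ∉ T.I → T.N (Pi.single j 1) i = if i = j then b else 0
  ker : ∀ j, j ∉ T.I → ‖T.A (T.N (Pi.single j 1))‖ ≤ ‖T.A‖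
  zero : T.A = 0 → T.I = Finset.univ
  σ0 : 0 < T.σ ∧ T.σ ≤ 1
  low : T.A ≠ 0 → ∀ z, T.σ * ‖prL T.I z‖ ≤ ‖T.A (prL T.I z)‖
  lowh : ∀ z, T.σ * ‖z‖ ≤ ‖T.Ah z‖
  LA : T.A ≠ 0 → ∀ i ∈ T.I, T.Ah (Pi.single i 1) = T.L (T.A (Pi.single i 1))
  L1 : ‖T.L - 1‖ ≤ g ∧ 1000 * ‖T.L - 1‖ * (1 + ‖T.A‖) ≤ T.σ * g
  rat : ∃ m : ℕ, 0 < m ∧ ∀ i j, ∃ k : ℤ, m * T.Ah.symm (Pi.single j 1) i = k
  c1 : 1 ≤ T.cf ∧ 1 ≤ T.cg
  nl4 : 4 ≤ T.nl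
  dvd : ∃ k : ℕ, 2 ≤ k ∧ T.r + 8 = k * 2 ^ T.nl
  big : 10 ^ 15 * (1 + ‖(T.Ah : Rn 3 →L[ℝ] Rn 3)‖) * T.cf ≤ g * 2 ^ T.nl
  κg : g * 2 ^ T.a / 2 ≤ T.κ ∧ T.κ ≤ g * 2 ^ T.a
  κζ : 100 * (T.ζ + 64) ≤ T.σ * T.κ
  sm : (T.cf + T.cg) ^ 3 * (T.ζ + 64) ≤ g * 2 ^ T.a
  lam0 : 0 < T.lam
  lam1 : 10 ^ 14 * (1 + ‖(T.Ah : Rn 3 →L[ℝ] Rn 3)‖) * 2 ^ T.a * T.lam ≤ T.σ ^ 2

end Ty

/-- Parameters common to all the cubes. -/
structure Pr where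
  g : ℝ
  b : ℝ
  nη : ℕ
  n0 : ℕ
  ns : ℕ
  ρ' : ℝ

def Pr.η (P : Pr) : ℝ := 1 / 2 ^ P.nη

def Pr.h (P : Pr) : ℝ := 1 / 2 ^ P.n0

def Pr.s (P : Pr) : ℝ := 1 / 2 ^ P.ns

/-- Weight of a fine edge. -/
def Pr.ωe (P : Pr) (p : ℝ) : ℝ≥0∞ := ENNReal.ofReal ((P.b * P.h) ^ 2 * (16 * P.s) ^ (1 - p))

/-- A cube with its type and its three meshes. -/
structure Cu extends Ty, Pr where
  o : Rn 3

namespace Cu
variable (C : Cu)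

/-- Side of a tile. -/
def t0 : ℝ := 2 ^ (C.a + 1) * C.s

def q : Set (Rn 3) := closedBall C.o C.η

/-- Lattice chart and its inverse. -/
def X (ξ : Rn 3) : Rn 3 := C.o + C.h • C.N ξ

def ξ (x : Rn 3) : Rn 3 := C.h⁻¹ • C.N.symm (x - C.o)

def lc (x : Rn 3) : Set (Rn 3) := BEp.lc C.N C.o C.h x

/-- Closed box. -/
def bx (z : I3) : Set (Rn 3) := {x | ∀ i, (z i : ℝ) ≤ C.ξ x i ∧ C.ξ x i ≤ z i + 1}

/-- The region of the long boxes. -/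
def O : Set (Rn 3) := {x | ∀ z, x ∈ C.bx z → C.bx z ⊆ ball C.o (C.η - C.h)}

/-- Closed cell in the directions of `I`. -/
def icl (z : I3) : Set (Rn 3) := {x | x ∈ C.bx z ∧ ∀ i, i ∉ C.I → C.ξ x i = z i}

/-- The slices, which carry the fine mesh. -/
def WI : Set (Rn 3) := {x | ∃ z, C.icl z ⊆ C.O ∧ x ∈ C.icl z}

/-- Centre of a tile. -/
def ctr (u : I3 × I3) : Rn 3 :=
  C.X (fun i => u.1 i) + prL C.I fun i => (u.2 i + 1 / 2) * C.t0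

/-- Admissible tiles. -/
def Adm : Set (I3 × I3) :=
  {u | C.icl u.1 ⊆ C.O ∧ (∀ i, i ∉ C.I → u.2 i = 0) ∧
    ∀ i ∈ C.I, 3 * C.ρ' ≤ u.2 i * C.t0 ∧ (u.2 i + 1) * C.t0 + 3 * C.ρ' ≤ C.h}

def l : ℝ := 1 / 2 ^ (C.ns - C.nl)

def ρx : ℝ := C.s * (C.r + 8)

def ρ : ℝ := if C.I.card = 2 then C.ρx - C.l else C.ρx

/-- The piece in a tile. -/
def pc (u : I3 × I3) (y : Rn 3) : Pc := ⟨C.ctr u, C.I, C.ρ, C.Ah, y, C.ns - C.nl⟩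

def Q (u : I3 × I3) (R : ℝ) : Set (Rn 3) := (C.pc u 0).Q R

/-- Volume of the column over a tile. -/
def tv : ℝ := C.t0 ^ C.I.card * (C.b * C.h) ^ (3 - C.I.card)

/-- Volume of the columns over the admissible tiles which are not kept. -/
def unk (kp : Set (I3 × I3)) : ℝ≥0∞ := ((C.Adm \ kp).encard : ℝ≥0∞) * ENNReal.ofReal C.tv

structure Ok (aK : ℝ) : Prop extends C.toTy.Ok C.g C.b where
  aK3 : 3 * C.b ≤ aK
  olat : ∀ i, ∃ k : ℤ, C.o i = k * C.η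
  n1 : C.nη < C.n0
  n2 : C.n0 + C.a + 1 ≤ C.ns
  lay : aK ^ 30 * (C.cf + C.cg) ^ 3 * (100 * C.b * C.h) ≤ C.g * C.η
  ρ1 : C.t0 ≤ C.ρ'
  ρ2 : 100 * C.cf ^ 3 * C.ρ' ≤ C.g * C.h

/-- The complex is adapted to the cube. -/
structure Fit (aK : ℝ) {Ω : Set (Rn 3)} (K : Kx Ω) (ch : Set (Rn 3) → Ch) (w : Set (Rn 3) → ℝ) :
    Prop where
  opn : IsOpen Ω
  sub : C.q ⊆ Ω
  cq : ∀ x ∈ C.q, K.cell x ⊆ C.q
  cb : ∀ x ∈ ball C.o C.η, K.cell x ⊆ ball C.o C.η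
  fine : ∀ x ∈ C.WI, K.cell x = kbC (C.ns - 4) x
  long : ∀ x ∈ C.O, x ∉ C.WI → K.cell x = C.lc x
  top : ∀ σ ∈ K.cel 3, σ ⊆ C.q → ¬ σ ⊆ C.WI → Cbe σ aK C.h
  face : ∀ F ∈ K.cel 2, F ⊆ C.q → (ch F).Of F ∧ (ch F).Shp (w F) ∧ (ch F).Bi idE aK
  ff : ∀ F ∈ K.cel 2, F ⊆ C.WI → (ch F).U = sqr (16 * C.s) ∧ w F = 16 * C.s ∧
    (ch F).Bi idE 1 ∧ (ch F).Bi C.N 1
  fl : ∀ F ∈ K.cel 2, F ⊆ C.O → ¬ F ⊆ C.WI → (ch F).U = sqr C.h ∧ (ch F).Bi C.N 1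

/-- Cells in a box whose faces are all long. -/
def Lng (σ : Set (Rn 3)) : Prop := ∃ z, C.bx z ⊆ C.O ∧ σ ⊆ C.bx z

open Classical in
/-- Coordinates, shape and size for the cavitation in a cell. -/
def cN (σ : Set (Rn 3)) : Rn 3 ≃L[ℝ] Rn 3 := if ¬ σ ⊆ C.WI ∧ C.Lng σ then C.N else idE

open Classical in
def ca (aK : ℝ) (σ : Set (Rn 3)) : ℝ := if σ ⊆ C.WI ∨ C.Lng σ then 1 else aK

open Classical in
def cl (σ : Set (Rn 3)) : ℝ := if σ ⊆ C.WI then 8 * C.s else if C.Lng σ then C.h / 2 else C.h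

open Classical in
/-- Weight of the face `F` of the cell `σ`. -/
def wgt (aK : ℝ) (σ F : Set (Rn 3)) : ℝ≥0∞ := ENNReal.ofReal <|
  if σ ⊆ C.WI then 16 * C.s else if C.Lng σ then C.b ^ (3 - C.I.card) * C.h *
    (if F ⊆ C.WI ∨ ¬ σ ⊆ closedBall C.o (C.η - 13 * C.b * C.h) then 1 else C.g)
  else aK ^ 16 * C.h

/-- The cut off of the stretch. -/
def cut (ξ : Rn 3) : ℝ :=
  max 0 (min 1 ((C.η - 7 * C.b * C.h - ‖C.h • C.N ξ‖) / (6 * C.b * C.h)))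

/-- The stretch. -/
def St (x : Rn 3) : Rn 3 := C.X (loc C.cut (str C.I C.g) (C.ξ x))

/-- Fine edges on the lines which carry chords. -/
def Ed0 : Set (Rn 3 × Rn 3) :=
  {e | ∃ j, C.I = {j} ∧ e.2 = e.1 + (16 * C.s) • (Pi.single j 1 : Rn 3) ∧
    (∀ i, ∃ k : ℤ, e.1 i = k * (16 * C.s)) ∧ ∃ z, C.icl z ⊆ C.O ∧ segment ℝ e.1 e.2 ⊆ C.icl z}

def Ed (kp : Set (I3 × I3)) : Set (Rn 3 × Rn 3) :=
  {e | e ∈ C.Ed0 ∧ ∀ u ∈ kp, Disjoint (openSegment ℝ e.1 e.2) (C.Q u C.ρx)}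

def Rig (kp : Set (I3 × I3)) (F : Set (Rn 3)) : Prop :=
  2 ≤ C.I.card ∧ ∃ u ∈ kp, F ⊆ C.Q u C.ρx

def Frz (kp : Set (I3 × I3)) (F : Set (Rn 3)) : Prop :=
  2 ≤ C.I.card ∧ ∃ u ∈ kp, F ⊆ C.Q u (C.ρx + 32 * C.s)

/-- Zone of large weight. -/
def zone (u : I3 × I3) : Set (Rn 3) :=
  C.Q u (C.ρx + C.ζ * C.s) ∪
    {x | C.I.card = 1 ∧ ‖x - C.ctr u‖ < C.ρ' ∧ ∃ i, i ∉ C.I ∧ x i ≠ C.ctr u i}

open Classical in
def Wt (C1 : ℝ) (kp : Set (I3 × I3)) (x : Rn 3) : ℝ≥0∞ :=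
  ENNReal.ofReal (if ∃ u ∈ kp, x ∈ C.zone u then C.cf else C1)

open Classical in
/-- Bound for the energy of a face. -/
def XF (p C1 : ℝ) (kp : Set (I3 × I3)) (D : Rn 3 → Rn 3 →L[ℝ] Rn 3) (k : Ch) (w : ℝ)
    (F : Set (Rn 3)) : ℝ≥0∞ :=
  if C.Frz kp F then ENNReal.ofReal w *
    ∫⁻ ξ in frontier k.U, (C.Wt C1 kp (k.φ ξ) * (2 * ‖(D (k.φ ξ)).comp k.M‖ₑ)) ^ p ∂μH[1]
  else ∫⁻ ξ in k.U, (C.Wt C1 kp (k.φ ξ) * (2 * ‖(D (k.φ ξ)).comp k.M‖ₑ)) ^ p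

/-- Weighted sum over the faces, which are not rigid, of the cells in `S`. -/
def SumF (aK : ℝ) {Ω : Set (Rn 3)} (K : Kx Ω) (kp : Set (I3 × I3)) (S : Set (Set (Rn 3)))
    (E : Set (Rn 3) → ℝ≥0∞) : ℝ≥0∞ :=
  ∑' σ : S, ∑' F : {F // F ∈ K.fc σ ∧ ¬ C.Rig kp F}, C.wgt aK σ F * E F

/-- All cells, fine cells, long cells and the other cells of the cube. -/
def S0 {Ω : Set (Rn 3)} (K : Kx Ω) : Set (Set (Rn 3)) := {σ | σ ∈ K.cel 3 ∧ σ ⊆ C.q}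

def S1 {Ω : Set (Rn 3)} (K : Kx Ω) : Set (Set (Rn 3)) := {σ | σ ∈ K.cel 3 ∧ σ ⊆ C.WI}

def S2 {Ω : Set (Rn 3)} (K : Kx Ω) : Set (Set (Rn 3)) := {σ | σ ∈ K.cel 3 ∧ ¬ σ ⊆ C.WI ∧ C.Lng σ}

def S3 {Ω : Set (Rn 3)} (K : Kx Ω) : Set (Set (Rn 3)) :=
  {σ | σ ∈ K.cel 3 ∧ σ ⊆ C.q ∧ ¬ σ ⊆ C.WI ∧ ¬ C.Lng σ}

/-- Bound for the energy of an edge. -/
def XE (p C1 : ℝ) (kp : Set (I3 × I3)) (D : Rn 3 → Rn 3 →L[ℝ] Rn 3) (e : Rn 3 × Rn 3) : ℝ≥0∞ :=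
  ∫⁻ t in Icc (0 : ℝ) 1,
    (C.Wt C1 kp (seg e.1 e.2 t) * (2 * ‖e.2 - e.1‖ₑ * ‖D (seg e.1 e.2 t)‖ₑ)) ^ p

/-- Weighted sum over the fine edges off the chords. -/
def SumE (p : ℝ) (kp : Set (I3 × I3)) (E : Rn 3 × Rn 3 → ℝ≥0∞) : ℝ≥0∞ :=
  ∑' e : C.Ed kp, C.ωe p * E e

/-- Error on the chord in direction `j`. -/
def ce (p : ℝ) (G : Rn 3 → Rn 3) (u : I3 × I3) (j : Fin 3) : ℝ≥0∞ :=
  ∫⁻ t in Icc (-C.ρ) C.ρ, ‖deriv (fun t => G ((C.pc u 0).pt j t)) t - C.Ah (Pi.single j 1)‖ₑ ^ p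

/-- Bound for the error on a chord. -/
def cx (p C1 : ℝ) (D : Rn 3 → Rn 3 →L[ℝ] Rn 3) (u : I3 × I3) (j : Fin 3) : ℝ≥0∞ :=
  ENNReal.ofReal (C1 * C.g * C.ρ * ‖C.Ah (Pi.single j 1)‖ ^ p + C.cg * C.l) +
    ENNReal.ofReal C.cg * ∫⁻ t in Icc (-C.ρ) C.ρ,
      ‖C.L (D ((C.pc u 0).pt j t) (Pi.single j 1)) - C.Ah (Pi.single j 1)‖ₑ ^ p

/-- Weighted sum over the chords. -/
def SumC (kp : Set (I3 × I3)) (E : I3 × I3 → Fin 3 → ℝ≥0∞) : ℝ≥0∞ :=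
  ∑' u : kp, ∑ j ∈ Finset.univ.filter (fun j => C.I = {j}),
    ENNReal.ofReal ((C.b * C.h) ^ 2) * E u j

/-- The small remainder. -/
def rem (p : ℝ) : ℝ≥0∞ := (1 + ‖C.A‖ₑ ^ p) * ENNReal.ofReal (C.g * C.η ^ 3)

def aff0 (f : Rn 3 → Rn 3) (u : I3 × I3) (x : Rn 3) : Rn 3 := f (C.ctr u) + C.A (x - C.ctr u)

/-- Good tiles. -/
structure Gd {Ω : Set (Rn 3)} (K : Kx Ω) (f : Rn 3 → Rn 3) (u : I3 × I3) : Prop where
  adm : u ∈ C.Adm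
  ne : C.A ≠ 0
  cl : ∀ x ∈ K.sk 2 ∩ C.Q u (C.t0 / 2 + if C.I.card = 3 then 0 else 3 * C.ρ'),
    ‖f x - C.aff0 f u x‖ ≤ C.lam * max C.t0 ‖x - C.ctr u‖
  vr : 2 ≤ C.I.card → ∀ a b, K.Edge a b → a ∈ C.Q u (C.t0 / 2) → b ∈ C.Q u (C.t0 / 2) →
    vr (fun x => f x - C.aff0 f u x) a b ≤ ENNReal.ofReal (C.lam * C.s)

/-- The private set of a tile in the target. -/
def Zt (f : Rn 3 → Rn 3) (u : I3 × I3) (m : ℝ) : Set (Rn 3) :=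
  {y | ∃ x ∈ C.Q u (C.ρx + C.κ * C.s / 2), ‖y - C.aff0 f u x‖ ≤ m * (C.σ * C.κ * C.s / 8)}

/-- What the energy estimate uses of the maps `G` (on the skeleton) and `G'`. -/
structure EIn (p : ℝ) (Cc : ℝ≥0∞) (aK : ℝ) {Ω : Set (Rn 3)} (K : Kx Ω) (ch : Set (Rn 3) → Ch)
    (kp : Set (I3 × I3)) (G G' : Rn 3 → Rn 3) (ε : Set (Rn 3) → ℝ≥0∞) : Prop where
  adm : kp ⊆ C.Adm
  ne : kp.Nonempty → C.A ≠ 0
  lG : LTP Ω G
  lG' : LTP Ω G'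
  sk : EqOn G' G (K.sk 2)
  sol : ∀ u ∈ kp, EqOn G' G (C.Q u C.ρx)
  cav : ∀ σ ∈ K.cel 3, σ ⊆ C.q → (∀ u ∈ kp, ¬ σ ⊆ C.Q u C.ρx) →
    ∫⁻ ξ in C.cN σ ⁻¹' σ, ‖fderiv ℝ (G' ∘ C.cN σ) ξ‖ₑ ^ p ≤
      Cc * ENNReal.ofReal (C.ca aK σ ^ 16 * C.cl σ) * (∑' F : K.fc σ, (ch F).E p G) + ε σ
  rig : 2 ≤ C.I.card → ∀ u ∈ kp, (∃ y, EqOn G (C.pc u y).aff (C.Q u (C.ρ - C.l))) ∧
    ∀ x ∈ C.Q u C.ρx, ∀ x' ∈ C.Q u C.ρx, ‖G x - G x'‖ ≤ C.cg * ‖x - x'‖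

/-- Error on a cell in the directions of `I`, in lattice coordinates. -/
def shp (p : ℝ) (G : Rn 3 → Rn 3) (z : I3) : ℝ≥0∞ :=
  ∫⁻ ξ in cu z, ‖fderiv ℝ (G ∘ C.X ∘ pjz C.Iᶜ z) ξ - C.h • (C.L.comp C.A).comp (prL C.I)‖ₑ ^ p

/-- Selection of the good tiles. -/
def SelP (p : ℝ) (Cs : ℝ≥0∞) {Ω : Set (Rn 3)} (K : Kx Ω) : Prop :=
  ∃ ν : Measure (Rn 3), ν C.qᶜ = 0 ∧ ν univ ≤ Cs * ENNReal.ofReal (C.η ^ 3) ∧
    ∀ (f : Rn 3 → Rn 3) (D : Rn 3 → Rn 3 →L[ℝ] Rn 3) (v : Rn 3 → ℝ≥0∞), ContinuousOn f C.q →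
      Measurable D → Measurable v → USeg C.q f D v → ∫⁻ y, v y ∂ν ≠ ⊤ →
      ∃ kp, (∀ u ∈ kp, C.Gd K f u) ∧ (C.A ≠ 0 → C.unk kp ≤ ∫⁻ y, ‖D y - C.A‖ₑ ^ p ∂ν)

/-- `X` is bounded by an integral of the error and by small terms. -/
def XBd (p C1 : ℝ) (C0 Cx : ℝ≥0∞)
    (X : Set (I3 × I3) → (Rn 3 → Rn 3 →L[ℝ] Rn 3) → ℝ≥0∞) : Prop :=
  ∃ μ : Measure (Rn 3), μ C.qᶜ = 0 ∧ μ univ ≤ Cx * ENNReal.ofReal (C.η ^ 3) ∧
    ∀ kp ⊆ C.Adm, (kp.Nonempty → C.A ≠ 0) → ∀ D, Measurable D →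
      X kp D ≤ (∫⁻ y, ‖D y - C.A‖ₑ ^ p ∂μ) + C0 * (ENNReal.ofReal C1 ^ 3 * C.rem p +
        ENNReal.ofReal C.cf ^ 3 * ‖C.A‖ₑ ^ p * C.unk kp)

/-- Total bound for the energy on the skeleton in the cube. -/
def XT (p C1 aK : ℝ) {Ω : Set (Rn 3)} (K : Kx Ω) (ch : Set (Rn 3) → Ch) (w : Set (Rn 3) → ℝ)
    (kp : Set (I3 × I3)) (D : Rn 3 → Rn 3 →L[ℝ] Rn 3) : ℝ≥0∞ :=
  C.SumF aK K kp (C.S0 K) (fun F => C.XF p C1 kp D (ch F) (w F) F) +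
    C.SumE p kp (C.XE p C1 kp D) + C.SumC kp (C.cx p C1 D)

/-- Total energy on the skeleton in the cube. -/
def ET (p aK : ℝ) {Ω : Set (Rn 3)} (K : Kx Ω) (ch : Set (Rn 3) → Ch) (kp : Set (I3 × I3))
    (G : Rn 3 → Rn 3) : ℝ≥0∞ :=
  C.SumF aK K kp (C.S0 K) (fun F => (ch F).E p G) + C.SumE p kp (edE p G) + C.SumC kp (C.ce p G)

end Cu

/-- The complex is adapted to all the cubes. -/
structure GFit {ι : Type} (C : ι → Cu) (P : Pr) (aK : ℝ) {Ω : Set (Rn 3)} (K : Kx Ω)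
    (ch : Set (Rn 3) → Ch) (w lam : Set (Rn 3) → ℝ) : Prop where
  opn : IsOpen Ω
  par : ∀ q, (C q).toPr = P
  ok : ∀ q, (C q).Ok aK
  far : ∀ q q', q ≠ q' → Disjoint (ball (C q).o (C q).η) (C q').q
  fit : ∀ q, (C q).Fit aK K ch w
  face : ∀ F ∈ K.cel 2, (ch F).Of F ∧ (ch F).Shp (w F)
  out : ∀ σ ∈ K.cel 3, (∀ q, ¬ σ ⊆ (C q).q) → 0 < lam σ ∧ Cbe σ 1 (lam σ) ∧
    ∀ F ∈ K.fc σ, (ch F).Bi idE 1

/-- Weighted sum over the faces of the outer cells. -/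
def SumO {ι : Type} (C : ι → Cu) {Ω : Set (Rn 3)} (K : Kx Ω) (lam : Set (Rn 3) → ℝ)
    (E : Set (Rn 3) → ℝ≥0∞) : ℝ≥0∞ :=
  ∑' σ : {σ // σ ∈ K.cel 3 ∧ ∀ q, ¬ σ ⊆ (C q).q}, ∑' F : K.fc σ, ENNReal.ofReal (lam σ) * E F

section
variable {ι : Type} {Ω : Set (Rn 3)}

/-- The map is open at a definite scale on the cubes. -/
structure MuIn (C : ι → Cu) (Ω : Set (Rn 3)) (f : Rn 3 → Rn 3) (θ : Rn 3 → ℝ) (μ0 θ0 : ℝ) :
    Prop where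
  cont : ContinuousOn f Ω
  inj : InjOn f Ω
  m1 : ∀ q, ∀ x ∈ (C q).q, ball (f x) μ0 ⊆ f '' (ball x (C q).ρ' ∩ Ω) ∧
    ∀ y ∈ ball (f x) μ0, θ0 ≤ θ y
  m2 : ∀ q, (1 + ‖(C q).A‖) * (C q).t0 < μ0 ∧ (C q).t0 ≤ θ0

/-- The private sets. -/
structure SepOut (C : ι → Cu) (Ω : Set (Rn 3)) (f : Rn 3 → Rn 3) (θ : Rn 3 → ℝ) (θ0 : ℝ)
    (kp : ι → Set (I3 × I3)) : Prop where
  z1 : ∀ q, ∀ u ∈ kp q, ∀ y ∈ (C q).Zt f u 1, y ∈ f '' Ω ∧ θ0 ≤ θ y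
  z2 : ∀ q, ∀ u ∈ kp q, ∀ q', ∀ u' ∈ kp q', (q, u) ≠ (q', u') →
    Disjoint ((C q).Zt f u 1) ((C q').Zt f u' 1)
  z3 : ∀ q, ∀ u ∈ kp q, ∀ x ∈ Ω, f x ∈ (C q).Zt f u 1 → ‖x - (C q).ctr u‖ < (C q).ρ' ∧
    ((∀ i, i ∉ (C q).I → x i = (C q).ctr u i) → x ∈ (C q).Q u ((C q).t0 / 2))

/-- Index type of the pieces. -/
abbrev Pcs (kp : ι → Set (I3 × I3)) : Type := {b : ι × I3 × I3 // b.2 ∈ kp b.1}

def pcs (C : ι → Cu) (kp : ι → Set (I3 × I3)) (y : Pcs kp → Rn 3) (b : Pcs kp) : Pc :=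
  (C b.1.1).pc b.1.2 (y b)

/-- The correction of the target and the pieces. -/
structure PrepOut (C : ι → Cu) (K : Kx Ω) (f : Rn 3 → Rn 3) (θ : Rn 3 → ℝ)
    (Cf : (Rn 3 ≃L[ℝ] Rn 3) → ℝ) (kp : ι → Set (I3 × I3)) (Ξ : Rn 3 → Rn 3)
    (y : Pcs kp → Rn 3) : Prop where
  inj : Injective Ξ
  lip : ∀ z z', ‖Ξ z - Ξ z'‖ ≤ 2 * ‖z - z'‖
  img : Ξ '' (f '' Ω) = f '' Ω
  mv : ∀ z ∈ f '' Ω, ‖Ξ z - z‖ ≤ θ z
  pc : PcIn (f '' Ω) θ Cf (pcs C kp y)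
  box : ∀ b, 2 ≤ (C b.1.1).I.card → BoxIn K (Ξ ∘ f) (pcs C kp y b) (C b.1.1).s (C b.1.1).r
    (C b.1.1).σ ((C b.1.1).g * (C b.1.1).l / (C b.1.1).cf)
  chd : ∀ b, (C b.1.1).I.card = 1 → ∃ k, ∀ x ∈ (C b.1.1).Q b.1.2 (C b.1.1).ρx,
    Ξ (f x) = (C b.1.1).L (f x) + k ∧
      ‖Ξ (f x) - (pcs C kp y b).aff x‖ ≤ (C b.1.1).g * (C b.1.1).l / (C b.1.1).cf / 2
  zone : ∀ b, ∀ x ∈ K.sk 2, (pcs C kp y b).Nr ((C b.1.1).cf * (C b.1.1).l) (Ξ (f x)) →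
    x ∈ (C b.1.1).zone b.1.2

/-- Regularity of the map on the skeleton. -/
structure RegIn (p : ℝ) (C : ι → Cu) (K : Kx Ω) (ch : Set (Rn 3) → Ch) (f : Rn 3 → Rn 3)
    (D : Rn 3 → Rn 3 →L[ℝ] Rn 3) (v : Rn 3 → ℝ≥0∞) : Prop where
  mD : Measurable D
  mv : Measurable v
  gs : GSeg Ω f (fun x => 2 * ‖D x‖ₑ) v
  us : ∀ q, USeg (C q).q f D v
  ff : ∀ F ∈ K.cel 2, ∫⁻ ξ in (ch F).U, (v ((ch F).φ ξ) + ‖D ((ch F).φ ξ)‖ₑ ^ p) ≠ ⊤ ∧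
    ∫⁻ ξ in frontier (ch F).U, (v ((ch F).φ ξ) + ‖D ((ch F).φ ξ)‖ₑ ^ p) ∂μH[1] ≠ ⊤
  fe : ∀ q, ∀ e ∈ (C q).Ed0, ∫⁻ t in Icc (0 : ℝ) 1, v (seg e.1 e.2 t) ≠ ⊤
  fc : ∀ q j, (C q).I = {j} → ∀ u ∈ (C q).Adm, ∀ a b, a = ((C q).pc u 0).pt j (-(C q).ρ) →
    b = ((C q).pc u 0).pt j (C q).ρ →
    ∫⁻ t in Icc (0 : ℝ) 1, (v (seg a b t) + ‖D (seg a b t)‖ₑ ^ p) ≠ ⊤

open Classical in
/-- Weight of a face. -/
def omF (C : ι → Cu) (aK : ℝ) (K : Kx Ω) (lam : Set (Rn 3) → ℝ) (F : Set (Rn 3)) : ℝ≥0∞ :=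
  ∑' σ : {σ // σ ∈ K.cel 3 ∧ F ⊆ closure σ},
    if h : ∃ q, σ.1 ⊆ (C q).q then (C h.choose).wgt aK σ F else ENNReal.ofReal (lam σ)

/-- Bound for the energy of an outer face. -/
def XO (p C1 : ℝ) (D : Rn 3 → Rn 3 →L[ℝ] Rn 3) (k : Ch) : ℝ≥0∞ :=
  ∫⁻ ξ in k.U, (ENNReal.ofReal C1 * (4 * ‖D (k.φ ξ)‖ₑ)) ^ p

/-- The data on the skeleton come from the cubes. -/
structure SDok (p C1 : ℝ) (C : ι → Cu) (P : Pr) (aK : ℝ) (K : Kx Ω) (ch : Set (Rn 3) → Ch)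
    (w lam : Set (Rn 3) → ℝ) (f' : Rn 3 → Rn 3) (D : Rn 3 → Rn 3 →L[ℝ] Rn 3) (θ : Rn 3 → ℝ)
    (kp : ι → Set (I3 × I3)) (y : Pcs kp → Rn 3) (d : SD (Pcs kp)) : Prop where
  eP : d.P = pcs C kp y
  ech : d.ch = ch
  eθ : d.θ = θ
  eω : d.ω = omF C aK K lam
  eEd : ∀ e, e ∈ d.Ed ↔ ∃ q, e ∈ (C q).Ed (kp q)
  eωe : ∀ e, d.ωe e = P.ωe p
  eD : ∀ q, ∀ x ∈ ball (C q).o (C q).η, d.D x = (C q).L.comp (D x)
  rig : ∀ q, ∀ F ∈ K.cel 2, F ⊆ (C q).q → (d.Rig F ↔ (C q).Rig (kp q) F)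
  rigo : ∀ σ ∈ K.cel 3, (∀ q, ¬ σ ⊆ (C q).q) → ∀ F ∈ K.fc σ, ¬ d.Rig F
  xf : ∀ q, ∀ F ∈ K.cel 2, F ⊆ (C q).q → d.X p f' F ≤ (C q).XF p C1 (kp q) D (ch F) (w F) F
  xo : ∀ σ ∈ K.cel 3, (∀ q, ¬ σ ⊆ (C q).q) → ∀ F ∈ K.fc σ, d.X p f' F ≤ XO p C1 D (ch F)
  xe : ∀ q, ∀ e ∈ (C q).Ed (kp q),
    ∫⁻ t in Icc (0 : ℝ) 1, (d.wt (f' (seg e.1 e.2 t)) * d.γe e t) ^ p ≤ (C q).XE p C1 (kp q) D e

/-- The theorem on the skeleton with fixed constants. -/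
def SurfC (p C1 g : ℝ) (Cf Cg : (Rn 3 ≃L[ℝ] Rn 3) → ℝ) : Prop :=
  ∀ (Ω : Set (Rn 3)) (K : Kx Ω) (f : Rn 3 → Rn 3) (ι : Type) [Finite ι] (d : SD ι) (e : ℝ≥0∞),
    e ≠ 0 → SIn p C1 g Cf K f d → ∃ G, SOut p C1 g Cg K f d e G

/-- The constants of the cubes are those of the theorem on the skeleton. -/
def CstOk (C : ι → Cu) (C1 : ℝ) (Cf Cg : (Rn 3 ≃L[ℝ] Rn 3) → ℝ) : Prop :=
  1 ≤ C1 ∧ ∀ q, (C q).cf = Cf (C q).Ah ∧ (C q).cg = Cg (C q).Ah ∧ C1 ≤ (C q).cf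

/-- Output of the deterministic part. -/
structure DetOut [Fintype ι] (p : ℝ) (C : ι → Cu) (K : Kx Ω) (f : Rn 3 → Rn 3) (θ : Rn 3 → ℝ)
    (e : ℝ≥0∞) (G : Rn 3 → Rn 3) : Prop where
  ltp : LTP Ω G
  inj : InjOn G Ω
  sup : ∀ σ ∈ K.cel 3, ∀ y R, (∀ x ∈ closure σ, ‖f x - y‖ + 17 * θ (f x) ≤ R) →
    ∀ x ∈ closure σ, ‖G x - y‖ ≤ R
  en : (∑ q, ∫⁻ x in (C q).q, ‖fderiv ℝ (G ∘ (C q).St) x - (C q).A‖ₑ ^ p) +
    ∫⁻ x in Ω \ ⋃ q, (C q).q, ‖fderiv ℝ G x‖ₑ ^ p ≤ e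

end

end BEp
end
end

-- merged part: Pool.Agent.Work.MP_f0515e_an.P3.KLat
section
/-! Lattice complexes. Plan: `exists_dy` from the lemmas `kbC_*` of D3/KBase; `Kx.exists_aff`
(image of a complex under an affine equivalence) transports it, `lc N o h` is the image of `kbC 0`
under `o + h N`. A cell of `kbC 0` is a product of integers and open unit intervals, its dimension
is the number of intervals. -/

open Set Metric Filter Topology Function BEv MeasureTheory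
open scoped NNReal ENNReal

noncomputable section
namespace BEp

/-- The affine map of a lattice as a homeomorphism. -/
def KLat_H (N : Rn 3 ≃L[ℝ] Rn 3) (o : Rn 3) {h : ℝ} (hh : 0 < h) : Rn 3 ≃ₜ Rn 3 where
  toFun y := o + h • N y
  invFun x := h⁻¹ • N.symm (x - o)
  left_inv y := by simp [hh.ne']
  right_inv x := by simp [hh.ne']
  continuous_toFun := by fun_prop
  continuous_invFun := by fun_prop

theorem KLat_tp (N : Rn 3 ≃L[ℝ] Rn 3) (o : Rn 3) (h : ℝ) : TP fun y => o + h • N y :=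
  (TP.const o).add ((TP.clm (N : Rn 3 →L[ℝ] Rn 3)).const_smul h)

theorem exists_dy (n : ℕ) : ∃ K : Kx univ, ∀ x, K.cell x = kbC n x := by
  refine ⟨⟨kbC n, fun _ _ => kbC_self, fun _ _ _ hy => kbC_eq hy, fun _ _ => subset_univ _,
    fun _ _ => kbC_convex, fun _ _ _ hy _ hz => kbC_opn hy hz, fun _ _ => kbC_closure ▸ kbB_poly,
    fun x _ y hy => ?_, fun C hC _ => kbC_finite n hC⟩, fun _ => rfl⟩
  rw [kbC_closure] at hy ⊢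
  exact kbC_sub hy

theorem Kx.exists_aff (K : Kx univ) (N : Rn 3 ≃L[ℝ] Rn 3) (o : Rn 3) {h : ℝ} (hh : 0 < h) :
    ∃ K' : Kx univ, ∀ x, K'.cell x = (fun y => o + h • N y) '' K.cell (h⁻¹ • N.symm (x - o)) := by
  let H := KLat_H N o hh
  refine ⟨⟨fun x => H '' K.cell (H.symm x), fun x _ => ⟨_, K.mem _ trivial, H.apply_symm_apply x⟩,
    ?_, fun _ _ => subset_univ _, ?_, ?_, fun x _ => ?_, fun x _ y hy => ?_, fun C hC _ => ?_⟩,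
    fun _ => rfl⟩
  · rintro x - _ ⟨y, hy, rfl⟩
    rw [H.symm_apply_apply, K.eqv _ trivial y hy]
  · rintro x - _ ⟨y, hy, rfl⟩ _ ⟨z, hz, rfl⟩ a b ha hb hab
    refine ⟨_, K.cvx _ trivial hy hz ha hb hab, ?_⟩
    change o + h • N (a • y + b • z) = a • (o + h • N y) + b • (o + h • N z)
    obtain rfl : b = 1 - a := by linarith
    rw [map_add, map_smul, map_smul]
    module
  · rintro x - _ ⟨y, hy, rfl⟩ _ ⟨z, hz, rfl⟩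
    obtain ⟨e, he, k⟩ := K.opn _ trivial y hy z hz
    refine ⟨e, he, _, k, ?_⟩
    change o + h • N (y + e • (y - z)) = o + h • N y + e • (o + h • N y - (o + h • N z))
    rw [map_add, map_smul, map_sub]
    module
  · rw [← H.image_closure]
    exact (K.poly _ trivial).image (KLat_tp N o h)
  · rw [← H.image_closure] at hy ⊢
    obtain ⟨y, hy, rfl⟩ := hy
    rw [H.symm_apply_apply]
    exact image_mono (K.fr _ trivial y hy)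
  · refine ((K.lf _ (hC.image H.symm.continuous) (subset_univ _)).image (image H)).subset ?_
    rintro _ ⟨x, hx, rfl⟩
    exact ⟨_, ⟨_, ⟨x, hx, rfl⟩, rfl⟩, rfl⟩

theorem lc_eq (N : Rn 3 ≃L[ℝ] Rn 3) (o : Rn 3) {h : ℝ} (hh : 0 < h) (x : Rn 3) :
    lc N o h x = (fun y => o + h • N y) '' kbC 0 (h⁻¹ • N.symm (x - o)) := by
  have e : ∀ y, y ∈ lc N o h x ↔ (KLat_H N o hh).symm y ∈ kbC 0 (h⁻¹ • N.symm (x - o)) :=
    fun y => by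
      simp only [kbC, pow_zero, one_mul]
      rfl
  ext y
  rw [e]
  refine ⟨fun k => ⟨_, k, (KLat_H N o hh).apply_symm_apply y⟩, ?_⟩
  rintro ⟨y, hy, rfl⟩
  exact ((KLat_H N o hh).symm_apply_apply y).symm ▸ hy

theorem exists_lat (N : Rn 3 ≃L[ℝ] Rn 3) (o : Rn 3) {h : ℝ} (hh : 0 < h) :
    ∃ K : Kx univ, ∀ x, K.cell x = lc N o h x := by
  obtain ⟨K, hK⟩ := exists_dy 0
  obtain ⟨K', hK'⟩ := K.exists_aff N o hh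
  exact ⟨K', fun x => by rw [hK', hK, lc_eq N o hh]⟩

theorem kbC_lc (n : ℕ) (x : Rn 3) : kbC n x = lc idE 0 (1 / 2 ^ n) x := by
  ext y
  simp [kbC, lc]

theorem Kx.exists_inter {Ω : Set (Rn 3)} (K K' : Kx Ω) :
    ∃ K'' : Kx Ω, ∀ x, K''.cell x = K.cell x ∩ K'.cell x := by
  have cl : ∀ x ∈ Ω, closure (K.cell x ∩ K'.cell x) = closure (K.cell x) ∩ closure (K'.cell x) :=
    fun x hx => by
      refine Subset.antisymm (closure_inter_subset_inter_closure _ _) fun y hy => ?_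
      have c : ContinuousAt (fun t : ℝ => y + t • (x - y)) 0 := by fun_prop
      have t : Tendsto (fun t : ℝ => y + t • (x - y)) (𝓝[>] 0) (𝓝 y) := by
        simpa using c.tendsto.mono_left nhdsWithin_le_nhds
      refine mem_closure_of_tendsto t ?_
      filter_upwards [Ioc_mem_nhdsGT one_pos] with t ht
      exact ⟨Kx.seg_mem (K.cell_mem hx) hy.1 (K.mem x hx) ht,
        Kx.seg_mem (K'.cell_mem hx) hy.2 (K'.mem x hx) ht⟩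
  have sm : ∀ {σ : Set (Rn 3)} {y v : Rn 3} {e e' : ℝ}, Convex ℝ σ → y ∈ σ → y + e • v ∈ σ →
      0 < e' → e' ≤ e → y + e' • v ∈ σ := fun {σ y v e e'} hσ hy k h0 h1 => by
    have he := h0.trans_le h1
    have := hσ.add_smul_mem hy k (t := e' / e) ⟨(div_pos h0 he).le, (div_le_one he).2 h1⟩
    rwa [smul_smul, div_mul_cancel₀ _ he.ne'] at this
  refine ⟨⟨fun x => K.cell x ∩ K'.cell x, fun x hx => ⟨K.mem x hx, K'.mem x hx⟩,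
    fun x hx y hy => ?_, fun x hx => (closure_mono inter_subset_left).trans (K.sub x hx),
    fun x hx => (K.cvx x hx).inter (K'.cvx x hx), fun x hx y hy z hz => ?_, fun x hx => ?_,
    fun x hx y hy => ?_, fun C hC hs => ?_⟩, fun _ => rfl⟩
  · rw [K.eqv x hx y hy.1, K'.eqv x hx y hy.2]
  · obtain ⟨e, he, k⟩ := K.opn x hx y hy.1 z hz.1
    obtain ⟨e', he', k'⟩ := K'.opn x hx y hy.2 z hz.2
    exact ⟨min e e', lt_min he he', sm (K.cvx x hx) hy.1 k (lt_min he he') (min_le_left _ _),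
      sm (K'.cvx x hx) hy.2 k' (lt_min he he') (min_le_right _ _)⟩
  · rw [cl x hx]
    exact (K.poly x hx).inter (K'.poly x hx)
  · rw [cl x hx] at hy ⊢
    exact inter_subset_inter (K.fr x hx y hy.1) (K'.fr x hx y hy.2)
  · refine (((K.lf C hC hs).prod (K'.lf C hC hs)).image fun p => p.1 ∩ p.2).subset ?_
    rintro _ ⟨x, hx, rfl⟩
    exact ⟨(K.cell x, K'.cell x), ⟨⟨x, hx, rfl⟩, x, hx, rfl⟩, rfl⟩

/-- The directions in which the point is not an integer. -/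
def KLat_J (x : Rn 3) : Finset (Fin 3) := Finset.univ.filter fun i => ⌈x i⌉ = ⌊x i⌋ + 1

theorem KLat_mem {x y : Rn 3} : y ∈ kbC 0 x ↔ ∀ i, (i ∈ KLat_J x →
    (⌊x i⌋ : ℝ) < y i ∧ y i < ⌊x i⌋ + 1) ∧ (i ∉ KLat_J x → y i = ⌊x i⌋) := by
  simp only [kbC, pow_zero, one_mul, mem_ofPred_eq, kbS_ineq, KLat_J, Finset.mem_filter,
    Finset.mem_univ, true_and]
  refine forall_congr' fun i => ?_
  by_cases k : ⌈x i⌉ = ⌊x i⌋ + 1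
  · simp only [k, forall_const, not_true_eq_false, IsEmpty.forall_iff, and_true]
    push_cast
    exact ⟨fun h => ⟨by linarith [h.2.1], h.1.2⟩, fun h =>
      ⟨⟨h.1.le, h.2⟩, by linarith [h.1], h.2.le⟩⟩
  · have e : ⌈x i⌉ = ⌊x i⌋ := by
      have h1 := Int.floor_le_ceil (x i)
      have h2 := Int.ceil_le_floor_add_one (x i)
      omega
    simp only [k, IsEmpty.forall_iff, not_false_eq_true, forall_const, true_and]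
    rw [e]
    exact ⟨fun h => le_antisymm h.2.2 h.1.1, fun h =>
      ⟨⟨h.ge, by linarith⟩, by linarith, h.le⟩⟩

theorem KLat_cu {x : Rn 3} (h : KLat_J x = Finset.univ) : kbC 0 x = cu fun i => ⌊x i⌋ := by
  ext y
  simp [KLat_mem, h, cu]

theorem KLat_le (N : Rn 3 ≃L[ℝ] Rn 3) (o : Rn 3) {h : ℝ} (hh : 0 < h) (x : Rn 3) :
    dm (lc N o h x) ≤ (KLat_J (h⁻¹ • N.symm (x - o))).card := by
  rw [lc_eq N o hh]
  generalize h⁻¹ • N.symm (x - o) = u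
  refine (dm_le_of_sub (P := AffineSubspace.mk' (o + h • N u) (Submodule.span ℝ
    (((KLat_J u).image fun i => N (Pi.single i 1) : Finset (Rn 3)) : Set (Rn 3)))) ?_).trans ?_
  · rintro _ ⟨y, hy, rfl⟩
    have e : y - u = ∑ i ∈ KLat_J u, (y i - u i) • (Pi.single i 1 : Rn 3) := by
      ext j
      simp only [Finset.sum_apply, Pi.smul_apply, Pi.single_apply, smul_eq_mul, mul_ite, mul_one,
        mul_zero, Finset.sum_ite_eq, Pi.sub_apply]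
      split_ifs with k
      · rfl
      · rw [(KLat_mem.1 hy j).2 k, (KLat_mem.1 kbC_self j).2 k, Int.floor_intCast, sub_self]
    rw [SetLike.mem_coe, AffineSubspace.mem_mk', vsub_eq_sub, add_sub_add_left_eq_sub, ← smul_sub,
      ← map_sub, e, map_sum]
    refine Submodule.smul_mem _ _ (Submodule.sum_mem _ fun i hi => ?_)
    rw [map_smul]
    exact Submodule.smul_mem _ _ (Submodule.subset_span
      (Finset.mem_coe.2 (Finset.mem_image_of_mem _ hi)))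
  · rw [AffineSubspace.direction_mk']
    exact (finrank_span_finset_le_card _).trans Finset.card_image_le

theorem lc_top {N : Rn 3 ≃L[ℝ] Rn 3} {o x : Rn 3} {h : ℝ} (hh : 0 < h)
    (hd : dm (lc N o h x) = 3) : ∃ z : I3, lc N o h x = (fun ξ => o + h • N ξ) '' cu z := by
  have h1 := KLat_le N o hh x
  rw [hd] at h1
  have h2 : KLat_J (h⁻¹ • N.symm (x - o)) = Finset.univ :=
    Finset.eq_univ_of_card _ (le_antisymm (Finset.card_le_univ _) (by simpa using h1))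
  exact ⟨_, by rw [lc_eq N o hh, KLat_cu h2]⟩

theorem lc_cbe {N : Rn 3 ≃L[ℝ] Rn 3} {o x : Rn 3} {h : ℝ} (hh : 0 < h)
    (hd : dm (lc N o h x) = 3) : Cbe (N ⁻¹' lc N o h x) 1 (h / 2) := by
  obtain ⟨z, hz⟩ := lc_top hh hd
  have h2 := half_pos hh
  have e : N ⁻¹' lc N o h x = ball (N.symm o + h • fun i => (z i : ℝ) + 1 / 2) (h / 2) := by
    rw [hz]
    ext y
    rw [mem_ball, dist_pi_lt_iff h2]
    simp only [Real.dist_eq, abs_lt, Pi.add_apply, Pi.smul_apply, smul_eq_mul]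
    constructor
    · rintro ⟨ξ, hξ, k⟩ i
      have k' : y = N.symm o + h • ξ := by
        rw [← N.symm_apply_apply y, ← k]
        simp
      rw [k']
      simp only [Pi.add_apply, Pi.smul_apply, smul_eq_mul]
      constructor <;> nlinarith [(hξ i).1, (hξ i).2]
    · refine fun k => ⟨h⁻¹ • (y - N.symm o), fun i => ?_, by simp [hh.ne']⟩
      simp only [Pi.smul_apply, Pi.sub_apply, smul_eq_mul]
      rw [lt_inv_mul_iff₀ hh, inv_mul_lt_iff₀ hh]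
      constructor <;> linarith [(k i).1, (k i).2]
  rw [e]
  generalize (N.symm o + h • fun i => (z i : ℝ) + 1 / 2) = c
  refine ⟨fun ξ => c + (h / 2) • ξ, lh_hom c h2.ne', ?_, ?_, fun a _ b _ => ?_⟩
  · rw [closure_ball _ h2.ne', ← affinity_unitClosedBall h2.le c, ← image_smul, ← image_vadd,
      image_image]
    rfl
  · rw [← affinity_unitBall h2 c, ← image_smul, ← image_vadd, image_image]
    rfl
  · rw [add_sub_add_left_eq_sub, ← smul_sub, norm_smul, Real.norm_of_nonneg h2.le, one_mul, one_mul]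
    exact ⟨le_rfl, le_rfl⟩

theorem lc_face {N : Rn 3 ≃L[ℝ] Rn 3} {o x : Rn 3} {h : ℝ} (hh : 0 < h)
    (hd : dm (lc N o h x) = 2) : ∃ k : Ch, k.Of (lc N o h x) ∧ k.U = sqr h ∧ k.Bi N 1 ∧
      ∃ i j : Fin 3, i ≠ j ∧ ∀ ξ, N.symm (k.M ξ) =
        ξ 0 • (Pi.single i 1 : Rn 3) + ξ 1 • (Pi.single j 1 : Rn 3) := by
  have h1 := KLat_le N o hh x
  rw [hd] at h1
  have h3 : KLat_J (h⁻¹ • N.symm (x - o)) ≠ Finset.univ := fun k => by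
    obtain ⟨K, hK⟩ := exists_lat N o hh
    have op : IsOpen (K.cell x) := by
      rw [hK, lc_eq N o hh, KLat_cu k]
      refine (KLat_H N o hh).isOpenMap _ ?_
      simp only [cu, ofPred_forall, ofPred_and]
      exact isOpen_iInter_of_finite fun l => (isOpen_lt (by fun_prop) (by fun_prop)).inter
        (isOpen_lt (by fun_prop) (by fun_prop))
    have := (Kx.dm_three (K.cell_mem (mem_univ x))).2 op
    rw [hK, hd] at this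
    omega
  have h4 := Finset.card_lt_card (Finset.ssubset_univ_iff.2 h3)
  rw [Finset.card_univ, Fintype.card_fin] at h4
  obtain ⟨i, j, ij, hJ⟩ := Finset.card_eq_two.1 (le_antisymm (Nat.le_of_lt_succ h4) h1)
  rw [lc_eq N o hh]
  generalize h⁻¹ • N.symm (x - o) = u at hJ
  let E : Rn 2 →L[ℝ] Rn 3 :=
    (ContinuousLinearMap.proj 0 : Rn 2 →L[ℝ] ℝ).smulRight (Pi.single i 1 : Rn 3) +
      (ContinuousLinearMap.proj 1 : Rn 2 →L[ℝ] ℝ).smulRight (Pi.single j 1 : Rn 3)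
  have e : ∀ ξ, E ξ = ξ 0 • (Pi.single i 1 : Rn 3) + ξ 1 • (Pi.single j 1 : Rn 3) := fun _ => rfl
  have ei : ∀ ξ, E ξ i = ξ 0 := fun ξ => by simp [e, ij]
  have ej : ∀ ξ, E ξ j = ξ 1 := fun ξ => by simp [e, ij.symm]
  have el : ∀ ξ l, l ≠ i → l ≠ j → E ξ l = 0 := fun ξ l a b => by simp [e, a, b]
  have hm : ∀ y, y ∈ kbC 0 u ↔ ((⌊u i⌋ : ℝ) < y i ∧ y i < ⌊u i⌋ + 1) ∧
      ((⌊u j⌋ : ℝ) < y j ∧ y j < ⌊u j⌋ + 1) ∧ ∀ l, l ≠ i → l ≠ j → y l = ⌊u l⌋ := fun y => by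
    rw [KLat_mem, hJ]
    simp only [Finset.mem_insert, Finset.mem_singleton, not_or]
    refine ⟨fun k => ⟨(k i).1 (.inl rfl), (k j).1 (.inr rfl), fun l a b => (k l).2 ⟨a, b⟩⟩,
      fun k l => ⟨?_, fun a => k.2.2 l a.1 a.2⟩⟩
    rintro (rfl | rfl)
    exacts [k.1, k.2.1]
  refine ⟨⟨o + h • N fun l => (⌊u l⌋ : ℝ), (N : Rn 3 →L[ℝ] Rn 3).comp E, sqr h⟩,
    ⟨fun a b k => ?_, ?_, ?_⟩, rfl, fun ξ => ?_, i, j, ij, fun ξ => N.symm_apply_apply _⟩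
  · have k' : E a = E b := N.injective k
    exact funext (Fin.forall_fin_two.2 ⟨by rw [← ei a, ← ei b, k'], by rw [← ej a, ← ej b, k']⟩)
  · simp only [sqr, ofPred_forall, ofPred_and]
    exact isOpen_iInter_of_finite fun l => (isOpen_lt (by fun_prop) (by fun_prop)).inter
      (isOpen_lt (by fun_prop) (by fun_prop))
  · have ph : ∀ ξ, (o + h • N fun l => (⌊u l⌋ : ℝ)) + N (E ξ) =
        o + h • N ((fun l => (⌊u l⌋ : ℝ)) + h⁻¹ • E ξ) := fun ξ => by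
      rw [map_add, map_smul, smul_add, smul_inv_smul₀ hh.ne', add_assoc]
    refine Subset.antisymm ?_ ?_
    · rintro _ ⟨ξ, hξ, rfl⟩
      refine ⟨_, (hm _).2 ?_, (ph ξ).symm⟩
      have a0 := mul_pos (inv_pos.2 hh) (hξ 0).1
      have a1 := mul_pos (inv_pos.2 hh) (hξ 1).1
      have b0 := (inv_mul_lt_one₀ hh).2 (hξ 0).2
      have b1 := (inv_mul_lt_one₀ hh).2 (hξ 1).2
      simp only [Pi.add_apply, Pi.smul_apply, smul_eq_mul, ei, ej]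
      exact ⟨⟨by linarith, by linarith⟩, ⟨by linarith, by linarith⟩, fun l a b => by
        rw [el ξ l a b, mul_zero, add_zero]⟩
    · rintro _ ⟨y, hy, rfl⟩
      obtain ⟨a, b, c⟩ := (hm y).1 hy
      refine ⟨![h * (y i - ⌊u i⌋), h * (y j - ⌊u j⌋)], Fin.forall_fin_two.2 ⟨?_, ?_⟩,
        (ph _).trans ?_⟩
      · change 0 < h * (y i - ⌊u i⌋) ∧ h * (y i - ⌊u i⌋) < h
        constructor <;> nlinarith [a.1, a.2]
      · change 0 < h * (y j - ⌊u j⌋) ∧ h * (y j - ⌊u j⌋) < h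
        constructor <;> nlinarith [b.1, b.2]
      · refine congrArg (fun v => o + h • N v) (funext fun l => ?_)
        simp only [Pi.add_apply, Pi.smul_apply, smul_eq_mul]
        by_cases li : l = i
        · rw [li, ei]
          simp [hh.ne']
        by_cases lj : l = j
        · rw [lj, ej]
          simp [hh.ne']
        rw [el _ l li lj, mul_zero, add_zero, c l li lj]
  · change ‖N.symm (N (E ξ))‖ ≤ 1 * ‖ξ‖ ∧ ‖ξ‖ ≤ 1 * ‖N.symm (N (E ξ))‖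
    rw [N.symm_apply_apply, one_mul, one_mul]
    refine ⟨(pi_norm_le_iff_of_nonneg (norm_nonneg _)).2 fun l => ?_,
      (pi_norm_le_iff_of_nonneg (norm_nonneg _)).2 (Fin.forall_fin_two.2
        ⟨ei ξ ▸ norm_le_pi_norm _ i, ej ξ ▸ norm_le_pi_norm _ j⟩)⟩
    by_cases li : l = i
    · rw [li, ei]
      exact norm_le_pi_norm _ _
    by_cases lj : l = j
    · rw [lj, ej]
      exact norm_le_pi_norm _ _
    rw [el _ l li lj, norm_zero]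
    exact norm_nonneg _

theorem Cbe.mono {σ : Set (Rn 3)} {a a' l l' c : ℝ} (h : Cbe σ a l) (hl : 0 ≤ l) (hl' : 0 ≤ l')
    (ha : 0 ≤ a) (hc : 0 ≤ c) (h1 : l ≤ c * l') (h2 : l' ≤ c * l) (h3 : a * c ≤ a') :
    Cbe σ a' l' := by
  obtain ⟨Φ, k1, k2, k3, k4⟩ := h
  refine ⟨Φ, k1, k2, k3, fun x hx y hy => ?_⟩
  obtain ⟨u, v⟩ := k4 x hx y hy
  have n1 := norm_nonneg (x - y)
  have n2 := norm_nonneg (Φ x - Φ y)
  refine ⟨u.trans (mul_le_mul_of_nonneg_right ?_ n1), ?_⟩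
  · calc a * l ≤ a * (c * l') := mul_le_mul_of_nonneg_left h1 ha
      _ = a * c * l' := by ring
      _ ≤ a' * l' := mul_le_mul_of_nonneg_right h3 hl'
  · calc l' * ‖x - y‖ ≤ c * l * ‖x - y‖ := mul_le_mul_of_nonneg_right h2 n1
      _ = c * (l * ‖x - y‖) := by ring
      _ ≤ c * (a * ‖Φ x - Φ y‖) := mul_le_mul_of_nonneg_left v hc
      _ = a * c * ‖Φ x - Φ y‖ := by ring
      _ ≤ a' * ‖Φ x - Φ y‖ := mul_le_mul_of_nonneg_right h3 n2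

theorem Cbe.lin {σ : Set (Rn 3)} {a l c : ℝ} {N : Rn 3 ≃L[ℝ] Rn 3} (h : Cbe (N ⁻¹' σ) a l)
    (hl : 0 ≤ l) (ha : 0 ≤ a) (h1 : ∀ z, ‖N z‖ ≤ c * ‖z‖) (h2 : ∀ z, ‖N.symm z‖ ≤ c * ‖z‖) :
    Cbe σ (a * c) l := by
  obtain ⟨Φ, k1, k2, k3, k4⟩ := h
  have hc : 0 ≤ c := by
    have := (norm_nonneg _).trans (h1 1)
    rwa [norm_one, mul_one] at this
  have lN : LH N := pa2_of_inv (TP.clm (N : Rn 3 →L[ℝ] Rn 3)) (TP.clm (N.symm : Rn 3 →L[ℝ] Rn 3))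
    N.symm_apply_apply N.apply_symm_apply
  refine ⟨N ∘ Φ, lN.comp k1, ?_, ?_, fun x hx y hy => ?_⟩
  · rw [image_comp, k2]
    refine (N.toHomeomorph.image_closure _).trans (congrArg closure ?_)
    exact image_preimage_eq σ N.surjective
  · rw [image_comp, k3, image_preimage_eq σ N.surjective]
  · obtain ⟨u, v⟩ := k4 x hx y hy
    have w := h2 (N (Φ x - Φ y))
    rw [N.symm_apply_apply] at w
    rw [comp_apply, comp_apply, ← map_sub]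
    refine ⟨(h1 _).trans ((mul_le_mul_of_nonneg_left u hc).trans (le_of_eq (by ring))),
      v.trans ((mul_le_mul_of_nonneg_left w ha).trans (le_of_eq (by ring)))⟩

theorem Cbe.aff {σ : Set (Rn 3)} {a l : ℝ} (h : Cbe σ a l) (o : Rn 3) {t : ℝ} (ht : 0 < t) :
    Cbe ((fun y => o + t • y) '' σ) a (t * l) := by
  obtain ⟨Φ, k1, k2, k3, k4⟩ := h
  refine ⟨(fun y => o + t • y) ∘ Φ, (lh_hom o ht.ne').comp k1, ?_, ?_, fun x hx y hy => ?_⟩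
  · rw [image_comp, k2]
    exact (KLat_H idE o ht).image_closure σ
  · rw [image_comp, k3]
  · obtain ⟨u, v⟩ := k4 x hx y hy
    rw [comp_apply, comp_apply, add_sub_add_left_eq_sub, ← smul_sub, norm_smul,
      Real.norm_of_nonneg ht.le]
    exact ⟨(mul_le_mul_of_nonneg_left u ht.le).trans (le_of_eq (by ring)),
      (le_of_eq (by ring)).trans ((mul_le_mul_of_nonneg_left v ht.le).trans (le_of_eq (by ring)))⟩

theorem Ch.exists_aff (k : Ch) {F : Set (Rn 3)} {w a : ℝ} (h1 : k.Of F) (h2 : k.Shp w)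
    (h3 : k.Bi idE a) (o : Rn 3) {t : ℝ} (ht : 0 < t) :
    ∃ k' : Ch, k'.Of ((fun y => o + t • y) '' F) ∧ k'.Shp (t * w) ∧ k'.Bi idE a := by
  have hi := inv_pos.2 ht
  refine ⟨⟨o + t • k.o, k.M, {ξ | t⁻¹ • ξ ∈ k.U}⟩, ⟨h1.1, h1.2.1.preimage (by fun_prop), ?_⟩,
    ⟨mul_pos ht h2.1, h2.2.imp (fun e => ?_) fun e => ?_⟩, h3⟩
  · rw [← h1.2.2]
    refine Subset.antisymm ?_ ?_
    · rintro _ ⟨ξ, hξ, rfl⟩
      refine ⟨_, ⟨_, hξ, rfl⟩, ?_⟩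
      simp only [Ch.φ, map_smul, smul_add, smul_inv_smul₀ ht.ne', add_assoc]
    · rintro _ ⟨_, ⟨ξ, hξ, rfl⟩, rfl⟩
      refine ⟨t • ξ, by simpa only [mem_ofPred_eq, inv_smul_smul₀ ht.ne'] using hξ, ?_⟩
      simp only [Ch.φ, map_smul, smul_add, add_assoc]
  · ext ξ
    simp only [e, sqr, mem_ofPred_eq, Pi.smul_apply, smul_eq_mul, inv_mul_lt_iff₀ ht,
      mul_pos_iff_of_pos_left hi]
  · ext ξ
    simp only [e, trg, mem_ofPred_eq, Pi.smul_apply, smul_eq_mul, ← mul_add, inv_mul_lt_iff₀ ht,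
      mul_pos_iff_of_pos_left hi]

end BEp
end
end

-- merged part: Pool.Agent.Work.MP_f0515e_an.P3.KInt
section
/-! Integration over a complex. The skeleta are countable unions of compact sets covered by
finitely many planes (`pc_sk`). -/

open Set Metric Filter Topology Function BEv MeasureTheory
open scoped NNReal ENNReal

noncomputable section
namespace BEp

variable {Ω : Set (Rn 3)}

theorem KInt_null (K : Kx Ω) (hΩ : IsOpen Ω) (d : ℕ) : μH[((d + 1 : ℕ) : ℝ)] (K.sk d) = 0 := by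
  have hc : {σ | σ ∈ K.cells ∧ dm σ ≤ d}.Countable := (K.countable hΩ).mono fun _ h => h.1
  refine measure_mono_null (t := ⋃ σ ∈ {σ | σ ∈ K.cells ∧ dm σ ≤ d}, σ)
    (fun x hx => mem_biUnion (show K.cell x ∈ _ from ⟨K.cell_mem hx.1, hx.2⟩) (K.mem x hx.1))
    ((measure_biUnion_null_iff hc).2 fun σ hσ => ?_)
  refine hausdorffMeasure_of_dimH_lt (d := ((d + 1 : ℕ) : ℝ≥0)) ?_
  rw [Real.Convex.dimH_eq_finrank_vectorSpan (Kx.cells_cvx hσ.1) (Kx.cells_ne hσ.1)]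
  exact_mod_cast Nat.lt_succ_of_le hσ.2

theorem Kx.sk_one_null (K : Kx Ω) (hΩ : IsOpen Ω) : μH[2] (K.sk 1) = 0 := by
  exact_mod_cast KInt_null K hΩ 1

theorem Kx.sk_two_null (K : Kx Ω) (hΩ : IsOpen Ω) : volume (K.sk 2) = 0 := by
  rw [← hausdorffMeasure_pi_real, Fintype.card_fin]
  exact KInt_null K hΩ 2

theorem KInt_sum (K : Kx Ω) (hΩ : IsOpen Ω) {T : Set (Set (Rn 3))} (hT : T ⊆ K.cel 3)
    (φ : Rn 3 → ℝ≥0∞) : ∫⁻ x in ⋃ σ : T, σ.1, φ x = ∑' σ : T, ∫⁻ x in σ, φ x := by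
  have : Countable T := ((K.countable hΩ).mono fun _ h => (hT h).1).to_subtype
  exact lintegral_iUnion
    (fun σ => ((Kx.dm_three (hT σ.2).1).1 (hT σ.2).2).measurableSet)
    (fun σ τ h => Kx.disj (hT σ.2).1 (hT τ.2).1 fun e => h (Subtype.ext e)) φ

theorem Kx.lint_cells (K : Kx Ω) (hΩ : IsOpen Ω) {S : Set (Rn 3)} (hs : S ⊆ Ω)
    (h : ∀ x ∈ S, K.cell x ⊆ S) (φ : Rn 3 → ℝ≥0∞) :
    ∫⁻ x in S, φ x = ∑' σ : {σ // σ ∈ K.cel 3 ∧ σ ⊆ S}, ∫⁻ x in σ, φ x := by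
  refine Eq.trans ?_ (KInt_sum K hΩ (T := {σ | σ ∈ K.cel 3 ∧ σ ⊆ S}) (fun _ k => k.1) φ)
  refine setLIntegral_congr (ae_eq_set.2 ⟨measure_mono_null (fun x hx => ?_) (K.sk_two_null hΩ),
    measure_mono_null (fun x hx => ?_) measure_empty⟩)
  · refine ⟨hs hx.1, not_lt.1 fun k => hx.2 (mem_iUnion.2 ⟨⟨K.cell x,
      ⟨K.cell_mem (hs hx.1), le_antisymm (dm_le _) k⟩, h x hx.1⟩, K.mem x (hs hx.1)⟩)⟩
  · obtain ⟨σ, k⟩ := mem_iUnion.1 hx.1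
    exact hx.2 (σ.2.2 k)

theorem Kx.sum_vol (K : Kx Ω) (hΩ : IsOpen Ω) {T : Set (Set (Rn 3))} (hT : T ⊆ K.cel 3)
    {S : Set (Rn 3)} (h : ∀ σ ∈ T, σ ⊆ S) (φ : Rn 3 → ℝ≥0∞) :
    ∑' σ : T, ∫⁻ x in σ, φ x ≤ ∫⁻ x in S, φ x := by
  rw [← KInt_sum K hΩ hT φ]
  exact lintegral_mono_set (iUnion_subset fun σ => h σ σ.2)

theorem Kx.fc_finite (K : Kx Ω) {σ : Set (Rn 3)} (hσ : σ ∈ K.cells) : (K.fc σ).Finite := by
  exact (Kx.faces_finite hσ).subset fun _ h => ⟨h.1.1, h.2⟩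

theorem Kx.exists_eps (K : Kx Ω) (hΩ : IsOpen Ω) {e : ℝ≥0∞} (he : e ≠ 0) :
    ∃ ε : Set (Rn 3) → ℝ≥0∞, (∀ σ, ε σ ≠ 0) ∧ ∑' σ : K.cells, ε σ ≤ e := by
  classical
  have : Countable K.cells := (K.countable hΩ).to_subtype
  obtain ⟨ε, h0, h1⟩ := ENNReal.exists_pos_sum_of_countable' he K.cells
  refine ⟨fun σ => if h : σ ∈ K.cells then ε ⟨σ, h⟩ else 1, fun σ => ?_,
    le_trans (le_of_eq (tsum_congr fun σ => dif_pos σ.2)) h1.le⟩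
  dsimp only
  split_ifs
  · exact (h0 _).ne'
  · exact one_ne_zero

theorem KInt_lip {ι : Type} [Finite ι] {T : ι → Set ℝ} (hc : ∀ i, IsClosed (T i))
    (hu : Icc 0 1 ⊆ ⋃ i, T i) {f : ℝ → Rn 3} {c : ℝ}
    (h : ∀ i, ∀ s ∈ T i, ∀ t ∈ T i, ‖f s - f t‖ ≤ c * |s - t|) : ‖f 1 - f 0‖ ≤ c := by
  have cf : ContinuousOn f (Icc 0 1) :=
    ((locallyFinite_of_finite T).continuousOn_iUnion hc fun i =>
      (LipschitzOnWith.of_dist_le' (K := c) fun s hs t ht => by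
        rw [dist_eq_norm, Real.dist_eq]
        exact h i s hs t ht).continuousOn).mono hu
  have cl : IsClosed ({t | ‖f t - f 0‖ ≤ c * t} ∩ Icc 0 1) := by
    rw [inter_comm]
    exact isClosed_Icc.isClosed_le (cf.sub continuousOn_const).norm (by fun_prop)
  have k := cl.Icc_subset_of_forall_exists_gt (by simp) (fun x hx y hy => by
    have h1 : x < min y 1 := lt_min hy hx.2.2
    have h2 : x ∈ closure (⋃ i, T i ∩ Ioc x (min y 1)) := by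
      refine closure_mono (fun t ht => ?_) (show x ∈ closure (Ioc x (min y 1)) by
        rw [closure_Ioc h1.ne]
        exact left_mem_Icc.2 h1.le)
      obtain ⟨i, hi⟩ := mem_iUnion.1 (hu ⟨hx.2.1.trans ht.1.le, ht.2.trans (min_le_right _ _)⟩)
      exact mem_iUnion.2 ⟨i, hi, ht⟩
    rw [closure_iUnion_of_finite] at h2
    obtain ⟨i, hi⟩ := mem_iUnion.1 h2
    obtain ⟨z, z1, z2⟩ := closure_nonempty_iff.1 ⟨x, hi⟩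
    have h3 := h i z z1 x ((hc i).closure_subset (closure_mono inter_subset_left hi))
    rw [abs_of_pos (sub_pos.2 z2.1)] at h3
    refine ⟨z, ?_, z2.1, z2.2.trans (min_le_left _ _)⟩
    have h4 : ‖f x - f 0‖ ≤ c * x := hx.1
    have h5 := norm_sub_le_norm_sub_add_norm_sub (f z) (f x) (f 0)
    show ‖f z - f 0‖ ≤ c * z
    linarith) (right_mem_Icc.2 zero_le_one)
  exact k.trans_eq (mul_one c)

/-- Lipschitz on the closed cells gives Lipschitz on convex unions of cells. -/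
theorem Kx.lip_cells (K : Kx Ω) {S : Set (Rn 3)} (hs : S ⊆ Ω) (hc : Convex ℝ S) {G : Rn 3 → Rn 3}
    {L : ℝ} (h : ∀ x ∈ S, ∀ y ∈ closure (K.cell x) ∩ S, ∀ y' ∈ closure (K.cell x) ∩ S,
      ‖G y - G y'‖ ≤ L * ‖y - y'‖) : ∀ y ∈ S, ∀ y' ∈ S, ‖G y - G y'‖ ≤ L * ‖y - y'‖ := by
  intro y hy y' hy'
  have sS : segment ℝ y' y ⊆ S := hc.segment_subset hy' hy
  have cp : IsCompact (segment ℝ y' y) :=
    seg_image y' y ▸ isCompact_Icc.image (tp_seg y' y).continuous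
  have := (K.lf _ cp (sS.trans hs)).to_subtype
  have ms : ∀ t ∈ Icc (0 : ℝ) 1, seg y' y t ∈ segment ℝ y' y := fun t ht =>
    seg_image y' y ▸ mem_image_of_mem _ ht
  have k := KInt_lip (ι := K.cell '' segment ℝ y' y)
    (T := fun σ => Icc 0 1 ∩ seg y' y ⁻¹' closure σ.1) (f := fun t => G (seg y' y t))
    (c := L * ‖y - y'‖)
    (fun σ => isClosed_Icc.inter (isClosed_closure.preimage (tp_seg y' y).continuous))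
    (fun t ht => mem_iUnion.2 ⟨⟨_, mem_image_of_mem _ (ms t ht)⟩, ht,
      subset_closure (K.mem _ (hs (sS (ms t ht))))⟩) (by
      rintro ⟨_, x, hx, rfl⟩ s h1 t h2
      refine (h x (sS hx) _ ⟨h1.2, sS (ms s h1.1)⟩ _ ⟨h2.2, sS (ms t h2.1)⟩).trans_eq ?_
      rw [seg, seg, add_sub_add_left_eq_sub, ← sub_smul, norm_smul, Real.norm_eq_abs]
      ring)
  simpa [seg] using k

end BEp
end
end
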