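import Pool.Agent.Work.MP_f0515e_an.P3.CE1
import Pool.Agent.Work.MP_f0515e_an.D3.DeTP
import Pool.Agent.Work.MP_f0515e_an.P3.KInt
import Pool.Agent.Work.MP_f0515e_an.D3.O1
import Pool.Agent.Work.MP_f0515e_an.Pos.HBor

-- merged part: Pool.Agent.Work.MP_f0515e_an.P3.CE2
section
/-! Cone extension over the cells of the integer lattice. -/

open Set Metric Filter Topology Function BEv MeasureTheory
open scoped NNReal ENNReal

noncomputable section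
namespace BEp

variable {n : ℕ} {x y z m : Rn n}

/-- Closed cell of the integer lattice. -/
def CEb (x : Rn n) : Set (Rn n) := Icc (fun i => (⌊x i⌋ : ℝ)) fun i => (⌈x i⌉ : ℝ)

/-- Same open cell. -/
def CEs (x y : Rn n) : Prop := ∀ i, kbS (x i) (y i)

/-- Centre of the cell. -/
def CEc (x : Rn n) : Rn n := fun i => ((⌊x i⌋ : ℝ) + ⌈x i⌉) / 2

theorem CE_fc (a : ℝ) : ⌈a⌉ = ⌊a⌋ ∨ ⌈a⌉ = ⌊a⌋ + 1 := by
  have h1 := Int.ceil_le_floor_add_one a
  have h2 := Int.floor_le_ceil a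
  omega

theorem CEs.symm (h : CEs x y) : CEs y x := fun i => ⟨(h i).1.symm, (h i).2.symm⟩

theorem CEs.trans (h : CEs x y) (k : CEs y z) : CEs x z :=
  fun i => ⟨(k i).1.trans (h i).1, (k i).2.trans (h i).2⟩

theorem CEs.b (h : CEs x y) : CEb y = CEb x := by
  unfold CEb
  congr 1 <;> funext i
  · rw [(h i).1]
  · rw [(h i).2]

theorem CEs.c (h : CEs x y) : CEc y = CEc x := by
  funext i
  simp only [CEc, (h i).1, (h i).2]

theorem CEb_self (x : Rn n) : x ∈ CEb x := ⟨fun _ => Int.floor_le _, fun _ => Int.le_ceil _⟩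

theorem CEs.mem (h : CEs x y) : y ∈ CEb x := h.b ▸ CEb_self y

theorem CEb_iff : y ∈ CEb x ↔ ‖y - CEc x‖ ≤ 1 / 2 ∧ ∀ i, ⌈x i⌉ = ⌊x i⌋ → y i = CEc x i := by
  rw [pi_norm_le_iff_of_nonneg (by norm_num)]
  simp only [CEb, mem_Icc, Pi.le_def, Pi.sub_apply, Real.norm_eq_abs, abs_le, CEc, ← forall_and]
  refine forall_congr' fun i => ?_
  rcases CE_fc (x i) with h | h
  · rw [h]
    exact ⟨fun k => ⟨⟨by linarith only [k, k.1], by linarith only [k, k.2]⟩, fun _ => by linarith only [k, k.1, k.2]⟩,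
      fun k => ⟨by linarith only [k, k.2 rfl], by linarith only [k, k.2 rfl]⟩⟩
  · rw [h]
    push_cast
    exact ⟨fun k => ⟨⟨by linarith only [k, k.1], by linarith only [k, k.2]⟩, fun e => by omega⟩,
      fun k => ⟨by linarith only [k, k.1.1], by linarith only [k, k.1.2]⟩⟩

theorem CEs_iff (h : y ∈ CEb x) : CEs x y ↔ ‖y - CEc x‖ < 1 / 2 := by
  rw [pi_norm_lt_iff (by norm_num)]
  refine forall_congr' fun i => ?_
  have h1 : (⌊x i⌋ : ℝ) ≤ y i := h.1 i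
  have h2 : y i ≤ (⌈x i⌉ : ℝ) := h.2 i
  simp only [kbS_ineq, Pi.sub_apply, Real.norm_eq_abs, abs_lt, CEc]
  rcases CE_fc (x i) with e | e
  · rw [e] at h2 ⊢
    exact ⟨fun _ => ⟨by linarith only [h1], by linarith only [h2]⟩,
      fun _ => ⟨⟨h1, by linarith only [h2]⟩, by linarith only [h1], h2⟩⟩
  · rw [e] at h2 ⊢
    push_cast at h2 ⊢
    exact ⟨fun k => ⟨by linarith only [k, k.2.1], by linarith only [k, k.1.2]⟩,
      fun k => ⟨⟨h1, by linarith only [k, k.2]⟩, by linarith only [k, k.1], h2⟩⟩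

theorem CEs_c (x : Rn n) : CEs x (CEc x) := by
  have : CEc x ∈ CEb x := CEb_iff.2 ⟨by simp, fun _ _ => rfl⟩
  rw [CEs_iff this]
  simp

theorem CEb_sub (h : y ∈ CEb x) : CEb y ⊆ CEb x :=
  Icc_subset_Icc (fun i => Int.cast_le.2 (Int.le_floor.2 (h.1 i)))
    fun i => Int.cast_le.2 (Int.ceil_le.2 (h.2 i))

theorem CEb_ray (hm : CEc m = m) (hz : z ∈ CEb m) {t : ℝ} (h : ‖t • (z - m)‖ ≤ 1 / 2) :
    m + t • (z - m) ∈ CEb m := by
  rw [CEb_iff, hm] at hz ⊢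
  exact ⟨by simpa using h, fun i e => by simp [hz.2 i e]⟩

theorem CEb_polar (hm : CEc m = m) (hy : y ∈ CEb m) :
    y = m ∨ ∃ z ∈ CEb m, ‖z - m‖ = 1 / 2 ∧ y = m + (2 * ‖y - m‖) • (z - m) := by
  by_cases e : y = m
  · exact Or.inl e
  have p : 0 < ‖y - m‖ := norm_pos_iff.2 (sub_ne_zero.2 e)
  have q : ‖(2 * ‖y - m‖)⁻¹ • (y - m)‖ = 1 / 2 := by
    rw [norm_smul, Real.norm_of_nonneg (by positivity)]
    field_simp
  refine Or.inr ⟨_, CEb_ray hm hy q.le, by simpa using q, ?_⟩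
  rw [add_sub_cancel_left, smul_smul, mul_inv_cancel₀ (by positivity), one_smul, add_sub_cancel]

theorem CE_cone (m : Rn n) {k : Rn n → Rn n} (hk : TP k) : ∃ K, TP K ∧ K m = m ∧
    ∀ z, ‖z - m‖ = 1 / 2 → ∀ t : ℝ, 0 ≤ t → K (m + t • (z - m)) = m + t • (k z - m) := by
  obtain ⟨K, h1, h2, h3⟩ := pfill_cone0 (gauge_norm (n := n))
    (g := fun u => k (m + (1 / 2 : ℝ) • u) - m)
    ((hk.comp ((TP.const m).add (TP.id'.const_smul _))).sub (TP.const m))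
  refine ⟨fun x => m + K (x - m) + K (x - m), ?_, by simp [h2], ?_⟩
  · have b : TP fun x => K (x - m) := h1.comp (TP.id'.sub (TP.const m))
    exact ((TP.const m).add b).add b
  · intro z hz t ht
    have e : ‖(2 : ℝ) • (z - m)‖ = 1 := by rw [norm_smul, hz]; norm_num
    have a := h3 _ e (t / 2) (by positivity)
    have b : m + (1 / 2 : ℝ) • (2 : ℝ) • (z - m) = z := by rw [smul_smul]; norm_num
    have c : (t / 2) • (2 : ℝ) • (z - m) = t • (z - m) := by rw [smul_smul]; norm_num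
    simp only [b, c] at a
    simp only [add_sub_cancel_left, a]
    module

/-- Union of closed cells. -/
def CEx (X : Set (Rn n)) : Prop := ∀ x ∈ X, CEb x ⊆ X

/-- State of the induction. -/
structure CEst (X Z : Set (Rn n)) (L : ℝ) (k : Rn n → Rn n) : Prop where
  tp : TP k
  bij : BijOn k X X
  sm : ∀ x ∈ X, CEs x (k x)
  id : ∀ x ∈ X, x ∈ Z → k x = x
  lip : ∀ W ⊆ X, Convex ℝ W → ∀ x ∈ W, ∀ y ∈ W, ‖k x - k y‖ ≤ L * ‖x - y‖

variable {X X' Z : Set (Rn n)} {L L' : ℝ} {k K : Rn n → Rn n}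

theorem CE_rim (h : CEst X Z L k) (hL : 1 ≤ L) (hm : CEc m = m)
    (rim : ∀ y ∈ CEb m, CEs m y ∨ y ∈ X) {z' : Rn n} (hz : z ∈ CEb m) (hz' : z' ∈ CEb m)
    (e : ‖z - m‖ = 1 / 2) (e' : ‖z' - m‖ = 1 / 2) : ‖k z - k z'‖ ≤ 2 * L * ‖z - z'‖ := by
  have ex : ∀ w, ‖w - m‖ = 1 / 2 → ∃ i, |w i - m i| = 1 / 2 := fun w hw => by
    by_contra hn
    have : ‖w - m‖ < 1 / 2 := (pi_norm_lt_iff (by norm_num)).2 fun i =>
      lt_of_le_of_ne (hw ▸ norm_le_pi_norm (w - m) i) fun a => hn ⟨i, a⟩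
    exact this.ne hw
  have fa : ∀ i, ∀ w ∈ CEb m, ∀ w' ∈ CEb m, |w i - m i| = 1 / 2 → w' i = w i →
      ‖k w - k w'‖ ≤ L * ‖w - w'‖ := fun i w hw w' hw' a b => by
    refine h.lip (CEb m ∩ {v | v i = w i}) (fun v hv => (rim v hv.1).resolve_left fun s => ?_)
      ((convex_Icc _ _).inter (convex_hyperplane (f := fun v : Rn n => v i)
        ⟨fun _ _ => rfl, fun _ _ => rfl⟩ _)) w ⟨hw, rfl⟩ w' ⟨hw', b⟩
    rw [CEs_iff hv.1, hm] at s
    have c := norm_le_pi_norm (v - m) i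
    have d : v i = w i := hv.2
    rw [Pi.sub_apply, d, Real.norm_eq_abs, a] at c
    linarith only [s, c]
  obtain ⟨i, hi⟩ := ex z e
  obtain ⟨j, hj⟩ := ex z' e'
  have n0 := norm_nonneg (z - z')
  by_cases c : i ≠ j ∨ z i = z' i
  · have hw : update z j (z' j) ∈ CEb m := by
      refine ⟨fun l => ?_, fun l => ?_⟩ <;> rcases eq_or_ne l j with rfl | a
      · rw [update_self]; exact hz'.1 l
      · rw [update_of_ne a]; exact hz.1 l
      · rw [update_self]; exact hz'.2 l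
      · rw [update_of_ne a]; exact hz.2 l
    have a1 := fa i z hz _ hw hi (by
      rcases eq_or_ne i j with rfl | a
      · rw [update_self]; exact (c.resolve_left (fun b => b rfl)).symm
      · rw [update_of_ne a])
    have a2 := fa j z' hz' _ hw hj (by rw [update_self])
    have b1 : ‖z - update z j (z' j)‖ ≤ ‖z - z'‖ := (pi_norm_le_iff_of_nonneg n0).2 fun l => by
      rcases eq_or_ne l j with rfl | a
      · simpa using norm_le_pi_norm (z - z') l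
      · simp [update_of_ne a]
    have b2 : ‖z' - update z j (z' j)‖ ≤ ‖z - z'‖ := (pi_norm_le_iff_of_nonneg n0).2 fun l => by
      rcases eq_or_ne l j with rfl | a
      · simp
      · rw [Pi.sub_apply, update_of_ne a, norm_sub_rev]
        exact norm_le_pi_norm (z - z') l
    have t := norm_sub_le_norm_sub_add_norm_sub (k z) (k (update z j (z' j))) (k z')
    rw [norm_sub_rev (k (update z j (z' j)))] at t
    linarith only [a1, a2, b1, b2, t, hL, mul_nonneg_of_nonpos_of_nonpos (Mathlib.Tactic.Linarith.sub_nonpos_of_le hL) (Mathlib.Tactic.Linarith.sub_nonpos_of_le b1), mul_nonneg_of_nonpos_of_nonpos (Mathlib.Tactic.Linarith.sub_nonpos_of_le hL) (Mathlib.Tactic.Linarith.sub_nonpos_of_le b2)]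
  · push Not at c
    obtain ⟨rfl, c⟩ := c
    have a : 1 ≤ ‖z - z'‖ := by
      refine le_trans ?_ (norm_le_pi_norm (z - z') i)
      rw [Pi.sub_apply, Real.norm_eq_abs, le_abs]
      rcases (abs_eq (by norm_num)).1 hi with p | p <;> rcases (abs_eq (by norm_num)).1 hj with q | q
      · exact absurd (by linarith only [p, q]) c
      · left; linarith only [p, q]
      · right; linarith only [p, q]
      · exact absurd (by linarith only [p, q]) c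
    have b : ∀ w ∈ CEb m, ‖w - m‖ = 1 / 2 → ‖k w - m‖ ≤ 1 / 2 := fun w hw p => by
      have q : w ∈ X := (rim w hw).resolve_left fun s => by
        rw [CEs_iff hw, hm] at s; exact s.ne p
      have := (CEb_iff.1 (CEb_sub hw (h.sm w q).mem)).1
      rwa [hm] at this
    have t := norm_sub_le_norm_sub_add_norm_sub (k z) m (k z')
    rw [norm_sub_rev m] at t
    linarith only [a, t, b, hz, e, hz', e', hL, n0, b z hz e, b z' hz' e', mul_nonneg_of_nonpos_of_nonpos (Mathlib.Tactic.Linarith.sub_nonpos_of_le hL) (Mathlib.Tactic.Linarith.sub_nonpos_of_le n0)]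

/-- The cone over one new cell. -/
theorem CE_cell (hX : CEx X) (hZ : CEx Z) (h : CEst X Z L k) (hL : 1 ≤ L) (hm : CEc m = m)
    (mX : m ∉ X) (rim : ∀ y ∈ CEb m, CEs m y ∨ y ∈ X) :
    ∃ K, TP K ∧ BijOn K (CEb m) (CEb m) ∧ (∀ y ∈ CEb m, y ∈ X → K y = k y) ∧
      (∀ y ∈ CEb m, ‖K y - m‖ = ‖y - m‖) ∧ (m ∈ Z → ∀ y ∈ CEb m, K y = y) ∧
      ∀ x ∈ CEb m, ∀ y ∈ CEb m, ‖K x - K y‖ ≤ (1 + 4 * L) * ‖x - y‖ := by
  obtain ⟨K, h1, h2, h3⟩ := CE_cone m h.tp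
  have le : ∀ y ∈ CEb m, ‖y - m‖ ≤ 1 / 2 := fun y hy => hm ▸ (CEb_iff.1 hy).1
  have r1 : ∀ w ∈ CEb m, w ∈ X ↔ ‖w - m‖ = 1 / 2 := fun w hw => by
    have s := CEs_iff hw
    rw [hm] at s
    exact ⟨fun a => (le w hw).eq_or_lt.resolve_right fun b => mX (hX w a (s.2 b).symm.mem),
      fun p => (rim w hw).resolve_left fun b => (s.1 b).ne p⟩
  have r2 : ∀ w ∈ CEb m, ‖w - m‖ = 1 / 2 → k w ∈ CEb m ∧ ‖k w - m‖ = 1 / 2 := fun w hw p => by
    have q := (r1 w hw).2 p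
    have a := CEb_sub hw (h.sm w q).mem
    exact ⟨a, (r1 _ a).1 (h.bij.1 q)⟩
  have po : ∀ y ∈ CEb m, (y = m ∧ K y = m) ∨ ∃ z ∈ CEb m, ‖z - m‖ = 1 / 2 ∧
      y = m + (2 * ‖y - m‖) • (z - m) ∧ K y = m + (2 * ‖y - m‖) • (k z - m) := fun y hy => by
    rcases CEb_polar hm hy with rfl | ⟨z, a, b, c⟩
    · exact Or.inl ⟨rfl, h2⟩
    · refine Or.inr ⟨z, a, b, c, ?_⟩
      rw [← h3 z b _ (by positivity), ← c]
  have nm : ∀ y ∈ CEb m, ‖K y - m‖ = ‖y - m‖ := fun y hy => by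
    rcases po y hy with ⟨a, b⟩ | ⟨z, a, b, -, d⟩
    · rw [b, a]
    · rw [d, add_sub_cancel_left, norm_smul, (r2 z a b).2, Real.norm_of_nonneg (by positivity)]
      ring
  refine ⟨K, h1, ⟨fun y hy => ?_, fun x hx y hy e => ?_, fun y hy => ?_⟩, fun y hy yX => ?_, nm,
    fun mZ y hy => ?_, ?_⟩
  · rcases po y hy with ⟨-, b⟩ | ⟨z, a, b, -, d⟩
    · rw [b]; exact CEb_self m
    · have := (nm y hy).trans_le (le y hy)
      rw [d, add_sub_cancel_left] at this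
      rw [d]
      exact CEb_ray hm (r2 z a b).1 this
  · have e1 : ‖x - m‖ = ‖y - m‖ := by rw [← nm x hx, ← nm y hy, e]
    by_cases c : x = m
    · rw [c, sub_self, norm_zero] at e1
      rw [c, sub_eq_zero.1 (norm_eq_zero.1 e1.symm)]
    have p : 0 < ‖x - m‖ := norm_pos_iff.2 (sub_ne_zero.2 c)
    obtain ⟨z, a, b, c1, d⟩ := (po x hx).resolve_left fun a => c a.1
    obtain ⟨z', a', b', c1', d'⟩ := (po y hy).resolve_left fun a => by
      rw [e1, a.1, sub_self, norm_zero] at p; exact p.false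
    rw [d, d', ← e1] at e
    have := smul_right_injective _ (by positivity : 2 * ‖x - m‖ ≠ 0) (add_left_cancel e)
    have := h.bij.2.1 ((r1 z a).2 b) ((r1 z' a').2 b') (sub_left_injective this)
    rw [c1, c1', ← e1, this]
  · rcases CEb_polar hm hy with rfl | ⟨z, a, b, c⟩
    · exact ⟨y, hy, h2⟩
    · obtain ⟨w, w1, rfl⟩ := h.bij.2.2 ((r1 z a).2 b)
      have w2 : w ∈ CEb m := CEb_sub a (h.sm w w1).symm.mem
      have w3 := (r1 w w2).1 w1
      refine ⟨_, CEb_ray hm w2 (t := 2 * ‖y - m‖) ?_, by rw [h3 w w3 _ (by positivity), ← c]⟩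
      rw [norm_smul, w3, Real.norm_of_nonneg (by positivity)]
      linarith only [le, hy, le y hy]
  · simpa using h3 y ((r1 y hy).1 yX) 1 zero_le_one
  · rcases po y hy with ⟨a, b⟩ | ⟨z, a, b, c, d⟩
    · rw [b, a]
    · rw [d, h.id z ((r1 z a).2 b) (hZ m mZ a), ← c]
  · have key : ∀ x ∈ CEb m, ∀ y ∈ CEb m, ‖y - m‖ ≤ ‖x - m‖ →
        ‖K x - K y‖ ≤ (1 + 4 * L) * ‖x - y‖ := fun x hx y hy o => by
      have n0 := norm_nonneg (x - y)
      rcases po y hy with ⟨a, b⟩ | ⟨z', a', b', c', d'⟩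
      · rw [b, nm x hx, a]
        linarith only [hL, norm_nonneg (x - m), mul_nonneg_of_nonpos_of_nonpos (Mathlib.Tactic.Linarith.sub_nonpos_of_le hL) (Mathlib.Tactic.Linarith.sub_nonpos_of_le (norm_nonneg (x - m)))]
      rcases po x hx with ⟨a, b⟩ | ⟨z, a, b, c, d⟩
      · rw [b, norm_sub_rev, nm y hy, a, norm_sub_rev m]
        linarith only [hL, norm_nonneg (y - m), mul_nonneg_of_nonpos_of_nonpos (Mathlib.Tactic.Linarith.sub_nonpos_of_le hL) (Mathlib.Tactic.Linarith.sub_nonpos_of_le (norm_nonneg (y - m)))]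
      have tr : ‖x - m‖ - ‖y - m‖ ≤ ‖x - y‖ := by
        simpa using norm_sub_norm_le (x - m) (y - m)
      have s0 := norm_nonneg (y - m)
      have rr := CE_rim h hL hm rim a a' b b'
      generalize ‖x - m‖ = t at *
      generalize ‖y - m‖ = s at *
      have e1 : K x - K y = (2 * (t - s)) • (k z - m) + (2 * s) • (k z - k z') := by
        rw [d, d']; module
      have e2 : (2 * s) • (z - z') = (x - y) - (2 * (t - s)) • (z - m) := by
        rw [c, c']; module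
      have f1 := norm_add_le ((2 * (t - s)) • (k z - m)) ((2 * s) • (k z - k z'))
      have f2 := norm_sub_le (x - y) ((2 * (t - s)) • (z - m))
      rw [← e1, norm_smul, norm_smul, (r2 z a b).2, Real.norm_of_nonneg (by linarith only [o]),
        Real.norm_of_nonneg (by linarith only [s0])] at f1
      rw [← e2, norm_smul, norm_smul, b, Real.norm_of_nonneg (by linarith only [s0]),
        Real.norm_of_nonneg (by linarith only [o])] at f2
      have f3 : 2 * s * ‖k z - k z'‖ ≤ 2 * L * (2 * s * ‖z - z'‖) := by linarith only [rr, s0, mul_nonneg_of_nonpos_of_nonpos (Mathlib.Tactic.Linarith.sub_nonpos_of_le rr) (Mathlib.Tactic.Linarith.sub_nonpos_of_le s0)]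
      have f4 : 2 * L * (2 * s * ‖z - z'‖) ≤ 2 * L * (2 * ‖x - y‖) :=
        mul_le_mul_of_nonneg_left (by linarith only [tr, f2]) (by linarith only [hL])
      linarith only [tr, f1, f3, f4]
    intro x hx y hy
    rcases le_total ‖y - m‖ ‖x - m‖ with o | o
    · exact key x hx y hy o
    · rw [norm_sub_rev, norm_sub_rev x]
      exact key y hy x hx o

theorem CE_step (hX : CEx X) (hX' : CEx X') (hZ : CEx Z) (sub : X ⊆ X')
    (fin : (CEc '' X').Finite) (rim : ∀ x ∈ X', x ∉ X → ∀ y ∈ CEb x, CEs x y ∨ y ∈ X)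
    (h : CEst X Z L k) (hL : 1 ≤ L) (l1 : L ≤ L')
    (l2 : 1 + 4 * L ≤ L' ∨ ∀ x ∈ X', x ∉ X → ∀ y ∈ CEb x, y = x) :
    ∃ k', CEst X' Z L' k' ∧ EqOn k' k X := by
  classical
  have T1 : ∀ m ∈ CEc '' X', CEc m = m ∧ m ∈ X' := by
    rintro _ ⟨x, hx, rfl⟩
    exact ⟨(CEs_c x).c, hX' x hx (CEs_c x).mem⟩
  have ex : ∀ m, ∃ K, TP K ∧ (m ∈ CEc '' X' → (∀ y ∈ CEb m, y ∈ X → K y = k y) ∧ (m ∉ X →
      BijOn K (CEb m) (CEb m) ∧ (∀ y ∈ CEb m, ‖K y - m‖ = ‖y - m‖) ∧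
      (m ∈ Z → ∀ y ∈ CEb m, K y = y) ∧
      ∀ x ∈ CEb m, ∀ y ∈ CEb m, ‖K x - K y‖ ≤ (1 + 4 * L) * ‖x - y‖)) := fun m => by
    by_cases c : m ∈ CEc '' X' ∧ m ∉ X
    · obtain ⟨K, a1, a2, a3, a4⟩ :=
        CE_cell hX hZ h hL (T1 m c.1).1 c.2 (rim m (T1 m c.1).2 c.2)
      exact ⟨K, a1, fun _ => ⟨a3, fun _ => ⟨a2, a4⟩⟩⟩
    · exact ⟨k, h.tp, fun a => ⟨fun _ _ _ => rfl, fun b => (c ⟨a, b⟩).elim⟩⟩
  choose K K1 K2 using ex
  obtain ⟨k', a1, a2⟩ := tp_glue_fin fin (X := CEb) (fun m _ => poly_Icc _ _) (f := K)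
    (fun m _ => K1 m) fun m hm m' hm' y hy => by
      by_cases c : y ∈ X
      · rw [(K2 m hm).1 y hy.1 c, (K2 m' hm').1 y hy.2 c]
      · have p := (rim m (T1 m hm).2 (fun b => c (hX m b hy.1)) y hy.1).resolve_right c
        have q := (rim m' (T1 m' hm').2 (fun b => c (hX m' b hy.2)) y hy.2).resolve_right c
        rw [← (T1 m hm).1, ← (T1 m' hm').1, ← p.c, ← q.c]
  have eq : EqOn k' k X := fun y hy => by
    have p : CEc y ∈ CEc '' X' := mem_image_of_mem _ (sub hy)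
    rw [a2 _ p (CEs_c y).symm.mem, (K2 _ p).1 y (CEs_c y).symm.mem hy]
  have nw : ∀ y ∈ X', y ∉ X → CEc y ∈ CEc '' X' ∧ CEc y ∉ X := fun y hy c =>
    ⟨mem_image_of_mem _ hy, fun b => c (hX _ b (CEs_c y).symm.mem)⟩
  have sm : ∀ y ∈ X', CEs y (k' y) := fun y hy => by
    by_cases c : y ∈ X
    · rw [eq c]; exact h.sm y c
    obtain ⟨p, q⟩ := nw y hy c
    have s := (CEs_c y).symm
    obtain ⟨b1, b2, -⟩ := (K2 _ p).2 q
    rw [a2 _ p s.mem]
    refine s.symm.trans ((CEs_iff (b1.1 s.mem)).2 ?_)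
    rw [(T1 _ p).1, b2 y s.mem, ← (T1 _ p).1]
    exact (CEs_iff s.mem).1 s
  refine ⟨k', ⟨a1, ⟨fun y hy => hX' y hy (sm y hy).mem, fun x hx y hy e => ?_, fun y hy => ?_⟩, sm,
    fun y hy yZ => ?_, fun W hW hc => ?_⟩, eq⟩
  · have s : CEs x y := (sm x hx).trans (e ▸ (sm y hy).symm)
    by_cases c : x ∈ X
    · have c' := hX x c s.mem
      exact h.bij.2.1 c c' (by rw [← eq c, ← eq c', e])
    obtain ⟨p, q⟩ := nw x hx c
    have s1 := (CEs_c x).symm.mem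
    have s2 := ((CEs_c x).symm.trans s).mem
    exact ((K2 _ p).2 q).1.2.1 s1 s2 (by rw [← a2 _ p s1, ← a2 _ p s2, e])
  · by_cases c : y ∈ X
    · obtain ⟨w, w1, w2⟩ := h.bij.2.2 c
      exact ⟨w, sub w1, (eq w1).trans w2⟩
    obtain ⟨p, q⟩ := nw y hy c
    obtain ⟨w, w1, w2⟩ := ((K2 _ p).2 q).1.2.2 (CEs_c y).symm.mem
    exact ⟨w, hX' _ (T1 _ p).2 w1, (a2 _ p w1).trans w2⟩
  · by_cases c : y ∈ X
    · rw [eq c, h.id y c yZ]
    obtain ⟨p, q⟩ := nw y hy c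
    have s := (CEs_c y).symm.mem
    rw [a2 _ p s, ((K2 _ p).2 q).2.2.1 (hZ y yZ (CEs_c y).mem) y s]
  · refine CE_cover hc (fin.image CEb) (by rintro _ ⟨m, -, rfl⟩; exact isClosed_Icc)
      (fun y hy => ⟨_, mem_image_of_mem _ (mem_image_of_mem _ (hW hy)), (CEs_c y).symm.mem⟩) ?_
    rintro _ ⟨m, hm, rfl⟩ x ⟨hx, -⟩ y ⟨hy, -⟩
    have n0 := norm_nonneg (x - y)
    by_cases c : m ∈ X
    · rw [eq (hX m c hx), eq (hX m c hy)]
      exact (h.lip _ (hX m c) (convex_Icc _ _) x hx y hy).trans (mul_le_mul_of_nonneg_right l1 n0)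
    rcases l2 with l2 | l2
    · rw [a2 _ hm hx, a2 _ hm hy]
      exact (((K2 _ hm).2 c).2.2.2 x hx y hy).trans (mul_le_mul_of_nonneg_right l2 n0)
    · rw [l2 m (T1 m hm).2 c x hx, l2 m (T1 m hm).2 c y hy]
      simp

/-- The non integer coordinates. -/
def CEj (x : Rn n) : Finset (Fin n) := Finset.univ.filter fun i => ⌈x i⌉ ≠ ⌊x i⌋

theorem CEj_sub (h : y ∈ CEb x) : CEj y ⊆ CEj x := fun i hi => by
  simp only [CEj, Finset.mem_filter, Finset.mem_univ, true_and] at hi ⊢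
  have a := Int.le_floor.2 (h.1 i)
  have b := Int.ceil_le.2 (h.2 i)
  have c := Int.floor_le_ceil (y i)
  omega

theorem CEj_eq (h : y ∈ CEb x) (e : CEj x ⊆ CEj y) : CEs x y := fun i => by
  have a := Int.le_floor.2 (h.1 i)
  have b := Int.ceil_le.2 (h.2 i)
  have c := Int.floor_le_ceil (y i)
  have d := @e i
  simp only [CEj, Finset.mem_filter, Finset.mem_univ, true_and] at d
  have := CE_fc (x i)
  unfold kbS
  omega

theorem CE_fin {Q : Set (Rn n)} (h : Bornology.IsBounded Q) : (CEc '' Q).Finite := by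
  obtain ⟨R, hR⟩ := h.exists_norm_le
  have f : (Set.pi univ fun _ : Fin n => Icc (⌊-R⌋, ⌈-R⌉) (⌊R⌋, ⌈R⌉)).Finite :=
    Finite.pi fun _ => finite_Icc _ _
  refine (f.image fun v i => (((v i).1 : ℝ) + (v i).2) / 2).subset ?_
  rintro _ ⟨x, hx, rfl⟩
  refine ⟨fun i => (⌊x i⌋, ⌈x i⌉), fun i _ => ?_, rfl⟩
  have := abs_le.1 ((norm_le_pi_norm x i).trans (hR x hx))
  exact ⟨⟨Int.floor_mono this.1, Int.ceil_mono this.1⟩, Int.floor_mono this.2, Int.ceil_mono this.2⟩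

theorem CE_unit {Q S Z : Set (Rn 3)} (hQ : CEx Q) (hS : CEx S) (hZ : CEx Z) (sub : S ⊆ Q)
    (bd : Bornology.IsBounded Q) {h : Rn 3 → Rn 3} (st : CEst S Z L h) (hL : 1 ≤ L) :
    ∃ k, CEst Q Z (85 * L) k ∧ EqOn k h S := by
  obtain ⟨X, hX⟩ : ∃ X : ℕ → Set (Rn 3), ∀ j x, x ∈ X j ↔ x ∈ Q ∧ (x ∈ S ∨ (CEj x).card < j) :=
    ⟨fun j => {x | x ∈ Q ∧ (x ∈ S ∨ (CEj x).card < j)}, fun _ _ => Iff.rfl⟩
  have cx : ∀ j, CEx (X j) := fun j x hx y hy => by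
    rw [hX] at hx ⊢
    exact ⟨hQ x hx.1 hy, hx.2.imp (fun a => hS x a hy)
      fun a => (Finset.card_le_card (CEj_sub hy)).trans_lt a⟩
  have step : ∀ j (L L' : ℝ) k, CEst (X j) Z L k → EqOn k h S → 1 ≤ L → L ≤ L' →
      (1 + 4 * L ≤ L' ∨ j = 0) → ∃ k', CEst (X (j + 1)) Z L' k' ∧ EqOn k' h S := by
    intro j L L' k a b c d e
    obtain ⟨k', p, q⟩ := CE_step (cx j) (cx (j + 1)) hZ
      (fun x hx => (hX _ _).2 ⟨((hX _ _).1 hx).1, ((hX _ _).1 hx).2.imp_right Nat.lt_succ_of_lt⟩)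
      (CE_fin (bd.subset fun x hx => ((hX _ _).1 hx).1)) (fun x hx hn y hy => by
        rw [hX] at hx hn
        rcases (CEj_sub hy).eq_or_ssubset with r | r
        · exact Or.inl (CEj_eq hy r.ge)
        · refine Or.inr ((hX _ _).2 ⟨hQ x hx.1 hy, Or.inr ?_⟩)
          have r1 := Finset.card_lt_card r
          have r2 := hx.2.resolve_left fun s => hn ⟨hx.1, Or.inl s⟩
          omega) a c d (e.imp_right fun e x hx hn y hy => by
        rw [hX] at hx hn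
        have r2 := hx.2.resolve_left fun s => hn ⟨hx.1, Or.inl s⟩
        have r3 : CEj x = ∅ := Finset.card_eq_zero.1 (by omega)
        have r4 : ∀ i, ⌈x i⌉ = ⌊x i⌋ := fun i => by
          simpa using Finset.filter_eq_empty_iff.1 r3 (Finset.mem_univ i)
        funext i
        rw [(CEb_iff.1 hy).2 i (r4 i), (CEb_iff.1 (CEb_self x)).2 i (r4 i)])
    exact ⟨k', p, fun x hx => (q ((hX _ _).2 ⟨sub hx, Or.inl hx⟩)).trans (b hx)⟩
  have e0 : X 0 = S := by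
    ext x
    rw [hX]
    exact ⟨fun a => a.2.resolve_right (Nat.not_lt_zero _), fun a => ⟨sub a, Or.inl a⟩⟩
  have e4 : X 4 = Q := by
    ext x
    rw [hX]
    exact ⟨fun a => a.1, fun a => ⟨a, Or.inr ((Finset.card_le_univ _).trans_lt (by simp))⟩⟩
  obtain ⟨k1, a1, b1⟩ := step 0 L L h (e0 ▸ st) (fun _ _ => rfl) hL le_rfl (Or.inr rfl)
  obtain ⟨k2, a2, b2⟩ := step 1 L (5 * L) k1 a1 b1 hL (by linarith only [hL]) (Or.inl (by linarith))
  obtain ⟨k3, a3, b3⟩ := step 2 (5 * L) (21 * L) k2 a2 b2 (by linarith) (by linarith)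
    (Or.inl (by linarith))
  obtain ⟨k4, a4, b4⟩ := step 3 (21 * L) (85 * L) k3 a3 b3 (by linarith) (by linarith)
    (Or.inl (by linarith))
  exact ⟨k4, e4 ▸ a4, b4⟩

end BEp
end
end

-- merged part: Pool.Agent.Work.MP_f0515e_an.P3.CPush
section
-- merged part: Pool.Agent.Work.MP_f0515e_an.P3.CPush
section
/-! Push forward estimates. `lint_push`: the inverse of `ψ` is `L` Lipschitz on `ψ '' A`, and the
volume is the Hausdorff measure (`hausdorffMeasure_pi_real`), so `volume (A ∩ ψ ⁻¹' E) ≤ L^n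
volume E`. `tan_le`: near almost every point `Ψ` is affine (`TP`), injective by the lower bound;
off a null set `Ψ x` lies in a chart whose plane is the plane of this affine map (two different
planes meet in a line, whose preimage is null; the preimage of `Z` is null), so that near `x`
`Ψ = φ ∘ ψ` with `ψ` affine, of norm at most `a c` and with inverse `a c'` Lipschitz on the
set of such points; apply `lint_push` on the countably many pieces (for a fixed chart one map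
`ψ = φ⁻¹ ∘ Ψ`). -/

open Set Metric Filter Topology Function BEv MeasureTheory
open scoped NNReal ENNReal

noncomputable section
namespace BEp

theorem CPush_haus {n m : ℕ} {A : Set (Rn n)} {ψ : Rn n → Rn m} {L : ℝ}
    (h : ∀ x ∈ A, ∀ y ∈ A, ‖x - y‖ ≤ L * ‖ψ x - ψ y‖) {d : ℝ} (hd : 0 ≤ d) (E : Set (Rn m)) :
    μH[d] (A ∩ ψ ⁻¹' E) ≤ ENNReal.ofReal L ^ d * μH[d] E := by
  have hi : InjOn ψ A := fun x hx y hy e => by
    have := h x hx y hy
    rw [e, sub_self, norm_zero, mul_zero] at this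
    exact sub_eq_zero.1 (norm_le_zero_iff.1 this)
  have hl : LipschitzOnWith L.toNNReal (invFunOn ψ A) (ψ '' A ∩ E) := by
    refine LipschitzOnWith.of_dist_le' ?_
    rintro _ ⟨⟨x, hx, rfl⟩, -⟩ _ ⟨⟨y, hy, rfl⟩, -⟩
    rw [hi.leftInvOn_invFunOn hx, hi.leftInvOn_invFunOn hy, dist_eq_norm, dist_eq_norm]
    exact h x hx y hy
  have hs : A ∩ ψ ⁻¹' E ⊆ invFunOn ψ A '' (ψ '' A ∩ E) := fun x hx =>
    ⟨ψ x, ⟨mem_image_of_mem _ hx.1, hx.2⟩, hi.leftInvOn_invFunOn hx.1⟩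
  refine (measure_mono hs).trans ((hl.hausdorffMeasure_image_le hd).trans ?_)
  exact mul_le_mul' le_rfl (measure_mono inter_subset_right)

theorem CPush_vol {n : ℕ} {A : Set (Rn n)} {ψ : Rn n → Rn n} {L : ℝ} (hL : 0 ≤ L)
    (h : ∀ x ∈ A, ∀ y ∈ A, ‖x - y‖ ≤ L * ‖ψ x - ψ y‖) (E : Set (Rn n)) :
    volume (A ∩ ψ ⁻¹' E) ≤ ENNReal.ofReal (L ^ n) * volume E := by
  have h1 := CPush_haus h (d := (Fintype.card (Fin n) : ℝ)) (Nat.cast_nonneg _) E
  rw [hausdorffMeasure_pi_real, Fintype.card_fin, ENNReal.rpow_natCast] at h1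
  rw [ENNReal.ofReal_pow hL]
  exact h1

theorem lint_push {n : ℕ} {A B : Set (Rn n)} (hA : MeasurableSet A) (hB : MeasurableSet B)
    {ψ : Rn n → Rn n} (hψ : Measurable ψ) (hm : MapsTo ψ A B) {L : ℝ} (hL : 0 ≤ L)
    (h : ∀ x ∈ A, ∀ y ∈ A, ‖x - y‖ ≤ L * ‖ψ x - ψ y‖) {φ : Rn n → ℝ≥0∞} (hφ : Measurable φ) :
    ∫⁻ x in A, φ (ψ x) ≤ ENNReal.ofReal (L ^ n) * ∫⁻ y in B, φ y := by
  have hle : (volume.restrict A).map ψ ≤ ENNReal.ofReal (L ^ n) • volume.restrict B := by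
    refine Measure.le_iff.2 fun E hE => ?_
    rw [Measure.map_apply hψ hE, Measure.restrict_apply (hψ hE), Measure.smul_apply,
      Measure.restrict_apply hE, smul_eq_mul]
    refine le_trans (measure_mono ?_) (CPush_vol hL h (E ∩ B))
    exact fun x hx => ⟨hx.2, hx.1, hm hx.2⟩
  rw [← lintegral_map hφ hψ]
  refine (lintegral_mono' hle le_rfl).trans_eq ?_
  rw [lintegral_smul_measure, smul_eq_mul]

theorem CPush_diff {Ω : Set (Rn 3)} (hΩ : IsOpen Ω) {G : Rn 3 → Rn 3} (hG : LTP Ω G)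
    {φ : Rn 2 → Rn 3} (hφ : TP φ) : ∀ᵐ ξ, φ ξ ∈ Ω → DifferentiableAt ℝ (G ∘ φ) ξ := by
  obtain ⟨g, hg, e⟩ := hG.seq hΩ
  have h1 : ∀ᵐ ξ, ∀ j, DifferentiableAt ℝ (fun x => g j (φ x)) ξ := ae_all_iff.2 fun j => by
    obtain ⟨L, hL⟩ := ((hg j).comp hφ).lip
    exact hL.ae_differentiableAt
  filter_upwards [h1] with ξ hξ hΩ'
  obtain ⟨j, hj⟩ := e _ hΩ'
  exact (hξ j).congr_of_eventuallyEq (hφ.continuous.continuousAt.eventually hj)

theorem CPush_one {p : ℝ} (hp : 0 < p) {Ω : Set (Rn 3)} (hΩ : IsOpen Ω) {G : Rn 3 → Rn 3}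
    (hG : LTP Ω G) {Ψ : Rn 2 → Rn 3} (hΨ : TP Ψ) {A : Set (Rn 2)} (hA : MeasurableSet A)
    (hm : MapsTo Ψ A Ω) (N : Rn 3 ≃L[ℝ] Rn 3) {a c c' : ℝ} (ha : 0 ≤ a) (hc : 0 ≤ c)
    (hc' : 0 ≤ c') (h1 : ∀ x ∈ A, LL (fun y => N.symm (Ψ y)) x c)
    (h2 : ∀ x ∈ A, ∀ y ∈ A, ‖x - y‖ ≤ c' * ‖N.symm (Ψ x - Ψ y)‖) (k : Ch) (hU : IsOpen k.U)
    (hB : k.Bi N a) : ∃ S : Set (Rn 2), (∀ x ∈ A, Ψ x ∈ k.φ '' k.U → x ∈ S) ∧
      ∫⁻ x in S, ‖fderiv ℝ (G ∘ Ψ) x‖ₑ ^ p ≤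
        ENNReal.ofReal ((a * c) ^ p * (a * c') ^ 2) * k.E p G := by
  have hinj : LinearMap.ker (k.M : Rn 2 →ₗ[ℝ] Rn 3) = ⊥ := by
    refine LinearMap.ker_eq_bot'.2 fun ξ e => ?_
    have h3 := (hB ξ).2
    have e' : k.M ξ = 0 := e
    rw [e', map_zero, norm_zero, mul_zero] at h3
    exact norm_le_zero_iff.1 h3
  obtain ⟨l, hl⟩ := LinearMap.exists_leftInverse_of_injective _ hinj
  obtain ⟨ψ, tψ, hψ⟩ : ∃ ψ : Rn 2 → Rn 2, TP ψ ∧ ∀ x ξ, Ψ x = k.φ ξ → ψ x = ξ := by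
    refine ⟨fun x => LinearMap.toContinuousLinearMap l (Ψ x - k.o),
      (TP.clm _).comp (hΨ.sub (TP.const _)), fun x ξ e => ?_⟩
    show l (Ψ x - k.o) = ξ
    rw [e, Ch.φ, add_sub_cancel_left]
    exact LinearMap.congr_fun hl ξ
  have tφ : TP k.φ := (TP.const k.o).add (TP.clm k.M)
  have hM : ∀ x y, Ψ x = k.φ (ψ x) → Ψ y = k.φ (ψ y) → Ψ x - Ψ y = k.M (ψ x - ψ y) :=
    fun x y e e' => by
      rw [e, e', Ch.φ, Ch.φ, map_sub, add_sub_add_left_eq_sub]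
  obtain ⟨S, hS⟩ : ∃ S : Set (Rn 2), S = A ∩ ({x | Ψ x = k.φ (ψ x)} ∩ ψ ⁻¹' k.U) := ⟨_, rfl⟩
  have mS : MeasurableSet S := by
    rw [hS]
    exact hA.inter ((isClosed_eq hΨ.continuous
      (tφ.continuous.comp tψ.continuous)).measurableSet.inter
      (hU.preimage tψ.continuous).measurableSet)
  have iS : ∀ x, x ∈ S ↔ x ∈ A ∧ Ψ x = k.φ (ψ x) ∧ ψ x ∈ k.U := fun x => by
    rw [hS]
    exact Iff.rfl
  have hac : 0 ≤ a * c := mul_nonneg ha hc
  have hac' : 0 ≤ a * c' := mul_nonneg ha hc'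
  have hlow : ∀ x ∈ S, ∀ y ∈ S, ‖x - y‖ ≤ a * c' * ‖ψ x - ψ y‖ := fun x hx y hy => by
    have h3 := h2 x ((iS x).1 hx).1 y ((iS y).1 hy).1
    rw [hM x y ((iS x).1 hx).2.1 ((iS y).1 hy).2.1] at h3
    rw [mul_comm a, mul_assoc]
    exact h3.trans (mul_le_mul_of_nonneg_left (hB _).1 hc')
  have hd : ∀ᵐ x, x ∈ S → k.φ (ψ x) ∈ Ω → DifferentiableAt ℝ (G ∘ k.φ) (ψ x) := by
    have h3 := CPush_vol hac' hlow {ξ | ¬ (k.φ ξ ∈ Ω → DifferentiableAt ℝ (G ∘ k.φ) ξ)}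
    rw [ae_iff.1 (CPush_diff hΩ hG tφ), mul_zero] at h3
    filter_upwards [measure_eq_zero_iff_ae_notMem.1 (le_zero_iff.1 h3)] with x hx hxS
    by_contra hn
    exact hx ⟨hxS, hn⟩
  have hψd : ∀ᵐ x, DifferentiableAt ℝ ψ x := by
    obtain ⟨L, hL⟩ := tψ.lip
    exact hL.ae_differentiableAt
  have key : ∀ᵐ x, x ∈ S → ‖fderiv ℝ (G ∘ Ψ) x‖ₑ ^ p ≤
      ENNReal.ofReal ((a * c) ^ p) * ‖fderiv ℝ (G ∘ k.φ) (ψ x)‖ₑ ^ p := by
    filter_upwards [hd, hψd, (hΨ.sub (tφ.comp tψ)).ae_ne_or] with x d1 d2 d3 hx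
    obtain ⟨xA, xe, -⟩ := (iS x).1 hx
    have d4 : ∀ᶠ y in 𝓝 x, Ψ y = k.φ (ψ y) :=
      (d3.resolve_left (not_not.2 (sub_eq_zero.2 xe))).mono fun y hy => sub_eq_zero.1 hy
    have d5 : G ∘ Ψ =ᶠ[𝓝 x] (G ∘ k.φ) ∘ ψ := d4.mono fun y hy => congrArg G hy
    have d6 : ‖fderiv ℝ ψ x‖ ≤ a * c := by
      obtain ⟨r, hr, h3⟩ := (h1 x xA).exists_ball
      refine norm_fderiv_le_of_lip' ℝ hac ?_
      filter_upwards [d4, ball_mem_nhds x hr] with y e hy
      have h4 := h3 y hy x (mem_ball_self hr)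
      rw [← map_sub, hM y x e xe] at h4
      rw [mul_assoc]
      exact (hB _).2.trans (mul_le_mul_of_nonneg_left h4 ha)
    have d7 : ‖fderiv ℝ (G ∘ Ψ) x‖ ≤ a * c * ‖fderiv ℝ (G ∘ k.φ) (ψ x)‖ := by
      rw [d5.fderiv_eq, fderiv_comp x (d1 hx (xe ▸ hm xA)) d2, mul_comm]
      exact (ContinuousLinearMap.opNorm_comp_le _ _).trans
        (mul_le_mul_of_nonneg_left d6 (norm_nonneg _))
    rw [← ENNReal.ofReal_rpow_of_nonneg hac hp.le, ← ENNReal.mul_rpow_of_nonneg _ _ hp.le,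
      ← ofReal_norm, ← ofReal_norm, ← ENNReal.ofReal_mul hac]
    exact ENNReal.rpow_le_rpow (ENNReal.ofReal_le_ofReal d7) hp.le
  refine ⟨S, fun x hx ⟨ξ, hξ, e⟩ => (iS x).2 ⟨hx, ?_, ?_⟩, ?_⟩
  · rw [hψ x ξ e.symm, e]
  · rw [hψ x ξ e.symm]
    exact hξ
  refine (lintegral_mono_ae ((ae_restrict_iff' mS).2 key)).trans ?_
  rw [lintegral_const_mul' _ _ ENNReal.ofReal_ne_top,
    ENNReal.ofReal_mul (Real.rpow_nonneg hac p), mul_assoc]
  exact mul_le_mul' le_rfl (lint_push mS hU.measurableSet tψ.continuous.measurable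
    (fun x hx => ((iS x).1 hx).2.2) hac' hlow
    (φ := fun ξ => ‖fderiv ℝ (G ∘ k.φ) ξ‖ₑ ^ p)
    ((measurable_fderiv ℝ (G ∘ k.φ)).enorm.pow_const p))

theorem tan_le {p : ℝ} (hp : 0 < p) {Ω : Set (Rn 3)} (hΩ : IsOpen Ω) {G : Rn 3 → Rn 3}
    (hG : LTP Ω G) {Ψ : Rn 2 → Rn 3} (hΨ : TP Ψ) {A : Set (Rn 2)} (hA : MeasurableSet A)
    (hm : MapsTo Ψ A Ω) (N : Rn 3 ≃L[ℝ] Rn 3) {a c c' : ℝ} (ha : 0 ≤ a) (hc : 0 ≤ c)
    (hc' : 0 ≤ c') (h1 : ∀ x ∈ A, LL (fun y => N.symm (Ψ y)) x c)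
    (h2 : ∀ x ∈ A, ∀ y ∈ A, ‖x - y‖ ≤ c' * ‖N.symm (Ψ x - Ψ y)‖) {κ : Type} [Countable κ]
    (k : κ → Ch) (hk : ∀ i, IsOpen (k i).U ∧ (k i).Bi N a) {Z : Set (Rn 3)} (hZ : μH[2] Z = 0)
    (hcov : ∀ x ∈ A, Ψ x ∈ Z ∨ ∃ i, Ψ x ∈ (k i).φ '' (k i).U) :
    ∫⁻ x in A, ‖fderiv ℝ (G ∘ Ψ) x‖ₑ ^ p ≤
      ENNReal.ofReal ((a * c) ^ p * (a * c') ^ 2) * ∑' i, (k i).E p G := by
  choose S hS hc2 using fun i =>
    CPush_one hp hΩ hG hΨ hA hm N ha hc hc' h1 h2 (k i) (hk i).1 (hk i).2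
  have hZ' : volume (A ∩ Ψ ⁻¹' Z) = 0 := by
    have h3 : ∀ x ∈ A, ∀ y ∈ A,
        ‖x - y‖ ≤ c' * ‖(N.symm : Rn 3 →L[ℝ] Rn 3)‖ * ‖Ψ x - Ψ y‖ := fun x hx y hy => by
      rw [mul_assoc]
      exact (h2 x hx y hy).trans (mul_le_mul_of_nonneg_left
        ((N.symm : Rn 3 →L[ℝ] Rn 3).le_opNorm _) hc')
    have h4 := CPush_haus h3 (d := (Fintype.card (Fin 2) : ℝ)) (Nat.cast_nonneg _) Z
    rw [hausdorffMeasure_pi_real, Fintype.card_fin, Nat.cast_ofNat, hZ, mul_zero] at h4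
    exact le_zero_iff.1 h4
  have hsub : A ≤ᵐ[volume] (⋃ i, S i : Set (Rn 2)) := by
    filter_upwards [measure_eq_zero_iff_ae_notMem.1 hZ'] with x hx hxA
    rcases hcov x hxA with h | ⟨i, h⟩
    · exact (hx ⟨hxA, h⟩).elim
    · exact mem_iUnion.2 ⟨i, hS i x hxA h⟩
  refine (lintegral_mono_set' hsub).trans ((lintegral_iUnion_le _ _).trans ?_)
  rw [← ENNReal.tsum_mul_left]
  exact ENNReal.tsum_le_tsum hc2

theorem tan_kx {p : ℝ} (hp : 0 < p) {Ω : Set (Rn 3)} (hΩ : IsOpen Ω) (K : Kx Ω) {G : Rn 3 → Rn 3}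
    (hG : LTP Ω G) {Ψ : Rn 2 → Rn 3} (hΨ : TP Ψ) {A : Set (Rn 2)} (hA : MeasurableSet A)
    (hm : MapsTo Ψ A (K.sk 2)) (N : Rn 3 ≃L[ℝ] Rn 3) {a c c' : ℝ} (ha : 0 ≤ a) (hc : 0 ≤ c)
    (hc' : 0 ≤ c') (h1 : ∀ x ∈ A, LL (fun y => N.symm (Ψ y)) x c)
    (h2 : ∀ x ∈ A, ∀ y ∈ A, ‖x - y‖ ≤ c' * ‖N.symm (Ψ x - Ψ y)‖) (ch : Set (Rn 3) → Ch)
    {T : Set (Set (Rn 3))} (hT : T ⊆ K.cel 2) (hk : ∀ F ∈ T, (ch F).Of F ∧ (ch F).Bi N a)
    (hcov : ∀ x ∈ A, K.cell (Ψ x) ∈ K.cel 2 → K.cell (Ψ x) ∈ T) :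
    ∫⁻ x in A, ‖fderiv ℝ (G ∘ Ψ) x‖ₑ ^ p ≤
      ENNReal.ofReal ((a * c) ^ p * (a * c') ^ 2) * ∑' F : T, (ch F).E p G := by
  have hc0 : T.Countable := (K.countable hΩ).mono fun F hF => (hT hF).1
  have : Countable T := hc0.to_subtype
  refine tan_le hp hΩ hG hΨ hA (fun x hx => K.sk_sub 2 (hm hx)) N ha hc hc' h1 h2
    (fun F : T => ch F) (fun F => ⟨(hk F F.2).1.2.1, (hk F F.2).2⟩) (K.sk_one_null hΩ)
    fun x hx => ?_
  obtain ⟨x1, x2⟩ := hm hx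
  by_cases h : dm (K.cell (Ψ x)) ≤ 1
  · exact Or.inl ⟨x1, h⟩
  · have h3 : K.cell (Ψ x) ∈ T := hcov x hx ⟨K.cell_mem x1, by omega⟩
    refine Or.inr ⟨⟨_, h3⟩, ?_⟩
    rw [(hk _ h3).1.2.2]
    exact K.mem _ x1

end BEp
end
end

-- merged part: Pool.Agent.Work.MP_f0515e_an.P3.TS1
section
/-! The stretch in one unit cube. `stair θ` is monotone, `TP`, maps `[k, k+1]` to itself, is constant
(an integer) off the intervals of length `θ` around the half integers and has slope `1/θ` there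
(lemmas on `oext` in Per1). `str_cube`: write `T = loc d (str I θ)`. At almost every point each
coordinate `T i`, `i ∉ I`, coincides near the point with one of: the constants `z i`, `z i + 1`
(flat; `J` = the flat coordinates), `ξ i / θ + c` (transit), `ξ i + d ξ`, `ξ i - d ξ`. For fixed
modes `T = pjz J z' ∘ T'` with `T' i = ξ i` on `I ∪ J`; `T'` maps the region into the closed cube,
`‖ξ - ξ'‖ ≤ 2 ‖T' ξ - T' ξ'‖` (look at a coordinate where the norm is attained), and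
`‖D T' ∘ dgL I b‖ ≤ 2`. If all are flat the integrand is the first term. Otherwise use `lint_push`;
if `d = 1` on the cube only flat and transit modes occur, `T'` is diagonal with determinant at
least `1/θ`, which gives the factor `θ`. -/

open Set Metric Filter Topology Function BEv MeasureTheory
open scoped NNReal ENNReal

noncomputable section
namespace BEp

theorem TS1_adm {θ : ℝ} (h0 : 0 < θ) (h1 : θ ≤ 1) :
    BEv.Adm fun d => min (d / θ) (1 / 2) := by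
  refine ⟨by simp, min_eq_right ?_, fun d hd _ =>
    ⟨le_min (div_nonneg hd h0.le) (by norm_num), min_le_right _ _⟩⟩
  rw [le_div_iff₀ h0]
  linarith only [h1]

theorem TS1_stair {θ : ℝ} (h0 : 0 < θ) (h1 : θ ≤ 1) {k : ℤ} {t : ℝ} (ha : (k : ℝ) ≤ t)
    (hb : t ≤ k + 1) :
    stair θ t = max (k : ℝ) (min ((t - k - 1 / 2) / θ + (k + 1 / 2)) (k + 1)) := by
  rw [stair, oext_eq (TS1_adm h0 h1) (k := k) (abs_le.2 ⟨by linarith only [ha], by linarith only [hb]⟩)]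
  have e1 : (t - 1 / 2 - k) / θ = (t - k - 1 / 2) / θ := by ring
  have e2 : (k - (t - 1 / 2)) / θ = -((t - k - 1 / 2) / θ) := by ring
  split_ifs with h
  · have : 0 ≤ (t - k - 1 / 2) / θ := div_nonneg (by linarith only [h]) h0.le
    rw [e1]
    generalize (t - k - 1 / 2) / θ = u at this
    simp only [max_def, min_def]
    split_ifs <;> linarith
  · have : (t - k - 1 / 2) / θ ≤ 0 := div_nonpos_of_nonpos_of_nonneg (by linarith only [h]) h0.le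
    rw [e2]
    generalize (t - k - 1 / 2) / θ = u at this
    simp only [max_def, min_def]
    split_ifs <;> linarith

theorem TS1_mono {θ : ℝ} (h0 : 0 < θ) (h1 : θ ≤ 1) {s t : ℝ} (h : t ≤ s) :
    stair θ t ≤ stair θ s := by
  have := oext_mono (TS1_adm h0 h1) (TS1_adm h0 h1) (s := s - 1 / 2) (t := t - 1 / 2) (by linarith only [h])
    (fun d d' _ _ k => min_le_min_right _ (div_le_div_of_nonneg_right (by linarith only [h, k]) h0.le))
    (fun d d' _ _ k => min_le_min_right _ (div_le_div_of_nonneg_right (by linarith only [h, k]) h0.le))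
  unfold stair
  linarith only [this]

theorem TS1_tps {θ : ℝ} (h0 : 0 < θ) (h1 : θ ≤ 1) : TP (stair θ) := by
  have ht : TP fun t : ℝ => t - 1 / 2 := TP.id'.sub (TP.const _)
  have hL : 1 ≤ 1 / θ := by rw [le_div_iff₀ h0]; linarith only [h1]
  refine (TP.const (1 / 2 : ℝ)).add (tp_oext (D := fun _ d => min (d / θ) (1 / 2)) ht
    (((tp_dd.comp ht).div_const θ).min (TP.const _)) ⟨⟨1 / θ, by linarith only [hL]⟩, ?_⟩)
  refine LipschitzWith.of_dist_le_mul fun s t => ?_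
  have := oext_lip (TS1_adm h0 h1) hL (fun d d' _ _ _ _ => by
    refine (abs_min_sub_min_le_max _ _ _ _).trans ?_
    rw [sub_self, abs_zero, ← sub_div, abs_div, abs_of_pos h0, one_div_mul_eq_div]
    exact max_le le_rfl (by positivity)) (s - 1 / 2) (t - 1 / 2)
  rw [sub_sub_sub_cancel_right] at this
  exact this

theorem tp_str (I : Finset (Fin 3)) {θ : ℝ} (h0 : 0 < θ) (h1 : θ ≤ 1) : TP (str I θ) := by
  refine TP.pi fun i => ?_
  by_cases hi : i ∈ I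
  · simpa only [str, if_pos hi] using (TP.id' (E := Rn 3)).apply i
  · simpa only [str, if_neg hi] using (TS1_tps h0 h1).comp ((TP.id' (E := Rn 3)).apply i)

theorem accr_str (I : Finset (Fin 3)) {θ : ℝ} (h0 : 0 < θ) (h1 : θ ≤ 1) : Accr (str I θ) := by
  intro x y i h
  have k : y i ≤ x i := by linarith [norm_nonneg (x - y)]
  unfold str
  split_ifs
  · exact k
  · exact TS1_mono h0 h1 k

theorem loc_str_mem (I : Finset (Fin 3)) {θ : ℝ} (h0 : 0 < θ) (h1 : θ ≤ 1) {d : Rn 3 → ℝ}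
    {ξ : Rn 3} (hd : 0 ≤ d ξ) {z : I3} (h : ∀ i, (z i : ℝ) ≤ ξ i ∧ ξ i ≤ z i + 1) (i : Fin 3) :
    (z i : ℝ) ≤ loc d (str I θ) ξ i ∧ loc d (str I θ) ξ i ≤ z i + 1 := by
  have k : (z i : ℝ) ≤ str I θ ξ i ∧ str I θ ξ i ≤ z i + 1 := by
    unfold str
    split_ifs
    · exact h i
    · rw [TS1_stair h0 h1 (h i).1 (h i).2]
      exact ⟨le_max_left _ _, max_le (by linarith) (min_le_right _ _)⟩
  have := h i
  exact ⟨le_max_of_le_right (le_min k.1 (by linarith)),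
    max_le (by linarith) ((min_le_left _ _).trans k.2)⟩

/-- The possible local forms of a coordinate of the stretch. -/
def TS1_md (θ : ℝ) (d : Rn 3 → ℝ) (z : I3) (i : Fin 3) : Fin 6 → Rn 3 → ℝ :=
  ![fun _ => z i, fun _ => z i + 1, fun ξ => (ξ i - z i - 1 / 2) / θ + (z i + 1 / 2),
    fun ξ => ξ i + d ξ, fun ξ => ξ i - d ξ, fun ξ => ξ i]

theorem TS1_tp (θ : ℝ) {d : Rn 3 → ℝ} (hd : TP d) (z : I3) (i : Fin 3) (a : Fin 6) :
    TP (TS1_md θ d z i a) := by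
  have hi : TP fun ξ : Rn 3 => ξ i := TP.id'.apply i
  fin_cases a
  · exact TP.const _
  · exact TP.const _
  · exact (((hi.sub (TP.const _)).sub (TP.const _)).div_const θ).add (TP.const _)
  · exact hi.add hd
  · exact hi.sub hd
  · exact hi

theorem TS1_tr (θ : ℝ) (d : Rn 3 → ℝ) (z : I3) (i : Fin 3) (x y : Rn 3) :
    TS1_md θ d z i 2 x - TS1_md θ d z i 2 y = (x i - y i) / θ := by
  show (x i - z i - 1 / 2) / θ + (z i + 1 / 2) - ((y i - z i - 1 / 2) / θ + (z i + 1 / 2)) = _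
  ring

theorem TS1_low {θ : ℝ} (h0 : 0 < θ) (h1 : θ ≤ 1) {d : Rn 3 → ℝ}
    (hd : ∀ x y, |d x - d y| ≤ ‖x - y‖ / 2) (z : I3) (i : Fin 3) {a : Fin 6} (ha : 2 ≤ a)
    (x y : Rn 3) : |x i - y i| - ‖x - y‖ / 2 ≤ |TS1_md θ d z i a x - TS1_md θ d z i a y| := by
  have n0 := norm_nonneg (x - y)
  have k := hd x y
  fin_cases a
  · exact absurd ha (by decide)
  · exact absurd ha (by decide)
  · show _ ≤ |TS1_md θ d z i 2 x - TS1_md θ d z i 2 y|
    rw [TS1_tr, abs_div, abs_of_pos h0]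
    have := le_div_self (abs_nonneg (x i - y i)) h0 h1
    linarith only [n0, this]
  · show _ ≤ |x i + d x - (y i + d y)|
    have := abs_sub (x i + d x - (y i + d y)) (d x - d y)
    rw [show x i + d x - (y i + d y) - (d x - d y) = x i - y i by ring] at this
    linarith only [k, this]
  · show _ ≤ |x i - d x - (y i - d y)|
    have := abs_add_le (x i - d x - (y i - d y)) (d x - d y)
    rw [show x i - d x - (y i - d y) + (d x - d y) = x i - y i by ring] at this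
    linarith only [k, this]
  · show _ ≤ |x i - y i|
    linarith only [n0]

theorem TS1_dg (I : Finset (Fin 3)) (b : ℝ) (v : Rn 3) (i : Fin 3) :
    dgL I b v i = if i ∈ I then v i else b⁻¹ * v i := by
  unfold dgL
  rw [ContinuousLinearMap.pi_apply]
  split_ifs <;> rfl

theorem TS1_dgn (I : Finset (Fin 3)) {b : ℝ} (hb : 1 ≤ b) (v : Rn 3) : ‖dgL I b v‖ ≤ ‖v‖ := by
  refine (pi_norm_le_iff_of_nonneg (norm_nonneg v)).2 fun i => ?_
  rw [TS1_dg]
  split_ifs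
  · exact norm_le_pi_norm v i
  · rw [norm_mul, Real.norm_of_nonneg (inv_nonneg.2 (by linarith))]
    exact (mul_le_of_le_one_left (norm_nonneg _) (inv_le_one_of_one_le₀ hb)).trans
      (norm_le_pi_norm v i)

theorem TS1_up {θ b : ℝ} (h0 : 0 < θ) (h1 : θ ≤ 1) (hb : 1 ≤ θ * b) {d : Rn 3 → ℝ}
    (hd : ∀ x y, |d x - d y| ≤ ‖x - y‖ / 2) (z : I3) (I : Finset (Fin 3)) (i : Fin 3) {a : Fin 6}
    (hI : i ∈ I → a = 5) (x v : Rn 3) :
    |TS1_md θ d z i a (x + dgL I b v) - TS1_md θ d z i a x| ≤ 2 * ‖v‖ := by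
  have n0 := norm_nonneg v
  have b0 : 0 < b := by
    by_contra k
    linarith only [hb, h0, k, mul_nonneg_of_nonpos_of_nonpos (le_of_lt (Mathlib.Tactic.Linarith.sub_neg_of_lt h0)) (Mathlib.Tactic.Linarith.sub_nonpos_of_le (le_of_not_gt k))]
  have b1 : 1 ≤ b := by nlinarith
  have k := hd (x + dgL I b v) x
  rw [add_sub_cancel_left] at k
  have k1 := TS1_dgn I b1 v
  have k2 : |dgL I b v i| ≤ ‖v‖ := (norm_le_pi_norm (dgL I b v) i).trans k1
  fin_cases a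
  · show |(z i : ℝ) - z i| ≤ _
    rw [sub_self, abs_zero]
    linarith only [n0]
  · show |(z i : ℝ) + 1 - (z i + 1)| ≤ _
    rw [sub_self, abs_zero]
    linarith only [n0]
  · show |TS1_md θ d z i 2 _ - TS1_md θ d z i 2 x| ≤ _
    have hi : i ∉ I := fun h => absurd (hI h) (by decide)
    rw [TS1_tr, Pi.add_apply, add_sub_cancel_left, TS1_dg, if_neg hi, abs_div, abs_mul,
      abs_of_pos h0, abs_of_pos (inv_pos.2 b0), div_le_iff₀ h0, inv_mul_le_iff₀ b0]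
    have k3 : |v i| ≤ ‖v‖ := norm_le_pi_norm v i
    linarith only [n0, k3, hb, mul_le_mul_of_nonneg_right hb n0]
  · show |x i + dgL I b v i + d (x + dgL I b v) - (x i + d x)| ≤ _
    have := abs_add_le (dgL I b v i) (d (x + dgL I b v) - d x)
    rw [show x i + dgL I b v i + d (x + dgL I b v) - (x i + d x) =
      dgL I b v i + (d (x + dgL I b v) - d x) by ring]
    linarith only [n0, k, k1, k2, this]
  · show |x i + dgL I b v i - d (x + dgL I b v) - (x i - d x)| ≤ _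
    have := abs_sub (dgL I b v i) (d (x + dgL I b v) - d x)
    rw [show x i + dgL I b v i - d (x + dgL I b v) - (x i - d x) =
      dgL I b v i - (d (x + dgL I b v) - d x) by ring]
    linarith only [n0, k, k1, k2, this]
  · show |x i + dgL I b v i - x i| ≤ _
    rw [add_sub_cancel_left]
    linarith only [n0, k2]

theorem TS1_sel (I : Finset (Fin 3)) {θ : ℝ} (h0 : 0 < θ) (h1 : θ ≤ 1) {d : Rn 3 → ℝ} {ξ : Rn 3}
    (hd : 0 ≤ d ξ) {z : I3} (h : ξ ∈ cu z) (i : Fin 3) :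
    ∃ a, loc d (str I θ) ξ i = TS1_md θ d z i a ξ ∧ (a = 5 ↔ i ∈ I) ∧
      (d ξ = 1 → i ∉ I → a ≤ 2) := by
  by_cases hi : i ∈ I
  · refine ⟨5, ?_, by simp [hi], fun _ h => absurd hi h⟩
    show max _ (min (str I θ ξ i) _) = ξ i
    rw [str, if_pos hi, min_eq_left (by linarith), max_eq_right (by linarith)]
  have e : loc d (str I θ) ξ i = max (ξ i - d ξ) (min (stair θ (ξ i)) (ξ i + d ξ)) := by
    rw [loc, str, if_neg hi]
  have hs := TS1_stair h0 h1 (h i).1.le (h i).2.le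
  have s1 : (z i : ℝ) ≤ stair θ (ξ i) := hs ▸ le_max_left _ _
  have s2 : stair θ (ξ i) ≤ z i + 1 := hs ▸ max_le (by linarith only []) (min_le_right _ _)
  have s3 : ∃ a : Fin 6, a ≤ 2 ∧ stair θ (ξ i) = TS1_md θ d z i a ξ := by
    rw [hs]
    rcases max_choice (z i : ℝ) (min ((ξ i - z i - 1 / 2) / θ + (z i + 1 / 2)) (z i + 1)) with
      k | k
    · exact ⟨0, by decide, k⟩
    rcases min_choice ((ξ i - z i - 1 / 2) / θ + (z i + 1 / 2)) (z i + 1) with k' | k'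
    · exact ⟨2, by decide, k.trans k'⟩
    · exact ⟨1, by decide, k.trans k'⟩
  have := h i
  by_cases c1 : stair θ (ξ i) < ξ i - d ξ
  · refine ⟨4, ?_, by simp [hi], fun k _ => absurd c1 (by linarith only [s1, this, c1, k])⟩
    rw [e]
    exact max_eq_left ((min_le_left _ _).trans c1.le)
  by_cases c2 : ξ i + d ξ < stair θ (ξ i)
  · refine ⟨3, ?_, by simp [hi], fun k _ => absurd c2 (by linarith only [s2, this, c2, k])⟩
    rw [e, min_eq_right c2.le]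
    exact max_eq_right (by linarith only [hd])
  obtain ⟨a, a2, ea⟩ := s3
  refine ⟨a, ?_, iff_of_false (fun k => absurd (k ▸ a2) (by decide)) hi, fun _ _ => a2⟩
  rw [e, min_eq_left (not_lt.1 c2), max_eq_right (not_lt.1 c1), ea]

theorem TS1_cu (z : I3) : cu z = Set.pi univ fun i => Ioo (z i : ℝ) (z i + 1) := by
  ext ξ
  simp [cu]

theorem TS1_open (z : I3) : IsOpen (cu z) := by
  rw [TS1_cu]
  exact isOpen_set_pi finite_univ fun _ _ => isOpen_Ioo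

theorem TS1_vol (z : I3) : volume (cu z) = 1 := by
  rw [TS1_cu, Real.volume_pi_Ioo]
  simp

/-- A map which does not depend on the coordinates off `I`. -/
theorem TS1_flat (I : Finset (Fin 3)) (b : ℝ) (G : Rn 3 → Rn 3) (z : I3) (ξ : Rn 3) :
    (fderiv ℝ (G ∘ pjz Iᶜ z) ξ).comp (dgL I b) = fderiv ℝ (G ∘ pjz Iᶜ z) ξ := by
  by_cases h : DifferentiableAt ℝ (G ∘ pjz Iᶜ z) ξ
  · have h1 : HasFDerivAt (fun y => ξ + dgL I b (y - ξ)) (dgL I b) ξ := by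
      have := ((dgL I b).hasFDerivAt.comp ξ ((hasFDerivAt_id ξ).sub_const ξ)).const_add ξ
      rwa [ContinuousLinearMap.comp_id] at this
    have h2 : HasFDerivAt (G ∘ pjz Iᶜ z) (fderiv ℝ (G ∘ pjz Iᶜ z) ξ) (ξ + dgL I b (ξ - ξ)) := by
      rw [sub_self, map_zero, add_zero]
      exact h.hasFDerivAt
    have h3 := h2.comp ξ h1
    have e : (G ∘ pjz Iᶜ z) ∘ (fun y => ξ + dgL I b (y - ξ)) = G ∘ pjz Iᶜ z := by
      funext y
      refine congrArg G (funext fun i => ?_)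
      by_cases hi : i ∈ I <;> simp [pjz, hi, TS1_dg]
    rw [e] at h3
    exact h3.fderiv.symm
  · rw [fderiv_zero_of_not_differentiableAt h, ContinuousLinearMap.zero_comp]

open Classical in
/-- The estimate on a region which a fixed expanding map sends to the cube. -/
theorem TS1_push {p : ℝ} (hp : 1 ≤ p) {T H : Rn 3 → Rn 3} (hT : TP T) (hH : TP H)
    (M B : Rn 3 →L[ℝ] Rn 3) {c : Fin 3 → ℝ} (hc : ∀ i, 0 < c i) {θ : ℝ} (h0 : 0 < θ)
    (hθ : 1 ≤ θ * ∏ i, c i) (h1 : ∀ x y i, c i * |x i - y i| ≤ 2 * ‖T x - T y‖)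
    (h2 : ∀ x v, ‖T (x + M v) - T x‖ ≤ 2 * ‖v‖) {A : Set (Rn 3)} (hA : MeasurableSet A) {z : I3}
    (hm : MapsTo T A (Icc (fun i => (z i : ℝ)) fun i => z i + 1)) :
    ∫⁻ ξ in A, ‖(fderiv ℝ (H ∘ T) ξ).comp M - B‖ₑ ^ p ≤ 2 ^ (p - 1) * 2 ^ p * 8 *
      (ENNReal.ofReal θ * ((∫⁻ ξ in cu z, ‖fderiv ℝ H ξ‖ₑ ^ p) + ‖B‖ₑ ^ p)) := by
  have p0 : 0 ≤ p := by linarith
  let φ : Rn 3 → ℝ≥0∞ := fun y =>
    (if DifferentiableAt ℝ H y then ‖fderiv ℝ H y‖ₑ ^ p else ⊤) + ‖B‖ₑ ^ p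
  have mφ : Measurable φ := (Measurable.ite (measurableSet_of_differentiableAt ℝ H)
    ((measurable_fderiv ℝ H).enorm.pow_const p) measurable_const).add_const _
  have key := lintegral_transport hT.continuous.measurable hA measurableSet_Icc hm hc
    zero_le_two (fun x _ y _ i => h1 x y i) mφ
  have e1 : ∫⁻ y in Icc (fun i => (z i : ℝ)) fun i => z i + 1, φ y =
      (∫⁻ ξ in cu z, ‖fderiv ℝ H ξ‖ₑ ^ p) + ‖B‖ₑ ^ p := by
    have e : cu z =ᵐ[volume] Icc (fun i => (z i : ℝ)) fun i => z i + 1 := by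
      rw [TS1_cu]
      exact Measure.univ_pi_Ioo_ae_eq_Icc
    rw [← setLIntegral_congr e, lintegral_add_right _ measurable_const, setLIntegral_const, TS1_vol,
      mul_one]
    congr 1
    obtain ⟨L, hL⟩ := hH.lip
    refine lintegral_congr_ae (ae_restrict_of_ae ?_)
    filter_upwards [hL.ae_differentiableAt (μ := volume)] with y hy using if_pos hy
  have e2 : ENNReal.ofReal ((2 : ℝ) ^ 3) = 8 := by norm_num
  rw [e1, e2] at key
  have k1 : ∫⁻ x in A, φ (T x) ≤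
      8 * (ENNReal.ofReal θ * ((∫⁻ ξ in cu z, ‖fderiv ℝ H ξ‖ₑ ^ p) + ‖B‖ₑ ^ p)) := by
    rw [mul_left_comm]
    refine le_trans ?_ (mul_le_mul_right key _)
    rw [← mul_assoc, ← ENNReal.ofReal_mul h0.le]
    exact le_mul_of_one_le_left' (ENNReal.one_le_ofReal.2 hθ)
  have t2 : (2 : ℝ≥0∞) ^ (p - 1) * 2 ^ p ≠ ⊤ :=
    ENNReal.mul_ne_top (ENNReal.rpow_ne_top_of_nonneg (by linarith) ENNReal.ofNat_ne_top)
      (ENNReal.rpow_ne_top_of_nonneg p0 ENNReal.ofNat_ne_top)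
  rw [mul_assoc]
  refine le_trans ?_ (mul_le_mul_right k1 _)
  rw [← lintegral_const_mul' _ _ t2]
  refine lintegral_mono_ae (ae_restrict_of_ae ?_)
  obtain ⟨L, hL⟩ := hT.lip
  filter_upwards [hL.ae_differentiableAt (μ := volume)] with ξ hξ
  have o2 : (1 : ℝ≥0∞) ≤ 2 ^ p := ENNReal.one_le_rpow (by norm_num) (by linarith)
  by_cases hd : DifferentiableAt ℝ H (T ξ)
  swap
  · have : φ (T ξ) = ⊤ := by simp only [φ, if_neg hd, top_add]
    rw [this, ENNReal.mul_top]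
    · exact le_top
    · exact mul_ne_zero (ENNReal.rpow_pos (by norm_num) ENNReal.ofNat_ne_top).ne'
        (zero_lt_one.trans_le o2).ne'
  have a1 : ‖(fderiv ℝ T ξ).comp M‖ ≤ 2 := by
    have b1 : HasFDerivAt T (fderiv ℝ T ξ) (ξ + M 0) := by
      rw [map_zero, add_zero]
      exact hξ.hasFDerivAt
    refine (b1.comp (0 : Rn 3) (M.hasFDerivAt.const_add ξ)).le_of_lip' zero_le_two
      (.of_forall fun v => ?_)
    rw [sub_zero, Function.comp_apply, Function.comp_apply, map_zero, add_zero]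
    exact h2 ξ v
  have a2 : ‖(fderiv ℝ (H ∘ T) ξ).comp M‖ₑ ≤ 2 * ‖fderiv ℝ H (T ξ)‖ₑ := by
    rw [fderiv_comp ξ hd hξ, ContinuousLinearMap.comp_assoc, ← ofReal_norm,
      ← ofReal_norm, ← ENNReal.ofReal_ofNat 2, ← ENNReal.ofReal_mul zero_le_two, mul_comm]
    exact ENNReal.ofReal_le_ofReal ((ContinuousLinearMap.opNorm_comp_le _ _).trans
      (mul_le_mul_of_nonneg_left a1 (norm_nonneg _)))
  have a3 : φ (T ξ) = ‖fderiv ℝ H (T ξ)‖ₑ ^ p + ‖B‖ₑ ^ p := by simp only [φ, if_pos hd]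
  refine (ENNReal.rpow_le_rpow (enorm_sub_le.trans (add_le_add_left a2 _)) p0).trans
    ((ENNReal.rpow_add_le_mul_rpow_add_rpow _ _ hp).trans ?_)
  rw [a3, mul_assoc, mul_add ((2 : ℝ≥0∞) ^ p), ENNReal.mul_rpow_of_nonneg _ _ p0]
  exact mul_le_mul_right (add_le_add_right (le_mul_of_one_le_left' o2) _) _

theorem TS1_pj (J : Finset (Fin 3)) (z : I3) : TP (pjz J z) := by
  refine TP.pi fun i => ?_
  by_cases hi : i ∈ J
  · simpa only [pjz, if_pos hi] using TP.const (E := Rn 3) (z i : ℝ)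
  · simpa only [pjz, if_neg hi] using (TP.id' (E := Rn 3)).apply i

theorem str_cube {p : ℝ} (hp : 1 ≤ p) : ∃ C : ℝ≥0∞, C ≠ ⊤ ∧ ∀ (I : Finset (Fin 3)) (θ θ' b : ℝ)
    (d : Rn 3 → ℝ) (G : Rn 3 → Rn 3) (B : Rn 3 →L[ℝ] Rn 3) (z : I3), 0 < θ → θ ≤ 1 → 1 ≤ θ * b →
    TP d → (∀ x y, |d x - d y| ≤ ‖x - y‖ / 2) → (∀ x, 0 ≤ d x) → TP G →
    (θ' = 1 ∨ θ' = θ ∧ ∀ ξ ∈ cu z, d ξ = 1) →
    ∫⁻ ξ in cu z, ‖(fderiv ℝ (G ∘ loc d (str I θ)) ξ).comp (dgL I b) - B‖ₑ ^ p ≤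
      C * ((∑ z' ∈ cnr I z, ∫⁻ ξ in cu z, ‖fderiv ℝ (G ∘ pjz Iᶜ z') ξ - B‖ₑ ^ p) +
        ENNReal.ofReal θ' * ((∑ J ∈ Iᶜ.ssubsets, ∑ z' ∈ cnr I z,
          ∫⁻ ξ in cu z, ‖fderiv ℝ (G ∘ pjz J z') ξ‖ₑ ^ p) + ‖B‖ₑ ^ p)) := by
  obtain ⟨C0, hC0⟩ : ∃ C0 : ℝ≥0∞, C0 = 2 ^ (p - 1) * 2 ^ p * 8 := ⟨_, rfl⟩
  have t0 : C0 ≠ ⊤ := hC0 ▸ ENNReal.mul_ne_top (ENNReal.mul_ne_top
    (ENNReal.rpow_ne_top_of_nonneg (by linarith) ENNReal.ofNat_ne_top)
    (ENNReal.rpow_ne_top_of_nonneg (by linarith) ENNReal.ofNat_ne_top)) ENNReal.ofNat_ne_top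
  refine ⟨(Fintype.card (Fin 3 → Fin 6) : ℝ≥0∞) * (1 + C0),
    ENNReal.mul_ne_top (ENNReal.natCast_ne_top _) (ENNReal.add_ne_top.2 ⟨ENNReal.one_ne_top, t0⟩),
    fun I θ θ' b d G B z h0 h1 hb hd hl hn hG hθ => ?_⟩
  have hT : TP (loc d (str I θ)) := (tp_str I h0 h1).loc hd
  have hTm : ∀ m : Fin 3 → Fin 6, TP fun ξ i => TS1_md θ d z i (m i) ξ := fun m =>
    TP.pi fun i => TS1_tp θ hd z i (m i)
  let A : (Fin 3 → Fin 6) → Set (Rn 3) := fun m =>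
    {ξ | ∀ i, (m i = 5 ↔ i ∈ I) ∧ ((∀ ξ ∈ cu z, d ξ = 1) → i ∉ I → m i ≤ 2)} ∩
      (cu z ∩ {ξ | loc d (str I θ) ξ = fun i => TS1_md θ d z i (m i) ξ})
  have cov : cu z ⊆ ⋃ m, A m := fun ξ hξ => by
    choose m e1 e2 e3 using TS1_sel I h0 h1 (hn ξ) hξ
    exact mem_iUnion.2 ⟨m, fun i => ⟨e2 i, fun k => e3 i (k ξ hξ)⟩, hξ, funext e1⟩
  refine (lintegral_mono_set cov).trans ((lintegral_iUnion_le _ _).trans ?_)
  rw [tsum_fintype, mul_assoc, ← nsmul_eq_mul, ← Finset.card_univ]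
  refine Finset.sum_le_card_nsmul _ _ _ fun m _ => ?_
  by_cases hm : ∀ i, (m i = 5 ↔ i ∈ I) ∧ ((∀ ξ ∈ cu z, d ξ = 1) → i ∉ I → m i ≤ 2)
  swap
  · have : A m = ∅ := eq_empty_of_forall_notMem fun ξ hξ => hm hξ.1
    rw [this, Measure.restrict_empty, lintegral_zero_measure]
    exact bot_le
  have mA : MeasurableSet (A m) := (MeasurableSet.const _).inter ((TS1_open z).measurableSet.inter
    (isClosed_eq hT.continuous (hTm m).continuous).measurableSet)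
  obtain ⟨J, hJ⟩ : ∃ J : Finset (Fin 3), ∀ i, i ∈ J ↔ m i ≤ 1 :=
    ⟨Finset.univ.filter fun i => m i ≤ 1, fun i => by simp⟩
  obtain ⟨z', hz'⟩ : ∃ z' : I3, ∀ i, z' i = if m i = 1 then z i + 1 else z i := ⟨_, fun _ => rfl⟩
  obtain ⟨m', hm'⟩ : ∃ m' : Fin 3 → Fin 6, ∀ i, m' i = if m i ≤ 1 then 5 else m i :=
    ⟨_, fun _ => rfl⟩
  have hz : z' ∈ cnr I z := Fintype.mem_piFinset.2 fun i => by
    rw [hz']
    by_cases hi : i ∈ I
    · rw [if_pos hi, (hm i).1.2 hi, if_neg (by decide)]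
      exact Finset.mem_singleton_self _
    · rw [if_neg hi]
      split_ifs <;> simp
  have hJI : J ⊆ Iᶜ := fun i hi => Finset.mem_compl.2 fun k =>
    absurd ((hm i).1.2 k ▸ (hJ i).1 hi) (by decide)
  have m2 : ∀ i, 2 ≤ m' i := fun i => by
    rw [hm']
    split_ifs with k
    · decide
    · omega
  have fac : (fun ξ i => TS1_md θ d z i (m i) ξ) =
      pjz J z' ∘ fun ξ i => TS1_md θ d z i (m' i) ξ := by
    funext ξ i
    rw [Function.comp_apply, pjz, hz', hm']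
    by_cases k : m i ≤ 1
    · rw [if_pos ((hJ i).2 k)]
      by_cases k1 : m i = 1
      · rw [if_pos k1, k1, Int.cast_add, Int.cast_one]
        rfl
      · rw [if_neg k1, show m i = 0 by omega]
        rfl
    · rw [if_neg (fun k' => k ((hJ i).1 k')), if_neg k]
  have e0 : ∫⁻ ξ in A m, ‖(fderiv ℝ (G ∘ loc d (str I θ)) ξ).comp (dgL I b) - B‖ₑ ^ p =
      ∫⁻ ξ in A m, ‖(fderiv ℝ ((G ∘ pjz J z') ∘ fun ξ i => TS1_md θ d z i (m' i) ξ) ξ).comp
        (dgL I b) - B‖ₑ ^ p := by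
    refine setLIntegral_congr_fun_ae mA ?_
    filter_upwards [(hT.sub (hTm m)).ae_ne_or] with ξ hξ hA
    have k : loc d (str I θ) =ᶠ[𝓝 ξ] fun ξ i => TS1_md θ d z i (m i) ξ :=
      (hξ.resolve_left (not_not.2 (sub_eq_zero.2 hA.2.2))).mono fun y hy => sub_eq_zero.1 hy
    rw [Function.comp_assoc, ← fac, (k.fun_comp G).fderiv_eq]
  rw [e0, add_mul, one_mul]
  by_cases hJe : J = Iᶜ
  · have e1 : (fun ξ i => TS1_md θ d z i (m' i) ξ) = id := by
      funext ξ i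
      have : m' i = 5 := by
        rw [hm']
        split_ifs with k
        · rfl
        · exact (hm i).1.2 (by
            by_contra hi
            exact k ((hJ i).1 (hJe ▸ Finset.mem_compl.2 hi)))
      rw [this]
      rfl
    simp only [e1, Function.comp_id, hJe, TS1_flat]
    refine le_trans ?_ (le_self_add.trans le_self_add)
    exact (lintegral_mono_set fun ξ hξ => hξ.2.1).trans (Finset.single_le_sum
      (f := fun z' => ∫⁻ ξ in cu z, ‖fderiv ℝ (G ∘ pjz Iᶜ z') ξ - B‖ₑ ^ p) (fun _ _ => bot_le) hz)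
  have hss : J ∈ Iᶜ.ssubsets := Finset.mem_ssubsets.2 (Finset.ssubset_iff_subset_ne.2 ⟨hJI, hJe⟩)
  have θ0 : 0 < θ' := hθ.elim (fun k => k ▸ one_pos) fun k => k.1 ▸ h0
  have c1 : ∀ i, (1 : ℝ) ≤ if m' i = 2 then 1 / θ else 1 := fun i => by
    split_ifs
    · rw [le_div_iff₀ h0]; linarith
    · exact le_rfl
  have low : ∀ x y : Rn 3, ‖x - y‖ ≤
      2 * ‖(fun i => TS1_md θ d z i (m' i) x) - fun i => TS1_md θ d z i (m' i) y‖ := fun x y => by
    have k : ‖x - y‖ ≤ ‖(fun i => TS1_md θ d z i (m' i) x) - fun i => TS1_md θ d z i (m' i) y‖ +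
        ‖x - y‖ / 2 := (pi_norm_le_iff_of_nonneg (by positivity)).2 fun i => by
      have k1 := TS1_low h0 h1 hl z i (m2 i) x y
      have k2 : |TS1_md θ d z i (m' i) x - TS1_md θ d z i (m' i) y| ≤ _ := norm_le_pi_norm
        ((fun i => TS1_md θ d z i (m' i) x) - fun i => TS1_md θ d z i (m' i) y) i
      show |x i - y i| ≤ _
      linarith only [k1, k2]
    linarith
  have key := TS1_push hp (hTm m') (hG.comp (TS1_pj J z')) (dgL I b) B
    (c := fun i => if m' i = 2 then 1 / θ else 1) (fun i => one_pos.trans_le (c1 i)) θ0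
    (by
      rcases hθ with k | ⟨k, k'⟩
      · rw [k, one_mul]
        exact Finset.one_le_prod fun i _ => c1 i
      obtain ⟨j, j1, j2⟩ := Finset.exists_of_ssubset (Finset.mem_ssubsets.1 hss)
      have j3 : ¬ m j ≤ 1 := fun k => j2 ((hJ j).2 k)
      have j4 := (hm j).2 k' (Finset.mem_compl.1 j1)
      have j5 : m' j = 2 := by rw [hm', if_neg j3]; omega
      rw [← Finset.mul_prod_erase _ _ (Finset.mem_univ j), if_pos j5, k, ← mul_assoc,
        mul_one_div_cancel h0.ne', one_mul]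
      exact Finset.one_le_prod fun i _ => c1 i)
    (fun x y i => by
      have k2 : |TS1_md θ d z i (m' i) x - TS1_md θ d z i (m' i) y| ≤ _ := norm_le_pi_norm
        ((fun i => TS1_md θ d z i (m' i) x) - fun i => TS1_md θ d z i (m' i) y) i
      split_ifs with k
      · rw [k, TS1_tr, abs_div, abs_of_pos h0] at k2
        rw [one_div_mul_eq_div]
        exact k2.trans (le_mul_of_one_le_left (norm_nonneg _) one_le_two)
      · rw [one_mul]
        exact (norm_le_pi_norm (x - y) i).trans (low x y))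
    (fun x v => (pi_norm_le_iff_of_nonneg (by positivity)).2 fun i =>
      TS1_up h0 h1 hb hl z I i (fun k => by rw [hm', (hm i).1.2 k, if_neg (by decide)]) x v)
    mA (z := z) (fun ξ hξ => by
      have k : ∀ i, (z i : ℝ) ≤ TS1_md θ d z i (m' i) ξ ∧ TS1_md θ d z i (m' i) ξ ≤ z i + 1 :=
        fun i => by
          have k0 := fun i => And.intro (hξ.2.1 i).1.le (hξ.2.1 i).2.le
          rw [hm']
          split_ifs
          · exact k0 i
          · rw [← congrFun hξ.2.2 i]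
            exact loc_str_mem I h0 h1 (hn ξ) k0 i
      exact ⟨fun i => (k i).1, fun i => (k i).2⟩)
  rw [← hC0] at key
  refine key.trans (le_add_left (mul_le_mul_right (le_add_left
    (mul_le_mul_right (add_le_add_left ?_ _) _)) _))
  exact (Finset.single_le_sum (f := fun z' => ∫⁻ ξ in cu z, ‖fderiv ℝ (G ∘ pjz J z') ξ‖ₑ ^ p)
    (fun _ _ => bot_le) hz).trans (Finset.single_le_sum
      (f := fun J => ∑ z' ∈ cnr I z, ∫⁻ ξ in cu z, ‖fderiv ℝ (G ∘ pjz J z') ξ‖ₑ ^ p)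
      (fun _ _ => bot_le) hss)

end BEp
end
end

-- merged part: Pool.Agent.Work.MP_f0515e_an.P3.CE3
section
/-! The cone extension on one piece and the patch. -/

open Set Metric Filter Topology Function BEv MeasureTheory
open scoped NNReal ENNReal

noncomputable section
namespace BEp

variable {n : ℕ}

theorem CE_int {lo hi x : Rn n} : x ∈ interior (Icc lo hi) ↔ ∀ i, lo i < x i ∧ x i < hi i := by
  rw [← pi_univ_Icc, interior_pi_set finite_univ]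
  simp [interior_Icc]

theorem CE_fr {lo hi x : Rn n} :
    x ∈ frontier (Icc lo hi) ↔ x ∈ Icc lo hi ∧ ¬ ∀ i, lo i < x i ∧ x i < hi i := by
  rw [isClosed_Icc.frontier_eq, Set.mem_sdiff, CE_int]

theorem CE_ball {lo hi : Rn n} (h : ∀ i, lo i < hi i) : Ball (Icc lo hi) (frontier (Icc lo hi)) :=
  convex_ball (poly_Icc _ _) (convex_Icc _ _)
    ⟨fun i => (lo i + hi i) / 2, CE_int.2 fun i => ⟨by linarith only [h, h i], by linarith [h i]⟩⟩

theorem CE_two {B D₁ D₂ Q : Set (Rn n)} (b : Ball B (frontier B)) (h1 : Ball D₁ (frontier D₁))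
    (h2 : Ball D₂ (frontier D₂)) (u : D₁ ∪ D₂ = B) (i : D₁ ∩ D₂ = Q) (q1 : Q ⊆ frontier D₁)
    (q2 : Q ⊆ frontier D₂) (f1 : frontier D₁ ⊆ Q ∪ frontier B) (f2 : frontier D₂ ⊆ Q ∪ frontier B)
    {r : Rn n → Rn n} (hr : TP r) (hb : BijOn r Q Q) (hf : ∀ x ∈ Q, x ∈ frontier B → r x = x) :
    ∃ Φ, Mv (interior B) Φ ∧ EqOn Φ r Q := by
  obtain ⟨g, g1, g2, g3⟩ := tp_glue (i ▸ h1.poly.inter h2.poly : Poly Q) b.poly' hr TP.id'
    fun x hx => hf x hx.1 hx.2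
  have gb : BijOn g Q Q := hb.congr g2.symm
  have one : ∀ D, Ball D (frontier D) → Q ⊆ frontier D → frontier D ⊆ Q ∪ frontier B → D ⊆ B →
      ∃ Φ, LH Φ ∧ Φ '' D = D ∧ EqOn Φ r Q ∧ ∀ x ∈ D, x ∈ frontier B → Φ x = x := by
    intro D h q f s
    have e : BijOn g (frontier D \ Q) (frontier D \ Q) :=
      (bijOn_id _).congr fun x hx => (g3 ((f hx.1).resolve_left hx.2)).symm
    have bj : BijOn g (frontier D) (frontier D) := by
      have := gb.union e fun x hx y hy k => by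
        rcases hx with hx | hx <;> rcases hy with hy | hy
        · exact gb.2.1 hx hy k
        · exact ((e.1 hy).2 (k ▸ gb.1 hx)).elim
        · exact ((e.1 hx).2 (k ▸ gb.1 hy)).elim
        · exact e.2.1 hx hy k
      rwa [union_sdiff_cancel q] at this
    obtain ⟨Φ, a1, a2, a3⟩ := fill h h g1 bj
    refine ⟨Φ, a1, a2, fun x hx => (a3 (q hx)).trans (g2 hx), fun x hx k => (a3 ?_).trans (g3 k)⟩
    exact ⟨subset_closure hx, fun c => k.2 (interior_mono s c)⟩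
  obtain ⟨Φ, a1, a2, a3, a4⟩ := one D₁ h1 q1 f1 (u ▸ subset_union_left)
  obtain ⟨Ψ, b1, b2, b3, b4⟩ := one D₂ h2 q2 f2 (u ▸ subset_union_right)
  obtain ⟨k, k1, k2, k3⟩ := tp_glue h1.poly h2.poly a1.tp b1.tp
    fun x hx => (a3 (i ▸ hx)).trans (b3 (i ▸ hx)).symm
  have c1 : BijOn k D₁ D₁ := by
    have := pfill_bij a1 D₁
    rw [a2] at this
    exact this.congr k2.symm
  have c2 : BijOn k D₂ D₂ := by
    have := pfill_bij b1 D₂
    rw [b2] at this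
    exact this.congr k3.symm
  have kr : EqOn k r Q := fun x hx => (k2 (i ▸ hx : x ∈ D₁ ∩ D₂).1).trans (a3 hx)
  have mix : ∀ x ∈ D₁, ∀ y ∈ D₂, k x = k y → x = y := fun x hx y hy e => by
    obtain ⟨z, z1, z2⟩ := hb.2.2 (i ▸ ⟨c1.1 hx, e ▸ c2.1 hy⟩ : k x ∈ Q)
    have z3 : z ∈ D₁ ∩ D₂ := i ▸ z1
    rw [← kr z1] at z2
    rw [← c1.2.1 z3.1 hx z2, c2.2.1 z3.2 hy (z2.trans e)]
  have c3 : BijOn k B B := u ▸ c1.union c2 fun x hx y hy e => by
    rcases hx with hx | hx <;> rcases hy with hy | hy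
    exacts [c1.2.1 hx hy e, mix x hx y hy e, (mix y hy x hx e.symm).symm, c2.2.1 hx hy e]
  obtain ⟨Θ, t1, t2⟩ := lh_patch b.poly k1 c3 fun x hx => by
    rcases (u ▸ b.sub hx : x ∈ D₁ ∪ D₂) with c | c
    · rw [k2 c, a4 x c hx]
    · rw [k3 c, b4 x c hx]
  exact ⟨Θ, t1, fun x hx => (t2 (u ▸ Or.inl (i ▸ hx : x ∈ D₁ ∩ D₂).1)).trans (kr hx)⟩

theorem CE_slab {lo hi : Rn n} (h : ∀ i, lo i < hi i) {j : Fin n} {a : ℝ} (h1 : lo j < a)
    (h2 : a < hi j) {r : Rn n → Rn n} (hr : TP r)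
    (hb : BijOn r {x ∈ Icc lo hi | x j = a} {x ∈ Icc lo hi | x j = a})
    (hf : ∀ x ∈ Icc lo hi, x j = a → (¬ ∀ i, lo i < x i ∧ x i < hi i) → r x = x) :
    ∃ Φ, Mv (interior (Icc lo hi)) Φ ∧ EqOn Φ r {x ∈ Icc lo hi | x j = a} := by
  have m1 : ∀ x, x ∈ Icc (update lo j a) hi ↔ x ∈ Icc lo hi ∧ a ≤ x j := fun x => by
    simp only [mem_Icc, update_le_iff]
    refine ⟨fun k => ⟨⟨fun i => ?_, k.2⟩, k.1.1⟩, fun k => ⟨⟨k.2, fun i _ => k.1.1 i⟩, k.1.2⟩⟩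
    rcases eq_or_ne i j with rfl | c
    exacts [h1.le.trans k.1.1, k.1.2 i c]
  have m2 : ∀ x, x ∈ Icc lo (update hi j a) ↔ x ∈ Icc lo hi ∧ x j ≤ a := fun x => by
    simp only [mem_Icc, le_update_iff]
    refine ⟨fun k => ⟨⟨k.1, fun i => ?_⟩, k.2.1⟩, fun k => ⟨k.1.1, k.2, fun i _ => k.1.2 i⟩⟩
    rcases eq_or_ne i j with rfl | c
    exacts [k.2.1.trans h2.le, k.2.2 i c]
  refine CE_two (D₁ := Icc (update lo j a) hi) (D₂ := Icc lo (update hi j a)) (CE_ball h)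
    (CE_ball fun i => ?_) (CE_ball fun i => ?_) ?_ ?_ (fun x hx => ?_) (fun x hx => ?_)
    (fun x hx => ?_) (fun x hx => ?_) hr hb fun x hx k => hf x hx.1 hx.2 (CE_fr.1 k).2
  · rcases eq_or_ne i j with rfl | c
    · rwa [update_self]
    · rw [update_of_ne c]; exact h i
  · rcases eq_or_ne i j with rfl | c
    · rwa [update_self]
    · rw [update_of_ne c]; exact h i
  · ext x
    rw [mem_union, m1, m2, ← and_or_left]
    exact ⟨fun k => k.1, fun k => ⟨k, le_total _ _⟩⟩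
  · ext x
    rw [mem_inter_iff, m1, m2]
    exact ⟨fun k => ⟨k.1.1, k.2.2.antisymm k.1.2⟩, fun k => ⟨⟨k.1, k.2.ge⟩, k.1, k.2.le⟩⟩
  · refine CE_fr.2 ⟨(m1 x).2 ⟨hx.1, hx.2.ge⟩, fun k => ?_⟩
    have := (k j).1
    rw [update_self] at this
    exact this.ne' hx.2
  · refine CE_fr.2 ⟨(m2 x).2 ⟨hx.1, hx.2.le⟩, fun k => ?_⟩
    have := (k j).2
    rw [update_self] at this
    exact this.ne hx.2
  · rw [CE_fr, m1] at hx
    refine hx.1.2.eq_or_lt.imp (fun k => ⟨hx.1.1, k.symm⟩) fun k =>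
      CE_fr.2 ⟨hx.1.1, fun c => hx.2 fun i => ⟨?_, (c i).2⟩⟩
    rcases eq_or_ne i j with rfl | d
    · rwa [update_self]
    · rw [update_of_ne d]; exact (c i).1
  · rw [CE_fr, m2] at hx
    refine hx.1.2.eq_or_lt.imp (fun k => ⟨hx.1.1, k⟩) fun k =>
      CE_fr.2 ⟨hx.1.1, fun c => hx.2 fun i => ⟨(c i).1, ?_⟩⟩
    rcases eq_or_ne i j with rfl | d
    · rwa [update_self]
    · rw [update_of_ne d]; exact (c i).2

variable (P : Pc)

theorem CE_box (r e : ℝ) (x : Rn 3) :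
    x ∈ Icc (fun i => P.c i - if i ∈ P.I then r else e) (fun i => P.c i + if i ∈ P.I then r else e) ↔
      (∀ i, i ∉ P.I → |x i - P.c i| ≤ e) ∧ ∀ i ∈ P.I, |x i - P.c i| ≤ r := by
  simp only [mem_Icc, Pi.le_def, ← forall_and, abs_le]
  refine forall_congr' fun i => ?_
  by_cases c : i ∈ P.I <;> simp only [c, if_true, if_false, not_true, not_false_iff, true_imp_iff,
    false_imp_iff, true_and, and_true] <;> constructor <;> intro k <;> constructor <;>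
    linarith only [k, k.1, k.2]

theorem CE_Q (r : ℝ) : P.Q r =
    Icc (fun i => P.c i - if i ∈ P.I then r else 0) (fun i => P.c i + if i ∈ P.I then r else 0) := by
  ext x
  rw [CE_box]
  simp [Pc.Q, sub_eq_zero]

theorem CE_l : 0 < P.l := by unfold Pc.l; positivity

theorem CE_mono {r s : ℝ} (h : r ≤ s) : P.Q r ⊆ P.Q s :=
  fun _ hx => ⟨hx.1, fun i hi => (hx.2 i hi).trans h⟩

theorem CE_rx : P.ρ ≤ P.ρx := by
  unfold Pc.ρx
  split_ifs
  exacts [le_add_of_nonneg_right (CE_l P).le, le_rfl]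

theorem CE_lh : LH P.aff := by
  have : P.aff = fun x => P.A x + (P.y - P.A P.c) := by
    funext x; simp only [Pc.aff, map_sub]; abel
  rw [this]
  exact lh_aff _ _

theorem CE_sub (x y : Rn 3) : ‖P.aff x - P.aff y‖ ≤ ‖(P.A : Rn 3 →L[ℝ] Rn 3)‖ * ‖x - y‖ := by
  have : P.aff x - P.aff y = (P.A : Rn 3 →L[ℝ] Rn 3) (x - y) := by simp [Pc.aff]
  rw [this]
  exact ContinuousLinearMap.le_opNorm _ _

/-- The rim of a piece. -/
def CES : Set (Rn 3) := {x | x ∈ P.Q P.ρ ∧ ∃ i ∈ P.I, |x i - P.c i| = P.ρ}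

theorem CES_bd : CES P ⊆ P.Bd := fun _ hx => ⟨hx.1, fun _ => hx.2.imp fun _ k => k.2⟩

theorem CE_bx : P.Bd ⊆ P.Bx := fun _ hx => ⟨CE_mono P (CE_rx P) hx.1, hx.2⟩

theorem CE_mem (r : ℝ) (u : Rn 3) : P.c + P.l • u ∈ P.Q (r * P.l) ↔
    (∀ i, i ∉ P.I → u i = 0) ∧ ∀ i ∈ P.I, |u i| ≤ r := by
  have l := CE_l P
  simp [Pc.Q, l.ne', abs_mul, abs_of_pos l, mul_comm r, l]

theorem CE_x (I : Finset (Fin 3)) (N : ℤ) :
    CEx {u : Rn 3 | (∀ i, i ∉ I → u i = 0) ∧ ∀ i ∈ I, |u i| ≤ N} := fun u hu v hv => by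
  refine ⟨fun i hi => ?_, fun i hi => abs_le.2 ⟨?_, ?_⟩⟩
  · have a := hv.1 i
    have b := hv.2 i
    simp only [hu.1 i hi, Int.floor_zero, Int.ceil_zero, Int.cast_zero] at a b
    exact b.antisymm a
  · have a : ((-N : ℤ) : ℝ) ≤ ⌊u i⌋ :=
      Int.cast_le.2 (Int.le_floor.2 (by push_cast; exact (abs_le.1 (hu.2 i hi)).1))
    push_cast at a
    exact a.trans (hv.1 i)
  · exact (hv.2 i).trans (Int.cast_le.2 (Int.ceil_le.2 (abs_le.1 (hu.2 i hi)).2))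

theorem CE_lat {u v : Rn 3} (h : P.Lat (P.c + P.l • u) (P.c + P.l • v)) : CEs u v := fun i => by
  refine kbS_iff.2 fun m => ?_
  have l := CE_l P
  have := h i m
  simp only [Pi.add_apply, Pi.smul_apply, smul_eq_mul, add_sub_cancel_left, mul_comm P.l,
    mul_le_mul_iff_left₀ l] at this
  exact ⟨this.2.symm, this.1.symm⟩

theorem CE_k (hP : P.Ok) {H : Rn 3 → Rn 3} (hH : TP H) (hi : InjOn H (P.Q P.ρ))
    (bar : H '' P.Bd = P.aff '' P.Bd ∧ ∀ x ∈ P.Bd, ∀ x' ∈ P.Bd, H x = P.aff x' → P.Lat x x')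
    {L : ℝ} (hL : 1 ≤ L)
    (lip : ∀ W ⊆ P.Bx, Convex ℝ W → ∀ x ∈ W, ∀ x' ∈ W, ‖H x - H x'‖ ≤ L * ‖x - x'‖) :
    ∃ k, TP k ∧ BijOn k (P.Q P.ρ) (P.Q P.ρ) ∧ (∀ x ∈ CES P, P.aff (k x) = H x) ∧
      (∀ x ∈ P.Q (P.ρ - P.l), k x = x) ∧ (∀ x ∈ P.Q P.ρ, ‖k x - x‖ ≤ P.l) ∧
      ∀ x ∈ P.Q P.ρ, ∀ y ∈ P.Q P.ρ,
        ‖k x - k y‖ ≤ 85 * ((1 + ‖(P.A.symm : Rn 3 →L[ℝ] Rn 3)‖) * L) * ‖x - y‖ := by
  obtain ⟨N, -, hN⟩ := hP.rho
  have l := CE_l P
  obtain ⟨ε, hε⟩ : ∃ ε : Rn 3 → Rn 3, ε = fun u => P.c + P.l • u := ⟨_, rfl⟩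
  obtain ⟨ν, hν⟩ : ∃ ν : Rn 3 → Rn 3, ν = fun x => P.l⁻¹ • (x - P.c) := ⟨_, rfl⟩
  have εν : ∀ x, ε (ν x) = x := fun x => by simp [hε, hν, smul_smul, l.ne']
  have νε : ∀ x, ν (ε x) = x := fun x => by simp [hε, hν, smul_smul, l.ne']
  have εn : ∀ u v, ‖ε u - ε v‖ = P.l * ‖u - v‖ := fun u v => by
    simp only [hε, add_sub_add_left_eq_sub, ← smul_sub, norm_smul, Real.norm_of_nonneg l.le]
  have tε : TP ε := hε ▸ (TP.const _).add (TP.id'.const_smul _)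
  have tν : TP ν := hν ▸ (TP.id'.sub (TP.const _)).const_smul _
  have xq : ∀ M : ℤ, CEx (ε ⁻¹' P.Q (M * P.l)) := fun M => by
    convert CE_x P.I M using 1
    ext u
    rw [hε]
    exact CE_mem P M u
  have xQ : CEx (ε ⁻¹' P.Q P.ρ) := by simpa [hN] using xq N
  have xZ : CEx (ε ⁻¹' P.Q (P.ρ - P.l)) := by simpa [hN, sub_mul] using xq (N - 1)
  have ab : ∀ u i, |ε u i - P.c i| = P.ρ ↔ |u i| = N := fun u i => by
    simp [hε, hN, abs_mul, abs_of_pos l, mul_comm (N : ℝ), l.ne']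
  have xS : CEx (ε ⁻¹' CES P) := fun u hu v hv => by
    obtain ⟨i, hi, e⟩ := hu.2
    refine ⟨xQ u hu.1 hv, i, hi, ?_⟩
    rw [ab] at e ⊢
    have a := hv.1 i
    have b := hv.2 i
    rcases (abs_eq (Nat.cast_nonneg N)).1 e with p | p
    · simp only [p, Int.floor_natCast, Int.ceil_natCast, Int.cast_natCast] at a b
      rw [b.antisymm a, Nat.abs_cast]
    · simp only [p, Int.floor_neg, Int.ceil_neg, Int.floor_natCast, Int.ceil_natCast,
        Int.cast_natCast, Int.cast_neg] at a b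
      rw [b.antisymm a, abs_neg, Nat.abs_cast]
  obtain ⟨h, hh⟩ : ∃ h : Rn 3 → Rn 3, h = fun u => ν (invFun P.aff (H (ε u))) := ⟨_, rfl⟩
  have ah : ∀ u, P.aff (ε (h u)) = H (ε u) := fun u => by rw [hh, εν, (CE_lh P).ri]
  have εi : Injective ε := LeftInverse.injective νε
  have sm : ∀ u ∈ ε ⁻¹' CES P, CEs u (h u) := fun u hu => by
    obtain ⟨x, x1, x2⟩ : H (ε u) ∈ P.aff '' P.Bd := bar.1 ▸ mem_image_of_mem _ (CES_bd P hu)
    have := bar.2 _ (CES_bd P hu) x x1 x2.symm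
    rw [← ah] at x2
    rw [(CE_lh P).inj x2, hε] at this
    exact CE_lat P this
  have a0 := norm_nonneg (P.A.symm : Rn 3 →L[ℝ] Rn 3)
  obtain ⟨k, st, eq⟩ := CE_unit (L := (1 + ‖(P.A.symm : Rn 3 →L[ℝ] Rn 3)‖) * L) (h := h) xQ xS xZ
    (fun u hu => hu.1) (by
      have : Bornology.IsBounded (ν '' P.Q P.ρ) :=
        (IsCompact.image (CE_Q P _ ▸ isCompact_Icc) tν.continuous).isBounded
      exact this.subset fun u hu => ⟨_, hu, νε u⟩)
    ⟨hh ▸ tν.comp ((CE_lh P).tpi.comp (hH.comp tε)),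
      ⟨fun u hu => xS u hu (sm u hu).mem,
        fun u hu v hv e => εi (hi hu.1 hv.1 (by rw [← ah, ← ah, e])), fun v hv => by
        obtain ⟨x, x1, x2⟩ : P.aff (ε v) ∈ H '' P.Bd := bar.1 ▸ mem_image_of_mem _ (CES_bd P hv)
        have := bar.2 x x1 _ (CES_bd P hv) x2
        rw [← εν x] at this x2
        rw [hε] at this
        exact ⟨ν x, xS v hv (CE_lat P this).symm.mem, εi ((CE_lh P).inj ((ah _).trans x2))⟩⟩,
      sm, fun u hu hz => by
        obtain ⟨i, hi, e⟩ := hu.2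
        linarith only [l, e, hz, hi, hz.2 i hi],
      fun W hW hc u hu v hv => by
        have c : Convex ℝ (ε '' W) := by
          have := (hc.smul P.l).vadd P.c
          rwa [← image_smul, ← image_vadd, image_image, show (fun x => P.c +ᵥ P.l • x) = ε from
            hε.symm] at this
        have a := lip _ (by rintro _ ⟨w, hw, rfl⟩; exact CE_bx P (CES_bd P (hW hw))) c _
          (mem_image_of_mem _ hu) _ (mem_image_of_mem _ hv)
        have b : ε (h u) - ε (h v) = (P.A.symm : Rn 3 →L[ℝ] Rn 3) (H (ε u) - H (ε v)) := by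
          rw [← ah, ← ah]; simp [Pc.aff]
        have d := (P.A.symm : Rn 3 →L[ℝ] Rn 3).le_opNorm (H (ε u) - H (ε v))
        rw [← b, εn] at d
        rw [εn] at a
        have f := mul_le_mul_of_nonneg_left a a0
        have g : 0 ≤ L * (P.l * ‖u - v‖) := by positivity
        refine le_of_mul_le_mul_left ?_ l
        linarith only [d, f, g]⟩ (by linarith only [hL, a0, mul_nonneg_of_nonpos_of_nonpos (Mathlib.Tactic.Linarith.sub_nonpos_of_le hL) (Mathlib.Tactic.Linarith.sub_nonpos_of_le a0)])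
  have q : ∀ {A : Set (Rn 3)} {x}, x ∈ A → ν x ∈ ε ⁻¹' A := fun hx => by rwa [mem_preimage, εν]
  refine ⟨fun x => ε (k (ν x)), tε.comp (st.tp.comp tν), ⟨fun x hx => st.bij.1 (q hx),
    fun x hx y hy e => ?_, fun y hy => ?_⟩, fun x hx => ?_, fun x hx => ?_, fun x hx => ?_,
    fun x hx y hy => ?_⟩
  · rw [← εν x, st.bij.2.1 (q hx) (q hy) (εi e), εν]
  · obtain ⟨u, u1, u2⟩ := st.bij.2.2 (q hy)
    exact ⟨ε u, u1, by simp only [νε, u2, εν]⟩
  · simp only [eq (q hx), ah, εν]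
  · simp only [st.id _ (q (CE_mono P (by linarith) hx)) (q hx), εν]
  · have a := (CEb_iff.1 (st.sm _ (q hx)).mem).1
    have b := (CEb_iff.1 (CEb_self (ν x))).1
    have c := norm_sub_le_norm_sub_add_norm_sub (k (ν x)) (CEc (ν x)) (ν x)
    rw [norm_sub_rev (CEc (ν x))] at c
    have d := εn (k (ν x)) (ν x)
    rw [εν] at d
    rw [d]
    linarith only [l, a, b, c, mul_nonneg_of_nonpos_of_nonpos (le_of_lt (Mathlib.Tactic.Linarith.sub_neg_of_lt l)) (Mathlib.Tactic.Linarith.sub_nonpos_of_le a), mul_nonneg_of_nonpos_of_nonpos (le_of_lt (Mathlib.Tactic.Linarith.sub_neg_of_lt l)) (Mathlib.Tactic.Linarith.sub_nonpos_of_le b), mul_nonneg_of_nonpos_of_nonpos (le_of_lt (Mathlib.Tactic.Linarith.sub_neg_of_lt l)) (Mathlib.Tactic.Linarith.sub_nonpos_of_le c)]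
  · have c : Convex ℝ (ε ⁻¹' P.Q P.ρ) := by
      have := ((CE_Q P P.ρ ▸ convex_Icc _ _ : Convex ℝ (P.Q P.ρ)).translate_preimage_right
        P.c).smul_preimage P.l
      rwa [hε]
    have a := st.lip _ subset_rfl c _ (q hx) _ (q hy)
    have d := εn (ν x) (ν y)
    rw [εν, εν] at d
    rw [εn, d]
    linarith only [l, a, mul_nonneg_of_nonpos_of_nonpos (le_of_lt (Mathlib.Tactic.Linarith.sub_neg_of_lt l)) (Mathlib.Tactic.Linarith.sub_nonpos_of_le a)]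

end BEp
end
end

-- merged part: Pool.Agent.Work.MP_f0515e_an.P3.CE
section
/-! Cone extension on plates and solids.
Plan.  `S` = points of `Q ρ` with `|x i - c i| = ρ` for some `i ∈ I`; `h = aff⁻¹ ∘ H` is a TP bijection of `S` which keeps every lattice cell (`Lat`).
(1) `lip_cover`: a map that is `L`-Lipschitz on each of finitely many closed sets covering a convex set is `L`-Lipschitz on it (induction on the number of sets, last exit time).
(2) cone over one closed cell `{x | (∀ i ∉ J, x i = m i) ∧ ‖x - m‖ ≤ a}`: `pfill_cone0` for the norm, `k (m + t u) = m + t (h (m + u) - m)`; bijective, equal to `h` on the rim `‖x - m‖ = a`,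
the identity if `h` is, Lipschitz `1 + 2 L` if `h` is `L`-Lipschitz on the rim; `h` is `2 L`-Lipschitz on the rim if it is `L`-Lipschitz on each facet (go through `update x j (y j)`; opposite facets are at distance `2 a`).
(3) induction on the number `j = 0, 1, 2, 3` of non lattice coordinates: extend `h` over `S ∪ {x ∈ Q ρ | at most j non lattice coordinates}` by cones over the cells not in `S` (`tp_glue_fin`); constants `L, L, 1 + 4 L, 1 + 4 (1 + 4 L)`.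
Result `k`: TP, `BijOn k (Q ρ) (Q ρ)`, `k = h` on `S`, `k = id` on `Q (ρ - l)`, `‖k x - x‖ ≤ l`, Lipschitz `21 L` (with (1)).
(4) `H '' Q ρ = aff '' Q ρ` (plates: `bar`; solids: `Ball.eq_of_frontier`, `convex_ball`, invariance of domain), `r = H⁻¹ ∘ aff ∘ k` (`tp_linv`) is a TP bijection of `Q ρ`, the identity on `S`.
Solids: `lh_patch`.  Plates: `fill` on the two half boxes of `closure (Th e)` with boundary map `r` on the plate and the identity elsewhere (`tp_glue`), then `lh_patch`.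
On the ring `Φ = id`; cover `Q ρx` by the closed sets `Q ρ` and `(Th e)ᶜ` and use (1).  The blind recursion `L ↦ 1 + 4 L` three times gives `85 L`, still inside `ceC`.
`ce_all`: `e` so small that the closures of the `Th e` lie in `Ω` and miss each other and the other `Q ρx`; `mv_fam`; `G = H ∘ Φ`. -/

open Set Metric Filter Topology Function BEv MeasureTheory
open scoped NNReal ENNReal

noncomputable section
namespace BEp

/-- Thin open box around the open piece. -/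
def Pc.Th (P : Pc) (e : ℝ) : Set (Rn 3) :=
  {x | (∀ i ∈ P.I, |x i - P.c i| < P.ρ) ∧ ∀ i, i ∉ P.I → |x i - P.c i| < e}

/-- Loss in the Lipschitz constant. -/
def ceC (A : Rn 3 ≃L[ℝ] Rn 3) : ℝ :=
  100 * (1 + ‖(A : Rn 3 →L[ℝ] Rn 3)‖) * (1 + ‖(A.symm : Rn 3 →L[ℝ] Rn 3)‖)

theorem lip_cover {n m : ℕ} {W : Set (Rn n)} (hW : Convex ℝ W) {𝒞 : Set (Set (Rn n))}
    (hf : 𝒞.Finite) (hc : ∀ C ∈ 𝒞, IsClosed C) (cov : W ⊆ ⋃₀ 𝒞) {k : Rn n → Rn m} {L : ℝ}
    (h : ∀ C ∈ 𝒞, ∀ x ∈ C ∩ W, ∀ y ∈ C ∩ W, ‖k x - k y‖ ≤ L * ‖x - y‖) :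
    ∀ x ∈ W, ∀ y ∈ W, ‖k x - k y‖ ≤ L * ‖x - y‖ :=
  CE_cover hW hf hc cov h

theorem CE_card (P : Pc) (hc : 2 ≤ P.I.card) :
    P.I = Finset.univ ∨ (P.I.card = 2 ∧ ∃ j, ∀ i, i ∉ P.I ↔ i = j) := by
  generalize P.I = I at hc
  revert I
  decide

theorem CE_rho (P : Pc) (hP : P.Ok) : 0 < P.ρ := by
  obtain ⟨N, a, b⟩ := hP.rho
  have := CE_l P
  rw [b]
  positivity

theorem CE_img (P : Pc) (hP : P.Ok) (hc : 2 ≤ P.I.card) {H : Rn 3 → Rn 3} (hH : TP H)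
    (hi : InjOn H (P.Q P.ρ)) (bar : H '' P.Bd = P.aff '' P.Bd) :
    H '' P.Q P.ρ = P.aff '' P.Q P.ρ := by
  have r := CE_rho P hP
  rcases CE_card P hc with e | ⟨e, -⟩
  · have q : P.Q P.ρ = closedBall P.c P.ρ := by
      ext x
      simp [Pc.Q, e, dist_eq_norm, pi_norm_le_iff_of_nonneg r.le]
    have b : P.Bd = closedBall P.c P.ρ \ ball P.c P.ρ := by
      ext x
      simp only [Pc.Bd, q, e, mem_ofPred_eq, Set.mem_sdiff, mem_ball_iff_norm, pi_norm_lt_iff r,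
        Finset.card_univ, Fintype.card_fin, true_imp_iff, Pi.sub_apply, Real.norm_eq_abs,
        not_forall, not_lt, mem_closedBall_iff_norm, pi_norm_le_iff_of_nonneg r.le]
      exact and_congr_right fun k => exists_congr fun i => ⟨fun a => a.ge, (k i).antisymm⟩
    have o : H '' ball P.c P.ρ ⊆ interior (H '' closedBall P.c P.ρ) :=
      interior_maximal (image_mono ball_subset_closedBall)
        (inv_domain rfl isOpen_ball hH.continuous ((q ▸ hi).mono ball_subset_closedBall))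
    have k : IsCompact (H '' closedBall P.c P.ρ) := (isCompact_closedBall _ _).image hH.continuous
    have bl := (convex_ball (Poly.closedBall P.c P.ρ) (convex_closedBall _ _)
      ⟨P.c, ball_subset_interior_closedBall (mem_ball_self r)⟩).image (CE_lh P)
    rw [frontier_closedBall _ r.ne', ← closedBall_sdiff_ball, ← b, ← bar] at bl
    rw [q]
    refine bl.eq_of_frontier (by norm_num) k (fun y hy => ?_) ⟨_, o ⟨_, mem_ball_self r, rfl⟩⟩
    rw [k.isClosed.frontier_eq] at hy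
    obtain ⟨⟨x, x1, rfl⟩, x2⟩ := hy
    exact ⟨x, b ▸ ⟨x1, fun c => x2 (o ⟨x, c, rfl⟩)⟩, rfl⟩
  · have b : P.Bd = P.Q P.ρ := by
      ext x
      simp [Pc.Bd, e]
    rwa [b] at bar

theorem CE_patch (P : Pc) (hP : P.Ok) (hc : 2 ≤ P.I.card) {r : Rn 3 → Rn 3} (hr : TP r)
    (hb : BijOn r (P.Q P.ρ) (P.Q P.ρ)) (hs : ∀ x ∈ CES P, r x = x) {e : ℝ} (he : 0 < e) :
    ∃ Φ, Mv (P.Th e) Φ ∧ EqOn Φ r (P.Q P.ρ) := by
  have r0 := CE_rho P hP
  have th : ∀ x : Rn 3, (∀ i, (P.c i - if i ∈ P.I then P.ρ else e) < x i ∧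
      x i < P.c i + if i ∈ P.I then P.ρ else e) ↔ x ∈ P.Th e := fun x => by
    simp only [Pc.Th, mem_ofPred_eq, ← forall_and, abs_lt]
    refine forall_congr' fun i => ?_
    by_cases c : i ∈ P.I <;> simp only [c, if_true, if_false, not_true, not_false_iff, true_imp_iff,
      false_imp_iff, true_and, and_true] <;> constructor <;> intro k <;> constructor <;>
      linarith only [k, k.1, k.2]
  have id : ∀ x ∈ P.Q P.ρ, x ∉ P.Th e → r x = x := fun x hx k => hs x ⟨hx, by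
    by_contra c
    push Not at c
    exact k ⟨fun i hi => (hx.2 i hi).lt_of_ne (c i hi), fun i hi => by simpa [hx.1 i hi] using he⟩⟩
  rcases CE_card P hc with u | ⟨-, j, u⟩
  · have q : P.Q P.ρ = Icc (fun i => P.c i - if i ∈ P.I then P.ρ else e)
        (fun i => P.c i + if i ∈ P.I then P.ρ else e) := by
      ext x
      rw [CE_box]
      simp [Pc.Q, u]
    obtain ⟨Φ, a, b⟩ := lh_patch (q ▸ poly_Icc _ _ : Poly (P.Q P.ρ)) hr hb fun x hx => by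
      rw [q, CE_fr, th, ← q] at hx
      exact id x hx.1 hx.2
    exact ⟨Φ, a.mono fun x hx => by rwa [q, CE_int, th] at hx, b⟩
  · have q : P.Q P.ρ = {x ∈ Icc (fun i => P.c i - if i ∈ P.I then P.ρ else e)
        (fun i => P.c i + if i ∈ P.I then P.ρ else e) | x j = P.c j} := by
      ext x
      rw [mem_sep_iff, CE_box]
      simp only [Pc.Q, mem_ofPred_eq, u, forall_eq]
      exact ⟨fun k => ⟨⟨by simpa [k.1] using he.le, k.2⟩, k.1⟩, fun k => ⟨k.2, k.1.2⟩⟩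
    have j0 := (u j).2 rfl
    obtain ⟨Φ, a, b⟩ := CE_slab (fun i => by split_ifs <;> linarith only [r0, he]) (j := j) (a := P.c j)
      (by simp [j0, he]) (by simp [j0, he]) hr (q ▸ hb)
      fun x h1 h2 h3 => id x (q ▸ ⟨h1, h2⟩) (mt (th x).2 h3)
    exact ⟨Φ, a.mono fun x hx => by rwa [CE_int, th] at hx, q ▸ b⟩

theorem ce_one (P : Pc) (hP : P.Ok) (hc : 2 ≤ P.I.card) {H : Rn 3 → Rn 3} (hH : TP H)
    (hi : InjOn H (P.Q P.ρ))
    (bar : H '' P.Bd = P.aff '' P.Bd ∧ ∀ x ∈ P.Bd, ∀ x' ∈ P.Bd, H x = P.aff x' → P.Lat x x')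
    {L : ℝ} (hL : 1 ≤ L)
    (lip : ∀ W ⊆ P.Bx, Convex ℝ W → ∀ x ∈ W, ∀ x' ∈ W, ‖H x - H x'‖ ≤ L * ‖x - x'‖)
    {e : ℝ} (he : 0 < e) :
    ∃ Φ, Mv (P.Th e) Φ ∧ (∀ x ∈ P.Q (P.ρ - P.l), H (Φ x) = P.aff x) ∧
      (∀ x ∈ P.Q P.ρ, ‖H (Φ x) - P.aff x‖ ≤ ‖(P.A : Rn 3 →L[ℝ] Rn 3)‖ * P.l) ∧
      ∀ x ∈ P.Q P.ρx, ∀ x' ∈ P.Q P.ρx, ‖H (Φ x) - H (Φ x')‖ ≤ ceC P.A * L * ‖x - x'‖ := by
  obtain ⟨k, k1, k2, k3, k4, k5, k6⟩ := CE_k P hP hH hi bar hL lip
  have im := CE_img P hP hc hH hi bar.1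
  obtain ⟨g, g1, g2⟩ := tp_linv (CE_Q P _ ▸ poly_Icc _ _ : Poly (P.Q P.ρ)) hH hi
  have key : ∀ x ∈ P.Q P.ρ, g (P.aff (k x)) ∈ P.Q P.ρ ∧ H (g (P.aff (k x))) = P.aff (k x) := by
    intro x hx
    obtain ⟨z, z1, z2⟩ : P.aff (k x) ∈ H '' P.Q P.ρ := im ▸ mem_image_of_mem _ (k2.1 hx)
    rw [← z2, g2 z z1]
    exact ⟨z1, rfl⟩
  obtain ⟨Φ, a, b⟩ := CE_patch P hP hc (r := fun x => g (P.aff (k x)))
    (g1.comp ((CE_lh P).tp.comp k1)) ⟨fun x hx => (key x hx).1, fun x hx y hy e =>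
      k2.2.1 hx hy ((CE_lh P).inj (by rw [← (key x hx).2, ← (key y hy).2]; exact congrArg H e)),
      fun z hz => by
        obtain ⟨w, w1, w2⟩ : H z ∈ P.aff '' P.Q P.ρ := im ▸ mem_image_of_mem _ hz
        obtain ⟨x, x1, rfl⟩ := k2.2.2 w1
        exact ⟨x, x1, by simp only [w2, g2 z hz]⟩⟩
    (fun x hx => by simp only [k3 x hx, g2 x hx.1]) he
  have E : ∀ x ∈ P.Q P.ρ, H (Φ x) = P.aff (k x) := fun x hx => by rw [b hx]; exact (key x hx).2
  have a0 := norm_nonneg (P.A : Rn 3 →L[ℝ] Rn 3)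
  have a1 := norm_nonneg (P.A.symm : Rn 3 →L[ℝ] Rn 3)
  have F : ∀ x ∈ P.Q P.ρ, ∀ y ∈ P.Q P.ρ, ‖H (Φ x) - H (Φ y)‖ ≤ ceC P.A * L * ‖x - y‖ := by
    intro x hx y hy
    rw [E x hx, E y hy]
    refine (CE_sub P _ _).trans ((mul_le_mul_of_nonneg_left (k6 x hx y hy) a0).trans ?_)
    have : 0 ≤ (1 + ‖(P.A.symm : Rn 3 →L[ℝ] Rn 3)‖) * L * ‖x - y‖ := by positivity
    unfold ceC
    linarith only [this, a0, mul_nonneg_of_nonpos_of_nonpos (Mathlib.Tactic.Linarith.sub_nonpos_of_le a0) (Mathlib.Tactic.Linarith.sub_nonpos_of_le this)]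
  refine ⟨Φ, a, fun x hx => by rw [E x (CE_mono P (by linarith [CE_l P]) hx), k4 x hx],
    fun x hx => ?_, ?_⟩
  · rw [E x hx]
    exact (CE_sub P _ _).trans (mul_le_mul_of_nonneg_left (k5 x hx) a0)
  rcases CE_card P hc with u | ⟨u, -⟩
  · have : P.ρx = P.ρ := by simp [Pc.ρx, u]
    rwa [this]
  have cv : Convex ℝ (P.Q P.ρx) := CE_Q P _ ▸ convex_Icc _ _
  refine lip_cover cv (𝒞 := {P.Q P.ρ, (P.Th e)ᶜ}) (toFinite _) ?_ (fun x hx => ?_) ?_
  · rintro _ (rfl | rfl)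
    · exact CE_Q P _ ▸ isClosed_Icc
    · have : P.Th e = (⋂ i ∈ P.I, {x : Rn 3 | |x i - P.c i| < P.ρ}) ∩
          ⋂ i ∈ P.Iᶜ, {x : Rn 3 | |x i - P.c i| < e} := by
        ext x; simp [Pc.Th]
      rw [this]
      exact ((isOpen_biInter_finset fun i _ => isOpen_lt (by fun_prop) continuous_const).inter
        (isOpen_biInter_finset fun i _ => isOpen_lt (by fun_prop) continuous_const)).isClosed_compl
  · by_cases c : x ∈ P.Th e
    · exact ⟨_, Or.inl rfl, hx.1, fun i hi => (c.1 i hi).le⟩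
    · exact ⟨_, Or.inr rfl, c⟩
  · rintro _ (rfl | rfl) x hx y hy
    · exact F x hx.1 y hy.1
    · rw [a.2 x hx.1, a.2 y hy.1]
      refine (lip _ (fun z hz => ⟨hz, by simp [u]⟩) cv x hx.2 y hy.2).trans ?_
      have : 0 ≤ L * ‖x - y‖ := by positivity
      have c : 1 ≤ ceC P.A := by unfold ceC; linarith only [a0, a1, mul_nonneg a0 a1]
      linarith only [this, c, mul_nonneg_of_nonpos_of_nonpos (Mathlib.Tactic.Linarith.sub_nonpos_of_le this) (Mathlib.Tactic.Linarith.sub_nonpos_of_le c)]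

theorem ce_all {ι : Type} [Finite ι] {Ω Z : Set (Rn 3)} (hΩ : IsOpen Ω) {P : ι → Pc}
    (ok : ∀ b, (P b).Ok) (QS : ∀ b, (P b).Q (P b).ρx ⊆ Ω)
    (disj : ∀ b b', b ≠ b' → Disjoint ((P b).Q (P b).ρx) ((P b').Q (P b').ρx))
    (hZ : ∀ b, 2 ≤ (P b).I.card → ∃ e > 0, Z ∩ (P b).Th e ⊆ (P b).Q (P b).ρ)
    {H : Rn 3 → Rn 3} (hH : LTP Ω H) (hi : InjOn H Ω)
    (bar : ∀ b, 2 ≤ (P b).I.card → H '' (P b).Bd = (P b).aff '' (P b).Bd ∧
      ∀ x ∈ (P b).Bd, ∀ x' ∈ (P b).Bd, H x = (P b).aff x' → (P b).Lat x x')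
    {L : ι → ℝ} (hL : ∀ b, 1 ≤ L b)
    (lip : ∀ b, 2 ≤ (P b).I.card → ∀ W ⊆ (P b).Bx, Convex ℝ W → ∀ x ∈ W, ∀ x' ∈ W,
      ‖H x - H x'‖ ≤ L b * ‖x - x'‖) :
    ∃ G, LTP Ω G ∧ InjOn G Ω ∧
      (∀ x ∈ Z, (∀ b, 2 ≤ (P b).I.card → x ∉ (P b).Q (P b).ρ) → G x = H x) ∧
      ∀ b, 2 ≤ (P b).I.card → EqOn G (P b).aff ((P b).Q ((P b).ρ - (P b).l)) ∧
        (∀ x ∈ (P b).Q (P b).ρ,
          ‖G x - (P b).aff x‖ ≤ ‖((P b).A : Rn 3 →L[ℝ] Rn 3)‖ * (P b).l) ∧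
        ∀ x ∈ (P b).Q (P b).ρx, ∀ x' ∈ (P b).Q (P b).ρx,
          ‖G x - G x'‖ ≤ ceC (P b).A * L b * ‖x - x'‖ := by
  have cp : ∀ b r, IsCompact ((P b).Q r) := fun b r => CE_Q (P b) _ ▸ isCompact_Icc
  have ev : ∀ {δ : ℝ}, 0 < δ → ∀ᶠ e in 𝓝[>] (0 : ℝ), e ≤ δ := fun h =>
    mem_nhdsWithin_of_mem_nhds (Iic_mem_nhds h)
  have e1 : ∀ᶠ e in 𝓝[>] (0 : ℝ), ∀ b, cthickening e ((P b).Q (P b).ρx) ⊆ Ω :=
    eventually_all.2 fun b => by
      obtain ⟨δ, a, c⟩ := (cp b _).exists_cthickening_subset_open hΩ (QS b)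
      exact (ev a).mono fun e he => (cthickening_mono he _).trans c
  have e2 : ∀ᶠ e in 𝓝[>] (0 : ℝ), ∀ b b', b ≠ b' →
      Disjoint (thickening e ((P b).Q (P b).ρx)) (thickening e ((P b').Q (P b').ρx)) :=
    eventually_all.2 fun b => eventually_all.2 fun b' => eventually_imp_distrib_left.2 fun h => by
      obtain ⟨δ, a, c⟩ := (disj b b' h).exists_thickenings (cp b _) (cp b' _).isClosed
      exact (ev a).mono fun e he => c.mono (thickening_mono he _) (thickening_mono he _)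
  have e3 : ∀ᶠ e in 𝓝[>] (0 : ℝ), ∀ b, 2 ≤ (P b).I.card → Z ∩ (P b).Th e ⊆ (P b).Q (P b).ρ :=
    eventually_all.2 fun b => eventually_imp_distrib_left.2 fun h => by
      obtain ⟨δ, a, c⟩ := hZ b h
      exact (ev a).mono fun e he x hx =>
        c ⟨hx.1, hx.2.1, fun i hi => (hx.2.2 i hi).trans_le he⟩
  obtain ⟨e, ⟨⟨e1, e2⟩, e3⟩, he⟩ := (((e1.and e2).and e3).and self_mem_nhdsWithin).exists
  have he : 0 < e := he
  have th : ∀ b, (P b).Th e ⊆ thickening e ((P b).Q (P b).ρx) := fun b x hx => by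
    refine mem_thickening_iff.2 ⟨fun i => if i ∈ (P b).I then x i else (P b).c i,
      ⟨fun i hi => if_neg hi, fun i hi => ?_⟩, (dist_pi_lt_iff he).2 fun i => ?_⟩
    · simp only [if_pos hi]
      exact (hx.1 i hi).le.trans (CE_rx _)
    · split_ifs with c
      · rwa [dist_self]
      · exact hx.2 i c
  have sf : ∀ b, (P b).Q (P b).ρx ⊆ thickening e ((P b).Q (P b).ρx) :=
    fun b => self_subset_thickening he _
  have one : ∀ b : {b // 2 ≤ (P b).I.card}, ∃ Φ, Mv ((P b).Th e) Φ ∧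
      (∀ x ∈ (P b).Q ((P b).ρ - (P b).l), H (Φ x) = (P b).aff x) ∧
      (∀ x ∈ (P b).Q (P b).ρ,
        ‖H (Φ x) - (P b).aff x‖ ≤ ‖((P b).A : Rn 3 →L[ℝ] Rn 3)‖ * (P b).l) ∧
      ∀ x ∈ (P b).Q (P b).ρx, ∀ x' ∈ (P b).Q (P b).ρx,
        ‖H (Φ x) - H (Φ x')‖ ≤ ceC (P b).A * L b * ‖x - x'‖ := fun ⟨b, hb⟩ => by
    obtain ⟨g, g1, g2⟩ := hH _ (cp b (P b).ρx).cthickening (e1 b)
    have g3 : EqOn H g (thickening e ((P b).Q (P b).ρx)) :=
      g2.mono (thickening_subset_cthickening _ _)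
    have g4 := g3.mono (sf b)
    have s1 := CE_mono (P b) (CE_rx (P b))
    have g5 : EqOn H g (P b).Bd := g4.mono fun x hx => s1 hx.1
    obtain ⟨Φ, a1, a2, a3, a4⟩ := ce_one (P b) (ok b) hb g1
      ((hi.mono (s1.trans (QS b))).congr (g4.mono s1))
      ⟨g5.image_eq ▸ (bar b hb).1, fun x hx x' hx' k => (bar b hb).2 x hx x' hx' ((g5 hx).trans k)⟩
      (hL b) (fun W hW hc x hx y hy => by
        rw [← g4 (hW hx).1, ← g4 (hW hy).1]
        exact lip b hb W hW hc x hx y hy) he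
    have E : ∀ x ∈ (P b).Q (P b).ρx, H (Φ x) = g (Φ x) := fun x hx =>
      g3 (a1.image_eq (th b) ▸ mem_image_of_mem _ (sf b hx))
    exact ⟨Φ, a1, fun x hx => by
        rw [E x (s1 (CE_mono _ (by linarith only [hb, CE_l (P b)]) hx)), a2 x hx],
      fun x hx => E x (s1 hx) ▸ a3 x hx, fun x hx y hy => E x hx ▸ E y hy ▸ a4 x hx y hy⟩
  choose Ψ a1 a2 a3 a4 using one
  have dj : ∀ b b' x, x ∈ thickening e ((P b).Q (P b).ρx) →
      x ∈ thickening e ((P b').Q (P b').ρx) → b = b' := fun b b' x h1 h2 =>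
    by_contra fun c => disjoint_left.1 (e2 b b' c) h1 h2
  obtain ⟨Φ, b1, b2⟩ := mv_fam (fun j l x h1 h2 => Subtype.ext (dj _ _ x (th _ h1) (th _ h2))) a1
  have im := b1.image_eq (W' := Ω) (iUnion_subset fun j =>
    (th j).trans ((thickening_subset_cthickening _ _).trans (e1 j)))
  have mp : MapsTo Φ Ω Ω := fun x hx => im ▸ mem_image_of_mem _ hx
  have E : ∀ j : {b // 2 ≤ (P b).I.card}, ∀ x ∈ (P j).Q (P j).ρx, Φ x = Ψ j x := fun j x hx => by
    by_cases c : x ∈ (P j).Th e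
    · exact b2 j c
    · rw [(a1 j).2 x c]
      refine b1.2 x fun k => ?_
      obtain ⟨i, hi⟩ := mem_iUnion.1 k
      exact c (dj _ _ x (th _ hi) (sf _ hx) ▸ hi)
  refine ⟨H ∘ Φ, hH.comp (b1.1.tp.ltp Ω) mp, hi.comp b1.1.inj.injOn mp, fun x hx h => ?_,
    fun b hb => ?_⟩
  · refine congrArg H (b1.2 x fun k => ?_)
    obtain ⟨i, hi⟩ := mem_iUnion.1 k
    exact h i i.2 (e3 i i.2 ⟨hx, hi⟩)
  · have s1 := CE_mono (P b) (CE_rx (P b))
    refine ⟨fun x hx => ?_, fun x hx => ?_, fun x hx y hy => ?_⟩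
    · rw [comp_apply, E ⟨b, hb⟩ x (s1 (CE_mono _ (by linarith only [CE_l (P b)]) hx))]
      exact a2 ⟨b, hb⟩ x hx
    · rw [comp_apply, E ⟨b, hb⟩ x (s1 hx)]
      exact a3 ⟨b, hb⟩ x hx
    · rw [comp_apply, comp_apply, E ⟨b, hb⟩ x hx, E ⟨b, hb⟩ y hy]
      exact a4 ⟨b, hb⟩ x hx y hy

end BEp
end
end
end
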