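import Pool.Agent.Work.MP_f0515e_an.P3.KInt
import Pool.Agent.Work.MP_f0515e_an.D3.KA4

-- merged part: Pool.Agent.Work.MP_f0515e_an.P3.GNum
section
/-! Numerical consequences of `Cu.Ok` and linear algebra of the lattice matrix. In the block form
for `I`, `Iᶜ` the matrix `N` is `[[1, M], [0, b]]` with entries of `M` at most `b`, so
`N⁻¹ = dgL I b ∘ Sh` with `Sh = [[1, -M/b], [0, 1]]`, and the determinant is `b^(3 - card I)`. -/

open Set Metric Filter Topology Function BEv MeasureTheory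
open scoped NNReal ENNReal

noncomputable section
namespace BEp

namespace Cu
variable {C : Cu} {aK : ℝ}

theorem GNum_sum (T : Rn 3 →L[ℝ] Rn 3) (z : Rn 3) : T z = ∑ j, z j • T (Pi.single j 1) := by
  conv_lhs => rw [pi_eq_sum_univ' z, map_sum]
  simp only [map_smul]

theorem GNum_pr (I : Finset (Fin 3)) (z : Rn 3) (i : Fin 3) :
    prL I z i = if i ∈ I then z i else 0 := by
  unfold prL
  rw [ContinuousLinearMap.pi_apply]
  split_ifs <;> rfl

theorem GNum_dg (I : Finset (Fin 3)) (b : ℝ) (z : Rn 3) (i : Fin 3) :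
    dgL I b z i = if i ∈ I then z i else b⁻¹ * z i := by
  unfold dgL
  rw [ContinuousLinearMap.pi_apply]
  split_ifs <;> rfl

theorem GNum_nsum {E : Type} [NormedAddCommGroup E] {v : Fin 3 → E} {c : ℝ} (h : ∀ j, ‖v j‖ ≤ c) :
    ‖∑ j, v j‖ ≤ 3 * c := by
  refine (norm_sum_le _ _).trans ?_
  rw [Fin.sum_univ_three]
  linarith [h 0, h 1, h 2]

theorem GNum_lint (E : Rn 3 ≃ₜ Rn 3) (M : Rn 3 →ₗ[ℝ] Rn 3) (o : Rn 3) (e : ∀ ξ, E ξ = o + M ξ)
    (hM : 0 < LinearMap.det M) (S : Set (Rn 3)) (φ : Rn 3 → ℝ≥0∞) :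
    ∫⁻ x in S, φ x = ENNReal.ofReal (LinearMap.det M) * ∫⁻ ξ in E ⁻¹' S, φ (E ξ) := by
  have me : MeasurableEmbedding E := E.measurableEmbedding
  have h1 : Measure.map E volume = ENNReal.ofReal (LinearMap.det M)⁻¹ • (volume : Measure (Rn 3)) := by
    have : (E : Rn 3 → Rn 3) = (fun x => o + x) ∘ M := funext e
    rw [this, ← Measure.map_map (measurable_const_add o) M.continuous_of_finiteDimensional.measurable,
      Measure.map_linearMap_addHaar_eq_smul_addHaar _ hM.ne', Measure.map_smul, map_add_left_eq_self,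
      abs_of_pos (inv_pos.2 hM)]
  rw [← me.lintegral_map, ← me.restrict_map, h1, Measure.restrict_smul, lintegral_smul_measure,
    smul_eq_mul, ← mul_assoc, ← ENNReal.ofReal_mul hM.le, mul_inv_cancel₀ hM.ne', ENNReal.ofReal_one,
    one_mul]

theorem GNum_pw {a b : ℕ} (h : a ≤ b) : (1 : ℝ) / 2 ^ (b - a) = 2 ^ a * (1 / 2 ^ b) := by
  obtain ⟨c, rfl⟩ := Nat.exists_eq_add_of_le h
  rw [Nat.add_sub_cancel_left, pow_add]
  field_simp



theorem Ok.pos (h : C.Ok aK) : 0 < C.η ∧ 0 < C.h ∧ 0 < C.s ∧ 0 < C.t0 ∧ 0 < C.l ∧ 0 < C.ρ' ∧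
    0 < C.κ ∧ 0 < C.ζ ∧ 8 ≤ C.b ∧ 24 ≤ aK := by
  have hs : 0 < C.s := by unfold Pr.s; positivity
  have ht : 0 < C.t0 := by unfold t0; positivity
  have hg := h.g0
  have hb : 8 ≤ C.b := by
    have := h.gb
    by_contra n
    rw [not_le] at n
    linarith only [hg, this, n, hg.1, hg.2, mul_pos_of_neg_of_neg (Mathlib.Tactic.Linarith.sub_neg_of_lt hg.left) (Mathlib.Tactic.Linarith.sub_neg_of_lt n)]
  refine ⟨by unfold Pr.η; positivity, by unfold Pr.h; positivity, hs, ht, by unfold l; positivity,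
    ht.trans_le h.ρ1, lt_of_lt_of_le (by have := hg.1; positivity) h.κg.1, ?_, hb, by linarith [h.aK3]⟩
  have := h.σ0.1
  have := h.c1.1
  unfold Ty.ζ
  positivity

theorem GNum_lt (h : C.Ok aK) : C.nl < C.a := by
  obtain ⟨k, hk, e⟩ := h.dvd
  have h1 : 0 < C.κ := h.pos.2.2.2.2.2.2.1
  have h2 : ((C.r + 8 : ℕ) : ℝ) < ((2 ^ C.a : ℕ) : ℝ) := by
    unfold Ty.κ at h1
    push_cast
    linarith only [h1]
  have h3 : C.r + 8 < 2 ^ C.a := by exact_mod_cast h2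
  have h4 : 2 ^ C.nl < 2 ^ C.a := by
    refine lt_of_le_of_lt ?_ h3
    rw [e]
    exact Nat.le_mul_of_pos_left _ (by omega)
  exact (Nat.pow_lt_pow_iff_right (by norm_num)).1 h4

theorem GNum_l (h : C.Ok aK) : C.l = 2 ^ C.nl * C.s :=
  GNum_pw (by have := GNum_lt h; have := h.n2; omega)

theorem GNum_ρx (h : C.Ok aK) : ∃ k : ℕ, 2 ≤ k ∧ C.ρx = k * C.l := by
  obtain ⟨k, hk, e⟩ := h.dvd
  refine ⟨k, hk, ?_⟩
  have e' : (C.r : ℝ) + 8 = k * 2 ^ C.nl := by exact_mod_cast e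
  rw [ρx, e', GNum_l h]
  ring



theorem Ok.num (h : C.Ok aK) : C.l = 2 ^ C.nl * C.s ∧ C.t0 / 2 = C.ρx + C.κ * C.s ∧
    16 * C.s ≤ C.l ∧ 4 * C.cf * C.l ≤ C.ζ * C.s ∧ 100 * (C.ζ + 64) ≤ C.κ ∧ C.l ≤ C.ρ ∧
    C.ρ ≤ C.ρx ∧ C.ρx - C.l ≤ C.ρ ∧ 800 * C.ρ' ≤ C.h ∧ 800 * C.b * C.h ≤ C.η ∧ 16 ≤ C.r ∧ 8 ∣ C.r ∧
    C.κ * C.s ≤ C.g * C.t0 ∧ C.g * C.t0 ≤ 4 * C.κ * C.s := by
  obtain ⟨hη, hh, hs, ht, hl, hρ', hκ, hζ, hb, hK⟩ := h.pos
  have el := GNum_l h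
  obtain ⟨k, hk, ek⟩ := GNum_ρx h
  have hk' : (2 : ℝ) ≤ k := by exact_mod_cast hk
  have hx : 2 * C.l ≤ C.ρx := by rw [ek]; exact mul_le_mul_of_nonneg_right hk' hl.le
  have hg := h.g0
  have hσ := h.σ0
  have hc := h.c1
  have h16 : 16 ∣ 2 ^ C.nl := pow_dvd_pow 2 h.nl4
  have h16' : (16 : ℝ) ≤ 2 ^ C.nl := by exact_mod_cast Nat.le_of_dvd (by positivity) h16
  have et : C.t0 = 2 * (2 ^ C.a * C.s) := by rw [t0]; ring
  have ha : 0 < 2 ^ C.a * C.s := by positivity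
  refine ⟨el, ?_, ?_, ?_, ?_, ?_, ?_, ?_, ?_, ?_, ?_, ?_, ?_, ?_⟩
  · rw [t0, ρx, Ty.κ]
    ring
  · rw [el]
    exact mul_le_mul_of_nonneg_right h16' hs.le
  · have e : C.ζ * C.s = 4 * C.cf * C.l / C.σ := by
      rw [Ty.ζ, el]
      ring
    rw [e, le_div_iff₀ hσ.1]
    exact mul_le_of_le_one_right (by have := hc.1; positivity) hσ.2
  · exact h.κζ.trans (mul_le_of_le_one_left hκ.le hσ.2)
  · unfold ρ
    split_ifs <;> linarith only [hx, hl]
  · unfold ρ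
    split_ifs <;> linarith only [hl]
  · unfold ρ
    split_ifs <;> linarith only [hl]
  · have h1 : (1 : ℝ) ≤ C.cf ^ 3 := one_le_pow₀ hc.1
    have := h.ρ2
    linarith only [this, h1, hρ', hg, hh, mul_le_mul_of_nonneg_right h1 hρ'.le, mul_le_mul_of_nonneg_right hg.2 hh.le]
  · have h1 : (1 : ℝ) ≤ aK ^ 30 * (C.cf + C.cg) ^ 3 :=
      one_le_mul_of_one_le_of_one_le (one_le_pow₀ (by linarith only [hK, hg])) (one_le_pow₀ (by linarith only [hg, hc, hc.1, hc.2]))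
    have h2 : 0 ≤ 100 * C.b * C.h := by positivity
    have := h.lay
    linarith only [this, h1, h2, hg, hη, mul_le_mul_of_nonneg_right h1 h2, mul_le_mul_of_nonneg_right hg.2 hη.le]
  · obtain ⟨j, hj, e⟩ := h.dvd
    have : 2 * 16 ≤ j * 2 ^ C.nl := Nat.mul_le_mul hj (Nat.le_of_dvd (by positivity) h16)
    omega
  · obtain ⟨j, hj, e⟩ := h.dvd
    have : 8 ∣ C.r + 8 := e ▸ Dvd.dvd.mul_left (Dvd.dvd.trans (by norm_num) h16) j
    omega
  · have := mul_le_mul_of_nonneg_right h.κg.2 hs.le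
    rw [et]
    linarith only [this, hg, ha, mul_pos hg.1 ha]
  · have := mul_le_mul_of_nonneg_right h.κg.1 hs.le
    rw [et]
    linarith only [this]

theorem Ok.mult (h : C.Ok aK) : (∃ k : ℕ, C.η = k * C.h) ∧ (∃ k : ℕ, C.h = k * C.t0) ∧
    (∃ k : ℕ, C.t0 / 2 = k * (16 * C.s)) ∧ (∃ k : ℕ, C.l = k * (16 * C.s)) ∧
    (∃ k : ℕ, 0 < k ∧ C.ρ = k * C.l) ∧ (∃ k : ℕ, C.ρx = k * C.l) ∧
    16 * C.s = 1 / 2 ^ (C.ns - 4) := by
  have h1 := GNum_lt h
  have h2 := h.n1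
  have h3 := h.n2
  have h4 := h.nl4
  obtain ⟨k, hk, ek⟩ := GNum_ρx h
  have p2 : ∀ n : ℕ, 4 ≤ n → (2 : ℝ) ^ n * C.s = ((2 ^ (n - 4) : ℕ) : ℝ) * (16 * C.s) := fun n hn => by
    obtain ⟨c, rfl⟩ := Nat.exists_eq_add_of_le hn
    rw [Nat.add_sub_cancel_left, pow_add]
    push_cast
    ring
  refine ⟨⟨2 ^ (C.n0 - C.nη), ?_⟩, ⟨2 ^ (C.ns - (C.n0 + C.a + 1)), ?_⟩, ⟨2 ^ (C.a - 4), ?_⟩,
    ⟨2 ^ (C.nl - 4), ?_⟩, ?_, ⟨k, ek⟩, ?_⟩
  · obtain ⟨c, e⟩ := Nat.exists_eq_add_of_le h2.le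
    rw [Pr.η, Pr.h, e, Nat.add_sub_cancel_left, pow_add]
    push_cast
    field_simp
  · obtain ⟨c, e⟩ := Nat.exists_eq_add_of_le h3
    rw [t0, Pr.s, Pr.h, e, Nat.add_sub_cancel_left]
    push_cast
    field_simp
    ring
  · rw [← p2 _ (by omega), t0]
    ring
  · rw [← p2 _ h4, GNum_l h]
  · unfold ρ
    split_ifs
    · obtain ⟨c, rfl⟩ := Nat.exists_eq_add_of_le hk
      refine ⟨c + 1, by omega, ?_⟩
      rw [ek]
      push_cast
      ring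
    · exact ⟨k, by omega, ek⟩
  · rw [GNum_pw (by omega), Pr.s]
    norm_num

theorem GNum_Nsum (C : Cu) (z : Rn 3) (i : Fin 3) : C.N z i = ∑ j, z j * C.N (Pi.single j 1) i := by
  have := congrFun (GNum_sum (C.N : Rn 3 →L[ℝ] Rn 3) z) i
  simpa only [ContinuousLinearEquiv.coe_coe, Finset.sum_apply, Pi.smul_apply, smul_eq_mul] using this

theorem GNum_ent (h : C.Ok aK) (i j : Fin 3) : |C.N (Pi.single j 1) i| ≤ C.b := by
  obtain ⟨k, e, hk⟩ := h.int i j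
  rwa [e]

theorem GNum_off (h : C.Ok aK) (z : Rn 3) {i : Fin 3} (hi : i ∉ C.I) : C.N z i = C.b * z i := by
  rw [GNum_Nsum, Finset.sum_eq_single i (fun j _ hj => ?_) (by simp), h.NK i hi i hi, if_pos rfl, mul_comm]
  by_cases k : j ∈ C.I
  · rw [h.NI j k, Pi.single_eq_of_ne hj.symm, mul_zero]
  · rw [h.NK j k i hi, if_neg hj.symm, mul_zero]

theorem GNum_inv (h : C.Ok aK) (z : Rn 3) {i : Fin 3} (hi : i ∉ C.I) : C.b * C.N.symm z i = z i := by
  rw [← GNum_off h _ hi, C.N.apply_symm_apply]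

theorem GNum_invI (h : C.Ok aK) (z : Rn 3) {i : Fin 3} (hi : i ∈ C.I) : |C.N.symm z i| ≤ 3 * ‖z‖ := by
  have hb : 8 ≤ C.b := h.pos.2.2.2.2.2.2.2.2.1
  have e := GNum_Nsum C (C.N.symm z) i
  rw [C.N.apply_symm_apply, ← Finset.add_sum_erase _ _ (Finset.mem_univ i), h.NI i hi,
    Pi.single_eq_same, mul_one] at e
  have k : |∑ j ∈ Finset.univ.erase i, C.N.symm z j * C.N (Pi.single j 1) i| ≤ 2 * ‖z‖ := by
    refine (Finset.abs_sum_le_sum_abs _ _).trans ((Finset.sum_le_card_nsmul _ _ ‖z‖ fun j hj => ?_).trans ?_)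
    · by_cases k : j ∈ C.I
      · rw [h.NI j k, Pi.single_eq_of_ne (Finset.ne_of_mem_erase hj).symm, mul_zero, abs_zero]
        exact norm_nonneg _
      · have e1 : |z j| = C.b * |C.N.symm z j| := by
          rw [← GNum_inv h z k, abs_mul, abs_of_nonneg (by linarith)]
        rw [abs_mul]
        have := mul_le_mul_of_nonneg_left (GNum_ent h i j) (abs_nonneg (C.N.symm z j))
        have h2 : |z j| ≤ ‖z‖ := norm_le_pi_norm z j
        linarith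
    · rw [Finset.card_erase_of_mem (Finset.mem_univ i)]
      simp
  have h2 : |z i| ≤ ‖z‖ := norm_le_pi_norm z i
  rw [abs_le] at k h2 ⊢
  constructor <;> linarith only [e, k, h2, k.1, k.2, h2.1, h2.2]

theorem GNum_Npr (h : C.Ok aK) (z : Rn 3) : C.N (prL C.I z) = prL C.I z := by
  have := GNum_sum (C.N : Rn 3 →L[ℝ] Rn 3) (prL C.I z)
  rw [ContinuousLinearEquiv.coe_coe] at this
  rw [this]
  conv_rhs => rw [pi_eq_sum_univ' (prL C.I z)]
  refine Finset.sum_congr rfl fun j _ => ?_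
  by_cases k : j ∈ C.I
  · rw [h.NI j k]
  · rw [GNum_pr, if_neg k, zero_smul, zero_smul]



theorem Ok.nN (h : C.Ok aK) (z : Rn 3) : ‖C.N z‖ ≤ 3 * C.b * ‖z‖ ∧ ‖C.N.symm z‖ ≤ 3 * ‖z‖ ∧
    C.N (prL C.I z) = prL C.I z ∧ C.N.symm (prL C.I z) = prL C.I z ∧
    ‖C.A (C.N z)‖ ≤ 3 * ‖C.A‖ * ‖z‖ ∧ ∀ i, i ∉ C.I → C.N z i = C.b * z i := by
  have hb : 8 ≤ C.b := h.pos.2.2.2.2.2.2.2.2.1
  have hz := norm_nonneg z
  refine ⟨?_, ?_, GNum_Npr h z, ?_, ?_, fun i hi => GNum_off h z hi⟩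
  · refine (pi_norm_le_iff_of_nonneg (by positivity)).2 fun i => ?_
    rw [GNum_Nsum, mul_assoc]
    refine GNum_nsum fun j => ?_
    rw [norm_mul, mul_comm]
    exact mul_le_mul (GNum_ent h i j) (norm_le_pi_norm z j) (norm_nonneg _) (by linarith)
  · refine (pi_norm_le_iff_of_nonneg (by positivity)).2 fun i => ?_
    by_cases k : i ∈ C.I
    · exact GNum_invI h z k
    · have e1 : |z i| = C.b * |C.N.symm z i| := by
        rw [← GNum_inv h z k, abs_mul, abs_of_nonneg (by linarith)]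
      have h2 : |z i| ≤ ‖z‖ := norm_le_pi_norm z i
      rw [Real.norm_eq_abs]
      (refine le_of_not_gt fun h_nl => ?_; linarith only [h_nl, hz, e1, h2, hb, abs_nonneg (C.N.symm z i), mul_nonneg_of_nonpos_of_nonpos (Mathlib.Tactic.Linarith.sub_nonpos_of_le hb) (Mathlib.Tactic.Linarith.sub_nonpos_of_le hz), mul_nonneg_of_nonpos_of_nonpos (Mathlib.Tactic.Linarith.sub_nonpos_of_le hb) (le_of_lt (Mathlib.Tactic.Linarith.sub_neg_of_lt h_nl))])
  · rw [ContinuousLinearEquiv.symm_apply_eq, GNum_Npr h]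
  · have := GNum_sum (C.A.comp (C.N : Rn 3 →L[ℝ] Rn 3)) z
    simp only [ContinuousLinearMap.comp_apply, ContinuousLinearEquiv.coe_coe] at this
    rw [this, mul_assoc]
    refine GNum_nsum fun j => ?_
    rw [norm_smul, mul_comm]
    refine mul_le_mul ?_ (norm_le_pi_norm z j) (norm_nonneg _) (norm_nonneg _)
    by_cases k : j ∈ C.I
    · rw [h.NI j k]
      refine (C.A.le_opNorm _).trans ?_
      rw [Pi.norm_single, norm_one, mul_one]
    · exact h.ker j k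

theorem Ok.shear (h : C.Ok aK) : ∃ Sh : Rn 3 →L[ℝ] Rn 3, ‖Sh‖ ≤ 3 ∧
    (C.N.symm : Rn 3 →L[ℝ] Rn 3) = (dgL C.I C.b).comp Sh ∧
    (prL C.I).comp Sh = (prL C.I).comp (C.N.symm : Rn 3 →L[ℝ] Rn 3) := by
  have hb : 8 ≤ C.b := h.pos.2.2.2.2.2.2.2.2.1
  have hb0 : C.b ≠ 0 := by positivity
  refine ⟨(dgL C.I C.b⁻¹).comp (C.N.symm : Rn 3 →L[ℝ] Rn 3), ?_, ?_, ?_⟩
  · refine ContinuousLinearMap.opNorm_le_bound _ (by norm_num) fun z => ?_
    have hz := norm_nonneg z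
    refine (pi_norm_le_iff_of_nonneg (by positivity)).2 fun i => ?_
    rw [ContinuousLinearMap.comp_apply, GNum_dg, ContinuousLinearEquiv.coe_coe]
    split_ifs with k
    · exact GNum_invI h z k
    · rw [inv_inv, GNum_inv h z k]
      linarith [norm_le_pi_norm z i]
  · ext z i
    simp only [ContinuousLinearMap.comp_apply, GNum_dg]
    split_ifs
    · rfl
    · rw [inv_inv, inv_mul_cancel_left₀ hb0]
  · ext z i
    simp only [ContinuousLinearMap.comp_apply, GNum_dg, GNum_pr]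
    split_ifs <;> rfl

theorem Ok.tg (h : C.Ok aK) : ‖C.L.comp C.A‖ ≤ 2 * ‖C.A‖ ∧ ‖C.L‖ ≤ 2 ∧
    ‖((C.L.comp C.A).comp (prL C.I)).comp (C.N.symm : Rn 3 →L[ℝ] Rn 3) - C.A‖ ≤ 5 * C.g * ‖C.A‖ ∧
    (C.A ≠ 0 → ∀ z, C.Ah (prL C.I z) = C.L (C.A (prL C.I z))) := by
  have hb : 8 ≤ C.b := h.pos.2.2.2.2.2.2.2.2.1
  have hg := h.g0
  have hA := norm_nonneg C.A
  have hL : ‖C.L‖ ≤ 2 := by
    have h1 : ‖(1 : Rn 3 →L[ℝ] Rn 3)‖ ≤ 1 := ContinuousLinearMap.norm_id_le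
    have h2 := norm_add_le (C.L - 1) 1
    rw [sub_add_cancel] at h2
    linarith only [hg, h1, h2, h, h.L1.1, hg.2]
  refine ⟨(C.L.opNorm_comp_le _).trans (mul_le_mul_of_nonneg_right hL hA), hL, ?_, fun hA0 z => ?_⟩
  · refine ContinuousLinearMap.opNorm_le_bound _ (by have := hg.1; positivity) fun z => ?_
    have hz := norm_nonneg z
    have h1 : ‖C.N.symm z - prL C.I (C.N.symm z)‖ ≤ C.g * ‖z‖ := by
      refine (pi_norm_le_iff_of_nonneg (by have := hg.1; positivity)).2 fun i => ?_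
      rw [Pi.sub_apply, GNum_pr]
      split_ifs with k
      · rw [sub_self, norm_zero]
        have := hg.1
        positivity
      · have e1 : |z i| = C.b * |C.N.symm z i| := by
          rw [← GNum_inv h z k, abs_mul, abs_of_nonneg (by linarith only [hb, hg])]
        have h2 : |z i| ≤ ‖z‖ := norm_le_pi_norm z i
        rw [sub_zero, Real.norm_eq_abs]
        have h3 := mul_le_mul_of_nonneg_right h.gb (abs_nonneg (C.N.symm z i))
        have h4 := mul_le_mul_of_nonneg_left h2 hg.1.le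
        rw [e1] at h4
        linarith
    have h2 := (h.nN (C.N.symm z - prL C.I (C.N.symm z))).2.2.2.2.1
    rw [map_sub, C.N.apply_symm_apply, GNum_Npr h, map_sub] at h2
    have h3 : ‖C.A z - C.A (prL C.I (C.N.symm z))‖ ≤ 3 * (C.g * (‖C.A‖ * ‖z‖)) := by
      have := mul_le_mul_of_nonneg_left h1 (show 0 ≤ 3 * ‖C.A‖ by positivity)
      linarith only [h2, this]
    have h4 : ‖C.A (prL C.I (C.N.symm z))‖ ≤ 2 * (‖C.A‖ * ‖z‖) := by
      have h5 := norm_sub_le (C.A z) (C.A z - C.A (prL C.I (C.N.symm z)))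
      rw [sub_sub_cancel] at h5
      have h6 := C.A.le_opNorm z
      have := mul_le_mul_of_nonneg_right hg.2 (mul_nonneg hA hz)
      linarith only [h3, h5, h6, this, hA, hz, mul_nonneg hA hz]
    have h5 : ‖(C.L - 1) (C.A (prL C.I (C.N.symm z)))‖ ≤ C.g * (2 * (‖C.A‖ * ‖z‖)) :=
      ((C.L - 1).le_opNorm _).trans (mul_le_mul h.L1.1 h4 (norm_nonneg _) hg.1.le)
    have e : (((C.L.comp C.A).comp (prL C.I)).comp (C.N.symm : Rn 3 →L[ℝ] Rn 3) - C.A) z =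
        (C.L - 1) (C.A (prL C.I (C.N.symm z))) - (C.A z - C.A (prL C.I (C.N.symm z))) := by
      simp only [sub_apply, ContinuousLinearMap.comp_apply,
        ContinuousLinearEquiv.coe_coe, one_apply_eq_self]
      abel
    rw [e]
    refine (norm_sub_le _ _).trans ?_
    linarith only [h3, h5]
  · have e1 := GNum_sum (C.Ah : Rn 3 →L[ℝ] Rn 3) (prL C.I z)
    have e2 := GNum_sum (C.L.comp C.A) (prL C.I z)
    simp only [ContinuousLinearMap.comp_apply, ContinuousLinearEquiv.coe_coe] at e1 e2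
    rw [e1, e2]
    refine Finset.sum_congr rfl fun j _ => ?_
    by_cases k : j ∈ C.I
    · rw [h.LA hA0 j k]
    · rw [GNum_pr, if_neg k, zero_smul, zero_smul]

theorem GNum_det (h : C.Ok aK) :
    LinearMap.det ((C.N : Rn 3 →L[ℝ] Rn 3) : Rn 3 →ₗ[ℝ] Rn 3) = C.b ^ (3 - C.I.card) := by
  have en : ∀ i j, LinearMap.toMatrix' ((C.N : Rn 3 →L[ℝ] Rn 3) : Rn 3 →ₗ[ℝ] Rn 3) i j =
      C.N (Pi.single j 1) i := fun i j => by
    rw [LinearMap.toMatrix'_apply]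
    rfl
  rw [← LinearMap.det_toMatrix', Matrix.twoBlockTriangular_det _ (fun i => i ∈ C.I) fun i hi j hj => by
    rw [en, h.NI j hj, Pi.single_eq_of_ne fun e : i = j => hi (e ▸ hj)]]
  have e1 : Matrix.toSquareBlockProp (LinearMap.toMatrix' ((C.N : Rn 3 →L[ℝ] Rn 3) : Rn 3 →ₗ[ℝ] Rn 3))
      (fun i => i ∈ C.I) = 1 := by
    ext i j
    rw [Matrix.toSquareBlockProp_def, Matrix.of_apply, en, h.NI j j.2, Matrix.one_apply, Pi.single_apply]
    simp only [Subtype.ext_iff]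
  have e2 : Matrix.toSquareBlockProp (LinearMap.toMatrix' ((C.N : Rn 3 →L[ℝ] Rn 3) : Rn 3 →ₗ[ℝ] Rn 3))
      (fun i => ¬i ∈ C.I) = C.b • 1 := by
    ext i j
    rw [Matrix.toSquareBlockProp_def, Matrix.of_apply, en, h.NK j j.2 i i.2, Matrix.smul_apply,
      Matrix.one_apply]
    simp only [Subtype.ext_iff, smul_eq_mul, mul_ite, mul_one, mul_zero]
  rw [e1, e2]
  simp [Fintype.card_subtype_compl]



theorem Ok.lintN (h : C.Ok aK) (S : Set (Rn 3)) (φ : Rn 3 → ℝ≥0∞) :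
    ∫⁻ x in S, φ x = ENNReal.ofReal (C.b ^ (3 - C.I.card)) * ∫⁻ ξ in C.N ⁻¹' S, φ (C.N ξ) := by
  have hb : 8 ≤ C.b := h.pos.2.2.2.2.2.2.2.2.1
  have := GNum_lint C.N.toHomeomorph ((C.N : Rn 3 →L[ℝ] Rn 3) : Rn 3 →ₗ[ℝ] Rn 3) 0
    (fun ξ => (zero_add _).symm) (by rw [GNum_det h]; positivity) S φ
  rwa [GNum_det h] at this

theorem Ok.lintX (h : C.Ok aK) (S : Set (Rn 3)) (φ : Rn 3 → ℝ≥0∞) :
    ∫⁻ x in C.X '' S, φ x =
      ENNReal.ofReal (C.b ^ (3 - C.I.card) * C.h ^ 3) * ∫⁻ ξ in S, φ (C.X ξ) := by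
  have hb : 8 ≤ C.b := h.pos.2.2.2.2.2.2.2.2.1
  have hh : 0 < C.h := h.pos.2.1
  let E : Rn 3 ≃ₜ Rn 3 :=
    (C.N.toHomeomorph.trans (Homeomorph.smulOfNeZero C.h hh.ne')).trans (Homeomorph.addLeft C.o)
  have ed : LinearMap.det (C.h • ((C.N : Rn 3 →L[ℝ] Rn 3) : Rn 3 →ₗ[ℝ] Rn 3)) =
      C.b ^ (3 - C.I.card) * C.h ^ 3 := by
    rw [LinearMap.det_smul, GNum_det h, Module.finrank_fin_fun, mul_comm]
  have := GNum_lint E _ C.o (fun ξ => rfl) (by rw [ed]; positivity) (E '' S) φ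
  rw [ed, preimage_image_eq _ E.injective] at this
  exact this

theorem Ok.pcok (h : C.Ok aK) (u : I3 × I3) {y : Rn 3} (hy : ∀ i, ∃ k : ℤ, y i = k * C.l) :
    (C.pc u y).Ok := ⟨h.ne, h.rat, hy, h.mult.2.2.2.2.1⟩

theorem pc_l (C : Cu) (u : I3 × I3) (y : Rn 3) : (C.pc u y).l = C.l := rfl

theorem pc_Q (C : Cu) (u : I3 × I3) (y : Rn 3) (R : ℝ) : (C.pc u y).Q R = C.Q u R := rfl

theorem pc_ρx (C : Cu) (u : I3 × I3) (y : Rn 3) : (C.pc u y).ρx = C.ρx := by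
  change (if C.I.card = 2 then C.ρ + C.l else C.ρ) = C.ρx
  unfold ρ
  split_ifs <;> ring

theorem mem_Q {u : I3 × I3} {R : ℝ} (hR : 0 ≤ R) {x : Rn 3} :
    x ∈ C.Q u R ↔ (∀ i, i ∉ C.I → x i = C.ctr u i) ∧ ‖x - C.ctr u‖ ≤ R := by
  change ((∀ i, i ∉ C.I → x i = C.ctr u i) ∧ ∀ i ∈ C.I, |x i - C.ctr u i| ≤ R) ↔ _
  refine and_congr_right fun k => ?_
  rw [pi_norm_le_iff_of_nonneg hR]
  refine ⟨fun a i => ?_, fun a i _ => a i⟩
  by_cases m : i ∈ C.I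
  · exact a i m
  · rwa [Pi.sub_apply, k i m, sub_self, norm_zero]

theorem Q_cpt (C : Cu) (u : I3 × I3) (R : ℝ) : IsCompact (C.Q u R) ∧ Convex ℝ (C.Q u R) := by
  have e : C.Q u R = Set.pi univ fun i =>
      if i ∈ C.I then Icc (C.ctr u i - R) (C.ctr u i + R) else {C.ctr u i} := by
    ext x
    change ((∀ i, i ∉ C.I → x i = C.ctr u i) ∧ ∀ i ∈ C.I, |x i - C.ctr u i| ≤ R) ↔ _
    rw [mem_univ_pi]
    refine ⟨fun a i => ?_, fun a => ⟨fun i m => ?_, fun i m => ?_⟩⟩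
    · split_ifs with m
      · have := abs_le.1 (a.2 i m)
        constructor <;> linarith only [this, this.1, this.2]
      · exact a.1 i m
    · have := a i
      rwa [if_neg m] at this
    · have := a i
      rw [if_pos m] at this
      rw [abs_le]
      constructor <;> linarith [this.1, this.2]
  rw [e]
  refine ⟨isCompact_univ_pi fun i => ?_, convex_pi fun i _ => ?_⟩
  · split_ifs
    exacts [isCompact_Icc, isCompact_singleton]
  · split_ifs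
    exacts [convex_Icc _ _, convex_singleton _]

end Cu

end BEp
end
end

-- merged part: Pool.Agent.Work.MP_f0515e_an.P3.GGeo
section
-- merged part: Pool.Agent.Work.MP_f0515e_an.P3.GBas
section
/-! The lattice regions. `X z` has coordinates in `h ℤ` since `N` is an integer matrix and `o` is
in `η ℤ³`; `icl z` is `X z + [0, h]^I`, a closed dyadic cell of level `n0`. The stretch: `cut` is
`TP` and `1/2` Lipschitz, `St` is a conjugate of an accretive map (`Accr.loc`, `cs_of_accr`,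
`CS.conj`). -/

open Set Metric Filter Topology Function BEv MeasureTheory
open scoped NNReal ENNReal

noncomputable section
namespace BEp

namespace Cu
variable {C : Cu} {aK : ℝ}

theorem Ok.Xξ (h : C.Ok aK) : (∀ x, C.X (C.ξ x) = x) ∧ (∀ ξ, C.ξ (C.X ξ) = ξ) ∧ TP C.X ∧ TP C.ξ ∧
    (∀ ξ ξ', ‖C.X ξ - C.X ξ'‖ ≤ 3 * C.b * C.h * ‖ξ - ξ'‖) ∧
    ∀ x x', C.h * ‖C.ξ x - C.ξ x'‖ ≤ 3 * ‖x - x'‖ := by
  have h0 := h.pos.2.1
  refine ⟨fun x => by simp [X, ξ, smul_smul, h0.ne'], fun x => by simp [X, ξ, smul_smul, h0.ne'],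
    (TP.const _).add ((TP.clm (C.N : Rn 3 →L[ℝ] Rn 3)).const_smul _),
    ((TP.clm (C.N.symm : Rn 3 →L[ℝ] Rn 3)).comp (TP.id'.sub (TP.const _))).const_smul _,
    fun x y => ?_, fun x y => ?_⟩
  · rw [X, X, add_sub_add_left_eq_sub, ← smul_sub, ← map_sub, norm_smul, Real.norm_of_nonneg h0.le]
    linarith only [h0, h, (h.nN (x - y)).1, mul_nonneg_of_nonpos_of_nonpos (le_of_lt (Mathlib.Tactic.Linarith.sub_neg_of_lt h0)) (Mathlib.Tactic.Linarith.sub_nonpos_of_le (nN h (x - y)).left)]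
  · rw [ξ, ξ, ← smul_sub, ← map_sub, sub_sub_sub_cancel_right, norm_smul,
      Real.norm_of_nonneg (inv_pos.2 h0).le, mul_inv_cancel_left₀ h0.ne']
    exact (h.nN (x - y)).2.1

theorem GBas_lc {x y : Rn 3} : y ∈ C.lc x ↔ ∀ i, kbS (C.ξ x i) (C.ξ y i) := Iff.rfl

theorem GBas_bx {x y : Rn 3} (h : y ∈ C.lc x) (z : I3) : y ∈ C.bx z ↔ x ∈ C.bx z :=
  forall_congr' fun i => and_congr (kbS_iff.1 (h i) _).1 (by
    exact_mod_cast (kbS_iff.1 (h i) (z i + 1)).2)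

theorem GBas_im (h : C.Ok aK) (S : Set (Rn 3)) : C.X '' S = C.ξ ⁻¹' S :=
  congrFun (image_eq_preimage_of_inverse h.Xξ.2.1 h.Xξ.1) S

/-- The lattice coordinates as a homeomorphism. -/
def GBas_hom (h : C.Ok aK) : Rn 3 ≃ₜ Rn 3 :=
  ⟨⟨C.ξ, C.X, h.Xξ.1, h.Xξ.2.1⟩, h.Xξ.2.2.2.1.continuous, h.Xξ.2.2.1.continuous⟩

theorem Ok.bx_prop (h : C.Ok aK) (z : I3) : IsCompact (C.bx z) ∧ closure (C.X '' cu z) = C.bx z ∧
    interior (C.bx z) = C.X '' cu z ∧ (∀ x ∈ C.bx z, C.lc x ⊆ C.bx z) ∧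
    (∀ x ∈ C.X '' cu z, C.lc x = C.X '' cu z) ∧
    (∀ x ∈ C.bx z, ∀ y ∈ C.bx z, ‖x - y‖ ≤ 3 * C.b * C.h) ∧
    ∀ z' ∈ cnr C.I z, C.icl z' ⊆ C.bx z := by
  have e1 : C.bx z = GBas_hom h ⁻¹' pi univ fun i => Icc (z i : ℝ) (z i + 1) := by
    ext x
    exact mem_univ_pi.symm
  have e2 : C.X '' cu z = GBas_hom h ⁻¹' pi univ fun i => Ioo (z i : ℝ) (z i + 1) := by
    rw [GBas_im h]
    ext x
    exact mem_univ_pi.symm
  refine ⟨?_, ?_, ?_, fun x hx y hy => (GBas_bx hy z).2 hx, fun x hx => ?_, fun x hx y hy => ?_,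
    fun z' hz x hx i => ?_⟩
  · rw [e1]
    exact (GBas_hom h).isCompact_preimage.2 (isCompact_univ_pi fun i => isCompact_Icc)
  · rw [e1, e2, ← Homeomorph.preimage_closure, closure_pi_set]
    simp only [closure_Ioo (lt_add_one _).ne]
  · rw [e1, e2, ← Homeomorph.preimage_interior, interior_pi_set finite_univ]
    simp only [interior_Icc]
  · rw [GBas_im h] at hx ⊢
    ext y
    refine forall_congr' fun i => ?_
    have k1 : ⌊C.ξ x i⌋ = z i := Int.floor_eq_iff.2 ⟨(hx i).1.le, (hx i).2⟩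
    have k2 : ⌈C.ξ x i⌉ = z i + 1 := Int.ceil_eq_iff.2 (by
      push_cast
      exact ⟨by linarith [(hx i).1], (hx i).2.le⟩)
    change kbS (C.ξ x i) (C.ξ y i) ↔ _
    rw [kbS_ineq, k1, k2]
    push_cast
    exact ⟨fun k => ⟨by linarith [k.2.1], k.1.2⟩, fun k => ⟨⟨k.1.le, k.2⟩, by linarith [k.1], k.2.le⟩⟩
  · have k := h.Xξ.2.2.2.2.1 (C.ξ x) (C.ξ y)
    rw [h.Xξ.1, h.Xξ.1] at k
    have k1 : ‖C.ξ x - C.ξ y‖ ≤ 1 := (pi_norm_le_iff_of_nonneg zero_le_one).2 fun i =>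
      abs_le.2 ⟨by simp only [Pi.sub_apply]; linarith [(hx i).1, (hy i).2],
        by simp only [Pi.sub_apply]; linarith [(hx i).2, (hy i).1]⟩
    obtain ⟨-, h0, -, -, -, -, -, -, hb, -⟩ := h.pos
    exact k.trans (mul_le_of_le_one_right (by positivity) k1)
  · have k := Fintype.mem_piFinset.1 hz i
    by_cases hi : i ∈ C.I
    · rw [if_pos hi, Finset.mem_singleton] at k
      exact k ▸ hx.1 i
    · rw [if_neg hi, Finset.mem_insert, Finset.mem_singleton] at k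
      rw [hx.2 i hi]
      rcases k with k | k <;> rw [k] <;> simp

theorem exists_bx (C : Cu) (x : Rn 3) : ∃ z, x ∈ C.bx z :=
  ⟨fun i => ⌊C.ξ x i⌋, fun _ => ⟨Int.floor_le _, (Int.lt_floor_add_one _).le⟩⟩

theorem Ok.O_prop (h : C.Ok aK) : IsOpen C.O ∧ C.O ⊆ ball C.o (C.η - C.h) ∧
    (∀ x ∈ C.O, C.lc x ⊆ C.O) ∧ ball C.o (C.η - 4 * C.b * C.h) ⊆ C.O ∧
    (∀ z, (C.bx z ∩ ball C.o (C.η - 7 * C.b * C.h)).Nonempty → C.bx z ⊆ C.O) ∧
    {z | C.icl z ⊆ C.O}.Finite ∧ {z | C.bx z ⊆ C.O}.Finite := by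
  obtain ⟨η0, h0, -, -, -, -, -, -, hb, -⟩ := h.pos
  have k1 : C.O ⊆ ball C.o (C.η - C.h) := fun x hx =>
    let ⟨z, hz⟩ := C.exists_bx x; hx z hz hz
  have k0 : ∀ {z x y r}, x ∈ C.bx z → y ∈ C.bx z → x ∈ ball C.o r →
      y ∈ ball C.o (r + 3 * C.b * C.h) := fun {z x y r} hx hy hr => by
    rw [mem_ball, dist_eq_norm] at hr ⊢
    linarith [norm_sub_le_norm_sub_add_norm_sub y x C.o, (h.bx_prop z).2.2.2.2.2.1 y hy x hx]
  have k2 : ball C.o (C.η - 4 * C.b * C.h) ⊆ C.O := fun x hx z hz y hy =>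
    ball_subset_ball (by linarith only [h0, hb, mul_nonneg_of_nonpos_of_nonpos (le_of_lt (Mathlib.Tactic.Linarith.sub_neg_of_lt h0)) (Mathlib.Tactic.Linarith.sub_nonpos_of_le hb)]) (k0 hz hy hx)
  have k3 : {z | C.icl z ⊆ C.O}.Finite := by
    refine (finite_Icc (fun _ => ⌊-(3 * C.η / C.h)⌋) fun _ => ⌈3 * C.η / C.h⌉).subset fun z hz => ?_
    have m1 : C.X (fun i => z i) ∈ C.icl z := by
      refine ⟨fun i => ?_, fun i _ => ?_⟩ <;> rw [h.Xξ.2.1]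
      exact ⟨le_rfl, (lt_add_one _).le⟩
    have m2 := h.Xξ.2.2.2.2.2 (C.X fun i => z i) C.o
    have m3 := k1 (hz m1)
    rw [mem_ball, dist_eq_norm] at m3
    rw [h.Xξ.2.1, show C.ξ C.o = 0 by simp [ξ], sub_zero] at m2
    have m4 : ∀ i, |(z i : ℝ)| ≤ 3 * C.η / C.h := fun i => by
      refine (norm_le_pi_norm (fun i => (z i : ℝ)) i).trans ?_
      rw [le_div_iff₀' h0]
      linarith only [h0, m2, m3]
    exact ⟨fun i => Int.floor_le_iff.2 (by linarith only [m4, (abs_le.1 (m4 i)).1]),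
      fun i => Int.le_ceil_iff.2 (by linarith [(abs_le.1 (m4 i)).2])⟩
  refine ⟨isOpen_iff_mem_nhds.2 fun x hx => ?_, k1, fun x hx y hy z hz => hx z ((GBas_bx hy z).1 hz),
    k2, fun z ⟨x, hx, hr⟩ y hy => k2 (ball_subset_ball (by linarith) (k0 hx hy hr)), k3,
    k3.subset fun z hz x hx => hz hx.1⟩
  have c : ∀ i, ContinuousAt (fun y => C.ξ y i) x := fun i =>
    ((continuous_apply i).comp h.Xξ.2.2.2.1.continuous).continuousAt
  filter_upwards [eventually_all.2 fun l => (c l).eventually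
      (gt_mem_nhds (Int.lt_floor_add_one _)), eventually_all.2 fun l => (c l).eventually
      (lt_mem_nhds (sub_lt_iff_lt_add.2 (Int.ceil_lt_add_one _)))] with y h1 h2 z hz
  refine hx z fun i => ⟨Int.le_floor.1 (Int.lt_add_one_iff.1 ?_), ?_⟩
  · exact_mod_cast (hz i).1.trans_lt (h1 i)
  · have : ⌈C.ξ x i⌉ - 1 < z i + 1 := by exact_mod_cast (h2 i).trans_le (hz i).2
    exact_mod_cast Int.ceil_le.1 (show ⌈C.ξ x i⌉ ≤ z i + 1 by omega)

theorem GBas_pr {I : Finset (Fin 3)} {v : Rn 3} (h : ∀ i, i ∉ I → v i = 0) : prL I v = v := by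
  ext i
  by_cases hi : i ∈ I <;> simp [prL, hi, h]

theorem GBas_co (h : C.Ok aK) {x w : Rn 3}
    (k : (∀ i, i ∉ C.I → C.ξ x i = w i) ∨ ∀ i, i ∉ C.I → x i = C.X w i) (i : Fin 3) :
    x i = C.X w i + C.h * (C.ξ x i - w i) := by
  have e : x - C.X w = C.h • C.N (C.ξ x - w) := by
    conv_lhs => rw [← h.Xξ.1 x]
    rw [X, X, add_sub_add_left_eq_sub, ← smul_sub, ← map_sub]
  have e' : x - C.X w = C.h • (C.ξ x - w) := by
    rcases k with k | k
    · have := (h.nN (C.ξ x - w)).2.2.1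
      rw [GBas_pr (v := C.ξ x - w) fun i hi => sub_eq_zero.2 (k i hi)] at this
      rw [e, this]
    · have := (h.nN (x - C.X w)).2.2.2.1
      rw [GBas_pr (v := x - C.X w) fun i hi => sub_eq_zero.2 (k i hi)] at this
      rw [← this, e, map_smul, C.N.symm_apply_apply]
  exact sub_eq_iff_eq_add'.1 (congrFun e' i)

theorem Ok.mem_icl (h : C.Ok aK) {z : I3} {x : Rn 3} : x ∈ C.icl z ↔
    (∀ i, i ∉ C.I → x i = C.X (fun i => z i) i) ∧
      ∀ i ∈ C.I, C.X (fun i => z i) i ≤ x i ∧ x i ≤ C.X (fun i => z i) i + C.h := by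
  have h0 := h.pos.2.1
  refine ⟨fun k => ⟨fun i hi => ?_, fun i hi => ?_⟩, fun k => ?_⟩
  · rw [GBas_co h (.inl k.2) i, k.2 i hi, sub_self, mul_zero, add_zero]
  · rw [GBas_co h (.inl k.2) i]
    constructor <;> linarith only [h0, k, (k.1 i).1, (k.1 i).2, mul_nonneg_of_nonpos_of_nonpos (le_of_lt (Mathlib.Tactic.Linarith.sub_neg_of_lt h0)) (Mathlib.Tactic.Linarith.sub_nonpos_of_le (k.left i).left), mul_nonneg_of_nonpos_of_nonpos (le_of_lt (Mathlib.Tactic.Linarith.sub_neg_of_lt h0)) (Mathlib.Tactic.Linarith.sub_nonpos_of_le (k.left i).right)]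
  · have e : ∀ i, i ∉ C.I → C.ξ x i = z i := fun i hi => by
      have := GBas_co h (.inr k.1) i
      rw [k.1 i hi] at this
      nlinarith
    refine ⟨fun i => ?_, e⟩
    by_cases hi : i ∈ C.I
    · have := k.2 i hi
      rw [GBas_co h (.inr k.1) i] at this
      constructor <;> (refine le_of_not_gt fun h_nl => ?_; linarith only [h_nl, this, h0, this.1, this.2, mul_pos_of_neg_of_neg (Mathlib.Tactic.Linarith.sub_neg_of_lt h0) (Mathlib.Tactic.Linarith.sub_neg_of_lt h_nl)])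
    · rw [e i hi]
      exact ⟨le_rfl, (lt_add_one _).le⟩

theorem Ok.X_lat (h : C.Ok aK) (z : I3) (i : Fin 3) : ∃ k : ℤ, C.X (fun i => z i) i = k * C.h := by
  obtain ⟨k, hk⟩ := h.olat i
  obtain ⟨m, hm⟩ := h.mult.1
  choose n hn using h.int i
  refine ⟨k * m + ∑ j, z j * n j, ?_⟩
  have e : (fun i => (z i : ℝ)) = ∑ j, (z j : ℝ) • (Pi.single j 1 : Rn 3) := pi_eq_sum_univ' _
  rw [X, e, map_sum]
  simp only [Pi.add_apply, Pi.smul_apply, Finset.sum_apply, map_smul, smul_eq_mul, (hn _).1, hk, hm]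
  push_cast
  ring

theorem GBas_kb (h : C.Ok aK) {x y : Rn 3} (hy : y ∈ kbC (C.ns - 4) x) (l : Fin 3) (m : ℤ) :
    (m * C.h ≤ y l ↔ m * C.h ≤ x l) ∧ (y l ≤ m * C.h ↔ x l ≤ m * C.h) := by
  obtain ⟨-, ⟨a, ha⟩, ⟨b, hb⟩, -, -, -, e⟩ := h.mult
  have p : (0 : ℝ) < 2 ^ (C.ns - 4) := by positivity
  have k := kbS_iff.1 (hy l) (m * a * 2 * b)
  have e' : ((m * a * 2 * b : ℤ) : ℝ) = 2 ^ (C.ns - 4) * (m * C.h) := by
    rw [ha, show C.t0 = 2 * (b * (16 * C.s)) by linarith only [hb], e]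
    push_cast
    field_simp
  simpa only [e', mul_le_mul_iff_right₀ p] using k

theorem Ok.WI_prop (h : C.Ok aK) : IsCompact C.WI ∧ C.WI ⊆ C.O ∧ (∀ x ∈ C.WI, C.lc x ⊆ C.WI) ∧
    (∀ z, ∀ x ∈ C.icl z, C.lc x ⊆ C.icl z ∧ kbC (C.ns - 4) x ⊆ C.lc x) ∧
    (C.I.card < 3 → ∀ σ, IsOpen σ → σ ⊆ C.WI → σ = ∅) ∧
    (C.I.card = 3 → ∀ z, C.icl z = C.bx z) := by
  have h0 := h.pos.2.1
  have k1 : ∀ z, ∀ x ∈ C.icl z, C.lc x ⊆ C.icl z := fun z x hx y hy =>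
    ⟨(GBas_bx hy z).2 hx.1, fun i hi => le_antisymm ((kbS_iff.1 (hy i) _).2.2 (hx.2 i hi).le)
      ((kbS_iff.1 (hy i) _).1.2 (hx.2 i hi).ge)⟩
  refine ⟨?_, fun x ⟨z, h1, h2⟩ => h1 h2, fun x ⟨z, h1, h2⟩ y hy => ⟨z, h1, k1 z x h2 hy⟩,
    fun z x hx => ⟨k1 z x hx, fun y hy i => ?_⟩, fun hI σ ho hs => ?_, fun hI z => ?_⟩
  · rw [show C.WI = ⋃ z ∈ {z | C.icl z ⊆ C.O}, C.icl z from Set.ext fun x => by simp [WI]]
    refine h.O_prop.2.2.2.2.2.1.isCompact_biUnion fun z _ => (h.bx_prop z).1.inter_right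
      (t := {x | ∀ i, i ∉ C.I → C.ξ x i = z i}) ?_
    simp only [ofPred_forall]
    exact isClosed_iInter fun i => isClosed_iInter fun _ => isClosed_eq
      ((continuous_apply i).comp h.Xξ.2.2.2.1.continuous) continuous_const
  · choose k hk using h.X_lat z
    have e1 := GBas_co h (.inl hx.2) i
    have e2 := GBas_co h (x := y) (w := fun i => z i) (.inr fun l hl => by
      have e := (h.mem_icl.1 hx).1 l hl
      rw [hk] at e ⊢
      exact le_antisymm ((GBas_kb h hy l _).2.2 e.le) ((GBas_kb h hy l _).1.2 e.ge)) i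
    refine (kbS_iff (a := C.ξ x i) (b := C.ξ y i)).2 fun m => ?_
    have e3 := GBas_kb h hy i (m - z i + k i)
    have e4 : ∀ t : ℝ, k i * C.h + C.h * (t - z i) = (t - z i + k i) * C.h := fun t => by ring
    rw [e1, e2, hk, e4, e4] at e3
    push_cast at e3
    simpa only [mul_le_mul_iff_left₀ h0, add_le_add_iff_right, sub_le_sub_iff_right] using e3
  · obtain ⟨i, hi⟩ : ∃ i, i ∉ C.I := by
      by_contra! q
      simp [Finset.eq_univ_iff_forall.2 q] at hI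
    have k : ∀ x ∈ σ, ∃ k : ℤ, x i = k * C.h := fun x hx => by
      obtain ⟨z, -, hz⟩ := hs hx
      rw [(h.mem_icl.1 hz).1 i hi]
      exact h.X_lat z i
    refine eq_empty_of_forall_notMem fun x hx => ?_
    have c : ContinuousAt (fun t : ℝ => x + t • (Pi.single i 1 : Rn 3)) 0 := by fun_prop
    obtain ⟨t, t1, t2⟩ := (((c.eventually (ho.mem_nhds (by simpa using hx))).filter_mono
      nhdsWithin_le_nhds).and (Ioo_mem_nhdsGT h0)).exists
    obtain ⟨a, ha⟩ := k x hx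
    obtain ⟨b, hb⟩ := k _ t1
    simp only [Pi.add_apply, Pi.smul_apply, Pi.single_eq_same, smul_eq_mul, mul_one, ha] at hb
    have q1 : a < b := by exact_mod_cast (show (a : ℝ) < b by (refine lt_of_not_ge fun h_nl => ?_; linarith only [h_nl, t2, hb, h0, t2.1, mul_nonneg_of_nonpos_of_nonpos (le_of_lt (Mathlib.Tactic.Linarith.sub_neg_of_lt h0)) (Mathlib.Tactic.Linarith.sub_nonpos_of_le h_nl)]))
    have q2 : b < a + 1 := by exact_mod_cast (show (b : ℝ) < a + 1 by (refine lt_of_not_ge fun h_nl => ?_; linarith only [h_nl, t2, hb, h0, t2.2, mul_nonneg_of_nonpos_of_nonpos (le_of_lt (Mathlib.Tactic.Linarith.sub_neg_of_lt h0)) (Mathlib.Tactic.Linarith.sub_nonpos_of_le h_nl)]))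
    omega
  · have : C.I = Finset.univ := Finset.eq_univ_of_card _ (by simpa using hI)
    ext x
    simp [icl, this]

theorem Ok.cut_prop (h : C.Ok aK) : TP C.cut ∧ (∀ x y, |C.cut x - C.cut y| ≤ ‖x - y‖ / 2) ∧
    (∀ x, 0 ≤ C.cut x) ∧
    (∀ ξ, C.X ξ ∈ closedBall C.o (C.η - 13 * C.b * C.h) → C.cut ξ = 1) ∧
    ∀ ξ, C.X ξ ∉ ball C.o (C.η - 7 * C.b * C.h) → C.cut ξ = 0 := by
  obtain ⟨η0, h0, -, -, -, -, -, -, hb, -⟩ := h.pos
  have p : 0 < 6 * C.b * C.h := by positivity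
  refine ⟨(TP.const 0).max ((TP.const 1).min (((TP.const _).sub
    ((TP.clm (C.N : Rn 3 →L[ℝ] Rn 3)).const_smul _).norm_pi).div_const _)), fun x y => ?_,
    fun x => le_max_left _ _, fun x hx => ?_, fun x hx => ?_⟩
  · refine (abs_max_sub_max_le_max _ _ _ _).trans (max_le (by simp; positivity)
      ((abs_min_sub_min_le_max _ _ _ _).trans (max_le (by simp; positivity) ?_)))
    have k := h.Xξ.2.2.2.2.1 x y
    rw [X, X, add_sub_add_left_eq_sub] at k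
    rw [← sub_div, abs_div, abs_of_pos p, div_le_iff₀ p, sub_sub_sub_cancel_left, abs_sub_comm]
    linarith only [k, abs_norm_sub_norm_le (C.h • C.N x) (C.h • C.N y)]
  · rw [mem_closedBall, dist_eq_norm, X, add_sub_cancel_left] at hx
    rw [cut, min_eq_left ((one_le_div p).2 (by linarith)), max_eq_right zero_le_one]
  · rw [mem_ball, dist_eq_norm, X, add_sub_cancel_left, not_lt] at hx
    exact max_eq_left ((min_le_right _ _).trans (div_nonpos_of_nonpos_of_nonneg (by linarith) p.le))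

theorem Ok.layer (h : C.Ok aK) : volume (C.q \ ball C.o (C.η - 16 * C.b * C.h)) ≤
    ENNReal.ofReal (400 * C.b * C.h * C.η ^ 2) := by
  obtain ⟨η0, h0, -, -, -, -, -, -, hb, -⟩ := h.pos
  have k := h.num.2.2.2.2.2.2.2.2.2.1
  have p : 0 < C.b * C.h := by positivity
  have k1 : 0 < C.η - 16 * C.b * C.h := by linarith
  rw [q, measure_sdiff ((ball_subset_ball (by linarith)).trans ball_subset_closedBall)
    measurableSet_ball.nullMeasurableSet measure_ball_lt_top.ne, Real.volume_pi_closedBall _ η0.le,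
    Real.volume_pi_ball _ k1, ← ENNReal.ofReal_sub _ (by positivity)]
  refine ENNReal.ofReal_le_ofReal ?_
  rw [Fintype.card_fin, mul_assoc 16, mul_assoc 400]
  rw [mul_assoc] at k
  generalize C.b * C.h = t at k p
  linarith only [p, η0, k, mul_pos p (pow_pos η0 2), mul_nonneg (sq_nonneg t) (show 0 ≤ C.η - 16 * t by linarith), sq_nonneg t, mul_nonneg_of_nonpos_of_nonpos (Mathlib.Tactic.Linarith.sub_nonpos_of_le (sq_nonneg t)) (le_of_lt (Mathlib.Tactic.Linarith.sub_neg_of_lt η0))]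

end Cu

end BEp
end
end

-- merged part: Pool.Agent.Work.MP_f0515e_an.P3.GGeo
section
/-! Geometry of the tiles in an adapted complex. The centre of a tile has coordinates in
`16 s ℤ`. For `near2`: a point at distance less than `t0/2 + ρ'` from the centre lies in the slice or in
one of the two open long boxes which are adjacent to the cell `icl u.1` (they lie in `O` and are
cells of `K` of dimension three). -/

open Set Metric Filter Topology Function BEv MeasureTheory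
open scoped NNReal ENNReal

noncomputable section
namespace BEp

theorem GGeo_kb {n : ℕ} {δ : ℝ} (hδ : δ = 1 / 2 ^ n) {x y : Rn 3} :
    y ∈ kbC n x ↔
      ∀ l, ∀ m : ℤ, ((m : ℝ) * δ ≤ y l ↔ m * δ ≤ x l) ∧ (y l ≤ m * δ ↔ x l ≤ m * δ) := by
  have p : (0 : ℝ) < 2 ^ n := by positivity
  have a : ∀ (m t : ℝ), (m * δ ≤ t ↔ m ≤ 2 ^ n * t) ∧ (t ≤ m * δ ↔ 2 ^ n * t ≤ m) :=
    fun m t => by
      rw [hδ, mul_one_div, div_le_iff₀' p, le_div_iff₀' p]
      exact ⟨Iff.rfl, Iff.rfl⟩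
  simp only [kbC, mem_ofPred_eq, kbS_iff, (a _ _).1, (a _ _).2]

theorem GGeo_kb_eq {n : ℕ} {δ : ℝ} (hδ : δ = 1 / 2 ^ n) {x y : Rn 3} (hy : y ∈ kbC n x)
    {l : Fin 3} {m : ℤ} (hx : x l = m * δ) : y l = x l := by
  have := (GGeo_kb hδ).1 hy l m
  rw [hx]
  exact le_antisymm (this.2.2 hx.le) (this.1.2 hx.ge)

theorem GGeo_dm {S : Set (Rn 3)} {J : Finset (Fin 3)}
    (h : ∀ x ∈ S, ∀ y ∈ S, ∀ i, i ∉ J → x i = y i) : dm S ≤ J.card := by
  have e : vectorSpan ℝ S ≤ Submodule.span ℝ (range fun j : J => (Pi.single j.1 1 : Rn 3)) := by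
    rw [vectorSpan_def, Submodule.span_le]
    rintro _ ⟨x, hx, y, hy, rfl⟩
    have : x -ᵥ y = ∑ j ∈ J, (x j - y j) • (Pi.single j 1 : Rn 3) := by
      ext i
      simp only [vsub_eq_sub, Pi.sub_apply, Finset.sum_apply, Pi.smul_apply, smul_eq_mul,
        Pi.single_apply, mul_ite, mul_one, mul_zero, Finset.sum_ite_eq]
      split_ifs with hi
      · rfl
      · rw [h x hx y hy i hi, sub_self]
    show x -ᵥ y ∈ _
    rw [this]
    exact Submodule.sum_mem _ fun j hj =>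
      Submodule.smul_mem _ _ (Submodule.subset_span ⟨⟨j, hj⟩, rfl⟩)
  calc dm S ≤ _ := Submodule.finrank_mono e
    _ ≤ Fintype.card J := finrank_range_le_card _
    _ = J.card := Fintype.card_coe J

theorem GGeo_dm_kb {n : ℕ} {δ : ℝ} (hδ : δ = 1 / 2 ^ n) {x : Rn 3} {J : Finset (Fin 3)}
    (h : ∀ i, i ∉ J → ∃ k : ℤ, x i = k * δ) : dm (kbC n x) ≤ J.card :=
  GGeo_dm fun y hy z hz i hi => by
    obtain ⟨k, hk⟩ := h i hi
    rw [GGeo_kb_eq hδ hy hk, GGeo_kb_eq hδ hz hk]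

theorem GGeo_clamp {lo hi z : ℤ} {t : ℝ} (h1 : (lo : ℝ) - 1 < t) (h2 : t < hi + 1)
    (h3 : (z : ℝ) ≤ t) (h4 : t ≤ z + 1) :
    (z : ℝ) ≤ max (lo : ℝ) (min (hi : ℝ) t) ∧ max (lo : ℝ) (min (hi : ℝ) t) ≤ z + 1 := by
  have a : (z : ℝ) ≤ hi := by
    have : (z : ℝ) < hi + 1 := by linarith
    have : z < hi + 1 := by exact_mod_cast this
    exact_mod_cast (by omega : z ≤ hi)
  have b : (lo : ℝ) ≤ z + 1 := by
    have : (lo : ℝ) < z + 2 := by linarith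
    have : lo < z + 2 := by exact_mod_cast this
    exact_mod_cast (by omega : lo ≤ z + 1)
  exact ⟨le_max_of_le_right (le_min a h3), max_le b ((min_le_right _ _).trans h4)⟩

theorem GGeo_int {a b : ℤ} {c : ℝ} (hc : 0 < c) (h : |c * ((a : ℝ) - b)| < c) : a = b := by
  rw [abs_mul, abs_of_pos hc] at h
  have : |(a : ℝ) - b| < 1 := by (refine lt_of_not_ge fun h_nl => ?_; linarith only [h_nl, h, hc, mul_nonneg_of_nonpos_of_nonpos (le_of_lt (Mathlib.Tactic.Linarith.sub_neg_of_lt hc)) (Mathlib.Tactic.Linarith.sub_nonpos_of_le h_nl)])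
  have : |a - b| < 1 := by exact_mod_cast this
  have := Int.abs_lt_one_iff.1 this
  omega

theorem GGeo_mid {δ t : ℝ} (hδ : 0 < δ) (h0 : 0 < t) (h1 : t < 1) (k m : ℤ) :
    ((m : ℝ) * δ ≤ k * δ + t * δ ↔ m ≤ k) ∧ ((k : ℝ) * δ + t * δ ≤ m * δ ↔ k + 1 ≤ m) := by
  rw [← add_mul, mul_le_mul_iff_left₀ hδ, mul_le_mul_iff_left₀ hδ]
  refine ⟨⟨fun h => ?_, fun h => ?_⟩, fun h => ?_, fun h => ?_⟩
  · have : (m : ℝ) < k + 1 := by linarith
    have : m < k + 1 := by exact_mod_cast this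
    omega
  · have : (m : ℝ) ≤ k := by exact_mod_cast h
    linarith
  · have : (k : ℝ) < m := by linarith
    have : k < m := by exact_mod_cast this
    omega
  · have : (k : ℝ) + 1 ≤ m := by exact_mod_cast h
    linarith

theorem GGeo_edge {n : ℕ} {δ : ℝ} (hδ : δ = 1 / 2 ^ n) {a : Rn 3} (ha : ∀ i, ∃ k : ℤ, a i = k * δ)
    (j : Fin 3) : kbC n (a + (1 / 2 : ℝ) • (δ • (Pi.single j 1 : Rn 3))) =
      openSegment ℝ a (a + δ • (Pi.single j 1 : Rn 3)) := by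
  have p : 0 < δ := by rw [hδ]; positivity
  rw [openSegment_eq_image', add_sub_cancel_left]
  obtain ⟨k, hk⟩ := ha j
  have e : ∀ t : ℝ, (a + t • (δ • (Pi.single j 1 : Rn 3))) j = k * δ + t * δ := fun t => by
    simp [hk]
  have e' : ∀ (t : ℝ) i, i ≠ j → (a + t • (δ • (Pi.single j 1 : Rn 3))) i = a i := fun t i hi => by
    simp [hi]
  ext y
  constructor
  · intro hy
    have h1 := (GGeo_kb hδ).1 hy j
    simp only [e] at h1
    have a1 : (k : ℝ) * δ < y j := by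
      by_contra hn
      have := (h1 k).2.1 (not_lt.1 hn)
      linarith only [p, this]
    have a2 : y j < k * δ + δ := by
      by_contra hn
      have := (h1 (k + 1)).1.1 (by push_cast; linarith)
      push_cast at this
      linarith only [p, this]
    refine ⟨(y j - k * δ) / δ, ⟨div_pos (by linarith) p, (div_lt_one p).2 (by linarith)⟩, ?_⟩
    ext i
    by_cases hi : i = j
    · subst hi
      show (a + ((y i - k * δ) / δ) • (δ • (Pi.single i 1 : Rn 3))) i = y i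
      rw [e]
      field_simp
      ring
    · show (a + ((y j - k * δ) / δ) • (δ • (Pi.single j 1 : Rn 3))) i = y i
      obtain ⟨m, hm⟩ := ha i
      rw [e' _ _ hi, GGeo_kb_eq hδ hy (m := m) (by rw [e' _ _ hi, hm]), e' _ _ hi]
  · rintro ⟨t, ⟨t0, t1⟩, rfl⟩
    refine (GGeo_kb hδ).2 fun l m => ?_
    by_cases hl : l = j
    · subst hl
      simp only [e, (GGeo_mid p t0 t1 k m).1, (GGeo_mid p t0 t1 k m).2,
        (GGeo_mid p (t := 1 / 2) (by norm_num) (by norm_num) k m).1,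
        (GGeo_mid p (t := 1 / 2) (by norm_num) (by norm_num) k m).2, and_self]
    · simp only [e' _ _ hl, and_self]

theorem GGeo_prL (I : Finset (Fin 3)) (z : Rn 3) (i : Fin 3) :
    prL I z i = if i ∈ I then z i else 0 := by
  simp only [prL, ContinuousLinearMap.pi_apply]
  split_ifs <;> simp

namespace Cu
variable {C : Cu} {aK : ℝ} {Ω : Set (Rn 3)} {K : Kx Ω} {ch : Set (Rn 3) → Ch} {w : Set (Rn 3) → ℝ}

theorem GGeo_ctr_in {u : I3 × I3} {i : Fin 3} (hi : i ∈ C.I) :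
    C.ctr u i = C.X (fun i => u.1 i) i + (u.2 i + 1 / 2) * C.t0 := by
  simp only [ctr, Pi.add_apply, GGeo_prL, if_pos hi]

theorem GGeo_ctr_out {u : I3 × I3} {i : Fin 3} (hi : i ∉ C.I) :
    C.ctr u i = C.X (fun i => u.1 i) i := by
  simp only [ctr, Pi.add_apply, GGeo_prL, if_neg hi, add_zero]

theorem GGeo_X (C : Cu) (a b : Rn 3) (i : Fin 3) : C.X a i - C.X b i = C.h * C.N (a - b) i := by
  simp only [X, map_sub, Pi.add_apply, Pi.smul_apply, Pi.sub_apply, smul_eq_mul]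
  ring

theorem Ok.GGeo_δ (h : C.Ok aK) : 16 * C.s = 1 / 2 ^ (C.ns - 4) := h.mult.2.2.2.2.2.2

theorem Ok.GGeo_Oq (h : C.Ok aK) : C.O ⊆ C.q :=
  h.O_prop.2.1.trans (ball_subset_closedBall.trans
    (closedBall_subset_closedBall (by linarith [h.pos.2.1])))

theorem Ok.GGeo_Wq (h : C.Ok aK) : C.WI ⊆ C.q := h.WI_prop.2.1.trans h.GGeo_Oq

theorem Ok.adm_finite (h : C.Ok aK) : C.Adm.Finite := by
  obtain ⟨-, -, -, t0, -, r0, -⟩ := h.pos
  obtain ⟨k, hk⟩ := h.mult.2.1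
  refine ((h.O_prop.2.2.2.2.2.1).prod
    (finite_Icc (fun _ => (0 : ℤ) : I3) (fun _ => (k : ℤ)))).subset ?_
  rintro u ⟨h1, h2, h3⟩
  have key : ∀ i, 0 ≤ u.2 i ∧ u.2 i ≤ k := fun i => by
    by_cases hi : i ∈ C.I
    · obtain ⟨a, b⟩ := h3 i hi
      have a' : (0 : ℝ) ≤ u.2 i := by
        by_contra hn
        linarith only [r0, a, t0, hn, not_le.1 hn, mul_pos_of_neg_of_neg (Mathlib.Tactic.Linarith.sub_neg_of_lt t0) (Mathlib.Tactic.Linarith.sub_neg_of_lt (lt_of_not_ge hn))]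
      have b' : (u.2 i : ℝ) ≤ k := by
        by_contra hn
        linarith only [t0, r0, hk, b, hn, not_le.1 hn, mul_pos_of_neg_of_neg (Mathlib.Tactic.Linarith.sub_neg_of_lt t0) (Mathlib.Tactic.Linarith.sub_neg_of_lt (lt_of_not_ge hn))]
      exact ⟨by exact_mod_cast a', by exact_mod_cast b'⟩
    · rw [h2 i hi]
      exact ⟨le_rfl, by positivity⟩
  exact ⟨h1, fun i => (key i).1, fun i => (key i).2⟩

theorem Ok.Q_sub (h : C.Ok aK) {u : I3 × I3} (hu : u ∈ C.Adm) :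
    C.Q u (C.t0 / 2 + 3 * C.ρ') ⊆ C.icl u.1 ∧ C.icl u.1 ⊆ C.WI ∧
      ball (C.ctr u) (3 * C.ρ') ⊆ C.O ∧ ∀ i, ∃ k : ℤ, C.ctr u i = k * (16 * C.s) := by
  obtain ⟨-, h0, -, t0, -, r0, -⟩ := h.pos
  obtain ⟨h1, h2, h3⟩ := hu
  have q1 : C.Q u (C.t0 / 2 + 3 * C.ρ') ⊆ C.icl u.1 := fun x hx => by
    obtain ⟨a, b⟩ := hx
    refine h.mem_icl.2 ⟨fun i hi => (a i hi).trans (GGeo_ctr_out hi), fun i hi => ?_⟩
    have b' : |x i - C.ctr u i| ≤ C.t0 / 2 + 3 * C.ρ' := b i hi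
    rw [GGeo_ctr_in hi, abs_le] at b'
    obtain ⟨c, d⟩ := h3 i hi
    constructor <;> linarith only [b', c, d, b'.1, b'.2]
  refine ⟨q1, fun x hx => ⟨u.1, h1, hx⟩, fun x hx z hz => ?_, fun i => ?_⟩
  · have c0 : C.ctr u ∈ C.icl u.1 := q1 ((mem_Q (by positivity)).2
      ⟨fun _ _ => rfl, by rw [sub_self, norm_zero]; positivity⟩)
    have n1 : ‖C.ξ x - C.ξ (C.ctr u)‖ < 1 := by
      have a := h.Xξ.2.2.2.2.2 x (C.ctr u)
      have b : ‖x - C.ctr u‖ < 3 * C.ρ' := mem_ball_iff_norm.1 hx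
      have c := h.num.2.2.2.2.2.2.2.2.1
      by_contra hn
      linarith only [r0, a, b, c, h0, hn, not_lt.1 hn, mul_nonneg_of_nonpos_of_nonpos (le_of_lt (Mathlib.Tactic.Linarith.sub_neg_of_lt h0)) (Mathlib.Tactic.Linarith.sub_nonpos_of_le (le_of_not_gt hn))]
    have n2 : ∀ i, |C.ξ x i - C.ξ (C.ctr u) i| < 1 := fun i =>
      (norm_le_pi_norm (C.ξ x - C.ξ (C.ctr u)) i).trans_lt n1
    let hi : I3 := fun i => if i ∈ C.I then u.1 i + 1 else u.1 i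
    let ξ' : Rn 3 := fun i => max (u.1 i : ℝ) (min (hi i : ℝ) (C.ξ x i))
    have e : C.ξ (C.X ξ') = ξ' := h.Xξ.2.1 _
    have hi1 : ∀ i, (hi i : ℝ) ≤ u.1 i + 1 := fun i => by
      simp only [hi]
      split_ifs
      · push_cast
        exact le_rfl
      · linarith
    have hi2 : ∀ i, C.ξ (C.ctr u) i ≤ hi i := fun i => by
      simp only [hi]
      split_ifs with hI
      · push_cast
        exact (c0.1 i).2
      · exact (c0.2 i hI).le
    refine h1 (a := C.X ξ') ⟨fun i => ?_, fun i hI => ?_⟩ z fun i => ?_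
    · rw [e]
      exact ⟨le_max_left _ _, max_le (by linarith) ((min_le_left _ _).trans (hi1 i))⟩
    · rw [e]
      simp only [ξ', hi, if_neg hI]
      exact max_eq_left (min_le_left _ _)
    · rw [e]
      have a := abs_lt.1 (n2 i)
      exact GGeo_clamp (by linarith [(c0.1 i).1, a.1]) (by linarith [hi2 i, a.2]) (hz i).1 (hz i).2
  · obtain ⟨k, hk⟩ := h.X_lat u.1 i
    obtain ⟨-, ⟨k1, e1⟩, ⟨k2, e2⟩, -⟩ := h.mult
    have e3 : C.t0 = 2 * k2 * (16 * C.s) := by linarith only [e2]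
    by_cases hi : i ∈ C.I
    · refine ⟨k * k1 * (2 * k2) + (2 * u.2 i + 1) * k2, ?_⟩
      rw [GGeo_ctr_in hi, hk, e1, e3]
      push_cast
      ring
    · refine ⟨k * k1 * (2 * k2), ?_⟩
      rw [GGeo_ctr_out hi, hk, e1, e3]
      push_cast
      ring

theorem Ok.tile_sep (h : C.Ok aK) {u u' : I3 × I3} (hu : u ∈ C.Adm) (hu' : u' ∈ C.Adm)
    (hn : u ≠ u') : C.t0 ≤ ‖C.ctr u - C.ctr u'‖ ∧ (‖C.ctr u - C.ctr u'‖ < 2 * C.ρ' → u.1 = u'.1) ∧
      (u.1 = u'.1 → ∀ i, i ∉ C.I → C.ctr u i = C.ctr u' i) := by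
  obtain ⟨-, h0, -, t0, -, r0, -, -, b8, -⟩ := h.pos
  have r1 := h.num.2.2.2.2.2.2.2.2.1
  have nc : ∀ i, |C.ctr u i - C.ctr u' i| ≤ ‖C.ctr u - C.ctr u'‖ := fun i =>
    norm_le_pi_norm (C.ctr u - C.ctr u') i
  have two : ‖C.ctr u - C.ctr u'‖ < 2 * C.ρ' → u.1 = u'.1 := fun hl => by
    set v : Rn 3 := (fun i => (u.1 i : ℝ)) - fun i => (u'.1 i : ℝ) with hv
    have o : ∀ i, i ∉ C.I → u.1 i = u'.1 i := fun i hi => by
      have a := (nc i).trans_lt hl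
      rw [GGeo_ctr_out hi, GGeo_ctr_out hi, GGeo_X, (h.nN _).2.2.2.2.2 i hi, ← mul_assoc] at a
      exact GGeo_int (c := C.h * C.b) (by positivity) (a.trans (by linarith only [r0, r1, h0, b8, mul_nonneg_of_nonpos_of_nonpos (le_of_lt (Mathlib.Tactic.Linarith.sub_neg_of_lt h0)) (Mathlib.Tactic.Linarith.sub_nonpos_of_le b8)]))
    have pv : prL C.I v = v := by
      ext i
      rw [GGeo_prL]
      split_ifs with hi
      · rfl
      · simp [hv, o i hi]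
    have nv : C.N v = v := by
      have := (h.nN v).2.2.1
      rwa [pv] at this
    ext i
    by_cases hi : i ∈ C.I
    · have a := abs_lt.1 ((nc i).trans_lt hl)
      have e := C.GGeo_X (fun i => (u.1 i : ℝ)) (fun i => (u'.1 i : ℝ)) i
      rw [← hv, nv] at e
      rw [GGeo_ctr_in hi, GGeo_ctr_in hi] at a
      obtain ⟨c, d⟩ := hu.2.2 i hi
      obtain ⟨c', d'⟩ := hu'.2.2 i hi
      refine GGeo_int h0 ?_
      have e' : C.h * ((u.1 i : ℝ) - u'.1 i) = C.h * v i := rfl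
      rw [e', ← e, abs_lt]
      constructor <;> linarith only [t0, r0, a, d, c', c, d', a.1, a.2]
    · exact o i hi
  refine ⟨?_, two, fun e i hi => by rw [GGeo_ctr_out hi, GGeo_ctr_out hi, e]⟩
  by_contra hl
  rw [not_le] at hl
  have e := two (by linarith [h.ρ1])
  refine hn (Prod.ext e (funext fun i => ?_))
  by_cases hi : i ∈ C.I
  · have a := (nc i).trans_lt hl
    rw [GGeo_ctr_in hi, GGeo_ctr_in hi, e] at a
    refine GGeo_int t0 (lt_of_eq_of_lt (congrArg abs ?_) a)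
    ring
  · rw [hu.2.1 i hi, hu'.2.1 i hi]

theorem GGeo_Q_mono {u : I3 × I3} {R R' : ℝ} (hR : R ≤ R') : C.Q u R ⊆ C.Q u R' :=
  fun _ hx => ⟨hx.1, fun i hi => (hx.2 i hi).trans hR⟩

theorem Ok.GGeo_QW (h : C.Ok aK) {u : I3 × I3} (hu : u ∈ C.Adm) {R : ℝ} (hR : R ≤ C.t0 / 2) :
    C.Q u R ⊆ C.WI :=
  (GGeo_Q_mono (by linarith only [hR, h, h.pos.2.2.2.2.2.1])).trans
    ((h.Q_sub hu).1.trans (h.Q_sub hu).2.1)

theorem Ok.zone_sub (h : C.Ok aK) {u : I3 × I3} (hu : u ∈ C.Adm) : C.zone u ⊆ C.O ∧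
    MeasurableSet (C.zone u) := by
  obtain ⟨-, -, s0, -, -, r0, -, z0, -⟩ := h.pos
  obtain ⟨-, n2, -, -, n5, -⟩ := h.num
  refine ⟨union_subset ((h.GGeo_QW hu (by linarith only [s0, n2, z0, n5, mul_pos_of_neg_of_neg (Mathlib.Tactic.Linarith.sub_neg_of_lt s0) (Mathlib.Tactic.Linarith.sub_neg_of_lt z0), mul_nonneg_of_nonpos_of_nonpos (le_of_lt (Mathlib.Tactic.Linarith.sub_neg_of_lt s0)) (Mathlib.Tactic.Linarith.sub_nonpos_of_le n5)])).trans h.WI_prop.2.1) fun x hx =>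
    (h.Q_sub hu).2.2.1 (mem_ball_iff_norm.2 (by linarith only [r0, hx, hx.2.1])),
    (C.Q_cpt u _).1.isClosed.measurableSet.union (IsOpen.measurableSet ?_)⟩
  simp only [ofPred_and, ofPred_exists]
  refine isOpen_const.inter ((isOpen_lt (by fun_prop) continuous_const).inter
    (isOpen_iUnion fun i => isOpen_const.inter ?_))
  exact isOpen_ne_fun (continuous_apply i) continuous_const

theorem Ok.GGeo_r (h : C.Ok aK) : ∃ m : ℤ, (C.r : ℝ) + 8 = 16 * m := by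
  obtain ⟨k, -, hk⟩ := h.dvd
  obtain ⟨j, hj⟩ := Nat.exists_eq_add_of_le h.nl4
  refine ⟨k * 2 ^ j, ?_⟩
  have : ((C.r + 8 : ℕ) : ℝ) = ((k * 2 ^ C.nl : ℕ) : ℝ) := by rw [hk]
  rw [hj] at this
  push_cast at this ⊢
  rw [this]
  ring

theorem Ok.GGeo_sh (h : C.Ok aK) {u : I3 × I3} (hu : u ∈ C.Adm) (l : Fin 3) : ∃ m : ℤ, ∀ t : ℝ,
    ((t - C.ctr u l) / C.s - (C.r + 8)) / 16 = 2 ^ (C.ns - 4) * t - m := by
  obtain ⟨m, hm⟩ := h.GGeo_r
  obtain ⟨k, hk⟩ := (h.Q_sub hu).2.2.2 l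
  have s0 := h.pos.2.2.1
  have e : (2 : ℝ) ^ (C.ns - 4) = 1 / (16 * C.s) := by
    rw [h.GGeo_δ, one_div_one_div]
  refine ⟨k + m, fun t => ?_⟩
  rw [hm, hk, e]
  push_cast
  field_simp
  ring

theorem Ok.grid (h : C.Ok aK) {u : I3 × I3} (hu : u ∈ C.Adm) (y : Rn 3) {x : Rn 3}
    (hx : x ∈ C.Q u (C.t0 / 2)) : kbC (C.ns - 4) x = ((C.pc u y).box C.r).cc C.s x := by
  ext z
  show z ∈ kbC (C.ns - 4) x ↔ (∀ l, l ∉ C.I → z l = C.ctr u l) ∧ ∀ l ∈ C.I,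
    ⌊((z l - C.ctr u l) / C.s - (C.r + 8)) / 16⌋ = ⌊((x l - C.ctr u l) / C.s - (C.r + 8)) / 16⌋ ∧
    ⌈((z l - C.ctr u l) / C.s - (C.r + 8)) / 16⌉ = ⌈((x l - C.ctr u l) / C.s - (C.r + 8)) / 16⌉
  have x1 : ∀ l, l ∉ C.I → x l = C.ctr u l := hx.1
  constructor
  · intro hz
    refine ⟨fun l hl => ?_, fun l _ => ?_⟩
    · obtain ⟨k, hk⟩ := (h.Q_sub hu).2.2.2 l
      rw [GGeo_kb_eq h.GGeo_δ hz ((x1 l hl).trans hk), x1 l hl]
    · obtain ⟨m, hm⟩ := h.GGeo_sh hu l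
      rw [hm, hm, Int.floor_sub_intCast, Int.floor_sub_intCast, Int.ceil_sub_intCast,
        Int.ceil_sub_intCast, (hz l).1, (hz l).2]
      exact ⟨rfl, rfl⟩
  · rintro ⟨a, b⟩ l
    by_cases hl : l ∈ C.I
    · obtain ⟨m, hm⟩ := h.GGeo_sh hu l
      have := b l hl
      rw [hm, hm, Int.floor_sub_intCast, Int.floor_sub_intCast, Int.ceil_sub_intCast,
        Int.ceil_sub_intCast, sub_left_inj, sub_left_inj] at this
      exact this
    · rw [a l hl, x1 l hl]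
      exact ⟨rfl, rfl⟩

theorem Fit.GGeo_WΩ (hf : C.Fit aK K ch w) (h : C.Ok aK) : C.WI ⊆ Ω := h.GGeo_Wq.trans hf.sub

theorem Fit.GGeo_OΩ (hf : C.Fit aK K ch w) (h : C.Ok aK) : C.O ⊆ Ω := h.GGeo_Oq.trans hf.sub

theorem Fit.icl_cel (hf : C.Fit aK K ch w) (h : C.Ok aK) {z : I3} (hz : C.icl z ⊆ C.O) {x : Rn 3}
    (hx : x ∈ C.icl z) : K.cell x ⊆ C.icl z := by
  rw [hf.fine x ⟨z, hz, hx⟩]
  exact (h.WI_prop.2.2.2.1 z x hx).2.trans (h.WI_prop.2.2.2.1 z x hx).1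

theorem Fit.WI_sk (hf : C.Fit aK K ch w) (h : C.Ok aK) : C.WI ⊆ K.sk C.I.card := by
  intro x hx
  refine ⟨hf.GGeo_WΩ h hx, GGeo_dm fun a ha b hb i hi => ?_⟩
  obtain ⟨z, hz, hx⟩ := hx
  rw [(h.mem_icl.1 (hf.icl_cel h hz hx ha)).1 i hi, (h.mem_icl.1 (hf.icl_cel h hz hx hb)).1 i hi]

theorem Fit.cel (hf : C.Fit aK K ch w) (h : C.Ok aK) {u : I3 × I3} (hu : u ∈ C.Adm) {R : ℝ}
    (hR : ∃ k : ℕ, R = k * (16 * C.s)) (h2 : R ≤ C.t0 / 2) {x : Rn 3} (hx : x ∈ C.Q u R) :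
    K.cell x ⊆ C.Q u R := by
  rw [hf.fine x (h.GGeo_QW hu h2 hx)]
  obtain ⟨k, hk⟩ := hR
  intro y hy
  refine ⟨fun i hi => ?_, fun i hi => ?_⟩
  · obtain ⟨m, hm⟩ := (h.Q_sub hu).2.2.2 i
    have x1 : x i = C.ctr u i := hx.1 i hi
    exact (GGeo_kb_eq h.GGeo_δ hy (x1.trans hm)).trans x1
  · obtain ⟨m, hm⟩ := (h.Q_sub hu).2.2.2 i
    have x1 : |x i - C.ctr u i| ≤ R := hx.2 i hi
    show |y i - C.ctr u i| ≤ R
    rw [hm, abs_le] at x1 ⊢
    have a := ((GGeo_kb h.GGeo_δ).1 hy i (m - k)).1.2 (by push_cast; linarith only [hk, x1, x1.1])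
    have b := ((GGeo_kb h.GGeo_δ).1 hy i (m + k)).2.2 (by push_cast; linarith only [hk, x1, x1.2])
    push_cast at a b
    constructor <;> linarith only [hk, a, b]

theorem Fit.GGeo_long (hf : C.Fit aK K ch w) (h : C.Ok aK) {z : I3} {x : Rn 3} (hO : x ∈ C.O)
    (hW : x ∉ C.WI) (hx : x ∈ C.X '' cu z) : K.cell x = C.X '' cu z ∧ dm (K.cell x) = 3 := by
  have e : K.cell x = C.X '' cu z := (hf.long x hO hW).trans ((h.bx_prop z).2.2.2.2.1 x hx)
  refine ⟨e, (Kx.dm_three (K.cell_mem (hf.GGeo_OΩ h hO))).2 ?_⟩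
  rw [e, ← (h.bx_prop z).2.2.1]
  exact isOpen_interior

theorem Fit.bx_cel (hf : C.Fit aK K ch w) (h : C.Ok aK) {z : I3} (hz : C.bx z ⊆ C.O) :
    (∀ x ∈ C.bx z, K.cell x ⊆ C.bx z) ∧ (C.I.card < 3 → C.X '' cu z ∈ C.S2 K) ∧
      ∀ σ ∈ C.S2 K, σ ⊆ C.bx z → σ = C.X '' cu z := by
  obtain ⟨-, -, b3, b4, -⟩ := h.bx_prop z
  have sub : C.X '' cu z ⊆ C.bx z := b3 ▸ interior_subset
  refine ⟨fun x hx => ?_, fun hc => ?_, fun σ hσ hs => ?_⟩
  · by_cases hW : x ∈ C.WI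
    · rw [hf.fine x hW]
      obtain ⟨z', -, hx'⟩ := hW
      exact (h.WI_prop.2.2.2.1 z' x hx').2.trans (b4 x hx)
    · rw [hf.long x (hz hx) hW]
      exact b4 x hx
  · let ξ0 : Rn 3 := fun i => z i + 1 / 2
    have m0 : C.X ξ0 ∈ C.X '' cu z :=
      ⟨ξ0, fun i => ⟨by simp only [ξ0]; linarith only [], by simp only [ξ0]; linarith only []⟩, rfl⟩
    have nW : C.X ξ0 ∉ C.WI := by
      rintro ⟨z', -, hx⟩
      obtain ⟨i, hi⟩ : ∃ i, i ∉ C.I := by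
        by_contra hn
        push Not at hn
        rw [Finset.eq_univ_of_forall hn] at hc
        simp at hc
      have a := hx.2 i hi
      rw [h.Xξ.2.1] at a
      have a' : (z i : ℝ) + 1 / 2 = z' i := a
      have b : ((2 * z i + 1 : ℤ) : ℝ) = ((2 * z' i : ℤ) : ℝ) := by
        push_cast
        linarith only [a']
      have := Int.cast_injective b
      omega
    obtain ⟨e, d⟩ := hf.GGeo_long h (hz (sub m0)) nW m0
    exact ⟨e ▸ ⟨K.cell_mem (hf.GGeo_OΩ h (hz (sub m0))), d⟩, fun hs => nW (hs m0), z, hz, sub⟩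
  · obtain ⟨⟨c, d⟩, nW, -⟩ := hσ
    obtain ⟨x, hx, hW⟩ := not_subset.1 nW
    have hi : σ ⊆ C.X '' cu z := b3 ▸ interior_maximal hs ((Kx.dm_three c).1 d)
    rw [← Kx.cell_eq c hx]
    exact (hf.GGeo_long h (hz (hs hx)) hW (hi hx)).1

theorem Fit.near2 (hf : C.Fit aK K ch w) (h : C.Ok aK) (hc : C.I.card = 2) {u : I3 × I3}
    (hu : u ∈ C.Adm) {x : Rn 3} (hx : x ∈ K.sk 2) (hn : ‖x - C.ctr u‖ < C.t0 / 2 + C.ρ') :
    ∀ i, i ∉ C.I → x i = C.ctr u i := by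
  intro i hi
  by_contra hne
  obtain ⟨-, h0, -, t0, -, r0, -, -, b8, -⟩ := h.pos
  have r1 := h.num.2.2.2.2.2.2.2.2.1
  have r2 := h.ρ1
  have oth : ∀ j, j ≠ i → j ∈ C.I := fun j hj => by
    by_contra hj'
    have : C.Iᶜ.card ≤ 1 := by
      rw [Finset.card_compl, hc]
      simp
    exact hj (Finset.card_le_one.1 this j (Finset.mem_compl.2 hj') i (Finset.mem_compl.2 hi))
  have nc : ∀ j, |x j - C.ctr u j| < C.t0 / 2 + C.ρ' := fun j =>
    (norm_le_pi_norm (x - C.ctr u) j).trans_lt hn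
  set v : Rn 3 := C.ξ x - fun i => (u.1 i : ℝ) with hv
  have ex : ∀ j, x j - C.X (fun i => u.1 i) j = C.h * C.N v j := fun j => by
    rw [← C.GGeo_X, h.Xξ.1]
  have dec : v = prL C.I v + v i • (Pi.single i 1 : Rn 3) := by
    ext j
    rw [Pi.add_apply, GGeo_prL]
    by_cases hj : j = i
    · subst hj
      simp [hi]
    · simp [oth j hj, hj]
  have nv : ∀ j, C.N v j = prL C.I v j + v i * C.N (Pi.single i 1) j := fun j => by
    conv_lhs => rw [dec, map_add, map_smul, (h.nN v).2.2.1]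
    rfl
  have ei : x i - C.ctr u i = C.h * (C.b * v i) := by
    rw [GGeo_ctr_out hi, ex, (h.nN v).2.2.2.2.2 i hi]
  have vi : C.h * C.b * |v i| < C.t0 / 2 + C.ρ' := by
    have := nc i
    rwa [ei, ← mul_assoc, abs_mul, abs_of_pos (by positivity : 0 < C.h * C.b)] at this
  have key : ∀ j, v j ≠ 0 ∧ |v j| < 1 := fun j => by
    by_cases hj : j = i
    · subst hj
      refine ⟨fun e => hne (by rw [e, mul_zero, mul_zero] at ei; linarith only [ei]), ?_⟩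
      by_contra hl
      have : C.h * C.b * 1 ≤ C.h * C.b * |v j| := by gcongr; exact not_lt.1 hl
      linarith only [r0, r1, r2, vi, this, h0, b8, mul_nonneg_of_nonpos_of_nonpos (le_of_lt (Mathlib.Tactic.Linarith.sub_neg_of_lt h0)) (Mathlib.Tactic.Linarith.sub_nonpos_of_le b8)]
    · have hj' := oth j hj
      obtain ⟨k, e1, e2⟩ := h.int j i
      have a := abs_lt.1 (nc j)
      have b := ex j
      rw [nv, GGeo_prL, if_pos hj', e1] at b
      rw [GGeo_ctr_in hj'] at a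
      obtain ⟨c, d⟩ := hu.2.2 j hj'
      have e3 : |C.h * (v i * k)| ≤ C.h * C.b * |v i| := by
        rw [abs_mul, abs_mul, abs_of_pos h0, mul_assoc, mul_comm C.b]
        gcongr
      have e4 := abs_le.1 e3
      have p1 : 0 < C.h * v j := by linarith only [r0, r2, vi, a, b, c, e4, a.1, e4.2]
      have p2 : C.h * v j < C.h * 1 := by linarith only [r0, r2, vi, a, b, d, e4, a.2, e4.1]
      have p3 : 0 < v j := (mul_pos_iff_of_pos_left h0).1 p1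
      exact ⟨p3.ne', by rw [abs_of_pos p3]; exact lt_of_mul_lt_mul_left p2 h0.le⟩
  have nint : ∀ j, ∀ k : ℤ, C.ξ x j ≠ k := fun j k e => by
    have e' : v j = (k : ℝ) - u.1 j := by rw [← e]; rfl
    have := GGeo_int (a := k) (b := u.1 j) one_pos (by rw [one_mul, ← e']; exact (key j).2)
    exact (key j).1 (by rw [e', this, sub_self])
  have hO : x ∈ C.O := (h.Q_sub hu).2.2.1 (mem_ball_iff_norm.2 (by linarith only [hn, r0, r2]))
  have hW : x ∉ C.WI := fun ⟨z, _, hz⟩ => nint i _ (hz.2 i hi)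
  have := (hf.GGeo_long h (z := fun j => ⌊C.ξ x j⌋) hO hW ⟨C.ξ x, fun j =>
    ⟨lt_of_le_of_ne (Int.floor_le _) (nint j _).symm, Int.lt_floor_add_one _⟩, h.Xξ.1 x⟩).2
  have := hx.2
  omega

theorem Fit.frz (hf : C.Fit aK K ch w) (h : C.Ok aK) (hc : 2 ≤ C.I.card) {u : I3 × I3}
    (hu : u ∈ C.Adm) {F : Set (Rn 3)} (hF : F ∈ K.cel 2)
    (hn : (closure F ∩ C.Q u (C.ρx + 22 * C.s)).Nonempty) : F ⊆ C.Q u (C.ρx + 32 * C.s) := by
  obtain ⟨-, -, s0, -, l0, r0, -, z0, -⟩ := h.pos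
  obtain ⟨-, n2, -, -, n5, n6, n7, -⟩ := h.num
  obtain ⟨-, -, -, ⟨k1, e1⟩, -, ⟨k2, e2⟩, -⟩ := h.mult
  obtain ⟨p, hp, hq⟩ := hn
  obtain ⟨y, hy, hd⟩ := Metric.mem_closure_iff.1 hp (10 * C.s) (by positivity)
  have q2 := ((mem_Q (by linarith only [s0, l0, n6, n7])).1 hq).2
  have hR : C.ρx + 32 * C.s ≤ C.t0 / 2 := by linarith only [s0, n2, z0, n5, mul_pos_of_neg_of_neg (Mathlib.Tactic.Linarith.sub_neg_of_lt s0) (Mathlib.Tactic.Linarith.sub_neg_of_lt z0), mul_nonneg_of_nonpos_of_nonpos (le_of_lt (Mathlib.Tactic.Linarith.sub_neg_of_lt s0)) (Mathlib.Tactic.Linarith.sub_nonpos_of_le n5)]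
  have ny : ‖y - C.ctr u‖ ≤ C.ρx + 32 * C.s := by
    have := norm_sub_le_norm_sub_add_norm_sub y p (C.ctr u)
    rw [dist_comm, dist_eq_norm] at hd
    linarith only [hd, q2, this]
  have e := Kx.cell_eq hF.1 hy
  have sl : ∀ i, i ∉ C.I → y i = C.ctr u i := by
    rcases hc.eq_or_lt with h2 | h3
    · exact hf.near2 h h2.symm hu ⟨Kx.cells_sub hF.1 hy, by rw [e]; exact hF.2.le⟩ (by linarith only [r0, hR, ny])
    · intro i hi
      have : C.I = Finset.univ := Finset.eq_univ_of_card _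
        (le_antisymm (Finset.card_le_univ _) (by simpa using Nat.succ_le_of_lt h3))
      exact absurd (this ▸ Finset.mem_univ i) hi
  rw [← e]
  refine hf.cel h hu ⟨k2 * k1 + 2, ?_⟩ hR ((mem_Q (by linarith only [s0, l0, n6, n7])).2 ⟨sl, ny⟩)
  rw [e2, e1]
  push_cast
  ring

theorem Fit.sphere_sk (hf : C.Fit aK K ch w) (h : C.Ok aK) (hc : C.I.card = 3) {u : I3 × I3}
    (hu : u ∈ C.Adm) : sphere (C.ctr u) (C.t0 / 2) ⊆ K.sk 2 := by
  intro x hx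
  have t0 := h.pos.2.2.2.1
  have hI : C.I = Finset.univ := Finset.eq_univ_of_card _ (by simpa using hc)
  have nx : ‖x - C.ctr u‖ = C.t0 / 2 := mem_sphere_iff_norm.1 hx
  have hW : x ∈ C.WI := h.GGeo_QW hu le_rfl ((mem_Q (by positivity)).2
    ⟨fun i hi => absurd (hI ▸ Finset.mem_univ i) hi, nx.le⟩)
  obtain ⟨i, hi⟩ : ∃ i, |x i - C.ctr u i| = C.t0 / 2 := by
    by_contra hn
    push Not at hn
    have : ‖x - C.ctr u‖ < C.t0 / 2 := (pi_norm_lt_iff (by positivity)).2 fun i =>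
      lt_of_le_of_ne ((norm_le_pi_norm (x - C.ctr u) i).trans nx.le) (hn i)
    linarith only [nx, this]
  refine ⟨hf.GGeo_WΩ h hW, ?_⟩
  rw [hf.fine x hW]
  refine (GGeo_dm_kb h.GGeo_δ (J := Finset.univ.erase i) fun j hj => ?_).trans (by simp)
  have : j = i := by simpa using hj
  subst this
  obtain ⟨m, hm⟩ := (h.Q_sub hu).2.2.2 j
  obtain ⟨k, hk⟩ := h.mult.2.2.1
  rcases (abs_eq (by positivity)).1 hi with e | e
  · exact ⟨m + k, by push_cast; linarith only [hm, hk, e]⟩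
  · exact ⟨m - k, by push_cast; linarith only [hm, hk, e]⟩

theorem Fit.Sk_sk (hf : C.Fit aK K ch w) (h : C.Ok aK) {u : I3 × I3} (hu : u ∈ C.Adm) (y : Rn 3) :
    ((C.pc u y).box C.r).Sk C.s ∩ C.Q u (C.t0 / 2) ⊆ K.sk 2 := by
  classical
  rintro x ⟨⟨-, h2⟩, hx⟩
  have hW : x ∈ C.WI := h.GGeo_QW hu le_rfl hx
  refine ⟨hf.GGeo_WΩ h hW, ?_⟩
  rw [hf.fine x hW]
  refine (GGeo_dm_kb h.GGeo_δ (fun j hj => ?_)).trans (h2.trans one_le_two)
  by_cases hI : j ∈ C.I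
  · obtain ⟨m, hm⟩ := h.GGeo_sh hu j
    have d0 : dd (((x j - C.ctr u j) / C.s - (C.r + 8)) / 16) = 0 := by
      by_contra hn
      exact hj (Finset.mem_filter.2 ⟨hI, hn⟩)
    rw [hm, dd, abs_eq_zero] at d0
    refine ⟨round (2 ^ (C.ns - 4) * x j - m) + m, ?_⟩
    rw [h.GGeo_δ, mul_one_div, eq_div_iff (by positivity)]
    push_cast
    linarith only [d0]
  · obtain ⟨m, hm⟩ := (h.Q_sub hu).2.2.2 j
    exact ⟨m, (hx.1 j hI).trans hm⟩

theorem Ok.Ed0_finite (h : C.Ok aK) : C.Ed0.Finite := by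
  have f1 : {a : Rn 3 | a ∈ C.WI ∧ ∀ i, ∃ k : ℤ, a i = k * (16 * C.s)}.Finite := by
    refine Finite.of_finite_image (f := kbC (C.ns - 4))
      ((kbC_finite _ h.WI_prop.1).subset (image_mono fun a ha => ha.1)) fun a ha b _ e => ?_
    ext i
    obtain ⟨k, hk⟩ := ha.2 i
    exact (GGeo_kb_eq h.GGeo_δ (e ▸ kbC_self : b ∈ kbC (C.ns - 4) a) hk).symm
  refine ((f1.prod (finite_univ (α := Fin 3))).image fun p =>
    (p.1, p.1 + (16 * C.s) • (Pi.single p.2 1 : Rn 3))).subset ?_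
  rintro e ⟨j, -, h2, h3, z, h4, h5⟩
  exact ⟨(e.1, j), ⟨⟨⟨z, h4, h5 (left_mem_segment _ _ _)⟩, h3⟩, mem_univ _⟩, Prod.ext rfl h2.symm⟩

theorem Fit.edge (hf : C.Fit aK K ch w) (h : C.Ok aK) {e : Rn 3 × Rn 3} (he : e ∈ C.Ed0) :
    K.Edge e.1 e.2 ∧ segment ℝ e.1 e.2 ⊆ C.WI ∧ ‖e.2 - e.1‖ = 16 * C.s := by
  obtain ⟨j, -, h2, h3, z, h4, h5⟩ := he
  have s0 := h.pos.2.2.1
  have sW : segment ℝ e.1 e.2 ⊆ C.WI := fun x hx => ⟨z, h4, h5 hx⟩
  have nn : ‖e.2 - e.1‖ = 16 * C.s := by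
    rw [h2, add_sub_cancel_left, norm_smul, Pi.norm_single, norm_one, mul_one,
      Real.norm_of_nonneg (by positivity)]
  refine ⟨⟨fun e0 => ?_, ?_⟩, sW, nn⟩
  · rw [← e0, sub_self, norm_zero] at nn
    linarith only [s0, nn]
  · have k := GGeo_edge h.GGeo_δ h3 j
    rw [← h2] at k
    have mW := sW (openSegment_subset_segment _ _ _ (k ▸ kbC_self))
    exact ⟨_, hf.GGeo_WΩ h mW, (hf.fine _ mW).trans k⟩

theorem Fit.cav (hf : C.Fit aK K ch w) (h : C.Ok aK) {σ : Set (Rn 3)} (hσ : σ ∈ C.S0 K) :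
    1 ≤ C.ca aK σ ∧ 0 < C.cl σ ∧ Cbe (C.cN σ ⁻¹' σ) (C.ca aK σ) (C.cl σ) ∧
      ∀ F ∈ K.fc σ, F ⊆ C.q ∧ (ch F).Of F ∧ (ch F).Bi (C.cN σ) (C.ca aK σ) := by
  obtain ⟨-, h0, s0, -, -, -, -, -, -, a0⟩ := h.pos
  obtain ⟨⟨c, d⟩, hq⟩ := hσ
  have Fq : ∀ F ∈ K.fc σ, F ⊆ C.q := fun F hF =>
    hF.2.trans (closure_minimal hq isClosed_closedBall)
  by_cases hW : σ ⊆ C.WI
  · have e1 : C.cN σ = idE := if_neg fun hh => hh.1 hW
    have e2 : C.ca aK σ = 1 := if_pos (Or.inl hW)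
    have e3 : C.cl σ = 8 * C.s := if_pos hW
    rw [e1, e2, e3]
    refine ⟨le_rfl, by positivity, ?_, fun F hF => ⟨Fq F hF, (hf.face F hF.1 (Fq F hF)).1,
      (hf.ff F hF.1 (hF.2.trans (closure_minimal hW h.WI_prop.1.isClosed))).2.2.1⟩⟩
    obtain ⟨x, hx⟩ := Kx.cells_ne c
    have e : σ = BEp.lc idE 0 (16 * C.s) x := by
      rw [← Kx.cell_eq c hx, hf.fine x (hW hx), kbC_lc, h.GGeo_δ]
    have := lc_cbe (N := idE) (o := 0) (x := x) (h := 16 * C.s) (by positivity) (e ▸ d)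
    rwa [← e, show 16 * C.s / 2 = 8 * C.s by ring] at this
  · by_cases hL : C.Lng σ
    · have e1 : C.cN σ = C.N := if_pos ⟨hW, hL⟩
      have e2 : C.ca aK σ = 1 := if_pos (Or.inr hL)
      have e3 : C.cl σ = C.h / 2 := (if_neg hW).trans (if_pos hL)
      rw [e1, e2, e3]
      obtain ⟨z, hz, hs⟩ := hL
      refine ⟨le_rfl, by positivity, ?_, fun F hF => ⟨Fq F hF, (hf.face F hF.1 (Fq F hF)).1, ?_⟩⟩
      · obtain ⟨x, hx, hx'⟩ := not_subset.1 hW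
        have e : σ = BEp.lc C.N C.o C.h x := by
          rw [← Kx.cell_eq c hx, hf.long x (hz (hs hx)) hx']
          rfl
        have := lc_cbe (N := C.N) (o := C.o) (x := x) h0 (e ▸ d)
        rwa [← e] at this
      · by_cases hFW : F ⊆ C.WI
        · exact (hf.ff F hF.1 hFW).2.2.2
        · exact (hf.fl F hF.1 ((hF.2.trans
            (closure_minimal hs (h.bx_prop z).1.isClosed)).trans hz) hFW).2
    · have e1 : C.cN σ = idE := if_neg fun hh => hL hh.2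
      have e2 : C.ca aK σ = aK := if_neg (not_or.2 ⟨hW, hL⟩)
      have e3 : C.cl σ = C.h := (if_neg hW).trans (if_neg hL)
      rw [e1, e2, e3]
      exact ⟨by linarith only [a0], h0, hf.top σ ⟨c, d⟩ hq hW, fun F hF =>
        ⟨Fq F hF, (hf.face F hF.1 (Fq F hF)).1, (hf.face F hF.1 (Fq F hF)).2.2⟩⟩

theorem Fit.split (hf : C.Fit aK K ch w) (h : C.Ok aK) (φ : Set (Rn 3) → ℝ≥0∞) :
    ∑' σ : C.S0 K, φ σ = (∑' σ : C.S1 K, φ σ) + (∑' σ : C.S2 K, φ σ) + ∑' σ : C.S3 K, φ σ := by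
  have e : C.S0 K = C.S1 K ∪ C.S2 K ∪ C.S3 K := by
    ext σ
    constructor
    · rintro ⟨a, b⟩
      by_cases hW : σ ⊆ C.WI
      · exact Or.inl (Or.inl ⟨a, hW⟩)
      · by_cases hL : C.Lng σ
        · exact Or.inl (Or.inr ⟨a, hW, hL⟩)
        · exact Or.inr ⟨a, b, hW, hL⟩
    · rintro ((⟨a, b⟩ | ⟨a, -, z, hz, hs⟩) | ⟨a, b, -⟩)
      · exact ⟨a, b.trans h.GGeo_Wq⟩
      · exact ⟨a, (hs.trans hz).trans h.GGeo_Oq⟩
      · exact ⟨a, b⟩
  have d1 : Disjoint (C.S1 K) (C.S2 K) := disjoint_left.2 fun σ a b => b.2.1 a.2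
  have d2 : Disjoint (C.S1 K ∪ C.S2 K) (C.S3 K) := disjoint_left.2 fun σ a b =>
    a.elim (fun a => b.2.2.1 a.2) fun a => b.2.2.2 a.2.2
  rw [e, ENNReal.summable.tsum_union_disjoint d2 ENNReal.summable,
    ENNReal.summable.tsum_union_disjoint d1 ENNReal.summable]

theorem Fit.S3_sub (hf : C.Fit aK K ch w) (h : C.Ok aK) {σ : Set (Rn 3)} (hσ : σ ∈ C.S3 K) :
    Disjoint σ (closedBall C.o (C.η - 7 * C.b * C.h)) := by
  obtain ⟨⟨c, d⟩, -, -, hL⟩ := hσ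
  obtain ⟨-, h0, -, -, -, -, -, -, b8, -⟩ := h.pos
  have r := h.num.2.2.2.2.2.2.2.2.2.1
  have p : C.η - 7 * C.b * C.h ≠ 0 := by
    have : 0 < C.b * C.h := by positivity
    exact ne_of_gt (by linarith only [r, this])
  rw [← closure_ball _ p]
  refine Disjoint.closure_right (disjoint_left.2 fun x hx hb => hL ?_) ((Kx.dm_three c).1 d)
  obtain ⟨z, hz⟩ := C.exists_bx x
  have hO := h.O_prop.2.2.2.2.1 z ⟨x, hz, hb⟩
  exact ⟨z, hO, Kx.cell_eq c hx ▸ (hf.bx_cel h hO).1 x hz⟩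

end Cu

end BEp
end
end
end
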