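import Pool.Agent.Work.MP_f0515e_an.D3.O1
import Pool.Agent.Work.MP_f0515e_an.D3.CTop
import Pool.Agent.Work.MP_f0515e_an.Pos.BMoll
import Pool.Agent.Work.MP_f0515e_an.LL2
import Pool.Agent.Work.MP_f0515e_an.Pos.BRed
import Pool.Agent.Work.MP_f0515e_an.P3.GGeo
import Pool.Agent.Work.MP_f0515e_an.P3.CPush

-- merged part: Pool.Agent.Work.MP_f0515e_an.D3.LEdge
section
/-! Derivatives of maps which factor through an edge.
Plan. A TP map phi has countably many affine pieces, and a.e. point has a neighbourhood on which phi is one of THESE pieces (on closedBall 0 R finitely many pieces; off the null sets where two different pieces agree, ll2_null, continuity selects one piece; see BMoll_ae and its proof).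
aff_null: for an affine map M with nonzero linear part A, the preimage of seg a b '' N is null: if a = b or M does not map everything into the line through a, b then the preimage of the line is a proper affine subspace or empty (Measure.addHaar_affineSubspace);
otherwise M x = seg a b (l x + c) with a nonzero functional l, and the preimage of a null set under a nonzero functional is null (coordinates: some l (e i) is nonzero; Fubini through measurePreserving_piFinSuccAbove, or QuasiMeasurePreserving of a surjective linear map, LinearMap.exists_map_addHaar_eq_smul_addHaar).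
edge_pt: a.e. z has T = M near z with M mapping everything into the line when T z is on the line; so G o T = gamma o l near z with l affine; |fderiv T z| = |Dl| |b - a|. If gamma is differentiable at s use the chain rule. If not and Dl is nonzero, G o T is not differentiable at z (restrict to a line on which l has slope one), fderiv is zero.
edge_bound: LTP.seq, Kx.countable_edge, Kx.countable (vertices: cells which are points), mem_sk_one, seg_image_open; N = the null set where the ESp bound fails. -/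

open Set Metric Filter Topology Function BEv MeasureTheory
open scoped NNReal ENNReal

noncomputable section
namespace BEp

variable {n : ℕ} {T T' G : Rn n → Rn n} {z : Rn n}

theorem isClosed_mov (T : Rn n → Rn n) : IsClosed (mov T) := by
  refine isOpen_compl_iff.1 (isOpen_iff_mem_nhds.2 fun z hz => ?_)
  have h : ∀ᶠ x in 𝓝 z, T x = T z := not_not.1 hz
  filter_upwards [h, h.eventually_nhds] with y h1 h2
  exact not_not.2 (h2.mono fun x hx => hx.trans h1.symm)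

theorem mov_congr (h : T =ᶠ[𝓝 z] T') : z ∈ mov T ↔ z ∈ mov T' := by
  refine not_congr (eventually_congr (h.mono fun x hx => ?_))
  rw [hx, h.eq_of_nhds]

theorem fderiv_of_not_mov (h : z ∉ mov T) (G : Rn n → Rn n) : fderiv ℝ (G ∘ T) z = 0 := by
  have e : G ∘ T =ᶠ[𝓝 z] fun _ => G (T z) := (not_not.1 h).mono fun x hx => congrArg G hx
  rw [e.fderiv_eq, fderiv_fun_const]
  rfl

theorem LEdge_inj {a b : Rn n} (hab : a ≠ b) : Injective (seg a b) := fun _ _ e =>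
  smul_left_injective ℝ (sub_ne_zero.2 hab.symm) (add_left_cancel e)

theorem LEdge_dich (A : Rn n →L[ℝ] Rn n) (c a b : Rn n) :
    (∀ᵐ x, ∀ s, A x + c ≠ seg a b s) ∨ ∀ x, ∃ s, A x + c = seg a b s := by
  let P : AffineSubspace ℝ (Rn n) := ⟨{x | ∃ s, A x + c = seg a b s}, by
    rintro t p q w ⟨s1, h1⟩ ⟨s2, h2⟩ ⟨s3, h3⟩
    refine ⟨t * (s1 - s2) + s3, ?_⟩
    show A (t • (p - q) + w) + c = _
    rw [map_add, map_smul, map_sub, eq_sub_of_add_eq h1, eq_sub_of_add_eq h2, eq_sub_of_add_eq h3]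
    simp only [seg]
    module⟩
  by_cases h : P = ⊤
  · exact .inr fun y => (h ▸ AffineSubspace.mem_top ℝ _ y : y ∈ P)
  · refine .inl ?_
    filter_upwards [measure_eq_zero_iff_ae_notMem.1 (Measure.addHaar_affineSubspace volume P h)]
      with x hx s e using hx ⟨s, e⟩

theorem LEdge_lin {A : Rn n →L[ℝ] Rn n} {c a b : Rn n} (hab : a ≠ b)
    (h : ∀ x, ∃ s, A x + c = seg a b s) : ∃ (l : Rn n →L[ℝ] ℝ) (k : ℝ),
      (∀ x, A x + c = seg a b (l x + k)) ∧ A = l.smulRight (b - a) := by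
  obtain ⟨i, hi⟩ := Function.ne_iff.1 hab
  have hi' : b i - a i ≠ 0 := sub_ne_zero.2 hi.symm
  have k : ∀ x, A x + c = seg a b ((b i - a i)⁻¹ * A x i + (b i - a i)⁻¹ * (c i - a i)) :=
    fun x => by
      obtain ⟨s, e⟩ := h x
      have e1 : A x i + c i = a i + s * (b i - a i) := congrFun e i
      rw [e]
      congr 1
      field_simp
      linarith
  refine ⟨(b i - a i)⁻¹ • (ContinuousLinearMap.proj i).comp A, _, k, ?_⟩
  ext1 x
  have h0 := k 0
  have h1 := k x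
  simp only [map_zero, zero_add, Pi.zero_apply, mul_zero, seg] at h0 h1
  show A x = ((b i - a i)⁻¹ * A x i) • (b - a)
  rw [add_smul, add_left_comm, ← h0] at h1
  exact add_right_cancel h1

theorem LEdge_surj {l : Rn n →L[ℝ] ℝ} (h : l ≠ 0) : Surjective l :=
  LinearMap.surjective_of_ne_zero (f := (l : Rn n →ₗ[ℝ] ℝ)) fun e =>
    h (ContinuousLinearMap.coe_injective e)

theorem LEdge_pieces (hT : TP T) : ∃ S : Set ((Rn n →L[ℝ] Rn n) × Rn n), S.Countable ∧
    ∀ᵐ z, ∃ A ∈ S, ∀ᶠ y in 𝓝 z, T y = A.1 y + A.2 := by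
  choose S hS hp using hT.pa
  refine ⟨⋃ R : ℕ, S R, countable_iUnion fun R => (hS R).countable, ?_⟩
  have h1 : ∀ᵐ x, ∀ R : ℕ, ∀ A ∈ S R, T x - (A.1 x + A.2) ≠ 0 ∨
      ∀ᶠ y in 𝓝 x, T y - (A.1 y + A.2) = 0 :=
    ae_all_iff.2 fun R => (ae_ball_iff (hS R).countable).2 fun A _ =>
      (hT.sub ((TP.clm A.1).add (TP.const A.2))).ae_ne_or
  filter_upwards [h1] with x hx
  obtain ⟨R, hR⟩ := exists_nat_gt ‖x‖
  obtain ⟨A, hA, e⟩ := hp R x (mem_closedBall_zero_iff.2 hR.le)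
  exact ⟨A, mem_iUnion.2 ⟨R, hA⟩, ((hx R A hA).resolve_left (not_not.2 (sub_eq_zero.2 e))).mono
    fun y hy => sub_eq_zero.1 hy⟩

theorem aff_null {A : Rn n →L[ℝ] Rn n} (hA : A ≠ 0) (c a b : Rn n) {N : Set ℝ}
    (hN : volume N = 0) : volume {x | A x + c ∈ seg a b '' N} = 0 := by
  refine measure_eq_zero_iff_ae_notMem.2 ?_
  rcases LEdge_dich A c a b with h | h
  · filter_upwards [h] with x hx ⟨s, _, e⟩ using hx s e.symm
  have hab : a ≠ b := by
    rintro rfl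
    refine hA (ContinuousLinearMap.ext fun x => ?_)
    obtain ⟨s, e⟩ := h x
    obtain ⟨s', e'⟩ := h 0
    simp only [seg, sub_self, smul_zero, add_zero, map_zero, zero_add] at e e'
    simpa [e'] using e
  obtain ⟨l, k, h1, h2⟩ := LEdge_lin hab h
  have hl : l ≠ 0 := fun e => hA (by rw [h2, e]; ext; simp)
  obtain ⟨N', n1, n2, n3⟩ := exists_measurable_superset_of_null hN
  have := (ae_comp_linearMap_mem_iff (l : Rn n →ₗ[ℝ] ℝ) volume volume (LEdge_surj hl)
    (s := ((· + k) ⁻¹' N')ᶜ) (n2.preimage (measurable_add_const k)).compl).2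
      (measure_eq_zero_iff_ae_notMem.1 (by rw [measure_preimage_add_right, n3]))
  filter_upwards [this] with x hx ⟨s, hs, e⟩
  rw [h1] at e
  exact hx (n1 (LEdge_inj hab e ▸ hs :))

theorem ae_loc_const (hT : TP T) (a b : Rn n) {N : Set ℝ} (hN : volume N = 0) :
    ∀ᵐ z, T z ∈ seg a b '' N → z ∉ mov T := by
  obtain ⟨S, hS, h⟩ := LEdge_pieces hT
  have h1 : ∀ᵐ z, ∀ A ∈ S, A.1 ≠ 0 → A.1 z + A.2 ∉ seg a b '' N :=
    (ae_ball_iff hS).2 fun A _ => eventually_imp_distrib_left.2 fun hA =>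
      measure_eq_zero_iff_ae_notMem.1 (aff_null hA A.2 a b hN)
  filter_upwards [h, h1] with z ⟨A, hA, e⟩ k m
  have h0 : A.1 = 0 := by_contra fun h0 => k A hA h0 (e.self_of_nhds ▸ m)
  exact not_not.2 (e.mono fun y hy => by rw [hy, e.self_of_nhds, h0]; rfl)

theorem LTP.ae_loc_const {Ω : Set (Rn n)} (hT : LTP Ω T) (hΩ : IsOpen Ω) (a b : Rn n)
    {N : Set ℝ} (hN : volume N = 0) : ∀ᵐ z, z ∈ Ω → T z ∈ seg a b '' N → z ∉ mov T := by
  obtain ⟨g, hg, h⟩ := hT.seq hΩ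
  filter_upwards [ae_all_iff.2 fun k => BEp.ae_loc_const (hg k) a b hN] with z hz m k
  obtain ⟨j, e⟩ := h z m
  rw [mov_congr e]
  exact hz j (e.eq_of_nhds ▸ k)

theorem edge_pt (hT : TP T) {a b : Rn n} (hab : a ≠ b) (G : Rn n → Rn n) :
    ∀ᵐ z, ∀ s, T z = seg a b s → ‖fderiv ℝ (G ∘ T) z‖ * ‖b - a‖ ≤
      ‖deriv (fun s => G (seg a b s)) s‖ * ‖fderiv ℝ T z‖ := by
  obtain ⟨S, hS, h⟩ := LEdge_pieces hT
  have h1 : ∀ᵐ z, ∀ A ∈ S, (∀ s, A.1 z + A.2 ≠ seg a b s) ∨ ∀ x, ∃ s, A.1 x + A.2 = seg a b s :=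
    (ae_ball_iff hS).2 fun A _ => (LEdge_dich A.1 A.2 a b).elim (fun k => k.mono fun _ => .inl)
      fun k => .of_forall fun _ => .inr k
  filter_upwards [h, h1] with z ⟨A, hA, e⟩ k s hs
  obtain ⟨l, c, h2, h3⟩ := LEdge_lin hab
    ((k A hA).resolve_left fun m => m s (e.self_of_nhds.symm.trans hs))
  obtain rfl : s = l z + c := LEdge_inj hab (hs.symm.trans (e.self_of_nhds.trans (h2 z)))
  obtain ⟨γ, hγ⟩ : ∃ γ : ℝ → Rn n, γ = fun s => G (seg a b s) := ⟨_, rfl⟩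
  have e1 : G ∘ T =ᶠ[𝓝 z] fun y => γ (l y + c) := e.mono fun y hy => by
    rw [hγ, comp_apply, hy, h2]
  rw [← hγ, e1.fderiv_eq, ((A.1.hasFDerivAt.add_const A.2).congr_of_eventuallyEq e).fderiv, h3,
    ContinuousLinearMap.norm_smulRight_apply, ← mul_assoc]
  refine mul_le_mul_of_nonneg_right ?_ (norm_nonneg _)
  by_cases d1 : DifferentiableAt ℝ γ (l z + c)
  · have := d1.hasDerivAt.hasFDerivAt.comp z (l.hasFDerivAt.add_const c)
    rw [show fderiv ℝ (fun y => γ (l y + c)) z = _ from this.fderiv]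
    refine (ContinuousLinearMap.opNorm_comp_le _ _).trans_eq ?_
    simp
  by_cases d2 : DifferentiableAt ℝ (fun y => γ (l y + c)) z
  swap
  · rw [fderiv_zero_of_not_differentiableAt d2, norm_zero]
    positivity
  by_cases hl : l = 0
  · simp [hl]
  obtain ⟨v, hv⟩ := LEdge_surj hl 1
  have d3 : DifferentiableAt ℝ (fun t : ℝ => z + (t - (l z + c)) • v) (l z + c) := by fun_prop
  have d4 := DifferentiableAt.comp (l z + c) (g := fun y => γ (l y + c)) (by simpa using d2) d3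
  refine absurd ?_ d1
  refine d4.congr_of_eventuallyEq (.of_forall fun t => congrArg γ ?_)
  rw [map_add, map_smul, hv, smul_eq_mul]
  ring

theorem edge_bound {Ω H : Set (Rn 3)} (hΩ : IsOpen Ω) {K : Kx Ω} {T G : Rn 3 → Rn 3}
    (hT : LTP Ω T) {g : Rn 3 → ℝ≥0∞} (h : ESp K H G g) :
    ∀ᵐ z, z ∈ Ω → T z ∈ K.sk 1 → T z ∉ H → z ∈ mov T →
      ‖fderiv ℝ (G ∘ T) z‖ₑ ≤ g (T z) * ‖fderiv ℝ T z‖ₑ := by
  obtain ⟨u, hu, hs⟩ := hT.seq hΩ
  have c1 := K.countable_edge hΩ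
  have c0 := (K.countable hΩ).preimage singleton_injective
  filter_upwards [(ae_ball_iff c1).2 fun p hp => hT.ae_loc_const hΩ p.1 p.2 (ae_iff.1 (h _ _ hp)),
    (ae_ball_iff c0).2 fun v _ => hT.ae_loc_const hΩ v v (Real.volume_singleton (a := 0)),
    ae_all_iff.2 fun k => (ae_ball_iff c1).2 fun p hp => edge_pt (hu k) hp.1 G]
    with z h1 h2 h3 hz k1 k2 k3
  rcases Kx.mem_sk_one.1 k1 with ⟨m, e⟩ | ⟨a, b, he, m⟩
  · exact absurd k3 (h2 (T z) (e ▸ K.cell_mem m :) hz ⟨0, rfl, by simp [seg]⟩)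
  rw [← seg_image_open] at m
  obtain ⟨s, hs', e⟩ := m
  have b1 : ‖deriv (fun s => G (seg a b s)) s‖ₑ ≤ ‖b - a‖ₑ * g (seg a b s) := by_contra fun k =>
    h1 (a, b) he hz ⟨s, fun m => k (m (Ioo_subset_Icc_self hs') (e ▸ k2)), e⟩ k3
  obtain ⟨j, ej⟩ := hs z hz
  have b2 := h3 j (a, b) he s (ej.eq_of_nhds.symm.trans e.symm)
  rw [← ej.fderiv_eq, ← (ej.fun_comp G).fderiv_eq] at b2
  have b3 := ENNReal.ofReal_le_ofReal b2
  simp only [ENNReal.ofReal_mul (norm_nonneg _), ofReal_norm] at b3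
  rw [← ENNReal.mul_le_mul_iff_left (enorm_ne_zero.2 (sub_ne_zero.2 he.1.symm)) enorm_ne_top, ← e]
  refine b3.trans ((mul_le_mul_left b1 _).trans_eq ?_)
  ring

end BEp
end
end

-- merged part: Pool.Agent.Work.MP_f0515e_an.P3.FinE
section
-- merged part: Pool.Agent.Work.MP_f0515e_an.D3.LCs
section
/-! Limits of PL homeomorphisms with prescribed support.
Plan. off, maps: BComp_seq gives w j in Mv U converging pointwise (Mv.image_eq, closedness). comp: App.comp with lh_bl and Mv.comp. cs_of_accr: as BClass_lim (Pos/BClass): w j = mix (1/(j+1)) Phi is LH by Accr.lh, fixes what Phi fixes; App.of_seq.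
conj: Theta o T o invFun Theta for an affine bijection Theta: take the sequence of BComp_seq, conjugate (Mv.conj), App.of_seq; derivatives by the chain rule for affine maps and bl_null. cs_cj: cj is such a conjugate (see cc_cj in Pos/ACj).
cs_gl: as cc_gl (induction on a finset, gl of an insert is a composition). cs_psi: iterate of a loc map of the accretive pr I (see ACj_cc, cc_psi). cs_tau: psi part and rB part (cut vanishes off cell 1, see cc_rB, rB_off0), CS.mono to cell 0.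
loc_scale: coordinatewise, max and min commute with the increasing affine map. coreA: AG3 lemmas; gap and full from X.ins (z outside Qc q 1 is outside cell (-1)), abs_nr_sub_le and eta1h. -/

open Set Metric Filter Topology Function BEv MeasureTheory
open scoped NNReal ENNReal

noncomputable section
namespace BEp

section General
variable {n : ℕ} {U U' : Set (Rn n)} {T T' : Rn n → Rn n}

theorem CS.tp (h : CS U T) : TP T := h.1

theorem CS.off (h : CS U T) (x : Rn n) (hx : x ∉ U) : T x = x := by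
  obtain ⟨L, w, h1, -, h3, -⟩ := BComp_seq h
  exact tendsto_nhds_unique (h3 x) (tendsto_const_nhds.congr fun j => ((h1 j).2 x hx).symm)

theorem CS.maps (h : CS U T) (hU : IsClosed U) : MapsTo T U U := by
  obtain ⟨L, w, h1, -, h3, -⟩ := BComp_seq h
  exact fun x hx => hU.mem_of_tendsto (h3 x) (Eventually.of_forall fun j =>
    ((h1 j).image_eq subset_rfl).subset ⟨x, hx, rfl⟩)

theorem CS.mono (h : CS U T) (hs : U ⊆ U') : CS U' T := by
  obtain ⟨hT, L, h⟩ := h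
  refine ⟨hT, L, fun R ε hε => ?_⟩
  obtain ⟨w, h1, h2⟩ := h R ε hε
  exact ⟨w, h1.mono hs, h2⟩

theorem Mv.cs (h : Mv U T) : CS U T := by
  exact BClass_self h.1.tp h

theorem CS.comp (h : CS U T) (k : CS U T') : CS U (T ∘ T') := by
  exact App.comp (Kd := Mv U) (fun _ h => lh_bl h.1) (fun _ _ => Mv.comp) h k

theorem cs_of_accr (h : Accr T) (ht : TP T) (h0 : ∀ x, x ∉ U → T x = x) : CS U T := by
  obtain ⟨L, hL⟩ := ht.lip
  have k0 : ∀ j : ℕ, (0 : ℝ) < 1 / ((j : ℝ) + 1) := fun j => Nat.one_div_pos_of_nat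
  have k1 : ∀ j : ℕ, 1 / ((j : ℝ) + 1) ≤ 1 := fun j =>
    (div_le_one (by positivity)).2 (le_add_of_nonneg_left j.cast_nonneg)
  have hc : Tendsto (fun j : ℕ => 1 / ((j : ℝ) + 1)) atTop (𝓝 0) :=
    tendsto_one_div_add_atTop_nhds_zero_nat
  refine App.of_seq ht (L := 1 + L) (w := fun j => mix (1 / ((j : ℝ) + 1)) T)
    (fun j => ⟨h.lh ht (k0 j) (k1 j), fun x hx => ?_⟩) (fun j => ?_) (fun x => ?_) ?_
  · rw [mix, h0 x hx, ← add_smul, add_sub_cancel, one_smul]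
  · exact (plsg_smul LipschitzWith.id (k0 j).le (k1 j)).add
      (plsg_smul hL (sub_nonneg.2 (k1 j)) (sub_le_self _ (k0 j).le))
  · have h2 := (hc.smul_const x).add ((hc.const_sub 1).smul_const (T x))
    rwa [zero_smul, sub_zero, one_smul, zero_add] at h2
  · filter_upwards [hL.ae_differentiableAt (μ := volume)] with x hx
    have h2 := (hc.smul_const (ContinuousLinearMap.id ℝ (Fin n → ℝ))).add
      ((hc.const_sub 1).smul_const (fderiv ℝ T x))
    rw [zero_smul, sub_zero, one_smul, zero_add] at h2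
    refine h2.congr fun j => (HasFDerivAt.fderiv ?_).symm
    exact ((hasFDerivAt_id x).const_smul (1 / ((j : ℝ) + 1))).add
      (hx.hasFDerivAt.const_smul (1 - 1 / ((j : ℝ) + 1)))

theorem lcs_fd (L : Rn n ≃L[ℝ] Rn n) (b : Rn n) {w : Rn n → Rn n} {y : Rn n}
    (hw : DifferentiableAt ℝ w (L.symm (y - b))) :
    fderiv ℝ (fun y => L (w (L.symm (y - b))) + b) y = (L : Rn n →L[ℝ] Rn n).comp
      ((fderiv ℝ w (L.symm (y - b))).comp (L.symm : Rn n →L[ℝ] Rn n)) := by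
  have h1 : HasFDerivAt (fun y => L.symm (y - b)) (L.symm : Rn n →L[ℝ] Rn n) y := by
    simpa using L.symm.hasFDerivAt.comp y ((hasFDerivAt_id y).sub_const b)
  exact ((L.hasFDerivAt.comp y (hw.hasFDerivAt.comp y h1)).add_const b).fderiv

theorem CS.conj (h : CS U T) (L : Rn n ≃L[ℝ] Rn n) (b : Rn n) :
    CS {y | L.symm (y - b) ∈ U} (fun y => L (T (L.symm (y - b))) + b) := by
  obtain ⟨K, w, h1, h2, h3, h4⟩ := BComp_seq h
  obtain ⟨K', hK'⟩ := h.tp.lip
  have a1 : LH fun y => L.symm (y - b) := by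
    simpa only [map_sub, sub_eq_add_neg (L.symm _)] using lh_aff L.symm (-L.symm b)
  have a2 := lh_aff L b
  obtain ⟨K1, b1⟩ := a1.tp.lip
  obtain ⟨K2, b2⟩ := a2.tp.lip
  refine App.of_seq (a2.tp.comp (h.tp.comp a1.tp)) (L := K2 * (K * K1))
    (w := fun j y => L (w j (L.symm (y - b))) + b)
    (fun j => ⟨a2.comp ((h1 j).1.comp a1), fun y hy => ?_⟩)
    (fun j => b2.comp ((h2 j).comp b1)) (fun y => (b2.continuous.tendsto _).comp (h3 _)) ?_
  · change L (w j (L.symm (y - b))) + b = y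
    rw [(h1 j).2 _ hy, L.apply_symm_apply, sub_add_cancel]
  · filter_upwards [bl_null (lh_bl a1) h4, bl_null (lh_bl a1) (hK'.ae_differentiableAt (μ := volume)),
      bl_null (lh_bl a1) (ae_all_iff.2 fun j => (h2 j).ae_differentiableAt (μ := volume))]
      with y c1 c2 c3
    rw [lcs_fd L b c2]
    refine Tendsto.congr (fun j => (lcs_fd L b (c3 j)).symm) ?_
    exact ((continuous_const.clm_comp (continuous_id.clm_comp continuous_const)).tendsto _).comp c1

end General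

variable {m : ℕ}

theorem cs_cj (L : V m ≃L[ℝ] V m) (c : V m) {s : ℝ} (hs : s ≠ 0) (ω : V m) {U : Set (V m)}
    {Φ : V m → V m} (h : CS U Φ) : CS (xi L c s ω ⁻¹' U) (cj L c s ω Φ) := by
  let M : V m ≃L[ℝ] V m := ContinuousLinearEquiv.equivOfInverse
    (s • (L.symm : V m →L[ℝ] V m)) (s⁻¹ • (L : V m →L[ℝ] V m))
    (fun x => by simp [smul_smul, hs]) (fun x => by simp [smul_smul, hs])
  have hM : ∀ x, M x = s • L.symm x := fun x => rfl
  have hM' : ∀ x, M.symm x = s⁻¹ • L x := fun x => rfl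
  have e1 : ∀ y, M.symm (y - (c + M ω)) = xi L c s ω y := fun y => by
    rw [← sub_sub, map_sub, M.symm_apply_apply, hM', xi]
  have e : cj L c s ω Φ = fun y => M (Φ (M.symm (y - (c + M ω)))) + (c + M ω) := by
    funext y
    rw [e1, cj, hM, hM, map_smul, map_add, smul_add]
    abel
  rw [e]
  exact (h.conj M _).mono fun y hy => by rwa [mem_ofPred_eq, e1] at hy

theorem cs_gl {κ : Type} [Fintype κ] {U : κ → Set (V m)} {φ : κ → V m → V m}
    (hU : ∀ a, IsClosed (U a)) (hd : ∀ a a', a ≠ a' → Disjoint (U a) (U a'))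
    (h : ∀ a, CS (U a) (φ a)) : CS (⋃ a, U a) (gl φ) := by
  classical
  have h1 := fun a => (h a).off
  have h2 := fun a => (h a).maps (hU a)
  have key : ∀ S : Finset κ, CS (⋃ a, U a) fun z => z + ∑ a ∈ S, (φ a z - z) := by
    intro S
    induction S using Finset.induction_on with
    | empty =>
      simp only [Finset.sum_empty, add_zero]
      exact (Mv.id' _).cs
    | insert a S ha ih =>
      have e : (fun z => z + ∑ b ∈ insert a S, (φ b z - z)) =
          φ a ∘ fun z => z + ∑ b ∈ S, (φ b z - z) := by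
        funext z
        rw [Finset.sum_insert ha, comp_apply]
        by_cases hz : ∃ b ∈ S, z ∈ U b
        · obtain ⟨b, hb, hzb⟩ := hz
          have hab : a ≠ b := fun h => ha (h ▸ hb)
          have e1 : ∑ b' ∈ S, (φ b' z - z) = φ b z - z :=
            Finset.sum_eq_single b (fun b' _ hb' => by
              rw [h1 b' z (disjoint_right.1 (hd b' b hb') hzb), sub_self])
              (fun h => absurd hb h)
          rw [e1, h1 a z (disjoint_right.1 (hd a b hab) hzb), sub_self, zero_add, add_sub_cancel,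
            h1 a _ (disjoint_right.1 (hd a b hab) (h2 b hzb))]
        · have e1 : ∑ b' ∈ S, (φ b' z - z) = 0 :=
            Finset.sum_eq_zero fun b hb => by rw [h1 b z fun h => hz ⟨b, hb, h⟩, sub_self]
          rw [e1, add_zero, add_zero, add_sub_cancel]
      rw [e]
      exact ((h a).mono (subset_iUnion U a)).comp ih
  exact key Finset.univ

theorem cs_psi (I : Finset (Ix m)) (N : ℕ) : CS (closedBall 0 1) (psi I N) := by
  induction N with
  | zero => exact (Mv.id' _).cs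
  | succ N ih =>
    rw [psi, iterate_succ']
    refine (cs_of_accr (Accr.loc (fun x y i hi => ?_) ACj_eta) (ACj_cc I).tp fun x hx => ?_).comp ih
    · have := norm_nonneg (x - y)
      rw [pr, pr]
      split_ifs <;> linarith
    · rw [mem_closedBall_zero_iff, not_le] at hx
      exact loc_eq_self (max_eq_right (by linarith))

theorem Gr.cs_τ {G : Gr m} (hG : G.Ok) (kp : Finset (Ix m → ℤ)) (K : ℕ) :
    CS (G.cell 0) (G.τ kp (RI G.I K)) := by
  have h1 : CS (G.cell 0) G.ψ :=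
    (cs_cj G.Sh G.c hG.h0.ne' 0 (cs_psi G.I G.N)).mono fun z hz => by
      have k : ‖xi G.Sh G.c G.h 0 z‖ ≤ 1 := mem_closedBall_zero_iff.1 hz
      change G.nr z ≤ (1 - 0 * G.γ) * G.h
      rw [Cel.AG1_nr hG.h0]
      nlinarith [hG.h0]
  have h2 : CS (G.cell 0) (G.rB kp (RI G.I K)) :=
    (cs_cj G.Sh G.c (s := 16 * G.s) (by linarith [hG.s0]) G.ω
      (U := {x | loc (G.cut kp) (RI G.I K) x ≠ x})
      (cs_of_accr ((accr_RI _ _).loc (G.abs_cut_sub_le kp)) ((tp_RI _ _).loc (G.tp_cut kp))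
        fun x hx => not_not.1 hx)).mono fun z hz => by_contra fun k => hz (by
          have e := Gr.ξ_rB kp (RI G.I K) hG z
          rw [Gr.rB_off0 kp _ hG k] at e
          exact e.symm)
  exact h1.comp h2

theorem Cfg.cs_S {ι κ : Type} [Fintype ι] [Fintype κ] {X : Cfg m ι κ} (hX : X.Ok)
    (kp : κ → Finset (Ix m → ℤ)) (K : ℕ) :
    CS (⋃ a, (X.C a).cell 0) (gl fun a => (X.G a).τ (kp a) (RI (X.C a).I K)) := by
  exact cs_gl (fun a => (X.C a).isClosed_cell 0) hX.disj fun a => Gr.cs_τ (hX.gok a) (kp a) K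

theorem accr_cj {s : ℝ} (hs : 0 < s) (ω : V m) {Φ : V m → V m} (h : Accr Φ) :
    Accr (cj (ContinuousLinearEquiv.refl ℝ (V m)) 0 s ω Φ) := by
  intro x y i hi
  have k := h (s⁻¹ • x - ω) (s⁻¹ • y - ω) i (by
    rw [sub_sub_sub_cancel_right, ← smul_sub, norm_smul, Real.norm_of_nonneg (inv_pos.2 hs).le]
    simp only [Pi.sub_apply, Pi.smul_apply, smul_eq_mul]
    nlinarith [inv_pos.2 hs])
  simp only [cj, xi, ContinuousLinearEquiv.refl_symm, ContinuousLinearEquiv.refl_apply, sub_zero,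
    Pi.smul_apply, Pi.add_apply, smul_eq_mul]
  nlinarith

theorem loc_scale {s : ℝ} (hs : 0 < s) (ω : V m) (c : V m → ℝ) (Φ : V m → V m) :
    cj (ContinuousLinearEquiv.refl ℝ (V m)) 0 s ω (loc c Φ) =
      loc (fun z => s * c (xi (ContinuousLinearEquiv.refl ℝ (V m)) 0 s ω z))
        (cj (ContinuousLinearEquiv.refl ℝ (V m)) 0 s ω Φ) := by
  funext z i
  have e : z i = s * (xi (ContinuousLinearEquiv.refl ℝ (V m)) 0 s ω z i + ω i) := by
    simp [xi, hs.ne']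
  simp only [cj, loc, ContinuousLinearEquiv.refl_symm, ContinuousLinearEquiv.refl_apply,
    Pi.smul_apply, Pi.add_apply, smul_eq_mul, Pi.zero_apply, zero_add]
  rw [← max_add_add_right, ← min_add_add_right, mul_max_of_nonneg _ _ hs.le,
    mul_min_of_nonneg _ _ hs.le]
  congr 1
  · linarith
  · congr 1
    linarith

theorem Cf0.r1_eq {ι κ : Type} [Fintype ι] [Fintype κ] {X : Cf0 1 ι κ} (hX : X.Ok)
    (R : V 1 → V 1) : X.r1 R = rgd (fun z => X.η1 * X.cut1 (X.η1⁻¹ • z)) X.η1 0 R := by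
  rw [X.AG3_cj, loc_scale hX.η10, rgd]
  congr 1
  funext z
  simp [xi]

theorem lcs_out {ι κ : Type} [Fintype ι] [Fintype κ] {X : Cf0 m ι κ} (hX : X.Ok) {z : V m}
    (hz : z ∉ ⋃ q, X.Qc q 1) (a : κ) : (1 + (X.C a).γ) * X.h a < (X.C a).nr z := by
  refine not_le.1 fun k => hz (mem_iUnion.2 ⟨X.q a, ?_⟩)
  have h1 : z ∈ (X.C a).cell (-1) := by
    change (X.C a).nr z ≤ (1 - (-1) * (X.C a).γ) * X.h a
    linarith
  unfold Cf0.Qc
  rw [one_mul]
  exact ball_subset_closedBall (hX.ins a h1)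

theorem Cf0.coreA {ι κ : Type} [Fintype ι] [Fintype κ] {X : Cf0 1 ι κ} (hX : X.Ok)
    {S K0 : Set (V 1)} {η0 : ℝ} (h0 : X.η ≤ η0) (h8 : 8 * X.η1 ≤ X.η) (hS : ∀ q, X.Qc q 1 ⊆ S)
    (hc : ∀ x ∈ K0, ∀ t : V 1, ‖t‖ ≤ X.η → ∃ q, x - t ∈ X.Qc q 1) :
    CoreA S K0 η0 X.η X.η1 (⋃ q, X.Qc q 1) (⋃ a, (X.C a).cell 0)
      (fun z => X.η1 * X.cut1 (X.η1⁻¹ • z)) := by
  have e0 := hX.η10
  refine ⟨h0, e0, h8, MeasurableSet.iUnion fun q => measurableSet_closedBall, iUnion_subset hS,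
    fun x hx t ht => mem_iUnion.2 (hc x hx t ht), isCompact_iUnion fun a => Cel.isCompact_cell _ _,
    iUnion_subset fun a => (Cf0.cell_sub hX a).trans (subset_iUnion (fun q => X.Qc q 1) _),
    fun z hz y hy => ?_, (X.AG3_tp.comp (TP.id'.const_smul _)).const_mul _, fun x y => ?_,
    fun x => mul_nonneg e0.le (Cf0.AG3_cut0 hX _),
    fun x => mul_le_of_le_one_right e0.le (Cf0.AG3_cut1 _), fun z hz => ?_⟩
  · obtain ⟨a, ha⟩ := mem_iUnion.1 hy
    have h1 : (X.C a).nr y ≤ (1 - 0 * (X.C a).γ) * X.h a := ha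
    have h2 := lcs_out hX hz a
    have h3 := (abs_le.1 (Cel.abs_nr_sub_le (hX.cty a) y z)).1
    have h4 := hX.η1h a
    have h5 := Cf0.AG3_pos hX a
    refine lt_of_mul_lt_mul_left (a := (X.C a).Λ) ?_ (zero_le_one.trans (hX.cty a).Λ1)
    linarith
  · rw [← mul_sub, abs_mul, abs_of_pos e0]
    refine (mul_le_mul_of_nonneg_left (Cf0.AG3_lip hX _ _) e0.le).trans (le_of_eq ?_)
    rw [← smul_sub, norm_smul, Real.norm_of_nonneg (inv_pos.2 e0).le, mul_inv_cancel_left₀ e0.ne']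
  · have h1 : X.cut1 (X.η1⁻¹ • z) = 1 := by
      refine le_antisymm (Cf0.AG3_cut1 _) (le_cmin _ _ _ le_rfl fun a _ => ?_)
      rw [le_div_iff₀ (Cf0.AG3_pos hX a), Cf0.AG3_sm hX]
      refine le_trans ?_ (le_max_left _ _)
      linarith [lcs_out hX hz a, hX.η1h a, Cf0.AG3_pos hX a]
    rw [h1, mul_one]

/-- The first mesh can be decreased. -/
theorem Cf0.Ok.shrink {ι κ : Type} [Fintype ι] [Fintype κ] {X : Cf0 m ι κ} (hX : X.Ok) {e : ℝ}
    (h0 : 0 < e) (h1 : e ≤ X.η1) : Cf0.Ok { X with η1 := e } := by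
  exact ⟨hX.ty, hX.η0, hX.far, hX.h0, hX.ins, hX.disj, h0, h1.trans hX.η1η,
    fun a => le_trans (mul_le_mul_of_nonneg_left h1
      (mul_nonneg zero_le_two (zero_le_one.trans (hX.cty a).Λ1))) (hX.η1h a), hX.sum, hX.unc⟩

end BEp
end
end

-- merged part: Pool.Agent.Work.MP_f0515e_an.D3.LRound
section
/-! Replacing the glued limit maps by glued homeomorphisms.
Plan. round0: w j from BComp_seq; g o w j tends to g o R pointwise, derivatives a.e. (BComp_left); both integrands are bounded uniformly in j on the compact U (equi-Lipschitz, w j maps U to U), dominated convergence (tendsto_lintegral_of_dominated_convergence).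
round1: for a.e. z, b is differentiable at z and g o w, g o R are differentiable at b z (bl_null, Rademacher), so en at z is at most (1+L)^p times en at b z; bl_lintegral applied to the indicator of U times en; choose the tolerance with ACo_small.
round: tolerances e i with sum at most eps (ENNReal.exists_pos_sum_of_countable). For each i: g TP equal to G near U i (LTP.nhds), b LH equal to B near the compact set P i = {x in Omega, B x in U i} (LLH.pre, LLH.nhds). For z in P i both compositions agree near z with g o w i o b and g o R i o b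
(gli_ev at B z, continuity of B at z; w i and R i map B z into U i, continuity). For z in Omega outside all P i the integrand vanishes (gli_ev_id, en_self). lintegral over the union is at most the sum; P i is inside the preimage of U i under b. -/

open Set Metric Filter Topology Function BEv MeasureTheory
open scoped NNReal ENNReal

noncomputable section
namespace BEp

variable {n : ℕ} {p : ℝ} {ε : ℝ≥0∞}

theorem LRound_meas (p : ℝ) {G G' : Rn n → Rn n} (h : Continuous G) (h' : Continuous G') :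
    Measurable (en p G G' (fderiv ℝ G')) :=
  ((h.sub h').measurable.enorm.pow_const p).add ((BComp_meas G G').pow_const p)

theorem LRound_congr {G G' H H' : Rn n → Rn n} {z : Rn n} (h : G =ᶠ[𝓝 z] H) (h' : G' =ᶠ[𝓝 z] H') :
    en p G G' (fderiv ℝ G') z = en p H H' (fderiv ℝ H') z := by
  rw [en, en, h.eq_of_nhds, h'.eq_of_nhds, h.fderiv_eq, h'.fderiv_eq]

theorem LRound_lim {F : Type} [NormedAddCommGroup F] (hp : 1 ≤ p) {u : ℕ → F} {a : F}
    (h : Tendsto u atTop (𝓝 a)) : Tendsto (fun j => ‖u j - a‖ₑ ^ p) atTop (𝓝 0) := by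
  have := (ENNReal.continuous_rpow_const (y := p)).continuousAt.tendsto.comp
    (h.sub_const a).enorm
  rwa [sub_self, enorm_zero, ENNReal.zero_rpow_of_pos (by linarith)] at this

theorem LRound_bd {F : Type} [NormedAddCommGroup F] (hp : 1 ≤ p) {a b : F} {A B : ℝ}
    (ha : ‖a‖ ≤ A) (hb : ‖b‖ ≤ B) : ‖a - b‖ₑ ^ p ≤ ENNReal.ofReal (A + B) ^ p := by
  rw [← ofReal_norm]
  exact ENNReal.rpow_le_rpow (ENNReal.ofReal_le_ofReal ((norm_sub_le a b).trans (add_le_add ha hb)))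
    (by linarith)

theorem LRound_b (hp : 1 ≤ p) {U : Set (Rn n)} (hU : MeasurableSet U) {b : Rn n → Rn n}
    (hb : LH b) : ∃ c : ℝ≥0∞, c ≠ ⊤ ∧ ∀ G G' : Rn n → Rn n, TP G → TP G' →
      ∫⁻ z in b ⁻¹' U, en p (G ∘ b) (G' ∘ b) (fderiv ℝ (G' ∘ b)) z ≤
        c * ∫⁻ y in U, en p G G' (fderiv ℝ G') y := by
  obtain ⟨C, hC⟩ := bl_lintegral (lh_bl hb)
  obtain ⟨L, hL⟩ := hb.tp.lip
  have p0 : 0 ≤ p := by linarith
  have c0 : ((1 + L : ℝ≥0) : ℝ≥0∞) ^ p ≠ ⊤ := ENNReal.rpow_ne_top_of_nonneg p0 ENNReal.coe_ne_top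
  refine ⟨_, ENNReal.mul_ne_top c0 (ENNReal.coe_ne_top (r := C)), fun G G' hG hG' => ?_⟩
  obtain ⟨K, hK⟩ := hG.lip
  obtain ⟨K', hK'⟩ := hG'.lip
  rw [mul_assoc, ← lintegral_indicator hU, ← lintegral_indicator (hL.continuous.measurable hU)]
  refine le_trans ?_ (mul_le_mul_right
    (hC _ ((LRound_meas p hG.continuous hG'.continuous).indicator hU)) _)
  rw [← lintegral_const_mul' _ _ c0]
  refine lintegral_mono_ae ?_
  filter_upwards [hL.ae_differentiableAt, bl_null (lh_bl hb) hK.ae_differentiableAt,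
    bl_null (lh_bl hb) hK'.ae_differentiableAt] with z d1 d2 d3
  by_cases hz : b z ∈ U
  · rw [indicator_of_mem hz, indicator_of_mem (show z ∈ b ⁻¹' U from hz), en, en, mul_add,
      fderiv_comp z d2 d1, fderiv_comp z d3 d1, ← ContinuousLinearMap.sub_comp,
      ← ENNReal.mul_rpow_of_nonneg _ _ p0, ← ENNReal.mul_rpow_of_nonneg _ _ p0]
    refine add_le_add (ENNReal.rpow_le_rpow (le_mul_of_one_le_left' (by simp)) p0)
      (ENNReal.rpow_le_rpow ?_ p0)
    rw [enorm_eq_nnnorm, enorm_eq_nnnorm, ← ENNReal.coe_mul, ENNReal.coe_le_coe, mul_comm,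
      ← NNReal.coe_le_coe]
    push_cast
    refine (ContinuousLinearMap.opNorm_comp_le _ _).trans
      (mul_le_mul_of_nonneg_left ?_ (norm_nonneg _))
    linarith [norm_fderiv_le_of_lipschitz ℝ hL (x₀ := z)]
  · rw [indicator_of_notMem (show z ∉ b ⁻¹' U from hz)]
    exact zero_le

theorem round0 (hp : 1 ≤ p) {U : Set (Rn n)} (hU : IsCompact U) {R g : Rn n → Rn n}
    (hR : CS U R) (hg : TP g) (hε : ε ≠ 0) :
    ∃ w, Mv U w ∧ ∫⁻ y in U, en p (g ∘ w) (g ∘ R) (fderiv ℝ (g ∘ R)) y ≤ ε := by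
  obtain ⟨L, w, h1, h2, h3, h4⟩ := BComp_seq hR
  obtain ⟨K, hK⟩ := hg.lip
  obtain ⟨L', hL⟩ := hR.tp.lip
  obtain ⟨M, hM⟩ := hU.exists_bound_of_continuousOn hK.continuous.continuousOn
  have p0 : 0 ≤ p := by linarith
  have t := tendsto_lintegral_of_dominated_convergence (μ := volume.restrict U)
    (F := fun j => en p (g ∘ w j) (g ∘ R) (fderiv ℝ (g ∘ R))) (f := fun _ => 0)
    (fun _ => ENNReal.ofReal (M + M) ^ p + ENNReal.ofReal ((K * L : ℝ≥0) + (K * L' : ℝ≥0)) ^ p)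
    (fun j => LRound_meas p (hK.comp (h2 j)).continuous (hK.comp hL).continuous)
    (fun j => (ae_restrict_iff' hU.measurableSet).2 (Eventually.of_forall fun y hy => add_le_add
      (LRound_bd hp (hM _ ((h1 j).cs.maps hU.isClosed hy)) (hM _ (hR.maps hU.isClosed hy)))
      (LRound_bd hp (norm_fderiv_le_of_lipschitz ℝ (hK.comp (h2 j)))
        (norm_fderiv_le_of_lipschitz ℝ (hK.comp hL)))))
    (by
      rw [setLIntegral_const]
      exact ENNReal.mul_ne_top (ENNReal.add_ne_top.2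
        ⟨ENNReal.rpow_ne_top_of_nonneg p0 ENNReal.ofReal_ne_top,
          ENNReal.rpow_ne_top_of_nonneg p0 ENNReal.ofReal_ne_top⟩) hU.measure_lt_top.ne)
    (ae_restrict_of_ae ((BComp_left hR.tp hg (fun j => lh_bl (h1 j).1) h3 h4).mono fun y hy => by
      simpa [en] using (LRound_lim hp (hK.continuous.continuousAt.tendsto.comp (h3 y))).add
        (LRound_lim hp hy)))
  rw [lintegral_zero] at t
  obtain ⟨j, hj⟩ := (t.eventually (ge_mem_nhds (pos_iff_ne_zero.2 hε))).exists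
  exact ⟨w j, h1 j, hj⟩

theorem round1 (hp : 1 ≤ p) {U : Set (Rn n)} (hU : IsCompact U) {R g b : Rn n → Rn n}
    (hR : CS U R) (hg : TP g) (hb : LH b) (hε : ε ≠ 0) :
    ∃ w, Mv U w ∧ ∫⁻ z in b ⁻¹' U, en p (g ∘ w ∘ b) (g ∘ R ∘ b) (fderiv ℝ (g ∘ R ∘ b)) z ≤ ε := by
  obtain ⟨c, c0, hc⟩ := LRound_b hp hU.measurableSet hb
  obtain ⟨d, d0, -, hd⟩ := ACo_small c0 hε
  obtain ⟨w, hw, h⟩ := round0 hp hU hR hg d0
  exact ⟨w, hw, (hc (g ∘ w) (g ∘ R) (hg.comp hw.1.tp) (hg.comp hR.tp)).trans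
    ((mul_le_mul_right h c).trans hd)⟩

theorem round (hp : 1 ≤ p) {Ω : Set (Rn n)} (hΩ : IsOpen Ω) {U : ℕ → Set (Rn n)} (hU : Fam Ω U)
    {R : ℕ → Rn n → Rn n} (hR : ∀ i, CS (U i) (R i)) {G B : Rn n → Rn n} (hG : LTP Ω G)
    (hB : LLH Ω B) (hε : ε ≠ 0) : ∃ w : ℕ → Rn n → Rn n, (∀ i, Mv (U i) (w i)) ∧
      ∫⁻ z in Ω, en p (G ∘ gli w ∘ B) (G ∘ gli R ∘ B) (fderiv ℝ (G ∘ gli R ∘ B)) z ≤ ε := by
  obtain ⟨e, e0, e1⟩ := ENNReal.exists_pos_sum_of_countable hε ℕ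
  choose g hg g1 using fun i => hG.nhds hΩ (hU.cpt i) (hU.sub i)
  choose b hb b1 using fun i => hB.nhds hΩ (hB.pre hΩ (hU.cpt i) (hU.sub i)) fun x hx => hx.1
  choose w hw w1 using fun i => round1 hp (hU.cpt i) (hR i) (hg i) (hb i) (ε := e i)
    (ENNReal.coe_ne_zero.2 (e0 i).ne')
  have hc : ∀ z ∈ Ω, ContinuousAt B z := fun z hz =>
    (hB.ltp.continuousOn hΩ).continuousAt (hΩ.mem_nhds hz)
  have k1 : ∀ φ : ℕ → Rn n → Rn n, (∀ i, CS (U i) (φ i)) → ∀ i, ∀ z ∈ Ω, B z ∈ U i →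
      G ∘ gli φ ∘ B =ᶠ[𝓝 z] g i ∘ φ i ∘ b i := fun φ hφ i z hz hi => by
    filter_upwards [(hc z hz).eventually (gli_ev hU hΩ (fun i => (hφ i).off) (hU.sub i hi)
      fun j hj h => disjoint_left.1 (hU.disj j i hj) h hi),
      ((hφ i).tp.continuous.continuousAt.comp (hc z hz)).eventually
        (g1 i _ ((hφ i).maps (hU.cpt i).isClosed hi)), b1 i z ⟨hz, hi⟩] with x q1 q2 q3
    simp only [comp_apply] at q2 ⊢
    rw [q1, q2, q3]
  have k0 : ∀ φ : ℕ → Rn n → Rn n, (∀ i, CS (U i) (φ i)) → ∀ z ∈ Ω, (∀ i, B z ∉ U i) →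
      G ∘ gli φ ∘ B =ᶠ[𝓝 z] G ∘ B := fun φ hφ z hz hi =>
    ((hc z hz).eventually (gli_ev_id hU hΩ (fun i => (hφ i).off) (hB.1.mapsTo hz) hi)).mono
      fun x q => congrArg G q
  have mU : ∀ i, MeasurableSet (b i ⁻¹' U i) := fun i =>
    (hb i).tp.continuous.measurable (hU.cpt i).measurableSet
  refine ⟨w, hw, (setLIntegral_mono' (g := fun z => ∑' i, indicator (b i ⁻¹' U i)
    (en p (g i ∘ w i ∘ b i) (g i ∘ R i ∘ b i) (fderiv ℝ (g i ∘ R i ∘ b i))) z) hΩ.measurableSet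
    fun z hz => ?_).trans ((setLIntegral_le_lintegral _ _).trans ?_)⟩
  · by_cases hi : ∃ i, B z ∈ U i
    · obtain ⟨i, hi⟩ := hi
      refine le_trans ?_ (ENNReal.le_tsum i)
      rw [indicator_of_mem (show z ∈ b i ⁻¹' U i by
        rwa [mem_preimage, ← (b1 i z ⟨hz, hi⟩).eq_of_nhds]),
        LRound_congr (k1 w (fun i => (hw i).cs) i z hz hi) (k1 R hR i z hz hi)]
    · rw [en_self (by linarith) ((k0 w (fun i => (hw i).cs) z hz (not_exists.1 hi)).trans
        (k0 R hR z hz (not_exists.1 hi)).symm)]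
      exact zero_le
  · exact (lintegral_tsum fun i => ((LRound_meas p
      ((hg i).comp ((hw i).1.tp.comp (hb i).tp)).continuous
      ((hg i).comp ((hR i).tp.comp (hb i).tp)).continuous).indicator (mU i)).aemeasurable).trans_le
      ((ENNReal.tsum_le_tsum fun i => (lintegral_indicator (mU i) _).trans_le (w1 i)).trans e1.le)

/-- Two stages. Use round with (G o gli R1, id), then with (G, gli w), and en_int. -/
theorem round2 (hp : 1 ≤ p) {Ω : Set (Rn n)} (hΩ : IsOpen Ω) {U U' : ℕ → Set (Rn n)}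
    (hU : Fam Ω U) (hU' : Fam Ω U') {R R' : ℕ → Rn n → Rn n} (hR : ∀ i, CS (U i) (R i))
    (hR' : ∀ i, CS (U' i) (R' i)) {G : Rn n → Rn n} (hG : LTP Ω G) (hi : InjOn G Ω)
    (hε : ε ≠ 0) : ∃ F, LTP Ω F ∧ InjOn F Ω ∧ ContinuousOn (G ∘ gli R' ∘ gli R) Ω ∧
      ∫⁻ z in Ω, en p F (G ∘ gli R' ∘ gli R) (fderiv ℝ (G ∘ gli R' ∘ gli R)) z ≤ ε := by
  obtain ⟨d, d0, -, hd⟩ := ACo_small (c := 2 ^ p * 2) (ENNReal.mul_ne_top
    (ENNReal.rpow_ne_top_of_nonneg (by linarith) ENNReal.ofNat_ne_top) ENNReal.ofNat_ne_top) hε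
  have h1 : LTP Ω (G ∘ gli R') := hG.comp (ltp_gli hU' (fun i => (hR' i).off) fun i => (hR' i).tp)
    (gli_maps hU' (fun i => (hR' i).off) fun i => (hR' i).maps (hU'.cpt i).isClosed)
  obtain ⟨w, hw, e1⟩ := round hp hΩ hU hR h1 (LLH.id' Ω) d0
  have h2 := llh_gli hU hw
  obtain ⟨w', hw', e2⟩ := round hp hΩ hU' hR' hG h2 d0
  have h3 := (llh_gli hU' hw').comp h2
  have h4 := hG.comp h3.ltp h3.1.mapsTo
  refine ⟨_, h4, hi.comp h3.1.injOn h3.1.mapsTo,
    (h1.comp (ltp_gli hU (fun i => (hR i).off) fun i => (hR i).tp) (gli_maps hU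
      (fun i => (hR i).off) fun i => (hR i).maps (hU.cpt i).isClosed)).continuousOn hΩ,
    (en_int hp hΩ (h4.continuousOn hΩ) ((h1.comp h2.ltp h2.1.mapsTo).continuousOn hΩ) _ _).trans
      ((mul_le_mul_right (add_le_add e2 e1) _).trans ?_)⟩
  rwa [← two_mul, ← mul_assoc]

end BEp
end
end

-- merged part: Pool.Agent.Work.MP_f0515e_an.D3.LOut
section
/-! The energy outside the core.
Plan. T_ltp: ltp_gli, gli_maps (CS.off, CS.maps), LTP.comp. ae_fin: Omega is the union of the sets {d >= 1/(k+1)}, ae_lt_top. ν_int: lintegral_map, lintegral_withDensity_eq_lintegral_mul.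
eme: fin: if TL z is in the compact segment (inside Omega: Edge.seg_sub, sk_sub) then d z >= c / 2 (mvL, aa_near), W^p <= W^rho as W >= 1. ac: replace N by toMeasurable, the image under the injective continuous seg is measurable; for a.e. z in Omega W z < 2^k for some k, then X.T (const k) (const k) equals TL near z (ev, exists_lyA),
LTP.ae_loc_const for the countably many k and mov_congr. off: offH.
pw: c1 j from: a bound of G on the compact set {d >= r / 2^(j+2)} which contains T z (mv, aa_near), a bound of f on lyA j, LTP.ll of G there, W >= 1; c0 from ll0. Good points (W z below both powers): T = TL near z, land, edge_bound for T, ll1 with ll_norm_fderiv_le, fderiv_of_not_mov. Compare pw_der and pw_sup in Pos/AEn1.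
outer: e j with sum at most e / 2; tail_tendsto and exists_mono for mO, then for mE; every z in Omega is in some lyA j so the integrand is at most phi + main + tsum over j of indicator (lyA j) tails; lintegral_add, lintegral_tsum.
full: round2 with the families UE and Fam.cons H UO; en_int; on Q the composition equals G o Sc o r1 (mE 2) near z (core on the open set d > 3r/4, gli_cons_in at the image, lowO, mvE), off Q it equals G o T near z (offH, gli_cons_off); en_congr; lintegral over Omega is at most that over Q plus that over Omega minus Q. -/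

open Set Metric Filter Topology Function BEv MeasureTheory
open scoped NNReal ENNReal

noncomputable section
namespace BEp

theorem exists_mono {P : ℕ → ℕ → Prop} (h : ∀ j, ∀ᶠ K in atTop, P j K) (k : ℕ) :
    ∃ m : ℕ → ℕ, Monotone m ∧ ∀ j, k ≤ m j ∧ P j (m j) := by
  choose K hK using fun j => eventually_atTop.1 (h j)
  exact ⟨fun j => k + ∑ i ∈ Finset.range (j + 1), K i, fun i j hij => Nat.add_le_add_left
    (Finset.sum_le_sum_of_subset (Finset.range_mono (Nat.succ_le_succ hij))) k, fun j =>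
    ⟨Nat.le_add_right _ _, hK j _ (by simp only [Finset.sum_range_succ]; omega)⟩⟩

theorem LOut_near {n : ℕ} {Ω : Set (Rn n)} {d : Rn n → ℝ} {r η : ℝ} (hd : Lev Ω d) (hr : 0 < r)
    (hη : 1024 * η ≤ r) {y z : Rn n} (h : ‖y - z‖ ≤ η * aa d r z) :
    |d y - d z| ≤ d z / 50 :=
  (aa_near hd hr hη (by linarith [norm_nonneg (y - z)])).2

theorem LOut_bad {G T f : V 1 → V 1} {z : V 1} {M M' L c p : ℝ} {W : ℝ≥0∞} (hp : 1 ≤ p)
    (h1 : ‖G (T z)‖ ≤ M) (h2 : ‖f z‖ ≤ M') (h3 : LL G (T z) L) (h4 : LL T z (c * W.toReal))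
    (hL : 0 ≤ L) (hc : 0 ≤ c) (hW : W ≠ ⊤) (h5 : 1 ≤ W) :
    en p (G ∘ T) f 0 z ≤ (ENNReal.ofReal (M + M' + L * c) * W) ^ p := by
  have w : 1 ≤ W.toReal := by simpa using ENNReal.toReal_mono hW h5
  have m : 0 ≤ M + M' := by linarith [norm_nonneg (G (T z)), norm_nonneg (f z)]
  have k1 : ‖G (T z) - f z‖ₑ ≤ ENNReal.ofReal (M + M') * W :=
    AEn1_en hW m (((norm_sub_le _ _).trans (add_le_add h1 h2)).trans (le_mul_of_one_le_right m w))
  have k2 : ‖fderiv ℝ (G ∘ T) z‖ₑ ≤ ENNReal.ofReal (L * c) * W :=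
    AEn1_en hW (mul_nonneg hL hc) ((ll_norm_fderiv_le (h3.comp h4 hL) (by positivity)).trans
      (mul_assoc _ _ _).ge)
  rw [en, Pi.zero_apply, sub_zero, ENNReal.ofReal_add m (mul_nonneg hL hc), add_mul]
  exact (ENNReal.add_rpow_le_rpow_add _ _ hp).trans
    (ENNReal.rpow_le_rpow (add_le_add k1 k2) (by linarith))

namespace Ret
variable {Ω : Set (V 1)} {d : V 1 → ℝ} {r η : ℝ} {σ : ℝ → ℝ} {Q H : Set (V 1)}
  {r1 : ℕ → V 1 → V 1} (X : Ret Ω d r η σ Q H r1) {p ρ : ℝ}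

theorem LOut_E (m : ℕ → ℕ) : LTP Ω (gli (X.RE m)) ∧ MapsTo (gli (X.RE m)) Ω Ω :=
  ⟨ltp_gli X.famE (fun i => (X.csE m i).off) fun i => (X.csE m i).tp, gli_maps X.famE
    (fun i => (X.csE m i).off) fun i => (X.csE m i).maps (X.famE.cpt i).isClosed⟩

theorem T_ltp (mE mO : ℕ → ℕ) : LTP Ω (X.T mE mO) ∧ MapsTo (X.T mE mO) Ω Ω := by
  exact ⟨(ltp_gli X.famO (fun i => (X.csO mO i).off) fun i => (X.csO mO i).tp).comp
    (X.LOut_E mE).1 (X.LOut_E mE).2, (gli_maps X.famO (fun i => (X.csO mO i).off)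
      fun i => (X.csO mO i).maps (X.famO.cpt i).isClosed).comp (X.LOut_E mE).2⟩

theorem ae_fin (hd : Lev Ω d) (hρ : 0 < ρ)
    (hW : ∀ a, 0 < a → ∫⁻ z in {x | a ≤ d x}, X.W z ^ ρ ≠ ⊤) : ∀ᵐ z, z ∈ Ω → X.W z ≠ ⊤ := by
  have h (k : ℕ) : ∀ᵐ z, z ∈ {x | 1 / ((k : ℝ) + 1) ≤ d x} → X.W z ^ ρ < ⊤ :=
    (ae_restrict_iff' (hd.cpt _ Nat.one_div_pos_of_nat).measurableSet).1
      (ae_lt_top (X.mW.pow_const ρ) (hW _ Nat.one_div_pos_of_nat))
  filter_upwards [ae_all_iff.2 h] with z hz k e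
  obtain ⟨j, hj⟩ := exists_nat_one_div_lt ((hd.pos z).2 k)
  have := hz j hj.le
  rw [e, ENNReal.top_rpow_of_pos hρ] at this
  exact this.ne rfl

theorem ν_int (p : ℝ) {g : V 1 → ℝ≥0∞} (hg : Measurable g) :
    ∫⁻ y, g y ∂X.ν p = ∫⁻ z in (Ω \ Q) ∩ mov X.TL, X.W z ^ p * g (X.TL z) := by
  rw [ν, lintegral_map hg X.mT]
  exact lintegral_withDensity_eq_lintegral_mul _ (X.mW.pow_const p) (hg.comp X.mT)

theorem LOut_app (p : ℝ) {s : Set (V 1)} (hs : MeasurableSet s) :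
    X.ν p s = ∫⁻ z in X.TL ⁻¹' s ∩ ((Ω \ Q) ∩ mov X.TL), X.W z ^ p := by
  rw [ν, Measure.map_apply X.mT hs, withDensity_apply _ (X.mT hs),
    Measure.restrict_restrict (X.mT hs)]

theorem eme (hd : Lev Ω d) (hr : 0 < r) (hη : 1024 * η ≤ r) (hQ : MeasurableSet Q)
    (hH : IsCompact H) (hp : 0 < p) (hρ : p ≤ ρ)
    (hW : ∀ a, 0 < a → ∫⁻ z in {x | a ≤ d x}, X.W z ^ ρ ≠ ⊤) (K : Kx Ω) : EMe K H (X.ν p) := by
  refine ⟨fun a b h => ?_, fun a b h N hN => ?_, ?_⟩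
  · have hC : IsCompact (segment ℝ a b) := seg_image a b ▸ isCompact_Icc.image
      (tp_seg a b).lip.choose_spec.continuous
    obtain ⟨c, c0, hc⟩ := hd.low hC (h.seg_sub.trans (K.sk_sub 1))
    rw [X.LOut_app p hC.measurableSet]
    refine ne_top_of_le_ne_top (hW (c / 2) (half_pos c0)) ((lintegral_mono_set
      fun z hz => ?_).trans (lintegral_mono fun z =>
        ENNReal.rpow_le_rpow_of_exponent_le (X.one z) hρ))
    have k := abs_le.1 (LOut_near hd hr hη (X.mvL z hz.2.1.1).1)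
    change c / 2 ≤ d z
    linarith [hc _ hz.1, k.2, hd.nn z]
  · have hm : MeasurableSet (seg a b '' toMeasurable volume N) :=
      (measurableSet_toMeasurable _ N).image_of_continuousOn_injOn
        (tp_seg a b).lip.choose_spec.continuous.continuousOn (LEdge_inj h.1).injOn
    refine measure_mono_null (image_mono (subset_toMeasurable volume N)) ?_
    rw [X.LOut_app p hm]
    refine setLIntegral_measure_zero _ _ (measure_eq_zero_iff_ae_notMem.2 ?_)
    filter_upwards [X.ae_fin hd (hp.trans_le hρ) hW, ae_all_iff.2 fun k : ℕ =>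
      (X.T_ltp (fun _ => k) fun _ => k).1.ae_loc_const hd.isOpen a b
        ((measure_toMeasurable N).trans hN)] with z h1 h2 hz
    obtain ⟨k, hk⟩ := ENNReal.exists_nat_gt (h1 hz.2.1.1)
    have hk' : X.W z < 2 ^ k := hk.trans (by exact_mod_cast Nat.lt_two_pow_self)
    obtain ⟨j, hj⟩ := exists_lyA hd hr hz.2.1.1
    have e : X.T (fun _ => k) (fun _ => k) =ᶠ[𝓝 z] X.TL :=
      X.ev _ _ monotone_const monotone_const j z hj hk' hk'
    exact h2 k hz.2.1.1 (e.eq_of_nhds ▸ hz.1) ((mov_congr e).2 hz.2.2)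
  · have e : X.TL ⁻¹' H ∩ ((Ω \ Q) ∩ mov X.TL) = ∅ :=
      eq_empty_of_forall_notMem fun z hz => (X.offH z hz.2.1.1 hz.2.1.2).1 hz.1
    rw [X.LOut_app p hH.measurableSet, e, Measure.restrict_empty, lintegral_zero_measure]

theorem pw (hd : Lev Ω d) (hr : 0 < r) (hη : 1024 * η ≤ r) (hp : 1 ≤ p) {K : Kx Ω}
    (hZ : ∀ j, X.Z j ⊆ K.sk 1) {G f : V 1 → V 1} (hG : LTP Ω G) (hf : ContinuousOn f Ω)
    {g φ : V 1 → ℝ≥0∞} (hg : ESp K H G g)
    (hs : ∀ z ∈ Ω, z ∉ Q → X.W z ≠ ⊤ → ‖G (X.TL z) - f z‖ₑ ^ p ≤ φ z) :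
    ∃ c1 : ℕ → ℝ≥0∞, (∀ j, c1 j ≠ ⊤) ∧ ∀ mO, Monotone mO → ∃ c0 : ℕ → ℝ≥0∞, (∀ j, c0 j ≠ ⊤) ∧
      ∀ mE, Monotone mE → ∀ᵐ z, ∀ j, z ∈ lyA d r j → z ∉ Q → X.W z ≠ ⊤ →
        en p (G ∘ X.T mE mO) f 0 z ≤ φ z +
          indicator (mov X.TL) (fun z => 4 ^ p * (X.W z ^ p * g (X.TL z) ^ p)) z +
          indicator {y | (2 : ℝ≥0∞) ^ mO j ≤ X.W y} (fun y => c1 j * X.W y) z ^ p +
          indicator {y | (2 : ℝ≥0∞) ^ mE j ≤ X.W y} (fun y => c0 j * X.W y) z ^ p := by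
  have hC (j : ℕ) : IsCompact {x | r / 2 ^ j / 4 ≤ d x} := hd.cpt _ (by positivity)
  have hS (j : ℕ) : {x | r / 2 ^ j / 4 ≤ d x} ⊆ Ω :=
    fun x hx => (hd.pos x).1 (lt_of_lt_of_le (by positivity) hx)
  choose M hM using fun j =>
    (hC j).exists_bound_of_continuousOn ((hG.continuousOn hd.isOpen).mono (hS j))
  choose M' hM' using fun j => (hC j).exists_bound_of_continuousOn (hf.mono (hS j))
  choose L L0 hL using fun j => hG.ll hd.isOpen (hC j) (hS j)
  refine ⟨fun j => ENNReal.ofReal (M j + M' j + L j * 4), fun _ => ENNReal.ofReal_ne_top,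
    fun mO hO => ?_⟩
  choose c c0 hc using X.ll0 mO
  refine ⟨fun j => ENNReal.ofReal (M j + M' j + L j * c j), fun _ => ENNReal.ofReal_ne_top,
    fun mE hE => ?_⟩
  filter_upwards [edge_bound hd.isOpen (X.T_ltp mE mO).1 hg] with z h j hj hQ hW
  have r0 : 0 < r / 2 ^ j := by positivity
  have z1 : z ∈ {x | r / 2 ^ j / 4 ≤ d x} := by
    change _ ≤ d z
    linarith [hj.1]
  have z2 : X.T mE mO z ∈ {x | r / 2 ^ j / 4 ≤ d x} := by
    change _ ≤ d (gli (X.RO mO) (gli (X.RE mE) z))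
    linarith [hj.1, (abs_le.1 (LOut_near hd hr hη (X.mv mE mO z))).1]
  rcases le_or_gt ((2 : ℝ≥0∞) ^ mE j) (X.W z) with h1 | h1
  · rw [indicator_of_mem (s := {y | (2 : ℝ≥0∞) ^ mE j ≤ X.W y}) h1]
    exact (LOut_bad hp (hM j _ z2) (hM' j _ z1) (hL j _ z2) (hc j mE z hj hW) (L0 j) (c0 j) hW
      (X.one z)).trans le_add_self
  have l1 : LL (X.T mE mO) z (4 * (X.W z).toReal) := X.ll1 mE mO hE j z hj h1
  refine le_trans ?_ le_self_add
  rcases le_or_gt ((2 : ℝ≥0∞) ^ mO j) (X.W z) with h2 | h2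
  · rw [indicator_of_mem (s := {y | (2 : ℝ≥0∞) ^ mO j ≤ X.W y}) h2]
    exact (LOut_bad hp (hM j _ z2) (hM' j _ z1) (hL j _ z2) l1 (L0 j) (by norm_num) hW
      (X.one z)).trans le_add_self
  refine le_trans ?_ le_self_add
  have e : X.T mE mO =ᶠ[𝓝 z] X.TL := X.ev mE mO hE hO j z hj h1 h2
  have zΩ := hS j z1
  have p0 : 0 < p := by linarith
  rw [en, Pi.zero_apply, sub_zero, comp_apply, e.eq_of_nhds]
  refine add_le_add (hs z zΩ hQ hW) ?_
  by_cases hm : z ∈ mov X.TL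
  · obtain ⟨i, hi⟩ := mem_iUnion.1 (X.land z zΩ hQ hW)
    rw [e.eq_of_nhds] at h
    have k := AEn1_en hW (by norm_num) (ll_norm_fderiv_le l1 (by positivity))
    rw [ENNReal.ofReal_ofNat] at k
    rw [indicator_of_mem hm, ← ENNReal.mul_rpow_of_nonneg _ _ p0.le,
      ← ENNReal.mul_rpow_of_nonneg _ _ p0.le, ← mul_assoc, mul_comm (_ * _)]
    exact ENNReal.rpow_le_rpow ((h zΩ (hZ i hi) (X.offH z zΩ hQ).1 ((mov_congr e).2 hm)).trans
      (mul_le_mul_right k _)) p0.le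
  · rw [fderiv_of_not_mov (mt (mov_congr e).1 hm), ← ofReal_norm, norm_zero,
      ENNReal.ofReal_zero, ENNReal.zero_rpow_of_pos p0]
    exact zero_le

theorem LOut_tail (hd : Lev Ω d) (hr : 0 < r) (hp : 0 < p) (hρ : p < ρ)
    (hW : ∀ a, 0 < a → ∫⁻ z in {x | a ≤ d x}, X.W z ^ ρ ≠ ⊤) {c : ℕ → ℝ≥0∞} (hc : ∀ j, c j ≠ ⊤)
    {e : ℝ≥0∞} (he : e ≠ 0) (k : ℕ) : ∃ m : ℕ → ℕ, Monotone m ∧ (∀ j, k ≤ m j) ∧
      ∃ t : V 1 → ℝ≥0∞, Measurable t ∧ ∫⁻ z, t z ≤ e ∧ ∀ j, ∀ z ∈ lyA d r j,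
        indicator {y | (2 : ℝ≥0∞) ^ m j ≤ X.W y} (fun y => c j * X.W y) z ^ p ≤ t z := by
  obtain ⟨ε, ε0, hε⟩ := ENNReal.exists_pos_sum_of_countable he ℕ
  have h (j : ℕ) := (tail_tendsto X.mW hp hρ (Q := lyA d r j) (ne_top_of_le_ne_top
    (hW (1 / 2 * (r / 2 ^ j)) (by positivity)) (lintegral_mono_set fun z hz => hz.1))
    (hc j)).eventually_le_const (ENNReal.coe_pos.2 (ε0 j))
  obtain ⟨m, m1, m2⟩ := exists_mono h k
  have mA (j : ℕ) : MeasurableSet (lyA d r j) := (bnd_cpt hd hr (by norm_num) 1 j).measurableSet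
  have mt (j : ℕ) : Measurable (indicator (lyA d r j) fun z =>
      indicator {y | (2 : ℝ≥0∞) ^ m j ≤ X.W y} (fun y => c j * X.W y) z ^ p) :=
    (((X.mW.const_mul _).indicator (measurableSet_le measurable_const X.mW)).pow_const p).indicator
      (mA j)
  refine ⟨m, m1, fun j => (m2 j).1, fun z => ∑' j, indicator (lyA d r j) (fun z =>
    indicator {y | (2 : ℝ≥0∞) ^ m j ≤ X.W y} (fun y => c j * X.W y) z ^ p) z,
    Measurable.tsum mt, ?_, fun j z hz => le_trans ?_ (ENNReal.le_tsum j)⟩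
  · rw [lintegral_tsum fun j => (mt j).aemeasurable]
    refine (ENNReal.tsum_le_tsum fun j => ?_).trans hε.le
    rw [lintegral_indicator (mA j)]
    exact (m2 j).2
  · rw [indicator_of_mem hz]

theorem outer (hd : Lev Ω d) (hr : 0 < r) (hη : 1024 * η ≤ r) (hQ : MeasurableSet Q)
    (hp : 1 ≤ p) (hρ : p < ρ) (hW : ∀ a, 0 < a → ∫⁻ z in {x | a ≤ d x}, X.W z ^ ρ ≠ ⊤)
    {K : Kx Ω} (hZ : ∀ j, X.Z j ⊆ K.sk 1) {G f : V 1 → V 1} (hG : LTP Ω G)
    (hf : ContinuousOn f Ω) {g φ : V 1 → ℝ≥0∞} (hm : Measurable g) (hφ : Measurable φ)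
    (hg : ESp K H G g) (hs : ∀ z ∈ Ω, z ∉ Q → X.W z ≠ ⊤ → ‖G (X.TL z) - f z‖ₑ ^ p ≤ φ z)
    {e : ℝ≥0∞} (he : e ≠ 0) (k : ℕ) : ∃ mE mO : ℕ → ℕ, k ≤ mE 2 ∧
      ∫⁻ z in Ω \ Q, en p (G ∘ X.T mE mO) f 0 z ≤
        (∫⁻ z in Ω, φ z) + 4 ^ p * (∫⁻ y, g y ^ p ∂X.ν p) + e := by
  have p0 : 0 < p := by linarith
  have e2 := ENNReal.half_pos he
  obtain ⟨c1, h1, h⟩ := X.pw hd hr hη hp hZ hG hf hg hs
  obtain ⟨mO, o1, -, t, t1, t2, t3⟩ := X.LOut_tail hd hr p0 hρ hW h1 e2.ne' k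
  obtain ⟨c0, h0, h⟩ := h mO o1
  obtain ⟨mE, e1, hk, u, u1, u2, u3⟩ := X.LOut_tail hd hr p0 hρ hW h0 e2.ne' k
  have mΩ := hd.isOpen.measurableSet.diff hQ
  have mM := (isClosed_mov X.TL).measurableSet
  refine ⟨mE, mO, hk 2, (lintegral_mono_ae (g := fun z => φ z + indicator (mov X.TL)
    (fun z => 4 ^ p * (X.W z ^ p * g (X.TL z) ^ p)) z + t z + u z) ?_).trans ?_⟩
  · rw [ae_restrict_iff' mΩ]
    filter_upwards [h mE e1, X.ae_fin hd (p0.trans hρ) hW] with z k1 k2 hz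
    obtain ⟨j, hj⟩ := exists_lyA hd hr hz.1
    exact (k1 j hj hz.2 (k2 hz.1)).trans (add_le_add (add_le_add le_rfl (t3 j z hj)) (u3 j z hj))
  · rw [lintegral_add_right _ u1, lintegral_add_right _ t1, lintegral_add_left hφ,
      lintegral_indicator mM, Measure.restrict_restrict mM, inter_comm,
      lintegral_const_mul' _ _ (ENNReal.rpow_ne_top_of_nonneg p0.le ENNReal.ofNat_ne_top),
      X.ν_int p (hm.pow_const p), add_assoc, ← ENNReal.add_halves e]
    exact add_le_add (add_le_add (lintegral_mono_set sdiff_subset) le_rfl)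
      (add_le_add ((setLIntegral_le_lintegral _ _).trans t2)
        ((setLIntegral_le_lintegral _ _).trans u2))

theorem full (hd : Lev Ω d) (hr : 0 < r) (hη : 1024 * η ≤ r) (hQ : MeasurableSet Q)
    (hH : IsCompact H) (hHQ : H ⊆ Q) (hQr : ∀ x ∈ Q, r ≤ d x) (hp : 1 ≤ p) {G Sc : V 1 → V 1}
    (hG : LTP Ω G) (hi : InjOn G Ω) (hS : CS H Sc) (mE mO : ℕ → ℕ) (f : V 1 → V 1)
    (D : V 1 → V 1 →L[ℝ] V 1) {e : ℝ≥0∞} (he : e ≠ 0) : ∃ F, LTP Ω F ∧ InjOn F Ω ∧
      ∫⁻ z in Ω, en p F f (indicator Q D) z ≤ 2 ^ p * (e +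
        ((∫⁻ z in Q, en p (G ∘ Sc ∘ r1 (mE 2)) f D z) +
          ∫⁻ z in Ω \ Q, en p (G ∘ X.T mE mO) f 0 z)) := by
  have hΩ := hd.isOpen
  have QΩ : Q ⊆ Ω := fun x hx => (hd.pos x).1 (hr.trans_le (hQr x hx))
  have hU := X.famO.cons hH (hHQ.trans QΩ) fun i => disjoint_left.2 fun x h1 h2 => by
    linarith [X.lowO i x h2, hQr x (hHQ h1)]
  obtain ⟨F, f1, f2, f3, f4⟩ := round2 hp hΩ X.famE hU (X.csE mE)
    (R' := fun i => Nat.casesOn i Sc (X.RO mO))
    (fun i => by cases i; exacts [hS, X.csO mO _]) hG hi he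
  refine ⟨F, f1, f2, (en_int hp hΩ (f1.continuousOn hΩ) f3 f _).trans (mul_le_mul_right
    (add_le_add f4 ((lintegral_mono_set (union_sdiff_cancel QΩ).ge).trans
      ((lintegral_union_le _ _ _).trans (add_le_add (le_of_eq ?_) (le_of_eq ?_))))) _)⟩
  all_goals have c (z : V 1) (hz : z ∈ Ω) : ContinuousAt (gli (X.RE mE)) z :=
    ((X.LOut_E mE).1.continuousOn hΩ).continuousAt (hΩ.mem_nhds hz)
  · refine setLIntegral_congr_fun hQ fun z hz => ?_
    have k := (abs_le.1 (LOut_near hd hr hη (X.mvE mE z))).1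
    have e1 := (gli_cons_in X.famO hΩ (fun i => (X.csO mO i).off) Sc ((X.LOut_E mE).2 (QΩ hz))
      fun j hj => by linarith [X.lowO j _ hj, hQr z hz]).comp_tendsto (c z (QΩ hz))
    have e2 : ∀ᶠ x in 𝓝 z, 3 * r / 4 < d x :=
      hd.continuous.continuousAt.eventually_const_lt (by linarith [hQr z hz])
    rw [en_congr (G' := G ∘ Sc ∘ r1 (mE 2)), en, en, indicator_of_mem hz]
    filter_upwards [e1, e2] with x k1 k2
    rw [comp_apply, k1, comp_apply, X.core mE x k2.le]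
    rfl
  · refine setLIntegral_congr_fun (hΩ.measurableSet.diff hQ) fun z hz => ?_
    have e1 := (gli_cons_off X.famO (fun i => (X.csO mO i).off) hH.isClosed hS.off
      ((X.offH z hz.1 hz.2).2 mE)).comp_tendsto (c z hz.1)
    rw [en_congr (G' := G ∘ X.T mE mO) (e1.fun_comp G), en, en, indicator_of_notMem hz.2]
    rfl

end Ret

end BEp
end
end

-- merged part: Pool.Agent.Work.MP_f0515e_an.D3.LRet1
section
/-! The retraction of one layer and the gluing of the layers of one parity.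
Plan. Compare Pos/AG3 (norm_r1_sub_le, r1_land, r1_KL, ll_r1, measurable_r1). rgd_maps: if y = rgd z is outside the closed set U and c z > 0, a point y1 of the segment from z to y close to y is still outside U, so c z = c z - c y1 <= |z - y1| < |z - y| <= c z.
rgd_cs: cs_of_accr with Accr.loc, accr_cj, accr_RI, TP.loc, tp_cj, tp_RI. rgd_land: cj moves each coordinate by at most s (abs_RI_sub_le), loc_eq_of_le, xi_cj, RI_mem. rgd_ll: LL.loc of ll_cj with Lambda = 1, beI_le_half. pc_sgd: the set is the image of a bounded part of SkI univ under an affine map (pc_sk, PC.image, PC.mono).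
Gl lemmas: the family is fam_lyS; gli_in, gli_fix, gli_ev, gli_ev_id, ltp_gli, measurable_gli. Gl_mv: c j z <= eta j, fields sm, sg and aa_lyS. Wp_in: tsum_eq_single. Gl_ev: at z in the layer j, Wp z < 2^K gives bgd z > 2^(-K) > dl K, still true near z (continuous_bgd), rgd_KL.
Gl_land: take K with dl K <= bgd z, rgd_KL and rgd_land with the field full. -/

open Set Metric Filter Topology Function BEv MeasureTheory
open scoped NNReal ENNReal

noncomputable section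
namespace BEp

section One
variable {c c' : V 1 → ℝ} {s : ℝ} {ω z : V 1} {Φ : V 1 → V 1} {U : Set (V 1)} {K : ℕ}

theorem rgd_mv (h : 0 ≤ c z) : ‖rgd c s ω Φ z - z‖ ≤ c z :=
  norm_loc_sub_le _ h

theorem rgd_fix (h : c z = 0) : rgd c s ω Φ z = z :=
  loc_eq_self h

theorem rgd_congr (h : c z = c' z) : rgd c s ω Φ z = rgd c' s ω Φ z :=
  loc_congr h rfl

theorem rgd_maps (hU : IsClosed U) (hl : ∀ x y, |c x - c y| ≤ ‖x - y‖) (hn : ∀ x, 0 ≤ c x)
    (h0 : ∀ x, x ∉ U → c x = 0) : MapsTo (rgd c s ω Φ) U U := by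
  intro z hz
  have h1 := rgd_mv (s := s) (ω := ω) (Φ := Φ) (hn z)
  have h2 : Tendsto (fun t : ℝ => z + t • (rgd c s ω Φ z - z)) (𝓝[<] 1) (𝓝 (rgd c s ω Φ z)) :=
    tendsto_nhdsWithin_of_tendsto_nhds (Continuous.tendsto' (by fun_prop) _ _ (by simp))
  refine hU.mem_of_tendsto h2 (mem_of_superset (Ioo_mem_nhdsLT one_pos) fun t ht =>
    by_contra fun k => k ?_)
  have h3 := hl (z + t • (rgd c s ω Φ z - z)) z
  rw [h0 _ k, zero_sub, abs_neg, abs_of_nonneg (hn z), add_sub_cancel_left, norm_smul,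
    Real.norm_of_nonneg ht.1.le] at h3
  have h4 : c z = 0 := le_antisymm (by nlinarith [ht.1, ht.2]) (hn z)
  change z + t • _ ∈ U
  rwa [rgd_fix h4, sub_self, smul_zero, add_zero]

theorem rgd_cs (hs : 0 < s) (ht : TP c) (hl : ∀ x y, |c x - c y| ≤ ‖x - y‖)
    (h0 : ∀ x, x ∉ U → c x = 0) (ω : V 1) (K : ℕ) : CS U (rgd c s ω (RI Finset.univ K)) :=
  cs_of_accr ((accr_cj hs ω (accr_RI _ K)).loc hl) ((tp_cj _ _ _ s (tp_RI _ K)).loc ht)
    fun x hx => rgd_fix (h0 x hx)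

theorem LRet1_xi (hs : s ≠ 0) (ω z : V 1) :
    s • (xi (ContinuousLinearEquiv.refl ℝ (V 1)) 0 s ω z + ω) = z := by
  rw [xi, sub_add_cancel, smul_inv_smul₀ hs, sub_zero]
  rfl

theorem rgd_land (hs : 0 < s) (h : s ≤ c z) (hK : dl K ≤ bgd s ω z) :
    rgd c s ω (RI Finset.univ K) z ∈ sgd s ω := by
  change xi _ _ _ _ (loc _ _ _) ∈ SkI (m := 1) Finset.univ
  rw [loc_eq_of_le fun i => le_trans ?_ h, xi_cj _ _ _ hs.ne']
  · exact RI_mem hK
  · have e := congrFun (LRet1_xi hs.ne' ω z) i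
    change |0 + s * (_ + ω i) - z i| ≤ s
    rw [← e, Pi.smul_apply, Pi.add_apply, smul_eq_mul, zero_add, ← mul_sub, add_sub_add_right_eq_sub,
      abs_mul, abs_of_pos hs]
    exact mul_le_of_le_one_right hs.le (abs_RI_sub_le _ _ _ i)

theorem rgd_KL (hK : dl K ≤ bgd s ω z) :
    rgd c s ω (RI Finset.univ K) z = rgd c s ω (RL Finset.univ) z :=
  loc_congr rfl (cj_congr _ _ _ (RI_eq_RL hK))

theorem rgd_ll (hs : 0 < s) (hl : ∀ x y, |c x - c y| ≤ ‖x - y‖) (K : ℕ) (h : 0 < bgd s ω z) :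
    LL (rgd c s ω (RI Finset.univ K)) z (2 / bgd s ω z) := by
  have h1 : bgd s ω z ≤ 1 / 2 := beI_le_half _ _
  refine LL.loc ?_ (LL.of_forall (c := 1) (fun x y => (hl x y).trans_eq (one_mul _).symm) _)
    zero_le_one ((le_div_iff₀ h).2 (by linarith))
  simpa using ll_cj (ContinuousLinearEquiv.refl ℝ (V 1)) 0 ω hs (Λ := 1) zero_le_one
    (div_pos two_pos h).le (fun y => by simp) (fun y => by simp) (ll_RI K h)

theorem measurable_rgd (hc : Measurable c) (s : ℝ) (ω : V 1) :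
    Measurable (rgd c s ω (RL Finset.univ)) :=
  measurable_loc hc (measurable_cj _ _ _ s (measurable_RL _))

theorem continuous_bgd (s : ℝ) (ω : V 1) : Continuous (bgd s ω) :=
  (tp_beI _).continuous.comp (tp_xi _ _ _ s).continuous

theorem isClosed_sgd (s : ℝ) (ω : V 1) : IsClosed (sgd s ω) := by
  obtain ⟨D, h1, -, h2⟩ := exists_SkI_zero (m := 1) Finset.univ
  simp only [sgd, h2]
  exact isClosed_eq (h1.continuous.comp (tp_xi _ _ _ s).continuous) continuous_const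

theorem pc_sgd (hs : 0 < s) (ω : V 1) (hU : Bornology.IsBounded U) : PC 1 (sgd s ω ∩ U) := by
  obtain ⟨R, hR⟩ := hU.isCompact_closure.exists_bound_of_continuousOn
    (tp_xi (ContinuousLinearEquiv.refl ℝ (V 1)) 0 ω s).continuous.continuousOn
  exact ((pc_sk Finset.univ 0 R).image (AZ_bdd _ _ _) ((TP.id'.add (TP.const ω)).const_smul s)).mono
    fun z hz => ⟨_, ⟨hR z (subset_closure hz.2), hz.1, fun l hl => absurd (Finset.mem_univ l) hl⟩,
      LRet1_xi hs.ne' ω z⟩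

end One

namespace Lys
variable {L : Lys} {Ω Q : Set (V 1)} {d : V 1 → ℝ} {r η : ℝ} {σ : ℝ → ℝ} {ω : ℕ → V 1}
  {Φ : ℕ → V 1 → V 1} {π i j : ℕ} {z : V 1} {m : ℕ → ℕ}

theorem LRet1_dl {b : ℝ} {K : ℕ} (h : 1 + (ENNReal.ofReal b)⁻¹ < 2 ^ K) : dl K < b := by
  have h1 := ENNReal.inv_lt_iff_inv_lt.1 (le_add_self.trans_lt h)
  rw [← ENNReal.ofReal_ofNat, ← ENNReal.ofReal_pow two_pos.le,
    ← ENNReal.ofReal_inv_of_pos (by positivity), ENNReal.ofReal_lt_ofReal_iff'] at h1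
  refine lt_trans ?_ h1.1
  rw [dl, one_div]
  exact inv_strictAnti₀ (by positivity) (pow_lt_pow_right₀ one_lt_two K.lt_succ_self)

theorem LRet1_pos {b : ℝ} (h : 1 + (ENNReal.ofReal b)⁻¹ ≠ ⊤) : 0 < b :=
  ENNReal.ofReal_pos.1 (pos_iff_ne_zero.2 (ENNReal.inv_ne_top.1 (ENNReal.add_ne_top.1 h).2))

theorem Ok.η0 (hL : L.Ok d r η σ Q) : 0 < η :=
  (mul_pos (by positivity) (hL.pos 0)).trans_le (hL.sm 0)

theorem R_off (hL : L.Ok d r η σ Q) (hz : z ∉ lyS d r j) : L.R ω Φ j z = z :=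
  rgd_fix (hL.off j z hz)

theorem R_maps (hd : Lev Ω d) (hL : L.Ok d r η σ Q) (j : ℕ) :
    MapsTo (L.R ω Φ j) (lyS d r j) (lyS d r j) :=
  rgd_maps (bnd_cpt hd hL.r0 (by norm_num) _ j).isClosed (hL.lip j) (hL.nn j) (hL.off j)

theorem R_cs (hL : L.Ok d r η σ Q) (ω : ℕ → V 1) (m : ℕ → ℕ) (j : ℕ) :
    CS (lyS d r j) (L.R ω (dep m) j) :=
  rgd_cs (hL.pos j) (hL.tp j) (hL.lip j) (hL.off j) _ _

theorem Gl_in (hd : Lev Ω d) (hL : L.Ok d r η σ Q) (hz : z ∈ lyS d r (2 * i + π)) :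
    L.Gl π ω Φ z = L.R ω Φ (2 * i + π) z :=
  gli_in (fam_lyS hd hL.r0 π) (fun _ _ h => R_off hL h) hz

theorem Gl_off (hL : L.Ok d r η σ Q) (hz : ∀ i, z ∉ lyS d r (2 * i + π)) : L.Gl π ω Φ z = z :=
  gli_fix fun i => R_off hL (hz i)

theorem Gl_mv (hd : Lev Ω d) (hL : L.Ok d r η σ Q) (π : ℕ) (ω : ℕ → V 1) (Φ : ℕ → V 1 → V 1)
    (z : V 1) : ‖L.Gl π ω Φ z - z‖ ≤ η * aa d r z / 7 ∧
      (z ∈ Ω → ‖L.Gl π ω Φ z - z‖ ≤ σ (d z / 3) / 2) := by
  have η0 := hL.η0
  by_cases h : ∃ i, z ∈ lyS d r (2 * i + π)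
  · obtain ⟨i, hi⟩ := h
    have h1 : ‖L.Gl π ω Φ z - z‖ ≤ L.η (2 * i + π) := by
      rw [Gl_in hd hL hi]
      exact (rgd_mv (hL.nn _ z)).trans (hL.le _ z)
    have h2 := (le_div_iff₀' (by positivity)).2 (hL.sm (2 * i + π))
    have h3 := mul_le_mul_of_nonneg_left (aa_lyS hL.r0 hi) η0.le
    have h4 : 0 < r / 2 ^ (2 * i + π) := div_pos hL.r0 (by positivity)
    have h5 := (hL.sg (2 * i + π)).trans ((hL.mp.1 : Monotone σ)
      (show r / 2 ^ (2 * i + π) / 8 ≤ d z / 3 by linarith [hi.1]))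
    refine ⟨h1.trans (h2.trans (le_trans (le_of_eq ?_) (div_le_div_of_nonneg_right h3
      (by norm_num)))), fun _ => by linarith⟩
    field_simp
  · rw [Gl_off hL (not_exists.1 h), sub_self, norm_zero]
    exact ⟨div_nonneg (mul_nonneg η0.le (aa_nonneg hd hL.r0 z)) (by norm_num), fun hz =>
      (half_pos (hL.mp.2 _ (div_pos ((hd.pos z).2 hz) three_pos))).le⟩

theorem Gl_maps (hd : Lev Ω d) (hL : L.Ok d r η σ Q) : MapsTo (L.Gl π ω Φ) Ω Ω :=
  gli_maps (fam_lyS hd hL.r0 π) (fun _ _ h => R_off hL h) fun _ => R_maps hd hL _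

theorem Gl_ltp (hd : Lev Ω d) (hL : L.Ok d r η σ Q) (π : ℕ) (ω : ℕ → V 1) (m : ℕ → ℕ) :
    LTP Ω (L.Gl π ω (dep m)) :=
  ltp_gli (fam_lyS hd hL.r0 π) (fun _ _ h => R_off hL h) fun _ => (R_cs hL ω m _).tp

theorem measurable_Gl (hd : Lev Ω d) (hL : L.Ok d r η σ Q) (π : ℕ) (ω : ℕ → V 1) :
    Measurable (L.Gl π ω fun _ => RL Finset.univ) :=
  measurable_gli (fam_lyS hd hL.r0 π) (fun _ _ h => R_off hL h) fun _ =>
    measurable_rgd (hL.tp _).continuous.measurable _ _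

theorem measurable_Wp (L : Lys) (hd : Lev Ω d) (r : ℝ) (π : ℕ) (ω : ℕ → V 1) :
    Measurable (L.Wp d r π ω) :=
  Measurable.const_add (Measurable.ennreal_tsum fun _ =>
    (continuous_bgd _ _).measurable.ennreal_ofReal.inv.indicator
      ((measurableSet_le measurable_const hd.continuous.measurable).inter
        ((MeasurableSet.const _).imp
          (measurableSet_le hd.continuous.measurable measurable_const)))) 1

theorem one_le_Wp (L : Lys) (d : V 1 → ℝ) (r : ℝ) (π : ℕ) (ω : ℕ → V 1) (z : V 1) :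
    1 ≤ L.Wp d r π ω z := le_self_add

theorem Wp_in (hd : Lev Ω d) (hr : 0 < r) (hz : z ∈ lyS d r (2 * i + π)) : L.Wp d r π ω z =
    1 + (ENNReal.ofReal (bgd (L.η (2 * i + π)) (ω (2 * i + π)) z))⁻¹ := by
  rw [Wp, tsum_eq_single i fun i' h => indicator_of_notMem
    (disjoint_right.1 ((fam_lyS hd hr π).disj i' i h) hz) _, indicator_of_mem hz]

theorem Wp_off (hz : ∀ i, z ∉ lyS d r (2 * i + π)) : L.Wp d r π ω z = 1 := by
  simp only [Wp, indicator_of_notMem (hz _), tsum_zero, add_zero]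

theorem LRet1_ev (hd : Lev Ω d) (hL : L.Ok d r η σ Q) (hz : z ∈ lyS d r (2 * i + π)) :
    L.Gl π ω Φ =ᶠ[𝓝 z] L.R ω Φ (2 * i + π) :=
  gli_ev (fam_lyS hd hL.r0 π) hd.isOpen (fun _ _ h => R_off hL h) ((fam_lyS hd hL.r0 π).sub i hz)
    fun j h => disjoint_right.1 ((fam_lyS hd hL.r0 π).disj j i h) hz

theorem LRet1_id (hd : Lev Ω d) (hL : L.Ok d r η σ Q) (hz : z ∈ Ω)
    (h : ¬ ∃ i, z ∈ lyS d r (2 * i + π)) : L.Gl π ω Φ =ᶠ[𝓝 z] id :=
  gli_ev_id (fam_lyS hd hL.r0 π) hd.isOpen (fun _ _ h => R_off hL h) hz (not_exists.1 h)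

theorem Gl_ev (hd : Lev Ω d) (hL : L.Ok d r η σ Q) (hz : z ∈ Ω)
    (h : ∀ i, z ∈ lyS d r (2 * i + π) → L.Wp d r π ω z < 2 ^ m (2 * i + π + 2)) :
    L.Gl π ω (dep m) =ᶠ[𝓝 z] L.Gl π ω fun _ => RL Finset.univ := by
  by_cases k : ∃ i, z ∈ lyS d r (2 * i + π)
  · obtain ⟨i, hi⟩ := k
    have h1 := h i hi
    rw [Wp_in hd hL.r0 hi] at h1
    refine (LRet1_ev hd hL hi).trans (EventuallyEq.trans ?_ (LRet1_ev hd hL hi).symm)
    exact ((continuous_bgd _ _).continuousAt.eventually (lt_mem_nhds (LRet1_dl h1))).mono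
      fun x hx => rgd_KL hx.le
  · exact (LRet1_id hd hL hz k).trans (LRet1_id hd hL hz k).symm

theorem Gl_ll (hd : Lev Ω d) (hL : L.Ok d r η σ Q) (m : ℕ → ℕ) (hz : z ∈ Ω)
    (h : L.Wp d r π ω z ≠ ⊤) : LL (L.Gl π ω (dep m)) z (2 * (L.Wp d r π ω z).toReal) := by
  by_cases k : ∃ i, z ∈ lyS d r (2 * i + π)
  · obtain ⟨i, hi⟩ := k
    rw [Wp_in hd hL.r0 hi] at h ⊢
    have h1 := LRet1_pos h
    refine ((rgd_ll (hL.pos _) (hL.lip _) (m (2 * i + π + 2)) h1).congr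
      (LRet1_ev (Φ := dep m) hd hL hi)).mono ?_
    rw [ENNReal.toReal_add ENNReal.one_ne_top (ENNReal.add_ne_top.1 h).2, ENNReal.toReal_inv,
      ENNReal.toReal_ofReal h1.le, ENNReal.toReal_one, div_eq_mul_inv]
    linarith
  · rw [Wp_off (not_exists.1 k)]
    exact ((LL.id' z).congr (LRet1_id hd hL hz k)).mono (by norm_num)

theorem Gl_land (hd : Lev Ω d) (hL : L.Ok d r η σ Q) (hz : z ∈ lyF d r (2 * i + π)) (hQ : z ∉ Q)
    (h : L.Wp d r π ω z ≠ ⊤) : L.Gl π ω (fun _ => RL Finset.univ) z ∈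
      sgd (L.η (2 * i + π)) (ω (2 * i + π)) ∩ lyS d r (2 * i + π) := by
  have hi : z ∈ lyS d r (2 * i + π) := bnd_mono hL.r0 (by norm_num) (by norm_num) _ hz
  rw [Wp_in hd hL.r0 hi] at h
  obtain ⟨K, hK⟩ := exists_pow_lt_of_lt_one (LRet1_pos h) one_half_lt_one
  have h1 : dl K ≤ bgd (L.η (2 * i + π)) (ω (2 * i + π)) z := by
    refine le_trans ?_ hK.le
    rw [dl, one_div_pow]
    exact one_div_le_one_div_of_le (by positivity) (pow_le_pow_right₀ one_le_two K.le_succ)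
  rw [Gl_in hd hL hi]
  exact ⟨(rgd_KL h1).subst (motive := (· ∈ _)) (rgd_land (hL.pos _) (hL.full _ z hz hQ).ge h1),
    R_maps hd hL _ hi⟩

end Lys

end BEp
end
end

-- merged part: Pool.Agent.Work.MP_f0515e_an.D3.LWt
section
/-! Integrability of the weights of the layers.
Plan. Wp_ball: on the ball B of radius R = 10 eta aa x the level d stays within 2 per cent of d x (aa_near), so B meets at most one even layer (ratio 14/9 between consecutive even layers). If it meets none, Wp = 1 on B.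
If it meets the layer j = 2 i at y then Wp <= 1 + (bgd (eta j) 0)^(-1) on B, ACfg_pow, wt_scaled with delta = eta j <= eta aa y / 7 <= R (bgd s 0 z = beI univ (s^(-1) . z)). Real.volume_pi_closedBall. Wp_cpt: finitely many such balls cover (elim_nhds_subcover).
exists_ω: copy exists_omega (Pos/ACfg). E j = Omega n preimage of lyS (2j+1) under EL, disjoint, measurable, inside a compact set {d >= c}. Choose alpha j > 0 finite with alpha j * integral over E j of Wp^rho <= e j, sum of e j small (ACo_small, ENNReal.exists_pos_sum_of_countable).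
exists_omega1 with tau z = (eta (2j+1))^(-1) . EL z, weight Wp^rho * (h + alpha j), P = image under the scaling of the union over the finitely many i with lyS (2i) meeting lyS (2j+1) (Fam.lf) of sgd n lyS (2j+1) (pc_sgd, PC.biUnion, PC.image). Put omega k = w (k / 2).
(Wp 1 omega (EL z))^rho <= 2^rho (1 + tsum of indicator (E j) bgd^(-rho)) on Omega (Wp_in, Wp_off). A set {d >= a} meets finitely many E j. -/

open Set Metric Filter Topology Function BEv MeasureTheory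
open scoped NNReal ENNReal

noncomputable section
namespace BEp

namespace Lys

theorem LWt_bgd (s : ℝ) (ω y : V 1) : bgd s ω y = beI Finset.univ (s⁻¹ • y - ω) := by
  simp [bgd, xi]

theorem LWt_idx {d : V 1 → ℝ} {r : ℝ} (hr : 0 < r) {i i' : ℕ} {y z : V 1}
    (hy : y ∈ lyS d r (2 * i + 0)) (hz : z ∈ lyS d r (2 * i' + 0)) (h : d y ≤ 3 / 2 * d z) :
    i' ≤ i := by
  by_contra k
  have h1 := hy.1
  have h2 := hz.2 (by omega)
  have h3 : r / 2 ^ (2 * i' + 0) ≤ r / 2 ^ (2 * i + 0 + 2) :=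
    div_le_div_of_nonneg_left hr.le (by positivity) (pow_le_pow_right₀ one_le_two (by omega))
  have h4 : 0 < r / 2 ^ (2 * i + 0) := by positivity
  rw [pow_add _ (2 * i + 0) 2, ← div_div] at h3
  linarith

theorem Wp_ball {ρ : ℝ} (h0 : 0 ≤ ρ) (h2 : ρ < 2) : ∃ C : ℝ≥0∞, C ≠ ⊤ ∧ ∀ (L : Lys)
    (Ω Q : Set (V 1)) (d : V 1 → ℝ) (r η : ℝ) (σ : ℝ → ℝ), Lev Ω d → L.Ok d r η σ Q → ∀ x ∈ Ω,
      ∫⁻ z in closedBall x (10 * η * aa d r x), L.Wp d r 0 0 z ^ ρ ≤
        C * ENNReal.ofReal (η * aa d r x) ^ (2 * 1 + 1) := by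
  obtain ⟨C1, hC1, k1⟩ := wt_scaled (m := 1) h0 (by norm_num; exact h2)
  refine ⟨2 ^ ρ * (1 + C1) * 20 ^ (2 * 1 + 1), ENNReal.mul_ne_top (ENNReal.mul_ne_top
    (ENNReal.rpow_ne_top_of_nonneg h0 ENNReal.ofNat_ne_top)
    (ENNReal.add_ne_top.2 ⟨ENNReal.one_ne_top, hC1⟩)) (by simp),
    fun L Ω Q d r η σ hd hL x hx => ?_⟩
  have hr := hL.r0
  have x0 := mul_pos hL.η0 ((aa_pos hd hr).2 hx)
  have R0 : 0 < 10 * η * aa d r x := by linarith
  have nr := fun y (hy : y ∈ closedBall x (10 * η * aa d r x)) =>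
    aa_near hd hr hL.ηr (mem_closedBall_iff_norm.1 hy)
  obtain ⟨δ, δ0, δR, hδ⟩ : ∃ δ, 0 < δ ∧ δ ≤ 10 * η * aa d r x ∧
      ∀ z ∈ closedBall x (10 * η * aa d r x),
        L.Wp d r 0 0 z ≤ 1 + (ENNReal.ofReal (beI Finset.univ (δ⁻¹ • z)))⁻¹ := by
    by_cases hi : ∃ i, ∃ y ∈ closedBall x (10 * η * aa d r x), y ∈ lyS d r (2 * i + 0)
    · obtain ⟨i, y, hy, hi⟩ := hi
      refine ⟨L.η (2 * i + 0), hL.pos _, ?_, fun z hz => ?_⟩
      · have e1 := mul_le_mul_of_nonneg_left (aa_lyS hr hi) hL.η0.le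
        have e2 := mul_le_mul_of_nonneg_left (abs_le.1 (nr y hy).1).2 hL.η0.le
        have e3 : 8 * L.η (2 * i + 0) ≤ η / 2 ^ (2 * i + 0) := by
          rw [le_div_iff₀ (by positivity)]
          linarith [hL.sm (2 * i + 0)]
        have e4 : η * (7 / 8 / 2 ^ (2 * i + 0)) = 7 / 8 * (η / 2 ^ (2 * i + 0)) := by ring
        linarith
      · by_cases hz' : ∃ i', z ∈ lyS d r (2 * i' + 0)
        · obtain ⟨i', hz'⟩ := hz'
          have e1 := abs_le.1 (nr y hy).2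
          have e2 := abs_le.1 (nr z hz).2
          have e3 := hd.nn x
          obtain rfl : i = i' := le_antisymm
            (LWt_idx hr hz' hi (by linarith [e1.1, e2.2]))
            (LWt_idx hr hi hz' (by linarith [e1.2, e2.1]))
          rw [Wp_in hd hr hz', LWt_bgd]
          simp
        · rw [Wp_off (not_exists.1 hz')]
          exact le_self_add
    · refine ⟨_, R0, le_rfl, fun z hz => ?_⟩
      rw [Wp_off fun i k => hi ⟨i, z, hz, k⟩]
      exact le_self_add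
  calc _ ≤ ∫⁻ z in closedBall x (10 * η * aa d r x),
        2 ^ ρ * (1 + (ENNReal.ofReal (beI Finset.univ (δ⁻¹ • z)))⁻¹ ^ ρ) :=
        setLIntegral_mono' measurableSet_closedBall fun z hz =>
          (ENNReal.rpow_le_rpow (hδ z hz) h0).trans (ACfg_pow h0 _)
    _ ≤ 2 ^ ρ * ((1 + C1) * ENNReal.ofReal ((2 * (10 * η * aa d r x)) ^ (2 * 1 + 1))) := by
        rw [lintegral_const_mul' _ _ (ENNReal.rpow_ne_top_of_nonneg h0 ENNReal.ofNat_ne_top),
          lintegral_add_left measurable_const, setLIntegral_one,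
          Real.volume_pi_closedBall _ R0.le, Fintype.card_fin, add_mul, one_mul]
        gcongr
        exact k1 _ _ _ _ δ0 δR
    _ = _ := by
        rw [show 2 * (10 * η * aa d r x) = 20 * (η * aa d r x) by ring,
          ENNReal.ofReal_pow (by linarith), ENNReal.ofReal_mul (by norm_num),
          ENNReal.ofReal_ofNat]
        ring

theorem Wp_cpt {ρ : ℝ} (h0 : 0 ≤ ρ) (h2 : ρ < 2) {L : Lys} {Ω Q C : Set (V 1)} {d : V 1 → ℝ}
    {r η : ℝ} {σ : ℝ → ℝ} (hd : Lev Ω d) (hL : L.Ok d r η σ Q) (hC : IsCompact C) (hs : C ⊆ Ω) :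
    ∫⁻ z in C, L.Wp d r 0 0 z ^ ρ ≠ ⊤ := by
  obtain ⟨C1, hC1, k1⟩ := Wp_ball h0 h2
  refine hC.induction_on (p := fun s => ∫⁻ z in s, L.Wp d r 0 0 z ^ ρ ≠ ⊤) (by simp)
    (fun s t e k => ne_top_of_le_ne_top k (lintegral_mono_set e))
    (fun s t k k' => ne_top_of_le_ne_top (ENNReal.add_ne_top.2 ⟨k, k'⟩) (lintegral_union_le _ _ _))
    fun x hx => ⟨_, mem_nhdsWithin_of_mem_nhds (closedBall_mem_nhds x ?_), ne_top_of_le_ne_top
      (ENNReal.mul_ne_top hC1 (by simp)) (k1 L Ω Q d r η σ hd hL x (hs hx))⟩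
  exact mul_pos (mul_pos (by norm_num) hL.η0) ((aa_pos hd hL.r0).2 (hs hx))

theorem exists_ω {ρ : ℝ} (h0 : 0 ≤ ρ) (h2 : ρ < 2) : ∃ C : ℝ≥0∞, C ≠ ⊤ ∧ ∀ (L : Lys)
    (Ω Q : Set (V 1)) (d : V 1 → ℝ) (r η : ℝ) (σ : ℝ → ℝ) (h : V 1 → ℝ≥0∞) (ε : ℝ≥0∞), Lev Ω d →
    L.Ok d r η σ Q → Measurable h → ∫⁻ z in Ω, L.Wp d r 0 0 z ^ ρ * h z ≠ ⊤ → ε ≠ 0 →
    ∃ ω : ℕ → V 1,
      ∫⁻ z in Ω, L.W d r ω z ^ ρ * h z ≤ C * (∫⁻ z in Ω, L.Wp d r 0 0 z ^ ρ * h z) + ε ∧
      (∀ a, 0 < a → ∫⁻ z in {x | a ≤ d x}, L.W d r ω z ^ ρ ≠ ⊤) ∧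
      ∀ i j, ∀ z ∈ sgd (L.η (2 * i)) 0 ∩ lyS d r (2 * i), z ∈ lyS d r (2 * j + 1) →
        0 < bgd (L.η (2 * j + 1)) (ω (2 * j + 1)) z := by
  obtain ⟨C2, hC2, k2⟩ := exists_omega1 (m := 1) h0 (by norm_num; exact h2)
  have c2 : (2 : ℝ≥0∞) ^ ρ ≠ ⊤ := ENNReal.rpow_ne_top_of_nonneg h0 ENNReal.ofNat_ne_top
  refine ⟨2 ^ ρ * (1 + C2), ENNReal.mul_ne_top c2 (ENNReal.add_ne_top.2 ⟨ENNReal.one_ne_top, hC2⟩),
    fun L Ω Q d r η σ h ε hd hL hh hI hε => ?_⟩
  have hr := hL.r0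
  have F0 := fam_lyS hd hr 0
  have F1 := fam_lyS hd hr 1
  have mE : Measurable L.EL := measurable_Gl hd hL 0 0
  let w : V 1 → ℝ≥0∞ := fun z => L.Wp d r 0 0 z ^ ρ
  have mw : Measurable w := (L.measurable_Wp hd r 0 0).pow_const ρ
  let E : ℕ → Set (V 1) := fun j => L.EL ⁻¹' lyS d r (2 * j + 1)
  have mEj : ∀ j, MeasurableSet (E j) := fun j => mE (F1.cpt j).measurableSet
  have sub : ∀ a, 0 < a → {x | a ≤ d x} ⊆ Ω := fun a ha x hx => (hd.pos x).1 (ha.trans_le hx)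
  have nr : ∀ z, |d (L.EL z) - d z| ≤ d z / 50 := fun z =>
    (aa_near hd hr hL.ηr ((Gl_mv hd hL 0 0 _ z).1.trans
      (by linarith [mul_nonneg hL.η0.le (aa_nonneg hd hr z)]))).2
  have fin : ∀ j, ∫⁻ z in E j ∩ Ω, w z ≠ ⊤ := fun j => by
    have a0 : 0 < 7 / 16 * (r / 2 ^ (2 * j + 1)) / 2 := by positivity
    refine ne_top_of_le_ne_top (Wp_cpt h0 h2 hd hL (hd.cpt _ a0) (sub _ a0))
      (lintegral_mono_set fun z hz => ?_)
    have := hz.1.1
    change _ ≤ d z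
    linarith [(abs_le.1 (nr z)).2, hd.nn z]
  obtain ⟨e, e0, he⟩ := ENNReal.exists_pos_sum_of_countable' hε ℕ
  choose α α0 αT hα using fun j => ACo_small
    (ENNReal.mul_ne_top (ENNReal.mul_ne_top c2 hC2) (fin j)) (e0 j).ne'
  have sp : ∀ j, ∫⁻ z in E j ∩ Ω, w z * (h z + α j) =
      (∫⁻ z in E j ∩ Ω, w z * h z) + (∫⁻ z in E j ∩ Ω, w z) * α j := fun j => by
    simp_rw [mul_add]
    rw [lintegral_add_left (mw.fun_mul hh), lintegral_mul_const _ mw]
  have fin' : ∀ j, ∫⁻ z in E j ∩ Ω, w z * (h z + α j) ≠ ⊤ := fun j => by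
    rw [sp]
    exact ENNReal.add_ne_top.2 ⟨ne_top_of_le_ne_top hI (lintegral_mono_set inter_subset_right),
      ENNReal.mul_ne_top (fin j) (αT j)⟩
  have bd := fun j => (F1.cpt j).isBounded
  choose v h1 h3 using fun j => k2 Finset.univ (fun z => (L.η (2 * j + 1))⁻¹ • L.EL z)
    (fun z => w z * (h z + α j)) (E j ∩ Ω) _ (mE.fun_const_smul _)
    (mw.fun_mul (hh.add_const _)) (fin' j)
    ((PC.biUnion (F0.lf _ (F1.cpt j) (F1.sub j)) fun i _ =>
      pc_sgd (hL.pos (2 * i)) 0 (bd j)).image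
      ((bd j).subset (iUnion₂_subset fun _ _ => inter_subset_right))
      (TP.id'.const_smul (L.η (2 * j + 1))⁻¹))
  have ev : ∀ j, (2 * j + 1) / 2 = j := fun j => by omega
  let g : ℕ → V 1 → ℝ≥0∞ := fun j z =>
    (ENNReal.ofReal (beI Finset.univ ((L.η (2 * j + 1))⁻¹ • L.EL z - v j)))⁻¹ ^ ρ
  have mg : ∀ j, Measurable (g j) := fun j =>
    (AWt_meas Finset.univ ρ).comp ((mE.fun_const_smul _).sub_const _)
  have key : ∀ (A : Set (V 1)) (u : V 1 → ℝ≥0∞), Measurable u →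
      ∫⁻ z in A, L.W d r (fun k => v (k / 2)) z ^ ρ * u z ≤
        2 ^ ρ * ((∫⁻ z in A, w z * u z) + ∑' j, ∫⁻ z in E j ∩ A, g j z * (w z * u z)) := by
    intro A u hu
    have m1 := fun j => ((mg j).fun_mul (mw.fun_mul hu)).indicator (mEj j)
    calc _ ≤ ∫⁻ z in A, 2 ^ ρ * (w z * u z +
          ∑' j, indicator (E j) (fun z => g j z * (w z * u z)) z) := by
          refine lintegral_mono fun z => ?_
          rw [W, ENNReal.mul_rpow_of_nonneg _ _ h0]
          by_cases hz : ∃ j, z ∈ E j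
          · obtain ⟨j, hz⟩ := hz
            rw [Wp_in hd hr hz, LWt_bgd, ev]
            refine (mul_le_mul_left (mul_le_mul_right (ACfg_pow h0 _) _) _).trans
              (le_trans (le_of_eq ?_) (mul_le_mul_right (add_le_add_right
                (ENNReal.le_tsum j) _) _))
            rw [indicator_of_mem hz]
            ring
          · rw [Wp_off (z := L.EL z) (not_exists.1 hz), ENNReal.one_rpow, mul_one]
            refine le_self_add.trans (le_mul_of_one_le_left' ?_)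
            rw [← ENNReal.one_rpow ρ]
            exact ENNReal.rpow_le_rpow one_le_two h0
      _ = _ := by
          rw [lintegral_const_mul' _ _ c2, lintegral_add_left (mw.fun_mul hu),
            lintegral_tsum fun j => (m1 j).aemeasurable]
          simp_rw [lintegral_indicator (mEj _), Measure.restrict_restrict (mEj _)]
  refine ⟨fun k => v (k / 2), (key Ω h hh).trans ?_, fun a ha => ?_, fun i j z hz hj => ?_⟩
  · have s1 : ∑' j, ∫⁻ z in E j ∩ Ω, w z * h z ≤ ∫⁻ z in Ω, w z * h z := by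
      rw [← lintegral_iUnion (fun j => (mEj j).inter hd.isOpen.measurableSet) fun a b hab =>
        ((F1.disj a b hab).preimage _).mono inter_subset_left inter_subset_left]
      exact lintegral_mono_set (iUnion_subset fun a => inter_subset_right)
    have s2 : ∀ j, 2 ^ ρ * ∫⁻ z in E j ∩ Ω, g j z * (w z * h z) ≤
        2 ^ ρ * C2 * (∫⁻ z in E j ∩ Ω, w z * h z) + e j := fun j => by
      refine (mul_le_mul_right ((lintegral_mono fun z => mul_le_mul_right
        (mul_le_mul_right le_self_add _) _).trans (h1 j)) _).trans ?_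
      rw [sp, ← mul_assoc, mul_add, ← mul_assoc]
      exact add_le_add_right (hα j) _
    rw [mul_add, ← ENNReal.tsum_mul_left, mul_add, add_mul, mul_one (2 ^ ρ : ℝ≥0∞), add_assoc]
    refine add_le_add_right ((ENNReal.tsum_le_tsum s2).trans ?_) _
    rw [ENNReal.tsum_add, ENNReal.tsum_mul_left]
    exact add_le_add (mul_le_mul_right s1 _) he.le
  · have k := key {x | a ≤ d x} (fun _ => 1) measurable_const
    simp only [mul_one] at k
    refine ne_top_of_le_ne_top (ENNReal.mul_ne_top c2 (ENNReal.add_ne_top.2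
      ⟨Wp_cpt h0 h2 hd hL (hd.cpt a ha) (sub a ha), ?_⟩)) k
    have hf := F1.lf _ (hd.cpt _ (half_pos ha)) (sub _ (half_pos ha))
    rw [tsum_eq_sum (s := hf.toFinset) fun j hj => ?_]
    · refine (ENNReal.sum_lt_top.2 fun j _ => lt_top_iff_ne_top.2 fun t => ?_).ne
      have t1 : (∫⁻ z in E j ∩ {x | a ≤ d x}, g j z * w z) * α j ≤
          ∫⁻ z in E j ∩ Ω, g j z * (w z * (h z + α j)) := by
        rw [← lintegral_mul_const' _ _ (αT j)]
        refine lintegral_mono' (Measure.restrict_mono (inter_subset_inter_right _ (sub a ha))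
          le_rfl) fun z => ?_
        rw [mul_assoc]
        exact mul_le_mul_right (mul_le_mul_right le_add_self _) _
      rw [t, ENNReal.top_mul (α0 j)] at t1
      exact ENNReal.mul_ne_top hC2 (fin' j) (top_le_iff.1 (t1.trans (h1 j)))
    · have e1 : E j ∩ {x | a ≤ d x} = ∅ := eq_empty_of_forall_notMem fun z hz =>
        hj (hf.mem_toFinset.2 ⟨L.EL z, hz.1, by
          have : a ≤ d z := hz.2
          change _ ≤ d (L.EL z)
          linarith [(abs_le.1 (nr z)).1]⟩)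
      simp [e1]
  · simp only [LWt_bgd, ev]
    exact h3 j _ (mem_image_of_mem _ (mem_iUnion₂.2 ⟨i, ⟨z, hz.2, hj⟩, hz.1, hj⟩))

end Lys

end BEp
end
end

-- merged part: Pool.Agent.Work.MP_f0515e_an.P3.TS0
section
/-! Properties of the stretch. -/

open Set Metric Filter Topology Function BEv MeasureTheory
open scoped NNReal ENNReal

noncomputable section
namespace BEp

namespace Cu
variable {C : Cu} {aK : ℝ}

theorem Ok.St_prop (h : C.Ok aK) : CS (closedBall C.o (C.η - 7 * C.b * C.h)) C.St ∧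
    (∀ z, ∀ x ∈ C.bx z, C.St x ∈ C.bx z) ∧ (∀ x, ‖C.St x - x‖ ≤ 3 * C.b * C.h) ∧
    (C.I.card = 3 → C.St = id) := by
  obtain ⟨h1, h2, -, -, h5, -⟩ := h.Xξ
  obtain ⟨c1, c2, c3, -, c5⟩ := h.cut_prop
  have g0 := h.g0.1
  have g1 : C.g ≤ 1 := h.g0.2.trans (by norm_num)
  have hh : C.h ≠ 0 := by unfold Pr.h; positivity
  have hb : ∀ z, ∀ x ∈ C.bx z, C.St x ∈ C.bx z := fun z x hx i => by
    rw [St, h2]
    exact loc_str_mem C.I g0 g1 (c3 _) hx i
  refine ⟨?_, hb, fun x => ?_, fun hI => funext fun x => ?_⟩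
  · have h6 : CS (C.X ⁻¹' closedBall C.o (C.η - 7 * C.b * C.h)) (loc C.cut (str C.I C.g)) :=
      cs_of_accr ((accr_str C.I g0 g1).loc fun x y => (c2 x y).trans (half_le_self (norm_nonneg _)))
        ((tp_str C.I g0 g1).loc c1) fun ξ hξ =>
          loc_eq_self (c5 ξ fun a => hξ (ball_subset_closedBall a))
    let L : Rn 3 ≃L[ℝ] Rn 3 :=
      C.N.trans (ContinuousLinearEquiv.smulLeft (Units.mk0 C.h hh) : Rn 3 ≃L[ℝ] Rn 3)
    have e1 : ∀ ξ, L ξ + C.o = C.X ξ := fun ξ => add_comm _ _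
    have e2 : ∀ y, L.symm (y - C.o) = C.ξ y := fun y => by
      rw [ContinuousLinearEquiv.symm_apply_eq, sub_eq_iff_eq_add, e1, h1]
    have h7 := h6.conj L C.o
    simp only [e1, e2, mem_preimage, h1] at h7
    exact h7
  · obtain ⟨z, hz⟩ := C.exists_bx x
    exact (h.bx_prop z).2.2.2.2.2.1 _ (hb z x hz) x hz
  · have e : C.I = Finset.univ := Finset.eq_univ_of_card _ (by simpa using hI)
    have e' : str C.I C.g (C.ξ x) = C.ξ x := funext fun i => if_pos (e ▸ Finset.mem_univ i)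
    rw [St, loc_eq_of_le fun i => by rw [e', sub_self, abs_zero]; exact c3 _, e', h1, id]

end Cu

end BEp
end
end

-- merged part: Pool.Agent.Work.MP_f0515e_an.P3.FinE
section
/-! From the deterministic part to an embedding: `S = gl St` is `CS` on the union of the disjoint
balls of radius `η - 7 b h` (`cs_gl`), `round0` with a `TP` map which agrees with `G` near this
union, `en_int`. On the open cube `q` one has `S = St q`, off the cubes `S` is the identity; the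
boundaries of the cubes are null. -/

open Set Metric Filter Topology Function BEv MeasureTheory
open scoped NNReal ENNReal

noncomputable section
namespace BEp

theorem FinE_S {ι : Type} [Fintype ι] {C : ι → Cu} {P : Pr} {aK : ℝ}
    {Ω : Set (Rn 3)} {K : Kx Ω} {ch : Set (Rn 3) → Ch} {w lam : Set (Rn 3) → ℝ}
    (hF : GFit C P aK K ch w lam) : ∃ (W : Set (Rn 3)) (S : Rn 3 → Rn 3), IsCompact W ∧ W ⊆ Ω ∧
      CS W S ∧ (∀ q, ∀ z ∈ ball (C q).o (C q).η, S =ᶠ[𝓝 z] (C q).St) ∧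
      (∀ z ∈ W, ∃ q, z ∈ ball (C q).o (C q).η) := by
  have hb : ∀ q, closedBall (C q).o ((C q).η - 7 * (C q).b * (C q).h) ⊆ ball (C q).o (C q).η :=
    fun q => closedBall_subset_ball (by
      obtain ⟨-, h1, -, -, -, -, -, -, h2, -⟩ := (hF.ok q).pos
      have : 0 < 7 * (C q).b * (C q).h := mul_pos (by linarith) h1
      linarith)
  have hq : ∀ q, closedBall (C q).o ((C q).η - 7 * (C q).b * (C q).h) ⊆ (C q).q :=
    fun q => (hb q).trans ball_subset_closedBall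
  refine ⟨⋃ q, closedBall (C q).o ((C q).η - 7 * (C q).b * (C q).h),
    gl (m := 1) fun q => (C q).St, isCompact_iUnion fun q => isCompact_closedBall _ _,
    iUnion_subset fun q => (hq q).trans (hF.fit q).sub,
    cs_gl (m := 1) (fun q => isClosed_closedBall)
      (fun q q' hne => (hF.far q q' hne).mono (hb q) (hq q')) fun q => (hF.ok q).St_prop.1,
    fun q z hz => ?_, fun z hz => ?_⟩
  · filter_upwards [isOpen_ball.mem_nhds hz] with y hy
    exact gl_eq (m := 1) q fun q' hne => (hF.ok q').St_prop.1.off y fun k =>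
      disjoint_left.1 (hF.far q q' hne.symm) hy (hq q' k)
  · obtain ⟨q, hz⟩ := mem_iUnion.1 hz
    exact ⟨q, hb q hz⟩

theorem FinE_rd {p : ℝ} (hp1 : 1 ≤ p) {Ω W : Set (Rn 3)} (hΩ : IsOpen Ω) (hW : IsCompact W)
    (hs : W ⊆ Ω) {S G : Rn 3 → Rn 3} (hS : CS W S) (hG : LTP Ω G) {e : ℝ≥0∞} (he : e ≠ 0) :
    ∃ w, Mv W w ∧ ∫⁻ z in Ω, en p (G ∘ w) (G ∘ S) (fderiv ℝ (G ∘ S)) z ≤ e := by
  obtain ⟨g, hg, g1⟩ := hG.nhds hΩ hW hs
  obtain ⟨w, hw, w1⟩ := round0 hp1 hW hS hg he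
  have k1 : ∀ T : Rn 3 → Rn 3, CS W T → ∀ z ∈ W, G ∘ T =ᶠ[𝓝 z] g ∘ T := fun T hT z hz =>
    hT.tp.continuous.continuousAt.eventually (g1 _ (hT.maps hW.isClosed hz))
  have k0 : ∀ T : Rn 3 → Rn 3, CS W T → ∀ z, z ∉ W → G ∘ T =ᶠ[𝓝 z] G := fun T hT z hz => by
    filter_upwards [hW.isClosed.isOpen_compl.mem_nhds hz] with y hy
    exact congrArg G (hT.off y hy)
  refine ⟨w, hw, (setLIntegral_le_lintegral _ _).trans (le_trans ?_ w1)⟩
  rw [← lintegral_indicator hW.measurableSet]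
  refine lintegral_mono fun z => ?_
  by_cases hz : z ∈ W
  · rw [indicator_of_mem hz, LRound_congr (k1 w hw.cs z hz) (k1 S hS z hz)]
  · rw [en_self (by linarith) ((k0 w hw.cs z hz).trans (k0 S hS z hz).symm)]
    exact zero_le

theorem FinE_cube {p : ℝ} (hp1 : 1 ≤ p) {o : Rn 3} {η : ℝ} {Q : Set (Rn 3)}
    (hQ : closedBall o η ⊆ Q) {H H' : Rn 3 → Rn 3} (hH : ∀ z ∈ ball o η, H =ᶠ[𝓝 z] H')
    (D : Rn 3 → Rn 3 →L[ℝ] Rn 3) (A : Rn 3 →L[ℝ] Rn 3) :
    ∫⁻ z in closedBall o η, ‖fderiv ℝ H z - indicator Q D z‖ₑ ^ p ≤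
      2 ^ p * ((∫⁻ z in closedBall o η, ‖fderiv ℝ H' z - A‖ₑ ^ p) +
        ∫⁻ z in closedBall o η, ‖D z - A‖ₑ ^ p) := by
  have m1 : Measurable fun z => ‖fderiv ℝ H' z - A‖ₑ ^ p :=
    ((measurable_fderiv ℝ H').sub measurable_const).enorm.pow_const p
  rw [← lintegral_add_left m1, ← lintegral_const_mul' _ _
    (ENNReal.rpow_ne_top_of_nonneg (by linarith) (by simp))]
  refine lintegral_mono_ae ((ae_restrict_iff' measurableSet_closedBall).2 ?_)
  filter_upwards [measure_eq_zero_iff_ae_notMem.1 (Measure.addHaar_sphere volume o η)]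
    with z h1 h2
  have hz : z ∈ ball o η := lt_of_le_of_ne (mem_closedBall.1 h2) h1
  have e1 : indicator Q D z = D z := indicator_of_mem (hQ h2) D
  have e2 : fderiv ℝ H z = fderiv ℝ H' z := (hH z hz).fderiv_eq
  have e3 : ‖D z - A‖ₑ = ‖A - D z‖ₑ := enorm_sub_rev _ _
  have e4 := ACo_rpow hp1 (fderiv ℝ H' z) A (D z)
  rwa [e1, e2, e3]

theorem fin_en {p : ℝ} (hp1 : 1 ≤ p) {ι : Type} [Fintype ι] {C : ι → Cu} {P : Pr} {aK : ℝ}
    {Ω : Set (Rn 3)} {K : Kx Ω} {ch : Set (Rn 3) → Ch} {w lam : Set (Rn 3) → ℝ}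
    (hF : GFit C P aK K ch w lam) {f G : Rn 3 → Rn 3} {D : Rn 3 → Rn 3 →L[ℝ] Rn 3} {θ : Rn 3 → ℝ}
    (hD : Measurable D) {e e' : ℝ≥0∞} (he : e ≠ 0) (h : DetOut p C K f θ e' G) {φ : Rn 3 → ℝ}
    (hφ : ∀ z ∈ Ω, ∀ x ∈ Ω, (x = z ∨ (∃ q, z ∈ (C q).q) ∧ ‖x - z‖ ≤ 3 * P.b * P.h) →
      ‖G x - f z‖ ≤ φ z) (hm : Measurable φ) :
    ∃ F, LTP Ω F ∧ InjOn F Ω ∧ ∫⁻ z in Ω, en p F f (indicator (⋃ q, (C q).q) D) z ≤
      4 ^ p * (e + (∫⁻ z in Ω, ENNReal.ofReal (φ z) ^ p) + e' +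
        ∑ q, ∫⁻ z in (C q).q, ‖D z - (C q).A‖ₑ ^ p) := by
  have hΩ := hF.opn
  obtain ⟨W, S, hW, hs, hS, s1, s2⟩ := FinE_S hF
  obtain ⟨u, hu, u1⟩ := FinE_rd hp1 hΩ hW hs hS h.ltp he
  have mp : ∀ T : Rn 3 → Rn 3, CS W T → MapsTo T Ω Ω := fun T hT z hz => by
    by_cases k : z ∈ W
    · exact hs (hT.maps hW.isClosed k)
    · rwa [hT.off z k]
  have l1 := h.ltp.comp (hu.1.tp.ltp Ω) (mp u hu.cs)
  have l2 := h.ltp.comp (hS.tp.ltp Ω) (mp S hS)
  have p0 : 0 ≤ p := by linarith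
  have t1 : (1 : ℝ≥0∞) ≤ 2 ^ p := ENNReal.one_le_rpow (by norm_num) (by linarith)
  have mQ : MeasurableSet (⋃ q, (C q).q) := MeasurableSet.iUnion fun q => measurableSet_closedBall
  refine ⟨G ∘ u, l1, h.inj.comp hu.1.inj.injOn (mp u hu.cs),
    (en_int hp1 hΩ (l1.continuousOn hΩ) (l2.continuousOn hΩ) _ _).trans ?_⟩
  have a1 : ∫⁻ z in Ω, en p (G ∘ S) f (indicator (⋃ q, (C q).q) D) z ≤
      (∫⁻ z in Ω, ENNReal.ofReal (φ z) ^ p) +
        ∫⁻ z in Ω, ‖fderiv ℝ (G ∘ S) z - indicator (⋃ q, (C q).q) D z‖ₑ ^ p := by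
    rw [← lintegral_add_left (hm.ennreal_ofReal.pow_const p)]
    refine setLIntegral_mono' hΩ.measurableSet fun z hz => add_le_add
      (ENNReal.rpow_le_rpow ?_ p0) le_rfl
    rw [← ofReal_norm]
    refine ENNReal.ofReal_le_ofReal (hφ z hz _ (mp S hS hz) ?_)
    by_cases k : z ∈ W
    · obtain ⟨q, hq⟩ := s2 z k
      refine Or.inr ⟨⟨q, ball_subset_closedBall hq⟩, ?_⟩
      rw [(s1 q z hq).eq_of_nhds, ← hF.par q]
      exact (hF.ok q).St_prop.2.2.1 z
    · exact Or.inl (hS.off z k)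
  have a2 : ∫⁻ z in Ω \ ⋃ q, (C q).q, ‖fderiv ℝ (G ∘ S) z - indicator (⋃ q, (C q).q) D z‖ₑ ^ p ≤
      2 ^ p * ∫⁻ z in Ω \ ⋃ q, (C q).q, ‖fderiv ℝ G z‖ₑ ^ p := by
    refine le_trans (setLIntegral_mono' (hΩ.measurableSet.diff mQ) fun z hz => le_of_eq ?_)
      (le_mul_of_one_le_left' t1)
    have k : z ∉ W := fun k => by
      obtain ⟨q, hq⟩ := s2 z k
      exact hz.2 (mem_iUnion.2 ⟨q, ball_subset_closedBall hq⟩)
    have e1 : G ∘ S =ᶠ[𝓝 z] G := by
      filter_upwards [hW.isClosed.isOpen_compl.mem_nhds k] with y hy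
      exact congrArg G (hS.off y hy)
    rw [indicator_of_notMem hz.2, sub_zero, e1.fderiv_eq]
  have a3 : ∫⁻ z in ⋃ q, (C q).q, ‖fderiv ℝ (G ∘ S) z - indicator (⋃ q, (C q).q) D z‖ₑ ^ p ≤
      2 ^ p * ((∑ q, ∫⁻ z in (C q).q, ‖fderiv ℝ (G ∘ (C q).St) z - (C q).A‖ₑ ^ p) +
        ∑ q, ∫⁻ z in (C q).q, ‖D z - (C q).A‖ₑ ^ p) := by
    refine (lintegral_iUnion_le _ _).trans ?_
    rw [tsum_fintype, ← Finset.sum_add_distrib, Finset.mul_sum]
    exact Finset.sum_le_sum fun q _ => FinE_cube hp1 (subset_iUnion (fun q => (C q).q) q)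
      (fun z hz => (s1 q z hz).fun_comp G) D (C q).A
  have a4 : ∫⁻ z in Ω, ‖fderiv ℝ (G ∘ S) z - indicator (⋃ q, (C q).q) D z‖ₑ ^ p ≤
      2 ^ p * (e' + ∑ q, ∫⁻ z in (C q).q, ‖D z - (C q).A‖ₑ ^ p) := by
    have a5 : Ω ⊆ (⋃ q, (C q).q) ∪ (Ω \ ⋃ q, (C q).q) := fun z hz =>
      (em (z ∈ ⋃ q, (C q).q)).imp_right fun k => ⟨hz, k⟩
    refine (lintegral_mono_set a5).trans
      ((lintegral_union_le _ _ _).trans ((add_le_add a3 a2).trans ?_))
    rw [← mul_add, add_right_comm]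
    exact mul_le_mul_right (add_le_add h.en le_rfl) _
  have e4 : (4 : ℝ≥0∞) ^ p = 2 ^ p * 2 ^ p := by
    rw [← ENNReal.mul_rpow_of_nonneg _ _ p0]
    norm_num
  rw [e4, mul_assoc]
  refine mul_le_mul_right ((add_le_add u1 (a1.trans (add_le_add le_rfl a4))).trans ?_) _
  rw [add_assoc (e + _), mul_add _ (e + _), ← add_assoc]
  exact add_le_add (le_mul_of_one_le_left' t1) le_rfl

end BEp
end
end
end
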