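import Pool.Agent.Work.MP_f0515e_an.P3.KInt
import Pool.Agent.Work.MP_f0515e_an.Pos.HBor

/-! Size of cells. `mass`: the faces are disjoint subsets of the relative boundary, which is the
image of the boundary of the cube under an `a lam` Lipschitz map; the inverse of a chart is `a`
Lipschitz; use `μH[2]`. `shp_bd`: the boundary of the square or triangle has length at most
`4 w` (sup norm) and its area is at least `w^2 / 2`. `hull_ball`: `G '' σ` is open (`inv_domain`,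
after extending `G` continuously from the closed cell), so a coordinate cannot have its extremum
over the closed cell in the open cell. -/

open Set Metric Filter Topology Function BEv MeasureTheory
open scoped NNReal ENNReal

noncomputable section
namespace BEp

theorem CMass_two : (μH[2] : Measure (Rn 2)) = volume := by
  simpa using hausdorffMeasure_pi_real (ι := Fin 2)

theorem CMass_three : (μH[3] : Measure (Rn 3)) = volume := by
  simpa using hausdorffMeasure_pi_real (ι := Fin 3)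

theorem CMass_sph : μH[2] (sphere (0 : Rn 3) 1) ≠ ⊤ := by
  have h1 : sphere (0 : Rn 3) 1 ⊆ ⋃ i : Fin 3, ⋃ c ∈ ({1, -1} : Finset ℝ),
      (fun ξ : Rn 2 => (Fin.insertNth i c ξ : Rn 3)) '' closedBall 0 1 := by
    intro x hx
    rw [mem_sphere_zero_iff_norm] at hx
    obtain ⟨i, -, e⟩ := Finset.exists_mem_eq_sup Finset.univ Finset.univ_nonempty fun i => ‖x i‖₊
    have e1 : |x i| = 1 := by rw [← Real.norm_eq_abs, ← hx, Pi.norm_def, e, coe_nnnorm]
    refine mem_iUnion.2 ⟨i, mem_iUnion₂.2 ⟨x i, ?_, Fin.removeNth i x, ?_,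
      Fin.insertNth_self_removeNth i x⟩⟩
    · simpa using eq_or_eq_neg_of_abs_eq e1
    · rw [mem_closedBall_zero_iff, pi_norm_le_iff_of_nonneg zero_le_one]
      exact fun j => (norm_le_pi_norm x _).trans hx.le
  refine ne_top_of_le_ne_top ?_ ((measure_mono h1).trans (measure_iUnion_fintype_le _ _))
  refine ENNReal.sum_ne_top.2 fun i _ => ne_top_of_le_ne_top ?_ (measure_biUnion_finset_le _ _)
  refine ENNReal.sum_ne_top.2 fun c _ => ?_
  have h2 : LipschitzWith 1 fun ξ : Rn 2 => (Fin.insertNth i c ξ : Rn 3) :=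
    LipschitzWith.of_dist_le_mul fun ξ ξ' => by
      rw [Fin.dist_insertNth_insertNth]
      simp
  refine ne_top_of_le_ne_top ?_ (h2.hausdorffMeasure_image_le zero_le_two _)
  rw [CMass_two]
  simp

theorem mass : ∃ C : ℝ, 1 ≤ C ∧ ∀ (Ω : Set (Rn 3)) (K : Kx Ω) (ch : Set (Rn 3) → Ch)
    (σ : Set (Rn 3)) (N : Rn 3 ≃L[ℝ] Rn 3) (a lam : ℝ), σ ∈ K.cel 3 → 0 ≤ a → 0 ≤ lam →
    Cbe (N ⁻¹' σ) a lam → (∀ F ∈ K.fc σ, (ch F).Of F ∧ (ch F).Bi N a) →
    ∑' F : K.fc σ, volume (ch F).U ≤ ENNReal.ofReal (C * a ^ 4 * lam ^ 2) := by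
  refine ⟨(μH[2] (sphere (0 : Rn 3) 1)).toReal + 1, by simp, ?_⟩
  rintro Ω K ch σ N a lam ⟨⟨x, hx, rfl⟩, hd⟩ ha hl ⟨Φ, -, h1, h2, h3⟩ hF
  have e1 : ∀ F : K.fc (K.cell x), (fun ξ => N.symm ((ch F).φ ξ)) '' (ch F).U = N ⁻¹' F := by
    intro F
    rw [← image_image, (hF F F.2).1.2.2, N.image_symm_eq_preimage]
  have e2 : ∀ F : K.fc (K.cell x), AntilipschitzWith a.toNNReal fun ξ => N.symm ((ch F).φ ξ) :=
    fun F => AntilipschitzWith.of_le_mul_dist fun ξ ξ' => by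
      have := ((hF F F.2).2 (ξ - ξ')).2
      rwa [dist_eq_norm, dist_eq_norm, Real.coe_toNNReal a ha, ← map_sub, Ch.φ, Ch.φ,
        add_sub_add_left_eq_sub, ← map_sub]
  have e3 : ∀ F : K.fc (K.cell x), MeasurableSet (N ⁻¹' (F : Set (Rn 3))) := fun F => by
    rw [← e1]
    exact (hF F F.2).1.2.1.measurableSet.image_of_continuousOn_injOn
      (Continuous.continuousOn (by unfold Ch.φ; fun_prop)) (e2 F).injective.injOn
  have e4 : ∀ F ∈ K.cells, ∀ F' ∈ K.cells, F ≠ F' → Disjoint F F' := by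
    rintro _ ⟨y, hy, rfl⟩ _ ⟨y', hy', rfl⟩ hne
    exact Set.disjoint_left.2 fun z a b => hne ((K.eqv y hy z a).symm.trans (K.eqv y' hy' z b))
  have e5 : ⋃ F : K.fc (K.cell x), N ⁻¹' (F : Set (Rn 3)) ⊆ Φ '' sphere 0 1 := by
    refine iUnion_subset fun F z hz => ?_
    have a1 : z ∈ Φ '' closedBall 0 1 := by
      rw [h1]
      exact (N.toHomeomorph.preimage_closure _).subset (F.2.2 hz)
    obtain ⟨u, hu, rfl⟩ := a1
    refine ⟨u, (mem_closedBall.1 hu).eq_or_lt.resolve_right fun l => ?_, rfl⟩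
    have a2 : Φ u ∈ N ⁻¹' K.cell x := h2 ▸ mem_image_of_mem Φ l
    refine Set.disjoint_left.1 (e4 F F.2.1.1 _ ⟨x, hx, rfl⟩ fun e => ?_) hz a2
    have := F.2.1.2
    rw [e, hd] at this
    omega
  have e6 : LipschitzOnWith (a * lam).toNNReal Φ (sphere 0 1) :=
    LipschitzOnWith.of_dist_le_mul fun u hu v hv => by
      rw [dist_eq_norm, dist_eq_norm, Real.coe_toNNReal _ (mul_nonneg ha hl)]
      exact (h3 u (sphere_subset_closedBall hu) v (sphere_subset_closedBall hv)).1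
  calc ∑' F : K.fc (K.cell x), volume (ch F).U
      ≤ ∑' F : K.fc (K.cell x), ENNReal.ofReal a ^ (2 : ℝ) * μH[2] (N ⁻¹' (F : Set (Rn 3))) :=
        ENNReal.tsum_le_tsum fun F => by
          rw [← CMass_two, ← e1]
          exact (e2 F).le_hausdorffMeasure_image zero_le_two _
    _ ≤ ENNReal.ofReal a ^ (2 : ℝ) * (ENNReal.ofReal (a * lam) ^ (2 : ℝ) *
        μH[2] (sphere (0 : Rn 3) 1)) := by
        rw [ENNReal.tsum_mul_left]
        refine mul_le_mul' le_rfl ((tsum_meas_le_meas_iUnion_of_disjoint _ e3 fun F F' hne =>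
          (e4 F F.2.1.1 F' F'.2.1.1 (Subtype.coe_ne_coe.2 hne)).preimage N).trans
          ((measure_mono e5).trans (e6.hausdorffMeasure_image_le zero_le_two)))
    _ ≤ _ := by
        rw [← ENNReal.ofReal_toReal CMass_sph, ENNReal.rpow_two, ENNReal.rpow_two,
          ← ENNReal.ofReal_pow ha, ← ENNReal.ofReal_pow (mul_nonneg ha hl),
          ← ENNReal.ofReal_mul (by positivity), ← ENNReal.ofReal_mul (by positivity),
          ENNReal.toReal_ofReal ENNReal.toReal_nonneg]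
        refine ENNReal.ofReal_le_ofReal ?_
        have : 0 ≤ a ^ 4 * lam ^ 2 := by positivity
        nlinarith

theorem Cbe.vol {σ : Set (Rn 3)} {a lam : ℝ} (h : Cbe σ a lam) (ha : 0 ≤ a) (hl : 0 ≤ lam) :
    ENNReal.ofReal (lam ^ 3) ≤ ENNReal.ofReal (a ^ 3) * volume σ := by
  obtain ⟨Φ, hΦ, -, rfl, h3⟩ := h
  rcases hl.eq_or_lt with rfl | hl'
  · simp
  have hi := leftInverse_invFun hΦ.1.1
  have e1 : LipschitzOnWith a.toNNReal (fun y => lam • invFun Φ y) (Φ '' ball 0 1) := by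
    refine LipschitzOnWith.of_dist_le_mul ?_
    rintro _ ⟨u, hu, rfl⟩ _ ⟨v, hv, rfl⟩
    rw [hi, hi, dist_eq_norm, dist_eq_norm, ← smul_sub, norm_smul, Real.norm_of_nonneg hl,
      Real.coe_toNNReal a ha]
    exact (h3 u (ball_subset_closedBall hu) v (ball_subset_closedBall hv)).2
  have e2 : ball (0 : Rn 3) lam ⊆ (fun y => lam • invFun Φ y) '' (Φ '' ball 0 1) := fun z hz =>
    ⟨_, ⟨lam⁻¹ • z, by
      rw [mem_ball_zero_iff] at hz ⊢
      rw [norm_smul, norm_inv, Real.norm_of_nonneg hl]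
      exact (inv_mul_lt_one₀ hl').2 hz, rfl⟩, by
      dsimp only
      rw [hi, smul_inv_smul₀ hl'.ne']⟩
  have e3 := (measure_mono e2).trans (e1.hausdorffMeasure_image_le (d := 3) zero_le_three)
  rw [CMass_three, Real.volume_pi_ball _ hl', Fintype.card_fin] at e3
  refine (ENNReal.ofReal_le_ofReal (pow_le_pow_left₀ hl (by linarith) 3)).trans (e3.trans_eq ?_)
  rw [ENNReal.ofReal_pow ha, ← ENNReal.rpow_natCast]
  rfl

theorem CMass_len {γ : ℝ → Rn 2} (h : ∀ i s t, |γ s i - γ t i| ≤ |s - t|) (w : ℝ) :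
    μH[1] (γ '' Icc 0 w) ≤ ENNReal.ofReal w := by
  have h1 : LipschitzWith 1 γ := LipschitzWith.of_dist_le_mul fun s t => by
    rw [NNReal.coe_one, one_mul, dist_pi_le_iff dist_nonneg]
    exact fun i => h i s t
  simpa [hausdorffMeasure_real] using h1.hausdorffMeasure_image_le zero_le_one (Icc 0 w)

theorem CMass_box (a b c : ℝ) :
    volume {ξ : Rn 2 | ξ 0 ∈ Ioo a b ∧ ξ 1 ∈ Ioo 0 c} = ENNReal.ofReal (b - a) * ENNReal.ofReal c := by
  have : {ξ : Rn 2 | ξ 0 ∈ Ioo a b ∧ ξ 1 ∈ Ioo 0 c} = univ.pi fun i => Ioo (![a, 0] i) (![b, c] i) := by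
    ext ξ
    simp [Fin.forall_fin_two]
  rw [this, Real.volume_pi_Ioo]
  simp

theorem CMass_mb (a b c : ℝ) : MeasurableSet {ξ : Rn 2 | ξ 0 ∈ Ioo a b ∧ ξ 1 ∈ Ioo 0 c} :=
  (measurable_pi_apply 0 measurableSet_Ioo).inter (measurable_pi_apply 1 measurableSet_Ioo)

theorem CMass_sqr (w : ℝ) :
    ENNReal.ofReal w * μH[1] (frontier (sqr w)) ≤ 8 * volume (sqr w) := by
  have e : sqr w = {ξ : Rn 2 | ξ 0 ∈ Ioo 0 w ∧ ξ 1 ∈ Ioo 0 w} := by
    ext ξ
    simp [sqr, Fin.forall_fin_two]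
  have ho : IsOpen (sqr w) := e ▸ (isOpen_Ioo.preimage (continuous_apply 0)).inter
    (isOpen_Ioo.preimage (continuous_apply 1))
  have hc : closure (sqr w) ⊆ {ξ : Rn 2 | ξ 0 ∈ Icc 0 w ∧ ξ 1 ∈ Icc 0 w} :=
    closure_minimal (fun ξ h => ⟨Ioo_subset_Icc_self (h 0), Ioo_subset_Icc_self (h 1)⟩)
      ((isClosed_Icc.preimage (continuous_apply 0)).inter
        (isClosed_Icc.preimage (continuous_apply 1)))
  have h1 : frontier (sqr w) ⊆ (fun t => ![0, t]) '' Icc 0 w ∪ (fun t => ![w, t]) '' Icc 0 w ∪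
      ((fun t => ![t, 0]) '' Icc 0 w ∪ (fun t => ![t, w]) '' Icc 0 w) := by
    rw [ho.frontier_eq]
    rintro ξ ⟨a, b⟩
    obtain ⟨a0, a1⟩ := hc a
    by_cases c1 : ξ 0 = 0
    · exact .inl (.inl ⟨_, a1, by ext i; fin_cases i <;> simp [c1]⟩)
    by_cases c2 : ξ 0 = w
    · exact .inl (.inr ⟨_, a1, by ext i; fin_cases i <;> simp [c2]⟩)
    by_cases c3 : ξ 1 = 0
    · exact .inr (.inl ⟨_, a0, by ext i; fin_cases i <;> simp [c3]⟩)
    by_cases c4 : ξ 1 = w
    · exact .inr (.inr ⟨_, a0, by ext i; fin_cases i <;> simp [c4]⟩)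
    exact (b (e ▸ ⟨⟨a0.1.lt_of_ne' c1, a0.2.lt_of_ne c2⟩, a1.1.lt_of_ne' c3, a1.2.lt_of_ne c4⟩)).elim
  have h2 : μH[1] (frontier (sqr w)) ≤ ENNReal.ofReal w + ENNReal.ofReal w +
      (ENNReal.ofReal w + ENNReal.ofReal w) := by
    refine (measure_mono h1).trans ((measure_union_le _ _).trans (add_le_add
      ((measure_union_le _ _).trans (add_le_add ?_ ?_))
      ((measure_union_le _ _).trans (add_le_add ?_ ?_)))) <;>
    exact CMass_len (fun i s t => by fin_cases i <;> simp) w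
  rw [show volume (sqr w) = _ from e ▸ CMass_box 0 w w, sub_zero]
  calc _ ≤ ENNReal.ofReal w * (ENNReal.ofReal w + ENNReal.ofReal w +
      (ENNReal.ofReal w + ENNReal.ofReal w)) := by gcongr
    _ = 4 * (ENNReal.ofReal w * ENNReal.ofReal w) := by ring
    _ ≤ _ := by gcongr; norm_num

theorem CMass_trg {w : ℝ} (hw : 0 < w) :
    ENNReal.ofReal w * μH[1] (frontier (trg w)) ≤ 8 * volume (trg w) := by
  have ho : IsOpen (trg w) := (isOpen_lt continuous_const (continuous_apply 0)).inter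
    ((isOpen_lt continuous_const (continuous_apply 1)).inter
      (isOpen_lt ((continuous_apply 0).add (continuous_apply 1)) continuous_const))
  have hc : closure (trg w) ⊆ {ξ : Rn 2 | 0 ≤ ξ 0 ∧ 0 ≤ ξ 1 ∧ ξ 0 + ξ 1 ≤ w} :=
    closure_minimal (fun ξ h => ⟨h.1.le, h.2.1.le, h.2.2.le⟩)
      ((isClosed_le continuous_const (continuous_apply 0)).inter
        ((isClosed_le continuous_const (continuous_apply 1)).inter
          (isClosed_le ((continuous_apply 0).add (continuous_apply 1)) continuous_const)))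
  have h1 : frontier (trg w) ⊆ (fun t => ![0, t]) '' Icc 0 w ∪ (fun t => ![t, 0]) '' Icc 0 w ∪
      (fun t => ![t, w - t]) '' Icc 0 w := by
    rw [ho.frontier_eq]
    rintro ξ ⟨a, b⟩
    obtain ⟨a0, a1, a2⟩ := hc a
    by_cases c1 : ξ 0 = 0
    · exact .inl (.inl ⟨ξ 1, ⟨a1, by linarith⟩, by ext i; fin_cases i <;> simp [c1]⟩)
    by_cases c2 : ξ 1 = 0
    · exact .inl (.inr ⟨ξ 0, ⟨a0, by linarith⟩, by ext i; fin_cases i <;> simp [c2]⟩)
    by_cases c3 : ξ 0 + ξ 1 = w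
    · exact .inr ⟨ξ 0, ⟨a0, by linarith⟩, by ext i; fin_cases i <;> simp [← c3]⟩
    exact (b ⟨a0.lt_of_ne' c1, a1.lt_of_ne' c2, a2.lt_of_ne c3⟩).elim
  have h2 : μH[1] (frontier (trg w)) ≤ ENNReal.ofReal w + ENNReal.ofReal w + ENNReal.ofReal w := by
    refine (measure_mono h1).trans ((measure_union_le _ _).trans (add_le_add
      ((measure_union_le _ _).trans (add_le_add ?_ ?_)) ?_)) <;>
    exact CMass_len (fun i s t => by fin_cases i <;> simp [abs_sub_comm]) w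
  have h3 : ENNReal.ofReal (w / 4) * ENNReal.ofReal (3 * (w / 4)) + ENNReal.ofReal (w / 4) *
      ENNReal.ofReal (2 * (w / 4)) + ENNReal.ofReal (w / 4) * ENNReal.ofReal (w / 4) ≤
      volume (trg w) := by
    have b1 := CMass_box 0 (w / 4) (3 * (w / 4))
    have b2 := CMass_box (w / 4) (2 * (w / 4)) (2 * (w / 4))
    have b3 := CMass_box (2 * (w / 4)) (3 * (w / 4)) (w / 4)
    rw [sub_zero] at b1
    rw [show 2 * (w / 4) - w / 4 = w / 4 by ring] at b2
    rw [show 3 * (w / 4) - 2 * (w / 4) = w / 4 by ring] at b3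
    rw [← b1, ← b2, ← b3, ← measure_union (Set.disjoint_left.2 fun ξ a b => by
      linarith [a.1.2, b.1.1]) (CMass_mb _ _ _), ← measure_union (Set.disjoint_left.2 fun ξ a b => by
      rcases a with a | a <;> linarith [a.1.2, b.1.1]) (CMass_mb _ _ _)]
    refine measure_mono ?_
    rintro ξ ((a | a) | a) <;>
      exact ⟨by linarith [a.1.1], a.2.1, by linarith [a.1.2, a.2.2]⟩
  refine (mul_le_mul' le_rfl h2).trans (le_trans ?_ (mul_le_mul' le_rfl h3))
  have e : ENNReal.ofReal w = 4 * ENNReal.ofReal (w / 4) := by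
    rw [← ENNReal.ofReal_ofNat, ← ENNReal.ofReal_mul (by norm_num)]
    congr 1
    ring
  rw [ENNReal.ofReal_mul (by norm_num : (0 : ℝ) ≤ 3), ENNReal.ofReal_mul (by norm_num : (0 : ℝ) ≤ 2),
    ENNReal.ofReal_ofNat, ENNReal.ofReal_ofNat]
  generalize ENNReal.ofReal (w / 4) = q at e ⊢
  rw [e]
  exact le_of_eq (by ring)

theorem Ch.Shp.bd {k : Ch} {w : ℝ} (h : k.Shp w) :
    ENNReal.ofReal w * μH[1] (frontier k.U) ≤ 8 * volume k.U ∧ volume k.U ≠ ⊤ ∧
      IsCompact (closure k.U) ∧ Convex ℝ k.U := by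
  obtain ⟨hw, h⟩ := h
  have hb : Bornology.IsBounded k.U := by
    refine (isBounded_closedBall (x := 0) (r := w)).subset fun ξ hξ => ?_
    rw [mem_closedBall_zero_iff, pi_norm_le_iff_of_nonneg hw.le]
    intro i
    rcases h with h | h <;> rw [h] at hξ
    · exact abs_le.2 ⟨by linarith [(hξ i).1], (hξ i).2.le⟩
    · obtain ⟨a, b, c⟩ := hξ
      fin_cases i <;> exact abs_le.2 ⟨by simp; linarith, by simp; linarith⟩
  refine ⟨?_, hb.measure_lt_top.ne, hb.isCompact_closure, ?_⟩ <;> rcases h with h | h <;> rw [h]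
  · exact CMass_sqr w
  · exact CMass_trg hw
  · intro x hx y hy s t hs ht e i
    exact convex_Ioo (0 : ℝ) w (hx i) (hy i) hs ht e
  · intro x hx y hy s t hs ht e
    refine ⟨convex_Ioi (0 : ℝ) hx.1 hy.1 hs ht e, convex_Ioi (0 : ℝ) hx.2.1 hy.2.1 hs ht e, ?_⟩
    have := convex_Iio w hx.2.2 hy.2.2 hs ht e
    simp only [mem_Iio, Pi.add_apply, Pi.smul_apply, smul_eq_mul] at this ⊢
    linarith

theorem hull_ball {σ : Set (Rn 3)} (ho : IsOpen σ) (hc : IsCompact (closure σ)) {G : Rn 3 → Rn 3}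
    (hG : ContinuousOn G (closure σ)) (hi : InjOn G σ) {y : Rn 3} {R : ℝ}
    (h : ∀ x ∈ closure σ \ σ, ‖G x - y‖ ≤ R) : ∀ x ∈ closure σ, ‖G x - y‖ ≤ R := by
  intro x hx
  obtain ⟨z, hz, hm⟩ := hc.exists_isMaxOn ⟨x, hx⟩ (hG.sub (continuousOn_const (c := y))).norm
  refine (hm hx).trans (h z ⟨hz, fun hz' => ?_⟩)
  obtain ⟨g, hg⟩ := ContinuousMap.exists_restrict_eq isClosed_closure ⟨_, hG.domRestrict⟩
  have e : EqOn g G σ := fun u hu => DFunLike.congr_fun hg ⟨u, subset_closure hu⟩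
  have h1 : IsOpen (G '' σ) := e.image_eq ▸ inv_domain rfl ho g.continuous (hi.congr e.symm)
  have h2 : G '' σ ⊆ closedBall y ‖G z - y‖ := by
    rintro _ ⟨u, hu, rfl⟩
    exact mem_closedBall_iff_norm.2 (hm (subset_closure hu))
  have h3 := interior_maximal h2 h1 (mem_image_of_mem G hz')
  rw [interior_closedBall', mem_ball_iff_norm] at h3
  exact lt_irrefl _ h3

end BEp
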