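import Pool.Agent.Work.MP_f0515e_an.P3.KInt
import Pool.Agent.Work.MP_f0515e_an.D3.KA4
import Pool.Agent.Work.MP_f0515e_an.P3.GGeo
import Pool.Agent.Work.MP_f0515e_an.D3.NLn

-- merged part: Pool.Agent.Work.MP_f0515e_an.P3.KPat
section
/-! Patching of complexes: the new cell of `x` is that of `K' i` on `W i` and that of `K`
elsewhere. `patchF`: finer on closed sets. `patchC`: coarser on open sets. -/

open Set Metric Filter Topology Function BEv MeasureTheory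
open scoped NNReal ENNReal

noncomputable section
namespace BEp

variable {Ω : Set (Rn 3)} {ι : Type} [Finite ι]

theorem Kx.patch (K : Kx Ω) (W : ι → Set (Rn 3)) (K' : ι → Kx univ) (hW : ∀ i, W i ⊆ Ω)
    (hd : ∀ i j, i ≠ j → Disjoint (W i) (W j))
    (h1 : ∀ i, ∀ x ∈ W i, closure ((K' i).cell x) ⊆ Ω ∧ (K' i).cell x ⊆ W i)
    (h2 : ∀ i, ∀ x ∈ Ω, x ∉ W i → Disjoint (K.cell x) (W i))
    (h3 : ∀ i, ∀ x ∈ W i, ∀ y ∈ closure ((K' i).cell x), y ∉ W i →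
      (∀ j, y ∉ W j) ∧ K.cell y ⊆ closure ((K' i).cell x))
    (h4 : ∀ x ∈ Ω, (∀ i, x ∉ W i) → ∀ i, ∀ y ∈ closure (K.cell x) ∩ W i,
      (K' i).cell y ⊆ closure (K.cell x)) :
    ∃ K'' : Kx Ω, (∀ i, ∀ x ∈ W i, K''.cell x = (K' i).cell x) ∧
      ∀ x ∈ Ω, (∀ i, x ∉ W i) → K''.cell x = K.cell x := by
  classical
  obtain ⟨c, A, B⟩ : ∃ c : Rn 3 → Set (Rn 3), (∀ i, ∀ x ∈ W i, c x = (K' i).cell x) ∧
      ∀ x, (∀ i, x ∉ W i) → c x = K.cell x := by
    refine ⟨fun x => if h : ∃ i, x ∈ W i then (K' h.choose).cell x else K.cell x,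
      fun i x hx => ?_, fun x hx => dif_neg (not_exists.2 hx)⟩
    have h : ∃ i, x ∈ W i := ⟨i, hx⟩
    have e : h.choose = i := by
      by_contra hne
      exact Set.disjoint_left.1 (hd _ _ hne) h.choose_spec hx
    simp only [dif_pos h, e]
  have D : ∀ x, (∃ i, x ∈ W i ∧ c x = (K' i).cell x) ∨ ((∀ i, x ∉ W i) ∧ c x = K.cell x) := by
    intro x
    by_cases h : ∃ i, x ∈ W i
    · obtain ⟨i, hi⟩ := h
      exact Or.inl ⟨i, hi, A i x hi⟩
    · exact Or.inr ⟨not_exists.1 h, B x (not_exists.1 h)⟩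
  refine ⟨⟨c, ?_, ?_, ?_, ?_, ?_, ?_, ?_, ?_⟩, A, fun x _ => B x⟩
  · intro x hx
    rcases D x with ⟨i, hi, e⟩ | ⟨hi, e⟩ <;> rw [e]
    exacts [(K' i).mem x trivial, K.mem x hx]
  · intro x hx y hy
    rcases D x with ⟨i, hi, e⟩ | ⟨hi, e⟩ <;> rw [e] at hy ⊢
    · rw [A i y ((h1 i x hi).2 hy), (K' i).eqv x trivial y hy]
    · rw [B y fun i => Set.disjoint_left.1 (h2 i x hx (hi i)) hy, K.eqv x hx y hy]
  · intro x hx
    rcases D x with ⟨i, hi, e⟩ | ⟨hi, e⟩ <;> rw [e]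
    exacts [(h1 i x hi).1, K.sub x hx]
  · intro x hx
    rcases D x with ⟨i, hi, e⟩ | ⟨hi, e⟩ <;> rw [e]
    exacts [(K' i).cvx x trivial, K.cvx x hx]
  · intro x hx
    rcases D x with ⟨i, hi, e⟩ | ⟨hi, e⟩ <;> rw [e]
    exacts [(K' i).opn x trivial, K.opn x hx]
  · intro x hx
    rcases D x with ⟨i, hi, e⟩ | ⟨hi, e⟩ <;> rw [e]
    exacts [(K' i).poly x trivial, K.poly x hx]
  · intro x hx y hy
    rcases D x with ⟨i, hi, e⟩ | ⟨hi, e⟩ <;> rw [e] at hy ⊢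
    · by_cases h : y ∈ W i
      · rw [A i y h]
        exact (K' i).fr x trivial y hy
      · obtain ⟨g1, g2⟩ := h3 i x hi y hy h
        rw [B y g1]
        exact g2
    · rcases D y with ⟨j, hj, e'⟩ | ⟨hj, e'⟩ <;> rw [e']
      exacts [h4 x hx hi j y ⟨hy, hj⟩, K.fr x hx y hy]
  · intro C hC hs
    refine ((K.lf C hC hs).union
      (Set.finite_iUnion fun i => (K' i).lf C hC (subset_univ _))).subset ?_
    rintro _ ⟨x, hx, rfl⟩
    rcases D x with ⟨i, hi, e⟩ | ⟨hi, e⟩ <;> rw [e]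
    exacts [Or.inr (mem_iUnion.2 ⟨i, x, hx, rfl⟩), Or.inl ⟨x, hx, rfl⟩]


theorem Kx.patchF (K : Kx Ω) (K' : Kx univ) {W : Set (Rn 3)} (hW : W ⊆ Ω) (hc : IsClosed W)
    (h1 : ∀ x ∈ W, K.cell x ⊆ W) (h2 : ∀ x ∈ W, K'.cell x ⊆ K.cell x) :
    ∃ K'' : Kx Ω, (∀ x ∈ W, K''.cell x = K'.cell x) ∧ ∀ x ∈ Ω, x ∉ W → K''.cell x = K.cell x := by
  obtain ⟨K'', a, b⟩ := K.patch (fun _ : Unit => W) (fun _ => K') (fun _ => hW)
    (fun _ _ h => absurd rfl h)
    (fun _ x hx => ⟨(closure_mono (h2 x hx)).trans (K.sub x (hW hx)), (h2 x hx).trans (h1 x hx)⟩)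
    (fun _ x hx hn => Set.disjoint_left.2 fun y hy hw =>
      hn (h1 y hw (by rw [K.eqv x hx y hy]; exact K.mem x hx)))
    (fun _ x hx y hy hn =>
      absurd (closure_minimal ((h2 x hx).trans (h1 x hx)) hc hy) hn)
    (fun x hx _ _ y hy => (h2 y hy.2).trans (K.fr x hx y hy.1))
  exact ⟨K'', a (), fun x hx hn => b x hx fun _ => hn⟩


theorem Kx.patchC (K : Kx Ω) (K' : Kx univ) {O : Set (Rn 3)} (hO : closure O ⊆ Ω) (ho : IsOpen O)
    (h1 : ∀ x ∈ O, K'.cell x ⊆ O) (h2 : ∀ x ∈ closure O, K.cell x ⊆ K'.cell x) :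
    ∃ K'' : Kx Ω, (∀ x ∈ O, K''.cell x = K'.cell x) ∧ ∀ x ∈ Ω, x ∉ O → K''.cell x = K.cell x := by
  have d : ∀ x ∈ Ω, x ∉ O → Disjoint (K.cell x) O := fun x hx hn =>
    Set.disjoint_left.2 fun y hy hw =>
      hn (h1 y hw (h2 y (subset_closure hw) (by rw [K.eqv x hx y hy]; exact K.mem x hx)))
  obtain ⟨K'', a, b⟩ := K.patch (fun _ : Unit => O) (fun _ => K') (fun _ => subset_closure.trans hO)
    (fun _ _ h => absurd rfl h)
    (fun _ x hx => ⟨(closure_mono (h1 x hx)).trans hO, h1 x hx⟩) (fun _ => d)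
    (fun _ x hx y hy hn => ⟨fun _ => hn,
      (h2 y (closure_mono (h1 x hx) hy)).trans (K'.fr x trivial y hy)⟩)
    (fun x hx hn _ y hy =>
      absurd hy.2 (Set.disjoint_left.1 ((d x hx (hn ())).closure_left ho) hy.1))
  exact ⟨K'', a (), fun x hx hn => b x hx fun _ => hn⟩


end BEp
end
end

-- merged part: Pool.Agent.Work.MP_f0515e_an.P3.Mor
section
/-! Morrey inequality in the plane for upper gradients along almost all segments. For almost every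
`x` of the square, `v` is integrable on the segment from `x` to almost every `y` (Fubini: the
map `(x, y) ↦ (seg x y s, y)` has Jacobian at least `1/4` for `s ≤ 1/2`, and symmetrically). For
such `x`, the average over `y` in the square `B` of `‖g x - g y‖` is at most `2R` times the integral
over `s` of the average of `γ` over `x + s (B - x) ⊆ B`, which is at most
`(s^2 |B|)^(-1/p) ‖γ‖_p` (Hoelder), integrable in `s` as `2 < p`. Such `x` are dense and `g` is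
continuous. -/

open Set Metric Filter Topology Function BEv MeasureTheory
open scoped NNReal ENNReal

noncomputable section
namespace BEp

theorem Mor_mem {c x y : Rn 2} {R s : ℝ} (hx : x ∈ ball c R) (hy : y ∈ ball c R)
    (hs : s ∈ Icc (0 : ℝ) 1) : seg x y s ∈ ball c R :=
  (convex_ball c R).add_smul_sub_mem hx hy hs

theorem Mor_cont : Continuous fun w : (Rn 2 × Rn 2) × ℝ => seg w.1.1 w.1.2 w.2 := by
  unfold seg
  fun_prop

theorem Mor_hom {f : Rn 2 → ℝ≥0∞} (hf : Measurable f) {c x : Rn 2} {R s : ℝ} (hx : x ∈ ball c R)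
    (hs : s ∈ Ioc (0 : ℝ) 1) :
    ∫⁻ y in ball c R, f (seg x y s) ≤ ENNReal.ofReal (s ^ 2)⁻¹ * ∫⁻ z in ball c R, f z := by
  have hF : Measurable fun z => (ball c R).indicator f (x - s • x + z) :=
    (hf.indicator measurableSet_ball).comp (measurable_const_add _)
  calc ∫⁻ y in ball c R, f (seg x y s)
      = ∫⁻ y in ball c R, (ball c R).indicator f (x - s • x + s • y) := by
        refine setLIntegral_congr_fun measurableSet_ball fun y hy => ?_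
        have e : x - s • x + s • y = seg x y s := by
          unfold seg
          module
        simp only [e, indicator_of_mem (Mor_mem hx hy (Ioc_subset_Icc_self hs))]
    _ ≤ ∫⁻ y, (ball c R).indicator f (x - s • x + s • y) := setLIntegral_le_lintegral _ _
    _ = _ := by
        rw [← lintegral_map hF (measurable_const_smul s), Measure.map_addHaar_smul _ hs.1.ne',
          lintegral_smul_measure, lintegral_add_left_eq_self, lintegral_indicator measurableSet_ball,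
          Module.finrank_fin_fun, abs_of_nonneg (by positivity), smul_eq_mul]

theorem Mor_half {f : Rn 2 → ℝ≥0∞} (hf : Measurable f) (c : Rn 2) (R : ℝ) {s : ℝ}
    (h1 : 1 / 2 ≤ s) (h2 : s ≤ 1) : ∫⁻ x in ball c R, ∫⁻ y in ball c R, f (seg x y s) ≤
      (ENNReal.ofReal 4 * ∫⁻ z in ball c R, f z) * volume (ball c R) := by
  rw [← setLIntegral_const]
  refine setLIntegral_mono' measurableSet_ball fun x hx => ?_
  refine (Mor_hom hf hx ⟨by linarith, h2⟩).trans (mul_le_mul_left (ENNReal.ofReal_le_ofReal ?_) _)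
  rw [inv_le_comm₀ (by positivity) (by norm_num)]
  nlinarith

theorem Mor_ae {v : Rn 2 → ℝ≥0∞} (hv : Measurable v) {c : Rn 2} {R : ℝ}
    (h : ∫⁻ ξ in ball c R, v ξ ≠ ⊤) : ∀ᵐ x ∂volume.restrict (ball c R),
      ∀ᵐ y ∂volume.restrict (ball c R), ∫⁻ s in Icc (0 : ℝ) 1, v (seg x y s) < ⊤ := by
  have m : Measurable (uncurry fun (w : Rn 2 × Rn 2) (s : ℝ) => v (seg w.1 w.2 s)) :=
    hv.comp Mor_cont.measurable
  refine Measure.ae_ae_of_ae_prod (p := fun w : Rn 2 × Rn 2 =>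
    ∫⁻ s in Icc (0 : ℝ) 1, v (seg w.1 w.2 s) < ⊤) (ae_lt_top m.lintegral_prod_right' ?_)
  rw [lintegral_lintegral_swap m.aemeasurable]
  refine ne_top_of_le_ne_top ?_ (setLIntegral_mono' (g := fun _ =>
    (ENNReal.ofReal 4 * ∫⁻ z in ball c R, v z) * volume (ball c R)) measurableSet_Icc
    fun s hs => ?_)
  · rw [setLIntegral_const]
    exact ENNReal.mul_ne_top (ENNReal.mul_ne_top (ENNReal.mul_ne_top ENNReal.ofReal_ne_top h)
      measure_ball_lt_top.ne) measure_Icc_lt_top.ne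
  have ms : Measurable fun w : Rn 2 × Rn 2 => v (seg w.1 w.2 s) := m.comp measurable_prodMk_right
  rcases le_total (1 / 2) s with k | k
  · rw [lintegral_prod _ ms.aemeasurable]
    exact Mor_half hv c R k hs.2
  · rw [lintegral_prod_symm _ ms.aemeasurable]
    have e : ∀ x y : Rn 2, seg x y s = seg y x (1 - s) := fun x y => by
      unfold seg
      module
    simp only [e]
    exact Mor_half hv c R (by linarith) (by linarith [hs.1])

theorem Mor_avg {p q : ℝ} (hpq : p.HolderConjugate q) {γ : Rn 2 → ℝ≥0∞} (hγ : Measurable γ)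
    {c x : Rn 2} {R : ℝ} (hx : x ∈ ball c R) :
    ∫⁻ y in ball c R, ∫⁻ s in Icc (0 : ℝ) 1, γ (seg x y s) ≤
      (∫⁻ s in Ioc (0 : ℝ) 1, ENNReal.ofReal (s ^ (-2 / p))) *
        ((∫⁻ z in ball c R, γ z ^ p) ^ (1 / p) * volume (ball c R) ^ (1 / q)) := by
  have p0 := hpq.pos
  have m : Measurable fun w : Rn 2 × ℝ => γ (seg x w.1 w.2) := by
    refine hγ.comp (Continuous.measurable ?_)
    unfold seg
    fun_prop
  rw [lintegral_lintegral_swap m.aemeasurable, ← Measure.restrict_congr_set Ioc_ae_eq_Icc,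
    ← lintegral_mul_const _ (by fun_prop)]
  refine setLIntegral_mono' measurableSet_Ioc fun s hs => ?_
  have k := ENNReal.lintegral_mul_le_Lp_mul_Lq (volume.restrict (ball c R)) hpq
    (f := fun y => γ (seg x y s)) (g := fun _ => 1) (m.comp measurable_prodMk_right).aemeasurable
    aemeasurable_const
  simp only [Pi.mul_apply, mul_one, ENNReal.one_rpow, setLIntegral_one] at k
  refine k.trans ?_
  rw [← mul_assoc]
  refine mul_le_mul_left ((ENNReal.rpow_le_rpow (Mor_hom (f := fun z => γ z ^ p)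
    (hγ.pow_const p) hx hs) (by positivity)).trans_eq ?_) _
  rw [ENNReal.mul_rpow_of_nonneg _ _ (by positivity),
    ENNReal.ofReal_rpow_of_nonneg (by positivity) (by positivity), ← Real.rpow_two,
    ← Real.rpow_neg hs.1.le, ← Real.rpow_mul hs.1.le, mul_one_div]

theorem morrey2 {p : ℝ} (hp : 2 < p) : ∃ C : ℝ≥0∞, C ≠ ⊤ ∧ ∀ (g : Rn 2 → Rn 3)
    (v γ : Rn 2 → ℝ≥0∞) (c : Rn 2) (R : ℝ), 0 < R → ContinuousOn g (closedBall c R) →
    Measurable v → Measurable γ → ∫⁻ ξ in ball c R, v ξ ≠ ⊤ →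
    (∀ ξ ∈ ball c R, ∀ ξ' ∈ ball c R, ∫⁻ s in Icc (0 : ℝ) 1, v (seg ξ ξ' s) ≠ ⊤ →
      ‖g ξ' - g ξ‖ₑ ≤ ‖ξ' - ξ‖ₑ * ∫⁻ s in Icc (0 : ℝ) 1, γ (seg ξ ξ' s)) →
    ∀ ξ ∈ closedBall c R, ∀ ξ' ∈ closedBall c R,
      ‖g ξ - g ξ'‖ₑ ^ p ≤ C * ENNReal.ofReal (R ^ (p - 2)) * ∫⁻ x in ball c R, γ x ^ p := by
  have p0 : 0 < p := by linarith
  have hpq := Real.HolderConjugate.conjExponent (show 1 < p by linarith)
  generalize Real.conjExponent p = q at hpq
  have J0 : ∫⁻ s in Ioc (0 : ℝ) 1, ENNReal.ofReal (s ^ (-2 / p)) ≠ ⊤ :=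
    (intervalIntegral.intervalIntegrable_rpow' (a := 0) (b := 1) (r := -2 / p)
      (by rw [lt_div_iff₀ p0]; linarith)).1.lintegral_lt_top.ne
  have avg := fun γ hγ c x R hx => @Mor_avg p q hpq γ hγ c x R hx
  generalize ∫⁻ s in Ioc (0 : ℝ) 1, ENNReal.ofReal (s ^ (-2 / p)) = J at J0 avg
  refine ⟨(4 * J) ^ p, ENNReal.rpow_ne_top_of_nonneg p0.le (ENNReal.mul_ne_top (by simp) J0),
    fun g v γ c R hR hg hv hγ iv H => ?_⟩
  obtain ⟨Γ, hΓ⟩ : ∃ Γ, ∫⁻ x in ball c R, γ x ^ p = Γ := ⟨_, rfl⟩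
  obtain ⟨m, hm⟩ : ∃ m, volume (ball c R) = m := ⟨_, rfl⟩
  have m0 : m ≠ 0 := hm ▸ (measure_ball_pos _ c hR).ne'
  have m1 : m ≠ ⊤ := hm ▸ measure_ball_lt_top.ne
  have m2 : ENNReal.ofReal R ^ p ≤ m * ENNReal.ofReal (R ^ (p - 2)) := by
    rw [← hm, Real.volume_pi_ball c hR, ENNReal.ofReal_rpow_of_pos hR,
      ← ENNReal.ofReal_mul (by positivity), Fintype.card_fin]
    refine ENNReal.ofReal_le_ofReal ?_
    have e : R ^ p = R ^ 2 * R ^ (p - 2) := by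
      rw [← Real.rpow_two, ← Real.rpow_add hR, add_sub_cancel]
    rw [e]
    exact mul_le_mul_of_nonneg_right (by nlinarith) (by positivity)
  have key : ∀ x ∈ ball c R, (∀ᵐ y ∂volume.restrict (ball c R),
      ∫⁻ s in Icc (0 : ℝ) 1, v (seg x y s) < ⊤) → ∫⁻ y in ball c R, ‖g y - g x‖ₑ ≤
        2 * ENNReal.ofReal R * (J * (Γ ^ (1 / p) * m ^ (1 / q))) := fun x hx h => by
    rw [← hΓ, ← hm]
    refine le_trans ?_ (mul_le_mul_right (avg γ hγ c x R hx) _)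
    rw [← lintegral_const_mul' _ _ (ENNReal.mul_ne_top (by simp) ENNReal.ofReal_ne_top)]
    refine lintegral_mono_ae ?_
    filter_upwards [h, ae_restrict_mem measurableSet_ball] with y h1 hy
    refine (H x hx y hy h1.ne).trans (mul_le_mul_left ?_ _)
    rw [← ofReal_norm, two_mul, ← ENNReal.ofReal_add hR.le hR.le, ← dist_eq_norm]
    exact ENNReal.ofReal_le_ofReal (dist_triangle_right y x c |>.trans
      (add_le_add (mem_ball.1 hy).le (mem_ball.1 hx).le))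
  have hd := (Measure.dense_of_ae ((ae_restrict_iff' measurableSet_ball).1
    (Mor_ae hv iv))).open_subset_closure_inter (isOpen_ball (x := c) (ε := R))
  have hd' := closure_mono hd
  rw [closure_ball c hR.ne', closure_closure] at hd'
  intro ξ hξ ξ' hξ'
  rw [hΓ]
  have cg : ContinuousOn (fun w : Rn 2 × Rn 2 => ‖g w.1 - g w.2‖ₑ ^ p)
      (closedBall c R ×ˢ closedBall c R) :=
    ENNReal.continuous_rpow_const.comp_continuousOn
      ((hg.comp continuousOn_fst fun _ h => h.1).sub (hg.comp continuousOn_snd fun _ h => h.2)).enorm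
  refine ContinuousWithinAt.closure_le (f := fun w : Rn 2 × Rn 2 => ‖g w.1 - g w.2‖ₑ ^ p)
    (g := fun _ => (4 * J) ^ p * ENNReal.ofReal (R ^ (p - 2)) * Γ) (x := (ξ, ξ'))
    (closure_prod_eq.ge (mk_mem_prod (hd' hξ) (hd' hξ'))) ((cg _ ⟨hξ, hξ'⟩).mono (prod_mono
      (inter_subset_left.trans ball_subset_closedBall)
      (inter_subset_left.trans ball_subset_closedBall))) continuousWithinAt_const ?_
  rintro ⟨x, x'⟩ ⟨⟨h1, h2⟩, h3, h4⟩
  have am : AEMeasurable (fun y => ‖g y - g x‖ₑ) (volume.restrict (ball c R)) :=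
    ((hg.mono ball_subset_closedBall).sub continuousOn_const).enorm.aemeasurable measurableSet_ball
  have k1 : ‖g x - g x'‖ₑ * m ≤ (∫⁻ y in ball c R, ‖g y - g x‖ₑ) +
      ∫⁻ y in ball c R, ‖g y - g x'‖ₑ := by
    rw [← lintegral_add_left' am, ← hm, ← setLIntegral_const]
    refine lintegral_mono fun y => ?_
    simp only [← edist_eq_enorm_sub]
    exact edist_triangle_left _ _ _
  have k2 := k1.trans (add_le_add (key x h1 (h2 h1)) (key x' h3 (h4 h3)))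
  have q0 := hpq.symm.pos
  have e1 : m = m ^ (1 / p) * m ^ (1 / q) := by
    rw [← ENNReal.rpow_add _ _ m0 m1, one_div, one_div, hpq.inv_add_inv_eq_one, ENNReal.rpow_one]
  have k3 : ‖g x - g x'‖ₑ * m ^ (1 / p) ≤ 4 * J * ENNReal.ofReal R * Γ ^ (1 / p) := by
    refine (ENNReal.mul_le_mul_iff_left (c := m ^ (1 / q))
      (ENNReal.rpow_pos (pos_iff_ne_zero.2 m0) m1).ne'
      (ENNReal.rpow_ne_top_of_nonneg (by positivity) m1)).1 ?_
    rw [mul_assoc, ← e1]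
    exact k2.trans_eq (by ring)
  have k4 := ENNReal.rpow_le_rpow k3 p0.le
  rw [ENNReal.mul_rpow_of_nonneg _ _ p0.le, ENNReal.mul_rpow_of_nonneg _ _ p0.le,
    ENNReal.mul_rpow_of_nonneg _ _ p0.le, one_div, ENNReal.rpow_inv_rpow p0.ne',
    ENNReal.rpow_inv_rpow p0.ne'] at k4
  refine (ENNReal.mul_le_mul_iff_left m0 m1).1 (k4.trans ?_)
  exact (mul_le_mul_left (mul_le_mul_right m2 _) _).trans_eq (by ring)

end BEp
end
end

-- merged part: Pool.Agent.Work.MP_f0515e_an.P3.Sel3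
section
-- merged part: Pool.Agent.Work.MP_f0515e_an.P3.KLoc
section
/-! The local model on the whole space. Start from `kbC n0`; `patchF` on the closed ball of radius
`η - h` with the image of the complex of `ShK` under `o + h ·` (`Kx.exists_aff`, `Cbe.aff`,
`Ch.exists_aff`; `kbC n0` is the image of `kbC 0` as `o ∈ h ℤ³`); `patchC` on `O` with `lc`;
`patchF` on `WI` with `kbC (ns - 4)`. Choose the chart of a face according to the region which
contains it (`lc_face`); a fine face in `WI` has its directions in `I`, on which `N⁻¹` is the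
identity.
-/

open Set Metric Filter Topology Function BEv MeasureTheory
open scoped NNReal ENNReal

noncomputable section
namespace BEp

theorem KLoc_dm {σ : Set (Rn 3)} (o : Rn 3) {t : ℝ} (ht : 0 < t) :
    dm ((fun y => o + t • y) '' σ) = dm σ := by
  have e : vectorSpan ℝ ((fun y => o + t • y) '' σ) = vectorSpan ℝ σ := by
    refine le_antisymm (Submodule.span_le.2 ?_) (Submodule.span_le.2 ?_)
    · rintro _ ⟨_, ⟨a, ha, rfl⟩, _, ⟨b, hb, rfl⟩, rfl⟩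
      have := Submodule.smul_mem _ t (vsub_mem_vectorSpan ℝ ha hb)
      simpa [smul_sub] using this
    · rintro _ ⟨a, ha, b, hb, rfl⟩
      have := Submodule.smul_mem _ t⁻¹ (vsub_mem_vectorSpan ℝ
        (mem_image_of_mem (fun y => o + t • y) ha) (mem_image_of_mem (fun y => o + t • y) hb))
      simpa [← smul_sub, ht.ne'] using this
  rw [dm, dm, e]

theorem KLoc_cb {n : ℕ} {o x : Rn 3} {R : ℝ} (ho : ∀ i, ∃ k : ℤ, 2 ^ n * o i = k)
    (hR : ∃ k : ℤ, 2 ^ n * R = k) (h0 : 0 ≤ R) (hx : x ∈ closedBall o R) :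
    kbC n x ⊆ closedBall o R := by
  intro y hy
  have p : (0 : ℝ) < 2 ^ n := by positivity
  obtain ⟨k, hk⟩ := hR
  rw [mem_closedBall, dist_pi_le_iff h0] at hx ⊢
  intro l
  obtain ⟨m, hm⟩ := ho l
  have h1 := abs_le.1 (hx l)
  have h2 := (kbS_iff.1 (hy l) (m - k)).1.2 (by push_cast; nlinarith [h1.1])
  have h3 := (kbS_iff.1 (hy l) (m + k)).2.2 (by push_cast; nlinarith [h1.2])
  push_cast at h2 h3
  rw [Real.dist_eq, abs_le]
  constructor <;> refine le_of_mul_le_mul_left ?_ p <;> linarith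

theorem KLoc_ob {n : ℕ} {o x : Rn 3} {R : ℝ} (ho : ∀ i, ∃ k : ℤ, 2 ^ n * o i = k)
    (hR : ∃ k : ℤ, 2 ^ n * R = k) (h0 : 0 < R) (hx : x ∈ ball o R) :
    kbC n x ⊆ ball o R := by
  intro y hy
  have p : (0 : ℝ) < 2 ^ n := by positivity
  obtain ⟨k, hk⟩ := hR
  rw [mem_ball, dist_pi_lt_iff h0] at hx ⊢
  intro l
  obtain ⟨m, hm⟩ := ho l
  have h1 := abs_lt.1 (hx l)
  have h2 := mt (kbS_iff.1 (hy l) (m - k)).2.1 (not_le.2 (by push_cast; nlinarith [h1.1]))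
  have h3 := mt (kbS_iff.1 (hy l) (m + k)).1.1 (not_le.2 (by push_cast; nlinarith [h1.2]))
  push_cast at h2 h3
  rw [not_le] at h2 h3
  rw [Real.dist_eq, abs_lt]
  constructor <;> refine lt_of_mul_lt_mul_left ?_ p.le <;> linarith

theorem KLoc_dy {n : ℕ} {o x : Rn 3} (ho : ∀ i, ∃ k : ℤ, 2 ^ n * o i = k) :
    (fun y => o + (1 / 2 ^ n : ℝ) • y) '' kbC 0 ((1 / 2 ^ n : ℝ)⁻¹ • (x - o)) ⊆ kbC n x := by
  rintro _ ⟨y, hy, rfl⟩ l
  have p : (0 : ℝ) < 2 ^ n := by positivity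
  obtain ⟨m, hm⟩ := ho l
  have h1 := hy l
  have e1 : 2 ^ n * x l = 2 ^ 0 * ((1 / 2 ^ n : ℝ)⁻¹ • (x - o)) l + m := by
    simp only [Pi.smul_apply, Pi.sub_apply, smul_eq_mul, one_div, inv_inv, pow_zero, one_mul]
    linarith
  have e2 : 2 ^ n * (o + (1 / 2 ^ n : ℝ) • y) l = 2 ^ 0 * y l + m := by
    simp only [Pi.smul_apply, Pi.add_apply, smul_eq_mul, pow_zero, one_mul, mul_add, hm]
    field_simp
    ring
  rw [e1, e2]
  exact ⟨by rw [Int.floor_add_intCast, Int.floor_add_intCast, h1.1],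
    by rw [Int.ceil_add_intCast, Int.ceil_add_intCast, h1.2]⟩

theorem KLoc_lc {N : Rn 3 ≃L[ℝ] Rn 3} {o x : Rn 3} {h : ℝ} (hh : 0 < h) :
    (fun y => o + h • y) '' lc N 0 1 (h⁻¹ • (x - o)) ⊆ lc N o h x := by
  rintro _ ⟨y, hy, rfl⟩ l
  have h1 := hy l
  simp only [inv_one, one_smul, sub_zero, map_smul] at h1
  simpa only [add_sub_cancel_left, map_smul, inv_smul_smul₀ hh.ne'] using h1

theorem KLoc_lin {σ : Set (Rn 3)} {a l : ℝ} {N : Rn 3 ≃L[ℝ] Rn 3} (h : Cbe (N ⁻¹' σ) 1 (l / 2))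
    (hl : 0 ≤ l) (ha : 6 ≤ a) (h1 : ∀ z, ‖N z‖ ≤ a * ‖z‖) (h2 : ∀ z, ‖N.symm z‖ ≤ 3 * ‖z‖) :
    Cbe σ a l := by
  obtain ⟨Φ, k1, k2, k3, k4⟩ := h
  have lN : LH N := pa2_of_inv (TP.clm (N : Rn 3 →L[ℝ] Rn 3)) (TP.clm (N.symm : Rn 3 →L[ℝ] Rn 3))
    N.symm_apply_apply N.apply_symm_apply
  refine ⟨N ∘ Φ, lN.comp k1, ?_, ?_, fun x hx y hy => ?_⟩
  · rw [image_comp, k2]
    refine (N.toHomeomorph.image_closure _).trans (congrArg closure ?_)
    exact image_preimage_eq σ N.surjective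
  · rw [image_comp, k3, image_preimage_eq σ N.surjective]
  · obtain ⟨u, v⟩ := k4 x hx y hy
    have w := h2 (N (Φ x - Φ y))
    rw [N.symm_apply_apply] at w
    rw [comp_apply, comp_apply, ← map_sub]
    have n1 := mul_nonneg hl (norm_nonneg (x - y))
    have n2 := mul_le_mul_of_nonneg_right ha (norm_nonneg (N (Φ x - Φ y)))
    refine ⟨(h1 _).trans ?_, by linarith⟩
    rw [mul_assoc]
    exact mul_le_mul_of_nonneg_left (by linarith) (by linarith)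

theorem KLoc_bi {k : Ch} {N : Rn 3 ≃L[ℝ] Rn 3} {a : ℝ} (h : k.Bi N 1) (ha : 3 ≤ a)
    (h1 : ∀ z, ‖N z‖ ≤ a * ‖z‖) (h2 : ∀ z, ‖N.symm z‖ ≤ 3 * ‖z‖) : k.Bi idE a := by
  intro ξ
  obtain ⟨u, v⟩ := h ξ
  have w := h1 (N.symm (k.M ξ))
  rw [N.apply_symm_apply] at w
  change ‖k.M ξ‖ ≤ a * ‖ξ‖ ∧ ‖ξ‖ ≤ a * ‖k.M ξ‖
  rw [one_mul] at u v
  exact ⟨w.trans (mul_le_mul_of_nonneg_left u (by linarith)),
    (v.trans (h2 _)).trans (mul_le_mul_of_nonneg_right ha (norm_nonneg _))⟩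

theorem KLoc_flat {k : Ch} {F : Set (Rn 3)} (h : k.Of F) (hne : F.Nonempty) {i : Fin 3} {c : ℝ}
    (hc : ∀ x ∈ F, x i = c) (ξ : Rn 2) : k.M ξ i = 0 := by
  obtain ⟨-, ho, rfl⟩ := h
  obtain ⟨_, a, ha, rfl⟩ := hne
  have ct : ContinuousAt (fun t : ℝ => a + t • ξ) 0 := by fun_prop
  have ev : ∀ᶠ t : ℝ in 𝓝 0, a + t • ξ ∈ k.U :=
    ct.eventually (ho.mem_nhds (by simpa using ha))
  obtain ⟨t, h1, h2⟩ := ((ev.filter_mono nhdsWithin_le_nhds).and
    (self_mem_nhdsWithin (s := Ioi (0 : ℝ)))).exists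
  have e1 := hc _ ⟨_, ha, rfl⟩
  have e2 := hc _ ⟨_, h1, rfl⟩
  simp only [Ch.φ, map_add, map_smul, Pi.add_apply, Pi.smul_apply, smul_eq_mul] at e1 e2
  have e3 : t * k.M ξ i = 0 := by linarith
  exact (mul_eq_zero.1 e3).resolve_left (ne_of_gt h2)

theorem Cu.exists_loc {C : Cu} {aK : ℝ} (h : C.Ok aK) (hK : ShK C.b aK) :
    ∃ (K : Kx univ) (ch : Set (Rn 3) → Ch) (w : Set (Rn 3) → ℝ), C.Fit aK K ch w ∧
      (∀ x, x ∉ closedBall C.o (C.η - C.h) → K.cell x = kbC C.n0 x) ∧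
      (∀ x ∈ closedBall C.o (C.η - C.h), K.cell x ⊆ closedBall C.o (C.η - C.h)) ∧
      (∀ x, closure (K.cell x) ⊆ closedBall x (3 * C.b * C.h)) ∧
      ∀ F ∈ K.cel 2, F ⊆ C.q → ¬ F ⊆ closedBall C.o (C.η - C.h) → (ch F).Bi idE 1 := by
  obtain ⟨η0, h0, s0, -, -, -, -, -, b8, a24⟩ := h.pos
  obtain ⟨⟨kη, hη⟩, -, -, -, -, -, hs⟩ := h.mult
  have hη1 : 800 * C.b * C.h ≤ C.η := h.num.2.2.2.2.2.2.2.2.2.1
  have hbh := mul_le_mul_of_nonneg_right b8 h0.le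
  have p : (0 : ℝ) < 2 ^ C.n0 := by positivity
  have e0 : (2 : ℝ) ^ C.n0 * C.h = 1 := mul_one_div_cancel p.ne'
  have ho : ∀ i, ∃ k : ℤ, 2 ^ C.n0 * C.o i = k := fun i => by
    obtain ⟨k, hk⟩ := h.olat i
    refine ⟨k * kη, ?_⟩
    rw [hk, hη]
    push_cast
    linear_combination (k * kη : ℝ) * e0
  have hR : ∃ k : ℤ, 2 ^ C.n0 * C.η = k := ⟨kη, by
    rw [hη]
    push_cast
    linear_combination (kη : ℝ) * e0⟩
  have hR' : ∃ k : ℤ, 2 ^ C.n0 * (C.η - C.h) = k := ⟨kη - 1, by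
    rw [hη]
    push_cast
    linear_combination (kη - 1 : ℝ) * e0⟩
  have nN1 : ∀ z, ‖C.N z‖ ≤ aK * ‖z‖ := fun z =>
    (h.nN z).1.trans (mul_le_mul_of_nonneg_right h.aK3 (norm_nonneg _))
  have nN2 : ∀ z, ‖C.N.symm z‖ ≤ 3 * ‖z‖ := fun z => (h.nN z).2.1
  have nI1 : ∀ z, ‖idE z‖ ≤ aK * ‖z‖ := fun z =>
    le_mul_of_one_le_left (norm_nonneg z) (by linarith)
  have nI2 : ∀ z, ‖idE.symm z‖ ≤ 3 * ‖z‖ := fun z =>
    le_mul_of_one_le_left (norm_nonneg z) (by norm_num)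
  obtain ⟨oO, OB, lO, -⟩ := h.O_prop
  obtain ⟨cW, WO, lW, iW, -⟩ := h.WI_prop
  obtain ⟨KS, cS, wS, hS, sh⟩ := hK.2 C.N h.int
  obtain ⟨K0, c0⟩ := exists_dy C.n0
  obtain ⟨K1, c1⟩ := KS.exists_aff idE C.o h0
  obtain ⟨KL, cL⟩ := exists_lat C.N C.o h0
  obtain ⟨KF, cF⟩ := exists_dy (C.ns - 4)
  replace c1 : ∀ x, K1.cell x = (fun y => C.o + C.h • y) '' KS.cell (C.h⁻¹ • (x - C.o)) := c1
  replace cL : ∀ x, KL.cell x = C.lc x := cL
  have d1 : ∀ x, K1.cell x ⊆ kbC C.n0 x := fun x => by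
    rw [c1]
    exact (image_mono ((hS _).trans inter_subset_left)).trans (KLoc_dy ho)
  have d2 : ∀ x, K1.cell x ⊆ C.lc x := fun x => by
    rw [c1]
    exact (image_mono ((hS _).trans inter_subset_right)).trans (KLoc_lc h0)
  have dB : ∀ x ∈ closedBall C.o (C.η - C.h), kbC C.n0 x ⊆ closedBall C.o (C.η - C.h) :=
    fun x hx => KLoc_cb ho hR' (by linarith) hx
  have OB' : C.O ⊆ closedBall C.o (C.η - C.h) := OB.trans ball_subset_closedBall
  have fW : ∀ x ∈ C.WI, kbC (C.ns - 4) x ⊆ C.lc x := fun x hx => by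
    obtain ⟨z, -, hz⟩ := hx
    exact (iW z x hz).2
  obtain ⟨K2, a2, b2⟩ := K0.patchF K1 (W := closedBall C.o (C.η - C.h)) (subset_univ _)
    isClosed_closedBall (fun x hx => c0 x ▸ dB x hx) (fun x _ => c0 x ▸ d1 x)
  obtain ⟨K3, a3, b3⟩ := K2.patchC KL (O := C.O) (subset_univ _) oO (fun x hx => cL x ▸ lO x hx)
    (fun x hx => by
      rw [a2 x (closure_minimal OB' isClosed_closedBall hx), cL]
      exact d2 x)
  obtain ⟨K, a4, b4⟩ := K3.patchF KF (W := C.WI) (subset_univ _) cW.isClosed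
    (fun x hx => by
      rw [a3 x (WO hx), cL]
      exact lW x hx)
    (fun x hx => by
      rw [a3 x (WO hx), cL, cF]
      exact fW x hx)
  have ca : ∀ x ∈ C.WI, K.cell x = kbC (C.ns - 4) x := fun x hx => (a4 x hx).trans (cF x)
  have cb : ∀ x ∈ C.O, x ∉ C.WI → K.cell x = C.lc x := fun x hx hn =>
    (b4 x trivial hn).trans ((a3 x hx).trans (cL x))
  have cc : ∀ x ∈ closedBall C.o (C.η - C.h), x ∉ C.O → K.cell x = K1.cell x := fun x hx hn =>
    (b4 x trivial fun k => hn (WO k)).trans ((b3 x trivial hn).trans (a2 x hx))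
  have cd : ∀ x, x ∉ closedBall C.o (C.η - C.h) → K.cell x = kbC C.n0 x := fun x hn =>
    (b4 x trivial fun k => hn (OB' (WO k))).trans
      ((b3 x trivial fun k => hn (OB' k)).trans ((b2 x trivial hn).trans (c0 x)))
  have sL : ∀ x ∈ closedBall C.o (C.η - C.h), K.cell x ⊆ C.lc x := fun x hx => by
    by_cases h1 : x ∈ C.WI
    · exact ca x h1 ▸ fW x h1
    by_cases h2 : x ∈ C.O
    · exact (cb x h2 h1).le
    · exact cc x hx h2 ▸ d2 x
  have sO : ∀ x ∈ C.O, K.cell x ⊆ C.O := fun x hx => (sL x (OB' hx)).trans (lO x hx)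
  have sW : ∀ x ∈ C.WI, K.cell x ⊆ C.WI := fun x hx => (sL x (OB' (WO hx))).trans (lW x hx)
  have sB : ∀ x ∈ closedBall C.o (C.η - C.h), K.cell x ⊆ closedBall C.o (C.η - C.h) :=
    fun x hx => by
      by_cases h2 : x ∈ C.O
      · exact (sO x h2).trans OB'
      · exact cc x hx h2 ▸ (d1 x).trans (dB x hx)
  have chart : ∀ F : Set (Rn 3), ∃ (k : Ch) (w : ℝ), F ∈ K.cel 2 →
      (k.Of F ∧ k.Shp w ∧ k.Bi idE aK) ∧
      (F ⊆ C.WI → k.U = sqr (16 * C.s) ∧ w = 16 * C.s ∧ k.Bi idE 1 ∧ k.Bi C.N 1) ∧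
      (F ⊆ C.O → ¬ F ⊆ C.WI → k.U = sqr C.h ∧ k.Bi C.N 1) ∧
      (¬ F ⊆ closedBall C.o (C.η - C.h) → k.Bi idE 1) := by
    intro F
    by_cases hF : F ∈ K.cel 2
    swap
    · exact ⟨cS F, 0, fun k => absurd k hF⟩
    obtain ⟨⟨x, -, rfl⟩, hd⟩ := hF
    have hx := K.mem x trivial
    by_cases h1 : x ∈ C.WI
    · have e : K.cell x = BEp.lc idE 0 (16 * C.s) x := by rw [ca x h1, kbC_lc, hs]
      obtain ⟨k, k1, k2, k3, -⟩ := lc_face (by positivity : 0 < 16 * C.s) (e ▸ hd)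
      rw [← e] at k1
      refine ⟨k, 16 * C.s, fun _ => ⟨⟨k1, ⟨by positivity, .inl k2⟩,
        KLoc_bi k3 (by linarith) nI1 nI2⟩, fun _ => ⟨k2, rfl, k3, fun ξ => ?_⟩,
        fun _ g => absurd (sW x h1) g, fun _ => k3⟩⟩
      obtain ⟨z, -, hz⟩ := h1
      have g1 : K.cell x ⊆ C.icl z := by
        rw [e, hs, ← kbC_lc]
        exact (iW z x hz).2.trans (iW z x hz).1
      have g2 : prL C.I (k.M ξ) = k.M ξ := by
        funext i
        by_cases hi : i ∈ C.I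
        · simp [prL, hi]
        · rw [KLoc_flat k1 ⟨x, hx⟩ (fun y hy => (h.mem_icl.1 (g1 hy)).1 i hi) ξ]
          simp [prL, hi]
      have g3 := (h.nN (k.M ξ)).2.2.2.1
      rw [g2] at g3
      rw [g3]
      exact k3 ξ
    by_cases h2 : x ∈ C.O
    · have e : K.cell x = BEp.lc C.N C.o C.h x := cb x h2 h1
      obtain ⟨k, k1, k2, k3, -⟩ := lc_face h0 (e ▸ hd)
      rw [← e] at k1
      exact ⟨k, C.h, fun _ => ⟨⟨k1, ⟨h0, .inl k2⟩, KLoc_bi k3 (by linarith) nN1 nN2⟩,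
        fun g => absurd (g hx) h1, fun _ _ => ⟨k2, k3⟩,
        fun g => absurd ((sO x h2).trans OB') g⟩⟩
    by_cases h3 : x ∈ closedBall C.o (C.η - C.h)
    · have e := (cc x h3 h2).trans (c1 x)
      have hd' := hd
      rw [e, KLoc_dm _ h0] at hd'
      obtain ⟨g1, g2, g3⟩ := sh.face _ ⟨KS.cell_mem trivial, hd'⟩
      obtain ⟨k, k1, k2, k3⟩ := Ch.exists_aff _ g1 g2 g3 C.o h0
      rw [← e] at k1
      exact ⟨k, _, fun _ => ⟨⟨k1, k2, k3⟩, fun g => absurd (g hx) h1, fun g => absurd (g hx) h2,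
        fun g => absurd (sB x h3) g⟩⟩
    · have e : K.cell x = BEp.lc idE 0 C.h x := by
        rw [cd x h3, kbC_lc]
        rfl
      obtain ⟨k, k1, k2, k3, -⟩ := lc_face h0 (e ▸ hd)
      rw [← e] at k1
      exact ⟨k, C.h, fun _ => ⟨⟨k1, ⟨h0, .inl k2⟩, KLoc_bi k3 (by linarith) nI1 nI2⟩,
        fun g => absurd (g hx) h1, fun g => absurd (g hx) h2, fun _ => k3⟩⟩
  choose ch w hch using chart
  refine ⟨K, ch, w, ⟨isOpen_univ, subset_univ _, fun x hx => ?_, fun x hx => ?_, ca, cb, ?_,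
    fun F hF _ => (hch F hF).1, fun F hF => (hch F hF).2.1, fun F hF => (hch F hF).2.2.1⟩,
    cd, sB, fun x => closure_minimal ?_ isClosed_closedBall, fun F hF _ => (hch F hF).2.2.2⟩
  · by_cases h3 : x ∈ closedBall C.o (C.η - C.h)
    · exact (sB x h3).trans (closedBall_subset_closedBall (by linarith))
    · exact cd x h3 ▸ KLoc_cb ho hR η0.le hx
  · by_cases h3 : x ∈ closedBall C.o (C.η - C.h)
    · exact (sB x h3).trans (closedBall_subset_ball (by linarith))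
    · exact cd x h3 ▸ KLoc_ob ho hR η0 hx
  · rintro _ ⟨⟨x, -, rfl⟩, hd⟩ - hn
    have h1 : x ∉ C.WI := fun k => hn (sW x k)
    by_cases h2 : x ∈ C.O
    · have e : K.cell x = BEp.lc C.N C.o C.h x := cb x h2 h1
      rw [e] at hd ⊢
      exact KLoc_lin (lc_cbe h0 hd) h0.le (by linarith) nN1 nN2
    by_cases h3 : x ∈ closedBall C.o (C.η - C.h)
    · have e := (cc x h3 h2).trans (c1 x)
      rw [e, KLoc_dm _ h0] at hd
      have g := (sh.top _ ⟨KS.cell_mem trivial, hd⟩).aff C.o h0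
      rwa [mul_one, ← e] at g
    · have e : K.cell x = BEp.lc idE 0 C.h x := by
        rw [cd x h3, kbC_lc]
        rfl
      rw [e] at hd ⊢
      exact KLoc_lin (lc_cbe h0 hd) h0.le (by linarith) nI1 nI2
  · by_cases h3 : x ∈ closedBall C.o (C.η - C.h)
    · obtain ⟨z, hz⟩ := C.exists_bx x
      obtain ⟨-, -, -, g1, -, g2, -⟩ := h.bx_prop z
      intro y hy
      rw [mem_closedBall, dist_eq_norm]
      exact g2 y (g1 x hz (sL x h3 hy)) x hz
    · rw [cd x h3, ← closure_eq_iff_isClosed.2 (isClosed_closedBall (x := x))]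
      refine subset_closure.trans (closure_mono ?_)
      intro y hy
      have g : y ∈ closedBall x C.h := kbT_sub (kbB_sub (kbC_closure ▸ subset_closure hy))
      exact closedBall_subset_closedBall (by linarith) g

end BEp
end
end

-- merged part: Pool.Agent.Work.MP_f0515e_an.P3.KWh
section
/-! Whitney complex of dyadic cells with prescribed level on a compact set. Copy the proof of
`exists_kx` (D3/KBase) with the level taken as the least admissible `n ≥ n0`; for `n0` large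
the level `n0` is admissible at all points of `S` (compactness). -/

open Set Metric Filter Topology Function BEv MeasureTheory
open scoped NNReal ENNReal

noncomputable section
namespace BEp

theorem exists_kxw {Ω : Set (Rn 3)} (hΩ : IsOpen Ω) {δ : Rn 3 → ℝ} (hδ : ContinuousOn δ Ω)
    (h0 : ∀ x ∈ Ω, 0 < δ x) {S : Set (Rn 3)} (hS : IsCompact S) (hs : S ⊆ Ω) :
    ∃ n1 : ℕ, ∀ n0, n1 ≤ n0 → ∃ (K : Kx Ω) (lev : Rn 3 → ℕ),
      (∀ x ∈ Ω, K.cell x = kbC (lev x) x ∧ closure (K.cell x) ⊆ ball x (δ x)) ∧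
      ∀ x ∈ S, lev x = n0 := by
  obtain ⟨ρ, hρ, hK⟩ := hS.exists_cthickening_subset_open hΩ hs
  obtain ⟨μ, hμ, hm⟩ := (hS.cthickening (r := ρ)).exists_forall_le' (hδ.mono hK)
    fun x hx => h0 x (hK hx)
  obtain ⟨n1, hn1⟩ := exists_pow_lt_of_lt_one (lt_min hρ hμ) one_half_lt_one
  refine ⟨n1, fun n0 hn0 => ?_⟩
  have anti : ∀ {a b : ℕ}, a ≤ b → (1 : ℝ) / 2 ^ b ≤ 1 / 2 ^ a := fun h =>
    one_div_le_one_div_of_le (by positivity) (pow_le_pow_right₀ one_le_two h)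
  rw [one_div_pow, lt_min_iff] at hn1
  let U : ℕ → Set (Rn 3) := fun n => {x | ∀ y ∈ kbT n x, n0 ≤ n ∧ y ∈ Ω ∧ 1 / 2 ^ n < δ y}
  have sf : ∀ {n x}, x ∈ kbT n x := kbB_sub (kbC_closure ▸ subset_closure kbC_self)
  have uo : ∀ n, IsOpen (U n) := fun n => isOpen_iff_mem_nhds.2 fun x hx =>
    (kbT_near n x).mono fun y hy z hz => hx z (hy hz)
  have uc : ∀ {n x y}, y ∈ kbC n x → (y ∈ U n ↔ x ∈ U n) := fun h => by
    simp only [U, mem_ofPred_eq, kbT_eq h]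
  have un : ∀ x ∈ Ω, {n | x ∈ U n}.Nonempty := fun x hx => by
    obtain ⟨r, hr, H⟩ := nhds_basis_closedBall.eventually_iff.1 ((hΩ.eventually_mem hx).and
      ((hδ.continuousAt (hΩ.mem_nhds hx)).eventually (lt_mem_nhds (half_lt_self (h0 x hx)))))
    obtain ⟨n, hn⟩ := exists_pow_lt_of_lt_one (lt_min hr (half_pos (h0 x hx))) one_half_lt_one
    rw [one_div_pow, lt_min_iff] at hn
    have k := anti (le_max_left n n0)
    exact ⟨max n n0, fun y hy => ⟨le_max_right _ _, (H (closedBall_subset_closedBall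
      (k.trans hn.1.le) (kbT_sub hy))).imp_right (k.trans_lt hn.2).trans⟩⟩
  let lv : Rn 3 → ℕ := fun x => sInf {n | x ∈ U n}
  have l1 : ∀ x ∈ Ω, x ∈ U (lv x) := fun x hx => Nat.sInf_mem (un x hx)
  have l2 : ∀ {x n}, x ∈ U n → lv x ≤ n := fun h => Nat.sInf_le h
  have sub : ∀ x ∈ Ω, closure (kbC (lv x) x) ⊆ Ω := fun x hx y hy =>
    (l1 x hx y (kbB_sub (kbC_closure ▸ hy))).2.1
  have l3 : ∀ x ∈ Ω, ∀ y ∈ kbC (lv x) x, lv y = lv x := fun x hx y hy =>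
    have k := l2 ((uc hy).2 (l1 x hx))
    le_antisymm k (l2 ((uc (kbC_anti k hy)).1 (l1 y (sub x hx (subset_closure hy)))))
  refine ⟨⟨fun x => kbC (lv x) x, fun _ _ => kbC_self, fun x hx y hy => ?_, sub,
    fun _ _ => kbC_convex, fun _ _ _ hy _ hz => kbC_opn hy hz,
    fun _ _ => kbC_closure ▸ kbB_poly, fun x hx y hy => ?_, fun C hC hs => ?_⟩, lv,
    fun x hx => ⟨rfl, fun y hy => ?_⟩, fun x hx => ?_⟩
  · rw [l3 x hx y hy, kbC_eq hy]
  · obtain ⟨z, h1, h2⟩ := mem_closure_iff.1 hy _ (uo _) (l1 y (sub x hx hy))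
    rw [kbC_closure] at hy ⊢
    exact (kbC_anti (l3 x hx z h2 ▸ l2 h1)).trans (kbC_sub hy)
  · obtain ⟨t, ht⟩ := hC.elim_finite_subcover U uo fun x hx => mem_iUnion.2 (un x (hs hx))
    refine ((finite_Iic (t.sup id)).biUnion fun n _ => kbC_finite n hC).subset ?_
    rintro _ ⟨x, hx, rfl⟩
    obtain ⟨n, hn, h⟩ := mem_iUnion₂.1 (ht hx)
    exact mem_biUnion ((l2 h).trans (Finset.le_sup (f := id) hn)) ⟨x, hx, rfl⟩
  · exact closedBall_subset_ball (l1 x hx x sf).2.2 (kbT_sub (kbB_sub (kbC_closure ▸ hy)))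
  · refine le_antisymm (l2 fun y hy => ?_) (l1 x (hs hx) x sf).1
    have k := anti hn0
    have k1 : y ∈ cthickening ρ S := closedBall_subset_cthickening hx ρ
      (closedBall_subset_closedBall (k.trans hn1.1.le) (kbT_sub hy))
    exact ⟨le_rfl, hK k1, (k.trans_lt hn1.2).trans_le (hm y k1)⟩

end BEp
end
end

-- merged part: Pool.Agent.Work.MP_f0515e_an.P3.KFit
section
/-! The global complex: `exists_kxw`, then `Kx.patch` with `W q` = closed ball of radius `η - h`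
and the local models; off these balls the local model and the Whitney complex agree on the cube.
The chart of a face in some `W q` is that of the local model, otherwise the face is a dyadic
square with the chart of `lc_face` (then `Bi idE 1`, and it is not in `O`). -/

open Set Metric Filter Topology Function BEv MeasureTheory
open scoped NNReal ENNReal

noncomputable section
namespace BEp

theorem KFit_face {n : ℕ} {x : Rn 3} (hd : dm (kbC n x) = 2) :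
    ∃ (k : Ch) (w : ℝ), k.Of (kbC n x) ∧ k.Shp w ∧ k.Bi idE 1 := by
  rw [kbC_lc] at hd ⊢
  have p : (0 : ℝ) < 1 / 2 ^ n := by positivity
  obtain ⟨k, a1, a2, a3, -⟩ := lc_face p hd
  exact ⟨k, _, a1, ⟨p, Or.inl a2⟩, a3⟩

theorem KFit_top {n : ℕ} {x : Rn 3} (hd : dm (kbC n x) = 3) :
    ∃ l : ℝ, 0 < l ∧ Cbe (kbC n x) 1 l := by
  rw [kbC_lc] at hd ⊢
  have p : (0 : ℝ) < 1 / 2 ^ n := by positivity
  exact ⟨_, half_pos p, lc_cbe p hd⟩

theorem exists_gfit {Ω : Set (Rn 3)} (hΩ : IsOpen Ω) {δ : Rn 3 → ℝ} (hδ : ContinuousOn δ Ω)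
    (h0 : ∀ x ∈ Ω, 0 < δ x) {S : Set (Rn 3)} (hS : IsCompact S) (hs : S ⊆ Ω) :
    ∃ n1 : ℕ, ∀ (ι : Type) [Finite ι] (C : ι → Cu) (P : Pr) (aK : ℝ), ShK P.b aK → n1 ≤ P.n0 →
      (∀ q, (C q).toPr = P) → (∀ q, (C q).Ok aK) →
      (∀ q q', q ≠ q' → Disjoint (ball (C q).o (C q).η) (C q').q) → (∀ q, (C q).q ⊆ S) →
      (∀ x ∈ S, 3 * P.b * P.h < δ x) → ∃ (K : Kx Ω) (ch : Set (Rn 3) → Ch) (w lam : Set (Rn 3) → ℝ),
        GFit C P aK K ch w lam ∧ ∀ x ∈ Ω, closure (K.cell x) ⊆ ball x (δ x) := by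
  obtain ⟨n1, hn1⟩ := exists_kxw hΩ hδ h0 hS hs
  refine ⟨n1, fun ι _ C P aK hK hn hP hok hfar hq hsm => ?_⟩
  obtain ⟨K0, lev, k1, k2⟩ := hn1 P.n0 hn
  choose L ch0 w0 fit l1 l2 l3 l4 using fun q =>
    Cu.exists_loc (hok q) (by rw [hP q]; exact hK)
  have hp : ∀ q, 0 < (C q).h := fun q => (hok q).pos.2.1
  have wb : ∀ q, closedBall (C q).o ((C q).η - (C q).h) ⊆ ball (C q).o (C q).η := fun q =>
    closedBall_subset_ball (sub_lt_self _ (hp q))
  have bq : ∀ q, ball (C q).o (C q).η ⊆ (C q).q := fun q => ball_subset_closedBall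
  have qΩ : ∀ q, (C q).q ⊆ Ω := fun q => (hq q).trans hs
  have ob : ∀ q, (C q).O ⊆ ball (C q).o (C q).η := fun q =>
    (hok q).O_prop.2.1.trans (ball_subset_closedBall.trans (wb q))
  have e0 : ∀ q, ∀ x ∈ (C q).q, K0.cell x = kbC (C q).n0 x := fun q x hx => by
    rw [(k1 x (qΩ q hx)).1, k2 x (hq q hx), hP q]
  have e1 : ∀ q, ∀ x ∈ (C q).q, x ∉ closedBall (C q).o ((C q).η - (C q).h) →
      K0.cell x = (L q).cell x := fun q x hx hn => by rw [e0 q x hx, l1 q x hn]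
  have cw : ∀ q, ∀ x ∈ closedBall (C q).o ((C q).η - (C q).h),
      closure ((L q).cell x) ⊆ closedBall (C q).o ((C q).η - (C q).h) := fun q x hx =>
    closure_minimal (l2 q x hx) isClosed_closedBall
  have dj : ∀ q, ∀ x ∈ Ω, x ∉ closedBall (C q).o ((C q).η - (C q).h) →
      Disjoint (K0.cell x) (closedBall (C q).o ((C q).η - (C q).h)) := fun q x hx hn =>
    Set.disjoint_left.2 fun y hy hw => by
      have a1 : x ∈ kbC (C q).n0 y := by
        rw [← e0 q y (bq q (wb q hw)), K0.eqv x hx y hy]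
        exact K0.mem x hx
      have a2 : y ∈ (L q).cell x := by
        rw [l1 q x hn, kbC_eq a1]
        exact kbC_self
      refine hn (l2 q y hw ?_)
      rw [(L q).eqv x trivial y a2]
      exact (L q).mem x trivial
  obtain ⟨K, A, B⟩ := K0.patch (fun q => closedBall (C q).o ((C q).η - (C q).h)) L
    (fun q => ((wb q).trans (bq q)).trans (qΩ q))
    (fun q q' h => (hfar q q' h).mono (wb q) ((wb q').trans (bq q')))
    (fun q x hx => ⟨(cw q x hx).trans (((wb q).trans (bq q)).trans (qΩ q)), l2 q x hx⟩) dj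
    (fun q x hx y hy hn => absurd (cw q x hx hy) hn)
    (fun x hx hn q y hy => by
      obtain ⟨z, z1, z2⟩ := mem_closure_iff.1 hy.1 _ isOpen_ball (wb q hy.2)
      have e : K0.cell x = (L q).cell z := by
        rw [← K0.eqv x hx z z2]
        exact e1 q z (bq q z1) (Set.disjoint_left.1 (dj q x hx (hn q)) z2)
      rw [e]
      exact (L q).fr z trivial y (e ▸ hy.1))
  have eq : ∀ q, ∀ x ∈ (C q).q, K.cell x = (L q).cell x := fun q x hx => by
    by_cases h : x ∈ closedBall (C q).o ((C q).η - (C q).h)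
    · exact A q x h
    · rw [← e1 q x hx h]
      refine B x (qΩ q hx) fun q' k => ?_
      rcases eq_or_ne q' q with rfl | hne
      · exact h k
      · exact Set.disjoint_left.1 (hfar q' q hne) (wb q' k) hx
  have cq : ∀ q, ∀ x ∈ (C q).q, K.cell x ⊆ (C q).q := fun q x hx => by
    rw [eq q x hx]
    exact (fit q).cq x hx
  have cs : ∀ q, ∀ σ ∈ K.cells, (σ ∩ (C q).q).Nonempty → σ ⊆ (C q).q :=
    fun q σ hσ ⟨x, a1, a2⟩ => Kx.cell_eq hσ a1 ▸ cq q x a2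
  have cel : ∀ q d, ∀ σ ∈ K.cel d, σ ⊆ (C q).q → σ ∈ (L q).cel d := fun q d σ hσ h => by
    obtain ⟨x, hx⟩ := Kx.cells_ne hσ.1
    exact ⟨⟨x, trivial, by rw [← eq q x (h hx), Kx.cell_eq hσ.1 hx]⟩, hσ.2⟩
  have out : ∀ σ ∈ K.cells, (∀ q, ¬ σ ⊆ (C q).q) → ∃ n x, σ = kbC n x := fun σ hσ h => by
    obtain ⟨x, hx⟩ := Kx.cells_ne hσ
    have hx' := Kx.cells_sub hσ hx
    refine ⟨lev x, x, ?_⟩
    rw [← Kx.cell_eq hσ hx, B x hx' fun q k => h q (cs q σ hσ ⟨x, hx, bq q (wb q k)⟩), (k1 x hx').1]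
  have hc : ∀ F, ∃ (k : Ch) (w : ℝ), F ∈ K.cel 2 → (k.Of F ∧ k.Shp w) ∧
      (∀ q, F ⊆ (C q).q → k.Bi idE aK) ∧
      (∀ q, F ⊆ ball (C q).o (C q).η → k = ch0 q F ∧ w = w0 q F) ∧
      ((∀ q, ¬ F ⊆ closedBall (C q).o ((C q).η - (C q).h)) → k.Bi idE 1) := fun F => by
    by_cases hF : F ∈ K.cel 2
    · by_cases h : ∃ q, F ⊆ (C q).q
      · obtain ⟨q, h⟩ := h
        have a := (fit q).face F (cel q 2 F hF h) h
        refine ⟨ch0 q F, w0 q F, fun _ => ⟨⟨a.1, a.2.1⟩, fun _ _ => a.2.2, fun q' k => ?_,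
          fun k => l4 q F (cel q 2 F hF h) h (k q)⟩⟩
        rcases eq_or_ne q' q with rfl | hne
        · exact ⟨rfl, rfl⟩
        · obtain ⟨x, hx⟩ := Kx.cells_ne hF.1
          exact absurd (h hx) (Set.disjoint_left.1 (hfar q' q hne) (k hx))
      · obtain ⟨n, x, e⟩ := out F hF.1 (not_exists.1 h)
        obtain ⟨k, w, a1, a2, a3⟩ := KFit_face (n := n) (x := x) (e ▸ hF.2)
        exact ⟨k, w, fun _ => ⟨⟨e ▸ a1, a2⟩, fun q b => absurd ⟨q, b⟩ h,
          fun q b => absurd ⟨q, b.trans (bq q)⟩ h, fun _ => a3⟩⟩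
    · exact ⟨⟨0, 0, ∅⟩, 0, fun h => absurd h hF⟩
  have hl : ∀ σ, ∃ l : ℝ, σ ∈ K.cel 3 → (∀ q, ¬ σ ⊆ (C q).q) → 0 < l ∧ Cbe σ 1 l := fun σ => by
    by_cases h : σ ∈ K.cel 3 ∧ ∀ q, ¬ σ ⊆ (C q).q
    · obtain ⟨n, x, e⟩ := out σ h.1.1 h.2
      obtain ⟨l, a⟩ := KFit_top (n := n) (x := x) (e ▸ h.1.2)
      exact ⟨l, fun _ _ => e ▸ a⟩
    · exact ⟨0, fun a b => absurd ⟨a, b⟩ h⟩
  choose ch w hc using hc
  choose lam hl using hl
  refine ⟨K, ch, w, lam, ⟨hΩ, hP, hok, hfar, fun q => ⟨hΩ, qΩ q, cq q, fun x hx => ?_,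
    fun x hx => ?_, fun x hx hn => ?_, fun σ hσ h => (fit q).top σ (cel q 3 σ hσ h) h,
    fun F hF h => ⟨(hc F hF).1.1, (hc F hF).1.2, (hc F hF).2.1 q h⟩, fun F hF h => ?_,
    fun F hF h h' => ?_⟩, fun F hF => (hc F hF).1, fun σ hσ h => ⟨(hl σ hσ h).1, (hl σ hσ h).2,
    fun F hF => (hc F hF.1).2.2.2 fun q k => ?_⟩⟩, fun x hx => ?_⟩
  · rw [eq q x (bq q hx)]
    exact (fit q).cb x hx
  · rw [eq q x (bq q (ob q ((hok q).WI_prop.2.1 hx)))]
    exact (fit q).fine x hx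
  · rw [eq q x (bq q (ob q hx))]
    exact (fit q).long x hx hn
  · have a := h.trans ((hok q).WI_prop.2.1.trans (ob q))
    rw [((hc F hF).2.2.1 q a).1, ((hc F hF).2.2.1 q a).2]
    exact (fit q).ff F (cel q 2 F hF (a.trans (bq q))) h
  · have a := h.trans (ob q)
    rw [((hc F hF).2.2.1 q a).1]
    exact (fit q).fl F (cel q 2 F hF (a.trans (bq q))) h h'
  · obtain ⟨x, hx⟩ := Kx.cells_ne hF.1.1
    obtain ⟨z, z1, z2⟩ := mem_closure_iff.1 (hF.2 hx) _ isOpen_ball (wb q (k hx))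
    exact h q (cs q σ hσ.1 ⟨z, z2, bq q z1⟩)
  · by_cases h : ∃ q, x ∈ closedBall (C q).o ((C q).η - (C q).h)
    · obtain ⟨q, h⟩ := h
      rw [A q x h]
      refine (l3 q x).trans (closedBall_subset_ball ?_)
      rw [hP q]
      exact hsm x (hq q (bq q (wb q h)))
    · rw [B x hx (not_exists.1 h)]
      exact (k1 x hx).2

end BEp
end
end

-- merged part: Pool.Agent.Work.MP_f0515e_an.P3.Sel3
section
/-! Selection of solids, `I = univ`, `N = 1`. For every admissible tile put in `ν` the measures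
`c t0 area` on the squares of side `t0` which are the sections of the tile by the planes of the
fine grid, and `c t0^3` times the average on every fine edge of the tile. A tile is kept if
`A ≠ 0` and all these averages of `‖D - A‖^p` are small. `morrey2` on each square; a point of the two
skeleton lies in such a square, which meets a square through the centre. Chebyshev. -/

open Set Metric Filter Topology Function BEv MeasureTheory
open scoped NNReal ENNReal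

noncomputable section
namespace BEp

theorem Sel3_emb (j : Fin 3) : ∃ M : Rn 2 →L[ℝ] Rn 3, (∀ ξ, M ξ j = 0 ∧ ‖M ξ‖ ≤ ‖ξ‖) ∧
    ∀ y : Rn 3, y j = 0 → ∃ ξ, M ξ = y ∧ ‖ξ‖ ≤ ‖y‖ := by
  let L : Rn 2 →ₗ[ℝ] Rn 3 :=
    { toFun := fun ξ => j.insertNth 0 ξ
      map_add' := fun ξ ξ' => by
        funext i
        refine j.succAboveCases ?_ (fun l => ?_) i <;> simp
      map_smul' := fun c ξ => by
        funext i
        refine j.succAboveCases ?_ (fun l => ?_) i <;> simp }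
  have e : ∀ ξ, LinearMap.toContinuousLinearMap L ξ = j.insertNth 0 ξ := fun _ => rfl
  refine ⟨LinearMap.toContinuousLinearMap L, fun ξ => ⟨?_, ?_⟩,
    fun y hy => ⟨fun l => y (j.succAbove l), ?_, ?_⟩⟩
  · rw [e, Fin.insertNth_apply_same]
  · rw [e]
    refine (pi_norm_le_iff_of_nonneg (norm_nonneg _)).2 fun i => ?_
    refine j.succAboveCases ?_ (fun l => ?_) i
    · rw [Fin.insertNth_apply_same, norm_zero]
      exact norm_nonneg _
    · rw [Fin.insertNth_apply_succAbove]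
      exact norm_le_pi_norm ξ l
  · rw [e]
    funext i
    refine j.succAboveCases ?_ (fun l => ?_) i
    · rw [Fin.insertNth_apply_same, hy]
    · rw [Fin.insertNth_apply_succAbove]
  · exact (pi_norm_le_iff_of_nonneg (norm_nonneg _)).2 fun l => norm_le_pi_norm y _

theorem Sel3_cheb {ι κ : Type} {S : Set ι} (hS : S.Finite) (J : Finset κ)
    (μ : ι → κ → Measure (Rn 3)) {δ tv B : ℝ≥0∞} (h0 : δ ≠ 0) (h1 : δ ≠ ⊤) (h2 : tv ≠ 0)
    {q : Set (Rn 3)} (hq : ∀ u ∈ S, ∀ j ∈ J, μ u j qᶜ = 0)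
    (hB : ∀ u ∈ S, ∀ j ∈ J, μ u j univ ≤ B) :
    ∃ ν : Measure (Rn 3), ν qᶜ = 0 ∧ ν univ ≤ δ⁻¹ * J.card * B * (S.encard * tv) ∧
      (∀ φ : Rn 3 → ℝ≥0∞, ∫⁻ y, φ y ∂ν ≠ ⊤ → ∀ u ∈ S, ∀ j ∈ J, ∫⁻ y, φ y ∂μ u j ≠ ⊤) ∧
      ∀ φ : Rn 3 → ℝ≥0∞, ((S \ {u | ∀ j ∈ J, ∫⁻ y, φ y ∂μ u j ≤ δ}).encard : ℝ≥0∞) * tv ≤
        ∫⁻ y, φ y ∂ν := by
  classical
  lift S to Finset ι using hS
  have e : ∀ φ : Rn 3 → ℝ≥0∞, ∫⁻ y, φ y ∂(∑ u ∈ S, ∑ j ∈ J, (δ⁻¹ * tv) • μ u j) =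
      ∑ u ∈ S, ∑ j ∈ J, δ⁻¹ * tv * ∫⁻ y, φ y ∂μ u j := fun φ => by
    simp only [lintegral_finsetSum_measure, lintegral_smul_measure, smul_eq_mul]
  refine ⟨∑ u ∈ S, ∑ j ∈ J, (δ⁻¹ * tv) • μ u j, ?_, ?_, fun φ hφ u hu j hj => ?_, fun φ => ?_⟩
  · simp only [Measure.finsetSum_apply, Measure.smul_apply, smul_eq_mul]
    exact Finset.sum_eq_zero fun u hu => Finset.sum_eq_zero fun j hj => by
      rw [hq u hu j hj, mul_zero]
  · simp only [Measure.finsetSum_apply, Measure.smul_apply, smul_eq_mul]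
    refine (Finset.sum_le_sum fun u hu => Finset.sum_le_sum fun j hj =>
      mul_le_mul' (le_refl (δ⁻¹ * tv)) (hB u hu j hj)).trans_eq ?_
    rw [encard_coe_eq_coe_finsetCard, ENat.toENNReal_coe]
    simp only [Finset.sum_const, nsmul_eq_mul]
    ring
  · rw [e] at hφ
    have h3 := ENNReal.sum_ne_top.1 (ENNReal.sum_ne_top.1 hφ u hu) j hj
    intro h4
    rw [h4, ENNReal.mul_top (mul_ne_zero (ENNReal.inv_ne_zero.2 h1) h2)] at h3
    exact h3 rfl
  · have e2 : (S : Set ι) \ {u | ∀ j ∈ J, ∫⁻ y, φ y ∂μ u j ≤ δ} =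
        (S.filter fun u => ¬ ∀ j ∈ J, ∫⁻ y, φ y ∂μ u j ≤ δ : Finset ι) := by
      ext u
      simp only [Set.mem_sdiff, Finset.mem_coe, mem_ofPred_eq, Finset.mem_filter]
    rw [e, e2, encard_coe_eq_coe_finsetCard, ENat.toENNReal_coe, ← nsmul_eq_mul]
    refine (Finset.card_nsmul_le_sum _ (fun u => ∑ j ∈ J, δ⁻¹ * tv * ∫⁻ y, φ y ∂μ u j) _
      fun u hu => ?_).trans (Finset.sum_le_sum_of_subset (Finset.filter_subset _ _))
    obtain ⟨j, hj⟩ := not_forall.1 (Finset.mem_filter.1 hu).2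
    obtain ⟨hj, h3⟩ := Classical.not_imp.1 hj
    refine le_trans ?_ (Finset.single_le_sum
      (f := fun j => δ⁻¹ * tv * ∫⁻ y, φ y ∂μ u j) (fun _ _ => zero_le) hj)
    refine le_trans (le_of_eq ?_) (mul_le_mul' (le_refl (δ⁻¹ * tv)) (not_le.1 h3).le)
    rw [mul_right_comm, ENNReal.inv_mul_cancel h0 h1, one_mul]

theorem Sel3_cnt {ι : Type} {S : Set ι} (hS : S.Finite) (c : ι → Rn 3) {R η : ℝ} (hR : 0 < R)
    (hη : 0 ≤ η) (o : Rn 3) (h1 : ∀ u ∈ S, ball (c u) R ⊆ closedBall o η)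
    (h2 : ∀ u ∈ S, ∀ u' ∈ S, u ≠ u' → 2 * R ≤ ‖c u - c u'‖) :
    (S.encard : ℝ≥0∞) * ENNReal.ofReal ((2 * R) ^ 3) ≤ 8 * ENNReal.ofReal (η ^ 3) := by
  lift S to Finset ι using hS
  have h3 : volume (⋃ u ∈ S, ball (c u) R) = ∑ u ∈ S, volume (ball (c u) R) :=
    measure_biUnion_finset (fun u hu u' hu' hn => ball_disjoint_ball (by
      rw [dist_eq_norm]
      linarith [h2 u hu u' hu' hn])) fun _ _ => measurableSet_ball
  have h4 : volume (⋃ u ∈ S, ball (c u) R) ≤ volume (closedBall o η) :=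
    measure_mono (iUnion₂_subset h1)
  rw [h3, Real.volume_pi_closedBall o hη] at h4
  simp only [Real.volume_pi_ball _ hR, Finset.sum_const, nsmul_eq_mul, Fintype.card_fin] at h4
  rw [encard_coe_eq_coe_finsetCard, ENat.toENNReal_coe]
  refine h4.trans_eq ?_
  rw [mul_pow, ENNReal.ofReal_mul (by norm_num)]
  norm_num

theorem Sel3_plane {p : ℝ} (hp : 2 < p) : ∃ CM : ℝ≥0∞, CM ≠ ⊤ ∧ ∀ (S : Set (Rn 3))
    (f : Rn 3 → Rn 3) (D : Rn 3 → Rn 3 →L[ℝ] Rn 3) (v : Rn 3 → ℝ≥0∞) (A : Rn 3 →L[ℝ] Rn 3)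
    (o : Rn 3) (M : Rn 2 →L[ℝ] Rn 3) (R lam : ℝ), Convex ℝ S → ContinuousOn f S → Measurable D →
    Measurable v → USeg S f D v → 0 ≤ R → 0 ≤ lam → (∀ ξ, ‖M ξ‖ ≤ R * ‖ξ‖) →
    (∀ ξ ∈ closedBall (0 : Rn 2) 1, o + M ξ ∈ S) → ∫⁻ ξ in ball (0 : Rn 2) 1, v (o + M ξ) ≠ ⊤ →
    CM * ∫⁻ ξ in ball (0 : Rn 2) 1, ‖D (o + M ξ) - A‖ₑ ^ p ≤ ENNReal.ofReal lam ^ p →
    ∀ ξ ∈ closedBall (0 : Rn 2) 1, ∀ ξ' ∈ closedBall (0 : Rn 2) 1,
      ‖f (o + M ξ) - f (o + M ξ') - A (M ξ - M ξ')‖ ≤ lam * R := by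
  obtain ⟨CM, hCM, hM⟩ := morrey2 hp
  refine ⟨CM, hCM, fun S f D v A o M R lam hS hf hD hv hu hR hl hn hm h1 h2 ξ hξ ξ' hξ' => ?_⟩
  have hp0 : 0 < p := by linarith
  have cφ : Continuous fun ξ : Rn 2 => o + M ξ := continuous_const.add M.continuous
  have es : ∀ (ξ ξ' : Rn 2) (s : ℝ), seg (o + M ξ) (o + M ξ') s = o + M (seg ξ ξ' s) := by
    intro ξ ξ' s
    rw [seg, seg, map_add, map_smul, map_sub, add_sub_add_left_eq_sub, add_assoc]
  have mγ : Measurable fun ξ : Rn 2 => ‖D (o + M ξ) - A‖ₑ :=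
    ((hD.comp cφ.measurable).sub_const A).enorm
  have key := hM (fun ξ => f (o + M ξ) - A (M ξ)) (fun ξ => v (o + M ξ))
    (fun ξ => ENNReal.ofReal R * ‖D (o + M ξ) - A‖ₑ) 0 1 one_pos
    ((hf.comp cφ.continuousOn hm).sub (A.continuous.comp M.continuous).continuousOn)
    (hv.comp cφ.measurable) (mγ.const_mul _) h1 (fun a ha b hb hi => by
      have h3 : ACs f D (o + M a) (o + M b) :=
        hu _ _ (hS.segment_subset (hm a (ball_subset_closedBall ha))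
          (hm b (ball_subset_closedBall hb))) (by simpa only [es] using hi)
      have h4 := h3.sub_le A le_rfl zero_le_one le_rfl
      have e0 : seg (o + M a) (o + M b) 0 = o + M a := by simp [seg]
      have e1 : seg (o + M a) (o + M b) 1 = o + M b := by simp [seg]
      rw [e0, e1, add_sub_add_left_eq_sub] at h4
      have e2 : f (o + M b) - A (M b) - (f (o + M a) - A (M a)) =
          f (o + M b) - f (o + M a) - A (M b - M a) := by
        rw [map_sub]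
        abel
      have h5 : ‖M b - M a‖ₑ ≤ ‖b - a‖ₑ * ENNReal.ofReal R := by
        rw [← map_sub, ← ofReal_norm, ← ofReal_norm, ← ENNReal.ofReal_mul (norm_nonneg _),
          mul_comm]
        exact ENNReal.ofReal_le_ofReal (hn _)
      rw [e2, lintegral_const_mul' _ _ ENNReal.ofReal_ne_top, ← mul_assoc]
      simp only [es] at h4
      exact h4.trans (mul_le_mul' h5 le_rfl)) ξ hξ ξ' hξ'
  have e2 : f (o + M ξ) - A (M ξ) - (f (o + M ξ') - A (M ξ')) =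
      f (o + M ξ) - f (o + M ξ') - A (M ξ - M ξ') := by
    rw [map_sub]
    abel
  simp only [ENNReal.mul_rpow_of_nonneg _ _ hp0.le] at key
  rw [e2, Real.one_rpow, ENNReal.ofReal_one, mul_one, lintegral_const_mul' _ _
    (ENNReal.rpow_ne_top_of_nonneg hp0.le ENNReal.ofReal_ne_top), mul_left_comm] at key
  have h6 := key.trans (mul_le_mul' le_rfl h2)
  rw [← ENNReal.mul_rpow_of_nonneg _ _ hp0.le, ENNReal.rpow_le_rpow_iff hp0,
    ← ENNReal.ofReal_mul hR, ← ofReal_norm, ENNReal.ofReal_le_ofReal_iff (mul_nonneg hR hl)] at h6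
  rwa [mul_comm]

theorem Sel3_line {p : ℝ} (hp : 1 ≤ p) {S : Set (Rn 3)} {f : Rn 3 → Rn 3}
    {D : Rn 3 → Rn 3 →L[ℝ] Rn 3} {v : Rn 3 → ℝ≥0∞} (hD : Measurable D) (hu : USeg S f D v)
    (A : Rn 3 →L[ℝ] Rn 3) {a b : Rn 3} (hs : segment ℝ a b ⊆ S)
    (h1 : ∫⁻ t in Icc (0 : ℝ) 1, v (seg a b t) ≠ ⊤) {d : ℝ} (hd : 0 < d)
    (h2 : ∫⁻ t in Icc (0 : ℝ) 1, ‖D (seg a b t) - A‖ₑ ^ p ≤ ENNReal.ofReal d ^ p) (c e : Rn 3)
    {x y : Rn 3} (hx : x ∈ segment ℝ a b) (hy : y ∈ segment ℝ a b) :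
    vr (fun z => f z - (e + A (z - c))) x y ≤ ENNReal.ofReal (‖b - a‖ * (2 * d)) := by
  have h3 := (hu a b hs h1).vr_le A c e hx hy
  simp only [add_comm e]
  have cs : Continuous (seg a b) := by
    unfold seg
    fun_prop
  have h4 := young hp hd (g := fun t => ‖D (seg a b t) - A‖ₑ)
    ((hD.comp cs.measurable).sub_const A).enorm
  have h5 : ENNReal.ofReal (d ^ (1 - p)) * ENNReal.ofReal d ^ p = ENNReal.ofReal d := by
    rw [ENNReal.ofReal_rpow_of_pos hd, ← ENNReal.ofReal_mul (Real.rpow_nonneg hd.le _),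
      ← Real.rpow_add hd, sub_add_cancel, Real.rpow_one]
  refine h3.trans ?_
  rw [ENNReal.ofReal_mul (norm_nonneg _), ofReal_norm, two_mul, ENNReal.ofReal_add hd.le hd.le]
  refine mul_le_mul' le_rfl (h4.trans (add_le_add le_rfl ?_))
  exact (mul_le_mul' le_rfl h2).trans_eq h5

theorem Sel3_a {n : ℕ} {x y : Rn 3} {i : Fin 3} (h : ∃ k : ℤ, 2 ^ n * x i = k)
    (hy : y ∈ kbC n x) : y i = x i := by
  obtain ⟨k, hk⟩ := h
  have h1 := kbS_ineq.1 (hy i)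
  rw [hk, Int.floor_intCast, Int.ceil_intCast] at h1
  exact mul_left_cancel₀ (pow_ne_zero n two_ne_zero) ((le_antisymm h1.2.2 h1.1.1).trans hk.symm)

theorem Sel3_b {n : ℕ} {x : Rn 3} {i : Fin 3} (h : ¬ ∃ k : ℤ, 2 ^ n * x i = k) :
    ∃ ε : ℝ, ε ≠ 0 ∧ x + ε • (Pi.single i 1 : Rn 3) ∈ kbC n x := by
  have h1 : 2 ^ n * x i < ⌈2 ^ n * x i⌉ :=
    lt_of_le_of_ne (Int.le_ceil _) fun e => h ⟨_, e⟩
  have h2 : (0 : ℝ) < 2 ^ n := by positivity
  refine ⟨(⌈2 ^ n * x i⌉ - 2 ^ n * x i) / 2 / 2 ^ n,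
    (div_pos (by linarith) h2).ne', fun l => ?_⟩
  by_cases hl : l = i
  · subst hl
    have e : 2 ^ n * (x + (((⌈2 ^ n * x l⌉ : ℝ) - 2 ^ n * x l) / 2 / 2 ^ n) •
        (Pi.single l 1 : Rn 3)) l = 2 ^ n * x l + ((⌈2 ^ n * x l⌉ : ℝ) - 2 ^ n * x l) / 2 := by
      rw [Pi.add_apply, Pi.smul_apply, Pi.single_eq_same, smul_eq_mul, mul_one, mul_add,
        mul_div_cancel₀ _ h2.ne']
    rw [e]
    refine kbS_ineq.2 ⟨⟨?_, ?_⟩, ?_, ?_⟩ <;>
      linarith [Int.floor_le (2 ^ n * x l), kb_cf (2 ^ n * x l), Int.ceil_lt_add_one (2 ^ n * x l)]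
  · rw [Pi.add_apply, Pi.smul_apply, Pi.single_eq_of_ne hl, smul_zero, add_zero]
    exact ⟨rfl, rfl⟩

theorem Sel3_sk {n : ℕ} {x : Rn 3} (h : dm (kbC n x) ≤ 2) : ∃ i, ∃ k : ℤ, 2 ^ n * x i = k := by
  by_contra hn
  have h1 : ∀ i, (Pi.single i 1 : Rn 3) ∈ vectorSpan ℝ (kbC n x) := fun i => by
    obtain ⟨ε, h0, h1⟩ := Sel3_b (not_exists.1 hn i)
    have h2 := vsub_mem_vectorSpan ℝ h1 (kbC_self (n := n) (x := x))
    rw [vsub_eq_sub, add_sub_cancel_left] at h2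
    exact (Submodule.smul_mem_iff _ h0).1 h2
  have h2 : vectorSpan ℝ (kbC n x) = ⊤ := by
    refine eq_top_iff.2 fun y _ => ?_
    rw [pi_eq_sum_univ' y]
    exact Submodule.sum_mem _ fun i _ => Submodule.smul_mem _ _ (h1 i)
  rw [dm, h2, finrank_top, Module.finrank_fin_fun] at h
  omega

theorem Sel3_edge {n : ℕ} {x a b : Rn 3} (h : openSegment ℝ a b = kbC n x) :
    ∃ j, ∀ i, i ≠ j → (∃ k : ℤ, 2 ^ n * a i = k) ∧ b i = a i := by
  have h1 : ∀ i, (∃ k : ℤ, 2 ^ n * x i = k) → (∃ k : ℤ, 2 ^ n * a i = k) ∧ b i = a i := by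
    intro i hi
    have h2 : ∀ t ∈ Ioo (0 : ℝ) 1, a i + t * (b i - a i) = x i := fun t ht =>
      Sel3_a (y := seg a b t) hi (h ▸ seg_image_open a b ▸ mem_image_of_mem _ ht)
    have h3 := h2 (1 / 3) (by norm_num)
    have h4 := h2 (2 / 3) (by norm_num)
    have h5 : a i = x i := by linarith
    exact ⟨h5 ▸ hi, by linarith⟩
  by_cases hn : ∀ i, ∃ k : ℤ, 2 ^ n * x i = k
  · exact ⟨0, fun i _ => h1 i (hn i)⟩
  obtain ⟨j, hj⟩ := not_forall.1 hn
  refine ⟨j, fun i hi => h1 i ?_⟩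
  by_contra hk
  obtain ⟨ε, e0, e1⟩ := Sel3_b hj
  obtain ⟨ε', e0', e1'⟩ := Sel3_b hk
  have e2 : x ∈ kbC n x := kbC_self
  rw [← h, ← seg_image_open] at e1 e1' e2
  obtain ⟨t, -, e1⟩ := e1
  obtain ⟨t', -, e1'⟩ := e1'
  obtain ⟨t0, -, e2⟩ := e2
  have a1 := congrFun e1 i
  have a2 := congrFun e1 j
  have a3 := congrFun e1' i
  have a4 := congrFun e2 i
  have a5 := congrFun e2 j
  simp only [seg, Pi.add_apply, Pi.smul_apply, Pi.sub_apply, smul_eq_mul, Pi.single_eq_same,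
    Pi.single_eq_of_ne hi, mul_one, mul_zero, add_zero] at a1 a2 a3 a4 a5
  have b1 : (t - t0) * (b i - a i) = 0 := by linarith
  rcases mul_eq_zero.1 b1 with b2 | b2
  · rw [sub_eq_zero.1 b2] at a2
    exact e0 (by linarith)
  · rw [b2] at a3 a4
    exact e0' (by linarith)

/-- Indices of the planes and of the lines of the grid in a tile. -/
def Sel3_J (a : ℕ) : Finset (Fin 3 × I3) :=
  Finset.univ ×ˢ Fintype.piFinset fun _ => Finset.Icc (-(2 ^ a : ℤ)) (2 ^ a)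

/-- Lattice point. -/
def Sel3_z (c : Rn 3) (s : ℝ) (m : I3) : Rn 3 := fun i => c i + m i * s

/-- The test measure: a square and a segment. -/
def Sel3_μ (M : Fin 3 → Rn 2 →L[ℝ] Rn 3) (c : Rn 3) (s R : ℝ) (k : Fin 3 × I3) :
    Measure (Rn 3) :=
  (volume.restrict (ball (0 : Rn 2) 1)).map
      (fun ξ => update c k.1 (Sel3_z c s k.2 k.1) + (R • M k.1) ξ) +
    (volume.restrict (Icc (0 : ℝ) 1)).map (seg (update (Sel3_z c s k.2) k.1 (c k.1 - R))
      (update (Sel3_z c s k.2) k.1 (c k.1 + R)))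

theorem Sel3_lint (M : Fin 3 → Rn 2 →L[ℝ] Rn 3) (c : Rn 3) (s R : ℝ) (k : Fin 3 × I3)
    {φ : Rn 3 → ℝ≥0∞} (hφ : Measurable φ) : ∫⁻ y, φ y ∂Sel3_μ M c s R k =
      (∫⁻ ξ in ball (0 : Rn 2) 1, φ (update c k.1 (Sel3_z c s k.2 k.1) + (R • M k.1) ξ)) +
        ∫⁻ t in Icc (0 : ℝ) 1, φ (seg (update (Sel3_z c s k.2) k.1 (c k.1 - R))
          (update (Sel3_z c s k.2) k.1 (c k.1 + R)) t) := by
  have cs : ∀ a b : Rn 3, Continuous (seg a b) := fun a b => by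
    unfold seg
    fun_prop
  have cφ : Continuous fun ξ => update c k.1 (Sel3_z c s k.2 k.1) + (R • M k.1) ξ :=
    continuous_const.add (R • M k.1).continuous
  rw [Sel3_μ, lintegral_add_measure, lintegral_map hφ (cs _ _).measurable,
    lintegral_map hφ cφ.measurable]

theorem Sel3_zb {a : ℕ} {s : ℝ} (hs : 0 < s) (c : Rn 3) {k : Fin 3 × I3} (hk : k ∈ Sel3_J a)
    (i : Fin 3) : |Sel3_z c s k.2 i - c i| ≤ 2 ^ a * s := by
  have h1 := Finset.mem_Icc.1 (Fintype.mem_piFinset.1 (Finset.mem_product.1 hk).2 i)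
  have h2 : |(k.2 i : ℝ)| ≤ 2 ^ a := by exact_mod_cast abs_le.2 h1
  rw [Sel3_z, add_sub_cancel_left, abs_mul, abs_of_pos hs]
  exact mul_le_mul_of_nonneg_right h2 hs.le

theorem Sel3_upd {c z : Rn 3} {R t : ℝ} (j : Fin 3) (hz : ∀ i, i ≠ j → |z i - c i| ≤ R)
    (ht : |t - c j| ≤ R) : update z j t ∈ closedBall c R := by
  refine mem_closedBall_iff_norm.2 ((pi_norm_le_iff_of_nonneg ((abs_nonneg _).trans ht)).2
    fun i => ?_)
  rw [Pi.sub_apply, Real.norm_eq_abs]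
  by_cases h : i = j
  · rw [h, update_self]
    exact ht
  · rw [update_of_ne h]
    exact hz i h

theorem Sel3_sub {a : ℕ} {s : ℝ} (hs : 0 < s) {M : Fin 3 → Rn 2 →L[ℝ] Rn 3}
    (hM : ∀ j ξ, M j ξ j = 0 ∧ ‖M j ξ‖ ≤ ‖ξ‖) (c : Rn 3) {k : Fin 3 × I3} (hk : k ∈ Sel3_J a) :
    (∀ ξ ∈ closedBall (0 : Rn 2) 1, update c k.1 (Sel3_z c s k.2 k.1) + ((2 ^ a * s) • M k.1) ξ ∈
      closedBall c (2 ^ a * s)) ∧
    segment ℝ (update (Sel3_z c s k.2) k.1 (c k.1 - 2 ^ a * s))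
      (update (Sel3_z c s k.2) k.1 (c k.1 + 2 ^ a * s)) ⊆ closedBall c (2 ^ a * s) := by
  have hR : 0 < 2 ^ a * s := by positivity
  refine ⟨fun ξ hξ => ?_, (convex_closedBall _ _).segment_subset
    (Sel3_upd _ (fun i _ => Sel3_zb hs c hk i) ?_) (Sel3_upd _ (fun i _ => Sel3_zb hs c hk i) ?_)⟩
  · refine mem_closedBall_iff_norm.2 ((pi_norm_le_iff_of_nonneg hR.le).2 fun i => ?_)
    rw [Pi.sub_apply, Pi.add_apply, _root_.smul_apply, Pi.smul_apply, smul_eq_mul,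
      Real.norm_eq_abs]
    by_cases h : i = k.1
    · rw [h, update_self, (hM _ ξ).1, mul_zero, add_zero]
      exact Sel3_zb hs c hk _
    · rw [update_of_ne h, add_sub_cancel_left, abs_mul, abs_of_pos hR]
      refine mul_le_of_le_one_right hR.le ?_
      exact ((norm_le_pi_norm (M k.1 ξ) i).trans (hM _ ξ).2).trans (mem_closedBall_zero_iff.1 hξ)
  · rw [sub_sub_cancel_left, abs_neg, abs_of_pos hR]
  · rw [add_sub_cancel_left, abs_of_pos hR]

theorem Sel3_mass {a : ℕ} {s : ℝ} (hs : 0 < s) {M : Fin 3 → Rn 2 →L[ℝ] Rn 3}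
    (hM : ∀ j ξ, M j ξ j = 0 ∧ ‖M j ξ‖ ≤ ‖ξ‖) (c : Rn 3) {k : Fin 3 × I3} (hk : k ∈ Sel3_J a) :
    Sel3_μ M c s (2 ^ a * s) k (closedBall c (2 ^ a * s))ᶜ = 0 ∧
      Sel3_μ M c s (2 ^ a * s) k univ ≤ 5 := by
  obtain ⟨h1, h2⟩ := Sel3_sub hs hM c hk
  constructor
  · have hm : MeasurableSet (closedBall c (2 ^ a * s))ᶜ := measurableSet_closedBall.compl
    rw [← lintegral_indicator_one hm, Sel3_lint _ _ _ _ _ (measurable_one.indicator hm),
      setLIntegral_eq_zero measurableSet_ball, setLIntegral_eq_zero measurableSet_Icc, add_zero]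
    · exact fun t ht => indicator_of_notMem
        (not_not.2 (h2 (seg_image _ _ ▸ mem_image_of_mem _ ht))) _
    · exact fun ξ hξ => indicator_of_notMem (not_not.2 (h1 ξ (ball_subset_closedBall hξ))) _
  · rw [← lintegral_one, Sel3_lint _ _ _ _ _ measurable_const, setLIntegral_one, setLIntegral_one,
      Real.volume_pi_ball _ one_pos, Real.volume_Icc, Fintype.card_fin]
    norm_num

theorem Sel3_idx {a : ℕ} {s : ℝ} (hs : 0 < s) {c x : Rn 3} (hx : x ∈ closedBall c (2 ^ a * s))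
    (j : Fin 3) (P : Fin 3 → Prop) (h : ∀ i, P i → ∃ k : ℤ, x i = c i + k * s) :
    ∃ m : I3, (j, m) ∈ Sel3_J a ∧ ∀ i, P i → Sel3_z c s m i = x i := by
  have h1 : ∀ i, ∃ k : ℤ, k ∈ Finset.Icc (-(2 ^ a : ℤ)) (2 ^ a) ∧ (P i → c i + k * s = x i) := by
    intro i
    by_cases hi : P i
    · obtain ⟨k, hk⟩ := h i hi
      have h2 := (norm_le_pi_norm (x - c) i).trans (mem_closedBall_iff_norm.1 hx)
      rw [Pi.sub_apply, hk, add_sub_cancel_left, Real.norm_eq_abs, abs_mul, abs_of_pos hs] at h2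
      have h3 : |(k : ℝ)| ≤ 2 ^ a := le_of_mul_le_mul_right h2 hs
      have h4 : |k| ≤ 2 ^ a := by exact_mod_cast h3
      exact ⟨k, Finset.mem_Icc.2 (abs_le.1 h4), fun _ => hk.symm⟩
    · exact ⟨0, Finset.mem_Icc.2 ⟨neg_nonpos.2 (by positivity), by positivity⟩,
        fun h => (hi h).elim⟩
  choose m h2 h3 using h1
  exact ⟨m, Finset.mem_product.2 ⟨Finset.mem_univ _, Fintype.mem_piFinset.2 h2⟩, h3⟩

theorem Sel3_tile {p : ℝ} (hp : 2 < p) (a : ℕ) {lam : ℝ} (hl : 0 < lam)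
    {M : Fin 3 → Rn 2 →L[ℝ] Rn 3} (hM : ∀ j ξ, M j ξ j = 0 ∧ ‖M j ξ‖ ≤ ‖ξ‖)
    (hM' : ∀ j, ∀ y : Rn 3, y j = 0 → ∃ ξ, M j ξ = y ∧ ‖ξ‖ ≤ ‖y‖) :
    ∃ δ : ℝ≥0∞, δ ≠ 0 ∧ δ ≠ ⊤ ∧ ∀ (S : Set (Rn 3)) (f : Rn 3 → Rn 3)
      (D : Rn 3 → Rn 3 →L[ℝ] Rn 3) (v : Rn 3 → ℝ≥0∞) (A : Rn 3 →L[ℝ] Rn 3) (c : Rn 3) (s : ℝ),
      Convex ℝ S → ContinuousOn f S → Measurable D → Measurable v → USeg S f D v → 0 < s →
      closedBall c (2 ^ a * s) ⊆ S →
      (∀ k ∈ Sel3_J a, ∫⁻ y, v y ∂Sel3_μ M c s (2 ^ a * s) k ≠ ⊤) →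
      (∀ k ∈ Sel3_J a, ∫⁻ y, ‖D y - A‖ₑ ^ p ∂Sel3_μ M c s (2 ^ a * s) k ≤ δ) →
      (∀ x ∈ closedBall c (2 ^ a * s), (∃ i, ∃ k : ℤ, x i = c i + k * s) →
        ‖f x - (f c + A (x - c))‖ ≤ lam * (2 * (2 ^ a * s))) ∧
      ∀ x ∈ closedBall c (2 ^ a * s), ∀ y ∈ closedBall c (2 ^ a * s),
        (∃ j, ∀ i, i ≠ j → (∃ k : ℤ, x i = c i + k * s) ∧ y i = x i) →
        vr (fun z => f z - (f c + A (z - c))) x y ≤ ENNReal.ofReal (lam * s) := by
  obtain ⟨CM, hCM, hP⟩ := Sel3_plane hp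
  have hp0 : 0 < p := by linarith
  have hd : 0 < lam / 2 ^ (a + 2) := by positivity
  have hd' : lam / 2 ^ (a + 2) ≤ lam := div_le_self hl.le (one_le_pow₀ one_le_two)
  have c1 : CM + 1 ≠ ⊤ := ENNReal.add_ne_top.2 ⟨hCM, ENNReal.one_ne_top⟩
  have c0 : CM + 1 ≠ 0 := by simp
  obtain ⟨δ, d0, d1, d2⟩ : ∃ δ : ℝ≥0∞, δ ≠ 0 ∧ δ ≠ ⊤ ∧
      (CM + 1) * δ = ENNReal.ofReal (lam / 2 ^ (a + 2)) ^ p :=
    ⟨ENNReal.ofReal (lam / 2 ^ (a + 2)) ^ p / (CM + 1),
      (ENNReal.div_pos (ENNReal.rpow_pos (ENNReal.ofReal_pos.2 hd) ENNReal.ofReal_ne_top).ne'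
        c1).ne',
      ENNReal.div_ne_top (ENNReal.rpow_ne_top_of_nonneg hp0.le ENNReal.ofReal_ne_top) c0,
      ENNReal.mul_div_cancel c0 c1⟩
  refine ⟨δ, d0, d1, fun S f D v A c s hS hf hD hv hu hs hc h1 h2 => ?_⟩
  have hR : 0 < 2 ^ a * s := by positivity
  have mD : Measurable fun y => ‖D y - A‖ₑ ^ p := (hD.sub_const A).enorm.pow_const p
  simp only [Sel3_lint _ _ _ _ _ hv] at h1
  simp only [Sel3_lint _ _ _ _ _ mD] at h2
  have pl : ∀ k ∈ Sel3_J a, ∀ x ∈ closedBall c (2 ^ a * s), ∀ y ∈ closedBall c (2 ^ a * s),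
      x k.1 = Sel3_z c s k.2 k.1 → y k.1 = Sel3_z c s k.2 k.1 →
      ‖f x - f y - A (x - y)‖ ≤ lam * (2 ^ a * s) := by
    intro k hk
    have h3 : ∀ x ∈ closedBall c (2 ^ a * s), x k.1 = Sel3_z c s k.2 k.1 →
        ∃ ξ ∈ closedBall (0 : Rn 2) 1,
          update c k.1 (Sel3_z c s k.2 k.1) + ((2 ^ a * s) • M k.1) ξ = x := by
      intro x hx e
      obtain ⟨ξ, e1, e2⟩ := hM' k.1 ((2 ^ a * s)⁻¹ • (x - update c k.1 (Sel3_z c s k.2 k.1)))
        (by rw [Pi.smul_apply, Pi.sub_apply, update_self, e, sub_self, smul_zero])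
      refine ⟨ξ, mem_closedBall_zero_iff.2 (e2.trans ?_), ?_⟩
      · rw [norm_smul, norm_inv, Real.norm_of_nonneg hR.le, inv_mul_le_iff₀ hR, mul_one]
        refine (pi_norm_le_iff_of_nonneg hR.le).2 fun i => ?_
        rw [Pi.sub_apply]
        by_cases h : i = k.1
        · rw [h, update_self, e, sub_self, norm_zero]
          exact hR.le
        · rw [update_of_ne h]
          exact (norm_le_pi_norm (x - c) i).trans (mem_closedBall_iff_norm.1 hx)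
      · rw [_root_.smul_apply, e1, smul_inv_smul₀ hR.ne', add_sub_cancel]
    intro x hx y hy ex ey
    obtain ⟨ξ, hξ, rfl⟩ := h3 x hx ex
    obtain ⟨ξ', hξ', rfl⟩ := h3 y hy ey
    rw [add_sub_add_left_eq_sub]
    refine hP S f D v A _ _ _ lam hS hf hD hv hu hR.le hl.le (fun ξ => ?_)
      (fun ξ hξ => hc ((Sel3_sub hs hM c hk).1 ξ hξ)) (ENNReal.add_ne_top.1 (h1 k hk)).1 ?_
      ξ hξ ξ' hξ'
    · rw [_root_.smul_apply, norm_smul, Real.norm_of_nonneg hR.le]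
      exact mul_le_mul_of_nonneg_left (hM _ ξ).2 hR.le
    · refine (mul_le_mul' le_self_add (le_self_add.trans (h2 k hk))).trans (d2.trans_le ?_)
      exact ENNReal.rpow_le_rpow (ENNReal.ofReal_le_ofReal hd') hp0.le
  constructor
  · rintro x hx ⟨i, hi⟩
    obtain ⟨j, hj⟩ := exists_ne i
    obtain ⟨m, m1, m2⟩ := Sel3_idx hs hx i (fun l => l = i) fun l e => e ▸ hi
    obtain ⟨m', m1', m2'⟩ := Sel3_idx hs (mem_closedBall_self hR.le) j (fun l => l = j)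
      (c := c) fun l _ => ⟨0, by simp⟩
    have hz : update c i (x i) ∈ closedBall c (2 ^ a * s) :=
      Sel3_upd i (fun l _ => by rw [sub_self, abs_zero]; exact hR.le)
        ((norm_le_pi_norm (x - c) i).trans (mem_closedBall_iff_norm.1 hx))
    have h3 := pl _ m1 x hx _ hz (m2 i rfl).symm (by rw [update_self]; exact (m2 i rfl).symm)
    have h4 := pl _ m1' _ hz c (mem_closedBall_self hR.le)
      (by rw [update_of_ne hj]; exact (m2' j rfl).symm) (m2' j rfl).symm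
    have e : f x - (f c + A (x - c)) = (f x - f (update c i (x i)) - A (x - update c i (x i))) +
        (f (update c i (x i)) - f c - A (update c i (x i) - c)) := by
      simp only [map_sub]
      abel
    rw [e]
    linarith [norm_add_le (f x - f (update c i (x i)) - A (x - update c i (x i)))
      (f (update c i (x i)) - f c - A (update c i (x i) - c))]
  · rintro x hx y hy ⟨j, hj⟩
    obtain ⟨m, m1, m2⟩ := Sel3_idx hs hx j (fun l => l ≠ j) fun l e => (hj l e).1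
    have h3 : ∀ y ∈ closedBall c (2 ^ a * s), (∀ i, i ≠ j → y i = x i) →
        y ∈ segment ℝ (update (Sel3_z c s m) j (c j - 2 ^ a * s))
          (update (Sel3_z c s m) j (c j + 2 ^ a * s)) := by
      intro y hy e
      have h4 : |y j - c j| ≤ 2 ^ a * s :=
        (norm_le_pi_norm (y - c) j).trans (mem_closedBall_iff_norm.1 hy)
      obtain ⟨h5, h6⟩ := abs_le.1 h4
      rw [← seg_image]
      refine ⟨(y j - c j + 2 ^ a * s) / (2 * (2 ^ a * s)),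
        ⟨div_nonneg (by linarith) (by linarith), (div_le_one (by linarith)).2 (by linarith)⟩, ?_⟩
      funext i
      rw [seg, Pi.add_apply, Pi.smul_apply, Pi.sub_apply, smul_eq_mul]
      by_cases h : i = j
      · rw [h, update_self, update_self]
        field_simp
        ring
      · rw [update_of_ne h, update_of_ne h, sub_self, mul_zero, add_zero, m2 i h, e i h]
    have h5 : δ ≤ ENNReal.ofReal (lam / 2 ^ (a + 2)) ^ p := by
      rw [← d2, add_mul, one_mul]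
      exact le_add_self
    refine (Sel3_line (by linarith) hD hu A ((Sel3_sub hs hM c m1).2.trans hc)
      (ENNReal.add_ne_top.1 (h1 _ m1)).2 hd ((le_add_self.trans (h2 _ m1)).trans h5) c (f c)
      (h3 x hx fun _ _ => rfl) (h3 y hy fun i h => (hj i h).2)).trans
      (ENNReal.ofReal_le_ofReal ?_)
    have h6 : ‖update (Sel3_z c s m) j (c j + 2 ^ a * s) -
        update (Sel3_z c s m) j (c j - 2 ^ a * s)‖ ≤ 2 * (2 ^ a * s) := by
      refine (pi_norm_le_iff_of_nonneg (by linarith)).2 fun i => ?_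
      rw [Pi.sub_apply]
      by_cases h : i = j
      · rw [h, update_self, update_self, Real.norm_of_nonneg (by linarith)]
        linarith
      · rw [update_of_ne h, update_of_ne h, sub_self, norm_zero]
        linarith
    refine (mul_le_mul_of_nonneg_right h6 (by linarith)).trans_eq ?_
    field_simp
    ring

theorem sel_rk3 {p : ℝ} (hp : 2 < p) (T : Ty) (hc : T.I.card = 3) : ∃ Cs : ℝ≥0∞, Cs ≠ ⊤ ∧
    ∀ (C : Cu) (aK : ℝ) (Ω : Set (Rn 3)) (K : Kx Ω) (ch : Set (Rn 3) → Ch) (w : Set (Rn 3) → ℝ),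
      C.toTy = T → C.Ok aK → C.Fit aK K ch w → C.SelP p Cs K := by
  by_cases hl : 0 < T.lam
  swap
  · exact ⟨0, ENNReal.zero_ne_top, fun C aK Ω K ch w e h _ => (hl (e ▸ h.lam0)).elim⟩
  choose M hM hM' using Sel3_emb
  obtain ⟨δ, d0, d1, hT⟩ := Sel3_tile hp T.a hl hM hM'
  refine ⟨δ⁻¹ * (Sel3_J T.a).card * 5 * 8, ENNReal.mul_ne_top (ENNReal.mul_ne_top
    (ENNReal.mul_ne_top (ENNReal.inv_ne_top.2 d0) (ENNReal.natCast_ne_top _)) (by simp)) (by simp),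
    fun C aK Ω K ch w e h hf => ?_⟩
  subst e
  obtain ⟨p1, p2, p3, p4, -, p6, -⟩ := h.pos
  have hI : C.I = Finset.univ := Finset.eq_univ_of_card _ (hc.trans (Fintype.card_fin 3).symm)
  have eR : C.t0 / 2 = 2 ^ C.a * C.s := by
    rw [Cu.t0]
    ring
  have hR : 0 < 2 ^ C.a * C.s := by positivity
  have eQ : ∀ u, C.Q u (C.t0 / 2) = closedBall (C.ctr u) (2 ^ C.a * C.s) := fun u => by
    ext x
    rw [Cu.mem_Q (by linarith), mem_closedBall_iff_norm, eR, hI]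
    exact ⟨fun h => h.2, fun h => ⟨fun i hi => (hi (Finset.mem_univ i)).elim, h⟩⟩
  have hW : ∀ u ∈ C.Adm, closedBall (C.ctr u) (2 ^ C.a * C.s) ⊆ C.WI := fun u hu x hx => by
    refine (h.Q_sub hu).2.1 ((h.Q_sub hu).1 ((Cu.mem_Q (by linarith)).2 ⟨fun i hi => ?_, ?_⟩))
    · exact (hi (hI ▸ Finset.mem_univ i)).elim
    · linarith [mem_closedBall_iff_norm.1 hx]
  have hq : C.WI ⊆ C.q := h.WI_prop.2.1.trans (h.O_prop.2.1.trans
    (ball_subset_closedBall.trans (closedBall_subset_closedBall (by linarith))))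
  have etv : C.tv = (2 * (2 ^ C.a * C.s)) ^ 3 := by
    rw [Cu.tv, hc, ← eR]
    ring
  have hlat : ∀ u ∈ C.Adm, ∀ (x : Rn 3) (i : Fin 3), (∃ k : ℤ, 2 ^ (C.ns - 4) * x i = k) →
      ∃ k : ℤ, x i = C.ctr u i + k * C.s := by
    rintro u hu x i ⟨k, hk⟩
    obtain ⟨k', hk'⟩ := (h.Q_sub hu).2.2.2 i
    have e1 := h.mult.2.2.2.2.2.2
    have e2 : x i = k * (16 * C.s) := by
      rw [e1, ← hk]
      field_simp
    refine ⟨16 * (k - k'), ?_⟩
    rw [e2, hk']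
    push_cast
    ring
  obtain ⟨ν, n1, n2, n3, n4⟩ := Sel3_cheb h.adm_finite (Sel3_J C.a)
    (fun u k => Sel3_μ M (C.ctr u) C.s (2 ^ C.a * C.s) k) d0 d1 (tv := ENNReal.ofReal C.tv)
    (ENNReal.ofReal_pos.2 (by rw [etv]; positivity)).ne' (q := C.q) (B := 5)
    (fun u hu k hk => measure_mono_null (compl_subset_compl.2 ((hW u hu).trans hq))
      (Sel3_mass p3 hM _ hk).1) fun u _ k hk => (Sel3_mass p3 hM _ hk).2
  refine ⟨ν, n1, n2.trans ?_, fun f D v cf mD mv hu hv => ?_⟩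
  · rw [mul_assoc _ 8, etv]
    refine mul_le_mul' le_rfl (Sel3_cnt h.adm_finite C.ctr hR p1.le C.o
      (fun u hu => ball_subset_closedBall.trans ((hW u hu).trans hq)) fun u hu u' hu' hn => ?_)
    linarith [(h.tile_sep hu hu' hn).1]
  refine ⟨{u | u ∈ C.Adm ∧ C.A ≠ 0 ∧ ∀ k ∈ Sel3_J C.a,
    ∫⁻ y, ‖D y - C.A‖ₑ ^ p ∂Sel3_μ M (C.ctr u) C.s (2 ^ C.a * C.s) k ≤ δ}, ?_, fun hA => ?_⟩
  · rintro u ⟨u1, u2, u3⟩
    obtain ⟨g1, g2⟩ := hT C.q f D v C.A (C.ctr u) C.s (convex_closedBall _ _) cf mD mv hu p3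
      ((hW u u1).trans hq) (n3 v hv u u1) u3
    refine ⟨u1, u2, fun x hx => ?_, fun _ a b he ha hb => ?_⟩
    · rw [if_pos hc, add_zero, eQ] at hx
      have h1 := hx.1.2
      rw [hf.fine x (hW u u1 hx.2)] at h1
      obtain ⟨i, hi⟩ := Sel3_sk h1
      refine (g1 x hx.2 ⟨i, hlat u u1 x i hi⟩).trans (mul_le_mul_of_nonneg_left ?_ hl.le)
      exact le_trans (by linarith) (le_max_left _ _)
    · rw [eQ] at ha hb
      obtain ⟨x, x1, x2⟩ := he.2
      have x3 : x ∈ closedBall (C.ctr u) (2 ^ C.a * C.s) :=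
        (convex_closedBall _ _).openSegment_subset ha hb (x2 ▸ K.mem x x1)
      rw [hf.fine x (hW u u1 x3)] at x2
      obtain ⟨j, hj⟩ := Sel3_edge x2.symm
      exact g2 a ha b hb ⟨j, fun i hi => ⟨hlat u u1 a i (hj i hi).1, (hj i hi).2⟩⟩
  · refine le_trans (mul_le_mul' ?_ le_rfl) (n4 fun y => ‖D y - C.A‖ₑ ^ p)
    exact ENat.toENNReal_mono (encard_le_encard fun u hu =>
      ⟨hu.1, fun h => hu.2 ⟨hu.1, hA, h⟩⟩)

end BEp
end
end
end
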