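import Pool.Agent.Work.MP_f0515e_an.P3.GGeo
import Pool.Agent.Work.MP_f0515e_an.P3.CPush
import Pool.Agent.Work.MP_f0515e_an.P3.CMass

-- merged part: Pool.Agent.Work.MP_f0515e_an.P3.ES1
section
/-! Error on a line of direction `j`. The map `G' ∘ X ∘ pjz Iᶜ z` depends on `ξ j` only and takes its
values on the segment `icl z`, where `G' = G`; so `shp` is `h^(p-1)` times the integral over the
segment (arc length) of `‖(G on the line)' - L A e_j‖^p`. The segment is the union of the kept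
chords (there `Ah e_j = L A e_j`) and of fine edges of `Ed kp`; the total length of the latter is
at most that of the frames (`2 κ s ≤ 2 g t0` for each tile), of the tiles which are not admissible
(`8 ρ'`) and of those which are not kept. -/

open Set Metric Filter Topology Function BEv MeasureTheory
open scoped NNReal ENNReal

noncomputable section
namespace BEp

theorem ES1_fd (γ : ℝ → Rn 3) (j : Fin 3) (ξ : Rn 3) :
    fderiv ℝ (fun ξ : Rn 3 => γ (ξ j)) ξ =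
      (ContinuousLinearMap.proj j : Rn 3 →L[ℝ] ℝ).smulRight (deriv γ (ξ j)) := by
  by_cases h : DifferentiableAt ℝ γ (ξ j)
  · have := h.hasDerivAt.hasFDerivAt.comp ξ (hasFDerivAt_apply (𝕜 := ℝ) j ξ)
    refine this.fderiv.trans (ContinuousLinearMap.ext fun v => ?_)
    simp
  · rw [deriv_zero_of_not_differentiableAt h, fderiv_zero_of_not_differentiableAt fun k => h ?_]
    · exact ContinuousLinearMap.ext fun v => by simp
    · have h1 : DifferentiableAt ℝ (Function.update ξ j) (ξ j) :=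
        (hasDerivAt_update ξ j _).differentiableAt
      rw [← Function.update_eq_self j ξ] at k
      simpa [Function.comp_def] using DifferentiableAt.comp (ξ j) k h1

theorem ES1_cube {φ : ℝ → ℝ≥0∞} (hφ : Measurable φ) (j : Fin 3) (z : I3) :
    ∫⁻ ξ in cu z, φ (ξ j) = ∫⁻ s in Ioo (z j : ℝ) (z j + 1), φ s := by
  have e : cu z = univ.pi fun i => Ioo (z i : ℝ) (z i + 1) := by
    ext ξ
    simp [cu]
  have : ∀ i, IsProbabilityMeasure (volume.restrict (Ioo (z i : ℝ) (z i + 1))) := fun i =>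
    ⟨by simp⟩
  rw [e, volume_pi, Measure.restrict_pi_pi]
  exact (measurePreserving_eval (fun i => volume.restrict (Ioo (z i : ℝ) (z i + 1))) j).lintegral_comp
    hφ

theorem ES1_aff {a : ℝ} (ha : 0 < a) (c : ℝ) {S : Set ℝ} (hS : MeasurableSet S) (g : ℝ → ℝ≥0∞) :
    ∫⁻ t in (fun s => c + a * s) '' S, g t = ENNReal.ofReal a * ∫⁻ s in S, g (c + a * s) := by
  rw [lintegral_image_eq_lintegral_abs_deriv_mul hS (f' := fun _ => a)
    (fun x _ => by simpa using ((hasDerivAt_id x).const_mul a).const_add c |>.hasDerivWithinAt)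
    (fun x _ y _ e => mul_left_cancel₀ ha.ne' (add_left_cancel e)), abs_of_pos ha,
    lintegral_const_mul' _ _ ENNReal.ofReal_ne_top]

theorem ES1_der (γ : ℝ → Rn 3) (c a s : ℝ) :
    deriv (fun s => γ (c + a * s)) s = a • deriv γ (c + a * s) := by
  rw [deriv_comp_mul_left a (fun t => γ (c + t)) s, deriv_comp_const_add]

theorem ES1_pow {a p : ℝ} (ha : 0 < a) :
    ENNReal.ofReal (a ^ (1 - p)) * ENNReal.ofReal a ^ p = ENNReal.ofReal a := by
  rw [ENNReal.ofReal_rpow_of_pos ha, ← ENNReal.ofReal_mul (by positivity), ← Real.rpow_add ha,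
    sub_add_cancel, Real.rpow_one]

theorem ES1_pr (j : Fin 3) (v : Rn 3) : prL {j} v = v j • (Pi.single j 1 : Rn 3) := by
  funext i
  by_cases h : i = j
  · simp [prL, h]
  · simp [prL, h]

theorem ES1_sk {Ω : Set (Rn 3)} (K : Kx Ω) : K.sk 1 ⊆ K.sk 2 := fun _ h => ⟨h.1, h.2.trans one_le_two⟩

namespace Cu
variable {C : Cu} {aK : ℝ} {j : Fin 3} {z : I3}

/-- The line which carries the cell. -/
def ES1_ln (C : Cu) (j : Fin 3) (z : I3) (t : ℝ) : Rn 3 :=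
  C.X (fun i => z i) + t • (Pi.single j 1 : Rn 3)

theorem ES1_h (C : Cu) : 0 < C.h := by unfold Pr.h; positivity

theorem ES1_s (C : Cu) : 0 < C.s := by unfold Pr.s; positivity

theorem ES1_X (h : C.Ok aK) (hI : C.I = {j}) (t : ℝ) :
    C.ES1_ln j z (C.h * t) = C.X ((fun i => (z i : ℝ)) + t • (Pi.single j 1 : Rn 3)) := by
  rw [ES1_ln, X, X, map_add, map_smul, h.NI j (by simp [hI]), smul_add, smul_smul, add_assoc]

theorem ES1_mem (h : C.Ok aK) (hI : C.I = {j}) {x : Rn 3} :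
    x ∈ C.icl z ↔ ∃ t ∈ Icc 0 C.h, x = C.ES1_ln j z t := by
  rw [h.mem_icl, hI]
  refine ⟨fun ⟨a, b⟩ => ⟨x j - C.X (fun i => z i) j, ⟨?_, ?_⟩, funext fun i => ?_⟩, ?_⟩
  · linarith [(b j (by simp)).1]
  · linarith [(b j (by simp)).2]
  · by_cases e : i = j
    · simp [ES1_ln, e]
    · simp [ES1_ln, e, a i (by simpa using e)]
  · rintro ⟨t, ht, rfl⟩
    refine ⟨fun i e => ?_, fun i e => ?_⟩
    · simp [ES1_ln, Pi.single_eq_of_ne (show i ≠ j by simpa using e)]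
    · rw [Finset.mem_singleton.1 e]
      simpa [ES1_ln] using ht

theorem ES1_eq (h : C.Ok aK) (hI : C.I = {j}) {z' : I3} {t : ℝ} (ht : t ∈ Ioo 0 C.h)
    (hz : C.ES1_ln j z t ∈ C.icl z') : z' = z := by
  have hh := C.ES1_h
  rw [← mul_div_cancel₀ t hh.ne', ES1_X h hI] at hz
  obtain ⟨a, b⟩ := hz
  funext i
  by_cases e : i = j
  · have h1 := a i
    rw [h.Xξ.2.1, e] at h1
    have h2 := div_pos ht.1 hh
    have h3 := (div_lt_one hh).2 ht.2
    simp only [Pi.add_apply, Pi.smul_apply, Pi.single_eq_same, smul_eq_mul, mul_one] at h1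
    have h4 : z' j < z j + 1 := by exact_mod_cast (show (z' j : ℝ) < z j + 1 by linarith only [h3, h1, h1.1])
    have h5 : z j < z' j + 1 := by exact_mod_cast (show (z j : ℝ) < z' j + 1 by linarith only [h2, h1, h1.2])
    rw [e]
    omega
  · have h1 := b i (by simpa [hI] using e)
    rw [h.Xξ.2.1] at h1
    simpa [Pi.single_eq_of_ne e] using h1.symm

theorem ES1_ctr (hI : C.I = {j}) (u : I3 × I3) :
    C.ctr u = C.ES1_ln j u.1 ((u.2 j + 1 / 2) * C.t0) := by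
  rw [ctr, hI, ES1_pr, ES1_ln]

theorem ES1_num (h : C.Ok aK) : (∃ M : ℕ, C.t0 = 2 * M * (16 * C.s)) ∧ (∃ M : ℕ, C.h = M * C.t0) ∧
    (∃ M : ℕ, C.ρx = M * (16 * C.s)) ∧ C.t0 - 2 * C.ρx ≤ C.g * C.t0 ∧ C.ρx ≤ C.t0 / 2 ∧
    8 * C.ρ' ≤ C.g * C.h ∧ 0 < C.t0 := by
  have hs := C.ES1_s
  have ht : 0 < C.t0 := by unfold t0; positivity
  have h1 : 0 ≤ C.ζ := by
    have := h.c1.1
    have := h.σ0.1
    unfold Ty.ζ
    positivity
  have h2 : (8 : ℝ) ≤ (C.cf + C.cg) ^ 3 :=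
    le_trans (by norm_num) (pow_le_pow_left₀ zero_le_two (by linarith [h.c1.1, h.c1.2]) 3)
  have h3 : (0 : ℝ) < 2 ^ C.a := by positivity
  have h4 : 4 ≤ C.a := by
    by_contra k
    have : (2 : ℝ) ^ C.a ≤ 2 ^ 3 := pow_le_pow_right₀ one_le_two (by omega)
    linarith only [h1, h2, this, h, h3, h.sm, h.g0.2, mul_nonneg_of_nonpos_of_nonpos (Mathlib.Tactic.Linarith.sub_nonpos_of_le h1) (Mathlib.Tactic.Linarith.sub_nonpos_of_le h2), mul_nonneg_of_nonpos_of_nonpos (le_of_lt (Mathlib.Tactic.Linarith.sub_neg_of_lt h3)) (Mathlib.Tactic.Linarith.sub_nonpos_of_le h.g0.right)]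
  have h5 : C.t0 - 2 * C.ρx = 2 * C.κ * C.s := by
    unfold t0 ρx Ty.κ
    ring
  have h6 : C.g * C.t0 = 2 * (C.g * 2 ^ C.a) * C.s := by
    unfold t0
    ring
  have h7 : 0 ≤ C.κ := le_trans (by have := h.g0.1; positivity) h.κg.1
  refine ⟨?_, ?_, ?_, ?_, by linarith only [h5, hs, h7, mul_nonneg_of_nonpos_of_nonpos (le_of_lt (Mathlib.Tactic.Linarith.sub_neg_of_lt hs)) (Mathlib.Tactic.Linarith.sub_nonpos_of_le h7)], ?_, ht⟩
  · obtain ⟨d, hd⟩ := Nat.exists_eq_add_of_le h4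
    refine ⟨2 ^ d, ?_⟩
    rw [t0, hd]
    push_cast
    ring
  · obtain ⟨d, hd⟩ := Nat.exists_eq_add_of_le h.n2
    refine ⟨2 ^ d, ?_⟩
    rw [t0, Pr.h, Pr.s, hd]
    push_cast
    field_simp
    ring
  · obtain ⟨k, -, hk⟩ := h.dvd
    obtain ⟨d, hd⟩ := Nat.exists_eq_add_of_le h.nl4
    refine ⟨k * 2 ^ d, ?_⟩
    have : (C.r : ℝ) + 8 = k * 2 ^ C.nl := by exact_mod_cast hk
    rw [ρx, this, hd]
    push_cast
    ring
  · rw [h5, h6]
    linarith only [hs, h, h.κg.2, mul_nonneg_of_nonpos_of_nonpos (le_of_lt (Mathlib.Tactic.Linarith.sub_neg_of_lt hs)) (Mathlib.Tactic.Linarith.sub_nonpos_of_le h.κg.right)]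
  · have := one_le_pow₀ (n := 3) h.c1.1
    linarith only [ht, h, this, h.ρ1, h.ρ2, mul_nonneg_of_nonpos_of_nonpos (le_of_lt (Mathlib.Tactic.Linarith.sub_neg_of_lt ht)) (Mathlib.Tactic.Linarith.sub_nonpos_of_le this), mul_nonneg_of_nonpos_of_nonpos (Mathlib.Tactic.Linarith.sub_nonpos_of_le this) (Mathlib.Tactic.Linarith.sub_nonpos_of_le h.ρ1)]

/-- The parameters of the chord and of an edge. -/
def ES1_ch (C : Cu) (j : Fin 3) (u : I3 × I3) : Set ℝ :=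
  Icc ((u.2 j + 1 / 2) * C.t0 - C.ρx) ((u.2 j + 1 / 2) * C.t0 + C.ρx)

def ES1_ed (C : Cu) (j : Fin 3) (z : I3) (e : Rn 3 × Rn 3) : Set ℝ :=
  (fun s => e.1 j - C.X (fun i => z i) j + 16 * C.s * s) '' Icc 0 1

theorem ES1_cover (h : C.Ok aK) (hI : C.I = {j}) (hz : C.icl z ⊆ C.O) {kp : Set (I3 × I3)}
    (hk : kp ⊆ C.Adm) {t : ℝ} (ht : t ∈ Ioo 0 C.h) : (∃ u ∈ kp, u.1 = z ∧ t ∈ C.ES1_ch j u) ∨
      ∃ e ∈ C.Ed kp, segment ℝ e.1 e.2 ⊆ C.icl z ∧ t ∈ C.ES1_ed j z e := by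
  obtain ⟨⟨M, hM⟩, ⟨M', hM'⟩, ⟨R, hR⟩, -, h5, -, h7⟩ := ES1_num h
  have hs : 0 < 16 * C.s := by linarith only [C.ES1_s]
  generalize hβ : 16 * C.s = β at *
  have e0 : C.h = (M' * (2 * M) : ℕ) * β := by
    rw [hM', hM]
    push_cast
    ring
  obtain ⟨k, k1, k2⟩ : ∃ k : ℕ, k * β ≤ t ∧ t < (k + 1) * β := ⟨⌊t / β⌋₊,
    (le_div_iff₀ hs).1 (Nat.floor_le (div_pos ht.1 hs).le), (div_lt_iff₀ hs).1 (Nat.lt_floor_add_one _)⟩
  have k3 : ((k : ℝ) + 1) * β ≤ C.h := by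
    have : (k : ℝ) < (M' * (2 * M) : ℕ) := lt_of_mul_lt_mul_right (by linarith only [e0, k1, ht, ht.2]) hs.le
    rw [e0]
    exact mul_le_mul_of_nonneg_right (by exact_mod_cast this) hs.le
  have k0 : 0 ≤ k * β := by positivity
  have e1 : ∀ s : ℝ, C.ES1_ln j z (k * β) + s • (C.ES1_ln j z (k * β) +
      β • (Pi.single j 1 : Rn 3) - C.ES1_ln j z (k * β)) = C.ES1_ln j z (k * β + β * s) := fun s => by
    rw [add_sub_cancel_left, ES1_ln, ES1_ln, smul_smul, add_smul, add_assoc, mul_comm s]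
  have e2 : segment ℝ (C.ES1_ln j z (k * β)) (C.ES1_ln j z (k * β) + β • (Pi.single j 1 : Rn 3)) ⊆
      C.icl z := by
    rw [segment_eq_image']
    rintro _ ⟨s, a, rfl⟩
    exact (ES1_mem h hI).2 ⟨_, ⟨by linarith only [k0, hs, a, a.1, mul_nonneg_of_nonpos_of_nonpos (le_of_lt (Mathlib.Tactic.Linarith.sub_neg_of_lt hs)) (Mathlib.Tactic.Linarith.sub_nonpos_of_le a.left)], by linarith only [k3, hs, a, a.2, mul_nonneg_of_nonpos_of_nonpos (le_of_lt (Mathlib.Tactic.Linarith.sub_neg_of_lt hs)) (Mathlib.Tactic.Linarith.sub_nonpos_of_le a.right)]⟩, e1 s⟩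
  by_cases hc : ∀ u ∈ kp, Disjoint (openSegment ℝ (C.ES1_ln j z (k * β))
    (C.ES1_ln j z (k * β) + β • (Pi.single j 1 : Rn 3))) (C.Q u C.ρx)
  · refine .inr ⟨(_, _), ⟨⟨j, hI, by rw [hβ]; rfl, fun i => ?_, z, hz, e2⟩, hc⟩, e2, (t - k * β) / β,
      ⟨div_nonneg (by linarith only [k1]) hs.le, (div_le_one hs).2 (by linarith)⟩, ?_⟩
    · obtain ⟨n, hn⟩ := h.X_lat z i
      refine ⟨n * (M' * (2 * M) : ℕ) + if i = j then k else 0, ?_⟩
      change C.ES1_ln j z (k * β) i = _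
      rw [hβ, ES1_ln, Pi.add_apply, hn, e0, Pi.smul_apply, Pi.single_apply]
      split_ifs <;> push_cast <;> simp <;> ring
    · rw [hβ]
      simp [mul_div_cancel₀ _ hs.ne']
  push Not at hc
  obtain ⟨u, hu, hc⟩ := hc
  obtain ⟨y, hy, hQ⟩ := Set.not_disjoint_iff.1 hc
  rw [openSegment_eq_image'] at hy
  obtain ⟨s, a, rfl⟩ := hy
  dsimp only at hQ
  rw [e1] at hQ
  have e3 : u.1 = z := ES1_eq h hI ⟨by (refine lt_of_not_ge fun h_nl => ?_; linarith only [h_nl, k0, h7, a, hM, a.1, mul_nonneg_of_nonpos_of_nonpos (Mathlib.Tactic.Linarith.sub_nonpos_of_le (Mathlib.Tactic.Linarith.natCast_nonneg ℝ M)) (Mathlib.Tactic.Linarith.sub_nonpos_of_le k0), mul_nonneg_of_nonpos_of_nonpos (Mathlib.Tactic.Linarith.sub_nonpos_of_le (Mathlib.Tactic.Linarith.natCast_nonneg ℝ M)) (Mathlib.Tactic.Linarith.sub_nonpos_of_le h_nl), mul_pos_of_neg_of_neg (Mathlib.Tactic.Linarith.sub_neg_of_lt h7) (Mathlib.Tactic.Linarith.sub_neg_of_lt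 a.left), Mathlib.Tactic.Linarith.zero_mul_eq (sub_eq_zero_of_eq hM) (Mathlib.Tactic.Linarith.sub_neg_of_lt a.left)]), by (refine lt_of_not_ge fun h_nl => ?_; linarith only [h_nl, k3, h7, a, hM, a.2, mul_nonneg_of_nonpos_of_nonpos (Mathlib.Tactic.Linarith.sub_nonpos_of_le (Mathlib.Tactic.Linarith.natCast_nonneg ℝ M)) (Mathlib.Tactic.Linarith.sub_nonpos_of_le k3), mul_nonneg_of_nonpos_of_nonpos (Mathlib.Tactic.Linarith.sub_nonpos_of_le (Mathlib.Tactic.Linarith.natCast_nonneg ℝ M)) (Mathlib.Tactic.Linarith.sub_nonpos_of_le h_nl), mul_pos_of_neg_of_neg (Mathlib.Tactic.Linarith.sub_neg_of_lt h7) (Mathlib.Tactic.Linarith.sub_neg_of_lt a.right), Mathlib.Tactic.Linarith.zero_mul_eq (sub_eq_zero_of_eq hM) (Mathlib.Tactic.Linarith.sub_neg_of_lt a.right)])⟩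
    ((h.Q_sub (hk hu)).1 ⟨hQ.1, fun i hi => (hQ.2 i hi).trans (by linarith only [h5, h7, h, h.ρ1])⟩)
  refine .inl ⟨u, hu, e3, ?_⟩
  have e4 : |k * β + β * s - (u.2 j + 1 / 2) * C.t0| ≤ C.ρx := by
    have := hQ.2 j (show j ∈ C.I by simp [hI])
    change |_ - C.ctr u j| ≤ _ at this
    rw [ES1_ctr hI, e3] at this
    simpa [ES1_ln] using this
  have e5 : (u.2 j + 1 / 2) * C.t0 = ((2 * u.2 j + 1) * M : ℤ) * β := by
    rw [hM]
    push_cast
    ring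
  rw [ES1_ch, e5, hR]
  rw [e5, hR, abs_le] at e4
  generalize (2 * u.2 j + 1) * M = n at *
  have e6 : n - R < (k : ℤ) + 1 := by
    have : ((n : ℝ) - R) < k + 1 := lt_of_mul_lt_mul_right (by (refine lt_of_not_ge fun h_nl => ?_; linarith only [h_nl, e4, h7, a, hM, a.2, mul_nonneg_of_nonpos_of_nonpos (Mathlib.Tactic.Linarith.sub_nonpos_of_le (Mathlib.Tactic.Linarith.natCast_nonneg ℝ M)) (Mathlib.Tactic.Linarith.sub_nonpos_of_le e4.left), mul_nonneg_of_nonpos_of_nonpos (Mathlib.Tactic.Linarith.sub_nonpos_of_le (Mathlib.Tactic.Linarith.natCast_nonneg ℝ M)) (Mathlib.Tactic.Linarith.sub_nonpos_of_le h_nl), mul_pos_of_neg_of_neg (Mathlib.Tactic.Linarith.sub_neg_of_lt h7) (Mathlib.Tactic.Linarith.sub_neg_of_lt a.right), Mathlib.Tactic.Linarith.zero_mul_eq (sub_eq_zero_of_eq hM) (Mathlib.Tactic.Linarith.sub_neg_of_lt a.right)])) hs.le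
    exact_mod_cast this
  have e7 : (k : ℤ) < n + R := by
    have : (k : ℝ) < n + R := lt_of_mul_lt_mul_right (by (refine lt_of_not_ge fun h_nl => ?_; linarith only [h_nl, e4, h7, a, hM, a.1, mul_nonneg_of_nonpos_of_nonpos (Mathlib.Tactic.Linarith.sub_nonpos_of_le (Mathlib.Tactic.Linarith.natCast_nonneg ℝ M)) (Mathlib.Tactic.Linarith.sub_nonpos_of_le e4.right), mul_nonneg_of_nonpos_of_nonpos (Mathlib.Tactic.Linarith.sub_nonpos_of_le (Mathlib.Tactic.Linarith.natCast_nonneg ℝ M)) (Mathlib.Tactic.Linarith.sub_nonpos_of_le h_nl), mul_pos_of_neg_of_neg (Mathlib.Tactic.Linarith.sub_neg_of_lt h7) (Mathlib.Tactic.Linarith.sub_neg_of_lt a.left), Mathlib.Tactic.Linarith.zero_mul_eq (sub_eq_zero_of_eq hM) (Mathlib.Tactic.Linarith.sub_neg_of_lt a.left)])) hs.le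
    exact_mod_cast this
  have e8 : (n : ℝ) - R ≤ k := by exact_mod_cast Int.lt_add_one_iff.1 e6
  have e9 : (k : ℝ) + 1 ≤ n + R := by exact_mod_cast e7
  constructor <;> linarith only [k1, hs, e8, k2, e9, mul_nonneg_of_nonpos_of_nonpos (le_of_lt (Mathlib.Tactic.Linarith.sub_neg_of_lt hs)) (Mathlib.Tactic.Linarith.sub_nonpos_of_le e8), mul_nonneg_of_nonpos_of_nonpos (le_of_lt (Mathlib.Tactic.Linarith.sub_neg_of_lt hs)) (Mathlib.Tactic.Linarith.sub_nonpos_of_le e9)]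

theorem ES1_vol (h : C.Ok aK) (hI : C.I = {j}) (hz : C.icl z ⊆ C.O) (kp : Set (I3 × I3)) :
    volume (Ioo 0 C.h \ ⋃ u : {u // u ∈ kp ∧ u.1 = z}, C.ES1_ch j u) ≤
      2 * ENNReal.ofReal (C.g * C.h) +
        ({u | u ∈ C.Adm \ kp ∧ u.1 = z}.encard : ℝ≥0∞) * ENNReal.ofReal C.t0 := by
  obtain ⟨-, ⟨M, hM⟩, -, h4, h5, h6, h7⟩ := ES1_num h
  have h8 := h.ρ1
  have h1 : Ioo 0 C.h \ ⋃ u : {u // u ∈ kp ∧ u.1 = z}, C.ES1_ch j u ⊆
      (Icc 0 (4 * C.ρ') ∪ Icc (C.h - 4 * C.ρ') C.h) ∪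
      (⋃ k ∈ Finset.range M, Icc (k * C.t0) (k * C.t0 + (C.t0 / 2 - C.ρx)) ∪
        Icc ((k + 1) * C.t0 - (C.t0 / 2 - C.ρx)) ((k + 1) * C.t0)) ∪
      ⋃ u : {u | u ∈ C.Adm \ kp ∧ u.1 = z}, Icc (u.1.2 j * C.t0) (u.1.2 j * C.t0 + C.t0) := by
    rintro t ⟨ht, hn⟩
    obtain ⟨k, k1, k2⟩ : ∃ k : ℕ, k * C.t0 ≤ t ∧ t < (k + 1) * C.t0 := ⟨⌊t / C.t0⌋₊,
      (le_div_iff₀ h7).1 (Nat.floor_le (div_pos ht.1 h7).le),
      (div_lt_iff₀ h7).1 (Nat.lt_floor_add_one _)⟩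
    by_cases c1 : t ≤ 4 * C.ρ'
    · exact .inl (.inl (.inl ⟨ht.1.le, c1⟩))
    by_cases c2 : C.h - 4 * C.ρ' ≤ t
    · exact .inl (.inl (.inr ⟨c2, ht.2.le⟩))
    have hu : (z, Pi.single j (k : ℤ)) ∈ C.Adm := ⟨hz, fun i hi =>
      Pi.single_eq_of_ne (show i ≠ j by simpa [hI] using hi) _, fun i hi => by
        rw [show i = j by simpa [hI] using hi]
        simp only [Pi.single_eq_same, Int.cast_natCast]
        constructor <;> linarith only [h8, k2, c1, k1, c2]⟩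
    by_cases c3 : (z, Pi.single j (k : ℤ)) ∈ kp
    · refine .inl (.inr (mem_biUnion (x := k) ?_ ?_))
      · have : (k : ℝ) < M := lt_of_mul_lt_mul_right (by linarith only [hM, h7, h8, k1, c2, ht.2]) h7.le
        exact Finset.mem_range.2 (by exact_mod_cast this)
      · by_contra c4
        refine hn (mem_iUnion.2 ⟨⟨_, c3, rfl⟩, ?_⟩)
        simp only [mem_union, mem_Icc, not_or, not_and_or, not_le] at c4
        simp only [ES1_ch, Pi.single_eq_same, Int.cast_natCast]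
        exact ⟨by rcases c4.1 with a | a <;> linarith only [k1, a], by rcases c4.2 with a | a <;> linarith only [a, k2]⟩
    · refine .inr (mem_iUnion.2 ⟨⟨_, ⟨hu, c3⟩, rfl⟩, ?_⟩)
      simp only [Pi.single_eq_same, Int.cast_natCast]
      exact ⟨k1, by linarith⟩
  refine (measure_mono h1).trans ((measure_union_le _ _).trans (add_le_add
    ((measure_union_le _ _).trans ?_) ((measure_iUnion_le _).trans_eq ?_)))
  · rw [two_mul]
    refine add_le_add ((measure_union_le _ _).trans ?_) ((measure_biUnion_finset_le _ _).trans ?_)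
    · rw [Real.volume_Icc, Real.volume_Icc, ← ENNReal.ofReal_add (by linarith) (by linarith)]
      exact ENNReal.ofReal_le_ofReal (by linarith)
    · refine (Finset.sum_le_card_nsmul _ _ (ENNReal.ofReal (C.g * C.t0)) fun k _ =>
        (measure_union_le _ _).trans ?_).trans_eq ?_
      · rw [Real.volume_Icc, Real.volume_Icc, ← ENNReal.ofReal_add (by linarith only [h5]) (by linarith only [h5])]
        exact ENNReal.ofReal_le_ofReal (by linarith only [h4])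
      · rw [Finset.card_range, nsmul_eq_mul, hM, mul_left_comm, ENNReal.ofReal_mul (Nat.cast_nonneg _),
          ENNReal.ofReal_natCast]
  · simp only [Real.volume_Icc, add_sub_cancel_left]
    exact ENNReal.tsum_set_const _ _

theorem ES1_shp (h : C.Ok aK) (hI : C.I = {j}) {p : ℝ} (hp : 0 ≤ p) {G G' : Rn 3 → Rn 3}
    (e : EqOn G' G (C.icl z)) : ENNReal.ofReal (C.h ^ (1 - p)) * C.shp p G' z ≤
      ∫⁻ t in Ioo 0 C.h, ‖deriv (G ∘ C.ES1_ln j z) t - C.L (C.A (Pi.single j 1))‖ₑ ^ p := by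
  have hh := C.ES1_h
  generalize hγ : G ∘ C.ES1_ln j z = γ
  generalize hB : C.L (C.A (Pi.single j 1)) = B
  have ho : IsOpen (cu z) := by
    rw [cu, ofPred_forall]
    exact isOpen_iInter_of_finite fun i => isOpen_Ioo.preimage (continuous_apply i)
  have e1 : EqOn (G' ∘ C.X ∘ pjz C.Iᶜ z) (fun ξ => γ (-(C.h * z j) + C.h * ξ j)) (cu z) := by
    intro ξ hξ
    have a : C.X (pjz C.Iᶜ z ξ) = C.ES1_ln j z (-(C.h * z j) + C.h * ξ j) := by
      rw [neg_add_eq_sub, ← mul_sub, ES1_X h hI]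
      congr 1
      funext i
      by_cases k : i = j <;> simp [pjz, hI, k]
    rw [← hγ]
    refine (e ?_).trans (congrArg G a)
    exact (ES1_mem h hI).2 ⟨_, ⟨by linarith only [hh, hξ, (hξ j).1, mul_pos_of_neg_of_neg (Mathlib.Tactic.Linarith.sub_neg_of_lt hh) (Mathlib.Tactic.Linarith.sub_neg_of_lt (hξ j).left)], by nlinarith [(hξ j).2]⟩, a⟩
  have e2 : C.shp p G' z ≤ ∫⁻ ξ in cu z, ENNReal.ofReal C.h ^ p *
      ‖deriv γ (-(C.h * z j) + C.h * ξ j) - B‖ₑ ^ p := by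
    refine setLIntegral_mono' ho.measurableSet fun ξ hξ => ?_
    rw [← ENNReal.mul_rpow_of_nonneg _ _ hp, ← ofReal_norm, ← ofReal_norm,
      ← ENNReal.ofReal_mul hh.le]
    refine ENNReal.rpow_le_rpow (ENNReal.ofReal_le_ofReal
      (ContinuousLinearMap.opNorm_le_bound _ (by positivity) fun v => ?_)) hp
    rw [(e1.eventuallyEq_of_mem (ho.mem_nhds hξ)).fderiv_eq,
      ES1_fd (fun s => γ (-(C.h * z j) + C.h * s)), ES1_der, hI]
    have : v j • C.h • deriv γ (-(C.h * z j) + C.h * ξ j) - C.h • C.L (C.A (prL {j} v)) =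
        (C.h * v j) • (deriv γ (-(C.h * z j) + C.h * ξ j) - B) := by
      rw [ES1_pr, map_smul, map_smul, hB]
      module
    refine (congrArg norm this).trans_le ?_
    rw [norm_smul, norm_mul, Real.norm_of_nonneg hh.le, mul_right_comm]
    gcongr
    exact norm_le_pi_norm v j
  have e3 : (fun s => -(C.h * z j) + C.h * s) '' Ioo (z j : ℝ) (z j + 1) ⊆ Ioo 0 C.h := by
    rintro _ ⟨s, a, rfl⟩
    exact ⟨by linarith only [hh, a, a.1, mul_pos_of_neg_of_neg (Mathlib.Tactic.Linarith.sub_neg_of_lt hh) (Mathlib.Tactic.Linarith.sub_neg_of_lt a.left)], by nlinarith [a.2]⟩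
  have hm : Measurable fun s => ‖deriv γ (-(C.h * z j) + C.h * s) - B‖ₑ ^ p :=
    (((measurable_deriv γ).comp (by fun_prop)).sub_const B).enorm.pow_const p
  refine (mul_le_mul' le_rfl e2).trans (le_trans (le_of_eq ?_) (lintegral_mono_set e3))
  rw [ES1_aff hh _ measurableSet_Ioo,
    lintegral_const_mul' _ _ (ENNReal.rpow_ne_top_of_nonneg hp ENNReal.ofReal_ne_top),
    ← mul_assoc, ES1_pow hh, ES1_cube hm]

theorem ES1_ce (h : C.Ok aK) (hI : C.I = {j}) (hA : C.A ≠ 0) (p : ℝ) (G : Rn 3 → Rn 3)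
    (u : I3 × I3) : ∫⁻ t in C.ES1_ch j u,
      ‖deriv (G ∘ C.ES1_ln j u.1) t - C.L (C.A (Pi.single j 1))‖ₑ ^ p = C.ce p G u j := by
  have e0 : C.ρ = C.ρx := if_neg (by simp [hI])
  have e1 : C.ES1_ch j u = (fun s => (u.2 j + 1 / 2) * C.t0 + 1 * s) '' Icc (-C.ρx) C.ρx := by
    simp only [one_mul, image_const_add_Icc, ES1_ch, sub_eq_add_neg]
  have e2 : (fun t => G ((C.pc u 0).pt j t)) =
      fun t => (G ∘ C.ES1_ln j u.1) ((u.2 j + 1 / 2) * C.t0 + 1 * t) := funext fun t => by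
    change G (C.ctr u + _) = G _
    rw [ES1_ctr hI, ES1_ln, ES1_ln, one_mul, add_smul, add_assoc]
  rw [e1, ES1_aff one_pos _ measurableSet_Icc, ce, e0, e2, h.LA hA j (by simp [hI])]
  simp only [one_mul, deriv_comp_const_add, ENNReal.ofReal_one]

theorem ES1_ee (h : C.Ok aK) (hI : C.I = {j}) {p : ℝ} (hp : 0 ≤ p) (G : Rn 3 → Rn 3)
    {e : Rn 3 × Rn 3} (he : e ∈ C.Ed0) (hs : segment ℝ e.1 e.2 ⊆ C.icl z) :
    ∫⁻ t in C.ES1_ed j z e, ‖deriv (G ∘ C.ES1_ln j z) t‖ₑ ^ p =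
      ENNReal.ofReal ((16 * C.s) ^ (1 - p)) * edE p G e := by
  have hs0 : 0 < 16 * C.s := by linarith [C.ES1_s]
  obtain ⟨j', h1, h2, -⟩ := he
  obtain rfl : j' = j := Finset.singleton_injective (h1.symm.trans hI)
  obtain ⟨t, -, ht⟩ := (ES1_mem h hI).1 (hs (left_mem_segment ℝ _ _))
  have e1 : e.1 j' - C.X (fun i => z i) j' = t := by simp [ht, ES1_ln]
  have e2 : (fun s => G (seg e.1 e.2 s)) = fun s => (G ∘ C.ES1_ln j' z) (t + 16 * C.s * s) :=
    funext fun s => by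
      rw [seg, h2, add_sub_cancel_left, ht, Function.comp_apply, ES1_ln, ES1_ln, smul_smul, add_smul,
        add_assoc, mul_comm s]
  rw [ES1_ed, e1, ES1_aff hs0 _ measurableSet_Icc, edE, e2]
  simp only [ES1_der, enorm_smul, ENNReal.mul_rpow_of_nonneg _ _ hp, Real.enorm_eq_ofReal hs0.le]
  rw [lintegral_const_mul' _ _ (ENNReal.rpow_ne_top_of_nonneg hp ENNReal.ofReal_ne_top), ← mul_assoc,
    ES1_pow hs0]

theorem ES1_B (h : C.Ok aK) (j : Fin 3) : ‖C.L (C.A (Pi.single j 1))‖ₑ ≤ 2 * ‖C.A‖ₑ := by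
  have h1 : ‖C.L‖ ≤ 2 := by
    have := norm_add_le (C.L - 1) 1
    rw [sub_add_cancel, norm_one] at this
    linarith only [this, h, h.L1.1, h.g0.2]
  have h2 := C.A.le_opNorm (Pi.single j 1)
  rw [Pi.norm_single, norm_one, mul_one] at h2
  rw [← ofReal_norm, ← ofReal_norm, ← ENNReal.ofReal_ofNat,
    ← ENNReal.ofReal_mul zero_le_two]
  exact ENNReal.ofReal_le_ofReal ((C.L.le_opNorm _).trans (by gcongr))

end Cu

theorem esh1 {p : ℝ} (hp1 : 1 ≤ p) (hp : p < 3) {Cc : ℝ≥0∞} (hc : Cc ≠ ⊤) : ∃ C0 : ℝ≥0∞, C0 ≠ ⊤ ∧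
    ∀ (C : Cu) (aK : ℝ) (Ω : Set (Rn 3)) (K : Kx Ω) (ch : Set (Rn 3) → Ch) (w : Set (Rn 3) → ℝ)
      (kp : Set (I3 × I3)) (G G' : Rn 3 → Rn 3) (ε : Set (Rn 3) → ℝ≥0∞), C.Ok aK →
      C.Fit aK K ch w → C.EIn p Cc aK K ch kp G G' ε → ∀ j z, C.I = {j} → C.icl z ⊆ C.O →
      ENNReal.ofReal (C.h ^ (1 - p)) * C.shp p G' z ≤ C0 *
        ((∑' e : {e // e ∈ C.Ed kp ∧ segment ℝ e.1 e.2 ⊆ C.icl z},
            ENNReal.ofReal ((16 * C.s) ^ (1 - p)) * edE p G e) +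
          (∑' u : {u // u ∈ kp ∧ u.1 = z}, C.ce p G u j) + ‖C.A‖ₑ ^ p * (ENNReal.ofReal (C.g * C.h) +
            ({u | u ∈ C.Adm \ kp ∧ u.1 = z}.encard : ℝ≥0∞) * ENNReal.ofReal C.t0)) := by
  have hp0 : 0 ≤ p := zero_le_one.trans hp1
  have q1 : (1 : ℝ≥0∞) ≤ 2 ^ (p - 1) := by
    simpa using ENNReal.rpow_le_rpow_of_exponent_le (one_le_two (α := ℝ≥0∞)) (sub_nonneg.2 hp1)
  have q2 : (1 : ℝ≥0∞) ≤ 2 ^ p * 2 := one_le_mul (by
    simpa using ENNReal.rpow_le_rpow_of_exponent_le (one_le_two (α := ℝ≥0∞)) hp0) one_le_two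
  have q3 : (2 : ℝ≥0∞) ^ (p - 1) ≠ ⊤ :=
    ENNReal.rpow_ne_top_of_nonneg (sub_nonneg.2 hp1) ENNReal.ofNat_ne_top
  refine ⟨2 ^ (p - 1) * (2 ^ p * 2), ENNReal.mul_ne_top q3 (ENNReal.mul_ne_top
    (ENNReal.rpow_ne_top_of_nonneg hp0 ENNReal.ofNat_ne_top) ENNReal.ofNat_ne_top), ?_⟩
  intro C aK Ω K ch w kp G G' ε h hf hE j z hI hz
  have e : EqOn G' G (C.icl z) := fun x hx => hE.sk (ES1_sk K (by
    simpa [hI] using hf.WI_sk h ⟨z, hz, hx⟩))
  refine (Cu.ES1_shp h hI hp0 e).trans ?_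
  have hB := Cu.ES1_B h j
  have hU : ∫⁻ t in ⋃ u : {u // u ∈ kp ∧ u.1 = z}, C.ES1_ch j u,
      ‖deriv (G ∘ C.ES1_ln j z) t - C.L (C.A (Pi.single j 1))‖ₑ ^ p ≤
        ∑' u : {u // u ∈ kp ∧ u.1 = z}, C.ce p G u j :=
    (lintegral_iUnion_le _ _).trans_eq (tsum_congr fun u => by
      rw [← Cu.ES1_ce h hI (hE.ne ⟨_, u.2.1⟩), u.2.2])
  have hV := Cu.ES1_vol h hI hz kp
  have : Countable {e // e ∈ C.Ed kp ∧ segment ℝ e.1 e.2 ⊆ C.icl z} :=
    (h.Ed0_finite.subset fun e (a : e ∈ C.Ed kp ∧ segment ℝ e.1 e.2 ⊆ C.icl z) =>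
      a.1.1).countable.to_subtype
  have hW : ∫⁻ t in Ioo 0 C.h \ ⋃ u : {u // u ∈ kp ∧ u.1 = z}, C.ES1_ch j u,
      ‖deriv (G ∘ C.ES1_ln j z) t‖ₑ ^ p ≤ ∑' e : {e // e ∈ C.Ed kp ∧ segment ℝ e.1 e.2 ⊆ C.icl z},
        ENNReal.ofReal ((16 * C.s) ^ (1 - p)) * edE p G e := by
    refine (lintegral_mono_set (t := ⋃ e : {e // e ∈ C.Ed kp ∧ segment ℝ e.1 e.2 ⊆ C.icl z},
      C.ES1_ed j z e) fun t ht => ?_).trans ((lintegral_iUnion_le _ _).trans_eq
        (tsum_congr fun e => Cu.ES1_ee h hI hp0 G e.2.1.1 e.2.2))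
    rcases Cu.ES1_cover h hI hz hE.adm ht.1 with ⟨u, a, b, c⟩ | ⟨e, a, b, c⟩
    · exact (ht.2 (mem_iUnion.2 ⟨⟨u, a, b⟩, c⟩)).elim
    · exact mem_iUnion.2 ⟨⟨e, a, b⟩, c⟩
  generalize ⋃ u : {u // u ∈ kp ∧ u.1 = z}, C.ES1_ch j u = U at hU hV hW
  generalize deriv (G ∘ C.ES1_ln j z) = γ at hU hW ⊢
  generalize C.L (C.A (Pi.single j 1)) = B at hU hB ⊢
  have hR : ∫⁻ t in Ioo 0 C.h \ U, ‖γ t - B‖ₑ ^ p ≤ 2 ^ (p - 1) *
      ((∫⁻ t in Ioo 0 C.h \ U, ‖γ t‖ₑ ^ p) + 2 ^ p * ‖C.A‖ₑ ^ p * volume (Ioo 0 C.h \ U)) := by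
    rw [← setLIntegral_const, ← lintegral_add_right _ measurable_const,
      ← lintegral_const_mul' _ _ q3]
    refine lintegral_mono fun t => (ENNReal.rpow_le_rpow enorm_sub_le hp0).trans
      ((ENNReal.rpow_add_le_mul_rpow_add_rpow _ _ hp1).trans ?_)
    rw [← ENNReal.mul_rpow_of_nonneg _ _ hp0]
    gcongr
  refine (lintegral_mono_set (t := U ∪ Ioo 0 C.h \ U) fun t ht =>
    (em (t ∈ U)).imp id fun k => ⟨ht, k⟩).trans ((lintegral_union_le _ _ _).trans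
    ((add_le_add hU (hR.trans (mul_le_mul' le_rfl (add_le_add hW (mul_le_mul' le_rfl hV))))).trans ?_))
  generalize ∑' e : {e // e ∈ C.Ed kp ∧ segment ℝ e.1 e.2 ⊆ C.icl z},
    ENNReal.ofReal ((16 * C.s) ^ (1 - p)) * edE p G e = S₁
  generalize ∑' u : {u // u ∈ kp ∧ u.1 = z}, C.ce p G u j = S₂
  generalize ({u | u ∈ C.Adm \ kp ∧ u.1 = z}.encard : ℝ≥0∞) * ENNReal.ofReal C.t0 = S₃
  calc _ ≤ 2 ^ (p - 1) * (2 ^ p * 2 * S₂) + 2 ^ (p - 1) * (2 ^ p * 2 * S₁ +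
        2 ^ p * ‖C.A‖ₑ ^ p * (2 * ENNReal.ofReal (C.g * C.h) + 2 * S₃)) := by
        gcongr
        · exact (le_mul_of_one_le_left' q2).trans (le_mul_of_one_le_left' q1)
        · exact le_mul_of_one_le_left' q2
        · exact le_mul_of_one_le_left' one_le_two
    _ = _ := by ring

end BEp
end
end

-- merged part: Pool.Agent.Work.MP_f0515e_an.P3.EGen
section
-- merged part: Pool.Agent.Work.MP_f0515e_an.P3.ES3
section
/-! Fine cells (rank three, `N = 1`). Cells in `Q u (ρ - l)`, `u` kept: the derivative is `L A`, at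
distance at most `g ‖A‖` from `A`. Cells in the collar: `G' = G` is `cg` Lipschitz. Other cells:
`cav`; a rigid face of such a cell lies on the boundary of a solid and has energy at most
`cg^p (16 s)^2`; there are at most `6 (2 ρ / 16 s)^2` of them for each solid (or: the cells which have
one lie in `Q u (ρ + 16 s) \ Q u ρ`). The volume of these other cells is that of the frames, of
the margins and of the tiles which are not kept. -/

open Set Metric Filter Topology Function BEv MeasureTheory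
open scoped NNReal ENNReal

noncomputable section
namespace BEp

theorem ES3_ball (c : Rn 3) {r : ℝ} (hr : 0 ≤ r) :
    volume (ball c r) = ENNReal.ofReal ((2 * r) ^ 3) := by
  rcases hr.eq_or_lt with rfl | h
  · simp
  · rw [Real.volume_pi_ball _ h, Fintype.card_fin]

theorem ES3_cball (c : Rn 3) {r : ℝ} (hr : 0 ≤ r) :
    volume (closedBall c r) = ENNReal.ofReal ((2 * r) ^ 3) := by
  rw [Real.volume_pi_closedBall _ hr, Fintype.card_fin]

theorem ES3_shell {ι : Type} [Countable ι] (T : Set ι) (c : ι → Rn 3) {o : Rn 3}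
    {η t r R δ : ℝ} (ht : 0 < t) (hr : 0 ≤ r) (hR : r ≤ R) (h2 : R ≤ t / 2)
    (hδ : 6 * (R - r) ≤ δ * t) (hη : 0 ≤ η) (hs : ∀ u ∈ T, ∀ u' ∈ T, u ≠ u' → t ≤ ‖c u - c u'‖)
    (hb : ∀ u ∈ T, ball (c u) (t / 2) ⊆ closedBall o η) :
    volume (⋃ u : T, closedBall (c u) R \ ball (c u) r) ≤ ENNReal.ofReal (δ * (8 * η ^ 3)) := by
  have d0 : 0 ≤ δ := by
    by_contra hn
    linarith only [hR, hδ, hn, ht, mul_neg_of_neg_of_pos (not_le.1 hn) ht]
  have e1 : ∀ u : T, volume (closedBall (c u) R \ ball (c u) r) ≤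
      ENNReal.ofReal δ * volume (ball (c u) (t / 2)) := fun u => by
    rw [measure_sdiff (ball_subset_closedBall.trans (closedBall_subset_closedBall hR))
      measurableSet_ball.nullMeasurableSet measure_ball_lt_top.ne, ES3_ball _ hr,
      ES3_cball _ (hr.trans hR), ES3_ball _ (by linarith), ← ENNReal.ofReal_sub _ (by positivity),
      ← ENNReal.ofReal_mul d0]
    refine ENNReal.ofReal_le_ofReal ?_
    have a1 : (2 * R) ^ 2 + (2 * R) * (2 * r) + (2 * r) ^ 2 ≤ 3 * t ^ 2 := by linarith only [ht, hR, h2, hr, mul_nonneg_of_nonpos_of_nonpos (le_of_lt (Mathlib.Tactic.Linarith.sub_neg_of_lt ht)) (Mathlib.Tactic.Linarith.sub_nonpos_of_le hR), mul_nonneg_of_nonpos_of_nonpos (le_of_lt (Mathlib.Tactic.Linarith.sub_neg_of_lt ht)) (Mathlib.Tactic.Linarith.sub_nonpos_of_le h2), mul_nonneg_of_nonpos_of_nonpos (Mathlib.Tactic.Linarith.sub_nonpos_of_le hr) (Mathlib.Tactic.Linarith.sub_nonpos_of_le hR),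 mul_nonneg_of_nonpos_of_nonpos (Mathlib.Tactic.Linarith.sub_nonpos_of_le hr) (Mathlib.Tactic.Linarith.sub_nonpos_of_le h2), mul_nonneg_of_nonpos_of_nonpos (Mathlib.Tactic.Linarith.sub_nonpos_of_le hR) (Mathlib.Tactic.Linarith.sub_nonpos_of_le h2)]
    have a2 := mul_le_mul_of_nonneg_left a1 (show 0 ≤ 2 * (R - r) by linarith)
    have a3 := mul_le_mul_of_nonneg_right hδ (sq_nonneg t)
    linarith only [a2, a3]
  refine (measure_iUnion_le _).trans ((ENNReal.tsum_le_tsum e1).trans ?_)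
  rw [ENNReal.tsum_mul_left, ENNReal.ofReal_mul d0]
  refine mul_le_mul' le_rfl ((tsum_meas_le_meas_iUnion_of_disjoint _ (fun _ => measurableSet_ball)
    fun u u' hne => ball_disjoint_ball ?_).trans
    ((measure_mono (iUnion_subset fun u : T => hb u u.2)).trans_eq ?_))
  · rw [dist_eq_norm, add_halves]
    exact hs u u.2 u' u'.2 (Subtype.coe_ne_coe.2 hne)
  · rw [ES3_cball _ hη]
    exact congrArg _ (by ring)

theorem ES3_sub {p : ℝ} (hp1 : 1 ≤ p) (hp : p < 3) (X A : Rn 3 →L[ℝ] Rn 3) :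
    ‖X - A‖ₑ ^ p ≤ 4 * (‖X‖ₑ ^ p + ‖A‖ₑ ^ p) := by
  refine (ENNReal.rpow_le_rpow enorm_sub_le (by linarith)).trans
    ((ENNReal.rpow_add_le_mul_rpow_add_rpow _ _ hp1).trans (mul_le_mul' ?_ le_rfl))
  refine (ENNReal.rpow_le_rpow_of_exponent_le one_le_two (show p - 1 ≤ 2 by linarith)).trans_eq ?_
  rw [ENNReal.rpow_two]
  norm_num

theorem ES3_cg {E : Type} [NormedAddCommGroup E] {p c : ℝ} (hp1 : 1 ≤ p) (hp : p < 3) (hc : 1 ≤ c)
    {X : E} (h : ‖X‖ ≤ c) : ‖X‖ₑ ^ p ≤ ENNReal.ofReal (c ^ 3) := by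
  rw [← ofReal_norm]
  refine (ENNReal.rpow_le_rpow (ENNReal.ofReal_le_ofReal h) (by linarith)).trans
    ((ENNReal.rpow_le_rpow_of_exponent_le (ENNReal.one_le_ofReal.2 hc) hp.le).trans_eq ?_)
  rw [ENNReal.ofReal_pow (by linarith), ← ENNReal.rpow_natCast]
  rfl

/-- Collars of the kept solids. -/
def ES3_Col (C : Cu) (kp : Set (I3 × I3)) : Set (Rn 3) :=
  ⋃ u : kp, closedBall (C.ctr u) (C.ρx + 16 * C.s) \ ball (C.ctr u) (C.ρx - C.l)

/-- The part of the fine region off the kept solids. -/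
def ES3_Rest (C : Cu) (kp : Set (I3 × I3)) : Set (Rn 3) :=
  {x | x ∈ C.WI ∧ ∀ u ∈ kp, x ∉ closedBall (C.ctr u) C.ρx}

section
variable {C : Cu} {aK : ℝ} {Ω : Set (Rn 3)} {K : Kx Ω} {ch : Set (Rn 3) → Ch}
  {w : Set (Rn 3) → ℝ} {kp : Set (I3 × I3)}

theorem ES3_I (hc : C.I.card = 3) (i : Fin 3) : i ∈ C.I := by
  rw [Finset.eq_univ_of_card C.I (by simpa using hc)]
  exact Finset.mem_univ i

theorem ES3_pr (hc : C.I.card = 3) (z : Rn 3) : prL C.I z = z :=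
  funext fun i => by simp [prL, ES3_I hc i]

theorem ES3_Q (hc : C.I.card = 3) (u : I3 × I3) {R : ℝ} (hR : 0 ≤ R) :
    C.Q u R = closedBall (C.ctr u) R := by
  ext x
  rw [Cu.mem_Q hR, mem_closedBall_iff_norm]
  exact ⟨fun k => k.2, fun k => ⟨fun i hi => absurd (ES3_I hc i) hi, k⟩⟩

theorem ES3_rho (hc : C.I.card = 3) : C.ρ = C.ρx := if_neg (by omega)

theorem ES3_WI (h : C.Ok aK) : C.WI ⊆ C.q := by
  have h0 := h.pos.2.1
  exact ((h.WI_prop.2.1.trans h.O_prop.2.1).trans (ball_subset_ball (by linarith))).trans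
    ball_subset_closedBall

theorem ES3_tile (h : C.Ok aK) {u : I3 × I3} (hu : u ∈ C.Adm) :
    ball (C.ctr u) (C.t0 / 2) ⊆ closedBall C.o C.η := by
  obtain ⟨-, h0, -, t0, -⟩ := h.pos
  exact ((((ball_subset_ball (by linarith only [t0, h, h.ρ1])).trans (h.Q_sub hu).2.2.1).trans
    h.O_prop.2.1).trans (ball_subset_ball (by linarith))).trans ball_subset_closedBall

theorem ES3_vcol (h : C.Ok aK) (hc : C.I.card = 3) (hk : kp ⊆ C.Adm) :
    ENNReal.ofReal (C.cg ^ 3) * volume (ES3_Col C kp) ≤ 12 * ENNReal.ofReal (C.g * C.η ^ 3) := by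
  obtain ⟨η0, h0, s0, t0, l0, ρ0, k0, z0, -⟩ := h.pos
  obtain ⟨-, e, n1, n2, n3, n4, -⟩ := h.num
  rw [ES3_rho hc] at n4
  obtain ⟨c1, c2⟩ := h.c1
  have g0 := h.g0.1
  have c3 : 0 < C.cg ^ 3 := by positivity
  have a0 : C.g * C.t0 = 2 * (C.g * 2 ^ C.a * C.s) := by
    unfold Cu.t0
    ring
  have a1 : C.cg ^ 3 * C.ζ ≤ C.g * 2 ^ C.a :=
    le_trans (mul_le_mul (pow_le_pow_left₀ (by linarith only [c2]) (by linarith only [c1]) 3) (by linarith only []) z0.le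
      (by positivity)) h.sm
  have a2 : 4 * C.l ≤ C.ζ * C.s := by linarith only [n2, l0, c1, mul_nonneg_of_nonpos_of_nonpos (le_of_lt (Mathlib.Tactic.Linarith.sub_neg_of_lt l0)) (Mathlib.Tactic.Linarith.sub_nonpos_of_le c1)]
  have a3 : C.cg ^ 3 * (4 * C.l) ≤ C.g * 2 ^ C.a * C.s := by
    have b1 := mul_le_mul_of_nonneg_left a2 c3.le
    have b2 := mul_le_mul_of_nonneg_right a1 s0.le
    linarith only [b1, b2]
  have k := ES3_shell kp C.ctr (o := C.o) (η := C.η) (t := C.t0) (r := C.ρx - C.l)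
    (R := C.ρx + 16 * C.s) (δ := 3 / 2 * C.g / C.cg ^ 3) t0 (by linarith only [n4]) (by linarith only [s0, n1])
    (by linarith only [s0, e, n1, a2, n3, mul_nonneg_of_nonpos_of_nonpos (le_of_lt (Mathlib.Tactic.Linarith.sub_neg_of_lt s0)) (Mathlib.Tactic.Linarith.sub_nonpos_of_le n3)]) (by
      rw [div_mul_eq_mul_div, le_div_iff₀ c3]
      have b1 := mul_le_mul_of_nonneg_left n1 c3.le
      linarith only [a0, a3, b1]) η0.le (fun u hu u' hu' hne => (h.tile_sep (hk hu) (hk hu') hne).1)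
    fun u hu => ES3_tile h (hk hu)
  refine (mul_le_mul' le_rfl k).trans_eq ?_
  rw [← ENNReal.ofReal_mul c3.le, ← ENNReal.ofReal_ofNat 12, ← ENNReal.ofReal_mul (by norm_num)]
  refine congrArg _ ?_
  field_simp
  ring

theorem ES3_vrest (h : C.Ok aK) (hc : C.I.card = 3) (hk : kp ⊆ C.Adm) :
    volume (ES3_Rest C kp) ≤ 56 * ENNReal.ofReal (C.g * C.η ^ 3) + C.unk kp := by
  obtain ⟨η0, h0, s0, t0, l0, ρ0, k0, z0, -⟩ := h.pos
  obtain ⟨-, e, n1, n2, n3, n4, -, -, n5, -, -, -, n6, -⟩ := h.num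
  rw [ES3_rho hc] at n4
  have g0 := h.g0.1
  have ks := mul_pos k0 s0
  have r1 := h.ρ1
  have r2 : 100 * C.ρ' ≤ C.g * C.h := by
    have a1 : (1 : ℝ) ≤ C.cf ^ 3 := one_le_pow₀ h.c1.1
    linarith only [h, ρ0, a1, h.ρ2, mul_nonneg_of_nonpos_of_nonpos (le_of_lt (Mathlib.Tactic.Linarith.sub_neg_of_lt ρ0)) (Mathlib.Tactic.Linarith.sub_nonpos_of_le a1)]
  have eX : ∀ (z : I3) (i : Fin 3), C.X (fun i => z i) i = C.o i + C.h * z i := fun z i => by
    have a1 := (h.nN fun i => (z i : ℝ)).2.2.1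
    rw [ES3_pr hc] at a1
    simp [Cu.X, a1]
  obtain ⟨m, hm⟩ : ∃ m : I3 → Rn 3, m = fun z i => C.X (fun i => z i) i + C.h / 2 := ⟨_, rfl⟩
  have v1 := ES3_shell kp C.ctr (o := C.o) (η := C.η) (t := C.t0) (r := C.ρx) (R := C.t0 / 2)
    (δ := 6 * C.g) t0 (by linarith only [s0, n1, n4]) (by linarith only [e, ks]) le_rfl (by linarith only [e, n6]) η0.le
    (fun u hu u' hu' hne => (h.tile_sep (hk hu) (hk hu') hne).1) fun u hu => ES3_tile h (hk hu)
  have v2 := ES3_shell {z : I3 | C.icl z ⊆ C.O} m (o := C.o) (η := C.η) (t := C.h)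
    (r := C.h / 2 - 4 * C.ρ') (R := C.h / 2) (δ := C.g) h0 (by linarith only [s0, e, n1, n4, n5, ks, r1]) (by linarith only [s0, e, n1, n4, ks, r1]) le_rfl
    (by linarith only [s0, e, n1, n4, ks, r1, r2]) η0.le
    (fun z _ z' _ hne => by
      obtain ⟨i, hi⟩ := Function.ne_iff.1 hne
      refine le_trans ?_ (norm_le_pi_norm (m z - m z') i)
      have a1 : (m z - m z') i = C.h * ((z i - z' i : ℤ) : ℝ) := by
        simp only [hm, Pi.sub_apply, eX]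
        push_cast
        ring
      have a2 : (1 : ℝ) ≤ |((z i - z' i : ℤ) : ℝ)| := by
        exact_mod_cast Int.one_le_abs (sub_ne_zero.2 hi)
      rw [a1, Real.norm_eq_abs, abs_mul, abs_of_pos h0]
      exact le_mul_of_one_le_right h0.le a2)
    fun z hz x hx => by
      refine ES3_WI h ⟨z, hz, h.mem_icl.2 ⟨fun i hi => absurd (ES3_I hc i) hi, fun i _ => ?_⟩⟩
      have a1 := abs_le.1 ((norm_le_pi_norm (x - m z) i).trans (mem_ball_iff_norm.1 hx).le)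
      simp only [hm, Pi.sub_apply] at a1
      exact ⟨by linarith only [a1, a1.1], by linarith only [a1, a1.2]⟩
  have v3 : volume (⋃ u : (C.Adm \ kp : Set (I3 × I3)), closedBall (C.ctr u) (C.t0 / 2)) ≤
      C.unk kp := by
    refine (measure_iUnion_le _).trans_eq ?_
    simp only [ES3_cball _ (show 0 ≤ C.t0 / 2 by linarith only [s0, e, n1, n4, ks])]
    rw [ENNReal.tsum_set_const, Cu.unk, Cu.tv, hc]
    exact congrArg _ (congrArg _ (by simp only [Nat.sub_self, pow_zero]; ring))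
  have cov : ES3_Rest C kp ⊆ ((⋃ u : kp, closedBall (C.ctr u) (C.t0 / 2) \ ball (C.ctr u) C.ρx) ∪
      ⋃ z : {z : I3 | C.icl z ⊆ C.O},
        closedBall (m z) (C.h / 2) \ ball (m z) (C.h / 2 - 4 * C.ρ')) ∪
      ⋃ u : (C.Adm \ kp : Set (I3 × I3)), closedBall (C.ctr u) (C.t0 / 2) := by
    rintro x ⟨⟨z, hz, hx⟩, hn⟩
    have hx' := fun i => (h.mem_icl.1 hx).2 i (ES3_I hc i)
    by_cases hb : x ∈ ball (m z) (C.h / 2 - 4 * C.ρ')
    · obtain ⟨k, hk'⟩ : ∃ k : I3, k = fun i => ⌊(x i - C.X (fun i => z i) i) / C.t0⌋ := ⟨_, rfl⟩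
      have b1 : ∀ i, (k i : ℝ) * C.t0 ≤ x i - C.X (fun i => z i) i ∧
          x i - C.X (fun i => z i) i < (k i + 1) * C.t0 := fun i => by
        rw [← le_div_iff₀ t0, ← div_lt_iff₀ t0, hk']
        exact ⟨Int.floor_le _, Int.lt_floor_add_one _⟩
      have b2 : (z, k) ∈ C.Adm := ⟨hz, fun i hi => absurd (ES3_I hc i) hi, fun i _ => by
        have a1 := abs_le.1 ((norm_le_pi_norm (x - m z) i).trans (mem_ball_iff_norm.1 hb).le)
        simp only [hm, Pi.sub_apply] at a1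
        have a2 := b1 i
        exact ⟨by linarith only [r1, a1, a2, a1.1, a2.2], by linarith only [r1, a1, a2, a1.2, a2.1]⟩⟩
      have b3 : x ∈ closedBall (C.ctr (z, k)) (C.t0 / 2) := by
        rw [mem_closedBall_iff_norm, pi_norm_le_iff_of_nonneg (by linarith only [s0, e, n1, n4, ks])]
        intro i
        have a2 := b1 i
        rw [Cu.ctr, ES3_pr hc, Real.norm_eq_abs]
        simp only [Pi.sub_apply, Pi.add_apply]
        exact abs_le.2 ⟨by linarith only [a2, a2.1], by linarith only [a2, a2.2]⟩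
      by_cases hu : (z, k) ∈ kp
      · exact .inl (.inl (mem_iUnion.2 ⟨⟨_, hu⟩, b3, fun a => hn _ hu (ball_subset_closedBall a)⟩))
      · exact .inr (mem_iUnion.2 ⟨⟨_, b2, hu⟩, b3⟩)
    · refine .inl (.inr (mem_iUnion.2 ⟨⟨z, hz⟩, ?_, hb⟩))
      rw [mem_closedBall_iff_norm, pi_norm_le_iff_of_nonneg (by linarith only [s0, e, n1, n4, n5, ks, r1])]
      intro i
      simp only [hm, Pi.sub_apply, Real.norm_eq_abs]
      exact abs_le.2 ⟨by linarith only [hx', (hx' i).1], by linarith only [hx', (hx' i).2]⟩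
  refine (measure_mono cov).trans ((measure_union_le _ _).trans (add_le_add
    ((measure_union_le _ _).trans ((add_le_add v1 v2).trans_eq ?_)) v3))
  rw [← ENNReal.ofReal_add (by positivity) (by positivity), ← ENNReal.ofReal_ofNat 56,
    ← ENNReal.ofReal_mul (by norm_num)]
  exact congrArg _ (by ring)

theorem ES3_sum {T : Set (Set (Rn 3))} (hT : T ⊆ K.cel 3) (Z : Set (Rn 3)) :
    ∑' σ : T, volume (σ.1 ∩ Z) ≤ volume Z := by
  have m : ∀ σ : T, MeasurableSet σ.1 := fun σ =>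
    ((Kx.dm_three (hT σ.2).1).1 (hT σ.2).2).measurableSet
  have k := tsum_meas_le_meas_iUnion_of_disjoint (volume.restrict Z) m
    fun σ τ hne => Kx.disj (hT σ.2).1 (hT τ.2).1 fun e => hne (Subtype.ext e)
  simp only [Measure.restrict_apply (m _)] at k
  exact k.trans ((measure_mono (subset_univ _)).trans_eq (Measure.restrict_apply_univ _))

variable {p : ℝ} {Cc : ℝ≥0∞} {G G' : Rn 3 → Rn 3} {ε : Set (Rn 3) → ℝ≥0∞}

theorem ES3_in (hp1 : 1 ≤ p) (hp : p < 3) (h : C.Ok aK) (he : C.EIn p Cc aK K ch kp G G' ε)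
    (hc : C.I.card = 3) {σ : Set (Rn 3)} (ho : IsOpen σ) {u : I3 × I3} (hu : u ∈ kp)
    (hs : σ ⊆ C.Q u C.ρx) : ∫⁻ x in σ, ‖fderiv ℝ G' x - C.A‖ₑ ^ p ≤
      ENNReal.ofReal C.g * ‖C.A‖ₑ ^ p * volume (σ ∩ C.q) +
        4 * (ENNReal.ofReal (C.cg ^ 3) * (1 + ‖C.A‖ₑ ^ p)) * volume (σ ∩ ES3_Col C kp) := by
  obtain ⟨η0, h0, s0, t0, l0, ρ0, k0, z0, -⟩ := h.pos
  obtain ⟨-, e, n1, n2, n3, n4, -⟩ := h.num
  have ks := mul_pos k0 s0
  obtain ⟨⟨y, r1⟩, r2⟩ := he.rig (by omega) u hu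
  have r0 := he.sol u hu
  rw [ES3_rho hc] at n4 r1
  rw [ES3_Q hc u (by linarith only [s0, n1, n4])] at hs r0 r1 r2
  have hA := (h.tg.2.2.2 (he.ne ⟨u, hu⟩))
  have eA : (C.Ah : Rn 3 →L[ℝ] Rn 3) - C.A = (C.L - 1).comp C.A := by
    refine ContinuousLinearMap.ext fun z => ?_
    have a1 := hA z
    rw [ES3_pr hc] at a1
    simp [a1]
  rw [← lintegral_inter_add_sdiff _ σ (measurableSet_ball (x := C.ctr u) (ε := C.ρx - C.l))]
  refine add_le_add ?_ ?_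
  · refine (setLIntegral_mono' (g := fun _ => ENNReal.ofReal C.g * ‖C.A‖ₑ ^ p)
      (ho.measurableSet.inter measurableSet_ball) fun x hx => ?_).trans ?_
    · have a1 : G' =ᶠ[𝓝 x] fun x => C.Ah (x - C.ctr u) + y := by
        filter_upwards [isOpen_ball.mem_nhds hx.2] with x' hx'
        rw [r0 (closedBall_subset_closedBall (by linarith only [s0, n1]) (ball_subset_closedBall hx')),
          r1 (ball_subset_closedBall hx')]
        rfl
      have a2 : HasFDerivAt (fun x => C.Ah (x - C.ctr u) + y) (C.Ah : Rn 3 →L[ℝ] Rn 3) x :=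
        (((C.Ah : Rn 3 →L[ℝ] Rn 3).hasFDerivAt.comp x
          ((hasFDerivAt_id x).sub_const (C.ctr u))).add_const y).congr_fderiv
          (ContinuousLinearMap.comp_id _)
      rw [a1.fderiv_eq, a2.fderiv, eA]
      have a3 : ‖(C.L - 1).comp C.A‖ₑ ≤ ENNReal.ofReal C.g * ‖C.A‖ₑ := by
        rw [← ofReal_norm, ← ofReal_norm, ← ENNReal.ofReal_mul h.g0.1.le]
        exact ENNReal.ofReal_le_ofReal ((ContinuousLinearMap.opNorm_comp_le _ _).trans
          (mul_le_mul_of_nonneg_right h.L1.1 (norm_nonneg _)))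
      refine (ENNReal.rpow_le_rpow a3 (by linarith only [hp1])).trans ?_
      rw [ENNReal.mul_rpow_of_nonneg _ _ (by linarith only [hp1])]
      refine mul_le_mul' ((ENNReal.rpow_le_rpow_of_exponent_ge
        (ENNReal.ofReal_le_one.2 (by linarith only [h, h.g0.2])) hp1).trans_eq (ENNReal.rpow_one _)) le_rfl
    · rw [setLIntegral_const]
      exact mul_le_mul' le_rfl (measure_mono fun x hx => ⟨hx.1, ES3_tile h (he.adm hu)
        (ball_subset_ball (by linarith only [s0, e, n1, ks]) hx.2)⟩)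
  · refine (setLIntegral_mono'
      (g := fun _ => 4 * (ENNReal.ofReal (C.cg ^ 3) * (1 + ‖C.A‖ₑ ^ p)))
      (ho.measurableSet.diff measurableSet_ball) fun x hx => ?_).trans ?_
    · have a1 : ‖fderiv ℝ G' x‖ ≤ C.cg := by
        refine norm_fderiv_le_of_lip' ℝ (by linarith only [h, h.c1.2]) ?_
        filter_upwards [ho.mem_nhds hx.1] with x' hx'
        rw [r0 (hs hx'), r0 (hs hx.1)]
        exact r2 _ (hs hx') _ (hs hx.1)
      refine (ES3_sub hp1 hp _ _).trans (mul_le_mul' le_rfl ?_)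
      rw [mul_add, mul_one]
      exact add_le_add (ES3_cg hp1 hp h.c1.2 a1)
        (le_mul_of_one_le_left' (ENNReal.one_le_ofReal.2 (one_le_pow₀ h.c1.2)))
    · rw [setLIntegral_const]
      exact mul_le_mul' le_rfl (measure_mono fun x hx => ⟨hx.1, mem_iUnion.2 ⟨⟨u, hu⟩,
        closedBall_subset_closedBall (by linarith only [s0]) (hs hx.1), hx.2⟩⟩)

theorem ES3_out (hp1 : 1 ≤ p) (hp : p < 3) {Cm : ℝ}
    (hm : ∀ (σ : Set (Rn 3)) (N : Rn 3 ≃L[ℝ] Rn 3) (a lam : ℝ), σ ∈ K.cel 3 → 0 ≤ a → 0 ≤ lam →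
      Cbe (N ⁻¹' σ) a lam → (∀ F ∈ K.fc σ, (ch F).Of F ∧ (ch F).Bi N a) →
      ∑' F : K.fc σ, volume (ch F).U ≤ ENNReal.ofReal (Cm * a ^ 4 * lam ^ 2)) (hm0 : 0 ≤ Cm)
    (h : C.Ok aK) (hf : C.Fit aK K ch w) (he : C.EIn p Cc aK K ch kp G G' ε)
    (hc : C.I.card = 3) {σ : Set (Rn 3)} (hσ : σ ∈ C.S1 K) (hs : ∀ u ∈ kp, ¬ σ ⊆ C.Q u C.ρx) :
    ∫⁻ x in σ, ‖fderiv ℝ G' x - C.A‖ₑ ^ p ≤
      4 * Cc * (∑' F : {F // F ∈ K.fc σ ∧ ¬ C.Rig kp F}, C.wgt aK σ F * (ch F).E p G) +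
        4 * ε σ + 4 * Cc * ENNReal.ofReal Cm * ENNReal.ofReal (C.cg ^ 3) *
          volume (σ ∩ ES3_Col C kp) + 4 * ‖C.A‖ₑ ^ p * volume (σ ∩ ES3_Rest C kp) := by
  obtain ⟨η0, h0, s0, t0, l0, ρ0, k0, z0, -⟩ := h.pos
  obtain ⟨-, e, n1, n2, n3, n4, -⟩ := h.num
  have ks := mul_pos k0 s0
  rw [ES3_rho hc] at n4
  have ho : IsOpen σ := (Kx.dm_three hσ.1.1).1 hσ.1.2
  have hq : σ ⊆ C.q := hσ.2.trans (ES3_WI h)
  have e1 : C.cN σ = idE := if_neg fun k => k.1 hσ.2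
  have e2 : C.ca aK σ = 1 := if_pos (.inl hσ.2)
  have e3 : C.cl σ = 8 * C.s := if_pos hσ.2
  have e4 : ∀ F, C.wgt aK σ F = ENNReal.ofReal (16 * C.s) := fun F =>
    congrArg ENNReal.ofReal (if_pos hσ.2)
  have cav := he.cav σ hσ.1 hq hs
  obtain ⟨-, -, cb, fc⟩ := hf.cav h (σ := σ) ⟨hσ.1, hq⟩
  have ms := hm σ _ _ _ hσ.1 (by rw [e2]; exact zero_le_one) (by rw [e3]; positivity) cb
    fun F hF => (fc F hF).2
  rw [e1, e2, e3] at cav cb
  rw [e2, e3] at ms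
  rw [e1, e2] at fc
  change ∫⁻ ξ in σ, ‖fderiv ℝ G' ξ‖ₑ ^ p ≤ _ at cav
  change Cbe σ 1 (8 * C.s) at cb
  have dj : ∀ u ∈ kp, ∀ x ∈ σ, x ∉ closedBall (C.ctr u) C.ρx := fun u hu x hx hb => by
    obtain ⟨-, -, -, ⟨k1, m1⟩, -, ⟨k2, m2⟩, -⟩ := h.mult
    refine hs u hu ?_
    rw [← Kx.cell_eq hσ.1.1 hx]
    refine hf.cel h (he.adm hu) ⟨k2 * k1, ?_⟩ (by linarith only [e, ks]) ?_
    · rw [m2, m1]
      push_cast
      ring
    · rwa [ES3_Q hc u (by linarith only [s0, n1, n4])]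
  have vol := cb.vol zero_le_one (by positivity)
  rw [one_pow, ENNReal.ofReal_one, one_mul] at vol
  have rg : ENNReal.ofReal (8 * C.s) * ∑' F : {F | F ∈ K.fc σ ∧ C.Rig kp F}, (ch F).E p G ≤
      ENNReal.ofReal Cm * ENNReal.ofReal (C.cg ^ 3) * volume (σ ∩ ES3_Col C kp) := by
    rcases eq_empty_or_nonempty {F | F ∈ K.fc σ ∧ C.Rig kp F} with k | ⟨F0, hF0, -, u, hu, hQ⟩
    · rw [k]
      simp
    have a1 : σ ⊆ ES3_Col C kp := fun x hx => by
      obtain ⟨⟨⟨x0, b1, b2⟩, -⟩, b3⟩ := hF0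
      have b4 : x0 ∈ F0 := b2 ▸ K.mem x0 b1
      have b5 := hQ b4
      rw [ES3_Q hc u (by linarith only [s0, n1, n4]), mem_closedBall_iff_norm] at b5
      obtain ⟨Φ, -, c1, -, c3⟩ := cb
      obtain ⟨a, ha, rfl⟩ : x ∈ Φ '' closedBall 0 1 := c1 ▸ subset_closure hx
      obtain ⟨b, hb, rfl⟩ : x0 ∈ Φ '' closedBall 0 1 := c1 ▸ b3 b4
      have c4 := (c3 a ha b hb).1
      have c5 : ‖a - b‖ ≤ 2 := by
        linarith only [ha, hb, norm_sub_le a b, mem_closedBall_zero_iff.1 ha, mem_closedBall_zero_iff.1 hb]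
      have c6 := mul_le_mul_of_nonneg_left c5 (show 0 ≤ 1 * (8 * C.s) by positivity)
      refine mem_iUnion.2 ⟨⟨u, hu⟩, mem_closedBall_iff_norm.2 ?_, fun k => dj u hu _ hx
        (closedBall_subset_closedBall (by linarith only [s0, n1]) (ball_subset_closedBall k))⟩
      linarith only [hu, b5, c4, c6, norm_sub_le_norm_sub_add_norm_sub (Φ a) (Φ b) (C.ctr u)]
    have a2 : ∀ F : {F | F ∈ K.fc σ ∧ C.Rig kp F},
        (ch F).E p G ≤ ENNReal.ofReal (C.cg ^ 3) * volume (ch F).U := by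
      rintro ⟨F, hF, -, u, hu, hQ⟩
      obtain ⟨-, ⟨-, b1, b2⟩, b3⟩ := fc F hF
      rw [← setLIntegral_const]
      refine setLIntegral_mono' b1.measurableSet fun ξ hξ => ES3_cg hp1 hp h.c1.2 ?_
      refine norm_fderiv_le_of_lip' ℝ (by linarith only [h, h.c1.2]) ?_
      filter_upwards [b1.mem_nhds hξ] with ξ' hξ'
      refine ((he.rig (by omega) u hu).2 _ (hQ (b2.subset (mem_image_of_mem _ hξ'))) _
        (hQ (b2.subset (mem_image_of_mem _ hξ)))).trans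
        (mul_le_mul_of_nonneg_left ?_ (by linarith only [h, h.c1.2]))
      have b4 := (b3 (ξ' - ξ)).1
      rw [one_mul] at b4
      rw [Ch.φ, Ch.φ, add_sub_add_left_eq_sub, ← map_sub]
      exact b4
    have a3 := (ENNReal.tsum_le_tsum a2).trans_eq ENNReal.tsum_mul_left
    have a4 := (ENNReal.tsum_mono_subtype (fun F => volume (ch F).U)
      (show {F | F ∈ K.fc σ ∧ C.Rig kp F} ⊆ K.fc σ from fun _ k => k.1)).trans ms
    rw [inter_eq_left.2 a1]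
    refine (mul_le_mul' le_rfl (a3.trans (mul_le_mul' le_rfl a4))).trans
      (le_trans (le_of_eq ?_) (mul_le_mul' le_rfl vol))
    rw [← ENNReal.ofReal_mul (pow_nonneg (by linarith only [h, h.c1.2]) 3 : 0 ≤ C.cg ^ 3), ← ENNReal.ofReal_mul
      (by positivity), ← ENNReal.ofReal_mul hm0, ← ENNReal.ofReal_mul (by
        have := h.c1.2
        positivity)]
    exact congrArg _ (by ring)
  have sp : ∑' F : K.fc σ, (ch F).E p G ≤
      (∑' F : {F | F ∈ K.fc σ ∧ ¬ C.Rig kp F}, (ch F).E p G) +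
        ∑' F : {F | F ∈ K.fc σ ∧ C.Rig kp F}, (ch F).E p G :=
    (ENNReal.tsum_mono_subtype (fun F => (ch F).E p G) fun F hF =>
      (em (C.Rig kp F)).elim (fun k => Or.inr ⟨hF, k⟩) fun k => Or.inl ⟨hF, k⟩).trans
      (ENNReal.tsum_union_le (fun F => (ch F).E p G) _ _)
  have nr : ENNReal.ofReal (8 * C.s) * ∑' F : {F | F ∈ K.fc σ ∧ ¬ C.Rig kp F}, (ch F).E p G ≤
      ∑' F : {F // F ∈ K.fc σ ∧ ¬ C.Rig kp F}, C.wgt aK σ F * (ch F).E p G := by
    rw [← ENNReal.tsum_mul_left]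
    exact ENNReal.tsum_le_tsum fun F => mul_le_mul'
      (by rw [e4]; exact ENNReal.ofReal_le_ofReal (by linarith only [s0])) le_rfl
  rw [one_pow, one_mul, mul_assoc] at cav
  have c1 := cav.trans (add_le_add (mul_le_mul' le_rfl ((mul_le_mul' le_rfl sp).trans
    ((mul_add _ _ _).trans_le (add_le_add nr rg)))) le_rfl)
  have a1 : σ ⊆ ES3_Rest C kp := fun x hx => ⟨hσ.2 hx, fun u hu => dj u hu x hx⟩
  rw [inter_eq_left.2 a1]
  refine (lintegral_mono fun x => ES3_sub hp1 hp _ _).trans ?_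
  rw [lintegral_const_mul' _ _ (by norm_num), lintegral_add_right _ measurable_const,
    setLIntegral_const]
  refine (mul_le_mul' le_rfl (add_le_add c1 le_rfl)).trans_eq ?_
  ring

end

theorem efin {p : ℝ} (hp1 : 1 ≤ p) (hp : p < 3) {Cc : ℝ≥0∞} (hc : Cc ≠ ⊤) : ∃ C0 : ℝ≥0∞, C0 ≠ ⊤ ∧
    ∀ (C : Cu) (aK : ℝ) (Ω : Set (Rn 3)) (K : Kx Ω) (ch : Set (Rn 3) → Ch) (w : Set (Rn 3) → ℝ)
      (kp : Set (I3 × I3)) (G G' : Rn 3 → Rn 3) (ε : Set (Rn 3) → ℝ≥0∞), C.Ok aK →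
      C.Fit aK K ch w → C.EIn p Cc aK K ch kp G G' ε → C.I.card = 3 →
      ∑' σ : C.S1 K, ∫⁻ x in σ, ‖fderiv ℝ G' x - C.A‖ₑ ^ p ≤ C0 *
        (C.SumF aK K kp (C.S1 K) (fun F => (ch F).E p G) + (∑' σ : C.S1 K, ε σ) + C.rem p +
          ‖C.A‖ₑ ^ p * C.unk kp) := by
  obtain ⟨Cm, m1, hm⟩ := mass
  refine ⟨4 * Cc + 12 * (4 + 4 * Cc * ENNReal.ofReal Cm) + 240, by finiteness, ?_⟩
  intro C aK Ω K ch w kp G G' ε h hf he h3
  obtain ⟨B, hB⟩ : ∃ B, B = ‖C.A‖ₑ ^ p := ⟨_, rfl⟩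
  obtain ⟨Kc, hK⟩ : ∃ Kc, Kc = 4 + 4 * Cc * ENNReal.ofReal Cm := ⟨_, rfl⟩
  have cell : ∀ σ : C.S1 K, ∫⁻ x in σ, ‖fderiv ℝ G' x - C.A‖ₑ ^ p ≤
      4 * Cc * (∑' F : {F // F ∈ K.fc σ ∧ ¬ C.Rig kp F}, C.wgt aK σ F * (ch F).E p G) +
        4 * ε σ + ENNReal.ofReal C.g * B * volume (σ.1 ∩ C.q) +
        Kc * (1 + B) * ENNReal.ofReal (C.cg ^ 3) * volume (σ.1 ∩ ES3_Col C kp) +
        4 * B * volume (σ.1 ∩ ES3_Rest C kp) := by
    rintro ⟨σ, hσ⟩
    by_cases hs : ∃ u ∈ kp, σ ⊆ C.Q u C.ρx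
    · obtain ⟨u, hu, hs⟩ := hs
      refine (ES3_in hp1 hp h he h3 ((Kx.dm_three hσ.1.1).1 hσ.1.2) hu hs).trans
        (le_add_right (add_le_add (hB ▸ le_add_self) (mul_le_mul' ?_ le_rfl)))
      rw [← hB, hK, mul_comm (ENNReal.ofReal _), ← mul_assoc]
      exact mul_le_mul' (mul_le_mul' le_self_add le_rfl) le_rfl
    · refine (ES3_out hp1 hp (hm Ω K ch) (by linarith only [m1]) h hf he h3 hσ
        fun u hu k => hs ⟨u, hu, k⟩).trans
        (add_le_add (add_le_add le_self_add (mul_le_mul' (mul_le_mul' ?_ le_rfl) le_rfl))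
          (hB ▸ le_rfl))
      rw [hK]
      exact le_add_self.trans (le_mul_of_one_le_right' le_self_add)
  have hT : C.S1 K ⊆ K.cel 3 := fun _ k => k.1
  refine (ENNReal.tsum_le_tsum cell).trans ?_
  simp only [ENNReal.tsum_add, ENNReal.tsum_mul_left]
  obtain ⟨r, hr⟩ : ∃ r, r = ENNReal.ofReal (C.g * C.η ^ 3) := ⟨_, rfl⟩
  have v1 : ENNReal.ofReal C.g * ∑' σ : C.S1 K, volume (σ.1 ∩ C.q) ≤ 8 * r := by
    refine (mul_le_mul' le_rfl (ES3_sum hT _)).trans_eq ?_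
    rw [Cu.q, ES3_cball _ h.pos.1.le, hr, ← ENNReal.ofReal_mul h.g0.1.le,
      ← ENNReal.ofReal_ofNat 8, ← ENNReal.ofReal_mul (by norm_num)]
    exact congrArg _ (by ring)
  have v2 := (mul_le_mul' (le_refl (ENNReal.ofReal (C.cg ^ 3)))
    (ES3_sum hT (ES3_Col C kp))).trans (ES3_vcol h h3 he.adm)
  have v3 := (ES3_sum hT (ES3_Rest C kp)).trans (ES3_vrest h h3 he.adm)
  rw [← hr] at v2 v3
  rw [Cu.rem, ← hB, ← hr, ← hK, mul_comm (ENNReal.ofReal C.g), mul_assoc B, mul_assoc (Kc * _)]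
  refine (add_le_add (add_le_add (add_le_add le_rfl (mul_le_mul' le_rfl v1))
    (mul_le_mul' le_rfl v2)) (mul_le_mul' le_rfl v3)).trans ?_
  change 4 * Cc * C.SumF aK K kp (C.S1 K) (fun F => (ch F).E p G) + _ + _ + _ + _ ≤ _
  generalize C.SumF aK K kp (C.S1 K) (fun F => (ch F).E p G) = X
  generalize ∑' σ : C.S1 K, ε σ = Y
  generalize C.unk kp = U
  refine le_iff_exists_add.2 ⟨(12 * Kc + 240) * X + (4 * Cc + 12 * Kc + 236) * Y +
    (4 * Cc * (1 + B) + 240 + 8 * B) * r + (4 * Cc + 12 * Kc + 236) * (B * U), by ring⟩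

end BEp
end
end

-- merged part: Pool.Agent.Work.MP_f0515e_an.P3.EGen
section
/-! The cells of the outer layer: `cav`; the rigid faces have energy at most `(cg aK)^p` times the
area of the chart domain; `mass`, `Cbe.vol`, `sum_vol`, `S3_sub`, `layer` and `lay`. -/

open Set Metric Filter Topology Function BEv MeasureTheory
open scoped NNReal ENNReal

noncomputable section
namespace BEp

theorem EGen_split {α : Type} (S : Set α) (P : α → Prop) (E B : α → ℝ≥0∞)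
    (h : ∀ a ∈ S, P a → E a ≤ B a) :
    ∑' a : S, E a ≤ (∑' a : {a // a ∈ S ∧ ¬ P a}, E a) + ∑' a : S, B a := by
  rw [tsum_subtype S E, tsum_subtype S B]
  refine le_trans ?_ (add_le_add_left (tsum_subtype {a | a ∈ S ∧ ¬ P a} E).ge _)
  rw [← ENNReal.tsum_add]
  refine ENNReal.tsum_le_tsum fun a => ?_
  by_cases ha : a ∈ S
  · rw [indicator_of_mem ha, indicator_of_mem ha]
    by_cases hP : P a
    · exact le_add_left (h a ha hP)
    · rw [indicator_of_mem (show a ∈ {a | a ∈ S ∧ ¬ P a} from ⟨ha, hP⟩)]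
      exact le_self_add
  · rw [indicator_of_notMem ha]
    exact bot_le

/-- Energy of a face on which the map is Lipschitz. -/
theorem EGen_lip {p : ℝ} (hp0 : 0 ≤ p) (hp : p ≤ 3) {k : Ch} {F : Set (Rn 3)} (hk : k.Of F)
    {a c : ℝ} (ha : 1 ≤ a) (hc : 1 ≤ c) (hb : k.Bi idE a) {G : Rn 3 → Rn 3}
    (hG : ∀ x ∈ F, ∀ x' ∈ F, ‖G x - G x'‖ ≤ c * ‖x - x'‖) :
    k.E p G ≤ ENNReal.ofReal ((c * a) ^ 3) * volume k.U := by
  have h1 : 1 ≤ c * a := one_le_mul_of_one_le_of_one_le hc ha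
  rw [Ch.E, ← setLIntegral_const]
  refine setLIntegral_mono' hk.2.1.measurableSet fun ξ hξ => ?_
  have k1 : ‖fderiv ℝ (G ∘ k.φ) ξ‖ ≤ c * a := by
    refine norm_fderiv_le_of_lip' ℝ (by linarith) ?_
    filter_upwards [hk.2.1.mem_nhds hξ] with η hη
    refine (hG _ (hk.2.2 ▸ mem_image_of_mem _ hη) _ (hk.2.2 ▸ mem_image_of_mem _ hξ)).trans ?_
    rw [mul_assoc, Ch.φ, Ch.φ, add_sub_add_left_eq_sub, ← map_sub]
    exact mul_le_mul_of_nonneg_left (hb _).1 (by linarith)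
  rw [← ofReal_norm, ENNReal.ofReal_rpow_of_nonneg (norm_nonneg _) hp0]
  refine ENNReal.ofReal_le_ofReal ((Real.rpow_le_rpow (norm_nonneg _) k1 hp0).trans ?_)
  rw [← Real.rpow_natCast]
  exact Real.rpow_le_rpow_of_exponent_le h1 (by exact_mod_cast hp)

theorem egen {p : ℝ} (hp1 : 1 ≤ p) (hp : p < 3) {Cc : ℝ≥0∞} (hc : Cc ≠ ⊤) : ∃ C0 : ℝ≥0∞, C0 ≠ ⊤ ∧
    ∀ (C : Cu) (aK : ℝ) (Ω : Set (Rn 3)) (K : Kx Ω) (ch : Set (Rn 3) → Ch) (w : Set (Rn 3) → ℝ)
      (kp : Set (I3 × I3)) (G G' : Rn 3 → Rn 3) (ε : Set (Rn 3) → ℝ≥0∞), C.Ok aK →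
      C.Fit aK K ch w → C.EIn p Cc aK K ch kp G G' ε →
      ∑' σ : C.S3 K, ∫⁻ x in σ, ‖fderiv ℝ G' x - C.A‖ₑ ^ p ≤ C0 *
        (C.SumF aK K kp (C.S3 K) (fun F => (ch F).E p G) + (∑' σ : C.S3 K, ε σ) + C.rem p) := by
  obtain ⟨Cm, hm1, hm⟩ := mass
  have t2 : (2 : ℝ≥0∞) ^ (p - 1) ≠ ⊤ :=
    ENNReal.rpow_ne_top_of_nonneg (by linarith) ENNReal.ofNat_ne_top
  refine ⟨2 ^ (p - 1) * (Cc + 1 + (Cc * ENNReal.ofReal Cm + 1) * 4), ENNReal.mul_ne_top t2
    (ENNReal.add_ne_top.2 ⟨ENNReal.add_ne_top.2 ⟨hc, ENNReal.one_ne_top⟩, ENNReal.mul_ne_top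
      (ENNReal.add_ne_top.2 ⟨ENNReal.mul_ne_top hc ENNReal.ofReal_ne_top, ENNReal.one_ne_top⟩)
      ENNReal.ofNat_ne_top⟩), fun C aK Ω K ch w kp G G' ε h hf hE => ?_⟩
  obtain ⟨η0, h0, s0, -, -, ρ0, κ0, -, b8, a24⟩ := h.pos
  have a1 : 1 ≤ aK := by linarith
  have g1 := h.c1.2
  have f1 := h.c1.1
  obtain ⟨W, hW⟩ : ∃ W, W = ENNReal.ofReal (aK ^ 26 * C.cg ^ 3) := ⟨_, rfl⟩
  have one : ∀ σ ∈ C.S3 K, ∫⁻ x in σ, ‖fderiv ℝ G' x - C.A‖ₑ ^ p ≤ 2 ^ (p - 1) *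
      (Cc * (∑' F : {F // F ∈ K.fc σ ∧ ¬ C.Rig kp F}, C.wgt aK σ F * (ch F).E p G) + ε σ +
        (Cc * ENNReal.ofReal Cm * W + ‖C.A‖ₑ ^ p) * volume σ) := by
    intro σ hσ
    obtain ⟨c3, cq, nW, nL⟩ := hσ
    have e1 : C.cN σ = idE := if_neg fun k => nL k.2
    have e2 : C.ca aK σ = aK := if_neg fun k => k.elim nW nL
    have e3 : C.cl σ = C.h := (if_neg nW).trans (if_neg nL)
    have e4 : ∀ F, C.wgt aK σ F = ENNReal.ofReal (aK ^ 16 * C.h) := fun F =>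
      congrArg ENNReal.ofReal ((if_neg nW).trans (if_neg nL))
    have k1 := hE.cav σ c3 cq fun u hu k => nW (k.trans (Subset.trans (fun x hx => ?_)
      ((h.Q_sub (hE.adm hu)).1.trans (h.Q_sub (hE.adm hu)).2.1)))
    swap
    · have := h.num.2.1
      have := mul_pos κ0 s0
      exact ⟨hx.1, fun i hi => (hx.2 i hi).trans (by linarith)⟩
    obtain ⟨-, -, cb, fb⟩ := hf.cav h (σ := σ) ⟨c3, cq⟩
    rw [e1, e2, e3] at k1 cb
    rw [e1, e2] at fb
    have k2 := hm Ω K ch σ idE aK C.h c3 (by linarith) h0.le cb fun F hF => (fb F hF).2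
    have k3 := Cbe.vol (σ := σ) cb (by linarith) h0.le
    have k4 := EGen_split (K.fc σ) (C.Rig kp) (fun F => (ch F).E p G)
      (fun F => ENNReal.ofReal ((C.cg * aK) ^ 3) * volume (ch F).U) fun F hF hR => by
        obtain ⟨r1, u, hu, r2⟩ := hR
        exact EGen_lip (by linarith only [hp1]) hp.le (fb F hF).2.1 a1 g1 (fb F hF).2.2
          fun x hx x' hx' => (hE.rig r1 u hu).2 x (r2 hx) x' (r2 hx')
    rw [ENNReal.tsum_mul_left] at k4
    have k5 : ENNReal.ofReal (aK ^ 16 * C.h) * (ENNReal.ofReal ((C.cg * aK) ^ 3) *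
        ∑' F : K.fc σ, volume (ch F).U) ≤ ENNReal.ofReal Cm * W * volume σ := by
      refine (mul_le_mul_right (mul_le_mul_right k2 _) _).trans ?_
      rw [← ENNReal.ofReal_mul (by positivity), ← ENNReal.ofReal_mul (by positivity),
        show aK ^ 16 * C.h * ((C.cg * aK) ^ 3 * (Cm * aK ^ 4 * C.h ^ 2)) =
          Cm * (aK ^ 23 * C.cg ^ 3) * C.h ^ 3 by ring, ENNReal.ofReal_mul (by positivity)]
      refine (mul_le_mul_right k3 _).trans_eq ?_
      rw [hW, ← mul_assoc, ← ENNReal.ofReal_mul (by positivity),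
        ← ENNReal.ofReal_mul (by positivity)]
      congr 2
      ring
    have k6 : ∫⁻ x in σ, ‖fderiv ℝ G' x‖ₑ ^ p ≤
        Cc * (∑' F : {F // F ∈ K.fc σ ∧ ¬ C.Rig kp F}, C.wgt aK σ F * (ch F).E p G) + ε σ +
          Cc * ENNReal.ofReal Cm * W * volume σ := by
      refine le_trans k1 ?_
      simp only [e4]
      rw [ENNReal.tsum_mul_left, add_right_comm, mul_assoc Cc, mul_assoc Cc, mul_assoc Cc,
        ← mul_add]
      refine add_le_add_left (mul_le_mul_right ?_ _) _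
      exact (mul_le_mul_right k4 _).trans ((mul_add _ _ _).trans_le (add_le_add_right k5 _))
    rw [add_mul, ← add_assoc]
    refine le_trans ?_ (mul_le_mul_right (add_le_add_left k6 _) _)
    rw [← setLIntegral_const, ← lintegral_add_right _ measurable_const,
      ← lintegral_const_mul' _ _ t2]
    exact lintegral_mono fun x => (ENNReal.rpow_le_rpow enorm_sub_le (by linarith)).trans
      (ENNReal.rpow_add_le_mul_rpow_add_rpow _ _ hp1)
  have v1 : ∑' σ : C.S3 K, volume σ.1 ≤ ENNReal.ofReal (400 * C.b * C.h * C.η ^ 2) := by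
    have := K.sum_vol hf.opn (T := C.S3 K) (fun σ hσ => hσ.1)
      (S := C.q \ ball C.o (C.η - 16 * C.b * C.h)) (fun σ hσ x hx => ⟨hσ.2.1 hx, fun k =>
        disjoint_left.1 (hf.S3_sub h hσ) hx (ball_subset_closedBall
          (ball_subset_ball (by linarith only [h0, b8, mul_nonneg_of_nonpos_of_nonpos (le_of_lt (Mathlib.Tactic.Linarith.sub_neg_of_lt h0)) (Mathlib.Tactic.Linarith.sub_nonpos_of_le b8)]) k))⟩) fun _ => 1
    simp only [setLIntegral_one] at this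
    exact this.trans h.layer
  have v2 : ∀ c : ℝ, 0 ≤ c → c ≤ aK ^ 30 * (C.cf + C.cg) ^ 3 →
      ENNReal.ofReal c * ∑' σ : C.S3 K, volume σ.1 ≤ 4 * ENNReal.ofReal (C.g * C.η ^ 3) := by
    intro c c0 c1
    refine (mul_le_mul_right v1 _).trans ?_
    rw [← ENNReal.ofReal_mul c0, ← ENNReal.ofReal_ofNat 4, ← ENNReal.ofReal_mul (by norm_num)]
    refine ENNReal.ofReal_le_ofReal ?_
    have l1 := (mul_le_mul_of_nonneg_right c1
      (show 0 ≤ 100 * C.b * C.h by positivity)).trans h.lay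
    have l2 := mul_le_mul_of_nonneg_right l1 (show 0 ≤ 4 * C.η ^ 2 by positivity)
    linarith only [l2]
  have v3 := v2 (aK ^ 26 * C.cg ^ 3) (by positivity) (mul_le_mul
    (pow_le_pow_right₀ a1 (by norm_num)) (pow_le_pow_left₀ (by linarith) (by linarith) 3)
    (by positivity) (by positivity))
  have v4 := v2 1 zero_le_one
    (one_le_mul_of_one_le_of_one_le (one_le_pow₀ a1) (one_le_pow₀ (by linarith)))
  rw [← hW] at v3
  rw [ENNReal.ofReal_one, one_mul] at v4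
  refine (ENNReal.tsum_le_tsum fun σ : C.S3 K => one σ.1 σ.2).trans ?_
  rw [ENNReal.tsum_mul_left, ENNReal.tsum_add, ENNReal.tsum_add, ENNReal.tsum_mul_left,
    ENNReal.tsum_mul_left, mul_assoc (2 ^ (p - 1))]
  refine mul_le_mul_right ?_ _
  have r1 : (Cc * ENNReal.ofReal Cm * W + ‖C.A‖ₑ ^ p) * ∑' σ : C.S3 K, volume σ.1 ≤
      (Cc * ENNReal.ofReal Cm + 1) * 4 * C.rem p := by
    rw [add_mul, add_mul, add_mul, mul_assoc _ W, mul_assoc _ 4, one_mul, Cu.rem]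
    refine add_le_add (mul_le_mul_right (v3.trans (mul_le_mul_right
      (le_mul_of_one_le_left' le_self_add) _)) _) ((mul_le_mul_right v4 _).trans ?_)
    rw [mul_left_comm]
    exact mul_le_mul_right (mul_le_mul_left le_add_self _) _
  rw [mul_add, mul_add]
  exact add_le_add (add_le_add (mul_le_mul_left (le_self_add.trans le_self_add) _)
    (le_mul_of_one_le_left' (le_add_self.trans le_self_add)))
    (r1.trans (mul_le_mul_left le_add_self _))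

end BEp
end
end
end
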