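import Pool.Agent.Work.MP_f0515e_an.P3.GGeo
import Pool.Agent.Work.MP_f0515e_an.P3.FinE
import Pool.Agent.Work.MP_f0515e_an.P3.CPush

-- merged part: Pool.Agent.Work.MP_f0515e_an.P3.EBox
section
/-! One long box. Replace `G' ∘ X` by a `TP` map near the closed cube (`LTP.nhds`), apply `str_cube`
with `B = h L A prL`, `θ = g`, `d = cut`; `D (G' ∘ St) = h⁻¹ D (G' X T) ∘ dgL ∘ Sh` (`Ok.shear`),
`lintX`, `Ok.tg`. The term `J = ∅` is `h^(p-3)` times the integral in `cav`; the terms `J = {j}`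
(only for `card I = 1`) are bounded by `tan_kx` in the coordinates `N`; the integral over `cu z` of
the first term is that over `cu z'` (translation in the directions off `I`). -/

open Set Metric Filter Topology Function BEv MeasureTheory
open scoped NNReal ENNReal

noncomputable section
namespace BEp

theorem EBox_card (I : Finset (Fin 3)) (z : I3) : (cnr I z).card ≤ 8 := by
  rw [cnr, Fintype.card_piFinset]
  refine (Finset.prod_le_pow_card _ _ 2 fun i _ => ?_).trans (by simp)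
  split_ifs
  · simp
  · exact Finset.card_le_two

theorem EBox_cnr {I : Finset (Fin 3)} {z z' : I3} (h : z' ∈ cnr I z) (i : Fin 3) :
    (i ∈ I → z' i = z i) ∧ ((z' i : ℝ) = z i ∨ (z' i : ℝ) = z i + 1) := by
  have k := Fintype.mem_piFinset.1 h i
  split_ifs at k with hi
  · rw [Finset.mem_singleton] at k
    exact ⟨fun _ => k, Or.inl (by rw [k])⟩
  · rw [Finset.mem_insert, Finset.mem_singleton] at k
    exact ⟨fun a => absurd a hi, k.imp (fun e => by rw [e]) fun e => by rw [e]; push_cast; rfl⟩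

theorem EBox_pr (I : Finset (Fin 3)) : ‖prL I‖ ≤ 1 := by
  refine ContinuousLinearMap.opNorm_le_bound _ zero_le_one fun x => ?_
  rw [one_mul]
  refine (pi_norm_le_iff_of_nonneg (norm_nonneg _)).2 fun i => ?_
  rw [Cu.GNum_pr]
  split_ifs
  · exact norm_le_pi_norm x i
  · simp

theorem EBox_tr (p : ℝ) {I : Finset (Fin 3)} (F : Rn 3 → Rn 3) (B : Rn 3 →L[ℝ] Rn 3) {z z' : I3}
    (h : z' ∈ cnr I z) : ∫⁻ ξ in cu z, ‖fderiv ℝ (F ∘ pjz Iᶜ z') ξ - B‖ₑ ^ p =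
      ∫⁻ ξ in cu z', ‖fderiv ℝ (F ∘ pjz Iᶜ z') ξ - B‖ₑ ^ p := by
  obtain ⟨v, hv⟩ : ∃ v : Rn 3, v = fun i => (z i : ℝ) - z' i := ⟨_, rfl⟩
  have e : (fun x => x + v) ⁻¹' cu z = cu z' := by
    ext x
    simp only [cu, hv, mem_preimage, mem_ofPred_eq, Pi.add_apply]
    exact forall_congr' fun i => ⟨fun k => ⟨by linarith [k.1], by linarith [k.2]⟩,
      fun k => ⟨by linarith [k.1], by linarith [k.2]⟩⟩
  have e' : (fun x => (F ∘ pjz Iᶜ z') (x + v)) = F ∘ pjz Iᶜ z' := by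
    funext x
    refine congrArg F (funext fun i => ?_)
    by_cases hi : i ∈ I
    · simp [pjz, hi, hv, (EBox_cnr h i).1 hi]
    · simp [pjz, hi]
  rw [← (measurePreserving_add_right volume v).setLIntegral_comp_preimage_emb
    (measurableEmbedding_addRight v), e]
  refine lintegral_congr fun x => ?_
  rw [← fderiv_comp_add_right, e']

/-- The square under a cube. -/
def EBox_sq (j : Fin 3) (z : I3) : Set (Rn 2) :=
  Set.pi univ fun i => Ioo (z (j.succAbove i) : ℝ) (z (j.succAbove i) + 1)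

theorem EBox_fub (j : Fin 3) (z : I3) {φ : Rn 2 → ℝ≥0∞} (hφ : Measurable φ) :
    ∫⁻ ξ in cu z, φ (j.removeNth ξ) = ∫⁻ y in EBox_sq j z, φ y := by
  have e : cu z = MeasurableEquiv.piFinSuccAbove (fun _ : Fin 3 => ℝ) j ⁻¹'
      (Ioo (z j : ℝ) (z j + 1) ×ˢ EBox_sq j z) := by
    ext ξ
    exact (Fin.forall_iff_succAbove j).trans (and_congr Iff.rfl
      ⟨fun k i _ => k i, fun k i => k i (mem_univ i)⟩)
  have k := (volume_preserving_piFinSuccAbove (fun _ : Fin 3 => ℝ) j).setLIntegral_comp_preimage_emb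
    (MeasurableEquiv.measurableEmbedding _) (fun q => φ q.2) (Ioo (z j : ℝ) (z j + 1) ×ˢ EBox_sq j z)
  rw [← e, Measure.volume_eq_prod, ← Measure.prod_restrict,
    lintegral_prod _ (by exact (hφ.comp measurable_snd).aemeasurable)] at k
  simpa using k

theorem EBox_ι (j : Fin 3) (c : ℝ) (x y : Rn 2) :
    ‖(j.insertNth c x : Rn 3) - j.insertNth c y‖ = ‖x - y‖ := by
  refine le_antisymm ((pi_norm_le_iff_of_nonneg (norm_nonneg _)).2 fun k => ?_)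
    ((pi_norm_le_iff_of_nonneg (norm_nonneg _)).2 fun i => ?_)
  · induction k using j.succAboveCases with
    | x => simp
    | p i => simpa using norm_le_pi_norm (x - y) i
  · have k := norm_le_pi_norm ((j.insertNth c x : Rn 3) - j.insertNth c y) (j.succAbove i)
    rwa [Pi.sub_apply, Fin.insertNth_apply_succAbove, Fin.insertNth_apply_succAbove] at k

theorem EBox_tpι (j : Fin 3) (c : ℝ) : TP fun y : Rn 2 => (j.insertNth c y : Rn 3) := by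
  refine TP.pi fun k => ?_
  induction k using j.succAboveCases with
  | x => simpa only [Fin.insertNth_apply_same] using TP.const c
  | p i => simpa only [Fin.insertNth_apply_succAbove] using TP.id'.apply i

theorem EBox_π (j : Fin 3) (F : Rn 2 → Rn 3) (ξ : Rn 3) :
    ‖fderiv ℝ (fun x : Rn 3 => F (j.removeNth x)) ξ‖ₑ ≤ ‖fderiv ℝ F (j.removeNth ξ)‖ₑ := by
  obtain ⟨P, hP⟩ : ∃ P : Rn 3 →L[ℝ] Rn 2, ∀ x, P x = j.removeNth x :=
    ⟨ContinuousLinearMap.pi fun i => ContinuousLinearMap.proj (j.succAbove i), fun _ => rfl⟩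
  have n1 : ‖P‖ ≤ 1 := ContinuousLinearMap.opNorm_le_bound _ zero_le_one fun x => by
    rw [one_mul, hP]
    exact (pi_norm_le_iff_of_nonneg (norm_nonneg _)).2 fun i => norm_le_pi_norm x _
  simp only [← hP]
  by_cases hd : DifferentiableAt ℝ F (P ξ)
  · have e : fderiv ℝ (fun x => F (P x)) ξ = (fderiv ℝ F (P ξ)).comp P :=
      (hd.hasFDerivAt.comp ξ P.hasFDerivAt).fderiv
    rw [e, ← ofReal_norm, ← ofReal_norm]
    exact ENNReal.ofReal_le_ofReal ((ContinuousLinearMap.opNorm_comp_le _ _).trans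
      (mul_le_of_le_one_right (norm_nonneg _) n1))
  · rw [fderiv_zero_of_not_differentiableAt (f := fun x => F (P x))]
    · rw [← ofReal_norm, norm_zero, ENNReal.ofReal_zero]
      exact zero_le
    · intro k
      have e : (j.insertNth (ξ j) (P ξ) : Rn 3) = ξ := by
        rw [hP, Fin.insertNth_self_removeNth]
      have d : DifferentiableAt ℝ (fun y : Rn 2 => (j.insertNth (ξ j) y : Rn 3)) (P ξ) := by
        refine differentiableAt_pi.2 fun i => ?_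
        induction i using j.succAboveCases with
        | x => simp
        | p i =>
          simp only [Fin.insertNth_apply_succAbove]
          fun_prop
      have k' := DifferentiableAt.comp (g := fun x => F (P x)) (P ξ) (e.symm ▸ k) d
      refine hd ?_
      simpa only [comp_def, hP, Fin.removeNth_insertNth] using k'

section
variable {C : Cu} {aK p : ℝ} {Ω : Set (Rn 3)} {K : Kx Ω} {ch : Set (Rn 3) → Ch}
  {w : Set (Rn 3) → ℝ} {kp : Set (I3 × I3)} {G G' : Rn 3 → Rn 3} {ε : Set (Rn 3) → ℝ≥0∞}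
  {Cc : ℝ≥0∞} {z z' : I3}

theorem EBox_sub (h : C.Ok aK) (hf : C.Fit aK K ch w) (hz : C.bx z ⊆ C.O) : C.bx z ⊆ Ω :=
  hz.trans (h.O_prop.2.1.trans ((ball_subset_ball (by linarith [h.pos.2.1])).trans
    (ball_subset_closedBall.trans hf.sub)))

theorem EBox_mem (h : C.Ok aK) (J : Finset (Fin 3)) (hz : z' ∈ cnr C.I z) {ξ : Rn 3}
    (hξ : ξ ∈ cu z) : C.X (pjz J z' ξ) ∈ C.bx z := by
  intro i
  rw [h.Xξ.2.1, pjz]
  split_ifs
  · rcases (EBox_cnr hz i).2 with e | e <;> rw [e] <;> constructor <;> linarith only []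
  · exact ⟨(hξ i).1.le, (hξ i).2.le⟩

theorem EBox_cav (h : C.Ok aK) (hf : C.Fit aK K ch w) (hk : C.I.card < 3) (hz : C.bx z ⊆ C.O) :
    C.X '' cu z ∈ C.S0 K ∧ ¬ C.X '' cu z ⊆ C.WI ∧ C.cN (C.X '' cu z) = C.N ∧
      C.ca aK (C.X '' cu z) = 1 ∧ C.cl (C.X '' cu z) = C.h / 2 := by
  obtain ⟨a1, a2, a3⟩ := (hf.bx_cel h hz).2.1 hk
  refine ⟨⟨a1, ?_⟩, a2, if_pos ⟨a2, a3⟩, if_pos (Or.inr a3), (if_neg a2).trans (if_pos a3)⟩
  rw [← (h.bx_prop z).2.2.1]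
  exact interior_subset.trans (hz.trans (h.O_prop.2.1.trans
    ((ball_subset_ball (by linarith only [h, h.pos.2.1])).trans ball_subset_closedBall)))

theorem EBox_J0 (hp1 : 1 ≤ p) (h : C.Ok aK) (hf : C.Fit aK K ch w)
    (he : C.EIn p Cc aK K ch kp G G' ε) (hk : C.I.card < 3) (hz : C.bx z ⊆ C.O) :
    ENNReal.ofReal (C.h ^ 3) * ENNReal.ofReal C.h⁻¹ ^ p *
      ∫⁻ ξ in cu z, ‖fderiv ℝ (G' ∘ C.X) ξ‖ₑ ^ p ≤
      Cc * (ENNReal.ofReal C.h * ∑' F : K.fc (C.X '' cu z), (ch F).E p G) + ε (C.X '' cu z) := by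
  obtain ⟨a1, a2, a3, a4, a5⟩ := EBox_cav h hf hk hz
  obtain ⟨-, h0, s0, -, -, r0, k0, -, b8, -⟩ := h.pos
  have p0 : 0 ≤ p := by linarith only [hp1]
  have q1 : ∀ u, C.Q u C.ρx ⊆ C.Q u (C.t0 / 2 + 3 * C.ρ') := fun u x hx =>
    ⟨hx.1, fun i hi => (hx.2 i hi).trans (by linarith only [r0, h, k0, s0, h.num.2.1, mul_pos k0 s0])⟩
  have k := he.cav _ a1.1 a1.2 fun u hu hs => a2 (hs.trans ((q1 u).trans
      ((h.Q_sub (he.adm hu)).1.trans (h.Q_sub (he.adm hu)).2.1)))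
  rw [a3, a4, a5, one_pow, one_mul] at k
  have e := (h.lintX (cu z) fun x => ‖fderiv ℝ (G' ∘ C.N) (C.N.symm x)‖ₑ ^ p).symm.trans
    (h.lintN _ _)
  simp only [C.N.symm_apply_apply] at e
  rw [ENNReal.ofReal_mul (by positivity), mul_assoc, ENNReal.mul_right_inj
    (ENNReal.ofReal_pos.2 (by positivity)).ne' ENNReal.ofReal_ne_top] at e
  rw [← e, mul_assoc] at k
  refine le_trans (le_of_eq ?_) (k.trans (add_le_add (mul_le_mul_right (mul_le_mul_left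
    (ENNReal.ofReal_le_ofReal (by linarith only [h0])) _) _) le_rfl))
  rw [mul_assoc, ← lintegral_const_mul' _ _
    (ENNReal.rpow_ne_top_of_nonneg p0 ENNReal.ofReal_ne_top)]
  refine congrArg _ (lintegral_congr fun ξ => ?_)
  have e1 : ∀ ξ, C.N.symm (C.X ξ) = C.N.symm C.o + C.h • ξ := fun ξ => by simp [Cu.X]
  have e2 : G' ∘ C.X = fun ξ => (fun y => (G' ∘ C.N) (C.N.symm C.o + y)) (C.h • ξ) := by
    funext ξ
    simp [Cu.X]
  rw [e2, fderiv_comp_smul (f := fun y => (G' ∘ C.N) (C.N.symm C.o + y)), fderiv_comp_add_left, e1, ← ENNReal.mul_rpow_of_nonneg _ _ p0,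
    enorm_smul, Real.enorm_eq_ofReal h0.le, ← mul_assoc, ← ENNReal.ofReal_mul (by positivity),
    inv_mul_cancel₀ h0.ne', ENNReal.ofReal_one, one_mul]

theorem EBox_J1 (hp1 : 1 ≤ p) (h : C.Ok aK) (hf : C.Fit aK K ch w)
    (he : C.EIn p Cc aK K ch kp G G' ε) (hk : C.I.card < 3) (hz : C.bx z ⊆ C.O) (j : Fin 3)
    (hz' : z' ∈ cnr C.I z) :
    ENNReal.ofReal (C.h ^ 3) * ENNReal.ofReal C.h⁻¹ ^ p *
      ∫⁻ ξ in cu z, ‖fderiv ℝ (G' ∘ C.X ∘ pjz {j} z') ξ‖ₑ ^ p ≤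
      ENNReal.ofReal C.h * ∑' F : K.fc (C.X '' cu z), (ch F).E p G := by
  obtain ⟨a1, -, a3, a4, -⟩ := EBox_cav h hf hk hz
  have h0 := h.pos.2.1
  have p0 : 0 < p := by linarith only [hp1]
  obtain ⟨-, x2, x3, -⟩ := h.Xξ
  have cl := (h.bx_prop z).2.1
  have op : IsOpen (EBox_sq j z) := isOpen_set_pi finite_univ fun _ _ => isOpen_Ioo
  have e1 : ∀ ξ, C.N.symm (C.X ξ) = C.N.symm C.o + C.h • ξ := fun ξ => by simp [Cu.X]
  have e2 : ∀ x y : Rn 2, ‖C.N.symm (C.X (j.insertNth (z' j : ℝ) x)) -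
      C.N.symm (C.X (j.insertNth (z' j : ℝ) y))‖ = C.h * ‖x - y‖ := fun x y => by
    rw [e1, e1, add_sub_add_left_eq_sub, ← smul_sub, norm_smul, Real.norm_of_nonneg h0.le, EBox_ι]
  have m1 : ∀ y ∈ EBox_sq j z, C.X (j.insertNth (z' j : ℝ) y) ∈
      closure (C.X '' cu z) \ C.X '' cu z := by
    intro y hy
    refine ⟨cl ▸ fun i => ?_, ?_⟩
    · rw [x2]
      induction i using j.succAboveCases with
      | x =>
        rw [Fin.insertNth_apply_same]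
        rcases (EBox_cnr hz' j).2 with e | e <;> rw [e] <;> constructor <;> linarith only []
      | p i =>
        rw [Fin.insertNth_apply_succAbove]
        exact ⟨(hy i (mem_univ i)).1.le, (hy i (mem_univ i)).2.le⟩
    · rintro ⟨ξ, hξ, e⟩
      have e' := congrArg (fun x => C.ξ x j) e
      simp only [x2, Fin.insertNth_apply_same] at e'
      rcases (EBox_cnr hz' j).2 with k | k <;> linarith only [e', k, hξ, (hξ j).1, (hξ j).2]
  have m2 : MapsTo (fun y : Rn 2 => C.X (j.insertNth (z' j : ℝ) y)) (EBox_sq j z) (K.sk 2) :=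
    fun y hy => Kx.rb_sub_sk a1.1.1 a1.1.2.le (m1 y hy)
  have k := tan_kx p0 hf.opn K he.lG (x3.comp (EBox_tpι j (z' j))) op.measurableSet m2 C.N
    zero_le_one h0.le (inv_pos.2 h0).le (fun x _ => LL.of_forall (fun x y => (e2 x y).le) x)
    (fun x _ y _ => by rw [map_sub, e2, inv_mul_cancel_left₀ h0.ne']) ch
    (T := K.fc (C.X '' cu z)) (fun F hF => hF.1)
    (fun F hF => by
      have := ((hf.cav h a1).2.2.2 F hF).2
      rwa [a3, a4] at this)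
    fun x hx hc => ⟨hc, (Kx.KA3_face a1.1.1 (m1 x hx).1).2.2⟩
  have e3 : G' ∘ C.X ∘ pjz {j} z' =
      fun x => (fun y : Rn 2 => G' (C.X (j.insertNth (z' j : ℝ) y))) (j.removeNth x) := by
    funext x
    refine congrArg (fun y => G' (C.X y)) (funext fun i => ?_)
    induction i using j.succAboveCases with
    | x => simp [pjz]
    | p i => simp [pjz, Fin.removeNth]
  have k1 : ∫⁻ ξ in cu z, ‖fderiv ℝ (G' ∘ C.X ∘ pjz {j} z') ξ‖ₑ ^ p ≤ ∫⁻ y in EBox_sq j z,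
      ‖fderiv ℝ (G ∘ fun y : Rn 2 => C.X (j.insertNth (z' j : ℝ) y)) y‖ₑ ^ p := by
    rw [e3]
    refine (lintegral_mono fun ξ => ENNReal.rpow_le_rpow (EBox_π j
      (fun y : Rn 2 => G' (C.X (j.insertNth (z' j : ℝ) y))) ξ) p0.le).trans (le_of_eq ?_)
    refine (EBox_fub j z (φ := fun y => ‖fderiv ℝ
      (fun y : Rn 2 => G' (C.X (j.insertNth (z' j : ℝ) y))) y‖ₑ ^ p)
      ((measurable_fderiv ℝ _).enorm.pow_const p)).trans
      (setLIntegral_congr_fun op.measurableSet fun y hy => ?_)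
    have e4 : (fun y : Rn 2 => G' (C.X (j.insertNth (z' j : ℝ) y))) =ᶠ[𝓝 y]
        G ∘ fun y : Rn 2 => C.X (j.insertNth (z' j : ℝ) y) := by
      filter_upwards [op.mem_nhds hy] with x hx using he.sk (m2 hx)
    simp only [e4.fderiv_eq]
  refine (mul_le_mul_right (k1.trans k) _).trans (le_of_eq ?_)
  rw [← mul_assoc, ENNReal.ofReal_rpow_of_nonneg (by positivity) p0.le,
    ← ENNReal.ofReal_mul (by positivity), ← ENNReal.ofReal_mul (by positivity), one_mul, one_mul,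
    Real.inv_rpow h0.le]
  have := (Real.rpow_pos_of_pos h0 p).ne'
  congr 2
  field_simp

theorem EBox_J (hp1 : 1 ≤ p) (h : C.Ok aK) (hf : C.Fit aK K ch w)
    (he : C.EIn p Cc aK K ch kp G G' ε) (hk : C.I.card < 3) (hz : C.bx z ⊆ C.O)
    {J : Finset (Fin 3)} (hJ : J ∈ C.Iᶜ.ssubsets) (hz' : z' ∈ cnr C.I z) :
    ENNReal.ofReal (C.h ^ 3) * ENNReal.ofReal C.h⁻¹ ^ p *
      ∫⁻ ξ in cu z, ‖fderiv ℝ (G' ∘ C.X ∘ pjz J z') ξ‖ₑ ^ p ≤
      (Cc + 1) * (ENNReal.ofReal C.h * (∑' F : K.fc (C.X '' cu z), (ch F).E p G) +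
        ε (C.X '' cu z)) := by
  have c1 := Finset.card_lt_card (Finset.mem_ssubsets.1 hJ)
  have c2 := h.ne.card_pos
  rw [Finset.card_compl, Fintype.card_fin] at c1
  rcases Nat.le_one_iff_eq_zero_or_eq_one.1 (show J.card ≤ 1 by omega) with e | e
  · rw [Finset.card_eq_zero.1 e]
    refine (EBox_J0 hp1 h hf he hk hz).trans ?_
    rw [mul_add]
    exact add_le_add (mul_le_mul_left le_self_add _) (le_mul_of_one_le_left' le_add_self)
  · obtain ⟨j, rfl⟩ := Finset.card_eq_one.1 e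
    exact (EBox_J1 hp1 h hf he hk hz j hz').trans
      (le_self_add.trans (le_mul_of_one_le_left' le_add_self))

theorem EBox_pt (hp1 : 1 ≤ p) (h : C.Ok aK) {g : Rn 3 → Rn 3} (hg : TP g)
    (e : ∀ x ∈ C.bx z, G' =ᶠ[𝓝 x] g) :
    ∫⁻ ξ in cu z, ‖fderiv ℝ (G' ∘ C.St) (C.X ξ) - C.A‖ₑ ^ p ≤
      2 ^ (p - 1) * (3 ^ p * ENNReal.ofReal C.h⁻¹ ^ p * (∫⁻ ξ in cu z,
        ‖(fderiv ℝ ((fun x => g (C.X x)) ∘ loc C.cut (str C.I C.g)) ξ).comp (dgL C.I C.b) -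
          C.h • (C.L.comp C.A).comp (prL C.I)‖ₑ ^ p) + ENNReal.ofReal (5 * C.g * ‖C.A‖) ^ p) := by
  have p0 : 0 ≤ p := by linarith
  have h0 := h.pos.2.1
  obtain ⟨-, x2, x3, -⟩ := h.Xξ
  obtain ⟨t1, t2, -⟩ := h.St_prop
  obtain ⟨Sh, n1, n2, n3⟩ := h.shear
  obtain ⟨L, hL⟩ := ((hg.comp x3).comp ((tp_str C.I h.g0.1
    (h.g0.2.trans (by norm_num))).loc h.cut_prop.1)).lip
  have c3 : (3 : ℝ≥0∞) ^ p * ENNReal.ofReal C.h⁻¹ ^ p ≠ ⊤ := ENNReal.mul_ne_top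
    (ENNReal.rpow_ne_top_of_nonneg p0 ENNReal.ofNat_ne_top)
    (ENNReal.rpow_ne_top_of_nonneg p0 ENNReal.ofReal_ne_top)
  rw [← lintegral_const_mul' _ _ c3, ← mul_one (ENNReal.ofReal (5 * C.g * ‖C.A‖) ^ p), ← TS1_vol z,
    ← setLIntegral_const, ← lintegral_add_right _ measurable_const, ← lintegral_const_mul' _ _
      (ENNReal.rpow_ne_top_of_nonneg (by linarith) ENNReal.ofNat_ne_top)]
  refine lintegral_mono_ae ((ae_restrict_iff' (TS1_open z).measurableSet).2 ?_)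
  filter_upwards [hL.ae_differentiableAt] with ξ hd hξ
  have m : C.X ξ ∈ C.bx z := fun i => by
    rw [x2]
    exact ⟨(hξ i).1.le, (hξ i).2.le⟩
  have e1 : G' ∘ C.St =ᶠ[𝓝 (C.X ξ)] ((fun x => g (C.X x)) ∘ loc C.cut (str C.I C.g)) ∘ C.ξ :=
    (t1.tp.continuous.tendsto _).eventually (e _ (t2 z _ m))
  have d1 : HasFDerivAt C.ξ (C.h⁻¹ • (C.N.symm : Rn 3 →L[ℝ] Rn 3)) (C.X ξ) := by
    have d0 := ((C.N.symm : Rn 3 →L[ℝ] Rn 3).hasFDerivAt.comp (C.X ξ)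
      ((hasFDerivAt_id (C.X ξ)).sub_const C.o)).const_smul C.h⁻¹
    rw [ContinuousLinearMap.comp_id] at d0
    exact d0
  have d2 : HasFDerivAt ((fun x => g (C.X x)) ∘ loc C.cut (str C.I C.g))
      (fderiv ℝ ((fun x => g (C.X x)) ∘ loc C.cut (str C.I C.g)) ξ) (C.ξ (C.X ξ)) := by
    rw [x2]
    exact hd.hasFDerivAt
  rw [e1.fderiv_eq, (d2.comp _ d1).fderiv, ← ENNReal.mul_rpow_of_nonneg _ _ p0,
    ← ENNReal.mul_rpow_of_nonneg _ _ p0]
  refine le_trans (ENNReal.rpow_le_rpow ?_ p0) (ENNReal.rpow_add_le_mul_rpow_add_rpow _ _ hp1)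
  generalize fderiv ℝ ((fun x => g (C.X x)) ∘ loc C.cut (str C.I C.g)) ξ = D
  have e2 : D.comp (C.h⁻¹ • (C.N.symm : Rn 3 →L[ℝ] Rn 3)) - C.A =
      C.h⁻¹ • (D.comp (dgL C.I C.b) - C.h • (C.L.comp C.A).comp (prL C.I)).comp Sh +
        (((C.L.comp C.A).comp (prL C.I)).comp (C.N.symm : Rn 3 →L[ℝ] Rn 3) - C.A) := by
    rw [ContinuousLinearMap.sub_comp, ContinuousLinearMap.smul_comp, smul_sub,
      inv_smul_smul₀ h0.ne', ContinuousLinearMap.comp_assoc _ (prL C.I) Sh, n3,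
      ContinuousLinearMap.comp_assoc D, ← n2, ContinuousLinearMap.comp_smul,
      ContinuousLinearMap.comp_assoc _ (prL C.I), sub_add_sub_cancel]
  rw [← ofReal_norm, ← ofReal_norm, ← ENNReal.ofReal_ofNat, ← ENNReal.ofReal_mul (by norm_num),
    ← ENNReal.ofReal_mul (by positivity), ← ENNReal.ofReal_add (by positivity)
      (by have := h.g0.1; positivity), e2]
  refine ENNReal.ofReal_le_ofReal ((norm_add_le _ _).trans (add_le_add ?_ h.tg.2.2.1))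
  rw [norm_smul, Real.norm_of_nonneg (inv_pos.2 h0).le, mul_comm 3, mul_assoc, mul_comm 3]
  exact mul_le_mul_of_nonneg_left ((ContinuousLinearMap.opNorm_comp_le _ _).trans
    (mul_le_mul_of_nonneg_left n1 (norm_nonneg _))) (inv_pos.2 h0).le

end

theorem ebox1 {p : ℝ} (hp1 : 1 ≤ p) (hp : p < 3) {Cc : ℝ≥0∞} (hc : Cc ≠ ⊤) : ∃ C0 : ℝ≥0∞, C0 ≠ ⊤ ∧
    ∀ (C : Cu) (aK : ℝ) (Ω : Set (Rn 3)) (K : Kx Ω) (ch : Set (Rn 3) → Ch) (w : Set (Rn 3) → ℝ)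
      (kp : Set (I3 × I3)) (G G' : Rn 3 → Rn 3) (ε : Set (Rn 3) → ℝ≥0∞), C.Ok aK →
      C.Fit aK K ch w → C.EIn p Cc aK K ch kp G G' ε → C.I.card < 3 →
      ∀ z θ', C.bx z ⊆ C.O → (θ' = 1 ∨ θ' = C.g ∧
        C.X '' cu z ⊆ closedBall C.o (C.η - 13 * C.b * C.h)) →
      ∫⁻ x in C.X '' cu z, ‖fderiv ℝ (G' ∘ C.St) x - C.A‖ₑ ^ p ≤ C0 *
        (ENNReal.ofReal (C.b ^ (3 - C.I.card) * C.h ^ (3 - p)) * (∑ z' ∈ cnr C.I z, C.shp p G' z') +
          ENNReal.ofReal (θ' * C.b ^ (3 - C.I.card)) *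
            (ENNReal.ofReal C.h * (∑' F : K.fc (C.X '' cu z), (ch F).E p G) + ε (C.X '' cu z) +
              ‖C.A‖ₑ ^ p * ENNReal.ofReal (C.h ^ 3))) := by
  obtain ⟨Cs, c0, hs⟩ := str_cube hp1
  have p0 : 0 ≤ p := by linarith
  have t2 : ∀ (a : ℝ≥0∞) (r : ℝ), a ≠ ⊤ → 0 ≤ r → a ^ r ≠ ⊤ := fun a r h1 h2 =>
    ENNReal.rpow_ne_top_of_nonneg h2 h1
  have c1 : (2 : ℝ≥0∞) ^ (p - 1) ≠ ⊤ := t2 _ _ ENNReal.ofNat_ne_top (by linarith)
  have c2 : (2 : ℝ≥0∞) ^ p ≠ ⊤ := t2 _ _ ENNReal.ofNat_ne_top p0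
  have c3 : (3 : ℝ≥0∞) ^ p ≠ ⊤ := t2 _ _ ENNReal.ofNat_ne_top p0
  refine ⟨2 ^ (p - 1) * (3 ^ p * Cs * (1 + (64 * (Cc + 1) + 2 ^ p)) + 5), by finiteness,
    fun C aK Ω K ch w kp G G' ε h hf he hk z θ' hz hθ => ?_⟩
  obtain ⟨-, h0, -, -, -, -, -, -, b8, -⟩ := h.pos
  obtain ⟨-, x2, x3, -⟩ := h.Xξ
  obtain ⟨d1, d2, d3, d4, -⟩ := h.cut_prop
  have g0 := h.g0.1
  have g1 := h.g0.2
  have gθ : C.g ≤ θ' := hθ.elim (fun e => by linarith only [g0, g1, e]) fun e => e.1.ge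
  obtain ⟨g', hg, e'⟩ := he.lG'.nhds hf.opn (h.bx_prop z).1 (EBox_sub h hf hz)
  have e1 : ∀ J, ∀ z' ∈ cnr C.I z, ∀ ξ ∈ cu z,
      fderiv ℝ ((fun x => g' (C.X x)) ∘ pjz J z') ξ = fderiv ℝ (G' ∘ C.X ∘ pjz J z') ξ :=
    fun J z' hz' ξ hξ => EventuallyEq.fderiv_eq
      (((x3.comp (TS1_pj J z')).continuous.tendsto ξ).eventually
        (e' _ (EBox_mem h J hz' hξ)).symm)
  have k := hs C.I C.g θ' C.b C.cut _ (C.h • (C.L.comp C.A).comp (prL C.I)) z g0 (by linarith only [g0, g1]) h.gb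
    d1 d2 d3 (hg.comp x3) (hθ.imp_right fun e => ⟨e.1, fun ξ hξ => d4 ξ (e.2 ⟨ξ, hξ, rfl⟩)⟩)
  have mc := (TS1_open z).measurableSet
  have s1 : ∑ z' ∈ cnr C.I z, ∫⁻ ξ in cu z, ‖fderiv ℝ ((fun x => g' (C.X x)) ∘ pjz C.Iᶜ z') ξ -
      C.h • (C.L.comp C.A).comp (prL C.I)‖ₑ ^ p = ∑ z' ∈ cnr C.I z, C.shp p G' z' := by
    refine Finset.sum_congr rfl fun z' hz' => ?_
    rw [setLIntegral_congr_fun mc fun ξ hξ => by rw [e1 _ z' hz' ξ hξ]]
    exact EBox_tr p (G' ∘ C.X) _ hz'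
  rw [s1] at k
  obtain ⟨W, hW⟩ : ∃ W, W = ENNReal.ofReal C.h * (∑' F : K.fc (C.X '' cu z), (ch F).E p G) +
    ε (C.X '' cu z) + ‖C.A‖ₑ ^ p * ENNReal.ofReal (C.h ^ 3) := ⟨_, rfl⟩
  obtain ⟨u, hu⟩ : ∃ u, u = ENNReal.ofReal C.h⁻¹ ^ p := ⟨_, rfl⟩
  have bp : 0 ≤ C.b ^ (3 - C.I.card) := by positivity
  have s2 : ENNReal.ofReal (C.h ^ 3) * u * ∑ J ∈ C.Iᶜ.ssubsets, ∑ z' ∈ cnr C.I z,
      ∫⁻ ξ in cu z, ‖fderiv ℝ ((fun x => g' (C.X x)) ∘ pjz J z') ξ‖ₑ ^ p ≤ 64 * (Cc + 1) * W := by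
    rw [Finset.mul_sum]
    refine (Finset.sum_le_card_nsmul _ _ (8 * ((Cc + 1) * W)) fun J hJ => ?_).trans ?_
    · rw [Finset.mul_sum]
      refine (Finset.sum_le_card_nsmul _ _ ((Cc + 1) * W) fun z' hz' => ?_).trans ?_
      · rw [setLIntegral_congr_fun mc fun ξ hξ => by rw [e1 _ z' hz' ξ hξ], hu, hW]
        exact (EBox_J hp1 h hf he hk hz hJ hz').trans (mul_le_mul_right le_self_add _)
      · rw [nsmul_eq_mul]
        exact mul_le_mul_left (by exact_mod_cast EBox_card C.I z) _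
    · rw [nsmul_eq_mul]
      have n8 : ((C.Iᶜ.ssubsets.card : ℕ) : ℝ≥0∞) ≤ 8 := by
        exact_mod_cast (Finset.card_le_univ _).trans (by simp)
      exact (mul_le_mul_left n8 _).trans (le_of_eq (by ring))
  have s3 : ENNReal.ofReal (C.h ^ 3) * u * ‖C.h • (C.L.comp C.A).comp (prL C.I)‖ₑ ^ p ≤
      2 ^ p * W := by
    rw [hu, mul_assoc, ← ENNReal.mul_rpow_of_nonneg _ _ p0, hW]
    refine le_trans ?_ (mul_le_mul_right le_add_self _)
    rw [← mul_assoc, ← ENNReal.mul_rpow_of_nonneg _ _ p0, mul_comm]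
    refine mul_le_mul_left (ENNReal.rpow_le_rpow ?_ p0) _
    rw [← ofReal_norm, ← ofReal_norm, ← ENNReal.ofReal_mul (by positivity), ← ENNReal.ofReal_ofNat,
      ← ENNReal.ofReal_mul (by positivity), norm_smul, Real.norm_of_nonneg h0.le,
      inv_mul_cancel_left₀ h0.ne']
    refine ENNReal.ofReal_le_ofReal ((ContinuousLinearMap.opNorm_comp_le _ _).trans ?_)
    exact (mul_le_of_le_one_right (norm_nonneg _) (EBox_pr _)).trans h.tg.1
  have s4 : ENNReal.ofReal (C.h ^ 3) * ENNReal.ofReal (5 * C.g * ‖C.A‖) ^ p ≤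
      5 * (ENNReal.ofReal θ' * W) := by
    rw [ENNReal.ofReal_mul (by positivity), ENNReal.mul_rpow_of_nonneg _ _ p0, ofReal_norm, hW,
      mul_left_comm, mul_comm (ENNReal.ofReal (C.h ^ 3)), ← mul_assoc 5]
    refine mul_le_mul' ?_ le_add_self
    refine (ENNReal.rpow_le_self_of_le_one (ENNReal.ofReal_le_one.2 (by linarith only [g0, g1])) hp1).trans ?_
    rw [← ENNReal.ofReal_ofNat, ← ENNReal.ofReal_mul (by norm_num)]
    exact ENNReal.ofReal_le_ofReal (by linarith only [gθ])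
  have e3 : ENNReal.ofReal (C.b ^ (3 - C.I.card) * C.h ^ (3 - p)) =
      ENNReal.ofReal (C.b ^ (3 - C.I.card)) * (ENNReal.ofReal (C.h ^ 3) * u) := by
    rw [hu, ENNReal.ofReal_rpow_of_nonneg (by positivity) p0, ← ENNReal.ofReal_mul (by positivity),
      ← ENNReal.ofReal_mul bp, Real.rpow_sub h0, Real.inv_rpow h0.le, div_eq_mul_inv]
    norm_num
  rw [h.lintX, ← hW, e3, ENNReal.ofReal_mul bp, ENNReal.ofReal_mul (g0.le.trans gθ)]
  refine (mul_le_mul_right ((EBox_pt hp1 h hg e').trans (mul_le_mul_right (add_le_add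
    (mul_le_mul_right k _) le_rfl) _)) _).trans ?_
  rw [← hu]
  generalize ∑ z' ∈ cnr C.I z, C.shp p G' z' = S1 at *
  generalize (∑ J ∈ C.Iᶜ.ssubsets, ∑ z' ∈ cnr C.I z,
      ∫⁻ ξ in cu z, ‖fderiv ℝ ((fun x => g' (C.X x)) ∘ pjz J z') ξ‖ₑ ^ p) = S2 at *
  generalize ‖C.h • (C.L.comp C.A).comp (prL C.I)‖ₑ ^ p = S3 at *
  generalize ENNReal.ofReal (5 * C.g * ‖C.A‖) ^ p = S4 at *
  generalize ENNReal.ofReal (C.h ^ 3) = H at *
  generalize ENNReal.ofReal (C.b ^ (3 - C.I.card)) = β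
  generalize ENNReal.ofReal θ' = θ at *
  calc β * H * (2 ^ (p - 1) * (3 ^ p * u * (Cs * (S1 + θ * (S2 + S3))) + S4))
      = 2 ^ (p - 1) * (3 ^ p * Cs * (β * (H * u) * S1 + θ * β * (H * u * S2 + H * u * S3)) +
          β * (H * S4)) := by ring
    _ ≤ 2 ^ (p - 1) * (3 ^ p * Cs * (β * (H * u) * S1 + θ * β * (64 * (Cc + 1) * W + 2 ^ p * W)) +
          β * (5 * (θ * W))) := by gcongr
    _ ≤ 2 ^ (p - 1) * (3 ^ p * Cs * (β * (H * u) * S1 + θ * β * (64 * (Cc + 1) * W + 2 ^ p * W)) +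
          β * (5 * (θ * W))) + 2 ^ (p - 1) * (3 ^ p * Cs * (θ * β * W +
            (64 * (Cc + 1) + 2 ^ p) * (β * (H * u) * S1)) + 5 * (β * (H * u) * S1)) := le_self_add
    _ = _ := by ring

end BEp
end
end

-- merged part: Pool.Agent.Work.MP_f0515e_an.P3.ES2
section
/-! Error on a square of the slice. `shp` is `h^(p-2)` times the integral over the square of the
tangential error. It vanishes inside `Q u (ρ - l)`, `u` kept (`Ok.tg`); on the collars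
`Q u ρx \ Q u (ρ - l)` it is at most `cg + 2 ‖A‖` and `cg^3 l ≤ g t0` (`sm`); on the rest use `tan_kx`
with the faces which are not rigid; the area of the rest is at most that of the frames, of the
margin of width `4 ρ'` and of the tiles which are not kept. `erig2`: on a rigid face `G` is affine
or `cg` Lipschitz; the faces are disjoint squares. -/

open Set Metric Filter Topology Function BEv MeasureTheory
open scoped NNReal ENNReal

noncomputable section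
namespace BEp

def ES2_E (k : Fin 3) : Rn 2 →L[ℝ] Rn 3 :=
  ∑ j : Fin 2, (ContinuousLinearMap.proj j : Rn 2 →L[ℝ] ℝ).smulRight
    (Pi.single (k.succAbove j) 1 : Rn 3)

def ES2_P (k : Fin 3) : Rn 3 →L[ℝ] Rn 2 :=
  ContinuousLinearMap.pi fun j => ContinuousLinearMap.proj (k.succAbove j)

theorem ES2_Pa (k : Fin 3) (x : Rn 3) (j : Fin 2) : ES2_P k x j = x (k.succAbove j) := rfl

theorem ES2_Ek (k : Fin 3) (y : Rn 2) : ES2_E k y k = 0 := by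
  simp [ES2_E, (Fin.succAbove_ne k _).symm]

theorem ES2_Es (k : Fin 3) (y : Rn 2) (j : Fin 2) : ES2_E k y (k.succAbove j) = y j := by
  simp only [ES2_E, sum_apply, ContinuousLinearMap.smulRight_apply,
    ContinuousLinearMap.proj_apply, Finset.sum_apply, Pi.smul_apply, Pi.single_apply,
    Fin.succAbove_right_inj, smul_eq_mul, mul_ite, mul_one, mul_zero]
  simp

theorem ES2_PE (k : Fin 3) (y : Rn 2) : ES2_P k (ES2_E k y) = y := funext fun j => ES2_Es k y j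

theorem ES2_nP (k : Fin 3) (x : Rn 3) : ‖ES2_P k x‖ ≤ ‖x‖ :=
  (pi_norm_le_iff_of_nonneg (norm_nonneg _)).2 fun _ => norm_le_pi_norm x _

theorem ES2_nE (k : Fin 3) (y : Rn 2) : ‖ES2_E k y‖ = ‖y‖ := by
  refine le_antisymm ((pi_norm_le_iff_of_nonneg (norm_nonneg _)).2 ?_) ?_
  · refine (Fin.forall_iff_succAbove k).2 ⟨?_, fun j => ?_⟩
    · rw [ES2_Ek, norm_zero]
      exact norm_nonneg _
    · rw [ES2_Es]
      exact norm_le_pi_norm y j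
  · conv_lhs => rw [← ES2_PE k y]
    exact ES2_nP k _

theorem ES2_EP {k : Fin 3} {I : Finset (Fin 3)} (hk : ∀ i, i ∈ I ↔ i ≠ k) (x : Rn 3) :
    ES2_E k (ES2_P k x) = prL I x := by
  refine funext ((Fin.forall_iff_succAbove k).2 ⟨?_, fun j => ?_⟩)
  · rw [ES2_Ek, Cu.GNum_pr, if_neg fun e => (hk k).1 e rfl]
  · rw [ES2_Es, Cu.GNum_pr, if_pos ((hk _).2 (Fin.succAbove_ne k j)), ES2_Pa]

theorem ES2_k {I : Finset (Fin 3)} (h : I.card = 2) : ∃ k, ∀ i, i ∈ I ↔ i ≠ k := by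
  have h1 : Iᶜ.card = 1 := by rw [Finset.card_compl, Fintype.card_fin, h]
  obtain ⟨k, hk⟩ := Finset.card_eq_one.1 h1
  refine ⟨k, fun i => ?_⟩
  have h2 : i ∈ Iᶜ ↔ i = k := by rw [hk, Finset.mem_singleton]
  rw [Finset.mem_compl] at h2
  exact ⟨fun a b => h2.2 b a, fun a => not_not.1 fun b => a (h2.1 b)⟩

theorem ES2_fub (k : Fin 3) (z : I3) {φ : Rn 2 → ℝ≥0∞} (hφ : Measurable φ) :
    ∫⁻ ξ in cu z, φ (ES2_P k ξ) =
      ∫⁻ y in {y : Rn 2 | ∀ j, (z (k.succAbove j) : ℝ) < y j ∧ y j < z (k.succAbove j) + 1}, φ y := by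
  have he := volume_preserving_piFinSuccAbove (fun _ : Fin 3 => ℝ) k
  have e1 : cu z = MeasurableEquiv.piFinSuccAbove (fun _ : Fin 3 => ℝ) k ⁻¹'
      (Ioo (z k : ℝ) (z k + 1) ×ˢ
        {y : Rn 2 | ∀ j, (z (k.succAbove j) : ℝ) < y j ∧ y j < z (k.succAbove j) + 1}) := by
    ext ξ
    exact Fin.forall_iff_succAbove k
  have e2 := he.setLIntegral_comp_preimage_emb (MeasurableEquiv.measurableEmbedding _)
    (fun y => φ y.2) (Ioo (z k : ℝ) (z k + 1) ×ˢ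
        {y : Rn 2 | ∀ j, (z (k.succAbove j) : ℝ) < y j ∧ y j < z (k.succAbove j) + 1})
  rw [e1]
  refine e2.trans ?_
  rw [Measure.volume_eq_prod, ← Measure.prod_restrict,
    lintegral_prod (fun y : ℝ × Rn 2 => φ y.2) (hφ.comp measurable_snd).aemeasurable]
  simp

theorem ES2_ann (c : Rn 2) {r R : ℝ} (h0 : 0 ≤ r) (h : r ≤ R) :
    volume (closedBall c R \ ball c r) ≤ ENNReal.ofReal (8 * R * (R - r)) := by
  have h1 : volume (ball c r) = ENNReal.ofReal ((2 * r) ^ 2) := by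
    rcases h0.eq_or_lt with e | e
    · simp [← e]
    · rw [Real.volume_pi_ball c e, Fintype.card_fin]
  rw [measure_sdiff (ball_subset_closedBall.trans (closedBall_subset_closedBall h))
    measurableSet_ball.nullMeasurableSet (by rw [h1]; exact ENNReal.ofReal_ne_top), h1,
    Real.volume_pi_closedBall c (h0.trans h), Fintype.card_fin,
    ← ENNReal.ofReal_sub _ (sq_nonneg _)]
  exact ENNReal.ofReal_le_ofReal (by linarith only [h, mul_nonneg_of_nonpos_of_nonpos (Mathlib.Tactic.Linarith.sub_nonpos_of_le h) (Mathlib.Tactic.Linarith.sub_nonpos_of_le h)])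

theorem ES2_sqr {h : ℝ} (hh : 0 < h) : sqr h = ball (fun _ => h / 2) (h / 2) := by
  ext y
  rw [mem_ball, dist_pi_lt_iff (half_pos hh)]
  refine forall_congr' fun i => ?_
  rw [Real.dist_eq, abs_lt]
  constructor <;> rintro ⟨a, b⟩ <;> constructor <;> linarith only [a, b]

theorem ES2_chain (F : Rn 2 → Rn 3) (k : Fin 3) {h : ℝ} (hh : 0 < h) (a : Rn 2) (ξ : Rn 3) :
    fderiv ℝ (fun x => F (h • (ES2_P k x - a))) ξ =
      h • (fderiv ℝ F (h • (ES2_P k ξ - a))).comp (ES2_P k) := by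
  have h1 : HasFDerivAt (fun x => h • (ES2_P k x - a)) (h • ES2_P k) ξ :=
    ((ES2_P k).hasFDerivAt.sub_const a).const_smul h
  by_cases hd : DifferentiableAt ℝ F (h • (ES2_P k ξ - a))
  · rw [← ContinuousLinearMap.comp_smul]
    exact (hd.hasFDerivAt.comp ξ h1).fderiv
  · rw [fderiv_zero_of_not_differentiableAt hd, ContinuousLinearMap.zero_comp, smul_zero]
    refine fderiv_zero_of_not_differentiableAt fun h2 => hd ?_
    have h3 : DifferentiableAt ℝ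
        (fun y : Rn 2 => ξ + h⁻¹ • ES2_E k (y - h • (ES2_P k ξ - a))) (h • (ES2_P k ξ - a)) := by
      fun_prop
    have h4 : DifferentiableAt ℝ (fun x => F (h • (ES2_P k x - a)))
        ((fun y : Rn 2 => ξ + h⁻¹ • ES2_E k (y - h • (ES2_P k ξ - a))) (h • (ES2_P k ξ - a))) := by
      simpa using h2
    have h5 := DifferentiableAt.comp (h • (ES2_P k ξ - a))
      (f := fun y : Rn 2 => ξ + h⁻¹ • ES2_E k (y - h • (ES2_P k ξ - a))) h4 h3
    refine h5.congr_of_eventuallyEq (Eventually.of_forall fun y => ?_)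
    simp only [comp_apply, map_add, map_smul, ES2_PE]
    congr 1
    rw [add_sub_right_comm, smul_add, smul_smul, mul_inv_cancel₀ hh.ne', one_smul]
    abel

/-- Chart of the slice. -/
def ES2_F (C : Cu) (k : Fin 3) (z : I3) (y : Rn 2) : Rn 3 := C.X (fun i => z i) + ES2_E k y

/-- Centre of a tile in the chart. -/
def ES2_c (C : Cu) (k : Fin 3) (u : I3 × I3) : Rn 2 :=
  fun j => (u.2 (k.succAbove j) + 1 / 2) * C.t0

section
variable {C : Cu} {aK : ℝ} {k : Fin 3} {z : I3} {u : I3 × I3}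

theorem ES2_sub (C : Cu) (k : Fin 3) (z : I3) (y y' : Rn 2) :
    ES2_F C k z y - ES2_F C k z y' = ES2_E k (y - y') := by
  rw [ES2_F, ES2_F, map_sub, add_sub_add_left_eq_sub]

theorem ES2_ctr (hk : ∀ i, i ∈ C.I ↔ i ≠ k) (u : I3 × I3) :
    C.ctr u = ES2_F C k u.1 (ES2_c C k u) := by
  rw [Cu.ctr, ← ES2_EP hk]
  rfl

theorem ES2_off (hk : ∀ i, i ∈ C.I ↔ i ≠ k) {P : Fin 3 → Prop} :
    (∀ i, i ∉ C.I → P i) ↔ P k :=
  ⟨fun h => h k fun e => (hk k).1 e rfl, fun h i hi => by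
    rw [not_not.1 fun e => hi ((hk i).2 e)]
    exact h⟩

theorem ES2_on (hk : ∀ i, i ∈ C.I ↔ i ≠ k) {P : Fin 3 → Prop} :
    (∀ i ∈ C.I, P i) ↔ ∀ j, P (k.succAbove j) :=
  ⟨fun h j => h _ ((hk _).2 (Fin.succAbove_ne k j)), fun h i hi => by
    obtain ⟨j, rfl⟩ := Fin.exists_succAbove_eq ((hk i).1 hi)
    exact h j⟩

theorem ES2_icl (h : C.Ok aK) (hk : ∀ i, i ∈ C.I ↔ i ≠ k) {y : Rn 2} :
    ES2_F C k z y ∈ C.icl z ↔ ∀ j, 0 ≤ y j ∧ y j ≤ C.h := by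
  rw [h.mem_icl, ES2_off hk, ES2_on hk]
  simp only [ES2_F, Pi.add_apply, ES2_Ek, ES2_Es, add_zero, true_and, le_add_iff_nonneg_right,
    add_le_add_iff_left]

theorem ES2_inv {x : Rn 3} (hx : x k = C.X (fun i => z i) k) :
    ES2_F C k z (ES2_P k (x - C.X fun i => z i)) = x := by
  refine funext ((Fin.forall_iff_succAbove k).2 ⟨?_, fun j => ?_⟩)
  · rw [ES2_F, Pi.add_apply, ES2_Ek, add_zero, hx]
  · rw [ES2_F, Pi.add_apply, ES2_Es, ES2_Pa, Pi.sub_apply, add_sub_cancel]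

theorem ES2_inv' (h : C.Ok aK) (hk : ∀ i, i ∈ C.I ↔ i ≠ k) {x : Rn 3} (hx : x ∈ C.icl z) :
    ES2_F C k z (ES2_P k (x - C.X fun i => z i)) = x :=
  ES2_inv ((ES2_off hk).1 (h.mem_icl.1 hx).1)

theorem ES2_Q (hk : ∀ i, i ∈ C.I ↔ i ≠ k) {R : ℝ} (hR : 0 ≤ R) {y : Rn 2} :
    ES2_F C k u.1 y ∈ C.Q u R ↔ y ∈ closedBall (ES2_c C k u) R := by
  rw [Cu.mem_Q hR, ES2_off hk, ES2_ctr hk, ES2_sub, ES2_nE, mem_closedBall, dist_eq_norm]
  simp only [ES2_F, Pi.add_apply, ES2_Ek, true_and]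

theorem ES2_in (h : C.Ok aK) (hk : ∀ i, i ∈ C.I ↔ i ≠ k) (hu : u ∈ C.Adm) :
    closedBall (ES2_c C k u) (C.t0 / 2) ⊆ sqr C.h := fun y hy j => by
  obtain ⟨-, -, -, h1, -, h2, -⟩ := h.pos
  have h3 := (ES2_on hk).1 hu.2.2 j
  have h4 := (dist_pi_le_iff (half_pos h1).le).1 (mem_closedBall.1 hy) j
  rw [Real.dist_eq, abs_le, ES2_c] at h4
  constructor <;> linarith only [h2, h3, h4, h3.1, h3.2, h4.1, h4.2]

theorem ES2_same (h : C.Ok aK) (hk : ∀ i, i ∈ C.I ↔ i ≠ k) (hu : u ∈ C.Adm) {x : Rn 3} {R : ℝ}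
    (h0 : 0 ≤ R) (hR : R ≤ C.t0 / 2) (hx : x ∈ C.Q u R) (hz : x ∈ C.icl z) : u.1 = z := by
  have hh := h.pos.2.1
  have e1 : x k = C.X (fun i => u.1 i) k := by
    rw [(ES2_off hk).1 ((Cu.mem_Q h0).1 hx).1, ES2_ctr hk, ES2_F, Pi.add_apply, ES2_Ek, add_zero]
  obtain ⟨y, rfl⟩ : ∃ y, ES2_F C k u.1 y = x := ⟨_, ES2_inv e1⟩
  have h1 := ES2_in h hk hu (closedBall_subset_closedBall hR ((ES2_Q hk h0).1 hx))
  have e2 : C.ξ (ES2_F C k u.1 y) = (fun i => (u.1 i : ℝ)) + C.h⁻¹ • ES2_E k y := by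
    have e3 : C.N.symm (ES2_E k y) = ES2_E k y := by
      have e4 := (h.nN (ES2_E k y)).2.2.2.1
      rwa [← ES2_EP hk, ES2_PE] at e4
    rw [Cu.ξ, ES2_F, Cu.X, add_assoc, add_sub_cancel_left, map_add, map_smul, e3,
      ContinuousLinearEquiv.symm_apply_apply, smul_add, smul_smul, inv_mul_cancel₀ hh.ne', one_smul]
  refine funext ((Fin.forall_iff_succAbove k).2 ⟨?_, fun j => ?_⟩)
  · have h2 := (ES2_off hk).1 hz.2
    rw [e2, Pi.add_apply, Pi.smul_apply, ES2_Ek, smul_zero, add_zero] at h2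
    exact_mod_cast h2
  · have h2 := hz.1 (k.succAbove j)
    rw [e2, Pi.add_apply, Pi.smul_apply, ES2_Es, smul_eq_mul] at h2
    have h3 : 0 < C.h⁻¹ * y j := mul_pos (inv_pos.2 hh) (h1 j).1
    have h4 : C.h⁻¹ * y j < 1 := by
      rw [inv_mul_lt_iff₀ hh, mul_one]
      exact (h1 j).2
    have h5 : (z (k.succAbove j) : ℝ) < u.1 (k.succAbove j) + 1 := by linarith only [h2, h4, h2.1]
    have h6 : (u.1 (k.succAbove j) : ℝ) < z (k.succAbove j) + 1 := by linarith only [h2, h3, h2.2]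
    have h7 : z (k.succAbove j) < u.1 (k.succAbove j) + 1 := by exact_mod_cast h5
    have h8 : u.1 (k.succAbove j) < z (k.succAbove j) + 1 := by exact_mod_cast h6
    omega

theorem ES2_vsq {h : ℝ} (hh : 0 < h) : volume (sqr h) = ENNReal.ofReal (h ^ 2) := by
  rw [ES2_sqr hh, Real.volume_pi_ball _ (half_pos hh), Fintype.card_fin, mul_div_cancel₀ _ two_ne_zero]

theorem ES2_cnt (h : C.Ok aK) (hk : ∀ i, i ∈ C.I ↔ i ≠ k) {T : Set (I3 × I3)}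
    (hT : ∀ u ∈ T, u ∈ C.Adm ∧ u.1 = z) {S : I3 × I3 → Set (Rn 2)} {a : ℝ} (ha : 0 ≤ a)
    (hS : ∀ u ∈ T, volume (S u) ≤ ENNReal.ofReal (a * C.t0 ^ 2)) :
    volume (⋃ u ∈ T, S u) ≤ ENNReal.ofReal (a * C.h ^ 2) := by
  obtain ⟨-, hh, -, ht, -⟩ := h.pos
  have h1 : ∑' u : T, volume (ball (ES2_c C k u) (C.t0 / 2)) ≤ ENNReal.ofReal (C.h ^ 2) := by
    rw [← measure_biUnion T.to_countable (f := fun u => ball (ES2_c C k u) (C.t0 / 2)) ?_
      fun _ _ => measurableSet_ball, ← ES2_vsq hh]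
    · exact measure_mono (iUnion₂_subset fun u hu =>
        ball_subset_closedBall.trans (ES2_in h hk (hT u hu).1))
    · intro u hu u' hu' hn
      refine ball_disjoint_ball ?_
      have h2 := (h.tile_sep (hT u hu).1 (hT u' hu').1 hn).1
      rwa [ES2_ctr hk, ES2_ctr hk, (hT u hu).2, (hT u' hu').2, ES2_sub, ES2_nE, ← dist_eq_norm,
        ← add_halves C.t0] at h2
  refine (measure_biUnion_le _ T.to_countable S).trans ?_
  rw [ENNReal.ofReal_mul ha]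
  refine le_trans ?_ (mul_le_mul' le_rfl h1)
  rw [← ENNReal.tsum_mul_left]
  refine ENNReal.tsum_le_tsum fun u => ?_
  rw [Real.volume_pi_ball _ (half_pos ht), Fintype.card_fin, mul_div_cancel₀ _ two_ne_zero,
    ← ENNReal.ofReal_mul ha]
  exact hS u u.2

theorem ES2_cov (h : C.Ok aK) (hk : ∀ i, i ∈ C.I ↔ i ≠ k) (hz : C.icl z ⊆ C.O) {y : Rn 2}
    (hy : y ∈ ball (fun _ => C.h / 2 : Rn 2) (C.h / 2 - 4 * C.ρ')) :
    ∃ u ∈ C.Adm, u.1 = z ∧ y ∈ closedBall (ES2_c C k u) (C.t0 / 2) := by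
  obtain ⟨-, hh, -, ht, -⟩ := h.pos
  have h1 : ∀ j, 4 * C.ρ' < y j ∧ y j < C.h - 4 * C.ρ' := fun j => by
    have h2 := (dist_le_pi_dist y _ j).trans_lt (mem_ball.1 hy)
    rw [Real.dist_eq, abs_lt] at h2
    constructor <;> linarith only [h2, h2.1, h2.2]
  have h2 : ∀ j, (⌊y j / C.t0⌋ : ℝ) * C.t0 ≤ y j ∧ y j < (⌊y j / C.t0⌋ + 1) * C.t0 := fun j =>
    ⟨(le_div_iff₀ ht).1 (Int.floor_le _), (div_lt_iff₀ ht).1 (Int.lt_floor_add_one _)⟩
  refine ⟨(z, fun i => ⌊ES2_E k y i / C.t0⌋), ⟨hz, (ES2_off hk).2 ?_, (ES2_on hk).2 fun j => ?_⟩,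
    rfl, mem_closedBall.2 ((dist_pi_le_iff (half_pos ht).le).2 fun j => ?_)⟩
  · simp [ES2_Ek]
  · simp only [ES2_Es]
    constructor <;> linarith only [h1, h2, h, h1 j, h2 j, h.ρ1]
  · simp only [ES2_c, ES2_Es]
    rw [Real.dist_eq, abs_le]
    constructor <;> linarith only [h2, h2 j]

theorem ES2_num (h : C.Ok aK) : 0 ≤ C.ρx - 2 * C.l ∧ C.ρx ≤ C.t0 / 2 ∧
    8 * C.l * C.cg ^ 3 ≤ C.g * C.t0 ∧ 100 * C.ρ' ≤ C.g * C.h := by
  obtain ⟨-, hh, hs, ht, hl, hρ, hκ, hζ, -⟩ := h.pos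
  obtain ⟨-, n1, -, n2, -⟩ := h.num
  obtain ⟨m, hm, e⟩ := Cu.GNum_ρx h
  have hm' : (2 : ℝ) ≤ m := by exact_mod_cast hm
  obtain ⟨c1, c2⟩ := h.c1
  refine ⟨by linarith only [e, hl, hm', mul_nonneg_of_nonpos_of_nonpos (le_of_lt (Mathlib.Tactic.Linarith.sub_neg_of_lt hl)) (Mathlib.Tactic.Linarith.sub_nonpos_of_le hm')], by linarith only [n1, hs, hκ, mul_pos_of_neg_of_neg (Mathlib.Tactic.Linarith.sub_neg_of_lt hs) (Mathlib.Tactic.Linarith.sub_neg_of_lt hκ)], ?_, ?_⟩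
  · have h1 : C.cg ^ 3 ≤ (C.cf + C.cg) ^ 3 := by gcongr; linarith only [c1]
    have h2 : 4 * C.l ≤ (C.ζ + 64) * C.s := by linarith only [hs, n2, hl, c1, mul_nonneg_of_nonpos_of_nonpos (le_of_lt (Mathlib.Tactic.Linarith.sub_neg_of_lt hl)) (Mathlib.Tactic.Linarith.sub_nonpos_of_le c1)]
    have h3 : C.g * C.t0 = 2 * (C.g * 2 ^ C.a * C.s) := by
      rw [Cu.t0]
      ring
    have h4 := mul_le_mul_of_nonneg_right h.sm hs.le
    have h5 : 4 * C.l * C.cg ^ 3 ≤ (C.ζ + 64) * C.s * (C.cf + C.cg) ^ 3 :=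
      mul_le_mul h2 h1 (by positivity) (by positivity)
    linarith only [h3, h4, h5]
  · have h1 : 1 ≤ C.cf ^ 3 := one_le_pow₀ c1
    linarith only [h, hρ, h1, h.ρ2, mul_nonneg_of_nonpos_of_nonpos (le_of_lt (Mathlib.Tactic.Linarith.sub_neg_of_lt hρ)) (Mathlib.Tactic.Linarith.sub_nonpos_of_le h1)]

end

/-- The affine parts. -/
def ES2_S (C : Cu) (k : Fin 3) (z : I3) (kp : Set (I3 × I3)) : Set (Rn 2) :=
  ⋃ u ∈ {u | u ∈ kp ∧ u.1 = z}, ball (ES2_c C k u) (C.ρx - 2 * C.l)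

/-- The rigid parts. -/
def ES2_T (C : Cu) (k : Fin 3) (z : I3) (kp : Set (I3 × I3)) : Set (Rn 2) :=
  ⋃ u ∈ {u | u ∈ kp ∧ u.1 = z}, closedBall (ES2_c C k u) C.ρx

section
variable {C : Cu} {aK p : ℝ} {k : Fin 3} {z : I3} {u : I3 × I3} {kp : Set (I3 × I3)}
  {Ω : Set (Rn 3)} {K : Kx Ω} {ch : Set (Rn 3) → Ch} {w : Set (Rn 3) → ℝ} {G G' : Rn 3 → Rn 3}
  {ε : Set (Rn 3) → ℝ≥0∞} {Cc : ℝ≥0∞}

theorem ES2_mS (C : Cu) (k : Fin 3) (z : I3) (kp : Set (I3 × I3)) :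
    MeasurableSet (ES2_S C k z kp) :=
  MeasurableSet.biUnion (to_countable _) fun _ _ => measurableSet_ball

theorem ES2_mT (C : Cu) (k : Fin 3) (z : I3) (kp : Set (I3 × I3)) :
    MeasurableSet (ES2_T C k z kp) :=
  MeasurableSet.biUnion (to_countable _) fun _ _ => measurableSet_closedBall

theorem ES2_V1 (hp1 : 1 ≤ p) (hp : p < 3) (h : C.Ok aK) (hk : ∀ i, i ∈ C.I ↔ i ≠ k)
    (ha : kp ⊆ C.Adm) : ENNReal.ofReal C.cg ^ p * volume (ES2_T C k z kp \ ES2_S C k z kp) ≤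
      ENNReal.ofReal (C.g * C.h ^ 2) := by
  obtain ⟨n1, n2, n3, -⟩ := ES2_num h
  obtain ⟨-, hh, -, ht, hl, -⟩ := h.pos
  have c2 := h.c1.2
  have c3 : 0 < C.cg ^ 3 := by positivity
  have h1 : ES2_T C k z kp \ ES2_S C k z kp ⊆ ⋃ u ∈ {u | u ∈ kp ∧ u.1 = z},
      closedBall (ES2_c C k u) C.ρx \ ball (ES2_c C k u) (C.ρx - 2 * C.l) := fun y hy => by
    obtain ⟨u, hu, h2⟩ := mem_iUnion₂.1 hy.1
    exact mem_biUnion hu ⟨h2, fun h3 => hy.2 (mem_biUnion hu h3)⟩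
  have h2 := (measure_mono h1).trans (ES2_cnt h hk (z := z) (fun u hu => ⟨ha hu.1, hu.2⟩)
    (a := C.g / C.cg ^ 3) (div_nonneg h.g0.1.le c3.le) fun u _ =>
      (ES2_ann _ n1 (by linarith only [hl])).trans (ENNReal.ofReal_le_ofReal ?_))
  · have h3 : ENNReal.ofReal C.cg ^ p ≤ ENNReal.ofReal (C.cg ^ 3) := by
      rw [ENNReal.ofReal_rpow_of_nonneg (by linarith) (by linarith)]
      refine ENNReal.ofReal_le_ofReal ?_
      rw [← Real.rpow_natCast]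
      exact Real.rpow_le_rpow_of_exponent_le c2 (by exact_mod_cast hp.le)
    refine (mul_le_mul' h3 h2).trans ?_
    rw [← ENNReal.ofReal_mul c3.le, ← mul_assoc, mul_div_cancel₀ _ c3.ne']
  · rw [div_mul_eq_mul_div, le_div_iff₀ c3]
    have h3 : 8 * C.ρx * (C.ρx - (C.ρx - 2 * C.l)) ≤ C.t0 * (8 * C.l) := by linarith only [n2, hl, mul_nonneg_of_nonpos_of_nonpos (Mathlib.Tactic.Linarith.sub_nonpos_of_le n2) (le_of_lt (Mathlib.Tactic.Linarith.sub_neg_of_lt hl))]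
    have h4 := mul_le_mul_of_nonneg_right h3 c3.le
    have h5 := mul_le_mul_of_nonneg_left n3 ht.le
    linarith only [h4, h5]

theorem ES2_V2 (h : C.Ok aK) (hk : ∀ i, i ∈ C.I ↔ i ≠ k) (ha : kp ⊆ C.Adm)
    (hz : C.icl z ⊆ C.O) : volume (sqr C.h \ ES2_S C k z kp) ≤
      6 * ENNReal.ofReal (C.g * C.h ^ 2) +
        ({u | u ∈ C.Adm \ kp ∧ u.1 = z}.encard : ℝ≥0∞) * ENNReal.ofReal (C.t0 ^ 2) := by
  obtain ⟨n1, n2, n3, n4⟩ := ES2_num h
  obtain ⟨-, hh, -, ht, hl, hρ, -⟩ := h.pos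
  obtain ⟨-, m1, -, -, -, -, -, -, m2, -, -, -, m3, -⟩ := h.num
  have g0 := h.g0.1
  have h1 : sqr C.h \ ES2_S C k z kp ⊆
      ((closedBall (fun _ => C.h / 2 : Rn 2) (C.h / 2) \
        ball (fun _ => C.h / 2) (C.h / 2 - 4 * C.ρ')) ∪ ⋃ u ∈ {u | u ∈ kp ∧ u.1 = z},
          closedBall (ES2_c C k u) (C.t0 / 2) \ ball (ES2_c C k u) (C.ρx - 2 * C.l)) ∪
        ⋃ u ∈ {u | u ∈ C.Adm \ kp ∧ u.1 = z}, closedBall (ES2_c C k u) (C.t0 / 2) := by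
    intro y hy
    by_cases h2 : y ∈ ball (fun _ => C.h / 2 : Rn 2) (C.h / 2 - 4 * C.ρ')
    · obtain ⟨u, u1, u2, u3⟩ := ES2_cov h hk hz h2
      by_cases h3 : u ∈ kp
      · exact Or.inl (Or.inr (mem_biUnion (show u ∈ {u | u ∈ kp ∧ u.1 = z} from ⟨h3, u2⟩)
          ⟨u3, fun h4 => hy.2 (mem_biUnion (show u ∈ {u | u ∈ kp ∧ u.1 = z} from ⟨h3, u2⟩) h4)⟩))
      · exact Or.inr (mem_biUnion (show u ∈ {u | u ∈ C.Adm \ kp ∧ u.1 = z} from ⟨⟨u1, h3⟩, u2⟩) u3)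
    · exact Or.inl (Or.inl ⟨ball_subset_closedBall (ES2_sqr hh ▸ hy.1), h2⟩)
  refine (measure_mono h1).trans ((measure_union_le _ _).trans (add_le_add
    ((measure_union_le _ _).trans ?_) ((measure_biUnion_le _ (to_countable _) _).trans ?_)))
  · have h2 := (ES2_ann (fun _ => C.h / 2) (r := C.h / 2 - 4 * C.ρ') (R := C.h / 2) (by linarith only [hρ, m2])
      (by linarith only [hρ])).trans (ENNReal.ofReal_le_ofReal (q := C.g * C.h ^ 2) (by linarith only [g0, n4, hh, mul_nonneg_of_nonpos_of_nonpos (Mathlib.Tactic.Linarith.sub_nonpos_of_le (sq_nonneg ((1 : ℝ) * C.h))) (le_of_lt (Mathlib.Tactic.Linarith.sub_neg_of_lt g0)), mul_nonneg_of_nonpos_of_nonpos (Mathlib.Tactic.Linarith.sub_nonpos_of_le n4) (le_of_lt (Mathlib.Tactic.Linarith.sub_neg_of_lt hh))]))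
    have h3 := ES2_cnt h hk (z := z) (T := {u | u ∈ kp ∧ u.1 = z}) (fun u hu => ⟨ha hu.1, hu.2⟩)
      (S := fun u => closedBall (ES2_c C k u) (C.t0 / 2) \ ball (ES2_c C k u) (C.ρx - 2 * C.l))
      (a := 5 * C.g) (by positivity) fun u _ =>
        (ES2_ann _ n1 (by linarith only [n2, hl])).trans (ENNReal.ofReal_le_ofReal ?_)
    · refine (add_le_add h2 h3).trans (le_of_eq ?_)
      rw [mul_assoc, ENNReal.ofReal_mul (p := 5) (by norm_num), ENNReal.ofReal_ofNat]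
      ring
    · have h4 : 1 ≤ C.cg ^ 3 := one_le_pow₀ h.c1.2
      have h5 : 8 * C.l ≤ C.g * C.t0 := by linarith only [n3, hl, h4, mul_nonneg_of_nonpos_of_nonpos (le_of_lt (Mathlib.Tactic.Linarith.sub_neg_of_lt hl)) (Mathlib.Tactic.Linarith.sub_nonpos_of_le h4)]
      have h6 : C.t0 / 2 - (C.ρx - 2 * C.l) ≤ 5 / 4 * (C.g * C.t0) := by linarith only [m1, m3, h5]
      linarith only [ht, m1, m3, h5, Mathlib.Tactic.Linarith.mul_zero_eq (Mathlib.Tactic.Linarith.sub_neg_of_lt ht) (sub_eq_zero_of_eq m1), mul_nonneg_of_nonpos_of_nonpos (le_of_lt (Mathlib.Tactic.Linarith.sub_neg_of_lt ht)) (Mathlib.Tactic.Linarith.sub_nonpos_of_le m3), mul_nonneg_of_nonpos_of_nonpos (le_of_lt (Mathlib.Tactic.Linarith.sub_neg_of_lt ht)) (Mathlib.Tactic.Linarith.sub_nonpos_of_le h5)]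
  · rw [← ENNReal.tsum_set_const]
    refine ENNReal.tsum_le_tsum fun u => ?_
    rw [Real.volume_pi_closedBall _ (half_pos ht).le, Fintype.card_fin,
      mul_div_cancel₀ _ two_ne_zero]

theorem ES2_aff (h : C.Ok aK) (hk : ∀ i, i ∈ C.I ↔ i ≠ k) (h2 : C.I.card = 2)
    (he : C.EIn p Cc aK K ch kp G G' ε) {y : Rn 2} (hy : y ∈ ES2_S C k z kp) :
    ∀ᶠ y' in 𝓝 y, G (ES2_F C k z y') = G (ES2_F C k z y) + C.L (C.A (ES2_E k (y' - y))) := by
  obtain ⟨u, ⟨hu, rfl⟩, h1⟩ := mem_iUnion₂.1 hy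
  obtain ⟨b, hb⟩ := (he.rig h2.ge u hu).1
  have e : C.ρ - C.l = C.ρx - 2 * C.l := by
    rw [Cu.ρ, if_pos h2]
    ring
  have h3 : ∀ y ∈ ball (ES2_c C k u) (C.ρx - 2 * C.l),
      G (ES2_F C k u.1 y) = C.L (C.A (ES2_E k (y - ES2_c C k u))) + b := fun y hy => by
    rw [hb (e ▸ (ES2_Q hk (ES2_num h).1).2 (ball_subset_closedBall hy))]
    show C.Ah (ES2_F C k u.1 y - C.ctr u) + b = _
    rw [ES2_ctr hk, ES2_sub, ← ES2_PE k (y - _), ES2_EP hk, h.tg.2.2.2 (he.ne ⟨u, hu⟩)]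
  filter_upwards [isOpen_ball.mem_nhds h1] with y' hy'
  rw [h3 y h1, h3 y' hy']
  simp only [map_sub]
  abel

theorem ES2_pw (hp1 : 1 ≤ p) (hp : p < 3) {a : ℝ≥0∞} : (2 * a) ^ p ≤ 8 * a ^ p := by
  rw [ENNReal.mul_rpow_of_nonneg _ _ (by linarith)]
  refine mul_le_mul' ((ENNReal.rpow_le_rpow_of_exponent_le one_le_two hp.le).trans ?_) le_rfl
  norm_num

theorem ES2_le {E : Type} [NormedAddCommGroup E] {x : E} {a : ℝ} {b : ℝ≥0∞} (hp1 : 1 ≤ p)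
    (h : ‖x‖ ≤ a) (hb : ENNReal.ofReal a ≤ b) : ‖x‖ₑ ^ p ≤ b ^ p := by
  refine ENNReal.rpow_le_rpow (le_trans ?_ hb) (by linarith)
  rw [← ofReal_norm]
  exact ENNReal.ofReal_le_ofReal h

theorem ES2_two (C : Cu) : ENNReal.ofReal (2 * ‖C.A‖) ≤ 2 * ‖C.A‖ₑ := by
  rw [ENNReal.ofReal_mul zero_le_two, ENNReal.ofReal_ofNat, ofReal_norm]

theorem ES2_sk (h : C.Ok aK) (hf : C.Fit aK K ch w) (h2 : C.I.card = 2) (hz : C.icl z ⊆ C.O) :
    C.icl z ⊆ C.WI ∧ C.icl z ⊆ K.sk 2 ∧ C.icl z ⊆ C.q := by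
  have h1 : C.icl z ⊆ C.WI := fun x hx => ⟨z, hz, hx⟩
  refine ⟨h1, h2 ▸ h1.trans (hf.WI_sk h), hz.trans (h.O_prop.2.1.trans ?_)⟩
  exact ball_subset_closedBall.trans (closedBall_subset_closedBall (by linarith only [h, h.pos.2.1]))

theorem ES2_red (hp1 : 1 ≤ p) (h : C.Ok aK) (hf : C.Fit aK K ch w) (hk : ∀ i, i ∈ C.I ↔ i ≠ k)
    (h2 : C.I.card = 2) (he : C.EIn p Cc aK K ch kp G G' ε) (hz : C.icl z ⊆ C.O) :
    ENNReal.ofReal (C.h ^ (2 - p)) * C.shp p G' z ≤ ∫⁻ y in sqr C.h,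
      ‖fderiv ℝ (G ∘ ES2_F C k z) y - (C.L.comp C.A).comp (ES2_E k)‖ₑ ^ p := by
  have hh := h.pos.2.1
  obtain ⟨φ, hφ⟩ : ∃ φ : Rn 2 → ℝ≥0∞, φ = fun y =>
    ‖fderiv ℝ (G ∘ ES2_F C k z) y - (C.L.comp C.A).comp (ES2_E k)‖ₑ ^ p := ⟨_, rfl⟩
  have mφ : Measurable φ := by
    rw [hφ]
    exact ((measurable_fderiv ℝ _).sub_const _).enorm.pow_const p
  obtain ⟨a, ha⟩ : ∃ a : Rn 2, a = ES2_P k fun i => z i := ⟨_, rfl⟩
  have e1 : ∀ ξ, C.X (pjz C.Iᶜ z ξ) = ES2_F C k z (C.h • (ES2_P k ξ - a)) := fun ξ => by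
    have e2 : pjz C.Iᶜ z ξ = (fun i => (z i : ℝ)) + prL C.I (ξ - fun i => (z i : ℝ)) := by
      funext i
      by_cases hi : i ∈ C.I <;> simp [pjz, Cu.GNum_pr, hi]
    rw [e2, ES2_F, Cu.X, Cu.X, map_add, (h.nN _).2.2.1, ← ES2_EP hk, ha, map_smul,
      map_sub (ES2_P k), smul_add, add_assoc]
  have o1 : IsOpen (cu z) := by
    simp only [cu, ofPred_forall]
    exact isOpen_iInter_of_finite fun i =>
      (isOpen_lt continuous_const (continuous_apply i)).inter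
        (isOpen_lt (continuous_apply i) continuous_const)
  have e3 : ∀ y : Rn 2, (∀ j, (z (k.succAbove j) : ℝ) < y j ∧ y j < z (k.succAbove j) + 1) →
      C.h • (y - a) ∈ sqr C.h := fun y hy j => by
    rw [Pi.smul_apply, Pi.sub_apply, ha, ES2_Pa, smul_eq_mul]
    constructor <;> linarith only [hh, hy, hy j, mul_pos_of_neg_of_neg (Mathlib.Tactic.Linarith.sub_neg_of_lt hh) (Mathlib.Tactic.Linarith.sub_neg_of_lt (hy j).left), mul_pos_of_neg_of_neg (Mathlib.Tactic.Linarith.sub_neg_of_lt hh) (Mathlib.Tactic.Linarith.sub_neg_of_lt (hy j).right)]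
  have h1 : ∀ ξ ∈ cu z, ‖fderiv ℝ (G' ∘ C.X ∘ pjz C.Iᶜ z) ξ -
      C.h • (C.L.comp C.A).comp (prL C.I)‖ₑ ^ p ≤
        ENNReal.ofReal C.h ^ p * φ (C.h • (ES2_P k ξ - a)) := fun ξ hξ => by
    have h3 : G' ∘ C.X ∘ pjz C.Iᶜ z =ᶠ[𝓝 ξ] fun x => (G ∘ ES2_F C k z) (C.h • (ES2_P k x - a)) := by
      filter_upwards [o1.mem_nhds hξ] with x hx
      simp only [comp_apply, e1]
      exact he.sk ((ES2_sk h hf h2 hz).2.1 ((ES2_icl h hk).2 fun j =>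
        ⟨(e3 _ (fun j => hx _) j).1.le, (e3 _ (fun j => hx _) j).2.le⟩))
    rw [h3.fderiv_eq, ES2_chain _ k hh, hφ, ← ENNReal.mul_rpow_of_nonneg _ _ (by linarith),
      ← ofReal_norm (fderiv ℝ _ _ - _), ← ENNReal.ofReal_mul hh.le]
    refine ES2_le hp1 (ContinuousLinearMap.opNorm_le_bound _ (by positivity) fun x => ?_) le_rfl
    have h4 := (ContinuousLinearMap.le_opNorm (fderiv ℝ (G ∘ ES2_F C k z) (C.h • (ES2_P k ξ - a)) -
      (C.L.comp C.A).comp (ES2_E k)) (ES2_P k x)).trans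
        (mul_le_mul_of_nonneg_left (ES2_nP k x) (norm_nonneg _))
    simp only [sub_apply, smul_apply, ContinuousLinearMap.comp_apply, ES2_EP hk] at h4 ⊢
    rw [← smul_sub, norm_smul, Real.norm_of_nonneg hh.le, mul_assoc]
    exact mul_le_mul_of_nonneg_left h4 hh.le
  have mτ : Measurable fun y : Rn 2 => C.h • (y - a) := by fun_prop
  have h3 := lint_push (A := {y : Rn 2 | ∀ j, (z (k.succAbove j) : ℝ) < y j ∧
    y j < z (k.succAbove j) + 1}) (B := sqr C.h) (by measurability)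
    (ES2_sqr hh ▸ measurableSet_ball) mτ e3 (L := C.h⁻¹) (by positivity) (fun x _ y _ => by
      rw [← smul_sub, sub_sub_sub_cancel_right, norm_smul, Real.norm_of_nonneg hh.le,
        inv_mul_cancel_left₀ hh.ne']) mφ
  have h4 := setLIntegral_mono' (μ := volume) o1.measurableSet h1
  rw [lintegral_const_mul' _ _ (ENNReal.rpow_ne_top_of_nonneg (by linarith only [hp1]) ENNReal.ofReal_ne_top),
    ES2_fub k z (φ := fun y => φ (C.h • (y - a))) (mφ.comp mτ)] at h4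
  refine (mul_le_mul' le_rfl (h4.trans (mul_le_mul' le_rfl h3))).trans (le_of_eq ?_)
  rw [← mul_assoc, ← mul_assoc, ENNReal.ofReal_rpow_of_pos hh,
    ← ENNReal.ofReal_mul (by positivity), ← ENNReal.ofReal_mul (by positivity),
    ← Real.rpow_add hh, sub_add_cancel, Real.rpow_two, ← mul_pow, mul_inv_cancel₀ hh.ne', one_pow,
    ENNReal.ofReal_one, one_mul, hφ]

end

section
variable {C : Cu} {aK p : ℝ} {k : Fin 3} {z : I3} {u : I3 × I3} {kp : Set (I3 × I3)}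
  {Ω : Set (Rn 3)} {K : Kx Ω} {ch : Set (Rn 3) → Ch} {w : Set (Rn 3) → ℝ} {G G' : Rn 3 → Rn 3}
  {ε : Set (Rn 3) → ℝ≥0∞} {Cc : ℝ≥0∞}

theorem ES2_out (hp1 : 1 ≤ p) (h : C.Ok aK) (hf : C.Fit aK K ch w) (hk : ∀ i, i ∈ C.I ↔ i ≠ k)
    (h2 : C.I.card = 2) (he : C.EIn p Cc aK K ch kp G G' ε) (hz : C.icl z ⊆ C.O) :
    ∫⁻ y in sqr C.h \ ES2_T C k z kp, ‖fderiv ℝ (G ∘ ES2_F C k z) y‖ₑ ^ p ≤
      ∑' F : {F // F ∈ K.cel 2 ∧ F ⊆ C.icl z ∧ ¬ C.Rig kp F}, (ch F).E p G := by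
  obtain ⟨s1, s2, s3⟩ := ES2_sk h hf h2 hz
  obtain ⟨n1, n2, -⟩ := ES2_num h
  have n3 : 0 ≤ C.ρx := by linarith only [n1, h, h.pos.2.2.2.2.1]
  have e3 : ∀ y, C.N.symm (ES2_E k y) = ES2_E k y := fun y => by
    have e4 := (h.nN (ES2_E k y)).2.2.2.1
    rwa [← ES2_EP hk, ES2_PE] at e4
  have hm : ∀ y ∈ sqr C.h \ ES2_T C k z kp, ES2_F C k z y ∈ C.icl z := fun y hy =>
    (ES2_icl h hk).2 fun j => ⟨(hy.1 j).1.le, (hy.1 j).2.le⟩
  have h1 := tan_kx (p := p) (by linarith only [hp1]) hf.opn K he.lG (Ψ := ES2_F C k z)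
    ((TP.const _).add (TP.clm (ES2_E k))) (A := sqr C.h \ ES2_T C k z kp)
    ((ES2_sqr h.pos.2.1 ▸ measurableSet_ball).diff (ES2_mT C k z kp)) (fun y hy => s2 (hm y hy))
    C.N zero_le_one zero_le_one zero_le_one
    (fun x _ => LL.of_forall (fun y y' => by rw [← map_sub, ES2_sub, e3, ES2_nE, one_mul]) x)
    (fun x _ y _ => by rw [ES2_sub, e3, ES2_nE, one_mul]) ch
    (T := {F | F ∈ K.cel 2 ∧ F ⊆ C.icl z ∧ ¬ C.Rig kp F}) (fun F hF => hF.1)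
    (fun F hF => ⟨(hf.face F hF.1 (hF.2.1.trans s3)).1, (hf.ff F hF.1 (hF.2.1.trans s1)).2.2.2⟩)
    fun y hy hc => ⟨hc, hf.icl_cel h hz (hm y hy), fun ⟨_, u, hu, h3⟩ => hy.2 (by
      have h4 := h3 (K.mem _ (s2 (hm y hy)).1)
      obtain rfl := ES2_same h hk (he.adm hu) n3 n2 h4 (hm y hy)
      exact mem_biUnion (show u ∈ {v | v ∈ kp ∧ v.1 = u.1} from ⟨hu, rfl⟩) ((ES2_Q hk n3).1 h4))⟩
  rwa [one_mul, Real.one_rpow, one_pow, one_mul, ENNReal.ofReal_one, one_mul] at h1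

theorem ES2_col (hp1 : 1 ≤ p) (hp : p < 3) (h : C.Ok aK) (hk : ∀ i, i ∈ C.I ↔ i ≠ k)
    (h2 : C.I.card = 2) (he : C.EIn p Cc aK K ch kp G G' ε) :
    ∫⁻ y in ES2_T C k z kp \ ES2_S C k z kp, ‖fderiv ℝ (G ∘ ES2_F C k z) y‖ₑ ^ p ≤
      ENNReal.ofReal (C.g * C.h ^ 2) := by
  obtain ⟨n1, n2, -⟩ := ES2_num h
  have n3 : 0 ≤ C.ρx := by linarith only [n1, h, h.pos.2.2.2.2.1]
  have h1 : ∀ᵐ y : Rn 2, ∀ u, y ∉ sphere (ES2_c C k u) C.ρx := ae_all_iff.2 fun u =>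
    measure_eq_zero_iff_ae_notMem.1 (Measure.addHaar_sphere _ _ _)
  refine le_trans ?_ (ES2_V1 (z := z) hp1 hp h hk he.adm)
  rw [← setLIntegral_const]
  refine setLIntegral_mono_ae' ((ES2_mT C k z kp).diff (ES2_mS C k z kp)) ?_
  filter_upwards [h1] with y hy hy'
  obtain ⟨u, ⟨hu, rfl⟩, h3⟩ := mem_iUnion₂.1 hy'.1
  have h4 : y ∈ ball (ES2_c C k u) C.ρx := lt_of_le_of_ne h3 (hy u)
  refine ES2_le hp1 (norm_fderiv_le_of_lip' ℝ (zero_le_one.trans h.c1.2) ?_) le_rfl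
  filter_upwards [isOpen_ball.mem_nhds h4] with y' h5
  have h6 := (he.rig h2.ge u hu).2 _ ((ES2_Q hk n3).2 (ball_subset_closedBall h5)) _
    ((ES2_Q hk n3).2 h3)
  rwa [ES2_sub, ES2_nE] at h6

theorem ES2_face (hp1 : 1 ≤ p) (hp : p < 3) (h : C.Ok aK) (hf : C.Fit aK K ch w)
    (hk : ∀ i, i ∈ C.I ↔ i ≠ k) (h2 : C.I.card = 2) (he : C.EIn p Cc aK K ch kp G G' ε)
    (hz : C.icl z ⊆ C.O) {F : Set (Rn 3)} (hF : F ∈ K.cel 2) (hs : F ⊆ C.icl z)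
    (hr : C.Rig kp F) : MeasurableSet (ES2_F C k z ⁻¹' F) ∧
      (ch F).E p G ≤ ∫⁻ y in ES2_F C k z ⁻¹' F, (8 * ‖C.A‖ₑ ^ p +
        (ES2_T C k z kp \ ES2_S C k z kp).indicator (fun _ => ENNReal.ofReal C.cg ^ p) y) := by
  obtain ⟨s1, s2, s3⟩ := ES2_sk h hf h2 hz
  obtain ⟨n1, n2, -⟩ := ES2_num h
  have n3 : 0 ≤ C.ρx := by linarith only [n1, h, h.pos.2.2.2.2.1]
  obtain ⟨-, u, hu, hQ⟩ := hr
  obtain ⟨-, o1, o2⟩ := (hf.face F hF (hs.trans s3)).1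
  have hB := (hf.ff F hF (hs.trans s1)).2.2.1
  have mF : MeasurableSet (ES2_F C k z ⁻¹' F) := by
    have h1 : MeasurableSet F := by
      rw [← Set.sdiff_sdiff_cancel_left (subset_closure (s := F))]
      exact isClosed_closure.measurableSet.diff (Kx.rb_closed hF.1).measurableSet
    exact (continuous_const.add (ES2_E k).continuous).measurable h1
  obtain ⟨ψ, hψ⟩ : ∃ ψ : Rn 2 → Rn 2, ψ = fun ξ => ES2_P k ((ch F).φ ξ - C.X fun i => z i) :=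
    ⟨_, rfl⟩
  have cψ : Continuous ψ := by
    rw [hψ]
    exact (ES2_P k).continuous.comp ((continuous_const.add (ch F).M.continuous).sub continuous_const)
  have h1 : ∀ ξ ∈ (ch F).U, (ch F).φ ξ ∈ F := fun ξ hξ => o2.subset (mem_image_of_mem _ hξ)
  have h3 : ∀ ξ ∈ (ch F).U, ES2_F C k z (ψ ξ) = (ch F).φ ξ := fun ξ hξ => by
    rw [hψ]
    exact ES2_inv' h hk (hs (h1 ξ hξ))
  have h4 : ∀ ξ ∈ (ch F).U, ∀ ξ' ∈ (ch F).U, ‖ψ ξ - ψ ξ'‖ = ‖ξ - ξ'‖ := fun ξ hξ ξ' hξ' => by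
    rw [← ES2_nE k, ← ES2_sub C k z, h3 ξ hξ, h3 ξ' hξ', Ch.φ, Ch.φ, add_sub_add_left_eq_sub,
      ← map_sub]
    have h5 := hB (ξ - ξ')
    rw [one_mul, one_mul] at h5
    exact le_antisymm h5.1 h5.2
  have h5 := lint_push o1.measurableSet mF cψ.measurable
    (fun ξ hξ => show ES2_F C k z (ψ ξ) ∈ F from h3 ξ hξ ▸ h1 ξ hξ) zero_le_one
    (fun x hx y hy => by rw [one_mul, h4 x hx y hy])
    (φ := fun y => 8 * ‖C.A‖ₑ ^ p +
      (ES2_T C k z kp \ ES2_S C k z kp).indicator (fun _ => ENNReal.ofReal C.cg ^ p) y)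
    (measurable_const.add (measurable_const.indicator
      ((ES2_mT C k z kp).diff (ES2_mS C k z kp))))
  rw [one_pow, ENNReal.ofReal_one, one_mul] at h5
  refine ⟨mF, le_trans (setLIntegral_mono' o1.measurableSet fun ξ hξ => ?_) h5⟩
  by_cases h6 : ψ ξ ∈ ES2_S C k z kp
  · refine le_trans ?_ (((ES2_pw hp1 hp)).trans le_self_add)
    refine ES2_le hp1 (norm_fderiv_le_of_lip' ℝ (by positivity) ?_) (ES2_two C)
    filter_upwards [o1.mem_nhds hξ, cψ.continuousAt.eventually (ES2_aff h hk h2 he h6)]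
      with ξ' h7 h8
    rw [comp_apply, comp_apply, ← h3 ξ hξ, ← h3 ξ' h7, h8, add_sub_cancel_left, ← h4 ξ' h7 ξ hξ,
      ← ES2_nE k]
    exact (C.L.comp C.A).le_of_opNorm_le h.tg.1 _
  · have h7 : ψ ξ ∈ ES2_T C k z kp := by
      obtain rfl := ES2_same h hk (he.adm hu) n3 n2 (hQ (h1 ξ hξ)) (hs (h1 ξ hξ))
      exact mem_biUnion (show u ∈ {v | v ∈ kp ∧ v.1 = u.1} from ⟨hu, rfl⟩)
        ((ES2_Q hk n3).1 (h3 ξ hξ ▸ hQ (h1 ξ hξ)))
    rw [indicator_of_mem (show ψ ξ ∈ ES2_T C k z kp \ ES2_S C k z kp from ⟨h7, h6⟩)]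
    refine le_trans ?_ le_add_self
    refine ES2_le hp1 (norm_fderiv_le_of_lip' ℝ (zero_le_one.trans h.c1.2) ?_) le_rfl
    filter_upwards [o1.mem_nhds hξ] with ξ' h8
    have h9 := (he.rig h2.ge u hu).2 _ (hQ (h1 ξ' h8)) _ (hQ (h1 ξ hξ))
    rwa [← h3 ξ hξ, ← h3 ξ' h8, ES2_sub, ES2_nE, h4 ξ' h8 ξ hξ, h3 ξ hξ, h3 ξ' h8] at h9

end

theorem esh2 {p : ℝ} (hp1 : 1 ≤ p) (hp : p < 3) {Cc : ℝ≥0∞} (hc : Cc ≠ ⊤) : ∃ C0 : ℝ≥0∞, C0 ≠ ⊤ ∧
    ∀ (C : Cu) (aK : ℝ) (Ω : Set (Rn 3)) (K : Kx Ω) (ch : Set (Rn 3) → Ch) (w : Set (Rn 3) → ℝ)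
      (kp : Set (I3 × I3)) (G G' : Rn 3 → Rn 3) (ε : Set (Rn 3) → ℝ≥0∞), C.Ok aK →
      C.Fit aK K ch w → C.EIn p Cc aK K ch kp G G' ε → C.I.card = 2 → ∀ z, C.icl z ⊆ C.O →
      ENNReal.ofReal (C.h ^ (2 - p)) * C.shp p G' z ≤ C0 *
        ((∑' F : {F // F ∈ K.cel 2 ∧ F ⊆ C.icl z ∧ ¬ C.Rig kp F}, (ch F).E p G) +
          (1 + ‖C.A‖ₑ ^ p) * ENNReal.ofReal (C.g * C.h ^ 2) + ‖C.A‖ₑ ^ p *
            ({u | u ∈ C.Adm \ kp ∧ u.1 = z}.encard : ℝ≥0∞) * ENNReal.ofReal (C.t0 ^ 2)) := by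
  refine ⟨192, by norm_num, fun C aK Ω K ch w kp G G' ε h hf he h2 z hz => ?_⟩
  obtain ⟨k, hk⟩ := ES2_k h2
  refine (ES2_red hp1 h hf hk h2 he hz).trans ?_
  have mq : MeasurableSet (sqr C.h) := ES2_sqr h.pos.2.1 ▸ measurableSet_ball
  have h0 : ∫⁻ y in sqr C.h ∩ ES2_S C k z kp,
      ‖fderiv ℝ (G ∘ ES2_F C k z) y - (C.L.comp C.A).comp (ES2_E k)‖ₑ ^ p = 0 := by
    refine setLIntegral_eq_zero (mq.inter (ES2_mS C k z kp)) fun y hy => ?_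
    have h1 : HasFDerivAt (fun y' => G (ES2_F C k z y) + ((C.L.comp C.A).comp (ES2_E k)) (y' - y))
        ((C.L.comp C.A).comp (ES2_E k)) y := by
      simp only [map_sub]
      exact ((ContinuousLinearMap.hasFDerivAt _).sub_const _).const_add _
    have h3 : HasFDerivAt (G ∘ ES2_F C k z) ((C.L.comp C.A).comp (ES2_E k)) y :=
      h1.congr_of_eventuallyEq (ES2_aff h hk h2 he hy.2)
    rw [h3.fderiv, sub_self, ← ofReal_norm, norm_zero, ENNReal.ofReal_zero]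
    exact ENNReal.zero_rpow_of_pos (zero_lt_one.trans_le hp1)
  have h1 : ‖(C.L.comp C.A).comp (ES2_E k)‖ₑ ^ p ≤ 8 * ‖C.A‖ₑ ^ p := by
    refine (ES2_le hp1 (ContinuousLinearMap.opNorm_le_bound _ (by positivity) fun y => ?_)
      (ES2_two C)).trans (ES2_pw hp1 hp)
    rw [← ES2_nE k y]
    exact (C.L.comp C.A).le_of_opNorm_le h.tg.1 _
  have h3 : ∀ y, ‖fderiv ℝ (G ∘ ES2_F C k z) y - (C.L.comp C.A).comp (ES2_E k)‖ₑ ^ p ≤
      4 * (‖fderiv ℝ (G ∘ ES2_F C k z) y‖ₑ ^ p + 8 * ‖C.A‖ₑ ^ p) := fun y => by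
    refine (ENNReal.rpow_le_rpow enorm_sub_le (by linarith only [hp1])).trans
      ((ENNReal.rpow_add_le_mul_rpow_add_rpow _ _ hp1).trans (mul_le_mul' ?_ (add_le_add le_rfl h1)))
    refine (ENNReal.rpow_le_rpow_of_exponent_le one_le_two (by linarith : p - 1 ≤ 2)).trans ?_
    norm_num
  have h4 : sqr C.h \ ES2_S C k z kp ⊆
      (sqr C.h \ ES2_T C k z kp) ∪ (ES2_T C k z kp \ ES2_S C k z kp) := fun y hy => by
    by_cases h5 : y ∈ ES2_T C k z kp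
    · exact Or.inr ⟨h5, hy.2⟩
    · exact Or.inl ⟨hy.1, h5⟩
  have h5 := (lintegral_mono_set h4).trans ((lintegral_union_le _ _ _).trans
    (add_le_add (ES2_out hp1 h hf hk h2 he hz) (ES2_col hp1 hp h hk h2 he)))
  rw [← lintegral_inter_add_sdiff _ _ (ES2_mS C k z kp), h0, zero_add]
  refine (lintegral_mono h3).trans ?_
  rw [lintegral_const_mul' _ _ (by norm_num), lintegral_add_right _ measurable_const,
    setLIntegral_const]
  refine (mul_le_mul' le_rfl (add_le_add h5 (mul_le_mul' le_rfl (ES2_V2 h hk he.adm hz)))).trans ?_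
  generalize (∑' F : {F // F ∈ K.cel 2 ∧ F ⊆ C.icl z ∧ ¬ C.Rig kp F}, (ch F).E p G) = a
  generalize ENNReal.ofReal (C.g * C.h ^ 2) = b
  generalize ‖C.A‖ₑ ^ p = c
  generalize ({u | u ∈ C.Adm \ kp ∧ u.1 = z}.encard : ℝ≥0∞) = d
  generalize ENNReal.ofReal (C.t0 ^ 2) = e
  exact le_iff_exists_add.2 ⟨188 * a + 188 * b + 160 * c * d * e, by ring⟩

theorem erig2 {p : ℝ} (hp1 : 1 ≤ p) (hp : p < 3) {Cc : ℝ≥0∞} (hc : Cc ≠ ⊤) : ∃ C0 : ℝ≥0∞, C0 ≠ ⊤ ∧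
    ∀ (C : Cu) (aK : ℝ) (Ω : Set (Rn 3)) (K : Kx Ω) (ch : Set (Rn 3) → Ch) (w : Set (Rn 3) → ℝ)
      (kp : Set (I3 × I3)) (G G' : Rn 3 → Rn 3) (ε : Set (Rn 3) → ℝ≥0∞), C.Ok aK →
      C.Fit aK K ch w → C.EIn p Cc aK K ch kp G G' ε → C.I.card = 2 → ∀ z, C.icl z ⊆ C.O →
      ∑' F : {F // F ∈ K.cel 2 ∧ F ⊆ C.icl z ∧ C.Rig kp F}, (ch F).E p G ≤
        C0 * ((1 + ‖C.A‖ₑ ^ p) * ENNReal.ofReal (C.h ^ 2)) := by
  refine ⟨8, by norm_num, fun C aK Ω K ch w kp G G' ε h hf he h2 z hz => ?_⟩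
  obtain ⟨k, hk⟩ := ES2_k h2
  have hh := h.pos.2.1
  have : Countable {F // F ∈ K.cel 2 ∧ F ⊆ C.icl z ∧ C.Rig kp F} :=
    ((K.countable hf.opn).mono
      (s₁ := {F | F ∈ K.cel 2 ∧ F ⊆ C.icl z ∧ C.Rig kp F}) fun _ h => h.1.1).to_subtype
  have h1 := fun F : {F // F ∈ K.cel 2 ∧ F ⊆ C.icl z ∧ C.Rig kp F} =>
    ES2_face hp1 hp h hf hk h2 he hz F.2.1 F.2.2.1 F.2.2.2
  refine (ENNReal.tsum_le_tsum fun F => (h1 F).2).trans ?_
  rw [← lintegral_iUnion (fun F => (h1 F).1) fun F F' hn =>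
    (Kx.disj F.2.1.1 F'.2.1.1 fun e => hn (Subtype.ext e)).preimage _]
  refine (lintegral_mono_set (t := closedBall (fun _ => C.h / 2) (C.h / 2))
    (iUnion_subset fun F y hy => ?_)).trans ?_
  · refine mem_closedBall.2 ((dist_pi_le_iff (half_pos hh).le).2 fun j => ?_)
    have h3 := (ES2_icl h hk).1 (F.2.2.1 hy) j
    rw [Real.dist_eq, abs_le]
    constructor <;> linarith only [h3, h3.1, h3.2]
  have h3 := (ES2_V1 (z := z) hp1 hp h hk he.adm).trans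
    (ENNReal.ofReal_le_ofReal (q := C.h ^ 2) (by linarith only [h, h.g0.2, sq_nonneg C.h, mul_nonneg_of_nonpos_of_nonpos (Mathlib.Tactic.Linarith.sub_nonpos_of_le (sq_nonneg C.h)) (Mathlib.Tactic.Linarith.sub_nonpos_of_le h.g0.right)]))
  rw [lintegral_add_left measurable_const, setLIntegral_const,
    Real.volume_pi_closedBall _ (half_pos hh).le, Fintype.card_fin, mul_div_cancel₀ _ two_ne_zero]
  refine (add_le_add le_rfl ((setLIntegral_le_lintegral _ _).trans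
    ((lintegral_indicator_const_le _ _).trans h3))).trans ?_
  generalize ‖C.A‖ₑ ^ p = c
  generalize ENNReal.ofReal (C.h ^ 2) = e
  exact le_iff_exists_add.2 ⟨7 * e, by ring⟩

end BEp
end
end
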