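import Pool.Agent.Work.MP_f0515e_an.P3.CPush
import Pool.Agent.Work.MP_f0515e_an.P3.FinE
import Pool.Agent.Work.MP_f0515e_an.P3.GGeo
import Pool.Agent.Work.MP_f0515e_an.P3.KInt
import Pool.Agent.Work.MP_f0515e_an.P3.ES2
import Pool.Agent.Work.MP_f0515e_an.P3.EGen
import Pool.Agent.Work.MP_f0515e_an.P3.CMass
import Pool.Agent.Work.MP_f0515e_an.P2.QDetS
import Pool.Agent.Work.MP_f0515e_an.P2.QSide

-- merged part: Pool.Agent.Work.MP_f0515e_an.P3.CCav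
section
-- merged part: Pool.Agent.Work.MP_f0515e_an.P3.CCav0
section
/-! Cavitation in the unit cube. Let `P = loc (fun x => max (1 - ‖x‖) 0) (2 • ·)`; it is `TP` and
accretive, the identity off the ball, so `CS` (`cs_of_accr`), and so are its iterates (`CS.comp`).
`P x = 2 x` for `‖x‖ ≤ 1/2`; for `1/2 ≤ ‖x‖ ≤ 1` it maps to the sphere, which it fixes. On the part
of the shell where `x i = ‖x‖` one has `P x = fι i 1 (ψ x)`, where for fixed `x i` the map of the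
two other coordinates expands distances (each coordinate is monotone with slope at least one),
and `P` is 2-Lipschitz: the energy of `g ∘ P` on the shell is at most `2^p` times the energy on the
faces (Fubini and `lint_push`). On the shell number `j` the iterate is `P (2^j x)`: factor
`2^(j (p - 3))`. On the ball of radius `2^(-K)` the energy is at most `(2^K Lip g)^p 2^(-3K) 8`.
Finish with `round0`. -/

open Set Metric Filter Topology Function BEv MeasureTheory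
open scoped NNReal ENNReal

noncomputable section
namespace BEp

def fι (i : Fin 3) (c : ℝ) (y : Rn 2) : Rn 3 := Fin.insertNth i c y

/-- Distance to the outside of the ball. -/
def CCav0_η (x : Rn 3) : ℝ := max (1 - ‖x‖) 0

/-- The push towards the sphere. -/
def CCav0_P : Rn 3 → Rn 3 := loc CCav0_η fun x => (2 : ℝ) • x

/-- The other two coordinates of the push. -/
def CCav0_ψ (i : Fin 3) (x : Rn 3) : Rn 2 := fun j => CCav0_P x (i.succAbove j)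

/-- A sector of the shell. -/
def CCav0_A (i : Fin 3) (c : ℝ) : Set (Rn 3) := {x | 1 / 2 ≤ ‖x‖ ∧ ‖x‖ < 1 ∧ ‖x‖ = c * x i}

theorem CCav0_meas {n m : ℕ} (p : ℝ) (G : Rn n → Rn m) :
    Measurable fun x => ‖fderiv ℝ G x‖ₑ ^ p :=
  (measurable_fderiv ℝ G).enorm.pow_const p

theorem CCav0_tp : TP CCav0_P :=
  (TP.id'.const_smul 2).loc (((TP.const 1).sub TP.id'.norm_pi).max (TP.const 0))

theorem CCav0_fix {x : Rn 3} (h : 1 ≤ ‖x‖) : CCav0_P x = x :=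
  loc_eq_self (max_eq_right (by linarith))

theorem CCav0_cs : CS (closedBall 0 1) CCav0_P := by
  refine cs_of_accr (Accr.loc (fun x y i hi => ?_) fun x y => ?_) CCav0_tp fun x hx =>
    CCav0_fix (not_le.1 fun k => hx (mem_closedBall_zero_iff.2 k)).le
  · simp only [Pi.smul_apply, smul_eq_mul]
    linarith [norm_nonneg (x - y)]
  · refine (abs_max_sub_max_le_abs _ _ _).trans ?_
    rw [sub_sub_sub_cancel_left, abs_sub_comm]
    exact abs_norm_sub_norm_le x y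

theorem CCav0_it (K : ℕ) : CS (closedBall 0 1) CCav0_P^[K] := by
  induction K with
  | zero => exact (Mv.id' _).cs
  | succ K ih => exact ih.comp CCav0_cs

theorem CCav0_two {x : Rn 3} (h : ‖x‖ ≤ 1 / 2) : CCav0_P x = (2 : ℝ) • x := by
  refine loc_eq_of_le fun i => le_max_of_le_left ?_
  have k := norm_le_pi_norm x i
  rw [Pi.smul_apply, smul_eq_mul, two_mul, add_sub_cancel_right, ← Real.norm_eq_abs]
  linarith

theorem CCav0_app {x : Rn 3} (h : ‖x‖ ≤ 1) (j : Fin 3) :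
    CCav0_P x j = max (x j - (1 - ‖x‖)) (min (2 * x j) (x j + (1 - ‖x‖))) := by
  rw [CCav0_P, loc, CCav0_η, max_eq_left (sub_nonneg.2 h), Pi.smul_apply, smul_eq_mul]

theorem CCav0_le {x : Rn 3} (h : ‖x‖ ≤ 1) (j : Fin 3) : ‖CCav0_P x j‖ ≤ 1 := by
  have k := norm_le_pi_norm x j
  rw [Real.norm_eq_abs, abs_le] at k ⊢
  rw [CCav0_app h]
  exact ⟨le_max_of_le_left (by linarith [k.1]),
    max_le (by linarith [k.2]) (min_le_of_right_le (by linarith [k.2]))⟩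

theorem CCav0_face {i : Fin 3} {c : ℝ} (hc : c = -1 ∨ c = 1) {x : Rn 3} (h : x ∈ CCav0_A i c) :
    CCav0_P x i = c := by
  obtain ⟨h1, h2, h3⟩ := h
  rw [CCav0_app h2.le]
  rcases hc with rfl | rfl
  · rw [max_eq_left (min_le_of_left_le (by linarith))]
    linarith
  · rw [min_eq_right (by linarith), max_eq_right (by linarith)]
    linarith

theorem CCav0_mA (i : Fin 3) (c : ℝ) : MeasurableSet (CCav0_A i c) :=
  (measurableSet_le measurable_const measurable_norm).inter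
    ((measurableSet_lt measurable_norm measurable_const).inter
      (measurableSet_eq_fun measurable_norm (by fun_prop)))

theorem CCav0_tpψ (i : Fin 3) : TP (CCav0_ψ i) := TP.pi fun _ => CCav0_tp.apply _

theorem CCav0_tpι (i : Fin 3) (c : ℝ) : TP (fι i c) := by
  refine TP.pi fun k => ?_
  induction k using i.succAboveCases with
  | x => simpa only [fι, Fin.insertNth_apply_same] using TP.const c
  | p j => simpa only [fι, Fin.insertNth_apply_succAbove] using TP.id'.apply j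

theorem CCav0_exp {a b s : ℝ} (h : a ≤ b) : b - a ≤
    max (b - s) (min (2 * b) (b + s)) - max (a - s) (min (2 * a) (a + s)) := by
  have k1 := le_max_left (b - s) (min (2 * b) (b + s))
  have k2 := le_max_right (b - s) (min (2 * b) (b + s))
  have k3 := min_le_left (2 * a) (a + s)
  have k4 := min_le_right (2 * a) (a + s)
  have k5 : min (2 * a) (a + s) + (b - a) ≤ min (2 * b) (b + s) :=
    le_min (by linarith) (by linarith)
  have k6 : max (a - s) (min (2 * a) (a + s)) ≤ max (b - s) (min (2 * b) (b + s)) - (b - a) :=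
    max_le (by linarith) (by linarith)
  linarith

theorem CCav0_push (i : Fin 3) (c : ℝ) {φ : Rn 2 → ℝ≥0∞} (hφ : Measurable φ) :
    ∫⁻ x in CCav0_A i c, φ (CCav0_ψ i x) ≤ 2 * ∫⁻ y in closedBall (0 : Rn 2) 1, φ y := by
  have mψ := (CCav0_tpψ i).continuous.measurable
  have mF : Measurable ((CCav0_A i c).indicator fun x => φ (CCav0_ψ i x)) :=
    (hφ.comp mψ).indicator (CCav0_mA i c)
  have e := (volume_preserving_piFinSuccAbove (fun _ : Fin 3 => ℝ) i).symm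
  rw [← lintegral_indicator (CCav0_mA i c), ← e.lintegral_comp mF, Measure.volume_eq_prod,
    lintegral_prod _ (by exact (mF.comp e.measurable).aemeasurable)]
  refine (lintegral_mono (g := (Icc (-1 : ℝ) 1).indicator
    fun _ => ∫⁻ y in closedBall (0 : Rn 2) 1, φ y) fun t => ?_).trans ?_
  · have mι := (CCav0_tpι i t).continuous.measurable
    have e1 : ∫⁻ y, (CCav0_A i c).indicator (fun x => φ (CCav0_ψ i x)) (fι i t y) =
        ∫⁻ y in fι i t ⁻¹' CCav0_A i c, φ (CCav0_ψ i (fι i t y)) := by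
      rw [← lintegral_indicator (mι (CCav0_mA i c))]
      rfl
    refine le_trans e1.le ?_
    by_cases ht : t ∈ Icc (-1 : ℝ) 1
    · rw [indicator_of_mem ht]
      refine (lint_push (B := closedBall 0 1) (mι (CCav0_mA i c)) measurableSet_closedBall
        (mψ.comp mι)
        (fun y hy => ?_) zero_le_one (fun y hy y' hy' => ?_) hφ).trans (by simp)
      · exact mem_closedBall_zero_iff.2 ((pi_norm_le_iff_of_nonneg zero_le_one).2 fun j =>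
          CCav0_le hy.2.1.le _)
      · rw [one_mul]
        refine (pi_norm_le_iff_of_nonneg (norm_nonneg _)).2 fun j =>
          le_trans ?_ (norm_le_pi_norm _ j)
        have n1 := hy.2.2
        have n2 := hy'.2.2
        simp only [Pi.sub_apply, comp_apply, CCav0_ψ, CCav0_app hy.2.1.le, CCav0_app hy'.2.1.le,
          Real.norm_eq_abs]
        rw [n1, n2]
        simp only [fι, Fin.insertNth_apply_same, Fin.insertNth_apply_succAbove]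
        rcases le_total (y j) (y' j) with k | k
        · rw [abs_sub_comm, abs_of_nonneg (sub_nonneg.2 k), abs_sub_comm]
          exact (CCav0_exp k).trans (le_abs_self _)
        · rw [abs_of_nonneg (sub_nonneg.2 k)]
          exact (CCav0_exp k).trans (le_abs_self _)
    · have e2 : fι i t ⁻¹' CCav0_A i c = ∅ := eq_empty_of_forall_notMem fun y hy => ht (by
        have k := (norm_le_pi_norm (fι i t y) i).trans hy.2.1.le
        rw [fι, Fin.insertNth_apply_same, Real.norm_eq_abs] at k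
        exact abs_le.1 k)
      rw [e2, Measure.restrict_empty, lintegral_zero_measure]
      exact zero_le
  · rw [lintegral_indicator measurableSet_Icc, setLIntegral_const, Real.volume_Icc, mul_comm]
    norm_num

theorem CCav0_ae {F G : Rn 3 → Rn 3} (hF : TP F) (hG : TP G) :
    ∀ᵐ x, F x = G x → fderiv ℝ F x = fderiv ℝ G x := by
  filter_upwards [(hF.sub hG).ae_ne_or] with x h e
  refine EventuallyEq.fderiv_eq ?_
  filter_upwards [h.resolve_left fun k => k (sub_eq_zero.2 e)] with y hy using sub_eq_zero.1 hy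

theorem CCav0_sec {p : ℝ} (hp1 : 1 ≤ p) {L : ℝ≥0} (hL : LipschitzWith L CCav0_P) {g : Rn 3 → Rn 3}
    (hg : TP g) (K : ℕ) (i : Fin 3) {c : ℝ} (hc : c = -1 ∨ c = 1) :
    ∫⁻ x in CCav0_A i c, ‖fderiv ℝ (g ∘ CCav0_P^[K + 1]) x‖ₑ ^ p ≤
      ((L + 1 : ℝ≥0) : ℝ≥0∞) ^ p * 2 * ∫⁻ y in ball (0 : Rn 2) 1, ‖fderiv ℝ (g ∘ fι i c) y‖ₑ ^ p := by
  have p0 : 0 < p := by linarith
  have hh := hg.comp (CCav0_tpι i c)
  obtain ⟨M, hM⟩ := hh.lip
  have lψ : LipschitzWith L (CCav0_ψ i) := LipschitzWith.of_dist_le_mul fun x y =>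
    (dist_pi_le_iff (by positivity)).2 fun j =>
      (dist_le_pi_dist (CCav0_P x) (CCav0_P y) _).trans (hL.dist_le_mul x y)
  have mN : MeasurableSet {y | DifferentiableAt ℝ (g ∘ fι i c) y}ᶜ :=
    (measurableSet_of_differentiableAt ℝ _).compl
  have c0 : ((L + 1 : ℝ≥0) : ℝ≥0∞) ^ p ≠ ⊤ := ENNReal.rpow_ne_top_of_nonneg p0.le ENNReal.coe_ne_top
  have k := CCav0_push i c (φ := fun y => ‖fderiv ℝ (g ∘ fι i c) y‖ₑ ^ p +
    {y | DifferentiableAt ℝ (g ∘ fι i c) y}ᶜ.indicator (fun _ => ⊤) y)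
    ((CCav0_meas p (g ∘ fι i c)).add (measurable_const.indicator mN))
  have e : ∫⁻ y in closedBall (0 : Rn 2) 1, (‖fderiv ℝ (g ∘ fι i c) y‖ₑ ^ p +
      {y | DifferentiableAt ℝ (g ∘ fι i c) y}ᶜ.indicator (fun _ => ⊤) y) =
      ∫⁻ y in ball (0 : Rn 2) 1, ‖fderiv ℝ (g ∘ fι i c) y‖ₑ ^ p := by
    rw [← ball_union_sphere, setLIntegral_congr (union_ae_eq_left_of_ae_eq_empty
      (ae_eq_empty.2 (Measure.addHaar_sphere_of_ne_zero volume (0 : Rn 2) one_ne_zero)))]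
    refine lintegral_congr_ae (ae_restrict_of_ae ?_)
    filter_upwards [hM.ae_differentiableAt] with y hy
    rw [indicator_of_notMem (show y ∉ {y | DifferentiableAt ℝ (g ∘ fι i c) y}ᶜ from fun k => k hy),
      add_zero]
  rw [e] at k
  rw [mul_assoc]
  refine le_trans ?_ (mul_le_mul_right k _)
  rw [← lintegral_const_mul' _ _ c0]
  refine lintegral_mono_ae ((ae_restrict_iff' (CCav0_mA i c)).2 ?_)
  filter_upwards [CCav0_ae (hg.comp (CCav0_it (K + 1)).tp) (hh.comp (CCav0_tpψ i)),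
    lψ.ae_differentiableAt] with x h1 h2 hx
  have f1 := CCav0_face hc hx
  have f2 : CCav0_P x = fι i c (CCav0_ψ i x) := by
    rw [← f1]
    exact (Fin.insertNth_self_removeNth i (CCav0_P x)).symm
  have f3 : CCav0_P^[K + 1] x = fι i c (CCav0_ψ i x) := by
    rw [iterate_succ_apply, iterate_fixed (CCav0_fix ?_), f2]
    refine le_trans ?_ (norm_le_pi_norm _ i)
    rw [f1]
    rcases hc with rfl | rfl <;> simp
  refine le_trans (le_of_eq (congrArg (fun D => ‖D‖ₑ ^ p) (h1 (congrArg g f3)))) ?_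
  by_cases hd : DifferentiableAt ℝ (g ∘ fι i c) (CCav0_ψ i x)
  · refine le_trans ?_ (mul_le_mul_right le_self_add _)
    rw [← ENNReal.mul_rpow_of_nonneg _ _ p0.le]
    refine ENNReal.rpow_le_rpow (le_trans (le_of_eq (congrArg enorm
      (fderiv_comp (g := g ∘ fι i c) (f := CCav0_ψ i) x hd h2))) ?_) p0.le
    rw [enorm_eq_nnnorm, enorm_eq_nnnorm, ← ENNReal.coe_mul, ENNReal.coe_le_coe, mul_comm,
      ← NNReal.coe_le_coe]
    push_cast
    refine (ContinuousLinearMap.opNorm_comp_le _ _).trans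
      (mul_le_mul_of_nonneg_left ?_ (norm_nonneg _))
    linarith [norm_fderiv_le_of_lipschitz ℝ lψ (x₀ := x)]
  · rw [indicator_of_mem (show CCav0_ψ i x ∈ {y | DifferentiableAt ℝ (g ∘ fι i c) y}ᶜ from hd),
      add_top, ENNReal.mul_top (ENNReal.rpow_pos (by simp) ENNReal.coe_ne_top).ne']
    exact le_top

theorem CCav0_in {p : ℝ} (hp1 : 1 ≤ p) (G : Rn 3 → Rn 3) :
    ∫⁻ x in ball (0 : Rn 3) (1 / 2), ‖fderiv ℝ (G ∘ CCav0_P) x‖ₑ ^ p ≤
      2 ^ p * ENNReal.ofReal ((1 / 2) ^ 3) * ∫⁻ x in ball (0 : Rn 3) 1, ‖fderiv ℝ G x‖ₑ ^ p := by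
  have p0 : 0 ≤ p := by linarith
  have k := lint_push (A := ball (0 : Rn 3) (1 / 2)) (B := ball 0 1) measurableSet_ball
    measurableSet_ball (ψ := fun x => (2 : ℝ) • x) (by fun_prop) (fun x hx => by
      rw [mem_ball_zero_iff] at hx ⊢
      rw [norm_smul, Real.norm_ofNat]
      linarith) (L := 1 / 2) (by norm_num) (fun x _ y _ => by
      rw [← smul_sub, norm_smul, Real.norm_ofNat]
      linarith) (CCav0_meas p G)
  rw [mul_assoc]
  refine le_trans ?_ (mul_le_mul_right k _)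
  rw [← lintegral_const_mul' _ _ (ENNReal.rpow_ne_top_of_nonneg p0 ENNReal.ofNat_ne_top)]
  refine setLIntegral_mono' measurableSet_ball fun x hx => le_of_eq ?_
  have e : G ∘ CCav0_P =ᶠ[𝓝 x] fun y => G ((2 : ℝ) • y) := by
    filter_upwards [isOpen_ball.mem_nhds hx] with y hy
    rw [comp_apply, CCav0_two (mem_ball_zero_iff.1 hy).le]
  rw [e.fderiv_eq, fderiv_comp_smul, enorm_smul, ENNReal.mul_rpow_of_nonneg _ _ p0,
    Real.enorm_eq_ofReal zero_le_two, ENNReal.ofReal_ofNat]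

theorem CCav0_step {p : ℝ} (hp1 : 1 ≤ p) {L : ℝ≥0} (hL : LipschitzWith L CCav0_P)
    {g : Rn 3 → Rn 3} (hg : TP g) (K : ℕ) :
    ∫⁻ x in ball (0 : Rn 3) 1, ‖fderiv ℝ (g ∘ CCav0_P^[K + 1]) x‖ₑ ^ p ≤
      2 ^ p * ENNReal.ofReal ((1 / 2) ^ 3) *
        (∫⁻ x in ball (0 : Rn 3) 1, ‖fderiv ℝ (g ∘ CCav0_P^[K]) x‖ₑ ^ p) +
      ((L + 1 : ℝ≥0) : ℝ≥0∞) ^ p * 2 * ∑ i, ∑ c ∈ ({-1, 1} : Finset ℝ),
        ∫⁻ y in ball (0 : Rn 2) 1, ‖fderiv ℝ (g ∘ fι i c) y‖ₑ ^ p := by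
  have hs : ball (0 : Rn 3) 1 ⊆ ball 0 (1 / 2) ∪ ⋃ i, (CCav0_A i (-1) ∪ CCav0_A i 1) := by
    intro x hx
    rw [mem_ball_zero_iff] at hx
    rcases lt_or_ge ‖x‖ (1 / 2) with h | h
    · exact Or.inl (mem_ball_zero_iff.2 h)
    · obtain ⟨i, hi⟩ := accr_exists x (by linarith)
      have k := norm_le_pi_norm x i
      rw [Real.norm_eq_abs, abs_le] at k
      refine Or.inr (mem_iUnion.2 ⟨i, (le_abs'.1 hi).imp (fun a => ⟨h, hx, ?_⟩)
        fun a => ⟨h, hx, ?_⟩⟩) <;> linarith [k.1, k.2]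
  refine (lintegral_mono_set hs).trans ((lintegral_union_le _ _ _).trans
    (add_le_add (CCav0_in hp1 (g ∘ CCav0_P^[K])) ((lintegral_iUnion_le _ _).trans ?_)))
  rw [tsum_fintype, Finset.mul_sum]
  refine Finset.sum_le_sum fun i _ => (lintegral_union_le _ _ _).trans ?_
  rw [Finset.sum_pair (by norm_num), mul_add]
  exact add_le_add (CCav0_sec hp1 hL hg K i (Or.inl rfl)) (CCav0_sec hp1 hL hg K i (Or.inr rfl))

theorem cav0 {p : ℝ} (hp1 : 1 ≤ p) (hp : p < 3) : ∃ C : ℝ≥0∞, C ≠ ⊤ ∧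
    ∀ (g : Rn 3 → Rn 3) (ε : ℝ≥0∞), TP g → ε ≠ 0 → ∃ w, Mv (closedBall 0 1) w ∧
      ∫⁻ x in ball (0 : Rn 3) 1, ‖fderiv ℝ (g ∘ w) x‖ₑ ^ p ≤
        C * (∑ i, ∑ c ∈ ({-1, 1} : Finset ℝ),
          ∫⁻ y in ball (0 : Rn 2) 1, ‖fderiv ℝ (g ∘ fι i c) y‖ₑ ^ p) + ε := by
  obtain ⟨L, hL⟩ := CCav0_tp.lip
  have p0 : 0 ≤ p := by linarith
  obtain ⟨q, hq⟩ : ∃ q : ℝ≥0∞, q = 2 ^ p * ENNReal.ofReal ((1 / 2) ^ 3) := ⟨_, rfl⟩
  have q1 : q < 1 := by
    have e : ENNReal.ofReal ((1 / 2) ^ 3) = ((2 : ℝ≥0∞) ^ (3 : ℝ))⁻¹ := by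
      rw [one_div, inv_pow, ENNReal.ofReal_inv_of_pos (by norm_num), ENNReal.ofReal_pow (by norm_num),
        ENNReal.ofReal_ofNat, ← ENNReal.rpow_natCast]
      norm_num
    have k : (2 : ℝ≥0∞) ^ (3 : ℝ) ≠ ⊤ :=
      ENNReal.rpow_ne_top_of_nonneg (by norm_num) ENNReal.ofNat_ne_top
    rw [hq, e, ← div_eq_mul_inv, ENNReal.div_lt_iff (Or.inr (by simp)) (Or.inl k), one_mul]
    exact ENNReal.rpow_lt_rpow_of_exponent_lt ENNReal.one_lt_two ENNReal.ofNat_ne_top hp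
  have c1 : (2 : ℝ≥0∞) ^ (p - 1) ≠ ⊤ :=
    ENNReal.rpow_ne_top_of_nonneg (by linarith) ENNReal.ofNat_ne_top
  refine ⟨2 ^ (p - 1) * ((1 - q)⁻¹ * (((L + 1 : ℝ≥0) : ℝ≥0∞) ^ p * 2)), ENNReal.mul_ne_top c1
    (ENNReal.mul_ne_top (ENNReal.inv_ne_top.2 (tsub_pos_iff_lt.2 q1).ne') (ENNReal.mul_ne_top
      (ENNReal.rpow_ne_top_of_nonneg p0 ENNReal.coe_ne_top) ENNReal.ofNat_ne_top)),
    fun g ε hg hε => ?_⟩
  obtain ⟨d, d0, -, hd⟩ := ACo_small (ENNReal.mul_ne_top c1 (ENNReal.ofNat_ne_top (n := 2))) hε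
  obtain ⟨S, hS⟩ : ∃ S : ℝ≥0∞, S = ∑ i, ∑ c ∈ ({-1, 1} : Finset ℝ),
    ∫⁻ y in ball (0 : Rn 2) 1, ‖fderiv ℝ (g ∘ fι i c) y‖ₑ ^ p := ⟨_, rfl⟩
  rw [← hS]
  have rc : ∀ K : ℕ, ∫⁻ x in ball (0 : Rn 3) 1, ‖fderiv ℝ (g ∘ CCav0_P^[K]) x‖ₑ ^ p ≤
      q ^ K * (∫⁻ x in ball (0 : Rn 3) 1, ‖fderiv ℝ g x‖ₑ ^ p) +
        (∑ j ∈ Finset.range K, q ^ j) * (((L + 1 : ℝ≥0) : ℝ≥0∞) ^ p * 2 * S) := by
    intro K
    induction K with
    | zero => simp
    | succ K ih =>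
      refine (CCav0_step hp1 hL hg K).trans ?_
      rw [← hq, ← hS, geom_sum_succ, pow_succ', add_mul, one_mul, ← add_assoc, mul_assoc q,
        mul_assoc q, ← mul_add]
      exact add_le_add (mul_le_mul_right ih q) le_rfl
  have fin : ∫⁻ x in ball (0 : Rn 3) 1, ‖fderiv ℝ g x‖ₑ ^ p ≠ ⊤ := by
    obtain ⟨M, hM⟩ := hg.lip
    refine ne_top_of_le_ne_top ?_ (lintegral_mono (g := fun _ => (M : ℝ≥0∞) ^ p) fun x =>
      ENNReal.rpow_le_rpow ?_ p0)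
    · rw [setLIntegral_const]
      exact ENNReal.mul_ne_top (ENNReal.rpow_ne_top_of_nonneg p0 ENNReal.coe_ne_top)
        measure_ball_lt_top.ne
    · rw [enorm_eq_nnnorm, ENNReal.coe_le_coe]
      exact norm_fderiv_le_of_lipschitz ℝ hM
  have t := ENNReal.Tendsto.mul_const (ENNReal.tendsto_pow_atTop_nhds_zero_of_lt_one q1)
    (Or.inr fin)
  rw [zero_mul] at t
  obtain ⟨K, hK⟩ := (t.eventually (ge_mem_nhds (pos_iff_ne_zero.2 d0))).exists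
  obtain ⟨w, hw, h⟩ := round0 hp1 (isCompact_closedBall 0 1) (CCav0_it K) hg d0
  have gs : ∑ j ∈ Finset.range K, q ^ j ≤ (1 - q)⁻¹ :=
    (ENNReal.sum_le_tsum _).trans (ENNReal.tsum_geometric q).le
  refine ⟨w, hw, (lintegral_mono (g := fun x => 2 ^ (p - 1) *
    (en p (g ∘ w) (g ∘ CCav0_P^[K]) (fderiv ℝ (g ∘ CCav0_P^[K])) x +
      ‖fderiv ℝ (g ∘ CCav0_P^[K]) x‖ₑ ^ p)) fun x => ?_).trans ?_⟩
  · refine le_trans (ENNReal.rpow_le_rpow ?_ p0) ((ENNReal.rpow_add_le_mul_rpow_add_rpow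
      ‖fderiv ℝ (g ∘ w) x - fderiv ℝ (g ∘ CCav0_P^[K]) x‖ₑ ‖fderiv ℝ (g ∘ CCav0_P^[K]) x‖ₑ hp1).trans
        (mul_le_mul_right (add_le_add le_add_self le_rfl) _))
    rw [enorm_eq_nnnorm, enorm_eq_nnnorm, enorm_eq_nnnorm, ← ENNReal.coe_add, ENNReal.coe_le_coe]
    refine le_trans ?_ (nnnorm_add_le _ _)
    rw [sub_add_cancel]
  · rw [lintegral_const_mul' _ _ c1, lintegral_add_right _ (CCav0_meas p _)]
    refine (mul_le_mul_right (add_le_add ((lintegral_mono_set ball_subset_closedBall).trans h)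
      ((rc K).trans (add_le_add hK (mul_le_mul_left gs _)))) _).trans ?_
    rw [← add_assoc, ← two_mul, mul_add, ← mul_assoc, add_comm]
    refine add_le_add (le_of_eq ?_) hd
    ring

end BEp
end
end

-- merged part: Pool.Agent.Work.MP_f0515e_an.P3.CCav
section
/-! Cavitation in all cells. `cav1`: with `Φ` from `Cbe`, replace `G ∘ N` by a `TP` map near the
closed cell (`LTP.nhds`), apply `cav0` to `g = G ∘ N ∘ Φ`, `w = N Φ w0 Φ⁻¹ N⁻¹`; the change of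
variables costs `(a/lam)^p (a lam)^3` (`lint_push`), the faces `(a a lam)^p (a a/lam)^2`
(`tan_kx` with `Ψ = N ∘ Φ ∘ fι i c`, which maps into the relative boundary of the cell, `rb_sub_sk`);
`3 p + 7 ≤ 16`. `cavg`: `W x = w (K.cell x) x`; each `w σ` is the identity off the open cell (by
continuity); on a compact set `W` agrees with the composition of finitely many of them. -/

open Set Metric Filter Topology Function BEv MeasureTheory
open scoped NNReal ENNReal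

noncomputable section
namespace BEp

theorem CCav_img {Φ : Rn 3 → Rn 3} (h : LH Φ) (A : Set (Rn 3)) : Φ '' A = invFun Φ ⁻¹' A :=
  congrFun (image_eq_preimage_of_inverse h.li h.ri) A

theorem CCav_open {S : Set (Rn 3)} {a lam : ℝ} (h : Cbe S a lam) : IsOpen S := by
  obtain ⟨Φ, h1, -, h3, -⟩ := h
  rw [← h3, CCav_img h1]
  exact isOpen_ball.preimage h1.tpi.continuous

theorem CCav_fd {n : ℕ} {f g : Rn n → Rn 3} {A : Set (Rn n)} (hA : IsOpen A) (h : EqOn f g A)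
    (p : ℝ) : ∫⁻ x in A, ‖fderiv ℝ f x‖ₑ ^ p = ∫⁻ x in A, ‖fderiv ℝ g x‖ₑ ^ p :=
  setLIntegral_congr_fun hA.measurableSet fun x hx => by
    rw [(h.eventuallyEq_of_mem (hA.mem_nhds hx)).fderiv_eq]

theorem CCav_push {p : ℝ} (hp : 0 ≤ p) {h Ψ : Rn 3 → Rn 3} (hh : TP h) (hΨ : TP Ψ)
    {A B : Set (Rn 3)} (hA : IsOpen A) (hB : MeasurableSet B) (hm : MapsTo Ψ A B) {L L' : ℝ}
    (hL : 0 ≤ L) (hL' : 0 < L') (h1 : ∀ x ∈ A, ∀ y ∈ A, ‖x - y‖ ≤ L * ‖Ψ x - Ψ y‖)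
    (h2 : ∀ x ∈ A, ∀ y ∈ A, ‖Ψ x - Ψ y‖ ≤ L' * ‖x - y‖) :
    ∫⁻ x in A, ‖fderiv ℝ (h ∘ Ψ) x‖ₑ ^ p ≤
      ENNReal.ofReal (L' ^ p * L ^ 3) * ∫⁻ y in B, ‖fderiv ℝ h y‖ₑ ^ p := by
  classical
  obtain ⟨φ, hφ⟩ : ∃ φ : Rn 3 → ℝ≥0∞,
      φ = fun y => if DifferentiableAt ℝ h y then ‖fderiv ℝ h y‖ₑ ^ p else ⊤ := ⟨_, rfl⟩
  have mφ : Measurable φ := by
    rw [hφ]
    exact Measurable.ite (measurableSet_of_differentiableAt ℝ h)
      ((measurable_fderiv ℝ h).enorm.pow_const p) measurable_const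
  obtain ⟨K1, k1⟩ := hh.lip
  obtain ⟨K2, k2⟩ := hΨ.lip
  have e1 : ∫⁻ y in B, φ y = ∫⁻ y in B, ‖fderiv ℝ h y‖ₑ ^ p := by
    refine lintegral_congr_ae (ae_restrict_of_ae ?_)
    filter_upwards [k1.ae_differentiableAt (μ := volume)] with y hy
    rw [hφ]
    exact if_pos hy
  have e2 : ∫⁻ x in A, ‖fderiv ℝ (h ∘ Ψ) x‖ₑ ^ p ≤
      ∫⁻ x in A, ENNReal.ofReal (L' ^ p) * φ (Ψ x) := by
    refine lintegral_mono_ae ((ae_restrict_iff' hA.measurableSet).2 ?_)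
    filter_upwards [k2.ae_differentiableAt (μ := volume)] with x hx hxA
    rw [hφ]
    by_cases hd : DifferentiableAt ℝ h (Ψ x)
    · have a1 : ‖fderiv ℝ Ψ x‖ ≤ L' := norm_fderiv_le_of_lip' ℝ hL'.le (by
        filter_upwards [hA.mem_nhds hxA] with y hy using h2 y hy x hxA)
      have a2 : ‖fderiv ℝ (h ∘ Ψ) x‖ ≤ L' * ‖fderiv ℝ h (Ψ x)‖ := by
        rw [fderiv_comp x hd hx, mul_comm]
        exact (ContinuousLinearMap.opNorm_comp_le _ _).trans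
          (mul_le_mul_of_nonneg_left a1 (norm_nonneg _))
      simp only [if_pos hd]
      rw [← ENNReal.ofReal_rpow_of_pos hL', ← ENNReal.mul_rpow_of_nonneg _ _ hp,
        ← ofReal_norm_eq_enorm, ← ofReal_norm_eq_enorm, ← ENNReal.ofReal_mul hL'.le]
      exact ENNReal.rpow_le_rpow (ENNReal.ofReal_le_ofReal a2) hp
    · simp only [if_neg hd]
      rw [ENNReal.mul_top (ENNReal.ofReal_pos.2 (Real.rpow_pos_of_pos hL' p)).ne']
      exact le_top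
  refine e2.trans ?_
  rw [lintegral_const_mul' _ _ ENNReal.ofReal_ne_top,
    ENNReal.ofReal_mul (Real.rpow_nonneg hL'.le p), mul_assoc, ← e1]
  gcongr
  exact lint_push hA.measurableSet hB hΨ.continuous.measurable hm hL h1 mφ

theorem CCav_dist (i : Fin 3) (c c' : ℝ) (y y' : Rn 2) :
    ‖fι i c y - fι i c' y'‖ = max |c - c'| ‖y - y'‖ := by
  rw [← dist_eq_norm, ← dist_eq_norm, ← Real.dist_eq]
  exact Fin.dist_insertNth_insertNth (α := fun _ => ℝ) i c c' y y'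

theorem CCav_norm (i : Fin 3) {c : ℝ} (hc : |c| = 1) {y : Rn 2} (hy : y ∈ ball (0 : Rn 2) 1) :
    ‖fι i c y‖ = 1 := by
  have h := CCav_dist i c 0 y 0
  have e : fι i 0 0 = 0 := by
    funext j
    refine Fin.succAboveCases i ?_ (fun k => ?_) j
    · simp only [fι, Fin.insertNth_apply_same, Pi.zero_apply]
    · simp only [fι, Fin.insertNth_apply_succAbove, Pi.zero_apply]
  rw [e, sub_zero, sub_zero, sub_zero, hc, max_eq_left (mem_ball_zero_iff.1 hy).le] at h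
  exact h

theorem CCav_tp (i : Fin 3) (c : ℝ) : TP (fι i c) := by
  refine TP.pi fun j => ?_
  refine Fin.succAboveCases i ?_ (fun k => ?_) j
  · simpa only [fι, Fin.insertNth_apply_same] using TP.const c
  · simpa only [fι, Fin.insertNth_apply_succAbove] using TP.apply TP.id' k

theorem CCav_num {p a lam : ℝ} (hp0 : 0 ≤ p) (hp : p < 3) (ha : 1 ≤ a) (hl : 0 < lam) :
    (a / lam) ^ p * (a * lam) ^ 3 * ((a * (a * lam)) ^ p * (a * (a / lam)) ^ 2) ≤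
      a ^ 16 * lam := by
  have a0 : 0 < a := by linarith
  have e1 : (a / lam) ^ p * (a * (a * lam)) ^ p = (a ^ 3) ^ p := by
    rw [← Real.mul_rpow (by positivity) (by positivity)]
    congr 1
    field_simp
  have e2 : (a ^ 3) ^ p ≤ a ^ 9 := by
    refine (Real.rpow_le_rpow_of_exponent_le (one_le_pow₀ ha) hp.le).trans_eq ?_
    rw [show (3 : ℝ) = (3 : ℕ) by norm_num, Real.rpow_natCast]
    ring
  have e3 : (a * lam) ^ 3 * (a * (a / lam)) ^ 2 = a ^ 7 * lam := by field_simp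
  calc _ = ((a / lam) ^ p * (a * (a * lam)) ^ p) * ((a * lam) ^ 3 * (a * (a / lam)) ^ 2) := by ring
    _ ≤ a ^ 9 * (a ^ 7 * lam) := by
      rw [e1, e3]
      gcongr
    _ = _ := by ring

theorem cav1 {p : ℝ} (hp1 : 1 ≤ p) (hp : p < 3) : ∃ C : ℝ≥0∞, C ≠ ⊤ ∧
    ∀ (Ω : Set (Rn 3)) (K : Kx Ω) (ch : Set (Rn 3) → Ch) (G : Rn 3 → Rn 3) (σ : Set (Rn 3))
      (N : Rn 3 ≃L[ℝ] Rn 3) (a lam : ℝ) (ε : ℝ≥0∞), IsOpen Ω → LTP Ω G → σ ∈ K.cel 3 → 1 ≤ a →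
      0 < lam → Cbe (N ⁻¹' σ) a lam → (∀ F ∈ K.fc σ, (ch F).Of F ∧ (ch F).Bi N a) → ε ≠ 0 →
      ∃ w, Mv σ w ∧ ∫⁻ ξ in N ⁻¹' σ, ‖fderiv ℝ (G ∘ w ∘ N) ξ‖ₑ ^ p ≤
        C * ENNReal.ofReal (a ^ 16 * lam) * (∑' F : K.fc σ, (ch F).E p G) + ε := by
  obtain ⟨C, hC, H⟩ := cav0 hp1 hp
  refine ⟨C * 6, ENNReal.mul_ne_top hC (by simp),
    fun Ω K ch G σ N a lam ε hΩ hG hσ ha hl hb hf hε => ?_⟩
  have hop := CCav_open hb
  obtain ⟨Φ, h1, h2, h3, h4⟩ := hb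
  have a0 : 0 < a := by linarith
  have p0 : 0 < p := by linarith
  have hN : LH (fun x => N x) := by simpa only [add_zero] using lh_aff N 0
  have hΘ : LH ((fun x => N x) ∘ Φ) := hN.comp h1
  have i1 : ((fun x => N x) ∘ Φ) '' ball 0 1 = σ := by
    rw [image_comp, h3]
    exact image_preimage_eq σ N.surjective
  have i2 : ((fun x => N x) ∘ Φ) '' closedBall 0 1 = closure σ := by
    rw [image_comp, h2]
    exact (N.toHomeomorph.image_closure _).trans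
      (congrArg closure (image_preimage_eq σ N.surjective))
  obtain ⟨x0, hx0, e0⟩ := hσ.1
  have cs : closure σ ⊆ Ω := e0 ▸ K.sub x0 hx0
  have cc : IsCompact (closure σ) := i2 ▸ (isCompact_closedBall 0 1).image hΘ.tp.continuous
  obtain ⟨g0, hg0, eg⟩ := hG _ cc cs
  have hg : TP (g0 ∘ (fun x => N x) ∘ Φ) := hg0.comp hΘ.tp
  obtain ⟨w0, hw, hE⟩ := H _ (ε / ENNReal.ofReal ((a / lam) ^ p * (a * lam) ^ 3)) hg
    (ENNReal.div_pos_iff.2 ⟨hε, ENNReal.ofReal_ne_top⟩).ne'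
  have hw' : Mv (ball 0 1) w0 := by
    refine ⟨hw.1, fun x hx => ?_⟩
    have e : EqOn w0 id (closedBall (0 : Rn 3) 1)ᶜ := fun y hy => hw.2 y hy
    refine e.closure hw.1.tp.continuous continuous_id ?_
    rwa [closure_compl, interior_closedBall _ one_ne_zero]
  have hm : MapsTo (invFun Φ) (N ⁻¹' σ) (ball 0 1) := fun ξ hξ => by
    rwa [← h3, CCav_img h1] at hξ
  refine ⟨_, i1 ▸ hw'.conj hΘ, ?_⟩
  have q1 : EqOn (G ∘ (((fun x => N x) ∘ Φ) ∘ w0 ∘ invFun ((fun x => N x) ∘ Φ)) ∘ N)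
      (((g0 ∘ (fun x => N x) ∘ Φ) ∘ w0) ∘ invFun Φ) (N ⁻¹' σ) := fun ξ hξ => by
    have e : invFun ((fun x => N x) ∘ Φ) (N ξ) = invFun Φ ξ :=
      hΘ.inv_eq (congrArg N (h1.ri ξ))
    simp only [comp_apply, e]
    refine eg (subset_closure ?_)
    rw [← i1]
    exact ⟨w0 (invFun Φ ξ), hw'.image_eq subset_rfl ▸ mem_image_of_mem _ (hm hξ), rfl⟩
  rw [CCav_fd hop q1]
  refine (CCav_push p0.le (hg.comp hw.1.tp) h1.tpi hop measurableSet_ball hm (L := a * lam)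
    (L' := a / lam) (by positivity) (by positivity) (fun x hx y hy => ?_)
    (fun x hx y hy => ?_)).trans ?_
  · have := (h4 _ (ball_subset_closedBall (hm hx)) _ (ball_subset_closedBall (hm hy))).1
    rwa [h1.ri, h1.ri] at this
  · have := (h4 _ (ball_subset_closedBall (hm hx)) _ (ball_subset_closedBall (hm hy))).2
    rw [h1.ri, h1.ri] at this
    rw [div_mul_eq_mul_div, le_div_iff₀ hl, mul_comm]
    exact this
  have face : ∀ (i : Fin 3) (c : ℝ), |c| = 1 →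
      ∫⁻ y in ball (0 : Rn 2) 1, ‖fderiv ℝ ((g0 ∘ (fun x => N x) ∘ Φ) ∘ fι i c) y‖ₑ ^ p ≤
        ENNReal.ofReal ((a * (a * lam)) ^ p * (a * (a / lam)) ^ 2) *
          ∑' F : K.fc σ, (ch F).E p G := by
    intro i c hc
    have m1 : ∀ y ∈ ball (0 : Rn 2) 1, fι i c y ∈ closedBall (0 : Rn 3) 1 := fun y hy =>
      mem_closedBall_zero_iff.2 (CCav_norm i hc hy).le
    have m2 : ∀ y ∈ ball (0 : Rn 2) 1, N (Φ (fι i c y)) ∈ closure σ := fun y hy =>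
      i2 ▸ mem_image_of_mem _ (m1 y hy)
    have m3 : ∀ y ∈ ball (0 : Rn 2) 1, N (Φ (fι i c y)) ∉ σ := fun y hy hs => by
      rw [← i1] at hs
      obtain ⟨z, hz, e⟩ := hs
      rw [hΘ.inj e, mem_ball_zero_iff, CCav_norm i hc hy] at hz
      exact lt_irrefl _ hz
    have d : ∀ y y' : Rn 2, ‖fι i c y - fι i c y'‖ = ‖y - y'‖ := fun y y' => by
      rw [CCav_dist, sub_self, abs_zero, max_eq_right (norm_nonneg _)]
    have q2 : EqOn ((g0 ∘ (fun x => N x) ∘ Φ) ∘ fι i c) (G ∘ fun y => N (Φ (fι i c y)))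
        (ball 0 1) := fun y hy => (eg (m2 y hy)).symm
    rw [CCav_fd isOpen_ball q2]
    refine tan_kx p0 hΩ K hG (Ψ := fun y => N (Φ (fι i c y))) (hΘ.tp.comp (CCav_tp i c))
      measurableSet_ball
      (fun y hy => K.rb_sub_sk hσ.1 hσ.2.le ⟨m2 y hy, m3 y hy⟩) N a0.le (by positivity)
      (by positivity) (fun x hx => LL.of_nhds (isOpen_ball.mem_nhds hx) fun y hy z hz => ?_)
      (fun x hx y hy => ?_) ch (fun F hF => hF.1) hf (fun x hx hc => ⟨hc, ?_⟩)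
    · rw [N.symm_apply_apply, N.symm_apply_apply, ← d]
      exact (h4 _ (m1 y hy) _ (m1 z hz)).1
    · rw [← map_sub, N.symm_apply_apply, ← d, div_mul_eq_mul_div, le_div_iff₀ hl, mul_comm]
      exact (h4 _ (m1 x hx) _ (m1 y hy)).2
    · rw [← e0]
      exact K.fr x0 hx0 _ (e0 ▸ m2 x hx)
  have s6 : (∑ i : Fin 3, ∑ c ∈ ({-1, 1} : Finset ℝ), ∫⁻ y in ball (0 : Rn 2) 1,
      ‖fderiv ℝ ((g0 ∘ (fun x => N x) ∘ Φ) ∘ fι i c) y‖ₑ ^ p) ≤
      6 * (ENNReal.ofReal ((a * (a * lam)) ^ p * (a * (a / lam)) ^ 2) *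
        ∑' F : K.fc σ, (ch F).E p G) := by
    refine (Finset.sum_le_sum fun i _ => ?_).trans_eq (b := ∑ _i : Fin 3,
      2 * (ENNReal.ofReal ((a * (a * lam)) ^ p * (a * (a / lam)) ^ 2) *
        ∑' F : K.fc σ, (ch F).E p G)) ?_
    · rw [Finset.sum_pair (by norm_num), two_mul]
      exact add_le_add (face i _ (by simp)) (face i _ (by simp))
    · rw [Fin.sum_univ_three]
      ring
  refine (mul_le_mul_right (hE.trans (add_le_add_left (mul_le_mul_right s6 C) _)) _).trans ?_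
  rw [mul_add]
  refine add_le_add ?_ ENNReal.mul_div_le
  have e := ENNReal.ofReal_le_ofReal (CCav_num p0.le hp ha hl)
  rw [ENNReal.ofReal_mul (by positivity)] at e
  calc _ = C * 6 * (ENNReal.ofReal ((a / lam) ^ p * (a * lam) ^ 3) *
        ENNReal.ofReal ((a * (a * lam)) ^ p * (a * (a / lam)) ^ 2)) *
        ∑' F : K.fc σ, (ch F).E p G := by ring
    _ ≤ _ := by gcongr

theorem cavg {p : ℝ} (hp1 : 1 ≤ p) (hp : p < 3) : ∃ C : ℝ≥0∞, C ≠ ⊤ ∧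
    ∀ (Ω : Set (Rn 3)) (K : Kx Ω) (ch : Set (Rn 3) → Ch) (G : Rn 3 → Rn 3)
      (T : Set (Set (Rn 3))) (N : Set (Rn 3) → Rn 3 ≃L[ℝ] Rn 3) (a lam : Set (Rn 3) → ℝ)
      (ε : Set (Rn 3) → ℝ≥0∞), IsOpen Ω → LTP Ω G → InjOn G Ω → T ⊆ K.cel 3 →
      (∀ σ ∈ T, 1 ≤ a σ ∧ 0 < lam σ ∧ Cbe (N σ ⁻¹' σ) (a σ) (lam σ) ∧
        ∀ F ∈ K.fc σ, (ch F).Of F ∧ (ch F).Bi (N σ) (a σ)) → (∀ σ, ε σ ≠ 0) →
      ∃ G', LTP Ω G' ∧ InjOn G' Ω ∧ (∀ x ∈ Ω, K.cell x ∉ T → G' x = G x) ∧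
        (∀ σ ∈ K.cel 3, G' '' closure σ ⊆ G '' closure σ) ∧
        ∀ σ ∈ T, ∫⁻ ξ in N σ ⁻¹' σ, ‖fderiv ℝ (G' ∘ N σ) ξ‖ₑ ^ p ≤
          C * ENNReal.ofReal (a σ ^ 16 * lam σ) * (∑' F : K.fc σ, (ch F).E p G) + ε σ := by
  classical
  obtain ⟨C, hC, H⟩ := cav1 hp1 hp
  refine ⟨C, hC, fun Ω K ch G T N a lam ε hΩ hG hi hT hb hε => ?_⟩
  have ex : ∀ σ : Set (Rn 3), ∃ w, Mv σ w ∧ (σ ∉ T → w = id) ∧ (σ ∈ T →
      ∫⁻ ξ in N σ ⁻¹' σ, ‖fderiv ℝ (G ∘ w ∘ N σ) ξ‖ₑ ^ p ≤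
        C * ENNReal.ofReal (a σ ^ 16 * lam σ) * (∑' F : K.fc σ, (ch F).E p G) + ε σ) := by
    intro σ
    by_cases hσ : σ ∈ T
    · obtain ⟨b1, b2, b3, b4⟩ := hb σ hσ
      obtain ⟨w, h1, h2⟩ := H Ω K ch G σ (N σ) (a σ) (lam σ) (ε σ) hΩ hG (hT hσ) b1 b2 b3 b4 (hε σ)
      exact ⟨w, h1, fun h => (h hσ).elim, fun _ => h2⟩
    · exact ⟨id, Mv.id' σ, fun _ => rfl, fun h => (hσ h).elim⟩
  choose w w1 w2 w3 using ex
  have m1 : ∀ x ∈ Ω, w (K.cell x) x ∈ K.cell x := fun x hx =>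
    ((w1 (K.cell x)).image_eq subset_rfl).subset (mem_image_of_mem _ (K.mem x hx))
  have m2 : MapsTo (fun x => w (K.cell x) x) Ω Ω := fun x hx =>
    K.sub x hx (subset_closure (m1 x hx))
  have lt : LTP Ω (fun x => w (K.cell x) x) := by
    intro A hA hs
    have hfin := K.lf A hA hs
    refine ⟨fun x => x + ∑ σ ∈ hfin.toFinset, (w σ x - x),
      TP.id'.add (TP.sum _ fun σ _ => (w1 σ).1.tp.sub TP.id'), fun x hx => ?_⟩
    have e : ∑ σ ∈ hfin.toFinset, (w σ x - x) = w (K.cell x) x - x := by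
      refine Finset.sum_eq_single_of_mem _ (hfin.mem_toFinset.2 (mem_image_of_mem _ hx))
        fun σ hσ hne => ?_
      obtain ⟨y, hy, rfl⟩ := hfin.mem_toFinset.1 hσ
      rw [(w1 _).2 x fun h => hne (K.eqv y (hs hy) x h).symm, sub_self]
    simp only [e, add_sub_cancel]
  refine ⟨G ∘ fun x => w (K.cell x) x, hG.comp lt m2, hi.comp (fun x hx y hy e => ?_) m2,
    fun x _ hx => ?_, fun σ hσ => ?_, fun σ hσ => ?_⟩
  · have e' : w (K.cell x) x = w (K.cell y) y := e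
    have c : K.cell x = K.cell y := by
      rw [← K.eqv x hx _ (m1 x hx), e', K.eqv y hy _ (m1 y hy)]
    rw [c] at e'
    exact (w1 _).1.inj e'
  · simp only [comp_apply, w2 _ hx, id]
  · obtain ⟨x0, hx0, rfl⟩ := hσ.1
    rintro _ ⟨x, hx, rfl⟩
    exact ⟨_, K.fr x0 hx0 x hx (m1 x (K.sub x0 hx0 hx)), rfl⟩
  · refine Eq.trans_le (CCav_fd (CCav_open (hb σ hσ).2.2.1) (fun ξ hξ => ?_) p) (w3 σ hσ)
    obtain ⟨x0, hx0, e0⟩ := (hT hσ).1
    have c : K.cell (N σ ξ) = σ := (K.eqv x0 hx0 _ (e0 ▸ hξ)).trans e0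
    simp only [comp_apply, c]

end BEp
end
end
end

-- merged part: Pool.Agent.Work.MP_f0515e_an.P3.Det
section
-- merged part: Pool.Agent.Work.MP_f0515e_an.P3.DetB
section
/-! Rearrangement of the sums (`ENNReal.tsum_comm`); a three cell lies in at most one cube, the
faces of a cell of a cube lie in the cube, the fine edges of different cubes are different. -/

open Set Metric Filter Topology Function BEv MeasureTheory
open scoped NNReal ENNReal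

noncomputable section
namespace BEp

variable {ι : Type} [Fintype ι] {C : ι → Cu} {P : Pr} {aK : ℝ} {Ω : Set (Rn 3)} {K : Kx Ω}
  {ch : Set (Rn 3) → Ch} {w lam : Set (Rn 3) → ℝ} {kp : ι → Set (I3 × I3)} {p : ℝ}

open Classical in
def DetB_w {ι : Type} (C : ι → Cu) (aK : ℝ) (lam : Set (Rn 3) → ℝ) (σ F : Set (Rn 3)) : ℝ≥0∞ :=
  if h : ∃ q, σ ⊆ (C q).q then (C h.choose).wgt aK σ F else ENNReal.ofReal (lam σ)

open Classical in
theorem DetB_ite {α : Type} (r : α → Prop) (f : α → ℝ≥0∞) :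
    ∑' a : {a // r a}, f a = ∑' a, if r a then f a else 0 :=
  tsum_subtype {a | r a} f

theorem DetB_swap {α β : Type} (s : α → Prop) (t : β → Prop) (r : α → β → Prop)
    (f : α → β → ℝ≥0∞) : ∑' a : {a // s a}, ∑' b : {b // t b ∧ r a b}, f a b =
      ∑' b : {b // t b}, ∑' a : {a // s a ∧ r a b}, f a b := by
  classical
  have e1 : ∀ a, ∑' b : {b // t b ∧ r a b}, f a b =
      ∑' b : {b // t b}, if r a b then f a b else 0 := fun a => by
    rw [DetB_ite (fun b => t b ∧ r a b) (f a), DetB_ite t fun b => if r a b then f a b else 0]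
    exact tsum_congr fun b => by by_cases h : t b <;> simp [h]
  have e2 : ∀ b, ∑' a : {a // s a ∧ r a b}, f a b =
      ∑' a : {a // s a}, if r a b then f a b else 0 := fun b => by
    rw [DetB_ite (fun a => s a ∧ r a b) (f · b), DetB_ite s fun a => if r a b then f a b else 0]
    exact tsum_congr fun a => by by_cases h : s a <;> simp [h]
  simp only [e1, e2]
  exact ENNReal.tsum_comm

theorem DetB_part {α : Type} {s : Set α} {t : ι → Set α} (h : ∀ a, a ∈ s ↔ ∃ q, a ∈ t q)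
    (hd : ∀ q q', ∀ a ∈ t q, a ∈ t q' → q = q') (f : α → ℝ≥0∞) :
    ∑' a : s, f a = ∑ q, ∑' a : t q, f a := by
  rw [tsum_congr_set_coe f (show s = ⋃ q, t q from Set.ext fun a => (h a).trans mem_iUnion.symm),
    ENNReal.tsum_biUnion fun q _ q' _ hn => disjoint_left.2 fun a k k' => hn (hd q q' a k k'),
    tsum_fintype]

omit [Fintype ι] in
theorem DetB_one (hF : GFit C P aK K ch w lam) {σ : Set (Rn 3)} (hσ : σ ∈ K.cel 3) {q q' : ι}
    (h : σ ⊆ (C q).q) (h' : σ ⊆ (C q').q) : q = q' := by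
  by_contra hn
  obtain ⟨x, hx⟩ := Kx.cells_ne hσ.1
  have k := interior_maximal h ((Kx.dm_three hσ.1).1 hσ.2) hx
  rw [Cu.q, interior_closedBall'] at k
  exact disjoint_left.1 (hF.far q q' hn) k (h' hx)

theorem DetB_split (hF : GFit C P aK K ch w lam) (φ : Set (Rn 3) → ℝ≥0∞) :
    ∑' σ : {σ // σ ∈ K.cel 3}, φ σ = (∑ q, ∑' σ : (C q).S0 K, φ σ) +
      ∑' σ : {σ // σ ∈ K.cel 3 ∧ ∀ q, ¬ σ ⊆ (C q).q}, φ σ := by
  classical
  rw [← DetB_part (s := {σ | σ ∈ K.cel 3 ∧ ∃ q, σ ⊆ (C q).q}) (t := fun q => (C q).S0 K)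
    (fun σ => ⟨fun ⟨a, q, b⟩ => ⟨q, a, b⟩, fun ⟨q, a, b⟩ => ⟨a, q, b⟩⟩)
    (fun q q' σ a b => DetB_one hF a.1 a.2 b.2) φ, DetB_ite _ φ, DetB_ite _ φ, DetB_ite _ φ,
    ← ENNReal.tsum_add]
  refine tsum_congr fun σ => ?_
  by_cases h : σ ∈ K.cel 3
  · by_cases h' : ∃ q, σ ⊆ (C q).q
    · rw [if_pos h, if_pos ⟨h, h'⟩, if_neg fun k => not_exists.2 k.2 h', add_zero]
    · rw [if_pos h, if_neg fun k => h' k.2, if_pos ⟨h, not_exists.1 h'⟩, zero_add]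
  · rw [if_neg h, if_neg fun k => h k.1, if_neg fun k => h k.1, add_zero]

theorem sum_faces (hF : GFit C P aK K ch w lam) {R : Set (Rn 3) → Prop}
    (h1 : ∀ q, ∀ F ∈ K.cel 2, F ⊆ (C q).q → (R F ↔ (C q).Rig (kp q) F))
    (h2 : ∀ σ ∈ K.cel 3, (∀ q, ¬ σ ⊆ (C q).q) → ∀ F ∈ K.fc σ, ¬ R F) (E : Set (Rn 3) → ℝ≥0∞) :
    ∑' F : {F // F ∈ K.cel 2 ∧ ¬ R F}, omF C aK K lam F * E F =
      (∑ q, (C q).SumF aK K (kp q) ((C q).S0 K) E) + SumO C K lam E := by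
  have e1 : ∀ F, omF C aK K lam F * E F = ∑' σ : {σ // σ ∈ K.cel 3 ∧ F ⊆ closure σ},
      DetB_w C aK lam σ F * E F := fun F => by
    rw [ENNReal.tsum_mul_right]
    rfl
  simp only [e1]
  refine (DetB_swap (fun F => F ∈ K.cel 2 ∧ ¬ R F) (fun σ => σ ∈ K.cel 3)
    (fun F σ => F ⊆ closure σ) fun F σ => DetB_w C aK lam σ F * E F).trans ?_
  refine (DetB_split hF fun σ => ∑' F : {F // (F ∈ K.cel 2 ∧ ¬ R F) ∧ F ⊆ closure σ},
    DetB_w C aK lam σ F * E F).trans ?_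
  refine congrArg₂ (· + ·) (Finset.sum_congr rfl fun q _ => tsum_congr fun σ => ?_)
    (tsum_congr fun σ => ?_)
  · have h : ∃ q, σ.1 ⊆ (C q).q := ⟨q, σ.2.2⟩
    simp only [DetB_w, dif_pos h, DetB_one hF σ.2.1 h.choose_spec σ.2.2]
    refine tsum_congr_subtype (fun F => (C q).wgt aK σ F * E F) fun F => ?_
    have k : F ∈ K.cel 2 → F ⊆ closure σ.1 → (R F ↔ (C q).Rig (kp q) F) := fun a b =>
      h1 q F a (b.trans (closure_minimal σ.2.2 isClosed_closedBall))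
    exact ⟨fun a => ⟨⟨a.1.1, a.2⟩, fun b => a.1.2 ((k a.1.1 a.2).2 b)⟩,
      fun a => ⟨⟨a.1.1, fun b => a.2 ((k a.1.1 a.1.2).1 b)⟩, a.1.2⟩⟩
  · simp only [DetB_w, dif_neg (not_exists.2 σ.2.2)]
    exact tsum_congr_subtype (fun F => ENNReal.ofReal (lam σ) * E F) fun F =>
      ⟨fun a => ⟨a.1.1, a.2⟩, fun a => ⟨⟨a.1, h2 σ σ.2.1 σ.2.2 F a⟩, a.2⟩⟩

theorem sum_edges (hF : GFit C P aK K ch w lam) {Ed : Finset (Rn 3 × Rn 3)}
    (h : ∀ e, e ∈ Ed ↔ ∃ q, e ∈ (C q).Ed (kp q)) (E : Rn 3 × Rn 3 → ℝ≥0∞) :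
    ∑ e ∈ Ed, P.ωe p * E e = ∑ q, (C q).SumE p (kp q) E := by
  have k : ∀ q, ∀ e ∈ (C q).Ed (kp q), e.1 ∈ ball (C q).o (C q).η := fun q e he => by
    obtain ⟨j, -, -, -, z, h1, h2⟩ := he.1
    have p : 0 < (C q).h := by unfold Pr.h; positivity
    exact ball_subset_ball (by linarith)
      ((hF.ok q).O_prop.2.1 (h1 (h2 (left_mem_segment ℝ _ _))))
  rw [← Finset.tsum_subtype' Ed fun e => P.ωe p * E e,
    DetB_part (s := (Ed : Set (Rn 3 × Rn 3))) h (fun q q' e a b => by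
      by_contra hn
      exact disjoint_left.1 (hF.far q q' hn) (k q e a) (ball_subset_closedBall (k q' e b)))
      fun e => P.ωe p * E e]
  exact Finset.sum_congr rfl fun q _ => by rw [Cu.SumE, hF.par q]

theorem out_cells (hF : GFit C P aK K ch w lam) (φ : Rn 3 → ℝ≥0∞) :
    ∫⁻ x in Ω \ ⋃ q, (C q).q, φ x =
      ∑' σ : {σ // σ ∈ K.cel 3 ∧ ∀ q, ¬ σ ⊆ (C q).q}, ∫⁻ x in σ, φ x := by
  rw [K.lint_cells hF.opn sdiff_subset fun x hx y hy => ⟨K.sub x hx.1 (subset_closure hy),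
    fun k => ?_⟩]
  · refine tsum_congr_subtype (fun σ => ∫⁻ x in σ, φ x) fun σ => and_congr_right fun hσ =>
      ⟨fun a q b => ?_, fun a x hx => ⟨Kx.cells_sub hσ.1 hx, fun b => ?_⟩⟩
    · obtain ⟨x, hx⟩ := Kx.cells_ne hσ.1
      exact (a hx).2 (mem_iUnion.2 ⟨q, b hx⟩)
    · obtain ⟨q, hq⟩ := mem_iUnion.1 b
      exact a q (Kx.cell_eq hσ.1 hx ▸ (hF.fit q).cq x hq)
  · obtain ⟨q, hq⟩ := mem_iUnion.1 k
    have k1 := (hF.fit q).cq y hq
    rw [K.eqv x hx.1 y hy] at k1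
    exact hx.2 (mem_iUnion.2 ⟨q, k1 (K.mem x hx.1)⟩)

theorem sum_eps (hF : GFit C P aK K ch w lam) (ε : Set (Rn 3) → ℝ≥0∞) :
    (∑ q, ∑' σ : (C q).S0 K, ε σ) + ∑' σ : {σ // σ ∈ K.cel 3 ∧ ∀ q, ¬ σ ⊆ (C q).q}, ε σ ≤
      ∑' σ : K.cells, ε σ := by
  rw [← DetB_split hF ε]
  exact ENNReal.tsum_mono_subtype ε (s := K.cel 3) fun _ h => h.1

end BEp
end
end

-- merged part: Pool.Agent.Work.MP_f0515e_an.P3.EBox2
section
/-! Sum over the long boxes. Each cell `icl z'` is a corner cell of at most four boxes. A rigid face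
of a long box lies in one of its two corner cells (rank two; none in rank one): `erig2`. The
boxes with `θ' = 1` lie off the ball of radius `η - 16 b h` (`layer`, `lay`); all boxes are disjoint
and lie in the cube. -/

open Set Metric Filter Topology Function BEv MeasureTheory
open scoped NNReal ENNReal

noncomputable section
namespace BEp

theorem EBox2_sub {α : Type} {P Q : α → Prop} {f g : α → ℝ≥0∞}
    (h : ∀ a, P a → Q a ∧ f a ≤ g a) : ∑' a : {a // P a}, f a ≤ ∑' a : {a // Q a}, g a :=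
  (ENNReal.tsum_le_tsum fun a : {a // P a} => (h a a.2).2).trans
    (ENNReal.tsum_mono_subtype g (s := {a | P a}) (t := {a | Q a}) fun a ha => (h a ha).1)

theorem EBox2_card {T : Fin 3 → Finset ℤ} (h : ∀ i, (T i).card ≤ 2) {f : I3 → ℝ≥0∞} {c : ℝ≥0∞}
    (hf : ∀ z ∈ Fintype.piFinset T, f z ≤ c) : ∑ z ∈ Fintype.piFinset T, f z ≤ 8 * c := by
  refine (Finset.sum_le_card_nsmul _ _ _ hf).trans ?_
  have : (Fintype.piFinset T).card ≤ 8 := by
    rw [Fintype.card_piFinset]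
    exact (Finset.prod_le_pow_card _ _ 2 fun i _ => h i).trans (by simp)
  rw [nsmul_eq_mul]
  gcongr
  exact_mod_cast this

theorem EBox2_cnr (I : Finset (Fin 3)) (z : I3) {f : I3 → ℝ≥0∞} {c : ℝ≥0∞}
    (hf : ∀ z' ∈ cnr I z, f z' ≤ c) : ∑ z' ∈ cnr I z, f z' ≤ 8 * c :=
  EBox2_card (fun i => by split_ifs; exacts [by simp, Finset.card_le_two]) hf

theorem EBox2_cst {S : Type} (I : Finset (Fin 3)) (zz : S → I3) (φ : S → ℝ≥0∞) :
    ∑' σ, ∑ _ ∈ cnr I (zz σ), φ σ ≤ 8 * ∑' σ, φ σ := by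
  rw [← ENNReal.tsum_mul_left]
  exact ENNReal.tsum_le_tsum fun σ => EBox2_cnr _ _ fun _ _ => le_rfl

theorem EBox2_cnt {S α : Type} {zz : S → I3} (hz : Injective zz) (I : Finset (Fin 3)) (D : Set α)
    (f : α → ℝ≥0∞) (R : I3 → α → Prop) (c : α → I3)
    (h : ∀ σ, ∀ z' ∈ cnr I (zz σ), ∀ a, R z' a →
      a ∈ D ∧ ∀ i, zz σ i = c a i - 1 ∨ zz σ i = c a i) :
    ∑' σ, ∑ z' ∈ cnr I (zz σ), ∑' a : {a // R z' a}, f a ≤ 64 * ∑' a : D, f a := by
  classical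
  let T : α → Finset I3 := fun a => Fintype.piFinset fun i => {c a i - 1, c a i}
  let g : I3 → α → ℝ≥0∞ := fun z a => if z ∈ T a then D.indicator f a else 0
  have h1 : ∀ σ, ∑ z' ∈ cnr I (zz σ), ∑' a : {a // R z' a}, f a ≤ 8 * ∑' a, g (zz σ) a := by
    intro σ
    refine EBox2_cnr I _ fun z' hz' => ?_
    refine (ENNReal.tsum_le_tsum fun a => ?_).trans
      (ENNReal.tsum_comp_le_tsum_of_injective Subtype.val_injective (g (zz σ)))
    obtain ⟨a1, a2⟩ := h σ z' hz' a a.2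
    have : zz σ ∈ T a := Fintype.mem_piFinset.2 fun i => by simpa using a2 i
    simp only [g, if_pos this, indicator_of_mem a1, le_refl]
  have h2 : ∀ a, ∑' σ, g (zz σ) a ≤ 8 * D.indicator f a := by
    intro a
    refine (ENNReal.tsum_comp_le_tsum_of_injective hz fun z => g z a).trans ?_
    rw [tsum_eq_sum (s := T a) fun z hz => if_neg hz]
    exact EBox2_card (fun i => Finset.card_le_two) fun z hz => (if_pos hz).le
  calc _ ≤ ∑' σ, 8 * ∑' a, g (zz σ) a := ENNReal.tsum_le_tsum h1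
    _ = 8 * ∑' a, ∑' σ, g (zz σ) a := by rw [ENNReal.tsum_mul_left, ENNReal.tsum_comm]
    _ ≤ 8 * ∑' a, 8 * D.indicator f a := by gcongr with a; exact h2 a
    _ = _ := by rw [ENNReal.tsum_mul_left, tsum_subtype D f, ← mul_assoc]; norm_num

theorem EBox2_u {I : Finset (Fin 3)} {z z' : I3} (h : z' ∈ cnr I z) (i : Fin 3) :
    z i = z' i - 1 ∨ z i = z' i := by
  have := Fintype.mem_piFinset.1 h i
  split_ifs at this <;> simp at this <;> omega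

theorem EBox2_fl {C : Cu} {z : I3} {x : Rn 3} (h : x ∈ C.bx z) (i : Fin 3) :
    z i = ⌊C.ξ x i⌋ - 1 ∨ z i = ⌊C.ξ x i⌋ := by
  have h1 := Int.le_floor.2 (h i).1
  have h2 : ⌊C.ξ x i⌋ ≤ z i + 1 := by
    have := (Int.floor_le _).trans (h i).2
    exact_mod_cast this
  omega

open Classical in
/-- The fraction of the volume of a long box which is not collapsed. -/
def EBox2_th (C : Cu) (σ : Set (Rn 3)) : ℝ :=
  if σ ⊆ closedBall C.o (C.η - 13 * C.b * C.h) then C.g else 1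

/-- The right hand side. -/
def EBox2_T (C : Cu) (p aK : ℝ) {Ω : Set (Rn 3)} (K : Kx Ω) (ch : Set (Rn 3) → Ch)
    (kp : Set (I3 × I3)) (G : Rn 3 → Rn 3) : ℝ≥0∞ :=
  C.SumF aK K kp (C.S2 K) (fun F => (ch F).E p G) + C.SumE p kp (edE p G) +
    C.SumC kp (C.ce p G) + C.rem p + ‖C.A‖ₑ ^ p * C.unk kp

section
variable {C : Cu} {aK : ℝ} {Ω : Set (Rn 3)} {K : Kx Ω} {ch : Set (Rn 3) → Ch} {w : Set (Rn 3) → ℝ}
  {p : ℝ} {kp : Set (I3 × I3)} {G : Rn 3 → Rn 3} {zz : C.S2 K → I3}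

theorem EBox2_th_bd (h : C.Ok aK) (σ : Set (Rn 3)) :
    C.g ≤ EBox2_th C σ ∧ EBox2_th C σ ≤ 1 := by
  have := h.g0.2
  unfold EBox2_th
  split_ifs
  exacts [⟨le_rfl, by linarith⟩, ⟨by linarith, le_rfl⟩]

theorem EBox2_le : C.SumF aK K kp (C.S2 K) (fun F => (ch F).E p G) ≤ EBox2_T C p aK K ch kp G ∧
    C.SumE p kp (edE p G) ≤ EBox2_T C p aK K ch kp G ∧
    C.SumC kp (C.ce p G) ≤ EBox2_T C p aK K ch kp G ∧ C.rem p ≤ EBox2_T C p aK K ch kp G ∧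
    ‖C.A‖ₑ ^ p * C.unk kp ≤ EBox2_T C p aK K ch kp G :=
  ⟨le_add_right (le_add_right (le_add_right le_self_add)),
    le_add_right (le_add_right (le_add_right le_add_self)),
    le_add_right (le_add_right le_add_self), le_add_right le_add_self, le_add_self⟩

theorem EBox2_vol (h : C.Ok aK) (hf : C.Fit aK K ch w)
    (hz : ∀ σ, C.bx (zz σ) ⊆ C.O ∧ σ.1 = C.X '' cu (zz σ)) :
    (1 + ‖C.A‖ₑ ^ p) * ∑' σ : C.S2 K, ENNReal.ofReal (EBox2_th C σ * C.b ^ (3 - C.I.card) * C.h ^ 3)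
      ≤ 12 * EBox2_T C p aK K ch kp G := by
  obtain ⟨η0, h0, -, -, -, -, -, -, b8, a24⟩ := h.pos
  have g0 := h.g0.1
  set L := C.q \ ball C.o (C.η - 16 * C.b * C.h) with hL
  have mL : MeasurableSet L := measurableSet_closedBall.diff measurableSet_ball
  have sq : ∀ σ : C.S2 K, σ.1 ⊆ C.bx (zz σ) ∧ C.bx (zz σ) ⊆ C.q := fun σ =>
    ⟨by rw [(hz σ).2, ← (h.bx_prop _).2.1]; exact subset_closure,
      (hz σ).1.trans (h.O_prop.2.1.trans (ball_subset_closedBall.trans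
        (closedBall_subset_closedBall (by linarith))))⟩
  have h1 : ∀ σ : C.S2 K, ENNReal.ofReal (EBox2_th C σ * C.b ^ (3 - C.I.card) * C.h ^ 3) ≤
      ∫⁻ x in σ, (ENNReal.ofReal C.g + L.indicator 1 x) := by
    intro σ
    have e := h.lintX (cu (zz σ)) fun _ => ENNReal.ofReal (EBox2_th C σ)
    rw [setLIntegral_const (cu _), TS1_vol, mul_one, ← ENNReal.ofReal_mul (by positivity),
      mul_comm, ← mul_assoc, ← (hz σ).2] at e
    rw [← e]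
    refine setLIntegral_mono' ?_ fun x hx => ?_
    · rw [(hz σ).2, ← (h.bx_prop _).2.2.1]
      exact isOpen_interior.measurableSet
    · unfold EBox2_th
      split_ifs with hs
      · exact le_self_add
      · obtain ⟨y, hy, hn⟩ := not_subset.1 hs
        have d := (h.bx_prop (zz σ)).2.2.2.2.2.1 y ((sq σ).1 hy) x ((sq σ).1 hx)
        have : x ∈ L := ⟨(sq σ).2 ((sq σ).1 hx), fun hb => hn (by
          rw [mem_ball_iff_norm] at hb
          rw [mem_closedBall_iff_norm]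
          linarith [norm_sub_le_norm_sub_add_norm_sub y x C.o])⟩
        rw [indicator_of_mem this, ENNReal.ofReal_one]
        exact le_add_self
  have h2 : 100 * C.b * C.h ≤ C.g * C.η := by
    refine le_trans (le_mul_of_one_le_left (by positivity) ?_) h.lay
    exact one_le_mul_of_one_le_of_one_le (one_le_pow₀ (by linarith))
      (one_le_pow₀ (by linarith [h.c1.1, h.c1.2]))
  have h3 : ∫⁻ x in C.q, (ENNReal.ofReal C.g + L.indicator 1 x) ≤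
      12 * ENNReal.ofReal (C.g * C.η ^ 3) := by
    rw [lintegral_add_left measurable_const, setLIntegral_const, lintegral_indicator_one mL,
      Measure.restrict_apply mL, Cu.q, Real.volume_pi_closedBall _ η0.le, Fintype.card_fin,
      ← ENNReal.ofReal_mul g0.le, ← ENNReal.ofReal_ofNat, ← ENNReal.ofReal_mul (by norm_num)]
    refine (add_le_add le_rfl ((measure_mono inter_subset_left).trans h.layer)).trans ?_
    rw [← ENNReal.ofReal_add (by positivity) (by positivity)]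
    refine ENNReal.ofReal_le_ofReal ?_
    nlinarith [mul_le_mul_of_nonneg_right h2 (sq_nonneg C.η)]
  calc _ ≤ (1 + ‖C.A‖ₑ ^ p) * (12 * ENNReal.ofReal (C.g * C.η ^ 3)) := by
        gcongr
        exact (ENNReal.tsum_le_tsum h1).trans ((K.sum_vol hf.opn (fun σ hσ => hσ.1)
          (fun σ hσ => (sq ⟨σ, hσ⟩).1.trans (sq ⟨σ, hσ⟩).2) _).trans h3)
    _ = 12 * C.rem p := by rw [Cu.rem]; ring
    _ ≤ _ := by gcongr; exact EBox2_le.2.2.2.1

theorem EBox2_wgt (h : C.Ok aK) (σ : C.S2 K) (F : Set (Rn 3)) :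
    ENNReal.ofReal (EBox2_th C σ * C.b ^ (3 - C.I.card) * C.h) ≤ C.wgt aK σ F ∧
      (F ⊆ C.WI → C.wgt aK σ F = ENNReal.ofReal (C.b ^ (3 - C.I.card) * C.h)) := by
  obtain ⟨-, h0, -, -, -, -, -, -, b8, -⟩ := h.pos
  have b0 : 0 ≤ C.b ^ (3 - C.I.card) * C.h := by positivity
  rw [Cu.wgt, if_neg σ.2.2.1, if_pos σ.2.2.2]
  refine ⟨ENNReal.ofReal_le_ofReal ?_, fun hF => by rw [if_pos (Or.inl hF), mul_one]⟩
  rw [mul_assoc, mul_comm]
  refine mul_le_mul_of_nonneg_left ?_ b0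
  split_ifs with hc
  · exact (EBox2_th_bd h _).2
  · rw [EBox2_th, if_pos (not_not.1 fun g => hc (Or.inr g))]

theorem EBox2_unk (hz : Injective zz) :
    ∑' σ, ∑ z' ∈ cnr C.I (zz σ), ∑' _ : {u // u ∈ C.Adm \ kp ∧ u.1 = z'}, ENNReal.ofReal C.tv ≤
      64 * C.unk kp := by
  rw [Cu.unk, ← ENNReal.tsum_set_const]
  exact EBox2_cnt hz C.I _ (fun _ => ENNReal.ofReal C.tv) (fun z' u => u ∈ C.Adm \ kp ∧ u.1 = z')
    (fun u => u.1) fun σ z' hz' u hu => ⟨hu.1, hu.2 ▸ EBox2_u hz'⟩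

theorem EBox2_one {G' : Rn 3 → Rn 3} {C1 : ℝ≥0∞} (h : C.Ok aK) (hf : C.Fit aK K ch w)
    (hz : ∀ σ, C.bx (zz σ) ⊆ C.O ∧ σ.1 = C.X '' cu (zz σ)) (hi : Injective zz) {j : Fin 3}
    (hj : C.I = {j})
    (H : ∀ z, C.icl z ⊆ C.O → ENNReal.ofReal (C.h ^ (1 - p)) * C.shp p G' z ≤ C1 *
        ((∑' e : {e // e ∈ C.Ed kp ∧ segment ℝ e.1 e.2 ⊆ C.icl z},
            ENNReal.ofReal ((16 * C.s) ^ (1 - p)) * edE p G e) +
          (∑' u : {u // u ∈ kp ∧ u.1 = z}, C.ce p G u j) + ‖C.A‖ₑ ^ p * (ENNReal.ofReal (C.g * C.h) +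
            ({u | u ∈ C.Adm \ kp ∧ u.1 = z}.encard : ℝ≥0∞) * ENNReal.ofReal C.t0))) :
    ∑' σ, ENNReal.ofReal (C.b ^ (3 - C.I.card) * C.h ^ (3 - p)) *
      ∑ z' ∈ cnr C.I (zz σ), C.shp p G' z' ≤ C1 * (288 * EBox2_T C p aK K ch kp G) := by
  obtain ⟨-, h0, s0, t0, -, -, -, -, b8, -⟩ := h.pos
  have g0 := h.g0.1
  have hc : C.I.card = 1 := by rw [hj, Finset.card_singleton]
  have b0 : 0 ≤ (C.b * C.h) ^ 2 := sq_nonneg _
  have e1 : ENNReal.ofReal (C.b ^ (3 - C.I.card) * C.h ^ (3 - p)) =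
      ENNReal.ofReal ((C.b * C.h) ^ 2) * ENNReal.ofReal (C.h ^ (1 - p)) := by
    rw [← ENNReal.ofReal_mul b0, hc, show 3 - p = 2 + (1 - p) by ring, Real.rpow_add h0,
      Real.rpow_two]
    congr 1
    ring
  have e2 : ENNReal.ofReal C.tv = ENNReal.ofReal ((C.b * C.h) ^ 2) * ENNReal.ofReal C.t0 := by
    rw [← ENNReal.ofReal_mul b0, Cu.tv, hc, pow_one, mul_comm]
  have h1 : ∀ σ : C.S2 K, ∀ z' ∈ cnr C.I (zz σ),
      ENNReal.ofReal (C.b ^ (3 - C.I.card) * C.h ^ (3 - p)) * C.shp p G' z' ≤ C1 *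
        ((∑' e : {e // e ∈ C.Ed kp ∧ segment ℝ e.1 e.2 ⊆ C.icl z'}, C.ωe p * edE p G e) +
          (∑' u : {u // u ∈ kp ∧ u.1 = z'}, ENNReal.ofReal ((C.b * C.h) ^ 2) * C.ce p G u j) +
          (1 + ‖C.A‖ₑ ^ p) * ENNReal.ofReal (EBox2_th C σ * C.b ^ (3 - C.I.card) * C.h ^ 3) +
          ‖C.A‖ₑ ^ p * ∑' _ : {u // u ∈ C.Adm \ kp ∧ u.1 = z'}, ENNReal.ofReal C.tv) := by
    intro σ z' hz'
    have e3 : ENNReal.ofReal ((C.b * C.h) ^ 2) * ENNReal.ofReal (C.g * C.h) ≤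
        ENNReal.ofReal (EBox2_th C σ * C.b ^ (3 - C.I.card) * C.h ^ 3) := by
      rw [← ENNReal.ofReal_mul b0, hc]
      refine ENNReal.ofReal_le_ofReal ?_
      calc _ = C.g * C.b ^ (3 - 1) * C.h ^ 3 := by ring
        _ ≤ _ := by gcongr; exact (EBox2_th_bd h _).1
    have e4 := ENNReal.tsum_set_const {u | u ∈ C.Adm \ kp ∧ u.1 = z'} (ENNReal.ofReal C.tv)
    rw [e1, mul_assoc]
    refine (mul_le_mul' le_rfl (H z' (((h.bx_prop _).2.2.2.2.2.2 z' hz').trans (hz σ).1))).trans ?_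
    rw [mul_left_comm]
    refine mul_le_mul' le_rfl ?_
    rw [show (∑' _ : {u // u ∈ C.Adm \ kp ∧ u.1 = z'}, ENNReal.ofReal C.tv) = _ from e4, e2,
      Pr.ωe, ENNReal.ofReal_mul b0]
    simp only [mul_assoc, ENNReal.tsum_mul_left, mul_add, add_assoc]
    refine add_le_add le_rfl (add_le_add le_rfl (add_le_add ?_ (le_of_eq (by ring))))
    rw [mul_left_comm]
    exact mul_le_mul' le_add_self (by simpa only [mul_assoc] using e3)
  have a1 := EBox2_cnt hi C.I (C.Ed kp) (fun e => C.ωe p * edE p G e)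
    (fun z' e => e ∈ C.Ed kp ∧ segment ℝ e.1 e.2 ⊆ C.icl z') (fun e i => ⌊C.ξ e.1 i⌋)
    fun σ z' hz' e he => ⟨he.1, EBox2_fl ((h.bx_prop _).2.2.2.2.2.2 z' hz'
      (he.2 (left_mem_segment ℝ _ _)))⟩
  have a2 := EBox2_cnt hi C.I kp (fun u => ENNReal.ofReal ((C.b * C.h) ^ 2) * C.ce p G u j)
    (fun z' u => u ∈ kp ∧ u.1 = z') (fun u => u.1)
    fun σ z' hz' u hu => ⟨hu.1, hu.2 ▸ EBox2_u hz'⟩
  have a2' : ∑' u : kp, ENNReal.ofReal ((C.b * C.h) ^ 2) * C.ce p G u j ≤ C.SumC kp (C.ce p G) :=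
    ENNReal.tsum_le_tsum fun u => Finset.single_le_sum
      (f := fun j => ENNReal.ofReal ((C.b * C.h) ^ 2) * C.ce p G u j) (fun _ _ => zero_le)
      (Finset.mem_filter.2 ⟨Finset.mem_univ _, hj⟩)
  have a3 : ∑' σ : C.S2 K, ∑ _ ∈ cnr C.I (zz σ), (1 + ‖C.A‖ₑ ^ p) *
      ENNReal.ofReal (EBox2_th C σ * C.b ^ (3 - C.I.card) * C.h ^ 3) ≤
      8 * (12 * EBox2_T C p aK K ch kp G) := by
    refine (EBox2_cst _ _ _).trans ?_
    rw [ENNReal.tsum_mul_left]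
    exact mul_le_mul' le_rfl (EBox2_vol h hf hz)
  have a4 := EBox2_unk (kp := kp) hi
  obtain ⟨-, l2, l3, -, l5⟩ := EBox2_le (C := C) (aK := aK) (K := K) (ch := ch) (p := p)
    (kp := kp) (G := G)
  simp only [Finset.mul_sum]
  refine (ENNReal.tsum_le_tsum fun σ => Finset.sum_le_sum (h1 σ)).trans ?_
  simp only [← Finset.mul_sum (a := C1), ENNReal.tsum_mul_left (a := C1), Finset.sum_add_distrib,
    ENNReal.tsum_add, ← Finset.mul_sum (a := ‖C.A‖ₑ ^ p), ENNReal.tsum_mul_left (a := ‖C.A‖ₑ ^ p)]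
  refine mul_le_mul' le_rfl ?_
  calc _ ≤ 64 * EBox2_T C p aK K ch kp G + 64 * EBox2_T C p aK K ch kp G +
        8 * (12 * EBox2_T C p aK K ch kp G) + 64 * EBox2_T C p aK K ch kp G :=
        add_le_add (add_le_add (add_le_add (a1.trans (mul_le_mul' le_rfl l2))
          (a2.trans (mul_le_mul' le_rfl (a2'.trans l3)))) a3)
          ((mul_le_mul' le_rfl a4).trans (by rw [mul_left_comm]; exact mul_le_mul' le_rfl l5))
    _ = _ := by ring

theorem EBox2_two {G' : Rn 3 → Rn 3} {C1 : ℝ≥0∞} (h : C.Ok aK) (hf : C.Fit aK K ch w)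
    (hz : ∀ σ, C.bx (zz σ) ⊆ C.O ∧ σ.1 = C.X '' cu (zz σ)) (hi : Injective zz)
    (hc : C.I.card = 2)
    (H : ∀ z, C.icl z ⊆ C.O → ENNReal.ofReal (C.h ^ (2 - p)) * C.shp p G' z ≤ C1 *
        ((∑' F : {F // F ∈ K.cel 2 ∧ F ⊆ C.icl z ∧ ¬ C.Rig kp F}, (ch F).E p G) +
          (1 + ‖C.A‖ₑ ^ p) * ENNReal.ofReal (C.g * C.h ^ 2) + ‖C.A‖ₑ ^ p *
            ({u | u ∈ C.Adm \ kp ∧ u.1 = z}.encard : ℝ≥0∞) * ENNReal.ofReal (C.t0 ^ 2))) :
    ∑' σ, ENNReal.ofReal (C.b ^ (3 - C.I.card) * C.h ^ (3 - p)) *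
      ∑ z' ∈ cnr C.I (zz σ), C.shp p G' z' ≤ C1 * (288 * EBox2_T C p aK K ch kp G) := by
  obtain ⟨-, h0, s0, t0, -, -, -, -, b8, -⟩ := h.pos
  have g0 := h.g0.1
  have b0 : 0 ≤ C.b ^ (3 - C.I.card) * C.h := by positivity
  have e1 : ENNReal.ofReal (C.b ^ (3 - C.I.card) * C.h ^ (3 - p)) =
      ENNReal.ofReal (C.b ^ (3 - C.I.card) * C.h) * ENNReal.ofReal (C.h ^ (2 - p)) := by
    rw [← ENNReal.ofReal_mul b0, show 3 - p = 1 + (2 - p) by ring, Real.rpow_add h0,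
      Real.rpow_one, mul_assoc]
  have e2 : ENNReal.ofReal C.tv =
      ENNReal.ofReal (C.b ^ (3 - C.I.card) * C.h) * ENNReal.ofReal (C.t0 ^ 2) := by
    rw [← ENNReal.ofReal_mul b0, Cu.tv, hc]
    congr 1
    ring
  have h1 : ∀ σ : C.S2 K, ∀ z' ∈ cnr C.I (zz σ),
      ENNReal.ofReal (C.b ^ (3 - C.I.card) * C.h ^ (3 - p)) * C.shp p G' z' ≤ C1 *
        ((∑' F : {F // F ∈ K.fc σ ∧ ¬ C.Rig kp F}, C.wgt aK σ F * (ch F).E p G) +
          (1 + ‖C.A‖ₑ ^ p) * ENNReal.ofReal (EBox2_th C σ * C.b ^ (3 - C.I.card) * C.h ^ 3) +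
          ‖C.A‖ₑ ^ p * ∑' _ : {u // u ∈ C.Adm \ kp ∧ u.1 = z'}, ENNReal.ofReal C.tv) := by
    intro σ z' hz'
    have s1 := (h.bx_prop _).2.2.2.2.2.2 z' hz'
    have e3 : ENNReal.ofReal (C.b ^ (3 - C.I.card) * C.h) * ENNReal.ofReal (C.g * C.h ^ 2) ≤
        ENNReal.ofReal (EBox2_th C σ * C.b ^ (3 - C.I.card) * C.h ^ 3) := by
      rw [← ENNReal.ofReal_mul b0]
      refine ENNReal.ofReal_le_ofReal ?_
      calc _ = C.g * C.b ^ (3 - C.I.card) * C.h ^ 3 := by ring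
        _ ≤ _ := by gcongr; exact (EBox2_th_bd h _).1
    have e4 := ENNReal.tsum_set_const {u | u ∈ C.Adm \ kp ∧ u.1 = z'} (ENNReal.ofReal C.tv)
    rw [e1, mul_assoc]
    refine (mul_le_mul' le_rfl (H z' (s1.trans (hz σ).1))).trans ?_
    rw [mul_left_comm]
    refine mul_le_mul' le_rfl ?_
    rw [show (∑' _ : {u // u ∈ C.Adm \ kp ∧ u.1 = z'}, ENNReal.ofReal C.tv) = _ from e4, e2,
      mul_add, mul_add, ← ENNReal.tsum_mul_left]
    refine add_le_add (add_le_add (EBox2_sub (f := fun F => _ * (ch F).E p G)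
      (g := fun F => C.wgt aK σ F * (ch F).E p G) fun F hF => ⟨⟨⟨hF.1, ?_⟩, hF.2.2⟩, ?_⟩) ?_)
      (le_of_eq (by ring))
    · rw [(hz σ).2, (h.bx_prop _).2.1]
      exact hF.2.1.trans s1
    · rw [(EBox2_wgt h σ F).2 fun x hx => ⟨z', s1.trans (hz σ).1, hF.2.1 hx⟩]
    · rw [mul_left_comm]
      exact mul_le_mul' le_rfl e3
  obtain ⟨l1, -, -, -, l5⟩ := EBox2_le (C := C) (aK := aK) (K := K) (ch := ch) (p := p)
    (kp := kp) (G := G)
  have a1 : ∑' σ : C.S2 K, ∑ _ ∈ cnr C.I (zz σ),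
      ∑' F : {F // F ∈ K.fc σ ∧ ¬ C.Rig kp F}, C.wgt aK σ F * (ch F).E p G ≤
      8 * EBox2_T C p aK K ch kp G := (EBox2_cst _ _ _).trans (mul_le_mul' le_rfl l1)
  have a3 : ∑' σ : C.S2 K, ∑ _ ∈ cnr C.I (zz σ), (1 + ‖C.A‖ₑ ^ p) *
      ENNReal.ofReal (EBox2_th C σ * C.b ^ (3 - C.I.card) * C.h ^ 3) ≤
      8 * (12 * EBox2_T C p aK K ch kp G) := by
    refine (EBox2_cst _ _ _).trans ?_
    rw [ENNReal.tsum_mul_left]
    exact mul_le_mul' le_rfl (EBox2_vol h hf hz)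
  have a4 := EBox2_unk (kp := kp) hi
  simp only [Finset.mul_sum]
  refine (ENNReal.tsum_le_tsum fun σ => Finset.sum_le_sum (h1 σ)).trans ?_
  simp only [← Finset.mul_sum (a := C1), ENNReal.tsum_mul_left (a := C1), Finset.sum_add_distrib,
    ENNReal.tsum_add, ← Finset.mul_sum (a := ‖C.A‖ₑ ^ p), ENNReal.tsum_mul_left (a := ‖C.A‖ₑ ^ p)]
  refine mul_le_mul' le_rfl ?_
  calc _ ≤ 8 * EBox2_T C p aK K ch kp G +
        8 * (12 * EBox2_T C p aK K ch kp G) + 64 * EBox2_T C p aK K ch kp G :=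
        add_le_add (add_le_add a1 a3)
          ((mul_le_mul' le_rfl a4).trans (by rw [mul_left_comm]; exact mul_le_mul' le_rfl l5))
    _ = 168 * EBox2_T C p aK K ch kp G := by ring
    _ ≤ _ := by gcongr; norm_num

theorem EBox2_fc {C3 : ℝ≥0∞} (h : C.Ok aK) (hf : C.Fit aK K ch w) (hk : kp ⊆ C.Adm)
    (hz : ∀ σ, C.bx (zz σ) ⊆ C.O ∧ σ.1 = C.X '' cu (zz σ))
    (H : ∀ z, C.icl z ⊆ C.O → ∑' F : {F // F ∈ K.cel 2 ∧ F ⊆ C.icl z ∧ C.Rig kp F}, (ch F).E p G ≤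
        C3 * ((1 + ‖C.A‖ₑ ^ p) * ENNReal.ofReal (C.h ^ 2))) :
    ∑' σ : C.S2 K, ENNReal.ofReal (EBox2_th C σ * C.b ^ (3 - C.I.card)) *
      (ENNReal.ofReal C.h * ∑' F : K.fc σ, (ch F).E p G) ≤
      (1 + 96 * C3) * EBox2_T C p aK K ch kp G := by
  obtain ⟨η0, h0, s0, t0, -, r0, k0, -, b8, -⟩ := h.pos
  have h1 : ∀ σ : C.S2 K, ∑' F : K.fc σ, (ch F).E p G ≤
      (∑' F : {F // F ∈ K.fc σ ∧ ¬ C.Rig kp F}, (ch F).E p G) +
        8 * (C3 * ((1 + ‖C.A‖ₑ ^ p) * ENNReal.ofReal (C.h ^ 2))) := by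
    intro σ
    have s : K.fc σ ⊆ {F | F ∈ K.fc σ ∧ ¬ C.Rig kp F} ∪ ⋃ z' ∈ cnr C.I (zz σ),
        {F | F ∈ K.cel 2 ∧ F ⊆ C.icl z' ∧ C.Rig kp F} := by
      intro F hF
      by_cases hr : C.Rig kp F
      swap
      · exact Or.inl ⟨hF, hr⟩
      obtain ⟨u, hu, hQ⟩ := hr.2
      have q0 : C.ρx ≤ C.t0 / 2 + 3 * C.ρ' := by linarith [h.num.2.1, mul_pos k0 s0]
      have q1 : F ⊆ C.icl u.1 := fun x hx =>
        (h.Q_sub (hk hu)).1 ⟨(hQ hx).1, fun i hi => ((hQ hx).2 i hi).trans q0⟩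
      have q2 : F ⊆ C.bx (zz σ) := by
        rw [← (h.bx_prop _).2.1, ← (hz σ).2]
        exact hF.2
      refine Or.inr (mem_iUnion₂.2 ⟨fun i => if i ∈ C.I then zz σ i else u.1 i,
        Fintype.mem_piFinset.2 fun i => ?_, hF.1, fun x hx => ⟨fun i => ?_, fun i hi => ?_⟩, hr⟩)
      · obtain ⟨x, hx, e⟩ := hF.1.1
        have hx' : x ∈ F := e ▸ K.mem x hx
        split_ifs with hi
        · simp
        · have := EBox2_fl (q2 hx') i
          rw [(q1 hx').2 i hi, Int.floor_intCast] at this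
          simp only [Finset.mem_insert, Finset.mem_singleton]
          omega
      · dsimp only
        split_ifs with hi
        exacts [q2 hx i, (q1 hx).1 i]
      · dsimp only
        rw [if_neg hi, (q1 hx).2 i hi]
    refine (ENNReal.tsum_mono_subtype (fun F => (ch F).E p G) s).trans
      ((ENNReal.tsum_union_le (fun F => (ch F).E p G) _ _).trans (add_le_add le_rfl
        ((ENNReal.tsum_biUnion_le (fun F => (ch F).E p G) _ _).trans ?_)))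
    exact EBox2_cnr _ _ fun z' hz' => H z' (((h.bx_prop _).2.2.2.2.2.2 z' hz').trans (hz σ).1)
  have h2 : ∀ σ : C.S2 K, ENNReal.ofReal (EBox2_th C σ * C.b ^ (3 - C.I.card)) *
      (ENNReal.ofReal C.h * ∑' F : K.fc σ, (ch F).E p G) ≤
      (∑' F : {F // F ∈ K.fc σ ∧ ¬ C.Rig kp F}, C.wgt aK σ F * (ch F).E p G) + 8 * C3 *
        ((1 + ‖C.A‖ₑ ^ p) * ENNReal.ofReal (EBox2_th C σ * C.b ^ (3 - C.I.card) * C.h ^ 3)) := by
    intro σ
    have t1 : 0 ≤ EBox2_th C σ * C.b ^ (3 - C.I.card) :=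
      mul_nonneg (h.g0.1.le.trans (EBox2_th_bd h _).1) (by positivity)
    rw [← mul_assoc, ← ENNReal.ofReal_mul t1]
    refine (mul_le_mul' le_rfl (h1 σ)).trans ?_
    rw [mul_add, ← ENNReal.tsum_mul_left]
    refine add_le_add (ENNReal.tsum_le_tsum fun F => mul_le_mul' (EBox2_wgt h σ F).1 le_rfl)
      (le_of_eq ?_)
    rw [show EBox2_th C σ * C.b ^ (3 - C.I.card) * C.h ^ 3 =
      EBox2_th C σ * C.b ^ (3 - C.I.card) * C.h * C.h ^ 2 by ring,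
      ENNReal.ofReal_mul (mul_nonneg t1 h0.le)]
    ring
  refine (ENNReal.tsum_le_tsum h2).trans ?_
  rw [ENNReal.tsum_add, ENNReal.tsum_mul_left, ENNReal.tsum_mul_left]
  refine (add_le_add EBox2_le.1 (mul_le_mul' le_rfl (EBox2_vol (kp := kp) (G := G) h hf hz))).trans_eq ?_
  ring

end

theorem ebox {p : ℝ} (hp1 : 1 ≤ p) (hp : p < 3) {Cc : ℝ≥0∞} (hc : Cc ≠ ⊤) : ∃ C0 : ℝ≥0∞, C0 ≠ ⊤ ∧
    ∀ (C : Cu) (aK : ℝ) (Ω : Set (Rn 3)) (K : Kx Ω) (ch : Set (Rn 3) → Ch) (w : Set (Rn 3) → ℝ)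
      (kp : Set (I3 × I3)) (G G' : Rn 3 → Rn 3) (ε : Set (Rn 3) → ℝ≥0∞), C.Ok aK →
      C.Fit aK K ch w → C.EIn p Cc aK K ch kp G G' ε → C.I.card < 3 →
      ∑' σ : C.S2 K, ∫⁻ x in σ, ‖fderiv ℝ (G' ∘ C.St) x - C.A‖ₑ ^ p ≤ C0 *
        (C.SumF aK K kp (C.S2 K) (fun F => (ch F).E p G) + C.SumE p kp (edE p G) +
          C.SumC kp (C.ce p G) + ENNReal.ofReal (C.b ^ 3) * (∑' σ : C.S2 K, ε σ) + C.rem p +
          ‖C.A‖ₑ ^ p * C.unk kp) := by
  obtain ⟨C0, c0, H0⟩ := ebox1 hp1 hp hc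
  obtain ⟨C1, c1, H1⟩ := esh1 hp1 hp hc
  obtain ⟨C2, c2, H2⟩ := esh2 hp1 hp hc
  obtain ⟨C3, c3, H3⟩ := erig2 hp1 hp hc
  refine ⟨C0 * (288 * (C1 + C2) + (1 + 96 * C3) + 12 + 1), by finiteness, ?_⟩
  intro C aK Ω K ch w kp G G' ε h hf hE hI
  obtain ⟨η0, h0, -, -, -, -, -, -, b8, -⟩ := h.pos
  have hz : ∀ σ : C.S2 K, ∃ z, C.bx z ⊆ C.O ∧ σ.1 = C.X '' cu z := fun σ => by
    obtain ⟨z, h1, h2⟩ := σ.2.2.2
    exact ⟨z, h1, (hf.bx_cel h h1).2.2 σ σ.2 h2⟩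
  choose zz hz using hz
  have hi : Injective zz := fun σ σ' e => Subtype.ext (by rw [(hz σ).2, (hz σ').2, e])
  set T := EBox2_T C p aK K ch kp G with hT
  have t1 : ∑' σ, ENNReal.ofReal (C.b ^ (3 - C.I.card) * C.h ^ (3 - p)) *
      ∑ z' ∈ cnr C.I (zz σ), C.shp p G' z' ≤ (C1 + C2) * (288 * T) := by
    by_cases h2 : C.I.card = 2
    · exact (EBox2_two h hf hz hi h2 (H2 C aK Ω K ch w kp G G' ε h hf hE h2)).trans
        (mul_le_mul' le_add_self le_rfl)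
    · obtain ⟨j, hj⟩ := Finset.card_eq_one.1 (show C.I.card = 1 by have := h.ne.card_pos; omega)
      exact (EBox2_one h hf hz hi hj fun z => H1 C aK Ω K ch w kp G G' ε h hf hE j z hj).trans
        (mul_le_mul' le_self_add le_rfl)
  have t2 := EBox2_fc (p := p) (G := G) (C3 := C3) h hf hE.adm hz fun z hz => by
    by_cases h2 : C.I.card = 2
    · exact H3 C aK Ω K ch w kp G G' ε h hf hE h2 z hz
    · have : IsEmpty {F // F ∈ K.cel 2 ∧ F ⊆ C.icl z ∧ C.Rig kp F} :=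
        ⟨fun F => by have := F.2.2.2.1; omega⟩
      rw [tsum_empty]
      exact zero_le
  have t3 : ∑' σ : C.S2 K, ENNReal.ofReal (EBox2_th C σ * C.b ^ (3 - C.I.card)) * ε σ ≤
      ENNReal.ofReal (C.b ^ 3) * ∑' σ : C.S2 K, ε σ := by
    rw [← ENNReal.tsum_mul_left]
    refine ENNReal.tsum_le_tsum fun σ => mul_le_mul' (ENNReal.ofReal_le_ofReal ?_) le_rfl
    exact (mul_le_of_le_one_left (by positivity) (EBox2_th_bd h _).2).trans
      (pow_le_pow_right₀ (by linarith) (Nat.sub_le _ _))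
  have t4 : ∑' σ : C.S2 K, ENNReal.ofReal (EBox2_th C σ * C.b ^ (3 - C.I.card)) *
      (‖C.A‖ₑ ^ p * ENNReal.ofReal (C.h ^ 3)) ≤ 12 * T := by
    refine le_trans ?_ (EBox2_vol h hf hz)
    rw [← ENNReal.tsum_mul_left]
    refine ENNReal.tsum_le_tsum fun σ => ?_
    rw [mul_left_comm, ← ENNReal.ofReal_mul
      (mul_nonneg (h.g0.1.le.trans (EBox2_th_bd h _).1) (by positivity))]
    exact mul_le_mul' le_add_self le_rfl
  have t0 : ∀ σ : C.S2 K, ∫⁻ x in σ, ‖fderiv ℝ (G' ∘ C.St) x - C.A‖ₑ ^ p ≤ C0 *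
      (ENNReal.ofReal (C.b ^ (3 - C.I.card) * C.h ^ (3 - p)) *
        (∑ z' ∈ cnr C.I (zz σ), C.shp p G' z') +
        ENNReal.ofReal (EBox2_th C σ * C.b ^ (3 - C.I.card)) *
          (ENNReal.ofReal C.h * (∑' F : K.fc σ, (ch F).E p G) + ε σ +
            ‖C.A‖ₑ ^ p * ENNReal.ofReal (C.h ^ 3))) := by
    intro σ
    have := H0 C aK Ω K ch w kp G G' ε h hf hE hI (zz σ) (EBox2_th C σ) (hz σ).1 (by
      unfold EBox2_th
      split_ifs with hs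
      exacts [Or.inr ⟨rfl, (hz σ).2 ▸ hs⟩, Or.inl rfl])
    rwa [← (hz σ).2] at this
  refine (ENNReal.tsum_le_tsum t0).trans ?_
  rw [ENNReal.tsum_mul_left, mul_assoc]
  refine mul_le_mul' le_rfl ?_
  simp only [mul_add (ENNReal.ofReal (EBox2_th C _ * _)), ENNReal.tsum_add]
  refine (add_le_add t1 (add_le_add (add_le_add t2 t3) t4)).trans ?_
  set U := ENNReal.ofReal (C.b ^ 3) * ∑' σ : C.S2 K, ε σ
  calc _ = (288 * (C1 + C2) + (1 + 96 * C3) + 12) * T + 1 * U := by ring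
    _ ≤ (288 * (C1 + C2) + (1 + 96 * C3) + 12 + 1) * T +
        (288 * (C1 + C2) + (1 + 96 * C3) + 12 + 1) * U :=
        add_le_add (mul_le_mul' le_self_add le_rfl) (mul_le_mul' le_add_self le_rfl)
    _ = _ := by rw [hT, EBox2_T]; ring


end BEp
end
end

-- merged part: Pool.Agent.Work.MP_f0515e_an.P3.LocE
section
/-! Energy in one cube: `lint_cells`, `Fit.split`; the stretch is the identity on the open cells of
`S3` (`S3_sub`) and everywhere in rank three; `S1` is empty in rank less than three and `S2` in rank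
three. -/

open Set Metric Filter Topology Function BEv MeasureTheory
open scoped NNReal ENNReal

noncomputable section
namespace BEp

theorem loc_e {p : ℝ} (hp1 : 1 ≤ p) (hp : p < 3) {Cc : ℝ≥0∞} (hc : Cc ≠ ⊤) : ∃ C0 : ℝ≥0∞, C0 ≠ ⊤ ∧
    ∀ (C : Cu) (aK : ℝ) (Ω : Set (Rn 3)) (K : Kx Ω) (ch : Set (Rn 3) → Ch) (w : Set (Rn 3) → ℝ)
      (kp : Set (I3 × I3)) (G G' : Rn 3 → Rn 3) (ε : Set (Rn 3) → ℝ≥0∞), C.Ok aK →
      C.Fit aK K ch w → C.EIn p Cc aK K ch kp G G' ε →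
      ∫⁻ x in C.q, ‖fderiv ℝ (G' ∘ C.St) x - C.A‖ₑ ^ p ≤ C0 * (C.ET p aK K ch kp G +
        ENNReal.ofReal (C.b ^ 3) * (∑' σ : C.S0 K, ε σ) + C.rem p + ‖C.A‖ₑ ^ p * C.unk kp) := by
  obtain ⟨C1, h1, H1⟩ := efin hp1 hp hc
  obtain ⟨C2, h2, H2⟩ := ebox hp1 hp hc
  obtain ⟨C3, h3, H3⟩ := egen hp1 hp hc
  refine ⟨C1 + C2 + C3, by finiteness, fun C aK Ω K ch w kp G G' ε h hf he => ?_⟩
  have hb : 1 ≤ ENNReal.ofReal (C.b ^ 3) :=
    ENNReal.one_le_ofReal.2 (one_le_pow₀ (h.pos.2.2.2.2.2.2.2.2.1.trans' (by norm_num)))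
  have hF : C.SumF aK K kp (C.S0 K) (fun F => (ch F).E p G) =
      C.SumF aK K kp (C.S1 K) (fun F => (ch F).E p G) +
        C.SumF aK K kp (C.S2 K) (fun F => (ch F).E p G) +
          C.SumF aK K kp (C.S3 K) (fun F => (ch F).E p G) :=
    hf.split h fun σ => ∑' F : {F // F ∈ K.fc σ ∧ ¬ C.Rig kp F}, C.wgt aK σ F * (ch F).E p G
  have hop : ∀ σ ∈ K.cel 3, IsOpen σ := fun σ hσ => (Kx.dm_three hσ.1).1 hσ.2
  have hI : C.I.card ≤ 3 := by simpa using Finset.card_le_univ C.I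
  obtain ⟨-, -, -, -, w5, w6⟩ := h.WI_prop
  obtain ⟨s1, -, -, s4⟩ := h.St_prop
  have e0 : ∫⁻ x in C.q, ‖fderiv ℝ (G' ∘ C.St) x - C.A‖ₑ ^ p =
      ∑' σ : C.S0 K, ∫⁻ x in σ, ‖fderiv ℝ (G' ∘ C.St) x - C.A‖ₑ ^ p :=
    K.lint_cells hf.opn hf.sub hf.cq _
  rw [e0, hf.split h fun σ => ∫⁻ x in σ, ‖fderiv ℝ (G' ∘ C.St) x - C.A‖ₑ ^ p, add_mul, add_mul,
    Cu.ET, hF, hf.split h ε]
  have hb' : ∀ a : ℝ≥0∞, a ≤ ENNReal.ofReal (C.b ^ 3) * a := fun a => le_mul_of_one_le_left' hb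
  refine add_le_add (add_le_add ?_ ?_) ?_
  · rcases hI.lt_or_eq with hc3 | hc3
    · refine le_of_eq_of_le (ENNReal.tsum_eq_zero.2 fun σ => ?_) bot_le
      rw [w5 hc3 σ (hop _ σ.2.1) σ.2.2, Measure.restrict_empty, lintegral_zero_measure]
    · rw [s4 hc3, comp_id]
      refine (H1 C aK Ω K ch w kp G G' ε h hf he hc3).trans (mul_le_mul_right ?_ _)
      refine add_le_add (add_le_add (add_le_add ?_ ((hb' _).trans (mul_le_mul_right ?_ _))) le_rfl)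
        le_rfl
      · exact (((le_self_add.trans le_self_add).trans le_self_add).trans le_self_add)
      · exact le_self_add.trans le_self_add
  · rcases hI.lt_or_eq with hc3 | hc3
    · refine (H2 C aK Ω K ch w kp G G' ε h hf he hc3).trans (mul_le_mul_right ?_ _)
      refine add_le_add (add_le_add (add_le_add (add_le_add (add_le_add ?_ le_rfl) le_rfl)
        (mul_le_mul_right ?_ _)) le_rfl) le_rfl
      · exact le_add_self.trans le_self_add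
      · exact le_add_self.trans le_self_add
    · refine le_of_eq_of_le (ENNReal.tsum_eq_zero.2 fun σ => ?_) bot_le
      obtain ⟨σ, -, a2, z, a3, a4⟩ := σ
      rw [← w6 hc3 z] at a3 a4
      exact (a2 fun x hx => ⟨z, a3, a4 hx⟩).elim
  · have e3 : ∑' σ : C.S3 K, ∫⁻ x in σ, ‖fderiv ℝ (G' ∘ C.St) x - C.A‖ₑ ^ p =
        ∑' σ : C.S3 K, ∫⁻ x in σ, ‖fderiv ℝ G' x - C.A‖ₑ ^ p := by
      refine tsum_congr fun σ => setLIntegral_congr_fun (hop _ σ.2.1).measurableSet fun x hx => ?_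
      have e : G' ∘ C.St =ᶠ[𝓝 x] G' := by
        filter_upwards [(hop _ σ.2.1).mem_nhds hx] with y hy
        rw [comp_apply, s1.off y (disjoint_left.1 (hf.S3_sub h σ.2) hy)]
      simp only [e.fderiv_eq]
    rw [e3]
    refine (H3 C aK Ω K ch w kp G G' ε h hf he).trans (mul_le_mul_right ?_ _)
    refine (add_le_add (add_le_add ?_ ((hb' _).trans (mul_le_mul_right ?_ _))) le_rfl).trans
      le_self_add
    · exact (le_add_self.trans le_self_add).trans le_self_add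
    · exact le_add_self

end BEp
end
end

-- merged part: Pool.Agent.Work.MP_f0515e_an.P3.Det
section
/-! The deterministic part: `prep_out`, `exists_skd`, the theorem on the skeleton with a small error
(the chords have finite total weight), `cavg` on all three cells which are not in a kept solid
(data `cN, ca, cl` in the cubes, `idE, 1, lam` outside), `loc_e` in each cube, `sum_faces`,
`sum_edges`, `hull_ball` for the uniform bound. -/

open Set Metric Filter Topology Function BEv MeasureTheory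
open scoped NNReal ENNReal

noncomputable section
namespace BEp

section
variable {ι : Type} {C : ι → Cu} {P : Pr} {aK : ℝ} {Ω : Set (Rn 3)} {K : Kx Ω}
  {ch : Set (Rn 3) → Ch} {w lam : Set (Rn 3) → ℝ} {kp : ι → Set (I3 × I3)} {p C1 : ℝ}
  {Cf Cg : (Rn 3 ≃L[ℝ] Rn 3) → ℝ} {f G G' : Rn 3 → Rn 3} {D : Rn 3 → Rn 3 →L[ℝ] Rn 3}
  {θ : Rn 3 → ℝ} {y : Pcs kp → Rn 3} {d : SD (Pcs kp)} {e : ℝ≥0∞}

theorem Det_uniq (hF : GFit C P aK K ch w lam) {σ : Set (Rn 3)} (hσ : σ ∈ K.cel 3) {q q' : ι}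
    (h : σ ⊆ (C q).q) (h' : σ ⊆ (C q').q) : q = q' := by
  by_contra hn
  obtain ⟨x, hx⟩ := Kx.cells_ne hσ.1
  have h1 := interior_maximal h ((Kx.dm_three hσ.1).1 hσ.2) hx
  rw [Cu.q, interior_closedBall _ (hF.ok q).pos.1.ne'] at h1
  exact Set.disjoint_left.1 (hF.far q q' hn) h1 (h' hx)

theorem Det_rho {C : Cu} (h : C.Ok aK) : C.ρx ≤ C.t0 / 2 := by
  have h1 := h.num.2.1
  have h2 := mul_pos h.pos.2.2.2.2.2.2.1 h.pos.2.2.1
  linarith

theorem Det_Qb {C : Cu} (h : C.Ok aK) {u : I3 × I3} (hu : u ∈ C.Adm) :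
    C.Q u C.ρx ⊆ ball C.o C.η :=
  (h.GGeo_QW hu (Det_rho h)).trans (h.WI_prop.2.1.trans (h.O_prop.2.1.trans
    (ball_subset_ball (by linarith [h.pos.2.1]))))

theorem Det_Qq {C : Cu} (h : C.Ok aK) {u : I3 × I3} (hu : u ∈ C.Adm) : C.Q u C.ρx ⊆ C.q :=
  (Det_Qb h hu).trans ball_subset_closedBall

theorem Det_cel {C : Cu} (hf : C.Fit aK K ch w) (h : C.Ok aK) {u : I3 × I3} (hu : u ∈ C.Adm)
    {x : Rn 3} (hx : x ∈ C.Q u C.ρx) : K.cell x ⊆ C.Q u C.ρx := by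
  obtain ⟨k, hk⟩ := h.mult.2.2.2.1
  obtain ⟨m, hm⟩ := h.mult.2.2.2.2.2.1
  refine hf.cel h hu ⟨m * k, ?_⟩ (Det_rho h) hx
  rw [hm, hk]
  push_cast
  ring

theorem Det_dat (hF : GFit C P aK K ch w lam) :
    ∃ (N : Set (Rn 3) → Rn 3 ≃L[ℝ] Rn 3) (a l : Set (Rn 3) → ℝ),
      (∀ q, ∀ σ ∈ K.cel 3, σ ⊆ (C q).q →
        N σ = (C q).cN σ ∧ a σ = (C q).ca aK σ ∧ l σ = (C q).cl σ) ∧
      (∀ σ, (∀ q, ¬ σ ⊆ (C q).q) → N σ = idE ∧ a σ = 1 ∧ l σ = lam σ) ∧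
      ∀ σ ∈ K.cel 3, 1 ≤ a σ ∧ 0 < l σ ∧ Cbe (N σ ⁻¹' σ) (a σ) (l σ) ∧
        ∀ F ∈ K.fc σ, (ch F).Of F ∧ (ch F).Bi (N σ) (a σ) := by
  have h0 : ∀ σ : Set (Rn 3), ∃ t : (Rn 3 ≃L[ℝ] Rn 3) × ℝ × ℝ,
      (∀ q, σ ∈ K.cel 3 → σ ⊆ (C q).q → t = ((C q).cN σ, (C q).ca aK σ, (C q).cl σ)) ∧
      ((∀ q, ¬ σ ⊆ (C q).q) → t = (idE, 1, lam σ)) := by
    intro σ
    by_cases h : ∃ q, σ ⊆ (C q).q
    · obtain ⟨q, hq⟩ := h
      exact ⟨((C q).cN σ, (C q).ca aK σ, (C q).cl σ),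
        fun q' hσ hq' => by rw [Det_uniq hF hσ hq hq'], fun k => (k q hq).elim⟩
    · exact ⟨(idE, 1, lam σ), fun q _ hq => (h ⟨q, hq⟩).elim, fun _ => rfl⟩
  choose t h1 h2 using h0
  refine ⟨fun σ => (t σ).1, fun σ => (t σ).2.1, fun σ => (t σ).2.2, fun q σ hσ hq => ?_,
    fun σ h => ?_, fun σ hσ => ?_⟩
  · simp only [h1 σ q hσ hq, and_self]
  · simp only [h2 σ h, and_self]
  · by_cases h : ∃ q, σ ⊆ (C q).q
    · obtain ⟨q, hq⟩ := h
      obtain ⟨a1, a2, a3, a4⟩ := (hF.fit q).cav (hF.ok q) ⟨hσ, hq⟩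
      simp only [h1 σ q hσ hq]
      exact ⟨a1, a2, a3, fun F k => (a4 F k).2⟩
    · have h' : ∀ q, ¬ σ ⊆ (C q).q := fun q hq => h ⟨q, hq⟩
      obtain ⟨a1, a2, a3⟩ := hF.out σ hσ h'
      simp only [h2 σ h']
      exact ⟨le_rfl, a1, a2, fun F k => ⟨(hF.face F k.1).1, a3 F k⟩⟩

theorem Det_sup {Ξ : Rn 3 → Rn 3} (hΩ : IsOpen Ω) (hs : Scl (f '' Ω) θ 100) (hG : LTP Ω G)
    (hi : InjOn G Ω) (hΞ : ∀ z ∈ f '' Ω, ‖Ξ z - z‖ ≤ θ z)
    (hm : ∀ x ∈ K.sk 2, ‖G x - Ξ (f x)‖ ≤ 8 * θ (Ξ (f x))) {σ : Set (Rn 3)} (hσ : σ ∈ K.cel 3)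
    (h : G' '' closure σ ⊆ G '' closure σ) {z : Rn 3} {R : ℝ}
    (hR : ∀ x ∈ closure σ, ‖f x - z‖ + 17 * θ (f x) ≤ R) : ∀ x ∈ closure σ, ‖G' x - z‖ ≤ R := by
  have h1 : ∀ x ∈ closure σ, ‖G x - z‖ ≤ R := by
    refine hull_ball ((Kx.dm_three hσ.1).1 hσ.2) (Kx.cells_poly hσ.1).1
      ((hG.continuousOn hΩ).mono (Kx.cl_sub hσ.1)) (hi.mono (Kx.cells_sub hσ.1)) fun x hx => ?_
    have k0 : f x ∈ f '' Ω := mem_image_of_mem f (Kx.cl_sub hσ.1 hx.1)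
    have k1 := hm x (Kx.rb_sub_sk hσ.1 hσ.2.le hx)
    have k2 := hΞ _ k0
    have k3 := hs.lip (Ξ (f x)) (f x)
    have k4 := le_abs_self (θ (Ξ (f x)) - θ (f x))
    have k5 := hs.pos _ k0
    have k6 := hR x hx.1
    have k7 := norm_sub_le_norm_sub_add_norm_sub (G x) (Ξ (f x)) z
    have k8 := norm_sub_le_norm_sub_add_norm_sub (Ξ (f x)) (f x) z
    linarith
  intro x hx
  obtain ⟨x', hx', k⟩ := h (mem_image_of_mem G' hx)
  exact k ▸ h1 x' hx'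

theorem Det_W {C : Cu} {S : Set (I3 × I3)} (h : S.Finite) : C.SumC S (fun _ _ => 1) ≠ ⊤ := by
  have := h.fintype
  rw [Cu.SumC, tsum_fintype]
  exact ENNReal.sum_ne_top.2 fun _ _ => ENNReal.sum_ne_top.2 fun _ _ =>
    ENNReal.mul_ne_top ENNReal.ofReal_ne_top ENNReal.one_ne_top

theorem Det_chd (hF : GFit C P aK K ch w lam) (hk : ∀ q, kp q ⊆ (C q).Adm)
    (hC : CstOk C C1 Cf Cg) (hS : SDok p C1 C P aK K ch w lam f D θ kp y d)
    (hO : SOut p C1 P.g Cg K f d e G) (q : ι) : (C q).SumC (kp q) ((C q).ce p G) ≤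
      (C q).SumC (kp q) ((C q).cx p C1 D) + e * (C q).SumC (kp q) (fun _ _ => 1) := by
  simp only [Cu.SumC]
  rw [← ENNReal.tsum_mul_left, ← ENNReal.tsum_add]
  refine ENNReal.tsum_le_tsum fun u => ?_
  rw [Finset.mul_sum, ← Finset.sum_add_distrib]
  refine Finset.sum_le_sum fun j hj => ?_
  have hj' : (C q).I = {j} := (Finset.mem_filter.1 hj).2
  have h1 := hO.chd ⟨(q, u.1), u.2⟩ j (by rw [hS.eP]; exact hj')
  have e1 : d.P ⟨(q, u.1), u.2⟩ = (C q).pc u.1 (y ⟨(q, u.1), u.2⟩) := by rw [hS.eP]; rfl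
  have e2 : P.g = (C q).g := by rw [← hF.par q]
  have h2 : ∫⁻ t in Icc (-(C q).ρ) (C q).ρ, ‖d.D (((C q).pc u.1 0).pt j t) (Pi.single j 1) -
      (C q).Ah (Pi.single j 1)‖ₑ ^ p = ∫⁻ t in Icc (-(C q).ρ) (C q).ρ,
        ‖(C q).L (D (((C q).pc u.1 0).pt j t) (Pi.single j 1)) - (C q).Ah (Pi.single j 1)‖ₑ ^ p := by
    refine setLIntegral_congr_fun measurableSet_Icc fun t ht => ?_
    have k : ((C q).pc u.1 0).pt j t ∈ (C q).Q u.1 (C q).ρx := by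
      have k1 : |t| ≤ (C q).ρx := (abs_le.2 ⟨ht.1, ht.2⟩).trans (hF.ok q).num.2.2.2.2.2.2.1
      refine ⟨fun i hi => ?_, fun i hi => ?_⟩
      · have k2 : i ≠ j := fun k => hi (by
          show i ∈ (C q).I
          rw [hj', k]
          exact Finset.mem_singleton_self j)
        simp [Pc.pt, k2]
      · have k2 : i = j := Finset.mem_singleton.1 (hj' ▸ (hi : i ∈ (C q).I))
        simpa [Pc.pt, k2] using k1
    simp only [hS.eD q _ (Det_Qb (hF.ok q) (hk q u.2) k), ContinuousLinearMap.comp_apply]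
  have h3 : (C q).ce p G u.1 j ≤ (C q).cx p C1 D u.1 j + e := by
    rw [e1, e2] at h1
    rw [Cu.cx, ← h2, (hC.2 q).2.1]
    exact h1
  calc _ ≤ ENNReal.ofReal (((C q).b * (C q).h) ^ 2) * ((C q).cx p C1 D u.1 j + e) := by gcongr
    _ = _ := by ring

theorem Det_sk [Fintype ι] (hF : GFit C P aK K ch w lam)
    (hS : SDok p C1 C P aK K ch w lam f D θ kp y d) (hO : SOut p C1 P.g Cg K f d e G) :
    (∑ q, (C q).SumF aK K (kp q) ((C q).S0 K) fun F => (ch F).E p G) +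
      (SumO C K lam fun F => (ch F).E p G) + ∑ q, (C q).SumE p (kp q) (edE p G) ≤
    (∑ q, (C q).SumF aK K (kp q) ((C q).S0 K) fun F => (C q).XF p C1 (kp q) D (ch F) (w F) F) +
      (SumO C K lam fun F => XO p C1 D (ch F)) +
      (∑ q, (C q).SumE p (kp q) ((C q).XE p C1 (kp q) D)) + e := by
  have h := hO.en
  simp only [hS.eω, hS.ech, hS.eωe] at h
  rw [sum_faces hF hS.rig hS.rigo (fun F => (ch F).E p G), sum_faces hF hS.rig hS.rigo,
    sum_edges hF hS.eEd, sum_edges hF hS.eEd (fun e => ∫⁻ t in Icc (0 : ℝ) 1,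
      (d.wt (f (seg e.1 e.2 t)) * d.γe e t) ^ p)] at h
  refine h.trans (add_le_add (add_le_add (add_le_add (Finset.sum_le_sum fun q _ => ?_) ?_)
    (Finset.sum_le_sum fun q _ => ?_)) le_rfl)
  · refine ENNReal.tsum_le_tsum fun σ => ENNReal.tsum_le_tsum fun F => ?_
    exact mul_le_mul_right (hS.xf q F F.2.1.1 (F.2.1.2.trans
      (closure_minimal σ.2.2 isClosed_closedBall))) _
  · exact ENNReal.tsum_le_tsum fun σ => ENNReal.tsum_le_tsum fun F =>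
      mul_le_mul_right (hS.xo σ σ.2.1 σ.2.2 F F.2) _
  · exact ENNReal.tsum_le_tsum fun x => mul_le_mul_right (hS.xe q x x.2) _

theorem Det_ar {a1 a2 a3 a4 a5 a6 x1 x2 x3 x4 c c' B W e e1 e2 e3 : ℝ≥0∞}
    (h1 : a1 + a4 + a2 ≤ x1 + x4 + x2 + e1) (h2 : a3 ≤ x3 + e1 * W) (h3 : (1 + W) * e1 ≤ e)
    (h4 : (1 + B) * (e2 + e3) ≤ e) :
    c * (a1 + a2 + a3 + B * e2 + a5 + a6) + (c' * a4 + e3) ≤
      2 * (c + c' + 1) * ((x1 + x2 + x3 + a5 + a6) + x4 + e) := by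
  have k1 : c ≤ c + c' + 1 := le_self_add.trans le_self_add
  have k2 : c' ≤ c + c' + 1 := le_add_self.trans le_self_add
  have k3 : e3 ≤ (c + c' + 1) * e3 := le_mul_of_one_le_left' le_add_self
  have k4 : B * e2 + e3 ≤ e := by
    refine le_trans ?_ h4
    rw [show (1 + B) * (e2 + e3) = B * e2 + e3 + (e2 + B * e3) by ring]
    exact le_self_add
  calc _ ≤ (c + c' + 1) * (a1 + a2 + a3 + B * e2 + a5 + a6) +
        ((c + c' + 1) * a4 + (c + c' + 1) * e3) := by gcongr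
    _ = (c + c' + 1) * ((a1 + a4 + a2) + a3 + (B * e2 + e3) + a5 + a6) := by ring
    _ ≤ (c + c' + 1) * ((x1 + x4 + x2 + e1) + (x3 + e1 * W) + e + a5 + a6) := by gcongr
    _ = (c + c' + 1) * ((x1 + x2 + x3 + a5 + a6) + x4 + e + (1 + W) * e1) := by ring
    _ ≤ (c + c' + 1) * ((x1 + x2 + x3 + a5 + a6) + x4 + e +
        ((x1 + x2 + x3 + a5 + a6) + x4 + e)) := by
      gcongr
      exact h3.trans le_add_self
    _ = _ := by ring

end

theorem det_main {p : ℝ} (hp1 : 1 ≤ p) (hp : p < 3) : ∃ Cd : ℝ≥0∞, Cd ≠ ⊤ ∧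
    ∀ (ι : Type) [Fintype ι] (C : ι → Cu) (P : Pr) (aK : ℝ) (Ω : Set (Rn 3)) (K : Kx Ω)
      (ch : Set (Rn 3) → Ch) (w lam : Set (Rn 3) → ℝ) (f : Rn 3 → Rn 3)
      (D : Rn 3 → Rn 3 →L[ℝ] Rn 3) (v : Rn 3 → ℝ≥0∞) (θ : Rn 3 → ℝ) (kp : ι → Set (I3 × I3))
      (C1 μ0 θ0 : ℝ) (Cf Cg : (Rn 3 ≃L[ℝ] Rn 3) → ℝ) (e : ℝ≥0∞), GFit C P aK K ch w lam →
      MuIn C Ω f θ μ0 θ0 → RegIn p C K ch f D v → (∀ q, ∀ u ∈ kp q, (C q).Gd K f u) →
      Scl (f '' Ω) θ 100 → CstOk C C1 Cf Cg → SurfC p C1 P.g Cf Cg → e ≠ 0 →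
      ∃ G, DetOut p C K f θ (Cd * ((∑ q, ((C q).XT p C1 aK K ch w (kp q) D + (C q).rem p +
        ‖(C q).A‖ₑ ^ p * (C q).unk (kp q))) + (SumO C K lam fun F => XO p C1 D (ch F)) + e)) G := by
  obtain ⟨Cc, hc, hcav⟩ := cavg hp1 hp
  obtain ⟨C0, h0, hloc⟩ := loc_e hp1 hp hc
  refine ⟨2 * (C0 + Cc + 1), by finiteness, ?_⟩
  intro ι _ C P aK Ω K ch w lam f D v θ kp C1 μ0 θ0 Cf Cg e hF hm hR hg hs hC hT he
  have hk : ∀ q, kp q ⊆ (C q).Adm := fun q u hu => (hg q u hu).adm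
  have := finite_pcs hF hk
  obtain ⟨Ξ, y, hP⟩ := prep_out hF hm hg (fun q => (hC.2 q).1) fun z hz => (hs.pos z hz).le
  obtain ⟨d, hI, hS⟩ := exists_skd hp1 hF hm.cont hm.inj hR hk hs hC hP
  have hW : (1 + ∑ q, (C q).SumC (kp q) fun _ _ => 1) ≠ ⊤ :=
    ENNReal.add_ne_top.2 ⟨ENNReal.one_ne_top, ENNReal.sum_ne_top.2 fun q _ =>
      Det_W ((hF.ok q).adm_finite.subset (hk q))⟩
  have hB : 1 + ENNReal.ofReal (P.b ^ 3) ≠ ⊤ := by finiteness
  obtain ⟨G, hO⟩ := hT Ω K (Ξ ∘ f) (Pcs kp) d _ (ENNReal.div_ne_zero.2 ⟨he, hW⟩) hI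
  obtain ⟨ε, hε0, hε⟩ := K.exists_eps hF.opn (ENNReal.div_ne_zero.2 ⟨he, hB⟩)
  obtain ⟨N, a, l, d1, d2, d3⟩ := Det_dat hF
  obtain ⟨G', g1, g2, g3, g4, g5⟩ := hcav Ω K ch G
    {σ | σ ∈ K.cel 3 ∧ ∀ q, ∀ u ∈ kp q, ¬ σ ⊆ (C q).Q u (C q).ρx} N a l ε hF.opn hO.ltp hO.inj
    (fun σ h => h.1) (fun σ h => d3 σ h.1) hε0
  have hE : ∀ q, (C q).EIn p Cc aK K ch (kp q) G G' ε := by
    intro q
    refine ⟨hk q, fun ⟨u, hu⟩ => (hg q u hu).ne, hO.ltp, g1, fun x hx => g3 x hx.1 fun k => ?_,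
      fun u hu x hx => g3 x ((hF.fit q).sub (Det_Qq (hF.ok q) (hk q hu) hx)) fun k => ?_,
      fun σ hσ hq hn => ?_, fun h2 u hu => ?_⟩
    · have k1 := hx.2
      rw [k.1.2] at k1
      omega
    · exact k.2 q u hu (Det_cel (hF.fit q) (hF.ok q) (hk q hu) hx)
    · obtain ⟨e1, e2, e3⟩ := d1 q σ hσ hq
      rw [← e1, ← e2, ← e3]
      refine g5 σ ⟨hσ, fun q' u hu k => ?_⟩
      obtain rfl := Det_uniq hF hσ hq (k.trans (Det_Qq (hF.ok q') (hk q' hu)))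
      exact hn u hu k
    · have e1 : d.P ⟨(q, u), hu⟩ = (C q).pc u (y ⟨(q, u), hu⟩) := by rw [hS.eP]; rfl
      have k := hO.rig ⟨(q, u), hu⟩ (by rw [e1]; exact h2)
      rw [e1, Cu.pc_ρx] at k
      rw [(hC.2 q).2.1]
      exact ⟨⟨_, k.1⟩, k.2⟩
  refine ⟨G', g1, g2, fun σ hσ z R h => Det_sup hF.opn hs hO.ltp hO.inj hP.mv
    (fun x hx => hS.eθ ▸ hO.mv x hx) hσ (g4 σ hσ) h, ?_⟩
  have o1 : ∫⁻ x in Ω \ ⋃ q, (C q).q, ‖fderiv ℝ G' x‖ₑ ^ p ≤
      Cc * (SumO C K lam fun F => (ch F).E p G) +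
        ∑' σ : {σ // σ ∈ K.cel 3 ∧ ∀ q, ¬ σ ⊆ (C q).q}, ε σ := by
    rw [out_cells hF, SumO, ← ENNReal.tsum_mul_left, ← ENNReal.tsum_add]
    refine ENNReal.tsum_le_tsum fun σ => ?_
    obtain ⟨e1, e2, e3⟩ := d2 σ σ.2.2
    have k := g5 σ ⟨σ.2.1, fun q u hu k => σ.2.2 q (k.trans (Det_Qq (hF.ok q) (hk q hu)))⟩
    rw [e1, e2, e3, one_pow, one_mul, mul_assoc] at k
    rw [ENNReal.tsum_mul_left]
    exact k
  have o2 : ∑ q, ∫⁻ x in (C q).q, ‖fderiv ℝ (G' ∘ (C q).St) x - (C q).A‖ₑ ^ p ≤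
      C0 * ((∑ q, (C q).SumF aK K (kp q) ((C q).S0 K) fun F => (ch F).E p G) +
        (∑ q, (C q).SumE p (kp q) (edE p G)) + (∑ q, (C q).SumC (kp q) ((C q).ce p G)) +
        ENNReal.ofReal (P.b ^ 3) * (∑ q, ∑' σ : (C q).S0 K, ε σ) + (∑ q, (C q).rem p) +
        ∑ q, ‖(C q).A‖ₑ ^ p * (C q).unk (kp q)) := by
    simp only [Finset.mul_sum, ← Finset.sum_add_distrib]
    refine Finset.sum_le_sum fun q _ => ?_
    rw [← hF.par q]
    exact hloc (C q) aK Ω K ch w (kp q) G G' ε (hF.ok q) (hF.fit q) (hE q)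
  refine (add_le_add o2 o1).trans ?_
  simp only [Cu.XT, Finset.sum_add_distrib]
  refine Det_ar (Det_sk hF hS hO) ?_ ENNReal.mul_div_le ?_
  · rw [Finset.mul_sum, ← Finset.sum_add_distrib]
    exact Finset.sum_le_sum fun q _ => Det_chd hF hk hC hS hO q
  · exact (mul_le_mul_right ((sum_eps hF ε).trans hε) _).trans ENNReal.mul_div_le

end BEp
end
end
end
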