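import Pool.Agent.Work.MP_f0515e_an.P3.KInt
import Pool.Agent.Work.MP_f0515e_an.Pos.ASe
import Pool.Agent.Work.MP_f0515e_an.Pos.HBor
import Pool.Agent.Work.MP_f0515e_an.P3.GGeo
import Pool.Agent.Work.MP_f0515e_an.D3.NLn

-- merged part: Pool.Agent.Work.MP_f0515e_an.P3.Vit
section
/-! `vit_count`: apply `BMax_slice` to the disjoint union of the balls of radius `t0 / 2` around
the centres, with doubled radii. `deg_cover`: the degree of `f - y` on the ball is that of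
`aff - y` (straight line homotopy, no zero on the sphere), which is not zero (`isDeg`; extend `f`
continuously first, `lug_ext`; `A` is invertible by the lower bound). -/

open Set Metric Filter Topology Function BEv MeasureTheory
open scoped NNReal ENNReal

noncomputable section
namespace BEp

theorem vit_count {κ : Type} [Fintype κ] (ψ : (κ → ℝ) → ℝ≥0∞) {ι : Type} (T : Set ι)
    (c : ι → κ → ℝ) {t0 ρ : ℝ} (ht : 0 < t0)
    (hs : ∀ u ∈ T, ∀ u' ∈ T, u ≠ u' → t0 ≤ ‖c u - c u'‖) {lam : ℝ≥0∞}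
    (h : ∀ u ∈ T, ∃ R ∈ Icc (t0 / 2) ρ,
      lam * ENNReal.ofReal ((2 * R) ^ Fintype.card κ) ≤ ∫⁻ x in closedBall (c u) R, ψ x) :
    lam * (T.encard : ℝ≥0∞) * ENNReal.ofReal (t0 ^ Fintype.card κ) ≤
      10 ^ Fintype.card κ * ∫⁻ x, ψ x := by
  have hd : T.PairwiseDisjoint fun u => ball (c u) (t0 / 2) := fun u hu u' hu' hne =>
    ball_disjoint_ball (by rw [add_halves, dist_eq_norm]; exact hs u hu u' hu' hne)
  have hc : T.Countable := hd.countable_of_isOpen (fun _ _ => isOpen_ball)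
    fun u _ => ⟨c u, mem_ball_self (half_pos ht)⟩
  have hv : volume (⋃ u ∈ T, ball (c u) (t0 / 2)) =
      (T.encard : ℝ≥0∞) * ENNReal.ofReal (t0 ^ Fintype.card κ) := by
    rw [measure_biUnion hc hd fun _ _ => measurableSet_ball, ← ENNReal.tsum_set_const]
    refine tsum_congr fun u => ?_
    rw [Real.volume_pi_ball _ (half_pos ht), mul_div_cancel₀ _ (two_ne_zero' ℝ)]
  have h2 : (2 : ℝ≥0∞) ^ Fintype.card κ ≠ 0 := pow_ne_zero _ two_ne_zero
  have h3 : (2 : ℝ≥0∞) ^ Fintype.card κ ≠ ⊤ := ENNReal.pow_ne_top ENNReal.ofNat_ne_top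
  have key := BMax_slice ψ (2 * ρ) (lam * ((2 : ℝ≥0∞) ^ Fintype.card κ)⁻¹)
    (⋃ u ∈ T, ball (c u) (t0 / 2)) (by
      intro y hy
      obtain ⟨u, hu, hy⟩ := mem_iUnion₂.1 hy
      obtain ⟨R, hR, hl⟩ := h u hu
      have R0 : 0 < R := (half_pos ht).trans_le hR.1
      refine ⟨2 * R, ⟨by positivity, by linarith only [hR, hR.2]⟩, ?_⟩
      have e := (measurePreserving_add_left volume y).setLIntegral_comp_preimage_emb
        (measurableEmbedding_addLeft y) ψ (closedBall y (2 * R))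
      have e' : (fun x => y + x) ⁻¹' closedBall y (2 * R) = closedBall 0 (2 * R) := by
        ext x
        simp [dist_eq_norm]
      rw [e'] at e
      rw [e, mul_pow, ENNReal.ofReal_mul (by positivity), ENNReal.ofReal_pow (by norm_num),
        ENNReal.ofReal_ofNat, mul_assoc, ← mul_assoc _ ((2 : ℝ≥0∞) ^ Fintype.card κ),
        ENNReal.inv_mul_cancel h2 h3, one_mul]
      refine hl.trans (lintegral_mono_set (closedBall_subset_closedBall' ?_))
      have := mem_ball'.1 hy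
      linarith only [this, hR, hR.1])
  rw [hv] at key
  calc lam * (T.encard : ℝ≥0∞) * ENNReal.ofReal (t0 ^ Fintype.card κ)
      = 2 ^ Fintype.card κ * (lam * ((2 : ℝ≥0∞) ^ Fintype.card κ)⁻¹ *
        ((T.encard : ℝ≥0∞) * ENNReal.ofReal (t0 ^ Fintype.card κ))) := by
        rw [mul_comm lam (_)⁻¹, ← mul_assoc, ← mul_assoc, ← mul_assoc,
          ENNReal.mul_inv_cancel h2 h3, one_mul]
    _ ≤ 2 ^ Fintype.card κ * (5 ^ Fintype.card κ * ∫⁻ x, ψ x) := mul_le_mul_right key _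
    _ = 10 ^ Fintype.card κ * ∫⁻ x, ψ x := by
        rw [← mul_assoc, ← mul_pow]
        norm_num

theorem Vit_ext {f : Rn 3 → Rn 3} {K : Set (Rn 3)} (hK : IsClosed K) (hf : ContinuousOn f K) :
    ∃ g : Rn 3 → Rn 3, Continuous g ∧ EqOn g f K := by
  have : TietzeExtension (Rn 3) := TietzeExtension.of_tvs ℝ
  obtain ⟨g, hg⟩ := ContinuousMap.exists_restrict_eq hK
    (⟨K.domRestrict f, hf.domRestrict⟩ : C(K, Rn 3))
  exact ⟨g, g.continuous, fun x hx => congrArg (fun k : C(K, Rn 3) => k ⟨x, hx⟩) hg⟩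

theorem deg_cover {f : Rn 3 → Rn 3} {c y0 : Rn 3} {R R' σ m μ : ℝ} {A : Rn 3 →L[ℝ] Rn 3}
    (hf : ContinuousOn f (closedBall c R)) (hσ : 0 < σ) (hA : ∀ z, σ * ‖z‖ ≤ ‖A z‖)
    (h : ∀ x ∈ sphere c R, ‖f x - (y0 + A (x - c))‖ ≤ m) (hm : 0 ≤ m) (hμ : μ + m < σ * (R - R'))
    {x y : Rn 3} (hx : x ∈ closedBall c R') (hy : ‖y - (y0 + A (x - c))‖ ≤ μ) :
    y ∈ f '' ball c R := by
  obtain ⟨g, hg, eg⟩ := Vit_ext isClosed_closedBall hf
  have hi : Injective A := (injective_iff_map_eq_zero A).2 fun z hz => by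
    have h1 := hA z
    rw [hz, norm_zero] at h1
    exact norm_le_zero_iff.1 (nonpos_of_mul_nonpos_right h1 hσ)
  let M : Rn 3 ≃L[ℝ] Rn 3 :=
    (LinearEquiv.ofInjectiveEndo (A : Rn 3 →ₗ[ℝ] Rn 3) hi).toContinuousLinearEquiv
  have hM : ∀ z, M z = A z := fun _ => rfl
  have μ0 : 0 ≤ μ := (norm_nonneg _).trans hy
  have hR : R' < R := by
    have : 0 < σ * (R - R') := by linarith
    exact sub_pos.1 ((mul_pos_iff_of_pos_left hσ).1 this)
  have hx' : ‖x - c‖ ≤ R' := mem_closedBall_iff_norm.1 hx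
  obtain ⟨ad, -, d1⟩ := deg_htp (E := Rn 3) (F := Rn 3) rfl (O := ball c R) isOpen_ball
    isBounded_ball (H := fun p => A (p.1 - x) + (1 - p.2) • (g p.1 - y - A (p.1 - x)))
    (by fun_prop) (fun z hz s hs k => by
      have hz' : z ∈ sphere c R := frontier_ball_subset_sphere hz
      have e : g z - y - A (z - x) =
          (f z - (y0 + A (z - c))) - (y - (y0 + A (x - c))) := by
        rw [eg (sphere_subset_closedBall hz'), map_sub, map_sub, map_sub]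
        abel
      have h1 : ‖g z - y - A (z - x)‖ ≤ m + μ := by
        rw [e]
        exact (norm_sub_le _ _).trans (add_le_add (h z hz') hy)
      have h2 : ‖A (z - x)‖ = (1 - s) * ‖g z - y - A (z - x)‖ := by
        refine (congrArg norm (eq_neg_of_add_eq_zero_left k)).trans ?_
        rw [norm_neg, norm_smul, Real.norm_eq_abs, abs_of_nonneg (sub_nonneg.2 hs.2)]
      have h3 : R - R' ≤ ‖z - x‖ := by
        have h4 := norm_sub_le_norm_sub_add_norm_sub z x c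
        rw [mem_sphere_iff_norm.1 hz'] at h4
        linarith
      have h5 := hA (z - x)
      have h6 := mul_le_mul_of_nonneg_left h3 hσ.le
      have h7 := mul_nonneg hs.1 (norm_nonneg (g z - y - A (z - x)))
      linarith)
    (u := fun z => g z - y) (v := fun z => M (z - x)) (by fun_prop) (by fun_prop)
    (fun z _ => by simp) (fun z _ => by simp [hM])
  rw [deg_aff M isOpen_ball isBounded_ball (mem_ball_iff_norm.2 (hx'.trans_lt hR))] at d1
  by_contra hy'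
  have z := deg_nz (E := Rn 3) (F := Rn 3) rfl ad fun z hz k =>
    hy' ⟨z, hz, (eg (ball_subset_closedBall hz)).symm.trans (sub_eq_zero.1 k)⟩
  rw [z] at d1
  rcases sg_cases M with k | k <;> rw [k] at d1 <;> exact absurd d1 (by decide)

end BEp
end
end

-- merged part: Pool.Agent.Work.MP_f0515e_an.P3.Sep
section
/-! The private sets. Every point of `Zt f u 1` is at distance less than `μ0` from `f (ctr u)`, so it
is the image of a point of the ball of radius `ρ'` around the centre (`m1`), and by injectivity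
of no other point. For a point of the slice off the tile (rank at most two) `Gd.cl` and `low`
show that its image is far from `aff0 (Q (ρx + κ s / 2))`. For solids `deg_cover` on the tile.
`z2`: centres at distance at least `2 ρ'` have disjoint balls (different cubes: the tiles lie in
the balls of radius `η - h`); otherwise the tiles lie in the same cell (`tile_sep`): solids by
the degree, the other ones by `Gd.cl` for both tiles. -/

open Set Metric Filter Topology Function BEv MeasureTheory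
open scoped NNReal ENNReal

noncomputable section
namespace BEp

section
variable {C : Cu} {aK : ℝ} {Ω : Set (Rn 3)} {K : Kx Ω} {ch : Set (Rn 3) → Ch}
  {w : Set (Rn 3) → ℝ} {f : Rn 3 → Rn 3} {u : I3 × I3}

theorem Sep_num (h : C.Ok aK) : 0 < C.lam ∧ C.lam ≤ C.σ ∧ C.lam * C.t0 < C.σ * C.κ * C.s / 8 ∧
    0 ≤ C.ρx ∧ C.t0 / 2 = C.ρx + C.κ * C.s ∧ 0 < C.κ * C.s := by
  obtain ⟨-, -, s0, -, -, -, k0, z0, -⟩ := h.pos
  obtain ⟨-, e, -, -, k1, -⟩ := h.num
  have l0 := h.lam0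
  have l1 := h.lam1
  obtain ⟨a0, a1⟩ := h.σ0
  have p1 : (1 : ℝ) ≤ 2 ^ C.a := one_le_pow₀ one_le_two
  have n0 := norm_nonneg (C.Ah : Rn 3 →L[ℝ] Rn 3)
  have q0 : 0 < 2 ^ C.a * C.lam := by positivity
  have q1 : 10 ^ 14 * (2 ^ C.a * C.lam) ≤ C.σ := by
    have k : 10 ^ 14 * (2 ^ C.a * C.lam) ≤
        10 ^ 14 * (1 + ‖(C.Ah : Rn 3 →L[ℝ] Rn 3)‖) * 2 ^ C.a * C.lam := by
      linarith only [n0, q0, mul_nonneg n0 q0.le]
    linarith only [l1, k, a0, a1, mul_nonneg_of_nonpos_of_nonpos (le_of_lt (Mathlib.Tactic.Linarith.sub_neg_of_lt a0)) (Mathlib.Tactic.Linarith.sub_nonpos_of_le a1)]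
  have q2 : C.lam ≤ 2 ^ C.a * C.lam := le_mul_of_one_le_left l0.le p1
  refine ⟨l0, by linarith, ?_, by unfold Cu.ρx; positivity, e, mul_pos k0 s0⟩
  have e2 : C.lam * C.t0 = 2 * (2 ^ C.a * C.lam) * C.s := by
    unfold Cu.t0
    ring
  have q3 : C.σ * 6400 ≤ C.σ * C.κ := mul_le_mul_of_nonneg_left (by linarith only [z0, k1]) a0.le
  have q4 : 2 * (2 ^ C.a * C.lam) < C.σ * C.κ / 8 := by linarith only [q0, q1, q3]
  rw [e2]
  have := mul_lt_mul_of_pos_right q4 s0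
  linarith only [this]

theorem Sep_ball (h : C.Ok aK) (hu : u ∈ C.Adm) :
    ball (C.ctr u) (3 * C.ρ') ⊆ ball C.o C.η := by
  obtain ⟨-, h0, -⟩ := h.pos
  exact ((h.Q_sub hu).2.2.1.trans h.O_prop.2.1).trans (ball_subset_ball (by linarith))

theorem Sep_low (h : C.Ok aK) (hA : C.A ≠ 0) {z : Rn 3} (hz : ∀ i, i ∉ C.I → z i = 0) :
    C.σ * ‖z‖ ≤ ‖C.A z‖ := by
  have e : prL C.I z = z := funext fun i => by
    by_cases k : i ∈ C.I
    · simp [prL, k]
    · simp [prL, k, hz i k]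
  have := h.low hA z
  rwa [e] at this

theorem Sep_sk (hf : C.Fit aK K ch w) (h : C.Ok aK) (hu : u ∈ C.Adm) (hc : C.I.card ≠ 3) :
    C.Q u (C.t0 / 2 + 3 * C.ρ') ⊆ K.sk 2 := by
  have k : C.I.card ≤ 3 := by simpa using Finset.card_le_univ C.I
  exact (((h.Q_sub hu).1.trans (h.Q_sub hu).2.1).trans (hf.WI_sk h)).trans
    (Kx.sk_mono (by omega))

theorem Sep_cl (hf : C.Fit aK K ch w) (h : C.Ok aK) (hg : C.Gd K f u) (hc : C.I.card ≠ 3)
    {x : Rn 3} (hx : x ∈ C.Q u (C.t0 / 2 + 3 * C.ρ')) :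
    ‖f x - C.aff0 f u x‖ ≤ C.lam * max C.t0 ‖x - C.ctr u‖ :=
  hg.cl x ⟨Sep_sk hf h hg.adm hc hx, by rwa [if_neg hc]⟩

theorem Sep_far (hf : C.Fit aK K ch w) (h : C.Ok aK) (hg : C.Gd K f u) (hc : C.I.card ≠ 3)
    {x x0 : Rn 3} (hx : x ∈ C.Q u (C.t0 / 2 + 3 * C.ρ')) (hd : C.t0 / 2 ≤ ‖x - C.ctr u‖)
    (hx0 : x0 ∈ C.Q u (C.ρx + C.κ * C.s / 2)) :
    C.σ * C.κ * C.s / 2 - C.lam * C.t0 ≤ ‖f x - C.aff0 f u x0‖ := by
  obtain ⟨l0, l1, -, r0, e, k0⟩ := Sep_num h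
  obtain ⟨-, -, -, t0, -, ρ0, -⟩ := h.pos
  have c1 := Sep_cl hf h hg hc hx
  rw [Cu.mem_Q (by linarith only [r0, e, k0, ρ0])] at hx hx0
  have c2 := Sep_low h hg.ne (z := x - x0) fun i hi => by
    rw [Pi.sub_apply, hx.1 i hi, hx0.1 i hi, sub_self]
  have e1 : C.A (x - x0) = (f x - C.aff0 f u x0) - (f x - C.aff0 f u x) := by
    simp only [Cu.aff0, map_sub]
    abel
  have c3 := norm_sub_le (f x - C.aff0 f u x0) (f x - C.aff0 f u x)
  rw [← e1] at c3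
  have c4 : ‖x - C.ctr u‖ ≤ ‖x - x0‖ + ‖x0 - C.ctr u‖ := norm_sub_le_norm_sub_add_norm_sub _ _ _
  have c5 : max C.t0 ‖x - C.ctr u‖ ≤ (‖x - C.ctr u‖ - C.t0 / 2) + C.t0 :=
    max_le (by linarith only [hd]) (by linarith only [r0, e, k0])
  have c6 := mul_le_mul_of_nonneg_left c5 l0.le
  have c7 := mul_le_mul_of_nonneg_right l1 (sub_nonneg.2 hd)
  have c8 : C.σ * ((‖x - C.ctr u‖ - C.t0 / 2) + C.κ * C.s / 2) ≤ C.σ * ‖x - x0‖ :=
    mul_le_mul_of_nonneg_left (by linarith only [hx0, e, c4, hx0.2]) h.σ0.1.le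
  linarith only [c1, c2, c3, c6, c7, c8]

theorem Sep_solid (hf : C.Fit aK K ch w) (h : C.Ok aK) (hg : C.Gd K f u) (hc : C.I.card = 3)
    (hcont : ContinuousOn f Ω) (hinj : InjOn f Ω) {x : Rn 3} (hx : x ∈ Ω)
    (hz : f x ∈ C.Zt f u 1) : ‖x - C.ctr u‖ < C.t0 / 2 := by
  obtain ⟨l0, l1, l2, r0, e, k0⟩ := Sep_num h
  obtain ⟨-, -, -, t0, -, ρ0, -⟩ := h.pos
  have hI : ∀ i, i ∈ C.I := fun i => by
    rw [Finset.eq_univ_of_card C.I (by simpa using hc)]
    exact Finset.mem_univ i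
  have sub : closedBall (C.ctr u) (C.t0 / 2) ⊆ Ω :=
    (((closedBall_subset_ball (by linarith only [ρ0, h, h.ρ1])).trans (Sep_ball h hg.adm)).trans
      ball_subset_closedBall).trans hf.sub
  obtain ⟨x0, hx0, hy⟩ := hz
  rw [Cu.mem_Q (by linarith only [r0, k0])] at hx0
  have k := deg_cover (f := f) (c := C.ctr u) (y0 := f (C.ctr u)) (R := C.t0 / 2)
    (R' := C.ρx + C.κ * C.s / 2) (σ := C.σ) (m := C.lam * C.t0) (μ := 1 * (C.σ * C.κ * C.s / 8))
    (A := C.A) (hcont.mono sub) h.σ0.1 (fun z => Sep_low h hg.ne fun i hi => absurd (hI i) hi)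
    (fun x hx => by
      have a1 : ‖x - C.ctr u‖ = C.t0 / 2 := mem_sphere_iff_norm.1 hx
      have a2 := hg.cl x ⟨hf.sphere_sk h hc hg.adm hx, by
        rw [if_pos hc, add_zero, Cu.mem_Q (by linarith only [r0, e, k0])]
        exact ⟨fun i hi => absurd (hI i) hi, a1.le⟩⟩
      rwa [a1, max_eq_left (by linarith only [r0, e, k0])] at a2) (by positivity)
    (by
      have a1 : 0 < C.σ * (C.κ * C.s) := mul_pos h.σ0.1 k0
      rw [e]
      linarith only [l2, a1]) (mem_closedBall_iff_norm.2 hx0.2) hy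
  obtain ⟨x', a1, a2⟩ := k
  rw [← hinj (sub (ball_subset_closedBall a1)) hx a2]
  exact mem_ball_iff_norm.1 a1

theorem Sep_near (h : C.Ok aK) {μ0 : ℝ} (hμ : (1 + ‖C.A‖) * C.t0 < μ0) {y : Rn 3}
    (hy : y ∈ C.Zt f u 1) : y ∈ ball (f (C.ctr u)) μ0 := by
  obtain ⟨l0, l1, l2, r0, e, k0⟩ := Sep_num h
  obtain ⟨-, -, -, t0, -, ρ0, -⟩ := h.pos
  obtain ⟨x0, hx0, hy⟩ := hy
  rw [Cu.mem_Q (by linarith only [r0, k0])] at hx0
  have c1 : ‖C.A (x0 - C.ctr u)‖ ≤ ‖C.A‖ * C.t0 :=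
    (C.A.le_opNorm _).trans (mul_le_mul_of_nonneg_left (by linarith only [r0, e, k0, hx0, hx0.2]) (norm_nonneg _))
  have e1 : y - f (C.ctr u) = (y - C.aff0 f u x0) + C.A (x0 - C.ctr u) := by
    simp only [Cu.aff0]
    abel
  have c2 := norm_add_le (y - C.aff0 f u x0) (C.A (x0 - C.ctr u))
  have c3 : C.σ * (C.κ * C.s) ≤ 1 * (C.κ * C.s) := mul_le_mul_of_nonneg_right h.σ0.2 k0.le
  rw [mem_ball_iff_norm, e1]
  linarith only [hμ, r0, e, k0, hy, c1, c2, c3]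

end

theorem sep_out {ι : Type} {C : ι → Cu} {P : Pr} {aK : ℝ} {Ω : Set (Rn 3)} {K : Kx Ω}
    {ch : Set (Rn 3) → Ch} {w lam : Set (Rn 3) → ℝ} (hF : GFit C P aK K ch w lam)
    {f : Rn 3 → Rn 3} {θ : Rn 3 → ℝ} {μ0 θ0 : ℝ} (hm : MuIn C Ω f θ μ0 θ0)
    {kp : ι → Set (I3 × I3)} (hg : ∀ q, ∀ u ∈ kp q, (C q).Gd K f u) : SepOut C Ω f θ θ0 kp := by
  have cq : ∀ q, ∀ u ∈ kp q, (C q).ctr u ∈ (C q).q := fun q u hu =>
    ball_subset_closedBall (Sep_ball (hF.ok q) (hg q u hu).adm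
      (mem_ball_self (by linarith [(hF.ok q).pos.2.2.2.2.2.1])))
  have pre : ∀ q, ∀ u ∈ kp q, ∀ y ∈ (C q).Zt f u 1,
      y ∈ f '' (ball ((C q).ctr u) (C q).ρ' ∩ Ω) ∧ θ0 ≤ θ y := fun q u hu y hy =>
    have k := Sep_near (hF.ok q) (hm.m2 q).1 hy
    ⟨(hm.m1 q _ (cq q u hu)).1 k, (hm.m1 q _ (cq q u hu)).2 y k⟩
  have nr : ∀ q, ∀ u ∈ kp q, ∀ x ∈ Ω, f x ∈ (C q).Zt f u 1 → ‖x - (C q).ctr u‖ < (C q).ρ' := by
    intro q u hu x hx hz
    obtain ⟨x', a1, a2⟩ := (pre q u hu _ hz).1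
    rw [← hm.inj a1.2 hx a2]
    exact mem_ball_iff_norm.1 a1.1
  refine ⟨fun q u hu y hy => ⟨image_mono inter_subset_right (pre q u hu y hy).1,
    (pre q u hu y hy).2⟩, fun q u hu q' u' hu' hne => disjoint_left.2 fun y hy hy' => ?_,
    fun q u hu x hx hz => ⟨nr q u hu x hx hz, fun hs => ?_⟩⟩
  · obtain ⟨x, ⟨-, hx⟩, rfl⟩ := (pre q u hu y hy).1
    have n1 := nr q u hu x hx hy
    have n2 := nr q' u' hu' x hx hy'
    by_cases hq : q = q'
    · subst hq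
      have h := hF.ok q
      obtain ⟨l0, l1, l2, r0, e, k0⟩ := Sep_num h
      obtain ⟨-, -, -, t0, -, ρ0, -⟩ := h.pos
      obtain ⟨s1, s2, s3⟩ := h.tile_sep (hg q u hu).adm (hg q u' hu').adm
        fun k => hne (by rw [k])
      have tri : ∀ z : Rn 3, ‖(C q).ctr u - (C q).ctr u'‖ ≤
          ‖z - (C q).ctr u‖ + ‖z - (C q).ctr u'‖ := fun z => by
        rw [norm_sub_rev z]
        exact norm_sub_le_norm_sub_add_norm_sub _ _ _
      by_cases hc : (C q).I.card = 3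
      · have a1 := Sep_solid (hF.fit q) h (hg q u hu) hc hm.cont hm.inj hx hy
        have a2 := Sep_solid (hF.fit q) h (hg q u' hu') hc hm.cont hm.inj hx hy'
        linarith only [s1, a1, a2, tri, tri x]
      · have d2 : ‖(C q).ctr u - (C q).ctr u'‖ < 2 * (C q).ρ' := by linarith only [n1, n2, tri, tri x]
        obtain ⟨x0, hx0, b0⟩ := hy
        obtain ⟨x1, hx1, b1⟩ := hy'
        have hx1' := (Cu.mem_Q (by linarith only [r0, k0])).1 hx1
        have c1 := Sep_cl (hF.fit q) h (hg q u' hu') hc (x := x1)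
          ((Cu.mem_Q (by linarith only [r0, e, k0, s1, d2])).2 ⟨hx1'.1, by linarith only [r0, e, k0, s1, d2, hx1', hx1'.2]⟩)
        rw [max_eq_left (by linarith only [r0, e, k0, hx1', hx1'.2])] at c1
        have c0 : ‖x1 - (C q).ctr u‖ ≤ ‖x1 - (C q).ctr u'‖ + ‖(C q).ctr u' - (C q).ctr u‖ :=
          norm_sub_le_norm_sub_add_norm_sub _ _ _
        rw [norm_sub_rev ((C q).ctr u')] at c0
        have c2 := Sep_far (hF.fit q) h (hg q u hu) hc (x := x1)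
          ((Cu.mem_Q (by linarith only [r0, e, k0, s1, d2])).2 ⟨fun i hi => (hx1'.1 i hi).trans (s3 (s2 d2) i hi).symm,
            by linarith only [r0, e, k0, s1, d2, hx1', c0, hx1'.2]⟩) (by linarith only [e, k0, s1, hx1', tri, tri x1, hx1'.2]) hx0
        have c3 : ‖f x1 - (C q).aff0 f u x0‖ ≤
            ‖f x1 - (C q).aff0 f u' x1‖ + ‖(C q).aff0 f u' x1 - (C q).aff0 f u x0‖ :=
          norm_sub_le_norm_sub_add_norm_sub _ _ _
        have c4 : ‖(C q).aff0 f u' x1 - (C q).aff0 f u x0‖ ≤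
            ‖(C q).aff0 f u' x1 - f x‖ + ‖f x - (C q).aff0 f u x0‖ :=
          norm_sub_le_norm_sub_add_norm_sub _ _ _
        rw [norm_sub_rev _ (f x)] at c4
        linarith only [l2, b0, b1, c1, c2, c3, c4]
    · have ρ0 := (hF.ok q).pos.2.2.2.2.2.1
      have ρ1 := (hF.ok q').pos.2.2.2.2.2.1
      exact disjoint_left.1 (hF.far q q' hq)
        (Sep_ball (hF.ok q) (hg q u hu).adm (mem_ball_iff_norm.2 (by linarith)))
        (ball_subset_closedBall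
          (Sep_ball (hF.ok q') (hg q' u' hu').adm (mem_ball_iff_norm.2 (by linarith))))
  · have h := hF.ok q
    obtain ⟨l0, l1, l2, r0, e, k0⟩ := Sep_num h
    obtain ⟨-, -, -, t0, -, ρ0, -⟩ := h.pos
    refine (Cu.mem_Q (by linarith only [r0, e, k0])).2 ⟨hs, ?_⟩
    by_cases hc : (C q).I.card = 3
    · exact (Sep_solid (hF.fit q) h (hg q u hu) hc hm.cont hm.inj hx hz).le
    · by_contra hn
      have n1 := nr q u hu x hx hz
      obtain ⟨x0, hx0, b0⟩ := hz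
      have c2 := Sep_far (hF.fit q) h (hg q u hu) hc (x := x)
        ((Cu.mem_Q (by linarith only [r0, e, k0, hn, n1])).2 ⟨hs, by linarith only [r0, e, k0, hn, n1]⟩) (not_le.1 hn).le hx0
      have a1 : 0 < (C q).σ * ((C q).κ * (C q).s) := mul_pos h.σ0.1 k0
      linarith only [l2, b0, c2, a1]

end BEp
end
end

-- merged part: Pool.Agent.Work.MP_f0515e_an.P3.Xi
section
/-! Correction of the target: `Ξ y = y + ∑ i, χ i y • (B i y + k i)` with
`χ i y = max 0 (min 1 (2 - 2 * infDist y (Y i) / μ i))` (zero if `Y i` is empty). Each term is `1/4`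
Lipschitz, the sum is `1/2` Lipschitz since the supports are disjoint, so `Ξ` is bijective
(contraction). The same holds for each single term, which gives the last clause. -/

open Set Metric Filter Topology Function BEv MeasureTheory
open scoped NNReal ENNReal

noncomputable section
namespace BEp

theorem Xi_cut (Y : Set (Rn 3)) (μ : ℝ) (hY : IsCompact Y) (hμ : 0 < μ) :
    ∃ χ : Rn 3 → ℝ, (∀ y, 0 ≤ χ y ∧ χ y ≤ 1) ∧ (∀ y y', |χ y - χ y'| ≤ 2 / μ * ‖y - y'‖) ∧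
      (∀ y, (¬ ∃ x ∈ Y, ‖y - x‖ ≤ μ) → χ y = 0) ∧
      ∀ y, (∃ x ∈ Y, ‖y - x‖ ≤ μ / 2) → χ y = 1 := by
  rcases Y.eq_empty_or_nonempty with rfl | hne
  · refine ⟨fun _ => 0, fun _ => ⟨le_rfl, zero_le_one⟩, fun y y' => ?_, fun _ _ => rfl, ?_⟩
    · simp only [sub_self, abs_zero]; positivity
    · rintro y ⟨x, hx, -⟩; exact absurd hx (notMem_empty x)
  refine ⟨fun y => max 0 (min 1 (2 - 2 / μ * infDist y Y)), fun y => ⟨le_max_left _ _, ?_⟩,
    fun y y' => ?_, fun y hy => ?_, ?_⟩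
  · exact max_le zero_le_one (min_le_left _ _)
  · have h1 : |infDist y Y - infDist y' Y| ≤ ‖y - y'‖ := by
      have := (lipschitz_infDist_pt Y).dist_le_mul y y'
      rw [Real.dist_eq, dist_eq_norm] at this
      simpa using this
    have h2 : |(2 - 2 / μ * infDist y Y) - (2 - 2 / μ * infDist y' Y)| ≤ 2 / μ * ‖y - y'‖ := by
      have e : (2 - 2 / μ * infDist y Y) - (2 - 2 / μ * infDist y' Y)
          = -(2 / μ * (infDist y Y - infDist y' Y)) := by ring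
      rw [e, abs_neg, abs_mul, abs_of_pos (by positivity : (0 : ℝ) < 2 / μ)]
      exact mul_le_mul_of_nonneg_left h1 (by positivity)
    refine le_trans ?_ h2
    refine (abs_max_sub_max_le_max _ _ _ _).trans ?_
    rw [sub_self, abs_zero]
    refine max_le (abs_nonneg _) ?_
    refine (abs_min_sub_min_le_max _ _ _ _).trans ?_
    rw [sub_self, abs_zero]
    exact max_le (abs_nonneg _) le_rfl
  · obtain ⟨x, hx, hxe⟩ := hY.exists_infDist_eq_dist hne y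
    have h1 : μ < infDist y Y := by
      rw [hxe, dist_eq_norm]
      by_contra hc
      exact hy ⟨x, hx, not_lt.1 hc⟩
    have h2 : 2 ≤ 2 / μ * infDist y Y := by
      have : 2 / μ * μ ≤ 2 / μ * infDist y Y := mul_le_mul_of_nonneg_left h1.le (by positivity)
      rwa [div_mul_cancel₀ _ hμ.ne'] at this
    refine max_eq_left ((min_le_right _ _).trans (by linarith))
  · rintro y ⟨x, hx, hxe⟩
    have h1 : infDist y Y ≤ μ / 2 := (infDist_le_dist_of_mem hx).trans (by rwa [dist_eq_norm])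
    have h2 : 2 / μ * infDist y Y ≤ 1 := by
      have : 2 / μ * infDist y Y ≤ 2 / μ * (μ / 2) := mul_le_mul_of_nonneg_left h1 (by positivity)
      have e : 2 / μ * (μ / 2) = 1 := by field_simp
      linarith only [this, e]
    show max 0 (min 1 (2 - 2 / μ * infDist y Y)) = 1
    rw [min_eq_left (by linarith only [h2]), max_eq_right zero_le_one]

theorem Xi_term (Y : Set (Rn 3)) (μ : ℝ) (B : Rn 3 →L[ℝ] Rn 3) (k : Rn 3) (hY : IsCompact Y)
    (hμ : 0 < μ) (hB : ‖B‖ ≤ 1 / 8)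
    (ha : ∀ y, (∃ x ∈ Y, ‖y - x‖ ≤ μ) → ‖B y + k‖ ≤ μ / 16) :
    ∃ T : Rn 3 → Rn 3, (∀ y y', ‖T y - T y'‖ ≤ 1 / 4 * ‖y - y'‖) ∧
      (∀ y, (¬ ∃ x ∈ Y, ‖y - x‖ ≤ μ) → T y = 0) ∧
      (∀ y, (∃ x ∈ Y, ‖y - x‖ ≤ μ / 2) → T y = B y + k) ∧
      ∀ y, (∃ x ∈ Y, ‖y - x‖ ≤ μ) → ‖T y‖ ≤ μ / 16 := by
  obtain ⟨χ, h01, hL, h0, h1⟩ := Xi_cut Y μ hY hμ
  have key : ∀ y y', (∃ x ∈ Y, ‖y - x‖ ≤ μ) →
      ‖χ y • (B y + k) - χ y' • (B y' + k)‖ ≤ 1 / 4 * ‖y - y'‖ := by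
    intro y y' hy
    have e : χ y • (B y + k) - χ y' • (B y' + k)
        = (χ y - χ y') • (B y + k) + χ y' • B (y - y') := by
      rw [map_sub]; module
    rw [e]
    refine (norm_add_le _ _).trans ?_
    rw [norm_smul, norm_smul, Real.norm_eq_abs, Real.norm_eq_abs, abs_of_nonneg (h01 y').1]
    have a1 : |χ y - χ y'| * ‖B y + k‖ ≤ (2 / μ * ‖y - y'‖) * (μ / 16) :=
      mul_le_mul (hL y y') (ha y hy) (norm_nonneg _) (by positivity)
    have a2 : (2 / μ * ‖y - y'‖) * (μ / 16) = 1 / 8 * ‖y - y'‖ := by field_simp; ring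
    have a3 : ‖B (y - y')‖ ≤ 1 / 8 * ‖y - y'‖ :=
      (B.le_opNorm _).trans (mul_le_mul_of_nonneg_right hB (norm_nonneg _))
    have a4 : χ y' * ‖B (y - y')‖ ≤ 1 * ‖B (y - y')‖ :=
      mul_le_mul_of_nonneg_right (h01 y').2 (norm_nonneg _)
    linarith only [a1, a2, a3, a4]
  refine ⟨fun y => χ y • (B y + k), fun y y' => ?_, fun y hy => ?_, fun y hy => ?_,
    fun y hy => ?_⟩
  · by_cases hy : ∃ x ∈ Y, ‖y - x‖ ≤ μ
    · exact key y y' hy
    by_cases hy' : ∃ x ∈ Y, ‖y' - x‖ ≤ μ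
    · rw [norm_sub_rev, norm_sub_rev y]; exact key y' y hy'
    · simp only [h0 y hy, h0 y' hy', zero_smul, sub_self, norm_zero]; positivity
  · simp only [h0 y hy, zero_smul]
  · simp only [h1 y hy, one_smul]
  · show ‖χ y • (B y + k)‖ ≤ μ / 16
    rw [norm_smul, Real.norm_eq_abs, abs_of_nonneg (h01 y).1]
    have a4 : χ y * ‖B y + k‖ ≤ 1 * ‖B y + k‖ :=
      mul_le_mul_of_nonneg_right (h01 y).2 (norm_nonneg _)
    linarith only [a4, ha, hy, ha y hy]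

theorem Xi_inj (T : Rn 3 → Rn 3) (hT : ∀ y y', ‖T y - T y'‖ ≤ 1 / 2 * ‖y - y'‖) :
    Injective fun y => y + T y := by
  intro y y' h
  have h' : y + T y = y' + T y' := h
  have e : y - y' = -(T y - T y') := by
    rw [neg_sub, sub_eq_sub_iff_add_eq_add, h', add_comm]
  have h1 := hT y y'
  have h2 : ‖y - y'‖ = ‖T y - T y'‖ := by rw [e, norm_neg]
  have h3 : ‖y - y'‖ ≤ 0 := by linarith only [h1, h2]
  exact sub_eq_zero.1 (norm_le_zero_iff.1 h3)

theorem Xi_bij (T : Rn 3 → Rn 3) (hT : ∀ y y', ‖T y - T y'‖ ≤ 1 / 2 * ‖y - y'‖) :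
    Bijective fun y => y + T y := by
  refine ⟨Xi_inj T hT, fun z => ?_⟩
  have hc : ContractingWith (1 / 2 : ℝ≥0) fun y => z - T y := by
    refine ⟨by norm_num, LipschitzWith.of_dist_le_mul fun y y' => ?_⟩
    rw [dist_eq_norm, dist_eq_norm, sub_sub_sub_cancel_left, norm_sub_rev]
    simpa using hT y y'
  refine ⟨hc.fixedPoint, ?_⟩
  have h : z - T hc.fixedPoint = hc.fixedPoint := hc.fixedPoint_isFixedPt
  show hc.fixedPoint + T hc.fixedPoint = z
  exact (sub_eq_iff_eq_add.1 h).symm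

theorem exists_xi {ι : Type} [Finite ι] (Y : ι → Set (Rn 3)) (μ : ι → ℝ)
    (B : ι → Rn 3 →L[ℝ] Rn 3) (k : ι → Rn 3) (hY : ∀ i, IsCompact (Y i)) (hμ : ∀ i, 0 < μ i)
    (hB : ∀ i, ‖B i‖ ≤ 1 / 8)
    (ha : ∀ i y, (∃ x ∈ Y i, ‖y - x‖ ≤ μ i) → ‖B i y + k i‖ ≤ μ i / 16)
    (hd : ∀ i j, i ≠ j → ∀ y, (∃ x ∈ Y i, ‖y - x‖ ≤ μ i) → ¬ ∃ x ∈ Y j, ‖y - x‖ ≤ μ j) :
    ∃ Ξ : Rn 3 → Rn 3, Bijective Ξ ∧ (∀ y y', ‖Ξ y - Ξ y'‖ ≤ 2 * ‖y - y'‖) ∧
      (∀ y, (∀ i, ¬ ∃ x ∈ Y i, ‖y - x‖ ≤ μ i) → Ξ y = y) ∧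
      (∀ i y, (∃ x ∈ Y i, ‖y - x‖ ≤ μ i / 2) → Ξ y = y + (B i y + k i)) ∧
      (∀ i y, (∃ x ∈ Y i, ‖y - x‖ ≤ μ i) → ‖Ξ y - y‖ ≤ μ i / 16) ∧
      ∀ i y, (∃ x ∈ Y i, ‖Ξ y - x‖ ≤ μ i) ↔ ∃ x ∈ Y i, ‖y - x‖ ≤ μ i := by
  classical
  haveI := Fintype.ofFinite ι
  choose T hL h0 h1 hs using fun i => Xi_term (Y i) (μ i) (B i) (k i) (hY i) (hμ i) (hB i) (ha i)
  have hin : ∀ i y, (∃ x ∈ Y i, ‖y - x‖ ≤ μ i) → ∑ j, T j y = T i y := fun i y hy =>
    Finset.sum_eq_single i (fun j _ hj => h0 j y (hd i j (Ne.symm hj) y hy))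
      (fun h => absurd (Finset.mem_univ i) h)
  have hout : ∀ y, (∀ i, ¬ ∃ x ∈ Y i, ‖y - x‖ ≤ μ i) → ∑ j, T j y = 0 := fun y hy =>
    Finset.sum_eq_zero fun j _ => h0 j y (hy j)
  have hone : ∀ i y y', (∃ x ∈ Y i, ‖y - x‖ ≤ μ i) → (∀ j, ¬ ∃ x ∈ Y j, ‖y' - x‖ ≤ μ j) →
      ‖∑ j, T j y - ∑ j, T j y'‖ ≤ 1 / 2 * ‖y - y'‖ := by
    intro i y y' hy hy'
    rw [hin i y hy, hout y' hy', ← h0 i y' (hy' i)]
    linarith only [hL, hL i y y', norm_nonneg (y - y')]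
  have hS : ∀ y y', ‖∑ j, T j y - ∑ j, T j y'‖ ≤ 1 / 2 * ‖y - y'‖ := by
    intro y y'
    by_cases hy : ∃ i, ∃ x ∈ Y i, ‖y - x‖ ≤ μ i
    · obtain ⟨i, hi⟩ := hy
      by_cases hy' : ∃ j, ∃ x ∈ Y j, ‖y' - x‖ ≤ μ j
      · obtain ⟨j, hj⟩ := hy'
        rw [hin i y hi, hin j y' hj]
        by_cases hij : i = j
        · subst hij
          linarith only [hL, hL i y y', norm_nonneg (y - y')]
        · have e : T i y - T j y' = (T i y - T i y') + (T j y - T j y') := by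
            rw [h0 i y' (hd j i (Ne.symm hij) y' hj), h0 j y (hd i j hij y hi)]
            simp only [sub_zero, zero_sub, sub_eq_add_neg, neg_zero, add_zero, zero_add]
          rw [e]
          linarith only [hL, norm_add_le (T i y - T i y') (T j y - T j y'), hL i y y', hL j y y']
      · exact hone i y y' hi (not_exists.1 hy')
    · by_cases hy' : ∃ j, ∃ x ∈ Y j, ‖y' - x‖ ≤ μ j
      · obtain ⟨j, hj⟩ := hy'
        rw [norm_sub_rev, norm_sub_rev y]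
        exact hone j y' y hj (not_exists.1 hy)
      · rw [hout y (not_exists.1 hy), hout y' (not_exists.1 hy'), sub_self, norm_zero]
        positivity
  have hmaps : ∀ i y, (∃ x ∈ Y i, ‖y - x‖ ≤ μ i) →
      ∃ x ∈ Y i, ‖(y + ∑ j, T j y) - x‖ ≤ μ i := by
    intro i y hy
    rw [hin i y hy]
    by_contra hc
    have hi : Injective fun y => y + T i y :=
      Xi_inj (T i) fun a b => by linarith only [hL, hL i a b, norm_nonneg (a - b)]
    have e : (y + T i y) + T i (y + T i y) = y + T i y := by rw [h0 i _ hc, add_zero]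
    have e' : y + T i y = y := hi e
    rw [e'] at hc
    exact hc hy
  refine ⟨fun y => y + ∑ j, T j y, Xi_bij _ hS, fun y y' => ?_, fun y hy => ?_, fun i y hy => ?_,
    fun i y hy => ?_, fun i y => ⟨fun h => ?_, hmaps i y⟩⟩
  · have e : (y + ∑ j, T j y) - (y' + ∑ j, T j y') = (y - y') + (∑ j, T j y - ∑ j, T j y') := by
      abel
    show ‖(y + ∑ j, T j y) - (y' + ∑ j, T j y')‖ ≤ 2 * ‖y - y'‖
    rw [e]
    linarith only [hS, norm_add_le (y - y') (∑ j, T j y - ∑ j, T j y'), hS y y', norm_nonneg (y - y')]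
  · show y + ∑ j, T j y = y
    rw [hout y hy, add_zero]
  · show y + ∑ j, T j y = y + (B i y + k i)
    obtain ⟨x, hx, hxe⟩ := hy
    rw [hin i y ⟨x, hx, by linarith [hμ i]⟩, h1 i y ⟨x, hx, hxe⟩]
  · show ‖(y + ∑ j, T j y) - y‖ ≤ μ i / 16
    rw [add_sub_cancel_left, hin i y hy]
    exact hs i y hy
  · by_cases hy : ∃ j, ∃ x ∈ Y j, ‖y - x‖ ≤ μ j
    · obtain ⟨j, hj⟩ := hy
      by_cases hij : i = j
      · subst hij; exact hj
      · exact absurd (hmaps j y hj) (hd i j hij _ h)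
    · have h' : ∃ x ∈ Y i, ‖(y + ∑ j, T j y) - x‖ ≤ μ i := h
      rwa [hout y (not_exists.1 hy), add_zero] at h'

end BEp
end
end

-- merged part: Pool.Agent.Work.MP_f0515e_an.P3.Sel1
section
/-! Selection of chords, `I = {j}`. `ν = c (b h)^2 ∑ z, length on icl z` over the cells in `O`
(the boxes `bx z` are disjoint up to null sets, have volume `b^2 h^3` and lie in the cube, so the
mass is at most `8 c η^3`). A tile is kept if `A ≠ 0` and for all `R ∈ [t0/2, t0/2 + 3 ρ']` the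
integral of `‖D - A‖^p` over `Q u R` is less than `(lam/2)^p 2R`; then `ACs.sub_le` and Hoelder give
`Gd.cl`; `vit_count` on each cell counts the other tiles; `c = 10 (2/lam)^p`. -/

open Set Metric Filter Topology Function BEv MeasureTheory
open scoped NNReal ENNReal

noncomputable section
namespace BEp

theorem Sel1_vit (ψ : ℝ → ℝ≥0∞) {ι : Type} (T : Set ι) (c : ι → ℝ) {t0 ρ : ℝ} (ht : 0 < t0)
    (hs : ∀ u ∈ T, ∀ u' ∈ T, u ≠ u' → t0 ≤ |c u - c u'|) {lam : ℝ≥0∞}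
    (h : ∀ u ∈ T, ∃ R ∈ Icc (t0 / 2) ρ,
      lam * ENNReal.ofReal (2 * R) ≤ ∫⁻ x in Icc (c u - R) (c u + R), ψ x) :
    lam * (T.encard : ℝ≥0∞) * ENNReal.ofReal t0 ≤ 10 * ∫⁻ x, ψ x := by
  have mp := volume_preserving_funUnique Unit ℝ
  have he := (MeasurableEquiv.funUnique Unit ℝ).measurableEmbedding
  have key := vit_count (κ := Unit) (fun y => ψ (MeasurableEquiv.funUnique Unit ℝ y)) T
    (fun u _ => c u) (ρ := ρ) ht (fun u hu u' hu' hn => by
      refine (hs u hu u' hu' hn).trans ?_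
      have := norm_le_pi_norm ((fun _ : Unit => c u) - fun _ : Unit => c u') ()
      simpa using this) (lam := lam) (fun u hu => by
      obtain ⟨R, hR, h1⟩ := h u hu
      refine ⟨R, hR, ?_⟩
      have hR0 : 0 ≤ R := le_trans (by positivity) hR.1
      have e : closedBall (fun _ : Unit => c u) R =
          MeasurableEquiv.funUnique Unit ℝ ⁻¹' Icc (c u - R) (c u + R) := by
        ext y
        rw [mem_closedBall, dist_pi_le_iff hR0, mem_preimage, ← Real.closedBall_eq_Icc,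
          mem_closedBall]
        exact ⟨fun k => k (), fun k _ => k⟩
      rw [e, mp.setLIntegral_comp_preimage_emb he]
      simpa using h1)
  rw [mp.lintegral_comp_emb he] at key
  simpa using key

theorem Sel1_cl {f : Rn 3 → Rn 3} {D : Rn 3 → Rn 3 →L[ℝ] Rn 3} {a b : Rn 3} (h : ACs f D a b)
    (A : Rn 3 →L[ℝ] Rn 3) {p d σ R s : ℝ} (hp : 1 ≤ p) (hd : 0 < d) (hR : 0 ≤ R)
    (h0 : 0 ≤ σ - R) (h1 : σ + R ≤ 1) (hs : |s - σ| ≤ R)
    (hi : ∫⁻ t in Icc (σ - R) (σ + R), ‖D (seg a b t) - A‖ₑ ^ p ≤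
      ENNReal.ofReal d ^ p * ENNReal.ofReal (2 * R)) :
    ‖f (seg a b s) - f (seg a b σ) - A (seg a b s - seg a b σ)‖ ≤ ‖b - a‖ * (4 * d * R) := by
  have key : ∀ x : ℝ≥0∞, x ≤ ENNReal.ofReal d + ENNReal.ofReal (d ^ (1 - p)) * x ^ p := fun x => by
    simpa using young hp hd (g := fun _ => x) measurable_const
  have hI : ∫⁻ t in Icc (σ - R) (σ + R), ‖D (seg a b t) - A‖ₑ ≤ ENNReal.ofReal (4 * d * R) := by
    refine (lintegral_mono fun t => key _).trans ?_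
    rw [lintegral_add_left measurable_const, lintegral_const_mul' _ _ ENNReal.ofReal_ne_top,
      setLIntegral_const, Real.volume_Icc]
    refine (add_le_add le_rfl (mul_le_mul_right hi _)).trans (le_of_eq ?_)
    have e1 : d ^ (1 - p) * d ^ p = d := by
      rw [← Real.rpow_add hd, sub_add_cancel, Real.rpow_one]
    rw [ENNReal.ofReal_rpow_of_pos hd, ← mul_assoc,
      ← ENNReal.ofReal_mul (Real.rpow_pos_of_pos hd _).le, e1, ← ENNReal.ofReal_mul hd.le,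
      ← ENNReal.ofReal_mul hd.le,
      ← ENNReal.ofReal_add (mul_nonneg hd.le (by linarith)) (by positivity)]
    congr 1
    ring
  have fin : ∀ s s', σ - R ≤ s → s ≤ s' → s' ≤ σ + R →
      ‖f (seg a b s') - f (seg a b s) - A (seg a b s' - seg a b s)‖ ≤ ‖b - a‖ * (4 * d * R) := by
    intro s s' k1 k2 k3
    have k := (h.sub_le A (h0.trans k1) k2 (k3.trans h1)).trans
      (mul_le_mul_right ((lintegral_mono_set (Icc_subset_Icc k1 k3)).trans hI) _)
    rw [← ofReal_norm, ← ofReal_norm, ← ENNReal.ofReal_mul (norm_nonneg _),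
      ENNReal.ofReal_le_ofReal_iff (by positivity)] at k
    exact k
  obtain ⟨s1, s2⟩ := abs_le.1 hs
  rcases le_total σ s with k | k
  · exact fin σ s (by linarith) k (by linarith)
  · have k2 := fin s σ (by linarith) k (by linarith)
    rw [← norm_neg]
    refine le_trans (le_of_eq ?_) k2
    congr 1
    simp only [map_sub]
    abel

theorem Sel1_cnt {C : Cu} {aK : ℝ} (h : C.Ok aK) (hc : C.I.card = 1) (Z : Finset I3)
    (hZ : ∀ z ∈ Z, C.icl z ⊆ C.O) :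
    (Z.card : ℝ≥0∞) * ENNReal.ofReal ((C.b * C.h) ^ 2 * C.h) ≤ 8 * ENNReal.ofReal (C.η ^ 3) := by
  obtain ⟨hη, hh, -⟩ := h.pos
  have hv : ∀ z, volume (C.X '' cu z) = ENNReal.ofReal ((C.b * C.h) ^ 2 * C.h) := by
    intro z
    have k := h.lintX (cu z) fun _ => 1
    have e : cu z = Set.pi univ fun i => Ioo (z i : ℝ) (z i + 1) := by
      ext ξ
      simp [cu]
    have e2 : volume (cu z) = 1 := by
      rw [e, Real.volume_pi_Ioo]
      simp
    rw [setLIntegral_one, setLIntegral_one, e2, mul_one, hc] at k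
    rw [k]
    congr 1
    ring
  have hinj : Injective C.X := LeftInverse.injective h.Xξ.2.1
  have hdis : (Z : Set I3).PairwiseDisjoint fun z => C.X '' cu z := by
    intro z _ z' _ hn
    refine disjoint_image_of_injective hinj (Set.disjoint_left.2 fun ξ k1 k2 => hn ?_)
    funext i
    have a1 : (z i : ℝ) < z' i + 1 := (k1 i).1.trans (k2 i).2
    have a2 : (z' i : ℝ) < z i + 1 := (k2 i).1.trans (k1 i).2
    have b1 : z i < z' i + 1 := by exact_mod_cast a1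
    have b2 : z' i < z i + 1 := by exact_mod_cast a2
    omega
  have hm : ∀ z ∈ Z, MeasurableSet (C.X '' cu z) := fun z _ => by
    rw [← (h.bx_prop z).2.2.1]
    exact isOpen_interior.measurableSet
  have hsub : (⋃ z ∈ Z, C.X '' cu z) ⊆ ball C.o C.η := by
    refine iUnion₂_subset fun z hz => ?_
    have k0 : C.X (fun i => z i) ∈ C.icl z :=
      h.mem_icl.2 ⟨fun _ _ => rfl, fun _ _ => ⟨le_rfl, by linarith⟩⟩
    rw [← (h.bx_prop z).2.2.1]
    exact interior_subset.trans ((hZ z hz k0 z k0.1).trans (ball_subset_ball (by linarith)))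
  have k := measure_mono (μ := volume) hsub
  rw [measure_biUnion_finset hdis hm, Real.volume_pi_ball _ hη] at k
  simp only [hv, Finset.sum_const, nsmul_eq_mul, Fintype.card_fin] at k
  refine k.trans (le_of_eq ?_)
  rw [mul_pow, ENNReal.ofReal_mul (by norm_num)]
  congr 1
  norm_num

theorem Sel1_ctr {C : Cu} {j : Fin 3} (hj : C.I = {j}) (hh : 0 < C.h) (u : I3 × I3) :
    C.ctr u = seg (C.X fun i => u.1 i) (C.X (fun i => u.1 i) + C.h • (Pi.single j 1 : Rn 3))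
      ((u.2 j + 1 / 2) * C.t0 / C.h) := by
  funext i
  simp only [Cu.ctr, seg, prL, hj, add_sub_cancel_left, Pi.add_apply, Pi.smul_apply, smul_eq_mul,
    ContinuousLinearMap.pi_apply, Finset.mem_singleton]
  by_cases hi : i = j
  · subst hi
    simp only [if_true, ContinuousLinearMap.proj_apply, Pi.single_eq_same]
    field_simp
  · simp [hi]

theorem Sel1_seg {C : Cu} {aK : ℝ} (h : C.Ok aK) {j : Fin 3} (hj : C.I = {j}) {z : I3}
    (hz : C.icl z ⊆ C.O) {t : ℝ} (ht : t ∈ Icc (0 : ℝ) 1) :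
    seg (C.X fun i => z i) (C.X (fun i => z i) + C.h • (Pi.single j 1 : Rn 3)) t ∈ C.q := by
  obtain ⟨hη, hh, -⟩ := h.pos
  refine (ball_subset_closedBall.trans (closedBall_subset_closedBall (by linarith)))
    (h.O_prop.2.1 (hz (h.mem_icl.2 ⟨fun i hi => ?_, fun i hi => ?_⟩)))
  · rw [hj, Finset.mem_singleton] at hi
    simp [seg, hi]
  · rw [hj, Finset.mem_singleton] at hi
    subst hi
    simp only [seg, add_sub_cancel_left, Pi.add_apply, Pi.smul_apply, smul_eq_mul,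
      Pi.single_eq_same, mul_one]
    constructor <;> linarith only [hh, ht, ht.1, ht.2, mul_nonneg_of_nonpos_of_nonpos (le_of_lt (Mathlib.Tactic.Linarith.sub_neg_of_lt hh)) (Mathlib.Tactic.Linarith.sub_nonpos_of_le ht.left), mul_nonneg_of_nonpos_of_nonpos (le_of_lt (Mathlib.Tactic.Linarith.sub_neg_of_lt hh)) (Mathlib.Tactic.Linarith.sub_nonpos_of_le ht.right)]

theorem Sel1_gd {C : Cu} {aK : ℝ} (h : C.Ok aK) {j : Fin 3} (hj : C.I = {j}) {p : ℝ} (hp : 1 ≤ p)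
    {f : Rn 3 → Rn 3} {D : Rn 3 → Rn 3 →L[ℝ] Rn 3} {u : I3 × I3} (hu : u ∈ C.Adm) {a b : Rn 3}
    (ha : a = C.X fun i => u.1 i) (hb : b = a + C.h • (Pi.single j 1 : Rn 3)) (hf : ACs f D a b)
    {σ : ℝ} (hσ : σ = (u.2 j + 1 / 2) * C.t0 / C.h)
    (hi : ∀ R ∈ Icc (C.t0 / C.h / 2) ((C.t0 / 2 + 3 * C.ρ') / C.h),
      ∫⁻ t in Icc (σ - R) (σ + R), ‖D (seg a b t) - C.A‖ₑ ^ p ≤
        ENNReal.ofReal (C.lam / 4) ^ p * ENNReal.ofReal (2 * R))
    {x : Rn 3} (hx : x ∈ C.Q u (C.t0 / 2 + 3 * C.ρ')) :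
    ‖f x - C.aff0 f u x‖ ≤ C.lam * max C.t0 ‖x - C.ctr u‖ := by
  obtain ⟨hη, hh, hs, ht0, -, hρ, -⟩ := h.pos
  have hl := h.lam0
  obtain ⟨x1, x2⟩ := (Cu.mem_Q (by positivity)).1 hx
  have hc : C.ctr u = seg a b σ := by
    rw [hb, ha, hσ]
    exact Sel1_ctr hj hh u
  obtain ⟨a1, a2⟩ := hu.2.2 j (by rw [hj]; exact Finset.mem_singleton_self j)
  obtain ⟨m, hm⟩ : ∃ m, m = max (C.t0 / 2) ‖x - C.ctr u‖ := ⟨_, rfl⟩
  have m1 : C.t0 / 2 ≤ m := hm ▸ le_max_left _ _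
  have m2 : ‖x - C.ctr u‖ ≤ m := hm ▸ le_max_right _ _
  have m3 : m ≤ C.t0 / 2 + 3 * C.ρ' := hm ▸ max_le (by linarith only [hρ]) x2
  have m4 : m ≤ max C.t0 ‖x - C.ctr u‖ := hm ▸ max_le_max (by linarith only [ht0]) le_rfl
  have hxs : x = seg a b (σ + (x j - C.ctr u j) / C.h) := by
    have e : seg a b (σ + (x j - C.ctr u j) / C.h) =
        seg a b σ + (x j - C.ctr u j) • (Pi.single j 1 : Rn 3) := by
      simp only [seg, hb, add_sub_cancel_left, smul_smul, add_assoc, ← add_smul]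
      congr 2
      field_simp
    rw [e, ← hc]
    funext i
    by_cases hi : i = j
    · subst hi
      simp
    · rw [x1 i (by rw [hj, Finset.mem_singleton]; exact hi)]
      simp [hi]
  have hn : ‖b - a‖ = C.h := by
    rw [hb, add_sub_cancel_left, norm_smul, Pi.norm_single, norm_one, mul_one,
      Real.norm_of_nonneg hh.le]
  have k := Sel1_cl hf C.A (σ := σ) (R := m / C.h) (s := σ + (x j - C.ctr u j) / C.h) hp
    (d := C.lam / 4) (by positivity) (div_nonneg (by linarith only [ht0, m1]) hh.le)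
    (by rw [hσ, ← sub_div]; exact div_nonneg (by linarith only [a1, m3]) hh.le)
    (by rw [hσ, ← add_div, div_le_one hh]; linarith only [a2, m3])
    (by
      rw [add_sub_cancel_left, abs_div, abs_of_pos hh]
      exact div_le_div_of_nonneg_right ((norm_le_pi_norm (x - C.ctr u) j).trans m2) hh.le)
    (hi _ ⟨by rw [div_right_comm]; exact div_le_div_of_nonneg_right m1 hh.le,
      div_le_div_of_nonneg_right m3 hh.le⟩)
  rw [← hxs, ← hc, hn] at k
  have e : f x - C.aff0 f u x = f x - f (C.ctr u) - C.A (x - C.ctr u) := by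
    rw [Cu.aff0, sub_sub]
  rw [e]
  refine k.trans (le_trans (le_of_eq ?_) (mul_le_mul_of_nonneg_left m4 hl.le))
  field_simp

theorem Sel1_unk {C : Cu} {aK : ℝ} (h : C.Ok aK) {j : Fin 3} (hj : C.I = {j}) {lp : ℝ≥0∞}
    (l0 : lp ≠ 0) (l1 : lp ≠ ⊤) (φ : ℝ → ℝ≥0∞) {T : Set (I3 × I3)} (hT : T ⊆ C.Adm) {z : I3}
    (hz : ∀ u ∈ T, u.1 = z)
    (hi : ∀ u ∈ T, ∃ R ∈ Icc (C.t0 / C.h / 2) ((C.t0 / 2 + 3 * C.ρ') / C.h),
      lp * ENNReal.ofReal (2 * R) ≤ ∫⁻ t in Icc ((u.2 j + 1 / 2) * C.t0 / C.h - R)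
        ((u.2 j + 1 / 2) * C.t0 / C.h + R), φ t) :
    (T.encard : ℝ≥0∞) * ENNReal.ofReal C.tv ≤
      10 * lp⁻¹ * ENNReal.ofReal ((C.b * C.h) ^ 2 * C.h) * ∫⁻ t in Icc (0 : ℝ) 1, φ t := by
  obtain ⟨hη, hh, hs, ht0, -, hρ, -⟩ := h.pos
  have k := Sel1_vit ((Icc (0 : ℝ) 1).indicator φ) T (fun u => (u.2 j + 1 / 2) * C.t0 / C.h)
    (t0 := C.t0 / C.h) (ρ := (C.t0 / 2 + 3 * C.ρ') / C.h) (by positivity)
    (fun u hu u' hu' hn => by
      have k1 : u.2 j ≠ u'.2 j := fun k => hn (Prod.ext ((hz u hu).trans (hz u' hu').symm)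
        (funext fun i => by
          by_cases hi : i = j
          · rw [hi, k]
          · have k2 : i ∉ C.I := by rw [hj, Finset.mem_singleton]; exact hi
            rw [(hT hu).2.1 i k2, (hT hu').2.1 i k2]))
      have k2 : (1 : ℝ) ≤ |(u.2 j : ℝ) - u'.2 j| := by
        exact_mod_cast Int.one_le_abs (sub_ne_zero.2 k1)
      have e : (u.2 j + 1 / 2) * C.t0 / C.h - (u'.2 j + 1 / 2) * C.t0 / C.h =
          ((u.2 j : ℝ) - u'.2 j) * (C.t0 / C.h) := by ring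
      rw [e, abs_mul, abs_of_pos (by positivity : 0 < C.t0 / C.h)]
      exact le_mul_of_one_le_left (by positivity) k2) (lam := lp)
    (fun u hu => by
      obtain ⟨R, hR, k1⟩ := hi u hu
      refine ⟨R, hR, k1.trans (le_of_eq ?_)⟩
      obtain ⟨a1, a2⟩ := (hT hu).2.2 j (by rw [hj]; exact Finset.mem_singleton_self j)
      refine setLIntegral_congr_fun measurableSet_Icc fun t ht => (indicator_of_mem ?_ φ).symm
      have b1 : 0 ≤ (u.2 j + 1 / 2) * C.t0 / C.h - (C.t0 / 2 + 3 * C.ρ') / C.h := by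
        rw [← sub_div]; exact div_nonneg (by linarith only [a1]) hh.le
      have b2 : (u.2 j + 1 / 2) * C.t0 / C.h + (C.t0 / 2 + 3 * C.ρ') / C.h ≤ 1 := by
        rw [← add_div, div_le_one hh]; linarith only [a2]
      exact ⟨by linarith only [b1, ht, hR, ht.1, hR.2], by linarith only [b2, ht, hR, ht.2, hR.2]⟩)
  rw [lintegral_indicator measurableSet_Icc] at k
  have e : ENNReal.ofReal C.tv =
      ENNReal.ofReal (C.t0 / C.h) * ENNReal.ofReal ((C.b * C.h) ^ 2 * C.h) := by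
    rw [← ENNReal.ofReal_mul (by positivity), Cu.tv, hj, Finset.card_singleton]
    congr 1
    field_simp
    norm_num [mul_pow]
  have k2 := mul_le_mul_right k (lp⁻¹ * ENNReal.ofReal ((C.b * C.h) ^ 2 * C.h))
  refine le_trans (le_of_eq ?_) (k2.trans (le_of_eq (by ring)))
  calc (T.encard : ℝ≥0∞) * ENNReal.ofReal C.tv
      = (lp⁻¹ * lp) * ((T.encard : ℝ≥0∞) * ENNReal.ofReal C.tv) := by
        rw [ENNReal.inv_mul_cancel l0 l1, one_mul]
    _ = _ := by rw [e]; ring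

theorem Sel1_main {C : Cu} {aK : ℝ} (h : C.Ok aK) {j : Fin 3} (hj : C.I = {j}) {p : ℝ}
    (hp : 1 ≤ p) {Ω : Set (Rn 3)} (K : Kx Ω) :
    C.SelP p (80 * (ENNReal.ofReal (C.lam / 4) ^ p)⁻¹) K := by
  classical
  have hl := h.lam0
  have hc : C.I.card = 1 := by rw [hj, Finset.card_singleton]
  obtain ⟨hη, hh, hs, ht0, -, hρ, -, -, hb8, -⟩ := h.pos
  obtain ⟨lp, hlp⟩ : ∃ lp, lp = ENNReal.ofReal (C.lam / 4) ^ p := ⟨_, rfl⟩
  have l0 : lp ≠ 0 := by
    rw [hlp]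
    exact (ENNReal.rpow_pos (ENNReal.ofReal_pos.2 (by positivity)) ENNReal.ofReal_ne_top).ne'
  have l1 : lp ≠ ⊤ := by
    rw [hlp]
    exact ENNReal.rpow_ne_top_of_nonneg (by linarith only [hp]) ENNReal.ofReal_ne_top
  obtain ⟨Z, hZ⟩ : ∃ Z : Finset I3, ∀ z, z ∈ Z ↔ C.icl z ⊆ C.O :=
    ⟨h.O_prop.2.2.2.2.2.1.toFinset, fun z => Finite.mem_toFinset _⟩
  obtain ⟨a, ha⟩ : ∃ a : I3 → Rn 3, ∀ z, a z = C.X fun i => z i := ⟨_, fun _ => rfl⟩
  obtain ⟨b, hb⟩ : ∃ b : I3 → Rn 3, ∀ z, b z = a z + C.h • (Pi.single j 1 : Rn 3) :=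
    ⟨_, fun _ => rfl⟩
  obtain ⟨c, hcc⟩ : ∃ c, c = 10 * lp⁻¹ * ENNReal.ofReal ((C.b * C.h) ^ 2 * C.h) := ⟨_, rfl⟩
  have c0 : c ≠ 0 := by
    rw [hcc]
    exact mul_ne_zero (mul_ne_zero (by norm_num) (ENNReal.inv_ne_zero.2 l1))
      (ENNReal.ofReal_pos.2 (by positivity)).ne'
  have hms : ∀ z, Measurable (seg (a z) (b z)) := fun z => by
    unfold seg
    fun_prop
  have hq : ∀ z ∈ Z, ∀ t ∈ Icc (0 : ℝ) 1, seg (a z) (b z) t ∈ C.q := fun z hz t ht => by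
    rw [hb, ha]
    exact Sel1_seg h hj ((hZ z).1 hz) ht
  obtain ⟨ν, hν⟩ : ∃ ν : Measure (Rn 3), ∀ φ : Rn 3 → ℝ≥0∞, Measurable φ →
      ∫⁻ y, φ y ∂ν = c * ∑ z ∈ Z, ∫⁻ t in Icc (0 : ℝ) 1, φ (seg (a z) (b z) t) := by
    refine ⟨c • ∑ z ∈ Z, (volume.restrict (Icc (0 : ℝ) 1)).map (seg (a z) (b z)), fun φ hφ => ?_⟩
    rw [lintegral_smul_measure, lintegral_finsetSum_measure, smul_eq_mul]
    congr 1
    exact Finset.sum_congr rfl fun z _ => lintegral_map hφ (hms z)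
  have hqm : MeasurableSet C.qᶜ := isClosed_closedBall.measurableSet.compl
  refine ⟨ν, ?_, ?_, fun f D v hf hD hv hU hfin => ?_⟩
  · rw [← lintegral_indicator_one hqm, hν _ (measurable_one.indicator hqm)]
    refine mul_eq_zero_of_right _ (Finset.sum_eq_zero fun z hz => ?_)
    rw [setLIntegral_congr_fun (g := fun _ => 0) measurableSet_Icc fun t ht =>
      indicator_of_notMem (notMem_compl_iff.2 (hq z hz t ht)) _]
    exact lintegral_zero
  · rw [← lintegral_one, hν _ measurable_const, ← hlp]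
    have k := mul_le_mul_right (Sel1_cnt h hc Z fun z hz => (hZ z).1 hz) (10 * lp⁻¹)
    refine le_trans (le_of_eq ?_) (k.trans (le_of_eq (by ring)))
    simp only [setLIntegral_one, Real.volume_Icc, sub_zero, ENNReal.ofReal_one, Finset.sum_const,
      nsmul_eq_mul, mul_one, hcc]
    ring
  have hAC : ∀ z ∈ Z, ACs f D (a z) (b z) := by
    intro z hz
    refine hU _ _ ?_ ?_
    · rw [segment_eq_image']
      rintro _ ⟨t, ht, rfl⟩
      exact hq z hz t ht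
    · rw [hν v hv] at hfin
      have k := ENNReal.lt_top_of_mul_ne_top_right hfin c0
      exact (lt_of_le_of_lt (Finset.single_le_sum
        (f := fun z => ∫⁻ t in Icc (0 : ℝ) 1, v (seg (a z) (b z) t)) (fun _ _ => zero_le) hz) k).ne
  obtain ⟨kp, hkp⟩ : ∃ kp : Set (I3 × I3), ∀ u, u ∈ kp ↔ u ∈ C.Adm ∧ C.A ≠ 0 ∧
      ∀ R ∈ Icc (C.t0 / C.h / 2) ((C.t0 / 2 + 3 * C.ρ') / C.h),
        ∫⁻ t in Icc ((u.2 j + 1 / 2) * C.t0 / C.h - R) ((u.2 j + 1 / 2) * C.t0 / C.h + R),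
          ‖D (seg (a u.1) (b u.1) t) - C.A‖ₑ ^ p ≤ lp * ENNReal.ofReal (2 * R) :=
    ⟨{u | _}, fun u => Iff.rfl⟩
  refine ⟨kp, fun u hu => ?_, fun hA => ?_⟩
  · obtain ⟨k1, k2, k3⟩ := (hkp u).1 hu
    refine ⟨k1, k2, fun x hx => ?_, fun k => absurd k (by rw [hc]; norm_num)⟩
    have k4 := hx.2
    rw [hc, if_neg (by norm_num)] at k4
    exact Sel1_gd h hj hp k1 (ha _) (hb _) (hAC _ ((hZ _).2 k1.1)) rfl (hlp ▸ k3) k4
  have hmD : Measurable fun y => ‖D y - C.A‖ₑ ^ p := (hD.sub measurable_const).enorm.pow_const p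
  rw [hν _ hmD, Finset.mul_sum, Cu.unk]
  have e : C.Adm \ kp = ⋃ z ∈ Z, {u | u ∈ C.Adm \ kp ∧ u.1 = z} := by
    ext u
    simp only [mem_iUnion, mem_ofPred_eq, exists_prop]
    exact ⟨fun k => ⟨u.1, (hZ _).2 k.1.1, k, rfl⟩, fun ⟨_, _, k, _⟩ => k⟩
  have k1 : ((C.Adm \ kp).encard : ℝ≥0∞) ≤
      ∑ z ∈ Z, (({u | u ∈ C.Adm \ kp ∧ u.1 = z} : Set (I3 × I3)).encard : ℝ≥0∞) := by
    have k := Z.set_encard_biUnion_le fun z => {u : I3 × I3 | u ∈ C.Adm \ kp ∧ u.1 = z}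
    rw [← e] at k
    exact (ENat.toENNReal_le.2 k).trans (le_of_eq (map_sum ENat.toENNRealRingHom _ _))
  refine (mul_le_mul_left k1 _).trans ?_
  rw [Finset.sum_mul]
  refine Finset.sum_le_sum fun z _ => ?_
  rw [hcc]
  refine Sel1_unk h hj l0 l1 _ (fun u hu => hu.1.1) (fun u hu => hu.2) fun u hu => ?_
  have k2 := hu.1.2
  rw [hkp] at k2
  push Not at k2
  obtain ⟨R, hR, k3⟩ := k2 hu.1.1 hA
  rw [hu.2] at k3
  exact ⟨R, hR, k3.le⟩

theorem sel_rk1 {p : ℝ} (hp : 2 < p) (T : Ty) (hc : T.I.card = 1) : ∃ Cs : ℝ≥0∞, Cs ≠ ⊤ ∧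
    ∀ (C : Cu) (aK : ℝ) (Ω : Set (Rn 3)) (K : Kx Ω) (ch : Set (Rn 3) → Ch) (w : Set (Rn 3) → ℝ),
      C.toTy = T → C.Ok aK → C.Fit aK K ch w → C.SelP p Cs K := by
  by_cases hl : 0 < T.lam
  · refine ⟨80 * (ENNReal.ofReal (T.lam / 4) ^ p)⁻¹, ENNReal.mul_ne_top (by norm_num)
      (ENNReal.inv_ne_top.2 (ENNReal.rpow_pos (ENNReal.ofReal_pos.2 (by positivity))
        ENNReal.ofReal_ne_top).ne'), fun C aK Ω K ch w hT hok _ => ?_⟩
    subst hT
    obtain ⟨j, hj⟩ := Finset.card_eq_one.1 hc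
    exact Sel1_main hok hj (by linarith only [hp]) K
  · refine ⟨0, ENNReal.zero_ne_top, fun C aK Ω K ch w hT hok _ => ?_⟩
    subst hT
    exact absurd hok.lam0 hl

end BEp
end
end
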