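import Pool.Agent.Work.MP_f0515e_an.P3.SCtx
import Pool.Agent.Work.MP_f0515e_an.D3.NLn
import Pool.Agent.Work.MP_f0515e_an.D3.O1

-- merged part: Pool.Agent.Work.MP_f0515e_an.P3.SH1
section
-- merged part: Pool.Agent.Work.MP_f0515e_an.P3.SH1
section
/-! Length measure on lines, Jensen, change of variables.
Plan.  `lint_line`: for `w = 0` the set is at most a point; else `t ↦ o + t • w` is a measurable embedding and maps `‖w‖ • volume` to `μH[1]` restricted to the line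
(`hausdorffMeasure_lineMap_image`, `hausdorffMeasure_real`, `Measure.ext`, `MeasurableEmbedding.lintegral_map`, `restrict_map`).  `lint_seg`: `seg_image_open`, `Ioo_ae_eq_Icc`.
`lint_aff`: `Real.map_volume_mul_left` and translation invariance, or `lintegral_image_eq_lintegral_abs_deriv_mul`.
`fr_fin`: the frontier lies in the four sides of the square and the diagonal (`hausdorffMeasure_segment`).
`lint_pull`: `φ` is antilipschitz (`LinearMap.exists_antilipschitzWith`), `AntilipschitzWith.hausdorffMeasure_preimage_le`, so `map φ μH[1] ≤ k • μH[1]`, `lintegral_map`.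
`jensen1`: `ENNReal.lintegral_mul_le_Lp_mul_Lq` or `eLpNorm_le_eLpNorm_mul_rpow_measure_univ`.  `add_rpow4`: `ENNReal.add_rpow_le_two_rpow_mul_rpow_add_rpow`-like lemmas (`ENNReal.rpow_add_le_mul_rpow_add_rpow`). -/

open Set Metric Filter Topology Function BEv MeasureTheory
open scoped NNReal ENNReal

noncomputable section
namespace BEp

variable {n : ℕ}

theorem SH1_img (o w : Rn n) (S : Set ℝ) :
    μH[1] ((fun t : ℝ => o + t • w) '' S) = ‖w‖ₑ * volume S := by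
  have e : (fun t : ℝ => o + t • w) = AffineMap.lineMap o (o + w) := by
    ext1 t
    rw [AffineMap.lineMap_apply, vsub_eq_sub, add_sub_cancel_left, vadd_eq_add, add_comm]
  rw [e, hausdorffMeasure_lineMap_image, hausdorffMeasure_real, nndist_eq_nnnorm_neg_add,
    neg_add_cancel_left]
  rfl

theorem lint_line (o w : Rn n) {S : Set ℝ} (hS : MeasurableSet S) (g : Rn n → ℝ≥0∞) :
    ∫⁻ x in (fun t : ℝ => o + t • w) '' S, g x ∂μH[1] = ‖w‖ₑ * ∫⁻ t in S, g (o + t • w) := by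
  rcases eq_or_ne w 0 with rfl | hw
  · rw [setLIntegral_measure_zero _ _ (by rw [SH1_img, enorm_zero, zero_mul]), enorm_zero, zero_mul]
  have hf : MeasurableEmbedding fun t : ℝ => o + t • w :=
    ((Homeomorph.addLeft o).isClosedEmbedding.comp
      (isClosedEmbedding_smul_left hw)).measurableEmbedding
  have e : (μH[1] : Measure (Rn n)).restrict ((fun t : ℝ => o + t • w) '' S) =
      Measure.map (fun t : ℝ => o + t • w) (‖w‖ₑ • volume.restrict S) := by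
    ext s hs
    rw [Measure.restrict_apply hs, hf.map_apply, Measure.smul_apply,
      Measure.restrict_apply (hf.measurable hs), ← image_preimage_inter, SH1_img, smul_eq_mul]
  rw [e, hf.lintegral_map, lintegral_smul_measure, smul_eq_mul]

theorem lint_seg (a b : Rn n) (g : Rn n → ℝ≥0∞) :
    ∫⁻ x in openSegment ℝ a b, g x ∂μH[1] = ‖b - a‖ₑ * ∫⁻ t in Icc (0 : ℝ) 1, g (seg a b t) := by
  rw [← seg_image_open, ← setLIntegral_congr Ioo_ae_eq_Icc]
  exact lint_line a (b - a) measurableSet_Ioo g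

theorem meas_oseg (a b : Rn n) : MeasurableSet (openSegment ℝ a b) := by
  rcases eq_or_ne a b with rfl | h
  · rw [openSegment_same]
    exact measurableSet_singleton a
  rw [← seg_image_open]
  exact ((Homeomorph.addLeft a).isClosedEmbedding.comp (isClosedEmbedding_smul_left
    (sub_ne_zero.2 h.symm))).measurableEmbedding.measurableSet_image.2 measurableSet_Ioo

theorem SH1_aff {t l s s' : ℝ} (h : 0 ≤ l) (g : ℝ → ℝ≥0∞) :
    ∫⁻ x in Icc (t + s * l) (t + s' * l), g x =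
      ENNReal.ofReal l * ∫⁻ x in Icc s s', g (t + x * l) := by
  rcases h.eq_or_lt with rfl | h0
  · rw [setLIntegral_measure_zero _ _ (by simp), ENNReal.ofReal_zero, zero_mul]
  have e : (fun x => t + x * l) '' Icc s s' = Icc (t + s * l) (t + s' * l) := by
    rw [← image_const_add_Icc, ← image_mul_right_Icc' s s' h0, image_image]
  rw [← e, lintegral_image_eq_lintegral_abs_deriv_mul (f' := fun _ => l) measurableSet_Icc
    (fun x _ => ((hasDerivAt_mul_const l).const_add t).hasDerivWithinAt)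
    (fun x _ y _ k => mul_right_cancel₀ h0.ne' (add_left_cancel k)), abs_of_pos h0,
    lintegral_const_mul' _ _ ENNReal.ofReal_ne_top]

theorem lint_aff {t t' : ℝ} (h : t ≤ t') (g : ℝ → ℝ≥0∞) :
    ∫⁻ x in Icc t t', g x = ENNReal.ofReal (t' - t) * ∫⁻ s in Icc (0 : ℝ) 1, g (t + s * (t' - t)) := by
  rw [← SH1_aff (sub_nonneg.2 h), zero_mul, add_zero, one_mul, add_sub_cancel]

theorem lint_aff' {t l s s' : ℝ} (h : 0 ≤ l) (g : ℝ → ℝ≥0∞) :
    ∫⁻ x in Icc (t + s * l) (t + s' * l), g x =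
      ENNReal.ofReal l * ∫⁻ x in Icc s s', g (t + x * l) := by
  exact SH1_aff h g

theorem acm_H1 : Acm μH[1] := by
  intro a b _ N hN
  exact (SH1_img a (b - a) N).trans (by rw [hN, mul_zero])

theorem fr_fin {c : Ch} {w : ℝ} (h : c.Shp w) : μH[1] (frontier c.U) ≠ ⊤ := by
  have f : ∀ o v : Rn 2, μH[1] ((fun t : ℝ => o + t • v) '' Icc 0 w) < ⊤ := fun o v => by
    rw [SH1_img]
    exact ENNReal.mul_lt_top enorm_lt_top measure_Icc_lt_top
  have k : ∀ ξ ∈ frontier c.U, (0 ≤ ξ 0 ∧ ξ 0 ≤ w) ∧ (0 ≤ ξ 1 ∧ ξ 1 ≤ w) ∧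
      (ξ 0 = 0 ∨ ξ 0 = w ∨ ξ 1 = 0 ∨ ξ 1 = w ∨ ξ 0 + ξ 1 = w) := fun ξ hξ => by
    have c0 : Continuous fun ξ : Rn 2 => ξ 0 := continuous_apply 0
    have c1 : Continuous fun ξ : Rn 2 => ξ 1 := continuous_apply 1
    rcases h.2 with e | e <;> rw [e] at hξ
    · have o : IsOpen (sqr w) := by
        simp only [sqr, ofPred_forall]
        exact isOpen_iInter_of_finite fun i => (isOpen_lt continuous_const (continuous_apply i)).inter
          (isOpen_lt (continuous_apply i) continuous_const)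
      have a : ∀ i, 0 ≤ ξ i ∧ ξ i ≤ w := fun i =>
        closure_minimal (t := {ξ : Rn 2 | 0 ≤ ξ i ∧ ξ i ≤ w}) (fun η hη => ⟨(hη i).1.le, (hη i).2.le⟩)
          ((isClosed_le continuous_const (continuous_apply i)).inter
            (isClosed_le (continuous_apply i) continuous_const)) hξ.1
      refine ⟨a 0, a 1, ?_⟩
      by_contra! b
      exact hξ.2 (o.interior_eq.symm ▸ Fin.forall_fin_two.2
        ⟨⟨(a 0).1.lt_of_ne' b.1, (a 0).2.lt_of_ne b.2.1⟩,
          (a 1).1.lt_of_ne' b.2.2.1, (a 1).2.lt_of_ne b.2.2.2.1⟩)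
    · have o : IsOpen (trg w) := (isOpen_lt continuous_const c0).inter
        ((isOpen_lt continuous_const c1).inter (isOpen_lt (c0.add c1) continuous_const))
      have a : 0 ≤ ξ 0 ∧ 0 ≤ ξ 1 ∧ ξ 0 + ξ 1 ≤ w :=
        closure_minimal (t := {ξ : Rn 2 | 0 ≤ ξ 0 ∧ 0 ≤ ξ 1 ∧ ξ 0 + ξ 1 ≤ w})
          (fun η hη => ⟨hη.1.le, hη.2.1.le, hη.2.2.le⟩) ((isClosed_le continuous_const c0).inter
            ((isClosed_le continuous_const c1).inter (isClosed_le (c0.add c1) continuous_const)))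
          hξ.1
      refine ⟨⟨a.1, by linarith [a.2.1, a.2.2]⟩, ⟨a.2.1, by linarith [a.1, a.2.2]⟩, ?_⟩
      by_contra! b
      exact hξ.2 (o.interior_eq.symm ▸
        ⟨a.1.lt_of_ne' b.1, a.2.1.lt_of_ne' b.2.2.1, a.2.2.lt_of_ne b.2.2.2.2⟩)
  refine ((measure_mono fun ξ hξ => ?_).trans_lt (measure_union_lt_top (f ![0, 0] ![0, 1])
    (measure_union_lt_top (f ![w, 0] ![0, 1]) (measure_union_lt_top (f ![0, 0] ![1, 0])
    (measure_union_lt_top (f ![0, w] ![1, 0]) (f ![0, w] ![1, -1])))))).ne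
  obtain ⟨a, b, e | e | e | e | e⟩ := k ξ hξ
  · exact Or.inl ⟨ξ 1, b, funext (Fin.forall_fin_two.2 ⟨by simp [e], by simp⟩)⟩
  · exact Or.inr (Or.inl ⟨ξ 1, b, funext (Fin.forall_fin_two.2 ⟨by simp [e], by simp⟩)⟩)
  · exact Or.inr (Or.inr (Or.inl ⟨ξ 0, a, funext (Fin.forall_fin_two.2 ⟨by simp, by simp [e]⟩)⟩))
  · exact Or.inr (Or.inr (Or.inr (Or.inl
      ⟨ξ 0, a, funext (Fin.forall_fin_two.2 ⟨by simp, by simp [e]⟩)⟩)))
  · exact Or.inr (Or.inr (Or.inr (Or.inr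
      ⟨ξ 0, a, funext (Fin.forall_fin_two.2 ⟨by simp, by simp [← e]⟩)⟩)))

theorem lint_pull {c : Ch} (h : Injective c.M) : ∃ k : ℝ≥0∞, k ≠ ⊤ ∧ ∀ g : Rn 3 → ℝ≥0∞,
    Measurable g → ∫⁻ ξ, g (c.φ ξ) ∂μH[1] ≤ k * ∫⁻ y, g y ∂μH[1] := by
  obtain ⟨K, -, hK⟩ := (c.M : Rn 2 →ₗ[ℝ] Rn 3).exists_antilipschitzWith
    (LinearMap.ker_eq_bot.2 h)
  have h1 : AntilipschitzWith K c.φ := fun x y =>
    (hK x y).trans_eq (congrArg _ (edist_add_left c.o _ _).symm)
  have h2 : Measurable c.φ := (continuous_const.add c.M.continuous).measurable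
  refine ⟨K, ENNReal.coe_ne_top, fun g hg => ?_⟩
  rw [← lintegral_map hg h2, ← smul_eq_mul, ← lintegral_smul_measure]
  refine lintegral_mono' (Measure.le_iff.2 fun s hs => ?_) le_rfl
  rw [Measure.map_apply h2 hs, Measure.smul_apply, smul_eq_mul]
  simpa using h1.hausdorffMeasure_preimage_le zero_le_one s

theorem jensen1 {p : ℝ} (hp : 1 ≤ p) {g : ℝ → ℝ≥0∞} (hg : Measurable g) (a b : ℝ) :
    (∫⁻ t in Icc a b, g t) ^ p ≤ ENNReal.ofReal (b - a) ^ (p - 1) * ∫⁻ t in Icc a b, g t ^ p := by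
  rcases hp.eq_or_lt with rfl | h1
  · simp
  have h0 : 0 < p := by linarith
  have k := ENNReal.lintegral_mul_le_Lp_mul_Lq (volume.restrict (Icc a b))
    (Real.HolderConjugate.conjExponent h1) hg.aemeasurable (g := fun _ => 1) aemeasurable_const
  simp only [Pi.mul_apply, mul_one, ENNReal.one_rpow, lintegral_one, Measure.restrict_apply_univ,
    Real.volume_Icc] at k
  refine (ENNReal.rpow_le_rpow k h0.le).trans_eq ?_
  have e : 1 / Real.conjExponent p * p = p - 1 := by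
    rw [Real.conjExponent]
    have : p - 1 ≠ 0 := by linarith
    field_simp
  rw [ENNReal.mul_rpow_of_nonneg _ _ h0.le, ← ENNReal.rpow_mul, ← ENNReal.rpow_mul, e,
    one_div_mul_cancel h0.ne', ENNReal.rpow_one, mul_comm]

theorem add_rpow4 {p : ℝ} (hp : 1 ≤ p) (hp3 : p ≤ 3) (a b : ℝ≥0∞) :
    (a + b) ^ p ≤ 4 * (a ^ p + b ^ p) := by
  refine (ENNReal.rpow_add_le_mul_rpow_add_rpow a b hp).trans (mul_le_mul_left ?_ _)
  refine (ENNReal.rpow_le_rpow_of_exponent_le one_le_two (by linarith : p - 1 ≤ 2)).trans_eq ?_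
  rw [ENNReal.rpow_two]
  norm_num

/-- An integral of a power on a set of finite measure controls the integral. -/
theorem lint_fin {α : Type} [MeasurableSpace α] {μ : Measure α} {p : ℝ} (hp : 1 ≤ p)
    (hμ : μ univ ≠ ⊤) {g : α → ℝ≥0∞} (h : ∫⁻ x, g x ^ p ∂μ ≠ ⊤) : ∫⁻ x, g x ∂μ ≠ ⊤ := by
  have k : ∀ x, g x ≤ 1 + g x ^ p := fun x => by
    rcases le_total (g x) 1 with a | a
    · exact a.trans le_self_add
    · exact (ENNReal.le_rpow_self_of_one_le a hp).trans le_add_self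
  refine ne_top_of_le_ne_top ?_ (lintegral_mono k)
  rw [lintegral_add_left measurable_const, lintegral_one]
  exact ENNReal.add_ne_top.2 ⟨hμ, h⟩

end BEp
end
end

-- merged part: Pool.Agent.Work.MP_f0515e_an.P3.SWire
section
/-! Choice of the wires by averaging.
Plan.  Replace `Ψ` by `U.indicator Ψ`.  `G0 a = ∫⁻ t, Ψ ![a, t]`, `G1 a = ∫⁻ t, Ψ ![t, a]` are measurable with integral `∫⁻ Ψ` (`volume_preserving_finTwoArrow`, `lintegral_prod`, `lintegral_prod_symm`);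
by `lint_line` and `lintegral_iUnion_le` the integral over `Wr h u` is at most `Φ u = ∑' i, G0 (u + i h) + ∑' i, G1 (-u + i h)`; the translates of `Icc (h / 4) (3 h / 4)` by multiples of `h` are disjoint, so `∫⁻ u in Icc (h / 4) (3 h / 4), Φ u ≤ 2 ∫⁻ Ψ`
(`lintegral_tsum`, `lintegral_iUnion`, translation and reflection invariance); `exists_notMem_null_le_laverage`, `ae_lt_top`. -/

open Set Metric Filter Topology Function BEv MeasureTheory
open scoped NNReal ENNReal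

noncomputable section
namespace BEp


theorem SWire_sum {h : ℝ} (h0 : 0 < h) {G : ℝ → ℝ≥0∞} (hG : Measurable G) :
    ∫⁻ u in Icc (h / 4) (3 * h / 4), ∑' i : ℤ, G (u + i * h) ≤ ∫⁻ u, G u := by
  have hm : ∀ i : ℤ, Measurable fun u : ℝ => G (u + i * h) := fun i =>
    hG.comp (measurable_add_const _)
  rw [lintegral_tsum fun i => (hm i).aemeasurable]
  have e : ∀ i : ℤ, ∫⁻ u in Icc (h / 4) (3 * h / 4), G (u + i * h) =
      ∫⁻ u in Icc (h / 4 + i * h) (3 * h / 4 + i * h), G u := by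
    intro i
    rw [← (measurePreserving_add_right volume ((i : ℝ) * h)).setLIntegral_comp_preimage_emb
      (measurableEmbedding_addRight _) G, preimage_add_const_Icc, add_sub_cancel_right,
      add_sub_cancel_right]
  simp only [e]
  rw [← lintegral_iUnion (fun _ => measurableSet_Icc)]
  · exact setLIntegral_le_lintegral _ _
  · intro i j hij
    have key : ∀ i j : ℤ, i < j → Disjoint (Icc (h / 4 + i * h) (3 * h / 4 + i * h))
        (Icc (h / 4 + j * h) (3 * h / 4 + j * h)) := by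
      intro i j hij
      refine disjoint_left.2 fun x hx hy => ?_
      have h1 : (i : ℝ) + 1 ≤ j := by exact_mod_cast hij
      have h2 : ((i : ℝ) + 1) * h ≤ j * h := mul_le_mul_of_nonneg_right h1 h0.le
      linarith [hx.2, hy.1]
    rcases lt_or_gt_of_ne hij with hl | hl
    · exact key i j hl
    · exact (key j i hl).symm

theorem SWire_v (a : ℝ) (g : Rn 2 → ℝ≥0∞) :
    ∫⁻ ξ in {ξ : Rn 2 | ξ 0 = a}, g ξ ∂μH[1] = ∫⁻ t, g ![a, t] := by
  have e : ∀ t : ℝ, (Pi.single 0 a : Rn 2) + t • (Pi.single 1 1 : Rn 2) = ![a, t] := by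
    intro t; ext i; fin_cases i <;> simp
  have hs : {ξ : Rn 2 | ξ 0 = a} =
      (fun t : ℝ => (Pi.single 0 a : Rn 2) + t • (Pi.single 1 1 : Rn 2)) '' univ := by
    ext ξ
    simp only [e, mem_ofPred_eq, image_univ, mem_range]
    constructor
    · intro hξ
      refine ⟨ξ 1, ?_⟩
      ext i; fin_cases i <;> simp [hξ]
    · rintro ⟨t, rfl⟩; rfl
  rw [hs, lint_line _ _ MeasurableSet.univ, Measure.restrict_univ, ← ofReal_norm, Pi.norm_single]
  simp only [e, norm_one, ENNReal.ofReal_one, one_mul]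

theorem SWire_h (a : ℝ) (g : Rn 2 → ℝ≥0∞) :
    ∫⁻ ξ in {ξ : Rn 2 | ξ 1 = a}, g ξ ∂μH[1] = ∫⁻ t, g ![t, a] := by
  have e : ∀ t : ℝ, (Pi.single 1 a : Rn 2) + t • (Pi.single 0 1 : Rn 2) = ![t, a] := by
    intro t; ext i; fin_cases i <;> simp
  have hs : {ξ : Rn 2 | ξ 1 = a} =
      (fun t : ℝ => (Pi.single 1 a : Rn 2) + t • (Pi.single 0 1 : Rn 2)) '' univ := by
    ext ξ
    simp only [e, mem_ofPred_eq, image_univ, mem_range]
    constructor
    · intro hξ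
      refine ⟨ξ 0, ?_⟩
      ext i; fin_cases i <;> simp [hξ]
    · rintro ⟨t, rfl⟩; rfl
  rw [hs, lint_line _ _ MeasurableSet.univ, Measure.restrict_univ, ← ofReal_norm, Pi.norm_single]
  simp only [e, norm_one, ENNReal.ofReal_one, one_mul]

theorem SWire_fub {g : Rn 2 → ℝ≥0∞} (hg : Measurable g) :
    Measurable (fun a : ℝ => ∫⁻ t : ℝ, g ![a, t]) ∧ Measurable (fun a : ℝ => ∫⁻ t : ℝ, g ![t, a]) ∧
      ∫⁻ a : ℝ, ∫⁻ t : ℝ, g ![a, t] = ∫⁻ ξ, g ξ ∧ ∫⁻ a : ℝ, ∫⁻ t : ℝ, g ![t, a] = ∫⁻ ξ, g ξ := by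
  have hm : Measurable fun q : ℝ × ℝ => g ![q.1, q.2] :=
    hg.comp (MeasurableEquiv.finTwoArrow (α := ℝ)).symm.measurable
  have e : ∫⁻ q : ℝ × ℝ, g ![q.1, q.2] = ∫⁻ ξ, g ξ :=
    (volume_preserving_finTwoArrow ℝ).symm.lintegral_comp hg
  refine ⟨hm.lintegral_prod_right', hm.lintegral_prod_left', ?_, ?_⟩
  · rw [← e, Measure.volume_eq_prod, lintegral_prod _ hm.aemeasurable]
  · rw [← e, Measure.volume_eq_prod, lintegral_prod_symm _ hm.aemeasurable]

theorem wire_int {h : ℝ} (h0 : 0 < h) {U : Set (Rn 2)} (hU : MeasurableSet U) {Ψ : Rn 2 → ℝ≥0∞}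
    (hΨ : Measurable Ψ) : ∃ Φ : ℝ → ℝ≥0∞, Measurable Φ ∧
      (∀ u, ∫⁻ ξ in U ∩ Wr h u, Ψ ξ ∂μH[1] ≤ Φ u) ∧
      ∫⁻ u in Icc (h / 4) (3 * h / 4), Φ u ≤ 2 * ∫⁻ ξ in U, Ψ ξ := by
  obtain ⟨m0, m1, e0, e1⟩ := SWire_fub (hΨ.indicator hU)
  rw [lintegral_indicator hU] at e0 e1
  set G0 : ℝ → ℝ≥0∞ := fun a => ∫⁻ t : ℝ, U.indicator Ψ ![a, t] with hG0
  set G1 : ℝ → ℝ≥0∞ := fun a => ∫⁻ t : ℝ, U.indicator Ψ ![t, a] with hG1
  have m2 : Measurable fun a => G1 (-a) := m1.comp measurable_neg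
  have s0 : Measurable fun u : ℝ => ∑' i : ℤ, G0 (u + i * h) :=
    Measurable.ennreal_tsum fun i => m0.comp (measurable_add_const _)
  have s1 : Measurable fun u : ℝ => ∑' i : ℤ, G1 (-(u + i * h)) :=
    Measurable.ennreal_tsum fun i => m2.comp (measurable_add_const _)
  refine ⟨fun u => ∑' i : ℤ, G0 (u + i * h) + ∑' i : ℤ, G1 (-(u + i * h)), s0.add s1,
    fun u => ?_, ?_⟩
  · rw [← setLIntegral_indicator hU]
    have hsub : Wr h u ⊆ (⋃ i : ℤ, {ξ : Rn 2 | ξ 0 = u + i * h}) ∪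
        ⋃ i : ℤ, {ξ : Rn 2 | ξ 1 = -(u + i * h)} := by
      rintro ξ (⟨i, hi⟩ | ⟨i, hi⟩)
      · exact Or.inl (mem_iUnion.2 ⟨i, hi⟩)
      · refine Or.inr (mem_iUnion.2 ⟨-i, ?_⟩)
        show ξ 1 = -(u + ((-i : ℤ) : ℝ) * h)
        rw [hi]; push_cast; ring
    refine (lintegral_mono_set hsub).trans ((lintegral_union_le _ _ _).trans (add_le_add ?_ ?_))
    · refine (lintegral_iUnion_le _ _).trans (ENNReal.tsum_le_tsum fun i => ?_)
      exact (SWire_v _ _).le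
    · refine (lintegral_iUnion_le _ _).trans (ENNReal.tsum_le_tsum fun i => ?_)
      exact (SWire_h _ _).le
  · rw [lintegral_add_left s0, two_mul]
    refine add_le_add ((SWire_sum h0 m0).trans e0.le) ((SWire_sum h0 m2).trans ?_)
    rw [lintegral_neg_eq_self G1]
    exact e1.le

theorem wire_avg {h : ℝ} (h0 : 0 < h) {U : Set (Rn 2)} (hU : MeasurableSet U)
    {Ψ Ψ' : Rn 2 → ℝ≥0∞} (hΨ : Measurable Ψ) (hΨ' : Measurable Ψ') (fin : ∫⁻ ξ in U, Ψ' ξ ≠ ⊤) :
    ∃ u ∈ Icc (h / 4) (3 * h / 4),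
      ENNReal.ofReal h * ∫⁻ ξ in U ∩ Wr h u, Ψ ξ ∂μH[1] ≤ 4 * ∫⁻ ξ in U, Ψ ξ ∧
      ∫⁻ ξ in U ∩ Wr h u, Ψ' ξ ∂μH[1] ≠ ⊤ := by
  obtain ⟨Φ, mΦ, h1, h2⟩ := wire_int h0 hU hΨ
  obtain ⟨Φ', mΦ', h1', h2'⟩ := wire_int h0 hU hΨ'
  have hv : (volume.restrict (Icc (h / 4) (3 * h / 4))) univ = ENNReal.ofReal (h / 2) := by
    rw [Measure.restrict_apply_univ, Real.volume_Icc]
    exact congrArg ENNReal.ofReal (by ring)
  have hp : ENNReal.ofReal (h / 2) ≠ 0 := (ENNReal.ofReal_pos.2 (by positivity)).ne'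
  have hμ : volume.restrict (Icc (h / 4) (3 * h / 4)) ≠ 0 := by
    intro hz
    rw [hz] at hv
    exact hp hv.symm
  have hf : ∀ᵐ u ∂volume.restrict (Icc (h / 4) (3 * h / 4)), Φ' u < ⊤ :=
    ae_lt_top mΦ' (ne_top_of_le_ne_top (ENNReal.mul_ne_top (by norm_num) fin) h2')
  have hN := ae_iff.1 ((ae_restrict_mem measurableSet_Icc).and hf)
  obtain ⟨u, hu, hle⟩ := exists_notMem_null_le_laverage hμ mΦ.aemeasurable hN
  have hu' : u ∈ Icc (h / 4) (3 * h / 4) ∧ Φ' u < ⊤ := not_not.1 hu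
  refine ⟨u, hu'.1, ?_, ((h1' u).trans_lt hu'.2).ne⟩
  rw [laverage_eq, hv] at hle
  have e : ENNReal.ofReal h = 2 * ENNReal.ofReal (h / 2) := by
    rw [← ENNReal.ofReal_ofNat 2, ← ENNReal.ofReal_mul (by norm_num)]
    exact congrArg ENNReal.ofReal (by ring)
  calc ENNReal.ofReal h * ∫⁻ ξ in U ∩ Wr h u, Ψ ξ ∂μH[1]
      ≤ ENNReal.ofReal h * ((∫⁻ u in Icc (h / 4) (3 * h / 4), Φ u) / ENNReal.ofReal (h / 2)) :=
        mul_le_mul_right ((h1 u).trans hle) _
    _ = 2 * ∫⁻ u in Icc (h / 4) (3 * h / 4), Φ u := by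
        rw [e, mul_assoc, ENNReal.mul_div_cancel hp ENNReal.ofReal_ne_top]
    _ ≤ 2 * (2 * ∫⁻ ξ in U, Ψ ξ) := mul_le_mul_right h2 _
    _ = 4 * ∫⁻ ξ in U, Ψ ξ := by rw [← mul_assoc]; norm_num

end BEp
end
end
end

-- merged part: Pool.Agent.Work.MP_f0515e_an.P3.SVr
section
/-! Variation on segments. -/

open Set Metric Filter Topology Function BEv MeasureTheory
open scoped NNReal ENNReal

noncomputable section
namespace BEp

variable {Ω : Set (Rn 3)} {K : Kx Ω}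

theorem SVr_lb {V C : Set (Rn 3)} {ρ : Rn 3 → ℝ} (hρ : LB V ρ) (hC : IsCompact C) (hs : C ⊆ V) :
    ∃ c, 0 < c ∧ ∀ z ∈ C, c ≤ ρ z := by
  refine hC.induction_on ⟨1, one_pos, by simp⟩ (fun s t h ⟨c, h0, h1⟩ => ⟨c, h0, fun z hz =>
    h1 z (h hz)⟩) (fun s t ⟨c, h0, h1⟩ ⟨c', k0, k1⟩ => ⟨min c c', lt_min h0 k0, fun z hz =>
      hz.elim (fun k => (min_le_left _ _).trans (h1 z k)) fun k =>
        (min_le_right _ _).trans (k1 z k)⟩) fun x hx => ?_
  obtain ⟨c, h0, h1⟩ := hρ x (hs hx)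
  exact ⟨_, mem_nhdsWithin_of_mem_nhds h1, c, h0, fun z hz => hz⟩

theorem ug_comp {V Y : Set (Rn 3)} {B : Rn 3 → Rn 3} {β : Rn 3 → ℝ≥0∞} {ρ : Rn 3 → ℝ}
    (hρ : LB V ρ) (hY : Y ⊆ V)
    (lip : ∀ y ∈ Y, ∀ y₁ ∈ ball y (ρ y), ∀ y₂ ∈ ball y (ρ y), ‖B y₁ - B y₂‖ₑ ≤ β y * ‖y₁ - y₂‖ₑ)
    {k : ℝ → Rn 3} (hk : ContinuousOn k (Icc 0 1)) (m : MapsTo k (Icc 0 1) Y)
    {γ b : ℝ → ℝ≥0∞} (hγ : Measurable γ) (hb : ∀ t ∈ Icc (0 : ℝ) 1, β (k t) ≤ b t)
    (h : ∀ s s', 0 ≤ s → s ≤ s' → s' ≤ 1 → ‖k s' - k s‖ₑ ≤ ∫⁻ x in Icc s s', γ x) :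
    ∀ s s', 0 ≤ s → s ≤ s' → s' ≤ 1 → ‖B (k s') - B (k s)‖ₑ ≤ ∫⁻ x in Icc s s', b x * γ x := by
  obtain ⟨c, c0, hc⟩ := SVr_lb hρ (isCompact_Icc.image_of_continuousOn hk)
    (m.image_subset.trans hY)
  obtain ⟨δ, δ0, hδ⟩ := Metric.uniformContinuousOn_iff_le.1
    (isCompact_Icc.uniformContinuousOn_of_continuous hk) (c / 2) (half_pos c0)
  have one : ∀ s s', 0 ≤ s → s ≤ s' → s' ≤ 1 → s' - s ≤ δ →
      ‖B (k s') - B (k s)‖ₑ ≤ ∫⁻ x in Icc s s', b x * γ x := fun s s' h0 h1 h2 h3 => by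
    have key : ∀ t ∈ Icc s s', ‖B (k s') - B (k s)‖ₑ ≤ b t * ‖k s' - k s‖ₑ := fun t ht => by
      have ht' : t ∈ Icc (0 : ℝ) 1 := ⟨h0.trans ht.1, ht.2.trans h2⟩
      have bl : ∀ u ∈ Icc s s', k u ∈ ball (k t) (ρ (k t)) := fun u hu =>
        (hδ u ⟨h0.trans hu.1, hu.2.trans h2⟩ t ht' (by
          rw [Real.dist_eq, abs_le]
          constructor <;> linarith [hu.1, hu.2, ht.1, ht.2])).trans_lt
          ((half_lt_self c0).trans_le (hc _ (mem_image_of_mem _ ht')))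
      exact (lip _ (m ht') _ (bl s' ⟨h1, le_rfl⟩) _ (bl s ⟨le_rfl, h1⟩)).trans
        (mul_le_mul_left (hb t ht') _)
    by_cases hn : ‖k s' - k s‖ₑ = 0
    · have := key s ⟨le_rfl, h1⟩
      rw [hn, mul_zero] at this
      exact this.trans zero_le
    rw [← ENNReal.div_mul_cancel (a := ‖k s' - k s‖ₑ) (b := ‖B (k s') - B (k s)‖ₑ) hn enorm_ne_top]
    refine (mul_le_mul_right (h s s' h0 h1 h2) _).trans ?_
    rw [← lintegral_const_mul _ hγ]
    exact setLIntegral_mono' measurableSet_Icc fun t ht =>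
      mul_le_mul_left (ENNReal.div_le_of_le_mul (key t ht)) _
  have all : ∀ N : ℕ, ∀ s s', 0 ≤ s → s ≤ s' → s' ≤ 1 → s' - s ≤ (N + 1) * δ →
      ‖B (k s') - B (k s)‖ₑ ≤ ∫⁻ x in Icc s s', b x * γ x := fun N => by
    induction N with
    | zero => exact fun s s' h0 h1 h2 h3 => one s s' h0 h1 h2 (by simpa using h3)
    | succ N ih =>
      intro s s' h0 h1 h2 h3
      have k1 : s ≤ max s (s' - δ) := le_max_left _ _
      have k2 : max s (s' - δ) ≤ s' := max_le h1 (by linarith)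
      have k3 : max s (s' - δ) ≤ s + (N + 1) * δ :=
        max_le (le_add_of_nonneg_right (by positivity)) (by push_cast at h3; linarith)
      rw [← NLn_add _ k1 k2, ← sub_add_sub_cancel _ (B (k (max s (s' - δ)))), add_comm]
      exact (enorm_add_le _ _).trans (add_le_add (ih _ _ h0 k1 (k2.trans h2) (by linarith))
        (one _ _ (h0.trans k1) k2 h2 (by linarith [le_max_right s (s' - δ)])))
  intro s s' h0 h1 h2
  obtain ⟨N, hN⟩ := exists_nat_ge (1 / δ)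
  rw [div_le_iff₀ δ0] at hN
  exact all N s s' h0 h1 h2 (by linarith)

theorem lip_int {k : ℝ → Rn 3} {L : ℝ≥0} {s s' : ℝ} (h : s ≤ s')
    (hk : LipschitzOnWith L k (Icc s s')) : ‖k s' - k s‖ₑ ≤ ∫⁻ x in Icc s s', ‖deriv k x‖ₑ := by
  obtain ⟨l, l1, l2⟩ := exists_dual_vector'' ℝ (k s' - k s)
  have hl : LipschitzOnWith (‖l‖₊ * L) (l ∘ k) (uIcc s s') := by
    rw [uIcc_of_le h]
    exact l.lipschitz.comp_lipschitzOnWith hk
  have e := hl.absolutelyContinuousOnInterval.integral_deriv_eq_sub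
  simp only [comp_apply, ← map_sub, l2, RCLike.ofReal_real_eq_id, id] at e
  rw [← enorm_norm, ← e, intervalIntegral.integral_of_le h, setLIntegral_congr Ioo_ae_eq_Icc.symm,
    integral_Ioc_eq_integral_Ioo]
  refine (enorm_integral_le_lintegral_enorm _).trans (lintegral_mono_ae ?_)
  rw [ae_restrict_iff' measurableSet_Ioo]
  filter_upwards [hk.ae_differentiableWithinAt_of_mem (μ := volume)] with x hx hm
  have hd := ((hx (Ioo_subset_Icc_self hm)).differentiableAt (Icc_mem_nhds hm.1 hm.2)).hasDerivAt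
  rw [(l.hasFDerivAt.comp_hasDerivAt x hd).deriv, ← ofReal_norm, ← ofReal_norm]
  exact ENNReal.ofReal_le_ofReal ((l.le_opNorm _).trans (mul_le_of_le_one_left (norm_nonneg _) l1))

theorem vr_core {G : Rn 3 → Rn 3} {D : Rn 3 → Rn 3 →L[ℝ] Rn 3} {ψ : Rn 3 → ℝ} {N : Set (Rn 3)}
    (hΩ : IsOpen Ω) (hG : LTP Ω G) {a b : Rn 3} (hab : a ≠ b) (hs : segment ℝ a b ⊆ Ω)
    (hN : N.Finite) (h : ∀ y ∈ openSegment ℝ a b, y ∉ N → TL G (D y) (b - a) y (ψ y))
    (A : Rn 3 →L[ℝ] Rn 3) (c y : Rn 3) :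
    vr (fun x => G x - (A (x - c) + y)) a b ≤ ∫⁻ t in Icc (0 : ℝ) 1,
      (ENNReal.ofReal (ψ (seg a b t)) * ‖b - a‖ₑ + ‖D (seg a b t) (b - a) - A (b - a)‖ₑ) := by
  have _ := hΩ
  obtain ⟨g, hg, e⟩ := hG _ (seg_image a b ▸ isCompact_Icc.image (tp_seg a b).continuous) hs
  set k : ℝ → Rn 3 := fun t => G (seg a b t) - (A (seg a b t - c) + y) with hk
  obtain ⟨L, hL⟩ := ((hg.comp (tp_seg a b)).sub
    (((TP.clm A).comp ((tp_seg a b).sub (TP.const c))).add (TP.const y))).lip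
  have hL' : LipschitzOnWith L k (Icc 0 1) := fun s hs s' hs' => by
    have := hL s s'
    simpa only [hk, e ((seg_image a b).le (mem_image_of_mem _ hs)),
      e ((seg_image a b).le (mem_image_of_mem _ hs'))] using this
  have hi : Injective (seg a b) := fun s t k => by
    have := seg_sub a b s t
    rw [k, sub_self, eq_comm, smul_eq_zero, sub_eq_zero, sub_eq_zero] at this
    exact this.resolve_right hab.symm
  have hd : ∀ t ∈ Ioo (0 : ℝ) 1, seg a b t ∉ N → ‖deriv k t‖ₑ ≤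
      ENNReal.ofReal (ψ (seg a b t)) * ‖b - a‖ₑ + ‖D (seg a b t) (b - a) - A (b - a)‖ₑ := by
    intro t ht hn
    by_cases hdt : DifferentiableAt ℝ k t
    swap
    · simp [deriv_zero_of_not_differentiableAt hdt]
    have h1 := h _ ((seg_image_open a b).le (mem_image_of_mem _ ht)) hn
    set q := fun τ : ℝ => G (seg a b t + τ • (b - a)) - τ • D (seg a b t) (b - a) with hq
    have h2 : ‖deriv q 0‖ ≤ max (ψ (seg a b t)) 0 * ‖b - a‖ := by
      refine norm_deriv_le_of_lip' (by positivity) ?_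
      have h3 : Tendsto (fun τ : ℝ => (τ, (0 : ℝ))) (𝓝 0) (𝓝 (0, 0)) :=
        Continuous.tendsto' (by fun_prop) _ _ rfl
      filter_upwards [h3.eventually h1] with τ hτ
      exact hτ.trans (by gcongr; exact le_max_left _ _)
    have h4 : HasDerivAt (fun τ : ℝ => k (t + τ)) (deriv k t) 0 :=
      HasDerivAt.comp_const_add t 0 (by simpa using hdt.hasDerivAt)
    have h5 : q = fun τ => k (t + τ) - τ • (D (seg a b t) (b - a) - A (b - a)) +
        (A (seg a b t - c) + y) := by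
      funext τ
      have e1 : seg a b (t + τ) = seg a b t + τ • (b - a) := by
        unfold seg
        module
      have e2 : A (seg a b t + τ • (b - a) - c) = A (seg a b t - c) + τ • A (b - a) := by
        rw [← map_smul, ← map_add]
        congr 1
        abel
      simp only [hq, hk, e1, e2]
      module
    have h6 : deriv q 0 = deriv k t - (D (seg a b t) (b - a) - A (b - a)) := by
      rw [h5]
      simpa using ((h4.sub ((hasDerivAt_id' (0 : ℝ)).smul_const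
        (D (seg a b t) (b - a) - A (b - a)))).add_const (A (seg a b t - c) + y)).deriv
    rw [← sub_add_cancel (deriv k t) (D (seg a b t) (b - a) - A (b - a)), ← h6]
    refine (enorm_add_le _ _).trans (add_le_add_left ?_ _)
    refine le_of_eq_of_le (ofReal_norm _).symm ((ENNReal.ofReal_le_ofReal h2).trans_eq ?_)
    simp [ENNReal.ofReal_mul (le_max_right _ _), ENNReal.ofReal_max]
  have := NLn_var (G := k) (c := 1) (g := fun t => ENNReal.ofReal (ψ (seg a b t)) * ‖b - a‖ₑ +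
    ‖D (seg a b t) (b - a) - A (b - a)‖ₑ) fun s s' h0 h1 h2 => by
      rw [one_mul, edist_eq_enorm_sub]
      refine (lip_int h1 (hL'.mono (Icc_subset_Icc h0 h2))).trans ?_
      rw [setLIntegral_congr Ioo_ae_eq_Icc.symm, setLIntegral_congr Ioo_ae_eq_Icc.symm]
      refine lintegral_mono_ae ?_
      rw [ae_restrict_iff' measurableSet_Ioo]
      filter_upwards [(hN.preimage hi.injOn).countable.ae_notMem volume] with t ht hm
      exact hd t ⟨h0.trans_lt hm.1, hm.2.trans_le h2⟩ ht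
  rwa [one_mul] at this

theorem vr_lip {G : Rn 3 → Rn 3} {a b : Rn 3} {L : ℝ}
    (h : ∀ s ∈ Icc (0 : ℝ) 1, ∀ s' ∈ Icc (0 : ℝ) 1,
      ‖G (seg a b s) - G (seg a b s')‖ ≤ L * |s - s'|) : vr G a b ≤ ENNReal.ofReal L := by
  have := NLn_var (G := fun t => G (seg a b t)) (c := ENNReal.ofReal L) (g := fun _ => 1)
    fun s s' h0 h1 h2 => by
      rw [edist_eq_enorm_sub, ← ofReal_norm, setLIntegral_one, Real.volume_Icc,
        ← ENNReal.ofReal_mul' (sub_nonneg.2 h1), ← abs_of_nonneg (sub_nonneg.2 h1)]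
      exact ENNReal.ofReal_le_ofReal (h _ ⟨h0.trans h1, h2⟩ _ ⟨h0, h1.trans h2⟩)
  simpa [vr] using this

theorem vr_ge (G : Rn 3 → Rn 3) (a b : Rn 3) : ‖G b - G a‖ₑ ≤ vr G a b := by
  have := eVariationOn.edist_le (fun t => G (seg a b t)) (s := Icc (0 : ℝ) 1)
    (right_mem_Icc.2 zero_le_one) (left_mem_Icc.2 zero_le_one)
  simpa [vr, seg, edist_eq_enorm_sub] using this

theorem vr_congr {G G' : Rn 3 → Rn 3} {a b : Rn 3} (h : EqOn G G' (segment ℝ a b)) :
    vr G a b = vr G' a b := by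
  exact eVariationOn.eq_of_eqOn fun t ht => h ((seg_image a b).le (mem_image_of_mem _ ht))

theorem ACs.sub {f : Rn 3 → Rn 3} {D : Rn 3 → Rn 3 →L[ℝ] Rn 3} {a b x y : Rn 3} (h : ACs f D a b)
    (hx : x ∈ segment ℝ a b) (hy : y ∈ segment ℝ a b) : ACs f D x y := by
  rw [← seg_image] at hx hy
  obtain ⟨α, hα, rfl⟩ := hx
  obtain ⟨β, hβ, rfl⟩ := hy
  have hi : ∀ {u v : ℝ}, u ∈ Icc (0 : ℝ) 1 → v ∈ Icc (0 : ℝ) 1 →
      IntervalIntegrable (fun x => D (seg a b x)) volume u v := fun hu hv =>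
    (h.1.mono_set (uIcc_subset_Icc hu hv)).intervalIntegrable
  have hi' : ∀ {u v : ℝ}, u ∈ Icc (0 : ℝ) 1 → v ∈ Icc (0 : ℝ) 1 →
      IntervalIntegrable (fun x => D (seg a b x) (b - a)) volume u v := fun hu hv =>
    IntegrableOn.intervalIntegrable
      ((h.1.mono_set (uIcc_subset_Icc hu hv)).apply_continuousLinearMap _)
  simp only [ACs, seg_seg, seg_sub, map_smul]
  refine ⟨?_, fun t ht => ?_⟩
  · by_cases e : β - α = 0
    · simp only [e, mul_zero]
      exact continuous_const.integrableOn_Icc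
    have := ((hi hα hβ).comp_add_left α).comp_mul_right (c := β - α)
    rw [sub_self, zero_div, div_self e] at this
    exact (intervalIntegrable_iff_integrableOn_Icc_of_le zero_le_one).1 this
  · have hm : α + t * (β - α) ∈ Icc (0 : ℝ) 1 :=
      ⟨by nlinarith [hα.1, hβ.1, ht.1, ht.2], by nlinarith [hα.2, hβ.2, ht.1, ht.2]⟩
    have e := intervalIntegral.smul_integral_comp_add_mul (a := 0) (b := t)
      (fun x => D (seg a b x) (b - a)) (β - α) α
    simp only [mul_comm (β - α), zero_mul, add_zero] at e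
    rw [intervalIntegral.integral_smul, e, h.2 _ hm, h.2 _ hα, add_assoc,
      intervalIntegral.integral_add_adjacent_intervals (hi' ⟨le_rfl, zero_le_one⟩ hα) (hi' hα hm)]

theorem ACs.congr {f f' : Rn 3 → Rn 3} {D : Rn 3 → Rn 3 →L[ℝ] Rn 3} {a b : Rn 3}
    (h : ACs f D a b) (e : EqOn f' f (segment ℝ a b)) : ACs f' D a b := by
  exact ⟨h.1, fun t ht => by
    rw [e ((seg_image a b).le (mem_image_of_mem _ ht)), e (left_mem_segment ℝ a b), h.2 t ht]⟩

theorem be_exists (K : Kx Ω) : ∃ be, BeOk K be ∧ ∀ a b, K.Edge a b → ∀ s s',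
    |be (openSegment ℝ a b) (seg a b s) - be (openSegment ℝ a b) (seg a b s')| = |s - s'| := by
  choose! a b ab eσ using fun σ (h : σ ∈ K.cel 1) => Kx.dm_one h.1 h.2
  choose! L c hL using fun σ (h : σ ∈ K.cel 1) => exists_par (ab σ h).1
  have key : ∀ x y, K.Edge x y → ∀ σ, σ = openSegment ℝ x y →
      (∀ s s', |L σ (seg x y s) + c σ - (L σ (seg x y s') + c σ)| = |s - s'|) ∧
        (fun z => L σ z + c σ) '' segment ℝ x y = Icc 0 1 := fun x y h σ e => by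
    have m : σ ∈ K.cel 1 := e ▸ ⟨h.2, h.dm⟩
    have im : (fun z => L σ z + c σ) '' segment ℝ (a σ) (b σ) = Icc 0 1 := by
      simp only [← seg_image, image_image, hL σ m, image_id']
    rcases h.uniq (e.symm.trans (eσ σ m)) with ⟨h1, h2⟩ | ⟨h1, h2⟩
    · rw [h1, h2]
      exact ⟨fun s s' => by rw [hL σ m, hL σ m], im⟩
    · have e2 : ∀ s, seg (b σ) (a σ) s = seg (a σ) (b σ) (1 - s) := fun s => by
        unfold seg
        module
      rw [h1, h2, segment_symm]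
      exact ⟨fun s s' => by rw [e2, e2, hL σ m, hL σ m, sub_sub_sub_cancel_left, abs_sub_comm], im⟩
  refine ⟨fun σ z => L σ z + c σ, fun x y h => ⟨(TP.clm _).add (TP.const _), ?_,
    (key x y h _ rfl).2⟩, fun x y h => (key x y h _ rfl).1⟩
  rw [← seg_image]
  rintro _ ⟨s, -, rfl⟩ _ ⟨s', -, rfl⟩ e
  have := (key x y h _ rfl).1 s s'
  rw [sub_eq_zero.2 e, abs_zero, eq_comm, abs_eq_zero, sub_eq_zero] at this
  rw [this]

theorem seg_part (o w : Rn 3) (hw : w ≠ 0) {α β : ℝ} (h : ∀ t ∈ Icc α β, o + t • w ∈ Ω)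
    (hc : ∀ t ∈ Ioo α β, K.cell (o + t • w) ⊆ (fun t : ℝ => o + t • w) '' Icc α β) :
    ∃ J, Prt α β J ∧ ∀ q ∈ J, K.Edge (o + q.1 • w) (o + q.2 • w) := by
  set l := fun t : ℝ => o + t • w with hl
  have hi : Injective l := fun s t e => smul_left_injective ℝ hw (add_left_cancel e)
  have os : ∀ p q, p < q → openSegment ℝ (l p) (l q) = l '' Ioo p q := fun p q k => by
    rw [← openSegment_eq_Ioo k, openSegment_eq_image', openSegment_eq_image', image_image]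
    refine image_congr fun t _ => ?_
    simp only [hl, smul_eq_mul]
    module
  have cC : IsCompact (l '' Icc α β) := isCompact_Icc.image (by fun_prop)
  have fin := Kx.cover (K := K) cC (image_subset_iff.2 h)
  have un : ∀ q q' : ℝ × ℝ, q.1 < q.2 → q'.1 < q'.2 → K.Edge (l q.1) (l q.2) →
      openSegment ℝ (l q.1) (l q.2) = openSegment ℝ (l q'.1) (l q'.2) → q = q' :=
    fun q q' k k' e1 e2 => by
      rcases e1.uniq e2 with ⟨h1, h2⟩ | ⟨h1, h2⟩
      · exact Prod.ext (hi h1) (hi h2)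
      · linarith [hi h1, hi h2]
  have fJ : {q : ℝ × ℝ | (α ≤ q.1 ∧ q.1 < q.2 ∧ q.2 ≤ β) ∧ K.Edge (l q.1) (l q.2)}.Finite := by
    refine Finite.of_injOn (f := fun q => openSegment ℝ (l q.1) (l q.2)) (fun q hq => ?_)
      (fun q hq q' hq' e => un q q' hq.1.2.1 hq'.1.2.1 hq.2 e) fin
    obtain ⟨t, t1, t2⟩ := exists_between hq.1.2.1
    exact ⟨hq.2.2, l t, (os _ _ hq.1.2.1).ge ⟨t, ⟨t1, t2⟩, rfl⟩, t,
      ⟨hq.1.1.trans t1.le, t2.le.trans hq.1.2.2⟩, rfl⟩
  refine ⟨fJ.toFinset, ⟨fun q hq => (fJ.mem_toFinset.1 hq).1, fun q hq q' hq' ne => ?_, ?_⟩,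
    fun q hq => (fJ.mem_toFinset.1 hq).2⟩
  · have k := fJ.mem_toFinset.1 hq
    have k' := fJ.mem_toFinset.1 hq'
    refine Set.disjoint_left.2 fun t t1 t2 => ne (un q q' k.1.2.1 k'.1.2.1 k.2 ?_)
    rw [← Kx.cell_eq k.2.2 ((os _ _ k.1.2.1).ge ⟨t, t1, rfl⟩),
      Kx.cell_eq k'.2.2 ((os _ _ k'.1.2.1).ge ⟨t, t2, rfl⟩)]
  have fV : {t | t ∈ Icc α β ∧ K.cell (l t) = {l t}}.Finite :=
    Finite.of_injOn (f := fun t => ({l t} : Set (Rn 3))) (fun t ht => And.intro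
      ⟨_, h t ht.1, ht.2⟩ ⟨l t, rfl, t, ht.1, rfl⟩)
      (fun t _ t' _ e => hi (singleton_injective e)) fin
  refine ((fV.insert α).insert β).subset fun t hh => ?_
  obtain ⟨ht, hn⟩ := (Set.mem_sdiff _).1 hh
  rcases ht.2.eq_or_lt with e | t2
  · exact Or.inl e
  rcases ht.1.eq_or_lt with e | t1
  · exact Or.inr (Or.inl e.symm)
  have hd : dm (K.cell (l t)) ≤ 1 := by
    rw [← finrank_span_singleton (K := ℝ) hw]
    refine Submodule.finrank_mono ?_
    rw [vectorSpan_def, Submodule.span_le]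
    rintro _ ⟨y, hy, y', hy', rfl⟩
    obtain ⟨s, -, rfl⟩ := hc t ⟨t1, t2⟩ hy
    obtain ⟨s', -, rfl⟩ := hc t ⟨t1, t2⟩ hy'
    exact Submodule.mem_span_singleton.2 ⟨s - s', by simp [hl, sub_smul]⟩
  rcases Kx.mem_sk_one.1 (show l t ∈ K.sk 1 from ⟨h t ht, hd⟩) with k | ⟨a, b, k, m⟩
  · exact Or.inr (Or.inr ⟨ht, k.2⟩)
  have sb : segment ℝ a b ⊆ l '' Icc α β := by
    rw [← k.cl, ← Kx.cell_eq k.2 m]
    exact closure_minimal (hc t ⟨t1, t2⟩) cC.isClosed
  obtain ⟨p, hp, rfl⟩ := sb (left_mem_segment ℝ a b)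
  obtain ⟨q, hq, rfl⟩ := sb (right_mem_segment ℝ _ b)
  have fi : ∀ p ∈ Icc α β, ∀ q ∈ Icc α β, p < q → K.Edge (l p) (l q) →
      l t ∉ openSegment ℝ (l p) (l q) := fun p hp q hq k1 k2 k3 => by
    rw [os p q k1, hi.mem_set_image] at k3
    exact hn (mem_iUnion₂.2 ⟨(p, q), fJ.mem_toFinset.2 ⟨⟨hp.1, k1, hq.2⟩, k2⟩, k3⟩)
  rcases lt_trichotomy p q with r | r | r
  · exact (fi p hp q hq r k m).elim
  · exact (k.1 (congrArg l r)).elim
  · exact (fi q hq p hp r k.symm (openSegment_symm ℝ (l p) (l q) ▸ m)).elim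

end BEp
end
end
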