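import Pool.Agent.Work.MP_f0515e_an.P3.WSp
import Pool.Agent.Work.MP_f0515e_an.P3.GGeo
import Pool.Agent.Work.MP_f0515e_an.P3.Vit
import Pool.Agent.Work.MP_f0515e_an.P3.Sel3
import Pool.Agent.Work.MP_f0515e_an.D3.NLn

-- merged part: Pool.Agent.Work.MP_f0515e_an.P3.LocX
section
-- merged part: Pool.Agent.Work.MP_f0515e_an.P3.WT2
section
/-! Weighted area of the fine faces of a square of the slice. A face which is not rigid is disjoint
from the kept `Q u ρx`. If it is frozen or meets a zone it lies in `Q u (ρx + (ζ + 48) s) \ Q u ρx`,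
of area at most `C (ζ + 64) s t0`, and `MF ≤ 8 cf^3` times its area (`sm`). Otherwise the weight is
`C1` and the face lies in a frame, in the margin or in a tile which is not kept. `xm2`: sum over
the long boxes, with `‖A ∘ M‖ ≤ 3 ‖A‖` (`Bi N 1`, `Ok.nN`), `xwall` for the walls (a long box has at
most six faces off `WI`, for instance by `mass`), `layer` for the boxes with weight one. -/

open Set Metric Filter Topology Function BEv MeasureTheory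
open scoped NNReal ENNReal

noncomputable section
namespace BEp

/-- Square of half side `R` in the plane through `c` normal to the direction `k`. -/
def WT2_D (k : Fin 3) (c : Rn 3) (R : ℝ) : Set (Rn 3) := {x | x k = c k ∧ ‖x - c‖ ≤ R}

theorem WT2_plane (k : Fin 3) (a : ℝ) {S : Set (Rn 2)} {T : Set (Rn 3)}
    (h : ∀ x ∈ T, x k = a ∧ k.removeNth x ∈ S) : μH[2] T ≤ volume S := by
  have h2 : LipschitzWith 1 fun ξ : Rn 2 => (Fin.insertNth k a ξ : Rn 3) :=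
    LipschitzWith.of_dist_le_mul fun ξ ξ' => by
      rw [Fin.dist_insertNth_insertNth]
      simp
  refine (measure_mono fun x hx => ?_).trans ((h2.hausdorffMeasure_image_le zero_le_two S).trans ?_)
  · exact ⟨_, (h x hx).2, by rw [← (h x hx).1]; exact Fin.insertNth_self_removeNth k x⟩
  · rw [CMass_two]
    simp

theorem WT2_dist {k : Fin 3} {x c : Rn 3} (h : x k = c k) :
    dist (k.removeNth x : Rn 2) (k.removeNth c) = ‖x - c‖ := by
  have := Fin.dist_insertNth_insertNth (α := fun _ => ℝ) k (x k) (c k) (k.removeNth x)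
    (k.removeNth c)
  rw [Fin.insertNth_self_removeNth, Fin.insertNth_self_removeNth, h, dist_self,
    max_eq_right dist_nonneg, dist_eq_norm] at this
  exact this.symm

theorem WT2_ball (k : Fin 3) (c : Rn 3) {R : ℝ} (hR : 0 ≤ R) :
    μH[2] (WT2_D k c R) ≤ ENNReal.ofReal ((2 * R) ^ 2) := by
  refine (WT2_plane k (c k) (S := closedBall (k.removeNth c) R) fun x hx =>
    ⟨hx.1, (WT2_dist hx.1).trans_le hx.2⟩).trans_eq ?_
  rw [Real.volume_pi_closedBall _ hR, Fintype.card_fin]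

theorem WT2_frame (k : Fin 3) (c : Rn 3) {R R' a : ℝ} (h0 : 0 ≤ R') (h1 : R' ≤ R)
    (h2 : 8 * (R - R') * R ≤ a) : μH[2] (WT2_D k c R \ WT2_D k c R') ≤ ENNReal.ofReal a := by
  refine (WT2_plane k (c k) (S := closedBall (k.removeNth c) R \ closedBall (k.removeNth c) R')
    fun x hx => ⟨hx.1.1, (WT2_dist hx.1.1).trans_le hx.1.2,
      fun e => hx.2 ⟨hx.1.1, (WT2_dist hx.1.1).symm.trans_le e⟩⟩).trans ?_
  rw [measure_sdiff (closedBall_subset_closedBall h1) measurableSet_closedBall.nullMeasurableSet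
    measure_closedBall_lt_top.ne, Real.volume_pi_closedBall _ h0,
    Real.volume_pi_closedBall _ (h0.trans h1), Fintype.card_fin,
    ← ENNReal.ofReal_sub _ (by positivity)]
  exact ENNReal.ofReal_le_ofReal (by linarith only [h2, sq_nonneg (R - R'), sq_nonneg (R - R')])

section
variable {Ω : Set (Rn 3)} {K : Kx Ω}

theorem WT2_meas {σ : Set (Rn 3)} (h : σ ∈ K.cells) : MeasurableSet σ := by
  have := (isClosed_closure (s := σ)).measurableSet.diff (Kx.rb_closed h).measurableSet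
  rwa [sdiff_sdiff_cancel_left subset_closure] at this

theorem WT2_dis {P : Set (Rn 3) → Prop} (hP : ∀ F, P F → F ∈ K.cells) (μ : Measure (Rn 3))
    (B : Set (Rn 3)) : ∑' F : {F // P F}, μ (F.1 ∩ B) ≤ μ B := by
  have h := tsum_meas_le_meas_iUnion_of_disjoint (μ.restrict B) (As := fun F : {F // P F} => F.1)
    (fun F => WT2_meas (hP F F.2)) fun F F' e =>
      Kx.disj (hP F F.2) (hP F' F'.2) (Subtype.coe_ne_coe.2 e)
  refine (le_of_eq (tsum_congr fun F => ?_)).trans (h.trans ((measure_mono (subset_univ _)).trans_eq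
    (Measure.restrict_apply_univ B)))
  rw [Measure.restrict_apply (WT2_meas (hP F F.2))]

theorem WT2_iso {k : Ch} {F : Set (Rn 3)} (h1 : k.Of F) (h2 : k.Bi idE 1) :
    volume k.U ≤ μH[2] F := by
  have e : AntilipschitzWith 1 k.φ := AntilipschitzWith.of_le_mul_dist fun ξ ξ' => by
    have := (h2 (ξ - ξ')).2
    rwa [dist_eq_norm, dist_eq_norm, Ch.φ, Ch.φ, add_sub_add_left_eq_sub, ← map_sub]
  rw [← CMass_two, ← h1.2.2]
  simpa using e.le_hausdorffMeasure_image zero_le_two k.U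

theorem WT2_pow {p a : ℝ} (hp : p < 3) (ha : 1 ≤ a) :
    ENNReal.ofReal a ^ p ≤ ENNReal.ofReal a ^ 3 := by
  rw [← ENNReal.rpow_natCast]
  exact ENNReal.rpow_le_rpow_of_exponent_le (ENNReal.one_le_ofReal.2 ha) (by exact_mod_cast hp.le)

end

namespace Cu
variable {C : Cu} {aK C1 p : ℝ} {Ω : Set (Rn 3)} {K : Kx Ω} {ch : Set (Rn 3) → Ch}
  {w : Set (Rn 3) → ℝ} {kp : Set (I3 × I3)} {k : Fin 3} {z : I3} {u : I3 × I3}

theorem WT2_MF (hp1 : 1 ≤ p) (hp : p < 3) (h1 : 1 ≤ C1) (h2 : C1 ≤ C.cf) {c : Ch} {a : ℝ}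
    (hc : c.Shp a) (F : Set (Rn 3)) :
    C.MF p C1 kp c a F ≤ 8 * ENNReal.ofReal C.cf ^ 3 * volume c.U := by
  have h3 (x : Rn 3) : C.Wt C1 kp x ^ p ≤ ENNReal.ofReal C.cf ^ 3 := by
    refine (ENNReal.rpow_le_rpow (ENNReal.ofReal_le_ofReal ?_) (by linarith)).trans
      (WT2_pow hp (h1.trans h2))
    split_ifs
    exacts [le_rfl, h2]
  unfold MF
  split_ifs
  · calc _ ≤ ENNReal.ofReal a * (ENNReal.ofReal C.cf ^ 3 * μH[1] (frontier c.U)) := by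
          rw [← setLIntegral_const]
          exact mul_le_mul' le_rfl (lintegral_mono fun ξ => h3 _)
      _ = ENNReal.ofReal C.cf ^ 3 * (ENNReal.ofReal a * μH[1] (frontier c.U)) := by ring
      _ ≤ ENNReal.ofReal C.cf ^ 3 * (8 * volume c.U) := mul_le_mul' le_rfl hc.bd.1
      _ = _ := by ring
  · calc _ ≤ ENNReal.ofReal C.cf ^ 3 * volume c.U := by
          rw [← setLIntegral_const]
          exact lintegral_mono fun ξ => h3 _
      _ ≤ _ := mul_le_mul' (le_mul_of_one_le_left' (by norm_num)) le_rfl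

theorem WT2_k (hc : C.I.card = 2) : ∃ k, ∀ i, i ∉ C.I ↔ i = k := by
  obtain ⟨k, hk⟩ := Finset.card_eq_one.1 (show C.Iᶜ.card = 1 by
    rw [Finset.card_compl, hc, Fintype.card_fin])
  exact ⟨k, fun i => by rw [← Finset.mem_compl, hk, Finset.mem_singleton]⟩

theorem WT2_Q (hk : ∀ i, i ∉ C.I ↔ i = k) (u : I3 × I3) {R : ℝ} (hR : 0 ≤ R) :
    C.Q u R = WT2_D k (C.ctr u) R := by
  ext x
  rw [mem_Q hR]
  exact and_congr_left fun _ => ⟨fun h => h k ((hk k).2 rfl), fun h i hi => (hk i).1 hi ▸ h⟩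

theorem WT2_ctr (C : Cu) (u : I3 × I3) (i : Fin 3) : C.ctr u i =
    C.X (fun i => u.1 i) i + if i ∈ C.I then (u.2 i + 1 / 2) * C.t0 else 0 := by
  rw [ctr, Pi.add_apply, GNum_pr]

/-- A tile which meets a cell of the slice belongs to it. -/
theorem WT2_own (h : C.Ok aK) (hu : u ∈ C.Adm) {x : Rn 3} (hx : x ∈ C.icl z)
    (hq : x ∈ C.Q u (C.t0 / 2)) : u.1 = z := by
  obtain ⟨-, hh, -, -, -, hρ, -⟩ := h.pos
  rw [h.mem_icl] at hx
  have e : C.X (fun i => u.1 i) = C.X fun i => z i := by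
    funext i
    have e1 := C.WT2_ctr u i
    by_cases hi : i ∈ C.I
    · obtain ⟨a, ha⟩ := h.X_lat z i
      obtain ⟨a', ha'⟩ := h.X_lat u.1 i
      obtain ⟨k1, k2⟩ := hx.2 i hi
      obtain ⟨k3, k4⟩ := hu.2.2 i hi
      obtain ⟨k5, k6⟩ := abs_le.1 (show |x i - C.ctr u i| ≤ C.t0 / 2 from hq.2 i hi)
      rw [if_pos hi] at e1
      rw [ha] at k1 k2
      rw [ha'] at e1
      have k7 : (a' : ℝ) < a + 1 := lt_of_mul_lt_mul_right (by linarith only [hρ, e1, k2, k3, k5]) hh.le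
      have k8 : (a : ℝ) < a' + 1 := lt_of_mul_lt_mul_right (by linarith only [hρ, e1, k1, k4, k6]) hh.le
      have k9 : a' = a := by
        have : a' < a + 1 := by exact_mod_cast k7
        have : a < a' + 1 := by exact_mod_cast k8
        omega
      rw [ha, ha', k9]
    · rw [if_neg hi, add_zero] at e1
      rw [← e1, ← hx.1 i hi]
      exact (hq.1 i hi).symm
  have e2 := congrArg C.ξ e
  rw [h.Xξ.2.1, h.Xξ.2.1] at e2
  exact funext fun i => Int.cast_injective (congrFun e2 i)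

/-- The number of tiles in a cell of the slice. -/
theorem WT2_cnt (h : C.Ok aK) (hk : ∀ i, i ∉ C.I ↔ i = k) (z : I3) :
    ({u | u ∈ C.Adm ∧ u.1 = z}.encard : ℝ≥0∞) * ENNReal.ofReal (C.t0 ^ 2) ≤
      ENNReal.ofReal (C.h ^ 2) := by
  obtain ⟨-, -, -, ht, -, hρ, -⟩ := h.pos
  obtain ⟨n, hn⟩ := h.mult.2.1
  have h1 := encard_le_encard_of_injOn (s := {u | u ∈ C.Adm ∧ u.1 = z})
    (t := (Fintype.piFinset fun _ : Fin 2 => Finset.Ico (0 : ℤ) n : Finset (Fin 2 → ℤ)))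
    (f := fun u => k.removeNth u.2) (fun u hu => ?_) fun u hu u' hu' e => ?_
  · rw [encard_coe_eq_coe_finsetCard, Fintype.card_piFinset, Finset.prod_const, Finset.card_univ,
      Fintype.card_fin, Int.card_Ico, sub_zero, Int.toNat_natCast] at h1
    refine (mul_le_mul' (ENat.toENNReal_le.2 h1) le_rfl).trans_eq ?_
    rw [ENat.toENNReal_coe, hn, mul_pow, ENNReal.ofReal_mul (by positivity), ← Nat.cast_pow,
      ENNReal.ofReal_natCast]
  · refine Finset.mem_coe.2 (Fintype.mem_piFinset.2 fun j => Finset.mem_Ico.2 ?_)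
    obtain ⟨k1, k2⟩ := hu.1.2.2 (k.succAbove j)
      (by_contra fun e => k.succAbove_ne j ((hk _).1 e))
    have k3 : (0 : ℝ) ≤ u.2 (k.succAbove j) := le_of_mul_le_mul_right (by linarith) ht
    have k4 : (u.2 (k.succAbove j) : ℝ) < n := lt_of_mul_lt_mul_right (by linarith) ht.le
    exact ⟨by exact_mod_cast k3, by exact_mod_cast k4⟩
  · refine Prod.ext (hu.2.trans hu'.2.symm) (funext ((Fin.forall_iff_succAbove k).2
      ⟨?_, fun j => congrFun e j⟩))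
    rw [hu.1.2.1 k ((hk k).2 rfl), hu'.1.2.1 k ((hk k).2 rfl)]

/-- Away from the margin every point of a cell of the slice is in an admissible tile. -/
theorem WT2_tile (h : C.Ok aK) (hk : ∀ i, i ∉ C.I ↔ i = k) (hz : C.icl z ⊆ C.O) :
    ∃ c, C.icl z ⊆ WT2_D k c (C.h / 2) ∧ ∀ y ∈ WT2_D k c (C.h / 2 - 4 * C.ρ'),
      ∃ u ∈ C.Adm, u.1 = z ∧ y ∈ C.Q u (C.t0 / 2) := by
  obtain ⟨-, hh, -, ht, -⟩ := h.pos
  have hI : k ∉ C.I := (hk k).2 rfl
  refine ⟨fun i => C.X (fun i => z i) i + if i ∈ C.I then C.h / 2 else 0, fun x hx => ?_,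
    fun y hy => ⟨(z, fun i => if i ∈ C.I then ⌊(y i - C.X (fun i => z i) i) / C.t0⌋ else 0),
      ⟨hz, fun i hi => if_neg hi, fun i hi => ?_⟩, rfl, fun i (hi : i ∉ C.I) => ?_,
        fun i (hi : i ∈ C.I) => ?_⟩⟩
  · rw [h.mem_icl] at hx
    refine ⟨by simpa only [if_neg hI, add_zero] using hx.1 k hI,
      (pi_norm_le_iff_of_nonneg (by positivity)).2 fun i => ?_⟩
    rw [Pi.sub_apply, Real.norm_eq_abs, abs_le]
    by_cases hi : i ∈ C.I
    · rw [if_pos hi]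
      constructor <;> linarith only [hx, hi, (hx.2 i hi).1, (hx.2 i hi).2]
    · rw [if_neg hi, hx.1 i hi]
      constructor <;> linarith only [hh]
  · have k1 := (norm_le_pi_norm _ i).trans hy.2
    rw [Pi.sub_apply, Real.norm_eq_abs, abs_le, if_pos hi] at k1
    have k2 := (le_div_iff₀ ht).1 (Int.floor_le ((y i - C.X (fun i => z i) i) / C.t0))
    have k3 := (div_lt_iff₀ ht).1 (Int.lt_floor_add_one ((y i - C.X (fun i => z i) i) / C.t0))
    simp only [if_pos hi]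
    constructor <;> linarith only [k1, k3, h, k2, h.ρ1, k1.1, k1.2]
  · obtain rfl := (hk i).1 hi
    have k1 := hy.1
    change y i = C.ctr _ i
    rw [WT2_ctr, if_neg hi]
    simpa only [if_neg hi] using k1
  · change |y i - C.ctr _ i| ≤ _
    have k2 := (le_div_iff₀ ht).1 (Int.floor_le ((y i - C.X (fun i => z i) i) / C.t0))
    have k3 := (div_lt_iff₀ ht).1 (Int.lt_floor_add_one ((y i - C.X (fun i => z i) i) / C.t0))
    rw [WT2_ctr, if_pos hi, abs_le]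
    simp only [if_pos hi]
    constructor <;> linarith only [k2, k3]

theorem WT2_un (h : C.Ok aK) (hk : ∀ i, i ∉ C.I ↔ i = k) (z : I3) {f : I3 × I3 → Set (Rn 3)}
    {a : ℝ} (ha : 0 ≤ a) (hf : ∀ u, μH[2] (f u) ≤ ENNReal.ofReal (a * C.t0 ^ 2)) :
    μH[2] (⋃ u ∈ {u | u ∈ C.Adm ∧ u.1 = z}, f u) ≤ ENNReal.ofReal (a * C.h ^ 2) := by
  refine (measure_biUnion_le _ (to_countable _) _).trans
    ((ENNReal.tsum_le_tsum (g := fun _ => ENNReal.ofReal (a * C.t0 ^ 2)) fun u => hf _).trans ?_)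
  rw [ENNReal.tsum_set_const, ENNReal.ofReal_mul ha, ENNReal.ofReal_mul ha, mul_left_comm]
  exact mul_le_mul' le_rfl (WT2_cnt h hk z)

theorem WT2_B1 (h : C.Ok aK) (hk : ∀ i, i ∉ C.I ↔ i = k) (z : I3) :
    ENNReal.ofReal C.cf ^ 3 * μH[2] (⋃ u ∈ {u | u ∈ C.Adm ∧ u.1 = z},
      C.Q u (C.ρx + (C.ζ + 48) * C.s) \ C.Q u C.ρx) ≤ ENNReal.ofReal (2 * C.g * C.h ^ 2) := by
  obtain ⟨-, -, hs, ht, hl, -, -, hζ, -⟩ := h.pos
  obtain ⟨-, n2, -, -, n5, n6, n7, -⟩ := h.num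
  have hg := h.g0.1
  have hc : 0 < C.cf := zero_lt_one.trans_le h.c1.1
  have h0 : 0 ≤ C.ρx := by linarith only [hl, n6, n7]
  have h1 : 0 ≤ (C.ζ + 48) * C.s := by positivity
  refine (mul_le_mul' le_rfl (WT2_un h hk z (a := 2 * C.g / C.cf ^ 3) (by positivity)
    fun u => ?_)).trans_eq ?_
  · rw [WT2_Q hk u h0, WT2_Q hk u (by linarith)]
    refine WT2_frame _ _ h0 (by linarith) ?_
    have h2 : C.ρx + (C.ζ + 48) * C.s ≤ C.t0 / 2 := by linarith only [hs, n2, hζ, n5, mul_pos_of_neg_of_neg (Mathlib.Tactic.Linarith.sub_neg_of_lt hs) (Mathlib.Tactic.Linarith.sub_neg_of_lt hζ), mul_nonneg_of_nonpos_of_nonpos (le_of_lt (Mathlib.Tactic.Linarith.sub_neg_of_lt hs)) (Mathlib.Tactic.Linarith.sub_nonpos_of_le n5)]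
    have h3 : C.cf ^ 3 * (C.ζ + 48) ≤ C.g * 2 ^ C.a := le_trans (by
      have := h.c1.2
      gcongr <;> linarith only [this]) h.sm
    have h4 : C.t0 = 2 * (2 ^ C.a * C.s) := by rw [t0]; ring
    rw [div_mul_eq_mul_div, le_div_iff₀ (by positivity), add_sub_cancel_left]
    calc _ ≤ 8 * ((C.ζ + 48) * C.s) * (C.t0 / 2) * C.cf ^ 3 := by gcongr
      _ = 4 * C.s * C.t0 * (C.cf ^ 3 * (C.ζ + 48)) := by ring
      _ ≤ 4 * C.s * C.t0 * (C.g * 2 ^ C.a) := by gcongr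
      _ = _ := by rw [sq]; nth_rewrite 3 [h4]; ring
  · rw [← ENNReal.ofReal_pow hc.le, ← ENNReal.ofReal_mul (by positivity)]
    congr 1
    field_simp

theorem WT2_B2 (h : C.Ok aK) (hk : ∀ i, i ∉ C.I ↔ i = k) (hz : C.icl z ⊆ C.O)
    (kp : Set (I3 × I3)) : μH[2] (C.icl z \ ⋃ u ∈ kp, C.Q u C.ρx) ≤
      ENNReal.ofReal (5 * C.g * C.h ^ 2) +
        ENNReal.ofReal (C.t0 ^ 2) * ({u | u ∈ C.Adm \ kp ∧ u.1 = z}.encard : ℝ≥0∞) := by
  obtain ⟨-, hh, hs, ht, hl, hρ, hκ, -⟩ := h.pos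
  obtain ⟨-, n2, -, -, -, n6, n7, -, n9, -, -, -, n13, -⟩ := h.num
  obtain ⟨c, c1, c2⟩ := WT2_tile h hk hz
  have hg := h.g0.1
  have h0 : 0 ≤ C.ρx := by linarith only [hl, n6, n7]
  have h1 : C.icl z \ ⋃ u ∈ kp, C.Q u C.ρx ⊆
      (WT2_D k c (C.h / 2) \ WT2_D k c (C.h / 2 - 4 * C.ρ') ∪
        ⋃ u ∈ {u | u ∈ C.Adm ∧ u.1 = z}, C.Q u (C.t0 / 2) \ C.Q u C.ρx) ∪
      ⋃ u ∈ {u | u ∈ C.Adm \ kp ∧ u.1 = z}, C.Q u (C.t0 / 2) := fun y hy => by
    by_cases k1 : y ∈ WT2_D k c (C.h / 2 - 4 * C.ρ')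
    · obtain ⟨u, hu, k2, k3⟩ := c2 y k1
      by_cases k4 : u ∈ kp
      · exact Or.inl (Or.inr (mem_biUnion ⟨hu, k2⟩ ⟨k3, fun k5 => hy.2 (mem_biUnion k4 k5)⟩))
      · exact Or.inr (mem_biUnion ⟨⟨hu, k4⟩, k2⟩ k3)
    · exact Or.inl (Or.inl ⟨c1 hy.1, k1⟩)
  refine (measure_mono h1).trans ((measure_union_le _ _).trans (add_le_add
    ((measure_union_le _ _).trans ((add_le_add
      (WT2_frame k c (a := C.g * C.h ^ 2) (by linarith only [hρ, n9]) (by linarith only [hρ]) ?_)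
      (WT2_un h hk z (a := 4 * C.g) (by positivity) fun u => ?_)).trans_eq ?_)) ?_))
  · have h2 : (1 : ℝ) ≤ C.cf ^ 3 := one_le_pow₀ h.c1.1
    have h3 : 16 * C.ρ' ≤ C.g * C.h := by linarith only [hρ, h, h2, h.ρ2, mul_nonneg_of_nonpos_of_nonpos (le_of_lt (Mathlib.Tactic.Linarith.sub_neg_of_lt hρ)) (Mathlib.Tactic.Linarith.sub_nonpos_of_le h2)]
    linarith only [hh, h3, mul_nonneg_of_nonpos_of_nonpos (le_of_lt (Mathlib.Tactic.Linarith.sub_neg_of_lt hh)) (Mathlib.Tactic.Linarith.sub_nonpos_of_le h3)]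
  · rw [WT2_Q hk u h0, WT2_Q hk u (by linarith)]
    refine WT2_frame _ _ h0 (by linarith only [n2, hs, hκ, mul_pos_of_neg_of_neg (Mathlib.Tactic.Linarith.sub_neg_of_lt hs) (Mathlib.Tactic.Linarith.sub_neg_of_lt hκ)]) ?_
    rw [show C.t0 / 2 - C.ρx = C.κ * C.s by linarith only [n2]]
    linarith only [ht, n13, mul_nonneg_of_nonpos_of_nonpos (le_of_lt (Mathlib.Tactic.Linarith.sub_neg_of_lt ht)) (Mathlib.Tactic.Linarith.sub_nonpos_of_le n13)]
  · rw [← ENNReal.ofReal_add (by positivity) (by positivity)]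
    congr 1
    ring
  · refine (measure_biUnion_le _ (to_countable _) _).trans
      ((ENNReal.tsum_le_tsum (g := fun _ => ENNReal.ofReal (C.t0 ^ 2)) fun u => ?_).trans_eq ?_)
    · rw [WT2_Q hk _ (by linarith only [ht])]
      refine (WT2_ball _ _ (by linarith only [ht])).trans_eq ?_
      congr 1
      ring
    · rw [ENNReal.tsum_set_const, mul_comm]

theorem WT2_face (hp1 : 1 ≤ p) (hp : p < 3) (h : C.Ok aK) (hf : C.Fit aK K ch w) (h1 : 1 ≤ C1)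
    (h2 : C1 ≤ C.cf) (hkp : kp ⊆ C.Adm) (hc : C.I.card = 2) (hz : C.icl z ⊆ C.O) {F : Set (Rn 3)}
    (hF : F ∈ K.cel 2) (hs : F ⊆ C.icl z) (hr : ¬ C.Rig kp F) :
    C.MF p C1 kp (ch F) (w F) F ≤
      8 * ENNReal.ofReal C.cf ^ 3 * μH[2] (F ∩ ⋃ u ∈ {u | u ∈ C.Adm ∧ u.1 = z},
        C.Q u (C.ρx + (C.ζ + 48) * C.s) \ C.Q u C.ρx) +
      ENNReal.ofReal C1 ^ 3 * μH[2] (F ∩ (C.icl z \ ⋃ u ∈ kp, C.Q u C.ρx)) := by
  obtain ⟨-, hh, hs0, ht, hl, -, hκ, hζ, -⟩ := h.pos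
  obtain ⟨-, n2, -, -, n5, n6, n7, -⟩ := h.num
  have hW : F ⊆ C.WI := fun x hx => ⟨z, hz, hs hx⟩
  obtain ⟨f1, f2, -⟩ := hf.face F hF fun x hx =>
    ball_subset_closedBall (ball_subset_ball (by linarith only [hh]) (h.O_prop.2.1 (hz (hs hx))))
  obtain ⟨f3, -, f4, -⟩ := hf.ff F hF hW
  have hd (u : I3 × I3) (hu : u ∈ kp) (x : Rn 3) (hx : x ∈ F) : x ∉ C.Q u C.ρx := fun k1 => by
    obtain ⟨-, -, -, ⟨a, ha⟩, -, ⟨b, hb⟩, -⟩ := h.mult
    refine hr ⟨hc.ge, u, hu, Kx.cell_eq hF.1 hx ▸ hf.cel h (hkp hu) ⟨b * a, ?_⟩ (by linarith only [n2, hs0, hκ, mul_pos_of_neg_of_neg (Mathlib.Tactic.Linarith.sub_neg_of_lt hs0) (Mathlib.Tactic.Linarith.sub_neg_of_lt hκ)]) k1⟩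
    rw [hb, ha, Nat.cast_mul, mul_assoc]
  have hm {u : I3 × I3} {R R' : ℝ} (e : R ≤ R') : C.Q u R ⊆ C.Q u R' :=
    fun x hx => ⟨hx.1, fun i hi => (hx.2 i hi).trans e⟩
  by_cases hb : ∃ u ∈ kp, ∃ x ∈ F, x ∈ C.Q u (C.ρx + (C.ζ + 32) * C.s)
  · obtain ⟨u, hu, x, hx, k1⟩ := hb
    refine le_add_right ((WT2_MF hp1 hp h1 h2 f2 F).trans (mul_le_mul' le_rfl
      ((WT2_iso f1 f4).trans (measure_mono fun y hy => ⟨hy, mem_biUnion (x := u)
        ⟨hkp hu, WT2_own h (hkp hu) (hs hx) (hm (by linarith only [hs0, n2, hζ, n5, mul_pos_of_neg_of_neg (Mathlib.Tactic.Linarith.sub_neg_of_lt hs0) (Mathlib.Tactic.Linarith.sub_neg_of_lt hζ), mul_nonneg_of_nonpos_of_nonpos (le_of_lt (Mathlib.Tactic.Linarith.sub_neg_of_lt hs0)) (Mathlib.Tactic.Linarith.sub_nonpos_of_le n5)]) k1)⟩ ⟨?_, hd u hu y hy⟩⟩))))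
    have k2 : ‖y - x‖ ≤ 16 * C.s := by
      rw [← f1.2.2, f3] at hx hy
      obtain ⟨ξ, hξ, rfl⟩ := hx
      obtain ⟨ξ', hξ', rfl⟩ := hy
      rw [Ch.φ, Ch.φ, add_sub_add_left_eq_sub, ← map_sub]
      refine ((f4 _).1.trans_eq (one_mul _)).trans
        ((pi_norm_le_iff_of_nonneg (by positivity)).2 fun i => abs_le.2 ?_)
      rw [Pi.sub_apply]
      constructor <;> linarith only [hξ, hξ', (hξ i).1, (hξ i).2, (hξ' i).1, (hξ' i).2]
    rw [mem_Q (by linarith only [hs0, hl, n6, n7, hζ, mul_pos_of_neg_of_neg (Mathlib.Tactic.Linarith.sub_neg_of_lt hs0) (Mathlib.Tactic.Linarith.sub_neg_of_lt hζ)])] at k1 ⊢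
    refine ⟨fun i hi => ?_, by linarith only [k1, k2, norm_sub_le_norm_sub_add_norm_sub y x (C.ctr u), k1.2]⟩
    rw [← k1.1 i hi, (h.mem_icl.1 (hs hx)).1 i hi, (h.mem_icl.1 (hs hy)).1 i hi]
  · refine le_add_left ?_
    rw [MF, if_neg fun k1 => ?_]
    · calc _ ≤ ENNReal.ofReal C1 ^ 3 * volume (ch F).U := by
            rw [← setLIntegral_const]
            refine setLIntegral_mono' f1.2.1.measurableSet fun ξ hξ => ?_
            rw [Wt, if_neg]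
            · exact WT2_pow hp h1
            rintro ⟨u, hu, k1 | k1⟩
            · exact hb ⟨u, hu, _, f1.2.2.subset (mem_image_of_mem _ hξ), hm (by linarith only [hs0]) k1⟩
            · have := k1.1
              omega
        _ ≤ _ := by
            refine mul_le_mul' le_rfl ((WT2_iso f1 f4).trans (measure_mono fun y hy => ?_))
            refine ⟨hy, hs hy, fun k1 => ?_⟩
            obtain ⟨u, hu, k2⟩ := mem_iUnion₂.1 k1
            exact hd u hu y hy k2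
    · obtain ⟨-, u, hu, k2⟩ := k1
      obtain ⟨x, hx⟩ := Kx.cells_ne hF.1
      exact hb ⟨u, hu, x, hx, hm (by linarith only [hs0, hζ, mul_pos_of_neg_of_neg (Mathlib.Tactic.Linarith.sub_neg_of_lt hs0) (Mathlib.Tactic.Linarith.sub_neg_of_lt hζ)]) (k2 hx)⟩

theorem WT2_xt (hp1 : 1 ≤ p) (hp : p < 3) (h : C.Ok aK) (hf : C.Fit aK K ch w) (h1 : 1 ≤ C1)
    (h2 : C1 ≤ C.cf) (hkp : kp ⊆ C.Adm) (hc : C.I.card = 2) (hz : C.icl z ⊆ C.O) :
    ∑' F : {F // F ∈ K.cel 2 ∧ F ⊆ C.icl z ∧ ¬ C.Rig kp F}, C.MF p C1 kp (ch F) (w F) F ≤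
      21 * (ENNReal.ofReal (C1 ^ 3 * C.g * C.h ^ 2) + ENNReal.ofReal (C.cf ^ 3 * C.t0 ^ 2) *
        ({u | u ∈ C.Adm \ kp ∧ u.1 = z}.encard : ℝ≥0∞)) := by
  obtain ⟨k, hk⟩ := WT2_k hc
  have hg := h.g0.1
  have h0 : 0 ≤ C1 := by linarith only [h1]
  have h3 : (1 : ℝ) ≤ C1 ^ 3 := one_le_pow₀ h1
  refine (ENNReal.tsum_le_tsum fun F =>
    WT2_face hp1 hp h hf h1 h2 hkp hc hz F.2.1 F.2.2.1 F.2.2.2).trans ?_
  rw [ENNReal.tsum_add, ENNReal.tsum_mul_left, ENNReal.tsum_mul_left, mul_assoc]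
  refine (add_le_add (mul_le_mul' le_rfl ((mul_le_mul' le_rfl
    (WT2_dis (fun F hF => hF.1.1) _ _)).trans (WT2_B1 h hk z))) (mul_le_mul' le_rfl
      ((WT2_dis (fun F hF => hF.1.1) _ _).trans (WT2_B2 h hk hz kp)))).trans ?_
  rw [mul_add, mul_add, ← add_assoc, ← mul_assoc, ← ENNReal.ofReal_pow h0,
    ← ENNReal.ofReal_mul (by positivity), ← ENNReal.ofReal_mul (by positivity),
    ← ENNReal.ofReal_ofNat 8, ← ENNReal.ofReal_mul (by positivity),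
    ← ENNReal.ofReal_add (by positivity) (by positivity)]
  refine add_le_add ?_ (le_trans (mul_le_mul' (ENNReal.ofReal_le_ofReal ?_) le_rfl)
    (le_mul_of_one_le_left' (by norm_num)))
  · rw [← ENNReal.ofReal_ofNat 21, ← ENNReal.ofReal_mul (by positivity)]
    exact ENNReal.ofReal_le_ofReal (by linarith only [h3, hg, mul_nonneg hg.le (sq_nonneg C.h), mul_nonneg_of_nonpos_of_nonpos (Mathlib.Tactic.Linarith.sub_nonpos_of_le h3) (Mathlib.Tactic.Linarith.sub_nonpos_of_le (mul_nonneg (LT.lt.le hg) (sq_nonneg C.h)))])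
  · gcongr

theorem WT2_box (h : C.Ok aK) (hf : C.Fit aK K ch w) {σ : Set (Rn 3)} (hσ : σ ∈ C.S2 K) :
    ∃ z, C.bx z ⊆ C.O ∧ σ = C.X '' cu z ∧ closure σ = C.bx z := by
  obtain ⟨z, h1, h2⟩ := hσ.2.2
  have h3 := (hf.bx_cel h h1).2.2 σ hσ h2
  exact ⟨z, h1, h3, by rw [h3, (h.bx_prop z).2.1]⟩

theorem WT2_Oq (h : C.Ok aK) : C.O ⊆ C.q := h.O_prop.2.1.trans
  ((ball_subset_ball (sub_le_self _ h.pos.2.1.le)).trans ball_subset_closedBall)

theorem WT2_vol (h : C.Ok aK) (z : I3) :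
    volume (C.X '' cu z) = ENNReal.ofReal (C.b ^ (3 - C.I.card) * C.h ^ 3) := by
  have h1 := h.lintX (cu z) fun _ => 1
  have h2 : cu z = univ.pi fun i => Ioo (z i : ℝ) (z i + 1) := by
    ext ξ
    simp [cu]
  rw [setLIntegral_one, setLIntegral_one, h2, Real.volume_pi_Ioo] at h1
  simpa [h2] using h1

theorem WT2_nrm (h : C.Ok aK) (hf : C.Fit aK K ch w) {F : Set (Rn 3)} (hF : F ∈ K.cel 2)
    (hs : F ⊆ C.O) : ‖C.A.comp (ch F).M‖ₑ ≤ 3 * ‖C.A‖ₑ := by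
  have h1 : (ch F).Bi C.N 1 := by
    by_cases k : F ⊆ C.WI
    exacts [(hf.ff F hF k).2.2.2, (hf.fl F hF hs k).2]
  rw [← ofReal_norm, ← ofReal_norm, ← ENNReal.ofReal_ofNat 3, ← ENNReal.ofReal_mul (by norm_num)]
  refine ENNReal.ofReal_le_ofReal (ContinuousLinearMap.opNorm_le_bound _ (by positivity) fun ξ => ?_)
  have h2 := (h.nN (C.N.symm ((ch F).M ξ))).2.2.2.2.1
  rw [C.N.apply_symm_apply] at h2
  exact h2.trans (mul_le_mul_of_nonneg_left ((h1 ξ).1.trans_eq (one_mul _)) (by positivity))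

theorem WT2_fib (S : Set (I3 × I3)) :
    ∑' z, ({u | u ∈ S ∧ u.1 = z}.encard : ℝ≥0∞) = S.encard := by
  rw [← ENNReal.tsum_set_one S, tsum_subtype S fun _ => (1 : ℝ≥0∞),
    ← ENNReal.tsum_fiberwise _ Prod.fst]
  refine tsum_congr fun z => ?_
  rw [← ENNReal.tsum_set_one, tsum_subtype _ fun _ => (1 : ℝ≥0∞), tsum_subtype, indicator_indicator,
    inter_comm]
  rfl

/-- The faces of a long box which lie in the slices. -/
theorem WT2_sl (hp1 : 1 ≤ p) (hp : p < 3) (h : C.Ok aK) (hf : C.Fit aK K ch w) (h1 : 1 ≤ C1)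
    (h2 : C1 ≤ C.cf) (hkp : kp ⊆ C.Adm) : ∃ m : C.S2 K → ℝ≥0∞,
      (∀ σ : C.S2 K, ∑' F : {F | F ∈ K.fc σ ∧ ¬ C.Rig kp F ∧ F ⊆ C.WI},
        C.MF p C1 kp (ch F) (w F) F ≤ 21 * (2 * ENNReal.ofReal (C1 ^ 3 * C.g * C.h ^ 2) +
          ENNReal.ofReal (C.cf ^ 3 * C.t0 ^ 2) * m σ)) ∧
      ENNReal.ofReal (C.b ^ (3 - C.I.card) * C.h) * ENNReal.ofReal (C.t0 ^ 2) * ∑' σ, m σ ≤
        2 * C.unk kp := by
  choose zz z1 z2 z3 using fun σ : C.S2 K => WT2_box h hf σ.2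
  by_cases hc : C.I.card = 2
  · obtain ⟨k, hk⟩ := WT2_k hc
    have hI : k ∉ C.I := (hk k).2 rfl
    have zi : Injective zz := fun σ σ' e => Subtype.ext (by rw [z2, z2, e])
    let n : I3 → ℝ≥0∞ := fun z => {u | u ∈ C.Adm \ kp ∧ u.1 = z}.encard
    refine ⟨fun σ => n (zz σ) + n (zz σ + Pi.single k 1), fun σ => ?_, ?_⟩
    · have c (a : ℤ) (ha : a = 0 ∨ a = 1) : C.icl (zz σ + Pi.single k a) ⊆ C.O := by
        refine ((h.bx_prop (zz σ)).2.2.2.2.2.2 _ (Fintype.mem_piFinset.2 fun i => ?_)).trans (z1 σ)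
        by_cases hi : i = k
        · rcases ha with rfl | rfl <;> simp [hi, hI]
        · have : i ∈ C.I := by_contra fun e => hi ((hk i).1 e)
          simp [hi, this]
      have e : {F | F ∈ K.fc σ ∧ ¬ C.Rig kp F ∧ F ⊆ C.WI} ⊆
          {F | F ∈ K.cel 2 ∧ F ⊆ C.icl (zz σ + Pi.single k 0) ∧ ¬ C.Rig kp F} ∪
          {F | F ∈ K.cel 2 ∧ F ⊆ C.icl (zz σ + Pi.single k 1) ∧ ¬ C.Rig kp F} := fun F hF => by
        obtain ⟨x, hx⟩ := Kx.cells_ne hF.1.1.1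
        obtain ⟨z, -, hz⟩ := hF.2.2 hx
        have b : x ∈ C.bx (zz σ) := z3 σ ▸ hF.1.2 hx
        have e1 := hz.2 k hI
        have d (a : ℤ) (ha : a = 0 ∨ a = 1) (e2 : z k = zz σ k + a) :
            F ⊆ C.icl (zz σ + Pi.single k a) := by
          rw [← Kx.cell_eq hF.1.1.1 hx]
          refine hf.icl_cel h (c a ha) ⟨fun i => ?_, fun i hi => ?_⟩
          · by_cases hi : i = k
            · rw [hi, Pi.add_apply, Pi.single_eq_same, ← e2]
              exact hz.1 k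
            · rw [Pi.add_apply, Pi.single_eq_of_ne hi, add_zero]
              exact b i
          · rw [(hk i).1 hi, Pi.add_apply, Pi.single_eq_same, ← e2, e1]
        have b1 := b k
        rw [e1] at b1
        have b2 : zz σ k ≤ z k := by exact_mod_cast b1.1
        have b3 : z k ≤ zz σ k + 1 := by exact_mod_cast b1.2
        by_cases b4 : z k = zz σ k + 0
        · exact Or.inl ⟨hF.1.1, d 0 (Or.inl rfl) b4, hF.2.1⟩
        · exact Or.inr ⟨hF.1.1, d 1 (Or.inr rfl) (by omega), hF.2.1⟩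
      refine (ENNReal.tsum_mono_subtype (fun F => C.MF p C1 kp (ch F) (w F) F) e).trans
        ((ENNReal.tsum_union_le (fun F => C.MF p C1 kp (ch F) (w F) F) _ _).trans
          ((add_le_add (WT2_xt hp1 hp h hf h1 h2 hkp hc (c 0 (Or.inl rfl)))
            (WT2_xt hp1 hp h hf h1 h2 hkp hc (c 1 (Or.inr rfl)))).trans_eq ?_))
      simp only [n, Pi.single_zero, add_zero]
      ring
    · have e (v : I3) : ∑' σ, n (zz σ + v) ≤ (C.Adm \ kp).encard :=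
        (ENNReal.tsum_comp_le_tsum_of_injective ((add_left_injective v).comp zi) n).trans_eq
          (WT2_fib _)
      have e0 := e 0
      simp only [add_zero] at e0
      have := h.pos.2.2.2.2.2.2.2.2.1
      have := h.pos.2.1
      rw [ENNReal.tsum_add, unk, tv, hc, ← ENNReal.ofReal_mul (by positivity)]
      refine (mul_le_mul' le_rfl (add_le_add e0 (e _))).trans_eq ?_
      rw [show C.b ^ (3 - 2) * C.h * C.t0 ^ 2 = C.t0 ^ 2 * (C.b * C.h) ^ (3 - 2) by ring]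
      ring
  · refine ⟨0, fun σ => ?_, by simp⟩
    have : IsEmpty {F | F ∈ K.fc σ ∧ ¬ C.Rig kp F ∧ F ⊆ C.WI} := ⟨fun ⟨F, hF⟩ => by
      obtain ⟨x, hx⟩ := Kx.cells_ne hF.1.1.1
      have b1 := (hf.WI_sk h (hF.2.2 hx)).2
      rw [Kx.cell_eq hF.1.1.1 hx, hF.1.1.2] at b1
      have b2 := C.I.card_le_univ
      rw [Fintype.card_fin] at b2
      have b3 := h.WI_prop.2.2.2.2.2 (by omega) (zz σ)
      exact σ.2.2.1 fun y hy => ⟨zz σ, b3 ▸ z1 σ, b3 ▸ z3 σ ▸ subset_closure hy⟩⟩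
    rw [tsum_empty]
    exact zero_le

/-- The walls of a long box. -/
theorem WT2_wall : ∃ Cm : ℝ≥0∞, Cm ≠ ⊤ ∧ ∀ (C : Cu) (aK : ℝ) (Ω : Set (Rn 3)) (K : Kx Ω)
    (ch : Set (Rn 3) → Ch) (w : Set (Rn 3) → ℝ), C.Ok aK → C.Fit aK K ch w → ∀ σ ∈ C.S2 K,
      ∑' _ : {F | F ∈ K.fc σ ∧ ¬ F ⊆ C.WI}, ENNReal.ofReal (C.h ^ 2) ≤
        Cm * ENNReal.ofReal (C.h ^ 2) := by
  obtain ⟨Cm, h0, hm⟩ := mass
  refine ⟨ENNReal.ofReal Cm, ENNReal.ofReal_ne_top, fun C aK Ω K ch w h hf σ hσ => ?_⟩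
  obtain ⟨z, z1, -, z3⟩ := WT2_box h hf hσ
  have hs : closure σ ⊆ C.O := z3.trans_subset z1
  obtain ⟨c1, c2, c3, c4⟩ := hf.cav h (σ := σ)
    ⟨hσ.1, subset_closure.trans (hs.trans (WT2_Oq h))⟩
  have c5 := hm Ω K ch σ _ _ _ hσ.1 (zero_le_one.trans c1) c2.le c3 fun F hF => (c4 F hF).2
  rw [ca, if_pos (Or.inr hσ.2.2), cl, if_neg hσ.2.1, if_pos hσ.2.2] at c5
  refine le_trans (le_of_eq (tsum_congr fun F => ?_)) (((ENNReal.tsum_mono_subtype
    (fun F => volume (ch F).U) fun F hF => hF.1).trans c5).trans ?_)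
  · have e : sqr C.h = {ξ : Rn 2 | ξ 0 ∈ Ioo 0 C.h ∧ ξ 1 ∈ Ioo 0 C.h} := by
      ext ξ
      simp [sqr, Fin.forall_fin_two]
    rw [(hf.fl F F.2.1.1 (F.2.1.2.trans hs) F.2.2).1, e, CMass_box, sub_zero, sq,
      ENNReal.ofReal_mul h.pos.2.1.le]
  · rw [← ENNReal.ofReal_mul (by linarith)]
    exact ENNReal.ofReal_le_ofReal (by linarith only [h0, sq_nonneg C.h, sq_nonneg C.h, mul_nonneg_of_nonpos_of_nonpos (Mathlib.Tactic.Linarith.sub_nonpos_of_le (sq_nonneg C.h)) (Mathlib.Tactic.Linarith.sub_nonpos_of_le h0)])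

/-- The weights of the faces of the long boxes. -/
theorem WT2_wgt (h : C.Ok aK) (hf : C.Fit aK K ch w) : ∃ V γ : C.S2 K → ℝ≥0∞,
    ∑' σ, V σ ≤ 12 * ENNReal.ofReal (C.g * C.η ^ 3) ∧ ∀ σ : C.S2 K,
      ENNReal.ofReal (C.b ^ (3 - C.I.card) * C.h) * ENNReal.ofReal (C.g * C.h ^ 2) ≤ V σ ∧
      γ σ * ENNReal.ofReal (C.h ^ 2) ≤ V σ ∧
      ∀ F, C.wgt aK σ F ≤ ENNReal.ofReal (C.b ^ (3 - C.I.card) * C.h) ∧
        (¬ F ⊆ C.WI → C.wgt aK σ F = γ σ) := by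
  classical
  obtain ⟨hη, hh, -, -, -, -, -, -, hb, hK⟩ := h.pos
  have hg := h.g0
  have h0 : 0 ≤ C.b ^ (3 - C.I.card) * C.h := by positivity
  refine ⟨fun σ => ENNReal.ofReal C.g * volume (σ.1 ∩ C.q) +
      volume (σ.1 ∩ (C.q \ ball C.o (C.η - 16 * C.b * C.h))),
    fun σ => ENNReal.ofReal (C.b ^ (3 - C.I.card) * C.h *
      if σ.1 ⊆ closedBall C.o (C.η - 13 * C.b * C.h) then C.g else 1), ?_, fun σ => ?_⟩
  · rw [ENNReal.tsum_add, ENNReal.tsum_mul_left]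
    refine (add_le_add (mul_le_mul' le_rfl (WT2_dis (fun _ k => k.1.1) _ _))
      ((WT2_dis (fun _ k => k.1.1) _ _).trans h.layer)).trans ?_
    rw [q, Real.volume_pi_closedBall _ hη.le, Fintype.card_fin, ← ENNReal.ofReal_mul hg.1.le,
      ← ENNReal.ofReal_add (by have := hg.1; positivity) (by positivity),
      ← ENNReal.ofReal_ofNat 12, ← ENNReal.ofReal_mul (by norm_num)]
    refine ENNReal.ofReal_le_ofReal ?_
    have h1 : (1 : ℝ) ≤ aK ^ 30 * (C.cf + C.cg) ^ 3 := one_le_mul_of_one_le_of_one_le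
      (one_le_pow₀ (by linarith only [hK, hg])) (one_le_pow₀ (by linarith [h.c1.1, h.c1.2]))
    have h2 : 100 * C.b * C.h ≤ C.g * C.η := (le_mul_of_one_le_left (by positivity) h1).trans h.lay
    linarith only [h2, mul_le_mul_of_nonneg_right h2 (sq_nonneg C.η), sq_nonneg C.η]
  · obtain ⟨z, z1, z2, z3⟩ := WT2_box h hf σ.2
    have z4 : σ.1 ⊆ C.bx z := subset_closure.trans z3.subset
    have z5 : σ.1 ⊆ C.q := z4.trans (z1.trans (WT2_Oq h))
    have v : volume σ.1 = ENNReal.ofReal (C.b ^ (3 - C.I.card) * C.h ^ 3) := by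
      rw [z2, WT2_vol h]
    have v1 : ENNReal.ofReal (C.b ^ (3 - C.I.card) * C.h * (C.g * C.h ^ 2)) =
        ENNReal.ofReal C.g * volume (σ.1 ∩ C.q) := by
      rw [inter_eq_left.2 z5, v, ← ENNReal.ofReal_mul hg.1.le]
      congr 1
      ring
    refine ⟨le_add_right (by rw [← ENNReal.ofReal_mul h0, v1]), ?_, fun F => ?_⟩
    · dsimp only
      split_ifs with k
      · refine le_add_right ?_
        rw [← ENNReal.ofReal_mul (mul_nonneg h0 hg.1.le), mul_assoc, v1]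
      · refine le_add_left ?_
        obtain ⟨x, hx, k1⟩ := not_subset.1 k
        have k3 : σ.1 ⊆ C.q \ ball C.o (C.η - 16 * C.b * C.h) := fun y hy => ⟨z5 hy, fun k2 => by
          rw [mem_ball_iff_norm] at k2
          refine k1 (mem_closedBall_iff_norm.2 ?_)
          linarith only [k2, h, z4, hx, hy, norm_sub_le_norm_sub_add_norm_sub x y C.o,
            (h.bx_prop z).2.2.2.2.2.1 x (z4 hx) y (z4 hy)]⟩
        rw [inter_eq_left.2 k3, v, mul_one, ← ENNReal.ofReal_mul h0]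
        exact le_of_eq (by congr 1; ring)
    · rw [wgt, if_neg σ.2.2.1, if_pos σ.2.2.2]
      refine ⟨ENNReal.ofReal_le_ofReal (mul_le_of_le_one_right h0 ?_), fun k => ?_⟩
      · split_ifs <;> linarith only [hg, hg.2]
      · simp only [k, false_or, ite_not]

end Cu

theorem xt2 {p : ℝ} (hp1 : 1 ≤ p) (hp : p < 3) : ∃ C0 : ℝ≥0∞, C0 ≠ ⊤ ∧
    ∀ (C : Cu) (aK C1 : ℝ) (Ω : Set (Rn 3)) (K : Kx Ω) (ch : Set (Rn 3) → Ch)
      (w : Set (Rn 3) → ℝ) (kp : Set (I3 × I3)), C.Ok aK → C.Fit aK K ch w → 1 ≤ C1 → C1 ≤ C.cf →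
      kp ⊆ C.Adm → C.I.card = 2 → ∀ z, C.icl z ⊆ C.O →
      ∑' F : {F // F ∈ K.cel 2 ∧ F ⊆ C.icl z ∧ ¬ C.Rig kp F}, C.MF p C1 kp (ch F) (w F) F ≤
        C0 * (ENNReal.ofReal (C1 ^ 3 * C.g * C.h ^ 2) + ENNReal.ofReal (C.cf ^ 3 * C.t0 ^ 2) *
          ({u | u ∈ C.Adm \ kp ∧ u.1 = z}.encard : ℝ≥0∞)) := by
  exact ⟨21, by norm_num, fun C aK C1 Ω K ch w kp h hf h1 h2 hkp hc z hz =>
    Cu.WT2_xt hp1 hp h hf h1 h2 hkp hc hz⟩

theorem xm2 {p : ℝ} (hp1 : 1 ≤ p) (hp : p < 3) : ∃ C0 : ℝ≥0∞, C0 ≠ ⊤ ∧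
    ∀ (C : Cu) (aK C1 : ℝ) (Ω : Set (Rn 3)) (K : Kx Ω) (ch : Set (Rn 3) → Ch)
      (w : Set (Rn 3) → ℝ) (kp : Set (I3 × I3)), C.Ok aK → C.Fit aK K ch w → 1 ≤ C1 → C1 ≤ C.cf →
      kp ⊆ C.Adm →
      C.SumF aK K kp (C.S2 K) (fun F => ‖C.A.comp (ch F).M‖ₑ ^ p * C.MF p C1 kp (ch F) (w F) F) ≤
        C0 * (ENNReal.ofReal C1 ^ 3 * C.rem p +
          ENNReal.ofReal C.cf ^ 3 * ‖C.A‖ₑ ^ p * C.unk kp) := by
  obtain ⟨Cw, w0, hw⟩ := xwall hp1 hp
  obtain ⟨Cm, m0, hm⟩ := Cu.WT2_wall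
  have p0 : 0 ≤ p := zero_le_one.trans hp1
  refine ⟨3 ^ p * ((42 + Cw * Cm) * 12 + 42), by finiteness,
    fun C aK C1 Ω K ch w kp h hf h1 h2 hkp => ?_⟩
  obtain ⟨m, m1, m2⟩ := Cu.WT2_sl hp1 hp h hf h1 h2 hkp
  obtain ⟨V, γ, v1, v2⟩ := Cu.WT2_wgt h hf
  have c1 : 0 ≤ C1 := by linarith
  have c2 : 0 ≤ C.cf := by linarith
  generalize ENNReal.ofReal (C.b ^ (3 - C.I.card) * C.h) = β at m2 v2
  have key (σ : C.S2 K) : ∑' F : {F // F ∈ K.fc σ ∧ ¬ C.Rig kp F}, C.wgt aK σ F *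
      (‖C.A.comp (ch F).M‖ₑ ^ p * C.MF p C1 kp (ch F) (w F) F) ≤
      3 ^ p * ‖C.A‖ₑ ^ p * ((42 + Cw * Cm) * ENNReal.ofReal C1 ^ 3 * V σ +
        21 * ENNReal.ofReal C.cf ^ 3 * (β * ENNReal.ofReal (C.t0 ^ 2) * m σ)) := by
    obtain ⟨z, z1, -, z3⟩ := Cu.WT2_box h hf σ.2
    obtain ⟨a1, a2, a3⟩ := v2 σ
    have n (F : Set (Rn 3)) (hF : F ∈ K.fc σ) : ‖C.A.comp (ch F).M‖ₑ ^ p ≤ 3 ^ p * ‖C.A‖ₑ ^ p := by
      rw [← ENNReal.mul_rpow_of_nonneg _ _ p0]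
      exact ENNReal.rpow_le_rpow (Cu.WT2_nrm h hf hF.1 (hF.2.trans (z3.trans_subset z1))) p0
    have e : {F | F ∈ K.fc σ ∧ ¬ C.Rig kp F} ⊆ {F | F ∈ K.fc σ ∧ ¬ C.Rig kp F ∧ F ⊆ C.WI} ∪
        {F | F ∈ K.fc σ ∧ ¬ F ⊆ C.WI} := fun F hF =>
      (em (F ⊆ C.WI)).imp (fun k => ⟨hF.1, hF.2, k⟩) fun k => ⟨hF.1, k⟩
    let f : Set (Rn 3) → ℝ≥0∞ := fun F =>
      C.wgt aK σ F * (‖C.A.comp (ch F).M‖ₑ ^ p * C.MF p C1 kp (ch F) (w F) F)
    have b1 : ∑' F : {F | F ∈ K.fc σ ∧ ¬ C.Rig kp F ∧ F ⊆ C.WI}, f F ≤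
        β * (3 ^ p * ‖C.A‖ₑ ^ p * (21 * (2 * (ENNReal.ofReal C1 ^ 3 *
          ENNReal.ofReal (C.g * C.h ^ 2)) +
            ENNReal.ofReal C.cf ^ 3 * ENNReal.ofReal (C.t0 ^ 2) * m σ))) := by
      refine (ENNReal.tsum_le_tsum fun F : {F | F ∈ K.fc σ ∧ ¬ C.Rig kp F ∧ F ⊆ C.WI} =>
        mul_le_mul' (a3 F).1 (mul_le_mul' (n F F.2.1) le_rfl)).trans ?_
      rw [ENNReal.tsum_mul_left, ENNReal.tsum_mul_left, ← ENNReal.ofReal_pow c1,
        ← ENNReal.ofReal_pow c2, ← ENNReal.ofReal_mul (by positivity),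
        ← ENNReal.ofReal_mul (by positivity), ← mul_assoc (C1 ^ 3)]
      exact mul_le_mul' le_rfl (mul_le_mul' le_rfl (m1 σ))
    have b2 : ∑' F : {F | F ∈ K.fc σ ∧ ¬ F ⊆ C.WI}, f F ≤ γ σ * (3 ^ p * ‖C.A‖ₑ ^ p *
        (Cw * (ENNReal.ofReal C1 ^ 3 * (Cm * ENNReal.ofReal (C.h ^ 2))))) := by
      refine (ENNReal.tsum_le_tsum fun F : {F | F ∈ K.fc σ ∧ ¬ F ⊆ C.WI} =>
        mul_le_mul' ((a3 F).2 F.2.2).le (mul_le_mul' (n F F.2.1)
          (hw C aK C1 Ω K ch w kp h hf h1 h2 hkp F F.2.1.1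
            (F.2.1.2.trans (z3.trans_subset z1)) F.2.2))).trans ?_
      rw [ENNReal.ofReal_mul (by positivity), ENNReal.ofReal_pow c1, ENNReal.tsum_mul_left,
        ENNReal.tsum_mul_left, ENNReal.tsum_mul_left, ENNReal.tsum_mul_left]
      gcongr
      exact hm C aK Ω K ch w h hf σ σ.2
    refine (ENNReal.tsum_mono_subtype f e).trans ((ENNReal.tsum_union_le f _ _).trans
      ((add_le_add b1 b2).trans ?_))
    calc _ = 3 ^ p * ‖C.A‖ₑ ^ p * (ENNReal.ofReal C1 ^ 3 *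
          (42 * (β * ENNReal.ofReal (C.g * C.h ^ 2)) + Cw * Cm * (γ σ * ENNReal.ofReal (C.h ^ 2))) +
          21 * ENNReal.ofReal C.cf ^ 3 * (β * ENNReal.ofReal (C.t0 ^ 2) * m σ)) := by ring
      _ ≤ 3 ^ p * ‖C.A‖ₑ ^ p * (ENNReal.ofReal C1 ^ 3 * (42 * V σ + Cw * Cm * V σ) +
          21 * ENNReal.ofReal C.cf ^ 3 * (β * ENNReal.ofReal (C.t0 ^ 2) * m σ)) := by gcongr
      _ = _ := by ring
  refine (ENNReal.tsum_le_tsum key).trans ?_
  rw [ENNReal.tsum_mul_left, ENNReal.tsum_add, ENNReal.tsum_mul_left, ENNReal.tsum_mul_left,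
    ENNReal.tsum_mul_left]
  calc _ ≤ 3 ^ p * ‖C.A‖ₑ ^ p * ((42 + Cw * Cm) * ENNReal.ofReal C1 ^ 3 *
        (12 * ENNReal.ofReal (C.g * C.η ^ 3)) + 21 * ENNReal.ofReal C.cf ^ 3 * (2 * C.unk kp)) := by
        gcongr
    _ = 3 ^ p * ((42 + Cw * Cm) * 12 * (ENNReal.ofReal C1 ^ 3 *
        (‖C.A‖ₑ ^ p * ENNReal.ofReal (C.g * C.η ^ 3))) +
          42 * (ENNReal.ofReal C.cf ^ 3 * ‖C.A‖ₑ ^ p * C.unk kp)) := by ring
    _ ≤ 3 ^ p * (((42 + Cw * Cm) * 12 + 42) * (ENNReal.ofReal C1 ^ 3 * C.rem p) +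
          ((42 + Cw * Cm) * 12 + 42) * (ENNReal.ofReal C.cf ^ 3 * ‖C.A‖ₑ ^ p * C.unk kp)) := by
        rw [Cu.rem]
        gcongr
        exacts [le_self_add, le_add_self, le_add_self]
    _ = _ := by ring

end BEp
end
end

-- merged part: Pool.Agent.Work.MP_f0515e_an.P3.WT3
section
/-! Weighted area of the faces of the fine cells (rank three; `S1` is empty otherwise). A cell in a
kept solid has only rigid faces. For another cell `16 s` times the area of its faces is at most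
`C` times its volume (`mass`, `Cbe.vol`), and `MF` is at most `8 cf^3` times the area, and `8 C1^3`
times the area unless the cell lies in `Q u (ρ + (ζ + 64) s) \ Q u ρ`. The other cells lie in the
frames, the margins or the tiles which are not kept. -/

open Set Metric Filter Topology Function BEv MeasureTheory
open scoped NNReal ENNReal

noncomputable section
namespace BEp

theorem WT3_shell {ι : Type} {S : Set ι} (hS : S.Finite) (c : ι → Rn 3) {o : Rn 3} {r r' R θ η : ℝ}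
    (h0 : 0 ≤ r) (h1 : r ≤ r') (h2 : r' ≤ R) (hR : 0 < R) (h3 : r' - r ≤ θ * R) (hη : 0 ≤ η)
    (hd : ∀ i ∈ S, ∀ j ∈ S, i ≠ j → 2 * R ≤ ‖c i - c j‖)
    (hs : ∀ i ∈ S, ball (c i) R ⊆ closedBall o η) :
    volume (⋃ i ∈ S, closedBall (c i) r' \ closedBall (c i) r) ≤
      24 * ENNReal.ofReal (θ * η ^ 3) := by
  have t0 : 0 ≤ θ := nonneg_of_mul_nonneg_left ((sub_nonneg.2 h1).trans h3) hR
  have k : ∀ i, volume (closedBall (c i) r' \ closedBall (c i) r) ≤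
      ENNReal.ofReal (3 * θ) * volume (ball (c i) R) := fun i => by
    rw [measure_sdiff (closedBall_subset_closedBall h1) measurableSet_closedBall.nullMeasurableSet
      measure_closedBall_lt_top.ne, Real.volume_pi_closedBall _ h0,
      Real.volume_pi_closedBall _ (h0.trans h1), Real.volume_pi_ball _ hR,
      ← ENNReal.ofReal_sub _ (by positivity), ← ENNReal.ofReal_mul (by positivity), Fintype.card_fin]
    refine ENNReal.ofReal_le_ofReal ?_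
    have a1 : r' ^ 2 + r' * r + r ^ 2 ≤ 3 * R ^ 2 := by linarith only [h0, h1, h2, mul_nonneg_of_nonpos_of_nonpos (Mathlib.Tactic.Linarith.sub_nonpos_of_le h0) (Mathlib.Tactic.Linarith.sub_nonpos_of_le h1), mul_nonneg_of_nonpos_of_nonpos (Mathlib.Tactic.Linarith.sub_nonpos_of_le h0) (Mathlib.Tactic.Linarith.sub_nonpos_of_le h2), mul_nonneg_of_nonpos_of_nonpos (Mathlib.Tactic.Linarith.sub_nonpos_of_le h1) (Mathlib.Tactic.Linarith.sub_nonpos_of_le h1), mul_nonneg_of_nonpos_of_nonpos (Mathlib.Tactic.Linarith.sub_nonpos_of_le h1) (Mathlib.Tactic.Linarith.sub_nonpos_of_le h2), mul_nonneg_of_nonpos_of_nonpos (Mathlib.Tactic.Linarith.sub_nonpos_of_le h2) (Mathlib.Tactic.Linarith.sub_nonpos_of_le h2)]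
    have a2 := mul_le_mul h3 a1 (by linarith only [h0, h1, sq_nonneg r', sq_nonneg r, mul_nonneg_of_nonpos_of_nonpos (Mathlib.Tactic.Linarith.sub_nonpos_of_le h0) (Mathlib.Tactic.Linarith.sub_nonpos_of_le h1)]) (mul_nonneg t0 hR.le)
    linarith
  refine (measure_biUnion_le _ hS.countable _).trans 
    ((ENNReal.tsum_le_tsum fun i : S => k i).trans ?_)
  rw [ENNReal.tsum_mul_left, ← measure_biUnion (f := fun i => ball (c i) R) hS.countable
    (fun i hi j hj e => ball_disjoint_ball (by rw [dist_eq_norm]; linarith [hd i hi j hj e]))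
    fun _ _ => measurableSet_ball]
  refine (mul_le_mul_right (measure_mono (iUnion₂_subset hs)) _).trans (le_of_eq ?_)
  rw [Real.volume_pi_closedBall _ hη, ← ENNReal.ofReal_mul (by positivity), Fintype.card_fin,
    ← ENNReal.ofReal_ofNat 24, ← ENNReal.ofReal_mul (by positivity)]
  congr 1
  ring

open Classical in
theorem WT3_sum {Ω : Set (Rn 3)} (K : Kx Ω) (hΩ : IsOpen Ω) {T : Set (Set (Rn 3))}
    (hT : T ⊆ K.cel 3) (B : Set (Rn 3)) :
    ∑' σ : T, (if σ.1 ⊆ B then volume σ.1 else 0) ≤ volume B := by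
  have k := K.sum_vol hΩ (T := {σ | σ ∈ T ∧ σ ⊆ B}) (fun σ h => hT h.1) (S := B) (fun σ h => h.2)
    fun _ => 1
  simp only [setLIntegral_one] at k
  refine le_of_eq_of_le ?_ k
  rw [tsum_subtype T fun σ => if σ ⊆ B then volume σ else 0,
    tsum_subtype {σ | σ ∈ T ∧ σ ⊆ B} fun σ => volume σ]
  refine tsum_congr fun σ => ?_
  by_cases h : σ ∈ T <;> by_cases h' : σ ⊆ B <;> simp [h, h']

section
variable {C : Cu} {aK C1 p : ℝ} {Ω : Set (Rn 3)} {K : Kx Ω} {ch : Set (Rn 3) → Ch}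
  {w : Set (Rn 3) → ℝ} {kp : Set (I3 × I3)} {u : I3 × I3} {x : Rn 3} {σ F : Set (Rn 3)}

theorem WT3_MF (hp1 : 1 ≤ p) (hp : p < 3) {k : Ch} {a : ℝ} (hk : k.Of F) (hs : k.Shp a)
    {W : ℝ≥0∞} (h1 : 1 ≤ W) (hW : ∀ x ∈ closure F, C.Wt C1 kp x ≤ W) :
    C.MF p C1 kp k a F ≤ 8 * W ^ 3 * volume k.U := by
  have c : Continuous k.φ := by unfold Ch.φ; fun_prop
  have b : ∀ ξ ∈ closure k.U, C.Wt C1 kp (k.φ ξ) ^ p ≤ W ^ 3 := fun ξ hξ => by
    refine (ENNReal.rpow_le_rpow (hW _ (hk.2.2 ▸ image_closure_subset_closure_image c ⟨ξ, hξ, rfl⟩))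
      (by linarith)).trans ((ENNReal.rpow_le_rpow_of_exponent_le h1 hp.le).trans (le_of_eq ?_))
    exact ENNReal.rpow_ofNat W 3
  unfold Cu.MF
  split_ifs
  · refine (mul_le_mul_right (setLIntegral_mono' isClosed_frontier.measurableSet fun ξ hξ =>
      b ξ (frontier_subset_closure hξ)) _).trans ?_
    rw [setLIntegral_const, mul_left_comm, mul_comm 8, mul_assoc]
    exact mul_le_mul_right hs.bd.1 _
  · refine (setLIntegral_mono' hk.2.1.measurableSet fun ξ hξ => b ξ (subset_closure hξ)).trans ?_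
    rw [setLIntegral_const, mul_assoc]
    exact le_mul_of_one_le_left zero_le (by norm_num)

theorem WT3_q (h : C.Ok aK) : C.WI ⊆ C.q :=
  h.WI_prop.2.1.trans (h.O_prop.2.1.trans (ball_subset_closedBall.trans
    (closedBall_subset_closedBall (by linarith [h.pos.2.1]))))

theorem WT3_in (hp1 : 1 ≤ p) (hp : p < 3) {Cm : ℝ} (hC : 1 ≤ Cm)
    (hm : ∀ (σ : Set (Rn 3)) (N : Rn 3 ≃L[ℝ] Rn 3) (a lam : ℝ), σ ∈ K.cel 3 → 0 ≤ a → 0 ≤ lam →
      Cbe (N ⁻¹' σ) a lam → (∀ F ∈ K.fc σ, (ch F).Of F ∧ (ch F).Bi N a) →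
      ∑' F : K.fc σ, volume (ch F).U ≤ ENNReal.ofReal (Cm * a ^ 4 * lam ^ 2))
    (h : C.Ok aK) (hf : C.Fit aK K ch w) (hσ : σ ∈ C.S1 K) {W : ℝ≥0∞} (h1 : 1 ≤ W)
    (hW : ∀ x ∈ closure σ, C.Wt C1 kp x ≤ W) :
    ∑' F : {F // F ∈ K.fc σ ∧ ¬ C.Rig kp F},
        C.wgt aK σ F * (‖C.A.comp (ch F).M‖ₑ ^ p * C.MF p C1 kp (ch F) (w F) F) ≤
      ENNReal.ofReal (16 * Cm) * ‖C.A‖ₑ ^ p * (W ^ 3 * volume σ) := by
  obtain ⟨-, -, c1, c2⟩ := hf.cav h ⟨hσ.1, hσ.2.trans (WT3_q h)⟩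
  have e1 : C.cN σ = idE := by simp [Cu.cN, hσ.2]
  have e2 : C.ca aK σ = 1 := by simp [Cu.ca, hσ.2]
  have e3 : C.cl σ = 8 * C.s := by simp [Cu.cl, hσ.2]
  rw [e1, e2] at c1 c2
  rw [e3] at c1
  have s0 := h.pos.2.2.1
  have m := hm σ idE 1 (8 * C.s) hσ.1 zero_le_one (by positivity) c1 fun F hF => (c2 F hF).2
  have v : ENNReal.ofReal ((8 * C.s) ^ 3) ≤ volume σ := by
    simpa using c1.vol zero_le_one (by positivity)
  have k : ∀ F : {F // F ∈ K.fc σ ∧ ¬ C.Rig kp F},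
      C.wgt aK σ F * (‖C.A.comp (ch F).M‖ₑ ^ p * C.MF p C1 kp (ch F) (w F) F) ≤
        ENNReal.ofReal (16 * C.s) * (‖C.A‖ₑ ^ p * (8 * W ^ 3)) * volume (ch F).U := by
    rintro ⟨F, hF, -⟩
    obtain ⟨b1, b2, b3⟩ := c2 F hF
    have n : ‖C.A.comp (ch F).M‖ₑ ≤ ‖C.A‖ₑ := by
      rw [← ofReal_norm, ← ofReal_norm]
      refine ENNReal.ofReal_le_ofReal (ContinuousLinearMap.opNorm_le_bound _ (norm_nonneg _) fun ξ =>
        (C.A.le_opNorm _).trans (mul_le_mul_of_nonneg_left ?_ (norm_nonneg _)))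
      simpa using (b3 ξ).1
    rw [show C.wgt aK σ F = ENNReal.ofReal (16 * C.s) by simp [Cu.wgt, hσ.2], mul_assoc, mul_assoc]
    exact mul_le_mul_right (mul_le_mul' (ENNReal.rpow_le_rpow n (by linarith))
      (WT3_MF hp1 hp b2 (hf.face F hF.1 b1).2.1 h1 fun x hx =>
        hW x (closure_minimal hF.2 isClosed_closure hx))) _
  refine (ENNReal.tsum_le_tsum k).trans ?_
  rw [ENNReal.tsum_mul_left]
  refine (mul_le_mul_right ((ENNReal.tsum_mono_subtype (fun F => volume (ch F).U)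
    (s := {F | F ∈ K.fc σ ∧ ¬ C.Rig kp F}) fun F hF => hF.1).trans m) _).trans
    (le_trans (le_of_eq ?_) (mul_le_mul_right (mul_le_mul_right v _) _))
  have : ENNReal.ofReal (16 * C.s) * 8 * ENNReal.ofReal (Cm * 1 ^ 4 * (8 * C.s) ^ 2) =
      ENNReal.ofReal (16 * Cm) * ENNReal.ofReal ((8 * C.s) ^ 3) := by
    rw [← ENNReal.ofReal_ofNat 8, ← ENNReal.ofReal_mul (by positivity),
      ← ENNReal.ofReal_mul (by positivity), ← ENNReal.ofReal_mul (by positivity)]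
    congr 1
    ring
  calc _ = ‖C.A‖ₑ ^ p * W ^ 3 * (ENNReal.ofReal (16 * C.s) * 8 *
        ENNReal.ofReal (Cm * 1 ^ 4 * (8 * C.s) ^ 2)) := by ring
    _ = _ := by rw [this]; ring

theorem WT3_Q (hI : C.I = Finset.univ) {R : ℝ} (hR : 0 ≤ R) :
    x ∈ C.Q u R ↔ x ∈ closedBall (C.ctr u) R := by
  rw [Cu.mem_Q hR, mem_closedBall_iff_norm]
  simp [hI]

/-- Centre of a box. -/
def WT3_m (C : Cu) (z : I3) : Rn 3 := fun i => C.X (fun i => z i) i + C.h / 2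

/-- Frames, margins and tiles which are not kept. -/
def WT3_B1 (C : Cu) (kp : Set (I3 × I3)) : Set (Rn 3) :=
  (⋃ u ∈ C.Adm, closedBall (C.ctr u) (C.t0 / 2) \ closedBall (C.ctr u) C.ρx) ∪
    (⋃ z ∈ {z | C.icl z ⊆ C.O},
      closedBall (WT3_m C z) (C.h / 2) \ closedBall (WT3_m C z) (C.h / 2 - 4 * C.ρ')) ∪
    ⋃ u ∈ C.Adm \ kp, closedBall (C.ctr u) (C.t0 / 2)

/-- Neighbourhood of the zones. -/
def WT3_B2 (C : Cu) : Set (Rn 3) :=
  ⋃ u ∈ C.Adm, closedBall (C.ctr u) (C.ρx + (C.ζ + 32) * C.s) \ closedBall (C.ctr u) C.ρx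

theorem WT3_icl (h : C.Ok aK) (hI : C.I = Finset.univ) {z : I3} :
    x ∈ C.icl z ↔ x ∈ closedBall (WT3_m C z) (C.h / 2) := by
  rw [h.mem_icl, mem_closedBall_iff_norm, pi_norm_le_iff_of_nonneg (by linarith only [h, h.pos.2.1])]
  simp only [hI, Finset.mem_univ, not_true, false_imp_iff, forall_const, true_and, Pi.sub_apply,
    Real.norm_eq_abs, abs_le, WT3_m]
  exact forall_congr' fun i => ⟨fun k => ⟨by linarith only [k, k.1], by linarith [k.2]⟩,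
    fun k => ⟨by linarith only [k, k.1], by linarith only [k, k.2]⟩⟩

theorem WT3_ρx (h : C.Ok aK) : 0 < C.ρx := by
  obtain ⟨-, -, -, -, -, k1, k2, -⟩ := h.num
  linarith [h.pos.2.2.2.2.1]

theorem WT3_cov (h : C.Ok aK) (hI : C.I = Finset.univ) (hx : x ∈ C.WI)
    (hn : ∀ u ∈ kp, x ∉ C.Q u C.ρx) : x ∈ WT3_B1 C kp := by
  obtain ⟨z, hz, hx⟩ := hx
  have t0 := h.pos.2.2.2.1
  obtain ⟨k, hk⟩ : ∃ k : I3, ∀ i, k i * C.t0 ≤ x i - C.X (fun i => z i) i ∧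
      x i - C.X (fun i => z i) i < (k i + 1) * C.t0 :=
    ⟨fun i => ⌊(x i - C.X (fun i => z i) i) / C.t0⌋, fun i => ⟨(le_div_iff₀ t0).1 (Int.floor_le _),
      (div_lt_iff₀ t0).1 (Int.lt_floor_add_one _)⟩⟩
  have hb : x ∈ closedBall (C.ctr (z, k)) (C.t0 / 2) := by
    rw [mem_closedBall_iff_norm, pi_norm_le_iff_of_nonneg (by linarith only [t0])]
    intro i
    have : C.ctr (z, k) i = C.X (fun i => z i) i + (k i + 1 / 2) * C.t0 := by
      simp [Cu.ctr, prL, hI]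
    rw [Pi.sub_apply, this, Real.norm_eq_abs, abs_le]
    constructor <;> linarith only [hk, (hk i).1, (hk i).2]
  by_cases a : (z, k) ∈ C.Adm
  · by_cases b : (z, k) ∈ kp
    · exact .inl (.inl (mem_biUnion a ⟨hb, fun o => hn _ b ((WT3_Q hI (WT3_ρx h).le).2 o)⟩))
    · exact .inr (mem_biUnion (x := (z, k)) ⟨a, b⟩ hb)
  · refine .inl (.inr (mem_biUnion (x := z) hz ⟨(WT3_icl h hI).1 hx, fun o => a ⟨hz,
      fun i hi => (hi (hI ▸ Finset.mem_univ i)).elim, fun i _ => ?_⟩⟩))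
    have := (norm_le_pi_norm _ i).trans (mem_closedBall_iff_norm.1 o)
    rw [Pi.sub_apply, Real.norm_eq_abs, abs_le, WT3_m] at this
    constructor <;> linarith only [this, hk, h, (hk i).1, (hk i).2, this.1, this.2, h.ρ1]

theorem WT3_tile (h : C.Ok aK) (hI : C.I = Finset.univ) {r θ : ℝ} (h1 : C.ρx ≤ r)
    (h2 : r ≤ C.t0 / 2) (h3 : r - C.ρx ≤ θ * (C.t0 / 2)) :
    volume (⋃ u ∈ C.Adm, closedBall (C.ctr u) r \ closedBall (C.ctr u) C.ρx) ≤
      24 * ENNReal.ofReal (θ * C.η ^ 3) := by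
  obtain ⟨e0, -, -, t0, -, r0, -⟩ := h.pos
  refine WT3_shell (o := C.o) h.adm_finite C.ctr (WT3_ρx h).le h1 h2 (by linarith only [t0]) h3 e0.le
    (fun u hu u' hu' e => by linarith only [h, hu, hu', e, (h.tile_sep hu hu' e).1]) fun u hu x hx => ?_
  exact WT3_q h ((h.Q_sub hu).2.1 ((h.Q_sub hu).1 ((WT3_Q hI (by linarith only [t0, r0])).2
    (closedBall_subset_closedBall (by linarith only [r0]) (ball_subset_closedBall hx)))))

theorem WT3_v1 (h : C.Ok aK) (hI : C.I = Finset.univ) :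
    volume (WT3_B1 C kp) ≤ 72 * ENNReal.ofReal (C.g * C.η ^ 3) + C.unk kp := by
  obtain ⟨e0, h0, s0, t0, -, r0, k0, -⟩ := h.pos
  obtain ⟨-, n1, -, -, -, -, -, -, n2, -, -, -, n3, -⟩ := h.num
  have v1 := WT3_tile h hI (r := C.t0 / 2) (θ := 2 * C.g) (by linarith only [n1, k0, s0, mul_pos k0 s0]) le_rfl
    (by linarith only [n1, n3])
  rw [mul_assoc, ENNReal.ofReal_mul zero_le_two, ENNReal.ofReal_ofNat] at v1
  have v2 := WT3_shell (o := C.o) h.O_prop.2.2.2.2.2.1 (WT3_m C) (r := C.h / 2 - 4 * C.ρ')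
    (r' := C.h / 2) (R := C.h / 2) (θ := C.g) (by linarith only [r0, n2]) (by linarith only [r0]) le_rfl (by linarith only [r0, n2])
    (by linarith only [r0, h, h.ρ2, le_mul_of_one_le_left r0.le (one_le_pow₀ (n := 3) h.c1.1)]) e0.le
    (fun z _ z' _ e => ?_) fun z hz x hx => WT3_q h ⟨z, hz, (WT3_icl h hI).2
      (ball_subset_closedBall hx)⟩
  · have v3 : volume (⋃ u ∈ C.Adm \ kp, closedBall (C.ctr u) (C.t0 / 2)) ≤ C.unk kp := by
      refine (measure_biUnion_le _ (h.adm_finite.subset sdiff_subset).countable _).trans (le_of_eq ?_)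
      simp only [Real.volume_pi_closedBall _ (half_pos t0).le]
      rw [ENNReal.tsum_set_const, Cu.unk, Cu.tv, hI, Finset.card_univ, Fintype.card_fin]
      congr 2
      ring
    refine ((measure_union_le _ _).trans (add_le_add ((measure_union_le _ _).trans
      (add_le_add v1 v2)) v3)).trans (le_of_eq (by ring))
  · obtain ⟨i, hi⟩ := Function.ne_iff.1 e
    have n : ∀ ξ, C.N ξ = ξ := fun ξ => by
      have := (h.nN ξ).2.2.1
      rwa [show prL C.I ξ = ξ by ext j; simp [prL, hI]] at this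
    refine le_trans ?_ (norm_le_pi_norm _ i)
    have : (WT3_m C z - WT3_m C z') i = C.h * ((z i - z' i : ℤ) : ℝ) := by
      simp [WT3_m, Cu.X, n, mul_sub]
    rw [this, Real.norm_eq_abs, abs_mul, abs_of_pos h0]
    have : (1 : ℝ) ≤ |((z i - z' i : ℤ) : ℝ)| := by exact_mod_cast Int.one_le_abs (sub_ne_zero.2 hi)
    linarith only [h0, this, le_mul_of_one_le_right h0.le this]

theorem WT3_v2 (h : C.Ok aK) (hI : C.I = Finset.univ) :
    ENNReal.ofReal C.cf ^ 3 * volume (WT3_B2 C) ≤ 24 * ENNReal.ofReal (C.g * C.η ^ 3) := by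
  obtain ⟨-, -, s0, -, -, -, -, z0, -⟩ := h.pos
  obtain ⟨-, n1, -, -, n2, -⟩ := h.num
  obtain ⟨c1, c2⟩ := h.c1
  have c0 : 0 < C.cf := by linarith only [c1]
  have v := WT3_tile h hI (r := C.ρx + (C.ζ + 32) * C.s) (θ := C.g / C.cf ^ 3)
    (le_add_of_nonneg_right (by positivity)) (by linarith only [s0, n1, z0, n2, mul_pos_of_neg_of_neg (Mathlib.Tactic.Linarith.sub_neg_of_lt s0) (Mathlib.Tactic.Linarith.sub_neg_of_lt z0), mul_nonneg_of_nonpos_of_nonpos (le_of_lt (Mathlib.Tactic.Linarith.sub_neg_of_lt s0)) (Mathlib.Tactic.Linarith.sub_nonpos_of_le n2)]) (by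
      rw [div_mul_eq_mul_div, le_div_iff₀ (by positivity), Cu.t0, pow_succ 2]
      have a1 : C.cf ^ 3 * (C.ζ + 32) ≤ (C.cf + C.cg) ^ 3 * (C.ζ + 64) := by gcongr <;> linarith only [c2]
      linarith only [a1, h, s0, mul_le_mul_of_nonneg_right (a1.trans h.sm) s0.le])
  refine (mul_le_mul_right v _).trans (le_of_eq ?_)
  rw [mul_left_comm, ← ENNReal.ofReal_pow c0.le, ← ENNReal.ofReal_mul (by positivity)]
  congr 2
  field_simp

theorem WT3_off (h : C.Ok aK) (hf : C.Fit aK K ch w) (hu : u ∈ C.Adm) (hσ : σ ∈ K.cells)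
    (hn : ¬ σ ⊆ C.Q u C.ρx) (hx : x ∈ σ) : x ∉ C.Q u C.ρx := fun o => by
  obtain ⟨-, -, -, ⟨a, ha⟩, -, ⟨b, hb⟩, -⟩ := h.mult
  refine hn (Kx.cell_eq hσ hx ▸ hf.cel h hu ⟨b * a, by rw [hb, ha]; push_cast; ring⟩ ?_ o)
  linarith only [h, h.num.2.1, mul_pos h.pos.2.2.2.2.2.2.1 h.pos.2.2.1]

theorem WT3_zone (h : C.Ok aK) (hf : C.Fit aK K ch w) (hI : C.I = Finset.univ) (hu : u ∈ C.Adm)
    (hσ : σ ∈ C.S1 K) (hn : ¬ σ ⊆ C.Q u C.ρx) (hx : x ∈ closure σ) (hz : x ∈ C.zone u) :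
    σ ⊆ WT3_B2 C := fun y hy => by
  obtain ⟨-, -, s0, -, -, -, -, z0, -⟩ := h.pos
  have r0 := WT3_ρx h
  refine mem_biUnion hu ⟨?_, fun o => WT3_off h hf hu hσ.1.1 hn hy ((WT3_Q hI r0.le).2 o)⟩
  rcases hz with hz | ⟨hz, -⟩
  · have k1 := (WT3_Q hI (by positivity)).1 hz
    rw [← Kx.cell_eq hσ.1.1 hy, hf.fine y (hσ.2 hy), kbC_closure] at hx
    have k2 := kbT_sub (kbB_sub hx)
    rw [← h.mult.2.2.2.2.2.2, mem_closedBall, dist_comm] at k2
    rw [mem_closedBall] at k1 ⊢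
    linarith only [s0, k1, k2, dist_triangle y x (C.ctr u)]
  · simp [hI] at hz

end

theorem xm1 {p : ℝ} (hp1 : 1 ≤ p) (hp : p < 3) : ∃ C0 : ℝ≥0∞, C0 ≠ ⊤ ∧
    ∀ (C : Cu) (aK C1 : ℝ) (Ω : Set (Rn 3)) (K : Kx Ω) (ch : Set (Rn 3) → Ch)
      (w : Set (Rn 3) → ℝ) (kp : Set (I3 × I3)), C.Ok aK → C.Fit aK K ch w → 1 ≤ C1 → C1 ≤ C.cf →
      kp ⊆ C.Adm →
      C.SumF aK K kp (C.S1 K) (fun F => ‖C.A.comp (ch F).M‖ₑ ^ p * C.MF p C1 kp (ch F) (w F) F) ≤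
        C0 * (ENNReal.ofReal C1 ^ 3 * C.rem p +
          ENNReal.ofReal C.cf ^ 3 * ‖C.A‖ₑ ^ p * C.unk kp) := by
  classical
  obtain ⟨Cm, hC, hm⟩ := mass
  refine ⟨ENNReal.ofReal (16 * Cm) * 96, by finiteness,
    fun C aK C1 Ω K ch w kp h hf h1 h2 hk => ?_⟩
  by_cases hI : C.I = Finset.univ
  swap
  · have : IsEmpty (C.S1 K) := ⟨fun σ => (Kx.cells_ne σ.2.1.1).ne_empty (h.WI_prop.2.2.2.2.1
      ((Finset.card_lt_iff_ne_univ _).2 hI) _ ((Kx.dm_three σ.2.1.1).1 σ.2.1.2) σ.2.2)⟩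
    simp [Cu.SumF]
  have o1 : 1 ≤ ENNReal.ofReal C1 := ENNReal.one_le_ofReal.2 h1
  have o2 : ENNReal.ofReal C1 ≤ ENNReal.ofReal C.cf := ENNReal.ofReal_le_ofReal h2
  have key : ∀ σ : C.S1 K, ∑' F : {F // F ∈ K.fc σ ∧ ¬ C.Rig kp F},
      C.wgt aK σ F * (‖C.A.comp (ch F).M‖ₑ ^ p * C.MF p C1 kp (ch F) (w F) F) ≤
      ENNReal.ofReal (16 * Cm) * ‖C.A‖ₑ ^ p *
        (ENNReal.ofReal C1 ^ 3 * (if σ.1 ⊆ WT3_B1 C kp then volume σ.1 else 0) +
          ENNReal.ofReal C.cf ^ 3 * if σ.1 ⊆ WT3_B2 C then volume σ.1 else 0) := by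
    rintro ⟨σ, hσ⟩
    by_cases a : ∃ u ∈ kp, σ ⊆ C.Q u C.ρx
    · obtain ⟨u, hu, a⟩ := a
      have : IsEmpty {F // F ∈ K.fc σ ∧ ¬ C.Rig kp F} := ⟨fun F => F.2.2 ⟨by simp [hI], u, hu,
        F.2.1.2.trans (closure_minimal a (C.Q_cpt u _).1.isClosed)⟩⟩
      simp
    have a' : ∀ u ∈ kp, ¬ σ ⊆ C.Q u C.ρx := fun u hu o => a ⟨u, hu, o⟩
    by_cases b : ∃ x ∈ closure σ, ∃ u ∈ kp, x ∈ C.zone u
    · obtain ⟨x, hx, u, hu, b⟩ := b
      rw [if_pos (WT3_zone h hf hI (hk hu) hσ (a' u hu) hx b)]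
      refine (WT3_in hp1 hp hC (hm Ω K ch) h hf hσ (o1.trans o2) fun y _ => ?_).trans
        (mul_le_mul_right le_add_self _)
      unfold Cu.Wt
      split_ifs
      exacts [le_rfl, o2]
    · rw [if_pos (c := σ ⊆ WT3_B1 C kp) fun x hx => WT3_cov h hI (hσ.2 hx) fun u hu =>
        WT3_off h hf (hk hu) hσ.1.1 (a' u hu) hx]
      refine (WT3_in hp1 hp hC (hm Ω K ch) h hf hσ o1 fun y hy => ?_).trans
        (mul_le_mul_right le_self_add _)
      unfold Cu.Wt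
      rw [if_neg fun o => b ⟨y, hy, o⟩]
  refine (ENNReal.tsum_le_tsum key).trans ?_
  rw [ENNReal.tsum_mul_left, ENNReal.tsum_add, ENNReal.tsum_mul_left, ENNReal.tsum_mul_left]
  have s1 := (WT3_sum K hf.opn (T := C.S1 K) (fun σ hσ => hσ.1) _).trans (WT3_v1 (kp := kp) h hI)
  have s2 := (mul_le_mul_right (WT3_sum K hf.opn (T := C.S1 K) (fun σ hσ => hσ.1) _) _).trans
    (WT3_v2 h hI)
  refine (mul_le_mul_right (add_le_add (mul_le_mul_right s1 _) s2) _).trans ?_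
  rw [Cu.rem, mul_assoc, mul_assoc]
  refine mul_le_mul_right ?_ _
  generalize ENNReal.ofReal (C.g * C.η ^ 3) = G
  generalize ‖C.A‖ₑ ^ p = α
  have o3 : 1 ≤ ENNReal.ofReal C1 ^ 3 := one_le_pow₀ o1
  have o4 : ENNReal.ofReal C1 ^ 3 ≤ ENNReal.ofReal C.cf ^ 3 := by gcongr
  generalize ENNReal.ofReal C1 ^ 3 = a at o3 o4 ⊢
  generalize ENNReal.ofReal C.cf ^ 3 = b at o4 ⊢
  calc α * (a * (72 * G + C.unk kp) + 24 * G)
      = 72 * (a * (α * G)) + 24 * (1 * (α * G)) + 1 * (a * α * C.unk kp) := by ring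
    _ ≤ 72 * (a * ((1 + α) * G)) + 24 * (a * ((1 + α) * G)) + 96 * (b * α * C.unk kp) := by
        gcongr
        exacts [le_add_self, le_add_self, by norm_num]
    _ = _ := by ring

end BEp
end
end

-- merged part: Pool.Agent.Work.MP_f0515e_an.P3.WEd
section
/-! Edges and chords (rank one; both sums are empty otherwise). The measure is a multiple of
`(b h)^2` times the length on the fine edges of `Ed0`, respectively on the chords of all
admissible tiles; the boxes over the cells `icl z` are disjoint and lie in the cube. On a line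
of the lattice the zones are the segments `Q u (ρx + ζ s)` (a point of another line is at distance
more than `ρ'` from the centre). `ωe (16 s)^p = (b h)^2 16 s`. -/

open Set Metric Filter Topology Function BEv MeasureTheory
open scoped NNReal ENNReal

noncomputable section
namespace BEp

theorem WEd_img (a v : Rn 3) (S : Set ℝ) :
    μH[1] ((fun t : ℝ => a + t • v) '' S) = ‖v‖ₑ * volume S := by
  have e : (fun t : ℝ => a + t • v) = AffineMap.lineMap a (a + v) := by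
    funext t
    rw [AffineMap.lineMap_apply, vsub_eq_sub, vadd_eq_add, add_sub_cancel_left, add_comm]
  rw [e, hausdorffMeasure_lineMap_image, hausdorffMeasure_real, nndist_comm, nndist_eq_nnnorm,
    add_sub_cancel_left, ENNReal.smul_def, smul_eq_mul, enorm_eq_nnnorm]

theorem WEd_emb (a : Rn 3) {v : Rn 3} (hv : v ≠ 0) :
    MeasurableEmbedding fun t : ℝ => a + t • v :=
  Continuous.measurableEmbedding (by fun_prop) fun _ _ e =>
    smul_left_injective ℝ hv (add_left_cancel e)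

theorem WEd_line (a : Rn 3) {v : Rn 3} (hv : v ≠ 0) (S : Set ℝ) (φ : Rn 3 → ℝ≥0∞) :
    ∫⁻ x in (fun t : ℝ => a + t • v) '' S, φ x ∂μH[1] = ‖v‖ₑ * ∫⁻ t in S, φ (a + t • v) := by
  have me := WEd_emb a hv
  have e : (μH[1] : Measure (Rn 3)).restrict ((fun t : ℝ => a + t • v) '' S) =
      ‖v‖ₑ • Measure.map (fun t : ℝ => a + t • v) (volume.restrict S) := by
    ext T hT
    rw [Measure.restrict_apply hT, ← image_preimage_inter, WEd_img, Measure.smul_apply,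
      me.map_apply, Measure.restrict_apply (me.measurable hT), smul_eq_mul]
  rw [e, lintegral_smul_measure, me.lintegral_map, smul_eq_mul]

/-- Length of a subset of a line. -/
theorem WEd_H {S : Set (Rn 3)} {y : Rn 3} {j : Fin 3} {T : Set ℝ}
    (h : ∀ x ∈ S, (∀ i, i ≠ j → x i = y i) ∧ x j - y j ∈ T) : μH[1] S ≤ volume T := by
  refine (measure_mono (t := (fun t : ℝ => y + t • (Pi.single j 1 : Rn 3)) '' T)
    fun x hx => ⟨_, (h x hx).2, funext fun i => ?_⟩).trans_eq ?_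
  · by_cases e : i = j
    · simp [e]
    · simp [e, (h x hx).1 i e]
  · rw [WEd_img, ← ofReal_norm, Pi.norm_single, norm_one, ENNReal.ofReal_one, one_mul]

theorem WEd_two (a b c d : ℝ) {r : ℝ} (hr : 0 ≤ r) (h1 : b - a ≤ r) (h2 : d - c ≤ r) :
    volume (Icc a b ∪ Icc c d) ≤ ENNReal.ofReal (2 * r) := by
  refine (measure_union_le _ _).trans ?_
  rw [Real.volume_Icc, Real.volume_Icc, two_mul, ENNReal.ofReal_add hr hr]
  exact add_le_add (ENNReal.ofReal_le_ofReal h1) (ENNReal.ofReal_le_ofReal h2)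

theorem WEd_un {ι : Type} {T : Set ι} (hT : T.Finite) {S : ι → Set (Rn 3)} {c : ℝ≥0∞}
    (h : ∀ u ∈ T, μH[1] (S u) ≤ c) : μH[1] (⋃ u ∈ T, S u) ≤ T.encard * c := by
  refine (measure_biUnion_le _ hT.countable _).trans ?_
  rw [← ENNReal.tsum_set_const]
  exact ENNReal.tsum_le_tsum fun u => h u u.2

theorem WEd_num {n : ℝ≥0∞} {B t y x a g : ℝ} (hn : n * ENNReal.ofReal (B * t) ≤ 8 * ENNReal.ofReal y)
    (hB : 0 ≤ B) (hg : 0 ≤ g) (ha : 0 ≤ a) (hx : a ^ 3 * x ≤ 2 * g * t) :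
    ENNReal.ofReal B * (ENNReal.ofReal a ^ 3 * (n * ENNReal.ofReal x)) ≤
      16 * ENNReal.ofReal (g * y) := by
  calc _ = n * ENNReal.ofReal (B * (a ^ 3 * x)) := by
        rw [ENNReal.ofReal_mul hB, ENNReal.ofReal_mul (pow_nonneg ha 3), ENNReal.ofReal_pow ha]
        ring
    _ ≤ n * ENNReal.ofReal (2 * (g * (B * t))) :=
        mul_le_mul_right (ENNReal.ofReal_le_ofReal (by
          linarith [mul_le_mul_of_nonneg_left hx hB])) _
    _ = 2 * ENNReal.ofReal g * (n * ENNReal.ofReal (B * t)) := by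
        rw [ENNReal.ofReal_mul zero_le_two, ENNReal.ofReal_mul hg, ENNReal.ofReal_ofNat]
        ring
    _ ≤ 2 * ENNReal.ofReal g * (8 * ENNReal.ofReal y) := mul_le_mul_right hn _
    _ = _ := by
        rw [ENNReal.ofReal_mul hg]
        ring

theorem WEd_two_pow {p : ℝ} (hp : p ≤ 3) : (2 : ℝ≥0∞) ^ p ≤ 8 :=
  (ENNReal.rpow_le_rpow_of_exponent_le one_le_two hp).trans_eq (by norm_num)

theorem WEd_pt {p : ℝ} (hp1 : 1 ≤ p) (hp : p < 3) {W c d x a : ℝ≥0∞} (h1 : 1 ≤ W) (h2 : W ≤ c)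
    (h3 : d ≤ x + a) : (W * (2 * d)) ^ p ≤ 64 * c ^ 3 * x ^ p + 64 * a ^ p * W ^ 3 := by
  have p0 : 0 ≤ p := by linarith only [hp1]
  have k1 : W ^ p ≤ W ^ 3 :=
    (ENNReal.rpow_le_rpow_of_exponent_le h1 hp.le).trans_eq (ENNReal.rpow_ofNat _ _)
  have k2 : d ^ p ≤ 8 * (x ^ p + a ^ p) :=
    ((ENNReal.rpow_le_rpow h3 p0).trans (ENNReal.rpow_add_le_mul_rpow_add_rpow x a hp1)).trans
      (mul_le_mul_left (WEd_two_pow (by linarith)) _)
  rw [ENNReal.mul_rpow_of_nonneg _ _ p0, ENNReal.mul_rpow_of_nonneg _ _ p0]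
  calc _ ≤ W ^ 3 * (8 * (8 * (x ^ p + a ^ p))) :=
        mul_le_mul' k1 (mul_le_mul' (WEd_two_pow hp.le) k2)
    _ = 64 * W ^ 3 * x ^ p + 64 * a ^ p * W ^ 3 := by ring
    _ ≤ _ := by gcongr

namespace Cu
variable {C : Cu} {aK : ℝ} {j : Fin 3}

theorem WEd_X (h : C.Ok aK) (z : I3) {i : Fin 3} (hi : i ∉ C.I) :
    C.X (fun i => z i) i = C.o i + C.h * (C.b * z i) := by
  simp only [X, Pi.add_apply, Pi.smul_apply, smul_eq_mul, GNum_off h _ hi]

theorem WEd_ctr (C : Cu) (u : I3 × I3) (i : Fin 3) : C.ctr u i =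
    C.X (fun i => u.1 i) i + if i ∈ C.I then (u.2 i + 1 / 2) * C.t0 else 0 := by
  rw [ctr, Pi.add_apply, GNum_pr]

/-- The number of the lines. -/
theorem WEd_Z (h : C.Ok aK) (hI : C.I = {j}) : ({z | C.icl z ⊆ C.O}.encard : ℝ≥0∞) *
    ENNReal.ofReal ((C.b * C.h) ^ 2 * C.h) ≤ 8 * ENNReal.ofReal (C.η ^ 3) := by
  obtain ⟨hη, hh, -⟩ := h.pos
  have := h.O_prop.2.2.2.2.2.1.countable.to_subtype
  have e : ∀ z, volume (C.X '' cu z) = ENNReal.ofReal ((C.b * C.h) ^ 2 * C.h) := fun z => by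
    have k : cu z = Set.pi univ fun i => Ioo (z i : ℝ) (z i + 1) := Set.ext fun _ => mem_univ_pi.symm
    rw [← setLIntegral_one, h.lintX, setLIntegral_one, k, Real.volume_pi_Ioo, hI,
      Finset.card_singleton]
    simp only [add_sub_cancel_left, ENNReal.ofReal_one, Finset.prod_const_one, mul_one]
    congr 1
    ring
  rw [← ENNReal.tsum_set_const, ← tsum_congr fun z : {z | C.icl z ⊆ C.O} => e z,
    ← measure_iUnion ?_ fun z => ?_]
  · refine (measure_mono (t := closedBall C.o C.η) (iUnion_subset fun z => ?_)).trans_eq ?_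
    · have k : C.X (fun i => z.1 i) ∈ C.icl z :=
        h.mem_icl.2 ⟨fun _ _ => rfl, fun _ _ => ⟨le_rfl, by linarith⟩⟩
      rw [← (h.bx_prop z).2.2.1]
      exact (interior_subset.trans (z.2 k z k.1)).trans
        ((ball_subset_ball (by linarith)).trans ball_subset_closedBall)
    · rw [Real.volume_pi_closedBall _ hη.le, Fintype.card_fin, mul_pow,
        ENNReal.ofReal_mul (by norm_num)]
      norm_num
  · refine fun z z' ne => disjoint_left.2 ?_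
    rintro _ ⟨ξ, h1, rfl⟩ ⟨ξ', h2, e⟩
    obtain rfl : ξ' = ξ := by rw [← h.Xξ.2.1 ξ', e, h.Xξ.2.1]
    refine ne (Subtype.ext (funext fun i => ?_))
    have k1 : (z.1 i : ℝ) < z'.1 i + 1 := (h1 i).1.trans (h2 i).2
    have k2 : (z'.1 i : ℝ) < z.1 i + 1 := (h2 i).1.trans (h1 i).2
    norm_cast at k1 k2
    omega
  · rw [← (h.bx_prop z).2.2.1]
    exact isOpen_interior.measurableSet

/-- The number of the tiles. -/
theorem WEd_A (h : C.Ok aK) (hI : C.I = {j}) : (C.Adm.encard : ℝ≥0∞) *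
    ENNReal.ofReal ((C.b * C.h) ^ 2 * C.t0) ≤ 8 * ENNReal.ofReal (C.η ^ 3) := by
  obtain ⟨-, -, -, ht, -, hρ, -⟩ := h.pos
  obtain ⟨n, hn⟩ := h.mult.2.1
  have k : C.Adm ⊆ (fun q : I3 × ℕ => (q.1, Pi.single j (q.2 : ℤ))) ''
      ({z | C.icl z ⊆ C.O} ×ˢ (Finset.range n : Set ℕ)) := fun u hu => by
    obtain ⟨k1, k2⟩ := hu.2.2 j (hI ▸ Finset.mem_singleton_self j)
    have k3 : (0 : ℝ) < u.2 j := pos_of_mul_pos_left (by linarith only [hρ, k1] : 0 < u.2 j * C.t0) ht.le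
    have k4 : (u.2 j : ℝ) < n := lt_of_mul_lt_mul_right (by linarith) ht.le
    norm_cast at k3 k4
    refine ⟨(u.1, (u.2 j).toNat), ⟨hu.1, Finset.mem_coe.2 (Finset.mem_range.2 (by omega))⟩,
      Prod.ext rfl (funext fun i => ?_)⟩
    by_cases e : i = j
    · simp [e, k3.le]
    · simp [e, hu.2.1 i (by simpa [hI] using e)]
  have k1 := ((encard_le_encard k).trans (encard_image_le _ _)).trans_eq encard_prod
  rw [encard_coe_eq_coe_finsetCard, Finset.card_range] at k1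
  refine (mul_le_mul_left (ENat.toENNReal_le.2 k1) _).trans (le_of_eq_of_le ?_ (WEd_Z h hI))
  rw [ENat.toENNReal_mul, ENat.toENNReal_coe, mul_assoc, ← ENNReal.ofReal_natCast,
    ← ENNReal.ofReal_mul (Nat.cast_nonneg _)]
  congr 2
  rw [mul_left_comm, ← hn]

theorem WEd_mQ (hI : C.I = {j}) {u : I3 × I3} {R : ℝ} {x : Rn 3} :
    x ∈ C.Q u R ↔ (∀ i, i ≠ j → x i = C.ctr u i) ∧ |x j - C.ctr u j| ≤ R := by
  change ((∀ i, i ∉ C.I → x i = C.ctr u i) ∧ ∀ i ∈ C.I, |x i - C.ctr u i| ≤ R) ↔ _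
  simp only [hI, Finset.mem_singleton, forall_eq, ne_eq]

theorem WEd_Q (hI : C.I = {j}) (u : I3 × I3) {R R' : ℝ} (h : R' ≤ R) :
    μH[1] (C.Q u R \ C.Q u R') ≤ ENNReal.ofReal (2 * (R - R')) := by
  refine (WEd_H (y := C.ctr u) (j := j) fun x hx => ?_).trans
    (WEd_two (-R) (-R') R' R (by linarith) (by linarith) le_rfl)
  obtain ⟨k, k1⟩ := (WEd_mQ hI).1 hx.1
  have k2 : R' < |x j - C.ctr u j| := not_le.1 fun e => hx.2 ((WEd_mQ hI).2 ⟨k, e⟩)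
  refine ⟨k, ?_⟩
  rw [abs_le] at k1
  rcases lt_abs.1 k2 with e | e
  · exact Or.inr ⟨e.le, k1.2⟩
  · exact Or.inl ⟨k1.1, by linarith⟩

theorem WEd_Q' (hI : C.I = {j}) (u : I3 × I3) (R : ℝ) :
    μH[1] (C.Q u R) ≤ ENNReal.ofReal (2 * R) := by
  refine (WEd_H (y := C.ctr u) (j := j) (T := Icc (-R) R) fun x hx =>
    ((WEd_mQ hI).1 hx).imp_right abs_le.1).trans_eq ?_
  rw [Real.volume_Icc, sub_neg_eq_add, two_mul]

/-- The ends of a line. -/
def WEd_E (C : Cu) (j : Fin 3) (z : I3) : Set (Rn 3) :=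
  {x | x ∈ C.icl z ∧ x j - C.X (fun i => z i) j ∈ Icc 0 (4 * C.ρ') ∪ Icc (C.h - 4 * C.ρ') C.h}

theorem WEd_cov (h : C.Ok aK) (hI : C.I = {j}) {x : Rn 3} (hx : x ∈ C.WI) :
    x ∈ (⋃ z ∈ {z | C.icl z ⊆ C.O}, C.WEd_E j z) ∨ ∃ u ∈ C.Adm, x ∈ C.Q u (C.t0 / 2) := by
  obtain ⟨z, hz, hx⟩ := hx
  have ht := h.pos.2.2.2.1
  have r1 := h.ρ1
  obtain ⟨k1, k2⟩ := h.mem_icl.1 hx
  obtain ⟨k3, k4⟩ := k2 j (hI ▸ Finset.mem_singleton_self j)
  rcases le_total (x j - C.X (fun i => z i) j) (4 * C.ρ') with a | a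
  · exact Or.inl (mem_biUnion hz ⟨hx, Or.inl ⟨by linarith, a⟩⟩)
  rcases le_total (C.h - 4 * C.ρ') (x j - C.X (fun i => z i) j) with b | b
  · exact Or.inl (mem_biUnion hz ⟨hx, Or.inr ⟨b, by linarith⟩⟩)
  obtain ⟨k, f1, f2⟩ : ∃ k : ℤ, k * C.t0 ≤ x j - C.X (fun i => z i) j ∧
      x j - C.X (fun i => z i) j < (k + 1) * C.t0 :=
    ⟨_, (le_div_iff₀ ht).1 (Int.floor_le _), (div_lt_iff₀ ht).1 (Int.lt_floor_add_one _)⟩
  have e : ∀ i ∈ C.I, i = j := fun i hi => Finset.mem_singleton.1 (hI ▸ hi)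
  refine Or.inr ⟨(z, Pi.single j k), ⟨hz, fun i hi => Pi.single_eq_of_ne
    (fun e => hi (hI ▸ Finset.mem_singleton.2 e)) _, fun i hi => ?_⟩,
    (WEd_mQ hI).2 ⟨fun i hi => ?_, ?_⟩⟩
  · simp only [e i hi, Pi.single_eq_same]
    constructor <;> linarith only [r1, a, f2, b, f1]
  · rw [WEd_ctr, if_neg fun a => hi (e i a), add_zero]
    exact k1 i fun a => hi (e i a)
  · rw [WEd_ctr, if_pos (hI ▸ Finset.mem_singleton_self j)]
    simp only [Pi.single_eq_same]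
    rw [abs_le]
    constructor <;> linarith only [f1, f2]

theorem WEd_zone (h : C.Ok aK) {x : Rn 3} (hx : x ∈ C.WI) {u : I3 × I3} (hu : x ∈ C.zone u) :
    x ∈ C.Q u (C.ρx + C.ζ * C.s) := by
  refine hu.resolve_right fun ⟨_, k, i, hi, ne⟩ => ne ?_
  obtain ⟨z, -, hx⟩ := hx
  obtain ⟨-, hh, -, -, -, hρ, -, -, hb, -⟩ := h.pos
  have k1 : |x i - C.ctr u i| < C.ρ' := (norm_le_pi_norm (x - C.ctr u) i).trans_lt k
  rw [(h.mem_icl.1 hx).1 i hi, WEd_ctr, if_neg hi, add_zero, WEd_X h _ hi, WEd_X h _ hi] at k1 ⊢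
  have k2 : |((z i - u.1 i : ℤ) : ℝ)| < 1 := by
    rw [add_sub_add_left_eq_sub, ← mul_sub, ← mul_sub, abs_mul, abs_mul, abs_of_pos hh,
      abs_of_pos (by linarith only [hb] : 0 < C.b), ← Int.cast_sub] at k1
    by_contra! k3
    have := mul_le_mul_of_nonneg_left (mul_le_mul hb k3 zero_le_one (by linarith only [hb])) hh.le
    linarith only [hh, k1, this, h, h.num.2.2.2.2.2.2.2.2.1]
  rw [← Int.cast_abs, ← Int.cast_one, Int.cast_lt, Int.abs_lt_one_iff, sub_eq_zero] at k2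
  rw [k2]

theorem WEd_Wt {C1 : ℝ} (h1 : 1 ≤ C1) (h2 : C1 ≤ C.cf) (kp : Set (I3 × I3)) (x : Rn 3) :
    1 ≤ C.Wt C1 kp x ∧ C.Wt C1 kp x ≤ ENNReal.ofReal C.cf := by
  unfold Wt
  rw [ENNReal.one_le_ofReal]
  split_ifs
  · exact ⟨h1.trans h2, le_rfl⟩
  · exact ⟨h1, ENNReal.ofReal_le_ofReal h2⟩

/-- The weighted length off the chords. -/
theorem WEd_W (h : C.Ok aK) (hI : C.I = {j}) {C1 : ℝ} (h1 : 1 ≤ C1) (h2 : C1 ≤ C.cf)
    {kp : Set (I3 × I3)} (hk : kp ⊆ C.Adm) :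
    ENNReal.ofReal ((C.b * C.h) ^ 2) *
      ∫⁻ x in C.WI \ ⋃ u ∈ kp, C.Q u C.ρx, C.Wt C1 kp x ^ 3 ∂μH[1] ≤
      48 * (ENNReal.ofReal C1 ^ 3 * ENNReal.ofReal (C.g * C.η ^ 3)) +
        ENNReal.ofReal C.cf ^ 3 * C.unk kp := by
  obtain ⟨-, hh, hs, ht, -, hρ, hκ, hζ, -⟩ := h.pos
  obtain ⟨-, n1, -, -, -, -, -, -, -, -, -, -, n2, -⟩ := h.num
  have hg := h.g0.1
  have hc := h.c1
  have fk := h.adm_finite.subset hk
  have B0 := sq_nonneg (C.b * C.h)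
  have hA := (mul_le_mul_left (ENat.toENNReal_le.2 (encard_le_encard hk)) _).trans (WEd_A h hI)
  have a : ∀ T, ∫⁻ x in T, C.Wt C1 kp x ^ 3 ∂μH[1] ≤ ENNReal.ofReal C.cf ^ 3 * μH[1] T := fun T =>
    (lintegral_mono fun x => pow_le_pow_left' (WEd_Wt h1 h2 kp x).2 3).trans_eq
      (setLIntegral_const _ _)
  have cov : C.WI \ ⋃ u ∈ kp, C.Q u C.ρx ⊆
      ((({x | ¬ ∃ u ∈ kp, x ∈ C.zone u} ∩ ⋃ u ∈ kp, C.Q u (C.t0 / 2) \ C.Q u C.ρx) ∪
        ⋃ u ∈ kp, C.Q u (C.ρx + C.ζ * C.s) \ C.Q u C.ρx) ∪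
        ⋃ z ∈ {z | C.icl z ⊆ C.O}, C.WEd_E j z) ∪ ⋃ u ∈ C.Adm \ kp, C.Q u (C.t0 / 2) := by
    intro x hx
    have k : ∀ u ∈ kp, x ∉ C.Q u C.ρx := fun u hu e => hx.2 (mem_biUnion hu e)
    rcases WEd_cov h hI hx.1 with e | ⟨u, hu, e⟩
    · exact Or.inl (Or.inr e)
    by_cases c : u ∈ kp
    swap
    · exact Or.inr (mem_biUnion ⟨hu, c⟩ e)
    by_cases d : ∃ u ∈ kp, x ∈ C.zone u
    · obtain ⟨u', hu', e'⟩ := d
      exact Or.inl (Or.inl (Or.inr (mem_biUnion hu' ⟨WEd_zone h hx.1 e', k u' hu'⟩)))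
    · exact Or.inl (Or.inl (Or.inl ⟨d, mem_biUnion c ⟨e, k u c⟩⟩))
  have b1 : ∫⁻ x in {x | ¬ ∃ u ∈ kp, x ∈ C.zone u} ∩ ⋃ u ∈ kp, C.Q u (C.t0 / 2) \ C.Q u C.ρx,
      C.Wt C1 kp x ^ 3 ∂μH[1] ≤ ENNReal.ofReal C1 ^ 3 * (ENNReal.ofReal 1 ^ 3 *
        (kp.encard * ENNReal.ofReal (2 * (C.t0 / 2 - C.ρx)))) := by
    refine (setLIntegral_mono (g := fun _ => ENNReal.ofReal C1 ^ 3) measurable_const
      fun x hx => by rw [Wt, if_neg hx.1]).trans ?_
    rw [setLIntegral_const, ENNReal.ofReal_one, one_pow, one_mul]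
    exact mul_le_mul_right ((measure_mono inter_subset_right).trans
      (WEd_un fk fun u _ => WEd_Q hI u (by linarith only [n1, hκ, hs, mul_pos hκ hs]))) _
  have b2 := (a _).trans (mul_le_mul_right (WEd_un fk fun u _ =>
    WEd_Q hI u (R := C.ρx + C.ζ * C.s) (R' := C.ρx) (by linarith [mul_pos hζ hs])) _)
  have b3 := (a _).trans (mul_le_mul_right (WEd_un h.O_prop.2.2.2.2.2.1 fun z _ =>
    (WEd_H (S := C.WEd_E j z) (y := C.X fun i => z i) (j := j) fun x hx =>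
      ⟨fun i e => (h.mem_icl.1 hx.1).1 i (by simpa [hI] using e), hx.2⟩).trans
      (WEd_two _ _ _ _ (r := 4 * C.ρ') (by linarith) (by linarith) (by linarith))) _)
  have b4 := (a _).trans (mul_le_mul_right (WEd_un (h.adm_finite.subset (sdiff_subset (t := kp)))
    fun u _ => WEd_Q' hI u (C.t0 / 2)) _)
  have c1 := WEd_num (x := 2 * (C.t0 / 2 - C.ρx)) hA B0 hg.le zero_le_one (by linarith only [n1, n2])
  have c2 := WEd_num (x := 2 * (C.ρx + C.ζ * C.s - C.ρx)) (a := C.cf) hA B0 hg.le (by linarith) (by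
    have k1 : C.cf ^ 3 * C.ζ ≤ (C.cf + C.cg) ^ 3 * (C.ζ + 64) :=
      mul_le_mul (pow_le_pow_left₀ (by linarith only [h1, h2]) (by linarith) 3) (by linarith only []) hζ.le
        (pow_nonneg (by linarith only [h1, h2, hc]) 3)
    have k2 := mul_le_mul_of_nonneg_right (k1.trans h.sm) hs.le
    have k3 : C.t0 = 2 * (2 ^ C.a * C.s) := by rw [t0]; ring
    have k4 : 0 ≤ C.g * (2 ^ C.a * C.s) := by positivity
    rw [k3]
    linarith only [k2, k4])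
  have c3 := WEd_num (x := 2 * (4 * C.ρ')) (a := C.cf) (WEd_Z h hI) B0 hg.le (by linarith only [h1, h2]) (by
    have k : 0 ≤ C.cf ^ 3 * C.ρ' := mul_nonneg (pow_nonneg (by linarith only [h1, h2]) 3) hρ.le
    linarith only [k, h, h.ρ2])
  have c4 : ENNReal.ofReal ((C.b * C.h) ^ 2) * (ENNReal.ofReal C.cf ^ 3 *
      ((C.Adm \ kp).encard * ENNReal.ofReal (2 * (C.t0 / 2)))) =
      ENNReal.ofReal C.cf ^ 3 * C.unk kp := by
    rw [unk, tv, hI, Finset.card_singleton, pow_one, ENNReal.ofReal_mul ht.le,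
      mul_div_cancel₀ _ two_ne_zero]
    ring
  have d : 16 * ENNReal.ofReal (C.g * C.η ^ 3) ≤
      16 * (ENNReal.ofReal C1 ^ 3 * ENNReal.ofReal (C.g * C.η ^ 3)) :=
    mul_le_mul_right (le_mul_of_one_le_left' (one_le_pow_of_one_le' (ENNReal.one_le_ofReal.2 h1) 3)) _
  refine (mul_le_mul_right ((lintegral_mono_set cov).trans ((lintegral_union_le _ _ _).trans
    (add_le_add ((lintegral_union_le _ _ _).trans (add_le_add
      ((lintegral_union_le _ _ _).trans (add_le_add b1 b2)) b3)) b4))) _).trans ?_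
  rw [mul_add, mul_add, mul_add, c4, mul_left_comm]
  refine (add_le_add (add_le_add (add_le_add (mul_le_mul_right c1 _) (c2.trans d)) (c3.trans d))
    le_rfl).trans_eq ?_
  ring

/-- The sum over the edges as an integral. -/
theorem WEd_sum {Ω : Set (Rn 3)} {K : Kx Ω} {ch : Set (Rn 3) → Ch} {w : Set (Rn 3) → ℝ}
    (hf : C.Fit aK K ch w) (h : C.Ok aK) (kp : Set (I3 × I3)) (φ : Rn 3 → ℝ≥0∞) :
    ∑' e : C.Ed kp, ENNReal.ofReal (16 * C.s) * ∫⁻ t in Icc (0 : ℝ) 1, φ (seg e.1.1 e.1.2 t) ≤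
      ∫⁻ x in C.WI \ ⋃ u ∈ kp, C.Q u C.ρx, φ x ∂μH[1] := by
  have hs := h.pos.2.2.1
  have := (h.Ed0_finite.subset fun e (he : e ∈ C.Ed kp) => he.1).countable.to_subtype
  have ne : ∀ e : C.Ed kp, e.1.2 - e.1.1 ≠ 0 := fun e => sub_ne_zero.2 (hf.edge h e.2.1).1.1.symm
  have e1 : ∀ e : C.Ed kp, ENNReal.ofReal (16 * C.s) *
      ∫⁻ t in Icc (0 : ℝ) 1, φ (seg e.1.1 e.1.2 t) =
        ∫⁻ x in openSegment ℝ e.1.1 e.1.2, φ x ∂μH[1] := fun e => by
    rw [← seg_image_open, ← (hf.edge h e.2.1).2.2, ofReal_norm, ← restrict_Ioo_eq_restrict_Icc]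
    exact (WEd_line _ (ne e) _ _).symm
  rw [tsum_congr e1, ← lintegral_iUnion (fun e => ?_) fun e e' d => ?_]
  · refine lintegral_mono_set (iUnion_subset fun e x hx => ⟨(hf.edge h e.2.1).2.1
      (openSegment_subset_segment _ _ _ hx), fun k => ?_⟩)
    obtain ⟨u, hu, k⟩ := mem_iUnion₂.1 k
    exact disjoint_left.1 (e.2.2 u hu) hx k
  · rw [← seg_image_open]
    exact (WEd_emb _ (ne e)).measurableSet_image.2 measurableSet_Ioo
  · refine Kx.disj (hf.edge h e.2.1).1.2 (hf.edge h e'.2.1).1.2 fun k => ?_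
    rcases (hf.edge h e.2.1).1.uniq k with k | k
    · exact d (Subtype.ext (Prod.ext k.1 k.2))
    · obtain ⟨i, a1, a2, -⟩ := e.2.1
      obtain ⟨i', a3, a4, -⟩ := e'.2.1
      obtain rfl : i = i' := Finset.singleton_injective (a1.symm.trans a3)
      rw [← k.1, ← k.2, a2] at a4
      have k1 := congrFun a4 i
      simp only [Pi.add_apply, Pi.smul_apply, Pi.single_eq_same, smul_eq_mul, mul_one] at k1
      linarith only [hs, k1]

end Cu

theorem xed {p : ℝ} (hp1 : 1 ≤ p) (hp : p < 3) : ∃ C0 : ℝ≥0∞, C0 ≠ ⊤ ∧ ∀ (T : Ty) (aK : ℝ),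
    ∃ Cx : ℝ≥0∞, Cx ≠ ⊤ ∧ ∀ (C : Cu) (C1 : ℝ) (Ω : Set (Rn 3)) (K : Kx Ω) (ch : Set (Rn 3) → Ch)
      (w : Set (Rn 3) → ℝ), C.toTy = T → C.Ok aK → C.Fit aK K ch w → 1 ≤ C1 → C1 ≤ C.cf →
      C.XBd p C1 C0 Cx fun kp D => C.SumE p kp (C.XE p C1 kp D) := by
  refine ⟨64 * 48, by finiteness, fun T aK => ⟨64 * ENNReal.ofReal T.cf ^ 3 * 8, by finiteness, ?_⟩⟩
  rintro C C1 Ω K ch w rfl h hf h1 h2
  by_cases hI : ∃ j, C.I = {j}
  swap
  · refine ⟨0, rfl, zero_le, fun kp _ _ D _ => le_of_eq_of_le ?_ zero_le⟩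
    have : IsEmpty (C.Ed kp) := ⟨fun e => hI (e.2.1.imp fun _ k => k.1)⟩
    exact tsum_empty
  obtain ⟨j, hI⟩ := hI
  obtain ⟨-, hh, hs, -⟩ := h.pos
  have p0 : 0 ≤ p := by linarith
  have B0 := sq_nonneg (C.b * C.h)
  refine ⟨(64 * ENNReal.ofReal C.cf ^ 3 * ENNReal.ofReal ((C.b * C.h) ^ 2)) •
    (μH[1] : Measure (Rn 3)).restrict C.WI, ?_, ?_, fun kp hk _ D hD => ?_⟩
  · have mq : MeasurableSet C.qᶜ := isClosed_closedBall.measurableSet.compl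
    have k : C.qᶜ ∩ C.WI = ∅ := eq_empty_of_forall_notMem fun x hx => hx.1 (ball_subset_closedBall
      (ball_subset_ball (by linarith) (h.O_prop.2.1 (h.WI_prop.2.1 hx.2))))
    rw [Measure.smul_apply, Measure.restrict_apply mq, k, measure_empty, smul_zero]
  · have k : μH[1] C.WI ≤ {z | C.icl z ⊆ C.O}.encard * ENNReal.ofReal C.h := by
      have k : C.WI ⊆ ⋃ z ∈ {z | C.icl z ⊆ C.O}, C.icl z := fun x ⟨z, hz, hx⟩ => mem_biUnion hz hx
      refine (measure_mono k).trans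
        (WEd_un h.O_prop.2.2.2.2.2.1 fun z _ => (WEd_H (y := C.X fun i => z i) (j := j)
          (T := Icc 0 C.h) fun x hx => ?_).trans_eq (by rw [Real.volume_Icc, sub_zero]))
      obtain ⟨k1, k2⟩ := h.mem_icl.1 hx
      obtain ⟨k3, k4⟩ := k2 j (hI ▸ Finset.mem_singleton_self j)
      exact ⟨fun i e => k1 i (by simpa [hI] using e), by linarith, by linarith⟩
    rw [Measure.smul_apply, Measure.restrict_apply_univ, smul_eq_mul, mul_assoc, mul_assoc _ 8]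
    refine mul_le_mul_right ((mul_le_mul_right k _).trans (le_of_eq_of_le ?_ (Cu.WEd_Z h hI))) _
    rw [ENNReal.ofReal_mul B0]
    ring
  have e : ∀ e : C.Ed kp, C.ωe p * C.XE p C1 kp D e = ENNReal.ofReal ((C.b * C.h) ^ 2) *
      (ENNReal.ofReal (16 * C.s) * ∫⁻ t in Icc (0 : ℝ) 1,
        (fun x => (C.Wt C1 kp x * (2 * ‖D x‖ₑ)) ^ p) (seg e.1.1 e.1.2 t)) := fun e => by
    have m0 : 0 < 16 * C.s := by linarith
    have k : ∀ a b : ℝ≥0∞, (a * (2 * ENNReal.ofReal (16 * C.s) * b)) ^ p =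
        ENNReal.ofReal ((16 * C.s) ^ p) * (a * (2 * b)) ^ p := fun a b => by
      rw [← ENNReal.ofReal_rpow_of_pos m0, ← ENNReal.mul_rpow_of_nonneg _ _ p0]
      congr 1
      ring
    simp only [Cu.XE, ← ofReal_norm (e.1.2 - e.1.1), (hf.edge h e.2.1).2.2, k]
    rw [lintegral_const_mul' _ _ ENNReal.ofReal_ne_top, Pr.ωe, ENNReal.ofReal_mul B0, mul_assoc,
      ← mul_assoc (ENNReal.ofReal (_ ^ (1 - p))), ← ENNReal.ofReal_mul (by positivity),
      ← Real.rpow_add m0, sub_add_cancel, Real.rpow_one]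
  have mD : Measurable fun y => ‖D y - C.A‖ₑ ^ p := (hD.sub_const _).enorm.pow_const _
  have k1 := Cu.WEd_W h hI h1 h2 hk
  have k2 := lintegral_mono_set (μ := μH[1]) (f := fun y => ‖D y - C.A‖ₑ ^ p)
    (sdiff_subset (s := C.WI) (t := ⋃ u ∈ kp, C.Q u C.ρx))
  have k3 : ‖C.A‖ₑ ^ p ≤ 1 + ‖C.A‖ₑ ^ p := le_add_self
  simp only [Cu.SumE]
  rw [tsum_congr e, ENNReal.tsum_mul_left, lintegral_smul_measure, smul_eq_mul]
  refine (mul_le_mul_right ((Cu.WEd_sum hf h kp _).trans (lintegral_mono fun x =>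
    WEd_pt hp1 hp (Cu.WEd_Wt h1 h2 kp x).1 (Cu.WEd_Wt h1 h2 kp x).2 (x := ‖D x - C.A‖ₑ)
      (a := ‖C.A‖ₑ) (by simpa only [sub_add_cancel] using enorm_add_le (D x - C.A) C.A))) _).trans ?_
  rw [lintegral_add_left (mD.const_mul _), lintegral_const_mul _ mD,
    lintegral_const_mul' _ _ (by finiteness), mul_add, mul_left_comm, ← mul_assoc,
    mul_left_comm _ (64 * _)]
  refine add_le_add (mul_le_mul_right k2 _) ((mul_le_mul_right k1 _).trans ?_)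
  rw [Cu.rem]
  calc _ = 64 * 48 * (ENNReal.ofReal C1 ^ 3 * (‖C.A‖ₑ ^ p * ENNReal.ofReal (C.g * C.η ^ 3))) +
        64 * 1 * (ENNReal.ofReal C.cf ^ 3 * ‖C.A‖ₑ ^ p * C.unk kp) := by ring
    _ ≤ _ := by
      rw [mul_add (64 * 48)]
      gcongr
      norm_num

theorem xch {p : ℝ} (hp1 : 1 ≤ p) (hp : p < 3) : ∃ C0 : ℝ≥0∞, C0 ≠ ⊤ ∧ ∀ (T : Ty) (aK : ℝ),
    ∃ Cx : ℝ≥0∞, Cx ≠ ⊤ ∧ ∀ (C : Cu) (C1 : ℝ) (Ω : Set (Rn 3)) (K : Kx Ω) (ch : Set (Rn 3) → Ch)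
      (w : Set (Rn 3) → ℝ), C.toTy = T → C.Ok aK → C.Fit aK K ch w → 1 ≤ C1 → C1 ≤ C.cf →
      C.XBd p C1 C0 Cx fun kp D => C.SumC kp (C.cx p C1 D) := by
  refine ⟨128, by finiteness, fun T aK => ⟨8 * ENNReal.ofReal T.cg * 8, by finiteness, ?_⟩⟩
  rintro C C1 Ω K ch w rfl h hf h1 h2
  by_cases hI : ∃ j, C.I = {j}
  swap
  · refine ⟨0, rfl, zero_le, fun kp _ _ D _ => le_of_eq_of_le ?_ zero_le⟩
    simp only [Cu.SumC, Finset.filter_eq_empty_iff.2 fun j _ k => hI ⟨j, k⟩, Finset.sum_empty,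
      tsum_zero]
  obtain ⟨j, hI⟩ := hI
  obtain ⟨-, hh, hs, ht, hl, hρ, hκ, hζ, -⟩ := h.pos
  obtain ⟨-, n1, -, n2, -, n3, n4, -⟩ := h.num
  have hg := h.g0.1
  have hc := h.c1
  have p0 : 0 ≤ p := by linarith only [hp1]
  have B0 := sq_nonneg (C.b * C.h)
  have r1 : C.ρ ≤ C.t0 / 2 := by linarith only [n1, n4, hκ, hs, mul_pos hκ hs]
  have mp : ∀ u, Measurable ((C.pc u 0).pt j) := fun u => by unfold Pc.pt; fun_prop
  have hA := Cu.WEd_A h hI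
  refine ⟨Measure.sum fun u : C.Adm => (8 * ENNReal.ofReal C.cg * ENNReal.ofReal ((C.b * C.h) ^ 2)) •
    (volume.restrict (Icc (-C.ρ) C.ρ)).map ((C.pc u 0).pt j), ?_, ?_, fun kp hk hA0 D hD => ?_⟩
  · have mq : MeasurableSet C.qᶜ := isClosed_closedBall.measurableSet.compl
    rw [Measure.sum_apply _ mq, ENNReal.tsum_eq_zero]
    intro u
    suffices k : (C.pc u 0).pt j ⁻¹' C.qᶜ ∩ Icc (-C.ρ) C.ρ = ∅ by
      rw [Measure.smul_apply, Measure.map_apply (mp u) mq, Measure.restrict_apply (mp u mq), k,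
        measure_empty, smul_zero]
    refine eq_empty_of_forall_notMem fun t k => k.1 ?_
    obtain ⟨a1, a2, -⟩ := h.Q_sub u.2
    refine ball_subset_closedBall (ball_subset_ball (by linarith only [hh]) (h.O_prop.2.1 (h.WI_prop.2.1
      (a2 (a1 ((Cu.WEd_mQ hI).2 ⟨fun i e => ?_, ?_⟩))))))
    · simp [Pc.pt, Cu.pc, e]
    · simpa [Pc.pt, Cu.pc] using (abs_le.2 k.2).trans (by linarith only [hρ, r1])
  · rw [Measure.sum_apply _ MeasurableSet.univ]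
    simp only [Measure.smul_apply, Measure.map_apply (mp _) MeasurableSet.univ, preimage_univ,
      Measure.restrict_apply_univ, Real.volume_Icc, smul_eq_mul]
    rw [ENNReal.tsum_set_const, mul_assoc (8 * _), mul_left_comm, mul_assoc (8 * _),
      ← ENNReal.ofReal_mul B0]
    exact mul_le_mul_right ((mul_le_mul_right (ENNReal.ofReal_le_ofReal
      (mul_le_mul_of_nonneg_left (by linarith only [r1]) B0)) _).trans hA) _
  have mD : Measurable fun y => ‖D y - C.A‖ₑ ^ p := (hD.sub_const _).enorm.pow_const _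
  have n1 : ‖(Pi.single j 1 : Rn 3)‖ = 1 := by rw [Pi.norm_single, norm_one]
  have nL : ∀ M : Rn 3 →L[ℝ] Rn 3, ‖C.L (M (Pi.single j 1))‖ ≤ 2 * ‖M‖ := fun M =>
    (C.L.le_opNorm _).trans (mul_le_mul h.tg.2.1 ((M.le_opNorm _).trans_eq (by rw [n1, mul_one]))
      (norm_nonneg _) zero_le_two)
  have key : ∀ u : kp, ∑ j ∈ Finset.univ.filter (fun j => C.I = {j}),
      ENNReal.ofReal ((C.b * C.h) ^ 2) * C.cx p C1 D u j ≤
      8 * ENNReal.ofReal C.cg * ENNReal.ofReal ((C.b * C.h) ^ 2) *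
        (∫⁻ t in Icc (-C.ρ) C.ρ, ‖D ((C.pc u 0).pt j t) - C.A‖ₑ ^ p) +
      ENNReal.ofReal ((C.b * C.h) ^ 2) * (8 * (ENNReal.ofReal C1 ^ 3 * (1 + ‖C.A‖ₑ ^ p)) *
        ENNReal.ofReal (C.g * C.t0)) := fun u => by
    have eA := h.LA (hA0 ⟨u, u.2⟩) j (hI ▸ Finset.mem_singleton_self j)
    have k1 : ∫⁻ t in Icc (-C.ρ) C.ρ,
        ‖C.L (D ((C.pc u 0).pt j t) (Pi.single j 1)) - C.Ah (Pi.single j 1)‖ₑ ^ p ≤
        8 * ∫⁻ t in Icc (-C.ρ) C.ρ, ‖D ((C.pc u 0).pt j t) - C.A‖ₑ ^ p := by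
      rw [← lintegral_const_mul' _ _ (by finiteness)]
      refine lintegral_mono fun t => le_trans ?_ (mul_le_mul_left (WEd_two_pow hp.le) _)
      rw [← ENNReal.mul_rpow_of_nonneg _ _ p0, eA, ← map_sub, ← sub_apply,
        ← ofReal_norm, ← ofReal_norm, ← ENNReal.ofReal_ofNat, ← ENNReal.ofReal_mul zero_le_two]
      exact ENNReal.rpow_le_rpow (ENNReal.ofReal_le_ofReal (nL _)) p0
    have k2 : ‖C.Ah (Pi.single j 1)‖ ^ p ≤ 8 * ‖C.A‖ ^ p := by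
      refine (Real.rpow_le_rpow (norm_nonneg _) (eA ▸ nL _) p0).trans ?_
      rw [Real.mul_rpow zero_le_two (norm_nonneg _)]
      exact mul_le_mul_of_nonneg_right
        ((Real.rpow_le_rpow_of_exponent_le one_le_two hp.le).trans_eq (by norm_num)) (by positivity)
    have a0 : 0 ≤ ‖C.A‖ ^ p := by positivity
    have k3 : C.cg * C.l ≤ C.g * C.t0 := by
      have k4 : C.cg * C.ζ ≤ (C.cf + C.cg) ^ 3 * (C.ζ + 64) :=
        mul_le_mul ((le_add_of_nonneg_left (by linarith only [h1, h2])).trans (le_self_pow₀ (by linarith only [h1, h2, hc])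
          three_ne_zero)) (by linarith only []) hζ.le (pow_nonneg (by linarith only [h1, h2, hc]) 3)
      have k5 := mul_le_mul_of_nonneg_right (k4.trans h.sm) hs.le
      have k6 : C.t0 = 2 * (2 ^ C.a * C.s) := by rw [Cu.t0]; ring
      have k7 : 0 ≤ C.g * (2 ^ C.a * C.s) := by positivity
      have k8 : C.l ≤ C.ζ * C.s := by linarith only [hl, n2, h1, h2, mul_nonneg_of_nonpos_of_nonpos (Mathlib.Tactic.Linarith.sub_nonpos_of_le h1) (le_of_lt (Mathlib.Tactic.Linarith.sub_neg_of_lt hl)), mul_nonneg_of_nonpos_of_nonpos (Mathlib.Tactic.Linarith.sub_nonpos_of_le h2) (le_of_lt (Mathlib.Tactic.Linarith.sub_neg_of_lt hl))]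
      have k9 := mul_le_mul_of_nonneg_left k8 (by linarith only [hc] : 0 ≤ C.cg)
      rw [k6]
      linarith only [k5, k7, k9]
    have k4 : C1 * C.g * C.ρ * ‖C.Ah (Pi.single j 1)‖ ^ p + C.cg * C.l ≤
        8 * (C1 ^ 3 * (1 + ‖C.A‖ ^ p)) * (C.g * C.t0) := by
      have c3 : C1 ≤ C1 ^ 3 := le_self_pow₀ h1 three_ne_zero
      have k5 := mul_le_mul (mul_le_mul (mul_le_mul_of_nonneg_right c3 hg.le)
        (show C.ρ ≤ C.t0 by linarith only [hl, n3, r1]) (by linarith only [hl, n3]) (by positivity)) k2 (by positivity)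
        (by positivity)
      have k6 := mul_le_mul_of_nonneg_right (h1.trans c3) (mul_pos hg ht).le
      linarith only [k3, k5, k6, hg, ht, mul_pos hg ht]
    rw [Finset.filter_congr (q := fun i => i = j) fun i _ => by
      rw [hI, Finset.singleton_inj, eq_comm], Finset.filter_eq', if_pos (Finset.mem_univ j),
      Finset.sum_singleton, Cu.cx, mul_add, add_comm]
    refine add_le_add ((mul_le_mul_right (mul_le_mul_right k1 _) _).trans_eq (by ring))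
      (mul_le_mul_right ((ENNReal.ofReal_le_ofReal k4).trans_eq ?_) _)
    rw [ENNReal.ofReal_mul (by positivity), ENNReal.ofReal_mul (by norm_num),
      ENNReal.ofReal_mul (by positivity), ENNReal.ofReal_pow (by linarith only [h1]),
      ENNReal.ofReal_add zero_le_one a0, ENNReal.ofReal_one, ENNReal.ofReal_ofNat,
      ← ENNReal.ofReal_rpow_of_nonneg (norm_nonneg _) p0, ofReal_norm]
  refine (ENNReal.tsum_le_tsum key).trans ?_
  rw [ENNReal.tsum_add, lintegral_sum_measure, ENNReal.tsum_set_const]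
  refine add_le_add ?_ (le_trans ?_ (mul_le_mul_right le_self_add _))
  · simp only [lintegral_smul_measure, lintegral_map mD (mp _), smul_eq_mul]
    exact ENNReal.tsum_mono_subtype (fun u => 8 * ENNReal.ofReal C.cg *
      ENNReal.ofReal ((C.b * C.h) ^ 2) *
        ∫⁻ t in Icc (-C.ρ) C.ρ, ‖D ((C.pc u 0).pt j t) - C.A‖ₑ ^ p) hk
  · have c1 := WEd_num (x := C.g * C.t0) ((mul_le_mul_left (ENat.toENNReal_le.2
      (encard_le_encard hk)) _).trans hA) B0 hg.le zero_le_one (by linarith only [hg, ht, mul_pos hg ht])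
    rw [ENNReal.ofReal_one, one_pow, one_mul] at c1
    refine le_of_eq_of_le (by ring) ((mul_le_mul_right c1
      (8 * (ENNReal.ofReal C1 ^ 3 * (1 + ‖C.A‖ₑ ^ p)))).trans_eq ?_)
    rw [Cu.rem]
    ring

end BEp
end
end

-- merged part: Pool.Agent.Work.MP_f0515e_an.P3.LocX
section
/-! Sum of the bounds: `xf_split`, `xerr`, `Fit.split`, `xm1`, `xm2`, `xm3`, `xed`, `xch`. -/

open Set Metric Filter Topology Function BEv MeasureTheory
open scoped NNReal ENNReal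

noncomputable section
namespace BEp

theorem LocX_lin (C : Cu) (aK : ℝ) {Ω : Set (Rn 3)} (K : Kx Ω) (kp : Set (I3 × I3))
    {S : Set (Set (Rn 3))} {E E1 E2 : Set (Rn 3) → ℝ≥0∞} {a b : ℝ≥0∞}
    (h : ∀ σ ∈ S, ∀ F ∈ K.fc σ, E F ≤ a * (E1 F + b * E2 F)) :
    C.SumF aK K kp S E ≤ a * (C.SumF aK K kp S E1 + b * C.SumF aK K kp S E2) := by
  simp only [Cu.SumF, ← ENNReal.tsum_mul_left, ← ENNReal.tsum_add]
  refine ENNReal.tsum_le_tsum fun σ => ENNReal.tsum_le_tsum fun F => ?_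
  refine (mul_le_mul_right (h σ σ.2 F F.2.1) _).trans (le_of_eq ?_)
  ring

theorem loc_x {p : ℝ} (hp1 : 1 ≤ p) (hp : p < 3) : ∃ C0 : ℝ≥0∞, C0 ≠ ⊤ ∧ ∀ (T : Ty) (aK : ℝ),
    ∃ Cx : ℝ≥0∞, Cx ≠ ⊤ ∧ ∀ (C : Cu) (C1 : ℝ) (Ω : Set (Rn 3)) (K : Kx Ω) (ch : Set (Rn 3) → Ch)
      (w : Set (Rn 3) → ℝ), C.toTy = T → C.Ok aK → C.Fit aK K ch w → 1 ≤ C1 → C1 ≤ C.cf →
      C.XBd p C1 C0 Cx fun kp D => C.XT p C1 aK K ch w kp D := by
  obtain ⟨a1, n1, h1⟩ := xm1 hp1 hp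
  obtain ⟨a2, n2, h2⟩ := xm2 hp1 hp
  obtain ⟨a3, n3, h3⟩ := xm3 hp1 hp
  obtain ⟨a4, n4, h4⟩ := xed hp1 hp
  obtain ⟨a5, n5, h5⟩ := xch hp1 hp
  have n0 : (4 : ℝ≥0∞) ^ p ≠ ⊤ := ENNReal.rpow_ne_top_of_nonneg (by linarith) (by norm_num)
  refine ⟨4 ^ p * (a1 + a2 + a3) + a4 + a5, by finiteness, fun T aK => ?_⟩
  obtain ⟨b0, m0, k0⟩ := xerr aK
  obtain ⟨b4, m4, k4⟩ := h4 T aK
  obtain ⟨b5, m5, k5⟩ := h5 T aK
  refine ⟨4 ^ p * ENNReal.ofReal ((T.cf * aK) ^ p) * b0 + b4 + b5, by finiteness,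
    fun C C1 Ω K ch w hT h hf c1 c2 => ?_⟩
  obtain ⟨μ0, s0, t0, u0⟩ := k0 C Ω K ch w h hf
  obtain ⟨μ4, s4, t4, u4⟩ := k4 C C1 Ω K ch w hT h hf c1 c2
  obtain ⟨μ5, s5, t5, u5⟩ := k5 C C1 Ω K ch w hT h hf c1 c2
  subst hT
  refine ⟨(4 ^ p * ENNReal.ofReal ((C.cf * aK) ^ p)) • μ0 + μ4 + μ5, ?_, ?_,
    fun kp hk hA D hD => ?_⟩
  · simp only [Measure.add_apply, Measure.smul_apply, s0, s4, s5, smul_zero, add_zero]
  · simp only [Measure.add_apply, Measure.smul_apply, smul_eq_mul, add_mul]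
    rw [mul_assoc _ b0]
    exact add_le_add (add_le_add (mul_le_mul_right t0 _) t4) t5
  have e0 := u0 kp (fun y => ‖D y - C.A‖ₑ ^ p) ((hD.sub_const C.A).enorm.pow_const p)
  have e1 := h1 C aK C1 Ω K ch w kp h hf c1 c2 hk
  have e2 := h2 C aK C1 Ω K ch w kp h hf c1 c2 hk
  have e3 := h3 C aK C1 Ω K ch w kp h hf c1 c2 hk
  have e4 := u4 kp hk hA D hD
  have e5 := u5 kp hk hA D hD
  have e6 := LocX_lin C aK K kp (S := C.S0 K) fun σ hσ F hF =>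
    xf_split hp1 h c1 c2 kp hD (hf.face F hF.1 ((hf.cav h hσ).2.2.2 F hF).1).2.2 (w F) F
  have e7 : ∀ E, C.SumF aK K kp (C.S0 K) E = C.SumF aK K kp (C.S1 K) E +
      C.SumF aK K kp (C.S2 K) E + C.SumF aK K kp (C.S3 K) E := fun E =>
    hf.split h fun σ => ∑' F : {F // F ∈ K.fc σ ∧ ¬ C.Rig kp F}, C.wgt aK σ F * E F
  have e8 : C.rem p ≤ ENNReal.ofReal C1 ^ 3 * C.rem p +
      ENNReal.ofReal C.cf ^ 3 * ‖C.A‖ₑ ^ p * C.unk kp :=
    (le_mul_of_one_le_left' (one_le_pow₀ (ENNReal.one_le_ofReal.2 c1))).trans le_self_add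
  rw [e7 fun F => ‖C.A.comp (ch F).M‖ₑ ^ p * C.MF p C1 kp (ch F) (w F) F] at e6
  have e9 := e6.trans (mul_le_mul_right (add_le_add (add_le_add (add_le_add e1 e2)
    (e3.trans (mul_le_mul_right e8 _))) (mul_le_mul_right e0 _)) _)
  refine (add_le_add (add_le_add e9 e4) e5).trans (le_of_eq ?_)
  rw [lintegral_add_measure, lintegral_add_measure, lintegral_smul_measure, smul_eq_mul]
  ring

end BEp
end
end
end

-- merged part: Pool.Agent.Work.MP_f0515e_an.P3.Sel2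
section
/-! Selection of plates, `I = {i, j}`. `ν = c (b h) ∑ z, (area on icl z + 16 s length on the fine
lines in icl z)`, or with the factor `t0^2` times the average on every fine edge (mass at most
`c (t0 / 16 s)^2 η^3`, and `t0 / s = 2^(a+1)` depends on the type only). A tile is kept if `A ≠ 0`,
the maximal condition holds for all `R ∈ [t0/2, t0/2 + 3 ρ']` (then `morrey2` for `f - A` on the
square `Q u R` gives `Gd.cl`), and on every fine edge of the tile the average of `‖D - A‖^p` is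
at most `(lam/16)^p` (then `ACs.vr_le` and Hoelder give `Gd.vr`). Count by `vit_count` and
Chebyshev. -/

open Set Metric Filter Topology Function BEv MeasureTheory
open scoped NNReal ENNReal

noncomputable section
namespace BEp

theorem Sel2_emb {I : Finset (Fin 3)} (hc : I.card = 2) :
    ∃ (E : Rn 2 →L[ℝ] Rn 3) (e : Fin 2 → Fin 3), (∀ ξ k, E ξ (e k) = ξ k) ∧
      (∀ ξ l, l ∉ I → E ξ l = 0) ∧ (∀ l, l ∈ I ↔ ∃ k, e k = l) ∧ ∀ ξ, ‖E ξ‖ = ‖ξ‖ := by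
  obtain ⟨i, j, hij, rfl⟩ := Finset.card_eq_two.1 hc
  let E : Rn 2 →L[ℝ] Rn 3 := ContinuousLinearMap.pi fun l =>
    if l = i then ContinuousLinearMap.proj 0 else if l = j then ContinuousLinearMap.proj 1 else 0
  have hE : ∀ ξ l, E ξ l = if l = i then ξ 0 else if l = j then ξ 1 else 0 := fun ξ l => by
    simp only [E, ContinuousLinearMap.pi_apply]
    split_ifs <;> rfl
  have h1 : ∀ (ξ : Rn 2) (k : Fin 2), E ξ (![i, j] k) = ξ k := fun ξ k => by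
    fin_cases k <;> simp [hE, hij.symm]
  refine ⟨E, ![i, j], h1, fun ξ l hl => ?_, fun l => ?_, fun ξ => le_antisymm ?_ ?_⟩
  · simp only [Finset.mem_insert, Finset.mem_singleton, not_or] at hl
    simp [hE, hl.1, hl.2]
  · simp [Fin.exists_fin_two, eq_comm]
  · refine (pi_norm_le_iff_of_nonneg (norm_nonneg _)).2 fun l => ?_
    rw [hE]
    split_ifs
    · exact norm_le_pi_norm ξ 0
    · exact norm_le_pi_norm ξ 1
    · simp
  · refine (pi_norm_le_iff_of_nonneg (norm_nonneg _)).2 fun k => ?_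
    rw [← h1 ξ k]
    exact norm_le_pi_norm _ _

theorem Sel2_enc {α β : Type} (π : α → β) (Z : Finset β) : ∀ B : Set α, (∀ u ∈ B, π u ∈ Z) →
    (B.encard : ℝ≥0∞) ≤ ∑ z ∈ Z, (({u | u ∈ B ∧ π u = z} : Set α).encard : ℝ≥0∞) := by
  classical
  induction Z using Finset.induction_on with
  | empty =>
    intro B h
    obtain rfl : B = ∅ := eq_empty_of_forall_notMem fun u hu => by simpa using h u hu
    simp
  | insert z Z hz ih =>
    intro B h
    rw [Finset.sum_insert hz]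
    have h1 : B.encard ≤ ({u | u ∈ B ∧ π u = z} : Set α).encard +
        ({u | u ∈ B ∧ π u ≠ z} : Set α).encard := by
      refine le_trans (encard_le_encard fun u hu => ?_) (encard_union_le _ _)
      by_cases k : π u = z
      exacts [Or.inl ⟨hu, k⟩, Or.inr ⟨hu, k⟩]
    have h2 := ih {u | u ∈ B ∧ π u ≠ z} fun u hu =>
      (Finset.mem_insert.1 (h u hu.1)).resolve_left hu.2
    have h3 : (B.encard : ℝ≥0∞) ≤ (({u | u ∈ B ∧ π u = z} : Set α).encard : ℝ≥0∞) +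
        (({u | u ∈ B ∧ π u ≠ z} : Set α).encard : ℝ≥0∞) := by exact_mod_cast h1
    refine h3.trans (add_le_add_right (h2.trans (Finset.sum_le_sum fun y _ => ?_)) _)
    exact_mod_cast encard_le_encard (s := {u | u ∈ {u | u ∈ B ∧ π u ≠ z} ∧ π u = y})
      (t := {u | u ∈ B ∧ π u = y}) fun u hu => ⟨hu.1.1, hu.2⟩

theorem Sel2_cheb {α : Type} (F : Finset α) (B : Set α) (g : α → ℝ≥0∞) (μ : ℝ≥0∞)
    (h : ∀ u ∈ B, u ∈ F ∧ μ ≤ g u) : μ * (B.encard : ℝ≥0∞) ≤ ∑ u ∈ F, g u := by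
  classical
  have e : B = ↑(F.filter (· ∈ B)) := by
    ext u
    simp only [Finset.coe_filter, mem_ofPred_eq]
    exact ⟨fun k => ⟨(h u k).1, k⟩, fun k => k.2⟩
  have h1 := Finset.card_nsmul_le_sum (F.filter (· ∈ B)) g μ fun u hu =>
    (h u (Finset.mem_filter.1 hu).2).2
  rw [nsmul_eq_mul, mul_comm] at h1
  rw [e, encard_coe_eq_coe_finsetCard]
  exact le_trans (by simpa using h1) (Finset.sum_le_sum_of_subset (Finset.filter_subset _ _))

theorem Sel2_vtx {n : ℕ} {a : Rn 3} (h : kbC n a = {a}) (l : Fin 3) :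
    ∃ k : ℤ, a l = k * (1 / 2 ^ n) := by
  have p : (0 : ℝ) < 2 ^ n := by positivity
  have k1 := kbS_line (a := 2 ^ n * a l) (b := ⌊2 ^ n * a l⌋) (t := 1 / 2) le_rfl
    ((Int.floor_le _).trans (Int.le_ceil _)) (by norm_num) (by norm_num)
  have k2 : Function.update a l ((⌊2 ^ n * a l⌋ + 1 / 2 * (2 ^ n * a l - ⌊2 ^ n * a l⌋)) / 2 ^ n) ∈
      kbC n a := fun i => by
    rcases eq_or_ne i l with rfl | k
    · rw [update_self, mul_div_cancel₀ _ p.ne']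
      exact k1
    · rw [update_of_ne k]
      exact ⟨rfl, rfl⟩
  rw [h] at k2
  have k3 := congrFun (mem_singleton_iff.1 k2) l
  rw [update_self, div_eq_iff p.ne'] at k3
  refine ⟨⌊2 ^ n * a l⌋, ?_⟩
  rw [mul_one_div, eq_div_iff p.ne']
  linarith only [k3]

section
variable {C : Cu} {aK : ℝ} {Ω : Set (Rn 3)} {K : Kx Ω} {ch : Set (Rn 3) → Ch} {w : Set (Rn 3) → ℝ}

theorem Sel2_Oq (h : C.Ok aK) : C.O ⊆ C.q := fun x hx =>
  ball_subset_closedBall (ball_subset_ball (by linarith [h.pos.2.1]) (h.O_prop.2.1 hx))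

theorem Sel2_vol (h : C.Ok aK) (hc : C.I.card = 2) (Z : Finset I3) (hZ : ∀ z ∈ Z, C.icl z ⊆ C.O) :
    (Z.card : ℝ≥0∞) * ENNReal.ofReal (C.b * C.h ^ 3) ≤ 8 * ENNReal.ofReal (C.η ^ 3) := by
  have h1 : ∀ z : I3, volume (C.X '' cu z) = ENNReal.ofReal (C.b * C.h ^ 3) := fun z => by
    have := h.lintX (cu z) fun _ => 1
    have e : cu z = univ.pi fun i => Ioo (z i : ℝ) (z i + 1) := by
      ext ξ
      simp [cu]
    rw [setLIntegral_one, setLIntegral_one, hc, e, Real.volume_pi_Ioo] at this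
    rw [e, this]
    simp
  have h2 := measure_biUnion_finset (μ := volume) (s := Z) (f := fun z => C.X '' cu z)
    (fun z _ z' _ hn => by
      refine disjoint_left.2 ?_
      rintro _ ⟨ξ, k1, rfl⟩ ⟨ξ', k2, k3⟩
      obtain rfl : ξ' = ξ := by rw [← h.Xξ.2.1 ξ', k3, h.Xξ.2.1]
      refine hn (funext fun i => ?_)
      have a1 : (z i : ℝ) < z' i + 1 := (k1 i).1.trans (k2 i).2
      have a2 : (z' i : ℝ) < z i + 1 := (k2 i).1.trans (k1 i).2
      have a3 : z i < z' i + 1 := by exact_mod_cast a1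
      have a4 : z' i < z i + 1 := by exact_mod_cast a2
      omega)
    fun z _ => (h.bx_prop z).2.2.1 ▸ isOpen_interior.measurableSet
  simp only [h1, Finset.sum_const, nsmul_eq_mul] at h2
  rw [← h2]
  have h3 : (⋃ z ∈ Z, C.X '' cu z) ⊆ ball C.o C.η := iUnion₂_subset fun z hz => by
    have k1 : C.X (fun i => z i) ∈ C.icl z :=
      h.mem_icl.2 ⟨fun _ _ => rfl, fun _ _ => ⟨le_rfl, by linarith only [h, h.pos.2.1]⟩⟩
    rw [← (h.bx_prop z).2.2.1]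
    exact interior_subset.trans ((hZ z hz k1 z k1.1).trans
      (ball_subset_ball (by linarith only [h, h.pos.2.1])))
  refine (measure_mono h3).trans (le_of_eq ?_)
  rw [Real.volume_pi_ball _ h.pos.1, Fintype.card_fin, mul_pow,
    ENNReal.ofReal_mul (by norm_num)]
  norm_num

theorem Sel2_pts (h : C.Ok aK) (hf : C.Fit aK K ch w) : ∃ pt : I3 × I3 → I3 → Rn 3,
    (∀ u k, pt u k ∈ C.Q u (C.t0 / 2)) ∧ ∀ u ∈ C.Adm, ∀ a b, K.Edge a b → a ∈ C.Q u (C.t0 / 2) →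
      ∃ k ∈ Fintype.piFinset fun _ : Fin 3 => Finset.Icc (-(2 : ℤ) ^ C.a) (2 ^ C.a), pt u k = a := by
  classical
  obtain ⟨-, -, hs, ht, -, hρ, -⟩ := h.pos
  have ht2 : 0 ≤ C.t0 / 2 := by linarith only [ht]
  refine ⟨fun u k => if (C.ctr u + fun l => k l * (16 * C.s)) ∈ C.Q u (C.t0 / 2) then
    C.ctr u + fun l => k l * (16 * C.s) else C.ctr u, fun u k => ?_, fun u hu a b he ha => ?_⟩
  · dsimp only
    split_ifs with k1
    · exact k1
    · exact (Cu.mem_Q ht2).2 ⟨fun _ _ => rfl, by simpa using ht2⟩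
  obtain ⟨q1, q2, -, q3⟩ := h.Q_sub hu
  have a1 := (Cu.mem_Q ht2).1 ha
  have a2 : a ∈ C.WI := q2 (q1 ((Cu.mem_Q (by linarith only [ht, hρ])).2 ⟨a1.1, by linarith only [hρ, a1, a1.2]⟩))
  have a3 := Sel2_vtx ((hf.fine a a2).symm.trans he.left.2)
  rw [← h.mult.2.2.2.2.2.2] at a3
  choose m hm using a3
  choose m' hm' using q3
  have e : (C.ctr u + fun l => ((m - m') l : ℤ) * (16 * C.s)) = a := by
    funext l
    simp only [Pi.add_apply, Pi.sub_apply, hm l, hm' l]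
    push_cast
    ring
  refine ⟨m - m', Fintype.mem_piFinset.2 fun l => ?_, by dsimp only; rw [e, if_pos ha]⟩
  have b1 := (norm_le_pi_norm (a - C.ctr u) l).trans a1.2
  rw [Pi.sub_apply, hm l, hm' l, ← sub_mul, Real.norm_eq_abs, abs_mul, abs_of_pos (by linarith only [hs] :
    0 < 16 * C.s), Cu.t0, pow_succ] at b1
  have b2 : |(m l : ℝ) - m' l| ≤ 2 ^ C.a := by
    have : (0 : ℝ) < 2 ^ C.a := by positivity
    (refine le_of_not_gt fun h_nl => ?_; linarith only [h_nl, b1, hs, this, abs_nonneg ((m l : ℝ) - m' l), mul_pos_of_neg_of_neg (Mathlib.Tactic.Linarith.sub_neg_of_lt hs) (Mathlib.Tactic.Linarith.sub_neg_of_lt this), mul_pos_of_neg_of_neg (Mathlib.Tactic.Linarith.sub_neg_of_lt hs) (Mathlib.Tactic.Linarith.sub_neg_of_lt h_nl)])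
  have b3 : |m l - m' l| ≤ 2 ^ C.a := by exact_mod_cast b2
  exact Finset.mem_Icc.2 (abs_le.1 b3)

/-- The charts of the plates. -/
theorem Sel2_chart (h : C.Ok aK) (hc : C.I.card = 2) :
    ∃ (E : Rn 2 →L[ℝ] Rn 3) (c : I3 × I3 → Rn 2), (∀ ξ, ‖E ξ‖ = ‖ξ‖) ∧
      (∀ u, C.ctr u = C.X (fun i => u.1 i) + E (c u)) ∧
      (∀ u x, (∀ i, i ∉ C.I → x i = C.ctr u i) → ∃ ξ, x = C.X (fun i => u.1 i) + E ξ) ∧
      (∀ u ∈ C.Adm, closedBall (c u) (C.t0 / 2 + 3 * C.ρ') ⊆ Icc 0 fun _ => C.h) ∧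
      ∀ z : I3, ∀ ξ ∈ Icc (0 : Rn 2) fun _ => C.h, C.X (fun i => z i) + E ξ ∈ C.icl z := by
  obtain ⟨E, e, e1, e2, e3, e4⟩ := Sel2_emb hc
  have k : ∀ u : I3 × I3, C.ctr u =
      C.X (fun i => u.1 i) + E fun k => (u.2 (e k) + 1 / 2) * C.t0 := fun u => by
    unfold Cu.ctr
    congr 1
    funext l
    simp only [prL, ContinuousLinearMap.pi_apply]
    split_ifs with hl
    · obtain ⟨k, rfl⟩ := (e3 l).1 hl
      rw [e1]
      rfl
    · rw [e2 _ l hl]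
      rfl
  refine ⟨E, fun u k => (u.2 (e k) + 1 / 2) * C.t0, e4, k, fun u x hx => ?_, fun u hu ξ hξ => ?_,
    fun z ξ hξ => ?_⟩
  · refine ⟨fun k => x (e k) - C.X (fun i => u.1 i) (e k), funext fun l => ?_⟩
    by_cases hl : l ∈ C.I
    · obtain ⟨k, rfl⟩ := (e3 l).1 hl
      rw [Pi.add_apply, e1]
      ring
    · rw [hx l hl, k u, Pi.add_apply, Pi.add_apply, e2 _ l hl, e2 _ l hl]
  · have a : ∀ k, |ξ k - (u.2 (e k) + 1 / 2) * C.t0| ≤ C.t0 / 2 + 3 * C.ρ' := fun k =>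
      (dist_le_pi_dist ξ _ k).trans hξ
    have b := fun k => hu.2.2 (e k) ((e3 _).2 ⟨k, rfl⟩)
    exact ⟨fun k => by have := (abs_le.1 (a k)).1; have := (b k).1; simp only [Pi.zero_apply]; linarith,
      fun k => by have := (abs_le.1 (a k)).2; have := (b k).2; linarith⟩
  · refine h.mem_icl.2 ⟨fun i hi => by rw [Pi.add_apply, e2 _ i hi, add_zero], fun i hi => ?_⟩
    obtain ⟨k, rfl⟩ := (e3 i).1 hi
    rw [Pi.add_apply, e1]
    exact ⟨le_add_of_nonneg_right (hξ.1 k), add_le_add_right (hξ.2 k) _⟩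

theorem Sel2_cnt (h : C.Ok aK) {E : Rn 2 →L[ℝ] Rn 3} {c : I3 × I3 → Rn 2} (e1 : ∀ ξ, ‖E ξ‖ = ‖ξ‖)
    (e2 : ∀ u, C.ctr u = C.X (fun i => u.1 i) + E (c u))
    (e3 : ∀ u ∈ C.Adm, closedBall (c u) (C.t0 / 2 + 3 * C.ρ') ⊆ Icc 0 fun _ => C.h)
    (Z : Finset I3) (hZ : ∀ z, C.icl z ⊆ C.O → z ∈ Z) (ψ : Rn 3 → ℝ≥0∞) {lam : ℝ≥0∞}
    {B : Set (I3 × I3)} (hB : B ⊆ C.Adm)
    (hR : ∀ u ∈ B, ∃ R ∈ Icc (C.t0 / 2) (C.t0 / 2 + 3 * C.ρ'), lam * ENNReal.ofReal ((2 * R) ^ 2) ≤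
      ∫⁻ ξ in closedBall (c u) R, ψ (C.X (fun i => u.1 i) + E ξ)) :
    lam * (B.encard : ℝ≥0∞) * ENNReal.ofReal (C.t0 ^ 2) ≤
      100 * ∑ z ∈ Z, ∫⁻ ξ in Icc 0 fun _ => C.h, ψ (C.X (fun i => z i) + E ξ) := by
  refine (mul_le_mul_left (mul_le_mul_right (Sel2_enc Prod.fst Z B fun u hu => hZ _ (hB hu).1) _)
    _).trans ?_
  rw [Finset.mul_sum, Finset.sum_mul, Finset.mul_sum]
  refine Finset.sum_le_sum fun z _ => ?_
  have := vit_count (κ := Fin 2)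
    (indicator (Icc 0 fun _ => C.h) fun ξ => ψ (C.X (fun i => z i) + E ξ))
    {u | u ∈ B ∧ u.1 = z} c (ρ := C.t0 / 2 + 3 * C.ρ') h.pos.2.2.2.1 (lam := lam)
    (fun u hu u' hu' hn => by
      have := (h.tile_sep (hB hu.1) (hB hu'.1) hn).1
      rwa [e2, e2, hu.2, hu'.2, add_sub_add_left_eq_sub, ← map_sub, e1] at this)
    fun u hu => by
      obtain ⟨R, k1, k2⟩ := hR u hu.1
      refine ⟨R, k1, k2.trans (le_of_eq ?_)⟩
      refine setLIntegral_congr_fun measurableSet_closedBall fun ξ hξ => ?_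
      rw [indicator_of_mem (e3 u (hB hu.1) (closedBall_subset_closedBall k1.2 hξ)), hu.2]
  rw [lintegral_indicator measurableSet_Icc, Fintype.card_fin] at this
  refine this.trans (le_of_eq ?_)
  norm_num

end

theorem Sel2_mor {p : ℝ} (hp : 2 < p) : ∃ M : ℝ≥0∞, M ≠ ⊤ ∧ ∀ (q : Set (Rn 3)) (f : Rn 3 → Rn 3)
    (D : Rn 3 → Rn 3 →L[ℝ] Rn 3) (v : Rn 3 → ℝ≥0∞) (A : Rn 3 →L[ℝ] Rn 3) (E : Rn 2 →L[ℝ] Rn 3)
    (y : Rn 3) (c : Rn 2) (R : ℝ) (μ : ℝ≥0∞), Convex ℝ q → ContinuousOn f q → Measurable D →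
    Measurable v → USeg q f D v → (∀ ξ, ‖E ξ‖ = ‖ξ‖) → 0 < R →
    (∀ ξ ∈ closedBall c R, y + E ξ ∈ q) → ∫⁻ ξ in ball c R, v (y + E ξ) ≠ ⊤ →
    ∫⁻ ξ in closedBall c R, ‖D (y + E ξ) - A‖ₑ ^ p ≤ μ * ENNReal.ofReal ((2 * R) ^ 2) →
    ∀ ξ ∈ closedBall c R, ‖f (y + E ξ) - (f (y + E c) + A (y + E ξ - (y + E c)))‖ₑ ^ p ≤
      M * μ * ENNReal.ofReal R ^ p := by
  obtain ⟨M, hM, H⟩ := morrey2 hp
  refine ⟨4 * M, ENNReal.mul_ne_top (by norm_num) hM,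
    fun q f D v A E y c R μ hq hf hD hv hu e1 hR hs hi hb ξ hξ => ?_⟩
  have cφ : Continuous fun ξ => y + E ξ := by fun_prop
  have key := H (fun ξ => f (y + E ξ) - A (y + E ξ)) (fun ξ => v (y + E ξ))
    (fun ξ => ‖D (y + E ξ) - A‖ₑ) c R hR
    ((hf.comp cφ.continuousOn hs).sub (by fun_prop)) (hv.comp cφ.measurable)
    ((hD.comp cφ.measurable).sub_const A).enorm hi
    (fun a ha b hb hv' => by
      have es : ∀ s, y + E (seg a b s) = seg (y + E a) (y + E b) s := fun s => by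
        simp only [seg, map_add, map_smul, map_sub]
        module
      simp only [es] at hv' ⊢
      have := (hu _ _ (hq.segment_subset (hs a (ball_subset_closedBall ha))
        (hs b (ball_subset_closedBall hb))) hv').sub_le A le_rfl zero_le_one le_rfl
      have n : ‖y + E b - (y + E a)‖ₑ = ‖b - a‖ₑ := by
        rw [add_sub_add_left_eq_sub, ← map_sub, ← ofReal_norm, e1, ofReal_norm]
      rw [n] at this
      refine le_of_eq_of_le ?_ this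
      congr 1
      simp only [seg, one_smul, zero_smul, add_zero, add_sub_cancel, map_sub]
      abel)
    ξ hξ c (mem_closedBall_self hR.le)
  refine le_of_eq_of_le ?_ (key.trans ((mul_le_mul_right
    ((lintegral_mono_set ball_subset_closedBall).trans hb) _).trans (le_of_eq ?_)))
  · congr 2
    simp only [map_sub]
    abel
  · have e : R ^ (p - 2) * (2 * R) ^ 2 = 4 * R ^ p := by
      rw [Real.rpow_sub hR, Real.rpow_two]
      field_simp
      norm_num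
    rw [ENNReal.ofReal_rpow_of_pos hR, mul_mul_mul_comm, ← ENNReal.ofReal_mul (by positivity), e,
      ENNReal.ofReal_mul (by norm_num), ENNReal.ofReal_ofNat]
    ring

theorem Sel2_meas {α β γ : Type} (Z : Finset α) (F : Finset β) (P : Finset γ)
    (φ : α → Rn 2 → Rn 3) (hφ : ∀ z, Measurable (φ z)) (S : Set (Rn 2)) (a b : β → γ → Rn 3)
    (c1 c2 : ℝ≥0∞) : ∃ ν : Measure (Rn 3), ∀ ψ : Rn 3 → ℝ≥0∞, Measurable ψ → ∫⁻ y, ψ y ∂ν =
      c1 * ∑ z ∈ Z, (∫⁻ ξ in S, ψ (φ z ξ)) +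
        c2 * ∑ u ∈ F, ∑ k ∈ P, ∫⁻ t in Icc (0 : ℝ) 1, ψ (seg (a u k) (b u k) t) := by
  refine ⟨c1 • ∑ z ∈ Z, (volume.restrict S).map (φ z) + c2 • ∑ u ∈ F, ∑ k ∈ P,
    (volume.restrict (Icc (0 : ℝ) 1)).map (seg (a u k) (b u k)), fun ψ hψ => ?_⟩
  have m : ∀ x y : Rn 3, Measurable (seg x y) := fun x y => by
    unfold seg
    fun_prop
  simp only [lintegral_add_measure, lintegral_smul_measure, lintegral_finsetSum_measure,
    lintegral_map hψ (hφ _), lintegral_map hψ (m _ _), smul_eq_mul]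

theorem sel_rk2 {p : ℝ} (hp : 2 < p) (T : Ty) (hc : T.I.card = 2) : ∃ Cs : ℝ≥0∞, Cs ≠ ⊤ ∧
    ∀ (C : Cu) (aK : ℝ) (Ω : Set (Rn 3)) (K : Kx Ω) (ch : Set (Rn 3) → Ch) (w : Set (Rn 3) → ℝ),
      C.toTy = T → C.Ok aK → C.Fit aK K ch w → C.SelP p Cs K := by
  classical
  by_cases hl : 0 < T.lam
  swap
  · exact ⟨0, ENNReal.zero_ne_top, fun C aK Ω K ch w e h _ => absurd (e ▸ h.lam0) hl⟩
  obtain ⟨M, hM, H⟩ := Sel2_mor hp
  obtain ⟨l1, l10, l1t, hl1⟩ : ∃ l1 : ℝ≥0∞, l1 ≠ 0 ∧ l1 ≠ ⊤ ∧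
      M * l1 ≤ ENNReal.ofReal T.lam ^ p := by
    have a : ENNReal.ofReal T.lam ^ p ≠ ⊤ :=
      ENNReal.rpow_ne_top_of_nonneg (by linarith only [hp]) ENNReal.ofReal_ne_top
    refine ⟨(M + 1)⁻¹ * ENNReal.ofReal T.lam ^ p, mul_ne_zero (by simpa using hM)
      (ENNReal.rpow_pos (ENNReal.ofReal_pos.2 hl) ENNReal.ofReal_ne_top).ne',
      ENNReal.mul_ne_top (by simp) a, ?_⟩
    rw [← mul_assoc]
    refine mul_le_of_le_one_left' ((mul_le_mul_left le_self_add _).trans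
      (ENNReal.mul_inv_le_one (M + 1)))
  obtain ⟨d, hd⟩ : ∃ d : ℝ, d = T.lam / 2 ^ (T.a + 2) := ⟨_, rfl⟩
  have d0 : 0 < d := by rw [hd]; positivity
  obtain ⟨l2, hl2⟩ : ∃ l2, l2 = ENNReal.ofReal (d ^ p) := ⟨_, rfl⟩
  have l20 : l2 ≠ 0 := hl2 ▸ (ENNReal.ofReal_pos.2 (Real.rpow_pos_of_pos d0 _)).ne'
  have l2t : l2 ≠ ⊤ := hl2 ▸ ENNReal.ofReal_ne_top
  obtain ⟨P, hP⟩ : ∃ P, P = Fintype.piFinset fun _ : Fin 3 =>
    Finset.Icc (-(2 : ℤ) ^ T.a) (2 ^ T.a) := ⟨_, rfl⟩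
  refine ⟨800 * (l1⁻¹ + l2⁻¹ * (P ×ˢ P).card), ENNReal.mul_ne_top (by norm_num)
    (ENNReal.add_ne_top.2 ⟨ENNReal.inv_ne_top.2 l10, ENNReal.mul_ne_top (ENNReal.inv_ne_top.2 l20)
      (ENNReal.natCast_ne_top _)⟩), fun C aK Ω K ch w e h hf => ?_⟩
  subst e
  obtain ⟨E, c, e1, e2, e3, e4, e5⟩ := Sel2_chart h hc
  obtain ⟨pt, p1, p2⟩ := Sel2_pts h hf
  rw [← hP] at p2
  obtain ⟨Z, hZ⟩ : ∃ Z : Finset I3, ∀ z, z ∈ Z ↔ C.icl z ⊆ C.O :=
    ⟨h.O_prop.2.2.2.2.2.1.toFinset, fun z => by simp⟩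
  obtain ⟨F, hF⟩ : ∃ F : Finset (I3 × I3), ∀ u, u ∈ F ↔ u ∈ C.Adm :=
    ⟨h.adm_finite.toFinset, fun z => by simp⟩
  obtain ⟨-, hh, hs, ht, -, hρ, -, -, hb, -⟩ := h.pos
  have hbh : 0 < C.b * C.h := by positivity
  have etv : ENNReal.ofReal C.tv = ENNReal.ofReal (C.t0 ^ 2) * ENNReal.ofReal (C.b * C.h) := by
    rw [Cu.tv, hc, ENNReal.ofReal_mul (by positivity), pow_one]
  obtain ⟨ν, hν⟩ := Sel2_meas Z F (P ×ˢ P) (fun z ξ => C.X (fun i => z i) + E ξ)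
    (fun z => by fun_prop) (Icc 0 fun _ => C.h) (fun u k => pt u k.1) (fun u k => pt u k.2)
    (l1⁻¹ * ENNReal.ofReal (C.b * C.h) * 100) (l2⁻¹ * ENNReal.ofReal C.tv)
  have q1 : ∀ z ∈ Z, ∀ ξ ∈ Icc (0 : Rn 2) fun _ => C.h, C.X (fun i => z i) + E ξ ∈ C.q :=
    fun z hz ξ hξ => Sel2_Oq h ((hZ z).1 hz (e5 z ξ hξ))
  have q2 : ∀ u ∈ C.Adm, C.Q u (C.t0 / 2) ⊆ C.q := fun u hu x hx => by
    have a1 := (Cu.mem_Q (by linarith only [ht])).1 hx
    exact Sel2_Oq h (hu.1 ((h.Q_sub hu).1 ((Cu.mem_Q (by linarith only [ht, hρ])).2 ⟨a1.1, by linarith only [hρ, a1, a1.2]⟩)))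
  have q3 : ∀ u ∈ C.Adm, ∀ k k', segment ℝ (pt u k) (pt u k') ⊆ C.q := fun u hu k k' =>
    ((C.Q_cpt u _).2.segment_subset (p1 u k) (p1 u k')).trans (q2 u hu)
  have cnt := fun ψ lam B => Sel2_cnt h e1 e2 e4 Z (fun z => (hZ z).2) ψ (lam := lam) (B := B)
  refine ⟨ν, ?_, ?_, fun f D v hfc hD hv hU hi => ⟨{u | C.Gd K f u}, fun _ k => k, fun hA => ?_⟩⟩
  · have m : MeasurableSet C.qᶜ := measurableSet_closedBall.compl
    rw [← lintegral_indicator_one m, hν _ (measurable_one.indicator m), Finset.sum_eq_zero,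
      Finset.sum_eq_zero, mul_zero, mul_zero, add_zero]
    · refine fun u hu => Finset.sum_eq_zero fun k _ => setLIntegral_eq_zero measurableSet_Icc
        fun t ht => indicator_of_notMem (not_not.2 ?_) _
      exact q3 u ((hF u).1 hu) _ _ (seg_image _ _ ▸ mem_image_of_mem _ ht)
    · exact fun z hz => setLIntegral_eq_zero measurableSet_Icc
        fun ξ hξ => indicator_of_notMem (not_not.2 (q1 z hz ξ hξ)) _
  · have v1 := Sel2_vol h hc Z fun z => (hZ z).1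
    have v2 := cnt (fun _ => 1) 1 C.Adm Subset.rfl fun u _ => ⟨C.t0 / 2, ⟨le_rfl, by linarith only [hρ]⟩, by
      rw [setLIntegral_one, Real.volume_pi_closedBall _ (by linarith only [ht]), Fintype.card_fin, one_mul]⟩
    have v3 : ENNReal.ofReal (C.b * C.h) * ∑ z ∈ Z, ∫⁻ ξ in Icc (0 : Rn 2) fun _ => C.h, 1 ≤
        8 * ENNReal.ofReal (C.η ^ 3) := by
      refine le_of_eq_of_le ?_ v1
      rw [setLIntegral_one, Real.volume_Icc_pi, Finset.sum_const, nsmul_eq_mul, Fin.prod_univ_two,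
        mul_left_comm, ← ENNReal.ofReal_mul (by simpa using hh.le), ← ENNReal.ofReal_mul hbh.le]
      congr 2
      simp only [Pi.zero_apply]
      ring
    have v4 : (C.Adm.encard : ℝ≥0∞) = F.card := by
      rw [show C.Adm = ↑F from Set.ext fun u => (hF u).symm, encard_coe_eq_coe_finsetCard]
      simp
    rw [← lintegral_one, hν _ measurable_const]
    rw [one_mul, v4] at v2
    generalize ∑ z ∈ Z, ∫⁻ ξ in Icc (0 : Rn 2) fun _ => C.h, (1 : ℝ≥0∞) = s at v2 v3 ⊢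
    simp only [setLIntegral_one, Real.volume_Icc, sub_zero, ENNReal.ofReal_one, Finset.sum_const,
      nsmul_eq_mul, mul_one, etv]
    calc _ = l1⁻¹ * 100 * (ENNReal.ofReal (C.b * C.h) * s) + l2⁻¹ * (P ×ˢ P).card *
          (ENNReal.ofReal (C.b * C.h) * (F.card * ENNReal.ofReal (C.t0 ^ 2))) := by ring
      _ ≤ l1⁻¹ * 100 * (ENNReal.ofReal (C.b * C.h) * s) + l2⁻¹ * (P ×ˢ P).card *
          (ENNReal.ofReal (C.b * C.h) * (100 * s)) := by gcongr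
      _ = 100 * (l1⁻¹ + l2⁻¹ * (P ×ˢ P).card) * (ENNReal.ofReal (C.b * C.h) * s) := by ring
      _ ≤ 100 * (l1⁻¹ + l2⁻¹ * (P ×ˢ P).card) * (8 * ENNReal.ofReal (C.η ^ 3)) := by gcongr
      _ = _ := by ring
  have mD : Measurable fun y => ‖D y - C.A‖ₑ := (hD.sub_const _).enorm
  rw [hν v hv, Ne, ENNReal.add_eq_top, not_or] at hi
  have i1 := ENNReal.sum_lt_top.1 (ENNReal.lt_top_of_mul_ne_top_right hi.1 (mul_ne_zero
    (mul_ne_zero (ENNReal.inv_ne_zero.2 l1t) (ENNReal.ofReal_pos.2 hbh).ne') (by norm_num)))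
  have i2 := ENNReal.sum_lt_top.1 (ENNReal.lt_top_of_mul_ne_top_right hi.2 (mul_ne_zero
    (ENNReal.inv_ne_zero.2 l2t) (ENNReal.ofReal_pos.2 (by rw [Cu.tv]; positivity)).ne'))
  let B1 : Set (I3 × I3) := {u | u ∈ C.Adm ∧ ∃ R ∈ Icc (C.t0 / 2) (C.t0 / 2 + 3 * C.ρ'),
    l1 * ENNReal.ofReal ((2 * R) ^ 2) ≤
      ∫⁻ ξ in closedBall (c u) R, ‖D (C.X (fun i => u.1 i) + E ξ) - C.A‖ₑ ^ p}
  let B2 : Set (I3 × I3) := {u | u ∈ F ∧ l2 ≤ ∑ k ∈ P ×ˢ P,
    ∫⁻ t in Icc (0 : ℝ) 1, ‖D (seg (pt u k.1) (pt u k.2) t) - C.A‖ₑ ^ p}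
  have c1 := cnt (fun y => ‖D y - C.A‖ₑ ^ p) l1 B1 (fun _ k => k.1) fun _ k => k.2
  have c2 := Sel2_cheb F B2 _ l2 fun _ k => k
  have sub : C.Adm \ {u | C.Gd K f u} ⊆ B1 ∪ B2 := fun u hu => by
    by_contra hn
    rw [mem_union, not_or] at hn
    refine hu.2 ⟨hu.1, hA, fun x hx => ?_, fun _ a b he ha hb => ?_⟩
    · rw [if_neg (by omega)] at hx
      obtain ⟨x1, x2⟩ := (Cu.mem_Q (by linarith only [ht, hρ])).1 hx.2
      obtain ⟨ξ, rfl⟩ := e3 u x x1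
      have n : ‖C.X (fun i => u.1 i) + E ξ - C.ctr u‖ = ‖ξ - c u‖ := by
        rw [e2, add_sub_add_left_eq_sub, ← map_sub, e1]
      rw [n] at x2 ⊢
      have r1 : max (C.t0 / 2) ‖ξ - c u‖ ∈ Icc (C.t0 / 2) (C.t0 / 2 + 3 * C.ρ') :=
        ⟨le_max_left _ _, max_le (by linarith only [hρ]) x2⟩
      have r0 : 0 < max (C.t0 / 2) ‖ξ - c u‖ := lt_max_of_lt_left (by linarith only [ht])
      have r2 := (closedBall_subset_closedBall r1.2).trans (e4 u hu.1)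
      have z1 := (hZ _).2 hu.1.1
      have := H C.q f D v C.A E (C.X fun i => u.1 i) (c u) _ l1 (convex_closedBall _ _) hfc hD hv hU
        e1 r0 (fun ξ k => q1 _ z1 ξ (r2 k))
        ((lintegral_mono_set (ball_subset_closedBall.trans r2)).trans_lt (i1 _ z1)).ne
        (not_le.1 fun k => hn.1 ⟨hu.1, _, r1, k⟩).le ξ
        (mem_closedBall_iff_norm.2 (le_max_right _ _))
      replace this := this.trans (mul_le_mul_left hl1 _)
      rw [← ENNReal.mul_rpow_of_nonneg _ _ (by linarith only [hp]), ENNReal.rpow_le_rpow_iff (by linarith only [hp]),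
        ← ENNReal.ofReal_mul hl.le, ← ofReal_norm,
        ENNReal.ofReal_le_ofReal_iff (by positivity), ← e2] at this
      exact this.trans (mul_le_mul_of_nonneg_left (max_le_max (by linarith only [ht]) le_rfl) hl.le)
    · obtain ⟨k, hk, rfl⟩ := p2 u hu.1 a b he ha
      obtain ⟨k', hk', rfl⟩ := p2 u hu.1 b _ he.symm hb
      have hF' := (hF u).2 hu.1
      have kk : (k, k') ∈ P ×ˢ P := Finset.mem_product.2 ⟨hk, hk'⟩
      have ac := hU _ _ (q3 u hu.1 k k') (ENNReal.sum_lt_top.1 (i2 u hF') _ kk).ne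
      have y1 := young (p := p) (by linarith only [hp]) d0 (g := fun t => ‖D (seg (pt u k) (pt u k') t) - C.A‖ₑ)
        (mD.comp (by unfold seg; fun_prop))
      have y2 := (Finset.single_le_sum (f := fun k : I3 × I3 => ∫⁻ t in Icc (0 : ℝ) 1,
        ‖D (seg (pt u k.1) (pt u k.2) t) - C.A‖ₑ ^ p) (fun _ _ => zero_le) kk).trans
        (not_le.1 fun k => hn.2 ⟨hF', k⟩).le
      have y3 := y1.trans (add_le_add_right (mul_le_mul_right y2 _) _)
      rw [hl2, ← ENNReal.ofReal_mul (by positivity), ← Real.rpow_add d0, sub_add_cancel,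
        Real.rpow_one, ← ENNReal.ofReal_add d0.le d0.le] at y3
      have y4 : ‖pt u k' - pt u k‖ₑ ≤ ENNReal.ofReal C.t0 := by
        rw [← ofReal_norm]
        refine ENNReal.ofReal_le_ofReal ((norm_sub_le_norm_sub_add_norm_sub _ (C.ctr u) _).trans ?_)
        rw [norm_sub_rev (C.ctr u)]
        linarith only [ht, ha, hb, ((Cu.mem_Q (by linarith)).1 ha).2, ((Cu.mem_Q (by linarith)).1 hb).2]
      have y5 := (ac.vr_le C.A (C.ctr u) (f (C.ctr u)) (left_mem_segment _ _ _)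
        (right_mem_segment _ _ _)).trans (mul_le_mul' y4 y3)
      rw [← ENNReal.ofReal_mul ht.le] at y5
      refine le_of_eq_of_le ?_ (y5.trans_eq ?_)
      · simp only [Cu.aff0, add_comm]
      · congr 1
        rw [hd, Cu.t0]
        field_simp
        ring
  have c3 : ((C.Adm \ {u | C.Gd K f u}).encard : ℝ≥0∞) ≤ B1.encard + B2.encard := by
    exact_mod_cast (encard_le_encard sub).trans (encard_union_le _ _)
  rw [hν _ (mD.pow_const p), Cu.unk]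
  refine (mul_le_mul_left c3 _).trans ?_
  rw [add_mul]
  refine add_le_add ?_ ?_
  · rw [mul_assoc]
    refine le_of_eq_of_le ?_ (mul_le_mul_right c1 _)
    calc _ = l1⁻¹ * l1 * (B1.encard * ENNReal.ofReal C.tv) := by
          rw [ENNReal.inv_mul_cancel l10 l1t, one_mul]
      _ = _ := by rw [etv]; ring
  · refine le_of_eq_of_le ?_ (mul_le_mul_right c2 _)
    calc _ = l2⁻¹ * l2 * (B2.encard * ENNReal.ofReal C.tv) := by
          rw [ENNReal.inv_mul_cancel l20 l2t, one_mul]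
      _ = _ := by ring

end BEp
end
end
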