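import Pool.Agent.Work.MP_f0515e_an.P3.KInt
import Pool.Agent.Work.MP_f0515e_an.D3.KA4
import Pool.Agent.Work.MP_f0515e_an.D3.KA3
import Pool.Agent.Work.MP_f0515e_an.D3.SRig0

-- merged part: Pool.Agent.Work.MP_f0515e_an.P3.KFan
section
/-! Triangulation of the faces. Plan: either `Kx.refine` with `H x` = for every face `F` with
`x` in its closure and every vertex `v` of `F` an affine functional which vanishes on the line
through `b F` and `v` and not on `F` (choose it canonically from the translate of the data, or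
describe the cells directly), or the direct formula: for `x` in a face `F`, `x ≠ b F`, the ray
from `b F` through `x` meets the relative boundary at `y` (`Kx.radial`, `radial_uniq`) and the new
cell is the union of the open segments from `b F` to the points of `K.cell y`; cells of other
dimensions are kept. With the direct formula the equivariance is immediate and a new face is the
open triangle spanned by `b F` and an edge. -/

open Set Metric Filter Topology Function BEv MeasureTheory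
open scoped NNReal ENNReal

noncomputable section
namespace BEp

/-- Cone with apex `o` over `τ`, with heights in `I`. -/
def KFan_c (I : Set ℝ) (o : Rn 3) (τ : Set (Rn 3)) : Set (Rn 3) :=
  (fun q : Rn 3 × ℝ => o + q.2 • (q.1 - o)) '' (τ ×ˢ I)

theorem KFan_mem {I : Set ℝ} {o p : Rn 3} {τ : Set (Rn 3)} :
    p ∈ KFan_c I o τ ↔ ∃ y ∈ τ, ∃ s ∈ I, p = o + s • (y - o) :=
  ⟨fun ⟨q, h, e⟩ => ⟨q.1, h.1, q.2, h.2, e.symm⟩,
    fun ⟨y, h, s, k, e⟩ => ⟨(y, s), ⟨h, k⟩, e.symm⟩⟩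

theorem KFan_closure (o : Rn 3) {τ : Set (Rn 3)} (h : IsCompact (closure τ)) :
    closure (KFan_c (Ioo 0 1) o τ) = KFan_c (Icc 0 1) o (closure τ) := by
  have e : closure (τ ×ˢ Ioo (0 : ℝ) 1) = closure τ ×ˢ Icc 0 1 := by
    rw [closure_prod_eq, closure_Ioo zero_ne_one]
  rw [KFan_c, ← image_closure_of_isCompact (e ▸ h.prod isCompact_Icc)
    (Continuous.continuousOn (by fun_prop)), e, KFan_c]

theorem KFan_add (I : Set ℝ) (o v : Rn 3) (τ : Set (Rn 3)) (p : Rn 3) :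
    p + v ∈ KFan_c I (o + v) ((fun y => y + v) '' τ) ↔ p ∈ KFan_c I o τ := by
  rw [KFan_mem, KFan_mem]
  constructor
  · rintro ⟨_, ⟨y, hy, rfl⟩, s, hs, e⟩
    refine ⟨y, hy, s, hs, add_right_cancel (e.trans ?_)⟩
    module
  · rintro ⟨y, hy, s, hs, rfl⟩
    refine ⟨_, ⟨y, hy, rfl⟩, s, hs, ?_⟩
    module

theorem KFan_convex (o : Rn 3) {τ : Set (Rn 3)} (h : Convex ℝ τ) :
    Convex ℝ (KFan_c (Ioo 0 1) o τ) := by
  intro p hp q hq a c ha hc hac
  obtain ⟨y, hy, s, hs, rfl⟩ := KFan_mem.1 hp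
  obtain ⟨z, hz, t, ht, rfl⟩ := KFan_mem.1 hq
  have hS : a * s + c * t ∈ Ioo (0 : ℝ) 1 := convex_Ioo 0 1 hs ht ha hc hac
  have h0 := hS.1
  have h1 := hs.1
  have h2 := ht.1
  refine KFan_mem.2 ⟨_, h hy hz (a := a * s / (a * s + c * t)) (b := c * t / (a * s + c * t))
    (by positivity) (by positivity) (by field_simp), _, hS, ?_⟩
  obtain rfl : c = 1 - a := by linarith only [hac]
  match_scalars <;> (field_simp; try ring)

theorem KFan_opn (o : Rn 3) {τ : Set (Rn 3)} (h : Convex ℝ τ)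
    (k : ∀ y ∈ τ, ∀ z ∈ τ, ∃ e : ℝ, 0 < e ∧ y + e • (y - z) ∈ τ) :
    ∀ p ∈ KFan_c (Ioo 0 1) o τ, ∀ q ∈ KFan_c (Ioo 0 1) o τ,
      ∃ e : ℝ, 0 < e ∧ p + e • (p - q) ∈ KFan_c (Ioo 0 1) o τ := by
  intro p hp q hq
  obtain ⟨y, hy, s, hs, rfl⟩ := KFan_mem.1 hp
  obtain ⟨z, hz, t, ht, rfl⟩ := KFan_mem.1 hq
  obtain ⟨e, e0, he⟩ := k y hy z hz
  have c1 : Tendsto (fun u : ℝ => s + u * (s - t)) (𝓝[>] 0) (𝓝 s) :=
    (Continuous.tendsto' (by fun_prop) 0 s (by simp)).mono_left nhdsWithin_le_nhds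
  have c2 : Tendsto (fun u : ℝ => e * (s + u * (s - t)) - u * t) (𝓝[>] 0) (𝓝 (e * s)) :=
    (Continuous.tendsto' (by fun_prop) 0 (e * s) (by simp)).mono_left nhdsWithin_le_nhds
  obtain ⟨u, ⟨u0, u1⟩, u2⟩ := (((eventually_mem_nhdsWithin (s := Ioi (0 : ℝ))).and
    (c1.eventually (Ioo_mem_nhds hs.1 hs.2))).and
    (c2.eventually_const_lt (mul_pos e0 hs.1))).exists
  have u0' : 0 < u := u0
  have u1' : s + u * (s - t) ∈ Ioo (0 : ℝ) 1 := u1
  have h0 := u1'.1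
  have h2 := ht.1
  have := h.add_smul_mem hy he (t := u * t / (e * (s + u * (s - t))))
    ⟨by positivity, (div_le_one (by positivity)).2 (by linarith)⟩
  refine ⟨u, u0', KFan_mem.2 ⟨_, this, _, u1', ?_⟩⟩
  match_scalars <;> (field_simp; try ring)

theorem KFan_poly (o a c : Rn 3) : Poly (KFan_c (Icc 0 1) o (segment ℝ a c)) := by
  have t : ∀ i, TP fun ξ : Rn 2 => ξ i := fun i => TP.id'.apply i
  convert (poly_le (Poly.closedBall (0 : Rn 2) 1) ((((t 0).const_mul (-1)).max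
    ((t 1).const_mul (-1))).max (((t 0).add (t 1)).sub (TP.const 1)))).image
    ((TP.const o).add (((t 0).smul_const (a - o)).add ((t 1).smul_const (c - o)))) using 1
  ext p
  rw [KFan_mem]
  constructor
  · rintro ⟨_, ⟨x, y, hx, hy, hxy, rfl⟩, s, ⟨s0, s1⟩, rfl⟩
    have h1 := mul_nonneg s0 hx
    have h2 := mul_nonneg s0 hy
    have h3 : s * x + s * y ≤ 1 := by rwa [← mul_add, hxy, mul_one]
    refine ⟨![s * x, s * y], ⟨mem_closedBall_zero_iff.2 ((pi_norm_le_iff_of_nonneg zero_le_one).2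
      (Fin.forall_fin_two.2 ⟨?_, ?_⟩)), ?_⟩, ?_⟩
    · exact abs_le.2 (show -1 ≤ s * x ∧ s * x ≤ 1 from ⟨by linarith, by linarith⟩)
    · exact abs_le.2 (show -1 ≤ s * y ∧ s * y ≤ 1 from ⟨by linarith, by linarith⟩)
    · change max (max (-1 * (s * x)) (-1 * (s * y))) (s * x + s * y - 1) ≤ 0
      exact max_le (max_le (by linarith) (by linarith)) (by linarith)
    · change o + ((s * x) • (a - o) + (s * y) • (c - o)) = _
      obtain rfl : y = 1 - x := by linarith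
      module
  · rintro ⟨ξ, ⟨-, h⟩, rfl⟩
    simp only [max_le_iff] at h
    have h0 : 0 ≤ ξ 0 := by linarith [h.1.1]
    have h1 : 0 ≤ ξ 1 := by linarith [h.1.2]
    rcases (add_nonneg h0 h1).eq_or_lt with e | h3
    · refine ⟨a, left_mem_segment ℝ a c, 0, ⟨le_rfl, zero_le_one⟩, ?_⟩
      simp [show ξ 0 = 0 by linarith, show ξ 1 = 0 by linarith]
    · refine ⟨_, ⟨ξ 0 / (ξ 0 + ξ 1), ξ 1 / (ξ 0 + ξ 1), by positivity, by positivity,
        by field_simp, rfl⟩, ξ 0 + ξ 1, ⟨h3.le, by linarith [h.2]⟩, ?_⟩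
      beta_reduce
      match_scalars <;> (field_simp; try ring)

theorem KFan_tri (o a c : Rn 3) (h : dm (KFan_c (Ioo 0 1) o (openSegment ℝ a c)) = 2) :
    ∃ k : Ch, k.Of (KFan_c (Ioo 0 1) o (openSegment ℝ a c)) ∧ k.U = trg 1 := by
  let M : Rn 2 →L[ℝ] Rn 3 := (ContinuousLinearMap.proj 0 : Rn 2 →L[ℝ] ℝ).smulRight (a - o) +
    (ContinuousLinearMap.proj 1 : Rn 2 →L[ℝ] ℝ).smulRight (c - o)
  have hM : ∀ ξ, M ξ = ξ 0 • (a - o) + ξ 1 • (c - o) := fun _ => rfl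
  have e : (fun ξ => o + M ξ) '' trg 1 = KFan_c (Ioo 0 1) o (openSegment ℝ a c) := by
    ext p
    rw [KFan_mem]
    constructor
    · rintro ⟨ξ, ⟨h0, h1, h2⟩, rfl⟩
      have h3 : 0 < ξ 0 + ξ 1 := by positivity
      refine ⟨_, ⟨ξ 0 / (ξ 0 + ξ 1), ξ 1 / (ξ 0 + ξ 1), by positivity, by positivity,
        by field_simp, rfl⟩, ξ 0 + ξ 1, ⟨h3, h2⟩, ?_⟩
      beta_reduce
      rw [hM]
      match_scalars <;> (field_simp; try ring)
    · rintro ⟨_, ⟨x, y, hx, hy, hxy, rfl⟩, s, ⟨s0, s1⟩, rfl⟩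
      refine ⟨![s * x, s * y], ⟨mul_pos s0 hx, mul_pos s0 hy, ?_⟩, ?_⟩
      · change s * x + s * y < 1
        rwa [← mul_add, hxy, mul_one]
      · change o + ((s * x) • (a - o) + (s * y) • (c - o)) = _
        obtain rfl : y = 1 - x := by linarith only [hxy]
        module
  refine ⟨⟨o, M, trg 1⟩, ⟨?_, ?_, e⟩, rfl⟩
  · have h1 : KFan_c (Ioo 0 1) o (openSegment ℝ a c) ⊆
        AffineSubspace.mk' o (LinearMap.range (M : Rn 2 →ₗ[ℝ] Rn 3)) := by
      rw [← e]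
      rintro _ ⟨ξ, -, rfl⟩
      exact AffineSubspace.mem_mk'.2 ⟨ξ, (add_sub_cancel_left _ _).symm⟩
    have h2 := dm_le_of_sub h1
    rw [h, AffineSubspace.direction_mk'] at h2
    have h3 := LinearMap.finrank_range_add_finrank_ker (M : Rn 2 →ₗ[ℝ] Rn 3)
    rw [Module.finrank_fin_fun] at h3
    exact (LinearMap.ker_eq_bot (f := (M : Rn 2 →ₗ[ℝ] Rn 3))).1
      (Submodule.finrank_eq_zero.1 (Nat.le_zero.1 (Nat.le_of_add_le_add_left (h3.trans_le h2))))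
  · exact (isOpen_lt continuous_const (continuous_apply 0)).inter
      ((isOpen_lt continuous_const (continuous_apply 1)).inter
        (isOpen_lt (f := fun ξ : Rn 2 => ξ 0 + ξ 1) (by fun_prop) continuous_const))

section
variable {K : Kx univ} {F : Set (Rn 3)} {o x y y' : Rn 3}

theorem KFan_rb (hF : F ∈ K.cells) (hy : y ∈ closure F \ F) : K.cell y ⊆ closure F \ F :=
  fun z hz => ⟨(Kx.KA3_face hF hy.1).2.2 hz, fun h => hy.2 (by
    rw [← Kx.cell_eq hF h, K.eqv y trivial z hz]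
    exact K.mem y trivial)⟩

theorem KFan_sub (hF : F ∈ K.cells) (ho : o ∈ F) {τ : Set (Rn 3)} (h : τ ⊆ closure F) :
    KFan_c (Ioo 0 1) o τ ⊆ F := by
  intro p hp
  obtain ⟨y, hy, s, hs, rfl⟩ := KFan_mem.1 hp
  convert Kx.seg_mem hF (h hy) ho (t := 1 - s) ⟨by linarith [hs.2], by linarith [hs.1]⟩ using 1
  module

theorem KFan_uniq (hF : F ∈ K.cells) (ho : o ∈ F) (hy : y ∈ closure F \ F)
    (hy' : y' ∈ closure F \ F) (h : x ∈ KFan_c (Ioo 0 1) o (K.cell y))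
    (h' : x ∈ KFan_c (Ioo 0 1) o (K.cell y')) : K.cell y = K.cell y' := by
  obtain ⟨z, hz, s, hs, rfl⟩ := KFan_mem.1 h
  obtain ⟨z', hz', s', hs', e⟩ := KFan_mem.1 h'
  obtain ⟨-, rfl⟩ := Kx.radial_uniq hF ho (KFan_rb hF hy hz) (KFan_rb hF hy' hz') hs.1 hs'.1.le
    (add_left_cancel e)
  rw [← K.eqv y trivial z hz, K.eqv y' trivial z hz']

theorem KFan_apex (hF : F ∈ K.cells) (ho : o ∈ F) (hy : y ∈ closure F \ F) :
    o ∉ KFan_c (Ioo 0 1) o (K.cell y) := by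
  intro h
  obtain ⟨z, hz, s, hs, e⟩ := KFan_mem.1 h
  have := (smul_eq_zero.1 (left_eq_add.1 e)).resolve_left hs.1.ne'
  exact (KFan_rb hF hy hz).2 (sub_eq_zero.1 this ▸ ho)

theorem KFan_rad (hF : F ∈ K.cel 2) (ho : o ∈ F) (hx : x ∈ F) :
    x = o ∨ ∃ y ∈ closure F \ F, x ∈ KFan_c (Ioo 0 1) o (K.cell y) := by
  obtain ⟨y, hy, s, hs, e⟩ := Kx.radial hF.1 (by rw [hF.2]; omega) ho (subset_closure hx)
  rcases hs.1.eq_or_lt with rfl | h0
  · exact Or.inl (by simpa using e)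
  rcases hs.2.eq_or_lt with rfl | h1
  · exact absurd (by simpa [e] using hx) hy.2
  exact Or.inr ⟨y, hy, KFan_mem.2 ⟨y, K.mem y trivial, s, ⟨h0, h1⟩, e⟩⟩

theorem KFan_seg (hF : F ∈ K.cel 2) (hy : y ∈ closure F \ F) :
    ∃ a c, K.cell y = openSegment ℝ a c := by
  have h := Kx.dm_rb hF.1 hy
  rw [hF.2] at h
  have hc := K.cell_mem (mem_univ y)
  rcases (by omega : dm (K.cell y) = 0 ∨ dm (K.cell y) = 1) with k | k
  · obtain ⟨a, e⟩ := (Kx.dm_zero hc).1 k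
    exact ⟨a, a, by rw [e, openSegment_same]⟩
  · obtain ⟨a, c, -, e⟩ := Kx.dm_one hc k
    exact ⟨a, c, e⟩

end

/-- The new cells. -/
def KFan_n (K : Kx univ) (b : Set (Rn 3) → Rn 3) (x : Rn 3) : Set (Rn 3) :=
  {z | z ∈ K.cell x ∧ (dm (K.cell x) = 2 → ∀ y ∈ closure (K.cell x) \ K.cell x,
    (x ∈ KFan_c (Ioo 0 1) (b (K.cell x)) (K.cell y) ↔
      z ∈ KFan_c (Ioo 0 1) (b (K.cell x)) (K.cell y)))}

section
variable {K : Kx univ} {b : Set (Rn 3) → Rn 3} {F : Set (Rn 3)} {x y : Rn 3}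

theorem KFan_n1 (h : dm (K.cell x) ≠ 2) : KFan_n K b x = K.cell x :=
  Subset.antisymm (fun _ k => k.1) fun _ k => ⟨k, fun e => absurd e h⟩

theorem KFan_n2 (hF : F ∈ K.cel 2) (ho : b F ∈ F) : KFan_n K b (b F) = {b F} := by
  have e := Kx.cell_eq hF.1 ho
  refine Subset.antisymm (fun z hz => ?_) (singleton_subset_iff.2 ⟨K.mem _ trivial,
    fun _ _ _ => Iff.rfl⟩)
  rw [KFan_n, e] at hz
  rcases KFan_rad hF ho hz.1 with k | ⟨y, hy, k⟩
  · exact k
  · exact absurd ((hz.2 hF.2 y hy).2 k) (KFan_apex hF.1 ho hy)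

theorem KFan_n3 (hF : F ∈ K.cel 2) (ho : b F ∈ F) (hy : y ∈ closure F \ F)
    (hx : x ∈ KFan_c (Ioo 0 1) (b F) (K.cell y)) :
    KFan_n K b x = KFan_c (Ioo 0 1) (b F) (K.cell y) := by
  have s := KFan_sub hF.1 ho ((KFan_rb hF.1 hy).trans sdiff_subset)
  rw [KFan_n, Kx.cell_eq hF.1 (s hx)]
  refine Subset.antisymm (fun z hz => (hz.2 hF.2 y hy).1 hx) fun z hz => ⟨s hz, fun _ y' hy' => ?_⟩
  exact ⟨fun k => KFan_uniq hF.1 ho hy hy' hx k ▸ hz, fun k => KFan_uniq hF.1 ho hy hy' hz k ▸ hx⟩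

theorem KFan_cases (hb : ∀ F ∈ K.cel 2, b F ∈ F) (x : Rn 3) :
    (dm (K.cell x) ≠ 2 ∧ KFan_n K b x = K.cell x) ∨ (K.cell x ∈ K.cel 2 ∧
      (KFan_n K b x = {b (K.cell x)} ∨ ∃ y ∈ closure (K.cell x) \ K.cell x,
        KFan_n K b x = KFan_c (Ioo 0 1) (b (K.cell x)) (K.cell y))) := by
  by_cases h : dm (K.cell x) = 2
  · have hF : K.cell x ∈ K.cel 2 := ⟨K.cell_mem trivial, h⟩
    refine Or.inr ⟨hF, ?_⟩
    rcases KFan_rad hF (hb _ hF) (K.mem x trivial) with k | ⟨y, hy, k⟩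
    · exact Or.inl ((congrArg _ k).trans (KFan_n2 hF (hb _ hF)))
    · exact Or.inr ⟨y, hy, KFan_n3 hF (hb _ hF) hy k⟩
  · exact Or.inl ⟨h, KFan_n1 h⟩

theorem KFan_fr (hF : F ∈ K.cel 2) (ho : b F ∈ F) (hy : y ∈ closure F \ F)
    (hx : x ∈ KFan_c (Icc 0 1) (b F) (closure (K.cell y))) :
    KFan_n K b x ⊆ KFan_c (Icc 0 1) (b F) (closure (K.cell y)) := by
  obtain ⟨z, hz, s, hs, rfl⟩ := KFan_mem.1 hx
  have h1 : K.cell z ⊆ closure (K.cell y) := K.fr y trivial z hz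
  rcases hs.1.eq_or_lt with rfl | h0
  · rw [zero_smul, add_zero] at hx ⊢
    rw [KFan_n2 hF ho]
    exact singleton_subset_iff.2 hx
  rcases hs.2.eq_or_lt with rfl | h2
  · rw [one_smul, add_sub_cancel]
    exact fun p hp => KFan_mem.2 ⟨p, h1 hp.1, 1, hs, by rw [one_smul, add_sub_cancel]⟩
  rw [KFan_n3 hF ho (closure_minimal (KFan_rb hF.1 hy) (Kx.rb_closed hF.1) hz)
    (KFan_mem.2 ⟨z, K.mem z trivial, s, ⟨h0, h2⟩, rfl⟩)]
  exact image_mono (prod_mono h1 Ioo_subset_Icc_self)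

theorem KFan_dm (v : Rn 3) (σ : Set (Rn 3)) : dm ((fun y => y + v) '' σ) = dm σ := by
  have : vectorSpan ℝ ((fun y => y + v) '' σ) = vectorSpan ℝ σ := by
    rw [vectorSpan_def, vectorSpan_def]
    congr 1
    ext p
    constructor
    · rintro ⟨_, ⟨x, hx, rfl⟩, _, ⟨y, hy, rfl⟩, rfl⟩
      exact ⟨x, hx, y, hy, (add_sub_add_right_eq_sub x y v).symm⟩
    · rintro ⟨x, hx, y, hy, rfl⟩
      exact ⟨_, ⟨x, hx, rfl⟩, _, ⟨y, hy, rfl⟩, add_sub_add_right_eq_sub x y v⟩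
  rw [dm, this, dm]

theorem KFan_shift {v : Rn 3} (h : ∀ x, K.cell (x + v) = (fun y => y + v) '' K.cell x)
    (k : ∀ F ∈ K.cel 2, b ((fun y => y + v) '' F) = b F + v) (x z : Rn 3) :
    z + v ∈ KFan_n K b (x + v) ↔ z ∈ KFan_n K b x := by
  have i : Injective fun y : Rn 3 => y + v := add_left_injective v
  have c : closure ((fun y => y + v) '' K.cell x) = (fun y => y + v) '' closure (K.cell x) :=
    ((Homeomorph.addRight v).image_closure _).symm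
  rw [KFan_n, KFan_n, mem_ofPred_eq, mem_ofPred_eq, h x, KFan_dm, c, ← image_sdiff i]
  refine and_congr i.mem_set_image (forall_congr' fun e => ?_)
  rw [forall_mem_image, k _ ⟨K.cell_mem trivial, e⟩]
  simp only [h, KFan_add]

end

theorem Kx.fan (K : Kx univ) (b : Set (Rn 3) → Rn 3) (hb : ∀ F ∈ K.cel 2, b F ∈ F) :
    ∃ K' : Kx univ, K.Ref K' ∧ (∀ F ∈ K'.cel 2, ∃ k : Ch, k.Of F ∧ k.U = trg 1) ∧
      ∀ v : Rn 3, (∀ x, K.cell (x + v) = (fun y => y + v) '' K.cell x) →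
        (∀ F ∈ K.cel 2, b ((fun y => y + v) '' F) = b F + v) →
        ∀ x, K'.cell (x + v) = (fun y => y + v) '' K'.cell x := by
  have cp : ∀ y, IsCompact (closure (K.cell y)) := fun y => (K.poly y trivial).1
  refine ⟨⟨KFan_n K b, fun x _ => ⟨K.mem x trivial, fun _ _ _ => Iff.rfl⟩, fun x _ y hy => ?_,
    fun _ _ => subset_univ _, fun x _ => ?_, fun x _ => ?_, fun x _ => ?_, fun x _ p hp => ?_,
    fun C hC hs => ?_⟩, fun x _ z hz => hz.1, ?_, fun v h k x => ?_⟩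
  · ext z
    simp only [KFan_n, mem_ofPred_eq, K.eqv x trivial y hy.1]
    exact and_congr_right fun _ => forall_congr' fun e => forall₂_congr fun u hu => by
      rw [hy.2 e u hu]
  · rcases KFan_cases hb x with ⟨-, e⟩ | ⟨-, e | ⟨y, -, e⟩⟩ <;> rw [e]
    exacts [K.cvx x trivial, convex_singleton _, KFan_convex _ (K.cvx y trivial)]
  · rcases KFan_cases hb x with ⟨-, e⟩ | ⟨-, e | ⟨y, -, e⟩⟩ <;> rw [e]
    · exact K.opn x trivial
    · rintro _ rfl _ rfl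
      exact ⟨1, one_pos, by simp⟩
    · exact KFan_opn _ (K.cvx y trivial) (K.opn y trivial)
  · rcases KFan_cases hb x with ⟨-, e⟩ | ⟨hF, e | ⟨y, hy, e⟩⟩ <;> rw [e]
    · exact K.poly x trivial
    · rw [closure_singleton]
      exact Poly.finite (finite_singleton _)
    · rw [KFan_closure _ (cp y)]
      obtain ⟨a, c, e⟩ := KFan_seg hF hy
      rw [e, closure_openSegment]
      exact KFan_poly _ a c
  · rcases KFan_cases hb x with ⟨-, e⟩ | ⟨hF, e | ⟨y, hy, e⟩⟩ <;> rw [e] at hp ⊢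
    · exact fun z hz => K.fr x trivial p hp hz.1
    · rw [closure_singleton] at hp ⊢
      rw [hp, KFan_n2 hF (hb _ hF)]
    · rw [KFan_closure _ (cp y)] at hp ⊢
      exact KFan_fr hF (hb _ hF) hy hp
  · refine ((K.lf C hC hs).biUnion (t := fun σ => insert σ (insert {b σ}
      (KFan_c (Ioo 0 1) (b σ) '' {τ | τ ∈ K.cells ∧ τ ⊆ closure σ}))) ?_).subset ?_
    · rintro _ ⟨x, -, rfl⟩
      exact (((Kx.faces_finite (K.cell_mem trivial)).image _).insert _).insert _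
    · rintro _ ⟨x, hx, rfl⟩
      refine mem_biUnion (mem_image_of_mem _ hx) ?_
      rcases KFan_cases hb x with ⟨-, e⟩ | ⟨hF, e | ⟨y, hy, e⟩⟩
      · exact Or.inl e
      · exact Or.inr (Or.inl e)
      · exact Or.inr (Or.inr ⟨_, ⟨K.cell_mem trivial, (Kx.KA3_face hF.1 hy.1).2.2⟩, e.symm⟩)
  · rintro _ ⟨⟨x, -, rfl⟩, h⟩
    change dm (KFan_n K b x) = 2 at h
    change ∃ k : Ch, k.Of (KFan_n K b x) ∧ _
    rcases KFan_cases hb x with ⟨k, e⟩ | ⟨hF, e | ⟨y, hy, e⟩⟩ <;> rw [e] at h ⊢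
    · exact absurd h k
    · rw [KA2_single] at h
      omega
    · obtain ⟨a, c, e⟩ := KFan_seg hF hy
      rw [e] at h ⊢
      exact KFan_tri _ a c h
  · ext z
    obtain ⟨z, rfl⟩ : ∃ u, z = u + v := ⟨z - v, (sub_add_cancel z v).symm⟩
    exact (KFan_shift h k x z).trans (add_left_injective v).mem_set_image.symm

end BEp
end
end

-- merged part: Pool.Agent.Work.MP_f0515e_an.P3.KPer
section
/-! Uniform shape of periodic complexes. -/

open Set Metric Filter Topology Function BEv MeasureTheory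
open scoped NNReal ENNReal

noncomputable section
namespace BEp

theorem KPer_dm (S : Set (Rn 3)) (v : Rn 3) : dm ((fun y => y + v) '' S) = dm S := by
  have e : vectorSpan ℝ ((fun y => y + v) '' S) = vectorSpan ℝ S := by
    rw [vectorSpan_def, vectorSpan_def]
    congr 1
    ext z
    constructor
    · rintro ⟨_, ⟨a, ha, rfl⟩, _, ⟨b, hb, rfl⟩, rfl⟩
      exact ⟨a, ha, b, hb, by simp⟩
    · rintro ⟨a, ha, b, hb, rfl⟩
      exact ⟨_, ⟨a, ha, rfl⟩, _, ⟨b, hb, rfl⟩, by simp⟩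
  rw [dm, e, dm]

theorem KPer_bi {k : Ch} {a a' : ℝ} (h : k.Bi idE a) (e : a ≤ a') : k.Bi idE a' := fun ξ =>
  ⟨(h ξ).1.trans (by gcongr), (h ξ).2.trans (by gcongr)⟩

theorem KPer_top {K : Kx univ} {σ : Set (Rn 3)} (h : σ ∈ K.cel 3) : ∀ᶠ a in atTop, Cbe σ a 1 := by
  obtain ⟨Φ, h1, h2, h3⟩ := Kx.ball h
  obtain ⟨L, -, hL⟩ := h1.tp.exists_bound
  obtain ⟨M, -, hM⟩ := h1.tpi.exists_bound
  filter_upwards [eventually_ge_atTop L, eventually_ge_atTop M] with a k1 k2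
  refine ⟨Φ, h1, h2, ?_, fun x _ y _ => ⟨(hL x y).trans (by rw [mul_one]; gcongr), ?_⟩⟩
  · rw [← closedBall_sdiff_sphere, image_sdiff h1.inj, h2, h3, sdiff_sdiff_cancel_left subset_closure]
  · have := hM (Φ x) (Φ y)
    rw [h1.li, h1.li] at this
    rw [one_mul]
    exact this.trans (by gcongr)

theorem KPer_face {k : Ch} (h : Injective k.M) : ∀ᶠ a in atTop, k.Bi idE a := by
  obtain ⟨c, -, hc⟩ := (k.M : Rn 2 →ₗ[ℝ] Rn 3).exists_antilipschitzWith (LinearMap.ker_eq_bot.2 h)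
  filter_upwards [eventually_ge_atTop ‖k.M‖, eventually_ge_atTop (c : ℝ)] with a k1 k2 ξ
  refine ⟨(k.M.le_opNorm ξ).trans (by gcongr), ?_⟩
  have := hc.le_mul_dist ξ 0
  simp only [dist_zero_right, map_zero] at this
  exact this.trans (mul_le_mul_of_nonneg_right k2 (norm_nonneg _))

theorem shape_of_per (K : Kx univ) (N : Rn 3 ≃L[ℝ] Rn 3)
    (hp : ∀ (z : I3) (x : Rn 3), K.cell (x + N fun i => (z i : ℝ)) =
      (fun y => y + N fun i => (z i : ℝ)) '' K.cell x)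
    (hf : ∀ F ∈ K.cel 2, ∃ k : Ch, k.Of F ∧ k.U = trg 1) :
    ∃ ch w a0, ∀ a, a0 ≤ a → Shape K ch w a := by
  have fin := K.lf _ ((isCompact_closedBall (0 : Rn 3) 1).image N.continuous) (subset_univ _)
  have ev : ∀ σ ∈ K.cell '' (N '' closedBall 0 1), ∀ᶠ a in atTop, (dm σ = 3 → Cbe σ a 1) ∧
      (dm σ = 2 → ∃ (k : Ch) (w : ℝ), k.Of σ ∧ k.Shp w ∧ k.Bi idE a) := by
    rintro _ ⟨x, -, rfl⟩
    have m := K.cell_mem (mem_univ x)
    refine (eventually_imp_distrib_left.2 fun e => KPer_top ⟨m, e⟩).and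
      (eventually_imp_distrib_left.2 fun e => ?_)
    obtain ⟨k, h1, h2⟩ := hf _ ⟨m, e⟩
    exact (KPer_face h1.1).mono fun a ha => ⟨k, 1, h1, ⟨one_pos, Or.inr h2⟩, ha⟩
  obtain ⟨a0, h0, ha⟩ := ((eventually_ge_atTop (0 : ℝ)).and ((eventually_all_finite fin).2 ev)).exists
  have all : ∀ σ ∈ K.cells, (dm σ = 3 → Cbe σ a0 1) ∧
      (dm σ = 2 → ∃ (k : Ch) (w : ℝ), k.Of σ ∧ k.Shp w ∧ k.Bi idE a0) := by
    rintro _ ⟨x, -, rfl⟩
    obtain ⟨v, hv⟩ : ∃ v, v = N fun i => ((⌊N.symm x i⌋ : ℤ) : ℝ) := ⟨_, rfl⟩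
    have e := hp (fun i => ⌊N.symm x i⌋) (x - v)
    rw [← hv, sub_add_cancel] at e
    have k := ha _ ⟨x - v, ⟨N.symm (x - v), ?_, N.apply_symm_apply _⟩, rfl⟩
    · have e' : K.cell x = (fun y => v + (1 : ℝ) • y) '' K.cell (x - v) :=
        e.trans (image_congr fun y _ => by rw [one_smul, add_comm])
      rw [← KPer_dm _ v, ← e] at k
      refine ⟨fun d => ?_, fun d => ?_⟩
      · simpa only [← e', one_mul] using (k.1 d).aff v one_pos
      · obtain ⟨c, w, h1, h2, h3⟩ := k.2 d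
        obtain ⟨c', h4⟩ := c.exists_aff h1 h2 h3 v one_pos
        exact ⟨c', _, e' ▸ h4⟩
    · rw [mem_closedBall_zero_iff, pi_norm_le_iff_of_nonneg zero_le_one]
      intro i
      rw [hv, map_sub, N.symm_apply_apply, Pi.sub_apply, Real.norm_eq_abs, Int.self_sub_floor,
        abs_of_nonneg (Int.fract_nonneg _)]
      exact (Int.fract_lt_one _).le
  have : Nonempty Ch := ⟨⟨0, 0, ∅⟩⟩
  choose! ch w h using fun F (hF : F ∈ K.cel 2) => (all F hF.1).2 hF.2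
  exact ⟨ch, w, a0, fun a k => ⟨fun σ hσ => ((all σ hσ.1).1 hσ.2).mono zero_le_one zero_le_one h0
    zero_le_one (by norm_num) (by norm_num) (by linarith),
    fun F hF => ⟨(h F hF).1, (h F hF).2.1, KPer_bi (h F hF).2.2 k⟩⟩⟩

theorem KPer_kb (a b : ℝ) (m : ℤ) : kbS (a + m) b ↔ kbS a (b + -m) := by
  rw [← Int.cast_neg]
  simp only [kbS, Int.floor_add_intCast, Int.ceil_add_intCast]
  omega

theorem KPer_fin (b : ℝ) : {N | IntM N b}.Finite := by
  have h1 : ((↑) '' {k : ℤ | |(k : ℝ)| ≤ b} : Set ℝ).Finite := by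
    refine ((finite_Icc (-⌈b⌉) ⌈b⌉).subset fun k hk => ?_).image _
    have := abs_le.1 (hk.trans (Int.le_ceil b))
    exact ⟨by exact_mod_cast this.1, by exact_mod_cast this.2⟩
  refine Finite.of_injOn (f := fun (N : Rn 3 ≃L[ℝ] Rn 3) (j i : Fin 3) => N (Pi.single j 1) i)
    (fun N hN => ?_) (fun N _ N' _ e => ?_) (Finite.pi' fun _ => Finite.pi' fun _ => h1)
  · intro j i
    obtain ⟨k, e, hk⟩ := hN i j
    exact ⟨k, hk, e.symm⟩
  · ext1
    funext z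
    rw [pi_eq_sum_univ' z, map_sum, map_sum]
    exact Finset.sum_congr rfl fun j _ => by
      rw [map_smul, map_smul, show N (Pi.single j 1) = N' (Pi.single j 1) from congrFun e j]

theorem KPer_one {N : Rn 3 ≃L[ℝ] Rn 3} {b : ℝ} (hN : IntM N b) : ∀ᶠ a in atTop,
    ∃ (K : Kx univ) (ch : Set (Rn 3) → Ch) (w : Set (Rn 3) → ℝ),
      (∀ x, K.cell x ⊆ kbC 0 x ∩ lc N 0 1 x) ∧ Shape K ch w a := by
  obtain ⟨K1, h1⟩ := exists_dy 0
  obtain ⟨K2, h2⟩ := exists_lat N 0 one_pos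
  obtain ⟨K0, h0⟩ := K1.exists_inter K2
  simp only [h1, h2] at h0
  set v : I3 → Rn 3 := fun z => N fun i => (z i : ℝ) with hv
  have vi : ∀ z i, ∃ m : ℤ, v z i = m := fun z i => by
    choose k hk using fun j => hN i j
    refine ⟨∑ j, z j * k j, ?_⟩
    rw [hv]
    dsimp only
    rw [pi_eq_sum_univ' fun i => (z i : ℝ), map_sum]
    simp [fun j => (hk j).1]
  have vs : ∀ z x i, N.symm (x + v z) i = N.symm x i + z i := fun z x i => by simp [hv]
  have vs' : ∀ z x i, N.symm (x + -v z) i = N.symm x i + -z i := fun z x i => by simp [hv]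
  have per : ∀ z x, K0.cell (x + v z) = (fun y => y + v z) '' K0.cell x := fun z x => by
    rw [image_add_right, h0, h0]
    ext y
    simp only [kbC, lc, mem_inter_iff, mem_ofPred_eq, mem_preimage, pow_zero, one_mul, inv_one,
      one_smul, sub_zero, vs, vs', KPer_kb, Pi.add_apply, Pi.neg_apply]
    refine and_congr_left' (forall_congr' fun i => ?_)
    obtain ⟨m, e⟩ := vi z i
    rw [e, KPer_kb]
  set pt : Set (Rn 3) → Rn 3 := fun F => Classical.epsilon (· ∈ F)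
  have hpt : ∀ F : Set (Rn 3), F.Nonempty → pt F ∈ F := fun F h => Classical.epsilon_spec h
  set zf : Set (Rn 3) → I3 := fun F i => ⌊N.symm (pt F) i⌋ with hzf
  have hz : ∀ F ∈ K0.cel 2, ∀ x ∈ F, ∀ i, ⌊N.symm x i⌋ = zf F i := fun F hF x hx i => by
    rw [← Kx.cell_eq hF.1 (hpt F ⟨x, hx⟩), h0] at hx
    simpa using (hx.2 i).1
  obtain ⟨K, r, hf, hp⟩ := K0.fan (fun F => pt ((fun y => y + -v (zf F)) '' F) + v (zf F))
    fun F hF => by
      obtain ⟨x, hx, e⟩ := hpt _ ((Kx.cells_ne hF.1).image fun y => y + -v (zf F))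
      rw [← e]
      simpa using hx
  obtain ⟨ch, w, a0, h⟩ := shape_of_per K N (fun z => hp _ (per z) fun F hF => by
    have e : zf ((fun y => y + v z) '' F) = zf F + z := by
      obtain ⟨x, hx, e⟩ := hpt _ ((Kx.cells_ne hF.1).image fun y => y + v z)
      funext i
      rw [Pi.add_apply, ← hz F hF x hx, hzf]
      dsimp only
      rw [← e]
      dsimp only
      rw [vs, Int.floor_add_intCast]
    have e2 : v (zf F + z) = v (zf F) + v z := by
      simp only [hv, ← map_add]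
      congr 1
      funext i
      simp
    change pt _ + v _ = pt _ + v _ + v z
    rw [e, e2, image_image, add_assoc]
    congr 3
    funext y
    abel) hf
  filter_upwards [eventually_ge_atTop a0] with a ha
  exact ⟨K, ch, w, fun x => h0 x ▸ r x trivial, h a ha⟩

theorem exists_shK (b : ℝ) : ∃ a, ShK b a := by
  exact ((eventually_ge_atTop (3 * b)).and
    ((eventually_all_finite (KPer_fin b)).2 fun _ h => KPer_one h)).exists

end BEp
end
end

-- merged part: Pool.Agent.Work.MP_f0515e_an.P3.TyEx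
section
/-! Existence of types. Rank zero or three: `I = univ`, `N = 1`. Rank one: `A = α(·) a`, `I = {i}` with
`|α i|` maximal, kernel vectors `e j - (α j / α i) e i`. Rank two: the kernel is spanned by `k` with
`k j = 1` of maximal modulus, `I = {j}ᶜ`. `N (e j) = b e j + round (b k i) e i`. Extend `A` on `I` to
an invertible `A1` (for `A = 0` take `A1 = 1`, `L = 1`), `σ` = half of a lower bound of `A1`, capped
by one; `Ah` = inverse of a rational matrix close to `A1⁻¹`, `L = Ah ∘ A1⁻¹`. Then choose `nl`, `a`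
large, `κ = 2^nl ⌊g 2^(a - nl)⌋`, `lam` small.
-/

open Set Metric Filter Topology Function BEv MeasureTheory
open scoped NNReal ENNReal

noncomputable section
namespace BEp

theorem TyEx_pr (I : Finset (Fin 3)) (z : Rn 3) (i : Fin 3) :
    prL I z i = if i ∈ I then z i else 0 := by
  simp only [prL, ContinuousLinearMap.pi_apply]
  split_ifs <;> rfl

theorem TyEx_sum (T : Rn 3 →L[ℝ] Rn 3) (z : Rn 3) : T z = ∑ j, z j • T (Pi.single j 1) := by
  conv_lhs => rw [pi_eq_sum_univ' z]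
  simp

theorem TyEx_bd (T : Rn 3 →L[ℝ] Rn 3) {c : ℝ} (h : ∀ i j, |T (Pi.single j 1) i| ≤ c) (z : Rn 3) :
    ‖T z‖ ≤ 3 * c * ‖z‖ := by
  have c0 : 0 ≤ c := (abs_nonneg _).trans (h 0 0)
  rw [TyEx_sum]
  refine (norm_sum_le _ _).trans ((Finset.sum_le_sum (g := fun _ => ‖z‖ * c) fun j _ => ?_).trans
    (le_of_eq ?_))
  · rw [norm_smul]
    exact mul_le_mul (norm_le_pi_norm z j) ((pi_norm_le_iff_of_nonneg c0).2 fun i => h i j)
      (norm_nonneg _) (norm_nonneg _)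
  · simp; ring

/-- The coordinates and the normalised vectors of the kernel. -/
theorem TyEx_ker (A : Rn 3 →L[ℝ] Rn 3) : ∃ (I : Finset (Fin 3)) (k : Fin 3 → Rn 3), I.Nonempty ∧
    (A = 0 → I = Finset.univ) ∧ (∀ j, j ∉ I → A (k j) = 0 ∧
      (∀ i, i ∉ I → k j i = if i = j then 1 else 0) ∧ ∀ i, |k j i| ≤ 1) ∧
    (A ≠ 0 → ∀ z, (∀ i, i ∉ I → z i = 0) → A z = 0 → z = 0) := by
  by_cases h0 : A = 0
  · exact ⟨Finset.univ, 0, Finset.univ_nonempty, fun _ => rfl, by simp, fun h => (h h0).elim⟩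
  have hd := LinearMap.finrank_range_add_finrank_ker (A : Rn 3 →ₗ[ℝ] Rn 3)
  rw [Module.finrank_fin_fun] at hd
  by_cases h1 : Module.finrank ℝ (LinearMap.range (A : Rn 3 →ₗ[ℝ] Rn 3)) ≤ 1
  · obtain ⟨v, hv⟩ := finrank_le_one_iff.1 h1
    choose α hα using fun j => hv ⟨A (Pi.single j 1), _, rfl⟩
    replace hα : ∀ j, A (Pi.single j 1) = α j • (v : Rn 3) := fun j =>
      (congrArg Subtype.val (hα j)).symm
    obtain ⟨i, -, hi⟩ := Finset.exists_max_image Finset.univ (fun j => |α j|) Finset.univ_nonempty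
    have hne : A (Pi.single i 1) ≠ 0 ∧ α i ≠ 0 := by
      by_contra hc
      refine h0 (ContinuousLinearMap.ext fun z => ?_)
      have : ∀ j, A (Pi.single j 1) = 0 := fun j => by
        by_cases e : α i = 0
        · have := hi j (Finset.mem_univ _)
          rw [e, abs_zero, abs_nonpos_iff] at this
          rw [hα, this, zero_smul]
        · have : A (Pi.single i 1) = 0 := by tauto
          rw [hα, smul_eq_zero, or_iff_right e] at this
          rw [hα, this, smul_zero]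
      rw [TyEx_sum]; simp [this]
    refine ⟨{i}, fun j => Pi.single j 1 - (α j / α i) • (Pi.single i 1 : Rn 3),
      Finset.singleton_nonempty _, fun h => (h0 h).elim, fun j hj => ⟨?_, fun l hl => ?_, fun l => ?_⟩,
      fun _ z hz e => ?_⟩
    · rw [map_sub, map_smul, hα, hα, smul_smul, div_mul_cancel₀ _ hne.2, sub_self]
    · rw [Finset.mem_singleton] at hl
      simp [Pi.single_apply, hl]
    · rw [Finset.mem_singleton] at hj
      by_cases e : l = i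
      · subst e
        simpa [Pi.single_apply, Ne.symm hj, abs_div, div_le_one (abs_pos.2 hne.2)] using
          hi j (Finset.mem_univ _)
      · simp only [Pi.sub_apply, Pi.smul_apply, Pi.single_apply, e, if_false, smul_zero, sub_zero]
        split_ifs <;> simp
    · rw [TyEx_sum, Finset.sum_eq_single i (fun l _ hl => by rw [hz l (by simpa using hl), zero_smul])
        (by simp), smul_eq_zero, or_iff_left hne.1] at e
      funext l
      by_cases e' : l = i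
      · rw [e', e]; rfl
      · exact hz l (by simpa using e')
  · obtain ⟨v, hv⟩ := finrank_le_one_iff.1
      (show Module.finrank ℝ (LinearMap.ker (A : Rn 3 →ₗ[ℝ] Rn 3)) ≤ 1 by omega)
    replace hv : ∀ z, A z = 0 → ∃ c : ℝ, z = c • (v : Rn 3) := fun z hz =>
      (hv ⟨z, hz⟩).imp fun c e => (congrArg Subtype.val e).symm
    have v0 : A v = 0 := v.2
    by_cases e : (v : Rn 3) = 0
    · refine ⟨Finset.univ, 0, Finset.univ_nonempty, fun _ => rfl, by simp, fun _ z _ hz => ?_⟩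
      obtain ⟨c, rfl⟩ := hv z hz
      rw [e, smul_zero]
    obtain ⟨j, -, hj⟩ := Finset.exists_max_image Finset.univ (fun j => |(v : Rn 3) j|)
      Finset.univ_nonempty
    have hne : (v : Rn 3) j ≠ 0 := fun c => e (funext fun l => by
      have := hj l (Finset.mem_univ _)
      rwa [c, abs_zero, abs_nonpos_iff] at this)
    refine ⟨{j}ᶜ, fun _ => ((v : Rn 3) j)⁻¹ • (v : Rn 3), ⟨j + 1, by fin_cases j <;> simp⟩,
      fun h => (h0 h).elim, fun l hl => ⟨by rw [map_smul, v0, smul_zero], fun i hi => ?_, fun i => ?_⟩,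
      fun _ z hz e => ?_⟩
    · obtain rfl : l = j := by simpa using hl
      obtain rfl : i = l := by simpa using hi
      simp [hne]
    · change |((v : Rn 3) j)⁻¹ * (v : Rn 3) i| ≤ 1
      rw [inv_mul_eq_div, abs_div, div_le_one (abs_pos.2 hne)]
      exact hj i (Finset.mem_univ _)
    · obtain ⟨c, rfl⟩ := hv z e
      have := hz j (by simp)
      rw [Pi.smul_apply, smul_eq_mul, mul_eq_zero, or_iff_left hne] at this
      rw [this, zero_smul]

/-- An injective map as an equivalence. -/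
theorem TyEx_eqv (T : Rn 3 →L[ℝ] Rn 3) (h : ∀ z, T z = 0 → z = 0) :
    ∃ E : Rn 3 ≃L[ℝ] Rn 3, ∀ z, E z = T z :=
  ⟨(LinearEquiv.ofInjectiveEndo (T : Rn 3 →ₗ[ℝ] Rn 3)
    ((injective_iff_map_eq_zero _).2 h)).toContinuousLinearEquiv, fun _ => rfl⟩

theorem TyEx_mat (M : Fin 3 → Rn 3) : ∃ T : Rn 3 →L[ℝ] Rn 3, ∀ j, T (Pi.single j 1) = M j :=
  ⟨∑ j, (ContinuousLinearMap.proj j : Rn 3 →L[ℝ] ℝ).smulRight (M j), fun j => by
    simp [Pi.single_apply]⟩

theorem TyEx_N {b : ℕ} (hb : 0 < b) (A : Rn 3 →L[ℝ] Rn 3) {I : Finset (Fin 3)} {k : Fin 3 → Rn 3}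
    (hk : ∀ j, j ∉ I → A (k j) = 0 ∧ (∀ i, i ∉ I → k j i = if i = j then 1 else 0) ∧
      ∀ i, |k j i| ≤ 1) : ∃ N : Rn 3 ≃L[ℝ] Rn 3, IntM N b ∧
    (∀ i ∈ I, N (Pi.single i 1) = Pi.single i 1) ∧
    (∀ j, j ∉ I → ∀ i, i ∉ I → N (Pi.single j 1) i = if i = j then (b : ℝ) else 0) ∧
    ∀ j, j ∉ I → ‖A (N (Pi.single j 1))‖ ≤ ‖A‖ := by
  obtain ⟨T, hT⟩ := TyEx_mat fun j => if j ∈ I then Pi.single j 1 else fun i => round (b * k j i)
  have b1 : (1 : ℝ) ≤ b := by exact_mod_cast hb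
  have h1 : ∀ i ∈ I, T (Pi.single i 1) = Pi.single i 1 := fun i hi => by rw [hT, if_pos hi]
  have h2 : ∀ j, j ∉ I → ∀ i, i ∉ I → T (Pi.single j 1) i = if i = j then (b : ℝ) else 0 :=
    fun j hj i hi => by
      rw [hT, if_neg hj, (hk j hj).2.1 i hi]
      split_ifs <;> simp
  obtain ⟨N, hN⟩ := TyEx_eqv T fun z hz => by
    have e1 : ∀ i, i ∉ I → z i = 0 := fun i hi => by
      have := congrFun hz i
      rw [TyEx_sum, Finset.sum_apply, Finset.sum_eq_single i (fun l _ hl => ?_) (by simp),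
        Pi.smul_apply, h2 i hi i hi] at this
      · simpa [hb.ne'] using this
      · by_cases c : l ∈ I
        · simp [h1 l c, hl.symm]
        · simp [h2 l c i hi, hl.symm]
    rw [← hz, TyEx_sum]
    conv_lhs => rw [pi_eq_sum_univ' z]
    refine Finset.sum_congr rfl fun l _ => ?_
    by_cases c : l ∈ I
    · rw [h1 l c]
    · simp [e1 l c]
  refine ⟨N, fun i j => ?_, fun i hi => (hN _).trans (h1 i hi), fun j hj i hi => hN _ ▸ h2 j hj i hi,
    fun j hj => ?_⟩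
  · rw [hN, hT]
    split_ifs with c
    · refine ⟨if i = j then 1 else 0, by simp [Pi.single_apply], ?_⟩
      split_ifs <;> simp [b1]
    · refine ⟨_, rfl, ?_⟩
      have a1 := abs_le.1 (abs_sub_round ((b : ℝ) * k j i))
      have a2 := abs_le.1 ((hk j c).2.2 i)
      have a3 : round ((b : ℝ) * k j i) < (b : ℤ) + 1 := by
        have : ((round ((b : ℝ) * k j i) : ℤ) : ℝ) < b + 1 := by linarith only [a1, a2, mul_nonneg_of_nonpos_of_nonpos (Mathlib.Tactic.Linarith.sub_nonpos_of_le (Mathlib.Tactic.Linarith.natCast_nonneg ℝ b)) (Mathlib.Tactic.Linarith.sub_nonpos_of_le a2.right)]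
        exact_mod_cast this
      have a4 : -(b : ℤ) - 1 < round ((b : ℝ) * k j i) := by
        have : -(b : ℝ) - 1 < ((round ((b : ℝ) * k j i) : ℤ) : ℝ) := by linarith only [a1, a2, mul_nonneg_of_nonpos_of_nonpos (Mathlib.Tactic.Linarith.sub_nonpos_of_le (Mathlib.Tactic.Linarith.natCast_nonneg ℝ b)) (Mathlib.Tactic.Linarith.sub_nonpos_of_le a2.left)]
        exact_mod_cast this
      have : |round ((b : ℝ) * k j i)| ≤ (b : ℤ) := abs_le.2 ⟨by omega, by omega⟩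
      exact_mod_cast this
  · have e : A (N (Pi.single j 1)) = A (N (Pi.single j 1) - (b : ℝ) • k j) := by
      rw [map_sub, map_smul, (hk j hj).1, smul_zero, sub_zero]
    rw [e]
    refine (A.le_opNorm _).trans (mul_le_of_le_one_right (norm_nonneg _)
      ((pi_norm_le_iff_of_nonneg zero_le_one).2 fun i => ?_))
    rw [hN, hT, if_neg hj, Pi.sub_apply, Pi.smul_apply, smul_eq_mul, Real.norm_eq_abs, abs_sub_comm]
    exact (abs_sub_round _).trans (by norm_num)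

theorem TyEx_ext (A : Rn 3 →L[ℝ] Rn 3) {I : Finset (Fin 3)}
    (h : A ≠ 0 → ∀ z, (∀ i, i ∉ I → z i = 0) → A z = 0 → z = 0) :
    ∃ E : Rn 3 ≃L[ℝ] Rn 3, A ≠ 0 → ∀ z, (∀ i, i ∉ I → z i = 0) → E z = A z := by
  by_cases h0 : A = 0
  · exact ⟨idE, fun c => (c h0).elim⟩
  let W : Submodule ℝ (Rn 3) := LinearMap.range (prL I : Rn 3 →ₗ[ℝ] Rn 3)
  have hi : Injective ((A : Rn 3 →ₗ[ℝ] Rn 3).domRestrict W) :=
    (injective_iff_map_eq_zero _).2 fun ⟨_, z, rfl⟩ e => Subtype.ext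
      (h h0 _ (fun i hi => (TyEx_pr I z i).trans (if_neg hi)) e)
  obtain ⟨E, hE⟩ := Submodule.exists_linearEquiv_restrict_eq (LinearEquiv.ofInjective _ hi)
  refine ⟨E.toContinuousLinearEquiv, fun _ z hz => (hE ⟨z, z, funext fun i => ?_⟩).symm⟩
  refine (TyEx_pr I z i).trans ?_
  split_ifs with c
  · rfl
  · exact (hz i c).symm

/-- Rational approximation of the inverse. -/
theorem TyEx_rat (E : Rn 3 ≃L[ℝ] Rn 3) {ε : ℝ} (hε : 0 < ε) : ∃ Ah : Rn 3 ≃L[ℝ] Rn 3,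
    (∀ z, ‖Ah.symm z‖ ≤ (‖(E.symm : Rn 3 →L[ℝ] Rn 3)‖ + 1) * ‖z‖) ∧
    ‖(Ah : Rn 3 →L[ℝ] Rn 3).comp (E.symm : Rn 3 →L[ℝ] Rn 3) - 1‖ ≤ ε ∧
    ∃ m : ℕ, 0 < m ∧ ∀ i j, ∃ k : ℤ, m * Ah.symm (Pi.single j 1) i = k := by
  set P := ‖(E : Rn 3 →L[ℝ] Rn 3)‖ + 1 with hP
  have P1 : 1 ≤ P := le_add_of_nonneg_left (norm_nonneg _)
  obtain ⟨δ, δ0, δ1, δ2⟩ : ∃ δ : ℝ, 0 < δ ∧ 2 * P * δ ≤ 1 ∧ 2 * P * δ ≤ ε := by
    refine ⟨min 1 ε / (2 * P), by positivity, ?_, ?_⟩ <;> rw [mul_div_cancel₀ _ (by positivity)]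
    exacts [min_le_left _ _, min_le_right _ _]
  obtain ⟨m, hm⟩ := exists_nat_gt (3 / δ)
  have m0 : (0 : ℝ) < m := lt_trans (by positivity) hm
  obtain ⟨R, hR⟩ := TyEx_mat fun j i => round (m * E.symm (Pi.single j 1) i) / m
  have h1 : ∀ z, ‖E.symm z - R z‖ ≤ δ * ‖z‖ := fun z => by
    refine (TyEx_bd ((E.symm : Rn 3 →L[ℝ] Rn 3) - R) (c := 1 / m) (fun i j => ?_) z).trans
      (mul_le_mul_of_nonneg_right ?_ (norm_nonneg _))
    · have := abs_sub_round (m * E.symm (Pi.single j 1) i)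
      have e : ((E.symm : Rn 3 →L[ℝ] Rn 3) - R) (Pi.single j 1) i = (m * E.symm (Pi.single j 1) i -
          round (m * E.symm (Pi.single j 1) i)) / m := by
        rw [sub_apply, Pi.sub_apply, hR, sub_div, mul_div_cancel_left₀ _ m0.ne']
        rfl
      rw [e, abs_div, abs_of_pos m0]
      exact div_le_div_of_nonneg_right (this.trans (by norm_num)) m0.le
    · rw [div_lt_iff₀ δ0] at hm
      rw [mul_one_div, div_le_iff₀ m0]
      linarith
  have h2 : ∀ z, ‖z‖ ≤ 2 * P * ‖R z‖ := fun z => by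
    have a1 : ‖z‖ ≤ P * ‖E.symm z‖ := by
      conv_lhs => rw [← E.apply_symm_apply z]
      exact ((E : Rn 3 →L[ℝ] Rn 3).le_opNorm _).trans
        (mul_le_mul_of_nonneg_right (by linarith) (norm_nonneg _))
    have a2 : ‖E.symm z‖ ≤ δ * ‖z‖ + ‖R z‖ := (norm_le_norm_sub_add _ (R z)).trans (by linarith [h1 z])
    have a3 := mul_le_mul_of_nonneg_left a2 (zero_le_one.trans P1)
    have a4 := mul_le_mul_of_nonneg_right δ1 (norm_nonneg z)
    linarith only [a1, a3, a4]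
  obtain ⟨F, hF⟩ := TyEx_eqv R fun z hz => norm_le_zero_iff.1 (by simpa [hz] using h2 z)
  refine ⟨F.symm, fun z => ?_, ContinuousLinearMap.opNorm_le_bound _ hε.le fun z => ?_, m,
    by exact_mod_cast m0, fun i j => ⟨round (m * E.symm (Pi.single j 1) i), ?_⟩⟩
  · rw [ContinuousLinearEquiv.symm_symm, hF]
    have a1 : ‖E.symm z‖ ≤ ‖(E.symm : Rn 3 →L[ℝ] Rn 3)‖ * ‖z‖ :=
      (E.symm : Rn 3 →L[ℝ] Rn 3).le_opNorm z
    have a2 : ‖R z‖ ≤ ‖E.symm z - R z‖ + ‖E.symm z‖ := by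
      rw [norm_sub_rev]; exact norm_le_norm_sub_add _ _
    have a3 : δ * ‖z‖ ≤ 1 * ‖z‖ := mul_le_mul_of_nonneg_right (by linarith only [δ1, P1, δ0, mul_nonneg_of_nonpos_of_nonpos (Mathlib.Tactic.Linarith.sub_nonpos_of_le P1) (le_of_lt (Mathlib.Tactic.Linarith.sub_neg_of_lt δ0))]) (norm_nonneg _)
    linarith only [a1, a2, a3, h1, h1 z]
  · have e : ((F.symm : Rn 3 →L[ℝ] Rn 3).comp (E.symm : Rn 3 →L[ℝ] Rn 3) - 1) z =
        F.symm (E.symm z - R z) := by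
      rw [map_sub, ← hF, F.symm_apply_apply]; rfl
    rw [e]
    refine (h2 _).trans ?_
    rw [← hF, F.apply_symm_apply]
    refine (mul_le_mul_of_nonneg_left (h1 z) (by positivity)).trans ?_
    rw [← mul_assoc]
    exact mul_le_mul_of_nonneg_right δ2 (norm_nonneg _)
  · rw [ContinuousLinearEquiv.symm_symm, hF, hR, mul_div_cancel₀ _ m0.ne']

/-- The choice of the integers. -/
theorem TyEx_num {g X : ℝ} (h0 : 0 < g) (h1 : g ≤ 1 / 8) (Z : ℕ → ℝ) : ∃ nl a r : ℕ, 4 ≤ nl ∧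
    (∃ k : ℕ, 2 ≤ k ∧ r + 8 = k * 2 ^ nl) ∧ X ≤ g * 2 ^ nl ∧ g * 2 ^ a / 2 ≤ 2 ^ a - ((r : ℝ) + 8) ∧
    2 ^ a - ((r : ℝ) + 8) ≤ g * 2 ^ a ∧ Z nl ≤ g * 2 ^ a := by
  have key : ∀ x : ℝ, ∃ n : ℕ, x ≤ g * 2 ^ n := fun x => by
    obtain ⟨n, hn⟩ := pow_unbounded_of_one_lt (x / g) (one_lt_two (α := ℝ))
    exact ⟨n, by rw [div_lt_iff₀' h0] at hn; exact hn.le⟩
  obtain ⟨n, hn⟩ := key (max X 2)
  have n4 : ∀ n : ℕ, 2 ≤ g * 2 ^ n → (16 : ℝ) ≤ 2 ^ n := fun n h => by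
    (refine le_of_not_gt fun h_nl => ?_; linarith only [h_nl, h1, h, h0, pow_pos (two_pos (α := ℝ)) n, mul_pos_of_neg_of_neg (Mathlib.Tactic.Linarith.sub_neg_of_lt h0) (Mathlib.Tactic.Linarith.sub_neg_of_lt h_nl)])
  have n5 : 16 ≤ 2 ^ n := by exact_mod_cast n4 n ((le_max_right _ _).trans hn)
  obtain ⟨d, hd⟩ := key (max (Z n) 2)
  have d2 := (le_max_right _ _).trans hd
  have d4 := n4 d d2
  have q1 := Nat.floor_le (zero_le_two.trans d2)
  have q2 := Nat.lt_floor_add_one (g * 2 ^ d)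
  set q := ⌊g * 2 ^ d⌋₊
  have q3 : q + 2 ≤ 2 ^ d := by
    have : (q : ℝ) + 2 ≤ 2 ^ d := by (refine le_of_not_gt fun h_nl => ?_; linarith only [h_nl, h1, d4, q1, h0, mul_nonneg_of_nonpos_of_nonpos (Mathlib.Tactic.Linarith.sub_nonpos_of_le (Mathlib.Tactic.Linarith.natCast_nonneg ℝ q)) (Mathlib.Tactic.Linarith.sub_nonpos_of_le h1), mul_pos_of_neg_of_neg (Mathlib.Tactic.Linarith.sub_neg_of_lt h0) (Mathlib.Tactic.Linarith.sub_neg_of_lt h0), mul_nonneg_of_nonpos_of_nonpos (le_of_lt (Mathlib.Tactic.Linarith.sub_neg_of_lt h0)) (Mathlib.Tactic.Linarith.sub_nonpos_of_le h1), mul_pos_of_neg_of_neg (Mathlib.Tactic.Linarith.sub_neg_of_lt h0) (Mathlib.Tactic.Linarith.sub_neg_of_lt h_nl)])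
    exact_mod_cast this
  obtain ⟨k, hk⟩ := Nat.exists_eq_add_of_le q3
  have r1 : 8 ≤ (k + 2) * 2 ^ n := by nlinarith only [n5]
  obtain ⟨r, hr⟩ := Nat.exists_eq_add_of_le r1
  have e1 : (2 : ℝ) ^ d = q + 2 + k := by exact_mod_cast hk
  have e2 : ((k : ℝ) + 2) * 2 ^ n = 8 + r := by exact_mod_cast hr
  have e : (2 : ℝ) ^ (d + n) - (r + 8) = q * 2 ^ n := by rw [pow_add, e1]; linarith only [e2]
  have p0 : (1 : ℝ) ≤ 2 ^ n := one_le_pow₀ one_le_two
  refine ⟨n, d + n, r, ?_, ⟨k + 2, by omega, by omega⟩, (le_max_left _ _).trans hn, ?_, ?_, ?_⟩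
  · exact (Nat.pow_le_pow_iff_right one_lt_two).1 n5
  · rw [e, pow_add]; (refine le_of_not_gt fun h_nl => ?_; linarith only [h_nl, d2, q2, e2, h0, h1, Mathlib.Tactic.Linarith.mul_zero_eq (Mathlib.Tactic.Linarith.sub_nonpos_of_le (Mathlib.Tactic.Linarith.natCast_nonneg ℝ q)) (sub_eq_zero_of_eq e2), mul_nonneg_of_nonpos_of_nonpos (Mathlib.Tactic.Linarith.sub_nonpos_of_le (Mathlib.Tactic.Linarith.natCast_nonneg ℝ k)) (le_of_lt (Mathlib.Tactic.Linarith.sub_neg_of_lt h_nl)), mul_nonneg_of_nonpos_of_nonpos (Mathlib.Tactic.Linarith.sub_nonpos_of_le (Mathlib.Tactic.Linarith.natCast_nonneg ℝ r)) (Mathlib.Tactic.Linarith.sub_nonpos_of_le d2), mul_nonneg_of_nonpos_of_nonpos (Mathlib.Tactic.Linarith.sub_nonpos_of_le (Mathlib.Tactic.Linarith.natCast_nonneg ℝ r)) (le_of_lt (Mathlib.Tactic.Linarith.sub_neg_of_lt q2)), mul_pos_of_neg_of_neg (Mathlib.Tactic.Linarith.sub_neg_of_lt h0) (Mathlib.Tactic.Linarith.sub_neg_of_lt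 h_nl), mul_nonneg_of_nonpos_of_nonpos (Mathlib.Tactic.Linarith.sub_nonpos_of_le h1) (le_of_lt (Mathlib.Tactic.Linarith.sub_neg_of_lt h_nl)), Mathlib.Tactic.Linarith.mul_zero_eq (Mathlib.Tactic.Linarith.sub_nonpos_of_le d2) (sub_eq_zero_of_eq e2)])
  · rw [e, pow_add]; (refine le_of_not_gt fun h_nl => ?_; linarith only [h_nl, q1, e2, h0, h1, d2, Mathlib.Tactic.Linarith.mul_zero_eq (Mathlib.Tactic.Linarith.sub_nonpos_of_le (Mathlib.Tactic.Linarith.natCast_nonneg ℝ q)) (sub_eq_zero_of_eq e2), mul_nonneg_of_nonpos_of_nonpos (Mathlib.Tactic.Linarith.sub_nonpos_of_le (Mathlib.Tactic.Linarith.natCast_nonneg ℝ k)) (le_of_lt (Mathlib.Tactic.Linarith.sub_neg_of_lt h_nl)), mul_nonneg_of_nonpos_of_nonpos (Mathlib.Tactic.Linarith.sub_nonpos_of_le (Mathlib.Tactic.Linarith.natCast_nonneg ℝ r)) (Mathlib.Tactic.Linarith.sub_nonpos_of_le q1), mul_pos_of_neg_of_neg (Mathlib.Tactic.Linarith.sub_neg_of_lt h0) (Mathlib.Tactic.Linarith.sub_neg_of_lt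 h_nl), mul_nonneg_of_nonpos_of_nonpos (Mathlib.Tactic.Linarith.sub_nonpos_of_le h1) (le_of_lt (Mathlib.Tactic.Linarith.sub_neg_of_lt h_nl)), Mathlib.Tactic.Linarith.mul_zero_eq (Mathlib.Tactic.Linarith.sub_nonpos_of_le d2) (sub_eq_zero_of_eq e2)])
  · rw [pow_add]; (refine le_of_not_gt fun h_nl => ?_; linarith only [h_nl, p0, hd, h0, h1, d2, (le_max_left _ _).trans hd, mul_pos_of_neg_of_neg (Mathlib.Tactic.Linarith.sub_neg_of_lt h0) (Mathlib.Tactic.Linarith.sub_neg_of_lt h_nl), mul_nonneg_of_nonpos_of_nonpos (Mathlib.Tactic.Linarith.sub_nonpos_of_le h1) (le_of_lt (Mathlib.Tactic.Linarith.sub_neg_of_lt h_nl)), mul_nonneg_of_nonpos_of_nonpos (Mathlib.Tactic.Linarith.sub_nonpos_of_le d2) (Mathlib.Tactic.Linarith.sub_nonpos_of_le p0)])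

theorem exists_ty {g : ℝ} {b : ℕ} (h0 : 0 < g) (h1 : g ≤ 1 / 8) (hb : 1 ≤ g * b)
    {Cf Cg : (Rn 3 ≃L[ℝ] Rn 3) → ℝ} (hf : ∀ A, 1 ≤ Cf A) (hg : ∀ A, 1 ≤ Cg A)
    (A : Rn 3 →L[ℝ] Rn 3) : ∃ T : Ty, T.A = A ∧ T.Ok g b ∧ T.cf = Cf T.Ah ∧ T.cg = Cg T.Ah := by
  have b0 : 0 < b := Nat.pos_of_ne_zero fun e => by norm_num [e] at hb
  obtain ⟨I, k, hI, hz, hk, hi⟩ := TyEx_ker A
  obtain ⟨N, n1, n2, n3, n4⟩ := TyEx_N b0 A hk
  obtain ⟨E, hE⟩ := TyEx_ext A hi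
  set M := ‖(E.symm : Rn 3 →L[ℝ] Rn 3)‖ + 1 with hM
  have M1 : 1 ≤ M := le_add_of_nonneg_left (norm_nonneg _)
  have s0 : 0 < M⁻¹ := by positivity
  have s1 : M⁻¹ ≤ 1 := inv_le_one_of_one_le₀ M1
  have A0 := norm_nonneg A
  obtain ⟨Ah, a1, a2, a3⟩ := TyEx_rat E (ε := M⁻¹ * g / (1000 * (1 + ‖A‖))) (by positivity)
  rw [le_div_iff₀ (by positivity)] at a2
  have l0 := norm_nonneg ((Ah : Rn 3 →L[ℝ] Rn 3).comp (E.symm : Rn 3 →L[ℝ] Rn 3) - 1)
  have f1 := hf Ah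
  have g1 := hg Ah
  obtain ⟨nl, a, r, c1, c2, c3, c4, c5, c6⟩ := TyEx_num
    (X := 10 ^ 15 * (1 + ‖(Ah : Rn 3 →L[ℝ] Rn 3)‖) * Cf Ah) h0 h1 fun n =>
      max (200 * M * (4 * Cf Ah * 2 ^ n / M⁻¹ + 64)) ((Cf Ah + Cg Ah) ^ 3 * (4 * Cf Ah * 2 ^ n / M⁻¹ + 64))
  refine ⟨⟨A, I, N, Ah, (Ah : Rn 3 →L[ℝ] Rn 3).comp (E.symm : Rn 3 →L[ℝ] Rn 3), M⁻¹, nl, a, r,
    M⁻¹ ^ 2 / (10 ^ 14 * (1 + ‖(Ah : Rn 3 →L[ℝ] Rn 3)‖) * 2 ^ a), Cf Ah, Cg Ah⟩, rfl,
    ⟨⟨h0, h1⟩, hb, hI, n1, n2, n3, n4, hz, ⟨s0, s1⟩, fun h z => ?_, fun z => ?_, fun h i c => ?_,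
      ⟨?_, ?_⟩, a3, ⟨f1, g1⟩, c1, c2, c3, ⟨c4, c5⟩, ?_, (le_max_right _ _).trans c6, ?_, ?_⟩, rfl, rfl⟩
  · change M⁻¹ * ‖prL I z‖ ≤ ‖A (prL I z)‖
    rw [← hE h _ fun i c => (TyEx_pr I z i).trans (if_neg c), inv_mul_le_iff₀ (by positivity)]
    conv_lhs => rw [← E.symm_apply_apply (prL I z)]
    exact ((E.symm : Rn 3 →L[ℝ] Rn 3).le_opNorm _).trans
      (mul_le_mul_of_nonneg_right (by linarith only [h0, h1]) (norm_nonneg _))
  · change M⁻¹ * ‖z‖ ≤ ‖Ah z‖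
    rw [inv_mul_le_iff₀ (by positivity)]
    simpa using a1 (Ah z)
  · change Ah _ = Ah (E.symm (A _))
    rw [← hE h _ fun l d => Pi.single_eq_of_ne (fun e : l = i => d (e ▸ c)) _, E.symm_apply_apply]
  · change ‖(Ah : Rn 3 →L[ℝ] Rn 3).comp (E.symm : Rn 3 →L[ℝ] Rn 3) - 1‖ ≤ g
    linarith only [a2, l0, A0, h0, h1, s1, mul_nonneg l0 A0, mul_pos_of_neg_of_neg (Mathlib.Tactic.Linarith.sub_neg_of_lt h0) (Mathlib.Tactic.Linarith.sub_neg_of_lt h0), mul_nonneg_of_nonpos_of_nonpos (le_of_lt (Mathlib.Tactic.Linarith.sub_neg_of_lt h0)) (Mathlib.Tactic.Linarith.sub_nonpos_of_le h1), mul_nonneg_of_nonpos_of_nonpos (le_of_lt (Mathlib.Tactic.Linarith.sub_neg_of_lt h0)) (Mathlib.Tactic.Linarith.sub_nonpos_of_le s1)]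
  · exact le_of_eq_of_le (by ring) a2
  · change 100 * (4 * Cf Ah * 2 ^ nl / M⁻¹ + 64) ≤ M⁻¹ * (2 ^ a - ((r : ℝ) + 8))
    rw [le_inv_mul_iff₀ (by positivity)]
    linarith only [c4, c6, (le_max_left _ _).trans c6]
  · change 0 < _ / _
    positivity
  · exact (mul_div_cancel₀ _ (by positivity)).le

end BEp
end
end
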