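import Pool.Agent.Work.MP_f0515e_an.P3.KInt
import Pool.Agent.Work.MP_f0515e_an.Pos.ALeb
import Pool.Agent.Work.MP_f0515e_an.P3.Det
import Pool.Agent.Work.MP_f0515e_an.P3.FinE
import Pool.Agent.Work.MP_f0515e_an.P3.Sel2
import Pool.Agent.Work.MP_f0515e_an.P2.QMoi
import Pool.Agent.Work.MP_f0515e_an.P3.Sel3
import Pool.Agent.Work.MP_f0515e_an.P3.TyEx
import Pool.Agent.Work.MP_f0515e_an.P3.Vit

-- merged part: Pool.Agent.Work.MP_f0515e_an.P3.Cubes
section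
/-! Copy `exists_cubes` (Pos/ALeb) with `η k = 1 / 2^(k + k0)`; the centres are `ALeb_o`. -/

open Set Metric Filter Topology Function BEv MeasureTheory
open scoped NNReal ENNReal

noncomputable section
namespace BEp

theorem Cubes_core {m : ℕ} {p : ℝ} (hp : 1 ≤ p) {D : V m → V m →L[ℝ] V m}
    (hD : AEStronglyMeasurable D volume) (hi : ∫⁻ x, ‖D x‖ₑ ^ p ≠ ⊤) {U : Set (V m)}
    (hb : Bornology.IsBounded U) {cc : (V m →L[ℝ] V m) → ℝ≥0∞} (hcc : ∀ B, cc B ≠ ⊤)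
    {e : ℝ≥0∞} (he : e ≠ 0) {η : ℕ → ℝ} (hη : ∀ k, 0 < η k) (hηt : Tendsto η atTop (𝓝 0)) :
    ∃ (k : ℕ) (s : Finset (Ix m → ℤ)) (A : (Ix m → ℤ) → V m →L[ℝ] V m),
      (∀ q, q ∈ s ↔ closedBall (ALeb_o (η k) q) (10 * η k) ⊆ U) ∧
      ∑ q ∈ s, cc (A q) * ∫⁻ y in closedBall (ALeb_o (η k) q) (10 * η k), ‖D y - A q‖ₑ ^ p ≤ e := by
  classical
  have he2 : e / 2 ≠ 0 := ENNReal.div_ne_zero.2 ⟨he, by simp⟩
  obtain ⟨e1, he1, h1⟩ := ENNReal.exists_nnreal_pos_mul_lt (hb.measure_lt_top (μ := volume)).ne he2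
  obtain ⟨e2, he2', h2⟩ := ENNReal.exists_nnreal_pos_mul_lt (hcc 0) he2
  have hηt' : Tendsto η atTop (𝓝[>] 0) := tendsto_nhdsWithin_iff.2 ⟨hηt, Eventually.of_forall hη⟩
  choose s hs using fun k => ALeb_fin hb (hη k)
  have hm : AEMeasurable (fun y => ‖D y‖ₑ ^ p) volume := hD.enorm.pow_const p
  have hF := tendsto_lintegral_of_dominated_convergence' (μ := volume) (f := fun _ => 0)
    (F := fun k x => ∑ q ∈ (s k).filter (fun q => ¬ ALeb_G p D cc e1 (η k) q),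
      (closedBall (ALeb_o (η k) q) (10 * η k)).indicator (fun y => ‖D y‖ₑ ^ p) x)
    (fun x => 11 ^ (2 * m + 1) * ‖D x‖ₑ ^ p)
    (fun k => Finset.aemeasurable_fun_sum _ fun q _ => hm.indicator measurableSet_closedBall)
    (fun k => Eventually.of_forall fun x => ALeb_over (hη k) _ _ x)
    (by
      rw [lintegral_const_mul' _ _ (by simp)]
      exact ENNReal.mul_ne_top (by simp) hi)
    (by
      filter_upwards [ae_leb hp hD hi] with x hx
      refine tendsto_const_nhds.congr' ?_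
      filter_upwards [hηt'.eventually (ALeb_good hcc (ENNReal.coe_ne_zero.2 he1.ne') hx)] with k hk
      refine (Finset.sum_eq_zero fun q hq => indicator_of_notMem (fun c => ?_) _).symm
      exact (Finset.mem_filter.1 hq).2 (hk q c))
  rw [lintegral_zero] at hF
  obtain ⟨k, hk⟩ := (ENNReal.tendsto_nhds_zero.1 hF e2 (by exact_mod_cast he2')).exists
  rw [lintegral_finsetSum' _ fun q _ => hm.indicator measurableSet_closedBall] at hk
  simp only [lintegral_indicator measurableSet_closedBall] at hk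
  have hv := ALeb_vol (hη k) fun q hq => (hs k q).1 hq
  let A : (Ix m → ℤ) → V m →L[ℝ] V m := fun q =>
    if h : ALeb_G p D cc e1 (η k) q then h.choose else 0
  refine ⟨k, s k, A, hs k, ?_⟩
  rw [← Finset.sum_filter_add_sum_filter_not (s k) (ALeb_G p D cc e1 (η k)), ← ENNReal.add_halves e]
  refine add_le_add ?_ ?_
  · refine (Finset.sum_le_card_nsmul _ _ (e1 * ENNReal.ofReal ((2 * η k) ^ (2 * m + 1)))
      fun q hq => ?_).trans ?_
    · have hq' := (Finset.mem_filter.1 hq).2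
      simp only [A, dif_pos hq']
      exact hq'.choose_spec
    · rw [nsmul_eq_mul, mul_left_comm]
      refine le_trans (mul_le_mul_right (le_trans (mul_le_mul_left ?_ _) hv) _) h1.le
      exact_mod_cast Finset.card_filter_le _ _
  · rw [Finset.sum_congr rfl (g := fun q =>
      cc 0 * ∫⁻ y in closedBall (ALeb_o (η k) q) (10 * η k), ‖D y‖ₑ ^ p) fun q hq => by
        simp only [A, dif_neg (Finset.mem_filter.1 hq).2, sub_zero], ← Finset.mul_sum, mul_comm]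
    exact (mul_le_mul_left hk _).trans h2.le

theorem Cubes_one {m : ℕ} {p : ℝ} (hp : 1 ≤ p) {D : V m → V m →L[ℝ] V m}
    (hD : AEStronglyMeasurable D volume) (s : Set (V m)) (B : V m →L[ℝ] V m) :
    ‖B‖ₑ ^ p * volume s ≤ 2 ^ p * ((∫⁻ y in s, ‖D y‖ₑ ^ p) + ∫⁻ y in s, ‖D y - B‖ₑ ^ p) := by
  have hm : AEMeasurable (fun y => ‖D y‖ₑ ^ p) (volume.restrict s) :=
    (hD.enorm.pow_const p).restrict
  rw [← setLIntegral_const, ← lintegral_add_left' hm,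
    ← lintegral_const_mul' _ _ (ENNReal.rpow_ne_top_of_nonneg (zero_le_one.trans hp) (by simp))]
  refine lintegral_mono fun y => ?_
  have h := ALeb_tri hp (0 : V m →L[ℝ] V m) (D y) B
  rw [zero_sub, zero_sub, enorm_neg, enorm_neg, enorm_sub_rev] at h
  refine h.trans (mul_le_mul_left ?_ _)
  exact ENNReal.rpow_le_rpow_of_exponent_le (by norm_num) (by linarith)

theorem Cubes_sum {m : ℕ} {p : ℝ} (hp : 1 ≤ p) {D : V m → V m →L[ℝ] V m}
    (hD : AEStronglyMeasurable D volume) {U : Set (V m)} {η : ℝ} (hη : 0 < η)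
    {s : Finset (Ix m → ℤ)} (hs : ∀ q ∈ s, closedBall (ALeb_o η q) (10 * η) ⊆ U)
    (A : (Ix m → ℤ) → V m →L[ℝ] V m) :
    ∑ q ∈ s, (1 + ‖A q‖ₑ ^ p) * ENNReal.ofReal (η ^ (2 * m + 1)) ≤ volume U +
      2 ^ p * ((∫⁻ x, ‖D x‖ₑ ^ p) + ∑ q ∈ s, ∫⁻ y in closedBall (ALeb_o η q) η, ‖D y - A q‖ₑ ^ p) := by
  have h0 : ENNReal.ofReal (η ^ (2 * m + 1)) ≤ ENNReal.ofReal ((2 * η) ^ (2 * m + 1)) :=
    ENNReal.ofReal_le_ofReal (pow_le_pow_left₀ hη.le (by linarith) _)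
  simp only [add_mul, one_mul]
  rw [Finset.sum_add_distrib, Finset.sum_const, nsmul_eq_mul]
  refine add_le_add ((mul_le_mul_right h0 _).trans (ALeb_vol hη hs)) ?_
  have h1 : ∑ q ∈ s, ∫⁻ y in ball (ALeb_o η q) η, ‖D y‖ₑ ^ p ≤ ∫⁻ x, ‖D x‖ₑ ^ p := by
    rw [← lintegral_biUnion_finset (fun q _ q' _ h => ball_disjoint_ball (by
      rw [dist_eq_norm, ← two_mul]
      exact ALeb_sep hη h)) fun _ _ => measurableSet_ball]
    exact setLIntegral_le_lintegral _ _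
  refine le_trans ?_ (mul_le_mul_right (add_le_add_left h1 _) _)
  rw [← Finset.sum_add_distrib, Finset.mul_sum]
  refine Finset.sum_le_sum fun q _ => ?_
  refine le_trans (mul_le_mul_right ?_ _) ((Cubes_one hp hD (ball (ALeb_o η q) η) (A q)).trans
    (mul_le_mul_right (add_le_add_right (lintegral_mono_set ball_subset_closedBall) _) _))
  rw [Real.volume_pi_ball _ hη, Fintype.card_fin]
  exact h0

theorem exists_cubes2 {p : ℝ} (hp : 1 ≤ p) {D : Rn 3 → Rn 3 →L[ℝ] Rn 3}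
    (hD : AEStronglyMeasurable D volume) (hi : ∫⁻ x, ‖D x‖ₑ ^ p ≠ ⊤) {K U : Set (Rn 3)}
    (hK : IsCompact K) (hU : IsOpen U) (hb : Bornology.IsBounded U) (hKU : K ⊆ U)
    {cc : (Rn 3 →L[ℝ] Rn 3) → ℝ≥0∞} (hcc : ∀ B, cc B ≠ ⊤) {e : ℝ≥0∞} (he : e ≠ 0) {η0 : ℝ}
    (h0 : 0 < η0) :
    ∃ (ι : Type) (_ : Fintype ι) (o : ι → Rn 3) (Aq : ι → Rn 3 →L[ℝ] Rn 3) (n : ℕ) (η : ℝ),
      η = 1 / 2 ^ n ∧ η ≤ η0 ∧ (∀ q i, ∃ k : ℤ, o q i = k * η) ∧
      (∀ q q', q ≠ q' → 2 * η ≤ ‖o q - o q'‖) ∧ (∀ q, closedBall (o q) (10 * η) ⊆ U) ∧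
      (∀ x ∈ K, ∀ t : Rn 3, ‖t‖ ≤ η → ∃ q, x - t ∈ closedBall (o q) η) ∧
      ∑ q, cc (Aq q) * ∫⁻ y in closedBall (o q) (10 * η), ‖D y - Aq q‖ₑ ^ p ≤ e ∧
      ∑ q, (1 + ‖Aq q‖ₑ ^ p) * ENNReal.ofReal (η ^ 3) ≤ volume U +
        2 ^ p * ((∫⁻ x, ‖D x‖ₑ ^ p) + ∑ q, ∫⁻ y in closedBall (o q) η, ‖D y - Aq q‖ₑ ^ p) := by
  classical
  obtain ⟨δ, hδ, hδU⟩ := hK.exists_cthickening_subset_open hU hKU
  have a0 : 0 < min η0 (δ / 12) := lt_min h0 (by linarith)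
  obtain ⟨k0, hk0⟩ := exists_pow_lt_of_lt_one a0 (by norm_num : (1 / 2 : ℝ) < 1)
  let η : ℕ → ℝ := fun k => (1 / 2) ^ (k + k0)
  have hη : ∀ k, 0 < η k := fun k => by positivity
  have hη1 : ∀ k, η k ≤ min η0 (δ / 12) := fun k =>
    (pow_le_pow_of_le_one (by norm_num) (by norm_num) (Nat.le_add_left _ _)).trans hk0.le
  have hηt : Tendsto η atTop (𝓝 0) :=
    (tendsto_pow_atTop_nhds_zero_of_lt_one (by norm_num) (by norm_num)).comp
      (tendsto_add_atTop_nat k0)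
  obtain ⟨k, s, A, hs, hA⟩ := Cubes_core (m := 1) hp hD hi hb hcc he hη hηt
  have hS := Cubes_sum (m := 1) hp hD (hη k) (fun q hq => (hs q).1 hq) A
  refine ⟨s, inferInstance, fun q => ALeb_o (m := 1) (η k) q, fun q => A q, k + k0, η k,
    by simp [η], (hη1 k).trans (min_le_left _ _), fun q i => ⟨2 * q.1 i, ?_⟩,
    fun q q' h => ALeb_sep (m := 1) (hη k) fun c => h (Subtype.ext c),
    fun q => (hs q).1 q.2, fun x hx t ht => ?_, ?_, ?_⟩
  · simp only [ALeb_o]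
    push_cast
    ring
  · obtain ⟨q, hq⟩ := ALeb_cov (m := 1) (hη k) (x - t)
    refine ⟨⟨q, (hs q).2 (((closedBall_subset_closedBall' ?_).trans
      (closedBall_subset_cthickening hx δ)).trans hδU)⟩, hq⟩
    have a1 := dist_triangle (ALeb_o (m := 1) (η k) q) (x - t) x
    have a2 : dist (x - t) x = ‖t‖ := by rw [dist_eq_norm, sub_sub_cancel_left, norm_neg]
    linarith [mem_closedBall'.1 hq, (hη1 k).trans (min_le_right _ _)]
  · exact (Finset.sum_coe_sort s fun q =>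
      cc (A q) * ∫⁻ y in closedBall (ALeb_o (m := 1) (η k) q) (10 * η k),
        ‖D y - A q‖ₑ ^ p).trans_le hA
  · rw [← Finset.sum_coe_sort s, ← Finset.sum_coe_sort s] at hS
    exact hS

end BEp
end
end

-- merged part: Pool.Agent.Work.MP_f0515e_an.P3.DMain
section
/-! Approximation on an arbitrary open set from the theorem on the two skeleton. -/

open Set Metric Filter Topology Function BEv MeasureTheory
open scoped NNReal ENNReal

noncomputable section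
namespace BEp

theorem sel_all {p : ℝ} (hp : 2 < p) (T : Ty) (hn : T.I.Nonempty) : ∃ Cs : ℝ≥0∞, Cs ≠ ⊤ ∧
    ∀ (C : Cu) (aK : ℝ) (Ω : Set (Rn 3)) (K : Kx Ω) (ch : Set (Rn 3) → Ch) (w : Set (Rn 3) → ℝ),
      C.toTy = T → C.Ok aK → C.Fit aK K ch w → C.SelP p Cs K := by
  have h1 := hn.card_pos
  have h2 : T.I.card ≤ 3 := by simpa using T.I.card_le_univ
  obtain h | h | h : T.I.card = 1 ∨ T.I.card = 2 ∨ T.I.card = 3 := by omega
  exacts [sel_rk1 hp T h, sel_rk2 hp T h, sel_rk3 hp T h]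

theorem DMain_g {M e : ℝ≥0∞} (hM : M ≠ ⊤) (he : e ≠ 0) :
    ∃ g : ℝ, 0 < g ∧ g ≤ 1 / 8 ∧ ENNReal.ofReal g * M ≤ e := by
  obtain ⟨n, h0, h⟩ := ENNReal.exists_nnreal_pos_mul_lt hM he
  refine ⟨min n (1 / 8), lt_min (by exact_mod_cast h0) (by norm_num), min_le_right _ _,
    le_trans (mul_le_mul_left ?_ _) h.le⟩
  exact (ENNReal.ofReal_le_ofReal (min_le_left _ _)).trans_eq ENNReal.ofReal_coe_nnreal

theorem main_en2 {p : ℝ≥0∞} (hp2 : 2 < p) (hp3 : p < 3) (hS : Surf2 p.toReal) {Ω : Set (Rn 3)}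
    (hΩ : IsOpen Ω) {f : Rn 3 → Rn 3} {D : Rn 3 → Rn 3 →L[ℝ] Rn 3} (hf : ContinuousOn f Ω)
    (hi : InjOn f Ω) (hW : MemW1p p Ω f D) (hD : Measurable D)
    (hDi : ∫⁻ x in Ω, ‖D x‖ₑ ^ p.toReal ≠ ⊤) {ε : ℝ≥0∞} (hε : ε ≠ 0) :
    ∃ G, LTP Ω G ∧ InjOn G Ω ∧ ∫⁻ x in Ω, en p.toReal G f D x ≤ ε := by
  have hp : p ≠ ⊤ := hp3.ne_top
  have hp1 : 1 ≤ p := le_trans one_le_two hp2.le
  have q2 : 2 < p.toReal := by simpa using ENNReal.toReal_strict_mono hp hp2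
  have q3 : p.toReal < 3 := by simpa using ENNReal.toReal_strict_mono (by simp) hp3
  obtain ⟨v, v1, v2, v3⟩ := exists_ug hp1 hp hΩ hf hW hD
  generalize p.toReal = q at *
  have q1 : 1 ≤ q := by linarith
  have q0 : 0 < q := by linarith
  obtain ⟨C1, Cf, Cg, c1, c2, c3, hsurf⟩ := hS
  obtain ⟨Ck, hCk, hkap⟩ := kap_final (n := 3) q1
  obtain ⟨Cd, hCd, hdet⟩ := det_main q1 q3
  obtain ⟨C0, hC0, hx⟩ := loc_x q1 q3
  obtain ⟨Co, hCo, hav⟩ := av_main q0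
  have h2q : (2 : ℝ≥0∞) ^ q ≠ ⊤ := ENNReal.rpow_ne_top_of_nonneg q0.le (by simp)
  have h4q : (4 : ℝ≥0∞) ^ q ≠ ⊤ := ENNReal.rpow_ne_top_of_nonneg q0.le (by simp)
  have hCq : ENNReal.ofReal C1 ^ q ≠ ⊤ := ENNReal.rpow_ne_top_of_nonneg q0.le (by simp)
  obtain ⟨e, he, he', hfin⟩ := ACo_small (c := Ck * (4 ^ q * (3 + Cd * (2 +
    (C0 * ENNReal.ofReal C1 ^ 3 + 1) + Co * ENNReal.ofReal C1 ^ q)) + 1)) (by finiteness) hε
  obtain ⟨d, hd⟩ := exists_lev hΩ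
  obtain ⟨r, hr, hr'⟩ := exists_r hd hDi he
  obtain ⟨ε0, e1, e2⟩ := exists_eps hd q0 he
  have e3 : MP fun s => ε0 s / 18 :=
    ⟨fun a b h => by have := e1.1 h; dsimp only; linarith, fun s h => by have := e1.2 s h; positivity⟩
  obtain ⟨σ, hσ, hσ'⟩ := exists_tol_kap hd hf e3
  obtain ⟨σ', s1, s2⟩ := mp_cont hσ
  obtain ⟨θ, t1, t2, t3⟩ := exists_theta hd hf hi (ε := fun s => ε0 (s / 3) / 18)
    ⟨fun a b h => e3.1 (by linarith : a / 3 ≤ b / 3), fun s h => e3.2 _ (by positivity)⟩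
  have hsub : ∀ {a : ℝ}, 0 < a → {x | a ≤ d x} ⊆ Ω := fun h x hx => (hd.pos x).1 (h.trans_le hx)
  have hU : {x | r < d x} ⊆ {x | r ≤ d x} := fun x hx => le_of_lt (α := ℝ) hx
  have hUb : Bornology.IsBounded {x | r < d x} := (hd.cpt r hr).isBounded.subset hU
  have hI : ∫⁻ x, ‖indicator Ω D x‖ₑ ^ q = ∫⁻ x in Ω, ‖D x‖ₑ ^ q := by
    rw [← lintegral_indicator hΩ.measurableSet]
    refine lintegral_congr fun x => ?_
    by_cases h : x ∈ Ω
    · simp only [indicator_of_mem h]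
    · rw [indicator_of_notMem h, indicator_of_notMem h, ← ofReal_norm, norm_zero,
        ENNReal.ofReal_zero, ENNReal.zero_rpow_of_pos q0]
  have hv := (hUb.measure_lt_top (μ := volume)).ne
  obtain ⟨g, g0, g1, g2⟩ := DMain_g (M := volume {x | r < d x} +
    2 ^ q * ((∫⁻ x in Ω, ‖D x‖ₑ ^ q) + e)) (by finiteness) he
  have hb : 1 ≤ g * (⌈1 / g⌉₊ : ℕ) := by
    have := mul_le_mul_of_nonneg_left (Nat.le_ceil (1 / g)) g0.le
    rwa [mul_one_div_cancel g0.ne'] at this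
  generalize ⌈1 / g⌉₊ = b at hb
  obtain ⟨aK, hK⟩ := exists_shK b
  choose T T1 T2 T3 T4 using exists_ty g0 g1 hb (fun A => c1.trans (c2 A)) (c3 g)
  choose Cs Cs1 Cs2 using fun A => sel_all q2 (T A) (T2 A).ne
  choose Cx Cx1 Cx2 using fun A => hx (T A) aK
  obtain ⟨ι, _, o, A, n, η, rfl, η1, o1, o2, o3, o4, o5, o6⟩ := exists_cubes2 q1
    (hD.indicator hΩ.measurableSet).aestronglyMeasurable (hI ▸ hDi) (hd.cpt (2 * r) (by linarith))
    (isOpen_lt continuous_const hd.continuous) hUb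
    (fun x hx => lt_of_lt_of_le (b := 2 * r) (by linarith) hx)
    (cc := fun B => Cx B + (C0 * ENNReal.ofReal (T B).cf ^ 3 + 1) * ‖B‖ₑ ^ q * Cs B + 1)
    (fun B => by
      have := Cs1 B
      have := Cx1 B
      have : ‖B‖ₑ ^ q ≠ ⊤ := ENNReal.rpow_ne_top_of_nonneg q0.le enorm_ne_top
      finiteness) he (η0 := r / 1024) (by positivity)
  have η0 : (0 : ℝ) < 1 / 2 ^ n := by positivity
  have hη : 1024 * (1 / 2 ^ n) ≤ r := by linarith
  have hδ : ContinuousOn (fun x => min (1 / 2 ^ n * aa d r x) (min (σ' (d x / 2) / 2) (d x / 4)))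
      Ω := (continuous_const.mul (LKap_cont hd r)).continuousOn.inf
    (((s1.comp (hd.continuous.div_const 2).continuousOn fun x hx =>
      half_pos ((hd.pos x).2 hx)).div_const 2).inf (hd.continuous.div_const 4).continuousOn)
  have hδ0 : ∀ x ∈ Ω, 0 < min (1 / 2 ^ n * aa d r x) (min (σ' (d x / 2) / 2) (d x / 4)) :=
    fun x hx => by
      have := (hd.pos x).2 hx
      exact lt_min (mul_pos η0 ((aa_pos hd hr).2 hx))
        (lt_min (half_pos (s2 _ (half_pos this)).1) (by positivity))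
  obtain ⟨n1, hfit⟩ := exists_gfit hΩ hδ hδ0 (hd.cpt r hr) (hsub hr)
  obtain ⟨c, c0, hc⟩ := (hd.cpt r hr).exists_forall_le' (hδ.mono (hsub hr))
    fun x hx => hδ0 x (hsub hr hx)
  obtain ⟨n0, ρ', a1, a2, a3, a4, a5⟩ := exists_prm (fun i => T (A i)) o n n1 (fun i => T2 _) hK.1
    o1 (c := min c (min (1 / 2 ^ n) (min (σ r) (r / 4))))
    (lt_min c0 (lt_min η0 (lt_min (hσ.2 r hr) (by positivity))))
  obtain ⟨μ, m0, m1⟩ := t3 _ (hd.cpt _ (half_pos hr)) (hsub (half_pos hr)) ρ' a3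
  obtain ⟨ns, a6⟩ := a5 μ m0
  simp only [lt_min_iff, le_min_iff] at a2 a4
  set P : Pr := ⟨g, b, n, n0, ns, ρ'⟩
  set C : ι → Cu := fun i => ⟨T (A i), P, o i⟩
  have hq : ∀ i, closedBall (o i) (2 * (1 / 2 ^ n)) ⊆ closedBall (o i) (10 * (1 / 2 ^ n)) :=
    fun i => closedBall_subset_closedBall (by linarith)
  have hq1 : ∀ i, (C i).q ⊆ closedBall (o i) (2 * (1 / 2 ^ n)) :=
    fun i => closedBall_subset_closedBall (show (1 / 2 ^ n : ℝ) ≤ _ by linarith)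
  have hqr : ∀ i, ∀ x ∈ (C i).q, r ≤ d x := fun i x h => hU (o3 i (hq i (hq1 i h)))
  obtain ⟨K, ch, w, lam, hF, hsm⟩ := hfit ι C P aK hK a1 (fun _ => rfl) (fun i => (a6 i).1)
    (fun i j h => ball_disjoint_closedBall (by
      rw [dist_eq_norm]
      exact le_trans (show (1 / 2 ^ n + 1 / 2 ^ n : ℝ) ≤ _ by linarith) (o2 i j h))) hqr
    fun x h => a2.1.trans_le (hc x h)
  have hcov : ∀ x, 2 * r ≤ d x → ∃ i, x ∈ (C i).q := fun x h => by
    have := o4 x h 0 (by simpa using η0.le)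
    rwa [sub_zero] at this
  obtain ⟨t, ht, hR, kp, hg, hX⟩ := hav ι C P aK Ω K ch w lam d r C1 f D v C0 (fun i => Cs (A i))
    (fun i => Cx (A i)) hF hd hr hη
    (fun x h => (hsm x h).trans (ball_subset_ball (min_le_left _ _))) hqr hcov hf hD v1 v2 hDi v3
    hC0 (fun i => ⟨Cs1 _, Cx1 _⟩) (fun i => Cs2 _ _ _ _ _ _ _ rfl (hF.ok i) (hF.fit i))
    fun i => Cx2 _ _ _ _ _ _ _ rfl (hF.ok i) (hF.fit i) c1 ((c2 _).trans (T3 _).ge)
  obtain ⟨hM, him⟩ := mu_kap hd hr hη ht hf hi hF.ok hqr (fun _ => rfl) a4.2.1 m1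
    fun i => (a6 i).2
  obtain ⟨G, hG⟩ := hdet ι C P aK Ω K ch w lam _ _ _ θ kp C1 μ μ Cf (Cg g) e hF hM hR hg
    (him ▸ t1) ⟨c1, fun i => ⟨T3 _, T4 _, (c2 _).trans (T3 _).ge⟩⟩ (hsurf g g0 g1) he
  obtain ⟨F, F1, F2, F3⟩ := fin_en q1 hF hR.mD he hG (φ := fun z => ε0 (d z)) (fun z hz x h k => by
    have := sup_kap hd hr hη ht hσ e3 (fun x h => (hsm x h).trans (ball_subset_ball
      ((min_le_right _ _).trans (min_le_min (by
        linarith [(s2 _ (half_pos ((hd.pos x).2 h))).2]) le_rfl)))) (hσ' r _ t hr hη ht) t2 hG.sup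
      hz h (k.imp_right fun ⟨⟨i, k1⟩, k2⟩ =>
        ⟨hqr i z k1, le_min (k2.trans a2.2.2.1.le) (k2.trans a2.2.2.2.le)⟩)
    exact this.trans_eq (by ring)) (e1.1.measurable.comp hd.continuous.measurable)
  have hκ := kap_llh hd hr hη ht
  have hinv := hκ.inv hΩ
  have hQr : ∀ z ∈ ⋃ i, (C i).q, r ≤ d z := fun z h => let ⟨i, h⟩ := mem_iUnion.1 h; hqr i z h
  have hcor : ∀ x, r ≤ d x → kap d r t x = x + t := fun x hx => kap_core hr (by linarith)
  rw [indicator_congr (g := fun z => D (z + t)) fun z h => by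
    rw [comp_apply, hcor z (hQr z h)]] at F3
  refine ⟨F ∘ invFunOn (kap d r t) Ω, F1.comp hinv.ltp hinv.1.mapsTo,
    F2.comp hinv.1.injOn hinv.1.mapsTo, (hkap Ω _ d r _ t F f D hd hr hη ht
      (MeasurableSet.iUnion fun i => measurableSet_closedBall) hQr F1 hf hD).trans
      (le_trans ?_ hfin)⟩
  have b1 : ∫⁻ x in Ω \ kap d r t '' ⋃ i, (C i).q, ‖D x‖ₑ ^ q ≤ e := by
    refine le_trans (lintegral_mono_set fun x hx => ?_) hr'
    refine ⟨hx.1, not_le.1 fun h => hx.2 ?_⟩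
    obtain ⟨i, h1⟩ := o4 x (show 2 * r ≤ d x by linarith) t ht
    exact ⟨x - t, mem_iUnion.2 ⟨i, h1⟩, by rw [hcor _ (hqr i _ h1), sub_add_cancel]⟩
  have b2 : ∀ i {s : Set (Rn 3)}, MeasurableSet s → s ⊆ closedBall (o i) (10 * (1 / 2 ^ n)) →
      ∫⁻ y in s, ‖indicator Ω D y - A i‖ₑ ^ q = ∫⁻ y in s, ‖D y - A i‖ₑ ^ q := fun i s h1 h2 =>
    setLIntegral_congr_fun h1 fun y hy => by rw [indicator_of_mem (hsub hr (hU (o3 i (h2 hy))))]
  simp only [fun i => b2 i measurableSet_closedBall Subset.rfl] at o5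
  have b3 : ∑ i, ∫⁻ y in closedBall (o i) (2 * (1 / 2 ^ n)), ‖D y - A i‖ₑ ^ q ≤ e :=
    le_trans (Finset.sum_le_sum fun i _ => (lintegral_mono_set (hq i)).trans
      (le_mul_of_one_le_left' le_add_self)) o5
  have b4 : ∑ i, (C i).rem q ≤ e := by
    refine le_trans ?_ g2
    rw [hI] at o6
    refine le_trans (le_of_eq ?_) (mul_le_mul_right (o6.trans ?_) _)
    · rw [Finset.mul_sum]
      refine Finset.sum_congr rfl fun i _ => ?_
      rw [Cu.rem, mul_left_comm, ← ENNReal.ofReal_mul g0.le, T1]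
      rfl
    · gcongr
      refine le_trans (Finset.sum_le_sum fun i _ => ?_) b3
      exact (b2 i measurableSet_closedBall ((hq1 i).trans (hq i))).trans_le
        (lintegral_mono_set (hq1 i))
  have b5 : ∑ i, ∫⁻ z in (C i).q, ‖(D ∘ kap d r t) z - (C i).A‖ₑ ^ q ≤ e := by
    refine le_trans (Finset.sum_le_sum fun i _ => ?_) b3
    refine (setLIntegral_congr_fun (s := closedBall (o i) (1 / 2 ^ n)) measurableSet_closedBall
      (g := fun z => ‖D (z + t) - A i‖ₑ ^ q) fun z h => by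
        simp only [comp_apply, hcor z (hqr i z h)]
        rw [T1]).trans_le ?_
    rw [← lintegral_indicator measurableSet_closedBall,
      ← lintegral_indicator measurableSet_closedBall,
      ← lintegral_add_right_eq_self (μ := volume) (indicator _ fun y => ‖D y - A i‖ₑ ^ q) t]
    refine lintegral_mono fun z => ?_
    by_cases h : z ∈ closedBall (o i) (1 / 2 ^ n)
    · have : z + t ∈ closedBall (o i) (2 * (1 / 2 ^ n)) := by
        rw [mem_closedBall_iff_norm] at h ⊢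
        linarith [norm_add_le (z - o i) t, show ‖t‖ ≤ 1 / 2 ^ n from ht,
          show ‖z + t - o i‖ = ‖z - o i + t‖ by rw [add_sub_right_comm]]
      rw [indicator_of_mem h, indicator_of_mem this]
    · exact (indicator_of_notMem h _).trans_le zero_le
  have b6 := hX.trans (add_le_add (add_le_add (le_trans (Finset.sum_le_sum fun i _ =>
    mul_le_mul' (by rw [T1]; exact le_self_add) (by rw [T1]; exact lintegral_mono_set (hq i))) o5)
    (mul_le_mul_right b4 _)) (mul_le_mul_right hr' _))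
  calc _ ≤ Ck * (4 ^ q * (e + e + Cd * (e + (C0 * ENNReal.ofReal C1 ^ 3 + 1) * e +
        Co * ENNReal.ofReal C1 ^ q * e + e) + e) + e) := by
        refine mul_le_mul_right (add_le_add (F3.trans ?_) b1) _
        gcongr
    _ = _ := by ring

theorem ltp3_high {p : ℝ≥0∞} (hp2 : 2 < p) (hp3 : p < 3) (hS : Surf2 p.toReal) {Ω : Set (Rn 3)}
    (hΩ : IsOpen Ω) {f : Rn 3 → Rn 3} {D : Rn 3 → Rn 3 →L[ℝ] Rn 3}
    (hf : IsEmbedding fun x : Ω => f x) (hW : MemW1p p Ω f D) :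
    ∃ D', Measurable D' ∧ D' =ᵐ[volume.restrict Ω] D ∧ ∀ ε : ℝ≥0∞, ε ≠ 0 →
      ∃ G, LTP Ω G ∧ InjOn G Ω ∧ ∫⁻ x in Ω, en p.toReal G f D' x ≤ ε := by
  obtain ⟨D', h1, h2, h3, h4⟩ := exists_meas_rep (le_trans one_le_two hp2.le) hp3.ne_top hΩ hW
  exact ⟨D', h1, h2, fun ε hε => main_en2 hp2 hp3 hS hΩ
    (continuousOn_iff_continuous_domRestrict.2 hf.continuous)
    (fun x hx y hy h => congrArg Subtype.val (hf.injective (a₁ := ⟨x, hx⟩) (a₂ := ⟨y, hy⟩) h))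
    h3 h1 h4 hε⟩

end BEp
end
end
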