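import Pool.Agent.Work.MP_f0515e_an.P3.SCtx
import Pool.Agent.Work.MP_f0515e_an.D3.KA4
import Pool.Agent.Work.MP_f0515e_an.D3.NLn
import Pool.Agent.Work.MP_f0515e_an.D3.GAlt
import Pool.Agent.Work.MP_f0515e_an.P3.SVr
import Pool.Agent.Work.MP_f0515e_an.P3.Sel3

-- merged part: Pool.Agent.Work.MP_f0515e_an.P3.SPc
section
/-! Pieces: elementary geometry.
Plan.  `clamp`: `x' i = c i + max (-a) (min a (x i - c i))`.  For a solid `I = univ` (`Finset.card_eq_iff_eq_univ`), `Q a = closedBall c a`, `In = ball c ρ`, `Bx = Bd = sphere c ρ` (`ρ > 0`; the sup norm is attained).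
`nr_out`, `nr_in`: for pieces which are not solids `Bx = Q ρx` and `In = ∅`; for a solid put `x' = aff⁻¹ y`, one of `x`, `x'` is in the closed ball, the other is not in the open ball, so (`intermediate_value_Icc` for `t ↦ ‖x + t (x' - x) - c‖`)
a point `x''` of the segment is on the sphere, and `y - aff x'' = (1 - t) (y - aff x)`. -/

open Set Metric Filter Topology Function BEv MeasureTheory
open scoped NNReal ENNReal

noncomputable section
namespace BEp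

namespace Pc
variable {P : Pc} {a b : ℝ} {x y : Rn 3}

theorem l0 (P : Pc) : 0 < P.l := by
  unfold l
  positivity

theorem aff_sub (P : Pc) (x y : Rn 3) : P.aff x - P.aff y = P.A (x - y) := by
  simp only [aff, map_sub]
  abel

theorem aff_le (P : Pc) (x y : Rn 3) :
    ‖P.aff x - P.aff y‖ ≤ ‖(P.A : Rn 3 →L[ℝ] Rn 3)‖ * ‖x - y‖ := by
  rw [aff_sub]
  exact (P.A : Rn 3 →L[ℝ] Rn 3).le_opNorm (x - y)

theorem aff_bij (P : Pc) : Bijective P.aff := by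
  refine ⟨fun x y h => ?_, fun y => ⟨P.A.symm (y - P.y) + P.c, by simp [aff]⟩⟩
  have k := P.aff_sub x y
  rw [h, sub_self] at k
  exact sub_eq_zero.1 (P.A.injective (k.symm.trans (map_zero P.A).symm))

theorem aff_cont (P : Pc) : Continuous P.aff := by
  unfold aff
  fun_prop

theorem Q_mono (h : a ≤ b) : P.Q a ⊆ P.Q b := by
  exact fun x hx => ⟨hx.1, fun i hi => (hx.2 i hi).trans h⟩

theorem Q_cpt (P : Pc) (a : ℝ) : IsCompact (P.Q a) := by
  have e : P.Q a = Set.pi univ fun i => if i ∈ P.I then closedBall (P.c i) a else {P.c i} := by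
    ext x
    simp only [Q, mem_ofPred_eq, Set.mem_pi, mem_univ, true_imp_iff]
    refine ⟨fun h i => ?_, fun h => ⟨fun i hi => ?_, fun i hi => ?_⟩⟩
    · split_ifs with q
      · exact h.2 i q
      · exact h.1 i q
    · have := h i
      rwa [if_neg hi] at this
    · have := h i
      rwa [if_pos hi] at this
  rw [e]
  refine isCompact_univ_pi fun i => ?_
  split_ifs
  · exact isCompact_closedBall _ _
  · exact isCompact_singleton

theorem Q_cvx (P : Pc) (a : ℝ) : Convex ℝ (P.Q a) := by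
  intro x hx y hy s t hs ht e
  refine ⟨fun i hi => ?_, fun i hi => ?_⟩
  · simp only [Pi.add_apply, Pi.smul_apply, smul_eq_mul, hx.1 i hi, hy.1 i hi]
    rw [← add_mul, e, one_mul]
  · exact convex_closedBall (P.c i) a (hx.2 i hi) (hy.2 i hi) hs ht e

theorem clamp (ha : 0 ≤ a) (hb : 0 ≤ b) (h : x ∈ P.Q (a + b)) : ∃ x' ∈ P.Q a, ‖x - x'‖ ≤ b := by
  refine ⟨fun i => P.c i + max (-a) (min a (x i - P.c i)), ⟨fun i hi => ?_, fun i _ => ?_⟩, ?_⟩
  · simp only [h.1 i hi, sub_self]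
    rw [min_eq_right ha, max_eq_right (by linarith), add_zero]
  · simp only [add_sub_cancel_left]
    exact abs_le.2 ⟨le_max_left _ _, max_le (by linarith) (min_le_left _ _)⟩
  · refine (pi_norm_le_iff_of_nonneg hb).2 fun i => ?_
    have k : |x i - P.c i| ≤ a + b := by
      by_cases q : i ∈ P.I
      · exact h.2 i q
      · rw [h.1 i q, sub_self, abs_zero]
        linarith
    obtain ⟨k1, k2⟩ := abs_le.1 k
    simp only [Pi.sub_apply, Real.norm_eq_abs]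
    rcases le_total a (x i - P.c i) with q | q
    · rw [min_eq_left q, max_eq_right (by linarith)]
      exact abs_le.2 ⟨by linarith, by linarith⟩
    · rw [min_eq_right q]
      rcases le_total (-a) (x i - P.c i) with r | r
      · rw [max_eq_right r]
        exact abs_le.2 ⟨by linarith, by linarith⟩
      · rw [max_eq_left r]
        exact abs_le.2 ⟨by linarith, by linarith⟩

theorem ρ_le (P : Pc) : P.ρ ≤ P.ρx := by
  unfold ρx
  split_ifs
  · linarith only [P.l0]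
  · exact le_rfl

theorem ρx_eq (h : P.I.card ≠ 2) : P.ρx = P.ρ := by
  exact if_neg h

theorem card_le (P : Pc) : P.I.card ≤ 3 := by
  simpa using P.I.card_le_univ

theorem Ok.l_le (h : P.Ok) : P.l ≤ P.ρ := by
  obtain ⟨k, k0, e⟩ := h.rho
  have : (1 : ℝ) ≤ k := by exact_mod_cast k0
  rw [e]
  exact le_mul_of_one_le_left P.l0.le this

theorem Ok.card (h : P.Ok) : (∃ j, P.I = {j}) ∨ 2 ≤ P.I.card := by
  have := h.ne.card_pos
  by_cases q : P.I.card = 1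
  · exact Or.inl (Finset.card_eq_one.1 q)
  · exact Or.inr (by omega)

theorem In_card (h : x ∈ P.In) : P.I.card = 3 := by
  by_contra q
  exact h.2 ⟨h.1, fun k => absurd k q⟩

theorem In_sub (P : Pc) : P.In ⊆ P.Q P.ρ := by
  exact sdiff_subset

theorem SPc_univ (h : P.I.card = 3) (i : Fin 3) : i ∈ P.I := by
  rw [(Finset.card_eq_iff_eq_univ P.I).1 (by simpa using h)]
  exact Finset.mem_univ i

theorem In_eq (h : P.I.card = 3) : P.In = {x | ∀ i, |x i - P.c i| < P.ρ} := by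
  ext x
  refine ⟨fun k i => lt_of_le_of_ne (k.1.2 i (SPc_univ h i)) fun e => k.2 ⟨k.1, fun _ => ⟨i, e⟩⟩,
    fun k => ⟨⟨fun i hi => absurd (SPc_univ h i) hi, fun i _ => (k i).le⟩, fun q => ?_⟩⟩
  obtain ⟨i, e⟩ := q.2 h
  exact (k i).ne e

theorem In_open (P : Pc) : IsOpen P.In := by
  by_cases h : P.I.card = 3
  · rw [In_eq h, ofPred_forall]
    exact isOpen_iInter_of_finite fun i => isOpen_lt (by fun_prop) continuous_const
  · rw [eq_empty_of_forall_notMem fun x (k : x ∈ P.In) => h (In_card k)]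
    exact isOpen_empty

theorem Bx_sub (P : Pc) : P.Bx ⊆ P.Q P.ρx := by
  exact fun x hx => hx.1

theorem mem_Bx (h : x ∈ P.Q P.ρx) (h' : x ∉ P.In) : x ∈ P.Bx := by
  refine ⟨h, fun k => ?_⟩
  rw [ρx_eq (by omega)] at h
  by_contra q
  exact h' ⟨h, fun r => q (r.2 k)⟩

theorem Bx_not (h : x ∈ P.Bx) : x ∉ P.In := by
  intro k
  exact k.2 ⟨k.1, h.2⟩

theorem Nr.mono (h : P.Nr a y) (k : a ≤ b) : P.Nr b y := by
  obtain ⟨x, hx, e⟩ := h
  exact ⟨x, hx, e.trans k⟩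

theorem SPc_seg (hP : P.Ok) (h : P.I.card = 3) (hx : x ∈ P.Q P.ρ) (hy : y ∉ P.In) :
    ∃ t ∈ Icc (0 : ℝ) 1, x + t • (y - x) ∈ P.Bx := by
  have r0 : 0 < P.ρ := P.l0.trans_le hP.l_le
  have c : Continuous fun t : ℝ => ‖x + t • (y - x) - P.c‖ := by fun_prop
  have h0 : ‖x - P.c‖ ≤ P.ρ :=
    (pi_norm_le_iff_of_nonneg r0.le).2 fun i => hx.2 i (SPc_univ h i)
  have h1 : P.ρ ≤ ‖y - P.c‖ := by
    rw [In_eq h] at hy
    exact not_lt.1 fun q => hy fun i => (pi_norm_lt_iff r0).1 q i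
  obtain ⟨t, ht, e⟩ := intermediate_value_Icc zero_le_one c.continuousOn
    (show P.ρ ∈ Icc _ _ from ⟨by simpa using h0, by simpa using h1⟩)
  refine ⟨t, ht, mem_Bx ⟨fun i hi => absurd (SPc_univ h i) hi, fun i _ => ?_⟩ fun q => ?_⟩
  · rw [ρx_eq (by omega), ← e]
    exact norm_le_pi_norm (x + t • (y - x) - P.c) i
  · rw [In_eq h] at q
    exact ((pi_norm_lt_iff r0).2 q : ‖x + t • (y - x) - P.c‖ < P.ρ).ne e

theorem nr_out (hP : P.Ok) (hx : x ∈ P.Q P.ρx) (h : ‖y - P.aff x‖ ≤ a) (hy : y ∉ P.aff '' P.In) :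
    P.Nr a y := by
  by_cases q : P.I.card = 3
  · obtain ⟨w, rfl⟩ := P.aff_bij.2 y
    rw [ρx_eq (by omega)] at hx
    obtain ⟨t, ht, m⟩ := SPc_seg hP q hx (y := w) fun k => hy ⟨w, k, rfl⟩
    refine ⟨_, m, le_trans ?_ h⟩
    have e : w - (x + t • (w - x)) = (1 - t) • (w - x) := by module
    rw [aff_sub, aff_sub, e, map_smul, norm_smul, Real.norm_of_nonneg (by linarith only [ht, ht.2])]
    exact mul_le_of_le_one_left (norm_nonneg _) (by linarith [ht.1])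
  · exact ⟨x, mem_Bx hx fun k => q (In_card k), h⟩

theorem nr_in (hP : P.Ok) (hx : x ∉ P.In) (h : ‖y - P.aff x‖ ≤ a) (hy : y ∈ P.aff '' P.In) :
    P.Nr a y := by
  obtain ⟨w, hw, rfl⟩ := hy
  obtain ⟨t, ht, m⟩ := SPc_seg hP (In_card hw) hw.1 hx
  refine ⟨_, m, le_trans ?_ h⟩
  have e : w - (w + t • (x - w)) = t • (w - x) := by module
  rw [aff_sub, aff_sub, e, map_smul, norm_smul, Real.norm_of_nonneg ht.1]
  exact mul_le_of_le_one_left (norm_nonneg _) ht.2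

theorem Q_one {j : Fin 3} (h : P.I = {j}) (a : ℝ) : P.Q a = P.pt j '' Icc (-a) a := by
  ext x
  refine ⟨fun k => ⟨x j - P.c j, abs_le.1 (k.2 j (by simp [h])), funext fun i => ?_⟩, ?_⟩
  · by_cases q : i = j
    · subst q
      simp [pt]
    · simp [pt, q, k.1 i (by simpa [h] using q)]
  · rintro ⟨t, ht, rfl⟩
    refine ⟨fun i hi => ?_, fun i hi => ?_⟩
    · have q : i ≠ j := by simpa [h] using hi
      simp [pt, q]
    · have q : i = j := by simpa [h] using hi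
      subst q
      simpa [pt] using abs_le.2 ht

theorem Q_seg {j : Fin 3} (h : P.I = {j}) (ha : 0 ≤ a) :
    P.Q a = segment ℝ (P.pt j (-a)) (P.pt j a) := by
  rw [Q_one h, ← segment_eq_Icc (by linarith : -a ≤ a), segment_eq_image', segment_eq_image',
    image_image]
  refine image_congr fun t _ => ?_
  simp only [pt, smul_eq_mul]
  module

theorem box_aff (P : Pc) (r : ℕ) : (P.box r).aff = P.aff := by
  rfl

theorem box_Q {s : ℝ} {r : ℕ} (h : P.ρx = s * (r + 8)) (t : ℝ) :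
    (P.box r).Q s t = P.Q (P.ρx + (t - 8) * s) := by
  have e : s * (r + t) = P.ρx + (t - 8) * s := by
    rw [h]
    ring
  rw [← e]
  rfl

end Pc

section
variable {ι : Type} {V : Set (Rn 3)} {θ : Rn 3 → ℝ} {Cf CT : (Rn 3 ≃L[ℝ] Rn 3) → ℝ} {P : ι → Pc}

theorem PcIn.mono (h : PcIn V θ Cf P) (k : ∀ A, CT A ≤ Cf A) : PcIn V θ CT P := by
  have m : ∀ b, CT (P b).A * (P b).l ≤ Cf (P b).A * (P b).l := fun b =>
    mul_le_mul_of_nonneg_right (k _) (P b).l0.le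
  refine ⟨h.ok, fun b x hx y hy => ?_, fun b b' e x hx x' hx' => ?_⟩
  · obtain ⟨q, r⟩ := h.sub b x hx y (hy.trans (m b))
    exact ⟨q, (m b).trans r⟩
  · linarith [h.sep b b' e x hx x' hx', m b, m b']

/-- A point is close to at most one piece. -/
theorem PcIn.uniq (h : PcIn V θ Cf P) {b b' : ι} {x x' y : Rn 3} (hx : x ∈ (P b).Q (P b).ρx)
    (hx' : x' ∈ (P b').Q (P b').ρx) (k : ‖y - (P b).aff x‖ ≤ Cf (P b).A * (P b).l)
    (k' : ‖y - (P b').aff x'‖ ≤ Cf (P b').A * (P b').l) : b = b' := by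
  by_contra e
  have s := h.sep b b' e x hx x' hx'
  have t := norm_sub_le_norm_sub_add_norm_sub ((P b).aff x) y ((P b').aff x')
  rw [norm_sub_rev ((P b).aff x) y] at t
  linarith

/-- The blow up is the identity near the pieces. -/
theorem Blow.fix' {T : TS} {g : ℝ} {ζ : Rn 3} {Y : Set (Rn 3)} {B : Rn 3 → Rn 3}
    (h : Blow V T g CT P ζ Y B) {b : ι} (hP : (P b).Ok) {x y : Rn 3} (hx : x ∈ (P b).Q (P b).ρx)
    (k : ‖y - (P b).aff x‖ ≤ g * (P b).l / CT (P b).A) : B y = y := by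
  refine h.fix b y ?_
  by_cases q : y ∈ (P b).aff '' (P b).In
  · exact Or.inr (image_mono ((P b).In_sub.trans (Pc.Q_mono (P b).ρ_le)) q)
  · exact Or.inl (Pc.nr_out hP hx k q)

theorem Scl.lb {s : Rn 3 → ℝ} {L : ℝ} (h : Scl V s L) (hL : 0 < L) : IsOpen V ∧ LB V s := by
  refine ⟨Metric.isOpen_iff.2 fun y hy => ⟨_, mul_pos hL (h.pos y hy), h.sub y hy⟩,
    fun y hy => ⟨s y / 2, half_pos (h.pos y hy), ?_⟩⟩
  filter_upwards [ball_mem_nhds y (mul_pos hL (half_pos (h.pos y hy)))] with z hz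
  have k := (h.lip z y).trans_lt (mem_ball_iff_norm.1 hz)
  have k' := abs_lt.1 (lt_of_mul_lt_mul_left k hL.le)
  linarith only [k', k'.1]

end

end BEp
end
end

-- merged part: Pool.Agent.Work.MP_f0515e_an.P3.SFace
section
-- merged part: Pool.Agent.Work.MP_f0515e_an.P3.SCh
section
/-! Charts of faces: elementary facts.
Plan.  `φ` is an injective affine map between spaces of finite dimension, hence a closed embedding (`LinearMap.isClosedEmbedding_of_injective`); `IsClosedEmbedding.closure_image_eq`.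
`dm_image`: `vectorSpan (φ '' S) = (vectorSpan S).map M` (`AffineMap.map_vectorSpan`), `LinearEquiv.finrank_eq (Submodule.equivMapOfInjective ..)`.
`dm_open`: `IsOpen.affineSpan_eq_top` or `Submodule.eq_top_of_nonempty_interior'`.  `only_face`: `Kx.KA4_not`.  `sk_two`: a cell of `K'` at a point of `K.sk 2` lies in a cell of dimension at most two (`Ref.sk`);
a point outside `K.sk 2` is in the closure of no face (`cl_sub_sk`), so its cell is kept.  `par`: `F' ⊆ K.cell x`, `dm_mono`. -/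

open Set Metric Filter Topology Function BEv MeasureTheory
open scoped NNReal ENNReal

noncomputable section
namespace BEp

variable {Ω : Set (Rn 3)} {K K' : Kx Ω} {c : Ch} {F : Set (Rn 3)} {w : ℝ}

/-- The chart as an affine map. -/
def SCh_aff (c : Ch) : Rn 2 →ᵃ[ℝ] Rn 3 :=
  ⟨c.φ, c.M.toLinearMap, fun p v => by
    change c.o + c.M (v + p) = c.M v + (c.o + c.M p)
    rw [map_add, add_left_comm]⟩

theorem SCh_box (h : c.Shp w) {ξ : Rn 2} (hξ : ξ ∈ c.U) (i : Fin 2) : 0 < ξ i ∧ ξ i < w := by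
  rcases h.2 with e | e <;> rw [e] at hξ
  · exact hξ i
  · obtain ⟨h1, h2, h3⟩ := hξ
    revert i
    exact Fin.forall_fin_two.2 ⟨⟨h1, by linarith⟩, h2, by linarith⟩

theorem Ch.cont (c : Ch) : Continuous c.φ := by
  exact continuous_const.add c.M.continuous

theorem Ch.φ_sub (c : Ch) (ξ η : Rn 2) : c.φ ξ - c.φ η = c.M (ξ - η) := by
  rw [Ch.φ, Ch.φ, add_sub_add_left_eq_sub, map_sub]

theorem Ch.φ_seg (c : Ch) (ξ η : Rn 2) (t : ℝ) : c.φ (seg ξ η t) = seg (c.φ ξ) (c.φ η) t := by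
  rw [seg, seg, c.φ_sub, Ch.φ, Ch.φ, map_add, map_smul, add_assoc]

theorem Ch.oseg (c : Ch) (ξ η : Rn 2) :
    c.φ '' openSegment ℝ ξ η = openSegment ℝ (c.φ ξ) (c.φ η) := by
  rw [← seg_image_open, ← seg_image_open, image_image]
  exact image_congr fun t _ => c.φ_seg ξ η t

theorem Ch.emb (h : Injective c.M) : IsClosedEmbedding c.φ := by
  exact (Homeomorph.addLeft c.o).isClosedEmbedding.comp
    (LinearMap.isClosedEmbedding_of_injective (f := c.M.toLinearMap) (LinearMap.ker_eq_bot.2 h))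

theorem Ch.dm_image (h : Injective c.M) (S : Set (Rn 2)) : dm (c.φ '' S) = dm S := by
  rw [dm, dm, show vectorSpan ℝ (c.φ '' S) = _ from (SCh_aff c).map_vectorSpan.symm]
  exact (Submodule.equivMapOfInjective c.M.toLinearMap h _).finrank_eq.symm

theorem dm_open {n : ℕ} {S : Set (Rn n)} (h : IsOpen S) (hne : S.Nonempty) : dm S = n := by
  rw [dm, ← direction_affineSpan, h.affineSpan_eq_top hne, AffineSubspace.direction_top,
    finrank_top, Module.finrank_fin_fun]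

theorem Ch.Of.pre (h : c.Of F) : c.φ ⁻¹' F = c.U := by
  rw [← h.2.2, preimage_image_eq _ (Ch.emb h.1).injective]

theorem Ch.Of.cl_eq (h : c.Of F) : c.φ '' closure c.U = closure F := by
  rw [← h.2.2, (Ch.emb h.1).closure_image_eq]

theorem Ch.Of.pre_cl (h : c.Of F) : c.φ ⁻¹' closure F = closure c.U := by
  rw [← h.cl_eq, preimage_image_eq _ (Ch.emb h.1).injective]

theorem Ch.Of.sub_self (h : c.Of F) : c.sub F = c := by
  rw [Ch.sub, h.pre]

theorem Ch.Of.cpt (h : c.Of F) (hF : F ∈ K.cells) : IsCompact (closure c.U) := by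
  exact h.pre_cl ▸ (Ch.emb h.1).isCompact_preimage (Kx.cells_poly hF).1

theorem Ch.Of.cvx (h : c.Of F) (hF : F ∈ K.cells) : Convex ℝ c.U := by
  exact h.pre ▸ (Kx.cells_cvx hF).affine_preimage (SCh_aff c)

theorem Ch.Of.sk (h : c.Of F) (hF : F ∈ K.cel 2) {ξ : Rn 2} (hξ : ξ ∈ closure c.U) :
    c.φ ξ ∈ K.sk 2 := by
  exact Kx.cl_sub_sk hF.1 hF.2.le (h.cl_eq ▸ mem_image_of_mem _ hξ)

/-- The ends of an edge in the closure of a face, in the chart. -/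
theorem Ch.Of.ends (h : c.Of F) {a b : Rn 3} (hs : openSegment ℝ a b ⊆ closure F) :
    ∃ ξ ∈ closure c.U, ∃ ξ' ∈ closure c.U, a = c.φ ξ ∧ b = c.φ ξ' := by
  have k := segment_subset_closure_openSegment.trans (closure_minimal hs isClosed_closure)
  rw [← h.cl_eq] at k
  obtain ⟨ξ, h1, h2⟩ := k (left_mem_segment ℝ a b)
  obtain ⟨ξ', h3, h4⟩ := k (right_mem_segment ℝ a b)
  exact ⟨ξ, h1, ξ', h3, h2.symm, h4.symm⟩

/-- Edges lie on the sides and the wires. -/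
theorem Sbd.edge {h : ℝ} {W : Set (Rn 2)} (S : Sbd K' c h W) (hc : c.Of F) (hF : F ∈ K.cells)
    {ξ ξ' : Rn 2} (he : K'.Edge (c.φ ξ) (c.φ ξ')) (h1 : ξ ∈ closure c.U) (h2 : ξ' ∈ closure c.U) :
    ξ ≠ ξ' ∧ openSegment ℝ ξ ξ' ⊆ c.S W := by
  refine ⟨fun e => he.1 (congrArg _ e), fun z hz => ?_⟩
  by_cases k : z ∈ c.U
  · exact Or.inr ⟨k, S.sk z k (he.seg_sub (openSegment_subset_segment ℝ _ _
      (c.oseg ξ ξ' ▸ mem_image_of_mem _ hz)))⟩
  · exact Or.inl (hc.2.1.frontier_eq ▸ ⟨(hc.cvx hF).closure.openSegment_subset h1 h2 hz, k⟩)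

theorem Ch.Shp.rd (h : c.Shp w) : c.Rd (w / 16) w := by
  have w0 := h.1
  have k : 0 < w / 16 := by positivity
  refine ⟨k, fun _ => w / 4, fun ξ hξ => ?_, fun ξ hξ => ?_⟩
  · rw [mem_ball, dist_pi_lt_iff k] at hξ
    have k1 := fun i => abs_lt.1 (hξ i)
    rcases h.2 with e | e <;> rw [e]
    · exact fun i => ⟨by linarith only [w0, k1, (k1 i).1], by linarith [(k1 i).2]⟩
    · exact ⟨by linarith [(k1 0).1], by linarith [(k1 1).1], by linarith only [w0, k1, (k1 0).2, (k1 1).2]⟩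
  · rw [mem_ball, dist_pi_lt_iff w0]
    exact fun i => abs_lt.2 ⟨by linarith only [w0, h, hξ, (SCh_box h hξ i).1], by linarith only [w0, h, hξ, (SCh_box h hξ i).2]⟩

theorem Ch.Shp.box (h : c.Shp w) {ξ : Rn 2} (hξ : ξ ∈ closure c.U) (i : Fin 2) :
    0 ≤ ξ i ∧ ξ i ≤ w := by
  exact closure_minimal (t := (fun ξ : Rn 2 => ξ i) ⁻¹' Icc 0 w)
    (fun ξ hξ => ⟨(SCh_box h hξ i).1.le, (SCh_box h hξ i).2.le⟩)
    (isClosed_Icc.preimage (continuous_apply i)) hξ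

theorem Kx.only_face (hF : F ∈ K.cel 2) {x : Rn 3} (hx : x ∈ F) {F' : Set (Rn 3)}
    (hF' : F' ∈ K.cel 2) (h : x ∈ closure F') : F' = F := by
  exact by_contra fun k => Kx.KA4_not hF hF' (Ne.symm k) h hx

theorem Kx.in_face (hΩ : IsOpen Ω) {x : Rn 3} (hx : x ∈ K.sk 2) :
    ∃ F ∈ K.cel 2, K.cell x ⊆ closure F := by
  exact Kx.exists_up hΩ (K.cell_mem hx.1) hx.2 (by norm_num)

theorem Kx.sk_two {Z : Set (Rn 3) → Prop} (r : K.Ref K')
    (k : ∀ x ∈ Ω, (∀ F ∈ K.cel 2, x ∈ closure F → Z F) → K'.cell x = K.cell x) :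
    K'.sk 2 = K.sk 2 := by
  refine Subset.antisymm (fun x hx => by_contra fun hn => hn ⟨hx.1, ?_⟩) (r.sk 2)
  rw [← k x hx.1 fun F hF h => absurd (Kx.cl_sub_sk hF.1 hF.2.le h) hn]
  exact hx.2

/-- A face of the refined complex lies in a face. -/
theorem Kx.par (r : K.Ref K') (e : K'.sk 2 = K.sk 2) {F' : Set (Rn 3)} (h : F' ∈ K'.cel 2) :
    ∃ F ∈ K.cel 2, F' ⊆ F := by
  obtain ⟨⟨x, hx, rfl⟩, h2⟩ := h
  have k : x ∈ K.sk 2 := e ▸ ⟨hx, h2.le⟩
  exact ⟨_, ⟨K.cell_mem hx, k.2.antisymm (h2.ge.trans (dm_mono (r x hx)))⟩, r x hx⟩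

/-- An edge of the refined complex lies in the closure of a face. -/
theorem Kx.par1 (hΩ : IsOpen Ω) (r : K.Ref K') (e : K'.sk 2 = K.sk 2) {a b : Rn 3}
    (h : K'.Edge a b) : ∃ F ∈ K.cel 2, segment ℝ a b ⊆ closure F := by
  obtain ⟨x, hx, h2⟩ := h.2
  have k : x ∈ K.sk 2 := e ▸ ⟨hx, by rw [h2, h.dm]; norm_num⟩
  obtain ⟨F, hF, h3⟩ := Kx.in_face hΩ k
  exact ⟨F, hF, h.cl ▸ closure_minimal (h2 ▸ (r x hx).trans h3) isClosed_closure⟩

/-- Finitely many constraints for each cell. -/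
theorem exists_tau {α β : Type} {Rl : α → β → Prop} (hf : ∀ σ, {F | Rl F σ}.Finite) {δ : α → ℝ}
    (h0 : ∀ F, 0 < δ F) : ∃ τ : β → ℝ, (∀ σ, 0 < τ σ) ∧ ∀ F σ, Rl F σ → τ σ ≤ δ F := by
  have k : ∀ σ, ∃ t : ℝ, (∀ F ∈ {F | Rl F σ}, t ≤ δ F) ∧ t ∈ Ioi 0 := fun σ =>
    (((eventually_all_finite (hf σ)).2 fun F _ =>
      mem_of_superset (Ioc_mem_nhdsGT (h0 F)) fun _ h => h.2).and self_mem_nhdsWithin).exists
  choose τ h1 h2 using k
  exact ⟨τ, h2, fun F σ h => h1 σ F h⟩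

end BEp
end
end

-- merged part: Pool.Agent.Work.MP_f0515e_an.P3.SGrid
section
/-! The grid of a plate or a solid.
Plan.  Put `z l t = SR1_z (P.box r) s l t = ((t - c l) / s - (r + 8)) / 16`; `SR1_cc`, `kbS_iff`: points of one cell have the same position with respect to all levels `z ∈ ℤ`, that is `t - c l = ρx + 16 s m`.
`-ρx` is such a level (`8 ∣ r`); `16 ∣ r + 8` because `ρx` is a multiple of `l` (`Ok.rho`) and `l` of `16 s`, so every multiple of `l` is a level (`lat`, `cell_In`).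
`sq`: if `i ≠ j` are in `I`, `z i (x i)`, `z j (x j)` are not integers, and for the third index `l ∈ I → z l (x l) ∈ ℤ`, then `cc x = φ '' ball 0 (8 s)` for the chart with origin the centre of the cell and `M ξ = ξ 0 • e i + ξ 1 • e j`; so `dm = 2` (`Ch.dm_image`, `dm_open`).
With at most one non integer coordinate the cell lies on a line (see `sk_iff` in D3/SRig1), with three it is open.  This gives `sk`, `chart`.
`thick`: the faces whose closure meets a compact neighbourhood of `Q (ρx + 22 s)` in `Ω` are finitely many (`Kx.lf_cl`); those whose closure misses `Q (ρx + 22 s)` stay at a positive distance; the others lie in the slice (`frz`); `Kx.in_face`, `clamp`-like projection to the slice.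
`cover`: move two coordinates `i, j ∈ I` (for a solid those other than a coordinate with `|x l - c l| = ρ`) to the middle of a grid interval inside `[-ρx, ρx]` whose closure contains them; approach `x` along a segment (`kbS_line`). -/

open Set Metric Filter Topology Function BEv MeasureTheory
open scoped NNReal ENNReal

noncomputable section
namespace BEp

/-- Open box in the directions `J`. -/
def SGrid_bx (J : Finset (Fin 3)) (o : Rn 3) (w : ℝ) : Set (Rn 3) :=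
  {y | ∀ l, (l ∈ J → |y l - o l| < w) ∧ (l ∉ J → y l = o l)}

theorem SGrid_dm (J : Finset (Fin 3)) (o : Rn 3) {w : ℝ} (hw : 0 < w) :
    dm (SGrid_bx J o w) = J.card := by
  have li : LinearIndependent ℝ fun l : J => (Pi.single l.1 1 : Rn 3) :=
    (Pi.linearIndependent_single_one (Fin 3) ℝ).comp _ Subtype.val_injective
  have ho : o ∈ SGrid_bx J o w := fun l => ⟨fun _ => by simpa using hw, fun _ => rfl⟩
  have e : vectorSpan ℝ (SGrid_bx J o w) =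
      Submodule.span ℝ (range fun l : J => (Pi.single l.1 1 : Rn 3)) := by
    refine le_antisymm ?_ (Submodule.span_le.2 ?_)
    · rw [vectorSpan_eq_span_vsub_set_right ℝ ho, Submodule.span_le]
      rintro _ ⟨y, hy, rfl⟩
      show y - o ∈ _
      rw [← Finset.univ_sum_single (y - o)]
      refine Submodule.sum_mem _ fun l _ => ?_
      by_cases c : l ∈ J
      · rw [← mul_one ((y - o) l), ← smul_eq_mul, Pi.single_smul]
        exact Submodule.smul_mem _ _ (Submodule.subset_span ⟨⟨l, c⟩, rfl⟩)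
      · simp [(hy l).2 c]
    · rintro _ ⟨⟨l, hl⟩, rfl⟩
      have m : o + (w / 2) • (Pi.single l 1 : Rn 3) ∈ SGrid_bx J o w := fun j => by
        by_cases c : j = l
        · subst c
          refine ⟨fun _ => ?_, fun k => (k hl).elim⟩
          simp [abs_of_pos (half_pos hw), hw]
        · simp [c, hw]
      have k := vsub_mem_vectorSpan ℝ m ho
      rw [vsub_eq_sub, add_sub_cancel_left] at k
      exact (Submodule.smul_mem_iff _ (half_pos hw).ne').1 k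
  rw [dm, e, finrank_span_eq_card li, Fintype.card_coe]

theorem SGrid_ch {J : Finset (Fin 3)} (hJ : J.card = 2) (o : Rn 3) {w : ℝ} (hw : 0 < w) :
    ∃ c : Ch, c.Of (SGrid_bx J o w) ∧ c.Rd w w ∧ ∀ ξ, ‖c.M ξ‖ = ‖ξ‖ := by
  obtain ⟨i, j, n, rfl⟩ := Finset.card_eq_two.1 hJ
  let M : Rn 2 →L[ℝ] Rn 3 := (ContinuousLinearMap.proj 0).smulRight (Pi.single i 1) +
    (ContinuousLinearMap.proj 1).smulRight (Pi.single j 1)
  have m0 : ∀ ξ, M ξ i = ξ 0 := fun ξ => by simp [M, n]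
  have m1 : ∀ ξ, M ξ j = ξ 1 := fun ξ => by simp [M, n.symm]
  have m2 : ∀ ξ l, l ≠ i → l ≠ j → M ξ l = 0 := fun ξ l a b => by simp [M, a, b]
  have nm : ∀ ξ, ‖M ξ‖ = ‖ξ‖ := fun ξ => by
    refine le_antisymm ((pi_norm_le_iff_of_nonneg (norm_nonneg _)).2 fun l => ?_)
      ((pi_norm_le_iff_of_nonneg (norm_nonneg _)).2 (Fin.forall_fin_two.2
        ⟨m0 ξ ▸ norm_le_pi_norm (M ξ) i, m1 ξ ▸ norm_le_pi_norm (M ξ) j⟩))
    by_cases a : l = i
    · exact a ▸ (m0 ξ).symm ▸ norm_le_pi_norm ξ 0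
    by_cases b : l = j
    · exact b ▸ (m1 ξ).symm ▸ norm_le_pi_norm ξ 1
    · rw [m2 ξ l a b, norm_zero]
      exact norm_nonneg _
  refine ⟨⟨o, M, ball 0 w⟩, ⟨(injective_iff_map_eq_zero M).2 fun ξ e => ?_, isOpen_ball, ?_⟩,
    ⟨hw, 0, Subset.rfl, Subset.rfl⟩, nm⟩
  · rw [← norm_eq_zero, ← nm, e, norm_zero]
  · refine Subset.antisymm ?_ fun y hy => ⟨![y i - o i, y j - o j], ?_, funext fun l => ?_⟩
    · rintro _ ⟨ξ, hξ, rfl⟩ l
      refine ⟨fun _ => ?_, fun c => ?_⟩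
      · show |o l + M ξ l - o l| < w
        rw [add_sub_cancel_left]
        exact ((norm_le_pi_norm (M ξ) l).trans (nm ξ).le).trans_lt (mem_ball_zero_iff.1 hξ)
      · simp only [Finset.mem_insert, Finset.mem_singleton, not_or] at c
        show o l + M ξ l = o l
        rw [m2 ξ l c.1 c.2, add_zero]
    · exact mem_ball_zero_iff.2 ((pi_norm_lt_iff hw).2 (Fin.forall_fin_two.2
        ⟨(hy i).1 (by simp), (hy j).1 (by simp)⟩))
    · show o l + M _ l = y l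
      by_cases a : l = i
      · rw [a, m0]; simp
      by_cases b : l = j
      · rw [b, m1]; simp
      · rw [m2 _ l a b, add_zero, (hy l).2 (by simp [a, b])]

section
variable {B : Box 1} {s : ℝ} {x y : Rn 3}

theorem SGrid_cc (hs : 0 < s) (hx : x ∈ B.slice) : ∃ (J : Finset (Fin 3)) (o : Rn 3),
    (∀ l, l ∈ J ↔ l ∈ B.I ∧ ∀ k : ℤ, SR1_z B s l (x l) ≠ k) ∧
      B.cc s x = SGrid_bx J o (8 * s) := by
  classical
  let J : Finset (Fin 3) := Finset.univ.filter fun l => l ∈ B.I ∧ ∀ k : ℤ, SR1_z B s l (x l) ≠ k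
  have hJ : ∀ l, l ∈ J ↔ l ∈ B.I ∧ ∀ k : ℤ, SR1_z B s l (x l) ≠ k := fun l => by simp [J]
  refine ⟨J, fun l => if l ∈ J then
    B.c l + s * (B.r + 8) + 16 * s * (⌊SR1_z B s l (x l)⌋ + 1 / 2) else x l, hJ, ?_⟩
  ext y
  have e1 : ∀ l ∈ J, (⌊SR1_z B s l (y l)⌋ = ⌊SR1_z B s l (x l)⌋ ∧
      ⌈SR1_z B s l (y l)⌉ = ⌈SR1_z B s l (x l)⌉) ↔
      |y l - (B.c l + s * (B.r + 8) + 16 * s * (⌊SR1_z B s l (x l)⌋ + 1 / 2))| < 8 * s :=
    fun l hl => by
      rw [SR1_fo ((Int.floor_le _).lt_of_ne' (((hJ l).1 hl).2 _)) (Int.lt_floor_add_one _), abs_lt]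
      have := (SR1_eq (B := B) (l := l) (t := y l) hs).1 rfl
      constructor <;> rintro ⟨a, b⟩ <;> constructor <;> (refine lt_of_not_ge fun h_nl => ?_; linarith only [h_nl, this, hs, a, b, mul_pos_of_neg_of_neg (Mathlib.Tactic.Linarith.sub_neg_of_lt hs) (Mathlib.Tactic.Linarith.sub_neg_of_lt a), mul_pos_of_neg_of_neg (Mathlib.Tactic.Linarith.sub_neg_of_lt hs) (Mathlib.Tactic.Linarith.sub_neg_of_lt b), mul_nonneg_of_nonpos_of_nonpos (le_of_lt (Mathlib.Tactic.Linarith.sub_neg_of_lt hs)) (Mathlib.Tactic.Linarith.sub_nonpos_of_le h_nl)])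
  have e2 : ∀ l ∈ B.I, l ∉ J → ((⌊SR1_z B s l (y l)⌋ = ⌊SR1_z B s l (x l)⌋ ∧
      ⌈SR1_z B s l (y l)⌉ = ⌈SR1_z B s l (x l)⌉) ↔ y l = x l) := fun l hl c => by
    obtain ⟨k, hk⟩ := not_forall.1 fun a => c ((hJ l).2 ⟨hl, a⟩)
    exact (SR1_fi (not_not.1 hk)).trans ⟨SR1_inj hs, fun a => by rw [a]⟩
  refine SR1_cc.trans ⟨fun a l => ⟨fun c => ?_, fun c => ?_⟩, fun a => ⟨fun l hl => ?_, fun l hl => ?_⟩⟩
  · simpa only [if_pos c] using (e1 l c).1 (a.2 l ((hJ l).1 c).1)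
  · refine Eq.trans ?_ (if_neg c).symm
    by_cases hl : l ∈ B.I
    · exact (e2 l hl c).1 (a.2 l hl)
    · exact (a.1 l hl).trans (hx l hl).symm
  · have c : l ∉ J := fun c => hl ((hJ l).1 c).1
    exact (((a l).2 c).trans (if_neg c)).trans (hx l hl)
  · by_cases c : l ∈ J
    · exact (e1 l c).2 (by simpa only [if_pos c] using (a l).1 c)
    · exact (e2 l hl c).2 (((a l).2 c).trans (if_neg c))

theorem SGrid_cl (hx : x ∈ B.slice) (hy : y ∈ B.slice) (h : ∀ l ∈ B.I,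
    (⌊SR1_z B s l (y l)⌋ : ℝ) ≤ SR1_z B s l (x l) ∧ SR1_z B s l (x l) ≤ ⌈SR1_z B s l (y l)⌉) :
    x ∈ closure (B.cc s y) := by
  have c : ContinuousAt (fun t : ℝ => x + t • (y - x)) 0 := by fun_prop
  have t : Tendsto (fun t : ℝ => x + t • (y - x)) (𝓝[>] 0) (𝓝 x) := by
    simpa using c.tendsto.mono_left nhdsWithin_le_nhds
  refine mem_closure_of_tendsto t ?_
  filter_upwards [Ioc_mem_nhdsGT one_pos] with t ht
  refine SR1_cc.2 ⟨fun l hl => ?_, fun l hl => ?_⟩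
  · show x l + t * (y l - x l) = _
    rw [hx l hl, hy l hl, sub_self, mul_zero, add_zero]
  · have e : SR1_z B s l ((x + t • (y - x)) l) =
        SR1_z B s l (x l) + t * (SR1_z B s l (y l) - SR1_z B s l (x l)) := by
      show SR1_z B s l (x l + t * (y l - x l)) = _
      simp only [SR1_z]
      ring
    rw [e]
    exact kbS_line (h l hl).1 (h l hl).2 ht.1 ht.2

theorem SGrid_le (hs : 0 < s) (l : Fin 3) (t a : ℝ) :
    (SR1_z B s l t ≤ a ↔ t - B.c l ≤ s * (B.r + 8) + 16 * s * a) ∧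
      (a ≤ SR1_z B s l t ↔ s * (B.r + 8) + 16 * s * a ≤ t - B.c l) := by
  have := (SR1_eq (B := B) (l := l) (t := t) hs).1 rfl
  constructor <;> constructor <;> intro k <;> (refine le_of_not_gt fun h_nl => ?_; linarith only [h_nl, this, hs, k, mul_nonneg_of_nonpos_of_nonpos (le_of_lt (Mathlib.Tactic.Linarith.sub_neg_of_lt hs)) (Mathlib.Tactic.Linarith.sub_nonpos_of_le k), mul_pos_of_neg_of_neg (Mathlib.Tactic.Linarith.sub_neg_of_lt hs) (Mathlib.Tactic.Linarith.sub_neg_of_lt h_nl)])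

/-- Points of one cell have the same position with respect to the levels. -/
theorem SGrid_lev (hs : 0 < s) (hy : y ∈ B.cc s x) {l : Fin 3} (hl : l ∈ B.I) {u : ℝ} (m : ℤ)
    (e : u = s * (B.r + 8) + 16 * s * m) :
    (x l - B.c l ≤ u ↔ y l - B.c l ≤ u) ∧ (u ≤ x l - B.c l ↔ u ≤ y l - B.c l) := by
  have k := kbS_iff.1 ((SR1_cc.1 hy).2 l hl) m
  rw [(SGrid_le hs _ _ _).1, (SGrid_le hs _ _ _).1, (SGrid_le hs _ _ _).2, (SGrid_le hs _ _ _).2,
    ← e] at k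
  exact ⟨k.2.symm, k.1.symm⟩

end

namespace BoxIn
variable {Ω : Set (Rn 3)} {K : Kx Ω} {f : Rn 3 → Rn 3} {P : Pc} {s σ a : ℝ} {r : ℕ} {x : Rn 3}
  (h : BoxIn K f P s r σ a) (hs : 0 < s)
include h hs

theorem tol_pos : 0 < P.tol σ s := by
  have := h.σ0.1
  unfold Pc.tol
  positivity

theorem tol_le : 10 ^ 13 * P.tol σ s ≤ σ * s ∧ σ * s ≤ s := by
  obtain ⟨a1, a2⟩ := h.σ0
  have n := norm_nonneg (P.A : Rn 3 →L[ℝ] Rn 3)
  have p := mul_pos a1 hs
  refine ⟨?_, by linarith only [hs, a2, mul_nonneg_of_nonpos_of_nonpos (le_of_lt (Mathlib.Tactic.Linarith.sub_neg_of_lt hs)) (Mathlib.Tactic.Linarith.sub_nonpos_of_le a2)]⟩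
  rw [Pc.tol, ← mul_div_assoc, div_le_iff₀ (by positivity)]
  linarith only [p, n, a2, mul_nonneg p.le n, mul_le_mul_of_nonneg_left a2 p.le]

theorem small : 10 ^ 15 * s ≤ a ∧ 10 ^ 15 * (‖(P.A : Rn 3 →L[ℝ] Rn 3)‖ * s) ≤ a := by
  have := h.big
  have n := mul_nonneg (norm_nonneg (P.A : Rn 3 →L[ℝ] Rn 3)) hs.le
  constructor <;> linarith only [this, n, hs]

theorem ρx0 : 0 < P.ρx := by
  rw [h.rho]
  positivity

theorem near (hx : x ∈ K.sk 2) (hq : x ∈ P.Q (P.ρx + 32 * s)) :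
    ∃ x' ∈ P.Q P.ρx, ‖f x - P.aff x'‖ ≤ a / 2 := by
  obtain ⟨x', h1, h2⟩ := Pc.clamp (h.ρx0 hs).le (by positivity) hq
  have a1 := h.close x ⟨hx, hq⟩
  have a2 := (P.aff_le x x').trans (mul_le_mul_of_nonneg_left h2 (norm_nonneg _))
  have a3 := norm_sub_le_norm_sub_add_norm_sub (f x) (P.aff x) (P.aff x')
  have a4 := h.tol_le hs
  have a5 := h.small hs
  exact ⟨x', h1, by linarith only [hs, a1, a2, a3, a4, a5, a4.1, a4.2, a5.1, a5.2]⟩

theorem cell_Q (m : ℕ) (hm : m ≤ 2) (hx : x ∈ P.Q (P.ρx + 16 * m * s)) :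
    K.cell x ⊆ P.Q (P.ρx + 16 * m * s) := by
  have m2 : (m : ℝ) ≤ 2 := by exact_mod_cast hm
  obtain ⟨j, hj⟩ := h.r8.1
  rw [h.grid x (Pc.Q_mono (by linarith only [hs, m2, mul_nonneg_of_nonpos_of_nonpos (le_of_lt (Mathlib.Tactic.Linarith.sub_neg_of_lt hs)) (Mathlib.Tactic.Linarith.sub_nonpos_of_le m2)]) hx)]
  refine fun y hy => ⟨hy.1, fun l hl => ?_⟩
  have k := abs_le.1 (hx.2 l hl)
  refine abs_le.2 ⟨(SGrid_lev hs hy hl (-j - 1 - m) ?_).2.1 k.1, (SGrid_lev hs hy hl m ?_).1.1 k.2⟩ <;>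
    simp only [h.rho, Pc.box, hj] <;> push_cast <;> ring

theorem cell_Q0 (hx : x ∈ P.Q P.ρx) : K.cell x ⊆ P.Q P.ρx := by
  simpa using h.cell_Q hs 0 (by norm_num) (by simpa using hx)

theorem lat (hP : P.Ok) (hx : x ∈ P.Q (P.ρx + 32 * s)) : ∀ x' ∈ K.cell x, P.Lat x x' := by
  rw [h.grid x hx]
  intro y hy l k
  by_cases hl : l ∈ P.I
  · obtain ⟨k0, e0⟩ := h.ls
    obtain ⟨k1, e1⟩ : ∃ k1 : ℕ, P.ρx = k1 * P.l := by
      obtain ⟨k1, -, e1⟩ := hP.rho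
      unfold Pc.ρx
      split_ifs
      · exact ⟨k1 + 1, by rw [e1]; push_cast; ring⟩
      · exact ⟨k1, e1⟩
    refine SGrid_lev hs hy hl ((k - k1) * k0) ?_
    show _ = s * (r + 8) + _
    rw [← h.rho, e1, e0]
    push_cast
    ring
  · rw [hx.1 l hl, show y l = P.c l from hy.1 l hl]
    exact ⟨Iff.rfl, Iff.rfl⟩

theorem cell_In (hP : P.Ok) (hx : x ∈ P.In) : K.cell x ⊆ P.In := by
  have k := h.lat hs hP (Pc.Q_mono (by linarith only [hs, P.ρ_le]) (P.In_sub hx))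
  obtain ⟨m, -, e⟩ := hP.rho
  have c := Pc.In_card hx
  rw [Pc.In_eq c] at hx ⊢
  intro y hy l
  have a := abs_lt.1 (hx l)
  have a1 := (k y hy l m).2
  have a2 := (k y hy l (-m)).1
  push_cast at a1 a2
  rw [neg_mul, ← e] at a2
  rw [← e] at a1
  exact abs_lt.2 ⟨not_le.1 (mt a2.2 a.1.not_ge), not_le.1 (mt a1.2 a.2.not_ge)⟩

theorem diam (hx : x ∈ P.Q (P.ρx + 32 * s)) : ∀ y ∈ closure (K.cell x), ‖y - x‖ ≤ 16 * s := by
  obtain ⟨J, o, -, e⟩ := SGrid_cc (B := P.box r) hs hx.1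
  have m := K.mem x (h.QS hx)
  rw [h.grid x hx, e] at m ⊢
  refine fun y hy => mem_closedBall_iff_norm.1 (closure_minimal (fun z hz => ?_) isClosed_closedBall hy)
  refine mem_closedBall_iff_norm.2 ((pi_norm_le_iff_of_nonneg (by positivity)).2 fun l => ?_)
  show |z l - x l| ≤ _
  by_cases c : l ∈ J
  · have a1 := abs_lt.1 ((m l).1 c)
    have a2 := abs_lt.1 ((hz l).1 c)
    exact abs_le.2 ⟨by linarith only [a1, a2, a1.2, a2.1], by linarith [a1.1, a2.2]⟩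
  · rw [(m l).2 c, (hz l).2 c, sub_self, abs_zero]
    positivity

theorem sk (hx : x ∈ P.Q (P.ρx + 32 * s)) (h1 : x ∈ K.sk 1) : x ∈ (P.box r).Sk s := by
  obtain ⟨J, o, hJ, e⟩ := SGrid_cc (B := P.box r) hs hx.1
  have d := h1.2
  rw [h.grid x hx, e, SGrid_dm _ _ (by positivity)] at d
  obtain ⟨l₀, h0⟩ := Finset.card_le_one_iff_subset_singleton.1 d
  refine (SR1_sk hs).2 ⟨hx.1, l₀, fun l hl n => ?_⟩
  obtain ⟨k, hk⟩ := not_forall.1 fun c => n (Finset.mem_singleton.1 (h0 ((hJ l).2 ⟨hl, c⟩)))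
  exact ⟨k, (SR1_eq hs).1 (not_not.1 hk)⟩

theorem len {y : Rn 3} (he : K.Edge x y) (hq : segment ℝ x y ⊆ P.Q (P.ρx + 32 * s)) :
    8 * s ≤ ‖y - x‖ := by
  obtain ⟨z, hz⟩ := Kx.cells_ne he.2
  have q := hq (openSegment_subset_segment _ _ _ hz)
  exact NGeo0_len (B := P.box r) hs q.1 he.1 ((h.grid z q).symm.trans (Kx.cell_eq he.2 hz))

theorem thick (hΩ : IsOpen Ω) : ∃ e > 0, ∀ x ∈ K.sk 2, x ∈ (P.box r).thick s 30 e →
    x ∈ P.Q (P.ρx + 22 * s) := by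
  classical
  obtain ⟨e, e0, he⟩ := (P.Q_cpt (P.ρx + 22 * s)).exists_cthickening_subset_open
    (t := interior {y | ∃ z ∈ P.Q (P.ρx + 22 * s), z ∈ closure (K.cell y)}) isOpen_interior
    fun z hz => mem_interior_iff_mem_nhds.2 ((Kx.near (K := K) hΩ
      (h.QS (Pc.Q_mono (by linarith) hz))).mono fun y hy => ⟨z, hz, hy.2⟩)
  refine ⟨e, e0, fun x hx ht => ?_⟩
  have q : ∀ l ∈ P.I, |x l - P.c l| ≤ P.ρx + 22 * s := fun l hl =>
    (ht.1 l hl).trans_eq (by simp only [h.rho, Pc.box]; ring)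
  obtain ⟨z, z1, z2⟩ := interior_subset (he (mem_cthickening_of_dist_le x
    (fun l => if l ∈ P.I then x l else P.c l) e _ ⟨fun l hl => if_neg hl, fun l hl => by
      simpa only [if_pos hl] using q l hl⟩ ((dist_pi_le_iff e0.le).2 fun l => by
      split_ifs with hl
      · simpa using e0.le
      · exact ht.2 l hl)))
  obtain ⟨F, hF, k⟩ := Kx.in_face hΩ hx
  exact ⟨(closure_minimal (h.frz F hF ⟨z, closure_minimal k isClosed_closure z2, z1⟩)
    (P.Q_cpt _).isClosed (k (K.mem x hx.1))).1, q⟩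

theorem chart {F : Set (Rn 3)} (hF : F ∈ K.cel 2) (hq : F ⊆ P.Q (P.ρx + 32 * s)) :
    ∃ c : Ch, c.Of F ∧ c.Rd (8 * s) (8 * s) ∧ ∀ ξ, ‖c.M ξ‖ = ‖ξ‖ := by
  obtain ⟨x, hx⟩ := Kx.cells_ne hF.1
  obtain ⟨J, o, -, e⟩ := SGrid_cc (B := P.box r) hs (hq hx).1
  rw [← h.grid x (hq hx), Kx.cell_eq hF.1 hx] at e
  have d := hF.2
  rw [e, SGrid_dm _ _ (by positivity)] at d
  exact e ▸ SGrid_ch d o (by positivity)

theorem cover (hP : P.Ok) (hc : 2 ≤ P.I.card) (hx : x ∈ P.Bx) :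
    ∃ F ∈ K.cel 2, F ⊆ P.Bx ∧ x ∈ closure F := by
  classical
  have _ := hP
  obtain ⟨J, J1, J2, J3, J4⟩ : ∃ J ⊆ P.I, J.card = 2 ∧
      (∀ l ∈ P.I, l ∉ J → |x l - P.c l| = P.ρx) ∧
      (P.I.card = 3 → ∃ l, l ∉ J ∧ |x l - P.c l| = P.ρ) := by
    by_cases c : P.I.card = 3
    · obtain ⟨i, hi⟩ := hx.2 c
      have u : P.I = Finset.univ := Finset.eq_univ_of_card _ (by simpa using c)
      refine ⟨P.I.erase i, Finset.erase_subset _ _, ?_, fun l hl n => ?_, fun _ => ⟨i, by simp, hi⟩⟩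
      · rw [Finset.card_erase_of_mem (u ▸ Finset.mem_univ i), c]
      · rw [Pc.ρx_eq (by omega), not_not.1 fun e : l ≠ i => n (Finset.mem_erase.2 ⟨e, hl⟩), hi]
    · exact ⟨P.I, Subset.rfl, by have := P.card_le; omega, fun l hl n => (n hl).elim,
        fun k => (c k).elim⟩
  obtain ⟨j, hj⟩ := h.r8.1
  have e0 : P.ρx = s * ((P.box r).r + 8) := h.rho
  have e1 : -P.ρx = s * ((P.box r).r + 8) + 16 * s * ((-j - 1 : ℤ) : ℝ) := by
    simp only [h.rho, Pc.box, hj]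
    push_cast
    ring
  set z := SR1_z (P.box r) s
  let k : Fin 3 → ℤ := fun l => min ⌊z l (x l)⌋ (-1)
  have hk : ∀ l ∈ P.I, (-j - 1 ≤ k l ∧ k l ≤ -1) ∧ k l ≤ z l (x l) ∧ z l (x l) ≤ k l + 1 :=
    fun l hl => by
      have a := abs_le.1 (hx.1.2 l hl)
      have a1 := Int.le_floor.2 ((SGrid_le (B := P.box r) hs l (x l) _).2.2 (e1 ▸ a.1))
      have a2 := (SGrid_le (B := P.box r) hs l (x l) 0).1.2 (by
        rw [mul_zero, add_zero]; exact e0 ▸ a.2)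
      refine ⟨⟨le_min a1 (by omega), min_le_right _ _⟩,
        Int.le_floor.1 (min_le_left _ _), ?_⟩
      rcases min_choice ⌊z l (x l)⌋ (-1) with c | c <;> simp only [k, c]
      · exact (Int.lt_floor_add_one _).le
      · simpa using a2
  let y : Rn 3 := fun l => if l ∈ J then P.c l + P.ρx + 16 * s * (k l + 1 / 2) else x l
  have y1 : ∀ l ∈ J, z l (y l) = k l + 1 / 2 := fun l hl => (SR1_eq hs).2 (e0 ▸ if_pos hl)
  have y2 : ∀ l, l ∉ J → y l = x l := fun l hl => if_neg hl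
  have q : y ∈ P.Q P.ρx := ⟨fun l hl => (y2 l fun c => hl (J1 c)).trans (hx.1.1 l hl),
    fun l hl => by
      by_cases c : l ∈ J
      · have a1 : ((-j - 1 : ℤ) : ℝ) ≤ k l := by exact_mod_cast (hk l hl).1.1
        have a2 : (k l : ℝ) ≤ -1 := by exact_mod_cast (hk l hl).1.2
        refine abs_le.2 ⟨e1 ▸ (SGrid_le (B := P.box r) hs l (y l) _).2.1 ?_, ?_⟩
        · exact le_trans (by linarith only [a1]) (y1 l c).ge
        · rw [show y l = _ from if_pos c]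
          linarith only [hs, a2, mul_nonneg_of_nonpos_of_nonpos (le_of_lt (Mathlib.Tactic.Linarith.sub_neg_of_lt hs)) (Mathlib.Tactic.Linarith.sub_nonpos_of_le a2)]
      · exact (y2 l c).symm ▸ hx.1.2 l hl⟩
  have q' : y ∈ P.Q (P.ρx + 32 * s) := Pc.Q_mono (by linarith only [hs]) q
  obtain ⟨J', o, hJ, e⟩ := SGrid_cc (B := P.box r) hs q.1
  obtain rfl : J' = J := by
    refine Finset.ext fun l => (hJ l).trans ⟨fun c => not_not.1 fun n => ?_,
      fun c => ⟨J1 c, fun m hm => ?_⟩⟩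
    · rcases (abs_eq (h.ρx0 hs).le).1 (J3 l c.1 n) with a | a
      · exact c.2 0 ((SR1_eq hs).2 (by
          rw [y2 l n, ← e0, Int.cast_zero, mul_zero, add_zero]; exact sub_eq_iff_eq_add'.1 a))
      · exact c.2 _ ((SR1_eq hs).2 (by
          rw [y2 l n, add_assoc, ← e1]; exact sub_eq_iff_eq_add'.1 a))
    · have : ((2 * k l + 1 : ℤ) : ℝ) = ((2 * m : ℤ) : ℝ) := by
        push_cast
        linarith only [y1, c, hm, (y1 l c).symm.trans hm]
      have := Int.cast_injective this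
      omega
  rw [← h.grid y q'] at e
  have m := K.mem y (h.QS q')
  refine ⟨K.cell y, ⟨K.cell_mem (h.QS q'), by rw [e, SGrid_dm _ _ (by positivity), J2]⟩,
    fun w hw => ⟨h.cell_Q0 hs q hw, fun c => (J4 c).imp fun l a => ?_⟩, ?_⟩
  · rw [e] at hw m
    rw [(hw l).2 a.1, ← (m l).2 a.1, y2 l a.1, a.2]
  · rw [h.grid y q']
    refine SGrid_cl hx.1.1 q.1 fun l hl => ?_
    by_cases c : l ∈ J'
    · have a := (SR1_fo (a := z l (y l)) (b := z l (y l)) (k := k l) (by rw [y1 l c]; linarith only [])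
        (by rw [y1 l c]; linarith only [])).1 ⟨rfl, rfl⟩
      refine ⟨le_trans ?_ (hk l hl).2.1, (hk l hl).2.2.trans ?_⟩
      · exact_mod_cast Int.floor_le_iff.2 a.2
      · exact_mod_cast Int.le_ceil_iff.2 (show ((k l + 1 : ℤ) : ℝ) - 1 < _ by
          push_cast; linarith only [a, a.1])
    · rw [y2 l c]
      exact ⟨Int.floor_le _, Int.le_ceil _⟩

end BoxIn

end BEp
end
end

-- merged part: Pool.Agent.Work.MP_f0515e_an.P3.SSin
section
/-! Consequences of the hypotheses.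
Plan.  `a_le`: `1 ≤ CT ≤ Cf`.  `nr`: `b` is a solid; `BoxIn.nohit` at the point of `In` gives `x ∈ Q (ρx + 8 s)`, `close`, `Pc.nr_in`.  `cell_Q`: `Ok.card`, `BoxIn.cell_Q0`, `ChdIn.cel`, `ρx_eq`.
`keep22`: `BoxIn.frz`.  `not_rig`, `rig_of`: `Kx.cell_eq`.  `frz_chd`: `disj`, closedness of `Q`.  `ID_fin`: `lintegral_iUnion_le`, `Q_one`, `lint_line`, `ChdIn.fin`.  `exists_M`: `lint_pull`, `lintegral_const_mul`, `ENNReal.mul_rpow_of_nonneg`. -/

open Set Metric Filter Topology Function BEv MeasureTheory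
open scoped NNReal ENNReal

noncomputable section
namespace BEp

variable {ι : Type} {Ω : Set (Rn 3)} {K : Kx Ω} {f : Rn 3 → Rn 3} {d : SD ι} {p C1 g : ℝ}
  {Cf : (Rn 3 ≃L[ℝ] Rn 3) → ℝ}

theorem a_le {g l c c' : ℝ} (g0 : 0 < g ∧ g ≤ 1 / 8) (hl : 0 < l) (h1 : 1 ≤ c) (h2 : c ≤ c') :
    0 < g * l / c' ∧ g * l / c' ≤ g * l / c ∧ g * l / c ≤ l / 8 ∧ l ≤ c * l := by
  have h0 := mul_pos g0.1 hl
  refine ⟨div_pos h0 (by linarith only [g0, h1, h2]), div_le_div_of_nonneg_left h0.le (by linarith only [g0, h1]) h2,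
    (div_le_self h0.le h1).trans (by linarith only [g0, hl, g0.2, mul_nonneg_of_nonpos_of_nonpos (Mathlib.Tactic.Linarith.sub_nonpos_of_le g0.right) (le_of_lt (Mathlib.Tactic.Linarith.sub_neg_of_lt hl))]), le_mul_of_one_le_left hl.le h1⟩

theorem SSin_ρx {P : Pc} {j : Fin 3} (h : P.I = {j}) : P.ρx = P.ρ :=
  Pc.ρx_eq (by rw [h]; simp)

theorem SSin_chs (d : SD ι) :
    d.Chs = ⋃ i : {i // (d.P i).I.card = 1}, (d.P i).Q (d.P i).ρ := by
  ext x
  exact ⟨fun ⟨i, h1, h2⟩ => mem_iUnion.2 ⟨⟨i, h1⟩, h2⟩, fun k =>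
    let ⟨i, h2⟩ := mem_iUnion.1 k; ⟨i, i.2, h2⟩⟩

namespace SIn
variable (h : SIn p C1 g Cf K f d) {x : Rn 3} {F : Set (Rn 3)} {b : ι}
include h

theorem SSin_le (b : ι) : (d.P b).Q (d.P b).ρx ⊆ (d.P b).Q ((d.P b).ρx + 32 * d.s) :=
  Pc.Q_mono (by linarith only [h, h.s0])

theorem SSin_ρ (b : ι) : 0 ≤ (d.P b).ρ := (d.P b).l0.le.trans (h.pc.ok b).l_le

theorem QS (b : ι) : (d.P b).Q (d.P b).ρx ⊆ Ω := by
  rcases (h.pc.ok b).card with ⟨j, k⟩ | k
  · rw [SSin_ρx k]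
    exact (h.chd b j k).QS
  · exact (h.SSin_le b).trans (h.box b k).QS

theorem cell_Q (hx : x ∈ (d.P b).Q (d.P b).ρx) : K.cell x ⊆ (d.P b).Q (d.P b).ρx := by
  rcases (h.pc.ok b).card with ⟨j, k⟩ | k
  · rw [SSin_ρx k] at hx ⊢
    exact (h.chd b j k).cel x hx
  · exact (h.box b k).cell_Q0 h.s0 hx

theorem cell_In (hx : x ∈ (d.P b).In) : K.cell x ⊆ (d.P b).In := by
  exact (h.box b (by rw [Pc.In_card hx]; norm_num)).cell_In h.s0 (h.pc.ok b) hx

theorem nr (hx : x ∈ K.sk 2) (hI : x ∉ (d.P b).In) (k : f x ∈ (d.P b).aff '' (d.P b).In) :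
    (d.P b).Nr (g * (d.P b).l / Cf (d.P b).A) (f x) := by
  obtain ⟨y, hy, e⟩ := k
  have B := h.box b (by rw [Pc.In_card hy]; norm_num)
  have s0 := h.s0
  have hq : x ∈ (d.P b).Q ((d.P b).ρx + 8 * d.s) := by_contra fun j => by
    have := B.nohit y (Pc.Q_mono (by linarith only [s0, (d.P b).ρ_le]) ((d.P b).In_sub hy)) x hx.1
      (Or.inl hx) j
    rw [e, sub_self, norm_zero] at this
    linarith only [this, B, s0, mul_pos B.σ0.1 s0]
  refine Pc.nr_in (h.pc.ok b) hI ((B.close x ⟨hx, Pc.Q_mono (by linarith) hq⟩).trans ?_) ⟨y, hy, e⟩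
  linarith only [s0, B, (B.tol_le s0).1, (B.tol_le s0).2, (B.small s0).1, B.tol_pos s0]

theorem keep22 (hc : 2 ≤ (d.P b).I.card) (hx : x ∈ (d.P b).Q ((d.P b).ρx + 22 * d.s)) :
    ∀ F ∈ K.cel 2, x ∈ closure F → d.Frz F := by
  exact fun F hF k => ⟨b, hc, (h.box b hc).frz F hF ⟨x, k, hx⟩⟩

theorem rig_of (hF : F ∈ K.cells) (hc : 2 ≤ (d.P b).I.card) (hx : x ∈ F)
    (hq : x ∈ (d.P b).Q (d.P b).ρx) : d.Rig F := by
  exact ⟨b, hc, Kx.cell_eq hF hx ▸ h.cell_Q hq⟩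

/-- The closure of a face which is not rigid contains no open segment or face inside a solid. -/
theorem not_In (hF : F ∈ K.cel 2) (hr : ¬ d.Rig F) (hx : x ∈ closure F) : x ∉ (d.P b).In := by
  intro k
  obtain ⟨y, y1, y2⟩ := mem_closure_iff.1 hx _ (d.P b).In_open k
  exact hr (h.rig_of hF.1 (by rw [Pc.In_card k]; norm_num) y2
    (Pc.Q_mono (d.P b).ρ_le ((d.P b).In_sub y1)))

theorem rig_frz (hr : d.Rig F) : d.Frz F := by
  obtain ⟨b, h1, h2⟩ := hr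
  exact ⟨b, h1, h2.trans (h.SSin_le b)⟩

theorem frz_chd (hz : d.Frz F) (hx : x ∈ closure F) : x ∉ d.Chs := by
  rintro ⟨i, i1, i2⟩
  obtain ⟨b, h1, h2⟩ := hz
  refine disjoint_left.1 (h.disj b i ?_) (((d.P b).Q_cpt _).isClosed.closure_subset_iff.2 h2 hx)
    (h.SSin_le i (Pc.Q_mono (d.P i).ρ_le i2))
  rintro rfl
  omega

theorem chs_sk (hx : x ∈ d.Chs) : x ∈ K.sk 1 := by
  obtain ⟨i, i1, i2⟩ := hx
  obtain ⟨j, k⟩ := Finset.card_eq_one.1 i1
  refine ⟨(h.chd i j k).QS i2, (dm_mono ((h.chd i j k).cel x i2)).trans ?_⟩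
  rw [Pc.Q_seg k (h.SSin_ρ i), dm, vectorSpan_segment]
  exact (finrank_span_le_card _).trans (by simp)

theorem chs_meas [Finite ι] : MeasurableSet d.Chs ∧ μH[1] d.Chs ≠ ⊤ := by
  rw [SSin_chs]
  refine ⟨.iUnion fun i => ((d.P i).Q_cpt _).measurableSet,
    ne_top_of_le_ne_top ?_ (measure_iUnion_le _)⟩
  have := Fintype.ofFinite {i // (d.P i).I.card = 1}
  rw [tsum_fintype]
  refine ENNReal.sum_ne_top.2 fun i _ => ?_
  obtain ⟨j, k⟩ := Finset.card_eq_one.1 i.2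
  rw [Pc.Q_seg k (h.SSin_ρ i), hausdorffMeasure_segment]
  exact edist_ne_top _ _

theorem ID_fin [Finite ι] : d.ID p ≠ ⊤ := by
  rw [SD.ID, SSin_chs]
  refine ne_top_of_le_ne_top ?_ (lintegral_iUnion_le _ _)
  have := Fintype.ofFinite {i // (d.P i).I.card = 1}
  rw [tsum_fintype]
  refine ENNReal.sum_ne_top.2 fun i _ => ?_
  obtain ⟨j, k⟩ := Finset.card_eq_one.1 i.2
  rw [Pc.Q_one k]
  exact (lint_line (d.P i).c (Pi.single j 1) measurableSet_Icc _).trans_ne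
    (ENNReal.mul_ne_top enorm_ne_top (h.chd i j k).fin)

theorem exists_M [Finite ι] (hp : 0 < p) (cm : ℝ) : ∃ M, (∀ F, M F ≠ ⊤) ∧ MOk p cm K d M := by
  have : ∀ F, ∃ M : ℝ≥0∞, M ≠ ⊤ ∧ (F ∈ K.cel 2 → ∀ χ : Rn 3 → ℝ≥0∞, Measurable χ →
      ∫⁻ y, χ y ^ p ∂μH[1] ≤ 4 * (1 + d.ID p) →
      ∫⁻ ξ, (ENNReal.ofReal (cm * ‖(d.ch F).M‖) * χ ((d.ch F).φ ξ)) ^ p ∂μH[1] ≤ M) := by
    intro F
    by_cases hF : F ∈ K.cel 2
    swap
    · exact ⟨0, ENNReal.zero_ne_top, fun k => absurd k hF⟩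
    obtain ⟨k, k1, k2⟩ := lint_pull (h.face F hF).1.1
    have t := ENNReal.rpow_ne_top_of_nonneg hp.le
      (ENNReal.ofReal_ne_top (r := cm * ‖(d.ch F).M‖))
    refine ⟨ENNReal.ofReal (cm * ‖(d.ch F).M‖) ^ p * (k * (4 * (1 + d.ID p))),
      ENNReal.mul_ne_top t (ENNReal.mul_ne_top k1 (ENNReal.mul_ne_top (by norm_num)
        (ENNReal.add_ne_top.2 ⟨ENNReal.one_ne_top, h.ID_fin⟩))), fun _ χ m e => ?_⟩
    simp only [ENNReal.mul_rpow_of_nonneg _ _ hp.le]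
    rw [lintegral_const_mul' _ _ t]
    exact mul_le_mul_right ((k2 _ (m.pow_const p)).trans (mul_le_mul_right e _)) _
  choose M h1 h2 using this
  exact ⟨M, h1, h2⟩

/-- The skeleton near a plate lies in the plate. -/
theorem thin (hc : 2 ≤ (d.P b).I.card) : ∃ e > 0, ∀ x ∈ K.sk 2,
    (∀ i ∈ (d.P b).I, |x i - (d.P b).c i| < (d.P b).ρ) →
    (∀ i, i ∉ (d.P b).I → |x i - (d.P b).c i| < e) → x ∈ (d.P b).Q (d.P b).ρ := by
  obtain ⟨e, e0, k⟩ := (h.box b hc).thick h.s0 h.opn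
  refine ⟨e, e0, fun x hx h1 h2 => ⟨(k x hx ⟨fun l hl => (h1 l hl).le.trans ?_,
    fun l hl => (h2 l hl).le⟩).1, fun i hi => (h1 i hi).le⟩⟩
  have := (h.box b hc).rho
  change _ ≤ d.s * (d.r b + 30)
  linarith only [this, h, (d.P b).ρ_le, h.s0]

end SIn

end BEp
end
end

-- merged part: Pool.Agent.Work.MP_f0515e_an.P3.SBlow
section
/-! The hypotheses after the blow up.
Plan.  `B ∘ f = f` on `K.sk 2 ∩ Q (ρx + 32 s)` (`BoxIn.near`, `Blow.fix'`, `a_le`) and on the chords (`ChdIn.close`).  Faces and edges: `ug_comp` with `k t = f (φ (seg ξ ξ' t))`, `γ t = ‖ξ' - ξ‖ₑ * γ (seg ξ ξ' t)`, `lintegral_const_mul'`;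
the segment lies in `closure U` (`Ch.Of.cvx`, `Convex.closure`), `Ch.Of.sk`.  `fin`, `bd`: `lintegral_add_left`.
`nohit`: if `z = B (f y)` is within `σ s / 50` of `aff x` then it is within `a` of `aff '' Q ρx` (`clamp`, `small`, `tol_le`), so `z ∈ V` (`PcIn.sub`), `B z = z`, `f y = z` by injectivity.  `rvar`: `vr_congr`, `Q_cvx`; `ac`: `ACs.congr`, `Q_seg`.
`sk_cpt`: `cpt_pre`, `Kx.sk_closed`: `f '' K.sk 2 ∩ C = f '' (K.sk 2 ∩ C') ∩ C` with `K.sk 2 ∩ C'` compact. -/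

open Set Metric Filter Topology Function BEv MeasureTheory
open scoped NNReal ENNReal

noncomputable section
namespace BEp

variable {ι : Type} {Ω : Set (Rn 3)} {K K' : Kx Ω} {f : Rn 3 → Rn 3} {d : SD ι} {p C0 C1 g cm : ℝ}
  {CT Cf : (Rn 3 ≃L[ℝ] Rn 3) → ℝ} {T : TS} {u sc : Rn 3 → ℝ}

theorem sk_cpt (hΩ : IsOpen Ω) (hc : ContinuousOn f Ω) (hi : InjOn f Ω) {C : Set (Rn 3)}
    (hC : IsCompact C) (hs : C ⊆ f '' Ω) : IsCompact (f '' K.sk 2 ∩ C) := by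
  obtain ⟨C', c1, c2, c3⟩ := cpt_pre hΩ hc hi hC hs
  have k1 : IsCompact (K.sk 2 ∩ C') := by
    refine c1.of_isClosed_subset (isClosed_of_closure_subset fun x hx => ?_) inter_subset_right
    have h1 : x ∈ C' := c1.isClosed.closure_subset (closure_mono inter_subset_right hx)
    exact ⟨Kx.sk_closed hΩ (c2 h1) (closure_mono inter_subset_left hx), h1⟩
  have k2 : f '' K.sk 2 ∩ C = f '' (K.sk 2 ∩ C') ∩ C := by
    refine Subset.antisymm ?_ (inter_subset_inter_left _ (image_mono inter_subset_left))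
    rintro _ ⟨⟨x, hx, rfl⟩, h2⟩
    obtain ⟨y, hy, e⟩ := c3 h2
    exact ⟨⟨x, ⟨hx, hi (c2 hy) hx.1 e ▸ hy⟩, rfl⟩, h2⟩
  rw [k2]
  exact (k1.image_of_continuousOn (hc.mono (inter_subset_right.trans c2))).inter_right hC.isClosed

theorem SBlow_seg {n : ℕ} (a b : Rn n) : Continuous (seg a b) := by
  unfold seg
  fun_prop

theorem SBlow_add {α : Type} [MeasurableSpace α] {μ : Measure α} {v w w' : α → ℝ≥0∞}
    (hv : Measurable v) (h : ∫⁻ x, (v x + w x) ∂μ ≠ ⊤) (h' : ∫⁻ x, w' x ∂μ ≠ ⊤) :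
    ∫⁻ x, (v x + w' x) ∂μ ≠ ⊤ := by
  rw [lintegral_add_left hv]
  exact ENNReal.add_ne_top.2
    ⟨ne_top_of_le_ne_top h (lintegral_mono fun x => le_self_add), h'⟩

theorem blow_sin (g0 : 0 < g ∧ g ≤ 1 / 8) (hCT : ∀ A, 1 ≤ CT A ∧ CT A ≤ Cf A)
    (h : SIn p C1 g Cf K f d) {ζ : Rn 3} {B : Rn 3 → Rn 3}
    (hB : Blow (f '' Ω) T g CT d.P ζ (f '' K.sk 2) B) {b : Rn 3 → ℝ≥0∞} (hm : Measurable b)
    (e : ∀ x ∈ Ω, b x = T.β ζ (f x))
    (fin : ∀ F ∈ K.cel 2, ∫⁻ ξ in (d.ch F).U, (b ((d.ch F).φ ξ) * d.γ F ξ) ^ p ≠ ⊤ ∧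
      ∫⁻ ξ in frontier (d.ch F).U, (b ((d.ch F).φ ξ) * d.γ F ξ) ^ p ∂μH[1] ≠ ⊤) :
    SIn p C1 g Cf K (B ∘ f) (d.upd b) ∧ (B ∘ f) '' Ω = f '' Ω ∧
      ∀ x ∈ K.sk 2, (∀ b, x ∉ (d.P b).In) → B (f x) ∈ T.Good := by
  have img : (B ∘ f) '' Ω = f '' Ω := by rw [image_comp, hB.bij.image_eq]
  have al := fun i : ι => a_le g0 (d.P i).l0 (hCT (d.P i).A).1 (hCT (d.P i).A).2
  have mt : MapsTo f Ω (f '' Ω) := mapsTo_image f Ω
  obtain ⟨ρ, hρ, hl⟩ := hB.lip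
  have ug : ∀ {c : ℝ → Rn 3}, Continuous c → MapsTo c (Icc 0 1) (K.sk 2) →
      ∀ {γ : ℝ → ℝ≥0∞}, Measurable γ →
      (∀ s s', 0 ≤ s → s ≤ s' → s' ≤ 1 → ‖f (c s') - f (c s)‖ₑ ≤ ∫⁻ x in Icc s s', γ x) →
      ∀ s s', 0 ≤ s → s ≤ s' → s' ≤ 1 →
        ‖B (f (c s')) - B (f (c s))‖ₑ ≤ ∫⁻ x in Icc s s', b (c x) * γ x := by
    intro c hc m γ hγ k
    exact ug_comp (k := fun t => f (c t)) (b := fun t => b (c t)) hρ (image_mono (K.sk_sub 2))
      (fun y hy => (hl y hy).2) (h.cont.comp hc.continuousOn fun t ht => (m ht).1)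
      (fun t ht => mem_image_of_mem f (m ht)) hγ (fun t ht => (e _ (m ht).1).ge) k
  refine ⟨⟨h.opn, hB.cont.comp h.cont mt, hB.bij.injOn.comp h.inj mt, h.mv, h.mD, fun F hF => ?_,
    fun q hq => ?_, img ▸ h.scl, h.mw, h.w0, h.w1, img ▸ h.pc, h.s0, fun i hi => ?_,
    fun i j hi => ?_, h.disj⟩, img, fun x hx hI =>
      hB.good _ (mem_image_of_mem f hx) fun i k => (h.nr hx (hI i) k).mono (al i).2.1⟩
  · obtain ⟨k1, k2, k3, k4⟩ := h.face F hF
    have mφ := (d.ch F).cont.measurable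
    refine ⟨k1, k2, ⟨(hm.comp mφ).mul k3.mγ, fun ξ hξ ξ' hξ' hv s s' h0 h1 h2 => ?_,
      SBlow_add (h.mv.comp mφ) k3.fin (fin F hF).1, SBlow_add (h.mv.comp mφ) k3.bd (fin F hF).2⟩,
      k4⟩
    have := ug (c := fun t => (d.ch F).φ (seg ξ ξ' t)) ((d.ch F).cont.comp (SBlow_seg ξ ξ'))
      (fun t ht => k1.sk hF ((k1.cvx hF.1).closure.segment_subset hξ hξ'
        (seg_image ξ ξ' ▸ mem_image_of_mem _ ht)))
      (γ := fun t => ‖ξ' - ξ‖ₑ * d.γ F (seg ξ ξ' t))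
      ((k3.mγ.comp (SBlow_seg ξ ξ').measurable).const_mul _)
      (fun s s' h0 h1 h2 => by
        rw [lintegral_const_mul' _ _ enorm_ne_top]
        exact k3.ug ξ hξ ξ' hξ' hv s s' h0 h1 h2) s s' h0 h1 h2
    simp only [mul_left_comm _ ‖ξ' - ξ‖ₑ] at this
    rw [lintegral_const_mul' _ _ enorm_ne_top] at this
    exact this
  · obtain ⟨k1, k2, k3, k4, k5⟩ := h.edge q hq
    exact ⟨k1, k2, (hm.comp (SBlow_seg q.1 q.2).measurable).mul k3, k4,
      ug (SBlow_seg q.1 q.2) (fun t ht => Kx.sk_mono one_le_two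
        (k1.seg_sub (seg_image q.1 q.2 ▸ mem_image_of_mem _ ht))) k3 k5⟩
  · have k := h.box i hi
    have s0 := h.s0
    have fx : ∀ x ∈ K.sk 2, x ∈ (d.P i).Q ((d.P i).ρx + 32 * d.s) → B (f x) = f x := by
      intro x hx hq
      obtain ⟨x', h1, h2⟩ := k.near s0 hx hq
      exact hB.fix' (h.pc.ok i) h1 (h2.trans (by linarith only [al, (al i).1, (al i).2.1]))
    refine ⟨k.rho, k.r8, k.ls, k.big, k.σ0, k.low, k.QS, k.grid, k.frz, fun x hx => ?_,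
      fun a a' he ha ha' => ?_, fun x hx y hy h1 h2 => ?_⟩
    · have := k.close x hx
      rwa [← fx x hx.1 hx.2] at this
    · refine le_of_eq_of_le (vr_congr fun x hx => ?_) (k.rvar a a' he ha ha')
      have := fx x (Kx.sk_mono one_le_two (he.seg_sub hx))
        (Pc.Q_mono (show (d.P i).ρx + 16 * d.s ≤ (d.P i).ρx + 32 * d.s by linarith only [s0])
          (((d.P i).Q_cvx _).segment_subset ha ha' hx))
      exact congrArg (fun z => z - (d.P i).aff x) this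
    · by_contra hn
      have hn' : ‖B (f y) - (d.P i).aff x‖ ≤ d.σ i * d.s / 50 := not_lt.1 hn
      obtain ⟨x', h3, h4⟩ := Pc.clamp (k.ρx0 s0).le (by linarith only [s0] : 0 ≤ 4 * d.s) hx
      have h5 := (d.P i).aff_le x x'
      have h6 := mul_le_mul_of_nonneg_left h4 (norm_nonneg ((d.P i).A : Rn 3 →L[ℝ] Rn 3))
      have h7 := norm_sub_le_norm_sub_add_norm_sub (B (f y)) ((d.P i).aff x) ((d.P i).aff x')
      have h8 := k.small s0
      have h9 := (k.tol_le s0).2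
      have h10 : B (B (f y)) = B (f y) :=
        hB.fix' (h.pc.ok i) h3 (by linarith only [s0, hn', h5, h6, h7, h8, h9, al, (al i).1, (al i).2.1, h8.1, h8.2])
      have h11 := hB.bij.injOn (hB.bij.mapsTo (mt hy)) (mt hy) h10
      rw [h11] at hn'
      exact absurd (k.nohit x hx y hy h1 h2) (not_lt.2 hn')
  · have k := h.chd i j hi
    have fx : ∀ x ∈ (d.P i).Q (d.P i).ρ, B (f x) = f x := fun x hx =>
      hB.fix' (h.pc.ok i) (Pc.Q_mono (d.P i).ρ_le hx)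
        ((k.close x hx).trans (by linarith only [al, (al i).1, (al i).2.1]))
    refine ⟨k.QS, k.cel, fun x hx => ?_, k.ac.congr fun x hx => fx x ?_, k.fin⟩
    · have := k.close x hx
      rwa [← fx x hx] at this
    · rw [Pc.Q_seg (P := d.P i) hi ((d.P i).l0.le.trans (h.pc.ok i).l_le)]
      exact hx

end BEp
end
end

-- merged part: Pool.Agent.Work.MP_f0515e_an.P3.SNull
section
/-! The image of the two skeleton is a null set.
Plan.  `null_curve`: `Φ s = (∫⁻ x in Icc 0 s, γ x).toReal + s` is injective on `Icc 0 1` and `‖k s' - k s‖ ≤ Φ s' - Φ s` for `s ≤ s'` (`NLn_add`), so `k ∘ invFunOn Φ (Icc 0 1)` is Lipschitz on a subset of `ℝ`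
(model `CPush_haus` in P3/CPush; `LipschitzOnWith.hausdorffMeasure_image_le`, `hausdorffMeasure_pi_real`, `μH[3] = 0` on `ℝ` by `hausdorffMeasure_of_dimH_lt`, `Real.dimH_univ`).
`null_sq`: cut `closedBall c R` into the `N ^ 2` squares `closedBall c' (R / N)`; the open ones are disjoint and lie in `ball c R`; by `morrey2` the image of a square lies in a ball of radius `δ` with `δ ^ p ≤ C (R / N) ^ (p - 2) I'`, `I' = ∫⁻ γ ^ p` over the square,
so its volume is at most `8 δ ^ 3 ≤ 8 (C (R / N) ^ (p - 2)) ^ (3 / p) I ^ (3 / p - 1) I'` (`Real.volume_pi_closedBall`), the sum of the `I'` is at most `I` (`lintegral_biUnion_finset`), `N → ∞`.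
`fr_segs`: the four sides of the square, the three sides of the triangle.  `sk_null`: `Kx.in_face`, `Kx.countable`, `Ch.Of.cl_eq`, `closure U = U ∪ frontier U`, `U` is a countable union of closed balls (`TopologicalSpace.isOpen_sUnion_countable`-like, or `countable_cover_nhdsWithin`);
on a side `v` and `γ` are integrable by `FIn.bd`, `lint_seg`, `lint_fin`. -/

open Set Metric Filter Topology Function BEv MeasureTheory
open scoped NNReal ENNReal

noncomputable section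
namespace BEp

variable {ι : Type} {Ω : Set (Rn 3)} {K K' : Kx Ω} {f : Rn 3 → Rn 3} {d : SD ι} {p C0 C1 g cm : ℝ}
  {CT Cf : (Rn 3 ≃L[ℝ] Rn 3) → ℝ} {T : TS} {u sc : Rn 3 → ℝ}

theorem null_curve {k : ℝ → Rn 3} {γ : ℝ → ℝ≥0∞} (fin : ∫⁻ x in Icc (0 : ℝ) 1, γ x ≠ ⊤)
    (h : ∀ s s', 0 ≤ s → s ≤ s' → s' ≤ 1 → ‖k s' - k s‖ₑ ≤ ∫⁻ x in Icc s s', γ x) :
    volume (k '' Icc 0 1) = 0 := by
  obtain ⟨Φ, hΦ⟩ : ∃ Φ : ℝ → ℝ, Φ = fun s => (∫⁻ x in Icc 0 s, γ x).toReal := ⟨_, rfl⟩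
  have k1 : ∀ s ∈ Icc (0 : ℝ) 1, ∀ s' ∈ Icc (0 : ℝ) 1, s ≤ s' → ‖k s' - k s‖ ≤ Φ s' - Φ s := by
    intro s hs s' hs' e
    have a := NLn_add γ hs.1 e
    have b : ∫⁻ x in Icc 0 s', γ x ≠ ⊤ :=
      ne_top_of_le_ne_top fin (lintegral_mono_set (Icc_subset_Icc_right hs'.2))
    rw [← a, ENNReal.add_ne_top] at b
    have c := ENNReal.toReal_mono b.2 (h s s' hs.1 e hs'.2)
    rw [toReal_enorm] at c
    simp only [hΦ]
    rw [← a, ENNReal.toReal_add b.1 b.2]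
    linarith
  have k2 : ∀ s ∈ Icc (0 : ℝ) 1, ∀ s' ∈ Icc (0 : ℝ) 1, dist (k s) (k s') ≤ dist (Φ s) (Φ s') := by
    intro s hs s' hs'
    rw [dist_eq_norm, Real.dist_eq]
    rcases le_total s s' with e | e
    · rw [norm_sub_rev, abs_sub_comm]
      exact (k1 s hs s' hs' e).trans (le_abs_self _)
    · exact (k1 s' hs' s hs e).trans (le_abs_self _)
  have hl : LipschitzOnWith 1 (fun y => k (invFunOn Φ (Icc 0 1) y)) (Φ '' Icc 0 1) := by
    refine LipschitzOnWith.of_dist_le_mul fun y hy y' hy' => ?_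
    have := k2 _ (invFunOn_mem hy) _ (invFunOn_mem hy')
    rw [invFunOn_eq hy, invFunOn_eq hy'] at this
    simpa using this
  have hs : k '' Icc 0 1 ⊆ (fun y => k (invFunOn Φ (Icc 0 1) y)) '' (Φ '' Icc 0 1) := by
    rintro _ ⟨s, hs, rfl⟩
    have hy : Φ s ∈ Φ '' Icc 0 1 := mem_image_of_mem _ hs
    have := k2 _ (invFunOn_mem hy) _ hs
    rw [invFunOn_eq hy, dist_self] at this
    exact ⟨Φ s, hy, dist_le_zero.1 this⟩
  have h0 : μH[((3 : ℝ≥0) : ℝ)] (Φ '' Icc 0 1) = 0 :=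
    hausdorffMeasure_of_dimH_lt (((dimH_mono (subset_univ _)).trans_eq Real.dimH_univ).trans_lt
      (by norm_num))
  have h1 := hl.hausdorffMeasure_image_le (d := ((3 : ℝ≥0) : ℝ)) (by norm_num)
  rw [h0, mul_zero] at h1
  have e : ((3 : ℝ≥0) : ℝ) = (Fintype.card (Fin 3) : ℝ) := by simp
  rw [e, hausdorffMeasure_pi_real] at h1
  exact measure_mono_null hs (le_zero_iff.1 h1)

theorem SNull_cut (c : Rn 2) {R : ℝ} (hR : 0 < R) (N : ℕ) : ∃ z : (Fin 2 → Fin (N + 1)) → Rn 2,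
    (∀ i, R / (N + 1) + dist (z i) c ≤ R) ∧
    (∀ i j, i ≠ j → R / (N + 1) + R / (N + 1) ≤ dist (z i) (z j)) ∧
    closedBall c R ⊆ ⋃ i, closedBall (z i) (R / (N + 1)) := by
  obtain ⟨r, hr⟩ : ∃ r : ℝ, r = R / (N + 1) := ⟨_, rfl⟩
  have N0 : (0 : ℝ) ≤ N := Nat.cast_nonneg _
  have r0 : 0 < r := by rw [hr]; positivity
  have e : R = (N + 1) * r := by rw [hr]; field_simp
  rw [← hr]
  refine ⟨fun i l => c l - R + (2 * (i l : ℕ) + 1) * r, fun i => ?_, fun i j hij => ?_,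
    fun ξ hξ => ?_⟩
  · rw [← le_sub_iff_add_le']
    refine (dist_pi_le_iff (by linarith only [e, r0, mul_nonneg_of_nonpos_of_nonpos (Mathlib.Tactic.Linarith.sub_nonpos_of_le (Mathlib.Tactic.Linarith.natCast_nonneg ℝ N)) (le_of_lt (Mathlib.Tactic.Linarith.sub_neg_of_lt r0))])).2 fun l => ?_
    have a : ((i l : ℕ) : ℝ) ≤ N := by exact_mod_cast Nat.lt_succ_iff.1 (i l).2
    have b : (0 : ℝ) ≤ (i l : ℕ) := Nat.cast_nonneg _
    rw [Real.dist_eq, abs_le]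
    constructor <;> (refine le_of_not_gt fun h_nl => ?_; linarith only [h_nl, r0, e, hR, a, mul_nonneg_of_nonpos_of_nonpos (Mathlib.Tactic.Linarith.sub_nonpos_of_le (Mathlib.Tactic.Linarith.natCast_nonneg ℝ ↑(i l))) (le_of_lt (Mathlib.Tactic.Linarith.sub_neg_of_lt r0)), mul_nonneg_of_nonpos_of_nonpos (Mathlib.Tactic.Linarith.sub_nonpos_of_le (Mathlib.Tactic.Linarith.natCast_nonneg ℝ N)) (le_of_lt (Mathlib.Tactic.Linarith.sub_neg_of_lt h_nl)), Mathlib.Tactic.Linarith.mul_zero_eq (Mathlib.Tactic.Linarith.sub_nonpos_of_le (Mathlib.Tactic.Linarith.natCast_nonneg ℝ ↑(i l))) (sub_eq_zero_of_eq e), mul_nonneg_of_nonpos_of_nonpos (le_of_lt (Mathlib.Tactic.Linarith.sub_neg_of_lt hR)) (Mathlib.Tactic.Linarith.sub_nonpos_of_le a)])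
  · obtain ⟨l, hl⟩ := Function.ne_iff.1 hij
    refine le_trans ?_ (dist_le_pi_dist _ _ l)
    rw [Real.dist_eq]
    rcases lt_or_gt_of_ne hl with a | a
    · have b : ((i l : ℕ) : ℝ) + 1 ≤ (j l : ℕ) := by exact_mod_cast a
      exact le_abs.2 (Or.inr (by (refine le_of_not_gt fun h_nl => ?_; linarith only [h_nl, e, hR, b, mul_nonneg_of_nonpos_of_nonpos (Mathlib.Tactic.Linarith.sub_nonpos_of_le (Mathlib.Tactic.Linarith.natCast_nonneg ℝ N)) (le_of_lt (Mathlib.Tactic.Linarith.sub_neg_of_lt h_nl)), Mathlib.Tactic.Linarith.mul_zero_eq (Mathlib.Tactic.Linarith.sub_nonpos_of_le (Mathlib.Tactic.Linarith.natCast_nonneg ℝ ↑(i l))) (sub_eq_zero_of_eq e), Mathlib.Tactic.Linarith.mul_zero_eq (Mathlib.Tactic.Linarith.sub_nonpos_of_le (Mathlib.Tactic.Linarith.natCast_nonneg ℝ ↑(j l))) (sub_eq_zero_of_eq e), mul_nonneg_of_nonpos_of_nonpos (le_of_lt (Mathlib.Tactic.Linarith.sub_neg_of_lt hR)) (Mathlib.Tactic.Linarith.sub_nonpos_of_le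 b)])))
    · have b : ((j l : ℕ) : ℝ) + 1 ≤ (i l : ℕ) := by exact_mod_cast a
      exact le_abs.2 (Or.inl (by (refine le_of_not_gt fun h_nl => ?_; linarith only [h_nl, e, hR, b, mul_nonneg_of_nonpos_of_nonpos (Mathlib.Tactic.Linarith.sub_nonpos_of_le (Mathlib.Tactic.Linarith.natCast_nonneg ℝ N)) (le_of_lt (Mathlib.Tactic.Linarith.sub_neg_of_lt h_nl)), Mathlib.Tactic.Linarith.mul_zero_eq (Mathlib.Tactic.Linarith.sub_nonpos_of_le (Mathlib.Tactic.Linarith.natCast_nonneg ℝ ↑(j l))) (sub_eq_zero_of_eq e), Mathlib.Tactic.Linarith.mul_zero_eq (Mathlib.Tactic.Linarith.sub_nonpos_of_le (Mathlib.Tactic.Linarith.natCast_nonneg ℝ ↑(i l))) (sub_eq_zero_of_eq e), mul_nonneg_of_nonpos_of_nonpos (le_of_lt (Mathlib.Tactic.Linarith.sub_neg_of_lt hR)) (Mathlib.Tactic.Linarith.sub_nonpos_of_le b)])))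
  · have a : ∀ l, ∃ m : Fin (N + 1), |ξ l - (c l - R + (2 * (m : ℕ) + 1) * r)| ≤ r := by
      intro l
      have b := abs_le.1 ((Real.dist_eq _ _).symm.trans_le ((dist_le_pi_dist ξ c l).trans hξ))
      obtain ⟨t, ht⟩ : ∃ t : ℝ, t = (ξ l - c l + R) / (2 * r) := ⟨_, rfl⟩
      have t1 : ξ l - c l + R = t * (2 * r) := by rw [ht]; field_simp
      have t0 : 0 ≤ t := by rw [ht]; exact div_nonneg (by linarith only [b, b.1]) (by linarith)
      by_cases q : ⌊t⌋₊ < N + 1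
      · refine ⟨⟨⌊t⌋₊, q⟩, abs_le.2 ⟨?_, ?_⟩⟩
        · show -r ≤ ξ l - (c l - R + (2 * (⌊t⌋₊ : ℝ) + 1) * r)
          linarith only [t1, r0, t0, Nat.floor_le t0, mul_nonneg_of_nonpos_of_nonpos (le_of_lt (Mathlib.Tactic.Linarith.sub_neg_of_lt r0)) (Mathlib.Tactic.Linarith.sub_nonpos_of_le (Nat.floor_le t0))]
        · show ξ l - (c l - R + (2 * (⌊t⌋₊ : ℝ) + 1) * r) ≤ r
          linarith only [t1, r0, Nat.lt_floor_add_one t, mul_pos_of_neg_of_neg (Mathlib.Tactic.Linarith.sub_neg_of_lt r0) (Mathlib.Tactic.Linarith.sub_neg_of_lt (Nat.lt_floor_add_one t))]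
      · have q' : (N : ℝ) + 1 ≤ t := by
          have : ((N + 1 : ℕ) : ℝ) ≤ ⌊t⌋₊ := by exact_mod_cast not_lt.1 q
          push_cast at this
          linarith only [this, t0, Nat.floor_le t0]
        refine ⟨Fin.last N, abs_le.2 ⟨?_, ?_⟩⟩ <;> rw [Fin.val_last] <;> linarith only [r0, t1, q', e, b, b.2, mul_nonneg_of_nonpos_of_nonpos (le_of_lt (Mathlib.Tactic.Linarith.sub_neg_of_lt r0)) (Mathlib.Tactic.Linarith.sub_nonpos_of_le q')]
    choose m hm using a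
    exact mem_iUnion.2 ⟨m, (dist_pi_le_iff r0.le).2 hm⟩

theorem SNull_vol {p : ℝ} (hp : 0 < p ∧ p < 3) {S : Set (Rn 3)} {y : Rn 3} {D D' : ℝ≥0∞}
    (hD : D ≤ D') (hD' : D' ≠ ⊤) (h : ∀ x ∈ S, ‖x - y‖ₑ ^ p ≤ D) :
    volume S ≤ 8 * D' ^ (3 / p - 1) * D := by
  have p0 := hp.1
  have q0 : 0 ≤ 3 / p - 1 := sub_nonneg.2 ((one_le_div p0).2 hp.2.le)
  have t : D ^ (1 / p) ≠ ⊤ :=
    ENNReal.rpow_ne_top_of_nonneg (by positivity) (ne_top_of_le_ne_top hD' hD)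
  have s : S ⊆ closedBall y (D ^ (1 / p)).toReal := fun x hx => by
    have := ENNReal.toReal_mono t ((ENNReal.le_rpow_inv_iff p0).2 (h x hx) |>.trans_eq
      (by rw [one_div]))
    rwa [toReal_enorm, ← dist_eq_norm] at this
  refine (measure_mono s).trans ?_
  rw [Real.volume_pi_closedBall _ ENNReal.toReal_nonneg, ENNReal.ofReal_pow (by positivity),
    ENNReal.ofReal_mul zero_le_two, ENNReal.ofReal_toReal t, Fintype.card_fin, mul_pow,
    ← ENNReal.rpow_natCast (D ^ (1 / p)), ← ENNReal.rpow_mul,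
    show 1 / p * ((3 : ℕ) : ℝ) = (3 / p - 1) + 1 by push_cast; ring,
    ENNReal.rpow_add_of_nonneg _ _ q0 zero_le_one, ENNReal.rpow_one, ← mul_assoc]
  gcongr
  norm_num

theorem null_sq (hp : 2 < p ∧ p < 3) {k : Rn 2 → Rn 3} {v γ : Rn 2 → ℝ≥0∞} {c : Rn 2} {R : ℝ}
    (hR : 0 < R) (hk : ContinuousOn k (closedBall c R)) (hv : Measurable v) (hγ : Measurable γ)
    (f1 : ∫⁻ ξ in ball c R, v ξ ≠ ⊤) (f2 : ∫⁻ ξ in ball c R, γ ξ ^ p ≠ ⊤)
    (h : ∀ ξ ∈ ball c R, ∀ ξ' ∈ ball c R, ∫⁻ s in Icc (0 : ℝ) 1, v (seg ξ ξ' s) ≠ ⊤ →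
      ‖k ξ' - k ξ‖ₑ ≤ ‖ξ' - ξ‖ₑ * ∫⁻ s in Icc (0 : ℝ) 1, γ (seg ξ ξ' s)) :
    volume (k '' closedBall c R) = 0 := by
  obtain ⟨C, C0, hC⟩ := morrey2 hp.1
  obtain ⟨I, hI⟩ : ∃ I, I = ∫⁻ ξ in ball c R, γ ξ ^ p := ⟨_, rfl⟩
  rw [← hI] at f2
  obtain ⟨D, hD⟩ : ∃ D, D = C * ENNReal.ofReal (R ^ (p - 2)) * I := ⟨_, rfl⟩
  have D0 : D ≠ ⊤ := by
    rw [hD]
    exact ENNReal.mul_ne_top (ENNReal.mul_ne_top C0 ENNReal.ofReal_ne_top) f2
  have p0 : 0 < p := by linarith [hp.1]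
  have q0 : 0 ≤ 3 / p - 1 := sub_nonneg.2 ((one_le_div p0).2 hp.2.le)
  have key : ∀ N : ℕ, volume (k '' closedBall c R) ≤
      8 * D ^ (3 / p - 1) * C * I * ENNReal.ofReal ((R / (N + 1)) ^ (p - 2)) := by
    intro N
    obtain ⟨z, z1, z2, z3⟩ := SNull_cut c hR N
    obtain ⟨r, hr⟩ : ∃ r : ℝ, r = R / (N + 1) := ⟨_, rfl⟩
    rw [← hr] at z1 z2 z3 ⊢
    have r0 : 0 < r := by rw [hr]; positivity
    have rR : r ≤ R := by linarith only [z1, z1 0, dist_nonneg (x := z 0) (y := c)]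
    have b : ∀ i, ball (z i) r ⊆ ball c R := fun i => ball_subset_ball' (z1 i)
    have each : ∀ i, volume (k '' closedBall (z i) r) ≤ 8 * D ^ (3 / p - 1) *
        (C * ENNReal.ofReal (r ^ (p - 2)) * ∫⁻ ξ in ball (z i) r, γ ξ ^ p) := by
      intro i
      refine SNull_vol ⟨p0, hp.2⟩ (y := k (z i)) ?_ D0 ?_
      · rw [hD, hI]
        exact mul_le_mul' (mul_le_mul' le_rfl (ENNReal.ofReal_le_ofReal
          (Real.rpow_le_rpow r0.le rR (by linarith [hp.1])))) (lintegral_mono_set (b i))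
      · rintro _ ⟨ξ, hξ, rfl⟩
        exact hC k v γ (z i) r r0 (hk.mono (closedBall_subset_closedBall' (z1 i))) hv hγ
          (ne_top_of_le_ne_top f1 (lintegral_mono_set (b i)))
          (fun ξ a ξ' a' => h ξ (b i a) ξ' (b i a')) ξ hξ _ (mem_closedBall_self r0.le)
    have sum : ∑' i, ∫⁻ ξ in ball (z i) r, γ ξ ^ p ≤ I := by
      rw [← lintegral_iUnion (fun _ => measurableSet_ball)
        (fun i j e => ball_disjoint_ball (z2 i j e)), hI]
      exact lintegral_mono_set (iUnion_subset b)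
    calc _ ≤ volume (⋃ i, k '' closedBall (z i) r) := by
          rw [← image_iUnion]
          exact measure_mono (image_mono z3)
      _ ≤ ∑' i, volume (k '' closedBall (z i) r) := measure_iUnion_le _
      _ ≤ _ := ENNReal.tsum_le_tsum each
      _ = 8 * D ^ (3 / p - 1) *
          (C * ENNReal.ofReal (r ^ (p - 2)) * ∑' i, ∫⁻ ξ in ball (z i) r, γ ξ ^ p) := by
          rw [ENNReal.tsum_mul_left, ENNReal.tsum_mul_left]
      _ ≤ 8 * D ^ (3 / p - 1) * (C * ENNReal.ofReal (r ^ (p - 2)) * I) := by gcongr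
      _ = _ := by ring
  have t1 : Tendsto (fun N : ℕ => R / ((N : ℝ) + 1)) atTop (𝓝 0) :=
    tendsto_const_nhds.div_atTop (tendsto_natCast_atTop_atTop.atTop_add tendsto_const_nhds)
  have t2 := ENNReal.tendsto_ofReal
    ((Real.continuousAt_rpow_const 0 (p - 2) (Or.inr (by linarith only [hp, hp.1]))).tendsto.comp t1)
  rw [Real.zero_rpow (by linarith [hp.1]), ENNReal.ofReal_zero] at t2
  have t3 := ENNReal.Tendsto.const_mul (a := 8 * D ^ (3 / p - 1) * C * I) t2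
    (Or.inr (ENNReal.mul_ne_top (ENNReal.mul_ne_top (ENNReal.mul_ne_top (by norm_num)
      (ENNReal.rpow_ne_top_of_nonneg q0 D0)) C0) f2))
  rw [mul_zero] at t3
  exact le_zero_iff.1 (ge_of_tendsto' t3 key)

theorem SNull_seg (a b ξ : Rn 2) : ξ ∈ segment ℝ a b ↔
    ∃ t : ℝ, 0 ≤ t ∧ t ≤ 1 ∧ ξ 0 = a 0 + t * (b 0 - a 0) ∧ ξ 1 = a 1 + t * (b 1 - a 1) := by
  rw [segment_eq_image']
  constructor
  · rintro ⟨t, ht, rfl⟩
    exact ⟨t, ht.1, ht.2, rfl, rfl⟩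
  · rintro ⟨t, t0, t1, e0, e1⟩
    exact ⟨t, ⟨t0, t1⟩, funext (Fin.forall_fin_two.2 ⟨e0.symm, e1.symm⟩)⟩

theorem SNull_cl {U : Set (Rn 2)} {ξ : Rn 2} (o : Rn 2)
    (h : ∀ t : ℝ, 0 < t → t < 1 → ξ + t • (o - ξ) ∈ U) : ξ ∈ closure U := by
  have c : Continuous fun t : ℝ => ξ + t • (o - ξ) := by fun_prop
  have t : Tendsto (fun t : ℝ => ξ + t • (o - ξ)) (𝓝[>] 0) (𝓝 ξ) := by
    simpa using (c.tendsto 0).mono_left (nhdsWithin_le_nhds (s := Ioi 0))
  exact mem_closure_of_tendsto t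
    (Filter.mem_of_superset (Ioo_mem_nhdsGT one_pos) fun t ht => h t ht.1 ht.2)

theorem SNull_sqr {w : ℝ} (hw : 0 < w) (ξ : Rn 2) : ξ ∈ frontier (sqr w) ↔
    (0 ≤ ξ 0 ∧ ξ 0 ≤ w ∧ 0 ≤ ξ 1 ∧ ξ 1 ≤ w) ∧ (ξ 1 = 0 ∨ ξ 0 = 0 ∨ ξ 0 = w ∨ ξ 1 = w) := by
  have e : sqr w = {ξ | (0 < ξ 0 ∧ ξ 0 < w) ∧ 0 < ξ 1 ∧ ξ 1 < w} := by
    ext ξ
    exact Fin.forall_fin_two
  have o : IsOpen (sqr w) := by
    rw [e]
    exact ((isOpen_lt continuous_const (continuous_apply 0)).inter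
      (isOpen_lt (continuous_apply 0) continuous_const)).inter
      ((isOpen_lt continuous_const (continuous_apply 1)).inter
        (isOpen_lt (continuous_apply 1) continuous_const))
  have c : IsClosed {ξ : Rn 2 | 0 ≤ ξ 0 ∧ ξ 0 ≤ w ∧ 0 ≤ ξ 1 ∧ ξ 1 ≤ w} :=
    (isClosed_le continuous_const (continuous_apply 0)).inter
      ((isClosed_le (continuous_apply 0) continuous_const).inter
      ((isClosed_le continuous_const (continuous_apply 1)).inter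
        (isClosed_le (continuous_apply 1) continuous_const)))
  rw [o.frontier_eq, e]
  constructor
  · rintro ⟨a, b⟩
    obtain ⟨a1, a2, a3, a4⟩ := closure_minimal
      (fun ξ k => by exact ⟨k.1.1.le, k.1.2.le, k.2.1.le, k.2.2.le⟩) c a
    refine ⟨⟨a1, a2, a3, a4⟩, ?_⟩
    by_contra q
    simp only [not_or] at q
    exact b ⟨⟨lt_of_le_of_ne a1 (Ne.symm q.2.1), lt_of_le_of_ne a2 q.2.2.1⟩,
      lt_of_le_of_ne a3 (Ne.symm q.1), lt_of_le_of_ne a4 q.2.2.2⟩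
  · rintro ⟨⟨a1, a2, a3, a4⟩, b⟩
    refine ⟨SNull_cl (fun _ => w / 2) fun t t0 t1 => ?_, fun k => ?_⟩
    · simp only [mem_ofPred_eq, Pi.add_apply, Pi.smul_apply, Pi.sub_apply, smul_eq_mul]
      refine ⟨⟨?_, ?_⟩, ?_, ?_⟩ <;> linarith only [t0, hw, a1, t1, a2, a3, a4, mul_pos t0 hw, mul_nonneg_of_nonpos_of_nonpos (Mathlib.Tactic.Linarith.sub_nonpos_of_le a1) (le_of_lt (Mathlib.Tactic.Linarith.sub_neg_of_lt t1)), mul_nonneg_of_nonpos_of_nonpos (Mathlib.Tactic.Linarith.sub_nonpos_of_le a2) (le_of_lt (Mathlib.Tactic.Linarith.sub_neg_of_lt t1)), mul_nonneg_of_nonpos_of_nonpos (Mathlib.Tactic.Linarith.sub_nonpos_of_le a3) (le_of_lt (Mathlib.Tactic.Linarith.sub_neg_of_lt t1)), mul_nonneg_of_nonpos_of_nonpos (Mathlib.Tactic.Linarith.sub_nonpos_of_le a4) (le_of_lt (Mathlib.Tactic.Linarith.sub_neg_of_lt t1))]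
    · rcases b with b | b | b | b <;> linarith only [b, k, k.1.1, k.1.2, k.2.1, k.2.2]

theorem SNull_trg {w : ℝ} (hw : 0 < w) (ξ : Rn 2) : ξ ∈ frontier (trg w) ↔
    (0 ≤ ξ 0 ∧ 0 ≤ ξ 1 ∧ ξ 0 + ξ 1 ≤ w) ∧ (ξ 1 = 0 ∨ ξ 0 = 0 ∨ ξ 0 + ξ 1 = w) := by
  have s : Continuous fun ξ : Rn 2 => ξ 0 + ξ 1 := (continuous_apply 0).add (continuous_apply 1)
  have o : IsOpen (trg w) := (isOpen_lt continuous_const (continuous_apply 0)).inter
    ((isOpen_lt continuous_const (continuous_apply 1)).inter (isOpen_lt s continuous_const))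
  have c : IsClosed {ξ : Rn 2 | 0 ≤ ξ 0 ∧ 0 ≤ ξ 1 ∧ ξ 0 + ξ 1 ≤ w} :=
    (isClosed_le continuous_const (continuous_apply 0)).inter
      ((isClosed_le continuous_const (continuous_apply 1)).inter (isClosed_le s continuous_const))
  rw [o.frontier_eq]
  constructor
  · rintro ⟨a, b⟩
    obtain ⟨a1, a2, a3⟩ := closure_minimal (fun ξ k => by exact ⟨k.1.le, k.2.1.le, k.2.2.le⟩) c a
    refine ⟨⟨a1, a2, a3⟩, ?_⟩
    by_contra q
    simp only [not_or] at q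
    exact b ⟨lt_of_le_of_ne a1 (Ne.symm q.2.1), lt_of_le_of_ne a2 (Ne.symm q.1),
      lt_of_le_of_ne a3 q.2.2⟩
  · rintro ⟨⟨a1, a2, a3⟩, b⟩
    refine ⟨SNull_cl (fun _ => w / 4) fun t t0 t1 => ?_, fun k => ?_⟩
    · simp only [trg, mem_ofPred_eq, Pi.add_apply, Pi.smul_apply, Pi.sub_apply, smul_eq_mul]
      refine ⟨?_, ?_, ?_⟩ <;> linarith only [t0, hw, a1, t1, a2, a3, mul_pos t0 hw, mul_nonneg_of_nonpos_of_nonpos (Mathlib.Tactic.Linarith.sub_nonpos_of_le a1) (le_of_lt (Mathlib.Tactic.Linarith.sub_neg_of_lt t1)), mul_nonneg_of_nonpos_of_nonpos (Mathlib.Tactic.Linarith.sub_nonpos_of_le a2) (le_of_lt (Mathlib.Tactic.Linarith.sub_neg_of_lt t1)), mul_nonneg_of_nonpos_of_nonpos (Mathlib.Tactic.Linarith.sub_nonpos_of_le a3) (le_of_lt (Mathlib.Tactic.Linarith.sub_neg_of_lt t1))]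
    · rcases b with b | b | b <;> linarith only [b, k, k.1, k.2.1, k.2.2]

theorem fr_segs {c : Ch} {w : ℝ} (h : c.Shp w) : ∃ S : Set (Rn 2 × Rn 2), S.Finite ∧
    (∀ q ∈ S, q.1 ≠ q.2 ∧ segment ℝ q.1 q.2 ⊆ frontier c.U) ∧
    frontier c.U ⊆ ⋃ q ∈ S, segment ℝ q.1 q.2 := by
  obtain ⟨hw, e | e⟩ := h
  all_goals
    rw [e]
    have dv : ∀ x, 0 ≤ x → x ≤ w → 0 ≤ x / w ∧ x / w ≤ 1 ∧ x = x / w * w := fun x a b =>
      ⟨div_nonneg a hw.le, (div_le_one hw).2 b, (div_mul_cancel₀ x hw.ne').symm⟩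
    have ne : ∀ a b : Rn 2, a 0 ≠ b 0 ∨ a 1 ≠ b 1 → a ≠ b := fun a b k q => by simp [q] at k
  · refine ⟨{(![0, 0], ![w, 0]), (![0, 0], ![0, w]), (![w, 0], ![w, w]), (![0, w], ![w, w])},
      toFinite _, fun q hq => ?_, fun ξ hξ => ?_⟩
    · rcases hq with rfl | rfl | rfl | rfl <;>
        refine ⟨ne _ _ (by simp [hw.ne]), fun ξ hξ => ?_⟩ <;>
        obtain ⟨t, t0, t1, e0, e1⟩ := (SNull_seg _ _ _).1 hξ <;>
        rw [SNull_sqr hw, e0, e1] <;>
        simp [hw.le, mul_nonneg t0 hw.le, mul_le_of_le_one_left hw.le t1]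
    · obtain ⟨⟨a1, a2, a3, a4⟩, b⟩ := (SNull_sqr hw ξ).1 hξ
      obtain ⟨u0, u1, u2⟩ := dv _ a1 a2
      obtain ⟨v0, v1, v2⟩ := dv _ a3 a4
      simp only [biUnion_insert, biUnion_singleton, mem_union, SNull_seg]
      rcases b with b | b | b | b
      · exact Or.inl ⟨_, u0, u1, by simpa using u2, by simpa using b⟩
      · exact Or.inr (Or.inl ⟨_, v0, v1, by simpa using b, by simpa using v2⟩)
      · exact Or.inr (Or.inr (Or.inl ⟨_, v0, v1, by simpa using b, by simpa using v2⟩))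
      · exact Or.inr (Or.inr (Or.inr ⟨_, u0, u1, by simpa using u2, by simpa using b⟩))
  · refine ⟨{(![0, 0], ![w, 0]), (![0, 0], ![0, w]), (![w, 0], ![0, w])},
      toFinite _, fun q hq => ?_, fun ξ hξ => ?_⟩
    · rcases hq with rfl | rfl | rfl <;>
        refine ⟨ne _ _ (by simp [hw.ne, hw.ne']), fun ξ hξ => ?_⟩ <;>
        obtain ⟨t, t0, t1, e0, e1⟩ := (SNull_seg _ _ _).1 hξ <;>
        rw [SNull_trg hw, e0, e1] <;>
        simp [mul_nonneg t0 hw.le, mul_le_of_le_one_left hw.le t1]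
    · obtain ⟨⟨a1, a2, a3⟩, b⟩ := (SNull_trg hw ξ).1 hξ
      obtain ⟨u0, u1, u2⟩ := dv _ a1 (by linarith)
      obtain ⟨v0, v1, v2⟩ := dv _ a2 (by linarith only [a1, a3])
      simp only [biUnion_insert, biUnion_singleton, mem_union, SNull_seg]
      rcases b with b | b | b
      · exact Or.inl ⟨_, u0, u1, by simpa using u2, by simpa using b⟩
      · exact Or.inr (Or.inl ⟨_, v0, v1, by simpa using b, by simpa using v2⟩)
      · refine Or.inr (Or.inr ⟨_, v0, v1, ?_, by simpa using v2⟩)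
        show ξ 0 = w + ξ 1 / w * (0 - w)
        linarith only [v2, b, a3]

theorem sk_null (hp : 2 < p ∧ p < 3) (h : SIn p C1 g Cf K f d) : volume (f '' K.sk 2) = 0 := by
  have cov : f '' K.sk 2 ⊆ ⋃ F ∈ K.cel 2, f '' closure F := by
    rintro _ ⟨x, hx, rfl⟩
    obtain ⟨F, hF, k⟩ := Kx.in_face h.opn hx
    exact mem_iUnion₂.2 ⟨F, hF, x, k (K.mem x hx.1), rfl⟩
  refine measure_mono_null cov ((measure_biUnion_null_iff
    ((K.countable h.opn).mono fun σ k => k.1)).2 fun F hF => ?_)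
  obtain ⟨o, shp, fi, -⟩ := h.face F hF
  generalize d.ch F = c at o shp fi
  generalize d.γ F = γ at fi
  have cn : ContinuousOn (fun ξ => f (c.φ ξ)) (closure c.U) :=
    h.cont.comp c.cont.continuousOn fun ξ k => (o.sk hF k).1
  rw [← o.cl_eq, image_image, closure_eq_self_union_frontier, image_union]
  refine measure_union_null ?_ ?_
  · choose! r r0 hr using fun ξ (k : ξ ∈ c.U) =>
      nhds_basis_closedBall.mem_iff.1 (o.2.1.mem_nhds k)
    obtain ⟨S, s1, s2, s3⟩ := TopologicalSpace.countable_cover_nhdsWithin (s := c.U)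
      (f := fun ξ => closedBall ξ (r ξ))
      fun ξ k => mem_nhdsWithin_of_mem_nhds (closedBall_mem_nhds ξ (r0 ξ k))
    refine measure_mono_null (image_mono s3) ?_
    rw [image_iUnion₂]
    refine (measure_biUnion_null_iff s2).2 fun ξ k => ?_
    have b : ball ξ (r ξ) ⊆ c.U := ball_subset_closedBall.trans (hr ξ (s1 k))
    have fin := ne_top_of_le_ne_top fi.fin (lintegral_mono_set b)
    refine null_sq hp (v := fun ξ => d.v (c.φ ξ)) (γ := γ) (r0 ξ (s1 k))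
      (cn.mono ((hr ξ (s1 k)).trans subset_closure)) (h.mv.comp c.cont.measurable) fi.mγ
      (ne_top_of_le_ne_top fin (lintegral_mono fun _ => le_self_add))
      (ne_top_of_le_ne_top fin (lintegral_mono fun _ => le_add_self)) fun a ha a' ha' q => ?_
    simpa [seg] using fi.ug a (subset_closure (b ha)) a' (subset_closure (b ha')) q 0 1 le_rfl
      zero_le_one le_rfl
  · obtain ⟨S, s1, s2, s3⟩ := fr_segs shp
    refine measure_mono_null (image_mono s3) ?_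
    rw [image_iUnion₂]
    refine (measure_biUnion_null_iff s1.countable).2 fun q k => ?_
    obtain ⟨ne, sub⟩ := s2 q k
    have fin := ne_top_of_le_ne_top fi.bd
      (lintegral_mono_set ((openSegment_subset_segment _ _ _).trans sub))
    rw [lint_seg] at fin
    have fin' := ne_top_of_lt (ENNReal.lt_top_of_mul_ne_top_right fin
      (enorm_ne_zero.2 (sub_ne_zero.2 ne.symm)))
    have ug := fi.ug q.1 (frontier_subset_closure (sub (left_mem_segment _ _ _))) q.2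
      (frontier_subset_closure (sub (right_mem_segment _ _ _)))
      (ne_top_of_le_ne_top fin' (lintegral_mono fun _ => le_self_add))
    have g1 : ∫⁻ x in Icc (0 : ℝ) 1, γ (seg q.1 q.2 x) ≠ ⊤ :=
      lint_fin (p := p) (by linarith only [hp, hp.1]) (by simp)
        (ne_top_of_le_ne_top fin' (lintegral_mono fun _ => le_add_self))
    rw [segment_eq_image', image_image]
    refine null_curve (γ := fun x => ‖q.2 - q.1‖ₑ * γ (seg q.1 q.2 x)) ?_ fun s s' a b e => ?_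
    · rw [lintegral_const_mul' _ _ enorm_ne_top]
      exact ENNReal.mul_ne_top enorm_ne_top g1
    · rw [lintegral_const_mul' _ _ enorm_ne_top]
      exact ug s s' a b e

end BEp
end
end

-- merged part: Pool.Agent.Work.MP_f0515e_an.P3.SGr2
section
/-! The grid of wires in the plane.
Plan.  `kbS_ineq`, `kbS_iff`.  Off the wires both quotients are not integers, the ceilings are the floors plus one and the cell is the open box `u + i h < η 0 < u + (i + 1) h`, `-u + j h < η 1 < -u + (j + 1) h`.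
`wr_null`: countable union of lines (`Measure.pi_hyperplane`).  `wc_mult`: the set is contained in the image of `{⌊a⌋, ⌊a⌋ - 1} ×ˢ {⌊b⌋, ⌊b⌋ - 1}` under `(i, j) ↦ box i j`.
`wc_rd`: with `a = u + i h`, `b = -u + j h` take the centre `![max a 0 + h / 16, max b 0 + h / 16]`; from `ξ ∈ U`: `-1 ≤ i ≤ k - 1`, `0 ≤ j ≤ k`, and `i + j + 1 ≤ k` for the triangle. -/

open Set Metric Filter Topology Function BEv MeasureTheory
open scoped NNReal ENNReal

noncomputable section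
namespace BEp

variable {h u w : ℝ} {ξ η : Rn 2}

theorem SGr2_wr (h u : ℝ) : Wr h u =
    (⋃ i : ℤ, {ξ | ξ 0 = u + i * h}) ∪ ⋃ i : ℤ, {ξ | ξ 1 = -u + i * h} := by
  ext ξ
  simp only [Wr, mem_ofPred_eq, mem_union, mem_iUnion]

theorem SGr2_one (h0 : 0 < h) {x a : ℝ} (hx : ¬ ∃ i : ℤ, x = a + i * h) : ∃ i : ℤ, ∀ y,
    kbS ((x - a) / h) ((y - a) / h) ↔ a + i * h < y ∧ y < a + i * h + h := by
  refine ⟨⌊(x - a) / h⌋, fun y => ?_⟩
  have e : ⌈(x - a) / h⌉ = ⌊(x - a) / h⌋ + 1 := by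
    refine (Int.ceil_eq_floor_add_one_iff_notMem _).2 ?_
    rintro ⟨i, hi⟩
    refine hx ⟨i, ?_⟩
    rw [hi]
    field_simp
    ring
  rw [kbS_ineq, e]
  push_cast
  simp only [add_sub_cancel_right, le_div_iff₀ h0, lt_div_iff₀ h0, div_le_iff₀ h0, div_lt_iff₀ h0]
  constructor
  · rintro ⟨⟨-, k1⟩, k2, -⟩
    constructor <;> linarith only [k2, k1]
  · rintro ⟨k1, k2⟩
    refine ⟨⟨?_, ?_⟩, ?_, ?_⟩ <;> linarith only [k1, k2]

/-- Open box of the grid. -/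
def SGr2B (h u : ℝ) (i j : ℤ) : Set (Rn 2) :=
  {η | (u + i * h < η 0 ∧ η 0 < u + i * h + h) ∧ (-u + j * h < η 1 ∧ η 1 < -u + j * h + h)}

theorem SGr2_eq (h0 : 0 < h) (k : ξ ∉ Wr h u) : ∃ i j, wc h u ξ = SGr2B h u i j := by
  obtain ⟨i, hi⟩ := SGr2_one h0 (not_or.1 k).1
  obtain ⟨j, hj⟩ := SGr2_one h0 (not_or.1 k).2
  simp only [sub_neg_eq_add] at hj
  exact ⟨i, j, Set.ext fun η => and_congr (hi _) (hj _)⟩

theorem SGr2_sign (h0 : 0 < h) (x y a : ℝ) : kbS ((x - a) / h) ((y - a) / h) ↔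
    ∀ m : ℤ, SignType.sign (y - (a + m * h)) = SignType.sign (x - (a + m * h)) := by
  rw [kbS_iff]
  refine forall_congr' fun m => ?_
  simp only [le_div_iff₀ h0, div_le_iff₀ h0, ← sub_sub]
  generalize y - a = s
  generalize x - a = t
  generalize m * h = c
  have a : ∀ s : ℝ, (c ≤ s ↔ 0 ≤ SignType.sign (s - c)) ∧ (s ≤ c ↔ SignType.sign (s - c) ≤ 0) :=
    fun s => by simp only [sign_nonneg_iff, sign_nonpos_iff, sub_nonneg, sub_nonpos, and_self]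
  rw [(a s).1, (a s).2, (a t).1, (a t).2]
  generalize SignType.sign (s - c) = p
  generalize SignType.sign (t - c) = q
  revert p q
  decide

theorem wr_meas (h u : ℝ) : MeasurableSet (Wr h u) := by
  rw [SGr2_wr]
  refine (MeasurableSet.iUnion fun i => ?_).union (MeasurableSet.iUnion fun i => ?_) <;>
    exact (isClosed_eq (continuous_apply _) continuous_const).measurableSet

theorem wr_null (h u : ℝ) : volume (Wr h u) = 0 := by
  rw [SGr2_wr]
  refine measure_union_null (measure_iUnion_null fun i => ?_) (measure_iUnion_null fun i => ?_) <;>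
    exact Measure.pi_hyperplane _ _ _

theorem wc_self : ξ ∈ wc h u ξ := ⟨⟨rfl, rfl⟩, rfl, rfl⟩

theorem wc_near (h0 : 0 < h) (k : η ∈ closure (wc h u ξ)) : ‖η - ξ‖ ≤ h := by
  have a : ∀ x y : ℝ, kbS (x / h) (y / h) → |y - x| ≤ h := fun x y k => by
    have := Int.abs_sub_lt_one_of_floor_eq_floor k.1
    rw [← sub_div, abs_div, abs_of_pos h0, div_lt_one h0] at this
    exact this.le
  refine mem_closedBall_iff_norm.1 (closure_minimal (fun z hz => ?_) isClosed_closedBall k)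
  rw [mem_closedBall_iff_norm, pi_norm_le_iff_of_nonneg h0.le, Fin.forall_fin_two]
  exact ⟨by simpa using a _ _ hz.1, by simpa using a _ _ hz.2⟩

theorem wc_open (h0 : 0 < h) (k : ξ ∉ Wr h u) : IsOpen (wc h u ξ) := by
  obtain ⟨i, j, e⟩ := SGr2_eq h0 k
  rw [e, SGr2B]
  simp only [ofPred_and]
  refine ((isOpen_lt ?_ ?_).inter (isOpen_lt ?_ ?_)).inter
    ((isOpen_lt ?_ ?_).inter (isOpen_lt ?_ ?_)) <;> fun_prop

theorem wc_line (h0 : 0 < h) (k : ξ ∈ Wr h u) : dm (wc h u ξ) ≤ 1 := by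
  have a : ∀ (x y a : ℝ) (i : ℤ), x = a + i * h → kbS ((x - a) / h) ((y - a) / h) → y = x := by
    intro x y a i e k
    have := (SGr2_sign h0 x y a).1 k i
    rwa [← e, sub_self, sign_zero, sign_eq_zero_iff, sub_eq_zero] at this
  refine collinear_iff_finrank_le_one.1 ((collinear_iff_of_mem wc_self).2 ?_)
  rcases k with ⟨i, e⟩ | ⟨i, e⟩
  · refine ⟨![0, 1], fun z hz => ⟨z 1 - ξ 1, funext fun l => ?_⟩⟩
    fin_cases l <;> simp [a _ _ _ i e hz.1]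
  · refine ⟨![1, 0], fun z hz => ⟨z 0 - ξ 0, funext fun l => ?_⟩⟩
    have := a (ξ 1) (z 1) _ i e (by simpa only [sub_neg_eq_add] using hz.2)
    fin_cases l <;> simp [this]

theorem wc_mult (h0 : 0 < h) (ξ : Rn 2) :
    {A | (∃ η, η ∉ Wr h u ∧ A = wc h u η) ∧ ξ ∈ closure A}.encard ≤ 4 := by
  have a : ∀ (x a : ℝ) (i : ℤ), a + i * h ≤ x → x ≤ a + i * h + h →
      i = ⌊(x - a) / h⌋ ∨ i = ⌊(x - a) / h⌋ - 1 := fun x a i k1 k2 => by
    have l1 : i ≤ ⌊(x - a) / h⌋ := Int.le_floor.2 ((le_div_iff₀ h0).2 (by linarith))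
    have l2 : ⌊(x - a) / h⌋ < i + 2 := Int.floor_lt.2 ((div_lt_iff₀ h0).2 (by push_cast; linarith))
    omega
  refine (encard_le_encard (t := (fun q : ℤ × ℤ => SGr2B h u q.1 q.2) ''
    ({⌊(ξ 0 - u) / h⌋, ⌊(ξ 0 - u) / h⌋ - 1} ×ˢ {⌊(ξ 1 - -u) / h⌋, ⌊(ξ 1 - -u) / h⌋ - 1})) ?_).trans
      ((encard_image_le _ _).trans ?_)
  · rintro A ⟨⟨η, k, rfl⟩, l⟩
    obtain ⟨i, j, e⟩ := SGr2_eq h0 k
    rw [e] at l ⊢
    have m : ξ ∈ {η : Rn 2 | (u + i * h ≤ η 0 ∧ η 0 ≤ u + i * h + h) ∧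
        (-u + j * h ≤ η 1 ∧ η 1 ≤ -u + j * h + h)} := by
      refine closure_minimal (fun z hz => ?_) ?_ l
      · exact ⟨⟨hz.1.1.le, hz.1.2.le⟩, hz.2.1.le, hz.2.2.le⟩
      simp only [ofPred_and]
      refine ((isClosed_le ?_ ?_).inter (isClosed_le ?_ ?_)).inter
        ((isClosed_le ?_ ?_).inter (isClosed_le ?_ ?_)) <;> fun_prop
    exact ⟨(i, j), ⟨a _ _ _ m.1.1 m.1.2, a _ _ _ m.2.1 m.2.2⟩, rfl⟩
  · rw [encard_prod, encard_pair (by omega), encard_pair (by omega)]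
    norm_num

theorem wc_rd {c : Ch} (hc : c.Shp w) (h0 : 0 < h) {k : ℕ} (hk : w = k * h) (u1 : h / 4 ≤ u)
    (u2 : u ≤ 3 * h / 4) (hU : ξ ∈ c.U) (hW : ξ ∉ Wr h u) :
    ∃ o, ball o (h / 16) ⊆ c.U ∩ wc h u ξ ∧ c.U ∩ wc h u ξ ⊆ ball o h := by
  obtain ⟨i, j, e⟩ := SGr2_eq h0 hW
  obtain ⟨⟨a1, a2⟩, a3, a4⟩ : ξ ∈ SGr2B h u i j := e ▸ wc_self
  have int : ∀ m : ℤ, 0 < m * h → h ≤ m * h := fun m k => le_mul_of_one_le_left h0.le (by
    exact_mod_cast (pos_of_mul_pos_left k h0.le))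
  have hξ : (0 < ξ 0 ∧ ξ 0 < w) ∧ 0 < ξ 1 ∧ ξ 1 < w := by
    rcases hc.2 with k | k <;> rw [k] at hU
    · exact ⟨hU 0, hU 1⟩
    · exact ⟨⟨hU.1, by linarith only [hU, hU.2.1, hU.2.2]⟩, hU.2.1, by linarith only [hU, hU.1, hU.2.2]⟩
  obtain ⟨⟨b1, b2⟩, b3, b4⟩ := hξ
  have c1 := int (i + 2) (by push_cast; linarith only [u2, a1, a2, b1])
  have c2 := int (j + 1) (by push_cast; linarith only [u1, a1, a2, a4, b3])
  have c3 := int (k - i) (by push_cast; linarith only [hk, u1, a1, a2, b2])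
  have c4 := int (k + 1 - j) (by push_cast; linarith only [hk, u2, a1, a2, a3, b4])
  have c5 := int k (by push_cast; linarith only [hk, b1, b2])
  push_cast at c1 c2 c3 c4 c5
  have p : ∀ {a : ℝ}, a ≤ max a 0 := le_max_left _ _
  have q : ∀ {a : ℝ}, 0 ≤ max a 0 := le_max_right _ _
  refine ⟨![max (u + i * h) 0 + h / 16, max (-u + j * h) 0 + h / 16], fun z hz => ?_,
    fun z hz => ?_⟩
  · rw [mem_ball_iff_norm, pi_norm_lt_iff (by linarith only [a1, a2]), Fin.forall_fin_two] at hz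
    simp only [Pi.sub_apply, Matrix.cons_val_zero, Matrix.cons_val_one, Real.norm_eq_abs,
      abs_lt] at hz
    obtain ⟨⟨z1, z2⟩, z3, z4⟩ := hz
    have d1 : max (u + i * h) 0 ≤ u + i * h + 3 * h / 4 := max_le (by linarith only [a1, a2]) (by linarith only [u1, c1])
    have d2 : max (-u + j * h) 0 ≤ -u + j * h + 3 * h / 4 := max_le (by linarith only [a1, a2]) (by linarith only [u2, c2])
    have d3 : max (u + i * h) 0 ≤ w - h / 4 := max_le (by linarith only [hk, u2, c3]) (by linarith only [hk, b1, b2, c5])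
    have d4 : max (-u + j * h) 0 ≤ w - h / 4 := max_le (by linarith only [hk, u1, c4]) (by linarith only [hk, b1, b2, c5])
    have p1 := @p (u + i * h)
    have p2 := @p (-u + j * h)
    have q1 := @q (u + i * h)
    have q2 := @q (-u + j * h)
    refine ⟨?_, e ▸ ⟨⟨by linarith only [z1, p1], by linarith only [a1, a2, z2, d1]⟩, by linarith only [z3, p2], by linarith only [a1, a2, z4, d2]⟩⟩
    rcases hc.2 with l | l <;> rw [l] at hU ⊢
    · exact Fin.forall_fin_two.2 ⟨⟨by linarith only [z1, q1], by linarith only [a1, b2, z2, d1, d3]⟩, by linarith only [z3, q2], by linarith only [a3, b4, z4, d2, d4]⟩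
    · have c6 := int (k - i - j) (by push_cast; linarith only [hk, a1, a3, hU, hU.2.2])
      push_cast at c6
      refine ⟨by linarith only [z1, q1], by linarith only [z3, q2], ?_⟩
      rcases max_cases (u + i * h) 0 with r | r <;> rcases max_cases (-u + j * h) 0 with s | s <;>
        linarith only [hk, a1, a2, z2, z4, c6, r, s, u2, c3, u1, c4, h0, c5, r.1, s.1]
  · obtain ⟨hz, ⟨z1, z2⟩, z3, z4⟩ : z ∈ c.U ∧ z ∈ SGr2B h u i j := e ▸ hz
    have y : 0 < z 0 ∧ 0 < z 1 := by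
      rcases hc.2 with k | k <;> rw [k] at hz
      exacts [⟨(hz 0).1, (hz 1).1⟩, ⟨hz.1, hz.2.1⟩]
    rw [mem_ball_iff_norm, pi_norm_lt_iff h0, Fin.forall_fin_two]
    simp only [Pi.sub_apply, Matrix.cons_val_zero, Matrix.cons_val_one, Real.norm_eq_abs, abs_lt]
    have d1 := max_lt z1 y.1
    have d2 := max_lt z3 y.2
    exact ⟨⟨by linarith, by linarith [@p (u + i * h)]⟩, by linarith, by linarith [@p (-u + j * h)]⟩

/-- The cell is cut out by finitely many lines. -/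
theorem wc_iff (h0 : 0 < h) (w u : ℝ) : ∃ S : Set ℤ, S.Finite ∧ ∀ ξ η : Rn 2,
    (∀ i, 0 ≤ ξ i ∧ ξ i ≤ w) → (∀ i, 0 ≤ η i ∧ η i ≤ w) → (η ∈ wc h u ξ ↔ ∀ m ∈ S,
      SignType.sign (η 0 - (u + m * h)) = SignType.sign (ξ 0 - (u + m * h)) ∧
      SignType.sign (η 1 - (-u + m * h)) = SignType.sign (ξ 1 - (-u + m * h))) := by
  obtain ⟨N, hN⟩ := exists_nat_gt ((w + |u|) / h)
  rw [div_lt_iff₀ h0] at hN
  refine ⟨Icc (-N) N, finite_Icc _ _, fun ξ η a b => ?_⟩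
  have e := SGr2_sign h0 (ξ 1) (η 1) (-u)
  simp only [sub_neg_eq_add] at e
  rw [wc, mem_ofPred_eq, SGr2_sign h0, e, ← forall_and]
  refine ⟨fun k m _ => k m, fun k m => ?_⟩
  by_cases l : m ∈ Icc (-N : ℤ) N
  · exact k m l
  have u1 := le_abs_self u
  have u2 := neg_abs_le u
  rcases not_and_or.1 l with l | l
  · have : (m : ℝ) * h ≤ -N * h := mul_le_mul_of_nonneg_right (by
      exact_mod_cast (not_le.1 l).le) h0.le
    constructor <;> rw [sign_pos, sign_pos] <;>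
      linarith only [hN, u1, this, a, b, u2, (a 0).1, (a 1).1, (b 0).1, (b 1).1, (a 0).2]
  · have : N * h ≤ (m : ℝ) * h := mul_le_mul_of_nonneg_right (by
      exact_mod_cast (not_le.1 l).le) h0.le
    constructor <;> rw [sign_neg, sign_neg] <;> linarith only [hN, u2, this, a, b, u1, (a 0).2, (a 1).2, (b 0).2, (b 1).2]

end BEp
end
end

-- merged part: Pool.Agent.Work.MP_f0515e_an.P3.SFace
section
/-! Summation of the energies of the cells of a face.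
Plan.  `sum_mult`: `∑ indicator (A i) g ≤ 4 g` pointwise, `lintegral_finset_sum`, `lintegral_indicator`.  `avg_pow`: `add_rpow4`, `lint_seg`, `jensen1` with `a = 0`, `b = 1`.
`face_en`: the sets `T2 = {F' ∈ K'.cel 2 | F' ⊆ F}` and `T1 = {σ ∈ K'.cel 1 | σ ⊆ closure F}` are finite (`Kx.cover` on the compact set `closure F`); each `σ ∈ T1` is `φ '' openSegment ξ ξ'` (`dm_one`, `Ch.Of.ends`, `Ch.oseg`), `l σ = μH[1] (φ ⁻¹' σ) = ‖ξ' - ξ‖ₑ`.
`U ⊆ W ∪ ⋃ φ ⁻¹' F'` (`Sbd.sk`, `Ref`, `dm_mono`), so `c.E p H ≤ ∑ (c.sub F').E p H` (`Sbd.W0`, `lintegral_biUnion_finset_le`-like: `lintegral_iUnion_le`).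
Use one function `ψ = ∑ σ ∈ T1, (φ ⁻¹' σ).indicator fun _ => ((∫⁻ Ψ over φ ⁻¹' σ) + ofReal (cm δ)) / l σ` for all `F'`; the cells `σ` are disjoint (`Kx.disj`), so `ψ` is this constant on `φ ⁻¹' σ`.
`∑ F', ∫⁻ ψ ^ p over frontier (φ ⁻¹' F') ≤ 4 ∫⁻ ψ ^ p` (`sum_mult`, `Sbd.mult`, `frontier_subset_closure`), `∫⁻ ψ ^ p = ∑ σ, const ^ p * l σ ≤ 4 ∫⁻ Ψ ^ p over S W + 4 ∑ σ, (ofReal (cm δ) / l σ) ^ p * l σ` (`avg_pow`, `Sbd.edge`, `lintegral_biUnion_finset`).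
The error `16 C ^ p h ∑ σ, (ofReal (cm δ) / l σ) ^ p * l σ + card T2 * ofReal δ` is at most `k * ofReal δ` for `δ ≤ 1` with `k ≠ ⊤` (`ofReal δ ^ p ≤ ofReal δ`), `small_mul`. -/

open Set Metric Filter Topology Function BEv MeasureTheory
open scoped NNReal ENNReal

noncomputable section
namespace BEp

theorem small_mul {k ε : ℝ≥0∞} (hk : k ≠ ⊤) (hε : ε ≠ 0) :
    ∃ δ : ℝ, 0 < δ ∧ δ ≤ 1 ∧ k * ENNReal.ofReal δ ≤ ε := by
  refine ⟨min 1 (min 1 (ε / k)).toReal, lt_min one_pos (ENNReal.toReal_pos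
    (lt_min one_pos (ENNReal.div_pos hε hk)).ne' (ne_top_of_le_ne_top ENNReal.one_ne_top
      (min_le_left _ _))), min_le_left _ _, ?_⟩
  exact (mul_le_mul' le_rfl ((ENNReal.ofReal_le_ofReal (min_le_right _ _)).trans
    (ENNReal.ofReal_toReal_le.trans (min_le_right _ _)))).trans ENNReal.mul_div_le

theorem sum_mult {α β : Type} [MeasurableSpace α] {μ : Measure α} (s : Finset β) {A : β → Set α}
    (hA : ∀ i ∈ s, MeasurableSet (A i)) (h : ∀ x, {i | i ∈ s ∧ x ∈ A i}.encard ≤ 4)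
    {g : α → ℝ≥0∞} (hg : Measurable g) : ∑ i ∈ s, ∫⁻ x in A i, g x ∂μ ≤ 4 * ∫⁻ x, g x ∂μ := by
  classical
  rw [Finset.sum_congr rfl fun i hi => (lintegral_indicator (hA i hi) g).symm,
    ← lintegral_finsetSum _ fun i hi => hg.indicator (hA i hi), ← lintegral_const_mul _ hg]
  refine lintegral_mono fun x => ?_
  have e : ((s.filter fun i => x ∈ A i).card : ℕ∞) ≤ 4 := by
    rw [← encard_coe_eq_coe_finsetCard, Finset.coe_filter]
    exact h x
  simp only [indicator_apply]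
  rw [← Finset.sum_filter, Finset.sum_const, nsmul_eq_mul]
  exact mul_le_mul' (by exact_mod_cast e) le_rfl

theorem avg_pow {p : ℝ} (hp : 1 ≤ p) (hp3 : p ≤ 3) {ξ ξ' : Rn 2} (h : ξ ≠ ξ') {Ψ : Rn 2 → ℝ≥0∞}
    (hΨ : Measurable Ψ) (b : ℝ≥0∞) :
    (((∫⁻ x in openSegment ℝ ξ ξ', Ψ x ∂μH[1]) + b) / ‖ξ' - ξ‖ₑ) ^ p * ‖ξ' - ξ‖ₑ ≤
      4 * ((∫⁻ x in openSegment ℝ ξ ξ', Ψ x ^ p ∂μH[1]) + (b / ‖ξ' - ξ‖ₑ) ^ p * ‖ξ' - ξ‖ₑ) := by
  have hp0 : 0 ≤ p := zero_le_one.trans hp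
  have l0 : ‖ξ' - ξ‖ₑ ≠ 0 := enorm_ne_zero.2 (sub_ne_zero.2 h.symm)
  have j := jensen1 hp (g := fun t => Ψ (seg ξ ξ' t)) (hΨ.comp (by unfold seg; fun_prop)) 0 1
  rw [sub_zero, ENNReal.ofReal_one, ENNReal.one_rpow, one_mul] at j
  rw [lint_seg, lint_seg, ENNReal.add_div, mul_comm ‖ξ' - ξ‖ₑ,
    ENNReal.mul_div_cancel_right l0 enorm_ne_top, mul_comm ‖ξ' - ξ‖ₑ, ← add_mul, ← mul_assoc]
  exact mul_le_mul' ((add_rpow4 hp hp3 _ _).trans (mul_le_mul' le_rfl (add_le_add j le_rfl))) le_rfl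

theorem SFace_len (ξ ξ' : Rn 2) : μH[1] (openSegment ℝ ξ ξ') = ‖ξ' - ξ‖ₑ := by
  simpa using lint_seg ξ ξ' fun _ => 1

theorem SFace_pre {c : Ch} (h : Injective c.M) (ξ ξ' : Rn 2) :
    c.φ ⁻¹' openSegment ℝ (c.φ ξ) (c.φ ξ') = openSegment ℝ ξ ξ' := by
  rw [← c.oseg, preimage_image_eq _ (Ch.emb h).injective]

theorem face_en {Ω : Set (Rn 3)} {K K' : Kx Ω} {p cm h : ℝ} (hp : 1 ≤ p) (hp3 : p ≤ 3)
    (hc : 0 ≤ cm) (C : ℝ) {F : Set (Rn 3)} (hF : F ∈ K.cel 2) (r : K.Ref K') {c : Ch}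
    (o : c.Of F) {W : Set (Rn 2)} (S : Sbd K' c h W) {ε : ℝ≥0∞} (hε : ε ≠ 0) :
    ∃ δ > 0, FaceEn p C cm K' c h W δ ε := by
  classical
  have hp0 : 0 < p := one_pos.trans_le hp
  have hC : IsCompact (closure F) := o.cl_eq ▸ (o.cpt hF.1).image c.cont
  have hfin : {σ | σ ∈ K'.cells ∧ σ ⊆ closure F}.Finite := (Kx.cover hC (Kx.cl_sub hF.1)).subset
    fun σ a => ⟨a.1, (Kx.cells_ne a.1).mono (subset_inter subset_rfl a.2)⟩
  obtain ⟨T1, h1⟩ : ∃ T : Finset (Set (Rn 3)), ∀ σ, σ ∈ T ↔ σ ∈ K'.cel 1 ∧ σ ⊆ closure F :=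
    ⟨(hfin.subset fun σ (a : σ ∈ K'.cel 1 ∧ σ ⊆ closure F) => ⟨a.1.1, a.2⟩).toFinset,
      fun σ => Finite.mem_toFinset _⟩
  obtain ⟨T2, h2⟩ : ∃ T : Finset (Set (Rn 3)), ∀ σ, σ ∈ T ↔ σ ∈ K'.cel 2 ∧ σ ⊆ F :=
    ⟨(hfin.subset fun σ (a : σ ∈ K'.cel 2 ∧ σ ⊆ F) =>
      ⟨a.1.1, a.2.trans subset_closure⟩).toFinset, fun σ => Finite.mem_toFinset _⟩
  have h3 : ∀ σ ∈ T1, ∃ ξ ξ', ξ ≠ ξ' ∧ c.φ ⁻¹' σ = openSegment ℝ ξ ξ' ∧ c.φ ⁻¹' σ ⊆ c.S W := by
    intro σ hσ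
    obtain ⟨a, b⟩ := (h1 σ).1 hσ
    obtain ⟨x, y, e, rfl⟩ := Kx.dm_one a.1 a.2
    obtain ⟨ξ, k, ξ', k', rfl, rfl⟩ := o.ends b
    rw [SFace_pre o.1]
    exact ⟨ξ, ξ', (S.edge o hF.1 e k k').1, rfl, (S.edge o hF.1 e k k').2⟩
  have h4 : ∀ σ ∈ T1, MeasurableSet (c.φ ⁻¹' σ) := fun σ hσ => by
    obtain ⟨ξ, ξ', -, e, -⟩ := h3 σ hσ
    exact e ▸ meas_oseg ξ ξ'
  obtain ⟨δ, d0, d1, d2⟩ := small_mul (k := 16 * ENNReal.ofReal C ^ p * (ENNReal.ofReal h *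
    ∑ σ ∈ T1, (ENNReal.ofReal cm / μH[1] (c.φ ⁻¹' σ)) ^ p * μH[1] (c.φ ⁻¹' σ)) + T2.card) (by
      refine ENNReal.add_ne_top.2 ⟨ENNReal.mul_ne_top (ENNReal.mul_ne_top ENNReal.ofNat_ne_top
        (ENNReal.rpow_ne_top_of_nonneg hp0.le ENNReal.ofReal_ne_top)) (ENNReal.mul_ne_top
          ENNReal.ofReal_ne_top (ENNReal.sum_ne_top.2 fun σ hσ => ?_)), ENNReal.natCast_ne_top _⟩
      obtain ⟨ξ, ξ', a, e, -⟩ := h3 σ hσ
      rw [e, SFace_len]
      exact ENNReal.mul_ne_top (ENNReal.rpow_ne_top_of_nonneg hp0.le (ENNReal.div_ne_top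
        ENNReal.ofReal_ne_top (enorm_ne_zero.2 (sub_ne_zero.2 a.symm)))) enorm_ne_top) hε
  refine ⟨δ, d0, fun H sp τ Ψ hΨ hτ hf he => ?_⟩
  rw [o.2.2] at hτ hf
  obtain ⟨κ, hκ⟩ : ∃ κ : Set (Rn 3) → ℝ≥0∞, ∀ σ, κ σ =
    ((∫⁻ x in c.φ ⁻¹' σ, Ψ x ∂μH[1]) + ENNReal.ofReal (cm * δ)) / μH[1] (c.φ ⁻¹' σ) :=
    ⟨_, fun _ => rfl⟩
  obtain ⟨χ, hχ⟩ : ∃ χ : Rn 2 → ℝ≥0∞,
    χ = fun z => ∑ σ ∈ T1, (c.φ ⁻¹' σ).indicator (fun _ => κ σ ^ p) z := ⟨_, rfl⟩
  have m1 : Measurable χ :=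
    hχ ▸ Finset.measurable_fun_sum _ fun σ hσ => measurable_const.indicator (h4 σ hσ)
  have e1 : c.E p H ≤ ∑ F' ∈ T2, (c.sub F').E p H := by
    refine (lintegral_mono_set (t := W ∪ ⋃ F' : T2, c.φ ⁻¹' F') fun ξ hξ => ?_).trans
      ((lintegral_union_le _ _ _).trans ?_)
    · have a : c.φ ξ ∈ F := o.2.2 ▸ mem_image_of_mem _ hξ
      have b := Kx.cells_sub hF.1 a
      have k : K'.cell (c.φ ξ) ⊆ F := Kx.cell_eq hF.1 a ▸ r _ b
      refine or_iff_not_imp_left.2 fun n => mem_iUnion.2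
        ⟨⟨_, (h2 _).2 ⟨⟨K'.cell_mem b, le_antisymm (hF.2 ▸ dm_mono k) ?_⟩, k⟩⟩, K'.mem _ b⟩
      exact not_le.1 fun a => n (S.sk ξ hξ ⟨b, a⟩)
    · rw [setLIntegral_measure_zero _ _ S.W0, zero_add, ← Finset.tsum_subtype]
      exact lintegral_iUnion_le _ _
  have e2 : ∀ F' ∈ T2, (c.sub F').E p H ≤ ENNReal.ofReal C ^ p * ENNReal.ofReal h *
      (∫⁻ ξ in closure (c.φ ⁻¹' F'), χ ξ ∂μH[1]) + ENNReal.ofReal δ := by
    intro F' hF'
    obtain ⟨a, b⟩ := (h2 _).1 hF'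
    have k : closure (c.φ ⁻¹' F') ⊆ closure c.U := closure_mono (o.pre ▸ preimage_mono b)
    refine (hf F' a b (fun z => χ z ^ p⁻¹) (m1.pow_const _) fun ξ ξ' e k1 k2 z hz => ?_).trans
      (add_le_add (mul_le_mul' le_rfl ?_)
        (ENNReal.ofReal_le_ofReal (hτ _ a.1 (b.trans subset_closure))))
    · have s1 : openSegment ℝ (c.φ ξ) (c.φ ξ') ⊆ closure F := by
        rw [← c.oseg, ← o.cl_eq]
        exact image_mono ((o.cvx hF.1).closure.openSegment_subset (k k1) (k k2))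
      have s2 : κ (openSegment ℝ (c.φ ξ) (c.φ ξ')) ≤ χ z ^ p⁻¹ := by
        rw [ENNReal.le_rpow_inv_iff hp0, hχ]
        refine le_trans (le_of_eq ?_) (Finset.single_le_sum (fun _ _ => zero_le)
          ((h1 _).2 ⟨⟨e.2, e.dm⟩, s1⟩))
        rw [SFace_pre o.1, indicator_of_mem hz]
      refine (he ξ ξ' e (k k1) (k k2)).trans (le_trans ?_ (mul_le_mul' s2 le_rfl))
      rw [hκ, SFace_pre o.1, SFace_len, ENNReal.div_mul_cancel (enorm_ne_zero.2 (sub_ne_zero.2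
        (S.edge o hF.1 e (k k1) (k k2)).1.symm)) enorm_ne_top, lint_seg]
      exact add_le_add le_rfl (ENNReal.ofReal_le_ofReal
        (mul_le_mul_of_nonneg_left (hτ _ e.2 s1) hc))
    · simp only [ENNReal.rpow_inv_rpow hp0.ne']
      exact lintegral_mono_set frontier_subset_closure
  have e3 := sum_mult (μ := μH[1]) T2 (A := fun F' => closure (c.φ ⁻¹' F'))
    (fun _ _ => isClosed_closure.measurableSet) (fun ξ => by
      refine le_trans (encard_le_encard fun F' a => ?_) (S.mult ξ)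
      exact ⟨((h2 _).1 a.1).1, o.2.2 ▸ ((h2 _).1 a.1).2, a.2⟩) m1
  have e4 : ∫⁻ ξ, χ ξ ∂μH[1] ≤ 4 * ((∫⁻ ξ in c.S W, Ψ ξ ^ p ∂μH[1]) +
      (∑ σ ∈ T1, (ENNReal.ofReal cm / μH[1] (c.φ ⁻¹' σ)) ^ p * μH[1] (c.φ ⁻¹' σ)) *
        ENNReal.ofReal δ) := by
    have a : ∑ σ ∈ T1, ∫⁻ ξ in c.φ ⁻¹' σ, Ψ ξ ^ p ∂μH[1] ≤ ∫⁻ ξ in c.S W, Ψ ξ ^ p ∂μH[1] := by
      rw [← lintegral_biUnion_finset (fun σ a σ' b n =>
        (Kx.disj ((h1 _).1 a).1.1 ((h1 _).1 b).1.1 n).preimage c.φ) h4]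
      exact lintegral_mono_set (iUnion₂_subset fun σ a => (h3 σ a).choose_spec.choose_spec.2.2)
    refine le_trans ?_ (mul_le_mul' le_rfl (add_le_add a le_rfl))
    rw [hχ, lintegral_finsetSum _ fun σ hσ => measurable_const.indicator (h4 σ hσ),
      Finset.sum_mul, ← Finset.sum_add_distrib, Finset.mul_sum]
    refine Finset.sum_le_sum fun σ hσ => ?_
    rw [lintegral_indicator_const (h4 σ hσ), hκ]
    obtain ⟨ξ, ξ', a, e, -⟩ := h3 σ hσ
    rw [e, SFace_len]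
    refine (avg_pow hp hp3 a hΨ _).trans (mul_le_mul' le_rfl (add_le_add le_rfl ?_))
    rw [ENNReal.ofReal_mul hc, ENNReal.mul_div_right_comm, ENNReal.mul_rpow_of_nonneg _ _ hp0.le,
      mul_right_comm]
    exact mul_le_mul' le_rfl (ENNReal.rpow_le_self_of_le_one (ENNReal.ofReal_le_one.2 d1) hp)
  refine e1.trans ((Finset.sum_le_sum e2).trans ?_)
  rw [Finset.sum_add_distrib, ← Finset.mul_sum, Finset.sum_const, nsmul_eq_mul]
  refine (add_le_add (mul_le_mul' le_rfl (e3.trans (mul_le_mul' le_rfl e4))) le_rfl).trans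
    (le_trans (le_of_eq ?_) (add_le_add le_rfl d2))
  ring

end BEp
end
end
end

-- merged part: Pool.Agent.Work.MP_f0515e_an.P3.SOne
section
/-! Energy on an interval cut into parts.
Plan.  `Prt.lint`: `Icc α β` is `⋃ Ioo q.1 q.2` up to a finite set, `lintegral_biUnion_finset`, `restrict_Ioo_eq_restrict_Icc`.
`en1`: on `Ioo q.1 q.2` the derivative is at most `σ q / (q.2 - q.1)` (`norm_deriv_le_of_lip'`); `add_rpow4`, `jensen1`; error `4 δ ^ p ∑ (q.2 - q.1) ^ (1 - p)`, `small_mul`.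
`chd_pt` (pointwise): `‖v - w‖ ≤ |κ - n| + 2 η`, `|κ - n| ≤ (n - κ) + 2 a`, `|κ - n| ≤ 2 n + a`; if `a ≤ 2 n` then `|κ - n| ^ p ≤ (4 n) ^ (p - 1) |κ - n|`, else `|κ - n| ≤ 2 a`; `(x + y) ^ p ≤ 4 (x ^ p + y ^ p)`, `4 ^ (p - 1) ≤ 16`, `2 ^ p ≤ 8`.
`chd_young`: `a = 8 g n + y + x`; `n ^ (p - 1) y ≤ g n ^ p + y ^ p / g ^ 2` (cases `y ≤ g n`, `n ≤ y / g`), `(8 g n) ^ p ≤ 8 g n ^ p`.
`chd1`: if `∫⁻ Γ ^ p = ⊤` there is nothing to prove.  `l` of norm at most one with `l w = ‖w‖ = n` (`exists_dual_vector''`), `κ t = l (deriv k t)`, `η = δ / (q.2 - q.1)`, `m = (∫⁻ Γ over q).toReal / (q.2 - q.1)`.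
For the difference quotients `Δ = λ • w + e`, `‖e‖ ≤ η`, `|λ| ≤ 1 + 8 g + η + c m`, so `‖Δ - w‖ ≤ |l Δ - n| + 2 η`, `|l Δ| ≤ n + a`, `a = 8 g n + c m n + η (n + 1)`; pass to the limit where `k` is differentiable (`LipschitzOnWith.ae_differentiableWithinAt_of_mem`, `hasDerivAt_iff_tendsto_slope`).
`∫ κ = l (k β - k α)` (`LipschitzOnWith.absolutelyContinuousOnInterval`, `AbsolutelyContinuousOnInterval.integral_deriv_eq_sub` for `l ∘ k`), so `∫ (n - κ) ≤ dr`; integrate the non negative real function `(n - κ) + 2 a` (`ofReal_integral_eq_lintegral_ofReal`), or add `∫⁻ ofReal (κ + L')` to both sides; `jensen1` gives `∑ (q.2 - q.1) m ^ p ≤ ∫⁻ Γ ^ p`; `n ^ (p - 1) ≤ (1 + n) ^ 2`. -/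

open Set Metric Filter Topology Function BEv MeasureTheory
open scoped NNReal ENNReal

noncomputable section
namespace BEp

theorem SOne_sub {α β : ℝ} {J : Finset (ℝ × ℝ)} (h : Prt α β J) {q : ℝ × ℝ} (hq : q ∈ J) :
    Ioo q.1 q.2 ⊆ Icc α β :=
  Ioo_subset_Icc_self.trans (Icc_subset_Icc (h.mem q hq).1 (h.mem q hq).2.2)

theorem SOne_ae {α β : ℝ} {J : Finset (ℝ × ℝ)} (h : Prt α β J) :
    Icc α β =ᵐ[volume] ⋃ q ∈ J, Ioo q.1 q.2 := by
  have k : (⋃ q ∈ J, Ioo q.1 q.2) ⊆ Icc α β := iUnion₂_subset fun _ hq => SOne_sub h hq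
  exact ae_eq_set.2 ⟨h.cov.measure_zero _, by rw [sdiff_eq_empty.2 k, measure_empty]⟩

theorem SOne_int {α β : ℝ} {J : Finset (ℝ × ℝ)} (h : Prt α β J) {F : ℝ → ℝ}
    (hF : IntegrableOn F (Icc α β)) :
    ∫ t in Icc α β, F t = ∑ q ∈ J, ∫ t in Ioo q.1 q.2, F t := by
  rw [setIntegral_congr_set (SOne_ae h)]
  exact integral_biUnion_finset J (fun _ _ => measurableSet_Ioo) h.dis
    fun q hq => hF.mono_set (SOne_sub h hq)

theorem Prt.lint {α β : ℝ} {J : Finset (ℝ × ℝ)} (h : Prt α β J) (g : ℝ → ℝ≥0∞) :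
    ∫⁻ t in Icc α β, g t = ∑ q ∈ J, ∫⁻ t in Ioo q.1 q.2, g t := by
  rw [setLIntegral_congr (SOne_ae h)]
  exact lintegral_biUnion_finset h.dis (fun _ _ => measurableSet_Ioo) g

theorem en1 {p α β : ℝ} (hp : 1 ≤ p) (hp3 : p ≤ 3) {J : Finset (ℝ × ℝ)} (h : Prt α β J)
    {ε : ℝ≥0∞} (hε : ε ≠ 0) : ∃ δ > 0, En1 p α β J δ ε := by
  have p0 : 0 ≤ p := by linarith
  have L0 : ∀ q ∈ J, ENNReal.ofReal (q.2 - q.1) ≠ 0 := fun q hq =>
    (ENNReal.ofReal_pos.2 (sub_pos.2 (h.mem q hq).2.1)).ne'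
  have A0 : ∀ q ∈ J, ENNReal.ofReal (q.2 - q.1) ^ (p - 1) ≠ 0 := fun q hq =>
    (ENNReal.rpow_pos (pos_iff_ne_zero.2 (L0 q hq)) ENNReal.ofReal_ne_top).ne'
  obtain ⟨δ, d0, d1, hd⟩ := small_mul (k := ∑ q ∈ J, 4 * (ENNReal.ofReal (q.2 - q.1) ^ (p - 1))⁻¹)
    (ENNReal.sum_ne_top.2 fun q hq => ENNReal.mul_ne_top (by simp)
      (ENNReal.inv_ne_top.2 (A0 q hq))) hε
  refine ⟨δ, d0, fun k σ Γ hΓ h1 h2 => le_trans ?_ (add_le_add_right hd _)⟩
  rw [h.lint, h.lint, Finset.mul_sum, Finset.sum_mul, ← Finset.sum_add_distrib]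
  refine Finset.sum_le_sum fun q hq => ?_
  have l0 := sub_pos.2 (h.mem q hq).2.1
  have s0 : 0 ≤ σ q := by
    have := h1 q hq _ (right_mem_Icc.2 (h.mem q hq).2.1.le) _ (left_mem_Icc.2 (h.mem q hq).2.1.le)
    rw [abs_of_pos l0] at this
    exact nonneg_of_mul_nonneg_left (le_trans (by positivity) this) l0
  have k1 : ∀ t ∈ Ioo q.1 q.2, ‖deriv k t‖ₑ ^ p ≤
      (((∫⁻ t in Icc q.1 q.2, Γ t) + ENNReal.ofReal δ) / ENNReal.ofReal (q.2 - q.1)) ^ p := by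
    intro t ht
    refine ENNReal.rpow_le_rpow (le_trans ?_ (ENNReal.div_le_div_right (h2 q hq) _)) p0
    rw [← ENNReal.ofReal_div_of_pos l0, ← ofReal_norm]
    refine ENNReal.ofReal_le_ofReal (norm_deriv_le_of_lip' (by positivity) ?_)
    filter_upwards [Icc_mem_nhds ht.1 ht.2] with s hs
    rw [div_mul_eq_mul_div, le_div_iff₀' l0]
    exact h1 q hq s hs t (Ioo_subset_Icc_self ht)
  refine (setLIntegral_mono' measurableSet_Ioo k1).trans ?_
  have k2 := jensen1 hp hΓ q.1 q.2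
  have k3 : ENNReal.ofReal δ ^ p ≤ ENNReal.ofReal δ :=
    ENNReal.rpow_le_self_of_le_one (ENNReal.ofReal_le_one.2 d1) hp
  have k4 : ENNReal.ofReal (q.2 - q.1) ^ p =
      ENNReal.ofReal (q.2 - q.1) ^ (p - 1) * ENNReal.ofReal (q.2 - q.1) := by
    conv_lhs => rw [← sub_add_cancel p 1, ENNReal.rpow_add _ _ (L0 q hq) ENNReal.ofReal_ne_top,
      ENNReal.rpow_one]
  have At : ENNReal.ofReal (q.2 - q.1) ^ (p - 1) ≠ ⊤ :=
    ENNReal.rpow_ne_top_of_nonneg (by linarith) ENNReal.ofReal_ne_top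
  rw [setLIntegral_const, Real.volume_Ioo, ENNReal.div_rpow_of_nonneg _ _ p0, k4, div_eq_mul_inv,
    ENNReal.mul_inv (Or.inl (A0 q hq)) (Or.inl At), ← mul_assoc, mul_assoc,
    ENNReal.inv_mul_cancel (L0 q hq) ENNReal.ofReal_ne_top, mul_one,
    setLIntegral_congr (Ioo_ae_eq_Icc (μ := volume))]
  refine (mul_le_mul_left ((add_rpow4 hp hp3 _ _).trans
    (mul_le_mul_right (add_le_add k2 k3) 4)) _).trans_eq ?_
  rw [mul_assoc, add_mul, mul_right_comm, ENNReal.mul_inv_cancel (A0 q hq) At]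
  ring

theorem SOne_add {p x y : ℝ} (hp : 1 ≤ p) (hp3 : p ≤ 3) (hx : 0 ≤ x) (hy : 0 ≤ y) :
    (x + y) ^ p ≤ 4 * (x ^ p + y ^ p) := by
  have p0 : 0 ≤ p := by linarith
  have := add_rpow4 hp hp3 (ENNReal.ofReal x) (ENNReal.ofReal y)
  rwa [← ENNReal.ofReal_add hx hy, ENNReal.ofReal_rpow_of_nonneg (by positivity) p0,
    ENNReal.ofReal_rpow_of_nonneg hx p0, ENNReal.ofReal_rpow_of_nonneg hy p0,
    ← ENNReal.ofReal_add (by positivity) (by positivity), ← ENNReal.ofReal_ofNat,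
    ← ENNReal.ofReal_mul (by positivity), ENNReal.ofReal_le_ofReal_iff (by positivity)] at this

theorem SOne_split {p x : ℝ} (hp : 0 < p) (hx : 0 ≤ x) : x ^ (p - 1) * x = x ^ p := by
  rw [← Real.rpow_add_one' hx (by linarith), sub_add_cancel]

theorem SOne_mul {p c x y : ℝ} {m : ℕ} (hp : 0 ≤ p) (hm : p ≤ m) (hc : 1 ≤ c) (hx : 0 ≤ x)
    (hy : 0 ≤ y) (h : x ≤ c * y) : x ^ p ≤ c ^ m * y ^ p := by
  refine (Real.rpow_le_rpow hx h hp).trans ?_
  rw [Real.mul_rpow (by linarith) hy, ← Real.rpow_natCast]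
  exact mul_le_mul_of_nonneg_right (Real.rpow_le_rpow_of_exponent_le hc hm) (by positivity)

theorem SOne_small {p c x : ℝ} (hp : 1 ≤ p) (c0 : 0 ≤ c) (c1 : c ≤ 1) (hx : 0 ≤ x) :
    (c * x) ^ p ≤ c * x ^ p := by
  rw [Real.mul_rpow c0 hx]
  exact mul_le_mul_of_nonneg_right (Real.rpow_le_self_of_le_one c0 c1 hp) (by positivity)

theorem chd_pt {p n κ a η r : ℝ} (hp : 2 ≤ p) (hp3 : p ≤ 3) (hn : 0 ≤ n) (ha : 0 ≤ a) (hη : 0 ≤ η)
    (hr : 0 ≤ r) (h1 : r ≤ |κ - n| + 2 * η) (h2 : |κ| ≤ n + a) :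
    r ^ p ≤ 64 * n ^ (p - 1) * (n - κ + 2 * a) + 32 * a ^ p + 32 * η ^ p := by
  obtain ⟨h3, h4⟩ := abs_le.1 h2
  have d0 := abs_nonneg (κ - n)
  have d1 : |κ - n| ≤ n - κ + 2 * a := abs_le.2 ⟨by linarith, by linarith⟩
  have d2 : |κ - n| ≤ 2 * n + a := abs_le.2 ⟨by linarith, by linarith⟩
  have e1 := (Real.rpow_le_rpow hr h1 (by linarith : 0 ≤ p)).trans
    (SOne_add (by linarith) hp3 d0 (by positivity))
  have e2 := SOne_mul (p := p) (m := 3) (by linarith) (by exact_mod_cast hp3) one_le_two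
    (by positivity) hη le_rfl
  have e3 : 0 ≤ n ^ (p - 1) * (n - κ + 2 * a) := mul_nonneg (by positivity) (d0.trans d1)
  have e4 : 0 ≤ a ^ p := by positivity
  rcases le_total a (2 * n) with k | k
  · have e5 := SOne_mul (p := p - 1) (m := 2) (c := 4) (by linarith) (by push_cast; linarith)
      (by norm_num) d0 hn (by linarith)
    have e6 := mul_le_mul e5 d1 d0 (by positivity)
    rw [SOne_split (by linarith) d0] at e6
    linarith only [e1, e2, e4, e6]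
  · have e5 := SOne_mul (p := p) (m := 3) (by linarith) (by exact_mod_cast hp3) one_le_two d0 ha
      (by linarith)
    linarith only [e1, e2, e3, e5]

theorem chd_young {p n g x y : ℝ} (hp : 2 ≤ p) (hp3 : p ≤ 3) (hn : 0 ≤ n) (g0 : 0 < g)
    (g1 : g ≤ 1 / 8) (hx : 0 ≤ x) (hy : 0 ≤ y) :
    128 * n ^ (p - 1) * (8 * g * n + y + x) + 32 * (8 * g * n + y + x) ^ p ≤
      3000 * g * n ^ p + 1000 / g ^ 2 * y ^ p + 128 * n ^ (p - 1) * x + 512 * x ^ p := by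
  have e0 := SOne_split (by linarith only [hp, g0, g1] : 0 < p) hn
  have n0 : 0 ≤ n ^ (p - 1) := by positivity
  have N0 : 0 ≤ g * n ^ p := by positivity
  have Y0 : 0 ≤ y ^ p := by positivity
  have gi : 1 ≤ g⁻¹ := (one_le_inv₀ g0).2 (by linarith only [g0, g1])
  have e1 : n ^ (p - 1) * y ≤ g * n ^ p + g⁻¹ ^ 2 * y ^ p := by
    rcases le_total y (g * n) with k | k
    · have := mul_le_mul_of_nonneg_left k n0
      rw [mul_left_comm, e0] at this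
      exact this.trans (le_add_of_nonneg_right (by positivity))
    · have := mul_le_mul_of_nonneg_right (SOne_mul (p := p - 1) (m := 2) (by linarith only [hp, g0, g1])
        (by push_cast; linarith) gi hn hy ((le_inv_mul_iff₀ g0).2 k)) hy
      rw [mul_assoc, SOne_split (by linarith only [hp, g0, g1]) hy] at this
      linarith only [N0, this]
  have e2 := SOne_add (p := p) (by linarith only [hp, g0, g1]) hp3 (by positivity : 0 ≤ 8 * g * n) (add_nonneg hy hx)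
  have e3 := SOne_add (p := p) (by linarith only [hp, g0, g1]) hp3 hy hx
  have e4 := SOne_small (p := p) (c := 8 * g) (by linarith only [hp, g0, g1]) (by positivity) (by linarith only [g1]) hn
  have e5 : y ^ p ≤ g⁻¹ ^ 2 * y ^ p := le_mul_of_one_le_left Y0 (one_le_pow₀ gi)
  have e6 : 128 * n ^ (p - 1) * (8 * g * n + y + x) =
      1024 * (g * n ^ p) + 128 * (n ^ (p - 1) * y) + 128 * n ^ (p - 1) * x := by
    rw [← e0]
    ring
  rw [← add_assoc] at e2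
  rw [e6, div_eq_mul_inv, ← inv_pow]
  linarith only [N0, Y0, e1, e2, e3, e4, e5]

theorem SOne_der {k : ℝ → Rn 3} {u : ℝ → ℝ} {a b t η Λ : ℝ} {w D : Rn 3} {l : Rn 3 →L[ℝ] ℝ}
    (l1 : ‖l‖ ≤ 1) (l2 : l w = ‖w‖) (ht : t ∈ Ioo a b) (hd : HasDerivAt k D t)
    (h : ∀ s ∈ Icc a b, ‖k s - k t - (u s - u t) • w‖ ≤ η * |s - t| ∧ |u s - u t| ≤ Λ * |s - t|) :
    ‖D - w‖ ≤ |l D - ‖w‖| + 2 * η ∧ |l D| ≤ Λ * ‖w‖ + η := by
  have hc : IsClosed {v : Rn 3 | ‖v - w‖ ≤ |l v - ‖w‖| + 2 * η ∧ |l v| ≤ Λ * ‖w‖ + η} :=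
    IsClosed.and (isClosed_le (by fun_prop) (by fun_prop)) (isClosed_le (by fun_prop) (by fun_prop))
  refine hc.mem_of_tendsto hd.tendsto_slope ?_
  filter_upwards [self_mem_nhdsWithin, mem_nhdsWithin_of_mem_nhds (Icc_mem_nhds ht.1 ht.2)]
    with s h1 h2
  have s0 : 0 < |s - t| := abs_pos.2 (sub_ne_zero.2 h1)
  obtain ⟨e, he⟩ : ∃ e, e = (s - t)⁻¹ • (k s - k t - (u s - u t) • w) := ⟨_, rfl⟩
  obtain ⟨c, hc⟩ : ∃ c, c = (s - t)⁻¹ * (u s - u t) := ⟨_, rfl⟩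
  have e0 : slope k t s = c • w + e := by
    rw [slope_def_module, he, hc]
    module
  have e1 : ‖e‖ ≤ η := by
    rw [he, norm_smul, norm_inv, Real.norm_eq_abs, inv_mul_le_iff₀' s0]
    exact (h s h2).1
  have e2 : |c| ≤ Λ := by
    rw [hc, abs_mul, abs_inv, inv_mul_le_iff₀' s0]
    exact (h s h2).2
  have e3 : |l e| ≤ η :=
    (l.le_opNorm e).trans ((mul_le_of_le_one_left (norm_nonneg _) l1).trans e1)
  have e4 : l (c • w + e) = c * ‖w‖ + l e := by rw [map_add, map_smul, l2, smul_eq_mul]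
  rw [e0, e4]
  constructor
  · have e5 : ‖c • w + e - w‖ ≤ |(c - 1) * ‖w‖| + ‖e‖ := by
      rw [show c • w + e - w = (c - 1) • w + e by module, abs_mul, abs_norm]
      exact (norm_add_le _ _).trans_eq (by rw [norm_smul, Real.norm_eq_abs])
    have e6 := abs_sub (c * ‖w‖ + l e - ‖w‖) (l e)
    rw [show c * ‖w‖ + l e - ‖w‖ - l e = (c - 1) * ‖w‖ by ring] at e6
    linarith only [e1, e3, e5, e6]
  · refine (abs_add_le _ _).trans (add_le_add ?_ e3)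
    rw [abs_mul, abs_norm]
    exact mul_le_mul_of_nonneg_right e2 (norm_nonneg _)

theorem SOne_le {a b p B : ℝ} (hab : a ≤ b) (hp : 0 ≤ p) {v : ℝ → Rn 3} {F : ℝ → ℝ}
    (hF : IntegrableOn F (Ioo a b)) (h : ∀ᵐ t, t ∈ Ioo a b → ‖v t‖ ^ p ≤ F t + B) :
    0 ≤ (∫ t in Ioo a b, F t) + (b - a) * B ∧
      ∫⁻ t in Ioo a b, ‖v t‖ₑ ^ p ≤ ENNReal.ofReal ((∫ t in Ioo a b, F t) + (b - a) * B) := by
  have hB : IntegrableOn (fun _ => B) (Ioo a b) := integrableOn_const measure_Ioo_lt_top.ne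
  have e : ∫ t in Ioo a b, (F t + B) = (∫ t in Ioo a b, F t) + (b - a) * B := by
    rw [integral_add hF hB, setIntegral_const, Real.volume_real_Ioo_of_le hab, smul_eq_mul]
  rw [← ae_restrict_iff' measurableSet_Ioo] at h
  have k : 0 ≤ᵐ[volume.restrict (Ioo a b)] fun t => F t + B :=
    h.mono fun t ht => le_trans (by positivity) ht
  rw [← e, ofReal_integral_eq_lintegral_ofReal (f := fun t => F t + B) (hF.add hB) k]
  refine ⟨integral_nonneg_of_ae k, lintegral_mono_ae (h.mono fun t ht => ?_)⟩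
  rw [← ofReal_norm, ENNReal.ofReal_rpow_of_nonneg (norm_nonneg _) hp]
  exact ENNReal.ofReal_le_ofReal ht

theorem SOne_jen {p a b : ℝ} (hp : 1 ≤ p) (hab : a < b) {Γ : ℝ → ℝ≥0∞} (hΓ : Measurable Γ)
    (h : ∫⁻ t in Ioo a b, Γ t ^ p ≠ ⊤) : ∫⁻ t in Icc a b, Γ t ≠ ⊤ ∧
      (b - a) * ((∫⁻ t in Icc a b, Γ t).toReal / (b - a)) ^ p ≤
        (∫⁻ t in Ioo a b, Γ t ^ p).toReal := by
  have l0 := sub_pos.2 hab
  have k := jensen1 hp hΓ a b
  rw [← setLIntegral_congr (f := fun t => Γ t ^ p) (Ioo_ae_eq_Icc (μ := volume))] at k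
  have k1 := ENNReal.mul_ne_top (ENNReal.rpow_ne_top_of_nonneg (y := p - 1) (by linarith)
    (ENNReal.ofReal_ne_top (r := b - a))) h
  refine ⟨fun e => k1 ?_, ?_⟩
  · rwa [e, ENNReal.top_rpow_of_pos (by linarith), top_le_iff] at k
  have k2 := ENNReal.toReal_mono k1 k
  rw [ENNReal.toReal_mul, ← ENNReal.toReal_rpow, ← ENNReal.toReal_rpow,
    ENNReal.toReal_ofReal l0.le] at k2
  rw [Real.div_rpow ENNReal.toReal_nonneg l0.le, ← SOne_split (by linarith) l0.le, mul_comm,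
    div_mul_eq_mul_div, mul_div_mul_right _ _ l0.ne', div_le_iff₀' (by positivity)]
  exact k2

theorem chd1 {p g c α β : ℝ} (hp : 2 ≤ p) (hp3 : p ≤ 3) (g0 : 0 < g) (g1 : g ≤ 1 / 8) (hc : 0 ≤ c)
    (w : Rn 3) {J : Finset (ℝ × ℝ)} (h : Prt α β J) {ε : ℝ≥0∞} (hε : ε ≠ 0) :
    ∃ δ > 0, Ch1 p g c α β w J δ ε := by
  have p0 : 0 < p := by linarith only [hp, g0, g1]
  obtain ⟨n, hn⟩ : ∃ n, n = ‖w‖ := ⟨_, rfl⟩
  have n0 : 0 ≤ n := hn ▸ norm_nonneg w
  obtain ⟨E, hE⟩ : ∃ E : ℝ × ℝ → ℝ, ∀ q, E q = 128 * n ^ (p - 1) * ((n + 1) / (q.2 - q.1)) +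
    512 * ((n + 1) / (q.2 - q.1)) ^ p + 32 * (1 / (q.2 - q.1)) ^ p := ⟨_, fun _ => rfl⟩
  obtain ⟨δ, d0, d1, hd⟩ := small_mul (k := ENNReal.ofReal (∑ q ∈ J, (q.2 - q.1) * E q))
    ENNReal.ofReal_ne_top hε
  refine ⟨δ, d0, fun k u Γ dr hΓ ⟨L, hk⟩ h1 h2 => le_trans ?_ (add_le_add_right hd _)⟩
  rcases lt_or_ge β α with hab | hab
  · rw [Icc_eq_empty_of_lt hab, Measure.restrict_empty, lintegral_zero_measure]
    exact zero_le
  rw [← hn]
  have c0 : 0 < 5000 * (1 + n * c) ^ 3 / g ^ 2 := by positivity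
  rcases eq_or_ne (∫⁻ t in Icc α β, Γ t ^ p) ⊤ with hG | hG
  · rw [hG, ENNReal.mul_top (ENNReal.ofReal_pos.2 c0).ne', add_top, top_add]
    exact le_top
  have hG' : ∀ q ∈ J, ∫⁻ t in Ioo q.1 q.2, Γ t ^ p ≠ ⊤ := fun q hq =>
    ne_top_of_le_ne_top hG (lintegral_mono_set (SOne_sub h hq))
  obtain ⟨l, l1, l2⟩ := exists_dual_vector'' ℝ w
  have hl : LipschitzOnWith (‖l‖₊ * L) (l ∘ k) (uIcc α β) := by
    rw [uIcc_of_le hab]
    exact l.lipschitz.comp_lipschitzOnWith hk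
  have i1 := (intervalIntegrable_iff_integrableOn_Icc_of_le hab).1
    hl.absolutelyContinuousOnInterval.intervalIntegrable_deriv
  have i0 : IntegrableOn (fun _ => n) (Icc α β) := integrableOn_const measure_Icc_lt_top.ne
  have iF : IntegrableOn (fun t => 64 * n ^ (p - 1) * (n - deriv (l ∘ k) t)) (Icc α β) :=
    (i0.sub i1).const_mul _
  have f1 : ∫ t in Icc α β, 64 * n ^ (p - 1) * (n - deriv (l ∘ k) t) ≤ 100 * (1 + n) ^ 2 * dr := by
    have e := hl.absolutelyContinuousOnInterval.integral_deriv_eq_sub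
    rw [intervalIntegral.integral_of_le hab, ← integral_Icc_eq_integral_Ioc] at e
    rw [integral_const_mul, integral_sub i0 i1, e, setIntegral_const,
      Real.volume_real_Icc_of_le hab]
    have a1 := (abs_le.1 ((l.le_opNorm _).trans
      ((mul_le_of_le_one_left (norm_nonneg _) l1).trans h1))).1
    rw [map_sub, map_sub, map_smul, l2] at a1
    have a2 : (β - α) • n - ((l ∘ k) β - (l ∘ k) α) ≤ dr := by
      rw [hn]
      change (β - α) • ‖w‖ - (l (k β) - l (k α)) ≤ dr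
      exact neg_le.1 (a1.trans_eq (neg_sub _ _).symm) |>.trans' (neg_neg _).ge
    have a3 := SOne_mul (p := p - 1) (m := 2) (c := 1 + n) (y := 1) (by linarith only [hp, g0, g1])
      (by push_cast; linarith only [hp3]) (by linarith only [n0]) n0 zero_le_one (by linarith only [g0, g1])
    rw [Real.one_rpow, mul_one] at a3
    have a4 := (norm_nonneg _).trans h1
    refine (mul_le_mul_of_nonneg_left a2 (by positivity)).trans (mul_le_mul_of_nonneg_right ?_ a4)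
    linarith only [a3, sq_nonneg (1 + n)]
  obtain ⟨m, hm⟩ : ∃ m : ℝ × ℝ → ℝ, ∀ q, m q = (∫⁻ t in Icc q.1 q.2, Γ t).toReal / (q.2 - q.1) :=
    ⟨_, fun _ => rfl⟩
  obtain ⟨C, hC⟩ : ∃ C, C = 5000 * (1 + n * c) ^ 3 / g ^ 2 := ⟨_, rfl⟩
  have key : ∀ q ∈ J, ∀ᵐ t, t ∈ Ioo q.1 q.2 → ‖deriv k t - w‖ ^ p ≤
      64 * n ^ (p - 1) * (n - deriv (l ∘ k) t) + (5000 * g * n ^ p + C * m q ^ p + E q * δ) := by
    intro q hq
    have l0 := sub_pos.2 (h.mem q hq).2.1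
    have m0 : 0 ≤ m q := by rw [hm]; positivity
    filter_upwards [hk.ae_differentiableWithinAt_of_mem (μ := volume)] with t hx ht
    have hD := ((hx (SOne_sub h hq ht)).differentiableAt (mem_of_superset (Ioo_mem_nhds ht.1 ht.2)
      (SOne_sub h hq))).hasDerivAt
    obtain ⟨b1, b2⟩ := SOne_der (u := u) (η := δ * (1 / (q.2 - q.1)))
      (Λ := 1 + 8 * g + δ * (1 / (q.2 - q.1)) + c * m q) l1 l2 ht hD fun s hs => by
        obtain ⟨a1, a2⟩ := h2 q hq s hs t (Ioo_subset_Icc_self ht)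
        rw [← ENNReal.ofReal_toReal (SOne_jen (by linarith only [hp, g0, g1]) (h.mem q hq).2.1 hΓ (hG' q hq)).1,
          ← ENNReal.ofReal_mul hc, ← ENNReal.ofReal_add (by positivity) (by positivity),
          ← ENNReal.ofReal_mul (by positivity),
          ENNReal.ofReal_le_ofReal_iff (by positivity)] at a2
        refine ⟨le_of_mul_le_mul_left (a1.trans_eq ?_) l0, le_of_mul_le_mul_left (a2.trans_eq ?_) l0⟩
        · field_simp
        · rw [hm]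
          field_simp
    rw [← hn] at b1 b2
    have η0 : 0 ≤ δ * (1 / (q.2 - q.1)) := by positivity
    have x0 : 0 ≤ δ * ((n + 1) / (q.2 - q.1)) := by positivity
    have y0 : 0 ≤ n * c * m q := by positivity
    have b3 := chd_pt hp hp3 n0 (a := 8 * g * n + n * c * m q + δ * ((n + 1) / (q.2 - q.1)))
      (by positivity) η0 (norm_nonneg _) b1 (b2.trans_eq (by ring))
    have b4 := chd_young hp hp3 n0 g0 g1 x0 y0
    have b5 := SOne_small (p := p) (x := (n + 1) / (q.2 - q.1)) (by linarith only [hp, g0, g1]) d0.le d1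
      (by positivity)
    have b6 := SOne_small (p := p) (x := 1 / (q.2 - q.1)) (by linarith only [hp, g0, g1]) d0.le d1 (by positivity)
    have b7 := SOne_mul (p := p) (m := 3) (c := 1 + n * c) p0.le (by exact_mod_cast hp3)
      (le_add_of_nonneg_right (by positivity)) y0 m0 (by linarith only [m0])
    have b8 : 1000 / g ^ 2 * (n * c * m q) ^ p ≤ C * m q ^ p := by
      refine (mul_le_mul_of_nonneg_left b7 (by positivity)).trans ?_
      rw [hC, ← mul_assoc]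
      refine mul_le_mul_of_nonneg_right ?_ (by positivity)
      rw [div_mul_eq_mul_div]
      gcongr
      norm_num
    have b9 : 0 ≤ g * n ^ p := by positivity
    rw [(l.hasFDerivAt.comp_hasDerivAt t hD).deriv, hE]
    linarith only [b3, b4, b5, b6, b8, b9]
  have k1 := fun q hq => SOne_le (h.mem q hq).2.1.le p0.le (iF.mono_set (SOne_sub h hq)) (key q hq)
  rw [h.lint]
  refine (Finset.sum_le_sum fun q hq => (k1 q hq).2).trans ?_
  have s1 : ∑ q ∈ J, (q.2 - q.1) = β - α := by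
    have := SOne_int h (integrableOn_const (C := (1 : ℝ)) measure_Icc_lt_top.ne)
    rw [setIntegral_const, Real.volume_real_Icc_of_le hab, smul_eq_mul, mul_one] at this
    rw [this]
    refine Finset.sum_congr rfl fun q hq => ?_
    rw [setIntegral_const, Real.volume_real_Ioo_of_le (h.mem q hq).2.1.le, smul_eq_mul, mul_one]
  have s2 : ∑ q ∈ J, (q.2 - q.1) * m q ^ p ≤ (∫⁻ t in Icc α β, Γ t ^ p).toReal := by
    rw [h.lint, ENNReal.toReal_sum hG']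
    refine Finset.sum_le_sum fun q hq => ?_
    rw [hm]
    exact (SOne_jen (by linarith only [hp, g0, g1]) (h.mem q hq).2.1 hΓ (hG' q hq)).2
  rw [← ENNReal.ofReal_sum_of_nonneg fun q hq => (k1 q hq).1, Finset.sum_add_distrib,
    ← SOne_int h iF, ← ENNReal.ofReal_toReal hG, ← hC, ← ENNReal.ofReal_mul (hC ▸ c0.le),
    ← ENNReal.ofReal_mul' d0.le]
  refine le_trans (ENNReal.ofReal_le_ofReal ?_) (ENNReal.ofReal_add_le.trans
    (add_le_add_left ENNReal.ofReal_add_le _))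
  have s3 : ∑ q ∈ J, (q.2 - q.1) * (5000 * g * n ^ p + C * m q ^ p + E q * δ) =
      5000 * g * (β - α) * n ^ p + C * ∑ q ∈ J, (q.2 - q.1) * m q ^ p +
        (∑ q ∈ J, (q.2 - q.1) * E q) * δ := by
    rw [← s1, Finset.mul_sum, Finset.mul_sum, Finset.sum_mul, Finset.sum_mul,
      ← Finset.sum_add_distrib, ← Finset.sum_add_distrib]
    exact Finset.sum_congr rfl fun q _ => by ring
  rw [s3]
  linarith only [f1, s2, c0, hC, mul_le_mul_of_nonneg_left s2 (hC ▸ c0.le : 0 ≤ C)]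

end BEp
end
end
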