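import Pool.Agent.Work.MP_f0515e_an.D3.CDisj
import Pool.Agent.Work.MP_f0515e_an.D3.NDefs

-- merged part: Pool.Agent.Work.MP_f0515e_an.D3.XDisj
section
/-! The discs spanning the faces are made disjoint inside prescribed open sets. The faces are frozen
colour by colour; when a face is frozen, all its unfrozen partners are cleaned against it. -/

open Set Metric Filter Topology Function BEv
open scoped NNReal

noncomputable section
namespace BEp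

/-- The invariant of the recursion. -/
def XI {ι α : Type} (S : Set ι) (P : ι → α → Prop) (r : α → α → Prop) (N : ι → ι → Prop)
    (T : Set ι) (σ : ι → α) : Prop :=
  (∀ c ∈ S, P c (σ c)) ∧ ∀ c ∈ S, ∀ a ∈ S, c ≠ a → (¬ N c a ∨ c ∈ T ∨ a ∈ T) → r (σ c) (σ a)

theorem xrec {ι α : Type} {S A T₀ : Set ι} (hA : A.Countable) {P : ι → α → Prop}
    {r : α → α → Prop} {N : ι → ι → Prop} (hN : ∀ c ∈ S, {b | N c b}.Finite)
    (st : ∀ σ T, T₀ ⊆ T → XI S P r N T σ → ∀ b ∈ A,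
      ∃ σ', XI S P r N (insert b T) σ' ∧ ∀ c, ¬ N c b → σ' c = σ c)
    {σ₀ : ι → α} (h : XI S P r N T₀ σ₀) : ∃ σ, XI S P r N (T₀ ∪ A) σ := by
  obtain ⟨e, he⟩ := countable_iff_exists_injOn.1 hA
  let T : ℕ → Set ι := fun n => T₀ ∪ {b | b ∈ A ∧ e b < n}
  have step : ∀ n σ, ∃ σ', XI S P r N (T n) σ → XI S P r N (T (n + 1)) σ' ∧
      ∀ c, (∀ b ∈ A, e b = n → ¬ N c b) → σ' c = σ c := fun n σ => by
    by_cases hI : XI S P r N (T n) σ
    swap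
    · exact ⟨σ, fun k => absurd k hI⟩
    by_cases k : ∃ b ∈ A, e b = n
    · obtain ⟨b, hb, eb⟩ := k
      obtain ⟨σ', a1, a2⟩ := st σ (T n) subset_union_left hI b hb
      have : T (n + 1) = insert b (T n) := by
        ext x
        simp only [T, mem_union, mem_ofPred_eq, mem_insert_iff]
        constructor
        · rintro (k | ⟨k1, k2⟩)
          · exact Or.inr (Or.inl k)
          · by_cases q : e x = n
            · exact Or.inl (he k1 hb (q.trans eb.symm))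
            · exact Or.inr (Or.inr ⟨k1, by omega⟩)
        · rintro (rfl | k | ⟨k1, k2⟩)
          · exact Or.inr ⟨hb, by omega⟩
          · exact Or.inl k
          · exact Or.inr ⟨k1, by omega⟩
      exact ⟨σ', fun _ => ⟨this ▸ a1, fun c hc => a2 c (hc b hb eb)⟩⟩
    · have : T (n + 1) = T n := by
        ext x
        simp only [T, mem_union, mem_ofPred_eq]
        refine or_congr_right (and_congr_right fun k1 => ?_)
        have : e x ≠ n := fun q => k ⟨x, k1, q⟩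
        omega
      exact ⟨σ, fun _ => ⟨this ▸ hI, fun _ _ => rfl⟩⟩
  choose nx hnx using step
  let s : ℕ → ι → α := fun n => Nat.rec σ₀ nx n
  have inv : ∀ n, XI S P r N (T n) (s n) := fun n => by
    induction n with
    | zero => exact (show T₀ = T 0 by simp [T]) ▸ h
    | succ n ih => exact (hnx n _ ih).1
  have bd : ∀ c ∈ S, ∃ M, ∀ b, N c b → e b < M := fun c hc => by
    obtain ⟨M, hM⟩ := ((hN c hc).image e).bddAbove
    exact ⟨M + 1, fun b hb => Nat.lt_succ_of_le (hM ⟨b, hb, rfl⟩)⟩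
  choose! M hM using bd
  have cst : ∀ c ∈ S, ∀ n, M c ≤ n → s n c = s (M c) c := fun c hc n hn => by
    induction n, hn using Nat.le_induction with
    | base => rfl
    | succ n hn ih =>
      rw [← ih]
      exact (hnx n _ (inv n)).2 c fun b _ eb k => by
        have := hM c hc b k
        omega
  refine ⟨fun c => s (M c) c, fun c hc => (inv _).1 c hc, fun c hc a ha ne k => ?_⟩
  have := (inv (M c + M a + e c + e a + 1)).2 c hc a ha ne (k.imp_right fun k => k.imp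
    (fun k => k.imp_right fun k => ⟨k, by omega⟩) fun k => k.imp_right fun k => ⟨k, by omega⟩)
  rwa [cst c hc (M c + M a + e c + e a + 1) (by omega),
    cst a ha (M c + M a + e c + e a + 1) (by omega)] at this

theorem xcol {ι α : Type} {S : Set ι} (hS : S.Countable) {P : ι → α → Prop}
    {r : α → α → Prop} {N : ι → ι → Prop} (hN : ∀ c ∈ S, {b | N c b}.Finite) {col : ι → ℕ} {m : ℕ}
    (hc : ∀ c, col c < m)
    (st : ∀ σ T, XI S P r N T σ → ∀ b ∈ S, (∀ c, c ∉ T → col b ≤ col c) →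
      ∃ σ', XI S P r N (insert b T) σ' ∧ ∀ c, ¬ N c b → σ' c = σ c)
    {σ₀ : ι → α} (h : XI S P r N ∅ σ₀) :
    ∃ σ : ι → α, (∀ c ∈ S, P c (σ c)) ∧ ∀ c ∈ S, ∀ a ∈ S, c ≠ a → r (σ c) (σ a) := by
  have key : ∀ j, ∃ σ, XI S P r N {c | c ∉ S ∨ col c < j} σ := fun j => by
    induction j with
    | zero => exact ⟨σ₀, h.1, fun c hc a ha ne k => h.2 c hc a ha ne (by simpa [hc, ha] using k)⟩
    | succ j ih =>
      obtain ⟨σ, ih⟩ := ih
      obtain ⟨σ', k⟩ := xrec (A := {c | c ∈ S ∧ col c = j}) (hS.mono fun c hc => hc.1) hN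
        (fun σ T hT hI b hb => st σ T hI b hb.1 fun c hc => by
          have : ¬ col c < j := fun q => hc (hT (Or.inr q))
          have := hb.2
          omega) ih
      refine ⟨σ', k.1, fun c hc a ha ne q => k.2 c hc a ha ne (q.imp_right fun q => ?_)⟩
      have t : ∀ x ∈ S, x ∈ {c | c ∉ S ∨ col c < j + 1} →
          x ∈ {c | c ∉ S ∨ col c < j} ∪ {c | c ∈ S ∧ col c = j} := fun x hx k => by
        have := k.resolve_left (not_not.2 hx)
        by_cases q : col x = j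
        · exact Or.inr ⟨hx, q⟩
        · exact Or.inl (Or.inr (by omega))
      exact q.imp (t c hc) (t a ha)
  obtain ⟨σ, k⟩ := key m
  exact ⟨σ, k.1, fun c h1 a h2 ne => k.2 c h1 a h2 ne (Or.inr (Or.inl (Or.inr (hc c))))⟩

variable {Ω : Set (Rn 3)} {K : Kx Ω} {σ τ C : Set (Rn 3)} {f g : Rn 3 → Rn 3}
  {D : Set (Rn 3) → Set (Rn 3)} {R : Set (Set (Rn 3))}

theorem xrb_cvx (hσ : σ ∈ K.cel 2) (hτ : τ ∈ K.cel 2) (ne : σ ≠ τ) : Convex ℝ (rb σ ∩ rb τ) := by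
  have e : rb σ ∩ rb τ = closure σ ∩ closure τ := Subset.antisymm
    (fun x hx => ⟨hx.1.1, hx.2.1⟩) fun x hx =>
      ⟨⟨hx.1, fun k => disjoint_left.1 (not_cl hσ.1 hτ.1 ne (hτ.2.trans hσ.2.symm).le) k hx.2⟩,
        hx.2, fun k => disjoint_left.1 (not_cl hτ.1 hσ.1 ne.symm (hσ.2.trans hτ.2.symm).le) k hx.1⟩
  exact e ▸ (Kx.cells_cvx hσ.1).closure.inter (Kx.cells_cvx hτ.1).closure

/-- Regions for the discs: a face may take parts of the discs of smaller colour it meets. -/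
structure Rgn (K : Kx Ω) (f : Rn 3 → Rn 3) (D : Set (Rn 3) → Set (Rn 3)) (R : Set (Set (Rn 3)))
    (W : Set (Rn 3) → Set (Rn 3)) (col : Set (Rn 3) → ℕ) (m : ℕ) : Prop where
  lt : ∀ c, col c < m
  opn : ∀ c ∈ K.cel 2, IsOpen (W c)
  sub : ∀ c ∈ K.cel 2, D c ⊆ W c
  lf : ∀ C, IsCompact C → C ⊆ f '' Ω → {c | c ∈ K.cel 2 ∧ (W c ∩ C).Nonempty}.Finite
  nest : ∀ c ∈ K.cel 2, ∀ a ∈ K.cel 2, (D c ∩ D a).Nonempty → c ∉ R →
    (a ∈ R ∨ col a ≤ col c) → W a ⊆ W c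

theorem disj_loc (h : Pre K f g D R) {W : Set (Rn 3) → Set (Rn 3)} {col : Set (Rn 3) → ℕ} {m : ℕ}
    (hW : Rgn K f D R W col m) : ∃ F : Set (Rn 3) → Set (Rn 3),
    (∀ c ∈ K.cel 2, PDsc (F c) (g '' rb c) ∧ F c ⊆ f '' Ω ∧ F c ∩ g '' K.sk 1 ⊆ g '' rb c ∧
      F c ⊆ W c ∧ (c ∈ R → F c = D c)) ∧
    ∀ c ∈ K.cel 2, ∀ c' ∈ K.cel 2, c ≠ c' → F c ∩ F c' ⊆ g '' K.sk 1 := by
  classical
  have sk : ∀ a ∈ K.cel 2, rb a ⊆ K.sk 1 := fun a ha => rb_sk ha.1 ha.2.le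
  refine xcol ((K.countable h.opn).mono fun c hc => hc.1)
    (P := fun c F => PDsc F (g '' rb c) ∧ F ⊆ f '' Ω ∧ F ∩ g '' K.sk 1 ⊆ g '' rb c ∧
      F ⊆ W c ∧ (c ∈ R → F = D c)) (r := fun A B => A ∩ B ⊆ g '' K.sk 1)
    (N := fun c a => c ∈ K.cel 2 ∧ a ∈ K.cel 2 ∧ ¬ D c ∩ D a ⊆ g '' K.sk 1)
    (col := fun c => if c ∈ R then 0 else col c + 1) (m := m + 1)
    (fun c hc => (hW.lf _ (h.disc c hc).cpt (h.dV c hc)).subset fun a ha => ⟨ha.2.1, ?_⟩)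
    (fun c => by have := hW.lt c; split_ifs <;> omega) (fun F T hI b hb hT => ?_) (σ₀ := D)
    ⟨fun c hc => ⟨h.disc c hc, h.dV c hc, h.dG c hc, hW.sub c hc, fun _ => rfl⟩,
      fun c hc a ha _ k => by simpa [hc, ha] using k⟩
  · obtain ⟨x, hx, -⟩ := not_subset.1 ha.2.2
    exact ⟨x, hW.sub a ha.2.1 hx.2, hx.1⟩
  obtain ⟨p, q⟩ := hI
  let Z := {c | c ∈ K.cel 2 ∧ c ∉ T ∧ c ≠ b ∧ ¬ D c ∩ D b ⊆ g '' K.sk 1}
  have ne0 : ∀ c ∈ Z, (D c ∩ D b).Nonempty := fun c hc =>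
    (not_subset.1 hc.2.2.2).imp fun x hx => hx.1
  have fin : Z.Finite := (hW.lf _ (h.disc b hb).cpt (h.dV b hb)).subset fun a ha =>
    ⟨ha.1, (ne0 a ha).mono (inter_subset_inter_left _ (hW.sub a ha.1))⟩
  have nR : ∀ c ∈ Z, c ∉ R ∧ (b ∈ R ∨ col b ≤ col c) := fun c hc => by
    have k := hT c hc.2.1
    by_cases k1 : c ∈ R
    · by_cases k2 : b ∈ R
      · exact absurd (h.rdis c k1 hc.1 b k2 hb hc.2.2.1) hc.2.2.2
      · simp [k1, k2] at k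
    · by_cases k2 : b ∈ R
      · exact ⟨k1, Or.inl k2⟩
      · exact ⟨k1, Or.inr (by simpa [k1, k2] using k)⟩
  obtain ⟨C, c1, c2, c3⟩ := exists_compact_between
    ((p b hb).1.cpt.union (fin.isCompact_biUnion fun a ha => (p a ha.1).1.cpt))
    (open_img h.cont h.inj h.opn Subset.rfl)
    (union_subset (p b hb).2.1 (iUnion₂_subset fun a ha => (p a ha.1).2.1))
  have d1 := subset_union_left.trans c2
  have d2 : ∀ a ∈ Z, F a ⊆ interior C := fun a ha =>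
    ((subset_biUnion_of_mem (u := F) ha).trans subset_union_right).trans c2
  set X := ⋃ e ∈ {e | e ∈ K.cells ∧ dm e ≤ 1 ∧ (g '' closure e ∩ C).Nonempty}, g '' closure e
  have x1 : X ⊆ g '' K.sk 1 := iUnion₂_subset fun e he => image_mono (Kx.cl_sub_sk he.1 he.2.1)
  have x2 : ∀ y ∈ g '' K.sk 1, y ∈ interior C → y ∈ X := fun y a b => by
    obtain ⟨x, hx, rfl⟩ := a
    have m := mem_image_of_mem g (subset_closure (K.mem x hx.1))
    exact mem_biUnion ⟨K.cell_mem hx.1, hx.2, _, m, interior_subset b⟩ m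
  have xp : Poly X := Poly.biUnion (h.glf C c1 c3) fun e he => by
    obtain ⟨u, u1, u2⟩ := h.gtp e he.1 he.2.1
    exact u2.image_eq ▸ (Kx.cells_poly he.1).image u1
  let Y : Set (Rn 3) → Set (Set (Rn 3)) := fun c => {a | (a ∈ K.cel 2 ∧ (W a ∩ C).Nonempty) ∧
    a ∉ Z ∧ a ≠ b ∧ (D c ∩ D a ⊆ g '' K.sk 1 ∨ a ∈ T)}
  have := fin.to_subtype
  have gi : ∀ c ∈ K.cel 2, g '' rb c ∩ g '' rb b = g '' (rb c ∩ rb b) := fun c hc =>
    (h.ginj.image_inter (sk c hc) (sk b hb)).symm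
  obtain ⟨u, u1, u2⟩ := glue_sk h.gtp (Kx.cells_poly hb.1).1 (Kx.cl_sub hb.1)
  have u3 : EqOn g u (rb b) := fun z hz => u2 ⟨sk b hb hz, hz.1⟩
  have u4 : InjOn u (rb b) := (h.ginj.mono (sk b hb)).congr u3
  refine (xclean (κ := Z) (D := fun a => F a) (J := fun a => g '' rb a.1)
    (X := fun c => X ∪ ⋃ a ∈ Y c, F a) (W := fun c => W c ∩ interior C)
    (r := fun c a => c ≠ a ∧ D c ∩ D a ⊆ g '' K.sk 1)
    ⟨fun c => ⟨(p c c.2.1).1, ?_, subset_inter (p c c.2.1).2.2.2.1 (d2 c c.2)⟩, fun c a k x hx =>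
      (p c c.2.1).2.2.1 ⟨hx.1, q c c.2.1 a a.2.1 (fun e => k.1 (Subtype.ext e))
        (Or.inl fun e => e.2.2 k.2) hx⟩⟩ (p b hb).1.dsc
    (fun c => xp.union (Poly.biUnion ((hW.lf C c1 c3).subset fun a ha => ha.1)
      fun a ha => (p a ha.1.1).1.poly))
    (fun c => (hW.opn c c.2.1).inter isOpen_interior)
    (fun c y hy => Or.inl (x2 y (image_mono (sk c c.2.1) hy) (d2 c c.2 ((p c c.2.1).1.sub hy))))
    (fun c y hy => Or.inl (x2 y (image_mono (sk b hb) hy) (d1 ((p b hb).1.sub hy)))) ?_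
    (fun c => subset_inter ((p b hb).2.2.2.1.trans
      (hW.nest c c.2.1 b hb (ne0 c c.2) (nR c c.2).1 (nR c c.2).2)) d1) ?_
    (fun c a k => ⟨k.1.symm, inter_comm (D a) _ ▸ k.2⟩) (fun c k => k.1 rfl) ?_).elim
    fun D' ⟨e1, e2⟩ => ?_
  rotate_right
  · let F' : Set (Rn 3) → Set (Rn 3) := fun c => if k : c ∈ Z then D' ⟨c, k⟩ else F c
    have f1 : ∀ c (k : c ∈ Z), F' c = D' ⟨c, k⟩ := fun c k => dif_pos k
    have f2 : ∀ c, c ∉ Z → F' c = F c := fun c k => dif_neg k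
    have mix : ∀ c (k : c ∈ Z), ∀ a ∈ K.cel 2, a ∉ Z →
        (D c ∩ D a ⊆ g '' K.sk 1 ∨ a ∈ insert b T) → D' ⟨c, k⟩ ∩ F a ⊆ g '' K.sk 1 := by
      intro c k a ha k' hy x hx
      refine image_mono (sk c k.1) ?_
      by_cases e : a = b
      · exact e2 ⟨c, k⟩ ⟨hx.1, e ▸ hx.2⟩
      · exact (e1.bs ⟨c, k⟩).dx ⟨hx.1, Or.inr (mem_biUnion (show a ∈ Y c from
          ⟨⟨ha, x, (p a ha).2.2.2.1 hx.2, interior_subset ((e1.bs ⟨c, k⟩).dw hx.1).2⟩, k', e,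
            hy.imp_right fun k => k.resolve_left e⟩) hx.2)⟩
    have nT : ∀ c ∈ Z, c ∉ insert b T := fun c k e => e.elim k.2.2.1 k.2.1
    refine ⟨F', ⟨fun c hc => ?_, fun c hc a ha ne k => ?_⟩, fun c k => f2 c fun e =>
      k ⟨e.1, hb, e.2.2.2⟩⟩
    · by_cases k : c ∈ Z
      · rw [f1 c k]
        have w := (e1.bs ⟨c, k⟩).dw
        exact ⟨(e1.bs ⟨c, k⟩).pd, fun x hx => c3 (interior_subset (w hx).2), fun x hx =>
          (e1.bs ⟨c, k⟩).dx ⟨hx.1, Or.inl (x2 x hx.2 (w hx.1).2)⟩, fun x hx => (w hx).1,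
          fun e => absurd e (nR c k).1⟩
      · rw [f2 c k]
        exact p c hc
    · replace k : D c ∩ D a ⊆ g '' K.sk 1 ∨ c ∈ insert b T ∨ a ∈ insert b T :=
        k.imp_left fun k => by_contra fun e => k ⟨hc, ha, e⟩
      by_cases k1 : c ∈ Z <;> by_cases k2 : a ∈ Z
      · rw [f1 c k1, f1 a k2]
        exact (e1.dj ⟨c, k1⟩ ⟨a, k2⟩ ⟨fun e => ne (congrArg Subtype.val e),
          k.resolve_right fun e => e.elim (nT c k1) (nT a k2)⟩).trans (image_mono (sk c hc))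
      · rw [f1 c k1, f2 a k2]
        exact mix c k1 a ha k2 (k.imp_right fun e => e.resolve_left (nT c k1))
      · rw [f2 c k1, f1 a k2]
        exact (inter_comm _ _).le.trans (mix a k2 c hc k1 (k.imp (fun e => inter_comm (D c) _ ▸ e)
          fun e => e.resolve_right (nT a k2)))
      · rw [f2 c k1, f2 a k2]
        refine q c hc a ha ne ?_
        by_contra e
        simp only [not_or, not_not] at e
        rcases k with k | (k | k) | k | k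
        · exact e.1.2.2 k
        · exact k2 ⟨ha, e.2.2, fun t => ne (k.trans t.symm), by
            rw [← k, inter_comm]; exact e.1.2.2⟩
        · exact e.2.1 k
        · exact k1 ⟨hc, e.2.1, fun t => ne (t.trans k.symm), by rw [← k]; exact e.1.2.2⟩
        · exact e.2.2 k
  · rintro x ⟨hx, k | k⟩
    · exact (p c c.2.1).2.2.1 ⟨hx, x1 k⟩
    · obtain ⟨a, ha, k⟩ := mem_iUnion₂.1 k
      exact (p c c.2.1).2.2.1 ⟨hx, q c c.2.1 a ha.1.1 (fun e => ha.2.1 (e ▸ c.2))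
        (ha.2.2.2.imp (fun t e => e.2.2 t) Or.inr) ⟨hx, k⟩⟩
  · rintro c x ⟨hx, k | k⟩
    · exact (p b hb).2.2.1 ⟨hx, x1 k⟩
    · obtain ⟨a, ha, k⟩ := mem_iUnion₂.1 k
      refine (p b hb).2.2.1 ⟨hx, q b hb a ha.1.1 ha.2.2.1.symm ?_ ⟨hx, k⟩⟩
      by_contra e
      simp only [not_or, not_not] at e
      exact ha.2.1 ⟨ha.1.1, e.2.2, ha.2.2.1, by rw [inter_comm]; exact e.1.2.2⟩
  · intro c
    rw [gi c c.2.1]
    refine (rb_arc c.2.1 hb c.2.2.2.1).imp (fun k => k.image g) ?_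
    rintro ⟨x, y, k⟩
    exact ⟨_, _, (u3.mono inter_subset_right).image_eq ▸ k.image u1 (u4.mono inter_subset_right)⟩
  · intro c a _
    rw [gi c c.2.1, gi a a.2.1, ← h.ginj.image_inter (inter_subset_right.trans (sk b hb))
      (inter_subset_right.trans (sk b hb))]
    rintro _ ⟨x, hx, rfl⟩ _ ⟨y, hy, rfl⟩ ne
    have s := ((xrb_cvx c.2.1 hb c.2.2.2.1).inter (xrb_cvx a.2.1 hb a.2.2.2.1)).segment_subset hx hy
    have s' : segment ℝ x y ⊆ rb b := fun z hz => (s hz).1.2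
    refine ⟨g '' segment ℝ x y, ?_, image_mono s⟩
    rw [(u3.mono s').image_eq, u3 hx.1.2, u3 hy.1.2]
    exact (arc_seg fun e => ne (by rw [e])).image u1 (u4.mono s')

end BEp
end
end

-- merged part: Pool.Agent.Work.MP_f0515e_an.D3.XCol
section
/-! Regions and colours from a slowly varying scale in the target. -/

open Set Metric Filter Topology Function BEv
open scoped NNReal

noncomputable section
namespace BEp

/-- A slowly varying scale on the set `V`. -/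
structure Scl (V : Set (Rn 3)) (s : Rn 3 → ℝ) (L : ℝ) : Prop where
  pos : ∀ y ∈ V, 0 < s y
  lip : ∀ y z, L * |s y - s z| ≤ ‖y - z‖
  sub : ∀ y ∈ V, ball y (L * s y) ⊆ V

variable {V : Set (Rn 3)} {s : Rn 3 → ℝ} {L : ℝ}

theorem Scl.mono (h : Scl V s L) {L' : ℝ} (hL : L' ≤ L) : Scl V s L' :=
  ⟨h.pos, fun y z => (mul_le_mul_of_nonneg_right hL (abs_nonneg _)).trans (h.lip y z), fun y hy =>
    (ball_subset_ball (mul_le_mul_of_nonneg_right hL (h.pos y hy).le)).trans (h.sub y hy)⟩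

theorem Scl.smul (h : Scl V s L) {a : ℝ} (ha : 0 < a) : Scl V (fun y => a * s y) (L / a) := by
  refine ⟨fun y hy => mul_pos ha (h.pos y hy), fun y z => ?_, fun y hy => ?_⟩
  · rw [← mul_sub, abs_mul, abs_of_pos ha, ← mul_assoc, div_mul_cancel₀ _ ha.ne']
    exact h.lip y z
  · rw [← mul_assoc, div_mul_cancel₀ _ ha.ne']
    exact h.sub y hy

theorem Scl.cont (h : Scl V s L) (hL : 0 < L) : Continuous s := by
  refine (LipschitzWith.of_dist_le' (K := L⁻¹) fun y z => ?_).continuous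
  rw [Real.dist_eq, dist_eq_norm, le_inv_mul_iff₀ hL]
  exact h.lip y z

/-- Nearby points have comparable scales. -/
theorem Scl.le (h : Scl V s L) {y z : Rn 3} {a : ℝ} (ha : 0 ≤ a) (hL : 2 * a < L) (hy : y ∈ V)
    (k : ‖y - z‖ ≤ a * s y) : s y ≤ 2 * s z ∧ s z ≤ 2 * s y := by
  have h1 := h.lip y z
  have h2 := h.pos y hy
  have h3 : 2 * |s y - s z| ≤ s y := by
    by_contra e
    nlinarith [abs_nonneg (s y - s z)]
  constructor <;> linarith [le_abs_self (s y - s z), neg_abs_le (s y - s z)]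

/-- The points whose balls meet a compact set lie in a compact set. -/
theorem Scl.cpt (h : Scl V s L) {a : ℝ} (ha : 0 ≤ a) (hL : 2 * a < L) {C : Set (Rn 3)}
    (hC : IsCompact C) (hs : C ⊆ V) : ∃ C', IsCompact C' ∧ C' ⊆ V ∧
      ∀ y ∈ V, ∀ x ∈ C, ‖y - x‖ ≤ a * s y → y ∈ C' := by
  have c := h.cont (by linarith)
  refine ⟨(fun p : Rn 3 × Rn 3 => p.1 + (2 * a * s p.1) • p.2) '' (C ×ˢ closedBall 0 1),
    (hC.prod (isCompact_closedBall _ _)).image (by fun_prop), ?_, fun y hy x hx k => ?_⟩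
  · rintro _ ⟨⟨x, u⟩, ⟨hx, hu⟩, rfl⟩
    have p := h.pos x (hs hx)
    refine h.sub x (hs hx) ?_
    rw [mem_ball_iff_norm, add_sub_cancel_left, norm_smul, Real.norm_of_nonneg (by positivity)]
    have := mem_closedBall_zero_iff.1 hu
    nlinarith [mul_nonneg ha p.le]
  · have p := h.pos x (hs hx)
    have q := (h.le ha hL hy k).1
    have q2 : ‖y - x‖ ≤ 2 * a * s x := by nlinarith
    rcases ha.eq_or_lt with e | e
    · refine ⟨(x, 0), ⟨hx, by simp⟩, ?_⟩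
      rw [← e] at q2
      have : y - x = 0 := by simpa using q2
      simp [sub_eq_zero.1 this]
    · have p2 : 0 < 2 * a * s x := by positivity
      refine ⟨(x, (2 * a * s x)⁻¹ • (y - x)), ⟨hx, ?_⟩, by
        simp only [smul_inv_smul₀ p2.ne', add_sub_cancel]⟩
      rw [mem_closedBall_zero_iff, norm_smul, Real.norm_of_nonneg (by positivity),
        inv_mul_le_iff₀ p2, mul_one]
      exact q2

/-- A scale below a given function which is locally bounded from below. -/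
theorem scl_exists (hV : IsOpen V) {θ : Rn 3 → ℝ}
    (hθ : ∀ y ∈ V, ∃ c, 0 < c ∧ ∀ᶠ z in 𝓝 y, c ≤ θ z) (hL : 0 < L) :
    ∃ s, Scl V s L ∧ ∀ y ∈ V, s y ≤ θ y := by
  classical
  let t : Rn 3 → ℝ := fun z => if z ∈ V then θ z else 0
  have t0 : ∀ z, 0 ≤ t z := fun z => by
    by_cases e : z ∈ V
    · obtain ⟨c, c0, k⟩ := hθ z e
      exact (c0.le.trans k.self_of_nhds).trans_eq (if_pos e).symm
    · exact (if_neg e).ge
  have bd : ∀ y, BddBelow (range fun z => t z + ‖y - z‖ / L) := fun y =>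
    ⟨0, by rintro _ ⟨z, rfl⟩; exact add_nonneg (t0 z) (by positivity)⟩
  have le : ∀ y z, ⨅ z, (t z + ‖y - z‖ / L) ≤ t z + ‖y - z‖ / L := fun y z => ciInf_le (bd y) z
  have lip : ∀ y y', ⨅ z, (t z + ‖y - z‖ / L) ≤ (⨅ z, (t z + ‖y' - z‖ / L)) + ‖y - y'‖ / L := by
    intro y y'
    rw [← sub_le_iff_le_add]
    refine le_ciInf fun z => ?_
    have := div_le_div_of_nonneg_right (norm_sub_le_norm_sub_add_norm_sub y y' z) hL.le
    rw [add_div] at this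
    linarith [le y z]
  refine ⟨fun y => ⨅ z, (t z + ‖y - z‖ / L), ⟨fun y hy => ?_, fun y z => ?_, fun y hy z hz => ?_⟩,
    fun y hy => by simpa [t, hy] using le y y⟩
  · obtain ⟨c, c0, k⟩ := hθ y hy
    obtain ⟨r, r0, k⟩ := Metric.eventually_nhds_iff.1 (k.and (hV.mem_nhds hy))
    refine (lt_min c0 (div_pos r0 hL)).trans_le (le_ciInf fun z => ?_)
    by_cases e : dist z y < r
    · have : t z = θ z := if_pos (k e).2
      exact (min_le_left _ _).trans (le_add_of_le_of_nonneg (this ▸ (k e).1) (by positivity))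
    · refine (min_le_right _ _).trans (le_add_of_nonneg_of_le (t0 z) ?_)
      rw [dist_comm, dist_eq_norm, not_lt] at e
      exact div_le_div_of_nonneg_right e hL.le
  · rw [← le_div_iff₀' hL, abs_le]
    have := lip z y
    rw [norm_sub_rev] at this
    constructor <;> linarith [lip y z]
  · by_contra e
    have := le y z
    rw [show t z = 0 from if_neg e, zero_add, le_div_iff₀' hL, norm_sub_rev] at this
    exact (mem_ball_iff_norm.1 hz).not_ge this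

/-- Blocks and colours. -/
theorem Scl.blocks (h : Scl V s L) (hL : 10 ≤ L) :
    ∃ (a : Rn 3 → ℝ) (z : Rn 3 → Rn 3) (col : Rn 3 → ℕ), (∀ p, col p < 16) ∧
      (∀ p ∈ V, a p ≤ s p ∧ s p < 2 * a p ∧ ‖p - z p‖ ≤ 8 * a p) ∧
      ∀ p ∈ V, ∀ q ∈ V, ‖p - q‖ < s p + s q → a q ≤ 2 * a p ∧
        (col p = col q → a p = a q ∧ z p = z q) := by
  choose! l hl using fun p (hp : p ∈ V) => exists_mem_Ico_zpow (h.pos p hp) (one_lt_two (α := ℝ))
  let k : Rn 3 → Fin 3 → ℤ := fun p i => ⌊p i / (8 * 2 ^ l p)⌋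
  have key : ∀ p ∈ V, ∀ q ∈ V, ‖p - q‖ < s p + s q → l q ≤ l p + 1 := fun p hp q hq e => by
    have h1 := h.lip p q
    have h2 := (hl p hp).2
    have h3 := (hl q hq).1
    have h4 := h.pos p hp
    have h5 : s q < 2 * s p := by
      by_contra n
      nlinarith [neg_abs_le (s p - s q), abs_nonneg (s p - s q)]
    have h6 : (2 : ℝ) ^ l q < 2 ^ (l p + 1 + 1) := by
      rw [zpow_add_one₀ two_ne_zero]
      linarith
    have := (zpow_lt_zpow_iff_right₀ (one_lt_two (α := ℝ))).1 h6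
    omega
  refine ⟨fun p => 2 ^ l p, fun p i => 8 * 2 ^ l p * k p i, fun p =>
    (l p % 2 + 2 * (k p 0 % 2) + 4 * (k p 1 % 2) + 8 * (k p 2 % 2)).toNat,
    fun p => by beta_reduce; omega,
    fun p hp => ⟨(hl p hp).1, ?_, ?_⟩, fun p hp q hq e => ⟨?_, fun ec => ?_⟩⟩
  · have := (hl p hp).2
    rwa [zpow_add_one₀ two_ne_zero, mul_comm] at this
  · have p0 : (0 : ℝ) < 8 * 2 ^ l p := by positivity
    refine (pi_norm_le_iff_of_nonneg p0.le).2 fun i => ?_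
    have a1 := Int.floor_le (p i / (8 * 2 ^ l p))
    have a2 := Int.lt_floor_add_one (p i / (8 * 2 ^ l p))
    rw [le_div_iff₀' p0] at a1
    rw [div_lt_iff₀' p0, mul_add, mul_one] at a2
    exact abs_le.2 ⟨by simp only [Pi.sub_apply, k]; linarith, by
      simp only [Pi.sub_apply, k]; linarith⟩
  · rw [mul_comm, ← zpow_add_one₀ two_ne_zero]
    exact zpow_le_zpow_right₀ one_le_two (key p hp q hq e)
  · beta_reduce at ec
    have e1 := key p hp q hq e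
    have e2 := key q hq p hp (by rwa [norm_sub_rev, add_comm])
    have e3 : l p = l q := by omega
    have p0 : (0 : ℝ) < 8 * 2 ^ l q := by positivity
    have e4 : ∀ i, k p i ≤ k q i + 1 ∧ k q i ≤ k p i + 1 := fun i => by
      have b1 := (hl p hp).2
      have b2 := (hl q hq).2
      rw [e3] at b1
      rw [zpow_add_one₀ two_ne_zero] at b1 b2
      have b3 := abs_le.1 (norm_le_pi_norm (p - q) i)
      rw [Pi.sub_apply] at b3
      simp only [k, e3, ← Int.floor_add_one]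
      constructor <;> refine Int.floor_le_floor ?_ <;>
        rw [div_add_one p0.ne', div_le_div_iff_of_pos_right p0] <;> linarith [b3.1, b3.2]
    have e5 : k p = k q := funext fun i => by
      have := e4 0
      have := e4 1
      have := e4 2
      fin_cases i <;> simp only [Fin.zero_eta, Fin.mk_one, Fin.reduceFinMk] <;> omega
    simp only [e3, e5, and_self]

variable {Ω : Set (Rn 3)} {K : Kx Ω} {f : Rn 3 → Rn 3} {D : Set (Rn 3) → Set (Rn 3)}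

theorem rgn_exists (h : Scl (f '' Ω) s (10 ^ 10)) (R : Set (Set (Rn 3))) {y : Set (Rn 3) → Rn 3}
    (hy : ∀ c ∈ K.cel 2, y c ∈ f '' Ω) (hD : ∀ c ∈ K.cel 2, D c ⊆ ball (y c) (s (y c)))
    (lf : ∀ C, IsCompact C → C ⊆ f '' Ω → {c | c ∈ K.cel 2 ∧ y c ∈ C}.Finite) :
    ∃ W col m, Rgn K f D R W col m ∧ ∀ c ∈ K.cel 2, W c ⊆ ball (y c) (2 * 10 ^ 9 * s (y c)) := by
  classical
  obtain ⟨a, z, col, h1, h2, h3⟩ := h.blocks (by norm_num)
  let W : Set (Rn 3) → Set (Rn 3) := fun c =>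
    if c ∈ R then ball (y c) (s (y c)) else ball (z (y c)) (30 * 3 ^ (col (y c) + 1) * a (y c))
  have w1 : ∀ c ∈ R, W c = ball (y c) (s (y c)) := fun c k => if_pos k
  have w2 : ∀ c, c ∉ R → W c = ball (z (y c)) (30 * 3 ^ (col (y c) + 1) * a (y c)) :=
    fun c k => if_neg k
  have t1 : ∀ n : ℕ, (3 : ℝ) ≤ 3 ^ (n + 1) := fun n => le_self_pow₀ (by norm_num) (by omega)
  have hw : ∀ c ∈ K.cel 2, W c ⊆ ball (y c) (2 * 10 ^ 9 * s (y c)) := fun c hc => by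
    obtain ⟨b1, b2, b3⟩ := h2 _ (hy c hc)
    have b4 := h.pos _ (hy c hc)
    by_cases k : c ∈ R
    · rw [w1 c k]
      exact ball_subset_ball (by linarith)
    · rw [w2 c k]
      refine ball_subset_ball' ?_
      have : (3 : ℝ) ^ (col (y c) + 1) ≤ 3 ^ 16 :=
        pow_le_pow_right₀ (by norm_num) (h1 (y c))
      rw [dist_comm, dist_eq_norm]
      nlinarith
  refine ⟨W, fun c => col (y c), 16, ⟨fun c => h1 _, fun c _ => ?_, fun c hc => ?_,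
    fun C c1 c2 => ?_, fun c hc b hb ⟨x, hx⟩ k k' => ?_⟩, hw⟩
  · by_cases k : c ∈ R
    · exact w1 c k ▸ isOpen_ball
    · exact w2 c k ▸ isOpen_ball
  · obtain ⟨b1, b2, b3⟩ := h2 _ (hy c hc)
    have b4 := h.pos _ (hy c hc)
    by_cases k : c ∈ R
    · exact w1 c k ▸ hD c hc
    · rw [w2 c k]
      refine (hD c hc).trans (ball_subset_ball' ?_)
      rw [dist_eq_norm]
      nlinarith [t1 (col (y c))]
  · obtain ⟨C', d1, d2, d3⟩ := h.cpt (a := 2 * 10 ^ 9) (by norm_num) (by norm_num) c1 c2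
    refine (lf C' d1 d2).subset ?_
    rintro c ⟨hc, x, hx, hx'⟩
    exact ⟨hc, d3 _ (hy c hc) x hx' (mem_ball_iff_norm'.1 (hw c hc hx)).le⟩
  · obtain ⟨b1, b2, b3⟩ := h2 _ (hy c hc)
    obtain ⟨d1, d2, d3⟩ := h2 _ (hy b hb)
    have b4 := h.pos _ (hy c hc)
    have d4 := h.pos _ (hy b hb)
    have e : ‖y c - y b‖ < s (y c) + s (y b) := by
      have := norm_sub_le_norm_sub_add_norm_sub (y c) x (y b)
      linarith [mem_ball_iff_norm'.1 (hD c hc hx.1), mem_ball_iff_norm.1 (hD b hb hx.2)]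
    obtain ⟨e1, e2⟩ := h3 _ (hy c hc) _ (hy b hb) e
    have e3 : ‖y b - z (y c)‖ ≤ 14 * a (y c) := by
      have := norm_sub_le_norm_sub_add_norm_sub (y b) (y c) (z (y c))
      rw [norm_sub_rev (y b) (y c)] at this
      linarith
    rw [w2 c k]
    by_cases kb : b ∈ R
    · rw [w1 b kb]
      refine ball_subset_ball' ?_
      rw [dist_eq_norm]
      nlinarith [t1 (col (y c))]
    rw [w2 b kb]
    rcases (k'.resolve_left kb).eq_or_lt with q | q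
    · rw [(e2 q.symm).1, (e2 q.symm).2, show col (y c) = col (y b) from q.symm]
    · refine ball_subset_ball' ?_
      have e4 := norm_sub_le_norm_sub_add_norm_sub (z (y b)) (y b) (z (y c))
      rw [norm_sub_rev (z (y b)) (y b)] at e4
      have e5 : (3 : ℝ) ^ (col (y b) + 1) * 3 ≤ 3 ^ (col (y c) + 1) := by
        rw [← pow_succ]
        exact pow_le_pow_right₀ (by norm_num) (by omega)
      have e6 := t1 (col (y b))
      rw [dist_eq_norm]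
      nlinarith

end BEp
end
end

-- merged part: Pool.Agent.Work.MP_f0515e_an.P3.TDefs
section
/-! Interface between the analysis and the exchange block for `2 < p < 3`. -/

open Set Metric Filter Topology Function BEv MeasureTheory
open scoped NNReal ENNReal

noncomputable section
namespace BEp

/-- A sharp piece: chord (one direction), plate (two) or solid (three). -/
structure Pc where
  c : Rn 3
  I : Finset (Fin 3)
  ρ : ℝ
  A : Rn 3 ≃L[ℝ] Rn 3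
  y : Rn 3
  n : ℕ

namespace Pc
variable (P : Pc)

def l : ℝ := 1 / 2 ^ P.n

def aff (x : Rn 3) : Rn 3 := P.A (x - P.c) + P.y

def Q (ρ : ℝ) : Set (Rn 3) := {x | (∀ i, i ∉ P.I → x i = P.c i) ∧ ∀ i ∈ P.I, |x i - P.c i| ≤ ρ}

/-- The barrier: the piece itself, or the boundary of a solid. -/
def Bd : Set (Rn 3) := {x | x ∈ P.Q P.ρ ∧ (P.I.card = 3 → ∃ i, |x i - P.c i| = P.ρ)}

/-- Size of the rigid part: a plate has a flat ring of width `l` around it. -/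
def ρx : ℝ := if P.I.card = 2 then P.ρ + P.l else P.ρ

/-- The barrier together with the ring. -/
def Bx : Set (Rn 3) := {x | x ∈ P.Q P.ρx ∧ (P.I.card = 3 → ∃ i, |x i - P.c i| = P.ρ)}

/-- Interior of a solid; empty for the other pieces. -/
def In : Set (Rn 3) := P.Q P.ρ \ P.Bd

/-- Same position with respect to the lattice planes. -/
def Lat (x x' : Rn 3) : Prop := ∀ (i : Fin 3) (k : ℤ),
  (x i - P.c i ≤ k * P.l ↔ x' i - P.c i ≤ k * P.l) ∧ (k * P.l ≤ x i - P.c i ↔ k * P.l ≤ x' i - P.c i)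

/-- `y` is within `a` of the image of the barrier. -/
def Nr (a : ℝ) (y : Rn 3) : Prop := ∃ x ∈ P.Bx, ‖y - P.aff x‖ ≤ a

structure Ok : Prop where
  ne : P.I.Nonempty
  rat : ∃ m : ℕ, 0 < m ∧ ∀ i j, ∃ k : ℤ, m * P.A.symm (Pi.single j 1) i = k
  lat : ∀ i, ∃ k : ℤ, P.y i = k * P.l
  rho : ∃ k : ℕ, 0 < k ∧ P.ρ = k * P.l

end Pc

/-- Affine chart of a face. -/
structure Ch where
  o : Rn 3
  M : Rn 2 →L[ℝ] Rn 3
  U : Set (Rn 2)

namespace Ch
variable (h : Ch)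

def φ (ξ : Rn 2) : Rn 3 := h.o + h.M ξ

def Of (F : Set (Rn 3)) : Prop := Injective h.M ∧ IsOpen h.U ∧ h.φ '' h.U = F

def Rd (r R : ℝ) : Prop := 0 < r ∧ ∃ c, ball c r ⊆ h.U ∧ h.U ⊆ ball c R

/-- Energy on the face, in the chart. -/
def E (p : ℝ) (G : Rn 3 → Rn 3) : ℝ≥0∞ := ∫⁻ ξ in h.U, ‖fderiv ℝ (G ∘ h.φ) ξ‖ₑ ^ p

end Ch

/-- Locally bounded below by positive numbers. -/
def LB {n : ℕ} (V : Set (Rn n)) (θ : Rn n → ℝ) : Prop :=
  ∀ y ∈ V, ∃ c, 0 < c ∧ ∀ᶠ z in 𝓝 y, c ≤ θ z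

/-- Data of a target structure: mesh, shape factor, margin, centres, stretch of the blow up,
points off the holes. -/
structure TS where
  l : Rn 3 → ℝ
  c : Rn 3 → ℝ
  mrg : Rn 3 → ℝ
  Ctr : Rn 3 → Set (Rn 3)
  β : Rn 3 → Rn 3 → ℝ≥0∞
  Good : Set (Rn 3)

section
variable {ι : Type}

/-- The pieces lie apart from each other, well inside `V`, and below the tolerance. -/
structure PcIn (V : Set (Rn 3)) (θ : Rn 3 → ℝ) (Cf : (Rn 3 ≃L[ℝ] Rn 3) → ℝ) (P : ι → Pc) :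
    Prop where
  ok : ∀ b, (P b).Ok
  sub : ∀ b, ∀ x ∈ (P b).Q (P b).ρx, ∀ y, ‖y - (P b).aff x‖ ≤ Cf (P b).A * (P b).l →
    y ∈ V ∧ Cf (P b).A * (P b).l ≤ θ y
  sep : ∀ b b', b ≠ b' → ∀ x ∈ (P b).Q (P b).ρx, ∀ x' ∈ (P b').Q (P b').ρx,
    Cf (P b).A * (P b).l + Cf (P b').A * (P b').l < ‖(P b).aff x - (P b').aff x'‖

/-- The blow up of the centres. -/
structure Blow (V : Set (Rn 3)) (T : TS) (g : ℝ) (Cf : (Rn 3 ≃L[ℝ] Rn 3) → ℝ) (P : ι → Pc)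
    (ζ : Rn 3) (Y : Set (Rn 3)) (B : Rn 3 → Rn 3) : Prop where
  cont : ContinuousOn B V
  bij : BijOn B V V
  mv : ∀ y ∈ V, ‖B y - y‖ ≤ T.l y
  fix : ∀ b y, (P b).Nr (g * (P b).l / Cf (P b).A) y ∨ y ∈ (P b).aff '' (P b).Q (P b).ρx → B y = y
  good : ∀ y ∈ Y, (∀ b, y ∈ (P b).aff '' (P b).In → (P b).Nr (g * (P b).l / Cf (P b).A) y) →
    B y ∈ T.Good
  lip : ∃ ρ, LB V ρ ∧ ∀ y ∈ Y, T.β ζ y ≠ ⊤ ∧ ∀ y₁ ∈ ball y (ρ y), ∀ y₂ ∈ ball y (ρ y),
    ‖B y₁ - B y₂‖ₑ ≤ T.β ζ y * ‖y₁ - y₂‖ₑ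

variable {Ω : Set (Rn 3)}

/-- Hypotheses of the exchange theorem. -/
structure HIn (V : Set (Rn 3)) (T : TS) (g : ℝ) (Cf : (Rn 3 ≃L[ℝ] Rn 3) → ℝ) (P : ι → Pc)
    (K : Kx Ω) (G : Rn 3 → Rn 3) (ch : Set (Rn 3) → Ch) (r R τ : Set (Rn 3) → ℝ) : Prop where
  opn : IsOpen Ω
  ltp : LTP Ω G
  inj : InjOn G Ω
  sub : G '' Ω ⊆ V
  lf : ∀ C, IsCompact C → C ⊆ V →
    {e | e ∈ K.cells ∧ dm e ≤ 2 ∧ (G '' closure e ∩ C).Nonempty}.Finite
  QS : ∀ b, (P b).Q (P b).ρx ⊆ Ω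
  cel : ∀ b, ∀ x ∈ (P b).Q (P b).ρx, K.cell x ⊆ (P b).Q (P b).ρx
  lat : ∀ b, 2 ≤ (P b).I.card → ∀ x ∈ (P b).Bx, ∀ x' ∈ K.cell x, (P b).Lat x x'
  rig : ∀ b, 2 ≤ (P b).I.card → EqOn G (P b).aff ((P b).Q (P b).ρx)
  chd : ∀ b, (P b).I.card = 1 → ∀ x ∈ (P b).Q (P b).ρ,
    ‖G x - (P b).aff x‖ ≤ g * (P b).l / Cf (P b).A
  fine : ∀ F ∈ K.cel 2, (∀ b, ¬ F ⊆ (P b).In) → ∃ y ∈ T.Good, G '' closure F ⊆ ball y (T.mrg y)
  chart : ∀ F ∈ K.cel 2, (ch F).Of F ∧ (ch F).Rd (r F) (R F)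
  τ0 : ∀ σ, 0 < τ σ

/-- Conclusion of the exchange theorem; `sp e` bounds the speed on the edge `e`. -/
structure HOut (V : Set (Rn 3)) (T : TS) (p C0 g : ℝ) (Cf : (Rn 3 ≃L[ℝ] Rn 3) → ℝ) (P : ι → Pc)
    (K : Kx Ω) (G : Rn 3 → Rn 3) (ch : Set (Rn 3) → Ch) (r R τ : Set (Rn 3) → ℝ)
    (H : Rn 3 → Rn 3) (sp : Set (Rn 3) → ℝ) : Prop where
  ltp : LTP Ω H
  inj : InjOn H Ω
  sub : H '' Ω ⊆ V
  mv : ∀ x ∈ K.sk 2, (∀ b, x ∉ (P b).In) → ‖H x - G x‖ ≤ T.c (G x) * T.l (G x)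
  sp0 : ∀ e, 0 ≤ sp e
  edge : ∀ a b, K.Edge a b → (∀ i, ¬ openSegment ℝ a b ⊆ (P i).In) →
    (∀ s ∈ Icc (0 : ℝ) 1, ∀ s' ∈ Icc (0 : ℝ) 1,
      ‖H (seg a b s) - H (seg a b s')‖ ≤ sp (openSegment ℝ a b) * |s - s'|) ∧
    ∀ y ∈ V, (∃ x ∈ segment ℝ a b, ‖G x - y‖ ≤ 2 * T.l y) →
      ENNReal.ofReal (sp (openSegment ℝ a b)) ≤
        ENNReal.ofReal (T.c y) * vr G a b + ENNReal.ofReal (τ (openSegment ℝ a b))
  face : ∀ F ∈ K.cel 2, (∀ b, ¬ F ⊆ (P b).In) → ∀ ψ : Rn 2 → ℝ≥0∞, Measurable ψ →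
    (∀ ξ ξ', K.Edge ((ch F).φ ξ) ((ch F).φ ξ') → ξ ∈ closure (ch F).U → ξ' ∈ closure (ch F).U →
      ∀ z ∈ openSegment ℝ ξ ξ',
        ENNReal.ofReal (sp (openSegment ℝ ((ch F).φ ξ) ((ch F).φ ξ'))) ≤ ψ z * ‖ξ' - ξ‖ₑ) →
    (ch F).E p H ≤ ENNReal.ofReal (C0 * (R F / r F) ^ 6) ^ p * ENNReal.ofReal (R F) *
      (∫⁻ ξ in frontier (ch F).U, ψ ξ ^ p ∂μH[1]) + ENNReal.ofReal (τ F)
  lip : ∀ F ∈ K.cel 2, (∀ b, ¬ F ⊆ (P b).In) → ∀ L : ℝ, 0 ≤ L →
    (∀ ξ ξ', K.Edge ((ch F).φ ξ) ((ch F).φ ξ') → ξ ∈ closure (ch F).U → ξ' ∈ closure (ch F).U →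
      sp (openSegment ℝ ((ch F).φ ξ) ((ch F).φ ξ')) ≤ L * ‖ξ' - ξ‖) →
    ∀ ξ ∈ (ch F).U, ∀ ξ' ∈ (ch F).U,
      ‖H ((ch F).φ ξ) - H ((ch F).φ ξ')‖ ≤ (C0 * (R F / r F) ^ 6 * L + τ F) * ‖ξ - ξ'‖
  bar : ∀ b, 2 ≤ (P b).I.card → H '' (P b).Bd = (P b).aff '' (P b).Bd ∧
    ∀ x ∈ (P b).Bd, ∀ x' ∈ (P b).Bd, H x = (P b).aff x' → (P b).Lat x x'
  chd : ∀ i j, (P i).I = {j} → ∃ u : Rn 3 → ℝ, ∀ a b, K.Edge a b →
    segment ℝ a b ⊆ (P i).Q (P i).ρ → ∀ s ∈ Icc (0 : ℝ) 1, ∀ s' ∈ Icc (0 : ℝ) 1,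
      ‖H (seg a b s) - H (seg a b s') -
        (u (seg a b s) - u (seg a b s')) • (P i).A (Pi.single j 1)‖ ≤
          τ (openSegment ℝ a b) * |s - s'| ∧
      ENNReal.ofReal |u (seg a b s) - u (seg a b s')| ≤
        (ENNReal.ofReal ((1 + 8 * g) * ‖b - a‖ + τ (openSegment ℝ a b)) +
          ENNReal.ofReal (Cf (P i).A) * vr (fun x => G x - (P i).aff x) a b) *
            ENNReal.ofReal |s - s'|

/-- What the analysis uses of the target structure. -/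
structure TSOk (V : Set (Rn 3)) (θ : Rn 3 → ℝ) (p C0 g : ℝ) (Cf : (Rn 3 ≃L[ℝ] Rn 3) → ℝ)
    (P : ι → Pc) (T : TS) : Prop where
  l0 : ∀ y ∈ V, 0 < T.l y
  lv : ∀ y ∈ V, ∀ z ∈ V, ‖z - y‖ ≤ 2 * T.l y → T.l z ≤ 4 * T.l y
  c1 : ∀ y, 1 ≤ T.c y
  cm : Measurable T.c
  cl : ∀ y ∈ V, T.c y * T.l y ≤ θ y
  cb : ∀ y ∈ V, T.c y ≤ C0 ∨ ∃ b, (P b).Nr (Cf (P b).A * (P b).l) y ∧ T.c y ≤ Cf (P b).A
  cn : ∀ b y, (P b).Nr (P b).l y → T.c y * T.l y ≤ Cf (P b).A * (P b).l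
  m0 : LB V T.mrg
  ml : ∀ y ∈ V, 8 * T.mrg y ≤ T.l y
  mn : ∀ b y, (P b).Nr (P b).l y → g * (P b).l / Cf (P b).A ≤ T.mrg y
  βm : Measurable (uncurry T.β)
  βi : ∀ y ∈ V, ∫⁻ ζ in Icc (0 : Rn 3) 1, T.β ζ y ^ p ≤ ENNReal.ofReal (T.c y) ^ p
  ctr : ∀ N : Set (Rn 3), volume N = 0 →
    ∀ᵐ ζ ∂volume.restrict (Icc (0 : Rn 3) 1), Disjoint (T.Ctr ζ) N
  blow : ∀ ζ ∈ Icc (0 : Rn 3) 1, ∀ Y ⊆ V \ T.Ctr ζ,
    (∀ C, IsCompact C → C ⊆ V → IsCompact (Y ∩ C)) → ∃ B, Blow V T g Cf P ζ Y B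
  top : ∀ (Ω : Set (Rn 3)) (K : Kx Ω) (G : Rn 3 → Rn 3) (ch : Set (Rn 3) → Ch)
    (r R τ : Set (Rn 3) → ℝ), HIn V T g Cf P K G ch r R τ →
      ∃ H sp, HOut V T p C0 g Cf P K G ch r R τ H sp

end

/-- The exchange theorem. -/
def TopH (p : ℝ) : Prop :=
  ∃ (C0 : ℝ) (Cf : (Rn 3 ≃L[ℝ] Rn 3) → ℝ), 1 ≤ C0 ∧ (∀ A, C0 ≤ Cf A) ∧
    ∀ (g : ℝ), 0 < g → g ≤ 1 / 8 → ∀ (V : Set (Rn 3)) (θ : Rn 3 → ℝ) (ι : Type) [Finite ι]
      (P : ι → Pc), IsOpen V → LB V θ → PcIn V θ Cf P → ∃ T, TSOk V θ p C0 g Cf P T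

end BEp
end
end
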