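import Pool.Agent.Work.MP_f0515e_an.P3.TDefs
import Pool.Agent.Work.MP_f0515e_an.D3.EML
import Pool.Agent.Work.MP_f0515e_an.D3.KA4
import Pool.Agent.Work.MP_f0515e_an.D3.KA3
import Pool.Agent.Work.MP_f0515e_an.D3.O1
import Pool.Agent.Work.MP_f0515e_an.D3.PGau
import Pool.Agent.Work.MP_f0515e_an.D3.KBase

-- merged part: Pool.Agent.Work.MP_f0515e_an.P3.YDefs
section
-- merged part: Pool.Agent.Work.MP_f0515e_an.P3.XDefs
section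
/-! Exchange theorem: the abstract target structure (`Api`) and the global vocabulary.
`t v` are the cube coordinates of the classes `v`, `mv v y s` sets the coordinate `v` of `y` to `s`. -/

open Set Metric Filter Topology Function BEv
open scoped NNReal

noncomputable section
namespace BEp

variable {n m : ℕ}

/-- PL homeomorphism of the open set `V`. -/
def GM (V : Set (Rn 3)) (Φ : Rn 3 → Rn 3) : Prop :=
  ∃ Ψ, LTP V Φ ∧ LTP V Ψ ∧ MapsTo Φ V V ∧ MapsTo Ψ V V ∧ LeftInvOn Ψ Φ V ∧ RightInvOn Ψ Φ V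

/-- Distance from the nearer end of `[0, 1]`. -/
def dev (s : ℝ) : ℝ := min s (1 - s)

/-- Intervals inside `[d, 1 - d]` on which the weight `x` is spread with speed at most `Λ`. -/
def Jv (d : ℝ) (Λ : ℝ → ℝ) (x : ℝ) : Set (ℝ × ℝ) :=
  {j | 0 < j.2 ∧ d ≤ j.1 - j.2 ∧ j.1 + j.2 ≤ 1 - d ∧ ∀ s, |s - j.1| ≤ j.2 → x ≤ Λ s * j.2}

/-- Axioms of a fibred wall with coordinate `c`. -/
structure XFib (N : Set (Rn 3)) (f : Rn 3 → ℝ → Rn 3) (c : Rn 3 → ℝ) : Prop where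
  mem : ∀ x ∈ N, ∀ s ∈ Icc (-1 : ℝ) 1, f x s ∈ N ∧ c (f x s) = s
  self : ∀ x ∈ N, c x ∈ Icc (-1 : ℝ) 1 ∧ f x (c x) = x
  idem : ∀ x ∈ N, ∀ s ∈ Icc (-1 : ℝ) 1, ∀ s' ∈ Icc (-1 : ℝ) 1, f (f x s) s' = f x s'
  cont : ∀ x ∈ N, ContinuousOn (f x) (Icc (-1) 1)

/-- The strips `p 0 < a` and `1 - a < p 1` of the triangle are mapped off the walls. -/
def FrX {κ : Type} (N : κ → Set (Rn 3)) (a : ℝ) (g : Rn 2 → Rn 3) : Prop :=
  ∀ p ∈ Tri, ∀ w, g p ∈ N w → a ≤ p 0 ∧ p 1 ≤ 1 - a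

/-- Every tame boundary parametrisation extends to a tame parametrisation of the disc. -/
def Par {κ : Type} (N : κ → Set (Rn 3)) (f : κ → Rn 3 → ℝ → Rn 3) (F J : Set (Rn 3)) : Prop :=
  ∀ (β : Rn 2 → Rn 3) (𝒥 : κ → Set (ℝ × ℝ)) (a : ℝ), TP β → BijOn β bTri J →
    (∀ p ∈ bTri, p 0 = 0 ∨ p 1 = 1 → ∀ w, β p ∉ N w) → 0 < a →
    (∀ w, ∀ j ∈ 𝒥 w, 0 < j.2 ∧ a ≤ j.1 - j.2 ∧ j.1 + j.2 ≤ 1 - a) →
    TameC N f (fun s => β ![s, s]) 𝒥 → ∃ (g : Rn 2 → Rn 3) (𝒥' : κ → Set (ℝ × ℝ)), TP g ∧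
      BijOn g Tri F ∧ EqOn g β bTri ∧ (⋃ w, 𝒥' w).Finite ∧ (∀ w, 𝒥' w ⊆ 𝒥 w) ∧ Tame N f g 𝒥' ∧
      FrX N a g

/-- Locally finite family of discs in `V`. -/
structure LFm {ι : Type} (V : Set (Rn 3)) (F J : ι → Set (Rn 3)) : Prop where
  st : ESt F J
  sub : ∀ c, F c ⊆ V
  lf : ∀ C, IsCompact C → C ⊆ V → {c | (F c ∩ C).Nonempty}.Finite

/-- Image of the barriers with their rings, and of the barriers. -/
def BP {ι : Type} (P : ι → Pc) : Set (Rn 3) :=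
  {y | ∃ b, 2 ≤ (P b).I.card ∧ y ∈ (P b).aff '' (P b).Bx}
def B0 {ι : Type} (P : ι → Pc) : Set (Rn 3) :=
  {y | ∃ b, 2 ≤ (P b).I.card ∧ y ∈ (P b).aff '' (P b).Bd}

section
variable {ν : Type} (V : Set (Rn 3)) (t : ν → Rn 3 → ℝ) (mv : ν → Rn 3 → ℝ → Rn 3)

/-- Same carrier; common star. -/
def XEq (y y' : Rn 3) : Prop := ∀ v, 0 < t v y ↔ 0 < t v y'
def Nb (y y' : Rn 3) : Prop := ∃ v, 0 < t v y ∧ 0 < t v y'

/-- Chains of `k` steps inside stars. -/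
def Chn : ℕ → Rn 3 → Rn 3 → Prop
  | 0, y, y' => y = y'
  | k + 1, y, y' => ∃ z ∈ V, Chn k y z ∧ Nb t z y'

/-- Off the classes in `D` the coordinates are within `r` of `1` on `σ` and of `0` off `σ`. -/
def Ptn (σ D : Set ν) (r : ℝ) (y : Rn 3) : Prop :=
  ∀ v, v ∉ D → (v ∈ σ → 1 - r ≤ t v y) ∧ (v ∉ σ → t v y ≤ r)

/-- A small set: at most two free classes, small oscillation. -/
def Sma (r : ℝ) (S : Set (Rn 3)) : Prop :=
  (∃ j k, ∀ v, v ≠ j → v ≠ k → ∀ z ∈ S, dev (t v z) ≤ r) ∧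
    ∀ v, ∀ z ∈ S, ∀ z' ∈ S, |t v z - t v z'| ≤ r

/-- Levels and half widths: disjoint slabs inside `(g, 1 - g)`. -/
structure XLev (g : ℝ) (A : ν → Set ℝ) (ε : ν → ℝ) : Prop where
  fin : ∀ v, (A v).Finite
  ne : ∀ v, (A v).Nonempty
  pos : ∀ v, 0 < ε v
  inn : ∀ v, ∀ a ∈ A v, g < a - ε v ∧ a + ε v < 1 - g
  dis : ∀ v, ∀ a ∈ A v, ∀ a' ∈ A v, a < a' → a + ε v < a' - ε v

/-- Global walls, fibres and coordinates. -/
def gN (A : ν → Set ℝ) (ε : ν → ℝ) (ω : ν × ℝ) : Set (Rn 3) :=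
  {y | y ∈ V ∧ ω.2 ∈ A ω.1 ∧ |t ω.1 y - ω.2| ≤ ε ω.1}
def gf (ε : ν → ℝ) (ω : ν × ℝ) (y : Rn 3) (s : ℝ) : Rn 3 := mv ω.1 y (ω.2 + ε ω.1 * s)
def gcr (ε : ν → ℝ) (ω : ν × ℝ) (y : Rn 3) : ℝ := (t ω.1 y - ω.2) / ε ω.1

/-- Off the classes in `D` the point lies beyond the last wall on `σ`, before the first wall off `σ`. -/
def Rg1 (A : ν → Set ℝ) (ε : ν → ℝ) (σ D : Set ν) : Set (Rn 3) :=
  {y | y ∈ V ∧ ∀ v, v ∉ D → ∀ a ∈ A v, (v ∈ σ → a + ε v < t v y) ∧ (v ∉ σ → t v y < a - ε v)}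

/-- The region `O` is the region of a finite system whose walls are pieces of the global walls. -/
def SysOn (A : ν → Set ℝ) (ε : ν → ℝ) (O : Set (Rn 3)) : Prop :=
  ∃ (κ μ : Type) (_ : Finite κ) (θ : κ → Rn 3 → Rn 3) (R bR : κ → Set (Rn 2))
    (C bC : μ → Set (Rn 3)) (η : ℝ) (π : κ → ν × ℝ), Sys θ R bR C bC η ∧ sO θ R bR C bC = O ∧
    (∀ w, ∀ x ∈ cN (θ w) (R w \ bR w), x ∈ gN V t A ε (π w) ∧
      ∀ s ∈ Icc (-1 : ℝ) 1, cf (θ w) x s = gf mv ε (π w) x s) ∧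
    ∀ ω, ∀ γ ⊆ gN V t A ε ω ∩ O, IsPreconnected γ → γ.Nonempty →
      ∃ w, π w = ω ∧ γ ⊆ cN (θ w) (R w \ bR w)

/-- Every slab of `A'`, `ε'` lies in a slab of `A`, `ε`. -/
def Nest (A : ν → Set ℝ) (ε : ν → ℝ) (A' : ν → Set ℝ) (ε' : ν → ℝ) : Prop :=
  ∀ v, ∀ a' ∈ A' v, ∃ a ∈ A v, |a' - a| + ε' v ≤ ε v

/-- Subdivision of the slabs `A`, `e` into `2 ^ i` slabs, nested down to the depth `r`. -/
def cA (A : ν → Set ℝ) (e : ν → ℝ) (i : ν → ℕ) (v : ν) : Set ℝ :=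
  {x | ∃ a ∈ A v, ∃ k : ℕ, k < 2 ^ i v ∧ x = a + e v * (-1 + (2 * k + 1) / 2 ^ i v)}
def cE (e : ν → ℝ) (κ : ℝ) (r i : ν → ℕ) (v : ν) : ℝ := e v * (1 / 2 ^ i v - κ / 2 ^ r v)

/-- Open box of the square with free classes `j`, `k`. -/
def sBox (σ : Set ν) (j k : ν) (r ρ : ℝ) : Set (Rn 3) :=
  {y | y ∈ V ∧ t j y ∈ Ioo r (1 - r) ∧ t k y ∈ Ioo r (1 - r) ∧ ∃ ρ' < ρ, Ptn t σ {j, k} ρ' y}

/-- Handle position: invariance in all walls, boundaries off the double walls. -/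
structure GH {ι : Type} (A : ν → Set ℝ) (ε : ν → ℝ) (F J : ι → Set (Rn 3)) : Prop where
  iF : ∀ c ω, Iw (gN V t A ε ω) (gf mv ε ω) (F c)
  iJ : ∀ c ω, Iw (gN V t A ε ω) (gf mv ε ω) (J c)
  two : ∀ c, ∀ x ∈ J c, ∀ ω ω', x ∈ gN V t A ε ω → x ∈ gN V t A ε ω' → ω.1 = ω'.1

end

/-- Model box of a square of the cube complex. -/
def mBox (g : ℝ) : Set (Rn 3) :=
  {x | x 0 ∈ Icc (g / 8) (1 - g / 8) ∧ x 1 ∈ Icc (g / 8) (1 - g / 8) ∧ |x 2| ≤ g / 4}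

/-- What the exchange argument uses of the target structure. `C` is a universal constant, `c` the
local shape factor. -/
structure Api {ν ι : Type} (V : Set (Rn 3)) (g C : ℝ) (Cf : (Rn 3 ≃L[ℝ] Rn 3) → ℝ) (P : ι → Pc)
    (T : TS) (c : Rn 3 → ℝ) (t : ν → Rn 3 → ℝ) (mv : ν → Rn 3 → ℝ → Rn 3) (dim : ν → ℕ)
    (b : ν → Rn 3) : Prop where
  opn : IsOpen V
  g0 : 0 < g ∧ g ≤ 1 / 8
  C1 : 1 ≤ C
  t01 : ∀ v, ∀ y ∈ V, 0 ≤ t v y ∧ t v y ≤ 1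
  ltp : ∀ v, LTP V (t v)
  one : ∀ y ∈ V, ∃ v, t v y = 1
  dim4 : ∀ v, dim v < 4
  col : ∀ y ∈ V, ∀ v w, 0 < t v y → 0 < t w y → dim v = dim w → v = w
  ext : ∀ y ∈ V, ∀ y' ∈ V, (∀ v, t v y = t v y') → y = y'
  mvt : ∀ v, ∀ y ∈ V, ∀ s, t v y ∈ Ioo (0 : ℝ) 1 → s ∈ Ioo (0 : ℝ) 1 →
    mv v y s ∈ V ∧ t v (mv v y s) = s ∧ ∀ w, w ≠ v → t w (mv v y s) = t w y
  lf1 : ∀ K, IsCompact K → K ⊆ V → {v | ∃ y ∈ K, 0 < t v y}.Finite
  lf2 : ∀ v, ∃ K, IsCompact K ∧ K ⊆ V ∧ ∀ y ∈ V, 0 < t v y → y ∈ K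
  l0 : ∀ y ∈ V, 0 < T.l y
  lv : ∀ y ∈ V, ∀ z ∈ V, ‖z - y‖ ≤ 3 * T.l y → T.l z ≤ C * T.l y ∧ T.l y ≤ C * T.l z
  star : ∀ y ∈ V, ∀ y' ∈ V, Nb t y y' → T.l y' ≤ C * T.l y
  bnr : ∀ v, ∀ y ∈ V, 0 < t v y → ‖y - b v‖ ≤ C * T.l y
  ylip : ∀ z ∈ V, ∀ z' ∈ V, ∀ (D : ℝ) (W : Finset ν), (∀ v, v ∉ W → t v z = t v z') →
    (∀ v w, 0 < t v z → 0 < t w z' → ‖b v - b w‖ ≤ D) → ‖z - z'‖ ≤ C * D * ∑ v ∈ W, |t v z - t v z'|
  c1 : ∀ y, 1 ≤ c y ∧ 1000 * C ^ 40 * c y ≤ T.c y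
  tlip : ∀ y ∈ V, ∀ z ∈ V, ‖z - y‖ ≤ 3 * T.l y → ∀ v, LL (t v) z (c y / T.l y)
  theta : ∀ φ : ν → ℝ → ℝ, (∀ v, TP (φ v) ∧ StrictMono (φ v) ∧ φ v 0 = 0 ∧ φ v 1 = 1) →
    ∃ Θ, GM V Θ ∧ ∀ y ∈ V, ∀ v, t v (Θ y) = φ v (t v y)
  good : ∀ y ∈ T.Good, y ∈ V ∧ 64 * C ^ 2 * T.mrg y ≤ T.l y ∧ ball y (T.mrg y) ⊆ V ∧
    Sma t (g / 32) (ball y (T.mrg y))
  box : ∀ (σ : Set ν) j k, j ≠ k → ∀ y ∈ V, t j y ∈ Icc (g / 8) (1 - g / 8) →
    t k y ∈ Icc (g / 8) (1 - g / 8) → Ptn t σ {j, k} (g / 4) y → ∃ χ, LH χ ∧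
    (∀ x ∈ mBox g, χ x ∈ V ∧ t j (χ x) = x 0 ∧ t k (χ x) = x 1 ∧ Ptn t σ {j, k} |x 2| (χ x) ∧
      ∀ x' ∈ mBox g, x' 2 = x 2 → ∀ v, v ≠ j → v ≠ k → t v (χ x') = t v (χ x)) ∧
    (∀ z ∈ V, ∀ r ≤ g / 4, t j z ∈ Icc (g / 8) (1 - g / 8) → t k z ∈ Icc (g / 8) (1 - g / 8) →
      Ptn t σ {j, k} r z → ∃ x ∈ mBox g, |x 2| ≤ r ∧ χ x = z) ∧
    (∀ x ∈ mBox g, ∀ x' ∈ mBox g, x 2 = 0 → x' 2 = 0 → XEq t (χ x) (χ x')) ∧
    ((∀ x ∈ mBox g, χ x ∉ BP P) ∨ ∀ x ∈ mBox g, (χ x ∈ BP P ↔ x 2 = 0))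
  clm : ∀ (σ : Set ν) j, ∀ y ∈ V, t j y ∈ Icc (g / 8) (1 - g / 8) → Ptn t σ {j} (3 / 4) y →
    ∃ (χ : Rn 3 → Rn 3) (R : Set (Rn 2)), LH χ ∧ Poly R ∧
    (∀ u ∈ R, ∀ s ∈ Icc (g / 8) (1 - g / 8), χ (mk3 u s) ∈ V ∧ t j (χ (mk3 u s)) = s ∧
      Ptn t σ {j} (3 / 4) (χ (mk3 u s)) ∧
      ∀ s' ∈ Icc (g / 8) (1 - g / 8), ∀ v, v ≠ j → t v (χ (mk3 u s')) = t v (χ (mk3 u s))) ∧
    ∀ z ∈ V, t j z ∈ Icc (g / 8) (1 - g / 8) → Ptn t σ {j} (3 / 4) z →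
      ∃ u ∈ R, χ (mk3 u (t j z)) = z
  sys : ∀ A ε, XLev g A ε → ∃ W, B0 P ⊆ W ∧ W ⊆ BP P ∧ ∀ (d : ℕ) (σ : Set ν), σ.Nonempty →
    (∀ v ∈ σ, dim v ≠ d) → SysOn V t mv A ε (Rg1 V t A ε σ {v | dim v = d}) ∧
      SysOn V t mv A ε (Rg1 V t A ε σ {v | dim v = d} \ W)
  flat : ∀ γ j a, Crc γ → γ ⊆ BP P → a ∈ Ioo g (1 - g) → (∀ y ∈ γ, t j y = a) →
    ¬ ∀ y ∈ γ, ∀ v, v ≠ j → dev (t v y) ≤ g / 2
  bar : ∀ i, 2 ≤ (P i).I.card → ∀ x ∈ (P i).Bx, (P i).aff x ∈ V ∧ ∀ y ∈ V,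
    XEq t ((P i).aff x) y → ∃ x' ∈ (P i).Bx, y = (P i).aff x' ∧ (P i).Lat x x' ∧
      (x ∈ (P i).Bd → x' ∈ (P i).Bd)
  chd : ∀ i j, (P i).I = {j} → ∀ y ∈ V, (P i).Nr (g * (P i).l / Cf (P i).A) y →
    (∃ v₀, ∀ v, v ≠ v₀ → dev (t v y) ≤ g / 32) ∧
    ∀ v, t v y ∈ Icc (g / 2) (1 - g / 2) → ∃ κ : ℝ, κ ≠ 0 ∧
      (∀ z ∈ V, (P i).Nr (g * (P i).l / Cf (P i).A) z → t v z ∈ Icc (g / 2) (1 - g / 2) →
        (∀ w, w ≠ v → (1 / 2 < t w y ↔ 1 / 2 < t w z)) → LL (t v) z (Cf (P i).A / (4 * |κ|)) ∧ ∀ᶠ s in 𝓝 (0 : ℝ),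
          |κ| * |t v (z + s • (P i).A (Pi.single j 1)) - t v z| ≤ |s|) ∧
      ∀ z ∈ V, ∀ z' ∈ V, (∀ w, w ≠ v → t w z = t w z') →
        (∀ w, w ≠ v → (1 / 2 < t w y → t v z ≤ t w z ∧ t v z' ≤ t w z) ∧
          (t w y ≤ 1 / 2 → t w z ≤ t v z ∧ t w z ≤ t v z')) →
        z' - z = (κ * (t v z' - t v z)) • (P i).A (Pi.single j 1)

end BEp
end
end

-- merged part: Pool.Agent.Work.MP_f0515e_an.P3.YDefs
section
/-! Target structure: cube coordinates on the barycentric subdivision of a cell complex.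
Labels are the cells of the complex, the colour of a label is its dimension. -/

open Set Metric Filter Topology Function BEv MeasureTheory
open scoped NNReal ENNReal

noncomputable section
namespace BEp

def yf (a b c d : ℝ) : ℝ :=
  a - (min a b + min a c + min a d) / 2 +
    (min a (min b c) + min a (min b d) + min a (min c d)) / 3 - min a (min b (min c d)) / 4

def yg (a b c d : ℝ) : ℝ := a + min a b + min a c + min a d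

/-- From cube coordinates to barycentric coordinates. -/
def yio (T : Rn 4) : Rn 4 :=
  ![yf (T 0) (T 1) (T 2) (T 3), yf (T 1) (T 0) (T 2) (T 3), yf (T 2) (T 0) (T 1) (T 3),
    yf (T 3) (T 0) (T 1) (T 2)]

/-- From barycentric coordinates to cube coordinates. -/
def yta (w : Rn 4) : Rn 4 :=
  ![yg (w 0) (w 1) (w 2) (w 3), yg (w 1) (w 0) (w 2) (w 3), yg (w 2) (w 0) (w 1) (w 3),
    yg (w 3) (w 0) (w 1) (w 2)]

/-- The four cubes of a simplex. -/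
def YQ : Set (Rn 4) := {T | (∀ d, T d ∈ Icc (0 : ℝ) 1) ∧ ∃ d, T d = 1}

/-- Vectors ordered in the same way. -/
def Cmn (T T' : Rn 4) : Prop := ∀ d e, 0 ≤ (T d - T e) * (T' d - T' e)

def yind (S : Finset (Fin 4)) : Rn 4 := fun d => if d ∈ S then 1 else 0

/-- Increasing PL homeomorphism of the line fixing `0` and `1`. -/
def Mo (φ : ℝ → ℝ) : Prop := LH φ ∧ StrictMono φ ∧ φ 0 = 0 ∧ φ 1 = 1

/-- Self-map of the unit interval fixing the ends. -/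
def Mo0 (φ : ℝ → ℝ) : Prop := φ 0 = 0 ∧ φ 1 = 1 ∧ MapsTo φ (Icc 0 1) (Icc 0 1)

/-- Positively homogeneous PL function. -/
def Hom {n : ℕ} (U : Rn n → ℝ) : Prop := TP U ∧ ∀ ξ (s : ℝ), 0 ≤ s → U (s • ξ) = s * U ξ

/-- The region `0 ≤ μ` lies above a graph in the direction `e`. -/
def YGr {n : ℕ} (μ : Rn n → ℝ) (e : Rn n) : Prop := Hom μ ∧ ∀ ξ (s : ℝ), μ (ξ + s • e) = μ ξ + s

/-- A closed set which near each of its points is everything or the region above a conical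
graph. -/
structure Side (A : Set (Rn 3)) : Prop where
  cl : IsClosed A
  loc : ∀ y ∈ A, A ∈ 𝓝 y ∨ ∃ μ e, YGr μ e ∧ ∀ᶠ ξ in 𝓝 (0 : Rn 3), (y + ξ ∈ A ↔ 0 ≤ μ ξ)

/-- A cell complex of the open set `V` with a centre in each cell. -/
structure Cx (V : Set (Rn 3)) where
  M : Kx V
  b : Set (Rn 3) → Rn 3
  opn : IsOpen V
  hb : ∀ σ ∈ M.cells, b σ ∈ σ

namespace Cx
variable {V : Set (Rn 3)} (X : Cx V)

/-- Full flag of cells. -/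
def Fl (c : Fin 4 → Set (Rn 3)) : Prop :=
  (∀ d : Fin 4, c d ∈ X.M.cel d) ∧ ∀ d e, d ≤ e → c d ⊆ closure (c e)

/-- Point with barycentric coordinates `w`. -/
def bp (c : Fin 4 → Set (Rn 3)) (w : Rn 4) : Rn 3 := ∑ d, w d • X.b (c d)

/-- Point with cube coordinates `T`. -/
def pt (c : Fin 4 → Set (Rn 3)) (T : Rn 4) : Rn 3 := X.bp c (yio T)

def Rep (y : Rn 3) (c : Fin 4 → Set (Rn 3)) (T : Rn 4) : Prop := X.Fl c ∧ T ∈ YQ ∧ y = X.pt c T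

open Classical in
/-- A chosen flag of `y` with the coordinates of `y`. -/
def rp (y : Rn 3) : (Fin 4 → Set (Rn 3)) × Rn 4 :=
  if h : ∃ q : (Fin 4 → Set (Rn 3)) × Rn 4, X.Rep y q.1 q.2 then h.choose else (fun _ => ∅, 0)

def fl (y : Rn 3) : Fin 4 → Set (Rn 3) := (X.rp y).1

/-- Cube coordinates by colour; zero off `V`. -/
def TT (y : Rn 3) : Rn 4 := (X.rp y).2

open Classical in
/-- Cube coordinate of the label `v`; zero off `V`. -/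
def tt (v : Set (Rn 3)) (y : Rn 3) : ℝ := ∑ d, if X.fl y d = v then X.TT y d else 0

open Classical in
/-- Coordinatewise map. -/
def th (φ : Set (Rn 3) → ℝ → ℝ) (y : Rn 3) : Rn 3 :=
  if y ∈ V then X.pt (X.fl y) (fun d => φ (X.fl y d) (X.TT y d)) else y

open Classical in
/-- Fibre move: the coordinate of the label `v` is set to `a`. -/
def sh (v : Set (Rn 3)) (a : ℝ) (y : Rn 3) : Rn 3 :=
  X.pt (X.fl y) (fun d => if X.fl y d = v then a else X.TT y d)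

/-- Barycentre of the labels of `c` with colours in `S`. -/
def bar (c : Fin 4 → Set (Rn 3)) (S : Finset (Fin 4)) : Rn 3 := X.pt c (yind S)

/-- `y` lies in a chamber whose closure contains `y₀`. -/
def Cmp (y₀ y : Rn 3) : Prop :=
  y ∈ V ∧ (∀ v, 0 < X.tt v y₀ → 0 < X.tt v y) ∧ ∀ v v', X.tt v y₀ < X.tt v' y₀ → X.tt v y ≤ X.tt v' y

/-- On the open star of the labels of `c` with colours in `S`, the set `A` is a union of cells. -/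
def Sat (c : Fin 4 → Set (Rn 3)) (S : Finset (Fin 4)) (A : Set (Rn 3)) : Prop :=
  ∀ y ∈ A, (∀ d ∈ S, 0 < X.tt (c d) y) → X.M.cell y ⊆ A

/-- Closed and open handle with bounds `α`, `β` for the coordinates. -/
def Rg (α β : Set (Rn 3) → ℝ) : Set (Rn 3) := {y | y ∈ V ∧ ∀ v, X.tt v y ∈ Icc (α v) (β v)}
def oRg (α β : Set (Rn 3) → ℝ) : Set (Rn 3) :=
  {y | y ∈ V ∧ ∀ v, (α v < X.tt v y ∨ α v = 0) ∧ (X.tt v y < β v ∨ β v = 1)}

/-- Type of a handle: labels bounded below (colours `Hi`), at most one moving label (colour in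
`Md`), all other labels bounded above. -/
structure Hty (c : Fin 4 → Set (Rn 3)) (Hi Md : Finset (Fin 4)) (α β : Set (Rn 3) → ℝ) : Prop where
  fl : X.Fl c
  ne : Hi.Nonempty
  dis : Disjoint Hi Md
  one : Md.card ≤ 1
  hi : ∀ d ∈ Hi, 0 < α (c d) ∧ α (c d) < 1 ∧ β (c d) = 1
  md : ∀ d ∈ Md, 0 < α (c d) ∧ α (c d) < β (c d) ∧ β (c d) < 1
  lo : ∀ v, (∀ d ∈ Hi ∪ Md, c d ≠ v) → α v = 0 ∧ 0 < β v ∧ β v < 1

/-- Conical chart `Ψ` of a handle: the coordinates are `x v + U v`, `w` is the direction of the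
moving label, and the side `A` is everything or the region above a graph. -/
structure Hch (c : Fin 4 → Set (Rn 3)) (Md : Finset (Fin 4)) (α β : Set (Rn 3) → ℝ)
    (A : Set (Rn 3)) (Ψ : Rn 3 → Rn 3) (U : Set (Rn 3) → Rn 3 → ℝ) (x : Set (Rn 3) → ℝ)
    (w : Rn 3) : Prop where
  lh : LH Ψ
  hom : ∀ v, Hom (U v)
  fin : {v | U v ≠ 0}.Finite
  ker : ∀ ξ, (∀ v, U v ξ = 0) → ξ = 0
  ctr : ∀ v, (0 < α v ∧ α v < x v ∨ x v = 0 ∧ α v = 0 ∧ ∀ ξ, 0 ≤ U v ξ) ∧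
    (x v < β v ∧ β v < 1 ∨ x v = 1 ∧ β v = 1 ∧ ∀ ξ, U v ξ ≤ 0)
  fwd : ∀ ξ, (∀ v, x v + U v ξ ∈ Icc (α v) (β v)) → Ψ ξ ∈ V ∧ ∀ v, X.tt v (Ψ ξ) = x v + U v ξ
  bwd : ∀ ξ, Ψ ξ ∈ X.Rg α β → ∀ v, X.tt v (Ψ ξ) = x v + U v ξ
  mv : ∀ j ∈ Md, ∀ ξ (s : ℝ), U (c j) (ξ + s • w) = U (c j) ξ + s
  inv : ∀ v, (∀ j ∈ Md, c j ≠ v) → ∀ ξ (s : ℝ), U v (ξ + s • w) = U v ξ
  side : X.Rg α β ⊆ A ∨ ∃ μ e, YGr μ e ∧ (∀ ξ (s : ℝ), μ (ξ + s • w) = μ ξ) ∧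
    ∀ ξ, Ψ ξ ∈ X.Rg α β → (Ψ ξ ∈ A ↔ 0 ≤ μ ξ)

/-- Shape bound of the simplex of a flag. -/
def Shp (c : Fin 4 → Set (Rn 3)) (κ : ℝ) : Prop := ∀ w : Rn 4, ∑ d, w d = 0 → ‖w‖ ≤ κ * ‖X.bp c w‖

/-- At most two colours lie in the middle range. -/
def Good (g : ℝ) : Set (Rn 3) :=
  {y | y ∈ V ∧ ∃ d e, d ≠ e ∧ X.TT y d ∉ Ioo (g / 64) (1 - g / 64) ∧
    X.TT y e ∉ Ioo (g / 64) (1 - g / 64)}

end Cx

/-- Inverse of the affine map of a piece. -/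
def Pc.inv (P : Pc) (y : Rn 3) : Rn 3 := P.A.symm (y - P.y) + P.c

/-- The sides of a plate (`m` is the normal direction, `s = 1` or `s = -1`). -/
def Pc.half (P : Pc) (m : Fin 3) (s : ℝ) : Set (Rn 3) := {y | 0 ≤ s * (P.inv y m - P.c m)}

/-- The outer side of a solid. -/
def Pc.out (P : Pc) : Set (Rn 3) := {y | ∃ i, P.ρ ≤ |P.inv y i - P.c i|}

/-- The complex `X` has mesh `l` and shape factor `c` and is adapted to the pieces. -/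
structure Str {ι : Type} {V : Set (Rn 3)} (θ : Rn 3 → ℝ) (Cm C0 : ℝ)
    (Cf : (Rn 3 ≃L[ℝ] Rn 3) → ℝ) (P : ι → Pc) (X : Cx V) (l c : Rn 3 → ℝ) : Prop where
  scl : Scl V l 1000
  up : ∀ y ∈ V, ∀ x ∈ V, y ∈ closure (X.M.cell x) → closure (X.M.cell x) ⊆ closedBall y (l y)
  lo : ∀ y ∈ V, ∀ z z', ‖z - y‖ ≤ 10 * l y → ‖z' - y‖ ≤ 10 * l y → ∀ v,
    Cm * l y * |X.tt v z - X.tt v z'| ≤ c y * ‖z - z'‖
  c1 : ∀ y, Cm ≤ c y
  cm : Measurable c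
  bd : ∃ K, ∀ y, c y ≤ K
  cl : ∀ y ∈ V, c y * l y ≤ θ y
  cb : ∀ y ∈ V, c y ≤ C0 ∨ ∃ b, (P b).Nr (Cf (P b).A * (P b).l) y ∧ c y ≤ Cf (P b).A
  nr : ∀ b y, (P b).Nr (30 * (P b).l) y →
    y ∈ V ∧ 1000 * c y ≤ Cf (P b).A ∧ (P b).l ≤ l y ∧ l y ≤ 2 * (P b).l
  bar : ∀ b, ∀ y ∈ V, (closure (X.M.cell y) ∩ (P b).aff '' (P b).Bx).Nonempty →
    ∀ y' ∈ X.M.cell y, (P b).Lat ((P b).inv y) ((P b).inv y')

/-- Locally finite periodic set. -/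
def YPer (Λ : Set (Rn 3)) : Prop := (∀ R, (Λ ∩ closedBall 0 R).Finite) ∧
  ∃ m : ℕ, 0 < m ∧ ∀ p ∈ Λ, ∀ k : Fin 3 → ℤ, (p + fun i => (m * k i : ℝ)) ∈ Λ

/-- Centre of the cube of colour `d`. -/
def yZ (ζ : Rn 3) (d : Fin 4) : Rn 4 := Fin.insertNth d (1 : ℝ) fun i => (1 + ζ i) / 3

/-- The data of the target structure. -/
def yTS {V : Set (Rn 3)} (X : Cx V) (l c : Rn 3 → ℝ) (g Kp : ℝ) : TS where
  l := l
  c := c
  mrg := fun y => g * l y / (1000 * c y)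
  Ctr := fun ζ => {y | y ∈ V ∧ ∃ d, X.TT y = yZ ζ d}
  β := fun ζ y => ENNReal.ofReal (c y / Kp) * (1 + ∑ d, ‖X.TT y - yZ ζ d‖ₑ⁻¹)
  Good := X.Good g

/-- All fields of `TSOk` except the exchange property. -/
structure TSOk0 {ι : Type} (V : Set (Rn 3)) (θ : Rn 3 → ℝ) (p C0 g : ℝ)
    (Cf : (Rn 3 ≃L[ℝ] Rn 3) → ℝ) (P : ι → Pc) (T : TS) : Prop where
  l0 : ∀ y ∈ V, 0 < T.l y
  lv : ∀ y ∈ V, ∀ z ∈ V, ‖z - y‖ ≤ 2 * T.l y → T.l z ≤ 4 * T.l y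
  c1 : ∀ y, 1 ≤ T.c y
  cm : Measurable T.c
  cl : ∀ y ∈ V, T.c y * T.l y ≤ θ y
  cb : ∀ y ∈ V, T.c y ≤ C0 ∨ ∃ b, (P b).Nr (Cf (P b).A * (P b).l) y ∧ T.c y ≤ Cf (P b).A
  cn : ∀ b y, (P b).Nr (P b).l y → T.c y * T.l y ≤ Cf (P b).A * (P b).l
  m0 : LB V T.mrg
  ml : ∀ y ∈ V, 8 * T.mrg y ≤ T.l y
  mn : ∀ b y, (P b).Nr (P b).l y → g * (P b).l / Cf (P b).A ≤ T.mrg y
  βm : Measurable (uncurry T.β)
  βi : ∀ y ∈ V, ∫⁻ ζ in Icc (0 : Rn 3) 1, T.β ζ y ^ p ≤ ENNReal.ofReal (T.c y) ^ p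
  ctr : ∀ N : Set (Rn 3), volume N = 0 →
    ∀ᵐ ζ ∂volume.restrict (Icc (0 : Rn 3) 1), Disjoint (T.Ctr ζ) N
  blow : ∀ ζ ∈ Icc (0 : Rn 3) 1, ∀ Y ⊆ V \ T.Ctr ζ,
    (∀ C, IsCompact C → C ⊆ V → IsCompact (Y ∩ C)) → ∃ B, Blow V T g Cf P ζ Y B

theorem TSOk0.ok {ι : Type} {V : Set (Rn 3)} {θ : Rn 3 → ℝ} {p C0 g : ℝ}
    {Cf : (Rn 3 ≃L[ℝ] Rn 3) → ℝ} {P : ι → Pc} {T : TS} (h : TSOk0 V θ p C0 g Cf P T)
    (top : ∀ (Ω : Set (Rn 3)) (K : Kx Ω) (G : Rn 3 → Rn 3) (ch : Set (Rn 3) → Ch)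
      (r R τ : Set (Rn 3) → ℝ), HIn V T g Cf P K G ch r R τ →
        ∃ H sp, HOut V T p C0 g Cf P K G ch r R τ H sp) : TSOk V θ p C0 g Cf P T :=
  ⟨h.l0, h.lv, h.c1, h.cm, h.cl, h.cb, h.cn, h.m0, h.ml, h.mn, h.βm, h.βi, h.ctr, h.blow, top⟩

end BEp
end
end

-- merged part: Pool.Agent.Work.MP_f0515e_an.P3.YDy1
section
/-! Dyadic complexes with controlled levels; elementary facts on dyadic cells. -/

open Set Metric Filter Topology Function BEv MeasureTheory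
open scoped NNReal ENNReal

noncomputable section
namespace BEp

variable {n : ℕ} {x y z : Rn 3}

theorem dyad0 {Ω : Set (Rn 3)} (hΩ : IsOpen Ω) {δ : Rn 3 → ℝ} (hδ : ContinuousOn δ Ω)
    (h0 : ∀ x ∈ Ω, 0 < δ x) : ∃ (K : Kx Ω) (n : Rn 3 → ℕ), ∀ x ∈ Ω, K.cell x = kbC (n x) x ∧
      (∀ y ∈ kbT (n x) x, y ∈ Ω ∧ 1 / 2 ^ n x < δ y) ∧
      ∀ k : ℕ, (∀ y ∈ kbT k x, y ∈ Ω ∧ 1 / 2 ^ k < δ y) → n x ≤ k := by
  let U : ℕ → Set (Rn 3) := fun n => {x | ∀ y ∈ kbT n x, y ∈ Ω ∧ 1 / 2 ^ n < δ y}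
  have uo : ∀ n, IsOpen (U n) := fun n => isOpen_iff_mem_nhds.2 fun x hx =>
    (kbT_near n x).mono fun y hy z hz => hx z (hy hz)
  have uc : ∀ {n x y}, y ∈ kbC n x → (y ∈ U n ↔ x ∈ U n) := fun h => by
    simp only [U, mem_ofPred_eq, kbT_eq h]
  have un : ∀ x ∈ Ω, {n | x ∈ U n}.Nonempty := fun x hx => by
    obtain ⟨r, hr, H⟩ := nhds_basis_closedBall.eventually_iff.1 ((hΩ.eventually_mem hx).and
      ((hδ.continuousAt (hΩ.mem_nhds hx)).eventually (lt_mem_nhds (half_lt_self (h0 x hx)))))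
    obtain ⟨n, hn⟩ := exists_pow_lt_of_lt_one (lt_min hr (half_pos (h0 x hx))) one_half_lt_one
    rw [one_div_pow, lt_min_iff] at hn
    exact ⟨n, fun y hy => (H (closedBall_subset_closedBall hn.1.le (kbT_sub hy))).imp_right
      hn.2.trans⟩
  let lv : Rn 3 → ℕ := fun x => sInf {n | x ∈ U n}
  have l1 : ∀ x ∈ Ω, x ∈ U (lv x) := fun x hx => Nat.sInf_mem (un x hx)
  have l2 : ∀ {x n}, x ∈ U n → lv x ≤ n := fun h => Nat.sInf_le h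
  have sub : ∀ x ∈ Ω, closure (kbC (lv x) x) ⊆ Ω := fun x hx y hy =>
    (l1 x hx y (kbB_sub (kbC_closure ▸ hy))).1
  have l3 : ∀ x ∈ Ω, ∀ y ∈ kbC (lv x) x, lv y = lv x := fun x hx y hy =>
    have k := l2 ((uc hy).2 (l1 x hx))
    le_antisymm k (l2 ((uc (kbC_anti k hy)).1 (l1 y (sub x hx (subset_closure hy)))))
  refine ⟨⟨fun x => kbC (lv x) x, fun _ _ => kbC_self, fun x hx y hy => ?_, sub,
    fun _ _ => kbC_convex, fun _ _ _ hy _ hz => kbC_opn hy hz,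
    fun _ _ => kbC_closure ▸ kbB_poly, fun x hx y hy => ?_, fun C hC hs => ?_⟩, lv,
    fun x hx => ⟨rfl, l1 x hx, fun k hk => l2 hk⟩⟩
  · rw [l3 x hx y hy, kbC_eq hy]
  · obtain ⟨z, h1, h2⟩ := mem_closure_iff.1 hy _ (uo _) (l1 y (sub x hx hy))
    rw [kbC_closure] at hy ⊢
    exact (kbC_anti (l3 x hx z h2 ▸ l2 h1)).trans (kbC_sub hy)
  · obtain ⟨t, ht⟩ := hC.elim_finite_subcover U uo fun x hx => mem_iUnion.2 (un x (hs hx))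
    refine ((finite_Iic (t.sup id)).biUnion fun n _ => kbC_finite n hC).subset ?_
    rintro _ ⟨x, hx, rfl⟩
    obtain ⟨n, hn, h⟩ := mem_iUnion₂.1 (ht hx)
    exact mem_biUnion ((l2 h).trans (Finset.le_sup (f := id) hn)) ⟨x, hx, rfl⟩

theorem kbT_B (h : x ∈ kbT n z) : kbB n x ⊆ kbT n z := fun y hy l => by
  have h1 : ⌈2 ^ n * z l⌉ - 1 ≤ ⌊2 ^ n * x l⌋ := Int.le_floor.2 (by exact_mod_cast (h l).1)
  have h2 : ⌈2 ^ n * x l⌉ ≤ ⌊2 ^ n * z l⌋ + 1 := Int.ceil_le.2 (by exact_mod_cast (h l).2)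
  exact ⟨le_trans (by exact_mod_cast h1) (hy l).1, (hy l).2.trans (by exact_mod_cast h2)⟩

theorem kbB_T (h : z ∈ kbB n y) : y ∈ kbT n z := fun l => by
  have h1 : (⌈2 ^ n * z l⌉ : ℝ) ≤ ⌈2 ^ n * y l⌉ := by exact_mod_cast Int.ceil_le.2 (h l).2
  have h2 : (⌊2 ^ n * y l⌋ : ℝ) ≤ ⌊2 ^ n * z l⌋ := by exact_mod_cast Int.le_floor.2 (h l).1
  exact ⟨by linarith [Int.ceil_lt_add_one (2 ^ n * y l)],
    by linarith [Int.lt_floor_add_one (2 ^ n * y l)]⟩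

theorem kbB_diam (hy : y ∈ kbB n x) (hz : z ∈ kbB n x) : ‖y - z‖ ≤ 1 / 2 ^ n := by
  have p : (0 : ℝ) < 2 ^ n := by positivity
  refine (pi_norm_le_iff_of_nonneg (by positivity)).2 fun l => ?_
  rw [Real.norm_eq_abs, Pi.sub_apply, le_div_iff₀ p, ← abs_of_pos p, ← abs_mul, abs_le]
  constructor <;> linarith [(hy l).1, (hy l).2, (hz l).1, (hz l).2, kb_cf (2 ^ n * x l)]

theorem kb_mid (n : ℕ) (x : Rn 3) : ∃ p ∈ kbC n x, ∀ i, ∃ k : ℤ, 2 ^ (n + 1) * p i = k := by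
  have p : (2 : ℝ) ^ n ≠ 0 := by positivity
  refine ⟨fun i => (⌊2 ^ n * x i⌋ + ⌈2 ^ n * x i⌉) / 2 / 2 ^ n, fun l => ?_,
    fun i => ⟨⌊2 ^ n * x i⌋ + ⌈2 ^ n * x i⌉, ?_⟩⟩
  · have h1 := kb_cf (2 ^ n * x l)
    have h2 := (Int.floor_le (2 ^ n * x l)).trans (Int.le_ceil _)
    rw [mul_div_cancel₀ _ p]
    exact kbS_ineq.2 ⟨⟨by linarith, by linarith⟩, by linarith, by linarith⟩
  · rw [pow_succ', mul_assoc, mul_div_cancel₀ _ p]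
    push_cast
    ring

theorem kbC_scale {o : Rn 3} (ho : ∀ i, ∃ k : ℤ, o i = k * (1 / 2 ^ n)) :
    y ∈ kbC n x ↔ (2 : ℝ) ^ n • (y - o) ∈ kbC 0 ((2 : ℝ) ^ n • (x - o)) := by
  refine forall_congr' fun l => ?_
  obtain ⟨k, hk⟩ := ho l
  have e : ∀ u : Rn 3, (2 : ℝ) ^ 0 * ((2 : ℝ) ^ n • (u - o)) l = 2 ^ n * u l - k := fun u => by
    rw [Pi.smul_apply, Pi.sub_apply, hk, smul_eq_mul]
    field_simp
  rw [e, e, kbS, kbS, Int.floor_sub_intCast, Int.floor_sub_intCast, Int.ceil_sub_intCast,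
    Int.ceil_sub_intCast, sub_left_inj, sub_left_inj]

theorem per_int : YPer {p | ∀ i, ∃ k : ℤ, p i = k} := by
  refine ⟨fun R => ?_, 1, one_pos, fun p hp k i => ?_⟩
  · refine ((finite_Icc (fun _ : Fin 3 => ⌊-R⌋) fun _ => ⌈R⌉).image
      fun (k : Fin 3 → ℤ) (i : Fin 3) => (k i : ℝ)).subset ?_
    rintro p ⟨h1, h2⟩
    choose k hk using h1
    have h3 : ∀ i, -R ≤ k i ∧ k i ≤ R := fun i =>
      abs_le.1 (hk i ▸ (norm_le_pi_norm p i).trans (mem_closedBall_zero_iff.1 h2))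
    exact ⟨k, ⟨fun i => Int.floor_le_iff.2 (by linarith [(h3 i).1]),
      fun i => Int.le_ceil_iff.2 (by linarith [(h3 i).2])⟩, funext fun i => (hk i).symm⟩
  · obtain ⟨j, hj⟩ := hp i
    exact ⟨j + k i, by simp [hj]⟩

end BEp
end
end

-- merged part: Pool.Agent.Work.MP_f0515e_an.P3.YDy2
section
/-! Periodic sets of centres; finiteness of shapes. -/

open Set Metric Filter Topology Function BEv MeasureTheory
open scoped NNReal ENNReal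

noncomputable section
namespace BEp

theorem YDy2_lat (q : Rn 3) (R : ℝ) :
    ({p : Rn 3 | ∀ i, ∃ k : ℤ, 2 * (p i - q i) = k} ∩ closedBall 0 R).Finite := by
  obtain ⟨N, hN⟩ := exists_int_gt (2 * (R + ‖q‖))
  refine ((Set.Finite.pi' fun _ : Fin 3 => Set.finite_Icc (-N) N).image
    fun k i => q i + (k i : ℝ) / 2).subset ?_
  rintro p ⟨h1, h2⟩
  choose k hk using h1
  refine ⟨k, fun i => ?_, funext fun i => by linarith [hk i]⟩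
  have a := abs_le.1 ((norm_le_pi_norm p i).trans (mem_closedBall_zero_iff.1 h2))
  have b := abs_le.1 (norm_le_pi_norm q i)
  have := hk i
  constructor
  · have : (-N : ℝ) ≤ k i := by linarith [a.1, b.2]
    exact_mod_cast this
  · have : (k i : ℝ) ≤ N := by linarith [a.2, b.1]
    exact_mod_cast this

theorem YDy2_red {m : ℕ} (hm : 0 < m) (x : Rn 3) :
    ∃ k : Fin 3 → ℤ, ‖x + fun i => (m * k i : ℝ)‖ ≤ m := by
  have m0 : (0 : ℝ) < m := by exact_mod_cast hm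
  refine ⟨fun i => -⌊x i / m⌋, (pi_norm_le_iff_of_nonneg m0.le).2 fun i => ?_⟩
  have a := (le_div_iff₀ m0).1 (Int.floor_le (x i / m))
  have b := (div_lt_iff₀ m0).1 (Int.lt_floor_add_one (x i / m))
  simp only [Pi.add_apply, Int.cast_neg, Real.norm_eq_abs]
  exact abs_le.2 ⟨by linarith, by linarith⟩

theorem YDy2_sub {a b : ℝ} {k : ℤ} (h : kbS (a + k) b) : kbS a (b - k) := by
  obtain ⟨h1, h2⟩ := h
  rw [Int.floor_add_intCast] at h1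
  rw [Int.ceil_add_intCast] at h2
  exact ⟨by rw [Int.floor_sub_intCast, h1, add_sub_cancel_right],
    by rw [Int.ceil_sub_intCast, h2, add_sub_cancel_right]⟩

theorem YDy2_fc {R : ℝ} : ∃ S : Set (ℤ × ℤ), S.Finite ∧ ∀ a : ℝ, |a| ≤ R → (⌊a⌋, ⌈a⌉) ∈ S :=
  ⟨Icc ⌊-R⌋ ⌊R⌋ ×ˢ Icc ⌈-R⌉ ⌈R⌉, (Set.finite_Icc _ _).prod (Set.finite_Icc _ _), fun _ h =>
    ⟨⟨Int.floor_mono (abs_le.1 h).1, Int.floor_mono (abs_le.1 h).2⟩,
      Int.ceil_mono (abs_le.1 h).1, Int.ceil_mono (abs_le.1 h).2⟩⟩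

theorem YDy2_int (A : Rn 3 ≃L[ℝ] Rn 3) {m : ℕ}
    (h : ∀ i j, ∃ k : ℤ, m * A.symm (Pi.single j 1) i = k) (k : Fin 3 → ℤ) (i : Fin 3) :
    ∃ l : ℤ, A.symm (fun j => (m * k j : ℝ)) i = l := by
  choose c hc using h
  refine ⟨∑ j, k j * c i j, ?_⟩
  have e : (fun j => (m * k j : ℝ)) = ∑ j, (m * k j : ℝ) • (Pi.single j 1 : Rn 3) := by
    funext l
    simp [Finset.sum_apply, Pi.single_apply]
  rw [e, map_sum, Finset.sum_apply]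
  push_cast
  refine Finset.sum_congr rfl fun j _ => ?_
  rw [map_smul, Pi.smul_apply, smul_eq_mul, ← hc]
  ring

/-- A periodic set which meets every cell of the common refinement of the two lattices. -/
theorem per_pt (A : Rn 3 ≃L[ℝ] Rn 3)
    (h : ∃ m : ℕ, 0 < m ∧ ∀ i j, ∃ k : ℤ, m * A.symm (Pi.single j 1) i = k) :
    ∃ Λ, YPer Λ ∧ (∀ p : Rn 3, (∀ i, ∃ k : ℤ, 2 * p i = k) → p ∈ Λ) ∧
      ∀ x, ∃ p ∈ Λ, p ∈ kbC 0 x ∧ ∀ i, kbS (A.symm x i) (A.symm p i) := by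
  obtain ⟨m, m0, hm⟩ := h
  obtain ⟨S, hS, h1⟩ := YDy2_fc (R := m)
  obtain ⟨T, hT, h2⟩ := YDy2_fc (R := ‖(A.symm : Rn 3 →L[ℝ] Rn 3)‖ * m)
  let cl : Rn 3 → Fin 3 → (ℤ × ℤ) × ℤ × ℤ := fun x i =>
    ((⌊x i⌋, ⌈x i⌉), ⌊A.symm x i⌋, ⌈A.symm x i⌉)
  have hf : (cl '' closedBall 0 m).Finite := by
    refine (Set.Finite.pi' fun _ : Fin 3 => hS.prod hT).subset ?_
    rintro _ ⟨x, hx, rfl⟩ i
    rw [mem_closedBall_zero_iff] at hx
    exact ⟨h1 _ ((norm_le_pi_norm x i).trans hx), h2 _ ((norm_le_pi_norm (A.symm x) i).trans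
      ((A.symm : Rn 3 →L[ℝ] Rn 3).le_opNorm_of_le hx))⟩
  obtain ⟨P, -, hP⟩ := Set.exists_subset_bijOn (closedBall (0 : Rn 3) m) cl
  have hP0 : (insert 0 P).Finite := (hP.finite_iff_finite.2 hf).insert 0
  refine ⟨⋃ q ∈ insert 0 P, {p : Rn 3 | ∀ i, ∃ k : ℤ, 2 * (p i - q i) = k}, ⟨fun R => ?_, 1,
    one_pos, fun p hp k => ?_⟩, fun p hp => ?_, fun x => ?_⟩
  · rw [iUnion₂_inter]
    exact hP0.biUnion fun q _ => YDy2_lat q R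
  · obtain ⟨q, hq, hp⟩ := mem_iUnion₂.1 hp
    refine mem_iUnion₂.2 ⟨q, hq, fun i => ?_⟩
    obtain ⟨l, hl⟩ := hp i
    refine ⟨l + 2 * k i, ?_⟩
    simp only [Pi.add_apply]
    push_cast
    linarith
  · exact mem_iUnion₂.2 ⟨0, mem_insert _ _, fun i => by simpa using hp i⟩
  · obtain ⟨k, hk⟩ := YDy2_red m0 x
    obtain ⟨q, hq, e⟩ := hP.surjOn ⟨_, mem_closedBall_zero_iff.2 hk, rfl⟩
    refine ⟨q - fun i => (m * k i : ℝ), mem_iUnion₂.2 ⟨q, mem_insert_of_mem _ hq, fun i =>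
      ⟨-(2 * (m * k i)), by simp⟩⟩, fun i => ?_, fun i => ?_⟩
    · have e1 : kbS (x i + (m * k i : ℤ)) (q i) := by
        have := Prod.ext_iff.1 (Prod.ext_iff.1 (congrFun e i)).1
        push_cast
        exact this
      simpa using YDy2_sub e1
    · obtain ⟨l, hl⟩ := YDy2_int A hm k i
      have e1 : kbS (A.symm (x + fun i => (m * k i : ℝ)) i) (A.symm q i) :=
        Prod.ext_iff.1 (Prod.ext_iff.1 (congrFun e i)).2
      rw [map_add, Pi.add_apply, hl] at e1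
      rw [map_sub, Pi.sub_apply, hl]
      exact YDy2_sub e1

theorem YDy2_one (p : Fin 4 → Rn 3) : ∃ K : ℝ,
    (∀ w : Rn 4, ∑ d, w d = 0 → ∑ d, w d • p d = 0 → w = 0) →
    ∀ w : Rn 4, ∑ d, w d = 0 → ‖w‖ ≤ K * ‖∑ d, w d • p d‖ := by
  by_cases h : ∀ w : Rn 4, ∑ d, w d = 0 → ∑ d, w d • p d = 0 → w = 0
  swap
  · exact ⟨0, fun g => absurd g h⟩
  have e : ∀ w : Rn 4, Fintype.linearCombination ℝ (fun d => ((1 : ℝ), p d)) w =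
      (∑ d, w d, ∑ d, w d • p d) := fun w => by
    rw [Fintype.linearCombination_apply]
    exact Prod.ext (by simp [Prod.fst_sum]) (by simp [Prod.snd_sum])
  obtain ⟨K, -, hK⟩ := (Fintype.linearCombination ℝ fun d => ((1 : ℝ), p d)).exists_antilipschitzWith
    (LinearMap.ker_eq_bot'.2 fun w hw => by
      rw [e] at hw
      exact h w (Prod.ext_iff.1 hw).1 (Prod.ext_iff.1 hw).2)
  refine ⟨K, fun _ w hw => ?_⟩
  have := ZeroHomClass.bound_of_antilipschitz _ hK w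
  rwa [e, hw, Prod.norm_def, norm_zero, max_eq_right (norm_nonneg _)] at this

/-- Uniform shape bound for simplices of bounded size with vertices in a periodic set. -/
theorem fin_lo {Λ : Set (Rn 3)} (h : YPer Λ) (D : ℝ) : ∃ K : ℝ, 1 ≤ K ∧ ∀ p : Fin 4 → Rn 3,
    (∀ d, p d ∈ Λ) → (∀ d e, ‖p d - p e‖ ≤ D) →
    (∀ w : Rn 4, ∑ d, w d = 0 → ∑ d, w d • p d = 0 → w = 0) →
    ∀ w : Rn 4, ∑ d, w d = 0 → ‖w‖ ≤ K * ‖∑ d, w d • p d‖ := by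
  obtain ⟨hf, m, m0, hm⟩ := h
  choose K hK using YDy2_one
  obtain ⟨B, hB⟩ := ((Set.Finite.pi' fun _ : Fin 4 => hf (m + D)).image K).bddAbove
  refine ⟨max 1 B, le_max_left _ _, fun p hp hD hi w hw => ?_⟩
  obtain ⟨k, hk⟩ := YDy2_red m0 (p 0)
  set t : Rn 3 := fun i => (m * k i : ℝ)
  have e : ∀ w : Rn 4, ∑ d, w d = 0 → ∑ d, w d • (p d + t) = ∑ d, w d • p d := fun w hw => by
    simp only [smul_add]
    rw [Finset.sum_add_distrib, ← Finset.sum_smul, hw, zero_smul, add_zero]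
  have h1 := hK (fun d => p d + t) (fun w hw g => hi w hw (by rwa [e w hw] at g)) w hw
  rw [e w hw] at h1
  refine h1.trans (mul_le_mul_of_nonneg_right (le_max_of_le_right (hB ⟨_, fun d => ⟨hm _ (hp d) k,
    mem_closedBall_zero_iff.2 ?_⟩, rfl⟩)) (norm_nonneg _))
  have h2 := norm_add_le (p 0 + t) (p d - p 0)
  have h3 : p 0 + t + (p d - p 0) = p d + t := by abel
  rw [h3] at h2
  linarith [hD d 0]

end BEp
end
end
end

-- merged part: Pool.Agent.Work.MP_f0515e_an.P3.YFl1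
section
/-! Barycentric coordinates in a flag: existence and uniqueness. -/

open Set Metric Filter Topology Function BEv MeasureTheory
open scoped NNReal ENNReal

noncomputable section
namespace BEp

namespace Cx
variable {V : Set (Rn 3)} {X : Cx V} {c c' : Fin 4 → Set (Rn 3)} {w w' T T' : Rn 4}
  {y y' z z' : Rn 3} {v v' : Set (Rn 3)} {d e : Fin 4}

theorem YFl1_lin (X : Cx V) (c : Fin 4 → Set (Rn 3)) (s t : ℝ) (u u' : Rn 4) :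
    X.bp c (s • u + t • u') = s • X.bp c u + t • X.bp c u' := by
  simp only [bp, Pi.add_apply, Pi.smul_apply, smul_eq_mul, add_smul, mul_smul,
    Finset.sum_add_distrib, Finset.smul_sum]

theorem YFl1_single (X : Cx V) (c : Fin 4 → Set (Rn 3)) (d : Fin 4) :
    X.bp c (Pi.single d 1) = X.b (c d) := by
  rw [bp, Finset.sum_eq_single d (fun e _ k => by rw [Pi.single_eq_of_ne k, zero_smul])
    (fun k => (k (Finset.mem_univ d)).elim), Pi.single_eq_same, one_smul]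

theorem YFl1_cl (h : X.Fl c) (hw : w ∈ stdSimplex ℝ (Fin 4)) (he : ∀ e, d < e → w e = 0) :
    X.bp c w ∈ closure (c d) := by
  have e1 : X.bp c w = ∑ e, w e • X.b (c (min e d)) := Finset.sum_congr rfl fun e _ => by
    rcases le_or_gt e d with k | k
    · rw [min_eq_left k]
    · rw [he e k, zero_smul, zero_smul]
  rw [e1]
  exact (Kx.cells_cvx (h.1 d).1).closure.sum_mem (fun e _ => hw.1 e) hw.2 fun e _ =>
    h.2 _ d (min_le_right e d) (X.hb _ (h.1 _).1)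

/-- Part of the weight of `d` is split off. -/
theorem YFl1_split (hw : w ∈ stdSimplex ℝ (Fin 4)) {t : ℝ} (h1 : t ≤ w d) (h2 : t < 1) :
    ∃ u ∈ stdSimplex ℝ (Fin 4), w = (1 - t) • u + t • Pi.single d 1 ∧
      (∀ e, e ≠ d → w e = 0 → u e = 0) ∧ (t = w d → u d = 0) := by
  have h3 : 0 < 1 - t := sub_pos.2 h2
  refine ⟨(1 - t)⁻¹ • (w - t • Pi.single d 1), ⟨fun e => mul_nonneg (inv_pos.2 h3).le ?_, ?_⟩, ?_,
    fun e k k' => ?_, fun k => ?_⟩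
  · rcases eq_or_ne e d with rfl | k
    · simpa using h1
    · simpa [k] using hw.1 e
  · simp only [Pi.smul_apply, Pi.sub_apply, smul_eq_mul]
    rw [← Finset.mul_sum, Finset.sum_sub_distrib, ← Finset.mul_sum, hw.2, Finset.sum_pi_single',
      if_pos (Finset.mem_univ d), mul_one, inv_mul_cancel₀ h3.ne']
  · rw [smul_inv_smul₀ h3.ne', sub_add_cancel]
  · simp [k, k']
  · simp [← k]

theorem bp_cell (h : X.Fl c) (hw : w ∈ stdSimplex ℝ (Fin 4)) (hd : w d ≠ 0)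
    (he : ∀ e, d < e → w e = 0) : X.bp c w ∈ c d := by
  have h0 : 0 < w d := lt_of_le_of_ne (hw.1 d) hd.symm
  have h1 : w d ≤ 1 := (mem_Icc_of_mem_stdSimplex hw d).2
  obtain ⟨u, hu, e1, e2, -⟩ := YFl1_split hw (d := d) (t := w d / 2) (by linarith) (by linarith)
  have h2 := Kx.seg_mem (h.1 d).1 (YFl1_cl h hu fun e k => e2 e k.ne' (he e k)) (X.hb _ (h.1 d).1)
    (t := w d / 2) ⟨by linarith, by linarith⟩
  have h3 : X.bp c w = X.bp c u + (w d / 2) • (X.b (c d) - X.bp c u) :=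
    ((congrArg (X.bp c) e1).trans (YFl1_lin X c _ _ _ _)).trans (by rw [YFl1_single]; module)
  exact h3 ▸ h2

theorem bp_cl (h : X.Fl c) (hw : w ∈ stdSimplex ℝ (Fin 4)) : X.bp c w ∈ closure (c 3) :=
  YFl1_cl h hw fun e k => (not_lt.2 (Fin.le_last e) k).elim

theorem YFl1_step {k : ℕ} {σ : Set (Rn 3)} (hσ : σ ∈ X.M.cel (k + 1)) (hy : y ∈ closure σ) :
    ∃ τ ∈ X.M.cel k, τ ⊆ closure σ ∧ ∃ z ∈ closure τ, ∃ s ∈ Icc (0 : ℝ) 1,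
      y = X.b σ + s • (z - X.b σ) := by
  obtain ⟨z, hz, s, hs, e⟩ := Kx.radial hσ.1 (by rw [hσ.2]; omega) (X.hb σ hσ.1) hy
  obtain ⟨τ, t1, t2, t3, t4⟩ := Kx.exists_facet hσ.1 hz.1 hz.2
  exact ⟨τ, ⟨t1, by have := hσ.2; omega⟩, t3, z, t4, s, hs, e⟩

theorem exists_bp (X : Cx V) (hy : y ∈ V) :
    ∃ c, X.Fl c ∧ ∃ w ∈ stdSimplex ℝ (Fin 4), y = X.bp c w := by
  obtain ⟨τ₃, a3, y3⟩ := X.M.exists_top X.opn hy
  obtain ⟨τ₂, a2, b2, z₂, y2, s₃, r3, e3⟩ := YFl1_step (k := 2) a3 y3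
  obtain ⟨τ₁, a1, b1, z₁, y1, s₂, r2, e2⟩ := YFl1_step (k := 1) a2 y2
  obtain ⟨τ₀, a0, b0, z₀, y0, s₁, r1, e1⟩ := YFl1_step (k := 0) a1 y1
  have e0 : z₀ = X.b τ₀ := by
    obtain ⟨a, ha⟩ := (Kx.dm_zero a0.1).1 a0.2
    have h1 := X.hb τ₀ a0.1
    rw [ha, closure_singleton] at y0
    rw [y0]
    exact (ha ▸ h1 : X.b τ₀ ∈ ({a} : Set (Rn 3))).symm
  have tr : ∀ {A B C : Set (Rn 3)}, A ⊆ closure B → B ⊆ closure C → A ⊆ closure C :=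
    fun p q => p.trans (closure_minimal q isClosed_closure)
  refine ⟨![τ₀, τ₁, τ₂, τ₃], ⟨fun d => ?_, fun d e k => ?_⟩,
    ![s₁ * s₂ * s₃, (1 - s₁) * s₂ * s₃, (1 - s₂) * s₃, 1 - s₃], ⟨fun d => ?_, ?_⟩, ?_⟩
  · fin_cases d
    exacts [a0, a1, a2, a3]
  · fin_cases d <;> fin_cases e <;> first
      | exact subset_closure
      | exact b0
      | exact b1
      | exact b2
      | exact tr b0 b1
      | exact tr b1 b2
      | exact tr b0 (tr b1 b2)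
      | exact absurd k (by decide)
  · have p1 := sub_nonneg.2 r1.2
    have p2 := sub_nonneg.2 r2.2
    have p3 := sub_nonneg.2 r3.2
    fin_cases d
    exacts [mul_nonneg (mul_nonneg r1.1 r2.1) r3.1, mul_nonneg (mul_nonneg p1 r2.1) r3.1,
      mul_nonneg p2 r3.1, p3]
  · simp only [Fin.sum_univ_four, Matrix.cons_val]
    ring
  · simp only [bp, Fin.sum_univ_four, Matrix.cons_val]
    rw [e3, e2, e1, e0]
    module

theorem YFl1_dm (h : X.Fl c) (hw : w ∈ stdSimplex ℝ (Fin 4)) (k : ℕ)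
    (he : ∀ e : Fin 4, k ≤ e → w e = 0) : dm (X.M.cell (X.bp c w)) < k := by
  induction k with
  | zero =>
    have h1 := hw.2
    rw [Finset.sum_eq_zero fun e _ => he e (Nat.zero_le _)] at h1
    exact (zero_ne_one h1).elim
  | succ k ih =>
    by_cases h1 : ∀ e : Fin 4, k ≤ e → w e = 0
    · exact (ih h1).trans (Nat.lt_succ_self k)
    · push Not at h1
      obtain ⟨d, d1, d2⟩ := h1
      have d3 : (d : ℕ) = k := le_antisymm (not_lt.1 fun q => d2 (he d q)) d1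
      rw [Kx.cell_eq (h.1 d).1 (bp_cell h hw d2 fun e q => he e (by rw [← d3]; exact q)),
        (h.1 d).2, d3]
      exact Nat.lt_succ_self k

/-- Radial decomposition in the top cell. -/
theorem YFl1_rad (h : X.Fl c) (hw : w ∈ stdSimplex ℝ (Fin 4)) (he : ∀ e, d < e → w e = 0) :
    w = Pi.single d 1 ∨ ∃ u ∈ stdSimplex ℝ (Fin 4), ∃ s : ℝ, 0 < s ∧
      w = s • u + (1 - s) • Pi.single d 1 ∧ (∀ e, d ≤ e → u e = 0) ∧
      X.bp c u ∈ closure (c d) \ c d ∧ X.bp c w - X.b (c d) = s • (X.bp c u - X.b (c d)) := by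
  rcases (mem_Icc_of_mem_stdSimplex hw d).2.eq_or_lt with k | k
  · refine Or.inl (funext fun e => ?_)
    rcases eq_or_ne e d with rfl | q
    · rw [k, Pi.single_eq_same]
    · rw [Pi.single_eq_of_ne q]
      have h1 := Finset.add_le_sum (s := Finset.univ) (fun i _ => hw.1 i) (Finset.mem_univ e)
        (Finset.mem_univ d) q
      rw [hw.2, k] at h1
      exact le_antisymm (by linarith) (hw.1 e)
  · obtain ⟨u, hu, e1, e2, e3⟩ := YFl1_split hw (d := d) le_rfl k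
    have e4 : ∀ e, d ≤ e → u e = 0 := fun e q => by
      rcases q.eq_or_lt with rfl | q
      · exact e3 rfl
      · exact e2 e q.ne' (he e q)
    refine Or.inr ⟨u, hu, 1 - w d, sub_pos.2 k, by rw [sub_sub_cancel]; exact e1, e4,
      ⟨YFl1_cl h hu fun e q => e4 e q.le, fun q => ?_⟩, ?_⟩
    · have h1 := YFl1_dm h hu d e4
      rw [Kx.cell_eq (h.1 d).1 q, (h.1 d).2] at h1
      exact lt_irrefl _ h1
    · rw [((congrArg (X.bp c) e1).trans (YFl1_lin X c _ _ _ _)), YFl1_single]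
      module

theorem YFl1_uniq (h : X.Fl c) (h' : X.Fl c') (k : ℕ) : ∀ w ∈ stdSimplex ℝ (Fin 4),
    ∀ w' ∈ stdSimplex ℝ (Fin 4), (∀ e : Fin 4, k ≤ e → w e = 0) → (∀ e : Fin 4, k ≤ e → w' e = 0) →
      X.bp c w = X.bp c' w' → w = w' ∧ ∀ d, w d ≠ 0 → c d = c' d := by
  induction k with
  | zero => exact fun w hw _ _ he _ _ => absurd (YFl1_dm h hw 0 he) (Nat.not_lt_zero _)
  | succ k ih =>
    intro w hw w' hw' he he' e
    have top : ∀ {c : Fin 4 → Set (Rn 3)} {w : Rn 4}, X.Fl c → w ∈ stdSimplex ℝ (Fin 4) →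
        (∀ e : Fin 4, k + 1 ≤ e → w e = 0) → (¬ ∀ e : Fin 4, k ≤ e → w e = 0) →
        ∃ d : Fin 4, (d : ℕ) = k ∧ X.M.cell (X.bp c w) = c d := fun {c w} h hw he h1 => by
      push Not at h1
      obtain ⟨d, d1, d2⟩ := h1
      have d3 : (d : ℕ) = k := le_antisymm (not_lt.1 fun q => d2 (he d q)) d1
      exact ⟨d, d3, Kx.cell_eq (h.1 d).1 (bp_cell h hw d2 fun e q => he e (by rw [← d3]; exact q))⟩
    by_cases h1 : ∀ e : Fin 4, k ≤ e → w e = 0 <;> by_cases h2 : ∀ e : Fin 4, k ≤ e → w' e = 0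
    · exact ih w hw w' hw' h1 h2 e
    · obtain ⟨d, d1, d2⟩ := top h' hw' he' h2
      have h3 := YFl1_dm h hw k h1
      rw [e, d2, (h'.1 d).2, d1] at h3
      exact (lt_irrefl _ h3).elim
    · obtain ⟨d, d1, d2⟩ := top h hw he h1
      have h3 := YFl1_dm h' hw' k h2
      rw [← e, d2, (h.1 d).2, d1] at h3
      exact (lt_irrefl _ h3).elim
    obtain ⟨d, d1, d2⟩ := top h hw he h1
    obtain ⟨d', d1', d2'⟩ := top h' hw' he' h2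
    obtain rfl : d = d' := Fin.ext (d1.trans d1'.symm)
    subst d1
    have ec : c d = c' d := by rw [← d2, e, d2']
    have ho := X.hb _ (h.1 d).1
    rcases YFl1_rad h hw (d := d) he with k | ⟨u, hu, s, s0, e1, e2, e3, e4⟩ <;>
      rcases YFl1_rad h' hw' (d := d) he' with k' | ⟨u', hu', s', s0', e1', e2', e3', e4'⟩
    · refine ⟨k.trans k'.symm, fun a ha => ?_⟩
      obtain rfl : a = d := by_contra fun q => ha (by rw [k, Pi.single_eq_of_ne q])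
      exact ec
    · rw [← e, k, YFl1_single, ec, sub_self] at e4'
      have h3 := sub_eq_zero.1 ((smul_eq_zero.1 e4'.symm).resolve_left s0'.ne')
      exact (e3'.2 (h3 ▸ X.hb _ (h'.1 d).1)).elim
    · rw [e, k', YFl1_single, ← ec, sub_self] at e4
      have h3 := sub_eq_zero.1 ((smul_eq_zero.1 e4.symm).resolve_left s0.ne')
      exact (e3.2 (h3 ▸ ho)).elim
    · rw [← ec] at e3' e4'
      obtain ⟨rfl, q⟩ := Kx.radial_uniq (h.1 d).1 ho e3 e3' s0 s0'.le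
        (by rw [← e4, ← e4', e])
      obtain ⟨rfl, q'⟩ := ih u hu u' hu' e2 e2' q
      refine ⟨e1.trans e1'.symm, fun a ha => ?_⟩
      rcases eq_or_ne a d with rfl | r
      · exact ec
      · refine q' a fun r' => ha ?_
        rw [e1]
        simp [r, r']

theorem bp_uniq (h : X.Fl c) (h' : X.Fl c') (hw : w ∈ stdSimplex ℝ (Fin 4))
    (hw' : w' ∈ stdSimplex ℝ (Fin 4)) (e : X.bp c w = X.bp c' w') :
    w = w' ∧ ∀ d, w d ≠ 0 → c d = c' d :=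
  YFl1_uniq h h' 4 w hw w' hw' (fun e k => (not_lt.2 k e.2).elim)
    (fun e k => (not_lt.2 k e.2).elim) e

/-- Affine independence of the centres of a flag. -/
theorem bp_indep (h : X.Fl c) (hw : ∑ d, w d = 0) (e : X.bp c w = 0) : w = 0 := by
  have p : 0 < 4 * (‖w‖ + 1) := by positivity
  have m1 : (fun _ => 1 / 4 : Rn 4) ∈ stdSimplex ℝ (Fin 4) := ⟨fun _ => by norm_num, by simp⟩
  have m2 : (1 : ℝ) • (fun _ => 1 / 4 : Rn 4) + (4 * (‖w‖ + 1))⁻¹ • w ∈ stdSimplex ℝ (Fin 4) := by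
    refine ⟨fun d => ?_, ?_⟩
    · have h1 := (abs_le.1 ((Real.norm_eq_abs _).symm.trans_le (norm_le_pi_norm w d))).1
      have h2 : -(1 / 4) ≤ (4 * (‖w‖ + 1))⁻¹ * w d := by
        rw [le_inv_mul_iff₀ p]
        linarith
      show 0 ≤ 1 * (1 / 4) + (4 * (‖w‖ + 1))⁻¹ * w d
      linarith
    · simp only [Pi.add_apply, Pi.smul_apply, smul_eq_mul, Finset.sum_add_distrib,
        ← Finset.mul_sum, hw]
      simp
  have h1 := (bp_uniq h h m2 m1 (by rw [YFl1_lin, e, smul_zero, add_zero, one_smul])).1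
  rw [one_smul, add_eq_left] at h1
  exact (smul_eq_zero.1 h1).resolve_left (inv_pos.2 p).ne'

end Cx

end BEp
end
end
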