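import Pool.Agent.Work.MP_f0515e_an.D3.NLn
import Pool.Agent.Work.MP_f0515e_an.P3.YFl1
import Pool.Agent.Work.MP_f0515e_an.D3.KBase
import Pool.Agent.Work.MP_f0515e_an.D3.SRig0
import Pool.Agent.Work.MP_f0515e_an.D3.MStr1
import Pool.Agent.Work.MP_f0515e_an.D3.GB3
import Pool.Agent.Work.MP_f0515e_an.D3.CDisj
import Pool.Agent.Work.MP_f0515e_an.D3.KA3
import Pool.Agent.Work.MP_f0515e_an.D3.XFace
import Pool.Agent.Work.MP_f0515e_an.P3.TDefs

-- merged part: Pool.Agent.Work.MP_f0515e_an.D3.O7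
section
/-! The chords satisfy the hypotheses of the topological theorem.
Plan. Write `γ = seg (A j) (B j)`, the chord has ends `γ s`, `γ t`; `seg_seg`, `o_cs`, `o_inj`. All parameters within
`δ j` of `s` lie in `Ioo 0 1`. `o_cdisj`: a common point gives `‖f a' - f a‖ ≤ 4 R`, so `a' = γ x` with `|x - s| < δ`
(`OGeo`), `j = j'` (`OFam.uniq`), the same coordinate (`OneD.disj`); two closed intervals of levels which meet
contain the lower end of one of them, and `OneD.cone` puts `s'` in `uIcc s t` or `s` in `uIcc s' t'`. -/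

open Set Metric Filter Topology Function BEv MeasureTheory
open scoped NNReal ENNReal

noncomputable section
namespace BEp

variable {Ω : Set (Rn 3)} {K K' : Kx Ω} {f : Rn 3 → Rn 3} {Ec : Set (Set (Rn 3))} {J : Type}
  {A B : J → Rn 3} {d : J → ℝ → Rn 3} {ν : J → Measure ℝ} {p C0 R : ℝ} {e : J → ℝ≥0∞}
  {δ h : J → ℝ} {C : J → Set (ℝ × ℝ × Fin 3)} {U F : J → Set ℝ} {P φ : J → ℝ → ℝ}

/-- All the data on the edges. -/
structure OAll (K K' : Kx Ω) (f : Rn 3 → Rn 3) (Ec : Set (Set (Rn 3))) (A B : J → Rn 3)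
    (d : J → ℝ → Rn 3) (ν : J → Measure ℝ) (p C0 R : ℝ) (e : J → ℝ≥0∞) (δ h : J → ℝ)
    (C : J → Set (ℝ × ℝ × Fin 3)) (U F : J → Set ℝ) (P φ : J → ℝ → ℝ) : Prop where
  opn : IsOpen Ω
  R0 : 0 < R
  δ0 : ∀ j, 0 < δ j
  fam : OFam K Ec A B
  sub : OSub K K' A B U
  geo : ∀ j, OGeo K f (A j) (B j) (δ j) R (h j)
  one : ∀ j, OneD (fun t => f (seg (A j) (B j) t)) (d j) (ν j) p C0 (e j) (δ j) (h j) (C j) (U j)
    (F j) (P j) (φ j)

theorem O7_par {δ s t u : ℝ} (h0 : 0 < δ) (hs : s ∈ Icc δ (1 - δ)) (ht : t ∈ Icc δ (1 - δ))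
    (hu : u ∈ uIcc s t) : u ∈ Icc (0 : ℝ) 1 := by
  have := uIcc_subset_Icc hs ht hu
  exact ⟨by linarith [this.1], by linarith [this.2]⟩

theorem O7_near (hΩ : IsOpen Ω) {a b x : Rn 3} (h : K.Edge a b) (hx : x ∈ openSegment ℝ a b) :
    ∃ e > 0, ∀ y ∈ K.sk 1, ‖y - x‖ < e → ∃ u, y = seg a b u := by
  obtain ⟨e, he, k⟩ := Metric.eventually_nhds_iff_ball.1
    (Kx.near (K := K) hΩ (Kx.cells_sub h.2 hx))
  refine ⟨e, he, fun y hy hn => ?_⟩
  obtain ⟨k1, k2⟩ := k y (mem_ball_iff_norm.2 hn)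
  have k3 : openSegment ℝ a b = K.cell y := by
    by_contra hne
    have := Kx.dm_lt (K.cell_mem k1) h.2 (Kx.front h.2 (K.cell_mem k1) ⟨x, hx, k2⟩) hne
    rw [h.dm] at this
    exact this.not_ge hy.2
  have k4 := K.mem y k1
  rw [← k3, ← seg_image_open] at k4
  obtain ⟨u, -, rfl⟩ := k4
  exact ⟨u, rfl⟩

theorem o_cedge (H : OAll K K' f Ec A B d ν p C0 R e δ h C U F P φ) :
    ∀ c ∈ oCh A B C R, K'.Edge c.a c.b ∧ f c.a c.i < f c.b c.i ∧
      closedBall (f c.a) (2 * c.R) ⊆ f '' Ω ∧ ∀ x ∈ segment ℝ c.a c.b, ‖f x - f c.a‖ < c.R := by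
  rintro c ⟨j, q, hq, rfl⟩
  obtain ⟨e1, e2, e3, e4, e5, e6, e7, e8⟩ := (H.one j).ends q hq
  obtain ⟨g1, g2, -⟩ := H.geo j _ e5
  obtain ⟨k1, k2, -⟩ := (H.one j).cone q hq _ e8
  refine ⟨H.sub.edge j _ e1 _ e2 e3 e4,
    lt_of_le_of_ne (k1.2 right_mem_uIcc).1 fun k => e3 (k2 k.symm).symm, g1, fun x hx => ?_⟩
  rw [o_cs] at hx
  obtain ⟨u, hu, rfl⟩ := hx
  exact g2 u (O7_par (H.δ0 j) e5 e6 hu) ((abs_sub_left_of_mem_uIcc hu).trans e7)

theorem o_cval (H : OAll K K' f Ec A B d ν p C0 R e δ h C U F P φ) :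
    ∀ c ∈ oCh A B C R, ∃ e : ℝ, 0 < e ∧ (∀ t ∈ Icc (-e) (1 + e), seg c.a c.b t ∈ K'.sk 1) ∧
      ∀ x ∈ K'.sk 1, (‖x - c.a‖ < e ∨ ‖x - c.b‖ < e) → ∃ t, x = seg c.a c.b t := by
  rintro c ⟨j, q, hq, rfl⟩
  obtain ⟨-, -, e3, -, e5, e6, -, e8⟩ := (H.one j).ends q hq
  have h0 := H.δ0 j
  obtain ⟨a, ha, ka⟩ := O7_near H.opn (H.fam.edge j)
    (o_memo (A j) (B j) (t := q.1) ⟨by linarith [e5.1], by linarith [e5.2]⟩)
  obtain ⟨b, hb, kb⟩ := O7_near H.opn (H.fam.edge j)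
    (o_memo (A j) (B j) (t := q.2.1) ⟨by linarith [e6.1], by linarith [e6.2]⟩)
  have m1 := min_le_left 1 (min a b)
  have m2 := (min_le_right 1 (min a b)).trans (min_le_left a b)
  have m3 := (min_le_right 1 (min a b)).trans (min_le_right a b)
  refine ⟨min 1 (min a b), lt_min one_pos (lt_min ha hb), fun t ht => ?_, fun x hx k => ?_⟩
  · rw [H.sub.sk, seg_seg]
    refine (H.fam.edge j).seg_sub (o_mem _ _ ?_)
    obtain ⟨l1, l2⟩ := abs_lt.1 e8
    have t1 : -1 ≤ t := by linarith [ht.1]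
    have t2 : t ≤ 2 := by linarith [ht.2]
    rcases le_total q.1 q.2.1 with l | l
    · exact ⟨by nlinarith [e5.1], by nlinarith [e6.2]⟩
    · exact ⟨by nlinarith [e6.1], by nlinarith [e5.2]⟩
  · rw [H.sub.sk] at hx
    obtain ⟨u, rfl⟩ : ∃ u, x = seg (A j) (B j) u :=
      k.elim (fun k => ka x hx (k.trans_le m2)) fun k => kb x hx (k.trans_le m3)
    refine ⟨(u - q.1) / (q.2.1 - q.1), ?_⟩
    rw [seg_seg, div_mul_cancel₀ _ (sub_ne_zero.2 e3.symm), add_sub_cancel]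

theorem o_conce (H : OAll K K' f Ec A B d ν p C0 R e δ h C U F P φ) :
    ∀ c ∈ oCh A B C R, ∀ x ∈ Ω, (x ∈ K'.sk 1 ∨ ∃ t, x = seg c.a c.b t) → f x ∈ c.box f →
      x ∈ segment ℝ c.a c.b ∧ (f x c.i = f c.a c.i → x = c.a) ∧
        (f x c.i = f c.b c.i → x = c.b) := by
  rintro c ⟨j, q, hq, rfl⟩ x hx hs ⟨b1, b2, b3⟩
  obtain ⟨-, -, -, -, e5, -⟩ := (H.one j).ends q hq
  obtain ⟨u, hu, rfl⟩ := (H.geo j _ e5).2.2 x hx
    (hs.imp (fun k => H.sub.sk ▸ k) fun ⟨t, k⟩ => ⟨_, k.trans (seg_seg _ _ _ _ _)⟩)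
    (b3.trans (by linarith [H.R0]))
  obtain ⟨k1, k2, k3⟩ := (H.one j).cone q hq u hu
  refine ⟨?_, fun k => congrArg _ (k2 k), fun k => congrArg _ (k3 k)⟩
  rw [o_cs]
  exact mem_image_of_mem _ (k1.1 ⟨b1, b2⟩)

theorem o_cin (H : OAll K K' f Ec A B d ν p C0 R e δ h C U F P φ) :
    ∀ c ∈ oCh A B C R, ∀ x ∈ segment ℝ c.a c.b, f x ∈ c.box f := by
  intro c hc x hx
  have k := (o_cedge H c hc).2.2.2 x hx
  obtain ⟨j, q, hq, rfl⟩ := hc
  obtain ⟨-, -, -, -, -, -, -, e8⟩ := (H.one j).ends q hq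
  rw [o_cs] at hx
  obtain ⟨u, hu, rfl⟩ := hx
  obtain ⟨k1, k2⟩ := ((H.one j).cone q hq u ((abs_sub_left_of_mem_uIcc hu).trans_lt e8)).1.2 hu
  exact ⟨k1, k2, k.le.trans (by linarith [H.R0])⟩

theorem o_cdisj (H : OAll K K' f Ec A B d ν p C0 R e δ h C U F P φ) :
    (oCh A B C R).PairwiseDisjoint fun c => c.box f := by
  rintro c ⟨j, q, hq, rfl⟩ c' ⟨j', q', hq', rfl⟩ hne
  refine disjoint_left.2 fun y ⟨a1, a2, a3⟩ ⟨b1, b2, b3⟩ => ?_
  obtain ⟨-, -, -, -, e5, -⟩ := (H.one j).ends q hq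
  obtain ⟨-, -, -, -, e5', e6', -⟩ := (H.one j').ends q' hq'
  have m := o_mem (A j') (B j') (O7_par (H.δ0 j') e5' e6' left_mem_uIcc)
  have m' := (H.fam.edge j').seg_sub m
  obtain ⟨u, hu, k⟩ := (H.geo j _ e5).2.2 _ m'.1 (Or.inl m') (by
    have := norm_sub_le_norm_sub_add_norm_sub (f (seg (A j') (B j') q'.1)) y
      (f (seg (A j) (B j) q.1))
    rw [norm_sub_rev _ y] at this
    simp only at a3 b3
    linarith)
  obtain ⟨l1, l2⟩ := abs_lt.1 hu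
  obtain rfl : j = j' := H.fam.uniq
    (o_memo (A j) (B j) (t := u) ⟨by linarith [e5.1], by linarith [e5.2]⟩) (k ▸ m)
  obtain rfl := o_inj (H.fam.edge j).1 k
  obtain ⟨d1, d2⟩ := (H.one j).disj q hq q' hq' fun e => hne (by rw [e])
  simp only [d2 hu] at a1 a2 b1 b2
  rcases le_total (f (seg (A j) (B j) q.1) q.2.2) (f (seg (A j) (B j) q'.1) q.2.2) with l | l
  · exact disjoint_left.1 d1 (((H.one j).cone q hq _ hu).1.1 ⟨l, b1.trans a2⟩) left_mem_uIcc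
  · refine disjoint_left.1 d1 left_mem_uIcc
      (((H.one j).cone q' hq' _ (by rwa [abs_sub_comm])).1.1 ?_)
    rw [d2 hu]
    exact ⟨l, a1.trans b2⟩

end BEp
end
end

-- merged part: Pool.Agent.Work.MP_f0515e_an.D3.O8
section
/-! Variation bounds, tolerances and speed profiles of the edges; the derivative estimate. -/

open Set Metric Filter Topology Function BEv MeasureTheory
open scoped NNReal ENNReal

noncomputable section
namespace BEp

variable {Ω : Set (Rn 3)} {K K' : Kx Ω} {f : Rn 3 → Rn 3} {Ec : Set (Set (Rn 3))} {J : Type}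
  {A B : J → Rn 3} {d : J → ℝ → Rn 3} {ν : J → Measure ℝ} {p C0 R : ℝ} {e : J → ℝ≥0∞}
  {δ h : J → ℝ} {C : J → Set (ℝ × ℝ × Fin 3)} {U F : J → Set ℝ} {P φ : J → ℝ → ℝ}

theorem vr_seg (f : Rn 3 → Rn 3) (a b : Rn 3) (u u' : ℝ) :
    vr f (seg a b u) (seg a b u') = eVariationOn (fun t => f (seg a b t)) (uIcc u u') := by
  have e : (fun x : ℝ => u + x * (u' - u)) '' Icc 0 1 = uIcc u u' := by
    rw [← segment_eq_uIcc, segment_eq_image']
    rfl
  rw [vr, ← e]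
  simp only [seg_seg]
  rcases le_total u u' with k | k
  · exact eVariationOn.comp_eq_of_monotoneOn (fun t => f (seg a b t)) _ fun x _ y _ m => by
      nlinarith
  · exact eVariationOn.comp_eq_of_antitoneOn (fun t => f (seg a b t)) _ fun x _ y _ m => by
      nlinarith

theorem o_vsymm (f : Rn 3 → Rn 3) (a b : Rn 3) : vr f b a = vr f a b := by
  have := vr_seg f a b 1 0
  rwa [o_0, o_1, uIcc_of_ge zero_le_one] at this

theorem OAll.ioo (H : OAll K K' f Ec A B d ν p C0 R e δ h C U F P φ) {j : J} {u u' t : ℝ}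
    (hu : u ∈ U j) (hu' : u' ∈ U j) (ht : t ∈ uIoo u u') : t ∈ Ioo (0 : ℝ) 1 :=
  ⟨(le_min ((H.one j).Usub hu).1 ((H.one j).Usub hu').1).trans_lt ht.1,
    ht.2.trans_le (max_le ((H.one j).Usub hu).2 ((H.one j).Usub hu').2)⟩

theorem o_data (H : OAll K K' f Ec A B d ν p C0 R e δ h C U F P φ)
    (hbv : ∀ a b, K.Edge a b → vr f a b ≠ ⊤) {θ : Set (Rn 3) → ℝ} (hθ : ∀ σ, 0 < θ σ)
    (hR : ∀ j, R ≤ θ (openSegment ℝ (A j) (B j))) {b0 : Set (Rn 3) → Rn 3 → ℝ} (hb : BeOk K b0)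
    (σ : Set (Rn 3)) :
    ∃ (V θ' : ℝ) (be : Rn 3 → ℝ), 0 ≤ V ∧ 0 < θ' ∧ (∀ y ∈ Ω, K'.cell y = σ → θ' ≤ θ (K.cell y)) ∧
      (∀ a b, K'.Edge a b → openSegment ℝ a b = σ → vr f a b ≤ ENNReal.ofReal V ∧ TP be ∧
        InjOn be (segment ℝ a b) ∧ be '' segment ℝ a b = Icc 0 1) ∧
      (∀ a b, K.Edge a b → openSegment ℝ a b = σ → σ ∉ Ec →
        V = (vr f a b).toReal ∧ be = b0 σ) ∧
      (∀ c ∈ oCh A B C R, openSegment ℝ c.a c.b = σ → R ≤ θ') ∧
      ∀ j, ∀ u ∈ U j, ∀ u' ∈ U j, u ≠ u' → seg (A j) (B j) '' uIoo u u' = σ →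
        (∀ c ∈ oCh A B C R, openSegment ℝ c.a c.b ≠ σ) → ∀ s t,
          (C0 * V + θ') * |be (seg (A j) (B j) s) - be (seg (A j) (B j) t)| ≤
            (C0 + 1) * |P j s - P j t| := by
  by_cases h1 : ∃ j, ∃ u ∈ U j, ∃ u' ∈ U j, u ≠ u' ∧ seg (A j) (B j) '' uIoo u u' = σ
  · obtain ⟨j, u, hu, u', hu', lt, rfl⟩ : ∃ j, ∃ u ∈ U j, ∃ u' ∈ U j, u < u' ∧
        seg (A j) (B j) '' uIoo u u' = σ := by
      obtain ⟨j, u, hu, u', hu', ne, k⟩ := h1
      rcases lt_or_gt_of_ne ne with m | m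
      exacts [⟨j, u, hu, u', hu', m, k⟩, ⟨j, u', hu', u, hu, m, uIoo_comm u u' ▸ k⟩]
    have O := H.one j
    have E := H.fam.edge j
    have sb : seg (A j) (B j) '' uIoo u u' ⊆ openSegment ℝ (A j) (B j) := by
      rintro _ ⟨t, ht, rfl⟩
      exact o_memo _ _ (H.ioo hu hu' ht)
    have I : Icc u u' ⊆ Icc 0 1 := Icc_subset_Icc (O.Usub hu).1 (O.Usub hu').2
    have V0 : 0 < P j u' - P j u := sub_pos.2 (O.mono (O.Usub hu) (O.Usub hu') lt)
    obtain ⟨L, c, hL⟩ := exists_par E.1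
    obtain ⟨θ', t1, t2, t3, t4⟩ : ∃ θ' : ℝ, 0 < θ' ∧ θ' ≤ θ (openSegment ℝ (A j) (B j)) ∧
        (∀ c ∈ oCh A B C R, openSegment ℝ c.a c.b = seg (A j) (B j) '' uIoo u u' → R ≤ θ') ∧
        ((∀ c ∈ oCh A B C R, openSegment ℝ c.a c.b ≠ seg (A j) (B j) '' uIoo u u') →
          θ' ≤ P j u' - P j u) := by
      by_cases k : ∀ c ∈ oCh A B C R, openSegment ℝ c.a c.b ≠ seg (A j) (B j) '' uIoo u u'
      · exact ⟨_, lt_min (hθ _) V0, min_le_left _ _, fun c hc m => absurd m (k c hc),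
          fun _ => min_le_right _ _⟩
      · exact ⟨R, H.R0, hR j, fun _ _ _ => le_rfl, fun m => absurd m k⟩
    refine ⟨_, θ', fun y => (P j (L y + c) - P j u) / (P j u' - P j u), V0.le, t1,
      fun y hy k => ?_, fun a b he k => ?_, fun a b he k m => ?_, t3,
      fun j' v hv v' hv' ne k m s t => ?_⟩
    · rwa [Kx.cell_eq E.2 (sb (k ▸ K'.mem y hy))]
    · have k2 : vr f a b = vr f (seg (A j) (B j) u) (seg (A j) (B j) u') ∧
          segment ℝ a b = seg (A j) (B j) '' Icc u u' := by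
        rw [← uIcc_of_le lt.le, ← o_cs]
        rcases he.uniq (k.trans (o_os _ _ lt.ne).symm) with ⟨rfl, rfl⟩ | ⟨rfl, rfl⟩
        exacts [⟨rfl, rfl⟩, ⟨o_vsymm _ _ _, segment_symm _ _ _⟩]
      rw [k2.1, k2.2, vr_seg, image_image]
      simp only [hL]
      refine ⟨abs_of_pos V0 ▸ O.var u hu u' hu',
        ((O.tp.comp ((TP.clm L).add (TP.const c))).sub (TP.const _)).div_const _, ?_, ?_⟩
      · rintro _ ⟨s, hs, rfl⟩ _ ⟨t, ht, rfl⟩ m
        simp only [hL] at m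
        rw [O.mono.injOn (I hs) (I ht) (sub_left_inj.1 ((div_left_inj' V0.ne').1 m))]
      · have cP := O.tp.continuous
        rw [ContinuousOn.image_Icc_of_monotoneOn (f := fun a => (P j a - P j u) / (P j u' - P j u))
          lt.le (by fun_prop) fun s hs t ht m =>
            div_le_div_of_nonneg_right (sub_le_sub_right (O.mono.monotoneOn (I hs) (I ht) m) _)
              V0.le, sub_self, zero_div, div_self V0.ne']
    · obtain ⟨x, hx⟩ := Kx.cells_ne he.2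
      refine absurd ?_ m
      rw [← k, ← Kx.cell_eq he.2 hx, Kx.cell_eq E.2 (sb (k ▸ hx))]
      exact H.fam.mem j
    · obtain ⟨x, hx⟩ : (uIoo v v').Nonempty := nonempty_uIoo.2 ne
      obtain rfl : j = j' := H.fam.uniq (sb (k ▸ mem_image_of_mem _ hx))
        (o_mem _ _ (Ioo_subset_Icc_self (H.ioo hv hv' hx)))
      simp only [hL]
      rw [← sub_div, sub_sub_sub_cancel_right, abs_div, abs_of_pos V0, mul_div_assoc',
        div_le_iff₀ V0]
      nlinarith [mul_le_mul_of_nonneg_right (t4 m) (abs_nonneg (P j s - P j t))]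
  have c1 : ∀ c ∈ oCh A B C R, openSegment ℝ c.a c.b ≠ σ := by
    rintro _ ⟨j, q, hq, rfl⟩ k
    obtain ⟨k1, k2, k3, -⟩ := (H.one j).ends q hq
    exact h1 ⟨j, _, k1, _, k2, k3, (o_os _ _ k3).symm.trans k⟩
  by_cases h2 : ∃ a b, K.Edge a b ∧ openSegment ℝ a b = σ
  · obtain ⟨a, b, E, rfl⟩ := h2
    have k2 : ∀ {K0 : Kx Ω} {a' b'}, K0.Edge a' b' → openSegment ℝ a' b' = openSegment ℝ a b →
        vr f a' b' = vr f a b ∧ segment ℝ a' b' = segment ℝ a b := by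
      intro K0 a' b' he k
      rcases he.uniq k with ⟨rfl, rfl⟩ | ⟨rfl, rfl⟩
      exacts [⟨rfl, rfl⟩, ⟨o_vsymm _ _ _, segment_symm _ _ _⟩]
    refine ⟨(vr f a b).toReal, θ (openSegment ℝ a b), b0 (openSegment ℝ a b),
      ENNReal.toReal_nonneg, hθ _, fun y hy k => ?_, fun a' b' he k => ?_,
      fun a' b' he k _ => ⟨(k2 he k).1 ▸ rfl, rfl⟩, fun c hc k => absurd k (c1 c hc),
      fun j u hu u' hu' ne k => absurd ⟨j, u, hu, u', hu', ne, k⟩ h1⟩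
    · rw [Kx.cell_eq E.2 (k ▸ K'.mem y hy)]
    · rw [(k2 he k).1, (k2 he k).2, ENNReal.ofReal_toReal (hbv a b E)]
      exact ⟨le_rfl, hb a b E⟩
  obtain ⟨θ', t1, t2⟩ : ∃ θ' : ℝ, 0 < θ' ∧ ∀ y ∈ Ω, K'.cell y = σ → θ' ≤ θ (K.cell y) := by
    by_cases k : ∃ y ∈ Ω, K'.cell y = σ
    · obtain ⟨y, hy, rfl⟩ := k
      exact ⟨_, hθ (K.cell y), fun z hz m => by
        rw [K.eqv y hy z (H.sub.ref y hy (m ▸ K'.mem z hz))]⟩
    · exact ⟨1, one_pos, fun y hy m => absurd ⟨y, hy, m⟩ k⟩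
  refine ⟨0, θ', fun _ => 0, le_rfl, t1, t2, fun a b he k => ?_,
    fun a b he k => absurd ⟨a, b, he, k⟩ h2, fun c hc k => absurd k (c1 c hc),
    fun j u hu u' hu' ne k => absurd ⟨j, u, hu, u', hu', ne, k⟩ h1⟩
  rcases H.sub.split a b he with m | ⟨j, u, hu, u', hu', ne, -, rfl, rfl⟩
  · exact absurd ⟨a, b, m.1, k⟩ h2
  · exact absurd ⟨j, u, hu, u', hu', ne, (o_os _ _ ne).symm.trans k⟩ h1

theorem o_core (H : OAll K K' f Ec A B d ν p C0 R e δ h C U F P φ) (hC : 0 ≤ C0)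
    {G : Rn 3 → Rn 3}
    (h1 : ∀ c ∈ oCh A B C R, ∀ t ∈ Icc (0 : ℝ) 1, G (seg c.a c.b t) = seg (f c.a) (f c.b) t)
    (h2 : ∀ j, ∀ u ∈ U j, ∀ u' ∈ U j, u ≠ u' → Disjoint (uIoo u u') (U j) →
      (∀ c ∈ oCh A B C R, openSegment ℝ c.a c.b ≠ seg (A j) (B j) '' uIoo u u') →
      ∀ s ∈ uIcc u u', ∀ t ∈ uIcc u u',
        ‖G (seg (A j) (B j) s) - G (seg (A j) (B j) t)‖ ≤ (C0 + 1) * |P j s - P j t|)
    (j : J) {t : ℝ} (ht : t ∈ Ioo (0 : ℝ) 1) (hF : t ∉ F j) (hU : t ∉ U j) :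
    LL (fun x => G (seg (A j) (B j) x) - x • d j t) t (φ j t) := by
  have O := H.one j
  by_cases k : ∃ q ∈ C j, t ∈ uIoo q.1 q.2.1
  · obtain ⟨q, hq, k⟩ := k
    have ne : q.2.1 - q.1 ≠ 0 := sub_ne_zero.2 (O.ends q hq).2.2.1.symm
    have e : ∀ x ∈ uIoo q.1 q.2.1, G (seg (A j) (B j) x) = seg (f (seg (A j) (B j) q.1))
        (f (seg (A j) (B j) q.2.1)) ((x - q.1) / (q.2.1 - q.1)) := fun x hx => by
      obtain ⟨y, hy, rfl⟩ : x ∈ (fun y : ℝ => q.1 + y * (q.2.1 - q.1)) '' Icc 0 1 := by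
        have := uIoo_subset_uIcc_self hx
        rwa [← segment_eq_uIcc, segment_eq_image'] at this
      rw [add_sub_cancel_left, mul_div_cancel_right₀ _ ne, ← seg_seg]
      exact h1 ⟨_, _, q.2.2, R⟩ ⟨j, q, hq, rfl⟩ y hy
    refine LL.of_nhds (isOpen_Ioo.mem_nhds k) fun y hy z hz => ?_
    have e2 : G (seg (A j) (B j) y) - y • d j t - (G (seg (A j) (B j) z) - z • d j t) =
        (y - z) • ((q.2.1 - q.1)⁻¹ • (f (seg (A j) (B j) q.2.1) - f (seg (A j) (B j) q.1)) -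
          d j t) := by
      rw [e y hy, e z hz, sub_sub_sub_comm, seg_sub]
      simp only [div_eq_mul_inv]
      module
    rw [e2, norm_smul, mul_comm]
    exact mul_le_mul_of_nonneg_right (O.chord q hq t k) (norm_nonneg _)
  · obtain ⟨v, v1, v2⟩ := O.res t ht hF fun q hq m => k ⟨q, hq, m⟩
    obtain ⟨u, hu, u', hu', k1, k2, k3⟩ := o_consec O.Ufin O.U0 O.U1 (Ioo_subset_Icc_self ht) hU
    have k4 := h2 j u hu u' hu' (k1.trans k2).ne k3 (by
      rintro _ ⟨j', q, hq, rfl⟩ m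
      obtain ⟨m1, m2, m3, -⟩ := (H.one j').ends q hq
      rw [o_os _ _ m3] at m
      obtain ⟨x, hx, m4⟩ := m.symm.subset (mem_image_of_mem _ (mem_uIoo_of_lt k1 k2))
      obtain rfl : j = j' := H.fam.uniq (o_memo _ _ ht)
        (m4 ▸ o_mem _ _ (Ioo_subset_Icc_self (H.ioo m1 m2 hx)))
      exact k ⟨q, hq, o_inj (H.fam.edge j).1 m4 ▸ hx⟩)
    obtain ⟨r, hr, v3⟩ := v1.exists_ball
    refine LL.of_nhds (inter_mem (ball_mem_nhds t hr) (Icc_mem_nhds k1 k2)) fun y hy z hz => ?_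
    have k5 := k4 y (Icc_subset_uIcc hy.2) z (Icc_subset_uIcc hz.2)
    have k6 := mul_le_mul_of_nonneg_left (v3 y hy.1 z hz.1) (show 0 ≤ C0 + 1 by linarith)
    rw [sub_sub_sub_comm, ← sub_smul]
    refine (norm_sub_le _ _).trans ?_
    rw [norm_smul]
    rw [Real.norm_eq_abs (P j y - P j z)] at k6
    nlinarith [mul_le_mul_of_nonneg_right v2 (norm_nonneg (y - z))]

theorem o_tl {G : Rn 3 → Rn 3} {a b : Rn 3} {D : Rn 3 →L[ℝ] Rn 3} {t c s : ℝ} (hab : a ≠ b)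
    (h : LL (fun x => G (seg a b x) - x • D (b - a)) t c) (hc : 0 ≤ c) (hs : |s| = 1) :
    TL G D (s • (b - a)) (seg a b t) (‖b - a‖⁻¹ * c) := by
  have h0 : ‖b - a‖ ≠ 0 := norm_ne_zero_iff.2 (sub_ne_zero.2 hab.symm)
  have h1 : LL (fun x : ℝ => t + x * s) 0 1 := LL.of_forall (fun y z => by
    rw [add_sub_add_left_eq_sub, ← sub_mul, norm_mul, Real.norm_eq_abs s, hs, mul_comm]) 0
  have h2 := (LL.comp (g := fun x => G (seg a b x) - x • D (b - a))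
    (by rwa [zero_mul, add_zero]) h1 hc).add (LL.const (t • D (b - a)) 0)
  rw [TL, norm_smul, Real.norm_eq_abs, hs, one_mul, mul_right_comm, inv_mul_cancel₀ h0, one_mul]
  rw [mul_one, add_zero] at h2
  refine h2.congr (Eventually.of_forall fun x => ?_)
  have e : seg a b t + x • s • (b - a) = seg a b (t + x * s) := by
    unfold seg
    module
  simp only [e, map_smul]
  module

theorem o_meas {μ : Measure (Rn 3)} (hμ : Acm μ) {a b : Rn 3} (hab : a ≠ b)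
    (hf : μ (openSegment ℝ a b) ≠ ⊤) : MeasurableSet (openSegment ℝ a b) ∧
      ∃ μ' : Measure ℝ, IsFiniteMeasure μ' ∧ μ' ≪ volume ∧ (∀ᵐ t ∂μ', t ∈ Ioo (0 : ℝ) 1) ∧
        ∀ Ψ : Rn 3 → ℝ≥0∞, ∫⁻ y in openSegment ℝ a b, Ψ y ∂μ = ∫⁻ t, Ψ (seg a b t) ∂μ' := by
  have me : MeasurableEmbedding (seg a b) := (tp_seg a b).continuous.measurableEmbedding (o_inj hab)
  have m1 : MeasurableSet (openSegment ℝ a b) :=
    seg_image_open a b ▸ me.measurableSet_image.2 measurableSet_Ioo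
  refine ⟨m1, (μ.restrict (openSegment ℝ a b)).comap (seg a b), ⟨?_⟩, fun N hN => ?_, ?_,
    fun Ψ => ?_⟩
  · rw [me.comap_apply, Measure.restrict_apply' m1]
    exact (measure_mono inter_subset_right).trans_lt hf.lt_top
  · rw [me.comap_apply, Measure.restrict_apply' m1]
    exact measure_mono_null inter_subset_left (hμ a b hab N hN)
  · rw [ae_iff, me.comap_apply, Measure.restrict_apply' m1, ← seg_image_open,
      ← image_inter (o_inj hab)]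
    rw [show {t | ¬t ∈ Ioo (0 : ℝ) 1} ∩ Ioo 0 1 = ∅ from compl_inter_self _, image_empty,
      measure_empty]
  · rw [← me.lintegral_map, me.map_comap, Measure.restrict_restrict' m1, inter_eq_right.2]
    rw [← seg_image_open]
    exact image_subset_range _ _

end BEp
end
end

-- merged part: Pool.Agent.Work.MP_f0515e_an.P3.YPc
section
-- merged part: Pool.Agent.Work.MP_f0515e_an.P3.YGen
section
/-! General PL lemmas: embeddings of balls, tangent maps, half balls. -/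

open Set Metric Filter Topology Function BEv MeasureTheory
open scoped NNReal ENNReal

noncomputable section
namespace BEp

variable {n : ℕ}

/-- An embedding of a ball extends to a homeomorphism of the space. -/
theorem emb_lh {B S : Set (Rn 3)} (h : Ball B S) {g : Rn 3 → Rn 3} (hg : TP g) (hi : InjOn g B) :
    ∃ Φ, LH Φ ∧ EqOn Φ g B := by
  obtain ⟨Φ, k, e⟩ := fill_emb h hg (hi.mono h.sub)
  have e1 : Φ '' B = g '' B :=
    Ball.uniq (by norm_num) (h.image k) (e.image_eq ▸ (h.cel.image hg hi).ball3)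
  obtain ⟨Ψ, k', e'⟩ := lh_patch h.poly (k := invFun Φ ∘ g) (k.tpi.comp hg)
    ((pfill_bij' k B).comp (e1 ▸ hi.bijOn_image)) fun x hx => k.inv_eq (e (h.frontier_eq ▸ hx))
  exact ⟨Φ ∘ Ψ, k.comp k'.1, fun x hx => by rw [comp_apply, e' hx, comp_apply, k.ri]⟩

/-- Tangent map of a PL function. -/
theorem hom_ext {f : Rn n → ℝ} (hf : TP f) (v : Rn n) :
    ∃ U, Hom U ∧ ∀ᶠ ξ in 𝓝 (0 : Rn n), f (v + ξ) = f v + U ξ := by
  obtain ⟨U, h1, h2, ρ, hρ, h3⟩ := tp_der1 hf v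
  refine ⟨U, ⟨h1, h2⟩, ?_⟩
  filter_upwards [closedBall_mem_nhds (0 : Rn n) hρ] with ξ hξ
  exact h3 ξ (mem_closedBall_zero_iff.1 hξ)

theorem Hom.gauge {r : Rn n → ℝ} (h : Hom r) (h0 : ∀ ξ, ξ ≠ 0 → 0 < r ξ) : Gauge r := by
  obtain ⟨κ, k0, hκ⟩ := (isCompact_sphere (0 : Rn n) 1).exists_forall_le'
    h.1.continuous.continuousOn (a := 0) fun ξ hξ => h0 ξ (ne_zero_of_mem_unit_sphere ⟨ξ, hξ⟩)
  refine ⟨h.1, h.2, κ, k0, fun ξ => ?_⟩
  rcases eq_or_ne ξ 0 with rfl | hξ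
  · have := h.2 0 0 le_rfl
    rw [zero_smul, zero_mul] at this
    rw [this, norm_zero, mul_zero]
  · have n0 := norm_pos_iff.2 hξ
    have := hκ (‖ξ‖⁻¹ • ξ) (mem_sphere_zero_iff_norm.2 (norm_smul_inv_norm hξ))
    rwa [h.2 _ _ (inv_pos.2 n0).le, inv_mul_eq_div, le_div_iff₀ n0] at this

theorem YGen_map {r : Rn n → ℝ} (hr : Gauge r) {L : Set ((Rn n →L[ℝ] ℝ) × ℝ)} (hL : L.Finite)
    (hc : ∀ A ∈ L, A.2 = 0) (hn : ∀ x, x ≠ 0 → ∃ A ∈ L, ev A x ≠ 0)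
    (ha : ∀ w, ∀ x ∈ cface L w, ∀ y ∈ cface L w, r (x + y) = r x + r y ∧ ‖x + y‖ = ‖x‖ + ‖y‖) :
    ∃ g : Rn n → Rn n, TP g ∧ BijOn g {x | r x = 1} {x | ‖x‖ = 1} ∧ ∀ x, g x ∈ face L x := by
  have key : ∀ k, PGauG L r {x | fdim L x < k} := fun k => by
    induction k with
    | zero => exact ⟨id, TP.id', fun x hx => absurd hx (Nat.not_lt_zero _)⟩
    | succ k ih =>
      obtain ⟨W, h1, h2, h3⟩ := exists_subset_image_finite_and.1
        ⟨_, subset_rfl, (finite_faces hL).subset (image_subset_range _ {x | fdim L x = k}),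
          (rfl : (fun T => T = face L '' {x | fdim L x = k}) _)⟩
      obtain ⟨g, tg, hg⟩ : PGauG L r (W ∪ {x | fdim L x < k}) := by
        refine Finite.induction_on_subset (motive := fun T _ => PGauG L r (T ∪ {x | fdim L x < k}))
          W h2 (by simpa using ih) fun {w T} hw hT _ hG => ?_
        have e : fdim L w = k := h1 hw
        rw [insert_union]
        exact pgau_step hr hL hc hn (ha w) hG (fun y hy => Or.inr (e ▸ hy)) fun x hx =>
          e ▸ hx.elim (fun m => le_of_eq (h1 (hT m))) fun m => le_of_lt m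
      refine ⟨g, tg, fun x hx => (Nat.lt_succ_iff_lt_or_eq.1 hx).elim (fun m => hg x (Or.inr m))
        fun m => ?_⟩
      obtain ⟨w, hw, e⟩ : face L x ∈ face L '' W := h3 ▸ mem_image_of_mem _ m
      exact e ▸ hg w (Or.inl hw)
  obtain ⟨g, tg, hg⟩ := key (n + 1)
  replace hg := fun x => hg x (Nat.lt_succ_of_le ((Submodule.finrank_le _).trans (by simp)))
  have v : ∀ x, g x ∈ face L x := fun x => (hg x).1.mapsTo (mem_face_self L x)
  have u : ∀ x, ‖g x‖ = r x := fun x => (hg x).2 x (mem_face_self L x)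
  refine ⟨g, tg, ⟨fun x hx => (u x).trans hx, fun x _ y _ e => (hg x).1.injOn (mem_face_self L x) (by
    rw [← face_eq (v x), e, face_eq (v y)]
    exact mem_face_self L y) e, fun z hz => ?_⟩, v⟩
  obtain ⟨y, -, rfl⟩ := (hg z).1.surjOn (mem_face_self L z)
  exact ⟨y, (u y).symm.trans hz, rfl⟩

/-- A gauge is the norm in a chart which keeps the signs of the coordinates. -/
theorem gauge_sign {r : Rn n → ℝ} (hr : Gauge r) : ∃ Φ : Rn n → Rn n, LH Φ ∧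
    (∀ x, ‖Φ x‖ = r x) ∧ ∀ x i, (0 ≤ Φ x i ↔ 0 ≤ x i) ∧ (Φ x i = 0 ↔ x i = 0) := by
  obtain ⟨L, hL, hc, hn, ha⟩ := central_arr hr
  obtain ⟨g, tg, hg, v⟩ := YGen_map hr (L := L ∪ range fun j : Fin n =>
      (ContinuousLinearMap.proj (R := ℝ) (φ := fun _ => ℝ) j, (0 : ℝ))) (hL.union (finite_range _))
    (fun A hA => hA.elim (hc A) fun ⟨j, e⟩ => e ▸ rfl)
    (fun x hx => (hn x hx).imp fun A k => ⟨Or.inl k.1, k.2⟩)
    fun w x hx y hy => ha w x (fun A k => hx A (Or.inl k)) y fun A k => hy A (Or.inl k)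
  obtain ⟨Φ, h, e, e'⟩ := fill_cone hr gauge_norm tg hg
  refine ⟨Φ, h, e, fun x i => ?_⟩
  have s : SignType.sign (Φ x i) = SignType.sign (x i) := by
    rcases pfill_polar hr x with rfl | ⟨u, hu, t, ht, rfl⟩
    · rw [norm_eq_zero.1 ((e 0).trans (pfill_r0 hr))]
    · have := v u _ (Or.inr ⟨i, rfl⟩)
      simp only [ev, ContinuousLinearMap.proj_apply, add_zero] at this
      rw [e' u hu t ht.le, Pi.smul_apply, Pi.smul_apply, smul_eq_mul, smul_eq_mul, sign_mul,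
        sign_mul, this]
  exact ⟨by rw [← sign_nonneg_iff, s, sign_nonneg_iff],
    by rw [← sign_eq_zero_iff, s, sign_eq_zero_iff]⟩

theorem lh_shear {h : Rn n → ℝ} (hh : TP h) {w : Rn n} (hw : ∀ x (s : ℝ), h (x + s • w) = h x) :
    LH fun x => x + h x • w := by
  refine pa2_of_inv (g := fun x => x + (-h x) • w) (TP.id'.add (hh.smul_const w))
    (TP.id'.add (hh.neg.smul_const w)) (fun x => ?_) fun x => ?_
  · simp only [hw, neg_smul, add_neg_cancel_right]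
  · simp only [hw]
    rw [neg_smul, neg_add_cancel_right]

theorem exists_frame {w : Rn n} (hw : w ≠ 0) (i : Fin n) :
    ∃ Λ : Rn n ≃L[ℝ] Rn n, Λ (Pi.single i 1) = w := by
  exact SeparatingDual.exists_continuousLinearEquiv_apply_eq (by simp) hw

theorem YGen_half (i : Fin n) :
    Ball {x : Rn n | ‖x‖ ≤ 1 ∧ 0 ≤ x i} {x | ‖x‖ ≤ 1 ∧ 0 ≤ x i ∧ (‖x‖ = 1 ∨ x i = 0)} := by
  have b := ball_box (a := update (fun _ => -1) i 0) (b := fun _ => 1) fun j => by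
    by_cases e : j = i <;> simp [e]
  have e1 : ∀ x : Rn n, x ∈ Icc (update (fun _ => -1) i 0) (fun _ => (1 : ℝ)) ↔
      ‖x‖ ≤ 1 ∧ 0 ≤ x i := fun x => by
    rw [mem_Icc, update_le_iff, pi_norm_le_iff_of_nonneg zero_le_one]
    simp only [Real.norm_eq_abs, abs_le]
    refine ⟨fun h => ⟨fun j => ⟨?_, h.2 j⟩, h.1.1⟩,
      fun h => ⟨⟨h.2, fun j _ => (h.1 j).1⟩, fun j => (h.1 j).2⟩⟩
    by_cases e : j = i
    · rw [e]
      linarith [h.1.1]
    · exact h.1.2 j e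
  have e2 : {x ∈ Icc (update (fun _ => -1) i 0) (fun _ => (1 : ℝ)) |
      ∃ j, x j = update (fun _ => (-1 : ℝ)) i 0 j ∨ x j = 1} =
      {x : Rn n | ‖x‖ ≤ 1 ∧ 0 ≤ x i ∧ (‖x‖ = 1 ∨ x i = 0)} := by
    ext x
    rw [mem_ofPred_eq, e1, mem_ofPred_eq, and_assoc]
    refine and_congr_right fun h1 => and_congr_right fun h2 => ⟨?_, ?_⟩
    · rintro ⟨j, k | k⟩
      · by_cases e : j = i
        · exact Or.inr (by simpa [e] using k)
        · rw [update_of_ne e] at k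
          exact Or.inl (h1.antisymm (by simpa [k] using norm_le_pi_norm x j))
      · exact Or.inl (h1.antisymm (by simpa [k] using norm_le_pi_norm x j))
    · rintro (k | k)
      · obtain ⟨j, hj⟩ : ∃ j, ¬ ‖x j‖ < 1 :=
          not_forall.1 fun q => ((pi_norm_lt_iff zero_lt_one).2 q).ne k
        rcases (abs_eq zero_le_one).1 (((norm_le_pi_norm x j).trans h1).antisymm (not_lt.1 hj))
          with q | q
        · exact ⟨j, Or.inr q⟩
        · exact ⟨j, Or.inl (by rwa [update_of_ne fun e => by rw [e] at q; linarith])⟩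
      · exact ⟨i, Or.inl (by rwa [update_self])⟩
  rwa [e2, Set.ext e1] at b

/-- The part of a gauge ball above a conical graph is a ball. -/
theorem gauge_half {r μ : Rn n → ℝ} {e : Rn n} (hr : Gauge r) (hμ : YGr μ e) :
    Ball {ξ | r ξ ≤ 1 ∧ 0 ≤ μ ξ} {ξ | r ξ ≤ 1 ∧ 0 ≤ μ ξ ∧ (r ξ = 1 ∨ μ ξ = 0)} := by
  have e0 : e ≠ 0 := fun k => by
    have := hμ.2 0 1
    rw [k, smul_zero, add_zero] at this
    linarith
  obtain ⟨i, -⟩ := Function.ne_iff.1 e0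
  obtain ⟨Λ, hΛ⟩ := exists_frame e0 i
  have tΛ : TP Λ := TP.clm (Λ : Rn n →L[ℝ] Rn n)
  have tΛ' : TP Λ.symm := TP.clm (Λ.symm : Rn n →L[ℝ] Rn n)
  have k := (lh_shear (h := fun y => Λ.symm y i - μ y) ((tΛ'.apply i).sub hμ.1.1) (w := e)
    fun x s => by
      rw [hμ.2, map_add, map_smul, ← hΛ, Λ.symm_apply_apply]
      simp).comp (pa2_of_inv tΛ tΛ' Λ.symm_apply_apply Λ.apply_symm_apply)
  obtain ⟨Ψ, hΨ⟩ : ∃ Ψ : Rn n → Rn n, Ψ = (fun x => x + (Λ.symm x i - μ x) • e) ∘ Λ := ⟨_, rfl⟩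
  rw [← hΨ] at k
  have a1 : ∀ x, μ (Ψ x) = x i := fun x => by
    rw [hΨ, comp_apply, hμ.2, Λ.symm_apply_apply, add_sub_cancel]
  have a2 : ∀ x (t : ℝ), 0 ≤ t → Ψ (t • x) = t • Ψ x := fun x t ht => by
    simp only [hΨ, comp_apply, map_smul, hμ.1.2 _ t ht, Pi.smul_apply, smul_eq_mul, smul_add,
      smul_smul, mul_sub]
  have a3 : Ψ 0 = 0 := by simpa using a2 0 0 le_rfl
  obtain ⟨Φ, h, f1, f2⟩ := gauge_sign (Hom.gauge (r := fun x => r (Ψ x))
    ⟨hr.tp.comp k.tp, fun ξ s hs => by simp only [a2 ξ s hs, hr.hom _ s hs]⟩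
    fun ξ hξ => (plc_nonneg hr _).lt_of_ne' fun q => hξ (k.inj ((plc_zero hr q).trans a3.symm)))
  have b := (YGen_half i).image (k.comp h.inv)
  rwa [PMod1_img (k.comp h.inv) (B := {ξ | r ξ ≤ 1 ∧ 0 ≤ μ ξ}), PMod1_img (k.comp h.inv)
    (B := {ξ | r ξ ≤ 1 ∧ 0 ≤ μ ξ ∧ (r ξ = 1 ∨ μ ξ = 0)})] at b <;> intro x <;>
    obtain ⟨z, rfl⟩ := h.1.2 x <;>
    simp only [mem_ofPred_eq, comp_apply, h.li, a1, f1, f2]

theorem side_univ : Side univ := by
  exact ⟨isClosed_univ, fun _ _ => Or.inl univ_mem⟩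

theorem side_empty : Side ∅ := by
  exact ⟨isClosed_empty, fun _ h => h.elim⟩

end BEp
end
end

-- merged part: Pool.Agent.Work.MP_f0515e_an.P3.YPc1
section
/-! Geometry of the pieces: lattice classes. -/

open Set Metric Filter Topology Function BEv MeasureTheory
open scoped NNReal ENNReal

noncomputable section
namespace BEp

namespace Pc
variable {P : Pc} {x x' x'' : Rn 3}

theorem l_pos (P : Pc) : 0 < P.l := by
  unfold l; positivity

theorem l_le (P : Pc) : P.l ≤ 1 := by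
  unfold l
  rw [div_le_one (by positivity)]
  exact one_le_pow₀ (by norm_num)

theorem inv_aff (P : Pc) (x : Rn 3) : P.inv (P.aff x) = x := by
  simp [inv, aff]

theorem aff_inv (P : Pc) (y : Rn 3) : P.aff (P.inv y) = y := by
  simp [inv, aff]

theorem lat_iff : P.Lat x x' ↔ ∀ i, kbS ((x i - P.c i) / P.l) ((x' i - P.c i) / P.l) := by
  refine forall_congr' fun i => ?_
  rw [kbS_iff]
  refine forall_congr' fun m => ?_
  simp only [le_div_iff₀ P.l_pos, div_le_iff₀ P.l_pos]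
  tauto

theorem yp_eq (k : P.Lat x x') (i : Fin 3) (m : ℤ) (h : x i - P.c i = m * P.l) :
    x' i - P.c i = m * P.l :=
  le_antisymm ((k i m).1.1 h.le) ((k i m).2.1 h.ge)

theorem yp_abs (k : P.Lat x x') (i : Fin 3) (m : ℤ) (h : |x i - P.c i| = m * P.l) :
    x' i = x i := by
  rcases abs_cases (x i - P.c i) with e | e
  · have := yp_eq k i m (by linarith)
    linarith
  · have := yp_eq k i (-m) (by push_cast; linarith)
    push_cast at this
    linarith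

theorem yp_off (k : P.Lat x x') {ρ : ℝ} (hx : x ∈ P.Q ρ) {i : Fin 3} (hi : i ∉ P.I) :
    x' i = x i :=
  yp_abs k i 0 (by simp [hx.1 i hi])

theorem yp_Q (k : P.Lat x x') (m : ℤ) (hx : x ∈ P.Q (m * P.l)) : x' ∈ P.Q (m * P.l) := by
  refine ⟨fun i hi => (yp_off k hx hi).trans (hx.1 i hi), fun i hi => ?_⟩
  have h := abs_le.1 (hx.2 i hi)
  have h1 := (k i (-m)).2.1 (by push_cast; linarith)
  push_cast at h1
  exact abs_le.2 ⟨by linarith, (k i m).1.1 h.2⟩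

theorem Ok.yp_rho (h : P.Ok) : ∃ m : ℤ, 0 < m ∧ P.ρ = m * P.l := by
  obtain ⟨k, hk, e⟩ := h.rho
  exact ⟨k, by exact_mod_cast hk, by exact_mod_cast e⟩

theorem Ok.yp_pos (h : P.Ok) : 0 < P.ρ := by
  obtain ⟨k, hk, e⟩ := h.yp_rho
  rw [e]
  exact mul_pos (by exact_mod_cast hk) P.l_pos

theorem Ok.yp_rhox (h : P.Ok) : ∃ m : ℤ, P.ρx = m * P.l := by
  obtain ⟨k, -, e⟩ := h.yp_rho
  unfold ρx
  split_ifs
  · exact ⟨k + 1, by push_cast; rw [e]; ring⟩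
  · exact ⟨k, e⟩

theorem Ok.yp_bd (h : P.Ok) (k : P.Lat x x') {i : Fin 3} (hi : |x i - P.c i| = P.ρ) :
    x' i = x i := by
  obtain ⟨m, -, e⟩ := h.yp_rho
  exact yp_abs k i m (hi.trans e)

theorem Ok.lat_Bx (h : P.Ok) (hx : x ∈ P.Bx) (k : P.Lat x x') : x' ∈ P.Bx := by
  obtain ⟨m, e⟩ := h.yp_rhox
  refine ⟨?_, fun h3 => ?_⟩
  · have := hx.1
    rw [e] at this ⊢
    exact yp_Q k m this
  · obtain ⟨i, hi⟩ := hx.2 h3
    exact ⟨i, by rw [h.yp_bd k hi]; exact hi⟩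

theorem Ok.lat_Bd (h : P.Ok) (hx : x ∈ P.Bd) (k : P.Lat x x') : x' ∈ P.Bd := by
  obtain ⟨m, -, e⟩ := h.yp_rho
  refine ⟨?_, fun h3 => ?_⟩
  · have := hx.1
    rw [e] at this ⊢
    exact yp_Q k m this
  · obtain ⟨i, hi⟩ := hx.2 h3
    exact ⟨i, by rw [h.yp_bd k hi]; exact hi⟩

theorem yp_le (P : Pc) : P.ρ ≤ P.ρx := by
  have := P.l_pos
  unfold ρx
  split_ifs <;> linarith

theorem Bd_sub (P : Pc) : P.Bd ⊆ P.Bx := fun _ hx =>
  ⟨⟨hx.1.1, fun i hi => (hx.1.2 i hi).trans P.yp_le⟩, hx.2⟩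

theorem Ok.Bx_ne (h : P.Ok) : P.Bx.Nonempty := by
  obtain ⟨j, hj⟩ := h.ne
  have h0 := h.yp_pos
  refine ⟨fun i => if i ∈ P.I then P.c i + P.ρ else P.c i, P.Bd_sub ⟨⟨fun i hi => if_neg hi,
    fun i hi => ?_⟩, fun _ => ⟨j, ?_⟩⟩⟩
  · simp [hi, abs_of_pos h0]
  · simp [hj, abs_of_pos h0]

theorem yp_cont (P : Pc) : Continuous P.aff := by
  unfold aff
  fun_prop

theorem yp_conti (P : Pc) : Continuous P.inv := by
  unfold inv
  fun_prop

theorem yp_cQ (P : Pc) (ρ : ℝ) : IsCompact (P.Q ρ) := by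
  refine (isCompact_closedBall P.c |ρ|).of_isClosed_subset ?_ fun x hx => ?_
  · simp only [Q, ofPred_and, ofPred_forall]
    exact (isClosed_iInter fun i => isClosed_iInter fun _ =>
      isClosed_eq (by fun_prop) (by fun_prop)).inter
      (isClosed_iInter fun i => isClosed_iInter fun _ => isClosed_le (by fun_prop) (by fun_prop))
  · rw [mem_closedBall, dist_pi_le_iff (abs_nonneg _)]
    intro i
    rw [Real.dist_eq]
    by_cases hi : i ∈ P.I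
    · exact (hx.2 i hi).trans (le_abs_self _)
    · simp [hx.1 i hi]

theorem yp_cB (P : Pc) (ρ : ℝ) :
    IsCompact {x | x ∈ P.Q ρ ∧ (P.I.card = 3 → ∃ i, |x i - P.c i| = P.ρ)} := by
  refine (P.yp_cQ ρ).inter_right (t := {x | P.I.card = 3 → ∃ i, |x i - P.c i| = P.ρ}) ?_
  simp only [ofPred_forall, ofPred_exists]
  exact isClosed_iInter fun _ => isClosed_iUnion_of_finite fun i =>
    isClosed_eq (by fun_prop) (by fun_prop)

theorem cpt_Q (P : Pc) (ρ : ℝ) : IsCompact (P.aff '' P.Q ρ) :=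
  (P.yp_cQ ρ).image P.yp_cont

theorem cpt_Bx (P : Pc) : IsCompact (P.aff '' P.Bx) :=
  (P.yp_cB P.ρx).image P.yp_cont

theorem cpt_Bd (P : Pc) : IsCompact (P.aff '' P.Bd) :=
  (P.yp_cB P.ρ).image P.yp_cont

theorem cpt_Nr (P : Pc) (a : ℝ) : IsCompact {y | P.Nr a y} := by
  have e : {y | P.Nr a y} = (fun q : Rn 3 × Rn 3 => q.1 + q.2) ''
      ((P.aff '' P.Bx) ×ˢ closedBall 0 a) := by
    ext y
    constructor
    · rintro ⟨x, hx, h⟩
      exact ⟨(P.aff x, y - P.aff x), ⟨mem_image_of_mem _ hx, mem_closedBall_zero_iff.2 h⟩,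
        by simp⟩
    · rintro ⟨⟨_, z⟩, ⟨⟨x, hx, rfl⟩, h⟩, rfl⟩
      exact ⟨x, hx, by simpa using h⟩
  rw [e]
  exact (P.cpt_Bx.prod (isCompact_closedBall 0 a)).image (by fun_prop)

theorem yp_dm (J : Finset (Fin 3)) {σ : Set (Rn 3)} (h : ∀ y ∈ σ, ∀ i, i ∉ J → P.inv y i = x i) :
    dm σ ≤ J.card := by
  classical
  have k : vectorSpan ℝ σ ≤ Submodule.span ℝ
      ((J.image fun i => P.A (Pi.single i 1) : Finset (Rn 3)) : Set (Rn 3)) := by
    rw [vectorSpan_def, Submodule.span_le]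
    rintro _ ⟨y, hy, y', hy', rfl⟩
    have e : P.inv y - P.inv y' = ∑ i ∈ J, (P.inv y i - P.inv y' i) • (Pi.single i 1 : Rn 3) := by
      ext j
      simp only [Finset.sum_apply, Pi.smul_apply, Pi.single_apply, smul_eq_mul, mul_ite, mul_one,
        mul_zero, Finset.sum_ite_eq, Pi.sub_apply]
      split_ifs with hj
      · rfl
      · rw [h y hy j hj, h y' hy' j hj, sub_self]
    have e' : y -ᵥ y' = P.A (P.inv y - P.inv y') := by
      simp [inv]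
    show y -ᵥ y' ∈ Submodule.span ℝ _
    rw [e', e, map_sum]
    refine Submodule.sum_mem _ fun i hi => ?_
    rw [map_smul]
    exact Submodule.smul_mem _ _ (Submodule.subset_span
      (Finset.mem_coe.2 (Finset.mem_image_of_mem _ hi)))
  exact (Submodule.finrank_mono k).trans ((finrank_span_finset_le_card _).trans
    Finset.card_image_le)

/-- The lattice class of a point of the barrier has empty interior. -/
theorem Ok.thin (h : P.Ok) (hx : x ∈ P.Bx) {σ : Set (Rn 3)}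
    (hσ : ∀ y ∈ σ, P.Lat x (P.inv y)) : dm σ ≤ min P.I.card 2 := by
  have h1 : dm σ ≤ P.I.card := yp_dm P.I fun y hy i hi => yp_off (hσ y hy) hx.1 hi
  refine le_min h1 ?_
  by_cases h3 : P.I.card = 3
  · obtain ⟨i, hi⟩ := hx.2 h3
    have := yp_dm (P := P) (x := x) (σ := σ) (Finset.univ.erase i) fun y hy j hj => by
      obtain rfl : j = i := by simpa using hj
      exact h.yp_bd (hσ y hy) hi
    simpa using this
  · have := P.I.card_le_univ
    simp only [Fintype.card_fin] at this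
    omega

/-- Two points in the closure of a lattice class are within `l` in each coordinate. -/
theorem lat_near {σ : Set (Rn 3)} (hσ : ∀ y ∈ σ, P.Lat x (P.inv y)) {y y' : Rn 3}
    (hy : y ∈ closure σ) (hy' : y' ∈ closure σ) (i : Fin 3) : |P.inv y i - P.inv y' i| ≤ P.l := by
  have hl := P.l_pos
  have hc := P.yp_conti
  set m := ⌊(x i - P.c i) / P.l⌋
  have k : closure σ ⊆ (fun z => P.inv z i - P.c i) ⁻¹' Icc (m * P.l) ((m + 1 : ℤ) * P.l) := by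
    refine closure_minimal (fun z hz => ⟨(hσ z hz i m).2.1 ?_, (hσ z hz i (m + 1)).1.1 ?_⟩)
      (isClosed_Icc.preimage (by fun_prop))
    · exact (le_div_iff₀ hl).1 (Int.floor_le _)
    · push_cast
      exact (div_le_iff₀ hl).1 (Int.lt_floor_add_one _).le
  obtain ⟨h1, h2⟩ := k hy
  obtain ⟨h3, h4⟩ := k hy'
  push_cast at h2 h4
  exact abs_le.2 ⟨by linarith, by linarith⟩

/-- A connected set off the boundary of a solid is inside or outside. -/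
theorem Ok.in_out (h : P.Ok) (h3 : P.I.card = 3) {σ : Set (Rn 3)} (hσ : IsPreconnected σ)
    (hd : Disjoint σ (P.aff '' P.Bx)) :
    σ ⊆ P.aff '' P.Q P.ρ ∨ Disjoint (closure σ) (P.aff '' P.In) := by
  have _ := h.ne
  have hI : ∀ i, i ∈ P.I := fun i => by
    rw [Finset.eq_univ_of_card P.I (by simpa using h3)]
    exact Finset.mem_univ i
  have hc := P.yp_conti
  have hU : IsOpen {y | ∀ i, |P.inv y i - P.c i| < P.ρ} := by
    simp only [ofPred_forall]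
    exact isOpen_iInter_of_finite fun i => isOpen_lt (by fun_prop) (by fun_prop)
  have hW : IsOpen {y | ∃ i, P.ρ < |P.inv y i - P.c i|} := by
    simp only [ofPred_exists]
    exact isOpen_iUnion fun i => isOpen_lt (by fun_prop) (by fun_prop)
  have hdis : Disjoint {y | ∀ i, |P.inv y i - P.c i| < P.ρ} {y | ∃ i, P.ρ < |P.inv y i - P.c i|} :=
    Set.disjoint_left.2 fun y h1 ⟨i, h2⟩ => lt_asymm (h1 i) h2
  refine (hσ.subset_or_subset hU hW hdis fun y hy => ?_).imp (fun k y hy => ?_) fun k => ?_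
  · by_contra hn
    simp only [mem_union, mem_ofPred_eq, not_or, not_forall, not_lt, not_exists] at hn
    obtain ⟨⟨i, h1⟩, h2⟩ := hn
    exact Set.disjoint_left.1 hd hy ⟨P.inv y, P.Bd_sub ⟨⟨fun j hj => absurd (hI j) hj,
      fun j _ => h2 j⟩, fun _ => ⟨i, le_antisymm (h2 i) h1⟩⟩, P.aff_inv y⟩
  · exact ⟨P.inv y, ⟨fun j hj => absurd (hI j) hj, fun j _ => (k hy j).le⟩, P.aff_inv y⟩
  · refine Set.disjoint_of_subset_right ?_ ((hdis.symm.mono_left k).closure_left hU)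
    rintro _ ⟨z, hz, rfl⟩ i
    rw [P.inv_aff]
    exact lt_of_le_of_ne (hz.1.2 i (hI i)) fun e => hz.2 ⟨hz.1, fun _ => ⟨i, e⟩⟩

end Pc

end BEp
end
end

-- merged part: Pool.Agent.Work.MP_f0515e_an.P3.YPc2
section
/-! Sides of plates and solids; lattice classes as faces of an arrangement. -/

open Set Metric Filter Topology Function BEv MeasureTheory
open scoped NNReal ENNReal

noncomputable section
namespace BEp

theorem yp2_sign (a b t : ℝ) : SignType.sign (a - t) = SignType.sign (b - t) ↔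
    (b ≤ t ↔ a ≤ t) ∧ (t ≤ b ↔ t ≤ a) := by
  constructor
  · intro h
    exact ⟨by rw [← sub_nonpos, ← sign_nonpos_iff, ← h, sign_nonpos_iff, sub_nonpos],
      by rw [← sub_nonneg, ← sign_nonneg_iff, ← h, sign_nonneg_iff, sub_nonneg]⟩
  · rintro ⟨h1, h2⟩
    rcases lt_trichotomy a t with k | k | k
    · rw [sign_neg (sub_neg.2 k), sign_neg (sub_neg.2 (not_le.1 fun q => k.not_ge (h2.1 q)))]
    · rw [k, (h1.2 k.le).antisymm (h2.2 k.ge)]
    · rw [sign_pos (sub_pos.2 k), sign_pos (sub_pos.2 (not_le.1 fun q => k.not_ge (h1.1 q)))]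

theorem yp2_neg {μ : Rn 3 → ℝ} {e : Rn 3} (h : YGr μ e) : YGr (fun ξ => -μ ξ) (-e) :=
  ⟨⟨h.1.1.neg, fun ξ s hs => by simp only [h.1.2 ξ s hs, mul_neg]⟩, fun ξ s => by
    simp only [smul_neg, ← neg_smul, h.2]
    ring⟩

theorem yp2_lin (w : Rn 3 →L[ℝ] ℝ) {e : Rn 3} (h : w e = 1) : YGr w e :=
  ⟨⟨TP.clm w, fun ξ s _ => by rw [map_smul, smul_eq_mul]⟩, fun ξ s => by
    rw [map_add, map_smul, h, smul_eq_mul, mul_one]⟩

theorem yp2_max (w : Fin 3 → Rn 3 →L[ℝ] ℝ) {e : Rn 3} (h : ∀ j, w j e = 1) :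
    ∃ μ, YGr μ e ∧ ∀ ξ, (0 ≤ μ ξ ↔ ∃ j, 0 ≤ w j ξ) ∧ (0 ≤ -μ ξ ↔ ∀ j, w j ξ ≤ 0) := by
  refine ⟨fun ξ => max (w 0 ξ) (max (w 1 ξ) (w 2 ξ)),
    ⟨⟨(TP.clm _).max ((TP.clm _).max (TP.clm _)), fun ξ s hs => ?_⟩, fun ξ s => ?_⟩,
    fun ξ => ⟨?_, ?_⟩⟩
  · simp only [map_smul, smul_eq_mul, mul_max_of_nonneg _ _ hs]
  · simp only [map_add, map_smul, h, smul_eq_mul, mul_one, max_add_add_right]
  · simp [Fin.exists_fin_succ]
  · rw [neg_nonneg]
    simp [Fin.forall_fin_succ]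

theorem yp2_one {X Y : Set (Rn 3)} (cX : IsClosed X) (cY : IsClosed Y) (cov : ∀ y, y ∈ X ∨ y ∈ Y)
    (gr : ∀ y ∈ X, y ∈ Y → ∃ μ e, YGr μ e ∧ ∀ᶠ ξ in 𝓝 (0 : Rn 3), (y + ξ ∈ X ↔ 0 ≤ μ ξ)) :
    Side X ∧ Disjoint (interior X) Y := by
  refine ⟨⟨cX, fun y hy => ?_⟩, Set.disjoint_left.2 fun y h1 h2 => ?_⟩
  · by_cases k : y ∈ Y
    · exact Or.inr (gr y hy k)
    · exact Or.inl (mem_of_superset (cY.isOpen_compl.mem_nhds k) fun z hz =>
        (cov z).resolve_right hz)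
  · obtain ⟨μ, e, g1, g2⟩ := gr y (interior_subset h1) h2
    have a : ∀ᶠ ξ in 𝓝 (0 : Rn 3), y + ξ ∈ X :=
      (Continuous.tendsto' (f := fun ξ => y + ξ) (by fun_prop) 0 y (add_zero y)).eventually
        (mem_interior_iff_mem_nhds.1 h1)
    have t : Tendsto (fun s : ℝ => (0 : Rn 3) + s • e) (𝓝[<] 0) (𝓝 0) :=
      (Continuous.tendsto' (by fun_prop) 0 0 (by simp)).mono_left nhdsWithin_le_nhds
    obtain ⟨s, ⟨s1, s2⟩, s3⟩ := ((t.eventually (a.and g2)).and self_mem_nhdsWithin).exists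
    have z := g1.1.2 0 0 le_rfl
    have := s2.1 s1
    rw [zero_smul, zero_mul] at z
    rw [g1.2, z, zero_add] at this
    exact this.not_gt s3

namespace Pc
variable {P : Pc}

theorem yp2_l (P : Pc) : 0 < P.l := by
  rw [l]
  positivity

theorem yp2_u (P : Pc) (y : Rn 3) (i : Fin 3) : P.inv y i - P.c i = P.A.symm (y - P.y) i := by
  rw [inv, Pi.add_apply, add_sub_cancel_right]

theorem yp2_add (P : Pc) (y ξ : Rn 3) (i : Fin 3) :
    P.inv (y + ξ) i - P.c i = P.inv y i - P.c i + P.A.symm ξ i := by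
  rw [yp2_u, yp2_u, add_sub_right_comm, map_add, Pi.add_apply]

theorem yp2_cont (P : Pc) (i : Fin 3) : Continuous fun y => P.inv y i - P.c i := by
  simp only [yp2_u]
  fun_prop

theorem yp2_ia (P : Pc) (x : Rn 3) : P.inv (P.aff x) = x := by
  simp [inv, aff]

theorem yp2_mem {X : Set (Rn 3)} {y : Rn 3} (h : P.inv y ∈ X) : y ∈ P.aff '' X :=
  ⟨_, h, by simp [inv, aff]⟩

theorem yp2_lat {x x' : Rn 3} (h : P.Lat x x') {ρ : ℝ} {k : ℤ} (e : ρ = k * P.l) (i : Fin 3) :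
    (|x i - P.c i| ≤ ρ ↔ |x' i - P.c i| ≤ ρ) ∧ (ρ ≤ |x i - P.c i| ↔ ρ ≤ |x' i - P.c i|) := by
  have h1 := h i k
  have h2 := h i (-k)
  rw [Int.cast_neg, neg_mul] at h2
  rw [← e] at h1 h2
  rw [abs_le, abs_le, le_abs', le_abs', h1.1, h1.2, h2.1, h2.2]
  exact ⟨Iff.rfl, Iff.rfl⟩

theorem yp2_face (P : Pc) (R : ℝ) : ∃ L : Set ((Rn 3 →L[ℝ] ℝ) × ℝ), L.Finite ∧
    ∀ x y, ‖x‖ ≤ R → ‖y‖ ≤ R → (y ∈ face L x ↔ P.Lat (P.inv x) (P.inv y)) := by
  obtain ⟨B, hB⟩ := (isCompact_closedBall (0 : Rn 3) R).exists_bound_of_continuousOn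
    (f := fun y => P.A.symm (y - P.y)) (by fun_prop)
  obtain ⟨K, hK⟩ := exists_int_gt (B / P.l)
  have l0 := P.yp2_l
  rw [div_lt_iff₀ l0] at hK
  have bd : ∀ x, ‖x‖ ≤ R → ∀ i, |P.inv x i - P.c i| < K * P.l := fun x hx i => by
    rw [yp2_u]
    exact ((norm_le_pi_norm _ i).trans (hB x (mem_closedBall_zero_iff.2 hx))).trans_lt hK
  obtain ⟨F, hF⟩ : ∃ F : Fin 3 × ℤ → (Rn 3 →L[ℝ] ℝ) × ℝ, ∀ q y,
      ev (F q) y = P.inv y q.1 - P.c q.1 - q.2 * P.l :=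
    ⟨fun q => ((ContinuousLinearMap.proj q.1).comp (P.A.symm : Rn 3 →L[ℝ] Rn 3),
      -P.A.symm P.y q.1 - q.2 * P.l), fun q y => by
        rw [yp2_u, map_sub]
        simp only [ev, ContinuousLinearMap.comp_apply, ContinuousLinearMap.proj_apply,
          ContinuousLinearEquiv.coe_coe, Pi.sub_apply]
        ring⟩
  refine ⟨F '' univ ×ˢ Icc (-K) K, (finite_univ.prod (finite_Icc _ _)).image _,
    fun x y hx hy => ⟨fun h i k => ?_, ?_⟩⟩
  · have a := abs_lt.1 (bd x hx i)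
    have b := abs_lt.1 (bd y hy i)
    by_cases q : k ∈ Icc (-K) K
    · have := h _ ⟨(i, k), ⟨mem_univ _, q⟩, rfl⟩
      rwa [hF, hF, yp2_sign] at this
    · rcases not_and_or.1 q with q | q
      · have : (k : ℝ) * P.l ≤ -K * P.l := by
          gcongr
          exact_mod_cast (not_le.1 q).le
        exact ⟨iff_of_false (by linarith [a.1]) (by linarith [b.1]),
          iff_of_true (by linarith [a.1]) (by linarith [b.1])⟩
      · have : (K : ℝ) * P.l ≤ k * P.l := by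
          gcongr
          exact_mod_cast (not_le.1 q).le
        exact ⟨iff_of_true (by linarith [a.2]) (by linarith [b.2]),
          iff_of_false (by linarith [a.2]) (by linarith [b.2])⟩
  · rintro h _ ⟨q, -, rfl⟩
    rw [hF, hF, yp2_sign]
    exact h q.1 q.2

theorem yp2_half (P : Pc) (m : Fin 3) {s : ℝ} (hs : s * s = 1) :
    Side (P.half m s) ∧ Disjoint (interior (P.half m s)) (P.half m (-s)) := by
  have cl : ∀ s, IsClosed (P.half m s) := fun s =>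
    isClosed_le continuous_const (continuous_const.mul (P.yp2_cont m))
  refine yp2_one (cl _) (cl _) (fun y => ?_) fun y h1 h2 => ?_
  · simp only [half, mem_ofPred_eq, neg_mul, neg_nonneg]
    exact le_total _ _
  · simp only [half, mem_ofPred_eq, neg_mul, neg_nonneg] at h1 h2
    refine ⟨_, s • P.A (Pi.single m 1), yp2_lin (s • (ContinuousLinearMap.proj m).comp
      (P.A.symm : Rn 3 →L[ℝ] Rn 3)) (by simpa using hs), .of_forall fun ξ => ?_⟩
    simp only [half, mem_ofPred_eq, yp2_add, mul_add, h2.antisymm h1, zero_add]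
    rfl

theorem yp2_solid (P : Pc) (r0 : 0 < P.ρ) {y : Rn 3} (h1 : y ∈ P.out)
    (h2 : ∀ i, |P.inv y i - P.c i| ≤ P.ρ) : ∃ μ e, YGr μ e ∧ ∀ᶠ ξ in 𝓝 (0 : Rn 3),
      (y + ξ ∈ P.out ↔ 0 ≤ μ ξ) ∧ ((∀ i, |P.inv (y + ξ) i - P.c i| ≤ P.ρ) ↔ 0 ≤ -μ ξ) := by
  classical
  obtain ⟨i₀, hi⟩ := h1
  obtain ⟨u, hu⟩ : ∃ u : Rn 3, ∀ i, P.inv y i - P.c i = u i := ⟨_, fun _ => rfl⟩
  simp only [hu] at hi h2
  obtain ⟨τ, t1, t2⟩ : ∃ τ : Fin 3 → Fin 3, (∀ j, |u (τ j)| = P.ρ) ∧ ∀ j, |u j| = P.ρ → τ j = j :=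
    ⟨fun j => if |u j| = P.ρ then j else i₀, fun j => by
      beta_reduce
      split_ifs with q
      exacts [q, (h2 i₀).antisymm hi], fun j q => if_pos q⟩
  obtain ⟨μ, g1, g2⟩ := yp2_max (fun j => (u (τ j) / P.ρ) • (ContinuousLinearMap.proj (τ j)).comp
    (P.A.symm : Rn 3 →L[ℝ] Rn 3)) (e := P.A (P.ρ⁻¹ • u)) fun j => by
      have := abs_mul_abs_self (u (τ j))
      rw [t1] at this
      simp only [smul_apply, ContinuousLinearMap.comp_apply, ContinuousLinearEquiv.coe_coe,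
        P.A.symm_apply_apply, ContinuousLinearMap.proj_apply, Pi.smul_apply, smul_eq_mul]
      field_simp
      linarith
  refine ⟨μ, _, g1, ?_⟩
  have ev : ∀ i, ∀ᶠ ξ in 𝓝 (0 : Rn 3), (|u i| = P.ρ →
      |u i + P.A.symm ξ i| = P.ρ + u i / P.ρ * P.A.symm ξ i) ∧
      (|u i| ≠ P.ρ → |u i + P.A.symm ξ i| < P.ρ) := fun i => by
    by_cases q : |u i| = P.ρ
    · have c : Tendsto (fun ξ => |P.A.symm ξ i|) (𝓝 0) (𝓝 0) :=
        Continuous.tendsto' (by fun_prop) _ _ (by simp)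
      filter_upwards [c.eventually_lt_const r0] with ξ k
      refine ⟨fun _ => ?_, fun q' => (q' q).elim⟩
      rw [abs_lt] at k
      rcases (abs_eq r0.le).1 q with e | e
      · rw [e, div_self r0.ne', one_mul, abs_of_pos (by linarith [k.1])]
      · rw [e, neg_div, div_self r0.ne', abs_of_neg (by linarith [k.2])]
        ring
    · have c : Tendsto (fun ξ => |u i + P.A.symm ξ i|) (𝓝 0) (𝓝 |u i|) :=
        Continuous.tendsto' (by fun_prop) _ _ (by simp)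
      filter_upwards [c.eventually_lt_const ((h2 i).lt_of_ne q)] with ξ k
      exact ⟨fun q' => (q q').elim, fun _ => k⟩
  filter_upwards [eventually_all.2 ev] with ξ k
  rw [(g2 ξ).1, (g2 ξ).2]
  simp only [out, mem_ofPred_eq, yp2_add, hu, smul_apply, ContinuousLinearMap.comp_apply,
    ContinuousLinearEquiv.coe_coe, ContinuousLinearMap.proj_apply, smul_eq_mul]
  refine ⟨⟨fun ⟨i, a⟩ => ⟨i, ?_⟩, fun ⟨j, a⟩ => ⟨τ j, ?_⟩⟩, ⟨fun a j => ?_, fun a i => ?_⟩⟩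
  · have q : |u i| = P.ρ := by_contra fun q => ((k i).2 q).not_ge a
    rw [t2 i q]
    linarith [(k i).1 q]
  · linarith [(k _).1 (t1 j)]
  · linarith [(k _).1 (t1 j), a (τ j)]
  · by_cases q : |u i| = P.ρ
    · have := a i
      rw [t2 i q] at this
      linarith [(k i).1 q]
    · exact ((k i).2 q).le

theorem yp2_sides (h : P.Ok) (h2 : 2 ≤ P.I.card) : ∃ S : Bool → Set (Rn 3), (∀ i, Side (S i)) ∧
    (∀ y, ∃ i, y ∈ S i) ∧ (∀ i, Disjoint (interior (S i)) (S (!i))) ∧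
    (∀ i, ∀ y ∈ S i, ∀ y', P.Lat (P.inv y) (P.inv y') → y' ∈ S i) ∧
    (∀ x ∈ P.Bx, ∀ i, P.aff x ∈ S i) ∧
    ∀ (σ : Set (Rn 3)) y, (∀ i, y ∈ S i) → (∀ y' ∈ σ, P.Lat (P.inv y) (P.inv y')) →
      (closure σ ∩ P.aff '' P.Bd).Nonempty → y ∈ P.aff '' P.Bx := by
  obtain ⟨k, k0, hk⟩ := h.rho
  have l0 := P.yp2_l
  have hk' : P.ρ = (k : ℤ) * P.l := by rwa [Int.cast_natCast]
  have cc := P.I.card_add_card_compl
  rw [Fintype.card_fin] at cc
  rcases h2.eq_or_lt with h2 | h3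
  · obtain ⟨m, hm⟩ := Finset.card_eq_one.1 (show P.Iᶜ.card = 1 by omega)
    have hI : ∀ i, i ∉ P.I ↔ i = m := fun i => by rw [← Finset.mem_compl, hm, Finset.mem_singleton]
    have a := P.yp2_half m (s := 1) (one_mul 1)
    have b := P.yp2_half m (s := -1) (by norm_num)
    rw [neg_neg] at b
    refine ⟨fun b => cond b (P.half m 1) (P.half m (-1)), Bool.forall_bool.2 ⟨b.1, a.1⟩,
      fun y => Bool.exists_bool.2 ?_, Bool.forall_bool.2 ⟨b.2, a.2⟩,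
      Bool.forall_bool.2 ⟨fun y hy y' q => ?_, fun y hy y' q => ?_⟩, fun x hx => ?_,
      fun σ y hy hσ ⟨z, z1, x, z2, e⟩ => yp2_mem ⟨⟨fun i hi => ?_, fun i hi => ?_⟩, by omega⟩⟩
    · simp only [half, cond, mem_ofPred_eq, neg_mul, neg_nonneg]
      exact le_total _ _
    · have := (q m 0).1
      simp only [half, cond, mem_ofPred_eq, neg_mul, neg_nonneg, one_mul, Int.cast_zero,
        zero_mul] at hy this ⊢
      exact this.1 hy
    · have := (q m 0).2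
      simp only [half, cond, mem_ofPred_eq, one_mul, Int.cast_zero, zero_mul] at hy this ⊢
      exact this.1 hy
    · have := hx.1.1 m ((hI m).2 rfl)
      refine Bool.forall_bool.2 ⟨?_, ?_⟩ <;>
        simp only [half, cond, mem_ofPred_eq, yp2_ia, this, sub_self, mul_zero, le_refl]
    · have a1 := hy true
      have a2 := hy false
      simp only [half, cond, mem_ofPred_eq, neg_mul, neg_nonneg, one_mul] at a1 a2
      rw [(hI i).1 hi]
      linarith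
    · rw [ρx, if_pos h2.symm]
      by_contra q
      have e' : P.ρ + P.l = ((k : ℤ) + 1 : ℤ) * P.l := by
        rw [hk']
        push_cast
        ring
      have := closure_minimal (t := {y | P.ρ + P.l ≤ |P.inv y i - P.c i|})
        (fun y' hy' => (yp2_lat (hσ y' hy') e' i).2.1 (not_le.1 q).le)
        (isClosed_le continuous_const (P.yp2_cont i).abs) z1
      rw [← e, mem_ofPred_eq, yp2_ia] at this
      linarith [z2.1.2 i hi]
  · have hI : P.I = Finset.univ := by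
      rw [← Finset.compl_eq_empty_iff, ← Finset.card_eq_zero]
      omega
    have r0 : 0 < P.ρ := hk ▸ mul_pos (Nat.cast_pos.2 k0) l0
    have e3 : P.ρx = P.ρ := if_neg (by omega)
    have c1 : IsClosed P.out := by
      have : P.out = ⋃ i, {y | P.ρ ≤ |P.inv y i - P.c i|} := by
        ext y
        simp only [out, mem_ofPred_eq, mem_iUnion]
      rw [this]
      exact isClosed_iUnion_of_finite fun i => isClosed_le continuous_const (P.yp2_cont i).abs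
    have c2 : IsClosed {y | ∀ i, |P.inv y i - P.c i| ≤ P.ρ} := by
      rw [ofPred_forall]
      exact isClosed_iInter fun i => isClosed_le (P.yp2_cont i).abs continuous_const
    have cov : ∀ y, y ∈ {y | ∀ i, |P.inv y i - P.c i| ≤ P.ρ} ∨ y ∈ P.out := fun y =>
      or_iff_not_imp_left.2 fun q => (not_forall.1 q).imp fun i a => (not_le.1 a).le
    have a := yp2_one c1 c2 (fun y => (cov y).symm) fun y a1 a2 =>
      let ⟨μ, e, g1, g2⟩ := P.yp2_solid r0 a1 a2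
      ⟨μ, e, g1, g2.mono fun _ q => q.1⟩
    have b := yp2_one c2 c1 cov fun y a2 a1 =>
      let ⟨_, _, g1, g2⟩ := P.yp2_solid r0 a1 a2
      ⟨_, _, yp2_neg g1, g2.mono fun _ q => q.2⟩
    refine ⟨fun b => cond b P.out {y | ∀ i, |P.inv y i - P.c i| ≤ P.ρ},
      Bool.forall_bool.2 ⟨b.1, a.1⟩, fun y => Bool.exists_bool.2 (cov y),
      Bool.forall_bool.2 ⟨b.2, a.2⟩,
      Bool.forall_bool.2 ⟨fun y hy y' q i => (yp2_lat q hk' i).1.1 (hy i),
        fun y hy y' q => hy.imp fun i => (yp2_lat q hk' i).2.1⟩,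
      fun x hx => Bool.forall_bool.2 ⟨fun i => ?_, ?_⟩,
      fun σ y hy _ _ => yp2_mem ⟨⟨fun i hi => (hi (hI ▸ Finset.mem_univ i)).elim,
        fun i _ => e3 ▸ hy false i⟩, fun _ => ?_⟩⟩
    · rw [yp2_ia, ← e3]
      exact hx.1.2 i (hI ▸ Finset.mem_univ i)
    · obtain ⟨i, hi⟩ := hx.2 (by omega)
      exact ⟨i, by rw [yp2_ia, hi]⟩
    · obtain ⟨i, hi⟩ := hy true
      exact ⟨i, (hy false i).antisymm hi⟩

end Pc

end BEp
end
end

-- merged part: Pool.Agent.Work.MP_f0515e_an.P3.YPc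
section
/-! Geometry of the pieces: lattice classes and sides. -/

open Set Metric Filter Topology Function BEv MeasureTheory
open scoped NNReal ENNReal

noncomputable section
namespace BEp

namespace Pc
variable {P : Pc} {x x' x'' : Rn 3}

theorem lat_face (P : Pc) (R : ℝ) : ∃ L : Set ((Rn 3 →L[ℝ] ℝ) × ℝ), L.Finite ∧
    ∀ x y, ‖x‖ ≤ R → ‖y‖ ≤ R → (y ∈ face L x ↔ P.Lat (P.inv x) (P.inv y)) :=
  P.yp2_face R

/-- The two sides of a plate or of the boundary of a solid. -/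
theorem Ok.sides (h : P.Ok) (h2 : 2 ≤ P.I.card) : ∃ S : Bool → Set (Rn 3), (∀ i, Side (S i)) ∧
    (∀ y, ∃ i, y ∈ S i) ∧ (∀ i, Disjoint (interior (S i)) (S (!i))) ∧
    (∀ i, ∀ y ∈ S i, ∀ y', P.Lat (P.inv y) (P.inv y') → y' ∈ S i) ∧
    (∀ x ∈ P.Bx, ∀ i, P.aff x ∈ S i) ∧
    ∀ (σ : Set (Rn 3)) y, (∀ i, y ∈ S i) → (∀ y' ∈ σ, P.Lat (P.inv y) (P.inv y')) →
      (closure σ ∩ P.aff '' P.Bd).Nonempty → y ∈ P.aff '' P.Bx :=
  yp2_sides h h2

end Pc

end BEp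
end
end
end

-- merged part: Pool.Agent.Work.MP_f0515e_an.P3.YEll1
section
-- merged part: Pool.Agent.Work.MP_f0515e_an.D3.O5
section
/-! Subdivision of finitely many edges.
Plan. `choose L c` from `exists_par`; `Kx.refine` with
`H x = {(L j, c j - u) | x ∈ segment (A j) (B j), u ∈ U j}` (monotone by `Kx.front` and `Edge.cl`).
For `x` in no open segment either `H x = ∅` or `x` is an end, whose cell is a point (`Edge.left`, `right`).
For `x = seg (A j) (B j) t`, `0 < t < 1`: only `j` contributes (`OFam.uniq`), so `K'.cell x` is the image of the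
`s ∈ Ioo 0 1` with `sign (s - u) = sign (t - u)` for all `u ∈ U j`: the point if `t ∈ U j`, and the image of
`uIoo u u'` if `t ∈ uIoo u u'` and this interval misses `U j` (`o_os`, `o_consec`). `split`: take a point `x` of the
open segment, `Kx.cell_eq`, `Edge.uniq`. `sk`: `Ref.sk` and `off`. -/

open Set Metric Filter Topology Function BEv MeasureTheory
open scoped NNReal ENNReal

noncomputable section
namespace BEp

theorem O5_int {U : Set ℝ} {u u' t : ℝ} (hs : U ⊆ Icc 0 1) (hu : u ∈ U) (hu' : u' ∈ U)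
    (hd : Disjoint (uIoo u u') U) (ht : t ∈ uIoo u u') :
    {s ∈ Ioo (0 : ℝ) 1 | ∀ v ∈ U, SignType.sign (s - v) = SignType.sign (t - v)} = uIoo u u' := by
  have a : min u u' ∈ U := min_rec' (· ∈ U) hu hu'
  have b : max u u' ∈ U := max_rec' (· ∈ U) hu hu'
  refine Subset.antisymm (fun s k => ⟨?_, ?_⟩) fun s k =>
    ⟨⟨(hs a).1.trans_lt k.1, k.2.trans_le (hs b).2⟩, fun v hv => ?_⟩
  · exact sub_pos.1 (sign_eq_one_iff.1 ((k.2 _ a).trans (sign_pos (sub_pos.2 ht.1))))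
  · exact sub_neg.1 (sign_eq_neg_one_iff.1 ((k.2 _ b).trans (sign_neg (sub_neg.2 ht.2))))
  · rcases not_and_or.1 (disjoint_right.1 hd hv) with l | l
    · rw [sign_pos (sub_pos.2 ((not_lt.1 l).trans_lt k.1)),
        sign_pos (sub_pos.2 ((not_lt.1 l).trans_lt ht.1))]
    · rw [sign_neg (sub_neg.2 (k.2.trans_le (not_lt.1 l))),
        sign_neg (sub_neg.2 (ht.2.trans_le (not_lt.1 l)))]

theorem o_subdiv {Ω : Set (Rn 3)} {K : Kx Ω} {Ec : Set (Set (Rn 3))} {J : Type} [Finite J]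
    {A B : J → Rn 3} (h : OFam K Ec A B) {U : J → Set ℝ} (hf : ∀ j, (U j).Finite)
    (h0 : ∀ j, (0 : ℝ) ∈ U j) (h1 : ∀ j, (1 : ℝ) ∈ U j) (hs : ∀ j, U j ⊆ Icc 0 1) :
    ∃ K' : Kx Ω, OSub K K' A B U := by
  choose L c hL using fun j => exists_par (h.edge j).1
  obtain ⟨K', hK⟩ := K.refine
    (fun x => {p | ∃ j, x ∈ segment ℝ (A j) (B j) ∧ ∃ u ∈ U j, (L j, c j - u) = p})
    (fun x _ => (finite_iUnion fun j => (hf j).image fun u => (L j, c j - u)).subset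
      fun p ⟨j, _, k⟩ => mem_iUnion.2 ⟨j, k⟩)
    fun x hx y hy p ⟨j, k, k'⟩ => ⟨j, by
      rw [← (h.edge j).cl] at k ⊢
      exact closure_minimal (Kx.front (K.cell_mem hx) (h.edge j).2 ⟨x, K.mem x hx, k⟩)
        isClosed_closure hy, k'⟩
  have ref : K.Ref K' := fun x hx => hK x hx ▸ inter_subset_left
  have off : ∀ x ∈ Ω, (∀ j, x ∉ openSegment ℝ (A j) (B j)) → K'.cell x = K.cell x := by
    intro x hx k
    rw [hK x hx]
    refine inter_eq_left.2 fun y hy p ⟨j, m, _⟩ => ?_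
    rcases Kx.KA2_seg m with rfl | rfl | m
    · rw [show y = _ from (h.edge j).left.2.subset hy]
    · rw [show y = _ from (h.edge j).right.2.subset hy]
    · exact (k j m).elim
  have hΩ : ∀ j, ∀ t ∈ Ioo (0 : ℝ) 1, seg (A j) (B j) t ∈ Ω := fun j t ht =>
    Kx.cells_sub (h.edge j).2 (o_memo _ _ ht)
  have ev' : ∀ j u t, ev (L j, c j - u) (seg (A j) (B j) t) = t - u := fun j u t => by
    have := hL j t
    simp only [ev]
    linarith
  have key : ∀ j, ∀ t ∈ Ioo (0 : ℝ) 1, K'.cell (seg (A j) (B j) t) = seg (A j) (B j) ''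
      {s ∈ Ioo (0 : ℝ) 1 | ∀ v ∈ U j, SignType.sign (s - v) = SignType.sign (t - v)} := by
    intro j t ht
    rw [hK _ (hΩ j t ht), Kx.cell_eq (h.edge j).2 (o_memo _ _ ht), ← seg_image_open]
    refine Subset.antisymm ?_ ?_
    · rintro _ ⟨⟨s, m, rfl⟩, k⟩
      refine ⟨s, ⟨m, fun v hv => ?_⟩, rfl⟩
      simpa only [ev'] using k _ ⟨j, o_mem _ _ (Ioo_subset_Icc_self ht), v, hv, rfl⟩
    · rintro _ ⟨s, ⟨m, k⟩, rfl⟩
      refine ⟨⟨s, m, rfl⟩, ?_⟩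
      rintro _ ⟨j', m', v, hv, rfl⟩
      obtain rfl := h.uniq (o_memo _ _ ht) m'
      rw [ev', ev', k v hv]
  have int : ∀ j, ∀ u ∈ U j, ∀ u' ∈ U j, u ≠ u' → Disjoint (uIoo u u') (U j) → ∀ t ∈ uIoo u u',
      t ∈ Ioo (0 : ℝ) 1 ∧ K'.cell (seg (A j) (B j) t) =
        openSegment ℝ (seg (A j) (B j) u) (seg (A j) (B j) u') := fun j u hu u' hu' ne hd t ht => by
    have e := O5_int (hs j) hu hu' hd ht
    have m := (e.ge ht).1
    exact ⟨m, by rw [key j t m, e, o_os _ _ ne]⟩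
  refine ⟨K', ref, Subset.antisymm (fun x hx => by_contra fun k => k ⟨hx.1, ?_⟩) (ref.sk 1), off,
    fun j u hu u' hu' ne hd => ⟨(o_inj (h.edge j).1).ne ne, ?_⟩, fun v w e => ?_⟩
  · rw [← off x hx.1 fun j m => k ((h.edge j).seg_sub (openSegment_subset_segment _ _ _ m))]
    exact hx.2
  · obtain ⟨t, ht⟩ := nonempty_uIoo.2 ne
    obtain ⟨m, k⟩ := int j u hu u' hu' ne hd t ht
    exact ⟨_, hΩ j t m, k⟩
  obtain ⟨x, hx⟩ := Kx.cells_ne e.2
  have k := Kx.cell_eq e.2 hx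
  by_cases m : ∃ j, x ∈ openSegment ℝ (A j) (B j)
  · obtain ⟨j, m⟩ := m
    obtain ⟨t, ht, rfl⟩ := (seg_image_open _ _).ge m
    have hU : t ∉ U j := fun hU => by
      have : dm (openSegment ℝ v w) ≤ dm {seg (A j) (B j) t} := by
        rw [← k, key j t ht]
        refine dm_mono ?_
        rintro _ ⟨s, m, rfl⟩
        have := m.2 t hU
        rw [sub_self, sign_zero, sign_eq_zero_iff, sub_eq_zero] at this
        exact congrArg _ this
      simp [e.dm, KA2_single] at this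
    obtain ⟨u, hu, u', hu', l, l', hd⟩ := o_consec (hf j) (h0 j) (h1 j) (Ioo_subset_Icc_self ht) hU
    have ne := (l.trans l').ne
    rcases e.uniq (k.symm.trans (int j u hu u' hu' ne hd t (Ioo_subset_uIoo ⟨l, l'⟩)).2) with n | n
    · exact .inr ⟨j, u, hu, u', hu', ne, hd, n⟩
    · exact .inr ⟨j, u', hu', u, hu, ne.symm, uIoo_comm u u' ▸ hd, n⟩
  · have hx' := Kx.cells_sub e.2 hx
    exact .inl ⟨⟨e.1, x, hx', (off x hx' (not_exists.1 m)).symm.trans k⟩,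
      fun j n => m ⟨j, n ▸ hx⟩⟩

end BEp
end
end

-- merged part: Pool.Agent.Work.MP_f0515e_an.D3.OMain
section
/-! The topological theorem combined with the one-dimensional analysis on the edges. -/

open Set Metric Filter Topology Function BEv MeasureTheory
open scoped NNReal ENNReal

noncomputable section
namespace BEp

theorem o_Qmono {B : Box 1} {s ρ ρ' : ℝ} (hs : 0 < s) (h : ρ ≤ ρ') : B.Q s ρ ⊆ B.Q s ρ' :=
  fun _ hx => ⟨hx.1, fun l hl => (hx.2 l hl).trans (by gcongr)⟩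

theorem o_Qmid {B : Box 1} {s ρ : ℝ} {x y : Rn 3} (hx : x ∈ B.Q s ρ) (hy : y ∈ B.Q s ρ) :
    seg x y (1 / 2) ∈ B.Q s ρ := by
  have e : ∀ l, seg x y (1 / 2) l = x l + 1 / 2 * (y l - x l) := fun l => rfl
  refine ⟨fun l hl => by rw [e, hx.1 l hl, hy.1 l hl]; ring, fun l hl => ?_⟩
  have h1 := abs_le.1 (hx.2 l hl)
  have h2 := abs_le.1 (hy.2 l hl)
  rw [e, abs_le]
  constructor <;> linarith [h1.1, h1.2, h2.1, h2.2]

theorem top_an (h : TopG) : ∃ C0 : ℝ, 1 ≤ C0 ∧ TopA C0 := by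
  obtain ⟨C0, hC, hT⟩ := h
  refine ⟨C0, hC, fun Ω K f D p Ec ν ι _ Bx s ε ε' θ b0 e hp hA hR hQ hθ hb he => ?_⟩
  have hC0 : 0 ≤ C0 := by linarith
  have := hA.fin.to_subtype
  have := Fintype.ofFinite Ec
  choose A B hE hσ using fun j : Ec => Kx.dm_one (hA.sub j.2).1 (hA.sub j.2).2
  have fam : OFam K Ec A B := ⟨hE, fun j => hσ j ▸ j.2,
    fun j j' k => Subtype.ext ((hσ j).trans (k.trans (hσ j').symm)), fun σ k => ⟨⟨σ, k⟩, hσ ⟨σ, k⟩⟩⟩
  have sub : ∀ j, openSegment ℝ (A j) (B j) ⊆ ⋃₀ Ec := fun j => subset_sUnion_of_mem (fam.mem j)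
  choose mσ μ μ1 μ2 μ3 μ4 using fun j =>
    o_meas hA.acm (hE j).1 (ne_top_of_le_ne_top hA.νfin (measure_mono (sub j)))
  have fin : ∀ x : ℝ, ENNReal.ofReal x ^ p ≠ ⊤ := fun x =>
    ENNReal.rpow_ne_top_of_nonneg (by linarith) ENNReal.ofReal_ne_top
  obtain ⟨e0, e1, e2⟩ := ENNReal.exists_nnreal_pos_mul_lt
    (a := ∑ j, ENNReal.ofReal ‖B j - A j‖⁻¹ ^ p) (ENNReal.sum_ne_top.2 fun j _ => fin _) he
  choose δ hδ hO using fun j => one_dim (g := fun t => f (seg (A j) (B j) t))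
    (d := fun t => D (seg (A j) (B j) t) (B j - A j)) (ν := μ j) (μ2 j) (μ3 j)
    ((ContinuousLinearMap.apply ℝ (Rn 3) (B j - A j)).continuous.measurable.comp
      (hA.meas.comp (tp_seg _ _).continuous.measurable))
    ((hA.ac _ _ (hE j) (fam.mem j)).1.apply_continuousLinearMap _)
    (fun t ht => by rw [o_0]; exact (hA.ac _ _ (hE j) (fam.mem j)).2 t ht) hp hC0 (by
      refine ne_top_of_le_ne_top (ENNReal.mul_ne_top (fin ‖B j - A j‖) hA.int) ?_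
      refine le_trans ?_ (mul_le_mul_right (lintegral_mono_set (sub j)) _)
      rw [μ4, ← lintegral_const_mul' _ _ (fin _)]
      refine lintegral_mono fun t => ?_
      rw [← ENNReal.mul_rpow_of_nonneg _ _ (by linarith), ofReal_norm, mul_comm]
      exact ENNReal.rpow_le_rpow (ContinuousLinearMap.le_opENorm _ _) (by linarith))
    (ENNReal.coe_ne_zero.2 e1.ne')
  choose R0 hR0 hG using fun j => o_geo hA.opn hA.cont hA.inj (hE j) (hδ j)
  obtain ⟨R, ⟨⟨r1, r2⟩, r3⟩, r0⟩ : ∃ R : ℝ, (((∀ j, R ≤ R0 j) ∧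
      ∀ j, R ≤ θ (openSegment ℝ (A j) (B j))) ∧ ∀ i, R ≤ ε i) ∧ 0 < R :=
    (((((eventually_all.2 fun j => ge_mem_nhds (hR0 j)).and
      (eventually_all.2 fun j => ge_mem_nhds (hθ _))).and
      (eventually_all.2 fun i => ge_mem_nhds (hR.ε0 i).1)).filter_mono nhdsWithin_le_nhds).and
      (self_mem_nhdsWithin (s := Ioi 0))).exists
  choose h h0 hg using fun j => hG j R r0 (r1 j)
  choose C U F P φ O using fun j => hO j (h j) (h0 j)
  obtain ⟨K', S⟩ := o_subdiv fam (fun j => (O j).Ufin) (fun j => (O j).U0) (fun j => (O j).U1)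
    fun j => (O j).Usub
  have H : OAll K K' f Ec A B _ μ p C0 R _ δ h C U F P φ := ⟨hA.opn, r0, hδ, fam, S, hg, O⟩
  choose V θ' be d1 d2 d3 d4 d5 d6 d7 using o_data H hA.bv hθ r2 hb
  have far : ∀ j i, ∀ x ∈ openSegment ℝ (A j) (B j), x ∉ (Bx i).Q s 24 := fun j i x =>
    fun hx => disjoint_left.1 (hQ _ (fam.mem j) i) hx
  have ch : ∀ c ∈ oCh A B C R, c.R = R ∧ (∃ j, c.a ∈ openSegment ℝ (A j) (B j)) ∧
      ∃ j, (openSegment ℝ c.a c.b ∩ openSegment ℝ (A j) (B j)).Nonempty := by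
    rintro _ ⟨j, q, hq, rfl⟩
    obtain ⟨k1, k2, k3, -, k4, -⟩ := (O j).ends q hq
    obtain ⟨x, hx⟩ := nonempty_uIoo.2 k3
    exact ⟨rfl, ⟨j, o_memo _ _ ⟨by linarith [hδ j, k4.1], by linarith [hδ j, k4.2]⟩⟩, j, _,
      o_os _ _ k3 ▸ mem_image_of_mem _ hx, o_memo _ _ (H.ioo k1 k2 hx)⟩
  obtain ⟨G, T⟩ := hT Ω K' f ι ⟨V, θ', be, oCh A B C R, Bx, s, ε, ε'⟩
    ⟨hA.opn, hA.cont, hA.inj, d1, fun a b k => (d4 _ a b k rfl).1, d2,
      fun a b k => (d4 _ a b k rfl).2,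
      (finite_iUnion fun j => (O j).Cfin.image fun q =>
        (⟨seg (A j) (B j) q.1, seg (A j) (B j) q.2.1, q.2.2, R⟩ : Chd)).subset
        fun _ ⟨j, q, hq, k⟩ => mem_iUnion.2 ⟨j, q, hq, k.symm⟩,
      fun c hc => ⟨(o_cedge H c hc).1, (o_cedge H c hc).2.1, (o_cedge H c hc).2.2.1,
        (ch c hc).1.le.trans (d6 _ c hc rfl), (o_cedge H c hc).2.2.2⟩,
      o_cval H, o_conce H, o_cin H, o_cdisj H, fun c hc i x hx y hy => by
        obtain ⟨k1, ⟨j, k2⟩, -⟩ := ch c hc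
        have k3 := (hE j).seg_sub (openSegment_subset_segment _ _ _ k2)
        have k4 := hR.nohit i x hx c.a k3.1 (Or.inl k3) fun m =>
          far j i _ k2 (o_Qmono hR.s0 (by norm_num) m)
        have k5 := norm_sub_le_norm_sub_add_norm_sub (f c.a) y ((Bx i).aff x)
        have k6 := hy.2.2
        rw [norm_sub_rev (f c.a) y] at k5
        change 5 * ε i < ‖y - (Bx i).aff x‖
        linarith [r3 i],
      hR.s0, hR.ε0, hR.tiny, hR.card, hR.r8, hR.QS, hR.disj,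
      fun i x hx => (S.off x (hR.QS i (o_Qmono hR.s0 (by norm_num) hx))
        fun j k => far j i x k hx).trans (hR.grid i x hx),
      S.sk ▸ hR.thick, hR.low, S.sk ▸ hR.close, fun i a b k ha hb => by
        rcases S.split a b k with m | ⟨j, u, hu, u', hu', ne, -, rfl, rfl⟩
        · exact hR.rvar i a b m.1 ha hb
        · refine absurd (o_Qmid ha hb) (far j i _ ?_)
          obtain ⟨x, hx, m⟩ := (o_os (A j) (B j) ne).subset
            (o_memo _ _ (t := 1 / 2) ⟨by norm_num, by norm_num⟩)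
          exact m ▸ o_memo _ _ (H.ioo hu hu' hx),
      S.sk ▸ hR.nohit, hR.rsub, hR.sep⟩
  have core := o_core H hC0 T.chord fun j u hu u' hu' ne k1 k2 x hx y hy => by
    have k3 := T.speed _ _ (S.edge j u hu u' hu' ne k1) (fun c hc m => k2 c hc
      (m.symm.trans (o_os _ _ ne))) (fun i m => by
        obtain ⟨x, hx⟩ := nonempty_uIoo.2 ne
        exact far j i _ (o_memo _ _ (H.ioo hu hu' hx)) (o_Qmono hR.s0 (by norm_num)
          (m (o_cs _ _ u u' ▸ mem_image_of_mem _ (uIoo_subset_uIcc_self hx)))))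
      _ (o_cs _ _ u u' ▸ mem_image_of_mem _ hx) _ (o_cs _ _ u u' ▸ mem_image_of_mem _ hy)
    rw [o_os _ _ ne] at k3
    exact k3.trans (d7 _ j u hu u' hu' ne rfl k2 x y)
  choose L c hL using fun j => exists_par (hE j).1
  have ψe : ∀ j, ∀ t ∈ Ioo (0 : ℝ) 1, ∑ j', (openSegment ℝ (A j') (B j')).indicator
      (fun y => ‖B j' - A j'‖⁻¹ * φ j' (L j' y + c j')) (seg (A j) (B j) t) =
      ‖B j - A j‖⁻¹ * φ j t := fun j t ht => by
    rw [Finset.sum_eq_single j, indicator_of_mem (o_memo _ _ ht), hL]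
    · exact fun j' _ ne => indicator_of_notMem
        (fun m => ne (fam.uniq m (o_mem _ _ (Ioo_subset_Icc_self ht)))) _
    · exact fun m => absurd (Finset.mem_univ j) m
  refine ⟨G, T.inj, T.ltp, T.rig, ⟨fun y => ∑ j, (openSegment ℝ (A j) (B j)).indicator
      (fun y => ‖B j - A j‖⁻¹ * φ j (L j y + c j)) y, ⋃ j, seg (A j) (B j) '' (F j ∪ U j),
      Finset.measurable_sum _ fun j _ => (((O j).meas.comp
        ((L j).continuous.measurable.add_const _)).const_mul _).indicator (mσ j),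
      fun y => Finset.sum_nonneg fun j _ => indicator_nonneg
        (fun y _ => mul_nonneg (by positivity) ((O j).φ0 _)) y,
      finite_iUnion fun j => ((O j).Ffin.union (O j).Ufin).image _, ?_,
      fun a b k1 k2 y hy hN => ?_⟩, fun a b k1 k2 k3 y hy y' hy' => ?_, fun y hy => ?_⟩
  · have k : ⋃₀ Ec ⊆ ⋃ j, openSegment ℝ (A j) (B j) := sUnion_subset fun σ k => by
      obtain ⟨j, rfl⟩ := fam.sur σ k
      exact subset_iUnion (fun j => openSegment ℝ (A j) (B j)) j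
    refine (lintegral_mono_set k).trans ((lintegral_iUnion_le _ _).trans (le_trans ?_ e2.le))
    rw [tsum_fintype, Finset.mul_sum]
    refine Finset.sum_le_sum fun j _ => ?_
    rw [μ4, lintegral_congr_ae (g := fun t => ENNReal.ofReal (‖B j - A j‖⁻¹ * φ j t) ^ p)
      ((μ3 j).mono fun t ht => by simp only [ψe j t ht]), O4_mul _ hp (by positivity), mul_comm]
    exact mul_le_mul_left (O j).int _
  · obtain ⟨j, m⟩ := fam.sur _ k2
    rw [m, ← seg_image_open] at hy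
    obtain ⟨t, ht, rfl⟩ := hy
    have k3 := core j ht (fun k => hN (mem_iUnion.2 ⟨j, t, Or.inl k, rfl⟩))
      fun k => hN (mem_iUnion.2 ⟨j, t, Or.inr k, rfl⟩)
    simp only [ψe j t ht]
    rcases k1.uniq m with ⟨rfl, rfl⟩ | ⟨rfl, rfl⟩
    · simpa only [one_smul] using o_tl (hE j).1 k3 ((O j).φ0 t) abs_one
    · simpa only [neg_smul, one_smul, neg_sub] using
        o_tl (s := -1) (hE j).1 k3 ((O j).φ0 t) (by simp)
  · have n1 : ∀ j, ∀ x ∈ openSegment ℝ a b, x ∉ openSegment ℝ (A j) (B j) := fun j x hx m =>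
      k2 ((Kx.cell_eq k1.2 hx).symm.trans (Kx.cell_eq (hE j).2 m) ▸ fam.mem j)
    obtain ⟨x, hx⟩ := Kx.cells_ne k1.2
    have n2 : K'.cell x = openSegment ℝ a b :=
      (S.off x (Kx.cells_sub k1.2 hx) fun j => n1 j x hx).trans (Kx.cell_eq k1.2 hx)
    have n3 := T.speed a b ⟨k1.1, x, Kx.cells_sub k1.2 hx, n2⟩ (fun c hc m => by
      obtain ⟨-, -, j, z, m1, m2⟩ := ch c hc
      exact n1 j z (m ▸ m1) m2) k3 y hy y' hy'
    obtain ⟨n4, n5⟩ := d5 _ a b k1 rfl k2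
    have n6 := d3 _ x (Kx.cells_sub k1.2 hx) n2
    rw [Kx.cell_eq k1.2 hx] at n6
    rw [← n5, ← n4]
    exact n3.trans (mul_le_mul_of_nonneg_right (add_le_add le_rfl n6) (abs_nonneg _))
  · obtain ⟨y', k1, k2⟩ := T.sup y (S.sk ▸ hy)
    have k3 := closure_mono (S.ref y hy.1)
    exact ⟨y', k3 k1, k2.imp (fun k => k.trans (d3 _ y hy.1 rfl))
      fun ⟨i, m1, m2⟩ => ⟨i, m1.mono (inter_subset_inter_left _ k3), m2⟩⟩

end BEp
end
end

-- merged part: Pool.Agent.Work.MP_f0515e_an.D3.GB2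
section
/-! Length of the image of a thin edge.

Plan. `arc0`: `Alt.chain` and `arcL_chn` for `γ t = g0 (seg p q t)`, with `ω t = 2 w (seg p q t)` when the point
is in `Mt`, plus `2 Vr σ` at `t = 0` when the edge is an exit edge (else nothing). A leg at a thin vertex
has length `2 w (m s)` and `m s ∈ Mt` (`thin_leg`); a leg at a fat vertex `v` on the edge has `v = p`
rigid (`cen`; a chord midpoint lies in its own open edge; `q` is in no `Q 8`) and is the straight segment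
from `aff p` to `f y` (`arcL_sgm`), of length at most `ε' + Vr σ ≤ 2 Vr σ` (`eVariationOn.edist_le`, `close`,
`low`, `rig_small`, `ext`). The marks of `Mt` on `[p, q]` lie on the thin part (`mt_st`, `ThG.gate` or
`FatS.edge`), so `Wt.sum` bounds the sum: `2 (2 (6 V + η) + 2 V) ≤ 30 V + θ`. -/

open Set Metric Filter Topology Function BEv
open scoped NNReal ENNReal

noncomputable section
namespace BEp

variable {Ω : Set (Rn 3)} {ι : Type} {K : Kx Ω} {f : Rn 3 → Rn 3} {d : TopD ι} {D : GlD Ω}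
  {g2 g0 : Rn 3 → Rn 3} {b : BdD}

theorem GB2_inj {p q : Rn 3} (h : p ≠ q) : Injective (seg p q) := fun _ _ e =>
  smul_left_injective ℝ (sub_ne_zero.2 h.symm) (add_left_cancel e)

theorem GB2_im (p q : Rn 3) {t t' : ℝ} (h : t ≤ t') :
    seg p q '' Icc t t' = segment ℝ (seg p q t) (seg p q t') := by
  have e : seg p q = AffineMap.lineMap p q := funext fun u => by
    rw [seg, AffineMap.lineMap_apply_module', add_comm]
  rw [← segment_eq_Icc h, e, image_segment]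

theorem GB2_var (h : TopIn K f d) {p q x : Rn 3} (he : K.Edge p q) (hx : x ∈ segment ℝ p q) :
    ‖f x - f p‖ ≤ d.Vr (openSegment ℝ p q) := by
  rw [← seg_image] at hx
  obtain ⟨t, ht, rfl⟩ := hx
  have k := (eVariationOn.edist_le (fun t => f (seg p q t)) ht (left_mem_Icc.2 zero_le_one)).trans
    (h.var p q he)
  rwa [edist_dist, ENNReal.ofReal_le_ofReal_iff (h.V0 _), dist_eq_norm, GLeg_seg0] at k

theorem GB2_small (h : TopIn K f d) {i : ι} {p q : Rn 3} (he : K.Edge p q)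
    (hs : segment ℝ p q ⊆ (d.B i).Q d.s 24) (hl : d.s ≤ ‖q - p‖) :
    d.ε' i ≤ d.Vr (openSegment ℝ p q) := by
  have hp := left_mem_segment ℝ p q
  have hq := right_mem_segment ℝ p q
  have k1 := h.close i p ⟨he.seg_sub hp, hs hp⟩
  have k2 := h.close i q ⟨he.seg_sub hq, hs hq⟩
  have k3 := GB2_var h he hq
  have k4 := h.low i (q - p) fun l hl => by
    rw [Pi.sub_apply, (hs hp).1 l hl, (hs hq).1 l hl, sub_self]
  have e : (d.B i).A (q - p) = f q - f p + (f p - (d.B i).aff p) - (f q - (d.B i).aff q) := by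
    simp only [Box.aff, map_sub]
    abel
  have k5 : ‖(d.B i).A (q - p)‖ ≤ d.Vr (openSegment ℝ p q) + d.ε' i + d.ε' i := by
    rw [e]
    exact (norm_sub_le _ _).trans (add_le_add ((norm_add_le _ _).trans (add_le_add k3 k1)) k2)
  have k6 : 1000 * d.ε i ≤ ‖(d.B i).A (q - p)‖ := le_of_mul_le_mul_left
    (((mul_comm _ _).trans_le (mul_le_mul_of_nonneg_left hl (by linarith [(h.ε0 i).1]))).trans k4)
    h.s0
  linarith [(rig_small h i).2.2.2.2.1, (h.ε0 i).2]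

theorem GB2_mt (h : GS K f d D) {σ : Set (Rn 3)} (hσ : σ ∈ thinE K d) {y : Rn 3} (hy : y ∈ D.Mt)
    (hs : y ∈ segment ℝ (D.a0 σ) (D.b σ)) : y ∈ segment ℝ (D.a σ) (D.b σ) := by
  obtain ⟨he, e⟩ := h.thg.edge σ hσ
  rcases h.thg.typ σ hσ with ⟨k, -⟩ | ⟨i, hx, k1, -, k3⟩
  · rwa [k]
  · have hc := (h.fat.cen _).2 (.inl ⟨i, hx.1, he.left.2⟩)
    rcases gf2_split (e.le k1) hs with k | k
    · have k4 := h.fat.gsub (h.mt_st hy (mem_iUnion₂.2 ⟨_, hc, mem_iUnion₂.2 ⟨_, k3, k⟩⟩))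
      rw [show y = D.a σ from (h.fat.edge _ hc _ k3).2.1.subset ⟨k, k4⟩]
      exact left_mem_segment ℝ _ _
    · rwa [segment_symm]

theorem GB2_cen (h : GS K f d D) {σ : Set (Rn 3)} (hσ : σ ∈ thinE K d) {v : Rn 3}
    (hv : v ∈ D.t.Cn) (hs : v ∈ segment ℝ (D.a0 σ) (D.b σ)) :
    v = D.a0 σ ∧ ∃ i, d.Ext i (D.a0 σ) (D.b σ) := by
  obtain ⟨he, e⟩ := h.thg.edge σ hσ
  have hq : ∀ i, D.b σ ∉ (d.B i).Q d.s 8 := fun i hi => by
    rcases h.thg.typ σ hσ with ⟨-, k⟩ | ⟨j, hx, -⟩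
    · exact (k i).2 hi
    · obtain ⟨-, -, -, -, -, k, -⟩ := h.fat.ext j _ _ he hx
      obtain rfl := gf2_box h.top hi (k (right_mem_segment ℝ _ _)) (by norm_num) (by norm_num)
      exact hx.2 hi
  rcases (h.fat.cen v).1 hv with ⟨i, k1, k2⟩ | ⟨c, hc, rfl⟩
  · rcases gf2_v he hs k2 with rfl | rfl
    exacts [⟨rfl, i, k1, hq i⟩, absurd k1 (hq i)]
  · exact absurd (e.trans (GTh_eq (h.top.cedge c hc).1 he (gf2_mid _ _) hs)) (hσ.2.2 c hc)

theorem GB2_fat (h : GB K f d D g2 b g0) {i : ι} {p q y : Rn 3} (he : K.Edge p q)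
    (hx : d.Ext i p q) (hy : y ∈ D.t.ms p) (hs : y ∈ segment ℝ p q) :
    ArcL (g0 '' segment ℝ p y) (g0 p) (g0 y) (2 * d.Vr (openSegment ℝ p q)) := by
  have hc := (h.gs.fat.cen _).2 (.inl ⟨i, hx.1, he.left.2⟩)
  obtain ⟨z, k1, k2, k3, k4, k5, k6, -⟩ := h.gs.fat.ext i p q he hx
  obtain rfl : y = z := by
    rcases gf2_split k1 hs with k | k
    · exact (h.gs.fat.edge p hc z k3).2.1.subset ⟨k, mem_iUnion₂.2 ⟨p, hc, hy⟩⟩
    · exact k4.subset ⟨(segment_symm ℝ q z).le k,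
        mem_iUnion₂.2 ⟨p, hc, mem_iUnion₂.2 ⟨y, hy, right_mem_segment ℝ _ _⟩⟩⟩
  obtain ⟨e1, e2, e3, -⟩ := h.leg_fat hc hy
  have hp := left_mem_segment ℝ p q
  rw [e1, ← e2, ← e3]
  refine (arcL_sgm fun e => (h.gs.fat.edge p hc y hy).1
    (h.inj0 (he.seg_sub hp) (he.seg_sub hs) e)).mono' ?_
  rw [e2, e3, h.gs.fat.same y (he.seg_sub hs) fun _ => k2, h.gs.fat.ctr i p hx.1 he.left.2]
  linarith [norm_sub_le_norm_sub_add_norm_sub (f y) (f p) ((d.B i).aff p), GB2_var h.gs.top he hs,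
    h.gs.top.close i p ⟨he.seg_sub hp, k5 hp⟩, GB2_small h.gs.top he k5 k6]

theorem GB.arc0 (h : GB K f d D g2 b g0) {σ : Set (Rn 3)} (hσ : σ ∈ thinE K d) :
    ArcL (g0 '' segment ℝ (D.a0 σ) (D.b σ)) (g0 (D.a0 σ)) (g0 (D.b σ))
      (30 * d.Vr σ + d.θ σ) := by
  classical
  obtain ⟨he, e⟩ := h.gs.thg.edge σ hσ
  have hV := h.gs.top.V0 σ
  have hw := h.gs.wt.w0
  let W : Rn 3 → ℝ := fun x =>
    (if x ∈ D.Mt then 2 * D.w x else 0) + if x = D.a0 σ then 2 * d.Vr σ else 0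
  have W1 : ∀ x, 0 ≤ if x ∈ D.Mt then 2 * D.w x else 0 := fun x => by
    split_ifs
    exacts [by linarith [hw x], le_rfl]
  have W2 : ∀ x, 0 ≤ if x = D.a0 σ then 2 * d.Vr σ else 0 := fun x => by
    split_ifs
    exacts [by linarith, le_rfl]
  have leg : ∀ v s, D.K2.Fl v s → v ∈ segment ℝ (D.a0 σ) (D.b σ) →
      D.m s ∈ segment ℝ (D.a0 σ) (D.b σ) →
      ArcL (g0 '' segment ℝ v (D.m s)) (g0 v) (g0 (D.m s)) (W v + W (D.m s)) := by
    intro v s hl hv hm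
    by_cases hc : v ∈ D.t.Cn
    · obtain ⟨rfl, i, hx⟩ := GB2_cen h.gs hσ hc hv
      refine (GB2_fat h he hx (h.gs.fat_fl' hc hl) hm).mono' ?_
      rw [← e]
      simp only [W, if_true]
      linarith [W1 (D.a0 σ), W1 (D.m s), W2 (D.m s)]
    · have ht : v ∈ D.Th := ⟨⟨hl.1, hl.2.1⟩, hc⟩
      obtain ⟨-, -, -, k, -⟩ := h.gs.thin_leg ht hl
      have k1 : D.m s ∈ D.Mt := (k.superset rfl).2
      obtain ⟨e1, -, e2, e3⟩ := h.bead.g0_leg h.cone hl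
      rw [h.bm] at e1 e3
      rw [e1, e2, e3, h.mk2 s hl.2.2.1]
      refine (h.thin v ht s hl).2.mono' ?_
      simp only [W, if_pos k1]
      linarith [W1 v, W2 v, W2 (D.m s)]
  obtain ⟨U, hU, h0, h1, hc⟩ := h.gs.alt.chain he
  have hm : ∀ t ∈ Icc (0 : ℝ) 1, seg (D.a0 σ) (D.b σ) t ∈ segment ℝ (D.a0 σ) (D.b σ) :=
    fun t ht => seg_image _ _ ▸ mem_image_of_mem _ ht
  have key := arcL_chn (γ := fun t => g0 (seg (D.a0 σ) (D.b σ) t))
    (fun t ht t' ht' k => GB2_inj he.1 (h.inj0 (he.seg_sub (hm t ht)) (he.seg_sub (hm t' ht')) k))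
    U hU h0 h1 (ω := fun t => W (seg (D.a0 σ) (D.b σ) t)) (fun t => add_nonneg (W1 _) (W2 _))
    fun t ht t' ht' l hl => by
      have a1 := hm t (hU ht)
      have a2 := hm t' (hU ht')
      rw [← image_image g0, GB2_im _ _ l.le]
      obtain ⟨v, s, k, ⟨e1, e2⟩ | ⟨e1, e2⟩⟩ := hc t ht t' ht' l hl
      · rw [e1] at a1 ⊢
        rw [e2] at a2 ⊢
        exact leg v s k a1 a2
      · rw [e1] at a1 ⊢
        rw [e2] at a2 ⊢
        rw [segment_symm, add_comm]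
        exact (leg v s k a2 a1).symm'
  rw [← image_image g0, seg_image, GLeg_seg0, GLeg_seg1,
    ← Finset.sum_image (f := W) (GB2_inj he.1).injOn] at key
  refine key.mono' ?_
  have s1 := h.gs.wt.sum ⟨σ, hσ⟩ ((U.image (seg (D.a0 σ) (D.b σ))).filter (· ∈ D.Mt)) fun y hy => by
    obtain ⟨k1, k2⟩ := Finset.mem_filter.1 hy
    obtain ⟨t, ht, rfl⟩ := Finset.mem_image.1 k1
    exact ⟨k2, GB2_mt h.gs hσ k2 (hm t (hU ht))⟩
  have hx : midpoint ℝ (D.a0 σ) (D.b σ) ∈ σ := e.ge (gf2_mid _ _)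
  have s2 := (h.gs.eta.2 σ hσ.1 _ (subset_closure hx)).1
  rw [Kx.cell_eq hσ.1.1 hx] at s2
  rw [Finset.sum_add_distrib, ← Finset.sum_filter, ← Finset.mul_sum, Finset.sum_ite_eq']
  split_ifs <;> linarith

end BEp
end
end

-- merged part: Pool.Agent.Work.MP_f0515e_an.D3.GP2
section
/-! The final map on the one skeleton.

Plan. `u_exists`: three kinds of edges: rigid (`u = aff`, injective on the slice: `Nm.lh_aff`), chord
(`u x = f a + l (x - a) • (f b - f a)` with a linear `l`, `l (b - a) = 1`), thin (`arc0`, `ArcL.profile`). The kinds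
exclude each other (`gf2_cq`), the box and the chord are unique (`gf2_box`, `gf2_cu`); `Edge.uniq`.
`g1_exists`: `repar` gives `g'`; `g1 x = aff i x` for `x ∈ Q i 8`, else `g' x`; they agree on `K.sk 1` (`gf2_cl`, `rig0`;
a rigid vertex has an edge: if it is an exit edge use `leg_fat`, `ctr`).
`sq1`: `g1 x = g0 x'` with `x'` in the same closed cell (`cl`), `sq0`; then either the cell lies in `Q 8`, or `x'` is its
end in `Q 8` (`gf2_cl`), where `g1` and `g0` agree (`vx`), and `inj`. -/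

open Set Metric Filter Topology Function BEv
open scoped NNReal ENNReal

noncomputable section
namespace BEp

variable {Ω : Set (Rn 3)} {ι : Type} {K : Kx Ω} {f : Rn 3 → Rn 3} {d : TopD ι} {D : GlD Ω}
  {g2 g0 : Rn 3 → Rn 3} {b : BdD}

/-- The affine map of a rigid box is injective on the slice. -/
theorem GP2_inj (h : TopIn K f d) (i : ι) {ρ : ℝ} : InjOn (d.B i).aff ((d.B i).Q d.s ρ) := by
  intro x hx y hy e
  have k := h.low i (x - y) fun l hl => by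
    rw [Pi.sub_apply, hx.1 l hl, hy.1 l hl, sub_self]
  have e0 : (d.B i).A (x - y) = 0 := by
    rw [← sub_sub_sub_cancel_right x y (d.B i).c, map_sub]
    exact sub_eq_zero.2 (add_right_cancel e)
  rw [e0, norm_zero, mul_zero] at k
  have h0 := (h.ε0 i).1
  have : ‖x - y‖ ≤ 0 := by
    by_contra hn
    push Not at hn
    nlinarith [mul_pos h0 hn]
  exact sub_eq_zero.1 (norm_le_zero_iff.1 this)

/-- What is asked of the map on the edge from `p` to `q`. -/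
def GP2_P (K : Kx Ω) (d : TopD ι) (g0 u : Rn 3 → Rn 3) (p q : Rn 3) : Prop :=
  TP u ∧ (InjOn u (segment ℝ p q) ∧ u p = g0 p ∧ u q = g0 q ∧
      u '' segment ℝ p q = g0 '' segment ℝ p q) ∧
    (∀ i, segment ℝ p q ⊆ (d.B i).Q d.s 8 → EqOn u (d.B i).aff (segment ℝ p q)) ∧
    (openSegment ℝ p q ∈ thinE K d → ∀ y ∈ segment ℝ p q, ∀ y' ∈ segment ℝ p q,
      ‖u y - u y'‖ ≤ (30 * d.Vr (openSegment ℝ p q) + d.θ (openSegment ℝ p q)) *
          |d.be (openSegment ℝ p q) y - d.be (openSegment ℝ p q) y'|)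

theorem GP2_symm {u : Rn 3 → Rn 3} {p q : Rn 3} (h : GP2_P K d g0 u p q) : GP2_P K d g0 u q p := by
  obtain ⟨h1, ⟨h2, h3, h4, h5⟩, h6, h7⟩ := h
  rw [GP2_P, segment_symm ℝ q p, openSegment_symm ℝ q p]
  exact ⟨h1, ⟨h2, h4, h3, h5⟩, h6, h7⟩

theorem GP2_all {u : Rn 3 → Rn 3} {a c : Rn 3} (h : GP2_P K d g0 u a c) {p q : Rn 3}
    (he : K.Edge p q) (e : openSegment ℝ p q = openSegment ℝ a c) : GP2_P K d g0 u p q := by
  rcases he.uniq e with ⟨rfl, rfl⟩ | ⟨rfl, rfl⟩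
  exacts [h, GP2_symm h]

/-- Affine map of a segment onto a segment. -/
theorem GP2_lin {a c : Rn 3} (hac : a ≠ c) (A C : Rn 3) :
    ∃ u : Rn 3 → Rn 3, TP u ∧ ∀ t, u (seg a c t) = seg A C t := by
  obtain ⟨k, hk⟩ : ∃ k, (c - a) k ≠ 0 := by
    by_contra hn
    push Not at hn
    exact hac (sub_eq_zero.1 (funext hn)).symm
  let l : Rn 3 →L[ℝ] ℝ := ((c - a) k)⁻¹ • ContinuousLinearMap.proj k
  refine ⟨fun x => A + l (x - a) • (C - A), (TP.const A).add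
    (((TP.clm l).comp (TP.id'.sub (TP.const a))).smul_const (C - A)), fun t => ?_⟩
  have : l (seg a c t - a) = t := by
    simp only [l, seg, add_sub_cancel_left, map_smul, smul_apply,
      ContinuousLinearMap.proj_apply, smul_eq_mul]
    rw [inv_mul_cancel₀ hk, mul_one]
  simp only [this]
  rfl

theorem GP2_one (h : GB K f d D g2 b g0) (σ : Set (Rn 3)) : ∃ u : Rn 3 → Rn 3,
    (∀ p q, K.Edge p q → openSegment ℝ p q = σ → GP2_P K d g0 u p q) ∧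
    ∀ c ∈ d.Ch, openSegment ℝ c.a c.b = σ →
      ∀ t ∈ Icc (0 : ℝ) 1, u (seg c.a c.b t) = seg (f c.a) (f c.b) t := by
  have ht := h.gs.top
  by_cases h1 : ∃ c ∈ d.Ch, openSegment ℝ c.a c.b = σ
  · obtain ⟨c, hc, rfl⟩ := h1
    obtain ⟨he, hlt, -⟩ := ht.cedge c hc
    obtain ⟨u, u1, u2⟩ := GP2_lin he.1 (f c.a) (f c.b)
    obtain ⟨k1, k2, k3⟩ := h.cho0 hc
    have hne : f c.b - f c.a ≠ 0 := fun e => by
      rw [sub_eq_zero.1 e] at hlt
      exact lt_irrefl _ hlt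
    refine ⟨u, fun p q hpq e => GP2_all (a := c.a) (c := c.b) ⟨u1, ⟨?_, ?_, ?_, ?_⟩,
      fun i hi => (gf2_cq ht hc (left_mem_segment ℝ _ _) (hi (left_mem_segment ℝ _ _))).elim,
      fun hth => (hth.2.2 c hc rfl).elim⟩ hpq e, fun c' hc' e t _ => ?_⟩
    · rw [← seg_image]
      rintro _ ⟨s, -, rfl⟩ _ ⟨t, -, rfl⟩ e
      rw [u2, u2] at e
      rw [smul_left_injective ℝ hne (add_left_cancel e)]
    · rw [k2]
      simpa only [GLeg_seg0] using u2 0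
    · rw [k3]
      simpa only [GLeg_seg1] using u2 1
    · rw [k1, ← seg_image, ← seg_image, image_image]
      exact image_congr fun t _ => u2 t
    · obtain rfl : c' = c := gf2_cu ht hc' hc
        (openSegment_subset_segment ℝ _ _ (gf2_mid c'.a c'.b))
        (openSegment_subset_segment ℝ _ _ (e ▸ gf2_mid c'.a c'.b))
      exact u2 t
  by_cases h2 : ∃ p q, K.Edge p q ∧ openSegment ℝ p q = σ
  swap
  · exact ⟨id, fun p q he e => (h2 ⟨p, q, he, e⟩).elim, fun c hc e => (h1 ⟨c, hc, e⟩).elim⟩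
  obtain ⟨a, c, he, rfl⟩ := h2
  suffices H : ∃ u a' c', openSegment ℝ a c = openSegment ℝ a' c' ∧ GP2_P K d g0 u a' c' by
    obtain ⟨u, a', c', e', H⟩ := H
    exact ⟨u, fun p q hpq e => GP2_all H hpq (e.trans e'), fun c hc e => (h1 ⟨c, hc, e⟩).elim⟩
  by_cases h3 : ∃ i, segment ℝ a c ⊆ (d.B i).Q d.s 8
  · obtain ⟨i, hi⟩ := h3
    obtain ⟨k1, k2, k3⟩ := h.rig0 he hi
    refine ⟨(d.B i).aff, a, c, rfl,
      ((TP.clm (d.B i).A).comp (TP.id'.sub (TP.const _))).add (TP.const _), ⟨(GP2_inj ht i).mono hi, k2.symm, k3.symm, k1.symm⟩,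
      fun j hj => ?_, fun hth => (hth.2.1 i (he.cl.symm ▸ hi)).elim⟩
    obtain rfl : i = j := gf2_box ht (hi (left_mem_segment ℝ _ _)) (hj (left_mem_segment ℝ _ _))
      (by norm_num) (by norm_num)
    exact fun _ _ => rfl
  have hth : openSegment ℝ a c ∈ thinE K d :=
    ⟨⟨he.2, he.dm⟩, fun i hi => h3 ⟨i, he.cl ▸ hi⟩, fun c' hc' e => h1 ⟨c', hc', e.symm⟩⟩
  obtain ⟨he', e'⟩ := h.gs.thg.edge _ hth
  obtain ⟨b1, b2, b3⟩ := ht.be _ _ he'
  obtain ⟨u, u1, u2, u3, u4, u5, u6⟩ := (h.arc0 hth).profile he'.1 b1 b2 b3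
  refine ⟨u, _, _, e', u1, ⟨u2, u3, u4, u5⟩, fun i hi => (hth.2.1 i ?_).elim, fun _ => ?_⟩
  · rw [e', he'.cl]
    exact hi
  · rw [← e'] at u6 ⊢
    exact u6

theorem GB.u_exists (h : GB K f d D g2 b g0) : ∃ u : Set (Rn 3) → Rn 3 → Rn 3, ∀ p q, K.Edge p q →
    TP (u (openSegment ℝ p q)) ∧ (InjOn (u (openSegment ℝ p q)) (segment ℝ p q) ∧
      u (openSegment ℝ p q) p = g0 p ∧ u (openSegment ℝ p q) q = g0 q ∧
      u (openSegment ℝ p q) '' segment ℝ p q = g0 '' segment ℝ p q) ∧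
    (∀ i, segment ℝ p q ⊆ (d.B i).Q d.s 8 →
      EqOn (u (openSegment ℝ p q)) (d.B i).aff (segment ℝ p q)) ∧
    (∀ c ∈ d.Ch, ∀ t ∈ Icc (0 : ℝ) 1,
      u (openSegment ℝ c.a c.b) (seg c.a c.b t) = seg (f c.a) (f c.b) t) ∧
    (openSegment ℝ p q ∈ thinE K d → ∀ y ∈ segment ℝ p q, ∀ y' ∈ segment ℝ p q,
      ‖u (openSegment ℝ p q) y - u (openSegment ℝ p q) y'‖ ≤
        (30 * d.Vr (openSegment ℝ p q) + d.θ (openSegment ℝ p q)) *
          |d.be (openSegment ℝ p q) y - d.be (openSegment ℝ p q) y'|) := by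
  choose u h1 h2 using GP2_one h
  refine ⟨u, fun p q he => ?_⟩
  obtain ⟨k1, k2, k3, k4⟩ := h1 _ p q he rfl
  exact ⟨k1, k2, k3, fun c hc => h2 _ c hc rfl, k4⟩

/-- Properties of the final map on the skeleton and on the rigid boxes. -/
structure G1 (K : Kx Ω) (f : Rn 3 → Rn 3) (d : TopD ι) (g0 g1 : Rn 3 → Rn 3) : Prop where
  inj : InjOn g1 (K.sk 1)
  tp : ∀ e ∈ K.cells, dm e ≤ 1 → ∃ u, TP u ∧ EqOn g1 u (closure e)
  vx : ∀ x ∈ Ω, K.cell x = {x} → g1 x = g0 x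
  sk : g1 '' K.sk 1 = g0 '' K.sk 1
  cl : ∀ σ ∈ K.cells, dm σ ≤ 1 → g1 '' closure σ = g0 '' closure σ
  rb : ∀ c ∈ K.cel 2, g1 '' rb c = g0 '' rb c
  rig : ∀ i, EqOn g1 (d.B i).aff ((d.B i).Q d.s 8)
  chord : ∀ c ∈ d.Ch, ∀ t ∈ Icc (0 : ℝ) 1, g1 (seg c.a c.b t) = seg (f c.a) (f c.b) t
  speed : ∀ p q, K.Edge p q → openSegment ℝ p q ∈ thinE K d →
    ∀ y ∈ segment ℝ p q, ∀ y' ∈ segment ℝ p q, ‖g1 y - g1 y'‖ ≤
      (30 * d.Vr (openSegment ℝ p q) + d.θ (openSegment ℝ p q)) *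
        |d.be (openSegment ℝ p q) y - d.be (openSegment ℝ p q) y'|

/-- At a rigid vertex the cone map is the affine map. -/
theorem GP2_vx (h : GB K f d D g2 b g0) {i : ι} {x : Rn 3} (hx : x ∈ Ω) (hv : K.cell x = {x})
    (hq : x ∈ (d.B i).Q d.s 8) : g0 x = (d.B i).aff x := by
  obtain ⟨τ, k1, k2⟩ := Kx.exists_up (d := 1) h.gs.top.opn (K.cell_mem hx)
    (by rw [hv, KA2_single]; norm_num) (by norm_num)
  obtain ⟨c, he, -⟩ := gf2_ed (K := K) (v := x) ⟨hx, hv, k1, k2 (K.mem x hx)⟩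
  by_cases hc : c ∈ (d.B i).Q d.s 8
  · exact (h.rig0 he ((Box.Q_convex 8).segment_subset hq hc)).2.1
  · obtain ⟨y, -, -, hy, -⟩ := h.gs.fat.ext i x c he ⟨hq, hc⟩
    rw [(h.leg_fat ((h.gs.fat.cen x).2 (.inl ⟨i, hq, hv⟩)) hy).2.1]
    exact h.gs.fat.ctr i x hq hv

theorem GB.g1_exists (h : GB K f d D g2 b g0) : ∃ g1, G1 K f d g0 g1 := by
  classical
  have ht := h.gs.top
  obtain ⟨u, hu⟩ := h.u_exists
  obtain ⟨g, g1, g2', g3, g4, g5, g6⟩ := repar K h.inj0 u fun p q he => (hu p q he).2.1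
  set G : Rn 3 → Rn 3 := fun x =>
    if k : ∃ i, x ∈ (d.B i).Q d.s 8 then (d.B k.choose).aff x else g x with hG
  have rig : ∀ i, EqOn G (d.B i).aff ((d.B i).Q d.s 8) := fun i x hx => by
    have k : ∃ i, x ∈ (d.B i).Q d.s 8 := ⟨i, hx⟩
    have e : k.choose = i := gf2_box ht k.choose_spec hx (by norm_num) (by norm_num)
    simp only [hG, dif_pos k, e]
  have eq : EqOn G g (K.sk 1) := fun x hx => by
    by_cases k : ∃ i, x ∈ (d.B i).Q d.s 8
    · obtain ⟨i, hi⟩ := k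
      rw [rig i hi]
      rcases Kx.mem_sk_one.1 hx with ⟨k1, k2⟩ | ⟨p, q, he, k1⟩
      · rw [g3 x k1 k2, GP2_vx h k1 k2 hi]
      · have k2 := gf2_cl ht hi
        rw [(gf2_nv he k1).1, he.cl] at k2
        have k3 := openSegment_subset_segment ℝ p q k1
        rw [g2' p q he k3, (hu p q he).2.2.1 i k2 k3]
    · exact dif_neg k
  have ed : ∀ p q, K.Edge p q → EqOn G (u (openSegment ℝ p q)) (segment ℝ p q) :=
    fun p q he x hx => (eq (he.seg_sub hx)).trans (g2' p q he hx)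
  refine ⟨G, g1.congr eq.symm, fun e he hd => ?_, fun x hx hv => ?_, eq.image_eq.trans g4,
    fun σ h1 h2 => (eq.mono (Kx.cl_sub_sk h1 h2)).image_eq.trans (g5 σ h1 h2),
    fun c hc => (eq.mono (Kx.rb_sub_sk hc.1 hc.2.le)).image_eq.trans (g6 c hc), rig,
    fun c hc t hs => ?_, fun p q he hth y hy y' hy' => ?_⟩
  · rcases Nat.le_one_iff_eq_zero_or_eq_one.1 hd with k | k
    · obtain ⟨a, rfl⟩ := (Kx.dm_zero he).1 k
      refine ⟨fun _ => G a, TP.const _, ?_⟩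
      rw [closure_singleton]
      rintro _ rfl
      rfl
    · obtain ⟨p, q, k1, rfl⟩ := Kx.dm_one he k
      exact ⟨_, (hu p q k1).1, k1.cl.symm ▸ ed p q k1⟩
  · rw [eq (Kx.mem_sk_one.2 (.inl ⟨hx, hv⟩)), g3 x hx hv]
  · have he := (ht.cedge c hc).1
    rw [ed _ _ he (seg_image c.a c.b ▸ mem_image_of_mem _ hs)]
    exact (hu _ _ he).2.2.2.1 c hc t hs
  · rw [ed p q he hy, ed p q he hy']
    exact (hu p q he).2.2.2.2 hth y hy y' hy'

theorem GB.sq1 (h : GB K f d D g2 b g0) {g1 : Rn 3 → Rn 3} (h1 : G1 K f d g0 g1) {i : ι}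
    {x : Rn 3} (hx : x ∈ K.sk 1) (hz : g1 x ∈ (d.B i).aff '' (d.B i).Q d.s 8) :
    x ∈ (d.B i).Q d.s 8 := by
  have hc := K.cell_mem hx.1
  have k : g1 x ∈ g0 '' closure (K.cell x) :=
    h1.cl _ hc hx.2 ▸ mem_image_of_mem _ (subset_closure (K.mem x hx.1))
  obtain ⟨y, hy, e⟩ := k
  have hs := Kx.cl_sub_sk hc hx.2 hy
  have hq := h.sq0 hs (e ▸ hz)
  rcases Kx.mem_sk_one.1 hs with ⟨k1, k2⟩ | ⟨p, q, he, k1⟩
  · rwa [h1.inj hx hs ((h1.vx y k1 k2).trans e).symm]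
  · refine gf2_cl h.gs.top hq (subset_closure ?_)
    by_contra hn
    have k2 := Kx.dm_lt hc (K.cell_mem hs.1) (K.fr x hx.1 y hy) fun e' => hn (e' ▸ K.mem x hx.1)
    rw [(gf2_nv he k1).1, he.dm] at k2
    exact absurd hx.2 (not_le.2 k2)

end BEp
end
end

-- merged part: Pool.Agent.Work.MP_f0515e_an.D3.CMain
section
/-! EXPORT (filling theorem): the embedding of the one skeleton extends over all cells. -/

open Set Metric Filter Topology Function BEv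
open scoped NNReal

noncomputable section
namespace BEp

variable {Ω : Set (Rn 3)} {K : Kx Ω} {f g G : Rn 3 → Rn 3}
  {D : Set (Rn 3) → Set (Rn 3)} {R : Set (Set (Rn 3))}

theorem fill_two (h : Pre K f g D R) : ∃ G : Rn 3 → Rn 3,
    (∀ e ∈ K.cells, dm e ≤ 2 → ∃ u, TP u ∧ EqOn G u (closure e)) ∧ InjOn G (K.sk 2) ∧
    G '' K.sk 2 ⊆ f '' Ω ∧ EqOn G g (K.sk 1) ∧ ∀ c ∈ R, c ∈ K.cel 2 → EqOn G g (closure c) := by
  obtain ⟨F, p, q, r⟩ := disj_all h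
  have sk : ∀ a ∈ K.cel 2, rb a ⊆ K.sk 1 := fun a ha => rb_sk ha.1 ha.2.le
  have : ∀ c ∈ K.cel 2, ∃ u, TP u ∧ BijOn u (closure c) (F c) ∧ EqOn u g (rb c) ∧
      (c ∈ R → EqOn u g (closure c)) := fun c hc => by
    by_cases k : c ∈ R
    · obtain ⟨a, b, u, u1, u2⟩ := h.r2 c k hc
      exact ⟨u, u1, by rw [q c k, a]; exact b.bijOn_image.congr u2, u2.symm.mono sdiff_subset,
        fun _ => u2.symm⟩
    · obtain ⟨u, u1, u2⟩ := glue_sk h.gtp (Kx.cells_poly hc.1).1 (Kx.cl_sub hc.1)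
      have u3 : EqOn g u (rb c) := fun z hz => u2 ⟨sk c hc hz, hz.1⟩
      obtain ⟨v, v1, v2, v3⟩ := (Kx.pdsc hc).ext (p c hc).1 u1
        ((h.ginj.mono (sk c hc)).bijOn_image.congr u3)
      exact ⟨v, v1, v2, v3.trans u3.symm, fun k' => absurd k' k⟩
  choose! u u1 u2 u3 u4 using this
  let G : Rn 3 → Rn 3 := fun x => if dm (K.cell x) ≤ 1 then g x else u (K.cell x) x
  have g1 : EqOn G g (K.sk 1) := fun x hx => if_pos hx.2
  have g2 : ∀ c ∈ K.cel 2, EqOn G (u c) (closure c) := fun c hc x hx => by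
    by_cases k : x ∈ c
    · simp only [G, Kx.cell_eq hc.1 k, hc.2]
      rfl
    · exact (g1 (sk c hc ⟨hx, k⟩)).trans (u3 c hc ⟨hx, k⟩).symm
  have two : ∀ x ∈ K.sk 2, x ∉ K.sk 1 → K.cell x ∈ K.cel 2 := fun x hx k =>
    ⟨K.cell_mem hx.1, le_antisymm hx.2 (not_le.1 fun q => k ⟨hx.1, q⟩)⟩
  have m : ∀ x ∈ K.sk 2, x ∉ K.sk 1 → G x ∈ F (K.cell x) := fun x hx k =>
    g2 _ (two x hx k) (subset_closure (K.mem x hx.1)) ▸
      (u2 _ (two x hx k)).mapsTo (subset_closure (K.mem x hx.1))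
  have no : ∀ x ∈ K.sk 2, x ∉ K.sk 1 → G x ∉ g '' K.sk 1 := fun x hx k a => by
    have c := two x hx k
    have b := subset_closure (K.mem x hx.1)
    obtain ⟨y, hy, e⟩ := (p _ c).2.2 ⟨m x hx k, a⟩
    rw [← u3 _ c hy, g2 _ c b] at e
    exact hy.2 ((u2 _ c).injOn hy.1 b e ▸ K.mem x hx.1)
  refine ⟨G, fun e he k => ?_, fun x hx y hy e => ?_, ?_, g1, fun c k hc =>
    (g2 c hc).trans (u4 c hc k)⟩
  · rcases k.eq_or_lt with k | k
    · exact ⟨_, u1 e ⟨he, k⟩, g2 e ⟨he, k⟩⟩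
    · obtain ⟨v, v1, v2⟩ := h.gtp e he (by omega)
      exact ⟨v, v1, (g1.mono (Kx.cl_sub_sk he (by omega))).trans v2⟩
  · by_cases a : x ∈ K.sk 1 <;> by_cases b : y ∈ K.sk 1
    · exact h.ginj a b ((g1 a).symm.trans (e.trans (g1 b)))
    · exact absurd ⟨x, a, (g1 a).symm.trans e⟩ (no y hy b)
    · exact absurd ⟨y, b, (g1 b).symm.trans e.symm⟩ (no x hx a)
    · by_cases c : K.cell x = K.cell y
      · have x1 := subset_closure (K.mem x hx.1)
        have y1 := c ▸ subset_closure (K.mem y hy.1)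
        exact (u2 _ (two x hx a)).injOn x1 y1
          ((g2 _ (two x hx a) x1).symm.trans (e.trans (g2 _ (two x hx a) y1)))
      · exact absurd (r _ (two x hx a) _ (two y hy b) c ⟨m x hx a, e ▸ m y hy b⟩) (no x hx a)
  · rintro _ ⟨x, hx, rfl⟩
    by_cases a : x ∈ K.sk 1
    · exact h.gV ⟨x, a, (g1 a).symm⟩
    · exact (p _ (two x hx a)).2.1 (m x hx a)

theorem cl_union_open (ho : IsOpen Ω) {𝒮 : Set (Set (Rn 3))} (hs : 𝒮 ⊆ K.cells) :
    IsOpen (Ω \ ⋃ P ∈ 𝒮, closure P) := by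
  refine isOpen_iff_mem_nhds.2 fun x hx => ?_
  filter_upwards [Kx.near (K := K) ho hx.1] with y hy
  refine ⟨hy.1, fun k => hx.2 ?_⟩
  obtain ⟨P, hP, a⟩ := mem_iUnion₂.1 k
  exact mem_biUnion hP (closure_minimal (Kx.front (K.cell_mem hy.1) (hs hP)
    ⟨y, K.mem y hy.1, a⟩) isClosed_closure hy.2)

/-- The two skeleton lies outside each of the spheres. -/
theorem fill_out (ho : IsOpen Ω) (hc : ContinuousOn f Ω) (hi : InjOn f Ω)
    (tp : ∀ e ∈ K.cells, dm e ≤ 2 → ∃ u, TP u ∧ EqOn G u (closure e)) (inj : InjOn G (K.sk 2))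
    (hV : G '' K.sk 2 ⊆ f '' Ω)
    (an : {P | P ∈ K.cel 3 ∧ ¬ ∃ x ∈ closure P ∩ K.sk 2, G x ∈ f '' closure P}.Finite)
    {Q B : Set (Rn 3)} (hQ : Q ∈ K.cel 3) (hB : Ball B (G '' rb Q)) :
    B ⊆ f '' Ω ∧ ∀ x ∈ K.sk 2, G x ∉ B \ G '' rb Q := by
  have sk : ∀ a ∈ K.cel 3, rb a ⊆ K.sk 2 := fun a ha => rb_sk ha.1 ha.2.le
  have bd : ∀ P ∈ K.cel 3, ∀ x ∈ closure P, x ∈ K.sk 2 → x ∈ rb P := fun P hP x a b =>
    ⟨a, fun k => by
      have := b.2
      rw [Kx.cell_eq hP.1 k, hP.2] at this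
      omega⟩
  have side : ∀ P ∈ K.cel 3, P ≠ Q → G '' (rb P \ closure Q) ⊆ B \ G '' rb Q ∨
      Disjoint (G '' (rb P \ closure Q)) B := fun P hP ne => by
    obtain ⟨u, u1, u2⟩ := glue_sk tp (Kx.cells_poly hP.1).1 (Kx.cl_sub hP.1)
    refine hB.side (IsPreconnected.image ?_ _ (u1.continuous.continuousOn.congr fun z hz =>
      u2 ⟨sk P hP hz.1, hz.1.1⟩)) (disjoint_left.2 ?_)
    · rcases (closure P ∩ closure Q).eq_empty_or_nonempty with k | k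
      · rw [(disjoint_left.2 fun x (a : x ∈ rb P) b => (k.le ⟨a.1, b⟩ : x ∈ (∅ : Set _))).sdiff_eq_left]
        exact ((Kx.ball hP).conn_bd (by omega)).isPreconnected
      · exact bd_conn (Kx.cells_cvx hP.1) ((Kx.dm_three hP.1).1 hP.2)
          ((Kx.cells_poly hP.1).1.isBounded.subset subset_closure) (Kx.cells_ne hP.1)
          (Kx.cells_cvx hQ.1).closure (not_cl hP.1 hQ.1 ne (hQ.2.trans hP.2.symm).le) k
    · rintro _ ⟨x, hx, rfl⟩ ⟨y, hy, e⟩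
      exact hx.2 (inj (sk Q hQ hy) (sk P hP hx.1) e ▸ hy.1)
  let I := {P | P ∈ K.cel 3 ∧ P ≠ Q ∧ G '' (rb P \ closure Q) ⊆ B \ G '' rb Q}
  let O := {P | P ∈ K.cel 3 ∧ P ≠ Q ∧ P ∉ I}
  have hO : ∀ P ∈ O, ∀ x ∈ rb P, x ∉ closure Q → G x ∉ B := fun P hP x a b => disjoint_left.1
    ((side P hP.1 hP.2.1).resolve_left fun k => hP.2.2 ⟨hP.1, hP.2.1, k⟩) ⟨x, ⟨a, b⟩, rfl⟩
  let W₁ := (Ω \ ⋃ P ∈ O, closure P) \ closure Q
  let W₂ := (Ω \ ⋃ P ∈ I, closure P) \ closure Q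
  have o1 : IsOpen W₁ := (cl_union_open ho fun P hP => hP.1.1).sdiff isClosed_closure
  have o2 : IsOpen W₂ := (cl_union_open ho fun P hP => hP.1.1).sdiff isClosed_closure
  have top : ∀ x ∈ Ω, x ∉ closure Q → ∃ P ∈ K.cel 3, x ∈ closure P ∧ (P ∈ I ∨ P ∈ O) :=
    fun x hx k => by
      obtain ⟨P, hP, a⟩ := K.exists_top ho hx
      have ne : P ≠ Q := fun e => k (e ▸ a)
      exact ⟨P, hP, a, (em (P ∈ I)).imp id fun b => ⟨hP, ne, b⟩⟩
  have dj : Disjoint W₁ W₂ := disjoint_left.2 fun x a b => by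
    obtain ⟨P, -, c, k | k⟩ := top x a.1.1 a.2
    · exact b.1.2 (mem_biUnion k c)
    · exact a.1.2 (mem_biUnion k c)
  have cv : ∀ x ∈ Ω, x ∉ closure Q → x ∈ W₁ ∪ W₂ := fun x hx k => by
    by_contra c
    rw [mem_union, not_or] at c
    obtain ⟨P, hP, a⟩ := mem_iUnion₂.1 (by_contra fun q => c.1 ⟨⟨hx, q⟩, k⟩)
    obtain ⟨P', hP', a'⟩ := mem_iUnion₂.1 (by_contra fun q => c.2 ⟨⟨hx, q⟩, k⟩)
    have ne : P ≠ P' := fun e => hP.2.2 (e ▸ hP')
    exact hO P hP x ⟨a, fun q => disjoint_left.1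
      (not_cl hP.1.1 hP'.1.1 ne (hP'.1.2.trans hP.1.2.symm).le) q a'⟩ k (hP'.2.2 ⟨x, ⟨⟨a', fun q =>
        disjoint_left.1 (not_cl hP'.1.1 hP.1.1 ne.symm (hP.1.2.trans hP'.1.2.symm).le) q a⟩, k⟩,
        rfl⟩).1
  have sV := (image_mono (sk Q hQ)).trans hV
  obtain ⟨C, c1, c2, c3⟩ := cpt_pre ho hc hi hB.poly'.1 sV
  have cQ := (Kx.cells_poly hQ.1).1
  have fin := (Kx.lf_cl (K := K) ho (c1.union cQ) (union_subset c2 (Kx.cl_sub hQ.1))).union an
  set 𝒯 := {σ | σ ∈ K.cells ∧ (closure σ ∩ (C ∪ closure Q)).Nonempty} ∪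
    {P | P ∈ K.cel 3 ∧ ¬ ∃ x ∈ closure P ∩ K.sk 2, G x ∈ f '' closure P}
  have pc : 𝒯 ⊆ K.cells := fun P hP => hP.elim And.left fun k => k.1.1
  have far : ∀ x ∈ Ω, x ∉ ⋃ P ∈ 𝒯, closure P → x ∉ closure Q ∧ (x ∉ W₂ → f x ∈ B) ∧
      (x ∉ W₁ → f x ∉ B) := fun x hx k => by
    have q : x ∉ closure Q := fun a =>
      k (mem_biUnion (Or.inl ⟨hQ.1, x, a, Or.inr a⟩ : Q ∈ 𝒯) a)
    have key : ∀ P ∈ K.cel 3, x ∈ closure P →
        ∃ y ∈ rb P, y ∉ closure Q ∧ (G y ∈ B ↔ f x ∈ B) := fun P hP a => by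
      have n : P ∉ 𝒯 := fun b => k (mem_biUnion b a)
      obtain ⟨y, hy, e⟩ := not_not.1 fun b => n (Or.inr ⟨hP, b⟩)
      have n' : ∀ z ∈ closure P, z ∉ C ∪ closure Q := fun z a b => n (Or.inl ⟨hP.1, z, a, b⟩)
      refine ⟨y, bd P hP y hy.1 hy.2, fun b => n' y hy.1 (Or.inr b), ?_⟩
      rcases hB.side ((Kx.cells_cvx hP.1).closure.isPreconnected.image f
        (hc.mono (Kx.cl_sub hP.1))) (disjoint_left.2 (by
          rintro _ ⟨z, hz, rfl⟩ b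
          obtain ⟨w, hw, e⟩ := c3 b
          exact n' z hz (Or.inl (hi (c2 hw) (Kx.cl_sub hP.1 hz) e ▸ hw)))) with s | s
      · exact iff_of_true (s e).1 (s ⟨x, a, rfl⟩).1
      · exact iff_of_false (disjoint_left.1 s e) (disjoint_left.1 s ⟨x, a, rfl⟩)
    refine ⟨q, fun c => ?_, fun c => ?_⟩
    · obtain ⟨P, hP, a⟩ := mem_iUnion₂.1 (by_contra fun r => c ⟨⟨hx, r⟩, q⟩)
      obtain ⟨y, y1, y2, y3⟩ := key P hP.1 a
      exact y3.1 (hP.2.2 ⟨y, ⟨y1, y2⟩, rfl⟩).1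
    · obtain ⟨P, hP, a⟩ := mem_iUnion₂.1 (by_contra fun r => c ⟨⟨hx, r⟩, q⟩)
      obtain ⟨y, y1, y2, y3⟩ := key P hP.1 a
      exact fun b => hO P hP y y1 y2 (y3.2 b)
  obtain ⟨U, u1, u2, u3, u4⟩ := (Kx.ball hQ).shell (by omega) ho (Kx.cl_sub hQ.1)
  have s1 : W₁ ⊆ Ω := fun x hx => hx.1.1
  have s2 : W₂ ⊆ Ω := fun x hx => hx.1.1
  have part := fun {Ω₁ Ω₂ : Set (Rn 3)} (a : IsOpen Ω₁) (b : IsOpen Ω₂) hu hd =>
    top_part (by omega) hc hi a b hu hd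
      (fin.isCompact_biUnion fun P hP => (Kx.cells_poly (pc hP)).1)
      (iUnion₂_subset fun P hP => Kx.cl_sub (pc hP)) hB sV
  have un : W₁ ∪ W₂ ∪ U = Ω := Subset.antisymm (union_subset (union_subset s1 s2) u3) fun x hx =>
    (em (x ∈ closure Q)).elim (fun a => Or.inr (u2 a)) fun a => Or.inl (cv x hx a)
  have res : W₁ = ∅ ∧ B ⊆ f '' Ω := by
    rcases u4.subset_or_subset o1 o2 dj (fun x hx => cv x (u3 hx.1) hx.2) with k | k
    · have d : Disjoint (W₁ ∪ U) W₂ := disjoint_union_left.2 ⟨dj, disjoint_left.2 fun x a b =>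
        disjoint_left.1 dj (k ⟨a, b.2⟩) b⟩
      have := part (o1.union u1) o2 (by rw [union_right_comm, un]) d
        (fun x a b => (far x (union_subset s1 u3 a) b).2.1 (disjoint_left.1 d a))
        fun x a b => (far x (s2 a) b).2.2 (disjoint_right.1 dj a)
      exact ⟨(union_empty_iff.1 this.1).1, this.2⟩
    · have d : Disjoint W₁ (W₂ ∪ U) := disjoint_union_right.2 ⟨dj, disjoint_left.2 fun x a b =>
        disjoint_left.1 dj a (k ⟨b, a.2⟩)⟩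
      exact part o1 (o2.union u1) (by rw [← union_assoc, un]) d
        (fun x a b => (far x (s1 a) b).2.1 (disjoint_left.1 dj a))
        fun x a b => (far x (union_subset s2 u3 a) b).2.2 (disjoint_right.1 d a)
  refine ⟨res.2, fun x hx k => ?_⟩
  have q : x ∉ closure Q := fun a => k.2 ⟨x, bd Q hQ x a hx, rfl⟩
  obtain ⟨P, hP, a⟩ := mem_iUnion₂.1
    (by_contra fun r => (res.1.le ⟨⟨hx.1, r⟩, q⟩ : x ∈ (∅ : Set _)))
  exact hO P hP x (bd P hP.1 x a hx) q k.1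

theorem fill3 (h : Pre K f g D R) :
    ∃ G, InjOn G Ω ∧ LTP Ω G ∧ G '' Ω ⊆ f '' Ω ∧ EqOn G g (K.sk 1) ∧
      ∀ σ ∈ R, σ ∈ K.cells → EqOn G g (closure σ) := by
  obtain ⟨H, p1, p2, p3, p4, p5⟩ := fill_two h
  have sk : ∀ a ∈ K.cel 3, rb a ⊆ K.sk 2 := fun a ha => rb_sk ha.1 ha.2.le
  have : ∀ P ∈ K.cel 3, ∃ Φ, LH Φ ∧ EqOn Φ H (rb P) ∧ (P ∈ R → EqOn Φ g (closure P)) :=
    fun P hP => by
    by_cases k : P ∈ R
    · obtain ⟨⟨u, u1, u2⟩, a⟩ := h.r3 P k hP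
      refine ⟨u, u1, fun x hx => (u2 hx.1).symm.trans (Eq.symm ?_), fun _ => u2.symm⟩
      have b := sk P hP hx
      have c := K.cell_mem b.1
      rcases b.2.eq_or_lt with e | e
      · exact p5 _ (a _ ⟨c, e⟩ (Kx.front c hP.1 ⟨x, K.mem x b.1, hx.1⟩)) ⟨c, e⟩
          (subset_closure (K.mem x b.1))
      · exact p4 ⟨b.1, by omega⟩
    · obtain ⟨u, u1, u2⟩ := glue_sk p1 (Kx.cells_poly hP.1).1 (Kx.cl_sub hP.1)
      have u3 : EqOn H u (rb P) := fun z hz => u2 ⟨sk P hP hz, hz.1⟩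
      obtain ⟨Φ, v1, v2⟩ := fill_emb (Kx.ball hP) u1 ((p2.mono (sk P hP)).congr u3)
      exact ⟨Φ, v1, v2.trans u3.symm, fun k' => absurd k' k⟩
  choose! Φ q1 q2 q3 using this
  let G : Rn 3 → Rn 3 := fun x => if dm (K.cell x) ≤ 2 then H x else Φ (K.cell x) x
  have g1 : EqOn G H (K.sk 2) := fun x hx => if_pos hx.2
  have g2 : ∀ c ∈ K.cel 3, EqOn G (Φ c) (closure c) := fun c hc x hx => by
    by_cases k : x ∈ c
    · simp only [G, Kx.cell_eq hc.1 k, hc.2]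
      rfl
    · exact (g1 (sk c hc ⟨hx, k⟩)).trans (q2 c hc ⟨hx, k⟩).symm
  have bl : ∀ P ∈ K.cel 3, Ball (Φ P '' closure P) (H '' rb P) := fun P hP =>
    (q2 P hP).image_eq ▸ (Kx.ball hP).image (q1 P hP)
  have out := fun P hP => fill_out h.opn h.cont h.inj p1 p2 p3 (h.anc.subset fun P hP =>
    ⟨hP.1, fun ⟨x, a, b⟩ => hP.2 ⟨x, ⟨a.1, Kx.sk_mono one_le_two a.2⟩, p4 a.2 ▸ b⟩⟩) hP (bl P hP)
  have top : ∀ x ∈ Ω, x ∉ K.sk 2 → K.cell x ∈ K.cel 3 := fun x hx k =>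
    ⟨K.cell_mem hx, le_antisymm (dm_le _) (not_le.1 fun q => k ⟨hx, q⟩)⟩
  have m : ∀ x ∈ Ω, x ∉ K.sk 2 → G x ∈ Φ (K.cell x) '' closure (K.cell x) \ H '' rb (K.cell x) :=
    fun x hx k => by
    have c := top x hx k
    have b := subset_closure (K.mem x hx)
    rw [g2 _ c b, ← (q2 _ c).image_eq]
    exact ⟨⟨x, b, rfl⟩, fun ⟨y, hy, e⟩ => hy.2 ((q1 _ c).inj e ▸ K.mem x hx)⟩
  have tp : ∀ σ ∈ K.cells, ∃ u, TP u ∧ EqOn G u (closure σ) := fun σ hσ => by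
    rcases (dm_le σ).eq_or_lt with e | e
    · exact ⟨_, (q1 σ ⟨hσ, e⟩).tp, g2 σ ⟨hσ, e⟩⟩
    · obtain ⟨u, u1, u2⟩ := p1 σ hσ (by omega)
      exact ⟨u, u1, (g1.mono (Kx.cl_sub_sk hσ (by omega))).trans u2⟩
  have e1 := (g1.mono (Kx.sk_mono one_le_two)).trans p4
  refine ⟨G, fun x hx y hy e => ?_, Kx.ltp_of_cells tp, ?_, e1, fun σ k hσ => ?_⟩
  · by_cases a : x ∈ K.sk 2 <;> by_cases b : y ∈ K.sk 2
    · exact p2 a b ((g1 a).symm.trans (e.trans (g1 b)))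
    · exact absurd (g1 a ▸ e ▸ m y hy b) ((out _ (top y hy b)).2 x a)
    · exact absurd (g1 b ▸ e ▸ m x hx a) ((out _ (top x hx a)).2 y b)
    have c := top x hx a
    have c' := top y hy b
    by_cases ne : K.cell x = K.cell y
    · exact (q1 _ c).inj ((g2 _ c (subset_closure (K.mem x hx))).symm.trans
        (e.trans (g2 _ c (ne ▸ subset_closure (K.mem y hy)))))
    have s := ((bl _ c').side (bl _ c).conn_in (disjoint_left.2 (by
      rintro _ k ⟨z, hz, rfl⟩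
      exact (out _ c).2 z (sk _ c' hz) k))).resolve_right fun k =>
        disjoint_left.1 k (m x hx a) (e ▸ (m y hy b).1)
    have s' := (bl _ c).closure_in ▸ closure_minimal (s.trans sdiff_subset) (bl _ c').poly.1.isClosed
    have := (Kx.ball c).sub_convex (by omega) (Kx.cells_cvx c'.1).closure fun z hz => by
      obtain ⟨w, hw, k⟩ := not_not.1 fun k => (out _ c').2 z (sk _ c hz)
        ⟨s' ((bl _ c).sub ⟨z, hz, rfl⟩), k⟩
      exact p2 (sk _ c' hw) (sk _ c hz) k ▸ hw.1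
    exact absurd (this (subset_closure (K.mem x hx)))
      (disjoint_left.1 (not_cl c.1 c'.1 ne (c'.2.trans c.2.symm).le) (K.mem x hx))
  · rintro _ ⟨x, hx, rfl⟩
    by_cases a : x ∈ K.sk 2
    · exact p3 ⟨x, a, (g1 a).symm⟩
    · exact (out _ (top x hx a)).1 (m x hx a).1
  · rcases (dm_le σ).eq_or_lt with e | e
    · exact (g2 σ ⟨hσ, e⟩).trans (q3 σ ⟨hσ, e⟩ k)
    · rcases (Nat.le_of_lt_succ e).eq_or_lt with e | e
      · exact (g1.mono (Kx.cl_sub_sk hσ e.le)).trans (p5 σ k ⟨hσ, e⟩)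
      · exact e1.mono (Kx.cl_sub_sk hσ (by omega))

end BEp
end
end

-- merged part: Pool.Agent.Work.MP_f0515e_an.D3.GPre
section
/-! The input of the filling theorem.

Plan. `pre`: `R` = cells with closure in a `Q i 8` (`Kx.cover`, `Q` is compact); `Dd c = g1 '' closure c` for `c ∈ R`
(`Kx.pdsc`, `PCel.image`), otherwise the disc of `faces` for `K2, g2, b, g0` (`Alt.cel`, `Alt.sk`). `dG` for `c ∈ R`:
`sq1`, injectivity of `aff` on the slice, a face is disjoint from `K.sk 1`. `rdis`: `cl_inter`, `rb_sub_sk`; `sep` for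
different boxes. `dV`: `rsub`. -/

open Set Metric Filter Topology Function BEv
open scoped NNReal ENNReal

noncomputable section
namespace BEp

variable {Ω : Set (Rn 3)} {ι : Type} {K : Kx Ω} {f : Rn 3 → Rn 3} {d : TopD ι} {D : GlD Ω}
  {g2 g0 : Rn 3 → Rn 3} {b : BdD}

theorem GPre_lh (h : TopIn K f d) {g1 : Rn 3 → Rn 3} (h1 : G1 K f d g0 g1) (i : ι) :
    ∃ u, LH u ∧ EqOn g1 u ((d.B i).Q d.s 8) := by
  obtain ⟨L, hL⟩ := nm_exists h i
  obtain ⟨u, hu, e⟩ := hL.lh_aff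
  exact ⟨u, hu, fun x hx => (h1.rig i hx).trans (e hx.1)⟩

theorem GPre_inj (h : TopIn K f d) {g1 : Rn 3 → Rn 3} (h1 : G1 K f d g0 g1) {i j : ι}
    {x y : Rn 3} (hx : x ∈ (d.B i).Q d.s 8) (hy : y ∈ (d.B j).Q d.s 8) (e : g1 x = g1 y) :
    x = y := by
  obtain rfl : i = j := box_uniq h (z := g1 x) (Box.Q_mono h.s0 (by norm_num) hx)
    (Box.Q_mono h.s0 (by norm_num) hy)
    (by rw [h1.rig i hx, sub_self, norm_zero]; linarith [(h.ε0 i).1])
    (by rw [e, h1.rig j hy, sub_self, norm_zero]; linarith [(h.ε0 j).1])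
  obtain ⟨u, hu, k⟩ := GPre_lh h h1 i
  exact hu.inj ((k hx).symm.trans (e.trans (k hy)))

theorem GPre_disc (h : GB K f d D g2 b g0) {g1 : Rn 3 → Rn 3} (h1 : G1 K f d g0 g1)
    {c : Set (Rn 3)} (hc : c ∈ K.cel 2) :
    ∃ E, PDsc E (g1 '' rb c) ∧ E ⊆ g2 '' Ω ∧ E ∩ g1 '' K.sk 1 ⊆ g1 '' rb c ∧
      ∀ i, closure c ⊆ (d.B i).Q d.s 8 → E = g1 '' closure c := by
  have T := h.gs.top
  by_cases hr : ∃ i, closure c ⊆ (d.B i).Q d.s 8
  · obtain ⟨i, hi⟩ := hr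
    obtain ⟨u, hu, e⟩ := GPre_lh T h1 i
    refine ⟨g1 '' closure c, ?_, ?_, ?_, fun _ _ => rfl⟩
    · rw [(e.mono hi).image_eq, (e.mono (fun x hx => hi hx.1 : rb c ⊆ _)).image_eq]
      exact (Kx.pdsc hc).image hu.tp hu.inj.injOn
    · rintro _ ⟨x, hx, rfl⟩
      rw [h.im2, h1.rig i (hi hx)]
      exact T.rsub i x (Box.Q_mono T.s0 (by norm_num) (hi hx))
        (mem_closedBall_self (by linarith [(T.ε0 i).1]))
    · rintro _ ⟨⟨x, hx, rfl⟩, y, hy, k⟩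
      obtain rfl : y = x := GPre_inj T h1
        (h.sq1 h1 hy ⟨x, hi hx, (h1.rig i (hi hx)).symm.trans k.symm⟩) (hi hx) k
      refine ⟨y, ⟨hx, fun k1 => ?_⟩, rfl⟩
      have k2 := hy.2
      rw [Kx.cell_eq hc.1 k1, hc.2] at k2
      omega
  · obtain ⟨E, k1, k2, k3⟩ := faces (g := g0) T.opn h.c2 h.i2 h.bead
      (fun v σ hl => (h.bead.g0_leg h.cone hl).1) ((h.gs.alt.cel le_rfl).symm ▸ hc)
    rw [h.gs.alt.sk, ← h1.sk, ← h1.rb c hc] at k3
    rw [← h1.rb c hc] at k1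
    exact ⟨E, k1, k2, k3, fun i hi => (hr ⟨i, hi⟩).elim⟩

theorem GB.pre [Finite ι] (h : GB K f d D g2 b g0) {g1 : Rn 3 → Rn 3} (h1 : G1 K f d g0 g1) :
    ∃ Dd, Pre K g2 g1 Dd {σ | σ ∈ K.cells ∧ ∃ i, closure σ ⊆ (d.B i).Q d.s 8} := by
  have T := h.gs.top
  choose! E e1 e2 e3 e4 using fun c (hc : c ∈ K.cel 2) => GPre_disc h h1 hc
  refine ⟨E, T.opn, h.c2, h.i2, h1.tp, h1.inj, ?_, fun C hC hs => ?_, e1, e2, e3, ?_, ?_, ?_,
    ?_, ?_⟩
  · rw [h1.sk, h.im2]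
    exact h.gV0
  · refine (h.glf0 hC (h.im2 ▸ hs)).subset ?_
    rintro e ⟨k1, k2, k3⟩
    exact ⟨k1, k2, h1.cl e k1 k2 ▸ k3⟩
  · refine (finite_iUnion fun i => Kx.cover (K := K) (GTh_Q (d.B i) d.s 8)
      (SR1_in T (by norm_num))).subset ?_
    rintro σ ⟨k1, i, k2⟩
    obtain ⟨x, hx⟩ := Kx.cells_ne k1
    exact mem_iUnion.2 ⟨i, k1, x, hx, k2 (subset_closure hx)⟩
  · rintro c ⟨-, i, hi⟩ hc
    obtain ⟨u, hu, e⟩ := GPre_lh T h1 i
    exact ⟨e4 c hc i hi, fun x hx y hy k => GPre_inj T h1 (hi hx) (hi hy) k, u, hu.tp, e.mono hi⟩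
  · rintro c ⟨-, i, hi⟩ hc c' ⟨-, j, hj⟩ hc' hne
    rw [e4 c hc i hi, e4 c' hc' j hj]
    rintro _ ⟨⟨x, hx, rfl⟩, y, hy, k⟩
    obtain rfl : y = x := GPre_inj T h1 (hj hy) (hi hx) k
    exact ⟨y, Kx.rb_sub_sk hc.1 hc.2.le ((Kx.cl_inter hc hc' hne).subset ⟨hx, hy⟩).1, rfl⟩
  · rintro P ⟨-, i, hi⟩ -
    obtain ⟨u, hu, e⟩ := GPre_lh T h1 i
    exact ⟨⟨u, hu, e.mono hi⟩, fun c hc k =>
      ⟨hc.1, i, (closure_minimal k isClosed_closure).trans hi⟩⟩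
  · refine finite_empty.subset ?_
    rintro P ⟨hP, k⟩
    obtain ⟨e, k1, k2, k3, x, hx, k4⟩ := h.anc0 hP
    obtain ⟨y, hy, k5⟩ := (h1.cl e k1 k2).symm.subset (mem_image_of_mem g0 hx)
    exact k ⟨y, ⟨k3 hy, Kx.cl_sub_sk k1 k2 hy⟩, x, k3 hx, (k5.trans k4).symm⟩

end BEp
end
end

-- merged part: Pool.Agent.Work.MP_f0515e_an.D3.GTop
section
/-! EXPORT: the topological theorem in dimension three. -/

open Set Metric Filter Topology Function BEv
open scoped NNReal ENNReal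

noncomputable section
namespace BEp

theorem topG : TopG := by
  refine ⟨30, by norm_num, fun Ω K f ι _ d h => ?_⟩
  obtain ⟨D, g2, b, g0, hb⟩ := gb_exists h
  obtain ⟨g1, h1⟩ := hb.g1_exists
  obtain ⟨Dd, hp⟩ := hb.pre h1
  obtain ⟨G, k1, k2, -, k4, k5⟩ := fill3 hp
  refine ⟨G, k1, k2, fun i x hx => ?_, fun c hc t ht => ?_, fun p q he n1 n2 y hy y' hy' => ?_,
    fun y hy => ?_⟩
  · have hxΩ : x ∈ Ω := h.QS i (Box.Q_mono h.s0 (by norm_num) hx)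
    rw [k5 _ ⟨K.cell_mem hxΩ, i, gf2_cl h hx⟩ (K.cell_mem hxΩ) (subset_closure (K.mem x hxΩ))]
    exact h1.rig i hx
  · rw [k4 ((h.cedge c hc).1.seg_sub (seg_image c.a c.b ▸ mem_image_of_mem _ ht))]
    exact h1.chord c hc t ht
  · rw [k4 (he.seg_sub hy), k4 (he.seg_sub hy')]
    exact h1.speed p q he ⟨⟨he.2, he.dm⟩, fun i k => n2 i (he.cl ▸ k), n1⟩ y hy y' hy'
  · rw [k4 hy]
    refine hb.sup0 hy _ ?_
    rw [← h1.cl _ (K.cell_mem hy.1) hy.2]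
    exact mem_image_of_mem _ (subset_closure (K.mem y hy.1))

end BEp
end
end

-- merged part: Pool.Agent.Work.MP_f0515e_an.D3.XFill
section
/-! EXPORT (localised filling theorem): the faces go into prescribed open sets, the solid cells into
the convex hull of the image of their boundary. -/

open Set Metric Filter Topology Function BEv
open scoped NNReal

noncomputable section
namespace BEp

variable {Ω : Set (Rn 3)} {K : Kx Ω} {f g : Rn 3 → Rn 3} {D W : Set (Rn 3) → Set (Rn 3)}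
  {R : Set (Set (Rn 3))} {col : Set (Rn 3) → ℕ} {m : ℕ}

theorem fill_twoX (h : Pre K f g D R) (hW : Rgn K f D R W col m) : ∃ G : Rn 3 → Rn 3,
    (∀ e ∈ K.cells, dm e ≤ 2 → ∃ u, TP u ∧ EqOn G u (closure e)) ∧ InjOn G (K.sk 2) ∧
    G '' K.sk 2 ⊆ f '' Ω ∧ EqOn G g (K.sk 1) ∧
    (∀ c ∈ R, c ∈ K.cel 2 → EqOn G g (closure c)) ∧ ∀ c ∈ K.cel 2, G '' closure c ⊆ W c := by
  obtain ⟨F, p, r⟩ := disj_loc h hW
  have sk : ∀ a ∈ K.cel 2, rb a ⊆ K.sk 1 := fun a ha => rb_sk ha.1 ha.2.le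
  have : ∀ c ∈ K.cel 2, ∃ u, TP u ∧ BijOn u (closure c) (F c) ∧ EqOn u g (rb c) ∧
      (c ∈ R → EqOn u g (closure c)) := fun c hc => by
    by_cases k : c ∈ R
    · obtain ⟨a, b, u, u1, u2⟩ := h.r2 c k hc
      exact ⟨u, u1, by rw [(p c hc).2.2.2.2 k, a]; exact b.bijOn_image.congr u2, u2.symm.mono sdiff_subset,
        fun _ => u2.symm⟩
    · obtain ⟨u, u1, u2⟩ := glue_sk h.gtp (Kx.cells_poly hc.1).1 (Kx.cl_sub hc.1)
      have u3 : EqOn g u (rb c) := fun z hz => u2 ⟨sk c hc hz, hz.1⟩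
      obtain ⟨v, v1, v2, v3⟩ := (Kx.pdsc hc).ext (p c hc).1 u1
        ((h.ginj.mono (sk c hc)).bijOn_image.congr u3)
      exact ⟨v, v1, v2, v3.trans u3.symm, fun k' => absurd k' k⟩
  choose! u u1 u2 u3 u4 using this
  let G : Rn 3 → Rn 3 := fun x => if dm (K.cell x) ≤ 1 then g x else u (K.cell x) x
  have g1 : EqOn G g (K.sk 1) := fun x hx => if_pos hx.2
  have g2 : ∀ c ∈ K.cel 2, EqOn G (u c) (closure c) := fun c hc x hx => by
    by_cases k : x ∈ c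
    · simp only [G, Kx.cell_eq hc.1 k, hc.2]
      rfl
    · exact (g1 (sk c hc ⟨hx, k⟩)).trans (u3 c hc ⟨hx, k⟩).symm
  have two : ∀ x ∈ K.sk 2, x ∉ K.sk 1 → K.cell x ∈ K.cel 2 := fun x hx k =>
    ⟨K.cell_mem hx.1, le_antisymm hx.2 (not_le.1 fun q => k ⟨hx.1, q⟩)⟩
  have m : ∀ x ∈ K.sk 2, x ∉ K.sk 1 → G x ∈ F (K.cell x) := fun x hx k =>
    g2 _ (two x hx k) (subset_closure (K.mem x hx.1)) ▸
      (u2 _ (two x hx k)).mapsTo (subset_closure (K.mem x hx.1))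
  have no : ∀ x ∈ K.sk 2, x ∉ K.sk 1 → G x ∉ g '' K.sk 1 := fun x hx k a => by
    have c := two x hx k
    have b := subset_closure (K.mem x hx.1)
    obtain ⟨y, hy, e⟩ := (p _ c).2.2.1 ⟨m x hx k, a⟩
    rw [← u3 _ c hy, g2 _ c b] at e
    exact hy.2 ((u2 _ c).injOn hy.1 b e ▸ K.mem x hx.1)
  refine ⟨G, fun e he k => ?_, fun x hx y hy e => ?_, ?_, g1, fun c k hc =>
    (g2 c hc).trans (u4 c hc k), fun c hc =>
    ((g2 c hc).image_eq.trans (u2 c hc).image_eq).le.trans (p c hc).2.2.2.1⟩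
  · rcases k.eq_or_lt with k | k
    · exact ⟨_, u1 e ⟨he, k⟩, g2 e ⟨he, k⟩⟩
    · obtain ⟨v, v1, v2⟩ := h.gtp e he (by omega)
      exact ⟨v, v1, (g1.mono (Kx.cl_sub_sk he (by omega))).trans v2⟩
  · by_cases a : x ∈ K.sk 1 <;> by_cases b : y ∈ K.sk 1
    · exact h.ginj a b ((g1 a).symm.trans (e.trans (g1 b)))
    · exact absurd ⟨x, a, (g1 a).symm.trans e⟩ (no y hy b)
    · exact absurd ⟨y, b, (g1 b).symm.trans e.symm⟩ (no x hx a)
    · by_cases c : K.cell x = K.cell y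
      · have x1 := subset_closure (K.mem x hx.1)
        have y1 := c ▸ subset_closure (K.mem y hy.1)
        exact (u2 _ (two x hx a)).injOn x1 y1
          ((g2 _ (two x hx a) x1).symm.trans (e.trans (g2 _ (two x hx a) y1)))
      · exact absurd (r _ (two x hx a) _ (two y hy b) c ⟨m x hx a, e ▸ m y hy b⟩) (no x hx a)
  · rintro _ ⟨x, hx, rfl⟩
    by_cases a : x ∈ K.sk 1
    · exact h.gV ⟨x, a, (g1 a).symm⟩
    · exact (p _ (two x hx a)).2.1 (m x hx a)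

theorem fill3X (h : Pre K f g D R) (hW : Rgn K f D R W col m) :
    ∃ G, InjOn G Ω ∧ LTP Ω G ∧ G '' Ω ⊆ f '' Ω ∧ EqOn G g (K.sk 1) ∧
      (∀ σ ∈ R, σ ∈ K.cells → EqOn G g (closure σ)) ∧ (∀ c ∈ K.cel 2, G '' closure c ⊆ W c) ∧
      ∀ P ∈ K.cel 3, ∀ Z, Convex ℝ Z → G '' rb P ⊆ Z → G '' closure P ⊆ Z := by
  obtain ⟨H, p1, p2, p3, p4, p5, p6⟩ := fill_twoX h hW
  have sk : ∀ a ∈ K.cel 3, rb a ⊆ K.sk 2 := fun a ha => rb_sk ha.1 ha.2.le
  have : ∀ P ∈ K.cel 3, ∃ Φ, LH Φ ∧ EqOn Φ H (rb P) ∧ (P ∈ R → EqOn Φ g (closure P)) :=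
    fun P hP => by
    by_cases k : P ∈ R
    · obtain ⟨⟨u, u1, u2⟩, a⟩ := h.r3 P k hP
      refine ⟨u, u1, fun x hx => (u2 hx.1).symm.trans (Eq.symm ?_), fun _ => u2.symm⟩
      have b := sk P hP hx
      have c := K.cell_mem b.1
      rcases b.2.eq_or_lt with e | e
      · exact p5 _ (a _ ⟨c, e⟩ (Kx.front c hP.1 ⟨x, K.mem x b.1, hx.1⟩)) ⟨c, e⟩
          (subset_closure (K.mem x b.1))
      · exact p4 ⟨b.1, by omega⟩
    · obtain ⟨u, u1, u2⟩ := glue_sk p1 (Kx.cells_poly hP.1).1 (Kx.cl_sub hP.1)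
      have u3 : EqOn H u (rb P) := fun z hz => u2 ⟨sk P hP hz, hz.1⟩
      obtain ⟨Φ, v1, v2⟩ := fill_emb (Kx.ball hP) u1 ((p2.mono (sk P hP)).congr u3)
      exact ⟨Φ, v1, v2.trans u3.symm, fun k' => absurd k' k⟩
  choose! Φ q1 q2 q3 using this
  let G : Rn 3 → Rn 3 := fun x => if dm (K.cell x) ≤ 2 then H x else Φ (K.cell x) x
  have g1 : EqOn G H (K.sk 2) := fun x hx => if_pos hx.2
  have g2 : ∀ c ∈ K.cel 3, EqOn G (Φ c) (closure c) := fun c hc x hx => by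
    by_cases k : x ∈ c
    · simp only [G, Kx.cell_eq hc.1 k, hc.2]
      rfl
    · exact (g1 (sk c hc ⟨hx, k⟩)).trans (q2 c hc ⟨hx, k⟩).symm
  have bl : ∀ P ∈ K.cel 3, Ball (Φ P '' closure P) (H '' rb P) := fun P hP =>
    (q2 P hP).image_eq ▸ (Kx.ball hP).image (q1 P hP)
  have out := fun P hP => fill_out h.opn h.cont h.inj p1 p2 p3 (h.anc.subset fun P hP =>
    ⟨hP.1, fun ⟨x, a, b⟩ => hP.2 ⟨x, ⟨a.1, Kx.sk_mono one_le_two a.2⟩, p4 a.2 ▸ b⟩⟩) hP (bl P hP)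
  have top : ∀ x ∈ Ω, x ∉ K.sk 2 → K.cell x ∈ K.cel 3 := fun x hx k =>
    ⟨K.cell_mem hx, le_antisymm (dm_le _) (not_le.1 fun q => k ⟨hx, q⟩)⟩
  have m : ∀ x ∈ Ω, x ∉ K.sk 2 → G x ∈ Φ (K.cell x) '' closure (K.cell x) \ H '' rb (K.cell x) :=
    fun x hx k => by
    have c := top x hx k
    have b := subset_closure (K.mem x hx)
    rw [g2 _ c b, ← (q2 _ c).image_eq]
    exact ⟨⟨x, b, rfl⟩, fun ⟨y, hy, e⟩ => hy.2 ((q1 _ c).inj e ▸ K.mem x hx)⟩
  have tp : ∀ σ ∈ K.cells, ∃ u, TP u ∧ EqOn G u (closure σ) := fun σ hσ => by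
    rcases (dm_le σ).eq_or_lt with e | e
    · exact ⟨_, (q1 σ ⟨hσ, e⟩).tp, g2 σ ⟨hσ, e⟩⟩
    · obtain ⟨u, u1, u2⟩ := p1 σ hσ (by omega)
      exact ⟨u, u1, (g1.mono (Kx.cl_sub_sk hσ (by omega))).trans u2⟩
  have e1 := (g1.mono (Kx.sk_mono one_le_two)).trans p4
  refine ⟨G, fun x hx y hy e => ?_, Kx.ltp_of_cells tp, ?_, e1, fun σ k hσ => ?_,
    fun c hc => (g1.mono (Kx.cl_sub_sk hc.1 hc.2.le)).image_eq ▸ p6 c hc, fun P hP Z cz hz =>
    (g2 P hP).image_eq ▸ (bl P hP).sub_convex (by omega) cz ((g1.mono (sk P hP)).image_eq ▸ hz)⟩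
  · by_cases a : x ∈ K.sk 2 <;> by_cases b : y ∈ K.sk 2
    · exact p2 a b ((g1 a).symm.trans (e.trans (g1 b)))
    · exact absurd (g1 a ▸ e ▸ m y hy b) ((out _ (top y hy b)).2 x a)
    · exact absurd (g1 b ▸ e ▸ m x hx a) ((out _ (top x hx a)).2 y b)
    have c := top x hx a
    have c' := top y hy b
    by_cases ne : K.cell x = K.cell y
    · exact (q1 _ c).inj ((g2 _ c (subset_closure (K.mem x hx))).symm.trans
        (e.trans (g2 _ c (ne ▸ subset_closure (K.mem y hy)))))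
    have s := ((bl _ c').side (bl _ c).conn_in (disjoint_left.2 (by
      rintro _ k ⟨z, hz, rfl⟩
      exact (out _ c).2 z (sk _ c' hz) k))).resolve_right fun k =>
        disjoint_left.1 k (m x hx a) (e ▸ (m y hy b).1)
    have s' := (bl _ c).closure_in ▸ closure_minimal (s.trans sdiff_subset) (bl _ c').poly.1.isClosed
    have := (Kx.ball c).sub_convex (by omega) (Kx.cells_cvx c'.1).closure fun z hz => by
      obtain ⟨w, hw, k⟩ := not_not.1 fun k => (out _ c').2 z (sk _ c hz)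
        ⟨s' ((bl _ c).sub ⟨z, hz, rfl⟩), k⟩
      exact p2 (sk _ c' hw) (sk _ c hz) k ▸ hw.1
    exact absurd (this (subset_closure (K.mem x hx)))
      (disjoint_left.1 (not_cl c.1 c'.1 ne (c'.2.trans c.2.symm).le) (K.mem x hx))
  · rintro _ ⟨x, hx, rfl⟩
    by_cases a : x ∈ K.sk 2
    · exact p3 ⟨x, a, (g1 a).symm⟩
    · exact (out _ (top x hx a)).1 (m x hx a).1
  · rcases (dm_le σ).eq_or_lt with e | e
    · exact (g2 σ ⟨hσ, e⟩).trans (q3 σ ⟨hσ, e⟩ k)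
    · rcases (Nat.le_of_lt_succ e).eq_or_lt with e | e
      · exact (g1.mono (Kx.cl_sub_sk hσ e.le)).trans (p5 σ k ⟨hσ, e⟩)
      · exact e1.mono (Kx.cl_sub_sk hσ (by omega))

end BEp
end
end

-- merged part: Pool.Agent.Work.MP_f0515e_an.D3.XFillS
section
/-! EXPORT: the filling theorem with a uniform estimate in terms of a scale in the target. -/

open Set Metric Filter Topology Function BEv
open scoped NNReal

noncomputable section
namespace BEp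

variable {Ω : Set (Rn 3)} {K : Kx Ω} {f g φ : Rn 3 → Rn 3} {D : Set (Rn 3) → Set (Rn 3)}
  {R : Set (Set (Rn 3))} {s : Rn 3 → ℝ}

theorem fill3S (h : Pre K f g D R) (hc : ContinuousOn φ Ω) (hi : InjOn φ Ω)
    (im : f '' Ω = φ '' Ω) (hs : Scl (φ '' Ω) s (10 ^ 10))
    (sm : ∀ P ∈ K.cel 3, ∀ x ∈ closure P, ∀ x' ∈ closure P, ‖φ x - φ x'‖ ≤ s (φ x))
    (hD : ∀ c ∈ K.cel 2, ∃ x ∈ closure c, D c ⊆ ball (φ x) (s (φ x))) :
    ∃ G, InjOn G Ω ∧ LTP Ω G ∧ G '' Ω ⊆ f '' Ω ∧ EqOn G g (K.sk 1) ∧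
      (∀ σ ∈ R, σ ∈ K.cells → EqOn G g (closure σ)) ∧
      ∀ x ∈ Ω, ‖G x - φ x‖ ≤ 5 * 10 ^ 9 * s (φ x) := by
  choose! y y1 y2 using hD
  have yΩ : ∀ c ∈ K.cel 2, y c ∈ Ω := fun c k => Kx.cl_sub k.1 (y1 c k)
  obtain ⟨W, col, m, w1, w2⟩ := rgn_exists (K := K) (D := D) (im.symm ▸ hs) R
    (y := fun c => φ (y c)) (fun c k => im.symm ▸ mem_image_of_mem φ (yΩ c k)) y2
    (fun C c1 c2 => by
      obtain ⟨C', d1, d2, d3⟩ := cpt_pre h.opn hc hi c1 (im ▸ c2)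
      refine (Kx.lf_cl (K := K) h.opn d1 d2).subset fun c k => ⟨k.1.1, y c, y1 c k.1, ?_⟩
      obtain ⟨z, hz, e⟩ := d3 k.2
      exact hi (d2 hz) (yΩ c k.1) e ▸ hz)
  obtain ⟨G, g1, g2, g3, g4, g5, g6, g7⟩ := fill3X h w1
  refine ⟨G, g1, g2, g3, g4, g5, fun x hx => ?_⟩
  obtain ⟨P, hP, a⟩ := K.exists_top h.opn hx
  refine mem_closedBall_iff_norm.1 (g7 P hP _ (convex_closedBall (φ x) _) ?_
    (mem_image_of_mem G a))
  rintro _ ⟨z, hz, rfl⟩
  obtain ⟨c, c1, c2, c3, c4⟩ := Kx.exists_facet hP.1 hz.1 hz.2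
  have k : c ∈ K.cel 2 := ⟨c1, by have := hP.2; omega⟩
  have b1 := mem_ball_iff_norm.1 (w2 c k (g6 c k (mem_image_of_mem G c4)))
  have b2 := sm P hP x a (y c) (closure_minimal c3 isClosed_closure (y1 c k))
  have b3 := (hs.le zero_le_one (by norm_num) (mem_image_of_mem φ hx)
    (b2.trans_eq (one_mul _).symm)).2
  have b4 := norm_sub_le_norm_sub_add_norm_sub (G z) (φ (y c)) (φ x)
  have b5 := hs.pos _ (mem_image_of_mem φ hx)
  rw [norm_sub_rev (φ (y c))] at b4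
  rw [mem_closedBall_iff_norm]
  linarith

end BEp
end
end

-- merged part: Pool.Agent.Work.MP_f0515e_an.D3.XPre
section
/-! Small spanning discs for all faces, measured by a slowly varying scale on the target. -/

open Set Metric Filter Topology Function BEv
open scoped NNReal ENNReal

noncomputable section
namespace BEp

variable {Ω : Set (Rn 3)} {ι : Type} {K : Kx Ω} {f : Rn 3 → Rn 3} {d : TopD ι} {D : GlD Ω}
  {g2 g0 : Rn 3 → Rn 3} {b : BdD} {s : Rn 3 → ℝ} {lam : ℝ}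

/-- Cells, tolerances and rigid boxes are small at the scale `s`. -/
structure Sml (K : Kx Ω) (f : Rn 3 → Rn 3) (d : TopD ι) (s : Rn 3 → ℝ) : Prop where
  cell : ∀ x ∈ Ω, ∀ y ∈ closure (K.cell x), ‖f y - f x‖ ≤ s (f x)
  th : ∀ x ∈ K.sk 1, d.θ (K.cell x) ≤ s (f x)
  rig : ∀ i, ∀ x ∈ (d.B i).Q d.s 12, 17 * d.s * ‖(d.B i).A‖ ≤ s ((d.B i).aff x)

/-- The same, but the cells of dimension three may be large. -/
structure Sml2 (K : Kx Ω) (f : Rn 3 → Rn 3) (d : TopD ι) (s : Rn 3 → ℝ) : Prop where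
  cell : ∀ x ∈ K.sk 2, ∀ y ∈ closure (K.cell x), ‖f y - f x‖ ≤ s (f x)
  th : ∀ x ∈ K.sk 1, d.θ (K.cell x) ≤ s (f x)
  rig : ∀ i, ∀ x ∈ (d.B i).Q d.s 12, 17 * d.s * ‖(d.B i).A‖ ≤ s ((d.B i).aff x)

theorem Sml.two (hs : Sml K f d s) : Sml2 K f d s := ⟨fun x hx => hs.cell x hx.1, hs.th, hs.rig⟩

theorem Sml2.loc (hs : Sml2 K f d s) (h : TopIn K f d) {i : ι} {x y : Rn 3}
    (hx : x ∈ (d.B i).Q d.s 12) (hy : ‖y - x‖ ≤ 16 * d.s) :
    ‖(d.B i).aff y - (d.B i).aff x‖ + d.ε i ≤ s ((d.B i).aff x) := by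
  have e : (d.B i).aff y - (d.B i).aff x = (d.B i).A (y - x) := by
    simp only [Box.aff, map_sub]
    abel
  have k1 := ((d.B i).A.le_opNorm (y - x)).trans
    (mul_le_mul_of_nonneg_left hy (norm_nonneg (d.B i).A))
  rw [e]
  linarith [hs.rig i x hx, SR1_mu h i, (h.ε0 i).1]

theorem xp_cell (h : TopIn K f d) {i : ι} {x y : Rn 3} (hx : x ∈ (d.B i).Q d.s 24)
    (hy : y ∈ closure (K.cell x)) : ‖y - x‖ ≤ 16 * d.s := by
  have hs := h.s0
  rw [← mem_closedBall_iff_norm]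
  refine closure_minimal (fun z hz => ?_) isClosed_closedBall hy
  rw [h.grid i x hx] at hz
  rw [mem_closedBall_iff_norm, pi_norm_le_iff_of_nonneg (by positivity)]
  intro l
  rw [Pi.sub_apply, Real.norm_eq_abs]
  by_cases hl : l ∈ (d.B i).I
  · have k := Int.abs_sub_lt_one_of_floor_eq_floor (hz.2 l hl).1
    have e : ((z l - (d.B i).c l) / d.s - ((d.B i).r + 8)) / 16 -
        ((x l - (d.B i).c l) / d.s - ((d.B i).r + 8)) / 16 = (z l - x l) / (16 * d.s) := by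
      field_simp
      ring
    rw [e, abs_div, abs_of_pos (by positivity : 0 < 16 * d.s), div_lt_one (by positivity)] at k
    exact k.le
  · rw [hz.1 l hl, hx.1 l hl, sub_self, abs_zero]
    positivity

theorem Scl.two {V : Set (Rn 3)} (h : Scl V s lam) (hl : 200 ≤ lam) {y z : Rn 3} (hy : y ∈ V)
    (_hz : z ∈ V) (e : ‖z - y‖ ≤ 100 * s y) : s z ≤ 2 * s y ∧ s y ≤ 2 * s z := by
  have k := h.lip z y
  have p := h.pos y hy
  have k1 : 200 * |s z - s y| ≤ 100 * s y :=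
    (mul_le_mul_of_nonneg_right hl (abs_nonneg _)).trans (k.trans e)
  have k2 := le_abs_self (s z - s y)
  have k3 := neg_abs_le (s z - s y)
  constructor <;> linarith

theorem xp_aff (h : TopIn K f d) {i : ι} {x : Rn 3} (hx : x ∈ (d.B i).Q d.s 12) :
    (d.B i).aff x ∈ f '' Ω := h.rsub i x hx (mem_closedBall_self (by linarith [(h.ε0 i).1]))

theorem xp_eps (h : TopIn K f d) (hs : Sml2 K f d s) {i : ι} {x : Rn 3}
    (hx : x ∈ (d.B i).Q d.s 12) : d.ε i ≤ s ((d.B i).aff x) := by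
  have := hs.loc h hx (y := x) (by rw [sub_self, norm_zero]; linarith [h.s0])
  rwa [sub_self, norm_zero, zero_add] at this

/-- On the skeleton of a rigid box the affine map is close to `f`. -/
theorem xp_sk (h : TopIn K f d) (hw : Scl (f '' Ω) s lam) (hl : 200 ≤ lam) (hs : Sml2 K f d s)
    {i : ι} {x : Rn 3} (hx : x ∈ (d.B i).Q d.s 12) (hk : x ∈ K.sk 1) :
    ‖(d.B i).aff x - f x‖ ≤ s ((d.B i).aff x) ∧ s ((d.B i).aff x) ≤ 2 * s (f x) := by
  have k1 := h.close i x ⟨hk, Box.Q_mono h.s0 (by norm_num) hx⟩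
  have k2 := xp_eps h hs hx
  have k3 : d.ε' i ≤ d.ε i := by linarith [(rig_small h i).2.2.2.2.1, (h.ε0 i).2]
  have k4 := hw.pos _ (xp_aff h hx)
  refine ⟨by rw [norm_sub_rev]; linarith,
    (hw.two hl (xp_aff h hx) (mem_image_of_mem f hk.1) (by linarith)).2⟩

theorem xp_box (h : GS K f d D) (hs : Sml2 K f d s) {v : Rn 3} (hv : v ∈ D.Th) :
    v ∈ Ω ∧ ∀ z ∈ Icc (D.lo v) (D.hi v), ‖z - f v‖ ≤ s (f v) := by
  obtain ⟨σ, hl⟩ := GBd_ex h.top.opn hv.1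
  obtain ⟨k1, k2⟩ := (h.size hv hl).2 v (left_mem_segment ℝ _ _)
  have k3 : v ∈ K.sk 1 := h.alt.sk ▸ Kx.mem_sk_one.2 (.inl hv.1)
  exact ⟨hv.1.1, fun z hz => (k2 z hz).trans (k1.trans (hs.th v k3))⟩

theorem xp_mv (h : GB K f d D g2 b g0) (hX : FatX f D.g Ω d D.t)
    (h2 : ∀ x, g2 x = D.g x ∨ ∃ v ∈ D.Th, D.g x ∈ Icc (D.lo v) (D.hi v) ∧
      g2 x ∈ Icc (D.lo v) (D.hi v)) (hw : Scl (f '' Ω) s lam) (hl : 200 ≤ lam)
    (hs : Sml2 K f d s) {x : Rn 3} (hx : x ∈ Ω) : ‖g2 x - f x‖ ≤ 12 * s (f x) := by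
  have T := h.gs.top
  have fx := mem_image_of_mem f hx
  have p := hw.pos _ fx
  have gx : D.g x ∈ f '' Ω := h.gs.gim ▸ mem_image_of_mem _ hx
  have a1 : ‖D.g x - f x‖ ≤ 4 * s (f x) := by
    rcases hX.mv x hx with e | ⟨i, y, hy, k1, k2⟩
    · rw [e, sub_self, norm_zero]
      linarith
    · have hy' : y ∈ (d.B i).Q d.s 12 := Box.Q_mono T.s0 (by norm_num) hy
      have k3 := xp_eps T hs hy'
      have k4 := hw.pos _ (xp_aff T hy')
      have k5 := (hw.two hl (xp_aff T hy') fx (by linarith)).2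
      have k6 := norm_sub_le_norm_sub_add_norm_sub (D.g x) ((d.B i).aff y) (f x)
      rw [norm_sub_rev ((d.B i).aff y)] at k6
      linarith
  have a2 : ‖g2 x - D.g x‖ ≤ 8 * s (f x) := by
    rcases h2 x with e | ⟨v, hv, k1, k2⟩
    · rw [e, sub_self, norm_zero]
      linarith
    · obtain ⟨vΩ, k⟩ := xp_box h.gs hs hv
      have fv := mem_image_of_mem f vΩ
      have k3 := hw.pos _ fv
      have k4 := (hw.two hl fv gx (by linarith [k _ k1])).2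
      have k5 := (hw.two hl fx gx (by linarith)).1
      have k6 := norm_sub_le_norm_sub_add_norm_sub (g2 x) (f v) (D.g x)
      rw [norm_sub_rev (f v)] at k6
      linarith [k _ k1, k _ k2]
  linarith [norm_sub_le_norm_sub_add_norm_sub (g2 x) (D.g x) (f x)]

theorem xp_bead (h : GB K f d D g2 b g0) (hX : FatX f D.g Ω d D.t)
    (h3 : ∀ v ∈ D.Th, b.B v ⊆ Icc (D.lo v) (D.hi v)) (hw : Scl (f '' Ω) s lam) (hl : 200 ≤ lam)
    (hs : Sml2 K f d s) {v : Rn 3} (hv : D.K2.Vx v) {z : Rn 3} (hz : z ∈ b.B v) :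
    ‖z - f v‖ ≤ 4 * s (f v) := by
  have T := h.gs.top
  have p := hw.pos _ (mem_image_of_mem f hv.1)
  have k3 : v ∈ K.sk 1 := h.gs.alt.sk ▸ Kx.mem_sk_one.2 (.inl hv)
  by_cases e : v ∈ D.Th
  · linarith [(xp_box h.gs hs e).2 z (h3 v e hz)]
  have hz' : z ∈ D.t.B v := by rwa [FatD.B, ← h.fat v e]
  rcases hX.loc v (GK3_cn hv e) with ⟨i, hi, k⟩ | ⟨c, hc, rfl, k⟩
  · obtain ⟨x, -, hx, k1⟩ := k z hz'
    have hi' : v ∈ (d.B i).Q d.s 12 := Box.Q_mono T.s0 (by norm_num) hi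
    obtain ⟨k4, k5⟩ := xp_sk T hw hl hs hi' k3
    linarith [hs.loc T hi' hx, norm_sub_le_norm_sub_add_norm_sub z ((d.B i).aff x) (f v),
      norm_sub_le_norm_sub_add_norm_sub ((d.B i).aff x) ((d.B i).aff v) (f v)]
  · obtain ⟨he, -, -, k1, k2⟩ := T.cedge c hc
    have k4 := hs.th _ k3
    rw [(gf2_nv he (gf2_mid _ _)).1] at k4
    have k5 := k2 _ (midpoint_mem_segment c.a c.b)
    have k6 := norm_sub_le_norm_sub_add_norm_sub z (f c.a) (f (midpoint ℝ c.a c.b))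
    rw [norm_sub_rev (f c.a)] at k6
    linarith [(k.subset hz').2.2]

theorem xp_disc (h : GB K f d D g2 b g0) (hX : FatX f D.g Ω d D.t)
    (h2 : ∀ x, g2 x = D.g x ∨ ∃ v ∈ D.Th, D.g x ∈ Icc (D.lo v) (D.hi v) ∧
      g2 x ∈ Icc (D.lo v) (D.hi v)) (h3 : ∀ v ∈ D.Th, b.B v ⊆ Icc (D.lo v) (D.hi v))
    (hw : Scl (f '' Ω) s lam) (hl : 200 ≤ lam) (hs : Sml2 K f d s) {g1 : Rn 3 → Rn 3}
    (h1 : G1 K f d g0 g1) {c : Set (Rn 3)} (hc : c ∈ K.cel 2) {o : Rn 3} (ho : o ∈ c) :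
    ∃ E, PDsc E (g1 '' rb c) ∧ E ⊆ g2 '' Ω ∧ E ∩ g1 '' K.sk 1 ⊆ g1 '' rb c ∧
      (∀ i, closure c ⊆ (d.B i).Q d.s 8 → E = g1 '' closure c) ∧
      E ⊆ ball (f o) (100 * s (f o)) := by
  have T := h.gs.top
  have oΩ := Kx.cells_sub hc.1 ho
  have fo := mem_image_of_mem f oΩ
  have p := hw.pos _ fo
  have cl : ∀ x ∈ closure c, ‖f x - f o‖ ≤ s (f o) ∧ s (f x) ≤ 2 * s (f o) := fun x hx => by
    have k := hs.cell o (Kx.cl_sub_sk hc.1 hc.2.le (subset_closure ho)) x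
      ((Kx.cell_eq hc.1 ho).symm ▸ hx)
    exact ⟨k, (hw.two hl fo (mem_image_of_mem f (Kx.cl_sub hc.1 hx)) (by linarith)).1⟩
  by_cases hr : ∃ i, closure c ⊆ (d.B i).Q d.s 8
  · obtain ⟨i, hi⟩ := hr
    obtain ⟨E, e1, e2, e3, e4⟩ := GPre_disc h h1 hc
    refine ⟨E, e1, e2, e3, e4, ?_⟩
    rw [e4 i hi]
    rintro _ ⟨x, hx, rfl⟩
    obtain ⟨y, hy, -⟩ := Kx.radial hc.1 (by rw [hc.2]; norm_num) ho (subset_closure ho)
    have Q : (d.B i).Q d.s 8 ⊆ (d.B i).Q d.s 12 := Box.Q_mono T.s0 (by norm_num)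
    obtain ⟨k1, k2⟩ := xp_sk T hw hl hs (Q (hi hy.1)) (Kx.rb_sub_sk hc.1 hc.2.le hy)
    obtain ⟨k3, k4⟩ := cl y hy.1
    have oQ := hi (subset_closure ho)
    have lc : ∀ z ∈ closure c, ‖(d.B i).aff z - (d.B i).aff o‖ ≤ s ((d.B i).aff o) := fun z hz => by
      linarith [hs.loc T (Q oQ) (xp_cell T (Box.Q_mono T.s0 (by norm_num) oQ)
        ((Kx.cell_eq hc.1 ho).symm ▸ hz)), (T.ε0 i).1]
    have k5 := hw.pos _ (xp_aff T (Q oQ))
    have k6 := (hw.two hl (xp_aff T (Q oQ)) (xp_aff T (Q (hi hy.1)))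
      (by linarith [lc y hy.1])).2
    have k7 := norm_sub_le_norm_sub_add_norm_sub ((d.B i).aff x) ((d.B i).aff o) ((d.B i).aff y)
    rw [norm_sub_rev ((d.B i).aff o)] at k7
    rw [h1.rig i (hi hx), mem_ball_iff_norm]
    linarith [lc x hx, lc y hy.1,
      norm_sub_le_norm_sub_add_norm_sub ((d.B i).aff x) ((d.B i).aff y) (f o),
      norm_sub_le_norm_sub_add_norm_sub ((d.B i).aff y) (f y) (f o)]
  · obtain ⟨E, k1, k2, k3⟩ := facesX (g := g0) T.opn h.c2 h.i2 h.bead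
      (fun v σ hl => (h.bead.g0_leg h.cone hl).1) ((h.gs.alt.cel le_rfl).symm ▸ hc)
      (W0 := ball (f o) (40 * s (f o))) (W1 := ball (f o) (100 * s (f o))) isOpen_ball isOpen_ball
      (ball_subset_ball (by linarith)) (by
        rintro _ ⟨x, hx, rfl⟩
        obtain ⟨k3, k4⟩ := cl x (subset_closure hx)
        rw [mem_ball_iff_norm]
        linarith [xp_mv h hX h2 hw hl hs (Kx.cells_sub hc.1 hx),
          norm_sub_le_norm_sub_add_norm_sub (g2 x) (f x) (f o)])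
      (fun v hv k z hz => by
        obtain ⟨k3, k4⟩ := cl v k
        rw [mem_ball_iff_norm]
        linarith [xp_bead h hX h3 hw hl hs hv hz, norm_sub_le_norm_sub_add_norm_sub z (f v) (f o)])
      (fun w hv ⟨y, y1, y2⟩ z hz => by
        rw [mem_ball_iff_norm] at y2 ⊢
        have fw := mem_image_of_mem f hv.1
        have yV : y ∈ f '' Ω := h.im2 ▸ (h.bead.at hv).sub y1
        have a1 := xp_bead h hX h3 hw hl hs hv y1
        have a2 := xp_bead h hX h3 hw hl hs hv hz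
        have a3 := hw.pos _ fw
        have a4 := (hw.two hl fw yV (by linarith)).2
        have a5 := (hw.two hl fo yV (by linarith)).1
        have a6 := norm_sub_le_norm_sub_add_norm_sub z (f w) y
        rw [norm_sub_rev (f w)] at a6
        linarith [norm_sub_le_norm_sub_add_norm_sub z y (f o)])
    rw [h.gs.alt.sk, ← h1.sk, ← h1.rb c hc] at k3
    rw [← h1.rb c hc] at k1
    exact ⟨E, k1, k2.trans inter_subset_left, k3, fun i hi => (hr ⟨i, hi⟩).elim,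
      k2.trans inter_subset_right⟩

theorem xp_pre [Finite ι] (h : GB K f d D g2 b g0) (hX : FatX f D.g Ω d D.t)
    (h2 : ∀ x, g2 x = D.g x ∨ ∃ v ∈ D.Th, D.g x ∈ Icc (D.lo v) (D.hi v) ∧
      g2 x ∈ Icc (D.lo v) (D.hi v)) (h3 : ∀ v ∈ D.Th, b.B v ⊆ Icc (D.lo v) (D.hi v))
    (hw : Scl (f '' Ω) s lam) (hl : 200 ≤ lam) (hs : Sml2 K f d s) {g1 : Rn 3 → Rn 3}
    (h1 : G1 K f d g0 g1) {o : Set (Rn 3) → Rn 3} (ho : ∀ c ∈ K.cel 2, o c ∈ c) :
    ∃ Dd, Pre K g2 g1 Dd {σ | σ ∈ K.cells ∧ ∃ i, closure σ ⊆ (d.B i).Q d.s 8} ∧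
      ∀ c ∈ K.cel 2, Dd c ⊆ ball (f (o c)) (100 * s (f (o c))) := by
  have T := h.gs.top
  choose! E e1 e2 e3 e4 e5 using fun c (hc : c ∈ K.cel 2) =>
    xp_disc h hX h2 h3 hw hl hs h1 hc (ho c hc)
  refine ⟨E, ⟨T.opn, h.c2, h.i2, h1.tp, h1.inj, ?_, fun C hC hs => ?_, e1, e2, e3, ?_, ?_, ?_,
    ?_, ?_⟩, e5⟩
  · rw [h1.sk, h.im2]
    exact h.gV0
  · refine (h.glf0 hC (h.im2 ▸ hs)).subset ?_
    rintro e ⟨k1, k2, k3⟩
    exact ⟨k1, k2, h1.cl e k1 k2 ▸ k3⟩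
  · refine (finite_iUnion fun i => Kx.cover (K := K) (GTh_Q (d.B i) d.s 8)
      (SR1_in T (by norm_num))).subset ?_
    rintro σ ⟨k1, i, k2⟩
    obtain ⟨x, hx⟩ := Kx.cells_ne k1
    exact mem_iUnion.2 ⟨i, k1, x, hx, k2 (subset_closure hx)⟩
  · rintro c ⟨-, i, hi⟩ hc
    obtain ⟨u, hu, e⟩ := GPre_lh T h1 i
    exact ⟨e4 c hc i hi, fun x hx y hy k => GPre_inj T h1 (hi hx) (hi hy) k, u, hu.tp, e.mono hi⟩
  · rintro c ⟨-, i, hi⟩ hc c' ⟨-, j, hj⟩ hc' hne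
    rw [e4 c hc i hi, e4 c' hc' j hj]
    rintro _ ⟨⟨x, hx, rfl⟩, y, hy, k⟩
    obtain rfl : y = x := GPre_inj T h1 (hj hy) (hi hx) k
    exact ⟨y, Kx.rb_sub_sk hc.1 hc.2.le ((Kx.cl_inter hc hc' hne).subset ⟨hx, hy⟩).1, rfl⟩
  · rintro P ⟨-, i, hi⟩ -
    obtain ⟨u, hu, e⟩ := GPre_lh T h1 i
    exact ⟨⟨u, hu, e.mono hi⟩, fun c hc k =>
      ⟨hc.1, i, (closure_minimal k isClosed_closure).trans hi⟩⟩
  · refine finite_empty.subset ?_
    rintro P ⟨hP, k⟩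
    obtain ⟨e, k1, k2, k3, x, hx, k4⟩ := h.anc0 hP
    obtain ⟨y, hy, k5⟩ := (h1.cl e k1 k2).symm.subset (mem_image_of_mem g0 hx)
    exact k ⟨y, ⟨k3 hy, Kx.cl_sub_sk k1 k2 hy⟩, x, k3 hx, (k5.trans k4).symm⟩

end BEp
end
end

-- merged part: Pool.Agent.Work.MP_f0515e_an.D3.XTop2
section
/-! EXPORT: the topological theorem in dimension three with a uniform bound on the two skeleton;
the cells of dimension three may be large. -/

open Set Metric Filter Topology Function BEv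
open scoped NNReal ENNReal

noncomputable section
namespace BEp

variable {Ω : Set (Rn 3)} {K : Kx Ω} {f : Rn 3 → Rn 3} {ι : Type} {d : TopD ι} {s : Rn 3 → ℝ}

theorem xt_face (hΩ : IsOpen Ω) {x : Rn 3} (hx : x ∈ K.sk 2) : ∃ c ∈ K.cel 2, x ∈ closure c := by
  obtain ⟨P, hP, a⟩ := K.exists_top hΩ hx.1
  obtain ⟨c, c1, c2, -, c4⟩ := Kx.exists_facet hP.1 a fun k => by
    have k1 := hx.2
    rw [Kx.cell_eq hP.1 k, hP.2] at k1
    omega
  exact ⟨c, ⟨c1, by have := hP.2; omega⟩, c4⟩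

theorem topGX2 [Finite ι] (h : TopIn K f d) (hw : Scl (f '' Ω) s (10 ^ 12)) (hs : Sml2 K f d s) :
    ∃ G, TopOut K f d 30 G ∧ G '' Ω ⊆ f '' Ω ∧
      (∀ x ∈ K.sk 2, ‖G x - f x‖ ≤ 5 * 10 ^ 11 * s (f x)) ∧
      ∀ P ∈ K.cel 3, ∀ Z, Convex ℝ Z → G '' rb P ⊆ Z → G '' closure P ⊆ Z := by
  obtain ⟨D, g2, b, g0, hb, hX, h2, h3⟩ := xg_gb h
  obtain ⟨g1, h1⟩ := hb.g1_exists
  choose! o ho using fun c (hc : c ∈ K.cel 2) => Kx.cells_ne hc.1
  have hl : (200 : ℝ) ≤ 10 ^ 12 := by norm_num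
  obtain ⟨Dd, hp, hD⟩ := xp_pre hb hX h2 h3 hw hl hs h1 ho
  have oΩ : ∀ c ∈ K.cel 2, o c ∈ Ω := fun c k => Kx.cells_sub k.1 (ho c k)
  obtain ⟨W, col, m, w1, w2⟩ := rgn_exists (K := K) (D := Dd) (f := g2) (s := fun y => 100 * s y)
    (hb.im2.symm ▸ (hw.smul (by norm_num)).mono (by norm_num))
    {σ | σ ∈ K.cells ∧ ∃ i, closure σ ⊆ (d.B i).Q d.s 8}
    (y := fun c => f (o c)) (fun c k => hb.im2.symm ▸ mem_image_of_mem f (oΩ c k)) hD
    (fun C c1 c2 => by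
      obtain ⟨C', d1, d2, d3⟩ := cpt_pre h.opn h.cont h.inj c1 (hb.im2 ▸ c2)
      refine (Kx.lf_cl (K := K) h.opn d1 d2).subset fun c k =>
        ⟨k.1.1, o c, subset_closure (ho c k.1), ?_⟩
      obtain ⟨z, hz, e⟩ := d3 k.2
      exact h.inj (d2 hz) (oΩ c k.1) e ▸ hz)
  obtain ⟨G, k1, k2, k3, k4, k5, k6, k7⟩ := fill3X hp w1
  refine ⟨G, ⟨k1, k2, fun i x hx => ?_, fun c hc t ht => ?_, fun p q he n1 n2 y hy y' hy' => ?_,
    fun y hy => ?_⟩, hb.im2 ▸ k3, fun x hx => ?_, k7⟩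
  · have hxΩ : x ∈ Ω := h.QS i (Box.Q_mono h.s0 (by norm_num) hx)
    rw [k5 _ ⟨K.cell_mem hxΩ, i, gf2_cl h hx⟩ (K.cell_mem hxΩ) (subset_closure (K.mem x hxΩ))]
    exact h1.rig i hx
  · rw [k4 ((h.cedge c hc).1.seg_sub (seg_image c.a c.b ▸ mem_image_of_mem _ ht))]
    exact h1.chord c hc t ht
  · rw [k4 (he.seg_sub hy), k4 (he.seg_sub hy')]
    exact h1.speed p q he ⟨⟨he.2, he.dm⟩, fun i k => n2 i (he.cl ▸ k), n1⟩ y hy y' hy'
  · rw [k4 hy]
    refine hb.sup0 hy _ ?_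
    rw [← h1.cl _ (K.cell_mem hy.1) hy.2]
    exact mem_image_of_mem _ (subset_closure (K.mem y hy.1))
  · obtain ⟨c, hc, hxc⟩ := xt_face h.opn hx
    have b1 := mem_ball_iff_norm.1 (w2 c hc (k6 c hc (mem_image_of_mem G hxc)))
    have b2 := hs.cell (o c) (Kx.cl_sub_sk hc.1 hc.2.le (subset_closure (ho c hc))) x
      ((Kx.cell_eq hc.1 (ho c hc)).symm ▸ hxc)
    have b3 := hw.pos _ (mem_image_of_mem f (oΩ c hc))
    have b4 := (hw.two hl (mem_image_of_mem f (oΩ c hc)) (mem_image_of_mem f hx.1) (by linarith)).2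
    have b5 := norm_sub_le_norm_sub_add_norm_sub (G x) (f (o c)) (f x)
    rw [norm_sub_rev (f (o c))] at b5
    linarith

end BEp
end
end

-- merged part: Pool.Agent.Work.MP_f0515e_an.P3.AnX
section
/-! EXPORT: the topological theorem with the analysis on the edges and a uniform bound on the two
skeleton; scales with a lower bound. -/

open Set Metric Filter Topology Function BEv MeasureTheory
open scoped NNReal ENNReal

noncomputable section
namespace BEp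

variable {Ω : Set (Rn 3)} {K : Kx Ω} {f : Rn 3 → Rn 3} {D : Rn 3 → Rn 3 →L[ℝ] Rn 3} {p : ℝ}
  {Ec : Set (Set (Rn 3))} {ν : Measure (Rn 3)} {ι : Type} {Bx : ι → Box 1} {s : ℝ} {ε ε' : ι → ℝ}
  {θ : Set (Rn 3) → ℝ} {b0 : Set (Rn 3) → Rn 3 → ℝ} {e : ℝ≥0∞}

/-- Reduction of the analytic statement to the topological one on a subdivision of the edges. -/
theorem an_red [Finite ι] {C0 : ℝ} (hC : 1 ≤ C0) (hp : 1 ≤ p) (hA : AnIn K f D p Ec ν)
    (hR : RigIn K f Bx s ε ε') (hQ : ∀ σ ∈ Ec, ∀ i, Disjoint σ ((Bx i).Q s 24))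
    (hθ : ∀ σ, 0 < θ σ) (hb : BeOk K b0) (he : e ≠ 0) :
    ∃ (K' : Kx Ω) (V θ' : Set (Rn 3) → ℝ) (be : Set (Rn 3) → Rn 3 → ℝ) (Ch : Set Chd),
      TopIn K' f ⟨V, θ', be, Ch, Bx, s, ε, ε'⟩ ∧ K.Ref K' ∧ K'.sk 1 = K.sk 1 ∧
      (∀ x ∈ Ω, x ∉ K.sk 1 → K'.cell x = K.cell x) ∧ (∀ y ∈ Ω, θ' (K'.cell y) ≤ θ (K.cell y)) ∧
      ∀ G, TopOut K' f ⟨V, θ', be, Ch, Bx, s, ε, ε'⟩ C0 G →
        AnOut K f D p Ec ν Bx s ε θ b0 C0 e G := by
  have hC0 : 0 ≤ C0 := by linarith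
  have := hA.fin.to_subtype
  have := Fintype.ofFinite Ec
  choose A B hE hσ using fun j : Ec => Kx.dm_one (hA.sub j.2).1 (hA.sub j.2).2
  have fam : OFam K Ec A B := ⟨hE, fun j => hσ j ▸ j.2,
    fun j j' k => Subtype.ext ((hσ j).trans (k.trans (hσ j').symm)), fun σ k => ⟨⟨σ, k⟩, hσ ⟨σ, k⟩⟩⟩
  have sub : ∀ j, openSegment ℝ (A j) (B j) ⊆ ⋃₀ Ec := fun j => subset_sUnion_of_mem (fam.mem j)
  choose mσ μ μ1 μ2 μ3 μ4 using fun j =>
    o_meas hA.acm (hE j).1 (ne_top_of_le_ne_top hA.νfin (measure_mono (sub j)))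
  have fin : ∀ x : ℝ, ENNReal.ofReal x ^ p ≠ ⊤ := fun x =>
    ENNReal.rpow_ne_top_of_nonneg (by linarith) ENNReal.ofReal_ne_top
  obtain ⟨e0, e1, e2⟩ := ENNReal.exists_nnreal_pos_mul_lt
    (a := ∑ j, ENNReal.ofReal ‖B j - A j‖⁻¹ ^ p) (ENNReal.sum_ne_top.2 fun j _ => fin _) he
  choose δ hδ hO using fun j => one_dim (g := fun t => f (seg (A j) (B j) t))
    (d := fun t => D (seg (A j) (B j) t) (B j - A j)) (ν := μ j) (μ2 j) (μ3 j)
    ((ContinuousLinearMap.apply ℝ (Rn 3) (B j - A j)).continuous.measurable.comp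
      (hA.meas.comp (tp_seg _ _).continuous.measurable))
    ((hA.ac _ _ (hE j) (fam.mem j)).1.apply_continuousLinearMap _)
    (fun t ht => by rw [o_0]; exact (hA.ac _ _ (hE j) (fam.mem j)).2 t ht) hp hC0 (by
      refine ne_top_of_le_ne_top (ENNReal.mul_ne_top (fin ‖B j - A j‖) hA.int) ?_
      refine le_trans ?_ (mul_le_mul_right (lintegral_mono_set (sub j)) _)
      rw [μ4, ← lintegral_const_mul' _ _ (fin _)]
      refine lintegral_mono fun t => ?_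
      rw [← ENNReal.mul_rpow_of_nonneg _ _ (by linarith), ofReal_norm, mul_comm]
      exact ENNReal.rpow_le_rpow (ContinuousLinearMap.le_opENorm _ _) (by linarith))
    (ENNReal.coe_ne_zero.2 e1.ne')
  choose R0 hR0 hG using fun j => o_geo hA.opn hA.cont hA.inj (hE j) (hδ j)
  obtain ⟨R, ⟨⟨r1, r2⟩, r3⟩, r0⟩ : ∃ R : ℝ, (((∀ j, R ≤ R0 j) ∧
      ∀ j, R ≤ θ (openSegment ℝ (A j) (B j))) ∧ ∀ i, R ≤ ε i) ∧ 0 < R :=
    (((((eventually_all.2 fun j => ge_mem_nhds (hR0 j)).and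
      (eventually_all.2 fun j => ge_mem_nhds (hθ _))).and
      (eventually_all.2 fun i => ge_mem_nhds (hR.ε0 i).1)).filter_mono nhdsWithin_le_nhds).and
      (self_mem_nhdsWithin (s := Ioi 0))).exists
  choose h h0 hg using fun j => hG j R r0 (r1 j)
  choose C U F P φ O using fun j => hO j (h j) (h0 j)
  obtain ⟨K', S⟩ := o_subdiv fam (fun j => (O j).Ufin) (fun j => (O j).U0) (fun j => (O j).U1)
    fun j => (O j).Usub
  have H : OAll K K' f Ec A B _ μ p C0 R _ δ h C U F P φ := ⟨hA.opn, r0, hδ, fam, S, hg, O⟩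
  choose V θ' be d1 d2 d3 d4 d5 d6 d7 using o_data H hA.bv hθ r2 hb
  have far : ∀ j i, ∀ x ∈ openSegment ℝ (A j) (B j), x ∉ (Bx i).Q s 24 := fun j i x =>
    fun hx => disjoint_left.1 (hQ _ (fam.mem j) i) hx
  have ch : ∀ c ∈ oCh A B C R, c.R = R ∧ (∃ j, c.a ∈ openSegment ℝ (A j) (B j)) ∧
      ∃ j, (openSegment ℝ c.a c.b ∩ openSegment ℝ (A j) (B j)).Nonempty := by
    rintro _ ⟨j, q, hq, rfl⟩
    obtain ⟨k1, k2, k3, -, k4, -⟩ := (O j).ends q hq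
    obtain ⟨x, hx⟩ := nonempty_uIoo.2 k3
    exact ⟨rfl, ⟨j, o_memo _ _ ⟨by linarith [hδ j, k4.1], by linarith [hδ j, k4.2]⟩⟩, j, _,
      o_os _ _ k3 ▸ mem_image_of_mem _ hx, o_memo _ _ (H.ioo k1 k2 hx)⟩
  refine ⟨K', V, θ', be, oCh A B C R,
    ⟨hA.opn, hA.cont, hA.inj, d1, fun a b k => (d4 _ a b k rfl).1, d2,
      fun a b k => (d4 _ a b k rfl).2,
      (finite_iUnion fun j => (O j).Cfin.image fun q =>
        (⟨seg (A j) (B j) q.1, seg (A j) (B j) q.2.1, q.2.2, R⟩ : Chd)).subset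
        fun _ ⟨j, q, hq, k⟩ => mem_iUnion.2 ⟨j, q, hq, k.symm⟩,
      fun c hc => ⟨(o_cedge H c hc).1, (o_cedge H c hc).2.1, (o_cedge H c hc).2.2.1,
        (ch c hc).1.le.trans (d6 _ c hc rfl), (o_cedge H c hc).2.2.2⟩,
      o_cval H, o_conce H, o_cin H, o_cdisj H, fun c hc i x hx y hy => by
        obtain ⟨k1, ⟨j, k2⟩, -⟩ := ch c hc
        have k3 := (hE j).seg_sub (openSegment_subset_segment _ _ _ k2)
        have k4 := hR.nohit i x hx c.a k3.1 (Or.inl k3) fun m =>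
          far j i _ k2 (o_Qmono hR.s0 (by norm_num) m)
        have k5 := norm_sub_le_norm_sub_add_norm_sub (f c.a) y ((Bx i).aff x)
        have k6 := hy.2.2
        rw [norm_sub_rev (f c.a) y] at k5
        change 5 * ε i < ‖y - (Bx i).aff x‖
        linarith [r3 i],
      hR.s0, hR.ε0, hR.tiny, hR.card, hR.r8, hR.QS, hR.disj,
      fun i x hx => (S.off x (hR.QS i (o_Qmono hR.s0 (by norm_num) hx))
        fun j k => far j i x k hx).trans (hR.grid i x hx),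
      S.sk ▸ hR.thick, hR.low, S.sk ▸ hR.close, fun i a b k ha hb => by
        rcases S.split a b k with m | ⟨j, u, hu, u', hu', ne, -, rfl, rfl⟩
        · exact hR.rvar i a b m.1 ha hb
        · refine absurd (o_Qmid ha hb) (far j i _ ?_)
          obtain ⟨x, hx, m⟩ := (o_os (A j) (B j) ne).subset
            (o_memo _ _ (t := 1 / 2) ⟨by norm_num, by norm_num⟩)
          exact m ▸ o_memo _ _ (H.ioo hu hu' hx),
      S.sk ▸ hR.nohit, hR.rsub, hR.sep⟩, S.ref, S.sk, fun x hx k => S.off x hx fun j m =>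
        k ((hE j).seg_sub (openSegment_subset_segment _ _ _ m)), fun y hy => d3 _ y hy rfl,
      fun G T => ?_⟩
  have core := o_core H hC0 T.chord fun j u hu u' hu' ne k1 k2 x hx y hy => by
    have k3 := T.speed _ _ (S.edge j u hu u' hu' ne k1) (fun c hc m => k2 c hc
      (m.symm.trans (o_os _ _ ne))) (fun i m => by
        obtain ⟨x, hx⟩ := nonempty_uIoo.2 ne
        exact far j i _ (o_memo _ _ (H.ioo hu hu' hx)) (o_Qmono hR.s0 (by norm_num)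
          (m (o_cs _ _ u u' ▸ mem_image_of_mem _ (uIoo_subset_uIcc_self hx)))))
      _ (o_cs _ _ u u' ▸ mem_image_of_mem _ hx) _ (o_cs _ _ u u' ▸ mem_image_of_mem _ hy)
    rw [o_os _ _ ne] at k3
    exact k3.trans (d7 _ j u hu u' hu' ne rfl k2 x y)
  choose L c hL using fun j => exists_par (hE j).1
  have ψe : ∀ j, ∀ t ∈ Ioo (0 : ℝ) 1, ∑ j', (openSegment ℝ (A j') (B j')).indicator
      (fun y => ‖B j' - A j'‖⁻¹ * φ j' (L j' y + c j')) (seg (A j) (B j) t) =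
      ‖B j - A j‖⁻¹ * φ j t := fun j t ht => by
    rw [Finset.sum_eq_single j, indicator_of_mem (o_memo _ _ ht), hL]
    · exact fun j' _ ne => indicator_of_notMem
        (fun m => ne (fam.uniq m (o_mem _ _ (Ioo_subset_Icc_self ht)))) _
    · exact fun m => absurd (Finset.mem_univ j) m
  refine ⟨T.inj, T.ltp, T.rig, ⟨fun y => ∑ j, (openSegment ℝ (A j) (B j)).indicator
      (fun y => ‖B j - A j‖⁻¹ * φ j (L j y + c j)) y, ⋃ j, seg (A j) (B j) '' (F j ∪ U j),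
      Finset.measurable_sum _ fun j _ => (((O j).meas.comp
        ((L j).continuous.measurable.add_const _)).const_mul _).indicator (mσ j),
      fun y => Finset.sum_nonneg fun j _ => indicator_nonneg
        (fun y _ => mul_nonneg (by positivity) ((O j).φ0 _)) y,
      finite_iUnion fun j => ((O j).Ffin.union (O j).Ufin).image _, ?_,
      fun a b k1 k2 y hy hN => ?_⟩, fun a b k1 k2 k3 y hy y' hy' => ?_, fun y hy => ?_⟩
  · have k : ⋃₀ Ec ⊆ ⋃ j, openSegment ℝ (A j) (B j) := sUnion_subset fun σ k => by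
      obtain ⟨j, rfl⟩ := fam.sur σ k
      exact subset_iUnion (fun j => openSegment ℝ (A j) (B j)) j
    refine (lintegral_mono_set k).trans ((lintegral_iUnion_le _ _).trans (le_trans ?_ e2.le))
    rw [tsum_fintype, Finset.mul_sum]
    refine Finset.sum_le_sum fun j _ => ?_
    rw [μ4, lintegral_congr_ae (g := fun t => ENNReal.ofReal (‖B j - A j‖⁻¹ * φ j t) ^ p)
      ((μ3 j).mono fun t ht => by simp only [ψe j t ht]), O4_mul _ hp (by positivity), mul_comm]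
    exact mul_le_mul_left (O j).int _
  · obtain ⟨j, m⟩ := fam.sur _ k2
    rw [m, ← seg_image_open] at hy
    obtain ⟨t, ht, rfl⟩ := hy
    have k3 := core j ht (fun k => hN (mem_iUnion.2 ⟨j, t, Or.inl k, rfl⟩))
      fun k => hN (mem_iUnion.2 ⟨j, t, Or.inr k, rfl⟩)
    simp only [ψe j t ht]
    rcases k1.uniq m with ⟨rfl, rfl⟩ | ⟨rfl, rfl⟩
    · simpa only [one_smul] using o_tl (hE j).1 k3 ((O j).φ0 t) abs_one
    · simpa only [neg_smul, one_smul, neg_sub] using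
        o_tl (s := -1) (hE j).1 k3 ((O j).φ0 t) (by simp)
  · have n1 : ∀ j, ∀ x ∈ openSegment ℝ a b, x ∉ openSegment ℝ (A j) (B j) := fun j x hx m =>
      k2 ((Kx.cell_eq k1.2 hx).symm.trans (Kx.cell_eq (hE j).2 m) ▸ fam.mem j)
    obtain ⟨x, hx⟩ := Kx.cells_ne k1.2
    have n2 : K'.cell x = openSegment ℝ a b :=
      (S.off x (Kx.cells_sub k1.2 hx) fun j => n1 j x hx).trans (Kx.cell_eq k1.2 hx)
    have n3 := T.speed a b ⟨k1.1, x, Kx.cells_sub k1.2 hx, n2⟩ (fun c hc m => by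
      obtain ⟨-, -, j, z, m1, m2⟩ := ch c hc
      exact n1 j z (m ▸ m1) m2) k3 y hy y' hy'
    obtain ⟨n4, n5⟩ := d5 _ a b k1 rfl k2
    have n6 := d3 _ x (Kx.cells_sub k1.2 hx) n2
    rw [Kx.cell_eq k1.2 hx] at n6
    rw [← n5, ← n4]
    exact n3.trans (mul_le_mul_of_nonneg_right (add_le_add le_rfl n6) (abs_nonneg _))
  · obtain ⟨y', k1, k2⟩ := T.sup y (S.sk ▸ hy)
    have k3 := closure_mono (S.ref y hy.1)
    exact ⟨y', k3 k1, k2.imp (fun k => k.trans (d3 _ y hy.1 rfl))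
      fun ⟨i, m1, m2⟩ => ⟨i, m1.mono (inter_subset_inter_left _ k3), m2⟩⟩

theorem top_anX [Finite ι] (hp : 1 ≤ p) (hA : AnIn K f D p Ec ν)
    (hR : RigIn K f Bx s ε ε') (hQ : ∀ σ ∈ Ec, ∀ i, Disjoint σ ((Bx i).Q s 24))
    (hθ : ∀ σ, 0 < θ σ) (hb : BeOk K b0) (he : e ≠ 0) {sc : Rn 3 → ℝ}
    (hw : Scl (f '' Ω) sc (10 ^ 12))
    (h1 : ∀ x ∈ K.sk 2, ∀ y ∈ closure (K.cell x), ‖f y - f x‖ ≤ sc (f x))
    (h2 : ∀ x ∈ K.sk 1, θ (K.cell x) ≤ sc (f x))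
    (h3 : ∀ i, ∀ x ∈ (Bx i).Q s 12, 17 * s * ‖(Bx i).A‖ ≤ sc ((Bx i).aff x)) :
    ∃ G, AnOut K f D p Ec ν Bx s ε θ b0 30 e G ∧ G '' Ω ⊆ f '' Ω ∧
      (∀ x ∈ K.sk 2, ‖G x - f x‖ ≤ 5 * 10 ^ 11 * sc (f x)) ∧
      ∀ P ∈ K.cel 3, ∀ Z, Convex ℝ Z → G '' rb P ⊆ Z → G '' closure P ⊆ Z := by
  obtain ⟨K', V, θ', be, Ch, T, k1, k2, k3, k4, k5⟩ :=
    an_red (C0 := 30) (by norm_num) hp hA hR hQ hθ hb he
  have e2 : K'.sk 2 = K.sk 2 := by
    ext x
    by_cases hx : x ∈ K.sk 1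
    · have hx' : x ∈ K'.sk 1 := k2 ▸ hx
      exact iff_of_true ⟨hx.1, hx'.2.trans one_le_two⟩ ⟨hx.1, hx.2.trans one_le_two⟩
    · exact and_congr_right fun h => by rw [k3 x h hx]
  obtain ⟨G, g1, g2, g3, g4⟩ := topGX2 T hw ⟨fun x hx y hy =>
    h1 x (e2 ▸ hx) y (closure_mono (k1 x hx.1) hy), fun x hx => (k4 x hx.1).trans (h2 x (k2 ▸ hx)), h3⟩
  refine ⟨G, k5 G g1, g2, e2 ▸ g3, fun P hP => g4 P ⟨?_, hP.2⟩⟩
  obtain ⟨⟨x, hx, rfl⟩, k⟩ := hP
  exact ⟨x, hx, k3 x hx fun m => by have := m.2; omega⟩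

/-- A map that is close to `f` on the two skeleton is proper there. -/
theorem lf_of_close {G : Rn 3 → Rn 3} {sc : Rn 3 → ℝ} {L a : ℝ} (hΩ : IsOpen Ω)
    (hc : ContinuousOn f Ω) (hi : InjOn f Ω) (hw : Scl (f '' Ω) sc L) (ha : 0 ≤ a) (hL : 2 * a < L)
    (h : ∀ x ∈ K.sk 2, ‖G x - f x‖ ≤ a * sc (f x)) {C : Set (Rn 3)} (hC : IsCompact C)
    (hs : C ⊆ f '' Ω) : {e | e ∈ K.cells ∧ dm e ≤ 2 ∧ (G '' closure e ∩ C).Nonempty}.Finite := by
  obtain ⟨C', c1, c2, c3⟩ := hw.cpt ha hL hC hs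
  obtain ⟨C'', d1, d2, d3⟩ := cpt_pre hΩ hc hi c1 c2
  refine (Kx.lf_cl (K := K) hΩ d1 d2).subset ?_
  rintro σ ⟨k1, k2, _, ⟨x, hx, rfl⟩, k3⟩
  have k4 := Kx.cl_sub_sk k1 k2 hx
  obtain ⟨z, hz, e⟩ := d3 (c3 _ (mem_image_of_mem f k4.1) _ k3 (norm_sub_rev (G x) _ ▸ h x k4))
  exact ⟨k1, x, hx, hi (d2 hz) k4.1 e ▸ hz⟩

/-- A slowly varying scale below `θ`, as large as possible. -/
theorem scl_low {V : Set (Rn 3)} {L : ℝ} (hV : IsOpen V) {θ : Rn 3 → ℝ}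
    (hθ : ∀ y ∈ V, ∃ c, 0 < c ∧ ∀ᶠ z in 𝓝 y, c ≤ θ z) (hL : 0 < L) :
    ∃ s, Scl V s L ∧ (∀ y ∈ V, s y ≤ θ y) ∧
      ∀ y a b, ball y b ⊆ V → (∀ z ∈ ball y b, a ≤ θ z) → min a (b / L) ≤ s y := by
  classical
  let t : Rn 3 → ℝ := fun z => if z ∈ V then θ z else 0
  have t0 : ∀ z, 0 ≤ t z := fun z => by
    by_cases e : z ∈ V
    · obtain ⟨c, c0, k⟩ := hθ z e
      exact (c0.le.trans k.self_of_nhds).trans_eq (if_pos e).symm
    · exact (if_neg e).ge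
  have bd : ∀ y, BddBelow (range fun z => t z + ‖y - z‖ / L) := fun y =>
    ⟨0, by rintro _ ⟨z, rfl⟩; exact add_nonneg (t0 z) (by positivity)⟩
  have le : ∀ y z, ⨅ z, (t z + ‖y - z‖ / L) ≤ t z + ‖y - z‖ / L := fun y z => ciInf_le (bd y) z
  have lip : ∀ y y', ⨅ z, (t z + ‖y - z‖ / L) ≤ (⨅ z, (t z + ‖y' - z‖ / L)) + ‖y - y'‖ / L := by
    intro y y'
    rw [← sub_le_iff_le_add]
    refine le_ciInf fun z => ?_
    have := div_le_div_of_nonneg_right (norm_sub_le_norm_sub_add_norm_sub y y' z) hL.le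
    rw [add_div] at this
    linarith [le y z]
  have low : ∀ y a b, ball y b ⊆ V → (∀ z ∈ ball y b, a ≤ θ z) →
      min a (b / L) ≤ ⨅ z, (t z + ‖y - z‖ / L) := fun y a b h1 h2 => le_ciInf fun z => by
    by_cases e : z ∈ ball y b
    · have : t z = θ z := if_pos (h1 e)
      exact (min_le_left _ _).trans (le_add_of_le_of_nonneg (this ▸ h2 z e) (by positivity))
    · refine (min_le_right _ _).trans (le_add_of_nonneg_of_le (t0 z) ?_)
      rw [mem_ball, dist_comm, dist_eq_norm, not_lt] at e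
      exact div_le_div_of_nonneg_right e hL.le
  refine ⟨fun y => ⨅ z, (t z + ‖y - z‖ / L), ⟨fun y hy => ?_, fun y z => ?_, fun y hy z hz => ?_⟩,
    fun y hy => by simpa [t, hy] using le y y, low⟩
  · obtain ⟨c, c0, k⟩ := hθ y hy
    obtain ⟨r, r0, k⟩ := Metric.eventually_nhds_iff.1 (k.and (hV.mem_nhds hy))
    exact (lt_min c0 (div_pos r0 hL)).trans_le (low y c r (fun z e => (k e).2) fun z e => (k e).1)
  · rw [← le_div_iff₀' hL, abs_le]
    have := lip z y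
    rw [norm_sub_rev] at this
    constructor <;> linarith [lip y z]
  · by_contra e
    have := le y z
    rw [show t z = 0 from if_neg e, zero_add, le_div_iff₀' hL, norm_sub_rev] at this
    exact (mem_ball_iff_norm.1 hz).not_ge this

end BEp
end
end

-- merged part: Pool.Agent.Work.MP_f0515e_an.P3.YEll1
section
/-! The mesh function. -/

open Set Metric Filter Topology Function BEv MeasureTheory
open scoped NNReal ENNReal

noncomputable section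
namespace BEp

variable {ι : Type} {V : Set (Rn 3)} {θ l : Rn 3 → ℝ} {C0 : ℝ} {P : ι → Pc}

/-- The mesh function: comparable with the lattice size near each piece. -/
structure Ell (V : Set (Rn 3)) (θ : Rn 3 → ℝ) (C0 : ℝ) (P : ι → Pc) (l : Rn 3 → ℝ) : Prop where
  opn : IsOpen V
  scl : Scl V l 1000
  le : ∀ y ∈ V, l y ≤ 2 ∧ C0 * l y ≤ θ y
  ok : ∀ b, (P b).Ok
  up : ∀ b, ∀ x ∈ (P b).Bx, ∀ y, l y ≤ 3 / 2 * (P b).l + ‖y - (P b).aff x‖ / 1000
  lo : ∀ b y, (P b).Nr (100 * (P b).l) y → y ∈ V ∧ 3 / 2 * (P b).l ≤ l y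
  sep : ∀ b b' y, (P b).Nr (100 * (P b).l) y → (P b').Nr (100 * (P b').l) y → b = b'

theorem ell1_sep {Cf : (Rn 3 ≃L[ℝ] Rn 3) → ℝ} (hf : ∀ A, 10000 ≤ Cf A) (hP : PcIn V θ Cf P)
    {b b' : ι} {x x' : Rn 3} (hx : x ∈ (P b).Bx) (hx' : x' ∈ (P b').Bx)
    (h : ‖(P b).aff x - (P b').aff x'‖ ≤ 10000 * (P b).l + 10000 * (P b').l) : b = b' := by
  by_contra e
  have := hP.sep b b' e x hx.1 x' hx'.1
  have h1 := mul_le_mul_of_nonneg_right (hf (P b).A) (P b).l_pos.le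
  have h2 := mul_le_mul_of_nonneg_right (hf (P b').A) (P b').l_pos.le
  linarith

theorem ell_exists [Finite ι] (hV : IsOpen V) (hθ : LB V θ) {Cf : (Rn 3 ≃L[ℝ] Rn 3) → ℝ}
    (hC : 1 ≤ C0) (hf : ∀ A, 10000 * C0 ≤ Cf A) (hP : PcIn V θ Cf P) : ∃ l, Ell V θ C0 P l := by
  have hf' : ∀ A, 10000 ≤ Cf A := fun A => by linarith [hf A]
  have C0p : 0 < C0 := by linarith
  have near : ∀ b, ∀ x ∈ (P b).Bx, ∀ y, ‖y - (P b).aff x‖ ≤ 10000 * (P b).l →
      y ∈ V ∧ 3 / 2 * (P b).l ≤ min (θ y / C0) 2 := fun b x hx y k => by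
    have p := (P b).l_pos
    have a := hP.sub b x hx.1 y (k.trans (mul_le_mul_of_nonneg_right (hf' _) p.le))
    refine ⟨a.1, le_min ?_ (by linarith [(P b).l_le])⟩
    rw [le_div_iff₀ C0p]
    have := mul_le_mul_of_nonneg_right (hf (P b).A) p.le
    nlinarith [a.2, mul_pos p C0p]
  have ex : ∀ z, ∃ t, (∀ b, ∀ x ∈ (P b).Bx, z = (P b).aff x → t = 3 / 2 * (P b).l) ∧
      ((∀ b, ∀ x ∈ (P b).Bx, z ≠ (P b).aff x) → t = min (θ z / C0) 2) := fun z => by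
    by_cases h : ∃ b, ∃ x ∈ (P b).Bx, z = (P b).aff x
    · obtain ⟨b, x, hx, e⟩ := h
      refine ⟨3 / 2 * (P b).l, fun b' x' hx' e' => ?_, fun k => (k b x hx e).elim⟩
      rw [ell1_sep hf' hP hx hx' (by
        rw [← e, ← e', sub_self, norm_zero]
        linarith [(P b).l_pos, (P b').l_pos])]
    · exact ⟨_, fun b x hx e => (h ⟨b, x, hx, e⟩).elim, fun _ => rfl⟩
  choose t t1 t2 using ex
  have cs : ∀ z, (∃ b, ∃ x ∈ (P b).Bx, z = (P b).aff x ∧ t z = 3 / 2 * (P b).l) ∨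
      t z = min (θ z / C0) 2 := fun z => by
    by_cases h : ∃ b, ∃ x ∈ (P b).Bx, z = (P b).aff x
    · obtain ⟨b, x, hx, e⟩ := h
      exact .inl ⟨b, x, hx, e, t1 z b x hx e⟩
    · exact .inr (t2 z fun b x hx e => h ⟨b, x, hx, e⟩)
  have tle : ∀ z, t z ≤ min (θ z / C0) 2 := fun z => by
    rcases cs z with ⟨b, x, hx, e, k⟩ | k
    · rw [k]
      exact (near b x hx z (by rw [e, sub_self, norm_zero]; linarith [(P b).l_pos])).2
    · exact k.le
  obtain ⟨μ, μ0, hμ⟩ : ∃ μ : ℝ, 0 < μ ∧ ∀ b, μ ≤ (P b).l := by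
    have : ∀ᶠ c in 𝓝[>] (0 : ℝ), ∀ b, c ≤ (P b).l := eventually_all.2 fun b =>
      mem_nhdsWithin_of_mem_nhds (Iic_mem_nhds (P b).l_pos)
    exact (eventually_mem_nhdsWithin.and this).exists
  obtain ⟨s, hs, up, low⟩ := scl_low (L := 1000) hV (θ := t) (fun y hy => by
    obtain ⟨c, c0, k⟩ := hθ y hy
    refine ⟨min μ (min (c / C0) 2), lt_min μ0 (lt_min (div_pos c0 C0p) two_pos),
      k.mono fun z a => ?_⟩
    rcases cs z with ⟨b, x, -, -, e⟩ | e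
    · rw [e]
      linarith [min_le_left μ (min (c / C0) 2), hμ b, (P b).l_pos]
    · rw [e]
      exact (min_le_right _ _).trans
        (min_le_min_right _ (div_le_div_of_nonneg_right a C0p.le))) (by norm_num)
  refine ⟨s, hV, hs, fun y hy => ?_, hP.ok, fun b x hx y => ?_, fun b y ⟨x, hx, k⟩ => ?_,
    fun b b' y ⟨x, hx, k⟩ ⟨x', hx', k'⟩ => ell1_sep hf' hP hx hx' ?_⟩
  · have a := (up y hy).trans (tle y)
    exact ⟨a.trans (min_le_right _ _), (le_div_iff₀' C0p).1 (a.trans (min_le_left _ _))⟩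
  · have a := up _ (near b x hx ((P b).aff x)
      (by rw [sub_self, norm_zero]; linarith [(P b).l_pos])).1
    rw [t1 _ b x hx rfl] at a
    linarith [hs.lip y ((P b).aff x), le_abs_self (s y - s ((P b).aff x))]
  · have p := (P b).l_pos
    have a : ∀ z ∈ ball y (1500 * (P b).l), ‖z - (P b).aff x‖ ≤ 10000 * (P b).l := fun z hz => by
      linarith [mem_ball_iff_norm.1 hz, norm_sub_le_norm_sub_add_norm_sub z y ((P b).aff x)]
    refine ⟨(near b x hx y (by linarith)).1, le_trans (le_min le_rfl (by linarith))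
      (low y (3 / 2 * (P b).l) (1500 * (P b).l) (fun z hz => (near b x hx z (a z hz)).1)
        fun z hz => ?_)⟩
    rcases cs z with ⟨b', x', hx', e, e'⟩ | e
    · rw [e', ell1_sep hf' hP hx' hx (by rw [← e]; linarith [a z hz, (P b').l_pos])]
    · rw [e]
      exact (near b x hx z (a z hz)).2
  · have := norm_sub_le_norm_sub_add_norm_sub ((P b).aff x) y ((P b').aff x')
    rw [norm_sub_rev _ y] at this
    linarith [(P b).l_pos, (P b').l_pos]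

end BEp
end
end
end
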