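import Pool.Agent.Work.MP_f0515e_an.P3.VCyl
import Pool.Agent.Work.MP_f0515e_an.D3.MEdges
import Pool.Agent.Work.MP_f0515e_an.D3.NCore0
import Pool.Agent.Work.MP_f0515e_an.P3.YEll1
import Pool.Agent.Work.MP_f0515e_an.P2.QMoi
import Pool.Agent.Work.MP_f0515e_an.Pos.BRed
import Pool.Agent.Work.MP_f0515e_an.Pos.ALeb
import Pool.Agent.Work.MP_f0515e_an.D3.O2
import Pool.Agent.Work.MP_f0515e_an.Pos.BMoll

-- merged part: Pool.Agent.Work.MP_f0515e_an.P3.VEdges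
section
/-! All the edges, for every exponent, keeping conical germs at the vertices.
Plan. Copy of D3/MEdges with the extra invariant VG F v at the points of Ω ∩ B. Energy: tube_small0 (constant slope, vol_tube), Eg_step with L. In stepC choose ρ also below the numbers d of VG.ray at a (w = -(b - a)) and at b (w = b - a):
a + t • y is not in the lens and differs from a and b, so F' = F near it. HomN F' at a, b: F' = F + F0 (· - a) - H (· - a), H is homogeneous at 0 and at b - a (EGm.eqv). At other points of B, F' = F locally (VG.congr).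
ltp_vg: exists_afk; Kx.near and convexity of the closed cell give HomN; a closed ball is covered by finitely many closed cells (Kx.lf), dense_sUnion_interior_of_closed with the complement of the open ball gives an interior point. -/

open Set Metric Filter Topology Function BEv MeasureTheory
open scoped NNReal ENNReal ContDiff

noncomputable section
namespace BEp

theorem VEs_hom {F F0 H : Rn 3 → Rn 3} {a v : Rn 3} (h₁ : HomN F v) (h₂ : HomN F0 (v - a))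
    (h₃ : HomN H (v - a)) : HomN (fun x => F x + (F0 (x - a) - H (x - a))) v := by
  obtain ⟨r₁, p₁, h₁⟩ := h₁
  obtain ⟨r₂, p₂, h₂⟩ := h₂
  obtain ⟨r₃, p₃, h₃⟩ := h₃
  refine ⟨min r₁ (min r₂ r₃), lt_min p₁ (lt_min p₂ p₃), fun y hy t ht => ?_⟩
  simp only [le_min_iff] at hy
  simp only [add_sub_right_comm v _ a]
  linear_combination (norm := module) h₁ y hy.1 t ht + h₂ y hy.2.1 t ht - h₃ y hy.2.2 t ht

theorem VEs_H {H : Rn 3 → Rn 3} {v : Rn 3} (h : EGm H v) : HomN H 0 ∧ HomN H v := by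
  have H0 : H 0 = 0 := by simpa using h.hmg 0 0 le_rfl
  have k : ∀ u, H (v + u) - H v = H u := fun u => by
    have := h.eqv u 1
    rw [one_smul, one_smul, add_comm] at this
    rw [this, add_sub_cancel_right]
  exact ⟨⟨1, one_pos, fun y _ t ht => by simpa [H0] using h.hmg t y ht.1⟩,
    1, one_pos, fun y _ t ht => by rw [k, k, h.hmg t y ht.1]⟩

theorem VEs_ray {w y : Rn 3} {d c : ℝ} (h : ∀ s : ℝ, d ≤ ‖w + s • y‖) (hc : 0 < c) (t : ℝ) :
    c * d ≤ ‖c • w + t • y‖ := by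
  refine (mul_le_mul_of_nonneg_left (h (t / c)) hc.le).trans_eq ?_
  rw [← Real.norm_of_nonneg hc.le, ← norm_smul, Real.norm_of_nonneg hc.le, smul_add, smul_smul,
    mul_div_cancel₀ _ hc.ne']

theorem VEs_a {a b y : Rn 3} {d ρ t : ℝ} (hy : y ≠ 0) (hd : 0 < d)
    (h : ∀ s : ℝ, d ≤ ‖b - a + s • y‖) (hρ : ρ ≤ d) (h0 : 0 < ρ) (ht : 0 < t) :
    a + t • y ∉ lens a b ρ ∪ {a, b} := by
  rintro (⟨z, hz, k⟩ | k | k)
  · have e : z • (b - a) + (-t) • y = -(a + t • y - seg a b z) := by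
      rw [seg]
      module
    have := VEs_ray h hz.1 (-t)
    rw [e, norm_neg] at this
    linarith only [k, this, hρ, hz, h0, mul_le_mul_of_nonneg_left hρ hz.1.le, mul_pos h0 (mul_pos hz.1 hz.1)]
  · exact smul_ne_zero ht.ne' hy (add_eq_left.1 k)
  · have := h (-t)
    rw [← mem_singleton_iff.1 k, add_sub_cancel_left, neg_smul, add_neg_cancel, norm_zero] at this
    exact absurd hd (not_lt.2 this)

theorem VEs_b {a b y : Rn 3} {d ρ t : ℝ} (hy : y ≠ 0) (hd : 0 < d)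
    (h : ∀ s : ℝ, d ≤ ‖b - a + s • y‖) (hρ : ρ ≤ d) (h0 : 0 < ρ) (ht : 0 < t) :
    b + t • y ∉ lens a b ρ ∪ {a, b} := by
  rintro (⟨z, hz, k⟩ | k | k)
  · have e : (1 - z) • (b - a) + t • y = b + t • y - seg a b z := by
      rw [seg]
      module
    have z1 := sub_pos.2 hz.2
    have := VEs_ray h z1 t
    rw [e] at this
    linarith only [k, this, hρ, z1, h0, mul_le_mul_of_nonneg_left hρ z1.le, mul_pos h0 (mul_pos z1 z1)]
  · have := h t
    rw [sub_add_eq_add_sub, k, sub_self, norm_zero] at this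
    exact absurd hd (not_lt.2 this)
  · exact smul_ne_zero ht.ne' hy (add_eq_left.1 k)

namespace Sd
variable {Ω : Set (Rn 3)} {G F : Rn 3 → Rn 3} {X : Sd Ω G} {p : ℝ}

theorem stepC (hΩ : IsOpen Ω) (hp0 : 0 ≤ p) {T : Set (Rn 3 × Rn 3)} (hT : T ⊆ X.S)
    (h : X.St T F) (hv : ∀ v ∈ Ω ∩ X.B, VG F v) {e : Rn 3 × Rn 3} (he : e ∈ X.S) (he' : e ∉ T)
    {ε : ℝ≥0∞} (hε : ε ≠ 0) :
    ∃ F', X.St (insert e T) F' ∧ (∀ v ∈ Ω ∩ X.B, VG F' v) ∧
      EqOn F' F (Ω \ lens e.1 e.2 (X.ρ e)) ∧ Eg p Ω G F' ≤ Eg p Ω G F + ε := by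
  obtain ⟨a, b⟩ := e
  obtain ⟨H, hH, hG⟩ := X.germ _ he
  obtain ⟨L, hL0, hL, hm⟩ := edge_modelC hH
  obtain ⟨y₁, d₁, r1, r2, r3, r4⟩ := (hv _ (X.ends _ he).1).ray hH.ne
  obtain ⟨y₂, d₂, s1, s2, s3, s4⟩ := (hv _ (X.ends _ he).2).ray hH.ne
  obtain ⟨ρ, ⟨⟨k1, k2⟩, k3, k0⟩, k4, k5⟩ := ((((tube_small0 hp0 a b (2 * L * (‖b - a‖ + 1)) L hε).and
    (nhdsWithin_le_nhds (Iic_mem_nhds one_pos))).and
    (Eventually.and (nhdsWithin_le_nhds (Iic_mem_nhds (X.ρ0 _ he))) self_mem_nhdsWithin)).and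
    (Eventually.and (nhdsWithin_le_nhds (Iic_mem_nhds r2))
      (nhdsWithin_le_nhds (Iic_mem_nhds s2)))).exists
  obtain ⟨Z, F0, z1, z2, z3, f1, f2, f3, f4, f5, f6, f7, f8, f9⟩ := hm ρ k0
  have H0 : H 0 = 0 := by simpa using hH.hmg 0 0 le_rfl
  obtain ⟨⟨ha, ha'⟩, hb, hb'⟩ := X.ends _ he
  have hs := X.sub _ he
  dsimp only at *
  generalize hW : lens a b (X.ρ (a, b)) = W at *
  have hWo : IsOpen W := hW ▸ lens_open _ _ _
  have zc : IsClosed {x | x - a ∈ Z} := z1.preimage (by fun_prop)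
  have zt : ∀ x, x - a ∈ Z → x ∈ lens a b ρ ∪ {a, b} := fun x hx =>
    (z3 hx).imp mem_lens_sub.1 (Or.imp sub_eq_zero.1 sub_left_inj.1)
  have zw : ∀ x, x - a ∈ Z → x ∈ W ∪ {a, b} := fun x hx =>
    (zt x hx).imp_left fun k => hW ▸ lens_mono a b k3 k
  have g1 : ∀ x ∈ W ∪ {a, b}, x ∈ Ω ∧ G x = G a + H (x - a) := by
    rintro x (k | rfl | rfl)
    exacts [⟨(hs k).1, hG x (.inl k)⟩, ⟨ha, by rw [sub_self, H0, add_zero]⟩, ⟨hb, hG _ (.inr rfl)⟩]
  have g2 : ∀ x ∈ W ∪ {a, b}, F x = G a + H (x - a) := fun x hx => by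
    rw [← (g1 x hx).2]
    refine h.eq x (g1 x hx).1 fun e' k k' => ?_
    rcases hx with hx | rfl | rfl
    · exact disjoint_left.1 (X.disj he (hT k) fun e0 => he' (e0 ▸ k)) (hW.ge hx) k'
    · exact (X.sub _ (hT k) k').2 ha'
    · exact (X.sub _ (hT k) k').2 hb'
  obtain ⟨F', hF'⟩ : ∃ F' : Rn 3 → Rn 3, ∀ x, F' x = F x + (F0 (x - a) - H (x - a)) :=
    ⟨_, fun _ => rfl⟩
  have onn : ∀ x ∈ W ∪ {a, b}, F' x = G a + F0 (x - a) := fun x hx => by
    rw [hF', g2 x hx]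
    abel
  have off : ∀ x, x - a ∉ Z → F' x = F x := fun x hx => by rw [hF', f5 hx, sub_self, add_zero]
  have off' : ∀ x, x ∉ W → F' x = F x := fun x hx => by
    by_cases k : x - a ∈ Z
    · rcases zw x k with k | rfl | rfl
      · exact absurd k hx
      · rw [hF', sub_self, f3, H0, sub_self, add_zero]
      · rw [hF', f4, sub_self, add_zero]
    · exact off x k
  have mix : ∀ x y, x - a ∈ Z → y ∈ Ω → y - a ∉ Z → F' x ≠ F' y := fun x y hx hy hy' e0 => by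
    obtain ⟨z, hz, e1⟩ := f6 (mem_image_of_mem _ hx)
    have k := zw (z + a) (by rwa [add_sub_cancel_right])
    have e2 : z + a = y := h.il.inj (g1 _ k).1 hy (by
      rw [g2 _ k, add_sub_cancel_right, e1, ← onn x (zw x hx), e0, off y hy'])
    exact hy' (by rwa [← e2, add_sub_cancel_right])
  have ev : ∀ x ∈ W, F' =ᶠ[𝓝 x] fun y => G a + F0 (y - a) := fun x hx =>
    eventually_of_mem (hWo.mem_nhds hx) fun y hy => onn y (.inl hy)
  have ev' : ∀ x, x - a ∉ Z → F' =ᶠ[𝓝 x] F := fun x hx =>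
    eventually_of_mem (zc.isOpen_compl.mem_nhds hx) off
  have hn : ∀ v ∈ Ω ∩ X.B, HomN F0 (v - a) → HomN H (v - a) → HomN F' v := fun v k k' k'' => by
    exact (VEs_hom (hv v k).1 k' k'').congr (Eventually.of_forall hF')
  refine ⟨F', ⟨⟨fun x hx y hy e0 => ?_, fun x hx => ?_⟩, fun x hx k => ?_, fun x hx hB k => ?_⟩,
    fun v k => ?_, fun x hx => off' x hx.2, ?_⟩
  · by_cases kx : x - a ∈ Z <;> by_cases ky : y - a ∈ Z
    · rw [onn x (zw x kx), onn y (zw y ky)] at e0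
      exact sub_left_inj.1 (f2 (add_left_cancel e0))
    · exact absurd e0 (mix x y kx hy ky)
    · exact absurd e0.symm (mix y x ky hx kx)
    · exact h.il.inj hx hy (by rw [← off x kx, e0, off y ky])
  · obtain ⟨L', l⟩ := h.il.ll x hx
    exact ⟨_, (l.add (((MEdges_sh f1 0 a).ll x).sub ((MEdges_sh hL 0 a).ll x))).congr
      (Eventually.of_forall fun y => by simp only [hF', zero_add])⟩
  · rw [off' x fun q => k (a, b) (mem_insert _ _) (hW.ge q), h.eq x hx fun e' k' => k e' (mem_insert_of_mem _ k')]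
  · by_cases kx : x - a ∈ Z
    · have n1 : x ≠ a := fun e0 => hB (e0 ▸ ha')
      have n2 : x ≠ b := fun e0 => hB (e0 ▸ hb')
      have c := f7 _ kx (sub_ne_zero.2 n1) fun e0 => n2 (sub_left_inj.1 e0)
      rw [sub_eq_add_neg] at c
      refine ((CR.comp (T := fun y => y + -a) c (SI.aff (.refl ℝ _) (-a) x)).post (.refl ℝ _)
        (G a)).congr
        ((ev x ((zw x kx).resolve_right fun k => k.elim n1 n2)).mono fun y hy => ?_)
      exact hy.trans (add_comm _ _)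
    · refine (h.cr x hx hB fun e' k1 k2 k3 => ?_).congr
        (eventually_of_mem (zc.isOpen_compl.mem_nhds kx) off)
      by_cases e0 : e' = (a, b)
      · subst e0
        refine kx (z2 ?_)
        rwa [← mem_openSegment_translate ℝ a, add_zero, add_sub_cancel, add_sub_cancel]
      · exact k e' k1 (fun k4 => k4.elim e0 k2) k3
  · by_cases kx : v - a ∈ Z
    · rcases zw v kx with q | rfl | rfl
      · exact absurd k.2 (hs q).2
      · exact vg_of_ray (hn v k (by rwa [sub_self]) ((sub_self v).symm ▸ (VEs_H hH).1)) r1 fun t ht =>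
          (r4 t ht).congr (ev' _ fun q => VEs_a r1 r2 r3 k4 k0 ht.1 (zt _ q))
      · exact vg_of_ray (hn v k f9 (VEs_H hH).2) s1 fun t ht =>
          (s4 t ht).congr (ev' _ fun q => VEs_b s1 s2 s3 k5 k0 ht.1 (zt _ q))
    · exact (hv v k).congr (ev' v kx)
  · refine (Eg_step hΩ hp0 zc ((toFinite {a, b}).measure_zero _) (fun x hx => off x hx.2)
      hL0 (M := 2 * L * (‖b - a‖ + 1)) fun x hx _ hN => ?_).trans
      (add_le_add le_rfl (le_trans (mul_le_mul_right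
        (measure_mono fun x hx => lens_tube a b (le_of_lt k0) (zt x hx)) _) k1))
    have hw := (zw x hx).resolve_right hN
    refine ⟨((MEdges_sh f1 _ a).ll x).congr (ev x hw),
      ((MEdges_sh hL (G a) a).ll x).congr (eventually_of_mem (hWo.mem_nhds hw)
        fun y hy => (g1 y (.inl hy)).2), ?_⟩
    obtain ⟨y, hy, hy'⟩ := lens_tube a b (le_of_lt k0) (zt x hx)
    have n1 : ‖x - a‖ ≤ ‖b - a‖ + 1 := by
      linarith only [k2, hy', hy, norm_sub_le_norm_sub_add_norm_sub x y a, norm_sub_le_of_mem_segment hy,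
        (k2 : ρ ≤ 1)]
    have n2 := f1 (x - a) 0
    have n3 := hL (x - a) 0
    rw [f3, sub_zero, sub_zero] at n2
    rw [H0, sub_zero, sub_zero] at n3
    rw [onn x (.inl hw), (g1 x (.inl hw)).2, add_sub_add_left_eq_sub]
    linarith only [n2, n3, n1, hL0, norm_sub_le (F0 (x - a)) (H (x - a)), mul_le_mul_of_nonneg_left n1 hL0]

theorem VEs_fin (hΩ : IsOpen Ω) (hp0 : 0 ≤ p) {T N : Set (Rn 3 × Rn 3)}
    (hT : T ⊆ X.S) (h : X.St T F) (hv : ∀ v ∈ Ω ∩ X.B, VG F v) (hN : N.Finite) :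
    N ⊆ X.S \ T → ∀ ε : ℝ≥0∞, ε ≠ 0 → ∃ F', (X.St (N ∪ T) F' ∧ ∀ v ∈ Ω ∩ X.B, VG F' v) ∧
      (∀ x ∈ Ω, (∀ e ∈ N, x ∉ lens e.1 e.2 (X.ρ e)) → F' x = F x) ∧
        Eg p Ω G F' ≤ Eg p Ω G F + ε := by
  induction N, hN using Set.Finite.induction_on with
  | empty => exact fun _ ε _ => ⟨F, ⟨(empty_union T).symm ▸ h, hv⟩, fun _ _ _ => rfl, le_self_add⟩
  | @insert e N he _ ih =>
    intro hs ε hε
    have h2 := ENNReal.half_pos hε |>.ne'
    have hs' := (subset_insert e N).trans hs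
    obtain ⟨F1, a1, a2, a3⟩ := ih hs' _ h2
    obtain ⟨F2, b1, b0, b2, b3⟩ := stepC hΩ hp0 (union_subset (hs'.trans sdiff_subset) hT) a1.1 a1.2
      (hs (mem_insert _ _)).1 (fun k => k.elim he (hs (mem_insert _ _)).2) h2
    refine ⟨F2, ⟨insert_union ▸ b1, b0⟩, fun x hx k => (b2 ⟨hx, k e (mem_insert _ _)⟩).trans
      (a2 x hx fun e' k' => k e' (mem_insert_of_mem _ k')), b3.trans ?_⟩
    exact (add_le_add a3 le_rfl).trans_eq (by rw [add_assoc, ENNReal.add_halves])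

theorem edges3C (X : Sd Ω G) (hΩ : IsOpen Ω) (hp0 : 0 < p) (hG : IL Ω G)
    (hv : ∀ v ∈ Ω, VG G v) {ε : ℝ≥0∞} (hε : ε ≠ 0) :
    ∃ F, IL Ω F ∧ (∀ x ∈ Ω, x ∉ X.B → CR F x) ∧ (∀ v ∈ Ω ∩ X.B, VG F v) ∧ Eg p Ω G F ≤ ε := by
  obtain ⟨K, hK⟩ := exists_exh hΩ
  let T : ℕ → Set (Rn 3 × Rn 3) := fun j => {e | e ∈ X.S ∧ (lens e.1 e.2 (X.ρ e) ∩ K j).Nonempty}
  have h0 : X.St (T 0) G := ⟨hG, fun _ _ _ => rfl, fun x hx hB k =>
    X.cr x hx hB fun e he => k e he fun k' => by simpa [hK.zero] using k'.2⟩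
  obtain ⟨F, h1, h2⟩ := seq_lim (p := p) hΩ hK hG.continuousOn
    (P := fun j F => X.St (T j) F ∧ ∀ v ∈ Ω ∩ X.B, VG F v)
    (fun _ _ h => h.1.il.continuousOn) ⟨h0, fun v k => hv v k.1⟩ (fun j F h ε hε => by
      have m : T j ⊆ T (j + 1) := fun e he =>
        ⟨he.1, he.2.mono (inter_subset_inter_right _ (hK.mono j.le_succ))⟩
      obtain ⟨F', a1, a2, a3⟩ := VEs_fin hΩ hp0.le (fun _ k => k.1) h.1 h.2
        ((X.lf _ (hK.cpt (j + 1)) (hK.sub _)).sdiff (t := T j)) (fun _ k => ⟨k.1.1, k.2⟩) ε hε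
      exact ⟨F', ⟨sdiff_union_of_subset m ▸ a1.1, a1.2⟩, fun x hx => a2 x (hK.sub _ hx)
        fun e he k => he.2 ⟨he.1.1, x, k, hK.mono (Nat.sub_le j 1) hx⟩, a3⟩) hε
  refine ⟨F, hK.il fun j => (h2 j).imp fun _ k => ⟨k.1.1.il, k.2⟩, fun x hx hB => ?_,
    fun x hx => ?_, by rwa [Eg_self hp0, zero_add] at h1⟩
  · obtain ⟨j, hj⟩ := (hK.nhds hx).exists
    obtain ⟨F', a1, a2⟩ := h2 j
    exact (a1.1.cr x hx hB fun e he k k' => k ⟨he, x, MEdges_seg (X.ρ0 e he) k',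
      hK.mono (Nat.sub_le j 1) (mem_of_mem_nhds hj)⟩).congr (eventually_of_mem hj a2)
  · obtain ⟨j, hj⟩ := (hK.nhds hx.1).exists
    obtain ⟨F', a1, a2⟩ := h2 j
    exact (a1.2 x hx).congr (eventually_of_mem hj a2)

end Sd
end BEp
end
end

-- merged part: Pool.Agent.Work.MP_f0515e_an.P3.VMain
section
-- merged part: Pool.Agent.Work.MP_f0515e_an.D3.NCore
section
/-! The core statement in dimension three. -/

open Set Metric Filter Topology Function BEv MeasureTheory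
open scoped NNReal ENNReal

noncomputable section
namespace BEp

theorem CoreOut.mono {Ω : Set (V 1)} {K : Kx Ω} {p : ℝ} {Q H : Set (V 1)} {r1 : ℕ → V 1 → V 1}
    {f : V 1 → V 1} {D : V 1 → V 1 →L[ℝ] V 1} {ν : Measure (V 1)} {θ : Set (V 1) → ℝ}
    {e e1 e' : ℝ≥0∞} {G : V 1 → V 1} {g : V 1 → ℝ≥0∞} {Sc : ℕ → V 1 → V 1}
    (h : CoreOut K p Q H r1 f D ν θ e e' G g Sc) (k : e ≤ e1) :
    CoreOut K p Q H r1 f D ν θ e1 e' G g Sc :=
  ⟨h.inj, h.ltp, h.cs, h.mg, h.sp, h.int, h.sup,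
    h.en.mono fun _ h2 => h2.mono fun _ h1 => h1.trans k⟩

variable {ι κ : Type} [Fintype ι] [Fintype κ]

/-- The finitely many segments on which absolute continuity is used. -/
theorem Cfg.NCore_lines {X : Cfg 1 ι κ} (hX : X.Ok) {Ω : Set (V 1)} (hΩ : IsOpen Ω) {K : Kx Ω}
    {Y' : κ → Set (V 1)} {ρ' : ℝ} (hF : X.Fit K Y' ρ') :
    ∃ L : Set (V 1 × V 1), L.Finite ∧ (∀ e ∈ L, ∃ q, segment ℝ e.1 e.2 ⊆ X.Qc q 3) ∧
      (∀ a b, K.Edge a b → (openSegment ℝ a b ∩ X.Reg).Nonempty → (a, b) ∈ L) ∧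
      ∀ a, ∀ b ∈ X.F a, ∀ J ∈ Finset.powersetCard 1 (X.G a).I, ∀ v ∈ (X.G a).pos J,
        ((X.G a).sq b J v fun _ => -(8 * (X.G a).M * (X.G a).s),
          (X.G a).sq b J v fun _ => 8 * (X.G a).M * (X.G a).s) ∈ L := by
  have hη := hX.η0
  have hR : X.Reg ⊆ Ω := iUnion_subset fun q =>
    (closedBall_subset_closedBall (by linarith)).trans (hF.reg q)
  refine ⟨{e | K.Edge e.1 e.2 ∧ (openSegment ℝ e.1 e.2 ∩ X.Reg).Nonempty} ∪
    ⋃ a, ⋃ b ∈ X.F a, ⋃ J ∈ Finset.powersetCard 1 (X.G a).I, ⋃ v ∈ (X.G a).pos J,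
      {((X.G a).sq b J v fun _ => -(8 * (X.G a).M * (X.G a).s),
        (X.G a).sq b J v fun _ => 8 * (X.G a).M * (X.G a).s)}, ?_, ?_,
    fun a b h1 h2 => Or.inl ⟨h1, h2⟩, fun a b hb J hJ v hv => Or.inr ?_⟩
  · refine ((Kx.finite_edge (K := K) hΩ X.isCompact_Reg hR).subset fun e h =>
      ⟨h.1, h.2.mono (inter_subset_inter_left _ (openSegment_subset_segment ..))⟩).union
      (finite_iUnion fun a => (Finset.finite_toSet _).biUnion fun b _ =>
        (Finset.finite_toSet _).biUnion fun J _ => (Finset.finite_toSet _).biUnion fun v _ =>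
          finite_singleton _)
  · rintro e (h | h)
    · exact Cfg.edge_sub hX hF h.1 h.2
    · simp only [mem_iUnion, mem_singleton_iff] at h
      obtain ⟨a, b, hb, J, -, v, hv, rfl⟩ := h
      have h0 : 0 ≤ 8 * ((X.G a).M : ℝ) * (X.G a).s := by
        have := (hX.gok a).s0
        positivity
      have h1 : ‖(X.G a).cb b - X.o (X.q a)‖ ≤ 1 * X.η :=
        mem_closedBall_iff_norm.1 (Cf0.cell_sub hX.toOk a ((hX.hF a b).1 hb).2)
      have h2 : 64 * ((X.G a).M : ℝ) * (X.G a).s ≤ X.ρ := hX.sρ a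
      have h3 := hX.ρη
      have key : ∀ y ∈ closedBall (0 : J → ℝ) (8 * (X.G a).M * (X.G a).s),
          (X.G a).sq b J v y ∈ X.Qc (X.q a) 3 := fun y hy => by
        have h4 := Gr.norm_sq_sub (hX.gok a) b hv hy
        have h5 := norm_sub_le_norm_sub_add_norm_sub ((X.G a).sq b J v y) ((X.G a).cb b)
          (X.o (X.q a))
        exact mem_closedBall_iff_norm.2 (by linarith only [hη, h1, h2, h3, h4, h5])
      refine ⟨X.q a, (convex_closedBall _ _).segment_subset (key _ ?_) (key _ ?_)⟩ <;>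
        rw [mem_closedBall_zero_iff, pi_norm_le_iff_of_nonneg h0] <;> intro _
      · rw [norm_neg, Real.norm_of_nonneg h0]
      · rw [Real.norm_of_nonneg h0]
  · simp only [mem_iUnion, mem_singleton_iff]
    exact ⟨a, b, hb, J, hJ, v, hv, rfl⟩

theorem core3 (htop : TopG) {p : ℝ} (hp : 1 ≤ p) (hp2 : p < 2) : Core3 p := by
  obtain ⟨C0, hC0, hTA⟩ := top_an htop
  have hp0 : 0 ≤ p := by linarith
  refine ⟨ENNReal.ofReal (16 * C0) ^ p, ENNReal.rpow_ne_top_of_nonneg hp0 ENNReal.ofReal_ne_top, ?_⟩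
  intro S K0 f0 D v e η0 hS hK hKS hf hi hD hDi hv hvi hU hApx he hη0
  classical
  have h2p : (2 : ℝ≥0∞) ^ p ≠ ⊤ := ENNReal.rpow_ne_top_of_nonneg hp0 (by simp)
  obtain ⟨r, hr, hr'⟩ := exists_between hp2
  obtain ⟨CW, hCW, hcfg⟩ := exists_cfg (m := 1) (r := r) (by linarith) (by push_cast; linarith)
  obtain ⟨e0, he0, he0t, hfin⟩ := ACo_small (c := 2 ^ p * (3 + 4 * volume S) + 1)
    (by have := hS.measure_lt_top (μ := volume); finiteness) he
  choose ty hA hOk hPk hSm using exists_typ3 (by linarith : 0 < p) hr (2 * C0 + 2) hCW he0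
  choose Cs hCs hSel using fun B => sel3 hp (hOk B)
  obtain ⟨e1, he1, he1'⟩ := ACo_e1 (by linarith : 0 < p) he0
  obtain ⟨δ, hδ, hδ'⟩ := Metric.uniformContinuousOn_iff.1
    (hS.uniformContinuousOn_of_continuous hf.continuousOn) e1 he1
  set aa : (V 1 →L[ℝ] V 1) → ℝ≥0∞ := fun B => 2 * (ty B).aT p * CW +
    (ty B).aF p (2 * C0 + 2) * ENNReal.ofReal (ty B).th ^ p * Cs B with haa
  have hth : ∀ T : Typ 1, T.aF p (2 * C0 + 2) * ENNReal.ofReal T.th ^ p ≠ ⊤ := fun T =>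
    ENNReal.mul_ne_top (T.aF_ne_top hp0 _) (ENNReal.rpow_ne_top_of_nonneg hp0 ENNReal.ofReal_ne_top)
  have haat : ∀ B, aa B ≠ ⊤ := fun B => ENNReal.add_ne_top.2
    ⟨ENNReal.mul_ne_top (ENNReal.mul_ne_top (by simp) ((ty B).aT_ne_top hp0)) hCW,
      ENNReal.mul_ne_top (hth _) (hCs B)⟩
  have hSm' := hS.measurableSet
  have hD'i : ∫⁻ x, ‖S.indicator D x‖ₑ ^ p ≠ ⊤ := by
    rw [← lintegral_indicator hSm'] at hDi
    refine fun h => hDi (h ▸ lintegral_congr fun x => ?_)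
    by_cases hx : x ∈ S
    · simp only [indicator_of_mem hx]
    · rw [indicator_of_notMem hx, indicator_of_notMem hx, ← ofReal_norm, norm_zero,
        ENNReal.ofReal_zero, ENNReal.zero_rpow_of_pos (by linarith only [hp, hr, hr'] : 0 < p)]
  obtain ⟨ι, _, o, Aq, η, hη, hη1, far, hUo, hcov, hcard, hsum⟩ := exists_cubes hp
    (hD.indicator hSm').aestronglyMeasurable hD'i hK isOpen_interior
    (hS.isBounded.subset interior_subset) hKS (cc := fun B => 2 ^ p * (aa B + 1))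
    (fun B => ENNReal.mul_ne_top h2p (ENNReal.add_ne_top.2 ⟨haat B, by simp⟩)) he0
    (η0 := min (δ / 10) η0) (by positivity)
  have hηδ : η ≤ δ / 10 := hη1.trans (min_le_left _ _)
  have hUS : ∀ q, closedBall (o q) (10 * η) ⊆ S := fun q => (hUo q).trans interior_subset
  set Iq : ι → ℝ≥0∞ := fun q => ∫⁻ y in closedBall (o q) (10 * η), ‖D y - Aq q‖ₑ ^ p with hIq
  have hsum' : ∑ q, 2 ^ p * (aa (Aq q) + 1) * Iq q ≤ e0 := by
    refine le_trans (le_of_eq (Finset.sum_congr rfl fun q _ => ?_)) hsum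
    congr 1
    exact setLIntegral_congr_fun measurableSet_closedBall fun y hy => by
      simp only [indicator_of_mem (hUS q hy)]
  obtain ⟨κ, _, X0, hX0, ho, hty, hη', h8⟩ : ∃ (κ : Type) (_ : Fintype κ) (X : Cf0 1 ι κ), X.Ok ∧
      X.o = o ∧ (X.ty = fun q => ty (Aq q)) ∧ X.η = η ∧ 8 * X.η1 ≤ X.η := by
    obtain ⟨κ, _, X1, hX1, a1, a2, a3⟩ := exists_cf0 o (fun q => ty (Aq q)) hη
      (fun q => hOk _) (fun q => hPk _) far
    have := hX1.η10
    refine ⟨κ, inferInstance, { X1 with η1 := X1.η1 / 8 },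
      hX1.shrink (by positivity) (by linarith only [this]), a1, a2, a3, ?_⟩
    have := hX1.η1η
    change 8 * (X1.η1 / 8) ≤ X1.η
    linarith only [this]
  have hQ0 : ∀ q (j : ℝ), X0.Qc q j = closedBall (o q) (j * η) := fun q j => by
    rw [Cf0.Qc, ho, hη']
  have hQS : ∀ q (j : ℝ), j ≤ 10 → X0.Qc q j ⊆ closedBall (o q) (10 * η) := fun q j hj => by
    rw [hQ0]
    exact closedBall_subset_closedBall (by (refine le_of_not_gt fun h_nl => ?_; linarith only [h_nl, hp, hr, hr', hη, hj, mul_nonneg_of_nonpos_of_nonpos (Mathlib.Tactic.Linarith.sub_nonpos_of_le hp) (le_of_lt (Mathlib.Tactic.Linarith.sub_neg_of_lt h_nl)), mul_pos_of_neg_of_neg (Mathlib.Tactic.Linarith.sub_neg_of_lt hr) (Mathlib.Tactic.Linarith.sub_neg_of_lt h_nl), mul_pos_of_neg_of_neg (Mathlib.Tactic.Linarith.sub_neg_of_lt hr') (Mathlib.Tactic.Linarith.sub_neg_of_lt h_nl), mul_nonneg_of_nonpos_of_nonpos (le_of_lt (Mathlib.Tactic.Linarith.sub_neg_of_lt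 hη)) (Mathlib.Tactic.Linarith.sub_nonpos_of_le hj)]))
  have hQt : ∀ q (j : ℝ), ∀ t : V 1, ‖t‖ ≤ η → ∀ z ∈ X0.Qc q j,
      z + t ∈ X0.Qc q (j + 1) := fun q j t ht z hz => by
    rw [hQ0, mem_closedBall_iff_norm] at hz ⊢
    rw [add_sub_right_comm]
    linarith only [ht, hz, norm_add_le (z - o q) t]
  refine ⟨X0.η, X0.η1, _, _, _, Cf0.coreA hX0 (hη' ▸ hη1.trans (min_le_right _ _)) h8
    (fun q => (hQS q 1 (by norm_num)).trans (hUS q)) (fun x hx t ht => by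
      obtain ⟨q, hq⟩ := hcov x hx t (hη' ▸ ht)
      exact ⟨q, by rwa [hQ0, one_mul]⟩), fun Ω τ0 hΩ hSΩ => ?_⟩
  choose! μ hμ0 hμ using fun (ρ : ℝ) (h : 0 < ρ) => open_mod isOpen_interior hf.continuousOn
    (hi.mono interior_subset) (S := ⋃ q, X0.Qc q 3)
    (isCompact_iUnion fun q => isCompact_closedBall _ _)
    (iUnion_subset fun q => (hQS q 3 (by norm_num)).trans (hUo q)) h
  obtain ⟨Lm, hLm0, hLm⟩ : ∃ Lm : ℝ, 0 < Lm ∧ ∀ a, 64 * (X0.C a).Λ * (X0.C a).M ≤ Lm := by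
    obtain ⟨L, hL⟩ := (finite_range fun a => 64 * (X0.C a).Λ * (X0.C a).M).bddAbove
    exact ⟨max L 1, by positivity, fun a => (hL (mem_range_self a)).trans (le_max_left _ _)⟩
  obtain ⟨ed, hed, -, hed'⟩ := ACo_small
    (c := (∑ a, (X0.C a).aF p (2 * C0 + 2) * ENNReal.ofReal (X0.C a).th ^ p) * 2)
    (ENNReal.mul_ne_top (ENNReal.sum_ne_top.2 fun a _ => hth _) (by simp)) he0
  choose! ρ' Y' hρ0 hYv hfit using fun (ρ : ℝ) (h : 0 < ρ) => exists_fit hX0 τ0 hΩ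
    (fun q => (hQS q 3 (by norm_num)).trans ((hUS q).trans hSΩ)) hed h
  obtain ⟨X, rfl, hX, hs, hW, hWd⟩ := hcfg ι κ X0 hX0 ed hed
    (fun ρ => min (min (μ (ρ' ρ / 2)) e1) (ρ' ρ) / Lm)
    (fun ρ h => div_pos (lt_min (lt_min (hμ0 _ (half_pos (hρ0 ρ h))) he1) (hρ0 ρ h)) hLm0)
  have hs0 : ∀ a, 64 * (X.C a).Λ * (X.C a).M * X.s ≤ min (min (μ (ρ' X.ρ / 2)) e1) (ρ' X.ρ) :=
    fun a => (mul_le_mul_of_nonneg_right (hLm a) hX.s0.le).trans ((le_div_iff₀' hLm0).1 hs)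
  have hs1 : ∀ a, 0 ≤ ((X.C a).M : ℝ) * X.s ∧
      ((X.C a).M : ℝ) * X.s ≤ (X.C a).Λ * ((X.C a).M * X.s) := fun a => by
    have := mul_nonneg (Nat.cast_nonneg (X.C a).M) hX.s0.le
    exact ⟨this, le_mul_of_one_le_left this (hX.toOk.cty a).Λ1⟩
  obtain ⟨K, hRef, hF⟩ := hfit X.ρ hX.ρ0 X rfl hX rfl fun a => by
    have := (hs0 a).trans (min_le_right _ _)
    linarith only [this, hs1, (hs1 a).2]
  have hAq : ∀ q, (X.ty q).A = Aq q := fun q => by rw [hty]; exact hA _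
  obtain ⟨E0, m0, i0, hst⟩ := Cfg.stage_t3 hX hr.le hW (Cs := fun q => Cs (Aq q))
    (fun q => by rw [hty]; exact hSel _) hD
    (fun q => Apx.mono hApx ((hQS q 9 (by norm_num)).trans (hUS q)))
    fun q => (X.ty q).aF p (2 * C0 + 2) * ENNReal.ofReal (X.ty q).th ^ p
  obtain ⟨L, l1, l2, l3, l4⟩ := Cfg.NCore_lines hX hΩ hF
  obtain ⟨N, n1, n2, n3⟩ := ae_lines hD hv hvi hU l1 (η := η) fun e h y hy t ht => by
    obtain ⟨q, hq⟩ := l2 e h
    exact hUS q (hQS q _ (by norm_num) (hQt q 3 t ht y (hq hy)))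
  have m1 : Measurable (N.indicator fun _ => (⊤ : ℝ≥0∞)) := measurable_const.indicator n1
  have he0e : e0 ≤ e := le_trans (le_mul_of_one_le_left' le_add_self) hfin
  refine ⟨K, fun t => 2 ^ p * E0 t + N.indicator (fun _ => ⊤) t, hRef, (m0.const_mul _).add m1,
    ?_, fun t ht hE f g ν hI θ hθ ε hε => ?_⟩
  · rw [lintegral_add_right _ m1, lintegral_const_mul _ m0, lintegral_indicator n1,
      setLIntegral_measure_zero _ _ (nonpos_iff_eq_zero.1 ((Measure.restrict_le_self N).trans n2.le)),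
      add_zero]
    refine (mul_le_mul_right i0 _).trans ?_
    rw [← mul_assoc]
    refine mul_le_mul_left (le_trans ?_ (hsum'.trans he0e)) _
    rw [Finset.mul_sum]
    refine Finset.sum_le_sum fun q _ => ?_
    rw [← mul_assoc, hAq]
    refine mul_le_mul' (mul_le_mul_right ?_ _) (lintegral_mono_set (hQS q 9 (by norm_num)))
    rw [hty]
    exact le_self_add
  rw [hη', mem_closedBall_zero_iff] at ht
  obtain ⟨k1, k2⟩ := ENNReal.add_ne_top.1 hE
  have hN : t ∉ N := fun h => k2 (indicator_of_mem h _)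
  have hc : E0 t ≠ ⊤ := fun h => k1 (by rw [h]; exact ENNReal.mul_top (by positivity))
  have h3S : ∀ q, X.Qc q 3 ⊆ S := fun q => (hQS q 3 (by norm_num)).trans (hUS q)
  have h23 : ∀ q, X.Qc q 2 ⊆ X.Qc q 3 := fun q =>
    closedBall_subset_closedBall (by linarith only [hη, hη', hX.η0])
  have hac : ∀ e ∈ L, ACs f (fun y => D (y + t)) e.1 e.2 := fun e h =>
    n3 t ht hN f e h fun y hy => by
      obtain ⟨q, hq⟩ := l2 e h
      exact hI.eq y (h3S q (hq hy))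
  obtain ⟨kp0, hK0, hFi, hEt⟩ := hst t (by rwa [hη', mem_closedBall_zero_iff]) f
    (fun y hy => by
      obtain ⟨q, hq⟩ := mem_iUnion.1 hy
      exact hI.eq y (h3S q (h23 q hq))) fun a b hb J hJ w hw => hac _ (l4 a b hb J hJ w hw)
  obtain ⟨G, g', Sc, hO⟩ := Cfg.core_t hC0 hTA hX hp hr hCW he0 (fun q => by rw [hty]; exact hSm _)
    hW hΩ hF (by
      refine le_trans ?_ hed'
      rw [mul_assoc, Finset.sum_mul]
      refine Finset.sum_le_sum fun a _ => mul_le_mul_right ?_ _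
      split_ifs with h
      · exact (add_le_add (hWd a h) (hYv X.ρ hX.ρ0 a h)).trans (two_mul ed).ge
      · exact zero_le) hI hD h3S hK0 hFi hc hEt (fun a b h h' => hac _ (l3 a b h h'))
    (μ := μ (ρ' X.ρ / 2)) (e1 := e1) (fun x hx w hw => by
      obtain ⟨q, hq⟩ := mem_iUnion.1 hx
      have a1 : x + t ∈ X.Qc q 3 := by
        have := hQt q 2 t ht x hq
        rwa [show (2 : ℝ) + 1 = 3 by norm_num] at this
      rw [hI.eq x (h3S q (h23 q hq))] at hw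
      obtain ⟨y, ⟨y1, -⟩, rfl⟩ := hμ _ (half_pos hF.ρ0) _ (mem_iUnion.2 ⟨q, a1⟩) hw
      have a2 : y - t ∈ ball x (ρ' X.ρ / 2) := by
        rw [mem_ball_iff_norm] at y1 ⊢
        rwa [sub_right_comm, sub_sub]
      have a3 : y - t ∈ S := h3S q (closedBall_subset_closedBall' (by
        have := hF.ρ1
        have := hX.ρη
        have := hF.ρ0
        linarith [mem_closedBall.1 hq]) (ball_subset_closedBall a2))
      exact ⟨y - t, ⟨a2, hSΩ a3⟩, by rw [hI.eq _ a3, sub_add_cancel]⟩) he1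
    (fun a => by
      have := (hs0 a).trans (min_le_left _ _)
      linarith only [this, hs1, (hs1 a).1, (hs1 a).2])
    (fun q x hx y hy => by
      have a1 := hQt q 3 t ht x hx
      have b1 := hQt q 3 t ht y hy
      rw [hI.eq x (h3S q hx), hI.eq y (h3S q hy), ← dist_eq_norm]
      refine (hδ' _ (hUS q (hQS q _ (by norm_num) a1)) _ (hUS q (hQS q _ (by norm_num) b1)) ?_).le
      rw [hQ0, mem_closedBall] at a1 b1
      linarith only [hη, hηδ, a1, b1, dist_triangle_right (x + t) (y + t) (o q)]) hθ hε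
  rw [funext fun k => Cf0.r1_eq hX.toOk (RI Finset.univ k)] at hO
  refine ⟨G, g', Sc, hO.mono ?_⟩
  have h3 : (Fintype.card ι : ℝ≥0∞) * ENNReal.ofReal ((2 * X.η) ^ (2 * 1 + 1)) ≤ volume S := by
    rw [hη']
    exact hcard.trans (measure_mono interior_subset)
  have h4 : ∑ q, 2 ^ p * ∫⁻ z in X.Qc q 1, ‖D (z + t) - (X.ty q).A‖ₑ ^ p ≤ e0 := by
    refine le_trans (Finset.sum_le_sum fun q _ => ?_) hsum'
    rw [mul_assoc, hAq]
    refine mul_le_mul_right ((ACo_shift measurableSet_closedBall measurableSet_closedBall t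
      (fun z hz => hQS q _ (by norm_num) (hQt q 1 t ht z hz)) fun y => ‖D y - Aq q‖ₑ ^ p).trans ?_) _
    exact le_mul_of_one_le_left' le_add_self
  calc _ ≤ 2 ^ p * (3 * e0 + E0 t + volume S * (e0 + 3 * e0)) + e0 := by gcongr
    _ = (2 ^ p * (3 + 4 * volume S) + 1) * e0 + 2 ^ p * E0 t := by ring
    _ ≤ _ := add_le_add hfin le_self_add

end BEp
end
end

-- merged part: Pool.Agent.Work.MP_f0515e_an.D3.MMo1
section
/-! Mollification of Lipschitz maps.
Plan. φ j the ContDiffBump at 0 with rIn = 1/(2(j+1)), rOut = 1/(j+1), u j = BMoll_cv (φ j) f. BMoll_smooth, BMoll_lip, ContDiffBump.dist_normed_convolution_le (see Pos/UPush).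
Averaging: BMoll_sub, ContinuousLinearMap.integral_comp_comm, integral_mono, the weight has integral one and vanishes off ball 0 rOut.
Derivatives: BSm_fderiv (p = 1, Ω a large ball, memW1p_lip, A = 0) says fderiv (u j) x is the convolution of the bump with the bounded measurable fderiv f at x;
ContDiffBump.ae_convolution_tendsto_right_of_locallyIntegrable. -/

open Set Metric Filter Topology Function BEv MeasureTheory
open scoped NNReal ENNReal ContDiff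

noncomputable section
namespace BEp

theorem moll_lip {n : ℕ} {f : Rn n → Rn n} {L : ℝ} (hL : 0 ≤ L) (hf : Lz f L) :
    ∃ u : ℕ → Rn n → Rn n, (∀ j, ContDiff ℝ ∞ (u j)) ∧ (∀ j, Lz (u j) L) ∧
      (∀ j x, ‖u j x - f x‖ ≤ L / (j + 1)) ∧
      (∀ (j : ℕ) (ℓ : Rn n →L[ℝ] ℝ) (y z : Rn n) (c : ℝ),
        (∀ t : Rn n, ‖t‖ < 1 / (j + 1) → c ≤ ℓ (f (y - t) - f (z - t))) → c ≤ ℓ (u j y - u j z)) ∧
      ∀ᵐ x, Tendsto (fun j => fderiv ℝ (u j) x) atTop (𝓝 (fderiv ℝ f x)) := by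
  have hl : LipschitzWith ⟨L, hL⟩ f := LipschitzWith.of_dist_le_mul fun x y => by
    rw [dist_eq_norm, dist_eq_norm]
    exact hf x y
  have hc := hl.continuous
  have hr : ∀ j : ℕ, (0 : ℝ) < 1 / ((j : ℝ) + 1) := fun j => by positivity
  let φ : ℕ → ContDiffBump (0 : Rn n) := fun j =>
    ⟨1 / ((j : ℝ) + 1) / 2, 1 / ((j : ℝ) + 1), half_pos (hr j), half_lt_self (hr j)⟩
  refine ⟨fun j => BMoll_cv (φ j) f, fun j => BMoll_smooth _ hc,
    fun j x y => (BMoll_lip (φ j) hl).norm_sub_le x y, fun j x => ?_, fun j ℓ y z c h => ?_, ?_⟩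
  · rw [← dist_eq_norm]
    refine (φ j).dist_normed_convolution_le hc.aestronglyMeasurable fun y hy => ?_
    rw [dist_eq_norm, ← mul_one_div]
    exact (hf y x).trans (mul_le_mul_of_nonneg_left (mem_ball_iff_norm.1 hy).le hL)
  · have h1 : ∫ t, (φ j).normed volume t • c = c := by
      rw [integral_smul_const, (φ j).integral_normed, one_smul]
    have hI := BMoll_int (φ j) (Φ := fun t => f (y - t) - f (z - t)) (by fun_prop)
    rw [BMoll_sub _ hc, ← ℓ.integral_comp_comm hI, ← h1]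
    refine integral_mono (BMoll_int _ continuous_const) (ℓ.integrable_comp hI) fun t => ?_
    simp only [map_smul, smul_eq_mul]
    by_cases ht : (φ j).normed volume t = 0
    · rw [ht, zero_mul, zero_mul]
    · have h3 : t ∈ ball (0 : Rn n) (φ j).rOut := by
        rw [← (φ j).support_normed_eq (μ := volume)]
        exact ht
      exact mul_le_mul_of_nonneg_left (h t (mem_ball_zero_iff.1 h3)) ((φ j).nonneg_normed t)
  · have hD : LocallyIntegrable (fderiv ℝ f) volume :=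
      (memLp_top_of_bound (measurable_fderiv ℝ f).aestronglyMeasurable L
        (Eventually.of_forall fun x => norm_fderiv_le_of_lipschitz ℝ hl)).locallyIntegrable le_top
    filter_upwards [ContDiffBump.ae_convolution_tendsto_right_of_locallyIntegrable (φ := φ)
      (l := atTop) (K := 2) tendsto_one_div_add_atTop_nhds_zero_nat
      (Eventually.of_forall fun j => le_of_eq (mul_div_cancel₀ _ two_ne_zero).symm) hD] with x hx
    refine hx.congr fun j => ?_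
    have h1 := BSm_fderiv (p := 1) le_rfl (isOpen_ball (x := x) (ε := (φ j).rOut + 1)) hc
      (memW1p_lip isBounded_ball hl) (φ j) (isCompact_closedBall x (φ j).rOut)
      (closedBall_subset_ball (lt_add_one _)) Subset.rfl 0
    simp only [sub_zero] at h1
    rw [BMoll_cv_eq, h1, convolution_lsmul_swap]
    refine (setIntegral_eq_integral_of_forall_compl_eq_zero fun y hy => ?_).symm
    rw [image_eq_zero_of_notMem_tsupport (f := (φ j).normed volume) fun k => hy ?_, zero_smul]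
    rwa [(φ j).tsupport_normed_eq, mem_closedBall_zero_iff, ← dist_eq_norm, dist_comm] at k

end BEp
end
end

-- merged part: Pool.Agent.Work.MP_f0515e_an.D3.MMo2
section
/-! One local mollification.
Plan. χ smooth with values in [0,1], equal to 1 near C, S = tsupport χ compact in W (exists_contMDiff_support_eq or exists_smooth_zero_one variants, or a ContDiffBump mollification of an indicator); χ is Lipschitz.
S2 = cthickening r0 S ⊆ W compact; F is Lipschitz on S2 (LocallyLipschitzOn.exists_lipschitzOnWith_of_compact), f a Lipschitz extension (LipschitzOnWith.extend_pi), u j from moll_lip, c, r from cr_cpt on S, r' = min r r0 / 2.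
F' j x = F x + χ x • (u j x - F x). For x in S, y, z in ball x r', 1/(j+1) < r': F' y - F' z = (1 - χ y)(F y - F z) + χ y (u y - u z) + (χ y - χ z)(u z - F z), so ℓ of it is at least (c - Lχ L/(j+1)) ‖y - z‖.
Off S, F' = F locally. Injective: if y is in S and ‖y - z‖ < r' use the last bound; otherwise open_mod (LFin) with ρ = r' gives ‖F y - F z‖ ≥ μ while ‖F' - F‖ ≤ L/(j+1) < μ/2.
Energy: split Ω into S and Ω minus S; on S dominated convergence (tendsto_lintegral_of_dominated_convergence', aem_en, constant bound from ll_cpt and LL.norm_fderiv), a.e. f is differentiable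
(LipschitzWith.ae_differentiableAt) and fderiv (F' j) x = DF + χ x • (D u j - DF) + (D χ).smulRight (u j x - F x). -/

open Set Metric Filter Topology Function BEv MeasureTheory
open scoped NNReal ENNReal ContDiff

noncomputable section
namespace BEp

variable {n : ℕ} {Ω : Set (Rn n)} {p : ℝ} {G F : Rn n → Rn n}

theorem MMo2_cut {C W : Set (Rn n)} (hC : IsCompact C) (hW : IsOpen W) (h1 : C ⊆ W) :
    ∃ (S : Set (Rn n)) (χ : Rn n → ℝ) (A : ℝ), IsCompact S ∧ C ⊆ S ∧ S ⊆ W ∧ ContDiff ℝ ∞ χ ∧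
      (∀ x ∈ C, ∀ᶠ y in 𝓝 x, χ y = 1) ∧ (∀ x, x ∉ S → χ x = 0) ∧ (∀ x, χ x ∈ Icc (0 : ℝ) 1) ∧
      0 ≤ A ∧ Lz χ A := by
  obtain ⟨S, hS, h2, h3⟩ := exists_compact_between hC hW h1
  obtain ⟨ρ, e1, e0, eI⟩ := exists_contMDiffMap_one_nhds_of_subset_interior (n := (⊤ : ℕ∞))
    (modelWithCornersSelf ℝ (Rn n)) hC.isClosed h2
  have hs : ContDiff ℝ ∞ (ρ : Rn n → ℝ) := ρ.contMDiff.contDiff
  have hc : HasCompactSupport (ρ : Rn n → ℝ) := HasCompactSupport.intro hS e0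
  obtain ⟨A, hA⟩ := ContDiff.lipschitzWith_of_hasCompactSupport hc hs (by simp)
  refine ⟨S, ρ, A, hS, h2.trans interior_subset, h3, hs, fun x hx => ?_, e0, eI, A.2,
    fun x y => ?_⟩
  · exact e1.filter_mono (nhds_le_nhdsSet hx)
  · simpa only [dist_eq_norm] using hA.dist_le_mul x y

theorem MMo2_ext {S : Set (Rn n)} (hS : IsCompact S) (h : ∀ x ∈ S, ∃ L, LL F x L) :
    ∃ (f : Rn n → Rn n) (L : ℝ≥0), LipschitzWith L f ∧ EqOn F f S := by
  have h1 : LocallyLipschitzOn S F := by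
    intro x hx
    obtain ⟨L, hL⟩ := h x hx
    obtain ⟨r, hr, hb⟩ := hL.exists_ball
    refine ⟨Real.toNNReal L, ball x r, mem_nhdsWithin_of_mem_nhds (ball_mem_nhds x hr), ?_⟩
    refine LipschitzOnWith.of_dist_le_mul fun y hy z hz => ?_
    rw [dist_eq_norm, dist_eq_norm]
    exact (hb y hy z hz).trans
      (mul_le_mul_of_nonneg_right (Real.le_coe_toNNReal L) (norm_nonneg _))
  obtain ⟨K, hK⟩ := h1.exists_lipschitzOnWith_of_compact hS
  obtain ⟨f, hf, e⟩ := hK.extend_pi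
  exact ⟨f, K, hf, e⟩

theorem MMo2_lz {χ : Rn n → ℝ} {u f : Rn n → Rn n} {A L δ : ℝ} (hχ : ∀ x, χ x ∈ Icc (0 : ℝ) 1)
    (hA : 0 ≤ A) (_hL : 0 ≤ L) (h1 : Lz χ A) (h2 : Lz u L) (h3 : Lz f L)
    (h4 : ∀ x, ‖u x - f x‖ ≤ δ) : Lz (fun x => χ x • (u x - f x)) (2 * L + A * δ) := by
  intro y z
  have e : χ y • (u y - f y) - χ z • (u z - f z) =
      χ y • ((u y - u z) - (f y - f z)) + (χ y - χ z) • (u z - f z) := by
    simp only [smul_sub, sub_smul]; abel
  have a1 : ‖χ y‖ ≤ 1 := by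
    rw [Real.norm_eq_abs, abs_of_nonneg (hχ y).1]; exact (hχ y).2
  have a2 : ‖(u y - u z) - (f y - f z)‖ ≤ 2 * L * ‖y - z‖ :=
    (norm_sub_le _ _).trans (by linarith [h2 y z, h3 y z])
  have a3 : ‖χ y • ((u y - u z) - (f y - f z))‖ ≤ 2 * L * ‖y - z‖ := by
    rw [norm_smul]
    exact (mul_le_mul a1 a2 (norm_nonneg _) zero_le_one).trans (by rw [one_mul])
  have a4 : ‖(χ y - χ z) • (u z - f z)‖ ≤ A * ‖y - z‖ * δ := by
    rw [norm_smul]
    exact mul_le_mul (h1 y z) (h4 z) (norm_nonneg _) (by positivity)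
  show ‖χ y • (u y - f y) - χ z • (u z - f z)‖ ≤ _
  rw [e]
  refine (norm_add_le _ _).trans ?_
  linarith only [a3, a4]

theorem MMo2_mon {χ : Rn n → ℝ} {u f : Rn n → Rn n} {A δ c : ℝ} {y z : Rn n}
    {ℓ : Rn n →L[ℝ] ℝ} (hℓ : ‖ℓ‖ ≤ 1) (hχ : ∀ x, χ x ∈ Icc (0 : ℝ) 1) (hA : 0 ≤ A)
    (h1 : Lz χ A) (h4 : ∀ x, ‖u x - f x‖ ≤ δ) (hδ : A * δ ≤ c / 2)
    (hf : c * ‖y - z‖ ≤ ℓ (f y - f z)) (hu : c * ‖y - z‖ ≤ ℓ (u y - u z)) :
    c / 2 * ‖y - z‖ ≤ ℓ ((f y + χ y • (u y - f y)) - (f z + χ z • (u z - f z))) := by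
  have e : (f y + χ y • (u y - f y)) - (f z + χ z • (u z - f z)) =
      (1 - χ y) • (f y - f z) + χ y • (u y - u z) + (χ y - χ z) • (u z - f z) := by
    simp only [smul_sub, sub_smul, one_smul]; abel
  rw [e, map_add, map_add, map_smul, map_smul, smul_eq_mul, smul_eq_mul]
  have a4 : ‖(χ y - χ z) • (u z - f z)‖ ≤ A * ‖y - z‖ * δ := by
    rw [norm_smul]
    exact mul_le_mul (h1 y z) (h4 z) (norm_nonneg _) (by positivity)
  have a5 : ‖ℓ ((χ y - χ z) • (u z - f z))‖ ≤ A * ‖y - z‖ * δ :=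
    (ℓ.le_opNorm _).trans ((mul_le_mul hℓ a4 (norm_nonneg _) zero_le_one).trans (by rw [one_mul]))
  have a6 := (abs_le.1 a5).1
  have a7 : A * ‖y - z‖ * δ ≤ c / 2 * ‖y - z‖ := by
    linarith only [hδ, mul_le_mul_of_nonneg_right hδ (norm_nonneg (y - z))]
  have b1 := mul_le_mul_of_nonneg_left hf (sub_nonneg.2 (hχ y).2)
  have b2 := mul_le_mul_of_nonneg_left hu (hχ y).1
  linarith only [a6, a7, b1, b2]

theorem MMo2_split (hΩ : IsOpen Ω) {S : Set (Rn n)} (hS : IsClosed S) (hs : S ⊆ Ω)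
    {F' : Rn n → Rn n} (e : ∀ x, x ∉ S → F' x = F x) {ε : ℝ≥0∞}
    (h : ∫⁻ x in S, en p F' G (fderiv ℝ G) x ≤ (∫⁻ x in S, en p F G (fderiv ℝ G) x) + ε) :
    Eg p Ω G F' ≤ Eg p Ω G F + ε := by
  have sp : ∀ H : Rn n → Rn n, Eg p Ω G H = (∫⁻ x in S, en p H G (fderiv ℝ G) x) +
      ∫⁻ x in Ω \ S, en p H G (fderiv ℝ G) x := by
    intro H
    unfold Eg
    rw [← lintegral_union (hΩ.measurableSet.diff hS.measurableSet) disjoint_sdiff_right,
      union_sdiff_cancel hs]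
  have e2 : ∫⁻ x in Ω \ S, en p F' G (fderiv ℝ G) x = ∫⁻ x in Ω \ S, en p F G (fderiv ℝ G) x := by
    refine setLIntegral_congr_fun (hΩ.measurableSet.diff hS.measurableSet) fun x hx => ?_
    refine en_congr ?_ _ _
    filter_upwards [hS.isOpen_compl.mem_nhds hx.2] with y hy using e y hy
  rw [sp F', sp F, e2, add_right_comm]
  gcongr

theorem MMo2_bd (hp : 0 ≤ p) {H : Rn n → Rn n} {x : Rn n} {M : ℝ} (h1 : ‖H x - G x‖ ≤ M)
    (h2 : ‖fderiv ℝ H x - fderiv ℝ G x‖ ≤ M) :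
    en p H G (fderiv ℝ G) x ≤ ENNReal.ofReal M ^ p + ENNReal.ofReal M ^ p := by
  unfold en
  rw [← ofReal_norm, ← ofReal_norm]
  exact add_le_add (ENNReal.rpow_le_rpow (ENNReal.ofReal_le_ofReal h1) hp)
    (ENNReal.rpow_le_rpow (ENNReal.ofReal_le_ofReal h2) hp)

theorem MMo2_lim {H : ℕ → Rn n → Rn n} {x : Rn n} (h1 : Tendsto (fun j => H j x) atTop (𝓝 (F x)))
    (h2 : Tendsto (fun j => fderiv ℝ (H j) x) atTop (𝓝 (fderiv ℝ F x))) :
    Tendsto (fun j => en p (H j) G (fderiv ℝ G) x) atTop (𝓝 (en p F G (fderiv ℝ G) x)) := by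
  unfold en
  exact ((ENNReal.continuous_rpow_const.tendsto _).comp (h1.sub_const _).enorm).add
    ((ENNReal.continuous_rpow_const.tendsto _).comp (h2.sub_const _).enorm)

theorem MMo2_der {χ : Rn n → ℝ} {u : ℕ → Rn n → Rn n} {f : Rn n → Rn n} {x : Rn n}
    (hχ : DifferentiableAt ℝ χ x) (hu : ∀ j, DifferentiableAt ℝ (u j) x)
    (hf : DifferentiableAt ℝ f x) (h1 : Tendsto (fun j => u j x) atTop (𝓝 (f x)))
    (h2 : Tendsto (fun j => fderiv ℝ (u j) x) atTop (𝓝 (fderiv ℝ f x))) :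
    Tendsto (fun j => fderiv ℝ (fun y => f y + χ y • (u j y - f y)) x) atTop
      (𝓝 (fderiv ℝ f x)) := by
  have e : ∀ j, fderiv ℝ (fun y => f y + χ y • (u j y - f y)) x = fderiv ℝ f x +
      (χ x • (fderiv ℝ (u j) x - fderiv ℝ f x) + (fderiv ℝ χ x).smulRight (u j x - f x)) :=
    fun j => (hf.hasFDerivAt.add (hχ.hasFDerivAt.smul
      ((hu j).hasFDerivAt.sub hf.hasFDerivAt))).fderiv
  simp only [e]
  have a1 : Tendsto (fun j => χ x • (fderiv ℝ (u j) x - fderiv ℝ f x)) atTop (𝓝 0) := by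
    simpa using (tendsto_sub_nhds_zero_iff.2 h2).const_smul (χ x)
  have a2 : Tendsto (fun j => (fderiv ℝ χ x).smulRight (u j x - f x)) atTop (𝓝 0) := by
    rw [tendsto_zero_iff_norm_tendsto_zero]
    simp only [ContinuousLinearMap.norm_smulRight_apply]
    simpa using (tendsto_sub_nhds_zero_iff.2 h1).norm.const_mul ‖fderiv ℝ χ x‖
  simpa using (a1.add a2).const_add (fderiv ℝ f x)

theorem moll_step (hΩ : IsOpen Ω) (hp : 0 ≤ p) (hG : IL Ω G) (hi : InjOn F Ω)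
    (h : ∀ x ∈ Ω, CR F x) {C W : Set (Rn n)} (hC : IsCompact C) (hW : IsOpen W) (h1 : C ⊆ W)
    (h2 : W ⊆ Ω) {ε : ℝ≥0∞} (hε : ε ≠ 0) :
    ∃ F', InjOn F' Ω ∧ (∀ x ∈ Ω, CR F' x) ∧ EqOn F' F Wᶜ ∧ (∀ x ∈ C, ContDiffAt ℝ ∞ F' x) ∧
      (∀ x, ContDiffAt ℝ ∞ F x → ContDiffAt ℝ ∞ F' x) ∧ Eg p Ω G F' ≤ Eg p Ω G F + ε := by
  obtain ⟨S, χ, A, hS, hCS, hSW, hχ, c1, c0, cI, hA, cL⟩ := MMo2_cut hC hW h1
  have hSΩ : S ⊆ Ω := hSW.trans h2
  obtain ⟨r0, hr0, hth⟩ := hS.exists_cthickening_subset_open hW hSW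
  obtain ⟨f, L, hfL, ef⟩ := MMo2_ext (F := F) (hS.cthickening (r := r0))
    fun x hx => (h x (h2 (hth hx))).1
  have hL : (0 : ℝ) ≤ L := L.2
  have hf : Lz f L := fun x y => by simpa only [dist_eq_norm] using hfL.dist_le_mul x y
  obtain ⟨u, us, uL, ub, um, ud⟩ := moll_lip hL hf
  obtain ⟨c, r, hc, hr, hcr⟩ := cr_cpt hS fun x hx => h x (hSΩ hx)
  obtain ⟨ρ, hρ, hρ1, hρ2⟩ : ∃ ρ : ℝ, 0 < ρ ∧ 2 * ρ ≤ r ∧ 2 * ρ ≤ r0 :=
    ⟨min r r0 / 2, by positivity, by linarith only [min_le_left r r0], by linarith [min_le_right r r0]⟩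
  have eb : ∀ x ∈ S, ∀ y ∈ ball x (2 * ρ), F y = f y := fun x hx y hy =>
    ef (mem_cthickening_of_dist_le y x r0 S hx ((mem_ball.1 hy).le.trans hρ2))
  have hb : ∀ x : Rn n, ball x ρ ⊆ ball x (2 * ρ) := fun x => ball_subset_ball (by linarith)
  have hFc : ContinuousOn F Ω := fun x hx =>
    (h x hx).1.choose_spec.continuousAt.continuousWithinAt
  obtain ⟨μ, hμ, hop⟩ := open_mod hΩ hFc hi hS hSΩ hρ
  set g : ℕ → Rn n → Rn n := fun j x => χ x • (u j x - f x) with hg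
  set H : ℕ → Rn n → Rn n := fun j x => F x + g j x with hH
  have eH : ∀ j x, H j x = F x + χ x • (u j x - F x) := by
    intro j x
    by_cases hx : x ∈ S
    · rw [eb x hx x (mem_ball_self (by linarith))]
      simp only [hH, hg, eb x hx x (mem_ball_self (by linarith))]
    · simp only [hH, hg, c0 x hx, zero_smul]
  have e0 : ∀ j x, x ∉ S → H j x = F x := fun j x hx => by
    simp only [hH, hg, c0 x hx, zero_smul, add_zero]
  have gb : ∀ j x, ‖g j x‖ ≤ L / (j + 1) := by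
    intro j x
    have a1 : ‖χ x‖ ≤ 1 := by
      rw [Real.norm_eq_abs, abs_of_nonneg (cI x).1]; exact (cI x).2
    show ‖χ x • (u j x - f x)‖ ≤ _
    rw [norm_smul]
    exact (mul_le_mul a1 (ub j x) (norm_nonneg _) zero_le_one).trans (by rw [one_mul])
  have dl : ∀ j : ℕ, (L : ℝ) / (j + 1) ≤ L := fun j =>
    div_le_self hL (by linarith [Nat.cast_nonneg (α := ℝ) j])
  have gL : ∀ j, Lz (g j) (2 * L + A * L) := fun j =>
    MMo2_lz cI hA hL cL (uL j) hf fun x => (ub j x).trans (dl j)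
  have t1 : Tendsto (fun j : ℕ => 1 / ((j : ℝ) + 1)) atTop (𝓝 0) :=
    tendsto_one_div_add_atTop_nhds_zero_nat
  have t0 : Tendsto (fun j : ℕ => (L : ℝ) / ((j : ℝ) + 1)) atTop (𝓝 0) := by
    simpa [div_eq_mul_inv] using t1.const_mul (L : ℝ)
  -- energy
  have hE : ∀ᶠ j in atTop, ∫⁻ x in S, en p (H j) G (fderiv ℝ G) x ≤
      (∫⁻ x in S, en p F G (fderiv ℝ G) x) + ε := by
    obtain ⟨L1, hL1, b1⟩ := ll_cpt (f := F) hS fun x hx => (h x (hSΩ hx)).1
    obtain ⟨L2, hL2, b2⟩ := ll_cpt (f := G) hS fun x hx => hG.ll x (hSΩ hx)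
    obtain ⟨M1, b3⟩ := hS.exists_bound_of_continuousOn
      ((hFc.sub hG.continuousOn).mono hSΩ)
    set M : ℝ := max M1 0 + L + (L1 + (2 * L + A * L) + L2) with hM
    have hAL : 0 ≤ A * L := mul_nonneg hA hL
    have m1 := le_max_left M1 0
    have m2 := le_max_right M1 0
    have hfin : (ENNReal.ofReal M ^ p + ENNReal.ofReal M ^ p) * volume S ≠ ⊤ :=
      ENNReal.mul_ne_top (ENNReal.add_ne_top.2
        ⟨ENNReal.rpow_ne_top_of_nonneg hp ENNReal.ofReal_ne_top,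
          ENNReal.rpow_ne_top_of_nonneg hp ENNReal.ofReal_ne_top⟩) hS.measure_lt_top.ne
    have hfin' : ∫⁻ _ in S, (ENNReal.ofReal M ^ p + ENNReal.ofReal M ^ p) ≠ ⊤ := by
      rw [setLIntegral_const]; exact hfin
    have bH : ∀ j, ∀ x ∈ S, en p (H j) G (fderiv ℝ G) x ≤
        ENNReal.ofReal M ^ p + ENNReal.ofReal M ^ p := by
      intro j x hx
      refine MMo2_bd hp ?_ ?_
      · have e : H j x - G x = (F x - G x) + g j x := by simp only [hH]; abel
        have := b3 x hx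
        simp only [Pi.sub_apply] at this
        rw [e]
        refine (norm_add_le _ _).trans ?_
        linarith only [hL1, hL2, hAL, m1, this, gb, dl, gb j x, dl j]
      · have a1 : ‖fderiv ℝ (H j) x‖ ≤ L1 + (2 * L + A * L) :=
          ((b1 x hx).add ((gL j).ll x)).norm_fderiv (by linarith)
        refine (norm_sub_le _ _).trans ?_
        linarith only [m2, a1, b2, hx, hL2, (b2 x hx).norm_fderiv hL2]
    have bF : ∀ x ∈ S, en p F G (fderiv ℝ G) x ≤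
        ENNReal.ofReal M ^ p + ENNReal.ofReal M ^ p := by
      intro x hx
      refine MMo2_bd hp ?_ ?_
      · have := b3 x hx
        simp only [Pi.sub_apply] at this
        linarith
      · refine (norm_sub_le _ _).trans ?_
        linarith only [hAL, m2, b2, hx, hL2, b1, hL1, (b2 x hx).norm_fderiv hL2, (b1 x hx).norm_fderiv hL1]
    have hT : Tendsto (fun j => ∫⁻ x in S, en p (H j) G (fderiv ℝ G) x) atTop
        (𝓝 (∫⁻ x in S, en p F G (fderiv ℝ G) x)) := by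
      refine tendsto_lintegral_of_dominated_convergence' _ (fun j => ?_) (fun j => ?_) hfin' ?_
      · exact (aem_en p hΩ (hFc.add (gL j).continuous.continuousOn) hG.continuousOn
          (measurable_fderiv ℝ G)).mono_measure (Measure.restrict_mono hSΩ le_rfl)
      · exact (ae_restrict_iff' hS.measurableSet).2 (Eventually.of_forall (bH j))
      · refine (ae_restrict_iff' hS.measurableSet).2 ?_
        filter_upwards [ud, hfL.ae_differentiableAt (μ := volume)] with x hx1 hx2 hx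
        have eF : F =ᶠ[𝓝 x] f := by
          filter_upwards [ball_mem_nhds x (by linarith : 0 < 2 * ρ)] with y hy using eb x hx y hy
        refine MMo2_lim ?_ ?_
        · have : Tendsto (fun j => g j x) atTop (𝓝 0) :=
            squeeze_zero_norm (fun j => gb j x) t0
          simpa using this.const_add (F x)
        · have e : ∀ j, fderiv ℝ (H j) x =
              fderiv ℝ (fun y => f y + χ y • (u j y - f y)) x := fun j => by
            refine Filter.EventuallyEq.fderiv_eq ?_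
            filter_upwards [eF] with y hy
            simp only [hH, hg, hy]
          simp only [e]
          rw [eF.fderiv_eq]
          refine MMo2_der (hχ.differentiable (by simp) x)
            (fun j => (us j).differentiable (by simp) x) hx2 ?_ hx1
          exact tendsto_sub_nhds_zero_iff.1 (squeeze_zero_norm (fun j => ub j x) t0)
    have hne : ∫⁻ x in S, en p F G (fderiv ℝ G) x ≠ ⊤ :=
      ne_top_of_le_ne_top hfin' (setLIntegral_mono' hS.measurableSet bF)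
    exact (hT.eventually (gt_mem_nhds (ENNReal.lt_add_right hne hε))).mono fun j hj => hj.le
  have t2 : ∀ᶠ j : ℕ in atTop, A * ((L : ℝ) / (j + 1)) < c / 2 := by
    have := t0.const_mul A
    rw [mul_zero] at this
    exact this.eventually (gt_mem_nhds (by linarith))
  obtain ⟨j, ⟨⟨j1, j2⟩, j3⟩, j4⟩ := (((hE.and t2).and (t1.eventually (gt_mem_nhds hρ))).and
    (t0.eventually (gt_mem_nhds (half_pos hμ)))).exists
  have key : ∀ x ∈ S, ∃ ℓ : Rn n → Rn n →L[ℝ] ℝ, (∀ ξ, ‖ℓ ξ‖ ≤ 1) ∧ ∀ y ∈ ball x ρ,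
      ∀ z ∈ ball x ρ, c / 2 * ‖y - z‖ ≤ ℓ (y - z) (H j y - H j z) := by
    intro x hx
    obtain ⟨ℓ, hℓ, hm⟩ := hcr x hx
    refine ⟨ℓ, hℓ, fun y hy z hz => ?_⟩
    have hr' : ball x (2 * ρ) ⊆ ball x r := ball_subset_ball hρ1
    simp only [hH, hg, eb x hx y (hb x hy), eb x hx z (hb x hz)]
    refine MMo2_mon (hℓ _) cI hA cL (ub j) j2.le ?_ (um j _ y z _ fun t ht => ?_)
    · rw [← eb x hx y (hb x hy), ← eb x hx z (hb x hz)]
      exact hm y (hr' (hb x hy)) z (hr' (hb x hz))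
    · have a : ∀ w ∈ ball x ρ, w - t ∈ ball x (2 * ρ) := by
        intro w hw
        rw [mem_ball, dist_eq_norm] at hw ⊢
        rw [sub_right_comm]
        linarith only [j3, ht, hw, norm_sub_le (w - x) t]
      rw [← eb x hx _ (a y hy), ← eb x hx _ (a z hz)]
      have := hm _ (hr' (a y hy)) _ (hr' (a z hz))
      rwa [sub_sub_sub_cancel_right] at this
  have inj : ∀ y ∈ S, ∀ z ∈ Ω, H j y = H j z → y = z := by
    intro y hy z hz e
    by_cases hd : z ∈ ball y ρ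
    · obtain ⟨ℓ, -, hm⟩ := key y hy
      have := hm y (mem_ball_self hρ) z hd
      rw [e, sub_self, map_zero] at this
      have a : ‖y - z‖ ≤ 0 := by
        by_contra hn
        have := mul_pos (half_pos hc) (not_le.1 hn)
        linarith
      exact sub_eq_zero.1 (norm_le_zero_iff.1 a)
    · exfalso
      have e2 : F z - F y = g j y - g j z := by
        have : F y + g j y = F z + g j z := e
        rw [sub_eq_sub_iff_add_eq_add, add_comm (g j y), this]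
      have : F z ∈ ball (F y) μ := by
        rw [mem_ball, dist_eq_norm, e2]
        linarith only [j4, gb, norm_sub_le (g j y) (g j z), gb j y, gb j z]
      obtain ⟨w, hw, ew⟩ := hop y hy this
      exact hd (hi hw.2 hz ew ▸ hw.1)
  refine ⟨H j, fun y hy z hz e => ?_, fun x hx => ?_, fun x hx => e0 j x fun hs => hx (hSW hs),
    fun x hx => ?_, fun x hx => ?_, MMo2_split hΩ hS.isClosed hSΩ (e0 j) j1⟩
  · by_cases h3 : y ∈ S
    · exact inj y h3 z hz e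
    by_cases h4 : z ∈ S
    · exact (inj z h4 y hy e.symm).symm
    rw [e0 j y h3, e0 j z h4] at e
    exact hi hy hz e
  · by_cases h3 : x ∈ S
    · obtain ⟨L1, hL1⟩ := (h x hx).1
      obtain ⟨ℓ, hℓ, hm⟩ := key x h3
      refine ⟨⟨_, hL1.add ((gL j).ll x)⟩, c / 2, half_pos hc, ℓ, hℓ, ?_⟩
      filter_upwards [prod_mem_nhds (ball_mem_nhds x hρ) (ball_mem_nhds x hρ)] with q hq
      exact hm _ hq.1 _ hq.2
    · refine (h x hx).congr ?_
      filter_upwards [hS.isClosed.isOpen_compl.mem_nhds h3] with y hy using e0 j y hy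
  · refine (us j).contDiffAt.congr_of_eventuallyEq ?_
    filter_upwards [c1 x hx] with y hy
    rw [eH, hy, one_smul, add_sub_cancel]
  · have : H j = fun y => F y + χ y • (u j y - F y) := funext (eH j)
    rw [this]
    exact hx.add (hχ.contDiffAt.smul ((us j).contDiffAt.sub hx))

end BEp
end
end

-- merged part: Pool.Agent.Work.MP_f0515e_an.D3.MMain
section
/-! Smoothing of piecewise affine embeddings in dimension three.
Plan. isDiffeo_of: open image by GEmb_open; g' = invFunOn F Ω; at y = F x the derivative is a linear isomorphism (LinearEquiv.ofInjectiveEndo, toContinuousLinearEquiv),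
ContDiffAt.to_localInverse, and the local inverse equals invFunOn F Ω near y (it is a right inverse near y with values near x, so in Ω; injectivity).
smooth_cr: seq_lim with P j F = InjOn, CR on Ω, ContDiffAt at the points of K j; step moll_step with C = K (j+1) minus interior (K j), W = Ω minus K (j-1). CR.ex and EX.inj.
diffeo_weak: as ltp_weak, with UChart_ext on a compact neighbourhood of tsupport. approx_diffeo: as approx_of_ltp, after smooth3 and en_int. -/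

open Set Metric Filter Topology Function BEv MeasureTheory
open scoped NNReal ENNReal ContDiff

noncomputable section
namespace BEp

section
variable {n : ℕ} {Ω : Set (Rn n)} {G F : Rn n → Rn n}

theorem isDiffeo_of (hΩ : IsOpen Ω) (h : ∀ x ∈ Ω, ContDiffAt ℝ ∞ F x) (hi : InjOn F Ω)
    (hd : ∀ x ∈ Ω, Injective (fderiv ℝ F x)) : IsDiffeo Ω F := by
  have h1 : ContDiffOn ℝ ∞ F Ω := fun x hx => (h x hx).contDiffWithinAt
  refine ⟨h1, GEmb_open h1.continuousOn hi hΩ Subset.rfl, invFunOn F Ω, ?_, hi.leftInvOn_invFunOn⟩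
  rintro _ ⟨x, hx, rfl⟩
  have k : HasFDerivAt F ((LinearEquiv.ofInjectiveEndo (fderiv ℝ F x).toLinearMap
      (hd x hx)).toContinuousLinearEquiv : Rn n →L[ℝ] Rn n) x :=
    ((h x hx).differentiableAt (by simp)).hasFDerivAt
  exact (((h x hx).to_localInverse k (by simp)).congr_of_eventuallyEq
    (((h x hx).hasStrictFDerivAt' k (by simp)).localInverse_unique
      (mem_of_superset (hΩ.mem_nhds hx) hi.leftInvOn_invFunOn))).contDiffWithinAt

theorem smooth_cr [NeZero n] {p : ℝ} (hΩ : IsOpen Ω) (hp : 0 ≤ p) (hG : IL Ω G) (hi : InjOn F Ω)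
    (h : ∀ x ∈ Ω, CR F x) {ε : ℝ≥0∞} (hε : ε ≠ 0) :
    ∃ F', IsDiffeo Ω F' ∧ Eg p Ω G F' ≤ Eg p Ω G F + ε := by
  obtain ⟨K, hK⟩ := exists_exh hΩ
  obtain ⟨F', h1, h2⟩ := seq_lim (p := p) hΩ hK hG.continuousOn (F := F)
    (P := fun j F => InjOn F Ω ∧ (∀ x ∈ Ω, CR F x) ∧ ∀ x ∈ K j, ContDiffAt ℝ ∞ F x)
    (fun j F k => IL.continuousOn ⟨k.1, fun x hx => (k.2.1 x hx).1⟩)
    ⟨hi, h, by simp [hK.zero]⟩ (fun j F k ε hε => by
      obtain ⟨F', a1, a2, a3, a4, a5, a6⟩ := moll_step hΩ hp hG k.1 k.2.1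
        ((hK.cpt (j + 1)).diff (isOpen_interior (s := K j)))
        (hΩ.sdiff (hK.cpt (j - 1)).isClosed) (fun x hx => ⟨hK.sub _ hx.1, fun l => by
          cases j with
          | zero => exact hK.zero.subset l
          | succ j => exact hx.2 (hK.int j l)⟩) sdiff_subset hε
      refine ⟨F', ⟨a1, a2, fun x hx => ?_⟩, fun x hx => a3 fun l => l.2 hx, a6⟩
      by_cases l : x ∈ interior (K j)
      exacts [a5 x (k.2.2 x (interior_subset l)), a4 x ⟨hx, l⟩]) hε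
  have key : ∀ x ∈ Ω, CR F' x ∧ ContDiffAt ℝ ∞ F' x := fun x hx => by
    obtain ⟨j, hj⟩ := (hK.nhds hx).exists
    obtain ⟨F'', k, e⟩ := h2 j
    have e' := e.eventuallyEq_of_mem hj
    exact ⟨(k.2.1 x hx).congr e', (k.2.2 x (hK.mono (Nat.sub_le j 1)
      (mem_of_mem_nhds hj))).congr_of_eventuallyEq e'⟩
  refine ⟨F', isDiffeo_of hΩ (fun x hx => (key x hx).2) (hK.il fun j => ?_).inj fun x hx => ?_, h1⟩
  · obtain ⟨F'', k, e⟩ := h2 j
    exact ⟨F'', ⟨k.1, fun x hx => (k.2.1 x hx).1⟩, e⟩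
  · obtain ⟨c, hc, k⟩ := (key x hx).1.ex
    exact k.inj hc ((key x hx).2.differentiableAt (by simp)).hasFDerivAt

theorem diffeo_weak (hΩ : IsOpen Ω) (h : ContDiffOn ℝ ∞ F Ω) : IsWeakDeriv Ω F (fderiv ℝ F) := by
  intro φ hφ hc hs w
  obtain ⟨C, c1, c2, c3⟩ := exists_compact_between hc hΩ hs
  obtain ⟨g, L, hL, g1⟩ := UChart_ext hΩ h c1 c3
  have g2 : ∀ x ∈ tsupport φ, F =ᶠ[𝓝 x] g := fun x hx =>
    g1.eventuallyEq_of_mem (mem_interior_iff_mem_nhds.1 (c2 hx))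
  have e1 : (fun x => fderiv ℝ φ x w • F x) = fun x => fderiv ℝ φ x w • g x := by
    funext x
    by_cases hx : x ∈ tsupport φ
    · rw [(g2 x hx).eq_of_nhds]
    · rw [fderiv_of_notMem_tsupport ℝ hx]; simp
  have e2 : (fun x => φ x • fderiv ℝ F x w) = fun x => φ x • fderiv ℝ g x w := by
    funext x
    by_cases hx : x ∈ tsupport φ
    · rw [(g2 x hx).fderiv_eq]
    · rw [image_eq_zero_of_notMem_tsupport hx, zero_smul, zero_smul]
  rw [e1, e2]
  exact sob_lip hL Ω φ hφ hc hs w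

end

variable {Ω : Set (Rn 3)} {G : Rn 3 → Rn 3}

theorem smooth3 {p : ℝ} (hΩ : IsOpen Ω) (hp0 : 0 < p) (hp : p < 2) (ht : LTP Ω G)
    (hi : InjOn G Ω) {ε : ℝ≥0∞} (hε : ε ≠ 0) : ∃ F, IsDiffeo Ω F ∧ Eg p Ω G F ≤ ε := by
  obtain ⟨X⟩ := exists_sd hΩ ht hi
  have hG := ltp_il hΩ ht hi
  have h3 : ε / 3 ≠ 0 := (ENNReal.div_pos hε (by simp)).ne'
  obtain ⟨F1, a1, a2, a3⟩ := X.edges3 hΩ hp0 hp hG h3
  obtain ⟨F2, b1, b2, b3⟩ := vertices3 hΩ hp0.le hp hG ⟨a1, X.lfB, a2⟩ h3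
  obtain ⟨F3, c1, c2⟩ := smooth_cr hΩ hp0.le hG b1.inj b2 h3
  refine ⟨F3, c1, c2.trans ?_⟩
  refine le_trans ?_ (ENNReal.add_thirds ε).le
  gcongr
  exact b3.trans (by gcongr)

theorem approx_diffeo {p : ℝ≥0∞} (hp1 : 1 ≤ p) (hp : p < 2) (hΩ : IsOpen Ω) {f : Rn 3 → Rn 3}
    {D D' : Rn 3 → Rn 3 →L[ℝ] Rn 3} (hW : MemW1p p Ω f D) (hD : D' =ᵐ[volume.restrict Ω] D)
    (h : ∀ ε : ℝ≥0∞, ε ≠ 0 → ∃ G, LTP Ω G ∧ InjOn G Ω ∧ ∫⁻ x in Ω, en p.toReal G f D' x ≤ ε) :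
    Approximable IsDiffeo p Ω f D := by
  have hp' : p ≠ ⊤ := hp.ne_top
  have hq1 : 1 ≤ p.toReal := by simpa using ENNReal.toReal_mono hp' hp1
  have hq := zero_lt_one.trans_le hq1
  have key : ∀ ε : ℝ≥0∞, ε ≠ 0 → ∃ F, IsDiffeo Ω F ∧ ∫⁻ x in Ω, en p.toReal F f D' x ≤ ε := by
    intro ε hε
    have h0 : ε / 2 ^ p.toReal / 2 ≠ 0 := (ENNReal.half_pos (ENNReal.div_pos hε
      (ENNReal.rpow_ne_top_of_nonneg hq.le ENNReal.ofNat_ne_top)).ne').ne'
    obtain ⟨G, a1, a2, a3⟩ := h _ h0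
    obtain ⟨F, b1, b2⟩ := smooth3 hΩ hq (ENNReal.toReal_lt_of_lt_ofReal (by simpa using hp)) a1 a2 h0
    refine ⟨F, b1, (en_int hq1 hΩ b1.1.continuousOn (a1.continuousOn hΩ) f D').trans ?_⟩
    refine (mul_le_mul_right (add_le_add b2 a3) _).trans ?_
    rw [ENNReal.add_halves]
    exact ENNReal.mul_div_le
  have hn : ∀ j : ℕ, (0 : ℝ≥0∞) < ((j : ℝ≥0∞) + 1)⁻¹ := fun j => ENNReal.inv_pos.2 (by simp)
  have hn' : ∀ j : ℕ, ((j : ℝ≥0∞) + 1)⁻¹ < ⊤ := fun j => ENNReal.inv_lt_top.2 (by simp)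
  choose G h1 h3 using fun j : ℕ => key ((((j : ℝ≥0∞) + 1)⁻¹) ^ p.toReal)
    (ENNReal.rpow_pos_of_nonneg (hn j) hq.le).ne'
  have a1 : ∀ j, eLpNorm (G j - f) p (volume.restrict Ω) ≤ ((j : ℝ≥0∞) + 1)⁻¹ := fun j =>
    BRed_lp hp1 hp' ((lintegral_mono fun x => le_self_add).trans (h3 j))
  have a2 : ∀ j, eLpNorm (fderiv ℝ (G j) - D) p (volume.restrict Ω) ≤ ((j : ℝ≥0∞) + 1)⁻¹ :=
    fun j => (eLpNorm_congr_ae (EventuallyEq.rfl.sub hD.symm)).trans_le
      (BRed_lp hp1 hp' ((lintegral_mono fun x => le_add_self).trans (h3 j)))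
  refine ⟨G, fun j => fderiv ℝ (G j), fun j => ⟨h1 j,
    LFin_mem ((h1 j).1.continuousOn.aestronglyMeasurable hΩ.measurableSet) hW.1
      ((a1 j).trans_lt (hn' j)), LFin_mem (measurable_fderiv ℝ (G j)).aestronglyMeasurable hW.2.1
      ((a2 j).trans_lt (hn' j)), diffeo_weak hΩ (h1 j).1⟩, ?_⟩
  have t : Tendsto (fun j : ℕ => ((j : ℝ≥0∞) + 1)⁻¹) atTop (𝓝 0) :=
    (ENNReal.tendsto_inv_nat_nhds_zero.comp (tendsto_add_atTop_nat 1)).congr fun j => by simp
  exact tendsto_of_tendsto_of_tendsto_of_le_of_le tendsto_const_nhds (by simpa using t.add t)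
    (fun _ => zero_le) fun j => add_le_add (a1 j) (a2 j)

end BEp
end
end

-- merged part: Pool.Agent.Work.MP_f0515e_an.D3.Final
section
/-! EXPORT: approximation in dimension three for exponents below two. -/

open Set Metric Filter Topology Function BEv MeasureTheory
open scoped NNReal ENNReal

noncomputable section
namespace BEp

theorem dim_three {p : ℝ≥0∞} (hp1 : 1 ≤ p) (hp2 : p < 2) {Ω : Set (Rn 3)} (hΩ : IsOpen Ω)
    {f : Rn 3 → Rn 3} {D : Rn 3 → Rn 3 →L[ℝ] Rn 3} (hf : IsEmbedding fun x : Ω => f x)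
    (hW : MemW1p p Ω f D) : Approximable IsDiffeo p Ω f D ∧ Approximable IsPAHomeo p Ω f D := by
  have hp : p ≠ ⊤ := hp2.ne_top
  have hc : Core3 p.toReal := core3 topG (by simpa using ENNReal.toReal_mono hp hp1)
    (by simpa using ENNReal.toReal_strict_mono (by simp) hp2)
  obtain ⟨D', -, h2, h3⟩ := ltp3 hp1 hp2 hc hΩ hf hW
  exact ⟨approx_diffeo hp1 hp2 hΩ hW h2 h3, approx_of_ltp hp1 hp hΩ hW h2 h3⟩

end BEp
end
end

-- merged part: Pool.Agent.Work.MP_f0515e_an.P3.VVM1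
section
/-! The model at a vertex in three-space.
Plan. vert_model: H y = A y + b near y0; homogeneity gives b = 0, injectivity of H gives A injective, hence an isomorphism; e from chart3 with e (-y0) = (1,0); apply cone_model to e ∘ A⁻¹ ∘ H ∘ e.symm (CR.comp with SI.aff, CR.post).
H is continuous (bounded on the sphere), ‖H y‖ ≥ c ‖y‖, so proper with closed range (or isClosedEmbedding), open range by GEmb_open, onto; if F x = H y with ‖y‖ > M then F y = F x.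
vg_model: r below the radius of HomN with closedBall v r ⊆ Ω and CR on the punctured ball; H y = (‖y‖ / r) • (F (v + (r / ‖y‖) • y) - F v); for s > 0 and ‖s • y‖ ≤ r, H y = s⁻¹ • (F (v + s • y) - F v). -/

open Set Metric Filter Topology Function BEv MeasureTheory
open scoped NNReal ENNReal ContDiff

noncomputable section
namespace BEp

theorem vvm1_scale {r : ℝ} (hr : 0 < r) (y z : Rn 3) :
    ∃ s : ℝ, 0 < s ∧ ‖s • y‖ < r ∧ ‖s • z‖ < r := by
  have h1 := norm_nonneg y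
  have h2 := norm_nonneg z
  have h3 : 0 < r / (‖y‖ + ‖z‖ + 1) := by positivity
  refine ⟨_, h3, ?_, ?_⟩ <;>
    rw [norm_smul, Real.norm_of_nonneg h3.le, div_mul_eq_mul_div, div_lt_iff₀ (by positivity)] <;>
    exact mul_lt_mul_of_pos_left (by linarith only [h2, h1]) hr

theorem vvm1_ext {G : Rn 3 → Rn 3} {r : ℝ} (hr : 0 < r) (h0 : G 0 = 0)
    (h : ∀ y, ‖y‖ ≤ r → ∀ t ∈ Icc (0 : ℝ) 1, G (t • y) = t • G y) :
    ∃ H : Rn 3 → Rn 3, ∀ s : ℝ, 0 < s → ∀ y, ‖s • y‖ ≤ r → H y = s⁻¹ • G (s • y) := by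
  refine ⟨fun y => (‖y‖ / r) • G ((r / ‖y‖) • y), fun s hs y hy => ?_⟩
  rcases eq_or_ne y 0 with rfl | h1
  · simp [h0]
  have h2 : 0 < ‖y‖ := norm_pos_iff.2 h1
  rw [norm_smul, Real.norm_of_nonneg hs.le] at hy
  have h3 := h ((r / ‖y‖) • y) (by
    rw [norm_smul, Real.norm_of_nonneg (by positivity), div_mul_cancel₀ _ h2.ne'])
    (s * ‖y‖ / r) ⟨by positivity, (div_le_one hr).2 hy⟩
  rw [smul_smul, show s * ‖y‖ / r * (r / ‖y‖) = s by field_simp] at h3
  rw [h3, smul_smul, show s⁻¹ * (s * ‖y‖ / r) = ‖y‖ / r by field_simp]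

theorem vg_model {Ω : Set (Rn 3)} {F : Rn 3 → Rn 3} {v : Rn 3} (hΩ : Ω ∈ 𝓝 v) (hi : InjOn F Ω)
    (h : VG F v) (hc : ∀ᶠ x in 𝓝[≠] v, CR F x) :
    ∃ (H : Rn 3 → Rn 3) (r : ℝ), 0 < r ∧ closedBall v r ⊆ Ω ∧ Hmg H ∧ Injective H ∧
      (∀ y, y ≠ 0 → CR H y) ∧ (∃ y0, y0 ≠ 0 ∧ AfN H y0) ∧
      ∀ y, ‖y‖ ≤ r → F (v + y) = F v + H y := by
  obtain ⟨⟨r₀, r0, hr⟩, h2⟩ := h
  obtain ⟨r₁, r1, hr1⟩ := nhds_basis_closedBall.eventually_iff.1
    ((eventually_nhdsWithin_iff.1 hc).and hΩ)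
  obtain ⟨r, hr'⟩ : ∃ r, r = min r₀ r₁ := ⟨_, rfl⟩
  have rp : 0 < r := hr' ▸ lt_min r0 r1
  have k0 : r ≤ r₀ := hr' ▸ min_le_left _ _
  have k1 : ∀ y, ‖y‖ ≤ r → (y ≠ 0 → CR F (v + y)) ∧ v + y ∈ Ω := fun y hy => by
    have := hr1 (x := v + y) (by simpa using hy.trans (hr' ▸ min_le_right _ _))
    exact ⟨fun e => this.1 (by simpa using e), this.2⟩
  obtain ⟨H, hH⟩ := vvm1_ext (G := fun y => F (v + y) - F v) rp (by simp)
    fun y hy => hr y (hy.trans k0)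
  have k2 : ∀ y, ‖y‖ ≤ r → H y = F (v + y) - F v := fun y hy => by
    simpa using hH 1 one_pos y (by simpa using hy)
  have k3 : ∀ y : Rn 3, ‖y‖ < r → ∀ᶠ z in 𝓝 y, ‖z‖ ≤ r := fun y hy =>
    (continuous_norm.continuousAt.eventually_lt continuousAt_const hy).mono fun _ => le_of_lt
  refine ⟨H, r, rp, fun x hx => ?_, fun t u ht => ?_, fun y z e => ?_, fun y hy => ?_, ?_,
    fun y hy => by rw [k2 y hy, add_sub_cancel]⟩
  · simpa using (k1 (x - v) (mem_closedBall_iff_norm.1 hx)).2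
  · rcases ht.eq_or_lt with rfl | ht
    · simpa using k2 0 (by simpa using rp.le)
    · obtain ⟨s, s0, s1, -⟩ := vvm1_scale rp (t • u) 0
      rw [hH s s0 _ s1.le, hH (s * t) (mul_pos s0 ht) u (by rw [mul_smul]; exact s1.le), smul_smul,
        smul_smul, mul_inv, mul_left_comm, mul_inv_cancel₀ ht.ne', mul_one]
  · obtain ⟨s, s0, s1, s2⟩ := vvm1_scale rp y z
    rw [hH s s0 _ s1.le, hH s s0 _ s2.le] at e
    exact smul_right_injective _ s0.ne' (add_left_cancel (hi (k1 _ s1.le).2 (k1 _ s2.le).2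
      (sub_left_injective (smul_right_injective _ (inv_ne_zero s0.ne') e))))
  · obtain ⟨s, s0, s1, -⟩ := vvm1_scale rp y 0
    have c1 : CR F (s • y + v) := add_comm v _ ▸ (k1 _ s1.le).1 (smul_ne_zero s0.ne' hy)
    have c2 := (CR.comp (k := F) (T := fun z => s • z + v) (x := y) c1 (SI.aff
      (LinearEquiv.smulOfNeZero ℝ (Rn 3) s s0.ne').toContinuousLinearEquiv v y)).post
      (LinearEquiv.smulOfNeZero ℝ (Rn 3) s⁻¹ (inv_ne_zero s0.ne')).toContinuousLinearEquiv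
      (-(s⁻¹ • F v))
    refine c2.congr ?_
    filter_upwards [(continuous_const_smul s).continuousAt.eventually (k3 _ s1)] with z hz
    rw [hH s s0 z hz, smul_sub, add_comm v, sub_eq_add_neg]
    rfl
  · obtain ⟨x, ⟨A, b, hA⟩, h3, h4⟩ := (h2.and_eventually (Eventually.and self_mem_nhdsWithin
      (nhdsWithin_le_nhds (ball_mem_nhds v rp)))).exists
    refine ⟨x - v, sub_ne_zero.2 h3, A, A v + b - F v, ?_⟩
    have t : Tendsto (fun y => v + y) (𝓝 (x - v)) (𝓝 x) :=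
      (continuous_const_add v).tendsto' _ _ (add_sub_cancel _ _)
    filter_upwards [t.eventually hA, k3 _ (mem_ball_iff_norm.1 h4)] with y h5 h6
    rw [k2 y h6, h5, map_add]
    abel

end BEp
end
end

-- merged part: Pool.Agent.Work.MP_f0515e_an.P3.VCh1
section
/-! Parabolic chart of the complement of a ray, and the model at a vertex.
Plan. Ψ (z,ξ) = exp z • (1 - normSq ξ, 2 ξ), κ y = sqrt (y.1^2 + normSq y.2) + y.1, D = {κ > 0} is the complement of the ray of (-1,0), Ψi y = (log (κ y / 2), y.2 / κ y). κ (Ψ x) = 2 exp z, Ψi (Ψ x) = x, Ψ (Ψi y) = y on D,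
both SI (si_of_inv). H fixes the ray, so maps D to D. f = Ψi ∘ H ∘ Ψ commutes with vertical translations: g ξ = f (0,ξ) - (0,ξ); g ξ = 0 for large ξ since Ψ (0,ξ) = (normSq ξ - 1) • (-1, 2 ξ / (normSq ξ - 1)).
CR f by CR.comp and CR.postSI. F0, T from cyl; F y = if 0 < κ y then Ψ (F0 (Ψi y)) else y; F = id where κ < 2 exp (-T); for large y with κ y < 2, normSq (y.2 / κ y) = (2 N - κ) / κ ≥ ‖y‖ - 1. -/

open Set Metric Filter Topology Function BEv MeasureTheory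
open scoped NNReal ENNReal ContDiff

noncomputable section
namespace BEp

theorem par_chart : ∃ (Ψ Ψi : ℝ × ℂ → ℝ × ℂ) (κ : ℝ × ℂ → ℝ), Continuous κ ∧ (∀ y, 0 ≤ κ y) ∧
    (∀ y, κ y = 0 → ∃ t : ℝ, 0 ≤ t ∧ y = t • ((-1 : ℝ), (0 : ℂ))) ∧ κ 0 = 0 ∧
    (∀ t : ℝ, 0 ≤ t → κ (t • ((-1 : ℝ), (0 : ℂ))) = 0) ∧
    (∀ x, 0 < κ (Ψ x) ∧ Ψi (Ψ x) = x ∧ SI Ψ x) ∧
    (∀ y, 0 < κ y → Ψ (Ψi y) = y ∧ SI Ψi y ∧ (Ψi y).1 = Real.log (κ y / 2) ∧
      (κ y < 2 → ‖y‖ - 1 ≤ ‖(Ψi y).2‖ ^ 2)) ∧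
    (∀ (z : ℝ) (ξ : ℂ), Ψ (z, ξ) = Real.exp z • Ψ (0, ξ)) ∧
    ∀ U ∈ 𝓝 (((-1 : ℝ), (0 : ℂ)) : ℝ × ℂ), ∃ R : ℝ, 0 < R ∧ ∀ ξ : ℂ, R ≤ ‖ξ‖ →
      ∃ t : ℝ, 0 ≤ t ∧ ∃ y ∈ U, Ψ (0, ξ) = t • y := by
  let Ψ : ℝ × ℂ → ℝ × ℂ := fun x => Real.exp x.1 • (1 - ‖x.2‖ ^ 2, (2 : ℝ) • x.2)
  let N : ℝ × ℂ → ℝ := fun y => Real.sqrt (y.1 ^ 2 + ‖y.2‖ ^ 2)
  let κ : ℝ × ℂ → ℝ := fun y => N y + y.1
  let Ψi : ℝ × ℂ → ℝ × ℂ := fun y => (Real.log (κ y / 2), (κ y)⁻¹ • y.2)
  have N0 : ∀ y, 0 ≤ N y := fun y => Real.sqrt_nonneg _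
  have N2 : ∀ y, N y ^ 2 = y.1 ^ 2 + ‖y.2‖ ^ 2 := fun y => Real.sq_sqrt (by positivity)
  have N1 : ∀ y, |y.1| ≤ N y := fun y => Real.abs_le_sqrt (by linarith only [sq_nonneg ‖y.2‖, sq_nonneg ‖y.2‖])
  have N3 : ∀ y, ‖y.2‖ ≤ N y := fun y => Real.le_sqrt_of_sq_le (by nlinarith [sq_nonneg y.1])
  have cκ : Continuous κ := by fun_prop
  have cΨ : ContDiff ℝ 1 Ψ := contDiff_fst.exp.smul
    ((contDiff_const.sub (contDiff_snd.norm_sq ℝ)).prodMk (contDiff_snd.const_smul _))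
  have cΨi : ∀ y, 0 < κ y → ContDiffAt ℝ 1 Ψi y := fun y hy => by
    have h1 : y.1 ^ 2 + ‖y.2‖ ^ 2 ≠ 0 := fun h => by
      have h2 := N2 y
      have h3 : N y = 0 := pow_eq_zero_iff two_ne_zero |>.1 (h2.trans h)
      have h4 := (abs_le.1 (N1 y)).2
      simp only [κ] at hy
      linarith
    have h2 : ContDiffAt ℝ 1 κ y :=
      (((contDiffAt_fst.pow 2).add (contDiffAt_snd.norm_sq ℝ)).sqrt h1).add contDiffAt_fst
    exact ((h2.div_const 2).log (by positivity)).prodMk ((h2.inv hy.ne').smul contDiffAt_snd)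
  have k1 : ∀ x, κ (Ψ x) = 2 * Real.exp x.1 := fun x => by
    have e0 := Real.exp_pos x.1
    have : N (Ψ x) = Real.exp x.1 * (1 + ‖x.2‖ ^ 2) := by
      simp only [N, Ψ, Prod.smul_mk, smul_eq_mul, norm_smul, Real.norm_eq_abs, abs_of_pos e0,
        abs_two]
      rw [Real.sqrt_eq_iff_mul_self_eq (by positivity) (by positivity)]
      ring
    simp only [κ, this]
    simp only [Ψ, Prod.smul_mk, smul_eq_mul]
    ring
  have k2 : ∀ x, Ψi (Ψ x) = x := fun x => by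
    have e0 := Real.exp_pos x.1
    simp only [Ψi, k1]
    refine Prod.ext ?_ ?_
    · simp
    · simp only [Ψ, Prod.smul_mk, smul_smul]
      rw [show (2 * Real.exp x.1)⁻¹ * (Real.exp x.1 * 2) = 1 by field_simp, one_smul]
  have k3 : ∀ y, 0 < κ y → ‖(Ψi y).2‖ ^ 2 = (N y - y.1) / κ y := fun y hy => by
    have h2 : ‖y.2‖ ^ 2 = (N y - y.1) * κ y := by
      simp only [κ]
      linarith [N2 y]
    simp only [Ψi, norm_smul, Real.norm_eq_abs, abs_of_pos (inv_pos.2 hy), mul_pow, h2]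
    field_simp
  have k4 : ∀ y, 0 < κ y → Ψ (Ψi y) = y := fun y hy => by
    have e : Real.exp (Ψi y).1 = κ y / 2 := Real.exp_log (by positivity)
    simp only [Ψ, e, k3 y hy, Prod.smul_mk]
    refine Prod.ext ?_ ?_
    · have : κ y / 2 * (1 - (N y - y.1) / κ y) = (κ y - (N y - y.1)) / 2 := by field_simp
      simp only [smul_eq_mul, this]
      simp only [κ]
      ring
    · simp only [Ψi, smul_smul]
      rw [show κ y / 2 * (2 * (κ y)⁻¹) = 1 by field_simp, one_smul]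
  have k5 : ∀ t : ℝ, 0 ≤ t → κ (t • ((-1 : ℝ), (0 : ℂ))) = 0 := fun t ht => by
    simp [κ, N, Real.sqrt_sq ht]
  refine ⟨Ψ, Ψi, κ, cκ, fun y => ?_, fun y hy => ⟨N y, N0 y, ?_⟩, by simp [κ, N], k5,
    fun x => ?_, fun y hy => ⟨k4 y hy, ?_, rfl, fun h => ?_⟩, fun z ξ => by simp [Ψ],
    fun U hU => ?_⟩
  · have := (abs_le.1 (N1 y)).1
    simp only [κ]
    linarith
  · have h1 : y.1 = -N y := by
      simp only [κ] at hy
      linarith
    have h2 : ‖y.2‖ ^ 2 = 0 := by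
      have := N2 y
      rw [h1] at this
      linarith
    refine Prod.ext (by simpa using h1) ?_
    simpa using h2
  · have h : 0 < κ (Ψ x) := by
      rw [k1]
      positivity
    exact ⟨h, k2 x, si_of_inv cΨ.contDiffAt ((cΨi _ h).differentiableAt one_ne_zero)
      (Eventually.of_forall k2)⟩
  · exact si_of_inv (cΨi y hy) (cΨ.differentiable one_ne_zero _)
      ((continuousAt_const.eventually_lt cκ.continuousAt hy).mono k4)
  · have h1 : ‖y‖ ≤ N y := max_le (N1 y) (N3 y)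
    have h2 : y.1 = κ y - N y := by simp [κ]
    rw [k3 y hy, le_div_iff₀ hy, h2]
    linarith only [hy, h1, h, N0, N0 y, mul_nonneg_of_nonpos_of_nonpos (le_of_lt (Mathlib.Tactic.Linarith.sub_neg_of_lt hy)) (Mathlib.Tactic.Linarith.sub_nonpos_of_le h1), mul_nonneg_of_nonpos_of_nonpos (le_of_lt (Mathlib.Tactic.Linarith.sub_neg_of_lt h)) (Mathlib.Tactic.Linarith.sub_nonpos_of_le (N0 y))]
  · obtain ⟨ε, ε0, hε⟩ := Metric.mem_nhds_iff.1 hU
    refine ⟨2 + 4 / ε, by positivity, fun ξ hξ => ?_⟩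
    have h1 : 0 < 4 / ε := by positivity
    have h2 : 4 ≤ ‖ξ‖ * ε := (div_le_iff₀ ε0).1 (by linarith only [hξ])
    have h3 : 0 < ‖ξ‖ ^ 2 - 1 := by linarith only [hξ, h1, mul_nonneg_of_nonpos_of_nonpos (Mathlib.Tactic.Linarith.sub_nonpos_of_le hξ) (Mathlib.Tactic.Linarith.sub_nonpos_of_le hξ), mul_nonneg_of_nonpos_of_nonpos (Mathlib.Tactic.Linarith.sub_nonpos_of_le hξ) (le_of_lt (Mathlib.Tactic.Linarith.sub_neg_of_lt h1)), mul_pos_of_neg_of_neg (Mathlib.Tactic.Linarith.sub_neg_of_lt h1) (Mathlib.Tactic.Linarith.sub_neg_of_lt h1)]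
    refine ⟨‖ξ‖ ^ 2 - 1, h3.le, (-1, (2 / (‖ξ‖ ^ 2 - 1)) • ξ), hε ?_, ?_⟩
    · rw [mem_ball, Prod.dist_eq, dist_self, dist_zero_right, max_lt_iff, norm_smul,
        Real.norm_of_nonneg (by positivity), div_mul_eq_mul_div, div_lt_iff₀ h3]
      refine ⟨ε0, ?_⟩
      have h4 : 2 ≤ ‖ξ‖ := by linarith
      have h5 : 4 * ‖ξ‖ ≤ ‖ξ‖ * ε * ‖ξ‖ := by gcongr
      have h6 : 4 * ε ≤ ‖ξ‖ ^ 2 * ε := by
        gcongr
        linarith only [hξ, h1, mul_nonneg_of_nonpos_of_nonpos (Mathlib.Tactic.Linarith.sub_nonpos_of_le hξ) (Mathlib.Tactic.Linarith.sub_nonpos_of_le hξ), mul_nonneg_of_nonpos_of_nonpos (Mathlib.Tactic.Linarith.sub_nonpos_of_le hξ) (le_of_lt (Mathlib.Tactic.Linarith.sub_neg_of_lt h1)), mul_pos_of_neg_of_neg (Mathlib.Tactic.Linarith.sub_neg_of_lt h1) (Mathlib.Tactic.Linarith.sub_neg_of_lt h1)]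
      linarith only [hξ, h1, h5, h6]
    · simp only [Ψ, Real.exp_zero, one_smul, Prod.smul_mk, smul_smul, smul_eq_mul]
      rw [mul_div_cancel₀ _ h3.ne']
      simp

end BEp
end
end

-- merged part: Pool.Agent.Work.MP_f0515e_an.P3.VCh
section
/-! Parabolic chart of the complement of a ray, and the model at a vertex.
Plan. Ψ (z,ξ) = exp z • (1 - normSq ξ, 2 ξ), κ y = sqrt (y.1^2 + normSq y.2) + y.1, D = {κ > 0} is the complement of the ray of (-1,0), Ψi y = (log (κ y / 2), y.2 / κ y). κ (Ψ x) = 2 exp z, Ψi (Ψ x) = x, Ψ (Ψi y) = y on D,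
both SI (si_of_inv). H fixes the ray, so maps D to D. f = Ψi ∘ H ∘ Ψ commutes with vertical translations: g ξ = f (0,ξ) - (0,ξ); g ξ = 0 for large ξ since Ψ (0,ξ) = (normSq ξ - 1) • (-1, 2 ξ / (normSq ξ - 1)).
CR f by CR.comp and CR.postSI. F0, T from cyl; F y = if 0 < κ y then Ψ (F0 (Ψi y)) else y; F = id where κ < 2 exp (-T); for large y with κ y < 2, normSq (y.2 / κ y) = (2 N - κ) / κ ≥ ‖y‖ - 1. -/

open Set Metric Filter Topology Function BEv MeasureTheory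
open scoped NNReal ENNReal ContDiff

noncomputable section
namespace BEp

theorem cone_model {H : ℝ × ℂ → ℝ × ℂ} (h0 : Hmg H) (hi : Injective H)
    (hc : ∀ y, y ≠ 0 → CR H y) (h1 : ∀ᶠ y in 𝓝 (((-1 : ℝ), (0 : ℂ)) : ℝ × ℂ), H y = y) :
    ∃ (F : ℝ × ℂ → ℝ × ℂ) (M : ℝ), Injective F ∧ (∀ y, CR F y) ∧ ∀ y, M ≤ ‖y‖ → F y = H y := by
  obtain ⟨Ψ, Ψi, κ, kc, k0, kz, k00, kr, hΨ, hI, hz, hU⟩ := par_chart
  have ray : ∀ t : ℝ, 0 ≤ t → H (t • ((-1 : ℝ), (0 : ℂ))) = t • ((-1 : ℝ), (0 : ℂ)) :=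
    fun t ht => by rw [h0 t _ ht, h1.self_of_nhds]
  have HD : ∀ y, 0 < κ y → 0 < κ (H y) := fun y hy => (k0 _).lt_of_ne' fun e => by
    obtain ⟨t, t0, e⟩ := kz _ e
    rw [hi (e.trans (ray t t0).symm), kr t t0] at hy
    exact lt_irrefl _ hy
  have Ψinj : Injective Ψ := fun a b e => by rw [← (hΨ a).2.1, e, (hΨ b).2.1]
  obtain ⟨f, hf⟩ : ∃ f : ℝ × ℂ → ℝ × ℂ, f = fun x => Ψi (H (Ψ x)) := ⟨_, rfl⟩
  have Ψf : ∀ x, Ψ (f x) = H (Ψ x) := fun x => hf ▸ (hI _ (HD _ (hΨ x).1)).1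
  have com : f = fun x => x + (f (0, x.2) - (0, x.2)) := funext fun x => Ψinj (by
    have e : x + (f (0, x.2) - (0, x.2)) = (x.1 + (f (0, x.2)).1, (f (0, x.2)).2) :=
      Prod.ext (by simp) (by simp)
    rw [e, hz (x.1 + _), Real.exp_add, mul_smul, ← hz (f (0, x.2)).1, Prod.mk.eta, Ψf, Ψf,
      ← h0 _ _ (Real.exp_pos _).le, ← hz])
  obtain ⟨R, R0, hR⟩ := hU _ h1
  have g0 : ∀ ξ : ℂ, R ≤ ‖ξ‖ → f (0, ξ) - (0, ξ) = 0 := fun ξ h => by
    obtain ⟨t, t0, y, hy, e⟩ := hR ξ h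
    refine sub_eq_zero.2 (Ψinj ?_)
    rw [Ψf, e, h0 t y t0, show H y = y from hy]
  obtain ⟨F, T, F1, F2, F3, F4⟩ := cyl (g := fun ξ => f (0, ξ) - (0, ξ)) R0 g0
    (com ▸ fun a b e => Ψinj (hi (by rw [← Ψf, ← Ψf, e]))) fun x => by
      rw [← com, hf]
      exact ((hc (Ψ x) fun e => (hΨ x).1.ne' (e ▸ k00)).comp (hΨ x).2.2).postSI
        (hI _ (HD _ (hΨ x).1)).2.1
  refine ⟨fun y => if 0 < κ y then Ψ (F (Ψi y)) else y, max T R ^ 2 + 1, fun a b e => ?_,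
    fun y => ?_, fun y hy => ?_⟩
  · by_cases ka : 0 < κ a <;> by_cases kb : 0 < κ b <;> simp only [ka, kb, if_true, if_false] at e
    · rw [← (hI a ka).1, F1 (Ψinj e), (hI b kb).1]
    · exact (kb (e ▸ (hΨ _).1)).elim
    · exact (ka (e ▸ (hΨ _).1)).elim
    · exact e
  · by_cases k : 0 < κ y
    · refine (((F2 _).comp (hI y k).2.1).postSI (hΨ _).2.2).congr ?_
      filter_upwards [kc.continuousAt.eventually (lt_mem_nhds k)] with a ha
      exact if_pos ha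
    · refine (CR.id' y).congr ?_
      filter_upwards [kc.continuousAt.eventually (gt_mem_nhds
        ((not_lt.1 k).trans_lt (by positivity : 0 < 2 * Real.exp (-T))))] with a ha
      split_ifs with q
      · rw [F4 _ (Or.inl ?_), (hI a q).1]
        rw [(hI a q).2.2.1, Real.log_le_iff_le_exp (by positivity)]
        linarith only [ha]
      · rfl
  · by_cases k : 0 < κ y
    · obtain ⟨a1, -, a2, a3⟩ := hI y k
      have e : H y = Ψ (Ψi y + (f (0, (Ψi y).2) - (0, (Ψi y).2))) := by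
        rw [← congrFun com (Ψi y), Ψf, a1]
      rw [e]
      refine (if_pos k).trans (congrArg Ψ ?_)
      by_cases q : κ y < 2
      · have : max T R ≤ ‖(Ψi y).2‖ := (le_abs_self _).trans
          (abs_le_of_sq_le_sq (by linarith [a3 q]) (norm_nonneg _))
        rw [F4 _ (Or.inr ((le_max_left _ _).trans this)), g0 _ ((le_max_right _ _).trans this),
          add_zero]
      · exact F3 _ (a2 ▸ Real.log_nonneg (by linarith only [q]))
    · obtain ⟨t, t0, e⟩ := kz y ((not_lt.1 k).antisymm (k0 y))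
      refine (if_neg k).trans ?_
      rw [e, ray t t0]

end BEp
end
end

-- merged part: Pool.Agent.Work.MP_f0515e_an.P3.VVM
section
/-! The model at a vertex in three-space.
Plan. vert_model: H y = A y + b near y0; homogeneity gives b = 0, injectivity of H gives A injective, hence an isomorphism; e from chart3 with e (-y0) = (1,0); apply cone_model to e ∘ A⁻¹ ∘ H ∘ e.symm (CR.comp with SI.aff, CR.post).
H is continuous (bounded on the sphere), ‖H y‖ ≥ c ‖y‖, so proper with closed range (or isClosedEmbedding), open range by GEmb_open, onto; if F x = H y with ‖y‖ > M then F y = F x.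
vg_model: r below the radius of HomN with closedBall v r ⊆ Ω and CR on the punctured ball; H y = (‖y‖ / r) • (F (v + (r / ‖y‖) • y) - F v); for s > 0 and ‖s • y‖ ≤ r, H y = s⁻¹ • (F (v + s • y) - F v). -/

open Set Metric Filter Topology Function BEv MeasureTheory
open scoped NNReal ENNReal ContDiff

noncomputable section
namespace BEp

theorem VVM_cr {E E' F F' : Type} [NormedAddCommGroup E] [NormedSpace ℝ E]
    [NormedAddCommGroup E'] [NormedSpace ℝ E'] [NormedAddCommGroup F] [NormedSpace ℝ F]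
    [NormedAddCommGroup F'] [NormedSpace ℝ F'] {H : E → F} (A : E' ≃L[ℝ] E) (B : F ≃L[ℝ] F')
    {x : E'} (h : CR H (A x)) : CR (fun y => B (H (A y))) x := by
  have k := (CR.comp (k := H) (T := fun y => A y + 0) (by rwa [add_zero]) (SI.aff A 0 x)).post B 0
  simpa only [add_zero] using k

theorem VVM_cont {H : Rn 3 → Rn 3} (h0 : Hmg H) (hc : ∀ y, y ≠ 0 → CR H y) : Continuous H := by
  have c1 : ∀ y, y ≠ 0 → ContinuousAt H y := fun y hy =>
    let ⟨_, hL⟩ := (hc y hy).1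
    hL.continuousAt
  have z : H 0 = 0 := by simpa using h0 0 0 le_rfl
  obtain ⟨C, hC⟩ := (isCompact_sphere (0 : Rn 3) 1).exists_bound_of_continuousOn (f := H)
    fun y hy => (c1 y (ne_zero_of_mem_sphere one_ne_zero ⟨y, hy⟩)).continuousWithinAt
  have bd : ∀ y, ‖H y‖ ≤ ‖y‖ * C := fun y => by
    by_cases hy : y = 0
    · simp [hy, z]
    · have n0 := norm_pos_iff.2 hy
      have e := h0 ‖y‖ (‖y‖⁻¹ • y) n0.le
      rw [smul_inv_smul₀ n0.ne'] at e
      rw [e, norm_smul, norm_norm]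
      refine mul_le_mul_of_nonneg_left (hC _ ?_) n0.le
      rw [mem_sphere_zero_iff_norm, norm_smul, norm_inv, norm_norm, inv_mul_cancel₀ n0.ne']
  refine continuous_iff_continuousAt.2 fun y => ?_
  by_cases hy : y = 0
  · rw [hy, ContinuousAt, z]
    refine squeeze_zero_norm bd ?_
    simpa using (continuous_norm.mul_const C).tendsto (0 : Rn 3)
  · exact c1 y hy

theorem VVM_onto {H : Rn 3 → Rn 3} (h0 : Hmg H) (hi : Injective H) (hc : ∀ y, y ≠ 0 → CR H y) :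
    Surjective H := by
  intro w
  have z : H 0 = 0 := by simpa using h0 0 0 le_rfl
  have o := (GEmb_open (VVM_cont h0 hc).continuousOn hi.injOn isOpen_univ
    (subset_univ _)).mem_nhds ⟨0, mem_univ _, z⟩
  have k : Tendsto (fun t : ℝ => t • w) (𝓝[>] 0) (𝓝 0) := by
    refine Tendsto.mono_left ?_ nhdsWithin_le_nhds
    exact (by fun_prop : Continuous fun t : ℝ => t • w).tendsto' 0 0 (zero_smul _ _)
  obtain ⟨t, ⟨y, -, e⟩, ht⟩ := ((k.eventually o).and self_mem_nhdsWithin).exists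
  have t0 : (0 : ℝ) < t := ht
  exact ⟨t⁻¹ • y, by rw [h0 _ _ (inv_pos.2 t0).le, e, inv_smul_smul₀ t0.ne']⟩

theorem VVM_lin {H : Rn 3 → Rn 3} (h0 : Hmg H) {y0 : Rn 3} (hc : CR H y0) (ha : AfN H y0) :
    ∃ B : Rn 3 ≃L[ℝ] Rn 3, ∀ᶠ y in 𝓝 y0, H y = B y := by
  obtain ⟨A, b, h⟩ := ha
  have k : Tendsto (fun t : ℝ => t • y0) (𝓝[>] 1) (𝓝 y0) := by
    refine Tendsto.mono_left ?_ nhdsWithin_le_nhds
    exact (by fun_prop : Continuous fun t : ℝ => t • y0).tendsto' 1 y0 (one_smul _ _)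
  obtain ⟨t, e, ht⟩ := ((k.eventually h).and self_mem_nhdsWithin).exists
  have t1 : (1 : ℝ) < t := ht
  rw [h0 t _ (by linarith), h.self_of_nhds, smul_add, map_smul, add_right_inj] at e
  have b0 : b = 0 := by
    have : (t - 1) • b = 0 := by rw [sub_smul, one_smul, e, sub_self]
    exact (smul_eq_zero.1 this).resolve_left (by linarith)
  obtain ⟨c, c0, hx⟩ := hc.ex
  have hA : Injective A := hx.inj c0 ((A.hasFDerivAt.add_const b).congr_of_eventuallyEq h)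
  refine ⟨(LinearEquiv.ofInjectiveEndo A.toLinearMap hA).toContinuousLinearEquiv, ?_⟩
  filter_upwards [h] with y hy
  rw [hy, b0, add_zero]
  rfl

theorem vert_model {H : Rn 3 → Rn 3} (h0 : Hmg H) (hi : Injective H) (hc : ∀ y, y ≠ 0 → CR H y)
    {y0 : Rn 3} (hy : y0 ≠ 0) (ha : AfN H y0) :
    ∃ (F : Rn 3 → Rn 3) (M : ℝ), 0 < M ∧ Injective F ∧ (∀ y, CR F y) ∧
      (∀ y, M ≤ ‖y‖ → F y = H y) ∧ F '' closedBall 0 M ⊆ H '' closedBall 0 M := by
  obtain ⟨B, hB⟩ := VVM_lin h0 (hc y0 hy) ha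
  obtain ⟨e, he⟩ := chart3 (neg_ne_zero.2 hy)
  have he' : e.symm (-1, 0) = y0 := by
    rw [ContinuousLinearEquiv.symm_apply_eq, ← neg_neg y0, map_neg, he]
    simp
  obtain ⟨F, M, F1, F2, F3⟩ := cone_model (H := fun x => e (B.symm (H (e.symm x))))
    (fun t u ht => by simp only [map_smul, h0 t _ ht])
    (e.injective.comp (B.symm.injective.comp (hi.comp e.symm.injective)))
    (fun y hy => VVM_cr e.symm (B.symm.trans e) (hc _ (by simpa using hy)))
    (by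
      have k := e.symm.continuous.tendsto (-1, 0)
      rw [he'] at k
      filter_upwards [k.eventually hB] with y k'
      rw [k', B.symm_apply_apply, e.apply_symm_apply])
  have inj : Injective fun x => B (e.symm (F (e x))) :=
    B.injective.comp (e.symm.injective.comp (F1.comp e.injective))
  have eq : ∀ y, ‖(e.symm : ℝ × ℂ →L[ℝ] Rn 3)‖ * |M| + 1 ≤ ‖y‖ → B (e.symm (F (e y))) = H y := by
    intro y k
    have k1 : M ≤ ‖e y‖ := by
      by_contra k2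
      have k3 := (e.symm : ℝ × ℂ →L[ℝ] Rn 3).le_opNorm (e y)
      have k4 := mul_le_mul_of_nonneg_left ((not_le.1 k2).le.trans (le_abs_self M))
        (norm_nonneg (e.symm : ℝ × ℂ →L[ℝ] Rn 3))
      rw [ContinuousLinearEquiv.coe_coe, e.symm_apply_apply] at k3
      linarith only [k, k3, k4]
    rw [F3 _ k1]
    simp only [ContinuousLinearEquiv.symm_apply_apply, ContinuousLinearEquiv.apply_symm_apply]
  refine ⟨_, _, by positivity, inj, fun y => VVM_cr e (e.symm.trans B) (F2 _), eq, ?_⟩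
  rintro _ ⟨x, hx, rfl⟩
  obtain ⟨y, k⟩ := VVM_onto h0 hi hc (B (e.symm (F (e x))))
  refine ⟨y, mem_closedBall_zero_iff.2 ?_, k⟩
  by_contra k1
  have k2 : y = x := inj ((eq y (not_le.1 k1).le).trans k)
  exact k1 (k2 ▸ mem_closedBall_zero_iff.1 hx)

end BEp
end
end

-- merged part: Pool.Agent.Work.MP_f0515e_an.P3.VVert
section
/-! All the vertices, for every exponent.
Plan. vvert_step: H, r from vg_model, F0, M from vert_model, s > 0 small: Z = closedBall v (s M) inside U, 2 s M ≤ r, no other point of B in Z. F' x = if x ∈ Z then F v + s • F0 (s⁻¹ • (x - v)) else F x; on ball v r the first formula holds everywhere.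
Injective by the last clause of vert_model. Energy: Eg_step with L from ll_cpt for F0 on closedBall 0 M (scaling keeps it) and for G on closedBall v r, tube_small-like limit (volume of small balls).
vertsC: as clear_lev and vertices3 in D3/MVert (induction on the number of points of B in K (j+1), U = Ω minus K j; seq_lim). -/

open Set Metric Filter Topology Function BEv MeasureTheory
open scoped NNReal ENNReal ContDiff

noncomputable section
namespace BEp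

variable {Ω : Set (Rn 3)} {G F : Rn 3 → Rn 3} {B : Set (Rn 3)} {p : ℝ}

theorem VVert_si (a b : Rn 3) {s : ℝ} (hs : 0 < s) (x : Rn 3) :
    SI (fun y => a + s • (y - b)) x :=
  ⟨s • ContinuousLinearMap.id ℝ _,
    (((hasStrictFDerivAt_id x).sub_const b).const_smul s).const_add a, s, hs, fun ξ => by
      simp [norm_smul, abs_of_pos hs]⟩

theorem VVert_small (hp0 : 0 ≤ p) (v : Rn 3) (M L : ℝ) {ε : ℝ≥0∞} (hε : ε ≠ 0) :
    ∀ᶠ r in 𝓝[>] (0 : ℝ),
      (ENNReal.ofReal M ^ p + ENNReal.ofReal L ^ p) * volume (closedBall v r) ≤ ε := by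
  have h1 := tendsto_measure_cthickening_of_isCompact (μ := volume) (isCompact_singleton (x := v))
  rw [measure_singleton] at h1
  have h2 : ENNReal.ofReal M ^ p + ENNReal.ofReal L ^ p ≠ ⊤ :=
    ENNReal.add_ne_top.2 ⟨ENNReal.rpow_ne_top_of_nonneg hp0 ENNReal.ofReal_ne_top,
      ENNReal.rpow_ne_top_of_nonneg hp0 ENNReal.ofReal_ne_top⟩
  have h3 := ENNReal.Tendsto.const_mul h1 (Or.inr h2)
  rw [mul_zero] at h3
  filter_upwards [nhdsWithin_le_nhds (h3.eventually (ge_mem_nhds (pos_iff_ne_zero.2 hε))),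
    self_mem_nhdsWithin] with r a b
  rwa [cthickening_singleton v (le_of_lt b)] at a

theorem vvert_step (hΩ : IsOpen Ω) (hp0 : 0 ≤ p) (hG : IL Ω G) (h : Vt Ω F B)
    (hv : ∀ v ∈ Ω ∩ B, VG F v) {v : Rn 3} (hvB : v ∈ Ω ∩ B) {U : Set (Rn 3)} (hU : U ∈ 𝓝 v)
    {ε : ℝ≥0∞} (hε : ε ≠ 0) :
    ∃ F', Vt Ω F' (B \ {v}) ∧ (∀ w ∈ Ω ∩ (B \ {v}), VG F' w) ∧ EqOn F' F Uᶜ ∧
      Eg p Ω G F' ≤ Eg p Ω G F + ε := by
  classical
  obtain ⟨r0, r00, h0⟩ := nhds_basis_closedBall.mem_iff.1 (hΩ.mem_nhds hvB.1)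
  have hA : ((B ∩ closedBall v r0) \ {v}).Finite := (h.lf _ (isCompact_closedBall v r0) h0).sdiff
  have hW : ∀ᶠ x in 𝓝 v, x ∈ Ω ∧ (x ∈ B → x = v) := by
    filter_upwards [closedBall_mem_nhds v r00,
      hA.isClosed.isOpen_compl.mem_nhds (x := v) fun k => k.2 rfl] with x k1 k2
    exact ⟨h0 k1, fun k => by_contra fun q => k2 ⟨⟨k, k1⟩, q⟩⟩
  obtain ⟨H, r, rp, hr, H0, H1, H2, ⟨y0, y1, y2⟩, H3⟩ := vg_model (hΩ.mem_nhds hvB.1) h.il.inj
    (hv v hvB) (eventually_nhdsWithin_iff.2 (hW.mono fun x k q => h.cr x k.1 fun b => q (k.2 b)))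
  obtain ⟨F0, M, Mp, f1, f2, f3, f4⟩ := vert_model H0 H1 H2 y1 y2
  obtain ⟨L1, l1, k1⟩ := ll_cpt (isCompact_closedBall (0 : Rn 3) M) fun x _ => (f2 x).1
  obtain ⟨L2, l2, k2⟩ := ll_cpt (isCompact_closedBall v r) fun x hx => hG.ll x (hr hx)
  obtain ⟨M1, m1⟩ := (isCompact_closedBall (0 : Rn 3) M).exists_bound_of_continuousOn
    (f := F0) fun x hx => (k1 x hx).continuousAt.continuousWithinAt
  obtain ⟨M2, m2⟩ := (isCompact_closedBall v r).exists_bound_of_continuousOn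
    (hG.continuousOn.mono hr)
  obtain ⟨r1, r10, h1⟩ := nhds_basis_closedBall.eventually_iff.1 (hW.and hU)
  obtain ⟨ρ, e1, ρ0, ρ1⟩ := ((VVert_small hp0 v (‖F v‖ + M1 + M2) (2 * (L1 + L2)) hε).and
    (Ioo_mem_nhdsGT (lt_min (lt_min rp r10) Mp))).exists
  have ρr : ρ < r := ρ1.trans_le ((min_le_left _ _).trans (min_le_left _ _))
  have ρ2 : ρ < r1 := ρ1.trans_le ((min_le_left _ _).trans (min_le_right _ _))
  have ρM : ρ < M := ρ1.trans_le (min_le_right _ _)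
  obtain ⟨s, hs⟩ : ∃ s, s = ρ / M := ⟨_, rfl⟩
  have s0 : 0 < s := hs ▸ div_pos ρ0 Mp
  have s1 : s ≤ 1 := hs ▸ (div_le_one Mp).2 ρM.le
  have sM : s * M = ρ := by rw [hs]; field_simp
  have nn : ∀ y : Rn 3, ‖s⁻¹ • y‖ = ‖y‖ / s := fun y => by
    rw [norm_smul, norm_inv, Real.norm_of_nonneg s0.le, inv_mul_eq_div]
  have hin : ∀ x ∈ closedBall v ρ, s⁻¹ • (x - v) ∈ closedBall (0 : Rn 3) M := fun x hx => by
    rw [mem_closedBall_zero_iff, nn, div_le_iff₀ s0, mul_comm, sM]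
    exact mem_closedBall_iff_norm.1 hx
  obtain ⟨Φ, hΦ⟩ : ∃ Φ : Rn 3 → Rn 3, Φ = fun x => F v + s • F0 (s⁻¹ • (x - v)) := ⟨_, rfl⟩
  have Φ1 : ∀ x, CR Φ x := fun x => by
    have a := ((f2 _).comp (VVert_si 0 v (inv_pos.2 s0) x)).postSI (VVert_si (F v) 0 s0 _)
    simpa only [hΦ, zero_add, sub_zero] using a
  have Φ2 : Injective Φ := fun x y e => by
    simp only [hΦ, add_right_inj] at e
    have := smul_right_injective _ (inv_pos.2 s0).ne' (f1 (smul_right_injective _ s0.ne' e))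
    exact sub_left_injective this
  have Φ3 : ∀ x ∈ closedBall v r, x ∉ closedBall v ρ → Φ x = F x := fun x a b => by
    have b' : M ≤ ‖s⁻¹ • (x - v)‖ := by
      rw [nn, le_div_iff₀ s0, mul_comm, sM]
      exact (not_le.1 fun k => b (mem_closedBall_iff_norm.2 k)).le
    have c := H3 (x - v) (mem_closedBall_iff_norm.1 a)
    rw [add_sub_cancel] at c
    simp only [hΦ]
    rw [f3 _ b', H0 _ _ (inv_pos.2 s0).le, smul_inv_smul₀ s0.ne', c]
  have Φ4 : ∀ x ∈ closedBall v ρ, ∃ z ∈ closedBall v ρ, F z = Φ x := fun x hx => by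
    obtain ⟨y, a, b⟩ := f4 ⟨_, hin x hx, rfl⟩
    have c : ‖s • y‖ ≤ ρ := by
      rw [norm_smul, Real.norm_of_nonneg s0.le, ← sM]
      exact mul_le_mul_of_nonneg_left (mem_closedBall_zero_iff.1 a) s0.le
    refine ⟨v + s • y, by simpa using c, ?_⟩
    rw [H3 _ (c.trans ρr.le), H0 _ _ s0.le, b, hΦ]
  have hZ : closedBall v ρ ⊆ closedBall v r := closedBall_subset_closedBall ρr.le
  have hZ1 : closedBall v ρ ⊆ closedBall v r1 := closedBall_subset_closedBall ρ2.le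
  obtain ⟨F', hF'⟩ : ∃ F' : Rn 3 → Rn 3, F' = fun x => if x ∈ closedBall v ρ then Φ x else F x :=
    ⟨_, rfl⟩
  have g1 : ∀ x ∈ closedBall v ρ, F' x = Φ x := fun x hx => by simp only [hF', hx, if_true]
  have g2 : ∀ x, x ∉ closedBall v ρ → F' x = F x := fun x hx => by simp only [hF', hx, if_false]
  have g3 : ∀ x ∈ closedBall v ρ, F' =ᶠ[𝓝 x] Φ := fun x hx => by
    filter_upwards [isOpen_ball.mem_nhds (closedBall_subset_ball ρr hx)] with y hy
    by_cases k : y ∈ closedBall v ρ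
    · exact g1 y k
    · rw [g2 y k, Φ3 y (ball_subset_closedBall hy) k]
  have g4 : ∀ x, x ∉ closedBall v ρ → F' =ᶠ[𝓝 x] F := fun x hx => by
    filter_upwards [isClosed_closedBall.isOpen_compl.mem_nhds hx] with y hy using g2 y hy
  have g5 : ∀ x ∈ closedBall v ρ, ∀ y ∈ Ω, y ∉ closedBall v ρ → F' x ≠ F' y := by
    intro x hx y hy k e
    obtain ⟨z, a, b⟩ := Φ4 x hx
    rw [g1 x hx, g2 y k, ← b] at e
    exact k (h.il.inj (hr (hZ a)) hy e ▸ a)
  refine ⟨F', ⟨⟨fun x hx y hy e => ?_, fun x hx => ?_⟩, fun C c1 c2 => ?_, fun x hx k => ?_⟩,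
    fun w hw => ?_, fun x hx => g2 x fun k => hx (h1 (hZ1 k)).2, ?_⟩
  · by_cases a : x ∈ closedBall v ρ <;> by_cases b : y ∈ closedBall v ρ
    · exact Φ2 (by rw [← g1 x a, ← g1 y b, e])
    · exact absurd e (g5 x a y hy b)
    · exact absurd e.symm (g5 y b x hx a)
    · exact h.il.inj hx hy (by rw [← g2 x a, ← g2 y b, e])
  · by_cases a : x ∈ closedBall v ρ
    · exact ((Φ1 x).congr (g3 x a)).1
    · obtain ⟨L, hL⟩ := h.il.ll x hx
      exact ⟨L, hL.congr (g4 x a)⟩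
  · exact (h.lf C c1 c2).subset fun x hx => ⟨hx.1.1, hx.2⟩
  · by_cases a : x ∈ closedBall v ρ
    · exact (Φ1 x).congr (g3 x a)
    · exact (h.cr x hx fun b => k ⟨b, fun q => a (q ▸ mem_closedBall_self ρ0.le)⟩).congr (g4 x a)
  · exact (hv w ⟨hw.1, hw.2.1⟩).congr (g4 w fun k => hw.2.2 ((h1 (hZ1 k)).1.2 hw.2.1))
  · refine (Eg_step hΩ hp0 isClosed_closedBall (N := ∅) measure_empty
      (fun x hx => g2 x hx.2) (L := L1 + L2) (M := ‖F v‖ + M1 + M2) (by positivity)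
      fun x hx _ _ => ⟨?_, (k2 x (hZ hx)).mono (le_add_of_nonneg_left l1), ?_⟩).trans
      (add_le_add le_rfl e1)
    · have a := (LL.const (F v) x).add ((LL.comp (f := fun y => s⁻¹ • (y - v)) (k1 _ (hin x hx))
        (((LL.id' x).sub (LL.const v x)).const_smul s⁻¹) l1).const_smul s)
      rw [← hΦ] at a
      refine (a.mono ?_).congr (g3 x hx)
      rw [abs_of_pos s0, abs_of_pos (inv_pos.2 s0)]
      have : s * (L1 * (s⁻¹ * (1 + 0))) = L1 := by field_simp; ring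
      linarith only [l2, this]
    · rw [g1 x hx, hΦ]
      refine (norm_sub_le _ _).trans (add_le_add ((norm_add_le _ _).trans (add_le_add le_rfl ?_))
        (m2 x (hZ hx)))
      rw [norm_smul, Real.norm_of_nonneg s0.le]
      exact (mul_le_of_le_one_left (norm_nonneg _) s1).trans (m1 _ (hin x hx))

theorem VVert_lev (hΩ : IsOpen Ω) (hp0 : 0 ≤ p) (hG : IL Ω G) {K : ℕ → Set (Rn 3)}
    (hK : Exh Ω K) {j : ℕ} (h : Vt Ω F B) (hv : ∀ v ∈ Ω ∩ B, VG F v) (hd : Disjoint B (K j))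
    {ε : ℝ≥0∞} (hε : ε ≠ 0) :
    ∃ F' B', Vt Ω F' B' ∧ (∀ v ∈ Ω ∩ B', VG F' v) ∧ Disjoint B' (K (j + 1)) ∧ EqOn F' F (K j) ∧
      Eg p Ω G F' ≤ Eg p Ω G F + ε := by
  obtain ⟨m, hm⟩ : ∃ m, (B ∩ K (j + 1)).ncard ≤ m := ⟨_, le_rfl⟩
  induction m generalizing F B ε with
  | zero =>
    have e := (ncard_eq_zero (h.lf _ (hK.cpt _) (hK.sub _))).1 (Nat.le_zero.1 hm)
    exact ⟨F, B, h, hv, disjoint_iff_inter_eq_empty.2 e, fun _ _ => rfl, le_self_add⟩
  | succ m ih =>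
    rcases (B ∩ K (j + 1)).eq_empty_or_nonempty with e | ⟨v, v1, v2⟩
    · exact ⟨F, B, h, hv, disjoint_iff_inter_eq_empty.2 e, fun _ _ => rfl, le_self_add⟩
    have hε2 : ε / 2 ≠ 0 := (ENNReal.half_pos hε).ne'
    obtain ⟨F1, a1, a2, a3, a4⟩ := vvert_step hΩ hp0 hG h hv ⟨hK.sub _ v2, v1⟩
      ((hK.cpt j).isClosed.isOpen_compl.mem_nhds (disjoint_left.1 hd v1)) hε2
    have hf := h.lf _ (hK.cpt (j + 1)) (hK.sub _)
    have hs : (B \ {v}) ∩ K (j + 1) ⊆ (B ∩ K (j + 1)) \ {v} := fun x hx =>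
      ⟨⟨hx.1.1, hx.2⟩, hx.1.2⟩
    obtain ⟨F2, B2, b1, b0, b2, b3, b4⟩ := ih a1 a2 (hd.mono_left sdiff_subset) hε2 (by
        have c1 := ncard_le_ncard hs hf.sdiff
        have c2 := ncard_sdiff_singleton_lt_of_mem (s := B ∩ K (j + 1)) ⟨v1, v2⟩ hf
        omega)
    refine ⟨F2, B2, b1, b0, b2, fun x hx => (b3 hx).trans (a3 fun k => k hx), b4.trans ?_⟩
    refine (add_le_add a4 le_rfl).trans (le_of_eq ?_)
    rw [add_assoc, ENNReal.add_halves]

theorem vertsC (hΩ : IsOpen Ω) (hp0 : 0 ≤ p) (hG : IL Ω G) (h : Vt Ω F B)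
    (hv : ∀ v ∈ Ω ∩ B, VG F v) {ε : ℝ≥0∞} (hε : ε ≠ 0) :
    ∃ F', IL Ω F' ∧ (∀ x ∈ Ω, CR F' x) ∧ Eg p Ω G F' ≤ Eg p Ω G F + ε := by
  obtain ⟨K, hK⟩ := exists_exh hΩ
  obtain ⟨F', a1, a2⟩ := seq_lim (p := p) (F := F) hΩ hK hG.continuousOn
    (P := fun j F => ∃ B, Vt Ω F B ∧ (∀ v ∈ Ω ∩ B, VG F v) ∧ Disjoint B (K j))
    (fun j F ⟨_, k, _⟩ => k.il.continuousOn) ⟨B, h, hv, by rw [hK.zero]; exact disjoint_empty _⟩
    (fun j F ⟨B, k1, k2, k3⟩ ε hε => by
      obtain ⟨F1, B1, b1, b2, b3, b4, b5⟩ := VVert_lev hΩ hp0 hG hK k1 k2 k3 hε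
      exact ⟨F1, ⟨B1, b1, b2, b3⟩, b4.mono (hK.mono (Nat.sub_le j 1)), b5⟩) hε
  refine ⟨F', hK.il fun j => ?_, fun x hx => ?_, a1⟩
  · obtain ⟨F1, ⟨B1, b1, -⟩, b3⟩ := a2 j
    exact ⟨F1, b1.il, b3⟩
  · obtain ⟨j, hj⟩ := (hK.nhds hx).exists
    obtain ⟨F1, ⟨B1, b1, -, b2⟩, b3⟩ := a2 j
    exact (b1.cr x hx fun k => disjoint_left.1 b2 k
      (hK.mono (Nat.sub_le j 1) (mem_of_mem_nhds hj))).congr (b3.eventuallyEq_of_mem hj)

end BEp
end
end

-- merged part: Pool.Agent.Work.MP_f0515e_an.P3.VMain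
section
/-! EXPORT: smoothing of piecewise affine embeddings in dimension three for every finite exponent. -/

open Set Metric Filter Topology Function BEv MeasureTheory
open scoped NNReal ENNReal ContDiff

noncomputable section
namespace BEp

variable {Ω : Set (Rn 3)} {G : Rn 3 → Rn 3}

theorem smooth3C {p : ℝ} (hΩ : IsOpen Ω) (hp0 : 0 < p) (ht : LTP Ω G)
    (hi : InjOn G Ω) {ε : ℝ≥0∞} (hε : ε ≠ 0) : ∃ F, IsDiffeo Ω F ∧ Eg p Ω G F ≤ ε := by
  obtain ⟨X⟩ := exists_sd hΩ ht hi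
  have hG := ltp_il hΩ ht hi
  have h3 : ε / 3 ≠ 0 := (ENNReal.div_pos hε (by simp)).ne'
  obtain ⟨F1, a1, a2, a4, a3⟩ := X.edges3C hΩ hp0 hG (fun v hv => ltp_vg hΩ ht hv) h3
  obtain ⟨F2, b1, b2, b3⟩ := vertsC hΩ hp0.le hG ⟨a1, X.lfB, a2⟩ a4 h3
  obtain ⟨F3, c1, c2⟩ := smooth_cr hΩ hp0.le hG b1.inj b2 h3
  refine ⟨F3, c1, c2.trans ?_⟩
  refine le_trans ?_ (ENNReal.add_thirds ε).le
  gcongr
  exact b3.trans (by gcongr)

theorem approx_diffeoC {p : ℝ≥0∞} (hp1 : 1 ≤ p) (hp' : p ≠ ⊤) (hΩ : IsOpen Ω) {f : Rn 3 → Rn 3}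
    {D D' : Rn 3 → Rn 3 →L[ℝ] Rn 3} (hW : MemW1p p Ω f D) (hD : D' =ᵐ[volume.restrict Ω] D)
    (h : ∀ ε : ℝ≥0∞, ε ≠ 0 → ∃ G, LTP Ω G ∧ InjOn G Ω ∧ ∫⁻ x in Ω, en p.toReal G f D' x ≤ ε) :
    Approximable IsDiffeo p Ω f D := by
  have hq1 : 1 ≤ p.toReal := by simpa using ENNReal.toReal_mono hp' hp1
  have hq := zero_lt_one.trans_le hq1
  have key : ∀ ε : ℝ≥0∞, ε ≠ 0 → ∃ F, IsDiffeo Ω F ∧ ∫⁻ x in Ω, en p.toReal F f D' x ≤ ε := by
    intro ε hε
    have h0 : ε / 2 ^ p.toReal / 2 ≠ 0 := (ENNReal.half_pos (ENNReal.div_pos hε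
      (ENNReal.rpow_ne_top_of_nonneg hq.le ENNReal.ofNat_ne_top)).ne').ne'
    obtain ⟨G, a1, a2, a3⟩ := h _ h0
    obtain ⟨F, b1, b2⟩ := smooth3C hΩ hq a1 a2 h0
    refine ⟨F, b1, (en_int hq1 hΩ b1.1.continuousOn (a1.continuousOn hΩ) f D').trans ?_⟩
    refine (mul_le_mul_right (add_le_add b2 a3) _).trans ?_
    rw [ENNReal.add_halves]
    exact ENNReal.mul_div_le
  have hn : ∀ j : ℕ, (0 : ℝ≥0∞) < ((j : ℝ≥0∞) + 1)⁻¹ := fun j => ENNReal.inv_pos.2 (by simp)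
  have hn' : ∀ j : ℕ, ((j : ℝ≥0∞) + 1)⁻¹ < ⊤ := fun j => ENNReal.inv_lt_top.2 (by simp)
  choose G h1 h3 using fun j : ℕ => key ((((j : ℝ≥0∞) + 1)⁻¹) ^ p.toReal)
    (ENNReal.rpow_pos_of_nonneg (hn j) hq.le).ne'
  have a1 : ∀ j, eLpNorm (G j - f) p (volume.restrict Ω) ≤ ((j : ℝ≥0∞) + 1)⁻¹ := fun j =>
    BRed_lp hp1 hp' ((lintegral_mono fun x => le_self_add).trans (h3 j))
  have a2 : ∀ j, eLpNorm (fderiv ℝ (G j) - D) p (volume.restrict Ω) ≤ ((j : ℝ≥0∞) + 1)⁻¹ :=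
    fun j => (eLpNorm_congr_ae (EventuallyEq.rfl.sub hD.symm)).trans_le
      (BRed_lp hp1 hp' ((lintegral_mono fun x => le_add_self).trans (h3 j)))
  refine ⟨G, fun j => fderiv ℝ (G j), fun j => ⟨h1 j,
    LFin_mem ((h1 j).1.continuousOn.aestronglyMeasurable hΩ.measurableSet) hW.1
      ((a1 j).trans_lt (hn' j)), LFin_mem (measurable_fderiv ℝ (G j)).aestronglyMeasurable hW.2.1
      ((a2 j).trans_lt (hn' j)), diffeo_weak hΩ (h1 j).1⟩, ?_⟩
  have t : Tendsto (fun j : ℕ => ((j : ℝ≥0∞) + 1)⁻¹) atTop (𝓝 0) :=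
    (ENNReal.tendsto_inv_nat_nhds_zero.comp (tendsto_add_atTop_nat 1)).congr fun j => by simp
  exact tendsto_of_tendsto_of_tendsto_of_le_of_le tendsto_const_nhds (by simpa using t.add t)
    (fun _ => zero_le) fun j => add_le_add (a1 j) (a2 j)

end BEp
end
end
end
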