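import Pool.Agent.Work.MP_f0515e_an.P3.XFin3

/-! The speed on the edges after crushing. -/

open Set Metric Filter Topology Function BEv
open scoped NNReal

noncomputable section
namespace BEp

variable {n m : ℕ}

variable {ν ι : Type} {V : Set (Rn 3)} {g C : ℝ} {Cf : (Rn 3 ≃L[ℝ] Rn 3) → ℝ} {P : ι → Pc} {T : TS}
  {c : Rn 3 → ℝ} {t : ν → Rn 3 → ℝ} {mv : ν → Rn 3 → ℝ → Rn 3} {dim : ν → ℕ} {b : ν → Rn 3}
  {Ω : Set (Rn 3)} {K : Kx Ω} {G : Rn 3 → Rn 3} {θ : Rn 3 → ℝ} {ch : Set (Rn 3) → Ch}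
  {r R τ : Set (Rn 3) → ℝ}
  {τ' ℓ Λ sp δ : Set (Rn 3) → ℝ} {A : ν → Set ℝ} {ε η : ν → ℝ} {Γ Θ : Rn 3 → Rn 3} {p C0 η₀ : ℝ}
  {φ : ν → ℝ → ℝ}

theorem XFin2_bD (m : Mid V g C P t mv K G p C0 ch r R τ ℓ Λ sp A ε Γ)
    (h : XCtx V g C P T t mv dim K G Cf c b θ ch r R τ) (hℓ : Sca C P T K G ℓ) {σ : Set (Rn 3)}
    (hσ : σ ∈ K.cells) (hd : dm σ ≤ 2) (ho : Ofs P σ) {x x' : Rn 3} (hx : x ∈ closure σ)
    (hx' : x' ∈ closure σ) {v w : ν} (hv : 0 < t v (Γ x)) (hw : 0 < t w (Γ x')) :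
    ‖b v - b w‖ ≤ 30 * C ^ 9 * ℓ σ := by
  have C1 := h.api.C1
  have k := h.api.bD (h.hin.sub ⟨x, Kx.cl_sub hσ hx, rfl⟩) (m.sub ⟨x, Kx.cl_sub hσ hx, rfl⟩)
    (m.sub ⟨x', Kx.cl_sub hσ hx', rfl⟩) (m.chn σ hσ hd ho x hx x hx) (m.chn σ hσ hd ho x hx x' hx')
    hv hw
  refine k.trans ((mul_le_mul_of_nonneg_left (hℓ.2 σ hσ hd ho x hx).2 (by positivity)).trans_eq ?_)
  ring

theorem Mid.fin_edge [Finite ι] (m : Mid V g C P t mv K G p C0 ch r R τ ℓ Λ sp A ε Γ)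
    (h : XCtx V g C P T t mv dim K G Cf c b θ ch r R τ) (hℓ : Sca C P T K G ℓ)
    (hΛ : LUp g P t K G τ' Λ) (k : Cr V t g A ε η φ Θ)
    (hs : ∀ σ, sp σ = 40 * C ^ 13 * ℓ σ * Λ σ + τ σ / 2) (hτ : ∀ σ, 80 * C ^ 13 * ℓ σ * τ' σ ≤ τ σ)
    (hδ : ∀ σ, 60 * C ^ 10 * ℓ σ / g * δ σ ≤ τ σ) {x y : Rn 3} (hxy : K.Edge x y)
    (ho : Ofs P (openSegment ℝ x y))
    (he : ∀ W : Finset ν, ∀ s ∈ Icc (0 : ℝ) 1, ∀ s' ∈ Icc (0 : ℝ) 1,
      ∑ v ∈ W, η v * |t v (Γ (seg x y s)) - t v (Γ (seg x y s'))| ≤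
        δ (openSegment ℝ x y) * |s - s'|) :
    (∀ s ∈ Icc (0 : ℝ) 1, ∀ s' ∈ Icc (0 : ℝ) 1,
      ‖(Θ ∘ Γ) (seg x y s) - (Θ ∘ Γ) (seg x y s')‖ ≤ sp (openSegment ℝ x y) * |s - s'|) ∧
    ∀ z ∈ V, (∃ u ∈ segment ℝ x y, ‖G u - z‖ ≤ 2 * T.l z) →
      ENNReal.ofReal (sp (openSegment ℝ x y)) ≤
        ENNReal.ofReal (T.c z) * vr G x y + ENNReal.ofReal (τ (openSegment ℝ x y)) := by
  have C1 := h.api.C1
  have g0 := h.api.g0
  have hd : dm (openSegment ℝ x y) ≤ 2 := hxy.dm.trans_le one_le_two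
  have l0 := hℓ.1 (openSegment ℝ x y)
  have Λ0 := hΛ.1 (openSegment ℝ x y)
  have τ0 := h.hin.τ0 (openSegment ℝ x y)
  have hm : ∀ s ∈ Icc (0 : ℝ) 1, seg x y s ∈ closure (openSegment ℝ x y) := fun s hs => by
    rw [hxy.cl, ← seg_image]
    exact mem_image_of_mem _ hs
  have hΩ : ∀ s ∈ Icc (0 : ℝ) 1, seg x y s ∈ Ω := fun s hs => Kx.cl_sub hxy.2 (hm s hs)
  have hV : ∀ s ∈ Icc (0 : ℝ) 1, Γ (seg x y s) ∈ V := fun s hs => m.sub ⟨_, hΩ s hs, rfl⟩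
  constructor
  · have hc : ContinuousOn (fun s => Γ (seg x y s)) (Icc 0 1) :=
      (m.ltp.contOn h.hin.opn).comp (tp_seg x y).continuous.continuousOn hΩ
    have hi : InjOn (fun s => Γ (seg x y s)) (Icc 0 1) := fun s hs s' hs' e =>
      smul_left_injective ℝ (sub_ne_zero.2 hxy.1.symm)
        (add_left_cancel (m.inj (hΩ s hs) (hΩ s' hs') e : x + s • (y - x) = x + s' • (y - x)))
    have n0 : ∀ v, (0 : ℝ) < (A v).ncard := fun v => by
      exact_mod_cast (ncard_pos (m.lev.fin v)).2 (m.lev.ne v)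
    obtain ⟨N, hN⟩ := ((h.api.lf1 _ (isCompact_Icc.image_of_continuousOn hc)
      (image_subset_iff.2 hV)).image fun v => (A v).ncard).bddAbove
    have hE := edT_of (c := fun ω : ν × ℝ => 20 * C ^ 13 * ℓ (openSegment ℝ x y) / (A ω.1).ncard)
      (v := 40 * C ^ 13 * ℓ (openSegment ℝ x y) * Λ (openSegment ℝ x y))
      (c₀ := 20 * C ^ 13 * ℓ (openSegment ℝ x y) / (N + 1)) (h.api.fib m.lev) hi
      (d := g / 4) (by linarith) (by positivity) (fun ω s hs l => by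
        have k1 := m.lev.inn ω.1 ω.2 l.2.1
        have k2 := abs_le.1 l.2.2
        have k3 : ((A ω.1).ncard : ℝ) ≤ N := by
          exact_mod_cast hN ⟨ω.1, ⟨_, ⟨s, hs, rfl⟩, by linarith⟩, rfl⟩
        exact div_le_div_of_nonneg_left (by positivity) (n0 _) (by linarith))
      (m.pt x y hxy ho).2 ((m.pt x y hxy ho).1.mono fun ω => Jv.mono
        (D := 40 * C ^ 13 * ℓ (openSegment ℝ x y)) (by positivity) (by
          rw [← mul_div_assoc]
          refine div_le_div_of_nonneg_right ?_ (n0 _).le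
          have : 1 / 2 ≤ (1 - g / 4) ^ 2 := by nlinarith
          have p0 : 0 < C ^ 13 * ℓ (openSegment ℝ x y) := by positivity
          nlinarith) fun _ => le_rfl)
    have hK := h.api.crush_mk m.lev k hc isCompact_Icc hV
      (D := 30 * C ^ 9 * ℓ (openSegment ℝ x y)) (by positivity)
      (fun s hs s' hs' v w hv hw => XFin2_bD m h hℓ hxy.2 hd ho (hm s hs) (hm s' hs') hv hw)
      he (x := fun ω : ν × ℝ => 20 * C ^ 13 * ℓ (openSegment ℝ x y) / (A ω.1).ncard) fun ω => by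
        rw [← div_div]
        refine div_le_div_of_nonneg_right ?_ (n0 _).le
        have a2 : C ^ 10 ≤ C ^ 13 := pow_le_pow_right₀ C1 (by norm_num)
        have a3 : 0 < C ^ 10 * ℓ (openSegment ℝ x y) := by positivity
        have a4 := mul_le_mul_of_nonneg_right a2 l0.le
        have a5 : C * (30 * C ^ 9 * ℓ (openSegment ℝ x y)) / 2 =
          15 * (C ^ 10 * ℓ (openSegment ℝ x y)) := by ring
        linarith
    intro s h1 s' h2
    refine (zedge' (by positivity) hE hK s h1 s' h2).trans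
      (mul_le_mul_of_nonneg_right ?_ (abs_nonneg _))
    have e : C * (30 * C ^ 9 * ℓ (openSegment ℝ x y)) * δ (openSegment ℝ x y) / g =
      60 * C ^ 10 * ℓ (openSegment ℝ x y) / g * δ (openSegment ℝ x y) / 2 := by ring
    rw [hs, e]
    linarith [hδ (openSegment ℝ x y)]
  · rintro z hz ⟨u, hu, hk⟩
    obtain ⟨S, s2, -, hS⟩ := hΛ.2 x y hxy ho
    have lz := h.api.l0 z hz
    have cu : u ∈ closure (openSegment ℝ x y) := hxy.cl ▸ hu
    have l1 := (hℓ.2 _ hxy.2 hd ho u cu).1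
    have l2 := (h.api.lv z hz _ (h.hin.sub ⟨u, Kx.cl_sub hxy.2 cu, rfl⟩) (by linarith)).1
    have c1 := h.api.c1 z
    have k1 : ∑ v ∈ S, eVariationOn (fun s => clq g (t v (G (seg x y s)))) (Icc 0 1) ≤
        ENNReal.ofReal 2 * (ENNReal.ofReal (c z / T.l z) * vr G x y) := by
      refine (Finset.sum_le_card_nsmul _ _ _ fun v _ => h.tvar hxy ho hz ⟨u, hu, hk⟩ v).trans ?_
      rw [nsmul_eq_mul, ENNReal.ofReal_ofNat]
      exact mul_le_mul' (by exact_mod_cast s2) le_rfl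
    have k2 : 2 / ((1 - g / 2) * (1 - 5 * g / 2)) ≤ 4 := by
      rw [div_le_iff₀ (mul_pos (by linarith) (by linarith))]
      nlinarith
    have k3 : 40 * C ^ 13 * ℓ (openSegment ℝ x y) * (4 * (2 * (c z / T.l z))) ≤ T.c z := by
      have a1 : ℓ (openSegment ℝ x y) / T.l z ≤ C ^ 2 := by
        rw [div_le_iff₀ lz]
        nlinarith
      have a2 : C ^ 15 ≤ C ^ 40 := pow_le_pow_right₀ C1 (by norm_num)
      have a3 : 0 ≤ C ^ 13 * c z := by have := c1.1; positivity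
      have a4 : 0 ≤ C ^ 40 * c z := by have := c1.1; positivity
      calc _ = 320 * (C ^ 13 * c z) * (ℓ (openSegment ℝ x y) / T.l z) := by ring
        _ ≤ 320 * (C ^ 13 * c z) * C ^ 2 := by gcongr
        _ = 320 * (C ^ 15 * c z) := by ring
        _ ≤ 320 * (C ^ 40 * c z) := by have := c1.1; gcongr
        _ ≤ _ := by linarith [c1.2]
    have D0 : 0 ≤ 40 * C ^ 13 * ℓ (openSegment ℝ x y) := by positivity
    rw [hs]
    refine ENNReal.ofReal_add_le.trans ?_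
    rw [ENNReal.ofReal_mul D0]
    refine (add_le_add (mul_le_mul' le_rfl (hS.trans (add_le_add
      (mul_le_mul' (ENNReal.ofReal_le_ofReal k2) k1) le_rfl))) le_rfl).trans ?_
    rw [mul_add, add_assoc, ← mul_assoc (ENNReal.ofReal 2), ← mul_assoc (ENNReal.ofReal 4),
      ← mul_assoc, ← ENNReal.ofReal_mul zero_le_two, ← ENNReal.ofReal_mul (by norm_num),
      ← ENNReal.ofReal_mul D0, ← ENNReal.ofReal_mul D0]
    refine add_le_add (mul_le_mul' (ENNReal.ofReal_le_ofReal k3) le_rfl) ?_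
    refine (add_le_add (ENNReal.ofReal_le_ofReal (q := τ (openSegment ℝ x y) / 2)
      (by linarith [hτ (openSegment ℝ x y)])) le_rfl).trans ?_
    rw [← ENNReal.ofReal_add (by positivity) (by positivity), add_halves]

end BEp
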