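import Pool.Agent.Work.MP_f0515e_an.P3.TDefs
import Pool.Agent.Work.MP_f0515e_an.D3.EML

/-! Export of the face estimates: definitions. -/

open Set Metric Filter Topology Function BEv MeasureTheory
open scoped NNReal ENNReal

noncomputable section
namespace BEp

/-- Families of intervals, one for each wall; together they are disjoint. -/
structure IvW {κ : Type} (𝒥 : κ → Set (ℝ × ℝ)) : Prop where
  ivs : Ivs (⋃ w, 𝒥 w)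
  dis : ∀ w w' j, j ∈ 𝒥 w → j ∈ 𝒥 w' → w = w'

section
variable {κ : Type} (N : κ → Set (Rn 3)) (f : κ → Rn 3 → ℝ → Rn 3)

/-- The path `γ` crosses the walls tamely, with weighted speed at most `v`. -/
def EdT (c : κ → ℝ) (γ : ℝ → Rn 3) (v : ℝ) : Prop :=
  ∃ 𝒥, IvW 𝒥 ∧ TameC N f γ 𝒥 ∧ ∀ w, ∀ j ∈ 𝒥 w, c w ≤ v * j.2

/-- A collar of the two legs misses the walls. -/
def Fre (a : ℝ) (g : Rn 2 → Rn 3) : Prop :=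
  ∀ q ∈ Tri, q 0 ≤ a ∨ 1 - a ≤ q 1 → ∀ w, g q ∉ N w

/-- `lam` is the coordinate across the wall `w`, read along `g` on the set `S`. -/
structure Lbl {X : Type} [TopologicalSpace X] (S : Set X) (g : X → Rn 3) (w : κ) (lam : X → ℝ) :
    Prop where
  cont : ContinuousOn lam S
  off : ∀ q ∈ S, g q ∉ N w → |lam q| = 1
  ins : ∀ q ∈ S, g q ∈ N w → ∀ t : ℝ, |t| ≤ 1 → f w (g q) t = g q → lam q = t

/-- The increments of `k` are bounded by the weighted increments of the labels along `g`. -/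
def Crush {X : Type} [PseudoMetricSpace X] (c : κ → ℝ) (S : Set X) (g k : X → Rn 3) (ε : ℝ) :
    Prop :=
  ∃ (W : Finset κ) (lam : κ → X → ℝ), (∀ w ∈ W, Lbl N f S g w (lam w)) ∧
    ∀ q ∈ S, ∀ q' ∈ S, ‖k q - k q'‖ ≤ ∑ w ∈ W, c w * |lam w q - lam w q'| + ε * dist q q'

end

/-- On `B` the function `lam` is `± 1` or an affine function of one coordinate read off `𝒥`. -/
def LabT (𝒥 : Set (ℝ × ℝ)) (B : Set (Rn 2)) (lam : Rn 2 → ℝ) : Prop :=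
  ∀ q ∈ B, |lam q| = 1 ∨ ∃ j ∈ 𝒥, ∃ k : Fin 2, ∃ σ : ℝ, (σ = 1 ∨ σ = -1) ∧ |q k - j.1| ≤ j.2 ∧
    lam q = σ * ((q k - j.1) / j.2)

section
variable {Ω : Set (Rn 3)}

/-- The body of `HOut.face`. -/
def FaceBd (K : Kx Ω) (h : Ch) (sp : Set (Rn 3) → ℝ) (p C R τ : ℝ) (H : Rn 3 → Rn 3) : Prop :=
  ∀ ψ : Rn 2 → ℝ≥0∞, Measurable ψ →
    (∀ ξ ξ', K.Edge (h.φ ξ) (h.φ ξ') → ξ ∈ closure h.U → ξ' ∈ closure h.U →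
      ∀ z ∈ openSegment ℝ ξ ξ',
        ENNReal.ofReal (sp (openSegment ℝ (h.φ ξ) (h.φ ξ'))) ≤ ψ z * ‖ξ' - ξ‖ₑ) →
    h.E p H ≤ ENNReal.ofReal C ^ p * ENNReal.ofReal R *
      (∫⁻ ξ in frontier h.U, ψ ξ ^ p ∂μH[1]) + ENNReal.ofReal τ

/-- The body of `HOut.lip`. -/
def LipBd (K : Kx Ω) (h : Ch) (sp : Set (Rn 3) → ℝ) (C τ : ℝ) (H : Rn 3 → Rn 3) : Prop :=
  ∀ L : ℝ, 0 ≤ L →
    (∀ ξ ξ', K.Edge (h.φ ξ) (h.φ ξ') → ξ ∈ closure h.U → ξ' ∈ closure h.U →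
      sp (openSegment ℝ (h.φ ξ) (h.φ ξ')) ≤ L * ‖ξ' - ξ‖) →
    ∀ ξ ∈ h.U, ∀ ξ' ∈ h.U, ‖H (h.φ ξ) - H (h.φ ξ')‖ ≤ (C * L + τ) * ‖ξ - ξ'‖

end

/-- A convex polygon with its vertices in cyclic order. -/
structure ZP (U : Set (Rn 2)) (m : ℕ) (v : ℕ → Rn 2) : Prop where
  opn : IsOpen U
  cvx : Convex ℝ U
  poly : Poly (closure U)
  pos : 0 < m
  cyc : v m = v 0
  ne : ∀ i < m, v i ≠ v (i + 1)
  cov : ∀ x, x ∈ frontier U ↔ ∃ i < m, x ∈ segment ℝ (v i) (v (i + 1))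
  inj : ∀ i < m, ∀ j < m, ∀ s ∈ Ico (0 : ℝ) 1, ∀ t ∈ Ico (0 : ℝ) 1,
    seg (v i) (v (i + 1)) s = seg (v j) (v (j + 1)) t → i = j ∧ s = t

/-- Perimeter. -/
def zper (m : ℕ) (v : ℕ → Rn 2) : ℝ := ∑ i ∈ Finset.range m, ‖v (i + 1) - v i‖

/-- Determinant. -/
def zdet (x y : Rn 2) : ℝ := x 0 * y 1 - x 1 * y 0

/-- The chart `χ` of the polygon over the triangle; `t i` are the break points on the diagonal,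
`T i` the good pieces. -/
structure ZC (U : Set (Rn 2)) (m : ℕ) (v : ℕ → Rn 2) (r R η a : ℝ) (χ : Rn 2 → Rn 2) (t : ℕ → ℝ)
    (T : ℕ → Set (Rn 2)) : Prop where
  tp : TP χ
  bij : BijOn χ Tri (closure U)
  bd : BijOn χ bTri (frontier U)
  lt : ∀ i < m, t i < t (i + 1)
  t0 : t 0 ≤ 0
  tm : 1 ≤ t m
  a0 : 0 ≤ a
  mg0 : a ≤ t 0 + η * (t 1 - t 0)
  mg1 : t m - η * (t m - t (m - 1)) ≤ 1 - a
  diag : ∀ i < m, ∀ s ∈ Icc (0 : ℝ) 1, s ∈ Icc (t i) (t (i + 1)) →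
    χ ![s, s] = seg (v i) (v (i + 1)) ((s - t i) / (t (i + 1) - t i))
  leg : ∀ q ∈ bTri, q 0 = 0 ∨ q 1 = 1 → ∃ i < m, ∃ s ∈ Icc (0 : ℝ) 1, (s ≤ η ∨ 1 - η ≤ s) ∧
    χ q = seg (v i) (v (i + 1)) s
  low : ∀ i < m, r * (t (i + 1) - t i) ≤ ‖v (i + 1) - v i‖
  up : ∀ i < m, ‖v (i + 1) - v i‖ ≤ 16 * R ^ 2 / r * (t (i + 1) - t i)
  cl : ∀ i < m, IsClosed (T i)
  sub : ∀ i < m, T i ⊆ Tri
  cov : ∀ q ∈ Tri, (∃ i < m, q ∈ T i) ∨ q 0 ≤ a ∨ 1 - a ≤ q 1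
  fwd : ∀ i < m, ∀ j < m, ∀ q ∈ T i, ∀ q' ∈ T j, ‖χ q - χ q'‖ ≤ 100 * R ^ 2 / r * ‖q - q'‖
  inv : ∀ i < m, ∀ q ∈ T i, ∀ q' ∈ T i, ‖q - q'‖ ≤ 7 * R / r ^ 2 * ‖χ q - χ q'‖

/-- Increments of `k` on the triangle: speeds `V i` over the intervals `[t i, t (i + 1)]`, and
nothing on the collar, up to `ε`. -/
structure ZK (m : ℕ) (t V : ℕ → ℝ) (a ε : ℝ) (k : Rn 2 → Rn 3) : Prop where
  V0 : ∀ i < m, 0 ≤ V i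
  cell : ∀ i < m, ∀ j < m, ∀ q ∈ Tri, ∀ q' ∈ Tri, q 0 ∈ Icc (t i) (t (i + 1)) →
    q' 0 ∈ Icc (t i) (t (i + 1)) → q 1 ∈ Icc (t j) (t (j + 1)) → q' 1 ∈ Icc (t j) (t (j + 1)) →
    ‖k q - k q'‖ ≤ V i * |q 0 - q' 0| + V j * |q 1 - q' 1| + ε * ‖q - q'‖
  fre : ∀ q ∈ Tri, ∀ q' ∈ Tri, (q 0 ≤ a ∧ q' 0 ≤ a) ∨ (1 - a ≤ q 1 ∧ 1 - a ≤ q' 1) →
    ‖k q - k q'‖ ≤ ε * ‖q - q'‖

/-- The intervals on the diagonal that come from the intervals `𝒥 i` on the edges. -/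
def zJ {κ : Type} (m : ℕ) (t : ℕ → ℝ) (𝒥 : ℕ → κ → Set (ℝ × ℝ)) (w : κ) : Set (ℝ × ℝ) :=
  {j | ∃ i < m, ∃ j' ∈ 𝒥 i w, j = (t i + (t (i + 1) - t i) * j'.1, (t (i + 1) - t i) * j'.2)}

end BEp
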