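import Pool.Agent.Work.MP_f0515e_an.P3.YFl1
import Pool.Agent.Work.MP_f0515e_an.P3.ZDefs
import Pool.Agent.Work.MP_f0515e_an.D3.EML
import Pool.Agent.Work.MP_f0515e_an.D3.KA3
import Pool.Agent.Work.MP_f0515e_an.D3.KA4

-- merged part: Pool.Agent.Work.MP_f0515e_an.P3.XDef2
section
-- merged part: Pool.Agent.Work.MP_f0515e_an.P3.XDef2
section
/-! Exchange theorem: vocabulary of the stages. -/

open Set Metric Filter Topology Function BEv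
open scoped NNReal

noncomputable section
namespace BEp

variable {n m : ℕ}

section
variable {ν : Type} (V : Set (Rn 3)) (t : ν → Rn 3 → ℝ) (mv : ν → Rn 3 → ℝ → Rn 3)

/-- Tame path: the walls of the class `v` carry the weight `x v`. -/
def PT (A : ν → Set ℝ) (ε x : ν → ℝ) (γ : ℝ → Rn 3) (d : ℝ) (Λ : ℝ → ℝ) : Prop :=
  TameC (gN V t A ε) (gf mv ε) γ fun ω => Jv d Λ (x ω.1)

/-- Tame parametrisation of a disc. -/
def FT (A : ν → Set ℝ) (ε x : ν → ℝ) (k : Rn 2 → Rn 3) (d : ℝ) (Λ : ℝ → ℝ) : Prop :=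
  (∃ 𝒥 : ν × ℝ → Set (ℝ × ℝ), (⋃ ω, 𝒥 ω).Finite ∧ (∀ ω, 𝒥 ω ⊆ Jv d Λ (x ω.1)) ∧
    Tame (gN V t A ε) (gf mv ε) k 𝒥) ∧ FrX (gN V t A ε) d k

/-- `Ψ` maps tame paths in `J` to tame paths for the finer walls. -/
def PPar (A : ν → Set ℝ) (ε : ν → ℝ) (A' : ν → Set ℝ) (ε' x x' : ν → ℝ) (Ψ : Rn 3 → Rn 3)
    (J : Set (Rn 3)) : Prop :=
  ∀ (γ : ℝ → Rn 3) (d : ℝ) (Λ : ℝ → ℝ) (D : ℝ), 0 < d → 0 ≤ D → (∀ s ∈ Icc (0 : ℝ) 1, γ s ∈ J) →
    PT V t mv A ε (fun v => D * x v) γ d Λ → PT V t mv A' ε' (fun v => D * x' v) (Ψ ∘ γ) d Λ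

/-- The image under `Ψ` of a tame parametrisation of `J` extends tamely over `Ψ '' F`. -/
def FPar (A : ν → Set ℝ) (ε : ν → ℝ) (A' : ν → Set ℝ) (ε' x x' : ν → ℝ) (Ψ : Rn 3 → Rn 3)
    (F J : Set (Rn 3)) : Prop :=
  ∀ (β : Rn 2 → Rn 3) (d : ℝ) (Λ : ℝ → ℝ) (D : ℝ), 0 < d → 0 ≤ D → TP β → BijOn β bTri J →
    (∀ p ∈ bTri, p 0 = 0 ∨ p 1 = 1 → ∀ ω, β p ∉ gN V t A ε ω) →
    PT V t mv A ε (fun v => D * x v) (fun s => β ![s, s]) d Λ →
    ∃ k, TP k ∧ BijOn k Tri (Ψ '' F) ∧ EqOn k (Ψ ∘ β) bTri ∧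
      FT V t mv A' ε' (fun v => D * x' v) k d Λ

/-- At each point at most one class is far from the ends. -/
def One (r : ℝ) (S : Set (Rn 3)) : Prop :=
  ∀ z ∈ S, ∀ v w, v ≠ w → dev (t v z) ≤ r ∨ dev (t w z) ≤ r

/-- Invariance in the double zones. -/
def DZ (A : ν → Set ℝ) (ζ : ν → ℝ) (S : Set (Rn 3)) : Prop :=
  ∀ z ∈ S, ∀ j k, j ≠ k → ∀ a ∈ A j, ∀ a' ∈ A k, |t j z - a| ≤ ζ j → |t k z - a'| ≤ ζ k →
    ∀ s, |s - a| ≤ ζ j → mv j z s ∈ S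

/-- The edge of the class `v` with pattern `σ` is a straight segment in the direction `u`. -/
def Lin (σ : Set ν) (v : ν) (u : Rn 3) : Prop :=
  ∀ z ∈ V, ∀ z' ∈ V, (∀ w, w ≠ v → t w z = t w z') →
    (∀ w, w ≠ v → (w ∈ σ → t v z ≤ t w z ∧ t v z' ≤ t w z) ∧
      (w ∉ σ → t w z ≤ t v z ∧ t w z ≤ t v z')) → z' - z = (t v z' - t v z) • u

/-- Off the zones of the classes other than `j`, with pattern `σ`. -/
def cRg (A : ν → Set ℝ) (ζ μ : ν → ℝ) (σ : Set ν) (j : ν) : Set (Rn 3) :=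
  {y | y ∈ V ∧ ∀ w, w ≠ j → (∀ a ∈ A w, ζ w / 2 ≤ |t w y - a|) ∧ (w ∈ σ ↔ μ w < t w y)}

/-- Result of the move in the box `O` with inner box `O'`. -/
structure QOut {μ : Type} (A : ν → Set ℝ) (ε : ν → ℝ) (O O' : Set (Rn 3)) (F J : μ → Set (Rn 3))
    (Φ : Rn 3 → Rn 3) : Prop where
  iF : ∀ c ω, Iw (gN V t A ε ω ∩ O) (gf mv ε ω) (Φ '' F c)
  iJ : ∀ c ω, Iw (gN V t A ε ω ∩ O) (gf mv ε ω) (Φ '' J c)
  two : ∀ c, ∀ x ∈ Φ '' J c, x ∈ O → ∀ ω ω', x ∈ gN V t A ε ω → x ∈ gN V t A ε ω' → ω.1 = ω'.1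
  trk : Trk (fun ω => gN V t A ε ω ∩ O) (gf mv ε) Φ (⋃ c, J c)
  trk1 : ∀ c, Disjoint (F c) O' → Trk1 (fun ω => gN V t A ε ω ∩ O) (gf mv ε) Φ (F c)
  par : ∀ c, F c ⊆ O → Par (fun ω => gN V t A ε ω ∩ O) (gf mv ε) (Φ '' F c) (Φ '' J c)

variable {ι : Type} (g : ℝ) (P : ι → Pc)

/-- Input of the exchange. -/
structure XIn {μ : Type} (dim : ν → ℕ) (A : ν → Set ℝ) (e : ν → ℝ) (a r : ν → ℕ)
    (F J : μ → Set (Rn 3)) : Prop where
  lev : XLev g A fun v => 2 * e v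
  lfm : LFm V F J
  sma : ∀ c, Sma t (g / 16) (F c)
  gh : GH V t mv A (fun v => 2 * e v) F J
  flat : ∀ c, F c ⊆ BP P ∨ Disjoint (F c \ J c) (BP P)
  exp : ∀ y ∈ V, ∀ j k, 0 < t j y → 0 < t k y → dim j < dim k → a j ≤ a k ∧ a k ≤ a j + r j

/-- Result of the moves in all boxes. -/
structure S12 {μ : Type} (A : ν → Set ℝ) (e : ν → ℝ) (a r : ν → ℕ) (F J : μ → Set (Rn 3))
    (Ψ : Rn 3 → Rn 3) : Prop where
  gm : GM V Ψ
  nb : ∀ y ∈ V, Nb t y (Ψ y)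
  fix : ∀ y ∈ BP P, Ψ y = y
  gh : GH V t mv (cA A e r) (cE e (g / 4) r r) (fun c => Ψ '' F c) (fun c => Ψ '' J c)
  path : ∀ c, PPar V t mv A e (cA A e r) (cE e (g / 4) r r) (fun v => 1 / 2 ^ a v)
    (fun v => (1 - g / 4) ^ 2 / 2 ^ (a v + r v)) Ψ (J c)
  face : ∀ c, (¬ One t (g / 4) (F c) ∧ FPar V t mv A e (cA A e r) (cE e (g / 4) r r)
      (fun v => 1 / 2 ^ a v) (fun v => (1 - g / 4) ^ 2 / 2 ^ (a v + r v)) Ψ (F c) (J c)) ∨
    (One t (g / 2) (F c) ∧ (∃ z ∈ F c, Ψ z = z) ∧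
      Trk1 (gN V t (cA A e r) (cE e (g / 4) r r)) (gf mv (cE e (g / 4) r r)) Ψ (F c))

/-- Result of the exchange. -/
structure XOut {μ : Type} (A : ν → Set ℝ) (e : ν → ℝ) (a r : ν → ℕ) (F J : μ → Set (Rn 3))
    (Ψ : Rn 3 → Rn 3) : Prop where
  gm : GM V Ψ
  chn : ∀ y ∈ V, Chn V t 5 y (Ψ y)
  fix : ∀ y ∈ B0 P, Ψ y = y
  gh : GH V t mv (cA A e r) (cE e (g / 4) r r) (fun c => Ψ '' F c) (fun c => Ψ '' J c)
  path : ∀ c, PPar V t mv A e (cA A e r) (cE e (g / 4) r r) (fun v => 1 / 2 ^ a v)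
    (fun v => (1 - g / 4) ^ 2 / 2 ^ (a v + r v)) Ψ (J c)
  face : ∀ c, FPar V t mv A e (cA A e r) (cE e (g / 4) r r) (fun v => 1 / 2 ^ a v)
    (fun v => (1 - g / 4) ^ 2 / 2 ^ (a v + r v)) Ψ (F c) (J c)
  line : ∀ c, One t (g / 4) (F c) → ∀ z ∈ F c, ∀ ω,
    Ψ z ∈ gN V t (cA A e r) (cE e (g / 4) r r) ω → z ∈ gN V t (cA A e r) (cE e (g / 4) r r) ω ∧
      ∃ σ, F c ⊆ Rg1 V t (cA A e r) (cE e (g / 4) r r) σ {ω.1} ∧
        Ψ '' F c ⊆ Rg1 V t (cA A e r) (cE e (g / 4) r r) σ {ω.1}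

/-- The map `Φ` puts the sets `S i` in handle position for the levels `A`. -/
structure HOk {μ : Type} (a : ν → ℕ) (Bad : ν → Set ℝ) (S : μ → Set (Rn 3)) (A : ν → Set ℝ)
    (e : ν → ℝ) (Φ : Rn 3 → Rn 3) : Prop where
  lev : XLev g A fun v => 2 * e v
  card : ∀ v, (A v).ncard = 2 ^ a v
  gap : ∀ v, ∀ x ∈ A v, ∀ x' ∈ A v, x < x' → (1 - 5 * g / 2) / 2 ^ a v ≤ x' - x
  bad : ∀ v, Disjoint (A v) (Bad v)
  gm : GM V Φ
  iw : ∀ i ω, Iw (gN V t A (fun v => 2 * e v) ω) (gf mv (fun v => 2 * e v) ω) (Φ '' S i)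
  sm : ∀ y ∈ V, ∀ v, |t v (Φ y) - t v y| ≤ g / 64
  keep : ∀ y ∈ V, ∀ v, t v (Φ y) ∈ A v → t v y = t v (Φ y)
  bp : ∀ y ∈ V, y ∈ BP P ∨ Φ y ∈ BP P → XEq t y (Φ y)

/-- The crushing map `Θ`. -/
structure Cr (A : ν → Set ℝ) (ε η : ν → ℝ) (φ : ν → ℝ → ℝ) (Θ : Rn 3 → Rn 3) : Prop where
  gm : GM V Θ
  eq : ∀ y ∈ V, ∀ v, t v (Θ y) = φ v (t v y)
  mono : ∀ v, StrictMono (φ v) ∧ φ v 0 = 0 ∧ φ v 1 = 1
  lo : ∀ v s, (∀ a ∈ A v, s < a - ε v) → φ v s ≤ η v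
  hi : ∀ v s, (∀ a ∈ A v, a + ε v < s) → 1 - η v ≤ φ v s
  mid : ∀ v, ∀ a ∈ A v, ∀ s, |s - a| ≤ ε v → η v ≤ φ v s ∧ φ v s ≤ 1 - η v
  lip : ∀ v (S : Finset ℝ), (S : Set ℝ) = A v → ∀ s s', |φ v s - φ v s'| ≤
    ∑ a ∈ S, 1 / (2 * S.card) * |clamp ((s - a) / ε v) 1 - clamp ((s' - a) / ε v) 1| +
      η v / g * |s - s'|

end

/-- Locally finite family of polyhedra of dimension at most two. -/
structure SFm {μ : Type} (V : Set (Rn 3)) (S : μ → Set (Rn 3)) : Prop where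
  poly : ∀ i, Poly (S i) ∧ PC 2 (S i)
  sub : ∀ i, S i ⊆ V
  lf : ∀ C, IsCompact C → C ⊆ V → {i | (S i ∩ C).Nonempty}.Finite

def clq (g s : ℝ) : ℝ := max (g / 2) (min s (1 - g / 2))

/-- Increasing PL homeomorphism of the unit interval. -/
def Rp (ρ : ℝ → ℝ) : Prop :=
  TP ρ ∧ StrictMonoOn ρ (Icc 0 1) ∧ ρ '' Icc 0 1 = Icc 0 1 ∧ ρ 0 = 0 ∧ ρ 1 = 1

/-- Not inside a solid. -/
def Ofs {ι : Type} (P : ι → Pc) (σ : Set (Rn 3)) : Prop := ∀ b, ¬ σ ⊆ (P b).In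

section
variable {Ω : Set (Rn 3)} (K : Kx Ω) {ι : Type} (P : ι → Pc)

/-- The faces, and the cells of dimension at most two, off the solids. -/
def cF : Type := {F : Set (Rn 3) // F ∈ K.cel 2 ∧ Ofs P F}
def cS : Type := {σ : Set (Rn 3) // σ ∈ K.cells ∧ dm σ ≤ 2 ∧ Ofs P σ}

/-- `R` fixes the vertices and reparametrises the edges. -/
structure ERp (R : Rn 3 → Rn 3) : Prop where
  vx : ∀ x ∈ Ω, K.cell x = {x} → R x = x
  ed : ∀ x y, K.Edge x y → (∃ u, TP u ∧ EqOn R u (segment ℝ x y)) ∧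
    BijOn R (segment ℝ x y) (segment ℝ x y)

end

section
variable {ν ι : Type} {Ω : Set (Rn 3)} (V : Set (Rn 3)) (g C : ℝ) (P : ι → Pc) (T : TS)
  (t : ν → Rn 3 → ℝ) (mv : ν → Rn 3 → ℝ → Rn 3) (dim : ν → ℕ) (K : Kx Ω) (G : Rn 3 → Rn 3)

/-- All standing hypotheses. -/
structure XCtx (Cf : (Rn 3 ≃L[ℝ] Rn 3) → ℝ) (c : Rn 3 → ℝ) (b : ν → Rn 3) (θ : Rn 3 → ℝ)
    (ch : Set (Rn 3) → Ch) (r R τ : Set (Rn 3) → ℝ) : Prop where
  api : Api V g C Cf P T c t mv dim b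
  pc : PcIn V θ Cf P
  cf : ∀ A, 1 ≤ Cf A
  hin : HIn V T g Cf P K G ch r R τ

/-- Scale of the cells. -/
def Sca (ℓ : Set (Rn 3) → ℝ) : Prop :=
  (∀ σ, 0 < ℓ σ) ∧ ∀ σ ∈ K.cells, dm σ ≤ 2 → Ofs P σ → ∀ x ∈ closure σ,
    ℓ σ ≤ C * T.l (G x) ∧ T.l (G x) ≤ C * ℓ σ

/-- Upper bound for the speeds `Λ` on the edges. -/
def LUp (τ' Λ : Set (Rn 3) → ℝ) : Prop :=
  (∀ σ, 0 ≤ Λ σ) ∧ ∀ x y, K.Edge x y → Ofs P (openSegment ℝ x y) → ∃ S : Finset ν, S.card ≤ 2 ∧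
    (∀ v ∈ S, ∃ s ∈ Icc (0 : ℝ) 1, g < dev (t v (G (seg x y s)))) ∧
    ENNReal.ofReal (Λ (openSegment ℝ x y)) ≤
      ENNReal.ofReal (2 / ((1 - g / 2) * (1 - 5 * g / 2))) *
        ∑ v ∈ S, eVariationOn (fun s => clq g (t v (G (seg x y s)))) (Icc 0 1) +
      ENNReal.ofReal (τ' (openSegment ℝ x y))

/-- State before the exchange. -/
structure Pre3 (τ' : Set (Rn 3) → ℝ) (a r : ν → ℕ) (A : ν → Set ℝ) (e : ν → ℝ)
    (Φ R : Rn 3 → Rn 3) (Λ : Set (Rn 3) → ℝ) : Prop where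
  xin : XIn V t mv g P dim A e a r (fun F : cF K P => Φ '' (G '' closure F.1))
    (fun F : cF K P => Φ '' (G '' (closure F.1 \ F.1)))
  card : ∀ v, (A v).ncard = 2 ^ a v
  gm : GM V Φ
  sm : ∀ y ∈ V, ∀ v, |t v (Φ y) - t v y| ≤ g / 64
  bp : ∀ y ∈ V, y ∈ BP P ∨ Φ y ∈ BP P → XEq t y (Φ y)
  erp : ERp K R
  pt : ∀ x y, K.Edge x y → Ofs P (openSegment ℝ x y) → PT V t mv A e (fun v => 1 / 2 ^ a v)
    (fun s => Φ (G (R (seg x y s)))) (g / 4) fun _ => Λ (openSegment ℝ x y)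
  up : LUp g P t K G τ' Λ

/-- State before crushing. -/
structure Mid (p C0 : ℝ) (ch : Set (Rn 3) → Ch) (r R τ ℓ Λ sp : Set (Rn 3) → ℝ) (A : ν → Set ℝ)
    (ε : ν → ℝ) (Γ : Rn 3 → Rn 3) : Prop where
  lev : XLev g A ε
  ltp : LTP Ω Γ
  inj : InjOn Γ Ω
  sub : Γ '' Ω ⊆ V
  chn : ∀ σ ∈ K.cells, dm σ ≤ 2 → Ofs P σ → ∀ x ∈ closure σ, ∀ x' ∈ closure σ,
    Chn V t 7 (G x) (Γ x')
  bar : ∀ b, 2 ≤ (P b).I.card → Γ '' (P b).Bd = (P b).aff '' (P b).Bd ∧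
    ∀ x ∈ (P b).Bd, ∀ x' ∈ (P b).Bd, Γ x = (P b).aff x' → (P b).Lat x x'
  lf : ∀ Z, IsCompact Z → Z ⊆ V →
    {σ | σ ∈ K.cells ∧ dm σ ≤ 2 ∧ Ofs P σ ∧ (Γ '' closure σ ∩ Z).Nonempty}.Finite
  pt : ∀ x y, K.Edge x y → Ofs P (openSegment ℝ x y) →
    PT V t mv A ε (fun v => (1 - g / 4) ^ 2 / (A v).ncard) (fun s => Γ (seg x y s)) (g / 4)
      (fun _ => Λ (openSegment ℝ x y)) ∧ ∀ s ∈ Icc (0 : ℝ) 1, ∀ ω ω',
        Γ (seg x y s) ∈ gN V t A ε ω → Γ (seg x y s) ∈ gN V t A ε ω' → ω = ω'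
  face : ∀ F ∈ K.cel 2, Ofs P F → ∃ (χ : Rn 2 → Rn 2) (η : ℝ), TP χ ∧
    MapsTo χ Tri (closure (ch F).U) ∧ 0 < η ∧ ∀ H : Rn 3 → Rn 3,
      Crush (gN V t A ε) (gf mv ε) (fun ω => 20 * C ^ 11 * ℓ F / (A ω.1).ncard) Tri
        (fun q => Γ ((ch F).φ (χ q))) (fun q => H ((ch F).φ (χ q))) η →
      FaceBd K (ch F) sp p (C0 * (R F / r F) ^ 6) (R F) (τ F) H ∧
        LipBd K (ch F) sp (C0 * (R F / r F) ^ 6) (τ F) H
  line : ∀ i j, (P i).I = {j} → ∀ x y, K.Edge x y → segment ℝ x y ⊆ (P i).Q (P i).ρ →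
    ∀ s ∈ Icc (0 : ℝ) 1, ∀ ω, Γ (seg x y s) ∈ gN V t A ε ω → g / 2 ≤ dev (t ω.1 (G x)) ∧
      Γ (seg x y s) ∈ Rg1 V t A ε {w | 1 / 2 < t w (G x)} {ω.1}

end

end BEp
end
end

-- merged part: Pool.Agent.Work.MP_f0515e_an.P3.XCnt2
section
/-! Bookkeeping of tame paths and the choice of the exponents. -/

open Set Metric Filter Topology Function BEv
open scoped NNReal

noncomputable section
namespace BEp

variable {n m : ℕ}

variable {ν ι : Type} {V : Set (Rn 3)} {g C : ℝ} {Cf : (Rn 3 ≃L[ℝ] Rn 3) → ℝ} {P : ι → Pc} {T : TS}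
  {c : Rn 3 → ℝ} {t : ν → Rn 3 → ℝ} {mv : ν → Rn 3 → ℝ → Rn 3} {dim : ν → ℕ} {b : ν → Rn 3}

theorem XCnt2_exps (Nf : ν → Finset ν) (a₀ dim : ν → ℕ) : ∃ a r : ν → ℕ, (∀ v, a₀ v ≤ a v) ∧
    ∀ j k, j ∈ Nf k → k ∈ Nf j → dim j < dim k → a j ≤ a k ∧ a k ≤ a j + r j := by
  set F : (ν → ℕ) → ν → ℕ := fun p v => max (p v) ((Nf v).sup p) with hF
  have e : ∀ i v, F^[i + 1] a₀ v = max (F^[i] a₀ v) ((Nf v).sup (F^[i] a₀)) := fun i v => by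
    rw [Function.iterate_succ_apply']
  have mo : ∀ v, Monotone fun i => F^[i] a₀ v := fun v =>
    monotone_nat_of_le_succ fun i => by rw [e]; exact le_max_left _ _
  refine ⟨fun v => F^[dim v] a₀ v, fun j => (Nf j).sup fun v => F^[dim v] a₀ v,
    fun v => mo v (Nat.zero_le _), fun j k h1 h2 h3 => ⟨?_, ?_⟩⟩
  · refine le_trans ?_ (mo k (Nat.succ_le_of_lt h3))
    show _ ≤ F^[dim j + 1] a₀ k
    rw [e]
    exact (Finset.le_sup (f := F^[dim j] a₀) h1).trans (le_max_right _ _)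
  · exact (Finset.le_sup (f := fun v => F^[dim v] a₀ v) h2).trans (Nat.le_add_left _ _)

theorem Api.exps (h : Api V g C Cf P T c t mv dim b) (a₀ : ν → ℕ) : ∃ a r : ν → ℕ,
    (∀ v, a₀ v ≤ a v) ∧ ∀ y ∈ V, ∀ j k, 0 < t j y → 0 < t k y → dim j < dim k →
      a j ≤ a k ∧ a k ≤ a j + r j := by
  have f : ∀ j, {k | ∃ y ∈ V, 0 < t j y ∧ 0 < t k y}.Finite := fun j => by
    obtain ⟨K, h1, h2, h3⟩ := h.lf2 j
    exact (h.lf1 K h1 h2).subset fun k ⟨y, hy, e, e'⟩ => ⟨y, h3 y hy e, e'⟩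
  obtain ⟨a, r, h1, h2⟩ := XCnt2_exps (fun j => (f j).toFinset) a₀ dim
  exact ⟨a, r, h1, fun y hy j k hj hk e => h2 j k ((f k).mem_toFinset.2 ⟨y, hy, hk, hj⟩)
    ((f j).mem_toFinset.2 ⟨y, hy, hj, hk⟩) e⟩

section
variable {κ : Type} {N : κ → Set (Rn 3)} {f : κ → Rn 3 → ℝ → Rn 3} {γ γ' : ℝ → Rn 3} {d : ℝ}

theorem Jv.mono {Λ Λ' : ℝ → ℝ} {x x' D : ℝ} (hD : 0 ≤ D) (h1 : x' ≤ D * x)
    (h2 : ∀ s, D * Λ s ≤ Λ' s) : Jv d Λ x ⊆ Jv d Λ' x' := by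
  rintro j ⟨j1, j2, j3, j4⟩
  refine ⟨j1, j2, j3, fun s hs => h1.trans ?_⟩
  calc D * x ≤ D * (Λ s * j.2) := mul_le_mul_of_nonneg_left (j4 s hs) hD
    _ = D * Λ s * j.2 := by ring
    _ ≤ Λ' s * j.2 := mul_le_mul_of_nonneg_right (h2 s) j1.le

theorem TameC.mono {𝒥 𝒥' : κ → Set (ℝ × ℝ)} (h : TameC N f γ 𝒥) (k : ∀ w, 𝒥 w ⊆ 𝒥' w) :
    TameC N f γ 𝒥' := by
  intro s hs w hw
  obtain ⟨j, hj, e⟩ := h s hs w hw
  exact ⟨j, k w hj, e⟩

theorem TameC.congr {Λ : ℝ → ℝ} {x : κ → ℝ} (h : TameC N f γ fun w => Jv d Λ (x w)) (hd : 0 ≤ d)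
    (e : EqOn γ γ' (Icc 0 1)) : TameC N f γ' fun w => Jv d Λ (x w) := by
  intro s hs w hw
  rw [← e hs] at hw ⊢
  obtain ⟨j, hj, σ, h1, h2, h3⟩ := h s hs w hw
  refine ⟨j, hj, σ, h1, h2, fun u hu => ?_⟩
  obtain ⟨j1, j2, j3, -⟩ := hj
  rw [← h3 u hu]
  refine (e ⟨?_, ?_⟩).symm
  · nlinarith [mul_le_mul_of_nonneg_left hu.1 j1.le]
  · nlinarith [mul_le_mul_of_nonneg_left hu.2 j1.le]

theorem TameC.rev {Λ : ℝ} {x : κ → ℝ} (h : TameC N f γ fun w => Jv d (fun _ => Λ) (x w)) :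
    TameC N f (fun s => γ (1 - s)) fun w => Jv d (fun _ => Λ) (x w) := by
  intro s hs w hw
  obtain ⟨j, ⟨j1, j2, j3, j4⟩, σ, h1, h2, h3⟩ :=
    h (1 - s) ⟨by linarith [hs.2], by linarith [hs.1]⟩ w hw
  refine ⟨(1 - j.1, j.2), ⟨j1, by dsimp only; linarith, by dsimp only; linarith,
    fun _ _ => j4 j.1 (by rw [sub_self, abs_zero]; exact j1.le)⟩, -σ, ?_, ?_, fun u hu => ?_⟩
  · rcases h1 with e | e
    · exact Or.inr (by rw [e])
    · exact Or.inl (by rw [e, neg_neg])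
  · rw [abs_sub_comm, show (1 - j.1, j.2).1 - s = 1 - s - j.1 by ring]
    exact h2
  · have k := h3 (-u) ⟨by linarith [hu.2], by linarith [hu.1]⟩
    rw [show σ * -u = -σ * u by ring] at k
    rw [← k]
    show γ _ = γ _
    congr 1
    ring

end

end BEp
end
end

-- merged part: Pool.Agent.Work.MP_f0515e_an.P3.XCnt1
section
/-! Counting crossings, variation from right increments, placing intervals. -/

open Set Metric Filter Topology Function BEv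
open scoped NNReal

noncomputable section
namespace BEp

/-- Between two points with the same value, which is not exceptional, there is a break point. -/
theorem XCnt1_brk {h : ℝ → ℝ} (hh : TP h) : ∃ (X : Finset ℝ) (B : Set ℝ), B.Finite ∧
    (∀ y, y ∉ B → {s ∈ Icc (0 : ℝ) 1 | h s = y}.Finite) ∧
    ∀ a u, 0 ≤ a → a < u → u ≤ 1 → h a = h u → h a ∉ B → ∃ x ∈ X, a ≤ x ∧ x < u := by
  obtain ⟨T, hT, h1⟩ := hh.pa 1
  have h2 (M : ℝ →L[ℝ] ℝ) (x : ℝ) : M x = x * M 1 := by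
    rw [← smul_eq_mul, ← map_smul, smul_eq_mul, mul_one]
  have h3 (x : ℝ) (hx : x ∈ Icc (0 : ℝ) 1) : ∃ A ∈ T, h x = x * A.1 1 + A.2 := by
    obtain ⟨A, hA, e⟩ := h1 x (mem_closedBall_zero_iff.2 (abs_le.2 ⟨by linarith [hx.1], hx.2⟩))
    exact ⟨A, hA, by rw [e, h2]⟩
  refine ⟨(hT.image2 (fun p q => (q.2 - p.2) / (p.1 1 - q.1 1)) hT).toFinset, Prod.snd '' T,
    hT.image _, fun y hy => (hT.image fun p => (y - p.2) / p.1 1).subset fun s hs => ?_,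
    fun a u ha hau hu e hB => ?_⟩
  · obtain ⟨A, hA, e⟩ := h3 s hs.1
    have k : A.1 1 ≠ 0 := fun k => hy ⟨A, hA, by rw [← hs.2, e, k, mul_zero, zero_add]⟩
    exact ⟨A, hA, (div_eq_iff k).2 (by linarith [hs.2])⟩
  by_contra! hn
  have hI : Ioo a u ⊆ Icc 0 1 := fun x hx => ⟨ha.trans hx.1.le, hx.2.le.trans hu⟩
  obtain ⟨x₀, hx₀⟩ := nonempty_Ioo.2 hau
  obtain ⟨p, hp, e₀⟩ := h3 x₀ (hI hx₀)
  have hc (q : (ℝ →L[ℝ] ℝ) × ℝ) : IsClosed {x | h x = x * q.1 1 + q.2} :=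
    isClosed_eq hh.continuous (by fun_prop)
  have hd : Ioo a u ∩ ({x | h x = x * p.1 1 + p.2} ∩
      ⋃ q ∈ {q ∈ T | ¬ (q.1 1 = p.1 1 ∧ q.2 = p.2)}, {x | h x = x * q.1 1 + q.2}) = ∅ := by
    refine eq_empty_of_forall_notMem fun x ⟨hx, k1, k2⟩ => ?_
    obtain ⟨q, hq, k3⟩ := mem_iUnion₂.1 k2
    rw [mem_ofPred_eq] at k1 k3
    by_cases k4 : p.1 1 - q.1 1 = 0
    · have k5 : q.1 1 = p.1 1 := by linarith
      exact hq.2 ⟨k5, by rw [k5] at k3; linarith⟩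
    · refine (hn x ((Finite.mem_toFinset _).2 ⟨p, hp, q, hq.1, (div_eq_iff k4).2 ?_⟩)
        hx.1.le).not_gt hx.2
      linarith
  rcases isPreconnected_iff_subset_of_disjoint_closed.1 isPreconnected_Ioo _ _ (hc p)
    ((hT.subset fun _ k => k.1).isClosed_biUnion fun q _ => hc q) (fun x hx => by
      obtain ⟨q, hq, e⟩ := h3 x (hI hx)
      by_cases k : q.1 1 = p.1 1 ∧ q.2 = p.2
      · exact Or.inl (by rwa [k.1, k.2] at e)
      · exact Or.inr (mem_biUnion ⟨hq, k⟩ e)) hd with k | k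
  · have k1 := closure_minimal k (hc p)
    rw [closure_Ioo hau.ne] at k1
    have k2 : h a = _ := k1 (left_mem_Icc.2 hau.le)
    have k3 : h u = _ := k1 (right_mem_Icc.2 hau.le)
    have k4 : p.1 1 = 0 := mul_left_cancel₀ (sub_pos.2 hau).ne' (by linarith)
    exact hB ⟨p, hp, by rw [k2, k4, mul_zero, zero_add]⟩
  · exact (hd.subset ⟨hx₀, e₀, k hx₀⟩).elim

theorem XCnt1_add {E : Type} [PseudoEMetricSpace E] (f : ℝ → E) {a b c : ℝ} (h1 : a ≤ b)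
    (h2 : b ≤ c) : eVariationOn f (Icc a b) + eVariationOn f (Icc b c) = eVariationOn f (Icc a c) := by
  simpa only [univ_inter] using eVariationOn.Icc_add_Icc f h1 h2 (mem_univ b)

theorem cnt1 {h : ℝ → ℝ} (hh : TP h) : ∃ (k : ℕ) (B : Set ℝ), B.Finite ∧ ∀ (g d : ℝ) (S : Set ℝ),
    S.Finite → Disjoint S B → 0 < d → S ⊆ Icc (g / 2) (1 - g / 2) →
    (∀ x ∈ S, ∀ x' ∈ S, x < x' → d ≤ x' - x) → {s ∈ Icc (0 : ℝ) 1 | h s ∈ S}.Finite ∧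
      ENNReal.ofReal ({s ∈ Icc (0 : ℝ) 1 | h s ∈ S}.ncard * d) ≤
        eVariationOn (fun s => clq g (h s)) (Icc 0 1) + ENNReal.ofReal (k * d) := by
  obtain ⟨X, B, hB, h1, h2⟩ := XCnt1_brk hh
  refine ⟨X.card + 1, B, hB, fun g d S hS hd d0 hs hg => ?_⟩
  have hf : {s ∈ Icc (0 : ℝ) 1 | h s ∈ S}.Finite :=
    (hS.biUnion fun y hy => h1 y (Set.disjoint_left.1 hd hy)).subset fun s k =>
      mem_biUnion k.2 ⟨k.1, rfl⟩
  have hq (y : ℝ) (hy : y ∈ S) : clq g y = y := by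
    rw [clq, min_eq_left (hs hy).2, max_eq_right (hs hy).1]
  have key (Z : Finset ℝ) : (∀ z ∈ Z, z ∈ Icc (0 : ℝ) 1 ∧ h z ∈ S) → ∀ u ∈ Icc (0 : ℝ) 1, h u ∈ S →
      (∀ z ∈ Z, z < u) → ENNReal.ofReal (Z.card * d) ≤ eVariationOn (fun s => clq g (h s)) (Icc 0 u) +
        ENNReal.ofReal ((X.filter (· < u)).card * d) := by
    induction Z using Finset.induction_on_max with
    | empty => exact fun _ _ _ _ _ => by simp
    | insert a Z ha ih =>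
      intro k1 u hu k2 k3
      obtain ⟨a1, a2⟩ := k1 a (Finset.mem_insert_self a Z)
      have a3 := k3 a (Finset.mem_insert_self a Z)
      have a4 : X.filter (· < a) ⊆ X.filter (· < u) :=
        Finset.monotone_filter_right X fun x _ hx => hx.trans a3
      rw [Finset.card_insert_of_notMem fun k => (ha a k).false, Nat.cast_succ, add_one_mul,
        ENNReal.ofReal_add (by positivity) d0.le, ← XCnt1_add _ a1.1 a3.le]
      refine (add_le_add (ih (fun z hz => k1 z (Finset.mem_insert_of_mem hz)) a a1 a2 ha)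
        le_rfl).trans ?_
      rw [add_assoc, add_assoc]
      refine add_le_add le_rfl ?_
      by_cases e : h a = h u
      · obtain ⟨x, x1, x2, x3⟩ := h2 a u a1.1 a3 hu.2 e (Set.disjoint_left.1 hd a2)
        have a5 : (X.filter (· < a)).card + 1 ≤ (X.filter (· < u)).card :=
          Finset.card_lt_card ⟨a4, fun k =>
            (Finset.mem_filter.1 (k (Finset.mem_filter.2 ⟨x1, x3⟩))).2.not_ge x2⟩
        rw [← ENNReal.ofReal_add (by positivity) d0.le, ← add_one_mul]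
        refine le_add_left (ENNReal.ofReal_le_ofReal (mul_le_mul_of_nonneg_right ?_ d0.le))
        exact_mod_cast a5
      · rw [add_comm]
        refine add_le_add (le_trans ?_ (eVariationOn.edist_le _ (left_mem_Icc.2 a3.le)
          (right_mem_Icc.2 a3.le))) (ENNReal.ofReal_le_ofReal (mul_le_mul_of_nonneg_right
            (Nat.cast_le.2 (Finset.card_le_card a4)) d0.le))
        rw [hq _ a2, hq _ k2, edist_dist, Real.dist_eq]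
        refine ENNReal.ofReal_le_ofReal ?_
        rcases lt_or_gt_of_ne e with k | k
        · exact (hg _ a2 _ k2 k).trans ((le_abs_self _).trans_eq (abs_sub_comm _ _))
        · exact (hg _ k2 _ a2 k).trans (le_abs_self _)
  refine ⟨hf, ?_⟩
  rw [ncard_eq_toFinset_card _ hf]
  rcases hf.toFinset.eq_empty_or_nonempty with e | e
  · rw [e, Finset.card_empty, Nat.cast_zero, zero_mul, ENNReal.ofReal_zero]
    exact zero_le
  obtain ⟨u, hu, hm⟩ := hf.toFinset.exists_max_image id e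
  have hu' := hf.mem_toFinset.1 hu
  rw [← Finset.card_erase_add_one hu, Nat.cast_succ, Nat.cast_succ, add_one_mul, add_one_mul,
    ENNReal.ofReal_add (by positivity) d0.le, ENNReal.ofReal_add (by positivity) d0.le,
    ← add_assoc]
  refine add_le_add ((key _ (fun z hz => hf.mem_toFinset.1 (Finset.mem_of_mem_erase hz)) u hu'.1
    hu'.2 fun z hz => lt_of_le_of_ne (hm z (Finset.mem_of_mem_erase hz))
      (Finset.ne_of_mem_erase hz)).trans (add_le_add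
        (eVariationOn.mono _ (Icc_subset_Icc_right hu'.1.2)) (ENNReal.ofReal_le_ofReal
          (mul_le_mul_of_nonneg_right (Nat.cast_le.2 (Finset.card_filter_le _ _)) d0.le)))) le_rfl

theorem var_right {h : ℝ → ℝ} (hh : ContinuousOn h (Icc 0 1)) {e : ℝ → Rn 3} {A B : ℝ} (hA : 0 ≤ A)
    (hB : 0 ≤ B) (k : ∀ x ∈ Ico (0 : ℝ) 1, ∀ᶠ s in 𝓝[>] x, |h s - h x| ≤ A * (s - x) + B * ‖e s - e x‖) :
    eVariationOn h (Icc 0 1) ≤ ENNReal.ofReal A + ENNReal.ofReal B * eVariationOn e (Icc 0 1) := by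
  let φ : ℝ → ℝ → ENNReal := fun a b =>
    ENNReal.ofReal (A * (b - a)) + ENNReal.ofReal B * eVariationOn e (Icc a b)
  have h1 {a b c : ℝ} (k1 : a ≤ b) (k2 : b ≤ c) : φ a b + φ b c = φ a c := by
    simp only [φ]
    rw [← XCnt1_add e k1 k2, show A * (c - a) = A * (b - a) + A * (c - b) by ring,
      ENNReal.ofReal_add (mul_nonneg hA (sub_nonneg.2 k1)) (mul_nonneg hA (sub_nonneg.2 k2))]
    ring
  have h2 {u w : ℝ} (hu : 0 ≤ u) (huw : u ≤ w) (hw : w ≤ 1) : edist (h w) (h u) ≤ φ u w := by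
    let T := {x ∈ Icc u w | edist (h x) (h u) ≤ φ u x}
    have t1 : u ∈ T := ⟨left_mem_Icc.2 huw, by simp⟩
    have t2 : BddAbove T := ⟨w, fun x hx => hx.1.2⟩
    have t3 : u ≤ sSup T := le_csSup t2 t1
    have t4 : sSup T ≤ w := csSup_le ⟨u, t1⟩ fun x hx => hx.1.2
    have t5 : edist (h (sSup T)) (h u) ≤ φ u (sSup T) := by
      have c : IsClosed (Icc (0 : ℝ) 1 ∩ h ⁻¹' {y | edist y (h u) ≤ φ u (sSup T)}) :=
        hh.preimage_isClosed_of_isClosed isClosed_Icc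
          (isClosed_le (continuous_id.edist continuous_const) continuous_const)
      refine (closure_minimal (fun x hx => ?_) c (csSup_mem_closure ⟨u, t1⟩ t2)).2
      refine ⟨⟨hu.trans hx.1.1, hx.1.2.trans hw⟩, hx.2.trans ?_⟩
      rw [← h1 hx.1.1 (le_csSup t2 hx)]
      exact le_self_add
    rcases t4.eq_or_lt with t6 | t6
    · rwa [t6] at t5
    obtain ⟨s, s1, s2⟩ := ((k _ ⟨hu.trans t3, t6.trans_le hw⟩).and (Ioc_mem_nhdsGT t6)).exists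
    refine absurd (le_csSup t2 ⟨⟨t3.trans s2.1.le, s2.2⟩, ?_⟩) s2.1.not_ge
    rw [← h1 t3 s2.1.le, add_comm]
    refine (edist_triangle _ (h (sSup T)) _).trans (add_le_add ?_ t5)
    rw [edist_dist, Real.dist_eq]
    refine (ENNReal.ofReal_le_ofReal s1).trans (ENNReal.ofReal_add_le.trans (add_le_add le_rfl ?_))
    rw [ENNReal.ofReal_mul hB, ← dist_eq_norm, ← edist_dist]
    exact mul_le_mul' le_rfl (eVariationOn.edist_le _ (right_mem_Icc.2 s2.1.le)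
      (left_mem_Icc.2 s2.1.le))
  refine iSup_le fun ⟨n, u, hu, hm⟩ => ?_
  have h3 (n : ℕ) : ∑ i ∈ Finset.range n, edist (h (u (i + 1))) (h (u i)) ≤ φ 0 (u n) := by
    induction n with
    | zero => simp
    | succ n ih =>
      rw [Finset.sum_range_succ, ← h1 (hm n).1 (hu n.le_succ)]
      exact add_le_add ih (h2 (hm n).1 (hu n.le_succ) (hm _).2)
  refine (h3 n).trans (le_self_add.trans_eq ((h1 (hm n).1 (hm n).2).trans ?_))
  simp only [φ, sub_zero, mul_one]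

theorem place (Z : Finset ℝ) {w : ℝ → ℝ} (hw : ∀ s ∈ Z, 0 < w s) {d Λ : ℝ} (hd : 0 < d)
    (hΛ : 0 ≤ Λ) (h : 2 * ∑ s ∈ Z, w s < Λ * (1 - 2 * d)) : ∃ j : ℝ → ℝ × ℝ,
      (∀ s ∈ Z, j s ∈ Jv d (fun _ => Λ) (w s)) ∧
      ∀ s ∈ Z, ∀ s' ∈ Z, s < s' → (j s).1 + (j s).2 < (j s').1 - (j s').2 := by
  rcases Z.eq_empty_or_nonempty with rfl | hZ
  · exact ⟨fun _ => 0, by simp, by simp⟩
  have h1 : 0 < ∑ s ∈ Z, w s := Finset.sum_pos hw hZ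
  have h2 : 0 < Λ := hΛ.lt_of_ne' fun e => by
    rw [e, zero_mul] at h
    linarith
  obtain ⟨c, c1, c2⟩ : ∃ c : ℝ, 1 / Λ < c ∧ 2 * c * ∑ s ∈ Z, w s = 1 - 2 * d :=
    ⟨(1 - 2 * d) / (2 * ∑ s ∈ Z, w s), by
      rw [div_lt_div_iff₀ h2 (by positivity)]
      linarith, by field_simp⟩
  have c0 : 0 < c := (one_div_pos.2 h2).trans c1
  have h3 (s : ℝ) (hs : s ∈ Z) : 1 / Λ * w s < c * w s := mul_lt_mul_of_pos_right c1 (hw s hs)
  have h4 (s : ℝ) (T : Finset ℝ) (k : insert s (Z.filter (· < s)) ⊆ T) (k' : T ⊆ Z) :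
      c * ∑ x ∈ Z.filter (· < s), w x + c * w s ≤ c * ∑ x ∈ T, w x := by
    rw [← mul_add, add_comm,
      ← Finset.sum_insert (s := Z.filter (· < s)) fun e => lt_irrefl s (Finset.mem_filter.1 e).2]
    exact mul_le_mul_of_nonneg_left
      (Finset.sum_le_sum_of_subset_of_nonneg k fun x hx _ => (hw x (k' hx)).le) c0.le
  refine ⟨fun s => (d + 2 * (c * ∑ x ∈ Z.filter (· < s), w x) + c * w s, 1 / Λ * w s),
    fun s hs => ⟨mul_pos (one_div_pos.2 h2) (hw s hs), ?_, ?_, fun _ _ => le_of_eq ?_⟩,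
    fun s hs s' hs' e => ?_⟩
  · have := mul_nonneg c0.le (Finset.sum_nonneg (s := Z.filter (· < s)) fun x hx =>
      (hw x (Finset.mem_filter.1 hx).1).le)
    dsimp only
    linarith [h3 s hs]
  · have := h4 s Z (Finset.insert_subset hs (Finset.filter_subset _ _)) subset_rfl
    dsimp only
    linarith [h3 s hs]
  · field_simp
  · have := h4 s (Z.filter (· < s')) (Finset.insert_subset (Finset.mem_filter.2 ⟨hs, e⟩)
      (Finset.monotone_filter_right Z fun x _ hx => hx.trans e)) (Finset.filter_subset _ _)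
    dsimp only
    linarith [h3 s hs, h3 s' hs']

end BEp
end
end
end

-- merged part: Pool.Agent.Work.MP_f0515e_an.D3.EH1
section
-- merged part: Pool.Agent.Work.MP_f0515e_an.D3.EH0
section
/-! Generic vertical lines (`ht1`). One finite arrangement `L` is adapted to all `P`. A face whose direction
space does not project onto the plane of the first two coordinates projects into a line. Off these finitely
many lines the face of a point has directions `![1, 0, l₀]`, `![0, 1, l₁]`; inside some `P` its dimension is at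
most two, so it contains one point of the vertical line only. -/

open Set Metric Filter Topology Function BEv
open scoped NNReal

noncomputable section
namespace BEp

variable {n m : ℕ}

/-- The vertical line through `(a, b)` is generic for the family `𝒬`. -/
def Ray (𝒬 : Set (Set (Rn 3))) (a b : ℝ) : Prop :=
  {z : ℝ | ∃ P ∈ 𝒬, ![a, b, z] ∈ P}.Finite ∧ ∀ z : ℝ, ∃ l₀ l₁ ρ : ℝ, 0 < ρ ∧ ∀ P ∈ 𝒬,
    Iv P (ball ![a, b, z] ρ) ![1, 0, l₀] ∧ Iv P (ball ![a, b, z] ρ) ![0, 1, l₁]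

theorem EH0_adapt {𝒬 : Set (Set (Rn n))} (hf : 𝒬.Finite) (hP : ∀ P ∈ 𝒬, Poly P) :
    ∃ L : Set ((Rn n →L[ℝ] ℝ) × ℝ), L.Finite ∧ ∀ P ∈ 𝒬, ∀ x ∈ P, face L x ⊆ P := by
  induction 𝒬, hf using Set.Finite.induction_on with
  | empty => exact ⟨∅, finite_empty, fun _ h => h.elim⟩
  | @insert Q 𝒬 _ _ ih =>
    obtain ⟨L, hL, k⟩ := ih fun P h => hP P (mem_insert_of_mem _ h)
    obtain ⟨L', h1, h2, h3⟩ := exists_adapted hL (hP Q (mem_insert _ _))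
    refine ⟨L', h1, fun P h x hx => ?_⟩
    rcases h with rfl | h
    · exact h3 x hx
    · exact (face_anti h2 x).trans (k P h x hx)

theorem EH0_lin (W : Submodule ℝ (Rn 3)) : (∃ l₀ l₁ : ℝ, ![1, 0, l₀] ∈ W ∧ ![0, 1, l₁] ∈ W) ∨
    ∃ p q : ℝ, (p ≠ 0 ∨ q ≠ 0) ∧ ∀ w ∈ W, p * w 0 + q * w 1 = 0 := by
  let π : Rn 3 →ₗ[ℝ] ℝ × ℝ := (LinearMap.proj 0).prod (LinearMap.proj 1)
  have hπ : ∀ w, π w = (w 0, w 1) := fun _ => rfl
  have e3 : ∀ w : Rn 3, w = ![w 0, w 1, w 2] := fun w => by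
    ext i; fin_cases i <;> rfl
  rcases (le_top : W.map π ≤ ⊤).eq_or_lt with e | e
  · obtain ⟨w, hw, k⟩ : ((1, 0) : ℝ × ℝ) ∈ W.map π := e ▸ Submodule.mem_top
    obtain ⟨w', hw', k'⟩ : ((0, 1) : ℝ × ℝ) ∈ W.map π := e ▸ Submodule.mem_top
    rw [hπ, Prod.mk.injEq] at k k'
    refine Or.inl ⟨w 2, w' 2, ?_, ?_⟩
    · rw [← k.1, ← k.2, ← e3]; exact hw
    · rw [← k'.1, ← k'.2, ← e3]; exact hw'
  · obtain ⟨f, hf, k⟩ := Submodule.exists_le_ker_of_lt_top _ e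
    have hf' : ∀ a b : ℝ, f (a, b) = f (1, 0) * a + f (0, 1) * b := fun a b => by
      have : ((a, b) : ℝ × ℝ) = a • ((1, 0) : ℝ × ℝ) + b • ((0, 1) : ℝ × ℝ) := by simp
      rw [this, map_add, map_smul, map_smul, smul_eq_mul, smul_eq_mul, mul_comm a, mul_comm b]
    refine Or.inr ⟨f (1, 0), f (0, 1), ?_, fun w hw => ?_⟩
    · by_contra! h
      exact hf (LinearMap.ext fun z => by rw [← Prod.mk.eta (p := z), hf', h.1, h.2]; simp)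
    · rw [← hf', ← hπ]
      exact k ⟨w, hw, rfl⟩

theorem EH0_iv {𝒬 : Set (Set (Rn 3))} {L : Set ((Rn 3 →L[ℝ] ℝ) × ℝ)} (hL : L.Finite)
    (ad : ∀ P ∈ 𝒬, ∀ x ∈ P, face L x ⊆ P) {x u : Rn 3} {j : Fin 3} (hu : u j = 1)
    (h : u ∈ fdir L x) : ∃ ρ > 0, ∀ P ∈ 𝒬, Iv P (ball x ρ) u := by
  obtain ⟨r, hr, k⟩ := Metric.eventually_nhds_iff.1 (face_prod hL h)
  refine ⟨r / 2, half_pos hr, fun P hP y hy s hs hyP => ad P hP y hyP (@k (y, s) ?_)⟩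
  have a := norm_le_pi_norm (s • u) j
  have b := dist_triangle_right (y + s • u) y x
  rw [Pi.smul_apply, hu, smul_eq_mul, mul_one] at a
  rw [dist_self_add_left] at b
  rw [mem_ball] at hy hs
  rw [Prod.dist_eq, max_lt_iff, dist_zero_right]
  exact ⟨by linarith, by linarith⟩

theorem ht1 {𝒬 : Set (Set (Rn 3))} (hf : 𝒬.Finite) (hP : ∀ P ∈ 𝒬, Poly P ∧ PC 2 P) :
    ∃ 𝓛 : Set (ℝ × ℝ × ℝ), 𝓛.Finite ∧ (∀ l ∈ 𝓛, l.1 ≠ 0 ∨ l.2.1 ≠ 0) ∧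
      ∀ a b, (∀ l ∈ 𝓛, l.1 * a + l.2.1 * b ≠ l.2.2) → Ray 𝒬 a b := by
  obtain ⟨L, hL, ad⟩ := EH0_adapt hf fun P h => (hP P h).1
  have ex : ∀ F : Set (Rn 3), ∃ l : ℝ × ℝ × ℝ, (l.1 ≠ 0 ∨ l.2.1 ≠ 0) ∧ ∀ x, face L x = F →
      l.1 * x 0 + l.2.1 * x 1 ≠ l.2.2 →
        ∃ l₀ l₁ : ℝ, ![1, 0, l₀] ∈ fdir L x ∧ ![0, 1, l₁] ∈ fdir L x := fun F => by
    by_cases hF : ∃ y, face L y = F
    · obtain ⟨y, rfl⟩ := hF
      rcases EH0_lin (fdir L y) with k | ⟨p, q, k, k'⟩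
      · exact ⟨(1, 0, 0), Or.inl one_ne_zero, fun x e _ =>
          fdir_eq (e ▸ mem_face_self L x : x ∈ face L y) ▸ k⟩
      · refine ⟨(p, q, p * y 0 + q * y 1), k, fun x e ne => absurd ?_ ne⟩
        have := k' _ (sub_mem_fdir (face_sub_cface L y (e ▸ mem_face_self L x : x ∈ face L y)))
        rw [Pi.sub_apply, Pi.sub_apply] at this
        show p * x 0 + q * x 1 = p * y 0 + q * y 1
        linarith
    · exact ⟨(1, 0, 0), Or.inl one_ne_zero, fun x e => absurd ⟨x, e⟩ hF⟩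
  choose g hg hg' using ex
  refine ⟨g '' range (face L), (finite_faces hL).image g, ?_, fun a b h => ?_⟩
  · rintro _ ⟨F, -, rfl⟩
    exact hg F
  have k : ∀ z : ℝ, ∃ l₀ l₁ : ℝ, ![1, 0, l₀] ∈ fdir L ![a, b, z] ∧ ![0, 1, l₁] ∈ fdir L ![a, b, z] :=
    fun z => hg' _ _ rfl (h _ ⟨_, ⟨![a, b, z], rfl⟩, rfl⟩)
  refine ⟨Finite.of_injOn (f := fun z => face L ![a, b, z]) (fun z _ => mem_range_self _) ?_
    (finite_faces hL), fun z => ?_⟩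
  · rintro z ⟨P, hQ, hz⟩ z' - (e : face L ![a, b, z] = face L ![a, b, z'])
    by_contra ne
    obtain ⟨l₀, l₁, k₀, k₁⟩ := k z
    have k₂ := sub_mem_fdir (face_sub_cface L _
      (e ▸ mem_face_self L ![a, b, z'] : ![a, b, z'] ∈ face L ![a, b, z]))
    have d := fdim_le hL (hP P hQ).2 (ad P hQ _ hz)
    have t : fdir L ![a, b, z] = ⊤ := Submodule.eq_top_iff'.2 fun w => by
      have hw : w = w 0 • ![1, 0, l₀] + w 1 • ![0, 1, l₁] +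
          ((w 2 - w 0 * l₀ - w 1 * l₁) / (z' - z)) • (![a, b, z'] - ![a, b, z]) := by
        have := sub_ne_zero.2 (Ne.symm ne)
        ext i; fin_cases i
        · simp
        · simp
        · simp
          field_simp
          ring
      rw [hw]
      exact add_mem (add_mem (Submodule.smul_mem _ _ k₀) (Submodule.smul_mem _ _ k₁))
        (Submodule.smul_mem _ _ k₂)
    rw [fdim, t, finrank_top, Module.finrank_fin_fun] at d
    omega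
  · obtain ⟨l₀, l₁, k₀, k₁⟩ := k z
    obtain ⟨ρ₀, h₀, i₀⟩ := EH0_iv hL ad (j := 0) rfl k₀
    obtain ⟨ρ₁, h₁, i₁⟩ := EH0_iv hL ad (j := 1) rfl k₁
    exact ⟨l₀, l₁, min ρ₀ ρ₁, lt_min h₀ h₁, fun P hQ =>
      ⟨(i₀ P hQ).mono (ball_subset_ball (min_le_left _ _)),
        (i₁ P hQ).mono (ball_subset_ball (min_le_right _ _))⟩⟩

end BEp
end
end

-- merged part: Pool.Agent.Work.MP_f0515e_an.D3.EH12
section
/-! A vertical shear in a tube. -/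

open Set Metric Filter Topology Function BEv
open scoped NNReal

noncomputable section
namespace BEp

theorem eh12_eta (x : Rn 3) : x = ![x 0, x 1, x 2] := by
  ext i; fin_cases i <;> rfl

theorem eh12_upd (x : Rn 3) (t : ℝ) : update x 2 t = ![x 0, x 1, t] := by
  ext i; fin_cases i <;> rfl

/-- Near a point where the map is a full shear. -/
theorem eh12_loc {𝒬 : Set (Set (Rn 3))} {a b z l₀ l₁ ρ : ℝ} (hρ : 0 < ρ)
    (h : ∀ P ∈ 𝒬, Iv P (ball ![a, b, z] ρ) ![1, 0, l₀] ∧ Iv P (ball ![a, b, z] ρ) ![0, 1, l₁])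
    {s : Rn 3 → ℝ} (hs : ∀ᶠ x in 𝓝 ![a, b, z], s x = l₀ * (x 0 - a) + l₁ * (x 1 - b)) :
    ∀ᶠ q : ((ℝ × ℝ) × ℝ × ℝ) × ℝ in 𝓝 (((a, b), a, b), z), ∀ P ∈ 𝒬,
      ![q.1.1.1, q.1.1.2, q.2 + s ![q.1.1.1, q.1.1.2, q.2]] ∈ P →
        ![q.1.2.1, q.1.2.2, q.2 + s ![q.1.2.1, q.1.2.2, q.2]] ∈ P := by
  have k : ∀ f g : ((ℝ × ℝ) × ℝ × ℝ) × ℝ → ℝ, Continuous f → Continuous g →
      f (((a, b), a, b), z) = a → g (((a, b), a, b), z) = b →
      ∀ᶠ q in 𝓝 (((a, b), a, b), z),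
        s ![f q, g q, q.2] = l₀ * (f q - a) + l₁ * (g q - b) ∧
        ![f q, g q, q.2 + (l₀ * (f q - a) + l₁ * (g q - b))] ∈ ball ![a, b, z] ρ := by
    intro f g hf hg e1 e2
    refine Eventually.and ?_ ?_
    · exact (Continuous.tendsto' (f := fun q : ((ℝ × ℝ) × ℝ × ℝ) × ℝ => ![f q, g q, q.2])
        (by fun_prop) _ _ (by rw [e1, e2])).eventually hs
    · exact (Continuous.tendsto' (f := fun q : ((ℝ × ℝ) × ℝ × ℝ) × ℝ =>
        ![f q, g q, q.2 + (l₀ * (f q - a) + l₁ * (g q - b))]) (by fun_prop) _ _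
        (by simp [e1, e2])).eventually (ball_mem_nhds _ hρ)
  filter_upwards [k (fun q => q.1.1.1) (fun q => q.1.1.2) (by fun_prop) (by fun_prop) rfl rfl,
    k (fun q => q.1.2.1) (fun q => q.1.1.2) (by fun_prop) (by fun_prop) rfl rfl,
    k (fun q => q.1.2.1) (fun q => q.1.2.2) (by fun_prop) (by fun_prop) rfl rfl]
    with ⟨⟨⟨c, d⟩, c', d'⟩, t⟩ h1 h2 h3 P hP hx
  simp only at h1 h2 h3 hx ⊢
  rw [h1.1] at hx
  rw [h3.1]
  have e1 : ![c', d, t + (l₀ * (c' - a) + l₁ * (d - b))] =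
      ![c, d, t + (l₀ * (c - a) + l₁ * (d - b))] + (c' - c) • ![1, 0, l₀] := by
    ext i; fin_cases i <;> simp
    ring
  have e2 : ![c', d', t + (l₀ * (c' - a) + l₁ * (d' - b))] =
      ![c', d, t + (l₀ * (c' - a) + l₁ * (d - b))] + (d' - d) • ![0, 1, l₁] := by
    ext i; fin_cases i <;> simp
    ring
  have h4 := (h P hP).1 _ h1.2 _ (e1 ▸ h2.2) hx
  rw [← e1] at h4
  exact e2 ▸ (h P hP).2 _ h2.2 _ (e2 ▸ h3.2) h4

/-- The bound for the shear at the height `z`. -/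
def eh12_psi (a b ρ r N z : ℝ) (x : Rn 3) : ℝ :=
  max 0 (min ((r - |x 2 - z|) / N) (ρ - max |x 0 - a| |x 1 - b|))

theorem eh12_tp (a b ρ r N z : ℝ) : TP (eh12_psi a b ρ r N z) :=
  (TP.const 0).max ((((TP.const r).sub ((TP.id'.apply 2).sub (TP.const z)).abs).div_const N).min
    ((TP.const ρ).sub (((TP.id'.apply 0).sub (TP.const a)).abs.max
      ((TP.id'.apply 1).sub (TP.const b)).abs)))

theorem eh12_zero {a b ρ r N z : ℝ} (hN : 0 < N) {x : Rn 3}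
    (h : r ≤ |x 2 - z| ∨ ρ ≤ |x 0 - a| ∨ ρ ≤ |x 1 - b|) : eh12_psi a b ρ r N z x = 0 := by
  refine max_eq_left (min_le_iff.2 ?_)
  rcases h with h | h
  · exact Or.inl (div_nonpos_of_nonpos_of_nonneg (sub_nonpos.2 h) hN.le)
  · exact Or.inr (sub_nonpos.2 (le_max_iff.2 h))

theorem eh12_le {a b ρ r N z : ℝ} (hN : 0 < N) (hr : 0 < r) (x : Rn 3) :
    eh12_psi a b ρ r N z x ≤ r / N :=
  max_le (by positivity) ((min_le_left _ _).trans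
    (div_le_div_of_nonneg_right (sub_le_self _ (abs_nonneg _)) hN.le))

theorem eh12_lip {a b ρ r N z : ℝ} (hN : 0 < N) (x : Rn 3) (t t' : ℝ) :
    |eh12_psi a b ρ r N z (update x 2 t) - eh12_psi a b ρ r N z (update x 2 t')| ≤
      |t - t'| / N := by
  rw [eh12_upd, eh12_upd]
  refine (abs_max_sub_max_le_max _ _ _ _).trans (max_le (by rw [sub_self, abs_zero]; positivity)
    ((abs_min_sub_min_le_max _ _ _ _).trans (max_le ?_ ?_)))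
  · rw [← sub_div, abs_div, abs_of_pos hN, sub_sub_sub_cancel_left, abs_sub_comm t]
    refine div_le_div_of_nonneg_right ((abs_abs_sub_abs_le_abs_sub _ _).trans_eq ?_) hN.le
    rw [sub_sub_sub_cancel_right]
    rfl
  · refine le_of_eq_of_le (abs_eq_zero.2 (sub_eq_zero.2 rfl)) (by positivity)

/-- A horizontally invariant set that meets the line in finitely many points has slope zero. -/
theorem eh12_flat {P : Set (Rn 3)} {a b u v ρ z δ c d l : ℝ} (hρ : 0 < ρ) (hδ : 0 < δ)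
    (hf : {z : ℝ | ![a, b, z] ∈ P}.Finite)
    (hP : ∀ x ∈ P, ∀ y : Rn 3, |x 0 - a| < ρ → |x 1 - b| < ρ → |y 0 - a| < ρ →
      |y 1 - b| < ρ → u < x 2 → x 2 < v → y 2 = x 2 → y ∈ P)
    (hu : u < z) (hv : z < v) (hz : ![a, b, z] ∈ P) (h : Iv P (ball ![a, b, z] δ) ![c, d, l]) :
    l = 0 := by
  by_contra hl
  have hi : Injective fun s : ℝ => z + s * l := fun s s' e =>
    mul_right_cancel₀ hl (add_left_cancel e)
  refine infinite_of_mem_nhds (0 : ℝ) ?_ (hf.preimage hi.injOn)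
  have k0 : ∀ᶠ s : ℝ in 𝓝 0, (![a, b, z] : Rn 3) + s • ![c, d, l] ∈ ball ![a, b, z] δ :=
    (Continuous.tendsto' (f := fun s : ℝ => (![a, b, z] : Rn 3) + s • ![c, d, l]) (by fun_prop) _ _
      (by simp)).eventually (ball_mem_nhds _ hδ)
  have k1 : ∀ e : ℝ, ∀ᶠ s : ℝ in 𝓝 0, |s * e| < ρ := fun e =>
    ContinuousAt.eventually_lt (by fun_prop) continuousAt_const (by simpa using hρ)
  have k2 : ∀ᶠ s : ℝ in 𝓝 0, u < z + s * l :=
    ContinuousAt.eventually_lt continuousAt_const (by fun_prop) (by simpa using hu)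
  have k3 : ∀ᶠ s : ℝ in 𝓝 0, z + s * l < v :=
    ContinuousAt.eventually_lt (by fun_prop) continuousAt_const (by simpa using hv)
  filter_upwards [k0, k1 c, k1 d, k2, k3] with s e0 e1 e2 e3 e4
  exact hP _ (h _ (mem_ball_self hδ) s e0 hz) ![a, b, z + s * l] (by simpa using e1)
    (by simpa using e2) (by simpa using hρ) (by simpa using hρ) (by simpa using e3)
    (by simpa using e4) (by simp)

theorem eh12_main {𝒬 : Set (Set (Rn 3))} (hf : 𝒬.Finite) (hP : ∀ P ∈ 𝒬, IsClosed P)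
    {a b u v ρ : ℝ} (h1 : {z : ℝ | ∃ P ∈ 𝒬, ![a, b, z] ∈ P}.Finite)
    (h2 : ∀ z : ℝ, ∃ l₀ l₁ ρ : ℝ, 0 < ρ ∧ ∀ P ∈ 𝒬,
      Iv P (ball ![a, b, z] ρ) ![1, 0, l₀] ∧ Iv P (ball ![a, b, z] ρ) ![0, 1, l₁])
    (hρ : 0 < ρ) (he : ∀ z, z = u ∨ z = v → ∃ r > 0, ∀ P ∈ 𝒬,
      Iv P (ball ![a, b, z] r) ![1, 0, 0] ∧ Iv P (ball ![a, b, z] r) ![0, 1, 0]) :
    ∃ ε > 0, ∃ Φ, Mv {x | |x 0 - a| < ρ ∧ |x 1 - b| < ρ ∧ u < x 2 ∧ x 2 < v} Φ ∧
      (∀ x, Φ x 0 = x 0 ∧ Φ x 1 = x 1 ∧ ‖Φ x - x‖ ≤ ρ) ∧ (∀ x, x 0 = a → x 1 = b → Φ x = x) ∧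
      (∀ P ∈ 𝒬, ∀ x ∈ Φ '' P, ∀ y : Rn 3, |x 0 - a| ≤ ε → |x 1 - b| ≤ ε → |y 0 - a| ≤ ε →
        |y 1 - b| ≤ ε → u ≤ x 2 → x 2 ≤ v → y 2 = x 2 → y ∈ Φ '' P) ∧
      ∀ P ∈ 𝒬, (∀ x ∈ P, ∀ y : Rn 3, |x 0 - a| < ρ → |x 1 - b| < ρ → |y 0 - a| < ρ →
        |y 1 - b| < ρ → u < x 2 → x 2 < v → y 2 = x 2 → y ∈ P) → Φ '' P = P := by
  choose l₀ l₁ δ hδ hl using h2
  obtain ⟨Z, hZ⟩ : ∃ Z : Finset ℝ, ∀ z, z ∈ Z ↔ (∃ P ∈ 𝒬, ![a, b, z] ∈ P) ∧ u < z ∧ z < v :=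
    ⟨(h1.inter_of_left (Ioo u v)).toFinset, fun z => Finite.mem_toFinset _⟩
  obtain ⟨r, hr, hrρ, hs⟩ : ∃ r, 0 < r ∧ r < ρ ∧ ∀ z ∈ Z, ∀ w ∈ insert u (insert v Z), w ≠ z →
      r < |w - z| := by
    have k : ∀ c : ℝ, 0 < c → ∀ᶠ r in 𝓝[>] (0 : ℝ), r < c := fun c hc =>
      nhdsWithin_le_nhds (Iio_mem_nhds hc)
    refine (Eventually.and (f := 𝓝[>] (0 : ℝ)) self_mem_nhdsWithin ((k ρ hρ).and
      ((Finset.eventually_all _).2 fun z _ => (Finset.eventually_all _).2 fun w _ => ?_))).exists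
    by_cases e : w = z
    · exact .of_forall fun _ e' => absurd e e'
    · exact (k _ (abs_pos.2 (sub_ne_zero.2 e))).mono fun _ h _ => h
  obtain ⟨N, hN, hc⟩ : ∃ N : ℝ, 0 < N ∧ Z.card / N ≤ 1 / 2 :=
    ⟨2 * Z.card + 2, by positivity, by
      rw [div_le_div_iff₀ (by positivity) two_pos]
      linarith⟩
  obtain ⟨s, es⟩ : ∃ s : Rn 3 → ℝ, ∀ x, s x = ∑ z ∈ Z,
      clamp (l₀ z * (x 0 - a) + l₁ z * (x 1 - b)) (eh12_psi a b ρ r N z x) := ⟨_, fun _ => rfl⟩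
  have ts : TP s := by
    rw [funext es]
    exact TP.sum Z fun z _ => ((((TP.id'.apply 0).sub (TP.const a)).const_mul _).add
      (((TP.id'.apply 1).sub (TP.const b)).const_mul _)).clamp (eh12_tp _ _ _ _ _ _)
  have bd : ∀ (f : ℝ → ℝ) (c : ℝ), 0 ≤ c → (∀ z ∈ Z, |f z| ≤ c / N) → |∑ z ∈ Z, f z| ≤ c / 2 :=
    fun f c h0 hb => ((Finset.abs_sum_le_sum_abs _ _).trans (Finset.sum_le_card_nsmul _ _ _ hb)).trans
      (by
        rw [nsmul_eq_mul, ← mul_div_assoc, mul_comm, mul_div_assoc, div_eq_mul_one_div c]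
        exact mul_le_mul_of_nonneg_left hc h0)
  have hG : LH fun x : Rn 3 => update x 2 (x 2 + s x) := by
    refine lh_vert 2 ((TP.id'.apply 2).add ts) (c := 1 / 2) (by norm_num) fun x t t' ht => ?_
    have := bd (fun z => clamp (l₀ z * (x 0 - a) + l₁ z * (x 1 - b))
        (eh12_psi a b ρ r N z (update x 2 t')) - clamp (l₀ z * (x 0 - a) + l₁ z * (x 1 - b))
        (eh12_psi a b ρ r N z (update x 2 t))) |t' - t| (abs_nonneg _) fun z _ =>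
      (abs_clamp_sub_le _ _ _ _).trans (max_le (by rw [sub_self, abs_zero]; positivity)
        (eh12_lip hN x t' t))
    rw [Finset.sum_sub_distrib, abs_of_nonneg (sub_nonneg.2 ht)] at this
    simp only [es, update_self, update_of_ne (show (0 : Fin 3) ≠ 2 by decide),
      update_of_ne (show (1 : Fin 3) ≠ 2 by decide)]
    linarith [(abs_le.1 this).1]
  have s0 : ∀ x : Rn 3, (∀ z ∈ Z, r ≤ |x 2 - z| ∨ ρ ≤ |x 0 - a| ∨ ρ ≤ |x 1 - b|) → s x = 0 :=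
    fun x hx => (es x).trans (Finset.sum_eq_zero fun z hz => by
      rw [eh12_zero hN (hx z hz), clamp_zero])
  have s1 : ∀ x : Rn 3, x 0 = a → x 1 = b → s x = 0 := fun x e e' =>
    (es x).trans (Finset.sum_eq_zero fun z _ => by
      rw [e, e', sub_self, sub_self, mul_zero, mul_zero, add_zero]
      exact clamp_eq_self (abs_zero.trans_le (le_max_left _ _)))
  have far : ∀ w : ℝ, ∀ z ∈ Z, r < |w - z| → ∀ᶠ x in 𝓝 ![a, b, w], r ≤ |x 2 - z| := fun w z _ h =>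
    (Continuous.continuousAt (f := fun x : Rn 3 => |x 2 - z|) (by fun_prop)).eventually
      (le_mem_nhds h)
  have key : ∀ᶠ q : (ℝ × ℝ) × ℝ × ℝ in 𝓝 ((a, b), a, b), ∀ t ∈ Icc u v, ∀ P ∈ 𝒬,
      ![q.1.1, q.1.2, t + s ![q.1.1, q.1.2, t]] ∈ P →
        ![q.2.1, q.2.2, t + s ![q.2.1, q.2.2, t]] ∈ P := by
    refine isCompact_Icc.eventually_forall_of_forall_eventually fun w hw => ?_
    by_cases e : w = u ∨ w = v
    · obtain ⟨r', h3, h4⟩ := he w e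
      refine eh12_loc h3 h4 (((Finset.eventually_all Z).2 fun z hz => far w z hz (hs z hz w (by
        rcases e with e | e <;> simp [e]) ?_)).mono fun x hx => ?_)
      · rcases e with rfl | rfl
        · exact ((hZ z).1 hz).2.1.ne
        · exact ((hZ z).1 hz).2.2.ne'
      · rw [s0 x fun z hz => Or.inl (hx z hz), zero_mul, zero_mul, add_zero]
    by_cases e' : w ∈ Z
    · refine eh12_loc (hδ w) (hl w) ?_
      have k1 : ∀ᶠ x in 𝓝 ![a, b, w], |l₀ w * (x 0 - a) + l₁ w * (x 1 - b)| <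
          eh12_psi a b ρ r N w x := ContinuousAt.eventually_lt (by fun_prop)
        (eh12_tp _ _ _ _ _ _).continuous.continuousAt (by simp [eh12_psi, hρ, hr, hN])
      filter_upwards [k1, (Finset.eventually_all (Z.erase w)).2 fun z hz =>
        far w z (Finset.mem_of_mem_erase hz) (hs z (Finset.mem_of_mem_erase hz) w (by simp [e'])
          (Finset.ne_of_mem_erase hz).symm)] with x k2 k3
      rw [es, Finset.sum_eq_single_of_mem w e' fun z hz hz' => by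
        rw [eh12_zero hN (Or.inl (k3 z (Finset.mem_erase.2 ⟨hz', hz⟩))), clamp_zero],
        clamp_eq_self k2.le]
    · have cs := ts.continuous
      refine (hf.eventually_all.2 fun P hP' => ?_)
      refine ((Continuous.tendsto' (f := fun q : ((ℝ × ℝ) × ℝ × ℝ) × ℝ =>
        ![q.1.1.1, q.1.1.2, q.2 + s ![q.1.1.1, q.1.1.2, q.2]]) (by fun_prop) _ ![a, b, w]
        (by rw [s1 _ rfl rfl, add_zero])).eventually ((hP P hP').isOpen_compl.mem_nhds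
          fun k => e' ((hZ w).2 ⟨⟨P, hP', k⟩, ?_, ?_⟩))).mono fun q k k' => absurd k' k
      · exact lt_of_le_of_ne hw.1 fun k => e (Or.inl k.symm)
      · exact lt_of_le_of_ne hw.2 fun k => e (Or.inr k)
  obtain ⟨ε, hε, hk⟩ := Metric.nhds_basis_closedBall.eventually_iff.1 key
  have hM : Mv {x | |x 0 - a| < ρ ∧ |x 1 - b| < ρ ∧ u < x 2 ∧ x 2 < v}
      fun x : Rn 3 => update x 2 (x 2 + s x) := ⟨hG, fun x hx => by
    beta_reduce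
    rw [s0 x fun z hz => ?_, add_zero, update_eq_self]
    by_contra k
    simp only [not_or, not_le] at k
    obtain ⟨-, k1, k2⟩ := (hZ z).1 hz
    have k3 := hs z hz u (by simp) k1.ne
    have k4 := hs z hz v (by simp) k2.ne'
    rw [abs_of_neg (sub_neg.2 k1)] at k3
    rw [abs_of_pos (sub_pos.2 k2)] at k4
    exact hx ⟨k.2.1, k.2.2, by linarith [(abs_lt.1 k.1).1], by linarith [(abs_lt.1 k.1).2]⟩⟩
  refine ⟨ε, hε, _, hM.inv, fun x => ?_, fun x e e' => hG.inv_eq ?_, ?_, fun P hP' hI => ?_⟩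
  · obtain ⟨y, rfl⟩ := hG.1.2 x
    rw [hG.li]
    refine ⟨rfl, rfl, (pi_norm_le_iff_of_nonneg hρ.le).2 fun i => ?_⟩
    have : |s y| ≤ r / 2 := es y ▸ bd _ r hr.le fun z _ =>
      (abs_clamp_le (le_max_left _ _)).trans (eh12_le hN hr y)
    beta_reduce
    by_cases e : i = 2
    · rw [e, Pi.sub_apply, update_self, sub_add_cancel_left, norm_neg]
      exact this.trans (by linarith)
    · rw [Pi.sub_apply, update_of_ne e, sub_self, norm_zero]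
      exact hρ.le
  · rw [s1 x e e', add_zero, update_eq_self]
  · rintro P hP' x ⟨x', hx, e⟩ y k1 k2 k3 k4 k5 k6 k7
    refine ⟨_, ?_, hG.li y⟩
    have e' : update x 2 (x 2 + s x) = x' := e ▸ hG.ri x'
    have := @hk ((x 0, x 1), y 0, y 1) (by
      simp only [mem_closedBall, Prod.dist_eq, Real.dist_eq, max_le_iff]
      exact ⟨⟨k1, k2⟩, k3, k4⟩) (x 2) ⟨k5, k6⟩ P hP' (by
      rwa [← eh12_eta x, ← eh12_upd, e'])
    rwa [← k7, ← eh12_eta y, ← eh12_upd] at this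
  · refine (image_congr fun x hx => hG.inv_eq ?_).trans (image_id' P)
    by_cases hW : |x 0 - a| < ρ ∧ |x 1 - b| < ρ ∧ u < x 2 ∧ x 2 < v
    swap
    · exact hM.2 x hW
    obtain ⟨w1, w2, w3, w4⟩ := hW
    have hz : ![a, b, x 2] ∈ P :=
      hI x hx _ w1 w2 (by simpa using hρ) (by simpa using hρ) w3 w4 rfl
    have hZ' : x 2 ∈ Z := (hZ _).2 ⟨⟨P, hP', hz⟩, w3, w4⟩
    have hfin : {z : ℝ | ![a, b, z] ∈ P}.Finite := h1.subset fun z k => ⟨P, hP', k⟩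
    have e0 := eh12_flat hρ (hδ _) hfin hI w3 w4 hz (hl _ P hP').1
    have e1 := eh12_flat hρ (hδ _) hfin hI w3 w4 hz (hl _ P hP').2
    have e2 : s x = 0 := (es x).trans (Finset.sum_eq_zero fun z hz' => by
      by_cases e : x 2 = z
      · rw [← e, e0, e1, zero_mul, zero_mul, add_zero]
        exact clamp_eq_self (abs_zero.trans_le (le_max_left _ _))
      · rw [eh12_zero hN (Or.inl (hs z hz' (x 2) (by simp [hZ']) e).le), clamp_zero])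
    rw [e2, add_zero, update_eq_self]

end BEp
end
end

-- merged part: Pool.Agent.Work.MP_f0515e_an.D3.EH1
section
/-! Handle position in a tube.
`ht1`: one finite arrangement `L` adapted to all `P` (`adapted_two`, induction on the finite family). There are finitely many faces; if the direction space `fdir L x` of a face in some `P` does not project onto the plane of the first two coordinates, the face projects
into a line. Off these lines the face of a point of some `P` on the vertical line has directions `![1, 0, l₀]`, `![0, 1, l₁]` (`face_prod`; all faces near the point are invariant, compare `gen_prod`); its dimension is at most two (`PC 2`),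
so it contains one point of the line only. A point outside all `P` has a ball missing them.
`ht2`: the inverse map is `G x = update x 2 (x 2 + ∑ k, clamp (ℓ k x) (ψ k x))` over the finitely many heights `z k ∈ (u, v)` where the line meets some `P`; `ℓ k x = l₀ (x 0 - a) + l₁ (x 1 - b)`,
`ψ k x = max 0 (min ((r - |x 2 - z k|) / 2) (M * (ρ' - max |x 0 - a| |x 1 - b|)))`, supports disjoint in `x 2`, slope at least `1 / 2` (`lh_vert`). (Or induct on the heights and compose.) For `|x 2 - z k| ≤ r / 2` and small horizontal part the shear is full;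
near `u`, `v` there is no shear; elsewhere the thin tube misses all `P` by compactness. About 450 lines; split EH0 (`ht1`). -/

open Set Metric Filter Topology Function BEv
open scoped NNReal

noncomputable section
namespace BEp

variable {n m : ℕ}

theorem ht2 {𝒬 : Set (Set (Rn 3))} (hf : 𝒬.Finite) (hP : ∀ P ∈ 𝒬, IsClosed P) {a b u v ρ : ℝ}
    (h : Ray 𝒬 a b) (huv : u < v) (hρ : 0 < ρ)
    (he : ∀ z, z = u ∨ z = v → ∃ r > 0, ∀ P ∈ 𝒬,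
      Iv P (ball ![a, b, z] r) ![1, 0, 0] ∧ Iv P (ball ![a, b, z] r) ![0, 1, 0]) :
    ∃ ε > 0, ∃ Φ, Mv {x | |x 0 - a| < ρ ∧ |x 1 - b| < ρ ∧ u < x 2 ∧ x 2 < v} Φ ∧
      (∀ x, Φ x 0 = x 0 ∧ Φ x 1 = x 1 ∧ ‖Φ x - x‖ ≤ ρ) ∧ (∀ x, x 0 = a → x 1 = b → Φ x = x) ∧
      (∀ P ∈ 𝒬, ∀ x ∈ Φ '' P, ∀ y : Rn 3, |x 0 - a| ≤ ε → |x 1 - b| ≤ ε → |y 0 - a| ≤ ε →
        |y 1 - b| ≤ ε → u ≤ x 2 → x 2 ≤ v → y 2 = x 2 → y ∈ Φ '' P) ∧
      ∀ P ∈ 𝒬, (∀ x ∈ P, ∀ y : Rn 3, |x 0 - a| < ρ → |x 1 - b| < ρ → |y 0 - a| < ρ →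
        |y 1 - b| < ρ → u < x 2 → x 2 < v → y 2 = x 2 → y ∈ P) → Φ '' P = P := by
  have _ := huv
  exact eh12_main hf hP h.1 h.2 hρ he

end BEp
end
end
end

-- merged part: Pool.Agent.Work.MP_f0515e_an.P3.XHpA1
section
-- merged part: Pool.Agent.Work.MP_f0515e_an.P3.XGm
section
/-! PL homeomorphisms of an open set; gluing of moves with disjoint supports; chains of stars.
`gm_glue`: `Ψ x = Φ i x` if `x ∈ W i`; on a compact set only finitely many `W i` matter and `Ψ` is the composition of these `Φ i` (induction on the finite set; `Mv.image_eq`); same for the inverses (`Mv.inv`).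
`GM.linv`: the inverse is `LTP`, the image of a compact set is compact. About 250 lines. -/

open Set Metric Filter Topology Function BEv
open scoped NNReal

noncomputable section
namespace BEp

variable {n m : ℕ}

variable {V : Set (Rn 3)} {Φ Ψ : Rn 3 → Rn 3}

theorem LTP.contOn {k : ℕ} {U : Set (Rn k)} {F : Type} [NormedAddCommGroup F] [NormedSpace ℝ F]
    {G : Rn k → F} (hU : IsOpen U) (h : LTP U G) : ContinuousOn G U := by
  intro x hx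
  obtain ⟨K, h1, h2, h3⟩ := exists_compact_subset hU hx
  obtain ⟨g, hg, e⟩ := h K h1 h3
  exact (hg.continuous.continuousAt.congr
    (e.eventuallyEq_of_mem (mem_interior_iff_mem_nhds.1 h2)).symm).continuousWithinAt

theorem LTP.comp' {k l : ℕ} {U : Set (Rn k)} {U' : Set (Rn l)} {F : Type} [NormedAddCommGroup F]
    [NormedSpace ℝ F] {G : Rn k → Rn l} {H : Rn l → F} (h : LTP U' H) (k : LTP U G)
    (hm : MapsTo G U U') : LTP U (H ∘ G) := by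
  intro C hC hs
  obtain ⟨t, ht, e⟩ := k C hC hs
  obtain ⟨g, hg, e'⟩ := h (t '' C) (hC.image ht.continuous) (by
    rintro _ ⟨x, hx, rfl⟩
    rw [← e hx]
    exact hm (hs hx))
  refine ⟨fun x => g (t x), hg.comp ht, fun x hx => ?_⟩
  rw [comp_apply, e hx]
  exact e' (mem_image_of_mem _ hx)

theorem GM.id' (V : Set (Rn 3)) : GM V id :=
  ⟨id, fun _ _ _ => ⟨_, TP.id', fun _ _ => rfl⟩, fun _ _ _ => ⟨_, TP.id', fun _ _ => rfl⟩,
    mapsTo_id _, mapsTo_id _, fun _ _ => rfl, fun _ _ => rfl⟩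

theorem GM.comp (h : GM V Φ) (k : GM V Ψ) : GM V (Φ ∘ Ψ) := by
  obtain ⟨Φ', a1, a2, a3, a4, a5, a6⟩ := h
  obtain ⟨Ψ', b1, b2, b3, b4, b5, b6⟩ := k
  exact ⟨Ψ' ∘ Φ', a1.comp' b1 b3, b2.comp' a2 a4, a3.comp b3, b4.comp a4, b5.comp a5 b3,
    b6.comp a6 a4⟩

theorem GM.bij (h : GM V Φ) : BijOn Φ V V := by
  obtain ⟨Φ', -, -, a3, a4, a5, a6⟩ := h
  exact InvOn.bijOn ⟨a5, a6⟩ a3 a4

theorem GM.ltp (h : GM V Φ) : LTP V Φ := by
  obtain ⟨Φ', a1, -⟩ := h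
  exact a1

theorem GM.tp (h : GM V Φ) {K : Set (Rn 3)} (hK : IsCompact K) (hs : K ⊆ V) :
    ∃ u k, TP u ∧ TP k ∧ EqOn Φ u K ∧ ∀ x ∈ K, k (Φ x) = x := by
  obtain ⟨Φ', a1, a2, a3, -, a5, -⟩ := h
  obtain ⟨u, hu, e⟩ := a1 K hK hs
  obtain ⟨k, hk, e'⟩ := a2 (u '' K) (hK.image hu.continuous) (by
    rintro _ ⟨x, hx, rfl⟩
    rw [← e hx]
    exact a3 (hs hx))
  exact ⟨u, k, hu, hk, e, fun x hx => by rw [← e' ⟨x, hx, (e hx).symm⟩, a5 (hs hx)]⟩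

theorem GM.pdsc (h : GM V Φ) {F J : Set (Rn 3)} (hF : PDsc F J) (hs : F ⊆ V) :
    PDsc (Φ '' F) (Φ '' J) := by
  obtain ⟨g, h1, h2, rfl, rfl⟩ := hF
  obtain ⟨u, k, hu, -, e, e'⟩ := h.tp ((isCompact_closedBall _ _).image h1.continuous) hs
  refine ⟨fun x => u (g x), hu.comp h1, fun x hx y hy hxy => h2 hx hy ?_, ?_, ?_⟩
  · have a := mem_image_of_mem g hx
    have b := mem_image_of_mem g hy
    rw [← e' _ a, ← e' _ b, e a, e b]
    exact congrArg k hxy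
  · rw [e.image_eq, image_image]
  · rw [(e.mono (image_mono sphere_subset_closedBall)).image_eq, image_image]

theorem GM.cpt (h : GM V Φ) {K : Set (Rn 3)} (hK : IsCompact K) (hs : K ⊆ V) :
    ∃ K', IsCompact K' ∧ K' ⊆ V ∧ ∀ x ∈ V, Φ x ∈ K → x ∈ K' := by
  obtain ⟨Φ', -, a2, -, a4, a5, -⟩ := h
  obtain ⟨k, hk, e⟩ := a2 K hK hs
  refine ⟨k '' K, hK.image hk.continuous, ?_, fun x hx h1 => ⟨_, h1, by rw [← e h1, a5 hx]⟩⟩
  rintro _ ⟨x, hx, rfl⟩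
  rw [← e hx]
  exact a4 (hs hx)

theorem GM.lfm {ι : Type} {F J : ι → Set (Rn 3)} (h : GM V Φ) (hF : LFm V F J) :
    LFm V (fun c => Φ '' F c) (fun c => Φ '' J c) := by
  refine ⟨⟨fun c => h.pdsc (hF.st.dsc c) (hF.sub c), fun c d hcd => disjoint_left.2 ?_⟩,
    fun c => (h.bij.1.mono_left (hF.sub c)).image_subset, fun C hC hs => ?_⟩
  · rintro _ ⟨⟨x, hx, rfl⟩, h1⟩ ⟨y, hy, e⟩
    obtain rfl := h.bij.2.1 (hF.sub d hy) (hF.sub c hx) e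
    exact disjoint_left.1 (hF.st.dis c d hcd) ⟨hx, fun k => h1 (mem_image_of_mem _ k)⟩ hy
  · obtain ⟨K, h1, h2, h3⟩ := h.cpt hC hs
    refine (hF.lf K h1 h2).subset ?_
    rintro c ⟨_, ⟨x, hx, rfl⟩, h4⟩
    exact ⟨x, hx, h3 x (hF.sub c hx) h4⟩

theorem XGm_glue {κ : Type} {W : κ → Set (Rn 3)} {Θ : κ → Rn 3 → Rn 3} (h : ∀ i, Mv (W i) (Θ i))
    (hd : ∀ i j, i ≠ j → Disjoint (W i) (W j))
    (lf : ∀ K, IsCompact K → K ⊆ V → {i | (W i ∩ K).Nonempty}.Finite) :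
    ∃ Ψ, LTP V Ψ ∧ (∀ i, EqOn Ψ (Θ i) (W i)) ∧ ∀ x, (∀ i, x ∉ W i) → Ψ x = x := by
  classical
  have hu : ∀ i j x, x ∈ W i → j ≠ i → Θ j x = x := fun i j x hx hij =>
    (h j).2 x fun k => disjoint_left.1 (hd j i hij) k hx
  have e1 : ∀ i, EqOn (fun x => if k : ∃ i, x ∈ W i then Θ k.choose x else x) (Θ i) (W i) := by
    intro i x hx
    have k : ∃ i, x ∈ W i := ⟨i, hx⟩
    have : k.choose = i := by_contra fun l => disjoint_left.1 (hd _ _ l) k.choose_spec hx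
    simp only [dif_pos k, this]
  have e0 : ∀ x, (∀ i, x ∉ W i) → (if k : ∃ i, x ∈ W i then Θ k.choose x else x) = x :=
    fun x hx => dif_neg (not_exists.2 hx)
  refine ⟨_, fun K hK hs => ?_, e1, e0⟩
  refine ⟨fun x => x + ∑ i ∈ (lf K hK hs).toFinset, (Θ i x - x),
    TP.id'.add (TP.sum _ fun i _ => (h i).1.tp.sub TP.id'), fun x hx => ?_⟩
  by_cases k : ∃ i, x ∈ W i
  · obtain ⟨i, hi⟩ := k
    rw [e1 i hi]
    show _ = x + _
    rw [Finset.sum_eq_single_of_mem i ((lf K hK hs).mem_toFinset.2 ⟨x, hi, hx⟩)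
      fun j _ hj => by rw [hu i j x hi hj, sub_self], add_sub_cancel]
  · refine (e0 x (not_exists.1 k)).trans ?_
    show _ = x + _
    rw [Finset.sum_eq_zero fun j _ => by rw [(h j).2 x (not_exists.1 k j), sub_self], add_zero]

theorem gm_glue {κ : Type} {W : κ → Set (Rn 3)} {Θ : κ → Rn 3 → Rn 3} (h : ∀ i, Mv (W i) (Θ i))
    (hs : ∀ i, W i ⊆ V) (hd : ∀ i j, i ≠ j → Disjoint (W i) (W j))
    (lf : ∀ K, IsCompact K → K ⊆ V → {i | (W i ∩ K).Nonempty}.Finite) :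
    ∃ Ψ, GM V Ψ ∧ (∀ i, EqOn Ψ (Θ i) (W i)) ∧ ∀ x, (∀ i, x ∉ W i) → Ψ x = x := by
  obtain ⟨Ψ, a1, a2, a3⟩ := XGm_glue h hd lf
  obtain ⟨Ψ', b1, b2, b3⟩ := XGm_glue (fun i => (h i).inv) hd lf
  have m1 : ∀ i, ∀ x ∈ W i, Θ i x ∈ W i := fun i x hx =>
    (h i).image_eq Subset.rfl ▸ mem_image_of_mem _ hx
  have m2 : ∀ i, ∀ x ∈ W i, invFun (Θ i) x ∈ W i := fun i x hx =>
    (h i).inv.image_eq Subset.rfl ▸ mem_image_of_mem _ hx
  refine ⟨Ψ, ⟨Ψ', a1, b1, fun x hx => ?_, fun x hx => ?_, fun x _ => ?_, fun x _ => ?_⟩, a2, a3⟩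
  all_goals by_cases k : ∃ i, x ∈ W i
  · obtain ⟨i, hi⟩ := k
    rw [a2 i hi]; exact hs i (m1 i x hi)
  · rw [a3 x (not_exists.1 k)]; exact hx
  · obtain ⟨i, hi⟩ := k
    rw [b2 i hi]; exact hs i (m2 i x hi)
  · rw [b3 x (not_exists.1 k)]; exact hx
  · obtain ⟨i, hi⟩ := k
    rw [a2 i hi, b2 i (m1 i x hi), (h i).1.li]
  · rw [a3 x (not_exists.1 k), b3 x (not_exists.1 k)]
  · obtain ⟨i, hi⟩ := k
    rw [b2 i hi, a2 i (m2 i x hi), (h i).1.ri]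
  · rw [b3 x (not_exists.1 k), a3 x (not_exists.1 k)]

/-- The discs which meet a compact set form a finite family. -/
theorem LFm.loc {ι : Type} {F J : ι → Set (Rn 3)} (h : LFm V F J) {K : Set (Rn 3)}
    (hK : IsCompact K) (hs : K ⊆ V) : Finite {c // (F c ∩ K).Nonempty} ∧
      ESt (fun c : {c // (F c ∩ K).Nonempty} => F c) (fun c => J c) :=
  ⟨(h.lf K hK hs).to_subtype, fun c => h.st.dsc c,
    fun c d hcd => h.st.dis c d (Subtype.coe_injective.ne hcd)⟩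

section
variable {ν ι : Type} {g C : ℝ} {Cf : (Rn 3 ≃L[ℝ] Rn 3) → ℝ} {P : ι → Pc} {T : TS} {c : Rn 3 → ℝ}
  {t : ν → Rn 3 → ℝ} {mv : ν → Rn 3 → ℝ → Rn 3} {dim : ν → ℕ} {b : ν → Rn 3}

theorem Chn.trans {k k' : ℕ} {x y z : Rn 3} (h : Chn V t k x y) (h' : Chn V t k' y z) :
    Chn V t (k + k') x z := by
  induction k' generalizing z with
  | zero =>
    obtain rfl : y = z := h'
    exact h
  | succ k' ih =>
    obtain ⟨w, hw, h1, h2⟩ := h'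
    exact ⟨w, hw, ih h1, h2⟩

theorem Api.nb_self (h : Api V g C Cf P T c t mv dim b) {y : Rn 3} (hy : y ∈ V) : Nb t y y := by
  obtain ⟨v, hv⟩ := h.one y hy
  exact ⟨v, hv ▸ one_pos, hv ▸ one_pos⟩

theorem Api.chn1 (h : Api V g C Cf P T c t mv dim b) {y z : Rn 3} (hy : y ∈ V) (k : Nb t y z) :
    Chn V t 1 y z := ⟨y, hy, rfl, k⟩

theorem Api.chn (h : Api V g C Cf P T c t mv dim b) {k : ℕ} {y z : Rn 3} (hy : y ∈ V) (hz : z ∈ V)
    (e : Chn V t k y z) : T.l z ≤ C ^ k * T.l y ∧ T.l y ≤ C ^ k * T.l z ∧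
      ‖z - y‖ ≤ 2 * k * C ^ (k + 1) * T.l y := by
  induction k generalizing z with
  | zero =>
    obtain rfl : y = z := e
    simp
  | succ k ih =>
    obtain ⟨w, hw, h1, v, h2, h3⟩ := e
    obtain ⟨a1, a2, a3⟩ := ih hw h1
    have hC := h.C1
    have hC0 : 0 ≤ C := zero_le_one.trans hC
    have hk : 0 ≤ C ^ k := pow_nonneg hC0 k
    have b1 := h.star w hw z hz ⟨v, h2, h3⟩
    have b2 := h.star z hz w hw ⟨v, h3, h2⟩
    have b3 := h.bnr v w hw h2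
    have b4 := h.bnr v z hz h3
    have l1 := (h.l0 y hy).le
    have l2 := (h.l0 w hw).le
    refine ⟨b1.trans ?_, a2.trans ?_, ?_⟩
    · rw [pow_succ', mul_assoc]; exact mul_le_mul_of_nonneg_left a1 hC0
    · rw [pow_succ, mul_assoc]; exact mul_le_mul_of_nonneg_left b2 hk
    · have c1 : ‖z - y‖ ≤ ‖z - b v‖ + ‖w - b v‖ + ‖w - y‖ := by
        have e : z - y = (z - b v) - (w - b v) + (w - y) := by abel
        rw [e]
        exact (norm_add_le _ _).trans (add_le_add (norm_sub_le _ _) le_rfl)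
      have c2 : C * T.l z ≤ C * (C * T.l w) := mul_le_mul_of_nonneg_left b1 hC0
      have c3 : C * T.l w ≤ C * (C * T.l w) :=
        mul_le_mul_of_nonneg_left (le_mul_of_one_le_left l2 hC) hC0
      have c4 : C * (C * T.l w) ≤ C * (C * (C ^ k * T.l y)) :=
        mul_le_mul_of_nonneg_left (mul_le_mul_of_nonneg_left a1 hC0) hC0
      have c5 : 2 * k * C ^ (k + 1) * T.l y ≤ C * (2 * k * C ^ (k + 1) * T.l y) :=
        le_mul_of_one_le_left (by positivity) hC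
      have c6 : 2 * ((k + 1 : ℕ) : ℝ) * C ^ (k + 1 + 1) * T.l y =
          C * (2 * k * C ^ (k + 1) * T.l y) + 2 * (C * (C * (C ^ k * T.l y))) := by
        push_cast; ring
      linarith

end

end BEp
end
end

-- merged part: Pool.Agent.Work.MP_f0515e_an.P3.XFb1
section
/-! Global walls: fibres and nested slabs. -/

open Set Metric Filter Topology Function BEv
open scoped NNReal

noncomputable section
namespace BEp

variable {n m : ℕ}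

variable {ν ι : Type} {V : Set (Rn 3)} {g C : ℝ} {Cf : (Rn 3 ≃L[ℝ] Rn 3) → ℝ} {P : ι → Pc} {T : TS}
  {c : Rn 3 → ℝ} {t : ν → Rn 3 → ℝ} {mv : ν → Rn 3 → ℝ → Rn 3} {dim : ν → ℕ} {b : ν → Rn 3}
  {A A' : ν → Set ℝ} {ε ε' : ν → ℝ}

theorem XFb1_in (h : Api V g C Cf P T c t mv dim b) (hA : XLev g A ε) {v : ν} {a s : ℝ}
    (ha : a ∈ A v) (hs : |s - a| ≤ ε v) : s ∈ Ioo (0 : ℝ) 1 := by
  have := hA.inn v a ha
  have := h.g0.1
  have := abs_le.1 hs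
  constructor <;> linarith

theorem XFb1_abs (hA : XLev g A ε) (v : ν) (a : ℝ) {s : ℝ} (hs : s ∈ Icc (-1 : ℝ) 1) :
    |a + ε v * s - a| ≤ ε v := by
  rw [add_sub_cancel_left, abs_mul, abs_of_pos (hA.pos v)]
  exact mul_le_of_le_one_right (hA.pos v).le (abs_le.2 hs)

theorem XFb1_par {a a' E E' : ℝ} (hE : 0 < E) (e : |a' - a| + E' ≤ E) :
    |(a' - a) / E| + E' / E ≤ 1 := by
  rw [abs_div, abs_of_pos hE, ← add_div]
  exact (div_le_one hE).2 e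

theorem XFb1_mem {μ ρ u : ℝ} (h : |μ| + ρ ≤ 1) (hρ : 0 ≤ ρ) (hu : u ∈ Icc (-1 : ℝ) 1) :
    μ + ρ * u ∈ Icc (-1 : ℝ) 1 := by
  have h1 : |ρ * u| ≤ ρ := by
    rw [abs_mul, abs_of_nonneg hρ]
    exact mul_le_of_le_one_right hρ (abs_le.2 hu)
  exact abs_le.1 ((abs_add_le _ _).trans (by linarith))

theorem XFb1_sg {σ : ℝ} (hσ : σ = 1 ∨ σ = -1) (μ : ℝ) : |σ * μ| = |μ| := by
  rcases hσ with rfl | rfl <;> simp

theorem XFb1_J {d x x' μ ρ : ℝ} {Λ : ℝ → ℝ} {j : ℝ × ℝ} (hj : j ∈ Jv d Λ x) (h : |μ| + ρ ≤ 1)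
    (hρ : 0 < ρ) (hx : x' ≤ x * ρ) : (j.1 + j.2 * μ, j.2 * ρ) ∈ Jv d Λ x' := by
  obtain ⟨h1, h2, h3, h4⟩ := hj
  have k1 := mul_le_mul_of_nonneg_left h h1.le
  have k2 := mul_le_mul_of_nonneg_left (le_abs_self μ) h1.le
  have k3 := mul_le_mul_of_nonneg_left (neg_abs_le μ) h1.le
  refine ⟨mul_pos h1 hρ, by dsimp only; linarith, by dsimp only; linarith, fun s hs => ?_⟩
  have := abs_le.1 hs
  dsimp only at this
  have := mul_le_mul_of_nonneg_right (h4 s (abs_le.2 ⟨by linarith, by linarith⟩)) hρ.le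
  dsimp only
  linarith

theorem XFb1_near {a a' E E' J s z σ : ℝ} (hE : 0 < E) (hJ : 0 < J) (hσ : σ = 1 ∨ σ = -1)
    (h : |a + E * (σ * ((s - z) / J)) - a'| ≤ E') :
    |s - (z + J * (σ * ((a' - a) / E)))| ≤ J * (E' / E) := by
  have : s - (z + J * (σ * ((a' - a) / E))) =
      σ * (J / E * (a + E * (σ * ((s - z) / J)) - a')) := by
    rcases hσ with rfl | rfl <;> field_simp <;> ring
  rw [this, XFb1_sg hσ, abs_mul, abs_of_pos (div_pos hJ hE)]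
  exact (mul_le_mul_of_nonneg_left h (div_pos hJ hE).le).trans (le_of_eq (by ring))

theorem XFb1_gf (hA : XLev g A ε) (v : ν) (a a' : ℝ) (y : Rn 3) (s : ℝ) :
    gf mv ε' (v, a') y s = gf mv ε (v, a) y ((a' - a) / ε v + ε' v / ε v * s) := by
  have := (hA.pos v).ne'
  unfold gf
  congr 1
  field_simp
  ring

theorem XFb1_out {v : ν} {a a' : ℝ} (ha : a ∈ A v) (e : |a' - a| + ε' v ≤ ε v) {y : Rn 3}
    (hy : y ∈ gN V t A' ε' (v, a')) : y ∈ gN V t A ε (v, a) :=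
  ⟨hy.1, ha, (abs_sub_le _ a' _).trans (by linarith [hy.2.2])⟩

theorem XFb1_tri : IsCompact Tri := by
  refine (isCompact_Icc (a := (0 : Rn 2)) (b := 1)).of_isClosed_subset ?_ fun p hp => ⟨?_, ?_⟩
  · exact (isClosed_le continuous_const (continuous_apply 0)).inter
      ((isClosed_le (continuous_apply 0) (continuous_apply 1)).inter
        (isClosed_le (continuous_apply 1) continuous_const))
  · exact Fin.forall_fin_two.2 ⟨hp.1, hp.1.trans hp.2.1⟩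
  · exact Fin.forall_fin_two.2 ⟨hp.2.1.trans hp.2.2, hp.2.2⟩

theorem Api.gf_t (h : Api V g C Cf P T c t mv dim b) (hA : XLev g A ε) {ω : ν × ℝ} {y : Rn 3}
    (hy : y ∈ gN V t A ε ω) {s : ℝ} (hs : s ∈ Icc (-1 : ℝ) 1) : gf mv ε ω y s ∈ V ∧
      t ω.1 (gf mv ε ω y s) = ω.2 + ε ω.1 * s ∧ ∀ w, w ≠ ω.1 → t w (gf mv ε ω y s) = t w y := by
  exact h.mvt _ y hy.1 _ (XFb1_in h hA hy.2.1 hy.2.2) (XFb1_in h hA hy.2.1 (XFb1_abs hA _ _ hs))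

theorem Api.fib (h : Api V g C Cf P T c t mv dim b) (hA : XLev g A ε) (ω : ν × ℝ) :
    XFib (gN V t A ε ω) (gf mv ε ω) (gcr t ε ω) := by
  classical
  have e0 := hA.pos ω.1
  have mem : ∀ x ∈ gN V t A ε ω, ∀ s ∈ Icc (-1 : ℝ) 1, gf mv ε ω x s ∈ gN V t A ε ω :=
    fun x hx s hs => ⟨(h.gf_t hA hx hs).1, hx.2.1, by
      rw [(h.gf_t hA hx hs).2.1]
      exact XFb1_abs hA _ _ hs⟩
  refine ⟨fun x hx s hs => ⟨mem x hx s hs, ?_⟩, fun x hx => ?_, fun x hx s hs s' hs' => ?_,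
    fun x hx => ?_⟩
  · rw [gcr, (h.gf_t hA hx hs).2.1, add_sub_cancel_left, mul_div_cancel_left₀ _ e0.ne']
  · have m : gcr t ε ω x ∈ Icc (-1 : ℝ) 1 := ebas_div hx.2.2
    obtain ⟨k1, k2, k3⟩ := h.gf_t hA hx m
    refine ⟨m, h.ext _ k1 _ hx.1 fun w => ?_⟩
    by_cases e : w = ω.1
    · rw [e, k2, gcr, mul_div_cancel₀ _ e0.ne', add_sub_cancel]
    · exact k3 w e
  · obtain ⟨k1, k2, k3⟩ := h.gf_t hA (mem x hx s hs) hs'
    obtain ⟨l1, l2, l3⟩ := h.gf_t hA hx hs'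
    refine h.ext _ k1 _ l1 fun w => ?_
    by_cases e : w = ω.1
    · rw [e, k2, l2]
    · rw [k3 w e, l3 w e, (h.gf_t hA hx hs).2.2 w e]
  · obtain ⟨K, k1, k2, k3⟩ := h.lf2 ω.1
    have := isCompact_iff_compactSpace.1 k1
    have c1 : Continuous fun (y : K) (w : ν) => t w y := continuous_pi fun w =>
      (((h.ltp w).contOn h.opn).mono k2).comp_continuous continuous_subtype_val fun y => y.2
    have c2 := (c1.isClosedEmbedding fun y y' e =>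
      Subtype.ext (h.ext _ (k2 y.2) _ (k2 y'.2) (congrFun e))).isInducing
    have m : ∀ s : Icc (-1 : ℝ) 1, gf mv ε ω x s ∈ K := fun s =>
      k3 _ (mem x hx _ s.2).1 (XFb1_in h hA hx.2.1 (mem x hx _ s.2).2.2).1
    have c3 : Continuous fun s : Icc (-1 : ℝ) 1 => (⟨_, m s⟩ : K) := by
      refine c2.continuous_iff.2 (continuous_pi fun w => ?_)
      by_cases e : w = ω.1
      · exact (continuous_congr fun s => e ▸ (h.gf_t hA hx s.2).2.1).2 (by fun_prop)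
      · exact (continuous_congr fun s => (h.gf_t hA hx s.2).2.2 w e).2 continuous_const
    exact continuousOn_iff_continuous_domRestrict.2 (continuous_subtype_val.comp c3)

theorem Api.co (h : Api V g C Cf P T c t mv dim b) (hA : XLev g A ε) {ω : ν × ℝ} {y : Rn 3} :
    y ∈ Co (gN V t A ε ω) (gf mv ε ω) ↔ y ∈ V ∧ ω.2 ∈ A ω.1 ∧ t ω.1 y = ω.2 := by
  have z : (0 : ℝ) ∈ Icc (-1 : ℝ) 1 := by simp
  refine ⟨fun k => ⟨k.1.1, k.1.2.1, ?_⟩, fun k => ?_⟩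
  · have := (h.gf_t hA k.1 z).2.1
    rwa [k.2, mul_zero, add_zero] at this
  · have m : y ∈ gN V t A ε ω := ⟨k.1, k.2.1, by
      rw [k.2.2, sub_self, abs_zero]
      exact (hA.pos _).le⟩
    have := ((h.fib hA ω).self y m).2
    rw [gcr, k.2.2, sub_self, zero_div] at this
    exact ⟨m, this⟩

theorem XLev.uniq (hA : XLev g A ε) {ω ω' : ν × ℝ} {y : Rn 3} (h : y ∈ gN V t A ε ω)
    (h' : y ∈ gN V t A ε ω') (e : ω.1 = ω'.1) : ω = ω' := by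
  obtain ⟨v, a⟩ := ω
  obtain ⟨v', a'⟩ := ω'
  obtain rfl : v = v' := e
  have k := abs_le.1 h.2.2
  have k' := abs_le.1 h'.2.2
  dsimp only at k k'
  rcases lt_trichotomy a a' with o | o | o
  · linarith [hA.dis v a h.2.1 a' h'.2.1 o]
  · rw [o]
  · linarith [hA.dis v a' h'.2.1 a h.2.1 o]

theorem Nest.wall (hn : Nest A ε A' ε') {ω' : ν × ℝ} {y : Rn 3} (hy : y ∈ gN V t A' ε' ω') :
    ∃ a, y ∈ gN V t A ε (ω'.1, a) ∧ |ω'.2 - a| + ε' ω'.1 ≤ ε ω'.1 := by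
  obtain ⟨a, ha, e⟩ := hn _ _ hy.2.1
  exact ⟨a, XFb1_out ha e hy, e⟩

theorem Api.iw_nest (h : Api V g C Cf P T c t mv dim b) (hA : XLev g A ε) (hA' : XLev g A' ε')
    {v : ν} {a a' : ℝ} (ha : a ∈ A v) (e : |a' - a| + ε' v ≤ ε v) {S : Set (Rn 3)} {y : Rn 3}
    (hy : y ∈ gN V t A' ε' (v, a'))
    (hS : ∀ s ∈ Icc (-1 : ℝ) 1, gf mv ε (v, a) y s ∈ S) :
    ∀ s ∈ Icc (-1 : ℝ) 1, gf mv ε' (v, a') y s ∈ S := by
  intro s hs
  rw [XFb1_gf hA v a]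
  exact hS _ (XFb1_mem (XFb1_par (hA.pos v) e) (div_pos (hA'.pos v) (hA.pos v)).le hs)

theorem Api.gh_nest {κ : Type} {F J : κ → Set (Rn 3)} (h : Api V g C Cf P T c t mv dim b)
    (hA : XLev g A ε) (hA' : XLev g A' ε') (hn : Nest A ε A' ε') (e : GH V t mv A ε F J) :
    GH V t mv A' ε' F J := by
  refine ⟨fun i ω x hx hx' => ?_, fun i ω x hx hx' => ?_, fun i x hx ω ω' k k' => ?_⟩
  · obtain ⟨a, k1, k2⟩ := hn.wall hx'
    exact h.iw_nest hA hA' k1.2.1 k2 hx' (e.iF i _ x hx k1)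
  · obtain ⟨a, k1, k2⟩ := hn.wall hx'
    exact h.iw_nest hA hA' k1.2.1 k2 hx' (e.iJ i _ x hx k1)
  · obtain ⟨a, k1, -⟩ := hn.wall k
    obtain ⟨a', k2, -⟩ := hn.wall k'
    exact e.two i x hx (ω.1, a) (ω'.1, a') k1 k2

theorem Api.tc_nest (h : Api V g C Cf P T c t mv dim b) (hA : XLev g A ε) (hA' : XLev g A' ε')
    {v : ν} {a a' : ℝ} (e : |a' - a| + ε' v ≤ ε v) {y : Rn 3}
    (hy : y ∈ gN V t A' ε' (v, a')) {γ : ℝ → Rn 3} {s d x x' σ : ℝ} {Λ : ℝ → ℝ} (hs : γ s = y)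
    (hx : 0 ≤ x) (hx' : x' * ε v ≤ x * ε' v) {j : ℝ × ℝ} (hj : j ∈ Jv d Λ x) (ha : a ∈ A v)
    (hσ : σ = 1 ∨ σ = -1) (h1 : |s - j.1| ≤ j.2)
    (h2 : ∀ u ∈ Icc (-1 : ℝ) 1, γ (j.1 + j.2 * u) = gf mv ε (v, a) y (σ * u)) :
    ∃ j' ∈ Jv d Λ x', |s - j'.1| ≤ j'.2 ∧
      ∀ u ∈ Icc (-1 : ℝ) 1, γ (j'.1 + j'.2 * u) = gf mv ε' (v, a') y (σ * u) := by
  have e0 := hA.pos v
  have e1 := div_pos (hA'.pos v) e0
  have par := XFb1_par e0 e
  rw [← XFb1_sg hσ] at par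
  refine ⟨_, XFb1_J hj par e1 (by rw [← mul_div_assoc, le_div_iff₀ e0]; exact hx'),
    XFb1_near e0 hj.1 hσ ?_, fun u hu => ?_⟩
  · have k := h2 _ (ebas_div h1)
    rw [mul_div_cancel₀ _ hj.1.ne', add_sub_cancel, hs] at k
    have l := (h.gf_t hA (XFb1_out ha e hy) (ebas_sg hσ (ebas_div h1))).2.1
    rw [← k] at l
    exact l ▸ hy.2.2
  · have k := h2 _ (XFb1_mem par e1.le hu)
    rw [XFb1_gf hA v a]
    refine (congrArg γ (by ring)).trans (k.trans (congrArg _ ?_))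
    rcases hσ with rfl | rfl <;> ring

theorem Api.tameC_nest (h : Api V g C Cf P T c t mv dim b) (hA : XLev g A ε) (hA' : XLev g A' ε')
    (hn : Nest A ε A' ε') {O : Set (Rn 3)} {γ : ℝ → Rn 3} {d : ℝ} {Λ : ℝ → ℝ} {x x' : ν → ℝ}
    (hx : ∀ v, 0 ≤ x v) (hx' : ∀ v, (∃ a, (gN V t A' ε' (v, a) ∩ O).Nonempty) → x' v * ε v ≤ x v * ε' v)
    (e : TameC (fun ω => gN V t A ε ω ∩ O) (gf mv ε) γ fun ω => Jv d Λ (x ω.1)) :
    TameC (fun ω => gN V t A' ε' ω ∩ O) (gf mv ε') γ fun ω => Jv d Λ (x' ω.1) := by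
  rintro s hs ⟨v, a'⟩ hy
  obtain ⟨a, k1, k2⟩ := hn.wall hy.1
  obtain ⟨j, j1, σ, j2, j3, j4⟩ := e s hs (v, a) ⟨k1, hy.2⟩
  obtain ⟨j', l1, l2, l3⟩ := h.tc_nest hA hA' k2 hy.1 rfl (hx v) (hx' v ⟨a', _, hy⟩) j1 k1.2.1 j2
    j3 j4
  exact ⟨j', l1, σ, j2, l2, l3⟩

theorem Api.tame_nest (h : Api V g C Cf P T c t mv dim b) (hA : XLev g A ε) (hA' : XLev g A' ε')
    (hn : Nest A ε A' ε') {O : Set (Rn 3)} {k : Rn 2 → Rn 3} (hk : TP k) {d : ℝ} {Λ : ℝ → ℝ}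
    {x x' : ν → ℝ} (hV : ∀ p ∈ Tri, k p ∈ V) (hx : ∀ v, 0 ≤ x v)
    (hx' : ∀ v, (∃ a, (gN V t A' ε' (v, a) ∩ O).Nonempty) → x' v * ε v ≤ x v * ε' v)
    {𝒥 : ν × ℝ → Set (ℝ × ℝ)} (hf : (⋃ ω, 𝒥 ω).Finite) (hJ : ∀ ω, 𝒥 ω ⊆ Jv d Λ (x ω.1))
    (e : Tame (fun ω => gN V t A ε ω ∩ O) (gf mv ε) k 𝒥) :
    ∃ 𝒥' : ν × ℝ → Set (ℝ × ℝ), (⋃ ω, 𝒥' ω).Finite ∧ (∀ ω, 𝒥' ω ⊆ Jv d Λ (x' ω.1)) ∧
      Tame (fun ω => gN V t A' ε' ω ∩ O) (gf mv ε') k 𝒥' := by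
  have cK : IsCompact (k '' Tri) := XFb1_tri.image hk.continuous
  have fW := (h.lf1 _ cK (image_subset_iff.2 hV)).biUnion
    (t := fun v => (fun a => (v, a)) '' A' v) fun v _ => (hA'.fin v).image _
  refine ⟨fun ω => {j' | (∃ p ∈ Tri, k p ∈ gN V t A' ε' ω ∩ O) ∧ ∃ a ∈ A ω.1, ∃ σ ∈ ({1, -1} : Set ℝ),
    ∃ j ∈ 𝒥 (ω.1, a), |ω.2 - a| + ε' ω.1 ≤ ε ω.1 ∧
      j' = (j.1 + j.2 * (σ * ((ω.2 - a) / ε ω.1)), j.2 * (ε' ω.1 / ε ω.1))}, ?_, ?_, ?_⟩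
  · refine (fW.biUnion fun ω _ => (hA.fin ω.1).biUnion fun a _ =>
      (toFinite ({1, -1} : Set ℝ)).biUnion fun σ _ => hf.image fun j =>
        (j.1 + j.2 * (σ * ((ω.2 - a) / ε ω.1)), j.2 * (ε' ω.1 / ε ω.1))).subset ?_
    intro j' hj'
    obtain ⟨ω, ⟨p, p1, p2⟩, a, ha, σ, hσ, j, hj, -, rfl⟩ := mem_iUnion.1 hj'
    exact mem_biUnion (x := ω) (mem_biUnion (x := ω.1)
      ⟨_, ⟨p, p1, rfl⟩, (XFb1_in h hA' p2.1.2.1 p2.1.2.2).1⟩ ⟨ω.2, p2.1.2.1, rfl⟩)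
      (mem_biUnion ha (mem_biUnion hσ ⟨j, mem_iUnion.2 ⟨_, hj⟩, rfl⟩))
  · rintro ⟨v, a'⟩ _ ⟨⟨p, -, p2⟩, a, -, σ, hσ, j, hj, l, rfl⟩
    have par := XFb1_par (hA.pos v) l
    rw [← XFb1_sg hσ] at par
    exact XFb1_J (hJ _ hj) par (div_pos (hA'.pos v) (hA.pos v))
      (by rw [← mul_div_assoc, le_div_iff₀ (hA.pos v)]; exact hx' v ⟨a', _, p2⟩)
  · rintro p hp ⟨v, a'⟩ hy
    obtain ⟨a, k1, k2⟩ := hn.wall hy.1
    obtain ⟨j, j1, i, σ, j2, j3, j4⟩ := e p hp (v, a) ⟨k1, hy.2⟩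
    have j0 := (hJ _ j1).1
    have e0 := hA.pos v
    have e1 := hA'.pos v
    have l := (h.gf_t hA k1 (ebas_sg j2 (ebas_div j3))).2.1
    rw [j4] at l
    refine ⟨_, ⟨⟨p, hp, hy⟩, a, k1.2.1, σ, j2, j, j1, k2, rfl⟩, i, σ, j2,
      XFb1_near e0 j0 j2 (l ▸ hy.1.2.2), ?_⟩
    rw [XFb1_gf hA v a]
    refine (congrArg _ ?_).trans j4
    rcases j2 with rfl | rfl <;> field_simp <;> ring

end BEp
end
end

-- merged part: Pool.Agent.Work.MP_f0515e_an.P3.XFb2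
section
/-! Global walls, part 2: double walls, regions, Cantor subdivision of the slabs. -/

open Set Metric Filter Topology Function BEv
open scoped NNReal

noncomputable section
namespace BEp

variable {n m : ℕ}

variable {ν ι : Type} {V : Set (Rn 3)} {g C : ℝ} {Cf : (Rn 3 ≃L[ℝ] Rn 3) → ℝ} {P : ι → Pc} {T : TS}
  {c : Rn 3 → ℝ} {t : ν → Rn 3 → ℝ} {mv : ν → Rn 3 → ℝ → Rn 3} {dim : ν → ℕ} {b : ν → Rn 3}
  {A A' : ν → Set ℝ} {ε ε' : ν → ℝ}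

theorem XFb2_gf (h : Api V g C Cf P T c t mv dim b) (hA : XLev g A ε) {ω : ν × ℝ} {y : Rn 3}
    (hy : y ∈ gN V t A ε ω) {s : ℝ} (hs : s ∈ Icc (-1 : ℝ) 1) : gf mv ε ω y s ∈ V ∧
      t ω.1 (gf mv ε ω y s) = ω.2 + ε ω.1 * s ∧ ∀ w, w ≠ ω.1 → t w (gf mv ε ω y s) = t w y := by
  obtain ⟨h1, h2⟩ := hA.inn _ _ hy.2.1
  have h3 := abs_le.1 hy.2.2
  have h4 := hA.pos ω.1
  have h5 := h.g0.1
  exact h.mvt _ y hy.1 _ ⟨by linarith [h3.1], by linarith [h3.2]⟩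
    ⟨by nlinarith [hs.1], by nlinarith [hs.2]⟩

theorem XFb2_sq {X : Set (ℝ × ℝ)} (h : PC 1 X) {a a' e e' : ℝ} (he : 0 < e) (he' : 0 < e') :
    ¬ Icc (a - e) (a + e) ×ˢ Icc (a' - e') (a' + e') ⊆ X := by
  intro hX
  obtain ⟨S, h1, h2, h3⟩ := h
  have h4 : MeasureTheory.volume (⋃ Q ∈ S, (Q : Set (ℝ × ℝ))) = 0 := by
    refine (MeasureTheory.measure_biUnion_null_iff h1.countable).2 fun Q hQ => ?_
    refine MeasureTheory.Measure.addHaar_affineSubspace _ Q ?_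
    rintro rfl
    have h5 := h2 _ hQ
    rw [AffineSubspace.direction_top, finrank_top] at h5
    simp at h5
  have h5 : MeasureTheory.volume (Icc (a - e) (a + e) ×ˢ Icc (a' - e') (a' + e')) = 0 :=
    MeasureTheory.measure_mono_null (fun x hx => by
      obtain ⟨Q, hQ, e⟩ := h3 x (hX hx)
      exact mem_biUnion hQ e) h4
  rw [MeasureTheory.Measure.volume_eq_prod, MeasureTheory.Measure.prod_prod, Real.volume_Icc,
    Real.volume_Icc, mul_eq_zero, ENNReal.ofReal_eq_zero, ENNReal.ofReal_eq_zero] at h5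
  rcases h5 with h5 | h5 <;> linarith

theorem Api.two_of_pc (h : Api V g C Cf P T c t mv dim b) (hA : XLev g A ε) {S : Set (Rn 3)}
    (hS : IsCompact S) (hV : S ⊆ V) (hp : PC 1 S) (e : ∀ ω, Iw (gN V t A ε ω) (gf mv ε ω) S) :
    ∀ x ∈ S, ∀ ω ω', x ∈ gN V t A ε ω → x ∈ gN V t A ε ω' → ω.1 = ω'.1 := by
  intro x hx ω ω' h1 h2
  by_contra hne
  obtain ⟨u, hu, eu⟩ := h.ltp ω.1 S hS hV
  obtain ⟨u', hu', eu'⟩ := h.ltp ω'.1 S hS hV
  have p1 := hA.pos ω.1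
  have p2 := hA.pos ω'.1
  refine XFb2_sq (hp.image hS.isBounded (hu.prod hu')) (a := ω.2) (a' := ω'.2) p1 p2 ?_
  rintro ⟨p, q⟩ ⟨hp, hq⟩
  have s1 : (p - ω.2) / ε ω.1 ∈ Icc (-1 : ℝ) 1 :=
    ⟨by rw [le_div_iff₀ p1]; linarith [hp.1], by rw [div_le_iff₀ p1]; linarith [hp.2]⟩
  have s2 : (q - ω'.2) / ε ω'.1 ∈ Icc (-1 : ℝ) 1 :=
    ⟨by rw [le_div_iff₀ p2]; linarith [hq.1], by rw [div_le_iff₀ p2]; linarith [hq.2]⟩
  obtain ⟨a1, a2, a3⟩ := XFb2_gf h hA h1 s1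
  have y1 := e ω x hx h1 _ s1
  have y2 : gf mv ε ω x ((p - ω.2) / ε ω.1) ∈ gN V t A ε ω' :=
    ⟨a1, h2.2.1, by rw [a3 _ (Ne.symm hne)]; exact h2.2.2⟩
  obtain ⟨-, b2, b3⟩ := XFb2_gf h hA y2 s2
  have z1 := e ω' _ y1 y2 _ s2
  refine ⟨_, z1, Prod.ext ?_ ?_⟩
  · change u _ = p
    rw [← eu z1, b3 _ hne, a2]
    field_simp
    ring
  · change u' _ = q
    rw [← eu' z1, b2]
    field_simp
    ring

theorem Api.rg_conn (h : Api V g C Cf P T c t mv dim b) (hA : XLev g A ε) {σ D : Set ν}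
    {S : Set (Rn 3)} (hS : IsPreconnected S) (hV : S ⊆ V) (hne : (S ∩ Rg1 V t A ε σ D).Nonempty)
    (e : ∀ z ∈ S, ∀ ω : ν × ℝ, z ∈ gN V t A ε ω → ω.1 ∈ D) : S ⊆ Rg1 V t A ε σ D := by
  obtain ⟨z₀, h0, -, h1⟩ := hne
  intro z hz
  refine ⟨hV hz, fun v hv a ha => ?_⟩
  have hc : ContinuousOn (t v) S := ((h.ltp v).contOn h.opn).mono hV
  have hp := hA.pos v
  refine ⟨fun hσ => ?_, fun hσ => ?_⟩
  · by_contra hlt
    obtain ⟨y, hy, ey⟩ := hS.intermediate_value hz h0 hc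
      ⟨not_lt.1 hlt, ((h1 v hv a ha).1 hσ).le⟩
    exact hv (e y hy (v, a) ⟨hV hy, ha, by rw [ey, add_sub_cancel_left, abs_of_pos hp]⟩)
  · by_contra hlt
    obtain ⟨y, hy, ey⟩ := hS.intermediate_value h0 hz hc
      ⟨((h1 v hv a ha).2 hσ).le, not_lt.1 hlt⟩
    exact hv (e y hy (v, a) ⟨hV hy, ha, by rw [ey, sub_sub_cancel_left, abs_neg, abs_of_pos hp]⟩)

theorem XLev.half (hA : XLev g A fun v => 2 * ε v) : XLev g A ε ∧ Nest A (fun v => 2 * ε v) A ε := by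
  have hp : ∀ v, 0 < ε v := fun v => by linarith [hA.pos v]
  refine ⟨⟨hA.fin, hA.ne, hp, fun v a ha => ?_, fun v a ha a' ha' l => ?_⟩,
    fun v a ha => ⟨a, ha, ?_⟩⟩
  · obtain ⟨h1, h2⟩ := hA.inn v a ha
    constructor <;> linarith [hp v]
  · linarith [hp v, hA.dis v a ha a' ha' l]
  · rw [sub_self, abs_zero]
    linarith [hp v]

theorem XFb2_in {e : ℝ} (he : 0 < e) {i k : ℕ} (hk : k < 2 ^ i) :
    |e * (-1 + (2 * k + 1) / 2 ^ i)| + e * (1 / 2 ^ i) ≤ e := by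
  have h1 : (k : ℝ) + 1 ≤ 2 ^ i := by exact_mod_cast hk
  have h2 : (0 : ℝ) < 2 ^ i := by positivity
  have h3 : |(-1 + (2 * k + 1) / 2 ^ i : ℝ)| ≤ 1 - 1 / 2 ^ i := by
    have h4 : (0 : ℝ) ≤ k := Nat.cast_nonneg k
    have h5 : (1 : ℝ) / 2 ^ i ≤ (2 * k + 1) / 2 ^ i := by gcongr; linarith
    have h6 : (2 * k + 1 : ℝ) / 2 ^ i + 1 / 2 ^ i ≤ 2 := by
      rw [← add_div, div_le_iff₀ h2]
      linarith
    exact abs_le.2 ⟨by linarith, by linarith⟩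
  rw [abs_mul, abs_of_pos he]
  nlinarith

theorem XFb2_gap {a e : ℝ} (he : 0 < e) {i k k' : ℕ} (hk : k < k') :
    a + e * (-1 + (2 * k + 1) / 2 ^ i) + e * (1 / 2 ^ i) ≤
      a + e * (-1 + (2 * k' + 1) / 2 ^ i) - e * (1 / 2 ^ i) := by
  have h1 : (k : ℝ) + 1 ≤ k' := by exact_mod_cast hk
  have h2 : (2 * k + 1 : ℝ) / 2 ^ i + 1 / 2 ^ i ≤ (2 * k' + 1) / 2 ^ i - 1 / 2 ^ i := by
    rw [← add_div, ← sub_div]
    gcongr
    linarith
  nlinarith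

theorem XFb2_lt (hA : XLev g A ε) {v : ν} {a a' : ℝ} (ha : a ∈ A v) (ha' : a' ∈ A v) {i k k' : ℕ}
    (hk : k < 2 ^ i) (hk' : k' < 2 ^ i) (h : a < a' ∨ a = a' ∧ k < k') :
    a + ε v * (-1 + (2 * k + 1) / 2 ^ i) + ε v * (1 / 2 ^ i) ≤
      a' + ε v * (-1 + (2 * k' + 1) / 2 ^ i) - ε v * (1 / 2 ^ i) := by
  rcases h with h | ⟨rfl, h⟩
  · have h1 := XFb2_in (hA.pos v) hk
    have h2 := XFb2_in (hA.pos v) hk'
    linarith [hA.dis v a ha a' ha' h, le_abs_self (ε v * (-1 + (2 * k + 1) / 2 ^ i)),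
      neg_abs_le (ε v * (-1 + (2 * k' + 1) / 2 ^ i))]
  · exact XFb2_gap (hA.pos v) h

theorem XFb2_eq (A : ν → Set ℝ) (ε : ν → ℝ) (i : ν → ℕ) (v : ν) : cA A ε i v =
    (fun p : ℕ × ℝ => p.2 + ε v * (-1 + (2 * p.1 + 1) / 2 ^ i v)) '' (Iio (2 ^ i v) ×ˢ A v) := by
  ext x
  exact ⟨fun ⟨a, ha, k, hk, e⟩ => ⟨(k, a), ⟨hk, ha⟩, e.symm⟩,
    fun ⟨p, hp, e⟩ => ⟨p.2, hp.2, p.1, hp.1, e.symm⟩⟩

theorem can_lev (hA : XLev g A ε) {κ : ℝ} (h0 : 0 < κ) (h1 : κ < 1) {r i : ν → ℕ}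
    (hi : ∀ v, i v ≤ r v) : XLev g (cA A ε i) (cE ε κ r i) ∧ Nest A ε (cA A ε i) (cE ε κ r i) ∧
      Nest (cA A ε i) (cE ε κ r i) (cA A ε r) (cE ε κ r r) ∧
      (∀ v, (cA A ε i v).ncard = 2 ^ i v * (A v).ncard) ∧
      (∀ v, (1 - κ) / 2 ^ i v * ε v ≤ cE ε κ r i v) ∧
      ∀ v, (1 - κ) * 2 ^ i v / 2 ^ r v * cE ε κ r i v ≤ cE ε κ r r v := by
  have hp := hA.pos
  have e1 : ∀ v, cE ε κ r i v < ε v * (1 / 2 ^ i v) := fun v =>
    mul_lt_mul_of_pos_left (sub_lt_self _ (by positivity)) (hp v)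
  have e2 : ∀ v, (1 - κ) / 2 ^ i v * ε v ≤ cE ε κ r i v := fun v => by
    have : κ / 2 ^ r v ≤ κ / 2 ^ i v := by
      gcongr
      · exact one_le_two
      · exact hi v
    rw [mul_comm, sub_div]
    exact mul_le_mul_of_nonneg_left (by linarith) (hp v).le
  have e3 : ∀ v, 0 < cE ε κ r i v := fun v =>
    lt_of_lt_of_le (mul_pos (div_pos (sub_pos.2 h1) (by positivity)) (hp v)) (e2 v)
  have e4 : ∀ v, ∀ a ∈ A v, ∀ a' ∈ A v, ∀ k k' : ℕ,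
      (a < a' ∨ a = a' ∧ k < k') ∨ (a = a' ∧ k = k') ∨ (a' < a ∨ a' = a ∧ k' < k) := by
    intro v a _ a' _ k k'
    rcases lt_trichotomy a a' with l | l | l
    · exact Or.inl (Or.inl l)
    · rcases lt_trichotomy k k' with l' | l' | l'
      · exact Or.inl (Or.inr ⟨l, l'⟩)
      · exact Or.inr (Or.inl ⟨l, l'⟩)
      · exact Or.inr (Or.inr (Or.inr ⟨l.symm, l'⟩))
    · exact Or.inr (Or.inr (Or.inl l))
  refine ⟨⟨fun v => ?_, fun v => ?_, e3, ?_, ?_⟩, ?_, ?_, fun v => ?_, e2, fun v => ?_⟩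
  · rw [XFb2_eq]
    exact ((finite_Iio _).prod (hA.fin v)).image _
  · obtain ⟨a, ha⟩ := hA.ne v
    exact ⟨_, a, ha, 0, by positivity, rfl⟩
  · rintro v _ ⟨a, ha, k, hk, rfl⟩
    have h2 := XFb2_in (hp v) hk
    obtain ⟨h3, h4⟩ := hA.inn v a ha
    constructor <;> linarith [e1 v, le_abs_self (ε v * (-1 + (2 * k + 1) / 2 ^ i v)),
      neg_abs_le (ε v * (-1 + (2 * k + 1) / 2 ^ i v))]
  · rintro v _ ⟨a, ha, k, hk, rfl⟩ _ ⟨a', ha', k', hk', rfl⟩ l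
    rcases e4 v a ha a' ha' k k' with h | ⟨rfl, rfl⟩ | h
    · linarith [XFb2_lt hA ha ha' hk hk' h, e1 v]
    · exact absurd l (lt_irrefl _)
    · linarith [XFb2_lt hA ha' ha hk' hk h, e1 v, e3 v]
  · rintro v _ ⟨a, ha, k, hk, rfl⟩
    refine ⟨a, ha, ?_⟩
    rw [add_sub_cancel_left]
    linarith [XFb2_in (hp v) hk, e1 v]
  · rintro v _ ⟨a, ha, k, hk, rfl⟩
    obtain ⟨d, hd⟩ := Nat.exists_eq_add_of_le (hi v)
    have hM : 0 < 2 ^ d := by positivity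
    refine ⟨_, ⟨a, ha, k / 2 ^ d, ?_, rfl⟩, ?_⟩
    · rw [Nat.div_lt_iff_lt_mul hM, ← pow_add, ← hd]
      exact hk
    have h2 : ((2 : ℝ) ^ d) * (k / 2 ^ d : ℕ) + (k % 2 ^ d : ℕ) = k := by
      exact_mod_cast Nat.div_add_mod k (2 ^ d)
    have h3 := XFb2_in (hp v) (Nat.mod_lt k hM)
    have h4 : a + ε v * (-1 + (2 * k + 1) / 2 ^ r v) -
        (a + ε v * (-1 + (2 * (k / 2 ^ d : ℕ) + 1) / 2 ^ i v)) =
        1 / 2 ^ i v * (ε v * (-1 + (2 * (k % 2 ^ d : ℕ) + 1) / 2 ^ d)) := by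
      rw [← h2, hd, pow_add]
      field_simp
      ring
    have h5 : ε v * (1 / 2 ^ r v) = 1 / 2 ^ i v * (ε v * (1 / 2 ^ d)) := by
      rw [hd, pow_add]
      field_simp
    have h6 := mul_le_mul_of_nonneg_left h3 (by positivity : (0 : ℝ) ≤ 1 / 2 ^ i v)
    rw [h4, abs_mul, abs_of_pos (by positivity : (0 : ℝ) < 1 / 2 ^ i v)]
    unfold cE
    linarith
  · rw [XFb2_eq, InjOn.ncard_image, ncard_prod, ncard_Iio_nat]
    rintro ⟨k, a⟩ ⟨hk, ha⟩ ⟨k', a'⟩ ⟨hk', ha'⟩ e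
    have h2 : 0 < ε v * (1 / 2 ^ i v) := mul_pos (hp v) (by positivity)
    dsimp only at e
    rcases e4 v a ha a' ha' k k' with h | ⟨rfl, rfl⟩ | h
    · linarith [XFb2_lt hA ha ha' hk hk' h]
    · rfl
    · linarith [XFb2_lt hA ha' ha hk' hk h]
  · have h2 : (1 - κ) * 2 ^ i v / 2 ^ r v * (ε v * (1 / 2 ^ i v)) = cE ε κ r r v := by
      unfold cE
      field_simp
    rw [← h2]
    exact mul_le_mul_of_nonneg_left (e1 v).le
      (div_nonneg (mul_nonneg (sub_pos.2 h1).le (by positivity)) (by positivity))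

end BEp
end
end

-- merged part: Pool.Agent.Work.MP_f0515e_an.P3.XHpA1
section
/-! Handle position in one double zone: `ht1`, `ht2` in the chart of the box. -/

open Set Metric Filter Topology Function BEv
open scoped NNReal

noncomputable section
namespace BEp

variable {ν ι : Type} {V : Set (Rn 3)} {g C : ℝ} {Cf : (Rn 3 ≃L[ℝ] Rn 3) → ℝ} {P : ι → Pc} {T : TS}
  {c : Rn 3 → ℝ} {t : ν → Rn 3 → ℝ} {mv : ν → Rn 3 → ℝ → Rn 3} {dim : ν → ℕ} {b : ν → Rn 3}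
  {μ : Type} {S : μ → Set (Rn 3)}

theorem XA1_ptn {σ D : Set ν} {r r' : ℝ} {y : Rn 3} (h : Ptn t σ D r y) (k : r ≤ r') :
    Ptn t σ D r' y :=
  fun v hv => ⟨fun m => by linarith [(h v hv).1 m], fun m => ((h v hv).2 m).trans k⟩

theorem XA1_cpt (g : ℝ) : IsCompact (mBox g) := by
  have e : mBox g = Icc ![g / 8, g / 8, -(g / 4)] ![1 - g / 8, 1 - g / 8, g / 4] := by
    ext x
    refine ⟨fun h => ⟨fun i => ?_, fun i => ?_⟩, fun h =>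
      ⟨⟨h.1 0, h.2 0⟩, ⟨h.1 1, h.2 1⟩, abs_le.2 ⟨h.1 2, h.2 2⟩⟩⟩
    · fin_cases i
      exacts [h.1.1, h.2.1.1, (abs_le.1 h.2.2).1]
    · fin_cases i
      exacts [h.1.2, h.2.1.2, (abs_le.1 h.2.2).2]
  exact e ▸ isCompact_Icc

/-- The flat square at height zero. -/
def XA1_sq : Set (Rn 3) := lay (closedBall 0 1) 0

theorem XA1_poly : Poly XA1_sq ∧ PC 2 XA1_sq := by
  refine ⟨poly_lay (Poly.closedBall 0 1) 0, ?_⟩
  have k : PC 2 (closedBall (0 : Rn 2) 1) :=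
    ⟨{⊤}, finite_singleton _, fun P _ => (Submodule.finrank_le _).trans (by simp),
      fun x _ => ⟨⊤, rfl, trivial⟩⟩
  exact (k.image isBounded_closedBall (tp_lay 0)).mono (lay_eq _ _).subset

theorem XA1_mem {x : Rn 3} (h0 : |x 0| ≤ 1) (h1 : |x 1| ≤ 1) (h2 : x 2 = 0) : x ∈ XA1_sq := by
  refine ⟨mem_closedBall_zero_iff.2 ((pi_norm_le_iff_of_nonneg zero_le_one).2 fun i => ?_), h2⟩
  fin_cases i
  exacts [h0, h1]

/-- Uniform continuity of all coordinates in the chart. -/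
theorem XA1_unif (h : Api V g C Cf P T c t mv dim b) {χ : Rn 3 → Rn 3} (hχ : Continuous χ)
    (hm : ∀ x ∈ mBox g, χ x ∈ V) {ρ : ℝ} (hρ : 0 < ρ) : ∃ δ > 0, ∀ x ∈ mBox g, ∀ x' ∈ mBox g,
      ‖x' - x‖ ≤ δ → ∀ v, |t v (χ x') - t v (χ x)| ≤ ρ := by
  have hK : χ '' mBox g ⊆ V := by
    rintro _ ⟨x, hx, rfl⟩
    exact hm x hx
  have hf := h.lf1 _ ((XA1_cpt g).image hχ) hK
  have u : ∀ v, ∀ᶠ δ in 𝓝[>] (0 : ℝ), ∀ x ∈ mBox g, ∀ x' ∈ mBox g, ‖x' - x‖ ≤ δ →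
      |t v (χ x') - t v (χ x)| ≤ ρ := fun v => by
    obtain ⟨δ, d0, d1⟩ := Metric.uniformContinuousOn_iff_le.1
      ((XA1_cpt g).uniformContinuousOn_of_continuous
        (((h.ltp v).contOn h.opn).comp hχ.continuousOn hm)) ρ hρ
    filter_upwards [Ioo_mem_nhdsGT d0] with s hs x hx x' hx' e
    exact d1 x' hx' x hx (by rw [dist_eq_norm]; exact e.trans hs.2.le)
  obtain ⟨δ, d0, d1⟩ := ((eventually_mem_nhdsWithin (s := Ioi (0 : ℝ))).and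
    ((eventually_all_finite hf).2 fun v _ => u v)).exists
  refine ⟨δ, d0, fun x hx x' hx' e v => ?_⟩
  by_cases k : ∃ y ∈ χ '' mBox g, 0 < t v y
  · exact d1 v k x hx x' hx' e
  · have z : ∀ x ∈ mBox g, t v (χ x) = 0 := fun x hx => le_antisymm
      (not_lt.1 fun l => k ⟨_, mem_image_of_mem _ hx, l⟩) (h.t01 v _ (hm x hx)).1
    rw [z x hx, z x' hx', sub_self, abs_zero]
    exact hρ.le

/-- A point of a small set in the box is close to the square. -/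
theorem XA1_sma (hg : 0 < g ∧ g ≤ 1 / 8) {Z : Set (Rn 3)} (hs : Sma t (g / 32) Z) {σ : Set ν}
    {j k : ν} (hjk : j ≠ k) {z : Rn 3} (hz : z ∈ Z) (hj : t j z ∈ Icc (g / 8) (1 - g / 8))
    (hk : t k z ∈ Icc (g / 8) (1 - g / 8)) (hp : Ptn t σ {j, k} (g / 4) z) :
    Ptn t σ {j, k} (g / 32) z := by
  obtain ⟨⟨j', k', a⟩, -⟩ := hs
  have m : ∀ v, t v z ∈ Icc (g / 8) (1 - g / 8) → v = j' ∨ v = k' := fun v hv => by
    by_contra l
    rcases min_le_iff.1 (a v (not_or.1 l).1 (not_or.1 l).2 z hz) with r | r <;>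
      linarith [hv.1, hv.2, hg.1]
  intro v hv
  have n := not_or.1 hv
  have d : dev (t v z) ≤ g / 32 := by
    rcases m j hj with rfl | rfl <;> rcases m k hk with rfl | rfl
    exacts [(hjk rfl).elim, a v n.1 n.2 z hz, a v n.2 n.1 z hz, (hjk rfl).elim]
  refine ⟨fun l => ?_, fun l => ?_⟩
  · rcases min_le_iff.1 d with r | r <;> linarith [(hp v hv).1 l, hg.1, hg.2]
  · rcases min_le_iff.1 d with r | r <;> linarith [(hp v hv).2 l, hg.1, hg.2]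

theorem XA1_main (h : Api V g C Cf P T c t mv dim b) (hS : SFm V S)
    (hs : ∀ i, Sma t (g / 32) (S i)) {σ : Set ν} {j k : ν} (hjk : j ≠ k)
    (hne : (sBox V t σ j k (g / 4) (g / 8)).Nonempty) :
    ∃ 𝓛 : Set (ℝ × ℝ × ℝ), 𝓛.Finite ∧ (∀ l ∈ 𝓛, l.1 ≠ 0 ∨ l.2.1 ≠ 0) ∧
      ∀ a ∈ Ioo g (1 - g), ∀ a' ∈ Ioo g (1 - g), (∀ l ∈ 𝓛, l.1 * a + l.2.1 * a' ≠ l.2.2) →
      ∀ ρ > 0, ∃ ε > 0, ∃ Φ,
        Mv {y | y ∈ sBox V t σ j k (g / 4) (g / 8) ∧ |t j y - a| < ρ ∧ |t k y - a'| < ρ} Φ ∧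
        (∀ y ∈ V, t j (Φ y) = t j y ∧ t k (Φ y) = t k y ∧ (∀ v, |t v (Φ y) - t v y| ≤ ρ) ∧
          (y ∈ BP P ∨ Φ y ∈ BP P → XEq t y (Φ y))) ∧
        ∀ i, ∀ z ∈ Φ '' S i, z ∈ sBox V t σ j k (g / 4) (g / 8) → |t j z - a| ≤ ε →
          |t k z - a'| ≤ ε → ∀ s, (|s - a| ≤ ε → mv j z s ∈ Φ '' S i) ∧
            (|s - a'| ≤ ε → mv k z s ∈ Φ '' S i) := by
  have g0 := h.g0
  have io : ∀ {s : ℝ}, s ∈ Ioo (g / 4) (1 - g / 4) → s ∈ Icc (g / 8) (1 - g / 8) := fun hs =>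
    ⟨by linarith [hs.1], by linarith [hs.2]⟩
  obtain ⟨y0, y1, y2, y3, r0, y4, y5⟩ := hne
  obtain ⟨χ, hχ, B1, B2, B3, B4⟩ := h.box σ j k hjk y0 y1 (io y2) (io y3) (XA1_ptn y5 (by linarith))
  have hK : χ '' mBox g ⊆ V := by
    rintro _ ⟨x, hx, rfl⟩
    exact (B1 x hx).1
  have hI := hS.lf _ ((XA1_cpt g).image hχ.tp.continuous) hK
  have low : ∀ i, ∀ x ∈ mBox g, χ x ∈ S i → |x 2| ≤ g / 32 := fun i x hx hi => by
    obtain ⟨a1, a2, a3, a4, -⟩ := B1 x hx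
    obtain ⟨x', -, e1, e2⟩ := B2 _ a1 (g / 32) (by linarith) (a2 ▸ hx.1) (a3 ▸ hx.2.1)
      (XA1_sma g0 (hs i) hjk hi (a2 ▸ hx.1) (a3 ▸ hx.2.1) (XA1_ptn a4 hx.2.2))
    exact hχ.inj e2 ▸ e1
  obtain ⟨𝒬, hQ⟩ : ∃ 𝒬 : Set (Set (Rn 3)), 𝒬 = insert XA1_sq
      ((fun i => invFun χ '' S i) '' {i | (S i ∩ χ '' mBox g).Nonempty}) := ⟨_, rfl⟩
  have q1 : 𝒬.Finite := hQ ▸ (hI.image _).insert _
  have q2 : ∀ Z ∈ 𝒬, Poly Z ∧ PC 2 Z := by
    rw [hQ]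
    rintro _ (rfl | ⟨i, -, rfl⟩)
    · exact XA1_poly
    · exact ⟨(hS.poly i).1.image hχ.tpi, (hS.poly i).2.image (hS.poly i).1.1.isBounded hχ.tpi⟩
  have q3 : ∀ Z ∈ 𝒬, ∀ x ∈ Z, x ∈ mBox g → |x 2| ≤ g / 32 := by
    rw [hQ]
    rintro _ (rfl | ⟨i, -, rfl⟩) x hx hx'
    · rw [hx.2, abs_zero]
      linarith
    · obtain ⟨w, hw, rfl⟩ := hx
      exact low i _ hx' ((hχ.ri w).symm ▸ hw)
  obtain ⟨𝓛, L1, L2, L3⟩ := ht1 q1 q2
  refine ⟨𝓛, L1, L2, fun a ha a' ha' hl ρ hρ => ?_⟩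
  obtain ⟨δ, d0, d1⟩ := XA1_unif h hχ.tp.continuous (fun x hx => (B1 x hx).1) hρ
  obtain ⟨ρ', r0, r1, r2, r3⟩ : ∃ ρ' > 0, ρ' ≤ ρ ∧ ρ' ≤ δ ∧ ρ' ≤ g / 2 :=
    ⟨min ρ (min δ (g / 2)), lt_min hρ (lt_min d0 (by linarith)), min_le_left _ _,
      (min_le_right _ _).trans (min_le_left _ _), (min_le_right _ _).trans (min_le_right _ _)⟩
  have nr : ∀ {p s : ℝ}, p ∈ Ioo g (1 - g) → |s - p| ≤ g / 2 → s ∈ Ioo (g / 4) (1 - g / 4) :=
    fun hp hs => ⟨by linarith [hp.1, (abs_le.1 hs).1], by linarith [hp.2, (abs_le.1 hs).2]⟩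
  obtain ⟨ε, e0, Φ, F1, F2, -, F3, F4⟩ := ht2 q1 (fun Z hZ => (q2 Z hZ).1.1.isClosed)
    (L3 a a' hl) (u := -(g / 8)) (v := g / 8) (by linarith) r0 (fun z hz => by
      have key : ∀ Z ∈ 𝒬, ∀ y ∈ ball (![a, a', z] : Rn 3) (g / 16), y ∉ Z := fun Z hZ y hy k => by
        have n := mem_ball_iff_norm.1 hy
        have n0 : |y 0 - a| < g / 16 := (norm_le_pi_norm (y - ![a, a', z]) 0).trans_lt n
        have n1 : |y 1 - a'| < g / 16 := (norm_le_pi_norm (y - ![a, a', z]) 1).trans_lt n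
        have n2 := abs_lt.1 (show |y 2 - z| < g / 16 from
          (norm_le_pi_norm (y - ![a, a', z]) 2).trans_lt n)
        have n3 := abs_le.1 (q3 Z hZ y k ⟨io (nr ha (by linarith)), io (nr ha' (by linarith)),
          abs_le.2 (by rcases hz with rfl | rfl <;> constructor <;> linarith)⟩)
        rcases hz with rfl | rfl <;> linarith
      exact ⟨g / 16, by linarith, fun Z hZ => ⟨fun y hy _ _ k => (key Z hZ y hy k).elim,
        fun y hy _ _ k => (key Z hZ y hy k).elim⟩⟩)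
  obtain ⟨W, hW⟩ : ∃ W : Set (Rn 3),
      W = {x | |x 0 - a| < ρ' ∧ |x 1 - a'| < ρ' ∧ -(g / 8) < x 2 ∧ x 2 < g / 8} := ⟨_, rfl⟩
  rw [← hW] at F1
  have w1 : ∀ x ∈ W, x ∈ mBox g := fun x hx => by
    rw [hW] at hx
    exact ⟨io (nr ha (hx.1.le.trans r3)), io (nr ha' (hx.2.1.le.trans r3)),
      abs_le.2 ⟨by linarith [hx.2.2.1], by linarith [hx.2.2.2]⟩⟩
  have w2 : ∀ x ∈ W, Φ x ∈ W := fun x hx => F1.image_eq subset_rfl ▸ mem_image_of_mem Φ hx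
  have ab : ∀ {s : ℝ}, s ∈ Icc (g / 8) (1 - g / 8) → |s| ≤ 1 := fun hs =>
    abs_le.2 ⟨by linarith [hs.1], by linarith [hs.2]⟩
  have w3 : Φ '' XA1_sq = XA1_sq := F4 _ (hQ ▸ mem_insert _ _) fun x hx y _ _ a1 a2 _ _ a3 =>
    XA1_mem (ab (io (nr ha (a1.le.trans r3)))) (ab (io (nr ha' (a2.le.trans r3)))) (a3.trans hx.2)
  have w4 : ∀ x ∈ W, (x 2 = 0 ↔ Φ x 2 = 0) := fun x hx => by
    refine ⟨fun e => ?_, fun e => ?_⟩
    · exact (w3.subset (mem_image_of_mem Φ (XA1_mem (ab (w1 x hx).1) (ab (w1 x hx).2.1) e))).2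
    · obtain ⟨x', a1, a2⟩ := w3.symm.subset
        (XA1_mem (ab (w1 _ (w2 x hx)).1) (ab (w1 _ (w2 x hx)).2.1) e)
      exact F1.1.inj a2 ▸ a1.2
  refine ⟨min ε (g / 2), lt_min e0 (by linarith), χ ∘ Φ ∘ invFun χ, (F1.conj hχ).mono ?_,
    fun y hy => ?_, ?_⟩
  · rintro _ ⟨x, hx, rfl⟩
    obtain ⟨a1, a2, a3, a4, -⟩ := B1 x (w1 x hx)
    rw [hW] at hx
    refine ⟨⟨a1, a2 ▸ nr ha (hx.1.le.trans r3), a3 ▸ nr ha' (hx.2.1.le.trans r3), |x 2|,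
      abs_lt.2 hx.2.2, a4⟩, a2 ▸ hx.1.trans_le r1, a3 ▸ hx.2.1.trans_le r1⟩
  · by_cases k : y ∈ χ '' W
    · obtain ⟨x, hx, rfl⟩ := k
      have m := w1 x hx
      have m' := w1 _ (w2 x hx)
      rw [comp_apply, comp_apply, hχ.li]
      refine ⟨by rw [(B1 _ m').2.1, (B1 _ m).2.1, (F2 x).1],
        by rw [(B1 _ m').2.2.1, (B1 _ m).2.2.1, (F2 x).2.1],
        d1 x m _ m' ((F2 x).2.2.trans r2), fun l => ?_⟩
      rcases B4 with B4 | B4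
      · exact l.elim (fun l => (B4 _ m l).elim) fun l => (B4 _ m' l).elim
      · have z : x 2 = 0 := l.elim (B4 _ m).1 fun l => (w4 x hx).2 ((B4 _ m').1 l)
        exact B3 _ m _ m' z ((w4 x hx).1 z)
    · rw [(F1.conj hχ).2 y k]
      exact ⟨rfl, rfl, fun v => by rw [sub_self, abs_zero]; exact hρ.le, fun _ _ => Iff.rfl⟩
  · rintro i z ⟨w, hw, e⟩ ⟨z1, z2, z3, r, z4, z5⟩ c1 c2 s
    obtain ⟨x, m, x1, rfl⟩ := B2 z z1 r (by linarith) (io z2) (io z3) z5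
    obtain ⟨-, a2, a3, -, a5⟩ := B1 x m
    have e' : Φ (invFun χ w) = x := hχ.inj e
    have iI : invFun χ '' S i ∈ 𝒬 := by
      refine hQ ▸ Or.inr ⟨i, ⟨w, hw, invFun χ w, ?_, hχ.ri w⟩, rfl⟩
      by_cases k : invFun χ w ∈ W
      · exact w1 _ k
      · exact (F1.2 _ k).symm.trans e' ▸ m
    rw [a2] at c1 z2
    rw [a3] at c2 z3
    have x2 := abs_le.1 (x1.trans z4.le)
    have key : ∀ y : Rn 3, |y 0 - a| ≤ min ε (g / 2) → |y 1 - a'| ≤ min ε (g / 2) → y 2 = x 2 →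
        ∀ p ∈ V, t j p = y 0 → t k p = y 1 → (∀ v, v ≠ j → v ≠ k → t v p = t v (χ x)) →
          p ∈ (χ ∘ Φ ∘ invFun χ) '' S i := fun y b1 b2 b3 p p1 p2 p3 p4 => by
      have my : y ∈ mBox g := ⟨io (nr ha (b1.trans (min_le_right _ _))),
        io (nr ha' (b2.trans (min_le_right _ _))), b3 ▸ m.2.2⟩
      obtain ⟨_, ⟨w', hw', rfl⟩, e2⟩ := F3 _ iI x ⟨_, mem_image_of_mem _ hw, e'⟩ y
        (c1.trans (min_le_left _ _)) (c2.trans (min_le_left _ _)) (b1.trans (min_le_left _ _))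
        (b2.trans (min_le_left _ _)) x2.1 x2.2 b3
      refine ⟨w', hw', (congrArg χ e2).trans (h.ext _ (B1 y my).1 p p1 fun v => ?_)⟩
      by_cases v1 : v = j
      · rw [v1, p2, (B1 y my).2.1]
      by_cases v2 : v = k
      · rw [v2, p3, (B1 y my).2.2.1]
      rw [p4 v v1 v2, a5 y my b3 v v1 v2]
    have i1 : ∀ {s : ℝ}, s ∈ Ioo (g / 4) (1 - g / 4) → s ∈ Ioo (0 : ℝ) 1 := fun hs =>
      ⟨by linarith [hs.1], by linarith [hs.2]⟩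
    refine ⟨fun l => ?_, fun l => ?_⟩
    · obtain ⟨m1, m2, m3⟩ := h.mvt j _ z1 s (a2 ▸ i1 z2) (i1 (nr ha (l.trans (min_le_right _ _))))
      exact key ![s, x 1, x 2] l c2 rfl _ m1 m2 ((m3 k hjk.symm).trans a3) fun v v1 _ => m3 v v1
    · obtain ⟨m1, m2, m3⟩ := h.mvt k _ z1 s (a3 ▸ i1 z3) (i1 (nr ha' (l.trans (min_le_right _ _))))
      exact key ![x 0, s, x 2] c1 l rfl _ m1 ((m3 j hjk).trans a2) m2 fun v _ v2 => m3 v v2

end BEp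
end
end
end

-- merged part: Pool.Agent.Work.MP_f0515e_an.P3.XExt
section
/-! Reparametrisation of a complex cell by cell. `erp_exists`: choose an orientation of each edge (`dm_one`, `Edge.uniq`). `ERp.bd`: the boundary of a face is a finite union of closed edges (`faces_finite`, `exists_facet`, `Edge.inter`), `tp_glue_fin`.
`xcell_ext`: on the other faces `PCel.ext` (`pdsc`), glue on the boundary of each top cell (`cl_inter`, `tp_glue_fin`), `PCel.ext` with `ball` and `Ball.cel`; define `R'` on each open cell by the map of this cell; `ltp_of_cells`. About 350 lines. -/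

open Set Metric Filter Topology Function BEv
open scoped NNReal

noncomputable section
namespace BEp

variable {n m : ℕ}

variable {Ω : Set (Rn 3)} {K : Kx Ω} {R : Rn 3 → Rn 3}

/-- The map is piecewise affine on the closed cell and permutes the open cell. -/
def XExt_Gd (R : Rn 3 → Rn 3) (σ : Set (Rn 3)) : Prop :=
  (∃ u, TP u ∧ EqOn R u (closure σ)) ∧ BijOn R σ σ

theorem XExt_diff {α : Type} {g : α → α} {A B : Set α} (hA : BijOn g A A) (hs : B ⊆ A)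
    (hB : BijOn g (A \ B) (A \ B)) : BijOn g B B := by
  refine ⟨fun x hx => ?_, hA.injOn.mono hs, fun y hy => ?_⟩
  · by_contra k
    obtain ⟨x', h1, h2⟩ := hB.surjOn ⟨hA.mapsTo (hs hx), k⟩
    exact h1.2 (hA.injOn h1.1 (hs hx) h2 ▸ hx)
  · obtain ⟨x, h1, rfl⟩ := hA.surjOn (hs hy)
    by_contra k
    exact (hB.mapsTo ⟨h1, fun k' => k (mem_image_of_mem _ k')⟩).2 hy

/-- The boundary of a cell is the finite disjoint union of the proper faces. -/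
theorem XExt_bd {σ : Set (Rn 3)} (hσ : σ ∈ K.cells)
    (h : ∀ τ ∈ K.cells, dm τ < dm σ → XExt_Gd R τ) :
    (∃ u, TP u ∧ EqOn R u (closure σ \ σ)) ∧ BijOn R (closure σ \ σ) (closure σ \ σ) := by
  have k : ∀ x ∈ closure σ \ σ, K.cell x ∈ K.cells ∧ x ∈ K.cell x ∧ K.cell x ⊆ closure σ \ σ ∧
      XExt_Gd R (K.cell x) := fun x hx => by
    obtain ⟨a1, a2, a3⟩ := Kx.KA3_face hσ hx.1
    exact ⟨a1, a2, fun y hy => ⟨a3 hy, fun k => hx.2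
      (((Kx.cell_eq a1 hy).symm.trans (Kx.cell_eq hσ k)) ▸ a2)⟩, h _ a1 (Kx.dm_rb hσ hx)⟩
  refine ⟨?_, fun x hx => (k x hx).2.2.1 ((k x hx).2.2.2.2.mapsTo (k x hx).2.1),
    fun x hx y hy e => ?_, fun y hy => ?_⟩
  · choose! u u1 u2 using fun τ (hτ : τ ∈ K.cell '' (closure σ \ σ)) =>
      show ∃ u, TP u ∧ EqOn R u (closure τ) by
        obtain ⟨x, hx, rfl⟩ := hτ
        exact (k x hx).2.2.2.1
    obtain ⟨g, g1, g2⟩ := tp_glue_fin (S := K.cell '' (closure σ \ σ)) (X := closure)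
      ((Kx.faces_finite hσ).subset (by
        rintro _ ⟨x, hx, rfl⟩
        exact ⟨(k x hx).1, (k x hx).2.2.1.trans diff_subset⟩))
      (by
        rintro _ ⟨x, hx, rfl⟩
        exact Kx.cells_poly (k x hx).1) u1
      fun τ hτ τ' hτ' x hx => (u2 τ hτ hx.1).symm.trans (u2 τ' hτ' hx.2)
    exact ⟨g, g1, fun x hx => (u2 _ (mem_image_of_mem _ hx) (subset_closure (k x hx).2.1)).trans
      (g2 _ (mem_image_of_mem _ hx) (subset_closure (k x hx).2.1)).symm⟩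
  · obtain ⟨a1, a2, -, a3⟩ := k x hx
    obtain ⟨b1, b2, -, b3⟩ := k y hy
    have e' : K.cell x = K.cell y :=
      (Kx.cell_eq a1 (a3.2.mapsTo a2)).symm.trans (e ▸ Kx.cell_eq b1 (b3.2.mapsTo b2))
    exact a3.2.injOn a2 (e' ▸ b2) e
  · obtain ⟨-, b2, b3, b4⟩ := k y hy
    exact image_mono b3 (b4.2.surjOn b2)

/-- Extension over the cells of the next dimension. -/
theorem XExt_step {d : ℕ} (h : ∀ τ ∈ K.cells, dm τ ≤ d → XExt_Gd R τ)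
    {g : Set (Rn 3) → Rn 3 → Rn 3} (hg : ∀ σ ∈ K.cel (d + 1), TP (g σ) ∧
      BijOn (g σ) (closure σ) (closure σ) ∧ EqOn (g σ) R (closure σ \ σ)) :
    ∃ R', (∀ τ ∈ K.cells, dm τ ≤ d + 1 → XExt_Gd R' τ) ∧ EqOn R' R (K.sk d) ∧
      ∀ σ ∈ K.cel (d + 1), EqOn R' (g σ) (closure σ) := by
  obtain ⟨R', hR⟩ : ∃ R' : Rn 3 → Rn 3,
      ∀ x, R' x = if dm (K.cell x) = d + 1 then g (K.cell x) x else R x := ⟨_, fun _ => rfl⟩
  have e1 : EqOn R' R (K.sk d) := fun x hx => (hR x).trans (if_neg (by have := hx.2; omega))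
  have e2 : ∀ σ ∈ K.cel (d + 1), EqOn R' (g σ) (closure σ) := fun σ hσ x hx => by
    by_cases k : x ∈ σ
    · rw [hR, Kx.cell_eq hσ.1 k, if_pos hσ.2]
    · exact (e1 (Kx.rb_sub_sk hσ.1 hσ.2.le ⟨hx, k⟩)).trans ((hg σ hσ).2.2 ⟨hx, k⟩).symm
  refine ⟨R', fun τ hτ hd => ?_, e1, e2⟩
  rcases hd.eq_or_lt with k | k
  · obtain ⟨a1, a2, a3⟩ := hg τ ⟨hτ, k⟩
    refine ⟨⟨_, a1, e2 τ ⟨hτ, k⟩⟩, (XExt_diff a2 subset_closure ?_).congr
      ((e2 τ ⟨hτ, k⟩).mono subset_closure).symm⟩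
    exact (XExt_bd hτ fun ρ hρ k' => h ρ hρ (by omega)).2.congr a3.symm
  · have s : closure τ ⊆ K.sk d := Kx.cl_sub_sk hτ (by omega)
    obtain ⟨⟨u, u1, u2⟩, a2⟩ := h τ hτ (by omega)
    exact ⟨⟨u, u1, (e1.mono s).trans u2⟩, a2.congr (e1.mono (subset_closure.trans s)).symm⟩

theorem XExt_one (h : ERp K R) : ∀ τ ∈ K.cells, dm τ ≤ 1 → XExt_Gd R τ := by
  have h0 : ∀ τ ∈ K.cells, dm τ = 0 → XExt_Gd R τ := fun τ hτ k => by
    obtain ⟨a, rfl⟩ := (Kx.dm_zero hτ).1 k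
    have e : R a = a := h.vx a (Kx.cells_sub hτ rfl) (Kx.cell_eq hτ rfl)
    refine ⟨⟨_, TP.const a, ?_⟩, bijOn_singleton.2 e⟩
    rw [closure_singleton]
    rintro _ rfl
    exact e
  intro τ hτ hd
  rcases hd.eq_or_lt with k | k
  · have b := (XExt_bd hτ fun ρ hρ k' => h0 ρ hρ (by omega)).2
    obtain ⟨x, y, e, rfl⟩ := Kx.dm_one hτ k
    have c := h.ed x y e
    rw [← e.cl] at c
    exact ⟨c.1, XExt_diff c.2 subset_closure b⟩
  · exact h0 τ hτ (by omega)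

theorem XExt_seg {a b : Rn 3} (h : a ≠ b) {ρ : ℝ → ℝ} (hρ : Rp ρ) : ∃ u, TP u ∧
    BijOn u (segment ℝ a b) (segment ℝ a b) ∧ ∀ s, u (seg a b s) = seg a b (ρ s) := by
  obtain ⟨i, hi⟩ := Function.ne_iff.1 h
  have h0 : b i - a i ≠ 0 := sub_ne_zero.2 hi.symm
  have e : ∀ s, (seg a b s i - a i) / (b i - a i) = s := fun s => by
    rw [div_eq_iff h0]
    simp [seg]
  have b1 : BijOn (seg a b) (Icc 0 1) (segment ℝ a b) := seg_image a b ▸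
    InjOn.bijOn_image fun s _ t _ k => by rw [← e s, k, e]
  have b2 : BijOn ρ (Icc 0 1) (Icc 0 1) := by
    have := hρ.2.1.injOn.bijOn_image
    rwa [hρ.2.2.1] at this
  have b3 : BijOn (fun x : Rn 3 => (x i - a i) / (b i - a i)) (segment ℝ a b) (Icc 0 1) :=
    b1.symm ⟨fun x hx => by
      obtain ⟨s, -, rfl⟩ := b1.surjOn hx
      exact congrArg _ (e s), fun s _ => e s⟩
  exact ⟨fun x => seg a b (ρ ((x i - a i) / (b i - a i))), (tp_seg a b).comp (hρ.1.comp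
    (((TP.id'.apply i).sub (TP.const _)).div_const _)), b1.comp (b2.comp b3),
    fun s => by simp only [e]⟩

theorem erp_exists (K : Kx Ω) {Q : Rn 3 → Rn 3 → (ℝ → ℝ) → Prop}
    (h : ∀ x y, K.Edge x y → ∃ ρ, Rp ρ ∧ Q x y ρ) : ∃ R, ERp K R ∧ ∀ x y, K.Edge x y →
      (∃ ρ, Q x y ρ ∧ ∀ s ∈ Icc (0 : ℝ) 1, R (seg x y s) = seg x y (ρ s)) ∨
        ∃ ρ, Q y x ρ ∧ ∀ s ∈ Icc (0 : ℝ) 1, R (seg x y s) = seg y x (ρ (1 - s)) := by
  have k : ∀ e ∈ K.cel 1, ∃ (a b : Rn 3) (ρ : ℝ → ℝ) (u : Rn 3 → Rn 3), K.Edge a b ∧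
      e = openSegment ℝ a b ∧ Q a b ρ ∧ TP u ∧ BijOn u (segment ℝ a b) (segment ℝ a b) ∧
      (∀ s, u (seg a b s) = seg a b (ρ s)) ∧ u a = a ∧ u b = b := fun e he => by
    obtain ⟨a, b, h1, h2⟩ := Kx.dm_one he.1 he.2
    obtain ⟨ρ, h3, h4⟩ := h a b h1
    obtain ⟨u, u1, u2, u3⟩ := XExt_seg h1.1 h3
    refine ⟨a, b, ρ, u, h1, h2, h4, u1, u2, u3, ?_, ?_⟩
    · simpa [seg, h3.2.2.2.1] using u3 0
    · simpa [seg, h3.2.2.2.2] using u3 1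
  choose! a b ρ u k1 k2 k3 k4 k5 k6 k7 k8 using k
  obtain ⟨R, hR⟩ : ∃ R : Rn 3 → Rn 3,
      ∀ x, R x = if dm (K.cell x) = 1 then u (K.cell x) x else x := ⟨_, fun _ => rfl⟩
  have e0 : ∀ x, K.cell x = {x} → R x = x := fun x hx => by
    rw [hR, hx, KA2_single, if_neg zero_ne_one]
  have e1 : ∀ e ∈ K.cel 1, EqOn R (u e) (segment ℝ (a e) (b e)) := fun e he x hx => by
    rcases Kx.KA2_seg hx with c | c | c
    · rw [c, e0 _ (k1 e he).left.2, k7 e he]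
    · rw [c, e0 _ (k1 e he).right.2, k8 e he]
    · rw [hR, Kx.cell_eq he.1 (k2 e he ▸ c), if_pos he.2]
  have e2 : ∀ x y, K.Edge x y → ∃ e ∈ K.cel 1, x = a e ∧ y = b e ∨ x = b e ∧ y = a e :=
    fun x y c => ⟨_, ⟨c.2, c.dm⟩, c.uniq (k2 _ ⟨c.2, c.dm⟩)⟩
  refine ⟨R, ⟨fun x _ => e0 x, fun x y c => ?_⟩, fun x y c => ?_⟩
  · obtain ⟨e, he, ⟨rfl, rfl⟩ | ⟨rfl, rfl⟩⟩ := e2 x y c
    · exact ⟨⟨_, k4 e he, e1 e he⟩, (k5 e he).congr (e1 e he).symm⟩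
    · rw [segment_symm]
      exact ⟨⟨_, k4 e he, e1 e he⟩, (k5 e he).congr (e1 e he).symm⟩
  · obtain ⟨e, he, ⟨rfl, rfl⟩ | ⟨rfl, rfl⟩⟩ := e2 x y c
    · exact .inl ⟨_, k3 e he, fun s hs =>
        (e1 e he (seg_image _ _ ▸ mem_image_of_mem _ hs)).trans (k6 e he s)⟩
    · refine .inr ⟨_, k3 e he, fun s hs => ?_⟩
      have : seg (b e) (a e) s = seg (a e) (b e) (1 - s) := by
        simp only [seg]
        module
      rw [this]
      exact (e1 e he (seg_image _ _ ▸ mem_image_of_mem _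
        ⟨by linarith [hs.2], by linarith [hs.1]⟩)).trans (k6 e he _)

theorem ERp.bd (h : ERp K R) {F : Set (Rn 3)} (hF : F ∈ K.cel 2) :
    (∃ u, TP u ∧ EqOn R u (closure F \ F)) ∧ BijOn R (closure F \ F) (closure F \ F) := by
  exact XExt_bd hF.1 fun τ hτ k => XExt_one h τ hτ (by have := hF.2; omega)

theorem xcell_ext (h : ERp K R) {𝓕 : Set (Set (Rn 3))} (h1 : 𝓕 ⊆ K.cel 2)
    {R₂ : Set (Rn 3) → Rn 3 → Rn 3} (h2 : ∀ F ∈ 𝓕, TP (R₂ F) ∧ BijOn (R₂ F) (closure F) (closure F) ∧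
      EqOn (R₂ F) R (closure F \ F)) : ∃ R', LTP Ω R' ∧ (∀ σ ∈ K.cells, BijOn R' σ σ) ∧
      (∀ σ ∈ K.cells, MapsTo R' (closure σ) (closure σ)) ∧ EqOn R' R (K.sk 1) ∧
      ∀ F ∈ 𝓕, EqOn R' (R₂ F) (closure F) := by
  have k2 : ∀ F ∈ K.cel 2, ∃ g, TP g ∧ BijOn g (closure F) (closure F) ∧
      EqOn g R (closure F \ F) ∧ (F ∈ 𝓕 → g = R₂ F) := fun F hF => by
    by_cases c : F ∈ 𝓕
    · exact ⟨_, (h2 F c).1, (h2 F c).2.1, (h2 F c).2.2, fun _ => rfl⟩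
    obtain ⟨⟨u, u1, u2⟩, b⟩ := h.bd hF
    obtain ⟨g, g1, g2, g3⟩ := (Kx.pdsc hF).ext (Kx.pdsc hF) u1 (b.congr u2)
    exact ⟨g, g1, g2, g3.trans u2.symm, fun k => absurd k c⟩
  choose! g g1 g2 g3 g4 using k2
  obtain ⟨R1, a1, a2, a3⟩ := XExt_step (XExt_one h) fun F hF => ⟨g1 F hF, g2 F hF, g3 F hF⟩
  have k3 : ∀ σ ∈ K.cel 3, ∃ g, TP g ∧ BijOn g (closure σ) (closure σ) ∧
      EqOn g R1 (closure σ \ σ) := fun σ hσ => by
    obtain ⟨⟨u, u1, u2⟩, b⟩ := XExt_bd hσ.1 fun τ hτ k => a1 τ hτ (by have := hσ.2; omega)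
    obtain ⟨g, g1, g2, g3⟩ := (Kx.ball hσ).cel.ext (Kx.ball hσ).cel u1 (b.congr u2)
    exact ⟨g, g1, g2, g3.trans u2.symm⟩
  choose! g' k3 using k3
  obtain ⟨R2, b1, b2, -⟩ := XExt_step a1 k3
  have c : ∀ σ ∈ K.cells, XExt_Gd R2 σ := fun σ hσ => b1 σ hσ (dm_le σ)
  refine ⟨R2, Kx.ltp_of_cells fun σ hσ => (c σ hσ).1, fun σ hσ => (c σ hσ).2,
    fun σ hσ x hx => ?_, (b2.mono (Kx.sk_mono one_le_two)).trans a2, fun F hF => ?_⟩
  · obtain ⟨c1, c2, c3⟩ := Kx.KA3_face hσ hx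
    exact c3 ((c _ c1).2.mapsTo c2)
  · exact g4 F (h1 hF) hF ▸ (b2.mono (Kx.cl_sub_sk (h1 hF).1 (h1 hF).2.le)).trans (a3 F (h1 hF))

end BEp
end
end
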