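import Pool.Agent.Work.MP_f0515e_an.D3.EML
import Pool.Agent.Work.MP_f0515e_an.P3.ZDefs
import Pool.Agent.Work.MP_f0515e_an.D3.PGau

-- merged part: Pool.Agent.Work.MP_f0515e_an.D3.EMd1
section
/-! One model band on the triangle. -/

open Set Metric Filter Topology Function BEv
open scoped NNReal

noncomputable section
namespace BEp

/-- The hypotheses for one band. -/
structure EMdOk (l r : ℝ × ℝ) (k : ℝ) : Prop where
  l2 : 0 < l.2
  r2 : 0 < r.2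
  l0 : 0 < l.1 - l.2
  r1 : r.1 + r.2 < 1
  k0 : 0 < k
  gap : l.1 + l.2 + k < r.1 - r.2

/-- First coordinate on the horizontal part. -/
def emdP (l r : ℝ × ℝ) (k t x : ℝ) : ℝ :=
  max (min (r.1 - r.2 * t - k * (1 - x)) (l.1 - l.2 + (r.1 + r.2 - l.1 + l.2) * x))
    (l.1 + l.2 * t + k * x)

/-- Second coordinate on the vertical part. -/
def emdQ (l r : ℝ × ℝ) (k t x : ℝ) : ℝ :=
  min (max (l.1 + l.2 * t + k * (1 + x)) (r.1 + r.2 + (r.1 + r.2 - l.1 + l.2) * x))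
    (r.1 - r.2 * t + k * x)

/-- The parametrisation of the band. -/
def emdS (l r : ℝ × ℝ) (k e : ℝ) (p : Rn 2) : Rn 2 :=
  ![emdP l r k (e * p 1) (max (p 0) 0), emdQ l r k (e * p 1) (min (p 0) 0)]

variable {l r l' r' : ℝ × ℝ} {k e e' t : ℝ} {p : Rn 2}

theorem emdS_0 : emdS l r k e p 0 = emdP l r k (e * p 1) (max (p 0) 0) := rfl

theorem emdS_1 : emdS l r k e p 1 = emdQ l r k (e * p 1) (min (p 0) 0) := rfl

theorem emd_cb : p ∈ closedBall (0 : Rn 2) 1 ↔ |p 0| ≤ 1 ∧ |p 1| ≤ 1 := by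
  rw [mem_closedBall_zero_iff, pi_norm_le_iff_of_nonneg zero_le_one, Fin.forall_fin_two]
  rfl

theorem emd_abs {u : ℝ} (h : 0 < u) (ht : |t| ≤ 1) : -u ≤ u * t ∧ u * t ≤ u := by
  obtain ⟨h1, h2⟩ := abs_le.1 ht
  constructor <;> nlinarith

theorem emd_e (he : e = 1 ∨ e = -1) (t : ℝ) : |e * t| = |t| := by
  rcases he with rfl | rfl <;> simp

theorem emd_ee (he : e = 1 ∨ e = -1) (t : ℝ) : e * (e * t) = t := by
  rcases he with rfl | rfl <;> simp

theorem emd_div {u a y : ℝ} (h : 0 < u) : y = a + u * ((y - a) / u) := by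
  field_simp
  ring

theorem emd_div' {u a y : ℝ} (h : 0 < u) : y = a - u * ((a - y) / u) := by
  field_simp
  ring

theorem emd_mem (hl : 0 < l.2) (hr : 0 < r.2) : p ∈ mB l r ↔ p ∈ Tri ∧ ∃ t : ℝ, |t| ≤ 1 ∧
    ((p 0 = l.1 + l.2 * t ∧ p 1 ≤ r.1 - r.2 * t) ∨ (p 1 = r.1 - r.2 * t ∧ l.1 + l.2 * t ≤ p 0)) := by
  refine and_congr_right fun _ => ⟨?_, ?_⟩
  · rintro (⟨h1, h2⟩ | ⟨h1, h2⟩)
    · refine ⟨_, ?_, Or.inl ⟨emd_div hl, ?_⟩⟩
      · rwa [abs_div, abs_of_pos hl, div_le_one hl]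
      · rw [le_div_iff₀ hr] at h2
        linarith
    · refine ⟨_, ?_, Or.inr ⟨emd_div' hr, ?_⟩⟩
      · rwa [abs_div, abs_of_pos hr, div_le_one hr, abs_sub_comm]
      · rw [le_div_iff₀ hl] at h2
        linarith
  · rintro ⟨t, ht, ⟨h1, h2⟩ | ⟨h1, h2⟩⟩
    · have h3 := emd_abs hl ht
      refine Or.inl ⟨abs_le.2 ⟨by linarith, by linarith⟩, ?_⟩
      rw [h1, add_sub_cancel_left, mul_div_cancel_left₀ _ hl.ne', le_div_iff₀ hr]
      linarith
    · have h3 := emd_abs hr ht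
      refine Or.inr ⟨abs_le.2 ⟨by linarith, by linarith⟩, ?_⟩
      rw [h1, sub_sub_cancel, mul_div_cancel_left₀ _ hr.ne', le_div_iff₀ hl]
      linarith

theorem emd_mT (hl : 0 < l.2) (hr : 0 < r.2) (ht : |t| ≤ 1)
    (h : (p 0 = l.1 + l.2 * t ∧ p 1 ≤ r.1 - r.2 * t) ∨ (p 1 = r.1 - r.2 * t ∧ l.1 + l.2 * t ≤ p 0)) :
    mT l r e p = e * t := by
  rw [mT]
  rcases h with ⟨h1, h2⟩ | ⟨h1, h2⟩
  · rw [h1, add_sub_cancel_left, mul_div_cancel_left₀ _ hl.ne',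
      min_eq_left ((le_div_iff₀ hr).2 (by linarith)), clamp_eq_self ht]
  · rw [h1, sub_sub_cancel, mul_div_cancel_left₀ _ hr.ne',
      min_eq_right ((le_div_iff₀ hl).2 (by linarith)), clamp_eq_self ht]

theorem emd_box (hl : 0 < l.2) (hr : 0 < r.2) (hp : p ∈ mB l r) :
    l.1 - l.2 ≤ p 0 ∧ p 0 ≤ p 1 ∧ p 1 ≤ r.1 + r.2 ∧ (p 0 ≤ l.1 + l.2 ∨ r.1 - r.2 ≤ p 1) := by
  obtain ⟨h0, t, ht, h⟩ := (emd_mem hl hr).1 hp
  have h3 := emd_abs hl ht
  have h4 := emd_abs hr ht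
  rcases h with ⟨h1, h2⟩ | ⟨h1, h2⟩
  · exact ⟨by linarith, h0.2.1, by linarith, Or.inl (by linarith)⟩
  · exact ⟨by linarith, h0.2.1, by linarith, Or.inr (by linarith)⟩

theorem emd_off (hl : 0 < l.2) (hr : 0 < r.2) (he : e = 1 ∨ e = -1) (hp : p ∈ Tri)
    (h : p ∉ mB l r) : |mT l r e p| = 1 := by
  have c : ∀ y : ℝ, ¬ |y| ≤ 1 → |clamp y 1| = 1 := fun y hy => by
    rw [not_le, lt_abs] at hy
    rcases hy with hy | hy
    · rw [clamp, min_eq_right hy.le, max_eq_right (by norm_num), abs_one]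
    · rw [clamp, min_eq_left (by linarith), max_eq_left (by linarith), abs_neg, abs_one]
  rw [mT, emd_e he]
  rcases le_total ((p 0 - l.1) / l.2) ((r.1 - p 1) / r.2) with h1 | h1
  · rw [min_eq_left h1]
    refine c _ fun h2 => h ⟨hp, Or.inl ⟨?_, h1⟩⟩
    rwa [abs_div, abs_of_pos hl, div_le_one hl] at h2
  · rw [min_eq_right h1]
    refine c _ fun h2 => h ⟨hp, Or.inr ⟨?_, h1⟩⟩
    rwa [abs_div, abs_of_pos hr, div_le_one hr, abs_sub_comm] at h2

theorem emd_tT (l r : ℝ × ℝ) (e : ℝ) : TP (mT l r e) :=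
  (((((TP.id'.apply 0).sub (TP.const l.1)).div_const l.2).min
    (((TP.const r.1).sub (TP.id'.apply 1)).div_const r.2)).clamp (TP.const 1)).const_mul e

theorem emd_tp (l r : ℝ × ℝ) (k e : ℝ) : TP (emdS l r k e) := by
  have t : TP fun p : Rn 2 => e * p 1 := (TP.id'.apply 1).const_mul e
  have x : TP fun p : Rn 2 => max (p 0) 0 := (TP.id'.apply 0).max (TP.const 0)
  have y : TP fun p : Rn 2 => min (p 0) 0 := (TP.id'.apply 0).min (TP.const 0)
  refine TP.pi (Fin.forall_fin_two.2 ⟨?_, ?_⟩)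
  · exact ((((TP.const r.1).sub (t.const_mul r.2)).sub (((TP.const 1).sub x).const_mul k)).min
      ((TP.const (l.1 - l.2)).add (x.const_mul _))).max
      (((TP.const l.1).add (t.const_mul l.2)).add (x.const_mul k))
  · exact ((((TP.const l.1).add (t.const_mul l.2)).add (((TP.const 1).add y).const_mul k)).max
      ((TP.const (r.1 + r.2)).add (y.const_mul _))).min
      (((TP.const r.1).sub (t.const_mul r.2)).add (y.const_mul k))

namespace EMdOk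
variable (h : EMdOk l r k)
include h

theorem len : 0 < r.1 + r.2 - l.1 + l.2 := by linarith [h.l2, h.r2, h.k0, h.gap]

theorem smP (t : ℝ) : StrictMono (emdP l r k t) := fun x y hxy => by
  have h1 := mul_lt_mul_of_pos_left hxy h.k0
  have h2 := mul_lt_mul_of_pos_left hxy h.len
  exact max_lt_max (min_lt_min (by linarith) (by linarith)) (by linarith)

theorem smQ (t : ℝ) : StrictMono (emdQ l r k t) := fun x y hxy => by
  have h1 := mul_lt_mul_of_pos_left hxy h.k0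
  have h2 := mul_lt_mul_of_pos_left hxy h.len
  exact min_lt_min (max_lt_max (by linarith) (by linarith)) (by linarith)

theorem vals (ht : |t| ≤ 1) : emdP l r k t 0 = l.1 + l.2 * t ∧ emdP l r k t 1 = r.1 - r.2 * t ∧
    emdQ l r k t (-1) = l.1 + l.2 * t ∧ emdQ l r k t 0 = r.1 - r.2 * t := by
  obtain ⟨a1, a2⟩ := emd_abs h.l2 ht
  obtain ⟨a3, a4⟩ := emd_abs h.r2 ht
  have a5 := h.gap
  refine ⟨?_, ?_, ?_, ?_⟩
  · rw [emdP, max_eq_right ((min_le_right _ _).trans (by linarith))]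
    ring
  · rw [emdP, min_eq_left (by linarith), max_eq_left (by linarith)]
    ring
  · rw [emdQ, max_eq_left (by linarith), min_eq_left (by linarith)]
    ring
  · rw [emdQ, min_eq_right (le_trans (by linarith) (le_max_right _ _))]
    ring

variable (he : e = 1 ∨ e = -1) (hp : p ∈ closedBall (0 : Rn 2) 1)
include he hp

theorem key : |e * p 1| ≤ 1 ∧ (l.1 + l.2 * (e * p 1) ≤ emdS l r k e p 0 ∧
    emdS l r k e p 0 ≤ r.1 - r.2 * (e * p 1)) ∧ (l.1 + l.2 * (e * p 1) ≤ emdS l r k e p 1 ∧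
    emdS l r k e p 1 ≤ r.1 - r.2 * (e * p 1)) ∧
    (p 0 ≤ 0 → emdS l r k e p 0 = l.1 + l.2 * (e * p 1)) ∧
    (0 ≤ p 0 → emdS l r k e p 1 = r.1 - r.2 * (e * p 1)) ∧
    (emdS l r k e p 0 = emdS l r k e p 1 ↔ |p 0| = 1) := by
  obtain ⟨h0, h1⟩ := emd_cb.1 hp
  rw [← emd_e he] at h1
  obtain ⟨v1, v2, v3, v4⟩ := h.vals h1
  obtain ⟨h2, h3⟩ := abs_le.1 h0
  have mP := h.smP (e * p 1)
  have mQ := h.smQ (e * p 1)
  rw [emdS_0, emdS_1]
  refine ⟨h1, ⟨v1 ▸ mP.monotone (le_max_right _ _), v2 ▸ mP.monotone (max_le h3 zero_le_one)⟩,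
    ⟨v3 ▸ mQ.monotone (le_min h2 (by norm_num)), v4 ▸ mQ.monotone (min_le_right _ _)⟩,
    fun h4 => by rw [max_eq_right h4, v1], fun h4 => by rw [min_eq_right h4, v4], ?_⟩
  rcases le_total (p 0) 0 with h4 | h4
  · rw [max_eq_right h4, min_eq_left h4, v1, ← v3, mQ.injective.eq_iff, abs_of_nonpos h4,
      neg_eq_iff_eq_neg, eq_comm]
  · rw [max_eq_left h4, min_eq_right h4, v4, ← v2, mP.injective.eq_iff, abs_of_nonneg h4]

theorem alt : (emdS l r k e p 0 = l.1 + l.2 * (e * p 1) ∧ emdS l r k e p 1 ≤ r.1 - r.2 * (e * p 1)) ∨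
    (emdS l r k e p 1 = r.1 - r.2 * (e * p 1) ∧ l.1 + l.2 * (e * p 1) ≤ emdS l r k e p 0) := by
  obtain ⟨-, h1, h2, h3, h4, -⟩ := h.key he hp
  exact (le_total (p 0) 0).imp (fun h5 => ⟨h3 h5, h2.2⟩) fun h5 => ⟨h4 h5, h1.1⟩

theorem mem : emdS l r k e p ∈ mB l r := by
  obtain ⟨h0, h1, h2, h3, h4, -⟩ := h.key he hp
  obtain ⟨a1, -⟩ := emd_abs h.l2 h0
  obtain ⟨a3, -⟩ := emd_abs h.r2 h0
  refine (emd_mem h.l2 h.r2).2 ⟨⟨by linarith [h.l0, h1.1], ?_, by linarith [h.r1, h2.2]⟩, _, h0,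
    h.alt he hp⟩
  rcases le_total (p 0) 0 with h5 | h5
  · rw [h3 h5]
    exact h2.1
  · rw [h4 h5]
    exact h1.2

theorem lev : mT l r e (emdS l r k e p) = p 1 := by
  rw [emd_mT h.l2 h.r2 (h.key he hp).1 (h.alt he hp), emd_ee he]

theorem bd : emdS l r k e p ∈ bTri ↔ |p 0| = 1 := by
  rw [← (h.key he hp).2.2.2.2.2]
  obtain ⟨h1, -, h2, -⟩ := emd_box h.l2 h.r2 (h.mem he hp)
  refine ⟨fun h3 => ?_, fun h3 => ⟨(h.mem he hp).1, Or.inr (Or.inl h3)⟩⟩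
  rcases h3.2 with h4 | h4 | h4
  · linarith [h.l0]
  · exact h4
  · linarith [h.r1]

omit hp in
theorem inj : InjOn (emdS l r k e) (closedBall 0 1) := fun p hp q hq hpq => by
  have h1 : p 1 = q 1 := by rw [← h.lev he hp, hpq, h.lev he hq]
  have h2 := congrFun hpq 0
  have h3 := congrFun hpq 1
  rw [emdS_0, emdS_0, h1, (h.smP _).injective.eq_iff] at h2
  rw [emdS_1, emdS_1, h1, (h.smQ _).injective.eq_iff] at h3
  refine funext (Fin.forall_fin_two.2 ⟨?_, h1⟩)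
  linarith [max_add_min (p 0) 0, max_add_min (q 0) 0]

omit hp in
theorem img : emdS l r k e '' closedBall 0 1 = mB l r := by
  refine Subset.antisymm (image_subset_iff.2 fun p hp => h.mem he hp) fun p hp => ?_
  obtain ⟨h0, t, ht, h1⟩ := (emd_mem h.l2 h.r2).1 hp
  obtain ⟨v1, v2, v3, v4⟩ := h.vals ht
  rcases h1 with ⟨h1, h2⟩ | ⟨h1, h2⟩
  · have c : Continuous (emdQ l r k t) := by
      unfold emdQ
      fun_prop
    obtain ⟨x, hx, ex⟩ := intermediate_value_Icc (by norm_num : (-1 : ℝ) ≤ 0) c.continuousOn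
      (show p 1 ∈ Icc _ _ from ⟨by linarith [h0.2.1], by linarith⟩)
    refine ⟨![x, e * t], emd_cb.2 ⟨abs_le.2 ⟨hx.1, hx.2.trans zero_le_one⟩, (emd_e he t).trans_le ht⟩,
      funext (Fin.forall_fin_two.2 ⟨?_, ?_⟩)⟩
    · change emdP l r k (e * (e * t)) (max x 0) = p 0
      rw [emd_ee he, max_eq_right hx.2, v1, h1]
    · change emdQ l r k (e * (e * t)) (min x 0) = p 1
      rw [emd_ee he, min_eq_left hx.2, ex]
  · have c : Continuous (emdP l r k t) := by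
      unfold emdP
      fun_prop
    obtain ⟨x, hx, ex⟩ := intermediate_value_Icc (by norm_num : (0 : ℝ) ≤ 1) c.continuousOn
      (show p 0 ∈ Icc _ _ from ⟨by linarith, by linarith [h0.2.1]⟩)
    refine ⟨![x, e * t], emd_cb.2 ⟨abs_le.2 ⟨le_trans (by norm_num) hx.1, hx.2⟩,
      (emd_e he t).trans_le ht⟩, funext (Fin.forall_fin_two.2 ⟨?_, ?_⟩)⟩
    · change emdP l r k (e * (e * t)) (max x 0) = p 0
      rw [emd_ee he, max_eq_left hx.1, ex]
    · change emdQ l r k (e * (e * t)) (min x 0) = p 1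
      rw [emd_ee he, min_eq_right hx.1, v4, h1]

/-- In the middle range the first coordinate does not depend on the level. -/
theorem midP {y : ℝ} (h1 : l.1 + l.2 + k < y) (h2 : y < r.1 - r.2 - k) :
    emdS l r k e p 0 = y ↔ l.1 - l.2 + (r.1 + r.2 - l.1 + l.2) * p 0 = y := by
  obtain ⟨h0, -, -, h3, -⟩ := h.key he hp
  obtain ⟨a1, a2⟩ := emd_abs h.l2 h0
  obtain ⟨a3, a4⟩ := emd_abs h.r2 h0
  have k0 := h.k0
  rcases le_total (p 0) 0 with h5 | h5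
  · have h6 := mul_nonpos_of_nonneg_of_nonpos h.len.le h5
    rw [h3 h5]
    constructor <;> intro h7 <;> linarith [h.l2]
  · have h6 := mul_nonneg k0.le h5
    have h7 := (emd_abs k0 (emd_cb.1 hp).1).2
    rw [emdS_0, max_eq_left h5, emdP, max_def, min_def]
    split_ifs <;> constructor <;> intro h8 <;> linarith

/-- In the middle range the second coordinate does not depend on the level. -/
theorem midQ {y : ℝ} (h1 : l.1 + l.2 + k < y) (h2 : y < r.1 - r.2 - k) :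
    emdS l r k e p 1 = y ↔ r.1 + r.2 + (r.1 + r.2 - l.1 + l.2) * p 0 = y := by
  obtain ⟨h0, -, -, -, h3, -⟩ := h.key he hp
  obtain ⟨a1, a2⟩ := emd_abs h.l2 h0
  obtain ⟨a3, a4⟩ := emd_abs h.r2 h0
  have k0 := h.k0
  rcases le_total 0 (p 0) with h5 | h5
  · have h6 := mul_nonneg h.len.le h5
    rw [h3 h5]
    constructor <;> intro h7 <;> linarith [h.r2]
  · have h6 := mul_nonpos_of_nonneg_of_nonpos k0.le h5
    have h7 := (emd_abs k0 (emd_cb.1 hp).1).1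
    rw [emdS_1, min_eq_left h5, emdQ, min_def, max_def]
    split_ifs <;> constructor <;> intro h8 <;> linarith

omit hp in
/-- Crossing with a later band. -/
theorem crsA (h' : EMdOk l' r' k) (he' : e' = 1 ∨ e' = -1) (g1 : l.1 + l.2 + k < l'.1 - l'.2)
    (g2 : l'.1 + l'.2 + k < r.1 - r.2) (g3 : r.1 + r.2 + k < r'.1 - r'.2) :
    ∃ (a b : ℝ) (φ : ℝ → ℝ), -1 < a ∧ a < b ∧ b < 1 ∧ InjOn φ (Icc a b) ∧
      ∀ p ∈ closedBall (0 : Rn 2) 1, (emdS l r k e p ∈ mB l' r' ↔ p 0 ∈ Icc a b) ∧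
        (p 0 ∈ Icc a b → mT l' r' e' (emdS l r k e p) = φ (p 0)) := by
  have L := h.len
  have k0 := h.k0
  have u := h'.l2
  have v := h'.r2
  refine ⟨(l'.1 - l'.2 - (l.1 - l.2)) / (r.1 + r.2 - l.1 + l.2),
    (l'.1 + l'.2 - (l.1 - l.2)) / (r.1 + r.2 - l.1 + l.2),
    fun x => e' * ((l.1 - l.2 + (r.1 + r.2 - l.1 + l.2) * x - l'.1) / l'.2),
    (lt_div_iff₀ L).2 (by linarith [h.l2]), div_lt_div_of_pos_right (by linarith) L,
    (div_lt_iff₀ L).2 (by linarith [h.r2]), fun x _ y _ hxy => ?_, fun p hp => ?_⟩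
  · have h1 := congrArg (e' * ·) hxy
    simp only [emd_ee he'] at h1
    rw [div_left_inj' u.ne'] at h1
    exact mul_left_cancel₀ L.ne' (by linarith)
  · obtain ⟨-, -, b3, -⟩ := emd_box h.l2 h.r2 (h.mem he hp)
    rw [mem_Icc, div_le_iff₀ L, le_div_iff₀ L]
    have c : l'.1 - l'.2 - (l.1 - l.2) ≤ p 0 * (r.1 + r.2 - l.1 + l.2) ∧
        p 0 * (r.1 + r.2 - l.1 + l.2) ≤ l'.1 + l'.2 - (l.1 - l.2) → ∃ t, |t| ≤ 1 ∧
          t = (l.1 - l.2 + (r.1 + r.2 - l.1 + l.2) * p 0 - l'.1) / l'.2 ∧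
          emdS l r k e p 0 = l'.1 + l'.2 * t ∧ emdS l r k e p 1 ≤ r'.1 - r'.2 * t := fun h1 => by
      have h2 : |(l.1 - l.2 + (r.1 + r.2 - l.1 + l.2) * p 0 - l'.1) / l'.2| ≤ 1 := by
        rw [abs_div, abs_of_pos u, div_le_one u, abs_le]
        constructor <;> linarith [h1.1, h1.2]
      refine ⟨_, h2, rfl, ?_, by linarith [(emd_abs v h2).2]⟩
      rw [← emd_div u]
      exact (h.midP he hp (by linarith [h1.1]) (by linarith [h1.2])).2 rfl
    refine ⟨⟨fun h1 => ?_, fun h1 => ?_⟩, fun h1 => ?_⟩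
    · obtain ⟨c1, -, -, c2⟩ := emd_box u v h1
      have c3 := c2.resolve_right (by linarith)
      have c4 := (h.midP he hp (by linarith) (by linarith)).1 rfl
      constructor <;> linarith
    · obtain ⟨t, h2, -, h3⟩ := c h1
      exact (emd_mem u v).2 ⟨(h.mem he hp).1, t, h2, Or.inl h3⟩
    · obtain ⟨t, h2, h4, h3⟩ := c h1
      rw [emd_mT u v h2 (Or.inl h3), h4]

omit hp in
/-- Crossing with an earlier band. -/
theorem crsB (h' : EMdOk l' r' k) (he' : e' = 1 ∨ e' = -1) (g1 : l'.1 + l'.2 + k < l.1 - l.2)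
    (g2 : l.1 + l.2 + k < r'.1 - r'.2) (g3 : r'.1 + r'.2 + k < r.1 - r.2) :
    ∃ (a b : ℝ) (φ : ℝ → ℝ), -1 < a ∧ a < b ∧ b < 1 ∧ InjOn φ (Icc a b) ∧
      ∀ p ∈ closedBall (0 : Rn 2) 1, (emdS l r k e p ∈ mB l' r' ↔ p 0 ∈ Icc a b) ∧
        (p 0 ∈ Icc a b → mT l' r' e' (emdS l r k e p) = φ (p 0)) := by
  have L := h.len
  have k0 := h.k0
  have u := h'.l2
  have v := h'.r2
  refine ⟨(r'.1 - r'.2 - (r.1 + r.2)) / (r.1 + r.2 - l.1 + l.2),
    (r'.1 + r'.2 - (r.1 + r.2)) / (r.1 + r.2 - l.1 + l.2),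
    fun x => e' * ((r'.1 - (r.1 + r.2 + (r.1 + r.2 - l.1 + l.2) * x)) / r'.2),
    (lt_div_iff₀ L).2 (by linarith [h.l2]), div_lt_div_of_pos_right (by linarith) L,
    (div_lt_iff₀ L).2 (by linarith [h.r2]), fun x _ y _ hxy => ?_, fun p hp => ?_⟩
  · have h1 := congrArg (e' * ·) hxy
    simp only [emd_ee he'] at h1
    rw [div_left_inj' v.ne'] at h1
    exact mul_left_cancel₀ L.ne' (by linarith)
  · obtain ⟨b3, -⟩ := emd_box h.l2 h.r2 (h.mem he hp)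
    rw [mem_Icc, div_le_iff₀ L, le_div_iff₀ L]
    have c : r'.1 - r'.2 - (r.1 + r.2) ≤ p 0 * (r.1 + r.2 - l.1 + l.2) ∧
        p 0 * (r.1 + r.2 - l.1 + l.2) ≤ r'.1 + r'.2 - (r.1 + r.2) → ∃ t, |t| ≤ 1 ∧
          t = (r'.1 - (r.1 + r.2 + (r.1 + r.2 - l.1 + l.2) * p 0)) / r'.2 ∧
          emdS l r k e p 1 = r'.1 - r'.2 * t ∧ l'.1 + l'.2 * t ≤ emdS l r k e p 0 := fun h1 => by
      have h2 : |(r'.1 - (r.1 + r.2 + (r.1 + r.2 - l.1 + l.2) * p 0)) / r'.2| ≤ 1 := by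
        rw [abs_div, abs_of_pos v, div_le_one v, abs_le]
        constructor <;> linarith [h1.1, h1.2]
      refine ⟨_, h2, rfl, ?_, by linarith [(emd_abs u h2).2]⟩
      rw [← emd_div' v]
      exact (h.midQ he hp (by linarith [h1.1]) (by linarith [h1.2])).2 rfl
    refine ⟨⟨fun h1 => ?_, fun h1 => ?_⟩, fun h1 => ?_⟩
    · obtain ⟨-, -, c1, c2⟩ := emd_box u v h1
      have c3 := c2.resolve_left (by linarith)
      have c4 := (h.midQ he hp (by linarith) (by linarith)).1 rfl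
      constructor <;> linarith
    · obtain ⟨t, h2, -, h3⟩ := c h1
      exact (emd_mem u v).2 ⟨(h.mem he hp).1, t, h2, Or.inr h3⟩
    · obtain ⟨t, h2, h4, h3⟩ := c h1
      rw [emd_mT u v h2 (Or.inr h3), h4]

omit he hp in
/-- Nested or separated pairs of intervals give disjoint bands. -/
theorem dis (h' : EMdOk l' r' k) (g : (l.1 + l.2 < l'.1 - l'.2 ∧ r'.1 + r'.2 < r.1 - r.2) ∨
    r.1 + r.2 < l'.1 - l'.2) : Disjoint (mB l r) (mB l' r') := by
  refine disjoint_left.2 fun p h1 h2 => ?_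
  obtain ⟨a1, a2, a3, a4⟩ := emd_box h.l2 h.r2 h1
  obtain ⟨b1, b2, b3, b4⟩ := emd_box h'.l2 h'.r2 h2
  rcases g with ⟨g1, g2⟩ | g
  · rcases a4 with a4 | a4 <;> linarith
  · linarith

end EMdOk

end BEp
end
end

-- merged part: Pool.Agent.Work.MP_f0515e_an.D3.EMd
section
/-! The model pattern on the triangle. For `l = (a, u)`, `r = (b, v)` and a small `k > 0` (smaller than every gap between two intervals of `𝒥`), with `t = e * p 1`, `x = p 0`:
for `x ≤ 0` the point is `![a + u t, Q]`, `Q = min (max (a + u t + k (1 + x)) (a - u + (1 + x) (b + v - a + u))) (b - v t + k x)`;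
for `0 ≤ x` it is `![P, b - v t]`, `P = max (min (b - v t - k (1 - x)) (b + v - (1 - x) (b + v - a + u))) (a + u t + k x)`. One formula: first coordinate `P (max x 0)`, second `Q (min x 0)` (`P 0 = a + u t`, `Q 0 = b - v t`).
`Q` is strictly increasing in `x` from `a + u t` to `b - v t`, `P` from `a + u t` to `b - v t` (intermediate values give the image `mB l r`). If `a + u + k ≤ Q ≤ b - v - k` for one `t` then `Q` is the middle term for all `t`.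
Crossing (`a < a' < b < b'`): the band `(a', b')` meets the band `(a, b)` in the rectangle `|p 0 - a'| ≤ u'`, `|p 1 - b| ≤ v`. Nested or disjoint pairs of intervals give disjoint bands.
`pdsc_tri`: `convex_ball`, `Ball.pcel`, or `len_tri`. About 600 lines; split EMd1 (one band), EMd (pairs). -/

open Set Metric Filter Topology Function BEv
open scoped NNReal

noncomputable section
namespace BEp

variable {n m : ℕ}

theorem pdsc_tri : PDsc Tri bTri := by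
  have h := (len_tri (v := ![0, 1]) (a := ![0, 0]) (b := ![1, 1])
    (LinearIndependent.pair_iff.2 fun s t e => ⟨by simpa using congrFun e 1,
      by simpa using congrFun e 0⟩)).ball.pcel
  have e1 : Tri = {x : Rn 2 | ∃ s t : ℝ, 0 ≤ s ∧ 0 ≤ t ∧ s + t ≤ 1 ∧
      x = ![0, 1] + s • (![0, 0] - ![0, 1]) + t • (![1, 1] - ![0, 1])} := by
    ext x
    constructor
    · rintro ⟨h1, h2, h3⟩
      exact ⟨1 - x 1, x 0, by linarith, h1, by linarith,
        funext (Fin.forall_fin_two.2 ⟨by simp, by simp⟩)⟩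
    · rintro ⟨s, t, h1, h2, h3, rfl⟩
      refine ⟨?_, ?_, ?_⟩ <;> simp <;> linarith
  have e2 : bTri = (segment ℝ ![0, 1] ![0, 0] ∪ segment ℝ ![0, 1] ![1, 1]) ∪
      segment ℝ ![0, 0] ![1, 1] := by
    ext x
    constructor
    · rintro ⟨⟨h1, h2, h3⟩, h4 | h4 | h4⟩
      · exact Or.inl (Or.inl ⟨x 1, 1 - x 1, by linarith, by linarith, by ring,
          funext (Fin.forall_fin_two.2 ⟨by simp [h4], by simp⟩)⟩)
      · exact Or.inr ⟨1 - x 1, x 1, by linarith, by linarith, by ring,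
          funext (Fin.forall_fin_two.2 ⟨by simp [h4], by simp⟩)⟩
      · exact Or.inl (Or.inr ⟨1 - x 0, x 0, by linarith, by linarith, by ring,
          funext (Fin.forall_fin_two.2 ⟨by simp, by simp [h4]⟩)⟩)
    · rintro ((⟨s, t, h1, h2, h3, rfl⟩ | ⟨s, t, h1, h2, h3, rfl⟩) | ⟨s, t, h1, h2, h3, rfl⟩)
      · exact ⟨⟨by simp, by simpa using h1, by simp; linarith⟩, Or.inl (by simp)⟩
      · exact ⟨⟨by simpa using h2, by simpa using h1, by simp; linarith⟩,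
          Or.inr (Or.inr (by simpa using h3))⟩
      · exact ⟨⟨by simpa using h2, by simp, by simp; linarith⟩, Or.inr (Or.inl (by simp))⟩
  rw [e1, e2]
  exact h

theorem mB_tame {l r : ℝ × ℝ} (hl : 0 < l.2) (hr : 0 < r.2) {e : ℝ} (he : e = 1 ∨ e = -1)
    {p : Rn 2} (hp : p ∈ mB l r) : ∃ j, (j = l ∨ j = r) ∧ ∃ k : Fin 2, ∃ σ : ℝ, (σ = 1 ∨ σ = -1) ∧
      |p k - j.1| ≤ j.2 ∧ mT l r e p = σ * ((p k - j.1) / j.2) := by
  obtain ⟨-, t, ht, h⟩ := (emd_mem hl hr).1 hp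
  rw [emd_mT hl hr ht h]
  rcases h with ⟨h1, -⟩ | ⟨h1, -⟩
  · refine ⟨l, Or.inl rfl, 0, e, he, ?_, ?_⟩
    · rw [h1, add_sub_cancel_left]
      exact abs_le.2 (emd_abs hl ht)
    · rw [h1, add_sub_cancel_left, mul_div_cancel_left₀ _ hl.ne']
  · refine ⟨r, Or.inr rfl, 1, -e, he.symm.imp (fun h => by rw [h, neg_neg]) fun h => by rw [h],
      ?_, ?_⟩
    · rw [h1, sub_sub_cancel_left, abs_neg]
      exact abs_le.2 (emd_abs hr ht)
    · rw [h1, sub_sub_cancel_left, neg_div, mul_div_cancel_left₀ _ hr.ne', neg_mul_neg]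

theorem mB_bd {l r : ℝ × ℝ} (hl : 0 < l.2 ∧ 0 < l.1 - l.2) (hr : 0 < r.2 ∧ r.1 + r.2 < 1)
    (h : l.1 + l.2 < r.1 - r.2) {p : Rn 2} (hp : p ∈ bTri) :
    p ∈ mB l r ↔ p 0 = p 1 ∧ (|p 0 - l.1| ≤ l.2 ∨ |p 0 - r.1| ≤ r.2) := by
  constructor
  · intro h1
    obtain ⟨a1, -, a3, -⟩ := emd_box hl.1 hr.1 h1
    have e : p 0 = p 1 := by
      rcases hp.2 with h4 | h4 | h4
      · linarith [hl.2]
      · exact h4
      · linarith [hr.2]
    exact ⟨e, h1.2.imp (fun h2 => h2.1) fun h2 => e ▸ h2.1⟩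
  · rintro ⟨e, h1 | h1⟩
    · refine ⟨hp.1, Or.inl ⟨h1, ((div_le_one hl.1).2 (abs_le.1 h1).2).trans ?_⟩⟩
      rw [one_le_div hr.1]
      linarith [(abs_le.1 h1).2]
    · refine ⟨hp.1, Or.inr ⟨e ▸ h1,
        ((div_le_one hr.1).2 (by linarith [(abs_le.1 h1).1])).trans ?_⟩⟩
      rw [one_le_div hl.1]
      linarith [(abs_le.1 h1).1]

theorem emd_gap {𝒥 : Set (ℝ × ℝ)} (hJ : Ivs 𝒥) : ∃ k : ℝ, 0 < k ∧
    ∀ j ∈ 𝒥, ∀ j' ∈ 𝒥, j.1 < j'.1 → j.1 + j.2 + k < j'.1 - j'.2 := by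
  have h : ∀ᶠ k in 𝓝 (0 : ℝ), ∀ j ∈ 𝒥, ∀ j' ∈ 𝒥, j.1 < j'.1 → j.1 + j.2 + k < j'.1 - j'.2 := by
    refine (eventually_all_finite hJ.fin).2 fun j hj => (eventually_all_finite hJ.fin).2 fun j' hj' => ?_
    by_cases h1 : j.1 < j'.1
    · have h2 := (hJ.dis j hj j' hj' fun e => h1.ne (e ▸ rfl)).resolve_right
        (by linarith [(hJ.pos j hj).1, (hJ.pos j' hj').1])
      filter_upwards [eventually_lt_nhds (sub_pos.2 h2)] with k hk _
      linarith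
    · exact Eventually.of_forall fun k h2 => absurd h2 h1
  obtain ⟨k, h1, h2⟩ := ((h.filter_mono nhdsWithin_le_nhds).and
    (self_mem_nhdsWithin (s := Ioi (0 : ℝ)))).exists
  exact ⟨k, h2, h1⟩

theorem emd_ne {𝒥 : Set (ℝ × ℝ)} (hJ : Ivs 𝒥) {j j' : ℝ × ℝ} (hj : j ∈ 𝒥) (hj' : j' ∈ 𝒥)
    (h : j ≠ j') : j.1 < j'.1 ∨ j'.1 < j.1 :=
  (hJ.dis j hj j' hj' h).imp (fun _ => by linarith [(hJ.pos j hj).1, (hJ.pos j' hj').1])
    fun _ => by linarith [(hJ.pos j hj).1, (hJ.pos j' hj').1]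

theorem model_pat {ι : Type} {I : Set ι} {col : ι → Bool} {𝒥 : Set (ℝ × ℝ)} (hJ : Ivs 𝒥)
    {l r : ι → ℝ × ℝ} {e : ι → ℝ}
    (h1 : ∀ i ∈ I, l i ∈ 𝒥 ∧ r i ∈ 𝒥 ∧ (l i).1 < (r i).1 ∧ (e i = 1 ∨ e i = -1))
    (h2 : ∀ i ∈ I, ∀ j ∈ I, i ≠ j → l i ≠ l j ∧ l i ≠ r j ∧ r i ≠ r j)
    (h3 : ∀ i ∈ I, ∀ j ∈ I, i ≠ j → col i = col j →
      ¬ ((l i).1 < (l j).1 ∧ (l j).1 < (r i).1 ∧ (r i).1 < (r j).1)) :
    ∃ σ : ι → Rn 2 → Rn 2, Pat Tri bTri I col σ (fun i => mT (l i) (r i) (e i)) ∧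
      ∀ i ∈ I, σ i '' closedBall 0 1 = mB (l i) (r i) := by
  obtain ⟨k, k0, hk⟩ := emd_gap hJ
  have ok : ∀ i ∈ I, EMdOk (l i) (r i) k := fun i hi =>
    let ⟨a1, a2, a3, _⟩ := h1 i hi
    ⟨(hJ.pos _ a1).1, (hJ.pos _ a2).1, (hJ.pos _ a1).2.1, (hJ.pos _ a2).2.2, k0, hk _ a1 _ a2 a3⟩
  have he : ∀ i ∈ I, e i = 1 ∨ e i = -1 := fun i hi => (h1 i hi).2.2.2
  have im : ∀ i ∈ I, emdS (l i) (r i) k (e i) '' closedBall 0 1 = mB (l i) (r i) :=
    fun i hi => (ok i hi).img (he i hi)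
  have half : ∀ i ∈ I, ∀ j ∈ I, i ≠ j → (l i).1 < (l j).1 → Disjoint (mB (l i) (r i)) (mB (l j) (r j)) ∨
      ((l i).1 < (l j).1 ∧ (l j).1 < (r i).1 ∧ (r i).1 < (r j).1) := fun i hi j hj hij a => by
    obtain ⟨a1, a2, -⟩ := h1 i hi
    obtain ⟨b1, b2, -⟩ := h1 j hj
    rcases emd_ne hJ b1 a2 (h2 j hj i hi hij.symm).2.1 with b | b
    · rcases emd_ne hJ a2 b2 (h2 i hi j hj hij).2.2 with c | c
      · exact Or.inr ⟨a, b, c⟩
      · exact Or.inl ((ok i hi).dis (ok j hj) (Or.inl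
          ⟨by linarith [hk _ a1 _ b1 a], by linarith [hk _ b2 _ a2 c]⟩))
    · exact Or.inl ((ok i hi).dis (ok j hj) (Or.inr (by linarith [hk _ a2 _ b1 b])))
  have tri : ∀ i ∈ I, ∀ j ∈ I, i ≠ j → Disjoint (mB (l i) (r i)) (mB (l j) (r j)) ∨
      ((l i).1 < (l j).1 ∧ (l j).1 < (r i).1 ∧ (r i).1 < (r j).1) ∨
      ((l j).1 < (l i).1 ∧ (l i).1 < (r j).1 ∧ (r j).1 < (r i).1) := fun i hi j hj hij => by
    rcases emd_ne hJ (h1 i hi).1 (h1 j hj).1 (h2 i hi j hj hij).1 with a | a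
    · exact (half i hi j hj hij a).imp_right Or.inl
    · exact (half j hj i hi hij.symm a).imp (fun h => h.symm) Or.inr
  refine ⟨fun i => emdS (l i) (r i) k (e i), ⟨pdsc_tri, fun i _ => emd_tp _ _ _ _,
    fun i hi => (ok i hi).inj (he i hi), fun i hi => (im i hi).symm ▸ fun p hp => hp.1,
    fun i hi p hp => (ok i hi).bd (he i hi) hp, fun i _ => emd_tT _ _ _,
    fun i hi p hp => (ok i hi).lev (he i hi) hp, fun i hi x hx h => ?_, fun i hi j hj hij hc => ?_,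
    fun i hi j hj hc => ?_⟩, im⟩
  · rw [im i hi] at h
    exact emd_off (ok i hi).l2 (ok i hi).r2 (he i hi) hx h
  · rw [im i hi, im j hj]
    exact (tri i hi j hj hij).resolve_right
      (not_or.2 ⟨h3 i hi j hj hij hc, h3 j hj i hi hij.symm hc.symm⟩)
  · rw [im i hi, im j hj]
    obtain ⟨a1, a2, -⟩ := h1 i hi
    obtain ⟨b1, b2, -⟩ := h1 j hj
    refine (tri i hi j hj fun e => hc (e ▸ rfl)).imp_right ?_
    rintro (⟨a, b, c⟩ | ⟨a, b, c⟩)
    · exact (ok i hi).crsA (he i hi) (ok j hj) (he j hj) (hk _ a1 _ b1 a) (hk _ b1 _ a2 b)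
        (hk _ a2 _ b2 c)
    · exact (ok i hi).crsB (he i hi) (ok j hj) (he j hj) (hk _ b1 _ a1 a) (hk _ a1 _ b2 b)
        (hk _ b2 _ a2 c)

end BEp
end
end

-- merged part: Pool.Agent.Work.MP_f0515e_an.P3.ZChart1
section
/-! Cone maps, the loop round a polygon, the boundary map of the triangle. -/

open Set Metric Filter Topology Function BEv MeasureTheory
open scoped NNReal ENNReal

noncomputable section
namespace BEp

theorem zgauge {n : ℕ} {A : Set (Rn n)} (pA : Poly A) (cA : Convex ℝ A) {o : Rn n}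
    (ho : o ∈ interior A) : ∃ r : Rn n → ℝ, Gauge r ∧ (∀ x, r x ≤ 1 ↔ o + x ∈ A) ∧
      ∀ x, r x = 1 ↔ o + x ∈ frontier A := by
  have e : (fun x => o + x) ⁻¹' A = (fun x => x - o) '' A := by
    ext x
    constructor
    · intro hx
      exact ⟨o + x, hx, add_sub_cancel_left o x⟩
    · rintro ⟨y, hy, rfl⟩
      simpa using hy
  have p : Poly ((fun x => o + x) ⁻¹' A) := e ▸ pA.image (TP.id'.sub (TP.const o))
  have c : Convex ℝ ((fun x => o + x) ⁻¹' A) := cA.translate_preimage_right o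
  have h0 : (fun x => o + x) ⁻¹' A ∈ 𝓝 (0 : Rn n) :=
    (continuous_const.add continuous_id).continuousAt.preimage_mem_nhds
      (by simpa using mem_interior_iff_mem_nhds.1 ho)
  refine ⟨_, convex_gauge p c h0, fun x => ?_, fun x => ?_⟩
  · rw [gauge_le_one_iff_mem_closure c h0, p.1.isClosed.closure_eq]
    rfl
  · rw [gauge_eq_one_iff_mem_frontier c h0]
    exact Set.ext_iff.1 ((Homeomorph.addLeft o).preimage_frontier A).symm x

theorem zcone {n : ℕ} {A B : Set (Rn n)} (pA : Poly A) (cA : Convex ℝ A) {o : Rn n}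
    (ho : o ∈ interior A) (pB : Poly B) (cB : Convex ℝ B) {c : Rn n} (hc : c ∈ interior B)
    {β : Rn n → Rn n} (hβ : TP β) (hb : BijOn β (frontier A) (frontier B))
    (hne : (frontier A).Nonempty) : ∃ χ : Rn n → Rn n, TP χ ∧ BijOn χ A B ∧
      (∀ x ∈ frontier A, ∀ t : ℝ, 0 ≤ t → χ (o + t • (x - o)) = c + t • (β x - c)) ∧
      ∀ q ∈ A, ∃ x ∈ frontier A, ∃ t ∈ Icc (0 : ℝ) 1, q = o + t • (x - o) := by
  obtain ⟨r, g, r1, r2⟩ := zgauge pA cA ho
  obtain ⟨r', g', r1', r2'⟩ := zgauge pB cB hc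
  obtain ⟨Φ, k, k1, k2⟩ := fill_cone g g' (g := fun x => β (o + x) - c)
    ((hβ.comp ((TP.const o).add TP.id')).sub (TP.const c)) (by
      refine ⟨fun x hx => (r2' _).2 ?_, fun x hx y hy e => ?_, fun y hy => ?_⟩
      · simpa using hb.mapsTo ((r2 x).1 hx)
      · exact add_left_cancel (hb.injOn ((r2 x).1 hx) ((r2 y).1 hy) (sub_left_injective e))
      · obtain ⟨x, hx, e⟩ := hb.surjOn ((r2' y).1 hy)
        exact ⟨x - o, (r2 _).2 (by simpa using hx), by simp [e]⟩)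
  refine ⟨fun q => c + Φ (q - o), (TP.const c).add (k.tp.comp (TP.id'.sub (TP.const o))),
    ⟨fun q hq => (r1' _).1 ?_, fun x _ y _ e => sub_left_injective (k.inj (add_left_cancel e)),
      fun y hy => ?_⟩, fun x hx t ht => ?_, fun q hq => ?_⟩
  · rw [k1]
    exact (r1 _).2 (by simpa using hq)
  · obtain ⟨x, hx⟩ := k.1.2 (y - c)
    refine ⟨o + x, (r1 x).1 ?_, by simp [hx]⟩
    rw [← k1, hx]
    exact (r1' _).2 (by simpa using hy)
  · simp only [add_sub_cancel_left]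
    rw [k2 (x - o) ((r2 _).2 (by simpa using hx)) t ht]
    simp
  · rcases pfill_polar g (q - o) with e | ⟨x, hx, t, ht, e⟩
    · obtain ⟨x, hx⟩ := hne
      exact ⟨x, hx, 0, ⟨le_rfl, zero_le_one⟩, by simpa [sub_eq_zero] using e⟩
    · refine ⟨o + x, (r2 x).1 hx, t, ⟨ht.le, ?_⟩, by rw [add_sub_cancel_left, ← e]; simp⟩
      have := (r1 (q - o)).2 (by simpa using hq)
      rwa [e, g.hom _ _ ht.le, hx, mul_one] at this

theorem zfind {t : ℕ → ℝ} {x : ℝ} (h0 : t 0 ≤ x) : ∀ {m : ℕ}, x < t m →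
    ∃ i < m, t i ≤ x ∧ x < t (i + 1) := by
  intro m
  induction m with
  | zero => exact fun h => absurd h (not_lt.2 h0)
  | succ m ih =>
    intro h
    by_cases h1 : x < t m
    · obtain ⟨i, hi, h2⟩ := ih h1
      exact ⟨i, by omega, h2⟩
    · exact ⟨m, by omega, not_lt.1 h1, h⟩

theorem zfind' {t : ℕ → ℝ} {x : ℝ} (h0 : t 0 ≤ x) : ∀ {m : ℕ}, 0 < m → x ≤ t m →
    ∃ i < m, x ∈ Icc (t i) (t (i + 1)) := by
  intro m
  induction m with
  | zero => exact fun h => absurd h (lt_irrefl 0)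
  | succ m ih =>
    intro _ h
    by_cases h1 : t m ≤ x
    · exact ⟨m, by omega, h1, h⟩
    · rcases Nat.eq_zero_or_pos m with rfl | h2
      · exact absurd h0 h1
      · obtain ⟨i, hi, h3⟩ := ih h2 (not_le.1 h1).le
        exact ⟨i, by omega, h3⟩

variable {U : Set (Rn 2)} {m : ℕ} {v : ℕ → Rn 2}

theorem zloop (h : ZP U m v) : ∃ (γ : ℝ → Rn 2) (u : ℕ → ℝ), TP γ ∧ u 0 = 0 ∧ u m = 1 ∧
    (∀ i < m, u i < u (i + 1)) ∧ (∀ i < m, zper m v * (u (i + 1) - u i) = ‖v (i + 1) - v i‖) ∧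
    (∀ i < m, ∀ x ∈ Icc (u i) (u (i + 1)),
      γ x = seg (v i) (v (i + 1)) ((x - u i) / (u (i + 1) - u i))) ∧
    (∀ x y, ‖γ x - γ y‖ ≤ zper m v * |x - y|) ∧ BijOn γ (Ico 0 1) (frontier U) ∧ γ 1 = γ 0 := by
  have l0 : ∀ i < m, 0 < ‖v (i + 1) - v i‖ := fun i hi =>
    norm_pos_iff.2 (sub_ne_zero.2 (h.ne i hi).symm)
  have P0 : 0 < zper m v :=
    Finset.sum_pos (fun i hi => l0 i (Finset.mem_range.1 hi)) ⟨0, Finset.mem_range.2 h.pos⟩
  obtain ⟨u, hu⟩ : ∃ u : ℕ → ℝ, ∀ i, u i = zper i v / zper m v := ⟨_, fun _ => rfl⟩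
  have u0 : u 0 = 0 := by simp [hu, zper]
  have um : u m = 1 := by rw [hu, div_self P0.ne']
  have ud : ∀ i, zper m v * (u (i + 1) - u i) = ‖v (i + 1) - v i‖ := fun i => by
    rw [hu, hu, ← sub_div, mul_div_cancel₀ _ P0.ne']
    simp [zper, Finset.sum_range_succ]
  have ul : ∀ i < m, u i < u (i + 1) := fun i hi =>
    sub_pos.1 ((mul_pos_iff_of_pos_left P0).1 (by rw [ud]; exact l0 i hi))
  have umo : Monotone u := monotone_nat_of_le_succ fun i =>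
    sub_nonneg.1 ((mul_nonneg_iff_of_pos_left P0).1 (by rw [ud]; positivity))
  obtain ⟨γ, hγ⟩ : ∃ γ : ℝ → Rn 2, ∀ x, γ x = v 0 + ∑ i ∈ Finset.range m,
      ((min x (u (i + 1)) - min x (u i)) / (u (i + 1) - u i)) • (v (i + 1) - v i) :=
    ⟨_, fun _ => rfl⟩
  have pc : ∀ i < m, ∀ x ∈ Icc (u i) (u (i + 1)),
      γ x = seg (v i) (v (i + 1)) ((x - u i) / (u (i + 1) - u i)) := by
    intro i hi x hx
    rw [hγ, ← Finset.sum_subset (Finset.range_mono (Nat.succ_le_of_lt hi)), Finset.sum_range_succ,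
      min_eq_left hx.2, min_eq_right hx.1, Finset.sum_congr rfl (g := fun j => v (j + 1) - v j),
      Finset.sum_range_sub, seg, ← add_assoc, add_sub_cancel]
    · intro j hj
      have hj' := Finset.mem_range.1 hj
      rw [min_eq_right ((umo (Nat.succ_le_of_lt hj')).trans hx.1),
        min_eq_right ((umo hj'.le).trans hx.1), div_self (sub_pos.2 (ul j (by omega))).ne',
        one_smul]
    · intro j _ hj
      have hj' : i + 1 ≤ j := not_lt.1 fun k => hj (Finset.mem_range.2 k)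
      rw [min_eq_left (hx.2.trans (umo (by omega))), min_eq_left (hx.2.trans (umo hj')), sub_self,
        zero_div, zero_smul]
  have lip : ∀ x y, x ≤ y → ‖γ y - γ x‖ ≤ zper m v * (y - x) := by
    intro x y hxy
    rw [hγ, hγ, add_sub_add_left_eq_sub, ← Finset.sum_sub_distrib]
    refine (norm_sum_le _ _).trans ?_
    rw [Finset.sum_congr rfl (g := fun i => zper m v * ((min y (u (i + 1)) - min x (u (i + 1))) -
      (min y (u i) - min x (u i)))), ← Finset.mul_sum,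
      Finset.sum_range_sub (fun i => min y (u i) - min x (u i))]
    · refine mul_le_mul_of_nonneg_left ?_ P0.le
      rw [u0, um]
      simp only [min_def]
      split_ifs <;> linarith
    · intro i hi
      have h1 := sub_pos.2 (ul i (Finset.mem_range.1 hi))
      have h2 : 0 ≤ (min y (u (i + 1)) - min y (u i)) - (min x (u (i + 1)) - min x (u i)) := by
        simp only [min_def]
        split_ifs <;> linarith
      rw [← sub_smul, ← sub_div, norm_smul, Real.norm_of_nonneg (div_nonneg h2 h1.le), ← ud]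
      field_simp
      ring
  have rg : ∀ i < m, ∀ x, u i ≤ x → x < u (i + 1) →
      (x - u i) / (u (i + 1) - u i) ∈ Ico (0 : ℝ) 1 := fun i hi x h1 h2 =>
    ⟨div_nonneg (sub_nonneg.2 h1) (sub_pos.2 (ul i hi)).le,
      (div_lt_one (sub_pos.2 (ul i hi))).2 (by linarith)⟩
  have g0 : γ 0 = v 0 := by
    rw [pc 0 h.pos 0 ⟨u0.le, u0.symm.le.trans (ul 0 h.pos).le⟩, u0]
    simp [seg]
  have g1 : γ 1 = v 0 := by
    obtain ⟨k, rfl⟩ := Nat.exists_eq_succ_of_ne_zero h.pos.ne'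
    have := ul k (Nat.lt_succ_self k)
    rw [pc k (Nat.lt_succ_self k) 1 ⟨um ▸ this.le, um.ge⟩, ← h.cyc, um,
      div_self (by rw [um] at this; linarith)]
    simp [seg]
  refine ⟨γ, u, ?_, u0, um, ul, fun i _ => ud i, pc, fun x y => ?_, ⟨fun x hx => ?_,
    fun x hx y hy e => ?_, fun z hz => ?_⟩, g1.trans g0.symm⟩
  · rw [funext hγ]
    exact (TP.const _).add (TP.sum _ fun i _ => (((TP.id'.min (TP.const _)).sub
      (TP.id'.min (TP.const _))).div_const _).smul_const _)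
  · rcases le_total x y with k | k
    · rw [norm_sub_rev, abs_sub_comm, abs_of_nonneg (sub_nonneg.2 k)]
      exact lip x y k
    · rw [abs_of_nonneg (sub_nonneg.2 k)]
      exact lip y x k
  · obtain ⟨i, hi, h1, h2⟩ := zfind (u0.le.trans hx.1) (hx.2.trans_eq um.symm)
    rw [pc i hi x ⟨h1, h2.le⟩]
    exact (h.cov _).2 ⟨i, hi, seg_image _ _ ▸ mem_image_of_mem _ (Ico_subset_Icc_self
      (rg i hi x h1 h2))⟩
  · obtain ⟨i, hi, h1, h2⟩ := zfind (u0.le.trans hx.1) (hx.2.trans_eq um.symm)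
    obtain ⟨j, hj, k1, k2⟩ := zfind (u0.le.trans hy.1) (hy.2.trans_eq um.symm)
    rw [pc i hi x ⟨h1, h2.le⟩, pc j hj y ⟨k1, k2.le⟩] at e
    obtain ⟨rfl, e'⟩ := h.inj i hi j hj _ (rg i hi x h1 h2) _ (rg j hj y k1 k2) e
    rw [div_left_inj' (sub_pos.2 (ul i hi)).ne'] at e'
    linarith
  · obtain ⟨i, hi, hz⟩ := (h.cov z).1 hz
    rw [← seg_image] at hz
    obtain ⟨s, hs, rfl⟩ := hz
    have h1 := sub_pos.2 (ul i hi)
    have h2 : u i + s * (u (i + 1) - u i) ∈ Icc (u i) (u (i + 1)) :=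
      ⟨by nlinarith [hs.1], by nlinarith [hs.2]⟩
    have h3 := pc i hi _ h2
    rw [add_sub_cancel_left, mul_div_cancel_right₀ _ h1.ne'] at h3
    have h4 : u (i + 1) ≤ 1 := um ▸ umo (Nat.succ_le_of_lt hi)
    have h5 : 0 ≤ u i := u0 ▸ umo (Nat.zero_le i)
    rcases (h2.2.trans h4).lt_or_eq with k | k
    · exact ⟨_, ⟨h5.trans h2.1, k⟩, h3⟩
    · exact ⟨0, ⟨le_rfl, zero_lt_one⟩, by rw [← h3, k, g0, g1]⟩

/-- Position of a point of the boundary of the triangle on the loop. -/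
def zR (b : ℝ) (q : Rn 2) (x : ℝ) : Prop :=
  (q 0 = 0 ∧ x = b * (1 - q 1)) ∨ (q 0 = q 1 ∧ x = b + (1 - 2 * b) * q 0) ∨
    (q 1 = 1 ∧ x = 1 - b * q 0)

theorem zR_inj {b x : ℝ} (b0 : 0 < b) (b1 : b ≤ 1 / 8) {q q' : Rn 2} (hq : q ∈ Tri) (hq' : q' ∈ Tri)
    (h : zR b q x) (h' : zR b q' x) : q = q' := by
  obtain ⟨a1, a2, a3⟩ := hq
  obtain ⟨c1, c2, c3⟩ := hq'
  have b2 : 0 < 1 - 2 * b := by linarith
  refine p2c_ext.2 ?_
  rcases h with ⟨h1, h2⟩ | ⟨h1, h2⟩ | ⟨h1, h2⟩ <;> rcases h' with ⟨k1, k2⟩ | ⟨k1, k2⟩ | ⟨k1, k2⟩ <;>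
    constructor <;> nlinarith

theorem zbd {γ : ℝ → Rn 2} (hγ : TP γ) {S : Set (Rn 2)} (hb : BijOn γ (Ico 0 1) S)
    (e : γ 1 = γ 0) {b : ℝ} (b0 : 0 < b) (b1 : b ≤ 1 / 8) : ∃ β : Rn 2 → Rn 2, TP β ∧
      BijOn β bTri S ∧ ∀ q ∈ Tri, ∀ x, zR b q x → β q = γ x := by
  have pb : Poly bTri := pdsc_tri.poly'
  have t0 : TP fun q : Rn 2 => q 0 := TP.id'.apply 0
  have t1 : TP fun q : Rn 2 => q 1 := TP.id'.apply 1
  obtain ⟨β, hβ, k1, k2⟩ := tp_glue (poly_le pb ((t0.add t1).sub (TP.const 1)))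
    (poly_le pb ((TP.const 1).sub (t0.add t1)))
    (f := fun q => γ (b + (1 - 2 * b) * q 0 - b * (q 1 - q 0)))
    (g := fun q => γ (b + (1 - 2 * b) * q 1 + b * (q 1 - q 0)))
    (hγ.comp (((TP.const b).add (t0.const_mul _)).sub ((t1.sub t0).const_mul b)))
    (hγ.comp (((TP.const b).add (t1.const_mul _)).add ((t1.sub t0).const_mul b))) (by
      rintro q ⟨⟨⟨⟨a1, a2, a3⟩, a4⟩, a5⟩, -, a6⟩
      simp only at a5 a6 ⊢
      rcases a4 with a4 | a4 | a4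
      · rw [a4, (by linarith : q 1 = 1), (by ring : b + (1 - 2 * b) * 0 - b * (1 - 0) = 0),
          (by ring : b + (1 - 2 * b) * 1 + b * (1 - 0) = 1), e]
      · rw [a4, sub_self, mul_zero, sub_zero, add_zero]
      · rw [a4, (by linarith : q 0 = 0), (by ring : b + (1 - 2 * b) * 0 - b * (1 - 0) = 0),
          (by ring : b + (1 - 2 * b) * 1 + b * (1 - 0) = 1), e])
  have key : ∀ q ∈ Tri, ∀ x, zR b q x → β q = γ x := by
    rintro q ⟨a1, a2, a3⟩ x (⟨h1, rfl⟩ | ⟨h1, rfl⟩ | ⟨h1, rfl⟩)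
    · rw [k1 ⟨⟨⟨a1, a2, a3⟩, Or.inl h1⟩, by linarith⟩]
      simp only [h1]
      exact congrArg γ (by ring)
    · rcases le_total (q 0 + q 1) 1 with k | k
      · rw [k1 ⟨⟨⟨a1, a2, a3⟩, Or.inr (Or.inl h1)⟩, by linarith⟩]
        simp only [h1]
        exact congrArg γ (by ring)
      · rw [k2 ⟨⟨⟨a1, a2, a3⟩, Or.inr (Or.inl h1)⟩, by linarith⟩]
        simp only [h1]
        exact congrArg γ (by ring)
    · rw [k2 ⟨⟨⟨a1, a2, a3⟩, Or.inr (Or.inr h1)⟩, by linarith⟩]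
      simp only [h1]
      exact congrArg γ (by ring)
  have ex : ∀ q ∈ bTri, ∃ x ∈ Ico (0 : ℝ) 1, zR b q x := by
    rintro q ⟨⟨a1, a2, a3⟩, a4⟩
    by_cases h1 : q 0 = 0
    · exact ⟨_, ⟨by nlinarith, by nlinarith⟩, Or.inl ⟨h1, rfl⟩⟩
    · have h2 : 0 < q 0 := lt_of_le_of_ne a1 (Ne.symm h1)
      rcases a4.resolve_left h1 with a4 | a4
      · exact ⟨_, ⟨by nlinarith, by nlinarith⟩, Or.inr (Or.inl ⟨a4, rfl⟩)⟩
      · exact ⟨_, ⟨by nlinarith, by nlinarith⟩, Or.inr (Or.inr ⟨a4, rfl⟩)⟩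
  refine ⟨β, hβ, ⟨fun q hq => ?_, fun q hq q' hq' k => ?_, fun z hz => ?_⟩, key⟩
  · obtain ⟨x, hx, k⟩ := ex q hq
    rw [key q hq.1 x k]
    exact hb.mapsTo hx
  · obtain ⟨x, hx, k3⟩ := ex q hq
    obtain ⟨y, hy, k4⟩ := ex q' hq'
    rw [key q hq.1 x k3, key q' hq'.1 y k4] at k
    exact zR_inj b0 b1 hq.1 hq'.1 k3 (hb.injOn hx hy k ▸ k4)
  · obtain ⟨x, ⟨x0, x1⟩, rfl⟩ := hb.surjOn hz
    have b2 : 0 < 1 - 2 * b := by linarith
    have fin : ∀ q ∈ Tri, zR b q x → γ x ∈ β '' bTri := fun q hq k =>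
      ⟨q, ⟨hq, k.imp And.left (Or.imp And.left And.left)⟩, key q hq x k⟩
    rcases le_total x b with k | k
    · have := (div_le_one b0).2 k
      have := div_nonneg x0 b0.le
      exact fin ![0, 1 - x / b] ⟨by simp, by simpa, by simpa⟩
        (Or.inl ⟨rfl, by simp; field_simp⟩)
    · rcases le_total x (1 - b) with k' | k'
      · have k3 : (x - b) / (1 - 2 * b) ≤ 1 := (div_le_one b2).2 (by linarith)
        have k4 : 0 ≤ (x - b) / (1 - 2 * b) := div_nonneg (by linarith) b2.le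
        exact fin ![(x - b) / (1 - 2 * b), (x - b) / (1 - 2 * b)] ⟨k4, le_rfl, k3⟩
          (Or.inr (Or.inl ⟨rfl, by
            change x = b + (1 - 2 * b) * ((x - b) / (1 - 2 * b))
            rw [mul_div_cancel₀ _ b2.ne', add_sub_cancel]⟩))
      · have k3 : (1 - x) / b ≤ 1 := (div_le_one b0).2 (by linarith)
        have k4 : 0 ≤ (1 - x) / b := div_nonneg (by linarith) b0.le
        exact fin ![(1 - x) / b, 1] ⟨k4, k3, le_rfl⟩
          (Or.inr (Or.inr ⟨rfl, by simp; field_simp; ring⟩))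

end BEp
end
end
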