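import Pool.Agent.Work.MP_f0515e_an.D3.EML
import Pool.Agent.Work.MP_f0515e_an.D3.EMH
import Pool.Agent.Work.MP_f0515e_an.P2.CutB
import Pool.Agent.Work.MP_f0515e_an.P3.ZChart1
import Pool.Agent.Work.MP_f0515e_an.P3.YFl1

-- merged part: Pool.Agent.Work.MP_f0515e_an.D3.EBc1
section
/-! Matching of intervals: one interval, gluing, induction on the interval with the largest left
end. -/

open Set Metric Filter Topology Function BEv
open scoped NNReal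

noncomputable section
namespace BEp

theorem ebc1_linv {φ : ℝ → ℝ} (h : TP φ) {a b : ℝ} (hi : InjOn φ (Icc a b)) :
    ∃ k : ℝ → ℝ, TP k ∧ ∀ u ∈ Icc a b, k (φ u) = u := by
  have h0 : TP fun (t : ℝ) (_ : Fin 1) => t := TP.pi fun _ => TP.id'
  obtain ⟨k, h1, h2⟩ := tp_linv (poly_real h0 a b) (g := fun x (_ : Fin 1) => φ (x 0))
    (TP.pi fun _ => h.comp (TP.id'.apply 0)) (by
      rintro _ ⟨s, hs, rfl⟩ _ ⟨t, ht, rfl⟩ e
      exact funext fun _ => hi hs ht (congrFun e 0))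
  exact ⟨fun t => k (fun _ => t) 0, (h1.comp h0).apply 0,
    fun u hu => congrFun (h2 _ ⟨u, hu, rfl⟩) 0⟩

theorem ebc1_one {φ φ' : ℝ → ℝ} {a b a' b' : ℝ} (hab : a < b) (hab' : a' < b') (h : TP φ)
    (hi : InjOn φ (Icc a b)) (h' : TP φ') (hi' : InjOn φ' (Icc a' b')) (ea : φ' a' = φ a)
    (eb : φ' b' = φ b) : ∃ ψ : ℝ → ℝ, TP ψ ∧ StrictMonoOn ψ (Icc a b) ∧ ψ a = a' ∧ ψ b = b' ∧
      ∀ u ∈ Icc a b, φ' (ψ u) = φ u := by
  obtain ⟨k, h1, h2⟩ := ebc1_linv h' hi'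
  have h3 : ∀ u ∈ Icc a b, φ' (k (φ u)) = φ u := fun u hu => by
    have h4 : φ u ∈ uIcc (φ' a') (φ' b') := by
      rw [ea, eb, mem_uIcc]
      refine (h.continuous.continuousOn.strictMonoOn_of_injOn_Icc' hab.le hi).imp
        (fun m => ?_) fun m => ?_
      · exact ⟨m.monotoneOn (left_mem_Icc.2 hab.le) hu hu.1,
          m.monotoneOn hu (right_mem_Icc.2 hab.le) hu.2⟩
      · exact ⟨m.antitoneOn hu (right_mem_Icc.2 hab.le) hu.2,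
          m.antitoneOn (left_mem_Icc.2 hab.le) hu hu.1⟩
    obtain ⟨w, hw, e⟩ := intermediate_value_uIcc h'.continuous.continuousOn h4
    rw [uIcc_of_le hab'.le] at hw
    rw [← e, h2 w hw]
  have h5 : k (φ a) = a' := by rw [← ea, h2 _ (left_mem_Icc.2 hab'.le)]
  have h6 : k (φ b) = b' := by rw [← eb, h2 _ (right_mem_Icc.2 hab'.le)]
  refine ⟨fun u => k (φ u), h1.comp h, ?_, h5, h6, h3⟩
  refine (h1.comp h).continuous.continuousOn.strictMonoOn_of_injOn_Icc hab.le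
    (h5.trans_le (hab'.le.trans_eq h6.symm)) fun s hs t ht e => hi hs ht ?_
  rw [← h3 s hs, ← h3 t ht]
  exact congrArg φ' e

theorem ebc1_aff {p q p' q' : ℝ} (h : p < q) (h' : p' < q') :
    ∃ ψ : ℝ → ℝ, TP ψ ∧ StrictMono ψ ∧ ψ p = p' ∧ ψ q = q' := by
  have h1 := sub_pos.2 h
  refine ⟨fun u => p' + (q' - p') / (q - p) * (u - p),
    (TP.const _).add ((TP.id'.sub (TP.const _)).const_mul _), fun s t e => ?_, ?_, ?_⟩
  · have := mul_lt_mul_of_pos_left (sub_lt_sub_right e p) (div_pos (sub_pos.2 h') h1)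
    linarith
  · simp only [sub_self, mul_zero, add_zero]
  · simp only [div_mul_cancel₀ _ h1.ne', add_sub_cancel]

theorem ebc1_glue {f g : ℝ → ℝ} {p q r : ℝ} (hf : TP f) (hg : TP g) (h1 : p ≤ q) (h2 : q ≤ r)
    (mf : StrictMonoOn f (Icc p q)) (mg : StrictMonoOn g (Icc q r)) (e : f q = g q) :
    ∃ k : ℝ → ℝ, TP k ∧ StrictMonoOn k (Icc p r) ∧ (∀ u, u ≤ q → k u = f u) ∧
      ∀ u, q ≤ u → k u = g u := by
  have h3 : ∀ u, u ≤ q → (if u - q ≤ 0 then f u else g u) = f u :=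
    fun u hu => if_pos (sub_nonpos.2 hu)
  have h4 : ∀ u, q ≤ u → (if u - q ≤ 0 then f u else g u) = g u := fun u hu => by
    split_ifs with k
    · rw [le_antisymm (sub_nonpos.1 k) hu, e]
    · rfl
  refine ⟨_, tp_ite hf hg (s := fun u => u - q) (continuous_id.sub continuous_const)
    fun u hu => by rw [sub_eq_zero.1 hu, e], ?_, h3, h4⟩
  rw [← Icc_union_Icc_eq_Icc h1 h2]
  exact StrictMonoOn.union (mf.congr fun u hu => (h3 u hu.2).symm)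
    (mg.congr fun u hu => (h4 u hu.1).symm) (isGreatest_Icc h1) (isLeast_Icc h2)

theorem ebc1_ind {ι : Type} {a b a' b' : ι → ℝ} {ψ : ι → ℝ → ℝ} (M : Finset ι) :
    ∀ v v' : ℝ, -1 < v → -1 < v' → (∀ j ∈ M, -1 < a j ∧ a j < b j ∧ b j < v) →
      (∀ j ∈ M, -1 < a' j ∧ b' j < v') →
      (∀ j ∈ M, ∀ k ∈ M, j ≠ k → (b j < a k ∧ b' j < a' k) ∨ (b k < a j ∧ b' k < a' j)) →
      (∀ j ∈ M, TP (ψ j) ∧ StrictMonoOn (ψ j) (Icc (a j) (b j)) ∧ ψ j (a j) = a' j ∧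
        ψ j (b j) = b' j) →
      ∃ ρ : ℝ → ℝ, TP ρ ∧ StrictMonoOn ρ (Icc (-1) v) ∧ ρ (-1) = -1 ∧ ρ v = v' ∧
        ∀ j ∈ M, ∀ u ∈ Icc (a j) (b j), ρ u = ψ j u := by
  classical
  induction M using Finset.induction_on_max_value a with
  | empty =>
    intro v v' hv hv' _ _ _ _
    obtain ⟨ρ, r1, r2, r3, r4⟩ := ebc1_aff hv hv'
    exact ⟨ρ, r1, r2.strictMonoOn _, r3, r4, fun j hj => absurd hj (Finset.notMem_empty j)⟩
  | insert i s hi hm ih =>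
    intro v v' _ _ h1 h1' h2 h3
    have m0 := Finset.mem_insert_self i s
    have m1 : ∀ j ∈ s, j ∈ insert i s := fun j hj => Finset.mem_insert_of_mem hj
    obtain ⟨i1, i2, i3⟩ := h1 i m0
    obtain ⟨i4, i5⟩ := h1' i m0
    obtain ⟨i6, i7, i8, i9⟩ := h3 i m0
    have h4 : ∀ j ∈ s, b j < a i ∧ b' j < a' i := fun j hj =>
      (h2 j (m1 j hj) i m0 fun e => hi (e ▸ hj)).resolve_right
        fun k => absurd (hm j hj) (not_le.2 (i2.trans k.1))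
    obtain ⟨ρ, r1, r2, r3, r4, r5⟩ := ih (a i) (a' i) i1 i4
      (fun j hj => ⟨(h1 j (m1 j hj)).1, (h1 j (m1 j hj)).2.1, (h4 j hj).1⟩)
      (fun j hj => ⟨(h1' j (m1 j hj)).1, (h4 j hj).2⟩)
      (fun j hj k hk => h2 j (m1 j hj) k (m1 k hk)) fun j hj => h3 j (m1 j hj)
    obtain ⟨g, g1, g2, g3, g4⟩ := ebc1_aff i3 i5
    obtain ⟨k, k1, k2, k3, k4⟩ := ebc1_glue i6 g1 i2.le i3.le i7 (g2.strictMonoOn _)
      (i9.trans g3.symm)
    obtain ⟨l, l1, l2, l3, l4⟩ := ebc1_glue r1 k1 i1.le (i2.trans i3).le r2 k2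
      (r4.trans (i8.symm.trans (k3 _ i2.le).symm))
    refine ⟨l, l1, l2, (l3 _ i1.le).trans r3,
      (l4 _ (i2.trans i3).le).trans ((k4 _ i3.le).trans g4), fun j hj u hu => ?_⟩
    rcases Finset.mem_insert.1 hj with rfl | hj
    · exact (l4 u hu.1).trans (k3 u hu.2)
    · exact (l3 u (hu.2.trans (h4 j hj).1.le)).trans (r5 j hj u hu)

theorem ebc1_match {ι : Type} {M : Set ι} (hM : M.Finite) {a b a' b' : ι → ℝ}
    {φ φ' : ι → ℝ → ℝ} (h1 : ∀ j ∈ M, -1 < a j ∧ a j < b j ∧ b j < 1)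
    (h1' : ∀ j ∈ M, -1 < a' j ∧ a' j < b' j ∧ b' j < 1)
    (h2 : ∀ j ∈ M, ∀ k ∈ M, j ≠ k → (b j < a k ∧ b' j < a' k) ∨ (b k < a j ∧ b' k < a' j))
    (h3 : ∀ j ∈ M, TP (φ j) ∧ InjOn (φ j) (Icc (a j) (b j)))
    (h3' : ∀ j ∈ M, TP (φ' j) ∧ InjOn (φ' j) (Icc (a' j) (b' j)))
    (h4 : ∀ j ∈ M, φ' j (a' j) = φ j (a j) ∧ φ' j (b' j) = φ j (b j)) :
    ∃ ρ : ℝ → ℝ, TP ρ ∧ StrictMonoOn ρ (Icc (-1) 1) ∧ ρ '' Icc (-1) 1 = Icc (-1) 1 ∧
      ρ (-1) = -1 ∧ ρ 1 = 1 ∧ ∀ j ∈ M, ρ (a j) = a' j ∧ ρ (b j) = b' j ∧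
        ∀ u ∈ Icc (a j) (b j), φ' j (ρ u) = φ j u := by
  lift M to Finset ι using hM
  choose! ψ p1 p2 p3 p4 p5 using fun j (hj : j ∈ M) => ebc1_one (h1 j hj).2.1 (h1' j hj).2.1
    (h3 j hj).1 (h3 j hj).2 (h3' j hj).1 (h3' j hj).2 (h4 j hj).1 (h4 j hj).2
  have h0 : (-1 : ℝ) < 1 := by norm_num
  obtain ⟨ρ, r1, r2, r3, r4, r5⟩ := ebc1_ind (ψ := ψ) M 1 1 h0 h0 h1
    (fun j hj => ⟨(h1' j hj).1, (h1' j hj).2.2⟩) h2
    fun j hj => ⟨p1 j hj, p2 j hj, p3 j hj, p4 j hj⟩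
  refine ⟨ρ, r1, r2, ?_, r3, r4, fun j hj => ⟨?_, ?_, fun u hu => ?_⟩⟩
  · rw [r1.continuous.continuousOn.image_Icc_of_monotoneOn h0.le r2.monotoneOn, r3, r4]
  · rw [r5 j hj _ (left_mem_Icc.2 (h1 j hj).2.1.le), p3 j hj]
  · rw [r5 j hj _ (right_mem_Icc.2 (h1 j hj).2.1.le), p4 j hj]
  · rw [r5 j hj u hu, p5 j hj u hu]

end BEp
end
end

-- merged part: Pool.Agent.Work.MP_f0515e_an.D3.EBc
section
/-! Cutting a disc along a band; matching of intervals.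
`bandcut`: pull back to the plane (`tp_linv`, `PCel.ball2`). The two sides `σ '' {p 1 = ± 1}` are chords. `cut2` along the upper side gives two discs; the rest of the band is connected and lies in one of them (`B₂`), the other is `D₁`.
`cut2` of `B₂` along the lower side gives two discs; the one whose boundary arc contains the upper side has boundary `σ '' sphere 0 1` (arcs: `tarc_eq`, `arc_uniq`; or show that `σ '' sphere 0 1` is a circle contained in the boundary circle, `tcrc_sub`), so it is the band (`Ball.uniq`).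
`band_T`: `tp_glue_fin` of `1`, `-1` and `(tp_linv σ) · 1`.
`match1`: induction on the number of intervals, stated for general ends `[u, v]`, `[u', v']` instead of `[-1, 1]`: take the interval with the largest `a`, cut at a point between it and the others, glue (`tp_ite` or `min`/`max` formulas).
On one interval `ρ = φ'⁻¹ ∘ φ` (a continuous injective function on an interval is strictly monotone, `ContinuousOn.strictMonoOn_of_injOn_Icc'`; PL inverse by `tp_linv` in `Rn 1` or `arc_bij`), affine on the two ends. About 450 lines; split EBc1 (`match1`). -/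

open Set Metric Filter Topology Function BEv
open scoped NNReal

noncomputable section
namespace BEp

variable {n m : ℕ}

theorem bandcut {D S : Set (Rn n)} (h : PDsc D S) {σ : Rn 2 → Rn n} (h1 : TP σ)
    (h2 : InjOn σ (closedBall 0 1)) (h3 : σ '' closedBall 0 1 ⊆ D)
    (h4 : ∀ p ∈ closedBall (0 : Rn 2) 1, (σ p ∈ S ↔ |p 0| = 1)) :
    ∃ D₁ D₂, PDsc D₁ ((S ∩ D₁) ∪ σ '' {p | ‖p‖ ≤ 1 ∧ p 1 = 1}) ∧
      PDsc D₂ ((S ∩ D₂) ∪ σ '' {p | ‖p‖ ≤ 1 ∧ p 1 = -1}) ∧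
      D₁ ∪ σ '' closedBall 0 1 ∪ D₂ = D ∧ Disjoint D₁ D₂ ∧
      D₁ ∩ σ '' closedBall 0 1 = σ '' {p | ‖p‖ ≤ 1 ∧ p 1 = 1} ∧
      D₂ ∩ σ '' closedBall 0 1 = σ '' {p | ‖p‖ ≤ 1 ∧ p 1 = -1} :=
  ebc2_band h h1 h2 h3 h4

theorem band_T {D S : Set (Rn n)} (h : PDsc D S) {σ : Rn 2 → Rn n} (h1 : TP σ)
    (h2 : InjOn σ (closedBall 0 1)) (h3 : σ '' closedBall 0 1 ⊆ D)
    (h4 : ∀ p ∈ closedBall (0 : Rn 2) 1, (σ p ∈ S ↔ |p 0| = 1)) :
    ∃ T : Rn n → ℝ, TP T ∧ (∀ p ∈ closedBall (0 : Rn 2) 1, T (σ p) = p 1) ∧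
      ∀ x ∈ D, x ∉ σ '' closedBall 0 1 → |T x| = 1 :=
  ebc2_T h h1 h2 h3 h4

theorem match1 {ι : Type} {M : Set ι} (hM : M.Finite) {a b a' b' : ι → ℝ} {φ φ' : ι → ℝ → ℝ}
    (h1 : ∀ j ∈ M, -1 < a j ∧ a j < b j ∧ b j < 1) (h1' : ∀ j ∈ M, -1 < a' j ∧ a' j < b' j ∧ b' j < 1)
    (h2 : ∀ j ∈ M, ∀ k ∈ M, j ≠ k → (b j < a k ∧ b' j < a' k) ∨ (b k < a j ∧ b' k < a' j))
    (h3 : ∀ j ∈ M, TP (φ j) ∧ InjOn (φ j) (Icc (a j) (b j)))
    (h3' : ∀ j ∈ M, TP (φ' j) ∧ InjOn (φ' j) (Icc (a' j) (b' j)))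
    (h4 : ∀ j ∈ M, φ' j (a' j) = φ j (a j) ∧ φ' j (b' j) = φ j (b j)) :
    ∃ ρ : ℝ → ℝ, TP ρ ∧ StrictMonoOn ρ (Icc (-1) 1) ∧ ρ '' Icc (-1) 1 = Icc (-1) 1 ∧
      ρ (-1) = -1 ∧ ρ 1 = 1 ∧ ∀ j ∈ M, ρ (a j) = a' j ∧ ρ (b j) = b' j ∧
        ∀ u ∈ Icc (a j) (b j), φ' j (ρ u) = φ j u := by
  exact ebc1_match hM h1 h1' h2 h3 h3' h4

end BEp
end
end

-- merged part: Pool.Agent.Work.MP_f0515e_an.D3.ERl
section
/-! The pattern of walls on a disc in standard position.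
`esec` for every wall (no circles by `NoC`); `I` = pairs (wall, arc). For an arc `K = γ '' Icc 0 1` put `σ p = cf (θ w) (γ ((p 0 + 1) / 2)) (p 1)`, `T` from `band_T`. The bands of one wall are disjoint closed sets with union `F ∩ cN`, so a
connected subset of `F ∩ cN` which meets a band lies in it. `crs`: if `x ∈ B i ∩ B j`, slide along the fibre of `w` to `K`, then along the fibre of `w'` to a point `z` of `K ∩ K'`, unique by `NoB`; hence `K ∩ B j` is the fibre of `w'` through `z`,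
a subarc `γ '' [a, b]` of `K` off `J`; `T j` is the coordinate of `w'` on `B j`, constant along the fibres of `w`. About 450 lines. -/

open Set Metric Filter Topology Function BEv
open scoped NNReal

noncomputable section
namespace BEp

variable {n m : ℕ}

theorem erl_ball {p : Rn 2} : p ∈ closedBall (0 : Rn 2) 1 ↔
    (p 0 + 1) / 2 ∈ Icc (0 : ℝ) 1 ∧ p 1 ∈ Icc (-1 : ℝ) 1 := by
  rw [mem_closedBall_zero_iff, pi_norm_le_iff_of_nonneg zero_le_one, Fin.forall_fin_two,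
    Real.norm_eq_abs, Real.norm_eq_abs, abs_le, abs_le]
  exact and_congr ⟨fun h => ⟨by linarith [h.1], by linarith [h.2]⟩,
    fun h => ⟨by linarith [h.1], by linarith [h.2]⟩⟩ Iff.rfl

theorem erl_ival {γ δ : ℝ → Rn 3} (hγ : Continuous γ) (hi : InjOn γ (Icc 0 1)) (hδ : Continuous δ)
    (hs : ∀ t ∈ Icc (-1 : ℝ) 1, δ t ∈ γ '' Icc 0 1) (hn : δ (-1) ≠ δ 1) :
    ∃ a b, a < b ∧ ∀ s, (s ∈ Icc (0 : ℝ) 1 ∧ γ s ∈ δ '' Icc (-1) 1) ↔ s ∈ Icc a b := by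
  obtain ⟨a, b, h1⟩ : ∃ a b, (invFunOn γ (Icc 0 1) ∘ δ) '' Icc (-1) 1 = Icc a b :=
    ⟨_, _, ((ptop_inv isCompact_Icc hγ.continuousOn Subset.rfl hi fun _ h _ => h).comp
      hδ.continuousOn hs).image_Icc (by norm_num)⟩
  refine ⟨a, b, lt_of_not_ge fun h => hn ?_, fun s => ?_⟩
  rotate_left
  · rw [← h1]
    refine ⟨fun ⟨h2, t, ht, e⟩ => ⟨t, ht, ?_⟩, ?_⟩
    · rw [Function.comp_apply, e, hi.leftInvOn_invFunOn h2]
    · rintro ⟨t, ht, rfl⟩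
      exact ⟨invFunOn_mem (hs t ht), t, ht, (invFunOn_eq (hs t ht)).symm⟩
  · have m1 : (-1 : ℝ) ∈ Icc (-1 : ℝ) 1 := by norm_num
    have m2 : (1 : ℝ) ∈ Icc (-1 : ℝ) 1 := by norm_num
    have h2 := (h1.symm ▸ subsingleton_Icc_of_ge h :) (mem_image_of_mem _ m1) (mem_image_of_mem _ m2)
    rw [← invFunOn_eq (hs _ m1), ← invFunOn_eq (hs _ m2)]
    exact congrArg γ h2

section
variable {θ θ' : Rn 3 → Rn 3} {W W' : Set (Rn 2)} {x : Rn 3} {t : ℝ}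

theorem erl_cc (h : LH θ) (x : Rn 3) (s t : ℝ) : cf θ (cf θ x s) t = cf θ x t := cf_mk h _ _ _

theorem erl_self (h : LH θ) (x : Rn 3) : cf θ x (invFun θ x 2) = x := by
  rw [cf, mk3_pj3, h.ri]

theorem erl_crd (h : LH θ) (x : Rn 3) (t : ℝ) : invFun θ (cf θ x t) 2 = t := by
  rw [cf, h.li, mk3_2]

theorem erl_le (h : LH θ) (hx : x ∈ cN θ W) : invFun θ x 2 ∈ Icc (-1 : ℝ) 1 := by
  obtain ⟨y, hy, rfl⟩ := hx
  rw [h.li]
  exact abs_le.1 hy.2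

theorem erl_in (h : LH θ) (hx : x ∈ cN θ W) (ht : t ∈ Icc (-1 : ℝ) 1) : cf θ x t ∈ cN θ W := by
  obtain ⟨y, hy, rfl⟩ := hx
  rw [cf, h.li]
  exact (mem_cN h).2 ⟨hy.1, abs_le.2 ht⟩

theorem erl_tp (h : LH θ) {E : Type} [NormedAddCommGroup E] [NormedSpace ℝ E] {g : E → Rn 3}
    {u : E → ℝ} (hg : TP g) (hu : TP u) : TP fun p => cf θ (g p) (u p) :=
  h.tp.comp ((tp_pj3.comp (h.tpi.comp hg)).mk3 hu)

theorem erl_zero : (0 : ℝ) ∈ Icc (-1 : ℝ) 1 := by norm_num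

theorem erl_band (h : LH θ) {γ : ℝ → Rn 3} (hγ : γ '' Icc 0 1 ⊆ Co (cN θ W) (cf θ)) :
    x ∈ (fun p : Rn 2 => cf θ (γ ((p 0 + 1) / 2)) (p 1)) '' closedBall 0 1 ↔
      x ∈ cN θ W ∧ cf θ x 0 ∈ γ '' Icc 0 1 := by
  constructor
  · rintro ⟨p, hp, rfl⟩
    have h1 := mem_image_of_mem γ (erl_ball.1 hp).1
    refine ⟨erl_in h (hγ h1).1 (erl_ball.1 hp).2, ?_⟩
    rw [erl_cc h, (hγ h1).2]
    exact h1
  · rintro ⟨h1, s, hs, e⟩
    have e1 : (2 * s - 1 + 1) / 2 = s := by ring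
    refine ⟨![2 * s - 1, invFun θ x 2], erl_ball.2 ⟨e1.symm ▸ hs, erl_le h h1⟩, ?_⟩
    change cf θ (γ ((2 * s - 1 + 1) / 2)) (invFun θ x 2) = x
    rw [e1, e, erl_cc h, erl_self h]

theorem erl_slide {F K : Set (Rn 3)} {𝒞 : Set (Set (Rn 3))} (h : LH θ) (h' : LH θ')
    (hf : 𝒞.Finite) (hu : ⋃₀ 𝒞 = F ∩ Co (cN θ' W') (cf θ')) (hd : 𝒞.PairwiseDisjoint id)
    (hc : ∀ K ∈ 𝒞, IsClosed K) (i1 : Iw (cN θ W) (cf θ) F) (i2 : Iw (cN θ' W') (cf θ') F)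
    (hF : x ∈ F) (hx : x ∈ cN θ W) (hs : ∀ t ∈ Icc (-1 : ℝ) 1, cf θ x t ∈ cN θ' W') (hK : K ∈ 𝒞)
    (hm : cf θ' x 0 ∈ K) (ht : t ∈ Icc (-1 : ℝ) 1) : cf θ' (cf θ x t) 0 ∈ K := by
  have h1 : IsPreconnected ((fun t => cf θ' (cf θ x t) 0) '' Icc (-1) 1) :=
    isPreconnected_Icc.image _
      (erl_tp h' (erl_tp h (TP.const x) TP.id') (TP.const 0)).continuous.continuousOn
  have h2 : ∀ y ∈ K, y ∉ ⋃₀ (𝒞 \ {K}) := fun y hy ⟨K', hK', hy'⟩ =>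
    disjoint_left.1 (hd hK'.1 hK hK'.2) hy' hy
  refine (isPreconnected_iff_subset_of_disjoint_closed.1 h1 K (⋃₀ (𝒞 \ {K})) (hc K hK) ?_ ?_
    (eq_empty_of_forall_notMem fun y hy => h2 y hy.2.1 hy.2.2)).elim
    (fun k => k (mem_image_of_mem _ ht)) fun k => (h2 _ hm (k ⟨_, erl_le h hx, ?_⟩)).elim
  · rw [sUnion_eq_biUnion]
    exact (hf.subset sdiff_subset).isClosed_biUnion fun K hK => hc K hK.1
  · rintro _ ⟨s, hs', rfl⟩
    obtain ⟨K', hK', hy⟩ : cf θ' (cf θ x s) 0 ∈ ⋃₀ 𝒞 := hu ▸ ⟨i2 _ (i1 x hF hx s hs') (hs s hs') 0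
      erl_zero, erl_in h' (hs s hs') erl_zero, erl_cc h' _ _ _⟩
    by_cases e : K' = K
    exacts [Or.inl (e ▸ hy), Or.inr ⟨K', ⟨hK', e⟩, hy⟩]
  · simp only [erl_self h]

end

theorem real_pat {κ : Type} [Finite κ] {θ : κ → Rn 3 → Rn 3} {W : κ → Set (Rn 2)} {col : κ → Bool}
    {F J : Set (Rn 3)} (hF : PDsc F J) (hθ : ∀ w, LH (θ w)) (hW : ∀ w, IsOpen (W w))
    (h1 : ∀ w, Iw (cN (θ w) (W w)) (cf (θ w)) F) (h2 : ∀ w, Iw (cN (θ w) (W w)) (cf (θ w)) J)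
    (hc : ∀ w, IsClosed (F ∩ cN (θ w) (W w)))
    (hd : ∀ w w', w ≠ w' → col w = col w' → Disjoint (F ∩ cN (θ w) (W w)) (cN (θ w') (W w')))
    (hx : ∀ w w', col w ≠ col w' → ∀ x ∈ F, x ∈ cN (θ w) (W w) → x ∈ cN (θ w') (W w') → x ∉ J ∧
      ∀ t ∈ Icc (-1 : ℝ) 1, cf (θ w) x t ∈ cN (θ w') (W w') ∧
        invFun (θ w') (cf (θ w) x t) 2 = invFun (θ w') x 2)
    (hC : NoC (fun w => cN (θ w) (W w)) (fun w => cf (θ w)) F)
    (hB : NoB (fun w => cN (θ w) (W w)) (fun w => cf (θ w)) col F) :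
    ∃ (I : Set (κ × Set (Rn 3))) (σ : κ × Set (Rn 3) → Rn 2 → Rn 3)
      (T : κ × Set (Rn 3) → Rn 3 → ℝ), I.Finite ∧ Pat F J I (fun i => col i.1) σ T ∧
      (∀ i ∈ I, ∀ p ∈ closedBall (0 : Rn 2) 1, σ i p ∈ cN (θ i.1) (W i.1) ∧
        ∀ t : ℝ, cf (θ i.1) (σ i p) t = σ i ![p 0, t]) ∧
      ∀ w, ∀ x ∈ F, x ∈ cN (θ w) (W w) → ∃ i ∈ I, i.1 = w ∧ x ∈ σ i '' closedBall 0 1 := by
  choose 𝒞 c1 c2 c3 c4 using fun w => esec (hθ w) (hW w) hF (h1 w) (h2 w) (hc w)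
  have c5 : ∀ w, ∀ K ∈ 𝒞 w, K ⊆ F ∩ Co (cN (θ w) (W w)) (cf (θ w)) := fun w K hK =>
    c2 w ▸ subset_sUnion_of_mem hK
  have c6 : ∀ w, ∀ K ∈ 𝒞 w, ∃ a b, Arc K a b ∧ K ∩ J = {a, b} := fun w K hK =>
    (c4 w K hK).resolve_left fun h => hC w K h.1 (c5 w K hK)
  have c7 : ∀ i : κ × Set (Rn 3), i.2 ∈ 𝒞 i.1 → ∃ γ : ℝ → Rn 3, TP γ ∧ InjOn γ (Icc 0 1) ∧
      γ '' Icc 0 1 = i.2 ∧ i.2 ∩ J = {γ 0, γ 1} := fun i hi => by
    obtain ⟨_, _, ⟨γ, k1, k2, rfl, rfl, k3⟩, k4⟩ := c6 _ _ hi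
    exact ⟨γ, k1, k2, k3, k4⟩
  choose! γ g1 g2 g3 g4 using c7
  let σ : κ × Set (Rn 3) → Rn 2 → Rn 3 := fun i p => cf (θ i.1) (γ i ((p 0 + 1) / 2)) (p 1)
  have b0 : ∀ i, i.2 ∈ 𝒞 i.1 → ∀ s ∈ Icc (0 : ℝ) 1, γ i s ∈ i.2 := fun i hi s hs =>
    g3 i hi ▸ mem_image_of_mem _ hs
  have b1 : ∀ i, i.2 ∈ 𝒞 i.1 → ∀ x, x ∈ σ i '' closedBall 0 1 ↔
      x ∈ cN (θ i.1) (W i.1) ∧ cf (θ i.1) x 0 ∈ i.2 := fun i hi x => by
    rw [erl_band (hθ i.1) (g3 i hi ▸ (c5 _ _ hi).trans inter_subset_right), g3 i hi]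
  have b2 : ∀ i, i.2 ∈ 𝒞 i.1 → ∀ p ∈ closedBall (0 : Rn 2) 1,
      cf (θ i.1) (σ i p) 0 = γ i ((p 0 + 1) / 2) := fun i hi p hp =>
    (erl_cc (hθ _) _ _ _).trans (c5 _ _ hi (b0 i hi _ (erl_ball.1 hp).1)).2.2
  have t1 : ∀ i, i.2 ∈ 𝒞 i.1 → TP (σ i) := fun i hi => erl_tp (hθ _)
    ((g1 i hi).comp (((TP.id'.apply 0).add (TP.const 1)).div_const 2)) (TP.id'.apply 1)
  have t2 : ∀ i, i.2 ∈ 𝒞 i.1 → InjOn (σ i) (closedBall 0 1) := fun i hi p hp q hq e => by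
    have e0 := g2 i hi (erl_ball.1 hp).1 (erl_ball.1 hq).1 (by rw [← b2 i hi p hp, e, b2 i hi q hq])
    have e1 := congrArg (fun x => invFun (θ i.1) x 2) e
    simp only [σ, erl_crd (hθ _)] at e1
    exact funext (Fin.forall_fin_two.2 ⟨by linarith, e1⟩)
  have t3 : ∀ i, i.2 ∈ 𝒞 i.1 → σ i '' closedBall 0 1 ⊆ F := fun i hi => by
    rintro _ ⟨p, hp, rfl⟩
    have k := c5 _ _ hi (b0 i hi _ (erl_ball.1 hp).1)
    exact h1 _ _ k.1 k.2.1 _ (erl_ball.1 hp).2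
  have t4 : ∀ i, i.2 ∈ 𝒞 i.1 → ∀ p ∈ closedBall (0 : Rn 2) 1, (σ i p ∈ J ↔ |p 0| = 1) :=
    fun i hi p hp => by
      have k0 := (erl_ball.1 hp).1
      have k := b0 i hi _ k0
      have e : σ i p ∈ J ↔ γ i ((p 0 + 1) / 2) ∈ i.2 ∩ J :=
        ⟨fun h => ⟨k, b2 i hi p hp ▸ h2 _ _ h ((b1 i hi _).1 ⟨p, hp, rfl⟩).1 0 erl_zero⟩,
          fun h => h2 _ _ h.2 (c5 _ _ hi k).2.1 _ (erl_ball.1 hp).2⟩
      rw [e, g4 i hi, mem_insert_iff, mem_singleton_iff,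
        (g2 i hi).eq_iff k0 (left_mem_Icc.2 zero_le_one),
        (g2 i hi).eq_iff k0 (right_mem_Icc.2 zero_le_one), abs_eq zero_le_one, or_comm]
      exact or_congr ⟨fun h => by linarith, fun h => by linarith⟩
        ⟨fun h => by linarith, fun h => by linarith⟩
  choose! T u1 u2 u3 using fun i hi => band_T hF (t1 i hi) (t2 i hi) (t3 i hi) (t4 i hi)
  have sl : ∀ w j, j.2 ∈ 𝒞 j.1 → col w ≠ col j.1 → ∀ x ∈ σ j '' closedBall 0 1,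
      x ∈ cN (θ w) (W w) → ∀ t ∈ Icc (-1 : ℝ) 1, cf (θ w) x t ∈ σ j '' closedBall 0 1 ∧
        invFun (θ j.1) (cf (θ w) x t) 2 = invFun (θ j.1) x 2 := fun w j hj hn x hm hw t ht => by
    have k := (b1 j hj x).1 hm
    have k1 := (hx w j.1 hn x (t3 j hj hm) hw k.1).2
    exact ⟨(b1 j hj _).2 ⟨(k1 t ht).1, erl_slide (hθ w) (hθ _) (c1 _) (c2 _) (c3 _)
      (fun K hK => let ⟨_, _, h, _⟩ := c6 _ K hK; h.tarc.compact.isClosed) (h1 _) (h1 _)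
      (t3 j hj hm) hw (fun t ht => (k1 t ht).1) hj k.2 ht⟩, (k1 t ht).2⟩
  have sk : ∀ (i : κ × Set (Rn 3)) w, i.2 ∈ 𝒞 i.1 → col w ≠ col i.1 → ∀ x ∈ i.2, x ∈ cN (θ w) (W w) →
      ∀ t ∈ Icc (-1 : ℝ) 1, cf (θ w) x t ∈ i.2 := fun i w hi hn x hm hw t ht => by
    have k := (c5 _ _ hi hm).2
    obtain ⟨k1, k2⟩ := sl w i hi hn x ((b1 i hi x).2 ⟨k.1, k.2.symm ▸ hm⟩) hw t ht
    have e : invFun (θ i.1) x 2 = 0 := by rw [← k.2, erl_crd (hθ _)]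
    have k3 := ((b1 i hi _).1 k1).2
    rwa [← e, ← k2, erl_self (hθ _)] at k3
  refine ⟨{i | i.2 ∈ 𝒞 i.1}, σ, T, (finite_iUnion fun w => (c1 w).image (Prod.mk w)).subset
    fun i hi => mem_iUnion.2 ⟨i.1, i.2, hi, rfl⟩, ⟨hF, t1, t2, t3, t4, u1, u2, u3, ?_, ?_⟩,
    fun i hi p hp => ⟨((b1 i hi _).1 ⟨p, hp, rfl⟩).1, fun t => erl_cc (hθ _) _ _ _⟩,
    fun w x hF hw => ?_⟩
  · rintro ⟨w, K⟩ hi ⟨w', K'⟩ hj hn e
    refine disjoint_left.2 fun x k k' => ?_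
    by_cases e' : w = w'
    · subst e'
      exact disjoint_left.1 (c3 w hi hj fun e => hn (congrArg _ e)) ((b1 _ hi x).1 k).2
        ((b1 _ hj x).1 k').2
    · exact disjoint_left.1 (hd w w' e' e) ⟨t3 _ hi k, ((b1 _ hi x).1 k).1⟩ ((b1 _ hj x).1 k').1
  · intro i hi j hj hn
    refine or_iff_not_imp_left.2 fun hm => ?_
    obtain ⟨x, k, k'⟩ := not_disjoint_iff.1 hm
    have z0 : ∀ y ∈ i.2, y ∈ σ j '' closedBall 0 1 → cf (θ j.1) y 0 ∈ i.2 ∩ j.2 := fun y k k' =>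
      ⟨sk i j.1 hi hn.symm y k ((b1 j hj y).1 k').1 0 erl_zero, ((b1 j hj y).1 k').2⟩
    obtain ⟨z, hz⟩ : ∃ z, z ∈ i.2 ∩ j.2 := ⟨_, z0 _ ((b1 i hi x).1 k).2
      (sl i.1 j hj hn x k' ((b1 i hi x).1 k).1 0 erl_zero).1⟩
    have z1 := (c5 _ _ hj hz.2).2
    have z2 : ∀ y ∈ i.2, y ∈ σ j '' closedBall 0 1 → cf (θ j.1) z (invFun (θ j.1) y 2) = y :=
      fun y k k' => by
        obtain ⟨_, _, a1, -⟩ := c6 _ _ hi
        obtain ⟨_, _, a2, -⟩ := c6 _ _ hj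
        rw [hB _ _ hn _ _ _ _ _ _ a1 a2 (c5 _ _ hi) (c5 _ _ hj) hz (z0 y k k'), erl_cc (hθ _),
          erl_self (hθ _)]
    obtain ⟨a, b, hab, H⟩ := erl_ival (δ := cf (θ j.1) z) (g1 i hi).continuous (g2 i hi)
      (erl_tp (hθ _) (TP.const z) TP.id').continuous
      (fun t ht => (g3 i hi).symm ▸ sk i j.1 hi hn.symm z hz.1 z1.1 t ht) fun e => by
        have e1 := congrArg (fun x => invFun (θ j.1) x 2) e
        simp only [erl_crd (hθ _)] at e1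
        norm_num at e1
    have z3 : ∀ s, (s ∈ Icc (0 : ℝ) 1 ∧ γ i s ∈ σ j '' closedBall 0 1) ↔ s ∈ Icc a b := fun s => by
      rw [← H]
      refine and_congr_right fun hs => ⟨fun h => ⟨_, erl_le (hθ _) ((b1 j hj _).1 h).1,
        z2 _ (b0 i hi s hs) h⟩, fun ⟨t, ht, e⟩ => (b1 j hj _).2 ?_⟩
      rw [← e, erl_cc (hθ _), z1.2]
      exact ⟨erl_in (hθ _) z1.1 ht, hz.2⟩
    have z4 : ∀ s ∈ Icc a b, 0 < s ∧ s < 1 := fun s hs => by
      obtain ⟨k1, k2⟩ := (z3 s).2 hs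
      have k3 := c5 _ _ hi (b0 i hi s k1)
      have k4 := (hx _ _ hn _ k3.1 k3.2.1 ((b1 j hj _).1 k2).1).1
      refine ⟨k1.1.lt_of_ne fun e => k4 ?_, k1.2.lt_of_ne fun e => k4 ?_⟩
      · exact ((g4 i hi).ge (Or.inl (congrArg _ e.symm))).2
      · exact ((g4 i hi).ge (Or.inr (congrArg _ e))).2
    have z5 : ∀ u : ℝ, u ∈ Icc (2 * a - 1) (2 * b - 1) ↔ (u + 1) / 2 ∈ Icc a b := fun u =>
      ⟨fun h => ⟨by linarith [h.1], by linarith [h.2]⟩,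
        fun h => ⟨by linarith [h.1], by linarith [h.2]⟩⟩
    refine ⟨2 * a - 1, 2 * b - 1, fun u => invFun (θ j.1) (γ i ((u + 1) / 2)) 2,
      by linarith [(z4 a (left_mem_Icc.2 hab.le)).1], by linarith,
      by linarith [(z4 b (right_mem_Icc.2 hab.le)).2], fun u hu v hv e => ?_, fun p hp => ?_⟩
    · obtain ⟨k1, k2⟩ := (z3 _).2 ((z5 u).1 hu)
      obtain ⟨k3, k4⟩ := (z3 _).2 ((z5 v).1 hv)
      have e1 := g2 i hi k1 k3 (((z2 _ (b0 i hi _ k1) k2).symm.trans (congrArg _ e)).trans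
        (z2 _ (b0 i hi _ k3) k4))
      linarith
    · obtain ⟨p0, p1⟩ := erl_ball.1 hp
      have k := (c5 _ _ hi (b0 i hi _ p0)).2.1
      rw [z5, ← z3]
      refine ⟨⟨fun h => ⟨p0, b2 i hi p hp ▸
        (sl i.1 j hj hn _ h ((b1 i hi _).1 ⟨p, hp, rfl⟩).1 0 erl_zero).1⟩,
        fun h => (sl i.1 j hj hn _ h.2 k _ p1).1⟩, fun h => ?_⟩
      obtain ⟨⟨q, hq, e⟩, k2⟩ := sl i.1 j hj hn _ h.2 k _ p1
      exact ((congrArg (T j) e).symm.trans ((u2 j hj q hq).trans (erl_crd (hθ _) _ _).symm)).trans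
        ((congrArg (fun x => invFun (θ j.1) x 2) e).trans k2)
  · obtain ⟨K, hK, hy⟩ : cf (θ w) x 0 ∈ ⋃₀ 𝒞 w := c2 w ▸ ⟨h1 w x hF hw 0 erl_zero,
      erl_in (hθ w) hw erl_zero, erl_cc (hθ w) _ _ _⟩
    exact ⟨(w, K), hK, rfl, (b1 (w, K) hK x).2 ⟨hw, hy⟩⟩

end BEp
end
end

-- merged part: Pool.Agent.Work.MP_f0515e_an.D3.EUq1
section
/-! The half of a pattern cut off by one band. -/

open Set Metric Filter Topology Function BEv
open scoped NNReal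

noncomputable section
namespace BEp

variable {n : ℕ}

variable {ι : Type} {D S : Set (Rn n)} {I : Set ι} {col : ι → Bool} {σ : ι → Rn 2 → Rn n}
  {T : ι → Rn n → ℝ}

theorem EUq1_mem {p : Rn 2} : p ∈ closedBall (0 : Rn 2) 1 ↔ |p 0| ≤ 1 ∧ |p 1| ≤ 1 := by
  rw [mem_closedBall_zero_iff, pi_norm_le_iff_of_nonneg zero_le_one, Fin.forall_fin_two,
    Real.norm_eq_abs, Real.norm_eq_abs]

theorem EUq1_const {X : Type} [TopologicalSpace X] {A : Set X} (hA : IsPreconnected A) {f : X → ℝ}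
    (hf : Continuous f) (h : ∀ x ∈ A, |f x| = 1) {x y : X} (hx : x ∈ A) (hy : y ∈ A) :
    f x = f y := by
  have key : ∀ x ∈ A, ∀ y ∈ A, f x = -1 → f y = 1 → False := fun x hx y hy e1 e2 => by
    obtain ⟨z, hz, e⟩ := hA.intermediate_value hx hy hf.continuousOn
      (show (0 : ℝ) ∈ Icc (f x) (f y) by rw [e1, e2]; norm_num)
    have := h z hz
    rw [e, abs_zero] at this
    exact zero_ne_one this
  rcases (abs_eq zero_le_one).1 (h x hx) with e1 | e1 <;>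
    rcases (abs_eq zero_le_one).1 (h y hy) with e2 | e2
  · rw [e1, e2]
  · exact (key y hy x hx e2 e1).elim
  · exact (key x hx y hy e1 e2).elim
  · rw [e1, e2]

theorem EUq1_strip (u v : ℝ) :
    IsPreconnected {p : Rn 2 | p ∈ closedBall (0 : Rn 2) 1 ∧ p 0 ∈ Icc u v} :=
  ((convex_closedBall (0 : Rn 2) 1).inter
    ((convex_Icc u v).linear_preimage (LinearMap.proj 0 : Rn 2 →ₗ[ℝ] ℝ))).isPreconnected

theorem EUq1_side {D₁ J : Set (Rn n)} {τ : Rn 2 → Rn n} {f : Rn n → ℝ} {s : ℝ} (hs : |s| = 1)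
    (hf : Continuous f) (lev : ∀ p ∈ closedBall (0 : Rn 2) 1, f (τ p) = p 1)
    (off : ∀ x ∈ D, x ∉ τ '' closedBall 0 1 → |f x| = 1) (h1 : PDsc D₁ J) (h2 : D₁ ⊆ D)
    (h3 : D₁ ∩ τ '' closedBall 0 1 = τ '' {p | ‖p‖ ≤ 1 ∧ p 1 = s}) : ∀ x ∈ D₁, f x = s := by
  have k : ∀ x ∈ D₁ ∩ τ '' closedBall 0 1, f x = s := by
    rw [h3]
    rintro _ ⟨p, hp, rfl⟩
    rw [lev p (mem_closedBall_zero_iff.2 hp.1), hp.2]
  have hp : (![0, s] : Rn 2) ∈ closedBall (0 : Rn 2) 1 := EUq1_mem.2 ⟨by simp, by simp [hs]⟩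
  have h4 : τ ![0, s] ∈ D₁ ∩ τ '' closedBall 0 1 := by
    rw [h3]
    exact ⟨_, ⟨mem_closedBall_zero_iff.1 hp, rfl⟩, rfl⟩
  intro x hx
  rw [← k _ h4]
  refine EUq1_const h1.conn.isPreconnected hf (fun y hy => ?_) hx h4.1
  by_cases c : y ∈ τ '' closedBall 0 1
  · rw [k y ⟨hy, c⟩, hs]
  · exact off y (h2 hy) c

theorem EUq1_dsc (h : Pat D S I col σ T) {i : ι} (hi : i ∈ I) {s : ℝ} (hs : s = 1 ∨ s = -1) :
    PDsc {x ∈ D | T i x = s} ({x ∈ S | T i x = s} ∪ σ i '' {p | ‖p‖ ≤ 1 ∧ p 1 = s}) := by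
  obtain ⟨D₁, D₂, p1, p2, hu, -, i1, i2⟩ :=
    bandcut h.dsc (h.tp i hi) (h.inj i hi) (h.sub i hi) (h.bd i hi)
  have s1 : D₁ ⊆ D := fun x hx => hu ▸ Or.inl (Or.inl hx)
  have s2 : D₂ ⊆ D := fun x hx => hu ▸ Or.inr hx
  have t1 := EUq1_side abs_one (h.tT i hi).continuous (h.lev i hi) (h.off i hi) p1 s1 i1
  have t2 := EUq1_side (by simp) (h.tT i hi).continuous (h.lev i hi) (h.off i hi) p2 s2 i2
  have key : ∀ (E E' : Set (Rn n)) (s : ℝ), E ⊆ D → (∀ x ∈ E, T i x = s) →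
      (∀ x ∈ E', T i x ≠ s) → (∀ x ∈ D, x ∈ E ∨ x ∈ σ i '' closedBall 0 1 ∨ x ∈ E') →
      E ∩ σ i '' closedBall 0 1 = σ i '' {p | ‖p‖ ≤ 1 ∧ p 1 = s} →
      PDsc E (S ∩ E ∪ σ i '' {p | ‖p‖ ≤ 1 ∧ p 1 = s}) →
      PDsc {x ∈ D | T i x = s} ({x ∈ S | T i x = s} ∪ σ i '' {p | ‖p‖ ≤ 1 ∧ p 1 = s}) := by
    intro E E' s a1 a2 a3 a4 a5 a6
    have e1 : {x ∈ D | T i x = s} = E := by
      refine Subset.antisymm (fun x hx => ?_) fun x hx => ⟨a1 hx, a2 x hx⟩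
      rcases a4 x hx.1 with c | ⟨p, hp, rfl⟩ | c
      · exact c
      · have k : σ i p ∈ E ∩ σ i '' closedBall 0 1 := by
          rw [a5]
          exact ⟨p, ⟨mem_closedBall_zero_iff.1 hp, (h.lev i hi p hp).symm.trans hx.2⟩, rfl⟩
        exact k.1
      · exact absurd hx.2 (a3 x c)
    have e2 : {x ∈ S | T i x = s} = S ∩ E := by
      rw [← e1]
      exact Subset.antisymm (fun x hx => ⟨hx.1, h.dsc.sub hx.1, hx.2⟩) fun x hx => ⟨hx.1, hx.2.2⟩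
    rwa [e1, e2]
  have hc : ∀ x ∈ D, x ∈ D₁ ∨ x ∈ σ i '' closedBall 0 1 ∨ x ∈ D₂ := fun x hx => by
    rw [← hu] at hx
    exact or_assoc.1 hx
  rcases hs with rfl | rfl
  · exact key D₁ D₂ 1 s1 t1 (fun x hx => by rw [t2 x hx]; norm_num) hc i1 p1
  · exact key D₂ D₁ (-1) s2 t2 (fun x hx => by rw [t1 x hx]; norm_num)
      (fun x hx => by have := hc x hx; tauto) i2 p2

/-- The part of the band `τ` where `f = s` is the strip over `[u, v]`. -/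
structure EUq1_N (τ : Rn 2 → Rn n) (f : Rn n → ℝ) (B : Set (Rn n)) (s u v : ℝ) : Prop where
  le : -1 ≤ u ∧ u < v ∧ v ≤ 1
  iff : ∀ p ∈ closedBall (0 : Rn 2) 1, f (τ p) = s ↔ p 0 ∈ Icc u v
  inn : ∀ p ∈ closedBall (0 : Rn 2) 1, u < p 0 → p 0 < v → τ p ∉ B
  lo : u = -1 ∨ ∀ p ∈ closedBall (0 : Rn 2) 1, p 0 = u → τ p ∈ B
  hi : v = 1 ∨ ∀ p ∈ closedBall (0 : Rn 2) 1, p 0 = v → τ p ∈ B
  one : u = -1 ∨ v = 1

theorem EUq1_cls (h : Pat D S I col σ T) {i j : ι} (hi : i ∈ I) (hj : j ∈ I) (hji : j ≠ i) {s : ℝ}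
    (hs : s = 1 ∨ s = -1) : (∀ x ∈ σ j '' closedBall 0 1, T i x ≠ s) ∨
      ∃ u v, EUq1_N (σ j) (T i) (σ i '' closedBall 0 1) s u v := by
  have hf : Continuous fun p => T i (σ j p) := ((h.tT i hi).comp (h.tp j hj)).continuous
  have off : ∀ p ∈ closedBall (0 : Rn 2) 1, σ j p ∉ σ i '' closedBall 0 1 →
      |T i (σ j p)| = 1 := fun p hp => h.off i hi _ (h.sub j hj ⟨p, hp, rfl⟩)
  have hd : Disjoint (σ j '' closedBall 0 1) (σ i '' closedBall 0 1) →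
      (∀ x ∈ σ j '' closedBall 0 1, T i x ≠ s) ∨
        ∃ u v, EUq1_N (σ j) (T i) (σ i '' closedBall 0 1) s u v := fun hd => by
    have k : ∀ p ∈ closedBall (0 : Rn 2) 1, σ j p ∉ σ i '' closedBall 0 1 := fun p hp =>
      disjoint_left.1 hd ⟨p, hp, rfl⟩
    refine or_iff_not_imp_left.2 fun c => ?_
    simp only [not_forall, not_not] at c
    obtain ⟨_, ⟨q, hq, rfl⟩, e⟩ := c
    refine ⟨-1, 1, ⟨le_rfl, by norm_num, le_rfl⟩, fun p hp => iff_of_true ?_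
      (abs_le.1 (EUq1_mem.1 hp).1), fun p hp _ _ => k p hp, Or.inl rfl, Or.inl rfl, Or.inl rfl⟩
    exact (EUq1_const (convex_closedBall (0 : Rn 2) 1).isPreconnected hf
      (fun p hp => off p hp (k p hp)) hp hq).trans e
  by_cases hc : col j = col i
  · exact hd (h.dis j hj i hi hji hc)
  rcases h.crs j hj i hi hc with c | ⟨a, b, φ, h1, h2, h3, hφ, hp⟩
  · exact hd c
  have hq : ∀ t : ℝ, -1 ≤ t → t ≤ 1 → (![t, 0] : Rn 2) ∈ closedBall (0 : Rn 2) 1 :=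
    fun t t1 t2 => EUq1_mem.2 ⟨abs_le.2 ⟨t1, t2⟩, by simp⟩
  have hcl : IsClosed {t : ℝ | |T i (σ j ![t, 0])| = 1} :=
    isClosed_eq (hf.comp (by fun_prop : Continuous fun t : ℝ => (![t, 0] : Rn 2))).abs
      continuous_const
  have ma : a ∈ Icc a b := left_mem_Icc.2 h2.le
  have mb : b ∈ Icc a b := right_mem_Icc.2 h2.le
  have va := (hp _ (hq a h1.le (h2.trans h3).le)).2 ma
  have vb := (hp _ (hq b (h1.trans h2).le h3.le)).2 mb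
  have ea : |φ a| = 1 := by
    have k : Ico (-1) a ⊆ {t : ℝ | |T i (σ j ![t, 0])| = 1} := fun t ht =>
      off _ (hq t ht.1 (by linarith [ht.2])) fun c =>
        ((hp _ (hq t ht.1 (by linarith [ht.2]))).1.1 c).1.not_gt ht.2
    have k1 := hcl.closure_subset_iff.2 k
    rw [closure_Ico h1.ne] at k1
    exact (congrArg abs va).symm.trans (k1 (right_mem_Icc.2 h1.le))
  have eb : |φ b| = 1 := by
    have k : Ioc b 1 ⊆ {t : ℝ | |T i (σ j ![t, 0])| = 1} := fun t ht =>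
      off _ (hq t (by linarith [ht.1]) ht.2) fun c =>
        ((hp _ (hq t (by linarith [ht.1]) ht.2)).1.1 c).2.not_gt ht.1
    have k1 := hcl.closure_subset_iff.2 k
    rw [closure_Ioc h3.ne] at k1
    exact (congrArg abs vb).symm.trans (k1 (left_mem_Icc.2 h3.le))
  have nab : φ a ≠ φ b := fun e => h2.ne (hφ ma mb e)
  have ca : ∀ p ∈ closedBall (0 : Rn 2) 1, p 0 ≤ a → T i (σ j p) = φ a := fun p hp' c => by
    refine (EUq1_const (EUq1_strip (-1) a) hf (fun q hq' => ?_)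
      ⟨hp', (abs_le.1 (EUq1_mem.1 hp').1).1, c⟩
      ⟨hq a h1.le (h2.trans h3).le, right_mem_Icc.2 h1.le⟩).trans va
    rcases hq'.2.2.eq_or_lt with e | e
    · rw [(hp q hq'.1).2 (e ▸ ma), e, ea]
    · exact off q hq'.1 fun c => ((hp q hq'.1).1.1 c).1.not_gt e
  have cb : ∀ p ∈ closedBall (0 : Rn 2) 1, b ≤ p 0 → T i (σ j p) = φ b := fun p hp' c => by
    refine (EUq1_const (EUq1_strip b 1) hf (fun q hq' => ?_)
      ⟨hp', c, (abs_le.1 (EUq1_mem.1 hp').1).2⟩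
      ⟨hq b (h1.trans h2).le h3.le, left_mem_Icc.2 h3.le⟩).trans vb
    rcases hq'.2.1.eq_or_lt with e | e
    · rw [(hp q hq'.1).2 (e ▸ mb), ← e, eb]
    · exact off q hq'.1 fun c => ((hp q hq'.1).1.1 c).2.not_gt e
  have hsab : s = φ a ∨ s = φ b := by
    rcases (abs_eq zero_le_one).1 ea with e1 | e1 <;>
      rcases (abs_eq zero_le_one).1 eb with e2 | e2 <;> rw [e1, e2] at nab ⊢
    · exact absurd rfl nab
    · exact hs
    · exact hs.symm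
    · exact absurd rfl nab
  right
  rcases hsab with rfl | rfl
  · refine ⟨-1, a, ⟨le_rfl, h1, (h2.trans h3).le⟩, fun p hp' => ⟨fun e => ?_, fun c => ca p hp' c.2⟩,
      fun p hp' _ c k => ((hp p hp').1.1 k).1.not_gt c, Or.inl rfl,
      Or.inr fun p hp' e => (hp p hp').1.2 (e ▸ ma), Or.inl rfl⟩
    refine ⟨(abs_le.1 (EUq1_mem.1 hp').1).1, not_lt.1 fun c => ?_⟩
    rcases le_total b (p 0) with k | k
    · exact nab (e.symm.trans (cb p hp' k))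
    · exact c.ne' (hφ ⟨c.le, k⟩ ma (((hp p hp').2 ⟨c.le, k⟩).symm.trans e))
  · refine ⟨b, 1, ⟨(h1.trans h2).le, h3, le_rfl⟩, fun p hp' => ⟨fun e => ?_, fun c => cb p hp' c.1⟩,
      fun p hp' c _ k => ((hp p hp').1.1 k).2.not_gt c,
      Or.inr fun p hp' e => (hp p hp').1.2 (e ▸ mb), Or.inl rfl, Or.inr rfl⟩
    refine ⟨not_lt.1 fun c => ?_, (abs_le.1 (EUq1_mem.1 hp').1).2⟩
    rcases le_total (p 0) a with k | k
    · exact nab ((ca p hp' k).symm.trans e)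
    · exact c.ne (hφ ⟨k, c.le⟩ mb (((hp p hp').2 ⟨k, c.le⟩).symm.trans e))

/-- The affine map of the square onto the strip over `[c - r, c + r]`. -/
def EUq1_A (c r : ℝ) (p : Rn 2) : Rn 2 := ![c + r * p 0, p 1]

theorem EUq1_tp (c r : ℝ) : TP (EUq1_A c r) :=
  TP.pi (Fin.forall_fin_two.2 ⟨(TP.const c).add ((TP.id'.apply 0).const_mul r), TP.id'.apply 1⟩)

theorem EUq1_inj (c : ℝ) {r : ℝ} (hr : 0 < r) : Injective (EUq1_A c r) := fun p q e => by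
  have e0 : c + r * p 0 = c + r * q 0 := congrFun e 0
  have e1 : p 1 = q 1 := congrFun e 1
  exact funext (Fin.forall_fin_two.2 ⟨mul_left_cancel₀ hr.ne' (add_left_cancel e0), e1⟩)

theorem EUq1_map {c r : ℝ} (hr : 0 < r) (h1 : -1 ≤ c - r) (h2 : c + r ≤ 1) {p : Rn 2}
    (hp : p ∈ closedBall (0 : Rn 2) 1) :
    EUq1_A c r p ∈ closedBall (0 : Rn 2) 1 ∧ EUq1_A c r p 0 ∈ Icc (c - r) (c + r) := by
  obtain ⟨a1, a2⟩ := EUq1_mem.1 hp
  obtain ⟨b1, b2⟩ := abs_le.1 a1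
  have k : c + r * p 0 ∈ Icc (c - r) (c + r) := ⟨by nlinarith, by nlinarith⟩
  exact ⟨EUq1_mem.2 ⟨abs_le.2 ⟨h1.trans k.1, k.2.trans h2⟩, a2⟩, k⟩

theorem EUq1_surj {c r : ℝ} (hr : 0 < r) {q : Rn 2} (hq : q ∈ closedBall (0 : Rn 2) 1)
    (h : q 0 ∈ Icc (c - r) (c + r)) : ∃ p ∈ closedBall (0 : Rn 2) 1, EUq1_A c r p = q := by
  refine ⟨![(q 0 - c) / r, q 1], EUq1_mem.2 ⟨abs_le.2 ⟨?_, ?_⟩, (EUq1_mem.1 hq).2⟩,
    funext (Fin.forall_fin_two.2 ⟨?_, rfl⟩)⟩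
  · exact (le_div_iff₀ hr).2 (by linarith [h.1])
  · exact (div_le_iff₀ hr).2 (by linarith [h.2])
  · change c + r * ((q 0 - c) / r) = q 0
    rw [mul_div_cancel₀ _ hr.ne', add_sub_cancel]

theorem Pat.half (h : Pat D S I col σ T) {i : ι} (hi : i ∈ I) {s : ℝ} (hs : s = 1 ∨ s = -1) :
    ∃ τ : ι → Rn 2 → Rn n, Pat {x ∈ D | T i x = s}
      ({x ∈ S | T i x = s} ∪ σ i '' {p | ‖p‖ ≤ 1 ∧ p 1 = s})
      {j ∈ I | j ≠ i ∧ ∃ x ∈ S ∩ σ j '' closedBall 0 1, T i x = s} col τ T ∧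
      ∀ j ∈ I, j ≠ i → ((∃ x ∈ S ∩ σ j '' closedBall 0 1, T i x = s) →
        τ j '' closedBall 0 1 = {x ∈ σ j '' closedBall 0 1 | T i x = s}) ∧
        ((¬ ∃ x ∈ S ∩ σ j '' closedBall 0 1, T i x = s) →
          ∀ x ∈ σ j '' closedBall 0 1, T i x ≠ s) := by
  have hex : ∀ j, ∃ c r : ℝ, j ∈ I → j ≠ i → (∃ x ∈ S ∩ σ j '' closedBall 0 1, T i x = s) →
      0 < r ∧ EUq1_N (σ j) (T i) (σ i '' closedBall 0 1) s (c - r) (c + r) := by
    intro j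
    by_cases c : j ∈ I ∧ j ≠ i ∧ ∃ x ∈ S ∩ σ j '' closedBall 0 1, T i x = s
    · obtain ⟨c1, c2, x, hx, e⟩ := c
      obtain ⟨u, v, hN⟩ := (EUq1_cls h hi c1 c2 hs).resolve_left fun k => k x hx.2 e
      refine ⟨(u + v) / 2, (v - u) / 2, fun _ _ _ => ⟨by linarith [hN.le.2.1], ?_⟩⟩
      rwa [show (u + v) / 2 - (v - u) / 2 = u by ring, show (u + v) / 2 + (v - u) / 2 = v by ring]
    · exact ⟨0, 0, fun c1 c2 c3 => absurd ⟨c1, c2, c3⟩ c⟩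
  choose c r hN using hex
  generalize hI' : {j ∈ I | j ≠ i ∧ ∃ x ∈ S ∩ σ j '' closedBall 0 1, T i x = s} = I'
  have m1 : ∀ j ∈ I', j ∈ I ∧ j ≠ i ∧ ∃ x ∈ S ∩ σ j '' closedBall 0 1, T i x = s :=
    fun j hj => by rwa [← hI'] at hj
  have mI : ∀ j ∈ I', j ∈ I := fun j hj => (m1 j hj).1
  have hr : ∀ j ∈ I', 0 < r j := fun j hj => (hN j (mI j hj) (m1 j hj).2.1 (m1 j hj).2.2).1
  have hn : ∀ j ∈ I', EUq1_N (σ j) (T i) (σ i '' closedBall 0 1) s (c j - r j) (c j + r j) :=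
    fun j hj => (hN j (mI j hj) (m1 j hj).2.1 (m1 j hj).2.2).2
  have hA : ∀ j ∈ I', ∀ p ∈ closedBall (0 : Rn 2) 1,
      EUq1_A (c j) (r j) p ∈ closedBall (0 : Rn 2) 1 ∧
        EUq1_A (c j) (r j) p 0 ∈ Icc (c j - r j) (c j + r j) := fun j hj p hp =>
    EUq1_map (hr j hj) (hn j hj).le.1 (hn j hj).le.2.2 hp
  have hT : ∀ j ∈ I', ∀ p ∈ closedBall (0 : Rn 2) 1, T i (σ j (EUq1_A (c j) (r j) p)) = s :=
    fun j hj p hp => ((hn j hj).iff _ (hA j hj p hp).1).2 (hA j hj p hp).2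
  have him : ∀ j ∈ I', (fun p => σ j (EUq1_A (c j) (r j) p)) '' closedBall 0 1 =
      {x ∈ σ j '' closedBall 0 1 | T i x = s} := fun j hj => by
    refine Subset.antisymm ?_ ?_
    · rintro _ ⟨p, hp, rfl⟩
      exact ⟨⟨_, (hA j hj p hp).1, rfl⟩, hT j hj p hp⟩
    · rintro _ ⟨⟨q, hq, rfl⟩, e⟩
      obtain ⟨p, hp, rfl⟩ := EUq1_surj (hr j hj) hq (((hn j hj).iff q hq).1 e)
      exact ⟨p, hp, rfl⟩
  have hsub : ∀ j ∈ I', (fun p => σ j (EUq1_A (c j) (r j) p)) '' closedBall 0 1 ⊆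
      σ j '' closedBall 0 1 := fun j hj => by
    rw [him j hj]
    exact sep_subset _ _
  refine ⟨fun j p => σ j (EUq1_A (c j) (r j) p), ⟨EUq1_dsc h hi hs,
    fun j hj => (h.tp j (mI j hj)).comp (EUq1_tp _ _),
    fun j hj p hp q hq e => EUq1_inj _ (hr j hj)
      (h.inj j (mI j hj) (hA j hj p hp).1 (hA j hj q hq).1 e),
    fun j hj => ?_, fun j hj p hp => ?_, fun j hj => h.tT j (mI j hj),
    fun j hj p hp => h.lev j (mI j hj) _ (hA j hj p hp).1, fun j hj x hx hx' => ?_,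
    fun j hj k hk e1 e2 => (h.dis j (mI j hj) k (mI k hk) e1 e2).mono (hsub j hj) (hsub k hk),
    fun j hj k hk e => ?_⟩, fun j hj hji => ⟨fun e => him j ?_, fun e => ?_⟩⟩
  · rw [him j hj]
    exact fun x hx => ⟨h.sub j (mI j hj) hx.1, hx.2⟩
  · obtain ⟨a1, a2, a3⟩ := hA j hj p hp
    have r0 := hr j hj
    have N := hn j hj
    have e0 : EUq1_A (c j) (r j) p 0 = c j + r j * p 0 := rfl
    have hS := h.bd j (mI j hj) _ a1
    have hB : σ j (EUq1_A (c j) (r j) p) ∈ σ i '' closedBall 0 1 →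
        σ j (EUq1_A (c j) (r j) p) ∈ σ i '' {p | ‖p‖ ≤ 1 ∧ p 1 = s} := by
      rintro ⟨q, hq, e⟩
      exact ⟨q, ⟨mem_closedBall_zero_iff.1 hq, by rw [← h.lev i hi q hq, e, hT j hj p hp]⟩, e⟩
    constructor
    · intro k
      by_contra k1
      obtain ⟨b1, b2⟩ := abs_lt.1 (lt_of_le_of_ne (EUq1_mem.1 hp).1 k1)
      have d1 : c j - r j < EUq1_A (c j) (r j) p 0 := by rw [e0]; nlinarith
      have d2 : EUq1_A (c j) (r j) p 0 < c j + r j := by rw [e0]; nlinarith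
      rcases k with k | ⟨q, hq, k⟩
      · exact (abs_lt.2 ⟨N.le.1.trans_lt d1, d2.trans_le N.le.2.2⟩).ne (hS.1 k.1)
      · exact N.inn _ a1 d1 d2 ⟨q, mem_closedBall_zero_iff.2 hq.1, k⟩
    · intro k
      rcases (abs_eq zero_le_one).1 k with k | k <;> rw [k] at e0
      · rw [mul_one] at e0
        rcases N.hi with d | d
        · exact Or.inl ⟨hS.2 (by rw [e0, d, abs_one]), hT j hj p hp⟩
        · exact Or.inr (hB (d _ a1 e0))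
      · rw [mul_neg_one, ← sub_eq_add_neg] at e0
        rcases N.lo with d | d
        · exact Or.inl ⟨hS.2 (by rw [e0, d, abs_neg, abs_one]), hT j hj p hp⟩
        · exact Or.inr (hB (d _ a1 e0))
  · rw [him j hj] at hx'
    exact h.off j (mI j hj) x hx.1 fun k => hx' ⟨k, hx.2⟩
  · rcases h.crs j (mI j hj) k (mI k hk) e with d | ⟨a, b, φ, h1, h2, h3, hφ, hp⟩
    · exact Or.inl (d.mono (hsub j hj) (hsub k hk))
    have r0 := hr j hj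
    have N := hn j hj
    have out : ∀ w, |w| = 1 ∨ (∀ p ∈ closedBall (0 : Rn 2) 1, p 0 = w →
        σ j p ∈ σ i '' closedBall 0 1) → w ∉ Icc a b := by
      intro w hw hm
      have w1 : |w| < 1 := abs_lt.2 ⟨h1.trans_le hm.1, hm.2.trans_lt h3⟩
      have hq : (![w, 0] : Rn 2) ∈ closedBall (0 : Rn 2) 1 := EUq1_mem.2 ⟨w1.le, by simp⟩
      have k1 := hw.resolve_left w1.ne _ hq rfl
      have k2 : col j ≠ col i := fun e' => disjoint_left.1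
        (h.dis j (mI j hj) i hi (m1 j hj).2.1 e') ⟨_, hq, rfl⟩ k1
      have k3 : col k = col i := by
        revert e k2
        cases col j <;> cases col k <;> cases col i <;> simp
      exact disjoint_left.1 (h.dis k (mI k hk) i hi (m1 k hk).2.1 k3) ((hp _ hq).1.2 hm) k1
    have o1 := out _ (N.lo.imp_left fun d => by rw [d, abs_neg, abs_one])
    have o2 := out _ (N.hi.imp_left fun d => by rw [d, abs_one])
    have hm : ∀ p ∈ closedBall (0 : Rn 2) 1, σ j (EUq1_A (c j) (r j) p) ∈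
        (fun p => σ k (EUq1_A (c k) (r k) p)) '' closedBall 0 1 ↔ c j + r j * p 0 ∈ Icc a b :=
      fun p hp' => by
        rw [him k hk, mem_sep_iff, and_iff_left (hT j hj p hp')]
        exact (hp _ (hA j hj p hp').1).1
    by_cases d : c j - r j < a ∧ b < c j + r j
    · have hi' : ∀ t, t ∈ Icc ((a - c j) / r j) ((b - c j) / r j) ↔ c j + r j * t ∈ Icc a b :=
        fun t => by
          rw [mem_Icc, mem_Icc, div_le_iff₀ r0, le_div_iff₀ r0]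
          exact ⟨fun k => ⟨by linarith [k.1], by linarith [k.2]⟩,
            fun k => ⟨by linarith [k.1], by linarith [k.2]⟩⟩
      refine Or.inr ⟨(a - c j) / r j, (b - c j) / r j, fun t => φ (c j + r j * t),
        (lt_div_iff₀ r0).2 (by linarith [d.1]), div_lt_div_of_pos_right (by linarith) r0,
        (div_lt_iff₀ r0).2 (by linarith [d.2]), fun t ht t' ht' e' => mul_left_cancel₀ r0.ne'
          (add_left_cancel (hφ ((hi' t).1 ht) ((hi' t').1 ht') e')), fun p hp' => ?_⟩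
      rw [hi']
      exact ⟨hm p hp', (hp _ (hA j hj p hp').1).2⟩
    · refine Or.inl (disjoint_left.2 ?_)
      rintro _ ⟨p, hp', rfl⟩ k1
      obtain ⟨k2, k3⟩ := (hm p hp').1 k1
      obtain ⟨k4, k5⟩ : c j + r j * p 0 ∈ Icc (c j - r j) (c j + r j) := (hA j hj p hp').2
      exact d ⟨not_le.1 fun k => o1 ⟨k, k4.trans k3⟩, not_le.1 fun k => o2 ⟨k2.trans k5, k⟩⟩
  · rw [← hI']
    exact ⟨hj, hji, e⟩
  · refine (EUq1_cls h hi hj hji hs).resolve_right ?_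
    rintro ⟨u, v, N⟩
    have key : ∀ w, |w| = 1 → w ∈ Icc u v → False := fun w w1 w2 => by
      have hq : (![w, 0] : Rn 2) ∈ closedBall (0 : Rn 2) 1 := EUq1_mem.2 ⟨w1.le, by simp⟩
      exact e ⟨_, ⟨(h.bd j hj _ hq).2 w1, _, hq, rfl⟩, (N.iff _ hq).2 w2⟩
    rcases N.one with d | d
    · exact key u (by rw [d, abs_neg, abs_one]) (left_mem_Icc.2 N.le.2.1.le)
    · exact key v (by rw [d, abs_one]) (right_mem_Icc.2 N.le.2.1.le)

end BEp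
end
end

-- merged part: Pool.Agent.Work.MP_f0515e_an.D3.EUq2
section
/-! The map between two corresponding bands of two patterns. -/

open Set Metric Filter Topology Function BEv
open scoped NNReal

noncomputable section
namespace BEp

variable {n m : ℕ}

variable {ι : Type} {D S : Set (Rn n)} {I : Set ι} {col : ι → Bool} {σ : ι → Rn 2 → Rn n}
  {T : ι → Rn n → ℝ} {D' S' : Set (Rn m)} {σ' : ι → Rn 2 → Rn m} {T' : ι → Rn m → ℝ}

theorem EUq2_mem {p : Rn 2} : p ∈ closedBall (0 : Rn 2) 1 ↔ |p 0| ≤ 1 ∧ |p 1| ≤ 1 := by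
  rw [mem_closedBall_zero_iff, pi_norm_le_iff_of_nonneg zero_le_one, Fin.forall_fin_two,
    Real.norm_eq_abs, Real.norm_eq_abs]

theorem EUq2_mem' {u t : ℝ} (hu : |u| ≤ 1) (ht : |t| ≤ 1) :
    (![u, t] : Rn 2) ∈ closedBall (0 : Rn 2) 1 := EUq2_mem.2 ⟨hu, ht⟩

theorem EUq2_mem0 {u : ℝ} (hu : |u| ≤ 1) : (![u, 0] : Rn 2) ∈ closedBall (0 : Rn 2) 1 :=
  EUq2_mem' hu (by simp)

theorem EUq2_eta (p : Rn 2) : ![p 0, p 1] = p := by
  ext i; fin_cases i <;> rfl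

theorem EUq2_tp {E : Type} [NormedAddCommGroup E] [NormedSpace ℝ E] {f g : E → ℝ} (hf : TP f)
    (hg : TP g) : TP fun x => (![f x, g x] : Rn 2) :=
  TP.pi fun i => by
    fin_cases i
    exacts [hf, hg]

theorem EUq2_const {X : Type} [TopologicalSpace X] {A : Set X} (hA : IsPreconnected A) {g : X → ℝ}
    (hg : Continuous g) (h : ∀ x ∈ A, |g x| = 1) {x y : X} (hx : x ∈ A) (hy : y ∈ A) :
    g x = g y := by
  have key : ∀ x ∈ A, ∀ y ∈ A, g x = -1 → g y = 1 → False := fun x hx y hy e e' => by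
    obtain ⟨z, hz, e0⟩ := hA.intermediate_value hx hy hg.continuousOn
      (show (0 : ℝ) ∈ Icc (g x) (g y) by rw [e, e']; constructor <;> norm_num)
    have := h z hz
    rw [e0] at this
    norm_num at this
  rcases (abs_eq zero_le_one).1 (h x hx) with e | e <;>
    rcases (abs_eq zero_le_one).1 (h y hy) with e' | e'
  · rw [e, e']
  · exact (key y hy x hx e' e).elim
  · exact (key x hx y hy e e').elim
  · rw [e, e']

/-- Reflection in the first coordinate. -/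
def EUq2_fl (p : Rn 2) : Rn 2 := ![-p 0, p 1]

theorem EUq2_fl_fl (p : Rn 2) : EUq2_fl (EUq2_fl p) = p := by
  ext i; fin_cases i <;> simp [EUq2_fl]

theorem EUq2_fl_mem {p : Rn 2} (hp : p ∈ closedBall (0 : Rn 2) 1) :
    EUq2_fl p ∈ closedBall (0 : Rn 2) 1 :=
  EUq2_mem' (by rw [abs_neg]; exact (EUq2_mem.1 hp).1) (EUq2_mem.1 hp).2

theorem EUq2_fl_im (g : Rn 2 → Rn n) :
    (fun p => g (EUq2_fl p)) '' closedBall 0 1 = g '' closedBall 0 1 := by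
  refine Subset.antisymm ?_ ?_
  · rintro _ ⟨p, hp, rfl⟩
    exact ⟨_, EUq2_fl_mem hp, rfl⟩
  · rintro _ ⟨p, hp, rfl⟩
    exact ⟨_, EUq2_fl_mem hp, by simp only [EUq2_fl_fl]⟩

theorem Pat.flip (h : Pat D S I col σ T) : Pat D S I col (fun j p => σ j (EUq2_fl p)) T where
  dsc := h.dsc
  tp i hi := (h.tp i hi).comp (EUq2_tp (TP.id'.apply 0).neg (TP.id'.apply 1))
  inj i hi p hp q hq e := by
    rw [← EUq2_fl_fl p, h.inj i hi (EUq2_fl_mem hp) (EUq2_fl_mem hq) e, EUq2_fl_fl]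
  sub i hi := by rw [EUq2_fl_im]; exact h.sub i hi
  bd i hi p hp := (h.bd i hi _ (EUq2_fl_mem hp)).trans (by simp [EUq2_fl])
  tT := h.tT
  lev i hi p hp := h.lev i hi _ (EUq2_fl_mem hp)
  off i hi := by rw [EUq2_fl_im]; exact h.off i hi
  dis i hi j hj := by rw [EUq2_fl_im, EUq2_fl_im]; exact h.dis i hi j hj
  crs i hi j hj hc := by
    rw [EUq2_fl_im, EUq2_fl_im]
    refine (h.crs i hi j hj hc).imp_right ?_
    rintro ⟨a, b, ψ, h1, h2, h3, h4, h5⟩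
    have k : ∀ u : ℝ, -u ∈ Icc a b ↔ u ∈ Icc (-b) (-a) := fun u => by
      simp only [mem_Icc]
      constructor <;> rintro ⟨_, _⟩ <;> constructor <;> linarith
    refine ⟨-b, -a, fun u => ψ (-u), by linarith, by linarith, by linarith,
      fun u hu v hv e => neg_injective (h4 ((k u).2 hu) ((k v).2 hv) e), fun p hp => ?_⟩
    obtain ⟨h6, h7⟩ := h5 _ (EUq2_fl_mem hp)
    exact ⟨h6.trans (k _), fun hh => h7 ((k _).2 hh)⟩

/-- On a band that misses band `j` the function `T j` is constant. -/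
theorem EUq2_dis (h : Pat D S I col σ T) {i j : ι} (hi : i ∈ I) (hj : j ∈ I)
    (hd : Disjoint (σ i '' closedBall 0 1) (σ j '' closedBall 0 1)) {x y : Rn n}
    (hx : x ∈ σ i '' closedBall 0 1) (hy : y ∈ σ i '' closedBall 0 1) : T j x = T j y :=
  EUq2_const (((convex_closedBall (0 : Rn 2) 1).isPreconnected).image _
    (h.tp i hi).continuous.continuousOn) (h.tT j hj).continuous
    (fun z hz => h.off j hj z (h.sub i hi hz) (disjoint_left.1 hd hz)) hx hy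

/-- Band `j` crosses band `i` over the interval `[a, b]`. -/
structure EUq2_X (σ : ι → Rn 2 → Rn n) (T : ι → Rn n → ℝ) (i j : ι) (a b : ℝ) : Prop where
  ord : -1 < a ∧ a < b ∧ b < 1
  inj : InjOn (fun u => T j (σ i ![u, 0])) (Icc a b)
  mem : ∀ p ∈ closedBall (0 : Rn 2) 1, σ i p ∈ σ j '' closedBall 0 1 ↔ p 0 ∈ Icc a b
  mid : ∀ p ∈ closedBall (0 : Rn 2) 1, p 0 ∈ Icc a b → T j (σ i p) = T j (σ i ![p 0, 0])
  lo : ∀ p ∈ closedBall (0 : Rn 2) 1, p 0 ≤ a → T j (σ i p) = T j (σ i ![-1, 0])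
  hi : ∀ p ∈ closedBall (0 : Rn 2) 1, b ≤ p 0 → T j (σ i p) = T j (σ i ![1, 0])

theorem EUq2_X.amem {i j : ι} {a b : ℝ} (h : EUq2_X σ T i j a b) : |a| ≤ 1 :=
  abs_le.2 ⟨h.ord.1.le, (h.ord.2.1.trans h.ord.2.2).le⟩

theorem EUq2_X.bmem {i j : ι} {a b : ℝ} (h : EUq2_X σ T i j a b) : |b| ≤ 1 :=
  abs_le.2 ⟨(h.ord.1.trans h.ord.2.1).le, h.ord.2.2.le⟩

theorem EUq2_X.ne {i j : ι} {a b : ℝ} (h : EUq2_X σ T i j a b) :
    T j (σ i ![-1, 0]) ≠ T j (σ i ![1, 0]) := fun e =>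
  h.ord.2.1.ne (h.inj (left_mem_Icc.2 h.ord.2.1.le) (right_mem_Icc.2 h.ord.2.1.le)
    ((h.lo _ (EUq2_mem0 h.amem) le_rfl).trans (e.trans (h.hi _ (EUq2_mem0 h.bmem) le_rfl).symm)))

theorem EUq2_str (h : Pat D S I col σ T) {i j : ι} (hi : i ∈ I) (hj : j ∈ I) (hne : j ≠ i) :
    Disjoint (σ i '' closedBall 0 1) (σ j '' closedBall 0 1) ∨
      (col i ≠ col j ∧ ∃ a b, EUq2_X σ T i j a b) := by
  by_cases hc : col i = col j
  · exact Or.inl (h.dis i hi j hj hne.symm hc)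
  refine (h.crs i hi j hj hc).imp_right ?_
  rintro ⟨a, b, ψ, h1, h2, h3, h4, h5⟩
  have c0 : Continuous fun p => T j (σ i p) := ((h.tT j hj).comp (h.tp i hi)).continuous
  have c1 : ∀ t : ℝ, Continuous fun u : ℝ => |T j (σ i ![u, t])| := fun t =>
    (c0.comp (EUq2_tp TP.id' (TP.const t)).continuous).abs
  have out : ∀ u t : ℝ, |u| ≤ 1 → |t| ≤ 1 → u ∉ Icc a b → |T j (σ i ![u, t])| = 1 :=
    fun u t hu ht hn => h.off j hj _ (h.sub i hi ⟨_, EUq2_mem' hu ht, rfl⟩)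
      fun hh => hn ((h5 _ (EUq2_mem' hu ht)).1.1 hh)
  have mid : ∀ u ∈ Icc a b, T j (σ i ![u, 0]) = ψ u := fun u hu =>
    (h5 _ (EUq2_mem0 (abs_le.2 ⟨by linarith [hu.1], by linarith [hu.2]⟩))).2 hu
  have lin : IsLinearMap ℝ fun p : Rn 2 => p 0 := ⟨fun _ _ => rfl, fun _ _ => rfl⟩
  refine ⟨hc, a, b, ⟨h1, h2, h3⟩, fun u hu v hv e => h4 hu hv ?_, fun p hp => (h5 p hp).1,
    fun p hp hm => ((h5 p hp).2 hm).trans (mid _ hm).symm, fun p hp hm => ?_, fun p hp hm => ?_⟩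
  · rw [← mid u hu, ← mid v hv]
    exact e
  · refine EUq2_const ((convex_closedBall (0 : Rn 2) 1).inter
      (convex_halfSpace_le lin a)).isPreconnected c0 (fun q hq => ?_) ⟨hp, hm⟩
      ⟨EUq2_mem0 (by simp), h1.le⟩
    obtain ⟨q0, q1⟩ := EUq2_mem.1 hq.1
    have e : EqOn (fun u : ℝ => |T j (σ i ![u, q 1])|) (fun _ => 1) (Ico (-1) a) := fun u hu =>
      out u _ (abs_le.2 ⟨hu.1, by linarith [hu.2]⟩) q1 fun hh => absurd hu.2 (not_lt.2 hh.1)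
    have e' := e.closure (c1 _) continuous_const
    rw [closure_Ico h1.ne] at e'
    have := e' (x := q 0) ⟨(abs_le.1 q0).1, hq.2⟩
    simpa only [EUq2_eta] using this
  · refine EUq2_const ((convex_closedBall (0 : Rn 2) 1).inter
      (convex_halfSpace_ge lin b)).isPreconnected c0 (fun q hq => ?_) ⟨hp, hm⟩
      ⟨EUq2_mem0 (by simp), h3.le⟩
    obtain ⟨q0, q1⟩ := EUq2_mem.1 hq.1
    have e : EqOn (fun u : ℝ => |T j (σ i ![u, q 1])|) (fun _ => 1) (Ioc b 1) := fun u hu =>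
      out u _ (abs_le.2 ⟨by linarith [hu.1], hu.2⟩) q1 fun hh => absurd hu.1 (not_lt.2 hh.2)
    have e' := e.closure (c1 _) continuous_const
    rw [closure_Ioc h3.ne] at e'
    have := e' (x := q 0) ⟨hq.2, (abs_le.1 q0).2⟩
    simpa only [EUq2_eta] using this

/-- The order of two crossings along band `i` is read off the values of the band functions. -/
theorem EUq2_ord (h : Pat D S I col σ T) {i j k : ι} (hj : j ∈ I) (hk : k ∈ I)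
    (hd : Disjoint (σ j '' closedBall 0 1) (σ k '' closedBall 0 1)) {a b c d : ℝ}
    (X : EUq2_X σ T i j a b) (Y : EUq2_X σ T i k c d) {x : Rn n}
    (hx : x ∈ σ j '' closedBall 0 1) :
    (b < c ∧ T k x = T k (σ i ![-1, 0])) ∨ (d < a ∧ T k x = T k (σ i ![1, 0])) := by
  have e : T k x = T k (σ i ![a, 0]) := EUq2_dis h hj hk hd hx
    ((X.mem _ (EUq2_mem0 X.amem)).2 (left_mem_Icc.2 X.ord.2.1.le))
  have o : b < c ∨ d < a := by
    by_contra hn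
    push Not at hn
    have m : |max a c| ≤ 1 := by
      rcases max_choice a c with e | e <;> rw [e]
      exacts [X.amem, Y.amem]
    exact disjoint_left.1 hd
      ((X.mem _ (EUq2_mem0 m)).2 ⟨le_max_left _ _, max_le X.ord.2.1.le hn.1⟩)
      ((Y.mem _ (EUq2_mem0 m)).2 ⟨le_max_right _ _, max_le hn.2 Y.ord.2.1.le⟩)
  refine o.imp (fun o => ⟨o, e.trans (Y.lo _ (EUq2_mem0 X.amem) ?_)⟩)
    fun o => ⟨o, e.trans (Y.hi _ (EUq2_mem0 X.amem) o.le)⟩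
  exact (X.ord.2.1.trans o).le

/-- The ends of band `i` are mapped to the ends of the other band `i`. -/
theorem EUq2_ends (h : Pat D S I col σ T) (h' : Pat D' S' I col σ' T')
    {φ : Rn n → Rn m} (hφ : TP φ) (hb : BijOn φ S S')
    (he : ∀ i ∈ I, ∀ x ∈ S, T' i (φ x) = T i x ∧
      (x ∈ σ i '' closedBall 0 1 ↔ φ x ∈ σ' i '' closedBall 0 1)) {i : ι} (hi : i ∈ I) :
    (∀ s t : ℝ, |s| = 1 → |t| ≤ 1 → φ (σ i ![s, t]) = σ' i ![s, t]) ∨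
      ∀ s t : ℝ, |s| = 1 → |t| ≤ 1 → φ (σ i ![s, t]) = σ' i ![-s, t] := by
  obtain ⟨k, hk, hk'⟩ := tp_linv (Poly.closedBall (0 : Rn 2) 1) (h'.tp i hi) (h'.inj i hi)
  have hS : ∀ s t : ℝ, |s| = 1 → |t| ≤ 1 → σ i ![s, t] ∈ S := fun s t hs ht =>
    (h.bd i hi _ (EUq2_mem' hs.le ht)).2 hs
  have key : ∀ s t : ℝ, |s| = 1 → |t| ≤ 1 → |k (φ (σ i ![s, t])) 0| = 1 ∧
      φ (σ i ![s, t]) = σ' i ![k (φ (σ i ![s, t])) 0, t] := fun s t hs ht => by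
    obtain ⟨e1, e2⟩ := he i hi _ (hS s t hs ht)
    obtain ⟨p, hp, e⟩ := e2.1 ⟨_, EUq2_mem' hs.le ht, rfl⟩
    rw [h.lev i hi _ (EUq2_mem' hs.le ht), ← e, h'.lev i hi p hp] at e1
    have m := hb.mapsTo (hS s t hs ht)
    rw [← e] at m ⊢
    rw [hk' p hp]
    refine ⟨(h'.bd i hi p hp).1 m, ?_⟩
    rw [show t = p 1 from e1.symm, EUq2_eta]
  have cst : ∀ s t : ℝ, |s| = 1 → |t| ≤ 1 → k (φ (σ i ![s, t])) 0 = k (φ (σ i ![s, 0])) 0 :=
    fun s t hs ht => EUq2_const (A := Icc (-1 : ℝ) 1) (g := fun t => k (φ (σ i ![s, t])) 0)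
      isPreconnected_Icc
      ((hk.comp (hφ.comp ((h.tp i hi).comp (EUq2_tp (TP.const s) TP.id')))).apply 0).continuous
      (fun t ht => (key s t hs (abs_le.2 ht)).1) (abs_le.1 ht) (abs_le.1 (by simp))
  have p1 : |(1 : ℝ)| = 1 := abs_one
  have m1 : |(-1 : ℝ)| = 1 := by simp
  have z0 : |(0 : ℝ)| ≤ 1 := by simp
  have ne : k (φ (σ i ![1, 0])) 0 ≠ k (φ (σ i ![-1, 0])) 0 := fun e => by
    have e1 : φ (σ i ![1, 0]) = φ (σ i ![-1, 0]) := by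
      rw [(key 1 0 p1 z0).2, e, ← (key (-1) 0 m1 z0).2]
    have e2 := congrFun (h.inj i hi (EUq2_mem' p1.le z0) (EUq2_mem' m1.le z0)
      (hb.injOn (hS 1 0 p1 z0) (hS (-1) 0 m1 z0) e1)) 0
    norm_num at e2
  rcases (abs_eq zero_le_one).1 (key 1 0 p1 z0).1 with e | e <;>
    rcases (abs_eq zero_le_one).1 (key (-1) 0 m1 z0).1 with e' | e'
  · exact (ne (e.trans e'.symm)).elim
  · refine Or.inl fun s t hs ht => ?_
    rw [(key s t hs ht).2, cst s t hs ht]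
    rcases (abs_eq zero_le_one).1 hs with rfl | rfl
    · rw [e]
    · rw [e']
  · refine Or.inr fun s t hs ht => ?_
    rw [(key s t hs ht).2, cst s t hs ht]
    rcases (abs_eq zero_le_one).1 hs with rfl | rfl
    · rw [e]
    · rw [e', neg_neg]
  · exact (ne (e.trans e'.symm)).elim

theorem EUq2_main (hI : I.Finite) (h : Pat D S I col σ T) (h' : Pat D' S' I col σ' T')
    {φ : Rn n → Rn m}
    (he : ∀ i ∈ I, ∀ x ∈ S, T' i (φ x) = T i x ∧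
      (x ∈ σ i '' closedBall 0 1 ↔ φ x ∈ σ' i '' closedBall 0 1)) {i : ι} (hi : i ∈ I)
    (hE : ∀ s t : ℝ, |s| = 1 → |t| ≤ 1 → φ (σ i ![s, t]) = σ' i ![s, t]) :
    ∃ R : Rn n → Rn m, TP R ∧ BijOn R (σ i '' closedBall 0 1) (σ' i '' closedBall 0 1) ∧
      EqOn R φ (S ∩ σ i '' closedBall 0 1) ∧ ∀ j ∈ I, ∀ x ∈ σ i '' closedBall 0 1,
        T' j (R x) = T j x ∧ (x ∈ σ j '' closedBall 0 1 ↔ R x ∈ σ' j '' closedBall 0 1) := by
  have p1 : |(1 : ℝ)| = 1 := abs_one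
  have m1 : |(-1 : ℝ)| = 1 := by simp
  have z0 : |(0 : ℝ)| ≤ 1 := by simp
  have en : ∀ j ∈ I, ∀ s : ℝ, |s| = 1 → T' j (σ' i ![s, 0]) = T j (σ i ![s, 0]) :=
    fun j hj s hs => by
      rw [← hE s 0 hs z0]
      exact (he j hj _ ((h.bd i hi _ (EUq2_mem0 hs.le)).2 hs)).1
  let M : Set ι := {j ∈ I | j ≠ i ∧ T j (σ i ![-1, 0]) ≠ T j (σ i ![1, 0])}
  have hX : ∀ j ∈ M, col i ≠ col j ∧ ∃ a b, EUq2_X σ T i j a b := fun j hj =>
    (EUq2_str h hi hj.1 hj.2.1).resolve_left fun hd => hj.2.2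
      (EUq2_dis h hi hj.1 hd ⟨_, EUq2_mem0 m1.le, rfl⟩ ⟨_, EUq2_mem0 p1.le, rfl⟩)
  have hX' : ∀ j ∈ M, ∃ a b, EUq2_X σ' T' i j a b := fun j hj =>
    ((EUq2_str h' hi hj.1 hj.2.1).resolve_left fun hd => hj.2.2 (by
      rw [← en j hj.1 _ m1, ← en j hj.1 _ p1]
      exact EUq2_dis h' hi hj.1 hd ⟨_, EUq2_mem0 m1.le, rfl⟩ ⟨_, EUq2_mem0 p1.le, rfl⟩)).2
  choose! a b X using fun j hj => (hX j hj).2
  choose! a' b' X' using hX'
  have ord : ∀ j ∈ M, ∀ k ∈ M, j ≠ k →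
      (b j < a k ∧ b' j < a' k) ∨ (b k < a j ∧ b' k < a' j) := fun j hj k hk hjk => by
    have hc : col j = col k := by
      have c1 := (hX j hj).1
      have c2 := (hX k hk).1
      revert c1 c2
      cases col i <;> cases col j <;> cases col k <;> simp
    have x1 : σ j ![1, 0] ∈ σ j '' closedBall 0 1 := ⟨_, EUq2_mem0 p1.le, rfl⟩
    have x2 : σ j ![1, 0] ∈ S := (h.bd j hj.1 _ (EUq2_mem0 p1.le)).2 p1
    have o := EUq2_ord h hj.1 hk.1 (h.dis j hj.1 k hk.1 hjk hc) (X j hj) (X k hk) x1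
    have o' := EUq2_ord h' hj.1 hk.1 (h'.dis j hj.1 k hk.1 hjk hc) (X' j hj) (X' k hk)
      ((he j hj.1 _ x2).2.1 x1)
    rw [(he k hk.1 _ x2).1, en k hk.1 _ m1, en k hk.1 _ p1] at o'
    rcases o with o | o <;> rcases o' with o' | o'
    · exact Or.inl ⟨o.1, o'.1⟩
    · exact (hk.2.2 (o.2.symm.trans o'.2)).elim
    · exact (hk.2.2 (o'.2.symm.trans o.2)).elim
    · exact Or.inr ⟨o.1, o'.1⟩
  obtain ⟨ρ, r1, r2, r3, r4, r5, r6⟩ := match1 (M := M) (hI.subset fun _ hj => hj.1)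
    (φ := fun j u => T j (σ i ![u, 0])) (φ' := fun j u => T' j (σ' i ![u, 0]))
    (fun j hj => (X j hj).ord) (fun j hj => (X' j hj).ord) ord
    (fun j hj => ⟨(h.tT j hj.1).comp ((h.tp i hi).comp (EUq2_tp TP.id' (TP.const 0))),
      (X j hj).inj⟩)
    (fun j hj => ⟨(h'.tT j hj.1).comp ((h'.tp i hi).comp (EUq2_tp TP.id' (TP.const 0))),
      (X' j hj).inj⟩)
    fun j hj => ⟨((X' j hj).lo _ (EUq2_mem0 (X' j hj).amem) le_rfl).trans ((en j hj.1 _ m1).trans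
        ((X j hj).lo _ (EUq2_mem0 (X j hj).amem) le_rfl).symm),
      ((X' j hj).hi _ (EUq2_mem0 (X' j hj).bmem) le_rfl).trans ((en j hj.1 _ p1).trans
        ((X j hj).hi _ (EUq2_mem0 (X j hj).bmem) le_rfl).symm)⟩
  obtain ⟨k, hk, hk'⟩ := tp_linv (Poly.closedBall (0 : Rn 2) 1) (h.tp i hi) (h.inj i hi)
  have rm : ∀ p ∈ closedBall (0 : Rn 2) 1, (![ρ (p 0), p 1] : Rn 2) ∈ closedBall (0 : Rn 2) 1 :=
    fun p hp => EUq2_mem' (abs_le.2 (show ρ (p 0) ∈ Icc (-1 : ℝ) 1 from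
      r3 ▸ mem_image_of_mem ρ (abs_le.1 (EUq2_mem.1 hp).1))) (EUq2_mem.1 hp).2
  refine ⟨fun x => σ' i ![ρ (k x 0), k x 1],
    (h'.tp i hi).comp (EUq2_tp (r1.comp (hk.apply 0)) (hk.apply 1)), ⟨?_, ?_, ?_⟩, ?_, ?_⟩
  · rintro _ ⟨p, hp, rfl⟩
    simp only [hk' p hp]
    exact ⟨_, rm p hp, rfl⟩
  · rintro _ ⟨p, hp, rfl⟩ _ ⟨q, hq, rfl⟩ e
    simp only [hk' p hp, hk' q hq] at e
    have e1 := h'.inj i hi (rm p hp) (rm q hq) e
    have e2 : p 0 = q 0 := r2.injOn (abs_le.1 (EUq2_mem.1 hp).1) (abs_le.1 (EUq2_mem.1 hq).1)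
      (congrFun e1 0)
    have e3 : p 1 = q 1 := congrFun e1 1
    rw [← EUq2_eta p, e2, e3, EUq2_eta]
  · rintro _ ⟨q, hq, rfl⟩
    obtain ⟨u, hu, e⟩ : q 0 ∈ ρ '' Icc (-1) 1 := r3.symm ▸ abs_le.1 (EUq2_mem.1 hq).1
    have m := EUq2_mem' (abs_le.2 hu) (EUq2_mem.1 hq).2
    refine ⟨_, ⟨_, m, rfl⟩, ?_⟩
    simp only [hk' _ m, Matrix.cons_val_zero, Matrix.cons_val_one, e, EUq2_eta]
  · rintro _ ⟨hS, p, hp, rfl⟩
    have e := (h.bd i hi p hp).1 hS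
    simp only [hk' p hp]
    rw [← EUq2_eta p, hE _ _ e (EUq2_mem.1 hp).2, EUq2_eta p]
    rcases (abs_eq zero_le_one).1 e with e | e
    · rw [e, r5, ← e, EUq2_eta]
    · rw [e, r4, ← e, EUq2_eta]
  · rintro j hj _ ⟨p, hp, rfl⟩
    simp only [hk' p hp]
    have p0 : p 0 ∈ Icc (-1 : ℝ) 1 := abs_le.1 (EUq2_mem.1 hp).1
    by_cases hji : j = i
    · subst hji
      exact ⟨(h'.lev j hj _ (rm p hp)).trans (h.lev j hj p hp).symm,
        iff_of_true ⟨_, hp, rfl⟩ ⟨_, rm p hp, rfl⟩⟩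
    by_cases hM : j ∈ M
    · obtain ⟨s1, s2, s3⟩ := r6 j hM
      have la : ρ (p 0) ≤ a' j ↔ p 0 ≤ a j := s1 ▸ r2.le_iff_le p0 (abs_le.1 (X j hM).amem)
      have la' : a' j ≤ ρ (p 0) ↔ a j ≤ p 0 := s1 ▸ r2.le_iff_le (abs_le.1 (X j hM).amem) p0
      have lb : ρ (p 0) ≤ b' j ↔ p 0 ≤ b j := s2 ▸ r2.le_iff_le p0 (abs_le.1 (X j hM).bmem)
      have lb' : b' j ≤ ρ (p 0) ↔ b j ≤ p 0 := s2 ▸ r2.le_iff_le (abs_le.1 (X j hM).bmem) p0
      refine ⟨?_, ((X j hM).mem p hp).trans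
        ((and_congr la' lb).symm.trans ((X' j hM).mem _ (rm p hp)).symm)⟩
      rcases le_total (p 0) (a j) with c | c
      · rw [(X j hM).lo p hp c, (X' j hM).lo _ (rm p hp) (la.2 c), en j hj _ m1]
      rcases le_total (p 0) (b j) with c' | c'
      · rw [(X j hM).mid p hp ⟨c, c'⟩, (X' j hM).mid _ (rm p hp) ⟨la'.2 c, lb.2 c'⟩]
        exact s3 _ ⟨c, c'⟩
      · rw [(X j hM).hi p hp c', (X' j hM).hi _ (rm p hp) (lb'.2 c'), en j hj _ p1]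
    · have e : T j (σ i ![-1, 0]) = T j (σ i ![1, 0]) := by_contra fun e => hM ⟨hj, hji, e⟩
      have d := (EUq2_str h hi hj hji).resolve_right fun ⟨_, _, _, Y⟩ => Y.ne e
      have d' := (EUq2_str h' hi hj hji).resolve_right fun ⟨_, _, _, Y⟩ => Y.ne (by
        rw [en j hj _ m1, en j hj _ p1, e])
      refine ⟨?_, iff_of_false (disjoint_left.1 d ⟨_, hp, rfl⟩)
        (disjoint_left.1 d' ⟨_, rm p hp, rfl⟩)⟩
      rw [EUq2_dis h hi hj d ⟨_, hp, rfl⟩ ⟨_, EUq2_mem0 p1.le, rfl⟩,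
        EUq2_dis h' hi hj d' ⟨_, rm p hp, rfl⟩ ⟨_, EUq2_mem0 p1.le, rfl⟩, en j hj _ p1]

theorem EUq2_band_map (hI : I.Finite) (h : Pat D S I col σ T) (h' : Pat D' S' I col σ' T')
    {φ : Rn n → Rn m} (hφ : TP φ) (hb : BijOn φ S S')
    (he : ∀ i ∈ I, ∀ x ∈ S, T' i (φ x) = T i x ∧
      (x ∈ σ i '' closedBall 0 1 ↔ φ x ∈ σ' i '' closedBall 0 1)) {i : ι} (hi : i ∈ I) :
    ∃ R : Rn n → Rn m, TP R ∧ BijOn R (σ i '' closedBall 0 1) (σ' i '' closedBall 0 1) ∧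
      EqOn R φ (S ∩ σ i '' closedBall 0 1) ∧ ∀ j ∈ I, ∀ x ∈ σ i '' closedBall 0 1,
        T' j (R x) = T j x ∧ (x ∈ σ j '' closedBall 0 1 ↔ R x ∈ σ' j '' closedBall 0 1) := by
  rcases EUq2_ends h h' hφ hb he hi with hE | hE
  · exact EUq2_main hI h h' he hi hE
  · have := EUq2_main hI h h'.flip (φ := φ) (by simpa only [EUq2_fl_im] using he) hi hE
    simpa only [EUq2_fl_im] using this

end BEp
end
end

-- merged part: Pool.Agent.Work.MP_f0515e_an.D3.EUq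
section
/-! Uniqueness of patterns. Write `B i = σ i '' closedBall 0 1`.
`Pat.half`: `bandcut`; `T i = 1` on `D₁` and `-1` on `D₂` (`|T i| = 1` on a connected set). The new bands: `σ j` if `B j` misses `B i`, else `σ j` composed with the affine map of `[-1, 1]` onto `[b, 1]` or `[-1, a]` in the first coordinate
(`crs j i`; `T i` is `± 1` with opposite signs on the two ends since `φ` is injective and `|φ a| = |φ b| = 1`). For `k ≠ i` crossing `j` the interval of `k` along `j` misses `[a, b]` (`dis`).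
`Pat.flip`: precompose `σ i` with `p ↦ ![-p 0, p 1]`.
`band_map`: `φ` maps the two ends of `B i` onto the two ends of `B' i` (connected, closed); flip so that `φ (σ i ![1, t]) = σ' i ![1, t]` (use `lev`). `j` crosses `i` iff `T j` differs at the two ends of `B i`, so the crossing set `M` is the same.
Order: for `j ≠ k` in `M` (same colour, disjoint) `T k` is constant on `B j`, equal to its value at an end of `B j`; along `i` the function `T k` is `T k (σ i ![-1, 0])` before the interval of `k` and the opposite after it. `match1` with `φ j u = T j (σ i ![u, 0])`.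
`R = σ' i ∘ (ρ × id) ∘ (σ i)⁻¹`.
`uniq_pat`: induction on `I.ncard`, generalising everything; base `PCel.ext`; step: `band_map`, boundary maps of the halves by `tp_glue`, `Pat.half` with `s = ± 1`, indices outside the new index set have `T j` constant on the half; `tp_glue_fin`.
About 750 lines; split EUq1 (`Pat.half`, `Pat.flip`), EUq2 (`band_map`), EUq. -/

open Set Metric Filter Topology Function BEv
open scoped NNReal

noncomputable section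
namespace BEp

variable {n m : ℕ}

variable {ι : Type} {D S : Set (Rn n)} {I : Set ι} {col : ι → Bool} {σ : ι → Rn 2 → Rn n}
  {T : ι → Rn n → ℝ} {D' S' : Set (Rn m)} {σ' : ι → Rn 2 → Rn m} {T' : ι → Rn m → ℝ}

theorem band_map (hI : I.Finite) (h : Pat D S I col σ T) (h' : Pat D' S' I col σ' T')
    {φ : Rn n → Rn m} (hφ : TP φ) (hb : BijOn φ S S')
    (he : ∀ i ∈ I, ∀ x ∈ S, T' i (φ x) = T i x ∧
      (x ∈ σ i '' closedBall 0 1 ↔ φ x ∈ σ' i '' closedBall 0 1)) {i : ι} (hi : i ∈ I) :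
    ∃ R : Rn n → Rn m, TP R ∧ BijOn R (σ i '' closedBall 0 1) (σ' i '' closedBall 0 1) ∧
      EqOn R φ (S ∩ σ i '' closedBall 0 1) ∧ ∀ j ∈ I, ∀ x ∈ σ i '' closedBall 0 1,
        T' j (R x) = T j x ∧ (x ∈ σ j '' closedBall 0 1 ↔ R x ∈ σ' j '' closedBall 0 1) := by
  exact EUq2_band_map hI h h' hφ hb he hi

theorem euq_const {H : Set (Rn n)} (hH : IsPreconnected H) {f : Rn n → ℝ} (hf : Continuous f)
    (h1 : ∀ x ∈ H, |f x| = 1) {x y : Rn n} (hx : x ∈ H) (hy : y ∈ H) : f x = f y := by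
  have key : ∀ a ∈ H, ∀ b ∈ H, f a = 1 → f b = -1 → False := fun a ha b hb ea eb => by
    obtain ⟨z, hz, ez⟩ := hH.intermediate_value hb ha hf.continuousOn
      (show (0 : ℝ) ∈ Icc (f b) (f a) by rw [ea, eb]; constructor <;> norm_num)
    have := h1 z hz
    rw [ez, abs_zero] at this
    exact zero_ne_one this
  rcases (abs_eq zero_le_one).1 (h1 x hx) with e | e <;>
    rcases (abs_eq zero_le_one).1 (h1 y hy) with e' | e'
  · rw [e, e']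
  · exact (key x hx y hy e e').elim
  · exact (key y hy x hx e' e).elim
  · rw [e, e']

theorem euq_side (h : Pat D S I col σ T) {i : ι} (hi : i ∈ I) (s : ℝ) :
    {x ∈ S | T i x = s} ∪ σ i '' {p | ‖p‖ ≤ 1 ∧ p 1 = s} =
      {x ∈ S ∪ σ i '' closedBall 0 1 | T i x = s} := by
  ext x
  constructor
  · rintro (⟨h1, h2⟩ | ⟨p, ⟨h1, h2⟩, rfl⟩)
    · exact ⟨Or.inl h1, h2⟩
    · have hp : p ∈ closedBall (0 : Rn 2) 1 := mem_closedBall_zero_iff.2 h1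
      exact ⟨Or.inr (mem_image_of_mem _ hp), (h.lev i hi p hp).trans h2⟩
  · rintro ⟨h1 | ⟨p, hp, rfl⟩, h2⟩
    · exact Or.inl ⟨h1, h2⟩
    · exact Or.inr ⟨p, ⟨mem_closedBall_zero_iff.1 hp, (h.lev i hi p hp).symm.trans h2⟩, rfl⟩

theorem euq_half
    (IH : ∀ (D S : Set (Rn n)) (J : Set ι) (σ : ι → Rn 2 → Rn n) (D' S' : Set (Rn m))
      (σ' : ι → Rn 2 → Rn m) (φ : Rn n → Rn m), J ⊂ I → Pat D S J col σ T →
      Pat D' S' J col σ' T' → TP φ → BijOn φ S S' →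
      (∀ i ∈ J, ∀ x ∈ S, T' i (φ x) = T i x ∧
        (x ∈ σ i '' closedBall 0 1 ↔ φ x ∈ σ' i '' closedBall 0 1)) →
      ∃ R : Rn n → Rn m, TP R ∧ BijOn R D D' ∧ EqOn R φ S ∧ ∀ j ∈ J, ∀ x ∈ D,
        T' j (R x) = T j x ∧ (x ∈ σ j '' closedBall 0 1 ↔ R x ∈ σ' j '' closedBall 0 1))
    (h : Pat D S I col σ T) (h' : Pat D' S' I col σ' T') {i : ι} (hi : i ∈ I)
    {ψ : Rn n → Rn m} (hψ : TP ψ) (hS : BijOn ψ S S')
    (hb : BijOn ψ (S ∪ σ i '' closedBall 0 1) (S' ∪ σ' i '' closedBall 0 1))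
    (he : ∀ j ∈ I, ∀ x ∈ S ∪ σ i '' closedBall 0 1, T' j (ψ x) = T j x ∧
      (x ∈ σ j '' closedBall 0 1 ↔ ψ x ∈ σ' j '' closedBall 0 1))
    {s : ℝ} (hs : s = 1 ∨ s = -1) :
    ∃ R : Rn n → Rn m, TP R ∧ BijOn R {x ∈ D | T i x = s} {x ∈ D' | T' i x = s} ∧
      EqOn R ψ {x ∈ S ∪ σ i '' closedBall 0 1 | T i x = s} ∧
      ∀ j ∈ I, ∀ x ∈ D, T i x = s →
        T' j (R x) = T j x ∧ (x ∈ σ j '' closedBall 0 1 ↔ R x ∈ σ' j '' closedBall 0 1) := by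
  obtain ⟨τ, p1, p2⟩ := h.half hi hs
  obtain ⟨τ', q1, q2⟩ := h'.half hi hs
  rw [euq_side h hi] at p1
  rw [euq_side h' hi] at q1
  have hex : ∀ j ∈ I, ((∃ x ∈ S' ∩ σ' j '' closedBall 0 1, T' i x = s) ↔
      ∃ x ∈ S ∩ σ j '' closedBall 0 1, T i x = s) := by
    intro j hj
    constructor
    · rintro ⟨y, ⟨y1, y2⟩, y3⟩
      obtain ⟨x, hx, rfl⟩ := hS.surjOn y1
      exact ⟨x, ⟨hx, (he j hj x (Or.inl hx)).2.2 y2⟩, (he i hi x (Or.inl hx)).1.symm.trans y3⟩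
    · rintro ⟨x, ⟨x1, x2⟩, x3⟩
      exact ⟨ψ x, ⟨hS.mapsTo x1, (he j hj x (Or.inl x1)).2.1 x2⟩,
        (he i hi x (Or.inl x1)).1.trans x3⟩
  have hJ : {j ∈ I | j ≠ i ∧ ∃ x ∈ S' ∩ σ' j '' closedBall 0 1, T' i x = s} =
      {j ∈ I | j ≠ i ∧ ∃ x ∈ S ∩ σ j '' closedBall 0 1, T i x = s} := by
    ext j
    exact and_congr_right fun hj => and_congr_right fun _ => hex j hj
  rw [hJ] at q1
  have hb' : BijOn ψ {x ∈ S ∪ σ i '' closedBall 0 1 | T i x = s}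
      {x ∈ S' ∪ σ' i '' closedBall 0 1 | T' i x = s} := by
    refine ⟨fun x hx => ⟨hb.mapsTo hx.1, (he i hi x hx.1).1.trans hx.2⟩,
      hb.injOn.mono fun x hx => hx.1, fun y hy => ?_⟩
    obtain ⟨x, hx, rfl⟩ := hb.surjOn hy.1
    exact ⟨x, ⟨hx, (he i hi x hx).1.symm.trans hy.2⟩, rfl⟩
  obtain ⟨R, r1, r2, r3, r4⟩ := IH _ _ _ τ _ _ τ' ψ
    ⟨fun j hj => hj.1, fun hh => (hh hi).2.1 rfl⟩ p1 q1 hψ hb' (by
      intro j hj x hx
      refine ⟨(he j hj.1 x hx.1).1, ?_⟩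
      rw [(p2 j hj.1 hj.2.1).1 hj.2.2, (q2 j hj.1 hj.2.1).1 ((hex j hj.1).2 hj.2.2)]
      exact and_congr (he j hj.1 x hx.1).2 (by rw [(he i hi x hx.1).1]))
  refine ⟨R, r1, r2, r3, fun j hj x hx hxs => ?_⟩
  have hxH : x ∈ {x ∈ D | T i x = s} := ⟨hx, hxs⟩
  have hRx := r2.mapsTo hxH
  by_cases hji : j = i
  · subst hji
    refine ⟨hRx.2.trans hxs.symm, fun hB => ?_, fun hB => ?_⟩
    · rw [r3 (show x ∈ {x ∈ S ∪ σ j '' closedBall 0 1 | T j x = s} from ⟨Or.inr hB, hxs⟩)]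
      exact (he j hj x (Or.inr hB)).2.1 hB
    · obtain ⟨y, hy, e⟩ := hb'.surjOn
        (show R x ∈ {x ∈ S' ∪ σ' j '' closedBall 0 1 | T' j x = s} from ⟨Or.inr hB, hRx.2⟩)
      have : y = x := r2.injOn (p1.dsc.sub hy) hxH ((r3 hy).trans e)
      subst this
      exact (he j hj y hy.1).2.2 (e ▸ hB)
  by_cases hc : ∃ x ∈ S ∩ σ j '' closedBall 0 1, T i x = s
  · obtain ⟨a1, a2⟩ := r4 j ⟨hj, hji, hc⟩ x hxH
    refine ⟨a1, ?_⟩
    rw [(p2 j hj hji).1 hc, (q2 j hj hji).1 ((hex j hj).2 hc)] at a2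
    exact ⟨fun hB => (a2.1 ⟨hB, hxs⟩).1, fun hB => (a2.2 ⟨hB, hRx.2⟩).1⟩
  · have n1 := (p2 j hj hji).2 hc
    have n2 := (q2 j hj hji).2 fun hh => hc ((hex j hj).1 hh)
    refine ⟨?_, fun hB => (n1 x hB hxs).elim, fun hB => (n2 _ hB hRx.2).elim⟩
    obtain ⟨y, hy⟩ := (PDsc.conn_bd p1.dsc).nonempty
    have hyH := p1.dsc.sub hy
    have c1 : T j x = T j y := euq_const p1.dsc.conn.isPreconnected (h.tT j hj).continuous
      (fun z hz => h.off j hj z hz.1 fun hB => n1 z hB hz.2) hxH hyH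
    have c2 : T' j (R x) = T' j (R y) := euq_const q1.dsc.conn.isPreconnected
      (h'.tT j hj).continuous (fun z hz => h'.off j hj z hz.1 fun hB => n2 z hB hz.2) hRx
      (r2.mapsTo hyH)
    rw [c1, c2, r3 hy]
    exact (he j hj y hy.1).1

theorem euq_step (hI : I.Finite)
    (IH : ∀ (D S : Set (Rn n)) (J : Set ι) (σ : ι → Rn 2 → Rn n) (D' S' : Set (Rn m))
      (σ' : ι → Rn 2 → Rn m) (φ : Rn n → Rn m), J ⊂ I → Pat D S J col σ T →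
      Pat D' S' J col σ' T' → TP φ → BijOn φ S S' →
      (∀ i ∈ J, ∀ x ∈ S, T' i (φ x) = T i x ∧
        (x ∈ σ i '' closedBall 0 1 ↔ φ x ∈ σ' i '' closedBall 0 1)) →
      ∃ R : Rn n → Rn m, TP R ∧ BijOn R D D' ∧ EqOn R φ S ∧ ∀ j ∈ J, ∀ x ∈ D,
        T' j (R x) = T j x ∧ (x ∈ σ j '' closedBall 0 1 ↔ R x ∈ σ' j '' closedBall 0 1))
    (h : Pat D S I col σ T) (h' : Pat D' S' I col σ' T')
    {φ : Rn n → Rn m} (hφ : TP φ) (hb : BijOn φ S S')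
    (he : ∀ i ∈ I, ∀ x ∈ S, T' i (φ x) = T i x ∧
      (x ∈ σ i '' closedBall 0 1 ↔ φ x ∈ σ' i '' closedBall 0 1)) :
    ∃ R : Rn n → Rn m, TP R ∧ BijOn R D D' ∧ EqOn R φ S ∧ ∀ j ∈ I, ∀ x ∈ D,
      T' j (R x) = T j x ∧ (x ∈ σ j '' closedBall 0 1 ↔ R x ∈ σ' j '' closedBall 0 1) := by
  rcases I.eq_empty_or_nonempty with rfl | ⟨i, hi⟩
  · obtain ⟨g, g1, g2, g3⟩ := h.dsc.ext h'.dsc hφ hb
    exact ⟨g, g1, g2, g3, fun j hj => hj.elim⟩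
  obtain ⟨R0, a1, a2, a3, a4⟩ := band_map hI h h' hφ hb he hi
  have pB : Poly (σ i '' closedBall 0 1) := (Poly.closedBall 0 1).image (h.tp i hi)
  obtain ⟨ψ, b1, b2, b3⟩ := tp_glue h.dsc.poly' pB hφ a1 a3.symm
  have hS : BijOn ψ S S' := hb.congr b2.symm
  have hB : BijOn ψ (σ i '' closedBall 0 1) (σ' i '' closedBall 0 1) := a2.congr b3.symm
  have he' : ∀ j ∈ I, ∀ x ∈ S ∪ σ i '' closedBall 0 1, T' j (ψ x) = T j x ∧
      (x ∈ σ j '' closedBall 0 1 ↔ ψ x ∈ σ' j '' closedBall 0 1) := by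
    rintro j hj x (hx | hx)
    · rw [b2 hx]; exact he j hj x hx
    · rw [b3 hx]; exact a4 j hj x hx
  have hU : BijOn ψ (S ∪ σ i '' closedBall 0 1) (S' ∪ σ' i '' closedBall 0 1) := by
    refine ⟨hS.mapsTo.union_union hB.mapsTo, injOn_two hS.injOn hB.injOn fun z hz w hw e => ?_,
      hS.surjOn.union_union hB.surjOn⟩
    exact hB.injOn ((he' i hi z (Or.inl hz)).2.2 (e ▸ hB.mapsTo hw)) hw e
  obtain ⟨P, p1, p2, p3, p4⟩ := euq_half IH h h' hi b1 hS hU he' (s := 1) (Or.inl rfl)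
  obtain ⟨Q, q1, q2, q3, q4⟩ := euq_half IH h h' hi b1 hS hU he' (s := -1) (Or.inr rfl)
  have pH : ∀ s, Poly {x ∈ D | T i x = s} := poly_eq h.dsc.poly (h.tT i hi)
  obtain ⟨k, k1, k2, k3⟩ := tp_glue (pH 1) (pH (-1)) p1 q1 fun x hx => by
    have := hx.1.2.symm.trans hx.2.2
    norm_num at this
  obtain ⟨R, r1, r2, r3⟩ := tp_glue pB ((pH 1).union (pH (-1))) b1 k1 (by
    rintro x ⟨hx, hx' | hx'⟩
    · rw [k2 hx', p3 (show x ∈ {x ∈ S ∪ σ i '' closedBall 0 1 | T i x = 1} from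
        ⟨Or.inr hx, hx'.2⟩)]
    · rw [k3 hx', q3 (show x ∈ {x ∈ S ∪ σ i '' closedBall 0 1 | T i x = -1} from
        ⟨Or.inr hx, hx'.2⟩)])
  have rP : EqOn R P {x ∈ D | T i x = 1} := fun x hx => (r3 (Or.inl hx)).trans (k2 hx)
  have rQ : EqOn R Q {x ∈ D | T i x = -1} := fun x hx => (r3 (Or.inr hx)).trans (k3 hx)
  have cov : ∀ x ∈ D, x ∈ σ i '' closedBall 0 1 ∨ T i x = 1 ∨ T i x = -1 := fun x hx =>
    or_iff_not_imp_left.2 fun hn => (abs_eq zero_le_one).1 (h.off i hi x hx hn)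
  have cov' : ∀ x ∈ D', x ∈ σ' i '' closedBall 0 1 ∨ T' i x = 1 ∨ T' i x = -1 := fun x hx =>
    or_iff_not_imp_left.2 fun hn => (abs_eq zero_le_one).1 (h'.off i hi x hx hn)
  have hE : ∀ j ∈ I, ∀ x ∈ D,
      T' j (R x) = T j x ∧ (x ∈ σ j '' closedBall 0 1 ↔ R x ∈ σ' j '' closedBall 0 1) := by
    intro j hj x hx
    rcases cov x hx with c | c | c
    · rw [r2 c]; exact he' j hj x (Or.inr c)
    · rw [rP ⟨hx, c⟩]; exact p4 j hj x hx c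
    · rw [rQ ⟨hx, c⟩]; exact q4 j hj x hx c
  have bB := hB.congr r2.symm
  have bP := p2.congr rP.symm
  have bQ := q2.congr rQ.symm
  refine ⟨R, r1, ⟨fun x hx => ?_, fun x hx y hy e => ?_, fun y hy => ?_⟩, fun x hx => ?_, hE⟩
  · rcases cov x hx with c | c | c
    exacts [h'.sub i hi (bB.mapsTo c), (bP.mapsTo ⟨hx, c⟩).1, (bQ.mapsTo ⟨hx, c⟩).1]
  · have e1 : T i y = T i x := (hE i hi y hy).1.symm.trans (e ▸ (hE i hi x hx).1)
    rcases cov x hx with c | c | c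
    · exact bB.injOn c ((hE i hi y hy).2.2 (e ▸ bB.mapsTo c)) e
    · exact bP.injOn ⟨hx, c⟩ ⟨hy, e1.trans c⟩ e
    · exact bQ.injOn ⟨hx, c⟩ ⟨hy, e1.trans c⟩ e
  · rcases cov' y hy with c | c | c
    · exact image_mono (h.sub i hi) (bB.surjOn c)
    · exact image_mono (fun z hz => hz.1) (bP.surjOn ⟨hy, c⟩)
    · exact image_mono (fun z hz => hz.1) (bQ.surjOn ⟨hy, c⟩)
  · have hxD := h.dsc.sub hx
    rcases cov x hxD with c | c | c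
    · rw [r2 c, b2 hx]
    · rw [rP ⟨hxD, c⟩, p3 (show x ∈ {x ∈ S ∪ σ i '' closedBall 0 1 | T i x = 1} from
        ⟨Or.inl hx, c⟩), b2 hx]
    · rw [rQ ⟨hxD, c⟩, q3 (show x ∈ {x ∈ S ∪ σ i '' closedBall 0 1 | T i x = -1} from
        ⟨Or.inl hx, c⟩), b2 hx]

theorem uniq_pat (hI : I.Finite) (h : Pat D S I col σ T) (h' : Pat D' S' I col σ' T')
    {φ : Rn n → Rn m} (hφ : TP φ) (hb : BijOn φ S S')
    (he : ∀ i ∈ I, ∀ x ∈ S, T' i (φ x) = T i x ∧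
      (x ∈ σ i '' closedBall 0 1 ↔ φ x ∈ σ' i '' closedBall 0 1)) :
    ∃ R : Rn n → Rn m, TP R ∧ BijOn R D D' ∧ EqOn R φ S ∧ ∀ j ∈ I, ∀ x ∈ D,
      T' j (R x) = T j x ∧ (x ∈ σ j '' closedBall 0 1 ↔ R x ∈ σ' j '' closedBall 0 1) := by
  induction hN : I.ncard using Nat.strong_induction_on generalizing D S I σ D' S' σ' φ with
  | _ N ih =>
    refine euq_step hI (fun D S J σ D' S' σ' φ hJ g g' k1 k2 k3 => ?_) h h' hφ hb he
    exact ih J.ncard (hN ▸ ncard_lt_ncard hJ hI) (hI.subset hJ.1) g g' k1 k2 k3 rfl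

end BEp
end
end

-- merged part: Pool.Agent.Work.MP_f0515e_an.D3.EPar
section
/-! Parametrisation of a disc in standard position. `γ s = β ![s, s]`.
`epar`: `real_pat`. The ends `σ i ![± 1, 0]` lie in `J`, in a wall, so are `γ s`; `TameC` gives intervals `j±` with `γ (j.1 + j.2 t) = σ i ![± 1, ε t]`; order them to get `l i`, `r i`, `e i` (sign at the left end). Distinct ends have distinct intervals
(the centre `γ j.1` is the end; ends of different bands are different: same colour by `dis`, other colour by `crs` and `bd`). `T i ∘ β = mT` on `bTri`: off the two intervals `|T i| = 1`, on the three connected pieces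
`[a + u, b - v]`, and `[b + v, 1]` with the two legs and `[0, a - u]`, it is constant. No interlacing for equal colours: `T i` is constant on `B j`. `model_pat`, `uniq_pat` from the model to `F`.
`parA`: index the walls by the finite subtype of pairs with `w.2 ∈ L w.1`, `bx_chart`. About 400 lines. -/

open Set Metric Filter Topology Function BEv
open scoped NNReal

noncomputable section
namespace BEp

variable {n m : ℕ}

theorem Lab.tame {κ ι : Type} {N : κ → Set (Rn 3)} {f : κ → Rn 3 → ℝ → Rn 3} {g : Rn 2 → Rn 3}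
    {𝒥 : κ → Set (ℝ × ℝ)} (hJ : Ivs (⋃ w, 𝒥 w)) {I : Set ι} {l r : ι → ℝ × ℝ} {e : ι → ℝ} {w : ι → κ}
    (h : Lab N f g 𝒥 I l r e w) : Tame N f g 𝒥 := by
  intro p hp v hv
  obtain ⟨i, hi, rfl, hm⟩ := h.cov p hp v hv
  obtain ⟨m1, m2, -, m3⟩ := h.mem i hi
  obtain ⟨j, hj, k, σ, h1, h2, h3⟩ := mB_tame (hJ.pos _ (mem_iUnion.2 ⟨_, m1⟩)).1
    (hJ.pos _ (mem_iUnion.2 ⟨_, m2⟩)).1 m3 hm
  refine ⟨j, by rcases hj with rfl | rfl <;> assumption, k, σ, h1, h2, ?_⟩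
  rw [← h3]
  exact (h.band i hi p hm).2

theorem epr_ball {a b : ℝ} (ha : |a| ≤ 1) (hb : |b| ≤ 1) :
    (![a, b] : Rn 2) ∈ closedBall (0 : Rn 2) 1 := by
  rw [mem_closedBall_zero_iff, pi_norm_le_iff_of_nonneg zero_le_one, Fin.forall_fin_two]
  exact ⟨ha, hb⟩

theorem epr_abs {p : Rn 2} (hp : p ∈ closedBall (0 : Rn 2) 1) (k : Fin 2) : |p k| ≤ 1 :=
  (norm_le_pi_norm p k).trans (mem_closedBall_zero_iff.1 hp)

theorem epr_eta (p : Rn 2) : (![p 0, p 1] : Rn 2) = p := by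
  ext k
  fin_cases k <;> rfl

theorem epr_sg {a : ℝ} (h : a = 1 ∨ a = -1) : |a| = 1 := by
  rcases h with rfl | rfl <;> simp

theorem epr_cst {X : Type} [TopologicalSpace X] {S : Set X} (hS : IsPreconnected S) {h : X → ℝ}
    (hc : Continuous h) (h1 : ∀ x ∈ S, |h x| = 1) {x y : X} (hx : x ∈ S) (hy : y ∈ S) :
    h x = h y :=
  hS.constant_of_mapsTo (T := {1, -1}) (toFinite _).isDiscrete hc.continuousOn
    (fun z hz => (abs_eq zero_le_one).1 (h1 z hz)) hx hy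

theorem epr_diag {s : ℝ} (h0 : 0 ≤ s) (h1 : s ≤ 1) : (![s, s] : Rn 2) ∈ bTri :=
  ⟨⟨h0, le_rfl, h1⟩, Or.inr (Or.inl rfl)⟩

theorem epr_c1 {c : ℝ} (h : c ≤ -1) : clamp c 1 = -1 := by
  rw [clamp, min_eq_left (by linarith), max_eq_left h]

theorem epr_c2 {c : ℝ} (h : 1 ≤ c) : clamp c 1 = 1 := by
  rw [clamp, min_eq_right h, max_eq_right (by norm_num)]

theorem epr_c3 {c : ℝ} (h : -1 ≤ c) (h' : c ≤ 1) : clamp c 1 = c := by
  rw [clamp, min_eq_left h', max_eq_right h]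

theorem epr_lo {l r : ℝ × ℝ} (hl : 0 < l.2) (hr : 0 < r.2) (e : ℝ) {p : Rn 2}
    (h : p 0 ≤ l.1 - l.2 ∨ r.1 + r.2 ≤ p 1) : mT l r e p = -e := by
  rw [mT, epr_c1, mul_neg_one]
  rcases h with h | h
  · exact min_le_of_left_le ((div_le_iff₀ hl).2 (by linarith))
  · exact min_le_of_right_le ((div_le_iff₀ hr).2 (by linarith))

theorem epr_hi {l r : ℝ × ℝ} (hl : 0 < l.2) (hr : 0 < r.2) (e : ℝ) {p : Rn 2}
    (h : l.1 + l.2 ≤ p 0) (h' : p 1 ≤ r.1 - r.2) : mT l r e p = e := by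
  rw [mT, epr_c2, mul_one]
  exact le_min ((le_div_iff₀ hl).2 (by linarith)) ((le_div_iff₀ hr).2 (by linarith))

theorem epr_par {j : ℝ × ℝ} (hj : 0 < j.2) {s : ℝ} (h : |s - j.1| ≤ j.2) :
    (s - j.1) / j.2 ∈ Icc (-1 : ℝ) 1 ∧ j.1 + j.2 * ((s - j.1) / j.2) = s := by
  refine ⟨abs_le.1 ?_, by field_simp; ring⟩
  rwa [abs_div, abs_of_pos hj, div_le_one hj]

/-- The band function on the boundary of the triangle. -/
theorem epr_bd {l r : ℝ × ℝ} (hl : 0 < l.2 ∧ 0 < l.1 - l.2) (hr : 0 < r.2 ∧ r.1 + r.2 < 1)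
    (hlr : l.1 + l.2 < r.1 - r.2) {e e' : ℝ} (he : e = 1 ∨ e = -1) (he' : e' = 1 ∨ e' = -1)
    {h : Rn 2 → ℝ} (hc : Continuous h)
    (h1 : ∀ t ∈ Icc (-1 : ℝ) 1, h ![l.1 + l.2 * t, l.1 + l.2 * t] = e * t)
    (h2 : ∀ t ∈ Icc (-1 : ℝ) 1, h ![r.1 + r.2 * t, r.1 + r.2 * t] = e' * t)
    (h3 : ∀ p ∈ bTri, p ∉ mB l r → |h p| = 1) {p : Rn 2} (hp : p ∈ bTri) : h p = mT l r e p := by
  obtain ⟨l1, l2⟩ := hl
  obtain ⟨r1, r2⟩ := hr
  have dl : ∀ s, |s - l.1| ≤ l.2 → h ![s, s] = e * ((s - l.1) / l.2) := fun s hs => by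
    have := h1 _ (epr_par l1 hs).1
    rwa [(epr_par l1 hs).2] at this
  have dr : ∀ s, |s - r.1| ≤ r.2 → h ![s, s] = e' * ((s - r.1) / r.2) := fun s hs => by
    have := h2 _ (epr_par r1 hs).1
    rwa [(epr_par r1 hs).2] at this
  have d1 : ∀ s, 0 ≤ s → s ≤ 1 → l.2 ≤ |s - l.1| → r.2 ≤ |s - r.1| → |h ![s, s]| = 1 := by
    intro s s0 s1 a b
    by_cases c : |s - l.1| ≤ l.2
    · rw [dl s c, abs_mul, epr_sg he, abs_div, c.antisymm a, abs_of_pos l1, div_self l1.ne', mul_one]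
    by_cases d : |s - r.1| ≤ r.2
    · rw [dr s d, abs_mul, epr_sg he', abs_div, d.antisymm b, abs_of_pos r1, div_self r1.ne',
        mul_one]
    refine h3 _ (epr_diag s0 s1) fun k => ?_
    exact ((mB_bd ⟨l1, l2⟩ ⟨r1, r2⟩ hlr (epr_diag s0 s1)).1 k).2.elim c d
  have cd : Continuous fun s : ℝ => h ![s, s] := hc.comp (by fun_prop)
  have v1 := h1 1 ⟨by norm_num, le_rfl⟩
  have v2 := h1 (-1) ⟨le_rfl, by norm_num⟩
  have v3 := h2 1 ⟨by norm_num, le_rfl⟩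
  have v4 := h2 (-1) ⟨le_rfl, by norm_num⟩
  simp only [mul_one, mul_neg, ← sub_eq_add_neg] at v1 v2 v3 v4
  have dm : ∀ s ∈ Icc (l.1 + l.2) (r.1 - r.2), h ![s, s] = e := fun s hs =>
    (epr_cst isPreconnected_Icc cd (fun u hu => d1 u (by linarith [hu.1]) (by linarith [hu.2])
      (le_abs.2 (Or.inl (by linarith [hu.1]))) (le_abs.2 (Or.inr (by linarith [hu.2])))) hs
      (left_mem_Icc.2 hlr.le)).trans v1
  have ee : e' = -e := by linarith [dm _ (right_mem_Icc.2 hlr.le)]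
  have da : ∀ s ∈ Icc 0 (l.1 - l.2), h ![s, s] = -e := fun s hs =>
    (epr_cst isPreconnected_Icc cd (fun u hu => d1 u hu.1 (by linarith [hu.2])
      (le_abs.2 (Or.inr (by linarith [hu.2]))) (le_abs.2 (Or.inr (by linarith [hu.2])))) hs
      (right_mem_Icc.2 l2.le)).trans v2
  have db : ∀ s ∈ Icc (r.1 + r.2) 1, h ![s, s] = -e := fun s hs =>
    (epr_cst isPreconnected_Icc cd (fun u hu => d1 u (by linarith [hu.1]) hu.2
      (le_abs.2 (Or.inl (by linarith [hu.1]))) (le_abs.2 (Or.inl (by linarith [hu.1])))) hs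
      (left_mem_Icc.2 r2.le)).trans (v3.trans ee)
  have lg : ∀ q ∈ bTri, q 0 = 0 ∨ q 1 = 1 → |h q| = 1 := fun q hq k => h3 q hq fun c => by
    obtain ⟨c1, c2⟩ := (mB_bd ⟨l1, l2⟩ ⟨r1, r2⟩ hlr hq).1 c
    rcases k with k | k <;> rcases c2 with c2 | c2 <;> rw [abs_le] at c2 <;>
      linarith [c2.1, c2.2]
  obtain ⟨⟨t1, t2, t3⟩, k | k | k⟩ := hp
  · rw [epr_lo l1 r1 e (Or.inl (by linarith)), ← epr_eta p, k]
    refine (epr_cst (h := fun u : ℝ => h ![0, u]) (isPreconnected_Icc (a := 0) (b := 1))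
      (hc.comp (by fun_prop)) (fun u hu => lg _ ⟨⟨le_rfl, hu.1, hu.2⟩, Or.inl rfl⟩ (Or.inl rfl))
      ⟨t1.trans t2, t3⟩ (left_mem_Icc.2 zero_le_one)).trans (da 0 (left_mem_Icc.2 l2.le))
  · have ep : p = ![p 0, p 0] := by rw [← epr_eta p]; simp [k]
    rcases le_total (p 0) (l.1 - l.2) with a | a
    · rw [epr_lo l1 r1 e (Or.inl a), ep]
      exact da _ ⟨t1, a⟩
    rcases le_total (p 0) (l.1 + l.2) with b | b
    · have c : |p 0 - l.1| ≤ l.2 := abs_le.2 ⟨by linarith, by linarith⟩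
      have d := (epr_par l1 c).1
      rw [mT, min_eq_left (d.2.trans ((le_div_iff₀ r1).2 (by linarith))), epr_c3 d.1 d.2]
      exact (congrArg h ep).trans (dl _ c)
    rcases le_total (p 0) (r.1 - r.2) with c | c
    · rw [epr_hi l1 r1 e b (k ▸ c), ep]
      exact dm _ ⟨b, c⟩
    rcases le_total (p 0) (r.1 + r.2) with d | d
    · have c' : |p 0 - r.1| ≤ r.2 := abs_le.2 ⟨by linarith, by linarith⟩
      have d' := (epr_par r1 c').1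
      have e1 : (r.1 - p 1) / r.2 = -((p 0 - r.1) / r.2) := by rw [← k]; ring
      rw [mT, e1, min_eq_right (le_trans (b := 1) (by linarith [d'.1])
        ((le_div_iff₀ l1).2 (by linarith))),
        epr_c3 (by linarith [d'.2]) (by linarith [d'.1])]
      rw [(congrArg h ep).trans (dr _ c'), ee]
      ring
    · rw [epr_lo l1 r1 e (Or.inr (k ▸ d)), ep]
      exact db _ ⟨d, t2.trans t3⟩
  · rw [epr_lo l1 r1 e (Or.inr (by linarith)), ← epr_eta p, k]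
    refine (epr_cst (h := fun u : ℝ => h ![u, 1]) (isPreconnected_Icc (a := 0) (b := 1))
      (hc.comp (by fun_prop))
      (fun u hu => lg _ ⟨⟨hu.1, hu.2, le_rfl⟩, Or.inr (Or.inr rfl)⟩ (Or.inr rfl))
      ⟨t1, t2.trans t3⟩ (right_mem_Icc.2 zero_le_one)).trans (db 1 (right_mem_Icc.2 r2.le))

theorem epr_ord {𝒥 : Set (ℝ × ℝ)} (hJ : Ivs 𝒥) {j k : ℝ × ℝ} (hj : j ∈ 𝒥) (hk : k ∈ 𝒥)
    (h : j.1 < k.1) : j.1 + j.2 < k.1 - k.2 :=
  (hJ.dis j hj k hk fun e => h.ne (e ▸ rfl)).resolve_right fun c => by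
    linarith [(hJ.pos j hj).1, (hJ.pos k hk).1]

theorem epr_mem {𝒥 : Set (ℝ × ℝ)} (hJ : Ivs 𝒥) {j : ℝ × ℝ} (hj : j ∈ 𝒥) {t : ℝ}
    (ht : t ∈ Icc (-1 : ℝ) 1) : (![j.1 + j.2 * t, j.1 + j.2 * t] : Rn 2) ∈ bTri := by
  obtain ⟨a, b, c⟩ := hJ.pos j hj
  exact epr_diag (by nlinarith [ht.1]) (by nlinarith [ht.2])

theorem epr_main {κ ι : Type} {N : κ → Set (Rn 3)} {f : κ → Rn 3 → ℝ → Rn 3} {F J : Set (Rn 3)}
    {I : Set ι} {col : ι → Bool} {σ : ι → Rn 2 → Rn 3} {T : ι → Rn 3 → ℝ} {w : ι → κ}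
    (hI : I.Finite) (hP : Pat F J I col σ T)
    (hσ : ∀ i ∈ I, ∀ p ∈ closedBall (0 : Rn 2) 1, σ i p ∈ N (w i) ∧
      ∀ t : ℝ, f (w i) (σ i p) t = σ i ![p 0, t])
    (hc : ∀ v, ∀ x ∈ F, x ∈ N v → ∃ i ∈ I, w i = v ∧ x ∈ σ i '' closedBall 0 1)
    {β : Rn 2 → Rn 3} (hβ : TP β) (hb : BijOn β bTri J)
    (hl : ∀ p ∈ bTri, p 0 = 0 ∨ p 1 = 1 → ∀ v, β p ∉ N v) {𝒥 : κ → Set (ℝ × ℝ)}
    (hJ : Ivs (⋃ w, 𝒥 w)) (ht : TameC N f (fun s => β ![s, s]) 𝒥) :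
    ∃ g, TP g ∧ BijOn g Tri F ∧ EqOn g β bTri ∧ ∃ l r e, Lab N f g 𝒥 I l r e w := by
  have z0 : |(0 : ℝ)| ≤ 1 := by simp
  have i0 : (0 : ℝ) ∈ Icc (-1 : ℝ) 1 := ⟨by norm_num, by norm_num⟩
  have en : ∀ i ∈ I, ∀ a : ℝ, a = 1 ∨ a = -1 → ∃ j ∈ 𝒥 (w i), ∃ τ : ℝ, (τ = 1 ∨ τ = -1) ∧
      ∀ t ∈ Icc (-1 : ℝ) 1, β ![j.1 + j.2 * t, j.1 + j.2 * t] = σ i ![a, τ * t] := by
    intro i hi a ha
    have q := epr_ball (epr_sg ha).le z0
    obtain ⟨p, hp, e⟩ := hb.surjOn ((hP.bd i hi _ q).2 (epr_sg ha))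
    have k := (hσ i hi _ q).1
    have k1 : p 0 = p 1 := by
      rcases hp.2 with c | c | c
      · exact (hl p hp (Or.inl c) _ (e ▸ k)).elim
      · exact c
      · exact (hl p hp (Or.inr c) _ (e ▸ k)).elim
    have ep : ![p 0, p 0] = p := by rw [← epr_eta p]; simp [k1]
    obtain ⟨j, hj, τ, h1, -, h2⟩ := ht (p 0) ⟨hp.1.1, hp.1.2.1.trans hp.1.2.2⟩ (w i)
      (by simp only [ep, e]; exact k)
    refine ⟨j, hj, τ, h1, fun t h => (h2 t h).trans ?_⟩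
    simp only [ep, e]
    exact (hσ i hi _ q).2 _
  have e2 : ∀ i, ∃ (l r : ℝ × ℝ) (e e' a : ℝ), i ∈ I → l ∈ 𝒥 (w i) ∧ r ∈ 𝒥 (w i) ∧ l.1 < r.1 ∧
      (e = 1 ∨ e = -1) ∧ (e' = 1 ∨ e' = -1) ∧ (a = 1 ∨ a = -1) ∧
      (∀ t ∈ Icc (-1 : ℝ) 1, β ![l.1 + l.2 * t, l.1 + l.2 * t] = σ i ![a, e * t]) ∧
      ∀ t ∈ Icc (-1 : ℝ) 1, β ![r.1 + r.2 * t, r.1 + r.2 * t] = σ i ![-a, e' * t] := by
    intro i
    by_cases hi : i ∈ I
    swap
    · exact ⟨0, 0, 0, 0, 0, fun h => (hi h).elim⟩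
    obtain ⟨j, hj, τ, h1, h2⟩ := en i hi 1 (Or.inl rfl)
    obtain ⟨k, hk, τ', h3, h4⟩ := en i hi (-1) (Or.inr rfl)
    rcases lt_trichotomy j.1 k.1 with c | c | c
    · exact ⟨j, k, τ, τ', 1, fun _ => ⟨hj, hk, c, h1, h3, Or.inl rfl, h2, h4⟩⟩
    · have a1 := h2 0 i0
      have a2 := h4 0 i0
      simp only [mul_zero, add_zero] at a1 a2
      rw [c, a2] at a1
      have := congrFun (hP.inj i hi (epr_ball (by simp) z0) (epr_ball (by simp) z0) a1) 0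
      norm_num at this
    · exact ⟨k, j, τ', τ, -1, fun _ => ⟨hk, hj, c, h3, h1, Or.inr rfl, h4, by rwa [neg_neg]⟩⟩
  choose l r e e' a H using e2
  have ml : ∀ i ∈ I, l i ∈ ⋃ w, 𝒥 w := fun i hi => mem_iUnion.2 ⟨_, (H i hi).1⟩
  have mr : ∀ i ∈ I, r i ∈ ⋃ w, 𝒥 w := fun i hi => mem_iUnion.2 ⟨_, (H i hi).2.1⟩
  have pl : ∀ i ∈ I, 0 < (l i).2 ∧ 0 < (l i).1 - (l i).2 := fun i hi =>
    ⟨(hJ.pos _ (ml i hi)).1, (hJ.pos _ (ml i hi)).2.1⟩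
  have pr : ∀ i ∈ I, 0 < (r i).2 ∧ (r i).1 + (r i).2 < 1 := fun i hi =>
    ⟨(hJ.pos _ (mr i hi)).1, (hJ.pos _ (mr i hi)).2.2⟩
  have lr : ∀ i ∈ I, (l i).1 + (l i).2 < (r i).1 - (r i).2 := fun i hi =>
    epr_ord hJ (ml i hi) (mr i hi) (H i hi).2.2.1
  have bl : ∀ {a e t : ℝ}, |a| = 1 → e = 1 ∨ e = -1 → t ∈ Icc (-1 : ℝ) 1 →
      (![a, e * t] : Rn 2) ∈ closedBall (0 : Rn 2) 1 := fun ha he ht =>
    epr_ball ha.le (by rw [abs_mul, epr_sg he, one_mul]; exact abs_le.2 ht)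
  have na : ∀ i ∈ I, |a i| = 1 ∧ |-a i| = 1 := fun i hi =>
    ⟨epr_sg (H i hi).2.2.2.2.2.1, (abs_neg _).trans (epr_sg (H i hi).2.2.2.2.2.1)⟩
  have mb : ∀ i ∈ I, ∀ p ∈ bTri, (p ∈ mB (l i) (r i) ↔ β p ∈ σ i '' closedBall 0 1) := by
    intro i hi p hp
    obtain ⟨-, -, -, h1, h2, h3, h4, h5⟩ := H i hi
    rw [mB_bd (pl i hi) (pr i hi) (lr i hi) hp]
    constructor
    · rintro ⟨k, c⟩
      have ep : p = ![p 0, p 0] := by rw [← epr_eta p]; simp [k]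
      rcases c with c | c
      · have := h4 _ (epr_par (pl i hi).1 c).1
        rw [(epr_par (pl i hi).1 c).2, ← ep] at this
        exact ⟨_, bl (na i hi).1 h1 (epr_par (pl i hi).1 c).1, this.symm⟩
      · have := h5 _ (epr_par (pr i hi).1 c).1
        rw [(epr_par (pr i hi).1 c).2, ← ep] at this
        exact ⟨_, bl (na i hi).2 h2 (epr_par (pr i hi).1 c).1, this.symm⟩
    · rintro ⟨q, hq, k⟩
      have k1 := (hP.bd i hi q hq).1 (k ▸ hb.mapsTo hp)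
      have key : ∀ {j : ℝ × ℝ} {b e : ℝ}, j ∈ ⋃ w, 𝒥 w → e = 1 ∨ e = -1 → q 0 = b →
          (∀ t ∈ Icc (-1 : ℝ) 1, β ![j.1 + j.2 * t, j.1 + j.2 * t] = σ i ![b, e * t]) →
          p 0 = p 1 ∧ |p 0 - j.1| ≤ j.2 := by
        intro j b e hj he hq0 h
        have t1 : |e * q 1| ≤ 1 := by rw [abs_mul, epr_sg he, one_mul]; exact epr_abs hq 1
        have t2 := h _ (abs_le.1 t1)
        have t3 : e * (e * q 1) = q 1 := by rcases he with rfl | rfl <;> ring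
        rw [t3, ← hq0, epr_eta, k] at t2
        rw [← hb.injOn (epr_mem hJ hj (abs_le.1 t1)) hp t2]
        refine ⟨rfl, ?_⟩
        have p2 := (hJ.pos j hj).1
        change |j.1 + j.2 * (e * q 1) - j.1| ≤ j.2
        rw [add_sub_cancel_left, abs_mul, abs_of_pos p2]
        exact mul_le_of_le_one_right p2.le t1
      rcases abs_eq_abs.1 (k1.trans (na i hi).1.symm) with c | c
      · exact (key (ml i hi) h1 c h4).imp_right Or.inl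
      · exact (key (mr i hi) h2 c h5).imp_right Or.inr
  have mt : ∀ i ∈ I, ∀ p ∈ bTri, T i (β p) = mT (l i) (r i) (e i) p := by
    intro i hi p hp
    obtain ⟨-, -, -, h1, h2, h3, h4, h5⟩ := H i hi
    refine epr_bd (h := fun p => T i (β p)) (pl i hi) (pr i hi) (lr i hi) h1 h2
      ((hP.tT i hi).continuous.comp hβ.continuous) (fun t ht => ?_) (fun t ht => ?_)
      (fun q hq k => hP.off i hi _ (hP.dsc.sub (hb.mapsTo hq)) fun c => k ((mb i hi q hq).2 c)) hp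
    · rw [h4 t ht, hP.lev i hi _ (bl (na i hi).1 h1 ht)]
      rfl
    · rw [h5 t ht, hP.lev i hi _ (bl (na i hi).2 h2 ht)]
      rfl
  have cl : ∀ i ∈ I, β ![(l i).1, (l i).1] = σ i ![a i, 0] ∧
      β ![(r i).1, (r i).1] = σ i ![-a i, 0] := fun i hi => by
    have a1 := (H i hi).2.2.2.2.2.2.1 0 i0
    have a2 := (H i hi).2.2.2.2.2.2.2 0 i0
    simp only [mul_zero, add_zero] at a1 a2
    exact ⟨a1, a2⟩
  have df : ∀ i ∈ I, ∀ j ∈ I, i ≠ j → ∀ b c : ℝ, |b| = 1 → |c| = 1 →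
      σ i ![b, 0] ≠ σ j ![c, 0] := by
    intro i hi j hj ij b c hb hc k
    have q := epr_ball hb.le z0
    have m : σ i ![b, 0] ∈ σ j '' closedBall 0 1 := ⟨_, epr_ball hc.le z0, k.symm⟩
    by_cases h : col i = col j
    · exact disjoint_left.1 (hP.dis i hi j hj ij h) ⟨_, q, rfl⟩ m
    rcases hP.crs i hi j hj h with d | ⟨x, y, φ, d1, -, d2, -, d3⟩
    · exact disjoint_left.1 d ⟨_, q, rfl⟩ m
    · have d4 : b ∈ Icc x y := (d3 _ q).1.1 m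
      rcases (abs_eq zero_le_one).1 hb with rfl | rfl <;> linarith [d4.1, d4.2]
  have ne : ∀ i ∈ I, ∀ j ∈ I, i ≠ j → l i ≠ l j ∧ l i ≠ r j ∧ r i ≠ r j := fun i hi j hj ij =>
    ⟨fun k => df i hi j hj ij _ _ (na i hi).1 (na j hj).1
        ((cl i hi).1.symm.trans (k ▸ (cl j hj).1)),
      fun k => df i hi j hj ij _ _ (na i hi).1 (na j hj).2
        ((cl i hi).1.symm.trans (k ▸ (cl j hj).2)),
      fun k => df i hi j hj ij _ _ (na i hi).2 (na j hj).2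
        ((cl i hi).2.symm.trans (k ▸ (cl j hj).2))⟩
  obtain ⟨τ, hM, hτ⟩ := model_pat (col := col) hJ (l := l) (r := r) (e := e)
    (fun i hi => ⟨ml i hi, mr i hi, (H i hi).2.2.1, (H i hi).2.2.2.1⟩) ne (by
      rintro i hi j hj ij c ⟨c1, c2, c3⟩
      have d1 := epr_ord hJ (ml i hi) (ml j hj) c1
      have d2 := epr_ord hJ (ml j hj) (mr i hi) c2
      have d3 := epr_ord hJ (mr i hi) (mr j hj) c3
      have p1 := pl j hj
      have p2 := pr j hj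
      have p3 := lr j hj
      have k := epr_cst (h := fun q => T i (σ j q)) (convex_closedBall (0 : Rn 2) 1).isPreconnected
        ((hP.tT i hi).continuous.comp (hP.tp j hj).continuous)
        (fun q hq => hP.off i hi _ (hP.sub j hj ⟨q, hq, rfl⟩)
          (disjoint_right.1 (hP.dis i hi j hj ij c) ⟨q, hq, rfl⟩))
        (epr_ball (na j hj).1.le z0) (epr_ball (na j hj).2.le z0)
      simp only [← (cl j hj).1, ← (cl j hj).2] at k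
      rw [mt i hi _ (epr_diag (by linarith) (by linarith)),
        mt i hi _ (epr_diag (by linarith) (by linarith)),
        epr_hi (pl i hi).1 (pr i hi).1 _ (show _ ≤ (l j).1 by linarith)
          (show (l j).1 ≤ _ by linarith),
        epr_lo (pl i hi).1 (pr i hi).1 _ (Or.inr (show _ ≤ (r j).1 by linarith))] at k
      rcases (H i hi).2.2.2.1 with c | c <;> linarith)
  obtain ⟨g, g1, g2, g3, g4⟩ := uniq_pat hI hM hP hβ hb fun i hi p hp =>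
    ⟨mt i hi p hp, hτ i hi ▸ mb i hi p hp⟩
  refine ⟨g, g1, g2, g3, l, r, e, fun i hi => ⟨(H i hi).1, (H i hi).2.1, (H i hi).2.2.1,
    (H i hi).2.2.2.1⟩, ne, fun i hi p hp => ?_, fun p hp v hv => ?_⟩
  · obtain ⟨k1, k2⟩ := g4 i hi p hp.1
    obtain ⟨q, hq, k⟩ := k2.1 (hτ i hi ▸ hp)
    rw [← k1, ← k, hP.lev i hi q hq, (hσ i hi q hq).2, epr_eta]
    exact ⟨(hσ i hi q hq).1, rfl⟩
  · obtain ⟨i, hi, k1, k2⟩ := hc v _ (g2.mapsTo hp) hv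
    exact ⟨i, hi, k1, hτ i hi ▸ (g4 i hi p hp).2.2 k2⟩

theorem epar {κ : Type} [Finite κ] {θ : κ → Rn 3 → Rn 3} {W : κ → Set (Rn 2)} {col : κ → Bool}
    {F J : Set (Rn 3)} (hF : PDsc F J) (hθ : ∀ w, LH (θ w)) (hW : ∀ w, IsOpen (W w))
    (h1 : ∀ w, Iw (cN (θ w) (W w)) (cf (θ w)) F) (h2 : ∀ w, Iw (cN (θ w) (W w)) (cf (θ w)) J)
    (hc : ∀ w, IsClosed (F ∩ cN (θ w) (W w)))
    (hd : ∀ w w', w ≠ w' → col w = col w' → Disjoint (F ∩ cN (θ w) (W w)) (cN (θ w') (W w')))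
    (hx : ∀ w w', col w ≠ col w' → ∀ x ∈ F, x ∈ cN (θ w) (W w) → x ∈ cN (θ w') (W w') → x ∉ J ∧
      ∀ t ∈ Icc (-1 : ℝ) 1, cf (θ w) x t ∈ cN (θ w') (W w') ∧
        invFun (θ w') (cf (θ w) x t) 2 = invFun (θ w') x 2)
    (hC : NoC (fun w => cN (θ w) (W w)) (fun w => cf (θ w)) F)
    (hB : NoB (fun w => cN (θ w) (W w)) (fun w => cf (θ w)) col F)
    {β : Rn 2 → Rn 3} (hβ : TP β) (hb : BijOn β bTri J)
    (hl : ∀ p ∈ bTri, p 0 = 0 ∨ p 1 = 1 → ∀ w, β p ∉ cN (θ w) (W w)) {𝒥 : κ → Set (ℝ × ℝ)}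
    (hJ : Ivs (⋃ w, 𝒥 w))
    (ht : TameC (fun w => cN (θ w) (W w)) (fun w => cf (θ w)) (fun s => β ![s, s]) 𝒥) :
    ∃ g, TP g ∧ BijOn g Tri F ∧ EqOn g β bTri ∧ ∃ (I : Set (κ × Set (Rn 3))) (l r : _) (e : _),
      I.Finite ∧ Lab (fun w => cN (θ w) (W w)) (fun w => cf (θ w)) g 𝒥 I l r e Prod.fst := by
  obtain ⟨I, σ, T, hI, hP, hσ, hv⟩ := real_pat hF hθ hW h1 h2 hc hd hx hC hB
  obtain ⟨g, g1, g2, g3, l, r, e, h⟩ := epr_main (N := fun w => cN (θ w) (W w))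
    (f := fun w => cf (θ w)) (w := Prod.fst) hI hP hσ hv hβ hb hl hJ ht
  exact ⟨g, g1, g2, g3, I, l, r, e, hI, h⟩

theorem parA {L : Fin 3 → Set ℝ} {lo hi : Rn 3} (hB : EBx L lo hi) {F J : Set (Rn 3)}
    (hF : PDsc F J) (h1 : HP L lo hi F) (h2 : HP L lo hi J) (h3 : Disjoint J (bT L lo hi))
    (hs : F ⊆ bO lo hi) (hC : NoC (bN L lo hi) bf F) (hN : NoB (bN L lo hi) bf bcol F)
    {β : Rn 2 → Rn 3} (hβ : TP β) (hb : BijOn β bTri J)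
    (hl : ∀ p ∈ bTri, p 0 = 0 ∨ p 1 = 1 → ∀ w, β p ∉ bN L lo hi w)
    {𝒥 : Fin 3 × ℝ → Set (ℝ × ℝ)} (hJ : Ivs (⋃ w, 𝒥 w))
    (ht : TameC (bN L lo hi) bf (fun s => β ![s, s]) 𝒥) :
    ∃ g, TP g ∧ BijOn g Tri F ∧ EqOn g β bTri ∧ ∃ (ι : Type) (I : Set ι) (l r : _) (e : _) (w : _),
      I.Finite ∧ Lab (bN L lo hi) bf g 𝒥 I l r e w := by
  have fin : {w : Fin 3 × ℝ | w.2 ∈ L w.1}.Finite :=
    (finite_univ.prod (finite_iUnion hB.fin)).subset fun w hw => ⟨trivial, mem_iUnion.2 ⟨_, hw⟩⟩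
  let κ := {w : Fin 3 × ℝ // w.2 ∈ L w.1}
  have : Finite κ := fin.to_subtype
  choose θ W a1 a2 a3 a4 a5 using fun w : κ => bx_chart hB w.2
  have n2 : ∀ w : κ, w.1.1 = 0 ∨ w.1.1 = 1 := by
    rintro ⟨⟨i, a⟩, hw⟩
    fin_cases i
    · exact Or.inl rfl
    · exact Or.inr rfl
    · exact (notMem_empty a (hB.two ▸ hw)).elim
  have cl : ∀ w w' : κ, bcol w.1 = bcol w'.1 ↔ w.1.1 = w'.1.1 := fun w w' => by
    rcases n2 w with c | c <;> rcases n2 w' with d | d <;> simp [bcol, c, d]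
  have eN : (fun w : κ => cN (θ w) (W w)) = fun w => bN L lo hi w.1 := funext a3
  have ef : (fun w : κ => cf (θ w)) = fun w => bf w.1 := funext a4
  have sb : ⋃ w : κ, 𝒥 w.1 ⊆ ⋃ w, 𝒥 w := iUnion_subset fun w => subset_iUnion 𝒥 w.1
  obtain ⟨g, g1, g2, g3, I, l, r, e, hI, h⟩ := epar (θ := θ) (W := W) (col := fun w => bcol w.1)
    (𝒥 := fun w => 𝒥 w.1) hF a1 a2 (fun w => by rw [a3, a4]; exact h1.wal _)
    (fun w => by rw [a3, a4]; exact h2.wal _)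
    (fun w => by
      have : F ∩ cN (θ w) (W w) = F ∩ {x | |x w.1.1 - w.1.2| ≤ 1} := by
        rw [a3]
        exact Set.ext fun x => and_congr_right fun hx => ⟨fun k => k.2.2, fun k => ⟨hs hx, w.2, k⟩⟩
      rw [this]
      exact hF.cpt.isClosed.inter (isClosed_le (by fun_prop) continuous_const))
    (fun w w' ne c => by
      rw [a3, a3]
      refine disjoint_left.2 fun x hx hx' => ?_
      have c1 := (cl w w').1 c
      have c2 := abs_le.1 hx.2.2.2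
      have c3 := abs_le.1 hx'.2.2
      rw [← c1] at c3
      rcases lt_trichotomy w.1.2 w'.1.2 with d | d | d
      · linarith [hB.gap _ _ w.2 _ (c1 ▸ w'.2) d, c2.2, c3.1]
      · exact ne (Subtype.ext (Prod.ext c1 d))
      · linarith [hB.gap _ _ (c1 ▸ w'.2) _ w.2 d, c2.1, c3.2])
    (fun w w' c x _ k k' => by
      rw [a3] at k k'
      have c1 : w.1.1 ≠ w'.1.1 := fun d => c ((cl w w').2 d)
      have tb : ∀ v v' : κ, v.1.1 = 0 → v'.1.1 = 1 → x ∈ bN L lo hi v.1 → x ∈ bN L lo hi v'.1 →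
          x ∈ bT L lo hi := fun v v' d d' q q' => by
        have q1 := q.2.2
        have q2 := q'.2.2
        rw [d] at q1
        rw [d'] at q2
        exact ⟨q.1, _, d ▸ v.2, _, d' ▸ v'.2, by linarith, by linarith, by linarith⟩
      refine ⟨fun hx => disjoint_left.1 h3 hx ?_, fun t ht => ?_⟩
      · rcases n2 w with d | d <;> rcases n2 w' with d' | d'
        · exact (c1 (d.trans d'.symm)).elim
        · exact tb w w' d d' k k'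
        · exact tb w' w d' d k' k
        · exact (c1 (d.trans d'.symm)).elim
      have u : bf w.1 x t w'.1.1 = x w'.1.1 := update_of_ne c1.symm _ _
      rw [a3, a4, a5, a5, u]
      refine ⟨⟨fun i => ?_, w'.2, u ▸ k'.2.2⟩, rfl⟩
      by_cases d : i = w.1.1
      · have q := hB.inn _ _ w.2
        rw [d, bf, update_self]
        exact ⟨by linarith [q.1, ht.1], by linarith [q.2, ht.2]⟩
      · rw [bf, update_of_ne d]
        exact k.1 i)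
    (by rw [eN, ef]; exact fun w => hC w.1) (by rw [eN, ef]; exact fun w w' => hN w.1 w'.1)
    hβ hb (fun p hp k w => by rw [a3]; exact hl p hp k _)
    ⟨hJ.fin.subset sb, fun j hj => hJ.pos j (sb hj), fun j hj k hk => hJ.dis j (sb hj) k (sb hk)⟩
    (by rw [eN, ef]; exact fun s hs w => ht s hs w.1)
  rw [eN, ef] at h
  refine ⟨g, g1, g2, g3, _, I, l, r, e, fun i => i.1.1, hI, h.mem, h.ne, h.band,
    fun p hp v hv => ?_⟩
  obtain ⟨i, hi, k1, k2⟩ := h.cov p hp ⟨v, hv.2.1⟩ hv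
  exact ⟨i, hi, congrArg Subtype.val k1, k2⟩

end BEp
end
end

-- merged part: Pool.Agent.Work.MP_f0515e_an.D3.EEd
section
/-! Reparametrisation of an edge. For a crossing `s ∈ Z` in the core of `w` the fibre through `γ s` is an arc in `A = γ '' Icc 0 1`, so it is `γ '' [a s, b s]` with `0 < a s < s < b s < 1`; these intervals are disjoint and ordered like `Z`;
every point of `A` in a wall lies on such a fibre. The wall coordinate `φ s u = invFun (θ w) (γ u) 2` is injective on `[a s, b s]` with end values `∓ 1`. `match1` (rescale `[0, 1]` to `[-1, 1]`) between the intervals of `j` with affine functions and these. About 250 lines. -/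

open Set Metric Filter Topology Function BEv
open scoped NNReal

noncomputable section
namespace BEp

variable {n m : ℕ}

theorem EEd_mk_inj {y y' : Rn 2} {t t' : ℝ} (h : mk3 y t = mk3 y' t') : y = y' ∧ t = t' :=
  ⟨by simpa using congrArg pj3 h, by simpa using congrFun h 2⟩

theorem EEd_cont (y : Rn 2) : Continuous fun t : ℝ => mk3 y t := by
  refine continuous_pi fun i => ?_
  fin_cases i
  · exact continuous_const
  · exact continuous_const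
  · exact continuous_id

/-- The preimage of a compact connected subset of an arc is an interval. -/
theorem EEd_ivl {γ : ℝ → Rn n} (hγ : Continuous γ) (hi : InjOn γ (Icc 0 1)) {K : Set (Rn n)}
    (h1 : IsConnected K) (h2 : IsCompact K) (h3 : K ⊆ γ '' Icc 0 1) :
    ∃ a b : ℝ, ∀ u, u ∈ Icc a b ↔ u ∈ Icc (0 : ℝ) 1 ∧ γ u ∈ K := by
  have e : IsClosedEmbedding ((Icc (0 : ℝ) 1).domRestrict γ) :=
    hγ.continuousOn.domRestrict.isClosedEmbedding (injOn_iff_injective.1 hi)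
  have e1 : (Icc (0 : ℝ) 1).domRestrict γ '' ((Icc (0 : ℝ) 1).domRestrict γ ⁻¹' K) = K :=
    image_preimage_eq_of_subset (by rwa [range_domRestrict])
  have c1 : IsPreconnected ((Icc (0 : ℝ) 1).domRestrict γ ⁻¹' K) :=
    e.isInducing.isPreconnected_image.1 (e1.symm ▸ h1.isPreconnected)
  have e2 : Subtype.val '' ((Icc (0 : ℝ) 1).domRestrict γ ⁻¹' K) = Icc (0 : ℝ) 1 ∩ γ ⁻¹' K := by
    ext u
    constructor
    · rintro ⟨v, hv, rfl⟩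
      exact ⟨v.2, hv⟩
    · rintro ⟨k1, k2⟩
      exact ⟨⟨u, k1⟩, k2, rfl⟩
  have c2 : IsConnected (Icc (0 : ℝ) 1 ∩ γ ⁻¹' K) := by
    refine ⟨?_, e2 ▸ c1.image _ continuous_subtype_val.continuousOn⟩
    obtain ⟨x, hx⟩ := h1.nonempty
    obtain ⟨u, hu, rfl⟩ := h3 hx
    exact ⟨u, hu, hx⟩
  have c3 : IsCompact (Icc (0 : ℝ) 1 ∩ γ ⁻¹' K) :=
    isCompact_Icc.inter_right (h2.isClosed.preimage hγ)
  exact ⟨_, _, fun u => by rw [← eq_Icc_of_connected_compact c2 c3]; rfl⟩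

/-- The interval of a fibre. -/
theorem EEd_fib {θ : Rn 3 → Rn 3} (hθ : LH θ) {γ : ℝ → Rn 3} (hγ : TP γ) (hi : InjOn γ (Icc 0 1))
    {y : Rn 2} (h : ∀ t : ℝ, |t| ≤ 1 → θ (mk3 y t) ∈ γ '' Icc 0 1)
    (h0 : ∀ t : ℝ, |t| ≤ 1 → γ 0 ≠ θ (mk3 y t) ∧ γ 1 ≠ θ (mk3 y t)) :
    ∃ (a b σ : ℝ) (φ : ℝ → ℝ), 0 < a ∧ a < b ∧ b < 1 ∧ (σ = 1 ∨ σ = -1) ∧ TP φ ∧
      InjOn φ (Icc a b) ∧ φ a = -σ ∧ φ b = σ ∧
      (∀ u ∈ Icc a b, |φ u| ≤ 1 ∧ γ u = θ (mk3 y (φ u))) ∧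
      ∀ u ∈ Icc (0 : ℝ) 1, ∀ t : ℝ, |t| ≤ 1 → γ u = θ (mk3 y t) → u ∈ Icc a b := by
  have hc : Continuous fun t : ℝ => θ (mk3 y t) := hθ.tp.continuous.comp (EEd_cont y)
  obtain ⟨a, b, hab⟩ := EEd_ivl hγ.continuous hi (K := (fun t : ℝ => θ (mk3 y t)) '' Icc (-1) 1)
    ((isConnected_Icc (by norm_num)).image _ hc.continuousOn) (isCompact_Icc.image hc)
    (by rintro _ ⟨t, ht, rfl⟩; exact h t (abs_le.2 ht))
  have tφ : TP fun u => invFun θ (γ u) 2 := (hθ.tpi.comp hγ).apply 2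
  have k1 : ∀ u t, γ u = θ (mk3 y t) → invFun θ (γ u) 2 = t := fun u t e => by
    rw [e, hθ.li, mk3_2]
  have k2 : ∀ u ∈ Icc a b, |invFun θ (γ u) 2| ≤ 1 ∧ γ u = θ (mk3 y (invFun θ (γ u) 2)) :=
    fun u hu => by
      obtain ⟨-, t, ht, e⟩ := (hab u).1 hu
      rw [k1 u t e.symm]
      exact ⟨abs_le.2 ht, e.symm⟩
  have k3 : ∀ u ∈ Icc (0 : ℝ) 1, ∀ t : ℝ, |t| ≤ 1 → γ u = θ (mk3 y t) → u ∈ Icc a b :=
    fun u hu t ht e => (hab u).2 ⟨hu, t, abs_le.1 ht, e.symm⟩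
  have k4 : InjOn (fun u => invFun θ (γ u) 2) (Icc a b) := fun u hu v hv e => by
    refine hi ((hab u).1 hu).1 ((hab v).1 hv).1 ?_
    rw [(k2 u hu).2, (k2 v hv).2]
    exact congrArg (fun t => θ (mk3 y t)) e
  have k5 : ∀ t : ℝ, |t| ≤ 1 → ∃ u ∈ Icc a b, invFun θ (γ u) 2 = t := fun t ht => by
    obtain ⟨u, hu, e⟩ := h t ht
    exact ⟨u, k3 u hu t ht e, k1 u t e⟩
  obtain ⟨p, hp, ep⟩ := k5 1 (by simp)
  obtain ⟨q, hq, eq⟩ := k5 (-1) (by simp)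
  have hle : a ≤ b := hp.1.trans hp.2
  have ha : a ∈ Icc a b := left_mem_Icc.2 hle
  have hb : b ∈ Icc a b := right_mem_Icc.2 hle
  have la := abs_le.1 (k2 a ha).1
  have lb := abs_le.1 (k2 b hb).1
  have h0a : 0 < a := lt_of_le_of_ne ((hab a).1 ha).1.1 fun e =>
    (h0 _ (k2 a ha).1).1 (e ▸ (k2 a ha).2)
  have hb1 : b < 1 := lt_of_le_of_ne ((hab b).1 hb).1.2 fun e =>
    (h0 _ (k2 b hb).1).2 (by rw [← (k2 b hb).2, e])
  have hlt : a < b := lt_of_le_of_ne hle fun e => by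
    have e1 : p = q := by
      subst e
      exact (le_antisymm hp.2 hp.1).trans (le_antisymm hq.2 hq.1).symm
    rw [e1, eq] at ep
    norm_num at ep
  rcases ContinuousOn.strictMonoOn_of_injOn_Icc' hle tφ.continuous.continuousOn k4 with hm | hm
  · refine ⟨a, b, 1, _, h0a, hlt, hb1, Or.inl rfl, tφ, k4, ?_, ?_, k2, k3⟩
    · have := hm.monotoneOn ha hq hq.1
      linarith [la.1]
    · have := hm.monotoneOn hp hb hp.2
      linarith [lb.2]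
  · refine ⟨a, b, -1, _, h0a, hlt, hb1, Or.inr rfl, tφ, k4, ?_, ?_, k2, k3⟩
    · have := hm.antitoneOn ha hp hp.1
      linarith [la.2]
    · have := hm.antitoneOn hq hb hq.2
      linarith [lb.1]

/-- Matching of intervals in `[0, 1]`. -/
theorem EEd_match {ι : Type} {M : Set ι} (hM : M.Finite) {a b a' b' : ι → ℝ} {φ φ' : ι → ℝ → ℝ}
    (h1 : ∀ j ∈ M, 0 < a j ∧ a j < b j ∧ b j < 1) (h1' : ∀ j ∈ M, 0 < a' j ∧ a' j < b' j ∧ b' j < 1)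
    (h2 : ∀ j ∈ M, ∀ k ∈ M, j ≠ k → (b j < a k ∧ b' j < a' k) ∨ (b k < a j ∧ b' k < a' j))
    (h3 : ∀ j ∈ M, TP (φ j) ∧ InjOn (φ j) (Icc (a j) (b j)))
    (h3' : ∀ j ∈ M, TP (φ' j) ∧ InjOn (φ' j) (Icc (a' j) (b' j)))
    (h4 : ∀ j ∈ M, φ' j (a' j) = φ j (a j) ∧ φ' j (b' j) = φ j (b j)) :
    ∃ ρ : ℝ → ℝ, TP ρ ∧ StrictMonoOn ρ (Icc 0 1) ∧ ρ '' Icc 0 1 = Icc 0 1 ∧
      ρ 0 = 0 ∧ ρ 1 = 1 ∧ ∀ j ∈ M, ρ (a j) = a' j ∧ ρ (b j) = b' j ∧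
        ∀ u ∈ Icc (a j) (b j), φ' j (ρ u) = φ j u := by
  have t1 : TP fun v : ℝ => (v + 1) / 2 := (TP.id'.add (TP.const 1)).div_const 2
  have t2 : TP fun v : ℝ => 2 * v - 1 := (TP.id'.const_mul 2).sub (TP.const 1)
  have e : ∀ x : ℝ, (2 * x - 1 + 1) / 2 = x := fun x => by ring
  have inj : ∀ {p q : ℝ} {ψ : ℝ → ℝ}, InjOn ψ (Icc p q) →
      InjOn (fun v => ψ ((v + 1) / 2)) (Icc (2 * p - 1) (2 * q - 1)) := fun h u hu v hv k => by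
    have := h ⟨by linarith [hu.1], by linarith [hu.2]⟩ ⟨by linarith [hv.1], by linarith [hv.2]⟩ k
    linarith
  obtain ⟨ρ, r1, r2, r3, r4, r5, r6⟩ := match1 hM (a := fun j => 2 * a j - 1)
    (b := fun j => 2 * b j - 1) (a' := fun j => 2 * a' j - 1) (b' := fun j => 2 * b' j - 1)
    (φ := fun j v => φ j ((v + 1) / 2)) (φ' := fun j v => φ' j ((v + 1) / 2))
    (fun j hj => by obtain ⟨k1, k2, k3⟩ := h1 j hj; exact ⟨by linarith, by linarith, by linarith⟩)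
    (fun j hj => by obtain ⟨k1, k2, k3⟩ := h1' j hj; exact ⟨by linarith, by linarith, by linarith⟩)
    (fun j hj k hk ne => (h2 j hj k hk ne).imp (fun q => ⟨by linarith [q.1], by linarith [q.2]⟩)
      fun q => ⟨by linarith [q.1], by linarith [q.2]⟩)
    (fun j hj => ⟨(h3 j hj).1.comp t1, inj (h3 j hj).2⟩)
    (fun j hj => ⟨(h3' j hj).1.comp t1, inj (h3' j hj).2⟩)
    (fun j hj => by simpa only [e] using h4 j hj)
  have m : ∀ u ∈ Icc (0 : ℝ) 1, 2 * u - 1 ∈ Icc (-1 : ℝ) 1 := fun u hu =>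
    ⟨by linarith [hu.1], by linarith [hu.2]⟩
  refine ⟨fun u => (ρ (2 * u - 1) + 1) / 2, t1.comp (r1.comp t2), fun u hu v hv k => ?_, ?_, ?_, ?_,
    fun j hj => ⟨?_, ?_, fun u hu => ?_⟩⟩
  · have := r2 (m u hu) (m v hv) (by linarith)
    dsimp only
    linarith
  · refine subset_antisymm ?_ fun v hv => ?_
    · rintro _ ⟨u, hu, rfl⟩
      have : ρ (2 * u - 1) ∈ Icc (-1 : ℝ) 1 := r3 ▸ mem_image_of_mem ρ (m u hu)
      exact ⟨by linarith [this.1], by linarith [this.2]⟩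
    · obtain ⟨u, hu, k⟩ := r3.symm ▸ m v hv
      refine ⟨(u + 1) / 2, ⟨by linarith [hu.1], by linarith [hu.2]⟩, ?_⟩
      have e1 : 2 * ((u + 1) / 2) - 1 = u := by ring
      simp only [e1, k, e]
  · norm_num [r4]
  · norm_num [r5]
  · simp only [(r6 j hj).1, e]
  · simp only [(r6 j hj).2.1, e]
  · have := (r6 j hj).2.2 (2 * u - 1) ⟨by linarith [hu.1], by linarith [hu.2]⟩
    simpa only [e] using this

theorem edge_par {κ : Type} {θ : κ → Rn 3 → Rn 3} {W : κ → Set (Rn 2)} (hθ : ∀ w, LH (θ w))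
    {γ : ℝ → Rn 3} (hγ : TP γ) (hi : InjOn γ (Icc 0 1))
    (h1 : ∀ w, Iw (cN (θ w) (W w)) (cf (θ w)) (γ '' Icc 0 1))
    (hd : ∀ w w', w ≠ w' → Disjoint (γ '' Icc 0 1 ∩ cN (θ w) (W w)) (cN (θ w') (W w')))
    (h0 : ∀ w, γ 0 ∉ cN (θ w) (W w) ∧ γ 1 ∉ cN (θ w) (W w)) {Z : Set ℝ}
    (hZ : Z = {s ∈ Icc (0 : ℝ) 1 | ∃ w, γ s ∈ Co (cN (θ w) (W w)) (cf (θ w))}) (hf : Z.Finite)
    {j : ℝ → ℝ × ℝ} (j1 : ∀ s ∈ Z, 0 < (j s).2 ∧ 0 < (j s).1 - (j s).2 ∧ (j s).1 + (j s).2 < 1)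
    (j2 : ∀ s ∈ Z, ∀ s' ∈ Z, s < s' → (j s).1 + (j s).2 < (j s').1 - (j s').2) :
    ∃ ρ : ℝ → ℝ, TP ρ ∧ StrictMonoOn ρ (Icc 0 1) ∧ ρ '' Icc 0 1 = Icc 0 1 ∧ ρ 0 = 0 ∧ ρ 1 = 1 ∧
      (∀ s ∈ Z, ρ (j s).1 = s) ∧ TameC (fun w => cN (θ w) (W w)) (fun w => cf (θ w)) (γ ∘ ρ)
        fun w => j '' {s ∈ Z | γ s ∈ cN (θ w) (W w)} := by
  have hZ' : ∀ s, s ∈ Z ↔ s ∈ Icc (0 : ℝ) 1 ∧ ∃ w, ∃ y ∈ W w, γ s = θ w (mk3 y 0) := fun s => by
    rw [hZ]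
    refine and_congr_right fun _ => exists_congr fun w => ?_
    rw [co_cN (hθ w)]
    constructor
    · rintro ⟨x, hx, e⟩
      exact ⟨pj3 x, hx.1, by rw [← e, ← hx.2, mk3_pj3]⟩
    · rintro ⟨y, hy, e⟩
      exact ⟨mk3 y 0, ⟨by simpa using hy, rfl⟩, e.symm⟩
  have uniq : ∀ u ∈ Icc (0 : ℝ) 1, ∀ w w' y y' (t t' : ℝ), y ∈ W w → y' ∈ W w' → |t| ≤ 1 →
      |t'| ≤ 1 → γ u = θ w (mk3 y t) → γ u = θ w' (mk3 y' t') → w = w' ∧ y = y' := by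
    intro u hu w w' y y' t t' hy hy' ht ht' e e'
    obtain rfl : w = w' := by
      by_contra ne
      refine disjoint_left.1 (hd w w' ne) ⟨mem_image_of_mem γ hu, ?_⟩ ?_
      · rw [e]
        exact (mem_cN (hθ w)).2 ⟨hy, ht⟩
      · rw [e']
        exact (mem_cN (hθ w')).2 ⟨hy', ht'⟩
    exact ⟨rfl, (EEd_mk_inj ((hθ w).inj (e.symm.trans e'))).1⟩
  have key : ∀ s ∈ Z, ∃ (a b σ : ℝ) (φ : ℝ → ℝ), (0 < a ∧ a < b ∧ b < 1) ∧ (σ = 1 ∨ σ = -1) ∧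
      (TP φ ∧ InjOn φ (Icc a b)) ∧ (φ a = -σ ∧ φ b = σ) ∧ ∃ w, ∃ y ∈ W w,
        γ s = θ w (mk3 y 0) ∧ (∀ u ∈ Icc a b, |φ u| ≤ 1 ∧ γ u = θ w (mk3 y (φ u))) ∧
        ∀ u ∈ Icc (0 : ℝ) 1, ∀ t : ℝ, |t| ≤ 1 → γ u = θ w (mk3 y t) → u ∈ Icc a b := by
    intro s hs
    obtain ⟨s1, w, y, hy, e⟩ := (hZ' s).1 hs
    obtain ⟨a, b, σ, φ, k1, k2, k3, k4, k5, k6, k7, k8, k9, k10⟩ := EEd_fib (hθ w) hγ hi (y := y)
      (fun t ht => (iw_cN (hθ w)).1 (h1 w) y hy 0 t (by simp) ht (e ▸ mem_image_of_mem γ s1))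
      fun t ht => ⟨fun q => (h0 w).1 (q ▸ (mem_cN (hθ w)).2 ⟨hy, ht⟩),
        fun q => (h0 w).2 (q ▸ (mem_cN (hθ w)).2 ⟨hy, ht⟩)⟩
    exact ⟨a, b, σ, φ, ⟨k1, k2, k3⟩, k4, ⟨k5, k6⟩, ⟨k7, k8⟩, w, y, hy, e, k9, k10⟩
  choose! a b σ φ k1 k2 k3 k4 k5 using key
  have sub : ∀ s ∈ Z, ∀ u ∈ Icc (a s) (b s), u ∈ Icc (0 : ℝ) 1 := fun s hs u hu =>
    ⟨by linarith [hu.1, (k1 s hs).1], by linarith [hu.2, (k1 s hs).2.2]⟩
  have ord : ∀ s ∈ Z, ∀ s' ∈ Z, s < s' → b s < a s' := fun s hs s' hs' lt => by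
    obtain ⟨w, y, hy, e, q1, q2⟩ := k5 s hs
    obtain ⟨w', y', hy', e', q1', q2'⟩ := k5 s' hs'
    have m1 := q2 s ((hZ' s).1 hs).1 0 (by simp) e
    have m2 := q2' s' ((hZ' s').1 hs').1 0 (by simp) e'
    by_contra hn
    have u1 : max (a s) (a s') ∈ Icc (a s) (b s) :=
      ⟨le_max_left _ _, max_le (k1 s hs).2.1.le (not_lt.1 hn)⟩
    have u2 : max (a s) (a s') ∈ Icc (a s') (b s') :=
      ⟨le_max_right _ _, max_le (by linarith [m1.1, m2.2]) (k1 s' hs').2.1.le⟩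
    obtain ⟨rfl, rfl⟩ := uniq _ (sub s hs _ u1) w w' y y' _ _ hy hy' (q1 _ u1).1 (q1' _ u2).1
      (q1 _ u1).2 (q1' _ u2).2
    exact lt.ne (hi ((hZ' s).1 hs).1 ((hZ' s').1 hs').1 (e.trans e'.symm))
  obtain ⟨ρ, r1, r2, r3, r4, r5, r6⟩ := EEd_match hf (a := fun s => (j s).1 - (j s).2)
    (b := fun s => (j s).1 + (j s).2) (a' := a) (b' := b)
    (φ := fun s u => σ s * ((u - (j s).1) / (j s).2)) (φ' := φ)
    (fun s hs => ⟨(j1 s hs).2.1, by linarith [(j1 s hs).1], (j1 s hs).2.2⟩) k1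
    (fun s hs s' hs' ne => (lt_or_gt_of_ne ne).imp (fun q => ⟨j2 s hs s' hs' q, ord s hs s' hs' q⟩)
      fun q => ⟨j2 s' hs' s hs q, ord s' hs' s hs q⟩)
    (fun s hs => ⟨((TP.id'.sub (TP.const _)).div_const _).const_mul _, fun u _ v _ e => by
      have h2 : σ s ≠ 0 := by rcases k2 s hs with q | q <;> simp [q]
      have h3 := (div_left_inj' (j1 s hs).1.ne').1 (mul_left_cancel₀ h2 e)
      linarith⟩) k3
    (fun s hs => by
      have h3 := (j1 s hs).1.ne'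
      rw [(k4 s hs).1, (k4 s hs).2]
      constructor <;> field_simp <;> ring)
  have ja : ∀ s ∈ Z, (j s).1 - (j s).2 ∈ Icc (0 : ℝ) 1 := fun s hs =>
    ⟨(j1 s hs).2.1.le, by linarith [(j1 s hs).1, (j1 s hs).2.2]⟩
  have jb : ∀ s ∈ Z, (j s).1 + (j s).2 ∈ Icc (0 : ℝ) 1 := fun s hs =>
    ⟨by linarith [(j1 s hs).1, (j1 s hs).2.1], (j1 s hs).2.2.le⟩
  have par : ∀ s ∈ Z, ∀ t ∈ Icc (-1 : ℝ) 1, ρ ((j s).1 + (j s).2 * t) ∈ Icc (a s) (b s) ∧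
      φ s (ρ ((j s).1 + (j s).2 * t)) = σ s * t := fun s hs t ht => by
    have h3 := (j1 s hs).1
    have m1 : (j s).1 + (j s).2 * t ∈ Icc ((j s).1 - (j s).2) ((j s).1 + (j s).2) :=
      ⟨by nlinarith [ht.1], by nlinarith [ht.2]⟩
    have m2 : (j s).1 + (j s).2 * t ∈ Icc (0 : ℝ) 1 :=
      ⟨(ja s hs).1.trans m1.1, m1.2.trans (jb s hs).2⟩
    refine ⟨⟨?_, ?_⟩, ?_⟩
    · rw [← (r6 s hs).1]
      exact r2.monotoneOn (ja s hs) m2 m1.1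
    · rw [← (r6 s hs).2.1]
      exact r2.monotoneOn m2 (jb s hs) m1.2
    · rw [(r6 s hs).2.2 _ m1]
      field_simp
      ring
  refine ⟨ρ, r1, r2, r3, r4, r5, fun s hs => ?_, fun u hu w hw => ?_⟩
  · obtain ⟨w, y, hy, e, q1, -⟩ := k5 s hs
    obtain ⟨p1, p2⟩ := par s hs 0 (by simp)
    rw [mul_zero, add_zero] at p1 p2
    refine hi (sub s hs _ p1) ((hZ' s).1 hs).1 ?_
    rw [(q1 _ p1).2, p2, mul_zero, e]
  · have hu' : ρ u ∈ Icc (0 : ℝ) 1 := r3 ▸ mem_image_of_mem ρ hu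
    obtain ⟨x, hx, ex⟩ := hw
    have e1 : γ (ρ u) = θ w (mk3 (pj3 x) (x 2)) := by rw [mk3_pj3]; exact ex.symm
    obtain ⟨s, s1, es⟩ := (iw_cN (hθ w)).1 (h1 w) (pj3 x) hx.1 (x 2) 0 hx.2 (by simp)
      (e1 ▸ mem_image_of_mem γ hu')
    have hs : s ∈ Z := (hZ' s).2 ⟨s1, w, _, hx.1, es⟩
    obtain ⟨w', y, hy, e, q1, q2⟩ := k5 s hs
    obtain ⟨rfl, rfl⟩ := uniq s s1 w w' _ y 0 0 hx.1 hy (by simp) (by simp) es e
    have m1 := q2 _ hu' _ hx.2 e1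
    refine ⟨j s, ⟨s, ⟨hs, es ▸ (mem_cN (hθ w)).2 ⟨hx.1, by simp⟩⟩, rfl⟩, σ s, k2 s hs, ?_,
      fun t ht => ?_⟩
    · have a1 := (r2.le_iff_le (ja s hs) hu).1 ((r6 s hs).1 ▸ m1.1)
      have a2 := (r2.le_iff_le hu (jb s hs)).1 ((r6 s hs).2.1 ▸ m1.2)
      exact abs_le.2 ⟨by linarith, by linarith⟩
    · obtain ⟨p1, p2⟩ := par s hs t ht
      show γ (ρ ((j s).1 + (j s).2 * t)) = cf (θ w) (γ (ρ u)) (σ s * t)
      rw [e1, cf_mk (hθ w), (q1 _ p1).2, p2]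

end BEp
end
end

-- merged part: Pool.Agent.Work.MP_f0515e_an.P3.XE22
section
/-! Tame parametrisation of a disc in standard position for arbitrary families of intervals. -/

open Set Metric Filter Topology Function BEv
open scoped NNReal

noncomputable section
namespace BEp

/-- The interval `j` parametrises the end `b` of the band `s`. -/
def XE22_E (β s : Rn 2 → Rn 3) (b : ℝ) (j : ℝ × ℝ) : Prop :=
  (0 < j.2 ∧ 0 < j.1 - j.2 ∧ j.1 + j.2 < 1) ∧ ∃ τ : ℝ, (τ = 1 ∨ τ = -1) ∧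
    ∀ t ∈ Icc (-1 : ℝ) 1, β ![j.1 + j.2 * t, j.1 + j.2 * t] = s ![b, τ * t]

theorem XE22_uniq {β s : Rn 2 → Rn 3} (hb : InjOn β bTri) {b : ℝ} {j k : ℝ × ℝ}
    (hj : XE22_E β s b j) (hk : XE22_E β s b k) : j = k := by
  obtain ⟨⟨j1, j2, j3⟩, τ, h1, h2⟩ := hj
  obtain ⟨⟨k1, k2, k3⟩, τ', h3, h4⟩ := hk
  have key : ∀ u : ℝ, |u| ≤ 1 → j.1 + j.2 * (τ * u) = k.1 + k.2 * (τ' * u) := fun u hu => by
    have a1 : |τ * u| ≤ 1 := (emd_e h1 u).trans_le hu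
    have a2 : |τ' * u| ≤ 1 := (emd_e h3 u).trans_le hu
    have b1 := emd_abs j1 a1
    have b2 := emd_abs k1 a2
    have e := h2 _ (abs_le.1 a1)
    rw [emd_ee h1, ← emd_ee h3 u, ← h4 _ (abs_le.1 a2), emd_ee h3] at e
    exact congrFun (hb (epr_diag (by linarith [b1.1]) (by linarith [b1.2]))
      (epr_diag (by linarith [b2.1]) (by linarith [b2.2])) e) 0
  have e0 := key 0 (by simp)
  have e1 := key 1 (by simp)
  simp only [mul_zero, add_zero, mul_one] at e0 e1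
  refine Prod.ext e0 ?_
  rcases h1 with rfl | rfl <;> rcases h3 with rfl | rfl <;> linarith

theorem XE22_main {κ ι : Type} {N : κ → Set (Rn 3)} {f : κ → Rn 3 → ℝ → Rn 3} {F J : Set (Rn 3)}
    {I : Set ι} {col : ι → Bool} {σ : ι → Rn 2 → Rn 3} {T : ι → Rn 3 → ℝ} {w : ι → κ}
    (hI : I.Finite) (hP : Pat F J I col σ T)
    (hσ : ∀ i ∈ I, ∀ p ∈ closedBall (0 : Rn 2) 1, σ i p ∈ N (w i) ∧
      ∀ t : ℝ, f (w i) (σ i p) t = σ i ![p 0, t])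
    (hc : ∀ v, ∀ x ∈ F, x ∈ N v → ∃ i ∈ I, w i = v ∧ x ∈ σ i '' closedBall 0 1) :
    Par N f F J := by
  intro β 𝒥 a hβ hb hl ha hJ ht
  let 𝒦 : κ → Set (ℝ × ℝ) := fun v =>
    {j | j ∈ 𝒥 v ∧ ∃ i ∈ I, ∃ b ∈ ({1, -1} : Set ℝ), XE22_E β (σ i) b j}
  have pt : ∀ {i b j s}, b ∈ ({1, -1} : Set ℝ) → XE22_E β (σ i) b j → |s - j.1| ≤ j.2 →
      ∃ q ∈ closedBall (0 : Rn 2) 1, q 0 = b ∧ σ i q = β ![s, s] := by
    rintro i b j s hb ⟨⟨j1, -⟩, τ, h1, h2⟩ hs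
    have e := h2 _ (epr_par j1 hs).1
    rw [(epr_par j1 hs).2] at e
    exact ⟨_, epr_ball (epr_sg hb).le ((emd_e h1 _).trans_le (abs_le.2 (epr_par j1 hs).1)), rfl,
      e.symm⟩
  have hK : Ivs (⋃ v, 𝒦 v) := by
    refine ⟨(hI.biUnion fun i _ => (toFinite ({1, -1} : Set ℝ)).biUnion fun b _ =>
      Set.Subsingleton.finite (s := {j | XE22_E β (σ i) b j})
        fun j hj k hk => XE22_uniq hb.injOn hj hk).subset fun j hj => ?_, fun j hj => ?_,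
      fun j hj k hk ne => ?_⟩
    · obtain ⟨v, -, i, hi, b, h1, h2⟩ := mem_iUnion.1 hj
      exact mem_biUnion hi (mem_biUnion h1 h2)
    · obtain ⟨v, -, i, -, b, -, h2⟩ := mem_iUnion.1 hj
      exact h2.1
    obtain ⟨v, -, i, hi, b, h1, h2⟩ := mem_iUnion.1 hj
    obtain ⟨v', -, i', hi', b', h3, h4⟩ := mem_iUnion.1 hk
    by_contra! hn
    have j1 := h2.1.1
    have k1 := h4.1.1
    have m1 := le_max_left (j.1 - j.2) (k.1 - k.2)
    have m2 := le_max_right (j.1 - j.2) (k.1 - k.2)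
    have m3 : max (j.1 - j.2) (k.1 - k.2) ≤ j.1 + j.2 := max_le (by linarith) hn.1
    have m4 : max (j.1 - j.2) (k.1 - k.2) ≤ k.1 + k.2 := max_le hn.2 (by linarith)
    obtain ⟨q, hq, q0, e⟩ := pt (s := max (j.1 - j.2) (k.1 - k.2)) h1 h2
      (abs_le.2 ⟨by linarith, by linarith⟩)
    obtain ⟨q', hq', q0', e'⟩ := pt (s := max (j.1 - j.2) (k.1 - k.2)) h3 h4
      (abs_le.2 ⟨by linarith, by linarith⟩)
    have m : σ i q ∈ σ i' '' closedBall 0 1 := ⟨q', hq', e'.trans e.symm⟩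
    by_cases ii : i = i'
    · subst ii
      rw [← q0', ← hP.inj i hi hq hq' (e.trans e'.symm), q0] at h4
      exact ne (XE22_uniq hb.injOn h2 h4)
    by_cases h : col i = col i'
    · exact disjoint_left.1 (hP.dis i hi i' hi' ii h) ⟨_, hq, rfl⟩ m
    rcases hP.crs i hi i' hi' h with d | ⟨x, y, φ, d1, -, d2, -, d3⟩
    · exact disjoint_left.1 d ⟨_, hq, rfl⟩ m
    · have d4 := (d3 _ hq).1.1 m
      rw [q0] at d4
      rcases h1 with rfl | rfl <;> linarith [d4.1, d4.2]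
  obtain ⟨g, g1, g2, g3, l, r, e, h⟩ := epr_main hI hP hσ hc hβ hb hl hK fun s hs v hv => by
    obtain ⟨j, hj, τ, h1, h2, h3⟩ := ht s hs v hv
    have m := hb.mapsTo (epr_diag hs.1 hs.2)
    obtain ⟨i, hi, rfl, q, hq, e⟩ := hc v _ (hP.dsc.sub m) hv
    obtain ⟨j1, j2, j3⟩ := hJ _ j hj
    refine ⟨j, ⟨hj, i, hi, q 0, (abs_eq zero_le_one).1 ((hP.bd i hi q hq).1 (e ▸ m)),
      ⟨j1, by linarith, by linarith⟩, τ, h1, fun t k => (h3 t k).trans ?_⟩, τ, h1, h2, h3⟩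
    simp only [← e]
    exact (hσ i hi q hq).2 _
  refine ⟨g, 𝒦, g1, g2, g3, hK.fin, fun v j hj => hj.1, h.tame hK, fun p hp v hv => ?_⟩
  obtain ⟨i, hi, -, hm⟩ := h.cov p hp v hv
  obtain ⟨m1, m2, -⟩ := h.mem i hi
  obtain ⟨l1, l2, -⟩ := hJ _ _ m1.1
  obtain ⟨r1, -, r2⟩ := hJ _ _ m2.1
  obtain ⟨b1, -, b2, -⟩ := emd_box l1 r1 hm
  exact ⟨l2.trans b1, b2.trans r2⟩

theorem XE22_parA {L : Fin 3 → Set ℝ} {lo hi : Rn 3} (hB : EBx L lo hi) {F J : Set (Rn 3)}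
    (hF : PDsc F J) (h1 : HP L lo hi F) (h2 : HP L lo hi J) (h3 : Disjoint J (bT L lo hi))
    (hs : F ⊆ bO lo hi) (hC : NoC (bN L lo hi) bf F) (hN : NoB (bN L lo hi) bf bcol F) :
    Par (bN L lo hi) bf F J := by
  have fin : {w : Fin 3 × ℝ | w.2 ∈ L w.1}.Finite :=
    (finite_univ.prod (finite_iUnion hB.fin)).subset fun w hw => ⟨trivial, mem_iUnion.2 ⟨_, hw⟩⟩
  let κ := {w : Fin 3 × ℝ // w.2 ∈ L w.1}
  have : Finite κ := fin.to_subtype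
  choose θ W a1 a2 a3 a4 a5 using fun w : κ => bx_chart hB w.2
  have n2 : ∀ w : κ, w.1.1 = 0 ∨ w.1.1 = 1 := by
    rintro ⟨⟨i, a⟩, hw⟩
    fin_cases i
    · exact Or.inl rfl
    · exact Or.inr rfl
    · exact (notMem_empty a (hB.two ▸ hw)).elim
  have cl : ∀ w w' : κ, bcol w.1 = bcol w'.1 ↔ w.1.1 = w'.1.1 := fun w w' => by
    rcases n2 w with c | c <;> rcases n2 w' with d | d <;> simp [bcol, c, d]
  have eN : (fun w : κ => cN (θ w) (W w)) = fun w => bN L lo hi w.1 := funext a3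
  have ef : (fun w : κ => cf (θ w)) = fun w => bf w.1 := funext a4
  obtain ⟨I, σ, T, hI, hP, hσ, hv⟩ := real_pat (θ := θ) (W := W) (col := fun w => bcol w.1)
    hF a1 a2 (fun w => by rw [a3, a4]; exact h1.wal _)
    (fun w => by rw [a3, a4]; exact h2.wal _)
    (fun w => by
      have : F ∩ cN (θ w) (W w) = F ∩ {x | |x w.1.1 - w.1.2| ≤ 1} := by
        rw [a3]
        exact Set.ext fun x => and_congr_right fun hx => ⟨fun k => k.2.2, fun k => ⟨hs hx, w.2, k⟩⟩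
      rw [this]
      exact hF.cpt.isClosed.inter (isClosed_le (by fun_prop) continuous_const))
    (fun w w' ne c => by
      rw [a3, a3]
      refine disjoint_left.2 fun x hx hx' => ?_
      have c1 := (cl w w').1 c
      have c2 := abs_le.1 hx.2.2.2
      have c3 := abs_le.1 hx'.2.2
      rw [← c1] at c3
      rcases lt_trichotomy w.1.2 w'.1.2 with d | d | d
      · linarith [hB.gap _ _ w.2 _ (c1 ▸ w'.2) d, c2.2, c3.1]
      · exact ne (Subtype.ext (Prod.ext c1 d))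
      · linarith [hB.gap _ _ (c1 ▸ w'.2) _ w.2 d, c2.1, c3.2])
    (fun w w' c x _ k k' => by
      rw [a3] at k k'
      have c1 : w.1.1 ≠ w'.1.1 := fun d => c ((cl w w').2 d)
      have tb : ∀ v v' : κ, v.1.1 = 0 → v'.1.1 = 1 → x ∈ bN L lo hi v.1 → x ∈ bN L lo hi v'.1 →
          x ∈ bT L lo hi := fun v v' d d' q q' => by
        have q1 := q.2.2
        have q2 := q'.2.2
        rw [d] at q1
        rw [d'] at q2
        exact ⟨q.1, _, d ▸ v.2, _, d' ▸ v'.2, by linarith, by linarith, by linarith⟩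
      refine ⟨fun hx => disjoint_left.1 h3 hx ?_, fun t ht => ?_⟩
      · rcases n2 w with d | d <;> rcases n2 w' with d' | d'
        · exact (c1 (d.trans d'.symm)).elim
        · exact tb w w' d d' k k'
        · exact tb w' w d' d k' k
        · exact (c1 (d.trans d'.symm)).elim
      have u : bf w.1 x t w'.1.1 = x w'.1.1 := update_of_ne c1.symm _ _
      rw [a3, a4, a5, a5, u]
      refine ⟨⟨fun i => ?_, w'.2, u ▸ k'.2.2⟩, rfl⟩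
      by_cases d : i = w.1.1
      · have q := hB.inn _ _ w.2
        rw [d, bf, update_self]
        exact ⟨by linarith [q.1, ht.1], by linarith [q.2, ht.2]⟩
      · rw [bf, update_of_ne d]
        exact k.1 i)
    (by rw [eN, ef]; exact fun w => hC w.1) (by rw [eN, ef]; exact fun w w' => hN w.1 w'.1)
  refine XE22_main (w := fun i => i.1.1) hI hP (fun i hi p hp => ?_) fun v x hx hv' => ?_
  · have := hσ i hi p hp
    rwa [a3, a4] at this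
  · obtain ⟨i, hi, k1, k2⟩ := hv ⟨v, hv'.2.1⟩ x hx (by rw [a3]; exact hv')
    exact ⟨i, hi, congrArg Subtype.val k1, k2⟩

end BEp
end
end

-- merged part: Pool.Agent.Work.MP_f0515e_an.P3.XE21
section
/-! Additions to the exchange block, part a: tracking of circles and bigons, bookkeeping of `Par`,
reparametrisation of an edge for abstract fibred walls. -/

open Set Metric Filter Topology Function BEv
open scoped NNReal

noncomputable section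
namespace BEp

variable {n m : ℕ}

section
variable {κ κ' : Type} {N : κ → Set (Rn 3)} {f : κ → Rn 3 → ℝ → Rn 3} {N' : κ' → Set (Rn 3)}
  {f' : κ' → Rn 3 → ℝ → Rn 3} {Φ : Rn 3 → Rn 3} {S F J : Set (Rn 3)}

theorem XE21_inj {k : Rn 3 → Rn 3} (hi : ∀ x ∈ F, k (Φ x) = x) : InjOn k (Φ '' F) := by
  rintro _ ⟨x, hx, rfl⟩ _ ⟨y, hy, rfl⟩ e
  rw [hi x hx, hi y hy] at e
  rw [e]

theorem XE21_co (h : Trk1 N f Φ F) (hw : ∀ w, Iw (N w) (f w) F) {k : Rn 3 → Rn 3}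
    (hi : ∀ x ∈ F, k (Φ x) = x) {w : κ} {K : Set (Rn 3)} (hK : K ⊆ Φ '' F ∩ Co (N w) (f w)) :
    k '' K ⊆ F ∩ Co (N w) (f w) := by
  rintro _ ⟨y, hy, rfl⟩
  obtain ⟨⟨x, hx, rfl⟩, h1, h2⟩ := hK hy
  obtain ⟨h3, h4⟩ := h x hx w h1
  have h5 := hi _ (hw w x hx h3 0 (by simp))
  rw [h4 0 (by simp), h2, hi x hx] at h5
  rw [hi x hx]
  exact ⟨hx, h3, h5.symm⟩

theorem Trk1.noC (h : Trk1 N f Φ F) (hw : ∀ w, Iw (N w) (f w) F) {k : Rn 3 → Rn 3} (hk : TP k)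
    (hi : ∀ x ∈ F, k (Φ x) = x) (e : NoC N f F) : NoC N f (Φ '' F) := fun w _ hγ hs =>
  e w _ (hγ.image hk ((XE21_inj hi).mono (hs.trans inter_subset_left))) (XE21_co h hw hi hs)

theorem Trk1.noB (h : Trk1 N f Φ F) (hw : ∀ w, Iw (N w) (f w) F) {k : Rn 3 → Rn 3} (hk : TP k)
    (hi : ∀ x ∈ F, k (Φ x) = x) {col : κ → Bool} (e : NoB N f col F) :
    NoB N f col (Φ '' F) := by
  intro w w' hc K K' a b a' b' hK hK' s s' x hx y hy
  have h1 := e w w' hc _ _ _ _ _ _ (hK.image hk ((XE21_inj hi).mono (s.trans inter_subset_left)))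
    (hK'.image hk ((XE21_inj hi).mono (s'.trans inter_subset_left))) (XE21_co h hw hi s)
    (XE21_co h hw hi s')
  exact XE21_inj hi (s hx.1).1 (s hy.1).1
    (h1 ⟨mem_image_of_mem k hx.1, mem_image_of_mem k hx.2⟩
      ⟨mem_image_of_mem k hy.1, mem_image_of_mem k hy.2⟩)

theorem Trk.frX (h : Trk N f Φ S) {g : Rn 2 → Rn 3} {a : ℝ} (hg : FrX N a g)
    (hs : ∀ p ∈ Tri, g p ∈ S) : FrX N a (Φ ∘ g) := by
  intro p hp w hw
  obtain ⟨w', -, -, h1, -⟩ := h _ (hs p hp) w hw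
  exact hg p hp w' h1

theorem par_free (h : PDsc F J) (hd : ∀ w, Disjoint F (N w)) : Par N f F J := by
  intro β 𝒥 a hβ hb _ _ _ _
  obtain ⟨g, g1, g2, g3⟩ := pdsc_tri.ext h hβ hb
  exact ⟨g, fun _ => ∅, g1, g2, g3, by simp, fun _ => empty_subset _,
    fun p hp w hw => (disjoint_left.1 (hd w) (g2.mapsTo hp) hw).elim,
    fun p hp w hw => (disjoint_left.1 (hd w) (g2.mapsTo hp) hw).elim⟩

theorem Par.of_sub (hJ : J ⊆ F) {π : κ' → κ}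
    (h1 : ∀ w, ∀ x ∈ F, x ∈ N' w → x ∈ N (π w) ∧ ∀ s ∈ Icc (-1 : ℝ) 1, f' w x s = f (π w) x s)
    (h2 : ∀ v, ∀ x ∈ F, x ∈ N v → ∃ w, π w = v ∧ x ∈ N' w) (h : Par N' f' F J) : Par N f F J := by
  intro β 𝒥 a hβ hb hl ha hj ht
  obtain ⟨g, 𝒥', g1, g2, g3, g4, g5, g6, g7⟩ := h β (fun w => 𝒥 (π w)) a hβ hb
    (fun p hp e w hw => hl p hp e _ (h1 w _ (hJ (hb.mapsTo hp)) hw).1) ha (fun w => hj (π w))
    (fun s hs w hw => by
      obtain ⟨k1, k2⟩ := h1 w _ (hJ (hb.mapsTo (epr_diag hs.1 hs.2))) hw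
      obtain ⟨j, j1, σ, j2, j3, j4⟩ := ht s hs _ k1
      exact ⟨j, j1, σ, j2, j3, fun t t1 => (j4 t t1).trans (k2 _ (ebas_sg j2 t1)).symm⟩)
  refine ⟨g, fun v => {j | ∃ w, π w = v ∧ j ∈ 𝒥' w}, g1, g2, g3, g4.subset ?_, ?_, ?_, ?_⟩
  · intro j hj
    obtain ⟨v, w, -, k⟩ := mem_iUnion.1 hj
    exact mem_iUnion.2 ⟨w, k⟩
  · rintro _ j ⟨w, rfl, k⟩
    exact g5 w k
  · intro p hp v hv
    obtain ⟨w, rfl, k⟩ := h2 v _ (g2.mapsTo hp) hv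
    obtain ⟨j, j1, i, σ, j2, j3, j4⟩ := g6 p hp w k
    exact ⟨j, ⟨w, rfl, j1⟩, i, σ, j2, j3,
      ((h1 w _ (g2.mapsTo hp) k).2 _ (ebas_sg j2 (ebas_div j3))).symm.trans j4⟩
  · intro p hp v hv
    obtain ⟨w, -, k⟩ := h2 v _ (g2.mapsTo hp) hv
    exact g7 p hp w k

theorem Par.image (h : Par N f F J) {Θ : Rn 3 → Rn 3} (k : LH Θ) :
    Par (fun w => Θ '' N w) (fun w x s => Θ (f w (invFun Θ x) s)) (Θ '' F) (Θ '' J) := by
  intro β 𝒥 a hβ hb hl ha hj ht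
  have m : ∀ {A : Set (Rn 3)} {y : Rn 3}, invFun Θ y ∈ A → y ∈ Θ '' A := fun {A y} e =>
    ⟨_, e, k.ri y⟩
  have b1 : BijOn (invFun Θ) (Θ '' J) J :=
    ⟨by rintro _ ⟨x, hx, rfl⟩; rwa [k.li], k.inv.inj.injOn,
      fun x hx => ⟨_, mem_image_of_mem Θ hx, k.li x⟩⟩
  obtain ⟨g, 𝒥', g1, g2, g3, g4, g5, g6, g7⟩ := h (invFun Θ ∘ β) 𝒥 a (k.tpi.comp hβ) (b1.comp hb)
    (fun p hp e w hw => hl p hp e w (m hw)) ha hj
    (fun s hs w hw => by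
      obtain ⟨j, j1, σ, j2, j3, j4⟩ := ht s hs w (m hw)
      exact ⟨j, j1, σ, j2, j3, fun t t1 => k.inv_eq (j4 t t1).symm⟩)
  refine ⟨Θ ∘ g, 𝒥', k.tp.comp g1, (k.inj.injOn.bijOn_image).comp g2, fun p hp => ?_, g4, g5,
    fun p hp w hw => ?_, fun p hp w hw => g7 p hp w (k.inj.mem_set_image.1 hw)⟩
  · rw [comp_apply, g3 hp, comp_apply, k.ri]
  · obtain ⟨j, j1, i, σ, j2, j3, j4⟩ := g6 p hp w (k.inj.mem_set_image.1 hw)
    refine ⟨j, j1, i, σ, j2, j3, ?_⟩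
    show Θ (f w (invFun Θ (Θ (g p))) _) = Θ (g p)
    rw [k.li, j4]

/-- The interval of a fibre. -/
theorem XE21_fib {M : Set (Rn 3)} {u : Rn 3 → ℝ → Rn 3} {c : Rn 3 → ℝ} (hM : XFib M u c)
    {γ : ℝ → Rn 3} (hγ : TP γ) (hi : InjOn γ (Icc 0 1)) {τ : ℝ → ℝ} (hτ : TP τ)
    (hc : ∀ s ∈ Icc (0 : ℝ) 1, γ s ∈ M → τ s = c (γ s)) {x : Rn 3} (hx : x ∈ M)
    (h : ∀ t ∈ Icc (-1 : ℝ) 1, u x t ∈ γ '' Icc 0 1) (h0 : γ 0 ∉ M ∧ γ 1 ∉ M) :
    ∃ a b σ : ℝ, (0 < a ∧ a < b ∧ b < 1) ∧ (σ = 1 ∨ σ = -1) ∧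
      InjOn τ (Icc a b) ∧ (τ a = -σ ∧ τ b = σ) ∧
      (∀ v ∈ Icc a b, τ v ∈ Icc (-1 : ℝ) 1 ∧ γ v = u x (τ v)) ∧
      ∀ v ∈ Icc (0 : ℝ) 1, ∀ t ∈ Icc (-1 : ℝ) 1, γ v = u x t → v ∈ Icc a b := by
  obtain ⟨a, b, hab⟩ := EEd_ivl hγ.continuous hi (K := u x '' Icc (-1) 1)
    ((isConnected_Icc (by norm_num)).image _ (hM.cont x hx))
    (isCompact_Icc.image_of_continuousOn (hM.cont x hx))
    (by rintro _ ⟨t, ht, rfl⟩; exact h t ht)
  have k1 : ∀ v ∈ Icc (0 : ℝ) 1, ∀ t ∈ Icc (-1 : ℝ) 1, γ v = u x t → τ v = t := fun v hv t ht e => by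
    rw [hc v hv (e ▸ (hM.mem x hx t ht).1), e, (hM.mem x hx t ht).2]
  have k2 : ∀ v ∈ Icc a b, τ v ∈ Icc (-1 : ℝ) 1 ∧ γ v = u x (τ v) := fun v hv => by
    obtain ⟨q, t, ht, e⟩ := (hab v).1 hv
    rw [k1 v q t ht e.symm]
    exact ⟨ht, e.symm⟩
  have k3 : ∀ v ∈ Icc (0 : ℝ) 1, ∀ t ∈ Icc (-1 : ℝ) 1, γ v = u x t → v ∈ Icc a b :=
    fun v hv t ht e => (hab v).2 ⟨hv, t, ht, e.symm⟩
  have k4 : InjOn τ (Icc a b) := fun v hv v' hv' e => by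
    refine hi ((hab v).1 hv).1 ((hab v').1 hv').1 ?_
    rw [(k2 v hv).2, (k2 v' hv').2, e]
  have k5 : ∀ t ∈ Icc (-1 : ℝ) 1, ∃ v ∈ Icc a b, τ v = t := fun t ht => by
    obtain ⟨v, hv, e⟩ := h t ht
    exact ⟨v, k3 v hv t ht e, k1 v hv t ht e⟩
  obtain ⟨p, hp, ep⟩ := k5 1 (by simp)
  obtain ⟨q, hq, eq⟩ := k5 (-1) (by simp)
  have hle : a ≤ b := hp.1.trans hp.2
  have ha : a ∈ Icc a b := left_mem_Icc.2 hle
  have hb : b ∈ Icc a b := right_mem_Icc.2 hle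
  have la := (k2 a ha).1
  have lb := (k2 b hb).1
  have ma : γ a ∈ M := (k2 a ha).2 ▸ (hM.mem x hx _ la).1
  have mb : γ b ∈ M := (k2 b hb).2 ▸ (hM.mem x hx _ lb).1
  have h0a : 0 < a := lt_of_le_of_ne ((hab a).1 ha).1.1 fun e => h0.1 (e ▸ ma)
  have hb1 : b < 1 := lt_of_le_of_ne ((hab b).1 hb).1.2 fun e => h0.2 (e ▸ mb)
  have hlt : a < b := lt_of_le_of_ne hle fun e => by
    have e1 : p = q := by
      subst e
      exact (le_antisymm hp.2 hp.1).trans (le_antisymm hq.2 hq.1).symm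
    rw [e1, eq] at ep
    norm_num at ep
  rcases ContinuousOn.strictMonoOn_of_injOn_Icc' hle hτ.continuous.continuousOn k4 with hm | hm
  · refine ⟨a, b, 1, ⟨h0a, hlt, hb1⟩, Or.inl rfl, k4, ⟨?_, ?_⟩, k2, k3⟩
    · have := hm.monotoneOn ha hq hq.1
      linarith [la.1]
    · have := hm.monotoneOn hp hb hp.2
      linarith [lb.2]
  · refine ⟨a, b, -1, ⟨h0a, hlt, hb1⟩, Or.inr rfl, k4, ⟨?_, ?_⟩, k2, k3⟩
    · have := hm.antitoneOn ha hp hp.1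
      linarith [la.2]
    · have := hm.antitoneOn hq hb hq.2
      linarith [lb.1]

theorem edge_par2 {c : κ → Rn 3 → ℝ} (hN : ∀ w, XFib (N w) (f w) (c w)) {γ : ℝ → Rn 3} (hγ : TP γ)
    (hi : InjOn γ (Icc 0 1))
    (hc : ∀ w, ∃ τ : ℝ → ℝ, TP τ ∧ ∀ s ∈ Icc (0 : ℝ) 1, γ s ∈ N w → τ s = c w (γ s))
    (h1 : ∀ w, Iw (N w) (f w) (γ '' Icc 0 1))
    (hd : ∀ w w', w ≠ w' → Disjoint (γ '' Icc 0 1 ∩ N w) (N w'))
    (h0 : ∀ w, γ 0 ∉ N w ∧ γ 1 ∉ N w) {Z : Set ℝ}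
    (hZ : Z = {s ∈ Icc (0 : ℝ) 1 | ∃ w, γ s ∈ Co (N w) (f w)}) (hf : Z.Finite)
    {j : ℝ → ℝ × ℝ} (j1 : ∀ s ∈ Z, 0 < (j s).2 ∧ 0 < (j s).1 - (j s).2 ∧ (j s).1 + (j s).2 < 1)
    (j2 : ∀ s ∈ Z, ∀ s' ∈ Z, s < s' → (j s).1 + (j s).2 < (j s').1 - (j s').2) :
    ∃ ρ : ℝ → ℝ, TP ρ ∧ StrictMonoOn ρ (Icc 0 1) ∧ ρ '' Icc 0 1 = Icc 0 1 ∧ ρ 0 = 0 ∧ ρ 1 = 1 ∧
      TameC N f (γ ∘ ρ) fun w => j '' {s ∈ Z | γ s ∈ N w} := by
  have z0 : (0 : ℝ) ∈ Icc (-1 : ℝ) 1 := by simp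
  have hZ' : ∀ s, s ∈ Z ↔ s ∈ Icc (0 : ℝ) 1 ∧ ∃ w, γ s ∈ Co (N w) (f w) := fun s => by
    rw [hZ]
    rfl
  have uw : ∀ u ∈ Icc (0 : ℝ) 1, ∀ w w', γ u ∈ N w → γ u ∈ N w' → w = w' := fun u hu w w' e e' => by
    by_contra ne
    exact disjoint_left.1 (hd w w' ne) ⟨mem_image_of_mem γ hu, e⟩ e'
  have key : ∀ s ∈ Z, ∃ (a b σ : ℝ) (φ : ℝ → ℝ), (0 < a ∧ a < b ∧ b < 1) ∧ (σ = 1 ∨ σ = -1) ∧
      (TP φ ∧ InjOn φ (Icc a b)) ∧ (φ a = -σ ∧ φ b = σ) ∧ ∃ w, γ s ∈ Co (N w) (f w) ∧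
        (∀ u ∈ Icc a b, φ u ∈ Icc (-1 : ℝ) 1 ∧ γ u = f w (γ s) (φ u)) ∧
        ∀ u ∈ Icc (0 : ℝ) 1, ∀ t ∈ Icc (-1 : ℝ) 1, γ u = f w (γ s) t → u ∈ Icc a b := by
    intro s hs
    obtain ⟨s1, w, e⟩ := (hZ' s).1 hs
    obtain ⟨τ, t1, t2⟩ := hc w
    obtain ⟨a, b, σ, k1, k2, k3, k4, k5, k6⟩ := XE21_fib (hN w) hγ hi t1 t2 e.1
      (h1 w _ (mem_image_of_mem γ s1) e.1) (h0 w)
    exact ⟨a, b, σ, τ, k1, k2, ⟨t1, k3⟩, k4, w, e, k5, k6⟩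
  choose! a b σ φ k1 k2 k3 k4 k5 using key
  have sub : ∀ s ∈ Z, ∀ u ∈ Icc (a s) (b s), u ∈ Icc (0 : ℝ) 1 := fun s hs u hu =>
    ⟨by linarith [hu.1, (k1 s hs).1], by linarith [hu.2, (k1 s hs).2.2]⟩
  have ord : ∀ s ∈ Z, ∀ s' ∈ Z, s < s' → b s < a s' := fun s hs s' hs' lt => by
    obtain ⟨w, e, q1, q2⟩ := k5 s hs
    obtain ⟨w', e', q1', q2'⟩ := k5 s' hs'
    have m1 := q2 s ((hZ' s).1 hs).1 0 z0 e.2.symm
    have m2 := q2' s' ((hZ' s').1 hs').1 0 z0 e'.2.symm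
    by_contra hn
    have u1 : max (a s) (a s') ∈ Icc (a s) (b s) :=
      ⟨le_max_left _ _, max_le (k1 s hs).2.1.le (not_lt.1 hn)⟩
    have u2 : max (a s) (a s') ∈ Icc (a s') (b s') :=
      ⟨le_max_right _ _, max_le (by linarith [m1.1, m2.2]) (k1 s' hs').2.1.le⟩
    obtain ⟨p1, p2⟩ := q1 _ u1
    obtain ⟨p1', p2'⟩ := q1' _ u2
    obtain rfl : w = w' := uw _ (sub s hs _ u1) w w' (p2 ▸ ((hN w).mem _ e.1 _ p1).1)
      (p2' ▸ ((hN w').mem _ e'.1 _ p1').1)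
    refine lt.ne (hi ((hZ' s).1 hs).1 ((hZ' s').1 hs').1 ?_)
    have i1 := (hN w).idem _ e.1 _ p1 0 z0
    have i2 := (hN w).idem _ e'.1 _ p1' 0 z0
    rw [← p2, e.2] at i1
    rw [← p2', e'.2] at i2
    exact i1.symm.trans i2
  obtain ⟨ρ, r1, r2, r3, r4, r5, r6⟩ := EEd_match hf (a := fun s => (j s).1 - (j s).2)
    (b := fun s => (j s).1 + (j s).2) (a' := a) (b' := b)
    (φ := fun s u => σ s * ((u - (j s).1) / (j s).2)) (φ' := φ)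
    (fun s hs => ⟨(j1 s hs).2.1, by linarith [(j1 s hs).1], (j1 s hs).2.2⟩) k1
    (fun s hs s' hs' ne => (lt_or_gt_of_ne ne).imp (fun q => ⟨j2 s hs s' hs' q, ord s hs s' hs' q⟩)
      fun q => ⟨j2 s' hs' s hs q, ord s' hs' s hs q⟩)
    (fun s hs => ⟨((TP.id'.sub (TP.const _)).div_const _).const_mul _, fun u _ v _ e => by
      have h2 : σ s ≠ 0 := by rcases k2 s hs with q | q <;> simp [q]
      have h3 := (div_left_inj' (j1 s hs).1.ne').1 (mul_left_cancel₀ h2 e)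
      linarith⟩) k3
    (fun s hs => by
      have h3 := (j1 s hs).1.ne'
      rw [(k4 s hs).1, (k4 s hs).2]
      constructor <;> field_simp <;> ring)
  have ja : ∀ s ∈ Z, (j s).1 - (j s).2 ∈ Icc (0 : ℝ) 1 := fun s hs =>
    ⟨(j1 s hs).2.1.le, by linarith [(j1 s hs).1, (j1 s hs).2.2]⟩
  have jb : ∀ s ∈ Z, (j s).1 + (j s).2 ∈ Icc (0 : ℝ) 1 := fun s hs =>
    ⟨by linarith [(j1 s hs).1, (j1 s hs).2.1], (j1 s hs).2.2.le⟩
  have par : ∀ s ∈ Z, ∀ t ∈ Icc (-1 : ℝ) 1, ρ ((j s).1 + (j s).2 * t) ∈ Icc (a s) (b s) ∧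
      φ s (ρ ((j s).1 + (j s).2 * t)) = σ s * t := fun s hs t ht => by
    have h3 := (j1 s hs).1
    have m1 : (j s).1 + (j s).2 * t ∈ Icc ((j s).1 - (j s).2) ((j s).1 + (j s).2) :=
      ⟨by nlinarith [ht.1], by nlinarith [ht.2]⟩
    have m2 : (j s).1 + (j s).2 * t ∈ Icc (0 : ℝ) 1 :=
      ⟨(ja s hs).1.trans m1.1, m1.2.trans (jb s hs).2⟩
    refine ⟨⟨?_, ?_⟩, ?_⟩
    · rw [← (r6 s hs).1]
      exact r2.monotoneOn (ja s hs) m2 m1.1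
    · rw [← (r6 s hs).2.1]
      exact r2.monotoneOn m2 (jb s hs) m1.2
    · rw [(r6 s hs).2.2 _ m1]
      field_simp
      ring
  refine ⟨ρ, r1, r2, r3, r4, r5, fun u hu w hw => ?_⟩
  have hu' : ρ u ∈ Icc (0 : ℝ) 1 := r3 ▸ mem_image_of_mem ρ hu
  have hw' : γ (ρ u) ∈ N w := hw
  obtain ⟨s, s1, es⟩ := h1 w _ (mem_image_of_mem γ hu') hw' 0 z0
  have ms : γ s ∈ N w := es ▸ ((hN w).mem _ hw' 0 z0).1
  have id : ∀ t ∈ Icc (-1 : ℝ) 1, f w (γ s) t = f w (γ (ρ u)) t := fun t ht => by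
    rw [es, (hN w).idem _ hw' 0 z0 t ht]
  have hs : s ∈ Z := (hZ' s).2 ⟨s1, w, ms, (id 0 z0).trans es.symm⟩
  obtain ⟨w', e, q1, q2⟩ := k5 s hs
  obtain rfl : w = w' := uw s s1 w w' ms e.1
  obtain ⟨c1, c2⟩ := (hN w).self _ hw'
  have m1 := q2 _ hu' _ c1 ((id _ c1).trans c2).symm
  refine ⟨j s, ⟨s, ⟨hs, ms⟩, rfl⟩, σ s, k2 s hs, ?_, fun t ht => ?_⟩
  · have a1 := (r2.le_iff_le (ja s hs) hu).1 ((r6 s hs).1 ▸ m1.1)
    have a2 := (r2.le_iff_le hu (jb s hs)).1 ((r6 s hs).2.1 ▸ m1.2)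
    exact abs_le.2 ⟨by linarith, by linarith⟩
  · obtain ⟨p1, p2⟩ := par s hs t ht
    show γ (ρ ((j s).1 + (j s).2 * t)) = f w (γ (ρ u)) (σ s * t)
    rw [(q1 _ p1).2, p2, id _ (ebas_sg (k2 s hs) ht)]

end

end BEp
end
end
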