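import Pool.Agent.Work.MP_f0515e_an.D3.EML
import Pool.Agent.Work.MP_f0515e_an.D3.EMH
import Pool.Agent.Work.MP_f0515e_an.P2.CutB
import Pool.Agent.Work.MP_f0515e_an.D3.PGau
import Pool.Agent.Work.MP_f0515e_an.D3.EChi
import Pool.Agent.Work.MP_f0515e_an.P3.YFl1

-- merged part: Pool.Agent.Work.MP_f0515e_an.D3.EMB1
section
-- merged part: Pool.Agent.Work.MP_f0515e_an.D3.ESL1
section
/-! One loop is removed in a system of walls and cells. -/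

open Set Metric Filter Topology Function BEv
open scoped NNReal

noncomputable section
namespace BEp

variable {n m : ℕ}

theorem esl_cont {X : Type} [TopologicalSpace X] {f : X → Rn 2} {g : X → ℝ} (hf : Continuous f)
    (hg : Continuous g) : Continuous fun x => mk3 (f x) (g x) := by
  refine continuous_pi fun i => ?_
  fin_cases i
  · exact (continuous_apply (0 : Fin 2)).comp hf
  · exact (continuous_apply (1 : Fin 2)).comp hf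
  · exact hg

theorem esl_lay {ϑ : Rn 3 → Rn 3} (h : LH ϑ) {c : Set (Rn 2)} {y : Rn 2} {t u : ℝ} :
    ϑ (mk3 y t) ∈ ϑ '' lay c u ↔ y ∈ c ∧ t = u := by
  rw [h.inj.mem_set_image]
  simp [lay]

theorem esl_abs {s : ℝ} (hs : s = 1 ∨ s = -1) (t : ℝ) : |s * t| = |t| := by
  rcases hs with rfl | rfl <;> simp

theorem esl_sq {s : ℝ} (hs : s = 1 ∨ s = -1) (t : ℝ) : s * (s * t) = t := by
  rcases hs with rfl | rfl <;> simp

theorem esl_pre {ϑ : Rn 3 → Rn 3} (h : LH ϑ) (S : Set (Rn 3)) : invFun ϑ '' S = ϑ ⁻¹' S := by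
  ext x
  constructor
  · rintro ⟨y, hy, rfl⟩
    rwa [mem_preimage, h.ri]
  · exact fun hx => ⟨_, hx, h.li x⟩

/-- A vertical segment in a chart is connected. -/
theorem esl_seg {ϑ : Rn 3 → Rn 3} (h : LH ϑ) (y : Rn 2) (t : ℝ) :
    IsPreconnected ((fun u : ℝ => ϑ (mk3 y u)) '' uIcc 0 t) :=
  isPreconnected_uIcc.image _
    (h.tp.continuous.comp (esl_cont continuous_const continuous_id)).continuousOn

theorem esl_open {ϑ : Rn 3 → Rn 3} (h : LH ϑ) {W : Set (Rn 2)} (hW : IsOpen W) (a b : ℝ) :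
    IsOpen (invFun ϑ ⁻¹' {x : Rn 3 | pj3 x ∈ W ∧ x 2 ∈ Ioo a b}) :=
  ((hW.preimage tp_pj3.continuous).inter
    (isOpen_Ioo.preimage (continuous_apply 2))).preimage h.tpi.continuous

/-- Exactly one half of the annulus over `c` lies in the disc bounded by the core circle. -/
theorem esl_side {ϑ : Rn 3 → Rn 3} (h : LH ϑ) {F J E : Set (Rn 3)} {c : Set (Rn 2)}
    (hF : PDsc F J) (hc : Crc c) (hE : PDsc E (ϑ '' lay c 0)) (s1 : E ⊆ F)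
    (hA : ∀ y ∈ c, ∀ t : ℝ, |t| ≤ 1 → ϑ (mk3 y t) ∈ F) :
    ∃ s : ℝ, (s = 1 ∨ s = -1) ∧ ∀ y ∈ c, ∀ t : ℝ, 0 < t → t ≤ 1 →
      ϑ (mk3 y (s * t)) ∈ E ∧ ϑ (mk3 y (-s * t)) ∉ E := by
  have side : ∀ s : ℝ, (s = 1 ∨ s = -1) →
      (∀ y ∈ c, ∀ t : ℝ, 0 < t → t ≤ 1 → ϑ (mk3 y (s * t)) ∈ E) ∨
      ∀ y ∈ c, ∀ t : ℝ, 0 < t → t ≤ 1 → ϑ (mk3 y (s * t)) ∉ E := by
    intro s hs
    have hT : IsPreconnected
        ((fun p : Rn 2 × ℝ => ϑ (mk3 p.1 (s * p.2))) '' (c ×ˢ Ioc (0 : ℝ) 1)) :=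
      (hc.tcrc.conn.isPreconnected.prod isPreconnected_Ioc).image _ (h.tp.continuous.comp
        (esl_cont continuous_fst (continuous_const.mul continuous_snd))).continuousOn
    refine (sd_side hF hE s1 hT ?_ ?_).elim (fun k => Or.inl fun y hy t h0 h1 => ?_)
      fun k => Or.inr fun y hy t h0 h1 j => ?_
    rotate_left 2
    · exact (k ⟨(y, t), ⟨hy, h0, h1⟩, rfl⟩).1
    · exact disjoint_right.1 k j ⟨(y, t), ⟨hy, h0, h1⟩, rfl⟩
    · rintro _ ⟨⟨y, t⟩, ⟨hy, h0, h1⟩, rfl⟩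
      refine hA y hy _ ?_
      rw [esl_abs hs, abs_of_pos h0]
      exact h1
    · refine disjoint_left.2 ?_
      rintro _ ⟨⟨y, t⟩, ⟨hy, h0, h1⟩, rfl⟩ k
      have e := congrArg abs ((esl_lay h).1 k).2
      rw [esl_abs hs, abs_of_pos h0, abs_zero] at e
      exact h0.ne' e
  obtain ⟨a, ha, b, hb, hab⟩ := hc.tcrc.infinite.nontrivial
  obtain ⟨A, A', hA1, -, hU, -⟩ := crc_split hc ha hb hab
  have sA : A ⊆ c := hU ▸ subset_union_left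
  obtain ⟨y, hy, hyab⟩ := hA1.tarc.open_ne
  have hB := (pdsc_band hA1 (show (-1 : ℝ) < 1 by norm_num)).image h.tp h.inj.injOn
  have hp : ϑ (mk3 y 0) ∈ ϑ '' {x : Rn 3 | pj3 x ∈ A ∧ x 2 ∈ Icc (-1 : ℝ) 1} \
      ϑ '' (lay A (-1) ∪ lay A 1 ∪ {x | (pj3 x = a ∨ pj3 x = b) ∧ x 2 ∈ Icc (-1 : ℝ) 1}) := by
    refine ⟨⟨_, ⟨by simpa using hy, by simp⟩, rfl⟩, ?_⟩
    rw [h.inj.mem_set_image]
    rintro ((k | k) | k)
    · have := k.2
      norm_num at this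
    · have := k.2
      norm_num at this
    · exact hyab (by simpa using k.1)
  have hq : ϑ (mk3 y 0) ∈ ϑ '' lay c 0 := (esl_lay h).2 ⟨sA hy, rfl⟩
  have tri : ∀ (P : Rn 3 → Prop), (∀ y ∈ c, ∀ t : ℝ, 0 < t → t ≤ 1 → P (ϑ (mk3 y (1 * t)))) →
      (∀ y ∈ c, ∀ t : ℝ, 0 < t → t ≤ 1 → P (ϑ (mk3 y (-1 * t)))) →
      ∀ x ∈ ϑ '' {x : Rn 3 | pj3 x ∈ A ∧ x 2 ∈ Icc (-1 : ℝ) 1}, P x ∨ x ∈ ϑ '' lay c 0 := by
    rintro P p1 p2 _ ⟨x, ⟨hx, h1, h2⟩, rfl⟩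
    rcases lt_trichotomy (x 2) 0 with k | k | k
    · have := p2 _ (sA hx) (-x 2) (by linarith) (by linarith)
      rw [neg_mul_neg, one_mul, mk3_pj3] at this
      exact Or.inl this
    · exact Or.inr ⟨x, ⟨sA hx, k⟩, rfl⟩
    · have := p1 _ (sA hx) (x 2) k h2
      rw [one_mul, mk3_pj3] at this
      exact Or.inl this
  rcases side 1 (Or.inl rfl) with p1 | p1 <;> rcases side (-1) (Or.inr rfl) with p2 | p2
  · exfalso
    refine disjoint_left.1 (sd_open hE hB fun x hx => ?_).2 hp hq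
    exact (tri (· ∈ E) p1 p2 x hx).elim id fun k => hE.sub k
  · exact ⟨1, Or.inl rfl, fun y hy t h0 h1 => ⟨p1 y hy t h0 h1, p2 y hy t h0 h1⟩⟩
  · refine ⟨-1, Or.inr rfl, fun y hy t h0 h1 => ⟨p2 y hy t h0 h1, ?_⟩⟩
    rw [neg_neg]
    exact p1 y hy t h0 h1
  · exfalso
    have cl := (sd_open hF hB ?_).1
    · have k : ϑ (mk3 y 0) ∈ closure (E \ ϑ '' lay c 0) := hE.cl.symm ▸ hE.sub hq
      refine (cl.closure_subset_iff.2 ?_ k).2 hp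
      exact fun x hx => ⟨s1 hx.1, fun k => (tri (· ∉ E) p1 p2 x k.1).elim (fun j => j hx.1) hx.2⟩
    · rintro _ ⟨x, ⟨hx, h1, h2⟩, rfl⟩
      have := hA _ (sA hx) (x 2) (abs_le.2 ⟨h1, h2⟩)
      rwa [mk3_pj3] at this

variable {ι κ μ : Type} {θ : κ → Rn 3 → Rn 3} {R bR : κ → Set (Rn 2)} {C bC : μ → Set (Rn 3)}
  {η : ℝ} {F J : ι → Set (Rn 3)}

theorem esl_rep {ϑ : Rn 3 → Rn 3} {W : Set (Rn 2)} {x : Rn 3} (h : x ∈ cN ϑ W) :
    ∃ y ∈ W, ∃ t : ℝ, |t| ≤ 1 ∧ x = ϑ (mk3 y t) := by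
  obtain ⟨z, ⟨h1, h2⟩, rfl⟩ := h
  exact ⟨_, h1, _, h2, by rw [mk3_pj3]⟩

/-- A point of the thin disc in a wall lies over the circle. -/
theorem esl_fib (hS : Sys θ R bR C bC η) {F J E : Set (Rn 3)} (hF : PDsc F J)
    (h1 : ∀ w, Iw (cN (θ w) (R w \ bR w)) (cf (θ w)) F) {w : κ} {c : Set (Rn 2)}
    (cW : c ⊆ R w \ bR w) (hE : PDsc E (θ w '' lay c 0)) (s1 : E ⊆ F)
    (s4 : ∀ w', Disjoint (E \ θ w '' lay c 0) (Co (cN (θ w') (R w' \ bR w')) (cf (θ w'))))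
    {x : Rn 3} (hx : x ∈ E) {w' : κ} (hw : x ∈ cN (θ w') (R w' \ bR w')) :
    ∃ y ∈ c, ∃ t : ℝ, |t| ≤ 1 ∧ x = θ w (mk3 y t) := by
  obtain ⟨y, hy, t, ht, rfl⟩ := esl_rep hw
  have hu : ∀ u ∈ uIcc (0 : ℝ) t, |u| ≤ 1 := fun u hu => by
    have := abs_sub_left_of_mem_uIcc hu
    rw [sub_zero, sub_zero] at this
    exact this.trans ht
  have k : ¬ Disjoint ((fun u : ℝ => θ w' (mk3 y u)) '' uIcc 0 t) (θ w '' lay c 0) := by
    intro hd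
    refine (sd_side hF hE s1 (esl_seg (hS.lh w') y t) ?_ hd).elim (fun k => ?_)
      fun k => disjoint_left.1 k ⟨t, right_mem_uIcc, rfl⟩ hx
    · rintro _ ⟨u, hu', rfl⟩
      exact (iw_cN (hS.lh w')).1 (h1 w') y hy t u ht (hu u hu') (s1 hx)
    · refine disjoint_left.1 (s4 w') (k ⟨0, left_mem_uIcc, rfl⟩) ?_
      rw [co_cN (hS.lh w')]
      exact (esl_lay (hS.lh w')).2 ⟨hy, rfl⟩
  obtain ⟨_, ⟨u, hu', rfl⟩, k⟩ := not_disjoint_iff.1 k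
  obtain rfl : w' = w := by
    by_contra ne
    refine disjoint_left.1 (hS.dw _ _ ne) ((mem_cN (hS.lh w')).2 ⟨hy, hu u hu'⟩) ?_
    obtain ⟨z, ⟨z1, z2⟩, e⟩ := k
    exact ⟨z, ⟨cW z1, by rw [z2]; simp⟩, e⟩
  exact ⟨y, ((esl_lay (hS.lh w')).1 k).1, t, ht, rfl⟩

theorem esl_cell (hS : Sys θ R bR C bC η) (k : μ) : IsOpen (C k \ bC k) :=
  (hS.cb k).interior_eq ▸ isOpen_interior

/-- The part of the thin disc outside the wall is a proper disc in the cell of the collar. -/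
theorem esl_disc (hS : Sys θ R bR C bC η) {F J E : Set (Rn 3)} (hF : PDsc F J) {w : κ}
    {ϑ : Rn 3 → Rn 3} (h : LH ϑ)
    (hw : ∀ y ∈ R w \ bR w, ∀ t : ℝ, |t| ≤ 1 → ϑ (mk3 y t) ∈ cN (θ w) (R w \ bR w))
    {c : Set (Rn 2)} (hc : Crc c) (cW : c ⊆ R w \ bR w) (hE : PDsc E (ϑ '' lay c 0))
    (s1 : E ⊆ F \ J) (s2 : E ⊆ sO θ R bR C bC)
    (hA : ∀ y ∈ c, ∀ t : ℝ, |t| ≤ 1 → ϑ (mk3 y t) ∈ F) (hup : ∀ y ∈ c, ϑ (mk3 y 1) ∈ E)
    (P : ∀ x ∈ E, ∀ w', x ∈ cN (θ w') (R w' \ bR w') →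
      ∃ y ∈ c, ∃ t ∈ Icc (0 : ℝ) 1, x = ϑ (mk3 y t)) {k : μ}
    (col : ∀ y ∈ R w \ bR w, ∀ t : ℝ, 1 < t → t ≤ 1 + η → ϑ (mk3 y t) ∈ C k \ bC k) :
    ∃ E', PDsc E' (ϑ '' lay c 1) ∧ E' ⊆ E \ ϑ '' lay c 0 ∧ E' ⊆ C k ∧
      E' ∩ bC k = ϑ '' lay c 1 ∧ E ∩ C k ⊆ E' := by
  have hW : IsOpen (R w \ bR w) := (hS.rb w).interior_eq ▸ isOpen_interior
  have hU : IsOpen (⋃ k, (C k \ bC k)) := isOpen_iUnion (esl_cell hS)
  have lw : ∀ t : ℝ, |t| ≤ 1 → ϑ '' lay c t ⊆ cN (θ w) (R w \ bR w) := by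
    rintro t ht _ ⟨z, ⟨z1, z2⟩, rfl⟩
    have := hw _ (cW z1) (z 2) (z2 ▸ ht)
    rwa [mk3_pj3] at this
  have wU : Disjoint (cN (θ w) (R w \ bR w)) (⋃ k, (C k \ bC k)) :=
    disjoint_iUnion_right.2 (hS.wc w)
  obtain ⟨E', e1, e2, e3, e4⟩ := ethick hF hE s1 (J' := ϑ '' lay c 1)
    (N := ⋃ w, cN (θ w) (R w \ bR w)) (((crc_lay 1).2 hc).image h.tp h.inj.injOn) (by
      rintro _ ⟨z, ⟨z1, z2⟩, rfl⟩
      have := hup _ z1
      rwa [← z2, mk3_pj3] at this) hU s2 (wU.mono_left (lw 0 (by simp))) (by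
      intro x hx hN hcl
      obtain ⟨w', hw'⟩ := mem_iUnion.1 hN
      obtain ⟨y, hy, t, ⟨t0, t1⟩, rfl⟩ := P x hx w' hw'
      refine (esl_lay h).2 ⟨hy, le_antisymm t1 (not_lt.1 fun t2 => ?_)⟩
      obtain ⟨z, ⟨z1, z2, z3⟩, z4⟩ := mem_closure_iff.1 hcl _ (esl_open h hW (-1) 1) (by
        rw [mem_preimage, h.li]
        exact ⟨by simpa using cW hy, by simp only [mk3_2]; constructor <;> linarith only [t0, t2]⟩)
      have := hw _ z1 _ (abs_le.2 ⟨z2.le, z3.le⟩)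
      rw [mk3_pj3, h.ri] at this
      exact disjoint_left.1 wU this z4) (by
      intro x hx hN hJ
      obtain ⟨w', hw'⟩ := mem_iUnion.1 hN
      obtain ⟨y, hy, t, ⟨t0, t1⟩, rfl⟩ := P x hx w' hw'
      have t2 : t < 1 := lt_of_le_of_ne t1 fun e => hJ ((esl_lay h).2 ⟨hy, e⟩)
      refine ⟨_, esl_seg h y t, ⟨t, right_mem_uIcc, rfl⟩, ?_, _, ⟨0, left_mem_uIcc, rfl⟩,
        (esl_lay h).2 ⟨hy, rfl⟩⟩
      rintro _ ⟨u, hu, rfl⟩
      rw [uIcc_of_le t0] at hu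
      refine ⟨hA y hy u (abs_le.2 ⟨by linarith [hu.1], by linarith [hu.2]⟩), fun k => ?_⟩
      linarith [((esl_lay h).1 k).2, hu.2])
  have nw : ∀ x ∈ E' \ ϑ '' lay c 1, x ∉ cN (θ w) (R w \ bR w) := fun x hx k =>
    disjoint_left.1 e3 hx (mem_iUnion.2 ⟨w, k⟩)
  have hin : E' \ ϑ '' lay c 1 ⊆ C k \ bC k := by
    refine ((hS.cb k).side e1.conn_in.isPreconnected (disjoint_left.2 fun z hz hb => ?_)).resolve_right ?_
    · obtain ⟨k', hk'⟩ := mem_iUnion.1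
        ((s2 (e2 hz.1)).resolve_left fun j => disjoint_left.1 e3 hz j)
      have hcl : z ∈ closure (C k \ bC k) := (hS.cb k).closure_in.symm ▸ (hS.cb k).sub hb
      obtain ⟨q, q1, q2⟩ := mem_closure_iff.1 hcl _ (esl_cell hS k') hk'
      obtain rfl : k' = k := by_contra fun ne => disjoint_left.1 (hS.dc _ _ ne) q1 q2
      exact hk'.2 hb
    · intro hd
      obtain ⟨y, hy⟩ := hc.tcrc.conn.nonempty
      have hcl : ϑ (mk3 y 1) ∈ closure (E' \ ϑ '' lay c 1) :=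
        e1.cl.symm ▸ e1.sub ((esl_lay h).2 ⟨hy, rfl⟩)
      obtain ⟨z, ⟨z1, z2, z3⟩, z4⟩ := mem_closure_iff.1 hcl _ (esl_open h hW (-1) (1 + η)) (by
        rw [mem_preimage, h.li]
        exact ⟨by simpa using cW hy, by simp only [mk3_2]; constructor <;> linarith [hS.pos]⟩)
      rcases le_or_gt (invFun ϑ z 2) 1 with j | j
      · have := hw _ z1 _ (abs_le.2 ⟨z2.le, j⟩)
        rw [mk3_pj3, h.ri] at this
        exact nw z z4 this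
      · have := col _ z1 _ j z3.le
        rw [mk3_pj3, h.ri] at this
        exact disjoint_left.1 hd z4 this.1
  have hC : E' ⊆ C k := by
    rw [← e1.cl, ← (hS.cb k).closure_in]
    exact closure_mono hin
  refine ⟨E', e1, fun x hx => ⟨e2 hx, fun j => ?_⟩, hC, Subset.antisymm ?_ ?_, fun x hx => e4 ⟨hx.1, ?_⟩⟩
  · refine nw x ⟨hx, fun i => ?_⟩ (lw 0 (by simp) j)
    obtain ⟨z, ⟨z1, z2⟩, rfl⟩ := j
    rw [h.inj.mem_set_image] at i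
    linarith [i.2]
  · exact fun x hx => by_contra fun j => (hin ⟨hx.1, j⟩).2 hx.2
  · refine fun x hx => ⟨e1.sub hx, by_contra fun j => ?_⟩
    exact disjoint_left.1 (hS.wc w k) (lw 1 (by simp) hx) ⟨hC (e1.sub hx), j⟩
  · refine closure_mono (subset_iUnion (fun k => C k \ bC k) k) ?_
    rw [(hS.cb k).closure_in]
    exact hx.2

/-- Transport of the model move by a chart of either orientation. -/
theorem esl_move (hS : Sys θ R bR C bC η) {X E Z : Set (Rn 3)} {w : κ}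
    (h1 : Iw (cN (θ w) (R w \ bR w)) (cf (θ w)) X) {ϑ : Rn 3 → Rn 3} (h : LH ϑ) {s : ℝ}
    (hs : s = 1 ∨ s = -1) (e : ∀ y t, ϑ (mk3 y t) = θ w (mk3 y (s * t))) {c : Set (Rn 2)}
    (hc : Crc c) (cW : c ⊆ R w \ bR w) {k : μ}
    (col : ∀ y ∈ R w \ bR w, ∀ t : ℝ, 1 < t → t ≤ 1 + η → ϑ (mk3 y t) ∈ C k \ bC k)
    (hE : PDsc E (ϑ '' lay c 1)) (hC : E ⊆ C k) (hb : E ∩ bC k = ϑ '' lay c 1) (hZ : IsClosed Z)
    (hd : Disjoint Z E) (hX : X ∩ C k ⊆ E ∪ Z) :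
    ∃ Φ, Mv (sO θ R bR C bC) Φ ∧
      Trk1 (fun w => cN (θ w) (R w \ bR w)) (fun w => cf (θ w)) Φ X ∧
      ∀ x ∈ X, Φ x ∈ cN (θ w) (R w \ bR w) → x ∉ ϑ '' lay c 0 := by
  have hw : ∀ y t, ϑ (mk3 y t) ∈ cN (θ w) (R w \ bR w) ↔ y ∈ R w \ bR w ∧ |t| ≤ 1 := fun y t => by
    rw [e, mem_cN (hS.lh w), esl_abs hs]
  have hB := (hS.cb k).image h.inv
  have hE' := hE.image h.tpi h.inv.inj.injOn
  rw [esl_pre h, esl_pre h] at hB
  rw [h.inv_image, esl_pre h] at hE'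
  obtain ⟨Φ, m1, m2⟩ := moveL (X := ϑ ⁻¹' X) (Z := ϑ ⁻¹' Z) hS.pos (hS.rb w) hB col
    (fun y hy t ht j => disjoint_left.1 (hS.wc w k) ((hw y t).2 ⟨hy, ht⟩) j)
    (fun y hy t u ht hu j => by
      rw [mem_preimage, e] at j ⊢
      exact (iw_cN (hS.lh w)).1 h1 y hy _ _ ((esl_abs hs t).symm ▸ ht) ((esl_abs hs u).symm ▸ hu) j)
    hc cW hE' (preimage_mono hC) (by rw [← preimage_inter, hb, preimage_image_eq _ h.inj])
    (hZ.preimage h.tp.continuous) (hd.preimage ϑ) (fun x hx => hX hx)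
  have sp : ϑ '' ((ϑ ⁻¹' C k \ ϑ ⁻¹' bC k) ∪ {x | pj3 x ∈ R w \ bR w ∧ |x 2| < 1 + η}) ⊆
      cN (θ w) (R w \ bR w) ∪ ⋃ k, (C k \ bC k) := by
    rintro _ ⟨z, hz | ⟨z1, z2⟩, rfl⟩
    · exact Or.inr (mem_iUnion.2 ⟨k, hz⟩)
    · rw [← mk3_pj3 z]
      rcases le_or_gt |z 2| 1 with j | j
      · exact Or.inl ((hw _ _).2 ⟨z1, j⟩)
      rcases le_total 0 (z 2) with i | i
      · rw [abs_of_nonneg i] at j z2
        exact Or.inr (mem_iUnion.2 ⟨k, col _ z1 _ j z2.le⟩)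
      · rw [abs_of_nonpos i] at j z2
        obtain ⟨k', hk'⟩ := hS.col w (-s) (by rcases hs with rfl | rfl <;> simp)
        have := hk' _ z1 _ j z2.le
        rw [neg_mul_neg, ← e] at this
        exact Or.inr (mem_iUnion.2 ⟨k', this⟩)
  have mv := (m1.conj h).mono sp
  have main : ∀ x ∈ X, (ϑ ∘ Φ ∘ invFun ϑ) x ∈ cN (θ w) (R w \ bR w) →
      x ∈ cN (θ w) (R w \ bR w) ∧ x ∉ ϑ '' lay c 0 ∧ ∀ t ∈ Icc (-1 : ℝ) 1,
        (ϑ ∘ Φ ∘ invFun ϑ) (cf (θ w) x t) = cf (θ w) ((ϑ ∘ Φ ∘ invFun ϑ) x) t := by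
    intro x hx hm
    obtain ⟨z, rfl⟩ := h.1.2 x
    rw [comp_apply, comp_apply, h.li] at hm ⊢
    rw [← mk3_pj3 (Φ z), hw] at hm
    obtain ⟨a1, a2, a3, a4⟩ := m2 z hx hm.1 hm.2
    refine ⟨by rw [← mk3_pj3 z, hw]; exact ⟨a1, a2⟩, fun j => ?_, fun t ht => ?_⟩
    · rw [h.inj.mem_set_image] at j
      exact a3 j.1
    · have c1 : ∀ z : Rn 3, cf (θ w) (ϑ z) t = ϑ (mk3 (pj3 z) (s * t)) := fun z => by
        conv_lhs => rw [← mk3_pj3 z, e, cf_mk (hS.lh w)]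
        rw [e, esl_sq hs]
      rw [c1, c1, comp_apply, comp_apply, h.li,
        a4 _ ((esl_abs hs t).symm ▸ abs_le.2 ht)]
  refine ⟨_, mv.mono (union_subset_union_left _ (subset_iUnion (fun w => cN (θ w) (R w \ bR w)) w)),
    fun x hx w' hm => ?_, fun x hx hm => (main x hx hm).2.1⟩
  by_cases ne : w' = w
  · subst ne
    exact ⟨(main x hx hm).1, (main x hx hm).2.2⟩
  have fx : ∀ z ∈ cN (θ w') (R w' \ bR w'), (ϑ ∘ Φ ∘ invFun ϑ) z = z := fun z hz =>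
    mv.2 z fun j => j.elim (disjoint_left.1 (hS.dw _ _ ne) hz)
      (disjoint_left.1 (disjoint_iUnion_right.2 (hS.wc w')) hz)
  have ex : (ϑ ∘ Φ ∘ invFun ϑ) x = x := mv.1.inj (fx _ hm)
  rw [ex] at hm ⊢
  refine ⟨hm, fun t ht => fx _ ?_⟩
  obtain ⟨y, hy, u, -, rfl⟩ := esl_rep hm
  show cf (θ w') _ t ∈ _
  rw [cf_mk (hS.lh w')]
  exact (mem_cN (hS.lh w')).2 ⟨hy, abs_le.2 ht⟩

theorem stepL [Finite ι] (hS : Sys θ R bR C bC η) (hF : ESt F J)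
    (h1 : ∀ d w, Iw (cN (θ w) (R w \ bR w)) (cf (θ w)) (F d))
    (h2 : ∀ d w, Iw (cN (θ w) (R w \ bR w)) (cf (θ w)) (J d)) {d : ι} {w : κ} {E γ : Set (Rn 3)}
    (hE : PDsc E γ) (s1 : E ⊆ F d \ J d) (s2 : E ⊆ sO θ R bR C bC)
    (s3 : γ ⊆ Co (cN (θ w) (R w \ bR w)) (cf (θ w)))
    (s4 : ∀ w', Disjoint (E \ γ) (Co (cN (θ w') (R w' \ bR w')) (cf (θ w')))) :
    ∃ Φ, Mv (sO θ R bR C bC) Φ ∧
      Trk1 (fun w => cN (θ w) (R w \ bR w)) (fun w => cf (θ w)) Φ (⋃ d, F d) ∧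
      ∀ x ∈ ⋃ d, F d, Φ x ∈ cN (θ w) (R w \ bR w) → x ∉ γ := by
  have _ := h2
  have hθ := hS.lh w
  rw [co_cN hθ] at s3
  obtain ⟨c, cW, rfl⟩ : ∃ c ⊆ R w \ bR w, γ = θ w '' lay c 0 := by
    refine ⟨{y | θ w (mk3 y 0) ∈ γ}, fun y hy => ((esl_lay hθ).1 (s3 hy)).1, ?_⟩
    ext x
    constructor
    · intro hx
      obtain ⟨z, ⟨-, z2⟩, rfl⟩ := s3 hx
      refine ⟨z, ⟨?_, z2⟩, rfl⟩
      rwa [mem_ofPred_eq, ← z2, mk3_pj3]
    · rintro ⟨z, ⟨z1, z2⟩, rfl⟩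
      rwa [mem_ofPred_eq, ← z2, mk3_pj3] at z1
  have hc : Crc c := by
    have := hE.crc.image hθ.tpi hθ.inv.inj.injOn
    rwa [hθ.inv_image, crc_lay] at this
  have sF : E ⊆ F d := fun x hx => (s1 hx).1
  have hA : ∀ y ∈ c, ∀ t : ℝ, |t| ≤ 1 → θ w (mk3 y t) ∈ F d := fun y hy t ht =>
    (iw_cN hθ).1 (h1 d w) y (cW hy) 0 t (by simp) ht (sF (hE.sub ((esl_lay hθ).2 ⟨hy, rfl⟩)))
  obtain ⟨s, hs, sd⟩ := esl_side hθ (hF.dsc d) hc hE sF hA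
  have fl : LH fun x : Rn 3 => mk3 (pj3 x) (s * x 2) := by
    have tp : TP fun x : Rn 3 => mk3 (pj3 x) (s * x 2) :=
      tp_pj3.mk3 ((TP.id'.apply 2).const_mul s)
    have iv : ∀ x : Rn 3, mk3 (pj3 (mk3 (pj3 x) (s * x 2))) (s * mk3 (pj3 x) (s * x 2) 2) = x :=
      fun x => by rw [pj3_mk3, mk3_2, esl_sq hs, mk3_pj3]
    exact pa2_of_inv tp tp iv iv
  obtain ⟨ϑ, h, e⟩ : ∃ ϑ : Rn 3 → Rn 3, LH ϑ ∧ ∀ y t, ϑ (mk3 y t) = θ w (mk3 y (s * t)) :=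
    ⟨_, hθ.comp fl, fun y t => by rw [comp_apply, pj3_mk3, mk3_2]⟩
  have e0 : θ w '' lay c 0 = ϑ '' lay c 0 := by
    refine image_congr ?_
    rintro z ⟨-, z2⟩
    rw [← mk3_pj3 z, e, z2, mul_zero]
  obtain ⟨k, col⟩ := hS.col w s hs
  simp only [← e] at col
  have P : ∀ x ∈ E, ∀ w', x ∈ cN (θ w') (R w' \ bR w') →
      ∃ y ∈ c, ∃ t ∈ Icc (0 : ℝ) 1, x = ϑ (mk3 y t) := by
    intro x hx w' hw'
    obtain ⟨y, hy, t, ht, rfl⟩ := esl_fib hS (hF.dsc d) (h1 d) cW hE sF s4 hx hw'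
    rw [← esl_abs hs, abs_le] at ht
    refine ⟨y, hy, s * t, ⟨not_lt.1 fun j => ?_, ht.2⟩, by rw [e, esl_sq hs]⟩
    refine (sd y hy (-(s * t)) (by linarith) (by linarith [ht.1])).2 ?_
    rwa [neg_mul_neg, esl_sq hs]
  rw [e0] at hE ⊢
  obtain ⟨E', e1, e2, e3, e4, e5⟩ := esl_disc hS (hF.dsc d) h (w := w)
    (fun y hy t ht => by rw [e, mem_cN hθ, esl_abs hs]; exact ⟨hy, ht⟩) hc cW hE s1 s2
    (fun y hy t ht => by rw [e]; exact hA y hy _ ((esl_abs hs t).symm ▸ ht))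
    (fun y hy => by rw [e]; exact (sd y hy 1 one_pos le_rfl).1) P col
  refine esl_move hS (iw_iUnion fun d => h1 d w) h hs e hc cW col e1 e3 e4
    (Z := (⋃ d' : {d' // d' ≠ d}, F d') ∪ (F d \ (E \ ϑ '' lay c 0)))
    ((isClosed_iUnion_of_finite fun d' : {d' // d' ≠ d} => (hF.dsc d'.1).cpt.isClosed).union
      (sd_open (hF.dsc d) hE sF).1) (disjoint_left.2 ?_) ?_
  · rintro x (hx | hx) hx'
    · obtain ⟨d', hd'⟩ := mem_iUnion.1 hx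
      exact disjoint_left.1 (hF.dis d d' d'.2.symm) (s1 (e2 hx').1) hd'
    · exact hx.2 (e2 hx')
  · rintro x ⟨hx, hx'⟩
    obtain ⟨d', hd'⟩ := mem_iUnion.1 hx
    by_cases ne : d' = d
    · subst ne
      by_cases j : x ∈ E \ ϑ '' lay c 0
      · exact Or.inl (e5 ⟨j.1, hx'⟩)
      · exact Or.inr (Or.inr ⟨hd', j⟩)
    · exact Or.inr (Or.inl (mem_iUnion.2 ⟨⟨d', ne⟩, hd'⟩))

end BEp
end
end

-- merged part: Pool.Agent.Work.MP_f0515e_an.D3.ESL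
section
/-! All loops are removed in a system of walls and cells.
`stepL`: `γ = θ w '' lay c 0`, `c ⊆ R w \ bR w` a circle. The annulus `A = θ w '' (c × [-1, 1])` lies in `F d \ J d` (`iw_diff`). Its open halves `A±` are connected and miss `γ`; one of them lies in
`E \ γ` (`sd_side`; at a point of `γ` a band over a subarc of `c`, `pdsc_band`, is relatively open in `F d` by `sd_open`, and `PCel.cl`). Replace `θ w` by `θ w ∘ (x ↦ update x 2 (-x 2))` if it is the lower one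
(state the core of the proof for a chart `θ'` with `cN θ' = cN (θ w)` and `cf θ' x t = cf (θ w) x (s * t)`). Every point of `E` in a wall `w'` has its fibre in `F d`; the half open fibre towards the core meets a core point,
which is not in `E \ γ`, so (`sd_side`) the fibre meets `γ`, `w' = w` and the point is in the closed upper half of `A` (the open lower half misses `E`: else both halves lie in `E \ γ` and a band is open in `F d` and inside `E`, but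
`γ` is the frontier of `E` in `F d`: use `sd_open` for the band, which is a subdisc of `E`, against `γ`). Apply `ethick` with `N` = union of the walls, `U` = union of the open cells, `J' = θ w '' lay c 1`
(points of a wall at height `|t| < 1` are not in the closure of `U`). `E' \ J'` is connected, in `U`, accumulates on `J'`, so lies in the open cell `k` of the collar. `Z = ⋃ (d' ≠ d) F d' ∪ (F d \ (E \ γ))`.
Pull back by the chart, `moveL`, conjugate (`Mv.conj`); other walls are off the support.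
`smL`: induction on the number of pairs (wall, circle in `X ∩` core) (`fin_crc`); `γ' ↦ invFun Φ '' γ'` maps new circles injectively to old circles other than `γ`.
`smL_noC`: `F ∩` wall is closed (a limit point lies in the region, not in an open cell, not in another wall since wall and collars are open), `esec` for every wall, `mini` with `𝒱 = ∅`.
About 600 lines; split into ESL1 (`stepL`) and ESL. -/

open Set Metric Filter Topology Function BEv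
open scoped NNReal

noncomputable section
namespace BEp

variable {n m : ℕ}

variable {ι κ μ : Type} {θ : κ → Rn 3 → Rn 3} {R bR : κ → Set (Rn 2)} {C bC : μ → Set (Rn 3)}
  {η : ℝ} {F J : ι → Set (Rn 3)}

theorem ESL_open {n : ℕ} {B S : Set (Rn n)} (h : Ball B S) : IsOpen (B \ S) :=
  h.interior_eq ▸ isOpen_interior

/-- The circles of `X` in the cores. -/
def ESL_P (θ : κ → Rn 3 → Rn 3) (R bR : κ → Set (Rn 2)) (X : Set (Rn 3)) :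
    Set (κ × Set (Rn 3)) :=
  {p | Crc p.2 ∧ p.2 ⊆ X ∩ Co (cN (θ p.1) (R p.1 \ bR p.1)) (cf (θ p.1))}

theorem ESL_fin [Finite ι] [Finite κ] (hS : Sys θ R bR C bC η) (hF : ESt F J)
    (h1 : ∀ d w, Iw (cN (θ w) (R w \ bR w)) (cf (θ w)) (F d)) :
    (ESL_P θ R bR (⋃ d, F d)).Finite := by
  refine (finite_iUnion fun w : κ => (fin_crc (hS.lh w) (hS.rb w) hF.poly.1 hF.poly.2
    (iw_iUnion fun d => h1 d w)).image (Prod.mk w)).subset ?_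
  rintro ⟨w, γ⟩ hp
  exact mem_iUnion.2 ⟨w, γ, hp, rfl⟩

theorem ESL_lt {X γ : Set (Rn 3)} {Φ : Rn 3 → Rn 3} (hΦ : LH Φ) {w : κ}
    (hfin : (ESL_P θ R bR X).Finite) (hγ : (w, γ) ∈ ESL_P θ R bR X)
    (hT : Trk1 (fun w => cN (θ w) (R w \ bR w)) (fun w => cf (θ w)) Φ X)
    (hx : ∀ x ∈ X, Φ x ∈ cN (θ w) (R w \ bR w) → x ∉ γ) :
    (ESL_P θ R bR (Φ '' X)).ncard < (ESL_P θ R bR X).ncard := by
  refine lt_of_le_of_lt (ncard_le_ncard_of_injOn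
    (fun p : κ × Set (Rn 3) => (p.1, invFun Φ '' p.2)) (t := ESL_P θ R bR X \ {(w, γ)}) ?_ ?_
    hfin.sdiff) (ncard_sdiff_singleton_lt_of_mem hγ hfin)
  · rintro ⟨v, c⟩ ⟨hc, hs⟩
    refine ⟨⟨hc.image hΦ.tpi hΦ.inv.inj.injOn, ?_⟩, fun e => ?_⟩
    · rintro _ ⟨z, hz, rfl⟩
      obtain ⟨⟨x, hxX, rfl⟩, k1, k2⟩ := hs hz
      obtain ⟨k3, k4⟩ := hT x hxX v k1
      rw [hΦ.li]
      exact ⟨hxX, k3, hΦ.inj ((k4 0 ⟨by norm_num, by norm_num⟩).trans k2)⟩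
    · obtain ⟨rfl, e2⟩ := Prod.ext_iff.1 (mem_singleton_iff.1 e)
      obtain ⟨z, hz⟩ := hc.tcrc.conn.nonempty
      obtain ⟨⟨x, hxX, rfl⟩, k1, -⟩ := hs hz
      refine hx x hxX k1 ?_
      have : invFun Φ (Φ x) ∈ invFun Φ '' c := mem_image_of_mem _ hz
      rw [hΦ.li] at this
      exact (show invFun Φ '' c = γ from e2) ▸ this
  · rintro ⟨v, c⟩ - ⟨v', c'⟩ - e
    obtain ⟨e1, e2⟩ := Prod.ext_iff.1 e
    exact Prod.ext e1 ((image_injective.2 hΦ.inv.inj) e2)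

theorem ESL_ind [Finite ι] [Finite κ] (hS : Sys θ R bR C bC η) (N : ℕ) :
    ∀ F J : ι → Set (Rn 3), ESt F J → (∀ d w, Iw (cN (θ w) (R w \ bR w)) (cf (θ w)) (F d)) →
    (∀ d w, Iw (cN (θ w) (R w \ bR w)) (cf (θ w)) (J d)) →
    (ESL_P θ R bR (⋃ d, F d)).ncard = N →
    ∃ Φ, Mv (sO θ R bR C bC) Φ ∧
      Trk1 (fun w => cN (θ w) (R w \ bR w)) (fun w => cf (θ w)) Φ (⋃ d, F d) ∧
      ∀ d, NoL (fun w => cN (θ w) (R w \ bR w)) (fun w => cf (θ w)) (sO θ R bR C bC)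
        (Φ '' F d) (Φ '' J d) := by
  induction N using Nat.strong_induction_on with
  | _ N ih =>
  intro F J hF h1 h2 hN
  by_cases hL : ∀ d, NoL (fun w => cN (θ w) (R w \ bR w)) (fun w => cf (θ w)) (sO θ R bR C bC)
      (F d) (J d)
  · exact ⟨id, Mv.id' _, fun x _ w hx => ⟨hx, fun _ _ => rfl⟩, fun d => by
      rw [image_id, image_id]; exact hL d⟩
  obtain ⟨d, hd⟩ := not_forall.1 hL
  simp only [NoL, not_forall, not_exists, not_nonempty_iff_eq_empty] at hd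
  obtain ⟨w, E, γ, hE, s1, s2, s3, s4⟩ := hd
  obtain ⟨Φ, k1, k2, k3⟩ := stepL hS hF h1 h2 hE s1 s2 s3
    fun w' => disjoint_iff_inter_eq_empty.2 (s4 w')
  have hγ : (w, γ) ∈ ESL_P θ R bR (⋃ d, F d) :=
    ⟨PCel.crc hE, fun x hx => ⟨mem_iUnion.2 ⟨d, (s1 (hE.sub hx)).1⟩, s3 hx⟩⟩
  have hlt := ESL_lt k1.1 (ESL_fin hS hF h1) hγ k2 k3
  rw [image_iUnion, hN] at hlt
  obtain ⟨Ψ, l1, l2, l3⟩ := ih _ hlt (fun d => Φ '' F d) (fun d => Φ '' J d) (hF.image k1.1)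
    (fun d w => (k2.trk.mono (subset_iUnion F d)).iw (h1 d) w)
    (fun d w => (k2.trk.mono ((hF.dsc d).sub.trans (subset_iUnion F d))).iw (h2 d) w) rfl
  refine ⟨Ψ ∘ Φ, l1.comp k1, k2.comp (by rw [image_iUnion]; exact l2), fun d => ?_⟩
  rw [image_comp, image_comp]
  exact l3 d

theorem smL [Finite ι] [Finite κ] (hS : Sys θ R bR C bC η) (hF : ESt F J)
    (h1 : ∀ d w, Iw (cN (θ w) (R w \ bR w)) (cf (θ w)) (F d))
    (h2 : ∀ d w, Iw (cN (θ w) (R w \ bR w)) (cf (θ w)) (J d)) :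
    ∃ Φ, Mv (sO θ R bR C bC) Φ ∧
      Trk1 (fun w => cN (θ w) (R w \ bR w)) (fun w => cf (θ w)) Φ (⋃ d, F d) ∧
      ∀ d, NoL (fun w => cN (θ w) (R w \ bR w)) (fun w => cf (θ w)) (sO θ R bR C bC)
        (Φ '' F d) (Φ '' J d) :=
  ESL_ind hS _ F J hF h1 h2 rfl

/-- A wall together with its open collars is open and lies in the wall or in the open cells. -/
theorem ESL_nb (hS : Sys θ R bR C bC η) (w : κ) : ∃ O, IsOpen O ∧ cN (θ w) (R w \ bR w) ⊆ O ∧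
    O ⊆ cN (θ w) (R w \ bR w) ∪ ⋃ k, (C k \ bC k) := by
  obtain ⟨e, he, -⟩ := (hS.lh w).homeo
  refine ⟨θ w '' {x | pj3 x ∈ R w \ bR w ∧ |x 2| < 1 + η}, ?_,
    image_mono fun x hx => ⟨hx.1, hx.2.trans_lt (by linarith [hS.pos])⟩, ?_⟩
  · rw [← he]
    exact e.isOpenMap _ (((ESL_open (hS.rb w)).preimage tp_pj3.continuous).inter
      (isOpen_lt (continuous_apply 2).abs continuous_const))
  · rintro _ ⟨x, ⟨k1, k2⟩, rfl⟩
    by_cases k3 : |x 2| ≤ 1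
    · exact Or.inl ⟨x, ⟨k1, k3⟩, rfl⟩
    refine Or.inr ?_
    rcases le_total 0 (x 2) with k4 | k4
    · rw [abs_of_nonneg k4] at k2 k3
      obtain ⟨k, hk⟩ := hS.col w 1 (Or.inl rfl)
      have := hk _ k1 (x 2) (not_le.1 k3) k2.le
      rw [one_mul, mk3_pj3] at this
      exact mem_iUnion.2 ⟨k, this⟩
    · rw [abs_of_nonpos k4] at k2 k3
      obtain ⟨k, hk⟩ := hS.col w (-1) (Or.inr rfl)
      have := hk _ k1 (-x 2) (not_le.1 k3) k2.le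
      rw [neg_mul_neg, one_mul, mk3_pj3] at this
      exact mem_iUnion.2 ⟨k, this⟩

theorem sys_closed (hS : Sys θ R bR C bC η) {F : Set (Rn 3)} (hF : IsClosed F)
    (hs : F ⊆ sO θ R bR C bC) (w : κ) : IsClosed (F ∩ cN (θ w) (R w \ bR w)) := by
  refine isClosed_of_closure_subset fun x hx => ?_
  have hxF : x ∈ F := hF.closure_subset (closure_mono inter_subset_left hx)
  have hc : ∀ y ∈ cN (θ w) (R w \ bR w), y ∉ ⋃ k, (C k \ bC k) := fun y hy k => by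
    obtain ⟨k, hk⟩ := mem_iUnion.1 k
    exact disjoint_left.1 (hS.wc w k) hy hk
  refine ⟨hxF, ?_⟩
  rcases hs hxF with k | k
  · obtain ⟨w', hw'⟩ := mem_iUnion.1 k
    by_contra k1
    have hne : w ≠ w' := fun e => k1 (e ▸ hw')
    obtain ⟨O, o1, o2, o3⟩ := ESL_nb hS w'
    obtain ⟨y, y1, -, y2⟩ := mem_closure_iff.1 hx O o1 (o2 hw')
    rcases o3 y1 with k2 | k2
    · exact disjoint_left.1 (hS.dw w w' hne) y2 k2
    · exact hc y y2 k2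
  · obtain ⟨y, y1, -, y2⟩ := mem_closure_iff.1 hx _
      (isOpen_iUnion fun k => ESL_open (hS.cb k)) k
    exact (hc y y2 y1).elim

theorem smL_noC [Finite κ] (hS : Sys θ R bR C bC η) {F J : Set (Rn 3)} (hF : PDsc F J)
    (h1 : ∀ w, Iw (cN (θ w) (R w \ bR w)) (cf (θ w)) F)
    (h2 : ∀ w, Iw (cN (θ w) (R w \ bR w)) (cf (θ w)) J) (hs : F ⊆ sO θ R bR C bC)
    (h : NoL (fun w => cN (θ w) (R w \ bR w)) (fun w => cf (θ w)) (sO θ R bR C bC) F J) :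
    NoC (fun w => cN (θ w) (R w \ bR w)) (fun w => cf (θ w)) F := by
  intro w γ hγ hsub
  have hcl := sys_closed hS hF.cpt.isClosed hs
  choose 𝒞 c1 c2 c3 c4 using fun w =>
    esec (hS.lh w) (ESL_open (hS.rb w)) hF (h1 w) (h2 w) (hcl w)
  have hU : ∀ x, x ∈ ⋃₀ (⋃ w, 𝒞 w) ↔ ∃ w, x ∈ F ∩ Co (cN (θ w) (R w \ bR w)) (cf (θ w)) := by
    intro x
    constructor
    · rintro ⟨K, hK, hx⟩
      obtain ⟨v, hv⟩ := mem_iUnion.1 hK
      exact ⟨v, c2 v ▸ ⟨K, hv, hx⟩⟩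
    · rintro ⟨v, hv⟩
      rw [← c2 v] at hv
      obtain ⟨K, hK, hx⟩ := hv
      exact ⟨K, mem_iUnion.2 ⟨v, hK⟩, hx⟩
  have hKs : ∀ v, ∀ K ∈ 𝒞 v, K ⊆ F ∩ Co (cN (θ v) (R v \ bR v)) (cf (θ v)) := fun v K hK =>
    c2 v ▸ subset_sUnion_of_mem hK
  have hdis : (⋃ w, 𝒞 w).PairwiseDisjoint id := by
    intro K hK K' hK' hne
    obtain ⟨v, hv⟩ := mem_iUnion.1 hK
    obtain ⟨v', hv'⟩ := mem_iUnion.1 hK'
    by_cases e : v = v'
    · exact c3 v hv (e ▸ hv') hne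
    · exact (hS.dw v v' e).mono (fun x hx => (hKs v K hv hx).2.1)
        fun x hx => (hKs v' K' hv' hx).2.1
  rcases mini hF (𝒰 := ⋃ w, 𝒞 w) (𝒱 := ∅) (finite_iUnion c1) finite_empty hdis
      pairwiseDisjoint_empty
      (fun K hK => by
        rw [union_empty] at hK
        obtain ⟨v, hv⟩ := mem_iUnion.1 hK
        exact ⟨fun x hx => (hKs v K hv hx).1, c4 v K hv⟩)
      (fun z hz => by simp at hz)
      (Or.inl ⟨γ, hγ, Or.inl fun x hx => (hU x).2 ⟨w, hsub hx⟩⟩) with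
    ⟨E, c, e1, e2, e3, e4⟩ | ⟨E, α, β, p, q, -, -, -, e4, -, -, e7, -⟩
  · have hc := PDsc.conn_bd e1
    obtain ⟨z, hz⟩ := hc.nonempty
    rcases e3 with ⟨e3, -⟩ | ⟨e3, -⟩
    · obtain ⟨v, hv⟩ := (hU z).1 (e3 hz)
      have hcv : c ⊆ Co (cN (θ v) (R v \ bR v)) (cf (θ v)) := by
        rcases isPreconnected_iff_subset_of_disjoint_closed.1 hc.isPreconnected
          (F ∩ cN (θ v) (R v \ bR v)) (⋃ u : {u // u ≠ v}, F ∩ cN (θ u) (R u \ bR u)) (hcl v)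
          (isClosed_iUnion_of_finite fun u => hcl u)
          (fun x hx => by
            obtain ⟨u, hu⟩ := (hU x).1 (e3 hx)
            by_cases e : u = v
            · exact Or.inl (e ▸ ⟨hu.1, hu.2.1⟩)
            · exact Or.inr (mem_iUnion.2 ⟨⟨u, e⟩, hu.1, hu.2.1⟩))
          (eq_empty_of_forall_notMem fun x hx => by
            obtain ⟨u, hu⟩ := mem_iUnion.1 hx.2.2
            exact disjoint_left.1 (hS.dw _ _ u.2) hu.2 hx.2.1.2) with k | k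
        · intro x hx
          obtain ⟨u, hu⟩ := (hU x).1 (e3 hx)
          by_cases e : u = v
          · exact e ▸ hu.2
          · exact (disjoint_left.1 (hS.dw _ _ e) hu.2.1 (k hx).2).elim
        · obtain ⟨u, hu⟩ := mem_iUnion.1 (k hz)
          exact (disjoint_left.1 (hS.dw _ _ u.2) hu.2 hv.2.1).elim
      obtain ⟨u, y, y1, y2⟩ := h v E c e1 e2 (fun x hx => hs (e2 hx).1) hcv
      exact disjoint_left.1 e4 y1 (Or.inl ((hU y).2 ⟨u, (e2 y1.1).1, y2⟩))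
    · simpa using e3 hz
  · have : p ∈ α ∩ β := e4 ▸ mem_insert p {q}
    simpa using e7 this.2

end BEp
end
end

-- merged part: Pool.Agent.Work.MP_f0515e_an.D3.EBx1
section
/-! Gaps of the levels of a box, and the cells between them. -/

open Set Metric Filter Topology Function BEv
open scoped NNReal

noncomputable section
namespace BEp

variable {n m : ℕ}

variable {L : Fin 3 → Set ℝ} {lo hi : Rn 3}

theorem bx_gap (hB : EBx L lo hi) {i : Fin 3} {a a' : ℝ} (h : Gap (Lx L lo hi i) a a') :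
    lo i ≤ a + 3 ∧ a' - 3 ≤ hi i ∧ a + 6 < a' ∧ (a ∈ L i ∨ a' ∈ L i → a + 10 ≤ a') ∧
      (a ∈ L i ∨ a = lo i - 3) ∧ (a' ∈ L i ∨ a' = hi i + 3) := by
  obtain ⟨h1, h2, h3, -⟩ := h
  have k := hB.lt i
  have k1 : a ∈ L i ∨ a = lo i - 3 := by
    rcases h1 with h1 | h1 | h1
    · exact Or.inr h1
    · rcases h2 with h2 | h2 | h2
      · linarith
      · linarith
      · linarith [(hB.inn i a' h2).2]
    · exact Or.inl h1
  have k2 : a' ∈ L i ∨ a' = hi i + 3 := by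
    rcases h2 with h2 | h2 | h2
    · rcases k1 with k1 | k1
      · linarith [(hB.inn i a k1).1]
      · linarith
    · exact Or.inr h2
    · exact Or.inl h2
  have k3 : a ∈ L i ∨ a' ∈ L i → a + 10 ≤ a' := by
    rintro (e | e)
    · exact k2.elim (fun e' => hB.gap i a e a' e' h3) fun e' => by linarith [(hB.inn i a e).2]
    · exact k1.elim (fun e' => hB.gap i a e' a' e h3) fun e' => by linarith [(hB.inn i a' e).1]
  refine ⟨k1.elim (fun e => by linarith [(hB.inn i a e).1]) fun e => by linarith,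
    k2.elim (fun e => by linarith [(hB.inn i a' e).2]) fun e => by linarith, ?_, k3, k1, k2⟩
  rcases k1 with e | e
  · linarith [k3 (Or.inl e)]
  · exact k2.elim (fun e' => by linarith [k3 (Or.inr e')]) fun e' => by linarith

theorem bx_gap_ex (hB : EBx L lo hi) {i : Fin 3} {t : ℝ} (h1 : lo i - 3 ≤ t) (h2 : t < hi i + 3) :
    ∃ a a', Gap (Lx L lo hi i) a a' ∧ a ≤ t ∧ t < a' := by
  have hf : (Lx L lo hi i).Finite := ((hB.fin i).insert _).insert _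
  obtain ⟨a, a1, a2⟩ := exists_max_image {τ ∈ Lx L lo hi i | τ ≤ t} id (hf.sep _) ⟨_, Or.inl rfl, h1⟩
  obtain ⟨b, b1, b2⟩ := exists_min_image {τ ∈ Lx L lo hi i | t < τ} id (hf.sep _)
    ⟨_, Or.inr (Or.inl rfl), h2⟩
  exact ⟨a, b, ⟨a1.1, b1.1, a1.2.trans_lt b1.2, fun τ hτ =>
    (le_or_gt τ t).imp (fun k => a2 τ ⟨hτ, k⟩) fun k => b2 τ ⟨hτ, k⟩⟩, a1.2, b1.2⟩

theorem EBx1_mid (hB : EBx L lo hi) {i : Fin 3} {a a' : ℝ} (h : Gap (Lx L lo hi i) a a') :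
    ∃ t, lo i < t ∧ t < hi i ∧ a + 2 < t ∧ t < a' - 2 := by
  obtain ⟨-, -, h3, -, h5, h6⟩ := bx_gap hB h
  have k := hB.lt i
  obtain ⟨t, t1, t2⟩ : ∃ t, max (lo i) (a + 2) < t ∧ t < min (hi i) (a' - 2) := exists_between
    (max_lt (lt_min k (h6.elim (fun e => by linarith [(hB.inn i a' e).1]) fun e => by linarith))
      (lt_min (h5.elim (fun e => by linarith [(hB.inn i a e).2]) fun e => by linarith) (by linarith)))
  exact ⟨t, (max_lt_iff.1 t1).1, (lt_min_iff.1 t2).1, (max_lt_iff.1 t1).2, (lt_min_iff.1 t2).2⟩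

theorem EBx1_st {ε c u v w : ℝ} (hε : 0 < ε) (h1 : c ≤ w) (h2 : c < v) (e : w = u + ε * (u - v)) :
    c < u := by
  by_contra k
  linarith only [h1, e, k, hε, h2, not_lt.1 k, mul_pos_of_neg_of_neg (Mathlib.Tactic.Linarith.sub_neg_of_lt hε) (Mathlib.Tactic.Linarith.sub_neg_of_lt h2), mul_nonneg_of_nonpos_of_nonpos (le_of_lt (Mathlib.Tactic.Linarith.sub_neg_of_lt hε)) (Mathlib.Tactic.Linarith.sub_nonpos_of_le (le_of_not_gt k))]

theorem EBx1_st' {ε c u v w : ℝ} (hε : 0 < ε) (h1 : w ≤ c) (h2 : v < c) (e : w = u + ε * (u - v)) :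
    u < c := by
  by_contra k
  linarith only [h1, e, k, hε, h2, not_lt.1 k, mul_pos_of_neg_of_neg (Mathlib.Tactic.Linarith.sub_neg_of_lt hε) (Mathlib.Tactic.Linarith.sub_neg_of_lt h2), mul_nonneg_of_nonpos_of_nonpos (le_of_lt (Mathlib.Tactic.Linarith.sub_neg_of_lt hε)) (Mathlib.Tactic.Linarith.sub_nonpos_of_le (le_of_not_gt k))]

theorem bx_cell (hB : EBx L lo hi) {a a' b b' : ℝ} (ha : Gap (Lx L lo hi 0) a a')
    (hb : Gap (Lx L lo hi 1) b b') :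
    Ball (bC lo hi a a' b b') (bC lo hi a a' b b' \ bU lo hi a a' b b') := by
  have t0 : TP fun x : Rn 3 => x 0 := TP.id'.apply 0
  have t1 : TP fun x : Rn 3 => x 1 := TP.id'.apply 1
  have hP : Poly (bC lo hi a a' b b') := by
    have := poly_le (ball_box hB.lt).poly (((TP.const (a + 1)).sub t0).max
      ((t0.sub (TP.const (a' - 1))).max (((TP.const (b + 1)).sub t1).max
      ((t1.sub (TP.const (b' - 1))).max
      (((TP.const 4).sub ((t0.sub (TP.const a)).add (t1.sub (TP.const b)))).max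
      (((TP.const 4).sub (((TP.const a').sub t0).add (t1.sub (TP.const b)))).max
      (((TP.const 4).sub ((t0.sub (TP.const a)).add ((TP.const b').sub t1))).max
      ((TP.const 4).sub (((TP.const a').sub t0).add ((TP.const b').sub t1))))))))))
    simpa only [max_le_iff, sub_nonpos, bC] using this
  have hc : Convex ℝ (bC lo hi a a' b b') := by
    rintro x ⟨x0, x1, x2, x3, x4, x5, x6, x7, x8⟩ y ⟨y0, y1, y2, y3, y4, y5, y6, y7, y8⟩ s t hs ht hst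
    obtain rfl : t = 1 - s := by linarith only [hst]
    have k : ∀ {c u v : ℝ}, c ≤ u → c ≤ v → c ≤ s * u + (1 - s) * v := fun h h' => by
      linarith [mul_le_mul_of_nonneg_left h hs, mul_le_mul_of_nonneg_left h' ht]
    have k' : ∀ {c u v : ℝ}, u ≤ c → v ≤ c → s * u + (1 - s) * v ≤ c := fun h h' => by
      linarith [mul_le_mul_of_nonneg_left h hs, mul_le_mul_of_nonneg_left h' ht]
    refine ⟨convex_Icc lo hi x0 y0 hs ht hst, k x1 y1, k' x2 y2, k x3 y3, k' x4 y4,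
      (k x5 y5).trans_eq ?_, (k x6 y6).trans_eq ?_, (k x7 y7).trans_eq ?_, (k x8 y8).trans_eq ?_⟩ <;>
    simp only [Pi.add_apply, Pi.smul_apply, smul_eq_mul] <;> ring
  have hO : IsOpen (bU lo hi a a' b b') := by
    have c0 := t0.continuous
    have c1 := t1.continuous
    simp only [bU, bO, ofPred_and, ofPred_forall]
    refine (isOpen_iInter_of_finite fun i => (isOpen_lt continuous_const (continuous_apply i)).inter
      (isOpen_lt (continuous_apply i) continuous_const)).inter ?_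
    refine IsOpen.inter ?_ (IsOpen.inter ?_ (IsOpen.inter ?_ (IsOpen.inter ?_ (IsOpen.inter ?_
      (IsOpen.inter ?_ (IsOpen.inter ?_ ?_)))))) <;> exact isOpen_lt (by fun_prop) (by fun_prop)
  have hs : bU lo hi a a' b b' ⊆ bC lo hi a a' b b' := fun x ⟨x0, x1, x2, x3, x4, x5, x6, x7, x8⟩ =>
    ⟨⟨fun i => (x0 i).1.le, fun i => (x0 i).2.le⟩, x1.le, x2.le, x3.le, x4.le, x5.le, x6.le, x7.le, x8.le⟩
  obtain ⟨z, hz⟩ : (bU lo hi a a' b b').Nonempty := by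
    obtain ⟨s, s1, s2, s3, s4⟩ := EBx1_mid hB ha
    obtain ⟨t, t1, t2, t3, t4⟩ := EBx1_mid hB hb
    obtain ⟨u, u1, u2⟩ := exists_between (hB.lt 2)
    refine ⟨![s, t, u], fun i => ?_, ?_⟩
    · fin_cases i
      exacts [⟨s1, s2⟩, ⟨t1, t2⟩, ⟨u1, u2⟩]
    · simp only [Matrix.cons_val_zero, Matrix.cons_val_one]
      refine ⟨?_, ?_, ?_, ?_, ?_, ?_, ?_, ?_⟩ <;> linarith only [s3, s4, t3, t4]
  have hi' : interior (bC lo hi a a' b b') = bU lo hi a a' b b' := by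
    refine (interior_maximal hs hO).antisymm' fun x hx => ?_
    have c : ContinuousAt (fun ε : ℝ => x + ε • (x - z)) 0 := by fun_prop
    have c' : ∀ᶠ ε in 𝓝 (0 : ℝ), x + ε • (x - z) ∈ bC lo hi a a' b b' :=
      c.preimage_mem_nhds (by simpa using mem_interior_iff_mem_nhds.1 hx)
    obtain ⟨ε, ⟨y0, y1, y2, y3, y4, y5, y6, y7, y8⟩, hε⟩ :=
      ((c'.filter_mono nhdsWithin_le_nhds).and (self_mem_nhdsWithin (s := Ioi 0))).exists
    obtain ⟨z0, z1, z2, z3, z4, z5, z6, z7, z8⟩ := hz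
    refine ⟨fun i => ⟨EBx1_st hε (y0.1 i) (z0 i).1 rfl, EBx1_st' hε (y0.2 i) (z0 i).2 rfl⟩,
      EBx1_st hε y1 z1 rfl, EBx1_st' hε y2 z2 rfl, EBx1_st hε y3 z3 rfl, EBx1_st' hε y4 z4 rfl,
      EBx1_st hε y5 z5 ?_, EBx1_st hε y6 z6 ?_, EBx1_st hε y7 z7 ?_, EBx1_st hε y8 z8 ?_⟩ <;>
    simp only [Pi.add_apply, Pi.smul_apply, Pi.sub_apply, smul_eq_mul] <;> ring
  have := convex_ball hP hc ⟨z, hi'.symm ▸ hz⟩
  rwa [hP.1.isClosed.frontier_eq, hi'] at this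

end BEp
end
end

-- merged part: Pool.Agent.Work.MP_f0515e_an.D3.EBx
section
/-! The box as a system of walls and cells.
`bx_cell`: `convex_ball` (`Poly` by `poly_Icc` and `poly_le`; `bU` is open, convex, nonempty: the point with coordinates the midpoints of `[max lo (a + 2), min hi (a' - 2)]`; the interior of `bC` is `bU` since a point with an
equality has points outside `bC` nearby, or use `Ball.eq_of_frontier`/`Convex.closure_interior_eq_closure_of_nonempty_interior`). Facts on gaps of `Lx`: `a + 10 ≤ a'` unless both are virtual (then `a' - a > 6`),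
`lo i ≤ a + 3`, `a' - 3 ≤ hi i`, every `t` with `lo i < t < hi i` lies in `[a, a')` for a gap.
`bx_sys`: walls indexed by `(i, a, b, b')`, `i ≠ 2`, `a ∈ L i`, `Gap (Lx j) b b'` for the other direction `j`; `θ` as in `bx_chart`, `R = Icc ![b + 3, lo 2] ![b' - 3, hi 2]` (`ball_box`); cells indexed by two gaps; `η = 1`.
`stageL`: `smL` for this system. `tub`: the tubes are off the support. `hp`, `trk`: a point of a wall outside the tubes is in a wall of the system; a point of a wall in a tube has its fibre in the same tube (`gap`).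
About 500 lines; split into EBx1 (`bx_cell`, gaps) and EBx. -/

open Set Metric Filter Topology Function BEv
open scoped NNReal

noncomputable section
namespace BEp

variable {n m : ℕ}

variable {L : Fin 3 → Set ℝ} {lo hi : Rn 3}

/-- The other horizontal direction. -/
def EBx_ot (i : Fin 3) : Fin 3 := if i = 0 then 1 else 0

/-- The chart of the level `a` in the direction `i`, and its inverse. -/
def EBx_th (i : Fin 3) (a : ℝ) (x : Rn 3) : Rn 3 :=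
  fun k => if k = i then a + x 2 else if k = 2 then x 1 else x 0
def EBx_ps (i : Fin 3) (a : ℝ) (x : Rn 3) : Rn 3 := ![x (EBx_ot i), x 2, x i - a]

/-- A wall of the system. -/
def EBx_W (lo hi : Rn 3) (i : Fin 3) (a b b' : ℝ) : Set (Rn 3) :=
  {x | |x i - a| ≤ 1 ∧ b + 3 < x (EBx_ot i) ∧ x (EBx_ot i) < b' - 3 ∧ lo 2 < x 2 ∧ x 2 < hi 2}

theorem EBx_two (hB : EBx L lo hi) {i : Fin 3} {a : ℝ} (ha : a ∈ L i) : i = 0 ∨ i = 1 := by
  have : i ≠ 2 := fun e => by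
    rw [e, hB.two] at ha
    exact ha
  omega

theorem EBx_Lx {i : Fin 3} {a : ℝ} (ha : a ∈ L i) : a ∈ Lx L lo hi i := Or.inr (Or.inr ha)

theorem EBx_near (hB : EBx L lo hi) {i : Fin 3} {a b t : ℝ} (ha : a ∈ L i) (hb : b ∈ L i)
    (h1 : |t - a| ≤ 3) (h2 : |t - b| ≤ 3) : a = b := by
  rw [abs_le] at h1 h2
  rcases lt_trichotomy a b with h | h | h
  · linarith only [h1, h2, hB, ha, hb, h, hB.gap i a ha b hb h]
  · exact h
  · linarith [hB.gap i b hb a ha h]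

theorem EBx_uq {T : Set ℝ} {a a' c c' t : ℝ} (h : Gap T a a') (k : Gap T c c') (h1 : a < t)
    (h2 : t < a') (k1 : c < t) (k2 : t < c') : a = c ∧ a' = c' := by
  constructor
  · exact le_antisymm ((k.2.2.2 a h.1).resolve_right (by linarith))
      ((h.2.2.2 c k.1).resolve_right (by linarith))
  · exact le_antisymm ((h.2.2.2 c' k.2.1).resolve_left (by linarith))
      ((k.2.2.2 a' h.2.1).resolve_left (by linarith))

theorem EBx_diff {A B y : Rn n} : y ∈ Icc A B \ {x ∈ Icc A B | ∃ j, x j = A j ∨ x j = B j} ↔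
    ∀ j, A j < y j ∧ y j < B j := by
  constructor
  · rintro ⟨h1, h2⟩ j
    exact ⟨lt_of_le_of_ne (h1.1 j) fun e => h2 ⟨h1, j, Or.inl e.symm⟩,
      lt_of_le_of_ne (h1.2 j) fun e => h2 ⟨h1, j, Or.inr e⟩⟩
  · intro h
    refine ⟨⟨fun j => (h j).1.le, fun j => (h j).2.le⟩, ?_⟩
    rintro ⟨-, j, e | e⟩
    · exact (h j).1.ne' e
    · exact (h j).2.ne e

section
variable {i : Fin 3} (hi' : i = 0 ∨ i = 1) {a b b' : ℝ} {x : Rn 3}
include hi'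

theorem EBx_li (a : ℝ) : LeftInverse (EBx_ps i a) (EBx_th i a) := fun x => by
  funext k
  rcases hi' with rfl | rfl <;> fin_cases k <;> simp [EBx_ps, EBx_th, EBx_ot]

theorem EBx_ri (a : ℝ) : RightInverse (EBx_ps i a) (EBx_th i a) := fun x => by
  funext k
  rcases hi' with rfl | rfl <;> fin_cases k <;> simp [EBx_ps, EBx_th, EBx_ot]

theorem EBx_lh (a : ℝ) : LH (EBx_th i a) := by
  refine pa2_of_inv (TP.pi fun k => ?_) (TP.pi fun k => ?_) (EBx_li hi' a) (EBx_ri hi' a)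
  · unfold EBx_th
    split_ifs
    · exact (TP.const a).add (TP.id'.apply 2)
    · exact TP.id'.apply 1
    · exact TP.id'.apply 0
  · fin_cases k
    · exact TP.id'.apply (EBx_ot i)
    · exact TP.id'.apply 2
    · exact (TP.id'.apply i).sub (TP.const a)

theorem EBx_cf (a : ℝ) : cf (EBx_th i a) = bf (i, a) := by
  funext x t k
  rw [cf, (EBx_lh hi' a).inv_eq (EBx_ri hi' a x)]
  rcases hi' with rfl | rfl <;> fin_cases k <;> simp [EBx_ps, EBx_th, EBx_ot, bf]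

theorem EBx_cN {W : Set (Rn 2)} :
    x ∈ cN (EBx_th i a) W ↔ pj3 (EBx_ps i a x) ∈ W ∧ |x i - a| ≤ 1 := by
  constructor
  · rintro ⟨y, hy, rfl⟩
    rw [← EBx_li hi' a y] at hy
    exact hy
  · exact fun h => ⟨_, h, EBx_ri hi' a x⟩

theorem EBx_wall (a b b' : ℝ) : cN (EBx_th i a) (Icc ![b + 3, lo 2] ![b' - 3, hi 2] \
    {x ∈ Icc ![b + 3, lo 2] ![b' - 3, hi 2] |
      ∃ j, x j = ![b + 3, lo 2] j ∨ x j = ![b' - 3, hi 2] j}) = EBx_W lo hi i a b b' := by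
  ext x
  rw [EBx_cN hi', EBx_diff, Fin.forall_fin_two]
  exact ⟨fun h => ⟨h.2, h.1.1.1, h.1.1.2, h.1.2⟩, fun h => ⟨⟨⟨h.2.1, h.2.2.1⟩, h.2.2.2⟩, h.1⟩⟩

theorem EBx_bO : x ∈ bO lo hi ↔ (lo i < x i ∧ x i < hi i) ∧
    (lo (EBx_ot i) < x (EBx_ot i) ∧ x (EBx_ot i) < hi (EBx_ot i)) ∧ lo 2 < x 2 ∧ x 2 < hi 2 := by
  refine ⟨fun h => ⟨h _, h _, h _⟩, fun h k => ?_⟩
  rcases hi' with rfl | rfl <;> fin_cases k
  exacts [h.1, h.2.1, h.2.2, h.2.1, h.1, h.2.2]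

theorem EBx_bT : x ∈ bT L lo hi ↔ x ∈ bO lo hi ∧ ∃ a ∈ L i, ∃ b ∈ L (EBx_ot i),
    |x i - a| ≤ 3 ∧ |x (EBx_ot i) - b| ≤ 3 ∧ |x i - a| + |x (EBx_ot i) - b| ≤ 4 := by
  rcases hi' with rfl | rfl
  · exact Iff.rfl
  · exact and_congr_right' ⟨fun ⟨a, ha, b, hb, h1, h2, h3⟩ =>
      ⟨b, hb, a, ha, h2, h1, (add_comm _ _).trans_le h3⟩,
      fun ⟨a, ha, b, hb, h1, h2, h3⟩ => ⟨b, hb, a, ha, h2, h1, (add_comm _ _).trans_le h3⟩⟩

theorem EBx_cell {c c' : ℝ} (h1 : Gap (Lx L lo hi i) c c') (h2 : Gap (Lx L lo hi (EBx_ot i)) b b') :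
    ∃ a₁ a₂ b₁ b₂, Gap (Lx L lo hi 0) a₁ a₂ ∧ Gap (Lx L lo hi 1) b₁ b₂ ∧ ∀ x ∈ bO lo hi,
      c + 1 < x i → x i < c' - 1 → b + 3 < x (EBx_ot i) → x (EBx_ot i) < b' - 3 →
        x ∈ bU lo hi a₁ a₂ b₁ b₂ := by
  rcases hi' with rfl | rfl
  · refine ⟨c, c', b, b', h1, h2, fun x hx k1 k2 (k3 : b + 3 < x 1) (k4 : x 1 < b' - 3) => ⟨hx, ?_⟩⟩
    refine ⟨?_, ?_, ?_, ?_, ?_, ?_, ?_, ?_⟩ <;> linarith only [k1, k2, k3, k4]
  · refine ⟨b, b', c, c', h2, h1, fun x hx k1 k2 (k3 : b + 3 < x 0) (k4 : x 0 < b' - 3) => ⟨hx, ?_⟩⟩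
    refine ⟨?_, ?_, ?_, ?_, ?_, ?_, ?_, ?_⟩ <;> linarith only [k3, k4, k1, k2]

theorem EBx_U_far {a₁ a₂ b₁ b₂ : ℝ} (h1 : Gap (Lx L lo hi 0) a₁ a₂) (h2 : Gap (Lx L lo hi 1) b₁ b₂)
    (hx : x ∈ bU lo hi a₁ a₂ b₁ b₂) (ha : a ∈ L i) : 1 < |x i - a| := by
  obtain ⟨-, k1, k2, k3, k4, -⟩ := hx
  rw [lt_abs]
  rcases hi' with rfl | rfl
  · exact (h1.2.2.2 a (EBx_Lx ha)).imp (fun _ => by linarith) fun _ => by linarith
  · exact (h2.2.2.2 a (EBx_Lx ha)).imp (fun _ => by linarith) fun _ => by linarith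

end

section
variable (hB : EBx L lo hi) {i : Fin 3} {a b b' : ℝ} {x : Rn 3}
include hB

theorem EBx_W_bO (ha : a ∈ L i) (hb : Gap (Lx L lo hi (EBx_ot i)) b b') (h1 : |x i - a| ≤ 3)
    (h2 : b + 3 < x (EBx_ot i)) (h3 : x (EBx_ot i) < b' - 3) (h4 : lo 2 < x 2 ∧ x 2 < hi 2) :
    x ∈ bO lo hi := by
  obtain ⟨k1, k2, -⟩ := bx_gap hB hb
  obtain ⟨k3, k4⟩ := hB.inn i a ha
  rw [abs_le] at h1
  exact (EBx_bO (EBx_two hB ha)).2 ⟨⟨by linarith, by linarith⟩, ⟨by linarith, by linarith⟩, h4⟩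

theorem EBx_W_sub (ha : a ∈ L i) (hb : Gap (Lx L lo hi (EBx_ot i)) b b')
    (hx : x ∈ EBx_W lo hi i a b b') : x ∈ bN L lo hi (i, a) ∧ x ∉ bT L lo hi := by
  obtain ⟨h1, h2, h3, h4⟩ := hx
  refine ⟨⟨EBx_W_bO hB ha hb (by linarith) h2 h3 h4, ha, h1⟩, fun h => ?_⟩
  obtain ⟨-, -, -, c, hc, -, k, -⟩ := (EBx_bT (EBx_two hB ha)).1 h
  rw [abs_le] at k
  rcases hb.2.2.2 c (EBx_Lx hc) with e | e <;> linarith

omit hB in
theorem EBx_far (hx : x ∈ bO lo hi) (ha : a ∈ Lx L lo hi i) : a ∈ L i ∨ 3 < |x i - a| := by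
  obtain ⟨h1, h2⟩ := hx i
  rcases ha with rfl | rfl | ha
  · exact Or.inr (lt_abs.2 (Or.inl (by linarith)))
  · exact Or.inr (lt_abs.2 (Or.inr (by linarith)))
  · exact Or.inl ha

theorem EBx_W_ex (hx : x ∈ bN L lo hi (i, a)) (hT : x ∉ bT L lo hi) :
    ∃ b b', Gap (Lx L lo hi (EBx_ot i)) b b' ∧ x ∈ EBx_W lo hi i a b b' := by
  obtain ⟨h0, ha, h1⟩ := hx
  have hi' := EBx_two hB ha
  obtain ⟨b, b', hb, k1, k2⟩ := bx_gap_ex hB (i := EBx_ot i) (t := x (EBx_ot i))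
    (by linarith [(h0 (EBx_ot i)).1]) (by linarith [(h0 (EBx_ot i)).2])
  have key : ∀ c ∈ Lx L lo hi (EBx_ot i), 3 < |x (EBx_ot i) - c| := fun c hc =>
    (EBx_far h0 hc).elim (fun hc' => lt_of_not_ge fun k => hT ((EBx_bT hi').2
      ⟨h0, a, ha, c, hc', le_trans h1 (by norm_num), k, by linarith [show |x i - a| ≤ 1 from h1]⟩)) id
  have e1 := key b hb.1
  have e2 := key b' hb.2.1
  rw [abs_of_nonneg (by linarith)] at e1
  rw [abs_of_neg (by linarith)] at e2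
  exact ⟨b, b', hb, h1, by linarith, by linarith, h0 2⟩

omit hB in
theorem EBx_U_sub {a₁ a₂ b₁ b₂ : ℝ} (h1 : Gap (Lx L lo hi 0) a₁ a₂) (h2 : Gap (Lx L lo hi 1) b₁ b₂)
    (hx : x ∈ bU lo hi a₁ a₂ b₁ b₂) : x ∉ bT L lo hi := by
  rintro ⟨-, c, hc, d, hd, -, -, k⟩
  obtain ⟨-, -, -, -, -, k1, k2, k3, k4⟩ := hx
  rcases h1.2.2.2 c (EBx_Lx hc) with e | e <;> rcases h2.2.2.2 d (EBx_Lx hd) with e' | e' <;>
    linarith only [k, k1, e, e', k3, k2, k4, le_abs_self (x 0 - c), neg_le_abs (x 0 - c), le_abs_self (x 1 - d),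
      neg_le_abs (x 1 - d)]

theorem EBx_U_ex (h0 : x ∈ bO lo hi) (hT : x ∉ bT L lo hi) (hN : ∀ v, x ∉ bN L lo hi v) :
    ∃ a₁ a₂ b₁ b₂, Gap (Lx L lo hi 0) a₁ a₂ ∧ Gap (Lx L lo hi 1) b₁ b₂ ∧
      x ∈ bU lo hi a₁ a₂ b₁ b₂ := by
  have f2 : ∀ i, ∀ c ∈ Lx L lo hi i, 1 < |x i - c| := fun i c hc =>
    (EBx_far h0 hc).elim (fun hc' => lt_of_not_ge fun k => hN (i, c) ⟨h0, hc', k⟩)
      fun _ => by linarith
  have f3 : ∀ c ∈ Lx L lo hi 0, ∀ d ∈ Lx L lo hi 1, 4 < |x 0 - c| + |x 1 - d| :=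
    fun c hc d hd => lt_of_not_ge fun k => by
      have e1 := f2 0 c hc
      have e2 := f2 1 d hd
      exact hT ⟨h0, c, (EBx_far h0 hc).resolve_right (by linarith), d,
        (EBx_far h0 hd).resolve_right (by linarith), by linarith, by linarith, k⟩
  obtain ⟨a₁, a₂, ha, k1, k2⟩ := bx_gap_ex hB (i := 0) (t := x 0)
    (by linarith [(h0 0).1]) (by linarith [(h0 0).2])
  obtain ⟨b₁, b₂, hb, k3, k4⟩ := bx_gap_ex hB (i := 1) (t := x 1)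
    (by linarith [(h0 1).1]) (by linarith [(h0 1).2])
  have e1 : |x 0 - a₁| = x 0 - a₁ := abs_of_nonneg (by linarith)
  have e2 : |x 0 - a₂| = -(x 0 - a₂) := abs_of_neg (by linarith)
  have e3 : |x 1 - b₁| = x 1 - b₁ := abs_of_nonneg (by linarith)
  have e4 : |x 1 - b₂| = -(x 1 - b₂) := abs_of_neg (by linarith)
  refine ⟨a₁, a₂, b₁, b₂, ha, hb, h0, ?_, ?_, ?_, ?_, ?_, ?_, ?_, ?_⟩
  · linarith [f2 0 _ ha.1]
  · linarith [f2 0 _ ha.2.1]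
  · linarith [f2 1 _ hb.1]
  · linarith [f2 1 _ hb.2.1]
  · linarith [f3 _ ha.1 _ hb.1]
  · linarith [f3 _ ha.2.1 _ hb.1]
  · linarith [f3 _ ha.1 _ hb.2.1]
  · linarith [f3 _ ha.2.1 _ hb.2.1]

theorem EBx_side (ha : a ∈ L i) {s : ℝ} (hs : s = 1 ∨ s = -1) : ∃ c c', Gap (Lx L lo hi i) c c' ∧
    ∀ t : ℝ, 1 < t → t ≤ 1 + 1 → c + 1 < a + s * t ∧ a + s * t < c' - 1 := by
  obtain ⟨k3, k4⟩ := hB.inn i a ha
  rcases hs with rfl | rfl
  · obtain ⟨c, c', hc, k1, k2⟩ := bx_gap_ex hB (i := i) (t := a) (by linarith) (by linarith)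
    have e : a = c := le_antisymm ((hc.2.2.2 a (EBx_Lx ha)).resolve_right (by linarith)) k1
    have := (bx_gap hB hc).2.2.1
    exact ⟨c, c', hc, fun t h1 h2 => ⟨by linarith, by linarith⟩⟩
  · obtain ⟨c, c', hc, k1, k2⟩ := bx_gap_ex hB (i := i) (t := a - 1) (by linarith) (by linarith)
    have e1 : c' ≤ a := (hc.2.2.2 a (EBx_Lx ha)).resolve_left (by linarith)
    obtain ⟨-, -, e2, -, -, e3⟩ := bx_gap hB hc
    have e : c' = a := EBx_near hB (t := a) (e3.resolve_right fun _ => by linarith) ha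
      (abs_le.2 ⟨by linarith, by linarith⟩) (by simp)
    exact ⟨c, c', hc, fun t h1 h2 => ⟨by linarith, by linarith⟩⟩

theorem EBx_W_uq {i' : Fin 3} {c d d' : ℝ} (ha : a ∈ L i) (hb : Gap (Lx L lo hi (EBx_ot i)) b b')
    (hc : c ∈ L i') (hd : Gap (Lx L lo hi (EBx_ot i')) d d') (hx : x ∈ EBx_W lo hi i a b b')
    (hx' : x ∈ EBx_W lo hi i' c d d') : (i, a, b, b') = (i', c, d, d') := by
  obtain ⟨h1, h2, h3, -⟩ := hx
  obtain ⟨k1, k2, k3, -⟩ := hx'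
  by_cases e : i' = i
  · subst e
    obtain ⟨e1, e2⟩ := EBx_uq hb hd (t := x (EBx_ot i')) (by linarith) (by linarith) (by linarith)
      (by linarith)
    rw [EBx_near hB ha hc (t := x i') (by linarith) (by linarith), e1, e2]
  · have e' : i' = EBx_ot i := by
      rcases EBx_two hB ha with rfl | rfl <;> rcases EBx_two hB hc with rfl | rfl <;>
        first | rfl | exact absurd rfl e
    subst e'
    rw [abs_le] at k1
    rcases hb.2.2.2 c (EBx_Lx hc) with f | f <;> linarith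

theorem EBx_fib {v : Fin 3 × ℝ} (hx : x ∈ bN L lo hi v) (hT : x ∈ bT L lo hi) {t : ℝ}
    (ht : t ∈ Icc (-1 : ℝ) 1) : bf v x t ∈ bT L lo hi := by
  obtain ⟨i, a⟩ := v
  obtain ⟨h0, ha, h1⟩ := hx
  have hi' := EBx_two hB ha
  obtain ⟨-, c, hc, d, hd, k1, k2, -⟩ := (EBx_bT hi').1 hT
  obtain ⟨k3, k4⟩ := hB.inn i a ha
  have e1 : bf (i, a) x t i = a + t := update_self _ _ _
  have e2 : bf (i, a) x t (EBx_ot i) = x (EBx_ot i) :=
    update_of_ne (show EBx_ot i ≠ i by rcases hi' with rfl | rfl <;> decide) _ _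
  have e3 : bf (i, a) x t 2 = x 2 :=
    update_of_ne (show 2 ≠ i by rcases hi' with rfl | rfl <;> decide) _ _
  have e4 : |a + t - a| ≤ 1 := by
    rw [add_sub_cancel_left]
    exact abs_le.2 ht
  rw [EBx_bT hi', EBx_bO hi', e1, e2, e3]
  exact ⟨⟨⟨by linarith [ht.1], by linarith [ht.2]⟩, h0 _, h0 _⟩, a, ha, d, hd, by linarith, k2,
    by linarith⟩

end

theorem EBx_CU {a a' b b' : ℝ} :
    bC lo hi a a' b b' \ (bC lo hi a a' b b' \ bU lo hi a a' b b') = bU lo hi a a' b b' := by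
  refine sdiff_sdiff_cancel_left fun x hx => ?_
  obtain ⟨h0, h1, h2, h3, h4, h5, h6, h7, h8⟩ := hx
  exact ⟨⟨fun i => (h0 i).1.le, fun i => (h0 i).2.le⟩, h1.le, h2.le, h3.le, h4.le, h5.le, h6.le,
    h7.le, h8.le⟩

theorem bx_sys (hB : EBx L lo hi) : ∃ (κ μ : Type) (_ : Finite κ) (θ : κ → Rn 3 → Rn 3)
    (R bR : κ → Set (Rn 2)) (C bC : μ → Set (Rn 3)) (π : κ → Fin 3 × ℝ),
    Sys θ R bR C bC 1 ∧ sO θ R bR C bC = bO lo hi \ bT L lo hi ∧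
    (∀ w, cN (θ w) (R w \ bR w) ⊆ bN L lo hi (π w) ∧ cf (θ w) = bf (π w)) ∧
    (∀ v, ∀ x ∈ bN L lo hi v, x ∉ bT L lo hi → ∃ w, π w = v ∧ x ∈ cN (θ w) (R w \ bR w)) ∧
    ∀ v, ∀ γ ⊆ bN L lo hi v \ bT L lo hi, IsPreconnected γ → γ.Nonempty →
      ∃ w, π w = v ∧ γ ⊆ cN (θ w) (R w \ bR w) := by
  let K : Set (Fin 3 × ℝ × ℝ × ℝ) :=
    {w | w.2.1 ∈ L w.1 ∧ Gap (Lx L lo hi (EBx_ot w.1)) w.2.2.1 w.2.2.2}
  let M : Set (ℝ × ℝ × ℝ × ℝ) :=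
    {k | Gap (Lx L lo hi 0) k.1 k.2.1 ∧ Gap (Lx L lo hi 1) k.2.2.1 k.2.2.2}
  have hA : (⋃ i, Lx L lo hi i).Finite := finite_iUnion fun i => ((hB.fin i).insert _).insert _
  have hK : K.Finite := (finite_univ.prod (hA.prod (hA.prod hA))).subset fun w hw =>
    ⟨mem_univ _, mem_iUnion.2 ⟨_, EBx_Lx hw.1⟩, mem_iUnion.2 ⟨_, hw.2.1⟩, mem_iUnion.2 ⟨_, hw.2.2.1⟩⟩
  let R : K → Set (Rn 2) := fun w => Icc ![w.1.2.2.1 + 3, lo 2] ![w.1.2.2.2 - 3, hi 2]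
  let bR : K → Set (Rn 2) := fun w => {x ∈ R w |
    ∃ j, x j = ![w.1.2.2.1 + 3, lo 2] j ∨ x j = ![w.1.2.2.2 - 3, hi 2] j}
  have hW : ∀ w : K, cN (EBx_th w.1.1 w.1.2.1) (R w \ bR w) =
      EBx_W lo hi w.1.1 w.1.2.1 w.1.2.2.1 w.1.2.2.2 := fun w => EBx_wall (EBx_two hB w.2.1) _ _ _
  have hex : ∀ v, ∀ x ∈ bN L lo hi v, x ∉ bT L lo hi → ∃ w : K, (w.1.1, w.1.2.1) = v ∧
      x ∈ cN (EBx_th w.1.1 w.1.2.1) (R w \ bR w) := fun v x hx hT => by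
    obtain ⟨b, b', hb, h⟩ := EBx_W_ex hB (i := v.1) (a := v.2) hx hT
    exact ⟨⟨(v.1, v.2, b, b'), hx.2.1, hb⟩, rfl, by rw [hW]; exact h⟩
  refine ⟨K, M, hK.to_subtype, fun w => EBx_th w.1.1 w.1.2.1, R, bR,
    fun k => bC lo hi k.1.1 k.1.2.1 k.1.2.2.1 k.1.2.2.2,
    fun k => bC lo hi k.1.1 k.1.2.1 k.1.2.2.1 k.1.2.2.2 \ bU lo hi k.1.1 k.1.2.1 k.1.2.2.1 k.1.2.2.2,
    fun w => (w.1.1, w.1.2.1), ⟨one_pos, fun w => EBx_lh (EBx_two hB w.2.1) _, fun w => ?_,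
      fun k => bx_cell hB k.2.1 k.2.2, fun w s hs => ?_, fun w w' hne => ?_, fun k k' hne => ?_,
      fun w k => ?_⟩, ?_, fun w => ⟨?_, EBx_cf (EBx_two hB w.2.1) _⟩, hex, fun v γ hγ hc hne => ?_⟩
  · refine ball_box (Fin.forall_fin_two.2 ⟨?_, hB.lt 2⟩)
    have := (bx_gap hB w.2.2).2.2.1
    change w.1.2.2.1 + 3 < w.1.2.2.2 - 3
    linarith
  · have hi' := EBx_two hB w.2.1
    obtain ⟨c, c', hc, h1⟩ := EBx_side hB w.2.1 hs
    obtain ⟨a₁, a₂, b₁, b₂, g1, g2, h2⟩ := EBx_cell hi' hc w.2.2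
    refine ⟨⟨(a₁, a₂, b₁, b₂), g1, g2⟩, fun y hy t t1 t2 => ?_⟩
    obtain ⟨y0, y1⟩ := Fin.forall_fin_two.1 (EBx_diff.1 hy)
    have e := EBx_li hi' w.1.2.1 (mk3 y (s * t))
    generalize EBx_th w.1.1 w.1.2.1 (mk3 y (s * t)) = x at e
    have e0 : x (EBx_ot w.1.1) = y 0 := congrFun e 0
    have e1 : x 2 = y 1 := congrFun e 1
    have e2 : x w.1.1 - w.1.2.1 = s * t := congrFun e 2
    rw [← e0] at y0
    rw [← e1] at y1
    obtain ⟨k1, k2⟩ := h1 t t1 t2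
    rw [EBx_CU]
    refine h2 x (EBx_W_bO hB w.2.1 w.2.2 ?_ y0.1 y0.2 y1) (by linarith) (by linarith) y0.1 y0.2
    rw [e2, abs_le]
    rcases hs with rfl | rfl <;> constructor <;> linarith only [t1, t2]
  · rw [hW, hW]
    exact disjoint_left.2 fun x h1 h2 =>
      hne (Subtype.ext (EBx_W_uq hB w.2.1 w.2.2 w'.2.1 w'.2.2 h1 h2))
  · rw [EBx_CU, EBx_CU]
    refine disjoint_left.2 fun x h1 h2 => hne (Subtype.ext ?_)
    obtain ⟨-, f1, f2, f3, f4, -⟩ := h1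
    obtain ⟨-, g1, g2, g3, g4, -⟩ := h2
    obtain ⟨e1, e2⟩ := EBx_uq k.2.1 k'.2.1 (t := x 0) (by linarith) (by linarith) (by linarith)
      (by linarith)
    obtain ⟨e3, e4⟩ := EBx_uq k.2.2 k'.2.2 (t := x 1) (by linarith) (by linarith) (by linarith)
      (by linarith)
    exact Prod.ext e1 (Prod.ext e2 (Prod.ext e3 e4))
  · rw [hW, EBx_CU]
    exact disjoint_left.2 fun x h1 h2 =>
      (EBx_U_far (EBx_two hB w.2.1) k.2.1 k.2.2 h2 w.2.1).not_ge h1.1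
  · refine Subset.antisymm (union_subset (iUnion_subset fun w x hx => ?_)
      (iUnion_subset fun k x hx => ?_)) fun x hx => ?_
    · rw [hW] at hx
      obtain ⟨h1, h2⟩ := EBx_W_sub hB w.2.1 w.2.2 hx
      exact ⟨h1.1, h2⟩
    · rw [EBx_CU] at hx
      exact ⟨hx.1, EBx_U_sub k.2.1 k.2.2 hx⟩
    · by_cases hN : ∃ v, x ∈ bN L lo hi v
      · obtain ⟨v, hv⟩ := hN
        obtain ⟨w, -, hw⟩ := hex v x hv hx.2
        exact Or.inl (mem_iUnion.2 ⟨w, hw⟩)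
      · obtain ⟨a₁, a₂, b₁, b₂, g1, g2, h⟩ := EBx_U_ex hB hx.1 hx.2 fun v hv => hN ⟨v, hv⟩
        refine Or.inr (mem_iUnion.2 ⟨⟨(a₁, a₂, b₁, b₂), g1, g2⟩, ?_⟩)
        rw [EBx_CU]
        exact h
  · rw [hW]
    exact fun x hx => (EBx_W_sub hB w.2.1 w.2.2 hx).1
  · obtain ⟨x₀, h₀⟩ := hne
    obtain ⟨b, b', hb, h⟩ := EBx_W_ex hB (i := v.1) (a := v.2) (hγ h₀).1 (hγ h₀).2
    refine ⟨⟨(v.1, v.2, b, b'), (hγ h₀).1.2.1, hb⟩, rfl, fun x hx => ?_⟩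
    rw [hW]
    have ho := (hc.image _ (continuous_apply (EBx_ot v.1)).continuousOn).ordConnected
    have hn : ∀ c ∈ Lx L lo hi (EBx_ot v.1), c ∉ (fun p : Rn 3 => p (EBx_ot v.1)) '' γ := by
      rintro _ hc ⟨z, hz, rfl⟩
      obtain ⟨d, d', hd, -, k1, k2, -⟩ := EBx_W_ex hB (i := v.1) (a := v.2) (hγ hz).1 (hγ hz).2
      rcases hd.2.2.2 _ hc with e | e <;> linarith only [k1, e, k2]
    obtain ⟨d, d', hd, k⟩ := EBx_W_ex hB (i := v.1) (a := v.2) (hγ hx).1 (hγ hx).2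
    obtain ⟨e1, e2⟩ := EBx_uq hb hd (t := x (EBx_ot v.1))
      (lt_of_not_ge fun e => hn b hb.1 (ho.out (mem_image_of_mem _ hx) (mem_image_of_mem _ h₀)
        ⟨e, by linarith [h.2.1]⟩))
      (lt_of_not_ge fun e => hn b' hb.2.1 (ho.out (mem_image_of_mem _ h₀) (mem_image_of_mem _ hx)
        ⟨by linarith [h.2.2.1], e⟩)) (by linarith [k.2.1]) (by linarith [k.2.2.1])
    rw [← e1, ← e2] at k
    exact k

theorem stageL {ι : Type} [Finite ι] {F J : ι → Set (Rn 3)} (hB : EBx L lo hi) (hF : ESt F J)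
    (h1 : ∀ c, HP L lo hi (F c)) (h2 : ∀ c, HP L lo hi (J c)) :
    ∃ Φ, EGd L lo hi (⋃ c, F c) Φ ∧
      ∀ c, NoL (bN L lo hi) bf (bO lo hi \ bT L lo hi) (Φ '' F c) (Φ '' J c) := by
  obtain ⟨κ, μ, _, θ, R, bR, C, bC, π, hS, hO, hπ, hex, hγ⟩ := bx_sys hB
  have hw : ∀ {S}, HP L lo hi S → ∀ w, Iw (cN (θ w) (R w \ bR w)) (cf (θ w)) S := fun h w x hx hN => by
    rw [(hπ w).2]
    exact h.wal (π w) x hx ((hπ w).1 hN)
  obtain ⟨Φ, k1, k2, k3⟩ := smL hS hF (fun d => hw (h1 d)) fun d => hw (h2 d)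
  rw [hO] at k1 k3
  have fx : ∀ x ∈ bT L lo hi, Φ x = x := fun x hx => k1.2 x fun h => h.2 hx
  have tb : ∀ x, Φ x ∈ bT L lo hi → Φ x = x := fun x hx => k1.1.inj (fx _ hx)
  have tk : ∀ x ∈ ⋃ c, F c, ∀ v, Φ x ∈ bN L lo hi v → Φ x ∉ bT L lo hi → x ∈ bN L lo hi v ∧
      ∀ t ∈ Icc (-1 : ℝ) 1, Φ (bf v x t) = bf v (Φ x) t := fun x hx v hv hT => by
    obtain ⟨w, rfl, h⟩ := hex v _ hv hT
    obtain ⟨e1, e2⟩ := k2 x hx w h
    rw [← (hπ w).2]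
    exact ⟨(hπ w).1 e1, e2⟩
  refine ⟨Φ, ⟨k1.mono sdiff_subset, fun S hs h => ⟨fun v => ?_, fun a ha b hb => ?_⟩,
    fun x _ => tb x, fun x hx v hv => ?_⟩, fun c v E γ hE s1 s2 s3 => ?_⟩
  · rintro _ ⟨x, hx, rfl⟩ hv t ht
    by_cases hT : Φ x ∈ bT L lo hi
    · have e := tb x hT
      rw [e] at hv hT ⊢
      exact ⟨_, h.wal v x hx hv t ht, fx _ (EBx_fib hB hv hT ht)⟩
    · obtain ⟨e1, e2⟩ := tk x (hs hx) v hv hT
      exact ⟨_, h.wal v x hx e1 t ht, e2 t ht⟩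
  · rintro _ ⟨x, hx, rfl⟩ h0 hc y hy e
    have e' := tb x ⟨h0, a, ha, b, hb, hc⟩
    rw [e'] at h0 hc e
    refine ⟨y, h.tub a ha b hb x hx h0 hc y hy e, fx y ⟨?_, a, ha, b, hb, hy⟩⟩
    obtain ⟨f1, f2⟩ := hB.inn 0 a ha
    obtain ⟨f3, f4⟩ := hB.inn 1 b hb
    obtain ⟨g1, g2, -⟩ := hy
    rw [abs_le] at g1 g2
    refine (EBx_bO (Or.inl rfl)).2 ⟨⟨by linarith, by linarith⟩, ?_, e ▸ h0 2⟩
    change lo 1 < y 1 ∧ y 1 < hi 1
    exact ⟨by linarith, by linarith⟩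
  · obtain ⟨e1, e2⟩ := tk x hx.1 v hv fun hT => hx.2 (tb x hT ▸ hT)
    exact ⟨v, 1, Or.inl rfl, e1, fun t ht => by rw [one_mul, e2 t ht]⟩
  · obtain ⟨w, rfl, h⟩ := hγ v γ (fun x hx => ⟨(s3 hx).1, (s2 (hE.sub hx)).2⟩)
      hE.conn_bd.isPreconnected hE.conn_bd.nonempty
    obtain ⟨w', x, e1, e2, e3⟩ := k3 c w E γ hE s1 s2 fun x hx =>
      ⟨h hx, by beta_reduce; rw [(hπ w).2]; exact (s3 hx).2⟩
    refine ⟨π w', x, e1, (hπ w').1 e2, ?_⟩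
    rw [← (hπ w').2]
    exact e3

end BEp
end
end

-- merged part: Pool.Agent.Work.MP_f0515e_an.D3.EMA
section
/-! From a thin bigon in the quadrant `x 0 > 0`, `x 1 > 0` of the tube at `(0, 0)` to the data of `moveH` (real coordinates).
`α` is connected with `x 0 ∈ L 0` finite, so `x 0` is constant on `α`; `E \ (α ∪ β)` is connected, contains a point with coordinates in `(0, a)`, `(0, b)`, so `0 ≤ x 0 ≤ a`, `0 ≤ x 1 ≤ b` on `E`. `p = (0, 0, z₁)`, `q = (0, 0, z₂)`.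
The horizontal slices of the tube through `p`, `q` lie in `F \ J` (`HP.diff`, `J` misses the tubes). A point of `E` in the tube `oc 0 0` has its slice in `F \ J`; the part of the slice in the open quadrant is connected, misses `α ∪ β`;
join the point to the centre of the slice by a segment: the centre is a point of both cores, so it is `p`, `q` or not in `E`, in which case the segment leaves `E` through `α ∪ β` (`sd_side`); a point of `α` in a slice drags the segment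
`{x 0 = 0}` of the slice into `α` up to an end of `α` (one manifold: `esec` or links; or directly: `α ∩ slice` is closed and, off `p`, `q`, open in that segment, because a band chart `pdsc_band` of `F` around the point meets the plane `x 0 = 0` in an arc).
So only the slices at `z₁`, `z₂` meet `E`, other tubes do not meet `E` (same argument, their centres are not `p`, `q`), `α ⊇` the two segments `0 ≤ x 1 ≤ 3`, and `α' = α ∩ {3 ≤ x 1}` is an arc (`Arc.split` twice) whose interior has `3 < x 1 < b - 3`.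
`J'` is a circle (`arc_glue`, `crc_glue`); it lies in `E` (fibres `α' × (0, 1]` and the quarter slices are connected, miss `α ∪ β`, and meet `E` as in `stepL`: the other side has `x 0 < 0`).
`ethick` with `N` = walls and tubes, `U` = `bU lo hi 0 a 0 b`. `Z = ⋃ (d ≠ c) F d ∪ (F c \ (E \ (α ∪ β)))`. About 600 lines; split freely (EMA1, EMA2). -/

open Set Metric Filter Topology Function BEv
open scoped NNReal

noncomputable section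
namespace BEp

variable {n m : ℕ}

variable {L : Fin 3 → Set ℝ} {lo hi : Rn 3}

theorem ema_ext {x y : Rn 3} (h0 : x 0 = y 0) (h1 : x 1 = y 1) (h2 : x 2 = y 2) : x = y := by
  ext k
  fin_cases k
  exacts [h0, h1, h2]

theorem ema_h {y w : Rn 3} (e : y 2 = w 2) (t : ℝ) : (y + t • (w - y)) 2 = w 2 := by
  simp only [Pi.add_apply, Pi.smul_apply, Pi.sub_apply, smul_eq_mul, e]
  ring

theorem ema_oc0 {x : Rn 3} (h0 : 0 ≤ x 0) (h1 : 0 ≤ x 1) (k0 : x 0 ≤ 3) (k1 : x 1 ≤ 3)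
    (k : x 0 + x 1 ≤ 4) : x ∈ oc 0 0 := by
  simp only [oc, mem_ofPred_eq, sub_zero, abs_of_nonneg h0, abs_of_nonneg h1]
  exact ⟨k0, k1, k⟩

theorem ema_diag (z : ℝ) : Arc {x : Rn 3 | x 0 + x 1 = 4 ∧ 1 ≤ x 0 ∧ 1 ≤ x 1 ∧ x 2 = z}
    ![1, 3, z] ![3, 1, z] := by
  have e : {x : Rn 3 | x 0 + x 1 = 4 ∧ 1 ≤ x 0 ∧ 1 ≤ x 1 ∧ x 2 = z} =
      segment ℝ ![1, 3, z] ![3, 1, z] := by
    rw [segment_eq_image']
    ext x
    constructor
    · rintro ⟨x1, x2, x3, x4⟩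
      refine ⟨(x 0 - 1) / 2, ⟨by linarith only [x2], by linarith⟩, ema_ext ?_ ?_ ?_⟩ <;> simp <;> linarith only [x1, x4]
    · rintro ⟨t, ht, rfl⟩
      refine ⟨?_, ?_, ?_, ?_⟩ <;> simp <;> linarith only [ht, ht.1, ht.2]
  rw [e]
  refine arc_seg fun k => ?_
  have := congrFun k 0
  norm_num at this

/-- Both sides of a thin bigon, with the tubes. -/
structure EmaT (L : Fin 3 → Set ℝ) (lo hi : Rn 3) (F E α β : Set (Rn 3)) (p q : Rn 3) : Prop where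
  sa : EmaS (L 0) 0 1 F E α p q
  sb : EmaS (L 1) 1 0 F E β p q
  box : E ⊆ bO lo hi
  tub : ∀ a ∈ L 0, ∀ b ∈ L 1, ∀ x ∈ E, x ∈ oc a b → ∀ y ∈ oc a b, y 2 = x 2 → y ∈ F
  cen : ∀ x ∈ E, x 0 ∈ L 0 → x 1 ∈ L 1 → x = p ∨ x = q
  hz : p 2 < q 2

namespace EmaT
variable {F E α β : Set (Rn 3)} {p q : Rn 3} (h : EmaT L lo hi F E α β p q)
include h

theorem lift {x : Rn 3} (hx : x ∈ E) : (x 0 = 0 ∧ x 1 = 0 ∧ (x 2 = p 2 ∨ x 2 = q 2)) ∨
    ∃ y ∈ E, 0 < y 0 ∧ 0 < y 1 ∧ y 2 = x 2 ∧ ((y 0 = x 0 ∧ y 1 = x 1) ∨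
      (x 0 = 0 ∧ y 0 = 1 ∧ y 1 = x 1) ∨ (x 1 = 0 ∧ y 1 = 1 ∧ y 0 = x 0)) := by
  rcases (h.sa.nn hx).eq_or_lt with k0 | k0 <;> rcases (h.sb.nn hx).eq_or_lt with k1 | k1
  · refine Or.inl ⟨k0.symm, k1.symm, ?_⟩
    rcases h.cen x hx (k0 ▸ h.sa.m0) (k1 ▸ h.sb.m0) with e | e
    · exact Or.inl (by rw [e])
    · exact Or.inr (by rw [e])
  · refine Or.inr ⟨update x 0 1, h.sa.band (h.sa.lev x hx (k0 ▸ h.sa.m0) k1) k1, by simp,
      by simpa using k1, by simp, Or.inr (Or.inl ⟨k0.symm, by simp, by simp⟩)⟩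
  · refine Or.inr ⟨update x 1 1, h.sb.band (h.sb.lev x hx (k1 ▸ h.sb.m0) k0) k0,
      by simpa using k0, by simp, by simp, Or.inr (Or.inr ⟨k1.symm, by simp, by simp⟩)⟩
  · exact Or.inr ⟨x, hx, k0, k1, rfl, Or.inl ⟨rfl, rfl⟩⟩

theorem tube0 {y : Rn 3} (hy : y ∈ E) (y0 : 0 < y 0) (y1 : 0 < y 1) {a b : ℝ} (ha : a ∈ L 0)
    (hb : b ∈ L 1) (ho : y ∈ oc a b) : a = 0 ∧ b = 0 ∧ (y 2 = p 2 ∨ y 2 = q 2) := by
  have o1 := abs_le.1 ho.1
  have o2 := abs_le.1 ho.2.1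
  have a0 : 0 ≤ a := by rcases h.sa.gap a ha with e | e | e <;> linarith only [e, y0, o1, o1.1, o1.2]
  have b0 : 0 ≤ b := by rcases h.sb.gap b hb with e | e | e <;> linarith only [e, y1, o2, o2.1, o2.2]
  have mo : (![a, b, y 2] : Rn 3) ∈ oc a b := by simp [oc]
  have hm : (![a, b, y 2] : Rn 3) ∈ E := h.sa.cv hy y0 y1 a0 b0 fun t t0 t1 =>
    h.tub a ha b hb y hy ho _ (ema_oc mo ho t0 t1) (ema_h rfl t)
  rcases h.cen _ hm ha hb with e | e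
  · exact ⟨(congrFun e 0).trans h.sb.pj, (congrFun e 1).trans h.sa.pj, Or.inl (congrFun e 2)⟩
  · exact ⟨(congrFun e 0).trans h.sb.qj, (congrFun e 1).trans h.sa.qj, Or.inr (congrFun e 2)⟩

theorem tube {x : Rn 3} (hx : x ∈ E) {a b : ℝ} (ha : a ∈ L 0) (hb : b ∈ L 1) (ho : x ∈ oc a b) :
    a = 0 ∧ b = 0 ∧ (x 2 = p 2 ∨ x 2 = q 2) := by
  obtain ⟨o1, o2, o3⟩ := ho
  have k0 : x 0 = 0 → a = 0 := fun e => by
    have o := abs_le.1 o1
    rcases h.sa.gap a ha with e | e | e <;> linarith [o.1, o.2]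
  have k1 : x 1 = 0 → b = 0 := fun e => by
    have o := abs_le.1 o2
    rcases h.sb.gap b hb with e | e | e <;> linarith [o.1, o.2]
  rcases h.lift hx with ⟨e0, e1, e2⟩ | ⟨y, hy, y0, y1, y2, e⟩
  · exact ⟨k0 e0, k1 e1, e2⟩
  · rw [← y2]
    refine h.tube0 hy y0 y1 ha hb ?_
    simp only [oc, mem_ofPred_eq]
    rcases e with ⟨e0, e1⟩ | ⟨e, e0, e1⟩ | ⟨e, e1, e0⟩
    · rw [e0, e1]
      exact ⟨o1, o2, o3⟩
    · rw [e0, e1, k0 e, sub_zero, abs_one]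
      exact ⟨by norm_num, o2, by linarith⟩
    · rw [e0, e1, k1 e, sub_zero, abs_one]
      exact ⟨o1, by norm_num, by linarith⟩

theorem tube1 {x : Rn 3} (hx : x ∈ E) (k0 : x 0 ≤ 3) (k1 : x 1 ≤ 3) (k : x 0 + x 1 ≤ 4) :
    x 2 = p 2 ∨ x 2 = q 2 :=
  (h.tube hx h.sa.m0 h.sb.m0 (ema_oc0 (h.sa.nn hx) (h.sb.nn hx) k0 k1 k)).2.2

theorem quart {y : Rn 3} (h0 : 0 ≤ y 0) (h1 : 0 ≤ y 1) (k0 : y 0 ≤ 3) (k1 : y 1 ≤ 3)
    (k : y 0 + y 1 ≤ 4) (hy : y 2 = p 2 ∨ y 2 = q 2) : y ∈ E := by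
  have hz := h.hz
  obtain ⟨r, r1, r2, r3, r4, r5⟩ : ∃ r ∈ E, r 0 = 0 ∧ r 1 = 0 ∧ y 2 = r 2 ∧
      (r 2 = p 2 ∨ r 2 = q 2) := by
    rcases hy with e | e
    · exact ⟨p, h.sa.sub h.sa.arc.tarc.left, h.sb.pj, h.sa.pj, e, Or.inl rfl⟩
    · exact ⟨q, h.sa.sub h.sa.arc.tarc.right, h.sb.qj, h.sa.qj, e, Or.inr rfl⟩
  obtain ⟨w, w1, w2, w3, w4⟩ := h.sa.near r1 (lt_min one_pos (sub_pos.2 hz))
  have v0 := (abs_lt.1 ((w4 0).trans_le (min_le_left _ _))).2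
  have v1 := (abs_lt.1 ((w4 1).trans_le (min_le_left _ _))).2
  have v2 := abs_lt.1 ((w4 2).trans_le (min_le_right _ _))
  have wo : w ∈ oc 0 0 := ema_oc0 w2.le w3.le (by linarith) (by linarith) (by linarith)
  have e : y 2 = w 2 := by
    rcases (h.tube0 w1 w2 w3 h.sa.m0 h.sb.m0 wo).2.2 with e | e <;> rcases r5 with e' | e' <;>
      linarith only [r4, e, e', v2, v2.1, v2.2]
  exact h.sa.cv w1 w2 w3 h0 h1 fun t t0 t1 =>
    h.tub 0 h.sa.m0 0 h.sb.m0 w w1 wo _ (ema_oc (ema_oc0 h0 h1 k0 k1 k) wo t0 t1) (ema_h e t)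

variable {a b : ℝ}

theorem lt0 (ha : a ∈ L 0 ∨ a = hi 0 + 3) (a0 : 10 ≤ a) {x : Rn 3} (hx : x ∈ E) :
    x 0 < a - 1 ∧ (a - 3 ≤ x 0 → a ∈ L 0) := by
  have := (h.box hx 0).2
  rcases ha with ha | ha
  · refine ⟨?_, fun _ => ha⟩
    rcases h.lift hx with ⟨e0, -⟩ | ⟨y, hy, y0, y1, -, e⟩
    · linarith
    · have := h.sa.lt ha (by linarith) hy y0 y1
      rcases e with ⟨e0, -⟩ | ⟨e0, -⟩ | ⟨-, -, e0⟩ <;> linarith only [this, e0, a0]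
  · exact ⟨by linarith, fun k => absurd k (by linarith)⟩

theorem lt1 (hb : b ∈ L 1 ∨ b = hi 1 + 3) (b0 : 10 ≤ b) {x : Rn 3} (hx : x ∈ E) :
    x 1 < b - 1 ∧ (b - 3 ≤ x 1 → b ∈ L 1) := by
  have := (h.box hx 1).2
  rcases hb with hb | hb
  · refine ⟨?_, fun _ => hb⟩
    rcases h.lift hx with ⟨-, e0, -⟩ | ⟨y, hy, y0, y1, -, e⟩
    · linarith
    · have := h.sb.lt hb (by linarith) hy y1 y0
      rcases e with ⟨-, e0⟩ | ⟨-, -, e0⟩ | ⟨e0, -⟩ <;> linarith only [this, e0, b0]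
  · exact ⟨by linarith, fun k => absurd k (by linarith)⟩

theorem far (ha : a ∈ L 0 ∨ a = hi 0 + 3) (a0 : 10 ≤ a) (hb : b ∈ L 1 ∨ b = hi 1 + 3)
    (b0 : 10 ≤ b) {x : Rn 3} (hx : x ∈ E) :
    ((a - x 0) + x 1 ≤ 4 → x 1 < 1 ∧ x 0 < a - 3) ∧ (x 0 + (b - x 1) ≤ 4 → x 0 < 1 ∧ x 1 < b - 3) ∧
      4 < (a - x 0) + (b - x 1) := by
  obtain ⟨l0, m0⟩ := h.lt0 ha a0 hx
  obtain ⟨l1, m1⟩ := h.lt1 hb b0 hx
  have n0 := h.sa.nn hx
  have n1 := h.sb.nn hx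
  have e0 : |x 0 - a| = a - x 0 := by rw [abs_sub_comm, abs_of_nonneg (by linarith)]
  have e1 : |x 1 - b| = b - x 1 := by rw [abs_sub_comm, abs_of_nonneg (by linarith)]
  have f0 : |x 0 - 0| = x 0 := by rw [sub_zero, abs_of_nonneg n0]
  have f1 : |x 1 - 0| = x 1 := by rw [sub_zero, abs_of_nonneg n1]
  refine ⟨fun k => ?_, fun k => ?_, ?_⟩
  · have : x 0 < a - 3 := by
      by_contra hn
      push Not at hn
      have := (h.tube hx (m0 hn) h.sb.m0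
        ⟨by rw [e0]; linarith, by rw [f1]; linarith, by rw [e0, f1]; linarith⟩).1
      linarith
    exact ⟨by linarith, this⟩
  · have : x 1 < b - 3 := by
      by_contra hn
      push Not at hn
      have := (h.tube hx h.sa.m0 (m1 hn)
        ⟨by rw [f0]; linarith, by rw [e1]; linarith, by rw [e1, f0]; linarith⟩).2.1
      linarith
    exact ⟨by linarith, this⟩
  · by_contra hn
    push Not at hn
    have := (h.tube hx (m0 (by linarith)) (m1 (by linarith))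
      ⟨by rw [e0]; linarith, by rw [e1]; linarith, by rw [e0, e1]; linarith⟩).1
    linarith

theorem inU (ha : a ∈ L 0 ∨ a = hi 0 + 3) (a0 : 10 ≤ a) (hb : b ∈ L 1 ∨ b = hi 1 + 3)
    (b0 : 10 ≤ b) {x : Rn 3} (hx : x ∈ E) (x0 : 1 ≤ x 0) (x1 : 1 ≤ x 1) (x2 : 4 ≤ x 0 + x 1) :
    x ∈ bC lo hi 0 a 0 b ∧ (1 < x 0 → 1 < x 1 → 4 < x 0 + x 1 → x ∈ bU lo hi 0 a 0 b) := by
  obtain ⟨l0, -⟩ := h.lt0 ha a0 hx
  obtain ⟨l1, -⟩ := h.lt1 hb b0 hx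
  obtain ⟨f1, f2, f3⟩ := h.far ha a0 hb b0 hx
  have g1 : 4 < (a - x 0) + x 1 := lt_of_not_ge fun k => by linarith [(f1 k).1]
  have g2 : 4 < x 0 + (b - x 1) := lt_of_not_ge fun k => by linarith [(f2 k).1]
  refine ⟨⟨⟨fun i => (h.box hx i).1.le, fun i => (h.box hx i).2.le⟩, ?_⟩,
    fun k0 k1 k2 => ⟨h.box hx, ?_⟩⟩
  · refine ⟨?_, ?_, ?_, ?_, ?_, ?_, ?_, ?_⟩ <;> linarith only [x0, l0, x1, l1, x2, g1, g2, f3]
  · refine ⟨?_, ?_, ?_, ?_, ?_, ?_, ?_, ?_⟩ <;> linarith only [k0, l0, k1, l1, k2, g1, g2, f3]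

/-- A point of `E` off the closed cell is joined to the boundary of `E` off the closed cell. -/
theorem join {x : Rn 3} (hx : x ∈ E) (hn : ¬ (1 ≤ x 0 ∧ 1 ≤ x 1 ∧ 4 ≤ x 0 + x 1))
    (x0 : 0 < x 0) (x1 : 0 < x 1) : ∃ y ∈ α ∪ β, ∀ t : ℝ, 0 ≤ t → t ≤ 1 → y + t • (x - y) ∈ F ∧
      ¬ (1 ≤ (y + t • (x - y)) 0 ∧ 1 ≤ (y + t • (x - y)) 1 ∧
        4 ≤ (y + t • (x - y)) 0 + (y + t • (x - y)) 1) := by
  by_cases k0 : x 0 < 1
  · refine ⟨update x 0 0, Or.inl (h.sa.foot hx x0 x1 k0.le), fun t t0 t1 => ?_⟩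
    rw [ema_upd]
    have : 0 ≤ t * x 0 := mul_nonneg t0 x0.le
    have : t * x 0 < 1 := by linarith only [k0, x0, t1, mul_nonneg_of_nonpos_of_nonpos (le_of_lt (Mathlib.Tactic.Linarith.sub_neg_of_lt x0)) (Mathlib.Tactic.Linarith.sub_nonpos_of_le t1)]
    refine ⟨h.sa.fib x hx 0 h.sa.m0 (by rw [sub_zero, abs_of_pos x0]; exact k0.le) _
      (abs_le.2 ⟨by linarith, by linarith⟩), fun k => ?_⟩
    have := k.1
    rw [update_self] at this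
    linarith
  by_cases k1 : x 1 < 1
  · refine ⟨update x 1 0, Or.inr (h.sb.foot hx x1 x0 k1.le), fun t t0 t1 => ?_⟩
    rw [ema_upd]
    have : 0 ≤ t * x 1 := mul_nonneg t0 x1.le
    have : t * x 1 < 1 := by linarith only [k1, x1, t1, mul_nonneg_of_nonpos_of_nonpos (le_of_lt (Mathlib.Tactic.Linarith.sub_neg_of_lt x1)) (Mathlib.Tactic.Linarith.sub_nonpos_of_le t1)]
    refine ⟨h.sb.fib x hx 0 h.sb.m0 (by rw [sub_zero, abs_of_pos x1]; exact k1.le) _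
      (abs_le.2 ⟨by linarith, by linarith⟩), fun k => ?_⟩
    have := k.2.1
    rw [update_self] at this
    linarith
  push Not at k0 k1
  have k2 : x 0 + x 1 < 4 := lt_of_not_ge fun k => hn ⟨k0, k1, k⟩
  have xo : x ∈ oc 0 0 := ema_oc0 x0.le x1.le (by linarith) (by linarith) k2.le
  have mo : (![0, 0, x 2] : Rn 3) ∈ oc 0 0 := by simp [oc]
  refine ⟨![0, 0, x 2], Or.inl ?_, fun t t0 t1 =>
    ⟨h.tub 0 h.sa.m0 0 h.sb.m0 x hx xo _ (ema_oc mo xo t0 t1) (ema_h rfl t), fun k => ?_⟩⟩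
  · rcases h.tube1 hx (by linarith) (by linarith) k2.le with e | e
    · rw [ema_ext (x := ![0, 0, x 2]) (y := p) h.sb.pj.symm h.sa.pj.symm e]
      exact h.sa.arc.tarc.left
    · rw [ema_ext (x := ![0, 0, x 2]) (y := q) h.sb.qj.symm h.sa.qj.symm e]
      exact h.sa.arc.tarc.right
  · have : 4 ≤ (0 + t * (x 0 - 0)) + (0 + t * (x 1 - 0)) := k.2.2
    linarith only [k2, this, x0, t1, x1, mul_nonneg_of_nonpos_of_nonpos (le_of_lt (Mathlib.Tactic.Linarith.sub_neg_of_lt x0)) (Mathlib.Tactic.Linarith.sub_nonpos_of_le t1), mul_nonneg_of_nonpos_of_nonpos (le_of_lt (Mathlib.Tactic.Linarith.sub_neg_of_lt x1)) (Mathlib.Tactic.Linarith.sub_nonpos_of_le t1)]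

end EmaT

theorem ema_crc {A B : Set (Rn 3)} {u v : ℝ} (huv : u ≠ v) (hA : Arc A ![1, 3, u] ![1, 3, v])
    (hB : Arc B ![3, 1, u] ![3, 1, v]) (sA : ∀ x ∈ A, x 0 = 1) (sB : ∀ x ∈ B, x 1 = 1 ∧ 3 ≤ x 0) :
    Crc (A ∪ B ∪ {x | x 0 + x 1 = 4 ∧ 1 ≤ x 0 ∧ 1 ≤ x 1 ∧ (x 2 = u ∨ x 2 = v)}) := by
  have d1 := ema_diag u
  have d2 := ema_diag v
  have g1 := arc_glue d1 hB (Subset.antisymm (fun x hx =>
    ema_ext (by have := hx.1.1; rw [(sB x hx.2).1] at this; simp; linarith) (sB x hx.2).1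
      hx.1.2.2.2) (singleton_subset_iff.2 ⟨d1.tarc.right, hB.tarc.left⟩))
  have g2 := arc_glue g1 d2.symm (Subset.antisymm (by
    rintro x ⟨k | k, hx⟩
    · exact absurd (k.2.2.2.symm.trans hx.2.2.2) huv
    · exact ema_ext (by have := hx.1; rw [(sB x k).1] at this; simp; linarith) (sB x k).1
        hx.2.2.2) (singleton_subset_iff.2 ⟨g1.tarc.right, d2.tarc.right⟩))
  have g3 := crc_glue hA g2 (Subset.antisymm (by
    rintro x ⟨hx, (k | k) | k⟩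
    · exact Or.inl (ema_ext (sA x hx) (by have := k.1; rw [sA x hx] at this; simp; linarith)
        k.2.2.2)
    · have := (sB x k).2
      rw [sA x hx] at this
      norm_num at this
    · exact Or.inr (ema_ext (sA x hx) (by have := k.1; rw [sA x hx] at this; simp; linarith)
        k.2.2.2)) (by
    rintro x (rfl | rfl)
    · exact ⟨hA.tarc.left, g2.tarc.left⟩
    · exact ⟨hA.tarc.right, g2.tarc.right⟩))
  have e : A ∪ B ∪ {x : Rn 3 | x 0 + x 1 = 4 ∧ 1 ≤ x 0 ∧ 1 ≤ x 1 ∧ (x 2 = u ∨ x 2 = v)} =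
      A ∪ ({x : Rn 3 | x 0 + x 1 = 4 ∧ 1 ≤ x 0 ∧ 1 ≤ x 1 ∧ x 2 = u} ∪ B ∪
        {x : Rn 3 | x 0 + x 1 = 4 ∧ 1 ≤ x 0 ∧ 1 ≤ x 1 ∧ x 2 = v}) := by
    ext x
    simp only [mem_union, mem_ofPred_eq]
    tauto
  rw [e]
  exact g3

theorem ema_open (lo hi : Rn 3) (a b : ℝ) : IsOpen (bU lo hi 0 a 0 b) := by
  have c : ∀ i : Fin 3, Continuous fun x : Rn 3 => x i := continuous_apply
  have o : IsOpen (bO lo hi) := by
    rw [bO, ofPred_forall]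
    exact isOpen_iInter_of_finite fun i =>
      (isOpen_lt continuous_const (c i)).inter (isOpen_lt (c i) continuous_const)
  refine IsOpen.and o (IsOpen.and ?_ (IsOpen.and ?_ (IsOpen.and ?_ (IsOpen.and ?_ (IsOpen.and ?_
    (IsOpen.and ?_ (IsOpen.and ?_ ?_))))))) <;> exact isOpen_lt (by fun_prop) (by fun_prop)

theorem ema_gap (hB : EBx L lo hi) {i : Fin 3} (m0 : 0 ∈ L i) {a : ℝ}
    (ha : Gap (Lx L lo hi i) 0 a) : (a ∈ L i ∨ a = hi i + 3) ∧ 10 ≤ a := by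
  have k := hB.inn i 0 m0
  have a0 := ha.2.2.1
  rcases ha.2.1 with e | e | e
  · linarith [k.1]
  · exact ⟨Or.inr e, by linarith [k.2]⟩
  · exact ⟨Or.inl e, by linarith [hB.gap i 0 m0 a e a0]⟩

theorem extract {ι : Type} [Finite ι] {F J : ι → Set (Rn 3)} (hB : EBx L lo hi) (hF : ESt F J)
    (h1 : ∀ c, HP L lo hi (F c)) (h2 : ∀ c, HP L lo hi (J c))
    (h3 : ∀ c, Disjoint (J c) (bT L lo hi)) {a b : ℝ} (m0 : 0 ∈ L 0) (m1 : 0 ∈ L 1)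
    (ha : Gap (Lx L lo hi 0) 0 a) (hb : Gap (Lx L lo hi 1) 0 b) {c : ι} {E α β : Set (Rn 3)}
    {p q : Rn 3} (h : Big L lo hi (F c) (J c) E α β p q) (p0 : p 0 = 0) (p1 : p 1 = 0)
    (hz : p 2 < q 2) (hq : ∀ x ∈ E \ (α ∪ β), 0 < x 0 ∧ 0 < x 1) :
    ∃ (α' β' : Set (Rn 2)) (E' J' Z : Set (Rn 3)),
      Arc α' ![3, p 2] ![3, q 2] ∧ Arc β' ![3, p 2] ![3, q 2] ∧
      (∀ y ∈ α', y = ![3, p 2] ∨ y = ![3, q 2] ∨
        (3 < y 0 ∧ y 0 < b - 3 ∧ lo 2 < y 1 ∧ y 1 < hi 2)) ∧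
      (∀ y ∈ β', y = ![3, p 2] ∨ y = ![3, q 2] ∨
        (3 < y 0 ∧ y 0 < a - 3 ∧ lo 2 < y 1 ∧ y 1 < hi 2)) ∧
      J' = {x | x 0 = 1 ∧ ![x 1, x 2] ∈ α'} ∪ {x | x 1 = 1 ∧ ![x 0, x 2] ∈ β'} ∪
        {x | x 0 + x 1 = 4 ∧ 1 ≤ x 0 ∧ 1 ≤ x 1 ∧ (x 2 = p 2 ∨ x 2 = q 2)} ∧
      PDsc E' J' ∧ E' ⊆ bC lo hi 0 a 0 b ∧ E' \ bU lo hi 0 a 0 b = J' ∧
      IsClosed Z ∧ Disjoint Z E' ∧ (⋃ d, F d) ∩ bC lo hi 0 a 0 b ⊆ E' ∪ Z := by
  have hD := hF.dsc c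
  have EF : E ⊆ F c := h.sub.trans sdiff_subset
  have a0 : ∀ x ∈ α, x 0 = 0 := fun x hx =>
    (h.aa.tarc.conn.constant_of_mapsTo (hB.fin 0).isDiscrete (continuous_apply 0).continuousOn
      h.ua hx h.aa.tarc.left).trans p0
  have b0 : ∀ x ∈ β, x 1 = 0 := fun x hx =>
    (h.ab.tarc.conn.constant_of_mapsTo (hB.fin 1).isDiscrete (continuous_apply 1).continuousOn
      h.ub hx h.ab.tarc.left).trans p1
  have T : EmaT L lo hi (F c) E α β p q :=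
    ⟨ema_mk hB (by decide) hD (h1 c) h.dsc (fun _ => Iff.rfl) EF h.box m0 m1 h.aa a0 b0
        h.ab.tarc.left h.ab.tarc.right h.va (fun x hx => (h.fre x hx).1) hq,
      ema_mk hB (by decide) hD (h1 c) h.dsc (fun _ => or_comm) EF h.box m1 m0 h.ab b0 a0
        h.aa.tarc.left h.aa.tarc.right h.vb (fun x hx => (h.fre x hx).2)
        fun x hx => (hq x hx).symm,
      h.box, fun a ha b hb x hx => (h1 c).tub a ha b hb x (EF hx) (h.box hx),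
      fun x hx x0 x1 => by
        by_cases k : x ∈ α ∪ β
        · rcases k with k | k
          · exact h.va x k x1
          · exact h.vb x k x0
        · exact absurd x0 (h.fre x ⟨hx, k⟩).1, hz⟩
  obtain ⟨ga, ga'⟩ := ema_gap hB m0 ha
  obtain ⟨gb, gb'⟩ := ema_gap hB m1 hb
  obtain ⟨α', A1, A2, A3, A4⟩ := T.sa.out (fun _ _ => ema_ext) (by decide) (by decide) hz.ne
    (fun x x0 x1 x2 x3 => by
      have hx := T.quart x0.ge x1 (by linarith) x2 (by linarith) x3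
      rcases x1.eq_or_lt with k | k
      · rcases T.cen x hx (x0 ▸ m0) (k ▸ m1) with e | e
        · exact e ▸ h.aa.tarc.left
        · exact e ▸ h.aa.tarc.right
      · exact T.sa.lev x hx (x0 ▸ m0) k)
    fun x hx x1 => T.tube1 (T.sa.sub hx) (by linarith [a0 x hx]) x1 (by linarith [a0 x hx])
  obtain ⟨β', B1, B2, B3, B4⟩ := T.sb.out (fun _ _ k1 k0 => ema_ext k0 k1) (by decide) (by decide)
    hz.ne
    (fun x x0 x1 x2 x3 => by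
      have hx := T.quart x1 x0.ge x2 (by linarith) (by linarith) x3
      rcases x1.eq_or_lt with k | k
      · rcases T.cen x hx (k ▸ m0) (x0 ▸ m1) with e | e
        · exact e ▸ h.ab.tarc.left
        · exact e ▸ h.ab.tarc.right
      · exact T.sb.lev x hx (x0 ▸ m1) k)
    fun x hx x1 => T.tube1 (T.sb.sub hx) x1 (by linarith [b0 x hx]) (by linarith [b0 x hx])
  obtain ⟨J', hJ'⟩ : ∃ J' : Set (Rn 3), J' = {x | x 0 = 1 ∧ ![x 1, x 2] ∈ α'} ∪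
      {x | x 1 = 1 ∧ ![x 0, x 2] ∈ β'} ∪
      {x | x 0 + x 1 = 4 ∧ 1 ≤ x 0 ∧ 1 ≤ x 1 ∧ (x 2 = p 2 ∨ x 2 = q 2)} := ⟨_, rfl⟩
  have hc : Crc J' := by
    rw [hJ']
    exact ema_crc hz.ne (A4 _ _ rfl rfl rfl rfl rfl rfl) (B4 _ _ rfl rfl rfl rfl rfl rfl)
      (fun x hx => hx.1) fun x hx => ⟨hx.1, ((B2 x).1 hx.2).2⟩
  have mJ : ∀ x, x ∈ J' ↔ x ∈ E ∧ (1 ≤ x 0 ∧ 1 ≤ x 1 ∧ 4 ≤ x 0 + x 1) ∧
      (x 0 = 1 ∨ x 1 = 1 ∨ x 0 + x 1 = 4) := fun x => by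
    rw [hJ']
    constructor
    · rintro ((⟨k0, k⟩ | ⟨k0, k⟩) | ⟨k0, k1, k2, k3⟩)
      · obtain ⟨k1, k2⟩ := (A2 x).1 k
        have := T.sa.band k1 (by simp; linarith)
        rw [update_idem, ← k0, update_eq_self] at this
        exact ⟨this, ⟨k0.ge, by linarith, by linarith⟩, Or.inl k0⟩
      · obtain ⟨k1, k2⟩ := (B2 x).1 k
        have := T.sb.band k1 (by simp; linarith)
        rw [update_idem, ← k0, update_eq_self] at this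
        exact ⟨this, ⟨by linarith, k0.ge, by linarith⟩, Or.inr (Or.inl k0)⟩
      · exact ⟨T.quart (by linarith) (by linarith) (by linarith) (by linarith) k0.le k3,
          ⟨k1, k2, k0.ge⟩, Or.inr (Or.inr k0)⟩
    · rintro ⟨hx, ⟨k0, k1, k2⟩, k | k | k⟩
      · exact Or.inl (Or.inl ⟨k, (A2 x).2
          ⟨T.sa.foot hx (by linarith) (by linarith) k.le, by linarith⟩⟩)
      · exact Or.inl (Or.inr ⟨k, (B2 x).2
          ⟨T.sb.foot hx (by linarith) (by linarith) k.le, by linarith⟩⟩)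
      · exact Or.inr ⟨k, k0, k1, T.tube1 hx (by linarith) (by linarith) k.le⟩
  have tri : ∀ x ∈ E, (1 ≤ x 0 ∧ 1 ≤ x 1 ∧ 4 ≤ x 0 + x 1) → x ∈ bU lo hi 0 a 0 b ∨ x ∈ J' :=
    fun x hx k => by
      by_cases e : x 0 = 1 ∨ x 1 = 1 ∨ x 0 + x 1 = 4
      · exact Or.inr ((mJ x).2 ⟨hx, k, e⟩)
      · push Not at e
        exact Or.inl ((T.inU ga ga' gb gb' hx k.1 k.2.1 k.2.2).2 (k.1.lt_of_ne' e.1)
          (k.2.1.lt_of_ne' e.2.1) (k.2.2.lt_of_ne' e.2.2))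
  have uW : ∀ x ∈ bU lo hi 0 a 0 b, 1 < x 0 ∧ 1 < x 1 ∧ 4 < x 0 + x 1 := fun x hx => by
    obtain ⟨-, k0, -, k1, -, k2, -⟩ := hx
    exact ⟨by linarith, by linarith, by linarith⟩
  have cW : closure (bU lo hi 0 a 0 b) ⊆ {x : Rn 3 | 1 ≤ x 0 ∧ 1 ≤ x 1 ∧ 4 ≤ x 0 + x 1} :=
    closure_minimal (fun x hx => ⟨(uW x hx).1.le, (uW x hx).2.1.le, (uW x hx).2.2.le⟩)
      (by
        refine IsClosed.and ?_ (IsClosed.and ?_ ?_) <;>
          exact isClosed_le (by fun_prop) (by fun_prop))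
  have nW : ∀ x ∈ α ∪ β, ¬ (1 ≤ x 0 ∧ 1 ≤ x 1 ∧ 4 ≤ x 0 + x 1) := by
    rintro x (hx | hx) k
    · linarith [a0 x hx, k.1]
    · linarith [b0 x hx, k.2.1]
  obtain ⟨E', e1, e2, e3, e4⟩ := ethick (N := (bU lo hi 0 a 0 b)ᶜ) hD h.dsc h.sub hc
    (fun x hx => ((mJ x).1 hx).1) (ema_open lo hi a b) (by rw [compl_union_self]; exact subset_univ _)
    (disjoint_left.2 fun x hx k => nW x hx (cW (subset_closure k)))
    (fun x hx k1 k2 => (tri x hx (cW k2)).resolve_left k1)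
    (fun x hx k1 k2 => by
      have hn : ¬ (1 ≤ x 0 ∧ 1 ≤ x 1 ∧ 4 ≤ x 0 + x 1) := fun k => (tri x hx k).elim k1 k2
      by_cases k : x ∈ α ∪ β
      · exact ⟨{x}, isPreconnected_singleton, rfl, singleton_subset_iff.2 ⟨EF hx, k2⟩, x, rfl, k⟩
      · obtain ⟨y, hy, hs⟩ := T.join hx hn (hq x ⟨hx, k⟩).1 (hq x ⟨hx, k⟩).2
        refine ⟨segment ℝ y x, (convex_segment y x).isPreconnected, right_mem_segment ℝ y x, ?_,
          y, left_mem_segment ℝ y x, hy⟩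
        rw [segment_eq_image']
        rintro _ ⟨t, ht, rfl⟩
        exact ⟨(hs t ht.1 ht.2).1, fun k => (hs t ht.1 ht.2).2 ((mJ _).1 k).2.1⟩)
  have eW : ∀ x ∈ E', 1 ≤ x 0 ∧ 1 ≤ x 1 ∧ 4 ≤ x 0 + x 1 := fun x hx => by
    by_cases k : x ∈ J'
    · exact ((mJ x).1 k).2.1
    · exact cW (subset_closure (not_notMem.1 (disjoint_left.1 e3 ⟨hx, k⟩)))
  refine ⟨α', β', E', J', (⋃ d ∈ {d | d ≠ c}, F d) ∪ (F c \ (E \ (α ∪ β))), A1, B1,
    fun y hy => ?_, fun y hy => ?_, hJ', e1,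
    fun x hx => (T.inU ga ga' gb gb' (e2 hx) (eW x hx).1 (eW x hx).2.1 (eW x hx).2.2).1,
    Subset.antisymm (fun x hx => ?_) fun x hx => ⟨e1.sub hx, fun k => ?_⟩,
    ((toFinite _).isClosed_biUnion fun d _ => (hF.dsc d).cpt.isClosed).union
      (sd_open hD h.dsc EF).1, disjoint_left.2 ?_, ?_⟩
  · obtain ⟨x, hx, rfl, x3⟩ := A3 y hy
    have hE := T.sa.sub hx
    rcases x3.eq_or_lt with k | k
    · rcases T.tube1 hE (by linarith only [a0, hx, a0 x hx]) k.ge (by linarith [a0 x hx]) with e | e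
      · exact Or.inl (by rw [← k, e])
      · exact Or.inr (Or.inl (by rw [← k, e]))
    · refine Or.inr (Or.inr ⟨k, ?_, (h.box hE 2).1, (h.box hE 2).2⟩)
      show x 1 < b - 3
      by_contra hn
      exact hn ((T.far ga ga' gb gb' hE).2.1 (by linarith [a0 x hx])).2
  · obtain ⟨x, hx, rfl, x3⟩ := B3 y hy
    have hE := T.sb.sub hx
    rcases x3.eq_or_lt with k | k
    · rcases T.tube1 hE k.ge (by linarith [b0 x hx]) (by linarith [b0 x hx]) with e | e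
      · exact Or.inl (by rw [← k, e])
      · exact Or.inr (Or.inl (by rw [← k, e]))
    · refine Or.inr (Or.inr ⟨k, ?_, (h.box hE 2).1, (h.box hE 2).2⟩)
      show x 0 < a - 3
      by_contra hn
      exact hn ((T.far ga ga' gb gb' hE).1 (by linarith [b0 x hx])).2
  · by_contra k
    exact disjoint_left.1 e3 ⟨hx.1, k⟩ hx.2
  · obtain ⟨k0, k1, k2⟩ := uW x k
    rcases ((mJ x).1 hx).2.2 with e | e | e <;> linarith only [k0, e, k1, k2]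
  · rintro x (hx | hx) k
    · obtain ⟨d, hd, hx⟩ := mem_iUnion₂.1 hx
      exact disjoint_left.1 (hF.dis c d (Ne.symm hd)) (h.sub (e2 k)) hx
    · exact hx.2 ⟨e2 k, fun k' => nW x k' (eW x k)⟩
  · rintro x ⟨hx, k⟩
    obtain ⟨d, hd⟩ := mem_iUnion.1 hx
    by_cases e : d = c
    · rw [e] at hd
      by_cases k' : x ∈ E \ (α ∪ β)
      · obtain ⟨-, k0, -, k1, -, k2, -⟩ := k
        rcases tri x k'.1 ⟨by linarith, by linarith, by linarith⟩ with e | e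
        · exact Or.inl (e4 ⟨k'.1, subset_closure e⟩)
        · exact Or.inl (e1.sub e)
      · exact Or.inr (Or.inr ⟨hd, k'⟩)
    · exact Or.inr (Or.inl (mem_iUnion₂.2 ⟨d, e, hd⟩))

end BEp
end
end

-- merged part: Pool.Agent.Work.MP_f0515e_an.D3.EMB1
section
/-! The bigon move in the quadrant `x 0 > 0`, `x 1 > 0` of the tube at `(0, 0)`. The chart is first sheared so that the outer collars of the corridors stay in the box. -/

open Set Metric Filter Topology Function BEv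
open scoped NNReal

noncomputable section
namespace BEp

variable {L : Fin 3 → Set ℝ} {lo hi : Rn 3}

theorem EMB1_lip {ξ : Rn 3 → Rn 3} {Λ : ℝ≥0} (h : LipschitzWith Λ ξ) (r : Rn 3) (t : ℝ)
    (i : Fin 3) : ξ r i ≤ ξ (update r 2 t) i + Λ * |r 2 - t| := by
  have h1 : dist r (update r 2 t) ≤ |r 2 - t| := (dist_pi_le_iff (abs_nonneg _)).2 fun j => by
    by_cases e : j = 2
    · rw [e, update_self, Real.dist_eq]
    · rw [update_of_ne e, dist_self]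
      exact abs_nonneg _
  have h2 := (dist_le_pi_dist _ _ i).trans
    ((h.dist_le_mul r (update r 2 t)).trans (mul_le_mul_of_nonneg_left h1 Λ.2))
  rw [Real.dist_eq] at h2
  linarith [le_abs_self (ξ r i - ξ (update r 2 t) i)]

theorem EMB1_chi {K : ℝ} (hK : 5 ≤ K) : ∃ ξ, Chi K ξ ∧
    (∀ q, 3 ≤ q 0 → q 0 ≤ K → 3 < q 2 → q 2 < 4 → ξ q 1 ≤ max (q 0) 5) ∧
    ∀ q, 3 ≤ q 0 → q 0 ≤ K → -4 < q 2 → q 2 < -3 → ξ q 0 ≤ max (q 0) 5 := by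
  obtain ⟨ξ, h⟩ := exists_chi hK
  obtain ⟨Λ, hΛ⟩ := h.lh.tp.lip
  obtain ⟨ρ, l, r1, r2, r3, r4⟩ : ∃ ρ : Rn 3 → Rn 3, LH ρ ∧ (∀ q, ρ q 1 = q 1) ∧
      (∀ q, ρ q 2 = q 2) ∧ (∀ q, |q 2| ≤ 3 ∨ q 0 ≤ 3 → ρ q = q) ∧
      ∀ q, 3 ≤ q 0 → 3 ≤ |q 2| → 3 ≤ ρ q 0 ∧ ρ q 0 ≤ q 0 ∧
        (ρ q 0 + Λ * (|q 2| - 3) = q 0 ∨ 2 * ρ q 0 = q 0 + 3) := by
    refine ⟨fun q => update q 0 (q 0 - min (Λ * max (|q 2| - 3) 0) (max (q 0 - 3) 0 / 2)),
      lh_vert 0 ((TP.id'.apply 0).sub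
        (((((TP.id'.apply 2).abs.sub (TP.const 3)).max (TP.const 0)).const_mul _).min
          ((((TP.id'.apply 0).sub (TP.const 3)).max (TP.const 0)).div_const 2)))
        one_half_pos fun x s t e => ?_, fun q => rfl, fun q => rfl, fun q e => ?_,
      fun q e e' => ?_⟩
    · simp only [update_self, update_of_ne (show (2 : Fin 3) ≠ 0 by decide)]
      generalize Λ * max (|x 2| - 3) 0 = A
      simp only [min_def, max_def]
      split_ifs <;> linarith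
    · have h1 : min (Λ * max (|q 2| - 3) 0) (max (q 0 - 3) 0 / 2) = 0 := by
        rcases e with e | e
        · rw [max_eq_right (sub_nonpos.2 e), mul_zero]
          exact min_eq_left (by positivity)
        · rw [max_eq_right (sub_nonpos.2 e), zero_div]
          exact min_eq_right (by positivity)
      simp only [h1, sub_zero, update_eq_self]
    · have h1 : 0 ≤ Λ * (|q 2| - 3) := mul_nonneg Λ.2 (sub_nonneg.2 e')
      simp only [update_self, max_eq_left (sub_nonneg.2 e), max_eq_left (sub_nonneg.2 e')]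
      rcases le_total (Λ * (|q 2| - 3)) ((q 0 - 3) / 2) with k | k
      · rw [min_eq_left k]
        exact ⟨by linarith only [e, k], by linarith, .inl (by ring)⟩
      · rw [min_eq_right k]
        exact ⟨by linarith, by linarith only [e], .inr (by ring)⟩
  have a1 : ∀ q : Rn 3, -3 ≤ q 2 → q 2 ≤ 3 → ρ q = q := fun q e e' =>
    r3 q (.inl (abs_le.2 ⟨e, e'⟩))
  have a2 : ∀ q : Rn 3, |q 0| ≤ K → 3 ≤ |q 2| → |ρ q 0| ≤ K ∧ max (ρ q 0 - 1) 2 ≤ max (q 0 - 1) 2 ∧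
      min (q 0 + 1) (-2) ≤ min (ρ q 0 + 1) (-2) ∧ max (ρ q 0 + 1) 4 ≤ max (q 0 + 1) 4 ∧
      min (q 0 - 1) (-4) ≤ min (ρ q 0 - 1) (-4) := fun q e e' => by
    rcases le_total (q 0) 3 with k | k
    · rw [r3 q (.inr k)]
      exact ⟨e, le_rfl, le_rfl, le_rfl, le_rfl⟩
    · obtain ⟨k1, k2, -⟩ := r4 q k e'
      exact ⟨abs_le.2 ⟨by linarith, k2.trans ((le_abs_self _).trans e)⟩,
        max_le_max (by linarith) le_rfl, le_min ((min_le_right _ _).trans (by linarith))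
          (min_le_right _ _), max_le_max (by linarith) le_rfl,
        le_min ((min_le_right _ _).trans (by linarith)) (min_le_right _ _)⟩
  refine ⟨ξ ∘ ρ, ⟨h.lh.comp l, fun q => (h.z _).trans (r1 q), fun q => (h.oct _).trans ?_,
    fun q e1 e2 e3 e4 => ?_, fun q e1 e2 e3 e4 => ?_, fun q e1 e2 e3 e4 => ?_,
    fun q e1 e2 e3 e4 => ?_, fun q e1 e2 e3 => ?_, fun x e1 e2 e3 => ?_, fun q e1 e2 e3 => ?_,
    fun q e1 e2 e3 => ?_, fun q e1 e2 e3 => ?_⟩, fun q e1 e2 e3 e4 => ?_, fun q e1 e2 e3 e4 => ?_⟩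
  · rw [r2]
    exact and_congr_left fun e => by rw [r3 q (.inl e)]
  · rw [comp_apply, a1 q (by linarith) e4]
    exact h.up q e1 e2 e3 e4
  · rw [comp_apply, a1 q e3 (by linarith)]
    exact h.vp q e1 e2 e3 e4
  · rw [comp_apply, a1 q (by linarith) e4]
    exact h.vm q e1 e2 e3 e4
  · rw [comp_apply, a1 q e3 (by linarith)]
    exact h.um q e1 e2 e3 e4
  · rw [comp_apply, r3 q (.inl (by linarith))]
    exact h.cp q e1 e2 e3
  · obtain ⟨q, k1, k2, k3⟩ := h.seg x e1 e2 e3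
    exact ⟨q, by rw [comp_apply, r3 q (.inr k2.le), k1], k2, k3⟩
  · rw [comp_apply, r3 q (.inl (by linarith))]
    exact h.cm q e1 e2 e3
  · obtain ⟨k0, k1, k2, k3, k4⟩ := a2 q e1 (e2.le.trans (le_abs_self _))
    obtain ⟨b1, b2, b3, b4, b5, b6, b7⟩ := h.wp (ρ q) k0 (r2 q ▸ e2) (r2 q ▸ e3)
    exact ⟨b1, b2, b3, b4.trans k1, k2.trans b5, b6.trans k3, k4.trans b7⟩
  · obtain ⟨k0, k1, k2, k3, k4⟩ := a2 q e1 (le_abs.2 (.inr (by linarith)))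
    obtain ⟨b1, b2, b3, b4, b5, b6, b7⟩ := h.wm (ρ q) k0 (r2 q ▸ e2) (r2 q ▸ e3)
    exact ⟨b1, b2, b3, b4.trans k1, k2.trans b5, b6.trans k3, k4.trans b7⟩
  · obtain ⟨k1, k2, k3⟩ := r4 q e1 (e3.le.trans (le_abs_self _))
    have b := (h.wp (ρ q) (abs_le.2 ⟨by linarith, k2.trans e2⟩) (r2 q ▸ e3) (r2 q ▸ e4)).2.2.2.2.2.1
    have c := EMB1_lip hΛ (ρ q) 3 1
    rw [(h.up (update (ρ q) 2 3) k1 (k2.trans e2) (by simp) (by simp)).2, r2,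
      abs_of_pos (sub_pos.2 e3)] at c
    rw [abs_of_pos (by linarith)] at k3
    rcases k3 with k3 | k3
    · exact le_max_of_le_left (c.trans_eq k3)
    · refine b.trans (max_le ?_ (le_max_of_le_right (by norm_num)))
      linarith [le_max_left (q 0) 5, le_max_right (q 0) 5]
  · obtain ⟨k1, k2, k3⟩ := r4 q e1 (le_abs.2 (.inr (by linarith)))
    have b := (h.wm (ρ q) (abs_le.2 ⟨by linarith, k2.trans e2⟩) (r2 q ▸ e3) (r2 q ▸ e4)).2.2.2.2.2.1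
    have c := EMB1_lip hΛ (ρ q) (-3) 0
    rw [(h.vp (update (ρ q) 2 (-3)) k1 (k2.trans e2) (by simp) (by simp)).1, r2,
      abs_of_neg (sub_neg.2 e4)] at c
    rw [abs_of_neg (by linarith)] at k3
    rcases k3 with k3 | k3
    · refine le_max_of_le_left (c.trans_eq (Eq.trans ?_ k3))
      rw [update_of_ne (by decide)]
      ring
    · refine b.trans (max_le ?_ (le_max_of_le_right (by norm_num)))
      linarith [le_max_left (q 0) 5, le_max_right (q 0) 5]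

theorem EMB1_eq (hB : EBx L lo hi) {i : Fin 3} {l l' t : ℝ} (h : l ∈ L i) (h' : l' ∈ L i)
    (e : |t - l| ≤ 3) (e' : |t - l'| ≤ 3) : l = l' := by
  rw [abs_le] at e e'
  rcases lt_trichotomy l l' with k | k | k
  · linarith [hB.gap i l h l' h' k]
  · exact k
  · linarith [hB.gap i l' h' l h k]

theorem EMB1_fib (hB : EBx L lo hi) {w : Fin 3 × ℝ} {x : Rn 3} (h : w.2 ∈ L w.1)
    (h' : |x w.1 - w.2| ≤ 1) {l m t : ℝ} (hl : l ∈ L 0) (hm : m ∈ L 1) (k : x ∈ oc l m)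
    (ht : t ∈ Icc (-1 : ℝ) 1) : bf w x t ∈ oc l m ∧ bf w x t 2 = x 2 := by
  obtain ⟨i, s⟩ := w
  have ht' := abs_le.2 ht
  obtain ⟨k1, k2, -⟩ := k
  fin_cases i
  · obtain rfl : s = l := EMB1_eq hB h hl (h'.trans (by norm_num)) k1
    have e : bf (0, s) x t 0 - s = t := add_sub_cancel_left s t
    have e' : bf (0, s) x t 1 = x 1 := rfl
    exact ⟨⟨e.symm ▸ by linarith, k2, e.symm ▸ e'.symm ▸ by linarith⟩, rfl⟩
  · obtain rfl : s = m := EMB1_eq hB h hm (h'.trans (by norm_num)) k2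
    have e : bf (1, s) x t 1 - s = t := add_sub_cancel_left s t
    have e' : bf (1, s) x t 0 = x 0 := rfl
    exact ⟨⟨k1, e.symm ▸ by linarith, e.symm ▸ e'.symm ▸ by linarith⟩, rfl⟩
  · exact absurd h (hB.two.symm ▸ notMem_empty s :)

theorem EMB1_core (hB : EBx L lo hi) (m0 : 0 ∈ L 0) (m1 : 0 ∈ L 1) {X S Tb : Set (Rn 3)}
    {K : Bool → Set (Rn 3)} {c : Bool → ℝ} {ξ Ψ : Rn 3 → Rn 3} (hξ : LH ξ)
    (hz : ∀ q, ξ q 2 = q 1) (hΨ : Mv S Ψ) (hT : ∀ q, q ∈ Tb ↔ ξ q ∈ bO lo hi ∧ ξ q ∈ oc 0 0)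
    (hS : ∀ q ∈ S, ξ q ∈ bO lo hi ∧ (ξ q ∈ bT L lo hi → q ∈ Tb) ∧
      ∀ w, ξ q ∈ bN L lo hi w → q ∈ Tb ∨ ∃ j, q ∈ K j)
    (kK : ∀ j, ∀ q ∈ K j, ∀ t ∈ Icc (-1 : ℝ) 1,
      update q 2 (c j + t) ∈ K j ∧ (q ∈ Tb → update q 2 (c j + t) ∈ Tb))
    (kW : ∀ j, ∀ q ∈ K j, q ∉ Tb → ∃ w₀, ∃ σ : ℝ, (σ = 1 ∨ σ = -1) ∧ ξ q ∈ bN L lo hi w₀ ∧
      (∀ w, ξ q ∈ bN L lo hi w → w = w₀) ∧
      ∀ t ∈ Icc (-1 : ℝ) 1, bf w₀ (ξ q) t = ξ (update q 2 (c j + σ * t)))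
    (pK : ∀ j q, Ψ q ∈ K j → q ∈ K j ∧
      ∀ t ∈ Icc (-1 : ℝ) 1, Ψ (update q 2 (c j + t)) = update (Ψ q) 2 (c j + t))
    (pT : ∀ q, ξ q ∈ X → Ψ q ∈ Tb → ∀ y ∈ Tb, y 1 = Ψ q 1 → Ψ y = y) :
    EGd L lo hi X (ξ ∘ Ψ ∘ invFun ξ) := by
  obtain ⟨Φ, hΦ⟩ : ∃ Φ, Φ = ξ ∘ Ψ ∘ invFun ξ := ⟨_, rfl⟩
  have e : ∀ q, Φ (ξ q) = ξ (Ψ q) := fun q => by rw [hΦ, comp_apply, comp_apply, hξ.li]
  have mv : Mv (bO lo hi) Φ := hΦ ▸ (hΨ.conj hξ).mono (image_subset_iff.2 fun q k => (hS q k).1)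
  rw [← hΦ]
  have sg : ∀ {σ t : ℝ}, σ = 1 ∨ σ = -1 → t ∈ Icc (-1 : ℝ) 1 → σ * t ∈ Icc (-1 : ℝ) 1 := by
    rintro σ t (rfl | rfl) ⟨k1, k2⟩ <;> constructor <;> linarith only [k1, k2]
  have tb : ∀ q ∈ Tb, ξ q ∈ bT L lo hi := fun q k => ⟨((hT q).1 k).1, 0, m0, 0, m1, ((hT q).1 k).2⟩
  have sl : ∀ x ∈ X, ∀ l ∈ L 0, ∀ m ∈ L 1, Φ x ∈ bO lo hi → Φ x ∈ oc l m → ∀ y ∈ oc l m,
      y 2 = Φ x 2 → Φ y = y := by
    intro x hx l hl m hm h1 h2 y h3 h4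
    obtain ⟨q, rfl⟩ := hξ.1.2 x
    obtain ⟨r, rfl⟩ := hξ.1.2 y
    rw [e] at h1 h2 h4 ⊢
    by_cases k : r ∈ S
    swap
    · rw [hΨ.2 r k]
    have k1 := (hS r k).2.1 ⟨(hS r k).1, l, hl, m, hm, h3⟩
    obtain rfl : l = 0 := EMB1_eq hB hl m0 h3.1 ((hT r).1 k1).2.1
    obtain rfl : m = 0 := EMB1_eq hB hm m1 h3.2.1 ((hT r).1 k1).2.2.1
    rw [pT q hx ((hT _).2 ⟨h1, h2⟩) r k1 (by rwa [hz, hz] at h4)]
  have tub : ∀ x ∈ X, Φ x ∈ bT L lo hi → Φ x = x := fun x hx ⟨h1, l, hl, m, hm, h2⟩ =>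
    mv.1.inj (sl x hx l hl m hm h1 h2 _ h2 rfl)
  have ff : ∀ r w, ξ r ∈ bN L lo hi w → ξ r ∉ bT L lo hi → (∀ j, r ∉ K j) →
      ∀ t ∈ Icc (-1 : ℝ) 1, Φ (bf w (ξ r) t) = bf w (ξ r) t := by
    intro r w h1 h2 h3 t ht
    obtain ⟨r', e'⟩ := hξ.1.2 (bf w (ξ r) t)
    rw [← e', e]
    by_cases k : r' ∈ S
    swap
    · rw [hΨ.2 r' k]
    exfalso
    have k0 : |ξ r' w.1 - w.2| ≤ 1 := by
      rw [e', bf, update_self, add_sub_cancel_left]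
      exact abs_le.2 ht
    have k1 : ξ r' ∈ bN L lo hi w := ⟨(hS r' k).1, h1.2.1, k0⟩
    have k2 : bf w (ξ r') (ξ r w.1 - w.2) = ξ r := by
      rw [e', bf, bf, update_idem, add_sub_cancel, update_eq_self]
    have k3 : r' ∉ Tb := fun k3 => h2 ⟨h1.1, 0, m0, 0, m1,
      k2 ▸ (EMB1_fib hB h1.2.1 k0 m0 m1 ((hT r').1 k3).2 (abs_le.1 h1.2.2)).1⟩
    obtain ⟨j, k4⟩ := ((hS r' k).2.2 w k1).resolve_left k3
    obtain ⟨w₀, σ, s1, -, s2, s3⟩ := kW j r' k4 k3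
    rw [← s2 w k1] at s3
    exact h3 j (hξ.inj (k2.symm.trans (s3 _ (abs_le.1 h1.2.2))) ▸
      (kK j r' k4 _ (sg s1 (abs_le.1 h1.2.2))).1)
  have fy : ∀ q w, ξ (Ψ q) ∈ bN L lo hi w → ξ (Ψ q) ∉ bT L lo hi → (∀ j, Ψ q ∉ K j) → Ψ q = q :=
    fun q w h1 h2 h3 => by
      have := ff _ w h1 h2 h3 _ (abs_le.1 h1.2.2)
      rw [bf, add_sub_cancel, update_eq_self, e] at this
      exact hΨ.1.inj (hξ.inj this)
  refine ⟨mv, fun S' hs hp => ?_, tub, ?_⟩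
  · have tu : ∀ l ∈ L 0, ∀ m ∈ L 1, ∀ x ∈ Φ '' S', x ∈ bO lo hi → x ∈ oc l m → ∀ y ∈ oc l m,
        y 2 = x 2 → y ∈ Φ '' S' := by
      rintro l hl m hm _ ⟨x, hx, rfl⟩ h1 h2 y h3 h4
      have k := tub x (hs hx) ⟨h1, l, hl, m, hm, h2⟩
      exact ⟨y, hp.tub l hl m hm x hx (k ▸ h1) (k ▸ h2) y h3 (k ▸ h4),
        sl x (hs hx) l hl m hm h1 h2 y h3 h4⟩
    refine ⟨?_, tu⟩
    rintro w _ ⟨x, hx, rfl⟩ h1 t ht
    by_cases h2 : Φ x ∈ bT L lo hi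
    · obtain ⟨h2, l, hl, m, hm, h3⟩ := h2
      have k := EMB1_fib hB h1.2.1 h1.2.2 hl hm h3 ht
      exact tu l hl m hm _ ⟨x, hx, rfl⟩ h2 h3 _ k.1 k.2
    obtain ⟨q, rfl⟩ := hξ.1.2 x
    rw [e] at h1 h2 ⊢
    by_cases h3 : ∀ j, Ψ q ∉ K j
    · have k := fy q w h1 h2 h3
      refine ⟨_, ?_, ff _ w h1 h2 h3 t ht⟩
      rw [k] at h1 ⊢
      exact hp.wal w _ hx h1 t ht
    obtain ⟨j, h3⟩ := not_forall_not.1 h3
    obtain ⟨w₀, σ, s1, -, s2, s3⟩ := kW j _ h3 fun k => h2 (tb _ k)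
    obtain ⟨k1, k2⟩ := pK j q h3
    refine ⟨ξ (update q 2 (c j + σ * t)), ?_, by rw [e, k2 _ (sg s1 ht), s2 w h1, s3 t ht]⟩
    by_cases h4 : q ∈ Tb
    · refine hp.tub 0 m0 0 m1 _ hx ((hT q).1 h4).1 ((hT q).1 h4).2 _
        ((hT _).1 ((kK j q k1 _ (sg s1 ht)).2 h4)).2 ?_
      rw [hz, hz, update_of_ne (by decide)]
    · obtain ⟨w₁, τ, t1, t2, -, t3⟩ := kW j q k1 h4
      have k3 := hp.wal w₁ _ hx t2 _ (sg t1 (sg s1 ht))
      rw [t3 _ (sg t1 (sg s1 ht))] at k3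
      rcases t1 with rfl | rfl <;> simpa using k3
  · rintro x ⟨hx, h0⟩ w h1
    have h2 : Φ x ∉ bT L lo hi := fun k => h0 (tub x hx k ▸ k)
    obtain ⟨q, rfl⟩ := hξ.1.2 x
    rw [e] at h1 h2 ⊢
    by_cases h3 : ∀ j, Ψ q ∉ K j
    · have k := ff _ w h1 h2 h3
      have k' := fy q w h1 h2 h3
      rw [k'] at h1 k ⊢
      exact ⟨w, 1, .inl rfl, h1, fun t ht => by rw [one_mul, k t ht]⟩
    obtain ⟨j, h3⟩ := not_forall_not.1 h3
    obtain ⟨w₀, σ, s1, -, s2, s3⟩ := kW j _ h3 fun k => h2 (tb _ k)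
    obtain ⟨k1, k2⟩ := pK j q h3
    obtain ⟨w₁, τ, t1, t2, -, t3⟩ := kW j q k1 fun k => h0 (tb _ k)
    refine ⟨w₁, σ * τ, ?_, t2, fun t ht => ?_⟩
    · rcases s1 with rfl | rfl <;> rcases t1 with rfl | rfl <;> norm_num
    · rw [t3 t ht, e, k2 _ (sg t1 ht), s2 w h1, mul_assoc, s3 _ (sg s1 (sg t1 ht))]
      rcases s1 with rfl | rfl <;> simp

theorem EMB1_ext {x y : Rn 3} (h0 : x 0 = y 0) (h1 : x 1 = y 1) (h2 : x 2 = y 2) : x = y := by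
  funext i
  fin_cases i
  exacts [h0, h1, h2]

theorem EMB1_bO {x : Rn 3} (h0 : lo 0 < x 0 ∧ x 0 < hi 0) (h1 : lo 1 < x 1 ∧ x 1 < hi 1)
    (h2 : lo 2 < x 2 ∧ x 2 < hi 2) : x ∈ bO lo hi := fun i => by
  fin_cases i
  exacts [h0, h1, h2]

theorem EMB1_wall (hB : EBx L lo hi) {i j : Fin 3} (hij : i = 0 ∧ j = 1 ∨ i = 1 ∧ j = 0)
    (mi : 0 ∈ L i) {ξ : Rn 3 → Rn 3} (hz : ∀ q, ξ q 2 = q 1) {q : Rn 3} {c σ : ℝ}
    (hσ : σ = 1 ∨ σ = -1) (hq : c - 1 ≤ q 2 ∧ q 2 ≤ c + 1)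
    (f : ∀ r : Rn 3, r 0 = q 0 → c - 1 ≤ r 2 → r 2 ≤ c + 1 → ξ r i = σ * (r 2 - c) ∧ ξ r j = r 0)
    (o1 : lo j < q 0 ∧ q 0 < hi j) (o2 : lo 2 < q 1 ∧ q 1 < hi 2) (far : ∀ l ∈ L j, 3 < |q 0 - l|) :
    ξ q ∉ bT L lo hi ∧ ∃ w₀, ∃ σ : ℝ, (σ = 1 ∨ σ = -1) ∧ ξ q ∈ bN L lo hi w₀ ∧
      (∀ w, ξ q ∈ bN L lo hi w → w = w₀) ∧
      ∀ t ∈ Icc (-1 : ℝ) 1, bf w₀ (ξ q) t = ξ (update q 2 (c + σ * t)) := by
  obtain ⟨f1, f2⟩ := f q rfl hq.1 hq.2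
  have n := hB.inn i 0 mi
  have k : |ξ q i - 0| ≤ 1 := by
    rw [f1, abs_le]
    rcases hσ with rfl | rfl <;> constructor <;> linarith only [hq, hq.1, hq.2]
  have k' : lo i < ξ q i ∧ ξ q i < hi i := by
    rw [abs_le] at k
    constructor <;> linarith only [n, k, k.1, k.2, n.1, n.2]
  rw [← f2] at o1 far
  rw [← hz q] at o2
  refine ⟨fun ⟨_, l, hl, m, hm, h1, h2, _⟩ => ?_, (i, 0), σ, hσ, ⟨?_, mi, k⟩, ?_, fun t ht => ?_⟩
  · rcases hij with ⟨rfl, rfl⟩ | ⟨rfl, rfl⟩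
    exacts [(far m hm).not_ge h2, (far l hl).not_ge h1]
  · rcases hij with ⟨rfl, rfl⟩ | ⟨rfl, rfl⟩
    exacts [EMB1_bO k' o1 o2, EMB1_bO o1 k' o2]
  · rintro ⟨i', l⟩ ⟨-, h1, h2⟩
    by_cases e : i' = i
    · subst e
      exact congrArg _ (EMB1_eq hB h1 mi (h2.trans (by norm_num)) (k.trans (by norm_num)))
    by_cases e' : i' = j
    · subst e'
      exact absurd (h2.trans (by norm_num)) (far l h1).not_ge
    obtain rfl : i' = 2 := by omega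
    exact absurd h1 (hB.two.symm ▸ notMem_empty l :)
  · obtain ⟨g1, g2⟩ := f (update q 2 (c + σ * t)) rfl
      (by rw [update_self]; rcases hσ with rfl | rfl <;> linarith only [ht, ht.1, ht.2])
      (by rw [update_self]; rcases hσ with rfl | rfl <;> linarith only [ht, ht.1, ht.2])
    have g3 : 0 + t = ξ (update q 2 (c + σ * t)) i := by
      rw [g1, update_self]
      rcases hσ with rfl | rfl <;> ring
    have g4 : ξ q 2 = ξ (update q 2 (c + σ * t)) 2 := (hz _).trans (hz (update q 2 _)).symm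
    rcases hij with ⟨rfl, rfl⟩ | ⟨rfl, rfl⟩
    exacts [EMB1_ext g3 (f2.trans g2.symm) g4, EMB1_ext (f2.trans g2.symm) g3 g4]

/-- The levels next to `0` in the direction `i`. -/
structure EMB1_G (L : Fin 3 → Set ℝ) (lo hi : Rn 3) (i : Fin 3) (a : ℝ) : Prop where
  m : 0 ∈ L i
  g : Gap (Lx L lo hi i) 0 a
  t : 10 ≤ a
  h : a - 3 ≤ hi i
  l : lo i ≤ -10
  s : ∀ l ∈ L i, l = 0 ∨ l ≤ -10 ∨ a ≤ l

theorem EMB1_gap (hB : EBx L lo hi) {i : Fin 3} (h : 0 ∈ L i) : ∃ a, EMB1_G L lo hi i a := by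
  obtain ⟨n1, n2⟩ := hB.inn i 0 h
  obtain ⟨a₀, a, g, h1, h2⟩ := bx_gap_ex hB (i := i) (t := 0) (by linarith) (by linarith)
  obtain rfl : a₀ = 0 := h1.antisymm ((g.2.2.2 0 (.inr (.inr h))).resolve_right h2.not_ge)
  obtain ⟨-, k1, -, k2, -⟩ := bx_gap hB g
  refine ⟨a, h, g, by linarith [k2 (.inl h)], k1, by linarith, fun l hl => ?_⟩
  rcases g.2.2.2 l (.inr (.inr hl)) with k | k
  · exact k.eq_or_lt.imp_right fun k => .inl (by linarith [hB.gap i l hl 0 h k])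
  · exact .inr (.inr k)

variable {a b : ℝ} {ξ : Rn 3 → Rn 3}

theorem EMB1_free (hB : EBx L lo hi) (ga : EMB1_G L lo hi 0 a) (gb : EMB1_G L lo hi 1 b)
    {x : Rn 3} {A B : ℝ} (hA : A ≤ |x 0|) (hA' : B ≤ |x 1|) (h0 : -7 < x 0) (h1 : x 0 < a - 1)
    (h2 : x 0 < hi 0) (h3 : -7 < x 1) (h4 : x 1 < b - 1) (h5 : x 1 < hi 1)
    (h6 : lo 2 < x 2 ∧ x 2 < hi 2) (k0 : 1 < A) (k1 : 1 < B) (k2 : 4 < A + B)
    (k3 : 4 < A + (b - x 1)) (k4 : 4 < (a - x 0) + B) (k5 : 4 < (a - x 0) + (b - x 1)) :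
    x ∈ bO lo hi ∧ x ∉ bT L lo hi ∧ ∀ w, x ∉ bN L lo hi w := by
  have e0 : ∀ l ∈ L 0, A ≤ |x 0 - l| ∨ 3 < |x 0 - l| ∨ a - x 0 ≤ |x 0 - l| := fun l hl =>
    (ga.s l hl).imp (fun k => by rwa [k, sub_zero]) (Or.imp (fun k => lt_abs.2 (.inl (by linarith)))
      fun k => le_abs.2 (.inr (by linarith)))
  have e1 : ∀ l ∈ L 1, B ≤ |x 1 - l| ∨ 3 < |x 1 - l| ∨ b - x 1 ≤ |x 1 - l| := fun l hl =>
    (gb.s l hl).imp (fun k => by rwa [k, sub_zero]) (Or.imp (fun k => lt_abs.2 (.inl (by linarith)))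
      fun k => le_abs.2 (.inr (by linarith)))
  refine ⟨EMB1_bO ⟨by linarith [ga.l], h2⟩ ⟨by linarith [gb.l], h5⟩ h6, ?_, ?_⟩
  · rintro ⟨-, l, hl, m, hm, o1, o2, o3⟩
    rcases e0 l hl with k | k | k <;> rcases e1 m hm with k' | k' | k' <;> linarith only [k2, o3, k, k', k0, k3, o1, k4, h1, k5]
  · rintro ⟨i, l⟩ ⟨-, hl, o⟩
    fin_cases i
    · change |x 0 - l| ≤ 1 at o
      rcases e0 l hl with k | k | k <;> linarith only [k0, o, k, h1]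
    · change |x 1 - l| ≤ 1 at o
      rcases e1 l hl with k | k | k <;> linarith only [k1, o, k, h4]
    · exact absurd hl (hB.two.symm ▸ notMem_empty l :)

theorem EMB1_bU (hB : EBx L lo hi) (ga : EMB1_G L lo hi 0 a) (gb : EMB1_G L lo hi 1 b)
    {x : Rn 3} (h : x ∈ bU lo hi 0 a 0 b) :
    x ∈ bO lo hi ∧ x ∉ bT L lo hi ∧ ∀ w, x ∉ bN L lo hi w := by
  obtain ⟨o, h1, h2, h3, h4, h5, h6, h7, h8⟩ := h
  refine EMB1_free hB ga gb (le_abs_self _) (le_abs_self _) ?_ h2 (o 0).2 ?_ h4 (o 1).2 (o 2)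
    ?_ ?_ ?_ ?_ ?_ h8 <;> linarith only [h1, h3, h5, h7, h6]

theorem EMB1_tub (ga : EMB1_G L lo hi 0 a) (gb : EMB1_G L lo hi 1 b) {K : ℝ} (χ : Chi K ξ)
    (q : Rn 3) : q ∈ Tub (lo 2) (hi 2) ↔ ξ q ∈ bO lo hi ∧ ξ q ∈ oc 0 0 := by
  refine ⟨fun ⟨h1, h2, h3, h4⟩ => ?_, fun ⟨h1, h2⟩ =>
    ⟨((χ.oct q).1 h2).1, χ.z q ▸ (h1 2).1, χ.z q ▸ (h1 2).2, ((χ.oct q).1 h2).2⟩⟩
  have k := (χ.oct q).2 ⟨h1, h4⟩
  have k0 := abs_le.1 k.1
  have k1 := abs_le.1 k.2.1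
  exact ⟨EMB1_bO ⟨by linarith [ga.l, k0.1], by linarith [ga.h, ga.t, k0.2]⟩
    ⟨by linarith [gb.l, k1.1], by linarith [gb.h, gb.t, k1.2]⟩ ⟨χ.z q ▸ h2, χ.z q ▸ h3⟩, k⟩

theorem EMB1_cel (ga : EMB1_G L lo hi 0 a) (gb : EMB1_G L lo hi 1 b) (χ : Chi (a + b) ξ)
    {q : Rn 3} (h0 : 3 < q 0) (h1 : lo 2 < q 1) (h2 : q 1 < hi 2) (h3 : -1 < q 2) (h4 : q 2 < 1)
    (h : q 0 < b - 3 ∧ 1 / 2 ≤ q 2 ∨ q 0 < a - 3 ∧ q 2 ≤ -1 / 2 ∨ q 0 ≤ 5) :
    ξ q ∈ bU lo hi 0 a 0 b := by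
  have a1 := ga.t
  have a2 := ga.h
  have a3 := ga.l
  have b1 := gb.t
  have b2 := gb.h
  have b3 := gb.l
  obtain ⟨c1, -, -, c2, c3, c4, c5⟩ := χ.cp q h0.le
    (by rcases h with h | h | h <;> linarith only [h4, a1, h, h3, b1, h]) (abs_le.2 ⟨h3.le, h4.le⟩)
  have c6 := c2 h4 h0
  have c7 := c3 h3 h0
  have c8 : ξ q 0 < a - 3 ∧ ξ q 1 < b - 3 := by
    rcases h with h | h | h
    · exact ⟨by linarith only [h4, a1, h, c4, c4 h.2], by linarith [h.1]⟩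
    · exact ⟨by linarith [h.1], by linarith only [h3, b1, h, c5, c5 h.2]⟩
    · exact ⟨by linarith, by linarith⟩
  refine ⟨EMB1_bO ⟨?_, ?_⟩ ⟨?_, ?_⟩ ⟨χ.z q ▸ h1, χ.z q ▸ h2⟩, ?_, ?_, ?_, ?_, ?_, ?_, ?_, ?_⟩ <;>
    linarith only [a3, c6, a2, c8, b3, c7, b2, h0, c1, c8.1, c8.2]

theorem EMB1_far {i : Fin 3} (ga : EMB1_G L lo hi i a) {s : ℝ} (h1 : -5 < s) (h2 : s < a - 3)
    (h3 : 3 < |s|) : (lo i < s ∧ s < hi i) ∧ ∀ l ∈ L i, 3 < |s - l| := by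
  refine ⟨⟨by linarith [ga.l], by linarith [ga.h]⟩, fun l hl => ?_⟩
  rcases ga.s l hl with k | k | k
  · rwa [k, sub_zero]
  · exact lt_abs.2 (.inl (by linarith))
  · exact lt_abs.2 (.inr (by linarith))

theorem EMB1_kor (hB : EBx L lo hi) (ga : EMB1_G L lo hi 0 a) (gb : EMB1_G L lo hi 1 b)
    (χ : Chi (a + b) ξ) (j : Bool) (q : Rn 3)
    (h : q ∈ cond j (Kor (lo 2) (hi 2) (b - 3) 1) (Kor (lo 2) (hi 2) (a - 3) (-3)))
    (h' : q ∉ Tub (lo 2) (hi 2)) :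
    ξ q ∉ bT L lo hi ∧ ∃ w₀, ∃ σ : ℝ, (σ = 1 ∨ σ = -1) ∧ ξ q ∈ bN L lo hi w₀ ∧
      (∀ w, ξ q ∈ bN L lo hi w → w = w₀) ∧
      ∀ t ∈ Icc (-1 : ℝ) 1, bf w₀ (ξ q) t = ξ (update q 2 (cond j 2 (-2) + σ * t)) := by
  have a1 := ga.t
  have b1 := gb.t
  cases j
  all_goals
    obtain ⟨h1, h2, h3, h4, h5, h6⟩ := h
    have k : 3 < |q 0| := not_le.1 fun k => h' ⟨k, h3, h4, abs_le.2 ⟨by linarith only [h5], by linarith only [h6]⟩⟩
    rcases lt_abs.1 k with k' | k'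
  · have f := EMB1_far ga h1 h2 k
    refine EMB1_wall hB (.inr ⟨rfl, rfl⟩) gb.m χ.z (c := -2) (.inl rfl) ⟨by linarith, by linarith⟩
      (fun r e e1 e2 => ?_) f.1 ⟨h3, h4⟩ f.2
    have := χ.vp r (by linarith) (by linarith) (by linarith) (by linarith)
    exact ⟨by linarith only [this, this.2], this.1⟩
  · have f := EMB1_far gb h1 (by linarith) k
    refine EMB1_wall hB (.inl ⟨rfl, rfl⟩) ga.m χ.z (c := -2) (.inr rfl) ⟨by linarith, by linarith⟩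
      (fun r e e1 e2 => ?_) f.1 ⟨h3, h4⟩ f.2
    have := χ.um r (by linarith) (by linarith) (by linarith) (by linarith)
    exact ⟨by linarith only [this, this.1], this.2⟩
  · have f := EMB1_far gb h1 h2 k
    refine EMB1_wall hB (.inl ⟨rfl, rfl⟩) ga.m χ.z (c := 2) (.inr rfl) ⟨by linarith, by linarith⟩
      (fun r e e1 e2 => ?_) f.1 ⟨h3, h4⟩ f.2
    have := χ.up r (by linarith) (by linarith) (by linarith) (by linarith)
    exact ⟨by linarith only [this, this.1], this.2⟩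
  · have f := EMB1_far ga h1 (by linarith) k
    refine EMB1_wall hB (.inr ⟨rfl, rfl⟩) gb.m χ.z (c := 2) (.inl rfl) ⟨by linarith, by linarith⟩
      (fun r e e1 e2 => ?_) f.1 ⟨h3, h4⟩ f.2
    have := χ.vm r (by linarith) (by linarith) (by linarith) (by linarith)
    exact ⟨by linarith only [this, this.2], this.1⟩

theorem EMB1_sup (hB : EBx L lo hi) (ga : EMB1_G L lo hi 0 a) (gb : EMB1_G L lo hi 1 b)
    (χ : Chi (a + b) ξ)
    (χ1 : ∀ q, 3 ≤ q 0 → q 0 ≤ a + b → 3 < q 2 → q 2 < 4 → ξ q 1 ≤ max (q 0) 5)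
    (χ2 : ∀ q, 3 ≤ q 0 → q 0 ≤ a + b → -4 < q 2 → q 2 < -3 → ξ q 0 ≤ max (q 0) 5) {q : Rn 3}
    (h1 : lo 2 < q 1) (h2 : q 1 < hi 2)
    (h : (3 < q 0 ∧ q 0 < b - 3 ∧ 1 / 2 < q 2 ∧ q 2 < 7 / 2) ∨
      (3 < q 0 ∧ q 0 < a - 3 ∧ -7 / 2 < q 2 ∧ q 2 < -1 / 2) ∨
      (-4 < q 0 ∧ q 0 < 5 ∧ |q 2| < 7 / 2)) :
    (ξ q ∈ bO lo hi ∧ ξ q ∉ bT L lo hi ∧ ∀ w, ξ q ∉ bN L lo hi w) ∨ q ∈ Tub (lo 2) (hi 2) ∨
      q ∈ Kor (lo 2) (hi 2) (b - 3) 1 ∨ q ∈ Kor (lo 2) (hi 2) (a - 3) (-3) := by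
  have a1 := ga.t
  have a2 := ga.h
  have b1 := gb.t
  have b2 := gb.h
  have z : lo 2 < ξ q 2 ∧ ξ q 2 < hi 2 := ⟨χ.z q ▸ h1, χ.z q ▸ h2⟩
  rw [abs_lt] at h
  obtain ⟨s1, s2, s3, s4, s5⟩ : -4 < q 0 ∧ -4 < q 2 ∧ q 2 < 4 ∧ (0 < q 2 → q 0 < b - 3) ∧
      (q 2 < 0 → q 0 < a - 3) := by
    rcases h with ⟨k1, k2, k3, k4⟩ | ⟨k1, k2, k3, k4⟩ | ⟨k1, k2, k3, k4⟩ <;>
      refine ⟨?_, ?_, ?_, fun _ => ?_, fun _ => ?_⟩ <;> linarith
  rcases lt_or_ge 3 (q 2) with k | k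
  · have s := s4 (by linarith)
    obtain ⟨c1, c2, c3, c4, -, c5, c6⟩ := χ.wp q (abs_le.2 ⟨by linarith, by linarith⟩) k s3
    have c7 : ξ q 0 + ξ q 1 < b - 4 := c4.trans_lt (max_lt (by linarith) (by linarith))
    have c8 : -5 ≤ ξ q 0 := (le_min (by linarith) (by linarith)).trans c6
    have c9 : ξ q 1 < b - 3 := by
      rcases le_total 3 (q 0) with e | e
      · exact (χ1 q e (by linarith) k s3).trans_lt (max_lt s (by linarith))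
      · exact c5.trans_lt (max_lt (by linarith) (by linarith))
    refine .inl (EMB1_free hB ga gb (neg_le_abs _) (le_abs_self _) ?_ ?_ ?_ ?_ ?_ ?_ z ?_ ?_ ?_ ?_
      ?_ ?_) <;> linarith only [s3, k, c8, a1, c1, a2, c2, c9, b2, c3, c7]
  rcases le_or_gt 1 (q 2) with k1 | k1
  · exact .inr (.inr (.inl ⟨by linarith, s4 (by linarith), h1, h2, k1, by linarith⟩))
  rcases lt_or_ge (q 2) (-3) with k2 | k2
  · have s := s5 (by linarith)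
    obtain ⟨c1, c2, c3, c4, -, c5, c6⟩ := χ.wm q (abs_le.2 ⟨by linarith, by linarith⟩) s2 k2
    have c7 : ξ q 0 + ξ q 1 < a - 4 := c4.trans_lt (max_lt (by linarith) (by linarith))
    have c8 : -5 ≤ ξ q 1 := (le_min (by linarith) (by linarith)).trans c6
    have c9 : ξ q 0 < a - 3 := by
      rcases le_total 3 (q 0) with e | e
      · exact (χ2 q e (by linarith) s2 k2).trans_lt (max_lt s (by linarith))
      · exact c5.trans_lt (max_lt (by linarith only [a1, s2, k2, e]) (by linarith))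
    refine .inl (EMB1_free hB ga gb (le_abs_self _) (neg_le_abs _) ?_ ?_ ?_ ?_ ?_ ?_ z ?_ ?_ ?_ ?_
      ?_ ?_) <;> linarith only [s2, k2, c2, c9, a2, c8, b1, c1, b2, c3, c7]
  rcases le_or_gt (q 2) (-1) with k3 | k3
  · exact .inr (.inr (.inr ⟨by linarith, s5 (by linarith), h1, h2, k2, by linarith⟩))
  rcases lt_or_ge 3 (q 0) with k4 | k4
  · refine .inl (EMB1_bU hB ga gb (EMB1_cel ga gb χ k4 h1 h2 k3 k1 ?_))
    exact h.imp (fun e => ⟨e.2.1, e.2.2.1.le⟩) (Or.imp (fun e => ⟨e.2.1, e.2.2.2.le⟩)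
      fun e => e.2.1.le)
  rcases le_or_gt (-3) (q 0) with k5 | k5
  · exact .inr (.inl ⟨abs_le.2 ⟨k5, k4⟩, h1, h2, abs_le.2 ⟨k2, k⟩⟩)
  obtain ⟨c1, c2, c3⟩ := χ.cm q (by linarith) k5 (abs_lt.2 ⟨k3, k1⟩)
  refine .inl (EMB1_free hB ga gb (neg_le_abs _) (neg_le_abs _) ?_ ?_ ?_ ?_ ?_ ?_ z ?_ ?_ ?_ ?_
    ?_ ?_) <;> linarith only [s1, k5, c1, c3, a1, c2, a2, b1, b2]

theorem EMB1_dj (ga : EMB1_G L lo hi 0 a) (gb : EMB1_G L lo hi 1 b) (χ : Chi (a + b) ξ)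
    {α β : Set (Rn 2)} (hα : ∀ y ∈ α, 3 ≤ y 0 ∧ y 0 ≤ a + b) (hβ : ∀ y ∈ β, 3 ≤ y 0 ∧ y 0 ≤ a + b)
    (z₁ z₂ : ℝ) :
    ξ ⁻¹' ({x | x 0 = 1 ∧ ![x 1, x 2] ∈ α} ∪ {x | x 1 = 1 ∧ ![x 0, x 2] ∈ β} ∪
      {x | x 0 + x 1 = 4 ∧ 1 ≤ x 0 ∧ 1 ≤ x 1 ∧ (x 2 = z₁ ∨ x 2 = z₂)}) =
      lay α 1 ∪ lay β (-1) ∪ {x | x 0 = 3 ∧ (x 1 = z₁ ∨ x 1 = z₂) ∧ |x 2| ≤ 1} := by
  ext q
  refine or_congr (or_congr ⟨fun ⟨h1, h2⟩ => ?_, fun ⟨h1, h2⟩ => ?_⟩
    ⟨fun ⟨h1, h2⟩ => ?_, fun ⟨h1, h2⟩ => ?_⟩) ⟨fun ⟨h1, h2, h3, h4⟩ => ?_, fun ⟨h1, h2, h3⟩ => ?_⟩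
  · have k := χ.up (mk3 ![ξ q 1, ξ q 2] 1) (hα _ h2).1 (hα _ h2).2 le_rfl (by norm_num)
    rw [← χ.lh.inj (EMB1_ext (k.1.trans (by rw [h1]; norm_num)) k.2 (χ.z _))]
    exact mem_lay.2 h2
  · have k := χ.up q (hα _ h1).1 (hα _ h1).2 h2.ge (by linarith)
    exact ⟨by linarith [k.1], by rwa [k.2, χ.z]⟩
  · have k := χ.vp (mk3 ![ξ q 0, ξ q 2] (-1)) (hβ _ h2).1 (hβ _ h2).2 (by norm_num) le_rfl
    rw [← χ.lh.inj (EMB1_ext k.1 (k.2.trans (by rw [h1]; norm_num)) (χ.z _))]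
    exact mem_lay.2 h2
  · have k := χ.vp q (hβ _ h1).1 (hβ _ h1).2 (by linarith) h2.le
    exact ⟨by linarith [k.2], by rwa [k.1, χ.z]⟩
  · obtain ⟨r, e, k1, k2⟩ := χ.seg _ h1 h2 h3
    obtain rfl := χ.lh.inj e
    exact ⟨k1, χ.z r ▸ h4, k2⟩
  · obtain ⟨c1, c2, c3, -⟩ := χ.cp q h1.ge (by linarith [ga.t, gb.t]) h3
    exact ⟨by linarith, c2, c3, (χ.z q).symm ▸ h2⟩

theorem moveA0 {ι : Type} [Finite ι] {F J : ι → Set (Rn 3)} (hB : EBx L lo hi) (hF : ESt F J)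
    (h1 : ∀ c, HP L lo hi (F c)) (h2 : ∀ c, HP L lo hi (J c))
    (h3 : ∀ c, Disjoint (J c) (bT L lo hi)) (m0 : 0 ∈ L 0) (m1 : 0 ∈ L 1) {c : ι}
    {E α β : Set (Rn 3)} {p q : Rn 3} (h : Big L lo hi (F c) (J c) E α β p q) (p0 : p 0 = 0)
    (p1 : p 1 = 0) (hz : p 2 < q 2) (hq : ∀ x ∈ E \ (α ∪ β), 0 < x 0 ∧ 0 < x 1) :
    ∃ Φ, EGd L lo hi (⋃ d, F d) Φ ∧ p ∉ Φ '' ⋃ d, F d := by
  obtain ⟨a, ga⟩ := EMB1_gap hB m0
  obtain ⟨b, gb⟩ := EMB1_gap hB m1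
  have a1 := ga.t
  have b1 := gb.t
  obtain ⟨α', β', E', J', Z, aα, aβ, sα, sβ, hJ, hE, hEC, hEb, hZ, hZE, hXC⟩ :=
    extract hB hF h1 h2 h3 m0 m1 ga.g gb.g h p0 p1 hz hq
  obtain ⟨ξ, χ, χ1, χ2⟩ := EMB1_chi (K := a + b) (by linarith only [a1, b1])
  have hX := HP.iUnion h1
  generalize ⋃ d, F d = X at hX hXC ⊢
  have hp : p ∈ bO lo hi ∧ q ∈ bO lo hi :=
    ⟨h.box (h.dsc.sub (.inl (h.int.ge (.inl rfl)).1)),
      h.box (h.dsc.sub (.inl (h.int.ge (.inr rfl)).1))⟩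
  have im : ∀ A, invFun ξ '' A = ξ ⁻¹' A := congrFun (image_eq_preimage_of_inverse χ.lh.ri χ.lh.li)
  have rg : ∀ {A : Set (Rn 2)} {e : ℝ}, e ≤ a + b → (∀ y ∈ A, y = ![3, p 2] ∨ y = ![3, q 2] ∨
      (3 < y 0 ∧ y 0 < e ∧ lo 2 < y 1 ∧ y 1 < hi 2)) → ∀ y ∈ A, 3 ≤ y 0 ∧ y 0 ≤ a + b := by
    intro A e he hA y hy
    rcases hA y hy with rfl | rfl | k
    · exact ⟨le_rfl, show 3 ≤ a + b by linarith⟩
    · exact ⟨le_rfl, show 3 ≤ a + b by linarith⟩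
    · exact ⟨k.1.le, k.2.1.le.trans he⟩
  have eJ := hJ ▸ EMB1_dj ga gb χ (rg (by linarith) sα) (rg (by linarith) sβ) (p 2) (q 2)
  have eU : ξ ⁻¹' bC lo hi 0 a 0 b \ ξ ⁻¹' (bC lo hi 0 a 0 b \ bU lo hi 0 a 0 b) =
      ξ ⁻¹' bU lo hi 0 a 0 b := by
    rw [← preimage_sdiff, sdiff_sdiff_cancel_left]
    rintro x ⟨o, k1, k2, k3, k4, k5, k6, k7, k8⟩
    exact ⟨⟨fun i => (o i).1.le, fun i => (o i).2.le⟩, k1.le, k2.le, k3.le, k4.le, k5.le, k6.le,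
      k7.le, k8.le⟩
  have tb := EMB1_tub ga gb χ
  have kr := EMB1_kor hB ga gb χ
  have wl : ∀ j r, ξ r ∈ X →
      r ∈ cond j (Kor (lo 2) (hi 2) (b - 3) 1) (Kor (lo 2) (hi 2) (a - 3) (-3)) → 3 < r 0 →
      ∀ t : ℝ, t = 1 ∨ t = -1 → ξ (update r 2 (cond j 2 (-2) + t)) ∈ X := by
    intro j r k1 k2 k3 t ht
    obtain ⟨-, w, σ, s1, s2, -, s3⟩ := kr j r k2 fun k => k3.not_ge (abs_le.1 k.1).2
    have k4 : σ * t ∈ Icc (-1 : ℝ) 1 := by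
      rcases s1 with rfl | rfl <;> rcases ht with rfl | rfl <;> norm_num
    have k5 := hX.wal w _ k1 s2 _ k4
    rw [s3 _ k4] at k5
    rcases s1 with rfl | rfl <;> simpa using k5
  obtain ⟨Ψ, mv, k1, k2, k3⟩ := moveH (X := ξ ⁻¹' X) (E := ξ ⁻¹' E') (Z := ξ ⁻¹' Z) (a := a - 3)
    (b := b - 3) (by linarith) (by linarith) (hp.1 2).1 hz (hp.2 2).2
    (im _ ▸ im _ ▸ (bx_cell hB ga.g gb.g).image χ.lh.inv)
    (fun x e1 e2 e3 e4 e5 e6 => eU.ge (EMB1_cel ga gb χ e1 e3 e4 (by linarith only [e5, e6]) e6 (.inl ⟨e2, e5⟩)))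
    (fun x e1 e2 e3 e4 e5 e6 => eU.ge
      (EMB1_cel ga gb χ e1 e3 e4 e5 (by linarith only [e5, e6]) (.inr (.inl ⟨e2, e6⟩))))
    (fun x e1 e2 e3 e4 e5 => eU.ge
      (EMB1_cel ga gb χ e1 e3 e4 (abs_lt.1 e5).1 (abs_lt.1 e5).2 (.inr (.inr e2))))
    (disjoint_left.2 fun x e e' => by
      obtain ⟨-, f1, f2⟩ := EMB1_bU hB ga gb (eU.le e)
      have f3 : x ∉ Tub (lo 2) (hi 2) := fun k => f1 ⟨((tb x).1 k).1, 0, m0, 0, m1, ((tb x).1 k).2⟩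
      rcases e' with (e' | e') | e'
      · exact let ⟨_, w, _, _, k, _⟩ := kr true x e' f3; f2 w k
      · exact let ⟨_, w, _, _, k, _⟩ := kr false x e' f3; f2 w k
      · exact f3 e')
    (fun x e1 e2 e3 => by
      have := wl true x e1 e2 e3 _ (.inr rfl)
      rwa [show cond true (2 : ℝ) (-2) + -1 = 1 by norm_num] at this)
    (fun x e1 e2 e3 => by
      have := wl false x e1 e2 e3 _ (.inl rfl)
      rwa [show cond false (2 : ℝ) (-2) + 1 = -1 by norm_num] at this)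
    (fun x e1 e2 => hX.tub 0 m0 0 m1 _ e1 ((tb x).1 e2).1 ((tb x).1 e2).2 _
      ((χ.oct _).2 ⟨(abs_of_pos three_pos).le, abs_zero.le.trans three_pos.le⟩) ((χ.z _).trans (χ.z x).symm))
    aα aβ sα sβ (eJ ▸ im _ ▸ im _ ▸ hE.image χ.lh.inv.tp χ.lh.inv.inj.injOn) (preimage_mono hEC)
    (by rw [← eJ, ← hEb, ← preimage_inter, ← inter_sdiff_assoc, inter_eq_left.2 hEC])
    (hZ.preimage χ.lh.tp.continuous) (hZE.preimage ξ) (preimage_mono (f := ξ) hXC)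
  have G := EMB1_core hB m0 m1 (X := X) (K := fun j => cond j (Kor (lo 2) (hi 2) (b - 3) 1)
    (Kor (lo 2) (hi 2) (a - 3) (-3))) (c := fun j => cond j 2 (-2)) χ.lh χ.z mv tb
    (fun r hr => ?_) (fun j r hr t ht => ?_) (fun j r e e' => (kr j r e e').2) (fun j r hr => ?_)
    fun r e e' => (k3 r e e').2
  · refine ⟨_, G, fun ⟨x, e1, e2⟩ => ?_⟩
    have o : p ∈ oc 0 0 := by simp [oc, p0, p1]
    have e3 := (G.tub x e1 (e2.symm ▸ ⟨hp.1, 0, m0, 0, m1, o⟩)).symm.trans e2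
    subst e3
    obtain ⟨r, rfl⟩ := χ.lh.1.2 x
    rw [comp_apply, comp_apply, χ.lh.li] at e2
    exact (k3 r e1 ((tb _).2 (e2.symm ▸ ⟨hp.1, o⟩))).1 (χ.z r).symm
  · have key := hr.elim (fun e => .inl (EMB1_bU hB ga gb (eU.le e))) fun e =>
      EMB1_sup hB ga gb χ χ1 χ2 e.1 e.2.1 e.2.2
    by_cases e : r ∈ Tub (lo 2) (hi 2)
    · exact ⟨((tb r).1 e).1, fun _ => e, fun _ _ => .inl e⟩
    rcases key with k | k | k | k
    · exact ⟨k.1, fun e => absurd e k.2.1, fun w e => absurd e (k.2.2 w)⟩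
    · exact absurd k e
    · exact let ⟨f, _, _, _, g, _⟩ := kr true r k e
        ⟨g.1, fun e => absurd e f, fun _ _ => .inr ⟨true, k⟩⟩
    · exact let ⟨f, _, _, _, g, _⟩ := kr false r k e
        ⟨g.1, fun e => absurd e f, fun _ _ => .inr ⟨false, k⟩⟩
  · cases j
    all_goals
      obtain ⟨e1, e2, e3, e4, -, -⟩ := hr
      refine ⟨⟨e1, e2, e3, e4, ?_, ?_⟩, fun e => ⟨e.1, e3, e4, abs_le.2 ⟨?_, ?_⟩⟩⟩ <;>
        simp only [update_self, cond] <;> linarith only [ht, ht.1, ht.2]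
  · cases j
    · exact ⟨(k2 r hr).1, fun t ht => (k2 r hr).2 _
        ⟨show -3 ≤ -2 + t by linarith [ht.1], show -2 + t ≤ -1 by linarith [ht.2]⟩⟩
    · exact ⟨(k1 r hr).1, fun t ht => (k1 r hr).2 _
        ⟨show 1 ≤ 2 + t by linarith [ht.1], show 2 + t ≤ 3 by linarith [ht.2]⟩⟩

end BEp
end
end
end

-- merged part: Pool.Agent.Work.MP_f0515e_an.P3.XE23
section
-- merged part: Pool.Agent.Work.MP_f0515e_an.D3.EMB2
section
/-! Transport of the box data under translations and reflections of the coordinates. -/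

open Set Metric Filter Topology Function BEv
open scoped NNReal

noncomputable section
namespace BEp

/-- Coordinatewise isometries `r`, `r'` which exchange two boxes with levels. -/
structure EMBR (r r' : Fin 3 → ℝ → ℝ) (s : Fin 3 → ℝ) (L : Fin 3 → Set ℝ) (lo hi : Rn 3)
    (L' : Fin 3 → Set ℝ) (lo' hi' : Rn 3) : Prop where
  sg : ∀ i, (s i = 1 ∧ lo' i = r i (lo i) ∧ hi' i = r i (hi i)) ∨
    (s i = -1 ∧ lo' i = r i (hi i) ∧ hi' i = r i (lo i))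
  li : ∀ i t, r' i (r i t) = t
  ri : ∀ i t, r i (r' i t) = t
  df : ∀ i t u, r i t - r i u = s i * (t - u)
  lev : ∀ i t, r i t ∈ L' i ↔ t ∈ L i

/-- The map of the space. -/
def EMBm (r : Fin 3 → ℝ → ℝ) (x : Rn 3) : Rn 3 := fun i => r i (x i)

namespace EMBR

variable {r r' : Fin 3 → ℝ → ℝ} {s : Fin 3 → ℝ} {L L' : Fin 3 → Set ℝ} {lo hi lo' hi' : Rn 3}
  (h : EMBR r r' s L lo hi L' lo' hi')
include h

theorem sgn (i : Fin 3) : s i = 1 ∨ s i = -1 := (h.sg i).imp (·.1) (·.1)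

theorem symm : EMBR r' r s L' lo' hi' L lo hi := by
  refine ⟨fun i => (h.sg i).imp (fun k => ⟨k.1, ?_, ?_⟩) fun k => ⟨k.1, ?_, ?_⟩, h.ri, h.li,
    fun i t u => ?_, fun i t => ?_⟩
  · rw [k.2.1, h.li]
  · rw [k.2.2, h.li]
  · rw [k.2.2, h.li]
  · rw [k.2.1, h.li]
  · have := h.df i (r' i t) (r' i u)
    rw [h.ri, h.ri] at this
    rw [this]
    rcases h.sgn i with e | e <;> rw [e] <;> ring
  · rw [← h.lev, h.ri]

theorem ab (i : Fin 3) (t u : ℝ) : |r i t - r i u| = |t - u| := by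
  rw [h.df, abs_mul]
  rcases h.sgn i with e | e <;> rw [e] <;> simp

theorem li' (x : Rn 3) : EMBm r' (EMBm r x) = x := funext fun i => h.li i (x i)

theorem tp : TP (EMBm r) := by
  refine TP.pi fun i => ?_
  have e : (fun x : Rn 3 => EMBm r x i) = fun x => s i * x i + r i 0 := funext fun x => by
    have := h.df i (x i) 0
    simp only [EMBm]
    linarith
  rw [e]
  exact ((TP.id'.apply i).const_mul _).add (TP.const _)

theorem lh : LH (EMBm r) := pa2_of_inv h.tp h.symm.tp h.li' h.symm.li'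

theorem box (x : Rn 3) : EMBm r x ∈ bO lo' hi' ↔ x ∈ bO lo hi := by
  refine forall_congr' fun i => ?_
  have h1 := h.df i (x i) (lo i)
  have h2 := h.df i (x i) (hi i)
  simp only [EMBm]
  rcases h.sg i with ⟨e, a, b⟩ | ⟨e, a, b⟩ <;> rw [e] at h1 h2 <;> rw [a, b] <;>
    constructor <;> rintro ⟨p, q⟩ <;> constructor <;> linarith only [h1, p, h2, q]

theorem wal (i : Fin 3) (a : ℝ) (x : Rn 3) :
    EMBm r x ∈ bN L' lo' hi' (i, r i a) ↔ x ∈ bN L lo hi (i, a) :=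
  and_congr (h.box x) (and_congr (h.lev i a) (by rw [← h.ab i (x i) a]; rfl))

theorem fib (i : Fin 3) (a : ℝ) (x : Rn 3) (t : ℝ) :
    EMBm r (bf (i, a) x t) = bf (i, r i a) (EMBm r x) (s i * t) := by
  funext j
  by_cases e : j = i
  · subst e
    have := h.df j (a + t) a
    simp only [EMBm, bf, update_self]
    linarith
  · simp only [EMBm, bf, update_of_ne e]

theorem oct' (a b : ℝ) (x : Rn 3) : EMBm r x ∈ oc (r 0 a) (r 1 b) ↔ x ∈ oc a b := by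
  simp only [oc, mem_ofPred_eq, EMBm, h.ab]

theorem tub (x : Rn 3) : EMBm r x ∈ bT L' lo' hi' ↔ x ∈ bT L lo hi := by
  refine and_congr (h.box x) ⟨?_, ?_⟩
  · rintro ⟨a, ha, b, hb, k⟩
    rw [← h.ri 0 a] at ha
    rw [← h.ri 1 b] at hb
    rw [← h.ri 0 a, ← h.ri 1 b] at k
    exact ⟨_, (h.lev _ _).1 ha, _, (h.lev _ _).1 hb, (h.oct' _ _ _).1 k⟩
  · rintro ⟨a, ha, b, hb, k⟩
    exact ⟨_, (h.lev _ _).2 ha, _, (h.lev _ _).2 hb, (h.oct' _ _ _).2 k⟩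

theorem icc (i : Fin 3) {t : ℝ} (ht : t ∈ Icc (-1 : ℝ) 1) : s i * t ∈ Icc (-1 : ℝ) 1 := by
  rcases h.sgn i with e | e <;> rw [e] <;> constructor <;> linarith only [ht, ht.1, ht.2]

theorem hp {S : Set (Rn 3)} (k : HP L lo hi S) : HP L' lo' hi' (EMBm r '' S) := by
  constructor
  · rintro ⟨i, a⟩ _ ⟨x, hx, rfl⟩ hw t ht
    rw [← h.ri i a] at hw ⊢
    refine ⟨_, k.wal (i, r' i a) x hx ((h.wal _ _ _).1 hw) _ (h.icc i ht), ?_⟩
    rw [h.fib]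
    congr 1
    rcases h.sgn i with e | e <;> rw [e] <;> ring
  · rintro a ha b hb _ ⟨x, hx, rfl⟩ h1 h2 y hy e
    rw [← h.ri 0 a] at ha
    rw [← h.ri 1 b] at hb
    rw [← h.ri 0 a, ← h.ri 1 b] at h2 hy
    rw [← h.symm.li' y] at hy ⊢
    refine mem_image_of_mem _ (k.tub _ ((h.lev _ _).1 ha) _ ((h.lev _ _).1 hb) x hx
      ((h.box x).1 h1) ((h.oct' _ _ _).1 h2) _ ((h.oct' _ _ _).1 hy) ?_)
    change r' 2 (y 2) = x 2
    rw [e]
    exact h.li 2 (x 2)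

theorem ebx (k : EBx L lo hi) : EBx L' lo' hi' := by
  have m : ∀ i, ∀ a ∈ L' i, r' i a ∈ L i := fun i a ha => (h.symm.lev i a).2 ha
  refine ⟨fun i => ((k.fin i).image (r i)).subset fun a ha => ⟨_, m i a ha, h.ri i a⟩,
    eq_empty_of_forall_notMem fun a ha => ?_, fun i a ha b hb hab => ?_, fun i a ha => ?_,
    fun i => ?_⟩
  · have := m 2 a ha
    rw [k.two] at this
    exact this
  · have e := h.symm.df i b a
    rcases h.sgn i with e' | e' <;> rw [e'] at e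
    · have := k.gap i _ (m i a ha) _ (m i b hb) (by linarith)
      linarith
    · have := k.gap i _ (m i b hb) _ (m i a ha) (by linarith)
      linarith
  · have h0 := k.inn i _ (m i a ha)
    have h1 := h.df i (r' i a) (lo i)
    have h2 := h.df i (r' i a) (hi i)
    rw [h.ri] at h1 h2
    rcases h.sg i with ⟨e, p, q⟩ | ⟨e, p, q⟩ <;> rw [e] at h1 h2 <;> rw [p, q] <;>
      constructor <;> linarith only [h0, h1, h2, h0.1, h0.2]
  · have h0 := k.lt i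
    have h1 := h.df i (hi i) (lo i)
    rcases h.sg i with ⟨e, p, q⟩ | ⟨e, p, q⟩ <;> rw [e] at h1 <;> rw [p, q] <;> linarith

theorem egd {X : Set (Rn 3)} {Φ : Rn 3 → Rn 3} (k : EGd L' lo' hi' (EMBm r '' X) Φ) :
    EGd L lo hi X (EMBm r' ∘ Φ ∘ EMBm r) := by
  refine ⟨⟨h.symm.lh.comp (k.mv.1.comp h.lh), fun x hx => ?_⟩, fun S hS hp => ?_,
    fun x hx ht => ?_, ?_⟩
  · rw [comp_apply, comp_apply, k.mv.2 _ fun e => hx ((h.box x).1 e), h.li']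
  · rw [image_comp, image_comp]
    exact h.symm.hp (k.hp _ (image_mono hS) (h.hp hp))
  · rw [comp_apply, comp_apply, k.tub _ (mem_image_of_mem _ hx) ((h.symm.tub _).1 ht), h.li']
  · rintro x ⟨hx, hx'⟩ ⟨i, a⟩ hw
    rw [← h.li i a] at hw ⊢
    obtain ⟨⟨j, b⟩, σ, h1, h2, h3⟩ := k.trk _
      ⟨mem_image_of_mem _ hx, fun e => hx' ((h.tub x).1 e)⟩ _ ((h.symm.wal _ _ _).1 hw)
    rw [← h.ri j b] at h2 h3
    refine ⟨(j, r' j b), s i * σ * s j, ?_, (h.wal _ _ _).1 h2, fun t ht => ?_⟩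
    · rcases h.sgn i with e | e <;> rcases h.sgn j with e' | e' <;> rcases h1 with e'' | e'' <;>
        rw [e, e', e''] <;> norm_num
    · rw [comp_apply, comp_apply, h.fib, h3 _ (h.icc j ht), h.symm.fib, mul_assoc, mul_assoc]
      rfl

theorem big {F J E α β : Set (Rn 3)} {p q : Rn 3} (k : Big L lo hi F J E α β p q) :
    Big L' lo' hi' (EMBm r '' F) (EMBm r '' J) (EMBm r '' E) (EMBm r '' α) (EMBm r '' β)
      (EMBm r p) (EMBm r q) := by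
  have hi := h.lh.inj
  refine ⟨?_, k.aa.image h.tp hi.injOn, k.ab.image h.tp hi.injOn, ?_, ?_, ?_, ?_, ?_, ?_, ?_, ?_⟩
  · rw [← image_union]
    exact PCel.image k.dsc h.tp hi.injOn
  · rw [← image_inter hi, k.int, image_pair]
  · rw [← image_sdiff hi]
    exact image_mono k.sub
  · rintro _ ⟨x, hx, rfl⟩
    exact (h.box x).2 (k.box hx)
  · rintro _ ⟨x, hx, rfl⟩
    exact (h.lev _ _).2 (k.ua x hx)
  · rintro _ ⟨x, hx, rfl⟩
    exact (h.lev _ _).2 (k.ub x hx)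
  · rintro _ ⟨x, hx, rfl⟩ e
    exact (k.va x hx ((h.lev _ _).1 e)).imp (congrArg _) (congrArg _)
  · rintro _ ⟨x, hx, rfl⟩ e
    exact (k.vb x hx ((h.lev _ _).1 e)).imp (congrArg _) (congrArg _)
  · rw [← image_union, ← image_sdiff hi]
    rintro _ ⟨x, hx, rfl⟩
    exact (k.fre x hx).imp (fun a e => a ((h.lev _ _).1 e)) fun a e => a ((h.lev _ _).1 e)

end EMBR

theorem EMB_ex {s : Fin 3 → ℝ} (hs : ∀ i, s i = 1 ∨ s i = -1) (p : Rn 3) (L : Fin 3 → Set ℝ)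
    (lo hi : Rn 3) : ∃ L' lo' hi', EMBR (fun i t => s i * (t - p i)) (fun i t => s i * t + p i) s
      L lo hi L' lo' hi' := by
  classical
  have li : ∀ i t, s i * (s i * (t - p i)) + p i = t := fun i t => by
    rcases hs i with e | e <;> rw [e] <;> ring
  refine ⟨fun i => {t | s i * t + p i ∈ L i},
    fun i => if s i = 1 then s i * (lo i - p i) else s i * (hi i - p i),
    fun i => if s i = 1 then s i * (hi i - p i) else s i * (lo i - p i), fun i => ?_, li,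
    fun i t => ?_, fun i t u => by ring, fun i t => ?_⟩
  · by_cases e : s i = 1
    · exact Or.inl ⟨e, if_pos e, if_pos e⟩
    · exact Or.inr ⟨(hs i).resolve_left e, if_neg e, if_neg e⟩
  · rcases hs i with e | e <;> simp only [e] <;> ring
  · simp only [mem_ofPred_eq, li]

theorem EMB_sign {K : Set (Rn 3)} (hK : IsPreconnected K) (i : Fin 3) {a : ℝ}
    (h : ∀ x ∈ K, x i ≠ a) : ∃ σ : ℝ, (σ = 1 ∨ σ = -1) ∧ ∀ x ∈ K, 0 < σ * (x i - a) := by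
  by_cases k : ∀ x ∈ K, a < x i
  · exact ⟨1, Or.inl rfl, fun x hx => by linarith [k x hx]⟩
  · push Not at k
    obtain ⟨y, hy, hy'⟩ := k
    refine ⟨-1, Or.inr rfl, fun x hx => ?_⟩
    by_contra hc
    obtain ⟨z, hz, e⟩ := hK.intermediate_value hy hx (continuous_apply i).continuousOn
      (⟨hy', by linarith⟩ : a ∈ Icc (y i) (x i))
    exact h z hz e

theorem EMB_const {A : Set (Rn 3)} {p q : Rn 3} (h : Arc A p q) (i : Fin 3) {T : Set ℝ}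
    (hT : T.Finite) (hA : ∀ x ∈ A, x i ∈ T) : p i = q i := by
  obtain ⟨γ, h1, -, rfl, rfl, rfl⟩ := h
  have hc : ContinuousOn (fun t => γ t i) (Icc 0 1) :=
    ((continuous_apply i).comp h1.continuous).continuousOn
  have key : ∀ a ∈ Icc (0 : ℝ) 1, ∀ b ∈ Icc (0 : ℝ) 1, ¬ γ a i < γ b i := fun a ha b hb k =>
    Icc_infinite k (hT.subset ((isPreconnected_Icc.intermediate_value ha hb hc).trans (by
      rintro _ ⟨t, ht, rfl⟩
      exact hA _ (mem_image_of_mem γ ht))))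
  exact le_antisymm (not_lt.1 (key 1 (right_mem_Icc.2 zero_le_one) 0 (left_mem_Icc.2 zero_le_one)))
    (not_lt.1 (key 0 (left_mem_Icc.2 zero_le_one) 1 (right_mem_Icc.2 zero_le_one)))

theorem EMB_moveA {ι : Type} (H : ∀ {L : Fin 3 → Set ℝ} {lo hi : Rn 3} {F J : ι → Set (Rn 3)},
      EBx L lo hi → ESt F J → (∀ c, HP L lo hi (F c)) → (∀ c, HP L lo hi (J c)) →
      (∀ c, Disjoint (J c) (bT L lo hi)) → 0 ∈ L 0 → 0 ∈ L 1 → ∀ {c : ι} {E α β : Set (Rn 3)}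
      {p q : Rn 3}, Big L lo hi (F c) (J c) E α β p q → p 0 = 0 → p 1 = 0 → p 2 < q 2 →
      (∀ x ∈ E \ (α ∪ β), 0 < x 0 ∧ 0 < x 1) →
      ∃ Φ, EGd L lo hi (⋃ d, F d) Φ ∧ p ∉ Φ '' ⋃ d, F d)
    {L : Fin 3 → Set ℝ} {lo hi : Rn 3} {F J : ι → Set (Rn 3)} (hB : EBx L lo hi) (hF : ESt F J)
    (h1 : ∀ c, HP L lo hi (F c)) (h2 : ∀ c, HP L lo hi (J c))
    (h3 : ∀ c, Disjoint (J c) (bT L lo hi)) {c : ι} {E α β : Set (Rn 3)} {p q : Rn 3}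
    (h : Big L lo hi (F c) (J c) E α β p q) :
    ∃ Φ, EGd L lo hi (⋃ d, F d) Φ ∧ ∃ x ∈ (⋃ d, F d) ∩ bR L lo hi, x ∉ Φ '' ⋃ d, F d := by
  have pm : p ∈ α ∩ β := h.int ▸ mem_insert _ _
  have pE : p ∈ E := PCel.sub h.dsc (Or.inl pm.1)
  have p0 := h.ua p pm.1
  have p1 := h.ub p pm.2
  have e0 := EMB_const h.aa 0 (hB.fin 0) h.ua
  have e1 := EMB_const h.ab 1 (hB.fin 1) h.ub
  have e2 : q 2 ≠ p 2 := fun e => by
    obtain ⟨γ, -, k, a, b, -⟩ := h.aa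
    have : p = q := by
      ext i
      fin_cases i
      · exact e0
      · exact e1
      · exact e.symm
    exact zero_ne_one (k (left_mem_Icc.2 zero_le_one) (right_mem_Icc.2 zero_le_one)
      (a.trans (this.trans b.symm)))
  have hc := (PCel.conn_in h.dsc).isPreconnected
  obtain ⟨s0, a0, b0⟩ := EMB_sign hc 0 (a := p 0) fun x hx e => (h.fre x hx).1 (e ▸ p0)
  obtain ⟨s1, a1, b1⟩ := EMB_sign hc 1 (a := p 1) fun x hx e => (h.fre x hx).2 (e ▸ p1)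
  obtain ⟨s2, a2, b2⟩ := EMB_sign (isPreconnected_singleton (x := q)) 2 (a := p 2) fun x hx =>
    hx ▸ e2
  obtain ⟨L', lo', hi', k⟩ := EMB_ex (s := ![s0, s1, s2]) (fun i => by
    fin_cases i
    · exact a0
    · exact a1
    · exact a2) p L lo hi
  have z : ∀ i, EMBm (fun i t => ![s0, s1, s2] i * (t - p i)) p i = 0 := fun i => by
    simp only [EMBm, sub_self, mul_zero]
  obtain ⟨Φ, g1, g2⟩ := H (k.ebx hB) (hF.image k.lh) (fun c => k.hp (h1 c)) (fun c => k.hp (h2 c))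
    (fun c => disjoint_left.2 (by
      rintro _ ⟨x, hx, rfl⟩ e
      exact disjoint_left.1 (h3 c) hx ((k.tub x).1 e)))
    (z 0 ▸ (k.lev 0 _).2 p0) (z 1 ▸ (k.lev 1 _).2 p1) (k.big h) (z 0) (z 1)
    (by rw [z 2]; exact b2 q rfl) (by
      rw [← image_union, ← image_sdiff k.lh.inj]
      rintro _ ⟨x, hx, rfl⟩
      exact ⟨b0 x hx, b1 x hx⟩)
  rw [← image_iUnion] at g1 g2
  refine ⟨_, k.egd g1, p, ⟨mem_iUnion.2 ⟨c, (h.sub pE).1⟩, h.box pE, p0, p1⟩, ?_⟩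
  rintro ⟨y, hy, e⟩
  refine g2 ⟨_, mem_image_of_mem _ hy, ?_⟩
  exact (k.symm.li' _).symm.trans (congrArg _ e)

end BEp
end
end

-- merged part: Pool.Agent.Work.MP_f0515e_an.D3.EMB
section
/-! The bigon move in the box.
`moveA0`: `extract`, `exists_chi` with `K = a + b`, pull `X`, `E'`, `Z`, the cell back by `ξ` (`Ball.image`, `PCel.image` with `invFun ξ`), check the hypotheses of `moveH` (with `a - 3`, `b - 3`, `lo 2`, `hi 2`) by the dictionary `Chi`,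
`Φ = ξ ∘ Ψ ∘ ξ⁻¹` (`Mv.conj`). Dictionary for the support `S`: `ξ '' S ⊆ bO`, and a point `ξ q`, `q ∈ S`, in a wall or tube has `q` in a corridor or in `Tub` (clauses `cp`, `cm`, `wp`, `wm`; neighbouring levels are at distance `≥ 10`).
A point of a corridor is in `Tub` (`|q 0| ≤ 3`) or in one of the four walls off the tubes, where the fibre of the wall is the `h` fibre up to sign (`up`, `vp`, `vm`, `um`).
Fibres of walls and slices of tubes either miss `ξ '' S` or lie in the image of a corridor or of `Tub`: argue with the set `A` of points moved by `Φ`, or treat each wall point `y = Φ x` by cases: `y` in the image of a corridor or of `Tub`; otherwise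
`y` is in a wall over a face which is not one of the four, or in one of the four faces beyond the corridor (`q 0 ≤ -5`), and then the whole fibre of `y` misses the support.
`rfl_*`: transport under `ρ x = ![s₀ (x 0 - a), s₁ (x 1 - b), x 2]`, `sᵢ = ± 1`. `moveA`: `x 0` is constant on `α`, `x 1` on `β`, the signs of `x 0 - a`, `x 1 - b` are constant on the connected set `E \ (α ∪ β)`; swap `p`, `q` if needed
(`p ≠ q`, both on the same ray). About 600 lines; split into EMB1 (`moveA0`) and EMB (transport, `moveA`). -/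

open Set Metric Filter Topology Function BEv
open scoped NNReal

noncomputable section
namespace BEp

variable {n m : ℕ}

variable {L : Fin 3 → Set ℝ} {lo hi : Rn 3}

theorem moveA {ι : Type} [Finite ι] {F J : ι → Set (Rn 3)} (hB : EBx L lo hi) (hF : ESt F J)
    (h1 : ∀ c, HP L lo hi (F c)) (h2 : ∀ c, HP L lo hi (J c))
    (h3 : ∀ c, Disjoint (J c) (bT L lo hi)) {c : ι} {E α β : Set (Rn 3)} {p q : Rn 3}
    (h : Big L lo hi (F c) (J c) E α β p q) :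
    ∃ Φ, EGd L lo hi (⋃ d, F d) Φ ∧ ∃ x ∈ (⋃ d, F d) ∩ bR L lo hi, x ∉ Φ '' ⋃ d, F d :=
  EMB_moveA (fun a b c d e f g _ _ _ _ _ _ k => moveA0 a b c d e f g k) hB hF h1 h2 h3 h

end BEp
end
end

-- merged part: Pool.Agent.Work.MP_f0515e_an.D3.ESA
section
/-! Standard position in a box.
`bx_mini`: for each level `bx_chart` and `esec` (`F ∩ bN` is closed since `F ⊆ bO`); `𝒰`, `𝒱` are the unions over the levels (walls of one direction are disjoint); at a common point the chart is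
`k p = z + ![p 0, p 1, 0]` (the slice of the tube lies in `F \ J`). `mini`. In the first alternative `c` lies in one core (connected, finitely many levels) and `E` misses the tubes: a point of `E` in a tube is joined inside its slice to the centre,
which is in both cores, so not in `E`; the slice then meets `c` (`sd_side`), say at a point of the segment `{x 0 = a}` of the slice; this segment lies in the same member of `𝒰` as `c`, which is the circle `c` itself (`tcrc_sub`, an arc contains no circle), so the centre is in `c`. This contradicts `NoL`.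
`smA`: strong induction on `(X ∩ bR).ncard` (`fin_ray`), generalising `F`, `J`: `stageL`; if some disc in the box is bad, `bx_mini`, `moveA`, `EGd.comp`, `EGd.ray`, `EGd.off`, `ESt.image`. About 350 lines. -/

open Set Metric Filter Topology Function BEv
open scoped NNReal

noncomputable section
namespace BEp

variable {n m : ℕ}

variable {L : Fin 3 → Set ℝ} {lo hi : Rn 3}

/-- The sections of a disc by all the levels of one direction. -/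
theorem ESA_sec (hB : EBx L lo hi) {F J : Set (Rn 3)} (hF : PDsc F J) (h1 : HP L lo hi F)
    (h2 : HP L lo hi J) (hs : F ⊆ bO lo hi) (i : Fin 3) :
    ∃ 𝒰 : Set (Set (Rn 3)), 𝒰.Finite ∧ ⋃₀ 𝒰 = {x | x ∈ F ∧ x i ∈ L i} ∧ 𝒰.PairwiseDisjoint id ∧
      ∀ K ∈ 𝒰, (Crc K ∧ Disjoint K J) ∨ ∃ a b, Arc K a b ∧ K ∩ J = {a, b} := by
  have key : ∀ a ∈ L i, ∃ 𝒞 : Set (Set (Rn 3)), 𝒞.Finite ∧ ⋃₀ 𝒞 = {x | x ∈ F ∧ x i = a} ∧
      𝒞.PairwiseDisjoint id ∧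
      ∀ K ∈ 𝒞, (Crc K ∧ Disjoint K J) ∨ ∃ a b, Arc K a b ∧ K ∩ J = {a, b} := fun a ha => by
    obtain ⟨θ, W, k1, k2, k3, k4, -⟩ := bx_chart hB (w := (i, a)) ha
    have hc : IsClosed (F ∩ cN θ W) := by
      have e : F ∩ cN θ W = F ∩ {x | |x i - a| ≤ 1} := by
        rw [k3]
        ext x
        exact ⟨fun h => ⟨h.1, h.2.2.2⟩, fun h => ⟨h.1, hs h.1, ha, h.2⟩⟩
      rw [e]
      exact hF.cpt.isClosed.inter (isClosed_le (by fun_prop) continuous_const)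
    obtain ⟨𝒞, c1, c2, c3, c4⟩ := esec k1 k2 hF (by rw [k3, k4]; exact h1.wal _)
      (by rw [k3, k4]; exact h2.wal _) hc
    refine ⟨𝒞, c1, ?_, c3, c4⟩
    rw [c2, k3, k4]
    ext x
    exact ⟨fun h => ⟨h.1, (co_bN.1 h.2).2.2⟩, fun h => ⟨h.1, co_bN.2 ⟨hs h.1, ha, h.2⟩⟩⟩
  choose! 𝒞 c1 c2 c3 c4 using key
  have c5 : ∀ a ∈ L i, ∀ K ∈ 𝒞 a, ∀ x ∈ K, x ∈ F ∧ x i = a := fun a ha K hK x hx => by
    have : x ∈ ⋃₀ 𝒞 a := ⟨K, hK, hx⟩
    rwa [c2 a ha] at this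
  refine ⟨⋃ a ∈ L i, 𝒞 a, (hB.fin i).biUnion c1, ?_, ?_, ?_⟩
  · ext x
    constructor
    · rintro ⟨K, hK, hx⟩
      obtain ⟨a, ha, hK⟩ := mem_iUnion₂.1 hK
      obtain ⟨k1, k2⟩ := c5 a ha K hK x hx
      exact ⟨k1, k2 ▸ ha⟩
    · rintro ⟨k1, k2⟩
      have : x ∈ ⋃₀ 𝒞 (x i) := by
        rw [c2 _ k2]
        exact ⟨k1, rfl⟩
      obtain ⟨K, hK, hx⟩ := this
      exact ⟨K, mem_iUnion₂.2 ⟨_, k2, hK⟩, hx⟩
  · intro K hK K' hK' hne
    obtain ⟨a, ha, hK⟩ := mem_iUnion₂.1 hK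
    obtain ⟨a', ha', hK'⟩ := mem_iUnion₂.1 hK'
    by_cases e : a = a'
    · subst e
      exact c3 a ha hK hK' hne
    · exact disjoint_left.2 fun x hx hx' =>
        e ((c5 a ha K hK x hx).2.symm.trans (c5 a' ha' K' hK' x hx').2)
  · intro K hK
    obtain ⟨a, ha, hK⟩ := mem_iUnion₂.1 hK
    exact c4 a ha K hK

theorem ESA_near (hB : EBx L lo hi) {i : Fin 3} {a b : ℝ} (ha : a ∈ L i) (hb : b ∈ L i)
    (h : |b - a| ≤ 3) : b = a := by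
  obtain ⟨k1, k2⟩ := abs_le.1 h
  rcases lt_trichotomy a b with k | k | k
  · linarith [hB.gap i a ha b hb k]
  · exact k.symm
  · linarith [hB.gap i b hb a ha k]

theorem ESA_const (hB : EBx L lo hi) {i : Fin 3} {c : Set (Rn 3)} (hc : IsPreconnected c)
    (h : ∀ x ∈ c, x i ∈ L i) {x y : Rn 3} (hx : x ∈ c) (hy : y ∈ c) : x i = y i := by
  have key : ∀ x ∈ c, ∀ y ∈ c, ¬ x i < y i := fun x hx y hy k => by
    have k1 := hB.gap i _ (h x hx) _ (h y hy) k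
    obtain ⟨z, hz, e⟩ := hc.intermediate_value hx hy (f := fun p : Rn 3 => p i)
      (continuous_apply i).continuousOn (⟨by linarith, by linarith⟩ : x i + 1 ∈ Icc (x i) (y i))
    have k2 := hB.gap i _ (h x hx) _ (h z hz) (by simp only at e; linarith)
    simp only at e
    linarith
  exact le_antisymm (not_lt.1 (key y hy x hx)) (not_lt.1 (key x hx y hy))

theorem ESA_piece {𝒰 : Set (Set (Rn 3))} (hf : 𝒰.Finite) (hd : 𝒰.PairwiseDisjoint id)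
    (hc : ∀ K ∈ 𝒰, IsClosed K) {T : Set (Rn 3)} (hT : IsPreconnected T) (hs : T ⊆ ⋃₀ 𝒰) {y : Rn 3}
    (hy : y ∈ T) : ∃ K ∈ 𝒰, T ⊆ K := by
  obtain ⟨K, hK, hyK⟩ := hs hy
  have c' : IsClosed (⋃₀ (𝒰 \ {K})) := by
    rw [sUnion_eq_biUnion]
    exact (hf.subset sdiff_subset).isClosed_biUnion fun K' h => hc K' h.1
  have dj : ∀ x ∈ K, x ∉ ⋃₀ (𝒰 \ {K}) := by
    rintro x hx ⟨K', hK', hx'⟩
    exact disjoint_left.1 (hd hK'.1 hK hK'.2) hx' hx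
  rcases isPreconnected_iff_subset_of_disjoint_closed.1 hT K _ (hc K hK) c' (fun x hx => by
    obtain ⟨K', hK', hx'⟩ := hs hx
    by_cases e : K' = K
    · exact Or.inl (e ▸ hx')
    · exact Or.inr ⟨K', ⟨hK', e⟩, hx'⟩) (eq_empty_of_forall_notMem fun x hx =>
      dj x hx.2.1 hx.2.2) with h | h
  · exact ⟨K, hK, h⟩
  · exact absurd (h hy) (dj y hyK)

theorem ESA_seg {a b : ℝ} {x y : Rn 3} (hx : x ∈ oc a b) (hy : y ∈ segment ℝ x ![a, b, x 2]) :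
    y ∈ oc a b ∧ y 2 = x 2 ∧ (x 0 = a → y 0 = a) ∧ (x 1 = b → y 1 = b) := by
  obtain ⟨s, t, hs, ht, hst, rfl⟩ := hy
  obtain rfl : t = 1 - s := by linarith
  have e0 : (s • x + (1 - s) • ![a, b, x 2] : Rn 3) 0 - a = s * (x 0 - a) := by
    simp
    ring
  have e1 : (s • x + (1 - s) • ![a, b, x 2] : Rn 3) 1 - b = s * (x 1 - b) := by
    simp
    ring
  have e2 : (s • x + (1 - s) • ![a, b, x 2] : Rn 3) 2 = x 2 := by
    simp
    ring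
  have k : ∀ u : ℝ, |s * u| ≤ |u| := fun u => by
    rw [abs_mul, abs_of_nonneg hs]
    exact mul_le_of_le_one_left (abs_nonneg u) (by linarith)
  obtain ⟨k1, k2, k3⟩ := hx
  refine ⟨⟨?_, ?_, ?_⟩, e2, fun e => ?_, fun e => ?_⟩
  · rw [e0]
    exact (k _).trans k1
  · rw [e1]
    exact (k _).trans k2
  · rw [e0, e1]
    exact (add_le_add (k _) (k _)).trans k3
  · rw [e, sub_self, mul_zero] at e0
    linarith
  · rw [e, sub_self, mul_zero] at e1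
    linarith

/-- A disc bounded by a circle in a core that has no point of a ray misses the tubes. -/
theorem ESA_tube (hB : EBx L lo hi) {F J : Set (Rn 3)} (hF : PDsc F J) (h1 : HP L lo hi F)
    {i : Fin 3} (hi' : i = 0 ∨ i = 1) {𝒰 : Set (Set (Rn 3))} (hf : 𝒰.Finite)
    (hU : ⋃₀ 𝒰 = {x | x ∈ F ∧ x i ∈ L i}) (hd : 𝒰.PairwiseDisjoint id)
    (hK : ∀ K ∈ 𝒰, Crc K ∨ ∃ a b, Arc K a b) {E c : Set (Rn 3)} (hE : PDsc E c) (hEF : E ⊆ F)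
    (hc : c ⊆ ⋃₀ 𝒰) (hz : ∀ z ∈ E, z 0 ∈ L 0 → z 1 ∉ L 1) : Disjoint E (bT L lo hi) := by
  refine disjoint_left.2 ?_
  rintro x hx ⟨hxO, a, ha, b, hb, hxo⟩
  have hS : ∀ y ∈ oc a b, y 2 = x 2 → y ∈ F := h1.tub a ha b hb x (hEF hx) hxO hxo
  have hzE : (![a, b, x 2] : Rn 3) ∉ E := fun e => hz _ e ha hb
  have hT : segment ℝ x ![a, b, x 2] ⊆ F := fun y hy => hS y (ESA_seg hxo hy).1 (ESA_seg hxo hy).2.1
  have hy : ¬ Disjoint (segment ℝ x ![a, b, x 2]) c := fun e => by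
    rcases sd_side hF hE hEF (convex_segment _ _).isPreconnected hT e with k | k
    · exact hzE (k (right_mem_segment _ _ _)).1
    · exact disjoint_left.1 k (left_mem_segment _ _ _) hx
  obtain ⟨y, hy, hyc⟩ := not_disjoint_iff.1 hy
  obtain ⟨yo, y2, -⟩ := ESA_seg hxo hy
  have yi : y i ∈ L i := by
    have := hc hyc
    rw [hU] at this
    exact this.2
  have hT' : segment ℝ y ![a, b, y 2] ⊆ ⋃₀ 𝒰 := fun w hw => by
    obtain ⟨k1, k2, k3, k4⟩ := ESA_seg yo hw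
    rw [hU]
    refine ⟨hS w k1 (k2.trans y2), ?_⟩
    rcases hi' with rfl | rfl
    · rw [k3 (ESA_near hB ha yi yo.1)]
      exact ha
    · rw [k4 (ESA_near hB hb yi yo.2.1)]
      exact hb
  obtain ⟨K, hKU, hsub⟩ := ESA_piece hf hd (fun K h => (POne_poly (hK K h)).1.isClosed)
    (hE.crc.tcrc.conn.isPreconnected.union y hyc (left_mem_segment _ _ _)
      (convex_segment _ _).isPreconnected) (union_subset hc hT') (Or.inl hyc)
  have hcK : c ⊆ K := subset_union_left.trans hsub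
  rcases hK K hKU with k | ⟨p, q, k⟩
  · have e := tcrc_sub hE.crc.tcrc k.tcrc hcK
    have : (![a, b, y 2] : Rn 3) ∈ K := hsub (Or.inr (right_mem_segment _ _ _))
    rw [← e, y2] at this
    exact hzE (hE.sub this)
  · obtain ⟨g, g1, g2, -⟩ := tarc_inv k.tarc
    exact tcrc_not_line hE.crc.tcrc (g1.mono hcK) (g2.mono hcK)

theorem ESA_dir (hB : EBx L lo hi) {w : Fin 3 × ℝ} {x : Rn 3}
    (h : x ∈ Co (bN L lo hi w) (bf w)) : (w.1 = 0 ∨ w.1 = 1) ∧ x w.1 ∈ L w.1 := by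
  obtain ⟨-, k1, k2⟩ := co_bN.1 h
  refine ⟨?_, k2 ▸ k1⟩
  obtain ⟨i, a⟩ := w
  fin_cases i
  · exact Or.inl rfl
  · exact Or.inr rfl
  · exact absurd k1 (by simp [hB.two])

theorem bx_mini (hB : EBx L lo hi) {F J : Set (Rn 3)} (hF : PDsc F J) (h1 : HP L lo hi F)
    (h2 : HP L lo hi J) (h3 : Disjoint J (bT L lo hi)) (hs : F ⊆ bO lo hi)
    (hL : NoL (bN L lo hi) bf (bO lo hi \ bT L lo hi) F J) :
    (NoC (bN L lo hi) bf F ∧ NoB (bN L lo hi) bf bcol F) ∨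
      ∃ E α β p q, Big L lo hi F J E α β p q := by
  by_cases hg : NoC (bN L lo hi) bf F ∧ NoB (bN L lo hi) bf bcol F
  · exact Or.inl hg
  right
  obtain ⟨𝒰, fU, eU, dU, kU⟩ := ESA_sec hB hF h1 h2 hs 0
  obtain ⟨𝒱, fV, eV, dV, kV⟩ := ESA_sec hB hF h1 h2 hs 1
  have mU : ∀ x, x ∈ ⋃₀ 𝒰 ↔ x ∈ F ∧ x 0 ∈ L 0 := fun x => by rw [eU]; rfl
  have mV : ∀ x, x ∈ ⋃₀ 𝒱 ↔ x ∈ F ∧ x 1 ∈ L 1 := fun x => by rw [eV]; rfl
  have sub : ∀ (w : Fin 3 × ℝ) (K : Set (Rn 3)), K ⊆ F ∩ Co (bN L lo hi w) (bf w) →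
      (w.1 = 0 → K ⊆ ⋃₀ 𝒰) ∧ (w.1 = 1 → K ⊆ ⋃₀ 𝒱) := fun w K hK =>
    ⟨fun e x hx => (mU x).2 ⟨(hK hx).1, e ▸ (ESA_dir hB (hK hx).2).2⟩,
      fun e x hx => (mV x).2 ⟨(hK hx).1, e ▸ (ESA_dir hB (hK hx).2).2⟩⟩
  have bad : (∃ C, Crc C ∧ (C ⊆ ⋃₀ 𝒰 ∨ C ⊆ ⋃₀ 𝒱)) ∨ ∃ K K' a b a' b', Arc K a b ∧ Arc K' a' b' ∧
      K ⊆ ⋃₀ 𝒰 ∧ K' ⊆ ⋃₀ 𝒱 ∧ ¬ (K ∩ K').Subsingleton := by
    rcases not_and_or.1 hg with k | k
    · left
      simp only [NoC, not_forall, not_not] at k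
      obtain ⟨w, γ, k1, k2⟩ := k
      obtain ⟨x, hx⟩ := k1.tcrc.conn.nonempty
      exact ⟨γ, k1, (ESA_dir hB (k2 hx).2).1.imp (sub w γ k2).1 (sub w γ k2).2⟩
    · right
      simp only [NoB, not_forall] at k
      obtain ⟨w, w', hw, K, K', a, b, a', b', k1, k2, k3, k4, k5⟩ := k
      rcases (ESA_dir hB (k3 k1.tarc.left).2).1 with e | e <;>
        rcases (ESA_dir hB (k4 k2.tarc.left).2).1 with e' | e'
      · exact absurd (by simp [bcol, e, e']) hw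
      · exact ⟨K, K', a, b, a', b', k1, k2, (sub w K k3).1 e, (sub w' K' k4).2 e', k5⟩
      · exact ⟨K', K, a', b', a, b, k2, k1, (sub w' K' k4).1 e', (sub w K k3).2 e,
          by rwa [inter_comm]⟩
      · exact absurd (by simp [bcol, e, e']) hw
  have hx : ∀ z ∈ ⋃₀ 𝒰 ∩ ⋃₀ 𝒱, ∃ k : Rn 2 → Rn 3, TP k ∧ InjOn k (closedBall 0 1) ∧
      k '' closedBall 0 1 ⊆ F \ J ∧ k 0 = z ∧ ∀ p ∈ closedBall (0 : Rn 2) 1,
        (k p ∈ ⋃₀ 𝒰 ↔ p 0 = 0) ∧ (k p ∈ ⋃₀ 𝒱 ↔ p 1 = 0) := by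
    rintro z ⟨z0, z1⟩
    obtain ⟨zF, z0⟩ := (mU z).1 z0
    obtain ⟨-, z1⟩ := (mV z).1 z1
    have e0 : ∀ p : Rn 2, (z + mk3 p 0) 0 - z 0 = p 0 := fun p => by simp
    have e1 : ∀ p : Rn 2, (z + mk3 p 0) 1 - z 1 = p 1 := fun p => by simp
    have hb : ∀ p ∈ closedBall (0 : Rn 2) 1, ∀ j, |p j| ≤ 1 := fun p hp j =>
      (norm_le_pi_norm p j).trans (mem_closedBall_zero_iff.1 hp)
    have ho : ∀ p ∈ closedBall (0 : Rn 2) 1, z + mk3 p 0 ∈ oc (z 0) (z 1) := fun p hp => by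
      refine ⟨?_, ?_, ?_⟩ <;> simp only [e0, e1] <;> linarith only [hb, hp, hb p hp 0, hb p hp 1]
    have hkF : ∀ p ∈ closedBall (0 : Rn 2) 1, z + mk3 p 0 ∈ F := fun p hp =>
      h1.tub _ z0 _ z1 z zF (hs zF) (by simp [oc]) _ (ho p hp) (by simp)
    refine ⟨fun p => z + mk3 p 0, (TP.const z).add (tp_lay 0), fun p _ q _ e => ?_, ?_, ?_,
      fun p hp => ⟨?_, ?_⟩⟩
    · have := congrArg pj3 (add_left_cancel e)
      simpa using this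
    · rintro _ ⟨p, hp, rfl⟩
      exact ⟨hkF p hp, fun e => disjoint_left.1 h3 e ⟨hs (hkF p hp), _, z0, _, z1, ho p hp⟩⟩
    · ext j
      fin_cases j <;> simp
    · rw [mU]
      refine ⟨fun k => ?_, fun k => ⟨hkF p hp, ?_⟩⟩
      · have := ESA_near hB z0 k.2 (ho p hp).1
        linarith [e0 p]
      · have : (z + mk3 p 0) 0 = z 0 := by linarith [e0 p]
        show (z + mk3 p 0) 0 ∈ L 0
        rwa [this]
    · rw [mV]
      refine ⟨fun k => ?_, fun k => ⟨hkF p hp, ?_⟩⟩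
      · have := ESA_near hB z1 k.2 (ho p hp).2.1
        linarith [e1 p]
      · have : (z + mk3 p 0) 1 = z 1 := by linarith [e1 p]
        show (z + mk3 p 0) 1 ∈ L 1
        rwa [this]
  rcases mini hF fU fV dU dV (by
    rintro K (hK | hK)
    · exact ⟨fun x hx => ((mU x).1 ⟨K, hK, hx⟩).1, kU K hK⟩
    · exact ⟨fun x hx => ((mV x).1 ⟨K, hK, hx⟩).1, kV K hK⟩) hx bad with
    ⟨E, c, hE, hEF, hc, hd⟩ | ⟨E, α, β, p, q, k1, k2, k3, k4, k5, k6, k7, k8, k9, k10⟩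
  · exfalso
    have hEF' : E ⊆ F := hEF.trans sdiff_subset
    have hz : ∀ z ∈ E, z 0 ∈ L 0 → z 1 ∉ L 1 := fun z hz z0 z1 => by
      have a0 := (mU z).2 ⟨hEF' hz, z0⟩
      have a1 := (mV z).2 ⟨hEF' hz, z1⟩
      by_cases e : z ∈ c
      · rcases hc with k | k
        · exact disjoint_left.1 k.2 e a1
        · exact disjoint_left.1 k.2 e a0
      · exact disjoint_left.1 hd ⟨hz, e⟩ (Or.inl a0)
    have key : Disjoint E (bT L lo hi) ∧ ∃ i : Fin 3, ∀ x ∈ c, x i ∈ L i := by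
      rcases hc with k | k
      · exact ⟨ESA_tube hB hF h1 (Or.inl rfl) fU eU dU
          (fun K h => (kU K h).imp And.left fun ⟨a, b, e⟩ => ⟨a, b, e.1⟩) hE hEF' k.1 hz,
          0, fun x hx => ((mU x).1 (k.1 hx)).2⟩
      · exact ⟨ESA_tube hB hF h1 (Or.inr rfl) fV eV dV
          (fun K h => (kV K h).imp And.left fun ⟨a, b, e⟩ => ⟨a, b, e.1⟩) hE hEF' k.1 hz,
          1, fun x hx => ((mV x).1 (k.1 hx)).2⟩
    obtain ⟨hT, i, hi'⟩ := key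
    have cc := hE.crc.tcrc.conn
    obtain ⟨x, hx⟩ := cc.nonempty
    obtain ⟨w, y, hy, hy'⟩ := hL (i, x i) E c hE hEF
      (fun y hy => ⟨hs (hEF' hy), disjoint_left.1 hT hy⟩) fun y hy =>
        co_bN.2 ⟨hs (hEF' (hE.sub hy)), hi' x hx, ESA_const hB cc.isPreconnected hi' hy hx⟩
    obtain ⟨e | e, e'⟩ := ESA_dir hB hy' <;> rw [e] at e'
    · exact disjoint_left.1 hd hy (Or.inl ((mU y).2 ⟨hEF' hy.1, e'⟩))
    · exact disjoint_left.1 hd hy (Or.inr ((mV y).2 ⟨hEF' hy.1, e'⟩))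
  · refine ⟨E, α, β, p, q, k1, k2, k3, k4, k5, fun x hx => hs (k5 hx).1,
      fun x hx => ((mU x).1 (k6 hx)).2, fun x hx => ((mV x).1 (k7 hx)).2,
      fun x hx e => k8 ⟨hx, (mV x).2 ⟨((mU x).1 (k6 hx)).1, e⟩⟩,
      fun x hx e => k9 ⟨hx, (mU x).2 ⟨((mV x).1 (k7 hx)).1, e⟩⟩, fun x hx => ⟨fun e => ?_, fun e => ?_⟩⟩
    · exact disjoint_left.1 k10 hx (Or.inl ((mU x).2 ⟨(k5 hx.1).1, e⟩))
    · exact disjoint_left.1 k10 hx (Or.inr ((mV x).2 ⟨(k5 hx.1).1, e⟩))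

theorem ESA_img {ι : Type} {F J : ι → Set (Rn 3)} (hF : ESt F J)
    (h1 : ∀ c, HP L lo hi (F c)) (h2 : ∀ c, HP L lo hi (J c))
    (h3 : ∀ c, Disjoint (J c) (bT L lo hi)) {Φ : Rn 3 → Rn 3} (hΦ : EGd L lo hi (⋃ c, F c) Φ) :
    ESt (fun c => Φ '' F c) (fun c => Φ '' J c) ∧ (∀ c, HP L lo hi (Φ '' F c)) ∧
      (∀ c, HP L lo hi (Φ '' J c)) ∧ (∀ c, Disjoint (Φ '' J c) (bT L lo hi)) ∧
      ∀ c, F c ⊆ bO lo hi → Φ '' F c ⊆ bO lo hi :=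
  ⟨hF.image hΦ.mv.1, fun c => hΦ.hp _ (subset_iUnion F c) (h1 c),
    fun c => hΦ.hp _ ((hF.dsc c).sub.trans (subset_iUnion F c)) (h2 c),
    fun c => hΦ.off ((hF.dsc c).sub.trans (subset_iUnion F c)) (h3 c),
    fun _ h => (image_mono h).trans (hΦ.mv.image_eq Subset.rfl).subset⟩

theorem ESA_ind {ι : Type} [Finite ι] (hB : EBx L lo hi) (N : ℕ) : ∀ F J : ι → Set (Rn 3),
    ESt F J → (∀ c, HP L lo hi (F c)) → (∀ c, HP L lo hi (J c)) →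
    (∀ c, Disjoint (J c) (bT L lo hi)) → ((⋃ c, F c) ∩ bR L lo hi).ncard = N →
    ∃ Φ, EGd L lo hi (⋃ c, F c) Φ ∧ ∀ c, F c ⊆ bO lo hi →
      NoC (bN L lo hi) bf (Φ '' F c) ∧ NoB (bN L lo hi) bf bcol (Φ '' F c) := by
  induction N using Nat.strong_induction_on with
  | _ N ih =>
    intro F J hF h1 h2 h3 hN
    obtain ⟨Φ, hΦ, hL⟩ := stageL hB hF h1 h2
    by_cases hg : ∀ c, F c ⊆ bO lo hi →
        NoC (bN L lo hi) bf (Φ '' F c) ∧ NoB (bN L lo hi) bf bcol (Φ '' F c)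
    · exact ⟨Φ, hΦ, hg⟩
    simp only [not_forall] at hg
    obtain ⟨c, hc, hg⟩ := hg
    obtain ⟨a1, a2, a3, a4, a5⟩ := ESA_img hF h1 h2 h3 hΦ
    obtain ⟨E, α, β, p, q, hE⟩ :=
      (bx_mini hB (a1.dsc c) (a2 c) (a3 c) (a4 c) (a5 c hc) (hL c)).resolve_left hg
    obtain ⟨Ψ, hΨ, x, hx, hx'⟩ := moveA hB a1 a2 a3 a4 hE
    rw [← image_iUnion] at hΨ hx hx'
    have hΘ := hΦ.comp hΨ
    obtain ⟨b1, b2, b3, b4, b5⟩ := ESA_img hF h1 h2 h3 hΘ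
    have hfin := fin_ray hB hF.poly.1 hF.poly.2 (HP.iUnion h1)
    have hlt : ((⋃ c, (Ψ ∘ Φ) '' F c) ∩ bR L lo hi).ncard < N := by
      rw [← hN, ← image_iUnion, image_comp]
      refine ncard_lt_ncard ⟨hΨ.ray.trans hΦ.ray, fun k => hx' (k (hΦ.ray hx)).1⟩ hfin
    obtain ⟨Ξ, hΞ, k⟩ := ih _ hlt _ _ b1 b2 b3 b4 rfl
    rw [← image_iUnion] at hΞ
    refine ⟨Ξ ∘ (Ψ ∘ Φ), hΘ.comp hΞ, fun d hd => ?_⟩
    rw [image_comp]
    exact k d (b5 d hd)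

theorem smA {ι : Type} [Finite ι] {F J : ι → Set (Rn 3)} (hB : EBx L lo hi) (hF : ESt F J)
    (h1 : ∀ c, HP L lo hi (F c)) (h2 : ∀ c, HP L lo hi (J c))
    (h3 : ∀ c, Disjoint (J c) (bT L lo hi)) :
    ∃ Φ, EGd L lo hi (⋃ c, F c) Φ ∧ ∀ c, F c ⊆ bO lo hi →
      NoC (bN L lo hi) bf (Φ '' F c) ∧ NoB (bN L lo hi) bf bcol (Φ '' F c) := by
  exact ESA_ind hB _ F J hF h1 h2 h3 rfl

end BEp
end
end

-- merged part: Pool.Agent.Work.MP_f0515e_an.P3.XE23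
section
/-! Additions to the exchange block: the stage with strong tracking, standard position without
bigons, minimal discs in a smaller box. -/

open Set Metric Filter Topology Function BEv
open scoped NNReal

noncomputable section
namespace BEp

variable {n m : ℕ}

variable {L : Fin 3 → Set ℝ} {lo hi lo' hi' : Rn 3}

theorem XE23_stageL1 {ι : Type} [Finite ι] {F J : ι → Set (Rn 3)} (hB : EBx L lo hi) (hF : ESt F J)
    (h1 : ∀ c, HP L lo hi (F c)) (h2 : ∀ c, HP L lo hi (J c)) :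
    ∃ Φ, Mv (bO lo hi \ bT L lo hi) Φ ∧ Trk1 (bN L lo hi) bf Φ (⋃ c, F c) ∧
      ∀ c, NoL (bN L lo hi) bf (bO lo hi \ bT L lo hi) (Φ '' F c) (Φ '' J c) := by
  obtain ⟨κ, μ, _, θ, R, bR, C, bC, π, hS, hO, hπ, hex, hγ⟩ := bx_sys hB
  have hw : ∀ {S}, HP L lo hi S → ∀ w, Iw (cN (θ w) (R w \ bR w)) (cf (θ w)) S := fun h w x hx hN => by
    rw [(hπ w).2]
    exact h.wal (π w) x hx ((hπ w).1 hN)
  obtain ⟨Φ, k1, k2, k3⟩ := smL hS hF (fun d => hw (h1 d)) fun d => hw (h2 d)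
  rw [hO] at k1 k3
  have fx : ∀ x ∈ bT L lo hi, Φ x = x := fun x hx => k1.2 x fun h => h.2 hx
  refine ⟨Φ, k1, fun x hx v hv => ?_, fun c v E γ hE s1 s2 s3 => ?_⟩
  · by_cases hT : Φ x ∈ bT L lo hi
    · have e : Φ x = x := k1.1.inj (fx _ hT)
      rw [e] at hv hT ⊢
      exact ⟨hv, fun t ht => fx _ (EBx_fib hB hv hT ht)⟩
    · obtain ⟨w, rfl, h⟩ := hex v _ hv hT
      obtain ⟨e1, e2⟩ := k2 x hx w h
      rw [← (hπ w).2]
      exact ⟨(hπ w).1 e1, e2⟩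
  · obtain ⟨w, rfl, h⟩ := hγ v γ (fun x hx => ⟨(s3 hx).1, (s2 (hE.sub hx)).2⟩)
      hE.conn_bd.isPreconnected hE.conn_bd.nonempty
    obtain ⟨w', x, e1, e2, e3⟩ := k3 c w E γ hE s1 s2 fun x hx =>
      ⟨h hx, by beta_reduce; rw [(hπ w).2]; exact (s3 hx).2⟩
    refine ⟨π w', x, e1, (hπ w').1 e2, ?_⟩
    rw [← (hπ w').2]
    exact e3

theorem XE23_ind {ι : Type} [Finite ι] (hB : EBx L lo hi) (N : ℕ) : ∀ F J : ι → Set (Rn 3),
    ESt F J → (∀ c, HP L lo hi (F c)) → (∀ c, HP L lo hi (J c)) →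
    (∀ c, Disjoint (J c) (bT L lo hi)) → ((⋃ c, F c) ∩ bR L lo hi).ncard = N →
    ∃ Φ, EGd L lo hi (⋃ c, F c) Φ ∧ ∀ c,
      NoL (bN L lo hi) bf (bO lo hi \ bT L lo hi) (Φ '' F c) (Φ '' J c) ∧
      ∀ E α β p q, ¬ Big L lo hi (Φ '' F c) (Φ '' J c) E α β p q := by
  induction N using Nat.strong_induction_on with
  | _ N ih =>
    intro F J hF h1 h2 h3 hN
    obtain ⟨Φ, hΦ, hL⟩ := stageL hB hF h1 h2
    by_cases hg : ∀ c E α β p q, ¬ Big L lo hi (Φ '' F c) (Φ '' J c) E α β p q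
    · exact ⟨Φ, hΦ, fun c => ⟨hL c, hg c⟩⟩
    simp only [not_forall, not_not] at hg
    obtain ⟨c, E, α, β, p, q, hE⟩ := hg
    obtain ⟨a1, a2, a3, a4, -⟩ := ESA_img hF h1 h2 h3 hΦ
    obtain ⟨Ψ, hΨ, x, hx, hx'⟩ := moveA hB a1 a2 a3 a4 hE
    rw [← image_iUnion] at hΨ hx hx'
    have hΘ := hΦ.comp hΨ
    obtain ⟨b1, b2, b3, b4, -⟩ := ESA_img hF h1 h2 h3 hΘ
    have hfin := fin_ray hB hF.poly.1 hF.poly.2 (HP.iUnion h1)
    have hlt : ((⋃ c, (Ψ ∘ Φ) '' F c) ∩ bR L lo hi).ncard < N := by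
      rw [← hN, ← image_iUnion, image_comp]
      refine ncard_lt_ncard ⟨hΨ.ray.trans hΦ.ray, fun k => hx' (k (hΦ.ray hx)).1⟩ hfin
    obtain ⟨Ξ, hΞ, k⟩ := ih _ hlt _ _ b1 b2 b3 b4 rfl
    rw [← image_iUnion] at hΞ
    refine ⟨Ξ ∘ (Ψ ∘ Φ), hΘ.comp hΞ, fun d => ?_⟩
    rw [image_comp, image_comp Ξ]
    exact k d

theorem XE23_mini2 (hB : EBx L lo hi) (hB' : EBx L lo' hi') (h0 : bO lo' hi' ⊆ bO lo hi)
    {F J : Set (Rn 3)} (hF : PDsc F J) (h1 : HP L lo hi F) (h2 : HP L lo hi J)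
    (h3 : Disjoint J (bT L lo hi)) (hs : F ⊆ bO lo hi) (hs' : F \ J ⊆ bO lo' hi')
    (hL : NoL (bN L lo' hi') bf (bO lo' hi' \ bT L lo' hi') F J) :
    (NoC (bN L lo hi) bf F ∧ NoB (bN L lo hi) bf bcol F) ∨
      ∃ E α β p q, Big L lo' hi' F J E α β p q := by
  by_cases hg : NoC (bN L lo hi) bf F ∧ NoB (bN L lo hi) bf bcol F
  · exact Or.inl hg
  right
  obtain ⟨𝒰, fU, eU, dU, kU⟩ := ESA_sec hB hF h1 h2 hs 0
  obtain ⟨𝒱, fV, eV, dV, kV⟩ := ESA_sec hB hF h1 h2 hs 1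
  have mU : ∀ x, x ∈ ⋃₀ 𝒰 ↔ x ∈ F ∧ x 0 ∈ L 0 := fun x => by rw [eU]; rfl
  have mV : ∀ x, x ∈ ⋃₀ 𝒱 ↔ x ∈ F ∧ x 1 ∈ L 1 := fun x => by rw [eV]; rfl
  have sub : ∀ (w : Fin 3 × ℝ) (K : Set (Rn 3)), K ⊆ F ∩ Co (bN L lo hi w) (bf w) →
      (w.1 = 0 → K ⊆ ⋃₀ 𝒰) ∧ (w.1 = 1 → K ⊆ ⋃₀ 𝒱) := fun w K hK =>
    ⟨fun e x hx => (mU x).2 ⟨(hK hx).1, e ▸ (ESA_dir hB (hK hx).2).2⟩,
      fun e x hx => (mV x).2 ⟨(hK hx).1, e ▸ (ESA_dir hB (hK hx).2).2⟩⟩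
  have bad : (∃ C, Crc C ∧ (C ⊆ ⋃₀ 𝒰 ∨ C ⊆ ⋃₀ 𝒱)) ∨ ∃ K K' a b a' b', Arc K a b ∧ Arc K' a' b' ∧
      K ⊆ ⋃₀ 𝒰 ∧ K' ⊆ ⋃₀ 𝒱 ∧ ¬ (K ∩ K').Subsingleton := by
    rcases not_and_or.1 hg with k | k
    · left
      simp only [NoC, not_forall, not_not] at k
      obtain ⟨w, γ, k1, k2⟩ := k
      obtain ⟨x, hx⟩ := k1.tcrc.conn.nonempty
      exact ⟨γ, k1, (ESA_dir hB (k2 hx).2).1.imp (sub w γ k2).1 (sub w γ k2).2⟩
    · right
      simp only [NoB, not_forall] at k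
      obtain ⟨w, w', hw, K, K', a, b, a', b', k1, k2, k3, k4, k5⟩ := k
      rcases (ESA_dir hB (k3 k1.tarc.left).2).1 with e | e <;>
        rcases (ESA_dir hB (k4 k2.tarc.left).2).1 with e' | e'
      · exact absurd (by simp [bcol, e, e']) hw
      · exact ⟨K, K', a, b, a', b', k1, k2, (sub w K k3).1 e, (sub w' K' k4).2 e', k5⟩
      · exact ⟨K', K, a', b', a, b, k2, k1, (sub w' K' k4).1 e', (sub w K k3).2 e,
          by rwa [inter_comm]⟩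
      · exact absurd (by simp [bcol, e, e']) hw
  have hx : ∀ z ∈ ⋃₀ 𝒰 ∩ ⋃₀ 𝒱, ∃ k : Rn 2 → Rn 3, TP k ∧ InjOn k (closedBall 0 1) ∧
      k '' closedBall 0 1 ⊆ F \ J ∧ k 0 = z ∧ ∀ p ∈ closedBall (0 : Rn 2) 1,
        (k p ∈ ⋃₀ 𝒰 ↔ p 0 = 0) ∧ (k p ∈ ⋃₀ 𝒱 ↔ p 1 = 0) := by
    rintro z ⟨z0, z1⟩
    obtain ⟨zF, z0⟩ := (mU z).1 z0
    obtain ⟨-, z1⟩ := (mV z).1 z1
    have e0 : ∀ p : Rn 2, (z + mk3 p 0) 0 - z 0 = p 0 := fun p => by simp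
    have e1 : ∀ p : Rn 2, (z + mk3 p 0) 1 - z 1 = p 1 := fun p => by simp
    have hb : ∀ p ∈ closedBall (0 : Rn 2) 1, ∀ j, |p j| ≤ 1 := fun p hp j =>
      (norm_le_pi_norm p j).trans (mem_closedBall_zero_iff.1 hp)
    have ho : ∀ p ∈ closedBall (0 : Rn 2) 1, z + mk3 p 0 ∈ oc (z 0) (z 1) := fun p hp => by
      refine ⟨?_, ?_, ?_⟩ <;> simp only [e0, e1] <;> linarith only [hb, hp, hb p hp 0, hb p hp 1]
    have hkF : ∀ p ∈ closedBall (0 : Rn 2) 1, z + mk3 p 0 ∈ F := fun p hp =>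
      h1.tub _ z0 _ z1 z zF (hs zF) (by simp [oc]) _ (ho p hp) (by simp)
    refine ⟨fun p => z + mk3 p 0, (TP.const z).add (tp_lay 0), fun p _ q _ e => ?_, ?_, ?_,
      fun p hp => ⟨?_, ?_⟩⟩
    · have := congrArg pj3 (add_left_cancel e)
      simpa using this
    · rintro _ ⟨p, hp, rfl⟩
      exact ⟨hkF p hp, fun e => disjoint_left.1 h3 e ⟨hs (hkF p hp), _, z0, _, z1, ho p hp⟩⟩
    · ext j
      fin_cases j <;> simp
    · rw [mU]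
      refine ⟨fun k => ?_, fun k => ⟨hkF p hp, ?_⟩⟩
      · have := ESA_near hB z0 k.2 (ho p hp).1
        linarith [e0 p]
      · have : (z + mk3 p 0) 0 = z 0 := by linarith [e0 p]
        show (z + mk3 p 0) 0 ∈ L 0
        rwa [this]
    · rw [mV]
      refine ⟨fun k => ?_, fun k => ⟨hkF p hp, ?_⟩⟩
      · have := ESA_near hB z1 k.2 (ho p hp).2.1
        linarith [e1 p]
      · have : (z + mk3 p 0) 1 = z 1 := by linarith [e1 p]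
        show (z + mk3 p 0) 1 ∈ L 1
        rwa [this]
  rcases mini hF fU fV dU dV (by
    rintro K (hK | hK)
    · exact ⟨fun x hx => ((mU x).1 ⟨K, hK, hx⟩).1, kU K hK⟩
    · exact ⟨fun x hx => ((mV x).1 ⟨K, hK, hx⟩).1, kV K hK⟩) hx bad with
    ⟨E, c, hE, hEF, hc, hd⟩ | ⟨E, α, β, p, q, k1, k2, k3, k4, k5, k6, k7, k8, k9, k10⟩
  · exfalso
    have hEF' : E ⊆ F := hEF.trans sdiff_subset
    have hz : ∀ z ∈ E, z 0 ∈ L 0 → z 1 ∉ L 1 := fun z hz z0 z1 => by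
      have a0 := (mU z).2 ⟨hEF' hz, z0⟩
      have a1 := (mV z).2 ⟨hEF' hz, z1⟩
      by_cases e : z ∈ c
      · rcases hc with k | k
        · exact disjoint_left.1 k.2 e a1
        · exact disjoint_left.1 k.2 e a0
      · exact disjoint_left.1 hd ⟨hz, e⟩ (Or.inl a0)
    have key : Disjoint E (bT L lo hi) ∧ ∃ i : Fin 3, ∀ x ∈ c, x i ∈ L i := by
      rcases hc with k | k
      · exact ⟨ESA_tube hB hF h1 (Or.inl rfl) fU eU dU
          (fun K h => (kU K h).imp And.left fun ⟨a, b, e⟩ => ⟨a, b, e.1⟩) hE hEF' k.1 hz,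
          0, fun x hx => ((mU x).1 (k.1 hx)).2⟩
      · exact ⟨ESA_tube hB hF h1 (Or.inr rfl) fV eV dV
          (fun K h => (kV K h).imp And.left fun ⟨a, b, e⟩ => ⟨a, b, e.1⟩) hE hEF' k.1 hz,
          1, fun x hx => ((mV x).1 (k.1 hx)).2⟩
    obtain ⟨hT, i, hi''⟩ := key
    have cc := hE.crc.tcrc.conn
    obtain ⟨x, hx⟩ := cc.nonempty
    obtain ⟨w, y, hy, hy'⟩ := hL (i, x i) E c hE hEF
      (fun y hy => ⟨hs' (hEF hy), fun k => disjoint_left.1 hT hy ⟨h0 k.1, k.2⟩⟩) fun y hy =>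
        co_bN.2 ⟨hs' (hEF (hE.sub hy)), hi'' x hx, ESA_const hB cc.isPreconnected hi'' hy hx⟩
    obtain ⟨e | e, e'⟩ := ESA_dir hB' hy' <;> rw [e] at e'
    · exact disjoint_left.1 hd hy (Or.inl ((mU y).2 ⟨hEF' hy.1, e'⟩))
    · exact disjoint_left.1 hd hy (Or.inr ((mV y).2 ⟨hEF' hy.1, e'⟩))
  · refine ⟨E, α, β, p, q, k1, k2, k3, k4, k5, fun x hx => hs' (k5 hx),
      fun x hx => ((mU x).1 (k6 hx)).2, fun x hx => ((mV x).1 (k7 hx)).2,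
      fun x hx e => k8 ⟨hx, (mV x).2 ⟨((mU x).1 (k6 hx)).1, e⟩⟩,
      fun x hx e => k9 ⟨hx, (mU x).2 ⟨((mV x).1 (k7 hx)).1, e⟩⟩, fun x hx => ⟨fun e => ?_, fun e => ?_⟩⟩
    · exact disjoint_left.1 k10 hx (Or.inl ((mU x).2 ⟨(k5 hx.1).1, e⟩))
    · exact disjoint_left.1 k10 hx (Or.inr ((mV x).2 ⟨(k5 hx.1).1, e⟩))

end BEp
end
end
end
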