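import Pool.Agent.Work.MP_f0515e_an.P3.XExt
import Pool.Agent.Work.MP_f0515e_an.D3.EML
import Pool.Agent.Work.MP_f0515e_an.P3.YFl1
import Pool.Agent.Work.MP_f0515e_an.P3.XE23
import Pool.Agent.Work.MP_f0515e_an.P3.XE21
import Pool.Agent.Work.MP_f0515e_an.D3.KA3
import Pool.Agent.Work.MP_f0515e_an.D3.KA4
import Pool.Agent.Work.MP_f0515e_an.P2.CutB

-- merged part: Pool.Agent.Work.MP_f0515e_an.P3.XBox1
section
-- merged part: Pool.Agent.Work.MP_f0515e_an.P3.XFb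
section
/-! Global walls: fibres and nested slabs (`XFb1`), Cantor subdivision and regions (`XFb2`). -/
end

-- merged part: Pool.Agent.Work.MP_f0515e_an.P3.XE2
section
/-! Additions to the exchange block (files D3/E*; read the proofs of `stageL`, `smA`, `bx_mini`, `epar`, `parA`, `edge_par` and adapt or reuse their helper lemmas).
`epar2`: `real_pat`, `epr_main`; replace `𝒥` by the subfamily of the intervals which parametrise an end `σ i ![± 1, ·]` of a band: it is finite and `Ivs` holds since `β` is injective on `bTri` and the ends are disjoint; `TameC` holds for the subfamily;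
then `𝒥' w = {l i, r i | w i = w}`, `mB_tame`. `bx_mini2`: `esec` in the large box, minimal discs lie in `F \ J`, hence in the small box. About 600 lines; three tasks. -/

open Set Metric Filter Topology Function BEv
open scoped NNReal

noncomputable section
namespace BEp

variable {n m : ℕ}

theorem epar2 {κ : Type} [Finite κ] {θ : κ → Rn 3 → Rn 3} {W : κ → Set (Rn 2)} {col : κ → Bool}
    {F J : Set (Rn 3)} (hF : PDsc F J) (hθ : ∀ w, LH (θ w)) (hW : ∀ w, IsOpen (W w))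
    (h1 : ∀ w, Iw (cN (θ w) (W w)) (cf (θ w)) F) (h2 : ∀ w, Iw (cN (θ w) (W w)) (cf (θ w)) J)
    (hc : ∀ w, IsClosed (F ∩ cN (θ w) (W w)))
    (hd : ∀ w w', w ≠ w' → col w = col w' → Disjoint (F ∩ cN (θ w) (W w)) (cN (θ w') (W w')))
    (hx : ∀ w w', col w ≠ col w' → ∀ x ∈ F, x ∈ cN (θ w) (W w) → x ∈ cN (θ w') (W w') → x ∉ J ∧
      ∀ t ∈ Icc (-1 : ℝ) 1, cf (θ w) x t ∈ cN (θ w') (W w') ∧
        invFun (θ w') (cf (θ w) x t) 2 = invFun (θ w') x 2)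
    (hC : NoC (fun w => cN (θ w) (W w)) (fun w => cf (θ w)) F)
    (hB : NoB (fun w => cN (θ w) (W w)) (fun w => cf (θ w)) col F) :
    Par (fun w => cN (θ w) (W w)) (fun w => cf (θ w)) F J := by
  obtain ⟨I, σ, T, hI, hP, hσ, hv⟩ := real_pat hF hθ hW h1 h2 hc hd hx hC hB
  exact XE22_main (w := Prod.fst) hI hP hσ hv

variable {L : Fin 3 → Set ℝ} {lo hi lo' hi' : Rn 3}

theorem parA2 (hB : EBx L lo hi) {F J : Set (Rn 3)} (hF : PDsc F J) (h1 : HP L lo hi F)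
    (h2 : HP L lo hi J) (h3 : Disjoint J (bT L lo hi)) (hs : F ⊆ bO lo hi)
    (hC : NoC (bN L lo hi) bf F) (hN : NoB (bN L lo hi) bf bcol F) : Par (bN L lo hi) bf F J := by
  exact XE22_parA hB hF h1 h2 h3 hs hC hN

theorem stageL1 {ι : Type} [Finite ι] {F J : ι → Set (Rn 3)} (hB : EBx L lo hi) (hF : ESt F J)
    (h1 : ∀ c, HP L lo hi (F c)) (h2 : ∀ c, HP L lo hi (J c)) :
    ∃ Φ, Mv (bO lo hi \ bT L lo hi) Φ ∧ Trk1 (bN L lo hi) bf Φ (⋃ c, F c) ∧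
      ∀ c, NoL (bN L lo hi) bf (bO lo hi \ bT L lo hi) (Φ '' F c) (Φ '' J c) := by
  exact XE23_stageL1 hB hF h1 h2

theorem smA0 {ι : Type} [Finite ι] {F J : ι → Set (Rn 3)} (hB : EBx L lo hi) (hF : ESt F J)
    (h1 : ∀ c, HP L lo hi (F c)) (h2 : ∀ c, HP L lo hi (J c))
    (h3 : ∀ c, Disjoint (J c) (bT L lo hi)) :
    ∃ Φ, EGd L lo hi (⋃ c, F c) Φ ∧ ∀ c,
      NoL (bN L lo hi) bf (bO lo hi \ bT L lo hi) (Φ '' F c) (Φ '' J c) ∧
      ∀ E α β p q, ¬ Big L lo hi (Φ '' F c) (Φ '' J c) E α β p q := by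
  exact XE23_ind hB _ F J hF h1 h2 h3 rfl

theorem bx_mini2 (hB : EBx L lo hi) (hB' : EBx L lo' hi') (h0 : bO lo' hi' ⊆ bO lo hi)
    {F J : Set (Rn 3)} (hF : PDsc F J) (h1 : HP L lo hi F) (h2 : HP L lo hi J)
    (h3 : Disjoint J (bT L lo hi)) (hs : F ⊆ bO lo hi) (hs' : F \ J ⊆ bO lo' hi')
    (hL : NoL (bN L lo' hi') bf (bO lo' hi' \ bT L lo' hi') F J) :
    (NoC (bN L lo hi) bf F ∧ NoB (bN L lo hi) bf bcol F) ∨
      ∃ E α β p q, Big L lo' hi' F J E α β p q := by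
  exact XE23_mini2 hB hB' h0 hF h1 h2 h3 hs hs' hL

end BEp
end
end

-- merged part: Pool.Agent.Work.MP_f0515e_an.P3.XCnt
section
/-! Counting crossings and placing intervals.
`cnt1`: cut `[0, 1]` into `m` intervals on which `h` is affine; `B` is the set of values on the intervals where `h` is constant. On one interval the number of levels met is at most `1 + |increment of clq g ∘ h| / d`; `eVariationOn.sum_le`.
`var_right`: for `u < w` one has `|h w - h u| ≤ A (w - u) + B * eVariationOn e (Icc u w)` by a supremum argument (the right side is monotone in `w`; `eVariationOn.Icc_add_Icc`); sum over a partition.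
`place`: half widths `w s / Λ`, equal gaps. `edge_w`: `edge_par2` with `Api.fib`, `Api.co`; weight of a core point `s`: `x v` for the class `v` of its wall. `exps`: `a v` is the maximum of `a₀` over the classes within `dim v` steps of `v` (neighbours: finitely many by `lf2`, `lf1`), `r j` the maximum of `a` over the neighbours. About 500 lines; two tasks. -/

open Set Metric Filter Topology Function BEv
open scoped NNReal

noncomputable section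
namespace BEp

variable {n m : ℕ}

variable {ν ι : Type} {V : Set (Rn 3)} {g C : ℝ} {Cf : (Rn 3 ≃L[ℝ] Rn 3) → ℝ} {P : ι → Pc} {T : TS}
  {c : Rn 3 → ℝ} {t : ν → Rn 3 → ℝ} {mv : ν → Rn 3 → ℝ → Rn 3} {dim : ν → ℕ} {b : ν → Rn 3}

theorem Api.edge_w (h : Api V g C Cf P T c t mv dim b) {A : ν → Set ℝ} {ε : ν → ℝ} (hA : XLev g A ε)
    {γ : ℝ → Rn 3} (hγ : TP γ) (hi : InjOn γ (Icc 0 1)) (hV : ∀ s ∈ Icc (0 : ℝ) 1, γ s ∈ V)
    (h1 : ∀ ω, Iw (gN V t A ε ω) (gf mv ε ω) (γ '' Icc 0 1))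
    (h0 : ∀ ω, γ 0 ∉ gN V t A ε ω ∧ γ 1 ∉ gN V t A ε ω) {x : ν → ℝ} (hx : ∀ v, 0 < x v)
    (S : Finset ν) (hS : ∀ s ∈ Icc (0 : ℝ) 1, ∀ v, t v (γ s) ∈ A v → v ∈ S)
    (hZ : ∀ v ∈ S, {s ∈ Icc (0 : ℝ) 1 | t v (γ s) ∈ A v}.Finite) {d Λ : ℝ} (hd : 0 < d) (hΛ : 0 ≤ Λ)
    (k : 2 * ∑ v ∈ S, {s ∈ Icc (0 : ℝ) 1 | t v (γ s) ∈ A v}.ncard * x v < Λ * (1 - 2 * d)) :
    ∃ ρ, Rp ρ ∧ PT V t mv A ε x (γ ∘ ρ) d fun _ => Λ := by
  classical
  have hc : IsCompact (γ '' Icc 0 1) := isCompact_Icc.image hγ.continuous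
  have hs : γ '' Icc 0 1 ⊆ V := by
    rintro _ ⟨s, e, rfl⟩
    exact hV s e
  have un : ∀ s ∈ Icc (0 : ℝ) 1, ∀ ω ω', γ s ∈ gN V t A ε ω → γ s ∈ gN V t A ε ω' → ω = ω' :=
    fun s e ω ω' k k' => hA.uniq k k'
      (h.two_of_pc hA hc hs (PArc_pc hγ) h1 _ (mem_image_of_mem _ e) ω ω' k k')
  obtain ⟨Z, eZ⟩ : ∃ Z : Set ℝ,
      Z = {s ∈ Icc (0 : ℝ) 1 | ∃ ω, γ s ∈ Co (gN V t A ε ω) (gf mv ε ω)} := ⟨_, rfl⟩
  obtain ⟨Y, eY⟩ : ∃ Y : ν → Set ℝ, ∀ v, Y v = {s ∈ Icc (0 : ℝ) 1 | t v (γ s) ∈ A v} :=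
    ⟨_, fun _ => rfl⟩
  simp only [← eY] at hZ k
  have zy : ∀ s ∈ Z, ∀ ω, γ s ∈ gN V t A ε ω → ω.1 ∈ S ∧ s ∈ Y ω.1 := by
    intro s e ω k
    rw [eZ] at e
    obtain ⟨e, ω', k'⟩ := e
    obtain rfl := un s e ω ω' k k'.1
    obtain ⟨-, c1, c2⟩ := (h.co hA).1 k'
    rw [← c2] at c1
    exact ⟨hS s e _ c1, by rw [eY]; exact ⟨e, c1⟩⟩
  have zy' : ∀ s ∈ Z, ∃ v ∈ S, s ∈ Y v := fun s e => by
    obtain ⟨-, ω, k⟩ := eZ ▸ e
    exact ⟨_, zy s e ω k.1⟩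
  have hf : Z.Finite := (S.finite_toSet.biUnion hZ).subset fun s e => by
    obtain ⟨v, k, k'⟩ := zy' s e
    exact mem_biUnion k k'
  obtain ⟨w, ew⟩ : ∃ w : ℝ → ℝ, ∀ s, w s = ∑ v ∈ S, if s ∈ Y v then x v else 0 :=
    ⟨_, fun _ => rfl⟩
  have w1 : ∀ s, ∀ v ∈ S, s ∈ Y v → x v ≤ w s := fun s v e e' => by
    rw [ew]
    refine le_trans (le_of_eq (if_pos e').symm)
      (Finset.single_le_sum (f := fun v => if s ∈ Y v then x v else 0) (fun u _ => ?_) e)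
    split_ifs
    · exact (hx u).le
    · exact le_rfl
  have w2 : ∑ s ∈ hf.toFinset, w s ≤ ∑ v ∈ S, (Y v).ncard * x v := by
    simp only [ew]
    rw [Finset.sum_comm]
    refine Finset.sum_le_sum fun v e => ?_
    rw [← Finset.sum_filter, Finset.sum_const, nsmul_eq_mul]
    refine mul_le_mul_of_nonneg_right (Nat.cast_le.2 ?_) (hx v).le
    rw [← ncard_coe_finset]
    exact ncard_le_ncard (fun s k => (Finset.mem_filter.1 k).2) (hZ v e)
  obtain ⟨j, j1, j2⟩ := place hf.toFinset (w := w) (fun s e => by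
    obtain ⟨v, k, k'⟩ := zy' s (hf.mem_toFinset.1 e)
    exact (hx v).trans_le (w1 s v k k')) hd hΛ (by linarith only [hf, k, w2])
  simp only [hf.mem_toFinset] at j1 j2
  obtain ⟨ρ, r1, r2, r3, r4, r5, r6⟩ := edge_par2 (h.fib hA) hγ hi (fun ω => by
      obtain ⟨u, u1, u2⟩ := h.ltp ω.1 _ hc hs
      exact ⟨fun s => (u (γ s) - ω.2) / ε ω.1, ((u1.comp hγ).sub (TP.const _)).div_const _,
        fun s e _ => by rw [gcr, u2 (mem_image_of_mem _ e)]⟩) h1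
    (fun ω ω' e => disjoint_left.2 (by
      rintro _ ⟨⟨s, e', rfl⟩, k⟩ k'
      exact e (un s e' ω ω' k k'))) h0 eZ hf (j := j)
    (fun s e => by
      obtain ⟨c1, c2, c3, -⟩ := j1 s e
      exact ⟨c1, by linarith, by linarith⟩) j2
  refine ⟨ρ, ⟨r1, r2, r3, r4, r5⟩, r6.mono ?_⟩
  rintro ω _ ⟨s, ⟨e, e'⟩, rfl⟩
  obtain ⟨c1, c2⟩ := zy s e ω e'
  exact Jv.mono (D := 1) zero_le_one (by rw [one_mul]; exact w1 s _ c1 c2)
    (fun _ => (one_mul _).le) (j1 s e)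

end BEp
end
end

-- merged part: Pool.Agent.Work.MP_f0515e_an.P3.XFam1
section
/-! The cells off the solids, first part: barriers and interiors are unions of cells. -/

open Set Metric Filter Topology Function BEv
open scoped NNReal

noncomputable section
namespace BEp

variable {n m : ℕ}

variable {ν ι : Type} {V : Set (Rn 3)} {g C : ℝ} {Cf : (Rn 3 ≃L[ℝ] Rn 3) → ℝ} {P : ι → Pc} {T : TS}
  {c : Rn 3 → ℝ} {t : ν → Rn 3 → ℝ} {mv : ν → Rn 3 → ℝ → Rn 3} {dim : ν → ℕ} {b : ν → Rn 3}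
  {Ω : Set (Rn 3)} {K : Kx Ω} {G : Rn 3 → Rn 3} {θ : Rn 3 → ℝ} {ch : Set (Rn 3) → Ch}
  {r R τ : Set (Rn 3) → ℝ}

theorem Pc.Lat.symm {Q : Pc} {x y : Rn 3} (h : Q.Lat x y) : Q.Lat y x :=
  fun i k => ⟨(h i k).1.symm, (h i k).2.symm⟩

theorem Pc.Lat.trans {Q : Pc} {x y z : Rn 3} (h : Q.Lat x y) (k : Q.Lat y z) : Q.Lat x z :=
  fun i j => ⟨(h i j).1.trans (k i j).1, (h i j).2.trans (k i j).2⟩

theorem XFam1_l (Q : Pc) : 0 < Q.l := by
  unfold Pc.l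
  positivity

theorem XFam1_le (Q : Pc) : Q.ρ ≤ Q.ρx := by
  unfold Pc.ρx
  have := XFam1_l Q
  split_ifs <;> linarith only [this]

theorem XFam1_mono (Q : Pc) {a a' : ℝ} (h : a ≤ a') : Q.Q a ⊆ Q.Q a' :=
  fun _ hx => ⟨hx.1, fun i hi => (hx.2 i hi).trans h⟩

theorem Pc.bd_sub (Q : Pc) : Q.Bd ⊆ Q.Bx ∧ Q.Bx ⊆ Q.Q Q.ρx ∧ Q.Q Q.ρ ⊆ Q.Q Q.ρx :=
  ⟨fun _ hx => ⟨XFam1_mono Q (XFam1_le Q) hx.1, hx.2⟩, fun _ hx => hx.1,
    XFam1_mono Q (XFam1_le Q)⟩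

theorem XFam1_closed (Q : Pc) (a : ℝ) : IsClosed (Q.Q a) := by
  have e : Q.Q a = (⋂ i, ⋂ _ : i ∉ Q.I, {x : Rn 3 | x i = Q.c i}) ∩
      ⋂ i, ⋂ _ : i ∈ Q.I, {x : Rn 3 | |x i - Q.c i| ≤ a} := by
    ext x
    simp only [Pc.Q, mem_inter_iff, mem_iInter, Set.mem_ofPred_eq]
  rw [e]
  exact (isClosed_iInter fun i => isClosed_iInter fun _ =>
    isClosed_eq (by fun_prop) (by fun_prop)).inter
      (isClosed_iInter fun i => isClosed_iInter fun _ => isClosed_le (by fun_prop) (by fun_prop))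

theorem XFam1_bx_closed (Q : Pc) : IsClosed Q.Bx := by
  have e : Q.Bx = Q.Q Q.ρx ∩ ⋂ _ : Q.I.card = 3, ⋃ i, {x : Rn 3 | |x i - Q.c i| = Q.ρ} := by
    ext x
    simp only [Pc.Bx, mem_inter_iff, mem_iInter, mem_iUnion, Set.mem_ofPred_eq]
  rw [e]
  exact (XFam1_closed Q _).inter (isClosed_iInter fun _ =>
    isClosed_iUnion_of_finite fun i => isClosed_eq (by fun_prop) (by fun_prop))

theorem XFam1_univ {Q : Pc} (h : Q.I.card = 3) (i : Fin 3) : i ∈ Q.I := by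
  have e : Q.I = Finset.univ := Finset.eq_univ_of_card _ (by simpa using h)
  rw [e]
  exact Finset.mem_univ i

theorem XFam1_in {Q : Pc} {x : Rn 3} :
    x ∈ Q.In ↔ Q.I.card = 3 ∧ ∀ i, |x i - Q.c i| < Q.ρ := by
  constructor
  · rintro ⟨h1, h2⟩
    have h3 : Q.I.card = 3 := by
      by_contra k
      exact h2 ⟨h1, fun e => absurd e k⟩
    exact ⟨h3, fun i => lt_of_le_of_ne (h1.2 i (XFam1_univ h3 i)) fun e => h2 ⟨h1, fun _ => ⟨i, e⟩⟩⟩
  · rintro ⟨h1, h2⟩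
    refine ⟨⟨fun i hi => absurd (XFam1_univ h1 i) hi, fun i _ => (h2 i).le⟩, fun k => ?_⟩
    obtain ⟨i, hi⟩ := k.2 h1
    exact (h2 i).ne hi

theorem XFam1_open (Q : Pc) : IsOpen Q.In := by
  have e : Q.In = (⋂ _ : ¬ Q.I.card = 3, (∅ : Set (Rn 3))) ∩
      ⋂ i, {x : Rn 3 | |x i - Q.c i| < Q.ρ} := by
    ext x
    simp only [XFam1_in, mem_inter_iff, mem_iInter, Set.mem_ofPred_eq, mem_empty_iff_false,
      imp_false, not_not]
  rw [e]
  exact (isOpen_iInter_of_finite fun _ => isOpen_empty).inter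
    (isOpen_iInter_of_finite fun i => isOpen_lt (by fun_prop) (by fun_prop))

theorem XFam1_lat_le {Q : Pc} (ho : Q.Ok) {x y : Rn 3} (h : Q.Lat x y) {i : Fin 3}
    (hx : |x i - Q.c i| ≤ Q.ρ) : |y i - Q.c i| ≤ Q.ρ := by
  obtain ⟨k, -, e⟩ := ho.rho
  rw [e, abs_le] at hx ⊢
  have h1 := (h i k).1
  have h2 := (h i (-k)).2
  simp only [Int.cast_natCast, Int.cast_neg, neg_mul] at h1 h2
  exact ⟨h2.1 hx.1, h1.1 hx.2⟩

theorem XFam1_lat_eq {Q : Pc} (ho : Q.Ok) {x y : Rn 3} (h : Q.Lat x y) {i : Fin 3}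
    (hx : |x i - Q.c i| = Q.ρ) : |y i - Q.c i| = Q.ρ := by
  refine le_antisymm (XFam1_lat_le ho h hx.le) ?_
  obtain ⟨k, -, e⟩ := ho.rho
  have hx' := hx.ge
  rw [e, le_abs'] at hx' ⊢
  have h1 := (h i k).2
  have h2 := (h i (-k)).1
  simp only [Int.cast_natCast, Int.cast_neg, neg_mul] at h1 h2
  exact hx'.imp h2.1 h1.1

theorem XCtx.cell_bd (h : XCtx V g C P T t mv dim K G Cf c b θ ch r R τ) {i : ι}
    (hi : 2 ≤ (P i).I.card) {x : Rn 3} (hx : x ∈ (P i).Bd) : K.cell x ⊆ (P i).Bd := by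
  intro y hy
  have h1 := (P i).bd_sub.1 hx
  have h2 := h.hin.lat i hi x h1 y hy
  have h3 := h.hin.cel i x h1.1 hy
  refine ⟨⟨h3.1, fun j hj => XFam1_lat_le (h.pc.ok i) h2 (hx.1.2 j hj)⟩, fun e => ?_⟩
  obtain ⟨j, hj⟩ := hx.2 e
  exact ⟨j, XFam1_lat_eq (h.pc.ok i) h2 hj⟩

theorem XFam1_cell_bx (h : XCtx V g C P T t mv dim K G Cf c b θ ch r R τ) {i : ι}
    (hi : 2 ≤ (P i).I.card) {x : Rn 3} (hx : x ∈ (P i).Bx) : K.cell x ⊆ (P i).Bx := by
  intro y hy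
  refine ⟨h.hin.cel i x hx.1 hy, fun e => ?_⟩
  obtain ⟨j, hj⟩ := hx.2 e
  exact ⟨j, XFam1_lat_eq (h.pc.ok i) (h.hin.lat i hi x hx y hy) hj⟩

theorem XFam1_cell_in (h : XCtx V g C P T t mv dim K G Cf c b θ ch r R τ) {i : ι}
    {x : Rn 3} (hx : x ∈ (P i).In) : K.cell x ⊆ (P i).In := by
  intro y hy
  have h3 := (XFam1_in.1 hx).1
  have h1 := (P i).bd_sub.2.2 hx.1
  have e : (P i).ρx = (P i).ρ := by
    unfold Pc.ρx
    rw [if_neg (by omega)]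
  refine ⟨e ▸ h.hin.cel i x h1 hy, fun k => hx.2 ?_⟩
  have h2 := h.cell_bd (by omega) k
  rw [K.eqv x (h.hin.QS i h1) y hy] at h2
  exact h2 (K.mem x (h.hin.QS i h1))

theorem XFam1_disj (h : XCtx V g C P T t mv dim K G Cf c b θ ch r R τ) {i j : ι}
    (hi : 2 ≤ (P i).I.card) (hj : 2 ≤ (P j).I.card) {x : Rn 3} (h1 : x ∈ (P i).Q (P i).ρx)
    (h2 : x ∈ (P j).Q (P j).ρx) : i = j := by
  by_contra k
  have h3 := h.pc.sep i j k x h1 x h2
  rw [← h.hin.rig i hi h1, ← h.hin.rig j hj h2, sub_self, norm_zero] at h3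
  have := mul_pos (one_pos.trans_le (h.cf (P i).A)) (XFam1_l (P i))
  have := mul_pos (one_pos.trans_le (h.cf (P j).A)) (XFam1_l (P j))
  linarith

theorem XCtx.down (h : XCtx V g C P T t mv dim K G Cf c b θ ch r R τ) {F σ : Set (Rn 3)}
    (hF : F ∈ K.cells) (ho : Ofs P F) (hσ : σ ∈ K.cells) (hs : σ ⊆ closure F) : Ofs P σ := by
  intro i k
  obtain ⟨x, hx⟩ := Kx.cells_ne hσ
  obtain ⟨y, h1, h2⟩ := mem_closure_iff.1 (hs hx) _ (XFam1_open (P i)) (k hx)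
  exact ho i (Kx.cell_eq hF h2 ▸ XFam1_cell_in h h1)

theorem XFam1_out [Finite ι] (h : XCtx V g C P T t mv dim K G Cf c b θ ch r R τ) {x : Rn 3}
    (hx : x ∈ Ω) (ho : ∀ i, x ∉ (P i).In) : ∃ y ∈ Ω, x ∈ closure (K.cell y) ∧
      ∀ i, (P i).I.card = 3 → y ∉ (P i).Q (P i).ρ := by
  by_cases k : ∃ i, (P i).I.card = 3 ∧ x ∈ (P i).Q (P i).ρ
  · obtain ⟨i, hi, k⟩ := k
    have h1 : ∀ᶠ y in 𝓝 x, ∀ j, j ≠ i → (P j).I.card = 3 → y ∉ (P j).Q (P j).ρ := by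
      refine eventually_all.2 fun j => ?_
      by_cases e : j ≠ i ∧ (P j).I.card = 3
      · have h2 : x ∉ (P j).Q (P j).ρ := fun k' => e.1 (XFam1_disj h (by omega) (by omega)
          ((P j).bd_sub.2.2 k') ((P i).bd_sub.2.2 k))
        filter_upwards [(XFam1_closed (P j) (P j).ρ).isOpen_compl.mem_nhds h2] with y hy _ _
        exact hy
      · exact .of_forall fun y a a' => absurd ⟨a, a'⟩ e
    obtain ⟨δ, hδ, h2, h3⟩ := kb_near ((Kx.near (K := K) h.hin.opn hx).and h1) (x - (P i).c)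
    refine ⟨_, h2.1, h2.2, fun j hj => ?_⟩
    by_cases e : j = i
    · subst e
      intro k'
      have h4 : x ∈ (P j).Bd := by
        by_contra a
        exact ho j ⟨k, a⟩
      obtain ⟨l, hl⟩ := h4.2 hj
      have h5 := k'.2 l (XFam1_univ hj l)
      have e : (x + δ • (x - (P j).c)) l - (P j).c l = (1 + δ) * (x l - (P j).c l) := by
        simp only [Pi.add_apply, Pi.smul_apply, Pi.sub_apply, smul_eq_mul]
        ring
      rw [e, abs_mul, hl, abs_of_pos (by linarith only [hδ])] at h5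
      obtain ⟨q, hq, e'⟩ := (h.pc.ok j).rho
      have h6 : 0 < (P j).ρ := by
        rw [e']
        exact mul_pos (by exact_mod_cast hq) (XFam1_l _)
      linarith only [h5, hδ, h6, mul_pos_of_neg_of_neg (Mathlib.Tactic.Linarith.sub_neg_of_lt hδ) (Mathlib.Tactic.Linarith.sub_neg_of_lt h6)]
    · exact h3 j e hj
  · exact ⟨x, hx, subset_closure (K.mem x hx), fun i hi a => k ⟨i, hi, a⟩⟩

theorem XCtx.up [Finite ι] (h : XCtx V g C P T t mv dim K G Cf c b θ ch r R τ) {σ : Set (Rn 3)}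
    (hσ : σ ∈ K.cells) (hd : dm σ ≤ 2) (ho : Ofs P σ) :
    ∃ F ∈ K.cel 2, Ofs P F ∧ σ ⊆ closure F := by
  obtain ⟨x, hx⟩ := Kx.cells_ne hσ
  obtain ⟨y, hy, h1, h2⟩ := XFam1_out h (Kx.cells_sub hσ hx) fun i k =>
    ho i (Kx.cell_eq hσ hx ▸ XFam1_cell_in h k)
  obtain ⟨S, hS, h3⟩ := Kx.exists_up h.hin.opn (K.cell_mem hy) (dm_le _) le_rfl
  have h4 : Ofs P S := by
    intro i k
    obtain ⟨z, hz⟩ := Kx.cells_ne hS.1
    exact h2 i (XFam1_in.1 (k hz)).1 (closure_minimal (fun w hw => (k hw).1)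
      (XFam1_closed _ _) (h3 (K.mem y hy)))
  have h5 : σ ⊆ closure S :=
    Kx.front hσ hS.1 ⟨x, hx, closure_minimal h3 isClosed_closure h1⟩
  obtain ⟨F, hF, h6, h7⟩ := Kx.exists_mid hS.1 hσ h5 hd (by rw [hS.2]; omega)
  exact ⟨F, hF, h.down hS.1 h4 hF.1 h7, h6⟩

theorem XCtx.flat (h : XCtx V g C P T t mv dim K G Cf c b θ ch r R τ) {F : Set (Rn 3)}
    (hF : F ∈ K.cells) : G '' closure F ⊆ BP P ∨ Disjoint (G '' F) (BP P) := by
  by_cases k : Disjoint (G '' F) (BP P)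
  · exact .inr k
  obtain ⟨_, ⟨x, hx, rfl⟩, i, hi, x', hx', e⟩ := not_disjoint_iff.1 k
  have h1 : x' = x := h.hin.inj (h.hin.QS i hx'.1) (Kx.cells_sub hF hx)
    ((h.hin.rig i hi hx'.1).trans e)
  subst h1
  have h2 : closure F ⊆ (P i).Bx :=
    closure_minimal (Kx.cell_eq hF hx ▸ XFam1_cell_bx h hi hx') (XFam1_bx_closed _)
  left
  rintro _ ⟨z, hz, rfl⟩
  exact ⟨i, hi, z, h2 hz, (h.hin.rig i hi (h2 hz).1).symm⟩

theorem XCtx.chd_ofs (h : XCtx V g C P T t mv dim K G Cf c b θ ch r R τ) {i : ι} {j : Fin 3}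
    (hi : (P i).I = {j}) {x y : Rn 3} (he : K.Edge x y) (hs : segment ℝ x y ⊆ (P i).Q (P i).ρ) :
    Ofs P (openSegment ℝ x y) := by
  intro i' k
  obtain ⟨z, hz⟩ := Kx.cells_ne he.2
  have h1 := (XFam1_in.1 (k hz)).1
  have h2 : (P i).I.card = 1 := by rw [hi, Finset.card_singleton]
  have h3 := hs (openSegment_subset_segment ℝ x y hz)
  have h4 := (P i').bd_sub.2.2 (k hz).1
  have h5 := h.pc.sep i' i (fun e => by rw [e] at h1; omega) z h4 z ((P i).bd_sub.2.2 h3)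
  rw [← h.hin.rig i' (by omega) h4] at h5
  have h6 := h.hin.chd i h2 z h3
  have h7 := mul_pos (one_pos.trans_le (h.cf (P i').A)) (XFam1_l (P i'))
  have h8 := XFam1_l (P i)
  have h9 := h.cf (P i).A
  have h10 : g * (P i).l / Cf (P i).A ≤ g * (P i).l :=
    div_le_self (mul_pos h.api.g0.1 h8).le h9
  have h11 := h.api.g0.2
  linarith only [h5, h6, h7, h8, h10, h9, h11, mul_nonneg_of_nonpos_of_nonpos (le_of_lt (Mathlib.Tactic.Linarith.sub_neg_of_lt h8)) (Mathlib.Tactic.Linarith.sub_nonpos_of_le h9), mul_nonneg_of_nonpos_of_nonpos (le_of_lt (Mathlib.Tactic.Linarith.sub_neg_of_lt h8)) (Mathlib.Tactic.Linarith.sub_nonpos_of_le h11)]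

end BEp
end
end

-- merged part: Pool.Agent.Work.MP_f0515e_an.P3.XBox1
section
/-! The move in one half of a model box. -/

open Set Metric Filter Topology Function BEv
open scoped NNReal

noncomputable section
namespace BEp

variable {n m : ℕ}

/-- Result of a move in the box. -/
structure BOut {ι : Type} (L : Fin 3 → Set ℝ) (lo hi lo' hi' : Rn 3) (F J : ι → Set (Rn 3))
    (Φ : Rn 3 → Rn 3) : Prop where
  hF : ∀ c, HP L lo hi (Φ '' F c)
  hJ : ∀ c, HP L lo hi (Φ '' J c)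
  off : ∀ c, Disjoint (Φ '' J c) (bT L lo hi)
  trk : Trk (bN L lo hi) bf Φ (⋃ c, J c)
  trk1 : ∀ c, Disjoint (F c) (bO lo' hi') → Trk1 (bN L lo hi) bf Φ (F c)

section
variable {L : Fin 3 → Set ℝ} {lo hi lo' hi' : Rn 3} {S : Set (Rn 3)} {Φ : Rn 3 → Rn 3}

/-- A fibre through a point outside a box with the same levels misses this box. -/
theorem XBox1_fib (hB' : EBx L lo' hi') {w : Fin 3 × ℝ} {x : Rn 3} (hx : x ∈ bN L lo hi w)
    (ho : x ∉ bO lo' hi') (t : ℝ) : bf w x t ∉ bO lo' hi' := fun k => ho (by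
  simpa [bf] using ebas_upd hB' hx.2.1 k (hx.2.2.trans (by norm_num)))

/-- A horizontal slice of a tube is inside or outside the box. -/
theorem XBox1_tub (hB : EBx L lo hi) {a b : ℝ} (ha : a ∈ L 0) (hb : b ∈ L 1) {x y : Rn 3}
    (hx : x ∈ bO lo hi) (hy : y ∈ oc a b) (e : y 2 = x 2) : y ∈ bO lo hi := fun i => by
  obtain ⟨h1, h2⟩ := hB.inn 0 a ha
  obtain ⟨h3, h4⟩ := hB.inn 1 b hb
  obtain ⟨h5, h6⟩ := abs_le.1 hy.1
  obtain ⟨h7, h8⟩ := abs_le.1 hy.2.1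
  fin_cases i
  · exact ⟨show lo 0 < y 0 by linarith only [h1, h5], show y 0 < hi 0 by linarith⟩
  · exact ⟨show lo 1 < y 1 by linarith, show y 1 < hi 1 by linarith⟩
  · exact show lo 2 < y 2 ∧ y 2 < hi 2 from e ▸ hx 2

theorem XBox1_down (h0 : bO lo' hi' ⊆ bO lo hi) (h : HP L lo hi S) : HP L lo' hi' S :=
  ⟨fun w x hx hN => h.wal w x hx ⟨h0 hN.1, hN.2⟩,
    fun a ha b hb x hx hO => h.tub a ha b hb x hx (h0 hO)⟩

theorem XBox1_eq {W : Set (Rn 3)} (hΦ : Mv W Φ) {x : Rn 3} (h : Φ x ∉ W) : Φ x = x :=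
  hΦ.1.inj (hΦ.2 _ h)

theorem XBox1_up (hB' : EBx L lo' hi') (hΦ : Mv (bO lo' hi') Φ) (h : HP L lo hi S)
    (h' : HP L lo' hi' (Φ '' S)) : HP L lo hi (Φ '' S) := by
  constructor
  · rintro w _ ⟨x, hx, rfl⟩ hN t ht
    by_cases k : Φ x ∈ bO lo' hi'
    · exact h'.wal w _ ⟨x, hx, rfl⟩ ⟨k, hN.2⟩ t ht
    · have e := XBox1_eq hΦ k
      rw [e] at hN k ⊢
      exact ⟨_, h.wal w x hx hN t ht, hΦ.2 _ (XBox1_fib hB' hN k t)⟩
  · rintro a ha b hb _ ⟨x, hx, rfl⟩ hO hc y hy e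
    by_cases k : Φ x ∈ bO lo' hi'
    · exact h'.tub a ha b hb _ ⟨x, hx, rfl⟩ k hc y hy e
    · rw [XBox1_eq hΦ k] at hO hc e k
      exact ⟨y, h.tub a ha b hb x hx hO hc y hy e,
        hΦ.2 _ fun k' => k (XBox1_tub hB' ha hb k' hc e.symm)⟩

theorem XBox1_trk (hB' : EBx L lo' hi') (h0 : bO lo' hi' ⊆ bO lo hi) (hΦ : Mv (bO lo' hi') Φ)
    (h : Trk (bN L lo' hi') bf Φ S) : Trk (bN L lo hi) bf Φ S := by
  intro x hx w hN
  by_cases k : Φ x ∈ bO lo' hi'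
  · obtain ⟨w', s, hs, h1, e⟩ := h x hx w ⟨k, hN.2⟩
    exact ⟨w', s, hs, ⟨h0 h1.1, h1.2⟩, e⟩
  · have e := XBox1_eq hΦ k
    rw [e] at hN k ⊢
    exact ⟨w, 1, Or.inl rfl, hN, fun t _ => by rw [one_mul, hΦ.2 _ (XBox1_fib hB' hN k t)]⟩

theorem XBox1_trk1 (hB' : EBx L lo' hi') (h0 : bO lo' hi' ⊆ bO lo hi) (hΦ : Mv (bO lo' hi') Φ)
    (h : Trk1 (bN L lo' hi') bf Φ S) : Trk1 (bN L lo hi) bf Φ S := by
  intro x hx w hN
  by_cases k : Φ x ∈ bO lo' hi'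
  · obtain ⟨h1, e⟩ := h x hx w ⟨k, hN.2⟩
    exact ⟨⟨h0 h1.1, h1.2⟩, e⟩
  · have e := XBox1_eq hΦ k
    rw [e] at hN k ⊢
    exact ⟨hN, fun t _ => hΦ.2 _ (XBox1_fib hB' hN k t)⟩

theorem XBox1_fix (hB' : EBx L lo' hi') (hΦ : Mv (bO lo' hi') Φ) (h : Disjoint S (bO lo' hi')) :
    Trk1 (bN L lo hi) bf Φ S := by
  intro x hx w hN
  have k := disjoint_left.1 h hx
  rw [hΦ.2 x k] at hN ⊢
  exact ⟨hN, fun t _ => hΦ.2 _ (XBox1_fib hB' hN k t)⟩

theorem XBox1_off (hΦ : Mv (bO lo' hi') Φ) (h : Disjoint S (bT L lo hi))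
    (h' : Disjoint (Φ '' S) (bT L lo' hi')) : Disjoint (Φ '' S) (bT L lo hi) := by
  refine disjoint_left.2 ?_
  rintro _ ⟨x, hx, rfl⟩ hT
  by_cases k : Φ x ∈ bO lo' hi'
  · exact disjoint_left.1 h' ⟨x, hx, rfl⟩ ⟨k, hT.2⟩
  · rw [XBox1_eq hΦ k] at hT
    exact disjoint_left.1 h hx hT

theorem XBox1_off2 (hΦ : Mv (bT L lo hi)ᶜ Φ) (h : Disjoint S (bT L lo hi)) :
    Disjoint (Φ '' S) (bT L lo hi) := by
  refine disjoint_left.2 ?_
  rintro _ ⟨x, hx, rfl⟩ hT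
  rw [XBox1_eq hΦ (not_not.2 hT)] at hT
  exact disjoint_left.1 h hx hT

theorem XBox1_hp (hB : EBx L lo hi) (hΦ : Mv (bT L lo hi)ᶜ Φ) (k : Trk (bN L lo hi) bf Φ S)
    (h : HP L lo hi S) : HP L lo hi (Φ '' S) := by
  refine ⟨k.iw h.wal, ?_⟩
  rintro a ha b hb _ ⟨x, hx, rfl⟩ hO hc y hy e
  have hT : Φ x ∈ bT L lo hi := ⟨hO, a, ha, b, hb, hc⟩
  rw [XBox1_eq hΦ (not_not.2 hT)] at hO hc e
  exact ⟨y, h.tub a ha b hb x hx hO hc y hy e,
    hΦ.2 _ (not_not.2 ⟨XBox1_tub hB ha hb hO hy e, a, ha, b, hb, hy⟩)⟩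

theorem XBox1_mem {u v : ℝ} {x : Rn 3} : x ∈ bO (update lo 2 u) (update hi 2 v) ↔
    (∀ i, i ≠ 2 → lo i < x i ∧ x i < hi i) ∧ u < x 2 ∧ x 2 < v := by
  refine ⟨fun h => ⟨fun i e => ?_, ?_⟩, fun h i => ?_⟩
  · simpa only [update_of_ne e] using h i
  · simpa only [update_self] using h 2
  · rcases eq_or_ne i 2 with rfl | e
    · simpa only [update_self] using h.2
    · simpa only [update_of_ne e] using h.1 i e

theorem XBox1_box (hB : EBx L lo hi) {u v : ℝ} (huv : u < v) :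
    EBx L (update lo 2 u) (update hi 2 v) := by
  refine ⟨hB.fin, hB.two, hB.gap, fun i a ha => ?_, fun i => ?_⟩
  · have e : i ≠ 2 := by
      rintro rfl
      rw [hB.two] at ha
      exact ha
    rw [update_of_ne e, update_of_ne e]
    exact hB.inn i a ha
  · rcases eq_or_ne i 2 with rfl | e
    · rwa [update_self, update_self]
    · rw [update_of_ne e, update_of_ne e]
      exact hB.lt i

end

variable {L : Fin 3 → Set ℝ} {lo hi lo' hi' : Rn 3} {ι : Type} [Finite ι] {F J : ι → Set (Rn 3)}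

theorem half_model (hB : EBx L lo hi) (hB' : EBx L lo' hi') (hs : ∀ i, lo i ≤ lo' i ∧ hi' i ≤ hi i)
    (h2 : lo' 2 = lo 2 ∧ hi' 2 = hi 2) {u v : ℝ} (hu : lo 2 ≤ u) (huv : u < v) (hv : v ≤ hi 2)
    (hF : ESt F J) (k1 : ∀ c, HP L lo hi (F c)) (k2 : ∀ c, HP L lo hi (J c))
    (k3 : ∀ c, Disjoint (J c) (bT L lo hi))
    (hT : ∀ c, (F c ∩ bT L lo hi).Nonempty → F c ∩ bO lo hi ⊆ bO lo' hi') :
    ∃ Φ, Mv (bO (update lo 2 u) (update hi 2 v)) Φ ∧ BOut L lo hi lo' hi' F J Φ ∧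
      ∀ c, F c ⊆ bO lo hi → F c \ J c ⊆ bO (update lo 2 u) (update hi 2 v) →
        NoC (bN L lo hi) bf (Φ '' F c) ∧ NoB (bN L lo hi) bf bcol (Φ '' F c) := by
  have hB1 := XBox1_box hB huv
  have hB2 := XBox1_box hB' huv
  have cut : ∀ {a b : Rn 3}, a 2 ≤ u → v ≤ b 2 → bO (update a 2 u) (update b 2 v) ⊆ bO a b := by
    intro a b h1 h3 x hx i
    obtain ⟨e1, e2, e3⟩ := XBox1_mem.1 hx
    rcases eq_or_ne i 2 with rfl | e
    · exact ⟨h1.trans_lt e2, e3.trans_le h3⟩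
    · exact e1 i e
  have s10 := cut hu hv
  have s2' := cut (h2.1.trans_le hu) (hv.trans_eq h2.2.symm)
  have s21 : bO (update lo' 2 u) (update hi' 2 v) ⊆ bO (update lo 2 u) (update hi 2 v) :=
    fun x hx => XBox1_mem.2 ⟨fun i e => ⟨(hs i).1.trans_lt ((XBox1_mem.1 hx).1 i e).1,
      ((XBox1_mem.1 hx).1 i e).2.trans_le (hs i).2⟩, (XBox1_mem.1 hx).2⟩
  have sin : ∀ x ∈ bO (update lo 2 u) (update hi 2 v), x ∈ bO lo' hi' →
      x ∈ bO (update lo' 2 u) (update hi' 2 v) :=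
    fun x hx h => XBox1_mem.2 ⟨fun i _ => h i, (XBox1_mem.1 hx).2⟩
  generalize update lo 2 u = lo1, update hi 2 v = hi1, update lo' 2 u = lo2,
    update hi' 2 v = hi2 at *
  have s20 := s21.trans s10
  have dT : ∀ {S : Set (Rn 3)}, Disjoint S (bT L lo hi) → Disjoint S (bT L lo2 hi2) :=
    fun h => h.mono_right (show bT L lo2 hi2 ⊆ bT L lo hi from fun x hx => ⟨s20 hx.1, hx.2⟩)
  have sF : ∀ c, F c ⊆ ⋃ c, F c := subset_iUnion F
  have sJ : ∀ c, J c ⊆ F c := fun c => (hF.dsc c).sub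
  obtain ⟨Φ, hΦ, hL⟩ := smA0 hB2 hF (fun c => XBox1_down s20 (k1 c))
    (fun c => XBox1_down s20 (k2 c)) fun c => dT (k3 c)
  have a0 := hF.image hΦ.mv.1
  have a1 : ∀ c, HP L lo hi (Φ '' F c) := fun c =>
    XBox1_up hB2 hΦ.mv (k1 c) (hΦ.hp _ (sF c) (XBox1_down s20 (k1 c)))
  have a2 : ∀ c, HP L lo hi (Φ '' J c) := fun c =>
    XBox1_up hB2 hΦ.mv (k2 c) (hΦ.hp _ ((sJ c).trans (sF c)) (XBox1_down s20 (k2 c)))
  have a3 : ∀ c, Disjoint (Φ '' J c) (bT L lo hi) := fun c =>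
    XBox1_off hΦ.mv (k3 c) (hΦ.off ((sJ c).trans (sF c)) (dT (k3 c)))
  obtain ⟨Ψ, hΨ, hk, hM⟩ := stageL1 hB1 a0 (fun c => XBox1_down s10 (a1 c))
    fun c => XBox1_down s10 (a2 c)
  have m1 : Mv (bO lo1 hi1) Ψ := hΨ.mono sdiff_subset
  have m2 : Mv (bT L lo hi)ᶜ Ψ := hΨ.mono fun x hx k => hx.2 ⟨hx.1, k.2⟩
  have tk := XBox1_trk1 hB1 s10 m1 hk
  have tF : ∀ c, Trk1 (bN L lo hi) bf Ψ (Φ '' F c) := fun c =>
    tk.mono (subset_iUnion (fun c => Φ '' F c) c)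
  have b1 : ∀ c, HP L lo hi (Ψ '' (Φ '' F c)) := fun c => XBox1_hp hB m2 (tF c).trk (a1 c)
  have b2 : ∀ c, HP L lo hi (Ψ '' (Φ '' J c)) := fun c =>
    XBox1_hp hB m2 ((tF c).mono (image_mono (sJ c))).trk (a2 c)
  have b3 : ∀ c, Disjoint (Ψ '' (Φ '' J c)) (bT L lo hi) := fun c => XBox1_off2 m2 (a3 c)
  have m3 : Mv (bO lo1 hi1) Φ := hΦ.mv.mono s21
  refine ⟨Ψ ∘ Φ, m1.comp m3, ⟨fun c => ?_, fun c => ?_, fun c => ?_, ?_, fun c hc => ?_⟩,
    fun c hc hc' => ?_⟩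
  · rw [image_comp]
    exact b1 c
  · rw [image_comp]
    exact b2 c
  · rw [image_comp]
    exact b3 c
  · refine (XBox1_trk hB2 s20 hΦ.mv (hΦ.trk.mono ?_)).comp (tk.mono ?_).trk
    · exact iUnion_subset fun c => subset_sdiff.2 ⟨(sJ c).trans (sF c), dT (k3 c)⟩
    · rw [image_iUnion]
      exact iUnion_mono fun c => image_mono (sJ c)
  · exact (XBox1_fix hB2 hΦ.mv (hc.mono_right s2')).comp (tF c)
  · rw [image_comp]
    have c1 : Φ '' F c ⊆ bO lo hi := (image_mono hc).trans (hΦ.mv.image_eq s20).subset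
    by_cases hn : (F c ∩ bT L lo hi).Nonempty
    · have c2 : Φ '' F c \ Φ '' J c ⊆ bO lo2 hi2 := by
        rw [← image_sdiff hΦ.mv.1.inj]
        exact (image_mono fun x hx => sin x (hc' hx) (hT c hn ⟨hx.1, hc hx.1⟩)).trans
          (hΦ.mv.image_eq Subset.rfl).subset
      obtain ⟨d1, d2⟩ := (bx_mini2 hB hB2 s20 (a0.dsc c) (a1 c) (a2 c) (a3 c) c1 c2
        (hL c).1).resolve_right fun ⟨E, α, β, p, q, h⟩ => (hL c).2 E α β p q h
      exact ⟨(tF c).noC (a1 c).wal hΨ.1.tpi (fun x _ => hΨ.1.li x) d1,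
        (tF c).noB (a1 c).wal hΨ.1.tpi (fun x _ => hΨ.1.li x) d2⟩
    · have c0 : Disjoint (F c) (bT L lo hi) :=
        disjoint_iff_inter_eq_empty.2 (not_nonempty_iff_eq_empty.1 hn)
      have c3 := XBox1_off2 m2 (XBox1_off hΦ.mv c0 (hΦ.off (sF c) (dT c0)))
      have c2 : Ψ '' (Φ '' F c) \ Ψ '' (Φ '' J c) ⊆ bO lo1 hi1 := by
        rw [← image_sdiff hΨ.1.inj, ← image_sdiff hΦ.mv.1.inj]
        exact (image_mono ((image_mono hc').trans (m3.image_eq Subset.rfl).subset)).trans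
          (m1.image_eq Subset.rfl).subset
      refine (bx_mini2 hB hB1 s10 ((a0.image hΨ.1).dsc c) (b1 c) (b2 c) (b3 c)
        ((image_mono c1).trans (m1.image_eq s10).subset) c2 (hM c)).resolve_right ?_
      rintro ⟨E, α, β, p, q, h⟩
      have hp : p ∈ α ∩ β := h.int.symm ▸ Or.inl rfl
      have hE : p ∈ E := h.dsc.sub (Or.inl hp.1)
      exact disjoint_left.1 c3 (h.sub hE).1
        ⟨s10 (h.box hE), _, h.ua p hp.1, _, h.ub p hp.2, by simp [oc]⟩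

end BEp
end
end
end

-- merged part: Pool.Agent.Work.MP_f0515e_an.P3.XHpB
section
-- merged part: Pool.Agent.Work.MP_f0515e_an.P3.XH3
section
/-! `hw2` (file D3/EH2) with one more clause: a member of the family which is already vertical is preserved. Copy the proof of `hw2`. With `G` as there, `G (mk3 y s)` lies over the end of the path from `mk3 y t` along the directions `u k`, which is in `P` iff `mk3 y t` is (`pth_iv`, `Iv` is symmetric); where `G` moves a point both horizontal positions are in `interior R`. About 250 lines. -/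

open Set Metric Filter Topology Function BEv
open scoped NNReal

noncomputable section
namespace BEp

variable {n m : ℕ}

theorem hw3 {𝒬 : Set (Set (Rn 3))} {R : Set (Rn 2)} (hR : IsCompact R) {t ρ : ℝ} (hρ : 0 < ρ)
    (h : ∀ y ∈ R, ∃ (u : Rn 3) (r : ℝ), u 2 = 1 ∧ 0 < r ∧ ∀ P ∈ 𝒬, Iv P (ball (mk3 y t) r) u)
    (hb : ∀ y ∈ frontier R, ∃ r > 0, ∀ P ∈ 𝒬, Iv P (ball (mk3 y t) r) ![0, 0, 1]) :
    ∃ δ > 0, ∃ Φ, Mv {x | pj3 x ∈ interior R ∧ |x 2 - t| < ρ} Φ ∧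
      (∀ x, Φ x 2 = x 2 ∧ ‖Φ x - x‖ ≤ ρ) ∧
      (∀ P ∈ 𝒬, ∀ y ∈ R, ∀ s s' : ℝ, |s - t| ≤ δ → |s' - t| ≤ δ →
        mk3 y s ∈ Φ '' P → mk3 y s' ∈ Φ '' P) ∧
      ∀ P ∈ 𝒬, (∀ y ∈ interior R, ∀ s s' : ℝ, |s - t| < ρ → |s' - t| < ρ →
        mk3 y s ∈ P → mk3 y s' ∈ P) → Φ '' P = P := by
  have h' : ∀ y ∈ R, ∃ (u : Rn 3) (r : ℝ), u 2 = 1 ∧ 0 < r ∧
      (∀ P ∈ 𝒬, Iv P (ball (mk3 y t) r) u) ∧ (ball y r ⊆ interior R ∨ pj3 u = 0) := fun y hy => by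
    by_cases k : y ∈ interior R
    · obtain ⟨u, r, h1, h2, h3⟩ := h y hy
      obtain ⟨r', h4, h5⟩ := Metric.isOpen_iff.1 isOpen_interior y k
      exact ⟨u, min r r', h1, lt_min h2 h4,
        fun P hP => (h3 P hP).mono (ball_subset_ball (min_le_left _ _)),
        Or.inl ((ball_subset_ball (min_le_right _ _)).trans h5)⟩
    · obtain ⟨r, h1, h2⟩ := hb y ⟨subset_closure hy, k⟩
      refine ⟨_, r, rfl, h1, h2, Or.inr ?_⟩
      ext i
      fin_cases i <;> rfl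
  choose! u r hu hr hI hS using h'
  obtain ⟨F, hF, hc⟩ := hR.elim_nhds_subcover (fun x => ball x (r x / 4))
    fun x hx => ball_mem_nhds x (by linarith [hr x hx])
  let φ : Rn 2 → Rn 2 → ℝ := fun k y => max 0 (min 1 (2 - 4 * ‖y - k‖ / r k))
  let l : ℝ → Rn 2 → List (ℝ × Rn 3) := fun ε y => F.toList.map fun k => (φ k y, ε • u k)
  have hφ : ∀ k, TP fun x => φ k (pj3 x) := fun k => (TP.const 0).max ((TP.const 1).min
    ((TP.const 2).sub (((tp_pj3.sub (TP.const _)).norm_pi.const_mul 4).div_const _)))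
  have hΓ : ∀ ε, TP fun x => pth (l ε (pj3 x)) (x 2) := fun ε => pth_tp _ hφ _ (TP.id'.apply 2)
  have hl : ∀ ε y, ∀ p ∈ l ε y, ∃ k ∈ F, p = (φ k y, ε • u k) := fun ε y p hp => by
    obtain ⟨k, hk, rfl⟩ := List.mem_map.1 hp
    exact ⟨k, Finset.mem_toList.1 hk, rfl⟩
  have hl0 : ∀ ε y, ∀ p ∈ l ε y, 0 ≤ p.1 ∧ p.2 2 = ε := fun ε y p hp => by
    obtain ⟨k, hk, rfl⟩ := hl ε y p hp
    exact ⟨le_max_left _ _, by simp [hu k (hF k hk)]⟩
  have hz : ∀ ε y s, s ≤ 0 → pth (l ε y) s = 0 := fun ε y s hs =>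
    pth_nonpos (fun p hp => (hl0 ε y p hp).1) hs
  have hsup : ∀ k ∈ F, ∀ y, 0 < φ k y → ‖y - k‖ < r k / 2 := fun k hk y hp0 => by
    have h3 : 0 < 2 - 4 * ‖y - k‖ / r k :=
      (lt_min_iff.1 ((lt_max_iff.1 hp0).resolve_left (lt_irrefl _))).2
    rw [sub_pos, div_lt_iff₀ (hr k (hF k hk))] at h3
    linarith only [h3]
  let Γ : Rn 2 → ℝ → Rn 3 := fun y s => pth (l 1 y) s + pth (l (-1) y) (-s)
  have hΓ' : TP fun x => Γ (pj3 x) (x 2) := by
    have := (hΓ 1).add ((hΓ (-1)).comp (tp_pj3.mk3 (TP.id'.apply 2).neg))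
    simpa only [pj3_mk3, mk3_2] using this
  obtain ⟨L, hL, hb'⟩ := hΓ'.exists_bound
  have hL0 : 0 < L := by linarith
  have hΓz : ∀ y, Γ y 0 = 0 := fun y => by
    simp only [Γ, neg_zero, hz _ _ _ le_rfl, add_zero]
  have hΓ0 : ∀ y s, ‖Γ y s‖ ≤ L * |s| := fun y s => by
    have := hb' (mk3 y s) (mk3 y 0)
    simp only [pj3_mk3, mk3_2, ASl_ver, sub_zero] at this
    rwa [hΓz, sub_zero] at this
  obtain ⟨c, hr0, hr1, hr2, hr3⟩ := ((show ∀ᶠ c in 𝓝[>] (0 : ℝ), 0 < c from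
    self_mem_nhdsWithin).and (((eventually_lt_nhds (half_pos hρ)).and
      ((eventually_lt_nhds one_half_pos).and ((eventually_all_finset F).2 fun k hk =>
        eventually_lt_nhds (half_pos (half_pos (hr k (hF k hk))))))).filter_mono
          nhdsWithin_le_nhds)).exists
  obtain ⟨η, hη, rfl⟩ : ∃ η, 0 < η ∧ η * L = c := ⟨c / L, by positivity, by field_simp⟩
  have hηρ : 2 * η ≤ ρ := by linarith only [hr1, hL, hη, mul_nonneg_of_nonpos_of_nonpos (Mathlib.Tactic.Linarith.sub_nonpos_of_le hL) (le_of_lt (Mathlib.Tactic.Linarith.sub_neg_of_lt hη))]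
  let w : ℝ → ℝ := fun s => clamp (s - t) (max 0 (2 * η - |s - t|)) / η
  have hw : TP fun x : Rn 3 => w (x 2) := (((TP.id'.apply 2).sub (TP.const t)).clamp
    ((TP.const 0).max ((TP.const _).sub ((TP.id'.apply 2).sub (TP.const t)).abs))).div_const η
  have hw2 : ∀ s, |w s| ≤ 2 := fun s => by
    simp only [w]
    rw [abs_div, abs_of_pos hη, div_le_iff₀ hη]
    exact (abs_clamp_le (le_max_left _ _)).trans
      (max_le (by positivity) (by linarith only [abs_nonneg (s - t)]))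
  have hd : TP fun x : Rn 3 => η • pj3 (Γ (pj3 x) (w (x 2))) := by
    have := (tp_pj3.comp (hΓ'.comp (tp_pj3.mk3 hw))).const_smul η
    simpa only [pj3_mk3, mk3_2] using this
  have hG : LP fun x => mk3 (pj3 x + η • pj3 (Γ (pj3 x) (w (x 2)))) (x 2) :=
    lp_pert hd fun y y' s => by
      have := hb' (mk3 y (w s)) (mk3 y' (w s))
      simp only [pj3_mk3, mk3_2, ASl_hor] at this ⊢
      rw [← smul_sub, ← pj3_sub, norm_smul, Real.norm_of_nonneg hη.le]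
      refine (mul_le_mul_of_nonneg_left ((ASl_pj _).trans this) hη.le).trans ?_
      rw [← mul_assoc]
      exact mul_le_mul_of_nonneg_right hr2.le (norm_nonneg _)
  set G : Rn 3 → Rn 3 := fun x => mk3 (pj3 x + η • pj3 (Γ (pj3 x) (w (x 2)))) (x 2) with hGe
  have fix : ∀ x, pj3 (Γ (pj3 x) (w (x 2))) = 0 → G x = x := fun x e => by
    simp only [G]
    rw [e, smul_zero, add_zero, mk3_pj3]
  have pz : pj3 0 = 0 := EH2_pj (l := []) (fun _ h => by simp at h) 0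
  have hfix : ∀ x, x ∉ {x : Rn 3 | pj3 x ∈ interior R ∧ |x 2 - t| < ρ} → G x = x :=
      fun x hx => fix x <| by
    by_cases k : pj3 x ∈ interior R
    · have k2 : ρ ≤ |x 2 - t| := not_lt.1 fun k' => hx ⟨k, k'⟩
      have e : w (x 2) = 0 := by
        simp only [w]
        rw [max_eq_left (by linarith only [hηρ, k2]), clamp_zero, zero_div]
      rw [e, hΓz, pz]
    · have e : ∀ ε s, pj3 (pth (l ε (pj3 x)) s) = 0 := fun ε s => EH2_pj (fun p hp => by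
        obtain ⟨j, hj, rfl⟩ := hl ε _ p hp
        rcases (hl0 ε _ _ hp).1.eq_or_lt with e | e
        · exact Or.inl e.symm
        · rcases hS j (hF j hj) with a | a
          · refine (k (a (mem_ball_iff_norm.2 ((hsup j hj _ e).trans ?_)))).elim
            exact half_lt_self (hr j (hF j hj))
          · exact Or.inr (by rw [pj3_smul, a, smul_zero])) s
      simp only [Γ]
      rw [pj3_add, e, e, add_zero]
  have key2 : ∀ P ∈ 𝒬, ∀ y ∈ R, ∀ σ, |σ| ≤ 1 →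
      Γ y σ 2 = σ ∧ (mk3 y t ∈ P ↔ mk3 y t + η • Γ y σ ∈ P) := fun P hP y hy => by
    obtain ⟨k, hk, hy'⟩ : ∃ k ∈ F, y ∈ ball k (r k / 4) := by simpa using hc hy
    have hsum : ∀ ε, 1 ≤ ((l ε y).map Prod.fst).sum := fun ε => by
      refine List.single_le_sum (fun c hc => ?_) 1 (List.mem_map.2 ⟨_, List.mem_map.2
        ⟨k, Finset.mem_toList.2 hk, rfl⟩, ?_⟩)
      · obtain ⟨p, hp, rfl⟩ := List.mem_map.1 hc
        exact (hl0 ε y p hp).1
      · rw [mem_ball_iff_norm] at hy'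
        have h1 : 4 * ‖y - k‖ / r k ≤ 1 := (div_le_one (hr k (hF k hk))).2 (by linarith only [hy'])
        simp only [φ]
        rw [min_eq_left (by linarith only [h1]), max_eq_right zero_le_one]
    have key : ∀ ε, (∀ σ ∈ Icc (0 : ℝ) 1, ‖pth (l ε y) σ‖ ≤ L) → ∀ σ ∈ Icc (0 : ℝ) 1,
        (mk3 y t ∈ P ↔ mk3 y t + η • pth (l ε y) σ ∈ P) := fun ε hn σ hσ => by
      have := pth_iv (S := P) (N := closedBall (mk3 y t) (η * L)) (η := η) (l := l ε y)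
        (fun p hp => ⟨(hl0 ε y p hp).1, fun hp0 => ?_⟩) (mk3 y t) hσ.1 fun τ hτ => ?_
      · rwa [hz _ _ _ le_rfl, smul_zero, add_zero] at this
      · obtain ⟨j, hj, rfl⟩ := hl ε y p hp
        have h4 : closedBall (mk3 y t) (η * L) ⊆ ball (mk3 j t) (r j) := closedBall_subset_ball' (by
          rw [dist_eq_norm, ASl_hor]
          linarith only [hr0, hsup, hj, hp0, hr3, hsup j hj y hp0, hr3 j hj, hr j (hF j hj)])
        intro z hz' c
        rw [smul_smul]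
        exact (hI j (hF j hj) P hP).mono h4 z hz' _
      · rw [mem_closedBall_iff_norm, add_sub_cancel_left, norm_smul, Real.norm_of_nonneg hη.le]
        exact mul_le_mul_of_nonneg_left (hn τ ⟨hτ.1, hτ.2.trans hσ.2⟩) hη.le
    have g1 : ∀ σ, 0 ≤ σ → Γ y σ = pth (l 1 y) σ := fun σ h0 => by
      simp only [Γ]
      rw [hz _ _ _ (neg_nonpos.2 h0), add_zero]
    have g2 : ∀ σ, 0 ≤ σ → Γ y (-σ) = pth (l (-1) y) σ := fun σ h0 => by
      simp only [Γ]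
      rw [hz _ _ _ (neg_nonpos.2 h0), zero_add, neg_neg]
    intro σ hσ
    rcases le_total 0 σ with h0 | h0
    · have h1 := (abs_le.1 hσ).2
      rw [g1 σ h0]
      refine ⟨(pth_two (hl0 1 y) h0 (h1.trans (hsum 1))).trans (one_mul σ),
        key 1 (fun τ hτ => ?_) σ ⟨h0, h1⟩⟩
      rw [← g1 τ hτ.1]
      exact (hΓ0 y τ).trans (mul_le_of_le_one_right hL0.le (by rw [abs_of_nonneg hτ.1]; exact hτ.2))
    · have h1 : -σ ≤ 1 := by linarith only [hσ, (abs_le.1 hσ).1]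
      have h2 := neg_nonneg.2 h0
      rw [← neg_neg σ, g2 _ h2]
      refine ⟨(pth_two (hl0 (-1) y) h2 (h1.trans (hsum _))).trans (neg_one_mul _),
        key (-1) (fun τ hτ => ?_) _ ⟨h2, h1⟩⟩
      rw [← g2 τ hτ.1]
      exact (hΓ0 y _).trans (mul_le_of_le_one_right hL0.le
        (by rw [abs_neg, abs_of_nonneg hτ.1]; exact hτ.2))
  have key3 : ∀ P ∈ 𝒬, ∀ y ∈ R, ∀ σ, |σ| ≤ 1 →
      (mk3 y t ∈ P ↔ mk3 (y + η • pj3 (Γ y σ)) (t + η * σ) ∈ P) := fun P hP y hy σ hσ => by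
    obtain ⟨a, b⟩ := key2 P hP y hy σ hσ
    rw [b]
    conv_lhs => rw [← mk3_pj3 (Γ _ _), ← mk3_smul, ← mk3_add, a]
  have im : ∀ (P : Set (Rn 3)) x, x ∈ invFun G '' P ↔ G x ∈ P := fun P x =>
    ⟨fun ⟨z, hz, e⟩ => by rwa [← e, hG.1.ri], fun k => ⟨_, k, hG.1.li _⟩⟩
  refine ⟨η, hη, invFun G, Mv.inv ⟨hG.1, hfix⟩, fun x => ?_, fun P hP y hy => ?_,
    fun P hP hv => Set.ext fun x => ?_⟩
  · obtain ⟨x, rfl⟩ := hG.1.1.2 x
    rw [hG.1.li]
    refine ⟨rfl, ?_⟩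
    conv_lhs => rw [norm_sub_rev, ← mk3_pj3 x]
    simp only [G, pj3_mk3, mk3_2]
    rw [ASl_hor, add_sub_cancel_left, norm_smul, Real.norm_of_nonneg hη.le]
    have h1 := (ASl_pj _).trans ((hΓ0 (pj3 x) (w (x 2))).trans
      (mul_le_mul_of_nonneg_left (hw2 _) hL0.le))
    linarith only [hr1, hη, h1, mul_nonneg_of_nonpos_of_nonpos (le_of_lt (Mathlib.Tactic.Linarith.sub_neg_of_lt hη)) (Mathlib.Tactic.Linarith.sub_nonpos_of_le h1)]
  · have key4 : ∀ s, |s - t| ≤ η → (mk3 y s ∈ invFun G '' P ↔ mk3 y t ∈ P) := fun s hs => by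
      have e : w s = (s - t) / η := by
        simp only [w]
        rw [clamp_eq_self (le_max_of_le_right (by linarith only [hs]))]
      have e2 : t + η * ((s - t) / η) = s := by
        field_simp
        ring
      rw [im, key3 P hP y hy ((s - t) / η) (by rwa [abs_div, abs_of_pos hη, div_le_one hη]), e2]
      simp only [G, pj3_mk3, mk3_2, e]
    exact fun s s' hs hs' k => (key4 s' hs').2 ((key4 s hs).1 k)
  rw [im]
  by_cases hx : x ∈ {x : Rn 3 | pj3 x ∈ interior R ∧ |x 2 - t| < ρ}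
  swap
  · rw [hfix x hx]
  have hx' : G x ∈ {x : Rn 3 | pj3 x ∈ interior R ∧ |x 2 - t| < ρ} := by
    by_contra k
    exact k (by rwa [hG.1.1.1 (hfix _ k)])
  have hw1 : |w (x 2)| ≤ 1 := by
    simp only [w]
    rw [abs_div, abs_of_pos hη, div_le_one hη]
    rcases le_total |x 2 - t| η with k | k
    · rwa [clamp_eq_self (le_max_of_le_right (by linarith only [k]))]
    · exact (abs_clamp_le (le_max_left _ _)).trans (max_le hη.le (by linarith))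
  have t0 : |t - t| < ρ := by rwa [sub_self, abs_zero]
  have t1 : |t + η * w (x 2) - t| < ρ := by
    rw [add_sub_cancel_left, abs_mul, abs_of_pos hη]
    linarith only [hηρ, hη, hr0, hr2, hw1, mul_pos_of_neg_of_neg (Mathlib.Tactic.Linarith.sub_neg_of_lt hη) (Mathlib.Tactic.Linarith.sub_neg_of_lt hr0), mul_pos_of_neg_of_neg (Mathlib.Tactic.Linarith.sub_neg_of_lt hη) (Mathlib.Tactic.Linarith.sub_neg_of_lt hr2), mul_nonneg_of_nonpos_of_nonpos (le_of_lt (Mathlib.Tactic.Linarith.sub_neg_of_lt hη)) (Mathlib.Tactic.Linarith.sub_nonpos_of_le hw1)]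
  have k := key3 P hP _ (interior_subset hx.1) _ hw1
  have h1 : pj3 x + η • pj3 (Γ (pj3 x) (w (x 2))) ∈ interior R := by
    simpa only [G, pj3_mk3] using hx'.1
  constructor
  · intro a
    rw [← mk3_pj3 x]
    exact hv _ hx.1 _ _ t0 hx.2 (k.2 (hv _ h1 _ _ hx.2 t1 a))
  · intro a
    rw [← mk3_pj3 x] at a
    exact hv _ h1 _ _ t1 hx.2 (k.1 (hv _ hx.1 _ _ hx.2 t0 a))

end BEp
end
end

-- merged part: Pool.Agent.Work.MP_f0515e_an.P3.XHpB1
section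
/-! Handle position in one column. -/

open Set Metric Filter Topology Function BEv
open scoped NNReal

noncomputable section
namespace BEp

variable {n m : ℕ}

variable {ν ι : Type} {V : Set (Rn 3)} {g C : ℝ} {Cf : (Rn 3 ≃L[ℝ] Rn 3) → ℝ} {P : ι → Pc} {T : TS}
  {c : Rn 3 → ℝ} {t : ν → Rn 3 → ℝ} {mv : ν → Rn 3 → ℝ → Rn 3} {dim : ν → ℕ} {b : ν → Rn 3}
  {μ : Type} {S : μ → Set (Rn 3)} {A : ν → Set ℝ} {ζ : ν → ℝ}

theorem XHpB1_ev (h : Api V g C Cf P T c t mv dim b) {z : Rn 3} (hz : z ∈ V) {U : ν → ℝ → Prop}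
    (hU : ∀ w, ∀ᶠ s in 𝓝 (t w z), U w s) : ∀ᶠ y in 𝓝 z, y ∈ V ∧ ∀ w, U w (t w y) := by
  obtain ⟨K, h1, h2, h3⟩ := exists_compact_subset h.opn hz
  have e1 : ∀ᶠ y in 𝓝 z, ∀ w ∈ {v | ∃ y ∈ K, 0 < t v y}, U w (t w y) :=
    (eventually_all_finite (h.lf1 K h1 h3)).2 fun w _ =>
      (((h.ltp w).contOn h.opn).continuousAt (h.opn.mem_nhds hz)).eventually (hU w)
  filter_upwards [e1, mem_interior_iff_mem_nhds.1 h2] with y k1 k2
  refine ⟨h3 k2, fun w => ?_⟩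
  by_cases hw : ∃ y ∈ K, 0 < t w y
  · exact k1 w hw
  · have z0 : ∀ x ∈ K, t w x = 0 := fun x hx =>
      le_antisymm (not_lt.1 fun k => hw ⟨x, hx, k⟩) (h.t01 w x (h3 hx)).1
    rw [z0 y k2, ← z0 z (interior_subset h2)]
    exact (hU w).self_of_nhds

theorem XHpB1_gap (hA : XLev g A ζ) {μ' : ν → ℝ} (hμ : ∀ w, μ' w ∈ A w) {σ : Set ν} {j : ν}
    {z : Rn 3} (hz : z ∈ cRg V t A ζ μ' σ j) {w : ν} (hw : w ≠ j) :
    (w ∈ σ → μ' w < t w z) ∧ (w ∉ σ → t w z < μ' w) := by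
  obtain ⟨k1, k2⟩ := hz.2 w hw
  refine ⟨k2.1, fun k => lt_of_le_of_ne (not_lt.1 (mt k2.2 k)) fun e => ?_⟩
  have := k1 _ (hμ w)
  rw [e, sub_self, abs_zero] at this
  linarith only [this, hA, hA.pos w]

theorem XHpB1_prism {R : Set (Rn 2)} (hR : Poly R) {g : ℝ} (hg : 0 ≤ g) :
    ∃ Q : Set (Rn 3), Poly Q ∧ ∀ x, x ∈ Q ↔ pj3 x ∈ R ∧ x 2 ∈ Icc g (1 - g) := by
  obtain ⟨M, hM⟩ := hR.1.isBounded.exists_norm_le
  refine ⟨_, poly_le (poly_pre (Poly.closedBall 0 (max M 1)) hR tp_pj3)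
    (D := fun x => |x 2 - 1 / 2| - (1 / 2 - g))
    (((TP.id'.apply 2).sub (TP.const _)).abs.sub (TP.const _)), fun x => ?_⟩
  simp only [mem_ofPred_eq, sub_nonpos, abs_le, mem_Icc]
  refine ⟨fun k => ⟨k.1.2, by linarith only [k, k.2.1], by linarith only [k, k.2.2]⟩,
    fun k => ⟨⟨?_, k.1⟩, by linarith only [k, k.2.1], by linarith only [k, k.2.2]⟩⟩
  rw [mem_closedBall_zero_iff, ← mk3_pj3 x, norm_mk3]
  exact max_le_max (hM _ k.1) (abs_le.2 ⟨by linarith [k.2.1], by linarith [k.2.2]⟩)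

/-- The chart of a column. -/
theorem XHpB1_chart (h : Api V g C Cf P T c t mv dim b) (σ : Set ν) (j : ν) {y : Rn 3}
    (hy : y ∈ V) (h1 : t j y ∈ Icc (g / 8) (1 - g / 8)) (h2 : Ptn t σ {j} (3 / 4) y) :
    ∃ (χ : Rn 3 → Rn 3) (R : Set (Rn 2)) (Q : Set (Rn 3)), LH χ ∧ IsCompact R ∧ Poly Q ∧
      (∀ x, x ∈ Q ↔ pj3 x ∈ R ∧ x 2 ∈ Icc (g / 8) (1 - g / 8)) ∧
      (∀ x ∈ Q, χ x ∈ V ∧ t j (χ x) = x 2) ∧
      (∀ x ∈ Q, ∀ x' ∈ Q, pj3 x' = pj3 x →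
        (∀ v, v ≠ j → t v (χ x') = t v (χ x)) ∧ mv j (χ x) (x' 2) = χ x') ∧
      ∀ x, χ x ∈ V → t j (χ x) ∈ Icc (g / 8) (1 - g / 8) → Ptn t σ {j} (3 / 4) (χ x) → x ∈ Q := by
  have g0 := h.g0.1
  obtain ⟨χ, R, hχ, hR, c1, c2⟩ := h.clm σ j y hy h1 h2
  obtain ⟨Q, hQ, mQ⟩ := XHpB1_prism hR (g := g / 8) (by linarith)
  have q1 : ∀ x ∈ Q, χ x ∈ V ∧ t j (χ x) = x 2 := fun x hx => by
    have k := c1 _ ((mQ x).1 hx).1 _ ((mQ x).1 hx).2
    rw [mk3_pj3] at k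
    exact ⟨k.1, k.2.1⟩
  refine ⟨χ, R, Q, hχ, hR.1, hQ, mQ, q1, fun x hx x' hx' e => ?_, fun x k1 k2 k3 => ?_⟩
  · have k := (c1 _ ((mQ x).1 hx).1 _ ((mQ x).1 hx).2).2.2.2 _ ((mQ x').1 hx').2
    rw [mk3_pj3, ← e, mk3_pj3] at k
    have i1 := ((mQ x).1 hx).2
    have i2 := ((mQ x').1 hx').2
    obtain ⟨m1, m2, m3⟩ := h.mvt j (χ x) (q1 x hx).1 (x' 2)
      (by rw [(q1 x hx).2]; exact ⟨by linarith [i1.1], by linarith [i1.2]⟩)
      ⟨by linarith [i2.1], by linarith [i2.2]⟩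
    refine ⟨k, h.ext _ m1 _ (q1 x' hx').1 fun v => ?_⟩
    by_cases hv : v = j
    · rw [hv, m2, (q1 x' hx').2]
    · rw [m3 v hv, k v hv]
  · obtain ⟨u, hu, e⟩ := c2 _ k1 k2 k3
    rw [← hχ.inj e, mQ, pj3_mk3, mk3_2]
    exact ⟨hu, k2⟩

theorem Api.hpB_col (h : Api V g C Cf P T c t mv dim b) (hS : SFm V S) (hA : XLev g A ζ)
    (hD : ∀ i, DZ t mv A ζ (S i)) {μ' : ν → ℝ} (hμ : ∀ w, μ' w ∈ A w ∧ μ' w ∈ Icc (1 / 4 : ℝ) (3 / 4))
    (σ : Set ν) (j : ν) : ∃ T' : Set ℝ, T'.Finite ∧ ∀ a ∈ A j, ∀ a', |a' - a| ≤ ζ j / 4 → a' ∉ T' →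
      ∀ ρ > 0, ∃ δ > 0, ∃ Φ, Mv {y | y ∈ cRg V t A ζ μ' σ j ∧ |t j y - a'| < ρ} Φ ∧
        (∀ y ∈ V, t j (Φ y) = t j y ∧ XEq t y (Φ y) ∧ ∀ v, |t v (Φ y) - t v y| ≤ ρ) ∧
        ∀ i, ∀ z ∈ Φ '' S i, z ∈ cRg V t A ζ μ' σ j → |t j z - a'| ≤ δ →
          ∀ s, |s - a'| ≤ δ → mv j z s ∈ Φ '' S i := by
  have g0 := h.g0.1
  have ζ0 := hA.pos j
  have lev : ∀ a ∈ A j, ∀ a', |a' - a| ≤ ζ j / 4 → ∀ s, |s - a'| ≤ ζ j / 4 →
      g / 8 < s ∧ s < 1 - g / 8 := fun a ha a' k1 s k2 => by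
    obtain ⟨l1, l2⟩ := hA.inn j a ha
    obtain ⟨l3, l4⟩ := abs_le.1 k1
    obtain ⟨l5, l6⟩ := abs_le.1 k2
    constructor <;> linarith only [g0, ζ0, l1, l3, l5, l2, l4, l6]
  have lev' : ∀ a ∈ A j, ∀ a', |a' - a| ≤ ζ j / 4 → ∀ s, |s - a'| ≤ ζ j / 4 →
      s ∈ Icc (g / 8) (1 - g / 8) := fun a ha a' k1 s k2 =>
    ⟨(lev a ha a' k1 s k2).1.le, (lev a ha a' k1 s k2).2.le⟩
  have gap : ∀ z ∈ cRg V t A ζ μ' σ j, ∀ w, w ≠ j →
      (w ∈ σ → μ' w < t w z) ∧ (w ∉ σ → t w z < μ' w) := fun z hz w hw =>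
    XHpB1_gap hA (fun w => (hμ w).1) hz hw
  have pt : ∀ z ∈ cRg V t A ζ μ' σ j, Ptn t σ {j} (3 / 4) z := fun z hz w hw =>
    ⟨fun k => by linarith only [gap, hz, hw, k, hμ, (gap z hz w hw).1 k, (hμ w).2.1],
      fun k => by linarith only [gap, hz, hw, k, hμ, (gap z hz w hw).2 k, (hμ w).2.2]⟩
  have inv : ∀ z ∈ cRg V t A ζ μ' σ j, ∀ z' ∈ V, (∀ w, w ≠ j → t w z' = t w z) →
      z' ∈ cRg V t A ζ μ' σ j := fun z hz z' hz' e =>
    ⟨hz', fun w hw => by rw [e w hw]; exact hz.2 w hw⟩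
  by_cases h0 : ∃ y ∈ cRg V t A ζ μ' σ j, t j y ∈ Icc (g / 8) (1 - g / 8)
  swap
  · exact ⟨∅, finite_empty, fun a ha a' h1 _ ρ hρ => ⟨ζ j / 4, by positivity, id, Mv.id' _,
      fun y _ => ⟨rfl, fun v => Iff.rfl, fun v => by simpa using hρ.le⟩,
      fun i z _ hz h2 => absurd ⟨z, hz, lev' a ha a' h1 _ h2⟩ h0⟩⟩
  obtain ⟨y0, hy0, hy1⟩ := h0
  obtain ⟨χ, R, Q, hχ, hR, hQ, mQ, q1, q2, q3⟩ := XHpB1_chart h σ j hy0.1 hy1 (pt y0 hy0)
  have cχ := hχ.tp.continuous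
  have hK : IsCompact (χ '' Q) := hQ.1.image cχ
  have KV : χ '' Q ⊆ V := by
    rintro _ ⟨x, hx, rfl⟩
    exact (q1 x hx).1
  have cont : ∀ v, ContinuousOn (fun x => t v (χ x)) Q := fun v =>
    ((h.ltp v).contOn h.opn).comp cχ.continuousOn fun x hx => (q1 x hx).1
  have hW := h.lf1 _ hK KV
  obtain ⟨𝒬, fQ, pQ, sQ, zQ, cQ⟩ : ∃ 𝒬 : Set (Set (Rn 3)), 𝒬.Finite ∧ (∀ Z ∈ 𝒬, Poly Z) ∧
      (∀ i, (S i ∩ χ '' Q).Nonempty → {x | x ∈ Q ∧ χ x ∈ S i} ∈ 𝒬) ∧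
      (∀ w, w ≠ j → (∃ y ∈ χ '' Q, 0 < t w y) → {x | x ∈ Q ∧ t w (χ x) = 0} ∈ 𝒬) ∧
      ∀ Z ∈ 𝒬, (∃ i, Z = {x | x ∈ Q ∧ χ x ∈ S i}) ∨
        ∃ w, w ≠ j ∧ Z = {x | x ∈ Q ∧ t w (χ x) = 0} := by
    refine ⟨(fun i => {x | x ∈ Q ∧ χ x ∈ S i}) '' {i | (S i ∩ χ '' Q).Nonempty} ∪
      (fun w => {x | x ∈ Q ∧ t w (χ x) = 0}) '' ({v | ∃ y ∈ χ '' Q, 0 < t v y} \ {j}),
      ((hS.lf _ hK KV).image _).union (hW.sdiff.image _), ?_, fun i hi => .inl ⟨i, hi, rfl⟩,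
      fun w h1 h2 => .inr ⟨w, ⟨h2, h1⟩, rfl⟩, ?_⟩
    · rintro _ (⟨i, -, rfl⟩ | ⟨w, -, rfl⟩)
      · exact poly_pre hQ (hS.poly i).1 hχ.tp
      · obtain ⟨u, hu, e⟩ := h.ltp w _ hK KV
        have k := poly_eq hQ (hu.comp hχ.tp) 0
        have e' : {x | x ∈ Q ∧ t w (χ x) = 0} = {x | x ∈ Q ∧ u (χ x) = 0} :=
          Set.ext fun x => and_congr_right fun hx => by rw [e (mem_image_of_mem χ hx)]
        beta_reduce
        rw [e']
        exact k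
    · rintro _ (⟨i, -, rfl⟩ | ⟨w, hw, rfl⟩)
      exacts [.inl ⟨i, rfl⟩, .inr ⟨w, hw.2, rfl⟩]
  obtain ⟨T', hT, hT'⟩ := hw1 fQ pQ
  refine ⟨T', hT, fun a ha a' h1 h2 ρ hρ => ?_⟩
  have l0 := lev a ha a' h1 a' (by rw [sub_self, abs_zero]; positivity)
  have mR : ∀ u ∈ R, mk3 u a' ∈ Q := fun u hu => (mQ _).2 ⟨by rwa [pj3_mk3], l0.1.le, l0.2.le⟩
  have cl := (tp_lay a').continuous
  obtain ⟨R', mR'⟩ : ∃ R' : Set (Rn 2), ∀ u, u ∈ R' ↔
      u ∈ R ∧ χ (mk3 u a') ∈ cRg V t A ζ μ' σ j := ⟨{u | _}, fun _ => Iff.rfl⟩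
  have sR : R' ⊆ R := fun u hu => ((mR' u).1 hu).1
  have hcl : IsClosed R' := by
    refine isClosed_of_closure_subset fun u hu => ?_
    have uR := closure_minimal sR hR.isClosed hu
    refine (mR' u).2 ⟨uR, (q1 _ (mR u uR)).1, fun w hw => ?_⟩
    have cw : ContinuousWithinAt (fun u => t w (χ (mk3 u a'))) R' u :=
      (((cont w).comp cl.continuousOn mR) u uR).mono sR
    have k1 : ∀ a ∈ A w, ζ w / 2 ≤ |t w (χ (mk3 u a')) - a| := fun a ha =>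
      ContinuousWithinAt.closure_le hu continuousWithinAt_const
        (cw.sub continuousWithinAt_const).abs fun y hy => (((mR' y).1 hy).2.2 w hw).1 a ha
    refine ⟨k1, fun k => lt_of_le_of_ne (ContinuousWithinAt.closure_le hu continuousWithinAt_const
      cw fun y hy => ((gap _ ((mR' y).1 hy).2 w hw).1 k).le) fun e => ?_, fun k => ?_⟩
    · have := k1 _ (hμ w).1
      rw [← e, sub_self, abs_zero] at this
      linarith only [this, hA, hA.pos w]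
    · by_contra k'
      exact absurd (ContinuousWithinAt.closure_le hu cw continuousWithinAt_const
        fun y hy => ((gap _ ((mR' y).1 hy).2 w hw).2 k').le) (not_le.2 k)
  have near : ∀ y ∈ R', ∀ᶠ x in 𝓝 (mk3 y a'), x ∈ Q := fun y hy => by
    obtain ⟨y1, y2⟩ := (mR' y).1 hy
    have e := XHpB1_ev h y2.1 (U := fun w s => (w = j → s ∈ Icc (g / 8) (1 - g / 8)) ∧
        (w ≠ j → (w ∈ σ → 1 - 3 / 4 ≤ s) ∧ (w ∉ σ → s ≤ 3 / 4))) fun w => by
      by_cases hw : w = j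
      · rw [hw, (q1 _ (mR y y1)).2, mk3_2]
        filter_upwards [Icc_mem_nhds l0.1 l0.2] with s hs
        exact ⟨fun _ => hs, fun k => absurd rfl k⟩
      by_cases hσ : w ∈ σ
      · filter_upwards [Ioi_mem_nhds ((gap _ y2 w hw).1 hσ)] with s hs
        exact ⟨fun k => absurd k hw, fun _ => ⟨fun _ => by linarith only [hμ, hs, (hμ w).2.1, mem_Ioi.1 hs],
          fun k => absurd hσ k⟩⟩
      · filter_upwards [Iio_mem_nhds ((gap _ y2 w hw).2 hσ)] with s hs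
        exact ⟨fun k => absurd k hw, fun _ => ⟨fun k => absurd k hσ,
          fun _ => by linarith only [hμ, hs, (hμ w).2.2, mem_Iio.1 hs]⟩⟩
    filter_upwards [cχ.continuousAt.eventually e] with x hx
    exact q3 x hx.1 ((hx.2 j).1 rfl) fun w hw => (hx.2 w).2 hw
  have hb : ∀ y ∈ frontier R', ∃ r > 0, ∀ Z ∈ 𝒬, Iv Z (ball (mk3 y a') r) ![0, 0, 1] := by
    intro y hy
    have yR := hcl.frontier_subset hy
    obtain ⟨y1, y2⟩ := (mR' y).1 yR
    by_cases st : ∀ w, w ≠ j → ∀ a ∈ A w, ζ w / 2 < |t w (χ (mk3 y a')) - a|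
    · refine absurd (mem_interior_iff_mem_nhds.2 ?_) hy.2
      have e := XHpB1_ev h y2.1 (U := fun w s => w ≠ j →
          (∀ a ∈ A w, ζ w / 2 ≤ |s - a|) ∧ (w ∈ σ ↔ μ' w < s)) fun w => by
        by_cases hw : w = j
        · exact .of_forall fun s k => absurd hw k
        have e1 : ∀ᶠ s in 𝓝 (t w (χ (mk3 y a'))), ∀ a ∈ A w, ζ w / 2 < |s - a| :=
          (eventually_all_finite (hA.fin w)).2 fun a ha =>
            ContinuousAt.eventually_lt continuousAt_const (by fun_prop) (st w hw a ha)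
        by_cases hσ : w ∈ σ
        · filter_upwards [e1, Ioi_mem_nhds ((gap _ y2 w hw).1 hσ)] with s k1 k2 _
          exact ⟨fun a ha => (k1 a ha).le, iff_of_true hσ k2⟩
        · filter_upwards [e1, Iio_mem_nhds ((gap _ y2 w hw).2 hσ)] with s k1 k2 _
          exact ⟨fun a ha => (k1 a ha).le, iff_of_false hσ (not_lt.2 (le_of_lt k2))⟩
      filter_upwards [cl.continuousAt.eventually ((cχ.continuousAt.eventually e).and (near y yR))]
        with u hu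
      exact (mR' u).2 ⟨by simpa using ((mQ _).1 hu.2).1, hu.1⟩
    · push Not at st
      obtain ⟨k, hk, a'', ha'', st⟩ := st
      have e := XHpB1_ev h y2.1 (U := fun w s => w = k → |s - a''| < ζ k) fun w => by
        by_cases hw : w = k
        · rw [hw]
          have e1 : ∀ᶠ s in 𝓝 (t k (χ (mk3 y a'))), |s - a''| < ζ k :=
            ContinuousAt.eventually_lt (by fun_prop) continuousAt_const
              (by linarith only [st, hA, hA.pos k])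
          exact e1.mono fun s hs _ => hs
        · exact .of_forall fun s k => absurd k hw
      have e2 : ∀ᶠ x : Rn 3 in 𝓝 (mk3 y a'), |x 2 - a| < ζ j :=
        ContinuousAt.eventually_lt ((continuous_apply 2).sub continuous_const).abs.continuousAt
          continuousAt_const (by rw [mk3_2]; linarith only [ζ0, h1])
      obtain ⟨r, hr, hb⟩ := Metric.eventually_nhds_iff_ball.1
        (((cχ.continuousAt.eventually e).and (near y yR)).and e2)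
      refine ⟨r, hr, fun Z hZ x hx s hx' hxZ => ?_⟩
      obtain ⟨⟨b1, b2⟩, b3⟩ := hb x hx
      obtain ⟨⟨-, b4⟩, b5⟩ := hb _ hx'
      have e3 : pj3 (x + s • ![0, 0, 1]) = pj3 x := by
        rw [pj3_add, pj3_smul, show pj3 ![0, 0, 1] = 0 from funext (Fin.forall_fin_two.2 ⟨rfl, rfl⟩),
          smul_zero, add_zero]
      obtain ⟨d1, d2⟩ := q2 x b2 _ b4 e3
      rcases cQ Z hZ with ⟨i, rfl⟩ | ⟨w, hw, rfl⟩
      · refine ⟨b4, ?_⟩
        rw [← d2]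
        exact hD i _ hxZ.2 j k (Ne.symm hk) a ha a'' ha'' (by rw [(q1 x b2).2]; exact b3.le)
          (b1.2 k rfl).le _ b5.le
      · exact ⟨b4, (d1 w hw).trans hxZ.2⟩
  obtain ⟨ρ₁, ⟨r1, r2⟩, r0, r3⟩ : ∃ ρ₁ : ℝ, (ρ₁ ≤ ρ ∧ ρ₁ ≤ ζ j / 4) ∧ 0 < ρ₁ ∧
      ∀ v ∈ {v | ∃ y ∈ χ '' Q, 0 < t v y}, ∀ x ∈ Q, ∀ x' ∈ Q, dist x x' ≤ ρ₁ →
        dist (t v (χ x)) (t v (χ x')) ≤ ρ := by
    have e1 : ∀ᶠ ρ₁ in 𝓝[>] (0 : ℝ), ∀ v ∈ {v | ∃ y ∈ χ '' Q, 0 < t v y}, ∀ x ∈ Q, ∀ x' ∈ Q,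
        dist x x' ≤ ρ₁ → dist (t v (χ x)) (t v (χ x')) ≤ ρ :=
      (eventually_all_finite hW).2 fun v _ => by
        obtain ⟨δ, hδ, k⟩ := Metric.uniformContinuousOn_iff_le.1
          (hQ.1.uniformContinuousOn_of_continuous (cont v)) ρ hρ
        filter_upwards [Ioc_mem_nhdsGT hδ] with r hr x hx x' hx' d
        exact k x hx x' hx' (d.trans hr.2)
    obtain ⟨r, k1, k2⟩ := (e1.and (Ioc_mem_nhdsGT
      (lt_min hρ (by positivity : 0 < ζ j / 4)))).exists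
    exact ⟨r, le_min_iff.1 k2.2, k2.1, k1⟩
  obtain ⟨δ, hδ, Φ, m1, m2, m3, m4⟩ := hw3 (𝒬 := 𝒬) (hR.of_isClosed_subset hcl sR) (t := a') r0
    (fun y _ => hT' _ h2) hb
  have w1 : ∀ x : Rn 3, pj3 x ∈ interior R' → |x 2 - a'| < ρ₁ →
      x ∈ Q ∧ χ x ∈ cRg V t A ζ μ' σ j := fun x k1 k2 => by
    obtain ⟨k3, k4⟩ := (mR' _).1 (interior_subset k1)
    have k5 : x ∈ Q := (mQ x).2 ⟨k3, lev' a ha a' h1 _ (k2.le.trans r2)⟩
    exact ⟨k5, inv _ k4 _ (q1 x k5).1 (q2 _ (mR _ k3) x k5 (pj3_mk3 _ _).symm).1⟩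
  refine ⟨min δ (ζ j / 4), lt_min hδ (by positivity), χ ∘ Φ ∘ invFun χ, (m1.conj hχ).mono ?_,
    fun y hy => ?_, fun i z hz k1 k2 s k3 => ?_⟩
  · rintro _ ⟨x, hx, rfl⟩
    obtain ⟨k1, k2⟩ := w1 x hx.1 hx.2
    exact ⟨k2, by rw [(q1 x k1).2]; exact hx.2.trans_le r1⟩
  · obtain ⟨x, rfl⟩ := hχ.1.2 y
    rw [comp_apply, comp_apply, hχ.li]
    by_cases hx : pj3 x ∈ interior R' ∧ |x 2 - a'| < ρ₁
    swap
    · rw [m1.2 x hx]
      exact ⟨rfl, fun v => Iff.rfl, fun v => by simpa using hρ.le⟩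
    have hx' := (m1.image_eq Subset.rfl).subset (mem_image_of_mem Φ hx)
    have x1 := (w1 x hx.1 hx.2).1
    have x2 := (w1 _ hx'.1 hx'.2).1
    have ej : t j (χ (Φ x)) = t j (χ x) := by rw [(q1 _ x1).2, (q1 _ x2).2, (m2 x).1]
    refine ⟨ej, fun v => ?_, fun v => ?_⟩
    · by_cases hv : v = j
      · rw [hv, ej]
      by_cases hv' : ∃ y ∈ χ '' Q, 0 < t v y
      swap
      · exact iff_of_false (fun k => hv' ⟨_, ⟨_, x1, rfl⟩, k⟩) fun k => hv' ⟨_, ⟨_, x2, rfl⟩, k⟩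
      have hZ := m4 _ (zQ v hv hv') fun y hy s s' _ k2 k3 => by
        have k4 := (w1 (mk3 y s') (by rwa [pj3_mk3]) k2).1
        exact ⟨k4, ((q2 _ k3.1 _ k4 (by rw [pj3_mk3, pj3_mk3])).1 v hv).trans k3.2⟩
      rw [(h.t01 v _ hy).1.lt_iff_ne', (h.t01 v _ (q1 _ x2).1).1.lt_iff_ne']
      refine not_congr ⟨fun k => (hZ.subset (mem_image_of_mem Φ ⟨x1, k⟩)).2, fun k => ?_⟩
      obtain ⟨x', k1, k2⟩ := hZ.symm.subset (show Φ x ∈ _ from ⟨x2, k⟩)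
      exact m1.1.inj k2 ▸ k1.2
    · by_cases hv' : ∃ y ∈ χ '' Q, 0 < t v y
      · exact r3 v hv' _ x2 _ x1 (by rw [dist_eq_norm]; exact (m2 x).2)
      · have z0 : ∀ x ∈ Q, t v (χ x) = 0 := fun x hx => le_antisymm
          (not_lt.1 fun k => hv' ⟨_, ⟨_, hx, rfl⟩, k⟩) (h.t01 v _ (q1 x hx).1).1
        rw [z0 _ x1, z0 _ x2, sub_self, abs_zero]
        exact hρ.le
  · obtain ⟨y, hy, rfl⟩ := hz
    obtain ⟨x, rfl⟩ := hχ.1.2 y
    rw [comp_apply, comp_apply, hχ.li] at k1 k2 ⊢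
    obtain ⟨k4, k5⟩ := le_min_iff.1 k2
    obtain ⟨k6, k7⟩ := le_min_iff.1 k3
    have x2 : Φ x ∈ Q := q3 _ k1.1 (lev' a ha a' h1 _ k5) (pt _ k1)
    have x1 : x ∈ Q := by
      by_cases hx : pj3 x ∈ interior R' ∧ |x 2 - a'| < ρ₁
      · exact (w1 x hx.1 hx.2).1
      · rwa [m1.2 x hx] at x2
    have u1 := ((mQ _).1 x2).1
    have u2 : pj3 (Φ x) ∈ R' := (mR' _).2 ⟨u1, inv _ k1 _ (q1 _ (mR _ u1)).1
      (q2 _ x2 _ (mR _ u1) (pj3_mk3 _ _)).1⟩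
    have u3 : mk3 (pj3 (Φ x)) s ∈ Q := (mQ _).2 ⟨by rwa [pj3_mk3], lev' a ha a' h1 s k7⟩
    rw [(q1 _ x2).2] at k4
    obtain ⟨x', k8, k9⟩ := m3 _ (sQ i ⟨_, hy, x, x1, rfl⟩) _ u2 _ s k4 k6
      (by rw [mk3_pj3]; exact ⟨x, ⟨x1, hy⟩, rfl⟩)
    refine ⟨χ x', k8.2, ?_⟩
    rw [comp_apply, comp_apply, hχ.li, k9]
    exact (q2 _ x2 _ u3 (pj3_mk3 _ _)).2.symm

end BEp
end
end

-- merged part: Pool.Agent.Work.MP_f0515e_an.P3.XHpB
section
/-! Handle position in the walls.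
`hpB_col`: if `cRg` has no point with `t j ∈ [g / 8, 1 - g / 8]` take the identity. Otherwise the chart `χ`, `R` of `Api.clm` (points of `cRg` have the pattern `3 / 4` with a margin). The family: preimages of the finitely many `S i` meeting the compact image of the prism over `R`, and the zero sets of the finitely many `t w ∘ χ`, `w ≠ j`, in the prism (`poly_eq`); `hw1`; `hw3` for `R' = {u ∈ R | χ (mk3 u a') ∈ cRg}`.
A point `u ∈ R'` has a neighbourhood in `R` (points near `χ (mk3 u a')` have the pattern, `lf1`; last clause of `clm`, `χ` is injective); if all inequalities are strict it is interior to `R'`; otherwise it lies in a double zone, where `DZ` gives vertical invariance.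
`hpB`: choose `α j a` off `Bad j` and off the sets `T` of the finitely many `σ` with nonempty region; radius `min (g / 128) (ζ j / 8)`; the supports are disjoint; `gm_glue`; `2 * e j` is below all `δ` and radii. For a point of a new wall either it is in some `cRg σ j` (`σ = {w | μ w < t w z}`), or `|t w z - a| < ζ w / 2` for some `w ≠ j`: then its fibre misses all supports and `DZ` applies. About 500 lines; two tasks. -/

open Set Metric Filter Topology Function BEv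
open scoped NNReal

noncomputable section
namespace BEp

variable {n m : ℕ}

variable {ν ι : Type} {V : Set (Rn 3)} {g C : ℝ} {Cf : (Rn 3 ≃L[ℝ] Rn 3) → ℝ} {P : ι → Pc} {T : TS}
  {c : Rn 3 → ℝ} {t : ν → Rn 3 → ℝ} {mv : ν → Rn 3 → ℝ → Rn 3} {dim : ν → ℕ} {b : ν → Rn 3}
  {μ : Type} {S : μ → Set (Rn 3)} {A : ν → Set ℝ} {ζ : ν → ℝ}

theorem XHpB_lb {κ : Type} {I : Set κ} (hI : I.Finite) (d : κ → ℝ) (hd : ∀ i ∈ I, 0 < d i) {r : ℝ}
    (hr : 0 < r) : ∃ e > 0, 2 * e < r ∧ ∀ i ∈ I, 2 * e ≤ d i := by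
  have h1 : ∀ᶠ e in 𝓝[>] (0 : ℝ), ∀ i ∈ I, 2 * e ≤ d i :=
    (eventually_all_finite hI).2 fun i hi => by
      filter_upwards [Ioo_mem_nhdsGT (half_pos (hd i hi))] with e he
      linarith only [he, he.2]
  obtain ⟨e, he, h2⟩ := (h1.and (Ioo_mem_nhdsGT (half_pos hr))).exists
  exact ⟨e, h2.1, by linarith only [h2, h2.2], he⟩

theorem XHpB_off {B : Set ℝ} (hB : B.Finite) (p : ℝ) {r : ℝ} (hr : 0 < r) :
    ∃ x, |x - p| ≤ r ∧ x ∉ B := by
  obtain ⟨x, h1, h2⟩ := (Icc_infinite (show p - r < p + r by linarith)).exists_notMem_finite hB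
  exact ⟨x, abs_le.2 ⟨by linarith [h1.1], by linarith [h1.2]⟩, h2⟩

theorem Api.hpB (h : Api V g C Cf P T c t mv dim b) (hS : SFm V S) (hA : XLev g A ζ)
    (hD : ∀ i, DZ t mv A ζ (S i)) (hμ : ∀ w, ∃ x ∈ A w, x ∈ Icc (1 / 4 : ℝ) (3 / 4))
    {Bad : ν → Set ℝ} (hb : ∀ v, (Bad v).Finite) :
    ∃ (α : ν → ℝ → ℝ) (e : ν → ℝ) (Φ : Rn 3 → Rn 3), (∀ v p, |α v p - p| ≤ ζ v / 8) ∧
      (∀ v, ∀ p ∈ A v, α v p ∉ Bad v) ∧ (∀ v, 0 < e v ∧ 2 * e v ≤ ζ v / 8) ∧ GM V Φ ∧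
      (∀ y ∈ V, XEq t y (Φ y) ∧ ∀ v, |t v (Φ y) - t v y| ≤ g / 128 ∧
        ((∃ p ∈ A v, |t v (Φ y) - p| < ζ v / 2) → t v (Φ y) = t v y)) ∧
      ∀ i ω, Iw (gN V t (fun v => α v '' A v) (fun v => 2 * e v) ω) (gf mv (fun v => 2 * e v) ω)
        (Φ '' S i) := by
  classical
  choose μ' m1 m2 using hμ
  choose T' t1 t2 using h.hpB_col hS hA hD fun w => ⟨m1 w, m2 w⟩
  choose K k1 k2 k3 using h.lf2
  have g0 := h.g0.1
  have z0 := hA.pos
  let Sg : ν → Set (Set ν) := fun j => {σ | j ∉ σ ∧ σ ⊆ {v | ∃ y ∈ K j, 0 < t v y}}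
  have fS : ∀ j, (Sg j).Finite := fun j =>
    (h.lf1 _ (k1 j) (k2 j)).finite_subsets.subset fun σ hσ => hσ.2
  choose α a1 a2 using fun j p => XHpB_off ((hb j).union ((fS j).biUnion fun σ _ => t1 σ j)) p
    (show 0 < ζ j / 8 by linarith only [z0, z0 j])
  let ρ : ν → ℝ := fun j => min (g / 128) (ζ j / 8)
  have r0 : ∀ j, 0 < ρ j := fun j => lt_min (by linarith) (by linarith [z0 j])
  have r1 : ∀ j, ρ j ≤ g / 128 := fun j => min_le_left _ _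
  have r2 : ∀ j, ρ j ≤ ζ j / 8 := fun j => min_le_right _ _
  let κ : Type := {q : ν × ℝ × Set ν // q.2.1 ∈ A q.1 ∧ q.2.2 ∈ Sg q.1}
  choose δ d0 Θ d1 d2 d3 using fun q : κ => t2 q.1.2.2 q.1.1 q.1.2.1 q.2.1 (α q.1.1 q.1.2.1)
    ((a1 _ _).trans (by linarith [z0 q.1.1]))
    (fun e => a2 _ _ (Or.inr (mem_biUnion q.2.2 e))) (ρ q.1.1) (r0 _)
  let W : κ → Set (Rn 3) := fun q =>
    {y | y ∈ cRg V t A ζ μ' q.1.2.2 q.1.1 ∧ |t q.1.1 y - α q.1.1 q.1.2.1| < ρ q.1.1}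
  have near : ∀ (q : κ), ∀ y ∈ W q, |t q.1.1 y - q.1.2.1| < ζ q.1.1 / 4 := fun q y hy => by
    have b1 := abs_lt.1 hy.2
    have b2 := abs_le.1 (a1 q.1.1 q.1.2.1)
    have b3 := r2 q.1.1
    exact abs_lt.2 ⟨by linarith only [b1, b2, b3, b1.1, b2.1], by linarith only [b1, b2, b3, b1.2, b2.2]⟩
  have out : ∀ y j w, j ≠ w → ∀ a ∈ A j, ∀ p ∈ A w, |t j y - a| < ζ j / 2 →
      |t w y - p| < ζ w / 2 → ∀ q, y ∉ W q := fun y j w hjw a ha p hp e1 e2 q hq => by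
    by_cases e : j = q.1.1
    · exact ((hq.1.2 w fun e' => hjw (e.trans e'.symm)).1 p hp).not_gt e2
    · exact ((hq.1.2 j e).1 a ha).not_gt e1
  have dis : ∀ q q' : κ, q ≠ q' → Disjoint (W q) (W q') := by
    rintro ⟨⟨j, a, σ⟩, ha, hσ⟩ ⟨⟨j', a', σ'⟩, ha', hσ'⟩ hne
    refine disjoint_left.2 fun y hy hy' => hne ?_
    have n1 := near _ y hy
    have n2 := near _ y hy'
    dsimp only at n1 n2 ha ha' hσ hσ'
    obtain rfl : j = j' := by_contra fun e => by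
      have := (hy'.1.2 j e).1 a ha
      linarith only [n1, this, z0, z0 j]
    have b1 := abs_lt.1 n1
    have b2 := abs_lt.1 n2
    obtain rfl : a = a' := by
      rcases lt_trichotomy a a' with e | e | e
      · linarith only [b1, b2, e, hA, ha, ha', hA.dis j a ha a' ha' e, z0 j, b1.1, b1.2, b2.1, b2.2]
      · exact e
      · linarith only [e, b1, b2, hA, ha', ha, hA.dis j a' ha' a ha e, z0 j, b1.1, b1.2, b2.1, b2.2]
    obtain rfl : σ = σ' := by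
      ext w
      by_cases e : w = j
      · rw [e]
        exact iff_of_false hσ.1 hσ'.1
      · exact (hy.1.2 w e).2.trans (hy'.1.2 w e).2.symm
    rfl
  have fin1 : ∀ j, {q : κ | q.1.1 = j}.Finite := fun j => by
    refine Finite.preimage (s := {j} ×ˢ (A j ×ˢ Sg j)) Subtype.val_injective.injOn
      ((finite_singleton j).prod ((hA.fin j).prod (fS j))) |>.subset ?_
    rintro ⟨⟨j', a, σ⟩, ha, hσ⟩ (rfl : j' = j)
    exact ⟨rfl, ha, hσ⟩
  have lf : ∀ Z, IsCompact Z → Z ⊆ V → {q | (W q ∩ Z).Nonempty}.Finite := fun Z hZ hs => by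
    refine ((h.lf1 Z hZ hs).biUnion fun j _ => fin1 j).subset ?_
    rintro q ⟨y, hy, hz⟩
    refine mem_biUnion (x := q.1.1) ⟨y, hz, ?_⟩ rfl
    linarith only [g0, near, hy, hA, z0, (abs_lt.1 (near q y hy)).1, (hA.inn _ _ q.2.1).1, z0 q.1.1]
  obtain ⟨Ψ, p1, p2, p3⟩ := gm_glue (V := V) (W := W) d1 (fun q y hy => hy.1.1) dis lf
  have w1 : ∀ q, ∀ y ∈ W q, Θ q y ∈ W q := fun q y hy =>
    ((d1 q).image_eq (W' := W q) Subset.rfl).subset (mem_image_of_mem _ hy)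
  have w2 : ∀ q y, Θ q y ∈ W q → y ∈ W q := fun q y hy => by_contra fun e => by
    rw [(d1 q).2 y e] at hy
    exact e hy
  have w3 : ∀ q y, Ψ y ∈ W q → y ∈ W q := fun q y hy => by
    by_cases e : ∃ q', y ∈ W q'
    · obtain ⟨q', e⟩ := e
      rw [p2 q' e] at hy
      obtain rfl : q = q' := by_contra fun e' => disjoint_left.1 (dis _ _ e') hy (w1 q' y e)
      exact e
    · rwa [p3 y (not_exists.1 e)] at hy
  choose e e0 e1 e2 using fun j => XHpB_lb (fin1 j) δ (fun q _ => d0 q) (r0 j)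
  refine ⟨α, e, Ψ, a1, fun v p _ k => a2 v p (Or.inl k), fun v => ⟨e0 v, (e1 v).le.trans (r2 v)⟩,
    p1, fun y hy => ?_, ?_⟩
  · by_cases k : ∃ q, y ∈ W q
    · obtain ⟨q, k⟩ := k
      obtain ⟨b1, b2, b3⟩ := d2 q y hy
      rw [p2 q k]
      refine ⟨b2, fun v => ⟨(b3 v).trans (r1 _), fun ⟨p, hp, l⟩ => ?_⟩⟩
      by_cases e' : v = q.1.1
      · rw [e']
        exact b1
      · exact absurd l (((w1 q y k).1.2 v e').1 p hp).not_gt
    · rw [p3 y (not_exists.1 k)]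
      exact ⟨fun _ => Iff.rfl, fun v => ⟨by rw [sub_self, abs_zero]; linarith only [g0], fun _ => rfl⟩⟩
  · rintro i ⟨j, x⟩ _ ⟨y, hy, rfl⟩ ⟨hV, ⟨a, ha, hx⟩, hz⟩ s hs
    dsimp only at ha hz hx
    subst hx
    show mv j (Ψ y) (α j a + 2 * e j * s) ∈ Ψ '' S i
    have hs' : |α j a + 2 * e j * s - α j a| ≤ 2 * e j := by
      rw [add_sub_cancel_left, abs_mul, abs_of_pos (by linarith [e0 j])]
      exact mul_le_of_le_one_right (by linarith [e0 j]) (abs_le.2 hs)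
    generalize α j a + 2 * e j * s = s' at hs' ⊢
    have b1 := abs_le.1 hz
    have b2 := abs_le.1 hs'
    have b3 := abs_le.1 (a1 j a)
    have b4 := e1 j
    have b5 := r2 j
    have b6 := hA.inn j a ha
    have b7 := z0 j
    have t0 : 0 < t j (Ψ y) := by linarith only [g0, b1, b3, b4, b5, b6, b1.1, b3.1, b6.1]
    obtain ⟨c1, c2, c3⟩ := h.mvt j (Ψ y) hV s' ⟨t0, by linarith only [g0, b1, b3, b4, b5, b6, b1.2, b3.2, b6.2]⟩
      ⟨by linarith only [g0, b1, b2, b3, b4, b5, b6, b2.1, b3.1, b6.1], by linarith only [g0, b1, b2, b3, b4, b5, b6, b2.2, b3.2, b6.2]⟩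
    by_cases k : ∀ w, w ≠ j → ∀ p ∈ A w, ζ w / 2 ≤ |t w (Ψ y) - p|
    · let q : κ := ⟨(j, a, {w | w ≠ j ∧ μ' w < t w (Ψ y)}), ha, fun l => l.1 rfl,
        fun w l => ⟨Ψ y, k3 j _ hV t0, by linarith only [g0, b1, b4, b5, b6, l, m2, l.2, (m2 w).1]⟩⟩
      have q1 : Ψ y ∈ W q :=
        ⟨⟨hV, fun w l => ⟨k w l, and_iff_right l⟩⟩, hz.trans_lt b4⟩
      have q2 : mv j (Ψ y) s' ∈ W q := by
        refine ⟨⟨c1, fun w l => ?_⟩, ?_⟩
        · rw [c3 w l]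
          exact ⟨k w l, and_iff_right l⟩
        · show |t j _ - α j a| < ρ j
          rw [c2]
          exact hs'.trans_lt b4
      have q3 := e2 j q rfl
      obtain ⟨y', l1, l2⟩ := d3 q i (Ψ y) ⟨y, hy, (p2 q (w3 q y q1)).symm⟩ q1.1 (hz.trans q3) s'
        (hs'.trans q3)
      exact ⟨y', l1, (p2 q (w2 q y' (l2 ▸ q2))).trans l2⟩
    · simp only [not_forall, not_le] at k
      obtain ⟨w, l, p, hp, k⟩ := k
      have o1 := out (Ψ y) j w (Ne.symm l) a ha p hp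
        (abs_lt.2 ⟨by linarith only [b1, b3, b4, b5, b1.1, b3.1], by linarith only [b1, b3, b4, b5, b1.2, b3.2]⟩) k
      have o2 := out (mv j (Ψ y) s') j w (Ne.symm l) a ha p hp
        (by rw [c2]; exact abs_lt.2 ⟨by linarith only [b1, b2, b3, b4, b5, b2.1, b3.1], by linarith only [b1, b2, b3, b4, b5, b2.2, b3.2]⟩)
        (by rw [c3 w l]; exact k)
      have o3 : Ψ y = y := p3 y fun q l' => o1 q (by rw [p2 q l']; exact w1 q y l')
      refine ⟨_, hD i (Ψ y) (by rw [o3]; exact hy) j w (Ne.symm l) a ha p hp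
        (abs_le.2 ⟨by linarith only [b1, b3, b4, b5, b1.1, b3.1], by linarith only [b1, b3, b4, b5, b1.2, b3.2]⟩)
        (by linarith only [k, z0, z0 w]) s'
        (abs_le.2 ⟨by linarith only [b1, b2, b3, b4, b5, b2.1, b3.1], by linarith only [b1, b2, b3, b4, b5, b2.2, b3.2]⟩), p3 _ o2⟩

end BEp
end
end
end

-- merged part: Pool.Agent.Work.MP_f0515e_an.P3.XCr
section
-- merged part: Pool.Agent.Work.MP_f0515e_an.P3.XCr1
section
/-! Crushing, first part: the crushing function of one class and the crushing map. -/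

open Set Metric Filter Topology Function BEv
open scoped NNReal

noncomputable section
namespace BEp

variable {ν ι : Type} {V : Set (Rn 3)} {g C : ℝ} {Cf : (Rn 3 ≃L[ℝ] Rn 3) → ℝ} {P : ι → Pc} {T : TS}
  {c : Rn 3 → ℝ} {t : ν → Rn 3 → ℝ} {mv : ν → Rn 3 → ℝ → Rn 3} {dim : ν → ℕ} {b : ν → Rn 3}
  {A : ν → Set ℝ} {ε η : ν → ℝ} {φ : ν → ℝ → ℝ} {Θ : Rn 3 → Rn 3}

/-- The slowly increasing part of the crushing function. -/
def XCr1_L (η p q s : ℝ) : ℝ :=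
  η / p * min s p + η * (max p (min s q) - p) + η / (1 - q) * (max s q - q)

theorem XCr1_sum {p q : ℝ} (h : p ≤ q) (s : ℝ) :
    min s p + max p (min s q) + max s q = s + p + q := by
  rcases le_total s p with a | a
  · rw [min_eq_left a, min_eq_left (a.trans h), max_eq_left a, max_eq_right (a.trans h)]
  · rcases le_total s q with d | d
    · rw [min_eq_right a, min_eq_left d, max_eq_right a, max_eq_right d]; ring
    · rw [min_eq_right a, min_eq_right d, max_eq_right h, max_eq_left d]; ring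

theorem XCr1_slope {g η p q s s' : ℝ} (hg : 0 < g) (h0 : 0 < η) (hp : g < p) (h : p ≤ q)
    (hq : q < 1 - g) (hs : s ≤ s') : η * (s' - s) ≤ XCr1_L η p q s' - XCr1_L η p q s ∧
      XCr1_L η p q s' - XCr1_L η p q s ≤ η / g * (s' - s) := by
  have d1 : 0 ≤ min s' p - min s p := sub_nonneg.2 (min_le_min_right p hs)
  have d2 : 0 ≤ max p (min s' q) - max p (min s q) :=
    sub_nonneg.2 (max_le_max_left p (min_le_min_right q hs))
  have d3 : 0 ≤ max s' q - max s q := sub_nonneg.2 (max_le_max_right q hs)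
  have e := XCr1_sum h s
  have e' := XCr1_sum h s'
  have k : ∀ x, g ≤ x → x ≤ 1 → η ≤ η / x ∧ η / x ≤ η / g := fun x a d =>
    ⟨(le_div_iff₀ (by linarith)).2 (mul_le_of_le_one_right h0.le d),
      div_le_div_of_nonneg_left h0.le hg a⟩
  have k1 := k p hp.le (by linarith)
  have k2 := (k 1 (by linarith) le_rfl).2
  have k3 := k (1 - q) (by linarith only [hq]) (by linarith only [hg, hp, h])
  rw [div_one] at k2
  have E : XCr1_L η p q s' - XCr1_L η p q s = η / p * (min s' p - min s p) +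
      η * (max p (min s' q) - max p (min s q)) + η / (1 - q) * (max s' q - max s q) := by
    unfold XCr1_L; ring
  have E' : s' - s = (min s' p - min s p) + (max p (min s' q) - max p (min s q)) +
      (max s' q - max s q) := by linarith only [e, e']
  rw [E, E', mul_add, mul_add, mul_add, mul_add]
  exact ⟨add_le_add (add_le_add (mul_le_mul_of_nonneg_right k1.1 d1) le_rfl)
      (mul_le_mul_of_nonneg_right k3.1 d3),
    add_le_add (add_le_add (mul_le_mul_of_nonneg_right k1.2 d1) (mul_le_mul_of_nonneg_right k2 d2))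
      (mul_le_mul_of_nonneg_right k3.2 d3)⟩

theorem XCr1_lo {ε s a : ℝ} (hε : 0 < ε) (h : s ≤ a - ε) : clamp ((s - a) / ε) 1 = -1 :=
  max_eq_left ((min_le_left _ _).trans ((div_le_iff₀ hε).2 (by linarith)))

theorem XCr1_hi {ε s a : ℝ} (hε : 0 < ε) (h : a + ε ≤ s) : clamp ((s - a) / ε) 1 = 1 := by
  rw [clamp, min_eq_right ((le_div_iff₀ hε).2 (by linarith)), max_eq_right (by norm_num)]

theorem crush1 {S : Finset ℝ} (hne : S.Nonempty) {g ε η : ℝ} (hg : 0 < g) (hε : 0 < ε) (h0 : 0 < η)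
    (h1 : η ≤ 1 / 4) (hi : ∀ a ∈ S, g < a - ε ∧ a + ε < 1 - g)
    (hd : ∀ a ∈ S, ∀ a' ∈ S, a < a' → a + ε < a' - ε) : ∃ φ : ℝ → ℝ, TP φ ∧ StrictMono φ ∧ φ 0 = 0 ∧
      φ 1 = 1 ∧ (∀ s, (∀ a ∈ S, s < a - ε) → φ s ≤ η) ∧ (∀ s, (∀ a ∈ S, a + ε < s) → 1 - η ≤ φ s) ∧
      (∀ a ∈ S, ∀ s, |s - a| ≤ ε → η ≤ φ s ∧ φ s ≤ 1 - η) ∧ ∀ s s', |φ s - φ s'| ≤
        ∑ a ∈ S, 1 / (2 * S.card) * |clamp ((s - a) / ε) 1 - clamp ((s' - a) / ε) 1| +
          η / g * |s - s'| := by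
  obtain ⟨a0, ha0, m0⟩ := S.exists_min_image id hne
  obtain ⟨a1, ha1, m1⟩ := S.exists_max_image id hne
  simp only [id] at m0 m1
  obtain ⟨p, ep⟩ : ∃ p, p = a0 - ε := ⟨_, rfl⟩
  obtain ⟨q, eq⟩ : ∃ q, q = a1 + ε := ⟨_, rfl⟩
  have hp : g < p := ep ▸ (hi a0 ha0).1
  have hq : q < 1 - g := eq ▸ (hi a1 ha1).2
  have hpq : p ≤ q := by have := m0 a1 ha1; linarith only [hε, ep, eq, this]
  have hc : (0 : ℝ) < S.card := Nat.cast_pos.2 hne.card_pos
  obtain ⟨β, eβ⟩ : ∃ β, β = (1 - 2 * η - η * (q - p)) / (2 * S.card) := ⟨_, rfl⟩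
  have hx : 0 ≤ η * (q - p) ∧ η * (q - p) ≤ η :=
    ⟨mul_nonneg h0.le (by linarith only [hpq]), mul_le_of_le_one_right h0.le (by linarith only [hg, hp, hq])⟩
  have b0 : 0 ≤ β := eβ ▸ div_nonneg (by linarith only [h0, h1, hx]) (by linarith only [hc])
  have b1 : β ≤ 1 / (2 * S.card) := eβ ▸ div_le_div_of_nonneg_right (by linarith only [h0, hx]) (by linarith only [hc])
  have b2 : β * (2 * S.card) = 1 - 2 * η - η * (q - p) := eβ ▸ div_mul_cancel₀ _ (by linarith only [hc])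
  obtain ⟨φ, eφ⟩ : ∃ φ : ℝ → ℝ, ∀ s, φ s = XCr1_L η p q s +
      ∑ a ∈ S, β * (clamp ((s - a) / ε) 1 + 1) := ⟨_, fun _ => rfl⟩
  have mono : StrictMono φ := fun s s' hs => by
    have k := (XCr1_slope hg h0 hp hpq hq hs.le).1
    have k' := mul_pos h0 (sub_pos.2 hs)
    rw [eφ, eφ]
    refine add_lt_add_of_lt_of_le (by linarith only [k, k']) (Finset.sum_le_sum fun a _ => ?_)
    exact mul_le_mul_of_nonneg_left (add_le_add_left (max_le_max_left _ (min_le_min_right _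
      (div_le_div_of_nonneg_right (by linarith only [hs]) hε.le))) 1) b0
  have lo : ∀ s, s ≤ p → φ s = η / p * s := fun s hs => by
    rw [eφ, Finset.sum_eq_zero fun a ha => by
      rw [XCr1_lo hε (by have := m0 a ha; linarith only [ep, hs, this]), neg_add_cancel, mul_zero], XCr1_L,
      min_eq_left hs, min_eq_left (hs.trans hpq), max_eq_left hs, max_eq_right (hs.trans hpq)]
    ring
  have up : ∀ s, q ≤ s → φ s = 1 - η + η / (1 - q) * (s - q) := fun s hs => by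
    rw [eφ, Finset.sum_congr rfl fun a ha => by
      rw [XCr1_hi hε (by have := m1 a ha; linarith only [eq, hs, this] : a + ε ≤ s)], XCr1_L,
      min_eq_right (hpq.trans hs), min_eq_right hs, max_eq_right hpq, max_eq_left hs,
      Finset.sum_const, nsmul_eq_mul, div_mul_cancel₀ _ (by linarith only [hg, hp] : p ≠ 0)]
    linarith only [b2]
  have vp : φ p = η := by rw [lo p le_rfl, div_mul_cancel₀ _ (by linarith only [hg, hp] : p ≠ 0)]
  have vq : φ q = 1 - η := by rw [up q le_rfl, sub_self, mul_zero, add_zero]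
  refine ⟨φ, ?_, mono, by rw [lo 0 (by linarith only [hg, hp]), mul_zero], ?_, fun s hs => ?_, fun s hs => ?_,
    fun a ha s hs => ?_, fun s s' => ?_⟩
  · rw [funext eφ]
    exact ((((TP.id'.min (TP.const p)).const_mul _).add ((((TP.const p).max (TP.id'.min
      (TP.const q))).sub (TP.const p)).const_mul _)).add (((TP.id'.max (TP.const q)).sub
      (TP.const q)).const_mul _)).add (TP.sum S fun a _ => (((((TP.id'.sub (TP.const a)).div_const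
      ε).clamp (TP.const 1)).add (TP.const 1)).const_mul β))
  · rw [up 1 (by linarith only [hg, hq]), div_mul_cancel₀ _ (by linarith only [hg, hq] : 1 - q ≠ 0), sub_add_cancel]
  · exact vp ▸ mono.monotone (ep ▸ (hs a0 ha0).le)
  · exact vq ▸ mono.monotone (eq ▸ (hs a1 ha1).le)
  · have := m0 a ha
    have := m1 a ha
    obtain ⟨u, v⟩ := abs_le.1 hs
    exact ⟨vp ▸ mono.monotone (by linarith), vq ▸ mono.monotone (by linarith only [eq, this, v])⟩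
  · have k : |XCr1_L η p q s - XCr1_L η p q s'| ≤ η / g * |s - s'| := by
      wlog hs : s' ≤ s generalizing s s'
      · rw [abs_sub_comm, abs_sub_comm s]
        exact this s' s (not_le.1 hs).le
      have k := XCr1_slope hg h0 hp hpq hq hs
      have k' := mul_nonneg h0.le (sub_nonneg.2 hs)
      rw [abs_of_nonneg (k'.trans k.1), abs_of_nonneg (sub_nonneg.2 hs)]
      exact k.2
    rw [eφ, eφ, add_sub_add_comm, ← Finset.sum_sub_distrib, add_comm (∑ a ∈ S, 1 / _ * _)]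
    refine (abs_add_le _ _).trans (add_le_add k ((Finset.abs_sum_le_sum_abs _ _).trans
      (Finset.sum_le_sum fun a _ => ?_)))
    rw [← mul_sub, add_sub_add_right_eq_sub, abs_mul, abs_of_nonneg b0]
    exact mul_le_mul_of_nonneg_right b1 (abs_nonneg _)

theorem Api.cr (h : Api V g C Cf P T c t mv dim b) (hA : XLev g A ε)
    (hη : ∀ v, 0 < η v ∧ η v ≤ 1 / 4) : ∃ φ Θ, Cr V t g A ε η φ Θ := by
  have e : ∀ v a, a ∈ (hA.fin v).toFinset ↔ a ∈ A v := fun v a => (hA.fin v).mem_toFinset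
  choose φ h1 h2 h3 h4 h5 h6 h7 h8 using fun v => crush1 (S := (hA.fin v).toFinset)
    ((hA.fin v).toFinset_nonempty.2 (hA.ne v)) h.g0.1 (hA.pos v) (hη v).1 (hη v).2
    (fun a ha => hA.inn v a ((e v a).1 ha))
    (fun a ha a' ha' => hA.dis v a ((e v a).1 ha) a' ((e v a').1 ha'))
  obtain ⟨Θ, k1, k2⟩ := h.theta φ fun v => ⟨h1 v, h2 v, h3 v, h4 v⟩
  refine ⟨φ, Θ, k1, k2, fun v => ⟨h2 v, h3 v, h4 v⟩,
    fun v s hs => h5 v s fun a ha => hs a ((e v a).1 ha),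
    fun v s hs => h6 v s fun a ha => hs a ((e v a).1 ha),
    fun v a ha => h7 v a ((e v a).2 ha), fun v S hS => ?_⟩
  obtain rfl : S = (hA.fin v).toFinset := Finset.coe_injective (hS.trans (hA.fin v).coe_toFinset.symm)
  exact h8 v

theorem Cr.xeq (k : Cr V t g A ε η φ Θ) {y : Rn 3} (hy : y ∈ V) : XEq t y (Θ y) := by
  intro v
  rw [k.eq y hy v, ← (k.mono v).1.lt_iff_lt, (k.mono v).2.1]

end BEp
end
end

-- merged part: Pool.Agent.Work.MP_f0515e_an.P3.XCr2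
section
/-! Crushing: the slopes off the slabs, the labels and the distance of the centres. -/

open Set Metric Filter Topology Function BEv
open scoped NNReal

noncomputable section
namespace BEp

variable {n m : ℕ}

variable {ν ι : Type} {V : Set (Rn 3)} {g C : ℝ} {Cf : (Rn 3 ≃L[ℝ] Rn 3) → ℝ} {P : ι → Pc} {T : TS}
  {c : Rn 3 → ℝ} {t : ν → Rn 3 → ℝ} {mv : ν → Rn 3 → ℝ → Rn 3} {dim : ν → ℕ} {b : ν → Rn 3}
  {A : ν → Set ℝ} {ε η : ν → ℝ} {φ : ν → ℝ → ℝ} {Θ : Rn 3 → Rn 3}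

theorem XCr2_small {κ : Type} {I : Set κ} (hI : I.Finite) (L : κ → ℝ) {d : κ → ℝ}
    (hd : ∀ i, 0 < d i) : ∃ x : ℝ, 0 < x ∧ ∀ i ∈ I, x * L i ≤ d i := by
  have : ∀ᶠ x in 𝓝[>] (0 : ℝ), ∀ i ∈ I, x * L i ≤ d i := (eventually_all_finite hI).2 fun i _ =>
    mem_nhdsWithin_of_mem_nhds (((continuous_mul_const (L i)).tendsto 0).eventually_le_const
      (by simpa using hd i))
  exact (eventually_mem_nhdsWithin.and this).exists

theorem XCr2_c1 {c : ℝ} (h : c ≤ -1) : clamp c 1 = -1 :=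
  max_eq_left ((min_le_left _ _).trans h)

theorem XCr2_c2 {c : ℝ} (h : 1 ≤ c) : clamp c 1 = 1 := by
  rw [clamp, min_eq_right h, max_eq_right (by norm_num)]

theorem Api.eta (h : Api V g C Cf P T c t mv dim b) {μ : Type} {k : μ → Rn 2 → Rn 3}
    (hk : ∀ i, ∃ u, TP u ∧ EqOn (k i) u Tri) (hV : ∀ i, ∀ q ∈ Tri, k i q ∈ V)
    (lf : ∀ Z, IsCompact Z → Z ⊆ V → {i | (k i '' Tri ∩ Z).Nonempty}.Finite) {δ : μ → ℝ}
    (hδ : ∀ i, 0 < δ i) {𝒞 : Set ν} (hC : 𝒞.Finite) : ∃ (η : ν → ℝ) (η₀ : ℝ), η₀ ≤ 1 / 4 ∧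
      (∀ v, 0 < η v ∧ η v ≤ η₀) ∧ (∀ v ∈ 𝒞, η v = η₀) ∧ ∀ i, ∀ W : Finset ν, ∀ q ∈ Tri, ∀ q' ∈ Tri,
        ∑ v ∈ W, η v * |t v (k i q) - t v (k i q')| ≤ δ i * dist q q' := by
  classical
  have sub : ∀ i, k i '' Tri ⊆ V := fun i => image_subset_iff.2 (hV i)
  have cp : ∀ i, IsCompact (k i '' Tri) := fun i => by
    obtain ⟨u, hu, e⟩ := hk i
    rw [e.image_eq]
    exact XFb1_tri.image hu.continuous
  have fin : ∀ i, {v | ∃ y ∈ k i '' Tri, 0 < t v y}.Finite := fun i => h.lf1 _ (cp i) (sub i)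
  have lip : ∀ v i, ∃ L : ℝ, 0 ≤ L ∧ ∀ q ∈ Tri, ∀ q' ∈ Tri,
      |t v (k i q) - t v (k i q')| ≤ L * dist q q' := fun v i => by
    obtain ⟨u, hu, e⟩ := hk i
    obtain ⟨w, hw, e'⟩ := h.ltp v _ (cp i) (sub i)
    obtain ⟨L, hL⟩ := (hw.comp hu).lip
    refine ⟨L, L.2, fun q hq q' hq' => ?_⟩
    rw [e' (mem_image_of_mem _ hq), e' (mem_image_of_mem _ hq'), e hq, e hq']
    exact hL.dist_le_mul q q'
  choose L L0 hL using lip
  have ex : ∀ v, ∃ x : ℝ, 0 < x ∧ ∀ i ∈ {i | ∃ y ∈ k i '' Tri, 0 < t v y},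
      x * (L v i * (fin i).toFinset.card) ≤ δ i := fun v => by
    obtain ⟨K, hK, KV, hs⟩ := h.lf2 v
    refine XCr2_small ((lf K hK KV).subset ?_) _ hδ
    exact fun i ⟨y, hy, k'⟩ => ⟨y, hy, hs y (sub i hy) k'⟩
  choose x x0 hx using ex
  obtain ⟨y, y0, hy⟩ := XCr2_small hC (fun _ => 1) x0
  refine ⟨fun v => min (x v) (min y (1 / 4)), min y (1 / 4), min_le_right _ _,
    fun v => ⟨lt_min (x0 v) (lt_min y0 (by norm_num)), min_le_right _ _⟩,
    fun v hv => min_eq_right ((min_le_left _ _).trans (by simpa using hy v hv)),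
    fun i W q hq q' hq' => ?_⟩
  have p0 : ∀ v, 0 ≤ min (x v) (min y (1 / 4)) := fun v =>
    (lt_min (x0 v) (lt_min y0 (by norm_num))).le
  have z : ∀ v, v ∉ (fin i).toFinset → ∀ q ∈ Tri, t v (k i q) = 0 := fun v hv q hq =>
    le_antisymm (not_lt.1 fun a => hv ((fin i).mem_toFinset.2 ⟨_, mem_image_of_mem _ hq, a⟩))
      (h.t01 v _ (hV i q hq)).1
  refine (Finset.sum_le_sum_of_subset_of_nonneg (t := W ∪ (fin i).toFinset)
    Finset.subset_union_left fun v _ _ => mul_nonneg (p0 v) (abs_nonneg _)).trans ?_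
  rw [← Finset.sum_subset Finset.subset_union_right fun v _ a => by
    rw [z v a q hq, z v a q' hq', sub_self, abs_zero, mul_zero]]
  rcases (fin i).toFinset.eq_empty_or_nonempty with e | e
  · rw [e, Finset.sum_empty]
    exact mul_nonneg (hδ i).le dist_nonneg
  have c0 : (0 : ℝ) < (fin i).toFinset.card := by exact_mod_cast e.card_pos
  refine (Finset.sum_le_card_nsmul _ _ (δ i / (fin i).toFinset.card * dist q q')
    fun v hv => ?_).trans_eq ?_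
  · refine (mul_le_mul (min_le_left _ _) (hL v i q hq q' hq') (abs_nonneg _) (x0 v).le).trans ?_
    rw [← mul_assoc]
    refine mul_le_mul_of_nonneg_right ?_ dist_nonneg
    rw [le_div_iff₀ c0, mul_assoc]
    exact hx v i ((fin i).mem_toFinset.1 hv)
  · rw [nsmul_eq_mul, ← mul_assoc, mul_div_cancel₀ _ c0.ne']

theorem Api.crush_mk {X : Type} [PseudoMetricSpace X] (h : Api V g C Cf P T c t mv dim b)
    (hA : XLev g A ε) (k : Cr V t g A ε η φ Θ) {S : Set X} {γ : X → Rn 3} (hc : ContinuousOn γ S)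
    (hS : IsCompact S) (hV : ∀ q ∈ S, γ q ∈ V) {D δ : ℝ} (h0 : 0 ≤ D)
    (hD : ∀ q ∈ S, ∀ q' ∈ S, ∀ v w, 0 < t v (γ q) → 0 < t w (γ q') → ‖b v - b w‖ ≤ D)
    (he : ∀ W : Finset ν, ∀ q ∈ S, ∀ q' ∈ S,
      ∑ v ∈ W, η v * |t v (γ q) - t v (γ q')| ≤ δ * dist q q') {x : ν × ℝ → ℝ}
    (hx : ∀ ω, C * D / (2 * (A ω.1).ncard) ≤ x ω) :
    Crush (gN V t A ε) (gf mv ε) x S γ (fun q => Θ (γ q)) (C * D * δ / g) := by
  classical
  have g0 := h.g0.1
  have CD : 0 ≤ C * D := mul_nonneg (zero_le_one.trans h.C1) h0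
  have fin := h.lf1 _ (hS.image_of_continuousOn hc) (image_subset_iff.2 hV)
  have z : ∀ v, v ∉ fin.toFinset → ∀ q ∈ S, t v (γ q) = 0 := fun v hv q hq =>
    le_antisymm (not_lt.1 fun a => hv (fin.mem_toFinset.2 ⟨_, mem_image_of_mem _ hq, a⟩))
      (h.t01 v _ (hV q hq)).1
  have pos : ∀ v, ∀ q ∈ S, 0 < t v (Θ (γ q)) → 0 < t v (γ q) := fun v q hq a => by
    rw [k.eq _ (hV q hq), ← (k.mono v).2.1] at a
    exact (k.mono v).1.lt_iff_lt.1 a
  obtain ⟨W, hW⟩ : ∃ W : Finset (ν × ℝ), ∀ p : ν × ℝ,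
      p ∈ W ↔ p.1 ∈ fin.toFinset ∧ p.2 ∈ (hA.fin p.1).toFinset :=
    ⟨fin.toFinset.biUnion fun v => (hA.fin v).toFinset.image fun a => (v, a), fun p => by
      simp only [Finset.mem_biUnion, Finset.mem_image]
      exact ⟨by rintro ⟨v, hv, a, ha, rfl⟩; exact ⟨hv, ha⟩, fun a => ⟨_, a.1, _, a.2, rfl⟩⟩⟩
  refine ⟨W, fun ω q => clamp ((t ω.1 (γ q) - ω.2) / ε ω.1) 1, fun ω hω => ⟨?_, fun q hq a => ?_,
    fun q hq a s hs e => ?_⟩, fun q hq q' hq' => ?_⟩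
  · exact continuousOn_const.sup (((((h.ltp ω.1).contOn h.opn).comp hc hV).sub
      continuousOn_const).div_const _ |>.inf continuousOn_const)
  · have p := hA.pos ω.1
    have a' : ε ω.1 < |t ω.1 (γ q) - ω.2| :=
      not_le.1 fun e => a ⟨hV q hq, (hA.fin _).mem_toFinset.1 ((hW ω).1 hω).2, e⟩
    dsimp only
    rcases lt_abs.1 a' with e | e
    · rw [XCr2_c2 ((one_le_div p).2 e.le), abs_one]
    · rw [XCr2_c1 (c := (t ω.1 (γ q) - ω.2) / ε ω.1) ((div_le_iff₀ p).2 (by linarith)), abs_neg, abs_one]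
  · have e' := (h.gf_t hA a (abs_le.1 hs)).2.1
    rw [e] at e'
    dsimp only
    rw [e', add_sub_cancel_left, mul_div_cancel_left₀ _ (hA.pos _).ne', clamp_eq_self hs]
  refine (h.ylip _ (k.gm.bij.mapsTo (hV q hq)) _ (k.gm.bij.mapsTo (hV q' hq')) D fin.toFinset
    (fun v hv => by rw [k.eq _ (hV q hq), k.eq _ (hV q' hq'), z v hv q hq, z v hv q' hq'])
    fun v w a a' => hD q hq q' hq' v w (pos v q hq a) (pos w q' hq' a')).trans ?_
  have e2 : C * D / g * ∑ v ∈ fin.toFinset, η v * |t v (γ q) - t v (γ q')| ≤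
      C * D * δ / g * dist q q' :=
    (mul_le_mul_of_nonneg_left (he _ q hq q' hq') (div_nonneg CD g0.le)).trans_eq (by ring)
  refine le_trans ?_ (add_le_add le_rfl e2)
  rw [Finset.sum_finset_product W fin.toFinset (fun v => (hA.fin v).toFinset) hW, Finset.mul_sum, Finset.mul_sum, ← Finset.sum_add_distrib]
  refine Finset.sum_le_sum fun v _ => ?_
  rw [k.eq _ (hV q hq), k.eq _ (hV q' hq')]
  refine (mul_le_mul_of_nonneg_left (k.lip v _ (hA.fin v).coe_toFinset _ _) CD).trans ?_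
  rw [mul_add, Finset.mul_sum]
  refine add_le_add (Finset.sum_le_sum fun a _ => ?_) (le_of_eq (by ring))
  rw [← mul_assoc, mul_one_div, ← ncard_eq_toFinset_card _ (hA.fin v)]
  exact mul_le_mul_of_nonneg_right (hx (v, a)) (abs_nonneg _)

theorem Api.bD (h : Api V g C Cf P T c t mv dim b) {y z z' : Rn 3} (hy : y ∈ V) (hz : z ∈ V)
    (hz' : z' ∈ V) (k : Chn V t 7 y z) (k' : Chn V t 7 y z') {v w : ν} (hv : 0 < t v z)
    (hw : 0 < t w z') : ‖b v - b w‖ ≤ 30 * C ^ 8 * T.l y := by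
  obtain ⟨a1, -, a2⟩ := h.chn hy hz k
  obtain ⟨b1, -, b2⟩ := h.chn hy hz' k'
  have C0 : 0 ≤ C := zero_le_one.trans h.C1
  have a3 := (h.bnr v z hz hv).trans (mul_le_mul_of_nonneg_left a1 C0)
  have b3 := (h.bnr w z' hz' hw).trans (mul_le_mul_of_nonneg_left b1 C0)
  have c1 := norm_sub_le_norm_sub_add_norm_sub (b v) z (b w)
  have c2 := norm_sub_le_norm_sub_add_norm_sub z y (b w)
  have c3 := norm_sub_le_norm_sub_add_norm_sub y z' (b w)
  rw [norm_sub_rev _ z] at c1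
  rw [norm_sub_rev _ z'] at c3
  push_cast at a2 b2
  have e : C * (C ^ 7 * T.l y) = C ^ 8 * T.l y := by ring
  linarith only [a2, b2, a3, b3, c1, c2, c3]

end BEp
end
end

-- merged part: Pool.Agent.Work.MP_f0515e_an.P3.XCr
section
/-! Crushing. `crush1`: with `p` the left end of the first slab, `q` the right end of the last one, `φ` has slope `η / p` left of `p`, slope `η / (1 - q)` right of `q`, and equals `η + η (s - p) + β ∑ a, (clamp ((s - a) / ε) 1 + 1) / 2` between, `β = (1 - 2 η - η (q - p)) / card`.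
`eta`: `t v ∘ k i` is Lipschitz on `Tri`; finitely many classes are positive on `k i '' Tri` (`lf1`), finitely many `i` meet the star of a class (`lf2`). `crush_mk`: labels `clamp ((t v (γ q) - a) / ε v) 1`, `ylip`. About 400 lines; two tasks. -/

open Set Metric Filter Topology Function BEv
open scoped NNReal

noncomputable section
namespace BEp

variable {n m : ℕ}

variable {ν ι : Type} {V : Set (Rn 3)} {g C : ℝ} {Cf : (Rn 3 ≃L[ℝ] Rn 3) → ℝ} {P : ι → Pc} {T : TS}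
  {c : Rn 3 → ℝ} {t : ν → Rn 3 → ℝ} {mv : ν → Rn 3 → ℝ → Rn 3} {dim : ν → ℕ} {b : ν → Rn 3}
  {A : ν → Set ℝ} {ε η : ν → ℝ} {φ : ν → ℝ → ℝ} {Θ : Rn 3 → Rn 3}

end BEp
end
end
end
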