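import Pool.Agent.Work.MP_f0515e_an.P3.ZPoly
import Pool.Agent.Work.MP_f0515e_an.P3.ZChart1
import Pool.Agent.Work.MP_f0515e_an.P3.YFl1

-- merged part: Pool.Agent.Work.MP_f0515e_an.P3.ZChart
section
/-! The cone chart of a convex polygon over the triangle. -/

open Set Metric Filter Topology Function BEv MeasureTheory
open scoped NNReal ENNReal

noncomputable section
namespace BEp

theorem zc_r1 {b τ τ' s s' N : ℝ} (b0 : 0 < b) (b1 : b ≤ 1 / 8)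
    (h0 : |b + τ * (s - b) - (b + τ' * (s' - b))| ≤ N)
    (h1 : |1 - b + τ * (s - (1 - b)) - (1 - b + τ' * (s' - (1 - b)))| ≤ N) :
    |τ - τ'| ≤ 3 * N ∧ |τ * s - τ' * s'| ≤ 2 * N := by
  have N0 : 0 ≤ N := (abs_nonneg _).trans h0
  rw [abs_le] at h0 h1
  have k : |τ - τ'| ≤ 3 * N := by
    rw [abs_le]
    constructor <;> (refine le_of_not_gt fun h_nl => ?_; linarith only [h_nl, h0, h1, b0, b1, h0.1, h0.2, h1.1, h1.2, mul_pos_of_neg_of_neg (Mathlib.Tactic.Linarith.sub_neg_of_lt b0) (Mathlib.Tactic.Linarith.sub_neg_of_lt h_nl), mul_nonneg_of_nonpos_of_nonpos (Mathlib.Tactic.Linarith.sub_nonpos_of_le b1) (Mathlib.Tactic.Linarith.sub_nonpos_of_le h0.left), mul_nonneg_of_nonpos_of_nonpos (Mathlib.Tactic.Linarith.sub_nonpos_of_le b1) (Mathlib.Tactic.Linarith.sub_nonpos_of_le h0.right), mul_nonneg_of_nonpos_of_nonpos (Mathlib.Tactic.Linarith.sub_nonpos_of_le b1) (le_of_lt (Mathlib.Tactic.Linarith.sub_neg_of_lt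 h_nl))])
  refine ⟨k, ?_⟩
  rw [abs_le] at k ⊢
  constructor <;> (refine le_of_not_gt fun h_nl => ?_; linarith only [h_nl, h0, b0, h1, k, b1, h0.1, h0.2, k.1, k.2, mul_nonneg_of_nonpos_of_nonpos (le_of_lt (Mathlib.Tactic.Linarith.sub_neg_of_lt b0)) (Mathlib.Tactic.Linarith.sub_nonpos_of_le h0.left), mul_nonneg_of_nonpos_of_nonpos (le_of_lt (Mathlib.Tactic.Linarith.sub_neg_of_lt b0)) (Mathlib.Tactic.Linarith.sub_nonpos_of_le h1.left), mul_nonneg_of_nonpos_of_nonpos (le_of_lt (Mathlib.Tactic.Linarith.sub_neg_of_lt b0)) (Mathlib.Tactic.Linarith.sub_nonpos_of_le k.left), mul_pos_of_neg_of_neg (Mathlib.Tactic.Linarith.sub_neg_of_lt b0) (Mathlib.Tactic.Linarith.sub_neg_of_lt h_nl), mul_nonneg_of_nonpos_of_nonpos (Mathlib.Tactic.Linarith.sub_nonpos_of_le b1) (Mathlib.Tactic.Linarith.sub_nonpos_of_le h0.right), mul_nonneg_of_nonpos_of_nonpos (le_of_lt (Mathlib.Tactic.Linarith.sub_neg_of_lt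 b0)) (Mathlib.Tactic.Linarith.sub_nonpos_of_le h0.right), mul_nonneg_of_nonpos_of_nonpos (le_of_lt (Mathlib.Tactic.Linarith.sub_neg_of_lt b0)) (Mathlib.Tactic.Linarith.sub_nonpos_of_le h1.right), mul_nonneg_of_nonpos_of_nonpos (le_of_lt (Mathlib.Tactic.Linarith.sub_neg_of_lt b0)) (Mathlib.Tactic.Linarith.sub_nonpos_of_le k.right), mul_nonneg_of_nonpos_of_nonpos (Mathlib.Tactic.Linarith.sub_nonpos_of_le b1) (Mathlib.Tactic.Linarith.sub_nonpos_of_le h0.left)])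

theorem zc_r2 {r R β x y N : ℝ} (h0 : 0 < r) (h1 : r ≤ R) (h2 : r ≤ β) (N0 : 0 ≤ N)
    (hx : r * x ≤ 2 * N) (hy : y * β ≤ N + x * (R + β)) : x + y ≤ 7 * R / r ^ 2 * N := by
  rw [div_mul_eq_mul_div, le_div_iff₀ (by positivity)]
  have k1 : r * N ≤ R * N := mul_le_mul_of_nonneg_right h1 N0
  have k2 : r * (r * x) ≤ r * (2 * N) := mul_le_mul_of_nonneg_left hx h0.le
  have k3 : R * (r * x) ≤ R * (2 * N) := mul_le_mul_of_nonneg_left hx (h0.le.trans h1)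
  rcases le_total y x with k | k
  · have := mul_le_mul_of_nonneg_right k (sq_nonneg r)
    linarith only [k1, k2, this, h0, N0, mul_nonneg h0.le N0]
  · have k4 : (y - x) * r ≤ (y - x) * β := mul_le_mul_of_nonneg_left h2 (sub_nonneg.2 k)
    have k5 : (y - x) * r * r ≤ (N + x * R) * r :=
      mul_le_mul_of_nonneg_right (by linarith) h0.le
    linarith only [k1, k2, k3, k5]

theorem zc_norm {x : Rn 2} {N : ℝ} (h0 : |x 0| ≤ N) (h1 : |x 1| ≤ N) : ‖x‖ ≤ N := by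
  rw [p2b_norm]
  exact max_le h0 h1

theorem zc_cvx : Convex ℝ Tri := by
  rintro x ⟨a1, a2, a3⟩ y ⟨c1, c2, c3⟩ s t hs ht e
  refine ⟨?_, ?_, ?_⟩ <;> simp only [Pi.add_apply, Pi.smul_apply, smul_eq_mul] <;> linarith only [a1, hs, c1, ht, a2, c2, e, a3, c3, mul_nonneg_of_nonpos_of_nonpos (Mathlib.Tactic.Linarith.sub_nonpos_of_le a1) (Mathlib.Tactic.Linarith.sub_nonpos_of_le hs), mul_nonneg_of_nonpos_of_nonpos (Mathlib.Tactic.Linarith.sub_nonpos_of_le c1) (Mathlib.Tactic.Linarith.sub_nonpos_of_le ht), mul_nonneg_of_nonpos_of_nonpos (Mathlib.Tactic.Linarith.sub_nonpos_of_le a2) (Mathlib.Tactic.Linarith.sub_nonpos_of_le hs), mul_nonneg_of_nonpos_of_nonpos (Mathlib.Tactic.Linarith.sub_nonpos_of_le c2) (Mathlib.Tactic.Linarith.sub_nonpos_of_le ht), mul_nonneg_of_nonpos_of_nonpos (Mathlib.Tactic.Linarith.sub_nonpos_of_le a3) (Mathlib.Tactic.Linarith.sub_nonpos_of_le hs), mul_nonneg_of_nonpos_of_nonpos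 (Mathlib.Tactic.Linarith.sub_nonpos_of_le c3) (Mathlib.Tactic.Linarith.sub_nonpos_of_le ht)]

variable {U : Set (Rn 2)} {m : ℕ} {v : ℕ → Rn 2} {c : Rn 2} {r R η : ℝ}

theorem zchart (h : ZP U m v) (h0 : 0 < r) (hr : ball c r ⊆ U) (hR : U ⊆ ball c R) (hη : 0 < η) :
    ∃ a χ t T, ZC U m v r R η a χ t T := by
  obtain ⟨γ, u, tγ, u0, um, ul, ud, pc, lip, bγ, e1⟩ := zloop h
  have P1 := h.per_low h0 hr
  have P2 := h.per_up h0 hr hR
  generalize zper m v = P at ud lip P1 P2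
  have cU : c ∈ U := hr (mem_ball_self h0)
  have rR : r ≤ R := by
    by_contra k
    have R0 : 0 < R := by simpa using hR cU
    have k1 : c + (fun _ => R) ∈ ball c r := by
      rw [mem_ball, dist_self_add_left, pi_norm_const, Real.norm_of_nonneg R0.le]
      exact not_le.1 k
    have k2 := hR (hr k1)
    rw [mem_ball, dist_self_add_left, pi_norm_const, Real.norm_of_nonneg R0.le] at k2
    exact lt_irrefl _ k2
  have hcl : ∀ y ∈ frontier U, ‖y - c‖ ≤ R := fun y hy =>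
    mem_closedBall_iff_norm.1 (closure_ball_subset_closedBall
      (closure_mono hR (frontier_subset_closure hy)))
  have m1 : m - 1 < m := Nat.sub_lt h.pos one_pos
  have m2 : m - 1 + 1 = m := Nat.sub_add_cancel h.pos
  have w0 : 0 < u 1 := u0 ▸ ul 0 h.pos
  have w1 : 0 < 1 - u (m - 1) := by
    have := ul _ m1
    rw [m2, um] at this
    linarith only [this]
  obtain ⟨b, b0, b1, b2, b3, b4, b5⟩ : ∃ b : ℝ, 0 < b ∧ b ≤ 1 / 8 ∧ 2 * b ≤ η * u 1 ∧ b ≤ u 1 ∧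
      2 * b ≤ η * (1 - u (m - 1)) ∧ b ≤ 1 - u (m - 1) := by
    refine ⟨min (min (1 / 8) (min (η * u 1 / 2) (u 1)))
      (min (η * (1 - u (m - 1)) / 2) (1 - u (m - 1))), by positivity,
      (min_le_left _ _).trans (min_le_left _ _), ?_, ?_, ?_, ?_⟩
    · have := ((min_le_left _ (min (η * (1 - u (m - 1)) / 2) (1 - u (m - 1)))).trans
        (min_le_right (1 / 8) _)).trans (min_le_left (η * u 1 / 2) (u 1))
      linarith only [this]
    · exact ((min_le_left _ _).trans (min_le_right _ _)).trans (min_le_right _ _)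
    · have := (min_le_right (min (1 / 8) (min (η * u 1 / 2) (u 1))) _).trans
        (min_le_left (η * (1 - u (m - 1)) / 2) (1 - u (m - 1)))
      linarith only [this]
    · exact (min_le_right _ _).trans (min_le_right _ _)
  have b6 : 0 < 1 - 2 * b := by linarith only [b0, b1]
  obtain ⟨β, tβ, bβ, kβ⟩ := zbd tγ bγ e1 b0 b1
  have BT := pdsc_tri.ball2
  have BU := kb_open h.opn h.cvx h.poly ⟨c, cU⟩
  obtain ⟨χ, tχ, bχ, kχ, rad⟩ := zcone (o := ![b, 1 - b]) BT.poly zc_cvx (by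
      rw [BT.interior_eq]
      refine ⟨⟨b0.le, by simp; linarith only [b0, b1], by simp; linarith only [b0]⟩, ?_⟩
      rintro ⟨-, k | k | k⟩ <;> simp at k <;> linarith only [b0, k, b1])
    h.poly h.cvx.closure (interior_maximal subset_closure h.opn cU) tβ
    (by rw [BT.frontier_eq, BU.frontier_eq]; exact bβ)
    (by rw [BT.frontier_eq]; exact BT.crc.tcrc.conn.nonempty)
  rw [BT.frontier_eq] at kχ rad
  have eχ : EqOn χ β bTri := fun x hx => by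
    have := kχ x hx 1 zero_le_one
    rwa [one_smul, one_smul, add_sub_cancel, add_sub_cancel] at this
  obtain ⟨t, ht⟩ : ∃ t : ℕ → ℝ, ∀ i, t i = (u i - b) / (1 - 2 * b) := ⟨_, fun _ => rfl⟩
  have td : ∀ i, (1 - 2 * b) * (t (i + 1) - t i) = u (i + 1) - u i := fun i => by
    rw [ht, ht, ← sub_div, mul_div_cancel₀ _ b6.ne']
    ring
  have tl : ∀ i < m, t i < t (i + 1) := fun i hi =>
    sub_pos.1 ((mul_pos_iff_of_pos_left b6).1 (by rw [td]; exact sub_pos.2 (ul i hi)))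
  have dT : ∀ s ∈ Icc (0 : ℝ) 1, (![s, s] : Rn 2) ∈ bTri := fun s hs =>
    ⟨⟨hs.1, le_rfl, hs.2⟩, Or.inr (Or.inl rfl)⟩
  have dβ : ∀ s ∈ Icc (0 : ℝ) 1, β ![s, s] = γ (b + (1 - 2 * b) * s) := fun s hs =>
    kβ _ (dT s hs).1 _ (Or.inr (Or.inl ⟨rfl, rfl⟩))
  have dg : ∀ i < m, ∀ s ∈ Icc (0 : ℝ) 1, s ∈ Icc (t i) (t (i + 1)) →
      β ![s, s] = seg (v i) (v (i + 1)) ((s - t i) / (t (i + 1) - t i)) := by
    intro i hi s hs hs'
    have k1 := hs'.1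
    have k2 := hs'.2
    rw [ht, div_le_iff₀ b6] at k1
    rw [ht, le_div_iff₀ b6] at k2
    rw [dβ s hs, pc i hi _ ⟨by linarith only [k1], by linarith only [k2]⟩, ← td,
      ← mul_div_mul_left (s - t i) _ b6.ne', mul_sub _ s, ht i, mul_div_cancel₀ _ b6.ne']
    exact congrArg _ (congrArg (· / _) (by ring))
  have len : ∀ i < m, ‖v (i + 1) - v i‖ = P * (1 - 2 * b) * (t (i + 1) - t i) := fun i hi => by
    rw [← ud i hi, ← td, mul_assoc]
  have low : ∀ i < m, r * (t (i + 1) - t i) ≤ ‖v (i + 1) - v i‖ := fun i hi => by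
    rw [len i hi]
    exact mul_le_mul_of_nonneg_right (by linarith only [P1, h0, b0, b1, mul_pos_of_neg_of_neg (Mathlib.Tactic.Linarith.sub_neg_of_lt h0) (Mathlib.Tactic.Linarith.sub_neg_of_lt b0), mul_nonneg_of_nonpos_of_nonpos (le_of_lt (Mathlib.Tactic.Linarith.sub_neg_of_lt h0)) (Mathlib.Tactic.Linarith.sub_nonpos_of_le b1), mul_nonneg_of_nonpos_of_nonpos (Mathlib.Tactic.Linarith.sub_nonpos_of_le P1) (Mathlib.Tactic.Linarith.sub_nonpos_of_le b1)]) (sub_pos.2 (tl i hi)).le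
  have t0 : t 0 ≤ 0 := by
    rw [ht, u0]
    exact div_nonpos_of_nonpos_of_nonneg (by linarith only [b0]) b6.le
  have tm : 1 ≤ t m := by
    rw [ht, um, le_div_iff₀ b6]
    linarith only [b0]
  refine ⟨b, χ, t, fun i => (fun z : ℝ × ℝ => ![b, 1 - b] + z.1 • (![z.2, z.2] - ![b, 1 - b])) ''
    (Icc 0 1 ×ˢ (Icc 0 1 ∩ Icc (t i) (t (i + 1)))), tχ, bχ, bβ.congr eχ.symm, tl, t0, tm, b0.le,
    ?_, ?_, fun i hi s hs hs' => (eχ (dT s hs)).trans (dg i hi s hs hs'), ?_, low, ?_, ?_, ?_, ?_,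
    ?_, ?_⟩
  · have k1 := td 0
    have k2 : (1 - 2 * b) * t 0 = -b := by rw [ht, u0, mul_div_cancel₀ _ b6.ne', zero_sub]
    rw [u0] at k1
    refine le_of_mul_le_mul_left ?_ b6
    rw [mul_add, k2, mul_left_comm, zero_add 1] at *
    rw [k1]
    linarith only [b2, b0, mul_pos_of_neg_of_neg (Mathlib.Tactic.Linarith.sub_neg_of_lt b0) (Mathlib.Tactic.Linarith.sub_neg_of_lt b0)]
  · have k1 := td (m - 1)
    have k2 : (1 - 2 * b) * t m = 1 - b := by rw [ht, um, mul_div_cancel₀ _ b6.ne']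
    rw [m2, um] at k1
    refine le_of_mul_le_mul_left ?_ b6
    rw [mul_sub, k2, mul_left_comm, k1]
    linarith only [b4, b0, mul_pos_of_neg_of_neg (Mathlib.Tactic.Linarith.sub_neg_of_lt b0) (Mathlib.Tactic.Linarith.sub_neg_of_lt b0)]
  · rintro q hq (k | k)
    · obtain ⟨a1, a2, a3⟩ := hq.1
      have k1 : 0 ≤ b * (1 - q 1) := by linarith only [b0, a3, mul_nonneg_of_nonpos_of_nonpos (le_of_lt (Mathlib.Tactic.Linarith.sub_neg_of_lt b0)) (Mathlib.Tactic.Linarith.sub_nonpos_of_le a3)]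
      have k2 : b * (1 - q 1) ≤ b := by linarith only [b0, k, a2, Mathlib.Tactic.Linarith.mul_zero_eq (Mathlib.Tactic.Linarith.sub_neg_of_lt b0) (sub_eq_zero_of_eq k), mul_nonneg_of_nonpos_of_nonpos (le_of_lt (Mathlib.Tactic.Linarith.sub_neg_of_lt b0)) (Mathlib.Tactic.Linarith.sub_nonpos_of_le a2)]
      refine ⟨0, h.pos, b * (1 - q 1) / u 1, ⟨div_nonneg k1 w0.le, (div_le_one w0).2 (k2.trans b3)⟩,
        Or.inl ((div_le_iff₀ w0).2 (by linarith only [b0, b2, k2])), ?_⟩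
      rw [eχ hq, kβ q hq.1 _ (Or.inl ⟨k, rfl⟩), pc 0 h.pos _ ⟨u0.le.trans k1, k2.trans b3⟩, u0,
        sub_zero, sub_zero]
    · obtain ⟨a1, a2, a3⟩ := hq.1
      have k1 : 0 ≤ b * q 0 := by linarith only [b0, a1, mul_nonneg_of_nonpos_of_nonpos (le_of_lt (Mathlib.Tactic.Linarith.sub_neg_of_lt b0)) (Mathlib.Tactic.Linarith.sub_nonpos_of_le a1)]
      have k2 : b * q 0 ≤ b := by linarith only [b0, k, a2, Mathlib.Tactic.Linarith.mul_zero_eq (Mathlib.Tactic.Linarith.sub_neg_of_lt b0) (sub_eq_zero_of_eq k), mul_nonneg_of_nonpos_of_nonpos (le_of_lt (Mathlib.Tactic.Linarith.sub_neg_of_lt b0)) (Mathlib.Tactic.Linarith.sub_nonpos_of_le a2)]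
      refine ⟨m - 1, m1, (1 - b * q 0 - u (m - 1)) / (1 - u (m - 1)),
        ⟨div_nonneg (by linarith only [b5, k2]) w1.le, (div_le_one w1).2 (by linarith only [k1])⟩,
        Or.inr ((le_div_iff₀ w1).2 (by linarith only [b0, b4, k2])), ?_⟩
      rw [eχ hq, kβ q hq.1 _ (Or.inr (Or.inr ⟨k, rfl⟩)),
        pc _ m1 _ ⟨by linarith only [b5, k2], by rw [m2, um]; linarith only [k1]⟩, m2, um]
  · intro i hi
    rw [len i hi]
    exact mul_le_mul_of_nonneg_right (by linarith only [P2, h0, b0, P1, mul_pos_of_neg_of_neg (Mathlib.Tactic.Linarith.sub_neg_of_lt h0) (Mathlib.Tactic.Linarith.sub_neg_of_lt b0), mul_nonneg_of_nonpos_of_nonpos (Mathlib.Tactic.Linarith.sub_nonpos_of_le P1) (le_of_lt (Mathlib.Tactic.Linarith.sub_neg_of_lt b0))]) (sub_pos.2 (tl i hi)).le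
  · intro i _
    refine ((isCompact_Icc.prod (isCompact_Icc.inter isCompact_Icc)).image ?_).isClosed
    fun_prop
  · rintro i - _ ⟨⟨τ, s⟩, ⟨hτ, hs, -⟩, rfl⟩
    exact zc_cvx.add_smul_sub_mem ⟨b0.le, by simp; linarith only [b0, b1], by simp; linarith only [b0]⟩ (dT s hs).1 hτ
  · intro q hq
    obtain ⟨x, ⟨⟨a1, a2, a3⟩, k | k | k⟩, τ, hτ, rfl⟩ := rad q hq
    · refine Or.inr (Or.inl ?_)
      change b + τ * (x 0 - b) ≤ b
      rw [k]
      linarith only [b0, hτ, hτ.1, mul_nonneg_of_nonpos_of_nonpos (le_of_lt (Mathlib.Tactic.Linarith.sub_neg_of_lt b0)) (Mathlib.Tactic.Linarith.sub_nonpos_of_le hτ.left)]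
    · obtain ⟨i, hi, k1⟩ := zfind' (t0.trans a1) h.pos ((a2.trans a3).trans tm)
      refine Or.inl ⟨i, hi, (τ, x 0), ⟨hτ, ⟨a1, a2.trans a3⟩, k1⟩, ?_⟩
      simp only [(p2c_ext.2 ⟨rfl, k⟩ : ![x 0, x 0] = x)]
    · refine Or.inr (Or.inr ?_)
      change 1 - b ≤ 1 - b + τ * (x 1 - (1 - b))
      rw [k]
      linarith only [b0, hτ, hτ.1, mul_nonneg_of_nonpos_of_nonpos (le_of_lt (Mathlib.Tactic.Linarith.sub_neg_of_lt b0)) (Mathlib.Tactic.Linarith.sub_nonpos_of_le hτ.left)]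
  · rintro i - j - _ ⟨⟨τ, s⟩, ⟨hτ, hs, -⟩, rfl⟩ _ ⟨⟨τ', s'⟩, ⟨hτ', hs', -⟩, rfl⟩
    simp only at hτ hs hτ' hs' ⊢
    rw [kχ _ (dT s hs) τ hτ.1, kχ _ (dT s' hs') τ' hτ'.1]
    have n0 := norm_le_pi_norm ((![b, 1 - b] + τ • (![s, s] - ![b, 1 - b]) : Rn 2) -
      (![b, 1 - b] + τ' • (![s', s'] - ![b, 1 - b]))) 0
    have n1 := norm_le_pi_norm ((![b, 1 - b] + τ • (![s, s] - ![b, 1 - b]) : Rn 2) -
      (![b, 1 - b] + τ' • (![s', s'] - ![b, 1 - b]))) 1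
    have N0 := (norm_nonneg _).trans n0
    generalize ‖(![b, 1 - b] + τ • (![s, s] - ![b, 1 - b]) : Rn 2) -
      (![b, 1 - b] + τ' • (![s', s'] - ![b, 1 - b]))‖ = N at n0 n1 N0
    obtain ⟨k1, k2⟩ := zc_r1 (τ := τ) (τ' := τ') (s := s) (s' := s') (N := N) b0 b1 n0 n1
    have k3 : τ * |s - s'| ≤ 5 * N := by
      rw [← abs_of_nonneg hτ.1, ← abs_mul, (by ring : τ * (s - s') = (τ * s - τ' * s') -
        (τ - τ') * s')]
      refine (abs_sub _ _).trans ?_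
      rw [abs_mul, abs_of_nonneg hs'.1]
      (refine le_of_not_gt fun h_nl => ?_; linarith only [h_nl, k1, k2, b0, b1, hs', hs'.2, abs_nonneg (τ - τ'), mul_pos_of_neg_of_neg (Mathlib.Tactic.Linarith.sub_neg_of_lt b0) (Mathlib.Tactic.Linarith.sub_neg_of_lt h_nl), mul_nonneg_of_nonpos_of_nonpos (Mathlib.Tactic.Linarith.sub_nonpos_of_le b1) (le_of_lt (Mathlib.Tactic.Linarith.sub_neg_of_lt h_nl)), mul_nonneg_of_nonpos_of_nonpos (Mathlib.Tactic.Linarith.sub_nonpos_of_le hs'.right) (Mathlib.Tactic.Linarith.sub_nonpos_of_le (abs_nonneg (τ - τ')))])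
    have k4 := lip (b + (1 - 2 * b) * s) (b + (1 - 2 * b) * s')
    rw [← dβ s hs, ← dβ s' hs', add_sub_add_left_eq_sub, ← mul_sub, abs_mul, abs_of_pos b6] at k4
    have k5 := hcl _ (bβ.mapsTo (dT s' hs'))
    rw [(by module : c + τ • (β ![s, s] - c) - (c + τ' • (β ![s', s'] - c)) =
      τ • (β ![s, s] - β ![s', s']) + (τ - τ') • (β ![s', s'] - c))]
    refine (norm_add_le _ _).trans ?_
    rw [norm_smul, norm_smul, Real.norm_of_nonneg hτ.1, Real.norm_eq_abs]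
    have k6 : τ * ‖β ![s, s] - β ![s', s']‖ ≤ P * (5 * N) := by
      refine (mul_le_mul_of_nonneg_left k4 hτ.1).trans ?_
      rw [mul_left_comm]
      refine mul_le_mul_of_nonneg_left (le_trans ?_ k3) (by linarith only [h0, P1])
      exact mul_le_mul_of_nonneg_left (by linarith only [b0, abs_nonneg (s - s'), mul_nonneg_of_nonpos_of_nonpos (le_of_lt (Mathlib.Tactic.Linarith.sub_neg_of_lt b0)) (Mathlib.Tactic.Linarith.sub_nonpos_of_le (abs_nonneg (s - s')))]) hτ.1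
    have k7 : |τ - τ'| * ‖β ![s', s'] - c‖ ≤ 3 * N * R :=
      mul_le_mul k1 k5 (norm_nonneg _) (by positivity)
    have k8 : R ≤ R ^ 2 / r := by
      rw [le_div_iff₀ h0]
      linarith only [h0, rR, mul_nonneg_of_nonpos_of_nonpos (le_of_lt (Mathlib.Tactic.Linarith.sub_neg_of_lt h0)) (Mathlib.Tactic.Linarith.sub_nonpos_of_le rR), mul_nonneg_of_nonpos_of_nonpos (Mathlib.Tactic.Linarith.sub_nonpos_of_le rR) (Mathlib.Tactic.Linarith.sub_nonpos_of_le rR)]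
    rw [mul_div_assoc] at P2 ⊢
    linarith only [k6, k7, P2, N0, k8, h0, rR, mul_le_mul_of_nonneg_right P2 N0, mul_le_mul_of_nonneg_right k8 N0,
      mul_nonneg (h0.le.trans (rR.trans k8)) N0]
  · rintro i hi _ ⟨⟨τ, s⟩, ⟨hτ, hs, hs1⟩, rfl⟩ _ ⟨⟨τ', s'⟩, ⟨hτ', hs', hs1'⟩, rfl⟩
    simp only at hτ hs hτ' hs' hs1 hs1' ⊢
    have k5 := hcl _ (bβ.mapsTo (dT s hs))
    rw [kχ _ (dT s hs) τ hτ.1, kχ _ (dT s' hs') τ' hτ'.1, dg i hi s' hs' hs1']
    rw [dg i hi s hs hs1] at k5 ⊢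
    have k0 := sub_pos.2 (tl i hi)
    have k1 := low i hi
    have k2 := h.det hr hi
    have l0 : 0 < ‖v (i + 1) - v i‖ := norm_pos_iff.2 (sub_ne_zero.2 (h.ne i hi).symm)
    simp only [seg] at k5 ⊢
    generalize v (i + 1) - v i = d at k1 k2 k5 l0
    generalize t (i + 1) - t i = Δ at k0 k1 k5
    obtain ⟨B, rfl⟩ : ∃ B : Rn 2, d = Δ • B := ⟨Δ⁻¹ • d, (smul_inv_smul₀ k0.ne' d).symm⟩
    simp only [smul_smul, div_mul_cancel₀ _ k0.ne'] at k5 ⊢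
    rw [norm_smul, Real.norm_of_nonneg k0.le] at k1 k2 l0
    generalize hξ : c + τ • (v i + (s - t i) • B - c) - (c + τ' • (v i + (s' - t i) • B - c)) = ξ
    have k3 : r ≤ ‖B‖ := le_of_mul_le_mul_right (by linarith only [k1]) k0
    have k4 : r * |τ - τ'| ≤ 2 * ‖ξ‖ := by
      have e : zdet ξ (Δ • B) = (τ - τ') * zdet (v i - c) (Δ • B) := by
        rw [← hξ]
        simp only [zdet, Pi.add_apply, Pi.sub_apply, Pi.smul_apply, smul_eq_mul]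
        ring
      have k6 := zdet_le ξ (Δ • B)
      rw [e, abs_mul, norm_smul, Real.norm_of_nonneg k0.le] at k6
      refine le_of_mul_le_mul_right ?_ l0
      linarith only [k6, k2, mul_le_mul_of_nonneg_left k2 (abs_nonneg (τ - τ'))]
    have k7 : |τ * s - τ' * s'| * ‖B‖ ≤ ‖ξ‖ + |τ - τ'| * (R + ‖B‖) := by
      have e : (τ * s - τ' * s') • B = ξ - (τ - τ') • (v i + (s - t i) • B - c - s • B) := by
        rw [← hξ]
        module
      rw [← Real.norm_eq_abs, ← norm_smul, e]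
      refine (norm_sub_le _ _).trans (add_le_add le_rfl ?_)
      rw [norm_smul, Real.norm_eq_abs]
      refine mul_le_mul_of_nonneg_left ((norm_sub_le _ _).trans (add_le_add k5 ?_)) (abs_nonneg _)
      rw [norm_smul, Real.norm_of_nonneg hs.1]
      exact mul_le_of_le_one_left (norm_nonneg _) hs.2
    have k8 := zc_r2 h0 rR k3 (norm_nonneg ξ) k4 k7
    refine le_trans (zc_norm ?_ ?_) k8
    · change |b + τ * (s - b) - (b + τ' * (s' - b))| ≤ _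
      rw [(by ring : b + τ * (s - b) - (b + τ' * (s' - b)) = (τ * s - τ' * s') - (τ - τ') * b)]
      refine (abs_sub _ _).trans ?_
      rw [abs_mul, abs_of_pos b0]
      (refine le_of_not_gt fun h_nl => ?_; linarith only [h_nl, b0, b1, abs_nonneg (τ - τ'), mul_pos_of_neg_of_neg (Mathlib.Tactic.Linarith.sub_neg_of_lt b0) (Mathlib.Tactic.Linarith.sub_neg_of_lt h_nl), mul_nonneg_of_nonpos_of_nonpos (Mathlib.Tactic.Linarith.sub_nonpos_of_le b1) (le_of_lt (Mathlib.Tactic.Linarith.sub_neg_of_lt h_nl)), mul_nonneg_of_nonpos_of_nonpos (Mathlib.Tactic.Linarith.sub_nonpos_of_le b1) (Mathlib.Tactic.Linarith.sub_nonpos_of_le (abs_nonneg (τ - τ')))])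
    · change |1 - b + τ * (s - (1 - b)) - (1 - b + τ' * (s' - (1 - b)))| ≤ _
      rw [(by ring : 1 - b + τ * (s - (1 - b)) - (1 - b + τ' * (s' - (1 - b))) =
        (τ * s - τ' * s') - (τ - τ') * (1 - b))]
      refine (abs_sub _ _).trans ?_
      rw [abs_mul, abs_of_pos (by linarith only [b0, b1] : 0 < 1 - b)]
      linarith only [b0, abs_nonneg (τ - τ'), mul_nonneg_of_nonpos_of_nonpos (le_of_lt (Mathlib.Tactic.Linarith.sub_neg_of_lt b0)) (Mathlib.Tactic.Linarith.sub_nonpos_of_le (abs_nonneg (τ - τ')))]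

end BEp
end
end

-- merged part: Pool.Agent.Work.MP_f0515e_an.P3.ZTame
section
/-! The intervals on the diagonal. -/

open Set Metric Filter Topology Function BEv MeasureTheory
open scoped NNReal ENNReal

noncomputable section
namespace BEp

variable {U : Set (Rn 2)} {m : ℕ} {v : ℕ → Rn 2} {r R η a : ℝ} {χ : Rn 2 → Rn 2}
  {t : ℕ → ℝ} {T : ℕ → Set (Rn 2)} {κ : Type} {N : κ → Set (Rn 3)} {f : κ → Rn 3 → ℝ → Rn 3}
  {c : κ → ℝ} {𝒥 : ℕ → κ → Set (ℝ × ℝ)} {G : Rn 2 → Rn 3}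

theorem zt_mono (h : ∀ i < m, t i < t (i + 1)) {i j : ℕ} (hij : i ≤ j) (hj : j ≤ m) :
    t i ≤ t j := by
  induction j, hij using Nat.le_induction with
  | base => exact le_rfl
  | succ k _ ih => exact (ih (by omega)).trans (h k (by omega)).le

theorem zt_same (h : ∀ i < m, t i < t (i + 1)) {i j : ℕ} (hi : i < m) (hj : j < m) {x : ℝ}
    (h1 : t i < x) (h2 : x < t (i + 1)) (h3 : x ∈ Icc (t j) (t (j + 1))) : i = j := by
  rcases lt_trichotomy i j with k | k | k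
  · have := zt_mono h (Nat.succ_le_of_lt k) hj.le
    linarith only [h2, this, h3, k, h3.1]
  · exact k
  · have := zt_mono h (Nat.succ_le_of_lt k) hi.le
    linarith only [k, h1, this, h3, h3.2]

theorem zt_in {x y : ℝ} (h : x < y) {j : ℝ × ℝ} (hj : 0 < j.2 ∧ 0 < j.1 - j.2 ∧ j.1 + j.2 < 1) :
    0 < (y - x) * j.2 ∧ x < x + (y - x) * j.1 - (y - x) * j.2 ∧
      x + (y - x) * j.1 + (y - x) * j.2 < y := by
  have := sub_pos.2 h
  exact ⟨mul_pos this hj.1, by linarith only [this, hj, mul_pos this hj.2.1],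
    by linarith only [this, hj, mul_pos this (sub_pos.2 hj.2.2)]⟩

theorem ztame (hm : 0 < m) (hC : ZC U m v r R η a χ t T) (hJ : ∀ i < m, IvW (𝒥 i))
    (hη : ∀ i < m, ∀ w, ∀ j ∈ 𝒥 i w, η < j.1 - j.2 ∧ j.1 + j.2 < 1 - η)
    (ht : ∀ i < m, TameC N f (G ∘ seg (v i) (v (i + 1))) (𝒥 i)) :
    IvW (zJ m t 𝒥) ∧ TameC N f (fun s => G (χ ![s, s])) (zJ m t 𝒥) ∧
      (∀ q ∈ bTri, q 0 = 0 ∨ q 1 = 1 → ∀ w, G (χ q) ∉ N w) ∧
      ∀ w, ∀ j ∈ zJ m t 𝒥 w, a < j.1 - j.2 ∧ j.1 + j.2 < 1 - a := by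
  have pos : ∀ i < m, ∀ w, ∀ j ∈ 𝒥 i w, 0 < j.2 ∧ 0 < j.1 - j.2 ∧ j.1 + j.2 < 1 :=
    fun i hi w j hj => (hJ i hi).ivs.pos j (mem_iUnion.2 ⟨w, hj⟩)
  have mg : ∀ w, ∀ j ∈ zJ m t 𝒥 w, a < j.1 - j.2 ∧ j.1 + j.2 < 1 - a := by
    rintro w _ ⟨i, hi, j, hj, rfl⟩
    obtain ⟨p1, p2, p3⟩ := pos i hi w j hj
    obtain ⟨e1, e2⟩ := hη i hi w j hj
    obtain ⟨-, k1, k2⟩ := zt_in (hC.lt i hi) ⟨p1, p2, p3⟩
    have k0 := sub_pos.2 (hC.lt i hi)
    have η1 : η ≤ 1 := by linarith only [p1, p3, e1]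
    constructor
    · rcases Nat.eq_zero_or_pos i with rfl | k
      · have := hC.mg0
        simp only [zero_add] at k0 ⊢
        linarith only [this, k0, e1, mul_pos k0 (sub_pos.2 e1)]
      · have k3 := zt_mono hC.lt (Nat.succ_le_of_lt k) hi.le
        have k4 := sub_pos.2 (hC.lt 0 hm)
        have := hC.mg0
        simp only [zero_add, Nat.succ_eq_add_one] at k3 k4 ⊢
        linarith only [this, k3, p1, k1, k4, p2, k2, p3, e1, mul_pos_of_neg_of_neg (Mathlib.Tactic.Linarith.sub_neg_of_lt p1) (Mathlib.Tactic.Linarith.sub_neg_of_lt k1), mul_pos_of_neg_of_neg (Mathlib.Tactic.Linarith.sub_neg_of_lt p1) (Mathlib.Tactic.Linarith.sub_neg_of_lt k4), mul_pos_of_neg_of_neg (Mathlib.Tactic.Linarith.sub_neg_of_lt p2) (Mathlib.Tactic.Linarith.sub_neg_of_lt k1), mul_pos_of_neg_of_neg (Mathlib.Tactic.Linarith.sub_neg_of_lt p2) (Mathlib.Tactic.Linarith.sub_neg_of_lt k2), mul_pos_of_neg_of_neg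 (Mathlib.Tactic.Linarith.sub_neg_of_lt p3) (Mathlib.Tactic.Linarith.sub_neg_of_lt k4), mul_pos_of_neg_of_neg (Mathlib.Tactic.Linarith.sub_neg_of_lt e1) (Mathlib.Tactic.Linarith.sub_neg_of_lt k4)]
    · have := hC.mg1
      rcases (Nat.succ_le_of_lt hi).eq_or_lt with k | k
      · subst k
        simp only [Nat.succ_eq_add_one, Nat.add_sub_cancel] at this ⊢
        linarith only [this, k0, e2, mul_pos k0 (sub_pos.2 e2)]
      · have k3 : t (i + 1) ≤ t (m - 1) := zt_mono hC.lt (by omega) (Nat.sub_le _ _)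
        have k4 := sub_pos.2 (hC.lt (m - 1) (by omega))
        rw [Nat.sub_add_cancel hm] at k4
        simp only
        linarith only [this, k3, p1, k2, k4, p2, p3, e1, mul_pos_of_neg_of_neg (Mathlib.Tactic.Linarith.sub_neg_of_lt p1) (Mathlib.Tactic.Linarith.sub_neg_of_lt k2), mul_pos_of_neg_of_neg (Mathlib.Tactic.Linarith.sub_neg_of_lt p1) (Mathlib.Tactic.Linarith.sub_neg_of_lt k4), mul_pos_of_neg_of_neg (Mathlib.Tactic.Linarith.sub_neg_of_lt p2) (Mathlib.Tactic.Linarith.sub_neg_of_lt k2), mul_pos_of_neg_of_neg (Mathlib.Tactic.Linarith.sub_neg_of_lt p3) (Mathlib.Tactic.Linarith.sub_neg_of_lt k2), mul_pos_of_neg_of_neg (Mathlib.Tactic.Linarith.sub_neg_of_lt p3) (Mathlib.Tactic.Linarith.sub_neg_of_lt k4), mul_pos_of_neg_of_neg (Mathlib.Tactic.Linarith.sub_neg_of_lt e1) (Mathlib.Tactic.Linarith.sub_neg_of_lt k4)]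
  refine ⟨⟨⟨?_, fun j hj => ?_, ?_⟩, ?_⟩, ?_, ?_, mg⟩
  · refine (Set.Finite.biUnion (finite_lt_nat m) fun i hi => ((hJ i hi).ivs.fin.image
      fun j' => (t i + (t (i + 1) - t i) * j'.1, (t (i + 1) - t i) * j'.2))).subset fun j hj => ?_
    obtain ⟨w, i, hi, j', hj', rfl⟩ := mem_iUnion.1 hj
    exact mem_biUnion hi ⟨j', mem_iUnion.2 ⟨w, hj'⟩, rfl⟩
  · obtain ⟨w, hj⟩ := mem_iUnion.1 hj
    obtain ⟨k1, k2⟩ := mg w j hj
    obtain ⟨i, hi, j', hj', rfl⟩ := hj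
    exact ⟨(zt_in (hC.lt i hi) (pos i hi w j' hj')).1, hC.a0.trans_lt k1, by linarith only [k2, hC, hC.a0]⟩
  · intro j hj k hk hne
    obtain ⟨w, i, hi, j', hj', rfl⟩ := mem_iUnion.1 hj
    obtain ⟨w', i', hi', k', hk', rfl⟩ := mem_iUnion.1 hk
    obtain ⟨-, a1, a2⟩ := zt_in (hC.lt i hi) (pos i hi w j' hj')
    obtain ⟨-, b1, b2⟩ := zt_in (hC.lt i' hi') (pos i' hi' w' k' hk')
    rcases lt_trichotomy i i' with e | rfl | e
    · have := zt_mono hC.lt (Nat.succ_le_of_lt e) hi'.le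
      exact Or.inl (by simp only; linarith only [a2, b1, this])
    · have k0 := sub_pos.2 (hC.lt i hi)
      refine ((hJ i hi).ivs.dis j' (mem_iUnion.2 ⟨w, hj'⟩) k' (mem_iUnion.2 ⟨w', hk'⟩)
        fun e => hne (by rw [e])).imp (fun e => ?_) fun e => ?_
      · simp only
        linarith only [k0, e, mul_pos k0 (sub_pos.2 e)]
      · simp only
        linarith only [k0, e, mul_pos k0 (sub_pos.2 e)]
    · have := zt_mono hC.lt (Nat.succ_le_of_lt e) hi.le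
      exact Or.inr (by simp only; linarith only [a1, b2, this])
  · rintro w w' _ ⟨i, hi, j', hj', rfl⟩ ⟨i', hi', k', hk', e⟩
    obtain ⟨a0, a1, a2⟩ := zt_in (hC.lt i hi) (pos i hi w j' hj')
    obtain ⟨b0, b1, b2⟩ := zt_in (hC.lt i' hi') (pos i' hi' w' k' hk')
    obtain ⟨e1, e2⟩ := Prod.mk.inj e
    obtain rfl : i = i' := zt_same hC.lt hi hi' (x := t i + (t (i + 1) - t i) * j'.1)
      (by linarith only [a0, a1]) (by linarith only [a0, a2]) ⟨by linarith only [b0, b1, e1], by linarith only [b0, b2, e1]⟩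
    have k0 := (sub_pos.2 (hC.lt i hi)).ne'
    obtain rfl : j' = k' :=
      Prod.ext (mul_left_cancel₀ k0 (add_left_cancel e1)) (mul_left_cancel₀ k0 e2)
    exact (hJ i hi).dis w w' j' hj' hk'
  · intro s hs w hw
    obtain ⟨i, hi, k⟩ := zfind' (hC.t0.trans hs.1) hm (hs.2.trans hC.tm)
    have k0 := sub_pos.2 (hC.lt i hi)
    simp only [hC.diag i hi s hs k] at hw ⊢
    obtain ⟨j, hj, σ, hσ, k1, k2⟩ := ht i hi _ ⟨div_nonneg (sub_nonneg.2 k.1) k0.le,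
      (div_le_one k0).2 (by linarith [k.2])⟩ w hw
    obtain ⟨k3, k4⟩ := mg w _ ⟨i, hi, j, hj, rfl⟩
    obtain ⟨a0, a1, a2⟩ := zt_in (hC.lt i hi) (pos i hi w j hj)
    refine ⟨_, ⟨i, hi, j, hj, rfl⟩, σ, hσ, ?_, fun x hx => ?_⟩
    · simp only
      rw [(by field_simp; ring : s - (t i + (t (i + 1) - t i) * j.1) =
        (t (i + 1) - t i) * ((s - t i) / (t (i + 1) - t i) - j.1)), abs_mul, abs_of_pos k0]
      exact mul_le_mul_of_nonneg_left k1 k0.le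
    · simp only at k3 k4 ⊢
      have x1 := mul_le_mul_of_nonneg_left hx.1 a0.le
      have x2 := mul_le_mul_of_nonneg_left hx.2 a0.le
      rw [hC.diag i hi _ ⟨by linarith only [k3, x1, hC, hC.a0], by linarith only [k4, x2, hC, hC.a0]⟩ ⟨by linarith only [a1, x1], by linarith only [a2, x2]⟩,
        (by field_simp; ring : (t i + (t (i + 1) - t i) * j.1 + (t (i + 1) - t i) * j.2 * x - t i) /
          (t (i + 1) - t i) = j.1 + j.2 * x)]
      exact k2 x hx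
  · intro q hq hl w hw
    obtain ⟨i, hi, s, hs, k, e⟩ := hC.leg q hq hl
    rw [e] at hw
    obtain ⟨j, hj, -, -, k1, -⟩ := ht i hi s hs w hw
    obtain ⟨e1, e2⟩ := hη i hi w j hj
    rw [abs_le] at k1
    rcases k with k | k <;> linarith only [k1, e1, k, e2, k1.1, k1.2]

theorem zK (hC : ZC U m v r R η a χ t T) (hJ : ∀ i < m, IvW (𝒥 i)) (hJ' : IvW (zJ m t 𝒥))
    {sp : ℕ → ℝ} (h0 : ∀ i < m, 0 ≤ sp i) (hs : ∀ i < m, ∀ w, ∀ j ∈ 𝒥 i w, c w ≤ sp i * j.2)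
    {g k : Rn 2 → Rn 3} {ε : ℝ} (h1 : Tame N f g (zJ m t 𝒥)) (h2 : Fre N a g)
    (h3 : Crush N f c Tri g k ε) : ZK m t (fun i => sp i / (t (i + 1) - t i)) a ε k := by
  obtain ⟨W, lam, k1, k2⟩ := h3
  have V0 : ∀ i < m, 0 ≤ sp i / (t (i + 1) - t i) := fun i hi =>
    div_nonneg (h0 i hi) (sub_pos.2 (hC.lt i hi)).le
  have key : ∀ i < m, ∀ w, ∀ j ∈ zJ m t 𝒥 w, ∀ x ∈ Icc (t i) (t (i + 1)), |x - j.1| ≤ j.2 →
      c w ≤ sp i / (t (i + 1) - t i) * j.2 := by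
    rintro i hi w _ ⟨i', hi', j, hj, rfl⟩ x hx e
    obtain ⟨-, a1, a2⟩ := zt_in (hC.lt i' hi') ((hJ i' hi').ivs.pos j (mem_iUnion.2 ⟨w, hj⟩))
    rw [abs_le] at e
    simp only at e ⊢
    obtain rfl : i' = i := zt_same hC.lt hi' hi (by linarith only [e, a1, e.1]) (by linarith [e.2]) hx
    rw [← mul_assoc, div_mul_cancel₀ _ (sub_pos.2 (hC.lt i' hi)).ne']
    exact hs i' hi w j hj
  have cv : ∀ (k : Fin 2) {S : Set ℝ}, Convex ℝ S → Convex ℝ {q : Rn 2 | q k ∈ S} := fun k _ h =>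
    h.linear_preimage (LinearMap.proj (R := ℝ) (φ := fun _ : Fin 2 => ℝ) k)
  have fr : ∀ B ⊆ Tri, Convex ℝ B → (∀ q ∈ B, q 0 ≤ a ∨ 1 - a ≤ q 1) → ∀ q ∈ B, ∀ q' ∈ B,
      ‖k q - k q'‖ ≤ ε * ‖q - q'‖ := by
    intro B hB cB hf q hq q' hq'
    have := zcore (c := c) (𝒥 := fun _ : κ => ∅)
      ⟨⟨by simp, by simp, by simp⟩, fun _ _ _ h => h.elim⟩ cB W
      (fun w hw => (k1 w hw).cont.mono hB)
      (fun w hw x hx => Or.inl ((k1 w hw).off x (hB hx) (h2 x (hB hx) (hf x hx) w)))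
      (v := fun _ => 0) (fun _ => le_rfl) (fun _ _ _ _ h => h.elim) q hq q' hq'
    have k3 := k2 q (hB hq) q' (hB hq')
    rw [dist_eq_norm] at k3
    linarith
  refine ⟨V0, fun i hi j hj q hq q' hq' a1 a2 a3 a4 => ?_, fun q hq q' hq' h => ?_⟩
  · have := zcore (c := c) hJ' ((zc_cvx.inter (cv 0 (convex_Icc (t i) (t (i + 1))))).inter
      (cv 1 (convex_Icc (t j) (t (j + 1))))) W
      (fun w hw => (k1 w hw).cont.mono fun x hx => hx.1.1)
      (fun w hw x hx => (k1 w hw).labT hJ' h1 x hx.1.1)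
      (v := ![sp i / (t (i + 1) - t i), sp j / (t (j + 1) - t j)])
      (Fin.forall_fin_two.2 ⟨V0 i hi, V0 j hj⟩)
      (Fin.forall_fin_two.2 ⟨fun w _ l hl ⟨x, hx, e⟩ => key i hi w l hl _ hx.1.2 e,
        fun w _ l hl ⟨x, hx, e⟩ => key j hj w l hl _ hx.2 e⟩) q ⟨⟨hq, a1⟩, a3⟩ q' ⟨⟨hq', a2⟩, a4⟩
    have k3 := k2 q hq q' hq'
    rw [dist_eq_norm] at k3
    exact k3.trans (add_le_add this le_rfl)
  · rcases h with h | h
    · exact fr _ inter_subset_left (zc_cvx.inter (cv 0 (convex_Iic a)))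
        (fun _ hx => Or.inl hx.2) q ⟨hq, h.1⟩ q' ⟨hq', h.2⟩
    · exact fr _ inter_subset_left (zc_cvx.inter (cv 1 (convex_Ici (1 - a))))
        (fun _ hx => Or.inr hx.2) q ⟨hq, h.1⟩ q' ⟨hq', h.2⟩

end BEp
end
end

-- merged part: Pool.Agent.Work.MP_f0515e_an.P3.ZMain
section
/-! The chart of a face and the export of the face estimates. -/

open Set Metric Filter Topology Function BEv MeasureTheory
open scoped NNReal ENNReal

noncomputable section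
namespace BEp

theorem zm_eta {S : Set (ℝ × ℝ)} (hS : S.Finite)
    (h : ∀ j ∈ S, 0 < j.2 ∧ 0 < j.1 - j.2 ∧ j.1 + j.2 < 1) :
    ∃ η : ℝ, 0 < η ∧ ∀ j ∈ S, η < j.1 - j.2 ∧ j.1 + j.2 < 1 - η := by
  have k : ∀ᶠ η in 𝓝[>] (0 : ℝ), ∀ j ∈ S, η < j.1 - j.2 ∧ j.1 + j.2 < 1 - η := by
    refine (eventually_all_finite hS).2 fun j hj => mem_nhdsWithin_of_mem_nhds ?_
    filter_upwards [Iio_mem_nhds (h j hj).2.1, Iio_mem_nhds (sub_pos.2 (h j hj).2.2)] with η h1 h2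
    exact ⟨h1, by linarith [mem_Iio.1 h2]⟩
  obtain ⟨η, h1, h2⟩ := (k.and self_mem_nhdsWithin).exists
  exact ⟨η, h2, h1⟩

theorem zm_term {r R p C0 s Δ l : ℝ} (h0 : 0 < r) (h1 : r ≤ R) (hp : 1 ≤ p) (hC : 10 ^ 7 ≤ C0)
    (s0 : 0 ≤ s) (hΔ : 0 < Δ) (hl : 0 < l) (h : l ≤ 16 * R ^ 2 / r * Δ) :
    ENNReal.ofReal (21 * R / r ^ 2 * (s / Δ)) ^ p * ENNReal.ofReal (20000 * R ^ 4 / r ^ 3) ≤
      ENNReal.ofReal (C0 * (R / r) ^ 6) ^ p * ENNReal.ofReal R * ENNReal.ofReal (s / l) ^ p := by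
  have R0 : 0 < R := h0.trans_le h1
  have p0 : 0 ≤ p := zero_le_one.trans hp
  have ρ1 : 1 ≤ R / r := (one_le_div h0).2 h1
  have ρ3 : 1 ≤ (R / r) ^ 3 := one_le_pow₀ ρ1
  have k1 : 21 * R / r ^ 2 * (s / Δ) ≤ 336 * (R / r) ^ 3 * (s / l) := by
    have k2 : s / Δ ≤ 16 * R ^ 2 / r * (s / l) := by
      rw [← mul_div_assoc, div_le_div_iff₀ hΔ hl]
      linarith only [h, s0, mul_le_mul_of_nonneg_left h s0]
    refine (mul_le_mul_of_nonneg_left k2 (by positivity)).trans (le_of_eq ?_)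
    field_simp
    ring
  have k3 : ENNReal.ofReal (20000 * (R / r) ^ 3) ≤ ENNReal.ofReal (20000 * (R / r) ^ 3) ^ p :=
    ENNReal.le_rpow_self_of_one_le (ENNReal.one_le_ofReal.2 (by linarith only [ρ3])) hp
  have k4 : 336 * (R / r) ^ 3 * (s / l) * (20000 * (R / r) ^ 3) ≤ C0 * (R / r) ^ 6 * (s / l) := by
    have : 0 ≤ (R / r) ^ 6 * (s / l) := by positivity
    linarith only [this, hC, mul_nonneg_of_nonpos_of_nonpos (Mathlib.Tactic.Linarith.sub_nonpos_of_le hC) (Mathlib.Tactic.Linarith.sub_nonpos_of_le this)]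
  calc _ ≤ ENNReal.ofReal (336 * (R / r) ^ 3 * (s / l)) ^ p *
        (ENNReal.ofReal (20000 * (R / r) ^ 3) ^ p * ENNReal.ofReal R) := by
        refine mul_le_mul' (ENNReal.rpow_le_rpow (ENNReal.ofReal_le_ofReal k1) p0) ?_
        rw [(by field_simp : 20000 * R ^ 4 / r ^ 3 = 20000 * (R / r) ^ 3 * R),
          ENNReal.ofReal_mul (by positivity)]
        exact mul_le_mul' k3 le_rfl
    _ ≤ ENNReal.ofReal (C0 * (R / r) ^ 6 * (s / l)) ^ p * ENNReal.ofReal R := by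
        rw [← mul_assoc, ← ENNReal.mul_rpow_of_nonneg _ _ p0, ← ENNReal.ofReal_mul (by positivity)]
        exact mul_le_mul' (ENNReal.rpow_le_rpow (ENNReal.ofReal_le_ofReal k4) p0) le_rfl
    _ = _ := by
        rw [ENNReal.ofReal_mul (by positivity), ENNReal.mul_rpow_of_nonneg _ _ p0, mul_right_comm]

theorem zm_out {Ω : Set (Rn 3)} (K : Kx Ω) {h : Ch} {m : ℕ} {v : ℕ → Rn 2} (hP : ZP h.U m v)
    (hv : ∀ i < m, K.Edge (h.φ (v i)) (h.φ (v (i + 1)))) {r R : ℝ} {o : Rn 2} (r0 : 0 < r)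
    (hr : ball o r ⊆ h.U) (hR : h.U ⊆ ball o R) {η a : ℝ} {χ : Rn 2 → Rn 2} {t : ℕ → ℝ}
    {T : ℕ → Set (Rn 2)} (hZ : ZC h.U m v r R η a χ t T) {sp : Set (Rn 3) → ℝ}
    (h0 : ∀ e, 0 ≤ sp e) {p τ C0 : ℝ} (hp : 1 ≤ p) (hτ : 0 < τ) (hC : 10 ^ 7 ≤ C0) :
    ∃ ε > 0, ∀ H : Rn 3 → Rn 3, ZK m t (fun i => sp (openSegment ℝ (h.φ (v i)) (h.φ (v (i + 1)))) /
      (t (i + 1) - t i)) a ε ((fun ξ => H (h.φ ξ)) ∘ χ) →
      FaceBd K h sp p (C0 * (R / r) ^ 6) R τ H ∧ LipBd K h sp (C0 * (R / r) ^ 6) τ H := by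
  have vc : ∀ i < m, segment ℝ (v i) (v (i + 1)) ⊆ closure h.U := fun i hi x hx =>
    frontier_subset_closure ((hP.cov x).2 ⟨i, hi, hx⟩)
  obtain ⟨ki, tk, hk⟩ := tp_linv pdsc_tri.poly hZ.tp hZ.bij.injOn
  obtain ⟨L, L1, hL⟩ := tk.exists_bound
  have hL' : ∀ q ∈ Tri, ∀ q' ∈ Tri, ‖q - q'‖ ≤ L * ‖χ q - χ q'‖ := fun q hq q' hq' => by
    have := hL (χ q) (χ q')
    rwa [hk q hq, hk q' hq'] at this
  have rR : r ≤ R := by
    by_contra k
    have R0 : 0 < R := by simpa using hR (hr (mem_ball_self r0))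
    have k1 : o + (fun _ => R) ∈ ball o r := by
      rw [mem_ball, dist_self_add_left, pi_norm_const, Real.norm_of_nonneg R0.le]
      exact not_le.1 k
    have k2 := hR (hr k1)
    rw [mem_ball, dist_self_add_left, pi_norm_const, Real.norm_of_nonneg R0.le] at k2
    exact lt_irrefl _ k2
  have R0 : 0 < R := r0.trans_le rR
  have L0 : 0 < L := by linarith
  obtain ⟨x, x0, x1, x2, x3⟩ : ∃ x : ℝ, 0 < x ∧ x ≤ 1 ∧ x ≤ τ ∧ x * (4 * R ^ 2) ≤ τ :=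
    ⟨min (min 1 τ) (τ / (4 * R ^ 2)), by positivity, (min_le_left _ _).trans (min_le_left _ _),
      (min_le_left _ _).trans (min_le_right _ _),
      (le_div_iff₀ (by positivity)).1 (min_le_right _ _)⟩
  have ε0 : 0 < x / (3 * L) := by positivity
  have εL : 3 * (x / (3 * L)) * L = x := by field_simp
  refine ⟨x / (3 * L), ε0, fun H hK => ?_⟩
  have l0 : ∀ i < m, 0 < ‖v (i + 1) - v i‖ := fun i hi =>
    norm_pos_iff.2 (sub_ne_zero.2 (hP.ne i hi).symm)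
  refine ⟨fun ψ _ hψ => ?_, fun L' L0' hs ξ hξ ξ' hξ' => ?_⟩
  · refine (zen hP r0 hr hR hZ L0.le hL' ε0.le hK hp).trans ?_
    rw [add_comm, εL]
    refine add_le_add ?_ ?_
    · refine le_trans ?_ (mul_le_mul' le_rfl (hP.sum_le (V := fun i => ENNReal.ofReal
        (sp (openSegment ℝ (h.φ (v i)) (h.φ (v (i + 1)))) / ‖v (i + 1) - v i‖) ^ p)
        fun i hi z hz => ENNReal.rpow_le_rpow ?_ (zero_le_one.trans hp)))
      · rw [Finset.mul_sum]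
        refine Finset.sum_le_sum fun i hi => ?_
        have hi' := Finset.mem_range.1 hi
        rw [← mul_assoc]
        exact mul_le_mul' (zm_term r0 rR hp hC (h0 _) (sub_pos.2 (hZ.lt i hi')) (l0 i hi')
          (hZ.up i hi')) le_rfl
      · rw [ENNReal.ofReal_div_of_pos (l0 i hi), ofReal_norm]
        exact ENNReal.div_le_of_le_mul (hψ _ _ (hv i hi) (vc i hi (left_mem_segment _ _ _))
          (vc i hi (right_mem_segment _ _ _)) z hz)
    · refine le_trans (mul_le_mul' (ENNReal.rpow_le_rpow_of_exponent_ge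
        (ENNReal.ofReal_le_one.2 x1) hp) le_rfl) ?_
      rw [ENNReal.rpow_one, ← ENNReal.ofReal_mul x0.le]
      exact ENNReal.ofReal_le_ofReal x3
  · refine (zlip hP r0 R0.le hZ hL' ε0.le hK (M := 16 * R ^ 2 / r * L') (fun i hi => ?_)
      ξ hξ ξ' hξ').trans (mul_le_mul_of_nonneg_right (add_le_add ?_ (by linarith only [hτ, x2, εL])) (norm_nonneg _))
    · rw [div_le_iff₀ (sub_pos.2 (hZ.lt i hi))]
      refine (hs _ _ (hv i hi) (vc i hi (left_mem_segment _ _ _))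
        (vc i hi (right_mem_segment _ _ _))).trans ?_
      rw [mul_right_comm, mul_comm L']
      exact mul_le_mul_of_nonneg_right (hZ.up i hi) L0'
    · have ρ1 : 1 ≤ R / r := (one_le_div r0).2 rR
      have ρ3 : (R / r) ^ 3 ≤ (R / r) ^ 6 := pow_le_pow_right₀ ρ1 (by norm_num)
      rw [(by field_simp; ring : 14 * R / r ^ 2 * (16 * R ^ 2 / r * L') = 224 * (R / r) ^ 3 * L')]
      refine mul_le_mul_of_nonneg_right ?_ L0'
      have : 0 ≤ (R / r) ^ 6 := by positivity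
      linarith only [ρ3, this, hC, mul_nonneg_of_nonpos_of_nonpos (Mathlib.Tactic.Linarith.sub_nonpos_of_le hC) (Mathlib.Tactic.Linarith.sub_nonpos_of_le this)]

theorem zface {Ω : Set (Rn 3)} {K : Kx Ω} {F : Set (Rn 3)} (hF : F ∈ K.cel 2) {h : Ch}
    (hh : h.Of F) {r R : ℝ} (hr : h.Rd r R) {κ : Type} {N : κ → Set (Rn 3)}
    {f : κ → Rn 3 → ℝ → Rn 3} {c : κ → ℝ} {sp : Set (Rn 3) → ℝ} (h0 : ∀ e, 0 ≤ sp e)
    {G : Rn 3 → Rn 3} (hE : ∀ e ∈ K.cel 1, e ⊆ closure F → ∃ a b, K.Edge a b ∧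
      e = openSegment ℝ a b ∧ EdT N f c (G ∘ seg a b) (sp e))
    {p τ C0 : ℝ} (hp : 1 ≤ p) (hτ : 0 < τ) (hC : 10 ^ 7 ≤ C0) :
    ∃ (χ : Rn 2 → Rn 2) (𝒥 : κ → Set (ℝ × ℝ)) (a ε : ℝ), TP χ ∧ BijOn χ Tri (closure h.U) ∧
      BijOn χ bTri (frontier h.U) ∧ IvW 𝒥 ∧ TameC N f (fun s => G (h.φ (χ ![s, s]))) 𝒥 ∧
      (∀ q ∈ bTri, q 0 = 0 ∨ q 1 = 1 → ∀ w, G (h.φ (χ q)) ∉ N w) ∧
      (∀ w, ∀ j ∈ 𝒥 w, a < j.1 - j.2 ∧ j.1 + j.2 < 1 - a) ∧ 0 < ε ∧
      ∀ (H : Rn 3 → Rn 3) (g : Rn 2 → Rn 3), Tame N f g 𝒥 → Fre N a g →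
        Crush N f c Tri g (fun q => H (h.φ (χ q))) ε →
        FaceBd K h sp p (C0 * (R / r) ^ 6) R τ H ∧ LipBd K h sp (C0 * (R / r) ^ 6) τ H := by
  obtain ⟨m, v, hP, hv⟩ := zpoly hF hh
  obtain ⟨r0, o, hr, hR⟩ := hr
  have vc : ∀ i < m, segment ℝ (v i) (v (i + 1)) ⊆ closure h.U := fun i hi x hx =>
    frontier_subset_closure ((hP.cov x).2 ⟨i, hi, hx⟩)
  have ed : ∀ i, ∃ 𝒥 : κ → Set (ℝ × ℝ), i < m → IvW 𝒥 ∧
      TameC N f ((fun ξ => G (h.φ ξ)) ∘ seg (v i) (v (i + 1))) 𝒥 ∧ ∀ w, ∀ j ∈ 𝒥 w,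
        c w ≤ sp (openSegment ℝ (h.φ (v i)) (h.φ (v (i + 1)))) * j.2 := by
    intro i
    by_cases hi : i < m
    swap
    · exact ⟨fun _ => ∅, fun k => absurd k hi⟩
    have e1 : (fun ξ => G (h.φ ξ)) ∘ seg (v i) (v (i + 1)) =
        G ∘ seg (h.φ (v i)) (h.φ (v (i + 1))) := funext fun s => congrArg G (h.seg _ _ s)
    obtain ⟨a, b, hab, e, k⟩ := hE _ ⟨(hv i hi).2, (hv i hi).dm⟩ (by
      rw [← seg_image_open, ← hh.cl]
      rintro _ ⟨s, hs, rfl⟩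
      exact ⟨_, vc i hi (seg_image _ _ ▸ mem_image_of_mem _ (Ioo_subset_Icc_self hs)),
        h.seg _ _ s⟩)
    have k' : EdT N f c (G ∘ seg (h.φ (v i)) (h.φ (v (i + 1))))
        (sp (openSegment ℝ (h.φ (v i)) (h.φ (v (i + 1))))) := by
      rcases (hv i hi).uniq e with ⟨e2, e3⟩ | ⟨e2, e3⟩
      · rw [← e2, ← e3] at k
        exact k
      · rw [← e2, ← e3] at k
        have e4 : (fun s => (G ∘ seg (h.φ (v (i + 1))) (h.φ (v i))) (1 - s)) =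
            G ∘ seg (h.φ (v i)) (h.φ (v (i + 1))) := funext fun s => congrArg G (by
          simp only [seg]
          module)
        exact e4 ▸ k.rev
    obtain ⟨𝒥, k⟩ := k'
    exact ⟨𝒥, fun _ => e1 ▸ k⟩
  choose 𝒥 hJ using ed
  obtain ⟨η, η0, hη⟩ := zm_eta (S := ⋃ i ∈ Iio m, ⋃ w, 𝒥 i w)
    ((finite_lt_nat m).biUnion fun i hi => (hJ i hi).1.ivs.fin) (fun j hj => by
      obtain ⟨i, hi, k⟩ := mem_iUnion₂.1 hj
      exact (hJ i hi).1.ivs.pos j k)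
  obtain ⟨a, χ, t, T, hZ⟩ := zchart hP r0 hr hR η0
  obtain ⟨t1, t2, t3, t4⟩ := ztame hP.pos hZ (fun i hi => (hJ i hi).1)
    (fun i hi w j hj => hη j (mem_iUnion₂.2 ⟨i, hi, mem_iUnion.2 ⟨w, hj⟩⟩))
    fun i hi => (hJ i hi).2.1
  obtain ⟨ε, ε0, hε⟩ := zm_out K hP hv r0 hr hR hZ h0 hp hτ hC
  exact ⟨χ, zJ m t 𝒥, a, ε, hZ.tp, hZ.bij, hZ.bd, t1, t2, t3, t4, ε0, fun H g g1 g2 g3 =>
    hε H (zK hZ (fun i hi => (hJ i hi).1) t1 (fun i _ => h0 _) (fun i hi => (hJ i hi).2.2)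
      g1 g2 g3)⟩

end BEp
end
end

-- merged part: Pool.Agent.Work.MP_f0515e_an.P3.ZX
section
/-! The chart of a face, independent of the walls. Walls of the same colour are disjoint, there are four colours. -/

open Set Metric Filter Topology Function BEv
open scoped NNReal

noncomputable section
namespace BEp

variable {n m : ℕ}

theorem zcore2 {κ : Type} {c : κ → ℝ} {𝒥 : κ → Set (ℝ × ℝ)} (hf : (⋃ w, 𝒥 w).Finite)
    (hp : ∀ w, ∀ j ∈ 𝒥 w, 0 < j.2) {B : Set (Rn 2)} (hB : Convex ℝ B) (W : Finset κ)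
    {lam : κ → Rn 2 → ℝ} (hc : ∀ w ∈ W, ContinuousOn (lam w) B) {act : κ → Rn 2 → Prop}
    (hl : ∀ w ∈ W, ∀ q ∈ B, |lam w q| = 1 ∨ act w q ∧ ∃ j ∈ 𝒥 w, ∃ k : Fin 2, ∃ σ : ℝ,
      (σ = 1 ∨ σ = -1) ∧ |q k - j.1| ≤ j.2 ∧ lam w q = σ * ((q k - j.1) / j.2))
    {col : κ → ℕ} (h4 : ∀ w, col w < 4)
    (ha : ∀ q w w', act w q → act w' q → col w = col w' → w = w')
    {v : Fin 2 → ℝ} (hv : ∀ k, 0 ≤ v k)
    (hs : ∀ k, ∀ w ∈ W, ∀ j ∈ 𝒥 w, (∃ q ∈ B, |q k - j.1| ≤ j.2) → c w ≤ v k * j.2) :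
    ∀ q ∈ B, ∀ q' ∈ B, ∑ w ∈ W, c w * |lam w q - lam w q'| ≤
      4 * (v 0 * |q 0 - q' 0| + v 1 * |q 1 - q' 1|) := by
  classical
  intro q hq q' hq'
  have hm := ZLab_mem hB hq hq'
  have hγ := ZLab_cont q q'
  have cl : ∀ w ∈ W, ContinuousOn (fun t => lam w (seg q q' t)) (Icc 0 1) := fun w hw =>
    (hc w hw).comp hγ.continuousOn hm
  refine (Finset.sum_le_sum fun w _ =>
    mul_le_mul_of_nonneg_right (le_max_left (c w) 0) (abs_nonneg _)).trans ?_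
  have h1 := zloc (D := fun s t => ∑ w ∈ W, max (c w) 0 * |lam w (seg q q' s) - lam w (seg q q' t)|)
    (M := 4 * (v 0 * |q 0 - q' 0| + v 1 * |q 1 - q' 1|)) (by simp) (fun s t => ?_)
    (continuousOn_finsetSum _ fun w hw =>
      continuousOn_const.mul (continuousOn_const.sub (cl w hw)).abs) fun s hs' => ?_
  · simpa [seg] using h1
  · rw [← Finset.sum_add_distrib]
    refine Finset.sum_le_sum fun w _ => ?_
    rw [← mul_add]
    exact mul_le_mul_of_nonneg_left (abs_sub_le _ _ _) (le_max_right _ _)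
  have f2 : ({1, -1} : Set ℝ).Finite := toFinite _
  filter_upwards [ZLab_near (W.finite_toSet.prod f2)
      (P := fun i t => lam i.1 (seg q q' t) = i.2) (fun i hi =>
        (cl _ hi.1).preimage_isClosed_of_isClosed isClosed_Icc isClosed_singleton) hs',
    ZLab_near ((W.finite_toSet.prod f2).prod (hf.prod (finite_univ (α := Fin 2))))
      (P := fun i t => lam i.1.1 (seg q q' t) =
        i.1.2 * ((seg q q' t i.2.2 - i.2.1.1) / i.2.1.2)) (fun i hi => by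
        have c1 : Continuous fun t => seg q q' t i.2.2 - i.2.1.1 :=
          ((continuous_apply _).comp hγ).sub continuous_const
        exact isClosed_Icc.isClosed_eq (cl _ hi.1.1)
          (continuous_const.mul (c1.div_const i.2.1.2)).continuousOn) hs',
    self_mem_nhdsWithin] with t h1 h2 hst
  have hst' : 0 ≤ t - s := sub_nonneg.2 (le_of_lt hst)
  have a0 : ∀ k, 0 ≤ v k * |q k - q' k| * (t - s) := fun k =>
    mul_nonneg (mul_nonneg (hv k) (abs_nonneg _)) hst'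
  have key : ∀ w ∈ W, max (c w) 0 * |lam w (seg q q' s) - lam w (seg q q' t)| ≤
      if act w (seg q q' t) then ∑ k, v k * |q k - q' k| * (t - s) else 0 := by
    intro w hw
    rcases hl w hw _ (hm h1.1) with e | ⟨e0, j, hj, k, σ, hσ, e1, e2⟩
    · have e' : lam w (seg q q' t) ∈ ({1, -1} : Set ℝ) := (abs_eq zero_le_one).1 e
      have e3 : lam w (seg q q' s) = lam w (seg q q' t) := h1.2 (w, _) ⟨hw, e'⟩ rfl
      rw [e3, sub_self, abs_zero, mul_zero]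
      exact ite_nonneg (Finset.sum_nonneg fun k _ => a0 k) le_rfl
    · have j0 := hp w j hj
      have e4 : lam w (seg q q' s) = σ * ((seg q q' s k - j.1) / j.2) :=
        h2.2 ((w, σ), j, k) ⟨⟨hw, hσ⟩, mem_iUnion.2 ⟨w, hj⟩, trivial⟩ e2
      rw [if_pos e0]
      refine le_trans ?_ (Finset.single_le_sum (fun k _ => a0 k) (Finset.mem_univ k))
      have e5 : |σ| = 1 := (abs_eq zero_le_one).2 hσ
      have e6 : seg q q' s k - seg q q' t k = (t - s) * (q k - q' k) := congrFun (ZLab_sub q q' s t) k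
      rw [e2, e4, ← mul_sub, ← sub_div, sub_sub_sub_cancel_right, e6, abs_mul, e5,
        one_mul, abs_div, abs_mul, abs_of_nonneg hst', abs_of_pos j0]
      refine (mul_le_mul_of_nonneg_right (max_le (hs k w hw j hj ⟨_, hm h1.1, e1⟩)
        (mul_nonneg (hv k) j0.le)) (by positivity)).trans_eq ?_
      field_simp
  refine (Finset.sum_le_sum key).trans ?_
  rw [← Finset.sum_filter, Finset.sum_const, nsmul_eq_mul, mul_assoc, add_mul,
    ← Fin.sum_univ_two fun k => v k * |q k - q' k| * (t - s)]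
  refine mul_le_mul_of_nonneg_right ?_ (Finset.sum_nonneg fun k _ => a0 k)
  have := Finset.card_le_card_of_injOn (s := W.filter fun w => act w (seg q q' t))
    (t := Finset.range 4) col (fun w _ => Finset.mem_coe.2 (Finset.mem_range.2 (h4 w)))
    fun w hw w' hw' => ha _ w w' (Finset.mem_filter.1 hw).2 (Finset.mem_filter.1 hw').2
  rw [Finset.card_range] at this
  exact_mod_cast this

theorem zx_four {Ω : Set (Rn 3)} {K : Kx Ω} {h : Ch} {sp : Set (Rn 3) → ℝ} {p C R τ : ℝ}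
    {H : Rn 3 → Rn 3} (hp : 1 ≤ p)
    (k : FaceBd K h (fun e => 4 * sp e) p C R τ H ∧ LipBd K h (fun e => 4 * sp e) C τ H) :
    FaceBd K h sp p (4 * C) R τ H ∧ LipBd K h sp (4 * C) τ H := by
  have p0 : 0 ≤ p := zero_le_one.trans hp
  refine ⟨fun ψ mψ hψ => (k.1 (fun z => ENNReal.ofReal 4 * ψ z) (mψ.const_mul _)
    fun ξ ξ' e a b z hz => ?_).trans_eq ?_, fun L L0 hs ξ hξ ξ' hξ' =>
      (k.2 (4 * L) (by positivity) (fun ξ ξ' e a b => ?_) ξ hξ ξ' hξ').trans_eq (by ring)⟩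
  · rw [ENNReal.ofReal_mul (by norm_num), mul_assoc]
    exact mul_le_mul' le_rfl (hψ ξ ξ' e a b z hz)
  · simp only [ENNReal.mul_rpow_of_nonneg _ _ p0]
    rw [MeasureTheory.lintegral_const_mul _ (mψ.pow_const p), ENNReal.ofReal_mul (by norm_num),
      ENNReal.mul_rpow_of_nonneg _ _ p0]
    ring
  · have := hs ξ ξ' e a b
    simp only
    linarith

theorem zchart2 {Ω : Set (Rn 3)} {K : Kx Ω} {F : Set (Rn 3)} (hF : F ∈ K.cel 2) {h : Ch}
    (hh : h.Of F) {r R : ℝ} (hr : h.Rd r R) {sp : Set (Rn 3) → ℝ} (h0 : ∀ e, 0 ≤ sp e) {d : ℝ}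
    (hd : 0 < d) {p C0 : ℝ} (hp : 1 ≤ p) (hC : 10 ^ 9 ≤ C0) :
    ∃ (χ : Rn 2 → Rn 2) (a : ℝ) (Λ : ℝ → ℝ), TP χ ∧ BijOn χ Tri (closure h.U) ∧
      BijOn χ bTri (frontier h.U) ∧ 0 < a ∧
      (∀ (κ : Type) (N : κ → Set (Rn 3)) (f : κ → Rn 3 → ℝ → Rn 3) (c : κ → ℝ) (G : Rn 3 → Rn 3),
        (∀ x y, K.Edge x y → openSegment ℝ x y ⊆ closure F → TameC N f (G ∘ seg x y)
          fun w => Jv d (fun _ => sp (openSegment ℝ x y)) (c w)) →
        TameC N f (fun s => G (h.φ (χ ![s, s]))) (fun w => Jv a Λ (c w)) ∧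
          ∀ q ∈ bTri, q 0 = 0 ∨ q 1 = 1 → ∀ w, G (h.φ (χ q)) ∉ N w) ∧
      ∀ τ > 0, ∃ ε > 0, ∀ (κ : Type) (N : κ → Set (Rn 3)) (f : κ → Rn 3 → ℝ → Rn 3) (c : κ → ℝ)
        (col : κ → ℕ) (𝒥 : κ → Set (ℝ × ℝ)) (g : Rn 2 → Rn 3) (H : Rn 3 → Rn 3),
        (∀ w, col w < 4) → (∀ y w w', y ∈ N w → y ∈ N w' → col w = col w' → w = w') →
        (⋃ w, 𝒥 w).Finite → (∀ w, 𝒥 w ⊆ Jv a Λ (c w)) → Tame N f g 𝒥 → FrX N a g →
        Crush N f c Tri g (fun q => H (h.φ (χ q))) ε →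
        FaceBd K h sp p (C0 * (R / r) ^ 6) R τ H ∧ LipBd K h sp (C0 * (R / r) ^ 6) τ H := by
  classical
  obtain ⟨m, v, hP, hv⟩ := zpoly hF hh
  obtain ⟨r0, o, hr, hR⟩ := hr
  obtain ⟨a, χ, t, T, hZ⟩ := zchart hP r0 hr hR (half_pos hd)
  have hm := hP.pos
  have vc : ∀ i < m, openSegment ℝ (h.φ (v i)) (h.φ (v (i + 1))) ⊆ closure F := fun i hi => by
    rw [← seg_image_open, ← hh.cl]
    rintro _ ⟨s, hs, rfl⟩
    exact ⟨_, frontier_subset_closure ((hP.cov _).2 ⟨i, hi,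
      seg_image _ _ ▸ mem_image_of_mem _ (Ioo_subset_Icc_self hs)⟩), h.seg _ _ s⟩
  obtain ⟨V, hV⟩ : ∃ V : ℕ → ℝ, ∀ i, V i =
    sp (openSegment ℝ (h.φ (v i)) (h.φ (v (i + 1)))) / (t (i + 1) - t i) := ⟨_, fun _ => rfl⟩
  have V0 : ∀ i < m, 0 ≤ V i := fun i hi => hV i ▸ div_nonneg (h0 _) (sub_pos.2 (hZ.lt i hi)).le
  obtain ⟨Λ, Λ1, Λ2⟩ : ∃ Λ : ℝ → ℝ, (∀ i < m, ∀ x, t i < x → x < t (i + 1) → Λ x = V i) ∧
      ∀ i < m, ∀ x ∈ Icc (t i) (t (i + 1)), Λ x ≤ V i := by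
    refine ⟨fun x => if k : ∃ i < m, t i < x ∧ x < t (i + 1) then V k.choose else 0,
      fun i hi x h1 h2 => ?_, fun i hi x hx => ?_⟩
    · have k : ∃ i < m, t i < x ∧ x < t (i + 1) := ⟨i, hi, h1, h2⟩
      simp only [dif_pos k]
      rw [zt_same hZ.lt k.choose_spec.1 hi k.choose_spec.2.1 k.choose_spec.2.2 ⟨h1.le, h2.le⟩]
    · by_cases k : ∃ i < m, t i < x ∧ x < t (i + 1)
      · simp only [dif_pos k]
        rw [zt_same hZ.lt k.choose_spec.1 hi k.choose_spec.2.1 k.choose_spec.2.2 hx]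
      · simp only [dif_neg k]
        exact V0 i hi
  have d0 := sub_pos.2 (hZ.lt 0 hm)
  have d1 := sub_pos.2 (hZ.lt (m - 1) (by omega))
  rw [Nat.sub_add_cancel hm] at d1
  rw [zero_add] at d0
  obtain ⟨e, e0, e1, e2⟩ : ∃ e : ℝ, 0 < e ∧ e ≤ d / 2 * (t 1 - t 0) ∧
      e ≤ d / 2 * (t m - t (m - 1)) :=
    ⟨min _ _, lt_min (by positivity) (by positivity), min_le_left _ _, min_le_right _ _⟩
  have a0 := hZ.a0
  refine ⟨χ, a + e, Λ, hZ.tp, hZ.bij, hZ.bd, by linarith only [e0, a0], fun κ N f c G hE => ⟨?_, ?_⟩,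
    fun τ hτ => ?_⟩
  · intro s hs w hw
    obtain ⟨i, hi, k⟩ := zfind' (hZ.t0.trans hs.1) hm (hs.2.trans hZ.tm)
    have k0 := sub_pos.2 (hZ.lt i hi)
    simp only [hZ.diag i hi s hs k, h.seg] at hw ⊢
    obtain ⟨j, ⟨p1, p2, p3, p4⟩, σ, hσ, k1, k2⟩ := hE _ _ (hv i hi) (vc i hi) _
      ⟨div_nonneg (sub_nonneg.2 k.1) k0.le, (div_le_one k0).2 (by linarith only [k, k.2])⟩ w hw
    obtain ⟨b0, b1, b2⟩ := zt_in (hZ.lt i hi) (j := j) ⟨p1, by linarith only [hd, p2], by linarith only [hd, p3]⟩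
    have k3 : a + e ≤ t i + (t (i + 1) - t i) * j.1 - (t (i + 1) - t i) * j.2 := by
      have := hZ.mg0
      rcases Nat.eq_zero_or_pos i with rfl | k
      · simp only [zero_add] at k0 ⊢
        linarith only [e1, this, p2, k0, mul_le_mul_of_nonneg_left p2 k0.le]
      · have k3 := zt_mono hZ.lt (Nat.succ_le_of_lt k) hi.le
        simp only [zero_add, Nat.succ_eq_add_one] at k3
        linarith only [d0, e1, b1, this, k3, p1, p2, p3, mul_pos_of_neg_of_neg (Mathlib.Tactic.Linarith.sub_neg_of_lt d0) (Mathlib.Tactic.Linarith.sub_neg_of_lt p1), mul_nonneg_of_nonpos_of_nonpos (le_of_lt (Mathlib.Tactic.Linarith.sub_neg_of_lt d0)) (Mathlib.Tactic.Linarith.sub_nonpos_of_le p2), mul_nonneg_of_nonpos_of_nonpos (le_of_lt (Mathlib.Tactic.Linarith.sub_neg_of_lt d0)) (Mathlib.Tactic.Linarith.sub_nonpos_of_le p3)]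
    have k4 : t i + (t (i + 1) - t i) * j.1 + (t (i + 1) - t i) * j.2 ≤ 1 - (a + e) := by
      have := hZ.mg1
      rcases (Nat.succ_le_of_lt hi).eq_or_lt with k | k
      · subst k
        simp only [Nat.succ_eq_add_one, Nat.add_sub_cancel] at this e2
        linarith only [this, e2, p3, k0, mul_le_mul_of_nonneg_left p3 k0.le]
      · have k3 : t (i + 1) ≤ t (m - 1) := zt_mono hZ.lt (by omega) (Nat.sub_le _ _)
        linarith only [d1, e2, b2, this, k3, p1, p2, p3, mul_pos_of_neg_of_neg (Mathlib.Tactic.Linarith.sub_neg_of_lt d1) (Mathlib.Tactic.Linarith.sub_neg_of_lt p1), mul_nonneg_of_nonpos_of_nonpos (le_of_lt (Mathlib.Tactic.Linarith.sub_neg_of_lt d1)) (Mathlib.Tactic.Linarith.sub_nonpos_of_le p2), mul_nonneg_of_nonpos_of_nonpos (le_of_lt (Mathlib.Tactic.Linarith.sub_neg_of_lt d1)) (Mathlib.Tactic.Linarith.sub_nonpos_of_le p3)]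
    refine ⟨(t i + (t (i + 1) - t i) * j.1, (t (i + 1) - t i) * j.2), ⟨b0, k3, k4, fun x hx => ?_⟩,
      σ, hσ, ?_, fun x hx => ?_⟩
    · rw [abs_le] at hx
      simp only at hx ⊢
      rw [Λ1 i hi x (by linarith only [b1, hx, hx.1]) (by linarith only [b2, hx, hx.2]), hV, ← mul_assoc,
        div_mul_cancel₀ _ k0.ne']
      exact p4 j.1 (by simpa using p1.le)
    · simp only
      rw [(by field_simp; ring : s - (t i + (t (i + 1) - t i) * j.1) =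
        (t (i + 1) - t i) * ((s - t i) / (t (i + 1) - t i) - j.1)), abs_mul, abs_of_pos k0]
      exact mul_le_mul_of_nonneg_left k1 k0.le
    · simp only
      have x1 := mul_le_mul_of_nonneg_left hx.1 b0.le
      have x2 := mul_le_mul_of_nonneg_left hx.2 b0.le
      rw [hZ.diag i hi _ ⟨by linarith only [e0, a0, k3, x1], by linarith only [e0, a0, k4, x2]⟩ ⟨by linarith only [b1, x1], by linarith only [b2, x2]⟩,
        (by field_simp; ring : (t i + (t (i + 1) - t i) * j.1 + (t (i + 1) - t i) * j.2 * x - t i) /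
          (t (i + 1) - t i) = j.1 + j.2 * x), h.seg]
      exact k2 x hx
  · intro q hq hl w hw
    obtain ⟨i, hi, s, hs, k, e⟩ := hZ.leg q hq hl
    rw [e, h.seg] at hw
    obtain ⟨j, ⟨-, p2, p3, -⟩, -, -, k1, -⟩ := hE _ _ (hv i hi) (vc i hi) s hs w hw
    rw [abs_le] at k1
    rcases k with k | k <;> linarith only [hd, p2, k1, k, p3, k1.1, k1.2]
  obtain ⟨ε, ε0, hε⟩ := zm_out K hP hv r0 hr hR hZ (sp := fun e => 4 * sp e)
    (fun e => mul_nonneg (by norm_num) (h0 e)) hp hτ (C0 := C0 / 4) (by linarith only [hC])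
  refine ⟨ε, ε0, fun κ N f c col 𝒥 g H c4 cd fJ sJ h1 h2 h3 => ?_⟩
  rw [(by ring : C0 * (R / r) ^ 6 = 4 * (C0 / 4 * (R / r) ^ 6))]
  refine zx_four hp (hε H ?_)
  obtain ⟨W, lam, k1, k2⟩ := h3
  have cv : ∀ (k : Fin 2) {S : Set ℝ}, Convex ℝ S → Convex ℝ {q : Rn 2 | q k ∈ S} := fun k _ h =>
    h.linear_preimage (LinearMap.proj (R := ℝ) (φ := fun _ : Fin 2 => ℝ) k)
  have fr : ∀ B ⊆ Tri, Convex ℝ B → (∀ q ∈ B, q 0 ≤ a ∨ 1 - a ≤ q 1) → ∀ q ∈ B, ∀ q' ∈ B,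
      ‖H (h.φ (χ q)) - H (h.φ (χ q'))‖ ≤ ε * ‖q - q'‖ := by
    intro B hB cB hf q hq q' hq'
    have := zcore (c := c) (𝒥 := fun _ : κ => ∅)
      ⟨⟨by simp, by simp, by simp⟩, fun _ _ _ h => h.elim⟩ cB W
      (fun w hw => (k1 w hw).cont.mono hB)
      (fun w hw x hx => Or.inl ((k1 w hw).off x (hB hx) fun k => by
        have := h2 x (hB hx) w k
        rcases hf x hx with k' | k' <;> linarith only [e0, this, k', this.1, this.2]))
      (v := fun _ => 0) (fun _ => le_rfl) (fun _ _ _ _ h => h.elim) q hq q' hq'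
    have k3 := k2 q (hB hq) q' (hB hq')
    rw [dist_eq_norm] at k3
    linarith only [this, k3]
  have key : ∀ i < m, ∀ w, ∀ j ∈ 𝒥 w, ∀ x ∈ Icc (t i) (t (i + 1)), |x - j.1| ≤ j.2 →
      c w ≤ V i * j.2 := fun i hi w j hj x hx e =>
    ((sJ w hj).2.2.2 x e).trans (mul_le_mul_of_nonneg_right (Λ2 i hi x hx) (sJ w hj).1.le)
  refine ⟨fun i hi => ?_, fun i hi j hj q hq q' hq' a1 a2 a3 a4 => ?_, fun q hq q' hq' h => ?_⟩
  · rw [mul_div_assoc, ← hV]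
    exact mul_nonneg (by norm_num) (V0 i hi)
  · have := zcore2 (c := c) fJ (fun w j hj => (sJ w hj).1)
      ((zc_cvx.inter (cv 0 (convex_Icc (t i) (t (i + 1))))).inter
      (cv 1 (convex_Icc (t j) (t (j + 1))))) W
      (fun w hw => (k1 w hw).cont.mono fun x hx => hx.1.1) (act := fun w q => g q ∈ N w)
      (fun w hw x hx => by
        by_cases hn : g x ∈ N w
        · obtain ⟨l, hl, k, σ, hσ, e1, e2⟩ := h1 x hx.1.1 w hn
          exact Or.inr ⟨hn, l, hl, k, σ, hσ, e1,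
            (k1 w hw).ins x hx.1.1 hn _ (ZLab_le hσ (sJ w hl).1 e1) e2⟩
        · exact Or.inl ((k1 w hw).off x hx.1.1 hn))
      c4 (fun q => cd (g q)) (v := ![V i, V j]) (Fin.forall_fin_two.2 ⟨V0 i hi, V0 j hj⟩)
      (Fin.forall_fin_two.2 ⟨fun w _ l hl ⟨x, hx, e⟩ => key i hi w l hl _ hx.1.2 e,
        fun w _ l hl ⟨x, hx, e⟩ => key j hj w l hl _ hx.2 e⟩) q ⟨⟨hq, a1⟩, a3⟩ q' ⟨⟨hq', a2⟩, a4⟩
    have k3 := k2 q hq q' hq'
    rw [dist_eq_norm] at k3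
    refine k3.trans (add_le_add (this.trans_eq ?_) le_rfl)
    simp only [mul_div_assoc, ← hV, Matrix.cons_val_zero, Matrix.cons_val_one]
    ring
  · rcases h with h | h
    · exact fr _ inter_subset_left (zc_cvx.inter (cv 0 (convex_Iic a)))
        (fun _ hx => Or.inl hx.2) q ⟨hq, h.1⟩ q' ⟨hq', h.2⟩
    · exact fr _ inter_subset_left (zc_cvx.inter (cv 1 (convex_Ici (1 - a))))
        (fun _ hx => Or.inr hx.2) q ⟨hq, h.1⟩ q' ⟨hq', h.2⟩

/-- A tame path which meets one wall at a time has a finite family of disjoint intervals. -/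
theorem edT_of {κ : Type} {N : κ → Set (Rn 3)} {f : κ → Rn 3 → ℝ → Rn 3} {x : κ → Rn 3 → ℝ}
    (hN : ∀ w, XFib (N w) (f w) (x w)) {γ : ℝ → Rn 3} (hi : InjOn γ (Icc 0 1)) {c : κ → ℝ}
    {d v c₀ : ℝ} (hd : 0 < d) (h0 : 0 < c₀) (hc : ∀ w, ∀ s ∈ Icc (0 : ℝ) 1, γ s ∈ N w → c₀ ≤ c w)
    (h1 : ∀ s ∈ Icc (0 : ℝ) 1, ∀ w w', γ s ∈ N w → γ s ∈ N w' → w = w')
    (h : TameC N f γ fun w => Jv d (fun _ => v) (c w)) : EdT N f c γ v := by
  let 𝒥 : κ → Set (ℝ × ℝ) := fun w => {j | j ∈ Jv d (fun _ => v) (c w) ∧ γ j.1 ∈ N w ∧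
    ∃ σ : ℝ, (σ = 1 ∨ σ = -1) ∧ ∀ t ∈ Icc (-1 : ℝ) 1, γ (j.1 + j.2 * t) = f w (γ j.1) (σ * t)}
  have sg : ∀ σ : ℝ, σ = 1 ∨ σ = -1 → ∀ t ∈ Icc (-1 : ℝ) 1, σ * t ∈ Icc (-1 : ℝ) 1 := by
    rintro σ (rfl | rfl) t ht
    · rwa [one_mul]
    · exact ⟨by linarith [ht.2], by linarith [ht.1]⟩
  have inn : ∀ w, ∀ j ∈ 𝒥 w, ∀ t ∈ Icc (-1 : ℝ) 1, j.1 + j.2 * t ∈ Icc (0 : ℝ) 1 := by
    rintro w j ⟨⟨p1, p2, p3, -⟩, -⟩ t ht
    exact ⟨by linarith only [p2, hd, p1, p3, ht, ht.1, mul_pos_of_neg_of_neg (Mathlib.Tactic.Linarith.sub_neg_of_lt hd) (Mathlib.Tactic.Linarith.sub_neg_of_lt hd), mul_pos_of_neg_of_neg (Mathlib.Tactic.Linarith.sub_neg_of_lt hd) (Mathlib.Tactic.Linarith.sub_neg_of_lt p1), mul_nonneg_of_nonpos_of_nonpos (le_of_lt (Mathlib.Tactic.Linarith.sub_neg_of_lt hd)) (Mathlib.Tactic.Linarith.sub_nonpos_of_le p2), mul_nonneg_of_nonpos_of_nonpos (le_of_lt (Mathlib.Tactic.Linarith.sub_neg_of_lt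 hd)) (Mathlib.Tactic.Linarith.sub_nonpos_of_le p3), mul_nonneg_of_nonpos_of_nonpos (le_of_lt (Mathlib.Tactic.Linarith.sub_neg_of_lt p1)) (Mathlib.Tactic.Linarith.sub_nonpos_of_le ht.left)], by linarith only [p3, hd, p1, p2, ht, ht.2, mul_pos_of_neg_of_neg (Mathlib.Tactic.Linarith.sub_neg_of_lt hd) (Mathlib.Tactic.Linarith.sub_neg_of_lt hd), mul_pos_of_neg_of_neg (Mathlib.Tactic.Linarith.sub_neg_of_lt hd) (Mathlib.Tactic.Linarith.sub_neg_of_lt p1), mul_nonneg_of_nonpos_of_nonpos (le_of_lt (Mathlib.Tactic.Linarith.sub_neg_of_lt hd)) (Mathlib.Tactic.Linarith.sub_nonpos_of_le p2), mul_nonneg_of_nonpos_of_nonpos (le_of_lt (Mathlib.Tactic.Linarith.sub_neg_of_lt hd)) (Mathlib.Tactic.Linarith.sub_nonpos_of_le p3), mul_nonneg_of_nonpos_of_nonpos (le_of_lt (Mathlib.Tactic.Linarith.sub_neg_of_lt p1)) (Mathlib.Tactic.Linarith.sub_nonpos_of_le ht.right)]⟩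
  have z0 : (0 : ℝ) ∈ Icc (-1 : ℝ) 1 := ⟨by norm_num, by norm_num⟩
  have z1 : (1 : ℝ) ∈ Icc (-1 : ℝ) 1 := ⟨by norm_num, le_rfl⟩
  have ctr : ∀ w, ∀ j ∈ 𝒥 w, j.1 ∈ Icc (0 : ℝ) 1 := fun w j hj => by simpa using inn w j hj 0 z0
  have same : ∀ w, ∀ j ∈ 𝒥 w, ∀ w', ∀ k ∈ 𝒥 w', ∀ s, |s - j.1| ≤ j.2 → |s - k.1| ≤ k.2 →
      j = k := by
    intro w j hj w' k hk s a1 a2
    have j0 := hj.1.1
    have k0 := hk.1.1
    have t1 : (s - j.1) / j.2 ∈ Icc (-1 : ℝ) 1 := by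
      simpa [abs_le] using ZLab_le (Or.inl rfl) j0 a1
    have t2 : (s - k.1) / k.2 ∈ Icc (-1 : ℝ) 1 := by
      simpa [abs_le] using ZLab_le (Or.inl rfl) k0 a2
    have s1 := inn w j hj _ t1
    obtain ⟨n1, σ, hσ, e1⟩ := hj.2
    obtain ⟨n2, σ', hσ', e2⟩ := hk.2
    have f1 := e1 _ t1
    have f2 := e2 _ t2
    rw [mul_div_cancel₀ _ j0.ne', add_sub_cancel] at f1 s1
    rw [mul_div_cancel₀ _ k0.ne', add_sub_cancel] at f2
    obtain rfl : w = w' := h1 s s1 w w' (f1 ▸ ((hN w).mem _ n1 _ (sg σ hσ _ t1)).1)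
      (f2 ▸ ((hN w').mem _ n2 _ (sg σ' hσ' _ t2)).1)
    have e3 : ∀ u ∈ Icc (-1 : ℝ) 1, f w (γ j.1) u = f w (γ k.1) u := fun u hu => by
      rw [← (hN w).idem _ n1 _ (sg σ hσ _ t1) u hu, ← (hN w).idem _ n2 _ (sg σ' hσ' _ t2) u hu,
        ← f1, ← f2]
    have e4 : j.1 = k.1 := by
      have b1 := e1 0 z0
      have b2 := e2 0 z0
      simp only [mul_zero, add_zero] at b1 b2
      exact hi (ctr w j hj) (ctr w k hk) (by rw [b1, b2, e3 0 z0])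
    have z2 : σ' * σ ∈ Icc (-1 : ℝ) 1 := by simpa using sg σ' hσ' _ (sg σ hσ 1 z1)
    have e5 : j.1 + j.2 * 1 = k.1 + k.2 * (σ' * σ) := by
      refine hi (inn w j hj 1 z1) (inn w k hk _ z2) ?_
      rw [e1 1 z1, e2 _ z2, e3 _ (sg σ hσ 1 z1)]
      refine congrArg _ ?_
      rcases hσ' with rfl | rfl <;> ring
    refine Prod.ext e4 ?_
    rcases hσ with rfl | rfl <;> rcases hσ' with rfl | rfl <;> linarith only [e4, e5, j0, k0]
  have dis : ∀ j ∈ ⋃ w, 𝒥 w, ∀ k ∈ ⋃ w, 𝒥 w, j ≠ k →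
      j.1 + j.2 < k.1 - k.2 ∨ k.1 + k.2 < j.1 - j.2 := by
    intro j hj k hk hne
    obtain ⟨w, hj⟩ := mem_iUnion.1 hj
    obtain ⟨w', hk⟩ := mem_iUnion.1 hk
    by_contra! e
    have j0 := hj.1.1
    have k0 := hk.1.1
    refine hne (same w j hj w' k hk (max (j.1 - j.2) (k.1 - k.2)) ?_ ?_) <;> rw [abs_le, max_def] <;>
      split_ifs <;> constructor <;> linarith [e.1, e.2]
  have spd : ∀ w, ∀ j ∈ 𝒥 w, c w ≤ v * j.2 := fun w j hj =>
    hj.1.2.2.2 j.1 (by simpa using hj.1.1.le)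
  refine ⟨𝒥, ⟨⟨?_, fun j hj => ?_, dis⟩, fun w w' j hj hj' =>
    h1 j.1 (ctr w j hj) w w' hj.2.1 hj'.2.1⟩, fun s hs w hw => ?_, spd⟩
  · have low : ∀ j ∈ ⋃ w, 𝒥 w, j.1 ∈ Icc (0 : ℝ) 1 ∧ 0 < j.2 ∧ c₀ ≤ v * j.2 := fun j hj => by
      obtain ⟨w, hj⟩ := mem_iUnion.1 hj
      exact ⟨ctr w j hj, hj.1.1, (hc w _ (ctr w j hj) hj.2.1).trans (spd w j hj)⟩
    refine Set.Finite.of_finite_image (f := fun j => ⌊v * j.1 / c₀⌋)
      ((finite_Icc 0 ⌊v / c₀⌋).subset ?_) fun j hj k hk e => ?_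
    · rintro _ ⟨j, hj, rfl⟩
      obtain ⟨a1, a2, a3⟩ := low j hj
      have v0 : 0 < v := (mul_pos_iff_of_pos_right a2).1 (h0.trans_le a3)
      exact ⟨Int.floor_nonneg.2 (div_nonneg (mul_nonneg v0.le a1.1) h0.le), Int.floor_mono
        (div_le_div_of_nonneg_right (mul_le_of_le_one_right v0.le a1.2) h0.le)⟩
    · by_contra hne
      obtain ⟨-, a2, a3⟩ := low j hj
      obtain ⟨-, b2, b3⟩ := low k hk
      have v0 : 0 < v := (mul_pos_iff_of_pos_right a2).1 (h0.trans_le a3)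
      have e1 := Int.abs_sub_lt_one_of_floor_eq_floor e
      rw [← sub_div, abs_div, abs_of_pos h0, div_lt_one h0, abs_lt] at e1
      rcases dis j hj k hk hne with k1 | k1 <;>
        linarith only [h0, a3, b3, e1, k1, v0, mul_lt_mul_of_pos_left k1 v0, e1.1, e1.2]
  · obtain ⟨w, ⟨p1, p2, p3, -⟩, -⟩ := mem_iUnion.1 hj
    exact ⟨p1, by linarith, by linarith⟩
  · obtain ⟨j, hj, σ, hσ, e1, e2⟩ := h s hs w hw
    have b1 := e2 0 z0
    simp only [mul_zero, add_zero] at b1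
    refine ⟨j, ⟨hj, b1 ▸ ((hN w).mem _ hw 0 z0).1, σ, hσ, fun t ht => ?_⟩, σ, hσ, e1, e2⟩
    rw [e2 t ht, b1, (hN w).idem _ hw 0 z0 _ (sg σ hσ t ht)]

end BEp
end
end
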