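import Pool.Agent.Work.MP_f0515e_an.P3.XExt
import Pool.Agent.Work.MP_f0515e_an.P3.XCr
import Pool.Agent.Work.MP_f0515e_an.P3.ZX

/-! Chords: the estimate along a tame path after crushing. -/

set_option linter.unusedVariables false

open Set Metric Filter Topology Function BEv
open scoped NNReal

noncomputable section
namespace BEp

variable {ν ι : Type} {V : Set (Rn 3)} {g C : ℝ} {Cf : (Rn 3 ≃L[ℝ] Rn 3) → ℝ} {P : ι → Pc} {T : TS}
  {c : Rn 3 → ℝ} {t : ν → Rn 3 → ℝ} {mv : ν → Rn 3 → ℝ → Rn 3} {dim : ν → ℕ} {b : ν → Rn 3}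
  {A : ν → Set ℝ} {ε η : ν → ℝ} {φ : ν → ℝ → ℝ} {Θ : Rn 3 → Rn 3}

theorem XChd2_loc {k : ℝ → Rn 3} (hk : ContinuousOn k (Icc 0 1)) {q : Seminorm ℝ (Rn 3)}
    (hq : Continuous q) {L : ℝ}
    (hl : ∀ x ∈ Ico (0 : ℝ) 1, ∀ᶠ s in 𝓝[>] x, q (k x - k s) ≤ L * (s - x)) :
    ∀ s ∈ Icc (0 : ℝ) 1, ∀ s' ∈ Icc (0 : ℝ) 1, q (k s - k s') ≤ L * |s - s'| := by
  have key : ∀ s ∈ Icc (0 : ℝ) 1, ∀ s' ∈ Icc (0 : ℝ) 1, s ≤ s' → q (k s - k s') ≤ L * (s' - s) := by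
    intro s hs s' hs' o
    refine IsClosed.Icc_subset_of_forall_mem_nhdsWithin (s := {x | q (k s - k x) ≤ L * (x - s)})
      (a := s) (b := s') ?_ (by simp) (fun x hx => ?_) (right_mem_Icc.2 o)
    · rw [inter_comm]
      exact isClosed_Icc.isClosed_le (hq.comp_continuousOn (continuousOn_const.sub
        (hk.mono (Icc_subset_Icc hs.1 hs'.2)))) (by fun_prop)
    · refine (hl x ⟨hs.1.trans hx.2.1, hx.2.2.trans_le hs'.2⟩).mono fun y hy => ?_
      have h1 : q (k s - k x) ≤ L * (x - s) := hx.1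
      have h2 := map_add_le_add q (k s - k x) (k x - k y)
      rw [sub_add_sub_cancel] at h2
      change q (k s - k y) ≤ L * (y - s)
      linarith
  intro s hs s' hs'
  rcases le_total s s' with o | o
  · rw [abs_sub_comm, abs_of_nonneg (sub_nonneg.2 o)]
    exact key s hs s' hs' o
  · rw [abs_of_nonneg (sub_nonneg.2 o), map_sub_rev]
    exact key s' hs' s hs o

theorem XChd2_lo {x : ℝ} (h : x ≤ -1) : clamp x 1 = -1 := by
  rw [clamp, min_eq_left (by linarith), max_eq_left h]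

theorem XChd2_hi {x : ℝ} (h : 1 ≤ x) : clamp x 1 = 1 := by
  rw [clamp, min_eq_right h, max_eq_right (by norm_num)]

theorem XChd2_off (h : Api V g C Cf P T c t mv dim b) (hA : XLev g A ε) (k : Cr V t g A ε η φ Θ)
    {y y' : Rn 3} (hy : y ∈ V) (hy' : y' ∈ V) {D E : ℝ} (h0 : 0 ≤ D)
    (hD : ∀ v w, 0 < t v y → 0 < t w y' → ‖b v - b w‖ ≤ D)
    (he : ∀ W : Finset ν, ∑ v ∈ W, η v * |t v y - t v y'| ≤ E)
    (e : ∀ w, ∀ a ∈ A w, clamp ((t w y - a) / ε w) 1 = clamp ((t w y' - a) / ε w) 1) :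
    ‖Θ y - Θ y'‖ ≤ C * D * E / g := by
  have g0 := h.g0.1
  have fW := h.lf1 {y, y'} (toFinite _).isCompact (by
    rintro _ (rfl | rfl) <;> assumption)
  have ps : ∀ z ∈ V, ∀ w, 0 < t w (Θ z) → 0 < t w z := fun z hz w l => by
    rw [k.eq z hz, ← (k.mono w).2.1] at l
    exact (k.mono w).1.lt_iff_lt.1 l
  refine (h.ylip _ (k.gm.bij.1 hy) _ (k.gm.bij.1 hy') D fW.toFinset (fun w hw => ?_)
    fun v w l l' => hD v w (ps y hy v l) (ps y' hy' w l')).trans ?_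
  · rw [Finite.mem_toFinset] at hw
    have z1 : t w y = 0 := le_antisymm (not_lt.1 fun l => hw ⟨y, Or.inl rfl, l⟩) (h.t01 w y hy).1
    have z2 : t w y' = 0 := le_antisymm (not_lt.1 fun l => hw ⟨y', Or.inr rfl, l⟩) (h.t01 w y' hy').1
    rw [k.eq y hy, k.eq y' hy', z1, z2]
  · rw [mul_div_assoc]
    refine mul_le_mul_of_nonneg_left ?_ (mul_nonneg (zero_le_one.trans h.C1) h0)
    refine le_trans ?_ (div_le_div_of_nonneg_right (he fW.toFinset) g0.le)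
    rw [Finset.sum_div]
    refine Finset.sum_le_sum fun w _ => ?_
    rw [k.eq y hy, k.eq y' hy']
    refine (k.lip w (hA.fin w).toFinset (Finite.coe_toFinset _) _ _).trans_eq ?_
    rw [Finset.sum_eq_zero fun a ha => by
      rw [e w a ((Finite.mem_toFinset _).1 ha), sub_self, abs_zero, mul_zero]]
    ring

theorem XChd2_in (h : Api V g C Cf P T c t mv dim b) (hA : XLev g A ε) (k : Cr V t g A ε η φ Θ)
    (σ : Set ν) {v : ν} {a : ℝ} {u y : Rn 3} (hη : ∀ w, η w ≤ η v) (hy : y ∈ gN V t A ε (v, a))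
    (hR : y ∈ Rg1 V t A ε σ {v}) (hL : Lin V t σ v u) {r r' : ℝ} (hr : r ∈ Icc (-1 : ℝ) 1)
    (hr' : r' ∈ Icc (-1 : ℝ) 1) (q : Seminorm ℝ (Rn 3)) :
    q (Θ (gf mv ε (v, a) y r) - Θ (gf mv ε (v, a) y r')) ≤ q u * (|r - r'| / (2 * (A v).ncard) +
      η v * |t v (gf mv ε (v, a) y r) - t v (gf mv ε (v, a) y r')| / g) := by
  classical
  obtain ⟨a1, a2, a3⟩ := h.gf_t hA hy hr
  obtain ⟨b1, b2, b3⟩ := h.gf_t hA hy hr'
  dsimp only at a2 a3 b2 b3
  have ha : a ∈ A v := hy.2.1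
  have e0 := hA.pos v
  have m1 := k.mid v a ha _ (XFb1_abs hA v a hr)
  have m2 := k.mid v a ha _ (XFb1_abs hA v a hr')
  have e := hL _ (k.gm.bij.1 b1) _ (k.gm.bij.1 a1)
    (fun w l => by rw [k.eq _ a1, k.eq _ b1, a3 w l, b3 w l]) fun w l => by
      rw [k.eq _ a1, k.eq _ b1, k.eq _ b1, a2, b2, b3 w l]
      refine ⟨fun o => ?_, fun o => ?_⟩
      · have := k.hi w _ fun p hp => (hR.2 w l p hp).1 o
        exact ⟨by linarith [hη w, m2.2], by linarith [hη w, m1.2]⟩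
      · have := k.lo w _ fun p hp => (hR.2 w l p hp).2 o
        exact ⟨by linarith [hη w, m2.1], by linarith [hη w, m1.1]⟩
  rw [e, map_smul_eq_mul, mul_comm, Real.norm_eq_abs]
  refine mul_le_mul_of_nonneg_left ?_ (apply_nonneg q u)
  rw [k.eq _ a1, k.eq _ b1]
  refine (k.lip v (hA.fin v).toFinset (Finite.coe_toFinset _) _ _).trans_eq ?_
  rw [Finset.sum_eq_single_of_mem a ((Finite.mem_toFinset _).2 ha) fun p hp o => ?_,
    ← ncard_eq_toFinset_card _ (hA.fin v)]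
  · have c1 : ∀ s ∈ Icc (-1 : ℝ) 1, clamp ((a + ε v * s - a) / ε v) 1 = s := fun s hs => by
      rw [add_sub_cancel_left, mul_div_cancel_left₀ _ e0.ne', clamp_eq_self (abs_le.2 hs)]
    conv_lhs => rw [a2, b2, c1 r hr, c1 r' hr', ← a2, ← b2]
    ring
  · have hp' := (Finite.mem_toFinset _).1 hp
    have n1 := abs_le.1 (XFb1_abs hA v a hr)
    have n2 := abs_le.1 (XFb1_abs hA v a hr')
    rw [a2, b2]
    rcases lt_or_gt_of_ne o with o | o
    · have := hA.dis v p hp' a ha o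
      rw [XChd2_hi ((one_le_div e0).2 (by linarith [n1.1])),
        XChd2_hi ((one_le_div e0).2 (by linarith [n2.1])), sub_self, abs_zero, mul_zero]
    · have := hA.dis v a ha p hp' o
      rw [XChd2_lo ((div_le_iff₀ e0).2 (by linarith [n1.2])),
        XChd2_lo ((div_le_iff₀ e0).2 (by linarith [n2.2])), sub_self, abs_zero, mul_zero]

theorem Api.chd_est (h : Api V g C Cf P T c t mv dim b) {A : ν → Set ℝ} {ε η : ν → ℝ}
    {φ : ν → ℝ → ℝ} {Θ : Rn 3 → Rn 3} (hA : XLev g A ε) (k : Cr V t g A ε η φ Θ) {η₀ : ℝ}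
    (hη : ∀ w, η w ≤ η₀) {γ : ℝ → Rn 3} (hc : ContinuousOn γ (Icc 0 1)) (hi : InjOn γ (Icc 0 1))
    (hV : ∀ s ∈ Icc (0 : ℝ) 1, γ s ∈ V) {Λ d x₀ : ℝ} (hx : 0 < x₀) (hd : 0 < d) (hΛ : 0 ≤ Λ)
    (hT : PT V t mv A ε (fun v => x₀ / (A v).ncard) γ d fun _ => Λ) {σ : Set ν} {v : ν} {u : Rn 3}
    (hL : ∀ s ∈ Icc (0 : ℝ) 1, ∀ ω, γ s ∈ gN V t A ε ω →
      ω.1 = v ∧ η v = η₀ ∧ γ s ∈ Rg1 V t A ε σ {v} ∧ Lin V t σ v u) {D δ : ℝ} (h0 : 0 ≤ D)
    (h1 : 0 ≤ δ) (hD : ∀ s ∈ Icc (0 : ℝ) 1, ∀ s' ∈ Icc (0 : ℝ) 1, ∀ v w, 0 < t v (γ s) →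
      0 < t w (γ s') → ‖b v - b w‖ ≤ D)
    (he : ∀ W : Finset ν, ∀ s ∈ Icc (0 : ℝ) 1, ∀ s' ∈ Icc (0 : ℝ) 1,
      ∑ v ∈ W, η v * |t v (γ s) - t v (γ s')| ≤ δ * |s - s'|) (q : Seminorm ℝ (Rn 3)) {M : ℝ}
    (hM : 0 ≤ M) (hq : ∀ z, q z ≤ M * ‖z‖) : ∀ s ∈ Icc (0 : ℝ) 1, ∀ s' ∈ Icc (0 : ℝ) 1,
      q (Θ (γ s) - Θ (γ s')) ≤ (q u * (Λ / (2 * x₀) + δ / g) + M * (C * D * δ / g)) * |s - s'| := by
  have g0 := h.g0.1
  have C0 : 0 ≤ C := zero_le_one.trans h.C1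
  have n0 : (0 : ℝ) < (A v).ncard := by
    exact_mod_cast (ncard_pos (hA.fin v)).2 (hA.ne v)
  have cq : Continuous q := by
    refine (LipschitzWith.of_dist_le_mul (K := ⟨M, hM⟩) fun x y => ?_).continuous
    rw [Real.dist_eq, dist_eq_norm]
    exact (abs_sub_map_le_sub q x y).trans (hq _)
  obtain ⟨𝒥, ⟨iv, -⟩, tc, sp⟩ := edT_of (c := fun ω : ν × ℝ => x₀ / (A ω.1).ncard) (h.fib hA) hi hd
    (div_pos hx n0) (fun ω s hs l => by rw [(hL s hs ω l).1])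
    (fun s hs ω ω' l l' => hA.uniq l l' ((hL s hs ω l).1.trans (hL s hs ω' l').1.symm)) hT
  have cK : IsCompact (γ '' Icc 0 1) := isCompact_Icc.image_of_continuousOn hc
  have fW := h.lf1 _ cK (image_subset_iff.2 hV)
  have fI := (fW.biUnion (t := fun w => (fun a => (w, a)) '' A w) fun w _ => (hA.fin w).image _).prod
    (toFinite ({1, -1} : Set ℝ))
  have q0 := apply_nonneg q u
  have p1 : 0 ≤ q u * (Λ / (2 * x₀) + δ / g) := by positivity
  have p2 : 0 ≤ M * (C * D * δ / g) := by positivity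
  refine XChd2_loc (k := fun s => Θ (γ s)) ((k.gm.ltp.contOn h.opn).comp hc hV) cq fun x hx' => ?_
  have x1 : x ∈ Icc (0 : ℝ) 1 := Ico_subset_Icc_self hx'
  filter_upwards [ZLab_near iv.fin (P := fun j s => |s - j.1| ≤ j.2) (fun j _ =>
      isClosed_Icc.inter (isClosed_le (by fun_prop) continuous_const)) hx',
    ZLab_near fI (P := fun i s => clamp ((t i.1.1 (γ s) - i.1.2) / ε i.1.1) 1 = i.2) (fun i _ =>
      isClosed_Icc.isClosed_eq (continuousOn_const.sup ((((((h.ltp i.1.1).contOn h.opn).comp hc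
        hV).sub continuousOn_const).div_const _).inf continuousOn_const)) continuousOn_const) hx',
    self_mem_nhdsWithin] with s k1 k2 o
  have o' : 0 ≤ s - x := sub_nonneg.2 (le_of_lt o)
  have ab : |x - s| = s - x := by rw [abs_sub_comm, abs_of_nonneg o']
  by_cases l : ∃ ω, γ s ∈ gN V t A ε ω
  · obtain ⟨⟨w, a⟩, l⟩ := l
    obtain ⟨e1, e2, e3, e4⟩ := hL s k1.1 _ l
    obtain rfl : w = v := e1
    obtain ⟨j, j1, ρ, j2, j3, j4⟩ := tc s k1.1 _ l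
    have jm : j ∈ ⋃ ω, 𝒥 ω := mem_iUnion.2 ⟨_, j1⟩
    have j0 := (iv.pos j jm).1
    have j5 := k1.2 j jm j3
    have f1 := j4 _ (ebas_div j5)
    have f2 := j4 _ (ebas_div j3)
    rw [mul_div_cancel₀ _ j0.ne', add_sub_cancel] at f1 f2
    have f3 := XChd2_in h hA k σ (fun w' => (hη w').trans e2.ge) l e3 e4
      (ebas_sg j2 (ebas_div j5)) (ebas_sg j2 (ebas_div j3)) q
    rw [← f1, ← f2, ← mul_sub, XFb1_sg j2, ← sub_div, sub_sub_sub_cancel_right, abs_div, ab,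
      abs_of_pos j0] at f3
    have f4 := he {w} x x1 s k1.1
    rw [Finset.sum_singleton, ab] at f4
    have f5 : x₀ / (A w).ncard ≤ Λ * j.2 := sp _ j j1
    have f6 : (s - x) / j.2 / (2 * (A w).ncard) ≤ Λ / (2 * x₀) * (s - x) := by
      rw [div_le_iff₀ n0] at f5
      rw [div_div, div_mul_eq_mul_div, div_le_div_iff₀ (by positivity) (by positivity)]
      nlinarith [mul_le_mul_of_nonneg_left f5 o']
    have f7 := mul_le_mul_of_nonneg_left
      (add_le_add f6 (div_le_div_of_nonneg_right f4 g0.le)) q0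
    have f8 := mul_nonneg p2 o'
    refine f3.trans (f7.trans ?_)
    have f9 : q u * (Λ / (2 * x₀) * (s - x) + δ * (s - x) / g) =
      q u * (Λ / (2 * x₀) + δ / g) * (s - x) := by ring
    rw [f9, add_mul]
    linarith
  · have f1 := XChd2_off h hA k (hV x x1) (hV s k1.1) h0 (hD x x1 s k1.1)
      (fun W => he W x x1 s k1.1) fun w a ha => ?_
    · rw [ab] at f1
      have f2 := (hq _).trans (mul_le_mul_of_nonneg_left f1 hM)
      have f3 := mul_nonneg p1 o'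
      have f4 : M * (C * D * (δ * (s - x)) / g) = M * (C * D * δ / g) * (s - x) := by ring
      rw [add_mul]
      linarith
    by_cases m : w ∈ {v | ∃ y ∈ γ '' Icc 0 1, 0 < t v y}
    · have e0 := hA.pos w
      have m1 : ε w < |t w (γ s) - a| := not_le.1 fun e => l ⟨(w, a), hV s k1.1, ha, e⟩
      have m2 : clamp ((t w (γ s) - a) / ε w) 1 ∈ ({1, -1} : Set ℝ) := by
        rcases lt_abs.1 m1 with e | e
        · exact Or.inl (XChd2_hi ((one_le_div e0).2 e.le))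
        · exact Or.inr (XChd2_lo ((div_le_iff₀ e0).2 (by linarith)))
      exact k2.2 ((w, a), _) ⟨mem_biUnion m ⟨a, ha, rfl⟩, m2⟩ rfl
    · have z : ∀ r ∈ Icc (0 : ℝ) 1, t w (γ r) = 0 := fun r hr =>
        le_antisymm (not_lt.1 fun e => m ⟨_, mem_image_of_mem _ hr, e⟩) (h.t01 w _ (hV r hr)).1
      rw [z x x1, z s k1.1]

end BEp
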