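import Pool.Agent.Work.MP_f0515e_an.P3.XChd1
import Pool.Agent.Work.MP_f0515e_an.P3.XCr
import Pool.Agent.Work.MP_f0515e_an.P3.ZX
import Pool.Agent.Work.MP_f0515e_an.P3.XChd2
import Pool.Agent.Work.MP_f0515e_an.P3.XExt

-- merged part: Pool.Agent.Work.MP_f0515e_an.P3.XFin1
section
-- merged part: Pool.Agent.Work.MP_f0515e_an.P3.XChd
section
/-! Chords. `kap`: at `G x` at most one class has `g / 2 ≤ dev` (first clause of `Api.chd`, `HIn.chd`); choose `κ` from the second clause. The pattern of `G (seg x y s)` is that of `G x` (`XCtx.sma`, `chd_ofs`). `var_right` with `e = G - aff` along the segment: `G (seg s') = G (seg s) + (s' - s) (y j - x j) • A (single j 1) + e s' - e s`, `‖y - x‖ = |y j - x j|`; where `t v` is off `[g / 2, 1 - g / 2]` the function `clq g` is locally constant.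
`chd_est`: `edT_of` gives finitely many intervals; use `zloc`. To the right of a point either the path is off all walls (all labels are constant by continuity; `Cr.lip`, `ylip`), or it runs in one fibre: the other coordinates are constant and `Lin` applies (`Cr.lo`, `hi`, `mid`). About 450 lines; two tasks. -/

open Set Metric Filter Topology Function BEv
open scoped NNReal

noncomputable section
namespace BEp

variable {n m : ℕ}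

variable {ν ι : Type} {V : Set (Rn 3)} {g C : ℝ} {Cf : (Rn 3 ≃L[ℝ] Rn 3) → ℝ} {P : ι → Pc} {T : TS}
  {c : Rn 3 → ℝ} {t : ν → Rn 3 → ℝ} {mv : ν → Rn 3 → ℝ → Rn 3} {dim : ν → ℕ} {b : ν → Rn 3}
  {Ω : Set (Rn 3)} {K : Kx Ω} {G : Rn 3 → Rn 3} {θ : Rn 3 → ℝ} {ch : Set (Rn 3) → Ch}
  {r R τ : Set (Rn 3) → ℝ}

end BEp
end
end

-- merged part: Pool.Agent.Work.MP_f0515e_an.P3.XMid2
section
/-! The state before crushing: barriers and chords. -/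

open Set Metric Filter Topology Function BEv
open scoped NNReal

noncomputable section
namespace BEp

variable {n m : ℕ}

variable {ν ι : Type} {V : Set (Rn 3)} {g C : ℝ} {Cf : (Rn 3 ≃L[ℝ] Rn 3) → ℝ} {P : ι → Pc} {T : TS}
  {c : Rn 3 → ℝ} {t : ν → Rn 3 → ℝ} {mv : ν → Rn 3 → ℝ → Rn 3} {dim : ν → ℕ} {b : ν → Rn 3}
  {Ω : Set (Rn 3)} {K : Kx Ω} {G : Rn 3 → Rn 3} {θ : Rn 3 → ℝ} {ch : Set (Rn 3) → Ch}
  {r R τ : Set (Rn 3) → ℝ}
  {τ' ℓ Λ sp : Set (Rn 3) → ℝ} {a r' : ν → ℕ} {A : ν → Set ℝ} {e : ν → ℝ} {Φ R₁ Ψ : Rn 3 → Rn 3}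
  {p C0 : ℝ}

theorem XMid2_inj (Q : Pc) : Injective Q.aff := fun _ _ h =>
  sub_left_injective (Q.A.injective (add_right_cancel h))

theorem XMid2_dev {s s' d d' : ℝ} (h : dev s ≤ d) (k : |s' - s| ≤ d') : dev s' ≤ d + d' := by
  obtain ⟨k1, k2⟩ := abs_le.1 k
  rcases min_le_iff.1 h with q | q
  · exact (min_le_left _ _).trans (by linarith)
  · exact (min_le_right _ _).trans (by linarith)

theorem XCtx.bar_mid (h : XCtx V g C P T t mv dim K G Cf c b θ ch r R τ) (hΦ : GM V Φ)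
    (bp : ∀ y ∈ V, y ∈ BP P ∨ Φ y ∈ BP P → XEq t y (Φ y)) (hΨ : GM V Ψ)
    (fix : ∀ y ∈ B0 P, Ψ y = y) {R' : Rn 3 → Rn 3} (hR : ∀ σ ∈ K.cells, BijOn R' σ σ) {i : ι}
    (hi : 2 ≤ (P i).I.card) : (fun z => Ψ (Φ (G (R' z)))) '' (P i).Bd = (P i).aff '' (P i).Bd ∧
      ∀ x ∈ (P i).Bd, ∀ x' ∈ (P i).Bd, Ψ (Φ (G (R' x))) = (P i).aff x' → (P i).Lat x x' := by
  obtain ⟨s1, s2, -⟩ := (P i).bd_sub
  have om : ∀ x ∈ (P i).Bd, x ∈ Ω := fun x hx => h.hin.QS i (s2 (s1 hx))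
  have rg : ∀ x ∈ (P i).Bd, G x = (P i).aff x := fun x hx => h.hin.rig i hi (s2 (s1 hx))
  have fw : ∀ x ∈ (P i).Bd, ∃ x' ∈ (P i).Bd,
      Ψ (Φ (G (R' x))) = (P i).aff x' ∧ (P i).Lat x x' := fun x hx => by
    have m1 : R' x ∈ K.cell x := (hR _ (K.cell_mem (om x hx))).mapsTo (K.mem x (om x hx))
    have m2 := h.cell_bd hi hx m1
    obtain ⟨v1, v2⟩ := h.api.bar i hi _ (s1 m2)
    obtain ⟨x', -, e1, e2, e3⟩ := v2 _ (hΦ.bij.mapsTo v1)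
      (bp _ v1 (Or.inl ⟨i, hi, mem_image_of_mem _ (s1 m2)⟩))
    refine ⟨x', e3 m2, ?_, (h.hin.lat i hi x (s1 hx) _ m1).trans e2⟩
    rw [rg _ m2, e1, fix _ ⟨i, hi, mem_image_of_mem _ (e3 m2)⟩]
  refine ⟨subset_antisymm ?_ ?_, fun x hx x' _ e => ?_⟩
  · rintro _ ⟨x, hx, rfl⟩
    obtain ⟨x', h1, h2, -⟩ := fw x hx
    exact ⟨x', h1, h2.symm⟩
  · rintro _ ⟨x', hx', rfl⟩
    obtain ⟨v1, v2⟩ := h.api.bar i hi _ (s1 hx')
    obtain ⟨y, hy, ey⟩ := hΦ.bij.surjOn v1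
    have q := bp y hy (Or.inr (ey ▸ ⟨i, hi, mem_image_of_mem _ (s1 hx')⟩))
    obtain ⟨x₁, -, e1, -, e3⟩ := v2 y hy fun v => ey ▸ (q v).symm
    obtain ⟨x, hx, ex⟩ := (hR _ (K.cell_mem (om _ (e3 hx')))).surjOn (K.mem _ (om _ (e3 hx')))
    refine ⟨x, h.cell_bd hi (e3 hx') hx, ?_⟩
    show Ψ (Φ (G (R' x))) = (P i).aff x'
    rw [ex, rg _ (e3 hx'), ← e1, ey, fix _ ⟨i, hi, mem_image_of_mem _ hx'⟩]
  · obtain ⟨x'', -, h2, h3⟩ := fw x hx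
    exact XMid2_inj _ (h2.symm.trans e) ▸ h3

theorem XCtx.line_mid [Finite ι] (h : XCtx V g C P T t mv dim K G Cf c b θ ch r R τ)
    (q : Pre3 V g P t mv dim K G τ' a r' A e Φ R₁ Λ)
    (x : XOut V t mv g P A e a r' (fun F : cF K P => Φ '' (G '' closure F.1))
      (fun F : cF K P => Φ '' (G '' (closure F.1 \ F.1))) Ψ)
    {i : ι} {j : Fin 3} (hi : (P i).I = {j}) {y z : Rn 3} (he : K.Edge y z)
    (hs : segment ℝ y z ⊆ (P i).Q (P i).ρ) {u : Rn 3} (hu : u ∈ segment ℝ y z) {ω : ν × ℝ}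
    (hω : Ψ (Φ (G u)) ∈ gN V t (cA A e r') (cE e (g / 4) r' r') ω) : g / 2 ≤ dev (t ω.1 (G y)) ∧
      Ψ (Φ (G u)) ∈ Rg1 V t (cA A e r') (cE e (g / 4) r' r') {w | 1 / 2 < t w (G y)} {ω.1} := by
  obtain ⟨g0, g1⟩ := h.api.g0
  obtain ⟨F, hF, ho, sF⟩ := h.up he.2 (by rw [he.dm]; exact one_le_two) (h.chd_ofs hi he hs)
  have sg : segment ℝ y z ⊆ closure F := he.cl ▸ closure_minimal sF isClosed_closure
  have my : y ∈ closure F := sg (left_mem_segment ℝ y z)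
  have inV : ∀ w ∈ closure F, G w ∈ V := fun w hw =>
    h.hin.sub (mem_image_of_mem G (Kx.cl_sub hF.1 hw))
  obtain ⟨v₀, hv₀⟩ := h.chd_uq hi (hs (left_mem_segment ℝ y z))
  have cl : ∀ w ∈ closure F, ∀ v, |t v (Φ (G w)) - t v (G y)| ≤ g / 64 + g / 32 := fun w hw v =>
    (abs_sub_le _ _ _).trans (add_le_add (q.sm _ (inV w hw) v)
      ((h.sma hF.1 hF.2.le ho).2 v _ (mem_image_of_mem G hw) _ (mem_image_of_mem G my)))
  have one : One t (g / 4) (Φ '' (G '' closure F)) := by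
    rintro _ ⟨_, ⟨w, hw, rfl⟩, rfl⟩ v v' ne
    rcases eq_or_ne v v₀ with rfl | k
    · exact Or.inr ((XMid2_dev (hv₀ v' ne.symm) (cl w hw v')).trans (by linarith))
    · exact Or.inl ((XMid2_dev (hv₀ v k) (cl w hw v)).trans (by linarith))
  have mu : Φ (G u) ∈ Φ '' (G '' closure F) := mem_image_of_mem _ (mem_image_of_mem _ (sg hu))
  obtain ⟨⟨-, w1, w2⟩, σ, σ1, σ2⟩ := x.line ⟨F, hF, ho⟩ one _ mu ω hω
  have lev : XLev g (cA A e r') (cE e (g / 4) r' r') :=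
    (can_lev q.xin.lev.half.1 (by linarith) (by linarith) fun _ => le_rfl).1
  have d1 : g / 2 ≤ dev (t ω.1 (G y)) := by
    obtain ⟨k1, k2⟩ := lev.inn _ _ w1
    obtain ⟨k3, k4⟩ := abs_le.1 w2
    obtain ⟨k5, k6⟩ := abs_le.1 (cl u (sg hu) ω.1)
    exact le_min (by linarith) (by linarith)
  obtain rfl : ω.1 = v₀ := by_contra fun k => by linarith [hv₀ _ k]
  obtain ⟨m1, m2⟩ := σ2 (mem_image_of_mem Ψ mu)
  refine ⟨d1, m1, fun v hv s hs => ?_⟩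
  obtain ⟨k1, k2⟩ := (σ1 (mem_image_of_mem Φ (mem_image_of_mem G my))).2 v hv s hs
  obtain ⟨k3, k4⟩ := lev.inn _ _ hs
  obtain ⟨k5, k6⟩ := abs_le.1 (q.sm _ (inV y my) v)
  have k7 := lev.pos v
  have k8 := min_le_iff.1 (hv₀ v hv)
  refine ⟨fun k => (m2 v hv s hs).1 (by_contra fun n => ?_), fun k => (m2 v hv s hs).2 fun n => ?_⟩
  · have k9 := k2 n
    have k10 : 1 / 2 < t v (G y) := k
    rcases k8 with k8 | k8 <;> linarith
  · have k9 := k1 n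
    have k10 : t v (G y) ≤ 1 / 2 := not_lt.1 k
    rcases k8 with k8 | k8 <;> linarith

end BEp
end
end

-- merged part: Pool.Agent.Work.MP_f0515e_an.P3.XFin1
section
/-! The estimates after crushing, first part. -/

open Set Metric Filter Topology Function BEv
open scoped NNReal

noncomputable section
namespace BEp

variable {ν ι : Type} {V : Set (Rn 3)} {g C : ℝ} {Cf : (Rn 3 ≃L[ℝ] Rn 3) → ℝ} {P : ι → Pc} {T : TS}
  {c : Rn 3 → ℝ} {t : ν → Rn 3 → ℝ} {mv : ν → Rn 3 → ℝ → Rn 3} {dim : ν → ℕ} {b : ν → Rn 3}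
  {Ω : Set (Rn 3)} {K : Kx Ω} {G : Rn 3 → Rn 3} {θ : Rn 3 → ℝ} {ch : Set (Rn 3) → Ch}
  {r R τ : Set (Rn 3) → ℝ}
  {τ' ℓ Λ sp δ : Set (Rn 3) → ℝ} {A : ν → Set ℝ} {ε η : ν → ℝ} {Γ Θ : Rn 3 → Rn 3} {p C0 η₀ : ℝ}
  {φ : ν → ℝ → ℝ}

theorem XFin1_cl {k : Ch} {F : Set (Rn 3)} (h : k.Of F) {ξ : Rn 2} (hξ : ξ ∈ closure k.U) :
    k.φ ξ ∈ closure F :=
  h.2.2 ▸ image_closure_subset_closure_image k.tp.continuous (mem_image_of_mem _ hξ)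

theorem XFin1_cpt (Q : Pc) (a : ℝ) : IsCompact (Q.Q a) := by
  refine (isCompact_closedBall Q.c |a|).of_isClosed_subset (XFam1_closed Q a) fun x hx => ?_
  refine (dist_pi_le_iff (abs_nonneg a)).2 fun i => ?_
  by_cases hi : i ∈ Q.I
  · exact (hx.2 i hi).trans (le_abs_self a)
  · rw [hx.1 i hi, dist_self]
    exact abs_nonneg a

theorem Mid.eta [Finite ι] (m : Mid V g C P t mv K G p C0 ch r R τ ℓ Λ sp A ε Γ)
    (h : XCtx V g C P T t mv dim K G Cf c b θ ch r R τ) {χ : Set (Rn 3) → Rn 2 → Rn 2}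
    (hχ : ∀ F ∈ K.cel 2, Ofs P F → TP (χ F) ∧ MapsTo (χ F) Tri (closure (ch F).U))
    (hδ : ∀ σ, 0 < δ σ) : ∃ (η : ν → ℝ) (η₀ : ℝ), η₀ ≤ 1 / 4 ∧ (∀ v, 0 < η v ∧ η v ≤ η₀) ∧
      (∀ i, (P i).I.card = 1 → ∀ x ∈ (P i).Q (P i).ρ, ∀ v, 0 < t v (Γ x) → η v = η₀) ∧
      (∀ x y, K.Edge x y → Ofs P (openSegment ℝ x y) → ∀ W : Finset ν, ∀ s ∈ Icc (0 : ℝ) 1,
        ∀ s' ∈ Icc (0 : ℝ) 1, ∑ v ∈ W, η v * |t v (Γ (seg x y s)) - t v (Γ (seg x y s'))| ≤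
          δ (openSegment ℝ x y) * |s - s'|) ∧
      ∀ F ∈ K.cel 2, Ofs P F → ∀ W : Finset ν, ∀ q ∈ Tri, ∀ q' ∈ Tri,
        ∑ v ∈ W, η v * |t v (Γ ((ch F).φ (χ F q))) - t v (Γ ((ch F).φ (χ F q')))| ≤
          δ F * dist q q' := by
  let E := {e : Rn 3 × Rn 3 // K.Edge e.1 e.2 ∧ Ofs P (openSegment ℝ e.1 e.2)}
  let σ : E ⊕ cF K P → Set (Rn 3) := Sum.elim (fun e => openSegment ℝ e.1.1 e.1.2) fun F => F.1
  let u : E ⊕ cF K P → Rn 2 → Rn 3 :=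
    Sum.elim (fun e q => seg e.1.1 e.1.2 (q 0)) fun F q => (ch F.1).φ (χ F.1 q)
  have hσ : ∀ i, σ i ∈ K.cells ∧ dm (σ i) ≤ 2 ∧ Ofs P (σ i) := by
    rintro (e | F)
    · exact ⟨e.2.1.2, e.2.1.dm.trans_le one_le_two, e.2.2⟩
    · exact ⟨F.2.1.1, F.2.1.2.le, F.2.2⟩
  have hu : ∀ i, TP (u i) ∧ ∀ q ∈ Tri, u i q ∈ closure (σ i) := by
    rintro (e | F)
    · refine ⟨(tp_seg _ _).comp (TP.id'.apply 0), fun q hq => ?_⟩
      show _ ∈ closure (openSegment ℝ e.1.1 e.1.2)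
      rw [e.2.1.cl, ← seg_image]
      exact mem_image_of_mem _ ⟨hq.1, hq.2.1.trans hq.2.2⟩
    · exact ⟨(ch F.1).tp.comp (hχ _ F.2.1 F.2.2).1, fun q hq =>
        XFin1_cl (h.hin.chart _ F.2.1).1 ((hχ _ F.2.1 F.2.2).2 hq)⟩
  have fib : ∀ S, (σ ⁻¹' {S}).Finite := fun S => by
    refine Set.finite_preimage_inl_and_inr.1 ⟨?_, ?_⟩
    · exact ((K.KA2_fib S).preimage Subtype.val_injective.injOn).subset fun e he => ⟨e.2.1, he⟩
    · exact (finite_singleton S).preimage (f := fun F : cF K P => F.1) Subtype.val_injective.injOn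
  have QΩ : ∀ i, (P i).Q (P i).ρ ⊆ Ω := fun i => (P i).bd_sub.2.2.trans (h.hin.QS i)
  obtain ⟨η, η₀, h1, h2, h3, h4⟩ := h.api.eta (k := fun i q => Γ (u i q)) (δ := fun i => δ (σ i))
    (𝒞 := ⋃ i, {v | ∃ y ∈ Γ '' (P i).Q (P i).ρ, 0 < t v y}) (fun i => by
      obtain ⟨w, k1, k2⟩ := m.ltp _ (Kx.cells_poly (hσ i).1).1 (Kx.cl_sub (hσ i).1)
      exact ⟨_, k1.comp (hu i).1, fun q hq => k2 ((hu i).2 q hq)⟩)
    (fun i q hq => m.sub (mem_image_of_mem _ (Kx.cl_sub (hσ i).1 ((hu i).2 q hq))))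
    (fun Z hZ hs => ((m.lf Z hZ hs).preimage' (f := σ) fun S _ => fib S).subset
      fun i ⟨_, ⟨q, hq, e⟩, k⟩ => ⟨(hσ i).1, (hσ i).2.1, (hσ i).2.2, _,
        ⟨_, (hu i).2 q hq, e⟩, k⟩) (fun i => hδ _)
    (finite_iUnion fun i => h.api.lf1 _ ((XFin1_cpt _ _).image_of_continuousOn
      ((m.ltp.contOn h.hin.opn).mono (QΩ i))) ((image_mono (QΩ i)).trans m.sub))
  refine ⟨η, η₀, h1, h2, fun i _ x hx v hv => h3 v (mem_iUnion.2 ⟨i, _, ⟨x, hx, rfl⟩, hv⟩),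
    fun x y he ho W s hs s' hs' => ?_, fun F hF ho => h4 (Sum.inr ⟨F, hF, ho⟩)⟩
  have k := h4 (Sum.inl ⟨(x, y), he, ho⟩) W (fun _ => s) ⟨hs.1, le_rfl, hs.2⟩ (fun _ => s')
    ⟨hs'.1, le_rfl, hs'.2⟩
  rwa [dist_pi_const, Real.dist_eq] at k

theorem Mid.bD (m : Mid V g C P t mv K G p C0 ch r R τ ℓ Λ sp A ε Γ)
    (h : XCtx V g C P T t mv dim K G Cf c b θ ch r R τ) (hℓ : Sca C P T K G ℓ) {σ : Set (Rn 3)}
    (hσ : σ ∈ K.cells) (hd : dm σ ≤ 2) (ho : Ofs P σ) {x x' : Rn 3} (hx : x ∈ closure σ)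
    (hx' : x' ∈ closure σ) {v w : ν} (hv : 0 < t v (Γ x)) (hw : 0 < t w (Γ x')) :
    ‖b v - b w‖ ≤ 30 * C ^ 9 * ℓ σ := by
  have hC : 0 < C := one_pos.trans_le h.api.C1
  refine (h.api.bD (h.hin.sub (mem_image_of_mem _ (Kx.cl_sub hσ hx)))
    (m.sub (mem_image_of_mem _ (Kx.cl_sub hσ hx))) (m.sub (mem_image_of_mem _ (Kx.cl_sub hσ hx')))
    (m.chn σ hσ hd ho x hx x hx) (m.chn σ hσ hd ho x hx x' hx') hv hw).trans ?_
  exact (mul_le_mul_of_nonneg_left (hℓ.2 σ hσ hd ho x hx).2 (by positivity)).trans_eq (by ring)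

theorem Mid.fin_bar (m : Mid V g C P t mv K G p C0 ch r R τ ℓ Λ sp A ε Γ)
    (h : XCtx V g C P T t mv dim K G Cf c b θ ch r R τ) (k : Cr V t g A ε η φ Θ) {i : ι}
    (hi : 2 ≤ (P i).I.card) : (Θ ∘ Γ) '' (P i).Bd = (P i).aff '' (P i).Bd ∧
      ∀ x ∈ (P i).Bd, ∀ x' ∈ (P i).Bd, (Θ ∘ Γ) x = (P i).aff x' → (P i).Lat x x' := by
  obtain ⟨e, l⟩ := m.bar i hi
  have B := fun x (hx : x ∈ (P i).Bd) => h.api.bar i hi x ((P i).bd_sub.1 hx)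
  have F := fun x hx => (B x hx).2 _ (k.gm.bij.mapsTo (B x hx).1) (k.xeq (B x hx).1)
  refine ⟨?_, fun x hx x' _ e' => ?_⟩
  · rw [image_comp, e]
    refine Subset.antisymm ?_ ?_
    · rintro _ ⟨_, ⟨x, hx, rfl⟩, rfl⟩
      obtain ⟨x', -, k1, -, k2⟩ := F x hx
      exact ⟨x', k2 hx, k1.symm⟩
    · rintro _ ⟨x, hx, rfl⟩
      obtain ⟨y, hy, k0⟩ := k.gm.bij.surjOn (B x hx).1
      obtain ⟨x', -, k1, -, k2⟩ := (B x hx).2 y hy fun v => k0 ▸ (k.xeq hy v).symm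
      exact ⟨y, ⟨x', k2 hx, k1.symm⟩, k0⟩
  · obtain ⟨y, hy, k0⟩ := e.subset (mem_image_of_mem _ hx)
    obtain ⟨z, -, k1, k2, -⟩ := F y hy
    rw [k0] at k1
    have : z = x' := sub_left_injective ((P i).A.injective (add_right_cancel (k1.symm.trans e')))
    exact this ▸ (l x hx y hy k0.symm).trans k2

theorem Mid.fin_mv (m : Mid V g C P t mv K G p C0 ch r R τ ℓ Λ sp A ε Γ)
    (h : XCtx V g C P T t mv dim K G Cf c b θ ch r R τ) (k : Cr V t g A ε η φ Θ) {x : Rn 3}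
    (hx : x ∈ K.sk 2) (ho : ∀ i, x ∉ (P i).In) : ‖(Θ ∘ Γ) x - G x‖ ≤ T.c (G x) * T.l (G x) := by
  have a := K.mem x hx.1
  have h1 := h.hin.sub (mem_image_of_mem G hx.1)
  have h2 := m.sub (mem_image_of_mem Γ hx.1)
  obtain ⟨v, hv, -⟩ := h.api.nb_self h2
  refine (h.api.chn (k := 8) h1 (k.gm.bij.mapsTo h2) ⟨_, h2, m.chn _ (K.cell_mem hx.1) hx.2
    (fun i e => ho i (e a)) x (subset_closure a) x (subset_closure a), v, hv,
      (k.xeq h2 v).1 hv⟩).2.2.trans (mul_le_mul_of_nonneg_right ?_ (h.api.l0 _ h1).le)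
  have k1 := h.api.c1 (G x)
  have k2 : C ^ 9 ≤ C ^ 40 := pow_le_pow_right₀ h.api.C1 (by norm_num)
  have k3 : 0 < C ^ 9 := pow_pos (one_pos.trans_le h.api.C1) _
  push_cast
  nlinarith [k1.1, k1.2]

theorem Mid.fin_face (m : Mid V g C P t mv K G p C0 ch r R τ ℓ Λ sp A ε Γ)
    (h : XCtx V g C P T t mv dim K G Cf c b θ ch r R τ) (hℓ : Sca C P T K G ℓ)
    (k : Cr V t g A ε η φ Θ) {F : Set (Rn 3)} (hF : F ∈ K.cel 2) (ho : Ofs P F) {χ : Rn 2 → Rn 2}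
    (h1 : TP χ) (h2 : MapsTo χ Tri (closure (ch F).U)) {d e : ℝ}
    (he : ∀ W : Finset ν, ∀ q ∈ Tri, ∀ q' ∈ Tri,
      ∑ v ∈ W, η v * |t v (Γ ((ch F).φ (χ q))) - t v (Γ ((ch F).φ (χ q')))| ≤ d * dist q q')
    (hd : 30 * C ^ 10 * ℓ F / g * d ≤ e) :
    Crush (gN V t A ε) (gf mv ε) (fun ω => 20 * C ^ 11 * ℓ F / (A ω.1).ncard) Tri
      (fun q => Γ ((ch F).φ (χ q))) (fun q => (Θ ∘ Γ) ((ch F).φ (χ q))) e := by
  have hC : 0 < C := one_pos.trans_le h.api.C1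
  have l0 := hℓ.1 F
  have cl : ∀ q ∈ Tri, (ch F).φ (χ q) ∈ closure F := fun q hq =>
    XFin1_cl (h.hin.chart F hF).1 (h2 hq)
  obtain ⟨W, lam, k1, k2⟩ := h.api.crush_mk m.lev k (γ := fun q => Γ ((ch F).φ (χ q)))
    (D := 30 * C ^ 9 * ℓ F) (x := fun ω => 20 * C ^ 11 * ℓ F / (A ω.1).ncard)
    ((m.ltp.contOn h.hin.opn).comp ((ch F).tp.comp h1).continuous.continuousOn
      fun q hq => Kx.cl_sub hF.1 (cl q hq)) XFb1_tri
    (fun q hq => m.sub (mem_image_of_mem _ (Kx.cl_sub hF.1 (cl q hq)))) (by positivity)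
    (fun q hq q' hq' v w => m.bD h hℓ hF.1 hF.2.le ho (cl q hq) (cl q' hq')) he fun ω => by
      rw [← div_div]
      refine div_le_div_of_nonneg_right ?_ (Nat.cast_nonneg _)
      have : C ^ 10 ≤ C ^ 11 := pow_le_pow_right₀ h.api.C1 (by norm_num)
      nlinarith [mul_le_mul_of_nonneg_right this l0.le, mul_pos (pow_pos hC 10) l0]
  refine ⟨W, lam, k1, fun q hq q' hq' => (k2 q hq q' hq').trans ?_⟩
  gcongr
  exact le_trans (le_of_eq (by ring)) hd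

end BEp
end
end
end

-- merged part: Pool.Agent.Work.MP_f0515e_an.P3.XFin3
section
/-! The estimate on the chords after crushing. -/

open Set Metric Filter Topology Function BEv
open scoped NNReal

noncomputable section
namespace BEp

variable {n m : ℕ}

variable {ν ι : Type} {V : Set (Rn 3)} {g C : ℝ} {Cf : (Rn 3 ≃L[ℝ] Rn 3) → ℝ} {P : ι → Pc} {T : TS}
  {c : Rn 3 → ℝ} {t : ν → Rn 3 → ℝ} {mv : ν → Rn 3 → ℝ → Rn 3} {dim : ν → ℕ} {b : ν → Rn 3}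
  {Ω : Set (Rn 3)} {K : Kx Ω} {G : Rn 3 → Rn 3} {θ : Rn 3 → ℝ} {ch : Set (Rn 3) → Ch}
  {r R τ : Set (Rn 3) → ℝ}
  {τ' ℓ Λ sp δ : Set (Rn 3) → ℝ} {A : ν → Set ℝ} {ε η : ν → ℝ} {Γ Θ : Rn 3 → Rn 3} {p C0 η₀ : ℝ}
  {φ : ν → ℝ → ℝ}

theorem XFin3_bD (m : Mid V g C P t mv K G p C0 ch r R τ ℓ Λ sp A ε Γ)
    (h : XCtx V g C P T t mv dim K G Cf c b θ ch r R τ) (hℓ : Sca C P T K G ℓ) {σ : Set (Rn 3)}
    (hσ : σ ∈ K.cells) (hd : dm σ ≤ 2) (ho : Ofs P σ) {x x' : Rn 3} (hx : x ∈ closure σ)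
    (hx' : x' ∈ closure σ) {v w : ν} (hv : 0 < t v (Γ x)) (hw : 0 < t w (Γ x')) :
    ‖b v - b w‖ ≤ 30 * C ^ 9 * ℓ σ := by
  have x1 := Kx.cl_sub hσ hx
  have x2 := Kx.cl_sub hσ hx'
  have C0 : 0 ≤ C := zero_le_one.trans h.api.C1
  refine (h.api.bD (h.hin.sub ⟨x, x1, rfl⟩) (m.sub ⟨x, x1, rfl⟩) (m.sub ⟨x', x2, rfl⟩)
    (m.chn σ hσ hd ho x hx x hx) (m.chn σ hσ hd ho x hx x' hx') hv hw).trans ?_
  calc 30 * C ^ 8 * T.l (G x) ≤ 30 * C ^ 8 * (C * ℓ σ) :=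
        mul_le_mul_of_nonneg_left (hℓ.2 σ hσ hd ho x hx).2 (by positivity)
    _ = _ := by ring

theorem XFin3_g {g : ℝ} (g0 : 0 < g) (g1 : g ≤ 1 / 8) :
    1 / (2 * (1 - g / 4) ^ 2) ≤ 1 ∧
      1 / (2 * (1 - g / 4) ^ 2) * (2 / ((1 - g / 2) * (1 - 5 * g / 2))) ≤ 1 + 8 * g := by
  have a1 : 0 < 1 - g / 4 := by linarith
  have a2 : 0 < 1 - g / 2 := by linarith
  have a3 : 0 < 1 - 5 * g / 2 := by linarith
  have b1 : 1 - g / 2 ≤ (1 - g / 4) ^ 2 := by nlinarith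
  have b2 : 1 - 3 * g ≤ (1 - g / 2) * (1 - 5 * g / 2) := by nlinarith
  have b3 : (1 - g / 2) * (1 - 3 * g) ≤ (1 - g / 4) ^ 2 * ((1 - g / 2) * (1 - 5 * g / 2)) :=
    mul_le_mul b1 b2 (by linarith) (by positivity)
  have b4 : 1 - 7 * g / 2 ≤ (1 - g / 2) * (1 - 3 * g) := by nlinarith
  have b5 := mul_le_mul_of_nonneg_left (b4.trans b3) (show 0 ≤ 1 + 8 * g by linarith)
  refine ⟨(div_le_one (by positivity)).2 (by linarith), ?_⟩
  rw [div_mul_div_comm, div_le_iff₀ (by positivity)]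
  nlinarith

theorem XFin3_num {g κ L τ τ' N c E : ℝ} {S w : ENNReal} (g0 : 0 < g) (g1 : g ≤ 1 / 8)
    (hτ : 0 ≤ τ) (hc : 0 ≤ c) (hN : 0 ≤ N)
    (h1 : ENNReal.ofReal L ≤ ENNReal.ofReal (2 / ((1 - g / 2) * (1 - 5 * g / 2))) * S +
      ENNReal.ofReal τ')
    (h2 : ENNReal.ofReal |κ| * S ≤ ENNReal.ofReal N + ENNReal.ofReal (c / 4) * w)
    (h3 : 4 * |κ| * τ' ≤ τ) (h4 : 4 * E ≤ τ) :
    ENNReal.ofReal (|κ| * (L / (2 * (1 - g / 4) ^ 2)) + E) ≤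
      ENNReal.ofReal ((1 + 8 * g) * N + τ) + ENNReal.ofReal c * w := by
  obtain ⟨a1, a2⟩ := XFin3_g g0 g1
  have a0 : 0 ≤ 1 / (2 * (1 - g / 4) ^ 2) := by positivity
  have k0 := abs_nonneg κ
  have g8 : 0 ≤ 1 + 8 * g := by linarith
  rw [div_eq_mul_one_div L]
  generalize 1 / (2 * (1 - g / 4) ^ 2) = a at a0 a1 a2
  generalize 2 / ((1 - g / 2) * (1 - 5 * g / 2)) = β at a2 h1
  have e1 : |κ| * a * τ' ≤ τ / 4 := by
    rcases le_total τ' 0 with o | o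
    · nlinarith [mul_nonneg (mul_nonneg k0 a0) (neg_nonneg.2 o)]
    · nlinarith [mul_le_mul_of_nonneg_left a1 (mul_nonneg k0 o)]
  have e2 : ENNReal.ofReal (|κ| * a) * (ENNReal.ofReal β * S) ≤
      ENNReal.ofReal ((1 + 8 * g) * N) + ENNReal.ofReal c * w := by
    calc ENNReal.ofReal (|κ| * a) * (ENNReal.ofReal β * S)
        = ENNReal.ofReal (a * β) * (ENNReal.ofReal |κ| * S) := by
          rw [ENNReal.ofReal_mul k0, ENNReal.ofReal_mul a0]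
          ring
      _ ≤ ENNReal.ofReal (1 + 8 * g) * (ENNReal.ofReal N + ENNReal.ofReal (c / 4) * w) :=
          mul_le_mul' (ENNReal.ofReal_le_ofReal a2) h2
      _ = ENNReal.ofReal ((1 + 8 * g) * N) + ENNReal.ofReal ((1 + 8 * g) * (c / 4)) * w := by
          rw [ENNReal.ofReal_mul g8, ENNReal.ofReal_mul g8]
          ring
      _ ≤ _ := add_le_add le_rfl (mul_le_mul' (ENNReal.ofReal_le_ofReal (by nlinarith)) le_rfl)
  have e3 : 0 ≤ (1 + 8 * g) * N := mul_nonneg g8 hN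
  calc ENNReal.ofReal (|κ| * (L * a) + E)
      ≤ ENNReal.ofReal (|κ| * a * L) + ENNReal.ofReal (τ / 4) :=
        (ENNReal.ofReal_le_ofReal (by linarith)).trans ENNReal.ofReal_add_le
    _ ≤ ENNReal.ofReal (|κ| * a) * (ENNReal.ofReal β * S + ENNReal.ofReal τ') +
          ENNReal.ofReal (τ / 4) := by
        rw [ENNReal.ofReal_mul (mul_nonneg k0 a0)]
        exact add_le_add (mul_le_mul' le_rfl h1) le_rfl
    _ ≤ ENNReal.ofReal ((1 + 8 * g) * N) + ENNReal.ofReal c * w + ENNReal.ofReal (τ / 4) +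
          ENNReal.ofReal (τ / 4) := by
        rw [mul_add, ← ENNReal.ofReal_mul (mul_nonneg k0 a0) (q := τ')]
        exact add_le_add (add_le_add e2 (ENNReal.ofReal_le_ofReal e1)) le_rfl
    _ = ENNReal.ofReal ((1 + 8 * g) * N + τ / 4 + τ / 4) + ENNReal.ofReal c * w := by
        rw [ENNReal.ofReal_add (by linarith) (by linarith), ENNReal.ofReal_add e3 (by linarith)]
        ring
    _ ≤ _ := add_le_add (ENNReal.ofReal_le_ofReal (by linarith)) le_rfl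

theorem XFin3_dev {s s' r : ℝ} (h : |s - s'| ≤ r) : dev s ≤ dev s' + r := by
  have h1 := abs_le.1 h
  rw [dev, dev, ← min_add_add_right]
  exact min_le_min (by linarith) (by linarith)

theorem XFin3_q (B : Rn 3 ≃L[ℝ] Rn 3) (j : Fin 3) : ∃ q q' : Seminorm ℝ (Rn 3),
    (∀ z z', q (z - z') = ‖z - z' - (B.symm z j - B.symm z' j) • B (Pi.single j 1)‖) ∧
    (∀ z z', q' (z - z') = |B.symm z j - B.symm z' j|) ∧
    (∀ κ : ℝ, q (κ • B (Pi.single j 1)) = 0 ∧ q' (κ • B (Pi.single j 1)) = |κ|) ∧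
    ∀ z, q z ≤ (1 + ‖(B.symm : Rn 3 →L[ℝ] Rn 3)‖ * (1 + ‖(B : Rn 3 →L[ℝ] Rn 3)‖)) * ‖z‖ ∧
      q' z ≤ (1 + ‖(B.symm : Rn 3 →L[ℝ] Rn 3)‖ * (1 + ‖(B : Rn 3 →L[ℝ] Rn 3)‖)) * ‖z‖ := by
  let u : Rn 3 →ₗ[ℝ] ℝ := (LinearMap.proj j).comp (B.symm : Rn 3 →L[ℝ] Rn 3).toLinearMap
  have hu : ∀ z, u z = B.symm z j := fun z => rfl
  let q : Seminorm ℝ (Rn 3) :=
    (normSeminorm ℝ (Rn 3)).comp (LinearMap.id - u.smulRight (B (Pi.single j 1)))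
  let q' : Seminorm ℝ (Rn 3) := (normSeminorm ℝ ℝ).comp u
  have hq : ∀ z, q z = ‖z - u z • B (Pi.single j 1)‖ := fun z => rfl
  have hq' : ∀ z, q' z = |u z| := fun z => rfl
  have e : ∀ κ : ℝ, u (κ • B (Pi.single j 1)) = κ := fun κ => by
    rw [map_smul, hu, B.symm_apply_apply, Pi.single_eq_same, smul_eq_mul, mul_one]
  refine ⟨q, q', fun z z' => by rw [hq, map_sub, hu, hu], fun z z' => by rw [hq', map_sub, hu, hu],
    fun κ => ⟨by rw [hq, e, sub_self, norm_zero], by rw [hq', e]⟩, fun z => ?_⟩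
  have n1 : |u z| ≤ ‖(B.symm : Rn 3 →L[ℝ] Rn 3)‖ * ‖z‖ :=
    (norm_le_pi_norm (B.symm z) j).trans ((B.symm : Rn 3 →L[ℝ] Rn 3).le_opNorm z)
  have n2 : ‖B (Pi.single j 1)‖ ≤ ‖(B : Rn 3 →L[ℝ] Rn 3)‖ := by
    have := (B : Rn 3 →L[ℝ] Rn 3).le_opNorm (Pi.single j 1)
    rwa [Pi.norm_single, norm_one, mul_one] at this
  have n3 := norm_sub_le z (u z • B (Pi.single j 1))
  rw [norm_smul, Real.norm_eq_abs] at n3
  have n4 := mul_le_mul n1 n2 (norm_nonneg _) (by positivity)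
  have n5 : 0 ≤ ‖(B.symm : Rn 3 →L[ℝ] Rn 3)‖ * ‖z‖ := by positivity
  have n6 : 0 ≤ ‖(B.symm : Rn 3 →L[ℝ] Rn 3)‖ * ‖z‖ * ‖(B : Rn 3 →L[ℝ] Rn 3)‖ := by positivity
  have n7 := norm_nonneg z
  rw [hq, hq']
  constructor <;> nlinarith

theorem Mid.fin_chd [Finite ι] (m : Mid V g C P t mv K G p C0 ch r R τ ℓ Λ sp A ε Γ)
    (h : XCtx V g C P T t mv dim K G Cf c b θ ch r R τ) (hℓ : Sca C P T K G ℓ)
    (hΛ : LUp g P t K G τ' Λ) (k : Cr V t g A ε η φ Θ) (hη : ∀ v, η v ≤ η₀) {i : ι} {j : Fin 3}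
    (hi : (P i).I = {j}) (h0 : ∀ x ∈ (P i).Q (P i).ρ, ∀ v, 0 < t v (Γ x) → η v = η₀) {x y : Rn 3}
    (hxy : K.Edge x y) (hs : segment ℝ x y ⊆ (P i).Q (P i).ρ) {κ : ℝ}
    (hκ : ∀ v, g / 2 ≤ dev (t v (G x)) →
      Lin V t {w | 1 / 2 < t w (G x)} v (κ • (P i).A (Pi.single j 1)) ∧
      ENNReal.ofReal |κ| * eVariationOn (fun s => clq g (t v (G (seg x y s)))) (Icc 0 1) ≤
        ENNReal.ofReal ‖y - x‖ +
          ENNReal.ofReal (Cf (P i).A / 4) * vr (fun z => G z - (P i).aff z) x y)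
    (hτ : 4 * |κ| * τ' (openSegment ℝ x y) ≤ τ (openSegment ℝ x y)) {d : ℝ} (d0 : 0 ≤ d)
    (hd : 4 * (|κ| + (1 + ‖((P i).A.symm : Rn 3 →L[ℝ] Rn 3)‖ * (1 + ‖((P i).A : Rn 3 →L[ℝ] Rn 3)‖)) *
      (30 * C ^ 10 * ℓ (openSegment ℝ x y))) / g * d ≤ τ (openSegment ℝ x y))
    (he : ∀ W : Finset ν, ∀ s ∈ Icc (0 : ℝ) 1, ∀ s' ∈ Icc (0 : ℝ) 1,
      ∑ v ∈ W, η v * |t v (Γ (seg x y s)) - t v (Γ (seg x y s'))| ≤ d * |s - s'|) :
    ∀ s ∈ Icc (0 : ℝ) 1, ∀ s' ∈ Icc (0 : ℝ) 1,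
      ‖(Θ ∘ Γ) (seg x y s) - (Θ ∘ Γ) (seg x y s') -
        ((P i).A.symm ((Θ ∘ Γ) (seg x y s)) j - (P i).A.symm ((Θ ∘ Γ) (seg x y s')) j) •
          (P i).A (Pi.single j 1)‖ ≤ τ (openSegment ℝ x y) * |s - s'| ∧
      ENNReal.ofReal
          |(P i).A.symm ((Θ ∘ Γ) (seg x y s)) j - (P i).A.symm ((Θ ∘ Γ) (seg x y s')) j| ≤
        (ENNReal.ofReal ((1 + 8 * g) * ‖y - x‖ + τ (openSegment ℝ x y)) +
          ENNReal.ofReal (Cf (P i).A) * vr (fun z => G z - (P i).aff z) x y) *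
            ENNReal.ofReal |s - s'| := by
  obtain ⟨g0, g1⟩ := h.api.g0
  have C0 : 0 ≤ C := zero_le_one.trans h.api.C1
  have ho := h.chd_ofs hi hxy hs
  have d2 : dm (openSegment ℝ x y) ≤ 2 := hxy.dm.trans_le one_le_two
  have l0 := hℓ.1 (openSegment ℝ x y)
  have τ0 := h.hin.τ0 (openSegment ℝ x y)
  obtain ⟨v₀, hv₀⟩ := h.chd_uq hi (hs (left_mem_segment ℝ x y))
  have uq : ∀ v, g / 2 ≤ dev (t v (G x)) → v = v₀ := fun v l => by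
    by_contra e
    linarith [hv₀ v e]
  have hm : ∀ s ∈ Icc (0 : ℝ) 1, seg x y s ∈ segment ℝ x y := fun s hs =>
    seg_image x y ▸ mem_image_of_mem _ hs
  have hΩ : ∀ s ∈ Icc (0 : ℝ) 1, seg x y s ∈ Ω := fun s hs => K.sk_sub 1 (hxy.seg_sub (hm s hs))
  have hcl : ∀ s ∈ Icc (0 : ℝ) 1, seg x y s ∈ closure (openSegment ℝ x y) := fun s hs =>
    hxy.cl ▸ hm s hs
  obtain ⟨q, q', q1, q2, q3, q4⟩ := XFin3_q (P i).A j
  generalize 1 + ‖((P i).A.symm : Rn 3 →L[ℝ] Rn 3)‖ * (1 + ‖((P i).A : Rn 3 →L[ℝ] Rn 3)‖) = M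
    at hd q4
  have M0 : 0 ≤ M := by
    have a1 := (apply_nonneg q (y - x)).trans (q4 _).1
    exact nonneg_of_mul_nonneg_left a1 (norm_pos_iff.2 (sub_ne_zero.2 hxy.1.symm))
  have key := h.api.chd_est m.lev k hη (γ := fun s => Γ (seg x y s))
    ((m.ltp.contOn h.hin.opn).comp (tp_seg x y).continuous.continuousOn hΩ)
    (fun s hs s' hs' e => by
      have e1 : seg x y s - seg x y s' = (s - s') • (y - x) := by
        rw [seg, seg, add_sub_add_left_eq_sub, sub_smul]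
      rw [m.inj (hΩ s hs) (hΩ s' hs') e, sub_self] at e1
      exact sub_eq_zero.1 ((smul_eq_zero.1 e1.symm).resolve_right (sub_ne_zero.2 hxy.1.symm)))
    (fun s hs => m.sub ⟨_, hΩ s hs, rfl⟩) (x₀ := (1 - g / 4) ^ 2) (pow_pos (by linarith) 2)
    (d := g / 4) (by linarith) (hΛ.1 _) (m.pt x y hxy ho).1 (σ := {w | 1 / 2 < t w (G x)})
    (v := v₀) (u := κ • (P i).A (Pi.single j 1)) (fun s hs' ω l => by
      obtain ⟨a1, a2⟩ := m.line i j hi x y hxy hs s hs' ω l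
      have a3 := uq _ a1
      have a4 := (m.lev.inn _ _ l.2.1).1
      have a5 := (abs_le.1 l.2.2).1
      refine ⟨a3, ?_, a3 ▸ a2, a3 ▸ (hκ _ a1).1⟩
      rw [← a3]
      exact h0 _ (hs (hm s hs')) _ (by linarith))
    (D := 30 * C ^ 9 * ℓ (openSegment ℝ x y)) (δ := d) (by positivity) d0
    (fun s hs s' hs' v w l l' => XFin3_bD m h hℓ hxy.2 d2 ho (hcl s hs) (hcl s' hs') l l') he
  have k0 := abs_nonneg κ
  have e0 : 4 * (|κ| * (d / g) + M * (C * (30 * C ^ 9 * ℓ (openSegment ℝ x y)) * d / g)) ≤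
      τ (openSegment ℝ x y) := le_of_eq_of_le (by ring) hd
  have e1 : 0 ≤ |κ| * (d / g) := by positivity
  intro s hs₁ s' hs₂
  have ab := abs_nonneg (s - s')
  constructor
  · have f := key q M0 (fun z => (q4 z).1) s hs₁ s' hs₂
    rw [q1, (q3 κ).1, zero_mul, zero_add] at f
    exact f.trans (mul_le_mul_of_nonneg_right (by linarith) ab)
  · have f := key q' M0 (fun z => (q4 z).2) s hs₁ s' hs₂
    rw [q2, (q3 κ).2, mul_add, add_assoc] at f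
    refine (ENNReal.ofReal_le_ofReal f).trans ?_
    rw [ENNReal.ofReal_mul' ab]
    refine mul_le_mul' ?_ le_rfl
    obtain ⟨S, -, S1, S2⟩ := hΛ.2 x y hxy ho
    have S3 : ∀ v ∈ S, g / 2 ≤ dev (t v (G x)) := fun v hv => by
      obtain ⟨u, hu, l⟩ := S1 v hv
      have := XFin3_dev ((h.sma hxy.2 d2 ho).2 v _ ⟨_, hcl u hu, rfl⟩ _
        ⟨x, hxy.cl ▸ left_mem_segment ℝ x y, rfl⟩)
      linarith
    refine XFin3_num g0 g1 τ0.le (zero_le_one.trans (h.cf _)) (norm_nonneg _) S2 ?_ hτ e0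
    rcases Finset.subset_singleton_iff.1 (show S ⊆ {v₀} from fun v hv =>
      Finset.mem_singleton.2 (uq v (S3 v hv))) with e | e
    · rw [e, Finset.sum_empty, mul_zero]
      exact zero_le
    · rw [e, Finset.sum_singleton]
      exact (hκ v₀ (S3 v₀ (e ▸ Finset.mem_singleton_self v₀))).2

end BEp
end
end
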