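import Pool.Agent.Work.MP_f0515e_an.P3.XChd1
import Pool.Agent.Work.MP_f0515e_an.P3.XExt
import Pool.Agent.Work.MP_f0515e_an.P3.XFin3
import Pool.Agent.Work.MP_f0515e_an.P3.ZX

-- merged part: Pool.Agent.Work.MP_f0515e_an.P3.XPre1
section
/-! Counts of the crossings of the edges with the levels. -/

open Set Metric Filter Topology Function BEv
open scoped NNReal

noncomputable section
namespace BEp

variable {n m : ℕ}

variable {ν ι : Type} {V : Set (Rn 3)} {g C : ℝ} {Cf : (Rn 3 ≃L[ℝ] Rn 3) → ℝ} {P : ι → Pc} {T : TS}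
  {c : Rn 3 → ℝ} {t : ν → Rn 3 → ℝ} {mv : ν → Rn 3 → ℝ → Rn 3} {dim : ν → ℕ} {b : ν → Rn 3}
  {Ω : Set (Rn 3)} {K : Kx Ω} {G : Rn 3 → Rn 3} {θ : Rn 3 → ℝ} {ch : Set (Rn 3) → Ch}
  {r R τ : Set (Rn 3) → ℝ}
  {τ' : Set (Rn 3) → ℝ} {a r' : ν → ℕ} {Bad A : ν → Set ℝ} {e : ν → ℝ} {Φ : Rn 3 → Rn 3}

/-- The counts of the crossings are controlled by the variation. -/
def Lev0 (g : ℝ) (P : ι → Pc) (t : ν → Rn 3 → ℝ) (K : Kx Ω) (G : Rn 3 → Rn 3)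
    (τ' : Set (Rn 3) → ℝ) (a₀ : ν → ℕ) (Bad : ν → Set ℝ) : Prop :=
  ∀ x y, K.Edge x y → Ofs P (openSegment ℝ x y) → ∀ v (k : ℕ) (S : Set ℝ), a₀ v ≤ k → S.Finite →
    Disjoint S (Bad v) → S ⊆ Icc (g / 2) (1 - g / 2) →
    (∀ s ∈ S, ∀ s' ∈ S, s < s' → (1 - 5 * g / 2) / 2 ^ k ≤ s' - s) →
    {s ∈ Icc (0 : ℝ) 1 | t v (G (seg x y s)) ∈ S}.Finite ∧
      ENNReal.ofReal ({s ∈ Icc (0 : ℝ) 1 | t v (G (seg x y s)) ∈ S}.ncard / 2 ^ k) ≤
        ENNReal.ofReal (1 / (1 - 5 * g / 2)) *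
          eVariationOn (fun s => clq g (t v (G (seg x y s)))) (Icc 0 1) +
        ENNReal.ofReal (τ' (openSegment ℝ x y) / 16)

theorem XPre1_sub {x y : Rn 3} (he : K.Edge x y) {s : ℝ} (hs : s ∈ Icc (0 : ℝ) 1) :
    seg x y s ∈ segment ℝ x y ∧ segment ℝ x y ⊆ Ω :=
  ⟨seg_image x y ▸ mem_image_of_mem _ hs, he.seg_sub.trans (K.sk_sub 1)⟩

theorem XPre1_fin (h : XCtx V g C P T t mv dim K G Cf c b θ ch r R τ) (v : ν) :
    {p : Rn 3 × Rn 3 | K.Edge p.1 p.2 ∧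
      ∃ s ∈ Icc (0 : ℝ) 1, 0 < t v (G (seg p.1 p.2 s))}.Finite := by
  obtain ⟨Z, h1, h2, h3⟩ := h.api.lf2 v
  refine ((h.hin.lf Z h1 h2).biUnion fun σ _ => K.KA2_fib σ).subset ?_
  rintro p ⟨he, s, hs, k⟩
  obtain ⟨m1, m2⟩ := XPre1_sub he hs
  exact mem_biUnion (x := openSegment ℝ p.1 p.2) ⟨he.2, he.dm.le.trans one_le_two, _,
    ⟨_, he.cl.symm ▸ m1, rfl⟩, h3 _ (h.hin.sub ⟨_, m2 m1, rfl⟩) k⟩ ⟨he, rfl⟩

theorem XPre1_one (h : XCtx V g C P T t mv dim K G Cf c b θ ch r R τ) (hτ : ∀ σ, 0 < τ' σ) (v : ν)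
    (x y : Rn 3) : ∃ (k₀ : ℕ) (B : Set ℝ), B.Finite ∧ (K.Edge x y → ∀ (k : ℕ) (S : Set ℝ), k₀ ≤ k →
      S.Finite → Disjoint S B → S ⊆ Icc (g / 2) (1 - g / 2) →
      (∀ s ∈ S, ∀ s' ∈ S, s < s' → (1 - 5 * g / 2) / 2 ^ k ≤ s' - s) →
      {s ∈ Icc (0 : ℝ) 1 | t v (G (seg x y s)) ∈ S}.Finite ∧
        ENNReal.ofReal ({s ∈ Icc (0 : ℝ) 1 | t v (G (seg x y s)) ∈ S}.ncard / 2 ^ k) ≤
          ENNReal.ofReal (1 / (1 - 5 * g / 2)) *
            eVariationOn (fun s => clq g (t v (G (seg x y s)))) (Icc 0 1) +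
          ENNReal.ofReal (τ' (openSegment ℝ x y) / 16)) := by
  by_cases he : K.Edge x y
  swap
  · exact ⟨0, ∅, finite_empty, fun k => absurd k he⟩
  have g1 : 0 < 1 - 5 * g / 2 := by linarith [h.api.g0.2]
  have t0 := hτ (openSegment ℝ x y)
  obtain ⟨u, hu, e⟩ := ((h.api.ltp v).comp' h.hin.ltp fun z hz => h.hin.sub ⟨z, hz, rfl⟩)
    (segment ℝ x y) (seg_image x y ▸ isCompact_Icc.image (tp_seg x y).continuous)
    (XPre1_sub he (left_mem_Icc.2 zero_le_one)).2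
  have e' : ∀ s ∈ Icc (0 : ℝ) 1, t v (G (seg x y s)) = u (seg x y s) := fun s hs =>
    e (XPre1_sub he hs).1
  obtain ⟨k₁, B, hB, hc⟩ := cnt1 (hu.comp (tp_seg x y))
  obtain ⟨k₀, hk⟩ := pow_unbounded_of_one_lt (16 * (k₁ : ℝ) / τ' (openSegment ℝ x y))
    (one_lt_two (α := ℝ))
  refine ⟨k₀, B, hB, fun _ k S h1 h2 h3 h4 h5 => ?_⟩
  have e1 : {s ∈ Icc (0 : ℝ) 1 | t v (G (seg x y s)) ∈ S} =
      {s ∈ Icc (0 : ℝ) 1 | u (seg x y s) ∈ S} :=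
    Set.ext fun s => and_congr_right fun hs => by rw [e' s hs]
  have e2 : eVariationOn (fun s => clq g (t v (G (seg x y s)))) (Icc 0 1) =
      eVariationOn (fun s => clq g (u (seg x y s))) (Icc 0 1) :=
    eVariationOn.eq_of_eqOn fun s hs => congrArg (clq g) (e' s hs)
  obtain ⟨c1, c2⟩ := hc g _ S h2 h3 (by positivity) h4 h5
  have e3 : ∀ a : ℝ, 1 / (1 - 5 * g / 2) * (a * ((1 - 5 * g / 2) / 2 ^ k)) = a / 2 ^ k := fun a => by
    rw [mul_left_comm, one_div, div_eq_mul_inv _ ((2 : ℝ) ^ k), inv_mul_cancel_left₀ g1.ne',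
      div_eq_mul_inv]
  rw [e1, e2]
  refine ⟨c1, le_trans (le_of_eq ?_) ((mul_le_mul_right c2
    (ENNReal.ofReal (1 / (1 - 5 * g / 2)))).trans ?_)⟩
  · rw [← ENNReal.ofReal_mul (by positivity), e3]
  · rw [mul_add, ← ENNReal.ofReal_mul (by positivity)]
    refine add_le_add le_rfl (ENNReal.ofReal_le_ofReal ?_)
    have k1 := hk.le.trans (pow_le_pow_right₀ one_le_two h1)
    rw [div_le_iff₀ t0] at k1
    rw [e3, div_le_div_iff₀ (by positivity) (by norm_num)]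
    linarith

theorem XCtx.lev0 (h : XCtx V g C P T t mv dim K G Cf c b θ ch r R τ) (hτ : ∀ σ, 0 < τ' σ) :
    ∃ a₀ Bad, (∀ v, (Bad v).Finite) ∧ Lev0 g P t K G τ' a₀ Bad := by
  choose k₀ B hB hk using fun v (p : Rn 3 × Rn 3) => XPre1_one h hτ v p.1 p.2
  have fin := XPre1_fin h
  refine ⟨fun v => (fin v).toFinset.sup (k₀ v), fun v => ⋃ p ∈ {p : Rn 3 × Rn 3 | K.Edge p.1 p.2 ∧
    ∃ s ∈ Icc (0 : ℝ) 1, 0 < t v (G (seg p.1 p.2 s))}, B v p,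
    fun v => (fin v).biUnion fun p _ => hB v p, fun x y he _ v k S h1 h2 h3 h4 h5 => ?_⟩
  by_cases hp : ∃ s ∈ Icc (0 : ℝ) 1, 0 < t v (G (seg x y s))
  · have m : (x, y) ∈ {p : Rn 3 × Rn 3 | K.Edge p.1 p.2 ∧
        ∃ s ∈ Icc (0 : ℝ) 1, 0 < t v (G (seg p.1 p.2 s))} := ⟨he, hp⟩
    exact hk v (x, y) he k S ((Finset.le_sup ((fin v).mem_toFinset.2 m)).trans h1) h2
      (h3.mono_right (subset_biUnion_of_mem (u := B v) m)) h4 h5
  · have e : {s ∈ Icc (0 : ℝ) 1 | t v (G (seg x y s)) ∈ S} = ∅ :=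
      eq_empty_of_forall_notMem fun s hs =>
        hp ⟨s, hs.1, (half_pos h.api.g0.1).trans_le (h4 hs.2).1⟩
    rw [e]
    exact ⟨finite_empty, by simp⟩

end BEp
end
end

-- merged part: Pool.Agent.Work.MP_f0515e_an.P3.XPre
section
/-! The state before the exchange.
`lev0`: `cnt1` for a TP function equal to `t v ∘ G ∘ seg x y` on `[0, 1]`; for each class only finitely many oriented edges have an image meeting its star (`lf2`, `HIn.lf`, `KA2_fib`); for the others the set is empty.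
`xin`: `GM.lfm`, `XCtx.sma` and `HOk.sm`; `J` is a finite union of closed edges (`down`), `iw_iUnion`; `two_of_pc`; `XCtx.flat`, `bp_sat`.
`edges`: for an oriented edge let `S` be the set of those of the two free classes of `Sma` for which some `g < dev`, `W = ∑ v ∈ S, ncard / 2 ^ a v` the count for `Φ ∘ G ∘ seg` (at most the count for `G ∘ seg` by `keep`; the same number for both orientations), `Λ = 2 (W + τ' / 16) / (1 - g / 2)`; `edge_w` (ends: a vertex is a member of the family, a point cannot be invariant in a wall; `gh_nest` or `iw_nest` with `XLev.half`), `erp_exists`, `TameC.rev`, `TameC.congr`. On edges inside solids take `ρ = id`. About 500 lines; three tasks. -/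

open Set Metric Filter Topology Function BEv
open scoped NNReal

noncomputable section
namespace BEp

variable {n m : ℕ}

variable {ν ι : Type} {V : Set (Rn 3)} {g C : ℝ} {Cf : (Rn 3 ≃L[ℝ] Rn 3) → ℝ} {P : ι → Pc} {T : TS}
  {c : Rn 3 → ℝ} {t : ν → Rn 3 → ℝ} {mv : ν → Rn 3 → ℝ → Rn 3} {dim : ν → ℕ} {b : ν → Rn 3}
  {Ω : Set (Rn 3)} {K : Kx Ω} {G : Rn 3 → Rn 3} {θ : Rn 3 → ℝ} {ch : Set (Rn 3) → Ch}
  {r R τ : Set (Rn 3) → ℝ}
  {τ' : Set (Rn 3) → ℝ} {a r' : ν → ℕ} {Bad A : ν → Set ℝ} {e : ν → ℝ} {Φ : Rn 3 → Rn 3}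

/-- The classes which are far from the ends somewhere on the cell. -/
def XPc_S (g : ℝ) (t : ν → Rn 3 → ℝ) (G : Rn 3 → Rn 3) (σ : Set (Rn 3)) : Set ν :=
  {v | ∃ z ∈ closure σ, g < dev (t v (G z))}

/-- The speed on the cell. -/
def XPc_L (g : ℝ) (t : ν → Rn 3 → ℝ) (G : Rn 3 → Rn 3) (τ' : Set (Rn 3) → ℝ) (a : ν → ℕ)
    (A : ν → Set ℝ) (σ : Set (Rn 3)) : ℝ := 2 / (1 - g / 2) *
  (∑ᶠ v ∈ XPc_S g t G σ, ({z ∈ closure σ | t v (G z) ∈ A v}.ncard : ℝ) / 2 ^ a v + τ' σ / 16)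

theorem XPc_inj {x y : Rn 3} (h : x ≠ y) : Injective (seg x y) := fun _ _ e =>
  smul_left_injective ℝ (sub_ne_zero.2 h.symm) (add_left_cancel e)

theorem XPc_eq [Finite ι] (h : XCtx V g C P T t mv dim K G Cf c b θ ch r R τ) {x y : Rn 3}
    (he : K.Edge x y) (ho : Ofs P (openSegment ℝ x y)) : ∃ S : Finset ν, S.card ≤ 2 ∧
      (∀ v, v ∈ S ↔ ∃ s ∈ Icc (0 : ℝ) 1, g < dev (t v (G (seg x y s)))) ∧
      XPc_L g t G τ' a A (openSegment ℝ x y) = 2 / (1 - g / 2) *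
        (∑ v ∈ S, ({s ∈ Icc (0 : ℝ) 1 | t v (G (seg x y s)) ∈ A v}.ncard : ℝ) / 2 ^ a v +
          τ' (openSegment ℝ x y) / 16) := by
  classical
  obtain ⟨⟨j, k, h1⟩, -⟩ := h.sma he.2 (he.dm.le.trans one_le_two) ho
  have hg := h.api.g0.1
  have sub : XPc_S g t G (openSegment ℝ x y) ⊆ ({j, k} : Finset ν) := by
    rintro v ⟨z, hz, m⟩
    by_contra n
    simp only [Finset.coe_insert, Finset.coe_singleton, mem_insert_iff, mem_singleton_iff, not_or] at n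
    linarith [h1 v n.1 n.2 _ ⟨z, hz, rfl⟩]
  have fin := (Finset.finite_toSet _).subset sub
  refine ⟨fin.toFinset, (Finset.card_le_card (fin.toFinset_subset.2 sub)).trans Finset.card_le_two,
    fun v => ?_, ?_⟩
  · rw [fin.mem_toFinset, XPc_S, he.cl, ← seg_image, mem_ofPred_eq, exists_mem_image]
  · rw [XPc_L, finsum_mem_eq_finite_toFinset_sum _ fin]
    refine congrArg (fun w => _ * (w + _)) (Finset.sum_congr rfl fun v _ => ?_)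
    rw [← ncard_image_of_injective _ (XPc_inj he.1), he.cl, ← seg_image]
    refine congrArg (fun w : Set (Rn 3) => (w.ncard : ℝ) / _) (Set.ext fun z => ⟨?_, ?_⟩)
    · rintro ⟨⟨s, hs, rfl⟩, m⟩
      exact ⟨s, ⟨hs, m⟩, rfl⟩
    · rintro ⟨s, ⟨hs, m⟩, rfl⟩
      exact ⟨⟨s, hs, rfl⟩, m⟩

theorem XPc_up {S : Finset ν} (hS : S.card ≤ 2) (g0 : 0 < g ∧ g ≤ 1 / 8) {w : ν → ℝ} {δ : ℝ}
    {E : ν → ENNReal} (hδ : 0 < δ) (hw : ∀ v, 0 ≤ w v) (h : ∀ v, ENNReal.ofReal (w v) ≤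
      ENNReal.ofReal (1 / (1 - 5 * g / 2)) * E v + ENNReal.ofReal (δ / 16)) :
    ENNReal.ofReal (2 / (1 - g / 2) * (∑ v ∈ S, w v + δ / 16)) ≤
      ENNReal.ofReal (2 / ((1 - g / 2) * (1 - 5 * g / 2))) * ∑ v ∈ S, E v + ENNReal.ofReal δ := by
  have h1 : 0 < 1 - g / 2 := by linarith [g0.2]
  have h2 : 0 ≤ 2 / (1 - g / 2) := by positivity
  have h3 : ∑ v ∈ S, ENNReal.ofReal (w v) ≤
      ENNReal.ofReal (1 / (1 - 5 * g / 2)) * ∑ v ∈ S, E v + ENNReal.ofReal (2 * (δ / 16)) := by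
    refine (Finset.sum_le_sum fun v _ => h v).trans ?_
    rw [Finset.sum_add_distrib, ← Finset.mul_sum, Finset.sum_const, nsmul_eq_mul,
      ENNReal.ofReal_mul zero_le_two, ENNReal.ofReal_ofNat]
    exact add_le_add le_rfl (mul_le_mul' (by exact_mod_cast hS) le_rfl)
  rw [ENNReal.ofReal_mul h2, ENNReal.ofReal_add (Finset.sum_nonneg fun v _ => hw v) (by positivity),
    ENNReal.ofReal_sum_of_nonneg fun v _ => hw v]
  refine (mul_le_mul' le_rfl (add_le_add h3 le_rfl)).trans ?_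
  rw [add_assoc, mul_add, ← mul_assoc, ← ENNReal.ofReal_mul h2, div_mul_div_comm, mul_one,
    ← ENNReal.ofReal_add (by positivity) (by positivity), ← ENNReal.ofReal_mul h2]
  refine add_le_add le_rfl (ENNReal.ofReal_le_ofReal ?_)
  rw [div_mul_eq_mul_div, div_le_iff₀ h1]
  nlinarith [g0.2]

/-- A vertex is off the walls. -/
theorem XPc_vx (h : XCtx V g C P T t mv dim K G Cf c b θ ch r R τ)
    (k : HOk V t mv g P a Bad (fun σ : cS K P => G '' closure σ.1) A e Φ) {x y : Rn 3}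
    (he : K.Edge x y) (ho : Ofs P (openSegment ℝ x y)) (ω : ν × ℝ) : Φ (G x) ∉ gN V t A e ω := by
  intro m
  have hc : {x} ∈ K.cells := ⟨x, he.left.1, he.left.2⟩
  have e0 := k.lev.pos ω.1
  have m' : Φ (G x) ∈ gN V t A (fun v => 2 * e v) ω := ⟨m.1, m.2.1, m.2.2.trans (by linarith)⟩
  have i := k.iw ⟨{x}, hc, (KA2_single x).le.trans zero_le_two, h.down he.2 ho hc
    (he.cl ▸ singleton_subset_iff.2 (left_mem_segment ℝ x y))⟩ ω
  simp only [closure_singleton, image_singleton] at i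
  have h1 := (h.api.gf_t k.lev m' (s := 1) (by simp)).2.1
  have h2 := (h.api.gf_t k.lev m' (s := -1) (by simp)).2.1
  rw [i _ rfl m' 1 (by simp)] at h1
  rw [i _ rfl m' (-1) (by simp)] at h2
  linarith


theorem XCtx.edges [Finite ι] (h : XCtx V g C P T t mv dim K G Cf c b θ ch r R τ)
    (hτ : ∀ σ, 0 < τ' σ) {a₀ : ν → ℕ} (h0 : Lev0 g P t K G τ' a₀ Bad) (ha : ∀ v, a₀ v ≤ a v)
    (k : HOk V t mv g P a Bad (fun σ : cS K P => G '' closure σ.1) A e Φ) :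
    ∃ R₁ Λ, ERp K R₁ ∧ LUp g P t K G τ' Λ ∧ ∀ x y, K.Edge x y → Ofs P (openSegment ℝ x y) →
      PT V t mv A e (fun v => 1 / 2 ^ a v) (fun s => Φ (G (R₁ (seg x y s)))) (g / 4)
        fun _ => Λ (openSegment ℝ x y) := by
  have g0 := h.api.g0
  have h1 : 0 < 1 - g / 2 := by linarith [g0.2]
  have L0 : ∀ σ, 0 ≤ XPc_L g t G τ' a A σ := fun σ => mul_nonneg (by positivity)
    (add_nonneg (finsum_nonneg fun v => finsum_nonneg fun _ => by positivity) (by linarith [hτ σ]))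
  have cnt := fun x y he ho v => h0 x y he ho v (a v) (A v) (ha v) (k.lev.fin v) (k.bad v)
    (fun s hs => by constructor <;> linarith [k.lev.inn v s hs, k.lev.pos v, g0.1]) (k.gap v)
  obtain ⟨R₁, h2, h3⟩ := erp_exists K (Q := fun x y ρ => Ofs P (openSegment ℝ x y) →
      PT V t mv A e (fun v => 1 / 2 ^ a v) (fun s => Φ (G (seg x y (ρ s)))) (g / 4)
        fun _ => XPc_L g t G τ' a A (openSegment ℝ x y)) fun x y he => by
    by_cases ho : Ofs P (openSegment ℝ x y)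
    swap
    · exact ⟨id, ⟨TP.id', strictMono_id.strictMonoOn _, image_id _, rfl, rfl⟩, fun m => (ho m).elim⟩
    obtain ⟨S, -, hS, eL⟩ := XPc_eq (τ' := τ') (a := a) (A := A) h he ho
    have sm : ∀ s ∈ Icc (0 : ℝ) 1, seg x y s ∈ segment ℝ x y := fun s hs => seg_image x y ▸ ⟨s, hs, rfl⟩
    have sΩ : segment ℝ x y ⊆ Ω := he.seg_sub.trans (K.sk_sub 1)
    have GV : ∀ s ∈ Icc (0 : ℝ) 1, G (seg x y s) ∈ V := fun s hs => h.hin.sub ⟨_, sΩ (sm s hs), rfl⟩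
    obtain ⟨u, hu, eu⟩ := (k.gm.ltp.comp' h.hin.ltp fun z hz => h.hin.sub ⟨z, hz, rfl⟩) _
      (seg_image x y ▸ isCompact_Icc.image (tp_seg x y).continuous) sΩ
    have eγ : ∀ s ∈ Icc (0 : ℝ) 1, u (seg x y s) = Φ (G (seg x y s)) := fun s hs => (eu (sm s hs)).symm
    have sub : ∀ v, {s ∈ Icc (0 : ℝ) 1 | t v (u (seg x y s)) ∈ A v} ⊆
        {s ∈ Icc (0 : ℝ) 1 | t v (G (seg x y s)) ∈ A v} := fun v s hs => by
      have m := hs.2
      rw [eγ s hs.1] at m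
      exact ⟨hs.1, k.keep _ (GV s hs.1) v m ▸ m⟩
    refine (h.api.edge_w k.lev.half.1 (hu.comp (tp_seg x y))
      (fun s hs s' hs' m => XPc_inj he.1 (h.hin.inj (sΩ (sm s hs)) (sΩ (sm s' hs'))
        (k.gm.bij.injOn (GV s hs) (GV s' hs') (by rwa [← eγ s hs, ← eγ s' hs']))))
      (fun s hs => eγ s hs ▸ k.gm.bij.mapsTo (GV s hs)) (fun ω => ?_) (fun ω => ?_)
      (x := fun v => 1 / 2 ^ a v) (fun v => by positivity) S (fun s hs v m => ?_)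
      (fun v _ => (cnt x y he ho v).1.subset (sub v)) (d := g / 4) (by linarith [g0.1])
      (L0 (openSegment ℝ x y)) ?_).imp fun ρ ⟨hρ, pt⟩ => ⟨hρ, fun _ => TameC.congr pt
        (by linarith [g0.1]) fun s hs => eγ _ (hρ.2.2.1 ▸ ⟨s, hs, rfl⟩)⟩
    · have e1 : (fun s => u (seg x y s)) '' Icc 0 1 = Φ '' (G '' closure (openSegment ℝ x y)) := by
        rw [he.cl, ← seg_image, image_image, image_image]
        exact image_congr eγ
      rw [e1]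
      intro z hz m
      have e0 := k.lev.pos ω.1
      have e2 : |ω.2 - ω.2| + e ω.1 ≤ 2 * e ω.1 := by rw [sub_self, abs_zero]; linarith
      exact h.api.iw_nest k.lev k.lev.half.1 m.2.1 e2 m
        (k.iw ⟨_, he.2, he.dm.le.trans one_le_two, ho⟩ ω z hz ⟨m.1, m.2.1, m.2.2.trans (by linarith)⟩)
    · rw [eγ 0 (by simp), eγ 1 (by simp), seg, seg, zero_smul, add_zero, one_smul, add_sub_cancel]
      exact ⟨XPc_vx h k he ho ω, XPc_vx h k he.symm (openSegment_symm ℝ x y ▸ ho) ω⟩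
    · have m' := k.lev.inn v _ (sub v ⟨hs, m⟩).2
      have e0 := k.lev.pos v
      exact (hS v).2 ⟨s, hs, lt_min (by linarith [m'.1]) (by linarith [m'.2])⟩
    · have : ∑ v ∈ S, ({s ∈ Icc (0 : ℝ) 1 | t v (u (seg x y s)) ∈ A v}.ncard : ℝ) * (1 / 2 ^ a v) ≤
          ∑ v ∈ S, ({s ∈ Icc (0 : ℝ) 1 | t v (G (seg x y s)) ∈ A v}.ncard : ℝ) / 2 ^ a v :=
        Finset.sum_le_sum fun v _ => by
          rw [mul_one_div]
          exact div_le_div_of_nonneg_right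
            (Nat.cast_le.2 (ncard_le_ncard (sub v) (cnt x y he ho v).1)) (by positivity)
      rw [eL, show 1 - 2 * (g / 4) = 1 - g / 2 by ring, mul_right_comm, div_mul_cancel₀ _ h1.ne']
      linarith [hτ (openSegment ℝ x y)]
  refine ⟨R₁, XPc_L g t G τ' a A, h2, ⟨L0, fun x y he ho => ?_⟩, fun x y he ho => ?_⟩
  · obtain ⟨S, c2, hS, eL⟩ := XPc_eq (τ' := τ') (a := a) (A := A) h he ho
    refine ⟨S, c2, fun v => (hS v).1, ?_⟩
    rw [eL]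
    exact XPc_up c2 g0 (hτ _) (fun v => by positivity) fun v => (cnt x y he ho v).2
  · rcases h3 x y he with ⟨ρ, q, e1⟩ | ⟨ρ, q, e1⟩
    · exact TameC.congr (q ho) (by linarith [g0.1]) fun s hs => by simp only [e1 s hs]
    · rw [openSegment_symm] at q
      exact TameC.congr (TameC.rev (q ho)) (by linarith [g0.1]) fun s hs => by simp only [e1 s hs]

theorem XCtx.pre3 [Finite ι] (h : XCtx V g C P T t mv dim K G Cf c b θ ch r R τ)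
    (hτ : ∀ σ, 0 < τ' σ) : ∃ a r' A e Φ R₁ Λ, Pre3 V g P t mv dim K G τ' a r' A e Φ R₁ Λ := by
  obtain ⟨a₀, Bad, hb, h0⟩ := h.lev0 hτ
  obtain ⟨a, r', ha, he⟩ := h.api.exps a₀
  obtain ⟨A, e, Φ, k⟩ := h.api.hp h.sfm (fun σ => h.sma σ.2.1 σ.2.2.1 σ.2.2.2) a hb
  obtain ⟨R₁, Λ, k1, k2, k3⟩ := h.edges hτ h0 ha k
  exact ⟨a, r', A, e, Φ, R₁, Λ, h.xin k he, k.card, k.gm, k.sm, k.bp, k1, k3, k2⟩

end BEp
end
end

-- merged part: Pool.Agent.Work.MP_f0515e_an.P3.XMid1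
section
/-! The state before crushing: the step on one face. -/

open Set Metric Filter Topology Function BEv
open scoped NNReal

noncomputable section
namespace BEp

variable {n m : ℕ}

variable {ν ι : Type} {V : Set (Rn 3)} {g C : ℝ} {Cf : (Rn 3 ≃L[ℝ] Rn 3) → ℝ} {P : ι → Pc} {T : TS}
  {c : Rn 3 → ℝ} {t : ν → Rn 3 → ℝ} {mv : ν → Rn 3 → ℝ → Rn 3} {dim : ν → ℕ} {b : ν → Rn 3}
  {Ω : Set (Rn 3)} {K : Kx Ω} {G : Rn 3 → Rn 3} {θ : Rn 3 → ℝ} {ch : Set (Rn 3) → Ch}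
  {r R τ : Set (Rn 3) → ℝ}
  {τ' ℓ Λ sp : Set (Rn 3) → ℝ} {a r' : ν → ℕ} {A : ν → Set ℝ} {e : ν → ℝ} {Φ R₁ Ψ : Rn 3 → Rn 3}
  {p C0 : ℝ}

theorem XMid1_inv {α β : Type} {f : α → β} {k : β → α} {s : Set α} {s' : Set β} (h : BijOn f s s')
    (e : ∀ x ∈ s, k (f x) = x) : BijOn k s' s :=
  h.symm ⟨fun y hy => by obtain ⟨x, hx, rfl⟩ := h.surjOn hy; rw [e x hx], e⟩

/-- A parametrisation of the image of `X` comes from a self-map of `X`. -/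
theorem XMid1_lift {X : Set (Rn 3)} (hX : Poly X) {w w' : Rn 3 → Rn 3} (hw : TP w')
    (e : EqOn w w' X) (hi : InjOn w X) {ψ k : Rn 2 → Rn 3} (hψ : TP ψ) (bψ : BijOn ψ Tri X)
    (hk : TP k) (bk : BijOn k Tri (w '' X)) :
    ∃ R₂, TP R₂ ∧ BijOn R₂ X X ∧ ∀ q ∈ Tri, w (R₂ (ψ q)) = k q := by
  obtain ⟨κ, hκ, eκ⟩ := tp_linv hX hw (hi.congr e)
  obtain ⟨χ', hχ', eχ'⟩ := tp_linv pdsc_tri.poly hψ bψ.injOn
  have e' : ∀ x ∈ X, κ (w x) = x := fun x hx => by rw [e hx, eκ x hx]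
  refine ⟨κ ∘ k ∘ χ', hκ.comp (hk.comp hχ'),
    (XMid1_inv hi.bijOn_image e').comp (bk.comp (XMid1_inv bψ eχ')), fun q hq => ?_⟩
  obtain ⟨x, hx, ex⟩ := bk.mapsTo hq
  simp only [comp_apply, eχ' q hq, ← ex, e' x hx]

theorem XCtx.face_step [Finite ι] (h : XCtx V g C P T t mv dim K G Cf c b θ ch r R τ)
    (q : Pre3 V g P t mv dim K G τ' a r' A e Φ R₁ Λ)
    (x : XOut V t mv g P A e a r' (fun F : cF K P => Φ '' (G '' closure F.1))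
      (fun F : cF K P => Φ '' (G '' (closure F.1 \ F.1))) Ψ)
    (hℓ : Sca C P T K G ℓ) (s0 : ∀ σ, 0 ≤ sp σ) (hs : ∀ σ, 40 * C ^ 13 * ℓ σ * Λ σ ≤ sp σ)
    (hp : 1 ≤ p) (hC : 10 ^ 9 ≤ C0) {F : Set (Rn 3)} (hF : F ∈ K.cel 2) (ho : Ofs P F) :
    ∃ (R₂ : Rn 3 → Rn 3) (χ : Rn 2 → Rn 2) (η : ℝ), TP R₂ ∧ BijOn R₂ (closure F) (closure F) ∧
      EqOn R₂ R₁ (closure F \ F) ∧ TP χ ∧ MapsTo χ Tri (closure (ch F).U) ∧ 0 < η ∧
      ∀ Γ H : Rn 3 → Rn 3, (∀ z ∈ closure F, Γ z = Ψ (Φ (G (R₂ z)))) →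
        Crush (gN V t (cA A e r') (cE e (g / 4) r' r')) (gf mv (cE e (g / 4) r' r'))
          (fun ω => 20 * C ^ 11 * ℓ F / (cA A e r' ω.1).ncard) Tri
          (fun q => Γ ((ch F).φ (χ q))) (fun q => H ((ch F).φ (χ q))) η →
        FaceBd K (ch F) sp p (C0 * (R F / r F) ^ 6) (R F) (τ F) H ∧
          LipBd K (ch F) sp (C0 * (R F / r F) ^ 6) (τ F) H := by
  have g0 := h.api.g0
  have C1 := h.api.C1
  have hΩ := Kx.cl_sub hF.1
  have hP := Kx.cells_poly hF.1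
  have hch := (h.hin.chart F hF).1
  have l0 := hℓ.1 F
  obtain ⟨χ, a₀, Λ', hχ, bχ, bχ', ha, hA, hB⟩ := zchart2 hF hch (h.hin.chart F hF).2 s0
    (d := g / 4) (by linarith [g0.1]) hp hC
  have hD : 0 ≤ 40 * C ^ 11 * ℓ F := by positivity
  obtain ⟨A1, A2⟩ := hA _ (gN V t A e) (gf mv e) (fun ω => 40 * C ^ 11 * ℓ F * (1 / 2 ^ a ω.1))
    (fun z => Φ (G (R₁ z))) fun y z he hs' => by
      have ho' := h.down hF.1 ho he.2 hs'
      refine TameC.mono (q.pt y z he ho') fun ω => Jv.mono hD le_rfl fun _ =>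
        le_trans (mul_le_mul_of_nonneg_right ?_ (q.up.1 _)) (hs _)
      have m : y ∈ closure (openSegment ℝ y z) := he.cl ▸ left_mem_segment ℝ y z
      have h1 := (hℓ.2 F hF.1 hF.2.le ho y (closure_minimal hs' isClosed_closure m)).1
      have h2 := (hℓ.2 _ he.2 (he.dm.le.trans one_le_two) ho' y m).2
      exact (mul_le_mul_of_nonneg_left (h1.trans (mul_le_mul_of_nonneg_left h2 (by linarith)))
        (by positivity)).trans_eq (by ring)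
  have bψ : BijOn ((ch F).φ ∘ χ) Tri (closure F) := hch.cl ▸ hch.inj.injOn.bijOn_image.comp bχ
  have bψ' : BijOn ((ch F).φ ∘ χ) bTri (closure F \ F) :=
    hch.fr ▸ hch.inj.injOn.bijOn_image.comp bχ'
  obtain ⟨⟨u, hu, eu⟩, bR⟩ := q.erp.bd hF
  have mG : MapsTo G Ω V := fun z hz => h.hin.sub ⟨z, hz, rfl⟩
  have lG := q.gm.ltp.comp' h.hin.ltp mG
  have iG := q.gm.bij.injOn.comp h.hin.inj mG
  have mG' := q.gm.bij.mapsTo.comp mG
  have iw := (x.gm.bij.injOn.comp iG mG').mono hΩ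
  obtain ⟨u₁, hu₁, eu₁⟩ := lG _ hP.1 hΩ
  obtain ⟨w, hw, ew⟩ := x.gm.ltp.comp' lG mG' _ hP.1 hΩ
  have hψ := (ch F).tp.comp hχ
  have eβ : ∀ s ∈ bTri, Φ (G (R₁ ((ch F).φ (χ s)))) = u₁ (u ((ch F).φ (χ s))) := fun s hs =>
    (eu₁ (bR.mapsTo (bψ'.mapsTo hs)).1).trans (congrArg u₁ (eu (bψ'.mapsTo hs)))
  obtain ⟨k, k1, k2, k3, ⟨𝒥, k4, k5, k6⟩, k7⟩ := x.face ⟨F, hF, ho⟩
    (fun s => u₁ (u ((ch F).φ (χ s)))) a₀ Λ' _ ha hD (hu₁.comp (hu.comp hψ))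
    (image_comp Φ G _ ▸ (((iG.mono (sdiff_subset.trans hΩ)).bijOn_image.comp bR).comp bψ').congr eβ)
    (fun s hs e ω => eβ s hs ▸ A2 s hs e ω)
    (TameC.congr A1 ha.le fun s hs => eβ _ (epr_diag hs.1 hs.2))
  obtain ⟨R₂, r1, r2, r3⟩ := XMid1_lift hP hw ew iw hψ bψ k1 (by rwa [image_comp, image_comp])
  obtain ⟨η, hη, hB'⟩ := hB (τ F) (h.hin.τ0 F)
  obtain ⟨hL, -, -, hn, -⟩ := can_lev q.xin.lev.half.1 (κ := g / 4) (by linarith [g0.1])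
    (by linarith [g0.2]) (r := r') (i := r') fun _ => le_rfl
  refine ⟨R₂, χ, η, r1, r2, fun z hz => ?_, hχ, bχ.mapsTo, hη, fun Γ H hΓ hc => ?_⟩
  · obtain ⟨s, hs, rfl⟩ := bψ'.surjOn hz
    exact iw (r2.mapsTo hz.1) (bR.mapsTo hz).1
      (((r3 s hs.1).trans (k3 hs)).trans (congrArg Ψ (eβ s hs).symm))
  have ek : EqOn k (fun q => Γ ((ch F).φ (χ q))) Tri := fun s hs =>
    (r3 s hs).symm.trans (hΓ _ (bψ.mapsTo hs)).symm
  have pos : ∀ y ω, y ∈ gN V t (cA A e r') (cE e (g / 4) r' r') ω → 0 < t ω.1 y := fun y ω m =>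
    g0.1.trans ((XExch_dev hL m).trans_le (min_le_left _ _))
  refine hB' _ _ _ _ (fun ω => dim ω.1) 𝒥 _ H (fun ω => h.api.dim4 _)
    (fun y ω ω' m m' e => hL.uniq m m' (h.api.col y m.1 _ _ (pos y ω m) (pos y ω' m') e)) k4
    (fun ω => (k5 ω).trans (Jv.mono zero_le_one ?_ fun s => (one_mul _).le))
    (XExch_tame k6 ek) (XExch_frX k7 ek) hc
  have h2 : 1 / 2 ≤ (1 - g / 4) ^ 2 := by nlinarith [g0.1, g0.2]
  simp only [one_mul, hn, q.card, ← mul_div_assoc, pow_add, mul_comm ((2 : ℝ) ^ a ω.1),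
    Nat.cast_mul, Nat.cast_pow, Nat.cast_ofNat]
  exact div_le_div_of_nonneg_right (by nlinarith) (by positivity)

end BEp
end
end

-- merged part: Pool.Agent.Work.MP_f0515e_an.P3.XMid
section
/-! The state before crushing.
`face_step`: `zchart2` with `d = g / 4`; clause (A) for the base walls, the map `Φ ∘ G ∘ R₁` and the weights `D / 2 ^ a`, `D = 40 C ^ 11 ℓ F ≤ 40 C ^ 13 ℓ e` for the edges `e` of `F` (`Sca`, `XCtx.down`, `Pre3.pt`, `Jv.mono`). `β` is a TP map equal to `Φ ∘ G ∘ R₁ ∘ φ ∘ χ` on `bTri` (`ERp.bd`, `Ch.Of.fr`); `XOut.face` gives `k`; `R₂ = κ ∘ k ∘ χ'` with `tp_linv` for `Ψ ∘ Φ ∘ G` on `closure F` and for `φ ∘ χ` on `Tri`. Clause (B) with the colours `dim ω.1` (`Api.col`, `XLev.uniq`), `can_lev` for the number of the finest levels, `1 / 2 ≤ (1 - g / 4) ^ 2`.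
`bar_mid`: `cell_bd`, `HIn.lat`, `rig`, `Api.bar` (in both directions, `XEq` is symmetric). `line_mid`: take a face `F` over the edge (`chd_ofs`, `up`); its image has `One (g / 4)` (`chd_uq`, `sma`, `Pre3.sm`); `XOut.line`.
`mid`: `exch`, choose `R₂`, `xcell_ext`, `Γ = Ψ ∘ Φ ∘ G ∘ R'`; `chn`: two steps (`sma`, `sm`, `one`) and `XOut.chn`; `lf`: `GM.cpt` twice; `pt`: an edge lies in the boundary of a face (`up`), `XOut.path` with `D = 1`, `XOut.gh.two`. About 600 lines; three tasks. -/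

open Set Metric Filter Topology Function BEv
open scoped NNReal

noncomputable section
namespace BEp

variable {n m : ℕ}

variable {ν ι : Type} {V : Set (Rn 3)} {g C : ℝ} {Cf : (Rn 3 ≃L[ℝ] Rn 3) → ℝ} {P : ι → Pc} {T : TS}
  {c : Rn 3 → ℝ} {t : ν → Rn 3 → ℝ} {mv : ν → Rn 3 → ℝ → Rn 3} {dim : ν → ℕ} {b : ν → Rn 3}
  {Ω : Set (Rn 3)} {K : Kx Ω} {G : Rn 3 → Rn 3} {θ : Rn 3 → ℝ} {ch : Set (Rn 3) → Ch}
  {r R τ : Set (Rn 3) → ℝ}
  {τ' ℓ Λ sp : Set (Rn 3) → ℝ} {a r' : ν → ℕ} {A : ν → Set ℝ} {e : ν → ℝ} {Φ R₁ Ψ : Rn 3 → Rn 3}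
  {p C0 : ℝ}

theorem XCtx.mid [Finite ι] (h : XCtx V g C P T t mv dim K G Cf c b θ ch r R τ)
    (q : Pre3 V g P t mv dim K G τ' a r' A e Φ R₁ Λ) (hℓ : Sca C P T K G ℓ) (s0 : ∀ σ, 0 ≤ sp σ)
    (hs : ∀ σ, 40 * C ^ 13 * ℓ σ * Λ σ ≤ sp σ) (hp : 1 ≤ p) (hC : 10 ^ 9 ≤ C0) :
    ∃ A' ε Γ, Mid V g C P t mv K G p C0 ch r R τ ℓ Λ sp A' ε Γ := by
  obtain ⟨Ψ, x⟩ := h.api.exch q.xin
  have g0 := h.api.g0
  choose! R₂ χ η h1 h2 h3 h4 h5 h6 h7 using fun F (hF : F ∈ {F | F ∈ K.cel 2 ∧ Ofs P F}) =>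
    h.face_step q x hℓ s0 hs hp hC hF.1 hF.2
  obtain ⟨R', k1, k2, k3, k4, k5⟩ := xcell_ext q.erp (𝓕 := {F | F ∈ K.cel 2 ∧ Ofs P F})
    (fun F hF => hF.1) fun F hF => ⟨h1 F hF, h2 F hF, h3 F hF⟩
  obtain ⟨lv, -, -, cd, -⟩ := can_lev q.xin.lev.half.1 (κ := g / 4) (by linarith [g0.1])
    (by linarith [g0.2]) (r := r') (i := r') fun _ => le_rfl
  have mR : MapsTo R' Ω Ω := fun z hz =>
    Kx.cells_sub (K.cell_mem hz) ((k2 _ (K.cell_mem hz)).mapsTo (K.mem z hz))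
  have iR : InjOn R' Ω := fun z hz z' hz' m => by
    have a1 := (k2 _ (K.cell_mem hz)).mapsTo (K.mem z hz)
    have a2 := (k2 _ (K.cell_mem hz')).mapsTo (K.mem z' hz')
    have a3 : K.cell z' = K.cell z := (K.eqv z' hz' _ a2).symm.trans (m ▸ K.eqv z hz _ a1)
    exact (k2 _ (K.cell_mem hz)).injOn (K.mem z hz) (a3 ▸ K.mem z' hz') m
  have mG : MapsTo G Ω V := fun z hz => h.hin.sub ⟨z, hz, rfl⟩
  have m1 : ∀ z ∈ Ω, G (R' z) ∈ V := fun z hz => mG (mR hz)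
  have m2 : ∀ z ∈ Ω, Φ (G (R' z)) ∈ V := fun z hz => q.gm.bij.mapsTo (m1 z hz)
  have sm : ∀ y z : Rn 3, ∀ s ∈ Icc (0 : ℝ) 1, seg y z s ∈ segment ℝ y z := fun y z s hs =>
    seg_image y z ▸ ⟨s, hs, rfl⟩
  refine ⟨cA A e r', cE e (g / 4) r' r', fun z => Ψ (Φ (G (R' z))), lv,
    x.gm.ltp.comp' (q.gm.ltp.comp' (h.hin.ltp.comp' k1 mR) m1) m2,
    fun z hz z' hz' m => iR hz hz' (h.hin.inj (mR hz) (mR hz') (q.gm.bij.injOn (m1 z hz) (m1 z' hz')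
      (x.gm.bij.injOn (m2 z hz) (m2 z' hz') m))), ?_, fun σ hσ hd ho z hz z' hz' => ?_,
    fun i hi => h.bar_mid q.gm q.bp x.gm x.fix k2 hi, fun Z hZ hV => ?_, fun y z he ho => ?_,
    fun F hF ho => ⟨χ F, η F, h4 F ⟨hF, ho⟩, h5 F ⟨hF, ho⟩, h6 F ⟨hF, ho⟩, fun H =>
      h7 F ⟨hF, ho⟩ _ H fun z hz => by rw [← k5 F ⟨hF, ho⟩ hz]⟩,
    fun i j hi y z he hs s hs' ω hω => h.line_mid q x hi he hs
      (he.cl ▸ k3 _ he.2 (he.cl.symm ▸ sm y z s hs')) hω⟩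
  · rintro _ ⟨z, hz, rfl⟩
    exact x.gm.bij.mapsTo (m2 z hz)
  · have a1 := mG (Kx.cl_sub hσ hz)
    have a2 := m1 z' (Kx.cl_sub hσ hz')
    obtain ⟨v, hv⟩ := h.api.one _ a1
    obtain ⟨w, hw⟩ := h.api.one _ a2
    have a3 := (abs_le.1 ((h.sma hσ hd ho).2 v _ ⟨z, hz, rfl⟩ _ ⟨_, k3 σ hσ hz', rfl⟩)).2
    have a4 := (abs_le.1 (q.sm _ a2 w)).1
    exact ((h.api.chn1 a1 ⟨v, by linarith, by linarith [g0.2]⟩).trans (h.api.chn1 a2
      ⟨w, by linarith, by linarith [g0.2]⟩)).trans (x.chn _ (m2 z' (Kx.cl_sub hσ hz')))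
  · obtain ⟨Z₁, a1, a2, a3⟩ := x.gm.cpt hZ hV
    obtain ⟨Z₂, a4, a5, a6⟩ := q.gm.cpt a1 a2
    refine (h.hin.lf Z₂ a4 a5).subset ?_
    rintro σ ⟨hσ, hd, -, _, ⟨z, hz, rfl⟩, m⟩
    have hz' := Kx.cl_sub hσ hz
    exact ⟨hσ, hd, _, ⟨_, k3 σ hσ hz, rfl⟩, a6 _ (m1 z hz') (a3 _ (m2 z hz') m)⟩
  · obtain ⟨F, hF, oF, sF⟩ := h.up he.2 (he.dm.le.trans one_le_two) ho
    obtain ⟨u, hu⟩ := Kx.cells_ne he.2
    have bd : segment ℝ y z ⊆ closure F \ F := by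
      rw [← he.cl, ← Kx.cell_eq he.2 hu]
      refine XPre2_bd hF.1 ⟨sF hu, fun m => ?_⟩
      have a1 := he.dm
      rw [← Kx.cell_eq he.2 hu, Kx.cell_eq hF.1 m, hF.2] at a1
      exact absurd a1 (by decide)
    have eR : ∀ s ∈ Icc (0 : ℝ) 1, R' (seg y z s) = R₁ (seg y z s) := fun s hs =>
      k4 (he.seg_sub (sm y z s hs))
    have mJ : ∀ s ∈ Icc (0 : ℝ) 1, Φ (G (R₁ (seg y z s))) ∈ Φ '' (G '' (closure F \ F)) :=
      fun s hs => ⟨_, ⟨_, bd ((q.erp.ed y z he).2.mapsTo (sm y z s hs)), rfl⟩, rfl⟩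
    refine ⟨?_, fun s hs ω ω' m m' => lv.uniq m m' (x.gh.two ⟨F, hF, oF⟩ _
      ⟨_, mJ s hs, by rw [← eR s hs]⟩ ω ω' m m')⟩
    have pt := x.path ⟨F, hF, oF⟩ _ (g / 4) (fun _ => Λ (openSegment ℝ y z)) 1 (by linarith [g0.1])
      zero_le_one mJ (by simpa only [one_mul] using q.pt y z he ho)
    refine TameC.mono (TameC.congr pt (by linarith [g0.1]) fun s hs => ?_) fun ω => subset_of_eq ?_
    · simp only [comp, eR s hs]
    · simp only [cd, q.card, one_mul, pow_add, mul_comm, Nat.cast_mul, Nat.cast_pow, Nat.cast_ofNat]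

end BEp
end
end
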