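import Pool.Agent.Work.MP_f0515e_an.P3.YFl1

/-! Cube coordinates and barycentric coordinates. -/

open Set Metric Filter Topology Function BEv MeasureTheory
open scoped NNReal ENNReal

noncomputable section
namespace BEp

variable {T T' w w' : Rn 4} {S : Finset (Fin 4)}

theorem YIo_f1 (a b c d : ℝ) : yf a b c d = yf a c b d := by
  simp only [yf, min_comm c b, min_left_comm c b]
  ring

theorem YIo_f2 (a b c d : ℝ) : yf a b c d = yf a b d c := by
  simp only [yf, min_comm d c]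
  ring

theorem YIo_g1 (a b c d : ℝ) : yg a b c d = yg a c b d := by
  simp only [yg]
  ring

theorem YIo_g2 (a b c d : ℝ) : yg a b c d = yg a b d c := by
  simp only [yg]
  ring

theorem YIo_sort {P : ℝ → ℝ → ℝ → Prop} (s1 : ∀ b c d, P b c d → P c b d)
    (s2 : ∀ b c d, P b c d → P b d c) (h : ∀ b c d, c ≤ b → d ≤ c → P b c d) (b c d : ℝ) :
    P b c d := by
  rcases le_total c b with h1 | h1 <;> rcases le_total d c with h2 | h2
  · exact h b c d h1 h2
  · rcases le_total d b with h3 | h3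
    · exact s2 _ _ _ (h b d c h3 h2)
    · exact s2 _ _ _ (s1 _ _ _ (h d b c h3 h1))
  · rcases le_total d b with h3 | h3
    · exact s1 _ _ _ (h c b d h1 h3)
    · exact s1 _ _ _ (s2 _ _ _ (h c d b h2 h3))
  · exact s1 _ _ _ (s2 _ _ _ (s1 _ _ _ (h d c b h2 h1)))

theorem YIo_gf (a b c d : ℝ) : yg (yf a b c d) (yf b a c d) (yf c a b d) (yf d a b c) = a := by
  revert b c d
  refine YIo_sort (fun b c d h => ?_) (fun b c d h => ?_) fun b c d h4 h6 => ?_
  · rw [YIo_g1, YIo_f1 a c, YIo_f2 d a c, h]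
  · rw [YIo_g2, YIo_f2 a b d, YIo_f2 b a d, h]
  · have h5 := h6.trans h4
    rcases le_total a b with h1 | h1 <;> rcases le_total a c with h2 | h2 <;>
      rcases le_total a d with h3 | h3 <;>
      simp only [yf, yg, min_eq_left, min_eq_right, h1, h2, h3, h4, h5, h6] <;>
      simp only [min_def] <;> split_ifs <;> linarith

theorem YIo_fs {a b c d : ℝ} (h4 : c ≤ b) (h6 : d ≤ c) :
    yf a b c d = a - min a b / 2 - min a c / 6 - min a d / 12 := by
  simp only [yf, min_eq_right, h4, h6, h6.trans h4]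
  ring

theorem YIo_fg (a b c d : ℝ) : yf (yg a b c d) (yg b a c d) (yg c a b d) (yg d a b c) = a := by
  revert b c d
  refine YIo_sort (fun b c d h => ?_) (fun b c d h => ?_) fun b c d h4 h6 => ?_
  · rw [YIo_f1, YIo_g1 a c, YIo_g2 d a c, h]
  · rw [YIo_f2, YIo_g2 a b d, YIo_g2 b a d, h]
  · have h5 := h6.trans h4
    rcases le_total a b with h1 | h1 <;> rcases le_total a c with h2 | h2 <;>
      rcases le_total a d with h3 | h3 <;>
      simp only [yg, min_eq_left, min_eq_right, h1, h2, h3, h4, h5, h6] <;>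
      rw [YIo_fs (by linarith) (by linarith)] <;> simp only [min_def] <;> split_ifs <;> linarith

theorem YIo_sum (a b c d : ℝ) :
    yf a b c d + yf b a c d + yf c a b d + yf d a b c = max a (max b (max c d)) := by
  rcases le_total a b with h1 | h1 <;> rcases le_total a c with h2 | h2 <;>
    rcases le_total a d with h3 | h3 <;> rcases le_total b c with h4 | h4 <;>
    rcases le_total b d with h5 | h5 <;> rcases le_total c d with h6 | h6 <;>
    simp only [yf, min_eq_left, min_eq_right, max_eq_left, max_eq_right, h1, h2, h3, h4, h5,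
      h6] <;> linarith

theorem YIo_bd' {a : ℝ} (ha : 0 ≤ a) (b c d : ℝ) :
    0 ≤ b → 0 ≤ c → 0 ≤ d → a / 4 ≤ yf a b c d ∧ yf a b c d ≤ a := by
  revert b c d
  refine YIo_sort (fun b c d h hc hb hd => YIo_f1 a b c d ▸ h hb hc hd)
    (fun b c d h hb hd hc => YIo_f2 a b c d ▸ h hb hc hd) fun b c d h4 h6 hb hc hd => ?_
  have h5 := h6.trans h4
  rcases le_total a b with h1 | h1 <;> rcases le_total a c with h2 | h2 <;>
    rcases le_total a d with h3 | h3 <;>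
    simp only [yf, min_eq_left, min_eq_right, h1, h2, h3, h4, h5, h6] <;>
    constructor <;> linarith

theorem YIo_bd {a b c d : ℝ} (ha : 0 ≤ a) (hb : 0 ≤ b) (hc : 0 ≤ c) (hd : 0 ≤ d) :
    a / 4 ≤ yf a b c d ∧ yf a b c d ≤ a := YIo_bd' ha b c d hb hc hd

theorem YIo_m2 {a b a' b' : ℝ} (h : 0 ≤ (a - b) * (a' - b')) :
    min (a + a') (b + b') = min a b + min a' b' := by
  rcases mul_nonneg_iff.1 h with ⟨h1, h2⟩ | ⟨h1, h2⟩
  · rw [min_eq_right (by linarith), min_eq_right (by linarith), min_eq_right (by linarith)]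
  · rw [min_eq_left (by linarith), min_eq_left (by linarith), min_eq_left (by linarith)]

theorem YIo_c3 {a b c a' b' c' : ℝ} (ab : 0 ≤ (a - b) * (a' - b')) (ac : 0 ≤ (a - c) * (a' - c'))
    (bc : 0 ≤ (b - c) * (b' - c')) : 0 ≤ (a - min b c) * (a' - min b' c') := by
  rcases mul_nonneg_iff.1 bc with ⟨h1, h2⟩ | ⟨h1, h2⟩
  · rwa [min_eq_right (by linarith), min_eq_right (by linarith)]
  · rwa [min_eq_left (by linarith), min_eq_left (by linarith)]

theorem YIo_add {a b c d a' b' c' d' : ℝ} (ab : 0 ≤ (a - b) * (a' - b'))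
    (ac : 0 ≤ (a - c) * (a' - c')) (ad : 0 ≤ (a - d) * (a' - d')) (bc : 0 ≤ (b - c) * (b' - c'))
    (bd : 0 ≤ (b - d) * (b' - d')) (cd : 0 ≤ (c - d) * (c' - d')) :
    yf (a + a') (b + b') (c + c') (d + d') = yf a b c d + yf a' b' c' d' := by
  simp only [yf]
  rw [YIo_m2 bc, YIo_m2 bd, YIo_m2 cd, YIo_m2 (YIo_c3 bc bd cd), YIo_m2 ab, YIo_m2 ac, YIo_m2 ad,
    YIo_m2 (YIo_c3 ab ac bc), YIo_m2 (YIo_c3 ab ad bd), YIo_m2 (YIo_c3 ac ad cd),
    YIo_m2 (YIo_c3 ab (YIo_c3 ac ad cd) (YIo_c3 bc bd cd))]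
  ring

theorem YIo_ml {a b a' b' M : ℝ} (h1 : |a - a'| ≤ M) (h2 : |b - b'| ≤ M) :
    |min a b - min a' b'| ≤ M := (abs_min_sub_min_le_max a b a' b').trans (max_le h1 h2)

theorem YIo_lf {a b c d a' b' c' d' M : ℝ} (ha : |a - a'| ≤ M) (hb : |b - b'| ≤ M)
    (hc : |c - c'| ≤ M) (hd : |d - d'| ≤ M) : |yf a b c d - yf a' b' c' d'| ≤ 4 * M := by
  have k0 := abs_le.1 ha
  have k1 := abs_le.1 (YIo_ml ha hb)
  have k2 := abs_le.1 (YIo_ml ha hc)
  have k3 := abs_le.1 (YIo_ml ha hd)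
  have k4 := abs_le.1 (YIo_ml ha (YIo_ml hb hc))
  have k5 := abs_le.1 (YIo_ml ha (YIo_ml hb hd))
  have k6 := abs_le.1 (YIo_ml ha (YIo_ml hc hd))
  have k7 := abs_le.1 (YIo_ml ha (YIo_ml hb (YIo_ml hc hd)))
  simp only [yf, abs_le]
  constructor <;> linarith [k0.1, k0.2, k1.1, k1.2, k2.1, k2.2, k3.1, k3.2, k4.1, k4.2, k5.1, k5.2,
    k6.1, k6.2, k7.1, k7.2]

theorem YIo_lg {a b c d a' b' c' d' M : ℝ} (ha : |a - a'| ≤ M) (hb : |b - b'| ≤ M)
    (hc : |c - c'| ≤ M) (hd : |d - d'| ≤ M) : |yg a b c d - yg a' b' c' d'| ≤ 4 * M := by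
  have k0 := abs_le.1 ha
  have k1 := abs_le.1 (YIo_ml ha hb)
  have k2 := abs_le.1 (YIo_ml ha hc)
  have k3 := abs_le.1 (YIo_ml ha hd)
  simp only [yg, abs_le]
  constructor <;> linarith [k0.1, k0.2, k1.1, k1.2, k2.1, k2.2, k3.1, k3.2]

theorem YIo_tf {a b c d : Rn 4 → ℝ} (ha : TP a) (hb : TP b) (hc : TP c) (hd : TP d) :
    TP fun x => yf (a x) (b x) (c x) (d x) :=
  ((ha.sub ((((ha.min hb).add (ha.min hc)).add (ha.min hd)).div_const 2)).add
    ((((ha.min (hb.min hc)).add (ha.min (hb.min hd))).add (ha.min (hc.min hd))).div_const 3)).sub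
    ((ha.min (hb.min (hc.min hd))).div_const 4)

theorem YIo_tg {a b c d : Rn 4 → ℝ} (ha : TP a) (hb : TP b) (hc : TP c) (hd : TP d) :
    TP fun x => yg (a x) (b x) (c x) (d x) :=
  ((ha.add (ha.min hb)).add (ha.min hc)).add (ha.min hd)

theorem YIo_sm {s : ℝ} (hs : 0 ≤ s) (a b c d : ℝ) :
    yf (s * a) (s * b) (s * c) (s * d) = s * yf a b c d := by
  simp only [yf, ← mul_min_of_nonneg _ _ hs]
  ring

theorem YIo_gm {a b c d : ℝ} (ha : 0 ≤ a) (hb : 0 ≤ b) (hc : 0 ≤ c) (hd : 0 ≤ d)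
    (h : a + b + c + d = 1) : yg a b c d ∈ Icc (0 : ℝ) 1 := by
  simp only [yg]
  constructor
  · linarith [le_min ha hb, le_min ha hc, le_min ha hd]
  · linarith [min_le_right a b, min_le_right a c, min_le_right a d]

theorem YIo_g1' {a b c d : ℝ} (hb : b ≤ a) (hc : c ≤ a) (hd : d ≤ a) (h : a + b + c + d = 1) :
    yg a b c d = 1 := by
  rw [yg, min_eq_right hb, min_eq_right hc, min_eq_right hd, h]

theorem YIo_all {P : Fin 4 → Prop} (h0 : P 0) (h1 : P 1) (h2 : P 2) (h3 : P 3) (d : Fin 4) :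
    P d := by
  fin_cases d
  exacts [h0, h1, h2, h3]

theorem YIo_cmn {s : ℝ} (hs : 0 ≤ s) (h : ∀ d ∈ S, ∀ e, e ∉ S → T e ≤ T d) :
    Cmn T (s • yind S) := by
  intro d e
  by_cases hd : d ∈ S <;> by_cases he : e ∈ S <;> simp only [Pi.smul_apply, yind, hd, he, if_true,
    if_false, smul_eq_mul, sub_self, mul_zero, mul_one, le_refl]
  · exact mul_nonneg (sub_nonneg.2 (h d hd e he)) (by linarith)
  · exact mul_nonneg_of_nonpos_of_nonpos (sub_nonpos.2 (h e he d hd)) (by linarith)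

theorem yta_yio (T : Rn 4) : yta (yio T) = T := by
  refine funext (YIo_all (YIo_gf (T 0) (T 1) (T 2) (T 3)) ?_ ?_ ?_)
  · have := YIo_gf (T 1) (T 0) (T 2) (T 3)
    rwa [YIo_f1 (T 2), YIo_f1 (T 3)] at this
  · have := YIo_gf (T 2) (T 0) (T 1) (T 3)
    rwa [YIo_f1 (T 0), YIo_f1 (T 1), YIo_f1 (T 3), YIo_f2 (T 3)] at this
  · have := YIo_gf (T 3) (T 0) (T 1) (T 2)
    rwa [YIo_f1 (T 0), YIo_f2 (T 0), YIo_f1 (T 1), YIo_f2 (T 1), YIo_f1 (T 2), YIo_f2 (T 2)] at this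

theorem yio_yta (w : Rn 4) : yio (yta w) = w := by
  refine funext (YIo_all (YIo_fg (w 0) (w 1) (w 2) (w 3)) ?_ ?_ ?_)
  · have := YIo_fg (w 1) (w 0) (w 2) (w 3)
    rwa [YIo_g1 (w 2), YIo_g1 (w 3)] at this
  · have := YIo_fg (w 2) (w 0) (w 1) (w 3)
    rwa [YIo_g1 (w 0), YIo_g1 (w 1), YIo_g1 (w 3), YIo_g2 (w 3)] at this
  · have := YIo_fg (w 3) (w 0) (w 1) (w 2)
    rwa [YIo_g1 (w 0), YIo_g2 (w 0), YIo_g1 (w 1), YIo_g2 (w 1), YIo_g1 (w 2), YIo_g2 (w 2)] at this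

theorem tp_yio : TP yio := by
  have k : ∀ i, TP fun x : Rn 4 => x i := TP.id'.apply
  exact TP.pi (YIo_all (YIo_tf (k 0) (k 1) (k 2) (k 3)) (YIo_tf (k 1) (k 0) (k 2) (k 3))
    (YIo_tf (k 2) (k 0) (k 1) (k 3)) (YIo_tf (k 3) (k 0) (k 1) (k 2)))

theorem tp_yta : TP yta := by
  have k : ∀ i, TP fun x : Rn 4 => x i := TP.id'.apply
  exact TP.pi (YIo_all (YIo_tg (k 0) (k 1) (k 2) (k 3)) (YIo_tg (k 1) (k 0) (k 2) (k 3))
    (YIo_tg (k 2) (k 0) (k 1) (k 3)) (YIo_tg (k 3) (k 0) (k 1) (k 2)))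

theorem yio_smul {s : ℝ} (hs : 0 ≤ s) (T : Rn 4) : yio (s • T) = s • yio T :=
  funext (YIo_all (YIo_sm hs _ _ _ _) (YIo_sm hs _ _ _ _) (YIo_sm hs _ _ _ _) (YIo_sm hs _ _ _ _))

theorem yio_add (h : Cmn T T') : yio (T + T') = yio T + yio T' :=
  funext (YIo_all (YIo_add (h 0 1) (h 0 2) (h 0 3) (h 1 2) (h 1 3) (h 2 3))
    (YIo_add (h 1 0) (h 1 2) (h 1 3) (h 0 2) (h 0 3) (h 2 3))
    (YIo_add (h 2 0) (h 2 1) (h 2 3) (h 0 1) (h 0 3) (h 1 3))
    (YIo_add (h 3 0) (h 3 1) (h 3 2) (h 0 1) (h 0 2) (h 1 2)))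

theorem yio_seg (h : Cmn T T') {s : ℝ} (hs : s ∈ Icc (0 : ℝ) 1) :
    yio (T + s • (T' - T)) = yio T + s • (yio T' - yio T) := by
  have h1 := sub_nonneg.2 hs.2
  have e : T + s • (T' - T) = (1 - s) • T + s • T' := by module
  rw [e, yio_add fun d e => ?_, yio_smul h1, yio_smul hs.1]
  · module
  · simp only [Pi.smul_apply, smul_eq_mul]
    linarith [mul_nonneg (mul_nonneg h1 hs.1) (h d e)]

theorem yio_lip (T T' : Rn 4) : ‖yio T - yio T'‖ ≤ 4 * ‖T - T'‖ := by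
  have k : ∀ i, |T i - T' i| ≤ ‖T - T'‖ := norm_le_pi_norm (T - T')
  exact (pi_norm_le_iff_of_nonneg (by positivity)).2
    (YIo_all (YIo_lf (k 0) (k 1) (k 2) (k 3)) (YIo_lf (k 1) (k 0) (k 2) (k 3))
      (YIo_lf (k 2) (k 0) (k 1) (k 3)) (YIo_lf (k 3) (k 0) (k 1) (k 2)))

theorem yta_lip (w w' : Rn 4) : ‖yta w - yta w'‖ ≤ 4 * ‖w - w'‖ := by
  have k : ∀ i, |w i - w' i| ≤ ‖w - w'‖ := norm_le_pi_norm (w - w')
  exact (pi_norm_le_iff_of_nonneg (by positivity)).2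
    (YIo_all (YIo_lg (k 0) (k 1) (k 2) (k 3)) (YIo_lg (k 1) (k 0) (k 2) (k 3))
      (YIo_lg (k 2) (k 0) (k 1) (k 3)) (YIo_lg (k 3) (k 0) (k 1) (k 2)))

theorem yio_mem (h : T ∈ YQ) : yio T ∈ stdSimplex ℝ (Fin 4) := by
  have k := fun d => (h.1 d).1
  have q : ∀ {a x : ℝ}, 0 ≤ a → a / 4 ≤ x ∧ x ≤ a → 0 ≤ x := fun h1 h2 => by linarith [h2.1]
  refine ⟨YIo_all (q (k 0) (YIo_bd (k 0) (k 1) (k 2) (k 3)))
    (q (k 1) (YIo_bd (k 1) (k 0) (k 2) (k 3))) (q (k 2) (YIo_bd (k 2) (k 0) (k 1) (k 3)))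
    (q (k 3) (YIo_bd (k 3) (k 0) (k 1) (k 2))), ?_⟩
  rw [Fin.sum_univ_four]
  refine (YIo_sum (T 0) (T 1) (T 2) (T 3)).trans (le_antisymm
    (max_le (h.1 0).2 (max_le (h.1 1).2 (max_le (h.1 2).2 (h.1 3).2))) ?_)
  obtain ⟨d, hd⟩ := h.2
  rw [← hd]
  exact YIo_all (P := fun d => T d ≤ max (T 0) (max (T 1) (max (T 2) (T 3)))) (by simp) (by simp)
    (by simp) (by simp) d

theorem yta_mem (h : w ∈ stdSimplex ℝ (Fin 4)) : yta w ∈ YQ := by
  obtain ⟨k, e⟩ := h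
  rw [Fin.sum_univ_four] at e
  refine ⟨YIo_all (YIo_gm (k 0) (k 1) (k 2) (k 3) e) (YIo_gm (k 1) (k 0) (k 2) (k 3) (by linarith))
    (YIo_gm (k 2) (k 0) (k 1) (k 3) (by linarith))
    (YIo_gm (k 3) (k 0) (k 1) (k 2) (by linarith)), (Finite.exists_max w).imp ?_⟩
  exact YIo_all (fun q => YIo_g1' (q 1) (q 2) (q 3) e)
    (fun q => YIo_g1' (q 0) (q 2) (q 3) (by linarith))
    (fun q => YIo_g1' (q 0) (q 1) (q 3) (by linarith))
    (fun q => YIo_g1' (q 0) (q 1) (q 2) (by linarith))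

theorem yio_bd (h : ∀ e, 0 ≤ T e) (d : Fin 4) : T d / 4 ≤ yio T d ∧ yio T d ≤ T d :=
  YIo_all (P := fun d => T d / 4 ≤ yio T d ∧ yio T d ≤ T d) (YIo_bd (h 0) (h 1) (h 2) (h 3))
    (YIo_bd (h 1) (h 0) (h 2) (h 3)) (YIo_bd (h 2) (h 0) (h 1) (h 3))
    (YIo_bd (h 3) (h 0) (h 1) (h 2)) d

theorem yio_ind (S : Finset (Fin 4)) (d : Fin 4) :
    yio (yind S) d = if d ∈ S then (S.card : ℝ)⁻¹ else 0 := by
  have e : (S.card : ℝ) = ∑ d, yind S d := by simp [yind]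
  rw [e, Fin.sum_univ_four]
  revert d
  refine YIo_all ?_ ?_ ?_ ?_ <;> by_cases h0 : 0 ∈ S <;> by_cases h1 : 1 ∈ S <;>
    by_cases h2 : 2 ∈ S <;> by_cases h3 : 3 ∈ S <;> simp [yio, yf, yind, h0, h1, h2, h3] <;>
    norm_num

theorem yind_mem (hS : S.Nonempty) : yind S ∈ YQ := by
  obtain ⟨d, hd⟩ := hS
  refine ⟨fun e => ?_, d, if_pos hd⟩
  simp only [yind]
  split_ifs <;> simp

theorem poly_YQ : Poly YQ := by
  have e : YQ = ⋃ d ∈ (univ : Set (Fin 4)),
      {T ∈ closedBall (fun _ => 1 / 2 : Rn 4) (1 / 2) | T d = 1} := by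
    ext T
    simp only [YQ, mem_ofPred_eq, mem_iUnion, mem_univ, exists_const, mem_Icc, exists_and_left,
      mem_closedBall, dist_pi_le_iff (one_half_pos (α := ℝ)).le, Real.dist_eq, abs_le]
    exact and_congr_left' (forall_congr' fun d => by constructor <;> intro h <;> constructor <;>
      linarith [h.1, h.2])
  rw [e]
  exact Poly.biUnion finite_univ fun d _ => poly_eq (Poly.closedBall _ _) (TP.id'.apply d) 1

/-- As long as the order of the coordinates is kept, a change of one coordinate is a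
translation. -/
theorem yio_shift {j : Fin 4} (hj : j ∉ S) {a : ℝ} (h1 : ∀ d ∈ S, T j ≤ T d ∧ a ≤ T d)
    (h2 : ∀ d, d ∉ S → d ≠ j → T d ≤ T j ∧ T d ≤ a) :
    yio (update T j a) = yio T + (a - T j) • (yio (yind (insert j S)) - yio (yind S)) := by
  have key : ∀ (T : Rn 4) (a : ℝ), T j ≤ a → (∀ d ∈ S, T j ≤ T d ∧ a ≤ T d) →
      (∀ d, d ∉ S → d ≠ j → T d ≤ T j ∧ T d ≤ a) →
      yio (update T j a) = yio T + (a - T j) • (yio (yind (insert j S)) - yio (yind S)) := by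
    intro T a ha h1 h2
    have hs := sub_nonneg.2 ha
    have e : update T j a + (a - T j) • yind S = T + (a - T j) • yind (insert j S) := by
      funext d
      by_cases q : d = j
      · simp [q, yind, hj]
      · simp [q, yind]
    have c1 : Cmn (update T j a) ((a - T j) • yind S) := YIo_cmn hs fun d hd e he => by
      rw [update_of_ne (ne_of_mem_of_not_mem hd hj)]
      by_cases q : e = j
      · rw [q, update_self]
        exact (h1 d hd).2
      · rw [update_of_ne q]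
        exact (h2 e he q).1.trans (h1 d hd).1
    have c2 : Cmn T ((a - T j) • yind (insert j S)) := YIo_cmn hs fun d hd e he => by
      rw [Finset.mem_insert, not_or] at he
      rcases Finset.mem_insert.1 hd with q | q
      · exact q ▸ (h2 e he.2 he.1).1
      · exact (h2 e he.2 he.1).1.trans (h1 d q).1
    have k := congrArg yio e
    rw [yio_add c1, yio_add c2, yio_smul hs, yio_smul hs] at k
    rw [smul_sub, add_sub, ← k, add_sub_cancel_right]
  rcases le_total (T j) a with ha | ha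
  · exact key T a ha h1 h2
  · have k := key (update T j a) (T j) (by rwa [update_self])
      (fun d hd => by
        rw [update_self, update_of_ne (ne_of_mem_of_not_mem hd hj)]
        exact (h1 d hd).symm)
      fun d hd q => by
        rw [update_self, update_of_ne q]
        exact (h2 d hd q).symm
    rw [update_idem, update_eq_self, update_self] at k
    rw [k]
    module

end BEp
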