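import Pool.Agent.Work.MP_f0515e_an.P3.YFl1
import Pool.Agent.Work.MP_f0515e_an.P3.YIo
import Pool.Agent.Work.MP_f0515e_an.P3.YEll1
import Pool.Agent.Work.MP_f0515e_an.D3.KBase
import Pool.Agent.Work.MP_f0515e_an.D3.SRig0

-- merged part: Pool.Agent.Work.MP_f0515e_an.P3.YGl
section
-- merged part: Pool.Agent.Work.MP_f0515e_an.P3.YFl2
section
/-! Flags: the diamond property, finiteness and countability. -/

open Set Metric Filter Topology Function BEv MeasureTheory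
open scoped NNReal ENNReal

noncomputable section
namespace BEp

namespace Cx
variable {V : Set (Rn 3)} {X : Cx V} {c : Fin 4 → Set (Rn 3)}

/-- `τ` can replace the cell of colour `m`. -/
def YFl2Q (X : Cx V) (c : Fin 4 → Set (Rn 3)) (m : Fin 4) (τ : Set (Rn 3)) : Prop :=
  τ ∈ X.M.cel m ∧ (∀ d, d < m → c d ⊆ closure τ) ∧ ∀ e, m < e → τ ⊆ closure (c e)

theorem YFl2_upd (h : X.Fl c) {m : Fin 4} {τ : Set (Rn 3)} (k : YFl2Q X c m τ) :
    X.Fl (update c m τ) := by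
  refine ⟨fun d => ?_, fun d e hde => ?_⟩
  · rcases eq_or_ne d m with rfl | hd
    · rw [update_self]
      exact k.1
    · rw [update_of_ne hd]
      exact h.1 d
  · rcases eq_or_ne d m with rfl | hd
    · rcases eq_or_ne e d with rfl | he
      · exact subset_closure
      · rw [update_self, update_of_ne he]
        exact k.2.2 e (lt_of_le_of_ne hde he.symm)
    · rcases eq_or_ne e m with rfl | he
      · rw [update_self, update_of_ne hd]
        exact k.2.1 d (lt_of_le_of_ne hde hd)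
      · rw [update_of_ne hd, update_of_ne he]
        exact h.2 d e hde

theorem YFl2_of {c' : Fin 4 → Set (Rn 3)} (h' : X.Fl c') {m : Fin 4}
    (k : ∀ e, e ≠ m → c' e = c e) : YFl2Q X c m (c' m) :=
  ⟨h'.1 m, fun d hd => k d hd.ne ▸ h'.2 d m hd.le, fun e he => k e he.ne' ▸ h'.2 m e he.le⟩

theorem YFl2_tr {σ τ ρ : Set (Rn 3)} (h : σ ⊆ closure τ) (k : τ ⊆ closure ρ) : σ ⊆ closure ρ :=
  h.trans (closure_minimal k isClosed_closure)

theorem YFl2_mid (h : X.Fl c) (l m u : Fin 4) (h1 : (l : ℕ) + 1 = m) (h2 : (m : ℕ) + 1 = u) :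
    ∃ τ₁ τ₂, τ₁ ≠ τ₂ ∧ YFl2Q X c m τ₁ ∧ YFl2Q X c m τ₂ ∧
      ∀ τ, YFl2Q X c m τ → τ = τ₁ ∨ τ = τ₂ := by
  have hl : dm (c l) + 1 = m := by rw [(h.1 l).2, h1]
  obtain ⟨τ₁, a1, τ₂, a2, a3, a4, a5, a6, a7, a8⟩ := Kx.two_mid (h.1 u).1 (h.1 l).1
    (h.2 l u (by rw [Fin.le_def]; omega)) (by rw [(h.1 l).2, (h.1 u).2]; omega)
  rw [hl] at a1 a2 a8
  have q : ∀ τ ∈ X.M.cel m, c l ⊆ closure τ → τ ⊆ closure (c u) → YFl2Q X c m τ :=
    fun τ b1 b2 b3 => ⟨b1,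
      fun d hd => YFl2_tr (h.2 d l (by rw [Fin.lt_def] at hd; rw [Fin.le_def]; omega)) b2,
      fun e he => YFl2_tr b3 (h.2 u e (by rw [Fin.lt_def] at he; rw [Fin.le_def]; omega))⟩
  exact ⟨τ₁, τ₂, a3, q _ a1 a4 a5, q _ a2 a6 a7, fun τ b => a8 τ b.1
    (b.2.1 l (by rw [Fin.lt_def]; omega)) (b.2.2 u (by rw [Fin.lt_def]; omega))⟩

theorem YFl2_top (h : X.Fl c) : ∃ τ₁ τ₂, τ₁ ≠ τ₂ ∧ YFl2Q X c 3 τ₁ ∧ YFl2Q X c 3 τ₂ ∧
    ∀ τ, YFl2Q X c 3 τ → τ = τ₁ ∨ τ = τ₂ := by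
  obtain ⟨τ₁, a1, τ₂, a2, a3, a4, a5, a6⟩ := Kx.two_tops X.opn (σ := c 2) (h.1 2)
  have q : ∀ τ ∈ X.M.cel 3, c 2 ⊆ closure τ → YFl2Q X c 3 τ := fun τ b1 b2 =>
    ⟨b1, fun d hd => YFl2_tr (h.2 d 2 (by revert d; decide)) b2,
      fun e he => absurd he (by revert e; decide)⟩
  exact ⟨τ₁, τ₂, a3, q _ a1 a4, q _ a2 a5, fun τ b => a6 τ b.1 (b.2.1 2 (by decide))⟩

theorem YFl2_bot (h : X.Fl c) : ∃ τ₁ τ₂, τ₁ ≠ τ₂ ∧ YFl2Q X c 0 τ₁ ∧ YFl2Q X c 0 τ₂ ∧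
    ∀ τ, YFl2Q X c 0 τ → τ = τ₁ ∨ τ = τ₂ := by
  obtain ⟨a, b, he, e⟩ := Kx.dm_one (h.1 1).1 (h.1 1).2
  have q : ∀ x ∈ V, X.M.cell x = {x} → x ∈ segment ℝ a b → YFl2Q X c 0 {x} := fun x b1 b2 b3 =>
    ⟨⟨b2 ▸ X.M.cell_mem b1, KA2_single x⟩, fun d hd => absurd hd (Fin.not_lt_zero d),
      fun d hd => YFl2_tr (τ := c 1) (by rw [e, he.cl]; exact singleton_subset_iff.2 b3)
        (h.2 1 d (by revert d; decide))⟩
  refine ⟨{a}, {b}, fun k => he.1 (singleton_injective k),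
    q a he.left.1 he.left.2 (left_mem_segment ℝ a b),
    q b he.right.1 he.right.2 (right_mem_segment ℝ a b), fun τ k => ?_⟩
  obtain ⟨x, rfl⟩ := (Kx.dm_zero k.1.1).1 k.1.2
  have hx := k.2.2 1 (by decide) (mem_singleton x)
  rw [e, he.cl] at hx
  rcases Kx.KA2_cases he hx with ⟨rfl | rfl, -⟩ | ⟨-, k2⟩
  · exact Or.inl rfl
  · exact Or.inr rfl
  · rw [Kx.cell_eq k.1.1 (mem_singleton x), KA2_single] at k2
    exact absurd k2 zero_ne_one

/-- Three cells of a flag lie in exactly two flags. -/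
theorem two_flags (h : X.Fl c) (m : Fin 4) : ∃ v, v ≠ c m ∧ X.Fl (update c m v) ∧
    ∀ c', X.Fl c' → (∀ e, e ≠ m → c' e = c e) → c' m = c m ∨ c' m = v := by
  have k : ∃ τ₁ τ₂, τ₁ ≠ τ₂ ∧ YFl2Q X c m τ₁ ∧ YFl2Q X c m τ₂ ∧
      ∀ τ, YFl2Q X c m τ → τ = τ₁ ∨ τ = τ₂ := by
    fin_cases m
    · exact YFl2_bot h
    · exact YFl2_mid h 0 1 2 rfl rfl
    · exact YFl2_mid h 1 2 3 rfl rfl
    · exact YFl2_top h
  obtain ⟨τ₁, τ₂, a1, a2, a3, a4⟩ := k
  rcases a4 _ (YFl2_of (c := c) h fun _ _ => rfl) with e | e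
  · refine ⟨τ₂, e ▸ a1.symm, YFl2_upd h a3, fun c' h' k => ?_⟩
    rw [e]
    exact a4 _ (YFl2_of h' k)
  · refine ⟨τ₁, e ▸ a1, YFl2_upd h a2, fun c' h' k => ?_⟩
    rw [e]
    exact (a4 _ (YFl2_of h' k)).symm

theorem flags_fin (X : Cx V) {C : Set (Rn 3)} (hC : IsCompact C) (hs : C ⊆ V) :
    {c | X.Fl c ∧ (closure (c 3) ∩ C).Nonempty}.Finite := by
  have h1 := (Kx.lf_cl (K := X.M) X.opn hC hs).biUnion
    fun σ hσ => Kx.faces_finite (K := X.M) hσ.1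
  refine (Finite.pi (fun _ : Fin 4 => h1)).subset fun c hc d _ => ?_
  exact mem_biUnion (x := c 3) ⟨(hc.1.1 3).1, hc.2⟩ ⟨(hc.1.1 d).1, hc.1.2 d 3 (Fin.le_last d)⟩

theorem flags_countable (X : Cx V) : {c | X.Fl c}.Countable :=
  Countable.mono (s₂ := univ.pi fun _ : Fin 4 => X.M.cells) (fun _ hc d _ => (hc.1 d).1)
    (countable_univ_pi fun _ => X.M.countable X.opn)

end Cx

end BEp
end
end

-- merged part: Pool.Agent.Work.MP_f0515e_an.P3.YFl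
section
/-! Flags and barycentric coordinates. -/

open Set Metric Filter Topology Function BEv MeasureTheory
open scoped NNReal ENNReal

noncomputable section
namespace BEp

namespace Cx
variable {V : Set (Rn 3)} {X : Cx V} {c c' : Fin 4 → Set (Rn 3)} {w w' T T' : Rn 4}
  {y y' z z' : Rn 3} {v v' : Set (Rn 3)} {d e : Fin 4}

theorem Fl.mem (h : X.Fl c) (d : Fin 4) : c d ∈ X.M.cells := (h.1 d).1

theorem Fl.dm (h : X.Fl c) (d : Fin 4) : dm (c d) = d := (h.1 d).2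

theorem Fl.inj (h : X.Fl c) : Injective c := fun d e k =>
  Fin.ext ((h.dm d).symm.trans (k ▸ h.dm e))

end Cx

end BEp
end
end

-- merged part: Pool.Agent.Work.MP_f0515e_an.P3.YTt
section
/-! The coordinates of a point. -/

open Set Metric Filter Topology Function BEv MeasureTheory
open scoped NNReal ENNReal

noncomputable section
namespace BEp

namespace Cx
variable {V : Set (Rn 3)} {X : Cx V} {c c' : Fin 4 → Set (Rn 3)} {w w' T T' : Rn 4}
  {y y' z z' : Rn 3} {v v' : Set (Rn 3)} {d e : Fin 4}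

theorem rep_pt (h : X.Fl c) (hT : T ∈ YQ) : X.Rep (X.pt c T) c T := ⟨h, hT, rfl⟩

theorem Rep.cl (h : X.Rep y c T) : y ∈ closure (c 3) := by
  rw [h.2.2]
  exact bp_cl h.1 (yio_mem h.2.1)

theorem Rep.mem (h : X.Rep y c T) : y ∈ V := by
  obtain ⟨x, hx, e⟩ := h.1.mem 3
  exact X.M.sub x hx (e ▸ h.cl)

theorem ytt_pos (hT : T ∈ YQ) (hd : T d ≠ 0) : 0 < T d := (hT.1 d).1.lt_of_ne' hd

theorem ytt_ne (hT : T ∈ YQ) (hd : T d ≠ 0) : yio T d ≠ 0 := by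
  have h1 := (yio_bd (fun e => (hT.1 e).1) d).1
  have h2 := ytt_pos hT hd
  exact ne_of_gt (by linarith only [h1, h2])

theorem ytt_zero (hT : T ∈ YQ) (hd : T d = 0) : yio T d = 0 := by
  have h1 := yio_bd (fun e => (hT.1 e).1) d
  rw [hd] at h1
  exact le_antisymm h1.2 (by linarith [h1.1])

theorem ytt_top (hT : T ∈ YQ) : ∃ d, T d ≠ 0 ∧ ∀ e, d < e → T e = 0 := by
  obtain ⟨d, hd⟩ := hT.2
  obtain ⟨m, h1, h2⟩ := (Finset.univ.filter fun e => T e ≠ 0).exists_max_image id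
    ⟨d, Finset.mem_filter.2 ⟨Finset.mem_univ _, hd ▸ one_ne_zero⟩⟩
  refine ⟨m, (Finset.mem_filter.1 h1).2, fun e he => by_contra fun k => ?_⟩
  exact he.not_ge (h2 e (Finset.mem_filter.2 ⟨Finset.mem_univ _, k⟩))

theorem ytt_col (h : X.Fl c) (h' : X.Fl c') (k : c d = c' e) : d = e :=
  Fin.ext ((h.dm d).symm.trans (k ▸ h'.dm e))

theorem Rep.uniq (h : X.Rep y c T) (h' : X.Rep y c' T') : T = T' ∧ ∀ d, T d ≠ 0 → c d = c' d := by
  obtain ⟨e1, e2⟩ := bp_uniq h.1 h'.1 (yio_mem h.2.1) (yio_mem h'.2.1) (h.2.2.symm.trans h'.2.2)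
  exact ⟨by rw [← yta_yio T, e1, yta_yio], fun d hd => e2 d (ytt_ne h.2.1 hd)⟩

theorem rep (X : Cx V) (hy : y ∈ V) : X.Rep y (X.fl y) (X.TT y) := by
  have hex : ∃ q : (Fin 4 → Set (Rn 3)) × Rn 4, X.Rep y q.1 q.2 := by
    obtain ⟨c, hc, w, hw, e⟩ := X.exists_bp hy
    exact ⟨(c, yta w), hc, yta_mem hw, by rw [pt, yio_yta]; exact e⟩
  unfold fl TT rp
  rw [dif_pos hex]
  exact hex.choose_spec

theorem Rep.TT_eq (h : X.Rep y c T) : X.TT y = T := by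
  exact ((X.rep h.mem).uniq h).1

theorem TT_off (X : Cx V) (hy : y ∉ V) : X.TT y = 0 := by
  unfold TT rp
  rw [dif_neg fun ⟨q, hq⟩ => hy hq.mem]

theorem Rep.tt_eq (h : X.Rep y c T) (d : Fin 4) : X.tt (c d) y = T d := by
  have k := X.rep h.mem
  unfold tt
  rw [Finset.sum_eq_single d (fun e _ he => if_neg fun q => he (ytt_col k.1 h.1 q))
    fun q => (q (Finset.mem_univ _)).elim, h.TT_eq]
  by_cases hd : T d = 0
  · rw [hd, ite_self]
  · exact if_pos ((h.uniq k).2 d hd).symm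

theorem Rep.tt_zero (h : X.Rep y c T) (hv : ∀ d, c d ≠ v) : X.tt v y = 0 := by
  have k := X.rep h.mem
  unfold tt
  refine Finset.sum_eq_zero fun d _ => ?_
  by_cases hd : X.TT y d = 0
  · rw [hd, ite_self]
  · exact if_neg fun q => hv d (((k.uniq h).2 d hd).symm.trans q)

theorem tt_off (X : Cx V) (hy : y ∉ V) (v : Set (Rn 3)) : X.tt v y = 0 := by
  unfold tt
  rw [X.TT_off hy]
  exact Finset.sum_eq_zero fun d _ => ite_self _

theorem tt_mem (X : Cx V) (v : Set (Rn 3)) (y : Rn 3) : X.tt v y ∈ Icc (0 : ℝ) 1 := by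
  by_cases hy : y ∈ V
  · have k := X.rep hy
    by_cases hv : ∃ d, X.fl y d = v
    · obtain ⟨d, rfl⟩ := hv
      rw [k.tt_eq]
      exact k.2.1.1 d
    · rw [k.tt_zero fun d q => hv ⟨d, q⟩]
      exact ⟨le_rfl, zero_le_one⟩
  · rw [X.tt_off hy]
    exact ⟨le_rfl, zero_le_one⟩

theorem Rep.of_pos (h : X.Rep y c T) (hv : 0 < X.tt v y) : ∃ d, c d = v := by
  by_contra k
  exact hv.ne' (h.tt_zero fun d q => k ⟨d, q⟩)

theorem Rep.change (h : X.Rep y c T) (h' : X.Fl c') (e : ∀ d, T d ≠ 0 → c' d = c d) :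
    X.Rep y c' T := by
  refine ⟨h', h.2.1, h.2.2.trans ?_⟩
  unfold pt bp
  refine Finset.sum_congr rfl fun d _ => ?_
  by_cases hd : T d = 0
  · rw [ytt_zero h.2.1 hd, zero_smul, zero_smul]
  · rw [e d hd]

/-- A flag which contains all the labels of `y` is a flag of `y`. -/
theorem rep_of (h : X.Fl c) (hy : y ∈ V) (hs : ∀ v, 0 < X.tt v y → ∃ d, c d = v) :
    X.Rep y c (X.TT y) := by
  have k := X.rep hy
  refine k.change h fun d hd => ?_
  obtain ⟨e, he⟩ := hs (X.fl y d) ((k.tt_eq d).symm ▸ ytt_pos k.2.1 hd)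
  rw [← he, ytt_col h k.1 he]

theorem Rep.cell (h : X.Rep y c T) (hd : T d ≠ 0) (he : ∀ e, d < e → T e = 0) :
    X.M.cell y = c d := by
  have k : y ∈ c d := h.2.2 ▸ bp_cell h.1 (yio_mem h.2.1) (ytt_ne h.2.1 hd)
    fun e q => ytt_zero h.2.1 (he e q)
  obtain ⟨x, hx, q⟩ := h.1.mem d
  rw [← q] at k ⊢
  exact X.M.eqv x hx y k

theorem tt_pos (hv : 0 < X.tt v y) : y ∈ V ∧ v ∈ X.M.cells ∧ v ⊆ closure (X.M.cell y) := by
  have hy : y ∈ V := by_contra fun q => hv.ne' (X.tt_off q v)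
  have k := X.rep hy
  obtain ⟨e, rfl⟩ := k.of_pos hv
  obtain ⟨d, h1, h2⟩ := ytt_top k.2.1
  rw [k.tt_eq] at hv
  refine ⟨hy, k.1.mem e, ?_⟩
  rw [k.cell h1 h2]
  exact k.1.2 e d (not_lt.1 fun q => hv.ne' (h2 e q))

theorem tt_cell (X : Cx V) (hy : y ∈ V) : 0 < X.tt (X.M.cell y) y := by
  have k := X.rep hy
  obtain ⟨d, h1, h2⟩ := ytt_top k.2.1
  rw [k.cell h1 h2, k.tt_eq]
  exact ytt_pos k.2.1 h1

theorem cell_eq_of (hy : y ∈ V) (hy' : y' ∈ V) (h : ∀ v, 0 < X.tt v y ↔ 0 < X.tt v y') :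
    X.M.cell y = X.M.cell y' := by
  have k := X.rep hy
  have k' := rep_of k.1 hy' fun v q => k.of_pos ((h v).2 q)
  obtain ⟨d, h1, h2⟩ := ytt_top k.2.1
  have h3 := fun e => h (X.fl y e)
  simp only [k.tt_eq, k'.tt_eq] at h3
  rw [k.cell h1 h2, k'.cell ((h3 d).1 (ytt_pos k.2.1 h1)).ne' fun e q => by_contra fun r =>
    ((h3 e).2 (ytt_pos k'.2.1 r)).ne' (h2 e q)]

theorem ext_tt (hy : y ∈ V) (hy' : y' ∈ V) (h : ∀ v, X.tt v y = X.tt v y') : y = y' := by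
  have k := X.rep hy
  have k' := rep_of k.1 hy' fun v q => k.of_pos ((h v).symm ▸ q)
  have h3 : X.TT y = X.TT y' := funext fun e => by rw [← k.tt_eq, ← k'.tt_eq, h]
  exact k.2.2.trans (h3 ▸ k'.2.2.symm)

theorem tt_one (X : Cx V) (hy : y ∈ V) : ∃ v, X.tt v y = 1 := by
  have k := X.rep hy
  obtain ⟨d, hd⟩ := k.2.1.2
  exact ⟨_, (k.tt_eq d).trans hd⟩

theorem tt_col (h : 0 < X.tt v y) (h' : 0 < X.tt v' y) (e : dm v = dm v') : v = v' := by
  have k := X.rep (tt_pos h).1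
  obtain ⟨a, rfl⟩ := k.of_pos h
  obtain ⟨b, rfl⟩ := k.of_pos h'
  rw [k.1.dm, k.1.dm] at e
  rw [Fin.ext e]

theorem TT_hi (X : Cx V) (hy : y ∈ V) (h : dm (X.M.cell y) < d) : X.TT y d = 0 := by
  have k := X.rep hy
  obtain ⟨e, h1, h2⟩ := ytt_top k.2.1
  rw [k.cell h1 h2, k.1.dm] at h
  exact h2 d h

theorem ytt_sub (hT : T ∈ YQ) (c : Fin 4 → Set (Rn 3)) (o : Rn 3) :
    X.pt c T - o = ∑ d, yio T d • (X.b (c d) - o) := by
  simp only [smul_sub, Finset.sum_sub_distrib, ← Finset.sum_smul, (yio_mem hT).2, one_smul]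
  rfl

theorem ytt_sum {f : Fin 4 → Rn 3} {a : ℝ} (h : ∀ d, ‖f d‖ ≤ a) : ‖∑ d, f d‖ ≤ 4 * a := by
  have := (norm_sum_le _ _).trans (Finset.sum_le_card_nsmul Finset.univ _ a fun d _ => h d)
  simpa using this

theorem ytt_lip (T T' : Rn 4) (d : Fin 4) : |yio T d - yio T' d| ≤ 4 * ‖T - T'‖ :=
  (norm_le_pi_norm (yio T - yio T') d).trans (yio_lip T T')

theorem pt_lip (h : X.Fl c) (hT : T ∈ YQ) (hT' : T' ∈ YQ) {D : ℝ}
    (hD : ∀ d, ‖X.b (c d) - y‖ ≤ D) : ‖X.pt c T - X.pt c T'‖ ≤ 16 * D * ‖T - T'‖ := by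
  rw [← sub_sub_sub_cancel_right _ _ y, ytt_sub hT, ytt_sub hT', ← Finset.sum_sub_distrib]
  refine (ytt_sum (a := 4 * ‖T - T'‖ * D) fun d => ?_).trans_eq (by ring)
  rw [← sub_smul, norm_smul]
  exact mul_le_mul (ytt_lip T T' d) (hD d) (norm_nonneg _) (by positivity)

theorem ytt_term (hT : T ∈ YQ) {p : Rn 3} {S D : ℝ} (hD : 0 ≤ D) (h1 : T d ≤ S)
    (h2 : T d ≠ 0 → ‖p‖ ≤ D) : ‖yio T d • p‖ ≤ S * D := by
  have h0 := (hT.1 d).1
  by_cases hd : T d = 0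
  · rw [ytt_zero hT hd, zero_smul, norm_zero]
    exact mul_nonneg (h0.trans h1) hD
  · have h3 := yio_bd (fun e => (hT.1 e).1) d
    rw [norm_smul, Real.norm_of_nonneg (by linarith only [h0, h3, h3.1])]
    exact mul_le_mul (h3.2.trans h1) (h2 hd) (norm_nonneg _) (h0.trans h1)

theorem ylip (hz : z ∈ V) (hz' : z' ∈ V) {D : ℝ} {W : Finset (Set (Rn 3))}
    (hW : ∀ v, v ∉ W → X.tt v z = X.tt v z')
    (hD : ∀ v v', 0 < X.tt v z → 0 < X.tt v' z' → ‖X.b v - X.b v'‖ ≤ D) :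
    ‖z - z'‖ ≤ 40 * D * ∑ v ∈ W, |X.tt v z - X.tt v z'| := by
  set S := ∑ v ∈ W, |X.tt v z - X.tt v z'|
  have S0 : 0 ≤ S := Finset.sum_nonneg fun _ _ => abs_nonneg _
  have hS : ∀ v, |X.tt v z - X.tt v z'| ≤ S := fun v => by
    by_cases hv : v ∈ W
    · exact Finset.single_le_sum (f := fun v => |X.tt v z - X.tt v z'|)
        (fun _ _ => abs_nonneg _) hv
    · rw [hW v hv, sub_self, abs_zero]
      exact S0
  have k := X.rep hz
  have k' := X.rep hz'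
  generalize X.fl z = c, X.TT z = T at k
  generalize X.fl z' = c', X.TT z' = T' at k'
  obtain ⟨u, hu⟩ := X.tt_one hz
  obtain ⟨u', hu'⟩ := X.tt_one hz'
  have pu : 0 < X.tt u z := hu ▸ one_pos
  have pu' : 0 < X.tt u' z' := hu' ▸ one_pos
  have D0 : 0 ≤ D := (norm_nonneg _).trans (hD u u' pu pu')
  have b1 : ∀ d, T d ≠ 0 → ‖X.b (c d) - X.b u'‖ ≤ 2 * D := fun d hd =>
    (hD _ _ ((k.tt_eq d).symm ▸ ytt_pos k.2.1 hd) pu').trans (by linarith only [D0])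
  have b2 : ∀ d, T' d ≠ 0 → ‖X.b (c' d) - X.b u'‖ ≤ 2 * D := fun d hd => by
    have a1 := hD u _ pu ((k'.tt_eq d).symm ▸ ytt_pos k'.2.1 hd : 0 < X.tt (c' d) z')
    have a2 := hD u u' pu pu'
    have a3 := norm_sub_le_norm_sub_add_norm_sub (X.b (c' d)) (X.b u) (X.b u')
    rw [norm_sub_rev] at a1
    linarith
  have b3 : ∀ d, c d ≠ c' d → T d ≤ S ∧ T' d ≤ S := fun d hd => by
    have a1 := hS (c d)
    have a2 := hS (c' d)
    rw [k.tt_eq, k'.tt_zero fun e q => hd (by rw [← q, ytt_col k'.1 k.1 q]), sub_zero] at a1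
    rw [k'.tt_eq, k.tt_zero fun e q => hd (by rw [← q, ytt_col k.1 k'.1 q]), zero_sub,
      abs_neg] at a2
    exact ⟨(le_abs_self _).trans a1, (le_abs_self _).trans a2⟩
  have b4 : ‖T - T'‖ ≤ S := (pi_norm_le_iff_of_nonneg S0).2 fun d => by
    rw [Pi.sub_apply, Real.norm_eq_abs]
    by_cases hd : c d = c' d
    · rw [← k.tt_eq, ← k'.tt_eq, hd]
      exact hS _
    · exact abs_le.2 ⟨by linarith [(b3 d hd).2, (k.2.1.1 d).1],
        by linarith [(b3 d hd).1, (k'.2.1.1 d).1]⟩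
  have SD := mul_nonneg S0 D0
  rw [k.2.2, k'.2.2, ← sub_sub_sub_cancel_right _ _ (X.b u'), ytt_sub k.2.1, ytt_sub k'.2.1,
    ← Finset.sum_sub_distrib]
  refine (ytt_sum (a := 8 * (S * D)) fun d => ?_).trans (by linarith)
  by_cases hd : c d = c' d
  · rw [← hd, ← sub_smul]
    by_cases h0 : T d = 0 ∧ T' d = 0
    · rw [ytt_zero k.2.1 h0.1, ytt_zero k'.2.1 h0.2, sub_self, zero_smul, norm_zero]
      linarith
    · have a1 : ‖X.b (c d) - X.b u'‖ ≤ 2 * D := by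
        rcases not_and_or.1 h0 with q | q
        exacts [b1 d q, hd ▸ b2 d q]
      rw [norm_smul]
      exact (mul_le_mul ((ytt_lip T T' d).trans (show _ ≤ 4 * S by linarith)) a1 (norm_nonneg _)
        (by linarith)).trans_eq (by ring)
  · have a1 := ytt_term k.2.1 (show 0 ≤ 2 * D by linarith) (b3 d hd).1 (b1 d)
    have a2 := ytt_term k'.2.1 (show 0 ≤ 2 * D by linarith) (b3 d hd).2 (b2 d)
    exact (norm_sub_le _ _).trans (by linarith)

end Cx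

end BEp
end
end

-- merged part: Pool.Agent.Work.MP_f0515e_an.P3.YGen2
section
/-! General lemmas: Lipschitz bounds from pieces, monotone maps, circles. -/

open Set Metric Filter Topology Function BEv MeasureTheory
open scoped NNReal ENNReal

noncomputable section
namespace BEp

variable {n : ℕ} {φ : ℝ → ℝ}

theorem lip_pieces {E F : Type} [NormedAddCommGroup E] [NormedSpace ℝ E] [NormedAddCommGroup F]
    {f : E → F} {U : Set E} (hU : Convex ℝ U) {𝒞 : Set (Set E)} (hf : 𝒞.Finite)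
    (hc : ∀ C ∈ 𝒞, IsClosed C) (hs : U ⊆ ⋃₀ 𝒞) {L : ℝ} (hL : 0 ≤ L)
    (h : ∀ C ∈ 𝒞, ∀ x ∈ C, ∀ y ∈ C, ‖f x - f y‖ ≤ L * ‖x - y‖) :
    ∀ x ∈ U, ∀ y ∈ U, ‖f x - f y‖ ≤ L * ‖x - y‖ := by
  intro x hx y hy
  have loc : ∀ p ∈ U, ∀ᶠ z in 𝓝 p, z ∈ U → ‖f z - f p‖ ≤ L * ‖z - p‖ := by
    intro p _
    have h1 : ∀ᶠ z in 𝓝 p, ∀ C ∈ 𝒞, z ∈ C → p ∈ C := by
      refine (eventually_all_finite hf).2 fun C hC => ?_
      by_cases hp : p ∈ C
      · exact Eventually.of_forall fun _ _ => hp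
      · filter_upwards [(hc C hC).isOpen_compl.mem_nhds hp] with z hz hz'
        exact absurd hz' hz
    filter_upwards [h1] with z hz hzU
    obtain ⟨C, hC, hzC⟩ := hs hzU
    exact h C hC z hzC p (hz C hC hzC)
  set g : ℝ → E := fun s => y + s • (x - y) with hg
  have gc : Continuous g := by fun_prop
  have gU : ∀ s ∈ Icc (0 : ℝ) 1, g s ∈ U := fun s hs' => hU.add_smul_sub_mem hy hx hs'
  have gd : ∀ s t, ‖g s - g t‖ = |s - t| * ‖x - y‖ := by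
    intro s t
    have : g s - g t = (s - t) • (x - y) := by simp only [hg, sub_smul]; abel
    rw [this, norm_smul, Real.norm_eq_abs]
  have l2 : ∀ t ∈ Icc (0 : ℝ) 1, ∀ᶠ s in 𝓝 t, s ∈ Icc (0 : ℝ) 1 →
      ‖f (g s) - f (g t)‖ ≤ L * (|s - t| * ‖x - y‖) := by
    intro t ht
    filter_upwards [gc.continuousAt.eventually (loc _ (gU t ht))] with s hs1 hs2
    rw [← gd]
    exact hs1 (gU s hs2)
  have fc : ContinuousOn (fun s => f (g s)) (Icc 0 1) := by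
    intro t ht
    refine tendsto_iff_norm_sub_tendsto_zero.2 ?_
    have h0 : Tendsto (fun s : ℝ => L * (|s - t| * ‖x - y‖)) (𝓝[Icc 0 1] t) (𝓝 0) := by
      have : Continuous fun s : ℝ => L * (|s - t| * ‖x - y‖) := by fun_prop
      have h3 := (this.tendsto t).mono_left (nhdsWithin_le_nhds (s := Icc 0 1))
      simpa using h3
    refine squeeze_zero' (Eventually.of_forall fun _ => norm_nonneg _) ?_ h0
    exact eventually_nhdsWithin_iff.2 (l2 t ht)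
  have key : Icc (0 : ℝ) 1 ⊆ {s | ‖f (g s) - f (g 0)‖ ≤ L * (s * ‖x - y‖)} := by
    refine IsClosed.Icc_subset_of_forall_mem_nhdsWithin ?_ (by simp) ?_
    · rw [inter_comm]
      exact isClosed_Icc.isClosed_le (fc.sub continuousOn_const).norm (by fun_prop)
    · rintro t ⟨ht, ht0, ht1⟩
      filter_upwards [mem_nhdsWithin_of_mem_nhds (l2 t ⟨ht0, ht1.le⟩), Ioo_mem_nhdsGT ht1]
        with s hs1 hs2
      have h4 := hs1 ⟨ht0.trans hs2.1.le, hs2.2.le⟩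
      rw [abs_of_pos (sub_pos.2 hs2.1)] at h4
      have h5 := norm_sub_le_norm_sub_add_norm_sub (f (g s)) (f (g t)) (f (g 0))
      have h6 : ‖f (g t) - f (g 0)‖ ≤ L * (t * ‖x - y‖) := ht
      show ‖f (g s) - f (g 0)‖ ≤ L * (s * ‖x - y‖)
      linarith
  have h7 : ‖f (g 1) - f (g 0)‖ ≤ L * (1 * ‖x - y‖) := key ⟨zero_le_one, le_rfl⟩
  simpa [hg] using h7

theorem mo_id : Mo id :=
  ⟨LH.id', strictMono_id, rfl, rfl⟩

theorem Mo.inv (h : Mo φ) : Mo (invFun φ) := by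
  refine ⟨h.1.inv, fun a b hab => ?_, h.1.inv_eq h.2.2.1, h.1.inv_eq h.2.2.2⟩
  rw [← h.2.1.lt_iff_lt, h.1.ri, h.1.ri]
  exact hab

theorem Mo.mo0 (h : Mo φ) : Mo0 φ :=
  ⟨h.2.2.1, h.2.2.2, fun _ ht =>
    ⟨h.2.2.1 ▸ h.2.1.monotone ht.1, h.2.2.2 ▸ h.2.1.monotone ht.2⟩⟩

theorem Mo.pos (h : Mo φ) {t : ℝ} : 0 < φ t ↔ 0 < t := by
  conv_lhs => rw [← h.2.2.1]
  exact h.2.1.lt_iff_lt

theorem mo_of (h : TP φ) (hm : StrictMono φ) (h0 : φ 0 = 0) (h1 : φ 1 = 1) :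
    ∃ ψ, Mo ψ ∧ EqOn ψ φ (Icc 0 1) := by
  set ψ : ℝ → ℝ := fun t => φ (max 0 (min t 1)) + (t - max 0 (min t 1)) with hψ
  have hk : TP fun t : ℝ => max 0 (min t 1) := (TP.const 0).max (TP.id'.min (TP.const 1))
  have ht : TP ψ := (h.comp hk).add (TP.id'.sub hk)
  have he : EqOn ψ φ (Icc 0 1) := fun t ht' => by
    simp only [hψ, min_eq_left ht'.2, max_eq_right ht'.1, sub_self, add_zero]
  have hlo : ∀ t, t ≤ 0 → ψ t = t := fun t h' => by
    simp only [hψ, max_eq_left ((min_le_left t 1).trans h'), h0, sub_zero, zero_add]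
  have hhi : ∀ t, 1 ≤ t → ψ t = t := fun t h' => by
    simp only [hψ, min_eq_right h', max_eq_right zero_le_one, h1]
    ring
  have hs : StrictMono ψ := by
    intro a b hab
    have k1 : max 0 (min a 1) ≤ max 0 (min b 1) := max_le_max le_rfl (min_le_min hab.le le_rfl)
    have k2 : a - max 0 (min a 1) ≤ b - max 0 (min b 1) := by
      simp only [max_def, min_def]
      split_ifs <;> linarith
    rcases k1.eq_or_lt with e | e
    · simp only [hψ, e]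
      linarith
    · exact add_lt_add_of_lt_of_le (hm e) k2
  have hsu : Surjective ψ := by
    refine ht.continuous.surjective ?_ ?_
    · exact tendsto_id.congr' ((eventually_ge_atTop 1).mono fun t h' => (hhi t h').symm)
    · exact tendsto_id.congr' ((eventually_le_atBot 0).mono fun t h' => (hlo t h').symm)
  refine ⟨ψ, ⟨LH.of_supp ht ⟨hs.injective, hsu⟩ (R := 1) fun t h' => ?_, hs, hlo 0 le_rfl,
    hhi 1 le_rfl⟩, he⟩
  rcases le_abs.1 h' with h' | h'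
  · exact hhi t h'
  · exact hlo t (by linarith)

/-- A map of the unit interval which is affine from `[α, β]` onto `[α', β']`. -/
theorem mo_fit {α β α' β' : ℝ} (h0 : 0 ≤ α) (h1 : α < β) (h2 : β ≤ 1) (k0 : 0 ≤ α') (k1 : α' < β')
    (k2 : β' ≤ 1) (e0 : α = 0 ↔ α' = 0) (e1 : β = 1 ↔ β' = 1) :
    ∃ φ, Mo φ ∧ ∀ t, (φ t ∈ Icc α' β' ↔ t ∈ Icc α β) ∧
      (t ∈ Icc α β → φ t = α' + (β' - α') / (β - α) * (t - α)) := by
  obtain ⟨a, ha, ea⟩ : ∃ a, 0 < a ∧ a * α = α' := by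
    by_cases e : α = 0
    · exact ⟨1, one_pos, by rw [e, e0.1 e, mul_zero]⟩
    · exact ⟨α' / α, div_pos (k0.lt_of_ne' (mt e0.2 e)) (h0.lt_of_ne' e), div_mul_cancel₀ _ e⟩
  obtain ⟨b, hb, eb⟩ : ∃ b, 0 < b ∧ b * (1 - β) = 1 - β' := by
    by_cases e : β = 1
    · exact ⟨1, one_pos, by rw [e, e1.1 e, one_mul]⟩
    · exact ⟨(1 - β') / (1 - β), div_pos (sub_pos.2 (k2.lt_of_ne (mt e1.2 e)))
        (sub_pos.2 (h2.lt_of_ne e)), div_mul_cancel₀ _ (sub_pos.2 (h2.lt_of_ne e)).ne'⟩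
  set s := (β' - α') / (β - α) with hs
  have s0 : 0 < s := div_pos (sub_pos.2 k1) (sub_pos.2 h1)
  have es : s * (β - α) = β' - α' := div_mul_cancel₀ _ (sub_pos.2 h1).ne'
  set u : ℝ → ℝ := fun t =>
    α' + s * (max α (min t β) - α) + a * (min t α - α) + b * (max t β - β) with hu
  have ut : TP u :=
    (((TP.const α').add ((((TP.const α).max (TP.id'.min (TP.const β))).sub
      (TP.const α)).const_mul s)).add (((TP.id'.min (TP.const α)).sub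
      (TP.const α)).const_mul a)).add (((TP.id'.max (TP.const β)).sub (TP.const β)).const_mul b)
  have um : StrictMono u := by
    intro x y hxy
    have d1 : max α (min x β) ≤ max α (min y β) := max_le_max le_rfl (min_le_min hxy.le le_rfl)
    have d2 : min x α ≤ min y α := min_le_min hxy.le le_rfl
    have d3 : max x β ≤ max y β := max_le_max hxy.le le_rfl
    have d4 : ∀ z, max α (min z β) + min z α + max z β = z + α + β := fun z => by
      simp only [max_def, min_def]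
      split_ifs <;> linarith
    have c1 := mul_le_mul_of_nonneg_left d1 s0.le
    have c2 := mul_le_mul_of_nonneg_left d2 ha.le
    have c3 := mul_le_mul_of_nonneg_left d3 hb.le
    simp only [hu, mul_sub]
    rcases d1.eq_or_lt with f1 | f1
    · rcases d2.eq_or_lt with f2 | f2
      · have f3 : max x β < max y β := by linarith [d4 x, d4 y]
        linarith only [c1, c2, f3, hb, mul_lt_mul_of_pos_left f3 hb]
      · linarith only [c1, c3, f2, ha, mul_lt_mul_of_pos_left f2 ha]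
    · linarith only [c2, c3, f1, s0, mul_lt_mul_of_pos_left f1 s0]
  have ui : ∀ t ∈ Icc α β, u t = α' + s * (t - α) := fun t ht => by
    simp only [hu, min_eq_left ht.2, max_eq_right ht.1, min_eq_right ht.1, max_eq_right ht.2,
      sub_self, mul_zero, add_zero]
  have u0 : u 0 = 0 := by
    simp only [hu, max_eq_left ((min_le_left 0 β).trans h0), min_eq_left h0,
      max_eq_right (h0.trans h1.le)]
    linarith only [ea]
  have u1 : u 1 = 1 := by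
    simp only [hu, min_eq_right h2, max_eq_right h1.le, min_eq_right (h1.le.trans h2),
      max_eq_left h2]
    linarith only [eb, es]
  obtain ⟨ψ, hψ, he⟩ := mo_of ut um u0 u1
  have hi : ∀ t ∈ Icc α β, ψ t = α' + s * (t - α) := fun t ht =>
    (he ⟨h0.trans ht.1, ht.2.trans h2⟩).trans (ui t ht)
  have p1 : ψ α = α' := by rw [hi α ⟨le_rfl, h1.le⟩, sub_self, mul_zero, add_zero]
  have p2 : ψ β = β' := by rw [hi β ⟨h1.le, le_rfl⟩, es, add_sub_cancel]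
  refine ⟨ψ, hψ, fun t => ⟨?_, hi t⟩⟩
  rw [← p1, ← p2, mem_Icc, mem_Icc, hψ.2.1.le_iff_le, hψ.2.1.le_iff_le]

/-- Near its maximum a continuous function on a circle is not injective. -/
theorem crc_max {γ : Set (Rn n)} (h : Crc γ) {f : Rn n → ℝ} (hf : ContinuousOn f γ) :
    ∃ y ∈ γ, (∀ z ∈ γ, f z ≤ f y) ∧ ∀ N ∈ 𝓝 y, ¬ InjOn f (γ ∩ N) := by
  obtain ⟨c, hc, hp, rfl⟩ := h
  have cc := hc.continuous
  have fc : Continuous fun t => f (c t) := hf.comp_continuous cc mem_range_self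
  obtain ⟨t0, -, hm⟩ := isCompact_Icc.exists_isMaxOn (nonempty_Icc.2 (zero_le_one' ℝ))
    fc.continuousOn
  have hmx : ∀ t, f (c t) ≤ f (c t0) := fun t => by
    have e : c t = c (Int.fract t) := (hp _ _).2 ⟨⌊t⌋, Int.self_sub_fract t⟩
    rw [e]
    exact hm ⟨Int.fract_nonneg t, (Int.fract_lt_one t).le⟩
  refine ⟨c t0, mem_range_self _, ?_, fun N hN hi => ?_⟩
  · rintro _ ⟨t, rfl⟩
    exact hmx t
  obtain ⟨ε, hε, hb⟩ := Metric.mem_nhds_iff.1 (cc.continuousAt.preimage_mem_nhds hN)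
  obtain ⟨δ, d0, d1, d2⟩ : ∃ δ : ℝ, 0 < δ ∧ δ < ε ∧ δ ≤ 1 / 4 :=
    ⟨min (ε / 2) (1 / 4), lt_min (half_pos hε) (by norm_num),
      (min_le_left _ _).trans_lt (half_lt_self hε), min_le_right _ _⟩
  have hin : ∀ t ∈ Icc (t0 - δ) (t0 + δ), c t ∈ range c ∩ N := fun t ht =>
    ⟨mem_range_self _, hb (by
      rw [mem_ball, Real.dist_eq, abs_lt]
      constructor <;> linarith only [d1, ht, ht.1, ht.2])⟩
  have hj : InjOn (fun t => f (c t)) (Icc (t0 - δ) (t0 + δ)) := by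
    intro s hs t ht e
    obtain ⟨k, hk⟩ := (hp _ _).1 (hi (hin s hs) (hin t ht) e)
    have a1 : (k : ℝ) < 1 := by linarith only [d0, d2, hk, hs, ht, hs.2, ht.1]
    have a2 : (-1 : ℝ) < k := by linarith [hs.1, ht.2]
    have a3 : k = 0 := by
      have b1 : k < 1 := by exact_mod_cast a1
      have b2 : -1 < k := by exact_mod_cast a2
      omega
    rw [a3, Int.cast_zero] at hk
    linarith only [hk]
  have m0 : t0 ∈ Icc (t0 - δ) (t0 + δ) := ⟨by linarith only [d0], by linarith⟩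
  have hab : t0 - δ ≤ t0 + δ := by linarith
  rcases fc.continuousOn.strictMonoOn_of_injOn_Icc' hab hj with hs | hs
  · exact (hmx _).not_gt (hs m0 (right_mem_Icc.2 hab) (by linarith))
  · exact (hmx _).not_gt (hs (left_mem_Icc.2 hab) m0 (by linarith))

/-- From locally uniform radii to a radius function which is locally bounded below. -/
theorem lb_radius {V Y : Set (Rn n)} {Q : Rn n → Rn n → Rn n → Prop}
    (h : ∀ y₀ ∈ V, ∃ r, 0 < r ∧ ∀ᶠ y in 𝓝 y₀, y ∈ Y → ∀ y₁ ∈ ball y r, ∀ y₂ ∈ ball y r, Q y y₁ y₂)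
    (hY : Y ⊆ V) : ∃ ρ, LB V ρ ∧ ∀ y ∈ Y, ∀ y₁ ∈ ball y (ρ y), ∀ y₂ ∈ ball y (ρ y), Q y y₁ y₂ := by
  set S : Rn n → Set ℝ := fun y =>
    {r | r ≤ 1 ∧ (y ∈ Y → ∀ y₁ ∈ ball y r, ∀ y₂ ∈ ball y r, Q y y₁ y₂)} with hS
  have hb : ∀ y, BddAbove (S y) := fun y => ⟨1, fun r hr => hr.1⟩
  have hn : ∀ y, (S y).Nonempty := fun y => ⟨0, zero_le_one, fun _ y₁ h1 => by simp at h1⟩
  refine ⟨fun y => sSup (S y), fun y₀ h0 => ?_, fun y hy y₁ h1 y₂ h2 => ?_⟩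
  · obtain ⟨r, hr, he⟩ := h y₀ h0
    refine ⟨min r 1, lt_min hr one_pos, he.mono fun y hy => le_csSup (hb y) ⟨min_le_right _ _, ?_⟩⟩
    exact fun hy' y₁ h1 y₂ h2 => hy hy' y₁ (ball_subset_ball (min_le_left _ _) h1) y₂
      (ball_subset_ball (min_le_left _ _) h2)
  · obtain ⟨r, hr, hlt⟩ := exists_lt_of_lt_csSup (hn y) (max_lt (mem_ball.1 h1) (mem_ball.1 h2))
    exact hr.2 hy y₁ ((le_max_left _ _).trans_lt hlt) y₂ ((le_max_right _ _).trans_lt hlt)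

end BEp
end
end

-- merged part: Pool.Agent.Work.MP_f0515e_an.P3.YGl
section
/-! Gluing over the simplices of the flags. -/

open Set Metric Filter Topology Function BEv MeasureTheory
open scoped NNReal ENNReal

noncomputable section
namespace BEp

namespace Cx
variable {V : Set (Rn 3)} {X : Cx V} {c c' : Fin 4 → Set (Rn 3)} {w w' T T' : Rn 4}
  {y y' z z' : Rn 3} {v v' : Set (Rn 3)} {d e : Fin 4}

theorem tp_pt (X : Cx V) (c : Fin 4 → Set (Rn 3)) : TP (X.pt c) := by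
  exact TP.sum Finset.univ fun d _ => (tp_yio.apply d).smul_const (X.b (c d))

theorem pt_inv (h : X.Fl c) : ∃ k : Rn 3 → Rn 4, TP k ∧ ∀ T ∈ YQ, k (X.pt c T) = T := by
  exact tp_linv poly_YQ (X.tp_pt c) fun T hT T' hT' e =>
    ((rep_pt h hT).uniq (e ▸ rep_pt h hT')).1

theorem YGl_poly (X : Cx V) (c : Fin 4 → Set (Rn 3)) : Poly (X.pt c '' YQ) :=
  poly_YQ.image (X.tp_pt c)

theorem YGl_rep (h : X.Fl c) (hy : y ∈ X.pt c '' YQ) : X.Rep y c (X.TT y) := by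
  obtain ⟨T, hT, rfl⟩ := hy
  rw [(rep_pt h hT).TT_eq]
  exact rep_pt h hT

theorem YGl_cov (X : Cx V) {C : Set (Rn 3)} (hs : C ⊆ V) (hy : y ∈ C) :
    ∃ c ∈ {c | X.Fl c ∧ (closure (c 3) ∩ C).Nonempty}, y ∈ X.pt c '' YQ :=
  have h := X.rep (hs hy)
  ⟨_, ⟨h.1, y, h.cl, hy⟩, _, h.2.1, h.2.2.symm⟩

theorem YGl_nhd (X : Cx V) (hy : y ∈ V) : ∃ C, IsCompact C ∧ C ∈ 𝓝 y ∧ C ⊆ V :=
  (exists_compact_subset X.opn hy).imp fun _ h => ⟨h.1, mem_interior_iff_mem_nhds.1 h.2.1, h.2.2⟩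

theorem YGl_tt (h : X.Fl c) (v : Set (Rn 3)) :
    (∃ d, ∀ T ∈ YQ, X.tt v (X.pt c T) = T d) ∨ ∀ T ∈ YQ, X.tt v (X.pt c T) = 0 := by
  by_cases k : ∃ d, c d = v
  · obtain ⟨d, rfl⟩ := k
    exact Or.inl ⟨d, fun T hT => (rep_pt h hT).tt_eq d⟩
  · exact Or.inr fun T hT => (rep_pt h hT).tt_zero fun d e => k ⟨d, e⟩

theorem near (X : Cx V) (hy : y ∈ V) :
    ∀ᶠ z in 𝓝 y, ∃ c, X.Rep y c (X.TT y) ∧ X.Rep z c (X.TT z) := by
  obtain ⟨C, h1, h2, h3⟩ := X.YGl_nhd hy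
  have h4 : ∀ c ∈ {c | X.Fl c ∧ (closure (c 3) ∩ C).Nonempty},
      ∀ᶠ z in 𝓝 y, z ∈ X.pt c '' YQ → y ∈ X.pt c '' YQ := fun c _ => by
    by_cases k : y ∈ X.pt c '' YQ
    · exact Eventually.of_forall fun _ _ => k
    · filter_upwards [(X.YGl_poly c).1.isClosed.isOpen_compl.mem_nhds k] with z hz k'
      exact (hz k').elim
  filter_upwards [(eventually_all_finite (X.flags_fin h1 h3)).2 h4, h2] with z hz hC
  obtain ⟨c, hc, k⟩ := X.YGl_cov h3 hC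
  exact ⟨c, YGl_rep hc.1 (hz c hc k), YGl_rep hc.1 k⟩

theorem glue_ltp {m : ℕ} {g : Rn 3 → Rn m}
    (h : ∀ c, X.Fl c → ∃ k : Rn 4 → Rn m, TP k ∧ ∀ T ∈ YQ, g (X.pt c T) = k T) : LTP V g := by
  have h1 : ∀ c, ∃ k : Rn 3 → Rn m, TP k ∧ (X.Fl c → EqOn g k (X.pt c '' YQ)) := fun c => by
    by_cases hc : X.Fl c
    · obtain ⟨k, k1, k2⟩ := h c hc
      obtain ⟨j, j1, j2⟩ := pt_inv hc
      refine ⟨_, k1.comp j1, fun _ => ?_⟩
      rintro _ ⟨T, hT, rfl⟩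
      simp only [j2 T hT, k2 T hT]
    · exact ⟨_, TP.const 0, fun k => (hc k).elim⟩
  choose k k1 k2 using h1
  intro C hC hs
  obtain ⟨j, j1, j2⟩ := tp_glue_fin (X.flags_fin hC hs) (fun c _ => X.YGl_poly c)
    (fun c _ => k1 c) fun c hc c' hc' y hy => (k2 c hc.1 hy.1).symm.trans (k2 c' hc'.1 hy.2)
  refine ⟨j, j1, fun y hy => ?_⟩
  obtain ⟨c, hc, e⟩ := X.YGl_cov hs hy
  exact (k2 c hc.1 e).trans (j2 c hc e).symm

theorem glue_cont {Z : Type} [TopologicalSpace Z] {g : Rn 3 → Z}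
    (h : ∀ c, X.Fl c → ContinuousOn (fun T => g (X.pt c T)) YQ) : ContinuousOn g V := by
  intro y hy
  obtain ⟨C, h1, h2, h3⟩ := X.YGl_nhd hy
  have := (X.flags_fin h1 h3).to_subtype
  have h4 := (locallyFinite_of_finite fun c : {c | X.Fl c ∧ (closure (c 3) ∩ C).Nonempty} =>
    X.pt c '' YQ).continuousOn_iUnion (g := g) (fun c => (X.YGl_poly c).1.isClosed) fun c => by
      obtain ⟨j, j1, j2⟩ := pt_inv c.2.1
      refine ((h c c.2.1).comp j1.continuous.continuousOn ?_).congr ?_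
      · rintro _ ⟨T, hT, rfl⟩
        rwa [j2 T hT]
      · rintro _ ⟨T, hT, rfl⟩
        simp only [comp_apply, j2 T hT]
  refine (h4.continuousAt (mem_of_superset h2 fun z hz => ?_)).continuousWithinAt
  obtain ⟨c, hc, e⟩ := X.YGl_cov h3 hz
  exact mem_iUnion.2 ⟨⟨c, hc⟩, e⟩

theorem ltp_tt (X : Cx V) (v : Set (Rn 3)) : LTP V (X.tt v) := by
  intro C hC hs
  obtain ⟨k, k1, k2⟩ := glue_ltp (X := X) (m := 1) (g := fun y _ => X.tt v y) (fun c hc => by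
    rcases YGl_tt hc v with ⟨d, e⟩ | e
    · exact ⟨fun T _ => T d, TP.pi fun _ => TP.id'.apply d, fun T hT => funext fun _ => e T hT⟩
    · exact ⟨_, TP.const 0, fun T hT => funext fun _ => e T hT⟩) C hC hs
  exact ⟨_, k1.apply 0, fun y hy => congrFun (k2 hy) 0⟩

theorem cont_tt (X : Cx V) (v : Set (Rn 3)) : ContinuousOn (X.tt v) V :=
  (X.ltp_tt v).continuousOn X.opn

theorem ltp_TT (X : Cx V) : LTP V X.TT := by
  exact glue_ltp fun c hc => ⟨_, TP.id', fun T hT => (rep_pt hc hT).TT_eq⟩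

theorem meas_TT (X : Cx V) : Measurable X.TT := by
  classical
  rw [← piecewise_same V X.TT]
  exact (X.ltp_TT.continuousOn X.opn).measurable_piecewise
    (continuousOn_const.congr fun y hy => X.TT_off hy) X.opn.measurableSet

theorem lf1 (X : Cx V) {K : Set (Rn 3)} (hK : IsCompact K) (hs : K ⊆ V) :
    {v | ∃ y ∈ K, 0 < X.tt v y}.Finite := by
  refine ((X.flags_fin hK hs).biUnion fun c _ => finite_range c).subset ?_
  rintro v ⟨y, hy, h⟩
  obtain ⟨c, hc, e⟩ := X.YGl_cov hs hy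
  exact mem_biUnion hc ((YGl_rep hc.1 e).of_pos h)

theorem lf2 (X : Cx V) (v : Set (Rn 3)) :
    ∃ K, IsCompact K ∧ K ⊆ V ∧ ∀ y ∈ V, 0 < X.tt v y → y ∈ K := by
  by_cases hv : v ∈ X.M.cells
  swap
  · exact ⟨∅, isCompact_empty, empty_subset _, fun y _ h => hv (tt_pos h).2.1⟩
  refine ⟨_, (Kx.lf_cl (K := X.M) X.opn (Kx.cells_poly hv).1 (Kx.cl_sub hv)).isCompact_biUnion
    fun σ h => (Kx.cells_poly h.1).1, iUnion₂_subset fun σ h => Kx.cl_sub h.1, fun y hy h => ?_⟩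
  obtain ⟨x, hx⟩ := Kx.cells_ne hv
  exact mem_biUnion (x := X.M.cell y) ⟨X.M.cell_mem hy, x, (tt_pos h).2.2 hx, subset_closure hx⟩
    (subset_closure (X.M.mem y hy))

theorem oRg_open (X : Cx V) (α β : Set (Rn 3) → ℝ) : IsOpen (X.oRg α β) := by
  refine isOpen_iff_mem_nhds.2 fun y hy => ?_
  obtain ⟨C, h1, h2, h3⟩ := X.YGl_nhd hy.1
  have h4 : ∀ v ∈ {v | ∃ y ∈ C, 0 < X.tt v y},
      ∀ᶠ z in 𝓝 y, (α v < X.tt v z ∨ α v = 0) ∧ (X.tt v z < β v ∨ β v = 1) := fun v _ => by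
    have k := (X.cont_tt v).continuousAt (X.opn.mem_nhds hy.1)
    refine Eventually.and ?_ ?_
    · rcases (hy.2 v).1 with e | e
      · exact (k.eventually_const_lt e).mono fun _ => Or.inl
      · exact Eventually.of_forall fun _ => Or.inr e
    · rcases (hy.2 v).2 with e | e
      · exact (k.eventually_lt_const e).mono fun _ => Or.inl
      · exact Eventually.of_forall fun _ => Or.inr e
  filter_upwards [(eventually_all_finite (X.lf1 h1 h3)).2 h4, h2] with z hz hC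
  refine ⟨h3 hC, fun v => ?_⟩
  by_cases k : ∃ y ∈ C, 0 < X.tt v y
  · exact hz v k
  · have k0 : ∀ x ∈ C, X.tt v x = 0 := fun x hx =>
      ((X.tt_mem v x).1.eq_or_lt.resolve_right fun e => k ⟨x, hx, e⟩).symm
    rw [(k0 z hC).trans (k0 y (mem_of_mem_nhds h2)).symm]
    exact hy.2 v

theorem oRg_sub (X : Cx V) (α β : Set (Rn 3) → ℝ) : X.oRg α β ⊆ X.Rg α β := by
  exact fun y hy => ⟨hy.1, fun v => ⟨(hy.2 v).1.elim le_of_lt fun e => e ▸ (X.tt_mem v y).1,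
    (hy.2 v).2.elim le_of_lt fun e => e ▸ (X.tt_mem v y).2⟩⟩

/-- Lipschitz bound for the coordinates from the shape bounds of the simplices. -/
theorem tt_lip {U : Set (Rn 3)} (hU : Convex ℝ U) (hK : IsCompact U) (hs : U ⊆ V) {κ : ℝ}
    (hκ : 0 ≤ κ) (h : ∀ c, X.Fl c → (closure (c 3) ∩ U).Nonempty → X.Shp c κ) (hz : z ∈ U)
    (hz' : z' ∈ U) (v : Set (Rn 3)) : |X.tt v z - X.tt v z'| ≤ 4 * κ * ‖z - z'‖ := by
  refine lip_pieces (f := X.tt v) hU ((X.flags_fin hK hs).image fun c => X.pt c '' YQ) ?_ ?_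
    (by positivity) ?_ z hz z' hz'
  · rintro _ ⟨c, -, rfl⟩
    exact (X.YGl_poly c).1.isClosed
  · intro y hy
    obtain ⟨c, hc, e⟩ := X.YGl_cov hs hy
    exact ⟨_, ⟨c, hc, rfl⟩, e⟩
  rintro _ ⟨c, hc, rfl⟩ _ ⟨T, hT, rfl⟩ _ ⟨T', hT', rfl⟩
  rcases YGl_tt hc.1 v with ⟨d, e⟩ | e
  · have h1 := h c hc.1 hc.2 (yio T - yio T') (by
      simp only [Pi.sub_apply, Finset.sum_sub_distrib, (yio_mem hT).2, (yio_mem hT').2, sub_self])
    have h2 : X.bp c (yio T - yio T') = X.pt c T - X.pt c T' := by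
      simp only [pt, bp, Pi.sub_apply, sub_smul, Finset.sum_sub_distrib]
    have h3 := yta_lip (yio T) (yio T')
    rw [yta_yio, yta_yio] at h3
    rw [h2] at h1
    rw [e T hT, e T' hT']
    linarith [show ‖T d - T' d‖ ≤ ‖T - T'‖ from norm_le_pi_norm (T - T') d]
  · rw [e T hT, e T' hT', sub_self, norm_zero]
    positivity

end Cx

end BEp
end
end

-- merged part: Pool.Agent.Work.MP_f0515e_an.P3.YStar
section
/-! The coordinates are conical around every point. -/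

open Set Metric Filter Topology Function BEv MeasureTheory
open scoped NNReal ENNReal

noncomputable section
namespace BEp

namespace Cx
variable {V : Set (Rn 3)} {X : Cx V} {c c' : Fin 4 → Set (Rn 3)} {w w' T T' : Rn 4}
  {y y' z z' : Rn 3} {v v' : Set (Rn 3)} {d e : Fin 4}
variable {y₀ : Rn 3}

theorem YStar_cmn (h : ∀ d e, T d < T e → T' d ≤ T' e) : Cmn T T' := fun d e => by
  rcases lt_trichotomy (T d) (T e) with k | k | k
  · exact mul_nonneg_of_nonpos_of_nonpos (sub_nonpos.2 k.le) (sub_nonpos.2 (h d e k))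
  · simp [k]
  · exact mul_nonneg (sub_nonneg.2 k.le) (sub_nonneg.2 (h e d k))

theorem YStar_seg (c : Fin 4 → Set (Rn 3)) (hT : T ∈ YQ) (hT' : T' ∈ YQ) (k : Cmn T T') {s : ℝ}
    (hs : s ∈ Icc (0 : ℝ) 1) :
    T + s • (T' - T) ∈ YQ ∧ X.pt c (T + s • (T' - T)) = X.pt c T + s • (X.pt c T' - X.pt c T) := by
  refine ⟨⟨fun d => (convex_Icc (0 : ℝ) 1).add_smul_sub_mem (hT.1 d) (hT'.1 d) hs, ?_⟩, ?_⟩
  · obtain ⟨d, hd⟩ := hT.2
    obtain ⟨e, he⟩ := hT'.2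
    rcases (hT.1 e).2.eq_or_lt with l | l
    · exact ⟨e, by simp [l, he]⟩
    · have := k e d
      rw [hd, he] at this
      exact ⟨d, by simp [hd, (hT'.1 d).2.antisymm
        (sub_nonpos.1 (nonpos_of_mul_nonneg_right this (sub_neg.2 l)))]⟩
  · simp only [pt, bp, yio_seg k hs, Pi.add_apply, Pi.smul_apply, Pi.sub_apply, smul_eq_mul,
      add_smul, mul_smul, sub_smul, Finset.sum_add_distrib, ← Finset.smul_sum,
      Finset.sum_sub_distrib]

theorem YStar_rep (hy : y₀ ∈ V) (h : X.Cmp y₀ y) : X.Rep y₀ (X.fl y) (X.TT y₀) :=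
  rep_of (X.rep h.1).1 hy fun v hv => (X.rep h.1).of_pos (h.2.1 v hv)

theorem YStar_small {p : Rn 3 → Prop} (h : ∀ᶠ ξ in 𝓝 (0 : Rn 3), p ξ) (ξ : Rn 3) :
    ∃ s ∈ Ioc (0 : ℝ) 1, p (s • ξ) := by
  have t : Tendsto (fun s : ℝ => s • ξ) (𝓝[>] 0) (𝓝 0) :=
    ((continuous_id.smul continuous_const).tendsto' 0 0 (zero_smul _ _)).mono_left nhdsWithin_le_nhds
  exact (((t.eventually h).and (Ioc_mem_nhdsGT zero_lt_one)).exists).imp fun s k => k.symm

theorem Cmp.seg (hy : y₀ ∈ V) (h : X.Cmp y₀ y) {s : ℝ} (hs : s ∈ Ioc (0 : ℝ) 1) :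
    X.Cmp y₀ (y₀ + s • (y - y₀)) ∧ X.M.cell (y₀ + s • (y - y₀)) = X.M.cell y ∧
      ∀ v, X.tt v (y₀ + s • (y - y₀)) = X.tt v y₀ + s * (X.tt v y - X.tt v y₀) := by
  have r := X.rep h.1
  have r0 := YStar_rep hy h
  obtain ⟨m, e⟩ := YStar_seg (X := X) (X.fl y) r0.2.1 r.2.1 (YStar_cmn fun d e k => by
    rw [← r.tt_eq, ← r.tt_eq]
    exact h.2.2 _ _ (by rwa [r0.tt_eq, r0.tt_eq])) ⟨hs.1.le, hs.2⟩
  rw [← r.2.2, ← r0.2.2] at e
  have rz := e ▸ rep_pt r.1 m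
  have f : ∀ v, X.tt v (y₀ + s • (y - y₀)) = X.tt v y₀ + s * (X.tt v y - X.tt v y₀) := fun v => by
    by_cases k : ∃ d, X.fl y d = v
    · obtain ⟨d, rfl⟩ := k
      rw [rz.tt_eq, r.tt_eq, r0.tt_eq]
      rfl
    · rw [rz.tt_zero (not_exists.1 k), r.tt_zero (not_exists.1 k), r0.tt_zero (not_exists.1 k)]
      simp
  have s1 := sub_nonneg.2 hs.2
  have p : ∀ v, 0 < X.tt v y → 0 < X.tt v (y₀ + s • (y - y₀)) := fun v k => by
    rw [f]
    linarith [mul_pos hs.1 k, mul_nonneg s1 (X.tt_mem v y₀).1]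
  refine ⟨⟨rz.mem, fun v k => p v (h.2.1 v k), fun v v' k => ?_⟩,
    cell_eq_of rz.mem h.1 fun v => ⟨fun k => ?_, p v⟩, f⟩
  · rw [f, f]
    linarith [mul_nonneg s1 (sub_nonneg.2 k.le), mul_nonneg hs.1.le (sub_nonneg.2 (h.2.2 v v' k))]
  · by_contra n
    rw [f, (not_lt.1 n).antisymm (X.tt_mem v y).1,
      (not_lt.1 (mt (h.2.1 v) n)).antisymm (X.tt_mem v y₀).1] at k
    simp at k

theorem cmp_near (X : Cx V) (hy : y₀ ∈ V) : ∀ᶠ y in 𝓝 y₀, X.Cmp y₀ y := by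
  have ct : ∀ d, ContinuousAt (fun y => X.TT y d) y₀ := fun d =>
    (continuous_apply d).continuousAt.comp
      ((X.ltp_TT.continuousOn X.opn).continuousAt (X.opn.mem_nhds hy))
  have e1 : ∀ᶠ y in 𝓝 y₀, ∀ d, 0 < X.TT y₀ d → 0 < X.TT y d := eventually_all.2 fun d =>
    eventually_imp_distrib_left.2 fun k => continuousAt_const.eventually_lt (ct d) k
  have e2 : ∀ᶠ y in 𝓝 y₀, ∀ d e, X.TT y₀ d < X.TT y₀ e → X.TT y d < X.TT y e :=
    eventually_all.2 fun d => eventually_all.2 fun e =>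
      eventually_imp_distrib_left.2 fun k => (ct d).eventually_lt (ct e) k
  filter_upwards [e1, e2, X.near hy] with y e1 e2 ⟨c, r0, r⟩
  refine ⟨r.mem, fun v k => ?_, fun v v' k => ?_⟩
  · obtain ⟨d, rfl⟩ := r0.of_pos k
    rw [r0.tt_eq] at k
    exact (e1 d k).trans_eq (r.tt_eq d).symm
  · obtain ⟨e, rfl⟩ := r0.of_pos ((X.tt_mem v y₀).1.trans_lt k)
    by_cases l : ∃ d, c d = v
    · obtain ⟨d, rfl⟩ := l
      rw [r0.tt_eq, r0.tt_eq] at k
      rw [r.tt_eq, r.tt_eq]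
      exact (e2 d e k).le
    · rw [r.tt_zero (not_exists.1 l)]
      exact (X.tt_mem _ _).1

theorem star (X : Cx V) (hy : y₀ ∈ V) : ∃ U : Set (Rn 3) → Rn 3 → ℝ, (∀ v, Hom (U v)) ∧
    {v | U v ≠ 0}.Finite ∧ (∀ ξ, (∀ v, U v ξ = 0) → ξ = 0) ∧
    (∀ ξ, X.Cmp y₀ (y₀ + ξ) → ∀ v, X.tt v (y₀ + ξ) = X.tt v y₀ + U v ξ) ∧
    ∀ ξ, (∀ v, X.tt v y₀ + U v ξ ∈ Icc (0 : ℝ) 1) →
      (∀ v, 0 < X.tt v y₀ → 0 < X.tt v y₀ + U v ξ) →
      (∀ v v', X.tt v y₀ < X.tt v' y₀ → X.tt v y₀ + U v ξ ≤ X.tt v' y₀ + U v' ξ) →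
        X.Cmp y₀ (y₀ + ξ) := by
  have ta : Tendsto (fun ξ => y₀ + ξ) (𝓝 0) (𝓝 y₀) :=
    (continuous_const.add continuous_id).tendsto' 0 y₀ (add_zero _)
  have ex : ∀ v, ∃ U, Hom U ∧ ∀ᶠ ξ in 𝓝 (0 : Rn 3), X.tt v (y₀ + ξ) = X.tt v y₀ + U ξ := fun v => by
    obtain ⟨g, hg, e⟩ := (X.ltp_tt v).nhds X.opn isCompact_singleton (singleton_subset_iff.2 hy)
    obtain ⟨U, hU, k⟩ := hom_ext hg y₀
    refine ⟨U, hU, ?_⟩
    filter_upwards [k, ta.eventually (e y₀ rfl)] with ξ k l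
    rw [l, k, (e y₀ rfl).self_of_nhds]
  choose U hU eU using ex
  have fm : ∀ ξ, X.Cmp y₀ (y₀ + ξ) → ∀ v, X.tt v (y₀ + ξ) = X.tt v y₀ + U v ξ := fun ξ h v => by
    obtain ⟨s, hs, k⟩ := YStar_small (eU v) ξ
    have l := (h.seg hy hs).2.2 v
    rw [add_sub_cancel_left, k, (hU v).2 _ _ hs.1.le, add_right_inj] at l
    rw [mul_left_cancel₀ hs.1.ne' l, add_sub_cancel]
  have sm := YStar_small (ta.eventually (X.cmp_near hy))
  refine ⟨U, hU, ?_, fun ξ h => ?_, fm, fun ξ h1 h2 h3 => ?_⟩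
  · obtain ⟨K, hK, kn, kV⟩ := exists_compact_subset X.opn hy
    refine (X.lf1 hK kV).subset fun v hv => by_contra fun n => hv (funext fun ξ => ?_)
    have z : ∀ y ∈ K, X.tt v y = 0 := fun y k =>
      (not_lt.1 fun l => n ⟨y, k, l⟩).antisymm (X.tt_mem v y).1
    obtain ⟨s, hs, k, l⟩ := YStar_small
      ((eU v).and (ta.eventually (mem_interior_iff_mem_nhds.1 kn))) ξ
    rw [z _ l, z _ (interior_subset kn), zero_add, (hU v).2 _ _ hs.1.le] at k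
    exact (mul_eq_zero.1 k.symm).resolve_left hs.1.ne'
  · obtain ⟨s, hs, k⟩ := sm ξ
    have := ext_tt k.1 hy fun v => by rw [fm _ k, (hU v).2 _ _ hs.1.le, h, mul_zero, add_zero]
    exact (smul_eq_zero.1 (add_eq_left.1 this)).resolve_left hs.1.ne'
  obtain ⟨s, hs, k⟩ := sm ξ
  have r := X.rep k.1
  have r0 := YStar_rep hy k
  have f : ∀ v, X.tt v (y₀ + s • ξ) = X.tt v y₀ + s * U v ξ := fun v => by
    rw [fm _ k, (hU v).2 _ _ hs.1.le]
  generalize X.fl (y₀ + s • ξ) = c at r r0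
  have m : (fun d => X.tt (c d) y₀ + U (c d) ξ) ∈ YQ := by
    obtain ⟨d, hd⟩ := r.2.1.2
    rw [← r.tt_eq, f] at hd
    refine ⟨fun d => h1 _, d, (h1 _).2.antisymm (le_of_mul_le_mul_left ?_ hs.1)⟩
    linarith [mul_nonneg (sub_nonneg.2 hs.2) (sub_nonneg.2 (X.tt_mem (c d) y₀).2)]
  have e := (YStar_seg (X := X) c r0.2.1 m (YStar_cmn fun d e l =>
    h3 _ _ (by rwa [r0.tt_eq, r0.tt_eq])) ⟨hs.1.le, hs.2⟩).2
  rw [← r0.2.2, show X.TT y₀ + s • ((fun d => X.tt (c d) y₀ + U (c d) ξ) - X.TT y₀) =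
    X.TT (y₀ + s • ξ) from funext fun d => by simp [← r.tt_eq, ← r0.tt_eq, f], ← r.2.2,
    add_right_inj] at e
  have r1 := rep_pt r.1 m
  rw [← eq_sub_iff_add_eq'.1 (smul_right_injective _ hs.1.ne' e)] at r1
  have g : ∀ v, X.tt v (y₀ + ξ) = X.tt v y₀ + U v ξ := fun v => by
    by_cases l : ∃ d, c d = v
    · obtain ⟨d, rfl⟩ := l
      exact r1.tt_eq d
    · have := f v
      rw [r.tt_zero (not_exists.1 l), r0.tt_zero (not_exists.1 l), zero_add] at this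
      rw [r1.tt_zero (not_exists.1 l), r0.tt_zero (not_exists.1 l),
        (mul_eq_zero.1 this.symm).resolve_left hs.1.ne', add_zero]
  exact ⟨r1.mem, fun v l => g v ▸ h2 v l, fun v v' l => by rw [g, g]; exact h3 v v' l⟩

end Cx

end BEp
end
end

-- merged part: Pool.Agent.Work.MP_f0515e_an.P3.YBl01
section
/-! Radial blow up of a point of the unit cube. -/

open Set Metric Filter Topology Function BEv MeasureTheory
open scoped NNReal ENNReal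

noncomputable section
namespace BEp

/-- The gauge of the unit cube with respect to an inner point. -/
theorem YBl01_gauge {z : Rn 3} (hz : ∀ i, z i ∈ Icc (1 / 3 : ℝ) (2 / 3)) : ∃ r : Rn 3 → ℝ,
    (∀ ξ c, r ξ ≤ c ↔ ∀ i, ξ i ≤ c * (1 - z i) ∧ -ξ i ≤ c * z i) ∧
    (∀ ξ (t : ℝ), 0 ≤ t → r (t • ξ) = t * r ξ) ∧ (∀ ξ, 3 / 2 * ‖ξ‖ ≤ r ξ) ∧
    ∀ ξ ξ', |r ξ - r ξ'| ≤ 3 * ‖ξ - ξ'‖ := by
  obtain ⟨r, hr⟩ : ∃ r : Rn 3 → ℝ, ∀ ξ c, r ξ ≤ c ↔ ∀ i, ξ i ≤ c * (1 - z i) ∧ -ξ i ≤ c * z i := by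
    refine ⟨fun ξ => Finset.univ.sup' Finset.univ_nonempty
      fun i => max (ξ i / (1 - z i)) (-ξ i / z i), fun ξ c => ?_⟩
    rw [Finset.sup'_le_iff]
    refine forall_congr' fun i => ?_
    rw [max_le_iff, div_le_iff₀ (by linarith [(hz i).2]), div_le_iff₀ (by linarith [(hz i).1])]
    simp
  have r0 : ∀ ξ, 0 ≤ r ξ := fun ξ => by
    have := (hr ξ _).1 le_rfl 0
    linarith [this.1, this.2]
  have r3 : ∀ ξ ξ', r ξ ≤ r ξ' + 3 * ‖ξ - ξ'‖ := fun ξ ξ' => (hr _ _).2 fun i => by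
    have a := (hr ξ' _).1 le_rfl i
    have b := abs_le.1 ((Real.norm_eq_abs _).symm.trans_le (norm_le_pi_norm (ξ - ξ') i))
    rw [Pi.sub_apply] at b
    have c := norm_nonneg (ξ - ξ')
    constructor
    · linarith only [a, b, hz, a.1, b.2, (hz i).2, mul_nonneg_of_nonpos_of_nonpos (Mathlib.Tactic.Linarith.sub_nonpos_of_le b.left) (Mathlib.Tactic.Linarith.sub_nonpos_of_le (hz i).right), mul_nonneg_of_nonpos_of_nonpos (Mathlib.Tactic.Linarith.sub_nonpos_of_le b.right) (Mathlib.Tactic.Linarith.sub_nonpos_of_le (hz i).right)]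
    · linarith only [a, b, hz, a.2, b.1, (hz i).1, mul_nonneg_of_nonpos_of_nonpos (Mathlib.Tactic.Linarith.sub_nonpos_of_le b.left) (Mathlib.Tactic.Linarith.sub_nonpos_of_le (hz i).left), mul_nonneg_of_nonpos_of_nonpos (Mathlib.Tactic.Linarith.sub_nonpos_of_le b.right) (Mathlib.Tactic.Linarith.sub_nonpos_of_le (hz i).left)]
  refine ⟨r, hr, fun ξ t ht => ?_, fun ξ => ?_, fun ξ ξ' => abs_le.2 ⟨?_, ?_⟩⟩
  · rcases ht.eq_or_lt with rfl | ht
    · rw [zero_smul, zero_mul]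
      exact le_antisymm ((hr _ _).2 fun i => by simp) (r0 _)
    · refine eq_of_forall_ge_iff fun c => ?_
      rw [← le_div_iff₀' ht, hr, hr]
      refine forall_congr' fun i => ?_
      rw [div_mul_eq_mul_div, div_mul_eq_mul_div, le_div_iff₀' ht, le_div_iff₀' ht, Pi.smul_apply,
        smul_eq_mul, mul_neg]
  · have : ‖ξ‖ ≤ 2 / 3 * r ξ := by
      refine (pi_norm_le_iff_of_nonneg (by linarith only [r0, r0 ξ])).2 fun i => ?_
      have a := (hr ξ _).1 le_rfl i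
      rw [Real.norm_eq_abs, abs_le]
      constructor
      · linarith only [a, hz, a.2, r0 ξ, (hz i).2, mul_nonneg_of_nonpos_of_nonpos (Mathlib.Tactic.Linarith.sub_nonpos_of_le a.left) (Mathlib.Tactic.Linarith.sub_nonpos_of_le (hz i).right), mul_nonneg_of_nonpos_of_nonpos (Mathlib.Tactic.Linarith.sub_nonpos_of_le a.right) (Mathlib.Tactic.Linarith.sub_nonpos_of_le (hz i).right)]
      · linarith only [a, hz, a.1, r0 ξ, (hz i).1, mul_nonneg_of_nonpos_of_nonpos (Mathlib.Tactic.Linarith.sub_nonpos_of_le a.left) (Mathlib.Tactic.Linarith.sub_nonpos_of_le (hz i).left), mul_nonneg_of_nonpos_of_nonpos (Mathlib.Tactic.Linarith.sub_nonpos_of_le a.right) (Mathlib.Tactic.Linarith.sub_nonpos_of_le (hz i).left)]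
    linarith only [this]
  · have := r3 ξ' ξ
    rw [norm_sub_rev] at this
    linarith
  · linarith [r3 ξ ξ']

/-- The profile of the blow up. -/
theorem YBl01_prof {η δ : ℝ} (h0 : 0 < η) (h1 : η ≤ 1 / 100) (hδ : 0 < δ) : ∃ h : ℝ → ℝ,
    Continuous h ∧ StrictMono h ∧ h 0 = 0 ∧
    (∀ t, 0 ≤ t → h t ≤ t + 1) ∧ (∀ t, 1 - 3 * η ≤ t → h t = t) ∧ (∀ t, δ ≤ t → 1 - 6 * η ≤ h t) ∧
    ∀ s t, δ ≤ s → δ ≤ t → |h s - h t| ≤ |s - t| := by
  have d0 : 0 < δ⁻¹ := inv_pos.2 hδ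
  have e : ∀ t, δ ≤ t → min ((δ⁻¹ + 1) * t) (1 - 6 * η + 3 * η * t) = 1 - 6 * η + 3 * η * t := by
    intro t ht
    have : 1 ≤ δ⁻¹ * t := by
      rw [le_inv_mul_iff₀ hδ]
      linarith
    exact min_eq_right (by linarith only [ht, this, h0, h1, hδ, mul_pos_of_neg_of_neg (Mathlib.Tactic.Linarith.sub_neg_of_lt h0) (Mathlib.Tactic.Linarith.sub_neg_of_lt h0), mul_nonneg_of_nonpos_of_nonpos (le_of_lt (Mathlib.Tactic.Linarith.sub_neg_of_lt h0)) (Mathlib.Tactic.Linarith.sub_nonpos_of_le h1), mul_pos_of_neg_of_neg (Mathlib.Tactic.Linarith.sub_neg_of_lt h0) (Mathlib.Tactic.Linarith.sub_neg_of_lt hδ), mul_nonneg_of_nonpos_of_nonpos (Mathlib.Tactic.Linarith.sub_nonpos_of_le h1) (le_of_lt (Mathlib.Tactic.Linarith.sub_neg_of_lt hδ)), mul_nonneg_of_nonpos_of_nonpos (Mathlib.Tactic.Linarith.sub_nonpos_of_le h1) (Mathlib.Tactic.Linarith.sub_nonpos_of_le ht)])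
  refine ⟨fun t => max t (min ((δ⁻¹ + 1) * t) (1 - 6 * η + 3 * η * t)), by fun_prop,
    fun s t k => max_lt_max k (min_lt_min (by linarith only [h0, k, h1, d0, mul_pos_of_neg_of_neg (Mathlib.Tactic.Linarith.sub_neg_of_lt h0) (Mathlib.Tactic.Linarith.sub_neg_of_lt k), mul_nonneg_of_nonpos_of_nonpos (Mathlib.Tactic.Linarith.sub_nonpos_of_le h1) (le_of_lt (Mathlib.Tactic.Linarith.sub_neg_of_lt k)), mul_pos_of_neg_of_neg (Mathlib.Tactic.Linarith.sub_neg_of_lt d0) (Mathlib.Tactic.Linarith.sub_neg_of_lt k)]) (by linarith only [h0, k, mul_pos_of_neg_of_neg (Mathlib.Tactic.Linarith.sub_neg_of_lt h0) (Mathlib.Tactic.Linarith.sub_neg_of_lt k)])), ?_,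
    fun t ht => max_le (by linarith) ((min_le_right _ _).trans (by linarith only [ht, h0, h1, mul_pos_of_neg_of_neg (Mathlib.Tactic.Linarith.sub_neg_of_lt h0) (Mathlib.Tactic.Linarith.sub_neg_of_lt h0), mul_nonneg_of_nonpos_of_nonpos (le_of_lt (Mathlib.Tactic.Linarith.sub_neg_of_lt h0)) (Mathlib.Tactic.Linarith.sub_nonpos_of_le h1), mul_nonneg_of_nonpos_of_nonpos (Mathlib.Tactic.Linarith.sub_nonpos_of_le h1) (Mathlib.Tactic.Linarith.sub_nonpos_of_le ht)])),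
    fun t ht => max_eq_left ((min_le_right _ _).trans (by linarith only [ht, h0, h1, mul_pos_of_neg_of_neg (Mathlib.Tactic.Linarith.sub_neg_of_lt h0) (Mathlib.Tactic.Linarith.sub_neg_of_lt h0), mul_nonneg_of_nonpos_of_nonpos (Mathlib.Tactic.Linarith.sub_nonpos_of_le h1) (Mathlib.Tactic.Linarith.sub_nonpos_of_le ht)])), fun t ht => ?_,
    fun s t hs ht => ?_⟩
  · simp
  · show _ ≤ max _ _
    rw [e t ht]
    exact le_max_of_le_right (by linarith only [h0, hδ, ht, mul_pos_of_neg_of_neg (Mathlib.Tactic.Linarith.sub_neg_of_lt h0) (Mathlib.Tactic.Linarith.sub_neg_of_lt hδ), mul_nonneg_of_nonpos_of_nonpos (le_of_lt (Mathlib.Tactic.Linarith.sub_neg_of_lt h0)) (Mathlib.Tactic.Linarith.sub_nonpos_of_le ht)])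
  · show |max _ _ - max _ _| ≤ _
    rw [e s hs, e t ht]
    refine (abs_max_sub_max_le_max _ _ _ _).trans (max_le le_rfl ?_)
    rw [show 1 - 6 * η + 3 * η * s - (1 - 6 * η + 3 * η * t) = 3 * η * (s - t) by ring, abs_mul,
      abs_of_pos (by linarith)]
    (refine le_of_not_gt fun h_nl => ?_; linarith only [h_nl, h0, h1, abs_nonneg (s - t), mul_pos_of_neg_of_neg (Mathlib.Tactic.Linarith.sub_neg_of_lt h0) (Mathlib.Tactic.Linarith.sub_neg_of_lt h_nl), mul_nonneg_of_nonpos_of_nonpos (Mathlib.Tactic.Linarith.sub_nonpos_of_le h1) (le_of_lt (Mathlib.Tactic.Linarith.sub_neg_of_lt h_nl)), mul_nonneg_of_nonpos_of_nonpos (Mathlib.Tactic.Linarith.sub_nonpos_of_le h1) (Mathlib.Tactic.Linarith.sub_nonpos_of_le (abs_nonneg (s - t)))])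

theorem YBl01_lip {ξ ξ' : Rn 3} {r r' h h' n : ℝ} (n0 : 0 < n) (a : n ≤ r) (a' : n ≤ r')
    (b : 3 / 2 * ‖ξ'‖ ≤ r') (c : |r - r'| ≤ 3 * ‖ξ - ξ'‖) (d : |h - h'| ≤ |r - r'|) (e0 : 0 ≤ h)
    (e : h ≤ r + 1) : ‖(h / r) • ξ - (h' / r') • ξ'‖ ≤ 100 * (1 + n⁻¹) * ‖ξ - ξ'‖ := by
  have r0 : 0 < r := n0.trans_le a
  have r0' : 0 < r' := n0.trans_le a'
  have i0 : 0 < n⁻¹ := inv_pos.2 n0
  have k0 : 0 ≤ h / r := div_nonneg e0 r0.le
  have k1 : h / r ≤ 1 + n⁻¹ := by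
    have : r⁻¹ ≤ n⁻¹ := inv_anti₀ n0 a
    calc h / r ≤ (r + 1) / r := by gcongr
      _ = 1 + r⁻¹ := by field_simp
      _ ≤ _ := by linarith only [this]
  have D0 := norm_nonneg (ξ - ξ')
  have k2 : |h / r - h' / r'| * r' ≤ 3 * ‖ξ - ξ'‖ + (1 + n⁻¹) * (3 * ‖ξ - ξ'‖) := by
    have : |h / r - h' / r'| * r' = |h - h' - h / r * (r - r')| := by
      rw [← abs_of_pos r0', ← abs_mul, abs_of_pos r0']
      congr 1
      field_simp
      ring
    rw [this]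
    refine (abs_sub _ _).trans (add_le_add (d.trans c) ?_)
    rw [abs_mul, abs_of_nonneg k0]
    exact mul_le_mul k1 c (abs_nonneg _) (by linarith only [i0])
  have k3 : ‖(h / r - h' / r') • ξ'‖ ≤ |h / r - h' / r'| * r' := by
    rw [norm_smul, Real.norm_eq_abs]
    exact mul_le_mul_of_nonneg_left (by linarith only [n0, a', b, norm_nonneg ξ']) (abs_nonneg _)
  have k4 : ‖(h / r) • (ξ - ξ')‖ ≤ (1 + n⁻¹) * ‖ξ - ξ'‖ := by
    rw [norm_smul, Real.norm_of_nonneg k0]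
    exact mul_le_mul_of_nonneg_right k1 D0
  have k5 : (h / r) • ξ - (h' / r') • ξ' = (h / r) • (ξ - ξ') + (h / r - h' / r') • ξ' := by
    rw [smul_sub, sub_smul]
    abel
  rw [k5]
  refine (norm_add_le _ _).trans ?_
  linarith only [D0, k2, k3, k4, i0, mul_nonneg i0.le D0]

theorem cube_blow {η δ : ℝ} (h0 : 0 < η) (h1 : η ≤ 1 / 100) (hδ : 0 < δ) {z : Rn 3}
    (hz : ∀ i, z i ∈ Icc (1 / 3 : ℝ) (2 / 3)) : ∃ E : Rn 3 → Rn 3, ContinuousOn E (Icc 0 1) ∧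
    BijOn E (Icc 0 1) (Icc 0 1) ∧ (∀ u ∈ Icc (0 : Rn 3) 1, (∃ i, u i ∉ Ioo η (1 - η)) → E u = u) ∧
    (∀ u ∈ Icc (0 : Rn 3) 1, δ ≤ ‖u - z‖ → ∃ i, E u i ∉ Ioo (6 * η) (1 - 6 * η)) ∧
    ∀ u ∈ Icc (0 : Rn 3) 1, δ ≤ ‖u - z‖ → ∀ᶠ p : Rn 3 × Rn 3 in 𝓝 (u, u),
      ‖E p.1 - E p.2‖ ≤ 100 * (1 + ‖u - z‖⁻¹) * ‖p.1 - p.2‖ := by
  obtain ⟨r, hr, r1, r2, r3⟩ := YBl01_gauge hz
  obtain ⟨h, hc, hm, h00, hb, hf, hl, hL⟩ := YBl01_prof h0 h1 hδ
  have r0 : ∀ ξ, 0 ≤ r ξ := fun ξ => le_trans (by positivity) (r2 ξ)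
  have rz : ∀ ξ, r ξ = 0 → ξ = 0 := fun ξ k =>
    norm_le_zero_iff.1 (by linarith only [k, r2, r2 ξ])
  have hn : ∀ t, 0 ≤ t → 0 ≤ h t := fun t ht => h00.symm.trans_le (hm.monotone ht)
  have hp : ∀ t, 0 < t → 0 < h t := fun t ht => h00.symm.trans_lt (hm ht)
  have h11 : h 1 = 1 := hf 1 (by linarith)
  have rc : Continuous r := by
    refine (LipschitzWith.of_dist_le_mul (K := 3) fun ξ ξ' => ?_).continuous
    rw [Real.dist_eq, dist_eq_norm]
    exact_mod_cast r3 ξ ξ'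
  have cube : ∀ u : Rn 3, u ∈ Icc (0 : Rn 3) 1 ↔ r (u - z) ≤ 1 := by
    intro u
    rw [hr, mem_Icc, Pi.le_def, Pi.le_def, ← forall_and]
    refine forall_congr' fun i => ?_
    simp only [Pi.sub_apply, Pi.zero_apply, Pi.one_apply, one_mul]
    constructor <;> rintro ⟨k1, k2⟩ <;> constructor <;> linarith only [k2, k1]
  obtain ⟨E, hE⟩ : ∃ E : Rn 3 → Rn 3, E = fun u => z + (h (r (u - z)) / r (u - z)) • (u - z) :=
    ⟨_, rfl⟩
  have E1 : ∀ u, E u - z = (h (r (u - z)) / r (u - z)) • (u - z) := fun u => by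
    rw [hE]
    exact add_sub_cancel_left _ _
  have E2 : ∀ u, r (E u - z) = h (r (u - z)) := fun u => by
    rw [E1, r1 _ _ (div_nonneg (hn _ (r0 _)) (r0 _))]
    rcases (r0 (u - z)).eq_or_lt with k | k
    · rw [← k, h00, mul_zero]
    · exact div_mul_cancel₀ _ k.ne'
  refine ⟨E, Continuous.continuousOn (continuous_iff_continuousAt.2 fun u => ?_),
    ⟨fun u hu => ?_, fun u _ v _ e => ?_, fun v hv => ?_⟩, fun u _ ⟨i, hi⟩ => ?_, fun u _ k => ?_,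
    fun u _ k => ?_⟩
  · have c1 : Continuous fun u => r (u - z) := rc.comp (continuous_id.sub continuous_const)
    by_cases k : r (u - z) = 0
    · have e : u = z := sub_eq_zero.1 (rz _ k)
      have e' : E u = z := by
        rw [hE]
        simp [e]
      rw [ContinuousAt, e', e, tendsto_iff_norm_sub_tendsto_zero]
      refine squeeze_zero (g := fun y => h (r (y - z))) (fun _ => norm_nonneg _) (fun y => ?_) ?_
      · have := r2 (E y - z)
        rw [E2] at this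
        linarith only [this, norm_nonneg (E y - z)]
      · have := (hc.comp c1).tendsto u
        rw [Function.comp_apply, k, h00, e] at this
        exact this
    · rw [hE]
      exact continuousAt_const.add ((((hc.comp c1).continuousAt).div c1.continuousAt k).smul
        (continuous_id.sub continuous_const).continuousAt)
  · rw [cube, E2]
    exact (hm.monotone ((cube u).1 hu)).trans_eq h11
  · have e1 : r (u - z) = r (v - z) := hm.injective (by rw [← E2, ← E2, e])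
    have e2 := E1 u
    rw [e, E1, e1] at e2
    rcases (r0 (v - z)).eq_or_lt with k | k
    · exact sub_left_injective ((rz _ (e1.trans k.symm)).trans (rz _ k.symm).symm)
    · exact (sub_left_injective (smul_right_injective _ (div_pos (hp _ k) k).ne' e2)).symm
  · obtain ⟨t, ht, e⟩ : r (v - z) ∈ h '' Icc 0 1 :=
      intermediate_value_Icc zero_le_one hc.continuousOn
        ⟨h00.trans_le (r0 _), ((cube v).1 hv).trans_eq h11.symm⟩
    rcases (r0 (v - z)).eq_or_lt with k | k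
    · refine ⟨v, hv, sub_left_injective (b := z) ?_⟩
      show E v - z = v - z
      rw [E1, rz _ k.symm, smul_zero]
    · have t0 : t ≠ 0 := fun q => k.ne (by rw [← e, q, h00])
      have e1 : r (z + (t / r (v - z)) • (v - z) - z) = t := by
        rw [add_sub_cancel_left, r1 _ _ (div_nonneg ht.1 k.le), div_mul_cancel₀ _ k.ne']
      refine ⟨z + (t / r (v - z)) • (v - z), (cube _).2 (e1.trans_le ht.2),
        sub_left_injective (b := z) ?_⟩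
      show E _ - z = v - z
      rw [E1, e1, e, add_sub_cancel_left, smul_smul, div_mul_div_cancel₀ t0, div_self k.ne',
        one_smul]
  · have k : 1 - 3 * η ≤ r (u - z) := by
      by_contra q
      have b := (hr (u - z) _).1 le_rfl i
      rw [Pi.sub_apply] at b
      refine hi ⟨?_, ?_⟩
      · linarith only [b, h0, q, hz, h1, b.2, (hz i).1, mul_pos_of_neg_of_neg (Mathlib.Tactic.Linarith.sub_neg_of_lt h0) (Mathlib.Tactic.Linarith.sub_neg_of_lt (lt_of_not_ge q)), mul_nonneg_of_nonpos_of_nonpos (le_of_lt (Mathlib.Tactic.Linarith.sub_neg_of_lt h0)) (Mathlib.Tactic.Linarith.sub_nonpos_of_le (hz i).left), mul_nonneg_of_nonpos_of_nonpos (Mathlib.Tactic.Linarith.sub_nonpos_of_le h1) (le_of_lt (Mathlib.Tactic.Linarith.sub_neg_of_lt (lt_of_not_ge q))), mul_nonneg_of_nonpos_of_nonpos (le_of_lt (Mathlib.Tactic.Linarith.sub_neg_of_lt (lt_of_not_ge q))) (Mathlib.Tactic.Linarith.sub_nonpos_of_le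 (hz i).left)]
      · linarith only [b, h0, q, hz, h1, b.1, (hz i).2, mul_pos_of_neg_of_neg (Mathlib.Tactic.Linarith.sub_neg_of_lt h0) (Mathlib.Tactic.Linarith.sub_neg_of_lt (lt_of_not_ge q)), mul_nonneg_of_nonpos_of_nonpos (le_of_lt (Mathlib.Tactic.Linarith.sub_neg_of_lt h0)) (Mathlib.Tactic.Linarith.sub_nonpos_of_le (hz i).right), mul_nonneg_of_nonpos_of_nonpos (Mathlib.Tactic.Linarith.sub_nonpos_of_le h1) (le_of_lt (Mathlib.Tactic.Linarith.sub_neg_of_lt (lt_of_not_ge q))), mul_nonneg_of_nonpos_of_nonpos (le_of_lt (Mathlib.Tactic.Linarith.sub_neg_of_lt (lt_of_not_ge q))) (Mathlib.Tactic.Linarith.sub_nonpos_of_le (hz i).right)]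
    refine sub_left_injective (b := z) ?_
    show E u - z = u - z
    rw [E1, hf _ k, div_self (by linarith), one_smul]
  · by_contra q
    have b : r (E u - z) ≤ 1 - 9 * η := (hr _ _).2 fun i => by
      have c : E u i ∈ Ioo (6 * η) (1 - 6 * η) := by
        by_contra q'
        exact q ⟨i, q'⟩
      rw [Pi.sub_apply]
      constructor
      · linarith only [c, h0, hz, c.2, (hz i).1, mul_nonneg_of_nonpos_of_nonpos (le_of_lt (Mathlib.Tactic.Linarith.sub_neg_of_lt h0)) (Mathlib.Tactic.Linarith.sub_nonpos_of_le (hz i).left)]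
      · linarith only [c, h0, hz, c.1, (hz i).2, mul_nonneg_of_nonpos_of_nonpos (le_of_lt (Mathlib.Tactic.Linarith.sub_neg_of_lt h0)) (Mathlib.Tactic.Linarith.sub_nonpos_of_le (hz i).right)]
    have c := hl (r (u - z)) (by linarith only [hδ, k, r2, r2 (u - z)])
    rw [E2] at b
    linarith
  · have n0 : 0 < ‖u - z‖ := hδ.trans_le k
    have ev : ∀ᶠ y in 𝓝 u, ‖u - z‖ < r (y - z) :=
      continuousAt_const.eventually_lt (rc.comp (continuous_id.sub continuous_const)).continuousAt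
        (show ‖u - z‖ < r (u - z) by linarith only [hδ, k, r2, r2 (u - z)])
    rw [nhds_prod_eq]
    refine (ev.prod_mk ev).mono fun p hp' => ?_
    have := YBl01_lip n0 hp'.1.le hp'.2.le (r2 _) (r3 _ _)
      (hL _ _ (k.trans hp'.1.le) (k.trans hp'.2.le)) (hn _ (r0 _)) (hb _ (r0 _))
    rwa [← E1, ← E1, sub_sub_sub_cancel_right, sub_sub_sub_cancel_right] at this

end BEp
end
end

-- merged part: Pool.Agent.Work.MP_f0515e_an.P3.YBl02
section
/-! Integrability of the stretch of the radial blow up. -/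

open Set Metric Filter Topology Function BEv MeasureTheory
open scoped NNReal ENNReal

noncomputable section
namespace BEp

theorem YBl02_ball {p : ℝ} (h0 : 0 ≤ p) (h3 : p < 3) :
    ∫⁻ x in ball (0 : Rn 3) 1, ‖x‖ₑ⁻¹ ^ p ≠ ⊤ := by
  have hd : Module.finrank ℝ (Rn 3) = 3 := by simp
  have hI : IntegrableOn (fun x : Rn 3 => ‖x‖⁻¹ ^ p) (ball 0 1) volume := by
    refine integrableOn_ball_of_norm_le_rpow (C := 1) (α := p) (by rw [hd]; norm_num)
      (by rw [hd]; exact_mod_cast h3) (Eventually.of_forall fun x => ?_) ?_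
    · rw [Real.norm_eq_abs, abs_of_nonneg (by positivity), one_mul,
        Real.inv_rpow (norm_nonneg _), Real.rpow_neg (norm_nonneg _)]
    · exact (measurable_norm.inv.pow_const p).aestronglyMeasurable
  have h1 := hI.2
  rw [HasFiniteIntegral] at h1
  refine ne_of_lt (lt_of_le_of_lt (le_of_eq ?_) h1)
  refine lintegral_congr_ae (ae_restrict_of_ae ?_)
  have hz : ∀ᵐ x : Rn 3 ∂volume, x ≠ 0 := by
    rw [ae_iff]; simp
  filter_upwards [hz] with x hx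
  have hp : 0 < ‖x‖ := norm_pos_iff.2 hx
  rw [← ofReal_norm, ← ofReal_norm, ← ENNReal.ofReal_inv_of_pos hp,
    ENNReal.ofReal_rpow_of_nonneg (by positivity) h0, Real.norm_eq_abs,
    abs_of_nonneg (by positivity)]

theorem YBl02_vol : volume (Icc (0 : Rn 3) 1) = 1 := by
  rw [Real.volume_Icc_pi]; simp

theorem YBl02_meas (p : ℝ) (a : Rn 3) : Measurable fun ζ : Rn 3 => ‖ζ - a‖ₑ⁻¹ ^ p :=
  ((measurable_id.sub_const a).enorm.inv).pow_const p

theorem int_sing {p : ℝ} (h0 : 0 ≤ p) (h3 : p < 3) : ∃ K : ℝ≥0∞, K ≠ ⊤ ∧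
    ∀ a : Rn 3, ∫⁻ ζ in Icc (0 : Rn 3) 1, ‖ζ - a‖ₑ⁻¹ ^ p ≤ K := by
  refine ⟨1 + ∫⁻ x in ball (0 : Rn 3) 1, ‖x‖ₑ⁻¹ ^ p,
    ENNReal.add_ne_top.2 ⟨ENNReal.one_ne_top, YBl02_ball h0 h3⟩, fun a => ?_⟩
  set g : Rn 3 → ℝ≥0∞ := (ball (0 : Rn 3) 1).indicator fun x => ‖x‖ₑ⁻¹ ^ p with hg
  have hpt : ∀ ζ : Rn 3, ‖ζ - a‖ₑ⁻¹ ^ p ≤ 1 + g (ζ - a) := by
    intro ζ
    by_cases h : ζ - a ∈ ball (0 : Rn 3) 1
    · rw [hg, indicator_of_mem h]; exact le_add_self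
    · refine le_trans ?_ le_self_add
      refine ENNReal.rpow_le_one ?_ h0
      rw [ENNReal.inv_le_one, ← ofReal_norm, ENNReal.one_le_ofReal]
      rwa [mem_ball_zero_iff, not_lt] at h
  calc ∫⁻ ζ in Icc (0 : Rn 3) 1, ‖ζ - a‖ₑ⁻¹ ^ p
      ≤ ∫⁻ ζ in Icc (0 : Rn 3) 1, (1 + g (ζ - a)) := lintegral_mono hpt
    _ = 1 + ∫⁻ ζ in Icc (0 : Rn 3) 1, g (ζ - a) := by
        rw [lintegral_add_left measurable_const, setLIntegral_const, YBl02_vol, one_mul]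
    _ ≤ 1 + ∫⁻ ζ, g (ζ - a) := by
        gcongr; exact Measure.restrict_le_self
    _ = 1 + ∫⁻ x in ball (0 : Rn 3) 1, ‖x‖ₑ⁻¹ ^ p := by
        rw [lintegral_sub_right_eq_self g a, hg, lintegral_indicator measurableSet_ball]

theorem YBl02_low (T : Rn 4) (ζ : Rn 3) (d : Fin 4) :
    ‖T - yZ ζ d‖ₑ⁻¹ ≤ 3 * ‖ζ - fun i => 3 * T (d.succAbove i) - 1‖ₑ⁻¹ := by
  have h1 : ‖ζ - fun i => 3 * T (d.succAbove i) - 1‖ ≤ 3 * ‖T - yZ ζ d‖ := by
    refine (pi_norm_le_iff_of_nonneg (by positivity)).2 fun i => ?_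
    have h := norm_le_pi_norm (T - yZ ζ d) (d.succAbove i)
    have e : (T - yZ ζ d) (d.succAbove i) = T (d.succAbove i) - (1 + ζ i) / 3 := by
      simp only [Pi.sub_apply, yZ, Fin.insertNth_apply_succAbove]
    rw [e, Real.norm_eq_abs] at h
    have e2 : (ζ - fun i => 3 * T (d.succAbove i) - 1) i
        = -(3 * (T (d.succAbove i) - (1 + ζ i) / 3)) := by
      simp only [Pi.sub_apply]; ring
    rw [e2, norm_neg, Real.norm_eq_abs, abs_mul, abs_of_pos (by norm_num : (0 : ℝ) < 3)]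
    linarith only [h]
  have h2 : ‖ζ - fun i => 3 * T (d.succAbove i) - 1‖ₑ ≤ 3 * ‖T - yZ ζ d‖ₑ := by
    rw [← ofReal_norm, ← ofReal_norm]
    refine (ENNReal.ofReal_le_ofReal h1).trans (le_of_eq ?_)
    rw [ENNReal.ofReal_mul (by norm_num)]
    simp
  have h3 : (3 * ‖T - yZ ζ d‖ₑ)⁻¹ ≤ ‖ζ - fun i => 3 * T (d.succAbove i) - 1‖ₑ⁻¹ :=
    ENNReal.inv_le_inv.2 h2
  refine le_trans (le_of_eq ?_) (mul_le_mul_right h3 3)
  rw [ENNReal.mul_inv (Or.inl (by norm_num)) (Or.inl (by norm_num)), ← mul_assoc,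
    ENNReal.mul_inv_cancel (by norm_num) (by norm_num), one_mul]

theorem beta_int {p : ℝ} (h1 : 1 ≤ p) (h3 : p < 3) : ∃ Kp : ℝ, 1 ≤ Kp ∧ ∀ T : Rn 4,
    ∫⁻ ζ in Icc (0 : Rn 3) 1, (1 + ∑ d, ‖T - yZ ζ d‖ₑ⁻¹) ^ p ≤ ENNReal.ofReal Kp ^ p := by
  have h0 : 0 ≤ p := by linarith
  obtain ⟨K, hK, hKa⟩ := int_sing h0 h3
  set c1 : ℝ≥0∞ := 2 ^ (p - 1) with hc1
  set c2 : ℝ≥0∞ := 4 ^ (p - 1) * 3 ^ p with hc2
  have hc1t : c1 ≠ ⊤ := ENNReal.rpow_ne_top_of_nonneg (by linarith) (by norm_num)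
  have hc2t : c2 ≠ ⊤ := ENNReal.mul_ne_top
    (ENNReal.rpow_ne_top_of_nonneg (by linarith) (by norm_num))
    (ENNReal.rpow_ne_top_of_nonneg h0 (by norm_num))
  set M : ℝ≥0∞ := c1 * (1 + c2 * ∑ _d : Fin 4, K) with hM
  have hMt : M ≠ ⊤ := ENNReal.mul_ne_top hc1t (ENNReal.add_ne_top.2 ⟨ENNReal.one_ne_top,
    ENNReal.mul_ne_top hc2t (ENNReal.sum_ne_top.2 fun _ _ => hK)⟩)
  refine ⟨max 1 M.toReal, le_max_left _ _, fun T => ?_⟩
  set a : Fin 4 → Rn 3 := fun d i => 3 * T (d.succAbove i) - 1 with ha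
  have hpt : ∀ ζ : Rn 3, (1 + ∑ d, ‖T - yZ ζ d‖ₑ⁻¹) ^ p ≤
      c1 * (1 + c2 * ∑ d, ‖ζ - a d‖ₑ⁻¹ ^ p) := by
    intro ζ
    refine (ENNReal.rpow_add_le_mul_rpow_add_rpow _ _ h1).trans ?_
    rw [ENNReal.one_rpow]
    refine mul_le_mul_right (add_le_add_right ?_ _) _
    refine (ENNReal.rpow_sum_le_const_mul_sum_rpow _ _ h1).trans ?_
    rw [hc2, mul_assoc, Finset.card_univ, Fintype.card_fin, Nat.cast_ofNat]
    refine mul_le_mul_right ?_ _
    rw [Finset.mul_sum]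
    refine Finset.sum_le_sum fun d _ => ?_
    rw [← ENNReal.mul_rpow_of_nonneg _ _ h0]
    exact ENNReal.rpow_le_rpow (YBl02_low T ζ d) h0
  have hm : Measurable fun ζ : Rn 3 => ∑ d, ‖ζ - a d‖ₑ⁻¹ ^ p :=
    Finset.measurable_sum _ fun d _ => YBl02_meas p (a d)
  have hle : ∫⁻ ζ in Icc (0 : Rn 3) 1, (1 + ∑ d, ‖T - yZ ζ d‖ₑ⁻¹) ^ p ≤ M := by
    refine (lintegral_mono hpt).trans ?_
    rw [lintegral_const_mul' _ _ hc1t, lintegral_add_left measurable_const, setLIntegral_const,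
      YBl02_vol, one_mul, lintegral_const_mul' _ _ hc2t,
      lintegral_finsetSum _ fun d _ => YBl02_meas p (a d), hM]
    gcongr with d _
    exact hKa (a d)
  refine hle.trans ?_
  have hge : 1 ≤ ENNReal.ofReal (max 1 M.toReal) := ENNReal.one_le_ofReal.2 (le_max_left _ _)
  calc M = ENNReal.ofReal M.toReal := (ENNReal.ofReal_toReal hMt).symm
    _ ≤ ENNReal.ofReal (max 1 M.toReal) := ENNReal.ofReal_le_ofReal (le_max_right _ _)
    _ = ENNReal.ofReal (max 1 M.toReal) ^ (1 : ℝ) := (ENNReal.rpow_one _).symm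
    _ ≤ ENNReal.ofReal (max 1 M.toReal) ^ p := ENNReal.rpow_le_rpow_of_exponent_le hge h1

theorem yZ_cont (d : Fin 4) : Continuous fun ζ => yZ ζ d := by
  refine continuous_pi fun j => ?_
  rcases Fin.eq_self_or_eq_succAbove d j with rfl | ⟨i, rfl⟩
  · simp only [yZ, Fin.insertNth_apply_same]; exact continuous_const
  · simp only [yZ, Fin.insertNth_apply_succAbove]; fun_prop

end BEp
end
end

-- merged part: Pool.Agent.Work.MP_f0515e_an.P3.YBl0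
section
/-! Radial blow up of a point of the unit cube (`YBl01`); integrability of the stretch (`YBl02`). -/
end

-- merged part: Pool.Agent.Work.MP_f0515e_an.P3.YBl1
section
/-! Blow up of the centres of the four cubes of a simplex. -/

open Set Metric Filter Topology Function BEv MeasureTheory
open scoped NNReal ENNReal

noncomputable section
namespace BEp

/-- The point of the cube of colour `d`. -/
def ybIn (d : Fin 4) (u : Rn 3) : Rn 4 := Fin.insertNth d (1 : ℝ) u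

/-- The coordinates in the cube of colour `d`. -/
def ybRm (d : Fin 4) (T : Rn 4) : Rn 3 := fun i => T (d.succAbove i)

variable {d e : Fin 4} {u v : Rn 3} {T T' : Rn 4}

theorem ybl_same (d : Fin 4) (u : Rn 3) : ybIn d u d = 1 :=
  Fin.insertNth_apply_same (α := fun _ => ℝ) d 1 u

theorem ybl_rm (d : Fin 4) (u : Rn 3) : ybRm d (ybIn d u) = u :=
  funext (Fin.insertNth_apply_succAbove (α := fun _ => ℝ) d 1 u)

theorem ybl_in (h : T d = 1) : ybIn d (ybRm d T) = T := by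
  rw [ybIn, ← h]
  exact Fin.insertNth_self_removeNth (α := fun _ => ℝ) d T

theorem ybl_all {P : Fin 4 → Prop} (d : Fin 4) (h : P d) (k : ∀ i, P (d.succAbove i)) (e : Fin 4) :
    P e := Fin.succAboveCases d h k e

theorem ybl_le (d : Fin 4) (T T' : Rn 4) : ‖ybRm d T - ybRm d T'‖ ≤ ‖T - T'‖ :=
  (pi_norm_le_iff_of_nonneg (norm_nonneg _)).2 fun i => norm_le_pi_norm (T - T') (d.succAbove i)

theorem ybl_norm (d : Fin 4) (u v : Rn 3) : ‖ybIn d u - ybIn d v‖ = ‖u - v‖ := by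
  refine le_antisymm ((pi_norm_le_iff_of_nonneg (norm_nonneg _)).2 (ybl_all d ?_ fun i => ?_)) ?_
  · rw [Pi.sub_apply, ybl_same, ybl_same, sub_self, norm_zero]
    exact norm_nonneg _
  · have := norm_le_pi_norm (u - v) i
    rwa [← ybl_rm d u, ← ybl_rm d v, Pi.sub_apply, ybl_rm d u, ybl_rm d v, ← congrFun (ybl_rm d u) i,
      ← congrFun (ybl_rm d v) i] at this
  · have := ybl_le d (ybIn d u) (ybIn d v)
    rwa [ybl_rm, ybl_rm] at this

theorem ybl_mem (h : T ∈ YQ) (d : Fin 4) : ybRm d T ∈ Icc (0 : Rn 3) 1 :=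
  ⟨fun _ => (h.1 _).1, fun _ => (h.1 _).2⟩

theorem ybl_mem' (h : u ∈ Icc (0 : Rn 3) 1) (d : Fin 4) : ybIn d u ∈ YQ := by
  refine ⟨ybl_all d ?_ fun i => ?_, d, ybl_same d u⟩
  · rw [ybl_same]
    exact right_mem_Icc.2 zero_le_one
  · rw [show ybIn d u (d.succAbove i) = u i from congrFun (ybl_rm d u) i]
    exact ⟨h.1 i, h.2 i⟩

theorem ybl_cont (d : Fin 4) : Continuous (ybRm d) := continuous_pi fun _ => continuous_apply _

theorem ybl_model {η δ : ℝ} (h0 : 0 < η) (h1 : η ≤ 1 / 100) (hδ : 0 < δ) {ζ : Rn 3}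
    (hζ : ζ ∈ Icc (0 : Rn 3) 1) : ∃ F : Rn 4 → Rn 4, ContinuousOn F YQ ∧ BijOn F YQ YQ ∧
    (∀ T ∈ YQ, ∀ e, T e ≤ η → F T = T) ∧
    (∀ T ∈ YQ, (∀ d, δ ≤ ‖T - yZ ζ d‖) → ∃ d e, d ≠ e ∧ F T d ∉ Ioo (6 * η) (1 - 6 * η) ∧
      F T e ∉ Ioo (6 * η) (1 - 6 * η)) ∧
    ∀ T ∈ YQ, (∀ d, δ ≤ ‖T - yZ ζ d‖) → ∀ᶠ p : Rn 4 × Rn 4 in 𝓝 (T, T), p.1 ∈ YQ → p.2 ∈ YQ →
      ‖F p.1 - F p.2‖ ≤ 100 * (1 + ∑ d, ‖T - yZ ζ d‖⁻¹) * ‖p.1 - p.2‖ := by
  classical
  obtain ⟨E, e1, e2, e3, e4, e5⟩ := cube_blow h0 h1 hδ (z := fun i => (1 + ζ i) / 3) fun i => by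
    have a1 : 0 ≤ ζ i := hζ.1 i
    have a2 : ζ i ≤ 1 := hζ.2 i
    constructor <;> linarith only [a1, a2]
  have fx : ∀ T ∈ YQ, ∀ d e, T d = 1 → e ≠ d → T e ∉ Ioo η (1 - η) →
      ybIn d (E (ybRm d T)) = T := fun T hT d e hd ne k => by
    obtain ⟨i, rfl⟩ := Fin.exists_succAbove_eq ne
    rw [e3 _ (ybl_mem hT d) ⟨i, k⟩, ybl_in hd]
  have one : (1 : ℝ) ∉ Ioo η (1 - η) := fun k => by linarith [k.2]
  obtain ⟨F, hF⟩ : ∃ F : Rn 4 → Rn 4, ∀ T ∈ YQ, ∀ d, T d = 1 → F T = ybIn d (E (ybRm d T)) := by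
    refine ⟨fun T => if h : ∃ d, T d = 1 then ybIn h.choose (E (ybRm h.choose T)) else T,
      fun T hT d hd => ?_⟩
    have k := hT.2.choose_spec
    dsimp only
    rw [dif_pos hT.2]
    by_cases ne : d = hT.2.choose
    · rw [← ne]
    · rw [fx T hT _ d k ne (by rw [hd]; exact one),
        fx T hT d _ hd (Ne.symm ne) (by rw [k]; exact one)]
  have fx' : ∀ T ∈ YQ, ∀ d e, T d = 1 → e ≠ d → T e ∉ Ioo η (1 - η) → F T = T :=
    fun T hT d e hd ne k => (hF T hT d hd).trans (fx T hT d e hd ne k)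
  have nz : ∀ T : Rn 4, ∀ d, T d = 1 →
      ‖T - yZ ζ d‖ = ‖ybRm d T - fun i => (1 + ζ i) / 3‖ := fun T d hd => by
    rw [← ybl_norm d, ybl_in hd]
    rfl
  have mp : MapsTo F YQ YQ := fun T hT => by
    obtain ⟨d, hd⟩ := hT.2
    exact hF T hT d hd ▸ ybl_mem' (e2.1 (ybl_mem hT d)) d
  have two : ∀ T ∈ YQ, ∀ d e, T d = 1 → e ≠ d → F T e = 1 → F T = T := fun T hT d e hd ne k => by
    obtain ⟨i, rfl⟩ := Fin.exists_succAbove_eq ne
    have m := ybl_mem hT d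
    rw [hF T hT d hd] at k ⊢
    have k' : E (ybRm d T) i = 1 := (congrFun (ybl_rm d _) i).symm.trans k
    rw [e2.2.1 (e2.1 m) m (e3 _ (e2.1 m) ⟨i, k' ▸ one⟩), ybl_in hd]
  refine ⟨F, ?_, ⟨mp, fun T hT T' hT' e => ?_, fun T hT => ?_⟩, fun T hT e k => ?_,
    fun T hT k => ?_, fun T hT k => ?_⟩
  · refine ((locallyFinite_of_finite fun d => YQ ∩ {T | T d = 1}).continuousOn_iUnion
      (fun d => poly_YQ.1.isClosed.inter (isClosed_eq (continuous_apply d) continuous_const))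
      fun d => ContinuousOn.congr ?_ fun T hT => hF T hT.1 d hT.2).mono
      fun T hT => mem_iUnion.2 (hT.2.imp fun d k => ⟨hT, k⟩)
    exact ContinuousOn.finInsertNth (X := fun _ => ℝ) d continuousOn_const
      (e1.comp (ybl_cont d).continuousOn fun T hT => ybl_mem hT.1 d)
  · obtain ⟨d, hd⟩ := hT.2
    obtain ⟨d', hd'⟩ := hT'.2
    by_cases ne : d' = d
    · subst ne
      have := congrArg (ybRm d') e
      rw [hF T hT _ hd, hF T' hT' _ hd', ybl_rm, ybl_rm] at this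
      rw [← ybl_in hd, e2.2.1 (ybl_mem hT _) (ybl_mem hT' _) this, ybl_in hd']
    · rw [← two T hT d d' hd ne (by rw [e, hF T' hT' _ hd', ybl_same]),
        ← two T' hT' d' d hd' (Ne.symm ne) (by rw [← e, hF T hT _ hd, ybl_same]), e]
  · obtain ⟨d, hd⟩ := hT.2
    obtain ⟨u, hu, k⟩ := e2.2.2 (ybl_mem hT d)
    exact ⟨_, ybl_mem' hu d, by rw [hF _ (ybl_mem' hu d) d (ybl_same d u), ybl_rm, k, ybl_in hd]⟩
  · obtain ⟨d, hd⟩ := hT.2
    refine fx' T hT d e hd ?_ fun j => not_lt.2 k j.1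
    rintro rfl
    linarith only [h0, h1, k, hd]
  · obtain ⟨d, hd⟩ := hT.2
    obtain ⟨i, hi⟩ := e4 _ (ybl_mem hT d) (nz T d hd ▸ k d)
    rw [hF T hT d hd]
    refine ⟨d, d.succAbove i, (Fin.succAbove_ne d i).symm, fun j => ?_, ?_⟩
    · rw [ybl_same] at j
      linarith [j.2]
    · rwa [← congrFun (ybl_rm d (E (ybRm d T))) i] at hi
  · obtain ⟨d, hd⟩ := hT.2
    have t1 : ∀ e, Tendsto (fun p : Rn 4 × Rn 4 => p.1 e) (𝓝 (T, T)) (𝓝 (T e)) := fun e =>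
      ((continuous_apply e).comp continuous_fst).tendsto (T, T)
    have t2 : ∀ e, Tendsto (fun p : Rn 4 × Rn 4 => p.2 e) (𝓝 (T, T)) (𝓝 (T e)) := fun e =>
      ((continuous_apply e).comp continuous_snd).tendsto (T, T)
    have s0 : 0 ≤ ∑ d, ‖T - yZ ζ d‖⁻¹ := Finset.sum_nonneg fun _ _ => by positivity
    by_cases c2 : ∃ e, e ≠ d ∧ T e = 1
    · obtain ⟨e, ne, he⟩ := c2
      have st : ∀ S ∈ YQ, 1 - η < S d → 1 - η < S e → F S = S := fun S hS a b => by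
        obtain ⟨f, hf⟩ := hS.2
        by_cases j : d = f
        · exact fx' S hS f e hf (j ▸ ne) fun i => lt_asymm i.2 b
        · exact fx' S hS f d hf j fun i => lt_asymm i.2 a
      have l1 : 1 - η < T d := by linarith only [h0, hd]
      have l2 : 1 - η < T e := by linarith
      filter_upwards [(t1 d).eventually_const_lt l1, (t1 e).eventually_const_lt l2,
        (t2 d).eventually_const_lt l1, (t2 e).eventually_const_lt l2] with p a1 a2 a3 a4 p1 p2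
      rw [st _ p1 a1 a2, st _ p2 a3 a4]
      exact le_mul_of_one_le_left (norm_nonneg _) (by linarith only [h0, h1, s0])
    · have lt : ∀ e, e ≠ d → T e < 1 := fun e ne =>
        (hT.1 e).2.lt_of_ne fun j => c2 ⟨e, ne, j⟩
      have st : ∀ S ∈ YQ, (∀ e, e ≠ d → S e < 1) → S d = 1 := fun S hS a => by
        obtain ⟨f, hf⟩ := hS.2
        by_cases j : f = d
        · exact j ▸ hf
        · exact absurd hf (a f j).ne
      have ev : ∀ {f : Rn 4 × Rn 4 → Rn 4}, (∀ e, Tendsto (fun p => f p e) (𝓝 (T, T)) (𝓝 (T e))) →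
          ∀ᶠ p in 𝓝 (T, T), ∀ e, e ≠ d → f p e < 1 := fun t => eventually_all.2 fun e => by
        by_cases j : e = d
        · exact Eventually.of_forall fun _ i => absurd j i
        · exact ((t e).eventually_lt_const (lt e j)).mono fun _ i _ => i
      filter_upwards [ev t1, ev t2, (((ybl_cont d).prodMap (ybl_cont d)).tendsto (T, T)).eventually
        (e5 _ (ybl_mem hT d) (nz T d hd ▸ k d))] with p a1 a2 a3 p1 p2
      rw [hF _ p1 d (st _ p1 a1), hF _ p2 d (st _ p2 a2), ybl_norm]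
      refine a3.trans (mul_le_mul ?_ (ybl_le d _ _) (norm_nonneg _) (by linarith only [h0, h1, s0]))
      have := Finset.single_le_sum (f := fun d => ‖T - yZ ζ d‖⁻¹) (fun _ _ => by positivity)
        (Finset.mem_univ d)
      rw [← nz T d hd]
      linarith only [this]

/-- The move on the simplex of a flag. -/
theorem ybl_flag {V : Set (Rn 3)} (X : Cx V) {η : ℝ} (h0 : 0 < η) (h1 : η ≤ 1 / 100) (a : Prop)
    {ζ : Rn 3} (hζ : ζ ∈ Icc (0 : Rn 3) 1) {Y : Set (Rn 3)} (hY : Y ⊆ V)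
    (hc : ∀ y ∈ Y, ∀ d, X.TT y ≠ yZ ζ d) (hk : ∀ C, IsCompact C → C ⊆ V → IsCompact (Y ∩ C))
    (c : Fin 4 → Set (Rn 3)) : ∃ F : Rn 4 → Rn 4, ContinuousOn F YQ ∧ BijOn F YQ YQ ∧
    (∀ T ∈ YQ, (∃ e, T e ≤ η) ∨ ¬ a → F T = T) ∧
    ∀ y ∈ Y, X.Rep y c (X.TT y) → (a → ∃ d e, d ≠ e ∧ F (X.TT y) d ∉ Ioo (6 * η) (1 - 6 * η) ∧
      F (X.TT y) e ∉ Ioo (6 * η) (1 - 6 * η)) ∧
      ∀ᶠ p : Rn 4 × Rn 4 in 𝓝 (X.TT y, X.TT y), p.1 ∈ YQ → p.2 ∈ YQ →
        ‖F p.1 - F p.2‖ ≤ 100 * (1 + ∑ d, ‖X.TT y - yZ ζ d‖⁻¹) * ‖p.1 - p.2‖ := by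
  by_cases ha : a
  swap
  · refine ⟨id, continuousOn_id, bijOn_id _, fun _ _ _ => rfl, fun y _ _ => ⟨fun k => absurd k ha,
      Eventually.of_forall fun p _ _ => le_mul_of_one_le_left (norm_nonneg _) ?_⟩⟩
    have s0 : 0 ≤ ∑ d, ‖X.TT y - yZ ζ d‖⁻¹ := Finset.sum_nonneg fun _ _ => by positivity
    linarith only [h0, h1, s0]
  obtain ⟨δ, hδ, k⟩ : ∃ δ : ℝ, 0 < δ ∧ ∀ d, ∀ y ∈ Y, X.Rep y c (X.TT y) →
      δ ≤ ‖X.TT y - yZ ζ d‖ := by
    by_cases hf : X.Fl c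
    swap
    · exact ⟨1, one_pos, fun _ _ _ k => absurd k.1 hf⟩
    refine ((eventually_mem_nhdsWithin (a := (0 : ℝ)) (s := Ioi 0)).and
      (eventually_all.2 fun d => ?_)).exists
    obtain ⟨r, r0, r1⟩ := (hk _ (X.YGl_poly c).1 fun y hy => (Cx.YGl_rep hf hy).mem).exists_forall_le'
      (f := fun y => ‖X.TT y - yZ ζ d‖) (a := 0)
      (((X.ltp_TT.continuousOn X.opn).mono fun y hy => hY hy.1).sub continuousOn_const).norm
      fun y hy => norm_pos_iff.2 (sub_ne_zero.2 (hc y hy.1 d))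
    filter_upwards [Ioc_mem_nhdsGT r0] with s hs y hy k
    exact hs.2.trans (r1 y ⟨hy, _, k.2.1, k.2.2.symm⟩)
  obtain ⟨F, f1, f2, f3, f4, f5⟩ := ybl_model h0 h1 hδ hζ
  exact ⟨F, f1, f2, fun T hT j => j.elim (fun ⟨e, i⟩ => f3 T hT e i) fun i => absurd ha i,
    fun y hy j => ⟨fun _ => f4 _ j.2.1 fun d => k d y hy j, f5 _ j.2.1 fun d => k d y hy j⟩⟩

end BEp
end
end
end

-- merged part: Pool.Agent.Work.MP_f0515e_an.P3.YTh
section
/-! Coordinatewise maps and fibre moves. -/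

open Set Metric Filter Topology Function BEv MeasureTheory
open scoped NNReal ENNReal

noncomputable section
namespace BEp

namespace Cx
variable {V : Set (Rn 3)} {X : Cx V} {c c' : Fin 4 → Set (Rn 3)} {w w' T T' : Rn 4}
  {y y' z z' : Rn 3} {v v' : Set (Rn 3)} {d e : Fin 4}
variable {φ : Set (Rn 3) → ℝ → ℝ}

theorem th_rep (hφ : ∀ v, Mo0 (φ v)) (h : X.Rep y c T) :
    X.Rep (X.th φ y) c fun d => φ (c d) (T d) := by
  have r := X.rep h.mem
  obtain ⟨e1, e2⟩ := h.uniq r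
  have e3 : (fun d => φ (X.fl y d) (X.TT y d)) = fun d => φ (c d) (T d) := by
    funext d
    rw [← e1]
    by_cases hd : T d = 0
    · rw [hd, (hφ _).1, (hφ _).1]
    · rw [e2 d hd]
  have hQ : (fun d => φ (c d) (T d)) ∈ YQ := by
    refine ⟨fun d => (hφ _).2.2 (h.2.1.1 d), ?_⟩
    obtain ⟨d, hd⟩ := h.2.1.2
    exact ⟨d, by simp only [hd, (hφ _).2.1]⟩
  have k : X.Rep (X.th φ y) (X.fl y) fun d => φ (c d) (T d) := by
    refine ⟨r.1, hQ, ?_⟩
    rw [th, if_pos h.mem, e3]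
  refine k.change h.1 fun d hd => e2 d fun h0 => hd ?_
  simp only [h0, (hφ _).1]

theorem th_off (X : Cx V) (φ : Set (Rn 3) → ℝ → ℝ) (hy : y ∉ V) : X.th φ y = y := by
  rw [th, if_neg hy]

theorem th_mem (hφ : ∀ v, Mo0 (φ v)) (hy : y ∈ V) : X.th φ y ∈ V := by
  exact (th_rep hφ (X.rep hy)).mem

theorem tt_th (hφ : ∀ v, Mo0 (φ v)) (v : Set (Rn 3)) (y : Rn 3) :
    X.tt v (X.th φ y) = φ v (X.tt v y) := by
  by_cases hy : y ∈ V
  · have r := X.rep hy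
    have r' := th_rep hφ r
    by_cases hv : ∃ d, X.fl y d = v
    · obtain ⟨d, rfl⟩ := hv
      rw [r'.tt_eq, r.tt_eq]
    · have hv' : ∀ d, X.fl y d ≠ v := fun d hd => hv ⟨d, hd⟩
      rw [r'.tt_zero hv', r.tt_zero hv', (hφ v).1]
  · rw [th_off X φ hy, tt_off X hy, (hφ v).1]

theorem th_ltp (hφ : ∀ v, Mo (φ v)) : LTP V (X.th φ) := by
  exact glue_ltp fun c hc => ⟨fun T => X.pt c fun d => φ (c d) (T d),
    (tp_pt X c).comp (TP.pi fun d => (hφ _).1.tp.comp (TP.id'.apply d)),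
    fun T hT => (th_rep (fun v => (hφ v).mo0) (rep_pt hc hT)).2.2⟩

theorem th_li (hφ : ∀ v, Mo (φ v)) (y : Rn 3) : X.th (fun v => invFun (φ v)) (X.th φ y) = y := by
  by_cases hy : y ∈ V
  · have h1 : ∀ v, Mo0 (φ v) := fun v => (hφ v).mo0
    have h2 : ∀ v, Mo0 (invFun (φ v)) := fun v => (hφ v).inv.mo0
    refine ext_tt (X := X) (th_mem h2 (th_mem h1 hy)) hy fun v => ?_
    rw [tt_th h2, tt_th h1, (hφ v).1.li]
  · rw [th_off X φ hy, th_off X _ hy]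

theorem th_ri (hφ : ∀ v, Mo (φ v)) (y : Rn 3) : X.th φ (X.th (fun v => invFun (φ v)) y) = y := by
  by_cases hy : y ∈ V
  · have h1 : ∀ v, Mo0 (φ v) := fun v => (hφ v).mo0
    have h2 : ∀ v, Mo0 (invFun (φ v)) := fun v => (hφ v).inv.mo0
    refine ext_tt (X := X) (th_mem h1 (th_mem h2 hy)) hy fun v => ?_
    rw [tt_th h1, tt_th h2, (hφ v).1.ri]
  · rw [th_off X _ hy, th_off X φ hy]

theorem th_cell (hφ : ∀ v, Mo (φ v)) (hy : y ∈ V) : X.M.cell (X.th φ y) = X.M.cell y := by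
  have h1 : ∀ v, Mo0 (φ v) := fun v => (hφ v).mo0
  refine cell_eq_of (th_mem h1 hy) hy fun v => ?_
  rw [tt_th h1]
  exact (hφ v).pos

theorem YTh_supp {n m : ℕ} {Ω C : Set (Rn n)} {g : Rn n → Rn m} (h : LTP Ω g) (hΩ : IsOpen Ω)
    (hC : IsCompact C) (hs : C ⊆ Ω) (h0 : ∀ x, x ∉ C → g x = 0) : TP g := by
  obtain ⟨K, h1, h2, h3⟩ := exists_compact_between hC hΩ hs
  obtain ⟨δ, hδ, e⟩ := h K h1 h3
  obtain ⟨b, tb, g0, g1, g2⟩ := ptri_bump hC isOpen_interior h2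
  obtain ⟨a, ha, g3⟩ := hC.exists_forall_le' tb.continuous.continuousOn g1
  obtain ⟨B, hB⟩ := hC.exists_bound_of_continuousOn hδ.continuous.continuousOn
  have t : TP fun z i => clamp (δ z i) (|B| / a * b z) :=
    TP.pi fun i => (hδ.apply i).clamp (tb.const_mul _)
  have p : 0 ≤ |B| / a := div_nonneg (abs_nonneg _) ha.le
  have k : g = fun z i => clamp (δ z i) (|B| / a * b z) := by
    funext z i
    by_cases hz : z ∈ C
    · rw [e (interior_subset (h2 hz)), clamp_eq_self]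
      exact ((norm_le_pi_norm (δ z) i).trans ((hB z hz).trans (le_abs_self B))).trans
        ((div_mul_cancel₀ |B| ha.ne').symm.trans_le (mul_le_mul_of_nonneg_left (g3 z hz) p))
    · by_cases hz' : z ∈ interior K
      · rw [← e (interior_subset hz'), clamp_eq_self]
        rw [h0 z hz, Pi.zero_apply, abs_zero]
        exact mul_nonneg p (g0 z)
      · rw [g2 z hz', mul_zero, clamp_zero, h0 z hz, Pi.zero_apply]
  rw [k]
  exact t

theorem YTh_tp (hφ : ∀ v, Mo (φ v)) (hf : {v | φ v ≠ id}.Finite) : TP (X.th φ) := by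
  choose K k1 k2 k3 using lf2 X
  have h1 : ∀ v, Mo0 (φ v) := fun v => (hφ v).mo0
  have l : LTP V fun x => X.th φ x - x := by
    intro C hC hs
    obtain ⟨g, hg, e⟩ := th_ltp (X := X) hφ C hC hs
    exact ⟨fun x => g x - x, hg.sub TP.id', fun x hx => by simp only [e hx]⟩
  have t := YTh_supp l X.opn (hf.isCompact_biUnion fun v _ => k1 v)
    (iUnion₂_subset fun v _ => k2 v) fun x hx => by
      rw [sub_eq_zero]
      by_cases hV : x ∈ V
      · refine ext_tt (X := X) (th_mem h1 hV) hV fun v => ?_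
        rw [tt_th h1]
        by_cases hv : φ v = id
        · rw [hv, id]
        · have z : X.tt v x = 0 := le_antisymm
            (not_lt.1 fun hp => hx (mem_biUnion hv (k3 v x hV hp))) (tt_mem X v x).1
          rw [z, (h1 v).1]
      · exact th_off X φ hV
  have e : X.th φ = fun x => (X.th φ x - x) + x := funext fun x => (sub_add_cancel _ _).symm
  rw [e]
  exact t.add TP.id'

theorem th_lh (hφ : ∀ v, Mo (φ v)) (hf : {v | φ v ≠ id}.Finite) : LH (X.th φ) := by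
  refine pa2_of_inv (YTh_tp hφ hf) (YTh_tp (fun v => (hφ v).inv) (hf.subset fun v hv => ?_))
    (th_li hφ) (th_ri hφ)
  intro e
  apply hv
  show invFun (φ v) = id
  rw [e]
  exact funext fun t => LH.id'.ri t

theorem api_theta (X : Cx V) (φ : Set (Rn 3) → ℝ → ℝ)
    (h : ∀ v, TP (φ v) ∧ StrictMono (φ v) ∧ φ v 0 = 0 ∧ φ v 1 = 1) :
    ∃ Θ, GM V Θ ∧ ∀ y ∈ V, ∀ v, X.tt v (Θ y) = φ v (X.tt v y) := by
  choose ψ hψ e using fun v => mo_of (h v).1 (h v).2.1 (h v).2.2.1 (h v).2.2.2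
  have h1 : ∀ v, Mo0 (ψ v) := fun v => (hψ v).mo0
  have h2 : ∀ v, Mo0 (invFun (ψ v)) := fun v => (hψ v).inv.mo0
  refine ⟨X.th ψ, ⟨X.th fun v => invFun (ψ v), th_ltp hψ, th_ltp fun v => (hψ v).inv,
    fun y hy => th_mem h1 hy, fun y hy => th_mem h2 hy, fun y _ => th_li hψ y,
    fun y _ => th_ri hψ y⟩, fun y _ v => ?_⟩
  rw [tt_th h1]
  exact e v (tt_mem X v y)

theorem sh_spec (hy : y ∈ V) (h : X.tt v y ∈ Ioo (0 : ℝ) 1) {s : ℝ} (hs : s ∈ Icc (0 : ℝ) 1) :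
    X.sh v s y ∈ V ∧ X.tt v (X.sh v s y) = s ∧ ∀ v', v' ≠ v → X.tt v' (X.sh v s y) = X.tt v' y := by
  classical
  have r := X.rep hy
  obtain ⟨j, hj⟩ := r.of_pos h.1
  have R : X.Rep (X.sh v s y) (X.fl y) fun d => if X.fl y d = v then s else X.TT y d := by
    refine ⟨r.1, ⟨fun d => ?_, ?_⟩, rfl⟩
    · by_cases hd : X.fl y d = v
      · simp only [if_pos hd]
        exact hs
      · simp only [if_neg hd]
        exact r.2.1.1 d
    · obtain ⟨d, hd⟩ := r.2.1.2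
      have hn : X.fl y d ≠ v := fun e => h.2.ne (by rw [← e, r.tt_eq, hd])
      exact ⟨d, by simp only [if_neg hn, hd]⟩
  refine ⟨R.mem, ?_, fun v' hv' => ?_⟩
  · have k := R.tt_eq j
    simp only [if_pos hj] at k
    rwa [hj] at k
  · by_cases hv : ∃ d, X.fl y d = v'
    · obtain ⟨d, rfl⟩ := hv
      rw [R.tt_eq, r.tt_eq, if_neg hv']
    · have hn : ∀ d, X.fl y d ≠ v' := fun d hd => hv ⟨d, hd⟩
      rw [R.tt_zero hn, r.tt_zero hn]

theorem YTh_bar (X : Cx V) (c : Fin 4 → Set (Rn 3)) (S : Finset (Fin 4)) :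
    X.bar c S = ∑ d ∈ S, (S.card : ℝ)⁻¹ • X.b (c d) := by
  simp only [bar, pt, bp, yio_ind, ite_smul, zero_smul, Finset.sum_ite_mem, Finset.univ_inter]

theorem YTh_shift (h : X.Fl c) {S : Finset (Fin 4)} {j : Fin 4} (hj : j ∉ S) (hz : z ∈ V)
    (hz' : z' ∈ V) (he : ∀ v, v ≠ c j → X.tt v z = X.tt v z')
    (h1 : ∀ d ∈ S, X.tt (c j) z ≤ X.tt (c d) z ∧ X.tt (c j) z' ≤ X.tt (c d) z)
    (h2 : ∀ v, v ≠ c j → (∀ d ∈ S, c d ≠ v) → X.tt v z ≤ X.tt (c j) z ∧ X.tt v z ≤ X.tt (c j) z')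
    (p : 0 < X.tt (c j) z') :
    z' - z = (X.tt (c j) z' - X.tt (c j) z) • (X.bar c (insert j S) - X.bar c S) := by
  have R' := X.rep hz'
  generalize X.fl z' = c' at R'
  generalize X.TT z' = T' at R'
  have hn : ∀ d ∈ S, c d ≠ c j := fun d hd e => hj (h.inj e ▸ hd)
  have R := rep_of R'.1 hz fun v hv => by
    by_cases e : v = c j
    · exact R'.of_pos (e ▸ p)
    · exact R'.of_pos (he v e ▸ hv)
  generalize X.TT z = T at R
  have ce : ∀ d, 0 < X.tt (c d) z' → c' d = c d := fun d hd => by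
    obtain ⟨e, k⟩ := R'.of_pos hd
    have : e = d := by
      have k1 := R'.1.dm e
      rw [k, h.dm d] at k1
      exact Fin.ext (by exact_mod_cast k1.symm)
    rwa [this] at k
  have cj := ce j p
  have cS : ∀ d ∈ S, c' d = c d := fun d hd => ce d (he _ (hn d hd) ▸ p.trans_le (h1 d hd).2)
  have ej : X.tt (c j) z = T j := by rw [← cj, R.tt_eq]
  have eS : ∀ d ∈ S, X.tt (c d) z = T d := fun d hd => by rw [← cS d hd, R.tt_eq]
  have eT : T' = update T j (X.tt (c j) z') := by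
    funext d
    by_cases hd : d = j
    · rw [hd, update_self, ← cj, R'.tt_eq]
    · rw [update_of_ne hd, ← R'.tt_eq, ← R.tt_eq, he _ (cj ▸ fun e => hd (R'.1.inj e))]
  have k := yio_shift (T := T) (a := X.tt (c j) z') hj
    (fun d hd => by rw [← ej, ← eS d hd]; exact h1 d hd)
    (fun d hd hd' => by
      rw [← ej, ← R.tt_eq]
      exact h2 _ (cj ▸ fun e => hd' (R'.1.inj e))
        fun e hS k => hd (R'.1.inj ((cS e hS).trans k) ▸ hS))
  have b1 : X.bar c (insert j S) = X.bar c' (insert j S) := by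
    rw [YTh_bar, YTh_bar]
    refine Finset.sum_congr rfl fun d hd => ?_
    rcases Finset.mem_insert.1 hd with rfl | hd
    · rw [cj]
    · rw [cS d hd]
  have b2 : X.bar c S = X.bar c' S := by
    rw [YTh_bar, YTh_bar]
    exact Finset.sum_congr rfl fun d hd => by rw [cS d hd]
  have e1 := R'.2.2
  have e2 := R.2.2
  rw [eT, pt, k] at e1
  rw [pt] at e2
  rw [b1, b2, ej]
  generalize X.tt (c j) z' - T j = a at e1 ⊢
  rw [e1, e2]
  simp only [bar, pt, bp, Pi.add_apply, Pi.smul_apply, Pi.sub_apply, smul_eq_mul, add_smul,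
    Finset.sum_add_distrib, add_sub_cancel_left, smul_sub, Finset.smul_sum, sub_smul,
    Finset.sum_sub_distrib, mul_smul]

/-- As long as the order of the coordinates is kept, a fibre move is a translation. -/
theorem shift (h : X.Fl c) {S : Finset (Fin 4)} {j : Fin 4} (hj : j ∉ S) (hz : z ∈ V) (hz' : z' ∈ V)
    (he : ∀ v, v ≠ c j → X.tt v z = X.tt v z')
    (h1 : ∀ d ∈ S, X.tt (c j) z ≤ X.tt (c d) z ∧ X.tt (c j) z' ≤ X.tt (c d) z)
    (h2 : ∀ v, v ≠ c j → (∀ d ∈ S, c d ≠ v) → X.tt v z ≤ X.tt (c j) z ∧ X.tt v z ≤ X.tt (c j) z') :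
    z' - z = (X.tt (c j) z' - X.tt (c j) z) • (X.bar c (insert j S) - X.bar c S) := by
  by_cases p : 0 < X.tt (c j) z'
  · exact YTh_shift h hj hz hz' he h1 h2 p
  by_cases q : 0 < X.tt (c j) z
  · have hn : ∀ d ∈ S, c d ≠ c j := fun d hd e => hj (h.inj e ▸ hd)
    have k := YTh_shift h hj hz' hz (fun v hv => (he v hv).symm)
      (fun d hd => he _ (hn d hd) ▸ (h1 d hd).symm)
      (fun v hv hS => he v hv ▸ (h2 v hv hS).symm) q
    rw [← neg_sub z, k, ← neg_smul, neg_sub]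
  · have e1 : X.tt (c j) z' = 0 := le_antisymm (not_lt.1 p) (tt_mem X _ _).1
    have e2 : X.tt (c j) z = 0 := le_antisymm (not_lt.1 q) (tt_mem X _ _).1
    have e : z = z' := ext_tt (X := X) hz hz' fun v => by
      by_cases hv : v = c j
      · rw [hv, e1, e2]
      · exact he v hv
    rw [e, sub_self, sub_self, zero_smul]

theorem bar_two (X : Cx V) (c : Fin 4 → Set (Rn 3)) (h : d ≠ e) :
    X.bar c (insert d {e}) - X.bar c {e} = (1 / 2 : ℝ) • (X.b (c d) - X.b (c e)) := by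
  rw [YTh_bar, YTh_bar, Finset.sum_pair h, Finset.card_pair h, Finset.sum_singleton,
    Finset.card_singleton]
  push_cast
  module

end Cx

end BEp
end
end

-- merged part: Pool.Agent.Work.MP_f0515e_an.P3.YSys
section
-- merged part: Pool.Agent.Work.MP_f0515e_an.P3.YHch
section
/-! Conical chart of a handle. -/

open Set Metric Filter Topology Function BEv MeasureTheory
open scoped NNReal ENNReal

noncomputable section
namespace BEp

namespace Cx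
variable {V : Set (Rn 3)} {X : Cx V} {c c' : Fin 4 → Set (Rn 3)} {w w' T T' : Rn 4}
  {y y' z z' : Rn 3} {v v' : Set (Rn 3)} {d e : Fin 4}
variable {Hi Md : Finset (Fin 4)} {α β : Set (Rn 3) → ℝ} {A : Set (Rn 3)}

theorem YHch_cone {P : Rn 3 → Prop} (h : ∀ᶠ η in 𝓝 (0 : Rn 3), P η) (ξ : Rn 3) :
    ∀ᶠ l in 𝓝[>] (0 : ℝ), P (l • ξ) := by
  have k : Tendsto (fun l : ℝ => l • ξ) (𝓝 0) (𝓝 ((0 : ℝ) • ξ)) :=
    (continuous_id.smul continuous_const).tendsto 0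
  rw [zero_smul] at k
  exact (k.eventually h).filter_mono nhdsWithin_le_nhds

theorem YHch_add {P : Rn 3 → Prop} {y₀ : Rn 3} (h : ∀ᶠ y in 𝓝 y₀, P y) :
    ∀ᶠ η in 𝓝 (0 : Rn 3), P (y₀ + η) := by
  have k : Tendsto (fun η : Rn 3 => y₀ + η) (𝓝 0) (𝓝 (y₀ + 0)) :=
    (continuous_const.add continuous_id).tendsto 0
  rw [add_zero] at k
  exact k.eventually h

theorem YHch_small {U : Set (Rn 3) → Rn 3 → ℝ} (hU : ∀ v, Hom (U v))
    (hf : {v | U v ≠ 0}.Finite) : ∀ᶠ η in 𝓝 (0 : Rn 3), ∀ v, |U v η| ≤ 1 / 8 := by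
  have k : ∀ᶠ η in 𝓝 (0 : Rn 3), ∀ v ∈ {v | U v ≠ 0}, |U v η| ≤ 1 / 8 := by
    refine (eventually_all_finite hf).2 fun v _ => ?_
    have h0 : U v 0 = 0 := by simpa using (hU v).2 0 0 le_rfl
    refine ((hU v).1.continuous.abs.tendsto 0).eventually_le_const ?_
    rw [h0]
    norm_num
  refine k.mono fun η hη v => ?_
  by_cases h : U v = 0
  · rw [h]
    norm_num
  · exact hη v h

/-- The three kinds of labels. -/
def YHch_Tri (c : Fin 4 → Set (Rn 3)) (Hi Md : Finset (Fin 4)) (α β : Set (Rn 3) → ℝ) (t : ℝ)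
    (v : Set (Rn 3)) : Prop :=
  (t = 1 ∧ 0 < α v ∧ α v < 1 ∧ β v = 1 ∧ ∃ d ∈ Hi, c d = v) ∨
    (t = 1 / 2 ∧ 0 < α v ∧ α v < β v ∧ β v < 1 ∧ ∃ d ∈ Md, c d = v) ∨
      (t = 0 ∧ α v = 0 ∧ 0 < β v ∧ β v < 1 ∧ ∀ d ∈ Hi ∪ Md, c d ≠ v)

theorem YHch_ctr (h : X.Hty c Hi Md α β) : ∃ y₀ ∈ V, y₀ ∈ closure (c 3) ∧
    (∀ d ∈ Hi, X.tt (c d) y₀ = 1) ∧ (∀ d ∈ Md, X.tt (c d) y₀ = 1 / 2) ∧
      ∀ v, YHch_Tri c Hi Md α β (X.tt v y₀) v := by
  have hT : (fun d => if d ∈ Hi then (1 : ℝ) else if d ∈ Md then 1 / 2 else 0) ∈ YQ := by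
    obtain ⟨d, hd⟩ := h.ne
    refine ⟨fun d => ?_, d, if_pos hd⟩
    dsimp only
    split_ifs <;> norm_num
  have R := rep_pt h.fl hT
  have h1 : ∀ d ∈ Hi, X.tt (c d) _ = 1 := fun d hd => (R.tt_eq d).trans (if_pos hd)
  have h2 : ∀ d ∈ Md, X.tt (c d) _ = 1 / 2 := fun d hd =>
    (R.tt_eq d).trans ((if_neg (Finset.disjoint_right.1 h.dis hd)).trans (if_pos hd))
  refine ⟨_, R.mem, R.cl, h1, h2, fun v => ?_⟩
  by_cases k1 : ∃ d ∈ Hi, c d = v
  · obtain ⟨d, hd, rfl⟩ := k1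
    exact Or.inl ⟨h1 d hd, (h.hi d hd).1, (h.hi d hd).2.1, (h.hi d hd).2.2, d, hd, rfl⟩
  by_cases k2 : ∃ d ∈ Md, c d = v
  · obtain ⟨d, hd, rfl⟩ := k2
    exact Or.inr (Or.inl ⟨h2 d hd, (h.md d hd).1, (h.md d hd).2.1, (h.md d hd).2.2, d, hd, rfl⟩)
  have k3 : ∀ d ∈ Hi ∪ Md, c d ≠ v := fun d hd e =>
    (Finset.mem_union.1 hd).elim (fun hd => k1 ⟨d, hd, e⟩) fun hd => k2 ⟨d, hd, e⟩
  refine Or.inr (Or.inr ⟨?_, (h.lo v k3).1, (h.lo v k3).2.1, (h.lo v k3).2.2, k3⟩)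
  by_cases k4 : ∃ d, c d = v
  · obtain ⟨d, rfl⟩ := k4
    exact (R.tt_eq d).trans ((if_neg fun hd => k1 ⟨d, hd, rfl⟩).trans
      (if_neg fun hd => k2 ⟨d, hd, rfl⟩))
  · exact R.tt_zero fun d e => k4 ⟨d, e⟩

theorem YHch_sat (hs : X.Sat c Hi A) (hy : y ∈ V) (hy' : y' ∈ V) (e : X.M.cell y = X.M.cell y')
    (h1 : ∀ d ∈ Hi, 0 < X.tt (c d) y) (h2 : ∀ d ∈ Hi, 0 < X.tt (c d) y') : y ∈ A ↔ y' ∈ A :=
  ⟨fun k => hs y k h1 (e ▸ X.M.mem y' hy'), fun k => hs y' k h2 (e ▸ X.M.mem y hy)⟩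

/-- The direction of the moving label. -/
theorem YHch_dir (h : X.Hty c Hi Md α β) {y₀ : Rn 3} (hy : y₀ ∈ V)
    (h1 : ∀ d ∈ Hi, X.tt (c d) y₀ = 1) (h2 : ∀ d ∈ Md, X.tt (c d) y₀ = 1 / 2)
    (tr : ∀ v, YHch_Tri c Hi Md α β (X.tt v y₀) v) {U : Set (Rn 3) → Rn 3 → ℝ}
    (hU : ∀ v, Hom (U v)) (hf : {v | U v ≠ 0}.Finite)
    (he : ∀ ξ, X.Cmp y₀ (y₀ + ξ) → ∀ v, X.tt v (y₀ + ξ) = X.tt v y₀ + U v ξ) :
    ∃ w : Rn 3, (∀ j ∈ Md, ∀ ξ (s : ℝ), 4 * (β (c j) - α (c j)) * U (c j) (ξ + s • w) =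
      4 * (β (c j) - α (c j)) * U (c j) ξ + s) ∧
      ∀ v, (∀ j ∈ Md, c j ≠ v) → ∀ ξ (s : ℝ), U v (ξ + s • w) = U v ξ := by
  rcases Md.eq_empty_or_nonempty with rfl | ⟨j, hj⟩
  · exact ⟨0, by simp, by simp⟩
  have uq : ∀ d ∈ Md, d = j := fun d hd => Finset.card_le_one.1 h.one d hd j hj
  have key : ∀ ξ (s : ℝ) v, U v (ξ + s • (X.bar c (insert j Hi) - X.bar c Hi)) =
      U v ξ + if v = c j then s else 0 := by
    intro ξ s v
    have nr := YHch_add (X.cmp_near hy)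
    have k : Tendsto (fun l : ℝ => |l * s|) (𝓝 0) (𝓝 |0 * s|) :=
      (continuous_id.mul continuous_const).abs.tendsto 0
    obtain ⟨l, ⟨⟨⟨a1, a2⟩, a3⟩, a4⟩, l0⟩ := (((((YHch_cone nr ξ).and
      (YHch_cone nr (ξ + s • (X.bar c (insert j Hi) - X.bar c Hi)))).and
      (YHch_cone (YHch_small hU hf) ξ)).and ((k.eventually_le_const (u := 1 / 8)
        (by simp)).filter_mono nhdsWithin_le_nhds)).and self_mem_nhdsWithin).exists
    have l1 : 0 < l := l0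
    have b := fun v => abs_le.1 (a3 v)
    have b4 := abs_le.1 a4
    have e1 := he _ a1
    have ej := e1 (c j)
    rw [h2 j hj] at ej
    obtain ⟨s1, s2, s3⟩ := sh_spec (X := X) (v := c j) a1.1
      ⟨by linarith only [ej, b, b (c j)], by linarith only [ej, b, b (c j)]⟩
      (s := X.tt (c j) (y₀ + l • ξ) + l * s) ⟨by linarith only [b4, ej, b, b (c j)], by linarith only [b4, ej, b, b (c j)]⟩
    have e2 := shift h.fl (S := Hi) (Finset.disjoint_right.1 h.dis hj) a1.1 s1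
      (fun v hv => (s3 v hv).symm)
      (fun d hd => by
        rw [s2, e1 (c d), h1 d hd]
        constructor <;> linarith only [ej, b, b4, b (c j), b (c d)])
      (fun v hv hv' => by
        rw [s2, e1 v]
        rcases tr v with ⟨-, -, -, -, d, hd, e⟩ | ⟨-, -, -, -, d, hd, e⟩ | ⟨e, -⟩
        · exact absurd e (hv' d hd)
        · exact absurd (uq d hd ▸ e).symm hv
        · rw [e]
          constructor <;> linarith only [ej, b, b4, b (c j), b v])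
    rw [s2, add_sub_cancel_left, sub_eq_iff_eq_add', add_assoc, mul_smul, ← smul_add] at e2
    have e3 := he _ a2 v
    rw [← e2, (hU v).2 _ _ l1.le] at e3
    refine mul_left_cancel₀ l1.ne' ?_
    have e4 := e1 v
    rw [(hU v).2 _ _ l1.le] at e4
    split_ifs with hv
    · subst hv
      rw [s2] at e3
      linarith only [e3, e4]
    · rw [s3 v hv] at e3
      linarith only [e3, e4]
  have p : 4 * (β (c j) - α (c j)) ≠ 0 := by linarith [(h.md j hj).2.1]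
  refine ⟨(4 * (β (c j) - α (c j)))⁻¹ • (X.bar c (insert j Hi) - X.bar c Hi), fun d hd ξ s => ?_,
    fun v hv ξ s => ?_⟩
  · rw [uq d hd, smul_smul, key, if_pos rfl, mul_add, mul_left_comm, mul_inv_cancel₀ p, mul_one]
  · rw [smul_smul, key, if_neg (hv j hj).symm, add_zero]

/-- The coordinatewise map which moves the handle close to its centre. -/
theorem YHch_map (h : X.Hty c Hi Md α β) {y₀ : Rn 3} (hy : y₀ ∈ V) (hc : y₀ ∈ closure (c 3))
    (tr : ∀ v, YHch_Tri c Hi Md α β (X.tt v y₀) v) {G : Set (Set (Rn 3))} (hG : G.Finite) :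
    ∃ ψ : Set (Rn 3) → ℝ → ℝ, (∀ v, Mo (ψ v)) ∧ {v | ψ v ≠ id}.Finite ∧
      (∀ v r, r ∈ Icc (0 : ℝ) 1 → (v ∈ G ∨ r = X.tt v y₀) →
        ψ v (3 / 4 * X.tt v y₀ + r / 4) = α v + r * (β v - α v)) ∧
      ∀ z, X.th ψ z ∈ X.Rg α β → z ∈ V ∧ ∀ v,
        X.tt v z ∈ Icc (3 / 4 * X.tt v y₀) (3 / 4 * X.tt v y₀ + 1 / 4) := by
  classical
  have hF : (G ∪ ⋃ c' ∈ {c' | X.Fl c' ∧ (closure (c' 3) ∩ {y₀}).Nonempty}, range c').Finite :=
    hG.union ((X.flags_fin isCompact_singleton (singleton_subset_iff.2 hy)).biUnion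
      fun c' _ => finite_range c')
  generalize hF' : (G ∪ ⋃ c' ∈ {c' | X.Fl c' ∧ (closure (c' 3) ∩ {y₀}).Nonempty}, range c') = F
    at hF
  have f1 : G ⊆ F := hF' ▸ subset_union_left
  have f2 : ∀ c', X.Fl c' → y₀ ∈ closure (c' 3) → ∀ d, c' d ∈ F := fun c' k1 k2 d =>
    hF' ▸ Or.inr (mem_biUnion (x := c') ⟨k1, y₀, k2, rfl⟩ ⟨d, rfl⟩)
  have f3 : ∀ v, v ∉ F → X.tt v y₀ = 0 ∧ α v = 0 := fun v hv => by
    rcases tr v with ⟨-, -, -, -, d, -, e⟩ | ⟨-, -, -, -, d, -, e⟩ | ⟨e, e', -⟩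
    · exact absurd (e ▸ f2 c h.fl hc d) hv
    · exact absurd (e ▸ f2 c h.fl hc d) hv
    · exact ⟨e, e'⟩
  have lt : ∀ v, α v < β v := fun v => by
    rcases tr v with ⟨-, -, a, b, -⟩ | ⟨-, -, a, -⟩ | ⟨-, a, b, -⟩ <;> linarith
  have ex : ∀ v, ∃ φ, Mo φ ∧ ∀ t, (φ t ∈ Icc (3 / 4 * X.tt v y₀) (3 / 4 * X.tt v y₀ + 1 / 4) ↔
      t ∈ Icc (α v) (β v)) ∧ (t ∈ Icc (α v) (β v) → φ t = 3 / 4 * X.tt v y₀ +
        (3 / 4 * X.tt v y₀ + 1 / 4 - 3 / 4 * X.tt v y₀) / (β v - α v) * (t - α v)) := fun v => by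
    rcases tr v with ⟨e, a, b, k, -⟩ | ⟨e, a, b, k, -⟩ | ⟨e, a, b, k, -⟩ <;>
      refine mo_fit (by linarith only [a]) (lt v) (by linarith only [k]) (by linarith only [e, a, b, k]) (by linarith only [a, b, k]) (by linarith only [e, a, b, k])
        ⟨fun _ => by linarith, fun _ => by linarith⟩ ⟨fun _ => by linarith, fun _ => by linarith⟩
  choose φ hφ kφ using ex
  have hm : ∀ v, Mo (if v ∈ F then invFun (φ v) else id) := fun v => by
    split_ifs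
    exacts [(hφ v).inv, mo_id]
  refine ⟨fun v => if v ∈ F then invFun (φ v) else id, hm,
    hF.subset fun v hv => by_contra fun k => hv (if_neg k), fun v r hr hv => ?_, fun z hz => ?_⟩
  · have l := sub_pos.2 (lt v)
    dsimp only
    split_ifs with k
    · refine (hφ v).1.inv_eq (((kφ v _).2 ⟨by linarith only [l, hr, hr.1, mul_nonneg_of_nonpos_of_nonpos (le_of_lt (Mathlib.Tactic.Linarith.sub_neg_of_lt l)) (Mathlib.Tactic.Linarith.sub_nonpos_of_le hr.left)], by nlinarith [hr.2]⟩).trans ?_)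
      field_simp
      ring
    · rcases hv with hv | rfl
      · exact absurd (f1 hv) k
      · simp [(f3 v k).1, (f3 v k).2]
  · have z1 : z ∈ V := by_contra fun k => k (X.th_off _ k ▸ hz.1)
    have z2 : ∀ v ∈ F, X.tt v z ∈ Icc (3 / 4 * X.tt v y₀) (3 / 4 * X.tt v y₀ + 1 / 4) :=
      fun v hv => by
        have k := hz.2 v
        rw [tt_th fun v => (hm v).mo0, if_pos hv, ← (kφ v _).1, (hφ v).1.ri] at k
        exact k
    have R := X.rep z1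
    have R0 := rep_of R.1 hy fun v hv => R.of_pos (by
      linarith only [hv, z2, f3, (z2 v (by_contra fun k => hv.ne' (f3 v k).1)).1])
    refine ⟨z1, fun v => ?_⟩
    by_cases k : v ∈ F
    · exact z2 v k
    · rw [(f3 v k).1, R.tt_zero (v := v) fun d e => k (e ▸ f2 _ R.1 R0.cl d)]
      norm_num

theorem hchart (h : X.Hty c Hi Md α β) (hA : Side A) (hs : X.Sat c Hi A)
    (hc : ∀ d ∈ Hi ∪ Md, c d ⊆ A) : ∃ Ψ U x w, X.Hch c Md α β A Ψ U x w := by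
  obtain ⟨y₀, hy, hcl, h1, h2, tr⟩ := YHch_ctr h
  obtain ⟨U, hU, hf, hk, he, hm⟩ := X.star hy
  obtain ⟨w, w1, w2⟩ := YHch_dir h hy h1 h2 tr hU hf he
  obtain ⟨ψ, hψ, fψ, eψ, bψ⟩ := YHch_map h hy hcl tr hf
  have nr := YHch_add (X.cmp_near hy)
  have lt : ∀ v, 0 < β v - α v := fun v => by
    rcases tr v with ⟨-, -, a, b, -⟩ | ⟨-, -, a, -⟩ | ⟨-, a, b, -⟩ <;> linarith
  have gap : ∀ v v', X.tt v y₀ < X.tt v' y₀ → X.tt v y₀ + 1 / 2 ≤ X.tt v' y₀ := fun v v' k => by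
    rcases tr v with ⟨a, -⟩ | ⟨a, -⟩ | ⟨a, -⟩ <;> rcases tr v' with ⟨b, -⟩ | ⟨b, -⟩ | ⟨b, -⟩ <;>
      linarith only [k, a, b]
  have sg : ∀ v ξ, ∃ l, 0 < l ∧ X.tt v y₀ + l * U v ξ ∈ Icc (0 : ℝ) 1 := fun v ξ => by
    obtain ⟨l, a, l0⟩ := ((YHch_cone nr ξ).and self_mem_nhdsWithin).exists
    refine ⟨l, l0, ?_⟩
    rw [← (hU v).2 _ _ (le_of_lt l0), ← he _ a]
    exact X.tt_mem _ _
  have E : ∀ ξ, X.Cmp y₀ (y₀ + ξ) → (∀ v, X.tt v y₀ + 4 * U v ξ ∈ Icc (0 : ℝ) 1) → ∀ v,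
      X.tt v (X.th ψ (y₀ + ξ)) =
        α v + X.tt v y₀ * (β v - α v) + 4 * (β v - α v) * U v ξ := fun ξ k1 k2 v => by
    rw [tt_th fun v => (hψ v).mo0, he ξ k1, show X.tt v y₀ + U v ξ =
      3 / 4 * X.tt v y₀ + (X.tt v y₀ + 4 * U v ξ) / 4 by ring, eψ v _ (k2 v)]
    · ring
    · by_cases k : U v = 0
      · exact Or.inr (by simp [k])
      · exact Or.inl k
  have B : ∀ ξ, X.th ψ (y₀ + ξ) ∈ X.Rg α β → X.Cmp y₀ (y₀ + ξ) := fun ξ k => by
    obtain ⟨k1, k2⟩ := bψ _ k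
    exact ⟨k1, fun v a => by linarith only [a, k2, (k2 v).1],
      fun v v' a => by linarith only [a, k2, gap, (k2 v).2, (k2 v').1, gap v v' a]⟩
  have pos : ∀ z, X.Cmp y₀ z → ∀ d ∈ Hi, 0 < X.tt (c d) z := fun z k d hd =>
    k.2.1 _ (h1 d hd ▸ one_pos)
  have K : ∀ ξ, X.th ψ (y₀ + ξ) ∈ X.Rg α β →
      ∀ᶠ l in 𝓝[>] (0 : ℝ), (X.th ψ (y₀ + ξ) ∈ A ↔ y₀ + l • ξ ∈ A) := fun ξ k => by
    filter_upwards [Ioc_mem_nhdsGT one_pos] with l hl
    obtain ⟨a, b, -⟩ := (B ξ k).seg hy hl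
    rw [add_sub_cancel_left] at a b
    exact YHch_sat hs k.1 a.1 ((th_cell hψ (B ξ k).1).trans b.symm)
      (fun d hd => (h.hi d hd).1.trans_le (k.2 _).1) (pos _ a)
  have L : LH fun ξ => X.th ψ (y₀ + ξ) := by
    simpa only [one_smul, comp_def] using (th_lh hψ fψ).comp (lh_hom y₀ one_ne_zero)
  refine ⟨fun ξ => X.th ψ (y₀ + ξ), fun v ξ => 4 * (β v - α v) * U v ξ,
    fun v => α v + X.tt v y₀ * (β v - α v), w, L, fun v => ⟨(hU v).1.const_mul _, fun ξ s k => ?_⟩,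
    hf.subset fun v hv k => hv (by simp [k, funext_iff]), fun ξ k => hk ξ fun v => ?_,
    fun v => ?_, fun ξ k => ?_, fun ξ k => E ξ (B ξ k) fun v => ?_, w1,
    fun v hv ξ s => by rw [w2 v hv], ?_⟩
  · exact (congrArg _ ((hU v).2 _ _ k)).trans (mul_left_comm _ _ _)
  · exact (mul_eq_zero.1 (k v)).resolve_left (by linarith [lt v])
  · have l := lt v
    rcases tr v with ⟨e, a, b, k, -⟩ | ⟨e, a, b, k, -⟩ | ⟨e, a, b, k, -⟩ <;> rw [e]
    · refine ⟨Or.inl ⟨a, by linarith⟩, Or.inr ⟨by linarith, k, fun ξ => ?_⟩⟩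
      obtain ⟨s, s0, -, s1⟩ := sg v ξ
      exact mul_nonpos_of_nonneg_of_nonpos (by linarith) (by (refine le_of_not_gt fun h_nl => ?_; linarith only [h_nl, e, s1, s0, mul_pos_of_neg_of_neg (Mathlib.Tactic.Linarith.sub_neg_of_lt s0) (Mathlib.Tactic.Linarith.sub_neg_of_lt h_nl)]))
    · exact ⟨Or.inl ⟨a, by linarith only [l]⟩, Or.inl ⟨by linarith only [l], k⟩⟩
    · refine ⟨Or.inr ⟨by linarith, a, fun ξ => ?_⟩, Or.inl ⟨by linarith, k⟩⟩
      obtain ⟨s, s0, s1, -⟩ := sg v ξ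
      exact mul_nonneg (by linarith) (by (refine le_of_not_gt fun h_nl => ?_; linarith only [h_nl, e, s1, s0, mul_pos_of_neg_of_neg (Mathlib.Tactic.Linarith.sub_neg_of_lt s0) (Mathlib.Tactic.Linarith.sub_neg_of_lt h_nl)]))
  · have k1 : ∀ v, X.tt v y₀ + 4 * U v ξ ∈ Icc (0 : ℝ) 1 := fun v =>
      ⟨by nlinarith [(k v).1, lt v], by nlinarith [(k v).2, lt v]⟩
    have k2 := hm ξ (fun v => ⟨by linarith [(k1 v).1, (X.tt_mem v y₀).1],
      by linarith [(k1 v).2, (X.tt_mem v y₀).2]⟩) (fun v a => by linarith [(k1 v).1])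
      fun v v' a => by linarith only [a, k1, gap, (k1 v).2, (k1 v').1, gap v v' a]
    exact ⟨th_mem (fun v => (hψ v).mo0) k2.1, E ξ k2 k1⟩
  · have a := (bψ _ k).2 v
    rw [he ξ (B ξ k)] at a
    exact ⟨by linarith only [a, a.1], by linarith only [a, a.2]⟩
  have yA : y₀ ∈ A := by
    have a := X.tt_cell hy
    rcases tr (X.M.cell y₀) with ⟨-, -, -, -, d, hd, e⟩ | ⟨-, -, -, -, d, hd, e⟩ | ⟨e, -⟩
    · exact hc d (Finset.mem_union_left _ hd) (e ▸ X.M.mem _ hy)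
    · exact hc d (Finset.mem_union_right _ hd) (e ▸ X.M.mem _ hy)
    · exact absurd e a.ne'
  rcases hA.loc y₀ yA with a | ⟨μ, e, hμ, a⟩
  · refine Or.inl fun y k => ?_
    obtain ⟨ξ, rfl⟩ := L.1.2 y
    obtain ⟨l, a1, a2⟩ := ((K ξ k).and (YHch_cone (YHch_add (P := (· ∈ A)) a) ξ)).exists
    exact a1.2 a2
  have a' : ∀ ξ, ∀ᶠ l in 𝓝[>] (0 : ℝ), (y₀ + l • ξ ∈ A ↔ 0 ≤ μ ξ) := fun ξ => by
    filter_upwards [YHch_cone a ξ, self_mem_nhdsWithin] with l a1 a2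
    rw [a1, hμ.1.2 _ _ (le_of_lt a2), mul_nonneg_iff_of_pos_left a2]
  have S : ∀ ξ (s : ℝ), 0 ≤ μ ξ ↔ 0 ≤ μ (ξ + s • w) := fun ξ s => by
    obtain ⟨l, ⟨a1, a2⟩, a3, a4⟩ := (((a' ξ).and (a' (ξ + s • w))).and
      ((YHch_cone nr ξ).and (YHch_cone nr (ξ + s • w)))).exists
    rw [← a1, ← a2]
    refine YHch_sat hs a3.1 a4.1 (cell_eq_of a3.1 a4.1 fun v => ?_) (pos _ a3) (pos _ a4)
    by_cases k : ∃ j ∈ Md, c j = v
    · obtain ⟨j, hj, rfl⟩ := k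
      exact iff_of_true (a3.2.1 _ (h2 j hj ▸ one_half_pos)) (a4.2.1 _ (h2 j hj ▸ one_half_pos))
    · rw [he _ a3, he _ a4, smul_add, smul_smul, w2 v fun j hj e => k ⟨j, hj, e⟩]
  refine Or.inr ⟨μ, e, hμ, fun ξ s => ?_, fun ξ k => ?_⟩
  · have b1 := S (ξ + (-μ ξ) • e) s
    have b2 := S (ξ + (-μ (ξ + s • w)) • e) s
    rw [add_right_comm, hμ.2, hμ.2] at b1 b2
    linarith only [b1, b2, b1.1 (by linarith), b2.2 (by linarith)]
  · obtain ⟨l, a1, a2⟩ := ((K ξ k).and (a' ξ)).exists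
    exact a1.trans a2

end Cx

end BEp
end
end

-- merged part: Pool.Agent.Work.MP_f0515e_an.P3.YCell1
section
/-! The gauge of a handle; handles are balls. -/

open Set Metric Filter Topology Function BEv MeasureTheory
open scoped NNReal ENNReal

noncomputable section
namespace BEp

/-- The maximum of zero and finitely many homogeneous functions. -/
theorem YCell1_max {n : ℕ} {κ : Type} {S : Set κ} (hS : S.Finite) {f : κ → Rn n → ℝ}
    (hf : ∀ k, Hom (f k)) : ∃ r, Hom r ∧ ∀ ξ, 0 ≤ r ξ ∧ (∀ k ∈ S, f k ξ ≤ r ξ) ∧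
      (r ξ = 0 ∨ ∃ k, r ξ = f k ξ) := by
  induction S, hS using Set.Finite.induction_on with
  | empty =>
    exact ⟨fun _ => 0, ⟨TP.const 0, fun _ _ _ => (mul_zero _).symm⟩,
      fun ξ => ⟨le_rfl, fun _ h => h.elim, Or.inl rfl⟩⟩
  | @insert a S _ _ ih =>
    obtain ⟨r, hr, h⟩ := ih
    refine ⟨fun ξ => max (f a ξ) (r ξ), ⟨(hf a).1.max hr.1, fun ξ s hs => ?_⟩, fun ξ =>
      ⟨le_max_of_le_right (h ξ).1, ?_, ?_⟩⟩
    · simp only [(hf a).2 ξ s hs, hr.2 ξ s hs, mul_max_of_nonneg _ _ hs]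
    · rintro k (rfl | hk)
      exacts [le_max_left _ _, le_max_of_le_right ((h ξ).2.1 k hk)]
    · rcases le_total (f a ξ) (r ξ) with k | k
      · simpa only [max_eq_right k] using (h ξ).2.2
      · exact Or.inr ⟨a, max_eq_left k⟩

theorem YCell1_up {x b u : ℝ} (h : x < b ∧ b < 1 ∨ x = 1 ∧ b = 1 ∧ u ≤ 0) :
    (u / (b - x) ≤ 1 ↔ x + u ≤ b) ∧ (u / (b - x) < 1 ↔ x + u < b ∨ b = 1) ∧
      (0 < u → 0 < u / (b - x)) := by
  rcases h with ⟨h1, h2⟩ | ⟨rfl, rfl, h3⟩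
  · have h3 := sub_pos.2 h1
    rw [div_le_one h3, div_lt_one h3, or_iff_left h2.ne]
    exact ⟨le_sub_iff_add_le', lt_sub_iff_add_lt', fun k => div_pos k h3⟩
  · rw [sub_self, div_zero]
    exact ⟨iff_of_true zero_le_one (by linarith), iff_of_true zero_lt_one (Or.inr rfl),
      fun k => absurd h3 k.not_ge⟩

theorem YCell1_lo {x a u : ℝ} (h : 0 < a ∧ a < x ∨ x = 0 ∧ a = 0 ∧ 0 ≤ u) :
    (-u / (x - a) ≤ 1 ↔ a ≤ x + u) ∧ (-u / (x - a) < 1 ↔ a < x + u ∨ a = 0) ∧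
      (u < 0 → 0 < -u / (x - a)) := by
  rcases h with ⟨h1, h2⟩ | ⟨rfl, rfl, h3⟩
  · have h3 := sub_pos.2 h2
    rw [div_le_one h3, div_lt_one h3, or_iff_left h1.ne']
    exact ⟨⟨fun k => by linarith, fun k => by linarith⟩,
      ⟨fun k => by linarith, fun k => by linarith⟩, fun k => div_pos (neg_pos.2 k) h3⟩
  · rw [sub_self, div_zero]
    exact ⟨iff_of_true zero_le_one (by linarith), iff_of_true zero_lt_one (Or.inr rfl),
      fun k => absurd h3 k.not_ge⟩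

theorem YCell1_img {n : ℕ} {Ψ : Rn n → Rn n} (h : LH Ψ) {S T : Set (Rn n)}
    (k : ∀ ξ, Ψ ξ ∈ S ↔ ξ ∈ T) : Ψ '' T = S := by
  rw [← image_preimage_eq S h.1.2]
  exact congrArg _ (Set.ext fun ξ => (k ξ).symm)

namespace Cx
variable {V : Set (Rn 3)} {X : Cx V} {c : Fin 4 → Set (Rn 3)}
variable {Md : Finset (Fin 4)} {α β : Set (Rn 3) → ℝ} {A : Set (Rn 3)}
variable {Ψ : Rn 3 → Rn 3} {U : Set (Rn 3) → Rn 3 → ℝ} {x : Set (Rn 3) → ℝ} {u : Rn 3}

/-- The handle is the unit ball of a gauge in the chart. -/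
theorem YCell1_gauge (h : X.Hch c Md α β A Ψ U x u) : ∃ r, Gauge r ∧
    (∀ ξ, Ψ ξ ∈ X.Rg α β ↔ r ξ ≤ 1) ∧ ∀ ξ, Ψ ξ ∈ X.oRg α β ↔ r ξ < 1 := by
  obtain ⟨r, hr, h1⟩ := YCell1_max h.fin
    (f := fun v ξ => max (U v ξ / (β v - x v)) (-U v ξ / (x v - α v))) fun v =>
      ⟨((h.hom v).1.div_const _).max ((h.hom v).1.neg.div_const _), fun ξ s hs => by
        simp only [(h.hom v).2 ξ s hs, mul_max_of_nonneg _ _ hs, mul_div_assoc, neg_div,
          mul_neg]⟩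
  have hu (v : Set (Rn 3)) (ξ : Rn 3) := YCell1_up (u := U v ξ)
    ((h.ctr v).2.imp_right fun k => ⟨k.1, k.2.1, k.2.2 ξ⟩)
  have hl (v : Set (Rn 3)) (ξ : Rn 3) := YCell1_lo (u := U v ξ)
    ((h.ctr v).1.imp_right fun k => ⟨k.1, k.2.1, k.2.2 ξ⟩)
  have h2 (v : Set (Rn 3)) (ξ : Rn 3) :
      max (U v ξ / (β v - x v)) (-U v ξ / (x v - α v)) ≤ r ξ := by
    by_cases k : U v = 0
    · simpa [k] using (h1 ξ).1
    · exact (h1 ξ).2.1 v k
  have h3 (ξ : Rn 3) : r ξ ≤ 1 ↔ ∀ v, x v + U v ξ ∈ Icc (α v) (β v) := by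
    refine ⟨fun k v => ⟨(hl v ξ).1.1 ((le_max_right _ _).trans ((h2 v ξ).trans k)),
      (hu v ξ).1.1 ((le_max_left _ _).trans ((h2 v ξ).trans k))⟩, fun k => ?_⟩
    rcases (h1 ξ).2.2 with e | ⟨v, e⟩
    · exact e.trans_le zero_le_one
    · exact e.trans_le (max_le ((hu v ξ).1.2 (k v).2) ((hl v ξ).1.2 (k v).1))
  have h4 (ξ : Rn 3) : r ξ < 1 ↔ ∀ v, (α v < x v + U v ξ ∨ α v = 0) ∧
      (x v + U v ξ < β v ∨ β v = 1) := by
    refine ⟨fun k v => ⟨(hl v ξ).2.1.1 ((le_max_right _ _).trans_lt ((h2 v ξ).trans_lt k)),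
      (hu v ξ).2.1.1 ((le_max_left _ _).trans_lt ((h2 v ξ).trans_lt k))⟩, fun k => ?_⟩
    rcases (h1 ξ).2.2 with e | ⟨v, e⟩
    · exact e.trans_lt zero_lt_one
    · exact e.trans_lt (max_lt ((hu v ξ).2.1.2 (k v).2) ((hl v ξ).2.1.2 (k v).1))
  refine ⟨r, hr.gauge fun ξ hξ => ?_, fun ξ => ⟨fun k => (h3 ξ).2 fun v => ?_, fun k => ?_⟩,
    fun ξ => ⟨fun k => (h4 ξ).2 fun v => ?_, fun k => ?_⟩⟩
  · obtain ⟨v, hv⟩ := not_forall.1 (mt (h.ker ξ) hξ)
    refine lt_of_lt_of_le ?_ (h2 v ξ)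
    rcases lt_or_gt_of_ne hv with k | k
    exacts [lt_max_of_lt_right ((hl v ξ).2.2 k), lt_max_of_lt_left ((hu v ξ).2.2 k)]
  · rw [← h.bwd ξ k v]
    exact k.2 v
  · obtain ⟨k1, k2⟩ := h.fwd ξ ((h3 ξ).1 k)
    refine ⟨k1, fun v => ?_⟩
    rw [k2 v]
    exact (h3 ξ).1 k v
  · rw [← h.bwd ξ (X.oRg_sub α β k) v]
    exact k.2 v
  · obtain ⟨k1, k2⟩ := h.fwd ξ ((h3 ξ).1 k.le)
    refine ⟨k1, fun v => ?_⟩
    rw [k2 v]
    exact (h4 ξ).1 k v

/-- In the open handle the interior of the side is the region strictly above the graph. -/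
theorem YCell1_int (h : LH Ψ) {μ : Rn 3 → ℝ} {e : Rn 3} (hμ : YGr μ e)
    (hA : ∀ ξ, Ψ ξ ∈ X.Rg α β → (Ψ ξ ∈ A ↔ 0 ≤ μ ξ)) {ξ : Rn 3} (hξ : Ψ ξ ∈ X.oRg α β) :
    Ψ ξ ∈ interior A ↔ 0 < μ ξ := by
  constructor
  · intro k
    obtain ⟨δ, hδ, k1, k2⟩ := kb_near (h.tp.continuous.continuousAt.preimage_mem_nhds
      (((X.oRg_open α β).inter isOpen_interior).mem_nhds ⟨hξ, k⟩)) (-e)
    have k3 := (hA _ (X.oRg_sub α β k1)).1 (interior_subset k2)
    rw [smul_neg, ← neg_smul, hμ.2] at k3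
    linarith
  · intro k
    refine interior_maximal (t := X.oRg α β ∩ {y | 0 < μ (invFun Ψ y)}) (fun y hy => ?_)
      ((X.oRg_open α β).inter (isOpen_lt continuous_const (hμ.1.1.comp h.tpi).continuous))
      ⟨hξ, by rwa [mem_ofPred_eq, h.li]⟩
    obtain ⟨η, rfl⟩ := h.1.2 y
    refine (hA η (X.oRg_sub α β hy.1)).2 ?_
    have k1 := hy.2
    rw [mem_ofPred_eq, h.li] at k1
    exact k1.le

theorem YCell1_ball (h : X.Hch c Md α β A Ψ U x u) :
    Ball (X.Rg α β ∩ A) ((X.Rg α β ∩ A) \ (X.oRg α β ∩ interior A)) := by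
  obtain ⟨r, hr, h1, h2⟩ := YCell1_gauge h
  rcases h.side with k | ⟨μ, e, hμ, -, k⟩
  · have k1 := (gauge_ball hr 0).image h.lh
    rw [inter_eq_left.2 k, inter_eq_left.2
      (interior_maximal ((X.oRg_sub α β).trans k) (X.oRg_open α β))]
    rwa [YCell1_img h.lh (S := X.Rg α β) fun ξ => by rw [h1, mem_ofPred_eq, sub_zero],
      YCell1_img h.lh (S := X.Rg α β \ X.oRg α β) fun ξ => by
        rw [Set.mem_sdiff, h1, h2, mem_ofPred_eq, sub_zero, not_lt, ← le_antisymm_iff]] at k1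
  · have k1 := (gauge_half hr hμ).image h.lh
    have k2 (ξ : Rn 3) : Ψ ξ ∈ X.Rg α β ∩ A ↔ r ξ ≤ 1 ∧ 0 ≤ μ ξ := by
      rw [← h1]
      exact and_congr_right (k ξ)
    have k3 (ξ : Rn 3) : Ψ ξ ∈ X.oRg α β ∩ interior A ↔ r ξ < 1 ∧ 0 < μ ξ := by
      rw [← h2]
      exact and_congr_right fun k4 => YCell1_int h.lh hμ k k4
    rwa [YCell1_img h.lh (T := {ξ | r ξ ≤ 1 ∧ 0 ≤ μ ξ}) k2,
      YCell1_img h.lh (S := (X.Rg α β ∩ A) \ (X.oRg α β ∩ interior A))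
        (T := {ξ | r ξ ≤ 1 ∧ 0 ≤ μ ξ ∧ (r ξ = 1 ∨ μ ξ = 0)}) fun ξ => by
        rw [Set.mem_sdiff, k2, k3, mem_ofPred_eq, and_assoc]
        refine and_congr_right fun k4 => and_congr_right fun k5 => ?_
        rw [not_and_or, not_lt, not_lt, k4.ge_iff_eq, k5.ge_iff_eq']] at k1

end Cx

end BEp
end
end

-- merged part: Pool.Agent.Work.MP_f0515e_an.P3.YCell2
section
/-! Column charts of handles. -/

open Set Metric Filter Topology Function BEv MeasureTheory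
open scoped NNReal ENNReal

noncomputable section
namespace BEp

theorem yc2_real {a b x t : ℝ} (h1 : 0 < a ∧ a < x ∨ x = 0 ∧ a = 0 ∧ 0 ≤ t)
    (h2 : x < b ∧ b < 1 ∨ x = 1 ∧ b = 1 ∧ t ≤ 0) :
    (max (t / (b - x)) (-t / (x - a)) ≤ 1 ↔ x + t ∈ Icc a b) ∧
    (max (t / (b - x)) (-t / (x - a)) < 1 ↔ (a < x + t ∨ a = 0) ∧ (x + t < b ∨ b = 1)) ∧
    (max (t / (b - x)) (-t / (x - a)) ≤ 0 → t = 0) := by
  have p : (-t / (x - a) ≤ 1 ↔ a ≤ x + t) ∧ (-t / (x - a) < 1 ↔ a < x + t ∨ a = 0) ∧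
      (-t / (x - a) ≤ 0 → 0 ≤ t) := by
    rcases h1 with ⟨k1, k2⟩ | ⟨rfl, rfl, k⟩
    · have k3 := sub_pos.2 k2
      rw [div_le_one k3, div_lt_one k3, div_le_iff₀ k3]
      exact ⟨⟨fun _ => by linarith, fun _ => by linarith⟩,
        ⟨fun _ => Or.inl (by linarith), fun k => k.elim (fun _ => by linarith) fun e => absurd e k1.ne'⟩,
        fun _ => by linarith⟩
    · simp [k]
  have q : (t / (b - x) ≤ 1 ↔ x + t ≤ b) ∧ (t / (b - x) < 1 ↔ x + t < b ∨ b = 1) ∧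
      (t / (b - x) ≤ 0 → t ≤ 0) := by
    rcases h2 with ⟨k1, k2⟩ | ⟨rfl, rfl, k⟩
    · have k3 := sub_pos.2 k1
      rw [div_le_one k3, div_lt_one k3, div_le_iff₀ k3]
      exact ⟨⟨fun _ => by linarith, fun _ => by linarith⟩,
        ⟨fun _ => Or.inl (by linarith), fun k => k.elim (fun _ => by linarith) fun e => absurd e k2.ne⟩,
        fun _ => by linarith⟩
    · simp [k]
  refine ⟨?_, ?_, fun k => ?_⟩
  · rw [max_le_iff, p.1, q.1, mem_Icc, and_comm]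
  · rw [max_lt_iff, p.2.1, q.2.1, and_comm]
  · rw [max_le_iff] at k
    exact le_antisymm (q.2.2 k.1) (p.2.2 k.2)

theorem yc2_max {n : ℕ} {κ : Type} {S : Set κ} (hS : S.Finite) {f : κ → Rn n → ℝ}
    (hf : ∀ v, Hom (f v)) : ∃ r, Hom r ∧ ∀ ξ (t : ℝ), (r ξ ≤ t ↔ 0 ≤ t ∧ ∀ v ∈ S, f v ξ ≤ t) ∧
      (r ξ < t ↔ 0 < t ∧ ∀ v ∈ S, f v ξ < t) := by
  induction S, hS using Set.Finite.induction_on with
  | empty => exact ⟨fun _ => 0, ⟨TP.const 0, fun _ _ _ => (mul_zero _).symm⟩, fun _ _ => by simp⟩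
  | @insert a S _ _ ih =>
    obtain ⟨r, hr, k⟩ := ih
    refine ⟨fun ξ => max (f a ξ) (r ξ), ⟨(hf a).1.max hr.1, fun ξ s hs => ?_⟩, fun ξ t => ⟨?_, ?_⟩⟩
    · simp only [(hf a).2 ξ s hs, hr.2 ξ s hs, mul_max_of_nonneg _ _ hs]
    · rw [max_le_iff, (k ξ t).1, forall_mem_insert, and_left_comm]
    · rw [max_lt_iff, (k ξ t).2, forall_mem_insert, and_left_comm]

theorem yc2_split (q : Rn 2) (s t : ℝ) : mk3 q (s + t) = mk3 q s + t • (Pi.single 2 1 : Rn 3) := by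
  ext i
  fin_cases i <;> simp [mk3]

theorem yc2_hom {f : Rn 3 → ℝ} (hf : Hom f) (Λ : Rn 3 ≃L[ℝ] Rn 3) : Hom fun q => f (Λ (mk3 q 0)) := by
  refine ⟨hf.1.comp ((TP.clm (Λ : Rn 3 →L[ℝ] Rn 3)).comp (TP.id'.mk3 (TP.const 0))),
    fun q s hs => ?_⟩
  have e := mk3_smul s q 0
  rw [mul_zero] at e
  simp only [e, map_smul, hf.2 _ s hs]

namespace Cx
variable {V : Set (Rn 3)} {X : Cx V} {c c' : Fin 4 → Set (Rn 3)} {w w' T T' : Rn 4}
  {y y' z z' : Rn 3} {v v' : Set (Rn 3)} {d e : Fin 4}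
variable {Hi Md : Finset (Fin 4)} {α β : Set (Rn 3) → ℝ} {A : Set (Rn 3)}

theorem yc2_int {Ψ : Rn 3 → Rn 3} {μ : Rn 3 → ℝ} {e ξ : Rn 3} (hΨ : LH Ψ) (hμ : YGr μ e)
    (h : ∀ ξ, Ψ ξ ∈ X.Rg α β → (Ψ ξ ∈ A ↔ 0 ≤ μ ξ)) (hξ : Ψ ξ ∈ X.oRg α β) :
    Ψ ξ ∈ interior A ↔ 0 < μ ξ := by
  constructor
  · intro k
    obtain ⟨δ, h0, h1, h2⟩ := kb_near (hΨ.tp.continuous.continuousAt.preimage_mem_nhds
      (((X.oRg_open α β).inter isOpen_interior).mem_nhds ⟨hξ, k⟩)) (-e)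
    have h3 := (h _ (X.oRg_sub α β h1)).1 (interior_subset h2)
    rw [smul_neg, ← neg_smul, hμ.2] at h3
    linarith
  · intro k
    refine mem_interior.2 ⟨X.oRg α β ∩ {y | 0 < μ (invFun Ψ y)}, fun y hy => ?_,
      (X.oRg_open α β).inter (isOpen_lt continuous_const (hμ.1.1.comp hΨ.tpi).continuous),
      hξ, by simpa only [mem_ofPred_eq, hΨ.li] using k⟩
    obtain ⟨η, rfl⟩ := hΨ.1.2 y
    have h2 := hy.2
    rw [mem_ofPred_eq, hΨ.li] at h2
    exact (h _ (X.oRg_sub α β hy.1)).2 h2.le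

theorem yc2_col {Ψ : Rn 3 → Rn 3} {U : Set (Rn 3) → Rn 3 → ℝ} {x : Set (Rn 3) → ℝ} {u : Rn 3}
    {j : Fin 4} (h : X.Hch c {j} α β A Ψ U x u) :
    ∃ (θ : Rn 3 → Rn 3) (R bR : Set (Rn 2)), LH θ ∧ Ball R bR ∧
      (∀ q ∈ R, ∀ s ∈ Icc (α (c j)) (β (c j)), θ (mk3 q s) ∈ X.Rg α β ∩ A ∧
        X.tt (c j) (θ (mk3 q s)) = s ∧ ∀ s' ∈ Icc (α (c j)) (β (c j)), ∀ v, v ≠ c j →
          X.tt v (θ (mk3 q s')) = X.tt v (θ (mk3 q s))) ∧
      (∀ z ∈ X.Rg α β ∩ A, ∃ q ∈ R, θ (mk3 q (X.tt (c j) z)) = z) ∧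
      ∀ q ∈ R, ∀ s ∈ Ioo (α (c j)) (β (c j)),
        (q ∉ bR ↔ θ (mk3 q s) ∈ X.oRg α β ∩ interior A) := by
  have mv := h.mv j (Finset.mem_singleton_self j)
  have iv : ∀ v, v ≠ c j → ∀ ξ (s : ℝ), U v (ξ + s • u) = U v ξ := fun v hv =>
    h.inv v fun i hi => Finset.mem_singleton.1 hi ▸ hv.symm
  have u0 : u ≠ 0 := fun k => by simpa [k] using mv 0 1
  obtain ⟨Λ, hΛ⟩ := exists_frame u0 2
  have sp : ∀ q (t : ℝ), Λ (mk3 q t) = Λ (mk3 q 0) + t • u := fun q t => by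
    rw [← hΛ, ← map_smul, ← map_add, ← yc2_split, zero_add]
  obtain ⟨G, hG, eG⟩ : ∃ G : Rn 3 → Rn 3, LH G ∧ ∀ q s,
      G (mk3 q s) = Λ (mk3 q 0) + (s - x (c j) - U (c j) (Λ (mk3 q 0))) • u := by
    have k := lh_shear (h := fun z => -x (c j) - U (c j) (Λ (mk3 (pj3 z) 0)))
      ((TP.const _).sub ((yc2_hom (h.hom (c j)) Λ).1.comp tp_pj3)) (w := Pi.single 2 1) fun z s => by
        rw [← mk3_pj3 z, ← yc2_split, pj3_mk3, pj3_mk3]
    refine ⟨_, (lh_aff Λ 0).comp k, fun q s => ?_⟩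
    simp only [comp_apply, pj3_mk3, add_zero]
    rw [← yc2_split, sp]
    congr 2
    ring
  have eJ : ∀ q s, x (c j) + U (c j) (G (mk3 q s)) = s := fun q s => by
    rw [eG, mv]
    ring
  have eV : ∀ q s v, v ≠ c j → U v (G (mk3 q s)) = U v (Λ (mk3 q 0)) := fun q s v hv => by
    rw [eG, iv v hv]
  have re := fun v ξ => yc2_real (t := U v ξ)
    ((h.ctr v).1.imp_right fun k => ⟨k.1, k.2.1, k.2.2 ξ⟩)
    ((h.ctr v).2.imp_right fun k => ⟨k.1, k.2.1, k.2.2 ξ⟩)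
  obtain ⟨r, hr, kr⟩ := yc2_max (h.fin.subset (sdiff_subset (t := {c j})))
    (f := fun v q => max (U v (Λ (mk3 q 0)) / (β v - x v)) (-U v (Λ (mk3 q 0)) / (x v - α v)))
    fun v => by
      have k := yc2_hom (h.hom v) Λ
      refine ⟨(k.1.div_const _).max (k.1.neg.div_const _), fun q s hs => ?_⟩
      have k2 := k.2 q s hs
      simp only at k2 ⊢
      rw [k2, mul_max_of_nonneg _ _ hs, mul_div_assoc, ← mul_neg, mul_div_assoc]
  have all : ∀ (p : ℝ → Prop) (q : Rn 2), p 0 → ((∀ v ∈ {v | U v ≠ 0} \ {c j},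
      p (max (U v (Λ (mk3 q 0)) / (β v - x v)) (-U v (Λ (mk3 q 0)) / (x v - α v)))) ↔ ∀ v, v ≠ c j →
      p (max (U v (Λ (mk3 q 0)) / (β v - x v)) (-U v (Λ (mk3 q 0)) / (x v - α v)))) := by
    refine fun p q p0 => ⟨fun k v hv => ?_, fun k v hv => k v hv.2⟩
    by_cases e : U v = 0
    · simpa [e] using p0
    · exact k v ⟨e, hv⟩
  have gr : Gauge r := hr.gauge fun q hq => by
    by_contra k
    have k1 := (all (· ≤ 0) q le_rfl).1 ((kr q 0).1.1 (not_lt.1 k)).2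
    have k2 := h.ker (G (mk3 q (x (c j)))) fun v => by
      by_cases hv : v = c j
      · rw [hv]
        linarith [eJ q (x (c j))]
      · rw [eV _ _ v hv]
        exact (re v _).2.2 (k1 v hv)
    rw [eG, ← sp, map_eq_zero_iff _ Λ.injective] at k2
    refine hq ((pj3_mk3 q _).symm.trans ((congrArg pj3 k2).trans ?_))
    ext i
    fin_cases i <;> rfl
  have kR : ∀ q, ∀ s ∈ Icc (α (c j)) (β (c j)), r q ≤ 1 ↔ Ψ (G (mk3 q s)) ∈ X.Rg α β := by
    intro q s hs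
    rw [(kr q 1).1, all (· ≤ 1) q zero_le_one]
    constructor
    · intro k
      have k1 : ∀ v, x v + U v (G (mk3 q s)) ∈ Icc (α v) (β v) := fun v => by
        by_cases hv : v = c j
        · rwa [hv, eJ]
        · rw [eV _ _ v hv]
          exact (re v _).1.1 (k.2 v hv)
      obtain ⟨k2, k3⟩ := h.fwd _ k1
      exact ⟨k2, fun v => k3 v ▸ k1 v⟩
    · refine fun k => ⟨zero_le_one, fun v hv => (re v _).1.2 ?_⟩
      rw [← eV q s v hv, ← h.bwd _ k]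
      exact k.2 v
  have kO : ∀ q, ∀ s ∈ Ioo (α (c j)) (β (c j)), r q ≤ 1 →
      (r q ≠ 1 ↔ Ψ (G (mk3 q s)) ∈ X.oRg α β) := by
    intro q s hs hq
    have k := (kR q s (Ioo_subset_Icc_self hs)).1 hq
    rw [← hq.lt_iff_ne, (kr q 1).2, all (· < 1) q zero_lt_one]
    constructor
    · refine fun k1 => ⟨k.1, fun v => ?_⟩
      rw [h.bwd _ k]
      by_cases hv : v = c j
      · rw [hv, eJ]
        exact ⟨Or.inl hs.1, Or.inl hs.2⟩
      · rw [eV _ _ v hv]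
        exact (re v _).2.1.1 (k1.2 v hv)
    · refine fun k1 => ⟨zero_lt_one, fun v hv => (re v _).2.1.2 ?_⟩
      rw [← eV q s v hv, ← h.bwd _ k]
      exact k1.2 v
  suffices key : ∃ R bR : Set (Rn 2), Ball R bR ∧
      (∀ q, ∀ s ∈ Icc (α (c j)) (β (c j)), q ∈ R ↔ Ψ (G (mk3 q s)) ∈ X.Rg α β ∩ A) ∧
      ∀ q ∈ R, ∀ s ∈ Ioo (α (c j)) (β (c j)),
        (q ∉ bR ↔ Ψ (G (mk3 q s)) ∈ X.oRg α β ∩ interior A) by
    obtain ⟨R, bR, k1, k2, k3⟩ := key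
    refine ⟨Ψ ∘ G, R, bR, h.lh.comp hG, k1, fun q hq s hs => ⟨(k2 q s hs).1 hq, ?_,
      fun s' hs' v hv => ?_⟩, fun z hz => ?_, k3⟩
    · exact (h.bwd _ ((k2 q s hs).1 hq).1 _).trans (eJ q s)
    · simp only [comp_apply]
      rw [h.bwd _ ((k2 q s hs).1 hq).1, h.bwd _ ((k2 q s' hs').1 hq).1, eV _ _ v hv, eV _ _ v hv]
    · obtain ⟨y, rfl⟩ := (h.lh.comp hG).1.2 z
      rw [← mk3_pj3 y, comp_apply] at hz ⊢
      have e := (h.bwd _ hz.1 _).trans (eJ (pj3 y) (y 2))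
      rw [e]
      exact ⟨pj3 y, (k2 _ _ (e ▸ hz.1.2 (c j))).2 hz, rfl⟩
  rcases h.side with k | ⟨μ, e, hμ, μu, k⟩
  · refine ⟨{q | r (q - 0) ≤ 1}, _, gauge_ball gr 0, fun q s hs => ?_, fun q hq s hs => ?_⟩
    · rw [mem_ofPred_eq, sub_zero, kR q s hs, inter_eq_left.2 k]
    · rw [mem_ofPred_eq, sub_zero] at hq ⊢
      rw [inter_eq_left.2 (interior_maximal ((X.oRg_sub α β).trans k) (X.oRg_open α β))]
      exact kO q s hs hq
  · have eμ : ∀ q s, μ (G (mk3 q s)) = μ (Λ (mk3 q 0)) := fun q s => by rw [eG, μu]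
    have g2 : YGr (fun q => μ (Λ (mk3 q 0))) (pj3 (Λ.symm e)) := by
      refine ⟨yc2_hom hμ.1 Λ, fun q s => ?_⟩
      have e1 := mk3_add q (s • pj3 (Λ.symm e)) 0 (s * Λ.symm e 2)
      rw [mk3_smul, mk3_pj3] at e1
      have e2 := congrArg (fun z => μ (Λ z)) e1
      simp only [map_add, map_smul, ContinuousLinearEquiv.apply_symm_apply, hμ.2] at e2
      rw [sp, μu] at e2
      exact e2
    refine ⟨_, _, gauge_half gr g2, fun q s hs => ?_, fun q hq s hs => ?_⟩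
    · rw [mem_ofPred_eq, kR q s hs, ← eμ q s]
      exact and_congr_right fun m => (k _ m).symm
    · rw [mem_ofPred_eq] at hq ⊢
      rw [mem_inter_iff, and_congr_right (yc2_int h.lh hμ k), ← kO q s hs hq.1, eμ, hq.2.lt_iff_ne']
      tauto

end Cx

end BEp
end
end

-- merged part: Pool.Agent.Work.MP_f0515e_an.P3.YCell
section
/-! Handles are balls; column charts. -/

open Set Metric Filter Topology Function BEv MeasureTheory
open scoped NNReal ENNReal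

noncomputable section
namespace BEp

namespace Cx
variable {V : Set (Rn 3)} {X : Cx V} {c c' : Fin 4 → Set (Rn 3)} {w w' T T' : Rn 4}
  {y y' z z' : Rn 3} {v v' : Set (Rn 3)} {d e : Fin 4}
variable {Hi Md : Finset (Fin 4)} {α β : Set (Rn 3) → ℝ} {A : Set (Rn 3)}

theorem Hch.ball {Ψ : Rn 3 → Rn 3} {U : Set (Rn 3) → Rn 3 → ℝ} {x : Set (Rn 3) → ℝ} {u : Rn 3}
    (h : X.Hch c Md α β A Ψ U x u) :
    Ball (X.Rg α β ∩ A) ((X.Rg α β ∩ A) \ (X.oRg α β ∩ interior A)) :=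
  YCell1_ball h

theorem Hch.col {Ψ : Rn 3 → Rn 3} {U : Set (Rn 3) → Rn 3 → ℝ} {x : Set (Rn 3) → ℝ} {u : Rn 3}
    {j : Fin 4} (h : X.Hch c {j} α β A Ψ U x u) :
    ∃ (θ : Rn 3 → Rn 3) (R bR : Set (Rn 2)), LH θ ∧ Ball R bR ∧
      (∀ q ∈ R, ∀ s ∈ Icc (α (c j)) (β (c j)), θ (mk3 q s) ∈ X.Rg α β ∩ A ∧
        X.tt (c j) (θ (mk3 q s)) = s ∧ ∀ s' ∈ Icc (α (c j)) (β (c j)), ∀ v, v ≠ c j →
          X.tt v (θ (mk3 q s')) = X.tt v (θ (mk3 q s))) ∧
      (∀ z ∈ X.Rg α β ∩ A, ∃ q ∈ R, θ (mk3 q (X.tt (c j) z)) = z) ∧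
      ∀ q ∈ R, ∀ s ∈ Ioo (α (c j)) (β (c j)),
        (q ∉ bR ↔ θ (mk3 q s) ∈ X.oRg α β ∩ interior A) :=
  yc2_col h

theorem cell_ball (h : X.Hty c Hi Md α β) (hA : Side A) (hs : X.Sat c Hi A)
    (hc : ∀ d ∈ Hi ∪ Md, c d ⊆ A) :
    Ball (X.Rg α β ∩ A) ((X.Rg α β ∩ A) \ (X.oRg α β ∩ interior A)) :=
  let ⟨_, _, _, _, k⟩ := hchart h hA hs hc
  k.ball

theorem col_chart {j : Fin 4} (h : X.Hty c Hi {j} α β) (hA : Side A) (hs : X.Sat c Hi A)
    (hc : ∀ d ∈ Hi ∪ {j}, c d ⊆ A) :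
    ∃ (θ : Rn 3 → Rn 3) (R bR : Set (Rn 2)), LH θ ∧ Ball R bR ∧
      (∀ q ∈ R, ∀ s ∈ Icc (α (c j)) (β (c j)), θ (mk3 q s) ∈ X.Rg α β ∩ A ∧
        X.tt (c j) (θ (mk3 q s)) = s ∧ ∀ s' ∈ Icc (α (c j)) (β (c j)), ∀ v, v ≠ c j →
          X.tt v (θ (mk3 q s')) = X.tt v (θ (mk3 q s))) ∧
      (∀ z ∈ X.Rg α β ∩ A, ∃ q ∈ R, θ (mk3 q (X.tt (c j) z)) = z) ∧
      ∀ q ∈ R, ∀ s ∈ Ioo (α (c j)) (β (c j)),
        (q ∉ bR ↔ θ (mk3 q s) ∈ X.oRg α β ∩ interior A) :=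
  let ⟨_, _, _, _, k⟩ := hchart h hA hs hc
  k.col

theorem api_clm (X : Cx V) {g : ℝ} (h0 : 0 < g) (h1 : g ≤ 1 / 8) (σ : Set (Set (Rn 3)))
    (j : Set (Rn 3)) (y : Rn 3) (hy : y ∈ V) (hj : X.tt j y ∈ Icc (g / 8) (1 - g / 8))
    (hp : Ptn X.tt σ {j} (3 / 4) y) : ∃ (χ : Rn 3 → Rn 3) (R : Set (Rn 2)), LH χ ∧ Poly R ∧
    (∀ u ∈ R, ∀ s ∈ Icc (g / 8) (1 - g / 8), χ (mk3 u s) ∈ V ∧ X.tt j (χ (mk3 u s)) = s ∧
      Ptn X.tt σ {j} (3 / 4) (χ (mk3 u s)) ∧ ∀ s' ∈ Icc (g / 8) (1 - g / 8), ∀ v, v ≠ j →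
        X.tt v (χ (mk3 u s')) = X.tt v (χ (mk3 u s))) ∧
    ∀ z ∈ V, X.tt j z ∈ Icc (g / 8) (1 - g / 8) → Ptn X.tt σ {j} (3 / 4) z →
      ∃ u ∈ R, χ (mk3 u (X.tt j z)) = z := by
  classical
  have hr := X.rep hy
  obtain ⟨k, rfl⟩ := hr.of_pos (lt_of_lt_of_le (by positivity) hj.1)
  let α : Set (Rn 3) → ℝ := fun v => if v = X.fl y k then g / 8 else if v ∈ σ then 1 / 4 else 0
  let β : Set (Rn 3) → ℝ := fun v => if v = X.fl y k then 1 - g / 8 else if v ∈ σ then 1 else 3 / 4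
  have a1 : α (X.fl y k) = g / 8 := if_pos rfl
  have b1 : β (X.fl y k) = 1 - g / 8 := if_pos rfl
  have a2 (v : Set (Rn 3)) (k1 : v ≠ X.fl y k) (k2 : v ∈ σ) : α v = 1 / 4 ∧ β v = 1 :=
    ⟨(if_neg k1).trans (if_pos k2), (if_neg k1).trans (if_pos k2)⟩
  have a3 (v : Set (Rn 3)) (k1 : v ≠ X.fl y k) (k2 : v ∉ σ) : α v = 0 ∧ β v = 3 / 4 :=
    ⟨(if_neg k1).trans (if_neg k2), (if_neg k1).trans (if_neg k2)⟩
  have hR (z : Rn 3) : z ∈ X.Rg α β ∩ univ ↔ z ∈ V ∧ X.tt (X.fl y k) z ∈ Icc (g / 8) (1 - g / 8) ∧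
      Ptn X.tt σ {X.fl y k} (3 / 4) z := by
    rw [inter_univ]
    refine and_congr_right fun _ => ⟨fun k1 => ⟨?_, fun v hv => ⟨fun k2 => ?_,
      fun k2 => ?_⟩⟩, fun k1 v => ?_⟩
    · rw [← b1, ← a1]
      exact k1 _
    · have k3 := (k1 v).1
      rw [(a2 v hv k2).1] at k3
      linarith only [k3]
    · exact (k1 v).2.trans_eq (a3 v hv k2).2
    · by_cases hv : v = X.fl y k
      · rw [hv, a1, b1]
        exact k1.1
      · by_cases k2 : v ∈ σ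
        · rw [(a2 v hv k2).1, (a2 v hv k2).2]
          exact ⟨by linarith only [k1, hv, k2, (k1.2 v hv).1 k2], (X.tt_mem v z).2⟩
        · rw [(a3 v hv k2).1, (a3 v hv k2).2]
          exact ⟨(X.tt_mem v z).1, (k1.2 v hv).2 k2⟩
  have ht : X.Hty (X.fl y) (Finset.univ.filter fun d => X.fl y d ≠ X.fl y k ∧ X.fl y d ∈ σ) {k}
      α β := by
    refine ⟨hr.1, ?_, ?_, (Finset.card_singleton k).le, fun d hd => ?_, fun d hd => ?_,
      fun v hv => ?_⟩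
    · obtain ⟨v, hv⟩ := X.tt_one hy
      obtain ⟨d, rfl⟩ := hr.of_pos (zero_lt_one.trans_eq hv.symm)
      have k1 : X.fl y d ≠ X.fl y k := fun e => by
        rw [e] at hv
        linarith only [h0, hv, hj, hj.2]
      refine ⟨d, Finset.mem_filter.2 ⟨Finset.mem_univ d, k1, by_contra fun k2 => ?_⟩⟩
      linarith only [h0, h1, hv, hp, k1, k2, (hp _ k1).2 k2]
    · exact Finset.disjoint_singleton_right.2 fun k1 => (Finset.mem_filter.1 k1).2.1 rfl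
    · obtain ⟨-, k1, k2⟩ := Finset.mem_filter.1 hd
      rw [(a2 _ k1 k2).1, (a2 _ k1 k2).2]
      norm_num
    · rw [Finset.mem_singleton.1 hd, a1, b1]
      exact ⟨by positivity, by linarith only [h0, h1], by linarith only [h0]⟩
    · have k1 : v ≠ X.fl y k := (hv k (Finset.mem_union_right _ (Finset.mem_singleton_self k))).symm
      have k2 : v ∉ σ := fun k2 => by
        obtain ⟨d, rfl⟩ := hr.of_pos (v := v) (by linarith only [h0, h1, hp, k1, k2, (hp v k1).1 k2])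
        exact hv d (Finset.mem_union_left _ (Finset.mem_filter.2 ⟨Finset.mem_univ d, k1, k2⟩)) rfl
      rw [(a3 v k1 k2).1, (a3 v k1 k2).2]
      norm_num
  obtain ⟨θ, R, bR, t1, t2, t3, t4, -⟩ := col_chart ht side_univ (fun _ _ _ => subset_univ _)
    fun _ _ => subset_univ _
  rw [a1, b1] at t3
  refine ⟨θ, R, t1, t2.poly, fun u hu s hs => ?_, fun z hz k1 k2 => t4 z ((hR z).2 ⟨hz, k1, k2⟩)⟩
  obtain ⟨k1, k2, k3⟩ := t3 u hu s hs
  exact ⟨((hR _).1 k1).1, k2, ((hR _).1 k1).2.2, k3⟩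

end Cx

end BEp
end
end

-- merged part: Pool.Agent.Work.MP_f0515e_an.P3.YSys1
section
/-! Handles around a simplex: levels, cells and walls. -/

open Set Metric Filter Topology Function BEv MeasureTheory
open scoped NNReal ENNReal

noncomputable section
namespace BEp

/-- First level, last level, and the end of the gap after a level. -/
structure YLv {ν : Type} (A : ν → Set ℝ) (ε fi la : ν → ℝ) (nx : ν → ℝ → ℝ) : Prop where
  fi_mem : ∀ v, fi v ∈ A v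
  la_mem : ∀ v, la v ∈ A v
  fi_le : ∀ v, ∀ a ∈ A v, fi v ≤ a
  le_la : ∀ v, ∀ a ∈ A v, a ≤ la v
  lt_nx : ∀ v, ∀ a ∈ A v, a + ε v < nx v a
  nx_la : ∀ v, nx v (la v) = 1
  nx_mem : ∀ v, ∀ a ∈ A v, a ≠ la v → nx v a + ε v ∈ A v
  nx_le : ∀ v, ∀ a ∈ A v, ∀ a' ∈ A v, a < a' → nx v a ≤ a' - ε v

theorem ys_max {B : Set ℝ} (hf : B.Finite) (hn : B.Nonempty) : ∃ a ∈ B, ∀ b ∈ B, b ≤ a :=
  exists_max_image B id hf hn

theorem ys_min {B : Set ℝ} (hf : B.Finite) (hn : B.Nonempty) : ∃ a ∈ B, ∀ b ∈ B, a ≤ b :=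
  exists_min_image B id hf hn

theorem exists_ylv {ν : Type} {g : ℝ} (h0 : 0 < g) {A : ν → Set ℝ} {ε : ν → ℝ} (hA : XLev g A ε) :
    ∃ fi la nx, YLv A ε fi la nx := by
  choose fi f1 f2 using fun v => ys_min (hA.fin v) (hA.ne v)
  choose la l1 l2 using fun v => ys_max (hA.fin v) (hA.ne v)
  have key : ∀ v a, ∃ n : ℝ, (a ∈ A v → a + ε v < n) ∧ (a = la v → n = 1) ∧
      (a ∈ A v → a ≠ la v → n + ε v ∈ A v) ∧ (a ∈ A v → ∀ a' ∈ A v, a < a' → n ≤ a' - ε v) := by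
    intro v a
    by_cases h : a < la v
    · obtain ⟨b, ⟨b1, b2⟩, b3⟩ := ys_min ((hA.fin v).subset (sep_subset _ fun b => a < b))
        ⟨la v, l1 v, h⟩
      exact ⟨b - ε v, fun ha => hA.dis v a ha b b1 b2, fun e => absurd e h.ne,
        fun _ _ => by rwa [sub_add_cancel], fun _ a' ha' h' => sub_le_sub_right (b3 a' ⟨ha', h'⟩) _⟩
    · exact ⟨1, fun ha => by linarith [(hA.inn v a ha).2], fun _ => rfl,
        fun ha e => absurd ((l2 v a ha).lt_of_ne e) h,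
        fun _ a' ha' h' => absurd (h'.trans_le (l2 v a' ha')) h⟩
  choose nx n1 n2 n3 n4 using key
  exact ⟨fi, la, nx, f1, l1, f2, l2, n1, fun v => n2 v _ rfl, n3, n4⟩

namespace Cx
variable {V : Set (Rn 3)} {X : Cx V} {c : Fin 4 → Set (Rn 3)} {y : Rn 3} {j : Set (Rn 3)}
  {g : ℝ} {A : Set (Rn 3) → Set ℝ} {ε fi la : Set (Rn 3) → ℝ} {nx : Set (Rn 3) → ℝ → ℝ}
  {m : ℕ} {σ : Set (Set (Rn 3))} {B : Set (Rn 3)}

open Classical in
theorem ys_hty (hc : X.Fl c) {τ : Set (Set (Rn 3))} (hτ : τ.Nonempty) (hs : τ ⊆ range c)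
    {Md : Finset (Fin 4)} {α β : Set (Rn 3) → ℝ} (h1 : Md.card ≤ 1) (hd : ∀ d ∈ Md, c d ∉ τ)
    (hi : ∀ v ∈ τ, 0 < α v ∧ α v < 1 ∧ β v = 1)
    (md : ∀ d ∈ Md, 0 < α (c d) ∧ α (c d) < β (c d) ∧ β (c d) < 1)
    (lo : ∀ v, v ∉ τ → (∀ d ∈ Md, c d ≠ v) → α v = 0 ∧ 0 < β v ∧ β v < 1) :
    X.Hty c (Finset.univ.filter fun d => c d ∈ τ) Md α β := by
  refine ⟨hc, ?_, Finset.disjoint_right.2 fun d h k => hd d h (Finset.mem_filter.1 k).2, h1,
    fun d h => hi _ (Finset.mem_filter.1 h).2, md, fun v hv => lo v (fun k => ?_)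
      fun d h => hv d (Finset.mem_union_right _ h)⟩
  · obtain ⟨v, hv⟩ := hτ
    obtain ⟨d, rfl⟩ := hs hv
    exact ⟨d, Finset.mem_filter.2 ⟨Finset.mem_univ _, hv⟩⟩
  · obtain ⟨d, rfl⟩ := hs k
    exact hv d (Finset.mem_union_left _ (Finset.mem_filter.2 ⟨Finset.mem_univ _, k⟩)) rfl

open Classical in
theorem ys_sat {τ : Set (Set (Rn 3))} (hσ : σ ⊆ τ) (hs : τ ⊆ range c)
    (sat : ∀ y ∈ B, (∀ v ∈ σ, 0 < X.tt v y) → X.M.cell y ⊆ B) :
    X.Sat c (Finset.univ.filter fun d => c d ∈ τ) B := fun y hy h => sat y hy fun v hv => by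
  obtain ⟨d, rfl⟩ := hs (hσ hv)
  exact h d (Finset.mem_filter.2 ⟨Finset.mem_univ _, hσ hv⟩)

open Classical in
/-- Lower bounds of the basic handle. -/
def ysα (σ : Set (Set (Rn 3))) (ε la : Set (Rn 3) → ℝ) (v : Set (Rn 3)) : ℝ :=
  if v ∈ σ then la v + ε v else 0

open Classical in
/-- Upper bounds of the basic handle. -/
def ysβ (σ : Set (Set (Rn 3))) (ε fi : Set (Rn 3) → ℝ) (v : Set (Rn 3)) : ℝ :=
  if v ∈ σ then 1 else fi v - ε v

theorem ys_in (h0 : 0 < g) (hA : XLev g A ε) {v : Set (Rn 3)} {a : ℝ} (ha : a ∈ A v) :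
    0 < a - ε v ∧ a - ε v < a + ε v ∧ a + ε v < 1 := by
  have := hA.inn v a ha
  have := hA.pos v
  refine ⟨?_, ?_, ?_⟩ <;> linarith

theorem ys_hi (h0 : 0 < g) (hA : XLev g A ε) (hL : YLv A ε fi la nx) {v : Set (Rn 3)}
    (hv : v ∈ σ) : ysα σ ε la v = la v + ε v ∧ ysβ σ ε fi v = 1 ∧ 0 < la v + ε v ∧
      la v + ε v < 1 := by
  have := ys_in h0 hA (hL.la_mem v)
  exact ⟨if_pos hv, if_pos hv, by linarith, this.2.2⟩

theorem ys_lo (h0 : 0 < g) (hA : XLev g A ε) (hL : YLv A ε fi la nx) {v : Set (Rn 3)}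
    (hv : v ∉ σ) : ysα σ ε la v = 0 ∧ ysβ σ ε fi v = fi v - ε v ∧ 0 < fi v - ε v ∧
      fi v - ε v < 1 := by
  have := ys_in h0 hA (hL.fi_mem v)
  exact ⟨if_neg hv, if_neg hv, this.1, by linarith⟩

theorem ys_one (h0 : 0 < g) (hA : XLev g A ε) (hL : YLv A ε fi la nx) (v : Set (Rn 3)) (s : ℝ) :
    ((ysα σ ε la v < s ∨ ysα σ ε la v = 0) ∧ (s < ysβ σ ε fi v ∨ ysβ σ ε fi v = 1)) ↔
      ∀ a ∈ A v, (v ∈ σ → a + ε v < s) ∧ (v ∉ σ → s < a - ε v) := by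
  by_cases hv : v ∈ σ
  · obtain ⟨e1, e2, e3, -⟩ := ys_hi h0 hA hL hv
    rw [e1, e2]
    refine ⟨fun h a ha => ⟨fun _ => ?_, fun k => absurd hv k⟩,
      fun h => ⟨Or.inl ((h _ (hL.la_mem v)).1 hv), Or.inr rfl⟩⟩
    linarith [hL.le_la v a ha, h.1.resolve_right e3.ne']
  · obtain ⟨e1, e2, -, e3⟩ := ys_lo h0 hA hL hv
    rw [e1, e2]
    refine ⟨fun h a ha => ⟨fun k => absurd k hv, fun _ => ?_⟩,
      fun h => ⟨Or.inr rfl, Or.inl ((h _ (hL.fi_mem v)).2 hv)⟩⟩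
    linarith [hL.fi_le v a ha, h.2.resolve_right e3.ne]

theorem ys_oRg0 (h0 : 0 < g) (hA : XLev g A ε) (hL : YLv A ε fi la nx) (hm : ∀ v ∈ σ, dm v ≠ m) :
    X.oRg (ysα σ ε la) (ysβ σ ε fi) = {y | y ∈ Rg1 V X.tt A ε σ {v | dm v = m} ∧
      ∀ v, dm v = m → X.tt v y < fi v - ε v} := by
  ext y
  constructor
  · rintro ⟨hy, h⟩
    exact ⟨⟨hy, fun v _ => (ys_one h0 hA hL v _).1 (h v)⟩,
      fun v hv => ((ys_one h0 hA hL v _).1 (h v) _ (hL.fi_mem v)).2 fun k => hm v k hv⟩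
  · rintro ⟨⟨hy, h⟩, h'⟩
    refine ⟨hy, fun v => (ys_one h0 hA hL v _).2 ?_⟩
    by_cases hv : dm v = m
    · exact fun a ha => ⟨fun k => absurd hv (hm v k),
        fun _ => by linarith [h' v hv, hL.fi_le v a ha]⟩
    · exact h v hv

open Classical in
theorem ys_oRg (h0 : 0 < g) (hA : XLev g A ε) (hL : YLv A ε fi la nx) (hm : ∀ v ∈ σ, dm v ≠ m)
    (hj : dm j = m) {p q : ℝ} (hp : 0 < p) :
    X.oRg (update (ysα σ ε la) j p) (update (ysβ σ ε fi) j q) =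
      {y | y ∈ Rg1 V X.tt A ε σ {v | dm v = m} ∧ p < X.tt j y ∧ (X.tt j y < q ∨ q = 1)} := by
  ext y
  constructor
  · rintro ⟨hy, h⟩
    have k := h j
    rw [update_self, update_self] at k
    refine ⟨⟨hy, fun v hv => (ys_one h0 hA hL v _).1 ?_⟩, k.1.resolve_right hp.ne', k.2⟩
    have e : v ≠ j := fun e => hv (e ▸ hj)
    have := h v
    rwa [update_of_ne e, update_of_ne e] at this
  · rintro ⟨⟨hy, h⟩, h1, h2⟩
    refine ⟨hy, fun v => ?_⟩
    by_cases e : v = j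
    · subst e
      rw [update_self, update_self]
      exact ⟨Or.inl h1, h2⟩
    rw [update_of_ne e, update_of_ne e]
    refine (ys_one h0 hA hL v _).2 ?_
    by_cases hv : dm v = m
    · refine fun a ha => ⟨fun k => absurd hv (hm v k), fun _ => ?_⟩
      have : ¬ 0 < X.tt v y := fun k => e (tt_col k (hp.trans h1) (hv.trans hj.symm))
      linarith only [this, h0, hA, ha, (ys_in h0 hA ha).1]
    · exact h v hv

theorem ys_diff (α β : Set (Rn 3) → ℝ) (B : Set (Rn 3)) :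
    (X.Rg α β ∩ B) \ ((X.Rg α β ∩ B) \ (X.oRg α β ∩ interior B)) = X.oRg α β ∩ interior B :=
  sdiff_sdiff_cancel_left (inter_subset_inter (X.oRg_sub α β) interior_subset)

theorem ys_cell0 (h0 : 0 < g) (hA : XLev g A ε) (hL : YLv A ε fi la nx) (hσ : σ.Nonempty)
    (hm : ∀ v ∈ σ, dm v ≠ m) (hc : X.Fl c) (hs : σ ⊆ range c) (hB : Side B)
    (sat : ∀ y ∈ B, (∀ v ∈ σ, 0 < X.tt v y) → X.M.cell y ⊆ B) (hin : ∀ v ∈ σ, v ⊆ B) :
    ∃ C bC, Ball C bC ∧ C \ bC = {y | y ∈ Rg1 V X.tt A ε σ {v | dm v = m} ∧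
      ∀ v, dm v = m → X.tt v y < fi v - ε v} ∩ interior B := by
  classical
  refine ⟨_, _, cell_ball (ys_hty hc hσ hs (Md := ∅) (α := ysα σ ε la) (β := ysβ σ ε fi) (by simp)
    (by simp) (fun v hv => ?_) (by simp) fun v hv _ => ?_) hB (ys_sat Subset.rfl hs sat)
    fun d hd => hin _ (by simpa using hd), by rw [ys_diff, ys_oRg0 h0 hA hL hm]⟩
  · obtain ⟨e1, e2, e3, e4⟩ := ys_hi h0 hA hL hv
    exact ⟨e1 ▸ e3, e1 ▸ e4, e2⟩
  · obtain ⟨e1, e2, e3, e4⟩ := ys_lo h0 hA hL hv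
    exact ⟨e1, e2 ▸ e3, e2 ▸ e4⟩

open Classical in
theorem ys_mid (h0 : 0 < g) (hA : XLev g A ε) (hL : YLv A ε fi la nx) (hσ : σ.Nonempty)
    (hm : ∀ v ∈ σ, dm v ≠ m) (hc : X.Fl c) (hs : σ ⊆ range c) {d : Fin 4} (hj : dm (c d) = m)
    {p q : ℝ} (hp : 0 < p) (hpq : p < q) (hq : q < 1) :
    X.Hty c (Finset.univ.filter fun d => c d ∈ σ) {d} (update (ysα σ ε la) (c d) p)
      (update (ysβ σ ε fi) (c d) q) := by
  refine ys_hty hc hσ hs (by simp) (fun e he => ?_) (fun v hv => ?_) (fun e he => ?_)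
    fun v hv hv' => ?_
  · rw [Finset.mem_singleton.1 he]
    exact fun k => hm _ k hj
  · have e : v ≠ c d := fun e => hm v hv (e ▸ hj)
    obtain ⟨e1, e2, e3, e4⟩ := ys_hi h0 hA hL hv
    rw [update_of_ne e, update_of_ne e]
    exact ⟨e1 ▸ e3, e1 ▸ e4, e2⟩
  · rw [Finset.mem_singleton.1 he, update_self, update_self]
    exact ⟨hp, hpq, hq⟩
  · have e : v ≠ c d := (hv' d (Finset.mem_singleton_self d)).symm
    obtain ⟨e1, e2, e3, e4⟩ := ys_lo h0 hA hL hv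
    rw [update_of_ne e, update_of_ne e]
    exact ⟨e1, e2 ▸ e3, e2 ▸ e4⟩

theorem ys_cell1 (h0 : 0 < g) (hA : XLev g A ε) (hL : YLv A ε fi la nx) (hσ : σ.Nonempty)
    (hm : ∀ v ∈ σ, dm v ≠ m) (hc : X.Fl c) (hs : insert j σ ⊆ range c) (hj : dm j = m)
    (hB : Side B) (sat : ∀ y ∈ B, (∀ v ∈ σ, 0 < X.tt v y) → X.M.cell y ⊆ B)
    (hin : ∀ v ∈ insert j σ, v ⊆ B) {p q : ℝ} (hp : 0 < p) (hpq : p < q) (hq : q ≤ 1) :
    ∃ C bC, Ball C bC ∧ C \ bC = {y | y ∈ Rg1 V X.tt A ε σ {v | dm v = m} ∧ p < X.tt j y ∧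
      (X.tt j y < q ∨ q = 1)} ∩ interior B := by
  classical
  have hs' : σ ⊆ range c := (subset_insert j σ).trans hs
  rcases hq.lt_or_eq with hq | rfl
  · obtain ⟨d, rfl⟩ := hs (mem_insert j σ)
    refine ⟨_, _, cell_ball (ys_mid h0 hA hL hσ hm hc hs' hj hp hpq hq) hB
      (ys_sat Subset.rfl hs' sat) fun e he => hin _ ?_, by rw [ys_diff, ys_oRg h0 hA hL hm hj hp]⟩
    rcases Finset.mem_union.1 he with he | he
    · exact Or.inr (Finset.mem_filter.1 he).2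
    · exact Or.inl (congrArg c (Finset.mem_singleton.1 he))
  · refine ⟨_, _, cell_ball (ys_hty hc (insert_nonempty j σ) hs (Md := ∅)
      (α := update (ysα σ ε la) j p) (β := update (ysβ σ ε fi) j 1) (by simp)
      (by simp) (fun v hv => ?_) (by simp) fun v hv _ => ?_) hB
      (ys_sat (subset_insert j σ) hs sat) fun d hd => hin _ (by simpa using hd),
      by rw [ys_diff, ys_oRg h0 hA hL hm hj hp]⟩
    · by_cases e : v = j
      · rw [e, update_self, update_self]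
        exact ⟨hp, hpq, rfl⟩
      · obtain ⟨e1, e2, e3, e4⟩ := ys_hi h0 hA hL (hv.resolve_left e)
        rw [update_of_ne e, update_of_ne e]
        exact ⟨e1 ▸ e3, e1 ▸ e4, e2⟩
    · have e : v ≠ j := fun e => hv (Or.inl e)
      obtain ⟨e1, e2, e3, e4⟩ := ys_lo h0 hA hL fun k => hv (Or.inr k)
      rw [update_of_ne e, update_of_ne e]
      exact ⟨e1, e2 ▸ e3, e2 ▸ e4⟩

theorem ys_lh (a : ℝ) {e : ℝ} (he : e ≠ 0) : LH fun x : Rn 3 => mk3 (pj3 x) (a + e * x 2) :=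
  pa2_of_inv (g := fun x : Rn 3 => mk3 (pj3 x) ((x 2 - a) / e))
    (tp_pj3.mk3 ((TP.const a).add ((TP.id'.apply 2).const_mul e)))
    (tp_pj3.mk3 (((TP.id'.apply 2).sub (TP.const a)).div_const e))
    (fun x => by simp [he]) fun x => by simp [mul_div_cancel₀ _ he]

theorem ys_wall (h0 : 0 < g) (hA : XLev g A ε) (hL : YLv A ε fi la nx) (hσ : σ.Nonempty)
    (hm : ∀ v ∈ σ, dm v ≠ m) (hc : X.Fl c) (hs : insert j σ ⊆ range c) (hj : dm j = m)
    (hB : Side B) (sat : ∀ y ∈ B, (∀ v ∈ σ, 0 < X.tt v y) → X.M.cell y ⊆ B)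
    (hin : ∀ v ∈ insert j σ, v ⊆ B) {a : ℝ} (ha : a ∈ A j) :
    ∃ (θ : Rn 3 → Rn 3) (R bR : Set (Rn 2)), LH θ ∧ Ball R bR ∧
      cN θ (R \ bR) = {y | y ∈ Rg1 V X.tt A ε σ {v | dm v = m} ∧ |X.tt j y - a| ≤ ε j} ∩
        interior B ∧
      (∀ x ∈ cN θ (R \ bR), ∀ s ∈ Icc (-1 : ℝ) 1, cf θ x s = X.sh j (a + ε j * s) x) ∧
      ∀ q ∈ R \ bR, ∀ s : ℝ, |ε j * s| < ε j + g / 2 →
        θ (mk3 q s) ∈ Rg1 V X.tt A ε σ {v | dm v = m} ∧ θ (mk3 q s) ∈ interior B ∧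
          X.tt j (θ (mk3 q s)) = a + ε j * s := by
  classical
  have hs' : σ ⊆ range c := (subset_insert j σ).trans hs
  obtain ⟨d, rfl⟩ := hs (mem_insert j σ)
  have i1 := hA.inn _ a ha
  have e0 := hA.pos (c d)
  have hp : 0 < a - ε (c d) - g / 2 := by linarith only [h0, i1]
  obtain ⟨θ, R, bR, k1, k2, k3, k4, k5⟩ := col_chart (ys_mid h0 hA hL hσ hm hc hs' hj hp
    (q := a + ε (c d) + g / 2) (by linarith only [h0, e0]) (by linarith)) hB (ys_sat Subset.rfl hs' sat)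
    fun e he => hin _ (by
      rcases Finset.mem_union.1 he with he | he
      · exact Or.inr (Finset.mem_filter.1 he).2
      · exact Or.inl (congrArg c (Finset.mem_singleton.1 he)))
  rw [ys_oRg h0 hA hL hm hj hp] at k5
  have k6 := X.oRg_sub (update (ysα σ ε la) (c d) (a - ε (c d) - g / 2))
    (update (ysβ σ ε fi) (c d) (a + ε (c d) + g / 2))
  rw [ys_oRg h0 hA hL hm hj hp] at k6
  rw [update_self, update_self] at k3 k5
  have hθ := k1.comp (ys_lh a e0.ne')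
  have ev : ∀ q s, (θ ∘ fun x : Rn 3 => mk3 (pj3 x) (a + ε (c d) * x 2)) (mk3 q s) =
      θ (mk3 q (a + ε (c d) * s)) := fun q s => by simp
  generalize (θ ∘ fun x : Rn 3 => mk3 (pj3 x) (a + ε (c d) * x 2)) = θ' at hθ ev
  have io : ∀ s : ℝ, |ε (c d) * s| < ε (c d) + g / 2 →
      a + ε (c d) * s ∈ Ioo (a - ε (c d) - g / 2) (a + ε (c d) + g / 2) := fun s h => by
    have := abs_lt.1 h
    constructor <;> linarith only [this]
  have sm : ∀ s : ℝ, |s| ≤ 1 → |ε (c d) * s| ≤ ε (c d) := fun s h => by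
    rw [abs_mul, abs_of_pos e0]
    exact mul_le_of_le_one_right e0.le h
  have t3 : ∀ q ∈ R \ bR, ∀ s : ℝ, |ε (c d) * s| < ε (c d) + g / 2 →
      θ' (mk3 q s) ∈ Rg1 V X.tt A ε σ {v | dm v = m} ∧ θ' (mk3 q s) ∈ interior B ∧
        X.tt (c d) (θ' (mk3 q s)) = a + ε (c d) * s := fun q hq s h => by
    rw [ev]
    have := (k5 q hq.1 _ (io s h)).1 hq.2
    exact ⟨this.1.1, this.2, (k3 q hq.1 _ (Ioo_subset_Icc_self (io s h))).2.1⟩
  refine ⟨θ', R, bR, hθ, k2, Subset.antisymm ?_ ?_, ?_, t3⟩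
  · rintro _ ⟨x, ⟨h1, h2⟩, rfl⟩
    obtain ⟨u1, u2, u3⟩ := t3 _ h1 (x 2) (by linarith only [h0, sm, h2, sm _ h2])
    rw [mk3_pj3] at u1 u2 u3
    refine ⟨⟨u1, ?_⟩, u2⟩
    rw [u3, add_sub_cancel_left]
    exact sm _ h2
  · rintro z ⟨⟨z1, z2⟩, z3⟩
    have z4 := abs_le.1 z2
    have z5 : X.tt (c d) z ∈ Ioo (a - ε (c d) - g / 2) (a + ε (c d) + g / 2) := by
      constructor <;> linarith only [h0, z4]
    obtain ⟨q, hq, e⟩ := k4 z ⟨k6 ⟨z1, z5.1, Or.inl z5.2⟩, interior_subset z3⟩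
    have e' : θ' (mk3 q ((X.tt (c d) z - a) / ε (c d))) = z := by
      rw [ev, mul_div_cancel₀ _ e0.ne', add_sub_cancel, e]
    rw [← e', mem_cN hθ]
    refine ⟨⟨hq, (k5 q hq _ z5).2 ?_⟩, ?_⟩
    · rw [e]
      exact ⟨⟨z1, z5.1, Or.inl z5.2⟩, z3⟩
    · rw [abs_div, abs_of_pos e0, div_le_one e0]
      exact z2
  · rintro _ ⟨x, ⟨h1, h2⟩, rfl⟩ s hs
    have h3 := sm s (abs_le.2 hs)
    have h4 := sm _ h2
    rw [← mk3_pj3 x, cf_mk hθ]
    obtain ⟨u1, -, u3⟩ := t3 _ h1 (x 2) (by linarith only [h0, h4])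
    obtain ⟨w1, -, w3⟩ := t3 _ h1 s (by linarith only [h0, h3])
    have h5 := abs_le.1 h3
    have h6 := abs_le.1 h4
    obtain ⟨s1, s2, s3⟩ := sh_spec (X := X) (v := c d) u1.1 (by rw [u3]; constructor <;> linarith only [h0, i1, h6])
      (s := a + ε (c d) * s) (by constructor <;> linarith only [h0, i1, h5])
    refine ext_tt (X := X) w1.1 s1 fun v => ?_
    by_cases e : v = c d
    · rw [e, w3, s2]
    · rw [s3 v e, ev, ev]
      exact (k3 _ h1.1 _ (Ioo_subset_Icc_self (io _ (by linarith only [h0, h4])))).2.2 _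
        (Ioo_subset_Icc_self (io _ (by linarith only [h0, h3]))) v e

end Cx

end BEp
end
end

-- merged part: Pool.Agent.Work.MP_f0515e_an.P3.YSys
section
/-! The system of walls and cells of one colour around a simplex, cut along two sides. -/

open Set Metric Filter Topology Function BEv MeasureTheory
open scoped NNReal ENNReal

noncomputable section
namespace BEp

namespace Cx
variable {V : Set (Rn 3)} {X : Cx V} {c c' : Fin 4 → Set (Rn 3)} {w w' T T' : Rn 4}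
  {y y' z z' : Rn 3} {v v' : Set (Rn 3)} {d e : Fin 4}

theorem ys_fin (X : Cx V) {σ : Set (Set (Rn 3))} (hσ : σ.Nonempty) :
    {j | ∃ c, X.Fl c ∧ insert j σ ⊆ range c}.Finite := by
  obtain ⟨v, hv⟩ := hσ
  have hF := X.flags_fin (C := {X.b v} ∩ V)
    ((finite_singleton _).inter_of_left V).isCompact inter_subset_right
  refine (hF.biUnion fun c _ => finite_range c).subset ?_
  rintro j ⟨c, hc, hs⟩
  refine mem_biUnion (x := c) ⟨hc, X.b v, ?_⟩ (hs (mem_insert j σ))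
  obtain ⟨d, rfl⟩ := hs (Or.inr hv)
  have h1 : X.b (c d) ∈ closure (c 3) := hc.2 d 3 (Fin.le_last d) (X.hb _ (hc.mem d))
  obtain ⟨x, hx, e⟩ := hc.mem 3
  exact ⟨h1, rfl, X.M.sub x hx (e ▸ h1)⟩

/-- Open cell: below all walls, or in the gap after a wall. -/
def ysOp (X : Cx V) (A : Set (Rn 3) → Set ℝ) (ε fi : Set (Rn 3) → ℝ) (nx : Set (Rn 3) → ℝ → ℝ)
    (m : ℕ) (σ : Set (Set (Rn 3))) : Option (Set (Rn 3) × ℝ) → Set (Rn 3)
  | none => {y | y ∈ Rg1 V X.tt A ε σ {v | dm v = m} ∧ ∀ v, dm v = m → X.tt v y < fi v - ε v}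
  | some k => {y | y ∈ Rg1 V X.tt A ε σ {v | dm v = m} ∧ k.2 + ε k.1 < X.tt k.1 y ∧
      (X.tt k.1 y < nx k.1 k.2 ∨ nx k.1 k.2 = 1)}

/-- The side of a cell. -/
def ysSd (S : Bool → Set (Rn 3)) : Option Bool → Set (Rn 3)
  | none => univ
  | some i => S i

/-- Indices of the cells. -/
def ysOk (X : Cx V) (A : Set (Rn 3) → Set ℝ) (la : Set (Rn 3) → ℝ) (m : ℕ)
    (σ : Set (Set (Rn 3))) (S : Bool → Set (Rn 3)) (Z : Set (Set (Rn 3))) :
    Option (Set (Rn 3) × ℝ) → Option Bool → Prop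
  | none, o => (∃ c, X.Fl c ∧ σ ⊆ range c) ∧ (∀ v ∈ σ, v ⊆ ysSd S o) ∧ o ≠ none
  | some k, o => dm k.1 = m ∧ (∃ c, X.Fl c ∧ insert k.1 σ ⊆ range c) ∧ k.2 ∈ A k.1 ∧
      (∀ v ∈ insert k.1 σ, v ⊆ ysSd S o) ∧ (o = none ↔ k.2 = la k.1 ∧ k.1 ∉ Z)

section
variable {g : ℝ} {A : Set (Rn 3) → Set ℝ} {ε fi la : Set (Rn 3) → ℝ} {nx : Set (Rn 3) → ℝ → ℝ}
  {m : ℕ} {σ : Set (Set (Rn 3))} {S : Bool → Set (Rn 3)} {Z : Set (Set (Rn 3))} {j : Set (Rn 3)}

theorem ys_pos (h0 : 0 < g) (hA : XLev g A ε) (hm : ∀ v ∈ σ, dm v ≠ m)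
    (hy : y ∈ Rg1 V X.tt A ε σ {v | dm v = m}) : ∀ v ∈ σ, 0 < X.tt v y := fun v hv => by
  obtain ⟨a, ha⟩ := hA.ne v
  have := (hy.2 v (hm v hv) a ha).1 hv
  linarith [(ys_in h0 hA ha).1, (ys_in h0 hA ha).2.1]

theorem ys_side (hd : ∀ i, Disjoint (interior (S i)) (S (!i))) {i i' : Bool}
    (h : y ∈ interior (S i)) (h' : y ∈ S i') : i = i' := by
  by_contra hn
  have : i' = !i := by cases i <;> cases i' <;> simp_all
  exact disjoint_left.1 (hd i) h (this ▸ h')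

theorem ys_side' (hd : ∀ i, Disjoint (interior (S i)) (S (!i))) {o o' : Option Bool}
    (e : o = none ↔ o' = none) (h : y ∈ interior (ysSd S o)) (h' : y ∈ interior (ysSd S o')) :
    o = o' := by
  cases o with
  | none => exact (e.1 rfl).symm
  | some i =>
    cases o' with
    | none => exact e.2 rfl
    | some i' => exact congrArg some (ys_side hd h (interior_subset h'))

theorem ys_gap (hA : XLev g A ε) (hL : YLv A ε fi la nx) (h0 : 0 < g) {a a' s : ℝ} (ha : a ∈ A j)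
    (ha' : a' ∈ A j) (h : a < a') (h1 : s < nx j a ∨ nx j a = 1) : s < a' - ε j := by
  have k := hL.nx_le j a ha a' ha' h
  rcases h1 with h1 | h1
  · linarith
  · linarith [(ys_in h0 hA ha').2.1, (ys_in h0 hA ha').2.2]

theorem ys_dc (h0 : 0 < g) (hA : XLev g A ε) (hL : YLv A ε fi la nx)
    (hd : ∀ i, Disjoint (interior (S i)) (S (!i))) {k k' : Option (Set (Rn 3) × ℝ)}
    {o o' : Option Bool} (hk : X.ysOk A la m σ S Z k o) (hk' : X.ysOk A la m σ S Z k' o')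
    (h : y ∈ X.ysOp A ε fi nx m σ k ∩ interior (ysSd S o))
    (h' : y ∈ X.ysOp A ε fi nx m σ k' ∩ interior (ysSd S o')) : k = k' ∧ o = o' := by
  have mix : ∀ (k : Set (Rn 3) × ℝ) (o : Option Bool), X.ysOk A la m σ S Z (some k) o →
      y ∈ X.ysOp A ε fi nx m σ none → y ∈ X.ysOp A ε fi nx m σ (some k) → False :=
    fun k o hk h h' => by
      linarith [h.2 _ hk.1, h'.2.1, hL.fi_le _ _ hk.2.2.1, hA.pos k.1]
  cases k with
  | none =>
    cases k' with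
    | none => exact ⟨rfl, ys_side' hd (iff_of_false hk.2.2 hk'.2.2) h.2 h'.2⟩
    | some k' => exact (mix k' o' hk' h.1 h'.1).elim
  | some k =>
    cases k' with
    | none => exact (mix k o hk h'.1 h.1).elim
    | some k' =>
      obtain ⟨j, a⟩ := k
      obtain ⟨j', a'⟩ := k'
      obtain ⟨h1, -, h2, -, h3⟩ := hk
      obtain ⟨h1', -, h2', -, h3'⟩ := hk'
      obtain ⟨⟨-, u1, u2⟩, u3⟩ := h
      obtain ⟨⟨-, u1', u2'⟩, u3'⟩ := h'
      dsimp only at *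
      have i1 := ys_in h0 hA h2
      have i2 := ys_in h0 hA h2'
      obtain rfl : j = j' := tt_col (X := X) (y := y) (by linarith) (by linarith)
        (h1.trans h1'.symm)
      obtain rfl : a = a' := by
        rcases lt_trichotomy a a' with e | e | e
        · linarith only [i1, u1', hA, hL, h0, h2, h2', e, u2, ys_gap hA hL h0 h2 h2' e u2]
        · exact e
        · linarith only [e, u1, i1, hA, hL, h0, h2', h2, u2', ys_gap hA hL h0 h2' h2 e u2']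
      exact ⟨rfl, ys_side' hd (h3.trans h3'.symm) u3 u3'⟩

theorem ys_wc (h0 : 0 < g) (hA : XLev g A ε) (hL : YLv A ε fi la nx)
    {k : Option (Set (Rn 3) × ℝ)} {o : Option Bool} (hk : X.ysOk A la m σ S Z k o) {a : ℝ}
    (hj : dm j = m) (ha : a ∈ A j) (h : |X.tt j y - a| ≤ ε j) :
    y ∉ X.ysOp A ε fi nx m σ k := by
  intro h'
  have h1 := abs_le.1 h
  cases k with
  | none => linarith only [h1, h', hj, hL, ha, h'.2 j hj, hL.fi_le j a ha]
  | some k =>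
    obtain ⟨j', a'⟩ := k
    obtain ⟨k1, -, k2, -⟩ := hk
    obtain ⟨-, u1, u2⟩ := h'
    dsimp only at *
    have i1 := ys_in h0 hA ha
    have i2 := ys_in h0 hA k2
    obtain rfl : j = j' := tt_col (X := X) (y := y) (by linarith) (by linarith) (hj.trans k1.symm)
    linarith only [h1, hA, hL, h0, k2, ha, u1, u2, ys_gap hA hL h0 k2 ha (by linarith) u2]

theorem ys_ball (h0 : 0 < g) (hA : XLev g A ε) (hL : YLv A ε fi la nx) (hσ : σ.Nonempty)
    (hm : ∀ v ∈ σ, dm v ≠ m) (hS : ∀ i, Side (S i))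
    (sat : ∀ i, ∀ y ∈ S i, (∀ v ∈ σ, 0 < X.tt v y) → X.M.cell y ⊆ S i)
    {k : Option (Set (Rn 3) × ℝ)} {o : Option Bool} (hk : X.ysOk A la m σ S Z k o) :
    ∃ C bC, Ball C bC ∧ C \ bC = X.ysOp A ε fi nx m σ k ∩ interior (ysSd S o) := by
  have hB : Side (ysSd S o) := by
    cases o
    exacts [side_univ, hS _]
  have sat' : ∀ y ∈ ysSd S o, (∀ v ∈ σ, 0 < X.tt v y) → X.M.cell y ⊆ ysSd S o := by
    cases o
    exacts [fun _ _ _ => subset_univ _, sat _]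
  cases k with
  | none =>
    obtain ⟨⟨c, hc, hs⟩, hin, -⟩ := hk
    exact ys_cell0 h0 hA hL hσ hm hc hs hB sat' hin
  | some k =>
    obtain ⟨h1, ⟨c, hc, hs⟩, h2, hin, -⟩ := hk
    have i1 := ys_in h0 hA h2
    refine ys_cell1 h0 hA hL hσ hm hc hs h1 hB sat' hin (by linarith only [i1]) (hL.lt_nx _ _ h2) ?_
    by_cases e : k.2 = la k.1
    · rw [e, hL.nx_la]
    · have i2 := ys_in h0 hA (hL.nx_mem _ _ h2 e)
      linarith only [i1, i2]

/-- The cell after a level. -/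
theorem ys_after {a : ℝ} {i : Bool} (hj : dm j = m) (hc : ∃ c, X.Fl c ∧ insert j σ ⊆ range c)
    (ha : a ∈ A j) (hin : ∀ v ∈ insert j σ, v ⊆ S i) :
    ∃ o, X.ysOk A la m σ S Z (some (j, a)) o ∧ interior (S i) ⊆ interior (ysSd S o) := by
  by_cases e : a = la j ∧ j ∉ Z
  · exact ⟨none, ⟨hj, hc, ha, fun _ _ => subset_univ _, iff_of_true rfl e⟩,
      interior_mono (subset_univ _)⟩
  · exact ⟨some i, ⟨hj, hc, ha, hin, iff_of_false (Option.some_ne_none i) e⟩, Subset.rfl⟩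

/-- The cells next to a wall. -/
theorem ys_col (h0 : 0 < g) (hA : XLev g A ε) (hL : YLv A ε fi la nx) {a : ℝ} {i : Bool}
    (hj : dm j = m) (hc : ∃ c, X.Fl c ∧ insert j σ ⊆ range c) (ha : a ∈ A j)
    (hin : ∀ v ∈ insert j σ, v ⊆ S i) {s : ℝ} (hs : s = 1 ∨ s = -1) :
    ∃ k o, X.ysOk A la m σ S Z k o ∧ ∃ δ > 0, ∀ t, 1 < t → t ≤ 1 + δ →
      ∀ y ∈ Rg1 V X.tt A ε σ {v | dm v = m}, y ∈ interior (S i) → X.tt j y = a + ε j * (s * t) →
        y ∈ X.ysOp A ε fi nx m σ k ∩ interior (ysSd S o) := by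
  have e0 := hA.pos j
  have sm : ∀ b > 0, ∃ δ > 0, ∀ t, 1 < t → t ≤ 1 + δ → ε j < ε j * t ∧ ε j * t < ε j + b :=
    fun b hb => ⟨b / 2 / ε j, by positivity, fun t h1 h2 => by
      have := mul_le_mul_of_nonneg_left h2 e0.le
      rw [mul_add, mul_div_cancel₀ _ e0.ne'] at this
      constructor <;> linarith only [e0, h1, hb, this, mul_pos_of_neg_of_neg (Mathlib.Tactic.Linarith.sub_neg_of_lt e0) (Mathlib.Tactic.Linarith.sub_neg_of_lt h1)]⟩
  rcases hs with rfl | rfl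
  · obtain ⟨o, o1, o2⟩ := ys_after (la := la) (Z := Z) hj hc ha hin
    obtain ⟨δ, hδ, k⟩ := sm _ (sub_pos.2 (hL.lt_nx j a ha))
    refine ⟨_, o, o1, δ, hδ, fun t h1 h2 y hy hi e => ⟨⟨hy, ?_, Or.inl ?_⟩, o2 hi⟩⟩
    · linarith [(k t h1 h2).1]
    · linarith [(k t h1 h2).2]
  by_cases hf : ∃ a' ∈ A j, a' < a
  · obtain ⟨b, ⟨b1, b2⟩, b3⟩ := ys_max ((hA.fin j).subset (sep_subset _ fun b => b < a)) hf
    obtain ⟨o, o1, o2⟩ := ys_after (la := la) (Z := Z) hj hc b1 hin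
    obtain ⟨δ, hδ, k⟩ := sm _ (sub_pos.2 (hA.dis j b b1 a ha b2))
    have h3 : a ≤ nx j b + ε j := by
      by_contra hn
      have := b3 _ ⟨hL.nx_mem j b b1 (b2.trans_le (hL.le_la j a ha)).ne, not_le.1 hn⟩
      linarith only [e0, this, hL, b1, hL.lt_nx j b b1]
    refine ⟨_, o, o1, δ, hδ, fun t h1 h2 y hy hi e => ⟨⟨hy, ?_, Or.inl ?_⟩, o2 hi⟩⟩
    · linarith [(k t h1 h2).2]
    · linarith [(k t h1 h2).1]
  · obtain ⟨δ, hδ, k⟩ := sm _ (ys_in h0 hA ha).1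
    obtain ⟨c, hc, hs⟩ := hc
    refine ⟨none, some i, ⟨⟨c, hc, (subset_insert j σ).trans hs⟩, fun v hv => hin v (Or.inr hv),
      Option.some_ne_none i⟩, δ, hδ, fun t h1 h2 y hy hi e => ⟨⟨hy, fun v hv => ?_⟩, hi⟩⟩
    by_cases e' : v = j
    · have : a ≤ fi j := not_lt.1 fun h => hf ⟨_, hL.fi_mem j, h⟩
      rw [e']
      linarith only [e, this, k, h1, h2, (k t h1 h2).1]
    · have : ¬ 0 < X.tt v y := fun h =>
        e' (tt_col h (by linarith [(k t h1 h2).2]) (hv.trans hj.symm))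
      linarith [(ys_in h0 hA (hL.fi_mem v)).1]

theorem ys_lab (h0 : 0 < g) (hA : XLev g A ε) (hm : ∀ v ∈ σ, dm v ≠ m) (hS : ∀ i, Side (S i))
    (sat : ∀ i, ∀ y ∈ S i, (∀ v ∈ σ, 0 < X.tt v y) → X.M.cell y ⊆ S i)
    (hy : y ∈ Rg1 V X.tt A ε σ {v | dm v = m}) {τ : Set (Set (Rn 3))}
    (hτ : ∀ v ∈ τ, 0 < X.tt v y) :
    (∃ c, X.Fl c ∧ τ ⊆ range c) ∧ ∀ i, y ∈ S i → ∀ v ∈ τ, v ⊆ S i :=
  ⟨⟨_, (X.rep hy.1).1, fun v hv => (X.rep hy.1).of_pos (hτ v hv)⟩, fun i hi v hv =>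
    (tt_pos (hτ v hv)).2.2.trans
      (closure_minimal (sat i y hi (ys_pos h0 hA hm hy)) (hS i).cl)⟩

theorem ys_int (hS : ∀ i, Side (S i)) (hu : ∀ y, ∃ i, y ∈ S i) (h : ¬ ∀ i, y ∈ S i) :
    ∃ i, y ∈ interior (S i) := by
  obtain ⟨i, hi⟩ := not_forall.1 h
  refine ⟨!i, interior_maximal (t := (S i)ᶜ) (fun z hz => ?_) (hS i).cl.isOpen_compl hi⟩
  obtain ⟨i', h'⟩ := hu z
  have : i' = !i := by
    cases i <;> cases i' <;> simp_all
  exact this ▸ h'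

end

theorem sys_gen (X : Cx V) {g : ℝ} (h0 : 0 < g) {A : Set (Rn 3) → Set ℝ} {ε : Set (Rn 3) → ℝ}
    (hA : XLev g A ε) (m : ℕ) {σ : Set (Set (Rn 3))} (hσ : σ.Nonempty) (hm : ∀ v ∈ σ, dm v ≠ m)
    (S : Bool → Set (Rn 3)) (hS : ∀ i, Side (S i)) (hu : ∀ y, ∃ i, y ∈ S i)
    (hd : ∀ i, Disjoint (interior (S i)) (S (!i)))
    (sat : ∀ i, ∀ y ∈ S i, (∀ v ∈ σ, 0 < X.tt v y) → X.M.cell y ⊆ S i) (Z : Set (Set (Rn 3))) :
    SysOn V X.tt (fun v y s => X.sh v s y) A ε (Rg1 V X.tt A ε σ {v | dm v = m} \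
      {y | (∀ i, y ∈ S i) ∧ ∀ v, dm v = m → (∀ a ∈ A v, a + ε v < X.tt v y) → v ∈ Z}) := by
  obtain ⟨fi, la, nx, hL⟩ := exists_ylv h0 hA
  let κ := {w : (Set (Rn 3) × ℝ) × Bool // dm w.1.1 = m ∧
    (∃ c, X.Fl c ∧ insert w.1.1 σ ⊆ range c) ∧ w.1.2 ∈ A w.1.1 ∧ ∀ v ∈ insert w.1.1 σ, v ⊆ S w.2}
  let μ := {k : Option (Set (Rn 3) × ℝ) × Option Bool // X.ysOk A la m σ S Z k.1 k.2}
  have hκ : Finite κ := by
    refine Set.Finite.to_subtype ((((X.ys_fin hσ).biUnion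
      fun j _ => (finite_singleton j).prod (hA.fin j)).prod (finite_univ (α := Bool))).subset ?_)
    rintro ⟨⟨j, a⟩, i⟩ ⟨-, h1, h2, -⟩
    exact ⟨mem_biUnion (x := j) h1 ⟨rfl, h2⟩, trivial⟩
  have hw := fun w : κ => w.2.2.1.elim fun c hc => ys_wall h0 hA hL hσ hm hc.1 hc.2 w.2.1
    (hS w.1.2) (sat _) w.2.2.2.2 w.2.2.2.1
  choose θ R bR w1 w2 w3 w4 w5 using hw
  choose C bC c1 c2 using fun k : μ => ys_ball h0 hA hL hσ hm hS sat k.2
  have hcol : ∀ (w : κ) (b : Bool), ∃ k : μ, ∃ δ > 0, ∀ y ∈ R w \ bR w, ∀ t : ℝ, 1 < t →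
      t ≤ 1 + δ → θ w (mk3 y ((if b then 1 else -1) * t)) ∈ C k \ bC k := by
    intro w b
    obtain ⟨k, o, hk, δ, hδ, h⟩ := ys_col (Z := Z) h0 hA hL w.2.1 w.2.2.1 w.2.2.2.1 w.2.2.2.2
      (s := if b then 1 else -1) (by cases b <;> simp)
    have e0 := hA.pos w.1.1.1
    refine ⟨⟨(k, o), hk⟩, min δ (g / 4 / ε w.1.1.1), lt_min hδ (by positivity),
      fun y hy t h1 h2 => ?_⟩
    obtain ⟨u1, u2, u3⟩ := w5 w y hy ((if b then 1 else -1) * t) (by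
      have h3 := mul_le_mul_of_nonneg_left (h2.trans (add_le_add_right (min_le_right _ _) 1)) e0.le
      rw [mul_add, mul_div_cancel₀ _ e0.ne'] at h3
      have h4 : |(if b then 1 else -1 : ℝ)| = 1 := by cases b <;> simp
      rw [abs_mul, abs_mul, h4, abs_of_pos e0, abs_of_pos (one_pos.trans h1)]
      linarith only [h0, h3])
    rw [c2]
    exact h t h1 (h2.trans (add_le_add_right (min_le_left _ _) 1)) _ u1 u2 u3
  choose kk δ hδ hk using hcol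
  obtain ⟨η, hη, hη0⟩ := ((eventually_all.2 fun x : κ × Bool =>
    Ioc_mem_nhdsGT (hδ x.1 x.2)).and (self_mem_nhdsWithin (a := (0 : ℝ)) (s := Ioi 0))).exists
  have wp : ∀ {j a y}, a ∈ A j → |X.tt j y - a| ≤ ε j → 0 < X.tt j y := fun ha h => by
    linarith [(abs_le.1 h).1, (ys_in h0 hA ha).1]
  have ins : ∀ {j y}, y ∈ Rg1 V X.tt A ε σ {v | dm v = m} → 0 < X.tt j y →
      ∀ v ∈ insert j σ, 0 < X.tt v y := fun hy h v hv =>
    hv.elim (fun e => e ▸ h) (ys_pos h0 hA hm hy v)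
  refine ⟨κ, μ, hκ, θ, R, bR, C, bC, η, fun w => w.1.1, ⟨hη0, w1, w2, c1, fun w s hs => ?_,
    fun w w' hn => ?_, fun k k' hn => ?_, fun w k => ?_⟩, Subset.antisymm ?_ ?_,
    fun w x hx => ⟨?_, w4 w x hx⟩, ?_⟩
  · rcases hs with rfl | rfl
    · exact ⟨kk w true, fun y hy t h1 h2 =>
        hk w true y hy t h1 (h2.trans (add_le_add_right (hη (w, true)).2 1))⟩
    · exact ⟨kk w false, fun y hy t h1 h2 =>
        hk w false y hy t h1 (h2.trans (add_le_add_right (hη (w, false)).2 1))⟩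
  · rw [w3, w3, disjoint_left]
    obtain ⟨⟨⟨j, a⟩, i⟩, h1, h2, h3, h4⟩ := w
    obtain ⟨⟨⟨j', a'⟩, i'⟩, h1', h2', h3', h4'⟩ := w'
    rintro y ⟨⟨-, u1⟩, u2⟩ ⟨⟨-, u1'⟩, u2'⟩
    dsimp only at h1 h3 h1' h3' u1 u2 u1' u2'
    obtain rfl : j = j' := tt_col (wp h3 u1) (wp h3' u1') (h1.trans h1'.symm)
    obtain rfl := ys_side hd u2 (interior_subset u2')
    obtain rfl : a = a' := by
      have k1 := abs_le.1 u1
      have k2 := abs_le.1 u1'
      rcases lt_trichotomy a a' with e | e | e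
      · linarith only [k1, k2, hA, h3, h3', e, hA.dis j a h3 a' h3' e]
      · exact e
      · linarith only [e, k1, k2, hA, h3', h3, hA.dis j a' h3' a h3 e]
    exact hn rfl
  · rw [c2, c2, disjoint_left]
    intro y u u'
    obtain ⟨e1, e2⟩ := ys_dc h0 hA hL hd k.2 k'.2 u u'
    exact hn (Subtype.ext (Prod.ext e1 e2))
  · rw [w3, c2, disjoint_left]
    exact fun y u u' => ys_wc h0 hA hL k.2 w.2.1 w.2.2.2.1 u.1.2 u'.1
  · have one : ∀ {y i}, y ∈ interior (S i) → ¬ ∀ i, y ∈ S i := fun {y i} h h' =>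
      disjoint_left.1 (hd i) h (h' _)
    rintro y (hy | hy)
    · obtain ⟨w, hw⟩ := mem_iUnion.1 hy
      rw [w3] at hw
      exact ⟨hw.1.1, fun h => one hw.2 h.1⟩
    · obtain ⟨⟨⟨k, o⟩, hk⟩, hw⟩ := mem_iUnion.1 hy
      rw [c2] at hw
      cases o with
      | some i =>
        refine ⟨?_, fun h => one (i := i) hw.2 h.1⟩
        cases k
        exacts [hw.1.1, hw.1.1]
      | none =>
        cases k with
        | none => exact (hk.2.2 rfl).elim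
        | some k =>
          obtain ⟨h1, h2⟩ := hk.2.2.2.2.1 rfl
          refine ⟨hw.1.1, fun h => h2 (h.2 _ hk.1 fun a ha => ?_)⟩
          have := hw.1.2.1
          rw [h1] at this
          linarith [hL.le_la _ a ha]
  · rintro y ⟨hy, hn⟩
    by_cases hz : ∃ v, dm v = m ∧ (∀ a ∈ A v, a + ε v < X.tt v y) ∧ v ∉ Z
    · obtain ⟨j, h1, h2, h3⟩ := hz
      have h4 := h2 _ (hL.la_mem j)
      have i1 := ys_in h0 hA (hL.la_mem j)
      refine Or.inr (mem_iUnion.2 ⟨⟨(some (j, la j), none), h1,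
        (ys_lab h0 hA hm hS sat hy (ins hy (by linarith))).1, hL.la_mem j,
        fun _ _ => subset_univ _, iff_of_true rfl ⟨rfl, h3⟩⟩, ?_⟩)
      rw [c2]
      exact ⟨⟨hy, h4, Or.inr (hL.nx_la j)⟩, interior_maximal Subset.rfl isOpen_univ trivial⟩
    obtain ⟨i, hi⟩ := ys_int hS hu (y := y) fun h => hn ⟨h, fun v h1 h2 => by
      by_contra h3
      exact hz ⟨v, h1, h2, h3⟩⟩
    by_cases hl : ∀ v, dm v = m → X.tt v y < fi v - ε v
    · obtain ⟨l1, l2⟩ := ys_lab h0 hA hm hS sat hy (ys_pos h0 hA hm hy)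
      refine Or.inr (mem_iUnion.2 ⟨⟨(none, some i), l1, l2 i (interior_subset hi),
        Option.some_ne_none i⟩, ?_⟩)
      rw [c2]
      exact ⟨⟨hy, hl⟩, hi⟩
    push Not at hl
    obtain ⟨j, hj, hl⟩ := hl
    obtain ⟨l1, l2⟩ := ys_lab h0 hA hm hS sat hy
      (ins (j := j) hy (by linarith [(ys_in h0 hA (hL.fi_mem j)).1]))
    obtain ⟨a, ⟨a1, a2⟩, a3⟩ := ys_max ((hA.fin j).subset
      (sep_subset _ fun a => a - ε j ≤ X.tt j y)) ⟨fi j, hL.fi_mem j, hl⟩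
    by_cases ht : X.tt j y ≤ a + ε j
    · refine Or.inl (mem_iUnion.2 ⟨⟨((j, a), i), hj, l1, a1, l2 i (interior_subset hi)⟩, ?_⟩)
      rw [w3]
      exact ⟨⟨hy, abs_le.2 ⟨by linarith, by linarith⟩⟩, hi⟩
    · obtain ⟨o, o1, o2⟩ := ys_after (la := la) (Z := Z) hj l1 a1 (l2 i (interior_subset hi))
      refine Or.inr (mem_iUnion.2 ⟨⟨(some (j, a), o), o1⟩, ?_⟩)
      rw [c2]
      refine ⟨⟨hy, not_le.1 ht, ?_⟩, o2 hi⟩
      by_cases e : a = la j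
      · exact Or.inr (e ▸ hL.nx_la j)
      · refine Or.inl (not_le.1 fun h => ?_)
        have := a3 _ ⟨hL.nx_mem j a a1 e, by rwa [add_sub_cancel_right]⟩
        linarith only [this, hL, a1, hA, hL.lt_nx j a a1, hA.pos j]
  · rw [w3] at hx
    exact ⟨hx.1.1.1, w.2.2.2.1, hx.1.2⟩
  · rintro ⟨j, a⟩ γ hγ hc ⟨y₀, hy₀⟩
    obtain ⟨⟨-, ha, u0⟩, b0, -⟩ := hγ hy₀
    dsimp only at ha u0
    have hj : dm j = m := by
      by_contra hn
      have k := b0.2 j hn a ha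
      have k' := abs_le.1 u0
      by_cases e : j ∈ σ
      · linarith [k.1 e]
      · linarith [k.2 e]
    have hin : γ ⊆ interior (S true) ∪ interior (S false) := fun y hy => by
      obtain ⟨⟨-, -, u⟩, -, hn⟩ := hγ hy
      obtain ⟨i, hi⟩ := ys_int hS hu (y := y) fun h => hn ⟨h, fun v h1 h2 => by
        obtain ⟨b, hb⟩ := hA.ne v
        have i1 := ys_in h0 hA hb
        obtain rfl : v = j := tt_col (by linarith only [i1, h2, hb, h2 b hb]) (wp ha u) (h1.trans hj.symm)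
        linarith only [h2, ha, u, h2 a ha, (abs_le.1 u).2]⟩
      cases i
      exacts [Or.inr hi, Or.inl hi]
    obtain ⟨i, hi⟩ : ∃ i, γ ⊆ interior (S i) :=
      (hc.subset_or_subset isOpen_interior isOpen_interior
        ((hd true).mono_right interior_subset) hin).elim (fun h => ⟨_, h⟩) fun h => ⟨_, h⟩
    obtain ⟨l1, l2⟩ := ys_lab h0 hA hm hS sat b0 (ins b0 (wp ha u0))
    refine ⟨⟨((j, a), i), hj, l1, ha, l2 i (interior_subset (hi hy₀))⟩, rfl, fun y hy => ?_⟩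
    rw [w3]
    exact ⟨⟨(hγ hy).2.1, (hγ hy).1.2.2⟩, hi hy⟩

end Cx

end BEp
end
end
end

-- merged part: Pool.Agent.Work.MP_f0515e_an.P3.YBox
section
-- merged part: Pool.Agent.Work.MP_f0515e_an.P3.YDy
section
/-! Dyadic complexes with controlled levels; periodic sets of centres; finiteness of shapes. -/

open Set Metric Filter Topology Function BEv MeasureTheory
open scoped NNReal ENNReal

noncomputable section
namespace BEp

variable {n : ℕ} {x y z : Rn 3}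

end BEp
end
end

-- merged part: Pool.Agent.Work.MP_f0515e_an.P3.YEll
section
/-! The mesh function, the cut complex and its centres. -/

open Set Metric Filter Topology Function BEv MeasureTheory
open scoped NNReal ENNReal

noncomputable section
namespace BEp

variable {ι : Type} {V : Set (Rn 3)} {θ l : Rn 3 → ℝ} {C0 : ℝ} {P : ι → Pc}

/-- The dyadic complex cut by the lattice planes of a piece on the set `N b`. -/
structure Cut (P : ι → Pc) (l : Rn 3 → ℝ) (M : Kx V) (n : Rn 3 → ℕ) (N : ι → Set (Rn 3)) :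
    Prop where
  cell : ∀ x ∈ V, M.cell x =
    {y | y ∈ kbC (n x) x ∧ ∀ b, x ∈ N b → (P b).Lat ((P b).inv x) ((P b).inv y)}
  lev : ∀ x ∈ V, (∀ y ∈ kbT (n x) x, 1 / 2 ^ n x < l y) ∧ l x ≤ 3 / 2 ^ n x
  eq : ∀ b x, (P b).Nr (90 * (P b).l) x → n x = (P b).n
  nr : ∀ b, ∀ x ∈ N b, (P b).Nr (P b).l x
  mem : ∀ b, ∀ x ∈ V, (closure (M.cell x) ∩ (P b).aff '' (P b).Bx).Nonempty → x ∈ N b

theorem YEll_near {Q : Pc} {a a' : ℝ} {x y : Rn 3} (h : Q.Nr a x) (k : a + ‖y - x‖ ≤ a') :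
    Q.Nr a' y := by
  obtain ⟨z, hz, e⟩ := h
  exact ⟨z, hz, by linarith [norm_sub_le_norm_sub_add_norm_sub y x (Q.aff z)]⟩

theorem YEll_mono {Q : Pc} {a a' : ℝ} {x : Rn 3} (h : Q.Nr (a * Q.l) x) (k : a ≤ a') :
    Q.Nr (a' * Q.l) x :=
  YEll_near h (by rw [sub_self, norm_zero, add_zero]; exact mul_le_mul_of_nonneg_right k Q.l_pos.le)

theorem YEll_CT {n : ℕ} {x : Rn 3} : kbC n x ⊆ kbT n x :=
  (subset_closure.trans kbC_closure.subset).trans kbB_sub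

theorem YEll_T {n : ℕ} {x y : Rn 3} (h : y ∈ kbT n x) : ‖y - x‖ ≤ 1 / 2 ^ n :=
  mem_closedBall_iff_norm.1 (kbT_sub h)

theorem YEll_cl {M : Kx V} {n : Rn 3 → ℕ} {x : Rn 3} {S : Rn 3 → Prop}
    (h : M.cell x = {y | y ∈ kbC (n x) x ∧ S y}) : closure (M.cell x) ⊆ kbB (n x) x := by
  rw [h, ← kbC_closure]
  exact closure_mono fun _ k => k.1

theorem cut_exists [Finite ι] (h : Ell V θ C0 P l) : ∃ (M : Kx V) (n : _) (N : _), Cut P l M n N := by
  obtain ⟨K, n, hK⟩ := dyad0 h.opn (h.scl.cont (by norm_num)).continuousOn h.scl.pos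
  obtain ⟨N, hN⟩ : ∃ N : ι → Set (Rn 3),
      ∀ b x, x ∈ N b ↔ ∃ z ∈ (P b).Bx, x ∈ kbT (P b).n ((P b).aff z) :=
    ⟨fun b => {x | ∃ z ∈ (P b).Bx, x ∈ kbT (P b).n ((P b).aff z)}, fun _ _ => Iff.rfl⟩
  have nr : ∀ b, ∀ x ∈ N b, (P b).Nr (P b).l x := fun b x hx => by
    obtain ⟨z, hz, e⟩ := (hN b x).1 hx
    exact ⟨z, hz, YEll_T e⟩
  have lev : ∀ x ∈ V, l x ≤ 3 / 2 ^ n x := by
    intro x hx
    by_contra e
    rw [not_le] at e
    rcases hn : n x with _ | k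
    · rw [hn] at e
      have := (h.le x hx).1
      norm_num at e
      linarith
    · rw [hn, pow_succ] at e
      have p : (0 : ℝ) < 1 / 2 ^ k := by positivity
      have e' : 3 / 2 * (1 / 2 ^ k) < l x := by
        refine Eq.trans_lt ?_ e
        field_simp
      have := (hK x hx).2.2 k fun y hy => by
        have a1 := YEll_T hy
        have a2 := h.scl.lip y x
        refine ⟨h.scl.sub x hx (mem_ball_iff_norm.2 (by linarith only [p, e', a1])), ?_⟩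
        linarith only [p, e', a1, a2, neg_abs_le (l y - l x)]
      omega
  have eq : ∀ b x, (P b).Nr (90 * (P b).l) x → n x = (P b).n := by
    intro b x hx
    have p := (P b).l_pos
    have hV := (h.lo b x (YEll_mono hx (by norm_num))).1
    refine le_antisymm ((hK x hV).2.2 _ fun y hy => ?_) ?_
    · have a1 : ‖y - x‖ ≤ (P b).l := YEll_T hy
      have a2 := h.lo b y (YEll_near hx (by linarith))
      refine ⟨a2.1, ?_⟩
      change (P b).l < l y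
      linarith only [p, a2, a2.2]
    · by_contra e
      rw [not_le] at e
      have a1 := ((hK x hV).2.1 x (YEll_CT kbC_self)).2
      obtain ⟨z, hz, a2⟩ := hx
      have a3 := h.up b z hz x
      have a4 : (1 : ℝ) / 2 ^ (P b).n ≤ 1 / 2 ^ (n x + 1) :=
        one_div_le_one_div_of_le (by positivity) (pow_le_pow_right₀ one_le_two e)
      have a5 : (1 : ℝ) / 2 ^ (n x + 1) = 1 / 2 ^ n x / 2 := by rw [pow_succ, div_div]
      change (P b).l ≤ _ at a4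
      linarith only [p, a1, a2, a3, a5, a4]
  have eq' : ∀ b, ∀ x ∈ N b, n x = (P b).n := fun b x hx =>
    eq b x (YEll_mono (a := 1) (by rw [one_mul]; exact nr b x hx) (by norm_num))
  have ex : ∀ b, ∃ L : Set ((Rn 3 →L[ℝ] ℝ) × ℝ), L.Finite ∧ ∀ x y, (P b).Nr (2 * (P b).l) x →
      (P b).Nr (2 * (P b).l) y → (y ∈ face L x ↔ (P b).Lat ((P b).inv x) ((P b).inv y)) := by
    intro b
    obtain ⟨R, hR⟩ := ((P b).cpt_Nr (2 * (P b).l)).isBounded.exists_norm_le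
    obtain ⟨L, h1, h2⟩ := (P b).lat_face R
    exact ⟨L, h1, fun x y hx hy => h2 x y (hR x hx) (hR y hy)⟩
  choose L hL1 hL2 using ex
  obtain ⟨M, hM⟩ := K.refine (fun x => ⋃ b ∈ {b | x ∈ N b}, L b)
    (fun x _ => (toFinite _).biUnion fun b _ => hL1 b) (fun x hx y hy => by
      refine biUnion_subset_biUnion_left fun b hb => ?_
      obtain ⟨z, hz, e⟩ := (hN b x).1 hb
      rw [(hK x hx).1, kbC_closure, eq' b x hb] at hy
      exact (hN b y).2 ⟨z, hz, kbT_B e hy⟩)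
  have cell : ∀ x ∈ V, M.cell x =
      {y | y ∈ kbC (n x) x ∧ ∀ b, x ∈ N b → (P b).Lat ((P b).inv x) ((P b).inv y)} := by
    intro x hx
    rw [hM x hx, (hK x hx).1]
    ext y
    refine and_congr_right fun hy => ?_
    have k : ∀ b, x ∈ N b → (y ∈ face (L b) x ↔ (P b).Lat ((P b).inv x) ((P b).inv y)) := by
      intro b hb
      have p := (P b).l_pos
      have a1 := YEll_T (YEll_CT hy)
      rw [eq' b x hb] at a1
      change _ ≤ (P b).l at a1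
      exact hL2 b x y (YEll_near (nr b x hb) (by rw [sub_self, norm_zero]; linarith))
        (YEll_near (nr b x hb) (by linarith))
    constructor
    · intro hf b hb
      exact (k b hb).1 fun A hA => hf A (mem_biUnion (show b ∈ {b | x ∈ N b} from hb) hA)
    · intro hf A hA
      obtain ⟨b, hb, hA⟩ := mem_iUnion₂.1 hA
      exact (k b hb).2 (hf b hb) A hA
  refine ⟨M, n, N, cell, fun x hx => ⟨fun y hy => ((hK x hx).2.1 y hy).2, lev x hx⟩, eq, nr, ?_⟩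
  rintro b x hx ⟨_, h1, z, hz, rfl⟩
  have a1 := YEll_cl (cell x hx) h1
  have a2 := kbB_T a1
  have a3 := ((hK x hx).2.1 _ (kbB_sub a1)).2
  have a4 := h.up b z hz ((P b).aff z)
  have a5 := YEll_T a2
  have p := (P b).l_pos
  rw [sub_self, norm_zero] at a4
  rw [eq b x ⟨z, hz, by linarith only [a3, a4, a5, p]⟩] at a2
  exact (hN b x).2 ⟨z, hz, a2⟩

theorem Cut.up {M : Kx V} {n : Rn 3 → ℕ} {N : ι → Set (Rn 3)} (h : Cut P l M n N) {x y : Rn 3}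
    (hx : x ∈ V) (hy : y ∈ closure (M.cell x)) : closure (M.cell x) ⊆ closedBall y (l y) := by
  intro z hz
  have k := YEll_cl (h.cell x hx)
  exact mem_closedBall_iff_norm.2 ((kbB_diam (k hz) (k hy)).trans
    ((h.lev x hx).1 y (kbB_sub (k hy))).le)

theorem Cut.ctr {M : Kx V} {n : Rn 3 → ℕ} {N : ι → Set (Rn 3)} (h : Cut P l M n N)
    (he : Ell V θ C0 P l) {Λ : ι → Set (Rn 3)}
    (h1 : ∀ b (p : Rn 3), (∀ i, ∃ k : ℤ, 2 * p i = k) → p ∈ Λ b)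
    (h2 : ∀ b x, ∃ p ∈ Λ b, p ∈ kbC 0 x ∧ ∀ i, kbS ((P b).A.symm x i) ((P b).A.symm p i))
    {x : Rn 3} (hx : x ∈ V) : ∃ p ∈ M.cell x,
      (∀ b, (P b).Nr (90 * (P b).l) x → (2 : ℝ) ^ (P b).n • (p - (P b).y) ∈ Λ b) ∧
      ((∀ b, x ∉ N b) → ∀ i, ∃ k : ℤ, 2 ^ (n x + 1) * p i = k) := by
  rw [h.cell x hx]
  by_cases hb : ∃ b, x ∈ N b
  · obtain ⟨b, hb⟩ := hb
    have n1 : ∀ b', x ∈ N b' → (P b').Nr (90 * (P b').l) x := fun b' k =>
      YEll_mono (a := 1) (by rw [one_mul]; exact h.nr b' x k) (by norm_num)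
    have un : ∀ b', (P b').Nr (90 * (P b').l) x → b' = b := fun b' k =>
      he.sep b' b x (YEll_mono k (by norm_num)) (YEll_mono (n1 b hb) (by norm_num))
    obtain ⟨q, q1, q2, q3⟩ := h2 b ((2 : ℝ) ^ (P b).n • (x - (P b).y))
    have p2 : (2 : ℝ) ^ (P b).n ≠ 0 := by positivity
    have e : (2 : ℝ) ^ (P b).n • ((P b).y + ((2 : ℝ) ^ (P b).n)⁻¹ • q - (P b).y) = q := by
      rw [add_sub_cancel_left, smul_inv_smul₀ p2]
    have li : ∀ y i, ((P b).inv y i - (P b).c i) / (P b).l =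
        (P b).A.symm ((2 : ℝ) ^ (P b).n • (y - (P b).y)) i := fun y i => by
      simp only [Pc.inv, Pc.l, Pi.add_apply, add_sub_cancel_right, map_smul, Pi.smul_apply,
        smul_eq_mul, div_div_eq_mul_div, div_one, mul_comm]
    refine ⟨(P b).y + ((2 : ℝ) ^ (P b).n)⁻¹ • q, ⟨?_, fun b' k => ?_⟩, fun b' k => ?_,
      fun k => (k b hb).elim⟩
    · rw [h.eq b x (n1 b hb), kbC_scale (he.ok b).lat, e]
      exact q2
    · rw [un b' (n1 b' k)]
      refine Pc.lat_iff.2 fun i => ?_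
      rw [li, li, e]
      exact q3 i
    · rw [un b' k, e]
      exact q1
  · obtain ⟨p, p1, p2⟩ := kb_mid (n x) x
    refine ⟨p, ⟨p1, fun b k => (hb ⟨b, k⟩).elim⟩, fun b k => h1 b _ fun i => ?_, fun _ => p2⟩
    obtain ⟨j, hj⟩ := p2 i
    obtain ⟨m, hm⟩ := (he.ok b).lat i
    rw [h.eq b x k] at hj
    refine ⟨j - 2 * m, ?_⟩
    simp only [Pi.smul_apply, Pi.sub_apply, smul_eq_mul, hm, Pc.l]
    push_cast
    rw [← hj]
    field_simp
    ring

end BEp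
end
end

-- merged part: Pool.Agent.Work.MP_f0515e_an.P3.YStr
section
/-! Existence of the adapted complex. -/

open Set Metric Filter Topology Function BEv MeasureTheory
open scoped NNReal ENNReal

noncomputable section
namespace BEp

/-- The shape bound for simplices with vertices in `Λ`. -/
def YStr_B (Λ : Set (Rn 3)) (D K : ℝ) : Prop := ∀ p : Fin 4 → Rn 3,
  (∀ d, p d ∈ Λ) → (∀ d e, ‖p d - p e‖ ≤ D) →
    (∀ w : Rn 4, ∑ d, w d = 0 → ∑ d, w d • p d = 0 → w = 0) →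
    ∀ w : Rn 4, ∑ d, w d = 0 → ‖w‖ ≤ K * ‖∑ d, w d • p d‖

theorem YStr_shp {V : Set (Rn 3)} {X : Cx V} {c : Fin 4 → Set (Rn 3)} (hc : X.Fl c)
    {Λ : Set (Rn 3)} {D K s κ : ℝ} (H : YStr_B Λ D K) (hs : 0 < s) (o : Rn 3)
    (h1 : ∀ d, s • (X.b (c d) - o) ∈ Λ) (h2 : ∀ d e, s * ‖X.b (c d) - X.b (c e)‖ ≤ D)
    (h3 : K * s ≤ κ) : X.Shp c κ := by
  have e : ∀ w : Rn 4, ∑ d, w d = 0 → ∑ d, w d • s • (X.b (c d) - o) = s • X.bp c w := fun w hw => by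
    simp only [smul_comm (w _) s, smul_sub, ← Finset.smul_sum, Finset.sum_sub_distrib,
      ← Finset.sum_smul, hw, zero_smul, smul_zero, sub_zero, Cx.bp]
  intro w hw
  have k := H (fun d => s • (X.b (c d) - o)) h1 (fun d e => by
    rw [← smul_sub, sub_sub_sub_cancel_right, norm_smul, Real.norm_of_nonneg hs.le]
    exact h2 d e) (fun w hw k => Cx.bp_indep hc hw
      ((smul_eq_zero.1 ((e w hw).symm.trans k)).resolve_left hs.ne')) w hw
  rw [e w hw, norm_smul, Real.norm_of_nonneg hs.le, ← mul_assoc] at k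
  exact k.trans (mul_le_mul_of_nonneg_right h3 (norm_nonneg _))

theorem YStr_nr {P : Pc} {a a' : ℝ} {y z : Rn 3} (h : P.Nr a y) (k : a + ‖z - y‖ ≤ a') :
    P.Nr a' z :=
  let ⟨x, hx, e⟩ := h
  ⟨x, hx, (norm_sub_le_norm_sub_add_norm_sub z y _).trans (by linarith)⟩

theorem exists_str {Cm : ℝ} (hC : 1 ≤ Cm) : ∃ (C0 : ℝ) (Cf : (Rn 3 ≃L[ℝ] Rn 3) → ℝ), Cm ≤ C0 ∧
    (∀ A, C0 ≤ Cf A) ∧ ∀ (V : Set (Rn 3)) (θ : Rn 3 → ℝ) (ι : Type) [Finite ι] (P : ι → Pc),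
      IsOpen V → LB V θ → PcIn V θ Cf P →
        ∃ (X : Cx V) (l c : Rn 3 → ℝ), Str θ Cm C0 Cf P X l c := by
  classical
  obtain ⟨K0, k0, hK0⟩ := fin_lo per_int 10
  have ex : ∀ A : Rn 3 ≃L[ℝ] Rn 3, ∃ (Λ : Set (Rn 3)) (K : ℝ), 1 ≤ K ∧ YStr_B Λ 2 K ∧
      ((∃ m : ℕ, 0 < m ∧ ∀ i j, ∃ k : ℤ, m * A.symm (Pi.single j 1) i = k) →
        (∀ p : Rn 3, (∀ i, ∃ k : ℤ, 2 * p i = k) → p ∈ Λ) ∧
        ∀ x, ∃ p ∈ Λ, p ∈ kbC 0 x ∧ ∀ i, kbS (A.symm x i) (A.symm p i)) := fun A => by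
    by_cases h : ∃ m : ℕ, 0 < m ∧ ∀ i j, ∃ k : ℤ, m * A.symm (Pi.single j 1) i = k
    · obtain ⟨Λ, h1, h2⟩ := per_pt A h
      obtain ⟨K, k1, k2⟩ := fin_lo h1 2
      exact ⟨Λ, K, k1, k2, fun _ => h2⟩
    · exact ⟨∅, 1, le_rfl, fun p hp => (hp 0).elim, fun k => (h k).elim⟩
  choose Λ K k1 k2 k3 using ex
  obtain ⟨C0, e0⟩ : ∃ C0, C0 = 28 * Cm * K0 := ⟨_, rfl⟩
  obtain ⟨cA, e1⟩ : ∃ cA : (Rn 3 ≃L[ℝ] Rn 3) → ℝ, ∀ A, cA A = 8 * Cm * K A := ⟨_, fun _ => rfl⟩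
  have c0 : Cm ≤ C0 := by rw [e0]; linarith only [hC, k0, mul_nonneg_of_nonpos_of_nonpos (Mathlib.Tactic.Linarith.sub_nonpos_of_le hC) (Mathlib.Tactic.Linarith.sub_nonpos_of_le k0)]
  have c1 : ∀ A, 0 ≤ cA A := fun A => by rw [e1]; nlinarith [k1 A]
  refine ⟨C0, fun A => 10000 * (C0 + cA A), c0, fun A => by linarith [c1 A],
    fun V θ ι _ P hV hθ hP => ?_⟩
  have := Fintype.ofFinite ι
  obtain ⟨l, hl⟩ := ell_exists hV hθ (hC.trans c0) (fun A => by linarith [c1 A]) hP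
  obtain ⟨M, n, N, hM⟩ := cut_exists hl
  choose! p p1 p2 p3 using fun x (hx : x ∈ V) => hM.ctr hl (Λ := fun b => Λ (P b).A)
    (fun b => (k3 _ (hl.ok b).rat).1) (fun b => (k3 _ (hl.ok b).rat).2) hx
  choose! r r1 r2 using fun σ (h : σ ∈ M.cells) => h
  let X : Cx V := ⟨M, fun σ => p (r σ), hV, fun σ h => (r2 σ h).subset (p1 _ (r1 σ h))⟩
  let c : Rn 3 → ℝ := fun y =>
    C0 + ∑ b, indicator {y | (P b).Nr (30 * (P b).l) y} (fun _ => cA (P b).A) y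
  have lp := fun b => (P b).l_pos
  have mono : ∀ {b y} {a a' : ℝ}, (P b).Nr (a * (P b).l) y → a ≤ a' → (P b).Nr (a' * (P b).l) y :=
    fun {b y a a'} h k => YStr_nr h (by
      rw [sub_self, norm_zero, add_zero]
      exact mul_le_mul_of_nonneg_right k (lp b).le)
  have far : ∀ y, (∀ b, ¬ (P b).Nr (30 * (P b).l) y) → c y = C0 := fun y h => by
    simp only [c, indicator_of_notMem (s := {y | (P _).Nr (30 * (P _).l) y}) (h _),
      Finset.sum_const_zero, add_zero]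
  have nea : ∀ b y, (P b).Nr (30 * (P b).l) y → c y = C0 + cA (P b).A := fun b y h => by
    simp only [c]
    rw [Finset.sum_eq_single b, indicator_of_mem (s := {y | (P _).Nr (30 * (P _).l) y}) h]
    · exact fun b' _ ne => indicator_of_notMem (s := {y | (P b').Nr (30 * (P b').l) y})
        (fun k => ne (hl.sep _ _ y (mono (a := 30) k (by norm_num)) (mono h (by norm_num)))) _
    · exact fun k => absurd (Finset.mem_univ b) k
  have cge : ∀ y, C0 ≤ c y := fun y => le_add_of_nonneg_right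
    (Finset.sum_nonneg fun b _ => indicator_nonneg (fun _ _ => c1 _) y)
  have lnr : ∀ b y (a : ℝ), (P b).Nr (a * (P b).l) y → l y ≤ (3 / 2 + a / 1000) * (P b).l :=
    fun b y a ⟨x, hx, e⟩ => (hl.up b x hx y).trans (by linarith only [e])
  have lip : ∀ y z (a : ℝ), ‖z - y‖ ≤ a * l y → |l z - l y| ≤ a / 1000 * l y := fun y z a k => by
    linarith [hl.scl.lip z y]
  have geo : ∀ y ∈ V, ∀ q, X.Fl q → (closure (q 3) ∩ closedBall y (10 * l y)).Nonempty →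
      (∀ d, r (q d) ∈ V ∧ ‖r (q d) - y‖ ≤ 12 * l y) ∧
        ∀ d e, ‖X.b (q d) - X.b (q e)‖ ≤ 1.012 * l y := by
    rintro y hy q hq ⟨z, hz, hz'⟩
    have l0 := hl.scl.pos y hy
    rw [mem_closedBall_iff_norm] at hz'
    have u : ∀ z ∈ closure (q 3), closure (q 3) ⊆ closedBall z (l z) := fun z hz => by
      rw [← r2 _ (hq.mem 3)] at hz ⊢
      exact hM.up (r1 _ (hq.mem 3)) hz
    have u1 : ∀ x ∈ closure (q 3), ‖x - y‖ ≤ 12 * l y := fun x hx => by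
      have a := mem_closedBall_iff_norm.1 (u z hz hx)
      have b := norm_sub_le_norm_sub_add_norm_sub x z y
      linarith only [hz', l0, a, b, lip, (abs_le.1 (lip y z 10 hz')).2]
    have m : ∀ d, X.b (q d) ∈ closure (q 3) := fun d => hq.2 d 3 (Fin.le_last d) (X.hb _ (hq.mem d))
    refine ⟨fun d => ⟨r1 _ (hq.mem d), u1 _ (hq.2 d 3 (Fin.le_last d) ?_)⟩, fun d e => ?_⟩
    · have a := M.mem _ (r1 _ (hq.mem d))
      rwa [r2 _ (hq.mem d)] at a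
    · have a := mem_closedBall_iff_norm.1 (u _ (m e) (m d))
      linarith only [a, lip, u1, m, (abs_le.1 (lip y _ 12 (u1 _ (m e)))).2]
  refine ⟨X, l, c, hl.scl, fun y _ x hx h => hM.up hx h, fun y hy z z' hz hz' v => ?_,
    fun y => c0.trans (cge y), ?_, ⟨C0 + ∑ b, cA (P b).A, fun y => ?_⟩, fun y hy => ?_,
    fun y _ => ?_, fun b y h => ?_, fun b y hy h y' hy' => ?_⟩
  · have l0 := hl.scl.pos y hy
    have fin : ∀ κ : ℝ, 0 ≤ κ → 4 * Cm * κ ≤ c y → (∀ q, X.Fl q →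
        (closure (q 3) ∩ closedBall y (10 * l y)).Nonempty → X.Shp q (κ / l y)) →
        Cm * l y * |X.tt v z - X.tt v z'| ≤ c y * ‖z - z'‖ := fun κ a b h => by
      have k := Cx.tt_lip (convex_closedBall y _) (isCompact_closedBall y _)
        ((closedBall_subset_ball (by linarith)).trans (hl.scl.sub y hy)) (div_nonneg a l0.le) h
        (mem_closedBall_iff_norm.2 hz) (mem_closedBall_iff_norm.2 hz') v
      calc Cm * l y * |X.tt v z - X.tt v z'| ≤ Cm * l y * (4 * (κ / l y) * ‖z - z'‖) :=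
            mul_le_mul_of_nonneg_left k (by positivity)
        _ = 4 * Cm * κ * ‖z - z'‖ := by field_simp
        _ ≤ c y * ‖z - z'‖ := mul_le_mul_of_nonneg_right b (norm_nonneg _)
    by_cases h : ∃ b, (P b).Nr (30 * (P b).l) y
    · obtain ⟨b, h⟩ := h
      have a := lnr b y _ h
      have a0 := lp b
      have a1 : (2 : ℝ) ^ (P b).n * (P b).l = 1 := by
        rw [Pc.l]; field_simp
      have a2 : (0 : ℝ) < 2 ^ (P b).n := by positivity
      have a3 : (2 : ℝ) ^ (P b).n * l y ≤ 1.6 := by linarith only [a1, a, a2, mul_nonneg_of_nonpos_of_nonpos (Mathlib.Tactic.Linarith.sub_nonpos_of_le a) (le_of_lt (Mathlib.Tactic.Linarith.sub_neg_of_lt a2))]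
      refine fin (2 * K (P b).A) (by linarith only [k1, k1 (P b).A]) (by rw [nea b y h, e1]; linarith only [hC, c0])
        fun q hq hn => ?_
      obtain ⟨g1, g2⟩ := geo y hy q hq hn
      refine YStr_shp hq (k2 (P b).A) a2 (P b).y
        (fun d => p2 _ (g1 d).1 b (YStr_nr h (by linarith only [a, a0, g1, (g1 d).2]))) (fun d e => ?_) ?_
      · (refine le_of_not_gt fun h_nl => ?_; linarith only [h_nl, a, a0, g2, l0, a1, g2 d e, Mathlib.Tactic.Linarith.mul_zero_eq (Mathlib.Tactic.Linarith.sub_neg_of_lt l0) (sub_eq_zero_of_eq a1), mul_pos_of_neg_of_neg (Mathlib.Tactic.Linarith.sub_neg_of_lt a0) (Mathlib.Tactic.Linarith.sub_neg_of_lt h_nl), Mathlib.Tactic.Linarith.zero_mul_eq (sub_eq_zero_of_eq a1) (Mathlib.Tactic.Linarith.sub_nonpos_of_le (g2 d e))])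
      · rw [le_div_iff₀ l0]
        linarith only [a1, k1, a, a2, a3, k1 (P b).A, mul_nonneg_of_nonpos_of_nonpos (Mathlib.Tactic.Linarith.sub_nonpos_of_le a) (le_of_lt (Mathlib.Tactic.Linarith.sub_neg_of_lt a2)), mul_nonneg_of_nonpos_of_nonpos (Mathlib.Tactic.Linarith.sub_nonpos_of_le a3) (Mathlib.Tactic.Linarith.sub_nonpos_of_le (k1 (P b).A))]
    · push Not at h
      refine fin (7 * K0) (by linarith) (by rw [far y h, e0]; linarith) fun q hq hn => ?_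
      obtain ⟨g1, g2⟩ := geo y hy q hq hn
      obtain ⟨d0, -, hd⟩ := Finset.univ.exists_max_image (fun d => n (r (q d))) Finset.univ_nonempty
      have a2 : (0 : ℝ) < 2 ^ n (r (q d0)) := by positivity
      have a3 : (2 : ℝ) ^ n (r (q d0)) * l y ≤ 3.1 := by
        have a := (hM.lev _ (g1 d0).1).2
        rw [le_div_iff₀ a2] at a
        linarith only [a, a2, lip, g1, (abs_le.1 (lip y _ 12 (g1 d0).2)).1, mul_nonneg_of_nonpos_of_nonpos (le_of_lt (Mathlib.Tactic.Linarith.sub_neg_of_lt a2)) (Mathlib.Tactic.Linarith.sub_nonpos_of_le (abs_le.mp (lip y (r (q d0)) (12 : ℝ) (g1 d0).right)).left)]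
      refine YStr_shp hq hK0 (s := 2 ^ (n (r (q d0)) + 1)) (by positivity) 0 (fun d i => ?_)
        (fun d e => ?_) ?_
      · obtain ⟨k, hk⟩ := p3 _ (g1 d).1 (fun b m => by
          obtain ⟨x, hx, e⟩ := hM.nr b _ m
          have a := hl.up b x hx y
          have a' := norm_sub_le_norm_sub_add_norm_sub y (r (q d)) ((P b).aff x)
          rw [norm_sub_rev y (r (q d))] at a'
          exact h b ⟨x, hx, by linarith only [l0, e, a, a', g1, (g1 d).2, lp b]⟩) i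
        obtain ⟨j, hj⟩ := Nat.exists_eq_add_of_le (hd d (Finset.mem_univ d))
        refine ⟨2 ^ j * k, ?_⟩
        rw [sub_zero, Pi.smul_apply, smul_eq_mul, hj]
        push_cast
        rw [← hk]
        change _ * p (r (q d)) i = _
        ring
      · rw [pow_succ]
        linarith only [a3, a2, g2, g2 d e, mul_nonneg_of_nonpos_of_nonpos (le_of_lt (Mathlib.Tactic.Linarith.sub_neg_of_lt a2)) (Mathlib.Tactic.Linarith.sub_nonpos_of_le (g2 d e))]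
      · rw [le_div_iff₀ l0, pow_succ]
        linarith only [k0, a3, mul_nonneg_of_nonpos_of_nonpos (Mathlib.Tactic.Linarith.sub_nonpos_of_le k0) (Mathlib.Tactic.Linarith.sub_nonpos_of_le a3)]
  · exact measurable_const.add (Finset.measurable_sum _ fun b _ =>
      measurable_const.indicator ((P b).cpt_Nr _).isClosed.measurableSet)
  · exact add_le_add_right (Finset.sum_le_sum fun b _ => indicator_le_self'
      (fun _ _ => c1 _) y) _
  · by_cases h : ∃ b, (P b).Nr (30 * (P b).l) y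
    · obtain ⟨b, h⟩ := h
      have a := lnr b y _ h
      have a0 := lp b
      have a1 := c1 (P b).A
      obtain ⟨x, hx, e⟩ := id h
      have a2 := (hP.sub b x hx.1 y (e.trans (by linarith only [a0, hC, c0, a1, mul_nonneg_of_nonpos_of_nonpos (Mathlib.Tactic.Linarith.sub_nonpos_of_le hC) (le_of_lt (Mathlib.Tactic.Linarith.sub_neg_of_lt a0)), mul_nonneg_of_nonpos_of_nonpos (Mathlib.Tactic.Linarith.sub_nonpos_of_le c0) (le_of_lt (Mathlib.Tactic.Linarith.sub_neg_of_lt a0)), mul_nonneg_of_nonpos_of_nonpos (le_of_lt (Mathlib.Tactic.Linarith.sub_neg_of_lt a0)) (Mathlib.Tactic.Linarith.sub_nonpos_of_le a1)]))).2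
      rw [nea b y h]
      linarith only [a, a0, a2, hC, c0, a1, mul_nonneg_of_nonpos_of_nonpos (Mathlib.Tactic.Linarith.sub_nonpos_of_le hC) (Mathlib.Tactic.Linarith.sub_nonpos_of_le a), mul_nonneg_of_nonpos_of_nonpos (Mathlib.Tactic.Linarith.sub_nonpos_of_le hC) (le_of_lt (Mathlib.Tactic.Linarith.sub_neg_of_lt a0)), mul_nonneg_of_nonpos_of_nonpos (Mathlib.Tactic.Linarith.sub_nonpos_of_le c0) (Mathlib.Tactic.Linarith.sub_nonpos_of_le a), mul_nonneg_of_nonpos_of_nonpos (Mathlib.Tactic.Linarith.sub_nonpos_of_le c0) (le_of_lt (Mathlib.Tactic.Linarith.sub_neg_of_lt a0)), mul_nonneg_of_nonpos_of_nonpos (Mathlib.Tactic.Linarith.sub_nonpos_of_le a) (Mathlib.Tactic.Linarith.sub_nonpos_of_le a1), mul_nonneg_of_nonpos_of_nonpos (le_of_lt (Mathlib.Tactic.Linarith.sub_neg_of_lt a0)) (Mathlib.Tactic.Linarith.sub_nonpos_of_le a1)]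
    · push Not at h
      rw [far y h]
      exact (hl.le y hy).2
  · by_cases h : ∃ b, (P b).Nr (30 * (P b).l) y
    · obtain ⟨b, h⟩ := h
      exact Or.inr ⟨b, mono h (by linarith [c1 (P b).A]), by rw [nea b y h]; linarith [c1 (P b).A]⟩
    · push Not at h
      exact Or.inl (far y h).le
  · have a := hl.lo b y (mono h (by norm_num))
    have a0 := lp b
    exact ⟨a.1, by rw [nea b y h]; linarith only [hC, c0, c1, c1 (P b).A], by linarith only [a, a0, a.2],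
      by linarith only [a0, lnr, h, lnr b y _ h]⟩
  · have a := hM.mem b y hy h
    rw [show X.M.cell y = M.cell y from rfl, hM.cell y hy] at hy'
    exact hy'.2 b a

end BEp
end
end

-- merged part: Pool.Agent.Work.MP_f0515e_an.P3.YBox1
section
/-! Charts of the squares of the cube complex: the normal direction. -/

open Set Metric Filter Topology Function BEv MeasureTheory
open scoped NNReal ENNReal

noncomputable section
namespace BEp

/-- The four colours. -/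
structure YBox1C (j k n m : Fin 4) : Prop where
  jk : j ≠ k
  jn : j ≠ n
  jm : j ≠ m
  kn : k ≠ n
  km : k ≠ m
  nm : n ≠ m
  all : ∀ d, d = j ∨ d = k ∨ d = n ∨ d = m

theorem YBox1C_ex {j k n : Fin 4} (h1 : j ≠ k) (h2 : j ≠ n) (h3 : k ≠ n) :
    ∃ m, YBox1C j k n m := by
  have : ∀ j k n : Fin 4, j ≠ k → j ≠ n → k ≠ n → ∃ m, j ≠ m ∧ k ≠ m ∧ n ≠ m ∧
      ∀ d, d = j ∨ d = k ∨ d = n ∨ d = m := by decide
  obtain ⟨m, a, b, c, d⟩ := this j k n h1 h2 h3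
  exact ⟨m, h1, h2, a, h3, b, c, d⟩

/-- Vector with prescribed entries. -/
def YBox1T (j k n : Fin 4) (a b p q : ℝ) : Rn 4 :=
  fun d => if d = j then a else if d = k then b else if d = n then p else q

section
variable {j k n m : Fin 4} {a b p q : ℝ}

theorem YBox1T_j : YBox1T j k n a b p q j = a := by simp [YBox1T]
theorem YBox1C.tk (h : YBox1C j k n m) : YBox1T j k n a b p q k = b := by
  simp [YBox1T, h.jk.symm]
theorem YBox1C.tn (h : YBox1C j k n m) : YBox1T j k n a b p q n = p := by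
  simp [YBox1T, h.jn.symm, h.kn.symm]
theorem YBox1C.tm (h : YBox1C j k n m) : YBox1T j k n a b p q m = q := by
  simp [YBox1T, h.jm.symm, h.km.symm, h.nm.symm]

theorem YBox1C.eta (h : YBox1C j k n m) (T : Rn 4) :
    YBox1T j k n (T j) (T k) (T n) (T m) = T := by
  funext d
  rcases h.all d with rfl | rfl | rfl | rfl
  exacts [YBox1T_j, h.tk, h.tn, h.tm]

theorem YBox1C.mem (h : YBox1C j k n m) (ha : a ∈ Icc (0 : ℝ) 1) (hb : b ∈ Icc (0 : ℝ) 1)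
    (hp : p ∈ Icc (0 : ℝ) 1) (hq : q ∈ Icc (0 : ℝ) 1) (e : p = 1 ∨ q = 1) :
    YBox1T j k n a b p q ∈ YQ := by
  refine ⟨fun d => ?_, ?_⟩
  · unfold YBox1T
    split_ifs <;> assumption
  · rcases e with e | e
    exacts [⟨n, h.tn.trans e⟩, ⟨m, h.tm.trans e⟩]

theorem YBox1T_tp {a b p q : Rn 3 → ℝ} (ha : TP a) (hb : TP b) (hp : TP p) (hq : TP q) :
    TP fun x => YBox1T j k n (a x) (b x) (p x) (q x) := by
  refine TP.pi fun d => ?_
  unfold YBox1T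
  split_ifs <;> assumption

end

theorem YBox1_ball {g : ℝ} (h0 : 0 < g) (h1 : g ≤ 1 / 8) : ∃ S, Ball (mBox g) S := by
  have e : mBox g = Icc ![g / 8, g / 8, -(g / 4)] ![1 - g / 8, 1 - g / 8, g / 4] := by
    ext x
    simp only [mBox, mem_ofPred_eq, mem_Icc, Pi.le_def, Fin.forall_fin_succ, abs_le]
    simp
    tauto
  rw [e]
  refine ⟨_, ball_box fun i => ?_⟩
  fin_cases i <;> simp <;> linarith only [h0, h1]

namespace Cx
variable {V : Set (Rn 3)} {X : Cx V} {c c' : Fin 4 → Set (Rn 3)} {T : Rn 4}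
  {y z : Rn 3} {v : Set (Rn 3)} {d e dj dk n m : Fin 4}

theorem YBox1_pt (h : ∀ d, d ≠ m → c d = c' d) (hT : ∀ d, 0 ≤ T d) (h0 : T m = 0) :
    X.pt c T = X.pt c' T := by
  unfold pt bp
  refine Finset.sum_congr rfl fun d _ => ?_
  by_cases e : d = m
  · have := yio_bd hT d
    have k : yio T d = 0 := by
      rw [e] at this ⊢
      linarith only [h0, this, this.1, this.2]
    rw [k, zero_smul, zero_smul]
  · rw [h d e]

theorem YBox1_col (h : X.Rep z c' T) (hc : X.Fl c) (hp : 0 < X.tt (c d) z) : c' d = c d := by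
  obtain ⟨e, he⟩ := h.of_pos hp
  have : e = d := by
    have k1 := h.1.dm e
    rw [he, hc.dm d] at k1
    exact Fin.ext k1.symm
  rw [← he, this]

/-- The normal direction of a square. -/
structure YBox1D (X : Cx V) (σ : Set (Set (Rn 3))) (c : Fin 4 → Set (Rn 3)) (m : Fin 4) (δ : ℝ)
    (u : ℝ → Set (Rn 3)) (P Q : ℝ → ℝ) : Prop where
  fl : ∀ s, X.Fl (update c m (u s))
  mem : ∀ s, |s| ≤ δ → P s ≤ 1 ∧ Q s ∈ Icc (0 : ℝ) 1 ∧ (P s = 1 ∨ Q s = 1) ∧ 1 - |s| ≤ P s ∧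
    (u s ∈ σ → 1 - |s| ≤ Q s) ∧ (u s ∉ σ → Q s ≤ |s|) ∧ (c m ∈ σ → u s = c m)
  inj : ∀ s s', P s = P s' → Q s = Q s' → (Q s ≠ 0 → u s = u s') → s = s'
  sur : ∀ v, X.Fl (update c m v) → (c m ∈ σ → v = c m) → ∀ p q r : ℝ, r ≤ δ → p ≤ 1 →
    q ∈ Icc (0 : ℝ) 1 → (p = 1 ∨ q = 1) → 1 - r ≤ p → (v ∈ σ → 1 - r ≤ q) → (v ∉ σ → q ≤ r) →
      ∃ s, |s| ≤ r ∧ P s = p ∧ Q s = q ∧ (q ≠ 0 → u s = v)
  top : (∀ s, |s| ≤ δ → Q s ≠ 0) ∨ ∀ s, (Q s = 0 ↔ s = 0)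

theorem YBox1_two {σ : Set (Set (Rn 3))} {δ : ℝ} (hδ : δ < 1) (hc : X.Fl c) (hm : c m ∈ σ) :
    YBox1D X σ c m δ (fun _ => c m) (fun s => min 1 (1 - s)) fun s => min 1 (1 + s) where
  fl := fun _ => by rwa [update_eq_self]
  mem := fun s hs => by
    have k1 := le_abs_self s
    have k2 := neg_abs_le s
    have k3 := abs_nonneg s
    refine ⟨min_le_left _ _, ⟨le_min zero_le_one (by linarith), min_le_left _ _⟩, ?_,
      le_min (by linarith) (by linarith), fun _ => le_min (by linarith) (by linarith),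
      fun k => (k hm).elim, fun _ => rfl⟩
    rcases le_total s 0 with k | k
    exacts [Or.inl (min_eq_left (by linarith)), Or.inr (min_eq_left (by linarith))]
  inj := fun s s' h1 h2 _ => by
    simp only [min_def] at h1 h2
    split_ifs at h1 h2 <;> linarith
  sur := fun v _ hv p q r _ hp hq e h1 h2 _ => by
    have h3 := h2 (hv hm ▸ hm)
    refine ⟨q - p, abs_le.2 ⟨by linarith, by linarith [hq.2]⟩, ?_, ?_, fun _ => (hv hm).symm⟩
    · rcases e with e | e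
      · rw [min_eq_left (by linarith [hq.2]), e]
      · rw [min_eq_right (by linarith)]
        linarith
    · rcases e with e | e
      · rw [min_eq_right (by linarith [hq.2])]
        linarith
      · rw [min_eq_left (by linarith), e]
  top := Or.inl fun s hs => (lt_min one_pos (by linarith [neg_abs_le s])).ne'

theorem YBox1_one {σ : Set (Set (Rn 3))} {δ : ℝ} (hδ : δ < 1) (hc : X.Fl c) (hm : c m ∉ σ)
    (hv : v ∉ σ) (h0 : v ≠ c m) (h1 : X.Fl (update c m v))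
    (h2 : ∀ c', X.Fl c' → (∀ e, e ≠ m → c' e = c e) → c' m = c m ∨ c' m = v) :
    YBox1D X σ c m δ (fun s => if s ≤ 0 then v else c m) (fun _ => 1) fun s => |s| where
  fl := fun s => by
    split_ifs
    · exact h1
    · rwa [update_eq_self]
  mem := fun s hs => by
    refine ⟨le_rfl, ⟨abs_nonneg s, by linarith⟩, Or.inl rfl, by linarith [abs_nonneg s],
      fun k => ?_, fun _ => le_rfl, fun k => (hm k).elim⟩
    split_ifs at k
    exacts [(hv k).elim, (hm k).elim]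
  inj := fun s s' _ e1 e2 => by
    rcases abs_eq_abs.1 e1 with e | e
    · exact e
    · by_contra k
      have k0 : s ≠ 0 := fun z => k (by linarith)
      have := e2 (abs_ne_zero.2 k0)
      split_ifs at this with a b b
      · exact k (by linarith only [e, b, a])
      · exact h0 this
      · exact h0 this.symm
      · exact k (by linarith)
  sur := fun w hw _ p q r hr _ hq e _ _ e2 => by
    have k := h2 _ hw fun e he => update_of_ne he _ _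
    rw [update_self] at k
    have k1 : q ≤ r := e2 (by rcases k with k | k <;> rwa [k])
    have k2 : 1 = p := (e.resolve_right (by linarith)).symm
    rcases k with k | k
    · refine ⟨q, by rwa [abs_of_nonneg hq.1], k2, abs_of_nonneg hq.1, fun z => ?_⟩
      rw [if_neg (not_le.2 (hq.1.lt_of_ne' z)), k]
    · refine ⟨-q, by rwa [abs_neg, abs_of_nonneg hq.1], k2, by rw [abs_neg, abs_of_nonneg hq.1],
        fun _ => ?_⟩
      rw [if_pos (by linarith [hq.1]), k]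
  top := Or.inr fun _ => abs_eq_zero

theorem YBox1_main {g : ℝ} (h0 : 0 < g) (h1 : g ≤ 1 / 8) {σ : Set (Set (Rn 3))}
    (hC : YBox1C dj dk n m) (hc : X.Fl c) (hn : c n ∈ σ)
    (hσ : ∀ v ∈ σ, v ≠ c dj → v ≠ c dk → v = c n ∨ v = c m) {u : ℝ → Set (Rn 3)} {P Q : ℝ → ℝ}
    (hD : YBox1D X σ c m (g / 4) u P Q) {G : Rn 3 → Rn 3} (hG : TP G)
    (hE : ∀ x ∈ mBox g, G x = X.pt (update c m (u (x 2)))
      (YBox1T dj dk n (x 0) (x 1) (P (x 2)) (Q (x 2)))) : ∃ χ, LH χ ∧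
    (∀ x ∈ mBox g, χ x ∈ V ∧ X.tt (c dj) (χ x) = x 0 ∧ X.tt (c dk) (χ x) = x 1 ∧
      Ptn X.tt σ {c dj, c dk} |x 2| (χ x) ∧
      ∀ x' ∈ mBox g, x' 2 = x 2 → ∀ v, v ≠ c dj → v ≠ c dk → X.tt v (χ x') = X.tt v (χ x)) ∧
    (∀ z ∈ V, ∀ r ≤ g / 4, X.tt (c dj) z ∈ Icc (g / 8) (1 - g / 8) →
      X.tt (c dk) z ∈ Icc (g / 8) (1 - g / 8) → Ptn X.tt σ {c dj, c dk} r z →
        ∃ x ∈ mBox g, |x 2| ≤ r ∧ χ x = z) ∧
    (∀ x ∈ mBox g, ∀ x' ∈ mBox g, x 2 = 0 → x' 2 = 0 → XEq X.tt (χ x) (χ x')) ∧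
    ((∀ x ∈ mBox g, X.TT (χ x) 3 ≠ 0) ∨ ∀ x ∈ mBox g, (X.TT (χ x) 3 = 0 ↔ x 2 = 0)) := by
  have R : ∀ x ∈ mBox g, X.Rep (G x) (update c m (u (x 2)))
      (YBox1T dj dk n (x 0) (x 1) (P (x 2)) (Q (x 2))) := fun x hx => by
    obtain ⟨a1, a2, a3, a4, -⟩ := hD.mem _ hx.2.2
    exact ⟨hD.fl _, hC.mem ⟨by linarith only [h0, hx, hx.1.1], by linarith only [h0, hx, hx.1.2]⟩
      ⟨by linarith [hx.2.1.1], by linarith [hx.2.1.2]⟩ ⟨by linarith only [h0, h1, a4, hx, hx.2.2], a1⟩ a2 a3, hE x hx⟩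
  have hi : InjOn G (mBox g) := fun x hx x' hx' e => by
    obtain ⟨k1, k2⟩ := (R x hx).uniq (e ▸ R x' hx')
    have e0 := congrFun k1 dj
    have e1 := congrFun k1 dk
    have e2 := congrFun k1 n
    have e3 := congrFun k1 m
    have e4 := k2 m
    simp only [YBox1T_j, hC.tk, hC.tn, hC.tm, update_self] at e0 e1 e2 e3 e4
    funext i
    fin_cases i
    exacts [e0, e1, hD.inj _ _ e2 e3 e4]
  obtain ⟨S, hS⟩ := YBox1_ball h0 h1
  obtain ⟨χ, hχ, hχG⟩ := emb_lh hS hG hi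
  have R' : ∀ x ∈ mBox g, X.Rep (χ x) (update c m (u (x 2)))
      (YBox1T dj dk n (x 0) (x 1) (P (x 2)) (Q (x 2))) := fun x hx => hχG hx ▸ R x hx
  have tj : ∀ x ∈ mBox g, X.tt (c dj) (χ x) = x 0 := fun x hx => by
    simpa only [update_of_ne hC.jm, YBox1T_j] using (R' x hx).tt_eq dj
  have tk : ∀ x ∈ mBox g, X.tt (c dk) (χ x) = x 1 := fun x hx => by
    simpa only [update_of_ne hC.km, hC.tk] using (R' x hx).tt_eq dk
  have tn : ∀ x ∈ mBox g, X.tt (c n) (χ x) = P (x 2) := fun x hx => by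
    simpa only [update_of_ne hC.nm, hC.tn] using (R' x hx).tt_eq n
  have tm : ∀ x ∈ mBox g, X.tt (u (x 2)) (χ x) = Q (x 2) := fun x hx => by
    simpa only [update_self, hC.tm] using (R' x hx).tt_eq m
  have tz : ∀ x ∈ mBox g, ∀ v, v ≠ c dj → v ≠ c dk → v ≠ c n → v ≠ u (x 2) →
      X.tt v (χ x) = 0 := fun x hx v a1 a2 a3 a4 => (R' x hx).tt_zero fun d => by
    rcases hC.all d with rfl | rfl | rfl | rfl
    · rw [update_of_ne hC.jm]; exact a1.symm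
    · rw [update_of_ne hC.km]; exact a2.symm
    · rw [update_of_ne hC.nm]; exact a3.symm
    · rw [update_self]; exact a4.symm
  have te : ∀ x ∈ mBox g, ∀ x' ∈ mBox g, x' 2 = x 2 → ∀ v, v ≠ c dj → v ≠ c dk →
      X.tt v (χ x') = X.tt v (χ x) := fun x hx x' hx' e v a1 a2 => by
    by_cases a3 : v = c n
    · rw [a3, tn x hx, tn x' hx', e]
    by_cases a4 : v = u (x 2)
    · rw [a4, tm x hx, ← e, tm x' hx']
    rw [tz x hx v a1 a2 a3 a4, tz x' hx' v a1 a2 a3 (e ▸ a4)]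
  refine ⟨χ, hχ, fun x hx => ⟨(R' x hx).mem, tj x hx, tk x hx, fun v hv => ?_, te x hx⟩,
    fun z hz r hr zj zk zp => ?_, fun x hx x' hx' e e' v => ?_, ?_⟩
  · simp only [mem_insert_iff, mem_singleton_iff, not_or] at hv
    obtain ⟨-, -, -, a4, a5, a6, a7⟩ := hD.mem _ hx.2.2
    by_cases b3 : v = c n
    · rw [b3, tn x hx]
      exact ⟨fun _ => a4, fun k => (k hn).elim⟩
    by_cases b4 : v = u (x 2)
    · rw [b4, tm x hx]
      exact ⟨a5, a6⟩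
    rw [tz x hx v hv.1 hv.2 b3 b4]
    refine ⟨fun k => ?_, fun _ => abs_nonneg _⟩
    have b5 := (hσ v k hv.1 hv.2).resolve_left b3
    exact (b4 (b5.trans (a7 (b5 ▸ k)).symm)).elim
  · have Rz := X.rep hz
    have ne : ∀ d, d ≠ dj → d ≠ dk → c d ∉ ({c dj, c dk} : Set (Set (Rn 3))) := fun d a b k => by
      rcases k with k | k
      exacts [a (hc.inj k), b (hc.inj k)]
    have zn := (zp _ (ne n hC.jn.symm hC.kn.symm)).1 hn
    have cj := YBox1_col Rz hc (d := dj) (by linarith only [h0, zj, zj.1])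
    have ck := YBox1_col Rz hc (d := dk) (by linarith only [h0, zk, zk.1])
    have cn := YBox1_col Rz hc (d := n) (by linarith only [h0, h1, hr, zn])
    have cu : update c m (X.fl z m) = X.fl z := by
      funext d
      rcases hC.all d with rfl | rfl | rfl | rfl
      · rw [update_of_ne hC.jm, cj]
      · rw [update_of_ne hC.km, ck]
      · rw [update_of_ne hC.nm, cn]
      · rw [update_self]
    rw [← cj, Rz.tt_eq] at zj
    rw [← ck, Rz.tt_eq] at zk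
    rw [← cn, Rz.tt_eq] at zn
    have zm := zp (X.fl z m) (by
      rw [← cj, ← ck]
      rintro (k | k)
      exacts [hC.jm (Rz.1.inj k).symm, hC.km (Rz.1.inj k).symm])
    rw [Rz.tt_eq] at zm
    have one : X.TT z n = 1 ∨ X.TT z m = 1 := by
      obtain ⟨d, hd⟩ := Rz.2.1.2
      rcases hC.all d with rfl | rfl | rfl | rfl
      · linarith only [h0, hd, zj, zj.2]
      · linarith [zk.2]
      · exact Or.inl hd
      · exact Or.inr hd
    obtain ⟨s, s1, s2, s3, s4⟩ := hD.sur (X.fl z m) (cu.symm ▸ Rz.1) (fun k =>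
      YBox1_col Rz hc (by linarith only [h0, h1, hr, zp, ne, hC, k, (zp _ (ne m hC.jm.symm hC.km.symm)).1 k])) _ _ r hr
      (Rz.2.1.1 n).2 (Rz.2.1.1 m) one zn zm.1 zm.2
    have hx : (![X.TT z dj, X.TT z dk, s] : Rn 3) ∈ mBox g := ⟨zj, zk, s1.trans hr⟩
    refine ⟨_, hx, s1, ?_⟩
    have k := (R' _ hx).2.2
    simp only [Matrix.cons_val_zero, Matrix.cons_val_one, Matrix.cons_val, s2, s3, hC.eta] at k
    rw [k]
    refine ((Rz.change (hD.fl s) fun d hd => ?_).2.2).symm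
    by_cases e : d = m
    · rw [e, update_self]
      exact s4 (e ▸ hd)
    · rw [update_of_ne e, ← cu, update_of_ne e]
  · by_cases a1 : v = c dj
    · rw [a1, tj x hx, tj x' hx']
      exact iff_of_true (by linarith only [h0, hx, hx.1.1]) (by linarith only [h0, hx', hx'.1.1])
    by_cases a2 : v = c dk
    · rw [a2, tk x hx, tk x' hx']
      exact iff_of_true (by linarith only [h0, hx, hx.2.1.1]) (by linarith only [h0, hx', hx'.2.1.1])
    rw [te x hx x' hx' (e'.trans e.symm) v a1 a2]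
  · rcases hC.all 3 with e | e | e | e
    · refine Or.inl fun x hx => ?_
      rw [(R' x hx).TT_eq, e, YBox1T_j]
      linarith [hx.1.1]
    · refine Or.inl fun x hx => ?_
      rw [(R' x hx).TT_eq, e, hC.tk]
      linarith [hx.2.1.1]
    · refine Or.inl fun x hx => ?_
      rw [(R' x hx).TT_eq, e, hC.tn]
      linarith only [h0, h1, hD, hx, (hD.mem _ hx.2.2).2.2.2.1, hx.2.2]
    · refine hD.top.imp (fun k x hx => ?_) fun k x hx => ?_
      · rw [(R' x hx).TT_eq, e, hC.tm]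
        exact k _ hx.2.2
      · rw [(R' x hx).TT_eq, e, hC.tm]
        exact k _

end Cx

end BEp
end
end

-- merged part: Pool.Agent.Work.MP_f0515e_an.P3.YBox2
section
/-! No circles in the two skeleton of the cube complex. -/

open Set Metric Filter Topology Function BEv MeasureTheory
open scoped NNReal ENNReal

noncomputable section
namespace BEp

namespace Cx
variable {V : Set (Rn 3)}

theorem YBox2_max (X : Cx V) {γ : Set (Rn 3)} {a : ℝ} {k n m : Fin 4} (hγ : Crc γ)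
    (hs : ∀ y ∈ γ, y ∈ V ∧ X.TT y 3 = 0) (ha : a ≠ 0) (hk : ∀ y ∈ γ, X.TT y k = a)
    (hall : ∀ d, d = k ∨ d = n ∨ d = m ∨ d = 3)
    (h1 : ∀ y ∈ γ, X.TT y n = 1 ∨ X.TT y m = 1) : ∃ y ∈ γ, 1 ≤ X.TT y n - X.TT y m := by
  have hT : ContinuousOn X.TT γ := (X.ltp_TT.continuousOn X.opn).mono fun y hy => (hs y hy).1
  have hf : ContinuousOn (fun y => X.TT y n - X.TT y m) γ :=
    ((continuous_apply n).comp_continuousOn hT).sub ((continuous_apply m).comp_continuousOn hT)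
  obtain ⟨y, hy, hmax, hni⟩ := crc_max hγ hf
  refine ⟨y, hy, ?_⟩
  by_contra hlt
  have R := fun z (hz : z ∈ γ) => X.rep (hs z hz).1
  have bd := fun z (hz : z ∈ γ) => (R z hz).2.1.1
  have hN : ∀ᶠ z in 𝓝 y, ∀ d, X.TT y d ≠ 0 → 0 < X.tt (X.fl y d) z := by
    refine eventually_all.2 fun d => ?_
    by_cases hd : X.TT y d = 0
    · exact Eventually.of_forall fun _ h => absurd hd h
    · have hc := (X.cont_tt (X.fl y d)).continuousAt (X.opn.mem_nhds (hs y hy).1)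
      have hp : 0 < X.tt (X.fl y d) y := by
        rw [(R y hy).tt_eq]
        exact lt_of_le_of_ne (bd y hy d).1 (Ne.symm hd)
      exact (hc.eventually (lt_mem_nhds hp)).mono fun _ h _ => h
  have key : ∀ z ∈ γ, (∀ d, X.TT y d ≠ 0 → 0 < X.tt (X.fl y d) z) →
      X.Rep z (X.fl y) (X.TT z) := by
    intro z hz hzN
    refine rep_of (R y hy).1 (hs z hz).1 fun v hv => ?_
    obtain ⟨d, rfl⟩ := (R z hz).of_pos hv
    have hp := hv
    rw [(R z hz).tt_eq] at hp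
    have hd : X.TT y d ≠ 0 := by
      intro h0
      rcases hall d with rfl | rfl | rfl | rfl
      · exact ha ((hk y hy).symm.trans h0)
      · have := hmax z hz
        have e := (h1 y hy).resolve_left (by rw [h0]; norm_num)
        linarith [(bd z hz m).2]
      · have e := (h1 y hy).resolve_right (by rw [h0]; norm_num)
        exact hlt (by rw [e, h0]; norm_num)
      · exact hp.ne' (hs z hz).2
    exact ⟨d, tt_col (hzN d hd) hv (((R y hy).1.dm d).trans ((R z hz).1.dm d).symm)⟩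
  refine hni _ hN fun z hz z' hz' e => ?_
  have e' : X.TT z n - X.TT z m = X.TT z' n - X.TT z' m := e
  have b1 := bd z hz.1 n
  have b2 := bd z hz.1 m
  have b3 := bd z' hz'.1 n
  have b4 := bd z' hz'.1 m
  have en : X.TT z n = X.TT z' n ∧ X.TT z m = X.TT z' m := by
    rcases h1 z hz.1 with p | p <;> rcases h1 z' hz'.1 with q | q <;>
      constructor <;> linarith only [p, q, e, b3, b2, b4, b1, b1.2, b2.2, b3.2, b4.2]
  have eT : X.TT z = X.TT z' := by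
    funext d
    rcases hall d with rfl | rfl | rfl | rfl
    · rw [hk z hz.1, hk z' hz'.1]
    · exact en.1
    · exact en.2
    · rw [(hs z hz.1).2, (hs z' hz'.1).2]
  rw [(key z hz.1 hz.2).2.2, eT]
  exact (key z' hz'.1 hz'.2).2.2.symm

theorem no_crc (X : Cx V) {g : ℝ} (h0 : 0 < g) (h1 : g ≤ 1 / 8) {γ j : Set (Rn 3)} {a : ℝ}
    (hγ : Crc γ) (hs : ∀ y ∈ γ, y ∈ V ∧ X.TT y 3 = 0) (ha : a ∈ Ioo g (1 - g))
    (hj : ∀ y ∈ γ, X.tt j y = a) : ¬ ∀ y ∈ γ, ∀ v, v ≠ j → dev (X.tt v y) ≤ g / 2 := by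
  intro H
  have R := fun z (hz : z ∈ γ) => X.rep (hs z hz).1
  have a0 : 0 < a := h0.trans ha.1
  obtain ⟨c, hc, -, hr⟩ := id hγ
  have y0 : c 0 ∈ γ := hr ▸ mem_range_self 0
  obtain ⟨k, hk0⟩ := (R _ y0).of_pos (v := j) (by rw [hj _ y0]; exact a0)
  have hk : ∀ y ∈ γ, X.fl y k = j := fun y hy => by
    obtain ⟨d, hd⟩ := (R y hy).of_pos (v := j) (by rw [hj y hy]; exact a0)
    have e : d = k := Fin.ext (by rw [← (R y hy).1.dm d, hd, ← hk0, (R _ y0).1.dm k])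
    exact e ▸ hd
  have hT : ∀ y ∈ γ, X.TT y k = a := fun y hy => by rw [← (R y hy).tt_eq, hk y hy, hj y hy]
  have k3 : k ≠ 3 := fun e => a0.ne' ((hT _ y0).symm.trans (e ▸ (hs _ y0).2))
  obtain ⟨n, m, hm, hall⟩ : ∃ n m : Fin 4, m ≠ k ∧ ∀ d, d = k ∨ d = n ∨ d = m ∨ d = 3 := by
    clear hk0 hk hT
    revert k
    decide
  have one : ∀ y ∈ γ, X.TT y n = 1 ∨ X.TT y m = 1 := fun y hy => by
    obtain ⟨d, hd⟩ := (R y hy).2.1.2
    rcases hall d with rfl | rfl | rfl | rfl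
    · rw [hT y hy] at hd
      linarith only [h0, hd, ha, ha.2]
    · exact Or.inl hd
    · exact Or.inr hd
    · rw [(hs y hy).2] at hd
      norm_num at hd
  obtain ⟨y1, hy1, e1⟩ := YBox2_max X hγ hs a0.ne' hT hall one
  obtain ⟨y2, hy2, e2⟩ := YBox2_max X (n := m) (m := n) hγ hs a0.ne' hT
    (fun d => by rcases hall d with h | h | h | h <;> simp [h]) fun y hy => (one y hy).symm
  have hC : ContinuousOn X.TT γ := (X.ltp_TT.continuousOn X.opn).mono fun y hy => (hs y hy).1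
  have hf : ContinuousOn (fun y => X.TT y n - X.TT y m) γ :=
    ((continuous_apply n).comp_continuousOn hC).sub ((continuous_apply m).comp_continuousOn hC)
  have hp : IsPreconnected γ := hr ▸ isPreconnected_range hc.continuous
  obtain ⟨y, hy, e⟩ := hp.intermediate_value hy2 hy1 hf (show (1 / 2 : ℝ) ∈ _ from
    ⟨by linarith only [h0, h1, e2], by linarith only [h0, h1, e1]⟩)
  have e' : X.TT y n - X.TT y m = 1 / 2 := e
  have b := ((R y hy).2.1.1 n).2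
  have em : X.TT y m = 1 / 2 := by
    rcases one y hy with p | p <;> linarith only [e, p, b, h0, h1]
  have := H y hy (X.fl y m) fun h => hm ((R y hy).1.inj (h.trans (hk y hy).symm))
  rw [(R y hy).tt_eq, em, dev] at this
  norm_num at this
  linarith only [h0, h1, this]

end Cx

end BEp
end
end

-- merged part: Pool.Agent.Work.MP_f0515e_an.P3.YBox
section
/-! Charts of the squares of the cube complex; no circles in the two skeleton. -/

open Set Metric Filter Topology Function BEv MeasureTheory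
open scoped NNReal ENNReal

noncomputable section
namespace BEp

namespace Cx
variable {V : Set (Rn 3)} {X : Cx V} {c c' : Fin 4 → Set (Rn 3)} {w w' T T' : Rn 4}
  {y y' z z' : Rn 3} {v v' : Set (Rn 3)} {d e : Fin 4}

theorem box_chart (X : Cx V) {g : ℝ} (h0 : 0 < g) (h1 : g ≤ 1 / 8) (σ : Set (Set (Rn 3)))
    (j k : Set (Rn 3)) (hjk : j ≠ k) (y : Rn 3) (hy : y ∈ V)
    (hj : X.tt j y ∈ Icc (g / 8) (1 - g / 8)) (hk : X.tt k y ∈ Icc (g / 8) (1 - g / 8))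
    (hp : Ptn X.tt σ {j, k} (g / 4) y) : ∃ χ, LH χ ∧
    (∀ x ∈ mBox g, χ x ∈ V ∧ X.tt j (χ x) = x 0 ∧ X.tt k (χ x) = x 1 ∧
      Ptn X.tt σ {j, k} |x 2| (χ x) ∧
      ∀ x' ∈ mBox g, x' 2 = x 2 → ∀ v, v ≠ j → v ≠ k → X.tt v (χ x') = X.tt v (χ x)) ∧
    (∀ z ∈ V, ∀ r ≤ g / 4, X.tt j z ∈ Icc (g / 8) (1 - g / 8) →
      X.tt k z ∈ Icc (g / 8) (1 - g / 8) → Ptn X.tt σ {j, k} r z →
        ∃ x ∈ mBox g, |x 2| ≤ r ∧ χ x = z) ∧
    (∀ x ∈ mBox g, ∀ x' ∈ mBox g, x 2 = 0 → x' 2 = 0 → XEq X.tt (χ x) (χ x')) ∧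
    ((∀ x ∈ mBox g, X.TT (χ x) 3 ≠ 0) ∨ ∀ x ∈ mBox g, (X.TT (χ x) 3 = 0 ↔ x 2 = 0)) := by
  have Ry := X.rep hy
  obtain ⟨dj, rfl⟩ := Ry.of_pos (v := j) (by linarith only [h0, hj, hj.1])
  obtain ⟨dk, rfl⟩ := Ry.of_pos (v := k) (by linarith [hk.1])
  obtain ⟨n, hn⟩ := Ry.2.1.2
  rw [← Ry.tt_eq] at hn
  have n1 : dj ≠ n := by
    rintro rfl
    linarith [hj.2]
  have n2 : dk ≠ n := by
    rintro rfl
    linarith [hk.2]
  obtain ⟨m, hC⟩ := YBox1C_ex (j := dj) (k := dk) (fun e => hjk (by rw [e])) n1 n2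
  have hc := Ry.1
  have hnσ : X.fl y n ∈ σ := by
    by_contra e
    have := (hp (X.fl y n) (by
      rintro (k | k)
      exacts [n1 (hc.inj k).symm, n2 (hc.inj k).symm])).2 e
    linarith
  have hσ : ∀ v ∈ σ, v ≠ X.fl y dj → v ≠ X.fl y dk → v = X.fl y n ∨ v = X.fl y m := by
    intro v hv a b
    have := (hp v (by
      rintro (k | k)
      exacts [a k, b k])).1 hv
    obtain ⟨d, rfl⟩ := Ry.of_pos (v := v) (by linarith)
    rcases hC.all d with rfl | rfl | rfl | rfl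
    exacts [(a rfl).elim, (b rfl).elim, Or.inl rfl, Or.inr rfl]
  have t0 : TP fun x : Rn 3 => x 0 := TP.id'.apply 0
  have t1 : TP fun x : Rn 3 => x 1 := TP.id'.apply 1
  have t2 : TP fun x : Rn 3 => x 2 := TP.id'.apply 2
  by_cases hm : X.fl y m ∈ σ
  · exact YBox1_main h0 h1 hC hc hnσ hσ (YBox1_two (by linarith only [h0, h1]) hc hm)
      ((X.tp_pt _).comp (YBox1T_tp t0 t1 ((TP.const 1).min ((TP.const 1).sub t2))
        ((TP.const 1).min ((TP.const 1).add t2)))) fun _ _ => rfl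
  · obtain ⟨v, v0, v1, v2⟩ := two_flags hc m
    have col : ∀ d, d ≠ m → v ≠ X.fl y d := fun d hd e => by
      have k : update (X.fl y) m v m = update (X.fl y) m v d := by
        rw [update_self, update_of_ne hd, e]
      exact hd (v1.inj k).symm
    have hv : v ∉ σ := fun k =>
      (hσ v k (col _ hC.jm) (col _ hC.km)).elim (col _ hC.nm) v0
    have tT := YBox1T_tp (j := dj) (k := dk) (n := n) t0.abs t1.abs (TP.const 1) t2.abs
    refine YBox1_main h0 h1 hC hc hnσ hσ (YBox1_one (by linarith) hc hm hv v0 v1 v2)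
      (tp_ite ((X.tp_pt (update (X.fl y) m v)).comp tT)
        ((X.tp_pt (update (X.fl y) m (X.fl y m))).comp tT) t2.continuous fun x hx => ?_)
      fun x hx => ?_
    · refine YBox1_pt (m := m) (fun d hd => by rw [update_of_ne hd, update_of_ne hd])
        (fun d => ?_) (by rw [hC.tm, hx, abs_zero])
      unfold YBox1T
      split_ifs
      exacts [abs_nonneg _, abs_nonneg _, zero_le_one, abs_nonneg _]
    · rw [abs_of_nonneg (a := x 0) (by linarith only [h0, hx, hx.1.1]),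
        abs_of_nonneg (a := x 1) (by linarith [hx.2.1.1])]
      split_ifs <;> rfl

end Cx

end BEp
end
end
end

-- merged part: Pool.Agent.Work.MP_f0515e_an.P3.YApi
section
-- merged part: Pool.Agent.Work.MP_f0515e_an.P3.YSt1
section
/-! First consequences of the adapted structure. -/

open Set Metric Filter Topology Function BEv MeasureTheory
open scoped NNReal ENNReal

noncomputable section
namespace BEp

variable {ι : Type} {V : Set (Rn 3)} {θ l c : Rn 3 → ℝ} {Cm C0 g Kp : ℝ}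
  {Cf : (Rn 3 ≃L[ℝ] Rn 3) → ℝ} {P : ι → Pc} {X : Cx V}

namespace Str

theorem yst_self {Q : Pc} {x : Rn 3} (hx : x ∈ Q.Bx) : Q.Nr (30 * Q.l) (Q.aff x) :=
  ⟨x, hx, by
    rw [sub_self, norm_zero]
    linarith [Q.l_pos]⟩

theorem cell_Bx (h : Str θ Cm C0 Cf P X l c) {b : ι} {x : Rn 3} (hx : x ∈ (P b).Bx) :
    (P b).aff x ∈ V ∧ ∀ y ∈ X.M.cell ((P b).aff x), (P b).Lat x ((P b).inv y) := by
  have hV := (h.nr b _ (yst_self hx)).1
  refine ⟨hV, fun y hy => ?_⟩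
  have := h.bar b _ hV ⟨_, subset_closure (X.M.mem _ hV), x, hx, rfl⟩ y hy
  rwa [Pc.inv_aff] at this

theorem TT_Bx (h : Str θ Cm C0 Cf P X l c) {b : ι} (ok : (P b).Ok) {x : Rn 3} (hx : x ∈ (P b).Bx)
    {d : Fin 4} (hd : min (P b).I.card 2 < d) : X.TT ((P b).aff x) d = 0 := by
  exact X.TT_hi (h.cell_Bx hx).1 ((ok.thin hx (h.cell_Bx hx).2).trans_lt hd)

theorem osc (h : Str θ Cm C0 Cf P X l c) (hC : 1 ≤ Cm) (h0 : 0 < g) (h1 : g ≤ 1 / 8) {b : ι}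
    {y : Rn 3} (hy : (P b).Nr (g * (P b).l / Cf (P b).A) y) : y ∈ V ∧ (P b).Nr (P b).l y ∧
      ∃ x ∈ (P b).Bx, ∀ v, |X.tt v y - X.tt v ((P b).aff x)| ≤ g / 1000 := by
  obtain ⟨x, hx, k⟩ := hy
  obtain ⟨a1, a2, a3, -⟩ := h.nr b _ (yst_self hx)
  have a4 := h.c1 ((P b).aff x)
  have a5 := (P b).l_pos
  have a6 : 0 < Cf (P b).A := by linarith only [hC, h0, h1, a2, a4]
  have a7 : g * (P b).l / Cf (P b).A ≤ (P b).l := by
    rw [div_le_iff₀ a6, mul_comm]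
    exact mul_le_mul_of_nonneg_left (by linarith) a5.le
  refine ⟨(h.nr b y ⟨x, hx, by linarith⟩).1, ⟨x, hx, k.trans a7⟩, x, hx, fun v => ?_⟩
  have a8 := h.lo _ a1 y ((P b).aff x) (by linarith) (by rw [sub_self, norm_zero]; linarith) v
  have a9 : c ((P b).aff x) * ‖y - (P b).aff x‖ ≤ (P b).l * (g / 1000) := by
    refine (mul_le_mul (show _ ≤ Cf (P b).A / 1000 by linarith only [a2]) k (norm_nonneg _)
      (by linarith only [hC, h0, h1, a2, a4])).trans_eq ?_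
    field_simp
  refine le_of_mul_le_mul_left (le_trans ?_ (a8.trans a9)) a5
  refine mul_le_mul_of_nonneg_right (a3.trans ?_) (abs_nonneg _)
  exact le_mul_of_one_le_left (by linarith only [a3, a5]) hC

theorem TT_nr (h : Str θ Cm C0 Cf P X l c) (hC : 1 ≤ Cm) (h0 : 0 < g) (h1 : g ≤ 1 / 8) {b : ι}
    (ok : (P b).Ok) {y : Rn 3} (hy : (P b).Nr (g * (P b).l / Cf (P b).A) y) :
    X.TT y 3 ≤ g / 1000 := by
  obtain ⟨hV, -, x, hx, k⟩ := h.osc hC h0 h1 hy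
  have r := X.rep hV
  have r' := X.rep (h.cell_Bx hx).1
  have a : X.tt (X.fl y 3) ((P b).aff x) ≤ 0 := not_lt.1 fun q => by
    obtain ⟨d, hd⟩ := r'.of_pos q
    obtain rfl := Cx.ytt_col r'.1 r.1 hd
    rw [← hd, r'.tt_eq, h.TT_Bx ok hx ((min_le_right _ _).trans_lt (by decide))] at q
    exact q.false
  rw [← r.tt_eq]
  linarith only [a, k, (abs_le.1 (k (X.fl y 3))).2]

theorem lv (h : Str θ Cm C0 Cf P X l c) {y z : Rn 3} (hy : y ∈ V) (k : ‖z - y‖ ≤ 20 * l y) :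
    z ∈ V ∧ l z ≤ 2 * l y ∧ l y ≤ 2 * l z := by
  have a := h.scl.pos y hy
  have b := h.scl.le (z := z) (a := 20) (by norm_num) (by norm_num) hy (by rwa [norm_sub_rev])
  exact ⟨h.scl.sub y hy (mem_ball_iff_norm.2 (by linarith)), b.2, b.1⟩

theorem bnr (h : Str θ Cm C0 Cf P X l c) {v : Set (Rn 3)} {y : Rn 3} (hv : 0 < X.tt v y) :
    ‖y - X.b v‖ ≤ l y := by
  obtain ⟨a1, a2, a3⟩ := Cx.tt_pos hv
  rw [norm_sub_rev]
  exact mem_closedBall_iff_norm.1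
    (h.up y a1 y a1 (subset_closure (X.M.mem y a1)) (a3 (X.hb v a2)))

theorem star (h : Str θ Cm C0 Cf P X l c) {y y' : Rn 3} (k : Nb X.tt y y') : l y' ≤ 4 * l y := by
  obtain ⟨v, a, a'⟩ := k
  have hy := (Cx.tt_pos a).1
  have hy' := (Cx.tt_pos a').1
  have b := h.lv (z := X.b v) hy (by
    rw [norm_sub_rev]; linarith [h.bnr a, h.scl.pos y hy])
  have b' := h.lv (z := X.b v) hy' (by
    rw [norm_sub_rev]; linarith [h.bnr a', h.scl.pos y' hy'])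
  linarith [b.2.1, b'.2.2]

theorem tlip (h : Str θ Cm C0 Cf P X l c) (hC : 1 ≤ Cm) {y z : Rn 3} (hy : y ∈ V)
    (k : ‖z - y‖ ≤ 3 * l y) (v : Set (Rn 3)) : LL (X.tt v) z (c y / Cm / l y) := by
  have a := h.scl.pos y hy
  have e : ∀ᶠ p in 𝓝 z, ‖p - y‖ ≤ 10 * l y :=
    (((continuous_id.sub continuous_const).norm.tendsto z).eventually
      (gt_mem_nhds (show ‖z - y‖ < 10 * l y by linarith))).mono fun _ q => q.le
  filter_upwards [(continuous_fst.tendsto (z, z)).eventually e,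
    (continuous_snd.tendsto (z, z)).eventually e] with p q1 q2
  rw [div_div, div_mul_eq_mul_div, le_div_iff₀ (by positivity), mul_comm]
  exact h.lo y hy _ _ q1 q2 v

theorem yst_two : ∀ d e : Fin 4, d ≠ e → ∃ j k : Fin 4, ∀ m, m ≠ j → m ≠ k → m = d ∨ m = e := by
  decide

theorem yst_dev {s s' r : ℝ} (h : s ∉ Ioo r (1 - r)) (k : |s' - s| ≤ r) : dev s' ≤ 2 * r := by
  obtain ⟨k1, k2⟩ := abs_le.1 k
  rcases not_and_or.1 h with q | q
  · exact (min_le_left _ _).trans (by linarith [not_lt.1 q])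
  · exact (min_le_right _ _).trans (by linarith [not_lt.1 q])

theorem good (h : Str θ Cm C0 Cf P X l c) (hC : 1000 ≤ Cm) (h0 : 0 < g) (h1 : g ≤ 1 / 8) {y : Rn 3}
    (hy : y ∈ X.Good g) : y ∈ V ∧ 64 * 40 ^ 2 * (g * l y / (1000 * c y)) ≤ l y ∧
      ball y (g * l y / (1000 * c y)) ⊆ V ∧ Sma X.tt (g / 32) (ball y (g * l y / (1000 * c y))) := by
  obtain ⟨hV, d, e, hde, hd, he⟩ := hy
  have a1 := h.scl.pos y hV
  have a2 := h.c1 y
  have a3 : 0 < c y := by linarith only [hC, h0, h1, a2]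
  have a4 : 64 * 40 ^ 2 * (g * l y / (1000 * c y)) ≤ l y := by
    rw [← mul_div_assoc, div_le_iff₀ (by positivity), ← mul_assoc, mul_comm]
    exact mul_le_mul_of_nonneg_left (by linarith) a1.le
  have a5 : 0 < g * l y / (1000 * c y) := by positivity
  have a6 : c y * (2 * (g * l y / (1000 * c y))) = l y * (g / 500) := by
    field_simp
    norm_num
  generalize g * l y / (1000 * c y) = r at a4 a5 a6 ⊢
  have a7 : ∀ v, ∀ z ∈ ball y r, ∀ z' ∈ ball y r, |X.tt v z - X.tt v z'| ≤ g / 64 :=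
    fun v z hz z' hz' => by
      rw [mem_ball_iff_norm] at hz hz'
      have b1 := h.lo y hV z z' (by linarith only [a4, a5, hz]) (by linarith only [a4, a5, hz']) v
      have b2 : ‖z - z'‖ ≤ 2 * r := by
        have := norm_sub_le_norm_sub_add_norm_sub z y z'
        rw [norm_sub_rev y] at this
        linarith only [hz, hz', this]
      have b3 := (b1.trans (mul_le_mul_of_nonneg_left b2 a3.le)).trans_eq a6
      have b4 : l y * |X.tt v z - X.tt v z'| ≤ Cm * l y * |X.tt v z - X.tt v z'| :=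
        mul_le_mul_of_nonneg_right (le_mul_of_one_le_left a1.le (by linarith only [hC, h0, h1])) (abs_nonneg _)
      linarith only [h0, b4, b3, a1, le_of_mul_le_mul_left (b4.trans b3) a1]
  obtain ⟨j, k, hjk⟩ := yst_two d e hde
  have q := X.rep hV
  refine ⟨hV, a4, fun z hz => (h.lv hV ?_).1, ⟨X.fl y j, X.fl y k, fun v v1 v2 z hz => ?_⟩,
    fun v z hz z' hz' => (a7 v z hz z' hz').trans (by linarith only [h0])⟩
  · linarith only [a4, a5, hz, mem_ball_iff_norm.1 hz]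
  · refine (yst_dev ?_ (a7 v z hz y (mem_ball_self a5))).trans_eq (by ring)
    by_cases hv : ∃ m, X.fl y m = v
    · obtain ⟨m, rfl⟩ := hv
      rw [q.tt_eq]
      rcases hjk m (fun s => v1 (s ▸ rfl)) (fun s => v2 (s ▸ rfl)) with rfl | rfl
      exacts [hd, he]
    · rw [q.tt_zero fun m s => hv ⟨m, s⟩]
      exact fun s => by linarith only [h0, s, s.1]

theorem bar' (h : Str θ Cm C0 Cf P X l c) {b : ι} (ok : (P b).Ok) {x : Rn 3} (hx : x ∈ (P b).Bx) :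
    (P b).aff x ∈ V ∧ ∀ y ∈ V, XEq X.tt ((P b).aff x) y → ∃ x' ∈ (P b).Bx, y = (P b).aff x' ∧
      (P b).Lat x x' ∧ (x ∈ (P b).Bd → x' ∈ (P b).Bd) := by
  obtain ⟨a1, a2⟩ := h.cell_Bx hx
  refine ⟨a1, fun y hy k => ?_⟩
  have a3 := a2 y (Cx.cell_eq_of a1 hy k ▸ X.M.mem y hy)
  exact ⟨_, ok.lat_Bx hx a3, ((P b).aff_inv y).symm, a3, fun q => ok.lat_Bd q a3⟩

end Str

end BEp
end
end

-- merged part: Pool.Agent.Work.MP_f0515e_an.P3.YSt21
section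
/-! Boxes and systems of the adapted structure. -/

open Set Metric Filter Topology Function BEv MeasureTheory
open scoped NNReal ENNReal

noncomputable section
namespace BEp

variable {ι : Type} {V : Set (Rn 3)} {θ l c : Rn 3 → ℝ} {Cm C0 g Kp : ℝ}
  {Cf : (Rn 3 ≃L[ℝ] Rn 3) → ℝ} {P : ι → Pc} {X : Cx V}

namespace Str

theorem YSt21_box (h : Str θ Cm C0 Cf P X l c) (ok : ∀ b, (P b).Ok)
    {χ : Rn 3 → Rn 3} (k0 : ∀ x ∈ mBox g, χ x ∈ V)
    (k1 : ∀ x ∈ mBox g, ∀ x' ∈ mBox g, x 2 = 0 → x' 2 = 0 → XEq X.tt (χ x) (χ x'))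
    (k2 : (∀ x ∈ mBox g, X.TT (χ x) 3 ≠ 0) ∨ ∀ x ∈ mBox g, (X.TT (χ x) 3 = 0 ↔ x 2 = 0)) :
    (∀ x ∈ mBox g, χ x ∉ BP P) ∨ ∀ x ∈ mBox g, (χ x ∈ BP P ↔ x 2 = 0) := by
  have z : ∀ y ∈ BP P, X.TT y 3 = 0 := by
    rintro _ ⟨b, -, x, hx, rfl⟩
    exact h.TT_Bx (ok b) hx ((min_le_right _ _).trans_lt (by decide))
  rcases k2 with k2 | k2
  · exact Or.inl fun x hx hb => k2 x hx (z _ hb)
  by_cases e : ∀ x ∈ mBox g, χ x ∉ BP P
  · exact Or.inl e
  push Not at e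
  obtain ⟨x0, hx0, hb0⟩ := e
  refine Or.inr fun x hx => ⟨fun hb => (k2 x hx).1 (z _ hb), fun h2 => ?_⟩
  have k := k1 x0 hx0 x hx ((k2 x0 hx0).1 (z _ hb0)) h2
  obtain ⟨b, hb, x1, hx1, e1⟩ := hb0
  rw [← e1] at k
  obtain ⟨x', hx', e', -⟩ := (h.bar' (ok b) hx1).2 _ (k0 x hx) k
  exact ⟨b, hb, x', hx', e'.symm⟩

theorem YSt21_pos (h0 : 0 < g) {A : Set (Rn 3) → Set ℝ} {ε : Set (Rn 3) → ℝ} (hA : XLev g A ε)
    {v : Set (Rn 3)} {t : ℝ} (k : ∀ a ∈ A v, a + ε v < t) : 0 < t := by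
  obtain ⟨a, ha⟩ := hA.ne v
  linarith [k a ha, (hA.inn v a ha).1, hA.pos v]

theorem YSt21_one (h : Str θ Cm C0 Cf P X l c) (hC : 1 ≤ Cm) (hP : PcIn V θ Cf P) {b b' : ι}
    {x x' : Rn 3} (hx : x ∈ (P b).Bx) (hx' : x' ∈ (P b').Bx)
    (k : (P b).aff x ∈ closure (X.M.cell ((P b').aff x'))) : b = b' := by
  by_contra hn
  have n : ∀ b, ∀ x ∈ (P b).Bx, (P b).Nr (30 * (P b).l) ((P b).aff x) := fun b x hx =>
    ⟨x, hx, by rw [sub_self, norm_zero]; linarith [(P b).l_pos]⟩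
  obtain ⟨-, a1, -, -⟩ := h.nr b _ (n b x hx)
  obtain ⟨hV, a2, -, a3⟩ := h.nr b' _ (n b' x' hx')
  have s := hP.sep b b' hn x hx.1 x' hx'.1
  have u := mem_closedBall_iff_norm.1 (h.up _ hV _ hV (subset_closure (X.M.mem _ hV)) k)
  have p1 := (P b).l_pos
  have p2 := (P b').l_pos
  linarith only [a3, s, u, p1, p2, hC, a1, a2, h, h.c1 ((P b).aff x), h.c1 ((P b').aff x'), mul_nonneg_of_nonpos_of_nonpos (Mathlib.Tactic.Linarith.sub_nonpos_of_le hC) (le_of_lt (Mathlib.Tactic.Linarith.sub_neg_of_lt p1)), mul_nonneg_of_nonpos_of_nonpos (Mathlib.Tactic.Linarith.sub_nonpos_of_le hC) (le_of_lt (Mathlib.Tactic.Linarith.sub_neg_of_lt p2)), mul_nonneg_of_nonpos_of_nonpos (Mathlib.Tactic.Linarith.sub_nonpos_of_le a1) (le_of_lt (Mathlib.Tactic.Linarith.sub_neg_of_lt p1)), mul_nonneg_of_nonpos_of_nonpos (Mathlib.Tactic.Linarith.sub_nonpos_of_le a2) (le_of_lt (Mathlib.Tactic.Linarith.sub_neg_of_lt p2)),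 mul_nonneg_of_nonpos_of_nonpos (le_of_lt (Mathlib.Tactic.Linarith.sub_neg_of_lt p1)) (Mathlib.Tactic.Linarith.sub_nonpos_of_le (h.c1 ((P b).aff x))), mul_nonneg_of_nonpos_of_nonpos (le_of_lt (Mathlib.Tactic.Linarith.sub_neg_of_lt p2)) (Mathlib.Tactic.Linarith.sub_nonpos_of_le (h.c1 ((P b').aff x')))]

theorem YSt21_sys (h : Str θ Cm C0 Cf P X l c) (hC : 1 ≤ Cm) (hP : PcIn V θ Cf P) (h0 : 0 < g)
    {A : Set (Rn 3) → Set ℝ} {ε : Set (Rn 3) → ℝ} (hA : XLev g A ε) :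
    ∃ W, B0 P ⊆ W ∧ W ⊆ BP P ∧ ∀ (d : ℕ) (σ : Set (Set (Rn 3))), σ.Nonempty →
      (∀ v ∈ σ, dm v ≠ d) →
      SysOn V X.tt (fun v y s => X.sh v s y) A ε (Rg1 V X.tt A ε σ {v | dm v = d}) ∧
      SysOn V X.tt (fun v y s => X.sh v s y) A ε (Rg1 V X.tt A ε σ {v | dm v = d} \ W) := by
  refine ⟨{y | y ∈ BP P ∧ ∀ v, (∀ a ∈ A v, a + ε v < X.tt v y) → v ⊆ B0 P}, ?_,
    fun y hy => hy.1, fun d σ hσ hm => ?_⟩
  · rintro _ ⟨b, hb, x, hx, rfl⟩
    refine ⟨⟨b, hb, x, (P b).Bd_sub hx, rfl⟩, fun v hv z hz => ⟨b, hb, ?_⟩⟩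
    refine closure_minimal (fun y hy => ?_) (P b).cpt_Bd.isClosed
      ((Cx.tt_pos (YSt21_pos h0 hA hv)).2.2 hz)
    exact ⟨_, (hP.ok b).lat_Bd hx ((h.cell_Bx ((P b).Bd_sub hx)).2 y hy), (P b).aff_inv y⟩
  have u : SysOn V X.tt (fun v y s => X.sh v s y) A ε (Rg1 V X.tt A ε σ {v | dm v = d}) := by
    have k := X.sys_gen h0 hA d hσ hm (fun i => cond i univ ∅)
      (fun i => by cases i; exacts [side_empty, side_univ]) (fun y => ⟨true, mem_univ y⟩)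
      (fun i => by cases i <;> simp)
      (fun i y hy _ => by cases i; exacts [hy.elim, subset_univ _]) ∅
    rwa [Disjoint.sdiff_eq_left (disjoint_left.2 fun y _ hy => hy.1 false)] at k
  refine ⟨u, ?_⟩
  by_cases e : Disjoint (Rg1 V X.tt A ε σ {v | dm v = d})
      {y | y ∈ BP P ∧ ∀ v, (∀ a ∈ A v, a + ε v < X.tt v y) → v ⊆ B0 P}
  · rwa [e.sdiff_eq_left]
  obtain ⟨y0, r0, w0⟩ := not_disjoint_iff.1 e
  have hi : ∀ y ∈ Rg1 V X.tt A ε σ {v | dm v = d}, ∀ v ∈ σ, ∀ a ∈ A v, a + ε v < X.tt v y :=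
    fun y hy v hv a ha => (hy.2 v (hm v hv) a ha).1 hv
  have sB : ∀ v ∈ σ, v ⊆ B0 P := fun v hv => w0.2 v (hi y0 r0 v hv)
  obtain ⟨v0, hv0⟩ := id hσ
  obtain ⟨z0, hz0⟩ := Kx.cells_ne (Cx.tt_pos (YSt21_pos h0 hA (hi y0 r0 v0 hv0))).2.1
  obtain ⟨b, hb, x0, hx0, rfl⟩ := sB v0 hv0 hz0
  obtain ⟨S, s1, s2, s3, s4, s5, s6⟩ := (hP.ok b).sides hb
  have lat : ∀ y, 0 < X.tt v0 y → ∀ y' ∈ X.M.cell y, (P b).Lat ((P b).inv y) ((P b).inv y') :=
    fun y hy => h.bar b y (Cx.tt_pos hy).1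
      ⟨_, (Cx.tt_pos hy).2.2 hz0, x0, (P b).Bd_sub hx0, rfl⟩
  have k := X.sys_gen h0 hA d hσ hm S s1 s2 s3
    (fun i y hy hv y' hy' => s4 i y hy y' (lat y (hv v0 hv0) y' hy')) {v | v ⊆ B0 P}
  have q : ∀ y ∈ Rg1 V X.tt A ε σ {v | dm v = d},
      ((∀ i, y ∈ S i) ∧ ∀ v, dm v = d → (∀ a ∈ A v, a + ε v < X.tt v y) → v ⊆ B0 P) ↔
      (y ∈ BP P ∧ ∀ v, (∀ a ∈ A v, a + ε v < X.tt v y) → v ⊆ B0 P) := fun y hy => by
    have p := YSt21_pos h0 hA (hi y hy v0 hv0)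
    have cl := (Cx.tt_pos p).2.2 hz0
    refine ⟨fun k => ⟨⟨b, hb, s6 _ y k.1 (lat y p) ⟨_, cl, x0, hx0, rfl⟩⟩, fun v hv => ?_⟩,
      fun k => ⟨?_, fun v _ => k.2 v⟩⟩
    · by_cases hd : dm v = d
      · exact k.2 v hd hv
      by_cases hs : v ∈ σ
      · exact sB v hs
      obtain ⟨a, ha⟩ := hA.ne v
      linarith only [hv, ha, hy, hd, hs, hA, hv a ha, (hy.2 v hd a ha).2 hs, hA.pos v]
    · obtain ⟨b', -, x', hx', rfl⟩ := k.1
      obtain rfl := h.YSt21_one hC hP ((P b).Bd_sub hx0) hx' cl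
      exact s5 x' hx'
  have e' : Rg1 V X.tt A ε σ {v | dm v = d} \
      {y | y ∈ BP P ∧ ∀ v, (∀ a ∈ A v, a + ε v < X.tt v y) → v ⊆ B0 P} =
      Rg1 V X.tt A ε σ {v | dm v = d} \ {y | (∀ i, y ∈ S i) ∧
        ∀ v, dm v = d → (∀ a ∈ A v, a + ε v < X.tt v y) → v ∈ {v | v ⊆ B0 P}} :=
    Set.ext fun y => and_congr_right fun hy => not_congr (q y hy).symm
  rwa [e']

end Str

end BEp
end
end

-- merged part: Pool.Agent.Work.MP_f0515e_an.P3.YSt22
section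
/-! Coordinates near a chord. -/

open Set Metric Filter Topology Function BEv MeasureTheory
open scoped NNReal ENNReal

noncomputable section
namespace BEp

variable {ι : Type} {V : Set (Rn 3)} {θ l c : Rn 3 → ℝ} {Cm C0 g Kp : ℝ}
  {Cf : (Rn 3 ≃L[ℝ] Rn 3) → ℝ} {P : ι → Pc} {X : Cx V}

theorem YSt22_col {T : Rn 4} (hT : T ∈ YQ) (h : ∀ d : Fin 4, 1 < (d : ℕ) → T d = 0) :
    ∃ d e : Fin 4, d ≠ e ∧ T e = 1 ∧ ∀ k, k ≠ d → k ≠ e → T k = 0 := by
  obtain ⟨e, he⟩ := hT.2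
  have h2 := h 2 (by decide)
  have h3 := h 3 (by decide)
  have k : e = 0 ∨ e = 1 := by
    revert he
    refine YIo_all (P := fun e => T e = 1 → e = 0 ∨ e = 1) ?_ ?_ ?_ ?_ e
    · exact fun _ => Or.inl rfl
    · exact fun _ => Or.inr rfl
    · intro k; rw [h2] at k; norm_num at k
    · intro k; rw [h3] at k; norm_num at k
  rcases k with rfl | rfl
  · refine ⟨1, 0, by decide, he, fun k => ?_⟩
    refine YIo_all (P := fun k => k ≠ 1 → k ≠ 0 → T k = 0) ?_ ?_ ?_ ?_ k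
    · exact fun _ a => absurd rfl a
    · exact fun a _ => absurd rfl a
    · exact fun _ _ => h2
    · exact fun _ _ => h3
  · refine ⟨0, 1, by decide, he, fun k => ?_⟩
    refine YIo_all (P := fun k => k ≠ 0 → k ≠ 1 → T k = 0) ?_ ?_ ?_ ?_ k
    · exact fun a _ => absurd rfl a
    · exact fun _ a => absurd rfl a
    · exact fun _ _ => h2
    · exact fun _ _ => h3

namespace Str

/-- The labels of a point near a chord. -/
theorem YSt22_lab (h : Str θ Cm C0 Cf P X l c) (hC : 1 ≤ Cm) (h0 : 0 < g) (h1 : g ≤ 1 / 8) {i : ι}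
    (ok : (P i).Ok) {j : Fin 3} (hj : (P i).I = {j}) {y : Rn 3}
    (hy : (P i).Nr (g * (P i).l / Cf (P i).A) y) :
    ∃ x ∈ (P i).Bx, ∃ (f : Fin 4 → Set (Rn 3)) (d e : Fin 4), X.Fl f ∧ d ≠ e ∧
      X.tt (f e) ((P i).aff x) = 1 ∧ X.tt (f d) y - g / 1000 ≤ X.tt (f d) ((P i).aff x) ∧
      1 - g / 1000 ≤ X.tt (f e) y ∧ ∀ w, w ≠ f d → w ≠ f e → X.tt w y ≤ g / 1000 := by
  obtain ⟨-, -, x, hx, ho⟩ := h.osc hC h0 h1 hy
  have hV := (h.cell_Bx hx).1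
  have r := X.rep hV
  obtain ⟨d, e, hde, he, hk⟩ := YSt22_col r.2.1 (fun d hd => h.TT_Bx ok hx (by
    rw [hj, Finset.card_singleton]
    exact lt_of_le_of_lt (min_le_left _ _) hd))
  have e1 : X.tt (X.fl ((P i).aff x) e) ((P i).aff x) = 1 := by rw [r.tt_eq e, he]
  refine ⟨x, hx, X.fl ((P i).aff x), d, e, r.1, hde, e1, ?_, ?_, ?_⟩
  · have := abs_le.1 (ho (X.fl ((P i).aff x) d))
    linarith only [this, this.2]
  · have := abs_le.1 (ho (X.fl ((P i).aff x) e))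
    rw [e1] at this
    linarith only [this, this.1]
  · intro w hd' he'
    have z : X.tt w ((P i).aff x) = 0 := by
      by_cases q : ∃ k, X.fl ((P i).aff x) k = w
      · obtain ⟨k, rfl⟩ := q
        rw [r.tt_eq k]
        exact hk k (fun a => hd' (by rw [a])) (fun a => he' (by rw [a]))
      · exact r.tt_zero fun k a => q ⟨k, a⟩
    have := abs_le.1 (ho w)
    rw [z] at this
    linarith only [this, this.2]

theorem YSt22_one (h : Str θ Cm C0 Cf P X l c) (hC : 1 ≤ Cm) (h0 : 0 < g) (h1 : g ≤ 1 / 8) {i : ι}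
    (ok : (P i).Ok) {j : Fin 3} (hj : (P i).I = {j}) {y : Rn 3}
    (hy : (P i).Nr (g * (P i).l / Cf (P i).A) y) :
    ∃ v₀, ∀ v, v ≠ v₀ → dev (X.tt v y) ≤ g / 32 := by
  obtain ⟨x, -, f, d, e, -, -, -, -, k1, k2⟩ := h.YSt22_lab hC h0 h1 ok hj hy
  refine ⟨f d, fun v hv => ?_⟩
  by_cases q : v = f e
  · rw [q]
    exact (min_le_right _ _).trans (by linarith only [h0, k1])
  · exact (min_le_left _ _).trans ((k2 v hv q).trans (by linarith))

/-- The centres of two labels of a point of the chord differ by a multiple of the direction. -/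
theorem YSt22_dir (h : Str θ Cm C0 Cf P X l c) {i : ι} (ok : (P i).Ok) {j : Fin 3}
    (hj : (P i).I = {j}) {x : Rn 3} (hx : x ∈ (P i).Bx) {v w : Set (Rn 3)} (hvw : v ≠ w)
    (hv : 0 < X.tt v ((P i).aff x)) (hw : 0 < X.tt w ((P i).aff x)) :
    ∃ κ : ℝ, κ ≠ 0 ∧ 2 * |κ| ≤ (P i).l ∧
      (1 / 2 : ℝ) • (X.b v - X.b w) = κ • (P i).A (Pi.single j 1) := by
  obtain ⟨hV, hl⟩ := h.cell_Bx hx
  have sub : closure (X.M.cell ((P i).aff x)) ⊆ (P i).aff '' (P i).Bx := by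
    refine closure_minimal (fun y hy => ⟨(P i).inv y, ok.lat_Bx hx (hl y hy), (P i).aff_inv y⟩)
      (P i).cpt_Bx.isClosed
  obtain ⟨-, cv, sv⟩ := Cx.tt_pos hv
  obtain ⟨-, cw, sw⟩ := Cx.tt_pos hw
  have bv := sv (X.hb v cv)
  have bw := sw (X.hb w cw)
  have near := Pc.lat_near hl bv bw j
  obtain ⟨x1, m1, e1⟩ := sub bv
  obtain ⟨x2, m2, e2⟩ := sub bw
  have dx : x1 - x2 = (x1 j - x2 j) • (Pi.single j 1 : Rn 3) := by
    funext k
    by_cases q : k = j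
    · subst q; simp
    · have a : k ∉ (P i).I := by rw [hj]; simpa using q
      simp [m1.1.1 k a, m2.1.1 k a, q]
  have db : X.b v - X.b w = (x1 j - x2 j) • (P i).A (Pi.single j 1) := by
    rw [← e1, ← e2, ← map_smul, ← dx]
    simp only [Pc.aff, map_sub]
    abel
  rw [← e1, ← e2, Pc.inv_aff, Pc.inv_aff] at near
  refine ⟨(x1 j - x2 j) / 2, ?_, ?_, ?_⟩
  · intro q
    have q' : x1 j - x2 j = 0 := by linarith only [q]
    rw [q', zero_smul, sub_eq_zero] at db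
    obtain ⟨a, ha, rfl⟩ := cv
    obtain ⟨a', ha', rfl⟩ := cw
    have r1 := X.M.eqv a ha _ (X.hb _ ⟨a, ha, rfl⟩)
    have r2 := X.M.eqv a' ha' _ (X.hb _ ⟨a', ha', rfl⟩)
    rw [db] at r1
    exact hvw (r1.symm.trans r2)
  · rw [abs_div, abs_two]
    linarith
  · rw [db, smul_smul]
    congr 1
    ring

theorem chd (h : Str θ Cm C0 Cf P X l c) (hC : 1 ≤ Cm) (h0 : 0 < g) (h1 : g ≤ 1 / 8) {i : ι}
    (ok : (P i).Ok) {j : Fin 3} (hj : (P i).I = {j}) {y : Rn 3}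
    (hy : (P i).Nr (g * (P i).l / Cf (P i).A) y) :
    (∃ v₀, ∀ v, v ≠ v₀ → dev (X.tt v y) ≤ g / 32) ∧
    ∀ v, X.tt v y ∈ Icc (g / 2) (1 - g / 2) → ∃ κ : ℝ, κ ≠ 0 ∧
      (∀ z ∈ V, (P i).Nr (g * (P i).l / Cf (P i).A) z → X.tt v z ∈ Icc (g / 2) (1 - g / 2) →
        (∀ w, w ≠ v → (1 / 2 < X.tt w y ↔ 1 / 2 < X.tt w z)) →
        LL (X.tt v) z (Cf (P i).A / (4 * |κ|)) ∧ ∀ᶠ s in 𝓝 (0 : ℝ),
          |κ| * |X.tt v (z + s • (P i).A (Pi.single j 1)) - X.tt v z| ≤ |s|) ∧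
      ∀ z ∈ V, ∀ z' ∈ V, (∀ w, w ≠ v → X.tt w z = X.tt w z') →
        (∀ w, w ≠ v → (1 / 2 < X.tt w y → X.tt v z ≤ X.tt w z ∧ X.tt v z' ≤ X.tt w z) ∧
          (X.tt w y ≤ 1 / 2 → X.tt w z ≤ X.tt v z ∧ X.tt w z ≤ X.tt v z')) →
        z' - z = (κ * (X.tt v z' - X.tt v z)) • (P i).A (Pi.single j 1) := by
  refine ⟨h.YSt22_one hC h0 h1 ok hj hy, fun v hv => ?_⟩
  obtain ⟨x, hx, f, d, e, hf, hde, e1, k0, k1, k2⟩ := h.YSt22_lab hC h0 h1 ok hj hy
  have hvd : v = f d := by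
    by_contra q
    by_cases q' : v = f e
    · rw [q'] at hv
      linarith only [h0, k1, hv, hv.2]
    · linarith only [h0, hv, k2, q, q', hv.1, k2 v q q']
  subst hvd
  have ne : f d ≠ f e := fun q => hde (hf.inj q)
  obtain ⟨κ, κ0, κl, κe⟩ := h.YSt22_dir ok hj hx ne (by linarith only [h0, k0, hv, hv.1]) (by rw [e1]; norm_num)
  have two : ∀ z ∈ V, ∀ z' ∈ V, (∀ w, w ≠ f d → X.tt w z = X.tt w z') →
      (∀ w, w ≠ f d → (1 / 2 < X.tt w y → X.tt (f d) z ≤ X.tt w z ∧ X.tt (f d) z' ≤ X.tt w z) ∧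
        (X.tt w y ≤ 1 / 2 → X.tt w z ≤ X.tt (f d) z ∧ X.tt w z ≤ X.tt (f d) z')) →
      z' - z = (κ * (X.tt (f d) z' - X.tt (f d) z)) • (P i).A (Pi.single j 1) := by
    intro z hz z' hz' he ho
    have s := Cx.shift hf (S := {e}) (j := d) (by simpa using hde) hz hz' he
      (fun k hk => by
        rw [Finset.mem_singleton.1 hk]
        exact (ho (f e) ne.symm).1 (by linarith only [h0, h1, k1]))
      (fun w hw hw' => (ho w hw).2 ((k2 w hw
        (fun q => hw' e (Finset.mem_singleton_self e) q.symm)).trans (by linarith only [h0, h1])))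
    rw [s, X.bar_two f hde, κe, smul_smul, mul_comm]
  refine ⟨κ, κ0, fun z hz nz mz sz => ⟨?_, ?_⟩, two⟩
  · obtain ⟨-, ⟨x', hx', n'⟩, -⟩ := h.osc hC h0 h1 nz
    have lp := (P i).l_pos
    obtain ⟨-, c1, l1, -⟩ := h.nr i z ⟨x', hx', n'.trans (by linarith only [lp])⟩
    have t := h.tlip hC hz (z := z) (by rw [sub_self, norm_zero]; linarith only [lp, l1]) (f d)
    refine t.mono ?_
    have cz := h.c1 z
    have κp : 0 < |κ| := abs_pos.2 κ0
    have a1 : c z / Cm ≤ c z := div_le_self (by linarith only [hC, h0, h1, cz]) hC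
    have a2 : c z / Cm / l z ≤ c z / l z := div_le_div_of_nonneg_right a1 (by linarith only [κl, l1, κp])
    refine a2.trans ?_
    rw [div_le_div_iff₀ (by linarith only [κl, l1, κp]) (by positivity)]
    have b1 : c z * (4 * |κ|) ≤ c z * (2 * l z) :=
      mul_le_mul_of_nonneg_left (by linarith only [κl, l1]) (by linarith only [hC, h0, h1, cz])
    have b2 : 2 * c z * l z ≤ Cf (P i).A * l z :=
      mul_le_mul_of_nonneg_right (by linarith only [hC, h0, h1, c1, cz]) (by linarith only [κl, l1, κp])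
    linarith only [b1, b2]
  · obtain ⟨v₀, hv₀⟩ := h.YSt22_one hC h0 h1 ok hj nz
    have q : f d = v₀ := by
      by_contra q
      have := hv₀ _ q
      rcases min_le_iff.1 this with a | a <;> linarith only [h0, a, mz, mz.1, mz.2]
    subst q
    have ev : ∀ᶠ s in 𝓝 (0 : ℝ), |s / κ| < g / 4 := by
      have ct : Continuous fun s : ℝ => |s / κ| := by fun_prop
      exact ct.continuousAt.eventually_lt continuousAt_const (by simp; linarith only [h0])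
    filter_upwards [ev] with s hs
    obtain ⟨s1, s2⟩ := abs_lt.1 hs
    obtain ⟨m1, m2, m3⟩ := Cx.sh_spec (X := X) (v := f d) hz
      ⟨by linarith only [h0, mz, mz.1], by linarith only [h0, mz, mz.2]⟩ (s := X.tt (f d) z + s / κ)
      ⟨by linarith only [h0, s1, mz, mz.1], by linarith only [h0, s2, mz, mz.2]⟩
    have r := two z hz _ m1 (fun w hw => (m3 w hw).symm) (fun w hw => by
      rw [m2]
      have dv := hv₀ w hw
      constructor
      · intro a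
        have a' := (sz w hw).1 a
        rcases min_le_iff.1 dv with b | b
        · linarith only [h0, h1, a', b]
        · constructor <;> linarith only [h0, b, mz, s2, mz.2]
      · intro a
        have a' : X.tt w z ≤ 1 / 2 := not_lt.1 fun b => not_lt.2 a ((sz w hw).2 b)
        rcases min_le_iff.1 dv with b | b
        · constructor <;> linarith only [h0, b, mz, s1, mz.1]
        · linarith only [h0, h1, a', b])
    rw [m2, add_sub_cancel_left, mul_div_cancel₀ s κ0] at r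
    rw [← r, add_sub_cancel, m2, add_sub_cancel_left, ← abs_mul, mul_div_cancel₀ s κ0]

end Str

end BEp
end
end

-- merged part: Pool.Agent.Work.MP_f0515e_an.P3.YSt2
section
/-! Boxes, systems and chords of the adapted structure. -/

open Set Metric Filter Topology Function BEv MeasureTheory
open scoped NNReal ENNReal

noncomputable section
namespace BEp

variable {ι : Type} {V : Set (Rn 3)} {θ l c : Rn 3 → ℝ} {Cm C0 g Kp : ℝ}
  {Cf : (Rn 3 ≃L[ℝ] Rn 3) → ℝ} {P : ι → Pc} {X : Cx V}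

namespace Str

theorem box (h : Str θ Cm C0 Cf P X l c) (ok : ∀ b, (P b).Ok) (h0 : 0 < g) (h1 : g ≤ 1 / 8)
    {χ : Rn 3 → Rn 3} (k0 : ∀ x ∈ mBox g, χ x ∈ V)
    (k1 : ∀ x ∈ mBox g, ∀ x' ∈ mBox g, x 2 = 0 → x' 2 = 0 → XEq X.tt (χ x) (χ x'))
    (k2 : (∀ x ∈ mBox g, X.TT (χ x) 3 ≠ 0) ∨ ∀ x ∈ mBox g, (X.TT (χ x) 3 = 0 ↔ x 2 = 0)) :
    (∀ x ∈ mBox g, χ x ∉ BP P) ∨ ∀ x ∈ mBox g, (χ x ∈ BP P ↔ x 2 = 0) := by
  have _ := h0
  have _ := h1
  exact YSt21_box h ok k0 k1 k2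

theorem sys (h : Str θ Cm C0 Cf P X l c) (hC : 1 ≤ Cm) (hP : PcIn V θ Cf P) (h0 : 0 < g)
    {A : Set (Rn 3) → Set ℝ} {ε : Set (Rn 3) → ℝ} (hA : XLev g A ε) :
    ∃ W, B0 P ⊆ W ∧ W ⊆ BP P ∧ ∀ (d : ℕ) (σ : Set (Set (Rn 3))), σ.Nonempty →
      (∀ v ∈ σ, dm v ≠ d) →
      SysOn V X.tt (fun v y s => X.sh v s y) A ε (Rg1 V X.tt A ε σ {v | dm v = d}) ∧
      SysOn V X.tt (fun v y s => X.sh v s y) A ε (Rg1 V X.tt A ε σ {v | dm v = d} \ W) := by
  exact YSt21_sys h hC hP h0 hA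

end Str

end BEp
end
end

-- merged part: Pool.Agent.Work.MP_f0515e_an.P3.YBl
section
/-! Blow up of the centres of the cubes. -/

open Set Metric Filter Topology Function BEv MeasureTheory
open scoped NNReal ENNReal

noncomputable section
namespace BEp

namespace Cx
variable {V : Set (Rn 3)}

theorem ctr_null (X : Cx V) {N : Set (Rn 3)} (hN : volume N = 0) :
    ∀ᵐ ζ ∂volume.restrict (Icc (0 : Rn 3) 1), Disjoint {y | y ∈ V ∧ ∃ d, X.TT y = yZ ζ d} N := by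
  refine ae_restrict_of_ae ((eventually_countable_ball X.flags_countable).2 (fun c hc => ?_) |>.mono
    (q := fun ζ => Disjoint {y | y ∈ V ∧ ∃ d, X.TT y = yZ ζ d} N)
    (p := fun ζ => ∀ c ∈ {c | X.Fl c}, ∀ d, X.pt c (yZ ζ d) ∈ N → yZ ζ d ∉ YQ) fun ζ h => ?_)
  · obtain ⟨k, k1, k2⟩ := pt_inv hc
    refine eventually_all.2 fun d => ?_
    obtain ⟨L, hL⟩ := (TP.pi fun i : Fin 3 =>
      ((k1.apply (d.succAbove i)).const_mul 3).sub (TP.const 1)).lip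
    have h3 := hL.hausdorffMeasure_image_le (d := Fintype.card (Fin 3)) (Nat.cast_nonneg _) N
    rw [hausdorffMeasure_pi_real, hN, mul_zero, nonpos_iff_eq_zero] at h3
    refine measure_mono_null (fun ζ hζ => ?_) h3
    obtain ⟨a1, a2⟩ := Classical.not_imp.1 hζ
    refine ⟨_, a1, funext fun i => ?_⟩
    have : yZ ζ d (d.succAbove i) = (1 + ζ i) / 3 := congrFun (ybl_rm d _) i
    dsimp only
    rw [k2 _ (not_not.1 a2), this]
    ring
  · refine disjoint_left.2 ?_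
    rintro y ⟨hy, d, e⟩ hN
    have r := X.rep hy
    rw [e] at r
    exact h _ r.1 d (r.2.2 ▸ hN) r.2.1

theorem blow_cx (X : Cx V) {g : ℝ} (h0 : 0 < g) (h1 : g ≤ 1 / 8) (act : Set (Rn 3) → Prop)
    {ζ : Rn 3} (hζ : ζ ∈ Icc (0 : Rn 3) 1) {Y : Set (Rn 3)} (hY : Y ⊆ V)
    (hc : ∀ y ∈ Y, ∀ d, X.TT y ≠ yZ ζ d)
    (hk : ∀ C, IsCompact C → C ⊆ V → IsCompact (Y ∩ C)) : ∃ B : Rn 3 → Rn 3, ContinuousOn B V ∧
    BijOn B V V ∧ (∀ y ∈ V, B y ∈ closure (X.fl y 3)) ∧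
    (∀ y, y ∉ V ∨ X.TT y 3 ≤ g / 1000 ∨ ¬ act (X.fl y 3) → B y = y) ∧
    (∀ y ∈ Y, act (X.fl y 3) → B y ∈ X.Good g) ∧
    ∀ y ∈ Y, ∀ᶠ p : Rn 3 × Rn 3 in 𝓝 (y, y), (B p.1 = p.1 ∧ B p.2 = p.2) ∨
      ∃ c T₁ T₂, X.Rep y c (X.TT y) ∧ X.Rep p.1 c (X.TT p.1) ∧ X.Rep p.2 c (X.TT p.2) ∧
        X.Rep (B p.1) c T₁ ∧ X.Rep (B p.2) c T₂ ∧
        ‖T₁ - T₂‖ ≤ 100 * (1 + ∑ d, ‖X.TT y - yZ ζ d‖⁻¹) * ‖X.TT p.1 - X.TT p.2‖ := by
  classical
  choose F f1 f2 f3 f4 using fun c : Fin 4 → Set (Rn 3) => ybl_flag X (η := g / 384) (by linarith only [h0])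
    (by linarith only [h0, h1]) (act (c 3)) hζ hY hc hk c
  have z0 : ∀ c, ∀ T ∈ YQ, ∀ e, T e = 0 → F c T = T := fun c T hT e k =>
    f3 c T hT (Or.inl ⟨e, by rw [k]; linarith⟩)
  obtain ⟨B, b0, hB⟩ : ∃ B : Rn 3 → Rn 3, (∀ y, y ∉ V → B y = y) ∧
      ∀ y c T, X.Rep y c T → X.Rep (B y) c (F c T) := by
    refine ⟨fun y => if y ∈ V then X.pt (X.fl y) (F (X.fl y) (X.TT y)) else y,
      fun y k => if_neg k, fun y c T r => ⟨r.1, (f2 c).1 r.2.1, ?_⟩⟩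
    have r' := X.rep r.mem
    dsimp only
    rw [if_pos r.mem]
    rw [r.TT_eq] at r' ⊢
    by_cases k : ∃ e, T e = 0
    · obtain ⟨e, k⟩ := k
      rw [z0 _ T r.2.1 e k, z0 _ T r.2.1 e k, ← r'.2.2, ← r.2.2]
    · rw [funext fun d => (r'.uniq r).2 d fun j => k ⟨d, j⟩]
  have fx : ∀ y c T, X.Rep y c T → F c T = T → B y = y := fun y c T r k =>
    (hB y c T r).2.2.trans (by rw [k, ← r.2.2])
  refine ⟨B, glue_cont fun c h => ((X.tp_pt c).continuous.comp_continuousOn (f1 c)).congr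
    fun T hT => (hB _ c T (rep_pt h hT)).2.2, ⟨fun y hy => (hB _ _ _ (X.rep hy)).mem,
    fun y hy y' hy' e => ?_, fun y hy => ?_⟩, fun y hy => (hB _ _ _ (X.rep hy)).cl, fun y k => ?_,
    fun y hy a => ?_, fun y hy => ?_⟩
  · have r := X.rep hy
    have r' := X.rep hy'
    obtain ⟨u1, u2⟩ := (e ▸ hB _ _ _ r).uniq (hB _ _ _ r')
    by_cases k : ∃ d, F (X.fl y) (X.TT y) d = 0
    · obtain ⟨d, k⟩ := k
      have m := (f2 (X.fl y)).1 r.2.1
      rw [← fx _ _ _ r ((f2 _).2.1 m r.2.1 (z0 _ _ m d k)), e]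
      rw [u1] at k
      have m' := (f2 (X.fl y')).1 r'.2.1
      exact fx _ _ _ r' ((f2 _).2.1 m' r'.2.1 (z0 _ _ m' d k))
    · have ec : X.fl y = X.fl y' := funext fun d => u2 d fun j => k ⟨d, j⟩
      rw [ec] at u1 r
      rw [r.2.2, (f2 _).2.1 r.2.1 r'.2.1 u1, ← r'.2.2]
  · have r := X.rep hy
    obtain ⟨T, hT, k⟩ := (f2 (X.fl y)).2.2 r.2.1
    exact ⟨_, (rep_pt r.1 hT).mem, (hB _ _ _ (rep_pt r.1 hT)).2.2.trans (by rw [k, ← r.2.2])⟩
  · by_cases hy : y ∈ V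
    · exact fx _ _ _ (X.rep hy) (f3 _ _ (X.rep hy).2.1
        ((k.resolve_left fun j => j hy).imp_left fun j => ⟨3, by linarith only [h0, j]⟩))
    · exact b0 y hy
  · have r := hB _ _ _ (X.rep (hY hy))
    obtain ⟨d, e, k⟩ := (f4 _ y hy (X.rep (hY hy))).1 a
    rw [show 6 * (g / 384) = g / 64 by ring, ← r.TT_eq] at k
    exact ⟨r.mem, d, e, k⟩
  · have ct : Tendsto X.TT (𝓝 y) (𝓝 (X.TT y)) :=
      (X.ltp_TT.continuousOn X.opn).continuousAt (X.opn.mem_nhds (hY hy))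
    have t1 : Tendsto Prod.fst (𝓝 (y, y)) (𝓝 y) := continuous_fst.tendsto (y, y)
    have t2 : Tendsto Prod.snd (𝓝 (y, y)) (𝓝 y) := continuous_snd.tendsto (y, y)
    have r := X.rep (hY hy)
    by_cases k : ∃ e, X.TT y e = 0
    · obtain ⟨e, k⟩ := k
      have ev : ∀ᶠ z in 𝓝 y, B z = z := by
        filter_upwards [X.opn.mem_nhds (hY hy), (((continuous_apply e).tendsto _).comp
          ct).eventually_lt_const (show X.TT y e < g / 384 by rw [k]; linarith only [h0])] with z hz j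
        exact fx _ _ _ (X.rep hz) (f3 _ _ (X.rep hz).2.1 (Or.inl ⟨e, j.le⟩))
      filter_upwards [t1.eventually ev, t2.eventually ev] with p a1 a2 using Or.inl ⟨a1, a2⟩
    · have ev : ∀ᶠ z in 𝓝 y, X.Rep z (X.fl y) (X.TT z) := (X.near (hY hy)).mono fun z ⟨c, a, b⟩ => by
        rwa [funext fun d => (r.uniq a).2 d fun j => k ⟨d, j⟩]
      filter_upwards [t1.eventually ev, t2.eventually ev,
        ((ct.comp t1).prodMk_nhds (ct.comp t2)).eventually (f4 _ y hy r).2] with p a1 a2 a3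
      exact Or.inr ⟨_, _, _, r, a1, a2, hB _ _ _ a1, hB _ _ _ a2, a3 a1.2.1 a2.2.1⟩

end Cx

end BEp
end
end

-- merged part: Pool.Agent.Work.MP_f0515e_an.P3.YTS
section
/-! The analytic properties of the target structure. -/

open Set Metric Filter Topology Function BEv MeasureTheory
open scoped NNReal ENNReal

noncomputable section
namespace BEp

variable {ι : Type} {V : Set (Rn 3)} {θ l c : Rn 3 → ℝ} {Cm C0 g Kp : ℝ}
  {Cf : (Rn 3 ≃L[ℝ] Rn 3) → ℝ} {P : ι → Pc} {X : Cx V}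

theorem YTS_up (h : Str θ Cm C0 Cf P X l c) {y : Rn 3} {q : Fin 4 → Set (Rn 3)} {T : Rn 4}
    (r : X.Rep y q T) : closure (q 3) ⊆ closedBall y (l y) := by
  obtain ⟨x, hx, e⟩ := r.1.mem 3
  have k := r.cl
  rw [← e] at k ⊢
  exact h.up y r.mem x hx k

theorem YTS_Bx (h : Str θ Cm C0 Cf P X l c) {b : ι} (ok : (P b).Ok) (h0 : 0 < g) {x : Rn 3}
    (hx : x ∈ (P b).Bx) : X.TT ((P b).aff x) 3 ≤ g / 1000 := by
  rw [h.TT_Bx ok hx (d := 3) ((min_le_right _ _).trans_lt (by decide))]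
  positivity

theorem YTS_in (h : Str θ Cm C0 Cf P X l c) {b : ι} (ok : (P b).Ok) (h3 : (P b).I.card = 3)
    {y : Rn 3} (hy : y ∈ V) (hi : y ∈ (P b).aff '' (P b).In) :
    X.fl y 3 ⊆ (P b).aff '' (P b).Q (P b).ρ := by
  have r := X.rep hy
  refine (ok.in_out h3 (Kx.cells_cvx (r.1.mem 3)).isPreconnected
    (disjoint_left.2 ?_)).resolve_right fun k => disjoint_left.1 k r.cl hi
  rintro _ hz ⟨x, hx, rfl⟩
  have k := (h.cell_Bx hx).2
  rw [Kx.cell_eq (r.1.mem 3) hz] at k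
  have k1 := (ok.thin hx k).trans (min_le_right _ _)
  rw [r.1.dm 3] at k1
  exact absurd k1 (by decide)

/-- The singular factor. -/
def YTS_S (X : Cx V) (ζ y : Rn 3) : ℝ := 1 + ∑ d, ‖X.TT y - yZ ζ d‖⁻¹

theorem YTS_one (X : Cx V) (ζ y : Rn 3) : 1 ≤ YTS_S X ζ y :=
  le_add_of_nonneg_right (Finset.sum_nonneg fun _ _ => inv_nonneg.2 (norm_nonneg _))

theorem YTS_enn {ζ y : Rn 3} (hc : ∀ d, X.TT y ≠ yZ ζ d) :
    1 + ∑ d, ‖X.TT y - yZ ζ d‖ₑ⁻¹ = ENNReal.ofReal (YTS_S X ζ y) := by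
  rw [YTS_S, ENNReal.ofReal_add zero_le_one
    (Finset.sum_nonneg fun _ _ => inv_nonneg.2 (norm_nonneg _)), ENNReal.ofReal_one,
    ENNReal.ofReal_sum_of_nonneg fun _ _ => inv_nonneg.2 (norm_nonneg _)]
  refine congrArg _ (Finset.sum_congr rfl fun d _ => ?_)
  rw [ENNReal.ofReal_inv_of_pos (norm_pos_iff.2 (sub_ne_zero.2 (hc d))), ofReal_norm]

theorem YTS_lip (h : Str θ Cm C0 Cf P X l c) (hK : 1 ≤ Kp) (hC : 10000 * Kp ≤ Cm) {ζ y₀ : Rn 3}
    (hy : y₀ ∈ V) (hc : ∀ d, X.TT y₀ ≠ yZ ζ d) {B : Rn 3 → Rn 3}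
    (hB : ∀ᶠ p : Rn 3 × Rn 3 in 𝓝 (y₀, y₀), (B p.1 = p.1 ∧ B p.2 = p.2) ∨
      ∃ c T₁ T₂, X.Rep y₀ c (X.TT y₀) ∧ X.Rep p.1 c (X.TT p.1) ∧ X.Rep p.2 c (X.TT p.2) ∧
        X.Rep (B p.1) c T₁ ∧ X.Rep (B p.2) c T₂ ∧
        ‖T₁ - T₂‖ ≤ 100 * (1 + ∑ d, ‖X.TT y₀ - yZ ζ d‖⁻¹) * ‖X.TT p.1 - X.TT p.2‖) :
    ∃ r, 0 < r ∧ ∀ᶠ y in 𝓝 y₀, ∀ y₁ ∈ ball y r, ∀ y₂ ∈ ball y r,
      ‖B y₁ - B y₂‖ ≤ c y / Kp * YTS_S X ζ y * ‖y₁ - y₂‖ := by
  obtain ⟨ε, e0, hε⟩ := Metric.eventually_nhds_iff_ball.1 hB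
  have l0 := h.scl.pos y₀ hy
  have K0 : 0 < Kp := by linarith
  have cS : ContinuousAt (YTS_S X ζ) y₀ :=
    continuousAt_const.add (tendsto_finsetSum _ fun d _ => ContinuousAt.inv₀
      (((X.ltp_TT.continuousOn X.opn).continuousAt (X.opn.mem_nhds hy)).sub
        continuousAt_const).norm (norm_ne_zero_iff.2 (sub_ne_zero.2 (hc d))))
  refine ⟨min (ε / 2) (l y₀), by positivity, ?_⟩
  filter_upwards [ball_mem_nhds y₀ (half_pos e0), X.opn.mem_nhds hy,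
    (h.scl.cont (by norm_num)).continuousAt.eventually_const_lt (half_lt_self l0),
    cS.eventually_const_lt (half_lt_self (one_pos.trans_le (YTS_one X ζ y₀)))]
    with y a1 a2 a3 a4 y₁ a5 y₂ a6
  have m : ∀ z ∈ ball y (min (ε / 2) (l y₀)), z ∈ ball y₀ ε ∧ ‖z - y‖ ≤ 10 * l y := fun z hz => by
    have k := lt_min_iff.1 (mem_ball.1 hz)
    refine ⟨mem_ball.2 ?_, ?_⟩
    · linarith only [k, a1, dist_triangle z y y₀, mem_ball.1 a1, k.1]
    · rw [← dist_eq_norm]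
      linarith [k.2]
  have s1 := YTS_one X ζ y
  have c1 : 10000 ≤ c y / Kp := (le_div_iff₀ K0).2 (hC.trans (h.c1 y))
  have n0 := norm_nonneg (y₁ - y₂)
  rcases hε (y₁, y₂) (by rw [← ball_prod_same]; exact ⟨(m _ a5).1, (m _ a6).1⟩) with
    ⟨k1, k2⟩ | ⟨q, T₁, T₂, r0, r1, r2, r3, r4, k⟩
  · rw [k1, k2]
    exact le_mul_of_one_le_left n0 (by linarith only [s1, c1, mul_nonneg_of_nonpos_of_nonpos (Mathlib.Tactic.Linarith.sub_nonpos_of_le s1) (Mathlib.Tactic.Linarith.sub_nonpos_of_le c1)])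
  have k1 := Cx.pt_lip r0.1 r3.2.1 r4.2.1 (y := y₀) (D := l y₀) fun d => mem_closedBall_iff_norm.1
    (YTS_up h r0 (r0.1.2 d 3 (Fin.le_last d) (X.hb _ (r0.1.mem d))))
  rw [← r3.2.2, ← r4.2.2] at k1
  have ly : 0 < l y := h.scl.pos y a2
  have k2 : ‖X.TT y₁ - X.TT y₂‖ ≤ c y / Kp * ‖y₁ - y₂‖ / (10000 * l y) := by
    refine (pi_norm_le_iff_of_nonneg (by positivity)).2 fun d => ?_
    have k3 := h.lo y a2 y₁ y₂ (m _ a5).2 (m _ a6).2 (q d)
    rw [r1.tt_eq, r2.tt_eq] at k3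
    rw [le_div_iff₀ (by positivity), div_mul_eq_mul_div, le_div_iff₀ K0]
    refine le_trans (le_of_eq ?_) ((mul_le_mul_of_nonneg_right
      (mul_le_mul_of_nonneg_right hC ly.le) (abs_nonneg _)).trans k3)
    rw [Pi.sub_apply, Real.norm_eq_abs]
    ring
  rw [le_div_iff₀ (by positivity)] at k2
  have k3 : ‖T₁ - T₂‖ ≤ 100 * (2 * YTS_S X ζ y) * ‖X.TT y₁ - X.TT y₂‖ :=
    k.trans (mul_le_mul_of_nonneg_right (mul_le_mul_of_nonneg_left
      (show YTS_S X ζ y₀ ≤ _ by linarith only [a4]) (by norm_num)) (norm_nonneg _))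
  have k4 := mul_le_mul (show 16 * l y₀ ≤ 32 * l y by linarith only [a3]) k3 (norm_nonneg _) (by positivity)
  have k5 := mul_le_mul_of_nonneg_left k2 (zero_le_one.trans s1)
  have k6 : 0 ≤ l y * (YTS_S X ζ y * ‖X.TT y₁ - X.TT y₂‖) := by positivity
  linarith only [k1, k4, k5, k6]

theorem Str.blow (h : Str θ Cm C0 Cf P X l c) (hK : 1 ≤ Kp) (hC : 10000 * Kp ≤ Cm)
    (ok : ∀ b, (P b).Ok) (h0 : 0 < g) (h1 : g ≤ 1 / 8) {ζ : Rn 3} (hζ : ζ ∈ Icc (0 : Rn 3) 1)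
    {Y : Set (Rn 3)} (hY : Y ⊆ V \ (yTS X l c g Kp).Ctr ζ)
    (hk : ∀ C, IsCompact C → C ⊆ V → IsCompact (Y ∩ C)) :
    ∃ B, Blow V (yTS X l c g Kp) g Cf P ζ Y B := by
  have hV : Y ⊆ V := fun y hy => (hY hy).1
  have hc : ∀ y ∈ Y, ∀ d, X.TT y ≠ yZ ζ d := fun y hy d e => (hY hy).2 ⟨hV hy, d, e⟩
  have C1 : 1 ≤ Cm := by linarith only [hK, hC, h0, h1]
  obtain ⟨B, b1, b2, b3, b4, b5, b6⟩ := X.blow_cx h0 h1
    (fun τ => ∀ b, (P b).I.card = 3 → ¬ τ ⊆ (P b).aff '' (P b).Q (P b).ρ) hζ hV hc hk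
  refine ⟨B, b1, b2, fun y hy => mem_closedBall_iff_norm.1 (YTS_up h (X.rep hy) (b3 y hy)),
    fun b y hy => b4 y ?_, fun y hy hi => ?_, ?_⟩
  · rcases hy with hy | ⟨x, hx, rfl⟩
    · exact Or.inr (Or.inl (h.TT_nr C1 h0 h1 (ok b) hy))
    by_cases k : x ∈ (P b).Bx
    · exact Or.inr (Or.inl (YTS_Bx h (ok b) h0 k))
    have h3 : (P b).I.card = 3 := by_contra fun e => k ⟨hx, fun e' => (e e').elim⟩
    rw [Pc.ρx, if_neg (by omega)] at hx
    exact or_iff_not_imp_left.2 fun hy => Or.inr fun a => a b h3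
      (YTS_in h (ok b) h3 (not_not.1 hy) ⟨x, ⟨hx, fun e => k ((P b).Bd_sub e)⟩, rfl⟩)
  · by_cases a : ∀ b, (P b).I.card = 3 → ¬ X.fl y 3 ⊆ (P b).aff '' (P b).Q (P b).ρ
    · exact b5 y hy a
    rw [b4 y (Or.inr (Or.inr a))]
    push Not at a
    obtain ⟨b, h3, a⟩ := a
    have r := X.rep (hV hy)
    have k : X.TT y 3 ≤ g / 1000 := by
      obtain ⟨x, hx, rfl⟩ := closure_minimal a ((P b).cpt_Q _).isClosed r.cl
      by_cases e : x ∈ (P b).Bd
      · exact YTS_Bx h (ok b) h0 ((P b).Bd_sub e)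
      · exact h.TT_nr C1 h0 h1 (ok b) (hi b ⟨x, ⟨hx, e⟩, rfl⟩)
    obtain ⟨d, hd⟩ := r.2.1.2
    refine ⟨hV hy, d, 3, ?_, fun e => ?_, fun e => ?_⟩
    · rintro rfl
      linarith only [h0, h1, k, hd]
    · linarith only [h0, hd, e, e.2]
    · linarith only [h0, k, e, e.1]
  obtain ⟨ρ, r1, r2⟩ := lb_radius (V := V) (Y := Y)
    (Q := fun y y₁ y₂ => ‖B y₁ - B y₂‖ ≤ c y / Kp * YTS_S X ζ y * ‖y₁ - y₂‖) (fun y₀ hy => by
      by_cases k : y₀ ∈ Y
      · obtain ⟨r, r0, e⟩ := YTS_lip h hK hC hy (hc y₀ k) (b6 y₀ k)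
        exact ⟨r, r0, e.mono fun _ e _ => e⟩
      · obtain ⟨C, c1, c2, c3⟩ := X.YGl_nhd hy
        refine ⟨1, one_pos, ?_⟩
        filter_upwards [c2, (hk C c1 c3).isClosed.isOpen_compl.mem_nhds fun e => k e.1]
          with y a1 a2 a3
        exact (a2 ⟨a3, a1⟩).elim) hV
  refine ⟨ρ, r1, fun y hy => ?_⟩
  have c0 : 0 ≤ c y / Kp := div_nonneg (by linarith only [hK, hC, h0, h1, h, h.c1 y]) (by linarith)
  have e : (yTS X l c g Kp).β ζ y = ENNReal.ofReal (c y / Kp * YTS_S X ζ y) := by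
    rw [ENNReal.ofReal_mul c0, ← YTS_enn (hc y hy)]
    rfl
  rw [e]
  refine ⟨ENNReal.ofReal_ne_top, fun y₁ a1 y₂ a2 => ?_⟩
  rw [← ofReal_norm, ← ofReal_norm,
    ← ENNReal.ofReal_mul (mul_nonneg c0 (zero_le_one.trans (YTS_one X ζ y)))]
  exact ENNReal.ofReal_le_ofReal (r2 y hy y₁ a1 y₂ a2)

theorem Str.ok0 (h : Str θ Cm C0 Cf P X l c) {p : ℝ} (hp : 1 ≤ p) (hK : 1 ≤ Kp)
    (hi : ∀ T : Rn 4, ∫⁻ ζ in Icc (0 : Rn 3) 1, (1 + ∑ d, ‖T - yZ ζ d‖ₑ⁻¹) ^ p ≤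
      ENNReal.ofReal Kp ^ p) (hC : 10000 * Kp ≤ Cm) (ok : ∀ b, (P b).Ok) (h0 : 0 < g)
    (h1 : g ≤ 1 / 8) : TSOk0 V θ p C0 g Cf P (yTS X l c g Kp) := by
  have K0 : 0 < Kp := by linarith only [hK, h0, h1]
  have c1 : ∀ y, 1 ≤ c y := fun y => by linarith [h.c1 y]
  have nr : ∀ b y, (P b).Nr (P b).l y → (P b).Nr (30 * (P b).l) y := fun b y k =>
    k.imp fun x k => ⟨k.1, by linarith [k.2, (P b).l_pos]⟩
  refine ⟨h.scl.pos, fun y hy z _ k => ?_, c1, h.cm, h.cl, h.cb, fun b y k => ?_, fun y hy => ?_,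
    fun y hy => ?_, fun b y k => ?_, ?_, fun y hy => ?_, fun N hN => X.ctr_null hN,
    fun ζ hζ Y hY hk => h.blow hK hC ok h0 h1 hζ hY hk⟩
  · have l0 := h.scl.pos y hy
    change ‖z - y‖ ≤ 2 * l y at k
    change l z ≤ 4 * l y
    linarith only [l0, h, hy, k, (h.lv hy (z := z) (by linarith)).2.1]
  · obtain ⟨-, k1, -, k2⟩ := h.nr b y (nr b y k)
    change c y * l y ≤ _
    (refine le_of_not_gt fun h_nl => ?_; linarith only [h_nl, k2, h0, h1, k1, c1, c1 y, (P b).l_pos, mul_pos_of_neg_of_neg (Mathlib.Tactic.Linarith.sub_neg_of_lt h0) (Mathlib.Tactic.Linarith.sub_neg_of_lt h_nl), mul_pos_of_neg_of_neg (Mathlib.Tactic.Linarith.sub_neg_of_lt h0) (Mathlib.Tactic.Linarith.sub_neg_of_lt (Pc.l_pos (P b))), mul_nonneg_of_nonpos_of_nonpos (Mathlib.Tactic.Linarith.sub_nonpos_of_le h1) (le_of_lt (Mathlib.Tactic.Linarith.sub_neg_of_lt h_nl)), mul_nonneg_of_nonpos_of_nonpos (Mathlib.Tactic.Linarith.sub_nonpos_of_le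 h1) (le_of_lt (Mathlib.Tactic.Linarith.sub_neg_of_lt (Pc.l_pos (P b)))), mul_nonneg_of_nonpos_of_nonpos (Mathlib.Tactic.Linarith.sub_nonpos_of_le k1) (le_of_lt (Mathlib.Tactic.Linarith.sub_neg_of_lt (Pc.l_pos (P b)))), mul_nonneg_of_nonpos_of_nonpos (Mathlib.Tactic.Linarith.sub_nonpos_of_le k2) (Mathlib.Tactic.Linarith.sub_nonpos_of_le (c1 y)), mul_nonneg_of_nonpos_of_nonpos (Mathlib.Tactic.Linarith.sub_nonpos_of_le (c1 y)) (le_of_lt (Mathlib.Tactic.Linarith.sub_neg_of_lt (Pc.l_pos (P b))))])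
  · obtain ⟨K, hK⟩ := h.bd
    have l0 := h.scl.pos y hy
    have k0 : 0 < K := by linarith [c1 y, hK y]
    refine ⟨g * (l y / 2) / (1000 * K), by positivity, ?_⟩
    filter_upwards [(h.scl.cont (by norm_num)).continuousAt.eventually_const_lt (half_lt_self l0)]
      with z hz
    exact div_le_div₀ (mul_nonneg h0.le (by linarith)) (mul_le_mul_of_nonneg_left hz.le h0.le)
      (by linarith [c1 z]) (by linarith [hK z])
  · have l0 := h.scl.pos y hy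
    change 8 * (g * l y / (1000 * c y)) ≤ l y
    rw [← mul_div_assoc, div_le_iff₀ (by linarith [c1 y])]
    (refine le_of_not_gt fun h_nl => ?_; linarith only [h_nl, h1, l0, h0, c1, c1 y, mul_le_mul_of_nonneg_right h1 l0.le, mul_pos_of_neg_of_neg (Mathlib.Tactic.Linarith.sub_neg_of_lt h0) (Mathlib.Tactic.Linarith.sub_neg_of_lt l0), mul_pos_of_neg_of_neg (Mathlib.Tactic.Linarith.sub_neg_of_lt h0) (Mathlib.Tactic.Linarith.sub_neg_of_lt h_nl), mul_nonneg_of_nonpos_of_nonpos (Mathlib.Tactic.Linarith.sub_nonpos_of_le h1) (le_of_lt (Mathlib.Tactic.Linarith.sub_neg_of_lt h_nl)), mul_nonneg_of_nonpos_of_nonpos (le_of_lt (Mathlib.Tactic.Linarith.sub_neg_of_lt l0)) (Mathlib.Tactic.Linarith.sub_nonpos_of_le (c1 y))])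
  · obtain ⟨k0, k1, k2, -⟩ := h.nr b y (nr b y k)
    exact div_le_div₀ (mul_nonneg h0.le (h.scl.pos y k0).le) (mul_le_mul_of_nonneg_left k2 h0.le)
      (by linarith only [h0, h1, c1, c1 y]) k1
  · exact ((h.cm.comp measurable_snd).div_const Kp).ennreal_ofReal.mul (measurable_const.add
      (Finset.measurable_sum _ fun d _ => ((X.meas_TT.comp measurable_snd).sub
        ((yZ_cont d).measurable.comp measurable_fst)).enorm.inv))
  · have p0 : 0 ≤ p := by linarith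
    simp only [yTS, ENNReal.mul_rpow_of_nonneg _ _ p0]
    rw [lintegral_const_mul' _ _ (ENNReal.rpow_ne_top_of_nonneg p0 ENNReal.ofReal_ne_top)]
    refine (mul_le_mul_right (hi _) _).trans_eq ?_
    rw [← ENNReal.mul_rpow_of_nonneg _ _ p0, ← ENNReal.ofReal_mul' K0.le, div_mul_cancel₀ _ K0.ne']

end BEp
end
end

-- merged part: Pool.Agent.Work.MP_f0515e_an.P3.YApi
section
/-! EXPORT: existence of the target structure. -/

open Set Metric Filter Topology Function BEv MeasureTheory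
open scoped NNReal ENNReal

noncomputable section
namespace BEp

theorem api_exists {p : ℝ} (h1 : 1 ≤ p) (h3 : p < 3) :
    ∃ (C0 C : ℝ) (Cf : (Rn 3 ≃L[ℝ] Rn 3) → ℝ), 10 ^ 9 ≤ C0 ∧ (∀ A, C0 ≤ Cf A) ∧
      ∀ g : ℝ, 0 < g → g ≤ 1 / 8 → ∀ (V : Set (Rn 3)) (θ : Rn 3 → ℝ) (ι : Type) [Finite ι]
        (P : ι → Pc), IsOpen V → LB V θ → PcIn V θ Cf P →
        ∃ (T : TS) (ν : Type) (c : Rn 3 → ℝ) (t : ν → Rn 3 → ℝ) (mv : ν → Rn 3 → ℝ → Rn 3)
          (dim : ν → ℕ) (b : ν → Rn 3),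
          Api V g C Cf P T c t mv dim b ∧ TSOk0 V θ p C0 g Cf P T := by
  obtain ⟨Kp, hK, hi⟩ := beta_int h1 h3
  have e0 : (1000 * 40 ^ 40 : ℝ) ≤ max (1000 * 40 ^ 40) (10000 * Kp) := le_max_left _ _
  have e1 : 10000 * Kp ≤ max (1000 * 40 ^ 40 : ℝ) (10000 * Kp) := le_max_right _ _
  generalize max (1000 * 40 ^ 40 : ℝ) (10000 * Kp) = Cm at e0 e1
  have e2 : 1000 ≤ Cm := by linarith
  have e3 : 1 ≤ Cm := by linarith
  obtain ⟨C0, Cf, k1, k2, k3⟩ := exists_str e3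
  refine ⟨C0, 40, Cf, le_trans (le_trans (by norm_num) e0) k1, k2,
    fun g g0 g1 V θ ι _ P hV hθ hP => ?_⟩
  obtain ⟨X, l, c, h⟩ := k3 V θ ι P hV hθ hP
  refine ⟨yTS X l c g Kp, Set (Rn 3), fun y => c y / (1000 * 40 ^ 40), X.tt,
    fun v y s => X.sh v s y, dm, X.b, ?_, h.ok0 h1 hK hi e1 hP.ok g0 g1⟩
  have l0 := h.scl.pos
  exact
    { opn := hV
      g0 := ⟨g0, g1⟩
      C1 := by norm_num
      t01 := fun v y _ => X.tt_mem v y
      ltp := X.ltp_tt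
      one := fun y hy => X.tt_one hy
      dim4 := fun v => Nat.lt_succ_of_le (dm_le v)
      col := fun y _ v w a b e => Cx.tt_col a b e
      ext := fun y hy y' hy' e => Cx.ext_tt hy hy' e
      mvt := fun v y hy s a b => Cx.sh_spec hy a (Ioo_subset_Icc_self b)
      lf1 := fun K a b => X.lf1 a b
      lf2 := X.lf2
      l0 := l0
      lv := fun y hy z hz k => by
        have a := l0 y hy
        have a' := l0 z hz
        obtain ⟨-, b, b'⟩ := h.lv hy (z := z) (k.trans (show 3 * l y ≤ 20 * l y by linarith))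
        exact ⟨show l z ≤ 40 * l y by linarith, show l y ≤ 40 * l z by linarith⟩
      star := fun y hy y' _ k => by
        have a := l0 y hy
        have b := h.star k
        exact show l y' ≤ 40 * l y by linarith
      bnr := fun v y hy k => by
        have a := l0 y hy
        have b := h.bnr k
        exact show ‖y - X.b v‖ ≤ 40 * l y by linarith
      ylip := fun z hz z' hz' D W a b => Cx.ylip hz hz' a b
      c1 := fun y => ⟨(one_le_div (by norm_num)).2 (e0.trans (h.c1 y)),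
        (mul_div_cancel₀ _ (by norm_num)).le⟩
      tlip := fun y hy z _ k v => (h.tlip e3 hy k v).mono (div_le_div_of_nonneg_right
        (div_le_div_of_nonneg_left (by linarith [h.c1 y]) (by norm_num) e0) (l0 y hy).le)
      theta := X.api_theta
      good := fun y hy => h.good e2 g0 g1 hy
      box := fun σ j k hjk y hy a b e => by
        obtain ⟨χ, c1, c2, c3, c4, c5⟩ := X.box_chart g0 g1 σ j k hjk y hy a b e
        exact ⟨χ, c1, c2, c3, c4, h.box hP.ok g0 g1 (fun x hx => (c2 x hx).1) c4 c5⟩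
      clm := X.api_clm g0 g1
      sys := fun A ε hA => h.sys e3 hP g0 hA
      flat := fun γ j a hγ hs ha hj => X.no_crc g0 g1 hγ (fun y hy => by
        obtain ⟨b, -, x, hx, rfl⟩ := hs hy
        exact ⟨(h.cell_Bx hx).1, h.TT_Bx (hP.ok b) hx (lt_of_le_of_lt (min_le_right _ _)
          (by decide))⟩) ha hj
      bar := fun i _ x hx => h.bar' (hP.ok i) hx
      chd := fun i j hj y _ hy => h.chd e3 g0 g1 (hP.ok i) hj hy }

end BEp
end
end
end
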