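import Pool.Agent.Work.MP_f0515e_an.P3.TDefs
import Pool.Agent.Work.MP_f0515e_an.D3.BAux
import Pool.Agent.Work.MP_f0515e_an.D3.PGau
import Pool.Agent.Work.MP_f0515e_an.D3.KBase

/-! Lipschitz bounds from a finite closed cover, and the cone over the rim of a cube. -/

open Set Metric Filter Topology Function BEv MeasureTheory
open scoped NNReal ENNReal

noncomputable section
namespace BEp

theorem CE_line {m : ℕ} {g : ℝ → Rn m} {c : ℝ} (T : Finset (Set ℝ)) :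
    (∀ C ∈ T, IsClosed C) → (∀ C ∈ T, ∀ s ∈ C, ∀ t ∈ C, s ≤ t → ‖g t - g s‖ ≤ c * (t - s)) →
    ∀ a b, a ≤ b → (∀ t ∈ Icc a b, ∃ C ∈ T, t ∈ C) → ‖g b - g a‖ ≤ c * (b - a) := by
  classical
  induction T using Finset.strongInduction with
  | H T ih =>
  intro hc h a b hab cov
  obtain ⟨C, hC, ha⟩ := cov a ⟨le_rfl, hab⟩
  have k : IsCompact (Icc a b ∩ C) := isCompact_Icc.inter_right (hc C hC)
  obtain ⟨s, ⟨⟨s1, s2⟩, s3⟩, hs⟩ := k.exists_isGreatest ⟨a, ⟨le_rfl, hab⟩, ha⟩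
  have e1 := h C hC a ha s s3 s1
  rcases s2.eq_or_lt with rfl | s2
  · exact e1
  have cl : IsClosed (⋃ D ∈ T.erase C, D) :=
    isClosed_biUnion_finset fun D hD => hc D (Finset.mem_of_mem_erase hD)
  have sub : Ioc s b ⊆ ⋃ D ∈ T.erase C, D := fun t ht => by
    obtain ⟨D, hD, k1⟩ := cov t ⟨s1.trans ht.1.le, ht.2⟩
    refine mem_iUnion₂.2 ⟨D, Finset.mem_erase.2 ⟨?_, hD⟩, k1⟩
    rintro rfl
    exact absurd (hs ⟨⟨s1.trans ht.1.le, ht.2⟩, k1⟩) (not_le.2 ht.1)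
  have sub' := cl.closure_subset_iff.2 sub
  rw [closure_Ioc s2.ne] at sub'
  have e2 := ih (T.erase C) (Finset.erase_ssubset hC)
    (fun D hD => hc D (Finset.mem_of_mem_erase hD)) (fun D hD => h D (Finset.mem_of_mem_erase hD))
    s b s2.le fun t ht => by simpa using sub' ht
  calc ‖g b - g a‖ = ‖(g b - g s) + (g s - g a)‖ := by congr 1; abel
    _ ≤ c * (b - s) + c * (s - a) := (norm_add_le _ _).trans (add_le_add e2 e1)
    _ = _ := by ring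

theorem CE_cover {n m : ℕ} {W : Set (Rn n)} (hW : Convex ℝ W) {𝒞 : Set (Set (Rn n))}
    (hf : 𝒞.Finite) (hc : ∀ C ∈ 𝒞, IsClosed C) (cov : W ⊆ ⋃₀ 𝒞) {k : Rn n → Rn m} {L : ℝ}
    (h : ∀ C ∈ 𝒞, ∀ x ∈ C ∩ W, ∀ y ∈ C ∩ W, ‖k x - k y‖ ≤ L * ‖x - y‖) :
    ∀ x ∈ W, ∀ y ∈ W, ‖k x - k y‖ ≤ L * ‖x - y‖ := by
  classical
  intro x hx y hy
  obtain ⟨γ, hγ⟩ : ∃ γ : ℝ → Rn n, γ = fun t => y + t • (x - y) := ⟨_, rfl⟩
  have gc : Continuous γ := by rw [hγ]; fun_prop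
  have gW : ∀ t ∈ Icc (0 : ℝ) 1, γ t ∈ W := fun t ht => by
    rw [hγ]; exact hW.add_smul_sub_mem hy hx ht
  have := CE_line (g := fun t => k (γ t)) (c := L * ‖x - y‖)
    (hf.toFinset.image fun C => γ ⁻¹' C ∩ Icc 0 1) ?_ ?_ 0 1 zero_le_one ?_
  · simpa [hγ] using this
  · intro C hC
    obtain ⟨D, hD, rfl⟩ := Finset.mem_image.1 hC
    exact ((hc D (hf.mem_toFinset.1 hD)).preimage gc).inter isClosed_Icc
  · intro C hC s hs t ht st
    obtain ⟨D, hD, rfl⟩ := Finset.mem_image.1 hC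
    refine (h D (hf.mem_toFinset.1 hD) _ ⟨ht.1, gW t ht.2⟩ _ ⟨hs.1, gW s hs.2⟩).trans_eq ?_
    have : γ t - γ s = (t - s) • (x - y) := by rw [hγ, sub_smul]; simp only; abel
    rw [this, norm_smul, Real.norm_of_nonneg (sub_nonneg.2 st)]
    ring
  · intro t ht
    obtain ⟨D, hD, k1⟩ := cov (gW t ht)
    exact ⟨_, Finset.mem_image.2 ⟨D, hf.mem_toFinset.2 hD, rfl⟩, k1, ht⟩

end BEp
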