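import Pool.Agent.Work.MP_f0515e_an.P3.KInt
import Pool.Agent.Work.MP_f0515e_an.D3.KBase

/-! Approximation on the two skeleton: the intermediate structures. -/

open Set Metric Filter Topology Function BEv MeasureTheory
open scoped NNReal ENNReal

noncomputable section
namespace BEp

/-- The wires. -/
def Wr (h u : ℝ) : Set (Rn 2) := {ξ | (∃ i : ℤ, ξ 0 = u + i * h) ∨ ∃ i : ℤ, ξ 1 = -u + i * h}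

/-- Cell of the grid of wires. -/
def wc (h u : ℝ) (ξ : Rn 2) : Set (Rn 2) :=
  {η | kbS ((ξ 0 - u) / h) ((η 0 - u) / h) ∧ kbS ((ξ 1 + u) / h) ((η 1 + u) / h)}

/-- Chart of a part of a face. -/
def Ch.sub (c : Ch) (F : Set (Rn 3)) : Ch := ⟨c.o, c.M, c.φ ⁻¹' F⟩

/-- Sides and wires. -/
def Ch.S (c : Ch) (W : Set (Rn 2)) : Set (Rn 2) := frontier c.U ∪ c.U ∩ W

def k1 (C0 : ℝ) : ℝ := 30 * 16 ^ 7 * C0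

def k2 (C0 c : ℝ) (A : Rn 3 ≃L[ℝ] Rn 3) : ℝ := C0 * (c * ‖(A : Rn 3 →L[ℝ] Rn 3)‖ + 1) + 1

def k3 (g c : ℝ) (A : Rn 3 ≃L[ℝ] Rn 3) : ℝ :=
  10 ^ 5 * (1 + (1 + ‖(A : Rn 3 →L[ℝ] Rn 3)‖) * c) ^ 3 / g ^ 2

variable {ι : Type} {Ω : Set (Rn 3)}

namespace SD
variable (d : SD ι)

open Classical in
/-- The bound for the energy of a face, with a weight on the domain. -/
def Y (p : ℝ) (u : Rn 3 → ℝ≥0∞) (F : Set (Rn 3)) : ℝ≥0∞ :=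
  if d.Frz F then ENNReal.ofReal (d.w F) *
    ∫⁻ ξ in frontier (d.ch F).U, (u ((d.ch F).φ ξ) * d.γ F ξ) ^ p ∂μH[1]
  else ∫⁻ ξ in (d.ch F).U, (u ((d.ch F).φ ξ) * d.γ F ξ) ^ p

/-- The total bound. -/
def tot (K : Kx Ω) (p : ℝ) (u : Rn 3 → ℝ≥0∞) : ℝ≥0∞ :=
  (∑' F : {F // F ∈ K.cel 2 ∧ ¬ d.Rig F}, d.ω F * d.Y p u F) +
    ∑ e ∈ d.Ed, d.ωe e * ∫⁻ t in Icc (0 : ℝ) 1, (u (seg e.1 e.2 t) * d.γe e t) ^ p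

/-- The total energy. -/
def en (K : Kx Ω) (p : ℝ) (G : Rn 3 → Rn 3) : ℝ≥0∞ :=
  (∑' F : {F // F ∈ K.cel 2 ∧ ¬ d.Rig F}, d.ω F * (d.ch F).E p G) +
    ∑ e ∈ d.Ed, d.ωe e * edE p G e

/-- The gradients multiplied by `b`. -/
def upd (b : Rn 3 → ℝ≥0∞) : SD ι :=
  { d with
    γ := fun F ξ => b ((d.ch F).φ ξ) * d.γ F ξ
    γe := fun e t => b (seg e.1 e.2 t) * d.γe e t }

/-- The segment lies in a chord. -/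
def Chd (a b : Rn 3) : Prop :=
  ∃ i, (d.P i).I.card = 1 ∧ segment ℝ a b ⊆ (d.P i).Q (d.P i).ρ

/-- The union of the chords. -/
def Chs : Set (Rn 3) := {x | ∃ i, (d.P i).I.card = 1 ∧ x ∈ (d.P i).Q (d.P i).ρ}

/-- Energy of `f` on the chords. -/
def ID (p : ℝ) : ℝ≥0∞ := ∫⁻ y in d.Chs, ‖d.D y‖ₑ ^ p ∂μH[1]

end SD

/-- The face with chart `c` is cut along the wires `W` into round cells of size `h`. -/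
structure Sbd (K' : Kx Ω) (c : Ch) (h : ℝ) (W : Set (Rn 2)) : Prop where
  h0 : 0 < h
  mW : MeasurableSet W
  W0 : volume W = 0
  rd : ∀ F ∈ K'.cel 2, F ⊆ c.φ '' c.U → (c.sub F).Of F ∧ (c.sub F).Rd (h / 16) h
  mult : ∀ ξ, {F | F ∈ K'.cel 2 ∧ F ⊆ c.φ '' c.U ∧ ξ ∈ closure (c.φ ⁻¹' F)}.encard ≤ 4
  sk : ∀ ξ ∈ c.U, c.φ ξ ∈ K'.sk 1 → ξ ∈ W

/-- Partition of an interval. -/
structure Prt (α β : ℝ) (J : Finset (ℝ × ℝ)) : Prop where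
  mem : ∀ q ∈ J, α ≤ q.1 ∧ q.1 < q.2 ∧ q.2 ≤ β
  dis : (J : Set (ℝ × ℝ)).PairwiseDisjoint fun q => Ioo q.1 q.2
  cov : (Icc α β \ ⋃ q ∈ J, Ioo q.1 q.2).Finite

/-- Summation of the energies of the cells of a face. -/
def FaceEn (p C cm : ℝ) (K' : Kx Ω) (c : Ch) (h : ℝ) (W : Set (Rn 2)) (δ : ℝ) (ε : ℝ≥0∞) : Prop :=
  ∀ (H : Rn 3 → Rn 3) (sp τ : Set (Rn 3) → ℝ) (Ψ : Rn 2 → ℝ≥0∞), Measurable Ψ →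
    (∀ σ ∈ K'.cells, σ ⊆ closure (c.φ '' c.U) → τ σ ≤ δ) →
    (∀ F ∈ K'.cel 2, F ⊆ c.φ '' c.U → ∀ ψ : Rn 2 → ℝ≥0∞, Measurable ψ →
      (∀ ξ ξ', K'.Edge (c.φ ξ) (c.φ ξ') → ξ ∈ closure (c.φ ⁻¹' F) → ξ' ∈ closure (c.φ ⁻¹' F) →
        ∀ z ∈ openSegment ℝ ξ ξ',
          ENNReal.ofReal (sp (openSegment ℝ (c.φ ξ) (c.φ ξ'))) ≤ ψ z * ‖ξ' - ξ‖ₑ) →
      (c.sub F).E p H ≤ ENNReal.ofReal C ^ p * ENNReal.ofReal h *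
        (∫⁻ ξ in frontier (c.φ ⁻¹' F), ψ ξ ^ p ∂μH[1]) + ENNReal.ofReal (τ F)) →
    (∀ ξ ξ', K'.Edge (c.φ ξ) (c.φ ξ') → ξ ∈ closure c.U → ξ' ∈ closure c.U →
      ENNReal.ofReal (sp (openSegment ℝ (c.φ ξ) (c.φ ξ'))) ≤
        ‖ξ' - ξ‖ₑ * (∫⁻ t in Icc (0 : ℝ) 1, Ψ (seg ξ ξ' t)) +
          ENNReal.ofReal (cm * τ (openSegment ℝ (c.φ ξ) (c.φ ξ')))) →
    c.E p H ≤ 16 * ENNReal.ofReal C ^ p * (ENNReal.ofReal h * ∫⁻ ξ in c.S W, Ψ ξ ^ p ∂μH[1]) + ε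

/-- Summation of the energies of the parts of an edge. -/
def En1 (p α β : ℝ) (J : Finset (ℝ × ℝ)) (δ : ℝ) (ε : ℝ≥0∞) : Prop :=
  ∀ (k : ℝ → Rn 3) (σ : ℝ × ℝ → ℝ) (Γ : ℝ → ℝ≥0∞), Measurable Γ →
    (∀ q ∈ J, ∀ s ∈ Icc q.1 q.2, ∀ s' ∈ Icc q.1 q.2,
      (q.2 - q.1) * ‖k s - k s'‖ ≤ σ q * |s - s'|) →
    (∀ q ∈ J, ENNReal.ofReal (σ q) ≤ (∫⁻ t in Icc q.1 q.2, Γ t) + ENNReal.ofReal δ) →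
    ∫⁻ t in Icc α β, ‖deriv k t‖ₑ ^ p ≤ 4 * (∫⁻ t in Icc α β, Γ t ^ p) + ε

/-- Energy on a chord. -/
def Ch1 (p g c α β : ℝ) (w : Rn 3) (J : Finset (ℝ × ℝ)) (δ : ℝ) (ε : ℝ≥0∞) : Prop :=
  ∀ (k : ℝ → Rn 3) (u : ℝ → ℝ) (Γ : ℝ → ℝ≥0∞) (dr : ℝ), Measurable Γ →
    (∃ L, LipschitzOnWith L k (Icc α β)) → ‖k β - k α - (β - α) • w‖ ≤ dr →
    (∀ q ∈ J, ∀ s ∈ Icc q.1 q.2, ∀ s' ∈ Icc q.1 q.2,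
      (q.2 - q.1) * ‖k s - k s' - (u s - u s') • w‖ ≤ δ * |s - s'| ∧
      ENNReal.ofReal ((q.2 - q.1) * |u s - u s'|) ≤
        (ENNReal.ofReal ((1 + 8 * g) * (q.2 - q.1) + δ) +
          ENNReal.ofReal c * ∫⁻ t in Icc q.1 q.2, Γ t) * ENNReal.ofReal |s - s'|) →
    ∫⁻ t in Icc α β, ‖deriv k t - w‖ₑ ^ p ≤
      ENNReal.ofReal (5000 * g * (β - α) * ‖w‖ ^ p + 100 * (1 + ‖w‖) ^ 2 * dr) +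
        ENNReal.ofReal (5000 * (1 + ‖w‖ * c) ^ 3 / g ^ 2) * (∫⁻ t in Icc α β, Γ t ^ p) + ε

section
variable (p C0 C1 g : ℝ) (CT Cf : (Rn 3 ≃L[ℝ] Rn 3) → ℝ) (K K' : Kx Ω) (f : Rn 3 → Rn 3)
  (d : SD ι) (T : TS) (u : Rn 3 → ℝ) (cm : ℝ) (sc : Rn 3 → ℝ)

/-- The situation after the blow up. -/
structure SCt : Prop where
  p2 : 2 ≤ p ∧ p < 3
  g0 : 0 < g ∧ g ≤ 1 / 8
  C01 : 1 ≤ C0
  CT1 : ∀ A, C0 ≤ CT A ∧ CT A ≤ Cf A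
  s : SIn p C1 g Cf K f d
  t : TSOk (f '' Ω) d.θ p C0 g CT d.P T
  mu : Measurable u
  ub : ∀ x, 1 ≤ u x ∧ u x ≤ cm
  uy : ∀ x ∈ K.sk 2, ∃ y ∈ f '' Ω, T.c y ≤ u x ∧ ‖f x - y‖ ≤ T.l y
  good : ∀ x ∈ K.sk 2, (∀ b, x ∉ (d.P b).In) → f x ∈ T.Good

/-- The scale. -/
structure Scal (V : Set (Rn 3)) (P : ι → Pc) : Prop where
  scl : Scl V sc (10 ^ 13)
  le : ∀ y ∈ V, (∀ b, y ∈ (P b).aff '' (P b).In → (P b).Nr (P b).l y) → 10 ^ 13 * sc y ≤ T.mrg y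
  eq : ∀ b, ∀ x ∈ (P b).Q (P b).ρx, ∀ y, ‖y - (P b).aff x‖ ≤ (P b).l / 2 →
    10 ^ 13 * sc y = g * (P b).l / CT (P b).A

/-- The refined complex. -/
structure Wi (M ε : Set (Rn 3) → ℝ≥0∞) (h : Set (Rn 3) → ℝ) (W : Set (Rn 3) → Set (Rn 2)) :
    Prop where
  ref : K.Ref K'
  keep : ∀ x ∈ Ω, (∀ F ∈ K.cel 2, x ∈ closure F → d.Frz F) → K'.cell x = K.cell x
  sbd : ∀ F ∈ K.cel 2, Sbd K' (d.ch F) (h F) (W F)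
  osc : ∀ x ∈ K'.sk 2, ∀ y ∈ closure (K'.cell x), ‖f y - f x‖ ≤ sc (f x)
  fin : ∀ F ∈ K.cel 2,
    ∫⁻ ξ in (d.ch F).S (W F), (d.v ((d.ch F).φ ξ) + d.γ F ξ ^ p) ∂μH[1] ≠ ⊤
  wire : ∀ F ∈ K.cel 2, ENNReal.ofReal (h F) *
      ∫⁻ ξ in (d.ch F).S (W F), (ENNReal.ofReal (u ((d.ch F).φ ξ)) * d.γ F ξ) ^ p ∂μH[1] ≤
    4 * d.Y p (fun x => ENNReal.ofReal (u x)) F + ε F
  chd : ∀ F ∈ K.cel 2, ¬ d.Frz F → ENNReal.ofReal (h F) * M F ≤ ε F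

/-- The first piecewise affine embedding. -/
structure GOut (τ : Set (Rn 3) → ℝ) (e : ℝ≥0∞) (G : Rn 3 → Rn 3) (ψ : Rn 3 → ℝ≥0∞) : Prop where
  ltp : LTP Ω G
  inj : InjOn G Ω
  sub : G '' Ω ⊆ f '' Ω
  rig : ∀ b, 2 ≤ (d.P b).I.card → EqOn G (d.P b).aff ((d.P b).Q (d.P b).ρx)
  mv : ∀ x ∈ K'.sk 2, ‖G x - f x‖ ≤ 5 * 10 ^ 11 * sc (f x)
  var : ∀ a b, K'.Edge a b → ¬ d.Chd a b →
    vr G a b ≤ 30 * vr f a b + ENNReal.ofReal (τ (openSegment ℝ a b))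
  mψ : Measurable ψ
  int : ∫⁻ y, ψ y ^ p ∂μH[1] ≤ e
  cvar : ∀ a b, K'.Edge a b → d.Chd a b → ∀ (A : Rn 3 →L[ℝ] Rn 3) (c y : Rn 3),
    vr (fun x => G x - (A (x - c) + y)) a b ≤ ∫⁻ t in Icc (0 : ℝ) 1,
      (ψ (seg a b t) * ‖b - a‖ₑ + ‖d.D (seg a b t) (b - a) - A (b - a)‖ₑ)

/-- The charts of the faces of the refined complex. -/
structure Cht (h : Set (Rn 3) → ℝ) (ch : Set (Rn 3) → Ch) (r R : Set (Rn 3) → ℝ) : Prop where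
  chart : ∀ F ∈ K'.cel 2, (ch F).Of F ∧ (ch F).Rd (r F) (R F)
  sub : ∀ F ∈ K.cel 2, ¬ d.Rig F → ∀ F' ∈ K'.cel 2, F' ⊆ F →
    ch F' = (d.ch F).sub F' ∧ r F' = h F / 16 ∧ R F' = h F
  iso : ∀ F ∈ K'.cel 2, d.Rig F → r F = R F ∧ ∀ ξ, ‖(ch F).M ξ‖ = ‖ξ‖

/-- The energy estimate on the chord `P`. -/
def ChdE (P : Pc) (j : Fin 3) (a b : ℝ) (e : ℝ≥0∞) (H : Rn 3 → Rn 3) : Prop :=
  ∫⁻ t in Icc (-P.ρ) P.ρ, ‖deriv (fun t => H (P.pt j t)) t - P.A (Pi.single j 1)‖ₑ ^ p ≤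
    ENNReal.ofReal (a * g * P.ρ * ‖P.A (Pi.single j 1)‖ ^ p + b * P.l) +
      ENNReal.ofReal b * (∫⁻ t in Icc (-P.ρ) P.ρ,
        ‖d.D (P.pt j t) (Pi.single j 1) - P.A (Pi.single j 1)‖ₑ ^ p) + e

/-- The embedding before the cone extension. -/
structure MOut (e : ℝ≥0∞) (H : Rn 3 → Rn 3) : Prop where
  ltp : LTP Ω H
  inj : InjOn H Ω
  mv : ∀ x ∈ K.sk 2, (∀ b, x ∉ (d.P b).In) → ‖H x - f x‖ ≤ 3 * d.θ (f x)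
  en : d.en K p H ≤ d.tot K p (fun x => ENNReal.ofReal (k1 C0 * u x)) + e
  bar : ∀ b, 2 ≤ (d.P b).I.card → H '' (d.P b).Bd = (d.P b).aff '' (d.P b).Bd ∧
    ∀ x ∈ (d.P b).Bd, ∀ x' ∈ (d.P b).Bd, H x = (d.P b).aff x' → (d.P b).Lat x x'
  lip : ∀ b, 2 ≤ (d.P b).I.card → ∀ W ⊆ (d.P b).Bx, Convex ℝ W → ∀ x ∈ W, ∀ x' ∈ W,
    ‖H x - H x'‖ ≤ k2 C0 (CT (d.P b).A) (d.P b).A * ‖x - x'‖
  chd : ∀ b j, (d.P b).I = {j} →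
    ChdE p g d (d.P b) j (10 ^ 4) (k3 g (CT (d.P b).A) (d.P b).A) e H

end

/-- All the data of the middle part. -/
structure Dat (Ω : Set (Rn 3)) (ι : Type) where
  p : ℝ
  C0 : ℝ
  C1 : ℝ
  g : ℝ
  CT : (Rn 3 ≃L[ℝ] Rn 3) → ℝ
  Cf : (Rn 3 ≃L[ℝ] Rn 3) → ℝ
  K : Kx Ω
  K' : Kx Ω
  f : Rn 3 → Rn 3
  d : SD ι
  T : TS
  u : Rn 3 → ℝ
  cm : ℝ
  sc : Rn 3 → ℝ
  M : Set (Rn 3) → ℝ≥0∞
  ε : Set (Rn 3) → ℝ≥0∞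
  h : Set (Rn 3) → ℝ
  W : Set (Rn 3) → Set (Rn 2)
  τ : Set (Rn 3) → ℝ
  e : ℝ≥0∞
  G : Rn 3 → Rn 3
  ψ : Rn 3 → ℝ≥0∞
  ch : Set (Rn 3) → Ch
  r : Set (Rn 3) → ℝ
  R : Set (Rn 3) → ℝ
  H : Rn 3 → Rn 3
  sp : Set (Rn 3) → ℝ

/-- `M F` bounds the contribution of the chords to the face `F`. -/
def MOk (p cm : ℝ) (K : Kx Ω) (d : SD ι) (M : Set (Rn 3) → ℝ≥0∞) : Prop :=
  ∀ F ∈ K.cel 2, ∀ χ : Rn 3 → ℝ≥0∞, Measurable χ →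
    ∫⁻ y, χ y ^ p ∂μH[1] ≤ 4 * (1 + d.ID p) →
    ∫⁻ ξ, (ENNReal.ofReal (cm * ‖(d.ch F).M‖) * χ ((d.ch F).φ ξ)) ^ p ∂μH[1] ≤ M F

/-- All the properties of the middle part. -/
structure All (z : Dat Ω ι) : Prop where
  c : SCt z.p z.C0 z.C1 z.g z.CT z.Cf z.K z.f z.d z.T z.u z.cm
  s : Scal z.g z.CT z.T z.sc (z.f '' Ω) z.d.P
  w : Wi z.p z.K z.K' z.f z.d z.u z.sc z.M z.ε z.h z.W
  g : GOut z.p z.K' z.f z.d z.sc z.τ z.e z.G z.ψ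
  t : Cht z.K z.K' z.d z.h z.ch z.r z.R
  o : HOut (z.f '' Ω) z.T z.p z.C0 z.g z.CT z.d.P z.K' z.G z.ch z.r z.R z.τ z.H z.sp
  τ0 : ∀ σ, 0 < z.τ σ ∧ z.τ σ ≤ 1 ∧ z.τ σ ≤ z.d.s
  e1 : z.e ≤ 1
  m : MOk z.p z.cm z.K z.d z.M

end BEp
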