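import Pool.Agent.Work.MP_f0515e_an.P3.SOne
import Pool.Agent.Work.MP_f0515e_an.P3.YEll1
import Pool.Agent.Work.MP_f0515e_an.D3.SRig0
import Pool.Agent.Work.MP_f0515e_an.P3.SVr

-- merged part: Pool.Agent.Work.MP_f0515e_an.P3.SEdge
section
-- merged part: Pool.Agent.Work.MP_f0515e_an.P3.SSel
section
/-! Choice of the centres.
Plan.  `sel_one`: Tonelli (`lintegral_lintegral_swap`, `Measurable.lintegral_prod_right'`), `ENNReal.mul_rpow_of_nonneg`, `lintegral_mul_const`, the hypothesis under `setLIntegral_mono'`.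
`sel_ctr`: `volume.restrict (Icc 0 1)` is a probability measure; apply `sel_one` with `μ = volume.restrict U`, `μH[1].restrict (frontier U)` (finite by `fr_fin`), `volume.restrict (Icc 0 1)`; the points lie in `f '' Ω` (`Ch.Of.sk`, `Edge.seg_sub`);
`K.cel 2` is countable (`Kx.countable`), `lintegral_tsum`, `lintegral_finset_sum`; the bad set is the union of the null set of `TSOk.ctr`, of the complement of `Icc 0 1` and of the sets where one integral is infinite (`ae_lt_top`, `T.c ≤ cm`, `FIn.fin`, `FIn.bd`);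
`exists_notMem_null_le_lintegral`. -/

open Set Metric Filter Topology Function BEv MeasureTheory
open scoped NNReal ENNReal

noncomputable section
namespace BEp

variable {ι : Type} {Ω : Set (Rn 3)} {K K' : Kx Ω} {f : Rn 3 → Rn 3} {d : SD ι} {p C0 C1 g cm : ℝ}
  {CT Cf : (Rn 3 ≃L[ℝ] Rn 3) → ℝ} {T : TS} {u sc : Rn 3 → ℝ}

theorem sel_one {α : Type} [MeasurableSpace α] {μ : Measure α} [SFinite μ] (hp : 0 < p)
    {β : Rn 3 → Rn 3 → ℝ≥0∞} (hβ : Measurable (uncurry β)) {c : Rn 3 → ℝ≥0∞} {y : α → Rn 3}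
    (hy : Measurable y) (h : ∀ᵐ x ∂μ, ∫⁻ ζ in Icc (0 : Rn 3) 1, β ζ (y x) ^ p ≤ c (y x) ^ p)
    {a γ : α → ℝ≥0∞} (ha : Measurable a) (hγ : Measurable γ) :
    (Measurable fun ζ => ∫⁻ x, (a x * (β ζ (y x) * γ x)) ^ p ∂μ) ∧
      ∫⁻ ζ in Icc (0 : Rn 3) 1, ∫⁻ x, (a x * (β ζ (y x) * γ x)) ^ p ∂μ ≤
        ∫⁻ x, (a x * c (y x) * γ x) ^ p ∂μ := by
  have m1 : Measurable fun z : Rn 3 × α => β z.1 (y z.2) :=
    hβ.comp (measurable_fst.prodMk (hy.comp measurable_snd))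
  have m2 : Measurable fun z : Rn 3 × α => (a z.2 * (β z.1 (y z.2) * γ z.2)) ^ p :=
    ((ha.comp measurable_snd).mul (m1.mul (hγ.comp measurable_snd))).pow_const p
  refine ⟨m2.lintegral_prod_right', ?_⟩
  rw [lintegral_lintegral_swap m2.aemeasurable]
  refine lintegral_mono_ae (h.mono fun x hx => ?_)
  have e : ∀ b, (a x * (b * γ x)) ^ p = (a x * γ x) ^ p * b ^ p := fun b => by
    rw [← ENNReal.mul_rpow_of_nonneg _ _ hp.le, mul_comm b, mul_assoc]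
  simp only [e]
  have m3 : Measurable fun ζ => β ζ (y x) ^ p := (m1.comp measurable_prodMk_right).pow_const p
  rw [lintegral_const_mul _ m3, mul_assoc, e]
  exact mul_le_mul_right hx _

theorem SSel_seg (a b : Rn 3) : Measurable (seg a b) :=
  (show Continuous fun t : ℝ => a + t • (b - a) by fun_prop).measurable

theorem SSel_ed (h : SIn p C1 g Cf K f d) {e : Rn 3 × Rn 3} (he : e ∈ d.Ed) :
    ∀ᵐ t ∂volume.restrict (Icc (0 : ℝ) 1), seg e.1 e.2 t ∈ Ω :=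
  (ae_restrict_mem measurableSet_Icc).mono fun _ ht =>
    ((h.edge e he).1.seg_sub (seg_image e.1 e.2 ▸ mem_image_of_mem _ ht)).1

theorem SSel_fc (h : SIn p C1 g Cf K f d) {F : Set (Rn 3)} (hF : F ∈ K.cel 2) :
    (∀ᵐ ξ ∂volume.restrict (d.ch F).U, (d.ch F).φ ξ ∈ Ω) ∧
      ∀ᵐ ξ ∂μH[1].restrict (frontier (d.ch F).U), (d.ch F).φ ξ ∈ Ω :=
  ⟨(ae_restrict_mem (h.face F hF).1.2.1.measurableSet).mono fun _ k =>
    ((h.face F hF).1.sk hF (subset_closure k)).1,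
  (ae_restrict_mem isClosed_frontier.measurableSet).mono fun _ k =>
    ((h.face F hF).1.sk hF (frontier_subset_closure k)).1⟩

theorem sel_ctr (hp : 0 < p) (h : SIn p C1 g Cf K f d) (hT : TSOk (f '' Ω) d.θ p C0 g CT d.P T)
    (null : volume (f '' K.sk 2) = 0) {f' : Rn 3 → Rn 3} (hm : Measurable f') (e : EqOn f' f Ω)
    {v : Rn 3 → ℝ≥0∞} (hv : Measurable v) (hc : ∀ y ∈ f '' Ω, T.c y ≤ cm) :
    ∃ ζ ∈ Icc (0 : Rn 3) 1, Disjoint (T.Ctr ζ) (f '' K.sk 2) ∧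
      (d.upd fun x => T.β ζ (f' x)).tot K p v ≤
        d.tot K p (fun x => v x * ENNReal.ofReal (T.c (f' x))) ∧
      ∀ F ∈ K.cel 2, ∫⁻ ξ in (d.ch F).U, (T.β ζ (f' ((d.ch F).φ ξ)) * d.γ F ξ) ^ p ≠ ⊤ ∧
        ∫⁻ ξ in frontier (d.ch F).U, (T.β ζ (f' ((d.ch F).φ ξ)) * d.γ F ξ) ^ p ∂μH[1] ≠ ⊤ := by
  have : IsProbabilityMeasure (volume.restrict (Icc (0 : Rn 3) 1)) :=
    ⟨by rw [Measure.restrict_apply_univ, Real.volume_Icc_pi]; simp⟩
  have key : ∀ {α : Type} [MeasurableSpace α] {μ : Measure α} [SFinite μ] {y : α → Rn 3},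
      Measurable y → (∀ᵐ x ∂μ, y x ∈ Ω) → ∀ {a γ : α → ℝ≥0∞}, Measurable a → Measurable γ →
      (Measurable fun ζ => ∫⁻ x, (a x * (T.β ζ (f' (y x)) * γ x)) ^ p ∂μ) ∧
      ∫⁻ ζ in Icc (0 : Rn 3) 1, ∫⁻ x, (a x * (T.β ζ (f' (y x)) * γ x)) ^ p ∂μ ≤
        ∫⁻ x, (a x * ENNReal.ofReal (T.c (f' (y x))) * γ x) ^ p ∂μ := fun hy k _ _ ha hγ =>
    sel_one hp hT.βm (c := fun z => ENNReal.ofReal (T.c z)) (hm.comp hy)
      (k.mono fun x hx => hT.βi _ ⟨_, hx, (e hx).symm⟩) ha hγ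
  have fin : ∀ {μ : Measure (Rn 2)} [SFinite μ] {y : Rn 2 → Rn 3}, Measurable y →
      (∀ᵐ x ∂μ, y x ∈ Ω) → ∀ {γ : Rn 2 → ℝ≥0∞}, Measurable γ →
      ∫⁻ x, (d.v (y x) + γ x ^ p) ∂μ ≠ ⊤ → ∀ᵐ ζ ∂volume.restrict (Icc (0 : Rn 3) 1),
      ∫⁻ x, (T.β ζ (f' (y x)) * γ x) ^ p ∂μ ≠ ⊤ := by
    intro μ _ y hy k γ hγ fi
    have := key hy k (a := fun _ => 1) measurable_const hγ
    simp only [one_mul] at this
    refine (ae_lt_top this.1 (ne_top_of_le_ne_top ?_ (this.2.trans (lintegral_mono_ae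
      (g := fun x => ENNReal.ofReal cm ^ p * (d.v (y x) + γ x ^ p))
      (k.mono fun x hx => ?_))))).mono fun _ => ne_of_lt
    · have c := ENNReal.rpow_ne_top_of_nonneg hp.le (ENNReal.ofReal_ne_top (r := cm))
      rw [lintegral_const_mul' _ _ c]
      exact ENNReal.mul_ne_top c fi
    · rw [ENNReal.mul_rpow_of_nonneg _ _ hp.le]
      exact mul_le_mul' (ENNReal.rpow_le_rpow (ENNReal.ofReal_le_ofReal
        (hc _ ⟨_, hx, (e hx).symm⟩)) hp.le) le_add_self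
  have cF : (K.cel 2).Countable := (K.countable h.opn).mono fun _ k => k.1
  have : Countable {F // F ∈ K.cel 2 ∧ ¬ d.Rig F} := (cF.mono fun _ k => k.1).to_subtype
  have fr : ∀ F ∈ K.cel 2, IsFiniteMeasure (μH[1].restrict (frontier (d.ch F).U)) := fun F hF =>
    isFiniteMeasure_restrict.2 (fr_fin (h.face F hF).2.1)
  have Y : ∀ F ∈ K.cel 2, (Measurable fun ζ => (d.upd fun x => T.β ζ (f' x)).Y p v F) ∧
      ∫⁻ ζ in Icc (0 : Rn 3) 1, (d.upd fun x => T.β ζ (f' x)).Y p v F ≤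
        d.Y p (fun x => v x * ENNReal.ofReal (T.c (f' x))) F := fun F hF => by
    have := fr F hF
    have mφ := (d.ch F).cont.measurable
    have mγ := (h.face F hF).2.2.1.mγ
    by_cases z : d.Frz F
    · have k := key mφ (SSel_fc h hF).2 (hv.comp mφ) mγ
      have e1 : ∀ ζ, (d.upd fun x => T.β ζ (f' x)).Y p v F = _ := fun ζ => if_pos z
      rw [funext e1, SD.Y, if_pos z]
      exact ⟨k.1.const_mul (ENNReal.ofReal (d.w F)), (lintegral_const_mul _ k.1).le.trans (mul_le_mul_right k.2 _)⟩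
    · have e1 : ∀ ζ, (d.upd fun x => T.β ζ (f' x)).Y p v F = _ := fun ζ => if_neg z
      rw [funext e1, SD.Y, if_neg z]
      exact key mφ (SSel_fc h hF).1 (hv.comp mφ) mγ
  have E := fun e (he : e ∈ d.Ed) => key (SSel_seg e.1 e.2) (SSel_ed h he)
    (hv.comp (SSel_seg e.1 e.2)) (h.edge e he).2.2.1
  have m1 := fun F : {F // F ∈ K.cel 2 ∧ ¬ d.Rig F} => (Y F F.2.1).1.const_mul (d.ω F)
  have m3 : Measurable fun ζ => ∑' F : {F // F ∈ K.cel 2 ∧ ¬ d.Rig F},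
      d.ω F * (d.upd fun x => T.β ζ (f' x)).Y p v F := Measurable.tsum m1
  have m2 := fun e (he : e ∈ d.Ed) => (E e he).1.const_mul (d.ωe e)
  have good : ∀ᵐ ζ ∂volume.restrict (Icc (0 : Rn 3) 1), ζ ∈ Icc (0 : Rn 3) 1 ∧
      Disjoint (T.Ctr ζ) (f '' K.sk 2) ∧ ∀ F ∈ K.cel 2,
        ∫⁻ ξ in (d.ch F).U, (T.β ζ (f' ((d.ch F).φ ξ)) * d.γ F ξ) ^ p ≠ ⊤ ∧
        ∫⁻ ξ in frontier (d.ch F).U, (T.β ζ (f' ((d.ch F).φ ξ)) * d.γ F ξ) ^ p ∂μH[1] ≠ ⊤ := by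
    refine (ae_restrict_mem measurableSet_Icc).and ((hT.ctr _ null).and
      ((ae_ball_iff cF).2 fun F hF => ?_))
    have := fr F hF
    have q := (h.face F hF).2.2.1
    exact (fin (d.ch F).cont.measurable (SSel_fc h hF).1 q.mγ q.fin).and
      (fin (d.ch F).cont.measurable (SSel_fc h hF).2 q.mγ q.bd)
  obtain ⟨ζ, z1, z2⟩ := exists_notMem_null_le_lintegral
    (m3.fun_add (Finset.measurable_fun_sum _ m2)).aemeasurable (ae_iff.1 good)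
  replace z1 := not_not.1 z1
  refine ⟨ζ, z1.1, z1.2.1, z2.trans ?_, z1.2.2⟩
  rw [lintegral_add_left m3, lintegral_tsum fun F => (m1 F).aemeasurable,
    lintegral_finsetSum _ m2]
  refine add_le_add (ENNReal.tsum_le_tsum fun F => ?_) (Finset.sum_le_sum fun e he => ?_)
  · exact (lintegral_const_mul _ (Y F F.2.1).1).le.trans (mul_le_mul_right (Y F F.2.1).2 _)
  · exact (lintegral_const_mul _ (E e he).1).le.trans (mul_le_mul_right (E e he).2 _)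

theorem tot_mono (hp : 0 < p) (h : SIn p C1 g Cf K f d) {v v' : Rn 3 → ℝ≥0∞}
    (k : ∀ x ∈ Ω, v x ≤ v' x) : d.tot K p v ≤ d.tot K p v' := by
  have key : ∀ {α : Type} [MeasurableSpace α] {μ : Measure α} {y : α → Rn 3},
      (∀ᵐ x ∂μ, y x ∈ Ω) → ∀ γ : α → ℝ≥0∞,
      ∫⁻ x, (v (y x) * γ x) ^ p ∂μ ≤ ∫⁻ x, (v' (y x) * γ x) ^ p ∂μ := fun hy _ =>
    lintegral_mono_ae (hy.mono fun x hx => ENNReal.rpow_le_rpow (mul_le_mul_left (k _ hx) _) hp.le)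
  refine add_le_add (ENNReal.tsum_le_tsum fun F => mul_le_mul_right ?_ _)
    (Finset.sum_le_sum fun e he => mul_le_mul_right (key (SSel_ed h he) _) _)
  unfold SD.Y
  split_ifs
  · exact mul_le_mul_right (key (SSel_fc h F.2.1).2 _) _
  · exact key (SSel_fc h F.2.1).1 _

end BEp
end
end

-- merged part: Pool.Agent.Work.MP_f0515e_an.P3.SCx
section
/-! The blow up and the scale.
Plan.  `ctx_exists`: `f' = Ω.piecewise f 0` is measurable (`ContinuousOn.measurable_piecewise`); `cm` bounds `C0` and all `CT (P b).A` (`Finite.bddAbove_range`), `TSOk.cb`; `u x = min cm (T.c (f' x))`;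
`sel_ctr` with `v x = ofReal (k1 C0 * u x)`, `TSOk.blow` (`sk_cpt`), `blow_sin`; `tot_mono`: `k1 c ^ 2 ≤ wt` by `cb`, `w0`, `w1`, `Nr.mono`; `‖B y - y‖ ≤ T.l y ≤ T.c y * T.l y ≤ θ y`.
`scal_exists`: `m y = g l / CT` if `y` is within `l` of `aff '' Q ρx` for some `b` (unique by `PcIn.uniq`), else `T.mrg y`; it is locally bounded below (finitely many `b`, `m0`); `scl_low` for `m / 10 ^ 13`, with the ball of radius `l / 2` (`PcIn.sub`, `a_le`); `le`: `nr_out`, `mn`. -/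

open Set Metric Filter Topology Function BEv MeasureTheory
open scoped NNReal ENNReal

noncomputable section
namespace BEp

variable {ι : Type} {Ω : Set (Rn 3)} {K K' : Kx Ω} {f : Rn 3 → Rn 3} {d : SD ι} {p C0 C1 g cm : ℝ}
  {CT Cf : (Rn 3 ≃L[ℝ] Rn 3) → ℝ} {T : TS} {u sc : Rn 3 → ℝ}

theorem SCx_lθ {V : Set (Rn 3)} {θ : Rn 3 → ℝ} {P : ι → Pc} (hT : TSOk V θ p C0 g CT P T) {y : Rn 3}
    (hy : y ∈ V) : T.l y ≤ θ y :=
  (le_mul_of_one_le_left (hT.l0 y hy).le (hT.c1 y)).trans (hT.cl y hy)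

theorem SCx_a (C : SCt p C0 C1 g CT Cf K f d T u cm) (b : ι) :
    0 < g * (d.P b).l / Cf (d.P b).A ∧ g * (d.P b).l / Cf (d.P b).A ≤ g * (d.P b).l / CT (d.P b).A ∧
      g * (d.P b).l / CT (d.P b).A ≤ (d.P b).l / 8 ∧ (d.P b).l ≤ Cf (d.P b).A * (d.P b).l := by
  have h1 := C.C01.trans (C.CT1 (d.P b).A).1
  obtain ⟨a1, a2, a3, -⟩ := a_le C.g0 (d.P b).l0 h1 (C.CT1 _).2
  exact ⟨a1, a2, a3, le_mul_of_one_le_left (d.P b).l0.le (h1.trans (C.CT1 _).2)⟩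


theorem ctx_exists [Finite ι] (hp : 2 ≤ p ∧ p < 3) (g0 : 0 < g ∧ g ≤ 1 / 8) (C01 : 1 ≤ C0)
    (hC : k1 C0 * C0 ^ 2 ≤ C1) (hCT : ∀ A, C0 ≤ CT A ∧ k1 C0 * CT A ^ 2 ≤ Cf A)
    (h : SIn p C1 g Cf K f d) (hn : volume (f '' K.sk 2) = 0)
    (hT : TSOk (f '' Ω) d.θ p C0 g CT d.P T) :
    ∃ f1 b u cm, SCt p C0 C1 g CT Cf K f1 (d.upd b) T u cm ∧ f1 '' Ω = f '' Ω ∧
      (∀ x ∈ Ω, ‖f1 x - f x‖ ≤ d.θ (f x)) ∧
      (d.upd b).tot K p (fun x => ENNReal.ofReal (k1 C0 * u x)) ≤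
        d.tot K p fun x => d.wt (f x) := by
  classical
  have hp0 : 0 < p := by linarith [hp.1]
  have k1' : 1 ≤ k1 C0 := by unfold k1; nlinarith
  have hCT' : ∀ A, 1 ≤ CT A ∧ CT A ≤ Cf A := fun A => by
    have h1 := C01.trans (hCT A).1
    refine ⟨h1, le_trans ?_ (hCT A).2⟩
    nlinarith [mul_le_mul_of_nonneg_right k1' (sq_nonneg (CT A))]
  have hm : Measurable (Ω.piecewise f 0) :=
    h.cont.measurable_piecewise continuousOn_const h.opn.measurableSet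
  have e : EqOn (Ω.piecewise f 0) f Ω := fun x hx => piecewise_eq_of_mem _ _ _ hx
  generalize Ω.piecewise f 0 = f' at hm e
  obtain ⟨M, hM⟩ := Finite.bddAbove_range fun b => CT (d.P b).A
  have hc : ∀ y ∈ f '' Ω, T.c y ≤ max C0 M := fun y hy => by
    rcases hT.cb y hy with k | ⟨b, -, k⟩
    · exact k.trans (le_max_left _ _)
    · exact (k.trans (hM ⟨b, rfl⟩)).trans (le_max_right _ _)
  have mu : Measurable fun x => min (max C0 M) (T.c (f' x)) := measurable_const.min (hT.cm.comp hm)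
  obtain ⟨ζ, hζ, dis, tt, fin⟩ := sel_ctr hp0 h hT hn hm e
    (v := fun x => ENNReal.ofReal (k1 C0 * min (max C0 M) (T.c (f' x))))
    (mu.const_mul _).ennreal_ofReal hc
  obtain ⟨B, hB⟩ := hT.blow ζ hζ (f '' K.sk 2)
    (fun y hy => ⟨image_mono (fun x hx => hx.1) hy, fun k => disjoint_left.1 dis k hy⟩)
    fun C hC hs => sk_cpt h.opn h.cont h.inj hC hs
  obtain ⟨s1, im, good⟩ := blow_sin g0 hCT' h hB (b := fun x => T.β ζ (f' x))
    (hT.βm.comp (measurable_const.prodMk hm)) (fun x hx => by rw [e hx]) fin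
  refine ⟨B ∘ f, fun x => T.β ζ (f' x), fun x => min (max C0 M) (T.c (f' x)), max C0 M,
    ⟨hp, g0, C01, fun A => ⟨(hCT A).1, (hCT' A).2⟩, s1, im ▸ hT, mu,
      fun x => ⟨le_min (C01.trans (le_max_left _ _)) (hT.c1 _), min_le_left _ _⟩, fun x hx => ?_, good⟩,
    im, fun x hx => (hB.mv _ ⟨x, hx, rfl⟩).trans (SCx_lθ hT ⟨x, hx, rfl⟩),
    tt.trans (tot_mono hp0 h fun x hx => ?_)⟩
  · refine ⟨f x, im ▸ ⟨x, hx.1, rfl⟩, ?_, hB.mv _ ⟨x, hx.1, rfl⟩⟩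
    rw [e hx.1]
    exact le_min (hc _ ⟨x, hx.1, rfl⟩) le_rfl
  · have c1 := hT.c1 (f x)
    have key : ∀ c : ℝ, T.c (f x) ≤ c →
        ENNReal.ofReal (k1 C0 * min (max C0 M) (T.c (f' x))) * ENNReal.ofReal (T.c (f' x)) ≤
          ENNReal.ofReal (k1 C0 * c ^ 2) := fun c k => by
      rw [e hx, ← ENNReal.ofReal_mul' (by linarith), mul_assoc, pow_two]
      exact ENNReal.ofReal_le_ofReal (mul_le_mul_of_nonneg_left
        (mul_le_mul ((min_le_right _ _).trans k) k (by linarith) (by linarith)) (by linarith))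
    rcases hT.cb (f x) ⟨x, hx, rfl⟩ with k | ⟨b, n, k⟩
    · exact (key _ k).trans ((ENNReal.ofReal_le_ofReal hC).trans (h.w0 _))
    · exact (key _ k).trans ((ENNReal.ofReal_le_ofReal (hCT _).2).trans (h.w1 b _
        (n.mono (mul_le_mul_of_nonneg_right (hCT' _).2 (d.P b).l0.le))))

theorem scal_exists [Finite ι] (C : SCt p C0 C1 g CT Cf K f d T u cm) :
    ∃ sc, Scal g CT T sc (f '' Ω) d.P := by
  classical
  have pc := C.s.pc
  obtain ⟨m, m1, m2⟩ : ∃ m : Rn 3 → ℝ, (∀ b, ∀ x ∈ (d.P b).Q (d.P b).ρx, ∀ y,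
      ‖y - (d.P b).aff x‖ ≤ (d.P b).l → m y = g * (d.P b).l / CT (d.P b).A) ∧
      ∀ y, (∃ b, ∃ x ∈ (d.P b).Q (d.P b).ρx, ‖y - (d.P b).aff x‖ ≤ (d.P b).l) ∨ m y = T.mrg y := by
    refine ⟨fun y => if k : ∃ b, ∃ x ∈ (d.P b).Q (d.P b).ρx, ‖y - (d.P b).aff x‖ ≤ (d.P b).l then
      g * (d.P k.choose).l / CT (d.P k.choose).A else T.mrg y, fun b x hx y hy => ?_, fun y => ?_⟩
    · have k : ∃ b, ∃ x ∈ (d.P b).Q (d.P b).ρx, ‖y - (d.P b).aff x‖ ≤ (d.P b).l := ⟨b, x, hx, hy⟩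
      obtain ⟨x', hx', hy'⟩ := k.choose_spec
      refine (dif_pos k).trans ?_
      rw [pc.uniq hx' hx (hy'.trans (SCx_a C _).2.2.2) (hy.trans (SCx_a C _).2.2.2)]
    · exact (em _).imp_right fun k => dif_neg k
  obtain ⟨c1, hc1, hc0⟩ : ∃ c : ℝ, (∀ b, c ≤ g * (d.P b).l / CT (d.P b).A) ∧ 0 < c :=
    ((eventually_all.2 fun b => mem_of_superset (Ioc_mem_nhdsGT ((SCx_a C b).1.trans_le (SCx_a C b).2.1))
      fun c k => k.2).and self_mem_nhdsWithin).exists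
  obtain ⟨s, hs, h1, h2⟩ := scl_low (L := 10 ^ 13) (θ := fun y => m y / 10 ^ 13)
    (C.s.scl.lb (by norm_num)).1 (fun y hy => by
      obtain ⟨c, c0, hc⟩ := C.t.m0 y hy
      refine ⟨min c c1 / 10 ^ 13, by positivity, hc.mono fun z hz => ?_⟩
      refine div_le_div_of_nonneg_right ?_ (by norm_num)
      rcases m2 z with ⟨b, x, hx, k⟩ | k
      · rw [m1 b x hx z k]
        exact (min_le_right _ _).trans (hc1 b)
      · rw [k]
        exact (min_le_left _ _).trans hz) (by norm_num)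
  refine ⟨s, hs, fun y hy k => ?_, fun b x hx y hy => ?_⟩
  · have h3 : s y ≤ m y / 10 ^ 13 := h1 y hy
    have h4 : m y ≤ T.mrg y := by
      rcases m2 y with ⟨b, x, hx, n⟩ | n
      · rw [m1 b x hx y n]
        refine C.t.mn b y ?_
        by_cases i : y ∈ (d.P b).aff '' (d.P b).In
        exacts [k b i, Pc.nr_out (pc.ok b) hx n i]
      · exact n.le
    linarith
  · obtain ⟨a1, a2, a3, a4⟩ := SCx_a C b
    have l0 := (d.P b).l0
    have nr : ∀ z ∈ ball y ((d.P b).l / 2), ‖z - (d.P b).aff x‖ ≤ (d.P b).l := fun z hz => by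
      have := norm_sub_le_norm_sub_add_norm_sub z y ((d.P b).aff x)
      rw [mem_ball, dist_eq_norm] at hz
      linarith
    have h3 : s y ≤ m y / 10 ^ 13 := h1 y (pc.sub b x hx y (by linarith)).1
    have h4 := h2 y (g * (d.P b).l / CT (d.P b).A / 10 ^ 13) ((d.P b).l / 2)
      (fun z hz => (pc.sub b x hx z ((nr z hz).trans a4)).1) fun z hz => by rw [m1 b x hx z (nr z hz)]
    rw [min_eq_left (by linarith)] at h4
    rw [m1 b x hx y (by linarith)] at h3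
    linarith

/-- The scale at the points of the skeleton. -/
theorem SCt.sc_le (C : SCt p C0 C1 g CT Cf K f d T u cm) (S : Scal g CT T sc (f '' Ω) d.P)
    {x : Rn 3} (hx : x ∈ K.sk 2) (hI : ∀ b, x ∉ (d.P b).In) :
    10 ^ 13 * sc (f x) ≤ T.mrg (f x) ∧ 8 * T.mrg (f x) ≤ T.l (f x) ∧ T.l (f x) ≤ d.θ (f x) := by
  have hy : f x ∈ f '' Ω := ⟨x, hx.1, rfl⟩
  refine ⟨S.le _ hy fun b k => (C.s.nr hx (hI b) k).mono ?_, C.t.ml _ hy, SCx_lθ C.t hy⟩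
  obtain ⟨-, a2, a3, -⟩ := SCx_a C b
  linarith [(d.P b).l0]

/-- The scale near a plate or a solid. -/
theorem SCt.sc_box (C : SCt p C0 C1 g CT Cf K f d T u cm) (S : Scal g CT T sc (f '' Ω) d.P)
    {b : ι} (hc : 2 ≤ (d.P b).I.card) {x : Rn 3} (hq : x ∈ (d.P b).Q ((d.P b).ρx + 32 * d.s)) :
    50 * (‖((d.P b).A : Rn 3 →L[ℝ] Rn 3)‖ * d.s + d.s) ≤ sc ((d.P b).aff x) ∧
      (x ∈ K.sk 2 → 50 * (‖((d.P b).A : Rn 3 →L[ℝ] Rn 3)‖ * d.s + d.s) ≤ sc (f x)) := by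
  have B := C.s.box b hc
  have s0 := C.s.s0
  obtain ⟨a1, a2, a3, -⟩ := SCx_a C b
  obtain ⟨b1, b2⟩ := B.small s0
  have l0 := (d.P b).l0
  refine ⟨?_, fun hx => ?_⟩
  · obtain ⟨x', hx', k⟩ := Pc.clamp (B.ρx0 s0).le (by positivity) hq
    have h1 := ((d.P b).aff_le x x').trans (mul_le_mul_of_nonneg_left k (norm_nonneg _))
    have := S.eq b x' hx' ((d.P b).aff x) (by linarith)
    linarith
  · obtain ⟨x', hx', k⟩ := B.near s0 hx hq
    have := S.eq b x' hx' (f x) (by linarith)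
    linarith

/-- The scale on the chords and the rigid parts. -/
theorem SCt.sc_pc (C : SCt p C0 C1 g CT Cf K f d T u cm) (S : Scal g CT T sc (f '' Ω) d.P)
    {b : ι} {x : Rn 3} (hx : x ∈ K.sk 2) (hq : x ∈ (d.P b).Q (d.P b).ρx) :
    10 ^ 13 * sc (f x) = g * (d.P b).l / CT (d.P b).A ∧
      ‖f x - (d.P b).aff x‖ ≤ g * (d.P b).l / CT (d.P b).A / 2 := by
  have s0 := C.s.s0
  obtain ⟨a1, a2, a3, -⟩ := SCx_a C b
  have l0 := (d.P b).l0
  have k : ‖f x - (d.P b).aff x‖ ≤ g * (d.P b).l / Cf (d.P b).A / 2 := by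
    rcases (C.s.pc.ok b).card with ⟨j, e⟩ | hc
    · refine (C.s.chd b j e).close x ?_
      rwa [Pc.ρx_eq (by rw [e]; simp)] at hq
    · have B := C.s.box b hc
      have h1 := B.close x ⟨hx, Pc.Q_mono (by linarith) hq⟩
      linarith [(B.small s0).1, (B.tol_le s0).1, (B.tol_le s0).2]
  exact ⟨S.eq b x hq _ (by linarith), by linarith⟩

end BEp
end
end

-- merged part: Pool.Agent.Work.MP_f0515e_an.P3.SRef
section
/-! The refinement along the wires.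
Plan.  `refine_wires`: for a face `F` take a left inverse `N` of `M` (`LinearMap.exists_leftInverse_of_injective`), the functionals `x ↦ N (x - o) 0 - (u + m h)`, `x ↦ N (x - o) 1 - (-u + m h)`, `m ∈ S` (`wc_iff`) form a finite set `L F` with
`φ η ∈ face (L F) (φ ξ) ↔ η ∈ wc ξ` on `closure U` (`Ch.Shp.box`).  `Kx.refine` with `H x = ⋃ F ∈ {F ∈ K.cel 2 | ¬ Z F ∧ x ∈ closure F}, L F` (finite by `lf_cl`, monotone by `fr`, model `refine_pc`); `H x = L F` for `x ∈ F` (`only_face`); `face_anti`, `K.fr`, `Ch.Of.cl_eq` for the last claim.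
`sbd_wires`: a face `F' ⊆ φ '' U` is the cell of some `φ ξ`, `ξ ∉ Wr` by `wc_line`, `dm_image`, `dm_mono`; `φ ⁻¹' F' = U ∩ wc ξ`; `wc_open`, `wc_rd`, `dm_open`; `mult`: the set is contained in the image of the set of `wc_mult` under `A ↦ φ '' (U ∩ A)`. -/

open Set Metric Filter Topology Function BEv MeasureTheory
open scoped NNReal ENNReal

noncomputable section
namespace BEp

variable {Ω : Set (Rn 3)} {K K' : Kx Ω}

theorem SRef_L {c : Ch} {w h : ℝ} (hi : Injective c.M) (hw : c.Shp w) (h0 : 0 < h) (u : ℝ) :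
    ∃ L : Set ((Rn 3 →L[ℝ] ℝ) × ℝ), L.Finite ∧ ∀ ξ ∈ closure c.U, ∀ η ∈ closure c.U,
      (c.φ η ∈ face L (c.φ ξ) ↔ η ∈ wc h u ξ) := by
  obtain ⟨N, hN⟩ := c.M.toLinearMap.exists_leftInverse_of_injective (LinearMap.ker_eq_bot.2 hi)
  obtain ⟨S, hS, k⟩ := wc_iff h0 w u
  let A : Fin 2 → ℝ → (Rn 3 →L[ℝ] ℝ) × ℝ := fun i a =>
    (LinearMap.toContinuousLinearMap (LinearMap.proj i ∘ₗ N), -N c.o i - a)
  have e : ∀ i a η, ev (A i a) (c.φ η) = η i - a := fun i a η => by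
    have : N (c.M η) = η := LinearMap.congr_fun hN η
    simp [A, ev, Ch.φ, this]
    ring
  refine ⟨(fun m : ℤ => A 0 (u + m * h)) '' S ∪ (fun m : ℤ => A 1 (-u + m * h)) '' S,
    (hS.image _).union (hS.image _), fun ξ hξ η hη => ?_⟩
  rw [k ξ η (hw.box hξ) (hw.box hη)]
  simp only [face, mem_ofPred_eq, mem_union, or_imp, forall_and, forall_mem_image, e]

theorem SRef_fr {σ : Set (Rn 3)} {x : Rn 3} (hσ : σ ∈ K.cells) (hx : x ∈ closure σ) :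
    K.cell x ⊆ closure σ :=
  Kx.front (K.cell_mem (Kx.cl_sub hσ hx)) hσ ⟨x, K.mem x (Kx.cl_sub hσ hx), hx⟩

theorem refine_wires (K : Kx Ω) (hΩ : IsOpen Ω) (Z : Set (Rn 3) → Prop) {ch : Set (Rn 3) → Ch}
    {w h u : Set (Rn 3) → ℝ} (hc : ∀ F ∈ K.cel 2, (ch F).Of F ∧ (ch F).Shp (w F))
    (h0 : ∀ F ∈ K.cel 2, 0 < h F) :
    ∃ K' : Kx Ω, K.Ref K' ∧
      (∀ x ∈ Ω, (∀ F ∈ K.cel 2, x ∈ closure F → Z F) → K'.cell x = K.cell x) ∧
      ∀ F ∈ K.cel 2, ¬ Z F →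
        (∀ ξ ∈ (ch F).U, K'.cell ((ch F).φ ξ) = (ch F).φ '' ((ch F).U ∩ wc (h F) (u F) ξ)) ∧
        ∀ ξ ∈ closure (ch F).U, K'.cell ((ch F).φ ξ) ⊆ (ch F).φ '' wc (h F) (u F) ξ := by
  choose! L hL hw using fun F (hF : F ∈ K.cel 2) => SRef_L (hc F hF).1.1 (hc F hF).2 (h0 F hF) (u F)
  obtain ⟨K', hK⟩ := K.refine (fun x => ⋃ F ∈ {F | F ∈ K.cel 2 ∧ ¬ Z F ∧ x ∈ closure F}, L F)
    (fun x hx => ((Kx.lf_cl (K := K) hΩ isCompact_singleton (singleton_subset_iff.2 hx)).subset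
      fun F hF => ⟨hF.1.1, x, hF.2.2, rfl⟩).biUnion fun F hF => hL F hF.1)
    fun x _ y hy => biUnion_subset_biUnion_left fun F hF => ⟨hF.1, hF.2.1,
      closure_minimal (SRef_fr hF.1.1 hF.2.2) isClosed_closure hy⟩
  refine ⟨K', fun x hx => hK x hx ▸ inter_subset_left, fun x hx k => ?_, fun F hF hZ => ?_⟩
  · rw [hK x hx]
    refine inter_eq_left.2 fun y _ A hA => ?_
    obtain ⟨F, hF, -⟩ := mem_iUnion₂.1 hA
    exact absurd (k F hF.1 hF.2.2) hF.2.1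
  have cl : ∀ ξ ∈ closure (ch F).U, (ch F).φ ξ ∈ closure F := fun ξ hξ =>
    (hc F hF).1.cl_eq.subset (mem_image_of_mem _ hξ)
  have s2 : ∀ ξ ∈ closure (ch F).U, ∀ η ∈ closure (ch F).U,
      (ch F).φ η ∈ K'.cell ((ch F).φ ξ) → η ∈ wc (h F) (u F) ξ := fun ξ hξ η hη k => by
    rw [hK _ (Kx.cl_sub hF.1 (cl ξ hξ))] at k
    exact (hw F hF ξ hξ η hη).1 fun A hA => k.2 A (mem_iUnion₂.2 ⟨F, ⟨hF, hZ, cl ξ hξ⟩, hA⟩)
  refine ⟨fun ξ hξ => ?_, fun ξ hξ y hy => ?_⟩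
  · have m := (hc F hF).1.2.2.subset (mem_image_of_mem _ hξ)
    have e := hK _ (Kx.cells_sub hF.1 m)
    rw [Kx.cell_eq hF.1 m] at e
    refine Subset.antisymm (fun y hy => ?_) ?_
    · obtain ⟨η, hη, rfl⟩ := (hc F hF).1.2.2.superset (e.subset hy).1
      exact ⟨η, ⟨hη, s2 ξ (subset_closure hξ) η (subset_closure hη) hy⟩, rfl⟩
    · rintro _ ⟨η, hη, rfl⟩
      refine e.superset ⟨(hc F hF).1.2.2.subset (mem_image_of_mem _ hη.1), fun A hA => ?_⟩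
      obtain ⟨F', hF', k⟩ := mem_iUnion₂.1 hA
      rw [Kx.only_face hF m hF'.1 hF'.2.2] at k
      exact (hw F hF ξ (subset_closure hξ) η (subset_closure hη.1)).2 hη.2 A k
  · obtain ⟨η, hη, rfl⟩ := (hc F hF).1.cl_eq.superset (SRef_fr hF.1 (cl ξ hξ)
      ((hK _ (Kx.cl_sub hF.1 (cl ξ hξ))).subset hy).1)
    exact ⟨η, s2 ξ hξ η hη hy, rfl⟩

theorem sbd_wires {c : Ch} {F : Set (Rn 3)} {w h u : ℝ} (hc : c.Of F) (hw : c.Shp w) (h0 : 0 < h)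
    {k : ℕ} (hk : w = k * h) (u1 : h / 4 ≤ u) (u2 : u ≤ 3 * h / 4)
    (e : ∀ ξ ∈ c.U, K'.cell (c.φ ξ) = c.φ '' (c.U ∩ wc h u ξ)) : Sbd K' c h (Wr h u) := by
  have i := (Ch.emb hc.1).injective
  have key : ∀ F' ∈ K'.cel 2, F' ⊆ c.φ '' c.U → ∃ ξ ∈ c.U, ξ ∉ Wr h u ∧
      F' = c.φ '' (c.U ∩ wc h u ξ) := by
    rintro _ ⟨⟨x, hx, rfl⟩, d⟩ s
    obtain ⟨ξ, hξ, rfl⟩ := s (K'.mem x hx)
    refine ⟨ξ, hξ, fun l => ?_, e ξ hξ⟩
    rw [e ξ hξ, Ch.dm_image hc.1] at d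
    exact absurd (d.ge.trans ((dm_mono inter_subset_right).trans (wc_line h0 l))) (by norm_num)
  refine ⟨h0, wr_meas h u, wr_null h u, fun F' hF s => ?_, fun ξ => ?_, fun ξ hξ l => ?_⟩
  · obtain ⟨ξ, hξ, n, rfl⟩ := key F' hF s
    have p : (c.sub (c.φ '' (c.U ∩ wc h u ξ))).U = c.U ∩ wc h u ξ := preimage_image_eq _ i
    refine ⟨⟨hc.1, ?_, congrArg (c.φ '' ·) p⟩, by positivity, ?_⟩ <;> rw [p]
    exacts [hc.2.1.inter (wc_open h0 n), wc_rd hw h0 hk u1 u2 hξ n]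
  · refine ((encard_le_encard ?_).trans (encard_image_le (fun A => c.φ '' (c.U ∩ A)) _)).trans
      (wc_mult (u := u) h0 ξ)
    rintro F' ⟨hF, s, l⟩
    obtain ⟨η, -, n, rfl⟩ := key F' hF s
    rw [preimage_image_eq _ i] at l
    exact ⟨_, ⟨⟨η, n, rfl⟩, closure_mono inter_subset_right l⟩, rfl⟩
  · by_contra n
    have := l.2
    rw [e ξ hξ, Ch.dm_image hc.1, dm_open (hc.2.1.inter (wc_open h0 n)) ⟨ξ, hξ, wc_self⟩] at this
    omega

theorem sbd_frz {c : Ch} {F : Set (Rn 3)} {w : ℝ} (hc : c.Of F) (hw : c.Shp w)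
    (hF : F ∈ K'.cel 2) : Sbd K' c w ∅ := by
  have key : ∀ F' ∈ K'.cel 2, F' ⊆ c.φ '' c.U → F' = F := fun F' h s =>
    let ⟨x, hx⟩ := Kx.cells_ne h.1
    Kx.only_face hF (hc.2.2.subset (s hx)) h (subset_closure hx)
  refine ⟨hw.1, .empty, measure_empty, fun F' h s => ?_, fun ξ => ?_, fun ξ hξ l => ?_⟩
  · rw [key F' h s, hc.sub_self]
    exact ⟨hc, hw.rd⟩
  · exact (encard_le_encard fun F' h => key F' h.1 h.2.1).trans
      ((encard_singleton F).trans_le (by norm_num))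
  · have := l.2
    rw [Kx.cell_eq hF.1 (hc.2.2.subset (mem_image_of_mem _ hξ)), hF.2] at this
    omega

end BEp
end
end

-- merged part: Pool.Agent.Work.MP_f0515e_an.P3.SWi
section
/-! The refined complex.
Plan.  `wi_face`: `sc ∘ f ∘ φ ≥ m > 0` on the compact set `closure U` (`Ch.Of.cpt`, `Ch.Of.sk`, `Scl.cont`, `IsCompact.exists_isMinOn`), `f ∘ φ` is uniformly continuous there;
`I = ∫⁻ (u γ) ^ p` over `frontier U` is finite (`ub`, `FIn.bd`); `h = w / k` with `k` large (`ENNReal.Tendsto.mul_const`, or `h ≤ (ε / I).toReal`); `wire_avg` with `Ψ = (u ∘ φ * γ) ^ p`, `Ψ' = v ∘ φ + γ ^ p`; `lintegral_union_le`; `SD.Y`, `if_neg`.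
`osc_frz`: `BoxIn.cell_Q` with `m = 2`, `Pc.Q_cpt`, `cl_sub_sk`, `BoxIn.close` at `x` and `y`, `BoxIn.diam`, `Pc.aff_le`, `tol_le`, `SCt.sc_box`.
`wi_exists`: `choose!` in `wi_face`; `refine_wires` with `Z = d.Frz` and sizes `if d.Frz F then d.w F else h F`; `W F = if d.Frz F then ∅ else Wr (h F) (u0 F)`; a frozen face is a face of `K'` (`only_face`, `cell_eq`), `sbd_frz`, `sbd_wires`, `wr_meas`.
`osc`: `sk_two`; if `x = φ ξ` is in the closure of a face `F` which is not frozen then `closure (K'.cell x) ⊆ closure F ∩ φ '' closure (wc ξ)` (`K.fr`, `Ch.emb`), `wc_near`; else the cell is kept, `in_face`, `osc_frz`.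
`Wi.ug`: `Sbd.edge`, `lint_seg`, `Wi.fin`, `FIn.ug`, `lint_fin`, `Ch.φ_seg`, `NLn_var`.  `Wi.bv`: `par1`, `Ch.Of.ends`.  `Wi.cell`: `keep22`.  `Wi.edge`, `Wi.face`: `cell_eq` at a point of the cell. -/

open Set Metric Filter Topology Function BEv MeasureTheory
open scoped NNReal ENNReal

noncomputable section
namespace BEp

variable {ι : Type} {Ω : Set (Rn 3)} {K K' : Kx Ω} {f : Rn 3 → Rn 3} {d : SD ι} {p C0 C1 g cm : ℝ}
  {CT Cf : (Rn 3 ≃L[ℝ] Rn 3) → ℝ} {T : TS} {u sc : Rn 3 → ℝ} {M ε : Set (Rn 3) → ℝ≥0∞}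
  {h τ : Set (Rn 3) → ℝ} {W : Set (Rn 3) → Set (Rn 2)}

theorem wi_face (C : SCt p C0 C1 g CT Cf K f d T u cm) (S : Scal g CT T sc (f '' Ω) d.P)
    {F : Set (Rn 3)} (hF : F ∈ K.cel 2) (hz : ¬ d.Frz F) {m e : ℝ≥0∞} (hm : m ≠ ⊤) (he : e ≠ 0) :
    ∃ (h u0 : ℝ) (k : ℕ), 0 < h ∧ d.w F = k * h ∧ h / 4 ≤ u0 ∧ u0 ≤ 3 * h / 4 ∧
      (∀ ξ ∈ closure (d.ch F).U, ∀ η ∈ closure (d.ch F).U, ‖η - ξ‖ ≤ h →
        ‖f ((d.ch F).φ η) - f ((d.ch F).φ ξ)‖ ≤ sc (f ((d.ch F).φ ξ))) ∧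
      ∫⁻ ξ in (d.ch F).S (Wr h u0), (d.v ((d.ch F).φ ξ) + d.γ F ξ ^ p) ∂μH[1] ≠ ⊤ ∧
      ENNReal.ofReal h * ∫⁻ ξ in (d.ch F).S (Wr h u0),
        (ENNReal.ofReal (u ((d.ch F).φ ξ)) * d.γ F ξ) ^ p ∂μH[1] ≤
          4 * d.Y p (fun x => ENNReal.ofReal (u x)) F + e ∧
      ENNReal.ofReal h * m ≤ e := by
  obtain ⟨hO, hS, hI, -⟩ := C.s.face F hF
  have p0 : 0 ≤ p := by linarith [C.p2.1]
  have cpt := hO.cpt hF.1
  have mp : ∀ ξ ∈ closure (d.ch F).U, (d.ch F).φ ξ ∈ Ω := fun ξ k => (hO.sk hF k).1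
  have cf : ContinuousOn (fun ξ => f ((d.ch F).φ ξ)) (closure (d.ch F).U) :=
    C.s.cont.comp (d.ch F).cont.continuousOn mp
  obtain ⟨a, a0, ha⟩ := cpt.exists_forall_le' ((S.scl.cont (by norm_num)).comp_continuousOn cf)
    (a := 0) fun ξ k => S.scl.pos _ (mem_image_of_mem f (mp ξ k))
  obtain ⟨δ, δ0, hδ⟩ := Metric.uniformContinuousOn_iff_le.1
    (cpt.uniformContinuousOn_of_continuous cf) a a0
  have n1 : ENNReal.ofReal cm ^ p ≠ ⊤ := ENNReal.rpow_ne_top_of_nonneg p0 ENNReal.ofReal_ne_top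
  have n2 : ∫⁻ ξ in frontier (d.ch F).U,
      (ENNReal.ofReal (u ((d.ch F).φ ξ)) * d.γ F ξ) ^ p ∂μH[1] ≠ ⊤ := by
    refine ne_top_of_le_ne_top (ENNReal.mul_ne_top n1 hI.bd) ?_
    rw [← lintegral_const_mul' _ _ n1]
    refine lintegral_mono fun ξ => ?_
    rw [ENNReal.mul_rpow_of_nonneg _ _ p0]
    exact mul_le_mul' (ENNReal.rpow_le_rpow (ENNReal.ofReal_le_ofReal (C.ub _).2) p0) le_add_self
  obtain ⟨t, t0, ht⟩ := ENNReal.exists_nnreal_pos_mul_lt (ENNReal.add_ne_top.2 ⟨n2, hm⟩) he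
  have m0 : 0 < min δ t := lt_min δ0 t0
  obtain ⟨k, hk⟩ := exists_nat_ge (d.w F / min δ t)
  have k0 : (0 : ℝ) < k := (div_pos hS.1 m0).trans_le hk
  have h0 := div_pos hS.1 k0
  have h1 : d.w F / k ≤ min δ t := by rwa [div_le_comm₀ k0 m0]
  have h2 : ENNReal.ofReal (d.w F / k) ≤ t :=
    ENNReal.ofReal_le_coe.2 (h1.trans (min_le_right _ _))
  obtain ⟨u0, hu, b1, b2⟩ := wire_avg h0 hO.2.1.measurableSet
    (((C.mu.comp (d.ch F).cont.measurable).ennreal_ofReal.mul hI.mγ).pow_const p)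
    ((C.s.mv.comp (d.ch F).cont.measurable).add (hI.mγ.pow_const p)) hI.fin
  refine ⟨_, u0, k, h0, (mul_div_cancel₀ _ k0.ne').symm, hu.1, hu.2, fun ξ k1 η k2 k3 => ?_,
    ne_top_of_le_ne_top (ENNReal.add_ne_top.2 ⟨hI.bd, b2⟩) (lintegral_union_le _ _ _), ?_,
    (mul_le_mul' h2 le_add_self).trans ht.le⟩
  · rw [← dist_eq_norm] at k3 ⊢
    exact (hδ η k2 ξ k1 (k3.trans (h1.trans (min_le_left _ _)))).trans (ha ξ k1)
  · refine (mul_le_mul_right (lintegral_union_le _ _ _) _).trans ?_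
    rw [mul_add, add_comm, SD.Y, if_neg hz]
    exact add_le_add b1 ((mul_le_mul' h2 le_self_add).trans ht.le)

theorem osc_frz (C : SCt p C0 C1 g CT Cf K f d T u cm) (S : Scal g CT T sc (f '' Ω) d.P) {b : ι}
    (hc : 2 ≤ (d.P b).I.card) {x : Rn 3} (hx : x ∈ K.sk 2)
    (hq : x ∈ (d.P b).Q ((d.P b).ρx + 32 * d.s)) :
    ∀ y ∈ closure (K.cell x), ‖f y - f x‖ ≤ sc (f x) := by
  intro y hy
  have B := C.s.box b hc
  have s0 := C.s.s0
  have e : (d.P b).ρx + 16 * ((2 : ℕ) : ℝ) * d.s = (d.P b).ρx + 32 * d.s := by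
    push_cast
    ring
  have h1 := B.cell_Q s0 2 le_rfl (e ▸ hq)
  rw [e] at h1
  have h2 := B.close y ⟨Kx.cl_sub_sk (K.cell_mem hx.1) hx.2 hy,
    closure_minimal h1 ((d.P b).Q_cpt _).isClosed hy⟩
  have h3 := B.close x ⟨hx, hq⟩
  have h4 := ((d.P b).aff_le y x).trans
    (mul_le_mul_of_nonneg_left (B.diam s0 hq y hy) (norm_nonneg _))
  have h5 := B.tol_le s0
  have h6 := (C.sc_box S hc hq).2 hx
  have h7 := norm_sub_le_norm_sub_add_norm_sub (f y) ((d.P b).aff y) (f x)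
  have h8 := norm_sub_le_norm_sub_add_norm_sub ((d.P b).aff y) ((d.P b).aff x) (f x)
  rw [norm_sub_rev] at h3
  have h9 := mul_nonneg (norm_nonneg ((d.P b).A : Rn 3 →L[ℝ] Rn 3)) s0.le
  linarith [h5.1, h5.2]

theorem wi_exists (C : SCt p C0 C1 g CT Cf K f d T u cm) (S : Scal g CT T sc (f '' Ω) d.P)
    (hM : ∀ F, M F ≠ ⊤) (hε : ∀ F, ε F ≠ 0) : ∃ K' h W, Wi p K K' f d u sc M ε h W := by
  classical
  choose! h u0 k H using fun F (hF : F ∈ K.cel 2) (hz : ¬ d.Frz F) =>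
    wi_face C S hF hz (hM F) (hε F)
  obtain ⟨K', ref, keep, wr⟩ := refine_wires K C.s.opn d.Frz (ch := d.ch) (w := d.w)
    (h := fun F => if d.Frz F then d.w F else h F) (u := u0)
    (fun F hF => ⟨(C.s.face F hF).1, (C.s.face F hF).2.1⟩) fun F hF => by
      split_ifs with hz
      exacts [(C.s.face F hF).2.1.1, (H F hF hz).1]
  refine ⟨K', fun F => if d.Frz F then d.w F else h F,
    fun F => if d.Frz F then ∅ else Wr (h F) (u0 F), ref, keep, fun F hF => ?_, fun x hx y hy => ?_,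
    fun F hF => ?_, fun F hF => ?_, fun F hF hz => ?_⟩
  · obtain ⟨hO, hS, -⟩ := C.s.face F hF
    split_ifs with hz
    · obtain ⟨x, hx⟩ := Kx.cells_ne hF.1
      have hx' := Kx.cells_sub hF.1 hx
      exact sbd_frz hO hS ⟨⟨x, hx', (keep x hx' fun F' hF' k =>
        (Kx.only_face hF hx hF' k).symm ▸ hz).trans (Kx.cell_eq hF.1 hx)⟩, hF.2⟩
    · obtain ⟨h0, h1, h2, h3, -⟩ := H F hF hz
      exact sbd_wires hO hS h0 h1 h2 h3 (by simpa only [if_neg hz] using (wr F hF hz).1)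
  · rw [Kx.sk_two ref keep] at hx
    by_cases c : ∀ F ∈ K.cel 2, x ∈ closure F → d.Frz F
    · obtain ⟨F, hF, h1⟩ := Kx.in_face C.s.opn hx
      have h2 := h1 (K.mem x hx.1)
      obtain ⟨b, hc, hq⟩ := c F hF h2
      rw [keep x hx.1 c] at hy
      exact osc_frz C S hc hx (closure_minimal hq ((d.P b).Q_cpt _).isClosed h2) y hy
    · push Not at c
      obtain ⟨F, hF, h1, hz⟩ := c
      have hO := (C.s.face F hF).1
      have h2 : y ∈ closure F :=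
        closure_minimal ((ref x hx.1).trans (SRef_fr hF.1 h1)) isClosed_closure hy
      rw [← hO.cl_eq] at h1
      obtain ⟨ξ, hξ, rfl⟩ := h1
      have h3 := closure_mono ((wr F hF hz).2 ξ hξ) hy
      rw [(Ch.emb hO.1).closure_image_eq, if_neg hz] at h3
      obtain ⟨η, hη, rfl⟩ := h3
      exact (H F hF hz).2.2.2.2.1 ξ hξ η (hO.pre_cl.subset h2) (wc_near (H F hF hz).1 hη)
  · split_ifs with hz
    · rw [Ch.S, inter_empty, union_empty]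
      exact (C.s.face F hF).2.2.1.bd
    · exact (H F hF hz).2.2.2.2.2.1
  · split_ifs with hz
    · rw [Ch.S, inter_empty, union_empty, SD.Y, if_pos hz]
      exact (le_mul_of_one_le_left' (by norm_num)).trans le_self_add
    · exact (H F hF hz).2.2.2.2.2.2.1
  · rw [if_neg hz]
    exact (H F hF hz).2.2.2.2.2.2.2

namespace Wi
variable (w : Wi p K K' f d u sc M ε h W)
include w

theorem sk2 : K'.sk 2 = K.sk 2 := Kx.sk_two w.ref w.keep

theorem ug (hp : 1 ≤ p) (s : SIn p C1 g Cf K f d) {F : Set (Rn 3)} (hF : F ∈ K.cel 2)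
    {ξ ξ' : Rn 2} (he : K'.Edge ((d.ch F).φ ξ) ((d.ch F).φ ξ')) (h1 : ξ ∈ closure (d.ch F).U)
    (h2 : ξ' ∈ closure (d.ch F).U) : ∫⁻ t in Icc (0 : ℝ) 1, d.γ F (seg ξ ξ' t) ≠ ⊤ ∧
      vr f ((d.ch F).φ ξ) ((d.ch F).φ ξ') ≤
        ‖ξ' - ξ‖ₑ * ∫⁻ t in Icc (0 : ℝ) 1, d.γ F (seg ξ ξ' t) := by
  obtain ⟨hO, -, hI, -⟩ := s.face F hF
  obtain ⟨ne, sub⟩ := (w.sbd F hF).edge hO hF.1 he h1 h2
  have a := ne_top_of_le_ne_top (w.fin F hF) (lintegral_mono_set sub)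
  rw [lint_seg] at a
  have b := (ENNReal.lt_top_of_mul_ne_top_right a
    (enorm_ne_zero.2 (sub_ne_zero.2 ne.symm))).ne
  refine ⟨lint_fin hp (by simp) (ne_top_of_le_ne_top b (lintegral_mono fun _ => le_add_self)),
    NLn_var fun t t' t0 t1 t2 => ?_⟩
  rw [edist_eq_enorm_sub, ← Ch.φ_seg, ← Ch.φ_seg]
  exact hI.ug ξ h1 ξ' h2 (ne_top_of_le_ne_top b (lintegral_mono fun _ => le_self_add)) t t' t0 t1 t2

theorem bv (hp : 1 ≤ p) (s : SIn p C1 g Cf K f d) {a b : Rn 3} (he : K'.Edge a b) :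
    vr f a b ≠ ⊤ := by
  obtain ⟨F, hF, h1⟩ := Kx.par1 s.opn w.ref w.sk2 he
  obtain ⟨ξ, k1, ξ', k2, rfl, rfl⟩ :=
    (s.face F hF).1.ends ((openSegment_subset_segment ℝ a b).trans h1)
  obtain ⟨u1, u2⟩ := w.ug hp s hF he k1 k2
  exact ne_top_of_le_ne_top (ENNReal.mul_ne_top enorm_ne_top u1) u2

/-- The cells near a plate or a solid are kept. -/
theorem cell (s : SIn p C1 g Cf K f d) {b : ι} (hc : 2 ≤ (d.P b).I.card) {x : Rn 3}
    (hx : x ∈ (d.P b).Q ((d.P b).ρx + 22 * d.s)) : K'.cell x = K.cell x := by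
  exact w.keep x ((s.box b hc).QS (Pc.Q_mono (by linarith [s.s0]) hx)) (s.keep22 hc hx)

theorem cells (s : SIn p C1 g Cf K f d) {b : ι} (hc : 2 ≤ (d.P b).I.card) {σ : Set (Rn 3)}
    (hσ : σ ⊆ (d.P b).Q ((d.P b).ρx + 22 * d.s)) : σ ∈ K'.cells ↔ σ ∈ K.cells := by
  refine ⟨fun k => ?_, fun k => ?_⟩ <;> obtain ⟨x, hx⟩ := Kx.cells_ne k
  · exact ⟨x, Kx.cells_sub k hx, (w.cell s hc (hσ hx)).symm.trans (Kx.cell_eq k hx)⟩
  · exact ⟨x, Kx.cells_sub k hx, (w.cell s hc (hσ hx)).trans (Kx.cell_eq k hx)⟩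

/-- A cell which meets the interior of a solid lies in it. -/
theorem not_In (s : SIn p C1 g Cf K f d) {b : ι} {σ : Set (Rn 3)} (hσ : σ ∈ K'.cells)
    (hI : ¬ σ ⊆ (d.P b).In) {x : Rn 3} (hx : x ∈ σ) : x ∉ (d.P b).In := by
  exact fun k => hI (Kx.cell_eq hσ hx ▸ (w.ref x (Kx.cells_sub hσ hx)).trans (s.cell_In k))

end Wi

end BEp
end
end

-- merged part: Pool.Agent.Work.MP_f0515e_an.P3.SHin
section
/-! The hypotheses of the exchange theorem.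
Plan.  `cht_exists`: for `F ∈ K'.cel 2` with `d.Rig F` take `BoxIn.chart` (`Wi.cells`, `Pc.Q_mono`) and `r = R = 8 s`; else `(d.ch F0).sub F`, `h F0 / 16`, `h F0` with `F0` from `Kx.par` (unique: `Kx.disj`), `Sbd.rd`; `SIn.rig_of` shows that the parts of a face which is not rigid are not rigid.
`gchd`: `chs_sk`, `SCt.sc_pc`, `GOut.mv`, `Pc.ρx_eq`.  `hin`: `lf_of_close` with `a = 5 * 10 ^ 11`; `SIn.QS`, `SIn.cell_Q`, `Wi.ref`, `BoxIn.lat`; `fine`: `y = f x` for a point `x` of `F` (`Wi.not_In`, `SCt.good`); for `z ∈ closure F`: `Wi.osc`, `Scl.le` with `a = 1`, `GOut.mv`, `cl_sub_sk`, `SCt.sc_le`. -/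

open Set Metric Filter Topology Function BEv MeasureTheory
open scoped NNReal ENNReal

noncomputable section
namespace BEp

variable {ι : Type} {Ω : Set (Rn 3)} {K K' : Kx Ω} {f : Rn 3 → Rn 3} {d : SD ι} {p C0 C1 g cm : ℝ}
  {CT Cf : (Rn 3 ≃L[ℝ] Rn 3) → ℝ} {T : TS} {u sc : Rn 3 → ℝ} {M ε : Set (Rn 3) → ℝ≥0∞}
  {h τ : Set (Rn 3) → ℝ} {W : Set (Rn 3) → Set (Rn 2)}

theorem cht_exists (s : SIn p C1 g Cf K f d) (w : Wi p K K' f d u sc M ε h W) :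
    ∃ ch r R, Cht K K' d h ch r R := by
  have s0 := s.s0
  have key : ∀ F : Set (Rn 3), ∃ (c : Ch) (r R : ℝ), F ∈ K'.cel 2 → (c.Of F ∧ c.Rd r R) ∧
      (∀ F0 ∈ K.cel 2, ¬ d.Rig F0 → F ⊆ F0 → c = (d.ch F0).sub F ∧ r = h F0 / 16 ∧ R = h F0) ∧
      (d.Rig F → r = R ∧ ∀ ξ, ‖c.M ξ‖ = ‖ξ‖) := by
    intro F
    by_cases hF : F ∈ K'.cel 2
    swap
    · exact ⟨d.ch F, 0, 0, fun k => absurd k hF⟩
    obtain ⟨x, hx⟩ := Kx.cells_ne hF.1
    by_cases hr : d.Rig F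
    · obtain ⟨b, hc, hq⟩ := hr
      obtain ⟨c, c1, c2, c3⟩ := (s.box b hc).chart s0
        ⟨(w.cells s hc (hq.trans (Pc.Q_mono (by linarith)))).1 hF.1, hF.2⟩
        (hq.trans (Pc.Q_mono (by linarith)))
      exact ⟨c, _, _, fun _ => ⟨⟨c1, c2⟩,
        fun F0 h0 h1 h2 => absurd (s.rig_of h0.1 hc (h2 hx) (hq hx)) h1, fun _ => ⟨rfl, c3⟩⟩⟩
    · obtain ⟨F0, h0, h1⟩ := Kx.par w.ref w.sk2 hF
      refine ⟨(d.ch F0).sub F, h F0 / 16, h F0, fun _ => ⟨(w.sbd F0 h0).rd F hF ?_,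
        fun F1 k0 _ k2 => ?_, fun k => absurd k hr⟩⟩
      · rwa [(s.face F0 h0).1.2.2]
      · obtain rfl : F1 = F0 := (Kx.cell_eq k0.1 (k2 hx)).symm.trans (Kx.cell_eq h0.1 (h1 hx))
        exact ⟨rfl, rfl, rfl⟩
  choose ch r R k using key
  exact ⟨ch, r, R, fun F hF => (k F hF).1, fun F hF hr F' hF' hs => (k F' hF').2.1 F hF hr hs,
    fun F hF => (k F hF).2.2⟩

variable {e : ℝ≥0∞} {G : Rn 3 → Rn 3} {ψ : Rn 3 → ℝ≥0∞}

theorem gchd (C : SCt p C0 C1 g CT Cf K f d T u cm) (S : Scal g CT T sc (f '' Ω) d.P)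
    (w : Wi p K K' f d u sc M ε h W) (o : GOut p K' f d sc τ e G ψ) {b : ι}
    (hc : (d.P b).I.card = 1) {x : Rn 3} (hx : x ∈ (d.P b).Q (d.P b).ρ) :
    ‖G x - (d.P b).aff x‖ ≤ g * (d.P b).l / CT (d.P b).A := by
  have h1 : x ∈ K.sk 2 := Kx.sk_mono one_le_two (C.s.chs_sk ⟨b, hc, hx⟩)
  obtain ⟨h2, h3⟩ := C.sc_pc S h1 (Pc.Q_mono (d.P b).ρ_le hx)
  have h4 := o.mv x (w.sk2 ▸ h1)
  have h5 := norm_sub_le_norm_sub_add_norm_sub (G x) (f x) ((d.P b).aff x)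
  have h6 := S.scl.pos _ (mem_image_of_mem f h1.1)
  linarith

theorem hin (C : SCt p C0 C1 g CT Cf K f d T u cm) (S : Scal g CT T sc (f '' Ω) d.P)
    (w : Wi p K K' f d u sc M ε h W) (o : GOut p K' f d sc τ e G ψ) {ch : Set (Rn 3) → Ch}
    {r R : Set (Rn 3) → ℝ} (t : Cht K K' d h ch r R) (τ0 : ∀ σ, 0 < τ σ) :
    HIn (f '' Ω) T g CT d.P K' G ch r R τ := by
  have s0 := C.s.s0
  refine ⟨C.s.opn, o.ltp, o.inj, o.sub, fun C' hC hs => lf_of_close C.s.opn C.s.cont C.s.inj S.scl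
    (by norm_num) (by norm_num) o.mv hC hs, C.s.QS,
    fun b x hx => (w.ref x (C.s.QS b hx)).trans (C.s.cell_Q hx), fun b hc x hx x' hx' => ?_, o.rig,
    fun b hc x hx => gchd C S w o hc hx, fun F hF hI => ?_, t.chart, τ0⟩
  · have hq := (d.P b).Bx_sub hx
    exact (C.s.box b hc).lat s0 (C.s.pc.ok b) (Pc.Q_mono (by linarith) hq) x'
      (w.ref x (C.s.QS b hq) hx')
  · obtain ⟨x, hx⟩ := Kx.cells_ne hF.1
    have sk := Kx.cl_sub_sk hF.1 hF.2.le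
    have h1 := sk (subset_closure hx)
    have h2 : x ∈ K.sk 2 := w.sk2 ▸ h1
    have h3 := fun b => w.not_In C.s hF.1 (hI b) hx
    refine ⟨f x, C.good x h2 h3, ?_⟩
    rintro _ ⟨z, hz, rfl⟩
    have h4 := w.osc x h1 z (Kx.cell_eq hF.1 hx ▸ hz)
    have h5 := (S.scl.le (a := 1) (z := f z) zero_le_one (by norm_num) (mem_image_of_mem f h1.1)
      (by rw [norm_sub_rev, one_mul]; exact h4)).2
    have h6 := o.mv z (sk hz)
    have h7 := (C.sc_le S h2 h3).1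
    have h8 := S.scl.pos _ (mem_image_of_mem f h1.1)
    have h9 := norm_sub_le_norm_sub_add_norm_sub (G z) (f z) (f x)
    rw [mem_ball_iff_norm]
    linarith

end BEp
end
end

-- merged part: Pool.Agent.Work.MP_f0515e_an.P3.SEdge
section
/-! Speed on the edges.
Plan.  `le_lint`: `I = ∫⁻ Γ`; if `I = ⊤` use `1 ≤ v`; if `I = 0` take `t = 1 / 2`; else `(a - c) / I ≤ v t`, `lintegral_const_mul_le`, `setLIntegral_mono'`, `Ioo_ae_eq_Icc` (`restrict_Ioo_eq_restrict_Icc`).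
`All.gf`: `GOut.mv`, `Wi.sk2`, `SCt.sc_le`.  `All.sp_le`: `Wi.not_In`, `Edge.seg_sub`, `y` from `SCt.uy`, `TSOk.lv`, `TSOk.l0`, `All.gf`, `HOut.edge`.  `All.edge`: `GOut.var`, `le_lint` with `30 * Γ`, `u ≤ cm`.
`All.cedge`: `GOut.cvar` with `A = 0`, `ContinuousLinearMap.le_opNorm`; the edge is in no solid by `SIn.disj`, `Pc.In_card`.  `All.mv`: `HOut.mv`, `TSOk.cl`, `All.gf`, `Scl.le` for `d.θ` with `a = 1`. -/

open Set Metric Filter Topology Function BEv MeasureTheory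
open scoped NNReal ENNReal

noncomputable section
namespace BEp

theorem le_lint {a c : ℝ≥0∞} {v Γ : ℝ → ℝ≥0∞} (h1 : ∀ t, 1 ≤ v t)
    (h : ∀ t ∈ Ioo (0 : ℝ) 1, a ≤ v t * (∫⁻ x in Icc (0 : ℝ) 1, Γ x) + c) :
    a ≤ (∫⁻ t in Icc (0 : ℝ) 1, v t * Γ t) + c := by
  have : Nonempty (Ioo (0 : ℝ) 1) := ⟨⟨1 / 2, by norm_num, by norm_num⟩⟩
  have k : a ≤ (⨅ t : Ioo (0 : ℝ) 1, v t) * (∫⁻ x in Icc (0 : ℝ) 1, Γ x) + c := by
    rw [ENNReal.iInf_mul fun _ e => absurd ((le_iInf fun t : Ioo (0 : ℝ) 1 => h1 t).trans e.le)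
      (by simp), ENNReal.iInf_add]
    exact le_iInf fun t => h t t.2
  refine k.trans (add_le_add_left ((lintegral_const_mul_le _ _).trans ?_) _)
  rw [← Measure.restrict_congr_set Ioo_ae_eq_Icc]
  exact setLIntegral_mono' measurableSet_Ioo fun t ht =>
    mul_le_mul_left (iInf_le (fun t : Ioo (0 : ℝ) 1 => v t) ⟨t, ht⟩) _

theorem SEdge_mem {a b : Rn 3} {t : ℝ} (ht : t ∈ Ioo (0 : ℝ) 1) :
    seg a b t ∈ openSegment ℝ a b := by
  rw [openSegment_eq_image']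
  exact ⟨t, ht, rfl⟩

variable {ι : Type} {Ω : Set (Rn 3)} {z : Dat Ω ι}

namespace All
variable (A : All z) {a b x : Rn 3}
include A

theorem gf (hx : x ∈ z.K.sk 2) (hI : ∀ i, x ∉ (z.d.P i).In) :
    100 * ‖z.G x - z.f x‖ ≤ z.T.l (z.f x) ∧ z.T.l (z.f x) ≤ z.d.θ (z.f x) := by
  obtain ⟨h1, h2, h3⟩ := A.c.sc_le A.s hx hI
  have h4 := A.g.mv x (A.w.sk2 ▸ hx)
  have h5 := A.s.scl.pos _ (mem_image_of_mem z.f hx.1)
  exact ⟨by linarith, h3⟩

theorem mv (hx : x ∈ z.K.sk 2) (hI : ∀ i, x ∉ (z.d.P i).In) :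
    ‖z.H x - z.f x‖ ≤ 3 * z.d.θ (z.f x) := by
  obtain ⟨h1, h2⟩ := A.gf hx hI
  have h3 := A.o.mv x (A.w.sk2 ▸ hx) hI
  have h4 := A.c.t.cl _ (A.g.sub (mem_image_of_mem z.G hx.1))
  have h5 := norm_nonneg (z.G x - z.f x)
  have h6 := (A.c.s.scl.le (y := z.f x) (z := z.G x) zero_le_one (by norm_num)
    (mem_image_of_mem z.f hx.1) (by rw [norm_sub_rev]; linarith)).2
  have h7 := norm_sub_le_norm_sub_add_norm_sub (z.H x) (z.G x) (z.f x)
  linarith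

theorem sp_le (he : z.K'.Edge a b) (hI : ∀ i, ¬ openSegment ℝ a b ⊆ (z.d.P i).In)
    (hx : x ∈ openSegment ℝ a b) : ENNReal.ofReal (z.sp (openSegment ℝ a b)) ≤
      ENNReal.ofReal (z.u x) * vr z.G a b + ENNReal.ofReal (z.τ (openSegment ℝ a b)) := by
  have hs := openSegment_subset_segment ℝ a b hx
  have h2 : x ∈ z.K.sk 2 := A.w.sk2 ▸ Kx.sk_mono one_le_two (he.seg_sub hs)
  obtain ⟨y, hy, h3, h4⟩ := A.c.uy x h2
  have h5 := A.c.t.l0 y hy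
  have h6 := A.c.t.lv y hy _ (mem_image_of_mem z.f h2.1) (by linarith)
  have h7 := (A.gf h2 fun i => A.w.not_In A.c.s he.2 (hI i) hx).1
  have h8 := norm_sub_le_norm_sub_add_norm_sub (z.G x) (z.f x) y
  exact ((A.o.edge a b he hI).2 y hy ⟨x, hs, by linarith⟩).trans
    (add_le_add_left (mul_le_mul_left (ENNReal.ofReal_le_ofReal h3) _) _)

theorem edge (he : z.K'.Edge a b) (hI : ∀ i, ¬ openSegment ℝ a b ⊆ (z.d.P i).In)
    (hc : ¬ z.d.Chd a b) {Γ : ℝ → ℝ≥0∞} (hΓ : vr z.f a b ≤ ∫⁻ t in Icc (0 : ℝ) 1, Γ t) :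
    ENNReal.ofReal (z.sp (openSegment ℝ a b)) ≤
      (∫⁻ t in Icc (0 : ℝ) 1, 30 * (ENNReal.ofReal (z.u (seg a b t)) * Γ t)) +
        ENNReal.ofReal ((z.cm + 1) * z.τ (openSegment ℝ a b)) := by
  simp only [mul_left_comm (30 : ℝ≥0∞)]
  refine le_lint (fun t => ENNReal.one_le_ofReal.2 (A.c.ub _).1) fun t ht => ?_
  have t0 := (A.τ0 (openSegment ℝ a b)).1.le
  have hu := A.c.ub (seg a b t)
  refine (A.sp_le he hI (SEdge_mem ht)).trans ?_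
  rw [add_mul, one_mul, ENNReal.ofReal_add (mul_nonneg (by linarith) t0) t0, ← add_assoc,
    ENNReal.ofReal_mul (by linarith)]
  refine add_le_add_left ((mul_le_mul_right (A.g.var a b he hc) _).trans ?_) _
  rw [mul_add]
  exact add_le_add (mul_le_mul_right ((mul_le_mul_right hΓ _).trans
    (lintegral_const_mul_le _ _)) _) (mul_le_mul_left (ENNReal.ofReal_le_ofReal hu.2) _)

theorem chd_In (he : z.K'.Edge a b) (hc : z.d.Chd a b) (i : ι) :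
    ¬ openSegment ℝ a b ⊆ (z.d.P i).In := by
  intro hI
  obtain ⟨j, h1, h2⟩ := hc
  have hx : seg a b (1 / 2) ∈ openSegment ℝ a b := SEdge_mem ⟨by norm_num, by norm_num⟩
  have hij : i ≠ j := by
    rintro rfl
    have := Pc.In_card (hI hx)
    omega
  have k : ∀ i, (z.d.P i).Q (z.d.P i).ρ ⊆ (z.d.P i).Q ((z.d.P i).ρx + 32 * z.d.s) := fun i =>
    Pc.Q_mono (by linarith [(z.d.P i).ρ_le, A.c.s.s0])
  exact disjoint_left.1 (A.c.s.disj i j hij) (k i ((z.d.P i).In_sub (hI hx)))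
    (k j (h2 (openSegment_subset_segment ℝ a b hx)))

theorem cedge (he : z.K'.Edge a b) (hc : z.d.Chd a b) :
    ENNReal.ofReal (z.sp (openSegment ℝ a b)) ≤
      ENNReal.ofReal z.cm * (‖b - a‖ₑ *
        ∫⁻ t in Icc (0 : ℝ) 1, (z.ψ (seg a b t) + ‖z.d.D (seg a b t)‖ₑ)) +
        ENNReal.ofReal ((z.cm + 1) * z.τ (openSegment ℝ a b)) := by
  have t0 := (A.τ0 (openSegment ℝ a b)).1.le
  have hu := A.c.ub (seg a b (1 / 2))
  have hv := A.g.cvar a b he hc 0 0 0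
  simp only [zero_apply, add_zero, sub_zero] at hv
  refine (A.sp_le he (A.chd_In he hc) (x := seg a b (1 / 2))
    (SEdge_mem ⟨by norm_num, by norm_num⟩)).trans (add_le_add (mul_le_mul'
      (ENNReal.ofReal_le_ofReal hu.2) (hv.trans ?_)) (ENNReal.ofReal_le_ofReal (by nlinarith)))
  rw [← lintegral_const_mul' _ _ enorm_ne_top]
  refine lintegral_mono fun t => ?_
  rw [mul_comm ‖b - a‖ₑ, add_mul]
  exact add_le_add_right ((z.d.D (seg a b t)).le_opENorm (b - a)) _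

end All

end BEp
end
end
end

-- merged part: Pool.Agent.Work.MP_f0515e_an.P3.SEd
section
/-! The energy of an edge and of a chord.
Plan.  For `q ∈ J` put `a = o + q.1 • w`, `b = o + q.2 • w`; `seg a b x = o + (q.1 + x (q.2 - q.1)) • w`, and `s ∈ Icc q.1 q.2` is `q.1 + x (q.2 - q.1)` with `x = (s - q.1) / (q.2 - q.1)`.
`All.ed`: `En1` for `k t = H (seg e.1 e.2 t)`, `σ q = sp (openSegment a b)`, `Γ = 30 * (ofReal u * γe)`; `openSegment a b ⊆ openSegment e.1 e.2` misses all `Q ρx` (`SIn.edge`), so it is in no solid and no chord; `HOut.edge`;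
`All.edge` with `Γ x = ofReal (q.2 - q.1) * γe (q.1 + x (q.2 - q.1))` (`NLn_var`, `lint_aff'`, `lint_aff`); `4 * 30 ^ p ≤ k1 ^ p`.
`All.chd`: `Ch1` for `k t = H (pt j t)`, `u` from `HOut.chd`, `Γ t = ψ (pt j t) + ‖D (pt j t) e - A e‖ₑ`, `dr = 3 CT l`: at the ends `HOut.mv`, `gchd`, `a_le`, `Pc.mem_Bx`, `TSOk.cn`; Lipschitz by `HOut.ltp`, `TP.lip`, `Pc.Q_cpt`, `Pc.Q_one`;
`GOut.cvar`, `lint_aff`, `‖b - a‖ = q.2 - q.1` (`Pi.norm_single`); `add_rpow4`, `lint_line` with `GOut.int`; `‖A e‖ ≤ ‖A‖`, `1 ≤ CT`. -/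

open Set Metric Filter Topology Function BEv MeasureTheory
open scoped NNReal ENNReal

noncomputable section
namespace BEp

theorem SEd_seg (o w : Rn 3) (a b x : ℝ) :
    seg (o + a • w) (o + b • w) x = o + (a + x * (b - a)) • w := by
  simp only [seg]
  module

theorem SEd_par {a b : ℝ} (h : a < b) {s s' : ℝ} (hs : s ∈ Icc a b) (hs' : s' ∈ Icc a b) :
    ∃ x ∈ Icc (0 : ℝ) 1, ∃ x' ∈ Icc (0 : ℝ) 1, a + x * (b - a) = s ∧ a + x' * (b - a) = s' ∧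
      (b - a) * |x - x'| = |s - s'| := by
  have h0 := sub_pos.2 h
  have k : ∀ s ∈ Icc a b, (s - a) / (b - a) ∈ Icc (0 : ℝ) 1 ∧
      a + (s - a) / (b - a) * (b - a) = s := fun s hs =>
    ⟨⟨div_nonneg (sub_nonneg.2 hs.1) h0.le, (div_le_one h0).2 (by linarith [hs.2])⟩, by
      rw [div_mul_cancel₀ _ h0.ne', add_sub_cancel]⟩
  refine ⟨_, (k s hs).1, _, (k s' hs').1, (k s hs).2, (k s' hs').2, ?_⟩
  rw [← sub_div, abs_div, abs_of_pos h0, mul_div_cancel₀ _ h0.ne', sub_sub_sub_cancel_right]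

theorem SEd_pt (P : Pc) (j : Fin 3) (a b : ℝ) :
    (∀ x, seg (P.pt j a) (P.pt j b) x = P.pt j (a + x * (b - a))) ∧
      P.pt j b - P.pt j a = (b - a) • (Pi.single j 1 : Rn 3) :=
  ⟨SEd_seg _ _ a b, by simp only [Pc.pt, add_sub_add_left_eq_sub, sub_smul]⟩

theorem SEd_one (j : Fin 3) : ‖(Pi.single j 1 : Rn 3)‖ = 1 := by
  rw [Pi.norm_single, norm_one]

theorem SEd_num {g c a w : ℝ} (g0 : 0 < g ∧ g ≤ 1 / 8) (hc : 1 ≤ c) (h0 : 0 ≤ w) (h1 : w ≤ a) :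
    100 * (1 + w) ^ 2 * (3 * c) ≤ 10 ^ 5 * (1 + (1 + a) * c) ^ 3 / g ^ 2 ∧
      5000 * (1 + w * c) ^ 3 / g ^ 2 * 4 ≤ 10 ^ 5 * (1 + (1 + a) * c) ^ 3 / g ^ 2 := by
  have k1 : 1 + w ≤ 1 + (1 + a) * c := by nlinarith
  have k2 : c ≤ 1 + (1 + a) * c := by nlinarith
  have k3 : 1 + w * c ≤ 1 + (1 + a) * c := by nlinarith
  have k4 : (1 + w) ^ 2 * c ≤ (1 + (1 + a) * c) ^ 2 * (1 + (1 + a) * c) := by gcongr
  have k5 : (1 + w * c) ^ 3 ≤ (1 + (1 + a) * c) ^ 3 := by gcongr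
  have k6 : 0 ≤ (1 + (1 + a) * c) ^ 3 := pow_nonneg (by linarith) 3
  have k7 : 0 < g ^ 2 := pow_pos g0.1 2
  constructor
  · refine le_trans ?_ (le_div_self (by linarith) k7 (by nlinarith [g0.1, g0.2]))
    linarith
  · rw [div_mul_eq_mul_div]
    exact div_le_div_of_nonneg_right (by linarith) k7.le

variable {ι : Type} {Ω : Set (Rn 3)} {z : Dat Ω ι}

theorem All.ed (A : All z) {e : Rn 3 × Rn 3} (he : e ∈ z.d.Ed) {J : Finset (ℝ × ℝ)} (hJ : Prt 0 1 J)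
    (hE : ∀ q ∈ J, z.K'.Edge (e.1 + q.1 • (e.2 - e.1)) (e.1 + q.2 • (e.2 - e.1))) {δ : ℝ}
    {ε : ℝ≥0∞} (E : En1 z.p 0 1 J δ ε) (hτ : ∀ σ, (z.cm + 1) * z.τ σ ≤ δ) :
    edE z.p z.H e ≤ (∫⁻ t in Icc (0 : ℝ) 1,
      (ENNReal.ofReal (k1 z.C0 * z.u (seg e.1 e.2 t)) * z.d.γe e t) ^ z.p) + ε := by
  obtain ⟨-, h2, h3, -, h5⟩ := A.c.s.edge e he
  have hp : 1 ≤ z.p := by linarith [A.c.p2.1]
  have mid : ∀ q ∈ J, ∀ i, ¬ openSegment ℝ (e.1 + q.1 • (e.2 - e.1)) (e.1 + q.2 • (e.2 - e.1)) ⊆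
      (z.d.P i).Q (z.d.P i).ρ := by
    intro q hq i k
    obtain ⟨a1, a2, a3⟩ := hJ.mem q hq
    rw [← seg_image_open] at k
    have k1 := k ⟨1 / 2, ⟨by norm_num, by norm_num⟩, SEd_seg _ _ _ _ _⟩
    refine Set.disjoint_left.1 (h2 i) ?_ (Pc.Q_mono (z.d.P i).ρ_le k1)
    rw [← seg_image_open]
    exact ⟨_, ⟨by linarith, by linarith⟩, rfl⟩
  have hI := fun q hq i k => mid q hq i (Subset.trans k (z.d.P i).In_sub)
  refine (E (fun t => z.H (seg e.1 e.2 t))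
    (fun q => z.sp (openSegment ℝ (e.1 + q.1 • (e.2 - e.1)) (e.1 + q.2 • (e.2 - e.1))))
    (fun t => 30 * (ENNReal.ofReal (z.u (seg e.1 e.2 t)) * z.d.γe e t))
    (((A.c.mu.comp (tp_seg e.1 e.2).continuous.measurable).ennreal_ofReal.mul h3).const_mul 30)
    (fun q hq s hs s' hs' => ?_) fun q hq => ?_).trans (add_le_add ?_ le_rfl)
  · obtain ⟨x, hx, x', hx', e1, e2, e3⟩ := SEd_par (hJ.mem q hq).2.1 hs hs'
    have k := (A.o.edge _ _ (hE q hq) (hI q hq)).1 x hx x' hx'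
    rw [SEd_seg, SEd_seg, e1, e2] at k
    rw [← e3, mul_left_comm]
    exact mul_le_mul_of_nonneg_left k (sub_pos.2 (hJ.mem q hq).2.1).le
  · obtain ⟨a1, a2, a3⟩ := hJ.mem q hq
    have a4 := (sub_pos.2 a2).le
    refine (A.edge (hE q hq) (hI q hq) (fun ⟨i, _, k⟩ => mid q hq i
      ((openSegment_subset_segment ℝ _ _).trans k))
      (Γ := fun x => ENNReal.ofReal (q.2 - q.1) * z.d.γe e (q.1 + x * (q.2 - q.1))) ?_).trans
      (add_le_add (le_of_eq ?_) (ENNReal.ofReal_le_ofReal (hτ _)))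
    · rw [lintegral_const_mul' _ _ ENNReal.ofReal_ne_top]
      refine NLn_var fun s s' b1 b2 b3 => ?_
      rw [edist_eq_enorm_sub, SEd_seg, SEd_seg, ← lint_aff' a4]
      exact h5 _ _ (by nlinarith) (by nlinarith) (by nlinarith)
    · rw [lint_aff a2.le, ← lintegral_const_mul' _ _ ENNReal.ofReal_ne_top]
      refine lintegral_congr fun x => ?_
      rw [SEd_seg, seg]
      ring
  · rw [← lintegral_const_mul' _ _ (by simp)]
    refine lintegral_mono fun t => ?_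
    have n1 : (4 : ℝ≥0∞) ≤ 4 ^ z.p := by
      simpa using ENNReal.rpow_le_rpow_of_exponent_le (x := 4) (by norm_num) hp
    have n2 : (4 * 30 : ℝ≥0∞) ≤ ENNReal.ofReal (k1 z.C0) := by
      rw [show (4 * 30 : ℝ≥0∞) = ENNReal.ofReal 120 by norm_num]
      exact ENNReal.ofReal_le_ofReal (by rw [k1]; linarith [A.c.C01])
    refine (mul_le_mul_left n1 _).trans ?_
    rw [← ENNReal.mul_rpow_of_nonneg _ _ (by linarith), ENNReal.ofReal_mul' (by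
      linarith [(A.c.ub (seg e.1 e.2 t)).1]), ← mul_assoc, mul_assoc (ENNReal.ofReal _)]
    gcongr

theorem All.drift (A : All z) {b : ι} (hc : (z.d.P b).I.card = 1) {x : Rn 3}
    (hx : x ∈ (z.d.P b).Q (z.d.P b).ρ) :
    2 * ‖z.H x - (z.d.P b).aff x‖ ≤ 3 * z.CT (z.d.P b).A * (z.d.P b).l := by
  have h1 := gchd A.c A.s A.w A.g hc hx
  obtain ⟨-, -, h2, h3⟩ := a_le A.c.g0 (z.d.P b).l0 (A.c.C01.trans (A.c.CT1 (z.d.P b).A).1) le_rfl
  have hx' := Pc.Q_mono (z.d.P b).ρ_le hx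
  have hI : ∀ i, x ∉ (z.d.P i).In := by
    intro i k
    rcases eq_or_ne b i with rfl | hn
    · have := Pc.In_card k
      omega
    · exact Set.disjoint_left.1 (A.c.s.disj b i hn) (A.c.s.SSin_le b hx')
        (A.c.s.SSin_le i (Pc.Q_mono (z.d.P i).ρ_le ((z.d.P i).In_sub k)))
  have h4 := A.o.mv x (A.w.sk2 ▸ Kx.sk_mono one_le_two (A.c.s.chs_sk ⟨b, hc, hx⟩)) hI
  have h5 := A.c.t.cn b (z.G x) ⟨x, Pc.mem_Bx hx' (hI b), by linarith [(z.d.P b).l0]⟩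
  have h6 := norm_sub_le_norm_sub_add_norm_sub (z.H x) (z.G x) ((z.d.P b).aff x)
  linarith [(z.d.P b).l0]

theorem All.chd (A : All z) {b : ι} {j : Fin 3} (hj : (z.d.P b).I = {j}) {J : Finset (ℝ × ℝ)}
    (hJ : Prt (-(z.d.P b).ρ) (z.d.P b).ρ J)
    (hE : ∀ q ∈ J, z.K'.Edge ((z.d.P b).pt j q.1) ((z.d.P b).pt j q.2)) {δ : ℝ} {ε : ℝ≥0∞}
    (E : Ch1 z.p z.g (z.CT (z.d.P b).A) (-(z.d.P b).ρ) (z.d.P b).ρ ((z.d.P b).A (Pi.single j 1))
      J δ ε) (hτ : ∀ σ, z.τ σ ≤ δ) :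
    ChdE z.p z.g z.d (z.d.P b) j (10 ^ 4) (k3 z.g (z.CT (z.d.P b).A) (z.d.P b).A)
      (ε + ENNReal.ofReal (k3 z.g (z.CT (z.d.P b).A) (z.d.P b).A) * z.e) z.H := by
  have hc : (z.d.P b).I.card = 1 := by rw [hj, Finset.card_singleton]
  have hp : 1 ≤ z.p := by linarith [A.c.p2.1]
  have h0 := A.c.s.SSin_ρ b
  have hQ : ∀ t ∈ Icc (-(z.d.P b).ρ) (z.d.P b).ρ, (z.d.P b).pt j t ∈ (z.d.P b).Q (z.d.P b).ρ :=
    fun t ht => Pc.Q_one hj _ ▸ mem_image_of_mem _ ht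
  have hm : Measurable ((z.d.P b).pt j) :=
    (continuous_const.add (continuous_id.smul continuous_const)).measurable
  have m1 : Measurable fun t => z.ψ ((z.d.P b).pt j t) := A.g.mψ.comp hm
  have m2 : Measurable fun t => ‖z.d.D ((z.d.P b).pt j t) (Pi.single j 1) -
      (z.d.P b).A (Pi.single j 1)‖ₑ :=
    (((ContinuousLinearMap.measurable_apply _).comp (A.c.s.mD.comp hm)).sub_const _).enorm
  obtain ⟨u, hu⟩ := A.o.chd b j hj
  obtain ⟨n1, n2⟩ := SEd_num A.c.g0 (A.c.C01.trans (A.c.CT1 (z.d.P b).A).1) (norm_nonneg _)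
    (show ‖(z.d.P b).A (Pi.single j 1)‖ ≤ ‖((z.d.P b).A : Rn 3 →L[ℝ] Rn 3)‖ from
      ((z.d.P b).A : Rn 3 →L[ℝ] Rn 3).unit_le_opNorm _ (SEd_one j).le)
  refine (E (fun t => z.H ((z.d.P b).pt j t)) (fun t => u ((z.d.P b).pt j t)) _
    (3 * z.CT (z.d.P b).A * (z.d.P b).l) (m1.add m2) ?_ ?_ fun q hq s hs s' hs' => ?_).trans ?_
  · obtain ⟨g, hg, e⟩ := A.o.ltp _ ((z.d.P b).Q_cpt _) ((A.c.s.chd b j hj).QS)
    obtain ⟨L, hL⟩ := hg.lip
    refine ⟨L, LipschitzOnWith.of_dist_le_mul fun s hs t ht => ?_⟩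
    rw [e (hQ s hs), e (hQ t ht)]
    refine (hL.dist_le_mul _ _).trans_eq ?_
    rw [dist_eq_norm, (SEd_pt _ j t s).2, norm_smul, SEd_one, mul_one, dist_eq_norm]
  · have k1 := A.drift hc (hQ _ (right_mem_Icc.2 (neg_le_self h0)))
    have k2 := A.drift hc (hQ _ (left_mem_Icc.2 (neg_le_self h0)))
    rw [← map_smul, ← (SEd_pt _ j _ _).2, ← Pc.aff_sub, sub_sub_sub_comm]
    linarith [norm_sub_le (z.H ((z.d.P b).pt j (z.d.P b).ρ) - (z.d.P b).aff ((z.d.P b).pt j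
      (z.d.P b).ρ)) (z.H ((z.d.P b).pt j (-(z.d.P b).ρ)) - (z.d.P b).aff ((z.d.P b).pt j
        (-(z.d.P b).ρ)))]
  · obtain ⟨a1, a2, a3⟩ := hJ.mem q hq
    have a4 := (sub_pos.2 a2).le
    obtain ⟨x, hx, x', hx', e1, e2, e3⟩ := SEd_par a2 hs hs'
    obtain ⟨e4, e5⟩ := SEd_pt (z.d.P b) j q.1 q.2
    have hs : segment ℝ ((z.d.P b).pt j q.1) ((z.d.P b).pt j q.2) ⊆ (z.d.P b).Q (z.d.P b).ρ :=
      ((z.d.P b).Q_cvx _).segment_subset (hQ _ ⟨a1, a2.le.trans a3⟩) (hQ _ ⟨a1.trans a2.le, a3⟩)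
    obtain ⟨k1, k2⟩ := hu _ _ (hE q hq) hs x hx x' hx'
    have k3 := A.g.cvar _ _ (hE q hq) ⟨b, hc, hs⟩ (z.d.P b).A (z.d.P b).c (z.d.P b).y
    have e6 : ‖(q.2 - q.1 : ℝ)‖ₑ = ENNReal.ofReal (q.2 - q.1) := Real.enorm_eq_ofReal a4
    rw [e4, e4, e1, e2] at k1 k2
    rw [← e3]
    refine ⟨?_, ?_⟩
    · rw [mul_left_comm]
      exact mul_le_mul_of_nonneg_left (k1.trans (mul_le_mul_of_nonneg_right (hτ _)
        (abs_nonneg _))) a4
    · rw [ENNReal.ofReal_mul a4, ENNReal.ofReal_mul a4, mul_left_comm]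
      refine mul_le_mul_right (k2.trans (mul_le_mul_left (add_le_add (ENNReal.ofReal_le_ofReal ?_)
        (mul_le_mul_right (k3.trans_eq ?_) _)) _)) _
      · rw [e5, norm_smul, SEd_one, mul_one, Real.norm_of_nonneg a4]
        linarith [hτ (openSegment ℝ ((z.d.P b).pt j q.1) ((z.d.P b).pt j q.2))]
      · rw [lint_aff a2.le, ← lintegral_const_mul' _ _ ENNReal.ofReal_ne_top]
        refine lintegral_congr fun t => ?_
        rw [e4, e5, map_smul, map_smul, ← smul_sub, enorm_smul, enorm_smul, e6,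
          ← ofReal_norm (Pi.single j 1 : Rn 3), SEd_one, ENNReal.ofReal_one, mul_one,
          mul_comm, ← mul_add]
        rfl
  · have k1 : ∫⁻ t in Icc (-(z.d.P b).ρ) (z.d.P b).ρ, z.ψ ((z.d.P b).pt j t) ^ z.p ≤ z.e := by
      have k := lint_line (z.d.P b).c (Pi.single j 1) (measurableSet_Icc (a := -(z.d.P b).ρ)
        (b := (z.d.P b).ρ)) fun y => z.ψ y ^ z.p
      rw [← ofReal_norm (Pi.single j 1 : Rn 3), SEd_one, ENNReal.ofReal_one, one_mul] at k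
      exact k.ge.trans ((setLIntegral_le_lintegral _ _).trans A.g.int)
    have k2 := lintegral_mono (μ := volume.restrict (Icc (-(z.d.P b).ρ) (z.d.P b).ρ)) fun t =>
      add_rpow4 hp A.c.p2.2.le (z.ψ ((z.d.P b).pt j t)) ‖z.d.D ((z.d.P b).pt j t) (Pi.single j 1) -
        (z.d.P b).A (Pi.single j 1)‖ₑ
    rw [lintegral_const_mul' _ _ (by simp), lintegral_add_left (m1.pow_const _)] at k2
    have k3 : ENNReal.ofReal (5000 * (1 + ‖(z.d.P b).A (Pi.single j 1)‖ * z.CT (z.d.P b).A) ^ 3 /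
        z.g ^ 2) * 4 ≤ ENNReal.ofReal (k3 z.g (z.CT (z.d.P b).A) (z.d.P b).A) := by
      rw [show (4 : ℝ≥0∞) = ENNReal.ofReal 4 by norm_num, ← ENNReal.ofReal_mul' (by norm_num)]
      exact ENNReal.ofReal_le_ofReal n2
    have k4 := (mul_le_mul_right k2 _).trans ((mul_assoc _ _ _).ge.trans
      (mul_le_mul' k3 (add_le_add k1 le_rfl)))
    have k6 : ∀ a k x e ε : ℝ≥0∞, a + k * (e + x) + ε = a + k * x + (ε + k * e) := by
      intros
      ring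
    refine (add_le_add (add_le_add (ENNReal.ofReal_le_ofReal ?_) k4) le_rfl).trans_eq
      (k6 _ _ _ _ _)
    have k5 := mul_le_mul_of_nonneg_right n1 (z.d.P b).l0.le
    rw [BEp.k3]
    linarith

end BEp
end
end
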