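import Pool.Agent.Work.MP_f0515e_an.D3.O2
import Pool.Agent.Work.MP_f0515e_an.D3.O1
import Pool.Agent.Work.MP_f0515e_an.D3.MStr1
import Pool.Agent.Work.MP_f0515e_an.D3.NLn
import Pool.Agent.Work.MP_bf98aa_gt.Ns.Flow

-- merged part: Pool.Agent.Work.MP_f0515e_an.D3.MSeq
section
-- merged part: Pool.Agent.Work.MP_f0515e_an.D3.MSeq
section
/-! Exhaustions, limits of sequences of modifications, energy of one modification.
Plan. exists_exh: K j = {x | ‖x‖ + 1 ≤ j and ball x (1/(j+1)) ⊆ Ω} (closed and bounded). ray: v not in K j means ‖v‖ + 1 > j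
or some b outside Ω has ‖b - v‖ < 1/(j+1). In the first case (if j = 0 any direction will do since K 0 is empty) take q = v + T a with a a radial direction,
‖v + s a‖ ≥ ‖v‖ for s ≥ 0 and ‖q‖ ≥ j + 3; in the second q = b. In both cases segment v q misses K j and q is not in K (j+2). Let s be the least element of the closed
set of s in [0,1] with seg v q s outside interior (K (j+2)), w = seg v q s; s > 0, points before w are in K (j+2), so w is too (closed), hence the segment is in Ω.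
seq_lim: recursion on the subtype {F // P j F} with errors from ENNReal.exists_pos_sum_of_countable (or ε / 2 ^ (j+1)); F x = value of the sequence at an index j with x ∈ K (j-1)
(classical choice; any value off Ω); near each x in Ω the sequence is eventually equal to F (en_congr), Fatou lintegral_liminf_le' with aem_en.
Eg_step: split the integral over Ω into Ω ∩ Z and the open set Ω minus Z (en_congr); on Z minus N use LL.norm_fderiv.
vol_tube: cover by the closed balls of radius (1 + ‖b - a‖) r around seg a b (i r), i ≤ ⌈1/r⌉; Real.volume_pi_closedBall. -/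

open Set Metric Filter Topology Function BEv MeasureTheory
open scoped NNReal ENNReal ContDiff

noncomputable section
namespace BEp

variable {n : ℕ} {Ω : Set (Rn n)} {K : ℕ → Set (Rn n)} {p : ℝ} {G F F' : Rn n → Rn n}

/-- Compact exhaustion. -/
def MSeq_exh (Ω : Set (Rn n)) (k : ℕ) : Set (Rn n) :=
  {x | ‖x‖ + 1 ≤ k ∧ ∀ y, y ∉ Ω → 1 ≤ k * ‖x - y‖}

theorem MSeq_cpt (Ω : Set (Rn n)) (k : ℕ) : IsCompact (MSeq_exh Ω k) := by
  refine (isCompact_closedBall (0 : Rn n) k).of_isClosed_subset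
    ((isClosed_le (by fun_prop) continuous_const).and ?_) fun x hx =>
      mem_closedBall_zero_iff.2 (by linarith only [hx, hx.1])
  simp only [ofPred_forall]
  exact isClosed_iInter fun y => isClosed_iInter fun _ => isClosed_le continuous_const (by fun_prop)

theorem MSeq_sub (Ω : Set (Rn n)) (k : ℕ) : MSeq_exh Ω k ⊆ Ω :=
  fun x hx => by_contra fun h => not_lt.2 (hx.2 x h) (by simp)

theorem MSeq_ray (hΩ : IsOpen Ω) {v w : Rn n} {k : ℕ} (hv : v ∈ Ω)
    (h1 : ∀ t ∈ Icc (0 : ℝ) 1, v + t • w ∉ MSeq_exh Ω k) (h2 : v + w ∉ MSeq_exh Ω (k + 1)) :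
    ∃ v', v' ∉ MSeq_exh Ω (k + 1) ∧ segment ℝ v v' ⊆ Ω \ MSeq_exh Ω k := by
  have hc : Continuous fun t : ℝ => v + t • w := by fun_prop
  obtain ⟨t, ht, h3, h4⟩ : ∃ t ∈ Icc (0 : ℝ) 1, v + t • w ∉ MSeq_exh Ω (k + 1) ∧
      ∀ s ∈ Icc 0 t, v + s • w ∈ Ω := by
    by_cases hT : (Icc (0 : ℝ) 1 ∩ {t | v + t • w ∉ Ω}).Nonempty
    · obtain ⟨t, ⟨ht, k1⟩, k2⟩ :=
        (isCompact_Icc.inter_right (hΩ.isClosed_compl.preimage hc)).exists_isLeast hT
      have t0 : 0 < t := ht.1.lt_of_ne fun e => k1 (by simpa [← e] using hv)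
      obtain ⟨s, k3, k4⟩ := ((((MSeq_cpt Ω (k + 1)).isClosed.isOpen_compl.preimage
        hc).eventually_mem fun q => k1 (MSeq_sub Ω _ q)).filter_mono nhdsWithin_le_nhds |>.and
        (Ioo_mem_nhdsLT t0)).exists
      exact ⟨s, ⟨k4.1.le, k4.2.le.trans ht.2⟩, k3, fun u hu => by_contra fun q =>
        (hu.2.trans_lt k4.2).not_ge (k2 ⟨⟨hu.1, hu.2.trans (k4.2.le.trans ht.2)⟩, q⟩)⟩
    · exact ⟨1, right_mem_Icc.2 zero_le_one, by rwa [one_smul],
        fun s hs => by_contra fun q => hT ⟨s, hs, q⟩⟩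
  refine ⟨_, h3, ?_⟩
  rw [segment_eq_image']
  rintro _ ⟨θ, hθ, rfl⟩
  have h5 : θ * t ∈ Icc 0 t := ⟨mul_nonneg hθ.1 ht.1, mul_le_of_le_one_left ht.1 hθ.2⟩
  simp only [add_sub_cancel_left, smul_smul]
  exact ⟨h4 _ h5, h1 _ ⟨h5.1, h5.2.trans ht.2⟩⟩

theorem MSeq_esc [NeZero n] (hΩ : IsOpen Ω) {v : Rn n} {k : ℕ} (hv : v ∈ Ω)
    (hk : v ∉ MSeq_exh Ω k) :
    ∃ v', v' ∉ MSeq_exh Ω (k + 1) ∧ segment ℝ v v' ⊆ Ω \ MSeq_exh Ω k := by
  rcases not_and_or.1 hk with h | h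
  · obtain ⟨e, he, hv'⟩ : ∃ e : Rn n, ‖e‖ = 1 ∧ v = ‖v‖ • e := by
      rcases eq_or_ne v 0 with rfl | h0
      · exact (exists_norm_eq (Rn n) zero_le_one).imp fun e he => ⟨he, by simp⟩
      · exact ⟨_, norm_smul_inv_norm (𝕜 := ℝ) h0, (smul_inv_smul₀ (norm_ne_zero_iff.2 h0) v).symm⟩
    have key : ∀ t : ℝ, 0 ≤ t → ‖v + t • e‖ = ‖v‖ + t := fun t ht => by
      conv_lhs => rw [hv', ← add_smul, norm_smul, he, mul_one, Real.norm_of_nonneg (by positivity)]
    refine MSeq_ray hΩ hv (w := e) (fun t ht q => h ?_) fun q => h ?_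
    · linarith [q.1, key t ht.1, ht.1]
    · have := key 1 zero_le_one
      have h2 := q.1
      rw [one_smul] at this
      push_cast at h2
      linarith
  · push Not at h
    obtain ⟨y, hy, h⟩ := h
    refine MSeq_ray hΩ hv (w := y - v) (fun t ht q => h.not_ge ((q.2 y hy).trans ?_)) fun q =>
      hy (by simpa using MSeq_sub Ω _ q)
    rw [show v + t • (y - v) - y = (1 - t) • (v - y) by module, norm_smul,
      Real.norm_of_nonneg (sub_nonneg.2 ht.2)]
    gcongr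
    exact mul_le_of_le_one_left (norm_nonneg _) (by linarith [ht.1])

theorem exists_exh [NeZero n] (hΩ : IsOpen Ω) : ∃ K, Exh Ω K := by
  refine ⟨MSeq_exh Ω, eq_empty_of_forall_notMem fun x hx => ?_, MSeq_cpt Ω, MSeq_sub Ω,
    fun j x hx => ?_, fun x hx => ?_, fun j v hv hk => MSeq_esc hΩ (MSeq_sub Ω _ hv) hk⟩
  · have := hx.1
    rw [Nat.cast_zero] at this
    linarith [norm_nonneg x]
  · have h1 : (1 : ℝ) ≤ j := by linarith [hx.1, norm_nonneg x]
    obtain ⟨δ, h0, hδ⟩ : ∃ δ : ℝ, 0 < δ ∧ j * ((j + 1) * δ) = 1 :=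
      ⟨1 / (j * (j + 1)), by positivity, by field_simp⟩
    have h2 : δ ≤ 1 := by linarith only [hδ, h0, h1, mul_pos h0 (zero_lt_one.trans_le h1), mul_nonneg_of_nonpos_of_nonpos (Mathlib.Tactic.Linarith.sub_nonpos_of_le (Mathlib.Tactic.Linarith.natCast_nonneg ℝ j)) (le_of_lt (Mathlib.Tactic.Linarith.sub_neg_of_lt (mul_pos h0 (LT.lt.trans_le zero_lt_one h1)))), mul_nonneg_of_nonpos_of_nonpos (Mathlib.Tactic.Linarith.sub_nonpos_of_le h1) (le_of_lt (Mathlib.Tactic.Linarith.sub_neg_of_lt h0))]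
    refine mem_interior_iff_mem_nhds.2 (mem_of_superset (ball_mem_nhds x h0) fun z hz =>
      ⟨?_, fun y hy => ?_⟩)
    · push_cast
      linarith [hx.1, norm_sub_norm_le z x, mem_ball_iff_norm.1 hz]
    · have h3 := hx.2 y hy
      have h4 : ‖x - y‖ - δ ≤ ‖z - y‖ := by
        rw [← dist_eq_norm, ← dist_eq_norm]
        linarith [dist_triangle_left x y z, mem_ball.1 hz]
      have h5 : (j + 1) * δ ≤ ‖x - y‖ := le_of_mul_le_mul_left (hδ.le.trans h3) (by linarith)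
      push_cast
      linarith only [h3, h4, h5, mul_nonneg_of_nonpos_of_nonpos (Mathlib.Tactic.Linarith.sub_nonpos_of_le (Mathlib.Tactic.Linarith.natCast_nonneg ℝ j)) (Mathlib.Tactic.Linarith.sub_nonpos_of_le h4)]
  · obtain ⟨r, hr, h⟩ := Metric.isOpen_iff.1 hΩ x hx
    obtain ⟨k, hk⟩ := exists_nat_ge (max (‖x‖ + 1) (1 / r))
    refine ⟨k, le_of_max_le_left hk, fun y hy => ?_⟩
    have h1 : r ≤ dist y x := not_lt.1 fun q => hy (h q)
    refine ((div_le_iff₀ hr).1 (le_of_max_le_right hk)).trans ?_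
    gcongr
    rwa [← dist_eq_norm, dist_comm]

theorem Exh.mono (h : Exh Ω K) : Monotone K := by
  exact monotone_nat_of_le_succ fun j => (h.int j).trans interior_subset

theorem Exh.nhds (h : Exh Ω K) {x : Rn n} (hx : x ∈ Ω) : ∀ᶠ j in atTop, K (j - 1) ∈ 𝓝 x := by
  obtain ⟨i, hi⟩ := h.cov x hx
  filter_upwards [eventually_ge_atTop (i + 2)] with j hj
  exact mem_of_superset (mem_interior_iff_mem_nhds.1 (h.int i hi)) (h.mono (by omega))

theorem IL.continuousOn (h : IL Ω F) : ContinuousOn F Ω := by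
  intro x hx
  obtain ⟨L, hL⟩ := h.ll x hx
  exact hL.continuousAt.continuousWithinAt

theorem Exh.il (h : Exh Ω K) (hF : ∀ j, ∃ F', IL Ω F' ∧ EqOn F F' (K (j - 1))) : IL Ω F := by
  refine ⟨fun x hx y hy e => ?_, fun x hx => ?_⟩
  · obtain ⟨j, k1, k2⟩ := ((h.nhds hx).and (h.nhds hy)).exists
    obtain ⟨F', h1, h2⟩ := hF j
    rw [h2 (mem_of_mem_nhds k1), h2 (mem_of_mem_nhds k2)] at e
    exact h1.inj hx hy e
  · obtain ⟨j, k⟩ := (h.nhds hx).exists
    obtain ⟨F', h1, h2⟩ := hF j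
    obtain ⟨L, hL⟩ := h1.ll x hx
    exact ⟨L, hL.congr (h2.eventuallyEq_of_mem k)⟩

theorem seq_lim (hΩ : IsOpen Ω) (hK : Exh Ω K) (hG : ContinuousOn G Ω)
    {P : ℕ → (Rn n → Rn n) → Prop} (hc : ∀ j F, P j F → ContinuousOn F Ω) (h0 : P 0 F)
    (st : ∀ j F, P j F → ∀ ε : ℝ≥0∞, ε ≠ 0 → ∃ F', P (j + 1) F' ∧ EqOn F' F (K (j - 1)) ∧
      Eg p Ω G F' ≤ Eg p Ω G F + ε) {ε : ℝ≥0∞} (hε : ε ≠ 0) :
    ∃ F', Eg p Ω G F' ≤ Eg p Ω G F + ε ∧ ∀ j, ∃ F'', P j F'' ∧ EqOn F' F'' (K (j - 1)) := by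
  classical
  obtain ⟨δ, d0, d1⟩ := ENNReal.exists_pos_sum_of_countable' hε ℕ
  choose nx n1 n2 n3 using fun j (F : {F // P j F}) => st j F.1 F.2 (δ j) (d0 j).ne'
  let s : (j : ℕ) → {F // P j F} := fun j =>
    Nat.rec (motive := fun j => {F // P j F}) ⟨F, h0⟩ (fun j F => ⟨nx j F, n1 j F⟩) j
  have e1 : ∀ j i, j ≤ i → EqOn (s i).1 (s j).1 (K (j - 1)) := fun j i hi => by
    induction i, hi using Nat.le_induction with
    | base => exact fun _ _ => rfl
    | succ i hi ih => exact ((n2 i (s i)).mono (hK.mono (by omega))).trans ih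
  have e2 : ∀ j, Eg p Ω G (s j).1 ≤ Eg p Ω G F + ∑ i ∈ Finset.range j, δ i := fun j => by
    induction j with
    | zero => simp [s]
    | succ j ih =>
      rw [Finset.sum_range_succ, ← add_assoc]
      exact (n3 j (s j)).trans (add_le_add ih le_rfl)
  obtain ⟨H, hH⟩ : ∃ H : Rn n → Rn n, ∀ j, EqOn H (s j).1 (K (j - 1)) := by
    refine ⟨fun x => if h : ∃ j, x ∈ K (j - 1) then (s h.choose).1 x else x, fun j x hx => ?_⟩
    have h : ∃ j, x ∈ K (j - 1) := ⟨j, hx⟩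
    simp only [dif_pos h]
    rw [← e1 _ _ (le_max_left h.choose j) h.choose_spec, e1 _ _ (le_max_right h.choose j) hx]
  refine ⟨H, ?_, fun j => ⟨_, (s j).2, hH j⟩⟩
  have e3 : Eg p Ω G H = ∫⁻ x in Ω, liminf (fun j => en p (s j).1 G (fderiv ℝ G) x) atTop := by
    refine setLIntegral_congr_fun hΩ.measurableSet fun x hx => ?_
    refine (liminf_const _).symm.trans (liminf_congr ?_)
    filter_upwards [hK.nhds hx] with j hj
    exact en_congr ((hH j).eventuallyEq_of_mem hj) _ _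
  rw [e3]
  refine (lintegral_liminf_le' fun j => aem_en p hΩ (hc j _ (s j).2) hG
    (measurable_fderiv ℝ G)).trans (liminf_le_of_frequently_le' (Frequently.of_forall fun j => ?_))
  exact (e2 j).trans (add_le_add le_rfl ((ENNReal.sum_le_tsum _).trans d1.le))

theorem Eg_self (hp : 0 < p) : Eg p Ω G G = 0 := by
  simp only [Eg, en_self hp EventuallyEq.rfl, lintegral_zero]

theorem Eg_step (hΩ : IsOpen Ω) (hp : 0 ≤ p) {Z N : Set (Rn n)} (hZ : IsClosed Z)
    (hN : volume N = 0) (e : EqOn F' F (Ω \ Z)) {L M : ℝ} (hL : 0 ≤ L)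
    (h : ∀ x ∈ Z, x ∈ Ω → x ∉ N → LL F' x L ∧ LL G x L ∧ ‖F' x - G x‖ ≤ M) :
    Eg p Ω G F' ≤ Eg p Ω G F +
      (ENNReal.ofReal M ^ p + ENNReal.ofReal (2 * L) ^ p) * volume Z := by
  rw [Eg, ← lintegral_inter_add_sdiff _ Ω hZ.measurableSet, add_comm]
  refine add_le_add ?_ ?_
  · have ho := hΩ.sdiff hZ
    rw [setLIntegral_congr_fun ho.measurableSet fun x hx =>
      en_congr (e.eventuallyEq_of_mem (ho.mem_nhds hx)) G (fderiv ℝ G)]
    exact lintegral_mono_set sdiff_subset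
  · refine le_trans (setLIntegral_mono_ae' (g := fun _ =>
      ENNReal.ofReal M ^ p + ENNReal.ofReal (2 * L) ^ p)
      (hΩ.measurableSet.inter hZ.measurableSet) ?_) ?_
    · filter_upwards [compl_mem_ae_iff.2 hN] with x hx hx'
      obtain ⟨h1, h2, h3⟩ := h x hx'.2 hx'.1 hx
      refine add_le_add (ENNReal.rpow_le_rpow ?_ hp) (ENNReal.rpow_le_rpow ?_ hp)
      · rw [← ofReal_norm]
        exact ENNReal.ofReal_le_ofReal h3
      · rw [← ofReal_norm]
        refine ENNReal.ofReal_le_ofReal ((norm_sub_le _ _).trans ?_)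
        linarith only [h1, hL, h2, h1.norm_fderiv hL, h2.norm_fderiv hL]
    · rw [setLIntegral_const]
      gcongr
      exact inter_subset_right

theorem MSeq_seg (a b : Rn n) : seg a b '' Icc 0 1 = segment ℝ a b :=
  (segment_eq_image' ℝ a b).symm

theorem tube_cpt (a b : Rn n) (r : ℝ) : IsCompact (tube a b r) := by
  have e : tube a b r = (fun q : ℝ × Rn n => seg a b q.1 + q.2) '' (Icc 0 1 ×ˢ closedBall 0 r) := by
    ext x
    rw [tube, ← MSeq_seg]
    constructor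
    · rintro ⟨_, ⟨t, ht, rfl⟩, hx⟩
      exact ⟨(t, x - seg a b t), ⟨ht, mem_closedBall_zero_iff.2 hx⟩, add_sub_cancel _ _⟩
    · rintro ⟨q, hq, rfl⟩
      exact ⟨_, mem_image_of_mem _ hq.1, by simpa using hq.2⟩
  rw [e]
  exact (isCompact_Icc.prod (isCompact_closedBall _ _)).image (by unfold seg; fun_prop)

theorem tube_mono (a b : Rn n) {r r' : ℝ} (h : r ≤ r') : tube a b r ⊆ tube a b r' := by
  exact fun _ ⟨y, hy, k⟩ => ⟨y, hy, k.trans h⟩

theorem tube_sub {a b : Rn n} {U : Set (Rn n)} (hU : IsOpen U) (h : segment ℝ a b ⊆ U) :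
    ∃ r : ℝ, 0 < r ∧ tube a b r ⊆ U := by
  have hC : IsCompact (segment ℝ a b) := by
    rw [← MSeq_seg]
    exact isCompact_Icc.image (by unfold seg; fun_prop)
  obtain ⟨r, hr, k⟩ := hC.exists_cthickening_subset_open hU h
  exact ⟨r, hr, fun x ⟨y, hy, k'⟩ => k (mem_cthickening_of_dist_le x y r _ hy
    (by rwa [dist_eq_norm]))⟩

theorem lens_open (a b : Rn n) (ρ : ℝ) : IsOpen (lens a b ρ) := by
  have e : lens a b ρ = ⋃ z ∈ Ioo (0 : ℝ) 1, ball (seg a b z) (ρ * (z * (1 - z))) := by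
    ext x
    simp only [lens, mem_ofPred_eq, mem_iUnion, mem_ball_iff_norm, exists_prop]
  rw [e]
  exact isOpen_biUnion fun _ _ => isOpen_ball

theorem lens_mono (a b : Rn n) {ρ ρ' : ℝ} (h : ρ ≤ ρ') : lens a b ρ ⊆ lens a b ρ' := by
  exact fun _ ⟨z, hz, k⟩ => ⟨z, hz, k.trans_le (mul_le_mul_of_nonneg_right h
    (mul_pos hz.1 (sub_pos.2 hz.2)).le)⟩

theorem lens_tube (a b : Rn n) {ρ : ℝ} (h : 0 ≤ ρ) : lens a b ρ ∪ {a, b} ⊆ tube a b ρ := by
  rintro x (⟨z, hz, k⟩ | rfl | rfl)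
  · refine ⟨_, (MSeq_seg a b).subset (mem_image_of_mem _ (Ioo_subset_Icc_self hz)),
      k.le.trans (mul_le_of_le_one_right h ?_)⟩
    (refine le_of_not_gt fun h_nl => ?_; linarith only [h_nl, hz, hz.1, hz.2, mul_pos_of_neg_of_neg (Mathlib.Tactic.Linarith.sub_neg_of_lt h_nl) (Mathlib.Tactic.Linarith.sub_neg_of_lt hz.left), mul_pos_of_neg_of_neg (Mathlib.Tactic.Linarith.sub_neg_of_lt h_nl) (Mathlib.Tactic.Linarith.sub_neg_of_lt hz.right), mul_pos_of_neg_of_neg (Mathlib.Tactic.Linarith.sub_neg_of_lt hz.left) (Mathlib.Tactic.Linarith.sub_neg_of_lt hz.left)])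
  · exact ⟨_, left_mem_segment ℝ _ _, by simpa using h⟩
  · exact ⟨_, right_mem_segment ℝ _ _, by simpa using h⟩

theorem mem_lens_sub {a b x : Rn n} {ρ : ℝ} : x - a ∈ lens 0 (b - a) ρ ↔ x ∈ lens a b ρ := by
  simp only [lens, mem_ofPred_eq, seg, zero_add, sub_zero, sub_sub]

theorem vol_tube (a b : Rn 3) : ∃ C : ℝ, 0 ≤ C ∧ ∀ r ∈ Ioc (0 : ℝ) 1,
    volume (tube a b r) ≤ ENNReal.ofReal (C * r ^ 2) := by
  refine ⟨16 * (1 + ‖b - a‖) ^ 3, by positivity, fun r hr => ?_⟩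
  have r0 := hr.1
  have h1 : tube a b r ⊆ ⋃ i ∈ Finset.range (⌊1 / r⌋₊ + 1),
      closedBall (seg a b (i * r)) ((1 + ‖b - a‖) * r) := by
    rintro x ⟨y, hy, hx⟩
    obtain ⟨t, ht, rfl⟩ := (MSeq_seg a b).symm.subset hy
    have k1 := Nat.floor_le (div_nonneg ht.1 r0.le)
    have k2 := Nat.lt_floor_add_one (t / r)
    rw [le_div_iff₀ r0] at k1
    rw [div_lt_iff₀ r0] at k2
    refine mem_iUnion₂.2 ⟨⌊t / r⌋₊, Finset.mem_range.2 (Nat.lt_succ_of_le (Nat.floor_mono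
      (div_le_div_of_nonneg_right ht.2 r0.le))), mem_closedBall_iff_norm.2 ?_⟩
    rw [show x - seg a b (⌊t / r⌋₊ * r) = x - seg a b t + (t - ⌊t / r⌋₊ * r) • (b - a) by
      rw [seg, seg]; module]
    refine (norm_add_le _ _).trans ?_
    rw [norm_smul, Real.norm_of_nonneg (sub_nonneg.2 k1)]
    linarith only [hx, k2, norm_nonneg (b - a), mul_nonneg_of_nonpos_of_nonpos (le_of_lt (Mathlib.Tactic.Linarith.sub_neg_of_lt k2)) (Mathlib.Tactic.Linarith.sub_nonpos_of_le (norm_nonneg (b - a)))]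
  refine (measure_mono h1).trans ((measure_biUnion_finset_le _ _).trans ?_)
  simp only [Real.volume_pi_closedBall _ (show 0 ≤ (1 + ‖b - a‖) * r by positivity),
    Finset.sum_const, Finset.card_range, Fintype.card_fin, nsmul_eq_mul]
  rw [← ENNReal.ofReal_natCast, ← ENNReal.ofReal_mul (Nat.cast_nonneg _)]
  refine ENNReal.ofReal_le_ofReal ?_
  have k1 := Nat.floor_le (show 0 ≤ 1 / r by positivity)
  rw [le_div_iff₀ r0] at k1
  have k2 : ((⌊1 / r⌋₊ + 1 : ℕ) : ℝ) * r ≤ 2 := by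
    push_cast
    linarith only [k1, hr, hr.2]
  calc _ = ((⌊1 / r⌋₊ + 1 : ℕ) : ℝ) * r * (8 * (1 + ‖b - a‖) ^ 3 * r ^ 2) := by ring
    _ ≤ 2 * (8 * (1 + ‖b - a‖) ^ 3 * r ^ 2) := by gcongr
    _ = _ := by ring

/-- The cost of a modification of slope `C / r` in a tube of width `r` tends to zero. -/
theorem tube_small (hp0 : 0 ≤ p) (hp : p < 2) (a b : Rn 3) {M C : ℝ} (hC : 0 ≤ C) {ε : ℝ≥0∞}
    (hε : ε ≠ 0) : ∀ᶠ r in 𝓝[>] (0 : ℝ),
      (ENNReal.ofReal M ^ p + ENNReal.ofReal (2 * (C / r)) ^ p) * volume (tube a b r) ≤ ε := by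
  obtain ⟨D, D0, hD⟩ := vol_tube a b
  have h1 : Tendsto (fun r : ℝ => ENNReal.ofReal (|M| ^ p * D * r ^ 2 +
      (2 * C) ^ p * D * r ^ (2 - p))) (𝓝[>] 0) (𝓝 0) := by
    have k : ContinuousAt (fun r : ℝ => |M| ^ p * D * r ^ 2 + (2 * C) ^ p * D * r ^ (2 - p)) 0 :=
      (by fun_prop : ContinuousAt (fun r : ℝ => |M| ^ p * D * r ^ 2) 0).add
        (continuousAt_const.mul (Real.continuousAt_rpow_const 0 _ (.inr (by linarith))))
    have := ENNReal.tendsto_ofReal (k.tendsto.mono_left (nhdsWithin_le_nhds (s := Ioi 0)))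
    simpa [Real.zero_rpow (sub_pos.2 hp).ne'] using this
  filter_upwards [h1.eventually (Iic_mem_nhds (pos_iff_ne_zero.2 hε)),
    Ioc_mem_nhdsGT zero_lt_one] with r h2 hr
  have r0 := hr.1
  refine le_trans ?_ h2
  calc _ ≤ (ENNReal.ofReal |M| ^ p + ENNReal.ofReal (2 * (C / r)) ^ p) *
        ENNReal.ofReal (D * r ^ 2) := by
        gcongr
        exacts [le_abs_self M, hD r hr]
    _ = _ := by
        rw [ENNReal.ofReal_rpow_of_nonneg (abs_nonneg M) hp0,
          ENNReal.ofReal_rpow_of_nonneg (by positivity) hp0,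
          ← ENNReal.ofReal_add (by positivity) (by positivity),
          ← ENNReal.ofReal_mul (by positivity), ← mul_div_assoc,
          Real.div_rpow (by positivity) r0.le, Real.rpow_sub r0, Real.rpow_two]
        congr 1
        ring

end BEp
end
end

-- merged part: Pool.Agent.Work.MP_f0515e_an.D3.MFing
section
/-! Thin smooth finger moves.
Plan. fing_prof: M t = (1 - κ) R (t + δ) β t with R s = ∫ x in 0..s, smoothTransition (2 x / δ) (so R = 0 on s ≤ 0, 0 ≤ R' ≤ 1, R s ≥ s - δ/2), β t = smoothTransition ((1 + δ - t) / δ)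
(antitone, 1 for t ≤ 1, 0 for t ≥ 1 + δ), κ = δ / (2 + δ) so that (1 - κ)(1 + δ/2) = 1; M' = (1 - κ)(R' β + R β') ≤ 1 - κ. Any other construction is welcome.
finger3: a0 = w - v, i with a0 i ≠ 0, τ x = (x i - v i) / a0 i, π x = x - v - τ x • a0, δ' = δ / ‖a0‖, χ a ContDiffBump at 0 with rOut = 1, T x = x - (χ (r⁻¹ • π x) * M (τ x)) • a0,
a = v - δ' • a0, b = w + δ' • a0. π (T x) = π x, τ (T x) = τ x - χ M (τ x), and s - c M s is strictly monotone for c in [0,1] (derivative). The derivative of T is ξ - λ ξ • a0 with λ a0 = χ M' < 1, hence injective, hence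
bounded below (LinearMap.exists_antilipschitzWith). χ and M are bounded and Lipschitz (C¹ with compact support: ContDiff.lipschitzWith_of_hasCompactSupport). -/

open Set Metric Filter Topology Function BEv MeasureTheory
open scoped NNReal ENNReal ContDiff

noncomputable section
namespace BEp

theorem MFing_rho (x : ℝ) : ∃ d : ℝ, HasDerivAt (fun y => y * expNegInvGlue y) d x ∧ 0 ≤ d ∧
    d < 1 := by
  have h : HasDerivAt expNegInvGlue (x⁻¹ ^ 2 * expNegInvGlue x) x := by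
    simpa using expNegInvGlue.hasDerivAt_polynomial_eval_inv_mul 1 x
  refine ⟨_, (hasDerivAt_id' x).mul h, ?_⟩
  rcases le_or_gt x 0 with hx | hx
  · simp [expNegInvGlue.zero_of_nonpos hx]
  · have h0 := expNegInvGlue.nonneg x
    refine ⟨by positivity, ?_⟩
    have e1 : expNegInvGlue x = (Real.exp x⁻¹)⁻¹ := by simp [expNegInvGlue, hx.not_ge, Real.exp_neg]
    have e2 : 1 * expNegInvGlue x + x * (x⁻¹ ^ 2 * expNegInvGlue x) =
        (x⁻¹ + 1) / Real.exp x⁻¹ := by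
      rw [e1]
      field_simp
      ring
    rw [e2, div_lt_one (Real.exp_pos _)]
    exact Real.add_one_lt_exp (inv_pos.2 hx).ne'

theorem MFing_low {x : ℝ} (hx : 0 < x) : x - 1 ≤ x * expNegInvGlue x := by
  have e1 : expNegInvGlue x = Real.exp (-x⁻¹) := by simp [expNegInvGlue, hx.not_ge]
  have h := mul_le_mul_of_nonneg_left (Real.add_one_le_exp (-x⁻¹)) hx.le
  rw [mul_add, mul_neg, mul_inv_cancel₀ hx.ne'] at h
  rw [e1]
  linarith only [h]

theorem fing_prof {δ : ℝ} (hδ : 0 < δ) : ∃ M : ℝ → ℝ, ContDiff ℝ 1 M ∧ (∀ t, deriv M t < 1) ∧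
    (∀ t, t ∉ Icc (-δ) (1 + δ) → M t = 0) ∧ 1 ≤ M 1 := by
  obtain ⟨β, hβ⟩ : ∃ β : ℝ → ℝ, β = fun t => Real.smoothTransition ((1 + δ - t) / δ) := ⟨_, rfl⟩
  have cβ : ContDiff ℝ 1 β :=
    hβ ▸ (Real.smoothTransition.contDiff (n := 1)).comp
      ((contDiff_const.sub contDiff_id).div_const δ)
  have aβ : Antitone β := hβ ▸ fun s t h => Real.smoothTransition.monotone (by gcongr)
  have c1 : ContDiff ℝ 1 fun t : ℝ => (t + δ) / δ := (contDiff_id.add contDiff_const).div_const δ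
  refine ⟨fun t => δ * ((t + δ) / δ * expNegInvGlue ((t + δ) / δ)) * β t,
    (contDiff_const.mul (c1.mul ((expNegInvGlue.contDiff (n := 1)).comp c1))).mul cβ,
    fun t => ?_, fun t ht => ?_, ?_⟩
  · obtain ⟨d, hd, d0, d1⟩ := MFing_rho ((t + δ) / δ)
    have h1 := ((hd.comp t (((hasDerivAt_id' t).add_const δ).div_const δ)).const_mul δ).mul
      (cβ.differentiable one_ne_zero t).hasDerivAt
    refine h1.deriv.trans_lt ?_
    have b0 : 0 ≤ β t := hβ ▸ Real.smoothTransition.nonneg _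
    have b1 : β t ≤ 1 := hβ ▸ Real.smoothTransition.le_one _
    have b2 : deriv β t ≤ 0 := aβ.deriv_nonpos
    have r0 : 0 ≤ (t + δ) / δ * expNegInvGlue ((t + δ) / δ) := by
      rcases le_or_gt ((t + δ) / δ) 0 with k | k
      · rw [expNegInvGlue.zero_of_nonpos k, mul_zero]
      · exact mul_nonneg k.le (expNegInvGlue.nonneg _)
    have e : δ * (d * (1 / δ)) = d := by field_simp
    have k1 := mul_nonpos_of_nonneg_of_nonpos (mul_nonneg hδ.le r0) b2
    have k2 := mul_le_of_le_one_right d0 b1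
    rw [e]
    exact (add_le_of_nonpos_right k1).trans_lt (k2.trans_lt d1)
  · beta_reduce
    rcases not_and_or.1 ht with k | k
    · rw [expNegInvGlue.zero_of_nonpos (div_nonpos_of_nonpos_of_nonneg (by linarith) hδ.le),
        mul_zero, mul_zero, zero_mul]
    · rw [hβ]
      beta_reduce
      rw [Real.smoothTransition.zero_of_nonpos
        (div_nonpos_of_nonpos_of_nonneg (by linarith) hδ.le), mul_zero]
  · have e : β 1 = 1 := by
      rw [hβ]
      exact Real.smoothTransition.one_of_one_le (by rw [add_sub_cancel_left, div_self hδ.ne'])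
    have k := mul_le_mul_of_nonneg_left (MFing_low (x := (1 + δ) / δ) (by positivity)) hδ.le
    have e2 : δ * ((1 + δ) / δ - 1) = 1 := by field_simp; ring
    beta_reduce
    rw [e, mul_one]
    exact e2.symm.trans_le k

theorem MFing_si {n : ℕ} {a : Rn n} {g : Rn n → ℝ} {x : Rn n} {lam : Rn n →L[ℝ] ℝ}
    (h : HasStrictFDerivAt g lam x) (h1 : lam a < 1) : SI (fun y => y - g y • a) x := by
  refine ⟨ContinuousLinearMap.id ℝ _ - lam.smulRight a,
    (hasStrictFDerivAt_id x).sub (h.smul_const a), ?_⟩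
  obtain ⟨K, K0, hK⟩ := LinearMap.exists_antilipschitzWith
    ((ContinuousLinearMap.id ℝ _ - lam.smulRight a : Rn n →L[ℝ] Rn n) : Rn n →ₗ[ℝ] Rn n)
    (LinearMap.ker_eq_bot'.2 fun ξ hξ => by
      have e : ξ = lam ξ • a := sub_eq_zero.1 hξ
      have e1 := congrArg lam e
      rw [map_smul, smul_eq_mul] at e1
      have e2 : lam ξ * (1 - lam a) = 0 := by linarith
      rw [e, (mul_eq_zero.1 e2).resolve_right (by linarith), zero_smul])
  have K1 : (0 : ℝ) < K := K0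
  refine ⟨(K : ℝ)⁻¹, inv_pos.2 K1, fun ξ => (inv_mul_le_iff₀ K1).2 ?_⟩
  exact ContinuousLinearMap.bound_of_antilipschitz _ hK ξ

theorem MFing_mono {M : ℝ → ℝ} (hM : ContDiff ℝ 1 M) (h : ∀ t, deriv M t < 1) {c : ℝ}
    (h0 : 0 ≤ c) (h1 : c ≤ 1) : (∀ t, c * deriv M t < 1) ∧ StrictMono fun s => s - c * M s := by
  have k : ∀ t, c * deriv M t < 1 := fun t => by
    rcases le_or_gt (deriv M t) 0 with k | k
    · exact (mul_nonpos_of_nonneg_of_nonpos h0 k).trans_lt one_pos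
    · exact (mul_le_of_le_one_left k.le h1).trans_lt (h t)
  refine ⟨k, strictMono_of_deriv_pos fun t => ?_⟩
  have d := (hasDerivAt_id' t).sub
    ((hM.differentiable one_ne_zero t).hasDerivAt.const_mul c)
  exact (sub_pos.2 (k t)).trans_eq d.deriv.symm

theorem MFing_seg {n : ℕ} (v a : Rn n) {s s' : ℝ} (h : s ≤ s') :
    (fun t : ℝ => v + t • a) '' Icc s s' = segment ℝ (v + s • a) (v + s' • a) := by
  have k1 : (AffineMap.lineMap v (v + a) : ℝ →ᵃ[ℝ] Rn n) = fun u : ℝ => v + u • a := by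
    funext u
    rw [AffineMap.lineMap_apply_module', add_sub_cancel_left, add_comm]
  have k := image_segment ℝ (AffineMap.lineMap v (v + a) : ℝ →ᵃ[ℝ] Rn n) s s'
  rwa [k1, segment_eq_Icc h] at k

theorem finger3 {n : ℕ} {v w : Rn n} (hne : v ≠ w) {δ : ℝ} (hδ : 0 < δ) :
    ∃ (a b : Rn n) (C : ℝ), 0 ≤ C ∧ segment ℝ a b ⊆ tube v w δ ∧ ∀ r ∈ Ioc (0 : ℝ) 1,
      ∃ T : Rn n → Rn n, Injective T ∧ (∀ x, SI T x) ∧ Lz T (C / r) ∧
        (∀ x, x ∉ tube a b r → T x = x) ∧ ∀ x, T x ∈ segment ℝ v w → ‖x - w‖ ≤ δ := by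
  obtain ⟨a, rfl⟩ : ∃ a, w = v + a := ⟨w - v, by abel⟩
  have a0 : a ≠ 0 := fun h => hne (by rw [h, add_zero])
  have na := norm_pos_iff.2 a0
  obtain ⟨τ, hτ⟩ := SeparatingDual.exists_eq_one (R := ℝ) a0
  obtain ⟨π, hπ⟩ : ∃ π : Rn n →L[ℝ] Rn n, ∀ x, π x = x - τ x • a :=
    ⟨ContinuousLinearMap.id ℝ _ - τ.smulRight a, fun _ => rfl⟩
  have πa : π a = 0 := by rw [hπ, hτ, one_smul, sub_self]
  obtain ⟨e, he⟩ : ∃ e, e = δ / ‖a‖ := ⟨_, rfl⟩
  have e0 : 0 < e := he ▸ div_pos hδ na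
  have e1 : e * ‖a‖ = δ := he ▸ div_mul_cancel₀ _ na.ne'
  obtain ⟨M, cM, dM, sM, M1⟩ := fing_prof e0
  let χ : ContDiffBump (0 : Rn n) := ⟨1 / 2, 1, by norm_num, by norm_num⟩
  have cχ : ContDiff ℝ 1 χ := χ.contDiff (n := 1)
  have sχ : ∀ u, u ∉ closedBall (0 : Rn n) 1 → χ u = 0 := fun u hu =>
    χ.zero_of_le_dist (not_le.1 hu).le
  obtain ⟨K, hK⟩ := ContDiff.lipschitzWith_of_hasCompactSupport (𝕂 := ℝ) (n := 1)
    (f := fun z : Rn n × ℝ => χ z.1 * M z.2)
    (HasCompactSupport.intro ((isCompact_closedBall 0 1).prod (isCompact_Icc (a := -e) (b := 1 + e)))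
      fun z hz => by
        rcases not_and_or.1 hz with k | k
        · rw [sχ _ k, zero_mul]
        · rw [sM _ k, mul_zero])
    ((cχ.comp contDiff_fst).mul (cM.comp contDiff_snd)) one_ne_zero
  have sg : ∀ {s s' t : ℝ}, t ∈ Icc s s' → v + t • a ∈ segment ℝ (v + s • a) (v + s' • a) :=
    fun ht => MFing_seg v a (ht.1.trans ht.2) ▸ mem_image_of_mem _ ht
  have sg' : ∀ {s s' : ℝ} {y : Rn n}, s ≤ s' → y ∈ segment ℝ (v + s • a) (v + s' • a) →
      ∃ t ∈ Icc s s', y = v + t • a := fun h hy => by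
    obtain ⟨t, ht, k⟩ := (MFing_seg v a h).symm ▸ hy
    exact ⟨t, ht, k.symm⟩
  have sg1 : ∀ {t : ℝ}, t ∈ Icc (0 : ℝ) 1 → v + t • a ∈ segment ℝ v (v + a) := fun ht => by
    simpa using sg ht
  refine ⟨v + (-e) • a, v + (1 + e) • a, 1 + K * (‖π‖ + ‖τ‖) * ‖a‖, by positivity, fun y hy => ?_,
    fun r hr => ⟨fun x => x - (χ (r⁻¹ • π (x - v)) * M (τ (x - v))) • a, ?_⟩⟩
  · obtain ⟨t, ht, rfl⟩ := sg' (by linarith only [e0]) hy
    refine ⟨_, sg1 (t := max 0 (min t 1)) ⟨le_max_left _ _, max_le zero_le_one (min_le_right _ _)⟩,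
      ?_⟩
    rw [add_sub_add_left_eq_sub, ← sub_smul, norm_smul, Real.norm_eq_abs, ← e1]
    refine mul_le_mul_of_nonneg_right (abs_le.2 ⟨?_, ?_⟩) na.le
    · have : max 0 (min t 1) ≤ t + e := max_le (by linarith [ht.1])
        ((min_le_left _ _).trans (by linarith))
      linarith
    · have : t - e ≤ max 0 (min t 1) :=
        le_max_of_le_right (le_min (by linarith) (by linarith [ht.2]))
      linarith
  have r0 := hr.1
  have f1 : ∀ (x : Rn n) (c : ℝ), π (x - c • a - v) = π (x - v) := fun x c => by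
    rw [sub_right_comm, map_sub π (x - v), map_smul, πa, smul_zero, sub_zero]
  have f2 : ∀ (x : Rn n) (c : ℝ), τ (x - c • a - v) = τ (x - v) - c := fun x c => by
    rw [sub_right_comm, map_sub τ (x - v), map_smul, hτ, smul_eq_mul, mul_one]
  have f3 : ∀ x : Rn n, x = v + τ (x - v) • a + π (x - v) := fun x => by
    rw [hπ]
    abel
  refine ⟨fun x y h => ?_, fun x => ?_, fun x y => ?_, fun x hx => ?_, fun x hx => ?_⟩
  · have k1 := congrArg (fun z => π (z - v)) h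
    have k2 := congrArg (fun z => τ (z - v)) h
    simp only [f1, f2] at k1 k2
    rw [k1] at k2
    rw [f3 x, f3 y, k1, (MFing_mono cM dM χ.nonneg χ.le_one).2.injective k2]
  · have d0 : HasStrictFDerivAt (fun y : Rn n => y - v) (ContinuousLinearMap.id ℝ _) x :=
      (hasStrictFDerivAt_id x).sub_const v
    have d1 := (cχ.hasStrictFDerivAt (x := r⁻¹ • π (x - v)) one_ne_zero).comp x
      ((π.hasStrictFDerivAt.comp x d0).const_smul r⁻¹)
    have d2 := (cM.hasStrictDerivAt (x := τ (x - v)) one_ne_zero).comp_hasStrictFDerivAt x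
      (τ.hasStrictFDerivAt.comp x d0)
    refine MFing_si (d1.mul d2) ?_
    simpa [πa, hτ] using (MFing_mono cM dM χ.nonneg χ.le_one).1 (τ (x - v))
  · have k1 := hK.dist_le_mul (r⁻¹ • π (x - v), τ (x - v)) (r⁻¹ • π (y - v), τ (y - v))
    have i1 : 1 ≤ r⁻¹ := (one_le_inv₀ r0).2 hr.2
    have k2 : dist (r⁻¹ • π (x - v), τ (x - v)) (r⁻¹ • π (y - v), τ (y - v)) ≤
        r⁻¹ * ((‖π‖ + ‖τ‖) * ‖x - y‖) := by
      have j1 := π.le_opNorm (x - y)
      have j2 := τ.le_opNorm (x - y)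
      have j3 : 0 ≤ ‖π‖ * ‖x - y‖ := by positivity
      have j4 : 0 ≤ ‖τ‖ * ‖x - y‖ := by positivity
      rw [Prod.dist_eq, dist_eq_norm, dist_eq_norm, ← smul_sub, ← map_sub, ← map_sub,
        sub_sub_sub_cancel_right, norm_smul, Real.norm_of_nonneg (by positivity)]
      exact max_le (mul_le_mul_of_nonneg_left (by linarith only [j1, j4]) (by positivity))
        (le_trans (by linarith only [j2, j3]) (le_mul_of_one_le_left (by positivity) i1))
    have k3 := k1.trans (mul_le_mul_of_nonneg_left k2 K.coe_nonneg)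
    rw [dist_eq_norm] at k3
    have k4 := mul_le_mul_of_nonneg_right k3 na.le
    have k5 := le_mul_of_one_le_left (norm_nonneg (x - y)) i1
    beta_reduce
    rw [sub_sub_sub_comm, ← sub_smul, div_eq_mul_inv]
    refine (norm_sub_le _ _).trans ?_
    rw [norm_smul]
    linarith only [k4, k5]
  · beta_reduce
    by_contra c
    rw [sub_eq_self, smul_eq_zero_iff_left a0, mul_eq_zero, not_or] at c
    have k1 : r⁻¹ • π (x - v) ∈ closedBall (0 : Rn n) 1 := by_contra fun k => c.1 (sχ _ k)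
    have k2 : τ (x - v) ∈ Icc (-e) (1 + e) := by_contra fun k => c.2 (sM _ k)
    refine hx ⟨_, sg k2, ?_⟩
    rw [mem_closedBall_zero_iff, norm_smul, Real.norm_of_nonneg (by positivity),
      inv_mul_le_iff₀ r0, mul_one, hπ] at k1
    rwa [← sub_sub]
  · obtain ⟨t, ht, h⟩ := sg' (s := 0) (s' := 1) zero_le_one
      (by rwa [zero_smul, add_zero, one_smul])
    have k1 := congrArg (fun z => π (z - v)) h
    have k2 := congrArg (fun z => τ (z - v)) h
    simp only [f1, f2, add_sub_cancel_left, map_smul, πa, hτ, smul_zero, smul_eq_mul,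
      mul_one] at k1 k2
    rw [k1, smul_zero, χ.one_of_mem_closedBall (mem_closedBall_self χ.rIn_pos.le)] at k2
    have k3 : 1 ≤ τ (x - v) :=
      (MFing_mono cM dM zero_le_one le_rfl).2.le_iff_le.1 (by linarith only [M1, k2, ht, ht.1])
    have k4 : τ (x - v) ≤ 1 + e := by
      by_contra c
      rw [sM _ fun k => c k.2] at k2
      linarith only [e0, k2, c, ht, ht.2]
    have k5 : x - (v + a) = (τ (x - v) - 1) • a := by
      have := f3 x
      rw [k1, add_zero] at this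
      rw [sub_smul, one_smul, ← add_sub_add_left_eq_sub (τ (x - v) • a) a v, ← this]
    rw [k5, norm_smul, Real.norm_of_nonneg (by linarith only [k3]), ← e1]
    exact mul_le_mul_of_nonneg_right (by linarith) na.le

end BEp
end
end

-- merged part: Pool.Agent.Work.MP_f0515e_an.D3.MVert
section
/-! The singular points are pushed out of every compact set.
Plan. mv_push_one: N = tube v w s0 inside U (tube_sub); B ∩ N is finite, so U minus the finite set (B ∩ N) minus the segment is open and contains the segment: shrink to s with tube v w (2 s) ⊆ U,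
B ∩ tube v w (2 s) ⊆ segment v w, closedBall w s ⊆ O. finger3 with δ = s, r ≤ min 1 s, Z = tube a b r ⊆ tube v w (2 s). T maps Z into Z (injective, identity off Z), so Ω into Ω. F' = F ∘ T, B' = T ⁻¹' B, which lies in
(B minus Z) ∪ T ⁻¹' (B ∩ segment), the last set finite and inside closedBall w s. Energy: ll_cpt for F and G on N, bound M of ‖F‖ + ‖G‖ on N, LL.comp, Eg_step with empty null set, tube_small.
clear_lev: induction on the number of points of B ∩ K (j+1) (Set.ncard), w from Exh.ray, U = Ω minus K j, O = complement of K (j+1). vertices3: seq_lim with P j F = exists B, Vt Ω F B and Disjoint B (K j). -/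

open Set Metric Filter Topology Function BEv MeasureTheory
open scoped NNReal ENNReal ContDiff

noncomputable section
namespace BEp

variable {Ω : Set (Rn 3)} {G F : Rn 3 → Rn 3} {B : Set (Rn 3)} {p : ℝ}

/-- Regular off the locally finite set `B`. -/
structure Vt (Ω : Set (Rn 3)) (F : Rn 3 → Rn 3) (B : Set (Rn 3)) : Prop where
  il : IL Ω F
  lf : LF Ω B
  cr : ∀ x ∈ Ω, x ∉ B → CR F x

theorem mv_push_one (hΩ : IsOpen Ω) (hp0 : 0 ≤ p) (hp : p < 2) (hG : IL Ω G) (h : Vt Ω F B)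
    {v w : Rn 3} (hne : v ≠ w) {U O : Set (Rn 3)} (hU : IsOpen U) (hs : U ⊆ Ω)
    (hv : segment ℝ v w ⊆ U) (hO : O ∈ 𝓝 w) {ε : ℝ≥0∞} (hε : ε ≠ 0) :
    ∃ F' B', Vt Ω F' B' ∧ B' ⊆ (B \ segment ℝ v w) ∪ O ∧ EqOn F' F Uᶜ ∧
      Eg p Ω G F' ≤ Eg p Ω G F + ε := by
  obtain ⟨s0, s00, h0⟩ := tube_sub hU hv
  have hA : ((B ∩ tube v w s0) \ segment ℝ v w).Finite :=
    (h.lf _ (tube_cpt v w s0) (h0.trans hs)).sdiff
  obtain ⟨s1, s10, h1⟩ := tube_sub (hU.sdiff hA.isClosed) (a := v) (b := w)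
    fun x hx => ⟨hv hx, fun k => k.2 hx⟩
  obtain ⟨s2, s20, h2⟩ := nhds_basis_closedBall.mem_iff.1 hO
  obtain ⟨s, sp, a0, a1, a2⟩ : ∃ s : ℝ, 0 < s ∧ 2 * s ≤ s0 ∧ 2 * s ≤ s1 ∧ s ≤ s2 := by
    refine ⟨min (min s0 s1 / 2) s2, by positivity, ?_, ?_, min_le_right _ _⟩
    · linarith only [min_le_left (min s0 s1 / 2) s2, min_le_left s0 s1]
    · linarith only [min_le_left (min s0 s1 / 2) s2, min_le_right s0 s1]
  have hNU : tube v w (2 * s) ⊆ U := (tube_mono v w a0).trans h0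
  have hNΩ := hNU.trans hs
  have hNB : ∀ x ∈ tube v w (2 * s), x ∈ B → x ∈ segment ℝ v w := fun x hx hb => by
    by_contra k
    exact (h1 (tube_mono v w a1 hx)).2 ⟨⟨hb, tube_mono v w a0 hx⟩, k⟩
  have hN := tube_cpt v w (2 * s)
  obtain ⟨a, b, C, hC, hab, hT⟩ := finger3 hne sp
  obtain ⟨L1, l1, k1⟩ := ll_cpt hN fun x hx => h.il.ll x (hNΩ hx)
  obtain ⟨L2, l2, k2⟩ := ll_cpt hN fun x hx => hG.ll x (hNΩ hx)
  obtain ⟨M1, m1⟩ := hN.exists_bound_of_continuousOn (h.il.continuousOn.mono hNΩ)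
  obtain ⟨M2, m2⟩ := hN.exists_bound_of_continuousOn (hG.continuousOn.mono hNΩ)
  have hC' : 0 ≤ L1 * C + L2 := by positivity
  obtain ⟨r, e1, r0, r1⟩ := ((tube_small hp0 hp a b (M := M1 + M2) hC' hε).and
    (Ioc_mem_nhdsGT (lt_min one_pos sp))).exists
  have r2 : r ≤ 1 := r1.trans (min_le_left _ _)
  have r3 : r ≤ s := r1.trans (min_le_right _ _)
  obtain ⟨T, t1, t2, t3, t4, t5⟩ := hT r ⟨r0, r2⟩
  have hZN : tube a b r ⊆ tube v w (2 * s) := by
    rintro x ⟨y, hy, k⟩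
    obtain ⟨z, hz, k'⟩ := hab hy
    refine ⟨z, hz, ?_⟩
    have := norm_sub_le_norm_sub_add_norm_sub x y z
    linarith only [r3, k, k', this]
  have hTZ : ∀ x ∈ tube a b r, T x ∈ tube a b r := fun x hx => by
    by_contra k
    exact k ((t1 (t4 _ k)).symm ▸ hx)
  have hTΩ : ∀ x ∈ Ω, T x ∈ Ω := fun x hx => by
    by_cases k : x ∈ tube a b r
    · exact hNΩ (hZN (hTZ x k))
    · rwa [t4 x k]
  have hw : ∀ x, T x ∈ segment ℝ v w → x ∈ O := fun x hx =>
    h2 (mem_closedBall_iff_norm.2 ((t5 x hx).trans a2))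
  refine ⟨fun y => F (T y), T ⁻¹' B, ⟨⟨fun x hx y hy e => t1 (h.il.inj (hTΩ x hx) (hTΩ y hy) e),
    fun x hx => ?_⟩, fun D d1 d2 => ?_, fun x hx k => (h.cr _ (hTΩ x hx) k).comp (t2 x)⟩,
    fun x hx => ?_, fun x hx => ?_, ?_⟩
  · obtain ⟨L, hL⟩ := h.il.ll _ (hTΩ x hx)
    exact ⟨_, (hL.mono (le_max_left L 0)).comp (t3.ll x) (le_max_right _ _)⟩
  · refine ((h.lf _ (d1.image t3.continuous) ?_).preimage t1.injOn).subset
      fun x hx => ⟨hx.1, x, hx.2, rfl⟩
    rintro _ ⟨x, hx, rfl⟩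
    exact hTΩ x (d2 hx)
  · by_cases k : T x ∈ segment ℝ v w
    · exact Or.inr (hw x k)
    · have k' : x ∉ tube a b r := fun j => k (hNB _ (hZN (hTZ x j)) hx)
      have hx' : T x ∈ B := hx
      rw [t4 x k'] at k hx'
      exact Or.inl ⟨hx', k⟩
  · show F (T x) = F x
    rw [t4 x fun j => hx (hNU (hZN j))]
  · refine (Eg_step hΩ hp0 (tube_cpt a b r).isClosed (N := ∅) measure_empty
      (fun x hx => by show F (T x) = F x; rw [t4 x hx.2]) (L := (L1 * C + L2) / r)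
      (M := M1 + M2) (by positivity) fun x hx _ _ => ⟨?_, ?_, ?_⟩).trans (add_le_add le_rfl e1)
    · refine ((k1 _ (hZN (hTZ x hx))).comp (t3.ll x) l1).mono ?_
      rw [← mul_div_assoc]
      exact div_le_div_of_nonneg_right (le_add_of_nonneg_right l2) r0.le
    · refine (k2 _ (hZN hx)).mono ?_
      rw [le_div_iff₀ r0]
      linarith only [l1, hC, l2, r2, mul_nonneg l1 hC, mul_nonneg_of_nonpos_of_nonpos (Mathlib.Tactic.Linarith.sub_nonpos_of_le l2) (Mathlib.Tactic.Linarith.sub_nonpos_of_le r2)]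
    · exact (norm_sub_le _ _).trans (add_le_add (m1 _ (hZN (hTZ x hx))) (m2 _ (hZN hx)))

theorem clear_lev (hΩ : IsOpen Ω) (hp0 : 0 ≤ p) (hp : p < 2) (hG : IL Ω G) {K : ℕ → Set (Rn 3)}
    (hK : Exh Ω K) {j : ℕ} (h : Vt Ω F B) (hd : Disjoint B (K j)) {ε : ℝ≥0∞} (hε : ε ≠ 0) :
    ∃ F' B', Vt Ω F' B' ∧ Disjoint B' (K (j + 1)) ∧ EqOn F' F (K j) ∧
      Eg p Ω G F' ≤ Eg p Ω G F + ε := by
  obtain ⟨m, hm⟩ : ∃ m, (B ∩ K (j + 1)).ncard ≤ m := ⟨_, le_rfl⟩
  induction m generalizing F B ε with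
  | zero =>
    have e := (ncard_eq_zero (h.lf _ (hK.cpt _) (hK.sub _))).1 (Nat.le_zero.1 hm)
    exact ⟨F, B, h, disjoint_iff_inter_eq_empty.2 e, fun _ _ => rfl, le_self_add⟩
  | succ m ih =>
    rcases (B ∩ K (j + 1)).eq_empty_or_nonempty with e | ⟨v, v1, v2⟩
    · exact ⟨F, B, h, disjoint_iff_inter_eq_empty.2 e, fun _ _ => rfl, le_self_add⟩
    have hε2 : ε / 2 ≠ 0 := (ENNReal.half_pos hε).ne'
    have hmo : K j ⊆ K (j + 1) := (hK.int j).trans interior_subset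
    obtain ⟨w, w1, w2⟩ := hK.ray j v v2 (disjoint_left.1 hd v1)
    obtain ⟨F1, B1, a1, a2, a3, a4⟩ := mv_push_one hΩ hp0 hp hG h (v := v) (w := w)
      (fun e => w1 (e ▸ v2)) (hΩ.sdiff (hK.cpt j).isClosed) sdiff_subset w2
      ((hK.cpt (j + 1)).isClosed.isOpen_compl.mem_nhds w1) hε2
    have hf := h.lf _ (hK.cpt (j + 1)) (hK.sub _)
    have hs : B1 ∩ K (j + 1) ⊆ (B ∩ K (j + 1)) \ {v} := fun x hx => by
      rcases a2 hx.1 with k | k
      · exact ⟨⟨k.1, hx.2⟩, fun e => k.2 (e ▸ left_mem_segment ℝ v w)⟩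
      · exact (k hx.2).elim
    obtain ⟨F2, B2, b1, b2, b3, b4⟩ := ih a1
      (disjoint_left.2 fun x hx k => disjoint_left.1 hd (hs ⟨hx, hmo k⟩).1.1 k) hε2 (by
        have c1 := ncard_le_ncard hs hf.sdiff
        have c2 := ncard_sdiff_singleton_lt_of_mem (s := B ∩ K (j + 1)) ⟨v1, v2⟩ hf
        omega)
    refine ⟨F2, B2, b1, b2, fun x hx => (b3 hx).trans (a3 fun k => k.2 hx), b4.trans ?_⟩
    refine (add_le_add a4 le_rfl).trans (le_of_eq ?_)
    rw [add_assoc, ENNReal.add_halves]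

theorem vertices3 (hΩ : IsOpen Ω) (hp0 : 0 ≤ p) (hp : p < 2) (hG : IL Ω G) (h : Vt Ω F B)
    {ε : ℝ≥0∞} (hε : ε ≠ 0) :
    ∃ F', IL Ω F' ∧ (∀ x ∈ Ω, CR F' x) ∧ Eg p Ω G F' ≤ Eg p Ω G F + ε := by
  obtain ⟨K, hK⟩ := exists_exh hΩ
  obtain ⟨F', a1, a2⟩ := seq_lim (p := p) (F := F) hΩ hK hG.continuousOn
    (P := fun j F => ∃ B, Vt Ω F B ∧ Disjoint B (K j))
    (fun j F ⟨_, k, _⟩ => k.il.continuousOn) ⟨B, h, by rw [hK.zero]; exact disjoint_empty _⟩
    (fun j F ⟨B, k1, k2⟩ ε hε => by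
      obtain ⟨F1, B1, b1, b2, b3, b4⟩ := clear_lev hΩ hp0 hp hG hK k1 k2 hε
      exact ⟨F1, ⟨B1, b1, b2⟩, b3.mono (hK.mono (Nat.sub_le j 1)), b4⟩) hε
  refine ⟨F', hK.il fun j => ?_, fun x hx => ?_, a1⟩
  · obtain ⟨F1, ⟨B1, b1, -⟩, b3⟩ := a2 j
    exact ⟨F1, b1.il, b3⟩
  · obtain ⟨j, hj⟩ := (hK.nhds hx).exists
    obtain ⟨F1, ⟨B1, b1, b2⟩, b3⟩ := a2 j
    exact (b1.cr x hx fun k => disjoint_left.1 b2 k
      (hK.mono (Nat.sub_le j 1) (mem_of_mem_nhds hj))).congr (b3.eventuallyEq_of_mem hj)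

end BEp
end
end
end

-- merged part: Pool.Agent.Work.MP_f0515e_an.D3.MStr2
section
/-! Germs along the edges.
Plan. AfK.cone: r from Kx.near; H u = (G (x + t u) - G x) / t with t = r / (2 (‖u‖ + 1)); for y in ball x r and s in [0,1], G (x + s (y - x)) = G x + s (G y - G x) since G is affine on the convex closure (cell y).
AfK.germ: m the midpoint, H from cone at m. Lz, Xp: scale a pair of points into the neighbourhood given by LL and EX (ltp_il, ltp_ex). eqv: scale into the neighbourhood of AfK.alg at m (b - a lies in the vectorSpan of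
the open segment), H (t v) = t A v for small t of both signs. For x = seg a b z + u in the lens with ρ = r: λ = 2 z (1 - z), y = m + u / λ is in ball m r, x = (1 - z - λ/2) a + (z - λ/2) b + λ y; a, b are in
closure (cell y) (Kx.front, Edge.cl), x is in cell y (Kx.seg_mem), G x = (1 - z) G a + z G b + H u = G a + H (x - a) by eqv and H (b - a) = G b - G a.
exists_sd: B = K.sk 0; S = one pair (a,b) chosen for each σ in K.cel 1 (dm_one); ρ = a third of the ρ of germ. A point of sk 1 in the big lens of e lies on the open segment (dm_lt). If x is in two small lenses, at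
distance less than s from y on e and s' from y' on e', s' ≤ s, then ‖y' - y‖ < 2 s, so y' is in the big lens of e and the open segments meet (Kx.disj). Local finiteness: Kx.cover, faces_finite, KA2_fib. -/

open Set Metric Filter Topology Function BEv MeasureTheory
open scoped NNReal ENNReal ContDiff

noncomputable section
namespace BEp

variable {Ω : Set (Rn 3)} {G : Rn 3 → Rn 3} {K : Kx Ω} {x a b : Rn 3}

theorem MStr2_aff (h : AfK K G) {y z : Rn 3} (hy : y ∈ Ω) (hx : x ∈ closure (K.cell y))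
    (hz : z ∈ closure (K.cell y)) {s : ℝ} (hs : s ∈ Icc (0 : ℝ) 1) :
    G (x + s • (z - x)) = G x + s • (G z - G x) := by
  obtain ⟨A, c, hA⟩ := h y hy
  rw [hA _ ((K.cvx y hy).closure.add_smul_sub_mem hx hz hs), hA _ hx, hA _ hz, map_add, map_smul,
    map_sub]
  module

theorem MStr2_hom {D : Rn 3 → Rn 3} {r : ℝ} (hr : 0 < r)
    (h : ∀ u, ‖u‖ < r → ∀ s ∈ Icc (0 : ℝ) 1, D (s • u) = s • D u) :
    ∃ H : Rn 3 → Rn 3, Hmg H ∧ ∀ u, ‖u‖ < r → H u = D u := by
  have k1 : ∀ (u : Rn 3) (t t' : ℝ), 0 < t → t ≤ t' → ‖t' • u‖ < r →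
      t⁻¹ • D (t • u) = t'⁻¹ • D (t' • u) := by
    intro u t t' ht htt hu
    have ht' : 0 < t' := ht.trans_le htt
    have := h _ hu (t / t') ⟨by positivity, (div_le_one ht').2 htt⟩
    rw [smul_smul, div_mul_cancel₀ _ ht'.ne'] at this
    rw [this, smul_smul]
    congr 1
    field_simp
  have k2 : ∀ (u : Rn 3) (t t' : ℝ), 0 < t → 0 < t' → ‖t • u‖ < r → ‖t' • u‖ < r →
      t⁻¹ • D (t • u) = t'⁻¹ • D (t' • u) := fun u t t' ht ht' hu hu' =>
    (le_total t t').elim (fun c => k1 u t t' ht c hu') fun c => (k1 u t' t ht' c hu).symm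
  choose τ h1 h2 using fun u : Rn 3 => KA3_small u hr
  have k3 : ∀ u, ‖u‖ < r → (τ u)⁻¹ • D (τ u • u) = D u := fun u hu => by
    simpa using k2 u (τ u) 1 (h1 u) one_pos (h2 u) (by simpa using hu)
  refine ⟨fun u => (τ u)⁻¹ • D (τ u • u), fun t u ht => ?_, k3⟩
  rcases ht.eq_or_lt with rfl | ht
  · have := h 0 (by simpa using hr) 0 ⟨le_rfl, zero_le_one⟩
    simp only [zero_smul, smul_zero] at this ⊢
    rw [this, smul_zero]
  · have := k2 u (τ (t • u) * t) (τ u) (mul_pos (h1 _) ht) (h1 u) (by rw [mul_smul]; exact h2 _)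
      (h2 u)
    have h3 := (h1 (t • u)).ne'
    simp only
    rw [← this, smul_smul t, smul_smul]
    congr 1
    field_simp

theorem MStr2_sc {P : Rn 3 × Rn 3 → Prop} (h : ∀ᶠ q in 𝓝 (x, x), P q) (u u' : Rn 3) :
    ∀ᶠ t in 𝓝[>] (0 : ℝ), P (x + t • u, x + t • u') := by
  have : Continuous fun t : ℝ => (x + t • u, x + t • u') := by fun_prop
  exact ((this.tendsto' 0 (x, x) (by simp)).mono_left nhdsWithin_le_nhds).eventually h



theorem AfK.cone (h : AfK K G) (hΩ : IsOpen Ω) (hx : x ∈ Ω) : ∃ (r : ℝ) (H : Rn 3 → Rn 3),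
    0 < r ∧ Hmg H ∧ ∀ y ∈ ball x r, y ∈ Ω ∧ x ∈ closure (K.cell y) ∧ G y = G x + H (y - x) := by
  obtain ⟨r, hr, hb⟩ := eventually_nhds_iff_ball.1 (Kx.near (K := K) hΩ hx)
  obtain ⟨H, h1, h2⟩ := MStr2_hom (D := fun u => G (x + u) - G x) hr fun u hu s hs => by
    obtain ⟨k1, k2⟩ := hb (x + u) (by simpa using hu)
    have := MStr2_aff h k1 k2 (subset_closure (K.mem _ k1)) hs
    rw [add_sub_cancel_left] at this
    simp only [this, add_sub_cancel_left]
  refine ⟨r, H, hr, h1, fun y hy => ⟨(hb y hy).1, (hb y hy).2, ?_⟩⟩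
  rw [h2 _ (mem_ball_iff_norm.1 hy)]
  simp

theorem AfK.germ (h : AfK K G) (hΩ : IsOpen Ω) (ht : LTP Ω G) (hi : InjOn G Ω) (he : K.Edge a b) :
    ∃ (ρ : ℝ) (H : Rn 3 → Rn 3), 0 < ρ ∧ EGm H (b - a) ∧
      (∀ x ∈ lens a b ρ, x ∈ Ω ∧ segment ℝ a b ⊆ closure (K.cell x)) ∧
      ∀ x, x ∈ lens a b ρ ∨ x = b → G x = G a + H (x - a) := by
  set m := seg a b (1 / 2) with hmd
  have hm : m ∈ openSegment ℝ a b := seg_image_open a b ▸ mem_image_of_mem _ (by norm_num)
  have hmΩ : m ∈ Ω := Kx.cells_sub he.2 hm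
  have hc : K.cell m = openSegment ℝ a b := Kx.cell_eq he.2 hm
  have ha : a ∈ closure (K.cell m) := by rw [hc, he.cl]; exact left_mem_segment ℝ a b
  have hb : b ∈ closure (K.cell m) := by rw [hc, he.cl]; exact right_mem_segment ℝ a b
  obtain ⟨r, H, hr, h1, h2⟩ := h.cone hΩ hmΩ
  have k0 : ∀ u u' : Rn 3, ∀ᶠ t in 𝓝[>] (0 : ℝ), 0 < t ∧
      G (m + t • u) - G (m + t • u') = t • (H u - H u') := by
    intro u u'
    filter_upwards [self_mem_nhdsWithin, MStr2_sc (P := fun q => q ∈ ball m r ×ˢ ball m r)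
      (prod_mem_nhds (ball_mem_nhds m hr) (ball_mem_nhds m hr)) u u'] with t ht k
    refine ⟨ht, ?_⟩
    rw [(h2 _ k.1).2.2, (h2 _ k.2).2.2, add_sub_cancel_left, add_sub_cancel_left,
      h1 t u (le_of_lt ht), h1 t u' (le_of_lt ht)]
    module
  have k1 : ∀ (u u' : Rn 3) (t : ℝ), m + t • u - (m + t • u') = t • (u - u') := fun u u' t => by
    module
  have H0 : H 0 = 0 := by simpa using h1 0 0 le_rfl
  obtain ⟨L, hL⟩ := (ltp_il hΩ ht hi).ll m hmΩ
  obtain ⟨c, hc0, hX⟩ := ltp_ex hΩ ht hi hmΩ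
  obtain ⟨A, hA⟩ := h.alg hΩ hmΩ
  have k2 : ∀ (u : Rn 3) (s : ℝ), H (u + s • (b - a)) - H u = s • A (b - a) := by
    intro u s
    obtain ⟨t, ⟨t0, e1⟩, e2⟩ := ((k0 (u + s • (b - a)) u).and
      (MStr2_sc hA (u + s • (b - a)) u)).exists
    simp only [k1, e1, add_sub_cancel_left, map_smul] at e2
    exact smul_right_injective _ t0.ne'
      (e2 (Submodule.smul_mem _ _ (Submodule.smul_mem _ _ (Kx.sub_mem_span ha hb))))
  have k3 : ∀ (u : Rn 3) (s : ℝ), H (u + s • (b - a)) = H u + s • H (b - a) := by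
    intro u s
    have := k2 0 1
    rw [zero_add, one_smul, one_smul, H0, sub_zero] at this
    rw [this, ← k2 u s, add_sub_cancel]
  have k4 : H (b - a) = G b - G a := by
    obtain ⟨t, ⟨t0, e1⟩, t1⟩ := ((k0 (b - a) 0).and
      (Ioo_mem_nhdsGT (show (0 : ℝ) < 1 / 2 by norm_num))).exists
    have e2 := MStr2_aff h hmΩ ha hb (s := 1 / 2 + t) ⟨by linarith only [t1], by linarith only [t1, t1.2]⟩
    have e3 := MStr2_aff h hmΩ ha hb (s := 1 / 2) ⟨by norm_num, by norm_num⟩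
    rw [smul_zero, add_zero, H0, sub_zero, hmd, seg, add_assoc, ← add_smul, e2, e3] at e1
    refine smul_right_injective _ t0.ne' ?_
    simp only
    rw [← e1]
    module
  have k5 : ∀ x ∈ lens a b r, (x ∈ Ω ∧ segment ℝ a b ⊆ closure (K.cell x)) ∧
      G x = G a + H (x - a) := by
    rintro x ⟨z, ⟨z0, z1⟩, hz⟩
    have l0 : 0 < z * (1 - z) := mul_pos z0 (sub_pos.2 z1)
    have l1 : 0 < 1 - 2 * (z * (1 - z)) := by linarith only [l0, sq_nonneg (1 - 2 * z), sq_nonneg ((1 : ℝ) - (2 : ℝ) * z)]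
    obtain ⟨u, rfl⟩ : ∃ u, x = seg a b z + (2 * (z * (1 - z))) • u :=
      ⟨(2 * (z * (1 - z)))⁻¹ • (x - seg a b z), by rw [smul_inv_smul₀ (by positivity)]; abel⟩
    rw [add_sub_cancel_left, norm_smul, Real.norm_of_nonneg (by positivity)] at hz
    obtain ⟨y1, y2, y3⟩ := h2 (m + u) (by
      rw [mem_ball_iff_norm, add_sub_cancel_left]
      (refine lt_of_not_ge fun h_nl => ?_; linarith only [h_nl, hr, l0, z0, hz, z1, norm_nonneg u, mul_pos_of_neg_of_neg (Mathlib.Tactic.Linarith.sub_neg_of_lt hr) (Mathlib.Tactic.Linarith.sub_neg_of_lt l0), mul_pos_of_neg_of_neg (Mathlib.Tactic.Linarith.sub_neg_of_lt z0) (Mathlib.Tactic.Linarith.sub_neg_of_lt hz), mul_pos_of_neg_of_neg (Mathlib.Tactic.Linarith.sub_neg_of_lt z1) (Mathlib.Tactic.Linarith.sub_neg_of_lt hz), mul_nonneg_of_nonpos_of_nonpos (le_of_lt (Mathlib.Tactic.Linarith.sub_neg_of_lt l0)) (Mathlib.Tactic.Linarith.sub_nonpos_of_le h_nl)]))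
    have hy := K.cell_mem y1
    have s1 : segment ℝ a b ⊆ closure (K.cell (m + u)) := by
      rw [← he.cl]
      exact closure_minimal (Kx.front he.2 hy ⟨m, hm, y2⟩) isClosed_closure
    have s2 : seg a b (z ^ 2 / (1 - 2 * (z * (1 - z)))) ∈ segment ℝ a b :=
      seg_image a b ▸ mem_image_of_mem _
        ⟨by positivity, (div_le_one l1).2 (by linarith only [sq_nonneg (1 - z), sq_nonneg ((1 : ℝ) - z)])⟩
    have s3 := Kx.seg_mem hy (s1 s2) (K.mem _ y1) (t := 2 * (z * (1 - z)))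
      ⟨by positivity, by linarith⟩
    have s4 : seg a b (z ^ 2 / (1 - 2 * (z * (1 - z)))) + (2 * (z * (1 - z))) •
        (m + u - seg a b (z ^ 2 / (1 - 2 * (z * (1 - z))))) =
        seg a b z + (2 * (z * (1 - z))) • u := by
      have hw := div_mul_cancel₀ (z ^ 2) l1.ne'
      generalize z ^ 2 / (1 - 2 * (z * (1 - z))) = w at hw
      simp only [hmd, seg]
      match_scalars
      · linear_combination (-1) * hw
      · linear_combination hw
      · ring
    rw [s4] at s3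
    refine ⟨⟨Kx.cells_sub hy s3, by rwa [Kx.cell_eq hy s3]⟩, ?_⟩
    obtain ⟨A', c', hA'⟩ := h _ y1
    rw [add_sub_cancel_left, hA' _ (subset_closure (K.mem _ y1)), hA' _ y2, map_add] at y3
    have e1 : H u = A' u := by
      rw [← sub_eq_zero, ← sub_eq_zero.2 y3.symm]
      abel
    have e2 : seg a b z + (2 * (z * (1 - z))) • u - a = (2 * (z * (1 - z))) • u + z • (b - a) := by
      rw [seg]
      abel
    rw [e2, k3, k4, h1 _ _ (by positivity), e1, hA' _ (subset_closure s3),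
      hA' _ (s1 (left_mem_segment ℝ a b)), hA' _ (s1 (right_mem_segment ℝ a b)), seg]
    simp only [map_add, map_smul, map_sub]
    module
  refine ⟨r, H, hr, ⟨sub_ne_zero.2 he.1.symm, h1, ⟨L, fun u u' => ?_⟩, ⟨c, hc0, fun u u' => ?_⟩,
    k3⟩, fun x hx => (k5 x hx).1, ?_⟩
  · obtain ⟨t, ⟨t0, e1⟩, e2⟩ := ((k0 u u').and (MStr2_sc hL u u')).exists
    simp only [k1, e1, norm_smul, Real.norm_of_nonneg t0.le] at e2
    exact le_of_mul_le_mul_left (by linarith only [e2]) t0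
  · obtain ⟨t, ⟨t0, e1⟩, e2⟩ := ((k0 u u').and (MStr2_sc hX u u')).exists
    simp only [k1, e1, norm_smul, Real.norm_of_nonneg t0.le] at e2
    exact le_of_mul_le_mul_left (by linarith) t0
  · rintro x (hx | rfl)
    · exact (k5 x hx).2
    · rw [k4, add_sub_cancel]

theorem exists_sd (hΩ : IsOpen Ω) (ht : LTP Ω G) (hi : InjOn G Ω) : Nonempty (Sd Ω G) := by
  obtain ⟨K, hK⟩ := exists_afk hΩ ht
  have h0 : ∀ σ ∈ K.cel 1, ∃ e : Rn 3 × Rn 3, K.Edge e.1 e.2 ∧ σ = openSegment ℝ e.1 e.2 :=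
    fun σ hσ => let ⟨a, b, k⟩ := Kx.dm_one hσ.1 hσ.2; ⟨(a, b), k⟩
  choose! ed h1 h2 using h0
  choose! ρ H h3 h4 h5 h6 using fun (e : Rn 3 × Rn 3) (he : K.Edge e.1 e.2) =>
    hK.germ hΩ ht hi he
  have hS : ∀ e ∈ ed '' K.cel 1, K.Edge e.1 e.2 := by
    rintro _ ⟨σ, hσ, rfl⟩
    exact h1 σ hσ
  have hl : ∀ e ∈ ed '' K.cel 1, lens e.1 e.2 (ρ e / 3) ⊆ lens e.1 e.2 (ρ e) := fun e he =>
    lens_mono _ _ (by linarith only [h3, hS, he, h3 e (hS e he)])
  have ho : ∀ e : Rn 3 × Rn 3, K.Edge e.1 e.2 → ∀ x ∈ lens e.1 e.2 (ρ e),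
      openSegment ℝ e.1 e.2 ⊆ closure (K.cell x) := fun e he x hx =>
    (openSegment_subset_segment ℝ _ _).trans (h5 e he x hx).2
  have key : ∀ e e' : Rn 3 × Rn 3, K.Edge e.1 e.2 → K.Edge e'.1 e'.2 → ∀ (x : Rn 3) (z z' : ℝ),
      z ∈ Ioo (0 : ℝ) 1 → z' ∈ Ioo (0 : ℝ) 1 → ‖x - seg e.1 e.2 z‖ < ρ e / 3 * (z * (1 - z)) →
      ‖x - seg e'.1 e'.2 z'‖ < ρ e / 3 * (z * (1 - z)) →
      openSegment ℝ e.1 e.2 = openSegment ℝ e'.1 e'.2 := by
    intro e e' he he' x z z' hz hz' k k'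
    have m1 : seg e'.1 e'.2 z' ∈ lens e.1 e.2 (ρ e) := by
      refine ⟨z, hz, ?_⟩
      have := norm_sub_le (x - seg e.1 e.2 z) (x - seg e'.1 e'.2 z')
      rw [sub_sub_sub_cancel_left] at this
      linarith only [k, k', this, norm_nonneg (x - seg e.1 e.2 z)]
    have m2 := ho e he _ m1
    rw [Kx.cell_eq he'.2 (seg_image_open e'.1 e'.2 ▸ mem_image_of_mem _ hz')] at m2
    by_contra c
    have := Kx.dm_lt he'.2 he.2 m2 c
    rw [he.dm, he'.dm] at this
    exact lt_irrefl _ this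
  refine ⟨⟨ed '' K.cel 1, fun e => ρ e / 3, K.sk 0, fun e he => by linarith [h3 e (hS e he)],
    fun e he => ?_, fun e he x hx => ?_, ?_, fun C hC hs => ?_, fun C hC hs => ?_,
    fun e he => ⟨H e, h4 e (hS e he), fun x hx => h6 e (hS e he) x (hx.imp_left fun k => hl e he k)⟩,
    fun x hx hB hx' => hK.cr hΩ ht hi hx ?_⟩⟩
  · have k := (hS e he).left
    have k' := (hS e he).right
    exact ⟨⟨k.1, k.1, by rw [k.2, KA2_single]⟩, k'.1, k'.1, by rw [k'.2, KA2_single]⟩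
  · refine ⟨(h5 e (hS e he) x (hl e he hx)).1, fun k => ?_⟩
    have := dm_mono (ho e (hS e he) x (hl e he hx))
    rw [(hS e he).dm, dm_closure] at this
    exact absurd (this.trans k.2) (by norm_num)
  · rintro _ ⟨σ, hσ, rfl⟩ _ ⟨τ, hτ, rfl⟩ hne
    refine disjoint_left.2 ?_
    rintro x ⟨z, hz, k⟩ ⟨z', hz', k'⟩
    refine hne (congrArg ed ?_)
    rw [h2 σ hσ, h2 τ hτ]
    rcases le_total (ρ (ed τ) / 3 * (z' * (1 - z'))) (ρ (ed σ) / 3 * (z * (1 - z))) with c | c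
    · exact key _ _ (h1 σ hσ) (h1 τ hτ) x z z' hz hz' k (k'.trans_le c)
    · exact (key _ _ (h1 τ hτ) (h1 σ hσ) x z' z hz' hz k' (k.trans_le c)).symm
  · refine ((Kx.cover (K := K) hC hs).biUnion fun σ hσ => (Kx.faces_finite hσ.1).biUnion
      fun τ _ => K.KA2_fib τ).subset ?_
    rintro e ⟨he, x, hx, hxC⟩
    exact mem_biUnion (x := K.cell x) ⟨K.cell_mem (hs hxC), x, K.mem x (hs hxC), hxC⟩
      (mem_biUnion (x := openSegment ℝ e.1 e.2) ⟨(hS e he).2, ho e (hS e he) x (hl e he hx)⟩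
        ⟨hS e he, rfl⟩)
  · refine Finite.of_finite_image (f := K.cell)
      ((K.lf C hC hs).subset (image_mono inter_subset_right)) fun x hx y hy e => ?_
    obtain ⟨c, hc⟩ := (Kx.dm_zero (K.cell_mem hx.1.1)).1 (Nat.le_zero.1 hx.1.2)
    have k1 := K.mem x hx.1.1
    have k2 := K.mem y hy.1.1
    rw [← e, hc] at k2
    rw [hc] at k1
    exact k1.trans k2.symm
  · by_contra c
    have c0 : ¬ dm (K.cell x) ≤ 0 := fun k => hB ⟨hx, k⟩
    have hσ : K.cell x ∈ K.cel 1 := ⟨K.cell_mem hx, by omega⟩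
    exact hx' _ (mem_image_of_mem ed hσ) (h2 _ hσ ▸ K.mem x hx)

end BEp
end
end

-- merged part: Pool.Agent.Work.MP_f0515e_an.P3.VEdges1
section
-- merged part: Pool.Agent.Work.MP_f0515e_an.P3.VCal
section
/-! Calculus for the smoothing of vertices. -/

open Set Metric Filter Topology Function BEv MeasureTheory
open scoped NNReal ENNReal ContDiff

noncomputable section
namespace BEp

section General
variable {E F G : Type} [NormedAddCommGroup E] [NormedSpace ℝ E] [NormedAddCommGroup F]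
  [NormedSpace ℝ F] [NormedAddCommGroup G] [NormedSpace ℝ G]

/-- Homogeneous near `v`. -/
def HomN (f : E → F) (v : E) : Prop :=
  ∃ r : ℝ, 0 < r ∧ ∀ y, ‖y‖ ≤ r → ∀ t ∈ Icc (0 : ℝ) 1, f (v + t • y) - f v = t • (f (v + y) - f v)

/-- Affine near `x`. -/
def AfN (f : E → F) (x : E) : Prop := ∃ (A : E →L[ℝ] F) (b : F), ∀ᶠ y in 𝓝 x, f y = A y + b

/-- Germ at a vertex. -/
def VG (f : E → F) (v : E) : Prop := HomN f v ∧ ∃ᶠ x in 𝓝[≠] v, AfN f x

variable {f g : E → F} {x : E}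

theorem SI.congr (h : SI f x) (e : g =ᶠ[𝓝 x] f) : SI g x := by
  obtain ⟨A, hA, k⟩ := h
  exact ⟨A, hA.congr_of_eventuallyEq e.symm, k⟩

theorem SI.cr (h : SI f x) : CR f x := CR.comp (k := fun y => y) (CR.id' _) h

theorem SI.id' (x : E) : SI (fun y : E => y) x :=
  ⟨ContinuousLinearMap.id ℝ E, hasStrictFDerivAt_id x, 1, one_pos, fun ξ => by simp⟩

theorem SI.comp {k : F → G} (hk : SI k (f x)) (h : SI f x) : SI (fun y => k (f y)) x := by
  obtain ⟨A, hA, a, a0, ha⟩ := h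
  obtain ⟨B, hB, b, b0, hb⟩ := hk
  refine ⟨B.comp A, hB.comp x hA, b * a, mul_pos b0 a0, fun ξ => ?_⟩
  rw [mul_assoc]
  exact (mul_le_mul_of_nonneg_left (ha ξ) b0.le).trans (hb _)

theorem SI.inj (h : SI f x) : DifferentiableAt ℝ f x ∧ Injective (fderiv ℝ f x) := by
  obtain ⟨c, c0, hc⟩ := h.cr.ex
  obtain ⟨A, hA, -⟩ := h
  exact ⟨hA.hasFDerivAt.differentiableAt, hc.inj c0 hA.hasFDerivAt.differentiableAt.hasFDerivAt⟩

theorem si_of_inj [FiniteDimensional ℝ E] (h : ContDiffAt ℝ 1 f x) (hi : Injective (fderiv ℝ f x)) :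
    SI f x := by
  obtain ⟨K, K0, hK⟩ := (fderiv ℝ f x).toLinearMap.exists_antilipschitzWith
    (LinearMap.ker_eq_bot.2 hi)
  refine ⟨_, h.hasStrictFDerivAt one_ne_zero, (K : ℝ)⁻¹, inv_pos.2 K0, fun ξ => ?_⟩
  have := hK.le_mul_dist ξ 0
  rw [inv_mul_le_iff₀ (show (0 : ℝ) < K from K0)]
  simpa using this

theorem si_of_inv [FiniteDimensional ℝ E] {k : F → E} (h : ContDiffAt ℝ 1 f x)
    (hk : DifferentiableAt ℝ k (f x)) (e : ∀ᶠ y in 𝓝 x, k (f y) = y) : SI f x := by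
  refine si_of_inj h (Injective.of_comp (f := fderiv ℝ k (f x)) ?_)
  have h1 := (hk.hasFDerivAt.comp x (h.differentiableAt one_ne_zero).hasFDerivAt).unique
    ((hasFDerivAt_id x).congr_of_eventuallyEq e)
  intro a b hab
  have := congrArg (fun L : E →L[ℝ] E => (L a, L b)) h1
  simp only [ContinuousLinearMap.comp_apply, ContinuousLinearMap.id_apply, Prod.mk.injEq] at this
  rw [← this.1, ← this.2]
  exact hab

theorem CR.postSI [FiniteDimensional ℝ F] {k : F → F} (h : CR f x) (hk : SI k (f x)) :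
    CR (fun y => k (f y)) x := by
  obtain ⟨L', hL'⟩ := hk.ll
  obtain ⟨L, hL⟩ := h.1
  have hL := hL.mono (le_max_left L 1)
  set M := max L 1
  have M0 : 0 < M := lt_max_of_lt_right one_pos
  have hi := hk.inj.2
  obtain ⟨A, hA, -⟩ := hk
  rw [hA.hasFDerivAt.fderiv] at hi
  obtain ⟨-, c, c0, ℓ, h1, h2⟩ := h.post
    (LinearEquiv.ofInjectiveEndo A.toLinearMap hi).toContinuousLinearEquiv 0
  refine ⟨⟨_, (hL'.mono (le_max_left L' 0)).comp hL (le_max_right _ _)⟩, c / 2, half_pos c0, ℓ, h1,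
    ?_⟩
  have t : Tendsto (fun p : E × E => (f p.1, f p.2)) (𝓝 (x, x)) (𝓝 (f x, f x)) :=
    (hL.continuousAt.tendsto.comp (continuous_fst.tendsto (x, x))).prodMk_nhds
      (hL.continuousAt.tendsto.comp (continuous_snd.tendsto (x, x)))
  filter_upwards [h2, hL, t.eventually (MCR_str hA (δ := c / 2 / M) (by positivity))]
    with p k1 k2 k3
  have k4 := MCR_le (h1 (p.1 - p.2)) (k (f p.1) - k (f p.2) - A (f p.1 - f p.2))
  have k5 : c / 2 / M * ‖f p.1 - f p.2‖ ≤ c / 2 * ‖p.1 - p.2‖ := by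
    refine (mul_le_mul_of_nonneg_left k2 (by positivity)).trans_eq ?_
    field_simp
  have k6 : c * ‖p.1 - p.2‖ ≤ ℓ (p.1 - p.2) (A (f p.1 - f p.2)) := by
    rw [add_zero, add_zero, ← map_sub] at k1
    exact k1
  rw [map_sub] at k4
  linarith only [k3, k5, k6, k4, (abs_le.1 k4).1]

theorem _root_.BEv.LL.smul' {χ : E → ℝ} (hχ : ∃ L, LL χ x L) (h : ∃ L, LL f x L) :
    ∃ L, LL (fun y => χ y • f y) x L := by
  obtain ⟨A, hA⟩ := hχ
  obtain ⟨L, hL⟩ := h
  have c : ContDiffAt ℝ 1 (fun q : ℝ × F => q.1 • q.2) (χ x, f x) :=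
    contDiffAt_fst.smul contDiffAt_snd
  have d := c.hasStrictFDerivAt one_ne_zero
  have l : LL (fun q : ℝ × F => q.1 • q.2) (χ x, f x)
      (‖fderiv ℝ (fun q : ℝ × F => q.1 • q.2) (χ x, f x)‖ + 1) :=
    (MCR_str d one_pos).mono fun p hp => by
      have := norm_le_norm_add_norm_sub' (p.1.1 • p.1.2 - p.2.1 • p.2.2)
        (fderiv ℝ (fun q : ℝ × F => q.1 • q.2) (χ x, f x) (p.1 - p.2))
      have := (fderiv ℝ (fun q : ℝ × F => q.1 • q.2) (χ x, f x)).le_opNorm (p.1 - p.2)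
      linarith
  exact ⟨_, LL.comp (f := fun y => (χ y, f y)) l
    ((hA.mono (le_max_left A L)).prod (hL.mono (le_max_right A L))) (by positivity)⟩

theorem ll_of_c1 (h : ContDiffAt ℝ 1 f x) : ∃ L, LL f x L := by
  have d := h.hasStrictFDerivAt one_ne_zero
  refine ⟨‖fderiv ℝ f x‖ + 1, (MCR_str d one_pos).mono fun p hp => ?_⟩
  have := norm_le_norm_add_norm_sub' (f p.1 - f p.2) (fderiv ℝ f x (p.1 - p.2))
  have := (fderiv ℝ f x).le_opNorm (p.1 - p.2)
  linarith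

/-- Triangular maps. -/
theorem tri_map [FiniteDimensional ℝ E] {a : E → ℝ} (e : E) (ha : ContDiff ℝ 1 a)
    (h : ∀ y, -1 < fderiv ℝ a y e) :
    Injective (fun y => y + a y • e) ∧ ∀ y, SI (fun y => y + a y • e) y := by
  have hd : ∀ y, HasFDerivAt a (fderiv ℝ a y) y := fun y =>
    (ha.differentiable one_ne_zero y).hasFDerivAt
  refine ⟨fun y z k => ?_, fun y => si_of_inj (contDiff_id.add (ha.smul contDiff_const)).contDiffAt
    ?_⟩
  · have e1 : z = y + (a y - a z) • e := by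
      rw [sub_smul, ← add_sub_assoc, show y + a y • e = z + a z • e from k, add_sub_cancel_right]
    have m : StrictMono fun t : ℝ => t + a (y + t • e) := by
      refine strictMono_of_hasDerivAt_pos (f' := fun t => 1 + fderiv ℝ a (y + t • e) e)
        (fun t => (hasDerivAt_id t).add ((hd _).comp_hasDerivAt t ?_)) fun t => by
          linarith [h (y + t • e)]
      simpa using ((hasDerivAt_id t).smul_const e).const_add y
    have := m.injective (a₁ := a y - a z) (a₂ := 0) (by simp [← e1])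
    rw [e1, this, zero_smul, add_zero]
  · rw [show fderiv ℝ (fun y => y + a y • e) y = _ from
      ((hasFDerivAt_id y).add ((hd y).smul_const e)).fderiv]
    refine (injective_iff_map_eq_zero _).2 fun v hv => ?_
    have e1 : v = -(fderiv ℝ a y v) • e := by
      rw [neg_smul]
      exact eq_neg_of_add_eq_zero_left (by simpa using hv)
    have e2 := congrArg (fderiv ℝ a y) e1
    rw [map_smul, smul_eq_mul] at e2
    have e3 : fderiv ℝ a y v = 0 := by
      by_contra q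
      have : fderiv ℝ a y v * (1 + fderiv ℝ a y e) = 0 := by linarith only [e2]
      exact (mul_ne_zero q (by linarith [h y])) this
    rw [e1, e3, neg_zero, zero_smul]

theorem HomN.congr (h : HomN f x) (e : g =ᶠ[𝓝 x] f) : HomN g x := by
  obtain ⟨r, r0, hr⟩ := h
  obtain ⟨s, s0, hs⟩ := nhds_basis_closedBall.eventually_iff.1 e
  have k : ∀ y, ‖y‖ ≤ s → g (x + y) = f (x + y) := fun y hy => hs (by simpa using hy)
  refine ⟨min r s, lt_min r0 s0, fun y hy t ht => ?_⟩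
  rw [k y (hy.trans (min_le_right _ _)), k, e.eq_of_nhds, hr y (hy.trans (min_le_left _ _)) t ht]
  rw [norm_smul, Real.norm_of_nonneg ht.1]
  exact (mul_le_of_le_one_left (norm_nonneg _) ht.2).trans (hy.trans (min_le_right _ _))

theorem AfN.congr (h : AfN f x) (e : g =ᶠ[𝓝 x] f) : AfN g x := by
  obtain ⟨A, b, k⟩ := h
  exact ⟨A, b, (e.and k).mono fun y hy => hy.1.trans hy.2⟩

theorem AfN.eventually (h : AfN f x) : ∀ᶠ y in 𝓝 x, AfN f y := by
  obtain ⟨A, b, k⟩ := h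
  exact k.eventually_nhds.mono fun y hy => ⟨A, b, hy⟩

theorem VG.congr (h : VG f x) (e : g =ᶠ[𝓝 x] f) : VG g x :=
  ⟨h.1.congr e, (h.2.and_eventually (nhdsWithin_le_nhds e.eventually_nhds)).mono
    fun _ k => k.1.congr k.2⟩

end General

/-- Gluing of two injective maps which agree with a third one on overlapping regions. -/
theorem glue_inj {X Y : Type} {f u θ : X → Y} {h : X → ℝ} {a b c : ℝ} (hf : Injective f)
    (hθ : Injective θ) (ab : a ≤ b) (bc : b ≤ c) (h1 : ∀ x, h x ≤ c → f x = u x)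
    (h2 : ∀ x, a ≤ h x → θ x = u x) (h3 : ∀ x, θ x ∈ range u) :
    Injective fun x => if b ≤ h x then f x else θ x := by
  have key : ∀ x x', b ≤ h x → ¬ b ≤ h x' → f x ≠ θ x' := fun x x' k k' e => by
    obtain ⟨y, hy⟩ := h3 x'
    by_cases q : a ≤ h y
    · have e1 : y = x' := hθ ((h2 y q).trans hy)
      have e2 : x = y := hf (by rw [e, h1 y (by rw [e1]; linarith), hy])
      exact k' (by rwa [← e1, ← e2])
    · have e2 : x = y := hf (by rw [e, h1 y (by linarith), hy])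
      exact q (by rw [← e2]; linarith)
  intro x y e
  by_cases k : b ≤ h x <;> by_cases k' : b ≤ h y <;> simp only [k, k', if_true, if_false] at e
  exacts [hf e, absurd e (key x y k k'), absurd e.symm (key y x k' k), hθ e]

/-- Slow cut off functions. -/
theorem slow_cut (M : ℝ) : ∃ (χ : ℝ → ℝ) (T : ℝ), 0 < T ∧ ContDiff ℝ ∞ χ ∧
    (∀ s, χ s ∈ Icc (0 : ℝ) 1) ∧ (∀ s, s ≤ 0 → χ s = 1) ∧ (∀ s, T ≤ s → χ s = 0) ∧
    ∀ s, |deriv χ s| * M < 1 := by
  obtain ⟨K, K0, hK⟩ := MMod_st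
  obtain ⟨T, hT⟩ : ∃ T, T = K * |M| + 1 := ⟨_, rfl⟩
  have T0 : 0 < T := by rw [hT]; positivity
  refine ⟨fun s => Real.smoothTransition (1 - s / T), T, T0,
    Real.smoothTransition.contDiff.comp (by fun_prop), fun s =>
    ⟨Real.smoothTransition.nonneg _, Real.smoothTransition.le_one _⟩, fun s hs =>
    Real.smoothTransition.one_of_one_le (by linarith only [hs, T0, div_nonpos_of_nonpos_of_nonneg hs T0.le]),
    fun s hs => Real.smoothTransition.zero_of_nonpos (by linarith only [T0, hs, (one_le_div T0).2 hs]),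
    fun s => ?_⟩
  have h1 : ‖deriv (fun s => Real.smoothTransition (1 - s / T)) s‖ ≤ K / T := by
    refine norm_deriv_le_of_lip' (by positivity) (Eventually.of_forall fun y => ?_)
    refine (hK _ _).trans_eq ?_
    rw [show 1 - y / T - (1 - s / T) = -(y - s) / T by ring, abs_div, abs_neg, abs_of_pos T0,
      Real.norm_eq_abs]
    ring
  have h2 : K / T * |M| < 1 := by
    rw [div_mul_eq_mul_div, div_lt_one T0, hT]
    exact lt_add_one _
  calc _ ≤ |deriv (fun s => Real.smoothTransition (1 - s / T)) s| * |M| := by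
        gcongr
        exact le_abs_self M
    _ ≤ K / T * |M| := by
        gcongr
        exact h1
    _ < 1 := h2

/-- Continuous logarithm. -/
theorem cont_log {X : Type} [NormedAddCommGroup X] [NormedSpace ℝ X] {f : X → ℂ}
    (hf : Continuous f) (h0 : ∀ x, f x ≠ 0) :
    ∃ g : X → ℂ, Continuous g ∧ ∀ x, Complex.exp (g x) = f x := by
  obtain ⟨g, ⟨-, hg⟩, -⟩ := Complex.isCoveringMapOn_exp.existsUnique_continuousMap_lifts
    (⟨f, hf⟩ : C(X, ℂ)) (Complex.exp_log (h0 0)) h0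
  exact ⟨g, g.continuous, fun x => congrFun hg x⟩

/-- Two continuous logarithms differ by a constant. -/
theorem log_const {X : Type} [TopologicalSpace X] {S : Set X} (hS : IsPreconnected S)
    {g : X → ℂ} (hg : ContinuousOn g S) (h : ∀ x ∈ S, Complex.exp (g x) = 1) {x y : X}
    (hx : x ∈ S) (hy : y ∈ S) : g x = g y :=
  Complex.isCoveringMap_exp.constOn_of_comp hS hg
    (fun a ha b hb => Subtype.ext ((h a ha).trans (h b hb).symm)) hx hy

end BEp
end
end

-- merged part: Pool.Agent.Work.MP_f0515e_an.P3.VMol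
section
/-! Mollification of a map which commutes with vertical translations.
Plan. f x = x + g x.2; g is continuous with compact support, so uniformly continuous and bounded. m = normed bump (radius δ) convolved with g on ℂ (HasCompactSupport.contDiff_convolution_left, ContDiffBump.dist_normed_convolution_le),
u x = x + m x.2, u y - u z = integral of ρ t • (f (y - (0,t)) - f (z - (0,t))). Uniform c, r ≤ 1 and ℓ at every point: cr_cpt on the image of closedBall 0 (R+1) under ξ ↦ (0,ξ), translation in the first variable, dual vectors far out.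
Far pairs: μ > 0 with μ ≤ ‖f x - f y‖ for ρ ≤ ‖x - y‖ (compactness in (ξ, x - y); large differences by boundedness of g). χ from slow_cut or smoothTransition (-z), F x = f x + χ x.1 • (u x - f x);
the estimate of MMo2_mon (D3/MMo2, stated for Rn n, copy it), LL.smul', ll_of_c1. -/

open Set Metric Filter Topology Function BEv MeasureTheory
open scoped NNReal ENNReal ContDiff

noncomputable section
namespace BEp

theorem VMol_mon {E : Type} [NormedAddCommGroup E] [NormedSpace ℝ E] {χ : E → ℝ} {u f : E → E}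
    {c : ℝ} {y z : E} {ℓ : E →L[ℝ] ℝ} (hℓ : ‖ℓ‖ ≤ 1) (hχ : ∀ x, χ x ∈ Icc (0 : ℝ) 1) (h1 : Lz χ 1)
    (h4 : ∀ x, ‖u x - f x‖ ≤ c / 2) (hf : c * ‖y - z‖ ≤ ℓ (f y - f z))
    (hu : c * ‖y - z‖ ≤ ℓ (u y - u z)) :
    c / 2 * ‖y - z‖ ≤ ℓ ((f y + χ y • (u y - f y)) - (f z + χ z • (u z - f z))) := by
  have e : (f y + χ y • (u y - f y)) - (f z + χ z • (u z - f z)) =
      (1 - χ y) • (f y - f z) + χ y • (u y - u z) + (χ y - χ z) • (u z - f z) := by
    simp only [smul_sub, sub_smul, one_smul]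
    abel
  rw [e, map_add, map_add, map_smul, map_smul, smul_eq_mul, smul_eq_mul]
  have a4 : ‖(χ y - χ z) • (u z - f z)‖ ≤ 1 * ‖y - z‖ * (c / 2) := by
    rw [norm_smul]
    exact mul_le_mul (h1 y z) (h4 z) (norm_nonneg _) (by positivity)
  have a6 := (abs_le.1 ((MCR_le hℓ _).trans a4)).1
  have b1 := mul_le_mul_of_nonneg_left hf (sub_nonneg.2 (hχ y).2)
  have b2 := mul_le_mul_of_nonneg_left hu (hχ y).1
  linarith only [a6, b1, b2]

theorem VMol_avg (φ : ContDiffBump (0 : ℂ)) {k : ℂ → ℝ} (hk : Continuous k) {a : ℝ}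
    (h : ∀ t, ‖t‖ < φ.rOut → a ≤ k t) : a ≤ ∫ t, φ.normed volume t • k t := by
  rw [← φ.integral_normed_smul volume a]
  refine integral_mono ((φ.continuous_normed.smul continuous_const).integrable_of_hasCompactSupport
    φ.hasCompactSupport_normed.smul_right) ((φ.continuous_normed.smul
      hk).integrable_of_hasCompactSupport φ.hasCompactSupport_normed.smul_right) fun t => ?_
  by_cases ht : ‖t‖ < φ.rOut
  · exact smul_le_smul_of_nonneg_left (h t ht) (φ.nonneg_normed t)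
  · have : φ.normed volume t = 0 := notMem_support.1 (by
      rwa [φ.support_normed_eq, mem_ball_zero_iff])
    simp only [this, zero_smul, le_refl]

section
variable {g : ℂ → ℝ × ℂ} {R : ℝ} (h0 : ∀ ξ, R ≤ ‖ξ‖ → g ξ = 0)
include h0

theorem VMol_unif (hc : ∀ x, CR (fun x : ℝ × ℂ => x + g x.2) x) : ∃ c r : ℝ, 0 < c ∧ 0 < r ∧
    ∀ x : ℝ × ℂ, ∃ ℓ : ℝ × ℂ → (ℝ × ℂ) →L[ℝ] ℝ, (∀ ξ, ‖ℓ ξ‖ ≤ 1) ∧ ∀ y ∈ ball x r, ∀ z ∈ ball x r,
      c * ‖y - z‖ ≤ ℓ (y - z) (y + g y.2 - (z + g z.2)) := by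
  obtain ⟨c, r, c0, r0, h⟩ := cr_cpt ((isCompact_singleton (x := (0 : ℝ))).prod
    (isCompact_closedBall (0 : ℂ) (R + 1))) fun x _ => hc x
  refine ⟨min c 1, min r 1, lt_min c0 one_pos, lt_min r0 one_pos, fun x => ?_⟩
  by_cases hx : ‖x.2‖ ≤ R + 1
  · obtain ⟨ℓ, h1, h2⟩ := h (0, x.2) ⟨rfl, mem_closedBall_zero_iff.2 hx⟩
    refine ⟨ℓ, h1, fun y hy z hz => ?_⟩
    have a : ∀ w ∈ ball x (min r 1), w - (x.1, 0) ∈ ball ((0 : ℝ), x.2) r := fun w hw => by
      rw [mem_ball, dist_eq_norm] at hw ⊢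
      rw [sub_sub, Prod.mk_add_mk, add_zero, zero_add]
      exact hw.trans_le (min_le_left _ _)
    have b := h2 _ (a y hy) _ (a z hz)
    simp only [sub_sub_sub_cancel_right, Prod.snd_sub, sub_zero, sub_add_eq_add_sub] at b
    exact (mul_le_mul_of_nonneg_right (min_le_left _ _) (norm_nonneg _)).trans b
  · choose ℓ h1 h2 using fun ξ : ℝ × ℂ => exists_dual_vector'' ℝ ξ
    refine ⟨ℓ, h1, fun y hy z hz => ?_⟩
    have a : ∀ w ∈ ball x (min r 1), g w.2 = 0 := fun w hw => h0 _ (by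
      rw [mem_ball', dist_eq_norm] at hw
      have := (norm_sub_norm_le x.2 w.2).trans (norm_snd_le (x - w))
      linarith only [hx, hw, this, min_le_right r 1])
    rw [a y hy, a z hz, add_zero, add_zero, h2]
    exact mul_le_of_le_one_left (norm_nonneg _) (min_le_right _ _)

theorem VMol_far (hi : Injective fun x : ℝ × ℂ => x + g x.2) (hg : Continuous g) {B ρ : ℝ}
    (hB : ∀ ξ, ‖g ξ‖ ≤ B) (hρ : 0 < ρ) : ∃ μ : ℝ, 0 < μ ∧
      ∀ y z : ℝ × ℂ, ρ ≤ ‖y - z‖ → μ ≤ ‖y + g y.2 - (z + g z.2)‖ := by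
  obtain ⟨μ, μ0, h⟩ := ((isCompact_closedBall (0 : ℂ) (R + (2 * B + 1))).prod
    ((isCompact_closedBall (0 : ℝ × ℂ) (2 * B + 1)).diff (isOpen_ball (x := 0) (ε := ρ)))).exists_forall_le'
    (f := fun p => ‖p.2 + g (p.1 + p.2.2) - g p.1‖) (a := 0) (by fun_prop) fun p hp => by
      refine norm_pos_iff.2 fun e => hp.2.2 ?_
      have : (0, p.1) + p.2 = (0, p.1) := hi (by
        simp only [Prod.snd_add]
        rw [add_assoc, sub_eq_zero.1 e])
      rw [add_eq_left.1 this]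
      exact mem_ball_self hρ
  refine ⟨min μ (min ρ 1), lt_min μ0 (lt_min hρ one_pos), fun y z hyz => ?_⟩
  have e : y + g y.2 - (z + g z.2) = (y - z) + g (z.2 + (y - z).2) - g z.2 := by
    rw [Prod.snd_sub, add_sub_cancel]
    abel
  by_cases k : ‖y - z‖ ≤ 2 * B + 1
  · by_cases k' : ‖z.2‖ ≤ R + (2 * B + 1)
    · rw [e]
      exact (min_le_left _ _).trans (h (z.2, y - z) ⟨mem_closedBall_zero_iff.2 k',
        mem_closedBall_zero_iff.2 k, fun c => (mem_ball_zero_iff.1 c).not_ge hyz⟩)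
    · have a := (norm_sub_norm_le z.2 y.2).trans (norm_snd_le (z - y))
      rw [norm_sub_rev] at a
      rw [h0 y.2 (by linarith), h0 z.2 (by linarith [norm_nonneg (y - z)]), add_zero, add_zero]
      exact (min_le_right _ _).trans ((min_le_left _ _).trans hyz)
  · have a := norm_sub_norm_le (y - z) (g z.2 - g y.2)
    rw [show y - z - (g z.2 - g y.2) = y + g y.2 - (z + g z.2) by abel] at a
    linarith only [k, a, hB, norm_sub_le (g z.2) (g y.2), hB y.2, hB z.2, min_le_right μ (min ρ 1),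
      min_le_right ρ 1]

end

theorem cyl_moll {g : ℂ → ℝ × ℂ} {R : ℝ} (h0 : ∀ ξ, R ≤ ‖ξ‖ → g ξ = 0)
    (hi : Injective fun x : ℝ × ℂ => x + g x.2) (hc : ∀ x, CR (fun x : ℝ × ℂ => x + g x.2) x) :
    ∃ (m : ℂ → ℝ × ℂ) (F : ℝ × ℂ → ℝ × ℂ), ContDiff ℝ ∞ m ∧ (∀ ξ, R + 1 ≤ ‖ξ‖ → m ξ = 0) ∧
      Injective F ∧ (∀ x, CR F x) ∧ (∀ x, 0 ≤ x.1 → F x = x + g x.2) ∧
      (∀ x, x.1 ≤ -1 → F x = x + m x.2) ∧ ∀ x, R + 1 ≤ ‖x.2‖ → F x = x := by
  have hg : Continuous g := by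
    have c1 : Continuous fun x : ℝ × ℂ => x + g x.2 :=
      continuous_iff_continuousAt.2 fun x => (hc x).1.choose_spec.continuousAt
    have c2 : Continuous fun ξ : ℂ => (((0 : ℝ), ξ) : ℝ × ℂ) := by fun_prop
    simpa only [comp_def, add_sub_cancel_left] using (c1.comp c2).fun_sub c2
  have hs : HasCompactSupport g := HasCompactSupport.intro (isCompact_closedBall 0 R)
    fun ξ hξ => h0 ξ (not_le.1 (mt mem_closedBall_zero_iff.2 hξ)).le
  obtain ⟨B, hB⟩ := hg.bounded_above_of_compact_support hs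
  obtain ⟨c, r, c0, r0, hu⟩ := VMol_unif h0 hc
  obtain ⟨μ, μ0, hμ⟩ := VMol_far h0 hi hg hB (half_pos r0)
  obtain ⟨δ, δ0, hδ⟩ := Metric.uniformContinuous_iff.1 (hs.uniformContinuous_of_continuous hg)
    (min (c / 2) (μ / 3)) (by positivity)
  obtain ⟨φ, p1, p2, p3⟩ : ∃ φ : ContDiffBump (0 : ℂ), φ.rOut ≤ δ ∧ φ.rOut ≤ r / 2 ∧ φ.rOut ≤ 1 :=
    have k : 0 < min δ (min (r / 2) 1) := by positivity
    ⟨⟨_, _, half_pos k, half_lt_self k⟩, min_le_left _ _,
      (min_le_right _ _).trans (min_le_left _ _), (min_le_right _ _).trans (min_le_right _ _)⟩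
  obtain ⟨m, m1, m2, m3, m4⟩ : ∃ m : ℂ → ℝ × ℂ, ContDiff ℝ ∞ m ∧ (∀ ξ, R + 1 ≤ ‖ξ‖ → m ξ = 0) ∧
      (∀ ξ, ‖m ξ - g ξ‖ ≤ min (c / 2) (μ / 3)) ∧
      ∀ ξ, m ξ = ∫ t, φ.normed volume t • g (ξ - t) := by
    refine ⟨convolution (φ.normed volume) g (ContinuousLinearMap.lsmul ℝ ℝ) volume,
      φ.hasCompactSupport_normed.contDiff_convolution_left _ φ.contDiff_normed hg.locallyIntegrable,
      fun ξ hξ => ?_, fun ξ => ?_, fun _ => rfl⟩
    · have a := h0 ξ (by linarith only [hξ])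
      refine (φ.normed_convolution_eq_right fun x hx => (h0 x ?_).trans a.symm).trans a
      rw [mem_ball', dist_eq_norm] at hx
      linarith only [p3, hξ, hx, norm_sub_norm_le ξ x]
    · rw [← dist_eq_norm]
      exact φ.dist_normed_convolution_le hg.aestronglyMeasurable fun x hx =>
        (hδ (hx.trans_le p1)).le
  let χ : ℝ × ℂ → ℝ := fun x => max 0 (min 1 (-x.1))
  have χI : ∀ x, χ x ∈ Icc (0 : ℝ) 1 := fun x =>
    ⟨le_max_left _ _, max_le zero_le_one (min_le_left _ _)⟩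
  have χL : Lz χ 1 := fun x y => by
    have := ((LipschitzWith.prod_fst.neg.const_min 1).const_max (0 : ℝ)).dist_le_mul x y
    rwa [dist_eq_norm, dist_eq_norm] at this
  have d1 : ∀ x : ℝ × ℂ, ‖x + m x.2 - (x + g x.2)‖ ≤ min (c / 2) (μ / 3) := fun x => by
    rw [add_sub_add_left_eq_sub]
    exact m3 _
  let F : ℝ × ℂ → ℝ × ℂ := fun x => x + g x.2 + χ x • (x + m x.2 - (x + g x.2))
  have key : ∀ x : ℝ × ℂ, ∃ ℓ : ℝ × ℂ → (ℝ × ℂ) →L[ℝ] ℝ, (∀ ξ, ‖ℓ ξ‖ ≤ 1) ∧
      ∀ y ∈ ball x (r / 2), ∀ z ∈ ball x (r / 2), c / 2 * ‖y - z‖ ≤ ℓ (y - z) (F y - F z) := by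
    intro x
    obtain ⟨ℓ, h1, h2⟩ := hu x
    have hb : ball x (r / 2) ⊆ ball x r := ball_subset_ball (half_le_self r0.le)
    refine ⟨ℓ, h1, fun y hy z hz => VMol_mon (u := fun x => x + m x.2) (f := fun x => x + g x.2)
      (h1 _) χI χL (fun x => (d1 x).trans (min_le_left _ _)) (h2 y (hb hy) z (hb hz)) ?_⟩
    have i1 : ∀ ξ, Integrable fun t => φ.normed volume t • g (ξ - t) := fun ξ =>
      (φ.continuous_normed.smul (by fun_prop)).integrable_of_hasCompactSupport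
        φ.hasCompactSupport_normed.smul_right
    have a : ∀ w ∈ ball x (r / 2), ∀ t : ℂ, ‖t‖ < φ.rOut → w - (0, t) ∈ ball x r := by
      intro w hw t ht
      rw [mem_ball, dist_eq_norm] at hw ⊢
      rw [sub_right_comm]
      have : ‖(((0 : ℝ), t) : ℝ × ℂ)‖ = ‖t‖ := by simp
      linarith only [p2, hw, ht, this, norm_sub_le (w - x) (0, t)]
    have b := VMol_avg φ (k := fun t => ℓ (y - z) (g (y.2 - t) - g (z.2 - t))) (by fun_prop)
      (a := c * ‖y - z‖ - ℓ (y - z) (y - z)) fun t ht => by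
        have := h2 _ (a y hy t ht) _ (a z hz t ht)
        rw [sub_sub_sub_cancel_right, add_sub_add_comm, sub_sub_sub_cancel_right, map_add] at this
        exact sub_le_iff_le_add'.2 this
    simp only [← map_smul, smul_sub] at b
    rw [(ℓ (y - z)).integral_comp_comm ((i1 _).sub' (i1 _)), integral_sub (i1 _) (i1 _), ← m4,
      ← m4] at b
    rw [add_sub_add_comm, map_add]
    exact sub_le_iff_le_add'.1 b
  refine ⟨m, F, m1, m2, fun y z e => ?_, fun x => ?_, fun x hx => ?_, fun x hx => ?_,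
    fun x hx => ?_⟩
  · by_cases hd : z ∈ ball y (r / 2)
    · obtain ⟨ℓ, -, hm⟩ := key y
      have := hm y (mem_ball_self (half_pos r0)) z hd
      rw [e, sub_self, map_zero] at this
      exact sub_eq_zero.1 (norm_le_zero_iff.1 (nonpos_of_mul_nonpos_right this (half_pos c0)))
    · rw [mem_ball', dist_eq_norm, not_lt] at hd
      have b : ∀ x, ‖χ x • (x + m x.2 - (x + g x.2))‖ ≤ μ / 3 := fun x => by
        rw [norm_smul, Real.norm_of_nonneg (χI x).1]
        exact (mul_le_of_le_one_left (norm_nonneg _) (χI x).2).trans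
          ((d1 x).trans (min_le_right _ _))
      have a := hμ y z hd
      rw [sub_eq_sub_iff_add_eq_add.2 (e.trans (add_comm _ _))] at a
      linarith only [μ0, a, b, a.trans (norm_sub_le _ _), b y, b z]
  · obtain ⟨L1, h1⟩ := (hc x).1
    obtain ⟨L2, h2⟩ := ll_of_c1 (f := fun x : ℝ × ℂ => x + m x.2) (x := x)
      (contDiff_id.add ((m1.of_le (by simp)).comp contDiff_snd)).contDiffAt
    obtain ⟨L3, h3⟩ := LL.smul' ⟨_, χL.ll x⟩ ⟨_, h2.sub h1⟩
    obtain ⟨ℓ, h4, h5⟩ := key x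
    refine ⟨⟨_, h1.add h3⟩, c / 2, half_pos c0, ℓ, h4, ?_⟩
    filter_upwards [prod_mem_nhds (ball_mem_nhds x (half_pos r0)) (ball_mem_nhds x (half_pos r0))]
      with q hq using h5 _ hq.1 _ hq.2
  · have : χ x = 0 := max_eq_left (min_le_of_right_le (neg_nonpos.2 hx))
    simp only [F, this, zero_smul, add_zero]
  · have : χ x = 1 := by
      simp only [χ]
      rw [min_eq_left (by linarith only [hx]), max_eq_right zero_le_one]
    simp only [F, this, one_smul, add_sub_cancel]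
  · simp only [F, m2 _ hx, h0 _ (show R ≤ ‖x.2‖ by linarith only [hx]), add_zero, sub_self, smul_zero]

end BEp
end
end

-- merged part: Pool.Agent.Work.MP_f0515e_an.P3.VSm1
section
/-! Compactly supported diffeomorphisms of the plane are isotopic to the identity.
Plan. straighten: a x = (P (z, T + im ξ I)).re - T, b x = (P (z, T + im ξ I)).im - im ξ are smooth, bounded, independent of re ξ, and vanish where τ z = 0 or R ≤ |im ξ|. u x = (z, ξ + a x + b x I).
1 + Db (0,I) ≠ 0 by SI.inj at (z, T + 1 + im ξ I), it is 1 for large im, so positive (intermediate value). Q1 x = x + χ1 (re ξ - T - 1) a x • (0,1), Q2 x = x + χ2 (re ξ - T - 1 - M) b x • (0,I), slow_cut, tri_map;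
Q = Q2 ∘ Q1 equals u for re ≤ T + 1. u is onto (intermediate value in im). glue_inj with h = re, a = T, b = T + 1/2, c = T + 1; SI by SI.congr on the two open regions.
smale: Λ from exists_fld, τ = 1 on Icc (-1) 0, τ = 0 for 1 ≤ z or z ≤ -2. Where τ z = 1, s ↦ φ (P (z, ξ + s)) - s is constant, so φ (P x) = ξ, P x = ξ for T ≤ re ξ, φ (J x) = ξ.
This shows that φ is onto. j x = if -1/2 ≤ z then φ (J x) else ξ. -/

open Set Metric Filter Topology Function BEv MeasureTheory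
open scoped NNReal ENNReal ContDiff

noncomputable section
namespace BEp

theorem VSm1_line {E : Type} [NormedAddCommGroup E] [NormedSpace ℝ E] {f : E → ℝ}
    (hf : ContDiff ℝ ∞ f) (y e : E) {d : ℝ} (h : HasDerivAt (fun t : ℝ => f (y + t • e)) d 0) :
    fderiv ℝ f y e = d := by
  have h1 : HasDerivAt (fun t : ℝ => y + t • e) e 0 := by
    simpa using ((hasDerivAt_id (0 : ℝ)).smul_const e).const_add y
  have h2 : HasFDerivAt f (fderiv ℝ f y) (y + (0 : ℝ) • e) := by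
    rw [zero_smul, add_zero]
    exact (hf.differentiable (by simp) y).hasFDerivAt
  exact (h2.comp_hasDerivAt 0 h1).unique h

/-- The vertical derivative of the second displacement. -/
theorem VSm1_pos {a b : ℝ × ℂ → ℝ} {T R : ℝ} (ha : ContDiff ℝ ∞ a) (hb : ContDiff ℝ ∞ b)
    (ia : ∀ (x : ℝ × ℂ) (t : ℝ), a (x + t • (0, 1)) = a x)
    (ib : ∀ (x : ℝ × ℂ) (t : ℝ), b (x + t • (0, 1)) = b x)
    (b0 : ∀ x : ℝ × ℂ, R ≤ |x.2.im| → b x = 0)
    (h : ∀ x : ℝ × ℂ, T < x.2.re →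
      SI (fun y : ℝ × ℂ => y + a y • ((0, 1) : ℝ × ℂ) + b y • ((0, Complex.I) : ℝ × ℂ)) x)
    (x : ℝ × ℂ) : -1 < fderiv ℝ b x (0, Complex.I) := by
  have da : ∀ y, HasFDerivAt a (fderiv ℝ a y) y := fun y =>
    (ha.differentiable (by simp) y).hasFDerivAt
  have db : ∀ y, HasFDerivAt b (fderiv ℝ b y) y := fun y =>
    (hb.differentiable (by simp) y).hasFDerivAt
  have a1 : ∀ y, fderiv ℝ a y (0, 1) = 0 := fun y => VSm1_line ha y _ (by
    simp only [ia]
    exact hasDerivAt_const _ _)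
  have b1 : ∀ y, fderiv ℝ b y (0, 1) = 0 := fun y => VSm1_line hb y _ (by
    simp only [ib]
    exact hasDerivAt_const _ _)
  have k1 : ∀ y : ℝ × ℂ, T < y.2.re → fderiv ℝ b y (0, Complex.I) ≠ -1 := fun y hy e => by
    have hi := (h y hy).inj.2
    rw [show fderiv ℝ (fun y : ℝ × ℂ => y + a y • ((0, 1) : ℝ × ℂ) +
      b y • ((0, Complex.I) : ℝ × ℂ)) y = _ from
      (((hasFDerivAt_id y).add ((da y).smul_const _)).add ((db y).smul_const _)).fderiv] at hi
    have := (injective_iff_map_eq_zero _).1 hi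
      ((0, Complex.I) - fderiv ℝ a y (0, Complex.I) • ((0, 1) : ℝ × ℂ)) (by
        simp only [add_apply, ContinuousLinearMap.id_apply, ContinuousLinearMap.smulRight_apply,
          map_sub, map_smul, a1, b1, e, zero_smul, add_zero, neg_smul, one_smul]
        abel)
    have := congrArg (fun v : ℝ × ℂ => v.2.im) this
    simp at this
  have k2 : ∀ y : ℝ × ℂ, fderiv ℝ b y (0, Complex.I) ≠ -1 := fun y => by
    have e : fderiv ℝ b (y + (T + 1 - y.2.re) • ((0, 1) : ℝ × ℂ)) = fderiv ℝ b y := by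
      rw [← fderiv_comp_add_right]
      simp only [ib]
    rw [← e]
    exact k1 _ (by simp)
  have k3 : fderiv ℝ b (0, (|R| + 1 : ℝ) * Complex.I) (0, Complex.I) = 0 := by
    have e : b =ᶠ[𝓝 ((0, (|R| + 1 : ℝ) * Complex.I) : ℝ × ℂ)] fun _ => 0 := by
      have c : Continuous fun y : ℝ × ℂ => y.2.im := by fun_prop
      filter_upwards [(isOpen_lt continuous_const c).mem_nhds
        (show |R| < ((0, (|R| + 1 : ℝ) * Complex.I) : ℝ × ℂ).2.im by simp)] with y hy
      exact b0 y ((le_abs_self R).trans (hy.le.trans (le_abs_self _)))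
    rw [e.fderiv_eq]
    simp
  have c : Continuous fun y : ℝ × ℂ => fderiv ℝ b y (0, Complex.I) :=
    (hb.continuous_fderiv (by simp)).clm_apply continuous_const
  by_contra q
  obtain ⟨y, hy⟩ := intermediate_value_univ x (0, (|R| + 1 : ℝ) * Complex.I) c
    (show (-1 : ℝ) ∈ Icc _ _ from ⟨not_lt.1 q, by rw [k3]; norm_num⟩)
  exact k2 y hy

/-- The displacement is cut off far to the right. -/
theorem VSm1_cut {a b : ℝ × ℂ → ℝ} {M : ℝ} (c : ℝ) (ha : ContDiff ℝ ∞ a) (hb : ContDiff ℝ ∞ b)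
    (ia : ∀ (x : ℝ × ℂ) (t : ℝ), a (x + t • (0, 1)) = a x)
    (ib : ∀ (x : ℝ × ℂ) (t : ℝ), b (x + t • (0, 1)) = b x) (hM : ∀ x, |a x| ≤ M)
    (h : ∀ x, -1 < fderiv ℝ b x (0, Complex.I)) :
    ∃ (Q : ℝ × ℂ → ℝ × ℂ) (S : ℝ), Injective Q ∧ (∀ x, SI Q x) ∧ (∀ x, (Q x).1 = x.1) ∧
      (∀ x : ℝ × ℂ, x.2.re ≤ c →
        Q x = x + a x • ((0, 1) : ℝ × ℂ) + b x • ((0, Complex.I) : ℝ × ℂ)) ∧
      ∀ x : ℝ × ℂ, S ≤ x.2.re ∨ (a x = 0 ∧ b x = 0) → Q x = x := by
  obtain ⟨χ, T, T0, c1, -, c3, c4, c5⟩ := slow_cut M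
  obtain ⟨χ', T', T0', d1, d2, d3, d4, -⟩ := slow_cut 0
  have re : ContDiff ℝ ∞ fun x : ℝ × ℂ => x.2.re := Complex.reCLM.contDiff.comp contDiff_snd
  have s1 : ContDiff ℝ ∞ fun x : ℝ × ℂ => χ (x.2.re - c) * a x :=
    (c1.comp (re.sub contDiff_const)).mul ha
  have s2 : ContDiff ℝ ∞ fun x : ℝ × ℂ => χ' (x.2.re - (c + M)) * b x :=
    (d1.comp (re.sub contDiff_const)).mul hb
  obtain ⟨i1, j1⟩ := tri_map ((0, 1) : ℝ × ℂ) (s1.of_le (by simp)) fun y => by
    have e : ∀ t : ℝ, (y + t • ((0, 1) : ℝ × ℂ)).2.re - c = t + (y.2.re - c) := fun t => by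
      simp
      ring
    have k : HasDerivAt χ (deriv χ (y.2.re - c)) (0 + (y.2.re - c)) := by
      rw [zero_add]
      exact (c1.differentiable (by simp) _).hasDerivAt
    rw [VSm1_line s1 y _ (d := deriv χ (y.2.re - c) * a y) (by
      simp only [e, ia]
      exact (k.comp_add_const 0 _).mul_const _)]
    have k1 : |deriv χ (y.2.re - c) * a y| < 1 := by
      rw [abs_mul]
      exact (mul_le_mul_of_nonneg_left (hM y) (abs_nonneg _)).trans_lt (c5 _)
    exact (abs_lt.1 k1).1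
  obtain ⟨i2, j2⟩ := tri_map ((0, Complex.I) : ℝ × ℂ) (s2.of_le (by simp)) fun y => by
    have e : ∀ t : ℝ, (y + t • ((0, Complex.I) : ℝ × ℂ)).2.re = y.2.re := fun t => by simp
    have h1 : HasDerivAt (fun t : ℝ => y + t • ((0, Complex.I) : ℝ × ℂ)) (0, Complex.I) 0 := by
      simpa using ((hasDerivAt_id (0 : ℝ)).smul_const ((0, Complex.I) : ℝ × ℂ)).const_add y
    have h2 : HasFDerivAt b (fderiv ℝ b y) (y + (0 : ℝ) • ((0, Complex.I) : ℝ × ℂ)) := by
      rw [zero_smul, add_zero]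
      exact (hb.differentiable (by simp) y).hasFDerivAt
    rw [VSm1_line s2 y _ (d := χ' (y.2.re - (c + M)) * fderiv ℝ b y (0, Complex.I)) (by
      simp only [e]
      exact (h2.comp_hasDerivAt 0 h1).const_mul _)]
    obtain ⟨k1, k2⟩ := d2 (y.2.re - (c + M))
    rcases le_total 0 (fderiv ℝ b y (0, Complex.I)) with k | k
    · linarith [mul_nonneg k1 k]
    · linarith only [h, k2, k, h y, mul_nonneg_of_nonpos_of_nonpos (Mathlib.Tactic.Linarith.sub_nonpos_of_le k2) (Mathlib.Tactic.Linarith.sub_nonpos_of_le k)]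
  have M0 : 0 ≤ M := (abs_nonneg _).trans (hM 0)
  refine ⟨_, c + M + T + T', i2.comp i1, fun x => (j2 _).comp (j1 x), fun x => by simp,
    fun x hx => ?_, fun x hx => ?_⟩
  · have e : (x + a x • ((0, 1) : ℝ × ℂ)).2.re = x.2.re + a x := by simp
    simp only [comp_apply]
    rw [c3 _ (sub_nonpos.2 hx), one_mul, ib, e, d3 _ (by linarith [(abs_le.1 (hM x)).2]), one_mul]
  · simp only [comp_apply]
    rcases hx with hx | ⟨k1, k2⟩
    · rw [c4 _ (by linarith), zero_mul, zero_smul, add_zero, d4 _ (by linarith), zero_mul,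
        zero_smul, add_zero]
    · rw [k1, mul_zero, zero_smul, add_zero, k2, mul_zero, zero_smul, add_zero]

theorem straighten {P : ℝ × ℂ → ℂ} {τ : ℝ → ℝ} {R T : ℝ} (R0 : 0 < R) (RT : R ≤ T)
    (hc : HasCompactSupport τ) (h1 : ContDiff ℝ ∞ P) (h2 : Injective (fun x : ℝ × ℂ => (x.1, P x)))
    (h3 : ∀ x, SI (fun x : ℝ × ℂ => (x.1, P x)) x)
    (h4 : ∀ x : ℝ × ℂ, (x.2.re ≤ -R ∨ R ≤ |x.2.im| ∨ τ x.1 = 0) → P x = x.2)
    (h5 : ∀ x : ℝ × ℂ, T ≤ x.2.re →
      P x = P (x.1, T + x.2.im * Complex.I) + ((x.2.re - T : ℝ) : ℂ)) :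
    ∃ (J : ℝ × ℂ → ℂ) (R' : ℝ), Injective (fun x : ℝ × ℂ => (x.1, J x)) ∧
      (∀ x, SI (fun x : ℝ × ℂ => (x.1, J x)) x) ∧
      (∀ x : ℝ × ℂ, (τ x.1 = 0 ∨ R' ≤ ‖x.2‖) → J x = x.2) ∧
      ∀ z, (∀ ξ : ℂ, T ≤ ξ.re → P (z, ξ) = ξ) → ∀ ξ, J (z, ξ) = P (z, ξ) := by
  obtain ⟨a, ha⟩ : ∃ a : ℝ × ℂ → ℝ, a = fun x => (P (x.1, T + x.2.im * Complex.I)).re - T :=
    ⟨_, rfl⟩
  obtain ⟨b, hb⟩ : ∃ b : ℝ × ℂ → ℝ, b = fun x => (P (x.1, T + x.2.im * Complex.I)).im - x.2.im :=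
    ⟨_, rfl⟩
  have im : ContDiff ℝ ∞ fun x : ℝ × ℂ => x.2.im := Complex.imCLM.contDiff.comp contDiff_snd
  have sp : ContDiff ℝ ∞ fun x : ℝ × ℂ => P (x.1, T + x.2.im * Complex.I) :=
    h1.comp (contDiff_fst.prodMk (contDiff_const.add
      ((Complex.ofRealCLM.contDiff.comp im).mul contDiff_const)))
  have sa : ContDiff ℝ ∞ a := ha ▸ (Complex.reCLM.contDiff.comp sp).sub contDiff_const
  have sb : ContDiff ℝ ∞ b := hb ▸ (Complex.imCLM.contDiff.comp sp).sub im
  have ia : ∀ (x : ℝ × ℂ) (t : ℝ), a (x + t • (0, 1)) = a x := fun x t => by simp [ha]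
  have ib : ∀ (x : ℝ × ℂ) (t : ℝ), b (x + t • (0, 1)) = b x := fun x t => by simp [hb]
  have z0 : ∀ x : ℝ × ℂ, P (x.1, T + x.2.im * Complex.I) = T + x.2.im * Complex.I →
      a x = 0 ∧ b x = 0 := fun x e => by simp [ha, hb, e]
  have z1 : ∀ x : ℝ × ℂ, R ≤ |x.2.im| ∨ τ x.1 = 0 → a x = 0 ∧ b x = 0 := fun x e =>
    z0 x (h4 (x.1, T + x.2.im * Complex.I) (Or.inr (by simpa using e)))
  have hu : ∀ x : ℝ × ℂ, T ≤ x.2.re →
      (x.1, P x) = x + a x • ((0, 1) : ℝ × ℂ) + b x • ((0, Complex.I) : ℝ × ℂ) := fun x hx => by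
    rw [h5 x hx]
    refine Prod.ext (by simp) (Complex.ext ?_ ?_) <;> simp [ha, hb]
    ring
  have cre : Continuous fun y : ℝ × ℂ => y.2.re := by fun_prop
  obtain ⟨M, hM⟩ : ∃ M, ∀ x, |a x| ≤ M := by
    have c : Continuous fun p : ℝ × ℝ => a (p.1, p.2 * Complex.I) :=
      sa.continuous.comp (by fun_prop)
    obtain ⟨M, hM⟩ := (hc.isCompact.prod (isCompact_Icc (a := -R) (b := R))).exists_bound_of_continuousOn
      c.continuousOn
    refine ⟨max M 0, fun x => ?_⟩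
    by_cases e : R ≤ |x.2.im| ∨ τ x.1 = 0
    · rw [(z1 x e).1, abs_zero]
      exact le_max_right _ _
    · rw [not_or, not_le] at e
      have k := hM (x.1, x.2.im) ⟨subset_tsupport _ e.2, abs_le.1 e.1.le⟩
      have e' : a (x.1, x.2.im * Complex.I) = a x := by simp [ha]
      rw [e'] at k
      exact k.trans (le_max_left _ _)
  have hpos := VSm1_pos (T := T) (R := R) sa sb ia ib (fun x e => (z1 x (Or.inl e)).2)
    fun x hx => (h3 x).congr (by
      filter_upwards [(isOpen_lt continuous_const cre).mem_nhds hx] with y hy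
      exact (hu y hy.le).symm)
  obtain ⟨Q, S, q1, q2, q3, q4, q5⟩ := VSm1_cut (T + 1) sa sb ia ib hM hpos
  have onto : ∀ w : ℝ × ℂ, w ∈ range fun x : ℝ × ℂ =>
      x + a x • ((0, 1) : ℝ × ℂ) + b x • ((0, Complex.I) : ℝ × ℂ) := fun w => by
    have c : Continuous fun y : ℝ => y + b (w.1, y * Complex.I) :=
      continuous_id.add (sb.continuous.comp (by fun_prop))
    have w0 := abs_nonneg w.2.im
    obtain ⟨y, hy⟩ := intermediate_value_univ (-(R + |w.2.im|)) (R + |w.2.im|) c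
      (show w.2.im ∈ Icc _ _ from ⟨by
        rw [(z1 _ (Or.inl (by
          simp only [Complex.mul_im, Complex.ofReal_re, Complex.I_im, mul_one, Complex.ofReal_im,
            Complex.I_re, mul_zero, add_zero, abs_neg]
          exact (le_add_of_nonneg_right w0).trans (le_abs_self _)))).2]
        linarith [neg_abs_le w.2.im], by
        rw [(z1 _ (Or.inl (by
          simp only [Complex.mul_im, Complex.ofReal_re, Complex.I_im, mul_one, Complex.ofReal_im,
            Complex.I_re, mul_zero, add_zero]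
          exact (le_add_of_nonneg_right w0).trans (le_abs_self _)))).2]
        linarith [le_abs_self w.2.im]⟩)
    refine ⟨(w.1, y * Complex.I) + (w.2.re - a (w.1, y * Complex.I)) • ((0, 1) : ℝ × ℂ), ?_⟩
    simp only [ia, ib]
    refine Prod.ext (by simp) (Complex.ext (by simp) ?_)
    simpa using hy
  have e : (fun x : ℝ × ℂ => (x.1, (if T + 1 / 2 ≤ x.2.re then Q x else (x.1, P x)).2)) =
      fun x => if T + 1 / 2 ≤ x.2.re then Q x else (x.1, P x) := funext fun x => by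
    split_ifs
    · exact Prod.ext (q3 x).symm rfl
    · rfl
  refine ⟨fun x => (if T + 1 / 2 ≤ x.2.re then Q x else (x.1, P x)).2, R + R + T + 1 + |S|, ?_,
    fun x => ?_, fun x hx => ?_, fun z hz ξ => ?_⟩
  · rw [e]
    exact glue_inj (h := fun x : ℝ × ℂ => x.2.re) (a := T) (c := T + 1) q1 h2 (by linarith only [])
      (by linarith only []) q4 hu fun x => onto _
  · rw [e]
    by_cases k : T < x.2.re
    · refine (q2 x).congr ?_
      filter_upwards [(isOpen_lt continuous_const cre).mem_nhds k] with y hy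
      split_ifs with k'
      · rfl
      · exact (hu y hy.le).trans (q4 y (by linarith only [hy, k'])).symm
    · refine (h3 x).congr ?_
      filter_upwards [(isOpen_lt cre continuous_const).mem_nhds
        (show x.2.re < T + 1 / 2 by linarith only [k])] with y hy
      exact if_neg (not_le.2 hy)
  · show (if T + 1 / 2 ≤ x.2.re then Q x else (x.1, P x)).2 = x.2
    by_cases k : R ≤ |x.2.im| ∨ τ x.1 = 0
    · split_ifs
      · rw [q5 x (Or.inr (z1 x k))]
      · exact h4 x (Or.inr k)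
    · rw [not_or, not_le] at k
      have k1 := (hx.resolve_left k.2).trans (Complex.norm_le_abs_re_add_abs_im x.2)
      have k2 := abs_nonneg S
      have k3 := le_abs_self S
      split_ifs with k'
      · rw [abs_of_nonneg (by linarith only [R0, RT, k'] : 0 ≤ x.2.re)] at k1
        rw [q5 x (Or.inl (by linarith only [R0, RT, k, k1, k3, k.1]))]
      · refine h4 x (Or.inl ?_)
        rcases abs_cases x.2.re with k4 | k4 <;> linarith only [R0, k, k1, k2, k', k4, RT, k.1, k4.1]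
  · show (if T + 1 / 2 ≤ ξ.re then Q (z, ξ) else (z, P (z, ξ))).2 = P (z, ξ)
    split_ifs with k
    · rw [q5 (z, ξ) (Or.inr (z0 _ (hz _ (by simp)))), hz ξ (by linarith only [k])]
    · rfl

end BEp
end
end

-- merged part: Pool.Agent.Work.MP_f0515e_an.P3.VFld
section
/-! The pulled back horizontal field and its logarithm.
Plan. smooth_log: g from cont_log; near ξ0, g ξ = g ξ0 + log (Y ξ / Y ξ0) (log_const on a small ball, or exp injectivity for small differences), so g is smooth; the set R ≤ ‖ξ‖ is preconnected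
(image of Ici R ×ˢ sphere 0 1 under smul, isConnected_sphere), so g is a constant k there with exp k = 1 (log_const); Λ = g - k.
exists_fld: a = Dφ 1, b = Dφ I, d = a.re * b.im - a.im * b.re ≠ 0 by injectivity, Y = (b.im - a.im I) / d; for R + 1 ≤ ‖ξ‖ the derivative is the identity. -/

open Set Metric Filter Topology Function BEv MeasureTheory
open scoped NNReal ENNReal ContDiff

noncomputable section
namespace BEp

theorem smooth_log {Y : ℂ → ℂ} (hY : ContDiff ℝ ∞ Y) (h0 : ∀ ξ, Y ξ ≠ 0) {R : ℝ} (R0 : 0 < R)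
    (h1 : ∀ ξ, R ≤ ‖ξ‖ → Y ξ = 1) :
    ∃ Λ : ℂ → ℂ, ContDiff ℝ ∞ Λ ∧ (∀ ξ, Complex.exp (Λ ξ) = Y ξ) ∧ ∀ ξ, R ≤ ‖ξ‖ → Λ ξ = 0 := by
  obtain ⟨g, hg, he⟩ := cont_log hY.continuous h0
  have sm : ContDiff ℝ ∞ g := contDiff_iff_contDiffAt.2 fun x => by
    have e : g =ᶠ[𝓝 x] fun y => g x + Complex.log (Y y / Y x) := by
      have c : ContinuousAt (fun y => |(g y - g x).im|) x := by fun_prop
      filter_upwards [c.eventually_lt continuousAt_const (by simpa using Real.pi_pos)] with y hy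
      rw [← he y, ← he x, ← Complex.exp_sub, Complex.log_exp (abs_lt.1 hy).1 (abs_lt.1 hy).2.le]
      ring
    refine ContDiffAt.congr_of_eventuallyEq (contDiffAt_const.add ?_) e
    refine ContDiffAt.comp (g := Complex.log) x
      ((Complex.contDiffAt_log ?_).restrict_scalars ℝ) (hY.contDiffAt.div_const _)
    rw [div_self (h0 x)]
    exact Complex.one_mem_slitPlane
  have k : ∀ ξ : ℂ, R ≤ ‖ξ‖ → g ξ = g R := fun ξ hξ => by
    have := log_const (S := Ici R ×ˢ (univ : Set ℝ))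
      (g := fun p : ℝ × ℝ => g (p.1 * Complex.exp (p.2 * Complex.I)))
      (isPreconnected_Ici.prod isPreconnected_univ) (by fun_prop) (fun p hp => by
        rw [he, h1]
        rw [norm_mul, Complex.norm_exp_ofReal_mul_I, mul_one, Complex.norm_real, Real.norm_eq_abs]
        exact hp.1.trans (le_abs_self _))
      (x := (‖ξ‖, Complex.arg ξ)) (y := (R, 0)) ⟨hξ, trivial⟩ ⟨le_refl R, trivial⟩
    simpa using this
  refine ⟨fun ξ => g ξ - g R, sm.sub contDiff_const, fun ξ => ?_, fun ξ hξ => sub_eq_zero.2 (k ξ hξ)⟩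
  rw [Complex.exp_sub, he, he, h1 R (by simp [abs_of_pos R0]), div_one]

theorem VFld_app (A : ℂ →L[ℝ] ℂ) (x y : ℝ) : A (x + y * Complex.I) = x * A 1 + y * A Complex.I := by
  rw [show (x + y * Complex.I : ℂ) = x • (1 : ℂ) + y • Complex.I by simp, map_add, map_smul, map_smul]
  simp

theorem VFld_det {A : ℂ →L[ℝ] ℂ} (h : Injective A) :
    (A 1).re * (A Complex.I).im - (A 1).im * (A Complex.I).re ≠ 0 := fun d => by
  have k1 : (((A Complex.I).im : ℝ) + (-(A 1).im : ℝ) * Complex.I : ℂ) = 0 := h (by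
    rw [VFld_app, map_zero]
    apply Complex.ext <;> simp <;> linarith only [d])
  have k2 : (((A Complex.I).re : ℝ) + (-(A 1).re : ℝ) * Complex.I : ℂ) = 0 := h (by
    rw [VFld_app, map_zero]
    apply Complex.ext <;> simp <;> linarith only [d])
  have k3 := congrArg Complex.im k1
  have k4 := congrArg Complex.im k2
  simp at k3 k4
  exact one_ne_zero (h (a₁ := 1) (a₂ := 0) (by rw [map_zero]; exact Complex.ext k4 k3))

theorem exists_fld {φ : ℂ → ℂ} (hφ : ContDiff ℝ ∞ φ) (hd : ∀ ξ, Injective (fderiv ℝ φ ξ)) {R : ℝ}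
    (R0 : 0 < R) (h1 : ∀ ξ, R ≤ ‖ξ‖ → φ ξ = ξ) :
    ∃ Λ : ℂ → ℂ, ContDiff ℝ ∞ Λ ∧ (∀ ξ, fderiv ℝ φ ξ (Complex.exp (Λ ξ)) = 1) ∧
      ∀ ξ, R + 1 ≤ ‖ξ‖ → Λ ξ = 0 := by
  have ha : ∀ v : ℂ, ContDiff ℝ ∞ fun ξ => fderiv ℝ φ ξ v := fun v =>
    (hφ.fderiv_right (m := ∞) (by simp)).clm_apply contDiff_const
  have hre : ∀ v : ℂ, ContDiff ℝ ∞ fun ξ => (fderiv ℝ φ ξ v).re := fun v =>
    Complex.reCLM.contDiff.comp (ha v)
  have him : ∀ v : ℂ, ContDiff ℝ ∞ fun ξ => (fderiv ℝ φ ξ v).im := fun v =>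
    Complex.imCLM.contDiff.comp (ha v)
  obtain ⟨d, hd'⟩ : ∃ d : ℂ → ℝ, d = fun ξ => (fderiv ℝ φ ξ 1).re * (fderiv ℝ φ ξ Complex.I).im -
    (fderiv ℝ φ ξ 1).im * (fderiv ℝ φ ξ Complex.I).re := ⟨_, rfl⟩
  have d0 : ∀ ξ, d ξ ≠ 0 := fun ξ => by rw [hd']; exact VFld_det (hd ξ)
  have ds : ContDiff ℝ ∞ d := by
    rw [hd']
    exact ((hre _).mul (him _)).sub ((him _).mul (hre _))
  obtain ⟨Y, hY⟩ : ∃ Y : ℂ → ℂ, Y = fun ξ => (((fderiv ℝ φ ξ Complex.I).im / d ξ : ℝ) : ℂ) +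
    ((-(fderiv ℝ φ ξ 1).im / d ξ : ℝ) : ℂ) * Complex.I := ⟨_, rfl⟩
  have Y1 : ∀ ξ, fderiv ℝ φ ξ (Y ξ) = 1 := fun ξ => by
    have := d0 ξ
    rw [hY, VFld_app]
    apply Complex.ext
    · simp only [Complex.add_re, Complex.re_ofReal_mul, Complex.one_re]
      field_simp
      rw [hd']
      ring
    · simp only [Complex.add_im, Complex.im_ofReal_mul, Complex.one_im]
      ring
  have Ys : ContDiff ℝ ∞ Y := by
    rw [hY]
    exact (Complex.ofRealCLM.contDiff.comp ((him _).div ds d0)).add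
      ((Complex.ofRealCLM.contDiff.comp ((him _).neg.div ds d0)).mul contDiff_const)
  obtain ⟨Λ, k1, k2, k3⟩ := smooth_log Ys (fun ξ h => by simpa [h] using Y1 ξ) (R := R + 1)
    (by linarith) fun ξ hξ => by
      have e : φ =ᶠ[𝓝 ξ] fun y => y :=
        (continuousAt_const.eventually_lt continuous_norm.continuousAt
          (show R < ‖ξ‖ by linarith)).mono fun y hy => h1 y hy.le
      have := Y1 ξ
      rwa [e.fderiv_eq, fderiv_fun_id] at this
  exact ⟨Λ, k1, fun ξ => by rw [k2, Y1], k3⟩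

end BEp
end
end

-- merged part: Pool.Agent.Work.MP_f0515e_an.P3.VEdges1
section
/-! All the edges, for every exponent, keeping conical germs at the vertices.
Plan. Copy of D3/MEdges with the extra invariant VG F v at the points of Ω ∩ B. Energy: tube_small0 (constant slope, vol_tube), Eg_step with L. In stepC choose ρ also below the numbers d of VG.ray at a (w = -(b - a)) and at b (w = b - a):
a + t • y is not in the lens and differs from a and b, so F' = F near it. HomN F' at a, b: F' = F + F0 (· - a) - H (· - a), H is homogeneous at 0 and at b - a (EGm.eqv). At other points of B, F' = F locally (VG.congr).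
ltp_vg: exists_afk; Kx.near and convexity of the closed cell give HomN; a closed ball is covered by finitely many closed cells (Kx.lf), dense_sUnion_interior_of_closed with the complement of the open ball gives an interior point. -/

open Set Metric Filter Topology Function BEv MeasureTheory
open scoped NNReal ENNReal ContDiff

noncomputable section
namespace BEp

theorem tube_small0 {p : ℝ} (hp0 : 0 ≤ p) (a b : Rn 3) (M L : ℝ) {ε : ℝ≥0∞} (hε : ε ≠ 0) :
    ∀ᶠ r in 𝓝[>] (0 : ℝ),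
      (ENNReal.ofReal M ^ p + ENNReal.ofReal (2 * L) ^ p) * volume (tube a b r) ≤ ε := by
  obtain ⟨C, -, hC⟩ := vol_tube a b
  have h1 : Tendsto (fun r : ℝ => ENNReal.ofReal (C * r ^ 2)) (𝓝[>] 0) (𝓝 0) := by
    have := ENNReal.tendsto_ofReal ((show Continuous fun r : ℝ => C * r ^ 2 by fun_prop).tendsto'
      0 0 (by simp))
    rw [ENNReal.ofReal_zero] at this
    exact this.mono_left nhdsWithin_le_nhds
  have h2 := ENNReal.Tendsto.const_mul (a := ENNReal.ofReal M ^ p + ENNReal.ofReal (2 * L) ^ p) h1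
    (Or.inr (ENNReal.add_ne_top.2 ⟨ENNReal.rpow_ne_top_of_nonneg hp0 ENNReal.ofReal_ne_top,
      ENNReal.rpow_ne_top_of_nonneg hp0 ENNReal.ofReal_ne_top⟩))
  rw [mul_zero] at h2
  filter_upwards [h2.eventually (ge_mem_nhds (pos_iff_ne_zero.2 hε)), Ioc_mem_nhdsGT one_pos]
    with r k1 k2
  exact (mul_le_mul_right (hC r k2) _).trans k1

theorem ltp_vg {Ω : Set (Rn 3)} {G : Rn 3 → Rn 3} (hΩ : IsOpen Ω) (ht : LTP Ω G) {v : Rn 3}
    (hv : v ∈ Ω) : VG G v := by
  obtain ⟨r, r0, hr⟩ := nhds_basis_closedBall.mem_iff.1 (hΩ.mem_nhds hv)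
  obtain ⟨g, hg, e⟩ := ht _ (isCompact_closedBall v r) hr
  refine VG.congr (f := g) ⟨?_, ?_⟩ (eventuallyEq_of_mem (closedBall_mem_nhds v r0) e)
  · obtain ⟨ρ, ρ0, h⟩ := tp_homog hg v
    exact ⟨ρ, ρ0, fun y hy t k => by rw [h y hy t k, add_sub_cancel_left]⟩
  · obtain ⟨S, hS, h⟩ := hg.pa (‖v‖ + 1)
    have hd := dense_sUnion_interior_of_closed (S := insert (ball (0 : Rn 3) (‖v‖ + 1))ᶜ
      ((fun A : (Rn 3 →L[ℝ] Rn 3) × Rn 3 => {x | g x = A.1 x + A.2}) '' S)) (by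
        rintro _ (rfl | ⟨A, -, rfl⟩)
        · exact isOpen_ball.isClosed_compl
        · exact isClosed_eq hg.continuous (by fun_prop)) ((hS.image _).insert _).countable
      (eq_univ_of_forall fun x => by
        by_cases hx : x ∈ ball (0 : Rn 3) (‖v‖ + 1)
        · obtain ⟨A, hA, k⟩ := h x (ball_subset_closedBall hx)
          exact ⟨_, Or.inr ⟨A, hA, rfl⟩, k⟩
        · exact ⟨_, Or.inl rfl, hx⟩)
    rw [frequently_nhdsWithin_iff]
    refine ((mem_closure_iff_frequently.1 (hd.sdiff_singleton v v)).and_eventually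
      (isOpen_ball.mem_nhds (show v ∈ ball (0 : Rn 3) (‖v‖ + 1) by simp))).mono ?_
    rintro x ⟨⟨k1, k2⟩, k3⟩
    refine ⟨?_, k2⟩
    obtain ⟨s, hs, k⟩ := mem_iUnion₂.1 k1
    rcases hs with rfl | ⟨A, -, rfl⟩
    · exact absurd k3 (interior_subset k)
    · exact ⟨A.1, A.2, mem_interior_iff_mem_nhds.1 k⟩

end BEp
end
end
end

-- merged part: Pool.Agent.Work.MP_f0515e_an.P3.VEdge
section
-- merged part: Pool.Agent.Work.MP_f0515e_an.D3.MEdge
section
/-! The model modification in three-space.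
Plan. chart3: a linear isomorphism of Rn 3 with ℝ × ℂ sending v to (1, 0) (same finrank; extend v to a basis, or compose any isomorphism with an automorphism of ℝ × ℂ).
edge_model: e with e v = (1,0), e' with e' (H v) = (1,0) (H v ≠ 0 since H 0 = 0 and H is injective). Φ = e' ∘ H ∘ e.symm has Φ (z,u) = (z + κ u, h u) with κ u = (Φ (0,u)).1, h u = (Φ (0,u)).2;
both are homogeneous and Lipschitz, h is expanding (compare (0,u) and (κ u - κ u', u')). polar gives σ, k; replace e by e composed with id × σ.symm, κ by κ ∘ σ. edge_mod gives F0;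
F = e'.symm ∘ F0 ∘ e, Z = e ⁻¹' mz η with ‖e.symm‖ η < ρ. H is onto (open image by GEmb_open with Ω = univ, closed image by AntilipschitzWith.isClosed_range, connected space);
if F x = H y with y outside Z then F y = F x. CR by CR.comp with SI.aff and CR.post. -/

open Set Metric Filter Topology Function BEv MeasureTheory
open scoped NNReal ENNReal ContDiff

noncomputable section
namespace BEp

theorem chart3 {v : Rn 3} (hv : v ≠ 0) : ∃ e : Rn 3 ≃L[ℝ] ℝ × ℂ, e v = (1, 0) := by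
  have e : Rn 3 ≃L[ℝ] ℝ × ℂ := ContinuousLinearEquiv.ofFinrankEq (by simp)
  obtain ⟨A, hA⟩ := SeparatingDual.exists_continuousLinearEquiv_apply_eq (R := ℝ)
    (e.map_ne_zero_iff.2 hv) (show ((1, 0) : ℝ × ℂ) ≠ 0 by simp)
  exact ⟨e.trans A, hA⟩

section
variable {E F E' F' : Type} [NormedAddCommGroup E] [NormedSpace ℝ E] [NormedAddCommGroup F]
  [NormedSpace ℝ F] [NormedAddCommGroup E'] [NormedSpace ℝ E'] [NormedAddCommGroup F']
  [NormedSpace ℝ F'] {H : E → F}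

theorem MEdge_lz {L : ℝ} (h : Lz H L) (A : E' →L[ℝ] E) (B : F →L[ℝ] F') :
    Lz (fun x => B (H (A x))) (‖B‖ * |L| * ‖A‖) := fun x y => by
  rw [← map_sub, mul_assoc, mul_assoc]
  refine (B.le_opNorm _).trans (mul_le_mul_of_nonneg_left ((h _ _).trans ?_) (norm_nonneg _))
  rw [← map_sub]
  exact mul_le_mul (le_abs_self _) (A.le_opNorm _) (norm_nonneg _) (abs_nonneg _)

theorem MEdge_xp {c : ℝ} (h : Xp H c) (A : E' ≃L[ℝ] E) (B : F ≃L[ℝ] F') :
    ∃ c', Xp (fun x => B (H (A x))) c' := by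
  have a0 := norm_nonneg (A.symm : E →L[ℝ] E')
  have b0 := norm_nonneg (B.symm : F' →L[ℝ] F)
  have c0 := h.1
  refine ⟨c / (‖(A.symm : E →L[ℝ] E')‖ * ‖(B.symm : F' →L[ℝ] F)‖ + 1), by positivity,
    fun x y => ?_⟩
  have h1 := (A.symm : E →L[ℝ] E').le_opNorm (A x - A y)
  have h2 := (B.symm : F' →L[ℝ] F).le_opNorm (B (H (A x)) - B (H (A y)))
  simp only [map_sub, ContinuousLinearEquiv.coe_coe, ContinuousLinearEquiv.symm_apply_apply]
    at h1 h2
  rw [div_mul_eq_mul_div, div_le_iff₀ (by positivity)]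
  linarith only [h1, c0, h, h2, a0, mul_le_mul_of_nonneg_left h1 c0.le,
    mul_le_mul_of_nonneg_left ((h.2 _ _).trans h2) a0, norm_nonneg (B (H (A x)) - B (H (A y)))]

end

theorem MEdge_chart {H : Rn 3 → Rn 3} {v : Rn 3} (h : EGm H v) {e e' : Rn 3 ≃L[ℝ] ℝ × ℂ}
    (he : e v = (1, 0)) (he' : e' (H v) = (1, 0)) :
    ∃ (κ : ℂ → ℝ) (g : ℂ → ℂ) (M L c : ℝ), Hmg κ ∧ Hmg g ∧ Lz κ M ∧ Lz g L ∧ Xp g c ∧
      ∀ x, e' (H (e.symm x)) = (x.1 + κ x.2, g x.2) := by
  obtain ⟨L, hL⟩ := h.lp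
  obtain ⟨c, hc⟩ := h.xp
  obtain ⟨c', h1⟩ := MEdge_xp hc e.symm e'
  obtain ⟨L', h2⟩ : ∃ L', Lz (fun x => e' (H (e.symm x))) L' :=
    ⟨_, MEdge_lz hL (e.symm : ℝ × ℂ →L[ℝ] Rn 3) (e' : Rn 3 →L[ℝ] ℝ × ℂ)⟩
  obtain ⟨Φ, hΦ⟩ : ∃ Φ, Φ = fun x => e' (H (e.symm x)) := ⟨_, rfl⟩
  have h3 : ∀ x, Φ x = (x.1 + (Φ (0, x.2)).1, (Φ (0, x.2)).2) := fun x => by
    have : e.symm x = e.symm (0, x.2) + x.1 • v := e.injective (by simp [he])
    simp only [hΦ]
    rw [this, h.eqv, map_add, map_smul, he']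
    ext <;> simp [add_comm]
  have h4 : ∀ (t : ℝ) u, 0 ≤ t → Φ (0, t • u) = t • Φ (0, u) := fun t u ht => by
    simp only [hΦ]
    rw [← map_smul, ← h.hmg t _ ht, ← map_smul, Prod.smul_mk, smul_zero]
  rw [← hΦ] at h1 h2
  have h5 : ∀ u u', ‖Φ (0, u) - Φ (0, u')‖ ≤ L' * ‖u - u'‖ := fun u u' =>
    (h2 (0, u) (0, u')).trans_eq (by simp)
  refine ⟨fun u => (Φ (0, u)).1, fun u => (Φ (0, u)).2, _, _, c',
    fun t u ht => congrArg Prod.fst (h4 t u ht), fun t u ht => congrArg Prod.snd (h4 t u ht),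
    fun u u' => (norm_fst_le (_ - _)).trans (h5 u u'),
    fun u u' => (norm_snd_le (_ - _)).trans (h5 u u'), ⟨h1.1, fun u u' => ?_⟩,
    fun x => (congrFun hΦ x).symm.trans (h3 x)⟩
  have := h1.2 (0, u) ((Φ (0, u)).1 - (Φ (0, u')).1, u')
  rw [h3 ((Φ (0, u)).1 - (Φ (0, u')).1, u')] at this
  refine (mul_le_mul_of_nonneg_left (norm_snd_le (((0, u) : ℝ × ℂ) - (_, u'))) h1.1.le).trans
    (this.trans_eq ?_)
  simp [Prod.norm_def]

theorem edge_model {H : Rn 3 → Rn 3} {v : Rn 3} (h : EGm H v) :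
    ∃ L : ℝ, 0 ≤ L ∧ Lz H L ∧ ∀ ρ : ℝ, 0 < ρ → ∃ (Z : Set (Rn 3)) (F : Rn 3 → Rn 3), IsClosed Z ∧
      openSegment ℝ 0 v ⊆ Z ∧ Z ⊆ lens 0 v ρ ∪ {0, v} ∧ Lz F L ∧ Injective F ∧ F 0 = 0 ∧
      F v = H v ∧ EqOn F H Zᶜ ∧ F '' Z ⊆ H '' Z ∧ ∀ x ∈ Z, x ≠ 0 → x ≠ v → CR F x := by
  obtain ⟨L0, hL0⟩ := h.lp
  obtain ⟨c0, hc0⟩ := h.xp
  have H0 : H 0 = 0 := by simpa using h.hmg 0 0 le_rfl
  obtain ⟨e0, he0⟩ := chart3 h.ne
  obtain ⟨e', he'⟩ := chart3 (v := H v) fun k => h.ne (hc0.inj (k.trans H0.symm))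
  obtain ⟨_, g, _, _, _, -, g0, -, g1, g2, g3⟩ := MEdge_chart h he0 he'
  obtain ⟨σ, k, M, k0, k1, k2, k3⟩ := polar g0 g1 g2
  obtain ⟨c, L1, L10, hk⟩ := fm_of_ang k0 k1 k2
  obtain ⟨e, he, hσ⟩ : ∃ e : Rn 3 ≃L[ℝ] ℝ × ℂ, e v = (1, 0) ∧
      ∀ u, e.symm (0, u) = e0.symm (0, σ u) :=
    ⟨e0.trans ((ContinuousLinearEquiv.refl ℝ ℝ).prodCongr σ.symm), by simp [he0], fun u => rfl⟩
  obtain ⟨κ, g', M', _, _, κ0, -, κ1, -, -, g4⟩ := MEdge_chart h he he'
  have g5 : ∀ u, g' u = hsp k 1 u := fun u => by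
    have := g4 (0, u)
    rw [hσ, g3] at this
    exact (congrArg Prod.snd this).symm.trans (k3 u)
  obtain ⟨c', L', hF⟩ := edge_mod k0 k1 L10 hk κ0 κ1
  have onto : Surjective H := by
    have a1 : AntilipschitzWith ⟨c0⁻¹, (inv_pos.2 hc0.1).le⟩ H :=
      AntilipschitzWith.of_le_mul_dist fun x y => by
        rw [dist_eq_norm, dist_eq_norm]
        exact (le_inv_mul_iff₀ hc0.1).2 (hc0.2 x y)
    have a2 := LipschitzWith.of_dist_le' (f := H) fun x y => by
      rw [dist_eq_norm, dist_eq_norm]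
      exact hL0 x y
    exact range_eq_univ.1 (IsClopen.eq_univ ⟨a1.isClosed_range a2.uniformContinuous,
      image_univ ▸ GEmb_open a2.continuous.continuousOn hc0.inj.injOn isOpen_univ
        (subset_univ _)⟩ (range_nonempty H))
  refine ⟨max |L0| (‖(e'.symm : ℝ × ℂ →L[ℝ] Rn 3)‖ * |L'| * ‖(e : Rn 3 →L[ℝ] ℝ × ℂ)‖),
    le_max_of_le_left (abs_nonneg _), fun x y => (hL0 x y).trans (mul_le_mul_of_nonneg_right
      (le_max_of_le_left (le_abs_self _)) (norm_nonneg _)), fun ρ hρ => ?_⟩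
  obtain ⟨η, hη, ηρ⟩ : ∃ η ∈ Ioc (0 : ℝ) 1, ‖(e.symm : ℝ × ℂ →L[ℝ] Rn 3)‖ * η < ρ := by
    have n0 := norm_nonneg (e.symm : ℝ × ℂ →L[ℝ] Rn 3)
    refine ⟨min 1 (ρ / (‖(e.symm : ℝ × ℂ →L[ℝ] Rn 3)‖ + 1)),
      ⟨lt_min one_pos (by positivity), min_le_left _ _⟩,
      (mul_le_mul_of_nonneg_left (min_le_right _ _) n0).trans_lt ?_⟩
    rw [← mul_div_assoc, div_lt_iff₀ (by positivity)]
    linarith
  obtain ⟨F, F1, F2, F3, F4, F5⟩ := hF η hη
  have inj : Injective fun x => e'.symm (F (e x)) :=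
    e'.symm.injective.comp (F1.inj.comp e.injective)
  have eq : EqOn (fun x => e'.symm (F (e x))) H (e ⁻¹' mz η)ᶜ := fun x hx => by
    have := g4 (e x)
    rw [e.symm_apply_apply, g5, ← F4 _ hx] at this
    exact e'.symm_apply_eq.2 this.symm
  have mid : ∀ x, e x ∈ mz η → x ≠ 0 → x ≠ v → (e x).1 ∈ Ioo (0 : ℝ) 1 := fun x hx h0 h1 => by
    refine ⟨hx.1.1.lt_of_ne fun k => h0 (e.injective ?_), hx.1.2.lt_of_ne fun k =>
      h1 (e.injective ?_)⟩
    · have := hx.2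
      rw [← k, zero_mul, mul_zero, norm_le_zero_iff] at this
      exact (Prod.ext k.symm this).trans (map_zero e).symm
    · have := hx.2
      rw [k, sub_self, mul_zero, mul_zero, norm_le_zero_iff] at this
      exact (Prod.ext k this).trans he.symm
  refine ⟨e ⁻¹' mz η, fun x => e'.symm (F (e x)), IsClosed.preimage e.continuous
    ((isClosed_Icc.preimage continuous_fst).inter (isClosed_le continuous_snd.norm (by fun_prop))),
    ?_, fun x hx => ?_, fun x y => (MEdge_lz F2 (e : Rn 3 →L[ℝ] ℝ × ℂ)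
      (e'.symm : ℝ × ℂ →L[ℝ] Rn 3) x y).trans (mul_le_mul_of_nonneg_right (le_max_right _ _)
      (norm_nonneg _)), inj, ?_, ?_, eq, ?_, fun x hx h0 h1 => ?_⟩
  · rintro _ ⟨s, t, hs, ht, st, rfl⟩
    have : e (s • (0 : Rn 3) + t • v) = (t, 0) := by simp [he]
    rw [mem_preimage, this]
    exact ⟨⟨ht.le, by linarith⟩, norm_zero.trans_le
      (mul_nonneg hη.1.le (mul_nonneg ht.le (by linarith)))⟩
  · by_cases h0 : x = 0
    · exact Or.inr (Or.inl h0)
    by_cases h1 : x = v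
    · exact Or.inr (Or.inr h1)
    have hz := mid x hx h0 h1
    refine Or.inl ⟨_, hz, ?_⟩
    have : x - seg 0 v (e x).1 = e.symm (0, (e x).2) :=
      e.injective (by ext <;> simp [seg, he])
    rw [this]
    refine ((e.symm : ℝ × ℂ →L[ℝ] Rn 3).le_opNorm _).trans_lt ?_
    rw [Prod.norm_mk, norm_zero, max_eq_right (norm_nonneg _)]
    refine (mul_le_mul_of_nonneg_left hx.2 (norm_nonneg _)).trans_lt ?_
    rw [← mul_assoc]
    exact mul_lt_mul_of_pos_right ηρ (mul_pos hz.1 (sub_pos.2 hz.2))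
  · simp only [map_zero, show F 0 = 0 from F3 0]
  · exact e'.symm_apply_eq.2 (by rw [he, F3, he'])
  · rintro _ ⟨x, hx, rfl⟩
    obtain ⟨y, hy⟩ := onto (e'.symm (F (e x)))
    exact ⟨y, by_contra fun k => k (inj ((eq k).trans hy) ▸ hx), hy⟩
  · have := F5 _ (mid x hx h0 h1)
    rw [← add_zero (e x)] at this
    simpa using (CR.comp (T := fun y => e y + 0) this (SI.aff e 0 x)).post e'.symm 0

end BEp
end
end

-- merged part: Pool.Agent.Work.MP_f0515e_an.P3.VMod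
section
/-! The model modification along an edge, conical at both ends.
Plan. Copy of D3/MMod (edge_mod) with the profile MModR replaced by q from exists_prof: parameter t x = 1 - smoothTransition (δ (log (max (η q x.1) ‖x.2‖) - log ‖x.2‖)). The parameter does not change under x ↦ (z0 + s (x.1 - z0), s x.2)
when q (z0 + s (x.1 - z0)) = s q x.1, s > 0, x.2 ≠ 0; on the axis the map is the identity; hsp k t is homogeneous. exists_prof: w z = z + smoothTransition (2 z - 1/2) (1 - 2 z) on Icc 0 1, q z = a w (clamp z) with a small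
(Lipschitz constant from MMod_st, w z ≤ 4 z (1 - z)). -/

open Set Metric Filter Topology Function BEv MeasureTheory
open scoped NNReal ENNReal ContDiff

noncomputable section
namespace BEp

/-- The unscaled profile. -/
def VModW (z : ℝ) : ℝ := z + Real.smoothTransition (2 * z - 1 / 2) * (1 - 2 * z)

theorem VModW_lo {z : ℝ} (h : z ≤ 1 / 4) : VModW z = z := by
  rw [VModW, Real.smoothTransition.zero_of_nonpos (by linarith only [h]), zero_mul, add_zero]

theorem VModW_hi {z : ℝ} (h : 3 / 4 ≤ z) : VModW z = 1 - z := by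
  rw [VModW, Real.smoothTransition.one_of_one_le (by linarith only [h])]
  ring

theorem VModW_pos {z : ℝ} (h : z ∈ Ioo (0 : ℝ) 1) : 0 < VModW z := by
  have a := Real.smoothTransition.nonneg (2 * z - 1 / 2)
  have b := Real.smoothTransition.le_one (2 * z - 1 / 2)
  unfold VModW
  rcases le_total z (1 / 2) with k | k
  · linarith only [h, a, k, h.1, mul_nonneg_of_nonpos_of_nonpos (Mathlib.Tactic.Linarith.sub_nonpos_of_le a) (Mathlib.Tactic.Linarith.sub_nonpos_of_le k)]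
  · linarith only [h, b, k, h.2, mul_nonneg_of_nonpos_of_nonpos (Mathlib.Tactic.Linarith.sub_nonpos_of_le b) (Mathlib.Tactic.Linarith.sub_nonpos_of_le k)]

theorem VModW_le {z : ℝ} (h : z ∈ Icc (0 : ℝ) 1) : VModW z ≤ 4 * (z * (1 - z)) := by
  rcases le_total z (1 / 4) with k | k
  · rw [VModW_lo k]
    linarith only [h, k, h.1, mul_nonneg_of_nonpos_of_nonpos (Mathlib.Tactic.Linarith.sub_nonpos_of_le k) (Mathlib.Tactic.Linarith.sub_nonpos_of_le h.left)]
  rcases le_total (3 / 4) z with k' | k'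
  · rw [VModW_hi k']
    linarith only [k, h, h.2, mul_nonneg_of_nonpos_of_nonpos (Mathlib.Tactic.Linarith.sub_nonpos_of_le k) (Mathlib.Tactic.Linarith.sub_nonpos_of_le h.right)]
  have a := Real.smoothTransition.nonneg (2 * z - 1 / 2)
  have b := Real.smoothTransition.le_one (2 * z - 1 / 2)
  unfold VModW
  rcases le_total z (1 / 2) with q | q <;> linarith only [b, k, a, q, k', mul_nonneg_of_nonpos_of_nonpos (Mathlib.Tactic.Linarith.sub_nonpos_of_le k) (Mathlib.Tactic.Linarith.sub_nonpos_of_le a), mul_nonneg_of_nonpos_of_nonpos (Mathlib.Tactic.Linarith.sub_nonpos_of_le k) (Mathlib.Tactic.Linarith.sub_nonpos_of_le q), mul_nonneg_of_nonpos_of_nonpos (Mathlib.Tactic.Linarith.sub_nonpos_of_le k) (Mathlib.Tactic.Linarith.sub_nonpos_of_le k'), mul_nonneg_of_nonpos_of_nonpos (Mathlib.Tactic.Linarith.sub_nonpos_of_le k') (Mathlib.Tactic.Linarith.sub_nonpos_of_le b)]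

theorem VModW_lip {K : ℝ} (K0 : 0 < K) (hK : ∀ a b,
    |Real.smoothTransition a - Real.smoothTransition b| ≤ K * |a - b|) {s t : ℝ}
    (hs : s ∈ Icc (0 : ℝ) 1) : |VModW s - VModW t| ≤ (3 + 2 * K) * |s - t| := by
  have k := hK (2 * s - 1 / 2) (2 * t - 1 / 2)
  rw [show 2 * s - 1 / 2 - (2 * t - 1 / 2) = 2 * (s - t) by ring, abs_mul, abs_two] at k
  have a := Real.smoothTransition.nonneg (2 * t - 1 / 2)
  have b := Real.smoothTransition.le_one (2 * t - 1 / 2)
  unfold VModW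
  generalize Real.smoothTransition (2 * s - 1 / 2) = u at *
  generalize Real.smoothTransition (2 * t - 1 / 2) = v at *
  rw [show s + u * (1 - 2 * s) - (t + v * (1 - 2 * t)) =
    (u - v) * (1 - 2 * s) + (s - t) * (1 - 2 * v) by ring]
  refine (abs_add_le _ _).trans ?_
  rw [abs_mul, abs_mul]
  have c1 : |1 - 2 * s| ≤ 1 := abs_le.2 ⟨by linarith [hs.2], by linarith [hs.1]⟩
  have c2 : |1 - 2 * v| ≤ 1 := abs_le.2 ⟨by linarith, by linarith⟩
  have := mul_le_of_le_one_right (abs_nonneg (u - v)) c1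
  have := mul_le_of_le_one_right (abs_nonneg (s - t)) c2
  linarith [abs_nonneg (s - t)]

theorem exists_prof : ∃ (q : ℝ → ℝ) (a : ℝ), 0 < a ∧ (∀ z z', |q z - q z'| ≤ |z - z'|) ∧
    (∀ z ∈ Ioo (0 : ℝ) 1, 0 < q z ∧ ContDiffAt ℝ 1 q z) ∧
    (∀ z ∈ Icc (0 : ℝ) 1, q z ≤ z * (1 - z)) ∧ (∀ z, z ∉ Icc (0 : ℝ) 1 → q z = 0) ∧
    (∀ z, |z| ≤ 1 / 4 → q z = a * max 0 z) ∧ ∀ z, |z| ≤ 1 / 4 → q (1 + z) = a * max 0 (-z) := by
  obtain ⟨K, K0, hK⟩ := MMod_st
  have cl : ∀ z ∈ Icc (0 : ℝ) 1, max 0 (min z 1) = z := fun z h => by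
    rw [min_eq_left h.2, max_eq_right h.1]
  have a0 : 0 < (4 + 2 * K)⁻¹ := by positivity
  have a1 : (4 + 2 * K)⁻¹ * (4 + 2 * K) = 1 := inv_mul_cancel₀ (by positivity)
  generalize (4 + 2 * K)⁻¹ = a at a0 a1
  refine ⟨fun z => a * VModW (max 0 (min z 1)), a, a0, fun z z' => ?_, fun z hz => ⟨?_, ?_⟩,
    fun z hz => ?_, fun z hz => ?_, fun z hz => ?_, fun z hz => ?_⟩
  · have h : |max 0 (min z 1) - max 0 (min z' 1)| ≤ |z - z'| := by
      refine (abs_max_sub_max_le_max _ _ _ _).trans (max_le (by simp) ?_)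
      exact (abs_min_sub_min_le_max _ _ _ _).trans (max_le le_rfl (by simp))
    have k := VModW_lip K0 hK (s := max 0 (min z 1)) (t := max 0 (min z' 1))
      ⟨le_max_left _ _, max_le zero_le_one (min_le_right _ _)⟩
    rw [← mul_sub, abs_mul, abs_of_pos a0]
    refine (mul_le_mul_of_nonneg_left (k.trans (mul_le_mul_of_nonneg_left h (by positivity)))
      a0.le).trans ?_
    rw [← mul_assoc]
    exact mul_le_of_le_one_left (abs_nonneg _) (by linarith only [a0, a1])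
  · simp only [cl z (Ioo_subset_Icc_self hz)]
    exact mul_pos a0 (VModW_pos hz)
  · have c : ContDiff ℝ 1 fun z => a * VModW z := contDiff_const.mul (contDiff_id.add
      ((Real.smoothTransition.contDiff.comp (by fun_prop)).mul (by fun_prop)))
    refine c.contDiffAt.congr_of_eventuallyEq ?_
    filter_upwards [isOpen_Ioo.mem_nhds hz] with y hy
    rw [cl y (Ioo_subset_Icc_self hy)]
  · simp only [cl z hz]
    have := mul_nonneg hz.1 (sub_nonneg.2 hz.2)
    refine (mul_le_mul_of_nonneg_left (VModW_le hz) a0.le).trans ?_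
    rw [← mul_assoc]
    exact mul_le_of_le_one_left this (by nlinarith)
  · rcases lt_or_ge z 0 with k | k
    · simp only [max_eq_left ((min_le_left z 1).trans k.le)]
      rw [VModW_lo (by norm_num), mul_zero]
    · simp only [min_eq_right (le_of_not_ge fun q => hz ⟨k, q⟩ : 1 ≤ z),
        max_eq_right (zero_le_one' ℝ)]
      rw [VModW_hi (by norm_num), sub_self, mul_zero]
  · have k := (abs_le.1 hz).2
    simp only [min_eq_left (show z ≤ 1 by linarith only [k])]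
    rw [VModW_lo (max_le (by norm_num) k)]
  · have k := (abs_le.1 hz).1
    have k1 : 3 / 4 ≤ min (1 + z) 1 := le_min (by linarith only [k]) (by norm_num)
    simp only [max_eq_right (show 0 ≤ min (1 + z) 1 by linarith only [k1])]
    rw [VModW_hi k1, ← max_sub_sub_left, max_comm, sub_self, sub_add_cancel_left]

/-- The slowly varying parameter. -/
def VModT (q : ℝ → ℝ) (δ η : ℝ) (x : ℝ × ℂ) : ℝ :=
  1 - Real.smoothTransition (δ * (Real.log (max (η * q x.1) ‖x.2‖) - Real.log ‖x.2‖))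

theorem VModT_mem (q : ℝ → ℝ) (δ η : ℝ) (x : ℝ × ℂ) : VModT q δ η x ∈ Icc (0 : ℝ) 1 :=
  ⟨sub_nonneg.2 (Real.smoothTransition.le_one _), sub_le_self _ (Real.smoothTransition.nonneg _)⟩

theorem VModT_var {q : ℝ → ℝ} (hq : ∀ z z', |q z - q z'| ≤ |z - z'|) {K δ η : ℝ}
    (K0 : 0 < K) (hK : ∀ a b,
    |Real.smoothTransition a - Real.smoothTransition b| ≤ K * |a - b|) (hδ : 0 < δ)
    (hη : η ∈ Ioc (0 : ℝ) 1) (x y : ℝ × ℂ) :
    min ‖x.2‖ ‖y.2‖ * |VModT q δ η x - VModT q δ η y| ≤ 2 * K * δ * ‖x - y‖ := by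
  rcases (le_min (norm_nonneg x.2) (norm_nonneg y.2)).eq_or_lt with w | w
  · rw [← w, zero_mul]; positivity
  have n1 : |x.1 - y.1| ≤ ‖x - y‖ := norm_fst_le (x - y)
  have n2 : |‖x.2‖ - ‖y.2‖| ≤ ‖x - y‖ := (abs_norm_sub_norm_le _ _).trans (norm_snd_le (x - y))
  have l1 := MMod_log w (min_le_left _ _) (min_le_right _ _)
  have l2 := MMod_log w ((min_le_left _ _).trans (le_max_right (η * q x.1) _))
    ((min_le_right _ _).trans (le_max_right (η * q y.1) _))
  have l3 : |max (η * q x.1) ‖x.2‖ - max (η * q y.1) ‖y.2‖| ≤ ‖x - y‖ := by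
    refine (abs_max_sub_max_le_max _ _ _ _).trans (max_le ?_ n2)
    rw [← mul_sub, abs_mul, abs_of_pos hη.1]
    exact (mul_le_of_le_one_left (abs_nonneg _) hη.2).trans ((hq _ _).trans n1)
  unfold VModT
  generalize Real.log (max (η * q x.1) ‖x.2‖) = a at *
  generalize Real.log (max (η * q y.1) ‖y.2‖) = b at *
  generalize Real.log ‖x.2‖ = a' at *
  generalize Real.log ‖y.2‖ = b' at *
  have k := hK (δ * (a - a')) (δ * (b - b'))
  have k2 : |a - a' - (b - b')| ≤ |a - b| + |a' - b'| := by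
    rw [show a - a' - (b - b') = (a - b) - (a' - b') by ring]; exact abs_sub _ _
  rw [← mul_sub, abs_mul, abs_of_pos hδ] at k
  rw [sub_sub_sub_cancel_left, abs_sub_comm]
  have k3 := mul_le_mul_of_nonneg_left (k.trans (mul_le_mul_of_nonneg_left
    (mul_le_mul_of_nonneg_left k2 hδ.le) K0.le)) w.le
  have k4 : min ‖x.2‖ ‖y.2‖ * (|a - b| + |a' - b'|) ≤ 2 * ‖x - y‖ := by linarith
  linarith only [k3, k4, K0, hδ, mul_le_mul_of_nonneg_left k4 (mul_pos K0 hδ).le]

theorem VModT_smul {q : ℝ → ℝ} {δ η t z z' : ℝ} {u : ℂ} (ht : 0 < t) (hu : u ≠ 0)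
    (h : q z' = t * q z) : VModT q δ η (z', t • u) = VModT q δ η (z, u) := by
  have n0 := norm_pos_iff.2 hu
  simp only [VModT, h]
  rw [norm_smul, Real.norm_of_nonneg ht.le, mul_left_comm η, ← mul_max_of_nonneg _ _ ht.le,
    Real.log_mul ht.ne' (n0.trans_le (le_max_right _ _)).ne', Real.log_mul ht.ne' n0.ne',
    add_sub_add_left_eq_sub]

theorem VMod_hsp {k : ℂ → ℂ} (k0 : Hmg k) (s : ℝ) {t : ℝ} (ht : 0 < t) (u : ℂ) :
    hsp k s (t • u) = t • hsp k s u := by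
  have t0 : (t : ℂ) ≠ 0 := Complex.ofReal_ne_zero.2 ht.ne'
  rw [hsp, hsp, k0 t u ht.le, norm_smul, Real.norm_of_nonneg ht.le, Complex.real_smul,
    Complex.real_smul, Complex.real_smul, Complex.ofReal_mul, mul_left_comm (s : ℂ),
    mul_div_mul_left _ _ t0, mul_assoc]

theorem edge_modC {k : ℂ → ℂ} {κ : ℂ → ℝ} (k0 : Hmg k) {M : ℝ} (k1 : Lz k M) {c L : ℝ}
    (hL : 0 ≤ L) (hk : Fm k c L) (κ0 : Hmg κ) {M' : ℝ} (κ1 : Lz κ M') :
    ∃ c' L' : ℝ, ∀ η ∈ Ioc (0 : ℝ) 1, ∃ F : ℝ × ℂ → ℝ × ℂ, Xp F c' ∧ Lz F L' ∧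
      (∀ z, F (z, 0) = (z, 0)) ∧ (∀ x, x ∉ mz η → F x = (x.1 + κ x.2, hsp k 1 x.2)) ∧
      (∀ x : ℝ × ℂ, x.1 ∈ Ioo (0 : ℝ) 1 → CR F x) ∧ HomN F 0 ∧ HomN F (1, 0) := by
  obtain ⟨Q, a, a0, p1, p2, p3, p4, p5, p6⟩ := exists_prof
  obtain ⟨K, K0, hK⟩ := MMod_st
  have M0 : 0 ≤ M' := by simpa using (norm_nonneg _).trans (κ1 1 0)
  have c0 : 0 < c := (hk.xp 0 ⟨le_rfl, zero_le_one⟩).1
  have z0 : κ 0 = 0 := by simpa using κ0 0 0 le_rfl
  let Φ : ℝ → ℝ × ℂ → ℝ × ℂ := fun s x => (x.1 + s * κ x.2, hsp k s x.2)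
  have q1 : ∀ s ∈ Icc (0 : ℝ) 1, ∀ x y : ℝ × ℂ, |s * κ x.2 - s * κ y.2| ≤ M' * ‖x.2 - y.2‖ :=
    fun s hs x y => by
      rw [← mul_sub, abs_mul, abs_of_nonneg hs.1]
      exact (mul_le_of_le_one_left (abs_nonneg _) hs.2).trans (κ1 _ _)
  have h1 : ∀ s ∈ Icc (0 : ℝ) 1, Xp (Φ s) (c / (c + M' + 1)) := fun s hs =>
    ⟨by positivity, fun x y => by
      have a1 : |x.1 + s * κ x.2 - (y.1 + s * κ y.2)| ≤ ‖Φ s x - Φ s y‖ := norm_fst_le (Φ s x - Φ s y)
      have a2 : c * ‖x.2 - y.2‖ ≤ ‖Φ s x - Φ s y‖ :=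
        ((hk.xp s hs).2 _ _).trans (norm_snd_le (Φ s x - Φ s y))
      have a3 := q1 s hs x y
      have a4 := mul_le_mul_of_nonneg_left a2 M0
      have a5 := norm_nonneg (Φ s x - Φ s y)
      have a6 : |x.1 - y.1| ≤ ‖Φ s x - Φ s y‖ + M' * ‖x.2 - y.2‖ := by
        rw [abs_le] at a1 a3 ⊢; constructor <;> linarith only [a1, a3, a1.1, a1.2, a3.1, a3.2]
      rw [div_mul_eq_mul_div, div_le_iff₀ (by positivity), Prod.norm_def, mul_max_of_nonneg _ _ c0.le]
      refine max_le ?_ (a2.trans (by linarith only [M0, a5, c0, mul_nonneg_of_nonpos_of_nonpos (Mathlib.Tactic.Linarith.sub_nonpos_of_le M0) (Mathlib.Tactic.Linarith.sub_nonpos_of_le a5), mul_nonneg_of_nonpos_of_nonpos (le_of_lt (Mathlib.Tactic.Linarith.sub_neg_of_lt c0)) (Mathlib.Tactic.Linarith.sub_nonpos_of_le a5)]))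
      change c * |x.1 - y.1| ≤ _
      linarith only [a4, a5, a6, c0, mul_le_mul_of_nonneg_left a6 c0.le]⟩
  have h2 : ∀ s ∈ Icc (0 : ℝ) 1, Lz (Φ s) (1 + M' + L) := fun s hs x y => by
    have a1 : |x.1 - y.1| ≤ ‖x - y‖ := norm_fst_le (x - y)
    have a2 : ‖x.2 - y.2‖ ≤ ‖x - y‖ := norm_snd_le (x - y)
    have a3 := q1 s hs x y
    have a4 := mul_le_mul_of_nonneg_left a2 M0
    have a5 := mul_le_mul_of_nonneg_left a2 hL
    have a6 := mul_nonneg hL (norm_nonneg (x - y))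
    have a7 := mul_nonneg M0 (norm_nonneg (x - y))
    refine norm_prod_le_iff.2 ⟨?_, (hk.lp s hs x.2 y.2).trans (by linarith [norm_nonneg (x - y)])⟩
    change |x.1 + s * κ x.2 - (y.1 + s * κ y.2)| ≤ _
    rw [abs_le] at a1 a3 ⊢; constructor <;> linarith only [a1, a3, a4, a6, a1.1, a1.2, a3.1, a3.2]
  have h3 : ∀ s ∈ Icc (0 : ℝ) 1, ∀ s' ∈ Icc (0 : ℝ) 1, ∀ x,
      ‖Φ s x - Φ s' x‖ ≤ (M' + L + 1) * ‖x.2‖ * |s - s'| := fun s hs s' hs' x => by
    have a1 : |κ x.2| ≤ M' * ‖x.2‖ := by simpa [z0] using κ1 x.2 0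
    have a2 := mul_nonneg (norm_nonneg x.2) (abs_nonneg (s - s'))
    refine norm_prod_le_iff.2 ⟨?_, (hk.par s hs s' hs' x.2).trans (by linarith only [a2, M0, mul_nonneg_of_nonpos_of_nonpos (Mathlib.Tactic.Linarith.sub_nonpos_of_le M0) (Mathlib.Tactic.Linarith.sub_nonpos_of_le a2)])⟩
    change |x.1 + s * κ x.2 - (x.1 + s' * κ x.2)| ≤ _
    rw [add_sub_add_left_eq_sub, ← sub_mul, abs_mul]
    linarith only [a2, a1, hL, mul_le_mul_of_nonneg_left a1 (abs_nonneg (s - s')), mul_nonneg_of_nonpos_of_nonpos (Mathlib.Tactic.Linarith.sub_nonpos_of_le hL) (Mathlib.Tactic.Linarith.sub_nonpos_of_le a2)]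
  set c1 := c / (c + M' + 1)
  have c10 : 0 < c1 := by positivity
  set δ := c1 / (4 * K * (M' + L + 1)) with hδ
  have δ0 : 0 < δ := by positivity
  refine ⟨c1 / 2, 1 + M' + L + c1 / 2, fun η hη => ?_⟩
  obtain ⟨f1, f2⟩ := fam_bil h1 h2 h3 (by positivity) (VModT_mem Q δ η)
    (VModT_var p1 K0 hK δ0 hη) (le_of_eq (by rw [hδ]; field_simp; ring))
  have ax : ∀ z, Φ (VModT Q δ η (z, 0)) (z, 0) = (z, 0) := fun z => by simp [Φ, z0, hsp]
  have hom : ∀ z0 : ℝ, (∀ z, |z| ≤ 1 / 4 → ∀ t ∈ Icc (0 : ℝ) 1,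
      Q (z0 + t * z) = t * Q (z0 + z)) → HomN (fun x => Φ (VModT Q δ η x) x) (z0, 0) := by
    refine fun z0 h => ⟨1 / 4, by norm_num, fun ⟨z, u⟩ hy t ht => ?_⟩
    have hz : |z| ≤ 1 / 4 := (norm_fst_le (z, u)).trans hy
    simp only [Prod.smul_mk, Prod.mk_add_mk, zero_add, smul_eq_mul, ax]
    rcases ht.1.eq_or_lt with rfl | t0
    · simp only [zero_smul, zero_mul, add_zero, ax, sub_self]
    by_cases hu : u = 0
    · simp only [hu, smul_zero, ax, Prod.mk_sub_mk, add_sub_cancel_left, sub_self, Prod.smul_mk,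
        smul_eq_mul]
    rw [VModT_smul t0 hu (h z hz t ht)]
    simp only [Φ, κ0 t u ht.1, VMod_hsp k0 _ t0, Prod.mk_sub_mk, Prod.smul_mk, smul_eq_mul,
      sub_zero]
    refine Prod.ext ?_ rfl
    simp only
    ring
  have sm : ∀ z : ℝ, |z| ≤ 1 / 4 → ∀ t ∈ Icc (0 : ℝ) 1, |t * z| ≤ 1 / 4 := fun z hz t ht => by
    rw [abs_mul, abs_of_nonneg ht.1]
    exact (mul_le_of_le_one_left (abs_nonneg _) ht.2).trans hz
  refine ⟨_, f1, f2, ax, fun x hx => ?_, fun x hx => ?_, hom 0 fun z hz t ht => ?_,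
    hom 1 fun z hz t ht => ?_⟩
  · have e : η * Q x.1 ≤ ‖x.2‖ := by
      by_cases q : x.1 ∈ Icc (0 : ℝ) 1
      · exact (mul_le_mul_of_nonneg_left (p3 _ q) hη.1.le).trans
          (le_of_not_ge fun r => hx ⟨q, r⟩)
      · rw [p4 _ q, mul_zero]; exact norm_nonneg _
    simp [Φ, VModT, max_eq_right e]
  rotate_left
  · rw [zero_add, zero_add, p5 _ (sm z hz t ht), p5 z hz, mul_left_comm t,
      mul_max_of_nonneg _ _ ht.1, mul_zero]
  · rw [p6 _ (sm z hz t ht), p6 z hz, mul_left_comm t, mul_max_of_nonneg _ _ ht.1, mul_zero,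
      mul_neg]
  have o1 : ∀ᶠ y : ℝ × ℂ in 𝓝 x, y.1 ∈ Ioo (0 : ℝ) 1 :=
    continuous_fst.continuousAt.eventually (isOpen_Ioo.mem_nhds hx)
  have pos : ∀ y : ℝ × ℂ, y.1 ∈ Ioo (0 : ℝ) 1 → 0 < η * Q y.1 := fun y hy =>
    mul_pos hη.1 (p2 _ hy).1
  have cQ : ContDiffAt ℝ 1 (fun y : ℝ × ℂ => η * Q y.1) x :=
    contDiffAt_const.mul (ContDiffAt.comp (g := Q) x (p2 _ hx).2 contDiffAt_fst)
  by_cases hu : x.2 = 0
  · refine (CR.id' x).congr ?_
    have o2 : ∀ᶠ y : ℝ × ℂ in 𝓝 x, ‖y.2‖ * Real.exp δ⁻¹ < η * Q y.1 :=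
      ContinuousAt.eventually_lt (by fun_prop) cQ.continuousAt (by simpa [hu] using pos x hx)
    filter_upwards [o1, o2] with y hy hy'
    by_cases q : y.2 = 0
    · have := ax y.1
      rwa [← q] at this
    have n0 := norm_pos_iff.2 q
    have l1 := Real.log_le_log (by positivity) (hy'.le.trans (le_max_left _ ‖y.2‖))
    rw [Real.log_mul n0.ne' (Real.exp_pos _).ne', Real.log_exp] at l1
    have e : VModT Q δ η y = 0 := by
      rw [VModT, Real.smoothTransition.one_of_one_le, sub_self]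
      exact (mul_inv_cancel₀ δ0.ne').symm.trans_le
        (mul_le_mul_of_nonneg_left (by linarith only [l1]) δ0.le)
    simp [Φ, e, hsp]
  obtain ⟨φ, ψ, φ0, hl⟩ := MMod_line hu
  let t : ℝ × ℂ → ℝ := fun y =>
    1 - Real.smoothTransition (δ * (Real.log (η * Q y.1) - Real.log ‖y.2‖))
  let Ψ : (ℝ × ℂ) × ℝ × ℂ → ℝ × ℂ := fun w =>
    (w.1.1 + t w.1 * w.2.1, w.1.2 * Complex.exp (t w.1 * w.2.2 / ‖w.1.2‖))
  let J : ℝ × ℂ → (ℝ × ℂ) × ℝ × ℂ := fun y => (y, κ y.2, k y.2)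
  have e : Ψ ∘ J =ᶠ[𝓝 x] fun y => Φ (VModT Q δ η y) y := by
    filter_upwards [o1, continuous_snd.continuousAt.eventually_ne hu] with y hy hy'
    have e : VModT Q δ η y = t y := by
      rw [VModT]
      rcases le_total (η * Q y.1) ‖y.2‖ with q | q
      · have := Real.log_le_log (pos y hy) q
        simp only [t, max_eq_right q, sub_self, mul_zero, Real.smoothTransition.zero]
        rw [Real.smoothTransition.zero_of_nonpos (by linarith only [δ0, this, mul_nonneg_of_nonpos_of_nonpos (le_of_lt (Mathlib.Tactic.Linarith.sub_neg_of_lt δ0)) (Mathlib.Tactic.Linarith.sub_nonpos_of_le this)])]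
      · rw [max_eq_left q]
    rw [e]; rfl
  have nn : ContDiffAt ℝ 1 (fun y : ℝ × ℂ => ‖y.2‖) x := contDiffAt_snd.norm ℝ hu
  have ct : ContDiffAt ℝ 1 t x :=
    contDiffAt_const.sub (Real.smoothTransition.contDiffAt.comp x (contDiffAt_const.mul
      ((cQ.log (pos x hx).ne').sub (nn.log (norm_ne_zero_iff.2 hu)))))
  have ct1 : ContDiffAt ℝ 1 (fun w : (ℝ × ℂ) × ℝ × ℂ => t w.1) (J x) :=
    ContDiffAt.comp (g := t) (J x) ct contDiffAt_fst
  have nn1 : ContDiffAt ℝ 1 (fun w : (ℝ × ℂ) × ℝ × ℂ => ((‖w.1.2‖⁻¹ : ℝ) : ℂ)) (J x) :=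
    Complex.ofRealCLM.contDiff.contDiffAt.comp (J x) (ContDiffAt.comp
      (g := fun y : ℝ × ℂ => ‖y.2‖⁻¹) (J x) (nn.inv (norm_ne_zero_iff.2 hu)) contDiffAt_fst)
  have cΨ : ContDiffAt ℝ 1 Ψ (J x) := by
    refine (contDiffAt_fst.fst.add (ct1.mul contDiffAt_snd.fst)).prodMk
      (contDiffAt_fst.snd.mul (ContDiffAt.cexp ?_))
    simpa [div_eq_mul_inv] using
      ((Complex.ofRealCLM.contDiff.contDiffAt.comp (J x) ct1).mul contDiffAt_snd.snd).mul nn1
  have cJ : Continuous J := continuous_id.prodMk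
    ((κ1.continuous.comp continuous_snd).prodMk (k1.continuous.comp continuous_snd))
  have dJ := HasFDerivAtFilter.prodMk
    (HasFDerivAtFilter.mono (hasStrictFDerivAt_id (𝕜 := ℝ) x) (inf_le_left : alg φ x ≤ _))
    ((MMod_sd κ0 κ1 hl).prodMk (MMod_sd k0 k1 hl))
  have d := HasFDerivAtFilter.comp (cΨ.hasStrictFDerivAt one_ne_zero) dJ
    (((cJ.prodMap cJ).tendsto (x, x)).mono_left inf_le_left)
  refine (cr_of_alg φ0 ((f2.ll x).congr e) f1.1 ?_ d).congr e.symm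
  filter_upwards [f1.ex x, MCR_pair e] with p a b
  rwa [b.1, b.2]

end BEp
end
end

-- merged part: Pool.Agent.Work.MP_f0515e_an.P3.VEdge
section
/-! The conical model modification in three-space.
Plan. edge_modelC: copy of edge_model (D3/MEdge) with edge_modC; HomN passes through linear isomorphisms (HomN.lin). VG.ray: r from HomN, an affine point v + y0 with ‖y0‖ < r, the affine points are open, so y can be taken off the line of w
(a proper subspace has dense complement; w ≠ 0, dimension three), d = distance of w to the closed line of y; AfN at v + t • y from f (v + t • u) = f v + t • (f (v + u) - f v) for u near y.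
vg_of_ray: the points v + t • y tend to v. -/

open Set Metric Filter Topology Function BEv MeasureTheory
open scoped NNReal ENNReal ContDiff

noncomputable section
namespace BEp

theorem HomN.lin {E F E' F' : Type} [NormedAddCommGroup E] [NormedSpace ℝ E] [NormedAddCommGroup F]
    [NormedSpace ℝ F] [NormedAddCommGroup E'] [NormedSpace ℝ E'] [NormedAddCommGroup F']
    [NormedSpace ℝ F'] {f : E → F} (A : E' →L[ℝ] E) (B : F →L[ℝ] F') {v : E'} (h : HomN f (A v)) :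
    HomN (fun x => B (f (A x))) v := by
  obtain ⟨r, r0, hr⟩ := h
  have a0 := norm_nonneg A
  refine ⟨r / (‖A‖ + 1), by positivity, fun y hy t ht => ?_⟩
  have h1 : ‖A y‖ ≤ r := by
    rw [le_div_iff₀ (by positivity)] at hy
    linarith only [hy, A.le_opNorm y, norm_nonneg y]
  show B (f (A (v + t • y))) - B (f (A v)) = t • (B (f (A (v + y))) - B (f (A v)))
  rw [← map_sub, ← map_sub, ← map_smul, map_add, map_add, map_smul, hr _ h1 t ht]

theorem edge_modelC {H : Rn 3 → Rn 3} {v : Rn 3} (h : EGm H v) :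
    ∃ L : ℝ, 0 ≤ L ∧ Lz H L ∧ ∀ ρ : ℝ, 0 < ρ → ∃ (Z : Set (Rn 3)) (F : Rn 3 → Rn 3), IsClosed Z ∧
      openSegment ℝ 0 v ⊆ Z ∧ Z ⊆ lens 0 v ρ ∪ {0, v} ∧ Lz F L ∧ Injective F ∧ F 0 = 0 ∧
      F v = H v ∧ EqOn F H Zᶜ ∧ F '' Z ⊆ H '' Z ∧ (∀ x ∈ Z, x ≠ 0 → x ≠ v → CR F x) ∧
      HomN F 0 ∧ HomN F v := by
  obtain ⟨L0, hL0⟩ := h.lp
  obtain ⟨c0, hc0⟩ := h.xp
  have H0 : H 0 = 0 := by simpa using h.hmg 0 0 le_rfl
  obtain ⟨e0, he0⟩ := chart3 h.ne
  obtain ⟨e', he'⟩ := chart3 (v := H v) fun k => h.ne (hc0.inj (k.trans H0.symm))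
  obtain ⟨_, g, _, _, _, -, g0, -, g1, g2, g3⟩ := MEdge_chart h he0 he'
  obtain ⟨σ, k, M, k0, k1, k2, k3⟩ := polar g0 g1 g2
  obtain ⟨c, L1, L10, hk⟩ := fm_of_ang k0 k1 k2
  obtain ⟨e, he, hσ⟩ : ∃ e : Rn 3 ≃L[ℝ] ℝ × ℂ, e v = (1, 0) ∧
      ∀ u, e.symm (0, u) = e0.symm (0, σ u) :=
    ⟨e0.trans ((ContinuousLinearEquiv.refl ℝ ℝ).prodCongr σ.symm), by simp [he0], fun u => rfl⟩
  obtain ⟨κ, g', M', _, _, κ0, -, κ1, -, -, g4⟩ := MEdge_chart h he he'
  have g5 : ∀ u, g' u = hsp k 1 u := fun u => by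
    have := g4 (0, u)
    rw [hσ, g3] at this
    exact (congrArg Prod.snd this).symm.trans (k3 u)
  obtain ⟨c', L', hF⟩ := edge_modC k0 k1 L10 hk κ0 κ1
  have onto : Surjective H := by
    have a1 : AntilipschitzWith ⟨c0⁻¹, (inv_pos.2 hc0.1).le⟩ H :=
      AntilipschitzWith.of_le_mul_dist fun x y => by
        rw [dist_eq_norm, dist_eq_norm]
        exact (le_inv_mul_iff₀ hc0.1).2 (hc0.2 x y)
    have a2 := LipschitzWith.of_dist_le' (f := H) fun x y => by
      rw [dist_eq_norm, dist_eq_norm]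
      exact hL0 x y
    exact range_eq_univ.1 (IsClopen.eq_univ ⟨a1.isClosed_range a2.uniformContinuous,
      image_univ ▸ GEmb_open a2.continuous.continuousOn hc0.inj.injOn isOpen_univ
        (subset_univ _)⟩ (range_nonempty H))
  refine ⟨max |L0| (‖(e'.symm : ℝ × ℂ →L[ℝ] Rn 3)‖ * |L'| * ‖(e : Rn 3 →L[ℝ] ℝ × ℂ)‖),
    le_max_of_le_left (abs_nonneg _), fun x y => (hL0 x y).trans (mul_le_mul_of_nonneg_right
      (le_max_of_le_left (le_abs_self _)) (norm_nonneg _)), fun ρ hρ => ?_⟩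
  obtain ⟨η, hη, ηρ⟩ : ∃ η ∈ Ioc (0 : ℝ) 1, ‖(e.symm : ℝ × ℂ →L[ℝ] Rn 3)‖ * η < ρ := by
    have n0 := norm_nonneg (e.symm : ℝ × ℂ →L[ℝ] Rn 3)
    refine ⟨min 1 (ρ / (‖(e.symm : ℝ × ℂ →L[ℝ] Rn 3)‖ + 1)),
      ⟨lt_min one_pos (by positivity), min_le_left _ _⟩,
      (mul_le_mul_of_nonneg_left (min_le_right _ _) n0).trans_lt ?_⟩
    rw [← mul_div_assoc, div_lt_iff₀ (by positivity)]
    linarith
  obtain ⟨F, F1, F2, F3, F4, F5, F6, F7⟩ := hF η hη
  have inj : Injective fun x => e'.symm (F (e x)) :=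
    e'.symm.injective.comp (F1.inj.comp e.injective)
  have eq : EqOn (fun x => e'.symm (F (e x))) H (e ⁻¹' mz η)ᶜ := fun x hx => by
    have := g4 (e x)
    rw [e.symm_apply_apply, g5, ← F4 _ hx] at this
    exact e'.symm_apply_eq.2 this.symm
  have mid : ∀ x, e x ∈ mz η → x ≠ 0 → x ≠ v → (e x).1 ∈ Ioo (0 : ℝ) 1 := fun x hx h0 h1 => by
    refine ⟨hx.1.1.lt_of_ne fun k => h0 (e.injective ?_), hx.1.2.lt_of_ne fun k =>
      h1 (e.injective ?_)⟩
    · have := hx.2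
      rw [← k, zero_mul, mul_zero, norm_le_zero_iff] at this
      exact (Prod.ext k.symm this).trans (map_zero e).symm
    · have := hx.2
      rw [k, sub_self, mul_zero, mul_zero, norm_le_zero_iff] at this
      exact (Prod.ext k this).trans he.symm
  refine ⟨e ⁻¹' mz η, fun x => e'.symm (F (e x)), IsClosed.preimage e.continuous
    ((isClosed_Icc.preimage continuous_fst).inter (isClosed_le continuous_snd.norm (by fun_prop))),
    ?_, fun x hx => ?_, fun x y => (MEdge_lz F2 (e : Rn 3 →L[ℝ] ℝ × ℂ)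
      (e'.symm : ℝ × ℂ →L[ℝ] Rn 3) x y).trans (mul_le_mul_of_nonneg_right (le_max_right _ _)
      (norm_nonneg _)), inj, ?_, ?_, eq, ?_, fun x hx h0 h1 => ?_, ?_, ?_⟩
  · rintro _ ⟨s, t, hs, ht, st, rfl⟩
    have : e (s • (0 : Rn 3) + t • v) = (t, 0) := by simp [he]
    rw [mem_preimage, this]
    exact ⟨⟨ht.le, by linarith⟩, norm_zero.trans_le
      (mul_nonneg hη.1.le (mul_nonneg ht.le (by linarith)))⟩
  · by_cases h0 : x = 0
    · exact Or.inr (Or.inl h0)
    by_cases h1 : x = v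
    · exact Or.inr (Or.inr h1)
    have hz := mid x hx h0 h1
    refine Or.inl ⟨_, hz, ?_⟩
    have : x - seg 0 v (e x).1 = e.symm (0, (e x).2) :=
      e.injective (by ext <;> simp [seg, he])
    rw [this]
    refine ((e.symm : ℝ × ℂ →L[ℝ] Rn 3).le_opNorm _).trans_lt ?_
    rw [Prod.norm_mk, norm_zero, max_eq_right (norm_nonneg _)]
    refine (mul_le_mul_of_nonneg_left hx.2 (norm_nonneg _)).trans_lt ?_
    rw [← mul_assoc]
    exact mul_lt_mul_of_pos_right ηρ (mul_pos hz.1 (sub_pos.2 hz.2))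
  · simp only [map_zero, show F 0 = 0 from F3 0]
  · exact e'.symm_apply_eq.2 (by rw [he, F3, he'])
  · rintro _ ⟨x, hx, rfl⟩
    obtain ⟨y, hy⟩ := onto (e'.symm (F (e x)))
    exact ⟨y, by_contra fun k => k (inj ((eq k).trans hy) ▸ hx), hy⟩
  · have := F5 _ (mid x hx h0 h1)
    rw [← add_zero (e x)] at this
    simpa using (CR.comp (T := fun y => e y + 0) this (SI.aff e 0 x)).post e'.symm 0
  · exact HomN.lin (e : Rn 3 →L[ℝ] ℝ × ℂ) (e'.symm : ℝ × ℂ →L[ℝ] Rn 3) (v := 0)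
      (by rw [map_zero]; exact F6)
  · exact HomN.lin (e : Rn 3 →L[ℝ] ℝ × ℂ) (e'.symm : ℝ × ℂ →L[ℝ] Rn 3) (v := v)
      (by rw [ContinuousLinearEquiv.coe_coe, he]; exact F7)

theorem VG.ray {f : Rn 3 → Rn 3} {v w : Rn 3} (h : VG f v) (hw : w ≠ 0) :
    ∃ (y : Rn 3) (d : ℝ), y ≠ 0 ∧ 0 < d ∧ (∀ s : ℝ, d ≤ ‖w + s • y‖) ∧
      ∀ t ∈ Ioc (0 : ℝ) 1, AfN f (v + t • y) := by
  obtain ⟨⟨r, r0, hr⟩, hf⟩ := h
  obtain ⟨x, ⟨A, b, hA⟩, hx⟩ := (hf.and_eventually
    (mem_nhdsWithin_of_mem_nhds (ball_mem_nhds v r0))).exists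
  have c1 : Tendsto (fun y : Rn 3 => v + y) (𝓝 (x - v)) (𝓝 x) :=
    (continuous_const.add continuous_id).tendsto' _ _ (by simp)
  have e1 : ∀ᶠ y in 𝓝 (x - v), ‖y‖ < r ∧ f (v + y) = A (v + y) + b :=
    (continuous_norm.continuousAt.eventually_lt continuousAt_const
      (mem_ball_iff_norm.1 hx)).and (c1.eventually hA)
  obtain ⟨y, hy, hyw⟩ : ∃ y, (∀ᶠ u in 𝓝 y, ‖u‖ < r ∧ f (v + u) = A (v + u) + b) ∧
      y ∉ Submodule.span ℝ {w} := by
    by_contra k
    have k1 : ∀ y, (∀ᶠ u in 𝓝 y, ‖u‖ < r ∧ f (v + u) = A (v + u) + b) →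
        y ∈ Submodule.span ℝ {w} := fun y hy => by_contra fun k2 => k ⟨y, hy, k2⟩
    have k2 : Submodule.span ℝ {w} = ⊤ := Submodule.eq_top_of_nonempty_interior' _
      ⟨x - v, mem_interior_iff_mem_nhds.2 (e1.eventually_nhds.mono k1)⟩
    have k3 := finrank_span_singleton (K := ℝ) hw
    rw [k2, finrank_top] at k3
    simp at k3
  have hwy : w ∉ Submodule.span ℝ {y} := fun k => by
    obtain ⟨c, rfl⟩ := Submodule.mem_span_singleton.1 k
    have c0 : c ≠ 0 := fun k => hw (by rw [k, zero_smul])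
    exact hyw (Submodule.mem_span_singleton.2 ⟨c⁻¹, inv_smul_smul₀ c0 y⟩)
  refine ⟨y, infDist w (Submodule.span ℝ {y} : Submodule ℝ (Rn 3)),
    fun k => hyw (k ▸ Submodule.zero_mem _),
    ((Submodule.span ℝ {y}).closed_of_finiteDimensional.notMem_iff_infDist_pos
      ⟨0, Submodule.zero_mem _⟩).1 hwy, fun s => ?_, fun t ht => ?_⟩
  · refine (infDist_le_dist_of_mem (y := (-s) • y)
      (Submodule.mem_span_singleton.2 ⟨-s, rfl⟩)).trans_eq ?_
    rw [dist_eq_norm, neg_smul, sub_neg_eq_add]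
  · have c2 : Tendsto (fun z : Rn 3 => t⁻¹ • (z - v)) (𝓝 (v + t • y)) (𝓝 y) :=
      Continuous.tendsto' (by fun_prop) _ _
        (by rw [add_sub_cancel_left, inv_smul_smul₀ ht.1.ne'])
    refine ⟨A, f v + t • (A v + b - f v) - A v, (c2.eventually hy).mono fun z hz => ?_⟩
    have h1 := hr _ hz.1.le t ⟨ht.1.le, ht.2⟩
    rw [smul_inv_smul₀ ht.1.ne', add_sub_cancel, hz.2, map_add, map_smul, map_sub] at h1
    rw [sub_eq_iff_eq_add.1 h1]
    match_scalars <;> field_simp [ht.1.ne'] <;> ring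

theorem vg_of_ray {f : Rn 3 → Rn 3} {v y : Rn 3} (h : HomN f v) (hy : y ≠ 0)
    (ha : ∀ t ∈ Ioc (0 : ℝ) 1, AfN f (v + t • y)) : VG f v := by
  have c1 : Tendsto (fun t : ℝ => v + t • y) (𝓝[>] 0) (𝓝[≠] v) :=
    tendsto_nhdsWithin_iff.2 ⟨(Continuous.tendsto' (by fun_prop) _ _ (by simp)).mono_left
      nhdsWithin_le_nhds, eventually_nhdsWithin_of_forall fun t ht k =>
        smul_ne_zero (ne_of_gt ht) hy (add_eq_left.1 k)⟩
  exact ⟨h, c1.frequently (Eventually.frequently (mem_of_superset (Ioc_mem_nhdsGT one_pos) ha))⟩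

end BEp
end
end
end

-- merged part: Pool.Agent.Work.MP_f0515e_an.P3.VCyl
section
-- merged part: Pool.Agent.Work.MP_f0515e_an.P3.VPB1
section
/-! An injective orbit of a planar field with a global logarithm is unbounded.
Plan. pb_cross: S (s,t) = integral over r in 0..1 of X (γ (s + r (t - s))) is continuous on ℝ × ℝ, (t - s) • S (s,t) = γ t - γ s, S (s,s) = X (γ s), so S never vanishes; Θ from cont_log, normalised with log_const
so that Θ (s,s) = Λ (γ s). f t = (Θ (t,b) - Θ (a,t)).im; with m = (Θ (a,b)).im - θ (cos m = 0), f a = m - δ1, f b = δ2 - m, so 2 sin (f a / 2) sin (f b / 2) = cos (m - (δ1+δ2)/2) - cos ((δ2-δ1)/2) < 0.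
Intermediate value: sin (f t / 2) = 0 for some t in Ioo a b, so S (t,b) / S (a,t) is a positive real number, hence γ t lies in the open segment.
pb: q a cluster point of γ n, θ = (Λ q).im, r with |(Λ ξ).im - θ| < 1/4 and (Λ q).re - 1 < (Λ ξ).re on closedBall q r; g t = ((γ t - q) * exp (-θ I)).re has derivative at least c > 0 while γ t is in the ball, the speed is bounded by M.
A = {t | γ t in closedBall q r, g t = 0} is closed, has two points a < b (intermediate value near two times n, n' far apart), and no point in Ioo a (a + κ) (g is strictly monotone near a: use a slightly larger ball);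
b' = least point of A in Ici (a + κ), pb_cross gives a point of A between a and b'. -/

open Set Metric Filter Topology Function BEv MeasureTheory
open scoped NNReal ENNReal ContDiff

noncomputable section
namespace BEp

theorem VPB1_log {Λ : ℂ → ℂ} (hΛ : Continuous Λ) {γ : ℝ → ℂ}
    (hγ : ∀ t, HasDerivAt γ (Complex.exp (Λ (γ t))) t) (hi : Injective γ) :
    ∃ Θ : ℝ × ℝ → ℂ, Continuous Θ ∧ (∀ s t, (t - s) • Complex.exp (Θ (s, t)) = γ t - γ s) ∧
      ∀ s, Θ (s, s) = Λ (γ s) := by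
  have c : Continuous γ := continuous_iff_continuousAt.2 fun t => (hγ t).continuousAt
  let S : ℝ × ℝ → ℂ := fun p => ∫ r in (0 : ℝ)..1, Complex.exp (Λ (γ (p.1 + r * (p.2 - p.1))))
  have h1 : Continuous S :=
    intervalIntegral.continuous_parametric_intervalIntegral_of_continuous' (by fun_prop) 0 1
  have h2 : ∀ s t, (t - s) • S (s, t) = γ t - γ s := fun s t => by
    have := intervalIntegral.integral_eq_sub_of_hasDerivAt (a := 0) (b := 1)
      (f := fun r => γ (s + r * (t - s)))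
      (f' := fun r => (t - s) • Complex.exp (Λ (γ (s + r * (t - s)))))
      (fun r _ => (hγ _).scomp r ((hasDerivAt_mul_const (t - s)).const_add s))
      (Continuous.intervalIntegrable (by fun_prop) _ _)
    rw [intervalIntegral.integral_smul] at this
    simpa using this
  have h3 : ∀ s, S (s, s) = Complex.exp (Λ (γ s)) := fun s => by simp [S]
  obtain ⟨g, g1, g2⟩ := cont_log h1 fun p e => by
    have := h2 p.1 p.2
    rw [e, smul_zero, eq_comm, sub_eq_zero] at this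
    rw [show p = (p.1, p.1) from Prod.ext rfl (hi this), h3] at e
    exact Complex.exp_ne_zero _ e
  have h4 : ∀ s, Complex.exp (g (s, s) - Λ (γ s)) = 1 := fun s => by
    rw [Complex.exp_sub, g2, h3, div_self (Complex.exp_ne_zero _)]
  refine ⟨fun p => g p - (g (0, 0) - Λ (γ 0)), by fun_prop, fun s t => ?_, fun s => ?_⟩
  · rw [Complex.exp_sub, h4, div_one, g2, h2]
  · beta_reduce
    rw [log_const (g := fun s => g (s, s) - Λ (γ s)) isPreconnected_univ (by fun_prop)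
      (fun s _ => h4 s) (mem_univ 0) (mem_univ s), sub_sub_cancel]

theorem VPB1_neg {m x y : ℝ} (h : Real.cos m = 0) (hx : |x| < 1 / 4) (hy : |y| < 1 / 4) :
    Real.sin ((m - x) / 2) * Real.sin ((y - m) / 2) < 0 := by
  have e := Real.two_mul_sin_mul_sin ((m - x) / 2) ((y - m) / 2)
  rw [show (m - x) / 2 - (y - m) / 2 = m - (x + y) / 2 by ring,
    show (m - x) / 2 + (y - m) / 2 = (y - x) / 2 by ring, Real.cos_sub, h, zero_mul, zero_add] at e
  have h1 : Real.sin m * Real.sin ((x + y) / 2) ≤ |(x + y) / 2| := (le_abs_self _).trans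
    ((abs_mul _ _).trans_le ((mul_le_of_le_one_left (abs_nonneg _) (Real.abs_sin_le_one m)).trans
      Real.abs_sin_le_abs))
  have h2 := Real.one_sub_sq_div_two_le_cos (x := (y - x) / 2)
  rw [abs_lt] at hx hy
  have h3 : |(x + y) / 2| < 1 / 4 := abs_lt.2 ⟨by linarith only [hx, hy, hx.1, hy.1], by linarith only [hx, hy, hx.2, hy.2]⟩
  linarith only [hx, hy, e, h1, h2, h3, hx.1, hx.2, hy.1, hy.2, mul_pos_of_neg_of_neg (Mathlib.Tactic.Linarith.sub_neg_of_lt hx.left) (Mathlib.Tactic.Linarith.sub_neg_of_lt hx.right), mul_pos_of_neg_of_neg (Mathlib.Tactic.Linarith.sub_neg_of_lt hx.left) (Mathlib.Tactic.Linarith.sub_neg_of_lt hy.left), mul_pos_of_neg_of_neg (Mathlib.Tactic.Linarith.sub_neg_of_lt hy.left) (Mathlib.Tactic.Linarith.sub_neg_of_lt hy.right)]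

theorem pb_cross {Λ : ℂ → ℂ} (hΛ : Continuous Λ) {γ : ℝ → ℂ}
    (hγ : ∀ t, HasDerivAt γ (Complex.exp (Λ (γ t))) t) (hi : Injective γ) {a b θ : ℝ} (ab : a < b)
    (ha : |(Λ (γ a)).im - θ| < 1 / 4) (hb : |(Λ (γ b)).im - θ| < 1 / 4)
    (hd : ((γ b - γ a) * Complex.exp (-(θ * Complex.I))).re = 0) :
    ∃ t ∈ Ioo a b, γ t ∈ openSegment ℝ (γ a) (γ b) := by
  obtain ⟨Θ, c, h1, h2⟩ := VPB1_log hΛ hγ hi
  have k : Real.cos ((Θ (a, b)).im - θ) = 0 := by
    rw [← h1, smul_mul_assoc, ← Complex.exp_add, Complex.smul_re, Complex.exp_re] at hd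
    simpa [sub_eq_add_neg, (sub_pos.2 ab).ne', add_neg_eq_zero, ab.ne'] using hd
  have cf : Continuous fun t => Real.sin ((Θ (t, b) - Θ (a, t)).im / 2) := by fun_prop
  obtain ⟨t, ht, e⟩ : ∃ t ∈ Ioo a b, Real.sin ((Θ (t, b) - Θ (a, t)).im / 2) = 0 := by
    have s := VPB1_neg k ha hb
    have e1 : (Θ (a, b)).im - θ - ((Λ (γ a)).im - θ) = (Θ (a, b) - Θ (a, a)).im := by
      rw [Complex.sub_im, h2]
      ring
    have e2 : (Λ (γ b)).im - θ - ((Θ (a, b)).im - θ) = (Θ (b, b) - Θ (a, b)).im := by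
      rw [Complex.sub_im, h2]
      ring
    rw [e1, e2] at s
    rcases mul_neg_iff.1 s with s | s
    exacts [intermediate_value_Ioo' ab.le cf.continuousOn ⟨s.2, s.1⟩,
      intermediate_value_Ioo ab.le cf.continuousOn s]
  have e1 : Complex.exp (Θ (t, b)) = Real.exp (Θ (t, b) - Θ (a, t)).re • Complex.exp (Θ (a, t)) := by
    have e2 := Real.sin_two_mul ((Θ (t, b) - Θ (a, t)).im / 2)
    have e3 := Real.cos_two_mul_eq_one_sub ((Θ (t, b) - Θ (a, t)).im / 2)
    rw [mul_div_cancel₀ _ two_ne_zero, e] at e2 e3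
    rw [← sub_add_cancel (Θ (t, b)) (Θ (a, t)), Complex.exp_add, add_sub_cancel_right,
      Complex.real_smul]
    congr 1
    refine Complex.ext ?_ ?_
    · rw [Complex.exp_re, e3, Complex.ofReal_re]
      ring
    · rw [Complex.exp_im, e2, Complex.ofReal_im]
      ring
  have p1 := mul_pos (sub_pos.2 ht.2) (Real.exp_pos (Θ (t, b) - Θ (a, t)).re)
  have p2 := sub_pos.2 ht.1
  have e2 := h1 t b
  have e3 := h1 a t
  rw [e1, smul_smul] at e2
  generalize (b - t) * Real.exp (Θ (t, b) - Θ (a, t)).re = A at p1 e2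
  refine ⟨t, ht, A / (A + (t - a)), (t - a) / (A + (t - a)), by positivity, by positivity,
    by field_simp, ?_⟩
  rw [← sub_add_cancel (γ b) (γ t), ← e2, ← sub_sub_cancel (γ t) (γ a), ← e3]
  have p3 : A / (A + (t - a)) + (t - a) / (A + (t - a)) = 1 := by field_simp
  match_scalars
  · field_simp
  · field_simp
    ring

end BEp
end
end

-- merged part: Pool.Agent.Work.MP_f0515e_an.P3.VPB
section
/-! An injective orbit of a planar field with a global logarithm is unbounded.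
Plan. pb_cross: S (s,t) = integral over r in 0..1 of X (γ (s + r (t - s))) is continuous on ℝ × ℝ, (t - s) • S (s,t) = γ t - γ s, S (s,s) = X (γ s), so S never vanishes; Θ from cont_log, normalised with log_const
so that Θ (s,s) = Λ (γ s). f t = (Θ (t,b) - Θ (a,t)).im; with m = (Θ (a,b)).im - θ (cos m = 0), f a = m - δ1, f b = δ2 - m, so 2 sin (f a / 2) sin (f b / 2) = cos (m - (δ1+δ2)/2) - cos ((δ2-δ1)/2) < 0.
Intermediate value: sin (f t / 2) = 0 for some t in Ioo a b, so S (t,b) / S (a,t) is a positive real number, hence γ t lies in the open segment.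
pb: q a cluster point of γ n, θ = (Λ q).im, r with |(Λ ξ).im - θ| < 1/4 and (Λ q).re - 1 < (Λ ξ).re on closedBall q r; g t = ((γ t - q) * exp (-θ I)).re has derivative at least c > 0 while γ t is in the ball, the speed is bounded by M.
A = {t | γ t in closedBall q r, g t = 0} is closed, has two points a < b (intermediate value near two times n, n' far apart), and no point in Ioo a (a + κ) (g is strictly monotone near a: use a slightly larger ball);
b' = least point of A in Ici (a + κ), pb_cross gives a point of A between a and b'. -/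

open Set Metric Filter Topology Function BEv MeasureTheory
open scoped NNReal ENNReal ContDiff

noncomputable section
namespace BEp

theorem VPB_near {Λ : ℂ → ℂ} (hΛ : Continuous Λ) (q : ℂ) :
    ∃ c r : ℝ, 0 < c ∧ 0 < r ∧ ∀ ξ, ‖ξ - q‖ ≤ 2 * r → |(Λ ξ).im - (Λ q).im| < 1 / 4 ∧
      c ≤ (Complex.exp (Λ ξ) * Complex.exp (-((Λ q).im * Complex.I))).re := by
  have e : (Complex.exp (Λ q) * Complex.exp (-((Λ q).im * Complex.I))).re =
      Real.exp (Λ q).re := by
    rw [← Complex.exp_add, ← Complex.exp_ofReal_re]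
    congr 2
    apply Complex.ext <;> simp
  have p := Real.exp_pos (Λ q).re
  have c1 : Continuous fun ξ => |(Λ ξ).im - (Λ q).im| := by fun_prop
  have c2 : Continuous fun ξ =>
      (Complex.exp (Λ ξ) * Complex.exp (-((Λ q).im * Complex.I))).re := by fun_prop
  have e1 : ∀ᶠ ξ in 𝓝 q, |(Λ ξ).im - (Λ q).im| < 1 / 4 :=
    c1.continuousAt.eventually_lt continuousAt_const (by simp)
  have e2 : ∀ᶠ ξ in 𝓝 q, Real.exp (Λ q).re / 2 <
      (Complex.exp (Λ ξ) * Complex.exp (-((Λ q).im * Complex.I))).re :=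
    continuousAt_const.eventually_lt c2.continuousAt (by rw [e]; linarith only [p])
  obtain ⟨R, R0, hR⟩ := Metric.nhds_basis_closedBall.eventually_iff.1 (e1.and e2)
  refine ⟨_, R / 2, half_pos p, half_pos R0, fun ξ hξ => ?_⟩
  have := hR (x := ξ) (mem_closedBall_iff_norm.2 (by linarith))
  exact ⟨this.1, this.2.le⟩

theorem VPB_grow {g g' : ℝ → ℝ} (hg : ∀ t, HasDerivAt g (g' t) t) {c s t : ℝ} (st : s ≤ t)
    (h : ∀ x ∈ Icc s t, c ≤ g' x) : c * (t - s) ≤ g t - g s :=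
  (convex_Icc s t).mul_sub_le_image_sub_of_le_deriv
    (fun x _ => (hg x).continuousAt.continuousWithinAt)
    (fun x _ => (hg x).differentiableAt.differentiableWithinAt)
    (fun x hx => by rw [(hg x).deriv]; exact h x (interior_subset hx)) s (left_mem_Icc.2 st) t
    (right_mem_Icc.2 st) st

theorem pb {Λ : ℂ → ℂ} (hΛ : Continuous Λ) {γ : ℝ → ℂ}
    (hγ : ∀ t, HasDerivAt γ (Complex.exp (Λ (γ t))) t) (hi : Injective γ) (M : ℝ) :
    ∃ t, 0 ≤ t ∧ M < ‖γ t‖ := by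
  by_contra hcon
  push Not at hcon
  have hγc : Continuous γ := continuous_iff_continuousAt.2 fun t => (hγ t).continuousAt
  have hX : Continuous fun ξ => Complex.exp (Λ ξ) := Complex.continuous_exp.comp hΛ
  have hm : ∀ t, 0 ≤ t → γ t ∈ closedBall (0 : ℂ) M := fun t ht => by simpa using hcon t ht
  obtain ⟨L, hL⟩ := (isCompact_closedBall (0 : ℂ) M).exists_bound_of_continuousOn hX.continuousOn
  have L0 : 0 < L := (norm_pos_iff.2 (Complex.exp_ne_zero _)).trans_le (hL _ (hm 0 le_rfl))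
  have lip : ∀ s t, 0 ≤ s → 0 ≤ t → ‖γ t - γ s‖ ≤ L * |t - s| := fun s t hs ht =>
    (convex_Ici (0 : ℝ)).norm_image_sub_le_of_norm_hasDerivWithin_le
      (f' := fun t => Complex.exp (Λ (γ t))) (fun x _ => (hγ x).hasDerivWithinAt)
      (fun x hx => hL _ (hm x hx)) hs ht
  obtain ⟨q, -, φ, hφ, hq⟩ := (isCompact_closedBall (0 : ℂ) M).tendsto_subseq
    (x := fun n : ℕ => γ n) fun n => hm n (Nat.cast_nonneg n)
  obtain ⟨c, r, c0, r0, hr⟩ := VPB_near hΛ q
  set θ := (Λ q).im with hθ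
  set u := Complex.exp (-(θ * Complex.I)) with hu
  have u1 : ‖u‖ = 1 := by
    rw [hu, Complex.norm_exp]
    simp
  set g : ℝ → ℝ := fun t => ((γ t - q) * u).re with hg
  have dg : ∀ t, HasDerivAt g (Complex.exp (Λ (γ t)) * u).re t := fun t =>
    Complex.reCLM.hasFDerivAt.comp_hasDerivAt t (((hγ t).sub_const q).mul_const u)
  have gc : Continuous g := continuous_iff_continuousAt.2 fun t => (dg t).continuousAt
  have gle : ∀ t, |g t| ≤ ‖γ t - q‖ := fun t => by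
    refine (Complex.abs_re_le_norm _).trans ?_
    rw [norm_mul, u1, mul_one]
  obtain ⟨τ, τ0, hτ⟩ : ∃ τ : ℝ, 0 < τ ∧ L * τ = r / 2 :=
    ⟨r / 2 / L, by positivity, by field_simp⟩
  have near : ∀ s t, 0 ≤ s → 0 ≤ t → |t - s| ≤ τ → ‖γ t - q‖ ≤ ‖γ s - q‖ + r / 2 := by
    intro s t hs ht h
    have h1 := lip s t hs ht
    have h2 := norm_add_le (γ s - q) (γ t - γ s)
    have h3 : γ s - q + (γ t - γ s) = γ t - q := by ring
    have h4 := mul_le_mul_of_nonneg_left h L0.le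
    rw [h3] at h2
    linarith only [hτ, h1, h2, h4]
  have grow : ∀ s t, s ≤ t → (∀ x ∈ Icc s t, ‖γ x - q‖ ≤ 2 * r) → c * (t - s) ≤ g t - g s :=
    fun s t st h => VPB_grow dg st fun x hx => (hr _ (h x hx)).2
  set A : Set ℝ := {t | ‖γ t - q‖ ≤ r ∧ g t = 0} with hA
  have Ac : IsClosed A :=
    IsClosed.and (isClosed_le (hγc.sub continuous_const).norm continuous_const)
      (isClosed_eq gc continuous_const)
  have unb : ∀ T : ℝ, ∃ t ∈ A, T ≤ t := by
    intro T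
    have e1 : ∀ᶠ n in atTop, ‖γ (φ n) - q‖ < min (r / 2) (c * τ) := by
      have := (Metric.tendsto_nhds.1 hq) (min (r / 2) (c * τ)) (by positivity)
      simpa [dist_eq_norm] using this
    have e2 : ∀ᶠ n in atTop, max T 0 + τ ≤ (φ n : ℝ) :=
      (tendsto_natCast_atTop_atTop.comp hφ.tendsto_atTop).eventually_ge_atTop _
    obtain ⟨n, h1, h2⟩ := (e1.and e2).exists
    rw [lt_min_iff] at h1
    have m1 := le_max_left T 0
    have m2 := le_max_right T 0
    have gs := gle (φ n)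
    generalize ((φ n : ℕ) : ℝ) = s at h1 h2 gs
    have b : ∀ x ∈ Icc (s - τ) (s + τ), ‖γ x - q‖ ≤ r := fun x hx => by
      have := near s x (by linarith only [τ0, m2, h2]) (by linarith only [m2, h2, hx, hx.1])
        (abs_le.2 ⟨by linarith only [hx, hx.1], by linarith only [hx, hx.2]⟩)
      linarith only [h1, this, h1.1]
    have g1 := grow (s - τ) s (by linarith only [τ0]) fun x hx =>
      (b x ⟨hx.1, by linarith only [τ0, hx, hx.2]⟩).trans (by linarith only [r0])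
    have g2 := grow s (s + τ) (by linarith only [τ0]) fun x hx =>
      (b x ⟨by linarith only [τ0, hx, hx.1], hx.2⟩).trans (by linarith only [r0])
    have g3 := abs_le.1 (gs.trans h1.2.le)
    rw [sub_sub_cancel] at g1
    rw [add_sub_cancel_left] at g2
    obtain ⟨t, ht, h0⟩ := intermediate_value_Icc (a := s - τ) (b := s + τ) (by linarith only [τ0])
      gc.continuousOn (show (0 : ℝ) ∈ _ from ⟨by linarith only [g1, g3, g3.2], by linarith only [g2, g3, g3.1]⟩)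
    exact ⟨t, ⟨b t ht, h0⟩, by linarith only [m1, h2, ht, ht.1]⟩
  obtain ⟨a, ha, a0⟩ := unb 0
  have Bn : (A ∩ Ici (a + τ)).Nonempty := unb (a + τ)
  have Bb : BddBelow (A ∩ Ici (a + τ)) := ⟨a + τ, fun x hx => hx.2⟩
  have hb := (Ac.inter isClosed_Ici).csInf_mem Bn Bb
  set b := sInf (A ∩ Ici (a + τ)) with hbd
  have ab : a < b := by
    have : a + τ ≤ b := hb.2
    linarith
  have hd : ((γ b - γ a) * u).re = 0 := by
    have e : (γ b - γ a) * u = (γ b - q) * u - (γ a - q) * u := by ring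
    have h1 : ((γ b - q) * u).re = 0 := hb.1.2
    have h2 : ((γ a - q) * u).re = 0 := ha.2
    rw [e, Complex.sub_re, h1, h2, sub_zero]
  obtain ⟨t, ht, x, y, x0, y0, xy, e⟩ := pb_cross hΛ hγ hi ab
    (hr _ (ha.1.trans (by linarith))).1 (hr _ (hb.1.1.trans (by linarith))).1 hd
  have e' : γ t - q = x • (γ a - q) + y • (γ b - q) := by
    rw [← e, smul_sub, smul_sub]
    have : q = x • q + y • q := by rw [← add_smul, xy, one_smul]
    linear_combination (exp := 1) -this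
  have tA : t ∈ A := by
    constructor
    · rw [e']
      refine (norm_add_le _ _).trans ?_
      rw [norm_smul, norm_smul, Real.norm_of_nonneg x0.le, Real.norm_of_nonneg y0.le]
      have h1 := mul_le_mul_of_nonneg_left ha.1 x0.le
      have h2 := mul_le_mul_of_nonneg_left hb.1.1 y0.le
      have h3 : x * r + y * r = r := by rw [← add_mul, xy, one_mul]
      linarith only [h1, h2, h3]
    · have h1 : ((γ b - q) * u).re = 0 := hb.1.2
      have h2 : ((γ a - q) * u).re = 0 := ha.2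
      show ((γ t - q) * u).re = 0
      rw [e', add_mul, smul_mul_assoc, smul_mul_assoc, Complex.add_re, Complex.smul_re,
        Complex.smul_re, h1, h2]
      simp
  have t1 : t < a + τ := by
    by_contra h
    exact absurd (csInf_le Bb ⟨tA, not_lt.1 h⟩) (not_le.2 ht.2)
  have g1 := grow a t ht.1.le fun z hz => by
    have := near a z a0 (a0.trans hz.1) (abs_le.2 ⟨by linarith only [τ0, hz, hz.1], by linarith only [t1, hz, hz.2]⟩)
    linarith only [r0, this, ha, ha.1]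
  rw [tA.2, ha.2] at g1
  have := mul_pos c0 (sub_pos.2 ht.1)
  linarith only [g1, this]


end BEp
end
end

-- merged part: Pool.Agent.Work.MP_f0515e_an.P3.VBox
section
/-! The flow box of the interpolated field.
Plan. X (z,ξ) = (0, exp (τ z Λ ξ)) is smooth and equals (0,1) off a compact set (lip_of_const, exists_Flow in Work/MP_bf98aa_gt/Ns/Flow). P (z,ξ) = φ (re ξ + R + 1) (z, -(R+1) + im ξ I).
Straight orbits (flow_uniq or ode uniqueness on an interval): if X = (0,1) along x + (0,s) for s between 0 and t then φ t x = x + (0,t). SI: near x0, P y = φ t0 (y - (0,t0)) with t0 = re ξ0 + R + 1, φ t0 has the inverse φ (-t0) (si_of_inv).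
Injective: backward orbits from the line re = -(R+1) are straight. Exit: the orbit is injective (periodic would contradict the straight backward part), pb gives a far point; left of -R or with |im| ≥ R the orbit is straight backwards
or straight for all times, so some point has re > R, and it stays so; uniform time by compactness of the support of τ times Icc (-R) R and continuity of the flow. -/

open Set Metric Filter Topology Function BEv MeasureTheory
open scoped NNReal ENNReal ContDiff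

noncomputable section
namespace BEp

theorem VBox_flow {X : ℝ × ℂ → ℝ × ℂ} (hX : ContDiff ℝ ∞ X) {C : Set (ℝ × ℂ)} (hC : IsCompact C)
    {e : ℝ × ℂ} (h : ∀ y, y ∉ C → X y = e) :
    ∃ φ : ℝ → ℝ × ℂ → ℝ × ℂ, ContDiff ℝ ∞ (fun p : ℝ × ℝ × ℂ => φ p.1 p.2) ∧ (∀ y, φ 0 y = y) ∧
      (∀ t y, HasDerivAt (fun s => φ s y) (X (φ t y)) t) ∧ (∀ s t y, φ (s + t) y = φ s (φ t y)) ∧
      ∀ y (t : ℝ), (∀ s ∈ uIcc 0 t, X (y + s • e) = e) → φ t y = y + t • e := by
  obtain ⟨L, hL⟩ := Pool.Agent.Work.MP_bf98aa_gt.Ns.lip_of_const hX hC h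
  obtain ⟨Φ⟩ := Pool.Agent.Work.MP_bf98aa_gt.Ns.exists_Flow hX hL
  have st : ∀ y (t : ℝ), 0 ≤ t → (∀ s ∈ Icc 0 t, X (y + s • e) = e) → Φ.φ t y = y + t • e :=
    fun y t ht k => by
      refine ODE_solution_unique (v := fun _ => X) (K := L) (f := fun s => Φ.φ s y)
        (g := fun s => y + s • e) (fun _ => hL)
        (fun s _ => (Φ.deriv s y).continuousAt.continuousWithinAt)
        (fun s _ => (Φ.deriv s y).hasDerivWithinAt) (by fun_prop) (fun s hs => ?_)
        (by simp [Φ.zero]) ⟨ht, le_rfl⟩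
      rw [k s (Ico_subset_Icc_self hs)]
      simpa using (((hasDerivAt_id s).smul_const e).const_add y).hasDerivWithinAt
  refine ⟨Φ.φ, Φ.smooth, Φ.zero, Φ.deriv, Φ.add, fun y t k => ?_⟩
  rcases le_total 0 t with ht | ht
  · exact st y t ht fun s hs => k s (Icc_subset_uIcc hs)
  · have := st (y + t • e) (-t) (neg_nonneg.2 ht) fun s hs => by
      rw [add_assoc, ← add_smul]
      exact k _ (Icc_subset_uIcc' ⟨by linarith [hs.1], by linarith [hs.2]⟩)
    rw [add_assoc, ← add_smul, add_neg_cancel, zero_smul, add_zero] at this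
    conv_lhs => rw [← this, ← Φ.add, add_neg_cancel, Φ.zero]

theorem flow_box3 {Λ : ℂ → ℂ} (hΛ : ContDiff ℝ ∞ Λ) {R : ℝ} (R0 : 0 < R)
    (h0 : ∀ ξ, R ≤ ‖ξ‖ → Λ ξ = 0) {τ : ℝ → ℝ} (hτ : ContDiff ℝ ∞ τ) (hc : HasCompactSupport τ) :
    ∃ (P : ℝ × ℂ → ℂ) (T : ℝ), R ≤ T ∧ ContDiff ℝ ∞ P ∧ Injective (fun x : ℝ × ℂ => (x.1, P x)) ∧
      (∀ x, SI (fun x : ℝ × ℂ => (x.1, P x)) x) ∧
      (∀ z ξ (s : ℝ), HasDerivAt (fun s : ℝ => P (z, ξ + s))
        (Complex.exp (τ z * Λ (P (z, ξ + s)))) s) ∧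
      (∀ x : ℝ × ℂ, (x.2.re ≤ -R ∨ R ≤ |x.2.im| ∨ τ x.1 = 0) → P x = x.2) ∧
      ∀ x : ℝ × ℂ, T ≤ x.2.re → R ≤ (P x).re ∧
        P x = P (x.1, T + x.2.im * Complex.I) + ((x.2.re - T : ℝ) : ℂ) := by
  obtain ⟨X, hXd⟩ : ∃ X : ℝ × ℂ → ℝ × ℂ, ∀ x, X x = (0, Complex.exp (τ x.1 * Λ x.2)) :=
    ⟨_, fun _ => rfl⟩
  have hX : ContDiff ℝ ∞ X := by
    rw [funext hXd]
    exact contDiff_const.prodMk (((Complex.ofRealCLM.contDiff.comp (hτ.comp contDiff_fst)).mul
      (hΛ.comp contDiff_snd)).cexp)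
  obtain ⟨e, he⟩ : ∃ e : ℝ × ℂ, e = (0, 1) := ⟨_, rfl⟩
  have X1 : ∀ x : ℝ × ℂ, (R ≤ |x.2.re| ∨ R ≤ |x.2.im| ∨ τ x.1 = 0) → X x = e := fun x hx => by
    rw [hXd, he]
    rcases hx with k | k | k
    · rw [h0 _ (k.trans (Complex.abs_re_le_norm _)), mul_zero, Complex.exp_zero]
    · rw [h0 _ (k.trans (Complex.abs_im_le_norm _)), mul_zero, Complex.exp_zero]
    · rw [k, Complex.ofReal_zero, zero_mul, Complex.exp_zero]
  have ad : ∀ (x : ℝ × ℂ) (s : ℝ), x + s • e = (x.1, x.2 + s) := fun x s => by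
    ext <;> simp [he]
  obtain ⟨φ, sm, z0, dv, ga, st⟩ := VBox_flow hX (e := e)
    (IsCompact.prod hc (isCompact_closedBall (0 : ℂ) R)) fun y hy => by
      rcases not_and_or.1 hy with k | k
      · exact X1 y (.inr (.inr (image_eq_zero_of_notMem_tsupport k)))
      · rw [hXd, he, h0 _ (not_le.1 (mt mem_closedBall_zero_iff.2 k)).le, mul_zero,
          Complex.exp_zero]
  have fz : ∀ t x, (φ t x).1 = x.1 := fun t x => by
    have d : ∀ s, HasDerivAt (fun s => (φ s x).1) 0 s := fun s => by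
      have := (hasFDerivAt_fst (𝕜 := ℝ) (p := φ s x)).comp_hasDerivAt s (dv s x)
      rwa [hXd] at this
    have := is_const_of_deriv_eq_zero (fun s => (d s).differentiableAt) (fun s => (d s).deriv) t 0
    rwa [z0] at this
  have bk : ∀ (y : ℝ × ℂ) (t : ℝ), y.2.re ≤ -R → y.2.re + t ≤ -R → φ t y = y + t • e :=
    fun y t k1 k2 => st y t fun s hs => X1 _ (.inl (by
      rw [ad, Complex.add_re, Complex.ofReal_re]
      refine le_abs.2 (.inr ?_)
      rcases mem_uIcc.1 hs with q | q <;> linarith only [k2, q, k1, q.1, q.2]))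
  obtain ⟨Q, hQ⟩ : ∃ Q : ℝ × ℂ → ℝ × ℂ,
      ∀ x, Q x = φ (x.2.re + R + 1) (x + (-(x.2.re + R + 1)) • e) := ⟨_, fun _ => rfl⟩
  have re0 : ∀ x : ℝ × ℂ, (x + (-(x.2.re + R + 1)) • e).2.re = -(R + 1) := fun x => by
    rw [ad, Complex.add_re, Complex.ofReal_re]; ring
  have Q1 : ∀ x, (x.1, (Q x).2) = Q x := fun x => Prod.ext (by rw [hQ, fz, ad]) rfl
  have Qs : ∀ (x : ℝ × ℂ) (s : ℝ), Q (x + s • e) = φ s (Q x) := fun x s => by
    have r : (x + s • e).2.re = x.2.re + s := by rw [ad, Complex.add_re, Complex.ofReal_re]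
    rw [hQ, hQ, ← ga, add_assoc x, ← add_smul, r,
      show s + -(x.2.re + s + R + 1) = -(x.2.re + R + 1) by ring,
      show x.2.re + s + R + 1 = s + (x.2.re + R + 1) by ring]
  have Qc : ContDiff ℝ ∞ Q := by
    have c : ContDiff ℝ ∞ fun x : ℝ × ℂ => x.2.re + R + 1 :=
      ((Complex.reCLM.contDiff.comp contDiff_snd).add contDiff_const).add contDiff_const
    rw [funext hQ]
    exact sm.comp (c.prodMk (contDiff_id.add (c.neg.smul contDiff_const)))
  have Q0 : ∀ x : ℝ × ℂ, (x.2.re ≤ -R ∨ R ≤ |x.2.im| ∨ τ x.1 = 0) → Q x = x := fun x hx => by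
    have : φ (x.2.re + R + 1) (x + (-(x.2.re + R + 1)) • e) =
        x + (-(x.2.re + R + 1)) • e + (x.2.re + R + 1) • e := by
      rcases hx with k | k
      · exact bk _ _ (by rw [re0]; linarith) (by rw [re0]; linarith)
      · refine st _ _ fun s _ => X1 _ (.inr ?_)
        simpa only [ad, Complex.add_im, Complex.ofReal_im, add_zero] using k
    rw [hQ, this, add_assoc, ← add_smul, neg_add_cancel, zero_smul, add_zero]
  have ar : ∀ (x : ℝ × ℂ) (s : ℝ), (x + s • e).2.re = x.2.re + s := fun x s => by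
    rw [ad, Complex.add_re, Complex.ofReal_re]
  have Qi : Injective Q := fun x y k => by
    have := Qs x (-(|x.2.re| + |y.2.re| + R))
    rw [k, ← Qs, Q0 _ (.inl (by rw [ar]; linarith [le_abs_self x.2.re, abs_nonneg y.2.re])),
      Q0 _ (.inl (by rw [ar]; linarith [le_abs_self y.2.re, abs_nonneg x.2.re]))] at this
    exact add_right_cancel this
  have fw : ∀ (x : ℝ × ℂ) (s : ℝ), 0 ≤ s → R ≤ (Q x).2.re → Q (x + s • e) = Q x + s • e :=
    fun x s hs k => (Qs x s).trans (st _ _ fun r hr => X1 _ (.inl (by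
      rw [uIcc_of_le hs] at hr
      rw [ad, Complex.add_re, Complex.ofReal_re]
      exact le_abs.2 (.inl (by linarith [hr.1])))))
  have dQ : ∀ z ξ (s : ℝ), HasDerivAt (fun s : ℝ => (Q (z, ξ + s)).2)
      (Complex.exp (τ z * Λ (Q (z, ξ + s)).2)) s := fun z ξ s => by
    have e1 : ∀ s : ℝ, Q (z, ξ + s) = φ s (Q (z, ξ)) := fun s => by rw [← Qs, ad]
    have := (hasFDerivAt_snd (𝕜 := ℝ) (p := φ s (Q (z, ξ)))).comp_hasDerivAt s (dv s (Q (z, ξ)))
    rw [hXd, fz, ← e1, show (Q (z, ξ)).1 = z from (congrArg Prod.fst (Q1 (z, ξ))).symm] at this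
    exact this.congr_of_eventuallyEq (.of_forall fun s => congrArg Prod.snd (e1 s))
  have mo : ∀ (w : ℝ × ℝ) (t t' : ℝ), t ≤ t' → R < (Q (w.1, t + w.2 * Complex.I)).2.re →
      R < (Q (w.1, t' + w.2 * Complex.I)).2.re := fun w t t' k1 k2 => by
    have := fw _ _ (sub_nonneg.2 k1) k2.le
    rw [ad, show (t : ℂ) + w.2 * Complex.I + ((t' - t : ℝ) : ℂ) = t' + w.2 * Complex.I by
      push_cast; ring] at this
    rw [this, ar]
    linarith
  have ex : ∀ w : ℝ × ℝ, |w.2| ≤ R → ∃ n : ℕ, R < (Q (w.1, n + w.2 * Complex.I)).2.re :=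
    fun w hw => by
    obtain ⟨t, t0, ht⟩ := pb (Λ := fun ξ => τ w.1 * Λ ξ) (continuous_const.mul hΛ.continuous)
      (γ := fun s => (Q (w.1, w.2 * Complex.I + s)).2) (dQ _ _) (fun a b k => by
        have := Qi (a₁ := (w.1, w.2 * Complex.I + a)) (a₂ := (w.1, w.2 * Complex.I + b))
          (by rw [← Q1, ← Q1 (w.1, w.2 * Complex.I + b)]; exact Prod.ext rfl k)
        simpa using this) (2 * R)
    obtain ⟨n, hn⟩ := exists_nat_ge t
    refine ⟨n, mo w t n hn ?_⟩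
    rw [add_comm] at ht
    have k := Complex.norm_le_abs_re_add_abs_im (Q (w.1, t + w.2 * Complex.I)).2
    by_contra q
    have k1 : Q (Q (w.1, t + w.2 * Complex.I)) = Q (w.1, t + w.2 * Complex.I) := Q0 _ (by
      by_contra q'
      simp only [not_or, not_le] at q'
      have := abs_le.2 ⟨q'.1.le, not_lt.1 q⟩
      linarith [q'.2.1])
    rw [Qi k1] at k ht q
    simp only [Complex.add_re, Complex.ofReal_re, Complex.mul_re, Complex.I_re, mul_zero,
      Complex.ofReal_im, Complex.I_im, mul_one, sub_self, add_zero, Complex.add_im, Complex.mul_im,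
      zero_add] at k q
    rw [abs_of_nonneg t0] at k
    linarith
  obtain ⟨N, hN⟩ : ∃ N : ℕ, ∀ w ∈ tsupport τ ×ˢ Icc (-R) R,
      R < (Q (w.1, N + w.2 * Complex.I)).2.re := by
    obtain ⟨N, hN⟩ := (IsCompact.prod hc isCompact_Icc).elim_directed_cover
      (fun n : ℕ => {w : ℝ × ℝ | R < (Q (w.1, n + w.2 * Complex.I)).2.re})
      (fun n => isOpen_lt continuous_const (Complex.continuous_re.comp
        (Qc.continuous.comp (by fun_prop)).snd))
      (fun w hw => mem_iUnion.2 (ex w (abs_le.2 hw.2)))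
      (Monotone.directed_le fun a b k w hw => mo w a b (Nat.cast_le.2 k) hw)
    exact ⟨N, fun w hw => hN hw⟩
  have eQ : (fun x : ℝ × ℂ => (x.1, (Q x).2)) = Q := funext Q1
  refine ⟨fun x => (Q x).2, max N R, le_max_right _ _, Qc.snd, eQ.symm ▸ Qi, fun x => ?_, dQ,
    fun x hx => congrArg Prod.snd (Q0 x hx), fun x hx => ?_⟩
  · rw [eQ]
    obtain ⟨t, ht⟩ : ∃ t, t = x.2.re + R + 1 := ⟨_, rfl⟩
    have c : ∀ s, ContDiff ℝ ∞ (φ s) := fun s => sm.comp (contDiff_const.prodMk contDiff_id)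
    have s1 : SI (φ t) ((ContinuousLinearEquiv.refl ℝ _) x + (-t) • e) :=
      si_of_inv (k := φ (-t)) ((c t).contDiffAt.of_le (by simp))
        ((c _).differentiable (by simp) _) (.of_forall fun y => by rw [← ga, neg_add_cancel, z0])
    refine (SI.comp (k := φ t) (f := fun y => (ContinuousLinearEquiv.refl ℝ _) y + (-t) • e) s1
      (SI.aff (.refl ℝ _) ((-t) • e) x)).congr ?_
    have o : ∀ᶠ y : ℝ × ℂ in 𝓝 x, y.2.re < x.2.re + 1 :=
      ContinuousAt.eventually_lt (by fun_prop) continuousAt_const (lt_add_one _)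
    filter_upwards [o] with y hy
    have := Qs (y + (-t) • e) t
    rwa [Q0 (y + (-t) • e) (.inl (by rw [ar]; linarith)), add_assoc, ← add_smul, neg_add_cancel,
      zero_smul, add_zero] at this
  · have k : R ≤ (Q (x.1, (max N R : ℝ) + x.2.im * Complex.I)).2.re := by
      by_cases q : (x.1, x.2.im) ∈ tsupport τ ×ˢ Icc (-R) R
      · exact (mo (x.1, x.2.im) N _ (le_max_left _ _) (hN _ q)).le
      · rw [Q0]
        · simp
        · rcases not_and_or.1 q with q | q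
          · exact .inr (.inr (image_eq_zero_of_notMem_tsupport q))
          · exact .inr (.inl (by simpa using (not_le.1 (mt abs_le.1 q)).le))
    have := fw _ _ (sub_nonneg.2 hx) k
    rw [ad, show ((max N R : ℝ) : ℂ) + x.2.im * Complex.I + ((x.2.re - max (N : ℝ) R : ℝ) : ℂ) = x.2 by
      rw [Complex.ofReal_sub, add_right_comm, add_sub_cancel, Complex.re_add_im], ad] at this
    have e1 : (Q x).2 = _ := congrArg Prod.snd this
    refine ⟨?_, e1⟩
    show R ≤ (Q x).2.re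
    rw [e1, Complex.add_re, Complex.ofReal_re]
    linarith

end BEp
end
end

-- merged part: Pool.Agent.Work.MP_f0515e_an.P3.VSm
section
/-! Compactly supported diffeomorphisms of the plane are isotopic to the identity.
Plan. straighten: a x = (P (z, T + im ξ I)).re - T, b x = (P (z, T + im ξ I)).im - im ξ are smooth, bounded, independent of re ξ, and vanish where τ z = 0 or R ≤ |im ξ|. u x = (z, ξ + a x + b x I).
1 + Db (0,I) ≠ 0 by SI.inj at (z, T + 1 + im ξ I), it is 1 for large im, so positive (intermediate value). Q1 x = x + χ1 (re ξ - T - 1) a x • (0,1), Q2 x = x + χ2 (re ξ - T - 1 - M) b x • (0,I), slow_cut, tri_map;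
Q = Q2 ∘ Q1 equals u for re ≤ T + 1. u is onto (intermediate value in im). glue_inj with h = re, a = T, b = T + 1/2, c = T + 1; SI by SI.congr on the two open regions.
smale: Λ from exists_fld, τ = 1 on Icc (-1) 0, τ = 0 for 1 ≤ z or z ≤ -2. Where τ z = 1, s ↦ φ (P (z, ξ + s)) - s is constant, so φ (P x) = ξ, P x = ξ for T ≤ re ξ, φ (J x) = ξ.
This shows that φ is onto. j x = if -1/2 ≤ z then φ (J x) else ξ. -/

open Set Metric Filter Topology Function BEv MeasureTheory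
open scoped NNReal ENNReal ContDiff

noncomputable section
namespace BEp

theorem VSm_si {φ : ℂ → ℂ} (hφ : ContDiff ℝ ∞ φ) (hd : ∀ ξ, Injective (fderiv ℝ φ ξ)) (x : ℝ × ℂ) :
    SI (fun y : ℝ × ℂ => (y.1, φ y.2)) x := by
  refine si_of_inj (contDiff_fst.prodMk ((hφ.of_le (by simp)).comp contDiff_snd)).contDiffAt ?_
  have h : HasFDerivAt (𝕜 := ℝ) (fun y : ℝ × ℂ => (y.1, φ y.2)) _ x := hasFDerivAt_fst.prodMk
    ((hφ.differentiable (by simp) x.2).hasFDerivAt.comp x hasFDerivAt_snd)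
  rw [h.fderiv]
  exact fun v w e => Prod.ext (congrArg Prod.fst e :) (hd x.2 (congrArg Prod.snd e :))

theorem smale {φ : ℂ → ℂ} (hφ : ContDiff ℝ ∞ φ) (hi : Injective φ)
    (hd : ∀ ξ, Injective (fderiv ℝ φ ξ)) {R : ℝ} (R0 : 0 < R) (h1 : ∀ ξ, R ≤ ‖ξ‖ → φ ξ = ξ) :
    Surjective φ ∧ ∃ (j : ℝ × ℂ → ℂ) (R' : ℝ), Injective (fun x : ℝ × ℂ => (x.1, j x)) ∧
      (∀ x, SI (fun x : ℝ × ℂ => (x.1, j x)) x) ∧ (∀ x : ℝ × ℂ, 1 ≤ x.1 → j x = φ x.2) ∧
      ∀ x : ℝ × ℂ, (x.1 ≤ 0 ∨ R' ≤ ‖x.2‖) → j x = x.2 := by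
  obtain ⟨Λ, hΛ, e1, e0⟩ := exists_fld hφ hd R0 h1
  let τ : ContDiffBump (-1 / 2 : ℝ) := ⟨1 / 2, 3 / 2, by norm_num, by norm_num⟩
  have t1 : ∀ z : ℝ, -1 ≤ z → z ≤ 0 → τ z = 1 := fun z a b => τ.one_of_mem_closedBall
    (mem_closedBall_iff_norm.2 (abs_le.2 ⟨by simp only [τ]; linarith only [a], by simp only [τ]; linarith only [b]⟩))
  have t0 : ∀ z : ℝ, 1 ≤ z → τ z = 0 := fun z a => τ.zero_of_le_dist
    (le_abs.2 (.inl (by simp only [τ]; linarith)))
  have R1 : 0 < R + 1 := by linarith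
  obtain ⟨P, T, RT, p1, p2, p3, p4, p5, p6⟩ :=
    flow_box3 hΛ R1 e0 (τ := τ) τ.contDiff τ.hasCompactSupport
  obtain ⟨J, R', j1, j2, j3, j4⟩ := straighten R1 RT τ.hasCompactSupport p1 p2 p3 p5
    fun x hx => (p6 x hx).2
  have k1 : ∀ z, τ z = 1 → ∀ ξ, φ (P (z, ξ)) = ξ := fun z hz ξ => by
    have d : ∀ s : ℝ, HasDerivAt (fun s : ℝ => φ (P (z, ξ + s)) - s) 0 s := fun s => by
      have := ((hφ.differentiable (by simp) _).hasFDerivAt.comp_hasDerivAt s (p4 z ξ s)).sub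
        Complex.ofRealCLM.hasDerivAt
      rw [hz, Complex.ofReal_one, one_mul, e1, Complex.ofRealCLM_apply, Complex.ofReal_one,
        sub_self] at this
      exact this
    have e := is_const_of_deriv_eq_zero (fun s => (d s).differentiableAt) (fun s => (d s).deriv) 0
      (-(R + 1) - ξ.re)
    have r : (ξ + ((-(R + 1) - ξ.re : ℝ) : ℂ)).re = -(R + 1) := by
      rw [Complex.add_re, Complex.ofReal_re, add_sub_cancel]
    rw [p5 (z, _) (.inl r.le), h1 (ξ + ((-(R + 1) - ξ.re : ℝ) : ℂ))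
      ((le_abs.2 (.inr (by rw [r]; linarith))).trans (Complex.abs_re_le_norm _))] at e
    simpa using e
  have k2 : ∀ x : ℝ × ℂ, -1 ≤ x.1 → x.1 ≤ 0 → φ (J x) = x.2 := fun x a b => by
    rw [j4 x.1 (fun ξ hξ => ?_) x.2, k1 _ (t1 _ a b)]
    rw [← h1 (P (x.1, ξ)), k1 _ (t1 _ a b)]
    linarith [(p6 (x.1, ξ) hξ).1, Complex.re_le_norm (P (x.1, ξ))]
  refine ⟨fun ξ => ⟨_, k2 (0, ξ) (by norm_num) le_rfl⟩,
    fun x => if -1 / 2 ≤ x.1 then φ (J x) else x.2, max R' R, fun x y e => ?_, fun x => ?_,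
    fun x hx => ?_, fun x hx => ?_⟩
  · obtain ⟨e1, e2⟩ := Prod.ext_iff.1 e
    dsimp only at e1 e2
    rw [← e1] at e2
    split_ifs at e2
    · exact j1 (Prod.ext e1 (hi e2))
    · exact Prod.ext e1 e2
  · rcases lt_or_ge (-1) x.1 with k | k
    · refine ((VSm_si hφ hd _).comp (j2 x)).congr ?_
      filter_upwards [continuous_fst.continuousAt.eventually (lt_mem_nhds k)] with y hy
      split_ifs with c
      · rfl
      · rw [k2 y hy.le (by linarith only [hy, c])]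
    · refine (SI.id' x).congr ?_
      filter_upwards [continuous_fst.continuousAt.eventually
        (gt_mem_nhds (show x.1 < -1 / 2 by linarith only [k]))] with y hy
      rw [if_neg hy.not_ge]
  · dsimp only
    rw [if_pos (by linarith only [hx]), j3 x (.inl (t0 _ hx))]
  · dsimp only
    split_ifs with c
    · rcases hx with hx | hx
      · exact k2 x (by linarith only [c]) hx
      · rw [j3 x (.inr ((le_max_left _ _).trans hx)), h1 _ ((le_max_right _ _).trans hx)]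
    · rfl

end BEp
end
end

-- merged part: Pool.Agent.Work.MP_f0515e_an.P3.VCyl
section
/-! A map which commutes with vertical translations is joined to the identity.
Plan. m, F1 from cyl_moll, u x = x + m x.2 is injective and regular (translate down), φ ξ = ξ + (m ξ).2 is injective with injective derivative (EX.inj), l ξ = (m ξ).1 is bounded. j from smale.
Λ x = x + χ (-3 - x.1) l x.2 • (1,0) (slow_cut, tri_map), J x = (x.1, j (x.1 + c, x.2)) with c = 4 + bound of l, θ = J ∘ Λ is injective, SI, and equals u for -3 ≤ x.1. u is onto because φ is (smale).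
glue_inj with a = -3, b = -2, c = -1. -/

open Set Metric Filter Topology Function BEv MeasureTheory
open scoped NNReal ENNReal ContDiff

noncomputable section
namespace BEp

theorem VCyl_inj {m : ℂ → ℝ × ℂ} {F : ℝ × ℂ → ℝ × ℂ} (hF : Injective F)
    (h : ∀ x, x.1 ≤ -1 → F x = x + m x.2) : Injective fun x : ℝ × ℂ => x + m x.2 := by
  intro x y e
  have e' : x + m x.2 = y + m y.2 := e
  obtain ⟨t, ht⟩ : ∃ t, t = max x.1 y.1 + 1 := ⟨_, rfl⟩
  have hx : x.1 + 1 ≤ t := by rw [ht]; linarith [le_max_left x.1 y.1]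
  have hy : y.1 + 1 ≤ t := by rw [ht]; linarith [le_max_right x.1 y.1]
  have k : F (x - (t, 0)) = F (y - (t, 0)) := by
    rw [h _ (by simp only [Prod.fst_sub]; linarith), h _ (by simp only [Prod.fst_sub]; linarith)]
    simp only [Prod.snd_sub, sub_zero]
    rw [sub_add_eq_add_sub, sub_add_eq_add_sub, e']
  exact sub_left_injective (hF k)

theorem VCyl_der {m : ℂ → ℝ × ℂ} {F : ℝ × ℂ → ℝ × ℂ} (hm : ContDiff ℝ ∞ m) (hF : ∀ x, CR F x)
    (h : ∀ x, x.1 ≤ -1 → F x = x + m x.2) (ξ : ℂ) :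
    Injective (fderiv ℝ (fun ξ => ξ + (m ξ).2) ξ) := by
  have hd : HasFDerivAt m (fderiv ℝ m ξ) ξ := (hm.differentiable (by simp) ξ).hasFDerivAt
  have e : (fun x : ℝ × ℂ => x + m x.2) =ᶠ[𝓝 ((-2 : ℝ), ξ)] F := by
    have : ∀ᶠ y : ℝ × ℂ in 𝓝 ((-2 : ℝ), ξ), y.1 < -1 :=
      continuous_fst.continuousAt.eventually_lt continuousAt_const (by norm_num)
    exact this.mono fun y hy => (h y hy.le).symm
  obtain ⟨c, c0, hc⟩ := ((hF _).congr e).ex
  have hA : HasFDerivAt (fun x : ℝ × ℂ => x + m x.2)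
      (ContinuousLinearMap.id ℝ (ℝ × ℂ) + (fderiv ℝ m ξ).comp (ContinuousLinearMap.snd ℝ ℝ ℂ))
      ((-2 : ℝ), ξ) :=
    (hasFDerivAt_id _).add (HasFDerivAt.comp ((-2 : ℝ), ξ) (g := m) hd hasFDerivAt_snd)
  have hi := hc.inj c0 hA
  have hB : HasFDerivAt (fun ξ => ξ + (m ξ).2)
      (ContinuousLinearMap.id ℝ ℂ + (ContinuousLinearMap.snd ℝ ℝ ℂ).comp (fderiv ℝ m ξ)) ξ :=
    (hasFDerivAt_id _).add hd.snd
  rw [hB.fderiv]
  refine (injective_iff_map_eq_zero _).2 fun v hv => ?_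
  have hv' : v + (fderiv ℝ m ξ v).2 = 0 := hv
  have := (injective_iff_map_eq_zero _).1 hi (-(fderiv ℝ m ξ v).1, v) (by
    show (-(fderiv ℝ m ξ v).1, v) + fderiv ℝ m ξ v = 0
    exact Prod.ext (by simp) hv')
  exact congrArg Prod.snd this

theorem VCyl_lam {l : ℂ → ℝ} {χ : ℝ → ℝ} {B : ℝ} (hl : ContDiff ℝ ∞ l) (hχ : ContDiff ℝ ∞ χ)
    (hB : ∀ ξ, |l ξ| ≤ B) (h : ∀ s, |deriv χ s| * B < 1) :
    Injective (fun y : ℝ × ℂ => y + (χ (-3 - y.1) * l y.2) • ((1, 0) : ℝ × ℂ)) ∧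
      ∀ y, SI (fun y : ℝ × ℂ => y + (χ (-3 - y.1) * l y.2) • ((1, 0) : ℝ × ℂ)) y := by
  have ha : ContDiff ℝ 1 fun y : ℝ × ℂ => χ (-3 - y.1) * l y.2 :=
    ((hχ.of_le (by simp)).comp (contDiff_const.sub contDiff_fst)).mul
      ((hl.of_le (by simp)).comp contDiff_snd)
  refine tri_map _ ha fun y => ?_
  have h1 : HasDerivAt (fun t : ℝ => y + t • ((1, 0) : ℝ × ℂ)) (1, 0) 0 := by
    simpa using ((hasDerivAt_id (0 : ℝ)).smul_const ((1, 0) : ℝ × ℂ)).const_add y
  have h2 := HasFDerivAt.comp_hasDerivAt_of_eq (0 : ℝ)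
    (ha.differentiable one_ne_zero y).hasFDerivAt h1 (by simp)
  have h3 : HasDerivAt (fun t : ℝ => -3 - (y.1 + t)) (-1) 0 := by
    simpa using ((hasDerivAt_id (0 : ℝ)).const_add y.1).const_sub (-3)
  have h4 := (HasDerivAt.comp_of_eq (0 : ℝ)
    (hχ.differentiable (by simp) (-3 - y.1)).hasDerivAt h3 (by simp)).mul_const (l y.2)
  have e : ((fun y : ℝ × ℂ => χ (-3 - y.1) * l y.2) ∘ fun t : ℝ => y + t • ((1, 0) : ℝ × ℂ)) =
      fun t => (χ ∘ fun t : ℝ => -3 - (y.1 + t)) t * l y.2 := by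
    funext t
    simp
  rw [e] at h2
  rw [h2.unique h4]
  have h5 : |deriv χ (-3 - y.1) * -1 * l y.2| < 1 := by
    rw [abs_mul, mul_neg_one, abs_neg]
    exact (mul_le_mul_of_nonneg_left (hB _) (abs_nonneg _)).trans_lt (h _)
  exact (abs_lt.1 h5).1

theorem cyl {g : ℂ → ℝ × ℂ} {R : ℝ} (R0 : 0 < R) (h0 : ∀ ξ, R ≤ ‖ξ‖ → g ξ = 0)
    (hi : Injective fun x : ℝ × ℂ => x + g x.2) (hc : ∀ x, CR (fun x : ℝ × ℂ => x + g x.2) x) :
    ∃ (F : ℝ × ℂ → ℝ × ℂ) (T : ℝ), Injective F ∧ (∀ x, CR F x) ∧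
      (∀ x, 0 ≤ x.1 → F x = x + g x.2) ∧ ∀ x, (x.1 ≤ -T ∨ T ≤ ‖x.2‖) → F x = x := by
  obtain ⟨m, F1, hm, m0, i1, c1, e0, e1, e2⟩ := cyl_moll h0 hi hc
  have iu := VCyl_inj i1 e1
  have iφ : Injective fun ξ => ξ + (m ξ).2 := by
    intro ξ η e
    have e' : ξ + (m ξ).2 = η + (m η).2 := e
    have := @iu (-(m ξ).1, ξ) (-(m η).1, η) (Prod.ext (by simp) e')
    exact congrArg Prod.snd this
  obtain ⟨sφ, j, R', ij, sj, j1, j0⟩ := smale (φ := fun ξ => ξ + (m ξ).2) (R := R + 1)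
    (contDiff_id.add hm.snd) iφ (VCyl_der hm c1 e1) (by linarith)
    (fun ξ k => by simp [m0 ξ k])
  obtain ⟨B, B0, hB⟩ : ∃ B, 0 ≤ B ∧ ∀ ξ, |(m ξ).1| ≤ B := by
    obtain ⟨C, hC⟩ := (isCompact_closedBall (0 : ℂ) (R + 1)).exists_bound_of_continuousOn
      hm.continuous.fst.continuousOn
    refine ⟨max C 0, le_max_right _ _, fun ξ => ?_⟩
    by_cases k : R + 1 ≤ ‖ξ‖
    · simp [m0 ξ k]
    · exact (hC ξ (by simpa using (not_le.1 k).le)).trans (le_max_left _ _)
  obtain ⟨χ, T0, T00, hχ, -, χ1, χ0, dχ⟩ := slow_cut B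
  obtain ⟨iΛ, sΛ⟩ := VCyl_lam hm.fst hχ hB dχ
  obtain ⟨Λ, hΛ⟩ : ∃ Λ : ℝ × ℂ → ℝ × ℂ,
      Λ = fun y => y + (χ (-3 - y.1) * (m y.2).1) • ((1, 0) : ℝ × ℂ) := ⟨_, rfl⟩
  rw [← hΛ] at iΛ sΛ
  obtain ⟨J, hJ⟩ : ∃ J : ℝ × ℂ → ℝ × ℂ, J = fun x => (x.1, j x) := ⟨_, rfl⟩
  rw [← hJ] at ij sj
  obtain ⟨v, hv⟩ : ∃ v : ℝ × ℂ, v = (4 + B, 0) := ⟨_, rfl⟩
  obtain ⟨θ, hθ⟩ : ∃ θ : ℝ × ℂ → ℝ × ℂ, θ = fun x => J (Λ x + v) + -v := ⟨_, rfl⟩
  have tr : ∀ b x : ℝ × ℂ, SI (fun y => y + b) x := fun b x =>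
    SI.aff (ContinuousLinearEquiv.refl ℝ (ℝ × ℂ)) b x
  have iθ : Injective θ := by
    rw [hθ]
    intro x y e
    exact iΛ (add_right_cancel (ij (add_right_cancel e)))
  have sθ : ∀ x, SI θ x := by
    intro x
    rw [hθ]
    exact SI.comp (k := fun y => y + -v) (f := fun x => J (Λ x + v)) (tr _ _)
      (SI.comp (k := J) (f := fun x => Λ x + v) (sj _)
        (SI.comp (k := fun y => y + v) (f := Λ) (tr _ _) (sΛ x)))
  have Λ1 : ∀ x, (Λ x).1 = x.1 + χ (-3 - x.1) * (m x.2).1 := fun x => by simp [hΛ]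
  have Λ2 : ∀ x, (Λ x).2 = x.2 := fun x => by simp [hΛ]
  have θ1 : ∀ x, (θ x).1 = (Λ x).1 := fun x => by simp [hθ, hJ]
  have θ2 : ∀ x, (θ x).2 = j (Λ x + v) := fun x => by simp [hθ, hJ, hv]
  have v1 : ∀ x, (Λ x + v).1 = (Λ x).1 + (4 + B) := fun x => by simp [hv]
  have v2 : ∀ x, (Λ x + v).2 = x.2 := fun x => by simp [hv, Λ2]
  have eθ : ∀ x : ℝ × ℂ, -3 ≤ x.1 → θ x = x + m x.2 := by
    intro x k
    have k1 : (Λ x).1 = x.1 + (m x.2).1 := by rw [Λ1, χ1 _ (by linarith), one_mul]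
    refine Prod.ext (by rw [θ1, k1]; rfl) ?_
    rw [θ2, j1 _ (by rw [v1, k1]; linarith [(abs_le.1 (hB x.2)).1]), v2]
    rfl
  have su : ∀ y : ℝ × ℂ, y ∈ range fun x : ℝ × ℂ => x + m x.2 := by
    intro y
    obtain ⟨ξ, hξ⟩ := sφ y.2
    exact ⟨(y.1 - (m ξ).1, ξ), Prod.ext (by simp) hξ⟩
  refine ⟨fun x => if -2 ≤ x.1 then F1 x else θ x, max (max (3 + T0) (4 + B)) (max (R + 1) R'),
    glue_inj (h := Prod.fst) (a := -3) (c := -1) i1 iθ (by norm_num) (by norm_num) e1 eθ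
      fun x => su _, fun x => ?_, fun x k => ?_, fun x k => ?_⟩
  · by_cases k : -3 < x.1
    · refine (c1 x).congr ?_
      have : ∀ᶠ y : ℝ × ℂ in 𝓝 x, -3 < y.1 :=
        continuousAt_const.eventually_lt continuous_fst.continuousAt k
      refine this.mono fun y hy => ?_
      by_cases q : -2 ≤ y.1
      · exact if_pos q
      · exact (if_neg q).trans ((eθ y hy.le).trans (e1 y (by linarith)).symm)
    · refine (SI.cr (sθ x)).congr ?_
      have : ∀ᶠ y : ℝ × ℂ in 𝓝 x, y.1 < -2 :=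
        continuous_fst.continuousAt.eventually_lt continuousAt_const (by linarith)
      exact this.mono fun y hy => if_neg (not_le.2 hy)
  · exact (if_pos (by linarith)).trans (e0 x k)
  · rcases k with k | k
    · have k1 : 3 + T0 ≤ -x.1 :=
        ((le_max_left _ _).trans (le_max_left _ _)).trans (le_neg.1 k)
      have k2 : 4 + B ≤ -x.1 :=
        ((le_max_right _ _).trans (le_max_left _ _)).trans (le_neg.1 k)
      have k3 : (Λ x).1 = x.1 := by rw [Λ1, χ0 _ (by linarith), zero_mul, add_zero]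
      refine (if_neg (by linarith)).trans (Prod.ext (by rw [θ1, k3]) ?_)
      rw [θ2, j0 _ (Or.inl (by rw [v1, k3]; linarith)), v2]
    · have k1 : R + 1 ≤ ‖x.2‖ := ((le_max_left _ _).trans (le_max_right _ _)).trans k
      have k2 : R' ≤ ‖x.2‖ := ((le_max_right _ _).trans (le_max_right _ _)).trans k
      by_cases q : -2 ≤ x.1
      · exact (if_pos q).trans (e2 x k1)
      · refine (if_neg q).trans (Prod.ext ?_ ?_)
        · rw [θ1, Λ1, m0 _ k1]
          simp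
        · rw [θ2, j0 _ (Or.inr (by rwa [v2])), v2]

end BEp
end
end
end
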