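import Pool.Agent.Work.MP_f0515e_an.P3.GGeo
import Pool.Agent.Work.MP_f0515e_an.P3.CMass

/-! Splitting of the bounds. `xf_split`: `‖D ∘ M‖ ≤ ‖A ∘ M‖ + aK ‖D - A‖`. `xerr`: `μ` is the sum over
the cells and faces of the weighted images of the area on the chart domain and of the length on
its boundary; its mass is bounded by `Shp.bd`, `mass` and `Cbe.vol` (in the coordinates `cN σ`,
`Fit.cav`, `lintN`): for every cell the weight times the area of the faces is at most a power of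
`aK` times the volume of the cell. `xwall`: in rank one a point of a long face which is in a zone
is at distance less than `ρ'` from a line of the lattice, so at distance at most `3 ρ'` from the
boundary of the square in the chart; in rank two the zones lie in `WI`. -/

open Set Metric Filter Topology Function BEv MeasureTheory
open scoped NNReal ENNReal

noncomputable section
namespace BEp

open Classical in
/-- Weighted area of a face. -/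
def Cu.MF (C : Cu) (p C1 : ℝ) (kp : Set (I3 × I3)) (k : Ch) (w : ℝ) (F : Set (Rn 3)) : ℝ≥0∞ :=
  if C.Frz kp F then ENNReal.ofReal w * ∫⁻ ξ in frontier k.U, C.Wt C1 kp (k.φ ξ) ^ p ∂μH[1]
  else ∫⁻ ξ in k.U, C.Wt C1 kp (k.φ ξ) ^ p

/-- Integral over a face and its boundary. -/
def Ch.J (k : Ch) (w : ℝ) (Φ : Rn 3 → ℝ≥0∞) : ℝ≥0∞ :=
  (∫⁻ ξ in k.U, Φ (k.φ ξ)) + ENNReal.ofReal w * ∫⁻ ξ in frontier k.U, Φ (k.φ ξ) ∂μH[1]

theorem WSp_le {C : Cu} {C1 : ℝ} (h2 : C1 ≤ C.cf) (kp : Set (I3 × I3)) (x : Rn 3) :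
    C.Wt C1 kp x ≤ ENNReal.ofReal C.cf := by
  unfold Cu.Wt
  split_ifs
  exacts [le_rfl, ENNReal.ofReal_le_ofReal h2]

theorem WSp_pw {x p : ℝ} (hx : 1 ≤ x) (hp : p ≤ 3) :
    ENNReal.ofReal x ^ p ≤ ENNReal.ofReal (x ^ 3) := by
  rw [ENNReal.ofReal_pow (by linarith), ← ENNReal.rpow_natCast]
  exact ENNReal.rpow_le_rpow_of_exponent_le (ENNReal.one_le_ofReal.2 hx) (by simpa using hp)

theorem WSp_nM {k : Ch} {a : ℝ} (ha : 0 ≤ a) (hk : k.Bi idE a) : ‖k.M‖ₑ ≤ ENNReal.ofReal a := by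
  rw [← ofReal_norm]
  exact ENNReal.ofReal_le_ofReal (k.M.opNorm_le_bound ha fun ξ => (hk ξ).1)

theorem WSp_cφ (k : Ch) : Continuous k.φ := by
  unfold Ch.φ
  fun_prop

theorem WSp_pt {p : ℝ} (hp : 0 ≤ p) {W c a b d : ℝ≥0∞} (hW : W ≤ c) (hd : d ≤ a + b) :
    (W * (2 * d)) ^ p ≤ 4 ^ p * (a ^ p * W ^ p + (c * b) ^ p) := by
  rcases le_total a b with h | h
  · have h1 : W * (2 * d) ≤ 4 * (c * b) :=
      calc W * (2 * d) ≤ c * (2 * (b + b)) := by gcongr; exact hd.trans (by gcongr)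
        _ = 4 * (c * b) := by ring
    refine (ENNReal.rpow_le_rpow h1 hp).trans ?_
    rw [ENNReal.mul_rpow_of_nonneg _ _ hp]
    exact mul_le_mul' le_rfl le_add_self
  · have h1 : W * (2 * d) ≤ 4 * (a * W) :=
      calc W * (2 * d) ≤ W * (2 * (a + a)) := by gcongr; exact hd.trans (by gcongr)
        _ = 4 * (a * W) := by ring
    refine (ENNReal.rpow_le_rpow h1 hp).trans ?_
    rw [ENNReal.mul_rpow_of_nonneg _ _ hp, ENNReal.mul_rpow_of_nonneg _ _ hp]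
    exact mul_le_mul' le_rfl le_self_add

theorem WSp_int {p : ℝ} (hp1 : 1 ≤ p) {C : Cu} {aK C1 : ℝ} (h : C.Ok aK)
    (h2 : C1 ≤ C.cf) (kp : Set (I3 × I3)) {D : Rn 3 → Rn 3 →L[ℝ] Rn 3} (hD : Measurable D) {k : Ch}
    (hk : k.Bi idE aK) (ν : Measure (Rn 2)) :
    ∫⁻ ξ, (C.Wt C1 kp (k.φ ξ) * (2 * ‖(D (k.φ ξ)).comp k.M‖ₑ)) ^ p ∂ν ≤
      4 ^ p * (‖C.A.comp k.M‖ₑ ^ p * ∫⁻ ξ, C.Wt C1 kp (k.φ ξ) ^ p ∂ν +
        ENNReal.ofReal ((C.cf * aK) ^ p) * ∫⁻ ξ, ‖D (k.φ ξ) - C.A‖ₑ ^ p ∂ν) := by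
  have hp : 0 ≤ p := by linarith
  have ha : 0 ≤ aK := by linarith [h.pos.2.2.2.2.2.2.2.2.2]
  have hc : 0 ≤ C.cf := by linarith [h.c1.1]
  have m : Measurable fun ξ => ‖D (k.φ ξ) - C.A‖ₑ ^ p :=
    (((continuous_id.sub continuous_const).enorm.measurable.comp hD).comp
      (WSp_cφ k).measurable).pow_const p
  rw [← lintegral_const_mul' _ _ (ENNReal.rpow_ne_top_of_nonneg hp enorm_ne_top),
    ← lintegral_const_mul _ m, ← lintegral_add_right _ (m.const_mul _),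
    ← lintegral_const_mul' _ _ (ENNReal.rpow_ne_top_of_nonneg hp (by simp))]
  refine lintegral_mono fun ξ => ?_
  have e : (D (k.φ ξ)).comp k.M = C.A.comp k.M + (D (k.φ ξ) - C.A).comp k.M := by
    rw [← ContinuousLinearMap.add_comp, add_sub_cancel]
  have h3 : ‖(D (k.φ ξ)).comp k.M‖ₑ ≤
      ‖C.A.comp k.M‖ₑ + ENNReal.ofReal aK * ‖D (k.φ ξ) - C.A‖ₑ := by
    rw [e]
    refine (enorm_add_le (C.A.comp k.M) ((D (k.φ ξ) - C.A).comp k.M)).trans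
      (add_le_add le_rfl ?_)
    rw [mul_comm]
    exact (ContinuousLinearMap.opENorm_comp_le _ _).trans (mul_le_mul' le_rfl (WSp_nM ha hk))
  refine (WSp_pt hp (WSp_le h2 kp _) h3).trans_eq ?_
  rw [← mul_assoc (ENNReal.ofReal C.cf), ← ENNReal.ofReal_mul hc,
    ENNReal.mul_rpow_of_nonneg (ENNReal.ofReal _) _ hp,
    ENNReal.ofReal_rpow_of_nonneg (mul_nonneg hc ha) hp]

theorem xf_split {p : ℝ} (hp1 : 1 ≤ p) {C : Cu} {aK C1 : ℝ} (h : C.Ok aK) (h1 : 1 ≤ C1)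
    (h2 : C1 ≤ C.cf) (kp : Set (I3 × I3)) {D : Rn 3 → Rn 3 →L[ℝ] Rn 3} (hD : Measurable D) {k : Ch}
    (hk : k.Bi idE aK) (w : ℝ) (F : Set (Rn 3)) :
    C.XF p C1 kp D k w F ≤ 4 ^ p * (‖C.A.comp k.M‖ₑ ^ p * C.MF p C1 kp k w F +
      ENNReal.ofReal ((C.cf * aK) ^ p) * k.J w fun y => ‖D y - C.A‖ₑ ^ p) := by
  unfold Cu.XF Cu.MF Ch.J
  split_ifs
  · refine (mul_le_mul' le_rfl (WSp_int hp1 h h2 kp hD hk _)).trans ?_
    rw [mul_left_comm, mul_add, mul_left_comm, mul_left_comm (ENNReal.ofReal w)]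
    gcongr
    exact le_add_self
  · refine (WSp_int hp1 h h2 kp hD hk _).trans ?_
    gcongr
    exact le_self_add

theorem WSp_wgt {C : Cu} {aK : ℝ} (h : C.Ok aK) (σ : Set (Rn 3)) : C.ca aK σ ≤ aK ∧ ∃ B : ℝ, 0 ≤ B ∧
    volume σ = ENNReal.ofReal B * volume (C.cN σ ⁻¹' σ) ∧
    ∀ F, C.wgt aK σ F ≤ ENNReal.ofReal (2 * B * C.ca aK σ ^ 16 * C.cl σ) := by
  obtain ⟨hη, hh, hs, ht, hl, hρ', hκ, hζ, hb, hK⟩ := h.pos
  have hg := h.g0
  unfold Cu.ca Cu.cN Cu.wgt Cu.cl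
  by_cases h1 : σ ⊆ C.WI
  · simp only [h1, true_or, not_true, false_and, if_true, if_false]
    exact ⟨by linarith, 1, zero_le_one, by simp, fun F => ENNReal.ofReal_le_ofReal (by linarith)⟩
  by_cases h2 : C.Lng σ
  · simp only [h1, h2, or_true, not_false_eq_true, and_self, if_true, if_false]
    refine ⟨by linarith, C.b ^ (3 - C.I.card), by positivity, ?_,
      fun F => ENNReal.ofReal_le_ofReal ?_⟩
    · simpa only [lintegral_const, one_mul, Measure.restrict_apply_univ] using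
        h.lintN σ fun _ => 1
    · have : 0 ≤ C.b ^ (3 - C.I.card) * C.h := by positivity
      split_ifs <;> nlinarith [hg.1, hg.2]
  · simp only [h1, h2, or_self, and_false, if_false]
    refine ⟨le_rfl, 1, zero_le_one, by simp, fun F => ENNReal.ofReal_le_ofReal ?_⟩
    have : 0 ≤ aK ^ 16 * C.h := by positivity
    linarith

theorem WSp_cell : ∃ Cm : ℝ, 0 ≤ Cm ∧ ∀ (C : Cu) (aK : ℝ) (Ω : Set (Rn 3)) (K : Kx Ω)
    (ch : Set (Rn 3) → Ch) (w : Set (Rn 3) → ℝ), C.Ok aK → C.Fit aK K ch w → ∀ σ ∈ C.S0 K,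
    ∑' F : K.fc σ, C.wgt aK σ F * volume (ch F).U ≤ ENNReal.ofReal (Cm * aK ^ 23) * volume σ := by
  obtain ⟨c, hc, hm⟩ := mass
  refine ⟨2 * c, by linarith, fun C aK Ω K ch w h hf σ hσ => ?_⟩
  obtain ⟨a1, l0, cb, hF⟩ := hf.cav h hσ
  obtain ⟨a2, B, hB, e, hw⟩ := WSp_wgt h σ
  have a0 : 0 ≤ C.ca aK σ := by linarith
  have k1 := hm Ω K ch σ _ _ _ hσ.1 a0 l0.le cb fun F k => (hF F k).2
  have k2 := cb.vol a0 l0.le
  generalize C.ca aK σ = a at *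
  generalize C.cl σ = l at *
  calc ∑' F : K.fc σ, C.wgt aK σ F * volume (ch F).U
      ≤ ∑' F : K.fc σ, ENNReal.ofReal (2 * B * a ^ 16 * l) * volume (ch F).U :=
        ENNReal.tsum_le_tsum fun F => mul_le_mul' (hw F) le_rfl
    _ ≤ ENNReal.ofReal (2 * B * a ^ 16 * l) * ENNReal.ofReal (c * a ^ 4 * l ^ 2) := by
        rw [ENNReal.tsum_mul_left]
        exact mul_le_mul' le_rfl k1
    _ = ENNReal.ofReal (2 * c * a ^ 20 * B) * ENNReal.ofReal (l ^ 3) := by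
        rw [← ENNReal.ofReal_mul (by positivity), ← ENNReal.ofReal_mul (by positivity)]
        congr 1
        ring
    _ ≤ ENNReal.ofReal (2 * c * a ^ 20 * B) *
        (ENNReal.ofReal (a ^ 3) * volume (C.cN σ ⁻¹' σ)) := mul_le_mul' le_rfl k2
    _ = ENNReal.ofReal (2 * c * a ^ 23) * volume σ := by
        rw [e, ← mul_assoc, ← mul_assoc, ← ENNReal.ofReal_mul (by positivity),
          ← ENNReal.ofReal_mul (by positivity)]
        congr 2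
        ring
    _ ≤ _ := by gcongr

theorem WSp_sum {C : Cu} {aK : ℝ} {Ω : Set (Rn 3)} (K : Kx Ω) (kp : Set (I3 × I3))
    (S : Set (Set (Rn 3))) (E : Set (Rn 3) → ℝ≥0∞) :
    C.SumF aK K kp S E ≤ ∑' σ : S, ∑' F : K.fc σ, C.wgt aK σ F * E F :=
  ENNReal.tsum_le_tsum fun σ => ENNReal.tsum_mono_subtype (fun F => C.wgt aK σ F * E F)
    (s := {F | F ∈ K.fc σ ∧ ¬ C.Rig kp F}) fun _ k => k.1

theorem WSp_tot {Cm : ℝ} {C : Cu} {aK : ℝ} {Ω : Set (Rn 3)} {K : Kx Ω} (hΩ : IsOpen Ω)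
    {ch : Set (Rn 3) → Ch} {S : Set (Set (Rn 3))} (hS : S ⊆ K.cel 3) {T : Set (Rn 3)}
    (hT : ∀ σ ∈ S, σ ⊆ T) (hm : ∀ σ ∈ S, ∑' F : K.fc σ, C.wgt aK σ F * volume (ch F).U ≤
      ENNReal.ofReal (Cm * aK ^ 23) * volume σ) {E : Set (Rn 3) → ℝ≥0∞} {c : ℝ≥0∞}
    (hE : ∀ σ ∈ S, ∀ F ∈ K.fc σ, E F ≤ c * volume (ch F).U) :
    ∑' σ : S, ∑' F : K.fc σ, C.wgt aK σ F * E F ≤
      c * (ENNReal.ofReal (Cm * aK ^ 23) * volume T) := by
  have k := K.sum_vol hΩ hS hT fun _ => 1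
  simp only [lintegral_const, one_mul, Measure.restrict_apply_univ] at k
  refine le_trans ?_ (mul_le_mul' le_rfl (mul_le_mul' le_rfl k))
  rw [← ENNReal.tsum_mul_left, ← ENNReal.tsum_mul_left]
  refine ENNReal.tsum_le_tsum fun σ => le_trans ?_ (mul_le_mul' le_rfl (hm σ σ.2))
  rw [← ENNReal.tsum_mul_left]
  refine ENNReal.tsum_le_tsum fun F => ?_
  rw [mul_left_comm]
  exact mul_le_mul' le_rfl (hE σ σ.2 F F.2)

theorem xerr (aK : ℝ) : ∃ Cx : ℝ≥0∞, Cx ≠ ⊤ ∧ ∀ (C : Cu) (Ω : Set (Rn 3)) (K : Kx Ω)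
    (ch : Set (Rn 3) → Ch) (w : Set (Rn 3) → ℝ), C.Ok aK → C.Fit aK K ch w →
    ∃ μ : Measure (Rn 3), μ C.qᶜ = 0 ∧ μ univ ≤ Cx * ENNReal.ofReal (C.η ^ 3) ∧
      ∀ (kp : Set (I3 × I3)) (Φ : Rn 3 → ℝ≥0∞), Measurable Φ →
        C.SumF aK K kp (C.S0 K) (fun F => (ch F).J (w F) Φ) ≤ ∫⁻ y, Φ y ∂μ := by
  obtain ⟨Cm, -, hm⟩ := WSp_cell
  refine ⟨9 * (ENNReal.ofReal (Cm * aK ^ 23) * 8), by finiteness, fun C Ω K ch w h hf => ?_⟩
  let μ : Measure (Rn 3) := Measure.sum fun σ : C.S0 K => Measure.sum fun F : K.fc σ =>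
    C.wgt aK σ F • ((volume.restrict (ch F).U).map (ch F).φ +
      ENNReal.ofReal (w F) • ((μH[1] : Measure (Rn 2)).restrict (frontier (ch F).U)).map (ch F).φ)
  have e : ∀ Φ : Rn 3 → ℝ≥0∞, Measurable Φ → ∫⁻ y, Φ y ∂μ =
      ∑' σ : C.S0 K, ∑' F : K.fc σ, C.wgt aK σ F * (ch F).J (w F) Φ := fun Φ hΦ => by
    simp only [μ, lintegral_sum_measure, lintegral_smul_measure, lintegral_add_measure,
      lintegral_map hΦ (WSp_cφ _).measurable, smul_eq_mul, Ch.J]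
  refine ⟨μ, ?_, ?_, fun kp Φ hΦ => (WSp_sum K kp _ _).trans (e Φ hΦ).ge⟩
  · have mq : MeasurableSet C.qᶜ := isClosed_closedBall.measurableSet.compl
    rw [← lintegral_indicator_one mq, e _ (measurable_one.indicator mq)]
    refine ENNReal.tsum_eq_zero.2 fun σ => ENNReal.tsum_eq_zero.2 fun F => ?_
    obtain ⟨k1, k2, -⟩ := (hf.cav h σ.2).2.2.2 F F.2
    have k3 : ∀ ξ ∈ closure (ch F).U, C.qᶜ.indicator (1 : Rn 3 → ℝ≥0∞) ((ch F).φ ξ) = 0 :=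
      fun ξ hξ => indicator_of_notMem (not_not.2 (closure_minimal (s := (ch F).U)
        (t := (ch F).φ ⁻¹' C.q) (fun z hz => k1 (k2.2.2.subset (mem_image_of_mem _ hz)))
        (isClosed_closedBall.preimage (WSp_cφ _)) hξ)) _
    rw [Ch.J, setLIntegral_congr_fun k2.2.1.measurableSet fun ξ hξ => k3 ξ (subset_closure hξ),
      setLIntegral_congr_fun isClosed_frontier.measurableSet
        fun ξ hξ => k3 ξ (frontier_subset_closure hξ)]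
    simp
  · rw [← lintegral_one, e _ measurable_const]
    refine (WSp_tot hf.opn (fun _ k => k.1) (fun _ k => k.2) (hm C aK Ω K ch w h hf) (c := 9)
      (E := fun F => (ch F).J (w F) fun _ => 1) fun σ hσ F hF => ?_).trans_eq ?_
    · have k := (hf.face F hF.1 ((hf.cav h hσ).2.2.2 F hF).1).2.1.bd.1
      simp only [Ch.J, lintegral_const, one_mul, Measure.restrict_apply_univ]
      refine (add_le_add le_rfl k).trans_eq ?_
      ring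
    · rw [Cu.q, Real.volume_pi_closedBall _ h.pos.1.le, Fintype.card_fin, mul_pow,
        ENNReal.ofReal_mul (p := 2 ^ 3) (by norm_num)]
      norm_num [mul_assoc]

theorem WSp_box (a b c d : ℝ) : volume {ξ : Rn 2 | ξ 0 ∈ Ioo a b ∧ ξ 1 ∈ Ioo c d} =
    ENNReal.ofReal (b - a) * ENNReal.ofReal (d - c) := by
  have : {ξ : Rn 2 | ξ 0 ∈ Ioo a b ∧ ξ 1 ∈ Ioo c d} =
      univ.pi fun i => Ioo (![a, c] i) (![b, d] i) := by
    ext ξ
    simp [Fin.forall_fin_two]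
  rw [this, Real.volume_pi_Ioo]
  simp

theorem WSp_frame {h r : ℝ} (hr : 0 ≤ r) :
    volume {ξ : Rn 2 | ξ ∈ sqr h ∧ ∃ l, ξ l < r ∨ h - r < ξ l} ≤ ENNReal.ofReal (4 * (r * h)) := by
  have s1 : {ξ : Rn 2 | ξ ∈ sqr h ∧ ∃ l, ξ l < r ∨ h - r < ξ l} ⊆
      ({ξ : Rn 2 | ξ 0 ∈ Ioo 0 r ∧ ξ 1 ∈ Ioo 0 h} ∪ {ξ : Rn 2 | ξ 0 ∈ Ioo (h - r) h ∧ ξ 1 ∈ Ioo 0 h}) ∪
      ({ξ : Rn 2 | ξ 0 ∈ Ioo 0 h ∧ ξ 1 ∈ Ioo 0 r} ∪
        {ξ : Rn 2 | ξ 0 ∈ Ioo 0 h ∧ ξ 1 ∈ Ioo (h - r) h}) := by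
    rintro ξ ⟨k, l, k'⟩
    revert l
    refine Fin.forall_fin_two.2 ⟨?_, ?_⟩ <;> rintro (a | a)
    exacts [.inl (.inl ⟨⟨(k 0).1, a⟩, k 1⟩), .inl (.inr ⟨⟨a, (k 0).2⟩, k 1⟩),
      .inr (.inl ⟨k 0, (k 1).1, a⟩), .inr (.inr ⟨k 0, a, (k 1).2⟩)]
  refine (measure_mono s1).trans ((measure_union_le _ _).trans
    ((add_le_add (measure_union_le _ _) (measure_union_le _ _)).trans_eq ?_))
  simp only [WSp_box, sub_zero, sub_sub_cancel]
  rw [ENNReal.ofReal_mul (by norm_num), ENNReal.ofReal_mul hr, ENNReal.ofReal_ofNat]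
  ring

theorem WSp_Q {C : Cu} {aK : ℝ} (h : C.Ok aK) {u : I3 × I3} (hu : u ∈ C.Adm) {t : ℝ}
    (ht : t ≤ C.κ) : C.Q u (C.ρx + t * C.s) ⊆ C.WI := by
  obtain ⟨hη, hh, hs, ht0, hl, hρ', hκ, hζ, hb, hK⟩ := h.pos
  refine fun x hx => (h.Q_sub hu).2.1 ((h.Q_sub hu).1 ⟨hx.1, fun i hi => (hx.2 i hi).trans ?_⟩)
  have := mul_le_mul_of_nonneg_right ht hs.le
  linarith [h.num.2.1]

/-- A point of a long face which lies in a zone is close to the boundary of the square. -/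
theorem WSp_near {C : Cu} {aK : ℝ} {Ω : Set (Rn 3)} {K : Kx Ω} {ch : Set (Rn 3) → Ch}
    {w : Set (Rn 3) → ℝ} (h : C.Ok aK) (hf : C.Fit aK K ch w) {F : Set (Rn 3)} (hF : F ∈ K.cel 2)
    (h1 : F ⊆ C.O) (h2 : ¬ F ⊆ C.WI) {u : I3 × I3} (hu : u ∈ C.Adm) {ξ : Rn 2} (hξ : ξ ∈ sqr C.h)
    (hz : (ch F).φ ξ ∈ C.zone u) : ∃ l, ξ l < 3 * C.ρ' ∨ C.h - 3 * C.ρ' < ξ l := by
  obtain ⟨hη, hh, hs, ht0, hl, hρ', hκ, hζ, hb, hK⟩ := h.pos
  have hq : F ⊆ C.q := h1.trans (h.O_prop.2.1.trans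
    ((ball_subset_ball (by linarith)).trans ball_subset_closedBall))
  obtain ⟨eU, hB⟩ := hf.fl F hF h1 h2
  have eF : (ch F).φ '' sqr C.h = F := eU ▸ (hf.face F hF hq).1.2.2
  generalize ch F = k at *
  have hx : k.φ ξ ∈ F := eF ▸ mem_image_of_mem _ hξ
  have ec : K.cell (k.φ ξ) = F := by
    obtain ⟨⟨y, hy, e⟩, -⟩ := hF
    rw [← e] at hx ⊢
    exact K.eqv y hy _ hx
  have nW : k.φ ξ ∉ C.WI := fun a => h2 (by
    obtain ⟨z, -, b⟩ := id a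
    rw [← ec, hf.fine _ a]
    exact (h.WI_prop.2.2.2.1 z _ b).2.trans (h.WI_prop.2.2.1 _ a))
  have el : C.lc (k.φ ξ) = F := (hf.long _ (h1 hx) nW).symm.trans ec
  rcases hz with a | ⟨c1, c2, -⟩
  · exact (nW (WSp_Q h hu (by linarith [h.num.2.2.2.2.1]) a)).elim
  obtain ⟨i, i1, i2⟩ : ∃ i ∈ KLat_J (C.ξ (k.φ ξ)), i ∉ C.I := by
    have d := KLat_le C.N C.o hh (k.φ ξ)
    rw [show BEp.lc C.N C.o C.h (k.φ ξ) = F from el, hF.2] at d
    exact Finset.exists_mem_notMem_of_card_lt_card (c1 ▸ d)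
  have i3 : ⌈C.ξ (k.φ ξ) i⌉ = ⌊C.ξ (k.φ ξ) i⌋ + 1 := (Finset.mem_filter.1 i1).2
  have mv : ∀ t : ℝ, C.ξ (k.φ ξ + (C.h * t) • C.N (Pi.single i 1)) =
      C.ξ (k.φ ξ) + t • (Pi.single i 1 : Rn 3) := fun t => by
    rw [Cu.ξ, Cu.ξ, add_sub_right_comm, map_add, map_smul, C.N.symm_apply_apply, smul_add,
      smul_smul, inv_mul_cancel_left₀ hh.ne']
  have f1 := Int.lt_floor_add_one (C.ξ (k.φ ξ) i)
  have f2 := Int.floor_le (C.ξ (k.φ ξ) i)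
  obtain ⟨τ, τ0, τ1⟩ : ∃ τ : ℝ, 0 < τ ∧ C.ξ (k.φ ξ) i + τ < ⌊C.ξ (k.φ ξ) i⌋ + 1 :=
    ⟨(⌊C.ξ (k.φ ξ) i⌋ + 1 - C.ξ (k.φ ξ) i) / 2, by linarith, by linarith⟩
  have m1 : k.φ ξ + (C.h * τ) • C.N (Pi.single i 1) ∈ F := by
    rw [← el]
    intro l
    change kbS (C.ξ (k.φ ξ) l) (C.ξ (k.φ ξ + (C.h * τ) • C.N (Pi.single i 1)) l)
    rw [mv, Pi.add_apply, Pi.smul_apply]
    rcases eq_or_ne l i with rfl | n
    · rw [Pi.single_eq_same, smul_eq_mul, mul_one]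
      refine ⟨Int.floor_eq_iff.2 ⟨by linarith, τ1⟩, ?_⟩
      rw [i3, Int.ceil_eq_iff]
      push_cast
      constructor <;> linarith
    · rw [Pi.single_eq_of_ne n, smul_zero, add_zero]
      exact ⟨rfl, rfl⟩
  obtain ⟨v, ev⟩ : ∃ v, k.M v = C.N (Pi.single i 1) := by
    obtain ⟨ξ', -, e⟩ := eF.symm ▸ m1
    refine ⟨(C.h * τ)⁻¹ • (ξ' - ξ), ?_⟩
    rw [Ch.φ, Ch.φ, add_assoc, add_right_inj] at e
    rw [map_smul, map_sub, e, add_sub_cancel_left, inv_smul_smul₀ (mul_pos hh τ0).ne']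
  have nv : ‖v‖ ≤ 1 := by
    have := (hB v).2
    rwa [ev, C.N.symm_apply_apply, Pi.norm_single, norm_one, one_mul] at this
  have c3 : C.ctr u ∈ C.icl u.1 := (h.Q_sub hu).1 ((Cu.mem_Q (by positivity)).2
    ⟨fun _ _ => rfl, by rw [sub_self, norm_zero]; positivity⟩)
  have c4 : C.h * |u.1 i - C.ξ (k.φ ξ) i| < 3 * C.ρ' := by
    have a1 := h.Xξ.2.2.2.2.2 (k.φ ξ) (C.ctr u)
    have a2 := norm_le_pi_norm (C.ξ (k.φ ξ) - C.ξ (C.ctr u)) i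
    rw [Pi.sub_apply, c3.2 i i2, Real.norm_eq_abs, abs_sub_comm] at a2
    linarith [mul_le_mul_of_nonneg_left a2 hh.le]
  by_contra hn
  simp only [not_exists, not_or, not_lt] at hn
  have m2 : ξ + (C.h * (u.1 i - C.ξ (k.φ ξ) i)) • v ∈ sqr C.h := fun l => by
    have a1 : |v l| ≤ 1 := (norm_le_pi_norm v l).trans nv
    have a2 : |C.h * (u.1 i - C.ξ (k.φ ξ) i) * v l| < 3 * C.ρ' := by
      rw [abs_mul, abs_mul, abs_of_pos hh]
      exact (mul_le_of_le_one_right (by positivity) a1).trans_lt c4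
    rw [Pi.add_apply, Pi.smul_apply, smul_eq_mul]
    constructor <;> linarith [(abs_lt.1 a2).1, (abs_lt.1 a2).2, (hn l).1, (hn l).2]
  have m3 : k.φ ξ + (C.h * (u.1 i - C.ξ (k.φ ξ) i)) • C.N (Pi.single i 1) ∈ C.lc (k.φ ξ) := by
    rw [el, ← eF]
    exact ⟨_, m2, by rw [Ch.φ, map_add, map_smul, ev, ← add_assoc]; rfl⟩
  have m4 : kbS (C.ξ (k.φ ξ) i) (C.ξ (k.φ ξ + (C.h * (u.1 i - C.ξ (k.φ ξ) i)) •
      C.N (Pi.single i 1)) i) := m3 i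
  rw [mv, Pi.add_apply, Pi.smul_apply, Pi.single_eq_same, smul_eq_mul, mul_one, add_sub_cancel,
    kbS, Int.floor_intCast, Int.ceil_intCast] at m4
  omega

theorem xwall {p : ℝ} (hp1 : 1 ≤ p) (hp : p < 3) : ∃ C0 : ℝ≥0∞, C0 ≠ ⊤ ∧
    ∀ (C : Cu) (aK C1 : ℝ) (Ω : Set (Rn 3)) (K : Kx Ω) (ch : Set (Rn 3) → Ch)
      (w : Set (Rn 3) → ℝ) (kp : Set (I3 × I3)), C.Ok aK → C.Fit aK K ch w → 1 ≤ C1 → C1 ≤ C.cf →
      kp ⊆ C.Adm → ∀ F ∈ K.cel 2, F ⊆ C.O → ¬ F ⊆ C.WI →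
      C.MF p C1 kp (ch F) (w F) F ≤ C0 * ENNReal.ofReal (C1 ^ 3 * C.h ^ 2) := by
  refine ⟨2, by simp, fun C aK C1 Ω K ch w kp h hf h1 h2 hk F hF f1 f2 => ?_⟩
  obtain ⟨hη, hh, hs, ht0, hl, hρ', hκ, hζ, hb, hK⟩ := h.pos
  have nz : ¬ C.Frz kp F := fun ⟨_, u, hu, a⟩ =>
    f2 (a.trans (WSp_Q h (hk hu) (by linarith [h.num.2.2.2.2.1])))
  rw [Cu.MF, if_neg nz, (hf.fl F hF f1 f2).1]
  have e : sqr C.h = {ξ : Rn 2 | ξ 0 ∈ Ioo 0 C.h ∧ ξ 1 ∈ Ioo 0 C.h} := by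
    ext ξ
    simp [sqr, Fin.forall_fin_two]
  have k1 : ∀ ξ ∈ sqr C.h, C.Wt C1 kp ((ch F).φ ξ) ^ p ≤ ENNReal.ofReal (C1 ^ 3) +
      {ξ : Rn 2 | ξ ∈ sqr C.h ∧ ∃ l, ξ l < 3 * C.ρ' ∨ C.h - 3 * C.ρ' < ξ l}.indicator
        (fun _ => ENNReal.ofReal (C.cf ^ 3)) ξ := fun ξ hξ => by
    unfold Cu.Wt
    split_ifs with a
    · obtain ⟨u, hu, a⟩ := a
      rw [indicator_of_mem (show ξ ∈ {ξ : Rn 2 | ξ ∈ sqr C.h ∧ ∃ l, ξ l < 3 * C.ρ' ∨
        C.h - 3 * C.ρ' < ξ l} from ⟨hξ, WSp_near h hf hF f1 f2 (hk hu) hξ a⟩)]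
      exact (WSp_pw h.c1.1 hp.le).trans le_add_self
    · exact (WSp_pw h1 hp.le).trans le_self_add
  refine (setLIntegral_mono' (e ▸ CMass_mb _ _ _) k1).trans ?_
  rw [lintegral_add_left measurable_const, lintegral_const, Measure.restrict_apply_univ, two_mul]
  refine add_le_add (le_of_eq ?_) ((lintegral_indicator_const_le _ _).trans
    ((mul_le_mul' le_rfl ((Measure.restrict_apply_le _ _).trans
      (WSp_frame (by positivity)))).trans ?_))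
  · rw [e, CMass_box, sub_zero, ← ENNReal.ofReal_mul hh.le, ← ENNReal.ofReal_mul (by positivity),
      sq]
  · have c1 := h.c1.1
    rw [← ENNReal.ofReal_mul (by positivity)]
    refine ENNReal.ofReal_le_ofReal ?_
    have a1 := mul_le_mul_of_nonneg_right h.ρ2 hh.le
    have a2 := mul_le_mul_of_nonneg_right h.g0.2 (sq_nonneg C.h)
    have a3 := mul_le_mul_of_nonneg_right (one_le_pow₀ (n := 3) h1) (sq_nonneg C.h)
    have a4 : 0 ≤ C.cf ^ 3 * C.ρ' * C.h := by positivity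
    nlinarith

theorem xm3 {p : ℝ} (hp1 : 1 ≤ p) (hp : p < 3) : ∃ C0 : ℝ≥0∞, C0 ≠ ⊤ ∧
    ∀ (C : Cu) (aK C1 : ℝ) (Ω : Set (Rn 3)) (K : Kx Ω) (ch : Set (Rn 3) → Ch)
      (w : Set (Rn 3) → ℝ) (kp : Set (I3 × I3)), C.Ok aK → C.Fit aK K ch w → 1 ≤ C1 → C1 ≤ C.cf →
      kp ⊆ C.Adm →
      C.SumF aK K kp (C.S3 K) (fun F => ‖C.A.comp (ch F).M‖ₑ ^ p * C.MF p C1 kp (ch F) (w F) F) ≤
        C0 * C.rem p := by
  obtain ⟨Cm, hC, hm⟩ := WSp_cell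
  refine ⟨ENNReal.ofReal (32 * Cm), ENNReal.ofReal_ne_top, fun C aK C1 Ω K ch w kp h hf h1 h2 hk => ?_⟩
  obtain ⟨hη, hh, hs, ht0, hl, hρ', hκ, hζ, hb, hK⟩ := h.pos
  have hp0 : 0 ≤ p := by linarith
  have c1 := h.c1
  have s0 : ∀ σ ∈ C.S3 K, σ ∈ C.S0 K := fun σ k => ⟨k.1, k.2.1⟩
  have k := WSp_tot hf.opn (S := C.S3 K) (fun _ k => k.1)
    (T := C.q \ ball C.o (C.η - 16 * C.b * C.h))
    (fun σ k x hx => ⟨k.2.1 hx, fun a => disjoint_left.1 (hf.S3_sub h k) hx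
      (ball_subset_closedBall (ball_subset_ball (by nlinarith) a))⟩)
    (fun σ k => hm C aK Ω K ch w h hf σ (s0 σ k))
    (c := ‖C.A‖ₑ ^ p * ENNReal.ofReal (aK ^ 3) * (ENNReal.ofReal (C.cf ^ 3) * 8))
    (E := fun F => ‖C.A.comp (ch F).M‖ₑ ^ p * C.MF p C1 kp (ch F) (w F) F) fun σ hσ F hF => by
      obtain ⟨-, a2, a3⟩ := hf.face F hF.1 ((hf.cav h (s0 σ hσ)).2.2.2 F hF).1
      have b1 : ∀ ν : Measure (Rn 2), ∫⁻ ξ, C.Wt C1 kp ((ch F).φ ξ) ^ p ∂ν ≤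
          ENNReal.ofReal (C.cf ^ 3) * ν univ := fun ν => by
        rw [← lintegral_const]
        exact lintegral_mono fun ξ =>
          (ENNReal.rpow_le_rpow (WSp_le h2 kp _) hp0).trans (WSp_pw c1.1 hp.le)
      rw [mul_assoc _ _ (volume _)]
      refine mul_le_mul' ?_ ?_
      · refine (ENNReal.rpow_le_rpow ((ContinuousLinearMap.opENorm_comp_le _ _).trans
          (mul_le_mul' le_rfl (WSp_nM (by linarith) a3))) hp0).trans ?_
        rw [ENNReal.mul_rpow_of_nonneg _ _ hp0]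
        exact mul_le_mul' le_rfl (WSp_pw (by linarith) hp.le)
      · rw [mul_assoc]
        unfold Cu.MF
        split_ifs
        · refine (mul_le_mul' le_rfl (b1 _)).trans ?_
          rw [Measure.restrict_apply_univ, mul_left_comm]
          exact mul_le_mul' le_rfl a2.bd.1
        · refine (b1 _).trans ?_
          rw [Measure.restrict_apply_univ]
          exact mul_le_mul' le_rfl (le_mul_of_one_le_left zero_le (by norm_num))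
  refine (WSp_sum K kp _ _).trans (k.trans ((mul_le_mul' le_rfl (mul_le_mul' le_rfl h.layer)).trans
    ?_))
  rw [Cu.rem, mul_left_comm (ENNReal.ofReal (32 * Cm)), mul_assoc, mul_assoc]
  refine mul_le_mul' le_add_self ?_
  have ha : 0 ≤ aK := by linarith
  have hc : 0 ≤ C.cf := by linarith [c1.1]
  rw [← ENNReal.ofReal_ofNat 8, ← ENNReal.ofReal_mul (by positivity),
    ← ENNReal.ofReal_mul (by positivity), ← ENNReal.ofReal_mul (by positivity),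
    ← ENNReal.ofReal_mul (by positivity), ← ENNReal.ofReal_mul (by positivity)]
  refine ENNReal.ofReal_le_ofReal ?_
  have a1 : aK ^ 26 * C.cf ^ 3 ≤ aK ^ 30 * (C.cf + C.cg) ^ 3 :=
    mul_le_mul (pow_le_pow_right₀ (by linarith) (by norm_num))
      (pow_le_pow_left₀ hc (by linarith [c1.2]) 3) (by positivity) (by positivity)
  have a2 := (mul_le_mul_of_nonneg_right a1 (show 0 ≤ 100 * C.b * C.h by positivity)).trans h.lay
  have a3 := mul_le_mul_of_nonneg_left a2 (show 0 ≤ 32 * Cm * C.η ^ 2 by positivity)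
  refine le_of_eq_of_le (by ring) (a3.trans_eq (by ring))

end BEp
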