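import Pool.Agent.Work.MP_f0515e_an.P3.YFl1
import Pool.Agent.Work.MP_f0515e_an.P3.XE21
import Pool.Agent.Work.MP_f0515e_an.P3.XExt
import Pool.Agent.Work.MP_f0515e_an.P3.XCr
import Pool.Agent.Work.MP_f0515e_an.D3.KA3
import Pool.Agent.Work.MP_f0515e_an.D3.KA4
import Mathlib
import Pool.Agent.Work.MP_f0515e_an.P3.XE23

-- merged part: Pool.Agent.Work.MP_f0515e_an.P3.XBoxQ1
section
-- merged part: Pool.Agent.Work.MP_f0515e_an.P3.XNorm
section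
/-! Normalisation of slabs on the line. The inverse is `ψ s = M * s + ∑ a ∈ S, (1 - M * ε) * clamp ((s - a) / ε) 1` with `M` large (slope `1 / ε` on the slabs, `M` off the slabs); it is strictly increasing, TP and onto, its inverse is TP (one-dimensional `LH` lemmas in D3/EEd, D3/ASlab, Pos). `L = ψ '' S`. About 180 lines. -/

open Set Metric Filter Topology Function BEv
open scoped NNReal

noncomputable section
namespace BEp

variable {n m : ℕ}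

/-- Two ramps of width `δ` next to the slab of half width `ε`. -/
def XNorm_h (ε δ t : ℝ) : ℝ := clamp t (ε + δ) - clamp t ε

theorem XNorm_prop {ε δ : ℝ} (hε : 0 < ε) (hδ : 0 < δ) : Monotone (XNorm_h ε δ) ∧
    (∀ t, -ε ≤ t → t ≤ ε → XNorm_h ε δ t = 0) ∧ (∀ t, ε + δ ≤ t → XNorm_h ε δ t = δ) ∧
    ∀ t, t ≤ -(ε + δ) → XNorm_h ε δ t = -δ := by
  refine ⟨fun s t h => ?_, fun t h h' => ?_, fun t h => ?_, fun t h => ?_⟩ <;>
    simp only [XNorm_h, clamp, max_def, min_def] <;> split_ifs <;> linarith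

theorem norm1 {S : Set ℝ} (hS : S.Finite) {ε μ p q : ℝ} (hε : 0 < ε) (hμ : 0 < μ)
    (hi : ∀ a ∈ S, p < a - ε ∧ a + ε < q) (hd : ∀ a ∈ S, ∀ a' ∈ S, a < a' → a + ε < a' - ε) :
    ∃ (φ ψ : ℝ → ℝ) (L : Set ℝ), TP φ ∧ TP ψ ∧ StrictMono φ ∧ LeftInverse ψ φ ∧
      RightInverse ψ φ ∧ φ '' L = S ∧ (∀ c ∈ L, ∀ s, |s| ≤ 1 → φ (c + s) = φ c + ε * s) ∧
      (∀ c ∈ L, ∀ s, |s| ≤ 3 → |φ (c + s) - φ c| ≤ ε + μ) ∧
      (∀ c ∈ L, ∀ c' ∈ L, c < c' → c + 10 ≤ c') ∧ ∀ c ∈ L, ψ p + 10 ≤ c ∧ c + 10 ≤ ψ q := by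
  have ev : ∀ x : ℝ, 0 < x → ∀ᶠ δ in 𝓝[>] (0 : ℝ), δ ≤ x := fun x hx =>
    mem_of_superset (Ioc_mem_nhdsGT hx) fun _ h => h.2
  obtain ⟨δ, ⟨⟨d1, d2⟩, d3⟩, d0⟩ := ((((ev μ hμ).and ((eventually_all_finite hS).2 fun a ha =>
    (ev _ (sub_pos.2 (hi a ha).1)).and (ev _ (sub_pos.2 (hi a ha).2)))).and
    ((eventually_all_finite hS).2 fun a ha => (eventually_all_finite hS).2 fun a' ha' =>
      (eventually_imp_distrib_left (p := a < a')).2 fun h =>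
        ev _ (sub_pos.2 (hd a ha a' ha' h)))).and self_mem_nhdsWithin).exists
  have d0 : 0 < δ := d0
  obtain ⟨m1, m2, m3, m4⟩ := XNorm_prop hε d0
  obtain ⟨ψ, hψ⟩ : ∃ ψ : ℝ → ℝ, ψ = fun s =>
    s / ε + 10 / δ * ∑ a ∈ hS.toFinset, XNorm_h ε δ (s - a) := ⟨_, rfl⟩
  have tp : TP ψ := hψ ▸ (TP.id'.div_const ε).add (TP.const_mul _ (TP.sum _ fun a _ =>
    ((TP.id'.sub (TP.const a)).clamp (TP.const _)).sub ((TP.id'.sub (TP.const a)).clamp (TP.const _))))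
  have e : ∀ x y, ψ y - ψ x = (y - x) / ε +
      10 / δ * ∑ a ∈ hS.toFinset, (XNorm_h ε δ (y - a) - XNorm_h ε δ (x - a)) := fun x y => by
    rw [hψ, Finset.sum_sub_distrib]
    ring
  have ex : ∀ x y, x ≤ y → (y - x) / ε ≤ ψ y - ψ x := fun x y h => by
    rw [e]
    exact le_add_of_nonneg_right (mul_nonneg (by positivity) (Finset.sum_nonneg fun a _ =>
      sub_nonneg.2 (m1 (by linarith only [h]))))
  have jump : ∀ a ∈ S, ∀ x y, x ≤ y → XNorm_h ε δ (y - a) - XNorm_h ε δ (x - a) = δ →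
      ψ x + 10 ≤ ψ y := fun a ha x y h k => by
    have k1 := Finset.single_le_sum (f := fun a => XNorm_h ε δ (y - a) - XNorm_h ε δ (x - a))
      (fun a _ => sub_nonneg.2 (m1 (by linarith))) (hS.mem_toFinset.2 ha)
    have k2 := mul_le_mul_of_nonneg_left k1 (by positivity : 0 ≤ 10 / δ)
    rw [k, div_mul_cancel₀ _ d0.ne'] at k2
    linarith only [hS, k2, e, h, hε, e x y, div_nonneg (sub_nonneg.2 h) hε.le]
  have up : ∀ a ∈ S, ∀ y, a + ε + δ ≤ y → ψ a + 10 ≤ ψ y := fun a ha y h =>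
    jump a ha a y (by linarith) (by rw [m3 _ (by linarith only [h]), m2 _ (by linarith) (by linarith), sub_zero])
  have dn : ∀ a ∈ S, ∀ x, x ≤ a - ε - δ → ψ x + 10 ≤ ψ a := fun a ha x h =>
    jump a ha x a (by linarith) (by
      rw [m4 (x - a) (by linarith), m2 _ (by linarith) (by linarith), zero_sub, neg_neg])
  have sm : StrictMono ψ := fun x y h => by linarith only [ex, h, hε, ex x y h.le, div_pos (sub_pos.2 h) hε]
  have lh : LH ψ := by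
    refine LH.of_expanding tp (fun y => mem_range_of_exists_le_of_exists_ge tp.continuous
      ⟨-(|y - ψ 0| * ε), ?_⟩ ⟨|y - ψ 0| * ε, ?_⟩) (inv_pos.2 hε) fun x y => ?_
    · have := ex (-(|y - ψ 0| * ε)) 0 (neg_nonpos.2 (by positivity))
      rw [zero_sub, neg_neg, mul_div_cancel_right₀ _ hε.ne'] at this
      linarith only [this, neg_abs_le (y - ψ 0)]
    · have := ex 0 (|y - ψ 0| * ε) (by positivity)
      rw [sub_zero, mul_div_cancel_right₀ _ hε.ne'] at this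
      linarith [le_abs_self (y - ψ 0)]
    · rw [Real.norm_eq_abs, Real.norm_eq_abs, ← div_eq_inv_mul]
      rcases le_total x y with h | h
      · rw [abs_sub_comm x, abs_sub_comm (ψ x), abs_of_nonneg (sub_nonneg.2 h)]
        exact (ex x y h).trans (le_abs_self _)
      · rw [abs_of_nonneg (sub_nonneg.2 h)]
        exact (ex y x h).trans (le_abs_self _)
  have sφ : StrictMono (invFun ψ) := fun x y h => sm.lt_iff_lt.1 (by rwa [lh.ri, lh.ri])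
  refine ⟨invFun ψ, ψ, ψ '' S, lh.tpi, tp, sφ, lh.ri, lh.li, LeftInverse.image_image lh.li S,
    ?_, ?_, ?_, ?_⟩
  · rintro _ ⟨a, ha, rfl⟩ s hs
    rw [lh.li]
    refine lh.inv_eq ?_
    have k := abs_le.1 hs
    have k1 := mul_le_mul_of_nonneg_left k.1 hε.le
    have k2 := mul_le_mul_of_nonneg_left k.2 hε.le
    have := e a (a + ε * s)
    rw [Finset.sum_eq_zero fun a' ha' => ?_, add_sub_cancel_left,
      mul_div_cancel_left₀ _ hε.ne'] at this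
    · linarith only [this]
    · have ha' := hS.mem_toFinset.1 ha'
      rcases lt_trichotomy a a' with o | rfl | o
      · have := d3 a ha a' ha' o
        rw [m4 _ (by linarith only [k2, this]), m4 _ (by linarith only [hε, this]), sub_self]
      · rw [m2 _ (by linarith only [k1]) (by linarith only [k2]), m2 _ (by linarith only [hε]) (by linarith only [hε]), sub_self]
      · have := d3 a' ha' a ha o
        rw [m3 _ (by linarith only [k1, this]), m3 _ (by linarith only [hε, this]), sub_self]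
  · rintro _ ⟨a, ha, rfl⟩ s hs
    have k := abs_le.1 hs
    have k1 := sφ.monotone (show ψ a + s ≤ ψ (a + ε + δ) by linarith only [k, up, ha, up a ha _ le_rfl])
    have k2 := sφ.monotone (show ψ (a - ε - δ) ≤ ψ a + s by linarith only [k, dn, ha, dn a ha _ le_rfl])
    rw [lh.li] at k1 k2 ⊢
    exact abs_le.2 ⟨by linarith, by linarith⟩
  · rintro _ ⟨a, ha, rfl⟩ _ ⟨a', ha', rfl⟩ h
    exact up a ha a' (by linarith [d3 a ha a' ha' (sm.lt_iff_lt.1 h)])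
  · rintro _ ⟨a, ha, rfl⟩
    exact ⟨dn a ha p (by linarith [(d2 a ha).1]), up a ha q (by linarith [(d2 a ha).2])⟩

theorem lh_diag {φ ψ φ' ψ' : ℝ → ℝ} (h1 : TP φ) (h2 : TP ψ) (h3 : LeftInverse ψ φ)
    (h4 : RightInverse ψ φ) (k1 : TP φ') (k2 : TP ψ') (k3 : LeftInverse ψ' φ')
    (k4 : RightInverse ψ' φ') : LH fun x : Rn 3 => (![φ (x 0), φ' (x 1), x 2] : Rn 3) := by
  have t : ∀ {f f' : ℝ → ℝ}, TP f → TP f' →
      TP fun x : Rn 3 => (![f (x 0), f' (x 1), x 2] : Rn 3) := fun a b => TP.pi fun i => by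
    fin_cases i
    exacts [a.comp (TP.id'.apply 0), b.comp (TP.id'.apply 1), TP.id'.apply 2]
  refine pa2_of_inv (t h1 k1) (t h2 k2) (fun x => ?_) fun x => ?_ <;> ext i <;> fin_cases i
  exacts [h3 _, k3 _, rfl, h4 _, k4 _, rfl]

end BEp
end
end

-- merged part: Pool.Agent.Work.MP_f0515e_an.P3.XBoxQ1
section
/-! The dictionary between the model box and the box of a square of the cube complex. -/

open Set Metric Filter Topology Function BEv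
open scoped NNReal

noncomputable section
namespace BEp

variable {ν ι : Type} {V : Set (Rn 3)} {g C : ℝ} {Cf : (Rn 3 ≃L[ℝ] Rn 3) → ℝ} {P : ι → Pc} {T : TS}
  {c : Rn 3 → ℝ} {t : ν → Rn 3 → ℝ} {mv : ν → Rn 3 → ℝ → Rn 3} {dim : ν → ℕ} {b : ν → Rn 3}
  {A A' : ν → Set ℝ} {e ε' : ν → ℝ} {σ : Set ν} {j k : ν}

/-- Dictionary between the model box and the box `O`. -/
structure QCh (V : Set (Rn 3)) (g : ℝ) (P : ι → Pc) (t : ν → Rn 3 → ℝ) (mv : ν → Rn 3 → ℝ → Rn 3)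
    (A A' : ν → Set ℝ) (e ε' : ν → ℝ) (O O' : Set (Rn 3)) (Θ : Rn 3 → Rn 3) (L : Fin 3 → Set ℝ)
    (lo hi lo' hi' : Rn 3) (π : Fin 3 × ℝ → ν × ℝ) : Prop where
  lh : LH Θ
  b1 : EBx L lo hi
  b2 : EBx L lo' hi'
  sub : ∀ i, lo i ≤ lo' i ∧ hi' i ≤ hi i
  two : lo' 2 = lo 2 ∧ hi' 2 = hi 2
  zer : lo 2 < 0 ∧ 0 < hi 2
  eO : Θ '' bO lo hi = O
  eO' : Θ '' bO lo' hi' = O'
  cpt : Θ '' Icc lo hi ⊆ V
  w1 : ∀ w, ∀ x ∈ bN L lo hi w, Θ x ∈ gN V t A' ε' (π w) ∧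
    ∀ s ∈ Icc (-1 : ℝ) 1, Θ (bf w x s) = gf mv ε' (π w) (Θ x) s
  w2 : ∀ ω, ∀ x ∈ bO lo hi, Θ x ∈ gN V t A' ε' ω → ∃ w, π w = ω ∧ x ∈ bN L lo hi w
  dbl : ∀ x ∈ bO lo hi, ∀ ω ω', Θ x ∈ gN V t A' ε' ω → Θ x ∈ gN V t A' ε' ω' → ω.1 ≠ ω'.1 →
    x ∈ bT L lo hi
  tub : ∀ x ∈ bT L lo hi, ∃ ω ω' : ν × ℝ, ω.1 ≠ ω'.1 ∧ Θ x ∈ gN V t A (fun v => 2 * e v) ω ∧
    Θ x ∈ gN V t A (fun v => 2 * e v) ω'
  hp : ∀ S, (∀ ω, Iw (gN V t A (fun v => 2 * e v) ω) (gf mv (fun v => 2 * e v) ω) S) →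
    HP L lo hi (Θ ⁻¹' S)
  sm : ∀ S, Sma t (g / 16) S → (Θ ⁻¹' S ∩ bT L lo hi).Nonempty → Θ ⁻¹' S ∩ bO lo hi ⊆ bO lo' hi'
  bp : (∀ x ∈ bO lo hi, Θ x ∉ BP P) ∨ ∀ x ∈ bO lo hi, (Θ x ∈ BP P ↔ x 2 = 0)

/-- Corners of the model boxes. -/
def XQa (g r : ℝ) : Rn 3 := ![r, r, -(g / 8)]
def XQb (g r : ℝ) : Rn 3 := ![1 - r, 1 - r, g / 8]

theorem XQ_bO {r : ℝ} {x : Rn 3} : x ∈ bO (XQa g r) (XQb g r) ↔
    x 0 ∈ Ioo r (1 - r) ∧ x 1 ∈ Ioo r (1 - r) ∧ |x 2| < g / 8 := by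
  refine ⟨fun h => ⟨h 0, h 1, abs_lt.2 (h 2)⟩, fun h i => ?_⟩
  fin_cases i
  exacts [h.1, h.2.1, abs_lt.1 h.2.2]

theorem XQ_ab {r : ℝ} {i : Fin 3} (hi : i ≠ 2) : XQa g r i = r ∧ XQb g r i = 1 - r := by
  fin_cases i
  exacts [⟨rfl, rfl⟩, ⟨rfl, rfl⟩, (hi rfl).elim]

theorem XQ_box {r : ℝ} (hg : 0 < g) (hr : g / 8 ≤ r) {x : Rn 3}
    (h : ∀ i, XQa g r i ≤ x i ∧ x i ≤ XQb g r i) : x ∈ mBox g := by
  have h0 : r ≤ x 0 ∧ x 0 ≤ 1 - r := h 0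
  have h1 : r ≤ x 1 ∧ x 1 ≤ 1 - r := h 1
  have h2 : -(g / 8) ≤ x 2 ∧ x 2 ≤ g / 8 := h 2
  exact ⟨⟨by linarith only [hr, h0, h0.1], by linarith only [hr, h0, h0.2]⟩, ⟨by linarith only [hr, h1, h1.1], by linarith only [hr, h1, h1.2]⟩,
    abs_le.2 ⟨by linarith only [hg, h2, h2.1], by linarith only [hg, h2, h2.2]⟩⟩

theorem XQ_upd {x : Rn 3} (hx : x ∈ mBox g) {i : Fin 3} (hi : i ≠ 2) {s : ℝ}
    (hs : s ∈ Icc (g / 8) (1 - g / 8)) : update x i s ∈ mBox g := by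
  fin_cases i
  exacts [⟨hs, hx.2.1, hx.2.2⟩, ⟨hx.1, hs, hx.2.2⟩, (hi rfl).elim]

theorem XQ_ptn {D : Set ν} {r r' : ℝ} {y : Rn 3} (h : Ptn t σ D r y) (k : r ≤ r') : Ptn t σ D r' y :=
  fun v hv => ⟨fun m => by linarith [(h v hv).1 m], fun m => ((h v hv).2 m).trans k⟩

/-- Normalisation in both directions. -/
theorem XQ_norm (hg : 0 < g) (hA : XLev g A fun v => 2 * e v) (hA' : XLev g A' ε') (v : Fin 3 → ν) :
    ∃ (φ ψ : Fin 3 → ℝ → ℝ) (L : Fin 3 → Set ℝ), LH (fun (x : Rn 3) i => φ i (x i)) ∧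
      (∀ i, StrictMono (φ i)) ∧ (∀ i s, φ i (ψ i s) = s) ∧ (∀ s, φ 2 s = s) ∧ L 2 = ∅ ∧
      (∀ i, i ≠ 2 → φ i '' L i = A' (v i)) ∧ ∀ i, ∀ a ∈ L i,
        (∀ s, |s| ≤ 1 → φ i (a + s) = φ i a + ε' (v i) * s) ∧
        (∀ s, |s| ≤ 3 → |φ i (a + s) - φ i a| ≤ ε' (v i) + e (v i)) ∧
        (∀ a' ∈ L i, a < a' → a + 10 ≤ a') ∧ ψ i (g / 2) + 10 ≤ a ∧ a + 10 ≤ ψ i (1 - g / 2) := by
  have H := fun w => norm1 (μ := e w) (p := g / 2) (q := 1 - g / 2) (hA'.fin w) (hA'.pos w)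
    (by linarith [hA.pos w]) (fun a ha => by constructor <;> linarith only [hg, hA', ha, hA'.inn w a ha]) (hA'.dis w)
  obtain ⟨φ, ψ, L, a1, a2, a3, a4, a5, a6, a7, a8, a9, a0⟩ := H (v 0)
  obtain ⟨φ', ψ', L', b1, b2, b3, b4, b5, b6, b7, b8, b9, b0⟩ := H (v 1)
  refine ⟨![φ, φ', id], ![ψ, ψ', id], ![L, L', ∅], ?_, fun i => ?_, fun i => ?_, fun _ => rfl, rfl,
    fun i hi => ?_, fun i => ?_⟩
  · have : (fun (x : Rn 3) i => (![φ, φ', id] : Fin 3 → ℝ → ℝ) i (x i)) =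
        fun x : Rn 3 => (![φ (x 0), φ' (x 1), x 2] : Rn 3) := by
      funext x i
      fin_cases i <;> rfl
    rw [this]
    exact lh_diag a1 a2 a4 a5 b1 b2 b4 b5
  · fin_cases i
    exacts [a3, b3, strictMono_id]
  · fin_cases i
    exacts [a5, b5, fun _ => rfl]
  · fin_cases i
    exacts [a6, b6, (hi rfl).elim]
  · fin_cases i
    exacts [fun a ha => ⟨a7 a ha, a8 a ha, a9 a ha, a0 a ha⟩,
      fun a ha => ⟨b7 a ha, b8 a ha, b9 a ha, b0 a ha⟩, fun a ha => ha.elim]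

/-- The chart of the box in symmetric form. -/
theorem XQ_chart (h : Api V g C Cf P T c t mv dim b) (hjk : j ≠ k)
    (hne : (sBox V t σ j k (g / 4) (g / 8)).Nonempty) : ∃ χ, LH χ ∧
      (∀ x ∈ mBox g, χ x ∈ V ∧ Ptn t σ {j, k} |x 2| (χ x) ∧ ∀ i, i ≠ 2 → t (![j, k, j] i) (χ x) = x i ∧
        ∀ s ∈ Icc (g / 8) (1 - g / 8), χ (update x i s) = mv (![j, k, j] i) (χ x) s) ∧
      (∀ r, g / 8 ≤ r → χ '' bO (XQa g r) (XQb g r) = sBox V t σ j k r (g / 8)) ∧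
      ((∀ x ∈ mBox g, χ x ∉ BP P) ∨ ∀ x ∈ mBox g, (χ x ∈ BP P ↔ x 2 = 0)) := by
  obtain ⟨y, hy, y1, y2, ρ, hρ, y3⟩ := hne
  have hg := h.g0.1
  have sb : ∀ r, g / 8 ≤ r → Ioo r (1 - r) ⊆ Icc (g / 8) (1 - g / 8) := fun r hr s hs =>
    ⟨by linarith only [hr, hs, hs.1], by linarith only [hr, hs, hs.2]⟩
  have s1 : Icc (g / 8) (1 - g / 8) ⊆ Ioo (0 : ℝ) 1 := fun s hs => ⟨by linarith [hs.1], by linarith only [hg, hs, hs.2]⟩
  obtain ⟨χ, hχ, B1, B2, -, B4⟩ := h.box σ j k hjk y hy (sb _ (by linarith) y1) (sb _ (by linarith) y2)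
    (XQ_ptn y3 (by linarith only [hρ, hg]))
  refine ⟨χ, hχ, fun x hx => ⟨(B1 x hx).1, (B1 x hx).2.2.2.1, fun i hi => ?_⟩, fun r hr => ?_, B4⟩
  · obtain ⟨m, e0, e1, -, eo⟩ := B1 x hx
    have ei : t (![j, k, j] i) (χ x) = x i := by
      fin_cases i
      exacts [e0, e1, (hi rfl).elim]
    refine ⟨ei, fun s hs => ?_⟩
    have hx' := XQ_upd hx hi hs
    obtain ⟨m', e0', e1', -, -⟩ := B1 _ hx'
    have xi : x i ∈ Icc (g / 8) (1 - g / 8) := by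
      fin_cases i
      exacts [hx.1, hx.2.1, (hi rfl).elim]
    obtain ⟨n1, n2, n3⟩ := h.mvt _ _ m s (ei ▸ s1 xi) (s1 hs)
    refine h.ext _ m' _ n1 fun w => ?_
    have eo' := eo _ hx' (update_of_ne hi.symm _ _) w
    by_cases wj : w = j
    · rw [wj, e0']
      fin_cases i
      exacts [n2.symm, ((n3 j hjk).trans e0).symm, (hi rfl).elim]
    by_cases wk : w = k
    · rw [wk, e1']
      fin_cases i
      exacts [((n3 k hjk.symm).trans e1).symm, n2.symm, (hi rfl).elim]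
    rw [eo' wj wk, n3 w (by fin_cases i; exacts [wj, wk, wj])]
  · refine Subset.antisymm ?_ ?_
    · rintro _ ⟨x, hx, rfl⟩
      obtain ⟨m, e0, e1, pt, -⟩ := B1 x (XQ_box hg hr fun i => ⟨(hx i).1.le, (hx i).2.le⟩)
      rw [XQ_bO] at hx
      exact ⟨m, e0 ▸ hx.1, e1 ▸ hx.2.1, _, hx.2.2, pt⟩
    · rintro z ⟨hz, z1, z2, ρ, hρ, z3⟩
      obtain ⟨x, hx, x2, rfl⟩ := B2 z hz ρ (by linarith only [hg, hρ]) (sb r hr z1) (sb r hr z2) z3
      obtain ⟨-, e0, e1, -⟩ := B1 x hx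
      exact ⟨x, XQ_bO.2 ⟨e0 ▸ z1, e1 ▸ z2, x2.trans_lt hρ⟩, rfl⟩

theorem Api.qch (h : Api V g C Cf P T c t mv dim b) (hA : XLev g A fun v => 2 * e v)
    (hA' : XLev g A' ε') (hn : Nest A e A' ε') (hjk : j ≠ k)
    (hne : (sBox V t σ j k (g / 4) (g / 8)).Nonempty) :
    ∃ Θ L lo hi lo' hi' π, QCh V g P t mv A A' e ε' (sBox V t σ j k (g / 4) (g / 8))
      (sBox V t σ j k (g / 2) (g / 8)) Θ L lo hi lo' hi' π := by
  obtain ⟨hg, hg8⟩ := h.g0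
  obtain ⟨χ, hχ, B1, B2, B4⟩ := XQ_chart h hjk hne
  obtain ⟨φ, ψ, L, lh, sm, ri, φ2, L2, im, N⟩ := XQ_norm hg hA hA' ![j, k, j]
  have v0 : (![j, k, j] : Fin 3 → ν) 0 = j := rfl
  have v1 : (![j, k, j] : Fin 3 → ν) 1 = k := rfl
  generalize (![j, k, j] : Fin 3 → ν) = v at B1 im N v0 v1
  obtain ⟨D, hD⟩ : ∃ D : Rn 3 → Rn 3, D = fun x i => φ i (x i) := ⟨_, rfl⟩
  rw [← hD] at lh
  have Di : ∀ x i, D x i = φ i (x i) := fun x i => by rw [hD]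
  have D2 : ∀ x, D x 2 = x 2 := fun x => by rw [Di, φ2]
  have Du : ∀ x i s, D (update x i s) = update (D x) i (φ i s) := fun x i s => by
    funext l
    by_cases m : l = i
    · rw [m, Di, update_self, update_self]
    · rw [Di, update_of_ne m, update_of_ne m, Di]
  have ψm : ∀ i s s', s ≤ s' → ψ i s ≤ ψ i s' := fun i s s' m =>
    (sm i).le_iff_le.1 (by rwa [ri, ri])
  have ψ2 : ∀ s, ψ 2 s = s := fun s => (φ2 _).symm.trans (ri 2 s)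
  have ne2 : ∀ i, ∀ a ∈ L i, i ≠ 2 := fun i a ha m => by
    rw [m, L2] at ha
    exact ha
  have mem : ∀ i, ∀ a ∈ L i, φ i a ∈ A' (v i) := fun i a ha => im i (ne2 i a ha) ▸ ⟨a, ha, rfl⟩
  have bo : ∀ r x, x ∈ bO (fun i => ψ i (XQa g r i)) (fun i => ψ i (XQb g r i)) ↔
      D x ∈ bO (XQa g r) (XQb g r) := fun r x => forall_congr' fun i => by
    rw [Di, ← (sm i).lt_iff_lt (a := ψ i _), ← (sm i).lt_iff_lt (b := ψ i _), ri, ri]
  have bm : ∀ x ∈ bO (fun i => ψ i (XQa g (g / 4) i)) (fun i => ψ i (XQb g (g / 4) i)),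
      D x ∈ mBox g := fun x hx =>
    XQ_box hg (by linarith only [hg]) fun i => ⟨((bo _ x).1 hx i).1.le, ((bo _ x).1 hx i).2.le⟩
  have eb : ∀ r, 0 < r → r ≤ g / 2 →
      EBx L (fun i => ψ i (XQa g r i)) (fun i => ψ i (XQb g r i)) := fun r r0 hr => by
    refine ⟨fun i => ?_, L2, fun i a ha => (N i a ha).2.2.1, fun i a ha => ?_, fun i => ?_⟩
    · refine .of_finite_image ((hA'.fin (v i)).subset ?_) (sm i).injective.injOn
      rintro _ ⟨a, ha, rfl⟩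
      exact mem i a ha
    · rw [(XQ_ab (ne2 i a ha)).1, (XQ_ab (ne2 i a ha)).2]
      have := (N i a ha).2.2.2
      constructor <;> linarith only [this, ψm, hr, this.1, this.2, ψm i r _ hr, ψm i (1 - g / 2) (1 - r) (by linarith)]
    · refine (sm i).lt_iff_lt.1 ?_
      rw [ri, ri]
      by_cases m : i = 2
      · rw [m]
        change -(g / 8) < g / 8
        linarith only [r0, hr]
      · rw [(XQ_ab m).1, (XQ_ab m).2]
        linarith only [hg8, r0, hr]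
  have eo : ∀ r, g / 8 ≤ r → (χ ∘ D) '' bO (fun i => ψ i (XQa g r i)) (fun i => ψ i (XQb g r i)) =
      sBox V t σ j k r (g / 8) := fun r hr => by
    rw [image_comp, ← B2 r hr, ← image_preimage_eq (bO (XQa g r) (XQb g r)) lh.1.2]
    exact congrArg _ (congrArg _ (Set.ext (bo r)))
  have thick : ∀ i, ∀ a ∈ L i, ∃ a₀ ∈ A (v i), ∀ s, |s - a| ≤ 3 →
      |φ i s - a₀| ≤ 2 * e (v i) ∧ φ i s ∈ Ioo g (1 - g) := fun i a ha => by
    obtain ⟨a₀, h0, h1⟩ := hn _ _ (mem i a ha)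
    refine ⟨a₀, h0, fun s hs => ?_⟩
    have h2 := (N i a ha).2.1 _ hs
    rw [add_sub_cancel] at h2
    have h3 : |φ i s - a₀| ≤ 2 * e (v i) := by linarith only [h1, h2, abs_sub_le (φ i s) (φ i a) a₀]
    have h4 := hA.inn _ _ h0
    exact ⟨h3, by linarith only [h4, h3, h4.1, (abs_le.1 h3).1], by linarith only [h4, h3, h4.2, (abs_le.1 h3).2]⟩
  have sI : Ioo g (1 - g) ⊆ Icc (g / 8) (1 - g / 8) := fun s hs =>
    ⟨by linarith only [hg, hs, hs.1], by linarith only [hg, hs, hs.2]⟩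
  have mvΘ : ∀ i, ∀ a ∈ L i, ∀ x, D x ∈ mBox g → ∀ s, |s - a| ≤ 3 → D (update x i s) ∈ mBox g ∧
      χ (D (update x i s)) = mv (v i) (χ (D x)) (φ i s) := fun i a ha x hx s hs => by
    obtain ⟨a₀, -, h0⟩ := thick i a ha
    rw [Du]
    exact ⟨XQ_upd hx (ne2 i a ha) (sI (h0 s hs).2),
      ((B1 _ hx).2.2 i (ne2 i a ha)).2 _ (sI (h0 s hs).2)⟩
  have tv : ∀ i, i ≠ 2 → ∀ x, D x ∈ mBox g → t (v i) (χ (D x)) = φ i (x i) := fun i hi x hx => by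
    rw [((B1 _ hx).2.2 i hi).1, Di]
  have w2 : ∀ ω, ∀ x ∈ bO (fun i => ψ i (XQa g (g / 4) i)) (fun i => ψ i (XQb g (g / 4) i)),
      χ (D x) ∈ gN V t A' ε' ω → ∃ w : Fin 3 × ℝ, (v w.1, φ w.1 w.2) = ω ∧
        x ∈ bN L (fun i => ψ i (XQa g (g / 4) i)) (fun i => ψ i (XQb g (g / 4) i)) w := by
    rintro ⟨w, a⟩ x hx ⟨-, ha, hw⟩
    have h1 := hA'.inn w a ha
    have h2 := abs_le.1 hw
    obtain ⟨i, hi, rfl⟩ : ∃ i, i ≠ 2 ∧ v i = w := by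
      by_contra n
      have h3 := (B1 _ (bm x hx)).2.1 w (by
        rintro (m | m)
        exacts [n ⟨0, by decide, v0.trans m.symm⟩, n ⟨1, by decide, v1.trans (Eq.symm m)⟩])
      have h4 := (XQ_bO.1 ((bo _ x).1 hx)).2.2
      by_cases m : w ∈ σ
      · linarith only [hg, h1, h2, h4, h3, m, h3.1 m, h1.2, h2.2]
      · linarith only [hg, h1, h2, h4, h3, m, h3.2 m, h1.1, h2.1]
    obtain ⟨a', ha', rfl⟩ : a ∈ φ i '' L i := im i hi ▸ ha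
    dsimp only at h2
    rw [tv i hi x (bm x hx)] at h2
    have h5 := (N i a' ha').1 1 (by simp)
    have h6 := (N i a' ha').1 (-1) (by simp)
    have h7 : x i ≤ a' + 1 := (sm i).le_iff_le.1 (by linarith only [h2, h5, h2.2])
    have h8 : a' + -1 ≤ x i := (sm i).le_iff_le.1 (by linarith only [h2, h6, h2.1])
    exact ⟨(i, a'), rfl, hx, ha', abs_le.2 ⟨by linarith, by linarith only [h7]⟩⟩
  have inv : ∀ S, (∀ ω, Iw (gN V t A (fun v => 2 * e v) ω) (gf mv (fun v => 2 * e v) ω) S) →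
      ∀ i, ∀ a ∈ L i, ∀ x, D x ∈ mBox g → χ (D x) ∈ S → |x i - a| ≤ 3 → ∀ s, |s - a| ≤ 3 →
        χ (D (update x i s)) ∈ S := fun S hS i a ha x hx m h1 s hs => by
    obtain ⟨a₀, h0, h2⟩ := thick i a ha
    have e0 := hA.pos (v i)
    have := hS (v i, a₀) _ m ⟨(B1 _ hx).1, h0, by rw [tv i (ne2 i a ha) x hx]; exact (h2 _ h1).1⟩
      ((φ i s - a₀) / (2 * e (v i))) (abs_le.1 (by
        rw [abs_div, abs_of_pos e0, div_le_one e0]
        exact (h2 s hs).1))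
    rw [gf, mul_div_cancel₀ _ e0.ne', add_sub_cancel] at this
    rwa [(mvΘ i a ha x hx s hs).2]
  refine ⟨χ ∘ D, L, fun i => ψ i (XQa g (g / 4) i), fun i => ψ i (XQb g (g / 4) i),
    fun i => ψ i (XQa g (g / 2) i), fun i => ψ i (XQb g (g / 2) i), fun w => (v w.1, φ w.1 w.2),
    hχ.comp lh, eb _ (by linarith only [hg]) (by linarith only [hg]), eb _ (by linarith only [hg]) le_rfl, fun i => ?_, ⟨rfl, rfl⟩, ?_,
    eo _ (by linarith only [hg]), eo _ (by linarith only [hg]), ?_, ?_, w2, ?_, ?_, fun S hS => ⟨?_, ?_⟩, ?_, ?_⟩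
  · by_cases m : i = 2
    · rw [m]
      exact ⟨le_rfl, le_rfl⟩
    · simp only [(XQ_ab m).1, (XQ_ab m).2]
      exact ⟨ψm _ _ _ (by linarith only [hg]), ψm _ _ _ (by linarith only [hg])⟩
  · rw [ψ2, ψ2]
    change -(g / 8) < 0 ∧ 0 < g / 8
    constructor <;> linarith only [hg]
  · rintro _ ⟨x, hx, rfl⟩
    refine (B1 _ (XQ_box (r := g / 4) hg (by linarith only [hg]) fun i => ?_)).1
    rw [Di, ← ri i (XQa _ _ _), ← ri i (XQb _ _ _)]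
    exact ⟨(sm i).monotone (hx.1 i), (sm i).monotone (hx.2 i)⟩
  · rintro ⟨i, a⟩ x ⟨hx, ha, h1⟩
    dsimp only at ha h1
    refine ⟨⟨(B1 _ (bm x hx)).1, mem i a ha, ?_⟩, fun s hs => ?_⟩
    · have h2 := (N i a ha).1 _ h1
      rw [add_sub_cancel] at h2
      have e0 := hA'.pos (v i)
      change |t (v i) (χ (D x)) - φ i a| ≤ ε' (v i)
      rw [tv i (ne2 i a ha) x (bm x hx), h2, add_sub_cancel_left, abs_mul, abs_of_pos e0]
      exact mul_le_of_le_one_right e0.le h1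
    · have h2 := abs_le.2 hs
      have := (mvΘ i a ha x (bm x hx) (a + s) (by rw [add_sub_cancel_left]; linarith only [hg, hg8, h2])).2
      rwa [(N i a ha).1 s h2] at this
  · intro x hx ω ω' m m' ne
    obtain ⟨⟨i, a⟩, rfl, -, ha, h1⟩ := w2 ω x hx m
    obtain ⟨⟨i', a'⟩, rfl, -, ha', h1'⟩ := w2 ω' x hx m'
    have n1 := ne2 i a ha
    have n2 := ne2 i' a' ha'
    have n3 : i ≠ i' := fun m => ne (congrArg v m)
    obtain ⟨rfl, rfl⟩ | ⟨rfl, rfl⟩ : (i = 0 ∧ i' = 1) ∨ (i = 1 ∧ i' = 0) := by omega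
    · exact ⟨hx, a, ha, a', ha', h1.trans (by norm_num), h1'.trans (by norm_num), by linarith only [hg, hg8, h1, h1']⟩
    · exact ⟨hx, a', ha', a, ha, h1'.trans (by norm_num), h1.trans (by norm_num), by linarith only [hg, hg8, h1, h1']⟩
  · rintro x ⟨hx, a, ha, a', ha', h1, h1', -⟩
    obtain ⟨a₀, m, h2⟩ := thick 0 a ha
    obtain ⟨a₀', m', h2'⟩ := thick 1 a' ha'
    refine ⟨(v 0, a₀), (v 1, a₀'), by rwa [v0, v1], ⟨(B1 _ (bm x hx)).1, m, ?_⟩,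
      (B1 _ (bm x hx)).1, m', ?_⟩
    · exact tv 0 (by decide) x (bm x hx) ▸ (h2 _ h1).1
    · exact tv 1 (by decide) x (bm x hx) ▸ (h2' _ h1').1
  · rintro ⟨i, a⟩ x m ⟨hx, ha, h1⟩ s hs
    have h2 := abs_le.2 hs
    exact inv S hS i a ha x (bm x hx) m (h1.trans (by norm_num)) (a + s)
      (by rw [add_sub_cancel_left]; linarith only [hg, hg8, h2])
  · rintro a ha a' ha' x m hx ⟨h1, h1', -⟩ y ⟨h2, h2', -⟩ e2
    have := inv S hS 1 a' ha' _ (mvΘ 0 a ha x (bm x hx) _ h2).1 (inv S hS 0 a ha x (bm x hx) m h1 _ h2)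
      h1' _ h2'
    have e : update (update x 0 (y 0)) 1 (y 1) = y := by
      funext l
      fin_cases l
      exacts [rfl, rfl, e2.symm]
    rwa [e] at this
  · rintro S hS ⟨z, mz, hz, a, ha, a', ha', h1, h1', -⟩ x ⟨m, hx⟩
    have key : ∀ i, ∀ a ∈ L i, |z i - a| ≤ 3 → D x i ∈ Ioo (g / 2) (1 - g / 2) := fun i a ha h1 => by
      obtain ⟨a₀, -, h2⟩ := thick i a ha
      have h3 := abs_le.1 (hS.2 (v i) _ m _ mz)
      rw [comp_apply, comp_apply, tv i (ne2 i a ha) x (bm x hx), tv i (ne2 i a ha) z (bm z hz)] at h3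
      have h4 := (h2 _ h1).2
      rw [Di]
      exact ⟨by linarith only [hg, h3, h4, h3.1, h4.1], by linarith only [hg, h3, h4, h3.2, h4.2]⟩
    exact (bo _ x).2 (XQ_bO.2 ⟨key 0 a ha h1, key 1 a' ha' h1', (XQ_bO.1 ((bo _ x).1 hx)).2.2⟩)
  · exact B4.imp (fun m x hx => m _ (bm x hx)) fun m x hx => D2 x ▸ m _ (bm x hx)

end BEp
end
end
end

-- merged part: Pool.Agent.Work.MP_f0515e_an.P3.XS124
section
-- merged part: Pool.Agent.Work.MP_f0515e_an.P3.XBox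
section
/-! The move in a model box.
`half_model`: let `lo1 = update lo 2 u`, `hi1 = update hi 2 v`, `lo2 = update lo' 2 u`, `hi2 = update hi' 2 v`. First `smA0` in `lo2 hi2`, then `stageL1` in `lo1 hi1` for the image family. Fibres and horizontal slices of the tubes are inside or outside each of these boxes (`ebas_upd`), so `HP`, `Trk`, `Trk1` pass between the boxes (a point outside the support is fixed together with its fibre).
A disc which meets the tubes has its interior in `lo2 hi2` by `hT`: `bx_mini2` after the first move, then `Trk1.noC`, `Trk1.noB`. A disc which misses the tubes misses them after both moves: `bx_mini2` with `lo1 hi1`; a bigon has a corner in a tube.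
`box_model`: without cut `half_model` with `u = lo 2`, `v = hi 2`; with cut compose the moves of the two halves (disjoint supports, both for the given family; all fibres are horizontal). A disc in the plane `x 2 = 0` is fixed and has `NoC`, `NoB` since the cores meet the plane in lines; otherwise `F \ J` is connected, lies in one open half and `F` in its closure (`PCel.conn_in`, `PCel.cl`). Then `parA2`. About 450 lines; two tasks. -/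

open Set Metric Filter Topology Function BEv
open scoped NNReal

noncomputable section
namespace BEp

variable {n m : ℕ}

variable {L : Fin 3 → Set ℝ} {lo hi lo' hi' : Rn 3} {ι : Type} [Finite ι] {F J : ι → Set (Rn 3)}

theorem XBox2_bf (hB : EBx L lo hi) {w : Fin 3 × ℝ} {x : Rn 3} (hx : x ∈ bN L lo hi w) (y : Rn 3)
    (t : ℝ) : bf w y t 2 = y 2 := by
  refine update_of_ne ?_ _ _
  rcases EBx_two hB hx.2.1 with e | e <;> rw [e] <;> decide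

theorem XBox2_crc {γ : Set (Rn 3)} (h : Crc γ) (j : Fin 3) : ¬ InjOn (fun x => x j) γ := by
  obtain ⟨g, h1, h2, rfl⟩ := h
  intro hi
  have c : Continuous fun t => g t j := (continuous_apply j).comp h1.continuous
  have c' : Continuous fun t => g (t + 1 / 2) j := c.comp (continuous_add_const _)
  have e : g (1 / 2 + 1 / 2) = g 0 := (h2 _ _).2 ⟨1, by norm_num⟩
  obtain ⟨t, ht⟩ : ∃ t, g (t + 1 / 2) j = g t j := by
    rcases le_total (g (1 / 2) j) (g 0 j) with k | k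
    · exact intermediate_value_univ₂ (a := 0) (b := 1 / 2) c' c (by rwa [zero_add]) (by rwa [e])
    · exact intermediate_value_univ₂ (a := 1 / 2) (b := 0) c' c (by rwa [e]) (by rwa [zero_add])
  obtain ⟨k, hk⟩ := (h2 _ _).1 (hi ⟨_, rfl⟩ ⟨_, rfl⟩ ht)
  have : (1 : ℤ) = 2 * k := by exact_mod_cast (show (1 : ℝ) = 2 * k by linarith only [hk])
  omega

theorem XBox2_flat (hB : EBx L lo hi) {S : Set (Rn 3)} (h : ∀ x ∈ S, x 2 = 0) :
    NoC (bN L lo hi) bf S ∧ NoB (bN L lo hi) bf bcol S := by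
  have k : ∀ x y : Rn 3, x 0 = y 0 → x 1 = y 1 → x ∈ S → y ∈ S → x = y := fun x y h0 h1 hx hy => by
    ext i
    fin_cases i
    exacts [h0, h1, (h x hx).trans (h y hy).symm]
  refine ⟨fun w γ hγ hs => ?_, fun w w' hw K K' a b a' b' _ _ s1 s2 x hx y hy => ?_⟩
  · obtain ⟨z, hz⟩ := hγ.tcrc.conn.nonempty
    have e : ∀ x ∈ γ, ∀ y ∈ γ, x w.1 = y w.1 := fun x hx y hy =>
      (co_bN.1 (hs hx).2).2.2.trans (co_bN.1 (hs hy).2).2.2.symm
    rcases EBx_two hB (co_bN.1 (hs hz).2).2.1 with q | q <;> rw [q] at e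
    · exact XBox2_crc hγ 1 fun x hx y hy r => k x y (e x hx y hy) r (hs hx).1 (hs hy).1
    · exact XBox2_crc hγ 0 fun x hx y hy r => k x y r (e x hx y hy) (hs hx).1 (hs hy).1
  · have e1 := (co_bN.1 (s1 hx.1).2).2.2.trans (co_bN.1 (s1 hy.1).2).2.2.symm
    have e2 := (co_bN.1 (s2 hx.2).2).2.2.trans (co_bN.1 (s2 hy.2).2).2.2.symm
    rcases EBx_two hB (co_bN.1 (s1 hx.1).2).2.1 with q | q <;>
      rcases EBx_two hB (co_bN.1 (s2 hx.2).2).2.1 with q' | q' <;> rw [q] at e1 <;> rw [q'] at e2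
    · exact absurd (by rw [bcol, bcol, q, q']) hw
    · exact k x y e1 e2 (s1 hx.1).1 (s1 hy.1).1
    · exact k x y e2 e1 (s1 hx.1).1 (s1 hy.1).1
    · exact absurd (by rw [bcol, bcol, q, q']) hw

omit [Finite ι] in
theorem XBox2_glue (hB : EBx L lo hi) {Φ : Rn 3 → Rn 3}
    (h : ∀ x : Rn 3, ∃ Ψ, BOut L lo hi lo' hi' F J Ψ ∧ (∀ y, y 2 = x 2 → Φ y = Ψ y) ∧
      ∀ y, Ψ y 2 = Ψ x 2 → Φ y = Ψ y) : BOut L lo hi lo' hi' F J Φ := by
  have k : ∀ S : ι → Set (Rn 3), (∀ Ψ, BOut L lo hi lo' hi' F J Ψ → ∀ c, HP L lo hi (Ψ '' S c)) →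
      ∀ c, HP L lo hi (Φ '' S c) := fun S hS c => by
    constructor
    · rintro w _ ⟨x, hx, rfl⟩ hN t ht
      obtain ⟨Ψ, h1, h2, h3⟩ := h x
      rw [h2 x rfl] at hN ⊢
      obtain ⟨y, hy, e⟩ := (hS Ψ h1 c).wal w _ ⟨x, hx, rfl⟩ hN t ht
      exact ⟨y, hy, (h3 y (by rw [e, XBox2_bf hB hN])).trans e⟩
    · rintro a ha b hb _ ⟨x, hx, rfl⟩ h4 h5 z hz h6
      obtain ⟨Ψ, h1, h2, h3⟩ := h x
      rw [h2 x rfl] at h4 h5 h6
      obtain ⟨y, hy, e⟩ := (hS Ψ h1 c).tub a ha b hb _ ⟨x, hx, rfl⟩ h4 h5 z hz h6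
      exact ⟨y, hy, (h3 y (by rw [e, h6])).trans e⟩
  refine ⟨k F fun _ q => q.hF, k J fun _ q => q.hJ, fun c => disjoint_left.2 ?_,
    fun x hx w hw => ?_, fun c hc x hx w hw => ?_⟩
  · rintro _ ⟨x, hx, rfl⟩
    obtain ⟨Ψ, h1, h2, -⟩ := h x
    rw [h2 x rfl]
    exact disjoint_left.1 (h1.off c) ⟨x, hx, rfl⟩
  · obtain ⟨Ψ, h1, h2, -⟩ := h x
    rw [h2 x rfl] at hw ⊢
    obtain ⟨w', s, q1, q2, q3⟩ := h1.trk x hx w hw
    exact ⟨w', s, q1, q2, fun t ht => (h2 _ (XBox2_bf hB q2 x t)).trans (q3 t ht)⟩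
  · obtain ⟨Ψ, h1, h2, -⟩ := h x
    rw [h2 x rfl] at hw ⊢
    obtain ⟨q2, q3⟩ := h1.trk1 c hc x hx w hw
    exact ⟨q2, fun t ht => (h2 _ (XBox2_bf hB q2 x t)).trans (q3 t ht)⟩

theorem XBox2_mv {W W' : Set (Rn 3)} {Φ : Rn 3 → Rn 3} (h : Mv W Φ) (hW : W ⊆ W') {x : Rn 3} :
    Φ x ∈ W' ↔ x ∈ W' := by
  conv_lhs => rw [← h.image_eq hW]
  exact h.1.inj.mem_set_image

theorem XBox2_lo {v : ℝ} (hv : v ≤ hi 2) {x : Rn 3} :
    x ∈ bO lo (update hi 2 v) ↔ x ∈ bO lo hi ∧ x 2 < v := by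
  refine ⟨fun h => ⟨fun i => ⟨(h i).1, (h i).2.trans_le ?_⟩, by simpa using (h 2).2⟩,
    fun h i => ⟨(h.1 i).1, ?_⟩⟩ <;> rcases eq_or_ne i 2 with rfl | e
  · simpa using hv
  · rw [update_of_ne e]
  · simpa using h.2
  · rw [update_of_ne e]
    exact (h.1 i).2

theorem XBox2_hi {u : ℝ} (hu : lo 2 ≤ u) {x : Rn 3} :
    x ∈ bO (update lo 2 u) hi ↔ x ∈ bO lo hi ∧ u < x 2 := by
  refine ⟨fun h => ⟨fun i => ⟨lt_of_le_of_lt ?_ (h i).1, (h i).2⟩, by simpa using (h 2).1⟩,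
    fun h i => ⟨?_, (h.1 i).2⟩⟩ <;> rcases eq_or_ne i 2 with rfl | e
  · simpa using hu
  · rw [update_of_ne e]
  · simpa using h.2
  · rw [update_of_ne e]
    exact (h.1 i).1

theorem box_model (hB : EBx L lo hi) (hB' : EBx L lo' hi') (hs : ∀ i, lo i ≤ lo' i ∧ hi' i ≤ hi i)
    (h2 : lo' 2 = lo 2 ∧ hi' 2 = hi 2) (h0 : lo 2 < 0 ∧ 0 < hi 2)
    (hF : ESt F J) (k1 : ∀ c, HP L lo hi (F c)) (k2 : ∀ c, HP L lo hi (J c))
    (k3 : ∀ c, Disjoint (J c) (bT L lo hi))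
    (hT : ∀ c, (F c ∩ bT L lo hi).Nonempty → F c ∩ bO lo hi ⊆ bO lo' hi') (cut : Prop)
    (hc : cut → ∀ c, (∀ x ∈ F c, x ∈ bO lo hi → x 2 = 0) ∨
      ∀ x ∈ F c \ J c, x ∈ bO lo hi → x 2 ≠ 0) :
    ∃ Φ, Mv (bO lo hi) Φ ∧ (cut → ∀ x, x 2 = 0 → Φ x = x) ∧ BOut L lo hi lo' hi' F J Φ ∧
      ∀ c, F c ⊆ bO lo hi → Par (bN L lo hi) bf (Φ '' F c) (Φ '' J c) := by
  suffices H : ∃ Φ, Mv (bO lo hi) Φ ∧ (cut → ∀ x, x 2 = 0 → Φ x = x) ∧
      BOut L lo hi lo' hi' F J Φ ∧ ∀ c, F c ⊆ bO lo hi →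
        NoC (bN L lo hi) bf (Φ '' F c) ∧ NoB (bN L lo hi) bf bcol (Φ '' F c) by
    obtain ⟨Φ, m1, m2, m3, m4⟩ := H
    exact ⟨Φ, m1, m2, m3, fun c q => parA2 hB ((hF.image m1.1).dsc c) (m3.hF c) (m3.hJ c) (m3.off c)
      (image_subset_iff.2 fun x hx => (XBox2_mv m1 Subset.rfl).2 (q hx)) (m4 c q).1 (m4 c q).2⟩
  by_cases hcut : cut
  swap
  · obtain ⟨Φ, m1, m2, m3⟩ := half_model hB hB' hs h2 le_rfl (hB.lt 2) le_rfl hF k1 k2 k3 hT
    rw [update_eq_self, update_eq_self] at m1 m3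
    exact ⟨Φ, m1, fun q => absurd q hcut, m2, fun c q => m3 c q (sdiff_subset.trans q)⟩
  obtain ⟨Φ, m1, m2, m3⟩ := half_model hB hB' hs h2 le_rfl h0.1 h0.2.le hF k1 k2 k3 hT
  obtain ⟨Ψ, n1, n2, n3⟩ := half_model hB hB' hs h2 h0.1.le h0.2 le_rfl hF k1 k2 k3 hT
  rw [update_eq_self] at m1 m3 n1 n3
  have a1 : ∀ x, 0 ≤ x 2 → Φ x = x := fun x hx =>
    m1.2 x fun q => ((XBox2_lo h0.2.le).1 q).2.not_ge hx
  have a2 : ∀ x, x 2 ≤ 0 → Ψ x = x := fun x hx =>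
    n1.2 x fun q => ((XBox2_hi h0.1.le).1 q).2.not_ge hx
  have a3 : ∀ x, Φ x 2 ≤ 0 ↔ x 2 ≤ 0 := fun x =>
    XBox2_mv (W' := {x | x 2 ≤ 0}) m1 fun y q => ((XBox2_lo h0.2.le).1 q).2.le
  have a4 : ∀ x, 0 ≤ Ψ x 2 ↔ 0 ≤ x 2 := fun x =>
    XBox2_mv (W' := {x | 0 ≤ x 2}) n1 fun y q => ((XBox2_hi h0.1.le).1 q).2.le
  have b1 : ∀ x, x 2 ≤ 0 → (Ψ ∘ Φ) x = Φ x := fun x hx => a2 _ ((a3 x).2 hx)
  have b2 : ∀ x, 0 ≤ x 2 → (Ψ ∘ Φ) x = Ψ x := fun x hx => congrArg Ψ (a1 x hx)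
  have b3 : ∀ x, x 2 = 0 → (Ψ ∘ Φ) x = x := fun x hx => (b1 x hx.le).trans (a1 x hx.ge)
  refine ⟨Ψ ∘ Φ, (n1.mono fun x q => ((XBox2_hi h0.1.le).1 q).1).comp
    (m1.mono fun x q => ((XBox2_lo h0.2.le).1 q).1), fun _ => b3, XBox2_glue hB fun x => ?_,
    fun c q => ?_⟩
  · rcases le_total (x 2) 0 with e | e
    · exact ⟨Φ, m2, fun y hy => b1 y (hy ▸ e), fun y hy => b1 y ((a3 y).1 (hy ▸ (a3 x).2 e))⟩
    · exact ⟨Ψ, n2, fun y hy => b2 y (hy ▸ e), fun y hy => b2 y ((a4 y).1 (hy ▸ (a4 x).2 e))⟩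
  rcases hc hcut c with e | e
  · refine XBox2_flat hB ?_
    rintro _ ⟨x, hx, rfl⟩
    rw [b3 x (e x hx (q hx)), e x hx (q hx)]
  have c2 : Continuous fun x : Rn 3 => x 2 := continuous_apply 2
  rcases (hF.dsc c).conn_in.isPreconnected.subset_or_subset (isOpen_lt c2 continuous_const)
    (isOpen_lt continuous_const c2) (disjoint_left.2 fun x (p1 : x 2 < 0) (p2 : 0 < x 2) =>
      p1.asymm p2) (fun x hx => lt_or_gt_of_ne (e x hx (q hx.1))) with r | r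
  · have r' : F c ⊆ {x | x 2 ≤ 0} := (hF.dsc c).cl.symm.subset.trans
      (closure_minimal (fun x hx => (show x 2 < 0 from r hx).le) (isClosed_le c2 continuous_const))
    rw [image_congr fun x hx => b1 x (r' hx)]
    exact m3 c q fun x hx => (XBox2_lo h0.2.le).2 ⟨q hx.1, r hx⟩
  · have r' : F c ⊆ {x | 0 ≤ x 2} := (hF.dsc c).cl.symm.subset.trans
      (closure_minimal (fun x hx => (show 0 < x 2 from r hx).le) (isClosed_le continuous_const c2))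
    rw [image_congr fun x hx => b2 x (r' hx)]
    exact n3 c q fun x hx => (XBox2_hi h0.1.le).2 ⟨q hx.1, r hx⟩

end BEp
end
end

-- merged part: Pool.Agent.Work.MP_f0515e_an.P3.XBoxQ
section
/-! The move in the box of a square of the cube complex.
`Api.qch`: `Θ = χ ∘ (φ₀ (x 0), φ₁ (x 1), x 2)` with `χ` from `Api.box` and `φ₀`, `φ₁` from `norm1` (levels `A' j`, `A' k`, `p = g / 2`, `q = 1 - g / 2`, margin `e j`, `e k`), `lo = (ψ₀ (g / 4), ψ₁ (g / 4), -g / 8)`, `lo' = (ψ₀ (g / 2), ψ₁ (g / 2), -g / 8)`, `π (0, c) = (j, φ₀ c)`, `π (1, c) = (k, φ₁ c)`. Identities between points by `Api.ext` and `Api.mvt`. A tube lies in a double thick wall, and one passes between two points of a slice of it by two fibre moves.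
`Api.boxQ`: `LFm.loc` for the compact set `Θ '' Icc lo hi`, pull the discs back by `Θ` (`ESt.image` with the inverse), `box_model`, conjugate; `Par.image`, `Par.of_sub`. The discs which miss the compact set are fixed and miss `O`. About 450 lines; two tasks. -/

open Set Metric Filter Topology Function BEv
open scoped NNReal

noncomputable section
namespace BEp

variable {n m : ℕ}

variable {ν ι : Type} {V : Set (Rn 3)} {g C : ℝ} {Cf : (Rn 3 ≃L[ℝ] Rn 3) → ℝ} {P : ι → Pc} {T : TS}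
  {c : Rn 3 → ℝ} {t : ν → Rn 3 → ℝ} {mv : ν → Rn 3 → ℝ → Rn 3} {dim : ν → ℕ} {b : ν → Rn 3}
  {A A' : ν → Set ℝ} {e ε' : ν → ℝ} {σ : Set ν} {j k : ν}

theorem XBoxQ_conj {μ : Type} {F J : μ → Set (Rn 3)} {O O' : Set (Rn 3)} {Θ : Rn 3 → Rn 3}
    {L : Fin 3 → Set ℝ} {lo hi lo' hi' : Rn 3} {π : Fin 3 × ℝ → ν × ℝ}
    (q : QCh V g P t mv A A' e ε' O O' Θ L lo hi lo' hi' π) (hF : LFm V F J)
    (hs : ∀ c, Sma t (g / 16) (F c)) (hG : GH V t mv A (fun v => 2 * e v) F J)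
    (hf : ∀ c, F c ⊆ BP P ∨ Disjoint (F c \ J c) (BP P)) :
    ∃ Φ, Mv O Φ ∧ (∀ y ∈ BP P, Φ y = y) ∧ QOut V t mv A' ε' O O' F J Φ := by
  have hΘ := q.lh
  obtain ⟨fin, st⟩ := hF.loc ((isCompact_Icc (a := lo) (b := hi)).image hΘ.tp.continuous) q.cpt
  have pre : ∀ S, invFun Θ '' S = Θ ⁻¹' S := fun S =>
    congrFun (image_eq_preimage_of_inverse hΘ.ri hΘ.li) S
  have st' := st.image hΘ.inv
  simp only [pre] at st'
  have mO : ∀ z, Θ z ∈ O ↔ z ∈ bO lo hi := fun z => by rw [← q.eO, hΘ.inj.mem_set_image]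
  obtain ⟨Ψ, m1, m2, m3, m4⟩ := box_model q.b1 q.b2 q.sub q.two q.zer st'
    (fun c => q.hp _ (hG.iF c)) (fun c => q.hp _ (hG.iJ c))
    (fun c => disjoint_left.2 fun x hx hb => by
      obtain ⟨ω, ω', n1, n2, n3⟩ := q.tub x hb
      exact n1 (hG.two c _ hx ω ω' n2 n3))
    (fun c => q.sm _ (hs c)) (∀ x ∈ bO lo hi, (Θ x ∈ BP P ↔ x 2 = 0))
    (fun hc c => (hf c).imp (fun k x hx hb => (hc x hb).1 (k hx))
      fun k x hx hb e0 =>
        disjoint_left.1 k (show Θ x ∈ F c \ J c from hx) ((hc x hb).2 e0))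
  have mv1 : Mv O (Θ ∘ Ψ ∘ invFun Θ) := q.eO ▸ m1.conj hΘ
  have ev : ∀ z, (Θ ∘ Ψ ∘ invFun Θ) (Θ z) = Θ (Ψ z) := fun z => by
    rw [comp_apply, comp_apply, hΘ.li]
  generalize Θ ∘ Ψ ∘ invFun Θ = Φ at mv1 ev
  have im : ∀ S, Φ '' S = Θ '' (Ψ '' (Θ ⁻¹' S)) := fun S => by
    conv_lhs => rw [← image_preimage_eq S hΘ.1.2]
    simp only [image_image, ev]
  have inO : ∀ z, Ψ z ∈ bO lo hi → z ∈ bO lo hi := fun z hz => by
    by_contra k
    rw [m1.2 z k] at hz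
    exact k hz
  have mem : ∀ c z, Θ z ∈ F c → z ∈ bO lo hi → (F c ∩ Θ '' Icc lo hi).Nonempty :=
    fun c z h1 h2 => ⟨_, h1, z, ⟨fun i => (h2 i).1.le, fun i => (h2 i).2.le⟩, rfl⟩
  have sub : ∀ c, J c ⊆ F c := fun c => (hF.st.dsc c).sub
  have iw : ∀ S ω, ((Θ ⁻¹' S ∩ bO lo hi).Nonempty → HP L lo hi (Ψ '' (Θ ⁻¹' S))) →
      Iw (gN V t A' ε' ω ∩ O) (gf mv ε' ω) (Φ '' S) := by
    intro S ω hp
    rw [im]
    rintro _ ⟨_, ⟨z, hz, rfl⟩, rfl⟩ ⟨n1, n2⟩ s hs'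
    obtain ⟨w, rfl, n3⟩ := q.w2 ω _ ((mO _).1 n2) n1
    exact ⟨_, (hp ⟨z, hz, inO z n3.1⟩).wal w _ ⟨z, hz, rfl⟩ n3 s hs', (q.w1 w _ n3).2 s hs'⟩
  refine ⟨Φ, mv1, fun y hy => ?_, fun c ω => iw _ ω fun ⟨z, h1, h2⟩ => m3.hF ⟨c, mem c z h1 h2⟩,
    fun c ω => iw _ ω fun ⟨z, h1, h2⟩ => m3.hJ ⟨c, mem c z (sub c h1) h2⟩, fun c => ?_, ?_,
    fun c hc => ?_, fun c hc => ?_⟩
  · obtain ⟨z, rfl⟩ := hΘ.1.2 y
    by_cases k : z ∈ bO lo hi
    · rcases q.bp with k' | k'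
      · exact absurd hy (k' z k)
      · rw [ev, m2 k' z ((k' z k).1 hy)]
    · exact mv1.2 _ (mt (mO z).1 k)
  · rw [im]
    rintro _ ⟨_, ⟨z, hz, rfl⟩, rfl⟩ n0 ω ω' n1 n2
    by_contra k
    have n3 := (mO _).1 n0
    exact disjoint_left.1 (m3.off ⟨c, mem c z (sub c hz) (inO z n3)⟩) ⟨z, hz, rfl⟩
      (q.dbl _ n3 ω ω' n1 n2 k)
  · intro x hx ω hω
    obtain ⟨z, rfl⟩ := hΘ.1.2 x
    obtain ⟨c, hc⟩ := mem_iUnion.1 hx
    rw [ev] at hω ⊢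
    obtain ⟨w, rfl, n3⟩ := q.w2 ω _ ((mO _).1 hω.2) hω.1
    obtain ⟨w', s, n4, n5, n6⟩ := m3.trk z
      (mem_iUnion.2 ⟨⟨c, mem c z (sub c hc) (inO z n3.1)⟩, hc⟩) w n3
    refine ⟨π w', s, n4, ⟨(q.w1 w' z n5).1, (mO z).2 n5.1⟩, fun u hu => ?_⟩
    rw [← (q.w1 w' z n5).2 u hu, ev, n6 u hu, (q.w1 w _ n3).2 _ (ebas_sg n4 hu)]
  · intro x hx ω hω
    obtain ⟨z, rfl⟩ := hΘ.1.2 x
    rw [ev] at hω ⊢
    obtain ⟨w, rfl, n3⟩ := q.w2 ω _ ((mO _).1 hω.2) hω.1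
    obtain ⟨n5, n6⟩ := m3.trk1 ⟨c, mem c z hx (inO z n3.1)⟩
      (disjoint_left.2 fun y h1 h2 => disjoint_left.1 hc h1 (q.eO' ▸ mem_image_of_mem Θ h2))
      z hx w n3
    refine ⟨⟨(q.w1 w z n5).1, (mO z).2 n5.1⟩, fun u hu => ?_⟩
    rw [← (q.w1 w z n5).2 u hu, ev, n6 u hu, (q.w1 w _ n3).2 _ hu]
  · obtain ⟨x, hx⟩ := (hF.st.dsc c).conn.nonempty
    obtain ⟨z, rfl⟩ := hΘ.1.2 x
    have p1 := (m4 ⟨c, mem c z hx ((mO z).1 (hc hx))⟩ fun y hy => (mO y).1 (hc hy)).image hΘ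
    rw [im, im]
    refine Par.of_sub (π := π) (image_mono (image_mono (preimage_mono (sub c)))) ?_ ?_ p1
    · rintro w _ - ⟨y, hy, rfl⟩
      refine ⟨⟨(q.w1 w y hy).1, (mO y).2 hy.1⟩, fun s hs' => ?_⟩
      rw [hΘ.li, (q.w1 w y hy).2 s hs']
    · rintro v _ ⟨y, -, rfl⟩ hy
      obtain ⟨w, n1, n2⟩ := q.w2 v y ((mO y).1 hy.2) hy.1
      exact ⟨w, n1, y, n2, rfl⟩

theorem Api.boxQ {μ : Type} {F J : μ → Set (Rn 3)} (h : Api V g C Cf P T c t mv dim b)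
    (hA : XLev g A fun v => 2 * e v) (hF : LFm V F J) (hs : ∀ c, Sma t (g / 16) (F c))
    (hG : GH V t mv A (fun v => 2 * e v) F J)
    (hf : ∀ c, F c ⊆ BP P ∨ Disjoint (F c \ J c) (BP P)) (hA' : XLev g A' ε')
    (hn : Nest A e A' ε') (hjk : j ≠ k) (hne : (sBox V t σ j k (g / 4) (g / 8)).Nonempty) :
    ∃ Φ, Mv (sBox V t σ j k (g / 4) (g / 8)) Φ ∧ (∀ y ∈ BP P, Φ y = y) ∧
      QOut V t mv A' ε' (sBox V t σ j k (g / 4) (g / 8)) (sBox V t σ j k (g / 2) (g / 8))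
        F J Φ := by
  obtain ⟨Θ, L, lo, hi, lo', hi', π, q⟩ := h.qch hA hA' hn hjk hne
  exact XBoxQ_conj q hF hs hG hf

end BEp
end
end

-- merged part: Pool.Agent.Work.MP_f0515e_an.P3.XS121
section
/-! The boxes and the glued map. -/

open Set Metric Filter Topology Function BEv
open scoped NNReal

noncomputable section
namespace BEp

variable {n m : ℕ}

variable {ν ι : Type} {V : Set (Rn 3)} {g C : ℝ} {Cf : (Rn 3 ≃L[ℝ] Rn 3) → ℝ} {P : ι → Pc} {T : TS}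
  {c : Rn 3 → ℝ} {t : ν → Rn 3 → ℝ} {mv : ν → Rn 3 → ℝ → Rn 3} {dim : ν → ℕ} {b : ν → Rn 3}
  {A : ν → Set ℝ} {e ε : ν → ℝ} {a r : ν → ℕ} {σ : Set ν} {j k : ν} {μ : Type}
  {F J : μ → Set (Rn 3)} {Ψ : Rn 3 → Rn 3}

theorem XS121_near (h : Api V g C Cf P T c t mv dim b) {y : Rn 3} (hy : y ∈ V) {δ : ℝ}
    (hδ : 0 < δ) : ∀ᶠ z in 𝓝 y, z ∈ V ∧ ∀ v, |t v z - t v y| < δ := by
  obtain ⟨K, hK, h1, h2⟩ := exists_compact_subset h.opn hy
  have e1 : ∀ᶠ z in 𝓝 y, ∀ v ∈ {v | ∃ y ∈ K, 0 < t v y}, |t v z - t v y| < δ :=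
    (eventually_all_finite (h.lf1 K hK h2)).2 fun v _ =>
      Metric.tendsto_nhds.1 (((h.ltp v).contOn h.opn).continuousAt (h.opn.mem_nhds hy)) δ hδ
  filter_upwards [e1, mem_interior_iff_mem_nhds.1 h1] with z a hz
  refine ⟨h2 hz, fun v => ?_⟩
  by_cases hv : ∃ y ∈ K, 0 < t v y
  · exact a v hv
  · push Not at hv
    rw [(hv z hz).antisymm (h.t01 v z (h2 hz)).1,
      (hv y (interior_subset h1)).antisymm (h.t01 v y hy).1]
    simpa using hδ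

theorem XS121_mid {y : Rn 3} {r ρ : ℝ} (hy : y ∈ sBox V t σ j k r ρ) {v : ν} (h1 : ρ ≤ t v y)
    (h2 : t v y ≤ 1 - ρ) : v = j ∨ v = k := by
  obtain ⟨-, -, -, ρ', a, p⟩ := hy
  by_contra hn
  obtain ⟨p1, p2⟩ := p v hn
  by_cases hv : v ∈ σ
  · linarith [p1 hv]
  · linarith [p2 hv]

theorem XS121_wall (hA : XLev g A ε) {ω : ν × ℝ} {y : Rn 3} (hy : y ∈ gN V t A ε ω) :
    g < t ω.1 y ∧ t ω.1 y < 1 - g := by
  have a := abs_le.1 hy.2.2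
  have b := hA.inn _ _ hy.2.1
  exact ⟨by linarith only [a, b, a.1, b.1], by linarith [a.2, b.2]⟩

theorem XS121_sat (hg : 0 < g) {y y' : Rn 3} {v : ν} {r : ℝ} (hr : r ≤ g) (hy' : y' ∈ V)
    (e : ∀ w, w ≠ v → t w y' = t w y) (h1 : g < t v y ∧ t v y < 1 - g)
    (h2 : g < t v y' ∧ t v y' < 1 - g) (hy : y ∈ sBox V t σ j k r (g / 8)) :
    y' ∈ sBox V t σ j k r (g / 8) := by
  have hv := XS121_mid hy (v := v) (by linarith only [hg, h1, h1.1]) (by linarith only [hg, h1, h1.2])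
  have a : ∀ w, t w y ∈ Ioo r (1 - r) → t w y' ∈ Ioo r (1 - r) := fun w hw => by
    by_cases hw' : w = v
    · rw [hw']
      exact ⟨by linarith [h2.1], by linarith [h2.2]⟩
    · rwa [e w hw']
  obtain ⟨-, b1, b2, ρ', b3, p⟩ := hy
  refine ⟨hy', a j b1, a k b2, ρ', b3, fun w hw => ?_⟩
  rw [e w fun hw' => hw (hw' ▸ hv)]
  exact p w hw

theorem XS121_pair {α : Type} {j k j' k' v : α} (hjk : j ≠ k) (h1 : j = j' ∨ j = k')
    (h2 : k = j' ∨ k = k') (hv : ¬ (v = j ∨ v = k)) : v ≠ j' ∧ v ≠ k' := by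
  rcases h1 with rfl | rfl <;> rcases h2 with rfl | rfl <;> simp_all

theorem XS121_free {S : Set (Rn 3)} {r : ℝ} (hs : Sma t r S) (hjk : j ≠ k) {z : Rn 3} (hz : z ∈ S)
    (h1 : r < dev (t j z)) (h2 : r < dev (t k z)) :
    ∀ v, ¬ (v = j ∨ v = k) → ∀ z ∈ S, dev (t v z) ≤ r := by
  obtain ⟨j', k', p⟩ := hs.1
  have a : ∀ w, r < dev (t w z) → w = j' ∨ w = k' := fun w hw => by
    by_contra hn
    rw [not_or] at hn
    linarith [p w hn.1 hn.2 z hz]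
  intro v hv
  obtain ⟨b1, b2⟩ := XS121_pair hjk (a j h1) (a k h2) hv
  exact p v b1 b2

theorem XS121_diff (V : Set (Rn 3)) (t : ν → Rn 3 → ℝ) (σ : Set ν) (j k : ν) (r ρ : ℝ) :
    sBox V t (σ \ {j, k}) j k r ρ = sBox V t σ j k r ρ := by
  ext y
  refine and_congr_right fun _ => and_congr_right fun _ => and_congr_right fun _ =>
    exists_congr fun ρ' => and_congr_right fun _ => forall_congr' fun v => forall_congr' fun hv => ?_
  rw [Set.mem_sdiff, and_iff_left hv]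

theorem Api.sbox_open (h : Api V g C Cf P T c t mv dim b) (σ : Set ν) (j k : ν) (r ρ : ℝ)
    (hρ : ρ < 1) : IsOpen (sBox V t σ j k r ρ) := by
  refine isOpen_iff_mem_nhds.2 fun y hy => ?_
  obtain ⟨h0, h1, h2, ρ', h3, p⟩ := hy
  have ct : ∀ v, ContinuousAt (t v) y := fun v =>
    ((h.ltp v).contOn h.opn).continuousAt (h.opn.mem_nhds h0)
  filter_upwards [XS121_near h h0 (half_pos (sub_pos.2 h3)), ct j (isOpen_Ioo.mem_nhds h1),
    ct k (isOpen_Ioo.mem_nhds h2)] with z a b1 b2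
  refine ⟨a.1, b1, b2, ρ' + (ρ - ρ') / 2, by linarith only [h3], fun v hv => ?_⟩
  have d := abs_lt.1 (a.2 v)
  exact ⟨fun hσ => by linarith only [d, p, hv, hσ, (p v hv).1 hσ, d.1], fun hσ => by linarith only [d, p, hv, hσ, (p v hv).2 hσ, d.2]⟩


theorem Api.sbox_cls (h : Api V g C Cf P T c t mv dim b) (hA : XLev g A ε) {ω : ν × ℝ} {y : Rn 3}
    (hy : y ∈ gN V t A ε ω) {r : ℝ} (k' : y ∈ sBox V t σ j k r (g / 8)) : ω.1 = j ∨ ω.1 = k := by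
  have a := XS121_wall hA hy
  have g0 := h.g0.1
  exact XS121_mid k' (by linarith only [a, g0, a.1]) (by linarith only [a, g0, a.2])


theorem Api.sbox_sat (h : Api V g C Cf P T c t mv dim b) (hA : XLev g A ε) {ω : ν × ℝ} {y : Rn 3}
    (hy : y ∈ gN V t A ε ω) {s : ℝ} (hs : s ∈ Icc (-1 : ℝ) 1) {r : ℝ} (hr : r ≤ g) :
    gf mv ε ω y s ∈ sBox V t σ j k r (g / 8) ↔ y ∈ sBox V t σ j k r (g / 8) := by
  obtain ⟨a1, -, a3⟩ := h.gf_t hA hy hs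
  have b1 := XS121_wall hA hy
  have b2 := XS121_wall hA ((h.fib hA ω).mem y hy s hs).1
  exact ⟨XS121_sat h.g0.1 hr hy.1 (fun w hw => (a3 w hw).symm) b2 b1,
    XS121_sat h.g0.1 hr a1 a3 b1 b2⟩


theorem Api.sbox_uq (h : Api V g C Cf P T c t mv dim b) {σ' : Set ν} {j' k' : ν} {y : Rn 3}
    (h1 : dim j < dim k) (h2 : dim j' < dim k') (hy : y ∈ sBox V t σ j k (g / 4) (g / 8))
    (hy' : y ∈ sBox V t σ' j' k' (g / 4) (g / 8)) : j = j' ∧ k = k' ∧ σ \ {j, k} = σ' \ {j, k} := by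
  obtain ⟨g0, g1⟩ := h.g0
  have a1 := XS121_mid hy' (v := j) (by linarith only [g0, hy, hy.2.1.1]) (by linarith only [g0, hy, hy.2.1.2])
  have a2 := XS121_mid hy' (v := k) (by linarith only [g0, hy, hy.2.2.1.1]) (by linarith only [g0, hy, hy.2.2.1.2])
  have e : j = j' ∧ k = k' := by
    rcases a1 with rfl | rfl <;> rcases a2 with rfl | rfl
    exacts [absurd h1 (lt_irrefl _), ⟨rfl, rfl⟩, absurd h1 h2.not_gt, absurd h1 (lt_irrefl _)]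
  obtain ⟨rfl, rfl⟩ := e
  refine ⟨rfl, rfl, ?_⟩
  obtain ⟨-, -, -, ρ, b, p⟩ := hy
  obtain ⟨-, -, -, ρ', b', p'⟩ := hy'
  ext v
  refine and_congr_left fun hv => ⟨fun a => ?_, fun a => ?_⟩ <;> by_contra hn
  · linarith only [g0, g1, b, b', p, hv, a, p', hn, (p v hv).1 a, (p' v hv).2 hn]
  · linarith only [g0, g1, b, b', p', hv, a, p, hn, (p' v hv).1 a, (p v hv).2 hn]


theorem Api.sbox_in (h : Api V g C Cf P T c t mv dim b) {S : Set (Rn 3)} (hS : S ⊆ V)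
    (hs : Sma t (g / 16) S) (hjk : j ≠ k) (hne : (S ∩ sBox V t σ j k (g / 2) (g / 8)).Nonempty) :
    S ⊆ sBox V t σ j k (g / 4) (g / 8) := by
  obtain ⟨g0, g1⟩ := h.g0
  obtain ⟨z, hz, -, h1, h2, ρ, h3, p⟩ := hne
  have f := XS121_free hs hjk hz (lt_min (by linarith only [g0, h1, h1.1]) (by linarith only [g0, h1, h1.2]))
    (lt_min (by linarith only [g0, h2, h2.1]) (by linarith only [g0, h2, h2.2]))
  intro y hy
  have d := fun v => abs_le.1 (hs.2 v y hy z hz)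
  refine ⟨hS hy, ⟨by linarith only [g0, h1, d, h1.1, (d j).1], by linarith only [g0, h1, d, h1.2, (d j).2]⟩,
    ⟨by linarith only [g0, h2, d, h2.1, (d k).1], by linarith only [g0, h2, d, h2.2, (d k).2]⟩, g / 16, by linarith only [g0],
    fun v hv => ⟨fun a => ?_, fun a => ?_⟩⟩ <;> rcases min_le_iff.1 (f v hv y hy) with q | q
  · linarith only [g0, g1, h3, q, p, hv, a, d, (p v hv).1 a, (d v).1]
  · linarith only [q]
  · exact q
  · linarith only [g0, g1, h3, q, p, hv, a, d, (p v hv).2 a, (d v).2]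


theorem Api.sbox_of (h : Api V g C Cf P T c t mv dim b) {S : Set (Rn 3)} (hS : S ⊆ V)
    (hs : Sma t (g / 16) S) {r : ℝ} (hr : g / 16 ≤ r) (k' : ¬ One t r S) :
    ∃ σ j k, dim j < dim k ∧ (S ∩ sBox V t σ j k r (g / 8)).Nonempty := by
  obtain ⟨g0, g1⟩ := h.g0
  have key : ∀ z ∈ S, ∀ v w, v ≠ w → r < dev (t v z) → r < dev (t w z) →
      z ∈ sBox V t {u | 1 / 2 < t u z} v w r (g / 8) := by
    intro z hz v w hn h1 h2
    have f := XS121_free hs hn hz (hr.trans_lt h1) (hr.trans_lt h2)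
    rw [dev, lt_min_iff] at h1 h2
    refine ⟨hS hz, ⟨h1.1, by linarith only [h1, h1.2]⟩, ⟨h2.1, by linarith only [h2, h2.2]⟩, g / 16, by linarith only [g0],
      fun u hu => ⟨fun a : 1 / 2 < t u z => ?_, fun a : ¬ 1 / 2 < t u z => ?_⟩⟩ <;>
      rcases min_le_iff.1 (f u hu z hz) with q | q <;> linarith only [g0, g1, a, q]
  unfold One at k'
  push Not at k'
  obtain ⟨z, hz, v, w, hn, h1, h2⟩ := k'
  have p : ∀ u, r < dev (t u z) → 0 < t u z := fun u hu => by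
    linarith only [hr, g0, hu, (lt_min_iff.1 hu).1]
  rcases lt_trichotomy (dim v) (dim w) with l | l | l
  · exact ⟨_, v, w, l, z, hz, key z hz v w hn h1 h2⟩
  · exact absurd (h.col z (hS hz) v w (p v h1) (p w h2) l) hn
  · exact ⟨_, w, v, l, z, hz, key z hz w v hn.symm h2 h1⟩


open Classical in
/-- Depth of the subdivision in the box of `j`, `k`. -/
def qi (a : ν → ℕ) (j k v : ν) : ℕ := if v = j then a k - a j else 0

/-- The glued map. -/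
structure QG (V : Set (Rn 3)) (g : ℝ) (P : ι → Pc) (t : ν → Rn 3 → ℝ) (mv : ν → Rn 3 → ℝ → Rn 3)
    (dim : ν → ℕ) (A : ν → Set ℝ) (e : ν → ℝ) (a r : ν → ℕ) (F J : μ → Set (Rn 3))
    (Ψ : Rn 3 → Rn 3) : Prop where
  gm : GM V Ψ
  fix : ∀ y ∈ BP P, Ψ y = y
  out : ∀ y, (∀ σ j k, dim j < dim k → y ∉ sBox V t σ j k (g / 4) (g / 8)) → Ψ y = y
  box : ∀ σ j k, dim j < dim k → (sBox V t σ j k (g / 4) (g / 8)).Nonempty → ∃ Φ,
    Mv (sBox V t σ j k (g / 4) (g / 8)) Φ ∧ EqOn Ψ Φ (sBox V t σ j k (g / 4) (g / 8)) ∧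
    QOut V t mv (cA A e (qi a j k)) (cE e (g / 4) r (qi a j k)) (sBox V t σ j k (g / 4) (g / 8))
      (sBox V t σ j k (g / 2) (g / 8)) F J Φ

theorem Api.qg (h : Api V g C Cf P T c t mv dim b) (hX : XIn V t mv g P dim A e a r F J) :
    ∃ Ψ, QG V g P t mv dim A e a r F J Ψ := by
  obtain ⟨g0, g1⟩ := h.g0
  let κ := {p : Set ν × ν × ν // dim p.2.1 < dim p.2.2 ∧ p.1 \ {p.2.1, p.2.2} = p.1 ∧
    (sBox V t p.1 p.2.1 p.2.2 (g / 4) (g / 8)).Nonempty}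
  have ex : ∀ p : κ, ∃ Φ, Mv (sBox V t p.1.1 p.1.2.1 p.1.2.2 (g / 4) (g / 8)) Φ ∧
      (∀ y ∈ BP P, Φ y = y) ∧ QOut V t mv (cA A e (qi a p.1.2.1 p.1.2.2))
        (cE e (g / 4) r (qi a p.1.2.1 p.1.2.2)) (sBox V t p.1.1 p.1.2.1 p.1.2.2 (g / 4) (g / 8))
        (sBox V t p.1.1 p.1.2.1 p.1.2.2 (g / 2) (g / 8)) F J Φ := by
    rintro ⟨⟨σ, j, k⟩, hd, _, y, hy⟩
    have x := hX.exp y hy.1 j k (by linarith only [g0, hy, hy.2.1.1]) (by linarith only [g0, hy, hy.2.2.1.1]) hd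
    have l := can_lev hX.lev.half.1 (κ := g / 4) (by linarith only [g0]) (by linarith only [g0, g1]) (r := r)
      (i := qi a j k) fun v => by
        unfold qi
        split_ifs with hv
        · rw [hv]
          omega
        · exact Nat.zero_le _
    exact h.boxQ hX.lev hX.lfm hX.sma hX.gh hX.flat l.1 l.2.1 (fun e => hd.ne (congrArg dim e))
      ⟨y, hy⟩
  choose Φ h1 h2 h3 using ex
  obtain ⟨Ψ, g1, g2, g3⟩ := gm_glue (V := V) h1 (fun p y hy => hy.1)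
    (fun p p' hn => Set.disjoint_left.2 fun y hy hy' => hn (by
      obtain ⟨⟨σ, j, k⟩, hd, e, _⟩ := p
      obtain ⟨⟨σ', j', k'⟩, hd', e', _⟩ := p'
      obtain ⟨rfl, rfl, q⟩ := h.sbox_uq hd hd' hy hy'
      exact Subtype.ext (Prod.ext (e.symm.trans (q.trans e')) rfl)))
    fun K hK hs => by
      have f := h.lf1 K hK hs
      refine ((f.finite_subsets.prod (f.prod f)).preimage Subtype.val_injective.injOn).subset ?_
      rintro ⟨⟨σ, j, k⟩, hd, e, _⟩ ⟨y, ⟨-, a1, a2, ρ, a3, p⟩, hy⟩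
      refine ⟨fun v hv => ⟨y, hy, ?_⟩, ⟨y, hy, by linarith [a1.1]⟩, y, hy, by linarith [a2.1]⟩
      have hv' : v ∈ σ \ {j, k} := e.symm ▸ hv
      linarith [(p v hv'.2).1 hv]
  refine ⟨Ψ, g1, fun y hy => ?_, fun y hy => g3 y fun p => hy _ _ _ p.2.1, fun σ j k hd hne => ?_⟩
  · by_cases hb : ∃ p : κ, y ∈ sBox V t p.1.1 p.1.2.1 p.1.2.2 (g / 4) (g / 8)
    · obtain ⟨p, hp⟩ := hb
      rw [g2 p hp, h2 p y hy]
    · exact g3 y (not_exists.1 hb)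
  · rw [← XS121_diff V t σ j k (g / 4), ← XS121_diff V t σ j k (g / 2)]
    rw [← XS121_diff] at hne
    let p : κ := ⟨(σ \ {j, k}, j, k), hd, sdiff_idem, hne⟩
    exact ⟨Φ p, h1 p, g2 p, h3 p⟩


end BEp
end
end

-- merged part: Pool.Agent.Work.MP_f0515e_an.P3.XS122
section
/-! The moves in all boxes: handle position of the images, and the discs that lie in no box. -/

open Set Metric Filter Topology Function BEv
open scoped NNReal

noncomputable section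
namespace BEp

variable {n m : ℕ}

variable {ν ι : Type} {V : Set (Rn 3)} {g C : ℝ} {Cf : (Rn 3 ≃L[ℝ] Rn 3) → ℝ} {P : ι → Pc} {T : TS}
  {c : Rn 3 → ℝ} {t : ν → Rn 3 → ℝ} {mv : ν → Rn 3 → ℝ → Rn 3} {dim : ν → ℕ} {b : ν → Rn 3}
  {A : ν → Set ℝ} {e ε : ν → ℝ} {a r : ν → ℕ} {σ : Set ν} {j k : ν} {μ : Type}
  {F J : μ → Set (Rn 3)} {Ψ : Rn 3 → Rn 3}

theorem XS122_mv {W : Set (Rn n)} {Φ : Rn n → Rn n} (h : Mv W Φ) {x : Rn n} :
    Φ x ∈ W ↔ x ∈ W := by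
  refine ⟨fun k => by_contra fun k' => k' (h.2 x k' ▸ k), fun k => by_contra fun k' => k' ?_⟩
  rwa [h.1.1.1 (h.2 _ k')]

theorem XS122_eq (h : Api V g C Cf P T c t mv dim b) {σ' : Set ν} {j' k' : ν} {y : Rn 3}
    (h1 : dim j < dim k) (h2 : dim j' < dim k') (hy : y ∈ sBox V t σ j k (g / 4) (g / 8))
    (hy' : y ∈ sBox V t σ' j' k' (g / 4) (g / 8)) :
    sBox V t σ j k (g / 4) (g / 8) = sBox V t σ' j' k' (g / 4) (g / 8) := by
  obtain ⟨rfl, rfl, e⟩ := h.sbox_uq h1 h2 hy hy'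
  have k : ∀ v, v ∉ ({j, k} : Set ν) → (v ∈ σ ↔ v ∈ σ') := fun v hv =>
    ⟨fun q => (e.subset ⟨q, hv⟩).1, fun q => (e.symm.subset ⟨q, hv⟩).1⟩
  ext z
  refine and_congr_right fun _ => and_congr_right fun _ => and_congr_right fun _ =>
    exists_congr fun ρ => and_congr_right fun _ => forall₂_congr fun v hv => ?_
  rw [k v hv]

theorem XS122_lev (h : Api V g C Cf P T c t mv dim b) (hX : XIn V t mv g P dim A e a r F J)
    {i : ν → ℕ} (hi : ∀ v, i v ≤ r v) : XLev g (cA A e i) (cE e (g / 4) r i) ∧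
      Nest A e (cA A e i) (cE e (g / 4) r i) ∧
      Nest (cA A e i) (cE e (g / 4) r i) (cA A e r) (cE e (g / 4) r r) := by
  obtain ⟨a1, a2, a3, -⟩ :=
    can_lev hX.lev.half.1 (κ := g / 4) (by linarith only [h, h.g0.1]) (by linarith only [h, h.g0.2]) hi
  exact ⟨a1, a2, a3⟩

theorem XS122_qi (h : Api V g C Cf P T c t mv dim b) (hX : XIn V t mv g P dim A e a r F J)
    (hd : dim j < dim k) {y : Rn 3} (hy : y ∈ sBox V t σ j k (g / 4) (g / 8)) (v : ν) :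
    qi a j k v ≤ r v := by
  have := hX.exp y hy.1 j k (by linarith only [hy, h, hy.2.1.1, h.g0.1]) (by linarith only [hy, h, hy.2.2.1.1, h.g0.1]) hd
  unfold qi
  split_ifs with q
  · rw [q]
    omega
  · exact Nat.zero_le _

theorem QG.XS122_mem (q : QG V g P t mv dim A e a r F J Ψ) (h : Api V g C Cf P T c t mv dim b)
    (hd : dim j < dim k) {x : Rn 3} :
    Ψ x ∈ sBox V t σ j k (g / 4) (g / 8) ↔ x ∈ sBox V t σ j k (g / 4) (g / 8) := by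
  have k1 : ∀ {σ j k}, dim j < dim k → x ∈ sBox V t σ j k (g / 4) (g / 8) →
      Ψ x ∈ sBox V t σ j k (g / 4) (g / 8) := fun hd hx => by
    obtain ⟨Φ, a1, a2, -⟩ := q.box _ _ _ hd ⟨x, hx⟩
    rw [a2 hx]
    exact (XS122_mv a1).2 hx
  refine ⟨fun hx => ?_, k1 hd⟩
  by_cases e : ∃ σ j k, dim j < dim k ∧ x ∈ sBox V t σ j k (g / 4) (g / 8)
  · obtain ⟨σ', j', k', d', e⟩ := e
    rwa [XS122_eq h hd d' hx (k1 d' e)]
  · rwa [q.out x fun σ j k d e' => e ⟨σ, j, k, d, e'⟩] at hx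

theorem QG.XS122_iw (q : QG V g P t mv dim A e a r F J Ψ) (h : Api V g C Cf P T c t mv dim b)
    (hX : XIn V t mv g P dim A e a r F J) {S : Set (Rn 3)} {ω : ν × ℝ}
    (h1 : Iw (gN V t (cA A e r) (cE e (g / 4) r r) ω) (gf mv (cE e (g / 4) r r) ω) S)
    (h2 : ∀ (A' : ν → Set ℝ) (ε' : ν → ℝ) O O' Φ, QOut V t mv A' ε' O O' F J Φ →
      ∀ ω, Iw (gN V t A' ε' ω ∩ O) (gf mv ε' ω) (Φ '' S)) :
    Iw (gN V t (cA A e r) (cE e (g / 4) r r) ω) (gf mv (cE e (g / 4) r r) ω) (Ψ '' S) := by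
  have g4 : g / 4 ≤ g := by linarith only [h, h.g0.1]
  have l0 := (XS122_lev h hX fun v => le_rfl).1
  rintro _ ⟨x, hx, rfl⟩ hw
  by_cases e' : ∃ σ j k, dim j < dim k ∧ x ∈ sBox V t σ j k (g / 4) (g / 8)
  · obtain ⟨σ, j, k, hd, hO⟩ := e'
    obtain ⟨Φ, a1, a2, a3⟩ := q.box _ _ _ hd ⟨x, hO⟩
    obtain ⟨l1, -, l3⟩ := XS122_lev h hX (XS122_qi h hX hd hO)
    obtain ⟨a', w1, w2⟩ := l3.wall hw
    have hO' := (q.XS122_mem h hd).2 hO
    refine h.iw_nest l1 l0 w1.2.1 w2 hw fun s hs => ?_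
    obtain ⟨z, z1, z2⟩ := h2 _ _ _ _ _ a3 _ _ ⟨x, hx, (a2 hO).symm⟩ ⟨w1, hO'⟩ s hs
    exact ⟨z, z1, (a2 ((XS122_mv a1).1 (z2 ▸ (h.sbox_sat l1 w1 hs g4).2 hO'))).trans z2⟩
  · have e0 := q.out x fun σ j k d e'' => e' ⟨σ, j, k, d, e''⟩
    rw [e0] at hw ⊢
    exact fun s hs => ⟨_, h1 x hx hw s hs, q.out _ fun σ j k d e'' =>
      e' ⟨σ, j, k, d, (h.sbox_sat l0 hw hs g4).1 e''⟩⟩

theorem QG.gh (q : QG V g P t mv dim A e a r F J Ψ) (h : Api V g C Cf P T c t mv dim b)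
    (hX : XIn V t mv g P dim A e a r F J) : (∀ y ∈ V, Nb t y (Ψ y)) ∧
    GH V t mv (cA A e r) (cE e (g / 4) r r) (fun c => Ψ '' F c) (fun c => Ψ '' J c) := by
  obtain ⟨l0, n0, -⟩ := XS122_lev h hX fun v => le_rfl
  have G := h.gh_nest hX.lev.half.1 l0 n0 (h.gh_nest hX.lev hX.lev.half.1 hX.lev.half.2 hX.gh)
  refine ⟨fun y hy => ?_, fun i ω => q.XS122_iw h hX (G.iF i ω) fun _ _ _ _ _ o => o.iF i,
    fun i ω => q.XS122_iw h hX (G.iJ i ω) fun _ _ _ _ _ o => o.iJ i, ?_⟩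
  · by_cases e' : ∃ σ j k, dim j < dim k ∧ y ∈ sBox V t σ j k (g / 4) (g / 8)
    · obtain ⟨σ, j, k, hd, hO⟩ := e'
      exact ⟨j, by linarith only [hO, h, hO.2.1.1, h.g0.1],
        by linarith only [q, h, hd, hO, ((q.XS122_mem h hd).2 hO).2.1.1, h.g0.1]⟩
    · rw [q.out y fun σ j k d e'' => e' ⟨σ, j, k, d, e''⟩]
      exact h.nb_self hy
  · rintro i _ ⟨x, hx, rfl⟩ ω ω' hw hw'
    by_cases e' : ∃ σ j k, dim j < dim k ∧ x ∈ sBox V t σ j k (g / 4) (g / 8)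
    · obtain ⟨σ, j, k, hd, hO⟩ := e'
      obtain ⟨Φ, -, a2, a3⟩ := q.box _ _ _ hd ⟨x, hO⟩
      obtain ⟨-, -, l3⟩ := XS122_lev h hX (XS122_qi h hX hd hO)
      obtain ⟨a', w1, -⟩ := l3.wall hw
      obtain ⟨a'', w2, -⟩ := l3.wall hw'
      exact a3.two i _ ⟨x, hx, (a2 hO).symm⟩ ((q.XS122_mem h hd).2 hO)
        (ω.1, a') (ω'.1, a'') w1 w2
    · rw [q.out x fun σ j k d e'' => e' ⟨σ, j, k, d, e''⟩] at hw hw'
      exact G.two i x hx ω ω' hw hw'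

theorem QG.face2 (q : QG V g P t mv dim A e a r F J Ψ) (h : Api V g C Cf P T c t mv dim b)
    (hX : XIn V t mv g P dim A e a r F J) {i : μ}
    (hs : ∀ σ j k, dim j < dim k → ¬ F i ⊆ sBox V t σ j k (g / 4) (g / 8)) :
    One t (g / 2) (F i) ∧ (∃ z ∈ F i, Ψ z = z) ∧
      Trk1 (gN V t (cA A e r) (cE e (g / 4) r r)) (gf mv (cE e (g / 4) r r)) Ψ (F i) := by
  have g0 := h.g0
  have g4 : g / 4 ≤ g := by linarith only [g0]
  have l0 := (XS122_lev h hX fun v => le_rfl).1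
  have k1 : ∀ σ j k, dim j < dim k → ¬ (F i ∩ sBox V t σ j k (g / 2) (g / 8)).Nonempty :=
    fun σ j k hd hne => hs σ j k hd
      (h.sbox_in (hX.lfm.sub i) (hX.sma i) (fun e => hd.ne (congrArg dim e)) hne)
  refine ⟨by_contra fun o => ?_, by_contra fun o => ?_, fun x hx ω hw => ?_⟩
  · obtain ⟨σ, j, k, hd, hne⟩ := h.sbox_of (hX.lfm.sub i) (hX.sma i) (by linarith only [g0]) o
    exact k1 σ j k hd hne
  · have k2 : ∀ z ∈ F i, ∃ σ j k, dim j < dim k ∧ z ∈ sBox V t σ j k (g / 4) (g / 8) :=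
      fun z hz => by_contra fun e' => o ⟨z, hz, q.out z fun σ j k d e'' => e' ⟨σ, j, k, d, e''⟩⟩
    obtain ⟨⟨z, hz⟩, hc⟩ := PCel.conn (hX.lfm.st.dsc i)
    obtain ⟨σ, j, k, hd, hO⟩ := k2 z hz
    refine hs σ j k hd (hc.subset_left_of_subset_union (h.sbox_open σ j k _ _ (by linarith only [g0]))
      (v := ⋃ (σ' : Set ν) (j' : ν) (k' : ν) (_ : Disjoint (sBox V t σ j k (g / 4) (g / 8))
        (sBox V t σ' j' k' (g / 4) (g / 8))), sBox V t σ' j' k' (g / 4) (g / 8))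
      (isOpen_iUnion fun _ => isOpen_iUnion fun _ => isOpen_iUnion fun _ =>
        isOpen_iUnion fun _ => h.sbox_open _ _ _ _ _ (by linarith only [g0]))
      (by simp only [disjoint_iUnion_right, imp_self, implies_true]) (fun y hy => ?_) ⟨z, hz, hO⟩)
    obtain ⟨σ', j', k', d', e'⟩ := k2 y hy
    refine or_iff_not_imp_left.2 fun e'' => ?_
    simp only [mem_iUnion]
    exact ⟨σ', j', k', disjoint_left.2 fun u u1 u2 => e'' (XS122_eq h hd d' u1 u2 ▸ e'), e'⟩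
  · by_cases e' : ∃ σ j k, dim j < dim k ∧ x ∈ sBox V t σ j k (g / 4) (g / 8)
    · obtain ⟨σ, j, k, hd, hO⟩ := e'
      obtain ⟨Φ, a1, a2, a3⟩ := q.box _ _ _ hd ⟨x, hO⟩
      obtain ⟨l1, -, l3⟩ := XS122_lev h hX (XS122_qi h hX hd hO)
      obtain ⟨v, a'⟩ := ω
      obtain ⟨a₀, w1, w2⟩ := l3.wall hw
      have hO' := (q.XS122_mem h hd).2 hO
      rw [a2 hO] at hw w1 hO' ⊢
      obtain ⟨⟨b1, -⟩, b2⟩ := a3.trk1 i
        (disjoint_iff_inter_eq_empty.2 (not_nonempty_iff_eq_empty.1 (k1 σ j k hd))) x hx _ ⟨w1, hO'⟩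
      obtain ⟨s1, s2⟩ := (h.fib l1 _).self x b1
      have e1 : t v (Φ x) = t v x := by
        have u1 := (h.gf_t l1 b1 s1).2.1
        have u2 := (h.gf_t l1 w1 s1).2.1
        rw [← b2 _ s1, s2] at u2
        rw [s2] at u1
        exact u2.trans u1.symm
      refine ⟨⟨b1.1, hw.2.1, e1 ▸ hw.2.2⟩, fun s hs => ?_⟩
      have m := XFb1_mem (XFb1_par (l1.pos v) w2) (div_pos (l0.pos v) (l1.pos v)).le hs
      rw [XFb1_gf l1 v a₀ a' x, XFb1_gf l1 v a₀ a' (Φ x)]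
      exact (a2 ((h.sbox_sat l1 b1 m g4).2 hO)).trans (b2 _ m)
    · have e0 := q.out x fun σ j k d e'' => e' ⟨σ, j, k, d, e''⟩
      rw [e0] at hw ⊢
      exact ⟨hw, fun s hs => q.out _ fun σ j k d e'' =>
        e' ⟨σ, j, k, d, (h.sbox_sat l0 hw hs g4).1 e''⟩⟩

end BEp
end
end

-- merged part: Pool.Agent.Work.MP_f0515e_an.P3.XS123
section
/-! The moves in all boxes: tame paths. -/

open Set Metric Filter Topology Function BEv
open scoped NNReal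

noncomputable section
namespace BEp

variable {ν ι : Type} {V : Set (Rn 3)} {g C : ℝ} {Cf : (Rn 3 ≃L[ℝ] Rn 3) → ℝ} {P : ι → Pc} {T : TS}
  {c : Rn 3 → ℝ} {t : ν → Rn 3 → ℝ} {mv : ν → Rn 3 → ℝ → Rn 3} {dim : ν → ℕ} {b : ν → Rn 3}
  {A : ν → Set ℝ} {e ε : ν → ℝ} {a r : ν → ℕ} {σ : Set ν} {j k : ν} {μ : Type}
  {F J : μ → Set (Rn 3)} {Ψ : Rn 3 → Rn 3}

/-- The depth in a nonempty box. -/
theorem XS123_qi (h : Api V g C Cf P T c t mv dim b) (hX : XIn V t mv g P dim A e a r F J)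
    (hd : dim j < dim k) {y : Rn 3} (hy : y ∈ sBox V t σ j k (g / 4) (g / 8)) :
    (∀ v, qi a j k v ≤ r v) ∧ ∀ v, v = j ∨ v = k → (2 : ℝ) ^ a k = 2 ^ a v * 2 ^ qi a j k v := by
  have g0 := h.g0.1
  obtain ⟨k1, k2⟩ := hX.exp y hy.1 j k (by linarith only [g0, hy, hy.2.1.1]) (by linarith only [g0, hy, hy.2.2.1.1]) hd
  have ne : k ≠ j := fun q => hd.ne' (congrArg dim q)
  refine ⟨fun v => ?_, ?_⟩
  · unfold qi
    split_ifs with q
    · rw [q]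
      omega
    · exact Nat.zero_le _
  · rintro v (rfl | rfl)
    · rw [qi, if_pos rfl, ← pow_add, Nat.add_sub_cancel' k1]
    · rw [qi, if_neg ne, pow_zero, mul_one]

/-- A tame path is mapped by the move in a box to a path which is tame in the box. -/
theorem XS123_box (h : Api V g C Cf P T c t mv dim b) (hX : XIn V t mv g P dim A e a r F J)
    (hd : dim j < dim k) {y : Rn 3} (hy : y ∈ sBox V t σ j k (g / 4) (g / 8)) {Φ : Rn 3 → Rn 3}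
    {S : Set (Rn 3)} (tr : Trk (fun ω => gN V t (cA A e (qi a j k)) (cE e (g / 4) r (qi a j k)) ω ∩
      sBox V t σ j k (g / 4) (g / 8)) (gf mv (cE e (g / 4) r (qi a j k))) Φ S)
    {γ : ℝ → Rn 3} {d D : ℝ} {Λ : ℝ → ℝ} (D0 : 0 ≤ D) (hS : ∀ s ∈ Icc (0 : ℝ) 1, γ s ∈ S)
    (hγ : PT V t mv A e (fun v => D * (1 / 2 ^ a v)) γ d Λ) :
    TameC (fun ω => gN V t (cA A e r) (cE e (g / 4) r r) ω ∩ sBox V t σ j k (g / 4) (g / 8))
      (gf mv (cE e (g / 4) r r)) (Φ ∘ γ)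
      fun ω => Jv d Λ (D * ((1 - g / 4) ^ 2 / 2 ^ (a ω.1 + r ω.1))) := by
  have g0 := h.g0
  have hA := hX.lev.half.1
  have κ0 : 0 < g / 4 := by linarith only [g0]
  have κ1 : g / 4 < 1 := by linarith only [g0]
  obtain ⟨i1, i2⟩ := XS123_qi h hX hd hy
  obtain ⟨l1, n1, n2, -, w1, w2⟩ := can_lev hA κ0 κ1 i1
  have l2 := (can_lev hA κ0 κ1 (i := r) fun _ => le_rfl).1
  have s1 := h.tameC_nest hA l1 n1 (O := sBox V t σ j k (g / 4) (g / 8)) (γ := γ) (d := d) (Λ := Λ)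
    (x := fun v => D * (1 / 2 ^ a v)) (x' := fun _ => D * ((1 - g / 4) / 2 ^ a k))
    (fun v => by positivity) (fun v ⟨_, z, z1, z2⟩ => ?_) fun s hs ω k => hγ s hs ω k.1
  · refine h.tameC_nest l1 l2 n2 (x := fun _ => D * ((1 - g / 4) / 2 ^ a k))
      (x' := fun v => D * ((1 - g / 4) ^ 2 / 2 ^ (a v + r v)))
      (fun v => mul_nonneg D0 (div_nonneg (by linarith only [g0]) (by positivity)))
      (fun v ⟨_, z, z1, z2⟩ => ?_) (tr.tameC s1 hS)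
    have := mul_le_mul_of_nonneg_left (w2 v)
      (mul_nonneg D0 (div_nonneg (sub_pos.2 κ1).le (by positivity : (0 : ℝ) ≤ 2 ^ a k)))
    refine le_of_eq_of_le ?_ this
    rw [i2 v (h.sbox_cls l2 z1 z2), pow_add]
    field_simp
  · have := mul_le_mul_of_nonneg_left (w1 v) (by positivity : 0 ≤ D * (1 / 2 ^ a v))
    refine le_of_eq_of_le ?_ this
    rw [i2 v (h.sbox_cls l1 z1 z2)]
    field_simp

theorem QG.path (q : QG V g P t mv dim A e a r F J Ψ) (h : Api V g C Cf P T c t mv dim b)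
    (hX : XIn V t mv g P dim A e a r F J) (i : μ) :
    PPar V t mv A e (cA A e r) (cE e (g / 4) r r) (fun v => 1 / 2 ^ a v)
      (fun v => (1 - g / 4) ^ 2 / 2 ^ (a v + r v)) Ψ (J i) := by
  rintro γ d Λ D - D0 hJ hγ s hs ⟨v, a'⟩ hω
  have g0 := h.g0
  have hA := hX.lev.half.1
  have κ0 : 0 < g / 4 := by linarith only [g0]
  have κ1 : g / 4 < 1 := by linarith only [g0]
  obtain ⟨l2, n2, -, -, w1, -⟩ := can_lev hA κ0 κ1 (i := r) fun _ => le_rfl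
  by_cases o : ∀ σ j k, dim j < dim k → γ s ∉ sBox V t σ j k (g / 4) (g / 8)
  · have e0 : (Ψ ∘ γ) s = γ s := q.out _ o
    rw [e0] at hω ⊢
    obtain ⟨a₀, k1, k2⟩ := n2.wall hω
    obtain ⟨I, j1, τ, j2, j3, j4⟩ := hγ s hs (v, a₀) k1
    have hw : D * ((1 - g / 4) ^ 2 / 2 ^ (a v + r v)) * e v ≤
        D * (1 / 2 ^ a v) * cE e (g / 4) r r v := by
      have e1 := hA.pos v
      refine le_trans ?_ (mul_le_mul_of_nonneg_left (w1 v) (by positivity : 0 ≤ D * (1 / 2 ^ a v)))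
      have k3 : (1 - g / 4) ^ 2 ≤ 1 - g / 4 := by linarith only [g0, mul_nonneg_of_nonpos_of_nonpos (le_of_lt (Mathlib.Tactic.Linarith.sub_neg_of_lt g0.left)) (Mathlib.Tactic.Linarith.sub_nonpos_of_le g0.right)]
      calc _ ≤ D * ((1 - g / 4) / 2 ^ (a v + r v)) * e v := by gcongr
        _ = _ := by
          rw [pow_add]
          field_simp
    obtain ⟨I', m1, m2, m3⟩ := h.tc_nest hA l2 k2 hω rfl (by positivity) hw j1 k1.2.1 j2 j3 j4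
    refine ⟨I', m1, τ, j2, m2, fun u hu => ?_⟩
    rw [comp_apply, m3 u hu]
    exact q.out _ fun σ j k hd z =>
      o σ j k hd ((h.sbox_sat l2 hω (ebas_sg j2 hu) (by linarith only [g0])).1 z)
  · simp only [not_forall, not_not] at o
    obtain ⟨σ, j, k, hd, hy⟩ := o
    obtain ⟨Φ, m, eq, qo⟩ := q.box σ j k hd ⟨_, hy⟩
    have e0 : (Ψ ∘ γ) s = (Φ ∘ γ) s := eq hy
    have y1 : (Φ ∘ γ) s ∈ sBox V t σ j k (g / 4) (g / 8) :=
      (m.image_eq subset_rfl).subset (mem_image_of_mem _ hy)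
    rw [e0] at hω ⊢
    obtain ⟨I, j1, τ, j2, j3, j4⟩ := XS123_box h hX hd hy qo.trk D0
      (fun s hs => mem_iUnion.2 ⟨i, hJ s hs⟩) hγ s hs (v, a') ⟨hω, y1⟩
    refine ⟨I, j1, τ, j2, j3, fun u hu => Eq.trans (eq ?_) (j4 u hu)⟩
    have y2 := (h.sbox_sat l2 hω (ebas_sg j2 hu) (by linarith only [g0])).2 y1
    rw [← j4 u hu] at y2
    by_contra z
    exact z (m.2 _ z ▸ y2)

end BEp
end
end

-- merged part: Pool.Agent.Work.MP_f0515e_an.P3.XS124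
section
/-! A disc inside a box. -/

open Set Metric Filter Topology Function BEv
open scoped NNReal

noncomputable section
namespace BEp

variable {n m : ℕ}

variable {ν ι : Type} {V : Set (Rn 3)} {g C : ℝ} {Cf : (Rn 3 ≃L[ℝ] Rn 3) → ℝ} {P : ι → Pc} {T : TS}
  {c : Rn 3 → ℝ} {t : ν → Rn 3 → ℝ} {mv : ν → Rn 3 → ℝ → Rn 3} {dim : ν → ℕ} {b : ν → Rn 3}
  {A : ν → Set ℝ} {e ε : ν → ℝ} {a r : ν → ℕ} {σ : Set ν} {j k : ν} {μ : Type}
  {F J : μ → Set (Rn 3)} {Ψ : Rn 3 → Rn 3}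

theorem QG.face1 (q : QG V g P t mv dim A e a r F J Ψ) (h : Api V g C Cf P T c t mv dim b)
    (hX : XIn V t mv g P dim A e a r F J) {i : μ} (hd : dim j < dim k)
    (hs : F i ⊆ sBox V t σ j k (g / 4) (g / 8)) :
    FPar V t mv A e (cA A e r) (cE e (g / 4) r r) (fun v => 1 / 2 ^ a v)
      (fun v => (1 - g / 4) ^ 2 / 2 ^ (a v + r v)) Ψ (F i) (J i) := by
  intro β d Λ D hd0 hD hβ hb hl hP
  obtain ⟨y, hy⟩ := (hX.lfm.st.dsc i).conn.nonempty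
  have hJ : J i ⊆ F i := (hX.lfm.st.dsc i).sub
  obtain ⟨g0, g1⟩ := h.g0
  obtain ⟨Φ, hΦ, e1, qo⟩ := q.box σ j k hd ⟨y, hs hy⟩
  obtain ⟨x1, x2⟩ := hX.exp y (hs hy).1 j k (lt_trans (by positivity) (hs hy).2.1.1)
    (lt_trans (by positivity) (hs hy).2.2.1.1) hd
  have hjk : k ≠ j := fun k' => by
    rw [k'] at hd
    exact lt_irrefl _ hd
  have hq : ∀ v, qi a j k v ≤ r v := fun v => by
    unfold qi
    split_ifs with k'
    · rw [k']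
      omega
    · exact Nat.zero_le _
  have hq2 : ∀ v, v = j ∨ v = k → (2 : ℝ) ^ a k = 2 ^ a v * 2 ^ qi a j k v := by
    rintro v (rfl | rfl)
    · rw [qi, if_pos rfl, ← pow_add, Nat.add_sub_cancel' x1]
    · rw [qi, if_neg hjk, pow_zero, mul_one]
  have hA := hX.lev.half.1
  obtain ⟨l1, n1, n2, -, w1, w2⟩ := can_lev hA (κ := g / 4) (by positivity) (by linarith only [g0, g1]) hq
  obtain ⟨l2, -⟩ := can_lev hA (κ := g / 4) (by positivity) (by linarith only [g0, g1]) fun v => le_refl (r v)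
  have hκ : 0 ≤ 1 - g / 4 := by linarith only [g0, g1]
  have t1 := h.tameC_nest hA l1 n1 (O := sBox V t σ j k (g / 4) (g / 8)) (γ := fun s => β ![s, s])
    (d := d) (Λ := Λ) (x := fun v => D * (1 / 2 ^ a v))
    (x' := fun _ => D * ((1 - g / 4) / 2 ^ a k)) (fun v => by positivity)
    (by
      rintro v ⟨a', z, z1, z2⟩
      rw [hq2 v (h.sbox_cls l1 z1 z2)]
      refine le_trans (le_of_eq ?_) (mul_le_mul_of_nonneg_left (w1 v) (by positivity))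
      field_simp)
    fun s hs w hw => hP s hs w hw.1
  have t2 := qo.trk.tameC t1 fun s hs => mem_iUnion.2 ⟨i, hb.mapsTo (epr_diag hs.1 hs.2)⟩
  obtain ⟨k', 𝒥, k1, k2, k3, k4, k5, k6, k7⟩ := qo.par i hs (Φ ∘ β) _ d (hΦ.1.tp.comp hβ)
    ((hΦ.1.inj.injOn.bijOn_image).comp hb)
    (fun p hp k' w hw => by
      obtain ⟨w', -, -, z1, -⟩ := qo.trk _ (mem_iUnion.2 ⟨i, hb.mapsTo hp⟩) w hw
      obtain ⟨a', z2, -⟩ := n1.wall z1.1
      exact hl p hp k' _ z2)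
    hd0 (fun w j hj => ⟨hj.1, hj.2.1, hj.2.2.1⟩) t2
  have hO : ∀ p ∈ Tri, k' p ∈ sBox V t σ j k (g / 4) (g / 8) := fun p hp =>
    (hΦ.image_eq subset_rfl).subset (image_mono hs (k2.mapsTo hp))
  obtain ⟨𝒥', m1, m2, m3⟩ := h.tame_nest l1 l2 n2 k1 (d := d) (Λ := Λ)
    (x := fun _ => D * ((1 - g / 4) / 2 ^ a k))
    (x' := fun v => D * ((1 - g / 4) ^ 2 / 2 ^ (a v + r v))) (fun p hp => (hO p hp).1)
    (fun v => by positivity)
    (by
      rintro v ⟨a', z, z1, z2⟩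
      rw [hq2 v (h.sbox_cls l2 z1 z2)]
      refine le_trans (le_of_eq ?_) (mul_le_mul_of_nonneg_left (w2 v) (by positivity))
      rw [pow_add]
      field_simp)
    k4 k5 k6
  refine ⟨k', k1, ?_, fun p hp => (k3 hp).trans (e1 (hs (hJ (hb.mapsTo hp)))).symm,
    ⟨𝒥', m1, m2, fun p hp w hw => m3 p hp w ⟨hw, hO p hp⟩⟩, fun p hp w hw => ?_⟩
  · rw [(e1.mono hs).image_eq]
    exact k2
  · obtain ⟨a', z1, -⟩ := n2.wall hw
    exact k7 p hp _ ⟨z1, hO p hp⟩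

end BEp
end
end
end

-- merged part: Pool.Agent.Work.MP_f0515e_an.P3.XChd1
section
-- merged part: Pool.Agent.Work.MP_f0515e_an.P3.XFam
section
/-! The cells off the solids. `Bd` and `In` are unions of cells (`HIn.cel`, `HIn.lat`, `Pc.Ok.rho`); `In` is open (empty unless the piece is a solid).
`up`: two pieces with at least two directions are disjoint (`rig`, `PcIn.sep`), so a point off all `In` is in the closure of the open set `Ω` minus the closed solids, hence in the closure of a top cell off the solids (`near`, `exists_top`, finiteness of cells near the point); `exists_mid`.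
`chd_ofs`: `HIn.chd`, `rig`, `sep`. `sca`: `ℓ σ = T.l (G x)` for a chosen point; two points of the image of a face have a common star (`one`, `Sma`), `Api.star`. `tvar`: `fine`, `good`, `lv`, `tlip`, `var_right` with `A = 0`. About 450 lines; two tasks. -/

open Set Metric Filter Topology Function BEv
open scoped NNReal

noncomputable section
namespace BEp

variable {n m : ℕ}

variable {ν ι : Type} {V : Set (Rn 3)} {g C : ℝ} {Cf : (Rn 3 ≃L[ℝ] Rn 3) → ℝ} {P : ι → Pc} {T : TS}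
  {c : Rn 3 → ℝ} {t : ν → Rn 3 → ℝ} {mv : ν → Rn 3 → ℝ → Rn 3} {dim : ν → ℕ} {b : ν → Rn 3}
  {Ω : Set (Rn 3)} {K : Kx Ω} {G : Rn 3 → Rn 3} {θ : Rn 3 → ℝ} {ch : Set (Rn 3) → Ch}
  {r R τ : Set (Rn 3) → ℝ}

theorem XCtx.lfm (h : XCtx V g C P T t mv dim K G Cf c b θ ch r R τ) :
    LFm V (fun F : cF K P => G '' closure F.1) fun F : cF K P => G '' (closure F.1 \ F.1) := by
  refine ⟨⟨fun F => ?_, fun F F' e => disjoint_left.2 ?_⟩,
    fun F => (image_mono (Kx.cl_sub F.2.1.1)).trans h.hin.sub, fun Z hZ hs => ?_⟩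
  · obtain ⟨u, hu, e⟩ := h.hin.ltp _ (Kx.cells_poly F.2.1.1).1 (Kx.cl_sub F.2.1.1)
    rw [e.image_eq, (e.mono sdiff_subset).image_eq]
    exact (Kx.pdsc F.2.1).image hu ((h.hin.inj.mono (Kx.cl_sub F.2.1.1)).congr e)
  · rintro _ ⟨⟨x, hx, rfl⟩, hn⟩ ⟨x', hx', e'⟩
    obtain rfl := h.hin.inj (Kx.cl_sub F'.2.1.1 hx') (Kx.cl_sub F.2.1.1 hx) e'
    exact hn ⟨x', ⟨hx, Kx.KA4_not F.2.1 F'.2.1 (fun k => e (Subtype.ext k)) hx'⟩, rfl⟩
  · exact ((h.hin.lf Z hZ hs).preimage (f := fun F : cF K P => F.1)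
      fun _ _ _ _ e => Subtype.ext e).subset fun F hF => ⟨F.2.1.1, F.2.1.2.le, hF⟩

theorem XCtx.sfm (h : XCtx V g C P T t mv dim K G Cf c b θ ch r R τ) :
    SFm V fun σ : cS K P => G '' closure σ.1 := by
  refine ⟨fun σ => ?_, fun σ => (image_mono (Kx.cl_sub σ.2.1)).trans h.hin.sub, fun Z hZ hs => ?_⟩
  · obtain ⟨u, hu, e⟩ := h.hin.ltp _ (Kx.cells_poly σ.2.1).1 (Kx.cl_sub σ.2.1)
    have hp : PC 2 (closure σ.1) := ⟨{affineSpan ℝ σ.1}, finite_singleton _, by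
      rintro _ rfl
      rw [direction_affineSpan]
      exact σ.2.2.1, fun x hx => ⟨_, rfl, KA2_cl _ hx⟩⟩
    rw [e.image_eq]
    exact ⟨(Kx.cells_poly σ.2.1).image hu, hp.image (Kx.cells_poly σ.2.1).1.isBounded hu⟩
  · exact ((h.hin.lf Z hZ hs).preimage (f := fun σ : cS K P => σ.1)
      fun _ _ _ _ e => Subtype.ext e).subset fun σ hσ => ⟨σ.2.1, σ.2.2.1, hσ⟩

theorem XFam_ball [Finite ι] (h : XCtx V g C P T t mv dim K G Cf c b θ ch r R τ)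
    {σ : Set (Rn 3)} (hσ : σ ∈ K.cells) (hd : dm σ ≤ 2) (ho : Ofs P σ) :
    ∃ y ∈ T.Good, G '' closure σ ⊆ ball y (T.mrg y) := by
  obtain ⟨F, hF, hF', hs⟩ := h.up hσ hd ho
  obtain ⟨y, hy, k⟩ := h.hin.fine F hF hF'
  exact ⟨y, hy, (image_mono (closure_minimal hs isClosed_closure)).trans k⟩

theorem XCtx.sma [Finite ι] (h : XCtx V g C P T t mv dim K G Cf c b θ ch r R τ)
    {σ : Set (Rn 3)} (hσ : σ ∈ K.cells) (hd : dm σ ≤ 2) (ho : Ofs P σ) :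
    Sma t (g / 32) (G '' closure σ) := by
  obtain ⟨y, hy, k⟩ := XFam_ball h hσ hd ho
  obtain ⟨-, -, -, ⟨i, j, k1⟩, k2⟩ := h.api.good y hy
  exact ⟨⟨i, j, fun v a1 a2 z hz => k1 v a1 a2 z (k hz)⟩,
    fun v z hz z' hz' => k2 v z (k hz) z' (k hz')⟩

theorem XCtx.sca [Finite ι] (h : XCtx V g C P T t mv dim K G Cf c b θ ch r R τ) :
    ∃ ℓ, Sca C P T K G ℓ := by
  have key : ∀ σ : Set (Rn 3), ∃ l : ℝ, 0 < l ∧ (σ ∈ K.cells → dm σ ≤ 2 → Ofs P σ →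
      ∀ x ∈ closure σ, l ≤ C * T.l (G x) ∧ T.l (G x) ≤ C * l) := by
    intro σ
    by_cases hσ : σ ∈ K.cells
    · obtain ⟨x₀, h0⟩ := Kx.cells_ne hσ
      have hV : ∀ x ∈ closure σ, G x ∈ V := fun x hx => h.hin.sub ⟨x, Kx.cl_sub hσ hx, rfl⟩
      have v0 := hV _ (subset_closure h0)
      refine ⟨T.l (G x₀), h.api.l0 _ v0, fun _ hd ho x hx => ?_⟩
      obtain ⟨v, hv⟩ := h.api.one _ v0
      have h1 := abs_le.1 ((h.sma hσ hd ho).2 v _ ⟨x, hx, rfl⟩ _ ⟨x₀, subset_closure h0, rfl⟩)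
      have h2 : 0 < t v (G x) := by linarith only [hv, h1, h, h1.1, h.api.g0.2]
      have h3 : 0 < t v (G x₀) := by rw [hv]; exact one_pos
      exact ⟨h.api.star _ (hV x hx) _ v0 ⟨v, h2, h3⟩, h.api.star _ v0 _ (hV x hx) ⟨v, h3, h2⟩⟩
    · exact ⟨1, one_pos, fun k => absurd k hσ⟩
  choose ℓ h1 h2 using key
  exact ⟨ℓ, h1, h2⟩

theorem XFam_clq (g s s' : ℝ) : |clq g s - clq g s'| ≤ |s - s'| := by
  refine (abs_max_sub_max_le_max _ _ _ _).trans (max_le ?_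
    ((abs_min_sub_min_le_max _ _ _ _).trans (max_le le_rfl ?_))) <;>
  · rw [sub_self, abs_zero]
    exact abs_nonneg _

theorem XCtx.tvar [Finite ι] (h : XCtx V g C P T t mv dim K G Cf c b θ ch r R τ) {x y : Rn 3}
    (he : K.Edge x y) (ho : Ofs P (openSegment ℝ x y)) {z : Rn 3} (hz : z ∈ V)
    (k : ∃ u ∈ segment ℝ x y, ‖G u - z‖ ≤ 2 * T.l z) (v : ν) :
    eVariationOn (fun s => clq g (t v (G (seg x y s)))) (Icc 0 1) ≤
      ENNReal.ofReal (c z / T.l z) * vr G x y := by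
  obtain ⟨y₀, hy, hb⟩ := XFam_ball h he.2 (he.dm.trans_le one_le_two) ho
  rw [he.cl] at hb
  obtain ⟨g1, g2, g3, -⟩ := h.api.good y₀ hy
  obtain ⟨u, hu, k⟩ := k
  have hC := h.api.C1
  have lz := h.api.l0 z hz
  have bu := hb ⟨u, hu, rfl⟩
  have m0 : 0 < T.mrg y₀ := pos_of_mem_ball bu
  have nu : ‖G u - y₀‖ < T.mrg y₀ := mem_ball_iff_norm.1 bu
  have c2 : 1 ≤ C ^ 2 := one_le_pow₀ hC
  have l1 := (h.api.lv y₀ g1 _ (g3 bu) (by linarith only [g2, nu, m0, c2, mul_nonneg_of_nonpos_of_nonpos (Mathlib.Tactic.Linarith.sub_nonpos_of_le (sq_nonneg C)) (le_of_lt (Mathlib.Tactic.Linarith.sub_neg_of_lt m0)), mul_nonneg_of_nonpos_of_nonpos (le_of_lt (Mathlib.Tactic.Linarith.sub_neg_of_lt m0)) (Mathlib.Tactic.Linarith.sub_nonpos_of_le c2)])).2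
  have l2 := (h.api.lv z hz _ (g3 bu) (by linarith)).1
  have l3 : 64 * T.mrg y₀ ≤ T.l z := by
    have : C ^ 2 * (64 * T.mrg y₀) ≤ C ^ 2 * T.l z := by linarith only [g2, l1, l2, hC, mul_nonneg_of_nonpos_of_nonpos (Mathlib.Tactic.Linarith.sub_nonpos_of_le hC) (Mathlib.Tactic.Linarith.sub_nonpos_of_le l2)]
    exact le_of_mul_le_mul_left this (by positivity)
  have hm : ∀ s ∈ Icc (0 : ℝ) 1, seg x y s ∈ segment ℝ x y := fun s hs =>
    seg_image x y ▸ mem_image_of_mem _ hs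
  have hc : ∀ s ∈ Icc (0 : ℝ) 1, ContinuousAt (fun s => G (seg x y s)) s := fun s hs =>
    ContinuousAt.comp (f := seg x y) ((h.hin.ltp.contOn h.hin.opn).continuousAt
      (h.hin.opn.mem_nhds (K.sk_sub 1 (he.seg_sub (hm s hs))))) (tp_seg x y).continuous.continuousAt
  have hl : ∀ s ∈ Icc (0 : ℝ) 1, LL (t v) (G (seg x y s)) (c z / T.l z) := fun s hs => by
    have bs := hb ⟨_, hm s hs, rfl⟩
    refine h.api.tlip z hz _ (g3 bs) ?_ v
    have e1 := norm_sub_le_norm_sub_add_norm_sub (G (seg x y s)) (G u) z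
    have e2 := norm_sub_le_norm_sub_add_norm_sub (G (seg x y s)) y₀ (G u)
    rw [norm_sub_rev y₀] at e2
    linarith only [k, m0, nu, l3, e1, e2, bs, mem_ball_iff_norm.1 bs]
  have hq : Continuous (clq g) := continuous_const.max (continuous_id.min continuous_const)
  have key := var_right (h := fun s => clq g (t v (G (seg x y s)))) (e := fun s => G (seg x y s))
    (A := 0) (B := c z / T.l z)
    (fun s hs => (hq.continuousAt.comp (ContinuousAt.comp (f := fun s => G (seg x y s))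
      (hl s hs).continuousAt (hc s hs))).continuousWithinAt) le_rfl
    (div_nonneg (zero_le_one.trans (h.api.c1 z).1) lz.le) fun s hs => by
      have a1 : Tendsto (fun s' => (G (seg x y s'), G (seg x y s))) (𝓝[>] s)
          (𝓝 (G (seg x y s), G (seg x y s))) :=
        ((hc s (Ico_subset_Icc_self hs)).tendsto.mono_left nhdsWithin_le_nhds).prodMk_nhds
          tendsto_const_nhds
      filter_upwards [a1.eventually (hl s (Ico_subset_Icc_self hs))] with s' hs'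
      rw [zero_mul, zero_add]
      exact (XFam_clq _ _ _).trans hs'
  rwa [ENNReal.ofReal_zero, zero_add] at key

theorem edge_small [Finite ι] (K : Kx Ω) (B : ι → Rn 3 → Rn 3 → ℝ) (B' : Set (Rn 3) → ℝ)
    (hτ : ∀ σ, 0 < τ σ) : ∃ δ : Set (Rn 3) → ℝ, (∀ σ, 0 < δ σ ∧ B' σ * δ σ ≤ τ σ) ∧
      ∀ i x y, K.Edge x y → B i x y * δ (openSegment ℝ x y) ≤ τ (openSegment ℝ x y) := by
  have key : ∀ σ : Set (Rn 3), ∃ d : ℝ, (0 < d ∧ B' σ * d ≤ τ σ) ∧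
      ∀ i x y, K.Edge x y → openSegment ℝ x y = σ → B i x y * d ≤ τ σ := by
    intro σ
    obtain ⟨M, hM⟩ := (((finite_univ (α := ι)).prod (Kx.KA2_fib K σ)).image
      fun q => B q.1 q.2.1 q.2.2).bddAbove
    have h0 : 0 < max (max M (B' σ)) 1 := lt_max_of_lt_right one_pos
    have h1 : ∀ a, a ≤ max M (B' σ) → a * (τ σ / max (max M (B' σ)) 1) ≤ τ σ := fun a ha => by
      rw [mul_div_assoc', div_le_iff₀ h0, mul_comm]
      exact mul_le_mul_of_nonneg_left (le_max_of_le_left ha) (hτ σ).le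
    exact ⟨_, ⟨div_pos (hτ σ) h0, h1 _ (le_max_right _ _)⟩, fun i x y he e =>
      h1 _ (le_max_of_le_left (hM ⟨(i, x, y), ⟨mem_univ _, he, e⟩, rfl⟩))⟩
  choose δ h1 h2 using key
  exact ⟨δ, h1, fun i x y he => h2 _ i x y he rfl⟩

end BEp
end
end

-- merged part: Pool.Agent.Work.MP_f0515e_an.P3.XS12
section
/-! The moves in all boxes. Boxes are ordered by `dim j < dim k` (`Api.col`); in the box `(σ, j, k)` the class `j` is subdivided to the depth `a k - a j` (`qi`), so that both classes carry the weight `(1 - g / 4) / 2 ^ a k`.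
`Api.qg`: index the boxes by the triples with `j, k ∉ σ` and nonempty box; they are disjoint and locally finite (`lf1`); `boxQ` with `can_lev`, `XLev.half`; `gm_glue`. `sBox σ j k` depends on `σ \ {j, k}` only.
`QG.gh`: in a box `iw_nest`; off the boxes the fibre is fixed (`sbox_sat`). `QG.path`: at a point in a box `tameC_nest` with `O` from the base to the level of the box (constant weight), `Trk.tameC`, `tameC_nest` to the finest level; the interval is mapped into the fibre, which lies in `O`. Off the boxes `tc_nest`.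
`QG.face`: a disc inside a box: as in `QG.path` for the diagonal, `QOut.par`, `tame_nest`. Otherwise the disc (connected) has a point off all boxes, misses all inner boxes (`sbox_in`), so `One (g / 2)` (`sbox_of`) and `Trk1`. About 600 lines; four tasks. -/

open Set Metric Filter Topology Function BEv
open scoped NNReal

noncomputable section
namespace BEp

variable {n m : ℕ}

variable {ν ι : Type} {V : Set (Rn 3)} {g C : ℝ} {Cf : (Rn 3 ≃L[ℝ] Rn 3) → ℝ} {P : ι → Pc} {T : TS}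
  {c : Rn 3 → ℝ} {t : ν → Rn 3 → ℝ} {mv : ν → Rn 3 → ℝ → Rn 3} {dim : ν → ℕ} {b : ν → Rn 3}
  {A : ν → Set ℝ} {e ε : ν → ℝ} {a r : ν → ℕ} {σ : Set ν} {j k : ν} {μ : Type}
  {F J : μ → Set (Rn 3)} {Ψ : Rn 3 → Rn 3}

theorem Api.stage12 (h : Api V g C Cf P T c t mv dim b) (hX : XIn V t mv g P dim A e a r F J) :
    ∃ Ψ, S12 V t mv g P A e a r F J Ψ := by
  obtain ⟨Ψ, q⟩ := h.qg hX
  refine ⟨Ψ, q.gm, (q.gh h hX).1, q.fix, (q.gh h hX).2, q.path h hX, fun i => ?_⟩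
  by_cases e' : ∃ σ j k, dim j < dim k ∧ F i ⊆ sBox V t σ j k (g / 4) (g / 8)
  · obtain ⟨σ, j, k, hd, hs⟩ := e'
    obtain ⟨z, hz⟩ := (PCel.conn (hX.lfm.st.dsc i)).1
    obtain ⟨-, ⟨a1, a2⟩, ⟨b1, b2⟩, -⟩ := hs hz
    refine .inl ⟨fun o => ?_, q.face1 h hX hd hs⟩
    rcases o z hz j k (fun e => hd.ne (congrArg dim e)) with o | o <;>
      exact o.not_gt (lt_min (by assumption) (by linarith only [a2, b2]))
  · exact .inr (q.face2 h hX fun σ j k d s => e' ⟨σ, j, k, d, s⟩)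

end BEp
end
end

-- merged part: Pool.Agent.Work.MP_f0515e_an.P3.XHpA2
section
/-! Choice of levels off finitely many lines. -/

open Set

noncomputable section
namespace BEp

variable {ν : Type}

theorem XHpA2_step {B : ν → Set ℝ} (hB : ∀ v, (B v).Finite) {θ : ν → ℝ} (hθ : ∀ v, 0 < θ v)
    {𝓛 : ν → ν → Set (ℝ × ℝ × ℝ)} (h1 : ∀ j k, (𝓛 j k).Finite)
    (h2 : ∀ j k, ∀ l ∈ 𝓛 j k, l.1 ≠ 0 ∨ l.2.1 ≠ 0) (h3 : ∀ j, {k | (𝓛 j k).Nonempty}.Finite)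
    (h4 : ∀ k, {j | (𝓛 j k).Nonempty}.Finite) (v : ν) (f : ν → ℝ → ℝ) (p : ℝ) :
    ∃ x, |x - p| ≤ θ v ∧ (∀ k, ∀ l ∈ 𝓛 v k, l.2.1 = 0 → l.1 * x ≠ l.2.2) ∧
      ∀ j, ∀ q ∈ B j, ∀ l ∈ 𝓛 j v, l.2.1 ≠ 0 → l.1 * f j q + l.2.1 * x ≠ l.2.2 := by
  have z1 : (⋃ k ∈ {k | (𝓛 v k).Nonempty}, (fun l => l.2.2 / l.1) '' 𝓛 v k).Finite :=
    (h3 v).biUnion fun k _ => (h1 v k).image _
  have z2 : (⋃ j ∈ {j | (𝓛 j v).Nonempty}, ⋃ q ∈ B j,
      (fun l => (l.2.2 - l.1 * f j q) / l.2.1) '' 𝓛 j v).Finite :=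
    (h4 v).biUnion fun j _ => (hB j).biUnion fun q _ => (h1 j v).image _
  obtain ⟨x, hx, hn⟩ := (Icc_infinite (by linarith [hθ v] : p - θ v < p + θ v)).exists_notMem_finite
    (z1.union z2)
  refine ⟨x, abs_le.2 ⟨by linarith [hx.1], by linarith [hx.2]⟩, fun k l hl e q => hn (Or.inl ?_),
    fun j q hq l hl e r => hn (Or.inr ?_)⟩
  · have a : l.1 ≠ 0 := (h2 v k l hl).resolve_right (not_not.2 e)
    refine mem_iUnion₂.2 ⟨k, ⟨l, hl⟩, l, hl, ?_⟩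
    show l.2.2 / l.1 = x
    rw [← q, mul_div_cancel_left₀ x a]
  · refine mem_iUnion₂.2 ⟨j, ⟨l, hl⟩, mem_iUnion₂.2 ⟨q, hq, l, hl, ?_⟩⟩
    show (l.2.2 - l.1 * f j q) / l.2.1 = x
    rw [← r, add_sub_cancel_left, mul_div_cancel_left₀ x e]

/-- Recursion on the colour. -/
theorem XHpA2_rec {β : Type} (dim : ν → ℕ) (F : ν → (ν → β) → β) (o : ν → β) :
    ∃ α : ν → β, ∀ k, ∃ f, α k = F k f ∧ ∀ j, dim j < dim k → f j = α j := by
  let γ : ℕ → ν → β := fun n =>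
    Nat.rec (fun v => F v o) (fun n r v => if dim v ≤ n then r v else F v r) n
  have st : ∀ v n, dim v ≤ n → γ n v = γ (dim v) v := by
    intro v n hn
    induction n, hn using Nat.le_induction with
    | base => rfl
    | succ n hn ih => exact (if_pos hn).trans ih
  refine ⟨fun v => γ (dim v) v, fun k => ?_⟩
  rcases e : dim k with _ | n
  · exact ⟨o, by simp only [e]; rfl, fun j hj => absurd hj (Nat.not_lt_zero _)⟩
  · refine ⟨γ n, ?_, fun j hj => st j n (by omega)⟩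
    simp only [e]
    exact if_neg (by omega)

theorem lev_choice {B : ν → Set ℝ} (hB : ∀ v, (B v).Finite) {θ : ν → ℝ} (hθ : ∀ v, 0 < θ v)
    (dim : ν → ℕ) {𝓛 : ν → ν → Set (ℝ × ℝ × ℝ)} (h1 : ∀ j k, (𝓛 j k).Finite)
    (h2 : ∀ j k, ∀ l ∈ 𝓛 j k, l.1 ≠ 0 ∨ l.2.1 ≠ 0) (h3 : ∀ j, {k | (𝓛 j k).Nonempty}.Finite)
    (h4 : ∀ k, {j | (𝓛 j k).Nonempty}.Finite) :
    ∃ α : ν → ℝ → ℝ, (∀ v p, |α v p - p| ≤ θ v) ∧ ∀ j k, dim j < dim k → ∀ p ∈ B j, ∀ q ∈ B k,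
      ∀ l ∈ 𝓛 j k, l.1 * α j p + l.2.1 * α k q ≠ l.2.2 := by
  choose F f1 f2 f3 using XHpA2_step hB hθ h1 h2 h3 h4
  obtain ⟨α, hα⟩ := XHpA2_rec dim F fun _ _ => 0
  refine ⟨α, fun v p => ?_, fun j k hjk p hp q _ l hl => ?_⟩
  · obtain ⟨f, e, -⟩ := hα v
    rw [e]
    exact f1 v f p
  · by_cases z : l.2.1 = 0
    · obtain ⟨f, e, -⟩ := hα j
      rw [z, zero_mul, add_zero, e]
      exact f2 j f p k l hl z
    · obtain ⟨f, e, r⟩ := hα k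
      rw [e, ← r j hjk]
      exact f3 k f q j p hp l hl z

end BEp
end
end

-- merged part: Pool.Agent.Work.MP_f0515e_an.P3.XHpA
section
/-! Handle position in the double zones.
`hpA_box`: chart `χ` of `Api.box`; the family consists of the preimages of the finitely many `S i` which meet `χ '' mBox g` and of the square `{x 2 = 0, x 0, x 1 ∈ [0, 1]}`; `ht1`, `ht2` with `u = -g / 8`, `v = g / 8` (a point of `S i` with `t j`, `t k` near `a`, `a'` has `|x 2| ≤ g / 32` by `Sma` and the third clause of `Api.box`), radius small by uniform continuity of the finitely many `t v ∘ χ`; conjugate by `χ`. `mv j`, `mv k` are horizontal moves in the chart (`ext`, `mvt`).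
`lev_choice`: induction on the colour. `hpA`: boxes `(σ, j, k)` with `dim j < dim k`, `j, k ∉ σ`; for each pair the union of the lines over the finitely many `σ`; supports of radius `min (g / 128) (min (θ j / 4) (θ k / 4))`; `gm_glue` (`sbox_uq`, `lf1`, `lf2`); `ζ v` is a minimum over the finitely many tubes of `v`. A point of `Φ '' S i` in a double zone lies in the box with `σ = {v | 1 / 2 < t v z}`. About 550 lines; three tasks. -/

open Set Metric Filter Topology Function BEv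
open scoped NNReal

noncomputable section
namespace BEp

variable {n m : ℕ}

variable {ν ι : Type} {V : Set (Rn 3)} {g C : ℝ} {Cf : (Rn 3 ≃L[ℝ] Rn 3) → ℝ} {P : ι → Pc} {T : TS}
  {c : Rn 3 → ℝ} {t : ν → Rn 3 → ℝ} {mv : ν → Rn 3 → ℝ → Rn 3} {dim : ν → ℕ} {b : ν → Rn 3}
  {μ : Type} {S : μ → Set (Rn 3)}

theorem Api.hpA_box (h : Api V g C Cf P T c t mv dim b) (hS : SFm V S)
    (hs : ∀ i, Sma t (g / 32) (S i)) {σ : Set ν} {j k : ν} (hjk : j ≠ k)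
    (hne : (sBox V t σ j k (g / 4) (g / 8)).Nonempty) :
    ∃ 𝓛 : Set (ℝ × ℝ × ℝ), 𝓛.Finite ∧ (∀ l ∈ 𝓛, l.1 ≠ 0 ∨ l.2.1 ≠ 0) ∧
      ∀ a ∈ Ioo g (1 - g), ∀ a' ∈ Ioo g (1 - g), (∀ l ∈ 𝓛, l.1 * a + l.2.1 * a' ≠ l.2.2) →
      ∀ ρ > 0, ∃ ε > 0, ∃ Φ,
        Mv {y | y ∈ sBox V t σ j k (g / 4) (g / 8) ∧ |t j y - a| < ρ ∧ |t k y - a'| < ρ} Φ ∧
        (∀ y ∈ V, t j (Φ y) = t j y ∧ t k (Φ y) = t k y ∧ (∀ v, |t v (Φ y) - t v y| ≤ ρ) ∧
          (y ∈ BP P ∨ Φ y ∈ BP P → XEq t y (Φ y))) ∧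
        ∀ i, ∀ z ∈ Φ '' S i, z ∈ sBox V t σ j k (g / 4) (g / 8) → |t j z - a| ≤ ε →
          |t k z - a'| ≤ ε → ∀ s, (|s - a| ≤ ε → mv j z s ∈ Φ '' S i) ∧
            (|s - a'| ≤ ε → mv k z s ∈ Φ '' S i) := by
  exact XA1_main h hS hs hjk hne

/-- Indices of the boxes. -/
def XHpAB (V : Set (Rn 3)) (g : ℝ) (t : ν → Rn 3 → ℝ) (dim : ν → ℕ) : Type :=
  {q : Set ν × ν × ν // dim q.2.1 < dim q.2.2 ∧ q.2.1 ∉ q.1 ∧ q.2.2 ∉ q.1 ∧
    (sBox V t q.1 q.2.1 q.2.2 (g / 4) (g / 8)).Nonempty}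

theorem XHpA_f1 (h : Api V g C Cf P T c t mv dim b) {K : Set (Rn 3)} (hK : IsCompact K)
    (hs : K ⊆ V) : {q : XHpAB V g t dim |
      (sBox V t q.1.1 q.1.2.1 q.1.2.2 (g / 4) (g / 8) ∩ K).Nonempty}.Finite := by
  have hL := h.lf1 K hK hs
  refine ((hL.powerset.prod (hL.prod hL)).preimage Subtype.val_injective.injOn).subset ?_
  rintro ⟨⟨σ, j, k⟩, h1, h2, h3, h4⟩ ⟨y, ⟨a0, a1, a2, ρ, a3, a4⟩, hy⟩
  have := h.g0
  refine ⟨fun v hv => ⟨y, hy, ?_⟩, ⟨y, hy, by linarith only [h1, h2, h3, h4, this, a1, a1.1]⟩, y, hy, by linarith only [h1, h2, h3, h4, this, a2, a2.1]⟩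
  have := (a4 v (by
    rintro (rfl | rfl)
    exacts [h2 hv, h3 hv])).1 hv
  linarith

theorem XHpA_f2 (h : Api V g C Cf P T c t mv dim b) (v : ν) :
    {q : XHpAB V g t dim | q.1.2.1 = v ∨ q.1.2.2 = v}.Finite := by
  obtain ⟨K, k1, k2, k3⟩ := h.lf2 v
  refine (XHpA_f1 h k1 k2).subset fun q hq => ?_
  obtain ⟨y, hy⟩ := q.2.2.2.2
  refine ⟨y, hy, k3 y hy.1 ?_⟩
  have := h.g0.1
  rcases hq with rfl | rfl
  · linarith only [this, hy, hy.2.1.1]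
  · linarith [hy.2.2.1.1]

theorem XHpA_fin {β : Type} {A B : β → Set ℝ} (hA : ∀ q, (A q).Finite) (hB : ∀ q, (B q).Finite)
    {Q : Set β} (hQ : Q.Finite) :
    {r : {r : β × ℝ × ℝ // r.2.1 ∈ A r.1 ∧ r.2.2 ∈ B r.1} | r.1.1 ∈ Q}.Finite := by
  refine ((hQ.biUnion fun q _ => (finite_singleton q).prod ((hA q).prod (hB q))).preimage
    Subtype.val_injective.injOn).subset fun r hr => ?_
  exact mem_biUnion hr ⟨rfl, r.2⟩

theorem XHpA_maps {W : Set (Rn 3)} {Φ : Rn 3 → Rn 3} (h : Mv W Φ) (y : Rn 3) :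
    Φ y ∈ W ↔ y ∈ W := by
  constructor
  · intro k
    by_contra l
    exact l (h.2 y l ▸ k)
  · intro k
    exact h.image_eq subset_rfl ▸ mem_image_of_mem Φ k

theorem XHpA_img {W Z : Set (Rn 3)} {Φ Ψ : Rn 3 → Rn 3} (h : Mv W Φ) (hΨ : GM V Ψ) (hW : W ⊆ V)
    (hZ : Z ⊆ V) (e : EqOn Ψ Φ W) {x : Rn 3} (hx : x ∈ W) : x ∈ Ψ '' Z ↔ x ∈ Φ '' Z := by
  constructor
  · rintro ⟨y, hy, rfl⟩
    obtain ⟨y', e'⟩ := h.1.1.2 (Ψ y)
    have k := (XHpA_maps h y').1 (e' ▸ hx)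
    exact ⟨y, hy, hΨ.bij.injOn (hW k) (hZ hy) ((e k).trans e') ▸ e'⟩
  · rintro ⟨y, hy, rfl⟩
    exact ⟨y, hy, e ((XHpA_maps h y).1 hx)⟩

theorem XHpA_lev {B : ν → Set ℝ} {θ : ν → ℝ} (hB : XLev g B θ) {v : ν} {p s : ℝ} (hp : p ∈ B v)
    (hs : |s - p| ≤ θ v) : s ∈ Ioo g (1 - g) := by
  have := hB.inn v p hp
  have := abs_le.1 hs
  constructor <;> linarith

theorem XHpA_uq {B : ν → Set ℝ} {θ : ν → ℝ} (hB : XLev g B θ) {v : ν} {p q s : ℝ} (hp : p ∈ B v)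
    (hq : q ∈ B v) (h1 : |s - p| ≤ θ v) (h2 : |s - q| ≤ θ v) : p = q := by
  have := abs_le.1 h1
  have := abs_le.1 h2
  rcases lt_trichotomy p q with k | k | k
  · linarith [hB.dis v p hp q hq k]
  · exact k
  · linarith [hB.dis v q hq p hp k]

theorem XHpA_box (h : Api V g C Cf P T c t mv dim b) {Z : Set (Rn 3)} (hs : Sma t (g / 32) Z)
    {y z : Rn 3} (hy : y ∈ Z) (hz : z ∈ V) (e : ∀ v, |t v z - t v y| ≤ g / 128) {j k : ν}
    (hjk : j ≠ k) (hj : t j z ∈ Ioo g (1 - g)) (hk : t k z ∈ Ioo g (1 - g)) :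
    z ∈ sBox V t ({v | 1 / 2 < t v z} \ {j, k}) j k (g / 4) (g / 8) := by
  have g0 := h.g0
  obtain ⟨⟨j', k', a⟩, -⟩ := hs
  have m : ∀ v, t v z ∈ Ioo g (1 - g) → v = j' ∨ v = k' := fun v hv => by
    by_contra l
    have := abs_le.1 (e v)
    rcases min_le_iff.1 (a v (not_or.1 l).1 (not_or.1 l).2 y hy) with r | r <;>
      linarith only [g0, this, r, hv, hv.1, hv.2]
  refine ⟨hz, ⟨by linarith only [g0, hj, hj.1], by linarith only [g0, hj, hj.2]⟩, ⟨by linarith only [g0, hk, hk.1], by linarith only [g0, hk, hk.2]⟩,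
    g / 16, by linarith, fun v hv => ?_⟩
  have n := not_or.1 hv
  have d : dev (t v y) ≤ g / 32 := by
    rcases m j hj with rfl | rfl <;> rcases m k hk with rfl | rfl
    exacts [(hjk rfl).elim, a v n.1 n.2 y hy, a v n.2 n.1 y hy, (hjk rfl).elim]
  have := abs_le.1 (e v)
  refine ⟨fun l => ?_, fun l => ?_⟩
  · have l1 : 1 / 2 < t v z := l.1
    rcases min_le_iff.1 d with r | r <;> linarith only [g0, this, l1, r]
  · have l1 : t v z ≤ 1 / 2 := not_lt.1 fun l1 => l ⟨l1, hv⟩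
    rcases min_le_iff.1 d with r | r <;> linarith only [g0, this, r, l1]

theorem XHpA_mv (h : Api V g C Cf P T c t mv dim b) {σ : Set ν} {j k v : ν} {z : Rn 3} {s : ℝ}
    (hz : z ∈ sBox V t σ j k (g / 4) (g / 8)) (hv : v = j ∨ v = k) (hs : s ∈ Ioo g (1 - g)) :
    mv v z s ∈ sBox V t σ j k (g / 4) (g / 8) ∧ t v (mv v z s) = s ∧
      ∀ w, w ≠ v → t w (mv v z s) = t w z := by
  have g0 := h.g0
  obtain ⟨z1, z2, z3, ρ, z4, z5⟩ := hz
  obtain ⟨a1, a2, a3⟩ := h.mvt v z z1 s (by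
    rcases hv with rfl | rfl
    exacts [⟨by linarith only [g0, z2, z2.1], by linarith only [g0, z2, z2.2]⟩, ⟨by linarith only [g0, z3, z3.1], by linarith only [g0, z3, z3.2]⟩])
    ⟨by linarith [hs.1], by linarith [hs.2]⟩
  have a : ∀ w, t w z ∈ Ioo (g / 4) (1 - g / 4) → t w (mv v z s) ∈ Ioo (g / 4) (1 - g / 4) := by
    intro w hw
    by_cases e : w = v
    · rw [e, a2]
      exact ⟨by linarith only [g0, hs, hs.1], by linarith only [g0, hs, hs.2]⟩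
    · rwa [a3 w e]
  refine ⟨⟨a1, a j z2, a k z3, ρ, z4, fun w hw => ?_⟩, a2, a3⟩
  rw [a3 w fun e => hw (e ▸ hv)]
  exact z5 w hw

theorem Api.hpA (h : Api V g C Cf P T c t mv dim b) (hS : SFm V S)
    (hs : ∀ i, Sma t (g / 32) (S i)) {B : ν → Set ℝ} {θ : ν → ℝ} (hB : XLev g B θ) :
    ∃ (α : ν → ℝ → ℝ) (ζ : ν → ℝ) (Φ : Rn 3 → Rn 3), (∀ v p, |α v p - p| ≤ θ v / 4) ∧
      (∀ v, 0 < ζ v ∧ ζ v ≤ θ v / 4) ∧ GM V Φ ∧
      (∀ y ∈ V, (∀ v, |t v (Φ y) - t v y| ≤ g / 128 ∧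
        (g / 2 < dev (t v (Φ y)) → t v (Φ y) = t v y)) ∧
        (y ∈ BP P ∨ Φ y ∈ BP P → XEq t y (Φ y))) ∧
      ∀ i, DZ t mv (fun v => α v '' B v) ζ (Φ '' S i) := by
  have g0 := h.g0
  choose 𝓛 L1 L2 L3 using fun q : XHpAB V g t dim =>
    h.hpA_box hS hs (fun e => q.2.1.ne (congrArg dim e)) q.2.2.2.2
  obtain ⟨α, α1, α2⟩ := lev_choice hB.fin (θ := fun v => θ v / 4)
    (fun v => by linarith only [hB, hB.pos v]) dim
    (𝓛 := fun j k => ⋃ q ∈ {q : XHpAB V g t dim | q.1.2 = (j, k)}, 𝓛 q)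
    (fun j k => ((XHpA_f2 h j).subset fun q hq => Or.inl (congrArg Prod.fst hq)).biUnion
      fun q _ => L1 q)
    (fun j k l hl => by
      obtain ⟨q, -, hq⟩ := mem_iUnion₂.1 hl
      exact L2 q l hq)
    (fun j => ((XHpA_f2 h j).image fun q => q.1.2.2).subset fun k ⟨l, hl⟩ => by
      obtain ⟨q, hq, -⟩ := mem_iUnion₂.1 hl
      exact ⟨q, Or.inl (congrArg Prod.fst hq), congrArg Prod.snd hq⟩)
    (fun k => ((XHpA_f2 h k).image fun q => q.1.2.1).subset fun j ⟨l, hl⟩ => by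
      obtain ⟨q, hq, -⟩ := mem_iUnion₂.1 hl
      exact ⟨q, Or.inr (congrArg Prod.snd hq), congrArg Prod.fst hq⟩)
  have near : ∀ {v p s r}, |s - α v p| ≤ r → r ≤ θ v / 4 → |s - p| ≤ θ v := fun {v p s r} a1 a2 => by
    have := abs_sub_le s (α v p) p
    linarith only [a1, a2, this, α1, hB, α1 v p, hB.pos v]
  have αm : ∀ {v p}, p ∈ B v → α v p ∈ Ioo g (1 - g) := fun {v p} hp =>
    XHpA_lev hB hp (by linarith only [α1, hB, α1 v p, hB.pos v])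
  obtain ⟨ρ, ρ0, ρ1, ρ2, ρ3⟩ : ∃ ρ : XHpAB V g t dim → ℝ, (∀ q, 0 < ρ q) ∧ (∀ q, ρ q ≤ g / 128) ∧
      (∀ q, ρ q ≤ θ q.1.2.1 / 4) ∧ ∀ q, ρ q ≤ θ q.1.2.2 / 4 :=
    ⟨fun q => min (g / 128) (min (θ q.1.2.1 / 4) (θ q.1.2.2 / 4)), fun q => lt_min (by linarith)
      (lt_min (by linarith only [hB, hB.pos q.1.2.1]) (by linarith only [hB, hB.pos q.1.2.2])),
      fun _ => min_le_left _ _, fun _ => (min_le_right _ _).trans (min_le_left _ _),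
      fun _ => (min_le_right _ _).trans (min_le_right _ _)⟩
  choose ε ε0 Φ Φ1 Φ2 Φ3 using fun r : {r : XHpAB V g t dim × ℝ × ℝ //
      r.2.1 ∈ B r.1.1.2.1 ∧ r.2.2 ∈ B r.1.1.2.2} =>
    L3 r.1.1 _ (αm r.2.1) _ (αm r.2.2)
      (fun l hl => α2 _ _ r.1.1.2.1 _ r.2.1 _ r.2.2 l (mem_biUnion (rfl : r.1.1.1.2 = _) hl)) _
      (ρ0 r.1.1)
  have fin := fun Q => XHpA_fin (β := XHpAB V g t dim) (A := fun q => B q.1.2.1)
    (B := fun q => B q.1.2.2) (fun _ => hB.fin _) (fun _ => hB.fin _) (Q := Q)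
  obtain ⟨Ψ, Ψ1, Ψ2, Ψ3⟩ := gm_glue (V := V) Φ1 (fun r y hy => hy.1.1)
    (fun r r' hr => disjoint_left.2 fun y hy hy' => hr (by
      obtain ⟨⟨⟨⟨σ, j, k⟩, q1, q2, q3, q4⟩, p, p'⟩, p1, p2⟩ := r
      obtain ⟨⟨⟨⟨σ', j', k'⟩, r1, r2, r3, r4⟩, o, o'⟩, o1, o2⟩ := r'
      obtain ⟨rfl, rfl, e⟩ := h.sbox_uq q1 r1 hy.1 hy'.1
      have d : ∀ σ : Set ν, j ∉ σ → k ∉ σ → σ \ {j, k} = σ := fun σ a b =>
        sdiff_eq_left.2 (disjoint_left.2 fun v hv e => by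
          rcases e with rfl | rfl
          exacts [a hv, b hv])
      rw [d σ q2 q3, d σ' r2 r3] at e
      subst e
      obtain rfl := XHpA_uq hB p1 o1 (near hy.2.1.le (ρ2 _)) (near hy'.2.1.le (ρ2 _))
      obtain rfl := XHpA_uq hB p2 o2 (near hy.2.2.le (ρ3 _)) (near hy'.2.2.le (ρ3 _))
      rfl))
    fun K k1 k2 => by
      refine (fin _ (XHpA_f1 h k1 k2)).subset ?_
      rintro r ⟨y, hy, hy'⟩
      exact ⟨y, hy.1, hy'⟩
  have ev : ∀ x : ℝ, 0 < x → ∀ᶠ ζ in 𝓝[>] (0 : ℝ), ζ < x := fun x hx =>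
    mem_of_superset (Ioo_mem_nhdsGT hx) fun _ k => k.2
  choose ζ ζ0 ζ1 ζ2 using fun v => ((eventually_mem_nhdsWithin (s := Ioi (0 : ℝ))).and
    ((ev (θ v / 4) (by linarith only [hB, hB.pos v])).and ((eventually_all_finite
      (fin _ (XHpA_f2 h v))).2 fun r _ => (ev _ (ε0 r)).and (ev _ (ρ0 r.1.1))))).exists
  have pr : ∀ y ∈ V, (∀ v, |t v (Ψ y) - t v y| ≤ g / 128 ∧
      (g / 2 < dev (t v (Ψ y)) → t v (Ψ y) = t v y)) ∧
      (y ∈ BP P ∨ Ψ y ∈ BP P → XEq t y (Ψ y)) := fun y hy => by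
    by_cases k : Ψ y = y
    · rw [k]
      exact ⟨fun v => ⟨by rw [sub_self, abs_zero]; linarith only [g0], fun _ => rfl⟩, fun _ _ => Iff.rfl⟩
    obtain ⟨r, hr⟩ := not_forall_not.1 (mt (Ψ3 y) k)
    obtain ⟨a1, a2, a3, a4⟩ := Φ2 r y hy
    obtain ⟨-, -, -, ρ', b1, b2⟩ := ((XHpA_maps (Φ1 r) y).2 hr).1
    rw [Ψ2 r hr]
    refine ⟨fun v => ⟨(a3 v).trans (ρ1 _), fun l => ?_⟩, a4⟩
    by_contra n
    have := b2 v (by
      rintro (rfl | rfl)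
      exacts [n a1, n a2])
    have l1 := lt_min_iff.1 l
    by_cases e : v ∈ r.1.1.1.1
    · linarith only [g0, b1, l1, this, e, this.1 e]
    · linarith only [g0, b1, l1, this, e, this.2 e]
  have key : ∀ i, ∀ z ∈ Ψ '' S i, ∀ j k, dim j < dim k → ∀ p ∈ B j, ∀ p' ∈ B k,
      |t j z - α j p| ≤ ζ j → |t k z - α k p'| ≤ ζ k → ∀ s,
        (|s - α j p| ≤ ζ j → mv j z s ∈ Ψ '' S i) ∧ (|s - α k p'| ≤ ζ k → mv k z s ∈ Ψ '' S i) := by
    intro i z hz j k hd p hp p' hp' a1 a2 s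
    have hjk : j ≠ k := fun e => hd.ne (congrArg dim e)
    have zb : z ∈ sBox V t ({v | 1 / 2 < t v z} \ {j, k}) j k (g / 4) (g / 8) := by
      obtain ⟨y, hy, rfl⟩ := hz
      exact XHpA_box h (hs i) hy (Ψ1.bij.mapsTo (hS.sub i hy))
        (fun v => ((pr y (hS.sub i hy)).1 v).1) hjk (XHpA_lev hB hp (near a1 (ζ1 j).le))
        (XHpA_lev hB hp' (near a2 (ζ1 k).le))
    let r : {r : XHpAB V g t dim × ℝ × ℝ // r.2.1 ∈ B r.1.1.2.1 ∧ r.2.2 ∈ B r.1.1.2.2} :=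
      ⟨⟨⟨⟨_, j, k⟩, hd, fun e => e.2 (Or.inl rfl), fun e => e.2 (Or.inr rfl), z, zb⟩, p, p'⟩, hp, hp'⟩
    obtain ⟨c1, c2⟩ := ζ2 j r (Or.inl rfl)
    obtain ⟨c3, c4⟩ := ζ2 k r (Or.inr rfl)
    have im := fun x => XHpA_img (x := x) (Φ1 r) Ψ1 (fun y hy => hy.1.1) (hS.sub i) (Ψ2 r)
    have := Φ3 r i z ((im z ⟨zb, a1.trans_lt c2, a2.trans_lt c4⟩).1 hz) zb (a1.trans c1.le)
      (a2.trans c3.le) s
    refine ⟨fun a => ?_, fun a => ?_⟩
    · obtain ⟨m1, m2, m3⟩ := XHpA_mv h zb (Or.inl rfl) (XHpA_lev hB hp (near a (ζ1 j).le))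
      exact (im _ ⟨m1, m2.symm ▸ a.trans_lt c2, (m3 k hjk.symm).symm ▸ a2.trans_lt c4⟩).2
        (this.1 (a.trans c1.le))
    · obtain ⟨m1, m2, m3⟩ := XHpA_mv h zb (Or.inr rfl) (XHpA_lev hB hp' (near a (ζ1 k).le))
      exact (im _ ⟨m1, (m3 j hjk).symm ▸ a1.trans_lt c2, m2.symm ▸ a.trans_lt c4⟩).2
        (this.2 (a.trans c3.le))
  refine ⟨α, ζ, Ψ, α1, fun v => ⟨ζ0 v, (ζ1 v).le⟩, Ψ1, pr, ?_⟩
  rintro i z hz j k hjk _ ⟨p, hp, rfl⟩ _ ⟨p', hp', rfl⟩ a1 a2 s a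
  rcases lt_trichotomy (dim j) (dim k) with d | d | d
  · exact (key i z hz j k d p hp p' hp' a1 a2 s).1 a
  · obtain ⟨y, hy, rfl⟩ := hz
    exact (hjk (h.col _ (Ψ1.bij.mapsTo (hS.sub i hy)) j k
      (g0.1.trans (XHpA_lev hB hp (near a1 (ζ1 j).le)).1)
      (g0.1.trans (XHpA_lev hB hp' (near a2 (ζ1 k).le)).1) d)).elim
  · exact (key i z hz k j d p' hp' p hp a2 a1 s).2 a

end BEp
end
end

-- merged part: Pool.Agent.Work.MP_f0515e_an.P3.XHp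
section
/-! Handle position: `hpA` for the levels `9 g / 8 + (i + 1 / 2) (1 - 9 g / 4) / n`, `i < n = 2 ^ a v`, with `θ v = g / (4 n)`; then `hpB` for the image family (`GM.sfm`). A level in `[1 / 4, 3 / 4]`: `i = n / 2`. The clause on `BP`: `XEq` is an equivalence relation, and `Api.bar` shows that `BP` is saturated in `V`. About 220 lines. -/

open Set Metric Filter Topology Function BEv
open scoped NNReal

noncomputable section
namespace BEp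

variable {n m : ℕ}

variable {ν ι : Type} {V : Set (Rn 3)} {g C : ℝ} {Cf : (Rn 3 ≃L[ℝ] Rn 3) → ℝ} {P : ι → Pc} {T : TS}
  {c : Rn 3 → ℝ} {t : ν → Rn 3 → ℝ} {mv : ν → Rn 3 → ℝ → Rn 3} {dim : ν → ℕ} {b : ν → Rn 3}
  {μ : Type} {S : μ → Set (Rn 3)}

theorem GM.sfm {Φ : Rn 3 → Rn 3} (h : GM V Φ) (hS : SFm V S) : SFm V fun i => Φ '' S i := by
  refine ⟨fun i => ?_, fun i => (h.bij.1.mono_left (hS.sub i)).image_subset, fun K hK hs => ?_⟩
  · obtain ⟨u, -, hu, -, e, -⟩ := h.tp (hS.poly i).1.1 (hS.sub i)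
    rw [e.image_eq]
    exact ⟨(hS.poly i).1.image hu, (hS.poly i).2.image (hS.poly i).1.1.isBounded hu⟩
  · obtain ⟨K', h1, h2, h3⟩ := h.cpt hK hs
    refine (hS.lf K' h1 h2).subset ?_
    rintro i ⟨_, ⟨x, hx, rfl⟩, h4⟩
    exact ⟨x, hx, h3 x (hS.sub i hx) h4⟩

theorem Api.bp_sat (h : Api V g C Cf P T c t mv dim b) {y y' : Rn 3} (hy : y ∈ BP P) (hy' : y' ∈ V)
    (e : XEq t y y') : y' ∈ BP P := by
  obtain ⟨i, hi, x, hx, rfl⟩ := hy
  obtain ⟨x', h1, h2, -⟩ := (h.bar i hi x hx).2 y' hy' e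
  exact ⟨i, hi, x', h1, h2.symm⟩

theorem XHp_lt {A : ν → Set ℝ} {ε ε' : ν → ℝ} {α : ν → ℝ → ℝ} (h : XLev g A ε)
    (h2 : ∀ v p, |α v p - p| + ε' v ≤ ε v) {v : ν} {p q : ℝ} (hp : p ∈ A v) (hq : q ∈ A v)
    (hl : p < q) : α v p + ε' v < α v q - ε' v := by
  linarith only [h, hp, hq, hl, h2, h.dis v p hp q hq hl, le_abs_self (α v p - p), neg_abs_le (α v q - q), h2 v p, h2 v q]

theorem XHp_lev {A : ν → Set ℝ} {ε ε' : ν → ℝ} {α : ν → ℝ → ℝ} (h : XLev g A ε)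
    (h1 : ∀ v, 0 < ε' v) (h2 : ∀ v p, |α v p - p| + ε' v ≤ ε v) :
    XLev g (fun v => α v '' A v) ε' ∧ ∀ v, StrictMonoOn (α v) (A v) := by
  have h3 : ∀ v, StrictMonoOn (α v) (A v) := fun v p hp q hq hl => by
    linarith [XHp_lt h h2 hp hq hl, h1 v]
  refine ⟨⟨fun v => (h.fin v).image _, fun v => (h.ne v).image _, h1, ?_, ?_⟩, h3⟩
  · rintro v _ ⟨p, hp, rfl⟩
    have h4 := h.inn v p hp
    constructor <;> linarith only [h4, h2, h4.1, h4.2, le_abs_self (α v p - p), neg_abs_le (α v p - p), h2 v p]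
  · rintro v _ ⟨p, hp, rfl⟩ _ ⟨q, hq, rfl⟩ hl
    exact XHp_lt h h2 hp hq (((h3 v).lt_iff_lt hp hq).1 hl)

theorem XHp_base (hg : 0 < g ∧ g ≤ 1 / 8) {N : ℕ} (hN : 0 < N) : ∃ B : Set ℝ, B.Finite ∧
    B.ncard = N ∧ (∀ p ∈ B, g < p - g / 4 / N ∧ p + g / 4 / N < 1 - g) ∧
    (∀ p ∈ B, ∀ q ∈ B, p < q → (1 - 9 * g / 4) / N ≤ q - p) ∧
    ∃ p ∈ B, 1 / 2 ≤ p ∧ p ≤ 3 / 4 - g / 2 := by
  obtain ⟨g0, g1⟩ := hg
  have n0 : (0 : ℝ) < N := by exact_mod_cast hN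
  obtain ⟨d, hd⟩ : ∃ d : ℝ, d = (1 - 9 * g / 4) / N := ⟨_, rfl⟩
  have d1 : N * d = 1 - 9 * g / 4 := by rw [hd, mul_div_cancel₀ _ n0.ne']
  have d0 : 0 < d := by
    rw [hd]
    exact div_pos (by linarith only [g0, g1]) n0
  have d2 : g / 4 / N ≤ d / 2 := by
    rw [hd, div_right_comm (1 - 9 * g / 4)]
    exact div_le_div_of_nonneg_right (by linarith only [g0, g1]) n0.le
  have hm : StrictMono fun i : ℕ => 9 * g / 8 + ((i : ℝ) + 1 / 2) * d := fun i j hij => by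
    have h1 : (i : ℝ) < j := by exact_mod_cast hij
    show 9 * g / 8 + ((i : ℝ) + 1 / 2) * d < 9 * g / 8 + ((j : ℝ) + 1 / 2) * d
    (refine lt_of_not_ge fun h_nl => ?_; linarith only [h_nl, d1, g0, h1, g1, mul_nonneg_of_nonpos_of_nonpos (Mathlib.Tactic.Linarith.sub_nonpos_of_le (Mathlib.Tactic.Linarith.natCast_nonneg ℝ N)) (Mathlib.Tactic.Linarith.sub_nonpos_of_le h_nl), Mathlib.Tactic.Linarith.mul_zero_eq (Mathlib.Tactic.Linarith.sub_nonpos_of_le (Mathlib.Tactic.Linarith.natCast_nonneg ℝ i)) (sub_eq_zero_of_eq d1), Mathlib.Tactic.Linarith.mul_zero_eq (Mathlib.Tactic.Linarith.sub_nonpos_of_le (Mathlib.Tactic.Linarith.natCast_nonneg ℝ j)) (sub_eq_zero_of_eq d1), mul_pos_of_neg_of_neg (Mathlib.Tactic.Linarith.sub_neg_of_lt g0) (Mathlib.Tactic.Linarith.sub_neg_of_lt h1), mul_nonneg_of_nonpos_of_nonpos (Mathlib.Tactic.Linarith.sub_nonpos_of_le g1) (le_of_lt (Mathlib.Tactic.Linarith.sub_neg_of_lt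 h1))])
  refine ⟨(fun i : ℕ => 9 * g / 8 + ((i : ℝ) + 1 / 2) * d) '' Iio N, (finite_Iio N).image _,
    ?_, ?_, ?_, _, mem_image_of_mem _ (show N / 2 ∈ Iio N from Nat.div_lt_self hN one_lt_two), ?_⟩
  · rw [ncard_image_of_injective _ hm.injective, ← Finset.coe_range, ncard_coe_finset,
      Finset.card_range]
  · rintro _ ⟨i, hi, rfl⟩
    have h1 : (i : ℝ) + 1 ≤ N := by exact_mod_cast hi
    have h2 : (0 : ℝ) ≤ i := Nat.cast_nonneg i
    constructor <;> (refine lt_of_not_ge fun h_nl => ?_; linarith only [h_nl, g0, d2, d0, d1, h1, g1, mul_nonneg_of_nonpos_of_nonpos (Mathlib.Tactic.Linarith.sub_nonpos_of_le (Mathlib.Tactic.Linarith.natCast_nonneg ℝ i)) (le_of_lt (Mathlib.Tactic.Linarith.sub_neg_of_lt d0)), mul_nonneg_of_nonpos_of_nonpos (Mathlib.Tactic.Linarith.sub_nonpos_of_le (Mathlib.Tactic.Linarith.natCast_nonneg ℝ N)) (Mathlib.Tactic.Linarith.sub_nonpos_of_le d2),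 mul_nonneg_of_nonpos_of_nonpos (Mathlib.Tactic.Linarith.sub_nonpos_of_le (Mathlib.Tactic.Linarith.natCast_nonneg ℝ N)) (Mathlib.Tactic.Linarith.sub_nonpos_of_le h_nl), mul_nonneg_of_nonpos_of_nonpos (Mathlib.Tactic.Linarith.sub_nonpos_of_le (Mathlib.Tactic.Linarith.natCast_nonneg ℝ i)) (le_of_lt (Mathlib.Tactic.Linarith.sub_neg_of_lt g0)), Mathlib.Tactic.Linarith.mul_zero_eq (Mathlib.Tactic.Linarith.sub_nonpos_of_le (Mathlib.Tactic.Linarith.natCast_nonneg ℝ i)) (sub_eq_zero_of_eq d1), mul_pos_of_neg_of_neg (Mathlib.Tactic.Linarith.sub_neg_of_lt g0) (Mathlib.Tactic.Linarith.sub_neg_of_lt g0), mul_nonneg_of_nonpos_of_nonpos (le_of_lt (Mathlib.Tactic.Linarith.sub_neg_of_lt g0)) (Mathlib.Tactic.Linarith.sub_nonpos_of_le g1), mul_nonneg_of_nonpos_of_nonpos (Mathlib.Tactic.Linarith.sub_nonpos_of_le g1) (Mathlib.Tactic.Linarith.sub_nonpos_of_le h1)])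
  · rintro _ ⟨i, -, rfl⟩ _ ⟨j, -, rfl⟩ hl
    have h1 : (i : ℝ) + 1 ≤ j := by exact_mod_cast hm.lt_iff_lt.1 hl
    rw [← hd]
    (refine le_of_not_gt fun h_nl => ?_; linarith only [h_nl, d1, h1, g1, n0, Mathlib.Tactic.Linarith.mul_zero_eq (Mathlib.Tactic.Linarith.sub_nonpos_of_le (Mathlib.Tactic.Linarith.natCast_nonneg ℝ i)) (sub_eq_zero_of_eq d1), Mathlib.Tactic.Linarith.mul_zero_eq (Mathlib.Tactic.Linarith.sub_nonpos_of_le (Mathlib.Tactic.Linarith.natCast_nonneg ℝ j)) (sub_eq_zero_of_eq d1), mul_nonneg_of_nonpos_of_nonpos (Mathlib.Tactic.Linarith.sub_nonpos_of_le g1) (Mathlib.Tactic.Linarith.sub_nonpos_of_le h1), mul_pos_of_neg_of_neg (Mathlib.Tactic.Linarith.sub_neg_of_lt n0) (Mathlib.Tactic.Linarith.sub_neg_of_lt h_nl)])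
  · have h1 : (N : ℝ) ≤ 2 * (N / 2 : ℕ) + 1 := by exact_mod_cast (by omega : N ≤ 2 * (N / 2) + 1)
    have h2 : 4 * ((N / 2 : ℕ) : ℝ) + 2 ≤ 3 * N := by
      exact_mod_cast (by omega : 4 * (N / 2) + 2 ≤ 3 * N)
    constructor <;> (refine le_of_not_gt fun h_nl => ?_; linarith only [h_nl, d1, h1, g1, n0, h2, g0, Mathlib.Tactic.Linarith.mul_zero_eq (Mathlib.Tactic.Linarith.sub_nonpos_of_le (Mathlib.Tactic.Linarith.natCast_nonneg ℝ (N / (2 : ℕ)))) (sub_eq_zero_of_eq d1), mul_nonneg_of_nonpos_of_nonpos (Mathlib.Tactic.Linarith.sub_nonpos_of_le g1) (Mathlib.Tactic.Linarith.sub_nonpos_of_le h1), mul_pos_of_neg_of_neg (Mathlib.Tactic.Linarith.sub_neg_of_lt n0) (Mathlib.Tactic.Linarith.sub_neg_of_lt h_nl), mul_nonneg_of_nonpos_of_nonpos (Mathlib.Tactic.Linarith.sub_nonpos_of_le (Mathlib.Tactic.Linarith.natCast_nonneg ℝ N)) (le_of_lt (Mathlib.Tactic.Linarith.sub_neg_of_lt h_nl)),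 mul_nonneg_of_nonpos_of_nonpos (Mathlib.Tactic.Linarith.sub_nonpos_of_le (Mathlib.Tactic.Linarith.natCast_nonneg ℝ (N / (2 : ℕ)))) (le_of_lt (Mathlib.Tactic.Linarith.sub_neg_of_lt g0)), mul_pos_of_neg_of_neg (Mathlib.Tactic.Linarith.sub_neg_of_lt g0) (Mathlib.Tactic.Linarith.sub_neg_of_lt g0), mul_nonneg_of_nonpos_of_nonpos (le_of_lt (Mathlib.Tactic.Linarith.sub_neg_of_lt g0)) (Mathlib.Tactic.Linarith.sub_nonpos_of_le g1), mul_nonneg_of_nonpos_of_nonpos (Mathlib.Tactic.Linarith.sub_nonpos_of_le g1) (Mathlib.Tactic.Linarith.sub_nonpos_of_le h2)])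

theorem Api.hp (h : Api V g C Cf P T c t mv dim b) (hS : SFm V S) (hs : ∀ i, Sma t (g / 32) (S i))
    (a : ν → ℕ) {Bad : ν → Set ℝ} (hb : ∀ v, (Bad v).Finite) :
    ∃ A e Φ, HOk V t mv g P a Bad S A e Φ := by
  obtain ⟨g0, g1⟩ := h.g0
  choose B b1 b2 b3 b4 b5 using fun v => XHp_base h.g0 (N := 2 ^ a v) (by positivity)
  simp only [Nat.cast_pow, Nat.cast_ofNat] at b3 b4
  have n1 : ∀ v, (1 : ℝ) ≤ 2 ^ a v := fun v => one_le_pow₀ one_le_two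
  have e1 : ∀ v, (1 - 9 * g / 4) / 2 ^ a v = (1 - 5 * g / 2) / 2 ^ a v + g / 4 / 2 ^ a v :=
    fun v => by ring
  have hB : XLev g B fun v => g / 4 / 2 ^ a v := by
    refine ⟨b1, fun v => ⟨_, (b5 v).choose_spec.1⟩, fun v => by positivity, b3,
      fun v p hp q hq hl => ?_⟩
    have h1 : 2 * (g / 4 / 2 ^ a v) < (1 - 9 * g / 4) / 2 ^ a v := by
      rw [← mul_div_assoc]
      exact div_lt_div_of_pos_right (by linarith only [g0, g1]) (by positivity)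
    linarith only [h1, b4, hp, hq, hl, b4 v p hp q hq hl]
  obtain ⟨α, ζ, Φ, a1, a2, a3, a4, a5⟩ := h.hpA hS hs hB
  obtain ⟨l1, m1⟩ := XHp_lev (α := α) hB (fun v => (a2 v).1) fun v p => by
    linarith only [a1, a2, a1 v p, (a2 v).2, (a2 v).1]
  obtain ⟨β, e, Ψ, c1, c2, c3, c4, c5, c6⟩ := h.hpB (a3.sfm hS) l1 a5 (fun v => by
    obtain ⟨p, hp, h1, h2⟩ := b5 v
    have h3 := abs_le.1 ((a1 v p).trans (div_le_div_of_nonneg_right
      (div_le_self (by positivity) (n1 v)) (by norm_num)))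
    exact ⟨_, mem_image_of_mem _ hp, by linarith only [g0, g1, h1, h3, h3.1], by linarith only [g0, h2, h3, h3.2]⟩) hb
  obtain ⟨l2, m2⟩ := XHp_lev (α := β) (ε' := fun v => 2 * e v) l1
    (fun v => by linarith [(c3 v).1]) fun v p => by linarith only [c1, c3, a2, c1 v p, (c3 v).2, (a2 v).1]
  refine ⟨fun v => β v '' (α v '' B v), e, Ψ ∘ Φ, l2, fun v => ?_, ?_, fun v => ?_, c4.comp a3,
    fun i ω => ?_, fun y hy v => ?_, fun y hy v => ?_, fun y hy hp => ?_⟩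
  · rw [(m2 v).injOn.ncard_image, (m1 v).injOn.ncard_image, b2]
  · rintro v _ ⟨_, ⟨p, hp, rfl⟩, rfl⟩ _ ⟨_, ⟨q, hq, rfl⟩, rfl⟩ hl
    have h1 := b4 v p hp q hq (((m1 v).lt_iff_lt hp hq).1
      (((m2 v).lt_iff_lt (mem_image_of_mem _ hp) (mem_image_of_mem _ hq)).1 hl))
    linarith only [h1, a1, c1, a2, e1, abs_le.1 (a1 v p), abs_le.1 (a1 v q), abs_le.1 (c1 v (α v p)),
      abs_le.1 (c1 v (α v q)), a2 v, e1 v]
  · refine disjoint_left.2 ?_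
    rintro _ ⟨p, hp, rfl⟩
    exact c2 v p hp
  · rw [image_comp]
    exact c6 i ω
  · have h1 := abs_le.1 ((a4 y hy).1 v).1
    have h2 := abs_le.1 ((c5 _ (a3.bij.1 hy)).2 v).1
    rw [comp_apply, abs_le]
    constructor <;> linarith only [h1, h2, h1.1, h1.2, h2.1, h2.2]
  · rintro ⟨p, hp, h1⟩
    have h2 := l2.inn v _ (mem_image_of_mem _ hp)
    rw [comp_apply] at h1 ⊢
    have h3 := ((c5 _ (a3.bij.1 hy)).2 v).2
      ⟨p, hp, by rw [← h1]; linarith only [c1, a2, c1 v p, (a2 v).1]⟩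
    rw [h3] at h1 ⊢
    refine (((a4 y hy).1 v).2 ?_).symm
    rw [← h1]
    exact lt_min (by linarith only [g0, h2, c3, h2.1, (c3 v).1]) (by linarith only [g0, h2, c3, h2.2, (c3 v).1])
  · have h1 := (c5 _ (a3.bij.1 hy)).1
    have h2 := (a4 y hy).2 (hp.imp_right fun h3 =>
      h.bp_sat h3 (a3.bij.1 hy) fun v => (h1 v).symm)
    exact fun v => (h2 v).trans (h1 v)

end BEp
end
end

-- merged part: Pool.Agent.Work.MP_f0515e_an.P3.XPre2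
section
/-! The input of the exchange. -/

open Set Metric Filter Topology Function BEv
open scoped NNReal

noncomputable section
namespace BEp

variable {ν ι : Type} {V : Set (Rn 3)} {g C : ℝ} {Cf : (Rn 3 ≃L[ℝ] Rn 3) → ℝ} {P : ι → Pc} {T : TS}
  {c : Rn 3 → ℝ} {t : ν → Rn 3 → ℝ} {mv : ν → Rn 3 → ℝ → Rn 3} {dim : ν → ℕ} {b : ν → Rn 3}
  {Ω : Set (Rn 3)} {K : Kx Ω} {G : Rn 3 → Rn 3} {θ : Rn 3 → ℝ} {ch : Set (Rn 3) → Ch}
  {r R τ : Set (Rn 3) → ℝ}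
  {τ' : Set (Rn 3) → ℝ} {a r' : ν → ℕ} {Bad A : ν → Set ℝ} {e : ν → ℝ} {Φ : Rn 3 → Rn 3}

theorem XPre2_sma {S : Set (Rn 3)} (hg : 0 < g) (hS : S ⊆ V) (h : Sma t (g / 32) S)
    (k : ∀ y ∈ V, ∀ v, |t v (Φ y) - t v y| ≤ g / 64) : Sma t (g / 16) (Φ '' S) := by
  obtain ⟨⟨i, j, h1⟩, h2⟩ := h
  refine ⟨⟨i, j, ?_⟩, ?_⟩
  · rintro v hi hj _ ⟨y, hy, rfl⟩
    obtain ⟨a1, a2⟩ := abs_le.1 (k y (hS hy) v)
    rcases min_le_iff.1 (h1 v hi hj y hy) with a3 | a3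
    · exact min_le_of_left_le (by linarith only [hg, a2, a3])
    · exact min_le_of_right_le (by linarith only [hg, a1, a3])
  · rintro v _ ⟨y, hy, rfl⟩ _ ⟨y', hy', rfl⟩
    obtain ⟨a1, a2⟩ := abs_le.1 (k y (hS hy) v)
    obtain ⟨a3, a4⟩ := abs_le.1 (k y' (hS hy') v)
    obtain ⟨a5, a6⟩ := abs_le.1 (h2 v y hy y' hy')
    exact abs_le.2 ⟨by linarith only [a1, a4, a5], by linarith only [a2, a3, a6]⟩

theorem XPre2_bd {F : Set (Rn 3)} (hF : F ∈ K.cells) {y : Rn 3} (hy : y ∈ closure F \ F) :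
    closure (K.cell y) ⊆ closure F \ F := by
  obtain ⟨h1, -, h2⟩ := Kx.KA3_face hF hy.1
  refine fun z hz => ⟨closure_minimal h2 isClosed_closure hz, fun k => ?_⟩
  have h3 := dm_mono (Kx.front hF h1 ⟨z, k, hz⟩)
  rw [dm_closure] at h3
  exact (Kx.dm_rb hF hy).not_ge h3

theorem XCtx.xin [Finite ι] (h : XCtx V g C P T t mv dim K G Cf c b θ ch r R τ)
    (k : HOk V t mv g P a Bad (fun σ : cS K P => G '' closure σ.1) A e Φ)
    (he : ∀ y ∈ V, ∀ j k, 0 < t j y → 0 < t k y → dim j < dim k → a j ≤ a k ∧ a k ≤ a j + r' j) :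
    XIn V t mv g P dim A e a r' (fun F : cF K P => Φ '' (G '' closure F.1))
      fun F : cF K P => Φ '' (G '' (closure F.1 \ F.1)) := by
  have lf := k.gm.lfm h.lfm
  have hV : ∀ F : cF K P, G '' closure F.1 ⊆ V := h.lfm.sub
  have iJ : ∀ (F : cF K P) ω, Iw (gN V t A (fun v => 2 * e v) ω) (gf mv (fun v => 2 * e v) ω)
      (Φ '' (G '' (closure F.1 \ F.1))) := by
    rintro ⟨F, ⟨h1, h2⟩, h3⟩ ω _ ⟨_, ⟨y, hy, rfl⟩, rfl⟩ hx s hs
    obtain ⟨a1, a2, a3⟩ := Kx.KA3_face h1 hy.1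
    have a4 : dm (K.cell y) ≤ 2 := h2 ▸ (Kx.dm_rb h1 hy).le
    exact image_mono (image_mono (XPre2_bd h1 hy)) (k.iw ⟨K.cell y, a1, a4, h.down h1 h3 a1 a3⟩ ω _
      ⟨_, ⟨y, subset_closure a2, rfl⟩, rfl⟩ hx s hs)
  refine ⟨k.lev, lf, fun F => XPre2_sma h.api.g0.1 (hV F) (h.sma F.2.1.1 F.2.1.2.le F.2.2) k.sm,
    ⟨fun F => k.iw ⟨F.1, F.2.1.1, F.2.1.2.le, F.2.2⟩, iJ, fun F => h.api.two_of_pc k.lev
      (lf.st.dsc F).poly'.1 ((lf.st.dsc F).sub.trans (lf.sub F)) (lf.st.dsc F).crc.pc (iJ F)⟩,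
    fun F => (h.flat F.2.1.1).imp (fun q => ?_) fun q => disjoint_left.2 ?_, he⟩
  · rintro _ ⟨y, hy, rfl⟩
    exact h.api.bp_sat (q hy) (k.gm.bij.mapsTo (hV F hy)) (k.bp y (hV F hy) (.inl (q hy)))
  · rintro _ ⟨⟨_, ⟨y, hy, rfl⟩, rfl⟩, n⟩ hb
    have a1 := hV F ⟨y, hy, rfl⟩
    have a2 : y ∈ F.1 := by_contra fun a => n ⟨_, ⟨y, ⟨hy, a⟩, rfl⟩, rfl⟩
    exact disjoint_left.1 q ⟨y, a2, rfl⟩
      (h.api.bp_sat hb a1 fun v => (k.bp _ a1 (.inr hb) v).symm)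

end BEp
end
end

-- merged part: Pool.Agent.Work.MP_f0515e_an.P3.XS31
section
/-! The move of one colour along the edges of the cube complex (see `XS3`). -/

open Set Metric Filter Topology Function BEv
open scoped NNReal

noncomputable section
namespace BEp

variable {n m : ℕ}

variable {ν ι : Type} {V : Set (Rn 3)} {g C : ℝ} {Cf : (Rn 3 ≃L[ℝ] Rn 3) → ℝ} {P : ι → Pc} {T : TS}
  {c : Rn 3 → ℝ} {t : ν → Rn 3 → ℝ} {mv : ν → Rn 3 → ℝ → Rn 3} {dim : ν → ℕ} {b : ν → Rn 3}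
  {A : ν → Set ℝ} {ε : ν → ℝ} {μ : Type} {F J : μ → Set (Rn 3)} {W : Set (Rn 3)}

/-- The systems of all colours, uncut and cut along `W`. -/
def SysW (V : Set (Rn 3)) (t : ν → Rn 3 → ℝ) (mv : ν → Rn 3 → ℝ → Rn 3) (dim : ν → ℕ)
    (A : ν → Set ℝ) (ε : ν → ℝ) (W : Set (Rn 3)) : Prop :=
  ∀ (d : ℕ) (σ : Set ν), σ.Nonempty → (∀ v ∈ σ, dim v ≠ d) →
    SysOn V t mv A ε (Rg1 V t A ε σ {v | dim v = d}) ∧
      SysOn V t mv A ε (Rg1 V t A ε σ {v | dim v = d} \ W)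

/-- The move of colour `d`. -/
structure St3 (V : Set (Rn 3)) (t : ν → Rn 3 → ℝ) (mv : ν → Rn 3 → ℝ → Rn 3) (dim : ν → ℕ)
    (A : ν → Set ℝ) (ε : ν → ℝ) (W : Set (Rn 3)) (F J : μ → Set (Rn 3)) (d : ℕ)
    (Φ : Rn 3 → Rn 3) : Prop where
  gm : GM V Φ
  nb : ∀ y ∈ V, Nb t y (Φ y)
  fix : ∀ y ∈ W, Φ y = y
  trk : Trk1 (gN V t A ε) (gf mv ε) Φ (⋃ c, F c)
  reg : ∀ y ∈ V, Φ y = y ∨ ∃ σ : Set ν, (∀ v ∈ σ, dim v ≠ d) ∧
    y ∈ Rg1 V t A ε σ {v | dim v = d} ∧ Φ y ∈ Rg1 V t A ε σ {v | dim v = d}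
  noc : ∀ c (σ : Set ν), σ.Nonempty → (∀ v ∈ σ, dim v ≠ d) → F c ⊆ Rg1 V t A ε σ {v | dim v = d} →
    Disjoint (F c \ J c) W → NoC (gN V t A ε) (gf mv ε) (Φ '' F c)

theorem XS31_map {O : Set (Rn 3)} {Φ : Rn 3 → Rn 3} (h : Mv O Φ) {x : Rn 3} :
    Φ x ∈ O ↔ x ∈ O := by
  refine ⟨fun k => by_contra fun e => e (h.2 x e ▸ k), fun k => ?_⟩
  rw [← h.image_eq Subset.rfl]
  exact mem_image_of_mem _ k

theorem XS31_zero : (0 : ℝ) ∈ Icc (-1 : ℝ) 1 := ⟨by norm_num, by norm_num⟩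

/-- Fibres through a point of the region stay in the region. -/
theorem XS31_fib {O : Set (Rn 3)} (h : SysOn V t mv A ε O) {ω : ν × ℝ} {x : Rn 3}
    (hx : x ∈ gN V t A ε ω) (hO : x ∈ O) {s : ℝ} (hs : s ∈ Icc (-1 : ℝ) 1) :
    gf mv ε ω x s ∈ O := by
  obtain ⟨κ, μ', -, θ, R, bR, C', bC, η, π, hS, rfl, h1, h2⟩ := h
  obtain ⟨w, rfl, hw⟩ := h2 ω {x} (singleton_subset_iff.2 ⟨hx, hO⟩) isPreconnected_singleton
    (singleton_nonempty x)
  have hw' := hw (mem_singleton x)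
  rw [← (h1 w x hw').2 s hs]
  obtain ⟨z, hz, rfl⟩ := hw'
  refine Or.inl (mem_iUnion.2 ⟨w, ?_⟩)
  rw [← mk3_pj3 z, cf_mk (hS.lh w)]
  exact (mem_cN (hS.lh w)).2 ⟨hz.1, abs_le.2 hs⟩

/-- The loops of a finite family of discs are removed inside a region. -/
theorem XS31_loc [Finite μ] {O : Set (Rn 3)} (h : SysOn V t mv A ε O) (hF : ESt F J)
    (k1 : ∀ i ω, Iw (gN V t A ε ω) (gf mv ε ω) (F i))
    (k2 : ∀ i ω, Iw (gN V t A ε ω) (gf mv ε ω) (J i)) :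
    ∃ Φ, Mv O Φ ∧ Trk1 (fun ω => gN V t A ε ω ∩ O) (gf mv ε) Φ (⋃ i, F i) ∧
      ∀ i, NoL (gN V t A ε) (gf mv ε) O (Φ '' F i) (Φ '' J i) := by
  obtain ⟨κ, μ', _, θ, R, bR, C', bC, η, π, hS, rfl, h1, h2⟩ := h
  have iw : ∀ S, (∀ ω, Iw (gN V t A ε ω) (gf mv ε ω) S) →
      ∀ w, Iw (cN (θ w) (R w \ bR w)) (cf (θ w)) S := fun S hS' w x hx hw s hs => by
    rw [(h1 w x hw).2 s hs]
    exact hS' _ x hx (h1 w x hw).1 s hs
  obtain ⟨Φ, hm, ht, hn⟩ := smL hS hF (fun i => iw _ (k1 i)) fun i => iw _ (k2 i)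
  refine ⟨Φ, hm, fun x hx ω hω => ?_, fun i ω E γ hE e1 e2 e3 => ?_⟩
  · obtain ⟨w, rfl, hw⟩ := h2 ω {Φ x} (singleton_subset_iff.2 hω) isPreconnected_singleton
      (singleton_nonempty _)
    have hw' := hw (mem_singleton _)
    obtain ⟨a1, a2⟩ := ht x hx w hw'
    refine ⟨⟨(h1 w x a1).1, Or.inl (mem_iUnion.2 ⟨w, a1⟩)⟩, fun s hs => ?_⟩
    rw [← (h1 w x a1).2 s hs, ← (h1 w _ hw').2 s hs]
    exact a2 s hs
  · obtain ⟨w, rfl, hw⟩ := h2 ω γ (fun x hx => ⟨(e3 hx).1, e2 (hE.sub hx)⟩)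
      (PDsc.conn_bd hE).isPreconnected (PDsc.conn_bd hE).nonempty
    obtain ⟨w', x, a1, a2, a3⟩ := hn i w E γ hE e1 e2 fun x hx =>
      ⟨hw hx, ((h1 w x (hw hx)).2 0 XS31_zero).trans (e3 hx).2⟩
    exact ⟨π w', x, a1, (h1 w' x a2).1, ((h1 w' x a2).2 0 XS31_zero).symm.trans a3⟩

/-- A disc inside a region without loops has no circle in a core. -/
theorem XS31_noC {O F J : Set (Rn 3)} (h : SysOn V t mv A ε O) (hF : PDsc F J)
    (k1 : ∀ ω, Iw (gN V t A ε ω) (gf mv ε ω) F) (k2 : ∀ ω, Iw (gN V t A ε ω) (gf mv ε ω) J)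
    (hs : F ⊆ O) (hn : NoL (gN V t A ε) (gf mv ε) O F J) : NoC (gN V t A ε) (gf mv ε) F := by
  obtain ⟨κ, μ', _, θ, R, bR, C', bC, η, π, hS, rfl, h1, h2⟩ := h
  have iw : ∀ S, (∀ ω, Iw (gN V t A ε ω) (gf mv ε ω) S) →
      ∀ w, Iw (cN (θ w) (R w \ bR w)) (cf (θ w)) S := fun S hS' w x hx hw s hs => by
    rw [(h1 w x hw).2 s hs]
    exact hS' _ x hx (h1 w x hw).1 s hs
  have hc := smL_noC hS hF (iw _ k1) (iw _ k2) hs fun w E γ hE e1 e2 e3 => by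
    obtain ⟨ω, x, a1, a2, a3⟩ := hn (π w) E γ hE e1 e2 fun x hx =>
      ⟨(h1 w x (e3 hx).1).1, ((h1 w x (e3 hx).1).2 0 XS31_zero).symm.trans (e3 hx).2⟩
    obtain ⟨w', rfl, hw⟩ := h2 ω {x} (singleton_subset_iff.2 ⟨a2, e2 a1.1⟩)
      isPreconnected_singleton (singleton_nonempty _)
    have hw' := hw (mem_singleton _)
    exact ⟨w', x, a1, hw', ((h1 w' x hw').2 0 XS31_zero).trans a3⟩
  intro ω γ hγ e
  obtain ⟨w, rfl, hw⟩ := h2 ω γ (fun x hx => ⟨(e hx).2.1, hs (e hx).1⟩)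
    hγ.tcrc.conn.isPreconnected hγ.tcrc.conn.nonempty
  exact hc w γ hγ fun x hx =>
    ⟨(e hx).1, hw hx, ((h1 w x (hw hx)).2 0 XS31_zero).trans (e hx).2.2⟩

theorem XS31_pos (h : Api V g C Cf P T c t mv dim b) (hA : XLev g A ε) {σ D : Set ν} {v : ν}
    (hv : v ∈ σ) (hD : v ∉ D) {y : Rn 3} (hy : y ∈ Rg1 V t A ε σ D) : 0 < t v y := by
  obtain ⟨a, ha⟩ := hA.ne v
  have h1 := (hy.2 v hD a ha).1 hv
  have h2 := (hA.inn v a ha).1
  have h3 := hA.pos v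
  have h4 := h.g0.1
  linarith

theorem XS31_dis (hA : XLev g A ε) {σ σ' D : Set ν} {v : ν} (hv : v ∈ σ) (hv' : v ∉ σ')
    (hD : v ∉ D) : Disjoint (Rg1 V t A ε σ D) (Rg1 V t A ε σ' D) := by
  refine disjoint_left.2 fun y hy hy' => ?_
  obtain ⟨a, ha⟩ := hA.ne v
  have h1 := (hy.2 v hD a ha).1 hv
  have h2 := (hy'.2 v hD a ha).2 hv'
  have h3 := hA.pos v
  linarith

/-- The move inside a region which lies in a compact set. -/
theorem XS31_one {O K : Set (Rn 3)} (h : SysOn V t mv A ε O) (hF : LFm V F J)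
    (hG : GH V t mv A ε F J) (hK : IsCompact K) (hV : K ⊆ V) (hO : O ⊆ K) :
    ∃ Φ, Mv O Φ ∧ Trk1 (fun ω => gN V t A ε ω ∩ O) (gf mv ε) Φ (⋃ i, F i) ∧
      ∀ i, NoL (gN V t A ε) (gf mv ε) O (Φ '' F i) (Φ '' J i) := by
  obtain ⟨hf, hE⟩ := hF.loc hK hV
  obtain ⟨Φ, hm, ht, hn⟩ := XS31_loc h hE (fun i => hG.iF i) fun i => hG.iJ i
  refine ⟨Φ, hm, fun x hx ω hω => ?_, fun i ω E γ hD e1 e2 e3 => ?_⟩
  · obtain ⟨i, hi⟩ := mem_iUnion.1 hx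
    exact ht x (mem_iUnion.2 ⟨⟨i, x, hi, hO ((XS31_map hm).1 hω.2)⟩, hi⟩) ω hω
  · obtain ⟨z, hz⟩ := hD.conn.nonempty
    obtain ⟨x, hx, rfl⟩ := (e1 hz).1
    exact hn ⟨i, x, hx, hO ((XS31_map hm).1 (e2 hz))⟩ ω E γ hD e1 e2 e3

theorem Api.s3one (h : Api V g C Cf P T c t mv dim b) (hA : XLev g A ε)
    (hW : SysW V t mv dim A ε W) (hF : LFm V F J) (hG : GH V t mv A ε F J) (d : ℕ) :
    ∃ Φ, St3 V t mv dim A ε W F J d Φ := by
  have ex : ∀ σ : {σ : Set ν // σ.Nonempty ∧ ∀ v ∈ σ, dim v ≠ d},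
      ∃ Φ, Mv (Rg1 V t A ε σ.1 {v | dim v = d} \ W) Φ ∧
        Trk1 (fun ω => gN V t A ε ω ∩ (Rg1 V t A ε σ.1 {v | dim v = d} \ W)) (gf mv ε) Φ
          (⋃ i, F i) ∧
        ∀ i, NoL (gN V t A ε) (gf mv ε) (Rg1 V t A ε σ.1 {v | dim v = d} \ W) (Φ '' F i)
          (Φ '' J i) := fun σ => by
    obtain ⟨v, hv⟩ := σ.2.1
    obtain ⟨K, hK, hV, hs⟩ := h.lf2 v
    exact XS31_one (hW d σ.1 σ.2.1 σ.2.2).2 hF hG hK hV fun y hy =>
      hs y hy.1.1 (XS31_pos h hA hv (σ.2.2 v hv) hy.1)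
  choose Θ hm ht hn using ex
  obtain ⟨Ψ, gm, he, hx⟩ := gm_glue (V := V) hm (fun σ y hy => hy.1.1)
    (fun σ σ' hne => by
      refine Disjoint.mono sdiff_subset sdiff_subset ?_
      by_cases e : σ.1 ⊆ σ'.1
      · have e' : ¬ σ'.1 ⊆ σ.1 := fun k => hne (Subtype.ext (e.antisymm k))
        obtain ⟨v, hv, hv'⟩ := not_subset.1 e'
        exact (XS31_dis hA hv hv' (σ'.2.2 v hv)).symm
      · obtain ⟨v, hv, hv'⟩ := not_subset.1 e
        exact XS31_dis hA hv hv' (σ.2.2 v hv))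
    (fun K hK hV => by
      refine ((h.lf1 K hK hV).finite_subsets.preimage Subtype.val_injective.injOn).subset ?_
      rintro σ ⟨y, hy, hyK⟩ v hv
      exact ⟨y, hyK, XS31_pos h hA hv (σ.2.2 v hv) hy.1⟩)
  have alt : ∀ y, Ψ y = y ∨ ∃ σ : {σ : Set ν // σ.Nonempty ∧ ∀ v ∈ σ, dim v ≠ d},
      y ∈ Rg1 V t A ε σ.1 {v | dim v = d} ∧ Ψ y ∈ Rg1 V t A ε σ.1 {v | dim v = d} := fun y => by
    by_cases e : ∃ σ : {σ : Set ν // σ.Nonempty ∧ ∀ v ∈ σ, dim v ≠ d},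
        y ∈ Rg1 V t A ε σ.1 {v | dim v = d} \ W
    · obtain ⟨σ, hσ⟩ := e
      exact Or.inr ⟨σ, hσ.1, he σ hσ ▸ ((XS31_map (hm σ)).2 hσ).1⟩
    · exact Or.inl (hx y fun σ k => e ⟨σ, k⟩)
  have fix : ∀ y ∈ W, Ψ y = y := fun y hy => hx y fun σ k => k.2 hy
  have trk : Trk1 (gN V t A ε) (gf mv ε) Ψ (⋃ i, F i) := fun x hxF ω hω => by
    by_cases e : ∃ σ : {σ : Set ν // σ.Nonempty ∧ ∀ v ∈ σ, dim v ≠ d},
        x ∈ Rg1 V t A ε σ.1 {v | dim v = d} \ W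
    · obtain ⟨σ, hσ⟩ := e
      rw [he σ hσ] at hω ⊢
      obtain ⟨a1, a2⟩ := ht σ x hxF ω ⟨hω, (XS31_map (hm σ)).2 hσ⟩
      refine ⟨a1.1, fun s hs => ?_⟩
      rw [he σ (XS31_fib (hW d σ.1 σ.2.1 σ.2.2).2 a1.1 hσ hs)]
      exact a2 s hs
    · rw [hx x fun σ k => e ⟨σ, k⟩] at hω ⊢
      refine ⟨hω, fun s hs => hx _ fun σ k => e ⟨σ, ?_⟩⟩
      have fb := h.fib hA ω
      have a := XS31_fib (hW d σ.1 σ.2.1 σ.2.2).2 (fb.mem x hω s hs).1 k (fb.self x hω).1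
      rwa [fb.idem x hω s hs _ (fb.self x hω).1, (fb.self x hω).2] at a
  refine ⟨Ψ, gm, fun y hy => ?_, fix, trk, fun y _ => ?_, fun i σ h0 h1 hs hd => ?_⟩
  · rcases alt y with e | ⟨σ, e1, e2⟩
    · rw [e]
      exact h.nb_self hy
    · obtain ⟨v, hv⟩ := σ.2.1
      exact ⟨v, XS31_pos h hA hv (σ.2.2 v hv) e1, XS31_pos h hA hv (σ.2.2 v hv) e2⟩
  · exact (alt y).imp id fun ⟨σ, e⟩ => ⟨σ.1, σ.2.2, e⟩
  · have hD := hF.st.dsc i
    have eq : EqOn Ψ (Θ ⟨σ, h0, h1⟩) (F i) := fun y hy => by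
      by_cases e : y ∈ W
      · rw [fix y e, (hm ⟨σ, h0, h1⟩).2 y fun k => k.2 e]
      · exact he ⟨σ, h0, h1⟩ ⟨hs hy, e⟩
    have i1 := (trk.mono (subset_iUnion F i)).trk.iw (hG.iF i)
    have i2 := (trk.mono (hD.sub.trans (subset_iUnion F i))).trk.iw (hG.iJ i)
    rw [eq.image_eq] at i1 ⊢
    rw [(eq.mono hD.sub).image_eq] at i2
    have hl := (hm ⟨σ, h0, h1⟩).1
    refine XS31_noC (hW d σ h0 h1).1 (hD.image hl.tp hl.inj.injOn) i1 i2 ?_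
      fun ω E γ hE e1 _ e3 => hn ⟨σ, h0, h1⟩ i ω E γ hE e1 (fun z hz => ?_) e3
    · rw [← (hm ⟨σ, h0, h1⟩).image_eq sdiff_subset]
      exact image_mono hs
    · obtain ⟨⟨x, a1, rfl⟩, a2⟩ := e1 hz
      exact (XS31_map (hm ⟨σ, h0, h1⟩)).2
        ⟨hs a1, disjoint_left.1 hd ⟨a1, fun k => a2 (mem_image_of_mem _ k)⟩⟩

end BEp
end
end

-- merged part: Pool.Agent.Work.MP_f0515e_an.P3.XS3
section
/-! The moves along the edges of the cube complex, colour by colour.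
`Api.s3one`: for every nonempty `σ` without classes of colour `d` and with nonempty region `U σ = Rg1 σ {dim = d} \ W` take the system of `SysOn`; `U σ` lies in the star of a class of `σ` (`lf2`), `LFm.loc`, `smL`; the regions are disjoint and locally finite (`lf1`); `gm_glue`. A global wall meets `U σ` in walls of the system (apply the last clause of `SysOn` to a point), and a fibre is inside or outside `U σ`.
`NoL` for the cut system gives `NoL` for the uncut one when `F \ J` misses `W` (`W` is fixed), then `smL_noC`; circles are preconnected.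
`Api.anc`: if the image meets a wall at `Φ z`, it is a wall through `z`, of class `v`. If `dim v = d` then `z` and `Φ z` lie in `Rg1 (σ \ {dim = d}) {dim = d}` (a class with `t = 1` at `z` is in `σ` and has another colour), and the other classes of colour `d` vanish at both points (`col`); otherwise `z` is fixed. Then `rg_conn`.
`Api.par_line`: the uncut system, `epar2` with one colour (`ESL_open`, `sys_closed`), `Par.of_sub`; `par_free`. `Api.stage3`: four steps; invariant for a disc: anchored, and `NoC` or (`F \ J` misses `W` and `d ≤ dim v`). About 550 lines; three tasks. -/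

open Set Metric Filter Topology Function BEv
open scoped NNReal

noncomputable section
namespace BEp

variable {n m : ℕ}

variable {ν ι : Type} {V : Set (Rn 3)} {g C : ℝ} {Cf : (Rn 3 ≃L[ℝ] Rn 3) → ℝ} {P : ι → Pc} {T : TS}
  {c : Rn 3 → ℝ} {t : ν → Rn 3 → ℝ} {mv : ν → Rn 3 → ℝ → Rn 3} {dim : ν → ℕ} {b : ν → Rn 3}
  {A : ν → Set ℝ} {ε : ν → ℝ} {μ : Type} {F J : μ → Set (Rn 3)} {W : Set (Rn 3)}

theorem XS32_cls {σ D : Set ν} {z : Rn 3} {ω : ν × ℝ} (h : z ∈ Rg1 V t A ε σ D)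
    (k : z ∈ gN V t A ε ω) : ω.1 ∈ D := by
  by_contra e
  obtain ⟨h1, h2⟩ := h.2 _ e _ k.2.1
  obtain ⟨k1, k2⟩ := abs_le.1 k.2.2
  by_cases j : ω.1 ∈ σ
  · linarith [h1 j]
  · linarith [h2 j]

theorem XS32_pos (h : Api V g C Cf P T c t mv dim b) (hA : XLev g A ε) {z : Rn 3} {ω : ν × ℝ}
    (k : z ∈ gN V t A ε ω) : 0 < t ω.1 z ∧ t ω.1 z < 1 := by
  obtain ⟨k1, k2⟩ := abs_le.1 k.2.2
  obtain ⟨a1, a2⟩ := hA.inn _ _ k.2.1
  exact ⟨by linarith [h.g0.1], by linarith [h.g0.1]⟩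

theorem Api.anc (h : Api V g C Cf P T c t mv dim b) (hA : XLev g A ε) (hF : LFm V F J) {d : ℕ}
    {Φ : Rn 3 → Rn 3} (k : St3 V t mv dim A ε W F J d Φ) {i : μ} {σ : Set ν} {v : ν}
    (hs : F i ⊆ Rg1 V t A ε σ {v}) :
    Φ '' F i ⊆ Rg1 V t A ε σ {v} ∨ ∀ ω, Disjoint (Φ '' F i) (gN V t A ε ω) := by
  refine or_iff_not_imp_right.2 fun e => ?_
  obtain ⟨ω, e⟩ := not_forall.1 e
  obtain ⟨_, ⟨z, hz, rfl⟩, hω⟩ := not_disjoint_iff.1 e
  have tr : ∀ z ∈ F i, ∀ ω, Φ z ∈ gN V t A ε ω → z ∈ gN V t A ε ω := fun z hz ω k' =>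
    (k.trk z (mem_iUnion.2 ⟨i, hz⟩) ω k').1
  refine h.rg_conn hA (k.gm.pdsc (hF.st.dsc i) (hF.sub i)).conn.isPreconnected
    ((image_mono (hF.sub i)).trans k.gm.bij.mapsTo.image_subset) ⟨_, ⟨z, hz, rfl⟩, ?_⟩ ?_
  · rcases k.reg z (hF.sub i hz) with e | ⟨σ', -, r1, r2⟩
    · rw [e]; exact hs hz
    have z1 := tr z hz ω hω
    obtain rfl : ω.1 = v := XS32_cls (hs hz) z1
    have hd : dim ω.1 = d := XS32_cls r1 z1
    refine ⟨r2.1, fun u hu a ha => ?_⟩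
    obtain ⟨p1, p2⟩ := (hs hz).2 u hu a ha
    have := hA.pos u
    by_cases j : dim u = d
    · have q : ∀ y ∈ gN V t A ε ω, t u y ≤ 0 := fun y hy => le_of_not_gt fun q =>
        hu (h.col y hy.1 _ _ q (XS32_pos h hA hy).1 (j.trans hd.symm))
      have := (hA.inn u a ha).1
      have := h.g0.1
      exact ⟨fun m => by linarith [p1 m, q z z1], fun _ => by linarith [q _ hω]⟩
    · obtain ⟨q1, q2⟩ := r1.2 u j a ha
      obtain ⟨s1, s2⟩ := r2.2 u j a ha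
      exact ⟨fun m => s1 (by_contra fun m' => by linarith [p1 m, q2 m']),
        fun m => s2 fun m' => by linarith [p2 m, q1 m']⟩
  · rintro _ ⟨y, hy, rfl⟩ ω k'
    exact XS32_cls (hs hy) (tr y hy ω k')

theorem Api.par_line (h : Api V g C Cf P T c t mv dim b) (hA : XLev g A ε)
    (hW : SysW V t mv dim A ε W) {F J : Set (Rn 3)} (hF : PDsc F J)
    (h1 : ∀ ω, Iw (gN V t A ε ω) (gf mv ε ω) F) (h2 : ∀ ω, Iw (gN V t A ε ω) (gf mv ε ω) J)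
    {σ : Set ν} {v : ν} (hs : F ⊆ Rg1 V t A ε σ {v}) (hC : NoC (gN V t A ε) (gf mv ε) F) :
    Par (gN V t A ε) (gf mv ε) F J := by
  by_cases e : ∀ ω, Disjoint F (gN V t A ε ω)
  · exact par_free hF e
  obtain ⟨ω, e⟩ := not_forall.1 e
  obtain ⟨z, hz, hω⟩ := not_disjoint_iff.1 e
  obtain rfl : ω.1 = v := XS32_cls (hs hz) hω
  obtain ⟨u, hu⟩ := h.one z hω.1
  obtain ⟨z0, z1⟩ := XS32_pos h hA hω
  have ne : u ≠ ω.1 := fun e => z1.ne (e ▸ hu)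
  obtain ⟨κ, _, _, θ, R, bR, B, bB, η, π, hS, eO, p1, p2⟩ := (hW (dim ω.1) (σ \ {w | dim w = dim ω.1})
    ⟨u, by_contra fun m => by
      obtain ⟨a, ha⟩ := hA.ne u
      linarith only [hu, hs, hz, ne, ha, m, hA, h, ((hs hz).2 u ne a ha).2 m, (hA.inn u a ha).2, hA.pos u, h.g0.1],
      fun j => ne (h.col z hω.1 _ _ (hu ▸ one_pos) z0 j)⟩ fun _ k => k.2).1
  have sO' : F ⊆ Rg1 V t A ε (σ \ {w | dim w = dim ω.1}) {w | dim w = dim ω.1} := fun y hy =>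
    ⟨(hs hy).1, fun w hw a ha =>
      have q := (hs hy).2 w (fun e : w = ω.1 => hw (congrArg dim e)) a ha
      ⟨fun m => q.1 m.1, fun m => q.2 fun m' => m ⟨m', hw⟩⟩⟩
  have iw : ∀ {S}, (∀ ω, Iw (gN V t A ε ω) (gf mv ε ω) S) → ∀ w,
      Iw (cN (θ w) (R w \ bR w)) (cf (θ w)) S := fun k w x hx m s hs' =>
    (p1 w x m).2 s hs' ▸ k _ x hx (p1 w x m).1 s hs'
  refine Par.of_sub hF.sub (π := π) (fun w x _ m => p1 w x m) (fun ω' x hx m => ?_)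
    (epar2 (col := fun _ => true) hF hS.lh (fun w => ESL_open (hS.rb w)) (iw h1) (iw h2)
      (sys_closed hS hF.cpt.isClosed (eO ▸ sO')) (fun w w' k _ => (hS.dw w w' k).mono_left
        inter_subset_right) (fun _ _ k => (k rfl).elim) (fun w γ k1 k2 => hC (π w) γ k1 fun x hx => ?_)
      fun _ _ k => (k rfl).elim)
  · obtain ⟨w, w1, w2⟩ := p2 ω' {x} (singleton_subset_iff.2 ⟨m, sO' hx⟩) isPreconnected_singleton
      (singleton_nonempty x)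
    exact ⟨w, w1, w2 rfl⟩
  · obtain ⟨m1, m2, m3⟩ := k2 hx
    exact ⟨m1, (p1 w x m2).1, ((p1 w x m2).2 0 ⟨by norm_num, by norm_num⟩).symm.trans m3⟩

theorem XS3c_gh (hF : LFm V F J) (hG : GH V t mv A ε F J) {Φ : Rn 3 → Rn 3}
    (k : Trk1 (gN V t A ε) (gf mv ε) Φ (⋃ c, F c)) :
    GH V t mv A ε (fun c => Φ '' F c) fun c => Φ '' J c := by
  have s (i : μ) : J i ⊆ ⋃ c, F c := (hF.st.dsc i).sub.trans (subset_iUnion F i)
  refine ⟨fun i => (k.mono (subset_iUnion F i)).trk.iw (hG.iF i),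
    fun i => (k.mono (s i)).trk.iw (hG.iJ i), ?_⟩
  rintro i _ ⟨z, hz, rfl⟩ ω ω' h1 h2
  exact hG.two i z hz ω ω' (k z (s i hz) ω h1).1 (k z (s i hz) ω' h2).1

theorem XS3c_step (h : Api V g C Cf P T c t mv dim b) (hA : XLev g A ε) (hF : LFm V F J)
    (hG : GH V t mv A ε F J) {d : ℕ} {Φ : Rn 3 → Rn 3} (k : St3 V t mv dim A ε W F J d Φ) {i : μ}
    {σ : Set ν} {v : ν} (e : (∀ ω, Disjoint (F i) (gN V t A ε ω)) ∨ F i ⊆ Rg1 V t A ε σ {v} ∧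
      (NoC (gN V t A ε) (gf mv ε) (F i) ∨ Disjoint (F i \ J i) W ∧ d ≤ dim v)) :
    (∀ ω, Disjoint (Φ '' F i) (gN V t A ε ω)) ∨ Φ '' F i ⊆ Rg1 V t A ε σ {v} ∧
      (NoC (gN V t A ε) (gf mv ε) (Φ '' F i) ∨
        Disjoint (Φ '' F i \ Φ '' J i) W ∧ d + 1 ≤ dim v) := by
  have tk := k.trk.mono (subset_iUnion F i)
  by_cases fr : ∀ ω, Disjoint (F i) (gN V t A ε ω)
  · refine Or.inl fun ω => disjoint_left.2 ?_
    rintro _ ⟨z, hz, rfl⟩ h1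
    exact disjoint_left.1 (fr ω) hz (tk z hz ω h1).1
  obtain ⟨hs, e⟩ := e.resolve_left fr
  refine (h.anc hA hF k hs).symm.imp_right fun hs' => ⟨hs', ?_⟩
  rcases e with e | ⟨e, hd⟩
  · obtain ⟨u, u', -, h2, -, h4⟩ := k.gm.tp (hF.st.dsc i).poly.1 (hF.sub i)
    exact Or.inl (tk.noC (hG.iF i) h2 h4 e)
  rcases hd.eq_or_lt with hd | hd
  · refine Or.inl (k.noc i (σ \ {w | dim w = d}) ?_ (fun w hw => hw.2) (fun y hy => ?_) e)
    · obtain ⟨ω, hω⟩ := not_forall.1 fr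
      obtain ⟨z, hz, h1⟩ := not_disjoint_iff.1 hω
      have h2 : ω.1 = v := by
        by_contra h2
        have h3 := (hs hz).2 ω.1 h2 ω.2 h1.2.1
        have h4 := abs_le.1 h1.2.2
        by_cases h5 : ω.1 ∈ σ
        · linarith only [h4, h3, h5, h3.1 h5, h4.2]
        · linarith only [h4, h3, h5, h3.2 h5, h4.1]
      have h3 := XFb1_in h hA h1.2.1 h1.2.2
      rw [h2] at h3
      obtain ⟨w, hw⟩ := h.one z h1.1
      have h4 : w ≠ v := fun h4 => h3.2.ne (h4 ▸ hw)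
      refine ⟨w, by_contra fun h5 => ?_, fun h5 => h4 (h.col z h1.1 w v (hw ▸ one_pos) h3.1
        (h5.trans hd))⟩
      obtain ⟨a, ha⟩ := hA.ne w
      linarith only [hw, hs, hz, h4, ha, h5, hA, h, ((hs hz).2 w h4 a ha).2 h5, (hA.inn w a ha).2, hA.pos w, h.g0.1]
    · refine ⟨(hs hy).1, fun w hw a ha => ?_⟩
      have h1 := (hs hy).2 w (fun h1 => hw ((congrArg dim h1).trans hd.symm)) a ha
      exact ⟨fun h2 => h1.1 h2.1, fun h2 => h1.2 fun h3 => h2 ⟨h3, hw⟩⟩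
  · refine Or.inr ⟨disjoint_left.2 ?_, hd⟩
    rintro _ ⟨⟨z, hz, rfl⟩, h1⟩ h2
    have h3 := k.gm.bij.injOn (k.gm.bij.mapsTo (hF.sub i hz)) (hF.sub i hz) (k.fix _ h2)
    exact disjoint_left.1 e ⟨hz, fun h4 => h1 ⟨z, h4, rfl⟩⟩ (h3 ▸ h2)

theorem XS3c_ind (h : Api V g C Cf P T c t mv dim b) (hA : XLev g A ε)
    (hW : SysW V t mv dim A ε W) (hF : LFm V F J) (hG : GH V t mv A ε F J) (d : ℕ) :
    ∃ Φ, GM V Φ ∧ (∀ y ∈ V, Chn V t d y (Φ y)) ∧ (∀ y ∈ W, Φ y = y) ∧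
      Trk1 (gN V t A ε) (gf mv ε) Φ (⋃ c, F c) ∧ ∀ i σ v, F i ⊆ Rg1 V t A ε σ {v} →
        NoC (gN V t A ε) (gf mv ε) (F i) ∨ Disjoint (F i \ J i) W →
        (∀ ω, Disjoint (Φ '' F i) (gN V t A ε ω)) ∨ Φ '' F i ⊆ Rg1 V t A ε σ {v} ∧
          (NoC (gN V t A ε) (gf mv ε) (Φ '' F i) ∨
            Disjoint (Φ '' F i \ Φ '' J i) W ∧ d ≤ dim v) := by
  induction d with
  | zero =>
    refine ⟨id, GM.id' V, fun _ _ => rfl, fun _ _ => rfl, fun _ _ _ k => ⟨k, fun _ _ => rfl⟩,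
      fun i σ v h1 h2 => Or.inr ?_⟩
    rw [image_id, image_id]
    exact ⟨h1, h2.imp_right fun k => ⟨k, Nat.zero_le _⟩⟩
  | succ d ih =>
    obtain ⟨Φ, h1, h2, h3, h4, h5⟩ := ih
    obtain ⟨Ψ, k⟩ := h.s3one hA hW (h1.lfm hF) (XS3c_gh hF hG h4) d
    refine ⟨Ψ ∘ Φ, k.gm.comp h1, fun y hy => ⟨Φ y, h1.bij.mapsTo hy, h2 y hy,
      k.nb _ (h1.bij.mapsTo hy)⟩, fun y hy => ?_, h4.comp (image_iUnion ▸ k.trk),
      fun i σ v k1 k2 => ?_⟩
    · rw [comp_apply, h3 y hy, k.fix y hy]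
    · rw [image_comp, image_comp]
      exact XS3c_step h hA (h1.lfm hF) (XS3c_gh hF hG h4) k (h5 i σ v k1 k2)

theorem Api.stage3 (h : Api V g C Cf P T c t mv dim b) (hA : XLev g A ε) (hF : LFm V F J)
    (hG : GH V t mv A ε F J) : ∃ Φ, GM V Φ ∧ (∀ y ∈ V, Chn V t 4 y (Φ y)) ∧
      (∀ y ∈ B0 P, Φ y = y) ∧ Trk1 (gN V t A ε) (gf mv ε) Φ (⋃ c, F c) ∧
      ∀ i σ v, F i ⊆ Rg1 V t A ε σ {v} →
        NoC (gN V t A ε) (gf mv ε) (F i) ∨ Disjoint (F i \ J i) (BP P) →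
        (Φ '' F i ⊆ Rg1 V t A ε σ {v} ∨ ∀ ω, Disjoint (Φ '' F i) (gN V t A ε ω)) ∧
          Par (gN V t A ε) (gf mv ε) (Φ '' F i) (Φ '' J i) := by
  obtain ⟨W, w1, w2, hW⟩ := h.sys A ε hA
  obtain ⟨Φ, h1, h2, h3, h4, h5⟩ := XS3c_ind h hA hW hF hG 4
  refine ⟨Φ, h1, h2, fun y hy => h3 y (w1 hy), h4, fun i σ v k1 k2 => ?_⟩
  have hD := (h1.lfm hF).st.dsc i
  have hG' := XS3c_gh hF hG h4
  rcases h5 i σ v k1 (k2.imp_right fun k => k.mono_right w2) with k | ⟨k, k' | k'⟩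
  · exact ⟨Or.inr k, par_free hD k⟩
  · exact ⟨Or.inl k, h.par_line hA hW hD (hG'.iF i) (hG'.iJ i) k k'⟩
  · exact absurd k'.2 (h.dim4 v).not_ge

end BEp
end
end

-- merged part: Pool.Agent.Work.MP_f0515e_an.P3.XExch
section
/-! The exchange: `stage12`, then `stage3` at the finest level. For a disc of the first kind `Trk1.tame`, `Trk.frX`. For a disc of the second kind whose image meets a wall `ω`: only walls of the class `ω.1` meet the disc (`One (g / 2)`, oscillation at most `g / 16`), the fixed point lies in `Rg1 σ {ω.1}` with `σ = {w | 1 / 2 < t w z}`, so `rg_conn` anchors the disc and its image (`S12.anc`);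
a flat disc is fixed by the first map and has `NoC` by `Api.flat`; `BP` is fixed, so `Disjoint` persists. `FPar` from `Par` (or `par_free`) with the family `Jv`, the path clause and `GM.tp`; the legs by `Trk1` and `Nest.wall`. About 300 lines. -/

open Set Metric Filter Topology Function BEv
open scoped NNReal

noncomputable section
namespace BEp

variable {n m : ℕ}

variable {ν ι : Type} {V : Set (Rn 3)} {g C : ℝ} {Cf : (Rn 3 ≃L[ℝ] Rn 3) → ℝ} {P : ι → Pc} {T : TS}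
  {c : Rn 3 → ℝ} {t : ν → Rn 3 → ℝ} {mv : ν → Rn 3 → ℝ → Rn 3} {dim : ν → ℕ} {b : ν → Rn 3}
  {A : ν → Set ℝ} {e : ν → ℝ} {a r : ν → ℕ} {μ : Type} {F J : μ → Set (Rn 3)}

theorem XExch_dev {ε : ν → ℝ} (hA : XLev g A ε) {ω : ν × ℝ} {y : Rn 3} (hy : y ∈ gN V t A ε ω) :
    g < dev (t ω.1 y) := by
  have a := hA.inn _ _ hy.2.1
  have b := abs_le.1 hy.2.2
  exact lt_min (by linarith [a.1, b.1]) (by linarith [a.2, b.2])

theorem XExch_osc {s s' δ : ℝ} (h : |s - s'| ≤ δ) : dev s ≤ dev s' + δ := by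
  have b := abs_le.1 h
  have h1 : dev s ≤ s := min_le_left _ _
  have h2 : dev s ≤ 1 - s := min_le_right _ _
  rw [← sub_le_iff_le_add]
  exact le_min (by linarith [b.2]) (by linarith [b.1])

section
variable {κ : Type} {N : κ → Set (Rn 3)} {f : κ → Rn 3 → ℝ → Rn 3}

theorem XExch_tame {k k' : Rn 2 → Rn 3} {𝒥 : κ → Set (ℝ × ℝ)} (h : Tame N f k 𝒥)
    (e : EqOn k k' Tri) : Tame N f k' 𝒥 := fun p hp w hw => by
  rw [← e hp] at hw ⊢
  exact h p hp w hw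

theorem XExch_frX {k k' : Rn 2 → Rn 3} {d : ℝ} (h : FrX N d k) (e : EqOn k k' Tri) :
    FrX N d k' := fun p hp w hw => h p hp w (e hp ▸ hw)

theorem XExch_tameC {γ γ' : ℝ → Rn 3} {d : ℝ} {Λ : ℝ → ℝ} {x : κ → ℝ} (hd : 0 < d)
    (h : TameC N f γ fun w => Jv d Λ (x w)) (e : EqOn γ γ' (Icc 0 1)) :
    TameC N f γ' fun w => Jv d Λ (x w) := fun s hs w hw => by
  rw [← e hs] at hw ⊢
  obtain ⟨j, j1, σ, j2, j3, j4⟩ := h s hs w hw
  refine ⟨j, j1, σ, j2, j3, fun u hu => (e ⟨?_, ?_⟩).symm.trans (j4 u hu)⟩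
  · linarith only [hd, j1, hu, j1.1, j1.2.1, hu.1, mul_nonneg_of_nonpos_of_nonpos (le_of_lt (Mathlib.Tactic.Linarith.sub_neg_of_lt j1.left)) (Mathlib.Tactic.Linarith.sub_nonpos_of_le hu.left)]
  · nlinarith [j1.1, j1.2.2.1, hu.2]

end

/-- From `Par` of the image to `FPar`. -/
theorem XExch_fpar {A' : ν → Set ℝ} {ε' x x' : ν → ℝ} (hn : Nest A e A' ε') {S Z : Set (Rn 3)}
    (hS : PDsc S Z) (hV : S ⊆ V) {Ψ : Rn 3 → Rn 3} (hΨ : GM V Ψ)
    (hT : Trk1 (gN V t A' ε') (gf mv ε') Ψ S) (hp : PPar V t mv A e A' ε' x x' Ψ Z)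
    (k : Par (gN V t A' ε') (gf mv ε') (Ψ '' S) (Ψ '' Z)) : FPar V t mv A e A' ε' x x' Ψ S Z := by
  intro β d Λ D hd hD hβ hb hl ht
  obtain ⟨u, -, hu, -, eu, -⟩ := hΨ.tp hS.cpt hV
  have e1 : EqOn (Ψ ∘ β) (u ∘ β) bTri := fun p hp => eu (hS.sub (hb.mapsTo hp))
  have b1 : BijOn (Ψ ∘ β) bTri (Ψ '' Z) :=
    ((hΨ.bij.injOn.mono (hS.sub.trans hV)).bijOn_image).comp hb
  obtain ⟨k, 𝒥, k1, k2, k3, k4, k5, k6, k7⟩ := k (u ∘ β) (fun ω => Jv d Λ (D * x' ω.1)) d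
    (hu.comp hβ) (b1.congr e1) (fun p hp q w hw => by
      rw [← e1 hp] at hw
      obtain ⟨a', ha', -⟩ := hn.wall (hT _ (hS.sub (hb.mapsTo hp)) w hw).1
      exact hl p hp q _ ha') hd (fun _ j hj => ⟨hj.1, hj.2.1, hj.2.2.1⟩)
    (XExch_tameC hd (hp _ d Λ D hd hD (fun s hs => hb.mapsTo (epr_diag hs.1 hs.2)) ht)
      fun s hs => e1 (epr_diag hs.1 hs.2))
  exact ⟨k, k1, k2, k3.trans e1.symm, ⟨𝒥, k4, k5, k6⟩, k7⟩

/-- `FPar` survives a strongly tracking map. -/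
theorem XExch_fcomp {A' : ν → Set ℝ} {ε' x x' : ν → ℝ} {S Z : Set (Rn 3)}
    {Ψ Φ : Rn 3 → Rn 3} (hc : IsCompact (Ψ '' S)) (hV : Ψ '' S ⊆ V) (hΦ : GM V Φ)
    (hT : Trk1 (gN V t A' ε') (gf mv ε') Φ (Ψ '' S)) (k : FPar V t mv A e A' ε' x x' Ψ S Z) :
    FPar V t mv A e A' ε' x x' (Φ ∘ Ψ) S Z := by
  intro β d Λ D hd hD hβ hb hl ht
  obtain ⟨k, k1, k2, k3, ⟨𝒥, k4, k5, k6⟩, k7⟩ := k β d Λ D hd hD hβ hb hl ht
  obtain ⟨u, -, hu, -, eu, -⟩ := hΦ.tp hc hV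
  have e1 : EqOn (Φ ∘ k) (u ∘ k) Tri := fun p hp => eu (k2.mapsTo hp)
  refine ⟨u ∘ k, hu.comp k1, ?_, fun p hp => ?_,
    ⟨𝒥, k4, k5, XExch_tame (hT.tame k6 k2.mapsTo) e1⟩, XExch_frX (hT.trk.frX k7 k2.mapsTo) e1⟩
  · rw [image_comp]
    exact (((hΦ.bij.injOn.mono hV).bijOn_image).comp k2).congr e1
  · rw [← e1 hp.1]
    exact congrArg Φ (k3 hp)

theorem XExch_chn {y z w : Rn 3} (hy : y ∈ V) (h1 : Nb t y z) (h2 : Chn V t 4 z w) :
    Chn V t 5 y w := Chn.trans (k := 1) (k' := 4) ⟨y, hy, rfl, h1⟩ h2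

theorem Api.anc12 (h : Api V g C Cf P T c t mv dim b) {ε : ν → ℝ} (hA : XLev g A ε)
    {S : Set (Rn 3)} (hS : IsPreconnected S) (hV : S ⊆ V) (hs : Sma t (g / 16) S)
    (h1 : One t (g / 2) S) {Ψ : Rn 3 → Rn 3} (hΨ : GM V Ψ) (hz : ∃ z ∈ S, Ψ z = z)
    (hT : Trk1 (gN V t A ε) (gf mv ε) Ψ S) {ω : ν × ℝ} (hω : (S ∩ gN V t A ε ω).Nonempty) :
    ∃ σ, S ⊆ Rg1 V t A ε σ {ω.1} ∧ Ψ '' S ⊆ Rg1 V t A ε σ {ω.1} := by
  obtain ⟨y, hy, hyω⟩ := hω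
  obtain ⟨z, hz, ez⟩ := hz
  have g0 := h.g0.1
  have g1 := h.g0.2
  have big : ∀ x ∈ S, ∀ w, w ≠ ω.1 → dev (t w x) ≤ g / 2 := fun x hx w hw =>
    (h1 x hx w ω.1 hw).resolve_right fun k => by
      linarith only [g0, k, hA, hyω, hs, hy, hx, XExch_dev hA hyω, XExch_osc (hs.2 ω.1 y hy x hx)]
  have cls : ∀ x ∈ S, ∀ ω' : ν × ℝ, x ∈ gN V t A ε ω' → ω'.1 ∈ ({ω.1} : Set ν) :=
    fun x hx ω' k => by_contra fun q => by linarith [big x hx _ q, XExch_dev hA k]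
  have mem : z ∈ Rg1 V t A ε {w | 1 / 2 < t w z} {ω.1} := ⟨hV hz, fun v hv a ha => by
    have i := hA.inn v a ha
    have q := min_le_iff.1 (big z hz v hv)
    refine ⟨fun k => ?_, fun k => ?_⟩
    · have k' : 1 / 2 < t v z := k
      rcases q with q | q <;> linarith only [g0, g1, k', q, i, i.2]
    · have k' : t v z ≤ 1 / 2 := not_lt.1 k
      rcases q with q | q <;> linarith only [g0, i, q, g1, k', i.1]⟩
  refine ⟨_, h.rg_conn hA hS hV ⟨z, hz, mem⟩ cls, h.rg_conn hA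
    (hS.image _ ((hΨ.ltp.contOn h.opn).mono hV)) (hΨ.bij.mapsTo.mono_left hV).image_subset
    ⟨z, ⟨z, hz, ez⟩, mem⟩ ?_⟩
  rintro _ ⟨x, hx, rfl⟩ ω' k
  exact cls x hx ω' (hT x hx ω' k).1

theorem Api.exch (h : Api V g C Cf P T c t mv dim b) (hX : XIn V t mv g P dim A e a r F J) :
    ∃ Ψ, XOut V t mv g P A e a r F J Ψ := by
  have g0 := h.g0.1
  have g1 := h.g0.2
  obtain ⟨hA, hn, -⟩ := can_lev hX.lev.half.1 (κ := g / 4) (by linarith only [g0]) (by linarith only [g0, g1])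
    (r := r) (i := r) fun _ => le_rfl
  obtain ⟨Ψ, s⟩ := h.stage12 hX
  have hF := s.gm.lfm hX.lfm
  obtain ⟨Φ, gm, chn, fix, trk, anc⟩ := h.stage3 hA hF s.gh
  obtain ⟨W, w1, w2, -⟩ := h.sys _ _ hA
  have dsc := hX.lfm.st.dsc
  have tF : ∀ i, Trk1 (gN V t (cA A e r) (cE e (g / 4) r r)) (gf mv (cE e (g / 4) r r)) Φ
      (Ψ '' F i) := fun i => trk.mono (subset_iUnion (fun i => Ψ '' F i) i)
  have tJ : ∀ i, Trk1 (gN V t (cA A e r) (cE e (g / 4) r r)) (gf mv (cE e (g / 4) r r)) Φ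
      (Ψ '' J i) := fun i => (tF i).mono (image_mono (dsc i).sub)
  have path : ∀ i, PPar V t mv A e (cA A e r) (cE e (g / 4) r r) (fun v => 1 / 2 ^ a v)
      (fun v => (1 - g / 4) ^ 2 / 2 ^ (a v + r v)) (Φ ∘ Ψ) (J i) :=
    fun i γ d Λ D hd hD hγ ht =>
      (tJ i).tameC (s.path i γ d Λ D hd hD hγ ht) fun u hu => mem_image_of_mem Ψ (hγ u hu)
  have key : ∀ i, One t (g / 2) (F i) → (∃ z ∈ F i, Ψ z = z) →
      Trk1 (gN V t (cA A e r) (cE e (g / 4) r r)) (gf mv (cE e (g / 4) r r)) Ψ (F i) →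
      ∀ ω, (F i ∩ gN V t (cA A e r) (cE e (g / 4) r r) ω).Nonempty →
      ∃ σ, F i ⊆ Rg1 V t (cA A e r) (cE e (g / 4) r r) σ {ω.1} ∧
        (Φ '' (Ψ '' F i) ⊆ Rg1 V t (cA A e r) (cE e (g / 4) r r) σ {ω.1} ∨
          ∀ ω, Disjoint (Φ '' (Ψ '' F i)) (gN V t (cA A e r) (cE e (g / 4) r r) ω)) ∧
        Par (gN V t (cA A e r) (cE e (g / 4) r r)) (gf mv (cE e (g / 4) r r))
          (Φ '' (Ψ '' F i)) (Φ '' (Ψ '' J i)) := fun i o z k ω hω => by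
    obtain ⟨σ, a1, a2⟩ := h.anc12 hA (dsc i).conn.isPreconnected (hX.lfm.sub i) (hX.sma i) o s.gm
      z k hω
    refine ⟨σ, a1, anc i σ ω.1 a2 ((hX.flat i).imp (fun q w γ hγ hs => ?_) fun q => ?_)⟩
    · have e1 : Ψ '' F i = F i := EqOn.image_eq_self fun y hy => s.fix y (q hy)
      rw [e1] at hs
      have co := fun y hy => (h.co hA).1 (hs hy : y ∈ _).2
      obtain ⟨y0, hy0⟩ : γ.Nonempty := by
        obtain ⟨p, -, -, rfl⟩ := hγ
        exact range_nonempty _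
      have i1 := hA.inn _ _ (co y0 hy0).2.1
      have p1 := hA.pos w.1
      refine h.flat γ w.1 w.2 hγ (fun y hy => q (hs hy).1) ⟨by linarith only [i1, p1, i1.1], by linarith only [i1, p1, i1.2]⟩
        (fun y hy => (co y hy).2.2) fun y hy v hv => (o y (hs hy).1 v w.1 hv).resolve_right
          fun k' => ?_
      linarith only [g0, k', hA, hs, hy, XExch_dev hA (hs hy).2.1]
    · refine disjoint_left.2 ?_
      rintro _ ⟨⟨y, hy, rfl⟩, k1⟩ k2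
      have yV := hX.lfm.sub i hy
      have e1 : Ψ y = y := s.gm.bij.injOn (s.gm.bij.mapsTo yV) yV (s.fix _ k2)
      exact disjoint_left.1 q ⟨hy, fun k3 => k1 (mem_image_of_mem Ψ k3)⟩ (e1 ▸ k2)
  refine ⟨Φ ∘ Ψ, gm.comp s.gm, fun y hy => XExch_chn hy (s.nb y hy) (chn _ (s.gm.bij.mapsTo hy)),
    fun y hy => by rw [comp_apply, s.fix y (w2 (w1 hy)), fix y hy], ⟨fun i ω => ?_, fun i ω => ?_,
      fun i x hx ω ω' k k' => ?_⟩, path, fun i => ?_, fun i o z hz ω hω => ?_⟩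
  · rw [image_comp]
    exact (tF i).trk.iw (s.gh.iF i) ω
  · rw [image_comp]
    exact (tJ i).trk.iw (s.gh.iJ i) ω
  · obtain ⟨y, hy, rfl⟩ := hx
    have m := mem_image_of_mem Ψ hy
    exact s.gh.two i _ m ω ω' (tJ i _ m ω k).1 (tJ i _ m ω' k').1
  · rcases s.face i with ⟨-, k⟩ | ⟨o, z, k⟩
    · exact XExch_fcomp (hF.st.dsc i).cpt (hF.sub i) gm (tF i) k
    refine XExch_fpar hn (dsc i) (hX.lfm.sub i) (gm.comp s.gm) (k.comp (tF i)) (path i) ?_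
    rw [image_comp, image_comp]
    by_cases q : ∃ ω, (F i ∩ gN V t (cA A e r) (cE e (g / 4) r r) ω).Nonempty
    · obtain ⟨ω, hω⟩ := q
      obtain ⟨σ, -, -, k'⟩ := key i o z k ω hω
      exact k'
    · refine par_free (gm.pdsc (hF.st.dsc i) (hF.sub i)) fun ω => disjoint_left.2 ?_
      rintro _ ⟨_, ⟨y, hy, rfl⟩, rfl⟩ k'
      exact q ⟨ω, y, hy, (k.comp (tF i) y hy ω k').1⟩
  · obtain ⟨o', z', k⟩ := (s.face i).resolve_left fun k => k.1 o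
    have m := (k.comp (tF i) z hz ω hω).1
    obtain ⟨σ, a1, a2, -⟩ := key i o' z' k ω ⟨z, hz, m⟩
    refine ⟨m, σ, a1, ?_⟩
    rw [image_comp]
    exact a2.resolve_right fun q =>
      disjoint_left.1 (q ω) (mem_image_of_mem Φ (mem_image_of_mem Ψ hz)) hω

end BEp
end
end

-- merged part: Pool.Agent.Work.MP_f0515e_an.P3.XChd1
section
/-! Chords: the slope of the free class along an edge of a chord. -/

open Set Metric Filter Topology Function BEv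
open scoped NNReal

noncomputable section
namespace BEp

variable {ν ι : Type} {V : Set (Rn 3)} {g C : ℝ} {Cf : (Rn 3 ≃L[ℝ] Rn 3) → ℝ} {P : ι → Pc} {T : TS}
  {c : Rn 3 → ℝ} {t : ν → Rn 3 → ℝ} {mv : ν → Rn 3 → ℝ → Rn 3} {dim : ν → ℕ} {b : ν → Rn 3}
  {Ω : Set (Rn 3)} {K : Kx Ω} {G : Rn 3 → Rn 3} {θ : Rn 3 → ℝ} {ch : Set (Rn 3) → Ch}
  {r R τ : Set (Rn 3) → ℝ}

theorem XChd1_nr (h : XCtx V g C P T t mv dim K G Cf c b θ ch r R τ) {i : ι} {j : Fin 3}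
    (hi : (P i).I = {j}) {x : Rn 3} (hx : x ∈ (P i).Q (P i).ρ) :
    x ∈ Ω ∧ G x ∈ V ∧ (P i).Nr (g * (P i).l / Cf (P i).A) (G x) := by
  have c1 : (P i).I.card = 1 := by rw [hi, Finset.card_singleton]
  have e : (P i).ρx = (P i).ρ := by rw [Pc.ρx, c1, if_neg (by norm_num)]
  have hx' : x ∈ (P i).Q (P i).ρx := e ▸ hx
  have h1 : x ∈ Ω := h.hin.QS i hx'
  exact ⟨h1, h.hin.sub (mem_image_of_mem _ h1), x, ⟨hx', fun k => by omega⟩, h.hin.chd i c1 x hx⟩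

theorem XCtx.chd_uq (h : XCtx V g C P T t mv dim K G Cf c b θ ch r R τ) {i : ι} {j : Fin 3}
    (hi : (P i).I = {j}) {x : Rn 3} (hx : x ∈ (P i).Q (P i).ρ) :
    ∃ v₀, ∀ v, v ≠ v₀ → dev (t v (G x)) ≤ g / 32 :=
  (h.api.chd i j hi (G x) (XChd1_nr h hi hx).2.1 (XChd1_nr h hi hx).2.2).1

theorem XChd1_clq (g s s' : ℝ) : |clq g s - clq g s'| ≤ |s - s'| :=
  (abs_max_sub_max_le_max _ _ _ _).trans (max_le (by simp)
    ((abs_min_sub_min_le_max _ _ _ _).trans (max_le le_rfl (by simp))))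

theorem XChd1_dev {g s : ℝ} (h : g / 2 ≤ dev s) : s ∈ Icc (g / 2) (1 - g / 2) := by
  have := le_min_iff.1 h
  exact ⟨this.1, by linarith only [this, this.2]⟩

theorem XChd1_dir {Q : Pc} {j : Fin 3} (hi : Q.I = {j}) {x y : Rn 3} (hx : x ∈ Q.Q Q.ρ)
    (hy : y ∈ Q.Q Q.ρ) : y - x = (y j - x j) • (Pi.single j 1 : Rn 3) := by
  funext k
  by_cases e : k = j
  · subst e
    simp
  · have hk : k ∉ Q.I := by rw [hi]; simpa using e
    simp [e, hx.1 k hk, hy.1 k hk]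

theorem XChd1_var [Finite ι] (h : XCtx V g C P T t mv dim K G Cf c b θ ch r R τ) {i : ι} {j : Fin 3}
    (hi : (P i).I = {j}) {x y : Rn 3} (he : K.Edge x y) (hs : segment ℝ x y ⊆ (P i).Q (P i).ρ)
    {v : ν} (hv : g / 2 ≤ dev (t v (G x))) {κ : ℝ} (k0 : κ ≠ 0)
    (k : ∀ z ∈ V, (P i).Nr (g * (P i).l / Cf (P i).A) z → t v z ∈ Icc (g / 2) (1 - g / 2) →
      (∀ w, w ≠ v → (1 / 2 < t w (G x) ↔ 1 / 2 < t w z)) → LL (t v) z (Cf (P i).A / (4 * |κ|)) ∧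
        ∀ᶠ s in 𝓝 (0 : ℝ), |κ| * |t v (z + s • (P i).A (Pi.single j 1)) - t v z| ≤ |s|) :
    ENNReal.ofReal |κ| * eVariationOn (fun s => clq g (t v (G (seg x y s)))) (Icc 0 1) ≤
      ENNReal.ofReal ‖y - x‖ +
        ENNReal.ofReal (Cf (P i).A / 4) * vr (fun z => G z - (P i).aff z) x y := by
  have g0 := h.api.g0
  have kp : 0 < |κ| := abs_pos.2 k0
  have cf : 0 ≤ Cf (P i).A := zero_le_one.trans (h.cf _)
  have hx := hs (left_mem_segment ℝ x y)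
  have hy := hs (right_mem_segment ℝ x y)
  have sm : ∀ s ∈ Icc (0 : ℝ) 1, seg x y s ∈ segment ℝ x y := fun s k =>
    seg_image x y ▸ mem_image_of_mem _ k
  have nr := fun s k => XChd1_nr h hi (hs (sm s k))
  have cs : Continuous (seg x y) := by unfold seg; fun_prop
  have cG : ContinuousOn (fun s => G (seg x y s)) (Icc 0 1) :=
    (LTP.contOn h.hin.opn h.hin.ltp).comp cs.continuousOn fun s k => (nr s k).1
  have ct : ContinuousOn (fun s => t v (G (seg x y s))) (Icc 0 1) :=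
    (LTP.contOn h.api.opn (h.api.ltp v)).comp cG fun s k => (nr s k).2.1
  have cq : Continuous (clq g) := by unfold clq; fun_prop
  obtain ⟨v₀, h0⟩ := h.chd_uq hi hx
  have e0 : v = v₀ := by
    by_contra e
    linarith only [hv, g0, h0, e, h0 v e]
  subst e0
  have sma := (h.sma he.2 (he.dm.le.trans one_le_two) (h.chd_ofs hi he hs)).2
  rw [he.cl] at sma
  have key := var_right (h := fun s => clq g (t v (G (seg x y s))))
    (e := fun s => G (seg x y s) - (P i).aff (seg x y s)) (A := ‖y - x‖ / |κ|)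
    (B := Cf (P i).A / (4 * |κ|)) (cq.comp_continuousOn ct) (by positivity) (by positivity)
    fun s hs' => ?_
  · refine (mul_le_mul' le_rfl key).trans_eq ?_
    rw [mul_add, ← mul_assoc, ← ENNReal.ofReal_mul kp.le, ← ENNReal.ofReal_mul kp.le, vr]
    congr 3 <;> field_simp
  have s1 : s ∈ Icc (0 : ℝ) 1 := Ico_subset_Icc_self hs'
  have le : 𝓝[>] s ≤ 𝓝[Icc 0 1] s :=
    nhdsWithin_le_of_mem (mem_of_superset (Ioo_mem_nhdsGT hs'.2)
      fun u hu => ⟨hs'.1.trans hu.1.le, hu.2.le⟩)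
  have pos : ∀ u, s < u → 0 ≤ ‖y - x‖ / |κ| * (u - s) + Cf (P i).A / (4 * |κ|) *
      ‖G (seg x y u) - (P i).aff (seg x y u) - (G (seg x y s) - (P i).aff (seg x y s))‖ :=
    fun u hu => by have := sub_pos.2 hu; positivity
  have tt := (ct s s1).mono_left le
  rcases lt_or_ge (t v (G (seg x y s))) (g / 2) with a | a
  · filter_upwards [tt.eventually (gt_mem_nhds a), self_mem_nhdsWithin] with u h1 h2
    rw [clq, clq, max_eq_left ((min_le_left _ _).trans h1.le),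
      max_eq_left ((min_le_left _ _).trans a.le), sub_self, abs_zero]
    exact pos u h2
  rcases lt_or_ge (1 - g / 2) (t v (G (seg x y s))) with a' | a'
  · filter_upwards [tt.eventually (lt_mem_nhds a'), self_mem_nhdsWithin] with u h1 h2
    rw [clq, clq, min_eq_right h1.le, min_eq_right a'.le, sub_self, abs_zero]
    exact pos u h2
  obtain ⟨k1, k2⟩ := k _ (nr s s1).2.1 (nr s s1).2.2 ⟨a, a'⟩ fun w hw => by
    have h1 := abs_le.1 (sma w _ (mem_image_of_mem _ (left_mem_segment ℝ x y)) _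
      (mem_image_of_mem _ (sm s s1)))
    rcases min_le_iff.1 (h0 w hw) with h2 | h2
    · exact iff_of_false (by linarith only [g0, h2, h1.1]) (by linarith only [g0, h1, h2, h1.1])
    · exact iff_of_true (by linarith only [g0, h2, h1.2]) (by linarith only [g0, h1, h2, h1.2])
  have t0 : Tendsto (fun u : ℝ => (u - s) * (y j - x j)) (𝓝[>] s) (𝓝 0) := by
    have : Continuous fun u : ℝ => (u - s) * (y j - x j) := by fun_prop
    simpa using (this.tendsto s).mono_left nhdsWithin_le_nhds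
  have t1 : Tendsto (fun u : ℝ => (G (seg x y u), G (seg x y s) +
      ((u - s) * (y j - x j)) • (P i).A (Pi.single j 1))) (𝓝[>] s)
      (𝓝 (G (seg x y s), G (seg x y s))) := by
    refine Tendsto.prodMk_nhds ((cG s s1).mono_left le) ?_
    simpa using (t0.smul_const ((P i).A (Pi.single j 1))).const_add (G (seg x y s))
  filter_upwards [t1.eventually k1, t0.eventually k2, self_mem_nhdsWithin] with u h1 h2 h3
  have h4 : 0 < u - s := sub_pos.2 h3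
  have e1 : (P i).aff (seg x y u) - (P i).aff (seg x y s) =
      ((u - s) * (y j - x j)) • (P i).A (Pi.single j 1) := by
    rw [Pc.aff, Pc.aff, add_sub_add_right_eq_sub, ← map_sub, ← map_smul, mul_smul,
      ← XChd1_dir hi hx hy, seg, seg, sub_smul]
    congr 1
    abel
  have e2 : G (seg x y u) - (G (seg x y s) + ((u - s) * (y j - x j)) • (P i).A (Pi.single j 1)) =
      G (seg x y u) - (P i).aff (seg x y u) - (G (seg x y s) - (P i).aff (seg x y s)) := by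
    rw [← e1]
    abel
  simp only [e2, Real.norm_eq_abs] at h1
  have h5 : |(u - s) * (y j - x j)| ≤ ‖y - x‖ * (u - s) := by
    rw [abs_mul, abs_of_pos h4, mul_comm]
    exact mul_le_mul_of_nonneg_right (norm_le_pi_norm (y - x) j) h4.le
  refine (XChd1_clq _ _ _).trans ((abs_sub_le _ (t v (G (seg x y s) +
    ((u - s) * (y j - x j)) • (P i).A (Pi.single j 1))) _).trans ?_)
  rw [add_comm]
  refine add_le_add ?_ h1
  rw [div_mul_eq_mul_div, le_div_iff₀' kp]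
  exact h2.trans h5

theorem XCtx.kap [Finite ι] (h : XCtx V g C P T t mv dim K G Cf c b θ ch r R τ) :
    ∃ κ : ι → Rn 3 → ℝ, ∀ i j, (P i).I = {j} → ∀ x y, K.Edge x y →
      segment ℝ x y ⊆ (P i).Q (P i).ρ → ∀ v, g / 2 ≤ dev (t v (G x)) →
      Lin V t {w | 1 / 2 < t w (G x)} v (κ i x • (P i).A (Pi.single j 1)) ∧
      ENNReal.ofReal |κ i x| * eVariationOn (fun s => clq g (t v (G (seg x y s)))) (Icc 0 1) ≤
        ENNReal.ofReal ‖y - x‖ +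
          ENNReal.ofReal (Cf (P i).A / 4) * vr (fun z => G z - (P i).aff z) x y := by
  have g0 := h.api.g0
  suffices H : ∀ i x, ∃ κ : ℝ, ∀ j, (P i).I = {j} → ∀ y, K.Edge x y →
      segment ℝ x y ⊆ (P i).Q (P i).ρ → ∀ v, g / 2 ≤ dev (t v (G x)) →
      Lin V t {w | 1 / 2 < t w (G x)} v (κ • (P i).A (Pi.single j 1)) ∧
      ENNReal.ofReal |κ| * eVariationOn (fun s => clq g (t v (G (seg x y s)))) (Icc 0 1) ≤
        ENNReal.ofReal ‖y - x‖ +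
          ENNReal.ofReal (Cf (P i).A / 4) * vr (fun z => G z - (P i).aff z) x y by
    choose κ hκ using H
    exact ⟨κ, fun i j hi x => hκ i x j hi⟩
  intro i x
  by_cases k : ∃ j v, (P i).I = {j} ∧ x ∈ (P i).Q (P i).ρ ∧ g / 2 ≤ dev (t v (G x))
  · obtain ⟨j, v, hi, hx, hv⟩ := k
    obtain ⟨-, n1, n2⟩ := XChd1_nr h hi hx
    obtain ⟨⟨v₀, h0⟩, h1⟩ := h.api.chd i j hi (G x) n1 n2
    obtain ⟨κ, k0, k1, k2⟩ := h1 v (XChd1_dev hv)
    refine ⟨κ, fun j' hj y he hs v' hv' => ?_⟩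
    have uq : ∀ w, g / 2 ≤ dev (t w (G x)) → w = v₀ := fun w hw => by
      by_contra e
      linarith only [g0, hw, h0, e, h0 w e]
    obtain rfl : j = j' := Finset.singleton_injective (hi.symm.trans hj)
    obtain rfl : v = v' := (uq v hv).trans (uq v' hv').symm
    refine ⟨fun z hz z' hz' e1 e2 => ?_, XChd1_var h hi he hs hv k0 k1⟩
    rw [k2 z hz z' hz' e1 fun w hw => ⟨(e2 w hw).1, fun a => (e2 w hw).2 (not_lt.2 a)⟩,
      smul_smul, mul_comm]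
  · exact ⟨0, fun j hi y _ hs v hv =>
      (k ⟨j, v, hi, hs (left_mem_segment ℝ x y), hv⟩).elim⟩

end BEp
end
end
end
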