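import Pool.Agent.Work.MP_f0515e_an.P3.ZDefs
import Pool.Agent.Work.MP_f0515e_an.D3.EML
import Pool.Agent.Work.MP_f0515e_an.D3.KA3
import Pool.Agent.Work.MP_f0515e_an.D3.KA4

-- merged part: Pool.Agent.Work.MP_f0515e_an.P3.ZLab
section
/-! Increments of labels.
`zloc`: `IsClosed.Icc_subset_of_forall_exists_gt` for `{t | D 0 t ≤ M * t}`.
`zcov`: along the segment from `x` to `y`; near a point only the closed sets of the family which contain it matter (finitely many closed sets), `zloc` with `D s t = ‖k (seg x y s) - k (seg x y t)‖`.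
`zcore`: first replace `c` by `max c 0` (needed for the triangle inequality). `zloc` along the segment with `D s t = ∑ w ∈ W, c w * |lam w (seg q q' s) - lam w (seg q q' t)|`. For each `w` the closed (in `B`) sets `lam w = 1`, `lam w = -1`,
`|q k - j.1| ≤ j.2 ∧ lam w q = σ * ((q k - j.1) / j.2)` form a finite cover; a point near `x` lies only in sets that contain `x`. For each `k` at most one `w` is in a set of the last kind
(two intervals containing `x k` are equal by `Ivs.dis`, then `IvW.dis`); bound the sum by `∑ w, (if w = w₀ then _ else 0) + (if w = w₁ then _ else 0)` or split `W` by `Finset.filter` and use `Finset.card_le_one`.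
`zedge`: `zcore` with `B = {q | q 0 ∈ Icc 0 1 ∧ q 1 = -5}`, `lam' w q = lam w (q 0)`. `EdT.rev`: intervals `(1 - j.1, j.2)`. About 300 lines. -/

open Set Metric Filter Topology Function BEv MeasureTheory
open scoped NNReal ENNReal

noncomputable section
namespace BEp

theorem zloc {D : ℝ → ℝ → ℝ} {M : ℝ} (h0 : D 0 0 ≤ 0) (tri : ∀ x t, D 0 t ≤ D 0 x + D x t)
    (hc : ContinuousOn (D 0) (Icc 0 1))
    (hl : ∀ x ∈ Ico (0 : ℝ) 1, ∀ᶠ t in 𝓝[>] x, D x t ≤ M * (t - x)) : D 0 1 ≤ M := by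
  have h := IsClosed.Icc_subset_of_forall_mem_nhdsWithin (s := {t | D 0 t ≤ M * t}) (a := 0) (b := 1)
    (by
      rw [inter_comm]
      exact isClosed_Icc.isClosed_le hc (continuousOn_const.mul continuousOn_id))
    (show D 0 0 ≤ M * 0 by rwa [mul_zero]) (fun x hx => (hl x hx.2).mono fun t ht => by
      have h1 : D 0 x ≤ M * x := hx.1
      have h2 := tri x t
      change D 0 t ≤ M * t
      linarith)
  simpa using h (right_mem_Icc.2 zero_le_one)

theorem ZLab_near {ι : Type} {I : Set ι} (hI : I.Finite) {P : ι → ℝ → Prop}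
    (hc : ∀ i ∈ I, IsClosed (Icc (0 : ℝ) 1 ∩ {t | P i t})) {x : ℝ} (hx : x ∈ Ico (0 : ℝ) 1) :
    ∀ᶠ t in 𝓝[>] x, t ∈ Icc (0 : ℝ) 1 ∧ ∀ i ∈ I, P i t → P i x := by
  have h1 : ∀ᶠ t in 𝓝[>] x, t ∈ Icc (0 : ℝ) 1 := Icc_mem_nhdsGT_of_mem hx
  refine h1.and ((eventually_all_finite hI).2 fun i hi => ?_)
  by_cases h : P i x
  · exact Eventually.of_forall fun _ _ => h
  · filter_upwards [h1, mem_nhdsWithin_of_mem_nhds
      ((hc i hi).isOpen_compl.mem_nhds fun k => h k.2)] with t ht hn hp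
    exact (hn ⟨ht, hp⟩).elim

theorem ZLab_cont {n : ℕ} (x y : Rn n) : Continuous (seg x y) :=
  continuous_const.add (continuous_id.smul continuous_const)

theorem ZLab_mem {n : ℕ} {B : Set (Rn n)} (hB : Convex ℝ B) {x y : Rn n} (hx : x ∈ B) (hy : y ∈ B) :
    MapsTo (seg x y) (Icc 0 1) B := fun _ ht => hB.add_smul_sub_mem hx hy ht

theorem ZLab_sub {n : ℕ} (x y : Rn n) (s t : ℝ) : seg x y s - seg x y t = (t - s) • (x - y) := by
  simp only [seg]
  module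

theorem ZLab_le {σ a b : ℝ} (hσ : σ = 1 ∨ σ = -1) (hb : 0 < b) (h : |a| ≤ b) : |σ * (a / b)| ≤ 1 := by
  rw [abs_mul, (abs_eq zero_le_one).2 hσ, one_mul, abs_div, abs_of_pos hb]
  exact (div_le_one hb).2 h

/-- Lipschitz on the members of a finite closed cover of a convex set. -/
theorem zcov {n : ℕ} {B : Set (Rn n)} (hB : Convex ℝ B) {𝒵 : Set (Set (Rn n))} (hf : 𝒵.Finite)
    (hc : ∀ Z ∈ 𝒵, IsClosed Z) (hs : ∀ x ∈ B, ∃ Z ∈ 𝒵, x ∈ Z) {k : Rn n → Rn 3}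
    (hk : ContinuousOn k B) {M : ℝ}
    (h : ∀ Z ∈ 𝒵, ∀ x ∈ B ∩ Z, ∀ y ∈ B ∩ Z, ‖k x - k y‖ ≤ M * ‖x - y‖) :
    ∀ x ∈ B, ∀ y ∈ B, ‖k x - k y‖ ≤ M * ‖x - y‖ := by
  intro x hx y hy
  have hm := ZLab_mem hB hx hy
  have h1 := zloc (D := fun s t => ‖k (seg x y s) - k (seg x y t)‖) (M := M * ‖x - y‖) (by simp)
    (fun s t => norm_sub_le_norm_sub_add_norm_sub _ _ _)
    (continuousOn_const.sub (hk.comp (ZLab_cont x y).continuousOn hm)).norm fun s hs' => ?_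
  · simpa [seg] using h1
  filter_upwards [ZLab_near hf (P := fun Z t => seg x y t ∈ Z) (fun Z hZ =>
    isClosed_Icc.inter ((hc Z hZ).preimage (ZLab_cont x y))) hs', self_mem_nhdsWithin] with t ht hst
  obtain ⟨Z, hZ, hz⟩ := hs _ (hm ht.1)
  refine (h Z hZ _ ⟨hm (Ico_subset_Icc_self hs'), ht.2 Z hZ hz⟩ _ ⟨hm ht.1, hz⟩).trans_eq ?_
  rw [ZLab_sub, norm_smul, Real.norm_of_nonneg (sub_nonneg.2 (le_of_lt hst))]
  ring

variable {κ : Type} {N : κ → Set (Rn 3)} {f : κ → Rn 3 → ℝ → Rn 3} {c : κ → ℝ}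
  {𝒥 : κ → Set (ℝ × ℝ)}

theorem zcore (hJ : IvW 𝒥) {B : Set (Rn 2)} (hB : Convex ℝ B) (W : Finset κ)
    {lam : κ → Rn 2 → ℝ} (hc : ∀ w ∈ W, ContinuousOn (lam w) B)
    (hl : ∀ w ∈ W, LabT (𝒥 w) B (lam w)) {v : Fin 2 → ℝ} (hv : ∀ k, 0 ≤ v k)
    (hs : ∀ k, ∀ w ∈ W, ∀ j ∈ 𝒥 w, (∃ q ∈ B, |q k - j.1| ≤ j.2) → c w ≤ v k * j.2) :
    ∀ q ∈ B, ∀ q' ∈ B, ∑ w ∈ W, c w * |lam w q - lam w q'| ≤
      v 0 * |q 0 - q' 0| + v 1 * |q 1 - q' 1| := by
  classical
  intro q hq q' hq'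
  have hm := ZLab_mem hB hq hq'
  have hγ := ZLab_cont q q'
  have cl : ∀ w ∈ W, ContinuousOn (fun t => lam w (seg q q' t)) (Icc 0 1) := fun w hw =>
    (hc w hw).comp hγ.continuousOn hm
  refine (Finset.sum_le_sum fun w _ =>
    mul_le_mul_of_nonneg_right (le_max_left (c w) 0) (abs_nonneg _)).trans ?_
  have h1 := zloc (D := fun s t => ∑ w ∈ W, max (c w) 0 * |lam w (seg q q' s) - lam w (seg q q' t)|)
    (M := v 0 * |q 0 - q' 0| + v 1 * |q 1 - q' 1|) (by simp) (fun s t => ?_)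
    (continuousOn_finsetSum _ fun w hw =>
      continuousOn_const.mul (continuousOn_const.sub (cl w hw)).abs) fun s hs' => ?_
  · simpa [seg] using h1
  · rw [← Finset.sum_add_distrib]
    refine Finset.sum_le_sum fun w _ => ?_
    rw [← mul_add]
    exact mul_le_mul_of_nonneg_left (abs_sub_le _ _ _) (le_max_right _ _)
  have f2 : ({1, -1} : Set ℝ).Finite := toFinite _
  filter_upwards [ZLab_near (W.finite_toSet.prod f2)
      (P := fun i t => lam i.1 (seg q q' t) = i.2) (fun i hi =>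
        (cl _ hi.1).preimage_isClosed_of_isClosed isClosed_Icc isClosed_singleton) hs',
    ZLab_near ((W.finite_toSet.prod f2).prod (hJ.ivs.fin.prod (finite_univ (α := Fin 2))))
      (P := fun i t => |seg q q' t i.2.2 - i.2.1.1| ≤ i.2.1.2 ∧
        lam i.1.1 (seg q q' t) = i.1.2 * ((seg q q' t i.2.2 - i.2.1.1) / i.2.1.2)) (fun i hi => by
        have c1 : Continuous fun t => seg q q' t i.2.2 - i.2.1.1 :=
          ((continuous_apply _).comp hγ).sub continuous_const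
        have c2 := ((cl _ hi.1.1).sub (continuous_const.mul (c1.div_const i.2.1.2)
          (f := fun _ => i.1.2)).continuousOn).preimage_isClosed_of_isClosed isClosed_Icc
          (isClosed_singleton (x := 0))
        have c3 := c2.inter (isClosed_le c1.abs (continuous_const (y := i.2.1.2)))
        refine (congrArg IsClosed (Set.ext fun t => ?_)).mp c3
        simp only [mem_inter_iff, mem_preimage, mem_singleton_iff, mem_ofPred_eq, Pi.sub_apply,
          Pi.mul_apply, sub_eq_zero]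
        tauto) hs', self_mem_nhdsWithin] with t h1 h2 hst
  have hst' : 0 ≤ t - s := sub_nonneg.2 (le_of_lt hst)
  have a0 : ∀ k, 0 ≤ v k * |q k - q' k| * (t - s) := fun k =>
    mul_nonneg (mul_nonneg (hv k) (abs_nonneg _)) hst'
  have key : ∀ w ∈ W, max (c w) 0 * |lam w (seg q q' s) - lam w (seg q q' t)| ≤
      ∑ k, if ∃ j ∈ 𝒥 w, |seg q q' s k - j.1| ≤ j.2 then v k * |q k - q' k| * (t - s) else 0 := by
    intro w hw
    have n0 : ∀ k, 0 ≤ if ∃ j ∈ 𝒥 w, |seg q q' s k - j.1| ≤ j.2 then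
        v k * |q k - q' k| * (t - s) else 0 := fun k => ite_nonneg (a0 k) le_rfl
    rcases hl w hw _ (hm h1.1) with e | ⟨j, hj, k, σ, hσ, e1, e2⟩
    · have e' : lam w (seg q q' t) ∈ ({1, -1} : Set ℝ) := (abs_eq zero_le_one).1 e
      have e3 : lam w (seg q q' s) = lam w (seg q q' t) := h1.2 (w, _) ⟨hw, e'⟩ rfl
      rw [e3, sub_self, abs_zero, mul_zero]
      exact Finset.sum_nonneg fun k _ => n0 k
    · have hj' : j ∈ ⋃ w, 𝒥 w := mem_iUnion.2 ⟨w, hj⟩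
      have j0 := (hJ.ivs.pos j hj').1
      obtain ⟨e3, e4⟩ : |seg q q' s k - j.1| ≤ j.2 ∧
          lam w (seg q q' s) = σ * ((seg q q' s k - j.1) / j.2) :=
        h2.2 ((w, σ), j, k) ⟨⟨hw, hσ⟩, hj', trivial⟩ ⟨e1, e2⟩
      refine le_trans ?_ (Finset.single_le_sum (fun k _ => n0 k) (Finset.mem_univ k))
      have e5 : |σ| = 1 := (abs_eq zero_le_one).2 hσ
      have e6 : seg q q' s k - seg q q' t k = (t - s) * (q k - q' k) := congrFun (ZLab_sub q q' s t) k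
      rw [if_pos ⟨j, hj, e3⟩, e2, e4, ← mul_sub, ← sub_div, sub_sub_sub_cancel_right, e6, abs_mul, e5,
        one_mul, abs_div, abs_mul, abs_of_nonneg hst', abs_of_pos j0]
      refine (mul_le_mul_of_nonneg_right (max_le (hs k w hw j hj ⟨_, hm h1.1, e1⟩)
        (mul_nonneg (hv k) j0.le)) (by positivity)).trans_eq ?_
      field_simp
  refine (Finset.sum_le_sum key).trans ?_
  rw [Finset.sum_comm, add_mul, ← Fin.sum_univ_two fun k => v k * |q k - q' k| * (t - s)]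
  refine Finset.sum_le_sum fun k _ => ?_
  rw [← Finset.sum_filter, Finset.sum_const, nsmul_eq_mul]
  refine mul_le_of_le_one_left (a0 k) (Nat.cast_le_one.2 (Finset.card_le_one.2 fun w hw w' hw' => ?_))
  obtain ⟨j, hj, e⟩ := (Finset.mem_filter.1 hw).2
  obtain ⟨j', hj', e'⟩ := (Finset.mem_filter.1 hw').2
  by_cases hjj : j = j'
  · exact hJ.dis w w' j hj (hjj ▸ hj')
  · rw [abs_le] at e e'
    rcases hJ.ivs.dis j (mem_iUnion.2 ⟨w, hj⟩) j' (mem_iUnion.2 ⟨w', hj'⟩) hjj with k | k <;>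
      linarith [e.1, e.2, e'.1, e'.2]

theorem Lbl.labT (hJ : IvW 𝒥) {g : Rn 2 → Rn 3} (hg : Tame N f g 𝒥) {w : κ} {lam : Rn 2 → ℝ}
    (h : Lbl N f Tri g w lam) : LabT (𝒥 w) Tri lam := by
  intro q hq
  by_cases hn : g q ∈ N w
  · obtain ⟨j, hj, k, σ, hσ, e1, e2⟩ := hg q hq w hn
    exact Or.inr ⟨j, hj, k, σ, hσ, e1,
      h.ins q hq hn _ (ZLab_le hσ (hJ.ivs.pos j (mem_iUnion.2 ⟨w, hj⟩)).1 e1) e2⟩
  · exact Or.inl (h.off q hq hn)

/-- Weighted increments of the labels along an edge. -/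
theorem zedge {γ : ℝ → Rn 3} {v : ℝ} (hv : 0 ≤ v) (h : EdT N f c γ v) (W : Finset κ)
    {lam : κ → ℝ → ℝ} (hl : ∀ w ∈ W, Lbl N f (Icc 0 1) γ w (lam w)) :
    ∀ s ∈ Icc (0 : ℝ) 1, ∀ s' ∈ Icc (0 : ℝ) 1,
      ∑ w ∈ W, c w * |lam w s - lam w s'| ≤ v * |s - s'| := by
  obtain ⟨𝒥, hJ, ht, hw⟩ := h
  intro s hs s' hs'
  have h1 := zcore (c := c) hJ (B := {q : Rn 2 | q 0 ∈ Icc (0 : ℝ) 1})
    ((convex_Icc (0 : ℝ) 1).is_linear_preimage (LinearMap.proj (R := ℝ) (φ := fun _ => ℝ) 0).isLinear)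
    W (lam := fun w q => lam w (q 0))
    (fun w hw => (hl w hw).cont.comp (continuous_apply 0).continuousOn fun q hq => hq)
    (fun w hw q hq => ?_) (v := fun _ => v) (fun _ => hv) (fun _ w _ j hj _ => hw w j hj)
    ![s, 0] hs ![s', 0] hs'
  · simpa using h1
  by_cases hn : γ (q 0) ∈ N w
  · obtain ⟨j, hj, σ, hσ, e1, e2⟩ := ht _ hq w hn
    have j0 := (hJ.ivs.pos j (mem_iUnion.2 ⟨w, hj⟩)).1
    refine Or.inr ⟨j, hj, 0, σ, hσ, e1, (hl w hw).ins _ hq hn _ (ZLab_le hσ j0 e1) ?_⟩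
    have e3 := ZLab_le (Or.inl rfl) j0 e1
    rw [one_mul] at e3
    rw [← e2 _ (abs_le.1 e3), mul_div_cancel₀ _ j0.ne', add_sub_cancel]
  · exact Or.inl ((hl w hw).off _ hq hn)

theorem zedge' {γ k : ℝ → Rn 3} {v ε : ℝ} (hv : 0 ≤ v) (h : EdT N f c γ v)
    (hk : Crush N f c (Icc 0 1) γ k ε) :
    ∀ s ∈ Icc (0 : ℝ) 1, ∀ s' ∈ Icc (0 : ℝ) 1, ‖k s - k s'‖ ≤ (v + ε) * |s - s'| := by
  obtain ⟨W, lam, hl, hk⟩ := hk
  intro s hs s' hs'
  have h1 := hk s hs s' hs'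
  have h2 := zedge hv h W hl s hs s' hs'
  rw [Real.dist_eq] at h1
  linarith

theorem EdT.rev {γ : ℝ → Rn 3} {v : ℝ} (h : EdT N f c γ v) : EdT N f c (fun s => γ (1 - s)) v := by
  obtain ⟨𝒥, hJ, ht, hw⟩ := h
  refine ⟨fun w => (fun j => (1 - j.1, j.2)) '' 𝒥 w, ⟨?_, ?_⟩, fun s hs w hn => ?_, ?_⟩
  · rw [← image_iUnion]
    refine ⟨hJ.ivs.fin.image _, ?_, ?_⟩
    · rintro _ ⟨j, hj, rfl⟩
      obtain ⟨a, b, c⟩ := hJ.ivs.pos j hj
      exact ⟨a, by linarith, by linarith⟩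
    · rintro _ ⟨j, hj, rfl⟩ _ ⟨k, hk, rfl⟩ hn
      rcases hJ.ivs.dis j hj k hk fun e => hn (by rw [e]) with a | a
      · exact Or.inr (by linarith)
      · exact Or.inl (by linarith)
  · rintro w w' _ ⟨j, hj, rfl⟩ ⟨k, hk, e⟩
    have e1 : k = j := Prod.ext (sub_right_injective (congrArg Prod.fst e)) (congrArg Prod.snd e :)
    exact hJ.dis w w' j hj (e1 ▸ hk)
  · obtain ⟨j, hj, σ, hσ, e1, e2⟩ := ht (1 - s) ⟨by linarith [hs.2], by linarith [hs.1]⟩ w hn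
    refine ⟨_, ⟨j, hj, rfl⟩, -σ, hσ.symm.imp (fun e => by rw [e, neg_neg]) fun e => by rw [e], ?_,
      fun t ht => ?_⟩
    · rw [abs_le] at e1 ⊢
      exact ⟨by linarith [e1.2], by linarith [e1.1]⟩
    · have e3 := e2 (-t) ⟨by linarith [ht.2], by linarith [ht.1]⟩
      rw [mul_neg σ, ← neg_mul] at e3
      exact (congrArg γ (by ring)).trans e3
  · rintro w _ ⟨j, hj, rfl⟩
    exact hw w j hj

theorem EdT.mono {γ : ℝ → Rn 3} {v v' : ℝ} (h : EdT N f c γ v) (hv : v ≤ v') :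
    EdT N f c γ v' := by
  obtain ⟨𝒥, hJ, ht, hw⟩ := h
  exact ⟨𝒥, hJ, ht, fun w j hj => (hw w j hj).trans
    (mul_le_mul_of_nonneg_right hv (hJ.ivs.pos j (mem_iUnion.2 ⟨w, hj⟩)).1.le)⟩

theorem Trk1.edT {Φ : Rn 3 → Rn 3} {S : Set (Rn 3)} (h : Trk1 N f Φ S) {γ : ℝ → Rn 3} {v : ℝ}
    (hγ : EdT N f c γ v) (hs : ∀ s ∈ Icc (0 : ℝ) 1, γ s ∈ S) : EdT N f c (Φ ∘ γ) v := by
  obtain ⟨𝒥, hJ, ht, hw⟩ := hγ
  refine ⟨𝒥, hJ, fun s hs' w hn => ?_, hw⟩
  obtain ⟨h1, h2⟩ := h _ (hs s hs') w hn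
  obtain ⟨j, hj, σ, hσ, e1, e2⟩ := ht s hs' w h1
  refine ⟨j, hj, σ, hσ, e1, fun t ht => (congrArg Φ (e2 t ht)).trans (h2 _ ?_)⟩
  rcases hσ with rfl | rfl
  · rwa [one_mul]
  · exact ⟨by linarith [ht.2], by linarith [ht.1]⟩

theorem Lab.fre {ι : Type} {g : Rn 2 → Rn 3} (hJ : Ivs (⋃ w, 𝒥 w)) {I : Set ι} {l r : ι → ℝ × ℝ}
    {e : ι → ℝ} {w : ι → κ} (h : Lab N f g 𝒥 I l r e w) {a : ℝ}
    (ha : ∀ w, ∀ j ∈ 𝒥 w, a < j.1 - j.2 ∧ j.1 + j.2 < 1 - a) : Fre N a g := by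
  intro q hq hqa v hn
  obtain ⟨i, hi, -, -, hm⟩ := h.cov q hq v hn
  obtain ⟨m1, m2, -⟩ := h.mem i hi
  have l0 := (hJ.pos _ (mem_iUnion.2 ⟨_, m1⟩)).1
  have r0 := (hJ.pos _ (mem_iUnion.2 ⟨_, m2⟩)).1
  have a1 := (ha _ _ m1).1
  have a2 := (ha _ _ m2).2
  rcases hm with ⟨e1, e2⟩ | ⟨e1, e2⟩
  · rw [abs_le] at e1
    rcases hqa with k | k
    · linarith [e1.1]
    · have k1 : ((r i).1 - q 1) / (r i).2 < -1 := (div_lt_iff₀ r0).2 (by linarith)
      linarith [(div_lt_iff₀ l0).1 (e2.trans_lt k1), e1.1]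
  · rw [abs_le] at e1
    rcases hqa with k | k
    · have k1 : (q 0 - (l i).1) / (l i).2 < -1 := (div_lt_iff₀ l0).2 (by linarith)
      linarith [(div_lt_iff₀ r0).1 (e2.trans_lt k1), e1.2]
    · linarith [e1.2]

theorem Trk.fre {Φ : Rn 3 → Rn 3} {S : Set (Rn 3)} (h : Trk N f Φ S) {g : Rn 2 → Rn 3} {a : ℝ}
    (hg : Fre N a g) (hs : ∀ p ∈ Tri, g p ∈ S) : Fre N a (Φ ∘ g) := by
  intro q hq hqa w hn
  obtain ⟨w', -, -, h1, -⟩ := h _ (hs q hq) w hn
  exact hg q hq hqa w' h1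

end BEp
end
end

-- merged part: Pool.Agent.Work.MP_f0515e_an.P3.ZPer
section
/-! Metric facts about a convex polygon.
`ZP.line`: if a point `z` of the line lies in `U`, the middle point of the edge lies on an open segment from `z` to an end of the edge (or is `z`), so in `U` (`Convex.openSegment_interior_closure_subset_interior`); but it is in the frontier.
`ZP.det`: the function `x ↦ zdet (x - c) d` is constant on the line; if its value `D` had `|D| < r * ‖d‖`, a point `c + s • e k` with `|s| < r` would lie on the line (`k` the coordinate other than the largest one of `d`).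
`ZP.per_low`: `kb_open`, `pball_ray` in the directions `± e 0` give two frontier points at distance at least `2 r`; every frontier point `x` in the edge `i` has `‖x - v 0‖ ≤ A x` and `‖x - v m‖ ≤ zper - A x` where `A x` is the length up to `x`;
the distance of two such points is at most `|A x - A y| ≤ zper` (telescoping, `dist_le_Ico_sum_dist`); or bound `‖x - v 0‖ ≤ min (A x) (zper - A x) ≤ zper / 2`.
`ZP.per_up`: the parallelograms `c + α • (v i - c) + β • d i`, `α ∈ (1/2, 1)`, `β ∈ (0, 1/2)`, lie in `ball c R`, have area `|zdet| / 4 ≥ r ‖d i‖ / 4` (`Measure.addHaar_image_linearMap`, `Matrix.toLin'`) and are pairwise disjoint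
(`ZP.rad` and `inj` with `s = β / α`); the ball has area `4 R ^ 2`.
`ZP.sum_le`: the open edges are disjoint measurable subsets of the frontier of measure `‖d i‖ₑ` (`hausdorffMeasure_lineMap_image`, `hausdorffMeasure_real`), `lintegral_biUnion_finset`, `setLIntegral_mono'`. About 350 lines. -/

open Set Metric Filter Topology Function BEv MeasureTheory
open scoped NNReal ENNReal

noncomputable section
namespace BEp

variable {U : Set (Rn 2)} {m : ℕ} {v : ℕ → Rn 2} {c : Rn 2} {r R : ℝ}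

theorem zdet_le (x y : Rn 2) : |zdet x y| ≤ 2 * ‖x‖ * ‖y‖ := by
  have h : ∀ (z : Rn 2) (k : Fin 2), |z k| ≤ ‖z‖ := fun z k => norm_le_pi_norm z k
  have h1 : |x 0| * |y 1| ≤ ‖x‖ * ‖y‖ := mul_le_mul (h x 0) (h y 1) (abs_nonneg _) (norm_nonneg _)
  have h2 : |x 1| * |y 0| ≤ ‖x‖ * ‖y‖ := mul_le_mul (h x 1) (h y 0) (abs_nonneg _) (norm_nonneg _)
  have h3 := abs_sub (x 0 * y 1) (x 1 * y 0)
  rw [abs_mul, abs_mul] at h3
  unfold zdet
  linarith

theorem ZPer_out (ho : IsOpen U) (hc : Convex ℝ U) {z y x : Rn 2} (hz : z ∈ U)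
    (hy : y ∈ closure U) (hx : x ∈ frontier U) {a : ℝ} (h0 : 0 < a) (h1 : a ≤ 1)
    (e : x = a • z + (1 - a) • y) : False := by
  have h2 := hc.combo_interior_closure_mem_interior (ho.interior_eq.symm ▸ hz) hy h0
    (sub_nonneg.2 h1) (add_sub_cancel _ _)
  rw [← e] at h2
  exact hx.2 h2

theorem ZP.ZPer_fr (h : ZP U m v) {i : ℕ} (hi : i < m) {s : ℝ} (hs : s ∈ Icc (0 : ℝ) 1) :
    seg (v i) (v (i + 1)) s ∈ frontier U :=
  (h.cov _).2 ⟨i, hi, seg_image (v i) (v (i + 1)) ▸ mem_image_of_mem _ hs⟩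

theorem ZP.line (h : ZP U m v) {i : ℕ} (hi : i < m) (s : ℝ) : seg (v i) (v (i + 1)) s ∉ U := by
  intro hz
  have h1 := h.ZPer_fr hi (s := 0) ⟨le_rfl, zero_le_one⟩
  have h2 := h.ZPer_fr hi (s := 1) ⟨zero_le_one, le_rfl⟩
  have h3 := h.ZPer_fr hi (s := 1 / 2) ⟨by norm_num, by norm_num⟩
  rcases le_total s (1 / 2) with k | k
  · have k1 : 0 < 2 * (1 - s) := by linarith
    refine ZPer_out h.opn h.cvx hz (frontier_subset_closure h2) h3 (a := 1 / (2 * (1 - s)))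
      (by positivity) ((div_le_one k1).2 (by linarith)) ?_
    funext j
    have k2 : 1 - s ≠ 0 := by linarith
    simp only [seg, Pi.add_apply, Pi.smul_apply, Pi.sub_apply, smul_eq_mul]
    field_simp
    ring
  · have k1 : 0 < 2 * s := by linarith
    refine ZPer_out h.opn h.cvx hz (frontier_subset_closure h1) h3 (a := 1 / (2 * s))
      (by positivity) ((div_le_one k1).2 (by linarith)) ?_
    funext j
    have k2 : s ≠ 0 := by linarith
    simp only [seg, Pi.add_apply, Pi.smul_apply, Pi.sub_apply, smul_eq_mul]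
    field_simp
    ring

theorem ZP.det (h : ZP U m v) (hr : ball c r ⊆ U) {i : ℕ} (hi : i < m) :
    r * ‖v (i + 1) - v i‖ ≤ |zdet (v i - c) (v (i + 1) - v i)| := by
  by_contra hc
  rw [not_le] at hc
  set a := v i with ha
  set d := v (i + 1) - v i with hd
  have h0 : 0 < r * ‖d‖ := (abs_nonneg _).trans_lt hc
  have h1 : 0 < r := by
    by_contra k
    have := mul_nonpos_of_nonpos_of_nonneg (not_lt.1 k) (norm_nonneg d)
    linarith
  have h2 : 0 < ‖d‖ := (mul_pos_iff_of_pos_left h1).1 h0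
  have h3 : ‖d‖ ≤ |d 0| ∨ ‖d‖ ≤ |d 1| := by
    by_contra k
    rw [not_or, not_le, not_le] at k
    exact lt_irrefl _ ((pi_norm_lt_iff h2).2 (Fin.forall_fin_two.2 k))
  have h4 : ∀ s : ℝ, |a 0 + s * d 0 - c 0| < r → |a 1 + s * d 1 - c 1| < r → False := by
    intro s k1 k2
    refine h.line hi s (hr ?_)
    rw [mem_ball, dist_pi_lt_iff h1]
    exact Fin.forall_fin_two.2 ⟨k1, k2⟩
  have h5 : zdet (a - c) d = (a 0 - c 0) * d 1 - (a 1 - c 1) * d 0 := rfl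
  rcases h3 with k | k
  · have k0 : 0 < |d 0| := h2.trans_le k
    have k1 : d 0 ≠ 0 := abs_pos.1 k0
    refine h4 ((c 0 - a 0) / d 0) ?_ ?_
    · rw [div_mul_cancel₀ _ k1]
      simpa using h1
    · have e : a 1 + (c 0 - a 0) / d 0 * d 1 - c 1 = -zdet (a - c) d / d 0 := by
        rw [h5]; field_simp; ring
      rw [e, abs_div, abs_neg, div_lt_iff₀ k0]
      exact hc.trans_le (mul_le_mul_of_nonneg_left k h1.le)
  · have k0 : 0 < |d 1| := h2.trans_le k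
    have k1 : d 1 ≠ 0 := abs_pos.1 k0
    refine h4 ((c 1 - a 1) / d 1) ?_ ?_
    · have e : a 0 + (c 1 - a 1) / d 1 * d 0 - c 0 = zdet (a - c) d / d 1 := by
        rw [h5]; field_simp; ring
      rw [e, abs_div, div_lt_iff₀ k0]
      exact hc.trans_le (mul_le_mul_of_nonneg_left k h1.le)
    · rw [div_mul_cancel₀ _ k1]
      simpa using h1

/-- A ray from an inner point meets the frontier once. -/
theorem zrad (ho : IsOpen U) (hc : Convex ℝ U) (h0 : c ∈ U) {x y : Rn 2} (hx : x ∈ frontier U)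
    (hy : y ∈ frontier U) {s t : ℝ} (hs : 0 < s) (ht : 0 < t) (e : s • (x - c) = t • (y - c)) :
    s = t ∧ x = y := by
  have key : ∀ {x y : Rn 2} {s t : ℝ}, x ∈ frontier U → y ∈ frontier U → 0 < s → s < t →
      s • (x - c) = t • (y - c) → False := by
    intro x y s t hx hy hs ht e
    have t0 : 0 < t := hs.trans ht
    refine ZPer_out ho hc h0 (frontier_subset_closure hx) hy (a := 1 - s / t)
      (sub_pos.2 ((div_lt_one t0).2 ht)) (sub_le_self _ (by positivity)) ?_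
    funext j
    have := congrFun e j
    simp only [Pi.add_apply, Pi.smul_apply, Pi.sub_apply, smul_eq_mul] at this ⊢
    field_simp
    linarith
  rcases lt_trichotomy s t with k | k | k
  · exact (key hx hy hs k e).elim
  · subst k
    exact ⟨rfl, sub_left_injective (smul_right_injective _ hs.ne' e)⟩
  · exact (key hy hx ht k e.symm).elim

theorem ZP.ZPer_half (h : ZP U m v) {x : Rn 2} (hx : x ∈ frontier U) :
    2 * dist x (v 0) ≤ zper m v := by
  obtain ⟨i, hi, k⟩ := (h.cov x).1 hx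
  have h1 := dist_add_dist_of_mem_segment k
  have h2 := dist_le_range_sum_dist v i
  have h3 := dist_le_Ico_sum_dist v (Nat.succ_le_of_lt hi)
  have h4 : zper m v = ∑ j ∈ Finset.range m, dist (v j) (v (j + 1)) :=
    Finset.sum_congr rfl fun j _ => by rw [dist_comm, dist_eq_norm]
  have h5 := Finset.sum_range_add_sum_Ico (fun j => dist (v j) (v (j + 1))) (Nat.succ_le_of_lt hi)
  rw [Finset.sum_range_succ] at h5
  rw [h.cyc] at h3
  have h6 := dist_triangle_left x (v 0) (v i)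
  have h7 := dist_triangle x (v (i + 1)) (v 0)
  rw [dist_comm (v i) (v 0)] at h6
  simp only [Nat.succ_eq_add_one] at h3 h5
  linarith

theorem ZP.per_low (h : ZP U m v) (h0 : 0 < r) (hr : ball c r ⊆ U) : 2 * r ≤ zper m v := by
  have hc : c ∈ U := hr (mem_ball_self h0)
  have hB := kb_open h.opn h.cvx h.poly ⟨c, hc⟩
  have key : ∀ w : Rn 2, ‖w‖ = 1 → ∃ t, r ≤ t ∧ c + t • w ∈ frontier U := by
    intro w hw
    obtain ⟨t, t0, ht⟩ := pball_ray hB (subset_closure hc) (v := w)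
      (by rintro rfl; simp at hw)
    refine ⟨t, ?_, ht⟩
    by_contra k
    refine ht.2 (h.opn.interior_eq.symm ▸ hr ?_)
    rw [mem_ball, dist_eq_norm, add_sub_cancel_left, norm_smul, hw, mul_one, Real.norm_eq_abs,
      abs_of_nonneg t0]
    exact not_le.1 k
  have hw : ‖(1 : Rn 2)‖ = 1 := norm_one
  obtain ⟨s, s0, hs⟩ := key 1 hw
  obtain ⟨t, t0, ht⟩ := key (-1) (by rw [norm_neg, hw])
  have h1 := h.ZPer_half hs
  have h2 := h.ZPer_half ht
  have h3 := dist_triangle_right (c + s • (1 : Rn 2)) (c + t • (-1 : Rn 2)) (v 0)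
  have h4 : dist (c + s • (1 : Rn 2)) (c + t • (-1 : Rn 2)) = s + t := by
    rw [dist_add_left, dist_eq_norm, smul_neg, sub_neg_eq_add, ← add_smul, norm_smul, hw, mul_one,
      Real.norm_eq_abs, abs_of_nonneg (by linarith)]
  linarith

/-- The linear map with columns `x` and `y`. -/
def ZPer_M (x y : Rn 2) : Rn 2 →ₗ[ℝ] Rn 2 := Matrix.toLin' !![x 0, y 0; x 1, y 1]

theorem ZPer_M_apply (x y q : Rn 2) : ZPer_M x y q = q 0 • x + q 1 • y := by
  funext j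
  revert j
  refine Fin.forall_fin_two.2 ⟨?_, ?_⟩ <;>
    simp [ZPer_M, Matrix.toLin'_apply, Matrix.mulVec, dotProduct, Fin.sum_univ_two, mul_comm]

/-- A square of side one half. -/
def ZPer_B : Set (Rn 2) := univ.pi fun k => Ioo ((![1 / 2, 0] : Rn 2) k) ((![1, 1 / 2] : Rn 2) k)

theorem ZPer_B_cvx : Convex ℝ ZPer_B := convex_pi fun _ _ => convex_Ioo _ _

theorem ZPer_vol (x y : Rn 2) :
    volume (ZPer_M x y '' ZPer_B) = ENNReal.ofReal (|zdet x y| / 4) := by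
  have h1 : LinearMap.det (ZPer_M x y) = zdet x y := by
    rw [ZPer_M, LinearMap.det_toLin', Matrix.det_fin_two_of, zdet, mul_comm (y 0)]
  have h2 : volume ZPer_B = ENNReal.ofReal (1 / 4) := by
    rw [ZPer_B, Real.volume_pi_Ioo, Fin.prod_univ_two, ← ENNReal.ofReal_mul (by norm_num)]
    norm_num
  rw [Measure.addHaar_image_linearMap, h1, h2, ← ENNReal.ofReal_mul (abs_nonneg _), mul_one_div]

theorem ZP.per_up (h : ZP U m v) (h0 : 0 < r) (hr : ball c r ⊆ U) (hR : U ⊆ ball c R) :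
    zper m v ≤ 16 * R ^ 2 / r := by
  have hc : c ∈ U := hr (mem_ball_self h0)
  have R0 : 0 < R := by simpa using hR hc
  let Q : ℕ → Set (Rn 2) := fun i => ZPer_M (v i - c) (v (i + 1) - v i) '' ZPer_B
  have h1 : ∀ i, ∀ x ∈ Q i, ∃ a ∈ Ioo (0 : ℝ) 1, ∃ s ∈ Ico (0 : ℝ) 1,
      x = a • (seg (v i) (v (i + 1)) s - c) := by
    rintro i _ ⟨q, hq, rfl⟩
    have q0 : q 0 ∈ Ioo (1 / 2 : ℝ) 1 := hq 0 (mem_univ _)
    have q1 : q 1 ∈ Ioo (0 : ℝ) (1 / 2) := hq 1 (mem_univ _)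
    have q2 : 0 < q 0 := by linarith [q0.1]
    refine ⟨q 0, ⟨q2, q0.2⟩, q 1 / q 0, ⟨(div_pos q1.1 q2).le,
      (div_lt_one q2).2 (q1.2.trans q0.1)⟩, ?_⟩
    rw [ZPer_M_apply]
    funext j
    simp only [seg, Pi.add_apply, Pi.smul_apply, Pi.sub_apply, smul_eq_mul]
    field_simp
    ring
  have h2 : (⋃ i ∈ Finset.range m, Q i) ⊆ closedBall 0 R := by
    refine iUnion₂_subset fun i hi x hx => ?_
    obtain ⟨a, ha, s, hs, rfl⟩ := h1 i x hx
    have k := (closure_mono hR).trans closure_ball_subset_closedBall (frontier_subset_closure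
      (h.ZPer_fr (Finset.mem_range.1 hi) (Ico_subset_Icc_self hs)))
    rw [mem_closedBall, dist_eq_norm] at k
    rw [mem_closedBall_zero_iff, norm_smul, Real.norm_eq_abs, abs_of_pos ha.1]
    exact (mul_le_of_le_one_left (norm_nonneg _) ha.2.le).trans k
  have h3 : Set.Pairwise (↑(Finset.range m) : Set ℕ) (AEDisjoint volume on Q) := by
    intro i hi j hj hij
    refine Disjoint.aedisjoint (disjoint_left.2 fun x hx hy => hij ?_)
    obtain ⟨a, ha, s, hs, e⟩ := h1 i x hx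
    obtain ⟨b, hb, t, ht, e'⟩ := h1 j x hy
    have i1 := Finset.mem_range.1 hi
    have j1 := Finset.mem_range.1 hj
    exact (h.inj i i1 j j1 s hs t ht (zrad h.opn h.cvx hc (h.ZPer_fr i1 (Ico_subset_Icc_self hs))
      (h.ZPer_fr j1 (Ico_subset_Icc_self ht)) ha.1 hb.1 (e.symm.trans e')).2).1
  have h4 := measure_biUnion_finset₀ (μ := volume) h3 fun i _ =>
    (ZPer_B_cvx.linear_image _).nullMeasurableSet volume
  have h5 := measure_mono (μ := volume) h2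
  rw [h4, Real.volume_pi_closedBall _ R0.le, Fintype.card_fin] at h5
  have h6 : ∑ i ∈ Finset.range m, ENNReal.ofReal (r * ‖v (i + 1) - v i‖ / 4) ≤
      ∑ i ∈ Finset.range m, volume (Q i) := by
    refine Finset.sum_le_sum fun i hi => ?_
    rw [ZPer_vol]
    exact ENNReal.ofReal_le_ofReal
      (div_le_div_of_nonneg_right (h.det hr (Finset.mem_range.1 hi)) (by norm_num))
  rw [← ENNReal.ofReal_sum_of_nonneg fun i _ => by positivity] at h6
  have h7 := (ENNReal.ofReal_le_ofReal_iff (by positivity)).1 (h6.trans h5)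
  rw [← Finset.sum_div, ← Finset.mul_sum] at h7
  rw [le_div_iff₀ h0, zper]
  linarith

theorem ZP.sum_le (h : ZP U m v) {ψ : Rn 2 → ℝ≥0∞} {V : ℕ → ℝ≥0∞}
    (hV : ∀ i < m, ∀ z ∈ openSegment ℝ (v i) (v (i + 1)), V i ≤ ψ z) :
    ∑ i ∈ Finset.range m, V i * ‖v (i + 1) - v i‖ₑ ≤ ∫⁻ ξ in frontier U, ψ ξ ∂μH[1] := by
  let E : ℕ → Set (Rn 2) := fun i => openSegment ℝ (v i) (v (i + 1))
  have h1 : ∀ i, E i = seg (v i) (v (i + 1)) '' Ioo 0 1 := fun i => (seg_image_open _ _).symm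
  have h2 : ∀ i ∈ Finset.range m, MeasurableSet (E i) := fun i hi => by
    have i1 := Finset.mem_range.1 hi
    rw [h1]
    refine measurableSet_Ioo.image_of_continuousOn_injOn (Continuous.continuousOn ?_)
      fun s hs t ht e => (h.inj i i1 i i1 s (Ioo_subset_Ico_self hs) t (Ioo_subset_Ico_self ht) e).2
    unfold seg
    fun_prop
  have h3 : Set.PairwiseDisjoint (↑(Finset.range m) : Set ℕ) E := by
    intro i hi j hj hij
    refine disjoint_left.2 fun x hx hy => hij ?_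
    rw [h1] at hx hy
    obtain ⟨s, hs, e⟩ := hx
    obtain ⟨t, ht, e'⟩ := hy
    exact (h.inj i (Finset.mem_range.1 hi) j (Finset.mem_range.1 hj) s (Ioo_subset_Ico_self hs) t
      (Ioo_subset_Ico_self ht) (e.trans e'.symm)).1
  have h4 : (⋃ i ∈ Finset.range m, E i) ⊆ frontier U :=
    iUnion₂_subset fun i hi x hx =>
      (h.cov x).2 ⟨i, Finset.mem_range.1 hi, openSegment_subset_segment _ _ _ hx⟩
  refine le_trans ?_ (lintegral_mono_set h4)
  rw [lintegral_biUnion_finset h3 h2]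
  refine Finset.sum_le_sum fun i hi => ?_
  have h5 : μH[1] (E i) = ‖v (i + 1) - v i‖ₑ := by
    simp only [E]
    rw [openSegment_eq_image_lineMap, hausdorffMeasure_lineMap_image, hausdorffMeasure_real,
      Real.volume_Ioo, nndist_comm, nndist_eq_nnnorm, enorm_eq_nnnorm]
    simp [ENNReal.smul_def]
  rw [← h5, ← setLIntegral_const]
  exact setLIntegral_mono' (h2 i hi) (hV i (Finset.mem_range.1 hi))

end BEp
end
end

-- merged part: Pool.Agent.Work.MP_f0515e_an.P3.ZEn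
section
/-! From the increments on the triangle to the Lipschitz constant and the energy on the polygon. `k = G ∘ χ` on `Tri`.
The compact sets `χ '' (T i ∩ {q 0 ∈ S j} ∩ {q 1 ∈ S l})` (`S j = Icc (t j) (t (j + 1))`; these intervals cover `[0, 1]`), `χ '' (Tri ∩ {q 0 ≤ a})`, `χ '' (Tri ∩ {1 - a ≤ q 1})` form a finite closed cover of `closure U`.
On them `G` is Lipschitz with constants `7 R / r ^ 2 * (V j + V l) + ε * L` and `ε * L`. A function that is Lipschitz on the members of a finite closed cover is continuous (near a point only the members containing it matter).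
`zlip`: `zcov`. `zen`: at `ξ ∈ U`, `norm_fderiv_le_of_lip'` with the largest constant among the members containing `ξ`; so with `κ = 7 R / r ^ 2`,
`‖fderiv‖ₑ ^ p ≤ 3 ^ p * ((ε L) ^ p + ∑ j, (κ V j) ^ p * (indicator (A j) + indicator (B j)))`, `A j = χ '' (T ∩ {q 0 ∈ S j})`, `B j = χ '' (T ∩ {q 1 ∈ S j})`, `T = ⋃ i < m, T i` (a sum of three numbers is at most three times the largest).
`volume (A j) ≤ (100 R ^ 2 / r) ^ 2 * (t (j + 1) - t j)` by `LipschitzOnWith.hausdorffMeasure_image_le` (`fwd`), `hausdorffMeasure_pi_real`, `Real.volume_pi_Icc` or `volume_Icc_pi`; then `low`. `volume U ≤ 4 R ^ 2`. About 350 lines. -/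

open Set Metric Filter Topology Function BEv MeasureTheory
open scoped NNReal ENNReal

noncomputable section
namespace BEp

variable {U : Set (Rn 2)} {m : ℕ} {v : ℕ → Rn 2} {c : Rn 2} {r R η a ε L : ℝ} {χ : Rn 2 → Rn 2}
  {t V : ℕ → ℝ} {T : ℕ → Set (Rn 2)} {G : Rn 2 → Rn 3}

theorem ZEn_cl {X : Type} [TopologicalSpace X] {Z : Set X} (hZ : IsClosed Z) (x : X) :
    ∀ᶠ y in 𝓝 x, y ∈ Z → x ∈ Z := by
  by_cases hx : x ∈ Z
  · exact Eventually.of_forall fun _ _ => hx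
  · filter_upwards [hZ.isOpen_compl.mem_nhds hx] with y hy h using absurd h hy

theorem ZEn_int {t : ℕ → ℝ} {s : ℝ} (h0 : t 0 ≤ s) (n : ℕ) (h1 : s ≤ t (n + 1)) :
    ∃ j < n + 1, s ∈ Icc (t j) (t (j + 1)) := by
  induction n with
  | zero => exact ⟨0, Nat.zero_lt_one, h0, h1⟩
  | succ n ih =>
    rcases le_total s (t (n + 1)) with h | h
    · obtain ⟨j, hj, k⟩ := ih h
      exact ⟨j, by omega, k⟩
    · exact ⟨n + 1, by omega, h, h1⟩

theorem ZEn_pt (h : ZP U m v) (h0 : 0 < r) (hR : 0 ≤ R) (hC : ZC U m v r R η a χ t T)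
    (hL : ∀ q ∈ Tri, ∀ q' ∈ Tri, ‖q - q'‖ ≤ L * ‖χ q - χ q'‖) (hε : 0 ≤ ε)
    (hK : ZK m t V a ε (G ∘ χ)) {q : Rn 2} (hq : q ∈ Tri) (hU : χ q ∈ U) {W : ℝ} (W0 : 0 ≤ W)
    (hW : ∀ j < m, (∃ i < m, q ∈ T i) →
      q 0 ∈ Icc (t j) (t (j + 1)) ∨ q 1 ∈ Icc (t j) (t (j + 1)) → V j ≤ W) :
    ∀ᶠ ξ in 𝓝 (χ q), ‖G ξ - G (χ q)‖ ≤ (14 * R / r ^ 2 * W + ε * L) * ‖ξ - χ q‖ := by
  have cov : ∀ s : ℝ, 0 ≤ s → s ≤ 1 → ∃ j < m, s ∈ Icc (t j) (t (j + 1)) := fun s s0 s1 => by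
    obtain ⟨n, hn⟩ := Nat.exists_eq_succ_of_ne_zero h.pos.ne'
    have h1 := hC.tm
    rw [hn] at h1 ⊢
    exact ZEn_int (hC.t0.trans s0) n (s1.trans h1)
  have e1 : ∀ᶠ y in 𝓝 q, ∀ i ∈ Iio m, y ∈ T i → q ∈ T i :=
    (eventually_all_finite (finite_Iio m)).2 fun i hi => ZEn_cl (hC.cl i hi) q
  have e2 : ∀ k : Fin 2, ∀ᶠ y in 𝓝 q, ∀ j ∈ Iio m, y k ∈ Icc (t j) (t (j + 1)) →
      q k ∈ Icc (t j) (t (j + 1)) := fun k =>
    (eventually_all_finite (finite_Iio m)).2 fun j _ =>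
      ZEn_cl (isClosed_Icc.preimage (continuous_apply k)) q
  have e3 : ∀ᶠ y in 𝓝 q, y 0 ≤ a → q 0 ≤ a :=
    ZEn_cl (isClosed_le (continuous_apply 0) continuous_const) q
  have e4 : ∀ᶠ y in 𝓝 q, 1 - a ≤ y 1 → 1 - a ≤ q 1 :=
    ZEn_cl (isClosed_le continuous_const (continuous_apply 1)) q
  obtain ⟨δ, hδ, hd⟩ := Metric.eventually_nhds_iff.1 (e1.and ((e2 0).and ((e2 1).and (e3.and e4))))
  have e5 : ∀ᶠ ξ in 𝓝 (χ q), L * ‖ξ - χ q‖ < δ :=
    (show ContinuousAt (fun ξ => L * ‖ξ - χ q‖) (χ q) by fun_prop).eventually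
      (gt_mem_nhds (by simpa using hδ))
  have κ0 : 0 ≤ 7 * R / r ^ 2 := by positivity
  filter_upwards [e5, h.opn.mem_nhds hU] with ξ k1 k2
  obtain ⟨y, hy, rfl⟩ := hC.bij.surjOn (subset_closure k2)
  have l1 := hL y hy q hq
  obtain ⟨d1, d2, d3, d4, d5⟩ := hd (y := y) (by rw [dist_eq_norm]; exact l1.trans_lt k1)
  have l2 := mul_le_mul_of_nonneg_left l1 hε
  have l3 : 0 ≤ 7 * R / r ^ 2 * W * ‖χ y - χ q‖ := by positivity
  have e : (14 * R / r ^ 2 * W + ε * L) * ‖χ y - χ q‖ =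
      2 * (7 * R / r ^ 2 * W * ‖χ y - χ q‖) + ε * (L * ‖χ y - χ q‖) := by ring
  rw [e]
  rcases hC.cov y hy with ⟨i, hi, k⟩ | k | k
  · obtain ⟨j, hj, y0⟩ := cov (y 0) hy.1 (hy.2.1.trans hy.2.2)
    obtain ⟨l, hl, y1⟩ := cov (y 1) (hy.1.trans hy.2.1) hy.2.2
    have c1 : ‖G (χ y) - G (χ q)‖ ≤ _ := hK.cell j hj l hl y hy q hq y0 (d2 j hj y0) y1 (d3 l hl y1)
    have c2 := hC.inv i hi y k q (d1 i hi k)
    have c3 : ∀ k : Fin 2, |y k - q k| ≤ 7 * R / r ^ 2 * ‖χ y - χ q‖ := fun k =>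
      (norm_le_pi_norm (y - q) k).trans c2
    have c4 := mul_le_mul (hW j hj ⟨i, hi, d1 i hi k⟩ (Or.inl (d2 j hj y0))) (c3 0)
      (abs_nonneg _) W0
    have c5 := mul_le_mul (hW l hl ⟨i, hi, d1 i hi k⟩ (Or.inr (d3 l hl y1))) (c3 1)
      (abs_nonneg _) W0
    linarith
  · have c1 : ‖G (χ y) - G (χ q)‖ ≤ _ := hK.fre y hy q hq (Or.inl ⟨k, d4 k⟩)
    linarith
  · have c1 : ‖G (χ y) - G (χ q)‖ ≤ _ := hK.fre y hy q hq (Or.inr ⟨k, d5 k⟩)
    linarith

theorem ZEn_glob (hU : Convex ℝ U) {C : ℝ}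
    (h : ∀ ξ ∈ U, ∀ᶠ ξ' in 𝓝 ξ, ‖G ξ' - G ξ‖ ≤ C * ‖ξ' - ξ‖) :
    ∀ ξ ∈ U, ∀ ξ' ∈ U, ‖G ξ - G ξ'‖ ≤ C * ‖ξ - ξ'‖ := by
  intro ξ hξ ξ' hξ'
  have hc : ∀ x ∈ U, ContinuousAt G x := fun x hx =>
    tendsto_iff_norm_sub_tendsto_zero.2 (squeeze_zero' (Eventually.of_forall fun _ => norm_nonneg _)
      (h x hx) (by
        simpa using (show ContinuousAt (fun y => C * ‖y - x‖) x by fun_prop).tendsto))
  have hs : Continuous fun s : ℝ => ξ + s • (ξ' - ξ) := by fun_prop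
  have hm : ∀ s ∈ Icc (0 : ℝ) 1, ξ + s • (ξ' - ξ) ∈ U := fun s k => hU.add_smul_sub_mem hξ hξ' k
  have := zloc (D := fun s s' => ‖G (ξ + s • (ξ' - ξ)) - G (ξ + s' • (ξ' - ξ))‖)
    (M := C * ‖ξ - ξ'‖) (by simp) (fun _ _ => norm_sub_le_norm_sub_add_norm_sub _ _ _)
    (fun s k => ((continuousAt_const.sub
      (ContinuousAt.comp (f := fun s : ℝ => ξ + s • (ξ' - ξ)) (hc _ (hm s k))
        hs.continuousAt)).norm).continuousWithinAt)
    (fun s k => by
      filter_upwards [mem_nhdsWithin_of_mem_nhds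
        (hs.continuousAt.eventually (h _ (hm s (Ico_subset_Icc_self k)))), self_mem_nhdsWithin]
        with s' k1 k2
      have e : ξ + s' • (ξ' - ξ) - (ξ + s • (ξ' - ξ)) = (s' - s) • (ξ' - ξ) := by
        rw [sub_smul]
        abel
      rw [e, norm_smul, Real.norm_of_nonneg (sub_nonneg.2 (le_of_lt k2)), norm_sub_rev ξ'] at k1
      rw [norm_sub_rev]
      linarith)
  simpa using this

theorem zlip (h : ZP U m v) (h0 : 0 < r) (hR : 0 ≤ R) (hC : ZC U m v r R η a χ t T)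
    (hL : ∀ q ∈ Tri, ∀ q' ∈ Tri, ‖q - q'‖ ≤ L * ‖χ q - χ q'‖) (hε : 0 ≤ ε)
    (hK : ZK m t V a ε (G ∘ χ)) {M : ℝ} (hM : ∀ i < m, V i ≤ M) :
    ∀ ξ ∈ U, ∀ ξ' ∈ U, ‖G ξ - G ξ'‖ ≤ (14 * R / r ^ 2 * M + ε * L) * ‖ξ - ξ'‖ := by
  refine ZEn_glob h.cvx fun ξ hξ => ?_
  obtain ⟨q, hq, rfl⟩ := hC.bij.surjOn (subset_closure hξ)
  exact ZEn_pt h h0 hR hC hL hε hK hq hξ ((hK.V0 0 h.pos).trans (hM 0 h.pos))
    fun j hj _ _ => hM j hj

theorem ZEn_vol (h0 : 0 < r) (hC : ZC U m v r R η a χ t T) {j : ℕ} (hj : j < m) :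
    volume (χ '' {q | (∃ i < m, q ∈ T i) ∧
      (q 0 ∈ Icc (t j) (t (j + 1)) ∨ q 1 ∈ Icc (t j) (t (j + 1)))}) ≤
      ENNReal.ofReal (20000 * R ^ 4 / r ^ 3) * ‖v (j + 1) - v j‖ₑ := by
  have e : (μH[2] : Measure (Rn 2)) = volume := by
    simpa using hausdorffMeasure_pi_real (ι := Fin 2)
  have hl : LipschitzOnWith (Real.toNNReal (100 * R ^ 2 / r)) χ {q | (∃ i < m, q ∈ T i) ∧
      (q 0 ∈ Icc (t j) (t (j + 1)) ∨ q 1 ∈ Icc (t j) (t (j + 1)))} :=
    LipschitzOnWith.of_dist_le' fun x ⟨⟨i, hi, hx⟩, _⟩ y ⟨⟨i', hi', hy⟩, _⟩ => by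
      rw [dist_eq_norm, dist_eq_norm]
      exact hC.fwd i hi i' hi' x hx y hy
  have h1 := hl.hausdorffMeasure_image_le (d := 2) zero_le_two
  rw [e] at h1
  have t0 : 0 ≤ t (j + 1) - t j := sub_nonneg.2 (hC.lt j hj).le
  have h2 : volume {q : Rn 2 | (∃ i < m, q ∈ T i) ∧
      (q 0 ∈ Icc (t j) (t (j + 1)) ∨ q 1 ∈ Icc (t j) (t (j + 1)))} ≤
      ENNReal.ofReal (2 * (t (j + 1) - t j)) := by
    refine (measure_mono (t := Icc ![t j, 0] ![t (j + 1), 1] ∪ Icc ![0, t j] ![1, t (j + 1)])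
      ?_).trans ((measure_union_le _ _).trans (le_of_eq ?_))
    · rintro q ⟨⟨i, hi, hq⟩, k | k⟩
      · obtain ⟨q1, q2, q3⟩ := hC.sub i hi hq
        refine Or.inl ⟨fun l => ?_, fun l => ?_⟩ <;> fin_cases l
        exacts [k.1, q1.trans q2, k.2, q3]
      · obtain ⟨q1, q2, q3⟩ := hC.sub i hi hq
        refine Or.inr ⟨fun l => ?_, fun l => ?_⟩ <;> fin_cases l
        exacts [q1, k.1, q2.trans q3, k.2]
    · rw [Real.volume_Icc_pi, Real.volume_Icc_pi, Fin.prod_univ_two, Fin.prod_univ_two, two_mul,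
        ENNReal.ofReal_add t0 t0]
      simp
  have K0 : 0 ≤ 100 * R ^ 2 / r := by positivity
  refine h1.trans ((mul_le_mul_right h2 _).trans ?_)
  rw [← ENNReal.ofReal.eq_1, ENNReal.rpow_two, ← ENNReal.ofReal_pow K0,
    ← ENNReal.ofReal_mul (by positivity), ← ofReal_norm,
    ← ENNReal.ofReal_mul (by positivity)]
  refine ENNReal.ofReal_le_ofReal ?_
  have h3 := mul_le_mul_of_nonneg_left (hC.low j hj)
    (show 0 ≤ 20000 * R ^ 4 / r ^ 3 by positivity)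
  refine le_trans (le_of_eq ?_) h3
  field_simp
  ring

theorem zen (h : ZP U m v) (h0 : 0 < r) (hr : ball c r ⊆ U) (hR : U ⊆ ball c R)
    (hC : ZC U m v r R η a χ t T) (hL0 : 0 ≤ L)
    (hL : ∀ q ∈ Tri, ∀ q' ∈ Tri, ‖q - q'‖ ≤ L * ‖χ q - χ q'‖) (hε : 0 ≤ ε)
    (hK : ZK m t V a ε (G ∘ χ)) {p : ℝ} (hp : 1 ≤ p) :
    ∫⁻ ξ in U, ‖fderiv ℝ G ξ‖ₑ ^ p ≤ ENNReal.ofReal (3 * ε * L) ^ p * ENNReal.ofReal (4 * R ^ 2) +
      ∑ j ∈ Finset.range m, ENNReal.ofReal (21 * R / r ^ 2 * V j) ^ p *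
        ENNReal.ofReal (20000 * R ^ 4 / r ^ 3) * ‖v (j + 1) - v j‖ₑ := by
  classical
  have R0 : 0 < R := by simpa using hR (hr (mem_ball_self h0))
  have p0 : 0 ≤ p := zero_le_one.trans hp
  have κ0 : 0 ≤ 7 * R / r ^ 2 := by positivity
  have εL : 0 ≤ ε * L := mul_nonneg hε hL0
  obtain ⟨A, hA⟩ : ∃ A : ℕ → Set (Rn 2), ∀ j, A j = χ '' {q | (∃ i < m, q ∈ T i) ∧
      (q 0 ∈ Icc (t j) (t (j + 1)) ∨ q 1 ∈ Icc (t j) (t (j + 1)))} := ⟨_, fun _ => rfl⟩
  have key : ∀ ξ ∈ U, ‖fderiv ℝ G ξ‖ₑ ^ p ≤ ENNReal.ofReal (3 * ε * L) ^ p +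
      ∑ j ∈ Finset.range m, (toMeasurable volume (A j)).indicator
        (fun _ => ENNReal.ofReal (21 * R / r ^ 2 * V j) ^ p) ξ := fun ξ hξ => by
    obtain ⟨q, hq, rfl⟩ := hC.bij.surjOn (subset_closure hξ)
    have up : ∀ x : ℝ, ‖fderiv ℝ G (χ q)‖ ≤ x → ‖fderiv ℝ G (χ q)‖ₑ ^ p ≤ ENNReal.ofReal x ^ p :=
      fun x hx => ENNReal.rpow_le_rpow (by
        rw [← ofReal_norm]
        exact ENNReal.ofReal_le_ofReal hx) p0
    rcases ((Finset.range m).filter fun j => (∃ i < m, q ∈ T i) ∧ (q 0 ∈ Icc (t j) (t (j + 1)) ∨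
      q 1 ∈ Icc (t j) (t (j + 1)))).eq_empty_or_nonempty with k | k
    · have := norm_fderiv_le_of_lip' ℝ (by positivity) (ZEn_pt h h0 R0.le hC hL hε hK hq hξ le_rfl
        fun j hj k1 k2 => absurd ⟨k1, k2⟩
          (Finset.filter_eq_empty_iff.1 k (Finset.mem_range.2 hj)))
      exact (up _ (by linarith)).trans le_self_add
    · obtain ⟨j, hj, hm⟩ := Finset.exists_max_image _ V k
      obtain ⟨j1, j2⟩ := Finset.mem_filter.1 hj
      have V0 := hK.V0 j (Finset.mem_range.1 j1)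
      have b := norm_fderiv_le_of_lip' ℝ (by positivity) (ZEn_pt h h0 R0.le hC hL hε hK hq hξ V0
        fun l hl k1 k2 => hm l (Finset.mem_filter.2 ⟨Finset.mem_range.2 hl, k1, k2⟩))
      have e1 : 14 * R / r ^ 2 * V j = 2 * (7 * R / r ^ 2 * V j) := by ring
      have e2 : 21 * R / r ^ 2 * V j = 3 * (7 * R / r ^ 2 * V j) := by ring
      rcases le_total (7 * R / r ^ 2 * V j) (ε * L) with c | c
      · exact (up _ (by linarith)).trans le_self_add
      · refine (up (21 * R / r ^ 2 * V j) (by linarith)).trans (le_add_left ?_)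
        refine le_trans (le_of_eq ?_) (Finset.single_le_sum (fun _ _ => zero_le) j1)
        rw [indicator_of_mem]
        exact subset_toMeasurable _ _ (by rw [hA]; exact ⟨q, j2, rfl⟩)
  refine (setLIntegral_mono' h.opn.measurableSet key).trans ?_
  rw [lintegral_add_left measurable_const, lintegral_finsetSum _ fun j _ =>
    measurable_const.indicator (measurableSet_toMeasurable _ _), setLIntegral_const]
  refine add_le_add (mul_le_mul_right ?_ _) (Finset.sum_le_sum fun j hj => ?_)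
  · refine (measure_mono hR).trans (le_of_eq ?_)
    rw [Real.volume_pi_ball c R0, Fintype.card_fin, show (2 * R) ^ 2 = 4 * R ^ 2 by ring]
  · rw [lintegral_indicator_const (measurableSet_toMeasurable _ _), mul_assoc]
    refine mul_le_mul_right (Measure.restrict_apply_le _ _ |>.trans ?_) _
    rw [measure_toMeasurable, hA]
    exact ZEn_vol h0 hC (Finset.mem_range.1 hj)

end BEp
end
end

-- merged part: Pool.Agent.Work.MP_f0515e_an.P3.ZPoly1
section
/-! A circle which is a union of segments meeting only in their ends is a cyclic list of them. -/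

open Set Metric Filter Topology Function BEv MeasureTheory
open scoped NNReal ENNReal

noncomputable section
namespace BEp

theorem ZPoly1_list {S : Set ℝ} (hS : S.Finite) {a b : ℝ} (hab : a < b) (ha : a ∈ S) (hb : b ∈ S)
    (hs : S ⊆ Icc a b) : ∃ (m : ℕ) (u : ℕ → ℝ), 0 < m ∧ u 0 = a ∧ u m = b ∧
      (∀ i j, i < j → j ≤ m → u i < u j) ∧ (∀ i ≤ m, u i ∈ S) ∧ ∀ t ∈ S, ∃ i ≤ m, u i = t := by
  obtain ⟨m, hm⟩ : ∃ m, hS.toFinset.card = m + 1 :=
    Nat.exists_eq_succ_of_ne_zero (Finset.card_ne_zero.2 ⟨a, hS.mem_toFinset.2 ha⟩)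
  obtain ⟨u, u1, u2, u3⟩ : ∃ u : ℕ → ℝ, (∀ i j, i < j → j ≤ m → u i < u j) ∧
      (∀ i ≤ m, u i ∈ S) ∧ ∀ t ∈ S, ∃ i ≤ m, u i = t := by
    refine ⟨fun i => hS.toFinset.orderEmbOfFin hm ⟨min i m, by omega⟩, fun i j h k => ?_,
      fun i _ => hS.mem_toFinset.1 (Finset.orderEmbOfFin_mem _ _ _), fun t ht => ?_⟩
    · exact (hS.toFinset.orderEmbOfFin hm).strictMono (Fin.mk_lt_mk.2 (by omega))
    · obtain ⟨i, hi⟩ := (hS.toFinset.range_orderEmbOfFin hm).symm.subset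
        (Finset.mem_coe.2 (hS.mem_toFinset.2 ht))
      have := i.2
      exact ⟨i, by omega, hi ▸ congrArg _ (Fin.ext (min_eq_left (by omega)))⟩
  have le : ∀ i j, i ≤ j → j ≤ m → u i ≤ u j := fun i j h k =>
    h.eq_or_lt.elim (fun e => (congrArg u e).le) fun e => (u1 i j e k).le
  have e0 : u 0 = a := by
    obtain ⟨i, h, e⟩ := u3 a ha
    exact le_antisymm (e ▸ le 0 i i.zero_le h) (hs (u2 0 m.zero_le)).1
  have em : u m = b := by
    obtain ⟨i, h, e⟩ := u3 b hb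
    exact le_antisymm (hs (u2 m le_rfl)).2 (e ▸ le i m h le_rfl)
  refine ⟨m, u, Nat.pos_of_ne_zero fun e => ?_, e0, em, u1, u2, u3⟩
  rw [e, e0] at em
  exact hab.ne em

theorem ZPoly1_inj {n : ℕ} {γ : ℝ → Rn n} (h : ∀ s t, γ s = γ t ↔ ∃ k : ℤ, s - t = k) {s t : ℝ}
    (e : γ s = γ t) (h1 : s - t < 1) (h2 : -1 < s - t) : s = t := by
  obtain ⟨k, hk⟩ := (h s t).1 e
  rw [hk] at h1 h2
  have k1 : k < 1 := by exact_mod_cast h1
  have k2 : -1 < k := by exact_mod_cast h2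
  have k3 : k = 0 := by omega
  rw [k3, Int.cast_zero] at hk
  linarith

theorem ZPoly1_seg {n : ℕ} {a b : Rn n} (h : a ≠ b) : Injective (seg a b) := fun _ _ e =>
  smul_left_injective ℝ (sub_ne_zero.2 h.symm) (add_left_cancel e)

theorem ZPoly1_end {n : ℕ} {a b x : Rn n} (h : x ∈ segment ℝ a b) :
    x = a ∨ x = b ∨ x ∈ openSegment ℝ a b := (insert_endpoints_openSegment ℝ a b).symm.subset h

theorem ZPoly1_gap {n : ℕ} {γ : ℝ → Rn n} (hγ : TP γ)
    (h : ∀ s t, γ s = γ t ↔ ∃ k : ℤ, s - t = k) {E : Set (Rn n × Rn n)} (hE : E.Finite)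
    (h1 : ∀ e ∈ E, e.1 ≠ e.2) (hs : ∀ e ∈ E, (e.2, e.1) ∈ E)
    (h2 : ∀ x, x ∈ range γ ↔ ∃ e ∈ E, x ∈ segment ℝ e.1 e.2)
    (h3 : ∀ e ∈ E, ∀ e' ∈ E, ∀ x ∈ openSegment ℝ e.1 e.2, x ∈ segment ℝ e'.1 e'.2 →
      e' = e ∨ e' = (e.2, e.1)) {α β : ℝ} (hab : α < β) (hb : β ≤ α + 1)
    (hα : γ α ∈ Prod.fst '' E) (hβ : γ β ∈ Prod.fst '' E)
    (hn : ∀ t ∈ Ioo α β, γ t ∉ Prod.fst '' E) :
    (γ α, γ β) ∈ E ∧ γ '' Icc α β = segment ℝ (γ α) (γ β) := by
  obtain ⟨t₀, ht₀⟩ : (Ioo α β).Nonempty := nonempty_Ioo.2 hab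
  obtain ⟨e, he, k⟩ := (h2 _).1 (mem_range_self t₀)
  have cl : ∀ e : Rn n × Rn n, IsClosed (segment ℝ e.1 e.2) := fun e => by
    rw [← seg_image]
    exact (isCompact_Icc.image (tp_seg _ _).continuous).isClosed
  have op : ∀ t ∈ Ioo α β, γ t ∈ segment ℝ e.1 e.2 → γ t ∈ openSegment ℝ e.1 e.2 := fun t ht k =>
    ((ZPoly1_end k).resolve_left fun q => hn t ht ⟨e, he, q.symm⟩).resolve_left
      fun q => hn t ht ⟨_, hs e he, q.symm⟩
  have dj : ∀ t ∈ Ioo α β, γ t ∈ segment ℝ e.1 e.2 →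
      γ t ∉ ⋃ e' ∈ {e' ∈ E | ¬ (e' = e ∨ e' = (e.2, e.1))}, segment ℝ e'.1 e'.2 := by
    intro t ht k q
    obtain ⟨e', q1, q2⟩ := mem_iUnion₂.1 q
    exact q1.2 (h3 e he e' q1.1 _ (op t ht k) q2)
  have sub : γ '' Ioo α β ⊆ segment ℝ e.1 e.2 := by
    refine (isPreconnected_iff_subset_of_disjoint_closed.1
      (isPreconnected_Ioo.image γ hγ.continuous.continuousOn) _ _ (cl e)
      ((hE.sep fun e' => ¬ (e' = e ∨ e' = (e.2, e.1))).isClosed_biUnion fun e' _ => cl e') ?_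
      ?_).resolve_right fun q => dj t₀ ht₀ k (q ⟨t₀, ht₀, rfl⟩)
    · rintro _ ⟨t, -, rfl⟩
      obtain ⟨e', q1, q2⟩ := (h2 _).1 (mem_range_self t)
      by_cases q : e' = e ∨ e' = (e.2, e.1)
      · rcases q with rfl | rfl
        · exact Or.inl q2
        · exact Or.inl (segment_symm ℝ e.2 e.1 ▸ q2)
      · exact Or.inr (mem_iUnion₂.2 ⟨e', ⟨q1, q⟩, q2⟩)
    · refine eq_empty_of_forall_notMem ?_
      rintro _ ⟨⟨t, ht, rfl⟩, q1, q2⟩
      exact dj t ht q1 q2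
  have sub2 : γ '' Icc α β ⊆ segment ℝ e.1 e.2 := by
    rw [← closure_Ioo hab.ne]
    exact (image_closure_subset_closure_image hγ.continuous).trans (closure_minimal sub (cl e))
  have en : ∀ x ∈ Prod.fst '' E, x ∈ segment ℝ e.1 e.2 → x = e.1 ∨ x = e.2 := by
    rintro _ ⟨e', q, rfl⟩ k
    rcases ZPoly1_end k with k | k | k
    · exact Or.inl k
    · exact Or.inr k
    · exact (h3 e he e' q _ k (left_mem_segment ℝ _ _)).imp (congrArg Prod.fst) (congrArg Prod.fst)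
  have lt : β < α + 1 := by
    refine lt_of_le_of_ne hb fun q => h1 e he ?_
    have : ∀ x ∈ Prod.fst '' E, x = γ α := by
      rintro _ ⟨e', q', rfl⟩
      obtain ⟨s, s1, s2⟩ := (PArc_range h α).subset
        ((h2 _).2 ⟨e', q', left_mem_segment ℝ _ _⟩)
      rcases s1.1.eq_or_lt with r | r
      · rw [r, s2]
      · rcases s1.2.eq_or_lt with r' | r'
        · rw [← s2]
          exact (h _ _).2 ⟨1, by rw [r']; simp⟩
        · exact (hn s ⟨r, q ▸ r'⟩ ⟨e', q', s2.symm⟩).elim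
    exact (this _ ⟨e, he, rfl⟩).trans (this _ ⟨_, hs e he, rfl⟩).symm
  have inj : InjOn γ (Icc α β) := fun s hs t ht q =>
    ZPoly1_inj h q (by linarith [hs.2, ht.1]) (by linarith [hs.1, ht.2])
  have ne : γ α ≠ γ β := fun q => hab.ne (inj (left_mem_Icc.2 hab.le) (right_mem_Icc.2 hab.le) q)
  have fin : (γ α, γ β) ∈ E ∧ segment ℝ e.1 e.2 = segment ℝ (γ α) (γ β) := by
    rcases en _ hα (sub2 ⟨_, left_mem_Icc.2 hab.le, rfl⟩) with q | q <;>
      rcases en _ hβ (sub2 ⟨_, right_mem_Icc.2 hab.le, rfl⟩) with q' | q'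
    · exact (ne (q.trans q'.symm)).elim
    · rw [q, q']
      exact ⟨he, rfl⟩
    · rw [q, q']
      exact ⟨hs e he, segment_symm ℝ _ _⟩
    · exact (ne (q.trans q'.symm)).elim
  have ar := PArc_sub hγ hab.ne (by rwa [uIcc_of_le hab.le])
  rw [uIcc_of_le hab.le] at ar
  exact ⟨fin.1, tarc_eq ar.tarc (arc_seg ne).tarc (fin.2 ▸ sub2)⟩

/-- A circle which is a union of segments meeting only in their ends. -/
theorem zcyc1 {n : ℕ} {C : Set (Rn n)} (hC : Crc C) {E : Set (Rn n × Rn n)} (hE : E.Finite)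
    (h1 : ∀ e ∈ E, e.1 ≠ e.2) (hs : ∀ e ∈ E, (e.2, e.1) ∈ E)
    (h2 : ∀ x, x ∈ C ↔ ∃ e ∈ E, x ∈ segment ℝ e.1 e.2)
    (h3 : ∀ e ∈ E, ∀ e' ∈ E, ∀ x ∈ openSegment ℝ e.1 e.2, x ∈ segment ℝ e'.1 e'.2 →
      e' = e ∨ e' = (e.2, e.1)) :
    ∃ (m : ℕ) (v : ℕ → Rn n), 0 < m ∧ v m = v 0 ∧ (∀ i < m, (v i, v (i + 1)) ∈ E) ∧
      (∀ x, x ∈ C ↔ ∃ i < m, x ∈ segment ℝ (v i) (v (i + 1))) ∧
      ∀ i < m, ∀ j < m, ∀ s ∈ Ico (0 : ℝ) 1, ∀ t ∈ Ico (0 : ℝ) 1,
        seg (v i) (v (i + 1)) s = seg (v j) (v (j + 1)) t → i = j ∧ s = t := by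
  obtain ⟨γ, hγ, h, rfl⟩ := hC
  obtain ⟨e, he, -⟩ := (h2 _).1 (mem_range_self 0)
  obtain ⟨c, hc⟩ := (h2 _).2 ⟨e, he, left_mem_segment ℝ _ _⟩
  have per : γ (c + 1) = γ c := (h _ _).2 ⟨1, by simp⟩
  have fin : {t ∈ Icc c (c + 1) | γ t ∈ Prod.fst '' E}.Finite := by
    have : {t ∈ Ico c (c + 1) | γ t ∈ Prod.fst '' E}.Finite :=
      Finite.of_finite_image ((hE.image Prod.fst).subset (by rintro _ ⟨t, ht, rfl⟩; exact ht.2))
        fun s hs t ht q => ZPoly1_inj h q (by linarith [hs.1.2, ht.1.1])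
          (by linarith [hs.1.1, ht.1.2])
    refine (this.insert (c + 1)).subset fun t ht => ?_
    exact ht.1.2.eq_or_lt.imp id fun q => ⟨⟨ht.1.1, q⟩, ht.2⟩
  obtain ⟨m, u, m0, u0, um, u1, u2, u3⟩ := ZPoly1_list fin (lt_add_one c)
    ⟨left_mem_Icc.2 (lt_add_one c).le, e, he, hc.symm⟩
    ⟨right_mem_Icc.2 (lt_add_one c).le, e, he, (per.trans hc).symm⟩ fun t ht => ht.1
  have mo : ∀ i j, i ≤ m → j ≤ m → u i < u j → i < j := fun i j hi hj q => by
    by_contra r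
    rcases (not_lt.1 r).eq_or_lt with r | r
    · exact q.ne (congrArg u r.symm)
    · exact q.not_gt (u1 j i r hi)
  have gap : ∀ i < m, (γ (u i), γ (u (i + 1))) ∈ E ∧
      γ '' Icc (u i) (u (i + 1)) = segment ℝ (γ (u i)) (γ (u (i + 1))) := fun i hi => by
    have a1 := u2 i hi.le
    have a2 := u2 (i + 1) hi
    refine ZPoly1_gap hγ h hE h1 hs h2 h3 (u1 i (i + 1) i.lt_succ_self hi)
      (by linarith [a1.1.1, a2.1.2]) a1.2 a2.2 fun t ht q => ?_
    obtain ⟨k, k1, rfl⟩ := u3 t ⟨⟨a1.1.1.trans ht.1.le, ht.2.le.trans a2.1.2⟩, q⟩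
    have b1 := mo i k hi.le k1 ht.1
    have b2 := mo k (i + 1) k1 hi ht.2
    omega
  have par : ∀ i < m, ∀ s ∈ Ico (0 : ℝ) 1, ∃ p ∈ Ico (u i) (u (i + 1)),
      γ p = seg (γ (u i)) (γ (u (i + 1))) s := fun i hi s hs => by
    obtain ⟨p, p1, p2⟩ := (gap i hi).2.symm.subset
      ((seg_image _ _).subset ⟨s, Ico_subset_Icc_self hs, rfl⟩)
    refine ⟨p, ⟨p1.1, lt_of_le_of_ne p1.2 fun q => hs.2.ne ?_⟩, p2⟩
    refine ZPoly1_seg (h1 _ (gap i hi).1) (p2.symm.trans ?_)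
    simp [seg, q]
  refine ⟨m, fun i => γ (u i), m0, by simp only [u0, um, per], fun i hi => (gap i hi).1,
    fun x => ⟨fun hx => ?_, fun ⟨i, hi, q⟩ => (h2 x).2 ⟨_, (gap i hi).1, q⟩⟩,
    fun i hi j hj s hs t ht q => ?_⟩
  · obtain ⟨t, ht, rfl⟩ := (PArc_range h c).subset hx
    have ex : ∃ i, t ≤ u (i + 1) := ⟨m - 1, by rw [Nat.sub_add_cancel m0, um]; exact ht.2⟩
    have b1 : Nat.find ex ≤ m - 1 :=
      Nat.find_min' ex (by rw [Nat.sub_add_cancel m0, um]; exact ht.2)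
    refine ⟨Nat.find ex, by omega, (gap _ (by omega)).2.subset ⟨t, ⟨?_, Nat.find_spec ex⟩, rfl⟩⟩
    rcases Nat.eq_zero_or_eq_succ_pred (Nat.find ex) with r | r
    · rw [r, u0]
      exact ht.1
    · rw [r]
      exact (not_le.1 (Nat.find_min ex (m := (Nat.find ex).pred) (by omega))).le
  · obtain ⟨p, p1, p2⟩ := par i hi s hs
    obtain ⟨p', p3, p4⟩ := par j hj t ht
    have a1 := (u2 i hi.le).1
    have a2 := (u2 (i + 1) hi).1
    have a3 := (u2 j hj.le).1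
    have a4 := (u2 (j + 1) hj).1
    have pp : p = p' := ZPoly1_inj h (p2.trans (q.trans p4.symm))
      (by linarith [p1.2, p3.1, a2.2, a3.1]) (by linarith [p1.1, p3.2, a1.1, a4.2])
    have b1 := mo i (j + 1) hi.le hj (p1.1.trans_lt (pp ▸ p3.2))
    have b2 := mo j (i + 1) hj.le hi (p3.1.trans_lt (pp ▸ p1.2))
    obtain rfl : i = j := by omega
    exact ⟨rfl, ZPoly1_seg (h1 _ (gap i hi).1) q⟩

end BEp
end
end

-- merged part: Pool.Agent.Work.MP_f0515e_an.P3.ZPoly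
section
/-! The boundary of a face as a cyclic list of edges.
`h.φ` is an injective affine map of finite dimensional spaces, so a closed embedding (`LinearMap.isClosedEmbedding_of_injective`), with an affine left inverse (`LinearMap.exists_leftInverse_of_injective`); compare `Kx.chart2`.
`zcyc`: `Crc` gives a periodic `γ`; shift it so that `γ 0` is an end of an edge. The parameters in `[0, 1)` of the ends of the edges form a finite set containing `0`; list them increasingly (`Finset.orderEmbOfFin`) as `u 0 < u 1 < ..`, `u m = 1`,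
`v i = γ (u i)`. The connected set `γ '' Ioo (u i) (u (i + 1))` misses all ends, so lies in one open edge (finitely many closed segments, disjoint off the ends; `isPreconnected_iff_subset_of_disjoint_closed` or `IsPreconnected.subset_of_closure_inter_subset`);
its two limit points are ends in the closed edge, they are different (an edge has two ends, so `2 ≤ m`, and `γ` is injective on `[0, 1)` and on `(0, 1]`), so the edge is `(v i, v (i + 1))` up to order, and `tarc_eq` (`PArc_sub`, `arc_seg`) gives `γ '' Icc = segment`.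
`inj`: a point `seg (v i) (v (i + 1)) s`, `s < 1`, is `γ u` with `u ∈ Ico (u i) (u (i + 1))`. `zpoly`: apply `zcyc` to the pairs `(ξ, ξ')` in `closure h.U` with `K.Edge (h.φ ξ) (h.φ ξ')` (`Kx.finite_edge` or `faces_finite` with `KA2_fib`, `rb_sub_sk`,
`exists_facet`, `dm_one`, `Edge.inter`). About 350 lines. -/

open Set Metric Filter Topology Function BEv MeasureTheory
open scoped NNReal ENNReal

noncomputable section
namespace BEp

theorem Ch.tp (h : Ch) : TP h.φ :=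
  (TP.const h.o).add (TP.clm h.M)

theorem Ch.seg (h : Ch) (x y : Rn 2) (s : ℝ) : h.φ (seg x y s) = seg (h.φ x) (h.φ y) s := by
  simp only [Ch.φ, BEp.seg, map_add, map_smul, map_sub]
  module

theorem ZPoly_seg (h : Ch) (x y : Rn 2) : h.φ '' segment ℝ x y = segment ℝ (h.φ x) (h.φ y) := by
  rw [← seg_image, ← seg_image, image_image]
  exact image_congr fun s _ => h.seg x y s

theorem ZPoly_oseg (h : Ch) (x y : Rn 2) :
    h.φ '' openSegment ℝ x y = openSegment ℝ (h.φ x) (h.φ y) := by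
  rw [← seg_image_open, ← seg_image_open, image_image]
  exact image_congr fun s _ => h.seg x y s

variable {h : Ch} {F : Set (Rn 3)}

theorem ZPoly_emb (hh : h.Of F) : IsClosedEmbedding h.φ :=
  (Homeomorph.addLeft h.o).isClosedEmbedding.comp
    (LinearMap.isClosedEmbedding_of_injective (f := (h.M : Rn 2 →ₗ[ℝ] Rn 3))
      (LinearMap.ker_eq_bot.2 hh.1))

theorem Ch.Of.inj (hh : h.Of F) : Injective h.φ :=
  (ZPoly_emb hh).injective

theorem Ch.Of.cl (hh : h.Of F) : h.φ '' closure h.U = closure F := by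
  rw [← (ZPoly_emb hh).closure_image_eq, hh.2.2]

theorem Ch.Of.fr (hh : h.Of F) : h.φ '' frontier h.U = closure F \ F := by
  rw [hh.2.1.frontier_eq, image_sdiff hh.inj, hh.cl, hh.2.2]

/-- A circle which is a union of segments meeting only in their ends. -/
theorem zcyc {n : ℕ} {C : Set (Rn n)} (hC : Crc C) {E : Set (Rn n × Rn n)} (hE : E.Finite)
    (h1 : ∀ e ∈ E, e.1 ≠ e.2) (hs : ∀ e ∈ E, (e.2, e.1) ∈ E)
    (h2 : ∀ x, x ∈ C ↔ ∃ e ∈ E, x ∈ segment ℝ e.1 e.2)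
    (h3 : ∀ e ∈ E, ∀ e' ∈ E, ∀ x ∈ openSegment ℝ e.1 e.2, x ∈ segment ℝ e'.1 e'.2 →
      e' = e ∨ e' = (e.2, e.1)) :
    ∃ (m : ℕ) (v : ℕ → Rn n), 0 < m ∧ v m = v 0 ∧ (∀ i < m, (v i, v (i + 1)) ∈ E) ∧
      (∀ x, x ∈ C ↔ ∃ i < m, x ∈ segment ℝ (v i) (v (i + 1))) ∧
      ∀ i < m, ∀ j < m, ∀ s ∈ Ico (0 : ℝ) 1, ∀ t ∈ Ico (0 : ℝ) 1,
        seg (v i) (v (i + 1)) s = seg (v j) (v (j + 1)) t → i = j ∧ s = t :=
  zcyc1 hC hE h1 hs h2 h3

theorem zpoly {Ω : Set (Rn 3)} {K : Kx Ω} (hF : F ∈ K.cel 2) (hh : h.Of F) :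
    ∃ m v, ZP h.U m v ∧ ∀ i < m, K.Edge (h.φ (v i)) (h.φ (v (i + 1))) := by
  have hi := hh.inj
  have hv := Kx.cells_cvx hF.1
  have hc : Convex ℝ h.U := by
    rw [← preimage_image_eq h.U hi, hh.2.2]
    exact (hv.translate_preimage_right h.o).linear_preimage (h.M : Rn 2 →ₗ[ℝ] Rn 3)
  have hp : Poly (closure h.U) := by
    obtain ⟨N, hN⟩ := (h.M : Rn 2 →ₗ[ℝ] Rn 3).exists_leftInverse_of_injective
      (LinearMap.ker_eq_bot.2 hh.1)
    have h4 := (Kx.cells_poly hF.1).image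
      ((TP.clm (LinearMap.toContinuousLinearMap N)).comp (TP.id'.sub (TP.const h.o)))
    rw [← hh.cl, image_image] at h4
    have h5 (y : Rn 2) : LinearMap.toContinuousLinearMap N (h.φ y - h.o) = y := by
      rw [Ch.φ, add_sub_cancel_left]
      exact LinearMap.congr_fun hN y
    simpa only [h5, image_id'] using h4
  have hne : h.U.Nonempty := by
    refine Nonempty.of_image (f := h.φ) ?_
    rw [hh.2.2]
    exact Kx.cells_ne hF.1
  have hcl (ξ : Rn 2) : ξ ∈ closure h.U ↔ h.φ ξ ∈ closure F := by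
    rw [← hh.cl, hi.mem_set_image]
  have hfr (ξ : Rn 2) : ξ ∈ frontier h.U ↔ h.φ ξ ∈ closure F \ F := by
    rw [← hh.fr, hi.mem_set_image]
  have hs (ξ a b : Rn 2) : ξ ∈ segment ℝ a b ↔ h.φ ξ ∈ segment ℝ (h.φ a) (h.φ b) := by
    rw [← ZPoly_seg, hi.mem_set_image]
  have ho (ξ a b : Rn 2) : ξ ∈ openSegment ℝ a b ↔ h.φ ξ ∈ openSegment ℝ (h.φ a) (h.φ b) := by
    rw [← ZPoly_oseg, hi.mem_set_image]
  obtain ⟨m, v, h0, h1, h2, h3, h4⟩ := zcyc (kb_open hh.2.1 hc hp hne).crc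
    (E := {e | e.1 ∈ closure h.U ∧ e.2 ∈ closure h.U ∧ K.Edge (h.φ e.1) (h.φ e.2)})
    (by
      refine (((Kx.faces_finite hF.1).biUnion fun τ _ => K.KA2_fib τ).preimage
        (hi.prodMap hi).injOn).subset fun e he => ?_
      exact mem_biUnion (x := openSegment ℝ (h.φ e.1) (h.φ e.2))
        ⟨he.2.2.2, hv.closure.openSegment_subset ((hcl _).1 he.1) ((hcl _).1 he.2.1)⟩
        ⟨he.2.2, rfl⟩)
    (fun e he k => he.2.2.1 (congrArg h.φ k)) (fun e he => ⟨he.2.1, he.1, he.2.2.symm⟩)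
    (fun x => by
      rw [hfr]
      constructor
      · rintro ⟨k1, k2⟩
        obtain ⟨τ, t1, t2, t3, t4⟩ := Kx.exists_facet hF.1 k1 k2
        obtain ⟨a, b, hab, rfl⟩ := Kx.dm_one t1 (by have := hF.2; omega)
        have t5 := closure_minimal t3 isClosed_closure
        rw [hab.cl] at t4 t5
        rw [← hh.cl] at t5
        obtain ⟨a, ha, rfl⟩ := t5 (left_mem_segment ℝ a b)
        obtain ⟨b, hb, rfl⟩ := t5 (right_mem_segment ℝ _ b)
        exact ⟨(a, b), ⟨ha, hb, hab⟩, (hs x a b).2 t4⟩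
      · rintro ⟨e, he, hx⟩
        rw [hs] at hx
        refine ⟨hv.closure.segment_subset ((hcl _).1 he.1) ((hcl _).1 he.2.1) hx, fun k => ?_⟩
        have t1 := (he.2.2.seg_sub hx).2
        rw [Kx.cell_eq hF.1 k, hF.2] at t1
        omega)
    (fun e he e' he' x hx hx' => by
      rw [ho] at hx
      rw [hs] at hx'
      have t1 := Kx.cell_eq he.2.2.2 hx
      rcases Kx.KA2_cases he'.2.2 hx' with t2 | t2
      · have t3 := t2.2
        rw [t1, he.2.2.dm] at t3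
        omega
      · rcases he'.2.2.uniq (t2.1.symm.trans t1) with t3 | t3
        · exact Or.inl (Prod.ext (hi t3.1) (hi t3.2))
        · exact Or.inr (Prod.ext (hi t3.1) (hi t3.2)))
  exact ⟨m, v, ⟨hh.2.1, hc, hp, h0, h1, fun i k e => (h2 i k).2.2.1 (congrArg h.φ e), h3, h4⟩,
    fun i k => (h2 i k).2.2⟩

end BEp
end
end
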